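import Pool.Agent.H94.BG.H31.PT.M01

/-! The parts of this file: H61.NC.Second, H85.Kes.BlockOSSS, H89.Perc.RSWKey, H89.Perc.DualityA, H89.Perc.RSW, H89.Perc.DualityB, H89.Perc.Circuit, H89.Perc.Decay, H59.EX.Defs, H59.EX.Out0, H29.Sep.ExplA, H29.Sep.ExplB, H26.HP.Expl, H59.EX.S0, H59.EX.Corr, H59.EX.Seal. -/

section

/-!
# Second derivative of the probability of a local event
-/

open MeasureTheory ProbabilityTheory unitInterval

namespace Pool.Agent.H61.NC

open Pool.Agent.H89.Perc

end Pool.Agent.H61.NC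

end

section

/-!
# The OSSS inequality for explorations that reveal whole blocks of edges
-/

open MeasureTheory ProbabilityTheory unitInterval

namespace Pool.Agent.H85.Kes

open Pool.Agent.H89.Perc

variable {κ : Type*} [DecidableEq κ]

variable {s β R}

/-! ### Version for local events -/

end Pool.Agent.H85.Kes

end

section

/-!
# The Russo-Seymour-Welsh lemma (version of Bollobas and Riordan)
-/

open MeasureTheory ProbabilityTheory unitInterval

namespace Pool.Agent.H89.Perc

/-- There is an open bottom-top crossing of the square `[0, n]²` which is joined inside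
`[0, m] × [0, 2 n]` to the right side of the latter rectangle. -/
def XEvent (m n : ℕ) : Set Config :=
  {ω | ∃ u v w : Vert, u.2 = 0 ∧ v.2 = n ∧ w.1 = m ∧
    Conn ω (rect 0 n 0 n) u v ∧ Conn ω (rect 0 m 0 (2 * n)) u w}

/-- Image of a path under a map of vertices (local version). -/
theorem Conn.map_mem {ω ω' : Config} {S T : Set Vert} {u v : Vert} (f : Vert → Vert)
    (hf : ∀ w ∈ S, f w ∈ T)
    (hstep : ∀ e a b, a ∈ S → b ∈ S → Joins e a b → ω e = true →
      ∃ e', Joins e' (f a) (f b) ∧ ω' e' = true)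
    (h : Conn ω S u v) : Conn ω' T (f u) (f v) := by
  refine ⟨hf u h.1, ?_⟩
  obtain ⟨_, h2⟩ := h
  refine Relation.ReflTransGen.lift f ?_ _ _ h2
  rintro a b ⟨ha, hb, e, he, ho⟩
  exact ⟨hf a ha, hf b hb, hstep e a b ha hb he ho⟩

/-! ### The exploration from the left side of the square -/

/-- Edges of the square that the exploration may examine. -/
def rkInner (n : ℕ) (e : Edge) : Prop :=
  (e.2.2 = true ∧ 0 ≤ e.1 ∧ e.1 ≤ n ∧ 0 ≤ e.2.1 ∧ e.2.1 ≤ (n : ℤ) - 1) ∨
  (e.2.2 = false ∧ 0 ≤ e.1 ∧ e.1 ≤ (n : ℤ) - 1 ∧ 1 ≤ e.2.1 ∧ e.2.1 ≤ (n : ℤ) - 1)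

/-- Boundary conditions: outside the examined edges all horizontal edges are closed and all
vertical edges are open. -/
noncomputable def rkBc (n : ℕ) (ω : Config) : Config := fun e => by
  classical exact if rkInner n e then ω e else e.2.2

theorem rkBc_inner {n : ℕ} {ω : Config} {e : Edge} (h : rkInner n e) : rkBc n ω e = ω e := by
  unfold rkBc; simp [h]

theorem rkBc_not_inner {n : ℕ} {ω : Config} {e : Edge} (h : ¬ rkInner n e) :
    rkBc n ω e = e.2.2 := by
  unfold rkBc; simp [h]

/-- The faces considered. -/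
def rkD (n : ℕ) : Set Vert := rect (-1) n (-1) n

/-- The explored faces. -/
def rkZ (n : ℕ) (ω : Config) : Set Vert := {φ | Conn (dual (rkBc n ω)) (rkD n) (-1, 0) φ}

theorem mem_rkD {n : ℕ} {φ : Vert} :
    φ ∈ rkD n ↔ -1 ≤ φ.1 ∧ φ.1 ≤ n ∧ -1 ≤ φ.2 ∧ φ.2 ≤ n := Iff.rfl

theorem rkZ_subset (n : ℕ) (ω : Config) : rkZ n ω ⊆ rkD n := fun _ h => Conn.mem_right h

theorem rk_source_mem (n : ℕ) (ω : Config) : ((-1, 0) : Vert) ∈ rkZ n ω :=
  Conn.refl (by rw [mem_rkD]; simp)

theorem rkZ_step {n : ℕ} {ω : Config} {e : Edge} {φ ψ : Vert} (hφ : φ ∈ rkZ n ω) (hψ : ψ ∈ rkD n)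
    (he : Joins e φ ψ) (hc : rkBc n ω (crossed e) = false) : ψ ∈ rkZ n ω := by
  refine Conn.tail hφ ⟨Conn.mem_right hφ, hψ, e, he, ?_⟩
  simp [dual, hc]

/-- Vertical neighbours separated by a non examined edge. -/
theorem rkZ_vert {n : ℕ} {ω : Config} {i j : ℤ} (hi : -1 ≤ i) (hi' : i ≤ n) (hj : -1 ≤ j)
    (hj' : j + 1 ≤ n) (h : ¬ rkInner n (i, j + 1, false)) :
    (i, j) ∈ rkZ n ω ↔ (i, j + 1) ∈ rkZ n ω := by
  have hc : rkBc n ω (crossed (i, j, true)) = false := by
    have : crossed (i, j, true) = (i, j + 1, false) := by simp [crossed]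
    rw [this, rkBc_not_inner h]
  have hJ : Joins (i, j, true) (i, j) (i, j + 1) := Or.inl ⟨rfl, by simp [tgt]⟩
  constructor
  · intro hm
    exact rkZ_step hm (by rw [mem_rkD]; simp only; omega) hJ hc
  · intro hm
    exact rkZ_step hm (by rw [mem_rkD]; simp only; omega) hJ.symm hc

theorem rkZ_left {n : ℕ} {ω : Config} {j : ℤ} (hj : -1 ≤ j) (hj' : j ≤ n) :
    ((-1, j) : Vert) ∈ rkZ n ω := by
  have hno : ∀ y, ¬ rkInner n (-1, y, false) := by
    intro y h
    rcases h with h | h
    · simp at h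
    · have := h.2.1; simp at this
  have key : ∀ k : ℕ, (k : ℤ) ≤ n → ((-1, (k : ℤ)) : Vert) ∈ rkZ n ω := by
    intro k
    induction k with
    | zero => intro _; exact rk_source_mem n ω
    | succ k ih =>
      intro hk
      have h1 := ih (by push_cast at hk; omega)
      have := (rkZ_vert (ω := ω) (i := -1) (j := k) (by omega) (by omega) (by omega)
        (by push_cast at hk; omega) (hno _)).1 h1
      simpa using this
  by_cases h : j = -1
  · subst h
    have h0 := rk_source_mem n ω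
    by_cases hn : (0 : ℤ) ≤ n
    · exact (rkZ_vert (ω := ω) (i := -1) (j := -1) (by omega) (by omega) (by omega)
        (by omega) (hno _)).2 (by simpa using h0)
    · omega
  · have := key j.toNat (by omega)
    rwa [show ((j.toNat : ℕ) : ℤ) = j by omega] at this

theorem rkZ_row0 {n : ℕ} {ω : Config} {i : ℤ} (hi : -1 ≤ i) (hi' : i ≤ n) :
    (i, -1) ∈ rkZ n ω ↔ (i, 0) ∈ rkZ n ω := by
  have := rkZ_vert (n := n) (ω := ω) (i := i) (j := -1) hi hi' (by omega) (by omega)
    (by rintro (h | h)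
        · simp at h
        · have := h.2.2.2.1; simp at this)
  simpa using this

theorem rkZ_rown {n : ℕ} {ω : Config} {i : ℤ} (hn : 1 ≤ n) (hi : -1 ≤ i) (hi' : i ≤ n) :
    (i, (n : ℤ) - 1) ∈ rkZ n ω ↔ (i, (n : ℤ)) ∈ rkZ n ω := by
  have := rkZ_vert (n := n) (ω := ω) (i := i) (j := (n : ℤ) - 1) hi hi' (by omega) (by omega)
    (by rintro (h | h)
        · simp at h
        · have := h.2.2.2.2; simp at this)
  simpa using this

/-- If there is a vertical crossing, the exploration does not reach the right column. -/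
theorem rkZ_right {n : ℕ} {ω : Config} (hn : 1 ≤ n) (hV : VCross ω 0 n 0 n) (j : ℤ) :
    ((n : ℤ), j) ∉ rkZ n ω := by
  intro hj
  have hno := not_vcross_and_dual_hcross (ω := ω) (a := 0) (b := n) (c := 0) (d := n)
    (by exact_mod_cast hn) hV
  apply hno
  obtain ⟨w, w', h1, h2, h3, -⟩ := Conn.exists_exit (T := {φ : Vert | φ.1 < n}) hj
    (by simp only [Set.mem_ofPred_eq]; omega) (by simp)
  set cl : ℤ → ℤ := fun y => max 0 (min y ((n : ℤ) - 1)) with hcl
  have hcl1 : ∀ y, 0 ≤ cl y ∧ cl y ≤ (n : ℤ) - 1 := by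
    intro y; simp only [hcl]; omega
  have hcl2 : ∀ y, 0 ≤ y → y ≤ (n : ℤ) - 1 → cl y = y := by
    intro y _ _; simp only [hcl]; omega
  -- horizontal steps
  have hor : ∀ (e : Edge) (a b : Vert), a ∈ rkD n → b ∈ rkD n → Joins e a b → e.2.2 = false →
      dual (rkBc n ω) e = true →
      dual ω e = true ∧ a.2 = b.2 ∧ 0 ≤ a.2 ∧ a.2 ≤ (n : ℤ) - 1 := by
    rintro ⟨x, y, t⟩ a b ha hb hJ ht ho
    simp only at ht
    subst ht
    have hcr : crossed (x, y, false) = (x + 1, y, true) := by simp [crossed]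
    simp only [dual, hcr, Bool.not_eq_true'] at ho ⊢
    have hin : rkInner n (x + 1, y, true) := by
      by_contra h
      rw [rkBc_not_inner h] at ho
      exact absurd ho (by simp)
    rw [rkBc_inner hin] at ho
    have hy : a.2 = y ∧ b.2 = y := by
      rcases hJ with ⟨h1, h2⟩ | ⟨h1, h2⟩ <;> simp [h1, h2, src, tgt]
    refine ⟨ho, by rw [hy.1, hy.2], ?_⟩
    rcases hin with h | h
    · rw [hy.1]; exact ⟨h.2.2.2.1, h.2.2.2.2⟩
    · simp at h
  -- every explored face is joined to the left column in the original dual configuration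
  have key : ∃ ψ : Vert, ψ.1 = 0 - 1 ∧
      Conn (dual ω) (rect (0 - 1) n 0 ((n : ℤ) - 1)) ψ (w.1, cl w.2) := by
    refine h1.induction_right
      (P := fun φ => ∃ ψ : Vert, ψ.1 = 0 - 1 ∧
        Conn (dual ω) (rect (0 - 1) n 0 ((n : ℤ) - 1)) ψ (φ.1, cl φ.2)) ?_ ?_
    · refine ⟨(-1, cl 0), by simp, Conn.refl ?_⟩
      have := hcl1 0
      simp only [rect, Set.mem_ofPred_eq]
      omega
    · rintro a b hwa ⟨ha, hb, e, hJ, ho⟩ ⟨ψ, hψ, hc⟩
      have haD := ha.1
      have hbD := hb.1
      have hbT := hb.2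
      rw [mem_rkD] at haD hbD
      simp only [Set.mem_ofPred_eq] at hbT
      by_cases hb1 : b.1 = -1
      · refine ⟨(b.1, cl b.2), by simp [hb1], Conn.refl ?_⟩
        have := hcl1 b.2
        simp only [rect, Set.mem_ofPred_eq]
        omega
      refine ⟨ψ, hψ, ?_⟩
      cases ht : e.2.2
      · obtain ⟨h5, h6, h7, h8⟩ := hor e a b ha.1 hb.1 hJ ht ho
        rw [hcl2 a.2 h7 h8] at hc
        rw [← h6, hcl2 a.2 h7 h8]
        refine hc.tail ⟨hc.mem_right, ?_, e, ?_, h5⟩
        · simp only [rect, Set.mem_ofPred_eq]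
          omega
        · have : ((b.1, a.2) : Vert) = b := by rw [h6]
          rw [this]
          exact hJ
      · -- vertical step
        obtain ⟨x, y, t⟩ := e
        simp only at ht
        subst ht
        have hcr : crossed (x, y, true) = (x, y + 1, false) := by simp [crossed]
        simp only [dual, hcr, Bool.not_eq_true'] at ho
        have hab : (a = (x, y) ∧ b = (x, y + 1)) ∨ (a = (x, y + 1) ∧ b = (x, y)) := by
          rcases hJ with ⟨h1, h2⟩ | ⟨h1, h2⟩
          · left; exact ⟨by simpa [src] using h1, by simpa [tgt] using h2⟩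
          · right; exact ⟨by simpa [tgt] using h1, by simpa [src] using h2⟩
        have hbx : b.1 = x := by rcases hab with ⟨h1, h2⟩ | ⟨h1, h2⟩ <;> rw [h2]
        have hby : (a.2 = y ∧ b.2 = y + 1) ∨ (a.2 = y + 1 ∧ b.2 = y) := by
          rcases hab with ⟨h1, h2⟩ | ⟨h1, h2⟩ <;> simp [h1, h2]
        by_cases hin : rkInner n (x, y + 1, false)
        · rw [rkBc_inner hin] at ho
          have hy : 1 ≤ y + 1 ∧ y + 1 ≤ (n : ℤ) - 1 := by
            rcases hin with h | h
            · simp at h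
            · exact ⟨h.2.2.2.1, h.2.2.2.2⟩
          have hS : Step (dual ω) (rect (0 - 1) n 0 ((n : ℤ) - 1)) (x, y) (x, y + 1) := by
            refine ⟨?_, ?_, (x, y, true), Or.inl ⟨rfl, by simp [tgt]⟩, ?_⟩
            · simp only [rect, Set.mem_ofPred_eq]
              omega
            · simp only [rect, Set.mem_ofPred_eq]
              omega
            · simp [dual, hcr, ho]
          have e1 : cl y = y := hcl2 y (by omega) (by omega)
          have e2 : cl (y + 1) = y + 1 := hcl2 (y + 1) (by omega) (by omega)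
          rcases hab with ⟨h1, h2⟩ | ⟨h1, h2⟩
          · rw [h2]; rw [h1] at hc
            simp only [e1, e2] at hc ⊢
            exact hc.tail hS
          · rw [h2]; rw [h1] at hc
            simp only [e1, e2] at hc ⊢
            exact hc.tail hS.symm
        · -- the projected faces coincide
          have hxn : 0 ≤ x ∧ x ≤ (n : ℤ) - 1 := by omega
          have hy : y + 1 ≤ 0 ∨ (n : ℤ) ≤ y + 1 := by
            by_contra hc'
            push Not at hc'
            refine hin (Or.inr ⟨rfl, hxn.1, hxn.2, ?_, ?_⟩)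
            · show (1 : ℤ) ≤ y + 1
              omega
            · show y + 1 ≤ (n : ℤ) - 1
              omega
          have e1 : cl y = cl (y + 1) := by
            simp only [hcl]
            omega
          rcases hab with ⟨h1, h2⟩ | ⟨h1, h2⟩
          · rw [h2]; rw [h1] at hc
            simp only [e1] at hc ⊢
            exact hc
          · rw [h2]; rw [h1] at hc
            simp only [e1] at hc ⊢
            exact hc
  obtain ⟨ψ, hψ, hc⟩ := key
  obtain ⟨hw, hw', e, hJ, ho⟩ := h2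
  have hwT := h1.mem_right.2
  simp only [Set.mem_ofPred_eq, not_lt] at hwT h3
  have hw'D := hw'
  have hwD := hw
  rw [mem_rkD] at hw'D hwD
  have ht : e.2.2 = false := by
    by_contra ht
    rw [Bool.not_eq_false] at ht
    obtain ⟨x, y, t⟩ := e
    simp only at ht
    subst ht
    rcases hJ with ⟨h1, h2⟩ | ⟨h1, h2⟩ <;> rw [h1] at hwT <;> rw [h2] at h3 <;>
      simp [src, tgt] at hwT h3 <;> omega
  obtain ⟨h5, h6, h7, h8⟩ := hor e w w' hw hw' hJ ht ho
  rw [hcl2 w.2 h7 h8] at hc
  refine ⟨ψ, w', hψ, by omega, hc.tail ⟨hc.mem_right, ?_, e, hJ, h5⟩⟩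
  simp only [rect, Set.mem_ofPred_eq]
  omega

theorem isFace_crossed {e : Edge} {φ ψ : Vert} (h : Joins e φ ψ) :
    IsFace φ (crossed e) ∧ IsFace ψ (crossed e) := by
  obtain ⟨x, y, t⟩ := e
  rcases h with ⟨h1, h2⟩ | ⟨h1, h2⟩ <;> subst h1 h2 <;> cases t <;>
    simp [IsFace, crossed, src, tgt]

/-- The properties of the explored set used below. -/
structure RkGood (n : ℕ) (Z : Set Vert) : Prop where
  sub : Z ⊆ rkD n
  conn : ∀ u ∈ Z, ∀ v ∈ Z, Conn allOpen Z u v
  left : ∀ j : ℤ, -1 ≤ j → j ≤ n → ((-1, j) : Vert) ∈ Z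
  right : ∀ j : ℤ, ((n : ℤ), j) ∉ Z
  row0 : ∀ i : ℤ, -1 ≤ i → i ≤ n → ((i, -1) ∈ Z ↔ (i, 0) ∈ Z)
  rown : ∀ i : ℤ, -1 ≤ i → i ≤ n → ((i, (n : ℤ) - 1) ∈ Z ↔ (i, (n : ℤ)) ∈ Z)

theorem rkGood_of_vcross {n : ℕ} {ω : Config} (hn : 1 ≤ n) (hV : VCross ω 0 n 0 n) :
    RkGood n (rkZ n ω) where
  sub := rkZ_subset n ω
  conn := by
    have key : ∀ u ∈ rkZ n ω, Conn allOpen (rkZ n ω) (-1, 0) u := by
      intro u hu
      refine Conn.induction_right (P := fun u => Conn allOpen (rkZ n ω) (-1, 0) u) hu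
        (Conn.refl (rk_source_mem n ω)) ?_
      rintro a b hca hs ha
      refine ha.tail ⟨hca, Conn.tail hca hs, ?_⟩
      obtain ⟨_, _, e, hJ, _⟩ := hs
      exact ⟨e, hJ, rfl⟩
    intro u hu v hv
    exact (key u hu).symm.trans (key v hv)
  left := fun j h h' => rkZ_left h h'
  right := rkZ_right hn hV
  row0 := fun i h h' => rkZ_row0 h h'
  rown := fun i h h' => rkZ_rown hn h h'

/-- The side of the right column. -/
def rkK (n : ℕ) (Z : Set Vert) : Set Vert := comp (rkD n) Z ((n : ℤ), 0)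

section good

variable {n : ℕ} {Z : Set Vert}

theorem rkK_sub (n : ℕ) (Z : Set Vert) : rkK n Z ⊆ rkD n \ Z := fun _ h => Conn.mem_right h

theorem rkK_step {e : Edge} {φ ψ : Vert} (hφ : φ ∈ rkK n Z) (hψ : ψ ∈ rkD n) (hψ' : ψ ∉ Z)
    (hJ : Joins e φ ψ) : ψ ∈ rkK n Z :=
  Conn.tail hφ ⟨Conn.mem_right hφ, ⟨hψ, hψ'⟩, e, hJ, rfl⟩

theorem rkK_vert {i j : ℤ} (hi : -1 ≤ i) (hi' : i ≤ n) (hj : -1 ≤ j) (hj' : j + 1 ≤ n)
    (h : (i, j) ∈ Z ↔ (i, j + 1) ∈ Z) : (i, j) ∈ rkK n Z ↔ (i, j + 1) ∈ rkK n Z := by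
  have hJ : Joins (i, j, true) (i, j) (i, j + 1) := Or.inl ⟨rfl, by simp [tgt]⟩
  constructor
  · intro hm
    exact rkK_step hm (by rw [mem_rkD]; simp only; omega)
      (fun h' => (rkK_sub n Z hm).2 (h.2 h')) hJ
  · intro hm
    exact rkK_step hm (by rw [mem_rkD]; simp only; omega)
      (fun h' => (rkK_sub n Z hm).2 (h.1 h')) hJ.symm

theorem RkGood.k_row0 (hZ : RkGood n Z) {i : ℤ} (hi : -1 ≤ i) (hi' : i ≤ n) :
    (i, -1) ∈ rkK n Z ↔ (i, 0) ∈ rkK n Z := by
  have := rkK_vert (n := n) (Z := Z) (i := i) (j := -1) hi hi' (by omega) (by omega)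
    (by simpa using hZ.row0 i hi hi')
  simpa using this

theorem RkGood.k_rown (hn : 1 ≤ n) (hZ : RkGood n Z) {i : ℤ} (hi : -1 ≤ i) (hi' : i ≤ n) :
    (i, (n : ℤ) - 1) ∈ rkK n Z ↔ (i, (n : ℤ)) ∈ rkK n Z := by
  have := rkK_vert (n := n) (Z := Z) (i := i) (j := (n : ℤ) - 1) hi hi' (by omega) (by omega)
    (by simpa using hZ.rown i hi hi')
  simpa using this

theorem RkGood.k_right (hZ : RkGood n Z) {j : ℤ} (hj : -1 ≤ j) (hj' : j ≤ n) :
    ((n : ℤ), j) ∈ rkK n Z := by
  have h0 : ((n : ℤ), (0 : ℤ)) ∈ rkK n Z :=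
    Conn.refl ⟨by rw [mem_rkD]; simp only; omega, hZ.right 0⟩
  have key : ∀ k : ℕ, (k : ℤ) ≤ n → ((n : ℤ), (k : ℤ)) ∈ rkK n Z := by
    intro k
    induction k with
    | zero => intro _; simpa using h0
    | succ k ih =>
      intro hk
      push_cast at hk
      have h1 := ih (by omega)
      have := (rkK_vert (n := n) (Z := Z) (i := n) (j := k) (by omega) (by omega) (by omega)
        (by omega) (by simp [hZ.right])).1 h1
      simpa using this
  by_cases h : j = -1
  · subst h
    exact (hZ.k_row0 (by omega) le_rfl).2 h0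
  · have := key j.toNat (by omega)
    rwa [show ((j.toNat : ℕ) : ℤ) = j by omega] at this

theorem RkGood.k_left (hZ : RkGood n Z) (j : ℤ) : ((-1, j) : Vert) ∉ rkK n Z := by
  intro h
  have h1 := rkK_sub n Z h
  have h2 := h1.1
  rw [mem_rkD] at h2
  exact h1.2 (hZ.left j h2.2.2.1 h2.2.2.2)

/-- Reflected classification of faces: the side of the right column. -/
def rkKK (n : ℕ) (Z : Set Vert) : Set Vert :=
  {φ | (n : ℤ) < φ.1 ∨ φ ∈ rkK n Z ∨ (φ.1, 2 * (n : ℤ) - 1 - φ.2) ∈ rkK n Z}

theorem rkKK_refl {φ : Vert} : (φ.1, 2 * (n : ℤ) - 1 - φ.2) ∈ rkKK n Z ↔ φ ∈ rkKK n Z := by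
  simp only [rkKK, Set.mem_ofPred_eq, sub_sub_cancel, Prod.mk.eta]
  tauto

theorem RkGood.kk_low (hn : 1 ≤ n) (hZ : RkGood n Z) {φ : Vert} (h1 : φ.1 ≤ n)
    (h2 : φ.2 ≤ n) : φ ∈ rkKK n Z ↔ φ ∈ rkK n Z := by
  constructor
  · rintro (h | h | h)
    · omega
    · exact h
    · have h3 := (rkK_sub n Z h).1
      rw [mem_rkD] at h3
      simp only at h3
      by_cases h4 : φ.2 = n
      · rw [h4, show 2 * (n : ℤ) - 1 - n = (n : ℤ) - 1 by ring, hZ.k_rown hn h3.1 h3.2.1,
          ← h4] at h
        exact h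
      · have h5 : φ.2 = (n : ℤ) - 1 := by omega
        rw [h5, show 2 * (n : ℤ) - 1 - ((n : ℤ) - 1) = n by ring, ← hZ.k_rown hn h3.1 h3.2.1,
          ← h5] at h
        exact h
  · intro h; exact Or.inr (Or.inl h)

theorem RkGood.kk_right (hZ : RkGood n Z) {φ : Vert} (h1 : (n : ℤ) ≤ φ.1)
    (h2 : -1 ≤ φ.2) (h3 : φ.2 ≤ 2 * n) : φ ∈ rkKK n Z := by
  rcases h1.eq_or_lt with h | h
  · by_cases h4 : φ.2 ≤ n
    · right; left
      have := hZ.k_right h2 h4
      rwa [h, Prod.mk.eta] at this
    · right; right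
      have := hZ.k_right (j := 2 * (n : ℤ) - 1 - φ.2) (by omega) (by omega)
      show (φ.1, 2 * (n : ℤ) - 1 - φ.2) ∈ rkK n Z
      rw [← h]
      exact this
  · exact Or.inl h

theorem RkGood.kk_left (hZ : RkGood n Z) {φ : Vert} (h1 : φ.1 = -1) : φ ∉ rkKK n Z := by
  obtain ⟨i, j⟩ := φ
  simp only at h1
  subst h1
  rintro (h | h | h)
  · simp only at h; omega
  · exact hZ.k_left j h
  · exact hZ.k_left _ h

/-- The four faces around a vertex. -/
def Around (φ v : Vert) : Prop := (φ.1 = v.1 - 1 ∨ φ.1 = v.1) ∧ (φ.2 = v.2 - 1 ∨ φ.2 = v.2)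

/-- Vertices all of whose faces are on the right side. -/
def rkG (n : ℕ) (Z : Set Vert) : Set Vert := {v | ∀ φ, Around φ v → φ ∈ rkKK n Z}

theorem rkG_refl {v : Vert} : (v.1, 2 * (n : ℤ) - v.2) ∈ rkG n Z ↔ v ∈ rkG n Z := by
  simp only [rkG, Set.mem_ofPred_eq]
  constructor
  · intro h φ hφ
    rw [← rkKK_refl]
    apply h
    simp only [Around] at hφ ⊢
    omega
  · intro h φ hφ
    rw [← rkKK_refl]
    apply h
    simp only [Around] at hφ ⊢
    omega

theorem isFace_around {φ u v : Vert} {e : Edge} (hJ : Joins e u v) (h : IsFace φ e) :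
    Around φ u ∧ Around φ v := by
  obtain ⟨x, y, t⟩ := e
  rcases hJ with ⟨h1, h2⟩ | ⟨h1, h2⟩ <;> subst h1 h2 <;> rcases h with h | h <;> subst h <;>
    cases t <;> simp [Around, src, tgt]

/-- The boundary vertices. -/
def rkT (n : ℕ) (Z : Set Vert) : Set Vert :=
  {t | t ∈ rect 0 n 0 n ∧ ∃ e, src e ∈ rkD n ∧ tgt e ∈ rkD n ∧
    cutConfig (rkK n Z) e = false ∧ IsFace (t.1 - 1, t.2 - 1) e}

theorem rswkey_cutConfig_false {K : Set Vert} {e : Edge} :
    cutConfig K e = false ↔ ¬ (src e ∈ K ↔ tgt e ∈ K) := by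
  classical
  simp [cutConfig]

/-- A vertex of the square with faces of both kinds is a boundary vertex. -/
theorem rkT_of_mixed {v : Vert} (hv : v ∈ rect 0 n 0 n) (h1 : ∃ φ, Around φ v ∧ φ ∈ rkK n Z)
    (h2 : ∃ φ, Around φ v ∧ φ ∉ rkK n Z) : v ∈ rkT n Z := by
  by_contra hno
  have hv' := hv
  simp only [rect, Set.mem_ofPred_eq] at hv'
  have key : ∀ e : Edge, src e ∈ rkD n → tgt e ∈ rkD n → IsFace (v.1 - 1, v.2 - 1) e →
      (src e ∈ rkK n Z ↔ tgt e ∈ rkK n Z) := by
    intro e ha hb hf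
    by_contra hc
    exact hno ⟨hv, e, ha, hb, rswkey_cutConfig_false.2 hc, hf⟩
  have k1 := key (v.1 - 1, v.2 - 1, false) (by rw [mem_rkD]; simp only [src]; omega)
    (by rw [mem_rkD]; simp only [tgt]; simp; omega) (by simp [IsFace, src])
  have k2 := key (v.1 - 1, v.2 - 1, true) (by rw [mem_rkD]; simp only [src]; omega)
    (by rw [mem_rkD]; simp only [tgt]; simp; omega) (by simp [IsFace, src])
  have k3 := key (v.1 - 1, v.2, false) (by rw [mem_rkD]; simp only [src]; omega)
    (by rw [mem_rkD]; simp only [tgt]; simp; omega) (by simp [IsFace, src])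
  simp only [src, tgt, sub_add_cancel, if_true, Bool.false_eq_true, if_false] at k1 k2 k3
  have all : ∀ φ, Around φ v → (φ ∈ rkK n Z ↔ (v.1 - 1, v.2 - 1) ∈ rkK n Z) := by
    rintro ⟨i, j⟩ ⟨h3 | h3, h4 | h4⟩ <;> simp only at h3 h4 <;> subst h3 h4 <;> tauto
  obtain ⟨φ, hφ, hφ'⟩ := h1
  obtain ⟨ψ, hψ, hψ'⟩ := h2
  exact hψ' ((all ψ hψ).2 ((all φ hφ).1 hφ'))

theorem rk_switch {P : ℤ → Prop} (n : ℕ) (h0 : ¬ P (-1)) (h1 : P n) :
    ∃ i : ℤ, 0 ≤ i ∧ i ≤ n ∧ ¬ P (i - 1) ∧ P i := by
  by_contra hno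
  push Not at hno
  have key : ∀ k : ℕ, k ≤ n → ¬ P k := by
    intro k
    induction k with
    | zero =>
      intro _ h
      exact h0 (by by_contra hc; exact hno 0 le_rfl (by omega) (by simpa using hc) (by simpa using h))
    | succ k ih =>
      intro hk h
      have h2 := ih (by omega)
      exact hno ((k + 1 : ℕ) : ℤ) (by omega) (by exact_mod_cast hk) (by simpa using h2) h
  exact key n le_rfl h1

theorem RkGood.bottom (hn : 1 ≤ n) (hZ : RkGood n Z) : ∃ u ∈ rkT n Z, u.2 = 0 := by
  obtain ⟨i, h1, h2, h3, h4⟩ := rk_switch (P := fun i => ((i, (0 : ℤ)) : Vert) ∈ rkK n Z) n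
    (hZ.k_left 0) (hZ.k_right (by omega) (by omega))
  refine ⟨(i, 0), rkT_of_mixed ?_ ⟨(i, 0), ?_, h4⟩ ⟨(i - 1, 0), ?_, h3⟩, rfl⟩
  · simp only [rect, Set.mem_ofPred_eq]; omega
  · simp [Around]
  · simp [Around]

theorem RkGood.top (hn : 1 ≤ n) (hZ : RkGood n Z) : ∃ v ∈ rkT n Z, v.2 = n := by
  obtain ⟨i, h1, h2, h3, h4⟩ := rk_switch (P := fun i => ((i, (n : ℤ)) : Vert) ∈ rkK n Z) n
    (hZ.k_left n) (hZ.k_right (by omega) (by omega))
  refine ⟨(i, n), rkT_of_mixed ?_ ⟨(i, n), ?_, h4⟩ ⟨(i - 1, n), ?_, h3⟩, rfl⟩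
  · simp only [rect, Set.mem_ofPred_eq]; omega
  · simp [Around]
  · simp [Around]

/-- Vertices of the tall rectangle with faces of both kinds. -/
theorem RkGood.mixed (hn : 1 ≤ n) (hZ : RkGood n Z) {m : ℕ} {v : Vert}
    (hv : v ∈ rect 0 m 0 (2 * n)) (h1 : ∃ φ, Around φ v ∧ φ ∈ rkKK n Z)
    (h2 : ∃ φ, Around φ v ∧ φ ∉ rkKK n Z) :
    v ∈ rkT n Z ∨ (v.1, 2 * (n : ℤ) - v.2) ∈ rkT n Z := by
  -- the lower half
  have low : ∀ v : Vert, v ∈ rect 0 m 0 (2 * n) → v.2 ≤ n → (∃ φ, Around φ v ∧ φ ∈ rkKK n Z) →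
      (∃ φ, Around φ v ∧ φ ∉ rkKK n Z) → v ∈ rkT n Z := by
    rintro v hv hv2 ⟨φ, hφ, hφ'⟩ ⟨ψ, hψ, hψ'⟩
    simp only [rect, Set.mem_ofPred_eq] at hv
    have hψ1 : ψ.1 < n := by
      by_contra hc
      push Not at hc
      refine hψ' (hZ.kk_right hc ?_ ?_) <;> simp only [Around] at hψ <;> omega
    have hvn : v.1 ≤ n := by simp only [Around] at hψ; omega
    refine rkT_of_mixed ?_ ⟨φ, hφ, ?_⟩ ⟨ψ, hψ, ?_⟩
    · simp only [rect, Set.mem_ofPred_eq]; omega
    · refine (hZ.kk_low hn ?_ ?_).1 hφ' <;> simp only [Around] at hφ <;> omega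
    · intro hc
      refine hψ' ((hZ.kk_low hn ?_ ?_).2 hc) <;> simp only [Around] at hψ <;> omega
  by_cases hv2 : v.2 ≤ n
  · exact Or.inl (low v hv hv2 h1 h2)
  · right
    refine low _ ?_ ?_ ?_ ?_
    · simp only [rect, Set.mem_ofPred_eq] at hv ⊢; omega
    · simp only; omega
    · obtain ⟨φ, hφ, hφ'⟩ := h1
      refine ⟨(φ.1, 2 * (n : ℤ) - 1 - φ.2), ?_, rkKK_refl.2 hφ'⟩
      simp only [Around] at hφ ⊢
      omega
    · obtain ⟨φ, hφ, hφ'⟩ := h2
      refine ⟨(φ.1, 2 * (n : ℤ) - 1 - φ.2), ?_, fun h => hφ' (rkKK_refl.1 h)⟩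
      simp only [Around] at hφ ⊢
      omega

/-- Close the edges of a finite set. -/
def mask (B : Finset Edge) (ω : Config) : Config := fun e => ω e && !decide (e ∈ B)

theorem mask_of_notMem {B : Finset Edge} {ω : Config} {e : Edge} (h : e ∉ B) :
    mask B ω e = ω e := by simp [mask, h]

theorem mask_le {B : Finset Edge} {ω : Config} {e : Edge} (h : mask B ω e = true) :
    ω e = true := by
  simp only [mask, Bool.and_eq_true] at h
  exact h.1

end good

/-! ### The probability estimate -/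

end Pool.Agent.H89.Perc

end

section

/-!
# Topology, part 3: rectangle duality
-/

namespace Pool.Agent.H89.Perc

variable {ω : Config}

/-- If there is no open left-right crossing, there is a dual bottom-top crossing. -/
theorem hcross_or_dual_vcross {a b c d : ℤ} (hab : a < b) (hcd : c ≤ d) :
    HCross ω a b c d ∨ VCross (dual ω) a (b - 1) (c - 1) d := by
  classical
  by_contra hno
  push Not at hno
  obtain ⟨hH, hV⟩ := hno
  have hd1 : d + 1 - 1 = d := by ring
  set C : Set Vert := {v | ∃ u : Vert, u.1 = a ∧ Conn ω (rect a b c d) u v} with hC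
  set χ : Vert → ZMod 2 := fun v => if (v.1, max c (min d v.2)) ∈ C then 1 else 0 with hχ
  set T : Set Vert := {F | ∃ φ : Vert, φ.2 = c - 1 ∧
    Conn (dual ω) (rect a (b - 1) (c - 1) (d + 1 - 1)) φ F} with hT
  have hopen : ∀ e : Edge, src e ∈ rect a b c d → tgt e ∈ rect a b c d → ω e = true →
      (src e ∈ C ↔ tgt e ∈ C) := by
    intro e h1 h2 h3
    constructor
    · rintro ⟨u, h4, h5⟩
      exact ⟨u, h4, h5.tail ⟨h1, h2, e, joins_src_tgt e, h3⟩⟩
    · rintro ⟨u, h4, h5⟩
      exact ⟨u, h4, h5.tail ⟨h2, h1, e, (joins_src_tgt e).symm, h3⟩⟩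
  have hclosed : ∀ e : Edge, src e ∈ rect a (b - 1) (c - 1) (d + 1 - 1) →
      lowFace e ∈ rect a (b - 1) (c - 1) (d + 1 - 1) → χ (src e) ≠ χ (tgt e) → ω e = false := by
    rintro ⟨x, y, t⟩ h1 h2 h3
    by_contra h4
    rw [Bool.not_eq_false] at h4
    cases t
    · simp only [src, lowFace, rect, Set.mem_ofPred_eq, Bool.false_eq_true, if_false] at h1 h2
      have e1 : max c (min d y) = y := by omega
      simp only [hχ, src, tgt, Bool.false_eq_true, if_false, e1] at h3
      have h5 := hopen (x, y, false) ⟨h1.1, by simp only [src]; omega, by simp only [src]; omega,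
        by simp only [src]; omega⟩ ⟨by simp [tgt]; omega, by simp [tgt]; omega,
        by simp [tgt]; omega, by simp [tgt]; omega⟩ h4
      simp only [src, tgt, Bool.false_eq_true, if_false] at h5
      simp only [h5, ne_eq, not_true_eq_false] at h3
    · simp only [src, lowFace, rect, Set.mem_ofPred_eq, if_true] at h1 h2
      simp only [hχ, src, tgt, if_true] at h3
      by_cases hy : y = c - 1
      · have e1 : max c (min d y) = max c (min d (y + 1)) := by omega
        rw [e1] at h3
        exact h3 rfl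
      by_cases hy' : y = d
      · have e1 : max c (min d y) = max c (min d (y + 1)) := by omega
        rw [e1] at h3
        exact h3 rfl
      have e1 : max c (min d y) = y := by omega
      have e2 : max c (min d (y + 1)) = y + 1 := by omega
      rw [e1, e2] at h3
      have h5 := hopen (x, y, true) ⟨h1.1, by simp only [src]; omega, by simp only [src]; omega,
        by simp only [src]; omega⟩ ⟨by simp [tgt]; omega, by simp [tgt]; omega,
        by simp [tgt]; omega, by simp [tgt]; omega⟩ h4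
      simp only [src, tgt, if_true] at h5
      simp only [h5, ne_eq, not_true_eq_false] at h3
  obtain ⟨W, hW⟩ := cut_lemma (a := a) (b := b) (c := c - 1) (d := d + 1) χ T
    (fun F ⟨φ, _, hF⟩ => hF.mem_right) (by
      intro e h1 h2 h3
      have h4 := dual_step (hclosed e h1 h2 h3) h2 h1
      constructor
      · rintro ⟨φ, h5, h6⟩
        exact ⟨φ, h5, h6.tail h4.symm⟩
      · rintro ⟨φ, h5, h6⟩
        exact ⟨φ, h5, h6.tail h4⟩)
  have hWe : ∀ e, src e ∈ rect a b (c - 1) (d + 1) → tgt e ∈ rect a b (c - 1) (d + 1) →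
      χ (src e) = χ (tgt e) → W (src e) = W (tgt e) := by
    intro e h1 h2 h3
    by_cases h4 : src e ∈ T ∨ lowFace e ∈ T
    · have := (hW e h1 h2).1 h4
      rwa [h3, z2_add_self, z2_add_eq_zero] at this
    · push Not at h4
      exact (hW e h1 h2).2 h4.1 h4.2
  have hχa : ∀ y, χ (a, y) = 1 := by
    intro y
    simp only [hχ]
    rw [if_pos]
    exact ⟨(a, max c (min d y)), rfl, Conn.refl ⟨le_rfl, hab.le, by simp only; omega,
      by simp only; omega⟩⟩
  have hχb : ∀ y, χ (b, y) = 0 := by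
    intro y
    simp only [hχ]
    rw [if_neg]
    rintro ⟨u, h1, h2⟩
    exact hH ⟨u, _, h1, rfl, h2⟩
  have hcola : W (a, c - 1) = W (a, d + 1) := by
    refine const_col (by omega) fun y h1 h2 => ?_
    refine hWe (a, y, true) ⟨by simp [src], by simp [src]; omega, by simp [src]; omega,
      by simp [src]; omega⟩ ⟨by simp [tgt], by simp [tgt]; omega, by simp [tgt]; omega,
      by simp [tgt]; omega⟩ ?_
    simp only [src, tgt, if_true]
    rw [hχa, hχa]
  have hcolb : W (b, c - 1) = W (b, d + 1) := by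
    refine const_col (by omega) fun y h1 h2 => ?_
    refine hWe (b, y, true) ⟨by simp [src]; omega, by simp [src], by simp [src]; omega,
      by simp [src]; omega⟩ ⟨by simp [tgt]; omega, by simp [tgt], by simp [tgt]; omega,
      by simp [tgt]; omega⟩ ?_
    simp only [src, tgt, if_true]
    rw [hχb, hχb]
  have htop : W (a, d + 1) = W (b, d + 1) := by
    refine const_row hab.le fun x h1 h2 => ?_
    refine (hW (x, d + 1, false) ⟨by simp [src]; omega, by simp [src]; omega,
      by simp [src]; omega, by simp [src]⟩ ⟨by simp [tgt]; omega, by simp [tgt]; omega,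
      by simp [tgt]; omega, by simp [tgt]⟩).2 ?_ ?_
    · rintro ⟨φ, _, h3⟩
      have h4 := h3.mem_right
      simp only [src, rect, Set.mem_ofPred_eq] at h4
      omega
    · rintro ⟨φ, h4, h3⟩
      rw [hd1] at h3
      exact hV ⟨φ, _, h4, by simp [lowFace], h3⟩
  have hbot : W (a, c - 1) + χ (a, c - 1) = W (b, c - 1) + χ (b, c - 1) := by
    refine const_row (f := fun v => W v + χ v) hab.le fun x h1 h2 => ?_
    have h3 := (hW (x, c - 1, false) ⟨by simp [src]; omega, by simp [src]; omega,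
      by simp [src], by simp [src]; omega⟩ ⟨by simp [tgt]; omega, by simp [tgt]; omega,
      by simp [tgt], by simp [tgt]; omega⟩).1 (Or.inl ⟨(x, c - 1), rfl, Conn.refl
      ⟨by simp only; omega, by simp only; omega, by simp only; omega, by simp only; omega⟩⟩)
    simp only [src, tgt, Bool.false_eq_true, if_false] at h3
    rw [← z2_add_eq_zero]
    linear_combination h3 + z2_add_self (χ (x, c - 1)) + z2_add_self (χ (x + 1, c - 1))
  rw [hχa, hχb, hcola, htop, ← hcolb, add_zero] at hbot
  exact absurd (left_eq_add.1 hbot.symm) (by decide)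

end Pool.Agent.H89.Perc

end

section

/-!
# Russo-Seymour-Welsh at the self-dual point
-/

open MeasureTheory ProbabilityTheory unitInterval

namespace Pool.Agent.H89.Perc

/-! ### The mirror image of `XEvent` -/

/-- Mirror image of `XEvent m n` under `x ↦ n - x`. -/
def rsw_XEvent' (m n : ℕ) : Set Config :=
  {ω | ∃ u v w : Vert, u.2 = 0 ∧ v.2 = n ∧ w.1 = (n : ℤ) - m ∧
    Conn ω (rect 0 n 0 n) u v ∧ Conn ω (rect ((n : ℤ) - m) n 0 (2 * n)) u w}

lemma rsw_rect_subset {a b c d a' b' c' d' : ℤ} (h1 : a' ≤ a) (h2 : b ≤ b') (h3 : c' ≤ c)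
    (h4 : d ≤ d') : rect a b c d ⊆ rect a' b' c' d' := by
  rintro x ⟨hx1, hx2, hx3, hx4⟩
  exact ⟨h1.trans hx1, hx2.trans h2, h3.trans hx3, hx4.trans h4⟩

lemma rsw_incr_XEvent (m n : ℕ) : Incr (XEvent m n) := by
  rintro ω ω' h ⟨u, v, w, hu, hv, hw, h1, h2⟩
  exact ⟨u, v, w, hu, hv, hw, h1.mono le_rfl h, h2.mono le_rfl h⟩

lemma rsw_incr_XEvent' (m n : ℕ) : Incr (rsw_XEvent' m n) := by
  rintro ω ω' h ⟨u, v, w, hu, hv, hw, h1, h2⟩
  exact ⟨u, v, w, hu, hv, hw, h1.mono le_rfl h, h2.mono le_rfl h⟩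

lemma rsw_symm_half : σ half = half := by
  apply Subtype.ext
  simp only [unitInterval.coe_symm_eq, half]
  norm_num

end Pool.Agent.H89.Perc

end

section

/-!
# Topology, part 4: gluing and blocking
-/

namespace Pool.Agent.H89.Perc

end Pool.Agent.H89.Perc

end

section

/-!
# Blocking circuits
-/

open MeasureTheory ProbabilityTheory unitInterval

namespace Pool.Agent.H89.Perc

end Pool.Agent.H89.Perc

end

section

/-!
# Decay of the one-arm probability at the self-dual point
-/

open MeasureTheory ProbabilityTheory unitInterval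

namespace Pool.Agent.H89.Perc

lemma σ_half : σ half = half := by
  apply Subtype.ext
  simp only [half, unitInterval.coe_symm_eq]
  norm_num

/-- Annulus crossing event using only vertices of `ball 0 r` outside `ball 0 s`. -/
def Ann (s r : ℕ) : Set Config :=
  {ω | ∃ w ∈ ball 0 (s + 1), ∃ u ∈ sphere 0 r, Conn ω (ball 0 r \ ball 0 s) w u}

lemma ball_subset_ball {r r' : ℕ} (h : r ≤ r') : ball 0 r ⊆ ball 0 r' := by
  intro v hv
  simp only [mem_ball, Prod.fst_zero, Prod.snd_zero] at hv ⊢
  omega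

end Pool.Agent.H89.Perc

end

section

/-!
# Separated four-arm events: definitions

`Src` is a pair of points near the origin together with a set of closed edges (for instance the two
endpoints of an edge with the edge itself closed).  `Sep s d d' k` is the four-arm event to distance
`32 k` in which the cluster of `x` leaves the ball only through the mouth on side `d`, the cluster
of `y` only through the mouth on side `d'`, even if all edges in the two target rectangles
`T d k`, `T d' k` are opened, and both clusters contain a crossing of their target rectangle.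
-/

open MeasureTheory ProbabilityTheory unitInterval

namespace Pool.Agent.H59.EX

open Pool.Agent.H89.Perc

/-- The event `A` depends only on the edges in the (arbitrary) set `s`. -/
def LocS (s : Set Edge) (A : Set Config) : Prop :=
  ∀ ω ω' : Config, (∀ e ∈ s, ω e = ω' e) → ω ∈ A → ω' ∈ A

/-- Edges with both endpoints in `S`. -/
def inE (S : Set Vert) : Set Edge := {e | src e ∈ S ∧ tgt e ∈ S}

/-- Edges with both endpoints in `D` and at least one endpoint in `S`. -/
def touch (D S : Set Vert) : Set Edge := {e | e ∈ inE D ∧ (src e ∈ S ∨ tgt e ∈ S)}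

/-- The union of the clusters of the points of `X` in the graph `D`. -/
def clus (ω : Config) (D X : Set Vert) : Set Vert := {v | ∃ x ∈ X, Conn ω D x v}

/-- Open all edges inside `Z`. -/
noncomputable def fillV (Z : Set Vert) (ω : Config) : Config := fun e => by
  classical exact ω e || decide (e ∈ inE Z)

/-- Close all edges in `t`. -/
noncomputable def closeS (t : Set Edge) (ω : Config) : Config := fun e => by
  classical exact ω e && decide (e ∉ t)

/-- A source: two points near the origin and a finite set of closed edges near the origin. -/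
structure Src where
  /-- first point -/
  x : Vert
  /-- second point -/
  y : Vert
  /-- closed edges -/
  E0 : Finset Edge
  hx : x ∈ ball 0 2
  hy : y ∈ ball 0 2
  hE : ∀ e ∈ E0, src e ∈ ball 0 2 ∧ tgt e ∈ ball 0 2

/-- The configuration with the edges of the source closed. -/
noncomputable def Src.cut (s : Src) (ω : Config) : Config := closeS (s.E0 : Set Edge) ω

/-- The four sides of a square. -/
inductive Side
  | E | N | W | S
  deriving DecidableEq

/-- Target rectangle at side `d` of `ball 0 (32 k)`. -/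
def T (d : Side) (k : ℕ) : Set Vert :=
  match d with
  | .E => rect (28 * k) (36 * k) (-(3 * k)) (3 * k)
  | .N => rect (-(3 * k)) (3 * k) (28 * k) (36 * k)
  | .W => rect (-(36 * k)) (-(28 * k)) (-(3 * k)) (3 * k)
  | .S => rect (-(3 * k)) (3 * k) (-(36 * k)) (-(28 * k))

/-- Mouth at side `d` of `ball 0 (32 k)`. -/
def Mouth (d : Side) (k : ℕ) : Set Vert :=
  match d with
  | .E => rect (32 * k) (32 * k) (-(4 * k)) (4 * k)
  | .N => rect (-(4 * k)) (4 * k) (32 * k) (32 * k)
  | .W => rect (-(32 * k)) (-(32 * k)) (-(4 * k)) (4 * k)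
  | .S => rect (-(4 * k)) (4 * k) (-(32 * k)) (-(32 * k))

/-- `x` is joined in `D` to an open crossing of the target rectangle (parallel to the side). -/
def Fence (d : Side) (k : ℕ) (ω : Config) (D : Set Vert) (x : Vert) : Prop :=
  match d with
  | .E => ∃ u v : Vert, u.2 = -(3 * k) ∧ v.2 = 3 * k ∧ Conn ω (T .E k) u v ∧ Conn ω D x u
  | .N => ∃ u v : Vert, u.1 = -(3 * k) ∧ v.1 = 3 * k ∧ Conn ω (T .N k) u v ∧ Conn ω D x u
  | .W => ∃ u v : Vert, u.2 = -(3 * k) ∧ v.2 = 3 * k ∧ Conn ω (T .W k) u v ∧ Conn ω D x u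
  | .S => ∃ u v : Vert, u.1 = -(3 * k) ∧ v.1 = 3 * k ∧ Conn ω (T .S k) u v ∧ Conn ω D x u

/-- The domain of the separated event. -/
def dom (d d' : Side) (k : ℕ) : Set Vert := ball 0 (32 * k) ∪ (T d k ∪ T d' k)

/-- Separated four-arm event. -/
def Sep (s : Src) (d d' : Side) (k : ℕ) : Set Config :=
  {ω | Fence d k (s.cut ω) (dom d d' k) s.x ∧ Fence d' k (s.cut ω) (dom d d' k) s.y ∧
    ¬ Conn (fillV (T d k ∪ T d' k) (s.cut ω)) (dom d d' k) s.x s.y ∧
    (∀ v ∈ sphere 0 (32 * k),
      Conn (fillV (T d k ∪ T d' k) (s.cut ω)) (dom d d' k) s.x v → v ∈ Mouth d k) ∧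
    (∀ v ∈ sphere 0 (32 * k),
      Conn (fillV (T d k ∪ T d' k) (s.cut ω)) (dom d d' k) s.y v → v ∈ Mouth d' k)}

end Pool.Agent.H59.EX

end

section

/-!
# Outward separation: definitions for the stage scheme (abstract corridors)

`CorrData w ρ v d Z Nev`: a corridor `Z` starting at the boundary vertex `v` of `ball 0 (8 w)` and
containing the target rectangle `T d (4 w)`; if the increasing event `Nev` of the edges inside `Z`
happens, every path coming out of `ball v ρ` is joined inside `Z` to a fence of the target.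
-/

open MeasureTheory ProbabilityTheory unitInterval

namespace Pool.Agent.H59.EX

open Pool.Agent.H89.Perc

/-- A corridor with its crossing event. -/
structure CorrData (w ρ : ℕ) (v : Vert) (d : Side) (Z : Set Vert) (Nev : Set Config) : Prop where
  ball_sub : ball v (3 * ρ) ⊆ Z
  T_sub : T d (4 * w) ⊆ Z
  sub : Z ⊆ ball 0 (128 * w) ∪ T d (4 * w)
  inter : ∀ a ∈ Z, ∀ b ∈ ball 0 (8 * w), b ∈ ball a ρ → b ∈ ball v (5 * ρ)
  conn : ∀ a ∈ Z, ∀ b ∈ Z, Conn allOpen Z a b
  incr : Incr Nev
  loc : LocS (inE Z) Nev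
  hook : ∀ ω ∈ Nev, ∀ (η : Config) (D : Set Vert) (u u' : Vert), Conn η D u u' → u ∈ ball v ρ →
    u' ∉ ball v (3 * ρ) → ∃ z, Conn η D u z ∧ Fence d (4 * w) ω Z z
  mouth : ∀ z ∈ sphere 0 (128 * w), ∀ a ∈ Z, z ∈ ball a w → z ∈ Mouth d (4 * w)

end Pool.Agent.H59.EX

end

section

/-!
# Exploration of full clusters and conditional FKG

`cl ω D X` is the open cluster of the vertex set `X` inside the vertex set `D`.  The event
`cl ω D X = S` only depends on the edges touching `S`; all other edges are fresh.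
-/

open MeasureTheory ProbabilityTheory unitInterval

namespace Pool.Agent.H29.Sep

open Pool.Agent.H89.Perc

variable {p : I}

/-- The edges of `s` touching the vertex set `S`. -/
noncomputable def touch (s : Finset Edge) (S : Set Vert) : Finset Edge := by
  classical exact s.filter (fun e => src e ∈ S ∨ tgt e ∈ S)

end Pool.Agent.H29.Sep

end

section

/-!
# Conditional FKG and conditional independence after an exploration
-/

open MeasureTheory ProbabilityTheory unitInterval

namespace Pool.Agent.H29.Sep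

open Pool.Agent.H89.Perc

variable {p : I}

end Pool.Agent.H29.Sep

end

section

/-!
# Exploration of clusters

`D` is a finite set of vertices, `clus ω D X` the union of the clusters in `D` of the vertices of
`X`.  Given this set, the edges of `D` which do not touch it are fresh.
-/

open MeasureTheory ProbabilityTheory unitInterval

namespace Pool.Agent.H26.HP

open Pool.Agent.H89.Perc

variable {ω ω' : Config} {D X S : Set Vert} {R : ℕ} {q : I}

/-- The union of the clusters in `D` of the vertices of `X`. -/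
def clus (ω : Config) (D X : Set Vert) : Set Vert := {v | ∃ x ∈ X, Conn ω D x v}

/-- `S` is the union of the clusters in `D` of the vertices of `X`. -/
def Full (D X S : Set Vert) : Set Config := {ω | clus ω D X = S}

lemma clus_subset : clus ω D X ⊆ D := fun _ ⟨_, _, h⟩ => h.mem_right

lemma mem_clus_of_conn {u v : Vert} (hu : u ∈ clus ω D X) (h : Conn ω D u v) :
    v ∈ clus ω D X := by
  obtain ⟨x, hx, hc⟩ := hu
  exact ⟨x, hx, hc.trans h⟩

/-- The vertices of the ball as a finset. -/
noncomputable def bF (R : ℕ) : Finset Vert :=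
  Finset.Icc (-(R : ℤ)) R ×ˢ Finset.Icc (-(R : ℤ)) R

lemma mem_bF {v : Vert} : v ∈ bF R ↔ v ∈ ball 0 R := by
  simp only [bF, Finset.mem_product, Finset.mem_Icc, mem_ball, Prod.fst_zero, Prod.snd_zero]
  omega

end Pool.Agent.H26.HP

end

section

/-!
# Probabilistic tools

Conditioning on the edges of a (possibly infinite) set `t`, and on the value of a random set.
-/

open MeasureTheory ProbabilityTheory unitInterval

namespace Pool.Agent.H59.EX

open Pool.Agent.H89.Perc

variable {q : I} {Λ : Finset Edge} {t : Set Edge} {A G H : Set Config}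

/-- An event which is local on `Λ` and depends only on the edges of `t` is local on any finite set
containing `Λ ∩ t`. -/
theorem localOn_of_locS {s : Finset Edge} (hA : LocalOn Λ A) (hA' : LocS t A)
    (hs : ∀ e ∈ Λ, e ∈ t → e ∈ s) : LocalOn s A := by
  classical
  intro ω ω' h hω
  have h1 : (fun e => if e ∈ t then ω' e else ω e) ∈ A := by
    refine hA ω _ (fun e he => ?_) hω
    by_cases het : e ∈ t
    · simp only [het, if_true]
      exact h e (hs e he het)
    · simp only [het, if_false]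
  refine hA' _ ω' (fun e he => ?_) h1
  simp only [he, if_true]

private theorem joins_touch {D S : Set Vert} {e : Edge} {a b : Vert} (he : Joins e a b)
    (ha : a ∈ D) (hb : b ∈ D) (haS : a ∈ S) : e ∈ touch D S := by
  rcases he with ⟨h1, h2⟩ | ⟨h1, h2⟩
  · exact ⟨⟨h1 ▸ ha, h2 ▸ hb⟩, Or.inl (h1 ▸ haS)⟩
  · exact ⟨⟨h2 ▸ hb, h1 ▸ ha⟩, Or.inr (h1 ▸ haS)⟩

/-- The event that the cluster of `X` in `D` equals `S` depends only on the edges touching `S`. -/
theorem locS_clus (D X S : Set Vert) : LocS (touch D S) {ω | clus ω D X = S} := by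
  intro ω ω' h hω
  rw [Set.mem_ofPred_eq] at hω ⊢
  refine Set.Subset.antisymm ?_ ?_
  · rintro v ⟨x, hx, hc⟩
    refine hc.induction_right (P := fun w => w ∈ S) ?_ ?_
    · rw [← hω]
      exact ⟨x, hx, Conn.refl hc.mem_left⟩
    · intro a b _ hab haS
      obtain ⟨ha, hb, e, he, ho⟩ := hab
      have het : e ∈ touch D S := joins_touch he ha hb haS
      have haS' := haS
      rw [← hω] at haS' ⊢
      obtain ⟨y, hy, hya⟩ := haS'
      exact ⟨y, hy, hya.tail ⟨ha, hb, e, he, by rw [h e het]; exact ho⟩⟩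
  · intro v hv
    rw [← hω] at hv
    obtain ⟨x, hx, hc⟩ := hv
    refine ⟨x, hx, ?_⟩
    refine hc.induction_right (P := fun w => Conn ω' D x w) (Conn.refl hc.mem_left) ?_
    intro a b hxa hab hc'
    obtain ⟨ha, hb, e, he, ho⟩ := hab
    have haS : a ∈ S := by
      rw [← hω]
      exact ⟨x, hx, hxa⟩
    have het : e ∈ touch D S := joins_touch he ha hb haS
    exact hc'.tail ⟨ha, hb, e, he, by rw [← h e het]; exact ho⟩

end Pool.Agent.H59.EX

end

section

/-!
# The corridor lemma

`pb π ω` is the configuration `e ↦ ω (π e)`; `π = id` for the plane, the reduction modulo the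
periods (and a translation) for the torus and for the cylinder.  Given a separated four-arm event,
increasing events inside the corridor `C` and arbitrary events `H` of the edges which are neither
inside `C` nor touch the two clusters (in the configuration with filled targets) can be added at the
cost of constant factors.
-/

open MeasureTheory ProbabilityTheory unitInterval

namespace Pool.Agent.H59.EX

open Pool.Agent.H89.Perc

/-- Pulled back configuration. -/
def pb (π : Edge → Edge) (ω : Config) : Config := fun e => ω (π e)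

/-- The edges equivalent to an edge of `t`. -/
def sat (π : Edge → Edge) (t : Set Edge) : Set Edge := {e | ∃ e' ∈ t, π e = π e'}

/-- Cluster of the first point with filled targets. -/
def FX (s : Src) (d d' : Side) (k : ℕ) (ω : Config) : Set Vert :=
  clus (fillV (T d k ∪ T d' k) (s.cut ω)) (dom d d' k) {s.x}

/-- Cluster of the second point with filled targets. -/
def FY (s : Src) (d d' : Side) (k : ℕ) (ω : Config) : Set Vert :=
  clus (fillV (T d k ∪ T d' k) (s.cut ω)) (dom d d' k) {s.y}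

/-- The determined edges. -/
def det (π : Edge → Edge) (d d' : Side) (k : ℕ) (C S : Set Vert) : Set Edge :=
  sat π (touch (dom d d' k) S ∪ inE C)

end Pool.Agent.H59.EX

end

section

/-!
# Seals: confinement of clusters by closed annuli (purely graph-theoretic)
-/

open MeasureTheory ProbabilityTheory unitInterval

namespace Pool.Agent.H59.EX

open Pool.Agent.H89.Perc

end Pool.Agent.H59.EX

end
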