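import Pool.Agent.H94.BG.H31.PT.M01
import Pool.Agent.H94.BG.H31.PT.Perc.Abs

/-! The parts of this file: Perc.BK, H29.Sep.CircDef, H61.NC.Calc, H57.EX.GeoQ. -/

section

/-!
# The van den Berg–Kesten inequality for increasing events
-/

namespace Pool.Agent.Perc

open Finset

variable {ι : Type*} [DecidableEq ι] {p : ℝ} {F S : Finset ι}

/-- `R U V` holds for some disjoint sets of open bits `U, V ⊆ S`. -/
def DisjOcc (R : Finset ι → Finset ι → Prop) (S : Finset ι) : Prop :=
  ∃ U V, U ⊆ S ∧ V ⊆ S ∧ Disjoint U V ∧ R U V

/-- General form of the BK inequality: for `R` increasing in both arguments, the probability that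
`R U V` holds for some disjoint open `U, V` is at most the probability that `R S T` holds for
independent `S, T`. -/
theorem bk_general (h0 : 0 ≤ p) (h1 : p ≤ 1) (F : Finset ι) (R : Finset ι → Finset ι → Prop)
    (hR : ∀ U U' V V', U ⊆ U' → U' ⊆ F → V ⊆ V' → V' ⊆ F → R U V → R U' V') :
    Pr p F (DisjOcc R) ≤ Ex p F (fun S => Ex p F (fun T => ind (R S) T)) := by
  unfold Pr
  induction F using Finset.induction_on generalizing R with
  | empty =>
    simp only [Ex_empty]
    refine le_of_eq (ind_congr ?_)
    constructor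
    · rintro ⟨U, V, hU, hV, -, hR⟩
      rw [Finset.subset_empty.1 hU, Finset.subset_empty.1 hV] at hR
      exact hR
    · intro h
      exact ⟨∅, ∅, Finset.Subset.refl _, Finset.Subset.refl _, by simp, h⟩
  | insert e F he ih =>
    have hq : 0 ≤ 1 - p := by linarith
    -- the four conditioned relations
    set R11 : Finset ι → Finset ι → Prop := fun U V => R (insert e U) (insert e V) with h11
    set R10 : Finset ι → Finset ι → Prop := fun U V => R (insert e U) V with h10
    set R01 : Finset ι → Finset ι → Prop := fun U V => R U (insert e V) with h01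
    have hsub : ∀ {S : Finset ι}, S ⊆ F → S ⊆ insert e F := fun h =>
      h.trans (Finset.subset_insert e F)
    have hins : ∀ {S : Finset ι}, S ⊆ F → insert e S ⊆ insert e F := fun h =>
      Finset.insert_subset_insert e h
    have i11 := ih R11 (fun U U' V V' a b c d => hR _ _ _ _ (Finset.insert_subset_insert e a)
      (hins b) (Finset.insert_subset_insert e c) (hins d))
    have i10 := ih R10 (fun U U' V V' a b c d => hR _ _ _ _ (Finset.insert_subset_insert e a)
      (hins b) c (hsub d))
    have i01 := ih R01 (fun U U' V V' a b c d => hR _ _ _ _ a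
      (hsub b) (Finset.insert_subset_insert e c) (hins d))
    have i00 := ih R (fun U U' V V' a b c d => hR _ _ _ _ a (hsub b) c (hsub d))
    -- right-hand side
    have rhs : Ex p (insert e F) (fun S => Ex p (insert e F) (fun T => ind (R S) T))
        = p * p * Ex p F (fun S => Ex p F (fun T => ind (R11 S) T))
          + p * (1 - p) * Ex p F (fun S => Ex p F (fun T => ind (R10 S) T))
          + (1 - p) * p * Ex p F (fun S => Ex p F (fun T => ind (R01 S) T))
          + (1 - p) * (1 - p) * Ex p F (fun S => Ex p F (fun T => ind (R S) T)) := by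
      rw [Ex_insert he]
      have e1 : Ex p F (fun S => Ex p (insert e F) (fun T => ind (R (insert e S)) T))
          = p * Ex p F (fun S => Ex p F (fun T => ind (R11 S) T))
            + (1 - p) * Ex p F (fun S => Ex p F (fun T => ind (R10 S) T)) := by
        rw [← Ex_const_mul, ← Ex_const_mul, ← Ex_add]
        refine Ex_congr fun S _ => ?_
        rw [Ex_insert he]
        rfl
      have e2 : Ex p F (fun S => Ex p (insert e F) (fun T => ind (R S) T))
          = p * Ex p F (fun S => Ex p F (fun T => ind (R01 S) T))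
            + (1 - p) * Ex p F (fun S => Ex p F (fun T => ind (R S) T)) := by
        rw [← Ex_const_mul, ← Ex_const_mul, ← Ex_add]
        refine Ex_congr fun S _ => ?_
        rw [Ex_insert he]
        rfl
      rw [e1, e2]
      ring
    rw [rhs]
    -- left-hand side
    rw [Ex_insert he]
    have key : p * Ex p F (fun S => ind (DisjOcc R) (insert e S)) + (1 - p) * Ex p F (ind (DisjOcc R))
        ≤ p * p * Ex p F (ind (DisjOcc R11)) + p * (1 - p) * Ex p F (ind (DisjOcc R10))
          + (1 - p) * p * Ex p F (ind (DisjOcc R01))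
          + (1 - p) * (1 - p) * Ex p F (ind (DisjOcc R)) := by
      simp only [← Ex_const_mul, ← Ex_add]
      refine Ex_mono h0 h1 fun S hS => ?_
      have c1 : DisjOcc R (insert e S) → DisjOcc R10 S ∨ DisjOcc R01 S := by
        rintro ⟨U, V, hU, hV, hd, hr⟩
        have hU' : U.erase e ⊆ S := fun x hx => by
          have := hU (Finset.mem_of_mem_erase hx)
          exact (Finset.mem_insert.1 this).resolve_left (Finset.ne_of_mem_erase hx)
        have hV' : V.erase e ⊆ S := fun x hx => by
          have := hV (Finset.mem_of_mem_erase hx)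
          exact (Finset.mem_insert.1 this).resolve_left (Finset.ne_of_mem_erase hx)
        have hdd : Disjoint (U.erase e) (V.erase e) :=
          (hd.mono_left (Finset.erase_subset _ _)).mono_right (Finset.erase_subset _ _)
        by_cases heV : e ∈ V
        · right
          have heU : e ∉ U := fun h => (Finset.disjoint_left.1 hd) h heV
          refine ⟨U.erase e, V.erase e, hU', hV', hdd, ?_⟩
          show R (U.erase e) (insert e (V.erase e))
          rw [Finset.insert_erase heV, Finset.erase_eq_of_notMem heU]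
          exact hr
        · left
          refine ⟨U.erase e, V.erase e, hU', hV', hdd, ?_⟩
          show R (insert e (U.erase e)) (V.erase e)
          rw [Finset.erase_eq_of_notMem heV]
          refine hR U _ V V ?_ (hins (hU'.trans hS)) (Finset.Subset.refl _)
            (hV.trans (hins hS)) hr
          intro x hx
          by_cases hxe : x = e
          · simp [hxe]
          · exact Finset.mem_insert_of_mem (Finset.mem_erase.2 ⟨hxe, hx⟩)
      have c2 : DisjOcc R S → DisjOcc R10 S := by
        rintro ⟨U, V, hU, hV, hd, hr⟩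
        exact ⟨U, V, hU, hV, hd, hR U _ V V (Finset.subset_insert e U) (hins (hU.trans hS))
          (Finset.Subset.refl _) (hsub (hV.trans hS)) hr⟩
      have c3 : DisjOcc R S → DisjOcc R01 S := by
        rintro ⟨U, V, hU, hV, hd, hr⟩
        exact ⟨U, V, hU, hV, hd, hR U U V _ (Finset.Subset.refl _) (hsub (hU.trans hS))
          (Finset.subset_insert e V) (hins (hV.trans hS)) hr⟩
      have c4 : DisjOcc R10 S → DisjOcc R11 S := by
        rintro ⟨U, V, hU, hV, hd, hr⟩
        exact ⟨U, V, hU, hV, hd, hR _ _ V _ (Finset.Subset.refl _) (hins (hU.trans hS))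
          (Finset.subset_insert e V) (hins (hV.trans hS)) hr⟩
      have c5 : DisjOcc R01 S → DisjOcc R11 S := by
        rintro ⟨U, V, hU, hV, hd, hr⟩
        exact ⟨U, V, hU, hV, hd, hR U _ _ _ (Finset.subset_insert e U) (hins (hU.trans hS))
          (Finset.Subset.refl _) (hins (hV.trans hS)) hr⟩
      have hpp := mul_nonneg h0 h0
      have hpq := mul_nonneg h0 hq
      have hqq := mul_nonneg hq hq
      by_cases d00 : DisjOcc R S
      · have d10 := c2 d00
        have d01 := c3 d00
        have d11 := c4 d10
        rw [ind_of d00, ind_of d10, ind_of d01, ind_of d11]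
        nlinarith [ind_le_one (DisjOcc R) (insert e S)]
      · rw [ind_of_not d00]
        by_cases d10 : DisjOcc R10 S
        · have d11 := c4 d10
          rw [ind_of d10, ind_of d11]
          nlinarith [ind_le_one (DisjOcc R) (insert e S), ind_nonneg (DisjOcc R01) S,
            ind_nonneg (DisjOcc R) (insert e S), mul_nonneg hpq (ind_nonneg (DisjOcc R01) S)]
        · by_cases d01 : DisjOcc R01 S
          · have d11 := c5 d01
            rw [ind_of_not d10, ind_of d01, ind_of d11]
            nlinarith [ind_le_one (DisjOcc R) (insert e S),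
              ind_nonneg (DisjOcc R) (insert e S)]
          · have : ¬ DisjOcc R (insert e S) := fun h => (c1 h).elim d10 d01
            rw [ind_of_not this, ind_of_not d10, ind_of_not d01]
            nlinarith [mul_nonneg hpp (ind_nonneg (DisjOcc R11) S)]
    refine key.trans ?_
    have j11 := mul_le_mul_of_nonneg_left i11 (mul_nonneg h0 h0)
    have j10 := mul_le_mul_of_nonneg_left i10 (mul_nonneg h0 hq)
    have j01 := mul_le_mul_of_nonneg_left i01 (mul_nonneg hq h0)
    have j00 := mul_le_mul_of_nonneg_left i00 (mul_nonneg hq hq)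
    linarith

/-- `A` is increasing on the subsets of `F`. -/
def UpOn (F : Finset ι) (A : Finset ι → Prop) : Prop :=
  ∀ S T, S ⊆ T → T ⊆ F → A S → A T

/-- **BK inequality** for two increasing events. -/
theorem bk (h0 : 0 ≤ p) (h1 : p ≤ 1) {A B : Finset ι → Prop} (hA : UpOn F A) (hB : UpOn F B) :
    Pr p F (DisjOcc (fun U V => A U ∧ B V)) ≤ Pr p F A * Pr p F B := by
  refine (bk_general h0 h1 F _ ?_).trans (le_of_eq ?_)
  · intro U U' V V' a b c d h
    exact ⟨hA U U' a b h.1, hB V V' c d h.2⟩
  · unfold Pr
    rw [← Ex_mul_const]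
    refine Ex_congr fun S _ => ?_
    rw [← Ex_const_mul]
    refine Ex_congr fun T _ => ?_
    by_cases hS : A S
    · rw [ind_of hS, one_mul]
      exact ind_congr ⟨fun h => h.2, fun h => ⟨hS, h⟩⟩
    · rw [ind_of_not hS, zero_mul]
      exact ind_of_not (fun h => hS h.1)

/-- `A` occurs `k` times disjointly. -/
def DisjK (A : Finset ι → Prop) : ℕ → Finset ι → Prop
  | 0, _ => True
  | k + 1, S => DisjOcc (fun U V => A U ∧ DisjK A k V) S

omit [DecidableEq ι] in
theorem DisjOcc.mono {R : Finset ι → Finset ι → Prop} {S T : Finset ι} (h : DisjOcc R S)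
    (hST : S ⊆ T) : DisjOcc R T := by
  obtain ⟨U, V, hU, hV, hd, hr⟩ := h
  exact ⟨U, V, hU.trans hST, hV.trans hST, hd, hr⟩

theorem DisjK_mono (A : Finset ι → Prop) (k : ℕ) {S T : Finset ι} (h : DisjK A k S)
    (hST : S ⊆ T) : DisjK A k T := by
  cases k with
  | zero => trivial
  | succ k => exact DisjOcc.mono h hST

/-- k-fold BK inequality. -/
theorem bk_pow (h0 : 0 ≤ p) (h1 : p ≤ 1) {A : Finset ι → Prop} (hA : UpOn F A) (k : ℕ) :
    Pr p F (DisjK A k) ≤ Pr p F A ^ k := by
  induction k with
  | zero =>
    refine le_of_eq ?_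
    rw [pow_zero]
    unfold Pr
    have : Ex p F (ind (DisjK A 0)) = Ex p F (fun _ => (1 : ℝ)) :=
      Ex_congr fun S _ => ind_of (A := DisjK A 0) trivial
    rw [this, Ex_const]
  | succ k ih =>
    have h := bk (F := F) h0 h1 hA (B := DisjK A k) (fun S T hST _ h => DisjK_mono A k h hST)
    have hA0 : 0 ≤ Pr p F A := Ex_nonneg h0 h1 fun S _ => ind_nonneg _ _
    calc Pr p F (DisjK A (k + 1)) ≤ Pr p F A * Pr p F (DisjK A k) := h
      _ ≤ Pr p F A * Pr p F A ^ k := mul_le_mul_of_nonneg_left ih hA0
      _ = Pr p F A ^ (k + 1) := by rw [pow_succ]; ring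

/-- A list of pairwise disjoint witnesses gives `DisjK`. -/
theorem DisjK_of_family (A : Finset ι → Prop) (k : ℕ) (U : ℕ → Finset ι) (S : Finset ι)
    (hU : ∀ i < k, U i ⊆ S) (hd : ∀ i < k, ∀ j < k, i ≠ j → Disjoint (U i) (U j))
    (hA : ∀ i < k, A (U i)) : DisjK A k S := by
  induction k generalizing S with
  | zero => trivial
  | succ k ih =>
    refine ⟨U k, S \ U k, hU k (Nat.lt_succ_self k), Finset.sdiff_subset, Finset.disjoint_sdiff,
      hA k (Nat.lt_succ_self k), ?_⟩
    refine ih (S \ U k) (fun i hi => ?_) (fun i hi j hj hij => hd i (by omega) j (by omega) hij)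
      (fun i hi => hA i (by omega))
    intro x hx
    rw [Finset.mem_sdiff]
    refine ⟨hU i (by omega) hx, fun h => ?_⟩
    exact (Finset.disjoint_left.1 (hd i (by omega) k (by omega) (by omega))) hx h

end Pool.Agent.Perc

end

section

/-!
# Open circuits made of four strip crossings: definitions
-/

open MeasureTheory ProbabilityTheory unitInterval

namespace Pool.Agent.H29.Sep

open Pool.Agent.H89.Perc

/-- The annulus `ball v r` minus `ball v s`. -/
def ann (v : Vert) (s r : ℕ) : Set Vert := ball v r \ ball v s

/-- Open circuit: four strip crossings of `ball v (3 s)` minus `ball v s`. -/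
def Circ (v : Vert) (s : ℕ) : Set Config :=
  {ω | HCross ω (v.1 - 3 * s) (v.1 + 3 * s) (v.2 + s + 1) (v.2 + 3 * s) ∧
    HCross ω (v.1 - 3 * s) (v.1 + 3 * s) (v.2 - 3 * s) (v.2 - s - 1) ∧
    VCross ω (v.1 + s + 1) (v.1 + 3 * s) (v.2 - 3 * s) (v.2 + 3 * s) ∧
    VCross ω (v.1 - 3 * s) (v.1 - s - 1) (v.2 - 3 * s) (v.2 + 3 * s)}

/-- `C` is an open ring around `ball v s` in `ball v (3 s)`: it is connected by open edges inside the
annulus and every lattice path from `ball v s` to `sphere v (3 s)` meets it. -/
def IsRing (ω : Config) (v : Vert) (s : ℕ) (C : Set Vert) : Prop :=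
  C ⊆ ann v s (3 * s) ∧ (∀ a ∈ C, ∀ b ∈ C, Conn ω (ann v s (3 * s)) a b) ∧
    ∀ (η : Config) (D : Set Vert) (u u' : Vert), Conn η D u u' → u ∈ ball v s →
      (u' ∈ sphere v (3 * s) ∨ u' ∉ ball v (3 * s)) → ∃ w ∈ C, Conn η D u w

/-- The ring of a configuration in `Circ v s`: everything joined inside the annulus to a crossing of
the top strip. -/
def ring (ω : Config) (v : Vert) (s : ℕ) : Set Vert :=
  {w | ∃ u u' : Vert, u.1 = v.1 - 3 * s ∧ u'.1 = v.1 + 3 * s ∧
    Conn ω (rect (v.1 - 3 * s) (v.1 + 3 * s) (v.2 + s + 1) (v.2 + 3 * s)) u u' ∧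
    Conn ω (ann v s (3 * s)) u w}

end Pool.Agent.H29.Sep

end

section

/-!
# Two calculus lemmas
-/

namespace Pool.Agent.H61.NC

end Pool.Agent.H61.NC

end

section

/-!
# The boundary of the unit square of the sup norm, parametrised by arc length
-/

namespace Pool.Agent.H57.EX

end Pool.Agent.H57.EX

end
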