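import Pool.Agent.H94.BG.H31.PT.M03_2
import Pool.Agent.H94.BG.M02
import Pool.Agent.H94.BG.M03

/-! The parts of this file: H29.Sep.Ring, H89.Perc.TorusSym, H31.EX.ArmReg, H59.EX.Fact, H57.EX.Defs, H57.EX.Walk, H57.EX.Base, H26.HP.Reg, H26.HP.One, H59.EX.GeoDef. -/

section

/-!
# Open circuits: hooking and meeting
-/

open MeasureTheory ProbabilityTheory unitInterval

namespace Pool.Agent.H29.Sep

open Pool.Agent.H89.Perc

end Pool.Agent.H29.Sep

end

section

/-!
# Symmetries of the winding event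
-/

open MeasureTheory ProbabilityTheory unitInterval

namespace Pool.Agent.H89.Perc

theorem localOn_wind {N : ℕ} (hN : 1 ≤ N) : LocalOn (tEdges N) (Wind N) := by
  intro ω ω' h hω
  have hper : per N ω = per N ω' := by
    funext e
    refine h _ ?_
    have hN' : (0 : ℤ) < N := by exact_mod_cast hN
    simp only [tEdges, Finset.mem_product, Finset.mem_Ico, Finset.mem_univ, and_true]
    exact ⟨⟨Int.emod_nonneg _ hN'.ne', Int.emod_lt_of_pos _ hN'⟩,
      ⟨Int.emod_nonneg _ hN'.ne', Int.emod_lt_of_pos _ hN'⟩⟩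
  obtain ⟨u, a, b, ha, hc⟩ := hω
  exact ⟨u, a, b, ha, hper ▸ hc⟩

theorem incr_wind (N : ℕ) : Incr (Wind N) := by
  rintro ω ω' h ⟨u, a, b, ha, hc⟩
  exact ⟨u, a, b, ha, hc.mono le_rfl fun e he => h _ he⟩

/-- Translation by `z` of the edges of the torus. -/
def torusSym_tau (N : ℕ) (z : Vert) (f : Edge) : Edge :=
  ((f.1 + z.1) % N, (f.2.1 + z.2) % N, f.2.2)

theorem torusSym_tau_injOn (N : ℕ) (z : Vert) : Set.InjOn (torusSym_tau N z) (tEdges N) := by
  rintro ⟨x, y, d⟩ hf ⟨x', y', d'⟩ hf' h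
  simp only [tEdges, Finset.coe_product, Set.mem_prod, Finset.coe_Ico, Set.mem_Ico,
    Finset.coe_univ, Set.mem_univ, and_true] at hf hf'
  simp only [torusSym_tau, Prod.mk.injEq] at h ⊢
  obtain ⟨h1, h2, h3⟩ := h
  refine ⟨?_, ?_, h3⟩
  · have h4 : x % N = x' % N := by
      have h5 : (x + z.1) ≡ (x' + z.1) [ZMOD N] := h1
      exact Int.ModEq.add_right_cancel' z.1 h5
    rwa [Int.emod_eq_of_lt hf.1.1 hf.1.2, Int.emod_eq_of_lt hf'.1.1 hf'.1.2] at h4
  · have h4 : y % N = y' % N := by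
      have h5 : (y + z.2) ≡ (y' + z.2) [ZMOD N] := h2
      exact Int.ModEq.add_right_cancel' z.2 h5
    rwa [Int.emod_eq_of_lt hf.2.1 hf.2.2, Int.emod_eq_of_lt hf'.2.1 hf'.2.2] at h4

theorem torusSym_per (N : ℕ) (z : Vert) (ω : Config) :
    per N (fun f => ω (torusSym_tau N z f)) = fun f => per N ω (shiftE z f) := by
  funext f
  simp only [per, torusSym_tau, shiftE, Int.emod_add_emod]

theorem torusSym_wind (N : ℕ) (z : Vert) (ω : Config) :
    (fun f => ω (torusSym_tau N z f)) ∈ Wind N ↔ ω ∈ Wind N := by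
  constructor
  · rintro ⟨u, a, b, ha, hc⟩
    rw [torusSym_per, conn_shift] at hc
    refine ⟨(u.1 + z.1, u.2 + z.2), a, b, ha, ?_⟩
    have h := hc.mono_set (Set.subset_univ _)
    convert h using 2
    · simp only; ring
    · simp only; ring
  · rintro ⟨u, a, b, ha, hc⟩
    refine ⟨(u.1 - z.1, u.2 - z.2), a, b, ha, ?_⟩
    rw [torusSym_per, conn_shift]
    have h1 : {w : Vert | (w.1 - z.1, w.2 - z.2) ∈ (Set.univ : Set Vert)} = Set.univ := by
      ext w; simp
    rw [h1]
    convert hc using 2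
    · simp
    · simp
    · simp only; ring
    · simp only; ring

theorem torusSym_update {N : ℕ} (hN : 1 ≤ N) (q : I) {e e' : Edge} (he : e ∈ tEdges N)
    (he' : e' ∈ tEdges N) (h : e.2.2 = e'.2.2) (b : Bool) :
    Pr q {ω | Function.update ω e' b ∈ Wind N} = Pr q {ω | Function.update ω e b ∈ Wind N} := by
  have hloc : LocalOn (tEdges N) {ω | Function.update ω e b ∈ Wind N} := by
    intro ω ω' hω h1
    refine localOn_wind hN _ _ (fun f hf => ?_) h1
    by_cases hfe : f = e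
    · subst hfe; simp
    · simp only [Function.update_of_ne hfe]; exact hω f hf
  set z : Vert := (e'.1 - e.1, e'.2.1 - e.2.1) with hz
  have hτ : torusSym_tau N z e = e' := by
    simp only [tEdges, Finset.mem_product, Finset.mem_Ico, Finset.mem_univ, and_true] at he he'
    obtain ⟨x, y, d⟩ := e
    obtain ⟨x', y', d'⟩ := e'
    simp only at h he he'
    simp only [torusSym_tau, hz, Prod.mk.injEq]
    refine ⟨?_, ?_, h⟩
    · rw [show x + (x' - x) = x' by ring, Int.emod_eq_of_lt he'.1.1 he'.1.2]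
    · rw [show y + (y' - y) = y' by ring, Int.emod_eq_of_lt he'.2.1 he'.2.2]
  rw [← Pr_comp hloc (torusSym_tau_injOn N z)]
  congr 1
  ext ω
  simp only [Set.mem_ofPred_eq]
  rw [← torusSym_wind N z (Function.update ω e' b)]
  have key : ∀ f ∈ tEdges N, Function.update ω e' b (torusSym_tau N z f) =
      Function.update (fun f => ω (torusSym_tau N z f)) e b f := by
    intro f hf
    by_cases hfe : f = e
    · subst hfe
      rw [hτ]; simp
    · have h2 : torusSym_tau N z f ≠ e' := by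
        intro h3
        rw [← hτ] at h3
        exact hfe (torusSym_tau_injOn N z hf he h3)
      rw [Function.update_of_ne h2, Function.update_of_ne hfe]
  exact ⟨fun h1 => localOn_wind hN _ _ key h1,
    fun h1 => localOn_wind hN _ _ (fun f hf => (key f hf).symm) h1⟩

/-- By translation invariance all edges of the same direction have the same influence. -/
theorem pivot_wind {N : ℕ} (hN : 1 ≤ N) (q : I) {e e' : Edge} (he : e ∈ tEdges N)
    (he' : e' ∈ tEdges N) (h : e.2.2 = e'.2.2) : pivot q (Wind N) e = pivot q (Wind N) e' := by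
  unfold pivot
  rw [torusSym_update hN q he he' h true, torusSym_update hN q he he' h false]

end Pool.Agent.H89.Perc

end

section

/-!
# Blocking circuits and decay of annulus crossings in the box-crossing regime
-/

open MeasureTheory ProbabilityTheory unitInterval

namespace Pool.Agent.H31.EX

open Pool.Agent.H89.Perc Pool.Agent.H61.NC

lemma reg_mono_c {c c' : ℝ} {n : ℕ} {q : I} (h : RSWreg c n q) (hc : c' ≤ c) :
    RSWreg c' n q := fun m h1 h2 => ⟨hc.trans (h m h1 h2).1, hc.trans (h m h1 h2).2⟩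

/-- Wide crossings at all places. -/
lemma reg_hcross {c : ℝ} {n : ℕ} {q : I} (h : RSWreg c n q) {m : ℕ} (hm : 1 ≤ m) (hmn : m ≤ n)
    {x y x' y' : ℤ} (hx : x' - x ≤ 4 * m) (hx0 : x ≤ x') (hy : (m : ℤ) ≤ y' - y) :
    c ≤ Pr q {ω | HCross ω x x' y y'} := by
  have h1 : c ≤ Pr q {ω | HCross ω 0 (x' - x) 0 (y' - y)} :=
    ((h m hm hmn).1).trans (Pr_mono fun ω h => HCross.mono h le_rfl (by omega) hx le_rfl hy)
  have h3 := Pr_hcross_translate (p := q) (a := 0) (b := x' - x) (c := 0) (d := y' - y) x y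
  have e1 : (0 : ℤ) + x = x := by ring
  have e2 : x' - x + x = x' := by ring
  have e3 : (0 : ℤ) + y = y := by ring
  have e4 : y' - y + y = y' := by ring
  rw [e1, e2, e3, e4] at h3
  rw [h3]
  exact h1

lemma reg_vcross {c : ℝ} {n : ℕ} {q : I} (h : RSWreg c n q) {m : ℕ} (hm : 1 ≤ m) (hmn : m ≤ n)
    {x y x' y' : ℤ} (hx : y' - y ≤ 4 * m) (hx0 : y ≤ y') (hy : (m : ℤ) ≤ x' - x) :
    c ≤ Pr q {ω | VCross ω x x' y y'} := by
  rw [Pr_vcross_eq_hcross]
  exact reg_hcross h hm hmn hx hx0 hy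

lemma armBox_subset_ann {s0 s r R : ℕ} (h0 : s0 ≤ s) (hs : s < r) (hr : r ≤ R) :
    ArmBox 0 s0 R ⊆ Ann s r := by
  rintro ω ⟨w0, hw0, u, hu, hc⟩
  have hw0' : w0 ∈ ball 0 s := ball_subset_ball h0 hw0
  have hw0r : w0 ∈ ball 0 r := ball_subset_ball hs.le hw0'
  have h1 : ∃ x ∈ sphere 0 r, Conn ω (ball 0 R ∩ ball 0 r) w0 x := by
    refine hc.to_sphere hw0r ?_
    obtain ⟨hb, h⟩ := hu
    by_cases h2 : u ∈ ball 0 r
    · refine Or.inr ⟨h2, ?_⟩
      simp only [mem_ball, Prod.fst_zero, Prod.snd_zero] at hb h h2 ⊢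
      omega
    · exact Or.inl h2
  obtain ⟨x, hx, hc'⟩ := h1
  have hxs : x ∉ ball 0 s := by
    intro hxs
    obtain ⟨_, h⟩ := hx
    simp only [mem_ball, Prod.fst_zero, Prod.snd_zero] at hxs h
    omega
  obtain ⟨w, w', hw, _, hst, hl⟩ := hc'.exists_last (T := ball 0 s) hw0' hxs
  refine ⟨w', ?_, x, hx, hl.mono_set ?_⟩
  · have h2 := hst.fst_le
    have h3 := hst.snd_le
    simp only [mem_ball, Prod.fst_zero, Prod.snd_zero] at hw ⊢
    push_cast
    omega
  · exact fun y hy => ⟨hy.1.2, hy.2⟩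

end Pool.Agent.H31.EX

end

section

/-!
# Elementary facts used by all stages
-/

open MeasureTheory ProbabilityTheory unitInterval

namespace Pool.Agent.H59.EX

open Pool.Agent.H89.Perc

section clus

variable {ω ω' : Config} {D D' X S Z : Set Vert} {a b x : Vert} {e : Edge} {t : Set Edge}

theorem fillV_true : fillV Z ω e = true ↔ ω e = true ∨ e ∈ inE Z := by
  classical
  unfold fillV
  rw [Bool.or_eq_true, decide_eq_true_iff]

theorem closeS_true : closeS t ω e = true ↔ ω e = true ∧ e ∉ t := by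
  classical
  unfold closeS
  rw [Bool.and_eq_true, decide_eq_true_iff]

theorem inE_of_joins (hj : Joins e a b) : e ∈ inE S ↔ a ∈ S ∧ b ∈ S := by
  rcases hj with ⟨h1, h2⟩ | ⟨h1, h2⟩
  · rw [h1, h2]
    exact Iff.rfl
  · rw [h1, h2]
    exact and_comm

/-- Filled sets are connected. -/
theorem conn_fillV (hZ : Z ⊆ D) (h : Conn allOpen Z a b) : Conn (fillV Z ω) D a b := by
  refine h.induction_right (P := fun b => Conn (fillV Z ω) D a b) (Conn.refl (hZ h.mem_left)) ?_
  rintro a' b' _ ⟨h1, h2, e, he, _⟩ h3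
  exact h3.tail ⟨hZ h1, hZ h2, e, he, fillV_true.2 (Or.inr ((inE_of_joins he).2 ⟨h1, h2⟩))⟩

theorem fact_near (hj : Joins e a b) :
    b.1 ≤ a.1 + 1 ∧ a.1 ≤ b.1 + 1 ∧ b.2 ≤ a.2 + 1 ∧ a.2 ≤ b.2 + 1 := by
  have h : Step allOpen Set.univ a b := ⟨trivial, trivial, e, hj, rfl⟩
  exact ⟨h.fst_le.1, h.fst_le.2, h.snd_le.1, h.snd_le.2⟩

/-- The neighbours of a vertex of the ball which is not on the sphere are in the ball. -/
theorem mem_sphere_of_joins {r : ℕ} (hj : Joins e a b) (ha : a ∈ ball 0 r) (hb : b ∉ ball 0 r) :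
    a ∈ sphere 0 r := by
  refine ⟨ha, ?_⟩
  have h := fact_near hj
  simp only [mem_ball] at ha hb
  omega

end clus

section fence

variable {ω ω' : Config} {D D' : Set Vert} {x y : Vert} {d : Side} {k : ℕ}

theorem fence_congr (hT : ∀ e ∈ inE (T d k), ω e = ω' e) (hD : ∀ e ∈ inE D, ω e = ω' e)
    (h : Fence d k ω D x) : Fence d k ω' D x := by
  cases d
  all_goals
    obtain ⟨u, v, h1, h2, h3, h4⟩ := h
    exact ⟨u, v, h1, h2, h3.congr (fun e h5 h6 => hT e ⟨h5, h6⟩),
      h4.congr (fun e h5 h6 => hD e ⟨h5, h6⟩)⟩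

/-- The fence gives a vertex of the target joined to `x`. -/
theorem fence_mem (h : Fence d k ω D x) : ∃ u ∈ T d k, Conn ω D x u := by
  cases d
  all_goals
    obtain ⟨u, v, _, _, h5, h6⟩ := h
    exact ⟨u, h5.mem_left, h6⟩

end fence

section stages

end stages

end Pool.Agent.H59.EX

end

section

/-!
# Gluing of four arms in the plane (GLT): definitions

The inner domain is `ball 0 (4 m)`, the outer domain is a finite vertex set `D` whose points have norm
at least `16 m`.  Everything is formulated for configurations in which some edges (the set `E`) near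
the origin have been closed; the corresponding probability is `PrE`.
-/

open MeasureTheory ProbabilityTheory unitInterval

namespace Pool.Agent.H57.EX

open Pool.Agent.H89.Perc Pool.Agent.H61.NC Pool.Agent.H29.Sep

/-- Sup norm. -/
def nrm (v : Vert) : ℤ := max |v.1| |v.2|

/-- The edges with both endpoints in `D` (for `D ⊆ ball 0 R`). -/
noncomputable def eIn (R : ℕ) (D : Set Vert) : Finset Edge := by
  classical exact (eRect (-(R : ℤ)) R (-(R : ℤ)) R).filter (fun e => src e ∈ D ∧ tgt e ∈ D)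

/-- Data of the gluing: two vertices `x`, `y` near the origin, a finite set `E` of closed edges near
the origin, the scale `m`, the outer domain `D`, the universe `W`, and the terminals `L`, `T`. -/
structure Dat where
  x : Vert
  y : Vert
  E : Finset Edge
  m : ℕ
  R : ℕ
  D : Set Vert
  W : Set Vert
  L : Set Vert
  T : Set Vert
  hx : x ∈ ball 0 2
  hy : y ∈ ball 0 2
  hE : ∀ e ∈ E, src e ∈ ball 0 2 ∧ tgt e ∈ ball 0 2
  hm : 10 ≤ m
  hD : ∀ v ∈ D, 16 * (m : ℤ) ≤ nrm v
  hDW : D ⊆ W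
  hBW : ball 0 (17 * m) ⊆ W
  hWD : ∀ v ∈ W, v ∉ ball 0 (19 * m) → v ∈ D
  hWR : W ⊆ ball 0 R
  hL : ∀ v ∈ L, v ∈ D ∧ 17 * (m : ℤ) < nrm v
  hT : ∀ v ∈ T, v ∈ D ∧ 17 * (m : ℤ) < nrm v

/-- The inner domain. -/
def Dat.B (Z : Dat) : Set Vert := ball 0 (4 * Z.m)

/-- The places of the outer side where two clusters must not be close to each other. -/
def Dat.Bd (Z : Dat) : Set Vert :=
  sphere 0 (16 * Z.m) ∪ {v | v ∈ Z.D ∧ ∃ e w, Joins e v w ∧ w ∈ Z.W ∧ w ∉ Z.D}

/-- A chain of centres from `b` to `b'` with steps at most `2 s`. -/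
structure Chain (γ : ℕ → Vert) (n s : ℕ) (b b' : Vert) : Prop where
  h0 : γ 0 = b
  hn : γ n = b'
  step : ∀ i < n, γ (i + 1) ∈ ball (γ i) (2 * s)

/-- The zone of a chain. -/
def zone (γ : ℕ → Vert) (n s : ℕ) : Set Vert := {w | ∃ i ≤ n, w ∈ ball (γ i) (3 * s)}

/-- Properties of the chains used for the gluing between the spheres of radii `4 m` and `16 m`. -/
structure ZGood (m s : ℕ) (γ : ℕ → Vert) (n : ℕ) (b b' : Vert) : Prop where
  chain : Chain γ n s b b'
  inner : ∀ w ∈ zone γ n s, nrm w ≤ 4 * m + 5 * s → w ∈ ball b (20 * s)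
  outer : ∀ w ∈ zone γ n s, 16 * (m : ℤ) - 5 * s ≤ nrm w → w ∈ ball b' (20 * s)
  low : ∀ w ∈ zone γ n s, 3 * (m : ℤ) ≤ nrm w
  bdd : ∀ w ∈ zone γ n s, nrm w ≤ 17 * m

/-- `N` is a net of mesh `s` of the sphere of radius `t`. -/
structure IsNet (N : Finset Vert) (t s : ℕ) : Prop where
  sub : ∀ v ∈ N, v ∈ sphere 0 t
  cov : ∀ u ∈ sphere 0 t, ∃ v ∈ N, u ∈ ball v s

/-- First event: landing of `x` near `b`, of a cluster of `L` near `b'`, and the clusters of `y` and
of `T` are far from these points. -/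
def E0 (Z : Dat) (s : ℕ) (b b' : Vert) : Set Config :=
  {ω | (∃ u ∈ ball b s, Conn ω Z.B Z.x u) ∧ Z.x ∉ cl ω Z.B {Z.y} ∧
    (∃ u ∈ Z.L, u ∉ cl ω Z.D Z.T ∧ ∃ w ∈ ball b' s, Conn ω Z.D u w) ∧
    (cl ω Z.B {Z.y} ∩ sphere 0 (4 * Z.m)).Nonempty ∧
    (cl ω Z.D Z.T ∩ sphere 0 (16 * Z.m)).Nonempty ∧
    Disjoint (cl ω Z.B {Z.y}) (ball b (38 * s)) ∧
    Disjoint (cl ω Z.D Z.T) (ball b' (38 * s))}

/-- The glued domain. -/
def GG (Z : Dat) (s : ℕ) (γ : ℕ → Vert) (n : ℕ) : Set Vert := Z.B ∪ Z.D ∪ zone γ n s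

/-- The three clusters after the first gluing: conditions on their values. -/
def P1 (Z : Dat) (s : ℕ) (b b' : Vert) (S1 S2 S3 : Set Vert) : Prop :=
  (S1 ∩ Z.L).Nonempty ∧ (S2 ∩ sphere 0 (4 * Z.m)).Nonempty ∧
    (S3 ∩ sphere 0 (16 * Z.m)).Nonempty ∧ S2 ⊆ Z.B ∧ S3 ⊆ Z.D ∧
    Disjoint S2 (ball b (38 * s)) ∧ Disjoint S3 (ball b' (38 * s)) ∧ Disjoint S1 S2 ∧
    Disjoint S1 S3

/-- Second event: `x` is glued to `L` in the glued domain `G`. -/
def E1 (Z : Dat) (s : ℕ) (b b' : Vert) (G : Set Vert) : Set Config :=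
  {ω | P1 Z s b b' (cl ω G {Z.x}) (cl ω G {Z.y}) (cl ω G Z.T)}

/-- The clusters are not near to each other at the scale `t`. -/
def NBp (Z : Dat) (t : ℕ) (S1 S2 S3 : Set Vert) : Prop :=
  (∀ z ∈ sphere 0 (4 * Z.m), (S1 ∩ ball z t).Nonempty → ¬ (S2 ∩ ball z t).Nonempty) ∧
    ∀ z ∈ Z.Bd, (S1 ∩ ball z t).Nonempty → ¬ (S3 ∩ ball z t).Nonempty

/-- The clusters of the glued domain are not near to each other at the scale `t`. -/
def NB (Z : Dat) (t : ℕ) (G : Set Vert) : Set Config :=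
  {ω | NBp Z t (cl ω G {Z.x}) (cl ω G {Z.y}) (cl ω G Z.T)}

/-- Vertices of `S1` with an edge leaving the glued domain. -/
def Exits (W G S1 : Set Vert) : Set Vert := {v | v ∈ S1 ∧ ∃ e w, Joins e v w ∧ w ∈ W ∧ w ∉ G}

/-- The sealing event for given values of the clusters: for some values of the determined edges, no
ball containing an exit is joined to distance `3 s`. -/
def SealP (Z : Dat) (s : ℕ) (V : Finset Vert) (G S1 S2 S3 : Set Vert) : Set Config :=
  {ω | ∃ ω' : Config, (∀ e ∉ touch (eIn Z.R G) (S1 ∪ S2 ∪ S3), ω' e = ω e) ∧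
    ∀ v ∈ V, (Exits Z.W G S1 ∩ ball v s).Nonempty → ω' ∉ ArmBox v s (3 * s)}

/-- The sealing event. -/
def Seal (Z : Dat) (s : ℕ) (V : Finset Vert) (G : Set Vert) : Set Config :=
  {ω | ω ∈ SealP Z s V G (cl ω G {Z.x}) (cl ω G {Z.y}) (cl ω G Z.T)}

end Pool.Agent.H57.EX

end

section

/-!
# Open paths: last exits, comparison of clusters in two domains
-/

open MeasureTheory ProbabilityTheory unitInterval

namespace Pool.Agent.H57.EX

open Pool.Agent.H89.Perc Pool.Agent.H29.Sep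

/-- Monotonicity in the domain and in the configuration (only the edges of the smaller domain
matter). -/
theorem conn_congr {ω ω' : Config} {S T : Set Vert} {u v : Vert} (h : Conn ω S u v) (hST : S ⊆ T)
    (he : ∀ e, src e ∈ S → tgt e ∈ S → ω e = true → ω' e = true) : Conn ω' T u v := by
  refine ⟨hST h.1, Relation.ReflTransGen.mono ?_ _ _ h.2⟩
  rintro a b ⟨ha, hb, e, hj, ho⟩
  refine ⟨hST ha, hST hb, e, hj, ?_⟩
  rcases hj with ⟨h1, h2⟩ | ⟨h1, h2⟩
  · exact he e (h1 ▸ ha) (h2 ▸ hb) ho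
  · exact he e (h2 ▸ hb) (h1 ▸ ha) ho

/-- The last exit of a path from the set `S`. -/
theorem last_exit {ω : Config} {W S : Set Vert} {x p : Vert} (h : Conn ω W x p) (hx : x ∈ S)
    (hp : p ∉ S) : ∃ v ∈ S, ∃ w, w ∉ S ∧ v ∈ W ∧ w ∈ W ∧ (∃ e, Joins e v w ∧ ω e = true) ∧
      Conn ω (W \ S) w p := by
  obtain ⟨v, w, hv, _, hstep, hc⟩ := h.exists_last hx hp
  exact ⟨v, hv, w, hc.mem_left.2, hstep.1, hstep.2.1, hstep.2.2, hc⟩

/-- First exit from a ball: the part of a path up to the sphere. -/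
theorem reach_sphere {ω : Config} {D : Set Vert} {z u w : Vert} {ρ : ℕ} (h : Conn ω D u w)
    (hu : u ∈ ball z ρ) (hw : w ∉ ball z ρ ∨ w ∈ sphere z ρ) :
    ∃ v ∈ sphere z ρ, Conn ω (D ∩ ball z ρ) u v :=
  h.to_sphere hu hw

theorem mem_cl_self {ω : Config} {D : Set Vert} {v : Vert} (h : v ∈ D) : v ∈ cl ω D {v} :=
  ⟨v, rfl, Conn.refl h⟩

theorem mem_cl_iff {ω : Config} {D : Set Vert} {u v : Vert} :
    v ∈ cl ω D {u} ↔ Conn ω D u v := by
  constructor
  · rintro ⟨x, hx, hc⟩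
    rw [Set.mem_singleton_iff] at hx
    rwa [← hx]
  · intro h
    exact ⟨u, rfl, h⟩

end Pool.Agent.H57.EX

end

section

/-!
# Probability with some closed edges, norms
-/

open MeasureTheory ProbabilityTheory unitInterval

namespace Pool.Agent.H57.EX

open Pool.Agent.H89.Perc Pool.Agent.H61.NC Pool.Agent.H29.Sep

variable {q : I} {E : Finset Edge}

theorem mem_ball_zero {v : Vert} {r : ℕ} : v ∈ ball 0 r ↔ nrm v ≤ r := by
  simp only [mem_ball, nrm, max_le_iff, abs_le, Prod.fst_zero, Prod.snd_zero, zero_sub, zero_add]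
  tauto

theorem mem_sphere_zero {v : Vert} {r : ℕ} : v ∈ sphere 0 r ↔ nrm v = r := by
  have h1 : v ∈ sphere 0 r ↔ v ∈ ball 0 r ∧
      (v.1 = -(r : ℤ) ∨ v.1 = r ∨ v.2 = -(r : ℤ) ∨ v.2 = r) := by
    change v ∈ ball 0 r ∧ _ ↔ _
    simp only [Prod.fst_zero, Prod.snd_zero, zero_sub, zero_add]
  rw [h1, mem_ball]
  simp only [nrm, Prod.fst_zero, Prod.snd_zero, zero_sub, zero_add]
  rcases abs_cases v.1 with h2 | h2 <;> rcases abs_cases v.2 with h3 | h3 <;>
    rcases max_cases |v.1| |v.2| with h4 | h4 <;> omega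

theorem mem_ball_self (v : Vert) (r : ℕ) : v ∈ ball v r := by
  exact self_mem_ball

theorem mem_ball_comm {u v : Vert} {r : ℕ} : u ∈ ball v r ↔ v ∈ ball u r := by
  simp only [mem_ball]
  omega

theorem ball_trans {u v w : Vert} {a b : ℕ} (h : u ∈ ball v a) (h' : w ∈ ball u b) :
    w ∈ ball v (a + b) := by
  simp only [mem_ball] at h h' ⊢
  push_cast
  omega

theorem ball_mono {v : Vert} {a b : ℕ} (h : a ≤ b) : ball v a ⊆ ball v b := by
  intro u hu
  simp only [mem_ball] at hu ⊢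
  omega

theorem nrm_le_of_mem_ball {u v : Vert} {a : ℕ} (h : u ∈ ball v a) : nrm u ≤ nrm v + a := by
  simp only [mem_ball] at h
  simp only [nrm]
  rcases abs_cases v.1 with h2 | h2 <;> rcases abs_cases v.2 with h3 | h3 <;>
    rcases max_cases |v.1| |v.2| with h4 | h4 <;>
    refine max_le (abs_le.2 ⟨?_, ?_⟩) (abs_le.2 ⟨?_, ?_⟩) <;> omega

theorem le_nrm_of_mem_ball {u v : Vert} {a : ℕ} (h : u ∈ ball v a) : nrm v - a ≤ nrm u := by
  have h1 := nrm_le_of_mem_ball (mem_ball_comm.1 h)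
  omega

theorem joins_ball {e : Edge} {u v : Vert} (h : Joins e u v) : v ∈ ball u 1 := by
  obtain ⟨x, y, b⟩ := e
  rcases h with ⟨rfl, rfl⟩ | ⟨rfl, rfl⟩ <;> cases b <;> simp [mem_ball, src, tgt] <;> omega

theorem joins_symm {e : Edge} {u v : Vert} (h : Joins e u v) : Joins e v u := by
  exact h.symm

end Pool.Agent.H57.EX

end

section

/-!
# Consequences of the box-crossing regime: blocking, decay, half circuits
-/

open MeasureTheory ProbabilityTheory unitInterval

namespace Pool.Agent.H26.HP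

open Pool.Agent.H89.Perc
open Pool.Agent.H61.NC (RSWreg)

end Pool.Agent.H26.HP

end

section

/-!
# Half plane, one arm with a free side: the exponent is one

`E1 R z`: the cluster of `(z, 0)` in the half ball of radius `R` reaches distance `R` and does not
touch the base to the right of `(z, 0)`.  Its probability is at most `C / R`.
-/

open MeasureTheory ProbabilityTheory unitInterval

namespace Pool.Agent.H26.HP

open Pool.Agent.H89.Perc
open Pool.Agent.H61.NC (RSWreg)

end Pool.Agent.H26.HP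

end

section

/-!
# Corridors for the outward separation: definitions
-/

open MeasureTheory ProbabilityTheory unitInterval

namespace Pool.Agent.H59.EX

open Pool.Agent.H89.Perc
open Pool.Agent.H29.Sep (Circ)

end Pool.Agent.H59.EX

end
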