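import Pool.Agent.H94.BG.H31.PT.M03_2
import Pool.Agent.H94.BG.M02
import Pool.Agent.H94.BG.M03

/-! The parts of this file: H29.Sep.Ring, H89.Perc.TorusSym, H31.EX.ArmReg, H59.EX.Fact, H57.EX.Defs, H57.EX.Walk, H57.EX.Base, H26.HP.Reg, H26.HP.One, H59.EX.GeoDef. -/

section

/-!
# Open circuits: hooking and meeting
-/

open MeasureTheory ProbabilityTheory unitInterval

namespace Pool.Agent.H29.Sep

open Pool.Agent.H89.Perc

/-- Restrict the configuration `η` to the edges inside `S`. -/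
private noncomputable def ring_cut (η : Config) (S : Set Vert) : Config := by
  classical exact fun e => decide (η e = true ∧ src e ∈ S ∧ tgt e ∈ S)

private theorem ring_cut_of {η : Config} {S R : Set Vert} {u v : Vert} (h : Conn η S u v)
    (hS : S ⊆ R) : Conn (ring_cut η S) R u v := by
  refine h.induction_right (P := fun x => Conn (ring_cut η S) R u x)
    (Conn.refl (hS h.mem_left)) ?_
  rintro a b _ ⟨h1, h2, e, h3, h4⟩ ih
  refine ih.tail ⟨hS h1, hS h2, e, h3, ?_⟩
  simp only [ring_cut, decide_eq_true_eq]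
  refine ⟨h4, ?_⟩
  rcases h3 with ⟨h5, h6⟩ | ⟨h5, h6⟩
  · exact ⟨h5 ▸ h1, h6 ▸ h2⟩
  · exact ⟨h6 ▸ h2, h5 ▸ h1⟩

private theorem ring_of_cut {η : Config} {S R : Set Vert} {u v : Vert} (hu : u ∈ S)
    (h : Conn (ring_cut η S) R u v) : Conn η S u v := by
  refine h.induction_right (P := fun x => Conn η S u x) (Conn.refl hu) ?_
  rintro a b _ ⟨_, _, e, h3, h4⟩ ih
  simp only [ring_cut, decide_eq_true_eq] at h4
  refine ih.tail ⟨ih.mem_right, ?_, e, h3, h4.1⟩
  rcases h3 with ⟨_, h6⟩ | ⟨_, h6⟩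
  · rw [h6]; exact h4.2.2
  · rw [h6]; exact h4.2.1

/-- A left-right crossing is met by a bottom-top path in a smaller domain. -/
private theorem ring_cross_y {ω η : Config} {a b c d : ℤ} {S : Set Vert} {u v u' v' : Vert}
    (h : Conn ω (rect a b c d) u v) (hu : u.1 = a) (hv : v.1 = b)
    (h' : Conn η S u' v') (hS : S ⊆ rect a b c d) (hu' : u'.2 = c) (hv' : v'.2 = d) :
    ∃ w, Conn ω (rect a b c d) u w ∧ Conn η S u' w := by
  obtain ⟨w, h1, h2⟩ := cross h hu hv (ring_cut_of h' hS) hu' hv'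
  exact ⟨w, h1, ring_of_cut h'.mem_left h2⟩

/-- A bottom-top crossing is met by a left-right path in a smaller domain. -/
private theorem ring_cross_x {ω η : Config} {a b c d : ℤ} {S : Set Vert} {u v u' v' : Vert}
    (h : Conn ω (rect a b c d) u v) (hu : u.2 = c) (hv : v.2 = d)
    (h' : Conn η S u' v') (hS : S ⊆ rect a b c d) (hu' : u'.1 = a) (hv' : v'.1 = b) :
    ∃ w, Conn ω (rect a b c d) u w ∧ Conn η S u' w := by
  obtain ⟨w, h1, h2⟩ := cross (ring_cut_of h' hS) hu' hv' h hu hv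
  exact ⟨w, h2, ring_of_cut h'.mem_left h1⟩

/-- The four crossings of a circuit, all of them inside the ring. -/
private theorem ring_data {ω : Config} {v : Vert} {s : ℕ} (hs : 1 ≤ s) (h : ω ∈ Circ v s) :
    (∃ u u' : Vert, u.1 = v.1 - 3 * s ∧ u'.1 = v.1 + 3 * s ∧
      Conn ω (rect (v.1 - 3 * s) (v.1 + 3 * s) (v.2 + s + 1) (v.2 + 3 * s)) u u' ∧
      ∀ w, Conn ω (rect (v.1 - 3 * s) (v.1 + 3 * s) (v.2 + s + 1) (v.2 + 3 * s)) u w →
        w ∈ ring ω v s) ∧
    (∃ u u' : Vert, u.1 = v.1 - 3 * s ∧ u'.1 = v.1 + 3 * s ∧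
      Conn ω (rect (v.1 - 3 * s) (v.1 + 3 * s) (v.2 - 3 * s) (v.2 - s - 1)) u u' ∧
      ∀ w, Conn ω (rect (v.1 - 3 * s) (v.1 + 3 * s) (v.2 - 3 * s) (v.2 - s - 1)) u w →
        w ∈ ring ω v s) ∧
    (∃ u u' : Vert, u.2 = v.2 - 3 * s ∧ u'.2 = v.2 + 3 * s ∧
      Conn ω (rect (v.1 + s + 1) (v.1 + 3 * s) (v.2 - 3 * s) (v.2 + 3 * s)) u u' ∧
      ∀ w, Conn ω (rect (v.1 + s + 1) (v.1 + 3 * s) (v.2 - 3 * s) (v.2 + 3 * s)) u w →
        w ∈ ring ω v s) ∧
    (∃ u u' : Vert, u.2 = v.2 - 3 * s ∧ u'.2 = v.2 + 3 * s ∧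
      Conn ω (rect (v.1 - 3 * s) (v.1 - s - 1) (v.2 - 3 * s) (v.2 + 3 * s)) u u' ∧
      ∀ w, Conn ω (rect (v.1 - 3 * s) (v.1 - s - 1) (v.2 - 3 * s) (v.2 + 3 * s)) u w →
        w ∈ ring ω v s) := by
  obtain ⟨⟨t, t', ht1, ht2, hT⟩, ⟨b, b', hb1, hb2, hB⟩, ⟨r, r', hr1, hr2, hR⟩,
    ⟨l, l', hl1, hl2, hL⟩⟩ := h
  have sT : rect (v.1 - 3 * s) (v.1 + 3 * s) (v.2 + s + 1) (v.2 + 3 * s) ⊆ ann v s (3 * s) := by
    intro w hw
    simp only [rect, ann, ball, Set.mem_ofPred_eq, Set.mem_sdiff, Nat.cast_mul, Nat.cast_ofNat]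
      at hw ⊢
    omega
  have sB : rect (v.1 - 3 * s) (v.1 + 3 * s) (v.2 - 3 * s) (v.2 - s - 1) ⊆ ann v s (3 * s) := by
    intro w hw
    simp only [rect, ann, ball, Set.mem_ofPred_eq, Set.mem_sdiff, Nat.cast_mul, Nat.cast_ofNat]
      at hw ⊢
    omega
  have sR : rect (v.1 + s + 1) (v.1 + 3 * s) (v.2 - 3 * s) (v.2 + 3 * s) ⊆ ann v s (3 * s) := by
    intro w hw
    simp only [rect, ann, ball, Set.mem_ofPred_eq, Set.mem_sdiff, Nat.cast_mul, Nat.cast_ofNat]
      at hw ⊢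
    omega
  have sL : rect (v.1 - 3 * s) (v.1 - s - 1) (v.2 - 3 * s) (v.2 + 3 * s) ⊆ ann v s (3 * s) := by
    intro w hw
    simp only [rect, ann, ball, Set.mem_ofPred_eq, Set.mem_sdiff, Nat.cast_mul, Nat.cast_ofNat]
      at hw ⊢
    omega
  have ctr : Conn ω (ann v s (3 * s)) t r := by
    obtain ⟨z, h1, h2⟩ := Pool.Agent.H85.Strict.hv_meet hT (by omega) (by omega) hR (by omega)
      (by omega) (by omega) (by omega)
    exact (h1.mono_set sT).trans (h2.mono_set sR).symm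
  have ctl : Conn ω (ann v s (3 * s)) t l := by
    obtain ⟨z, h1, h2⟩ := Pool.Agent.H85.Strict.hv_meet hT (by omega) (by omega) hL (by omega)
      (by omega) (by omega) (by omega)
    exact (h1.mono_set sT).trans (h2.mono_set sL).symm
  have cbr : Conn ω (ann v s (3 * s)) b r := by
    obtain ⟨z, h1, h2⟩ := Pool.Agent.H85.Strict.hv_meet hB (by omega) (by omega) hR (by omega)
      (by omega) (by omega) (by omega)
    exact (h1.mono_set sB).trans (h2.mono_set sR).symm
  refine ⟨⟨t, t', ht1, ht2, hT, fun w hw => ?_⟩, ⟨b, b', hb1, hb2, hB, fun w hw => ?_⟩,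
    ⟨r, r', hr1, hr2, hR, fun w hw => ?_⟩, ⟨l, l', hl1, hl2, hL, fun w hw => ?_⟩⟩
  · exact ⟨t, t', ht1, ht2, hT, hw.mono_set sT⟩
  · exact ⟨t, t', ht1, ht2, hT, (ctr.trans cbr.symm).trans (hw.mono_set sB)⟩
  · exact ⟨t, t', ht1, ht2, hT, ctr.trans (hw.mono_set sR)⟩
  · exact ⟨t, t', ht1, ht2, hT, ctl.trans (hw.mono_set sL)⟩

theorem circ_ring {ω : Config} {v : Vert} {s : ℕ} (hs : 1 ≤ s) (h : ω ∈ Circ v s) :
    IsRing ω v s (ring ω v s) := by
  refine ⟨?_, ?_, ?_⟩
  · rintro w ⟨_, _, _, _, _, hw⟩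
    exact hw.mem_right
  · rintro a ⟨t, t', ht1, ht2, hT, ha⟩ b ⟨y, y', hy1, hy2, hY, hb⟩
    obtain ⟨_, _, ⟨r, r', hr1, hr2, hR⟩, _⟩ := h
    have sT : rect (v.1 - 3 * s) (v.1 + 3 * s) (v.2 + s + 1) (v.2 + 3 * s) ⊆
        ann v s (3 * s) := by
      intro w hw
      simp only [rect, ann, ball, Set.mem_ofPred_eq, Set.mem_sdiff, Nat.cast_mul,
        Nat.cast_ofNat] at hw ⊢
      omega
    have sR : rect (v.1 + s + 1) (v.1 + 3 * s) (v.2 - 3 * s) (v.2 + 3 * s) ⊆
        ann v s (3 * s) := by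
      intro w hw
      simp only [rect, ann, ball, Set.mem_ofPred_eq, Set.mem_sdiff, Nat.cast_mul,
        Nat.cast_ofNat] at hw ⊢
      omega
    obtain ⟨z, h1, h2⟩ := Pool.Agent.H85.Strict.hv_meet hT (by omega) (by omega) hR (by omega)
      (by omega) (by omega) (by omega)
    obtain ⟨z', h1', h2'⟩ := Pool.Agent.H85.Strict.hv_meet hY (by omega) (by omega) hR (by omega)
      (by omega) (by omega) (by omega)
    have c1 : Conn ω (ann v s (3 * s)) t r := (h1.mono_set sT).trans (h2.mono_set sR).symm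
    have c2 : Conn ω (ann v s (3 * s)) y r := (h1'.mono_set sT).trans (h2'.mono_set sR).symm
    exact (ha.symm.trans (c1.trans c2.symm)).trans hb
  · intro η D u u' hc hu hu'
    obtain ⟨⟨t, t', ht1, ht2, hT, hT'⟩, ⟨b, b', hb1, hb2, hB, hB'⟩, ⟨r, r', hr1, hr2, hR, hR'⟩,
      ⟨l, l', hl1, hl2, hL, hL'⟩⟩ := ring_data hs h
    have hu3 : u ∈ ball v (3 * s) := by
      simp only [mem_ball, Nat.cast_mul, Nat.cast_ofNat] at hu ⊢
      omega
    obtain ⟨x, hx, hux⟩ := hc.to_sphere hu3 hu'.symm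
    have hx2 := hx.2
    have hx1 := hx.1
    simp only [mem_ball, Nat.cast_mul, Nat.cast_ofNat] at hu hx1 hx2
    rcases hx2 with h1 | h1 | h1 | h1
    · -- left side
      obtain ⟨p, q, hp, hq, k1, k2, k3⟩ := hux.symm.cross_x (a := v.1 - 3 * s)
        (b := v.1 - s - 1) (by omega) (by omega) (by omega)
      obtain ⟨w, g1, g2⟩ := ring_cross_x hL hl1 hl2 k1 (by
        rintro z ⟨⟨_, hz⟩, hz'⟩
        simp only [mem_ball, Nat.cast_mul, Nat.cast_ofNat] at hz
        simp only [rect, Set.mem_ofPred_eq] at hz' ⊢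
        omega) hp hq
      refine ⟨w, hL' w g1, ?_⟩
      exact (hux.mono_set fun z hz => hz.1).trans
        ((k2.trans (g2.mono_set fun z hz => hz.1)).mono_set fun z hz => hz.1)
    · -- right side
      obtain ⟨p, q, hp, hq, k1, k2, k3⟩ := hux.cross_x (a := v.1 + s + 1)
        (b := v.1 + 3 * s) (by omega) (by omega) (by omega)
      obtain ⟨w, g1, g2⟩ := ring_cross_x hR hr1 hr2 k1 (by
        rintro z ⟨⟨_, hz⟩, hz'⟩
        simp only [mem_ball, Nat.cast_mul, Nat.cast_ofNat] at hz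
        simp only [rect, Set.mem_ofPred_eq] at hz' ⊢
        omega) hp hq
      exact ⟨w, hR' w g1, (k2.trans (g2.mono_set fun z hz => hz.1)).mono_set fun z hz => hz.1⟩
    · -- bottom side
      obtain ⟨p, q, hp, hq, k1, k2, k3⟩ := hux.symm.cross_y (a := v.2 - 3 * s)
        (b := v.2 - s - 1) (by omega) (by omega) (by omega)
      obtain ⟨w, g1, g2⟩ := ring_cross_y hB hb1 hb2 k1 (by
        rintro z ⟨⟨_, hz⟩, hz'⟩
        simp only [mem_ball, Nat.cast_mul, Nat.cast_ofNat] at hz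
        simp only [rect, Set.mem_ofPred_eq] at hz' ⊢
        omega) hp hq
      refine ⟨w, hB' w g1, ?_⟩
      exact (hux.mono_set fun z hz => hz.1).trans
        ((k2.trans (g2.mono_set fun z hz => hz.1)).mono_set fun z hz => hz.1)
    · -- top side
      obtain ⟨p, q, hp, hq, k1, k2, k3⟩ := hux.cross_y (a := v.2 + s + 1)
        (b := v.2 + 3 * s) (by omega) (by omega) (by omega)
      obtain ⟨w, g1, g2⟩ := ring_cross_y hT ht1 ht2 k1 (by
        rintro z ⟨⟨_, hz⟩, hz'⟩
        simp only [mem_ball, Nat.cast_mul, Nat.cast_ofNat] at hz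
        simp only [rect, Set.mem_ofPred_eq] at hz' ⊢
        omega) hp hq
      exact ⟨w, hT' w g1, (k2.trans (g2.mono_set fun z hz => hz.1)).mono_set fun z hz => hz.1⟩

/-- Rings whose centres are at distance at most `4 s` meet. -/
theorem circ_meet {ω : Config} {v v' : Vert} {s : ℕ} (hs : 1 ≤ s) (h : ω ∈ Circ v s)
    (h' : ω ∈ Circ v' s) (h1 : |v.1 - v'.1| ≤ 4 * s) (h2 : |v.2 - v'.2| ≤ 4 * s) :
    ∃ w, w ∈ ring ω v s ∧ w ∈ ring ω v' s := by
  obtain ⟨-, -, ⟨r, r', hr1, hr2, hR, hR'⟩, ⟨l, l', hl1, hl2, hL, hL'⟩⟩ := ring_data hs h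
  obtain ⟨⟨t, t', ht1, ht2, hT, hT'⟩, ⟨b, b', hb1, hb2, hB, hB'⟩, -, -⟩ := ring_data hs h'
  rw [abs_le] at h1 h2
  rcases le_total v.1 v'.1 with k1 | k1 <;> rcases le_total v.2 v'.2 with k2 | k2
  · obtain ⟨z, g1, g2⟩ := Pool.Agent.H85.Strict.hv_meet hB (by omega) (by omega) hR (by omega)
      (by omega) (by omega) (by omega)
    exact ⟨z, hR' z g2, hB' z g1⟩
  · obtain ⟨z, g1, g2⟩ := Pool.Agent.H85.Strict.hv_meet hT (by omega) (by omega) hR (by omega)
      (by omega) (by omega) (by omega)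
    exact ⟨z, hR' z g2, hT' z g1⟩
  · obtain ⟨z, g1, g2⟩ := Pool.Agent.H85.Strict.hv_meet hB (by omega) (by omega) hL (by omega)
      (by omega) (by omega) (by omega)
    exact ⟨z, hL' z g2, hB' z g1⟩
  · obtain ⟨z, g1, g2⟩ := Pool.Agent.H85.Strict.hv_meet hT (by omega) (by omega) hL (by omega)
      (by omega) (by omega) (by omega)
    exact ⟨z, hL' z g2, hT' z g1⟩

end Pool.Agent.H29.Sep

end

section

/-!
# Symmetries of the winding event
-/

open MeasureTheory ProbabilityTheory unitInterval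

namespace Pool.Agent.H89.Perc

end Pool.Agent.H89.Perc

end

section

/-!
# Blocking circuits and decay of annulus crossings in the box-crossing regime
-/

open MeasureTheory ProbabilityTheory unitInterval

namespace Pool.Agent.H31.EX

open Pool.Agent.H89.Perc Pool.Agent.H61.NC

lemma reg_symm {c : ℝ} {n : ℕ} {q : I} (h : RSWreg c n q) : RSWreg c n (σ q) := by
  intro m h1 h2
  rw [unitInterval.symm_symm]
  exact ⟨(h m h1 h2).2, (h m h1 h2).1⟩

/-- Intersections of the annulus events at scales `s 16 ^ j`. -/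
def AnnS (s : ℕ) : ℕ → Set Config
  | 0 => Set.univ
  | n + 1 => AnnS s n ∩ Ann (s * 16 ^ n) (s * 16 ^ (n + 1))

lemma localOn_annS (s n : ℕ) : LocalOn (eBall (s * 16 ^ n)) (AnnS s n) := by
  classical
  induction n with
  | zero => exact fun _ _ _ _ => Set.mem_univ _
  | succ n ih =>
    have h1 : s * 16 ^ n ≤ s * 16 ^ (n + 1) :=
      Nat.mul_le_mul_left s (Nat.pow_le_pow_right (by norm_num) (Nat.le_succ n))
    exact (ih.mono (eBall_subset h1)).inter ((localOn_ann _ _).mono Finset.sdiff_subset)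

end Pool.Agent.H31.EX

end

section

/-!
# Elementary facts used by all stages
-/

open MeasureTheory ProbabilityTheory unitInterval

namespace Pool.Agent.H59.EX

open Pool.Agent.H89.Perc

section clus

variable {ω ω' : Config} {D D' X S Z : Set Vert} {a b x : Vert} {e : Edge} {t : Set Edge}

theorem clus_sub : clus ω D X ⊆ D := by
  rintro v ⟨x, _, h⟩
  exact h.mem_right

theorem clus_step (ha : a ∈ clus ω D X) (h : Step ω D a b) : b ∈ clus ω D X := by
  obtain ⟨x, hx, hxa⟩ := ha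
  exact ⟨x, hx, hxa.tail h⟩

theorem clus_conn (ha : a ∈ clus ω D X) (h : Conn ω D a b) : b ∈ clus ω D X := by
  obtain ⟨x, hx, hxa⟩ := ha
  exact ⟨x, hx, hxa.trans h⟩

theorem mem_clus_single : b ∈ clus ω D {x} ↔ Conn ω D x b := by
  constructor
  · rintro ⟨y, hy, h⟩
    rw [Set.mem_singleton_iff.1 hy] at h
    exact h
  · intro h
    exact ⟨x, Set.mem_singleton x, h⟩

theorem clus_mono (hD : D ⊆ D') (hω : ∀ e, ω e = true → ω' e = true) :
    clus ω D X ⊆ clus ω' D' X := by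
  rintro v ⟨x, hx, h⟩
  exact ⟨x, hx, h.mono hD hω⟩

end clus

section fence

variable {ω ω' : Config} {D D' : Set Vert} {x y : Vert} {d : Side} {k : ℕ}

theorem fence_mono (hD : D ⊆ D') (hω : ∀ e, ω e = true → ω' e = true) (h : Fence d k ω D x) :
    Fence d k ω' D' x := by
  cases d
  all_goals
    obtain ⟨u, v, h1, h2, h3, h4⟩ := h
    exact ⟨u, v, h1, h2, h3.mono subset_rfl hω, h4.mono hD hω⟩

end fence

section stages

variable {ω : Config} {s : Src} {w ρ ρ' : ℕ} {v v' : Vert} {d d' : Side} {Z Zy : Set Vert}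
  {Nev Ny : Set Config}

theorem fact_ball_mono {z : Vert} {r r' : ℕ} (h : r ≤ r') : ball z r ⊆ ball z r' := by
  intro a ha
  simp only [mem_ball] at ha ⊢
  omega

theorem corr_inter (hK : CorrData w ρ v d Z Nev) : Z ∩ ball 0 (8 * w) ⊆ ball v (5 * ρ) := by
  rintro a ⟨ha, hb⟩
  exact hK.inter a ha a hb self_mem_ball

/-- Corridors stay away from the source. -/
theorem corr_far (hK : CorrData w ρ v d Z Nev) (hρ : 1 ≤ ρ) (hw : 64 * ρ ≤ w)
    (hv : v ∈ sphere 0 (8 * w)) {a : Vert} (ha : a ∈ Z) : a ∉ ball 0 (4 * w) := by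
  intro hb
  have h1 : a ∈ ball v (5 * ρ) := corr_inter hK ⟨ha, fact_ball_mono (by omega) hb⟩
  obtain ⟨h2, h3⟩ := hv
  simp only [mem_ball, Prod.fst_zero, Prod.snd_zero, Nat.cast_mul, Nat.cast_ofNat] at hb h1 h2 h3
  have h4 : (64 : ℤ) * ρ ≤ w := by exact_mod_cast hw
  have h5 : (1 : ℤ) ≤ ρ := by exact_mod_cast hρ
  omega

theorem corr_sub160 (hK : CorrData w ρ v d Z Nev) : Z ⊆ ball 0 (160 * w) := by
  intro a ha
  rcases hK.sub ha with h | h
  · exact fact_ball_mono (by omega) h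
  · cases d
    all_goals
      simp only [T, rect, Set.mem_ofPred_eq, Nat.cast_mul, Nat.cast_ofNat] at h
      simp only [mem_ball, Prod.fst_zero, Prod.snd_zero, Nat.cast_mul, Nat.cast_ofNat]
      omega

private theorem fact_sub160 (hK : CorrData w ρ v d Z Nev) :
    ball 0 (8 * w) ∪ Z ⊆ ball 0 (160 * w) :=
  Set.union_subset (fact_ball_mono (by omega)) (corr_sub160 hK)

theorem S1_sub_SH (hK : CorrData w ρ v d Z Nev) : S1 s w Z ω ⊆ SH s w Z ω := by
  exact clus_mono (fact_sub160 hK) fun _ h => h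

/-- The second corridor misses the confined cluster. -/
theorem Zy_disj_SH (hKy : CorrData w ρ' v' d' Zy Ny) (hS : CorrSep w ρ' v' Z Zy)
    (hρ' : 1 ≤ ρ') (h : ω ∈ Conf s w ρ' d Z) (hd : Disjoint (SH s w Z ω) (ball v' (7 * ρ'))) :
    Disjoint Zy (SH s w Z ω) := by
  rw [Set.disjoint_left] at hd ⊢
  intro z hz hz'
  obtain ⟨_, _, hconf⟩ := h
  rcases hconf z hz' with h1 | ⟨a, ha, h1⟩ | ⟨a, ha, ha', h1⟩
  · exact hd hz' (fact_ball_mono (by omega) (corr_inter hKy ⟨hz, h1⟩))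
  · exact hS.far a ha z hz (fact_ball_mono (by omega) h1)
  · exact hd ha (hS.fringe z hz a ha' h1)

end stages

end Pool.Agent.H59.EX

end

section

/-!
# Gluing of four arms in the plane (GLT): definitions

The inner domain is `ball 0 (4 m)`, the outer domain is a finite vertex set `D` whose points have norm
at least `16 m`.  Everything is formulated for configurations in which some edges (the set `E`) near
the origin have been closed; the corresponding probability is `PrE`.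
-/

open MeasureTheory ProbabilityTheory unitInterval

namespace Pool.Agent.H57.EX

open Pool.Agent.H89.Perc Pool.Agent.H61.NC Pool.Agent.H29.Sep

/-- Probability when the edges of `E` are closed. -/
noncomputable def PrE (q : I) (E : Finset Edge) (A : Set Config) : ℝ := Pr q {ω | shut E ω ∈ A}

/-- Open circuits around all the centres of the chain. -/
def AllCirc (γ : ℕ → Vert) (n s : ℕ) : Set Config := {ω | ∀ i ≤ n, ω ∈ Circ (γ i) s}

/-- The edges on which `AllCirc` depends. -/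
noncomputable def eZone (γ : ℕ → Vert) (n s : ℕ) : Finset Edge := by
  classical exact (Finset.range (n + 1)).biUnion (fun i => eCirc (γ i) s)

end Pool.Agent.H57.EX

end

section

/-!
# Open paths: last exits, comparison of clusters in two domains
-/

open MeasureTheory ProbabilityTheory unitInterval

namespace Pool.Agent.H57.EX

open Pool.Agent.H89.Perc Pool.Agent.H29.Sep

end Pool.Agent.H57.EX

end

section

/-!
# Probability with some closed edges, norms
-/

open MeasureTheory ProbabilityTheory unitInterval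

namespace Pool.Agent.H57.EX

open Pool.Agent.H89.Perc Pool.Agent.H61.NC Pool.Agent.H29.Sep

end Pool.Agent.H57.EX

end

section

/-!
# Consequences of the box-crossing regime: blocking, decay, half circuits
-/

open MeasureTheory ProbabilityTheory unitInterval

namespace Pool.Agent.H26.HP

open Pool.Agent.H89.Perc
open Pool.Agent.H61.NC (RSWreg)

variable {ω ω' : Config} {D X S : Set Vert} {R n : ℕ} {q : I} {c : ℝ}

/-- Open half circuit around the origin in the annulus between distances `s` and `2 s`. -/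
def HC (s : ℕ) : Set Config :=
  {ω | VCross ω (-(2 * s)) (-s) 0 (2 * s)} ∩ {ω | HCross ω (-(2 * s)) (2 * s) s (2 * s)} ∩
    {ω | VCross ω s (2 * s) 0 (2 * s)}

end Pool.Agent.H26.HP

end

section

/-!
# Half plane, one arm with a free side: the exponent is one

`E1 R z`: the cluster of `(z, 0)` in the half ball of radius `R` reaches distance `R` and does not
touch the base to the right of `(z, 0)`.  Its probability is at most `C / R`.
-/

open MeasureTheory ProbabilityTheory unitInterval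

namespace Pool.Agent.H26.HP

open Pool.Agent.H89.Perc
open Pool.Agent.H61.NC (RSWreg)

end Pool.Agent.H26.HP

end

section

/-!
# Corridors for the outward separation: definitions
-/

open MeasureTheory ProbabilityTheory unitInterval

namespace Pool.Agent.H59.EX

open Pool.Agent.H89.Perc
open Pool.Agent.H29.Sep (Circ)

/-- Corridor from the vertex `v` on the east side of `ball 0 (8 w)` turning to the target rectangle
in the north. -/
def ZTN (w ρ : ℕ) (v : Vert) : Set Vert :=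
  ball v (3 * ρ) ∪ rect (8 * w) (13 * w) (v.2 - ρ) (v.2 + ρ) ∪
    rect (12 * w) (13 * w) (v.2 - ρ) (13 * w) ∪ rect (-(4 * w)) (13 * w) (12 * w) (13 * w) ∪
    rect (-(4 * w)) (4 * w) (12 * w) (144 * w) ∪ rect (-(12 * w)) (12 * w) (112 * w) (144 * w)

/-- Crossing event. -/
def NTN (w ρ : ℕ) (v : Vert) : Set Config :=
  {ω | ω ∈ Circ v ρ ∧ HCross ω (8 * w) (13 * w) (v.2 - ρ) (v.2 + ρ) ∧
    VCross ω (12 * w) (13 * w) (v.2 - ρ) (13 * w) ∧ HCross ω (-(4 * w)) (13 * w) (12 * w) (13 * w) ∧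
    VCross ω (-(4 * w)) (4 * w) (12 * w) (144 * w) ∧
    HCross ω (-(12 * w)) (12 * w) (112 * w) (144 * w)}

/-- Corridor from the vertex `v` on the east side turning to the target rectangle in the south. -/
def ZTS (w ρ : ℕ) (v : Vert) : Set Vert :=
  ball v (3 * ρ) ∪ rect (8 * w) (13 * w) (v.2 - ρ) (v.2 + ρ) ∪
    rect (12 * w) (13 * w) (-(13 * w)) (v.2 + ρ) ∪ rect (-(4 * w)) (13 * w) (-(13 * w)) (-(12 * w)) ∪
    rect (-(4 * w)) (4 * w) (-(144 * w)) (-(12 * w)) ∪
    rect (-(12 * w)) (12 * w) (-(144 * w)) (-(112 * w))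

/-- Crossing event. -/
def NTS (w ρ : ℕ) (v : Vert) : Set Config :=
  {ω | ω ∈ Circ v ρ ∧ HCross ω (8 * w) (13 * w) (v.2 - ρ) (v.2 + ρ) ∧
    VCross ω (12 * w) (13 * w) (-(13 * w)) (v.2 + ρ) ∧
    HCross ω (-(4 * w)) (13 * w) (-(13 * w)) (-(12 * w)) ∧
    VCross ω (-(4 * w)) (4 * w) (-(144 * w)) (-(12 * w)) ∧
    HCross ω (-(12 * w)) (12 * w) (-(144 * w)) (-(112 * w))}

end Pool.Agent.H59.EX

end
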