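import Pool.Agent.H94.BG.H31.PT.M03_4
import Pool.Agent.H94.BG.H31.PT.M06
import Pool.Agent.H94.BG.H31.PT.M06_1

/-! The parts of this file: H29.Sep.Ring, H89.Perc.TorusSym, H31.EX.ArmReg, H59.EX.Fact, H57.EX.Defs, H57.EX.Walk, H57.EX.Base, H26.HP.Reg, H26.HP.One, H59.EX.GeoDef. -/

section

/-!
# Open circuits: hooking and meeting
-/

open MeasureTheory ProbabilityTheory unitInterval

namespace Pool.Agent.H29.Sep

open Pool.Agent.H89.Perc

end Pool.Agent.H29.Sep

end

section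

/-!
# Symmetries of the winding event
-/

open MeasureTheory ProbabilityTheory unitInterval

namespace Pool.Agent.H89.Perc

end Pool.Agent.H89.Perc

end

section

/-!
# Blocking circuits and decay of annulus crossings in the box-crossing regime
-/

open MeasureTheory ProbabilityTheory unitInterval

namespace Pool.Agent.H31.EX

open Pool.Agent.H89.Perc Pool.Agent.H61.NC

/-- Blocking circuits exist with positive probability. -/
theorem circuit_reg {c : ℝ} (hc : 0 < c) {n : ℕ} {q : I} (h : RSWreg c n q) {s r : ℕ}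
    (hr : 4 * (s + 1) ≤ r) (hs : 1 ≤ s) (hrn : r ≤ n) : c ^ 4 ≤ Pr q {ω | dual ω ∉ DArm s r} := by
  classical
  obtain ⟨m, hm⟩ : ∃ m : ℕ, r = m + s + 2 := ⟨r - s - 2, by omega⟩
  have hm1 : 1 ≤ m := by omega
  have h2r : 2 * r ≤ 4 * m := by omega
  have hmn : m ≤ n := by omega
  have k1 : c ≤ Pr q {ω | VCross ω (s + 1) (r - 1) (-r) r} :=
    reg_vcross h hm1 hmn (by omega) (by omega) (by omega)
  have k2 : c ≤ Pr q {ω | VCross ω (-r + 1) (-s - 1) (-r) r} :=
    reg_vcross h hm1 hmn (by omega) (by omega) (by omega)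
  have k3 : c ≤ Pr q {ω | HCross ω (-r) r (s + 1) (r - 1)} :=
    reg_hcross h hm1 hmn (by omega) (by omega) (by omega)
  have k4 : c ≤ Pr q {ω | HCross ω (-r) r (-r + 1) (-s - 1)} :=
    reg_hcross h hm1 hmn (by omega) (by omega) (by omega)
  have h12 := fkg (p := q) (localOn_vcross ((s : ℤ) + 1) (r - 1) (-r) r)
    (localOn_vcross (-(r : ℤ) + 1) (-s - 1) (-r) r) (incr_vcross _ _ _ _) (incr_vcross _ _ _ _)
  have h34 := fkg (p := q) (localOn_hcross (-(r : ℤ)) r (s + 1) (r - 1))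
    (localOn_hcross (-(r : ℤ)) r (-r + 1) (-s - 1)) (incr_hcross _ _ _ _) (incr_hcross _ _ _ _)
  have h1234 := fkg (p := q) ((localOn_vcross ((s : ℤ) + 1) (r - 1) (-r) r).inter'
      (localOn_vcross (-(r : ℤ) + 1) (-s - 1) (-r) r))
    ((localOn_hcross (-(r : ℤ)) r (s + 1) (r - 1)).inter'
      (localOn_hcross (-(r : ℤ)) r (-r + 1) (-s - 1)))
    ((incr_vcross _ _ _ _).inter (incr_vcross _ _ _ _))
    ((incr_hcross _ _ _ _).inter (incr_hcross _ _ _ _))
  have h12' := (mul_le_mul k1 k2 hc.le Pr_nonneg).trans h12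
  have h34' := (mul_le_mul k3 k4 hc.le Pr_nonneg).trans h34
  have h' := (mul_le_mul h12' h34' (by positivity) Pr_nonneg).trans h1234
  have e : c ^ 4 = c * c * (c * c) := by ring
  rw [e]
  refine h'.trans (Pr_mono ?_)
  rintro ω ⟨⟨w1, w2⟩, ⟨w3, w4⟩⟩
  exact block (by omega) w1 w2 w3 w4

/-- Annulus crossings have probability bounded away from one. -/
theorem armBox_reg_le {c : ℝ} (hc : 0 < c) {n : ℕ} {q : I} (h : RSWreg c n q) {s r : ℕ}
    (hr : 4 * (s + 1) ≤ r) (hs : 1 ≤ s) (hrn : r ≤ n) : Pr q (ArmBox 0 s r) ≤ 1 - c ^ 4 := by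
  have h1 := circuit_reg hc (reg_symm h) hr hs hrn
  have h2 := Pr_compl (p := σ q) (localOn_dual_DArm s r)
  have h3 : {ω : Config | dual ω ∉ DArm s r}ᶜ = {ω | dual ω ∈ DArm s r} := by
    ext ω
    simp only [Set.mem_compl_iff, Set.mem_ofPred_eq, not_not]
  rw [h3, Pr_dual (decay_localOn_DArm s r), unitInterval.symm_symm] at h2
  have h4 : Pr q (ArmBox 0 s r) ≤ Pr q (DArm s r) :=
    Pr_mono (armBox_subset_DArm (by omega))
  linarith

lemma armBox_subset_annS {s R : ℕ} (hs : 1 ≤ s) (n : ℕ) (h : s * 16 ^ n ≤ R) :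
    ArmBox 0 s R ⊆ AnnS s n := by
  induction n with
  | zero => exact Set.subset_univ _
  | succ n ih =>
    have h1 : s * 16 ^ n < s * 16 ^ (n + 1) :=
      Nat.mul_lt_mul_of_pos_left (Nat.pow_lt_pow_right (by norm_num) (Nat.lt_succ_self n)) hs
    exact Set.subset_inter (ih (h1.le.trans h)) (armBox_subset_ann
      (Nat.le_mul_of_pos_right s (by positivity)) h1 h)

/-- Decay of annulus crossings in the box-crossing regime. -/
theorem armBox_decay {c : ℝ} (hc : 0 < c) : ∃ C a : ℝ, 0 < C ∧ 0 < a ∧ a ≤ 1 / 4 ∧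
    ∀ (n s R : ℕ) (q : I), RSWreg c n q → 1 ≤ s → s ≤ R → R ≤ n →
      Pr q (ArmBox 0 s R) ≤ C * ((s : ℝ) / R) ^ a := by
  classical
  set c' := min c 1 with hc'
  have hc0 : 0 < c' := lt_min hc one_pos
  have hc1 : c' ≤ 1 := min_le_right _ _
  have hc4 : 0 < c' ^ 4 := by positivity
  have hc41 : c' ^ 4 ≤ 1 := pow_le_one₀ hc0.le hc1
  set t : ℝ := 1 - c' ^ 4 / 2 with ht
  have ht0 : 0 < t := by linarith only [hc41, ht]
  have ht1 : t < 1 := by linarith
  have hlog : Real.log t < 0 := Real.log_neg ht0 ht1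
  have hlog16 : 0 < Real.log 16 := Real.log_pos (by norm_num)
  set a0 : ℝ := - Real.log t / Real.log 16 with ha0
  have ha0p : 0 < a0 := div_pos (neg_pos.2 hlog) hlog16
  refine ⟨1 / t, min a0 (1 / 4), by positivity, lt_min ha0p (by norm_num), min_le_right _ _, ?_⟩
  intro n s R q hreg hs hsR hRn
  have hreg' : RSWreg c' n q := reg_mono_c hreg (min_le_left _ _)
  -- the probability of the intersection of the annulus events
  have key : ∀ k : ℕ, s * 16 ^ k ≤ n → Pr q (AnnS s k) ≤ t ^ k := by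
    intro k
    induction k with
    | zero => intro _; rw [pow_zero]; exact Pr_le_one
    | succ k ih =>
      intro hk
      have hle : s * 16 ^ k ≤ s * 16 ^ (k + 1) :=
        Nat.mul_le_mul_left s (Nat.pow_le_pow_right (by norm_num) (Nat.le_succ k))
      have h1 : Pr q (AnnS s (k + 1)) =
          Pr q (AnnS s k) * Pr q (Ann (s * 16 ^ k) (s * 16 ^ (k + 1))) :=
        Pr_inter_of_disjoint (localOn_annS s k) (localOn_ann _ _) Finset.disjoint_sdiff
      have h2 : Pr q (Ann (s * 16 ^ k) (s * 16 ^ (k + 1))) ≤ t := by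
        have h3 : 4 * (s * 16 ^ k + 1 + 1) ≤ s * 16 ^ (k + 1) := by
          have h6 : 1 ≤ 16 ^ k := Nat.one_le_pow _ _ (by norm_num)
          have h5 : 1 ≤ s * 16 ^ k := Nat.one_le_iff_ne_zero.2 (by positivity)
          have : s * 16 ^ (k + 1) = 16 * (s * 16 ^ k) := by ring
          omega
        have h4 := armBox_reg_le hc0 hreg' h3 (by omega) hk
        have h5 : Pr q (Ann (s * 16 ^ k) (s * 16 ^ (k + 1))) ≤
            Pr q (ArmBox 0 (s * 16 ^ k + 1) (s * 16 ^ (k + 1))) := Pr_mono (ann_subset_armBox _ _)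
        linarith only [ht, ht1, h4, h5]
      rw [h1, pow_succ]
      exact mul_le_mul (ih (hle.trans hk)) h2 Pr_nonneg (pow_nonneg ht0.le k)
  set k := Nat.log 16 (R / s) with hk
  have hRs : R / s ≠ 0 := by
    have : 0 < R / s := Nat.div_pos hsR hs
    omega
  have hk1 : s * 16 ^ k ≤ R := by
    have h1 : 16 ^ k ≤ R / s := Nat.pow_log_le_self 16 hRs
    calc s * 16 ^ k ≤ s * (R / s) := Nat.mul_le_mul_left s h1
      _ ≤ R := Nat.mul_div_le R s
  have hk2 : R < s * 16 ^ (k + 1) := by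
    have h1 : R / s < 16 ^ (k + 1) := Nat.lt_pow_succ_log_self (by norm_num) (R / s)
    rw [mul_comm]
    exact (Nat.div_lt_iff_lt_mul hs).1 h1
  have h1 : Pr q (ArmBox 0 s R) ≤ t ^ k :=
    (Pr_mono (armBox_subset_annS hs k hk1)).trans (key k (hk1.trans hRn))
  have hs0 : (0 : ℝ) < s := by exact_mod_cast hs
  have hR0 : (0 : ℝ) < R := by exact_mod_cast (by omega : 0 < R)
  have hx0 : 0 < (s : ℝ) / R := by positivity
  have hx1 : (s : ℝ) / R ≤ 1 := by
    rw [div_le_one hR0]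
    exact_mod_cast hsR
  have hx2 : ((16 : ℝ) ^ (k + 1))⁻¹ ≤ (s : ℝ) / R := by
    rw [inv_eq_one_div, div_le_div_iff₀ (by positivity) hR0, one_mul]
    exact_mod_cast hk2.le
  have h2 : t ^ (k + 1) ≤ ((s : ℝ) / R) ^ a0 := by
    have h3 : (((16 : ℝ) ^ (k + 1))⁻¹) ^ a0 = t ^ (k + 1) := by
      rw [Real.inv_rpow (by positivity), ← Real.rpow_natCast (16 : ℝ) (k + 1),
        ← Real.rpow_mul (by norm_num), mul_comm, Real.rpow_mul (by norm_num), Real.rpow_natCast,
        ← inv_pow]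
      congr 1
      rw [Real.rpow_def_of_pos (by norm_num)]
      have : Real.log 16 * a0 = - Real.log t := by
        rw [ha0]; field_simp
      rw [this, Real.exp_neg, Real.exp_log ht0, inv_inv]
    rw [← h3]
    exact Real.rpow_le_rpow (by positivity) hx2 ha0p.le
  have h3 : ((s : ℝ) / R) ^ a0 ≤ ((s : ℝ) / R) ^ (min a0 (1 / 4)) :=
    Real.rpow_le_rpow_of_exponent_ge hx0 hx1 (min_le_left _ _)
  calc Pr q (ArmBox 0 s R) ≤ t ^ k := h1
    _ = 1 / t * t ^ (k + 1) := by rw [pow_succ]; field_simp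
    _ ≤ _ := mul_le_mul_of_nonneg_left (h2.trans h3) (by positivity)

end Pool.Agent.H31.EX

end

section

/-!
# Elementary facts used by all stages
-/

open MeasureTheory ProbabilityTheory unitInterval

namespace Pool.Agent.H59.EX

open Pool.Agent.H89.Perc

section clus

variable {ω ω' : Config} {D D' X S Z : Set Vert} {a b x : Vert} {e : Edge} {t : Set Edge}

theorem fillV_mono (hZ : S ⊆ Z) : fillV S ω e = true → fillV Z ω e = true := by
  rw [fillV_true, fillV_true]
  rintro (h | h)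
  · exact Or.inl h
  · exact Or.inr ⟨hZ h.1, hZ h.2⟩

theorem touch_of_joins (hj : Joins e a b) :
    e ∈ touch D S ↔ (a ∈ D ∧ b ∈ D) ∧ (a ∈ S ∨ b ∈ S) := by
  have h := inE_of_joins (S := D) hj
  constructor
  · rintro ⟨h1, h2⟩
    refine ⟨h.1 h1, ?_⟩
    rcases hj with ⟨h3, h4⟩ | ⟨h3, h4⟩
    · rwa [h3, h4]
    · rw [h3, h4]
      exact h2.symm
  · rintro ⟨h1, h2⟩
    refine ⟨h.2 h1, ?_⟩
    rcases hj with ⟨h3, h4⟩ | ⟨h3, h4⟩
    · rwa [h3, h4] at h2
    · rw [h3, h4] at h2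
      exact h2.symm

/-- The configurations `ω` and `s.cut ω` agree off `ball 0 2`. -/
theorem cut_of_not_ball {s : Src} {e : Edge} (h : src e ∉ ball 0 2 ∨ tgt e ∉ ball 0 2) :
    s.cut ω e = ω e := by
  have h1 : e ∉ (s.E0 : Set Edge) := by
    intro he
    have h2 := s.hE e (Finset.mem_coe.1 he)
    rcases h with h | h
    · exact h h2.1
    · exact h h2.2
  have h2 : s.cut ω e = true ↔ ω e = true := by
    unfold Src.cut
    rw [closeS_true]
    exact ⟨fun h => h.1, fun h => ⟨h, h1⟩⟩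
  exact Bool.eq_iff_iff.2 h2

theorem cut_le {s : Src} {e : Edge} (h : s.cut ω e = true) : ω e = true := by
  unfold Src.cut at h
  exact (closeS_true.1 h).1

theorem ball_of_joins (hj : Joins e a b) : a ∈ ball b 1 := by
  have h := fact_near hj
  simp only [mem_ball]
  omega

end clus

section fence

end fence

section stages

variable {ω : Config} {s : Src} {w ρ ρ' : ℕ} {v v' : Vert} {d d' : Side} {Z Zy : Set Vert}
  {Nev Ny : Set Config}

theorem corr_cut (hK : CorrData w ρ v d Z Nev) (hρ : 1 ≤ ρ) (hw : 64 * ρ ≤ w)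
    (hv : v ∈ sphere 0 (8 * w)) {e : Edge} (he : e ∈ inE Z) : s.cut ω e = ω e := by
  refine cut_of_not_ball (Or.inl fun h => ?_)
  exact corr_far hK hρ hw hv he.1 (fact_ball_mono (by omega) h)

/-- The cluster of `y` is closed under steps of the filled configuration in `D ∪ Z`. -/
theorem SY_closed (hK : CorrData w ρ v d Z Nev) (hρ : 1 ≤ ρ)
    (h : Disjoint (SY s w ω) (ball v (11 * ρ))) {a b : Vert} (ha : a ∈ SY s w ω)
    (hs : Step (fillV Z (s.cut ω)) (ball 0 (8 * w) ∪ Z) a b) : b ∈ SY s w ω := by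
  have haD : a ∈ ball 0 (8 * w) := clus_sub ha
  have hfar : a ∉ ball v (5 * ρ) := fun h1 =>
    Set.disjoint_left.1 h ha (fact_ball_mono (by omega) h1)
  obtain ⟨_, h2, e, he, ho⟩ := hs
  rw [fillV_true] at ho
  rcases ho with ho | ho
  · by_cases hbD : b ∈ ball 0 (8 * w)
    · exact clus_step ha ⟨haD, hbD, e, he, ho⟩
    · have hbZ : b ∈ Z := h2.resolve_left hbD
      exact absurd (hK.inter b hbZ a haD (fact_ball_mono hρ (ball_of_joins he))) hfar
  · exact absurd (corr_inter hK ⟨((inE_of_joins he).1 ho).1, haD⟩) hfar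

/-- F1. -/
theorem S1_disj_SY (hK : CorrData w ρ v d Z Nev) (hρ : 1 ≤ ρ)
    (h : Disjoint (SY s w ω) (ball v (11 * ρ)))
    (hxy : ¬ Conn (s.cut ω) (ball 0 (8 * w)) s.x s.y) : Disjoint (S1 s w Z ω) (SY s w ω) := by
  rw [Set.disjoint_left]
  intro z hz hz'
  have h1 : Conn (fillV Z (s.cut ω)) (ball 0 (8 * w) ∪ Z) z s.x := (mem_clus_single.1 hz).symm
  have h2 : s.x ∈ SY s w ω := h1.induction_right (P := fun b => b ∈ SY s w ω) hz'
    fun a b _ h3 h4 => SY_closed hK hρ h h4 h3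
  exact hxy (mem_clus_single.1 h2).symm

/-- If the cluster of `x` meets the filled corridor it contains it. -/
theorem Z_sub_SH (hK : CorrData w ρ v d Z Nev) {a : Vert} (ha : a ∈ Z) (ha' : a ∈ SH s w Z ω) :
    Z ⊆ SH s w Z ω := by
  intro b hb
  exact clus_conn ha' (conn_fillV (corr_sub160 hK) (hK.conn a ha b hb))

theorem Z_sub_S1 (hK : CorrData w ρ v d Z Nev) {a : Vert} (ha : a ∈ Z) (ha' : a ∈ S1 s w Z ω) :
    Z ⊆ S1 s w Z ω := by
  intro b hb
  exact clus_conn ha' (conn_fillV Set.subset_union_right (hK.conn a ha b hb))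

theorem Z_sub_SH_of_conf (hK : CorrData w ρ v d Z Nev) (h : ω ∈ Conf s w ρ' d Z) :
    Z ⊆ SH s w Z ω := by
  obtain ⟨_, hF, _⟩ := h
  obtain ⟨u, hu, hc⟩ := fence_mem hF
  exact Z_sub_SH hK (hK.T_sub hu) hc.mem_right.1

end stages

end Pool.Agent.H59.EX

end

section

/-!
# Gluing of four arms in the plane (GLT): definitions

The inner domain is `ball 0 (4 m)`, the outer domain is a finite vertex set `D` whose points have norm
at least `16 m`.  Everything is formulated for configurations in which some edges (the set `E`) near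
the origin have been closed; the corresponding probability is `PrE`.
-/

open MeasureTheory ProbabilityTheory unitInterval

namespace Pool.Agent.H57.EX

open Pool.Agent.H89.Perc Pool.Agent.H61.NC Pool.Agent.H29.Sep

/-- Four arms: `x` and `y` are joined to the sphere of radius `r` and not joined to each other inside
the ball of radius `r`. -/
def Four (x y : Vert) (r : ℕ) : Set Config :=
  {ω | (∃ u ∈ sphere 0 r, Conn ω (ball 0 r) x u) ∧ (∃ u ∈ sphere 0 r, Conn ω (ball 0 r) y u) ∧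
    ¬ Conn ω (ball 0 r) x y}

/-- Two-terminal event in the domain `D`: a cluster touching `L` and not touching `T` reaches the
sphere of radius `t`, and a cluster touching `T` reaches this sphere. -/
def Out (D L T : Set Vert) (t : ℕ) : Set Config :=
  {ω | (∃ u ∈ L, ∃ v ∈ sphere 0 t, Conn ω D u v ∧ ∀ w ∈ T, ¬ Conn ω D u w) ∧
    ∃ w ∈ T, ∃ v ∈ sphere 0 t, Conn ω D w v}

/-- The clusters of `x` and `y` in the inner domain are both near to a point of the inner sphere. -/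
def NearIn (Z : Dat) (t : ℕ) : Set Config :=
  {ω | ∃ z ∈ sphere 0 (4 * Z.m), (cl ω Z.B {Z.x} ∩ ball z t).Nonempty ∧
    (cl ω Z.B {Z.y} ∩ ball z t).Nonempty}

/-- A cluster of `L` and a cluster of `T` in the outer domain are both near to a point of the outer
sphere. -/
def NearOut (Z : Dat) (t : ℕ) : Set Config :=
  {ω | ∃ z ∈ sphere 0 (16 * Z.m), ∃ u ∈ Z.L, u ∉ cl ω Z.D Z.T ∧
    (cl ω Z.D {u} ∩ ball z t).Nonempty ∧ (cl ω Z.D Z.T ∩ ball z t).Nonempty}

/-- Third event: the cluster of `x` in the universe meets `L`, avoids the zone of the chain `γ'`, and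
off this cluster `y` and `T` reach the ends of the chain. -/
def E2 (Z : Dat) (s : ℕ) (γ' : ℕ → Vert) (n : ℕ) (β β' : Vert) : Set Config :=
  {ω | (cl ω Z.W {Z.x} ∩ Z.L).Nonempty ∧ Disjoint (cl ω Z.W {Z.x}) (zone γ' n s) ∧
    (∃ u ∈ ball β s, Conn ω (Z.B \ cl ω Z.W {Z.x}) Z.y u) ∧
    ∃ w ∈ Z.T, ∃ v ∈ ball β' s, Conn ω (Z.D \ cl ω Z.W {Z.x}) w v}

/-- Final event: `x` is joined to `L`, and `y` is joined to `T` off the cluster of `x`. -/
def Fin (Z : Dat) (s : ℕ) (γ' : ℕ → Vert) (n : ℕ) : Set Config :=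
  {ω | (cl ω Z.W {Z.x} ∩ Z.L).Nonempty ∧
    ∃ w ∈ Z.T, Conn ω (GG Z s γ' n \ cl ω Z.W {Z.x}) Z.y w}

end Pool.Agent.H57.EX

end

section

/-!
# Open paths: last exits, comparison of clusters in two domains
-/

open MeasureTheory ProbabilityTheory unitInterval

namespace Pool.Agent.H57.EX

open Pool.Agent.H89.Perc Pool.Agent.H29.Sep

/-- A path which starts in a cluster stays in this cluster. -/
theorem conn_in_cl {ω : Config} {D X : Set Vert} {u v : Vert} (h : Conn ω D u v)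
    (hu : u ∈ cl ω D X) : Conn ω (cl ω D X) u v := by
  obtain ⟨x, hx, hxu⟩ := hu
  refine h.induction_right (P := fun y => Conn ω (cl ω D X) u y)
    (Conn.refl ⟨x, hx, hxu⟩) ?_
  intro a b hua hab ha
  refine ha.tail ⟨ha.mem_right, ⟨x, hx, (hxu.trans hua).tail hab⟩, hab.2.2⟩

theorem cl_mono {ω : Config} {D G X : Set Vert} (h : D ⊆ G) : cl ω D X ⊆ cl ω G X := by
  rintro v ⟨u, hu, hc⟩
  exact ⟨u, hu, hc.mono_set h⟩

/-- If no open edge of `G` leaves the domain `D` from the cluster of `X` in `D`, this cluster is the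
cluster in `G`. -/
theorem cl_eq_cl {ω : Config} {D G X : Set Vert} (h : D ⊆ G) (hX : ∀ v ∈ X, v ∈ G → v ∈ D)
    (hstep : ∀ v ∈ cl ω D X, ∀ e w, Joins e v w → w ∈ G → w ∈ D) : cl ω G X = cl ω D X := by
  refine Set.Subset.antisymm ?_ (cl_mono h)
  rintro v ⟨u, hu, hc⟩
  refine ⟨u, hu, ?_⟩
  refine hc.induction_right (P := fun y => Conn ω D u y)
    (Conn.refl (hX u hu hc.mem_left)) ?_
  intro a b _ hab ha
  obtain ⟨e, hj, ho⟩ := hab.2.2
  exact ha.tail ⟨ha.mem_right, hstep a ⟨u, hu, ha⟩ e b hj hab.2.1, e, hj, ho⟩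

/-- Two clusters are equal or disjoint. -/
theorem cl_disjoint {ω : Config} {D X : Set Vert} {x : Vert} (hx : x ∉ cl ω D X) :
    Disjoint (cl ω D {x}) (cl ω D X) := by
  rw [Set.disjoint_left]
  rintro v hv ⟨u, hu, hc⟩
  exact hx ⟨u, hu, hc.trans (mem_cl_iff.1 hv).symm⟩

end Pool.Agent.H57.EX

end

section

/-!
# Probability with some closed edges, norms
-/

open MeasureTheory ProbabilityTheory unitInterval

namespace Pool.Agent.H57.EX

open Pool.Agent.H89.Perc Pool.Agent.H61.NC Pool.Agent.H29.Sep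

variable {q : I} {E : Finset Edge}

theorem PrE_nonneg {A : Set Config} : 0 ≤ PrE q E A := by
  exact Pr_nonneg

theorem PrE_mono {A B : Set Config} (h : A ⊆ B) : PrE q E A ≤ PrE q E B := by
  exact Pr_mono fun _ hω => h hω

theorem PrE_union_le {A B : Set Config} : PrE q E (A ∪ B) ≤ PrE q E A + PrE q E B := by
  have h : {ω | shut E ω ∈ A ∪ B} = {ω | shut E ω ∈ A} ∪ {ω | shut E ω ∈ B} := rfl
  unfold PrE
  rw [h]
  exact Pr_union_le

theorem PrE_biUnion_le {ι : Type*} (F : Finset ι) (A : ι → Set Config) :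
    PrE q E (⋃ i ∈ F, A i) ≤ ∑ i ∈ F, PrE q E (A i) := by
  unfold PrE
  have h : {ω | shut E ω ∈ ⋃ i ∈ F, A i} = ⋃ i ∈ F, {ω | shut E ω ∈ A i} := by
    ext ω
    simp
  rw [h]
  exact Pr_biUnion_le F _

/-- Events which do not look at the closed edges. -/
theorem PrE_eq {t : Finset Edge} {A : Set Config} (h : LocalOn t A) (hd : Disjoint t E) :
    PrE q E A = Pr q A := by
  unfold PrE
  congr 1
  ext ω
  have h1 : ∀ e ∈ t, shut E ω e = ω e := by
    intro e he
    have h2 : e ∉ E := fun h3 => (Finset.disjoint_left.1 hd he) h3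
    simp [shut, h2]
  constructor
  · exact h _ _ h1
  · exact h _ _ fun e he => (h1 e he).symm

theorem PrE_inter {s t : Finset Edge} {A B : Set Config} (hA : LocalOn s A) (hB : LocalOn t B)
    (hd : Disjoint s t) : PrE q E (A ∩ B) = PrE q E A * PrE q E B := by
  classical
  unfold PrE
  have h : {ω | shut E ω ∈ A ∩ B} = {ω | shut E ω ∈ A} ∩ {ω | shut E ω ∈ B} := rfl
  rw [h]
  exact Pr_inter_of_disjoint (localOn_shut hA) (localOn_shut hB)
    (hd.mono Finset.sdiff_subset Finset.sdiff_subset)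

/-- Closing edges makes a decreasing event more likely. -/
theorem le_PrE_of_decr {t : Finset Edge} {A : Set Config} (h : LocalOn t A) (iA : Incr Aᶜ) :
    Pr q A ≤ PrE q E A := by
  exact Pr_le_shut h iA

/-- Conditional FKG (see `cond_fkg`). -/
theorem cond_fkgE {ι : Type*} (F : Finset ι) (X A O : ι → Set Config) (tX tA tO : ι → Finset Edge)
    {c : ℝ} (hc : 0 ≤ c)
    (hdisj : ∀ i ∈ F, ∀ j ∈ F, i ≠ j → Disjoint (X i) (X j))
    (hX : ∀ i ∈ F, LocalOn (tX i) (X i)) (hA : ∀ i ∈ F, LocalOn (tA i) (A i))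
    (hO : ∀ i ∈ F, LocalOn (tO i) (O i)) (iA : ∀ i ∈ F, Incr (A i)) (iO : ∀ i ∈ F, Incr (O i))
    (h1 : ∀ i ∈ F, Disjoint (tX i) (tA i)) (h2 : ∀ i ∈ F, Disjoint (tX i) (tO i))
    (hP : ∀ i ∈ F, c ≤ PrE q E (O i)) :
    c * PrE q E (⋃ i ∈ F, X i ∩ A i) ≤ PrE q E (⋃ i ∈ F, X i ∩ (A i ∩ O i)) := by
  classical
  have e1 : {ω | shut E ω ∈ ⋃ i ∈ F, X i ∩ A i} =
      ⋃ i ∈ F, {ω | shut E ω ∈ X i} ∩ {ω | shut E ω ∈ A i} := by
    ext ω
    simp
  have e2 : {ω | shut E ω ∈ ⋃ i ∈ F, X i ∩ (A i ∩ O i)} =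
      ⋃ i ∈ F, {ω | shut E ω ∈ X i} ∩ ({ω | shut E ω ∈ A i} ∩ {ω | shut E ω ∈ O i}) := by
    ext ω
    simp
  unfold PrE at hP ⊢
  rw [e1, e2]
  refine cond_fkg F _ _ _ (fun i => tX i \ E) (fun i => tA i \ E) (fun i => tO i \ E) hc ?_
    (fun i hi => localOn_shut (hX i hi)) (fun i hi => localOn_shut (hA i hi))
    (fun i hi => localOn_shut (hO i hi)) (fun i hi => incr_shut (iA i hi))
    (fun i hi => incr_shut (iO i hi))
    (fun i hi => (h1 i hi).mono Finset.sdiff_subset Finset.sdiff_subset)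
    (fun i hi => (h2 i hi).mono Finset.sdiff_subset Finset.sdiff_subset) hP
  intro i hi j hj hij
  rw [Set.disjoint_left]
  intro ω hω hω'
  exact (Set.disjoint_left.1 (hdisj i hi j hj hij)) hω hω'

/-- Conditional independence (see `cond_indep`). -/
theorem cond_indepE {ι : Type*} (F : Finset ι) (X O : ι → Set Config) (tX tO : ι → Finset Edge)
    {c : ℝ} (hc : 0 ≤ c)
    (hdisj : ∀ i ∈ F, ∀ j ∈ F, i ≠ j → Disjoint (X i) (X j))
    (hX : ∀ i ∈ F, LocalOn (tX i) (X i)) (hO : ∀ i ∈ F, LocalOn (tO i) (O i))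
    (h2 : ∀ i ∈ F, Disjoint (tX i) (tO i)) (hP : ∀ i ∈ F, c ≤ PrE q E (O i)) :
    c * PrE q E (⋃ i ∈ F, X i) ≤ PrE q E (⋃ i ∈ F, X i ∩ O i) := by
  classical
  have e1 : {ω | shut E ω ∈ ⋃ i ∈ F, X i} = ⋃ i ∈ F, {ω | shut E ω ∈ X i} := by
    ext ω
    simp
  have e2 : {ω | shut E ω ∈ ⋃ i ∈ F, X i ∩ O i} =
      ⋃ i ∈ F, {ω | shut E ω ∈ X i} ∩ {ω | shut E ω ∈ O i} := by
    ext ω
    simp
  unfold PrE at hP ⊢
  rw [e1, e2]
  refine cond_indep F _ _ (fun i => tX i \ E) (fun i => tO i \ E) hc ?_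
    (fun i hi => localOn_shut (hX i hi)) (fun i hi => localOn_shut (hO i hi))
    (fun i hi => (h2 i hi).mono Finset.sdiff_subset Finset.sdiff_subset) hP
  intro i hi j hj hij
  rw [Set.disjoint_left]
  intro ω hω hω'
  exact (Set.disjoint_left.1 (hdisj i hi j hj hij)) hω hω'

theorem mem_eIn {R : ℕ} {D : Set Vert} {e : Edge} (h : D ⊆ ball 0 R) :
    e ∈ eIn R D ↔ src e ∈ D ∧ tgt e ∈ D := by
  classical
  unfold eIn
  rw [Finset.mem_filter]
  constructor
  · exact fun h1 => h1.2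
  · intro h1
    refine ⟨mem_eRect.2 ?_, h1⟩
    have h2 := h h1.1
    simpa [ball] using h2

end Pool.Agent.H57.EX

end

section

/-!
# Consequences of the box-crossing regime: blocking, decay, half circuits
-/

open MeasureTheory ProbabilityTheory unitInterval

namespace Pool.Agent.H26.HP

open Pool.Agent.H89.Perc
open Pool.Agent.H61.NC (RSWreg)

end Pool.Agent.H26.HP

end

section

/-!
# Half plane, one arm with a free side: the exponent is one

`E1 R z`: the cluster of `(z, 0)` in the half ball of radius `R` reaches distance `R` and does not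
touch the base to the right of `(z, 0)`.  Its probability is at most `C / R`.
-/

open MeasureTheory ProbabilityTheory unitInterval

namespace Pool.Agent.H26.HP

open Pool.Agent.H89.Perc
open Pool.Agent.H61.NC (RSWreg)

end Pool.Agent.H26.HP

end

section

/-!
# Corridors for the outward separation: definitions
-/

open MeasureTheory ProbabilityTheory unitInterval

namespace Pool.Agent.H59.EX

open Pool.Agent.H89.Perc
open Pool.Agent.H29.Sep (Circ)

/-- `v` lies on the side `d` of `ball 0 r`. -/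
def OnSide (d : Side) (r : ℕ) (v : Vert) : Prop :=
  v ∈ sphere 0 r ∧
    match d with
    | .E => v.1 = r
    | .N => v.2 = r
    | .W => v.1 = -r
    | .S => v.2 = -r

/-- Straight corridor from the vertex `v` on side `d` of `ball 0 (8 w)` to the target rectangle on
the same side. -/
def ZS (d : Side) (w ρ : ℕ) (v : Vert) : Set Vert :=
  match d with
  | .E => ball v (3 * ρ) ∪ rect (8 * w) (17 * w) (v.2 - ρ) (v.2 + ρ) ∪
      rect (16 * w) (144 * w) (-(12 * w)) (12 * w)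
  | .N => ball v (3 * ρ) ∪ rect (v.1 - ρ) (v.1 + ρ) (8 * w) (17 * w) ∪
      rect (-(12 * w)) (12 * w) (16 * w) (144 * w)
  | .W => ball v (3 * ρ) ∪ rect (-(17 * w)) (-(8 * w)) (v.2 - ρ) (v.2 + ρ) ∪
      rect (-(144 * w)) (-(16 * w)) (-(12 * w)) (12 * w)
  | .S => ball v (3 * ρ) ∪ rect (v.1 - ρ) (v.1 + ρ) (-(17 * w)) (-(8 * w)) ∪
      rect (-(12 * w)) (12 * w) (-(144 * w)) (-(16 * w))

/-- Crossing event of the straight corridor. -/
def NS (d : Side) (w ρ : ℕ) (v : Vert) : Set Config :=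
  match d with
  | .E => {ω | ω ∈ Circ v ρ ∧ HCross ω (8 * w) (17 * w) (v.2 - ρ) (v.2 + ρ) ∧
      VCross ω (16 * w) (17 * w) (-(12 * w)) (12 * w) ∧
      HCross ω (16 * w) (144 * w) (-(12 * w)) (12 * w) ∧
      VCross ω (112 * w) (144 * w) (-(12 * w)) (12 * w)}
  | .N => {ω | ω ∈ Circ v ρ ∧ VCross ω (v.1 - ρ) (v.1 + ρ) (8 * w) (17 * w) ∧
      HCross ω (-(12 * w)) (12 * w) (16 * w) (17 * w) ∧
      VCross ω (-(12 * w)) (12 * w) (16 * w) (144 * w) ∧
      HCross ω (-(12 * w)) (12 * w) (112 * w) (144 * w)}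
  | .W => {ω | ω ∈ Circ v ρ ∧ HCross ω (-(17 * w)) (-(8 * w)) (v.2 - ρ) (v.2 + ρ) ∧
      VCross ω (-(17 * w)) (-(16 * w)) (-(12 * w)) (12 * w) ∧
      HCross ω (-(144 * w)) (-(16 * w)) (-(12 * w)) (12 * w) ∧
      VCross ω (-(144 * w)) (-(112 * w)) (-(12 * w)) (12 * w)}
  | .S => {ω | ω ∈ Circ v ρ ∧ VCross ω (v.1 - ρ) (v.1 + ρ) (-(17 * w)) (-(8 * w)) ∧
      HCross ω (-(12 * w)) (12 * w) (-(17 * w)) (-(16 * w)) ∧
      VCross ω (-(12 * w)) (12 * w) (-(144 * w)) (-(16 * w)) ∧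
      HCross ω (-(12 * w)) (12 * w) (-(144 * w)) (-(112 * w))}

end Pool.Agent.H59.EX

end
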