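import Pool.Agent.H94.BG.H31.PT.M03
import Pool.Agent.H94.BG.H31.PT.M05
import Pool.Agent.H94.BG.M03

/-! The parts of this file: H89.Perc.WindExcl, H31.EX.WindReg, H89.Perc.TorusDet, H31.EX.BlockRule, H31.EX.BlockReveal, H31.EX.BlockLow, H61.NC.BlockTwo, H29.Sep.A4Low, H29.Sep.OuterSplit, H59.EX.MoveDef, H59.EX.MoveTurn, H59.EX.MoveStr. -/

section

/-!
# An open horizontal winding path excludes a dual vertical winding path
-/

open MeasureTheory ProbabilityTheory unitInterval

namespace Pool.Agent.H89.Perc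

/-- A configuration is invariant under the translation by `z`. -/
private def WindExclInv (η : Config) (z : Vert) : Prop :=
  ∀ e : Edge, η (e.1 + z.1, e.2.1 + z.2, e.2.2) = η e

private lemma windExcl_inv_neg {η : Config} {z : Vert} (h : WindExclInv η z) :
    WindExclInv η (-z.1, -z.2) := by
  intro e
  have := h (e.1 + -z.1, e.2.1 + -z.2, e.2.2)
  simp only [neg_add_cancel_right] at this
  exact this.symm

private lemma windExcl_dual {η : Config} {z : Vert} (h : WindExclInv η z) :
    WindExclInv (dual η) z := by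
  rintro ⟨x, y, b⟩
  cases b
  · simp only [dual, crossed, Bool.false_eq_true, if_false]
    have := h (x + 1, y, true)
    simp only at this
    rw [← this]
    congr 2
    simp only [Prod.mk.injEq, and_true]
    ring
  · simp only [dual, crossed, if_true]
    have := h (x, y + 1, false)
    simp only at this
    rw [← this]
    congr 2
    simp only [Prod.mk.injEq, and_true, true_and]
    ring

private lemma windExcl_step {η : Config} {z : Vert} (h : WindExclInv η z) {S T : Set Vert}
    (hST : ∀ v ∈ S, (v.1 + z.1, v.2 + z.2) ∈ T) {u v : Vert} (hs : Step η S u v) :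
    Step η T (u.1 + z.1, u.2 + z.2) (v.1 + z.1, v.2 + z.2) := by
  obtain ⟨h1, h2, ⟨x, y, b⟩, h3, h4⟩ := hs
  refine ⟨hST u h1, hST v h2, (x + z.1, y + z.2, b), ?_, ?_⟩
  · cases b
    · simp only [Joins, src, tgt, Bool.false_eq_true, if_false] at h3 ⊢
      rcases h3 with ⟨h5, h6⟩ | ⟨h5, h6⟩ <;> subst h5 h6
      · left; exact ⟨rfl, by ext <;> simp; ring⟩
      · right; exact ⟨by ext <;> simp; ring, rfl⟩
    · simp only [Joins, src, tgt, if_true] at h3 ⊢
      rcases h3 with ⟨h5, h6⟩ | ⟨h5, h6⟩ <;> subst h5 h6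
      · left; exact ⟨rfl, by ext <;> simp; ring⟩
      · right; exact ⟨by ext <;> simp; ring, rfl⟩
  · rw [← h4]
    exact h (x, y, b)

private lemma windExcl_conn {η : Config} {z : Vert} (h : WindExclInv η z) {S T : Set Vert}
    (hST : ∀ v ∈ S, (v.1 + z.1, v.2 + z.2) ∈ T) {u v : Vert} (hc : Conn η S u v) :
    Conn η T (u.1 + z.1, u.2 + z.2) (v.1 + z.1, v.2 + z.2) := by
  refine hc.induction_right (P := fun v => Conn η T (u.1 + z.1, u.2 + z.2) (v.1 + z.1, v.2 + z.2))
    (Conn.refl (hST u hc.mem_left)) ?_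
  intro a b _ hab ha
  exact ha.tail (windExcl_step h hST hab)

/-- Repeating a periodic path `K` times. -/
private lemma windExcl_repeat {η : Config} {z : Vert} (h : WindExclInv η z) {S : Set Vert}
    (hS : ∀ v ∈ S, (v.1 + z.1, v.2 + z.2) ∈ S) {u : Vert}
    (hc : Conn η S u (u.1 + z.1, u.2 + z.2)) (K : ℕ) :
    Conn η S u (u.1 + K * z.1, u.2 + K * z.2) := by
  induction K with
  | zero => simpa using Conn.refl hc.mem_left
  | succ K ih =>
    have h1 := windExcl_conn h hS ih
    have h2 := hc.trans h1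
    convert h2 using 1
    ext <;> simp <;> ring

/-- Repeating a periodic path in both directions. -/
private lemma windExcl_repeat2 {η : Config} {z : Vert} (h : WindExclInv η z) {S : Set Vert}
    (hS : ∀ v ∈ S, (v.1 + z.1, v.2 + z.2) ∈ S) (hS' : ∀ v ∈ S, (v.1 - z.1, v.2 - z.2) ∈ S)
    {u : Vert} (hc : Conn η S u (u.1 + z.1, u.2 + z.2)) (K : ℕ) :
    Conn η S (u.1 - K * z.1, u.2 - K * z.2) (u.1 + K * z.1, u.2 + K * z.2) := by
  have h1 := windExcl_repeat h hS hc K
  have hneg := windExcl_inv_neg h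
  have hSn : ∀ v ∈ S, (v.1 + (-z.1, -z.2).1, v.2 + (-z.1, -z.2).2) ∈ S := by
    intro v hv
    have := hS' v hv
    simpa [sub_eq_add_neg] using this
  have h2 : Conn η S u (u.1 + (-z.1, -z.2).1, u.2 + (-z.1, -z.2).2) := by
    have := windExcl_conn hneg hSn hc.symm
    convert this using 1
    ext <;> simp
  have h3 := windExcl_repeat hneg hSn h2 K
  have h4 := h3.symm.trans h1
  convert h4 using 1
  ext <;> simp <;> ring

/-- A path is contained in a ball. -/
private lemma windExcl_bounded {η : Config} {S : Set Vert} {u v : Vert} (hc : Conn η S u v) :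
    ∃ M : ℕ, Conn η (S ∩ ball 0 M) u v := by
  refine hc.induction_right (P := fun v => ∃ M : ℕ, Conn η (S ∩ ball 0 M) u v) ?_ ?_
  · refine ⟨(|u.1| + |u.2|).toNat, Conn.refl ⟨hc.mem_left, ?_⟩⟩
    rw [mem_ball]
    have h1 := abs_nonneg u.1
    have h2 := abs_nonneg u.2
    have h3 := le_abs_self u.1
    have h4 := neg_abs_le u.1
    have h5 := le_abs_self u.2
    have h6 := neg_abs_le u.2
    simp only [Prod.fst_zero, Prod.snd_zero]
    omega
  · rintro a b _ hab ⟨M, hM⟩
    refine ⟨M + 1, ?_⟩
    have h1 : Conn η (S ∩ ball 0 (M + 1 : ℕ)) u a := hM.mono_set (by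
      rintro x ⟨hx, hx'⟩
      refine ⟨hx, ?_⟩
      rw [mem_ball] at hx' ⊢
      push_cast
      omega)
    refine h1.tail ⟨h1.mem_right, ⟨hab.2.1, ?_⟩, hab.2.2⟩
    have h2 := hM.mem_right.2
    have h3 := hab.fst_le
    have h4 := hab.snd_le
    rw [mem_ball] at h2 ⊢
    push_cast
    omega

private lemma windExcl_per (N : ℕ) (ω : Config) (i j : ℤ) :
    WindExclInv (per N ω) (i * N, j * N) := by
  intro e
  simp only [per]
  congr 2
  · exact Int.add_mul_emod_self_right _ _ _
  · congr 1
    exact Int.add_mul_emod_self_right _ _ _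

private lemma wind_exclusion_pos {N : ℕ} (hN : 1 ≤ N) {ω : Config} {u : Vert} {a b : ℤ}
    (ha : 0 < a) (h : Conn (per N ω) Set.univ u (u.1 + a * N, u.2 + b * N)) (w : Vert) :
    ¬ Conn (dual (per N ω)) Set.univ w (w.1, w.2 + N) := by
  intro hd
  set η := per N ω with hη
  have hN' : (1 : ℤ) ≤ N := by exact_mod_cast hN
  -- the dual path lies in a vertical strip
  obtain ⟨L, hL⟩ := windExcl_bounded hd
  set A : ℤ := -L with hA
  set B : ℤ := L + 1 with hB
  set S : Set Vert := {v | A ≤ v.1 ∧ v.1 ≤ B - 1} with hS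
  have hd1 : Conn (dual η) S w (w.1 + ((0 : ℤ), (N : ℤ)).1, w.2 + ((0 : ℤ), (N : ℤ)).2) := by
    have : Conn (dual η) S w (w.1, w.2 + N) := hL.mono_set (by
      rintro x ⟨_, hx⟩
      rw [mem_ball] at hx
      simp only [Prod.fst_zero, Prod.snd_zero] at hx
      simp only [hS, Set.mem_ofPred_eq, hA, hB]
      omega)
    simpa using this
  have hinv : WindExclInv (dual η) ((0 : ℤ), (N : ℤ)) := by
    have := windExcl_dual (windExcl_per N ω 0 1)
    simpa using this
  have hdK := windExcl_repeat2 hinv (S := S) (by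
    intro v hv
    simpa [hS] using hv) (by
    intro v hv
    simpa [hS] using hv) hd1
  -- the primal path
  have hpK := windExcl_repeat2 (windExcl_per N ω a b) (S := Set.univ) (fun _ _ => trivial)
    (fun _ _ => trivial) h
  obtain ⟨K, hK1, hK2⟩ : ∃ K : ℕ, u.1 - K * (a * N) ≤ A ∧ B ≤ u.1 + K * (a * N) := by
    refine ⟨(|u.1| + L + 1).toNat, ?_⟩
    have h1 := abs_nonneg u.1
    have h2 := le_abs_self u.1
    have h3 := neg_abs_le u.1
    have h4 : (((|u.1| + L + 1).toNat : ℕ) : ℤ) = |u.1| + L + 1 := by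
      apply Int.toNat_of_nonneg
      omega
    rw [h4]
    have h5 : 1 ≤ a * N := by nlinarith only [hN, ha]
    have h6 : |u.1| + L + 1 ≤ (|u.1| + L + 1) * (a * N) := by nlinarith only [h5, h1]
    constructor <;> omega
  obtain ⟨M, hM⟩ := windExcl_bounded (hpK K)
  obtain ⟨u', v', hu', hv', hc, _, _⟩ := hM.cross_x (a := A) (b := B) hK1 hK2 (by omega)
  have hH : HCross η A B (-M) M := by
    refine ⟨u', v', hu', hv', hc.mono_set ?_⟩
    rintro x ⟨⟨_, hx⟩, hx'⟩
    rw [mem_ball] at hx
    simp only [Prod.fst_zero, Prod.snd_zero] at hx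
    simp only [Set.mem_ofPred_eq] at hx'
    simp only [rect, Set.mem_ofPred_eq]
    omega
  -- the dual crossing
  obtain ⟨K', hK1', hK2'⟩ : ∃ K' : ℕ, w.2 - K' * (N : ℤ) ≤ -M - 1 ∧ (M : ℤ) ≤ w.2 + K' * N := by
    refine ⟨(|w.2| + M + 1).toNat, ?_⟩
    have h1 := abs_nonneg w.2
    have h2 := le_abs_self w.2
    have h3 := neg_abs_le w.2
    have h4 : (((|w.2| + M + 1).toNat : ℕ) : ℤ) = |w.2| + M + 1 := by
      apply Int.toNat_of_nonneg
      omega
    rw [h4]
    have h6 : |w.2| + M + 1 ≤ (|w.2| + M + 1) * (N : ℤ) := by nlinarith only [h4, hN]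
    constructor <;> omega
  obtain ⟨u'', v'', hu'', hv'', hc', _, _⟩ := (hdK K').cross_y (a := -M - 1) (b := M)
    (by simpa using hK1') (by simpa using hK2') (by omega)
  have hV : VCross (dual η) A (B - 1) (-M - 1) M := by
    refine ⟨u'', v'', hu'', hv'', hc'.mono_set ?_⟩
    rintro x ⟨hx, hx'⟩
    simp only [hS, Set.mem_ofPred_eq] at hx hx'
    simp only [rect, Set.mem_ofPred_eq]
    omega
  exact not_hcross_and_dual_vcross (by omega) hH hV

/-- An open horizontal winding path excludes a dual vertical winding path. -/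
theorem wind_exclusion {N : ℕ} (hN : 1 ≤ N) {ω : Config} (h : ω ∈ Wind N) (w : Vert) :
    ¬ Conn (dual (per N ω)) Set.univ w (w.1, w.2 + N) := by
  obtain ⟨u, a, b, ha, hc⟩ := h
  rcases lt_or_gt_of_ne ha with ha | ha
  · refine wind_exclusion_pos hN (u := (u.1 + a * N, u.2 + b * N)) (a := -a) (b := -b) (by omega)
      ?_ w
    have := hc.symm
    convert this using 1
    ext <;> simp
  · exact wind_exclusion_pos hN ha hc w

end Pool.Agent.H89.Perc

end

section

/-!
# The winding event is not degenerate in the box-crossing regime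
-/

open MeasureTheory ProbabilityTheory unitInterval

namespace Pool.Agent.H31.EX

open Pool.Agent.H89.Perc Pool.Agent.H61.NC

lemma per_shift (N : ℕ) (ω : Config) (i j : ℤ) (e : Edge) :
    per N ω (shiftE (i * N, j * N) e) = per N ω e := by
  simp only [per, shiftE]
  congr 2
  · exact Int.add_mul_emod_self_right _ _ _
  · congr 1
    exact Int.add_mul_emod_self_right _ _ _

end Pool.Agent.H31.EX

end

section

/-!
# The exploration determines the winding event
-/

open MeasureTheory ProbabilityTheory unitInterval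

namespace Pool.Agent.H89.Perc

/-! ### The exploration -/

/-! ### The boundary of the fundamental square is connected -/

lemma mem_tEdges {N : ℕ} {e : Edge} :
    e ∈ tEdges N ↔ 0 ≤ e.1 ∧ e.1 < N ∧ 0 ≤ e.2.1 ∧ e.2.1 < N := by
  simp only [tEdges, Finset.mem_product, Finset.mem_Ico, Finset.mem_univ, and_true]
  tauto

/-! ### Periodicity -/

lemma per_shift {N : ℕ} (η : Config) (a b : ℤ) {S : Set Vert} {u v : Vert}
    (h : Conn (per N η) S u v) :
    Conn (per N η) {w | (w.1 - a * N, w.2 - b * N) ∈ S} (u.1 + a * N, u.2 + b * N)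
      (v.1 + a * N, v.2 + b * N) := by
  have h1 := conn_shift (ω := per N η) (a * N, b * N) S u v
  have h2 : (fun e => per N η (shiftE (a * N, b * N) e)) = per N η := by
    funext e
    simp only [per, shiftE]
    rw [Int.add_mul_emod_self_right, Int.add_mul_emod_self_right]
  rw [h2] at h1
  exact h1.1 h

end Pool.Agent.H89.Perc

end

section

/-!
# Block OSSS inequality for an exploration that queries single edges

From an exploration rule for single edges we make a rule for blocks: run the edge exploration on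
the revealed blocks; when it asks for an edge of a block that is not revealed, reveal this block.
-/

open MeasureTheory ProbabilityTheory unitInterval

namespace Pool.Agent.H31.EX

open Pool.Agent.H89.Perc

end Pool.Agent.H31.EX

end

section

/-!
# Blocks of the torus: a revealed block has a primal arm and a dual arm
-/

open MeasureTheory ProbabilityTheory unitInterval

namespace Pool.Agent.H31.EX

open Pool.Agent.H89.Perc

lemma mem_tEdges {N : ℕ} {e : Edge} :
    e ∈ tEdges N ↔ (0 ≤ e.1 ∧ e.1 < N) ∧ (0 ≤ e.2.1 ∧ e.2.1 < N) := by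
  simp only [tEdges, Finset.mem_product, Finset.mem_Ico, Finset.mem_univ, and_true]

end Pool.Agent.H31.EX

end

section

/-!
# Lower bound for the probability that a block is pivotal for the winding event
-/

open MeasureTheory ProbabilityTheory unitInterval

namespace Pool.Agent.H31.EX

open Pool.Agent.H89.Perc Pool.Agent.H61.NC

/-! ### The sum over the blocks -/

end Pool.Agent.H31.EX

end

section

/-!
# A pivotal block of the torus has two distinct crossing clusters around it
-/

open MeasureTheory ProbabilityTheory unitInterval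

namespace Pool.Agent.H61.NC

open Pool.Agent.H89.Perc

/-- The closed annulus `ball v R` minus the interior of `ball v t`. -/
def Ring (v : Vert) (t R : ℕ) : Set Vert := ball v R \ ball v (t - 1)

/-- Two distinct clusters of the annulus touch both its inner and its outer boundary. -/
def Two (v : Vert) (t R : ℕ) : Set Config :=
  {ω | ∃ u u' : Vert, u ∈ sphere v t ∧ u' ∈ sphere v t ∧
    (∃ w ∈ sphere v R, Conn ω (Ring v t R) u w) ∧ (∃ w ∈ sphere v R, Conn ω (Ring v t R) u' w) ∧
    ¬ Conn ω (Ring v t R) u u'}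

end Pool.Agent.H61.NC

end

section

/-!
# Small scales: finite energy
-/

open MeasureTheory ProbabilityTheory unitInterval

namespace Pool.Agent.H29.Sep

open Pool.Agent.H89.Perc Pool.Agent.H61.NC

/-- The probability that one edge is open. -/
theorem a4Low_open (q : I) (e : Edge) : Pr q {ω : Config | ω e = true} = q := by
  have hloc : LocalOn {e} {ω : Config | ω e = true} := by
    intro ω ω' h hω
    rw [Set.mem_ofPred_eq, ← h e (Finset.mem_singleton_self e)]
    exact hω
  rw [Pr_eq_update hloc e]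
  have h1 : {ω : Config | Function.update ω e true ∈ {ω : Config | ω e = true}} = Set.univ := by
    ext ω; simp
  have h2 : {ω : Config | Function.update ω e false ∈ {ω : Config | ω e = true}} = ∅ := by
    ext ω; simp
  rw [h1, h2, Pr_univ]
  simp [Pr]

private theorem a4Low_hcross (q : I) {c : ℝ} (h : c ≤ Pr q {ω | HCross ω 0 (4 * ((1 : ℕ) : ℤ)) 0 ((1 : ℕ) : ℤ)}) :
    c / 16 ≤ (q : ℝ) := by
  have hsub : {ω : Config | HCross ω 0 (4 * ((1 : ℕ) : ℤ)) 0 ((1 : ℕ) : ℤ)} ⊆
      {ω | ω (0, 0, false) = true} ∪ {ω | ω (0, 1, false) = true} := by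
    rintro ω ⟨u, v, hu, hv, hc⟩
    by_contra hno
    simp only [Set.mem_union, Set.mem_ofPred_eq, not_or] at hno
    have hP : v.1 ≤ 0 := by
      refine hc.induction_right (P := fun w => w.1 ≤ 0) (by omega) ?_
      intro a b _ hab ha
      obtain ⟨ha', hb', f, hf, ho⟩ := hab
      obtain ⟨x, y, d⟩ := f
      simp only [rect, Set.mem_ofPred_eq] at ha' hb'
      rcases d
      · rcases hf with ⟨h3, h4⟩ | ⟨h3, h4⟩
        · subst h3 h4
          simp only [src, tgt, Bool.false_eq_true, if_false] at ha ha' hb' ⊢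
          have hx : x = 0 := by omega
          subst hx
          have hy : y = 0 ∨ y = 1 := by omega
          rcases hy with hy | hy
          · subst hy; exact absurd ho hno.1
          · subst hy; exact absurd ho hno.2
        · subst h3 h4
          simp only [src, tgt, Bool.false_eq_true, if_false] at ha ha' hb' ⊢
          omega
      · rcases hf with ⟨h3, h4⟩ | ⟨h3, h4⟩ <;>
        · subst h3 h4
          simpa [src, tgt] using ha
    rw [hv] at hP
    norm_num at hP
  have h1 := (h.trans (Pr_mono hsub)).trans Pr_union_le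
  rw [a4Low_open, a4Low_open] at h1
  have h2 : (0 : ℝ) ≤ q := q.2.1
  linarith only [h1, h2]

/-- In the regime the density is bounded away from `0` and `1`. -/
theorem rswreg_density {c : ℝ} {n : ℕ} {q : I} (hn : 1 ≤ n) (h : RSWreg c n q) :
    c / 16 ≤ (q : ℝ) ∧ (q : ℝ) ≤ 1 - c / 16 := by
  obtain ⟨h1, h2⟩ := h 1 le_rfl hn
  have h3 := a4Low_hcross q h1
  have h4 := a4Low_hcross (σ q) h2
  rw [unitInterval.coe_symm_eq] at h4
  exact ⟨h3, by linarith only [h4]⟩

/-- Finite energy: every configuration on a finite set has probability bounded below. -/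
theorem a4Low_cyl (q : I) {t : ℝ} (ht : 0 ≤ t) (h1 : t ≤ (q : ℝ)) (h2 : (q : ℝ) ≤ 1 - t)
    (b : Config) (s : Finset Edge) :
    t ^ s.card ≤ Pr q {ω | ∀ e ∈ s, ω e = b e} := by
  classical
  induction s using Finset.induction_on with
  | empty =>
    have : {ω : Config | ∀ e ∈ (∅ : Finset Edge), ω e = b e} = Set.univ := by
      ext ω; simp
    rw [this, Pr_univ]
    simp
  | @insert a s ha ih =>
    have hloc : LocalOn (insert a s) {ω : Config | ∀ e ∈ insert a s, ω e = b e} := by
      intro ω ω' h hω e he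
      rw [← h e he]
      exact hω e he
    have hne : ∀ e ∈ s, e ≠ a := fun e he hea => ha (hea ▸ he)
    have hup : ∀ c : Bool, c = b a →
        {ω : Config | Function.update ω a c ∈ {ω : Config | ∀ e ∈ insert a s, ω e = b e}} =
          {ω | ∀ e ∈ s, ω e = b e} := by
      intro c hc
      ext ω
      simp only [Set.mem_ofPred_eq, Finset.mem_insert, forall_eq_or_imp, Function.update_self]
      constructor
      · rintro ⟨-, h⟩ e he
        have := h e he
        rwa [Function.update_of_ne (hne e he)] at this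
      · intro h
        refine ⟨hc, fun e he => ?_⟩
        rw [Function.update_of_ne (hne e he)]
        exact h e he
    rw [Pr_eq_update hloc a, Finset.card_insert_of_notMem ha, pow_succ]
    have hn : ∀ A : Set Config, 0 ≤ Pr q A := fun A => Pr_nonneg
    have hp : (0 : ℝ) ≤ t ^ s.card := by positivity
    have hq0 : (0 : ℝ) ≤ q := ht.trans h1
    have hq1 : (0 : ℝ) ≤ 1 - (q : ℝ) := by linarith
    cases hb : b a
    · rw [hup false hb.symm]
      have h3 := hn {ω | Function.update ω a true ∈ {ω : Config | ∀ e ∈ insert a s, ω e = b e}}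
      have h4 : 0 ≤ (q : ℝ) * Pr q {ω | Function.update ω a true ∈
          {ω : Config | ∀ e ∈ insert a s, ω e = b e}} := mul_nonneg hq0 h3
      have h5 : t * t ^ s.card ≤ (1 - (q : ℝ)) *
          Pr q {ω | ∀ e ∈ s, ω e = b e} :=
        mul_le_mul (by linarith) ih hp hq1
      linarith
    · rw [hup true hb.symm]
      have h3 := hn {ω | Function.update ω a false ∈ {ω : Config | ∀ e ∈ insert a s, ω e = b e}}
      have h4 : 0 ≤ (1 - (q : ℝ)) * Pr q {ω | Function.update ω a false ∈
          {ω : Config | ∀ e ∈ insert a s, ω e = b e}} := mul_nonneg hq1 h3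
      have h5 : t * t ^ s.card ≤ (q : ℝ) *
          Pr q {ω | ∀ e ∈ s, ω e = b e} :=
        mul_le_mul (by linarith) ih hp hq0
      linarith

/-- The explicit configuration: exactly the horizontal edges of the axis are open. -/
theorem a4Low_sub (r : ℕ) (hr : 1 ≤ r) :
    {ω : Config | ∀ e ∈ eRect (-r) r (-r) r, ω e = decide (e.2.1 = 0 ∧ e.2.2 = false)} ⊆
      A4 (0, 0, false) r := by
  intro ω hω
  have hball : ∀ w : Vert, w ∈ ball (src ((0 : ℤ), (0 : ℤ), false)) r ↔ w ∈ rect (-r) r (-r) r := by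
    intro w
    simp only [mem_ball, src, rect, Set.mem_ofPred_eq]
    omega
  have hcl : ∀ f : Edge, f ≠ (0, 0, false) → close (0, 0, false) ω f = ω f := by
    intro f hf
    unfold close
    rw [Function.update_of_ne hf]
  have hcl0 : close (0, 0, false) ω (0, 0, false) = false := by
    unfold close
    rw [Function.update_self]
  have hopen : ∀ x : ℤ, -r ≤ x → x ≤ r → x ≠ 0 → close (0, 0, false) ω (x, 0, false) = true := by
    intro x h1 h2 h3
    rw [hcl _ (by simpa using h3), hω (x, 0, false) (mem_eRect.2 (by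
      simp only [src, rect, Set.mem_ofPred_eq]; omega))]
    simp
  -- the left arm
  have hleft : ∀ k : ℕ, k ≤ r → Conn (close (0, 0, false) ω) (ball (src ((0 : ℤ), (0 : ℤ), false)) r)
      (0, 0) (-(k : ℤ), 0) := by
    intro k
    induction k with
    | zero =>
      intro _
      simpa using Conn.refl ((hball (0, 0)).2 (by simp only [rect, Set.mem_ofPred_eq]; omega))
    | succ k ih =>
      intro hk
      have h1 := ih (by omega)
      refine h1.tail ⟨h1.mem_right, (hball _).2 (by
        simp only [rect, Set.mem_ofPred_eq]; push_cast; omega), (-(k : ℤ) - 1, 0, false), ?_, ?_⟩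
      · right
        constructor
        · simp [tgt]
        · simp only [src, Prod.mk.injEq, and_true]; push_cast; ring
      · exact hopen _ (by omega) (by omega) (by omega)
  have hright : ∀ k : ℕ, k + 1 ≤ r → Conn (close (0, 0, false) ω)
      (ball (src ((0 : ℤ), (0 : ℤ), false)) r) (1, 0) ((k : ℤ) + 1, 0) := by
    intro k
    induction k with
    | zero =>
      intro _
      simpa using Conn.refl ((hball (1, 0)).2 (by simp only [rect, Set.mem_ofPred_eq]; omega))
    | succ k ih =>
      intro hk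
      have h1 := ih (by omega)
      refine h1.tail ⟨h1.mem_right, (hball _).2 (by
        simp only [rect, Set.mem_ofPred_eq]; push_cast; omega), ((k : ℤ) + 1, 0, false), ?_, ?_⟩
      · left
        constructor
        · simp [src]
        · simp [tgt]
      · exact hopen _ (by omega) (by omega) (by omega)
  refine ⟨⟨(-(r : ℤ), 0), ?_, ?_⟩, ⟨((r : ℤ), 0), ?_, ?_⟩, ?_⟩
  · refine ⟨(hball _).2 ?_, Or.inl (by simp [src])⟩
    simp only [rect, Set.mem_ofPred_eq]; omega
  · exact hleft r le_rfl
  · refine ⟨(hball _).2 ?_, Or.inr (Or.inl (by simp [src]))⟩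
    simp only [rect, Set.mem_ofPred_eq]; omega
  · have h1 := hright (r - 1) (by omega)
    have h2 : (((r - 1 : ℕ) : ℤ) + 1) = r := by omega
    rw [h2] at h1
    have h3 : tgt ((0 : ℤ), (0 : ℤ), false) = (1, 0) := by simp [tgt]
    rw [h3]
    exact h1
  · intro hc
    have hP : (tgt ((0 : ℤ), (0 : ℤ), false)).1 ≤ 0 ∧ (tgt ((0 : ℤ), (0 : ℤ), false)).2 = 0 := by
      refine hc.induction_right (P := fun w => w.1 ≤ 0 ∧ w.2 = 0) (by simp [src]) ?_
      intro a b _ hab hPa
      obtain ⟨ha, hb, f, hf, ho⟩ := hab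
      have hfe : f ≠ (0, 0, false) := by
        intro h
        rw [h, hcl0] at ho
        exact absurd ho (by decide)
      rw [hcl _ hfe] at ho
      have hsrc : src f ∈ ball (src ((0 : ℤ), (0 : ℤ), false)) r := by
        rcases hf with ⟨h3, _⟩ | ⟨_, h3⟩
        · rw [← h3]; exact ha
        · rw [← h3]; exact hb
      rw [hω f (mem_eRect.2 ((hball _).1 hsrc))] at ho
      obtain ⟨x, y, d⟩ := f
      simp only [decide_eq_true_eq] at ho
      obtain ⟨hy, hd⟩ := ho
      subst hy hd
      have hx : x ≠ 0 := by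
        intro h
        exact hfe (by rw [h])
      rcases hf with ⟨h3, h4⟩ | ⟨h3, h4⟩
      · subst h3 h4
        simp only [src, tgt, Bool.false_eq_true, if_false] at hPa ⊢
        exact ⟨by omega, trivial⟩
      · subst h3 h4
        simp only [src, tgt, Bool.false_eq_true, if_false] at hPa ⊢
        exact ⟨by omega, trivial⟩
    simp [tgt] at hP

/-- The four-arm probability at bounded scales is bounded below.  (For `r = 0` the event `A4` is
empty, hence the hypothesis `1 ≤ r`.) -/
theorem a4_low (c : ℝ) (hc : 0 < c) (r : ℕ) (hr : 1 ≤ r) : ∃ c₀ : ℝ, 0 < c₀ ∧ ∀ (n : ℕ) (q : I), 1 ≤ n →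
    RSWreg c n q → c₀ ≤ a4 q r := by
  refine ⟨(c / 16) ^ (eRect (-r) r (-r) r).card, by positivity, ?_⟩
  intro n q hn h
  obtain ⟨h1, h2⟩ := rswreg_density hn h
  exact (a4Low_cyl q (by positivity) h1 h2 _ _).trans (Pr_mono (a4Low_sub r hr))

end Pool.Agent.H29.Sep

end

section

/-!
# Outer decomposition of the annulus event into two-terminal events
-/

open MeasureTheory ProbabilityTheory unitInterval

namespace Pool.Agent.H29.Sep

open Pool.Agent.H89.Perc Pool.Agent.H61.NC

end Pool.Agent.H29.Sep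

end

section

/-!
# Moves: extension of separated events from scale `k` to scale `4 k`, definitions
-/

open MeasureTheory ProbabilityTheory unitInterval

namespace Pool.Agent.H59.EX

open Pool.Agent.H89.Perc

/-- Corridor from the target `T d k` to the target `T δ (4 k)` with its crossing event. -/
structure MoveData (k : ℕ) (d δ : Side) (C : Set Vert) (N : Set Config) : Prop where
  T_sub : T d k ⊆ C
  T_sub' : T δ (4 * k) ⊆ C
  inter : C ∩ ball 0 (32 * k) ⊆ T d k
  sub : C ⊆ ball 0 (128 * k) ∪ T δ (4 * k)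
  incr : Incr N
  loc : LocS (inE C) N
  hook : ∀ ω ∈ N, ∀ (η : Config) (D : Set Vert) (x : Vert),
    (∀ e ∈ inE C, ω e = true → η e = true) → Fence d k η D x → Fence δ (4 * k) η (D ∪ C) x
  mouth : ∀ z ∈ sphere 0 (128 * k), ∀ a ∈ C, z ∈ ball a k → z ∈ Mouth δ (4 * k)

/-- The two corridors are far apart. -/
def MoveSep (k : ℕ) (d d' : Side) (C C' : Set Vert) : Prop :=
  ∀ a ∈ C ∪ Mouth d k, ∀ b ∈ C' ∪ Mouth d' k, b ∉ ball a k

/-- Straight corridor. -/
def CM (d : Side) (k : ℕ) : Set Vert :=
  match d with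
  | .E => T .E k ∪ rect (32 * k + 1) (144 * k) (-(12 * k)) (12 * k)
  | .N => T .N k ∪ rect (-(12 * k)) (12 * k) (32 * k + 1) (144 * k)
  | .W => T .W k ∪ rect (-(144 * k)) (-(32 * k + 1)) (-(12 * k)) (12 * k)
  | .S => T .S k ∪ rect (-(12 * k)) (12 * k) (-(144 * k)) (-(32 * k + 1))

/-- Its crossing event. -/
def NM (d : Side) (k : ℕ) : Set Config :=
  match d with
  | .E => {ω | HCross ω (28 * k) (144 * k) (-(3 * k)) (3 * k) ∧
      VCross ω (112 * k) (144 * k) (-(12 * k)) (12 * k)}
  | .N => {ω | VCross ω (-(3 * k)) (3 * k) (28 * k) (144 * k) ∧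
      HCross ω (-(12 * k)) (12 * k) (112 * k) (144 * k)}
  | .W => {ω | HCross ω (-(144 * k)) (-(28 * k)) (-(3 * k)) (3 * k) ∧
      VCross ω (-(144 * k)) (-(112 * k)) (-(12 * k)) (12 * k)}
  | .S => {ω | VCross ω (-(3 * k)) (3 * k) (-(144 * k)) (-(28 * k)) ∧
      HCross ω (-(12 * k)) (12 * k) (-(144 * k)) (-(112 * k))}

/-- Corridor turning from the east to the north. -/
def CT (k : ℕ) : Set Vert :=
  T .E k ∪ rect (32 * k + 1) (66 * k) (-(6 * k)) (6 * k) ∪
    rect (58 * k) (66 * k) (-(6 * k)) (66 * k) ∪ rect (-(12 * k)) (66 * k) (58 * k) (66 * k) ∪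
    rect (-(12 * k)) (12 * k) (58 * k) (144 * k)

/-- Its crossing event. -/
def NT (k : ℕ) : Set Config :=
  {ω | HCross ω (28 * k) (64 * k) (-(3 * k)) (3 * k) ∧
    VCross ω (60 * k) (64 * k) (-(3 * k)) (64 * k) ∧
    HCross ω (-(3 * k)) (64 * k) (60 * k) (64 * k) ∧
    VCross ω (-(3 * k)) (3 * k) (60 * k) (144 * k) ∧
    HCross ω (-(12 * k)) (12 * k) (112 * k) (144 * k)}

end Pool.Agent.H59.EX

end

section

/-!
# The turning corridor of the moves
-/

open MeasureTheory ProbabilityTheory unitInterval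

namespace Pool.Agent.H59.EX

open Pool.Agent.H89.Perc

theorem mt_locS_h {C : Set Vert} {a b c d : ℤ} (h : rect a b c d ⊆ C) :
    LocS (inE C) {ω | HCross ω a b c d} := by
  rintro ω ω' hω ⟨u, v, hu, hv, hc⟩
  exact ⟨u, v, hu, hv, Conn.congr (fun e h1 h2 => hω e ⟨h h1, h h2⟩) hc⟩

theorem mt_locS_v {C : Set Vert} {a b c d : ℤ} (h : rect a b c d ⊆ C) :
    LocS (inE C) {ω | VCross ω a b c d} := by
  rintro ω ω' hω ⟨u, v, hu, hv, hc⟩
  exact ⟨u, v, hu, hv, Conn.congr (fun e h1 h2 => hω e ⟨h h1, h h2⟩) hc⟩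

theorem mt_incr_h {a b c d : ℤ} : Incr {ω | HCross ω a b c d} := by
  rintro ω ω' hω ⟨u, v, hu, hv, hc⟩
  exact ⟨u, v, hu, hv, Conn.mono le_rfl hω hc⟩

theorem mt_incr_v {a b c d : ℤ} : Incr {ω | VCross ω a b c d} := by
  rintro ω ω' hω ⟨u, v, hu, hv, hc⟩
  exact ⟨u, v, hu, hv, Conn.mono le_rfl hω hc⟩

/-- Open paths of `ω` inside `C` are open for `η`. -/
theorem mt_lift {C R : Set Vert} {ω η : Config} (h : ∀ e ∈ inE C, ω e = true → η e = true)
    (hR : R ⊆ C) {u v : Vert} (hc : Conn ω R u v) : Conn η R u v := by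
  refine hc.induction_right (P := fun w => Conn η R u w) (Conn.refl hc.mem_left) ?_
  rintro a b _ ⟨ha, hb, e, he, ho⟩ ih
  refine ih.tail ⟨ha, hb, e, he, h e ?_ ho⟩
  rcases he with ⟨h1, h2⟩ | ⟨h1, h2⟩
  · exact ⟨hR (h1 ▸ ha), hR (h2 ▸ hb)⟩
  · exact ⟨hR (h2 ▸ hb), hR (h1 ▸ ha)⟩

theorem msep_WT {k : ℕ} (hk : 4 ≤ k) : MoveSep k .W .E (CM .W k) (CT k) := by
  intro a ha b hb hab
  simp only [CM, CT, T, rect, ball, Set.mem_union, Set.mem_ofPred_eq, Mouth] at ha hb hab
  omega

theorem msep_ST {k : ℕ} (hk : 4 ≤ k) : MoveSep k .S .E (CM .S k) (CT k) := by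
  intro a ha b hb hab
  simp only [CM, CT, T, rect, ball, Set.mem_union, Set.mem_ofPred_eq, Mouth] at ha hb hab
  omega

end Pool.Agent.H59.EX

end

section

/-!
# The straight corridors of the moves, probabilities
-/

open MeasureTheory ProbabilityTheory unitInterval

namespace Pool.Agent.H59.EX

open Pool.Agent.H89.Perc Pool.Agent.H61.NC

theorem msep_EW {k : ℕ} (hk : 4 ≤ k) : MoveSep k .E .W (CM .E k) (CM .W k) := by
  intro a ha b hb hab
  simp only [CM, T, rect, ball, Set.mem_union, Set.mem_ofPred_eq, Mouth] at ha hb hab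
  omega

theorem msep_EN {k : ℕ} (hk : 4 ≤ k) : MoveSep k .E .N (CM .E k) (CM .N k) := by
  intro a ha b hb hab
  simp only [CM, T, rect, ball, Set.mem_union, Set.mem_ofPred_eq, Mouth] at ha hb hab
  omega

theorem ms_local_h (a b c d : ℤ) : LocalOn (eRect a b c d) {ω | HCross ω a b c d} := by
  rintro ω ω' hω ⟨u, v, hu, hv, hc⟩
  exact ⟨u, v, hu, hv, Conn.congr (fun e h1 _ => hω e (mem_eRect.2 h1)) hc⟩

theorem ms_local_v (a b c d : ℤ) : LocalOn (eRect a b c d) {ω | VCross ω a b c d} := by
  rintro ω ω' hω ⟨u, v, hu, hv, hc⟩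
  exact ⟨u, v, hu, hv, Conn.congr (fun e h1 _ => hω e (mem_eRect.2 h1)) hc⟩

open scoped Classical in
/-- Harris inequality with a lower bound. -/
theorem ms_and {q : I} {s t : Finset Edge} {A B : Set Config} {x y : ℝ} (hx : 0 ≤ x) (hy : 0 ≤ y)
    (hA : LocalOn s A ∧ Incr A ∧ x ≤ Pr q A) (hB : LocalOn t B ∧ Incr B ∧ y ≤ Pr q B) :
    LocalOn (s ∪ t) (A ∩ B) ∧ Incr (A ∩ B) ∧ x * y ≤ Pr q (A ∩ B) :=
  ⟨hA.1.inter' hB.1, hA.2.1.inter hB.2.1,
    (mul_le_mul hA.2.2 hB.2.2 hy (hx.trans hA.2.2)).trans (fkg hA.1 hB.1 hA.2.1 hB.2.1)⟩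

end Pool.Agent.H59.EX

end
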