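import Pool.Agent.H94.BG.H31.PT.M02_1
import Pool.Agent.H94.BG.M03

/-! The parts of this file: H89.Perc.OSSS, H89.Perc.TorusDefs, H61.NC.Defs, H29.Sep.Iface. -/

section

/-!
# The O'Donnell-Saks-Schramm-Servedio inequality for exploration algorithms
-/

open MeasureTheory ProbabilityTheory unitInterval

namespace Pool.Agent.H89.Perc

/-- An exploration rule: given the set of queried open edges and the set of queried closed edges it
says which edge to query next (or stops). -/
abbrev Rule := Finset Edge → Finset Edge → Option Edge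

/-- One step of the exploration of `ω`. -/
def explStep (N : Rule) (ω : Config) (x : Finset Edge × Finset Edge) : Finset Edge × Finset Edge :=
  match N x.1 x.2 with
  | none => x
  | some e => if ω e then (insert e x.1, x.2) else (x.1, insert e x.2)

/-- State of the exploration after `n` steps. -/
def expl (N : Rule) (ω : Config) (n : ℕ) : Finset Edge × Finset Edge :=
  (explStep N ω)^[n] (∅, ∅)

/-- The set of edges queried during the first `n` steps. -/
def queried (N : Rule) (ω : Config) (n : ℕ) : Finset Edge :=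
  (expl N ω n).1 ∪ (expl N ω n).2

variable {s : Finset Edge} {A : Set Config} {p : I}

open Pool.Agent.Perc (Ex ind ind_of ind_of_not DD)

/-- The queried edges when the exploration starts from a given state. -/
def qFrom (N : Rule) (ω : Config) (n : ℕ) (x : Finset Edge × Finset Edge) : Finset Edge :=
  ((explStep N ω)^[n] x).1 ∪ ((explStep N ω)^[n] x).2

lemma explStep_subset (N : Rule) (ω : Config) (x : Finset Edge × Finset Edge) :
    x.1 ⊆ (explStep N ω x).1 ∧ x.2 ⊆ (explStep N ω x).2 := by
  unfold explStep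
  split
  · exact ⟨le_rfl, le_rfl⟩
  · split_ifs
    · exact ⟨Finset.subset_insert _ _, le_rfl⟩
    · exact ⟨le_rfl, Finset.subset_insert _ _⟩

lemma iterate_subset (N : Rule) (ω : Config) (n : ℕ) (x : Finset Edge × Finset Edge) :
    x.1 ⊆ ((explStep N ω)^[n] x).1 ∧ x.2 ⊆ ((explStep N ω)^[n] x).2 := by
  induction n generalizing x with
  | zero => exact ⟨le_rfl, le_rfl⟩
  | succ n ih =>
    rw [Function.iterate_succ_apply]
    exact ⟨(explStep_subset N ω x).1.trans (ih _).1, (explStep_subset N ω x).2.trans (ih _).2⟩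

lemma qFrom_succ (N : Rule) (ω : Config) (n : ℕ) (x : Finset Edge × Finset Edge) :
    qFrom N ω (n + 1) x = qFrom N ω n (explStep N ω x) := by
  unfold qFrom
  rw [Function.iterate_succ_apply]

lemma explStep_some_true {N : Rule} {ω : Config} {x : Finset Edge × Finset Edge} {e : Edge}
    (h : N x.1 x.2 = some e) (ho : ω e = true) : explStep N ω x = (insert e x.1, x.2) := by
  unfold explStep
  rw [h]
  simp [ho]

lemma explStep_some_false {N : Rule} {ω : Config} {x : Finset Edge × Finset Edge} {e : Edge}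
    (h : N x.1 x.2 = some e) (ho : ω e = false) : explStep N ω x = (x.1, insert e x.2) := by
  unfold explStep
  rw [h]
  simp [ho]

lemma explStep_none {N : Rule} {ω : Config} {x : Finset Edge × Finset Edge}
    (h : N x.1 x.2 = none) : explStep N ω x = x := by
  unfold explStep
  rw [h]

lemma qFrom_none {N : Rule} {ω : Config} {x : Finset Edge × Finset Edge}
    (h : N x.1 x.2 = none) (n : ℕ) : qFrom N ω n x = x.1 ∪ x.2 := by
  induction n with
  | zero => rfl
  | succ n ih => rw [qFrom_succ, explStep_none h, ih]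

/-- The covariance inequality behind OSSS, by induction on the number of steps. -/
theorem osss_cov (hp0 : 0 ≤ (p : ℝ)) (hp1 : (p : ℝ) ≤ 1) {N : Rule}
    (hN : ∀ O C e, N O C = some e → e ∈ s ∧ e ∉ O ∧ e ∉ C) (n : ℕ) :
    ∀ (O C F : Finset Edge), F.card ≤ n → (∀ e ∈ F, e ∉ O ∧ e ∉ C) → s ⊆ O ∪ C ∪ F →
    ∀ f g : Finset Edge → ℝ, (∀ S, S ⊆ F → 0 ≤ f S ∧ f S ≤ 1) →
    (∀ S S', S ⊆ F → S' ⊆ F →
      (∀ e ∈ qFrom N (ofS (O ∪ S)) n (O, C), e ∈ F → (e ∈ S ↔ e ∈ S')) → f S = f S') →
    |Ex (p : ℝ) F (fun S => f S * g S) - Ex (p : ℝ) F f * Ex (p : ℝ) F g| ≤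
      ∑ e ∈ F, Ex (p : ℝ) F (ind fun S => e ∈ qFrom N (ofS (O ∪ S)) n (O, C)) *
        ((p : ℝ) * (1 - p)) * Ex (p : ℝ) F (fun S => |DD e g S|) := by
  have hq0 : 0 ≤ 1 - (p : ℝ) := by linarith
  have hpq : 0 ≤ (p : ℝ) * (1 - p) := mul_nonneg hp0 hq0
  have hRHS : ∀ (F : Finset Edge) (A : Edge → Finset Edge → Prop) (g : Finset Edge → ℝ),
      0 ≤ ∑ e ∈ F, Ex (p : ℝ) F (ind (A e)) * ((p : ℝ) * (1 - p)) * Ex (p : ℝ) F (fun S => |DD e g S|) := by
    intro F A g
    refine Finset.sum_nonneg fun e _ => mul_nonneg (mul_nonneg ?_ hpq) ?_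
    · exact Pool.Agent.Perc.Ex_nonneg hp0 hp1 fun S _ => Pool.Agent.Perc.ind_nonneg _ _
    · exact Pool.Agent.Perc.Ex_nonneg hp0 hp1 fun S _ => abs_nonneg _
  induction n with
  | zero =>
    intro O C F hF _ _ f g _ _
    have : F = ∅ := Finset.card_eq_zero.1 (Nat.le_zero.1 hF)
    subst this
    simp
  | succ n ih =>
    intro O C F hF hFO hs f g hf hdet
    rcases hNe : N O C with _ | e
    · -- the exploration has stopped: `f` is constant
      have hconst : ∀ S, S ⊆ F → f S = f ∅ := by
        intro S hS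
        refine hdet S ∅ hS (Finset.empty_subset _) fun e he heF => ?_
        rw [qFrom_none (x := (O, C)) hNe] at he
        rcases Finset.mem_union.1 he with h | h
        · exact absurd h (hFO e heF).1
        · exact absurd h (hFO e heF).2
      have h1 : Ex (p : ℝ) F (fun S => f S * g S) = f ∅ * Ex (p : ℝ) F g := by
        rw [← Pool.Agent.Perc.Ex_const_mul]
        exact Pool.Agent.Perc.Ex_congr fun S hS => by rw [hconst S hS]
      have h2 : Ex (p : ℝ) F f = f ∅ := by
        rw [Pool.Agent.Perc.Ex_congr hconst, Pool.Agent.Perc.Ex_const]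
      rw [h1, h2, sub_self, abs_zero]
      exact hRHS F _ g
    · obtain ⟨hes, heO, heC⟩ := hN O C e hNe
      have heF : e ∈ F := by
        have := hs hes
        simp only [Finset.mem_union] at this
        tauto
      set F' := F.erase e with hF'
      have heF' : e ∉ F' := Finset.notMem_erase e F
      have hcard : F'.card ≤ n := by
        rw [hF', Finset.card_erase_of_mem heF]; omega
      have hsub : F' ⊆ F := Finset.erase_subset e F
      have hins : ∀ S, S ⊆ F' → insert e S ⊆ F := by
        intro S hS x hx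
        rcases Finset.mem_insert.1 hx with rfl | h
        · exact heF
        · exact hsub (hS h)
      -- the two next states
      have hst1 : ∀ S, S ⊆ F' → qFrom N (ofS (O ∪ insert e S)) (n + 1) (O, C) =
          qFrom N (ofS (insert e O ∪ S)) n (insert e O, C) := by
        intro S _
        rw [qFrom_succ, explStep_some_true (x := (O, C)) hNe (by rw [ofS_eq_true]; simp)]
        congr 2
        ext x; simp only [Finset.mem_union, Finset.mem_insert]; tauto
      have hst0 : ∀ S, S ⊆ F' → qFrom N (ofS (O ∪ S)) (n + 1) (O, C) =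
          qFrom N (ofS (O ∪ S)) n (O, insert e C) := by
        intro S hS
        rw [qFrom_succ, explStep_some_false (x := (O, C)) hNe]
        rw [ofS_apply, decide_eq_false_iff_not, Finset.mem_union]
        rintro (h | h)
        · exact heO h
        · exact heF' (hS h)
      set gb : Finset Edge → ℝ := fun S => p * g (insert e S) + (1 - p) * g S with hgb
      set f1 : Finset Edge → ℝ := fun S => f (insert e S) with hf1
      -- induction hypotheses
      have I1 := ih (insert e O) C F' hcard
        (by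
          intro x hx
          have hx' := Finset.mem_erase.1 hx
          refine ⟨?_, (hFO x hx'.2).2⟩
          rw [Finset.mem_insert, not_or]
          exact ⟨hx'.1, (hFO x hx'.2).1⟩)
        (by
          intro x hx
          have := hs hx
          simp only [Finset.mem_union, Finset.mem_insert, hF', Finset.mem_erase] at this ⊢
          tauto)
        f1 gb (fun S hS => hf _ (hins S hS))
        (by
          intro S S' hS hS' h
          refine hdet _ _ (hins S hS) (hins S' hS') fun x hx hxF => ?_
          rw [hst1 S hS] at hx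
          simp only [Finset.mem_insert]
          by_cases hxe : x = e
          · simp [hxe]
          · have := h x hx (Finset.mem_erase.2 ⟨hxe, hxF⟩)
            tauto)
      have I0 := ih O (insert e C) F' hcard
        (by
          intro x hx
          have hx' := Finset.mem_erase.1 hx
          refine ⟨(hFO x hx'.2).1, ?_⟩
          rw [Finset.mem_insert, not_or]
          exact ⟨hx'.1, (hFO x hx'.2).2⟩)
        (by
          intro x hx
          have := hs hx
          simp only [Finset.mem_union, Finset.mem_insert, hF', Finset.mem_erase] at this ⊢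
          tauto)
        f gb (fun S hS => hf _ (hS.trans hsub))
        (by
          intro S S' hS hS' h
          refine hdet _ _ (hS.trans hsub) (hS'.trans hsub) fun x hx hxF => ?_
          rw [hst0 S hS] at hx
          by_cases hxe : x = e
          · subst hxe
            exact ⟨fun h => absurd (hS h) heF', fun h => absurd (hS' h) heF'⟩
          · exact h x hx (Finset.mem_erase.2 ⟨hxe, hxF⟩))
      -- expansions
      have E1 : Ex (p : ℝ) F' (fun S => f1 S * gb S) =
          p * Ex (p : ℝ) F' (fun S => f1 S * g (insert e S)) +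
            (1 - p) * Ex (p : ℝ) F' (fun S => f1 S * g S) := by
        rw [← Pool.Agent.Perc.Ex_const_mul, ← Pool.Agent.Perc.Ex_const_mul, ← Pool.Agent.Perc.Ex_add]
        exact Pool.Agent.Perc.Ex_congr fun S _ => by rw [hgb]; ring
      have E0 : Ex (p : ℝ) F' (fun S => f S * gb S) =
          p * Ex (p : ℝ) F' (fun S => f S * g (insert e S)) +
            (1 - p) * Ex (p : ℝ) F' (fun S => f S * g S) := by
        rw [← Pool.Agent.Perc.Ex_const_mul, ← Pool.Agent.Perc.Ex_const_mul, ← Pool.Agent.Perc.Ex_add]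
        exact Pool.Agent.Perc.Ex_congr fun S _ => by rw [hgb]; ring
      have Eg : Ex (p : ℝ) F' gb =
          p * Ex (p : ℝ) F' (fun S => g (insert e S)) + (1 - p) * Ex (p : ℝ) F' g := by
        rw [← Pool.Agent.Perc.Ex_const_mul, ← Pool.Agent.Perc.Ex_const_mul, ← Pool.Agent.Perc.Ex_add]
      have D1 : Ex (p : ℝ) F (fun S => f S * g S) =
          p * Ex (p : ℝ) F' (fun S => f1 S * g (insert e S)) +
            (1 - p) * Ex (p : ℝ) F' (fun S => f S * g S) := Pool.Agent.Perc.Ex_erase heF _ _
      have D2 : Ex (p : ℝ) F f = p * Ex (p : ℝ) F' f1 + (1 - p) * Ex (p : ℝ) F' f :=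
        Pool.Agent.Perc.Ex_erase heF _ _
      have D3 : Ex (p : ℝ) F g = p * Ex (p : ℝ) F' (fun S => g (insert e S)) +
          (1 - p) * Ex (p : ℝ) F' g := Pool.Agent.Perc.Ex_erase heF _ _
      -- the remainder
      set R : ℝ := Ex (p : ℝ) F' (fun S => (f1 S - f S) * (g (insert e S) - g S)) with hR
      have ER : R = Ex (p : ℝ) F' (fun S => f1 S * g (insert e S)) -
          Ex (p : ℝ) F' (fun S => f1 S * g S) - Ex (p : ℝ) F' (fun S => f S * g (insert e S)) +
          Ex (p : ℝ) F' (fun S => f S * g S) := by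
        rw [← Pool.Agent.Perc.Ex_sub, ← Pool.Agent.Perc.Ex_sub, ← Pool.Agent.Perc.Ex_add, hR]
        exact Pool.Agent.Perc.Ex_congr fun S _ => by ring
      have hRle : |R| ≤ Ex (p : ℝ) F (fun S => |DD e g S|) := by
        have h1 : |R| ≤ Ex (p : ℝ) F' (fun S => |(f1 S - f S) * (g (insert e S) - g S)|) :=
          Pool.Agent.Perc.abs_Ex_le hp0 hp1 _
        have h2 : Ex (p : ℝ) F' (fun S => |(f1 S - f S) * (g (insert e S) - g S)|) ≤
            Ex (p : ℝ) F' (fun S => |g (insert e S) - g S|) := by
          refine Pool.Agent.Perc.Ex_mono hp0 hp1 fun S hS => ?_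
          rw [abs_mul]
          have h3 := hf _ (hins S hS)
          have h4 := hf S (hS.trans hsub)
          have h5 : |f1 S - f S| ≤ 1 := by
            rw [abs_le]
            constructor
            · have : f1 S = f (insert e S) := rfl
              rw [this]; linarith [h3.1, h4.2]
            · have : f1 S = f (insert e S) := rfl
              rw [this]; linarith [h3.2, h4.1]
          calc |f1 S - f S| * |g (insert e S) - g S| ≤ 1 * |g (insert e S) - g S| := by gcongr
            _ = _ := one_mul _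
        have h3 : Ex (p : ℝ) F (fun S => |DD e g S|) = Ex (p : ℝ) F' (fun S => |g (insert e S) - g S|) := by
          rw [Pool.Agent.Perc.Ex_erase heF]
          simp only [Pool.Agent.Perc.DD_insert_self]
          rw [← add_mul, add_sub_cancel, one_mul]
          refine Pool.Agent.Perc.Ex_congr fun S hS => ?_
          rw [Pool.Agent.Perc.DD_of_notMem fun h => heF' (hS h)]
        rw [h3]
        exact h1.trans h2
      -- the covariance
      have hcov : Ex (p : ℝ) F (fun S => f S * g S) - Ex (p : ℝ) F f * Ex (p : ℝ) F g =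
          p * (Ex (p : ℝ) F' (fun S => f1 S * gb S) - Ex (p : ℝ) F' f1 * Ex (p : ℝ) F' gb) +
          (1 - p) * (Ex (p : ℝ) F' (fun S => f S * gb S) - Ex (p : ℝ) F' f * Ex (p : ℝ) F' gb) +
          (p : ℝ) * (1 - p) * R := by
        rw [D1, D2, D3, E1, E0, Eg, ER]
        ring
      have habs : |Ex (p : ℝ) F (fun S => f S * g S) - Ex (p : ℝ) F f * Ex (p : ℝ) F g| ≤
          p * |Ex (p : ℝ) F' (fun S => f1 S * gb S) - Ex (p : ℝ) F' f1 * Ex (p : ℝ) F' gb| +
          (1 - p) * |Ex (p : ℝ) F' (fun S => f S * gb S) - Ex (p : ℝ) F' f * Ex (p : ℝ) F' gb| +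
          (p : ℝ) * (1 - p) * |R| := by
        rw [hcov]
        refine (abs_add_le _ _).trans (add_le_add ((abs_add_le _ _).trans (add_le_add ?_ ?_)) ?_)
        · rw [abs_mul, abs_of_nonneg hp0]
        · rw [abs_mul, abs_of_nonneg hq0]
        · rw [abs_mul, abs_of_nonneg hpq]
      refine habs.trans ?_
      -- influences of the averaged function
      have hK : ∀ x ∈ F', Ex (p : ℝ) F' (fun S => |DD x gb S|) ≤ Ex (p : ℝ) F (fun S => |DD x g S|) := by
        intro x hx
        have hxe : x ≠ e := (Finset.mem_erase.1 hx).1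
        rw [Pool.Agent.Perc.Ex_erase heF]
        rw [← Pool.Agent.Perc.Ex_const_mul, ← Pool.Agent.Perc.Ex_const_mul, ← Pool.Agent.Perc.Ex_add]
        refine Pool.Agent.Perc.Ex_mono hp0 hp1 fun S hS => ?_
        have h1 : DD x gb S = p * DD x g (insert e S) + (1 - p) * DD x g S := by
          unfold DD
          rw [Finset.erase_insert_of_ne (Ne.symm hxe), Finset.insert_comm x e S, hgb]
          ring
        rw [h1]
        refine (abs_add_le _ _).trans (add_le_add ?_ ?_)
        · rw [abs_mul, abs_of_nonneg hp0]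
        · rw [abs_mul, abs_of_nonneg hq0]
      -- probabilities of being queried
      have hQ : ∀ x, Ex (p : ℝ) F (ind fun S => x ∈ qFrom N (ofS (O ∪ S)) (n + 1) (O, C)) =
          p * Ex (p : ℝ) F' (ind fun S => x ∈ qFrom N (ofS (insert e O ∪ S)) n (insert e O, C)) +
          (1 - p) * Ex (p : ℝ) F' (ind fun S => x ∈ qFrom N (ofS (O ∪ S)) n (O, insert e C)) := by
        intro x
        rw [Pool.Agent.Perc.Ex_erase heF]
        congr 2
        · refine Pool.Agent.Perc.Ex_congr fun S hS => ?_
          refine Pool.Agent.Perc.ind_congr ?_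
          rw [hst1 S hS]
        · refine Pool.Agent.Perc.Ex_congr fun S hS => ?_
          refine Pool.Agent.Perc.ind_congr ?_
          rw [hst0 S hS]
      have hQe : Ex (p : ℝ) F (ind fun S => e ∈ qFrom N (ofS (O ∪ S)) (n + 1) (O, C)) = 1 := by
        have : ∀ S, S ⊆ F → ind (fun S => e ∈ qFrom N (ofS (O ∪ S)) (n + 1) (O, C)) S = 1 := by
          intro S _
          refine Pool.Agent.Perc.ind_of (A := fun S => e ∈ qFrom N (ofS (O ∪ S)) (n + 1) (O, C)) ?_
          rw [qFrom_succ]
          unfold qFrom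
          rw [Finset.mem_union]
          rcases ho : ofS (O ∪ S) e with _ | _
          · rw [explStep_some_false (x := (O, C)) hNe ho]
            exact Or.inr ((iterate_subset N _ n _).2 (Finset.mem_insert_self _ _))
          · rw [explStep_some_true (x := (O, C)) hNe ho]
            exact Or.inl ((iterate_subset N _ n _).1 (Finset.mem_insert_self _ _))
        rw [Pool.Agent.Perc.Ex_congr this, Pool.Agent.Perc.Ex_const]
      have hsum : ∑ x ∈ F, Ex (p : ℝ) F (ind fun S => x ∈ qFrom N (ofS (O ∪ S)) (n + 1) (O, C)) *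
            ((p : ℝ) * (1 - p)) * Ex (p : ℝ) F (fun S => |DD x g S|) =
          ((p : ℝ) * (1 - p)) * Ex (p : ℝ) F (fun S => |DD e g S|) +
          ∑ x ∈ F', Ex (p : ℝ) F (ind fun S => x ∈ qFrom N (ofS (O ∪ S)) (n + 1) (O, C)) *
            ((p : ℝ) * (1 - p)) * Ex (p : ℝ) F (fun S => |DD x g S|) := by
        rw [← Finset.add_sum_erase F _ heF, hQe, one_mul]
      rw [hsum]
      have hpart : p * |Ex (p : ℝ) F' (fun S => f1 S * gb S) - Ex (p : ℝ) F' f1 * Ex (p : ℝ) F' gb| +
          (1 - p) * |Ex (p : ℝ) F' (fun S => f S * gb S) - Ex (p : ℝ) F' f * Ex (p : ℝ) F' gb| ≤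
          ∑ x ∈ F', Ex (p : ℝ) F (ind fun S => x ∈ qFrom N (ofS (O ∪ S)) (n + 1) (O, C)) *
            ((p : ℝ) * (1 - p)) * Ex (p : ℝ) F (fun S => |DD x g S|) := by
        refine (add_le_add (mul_le_mul_of_nonneg_left I1 hp0) (mul_le_mul_of_nonneg_left I0 hq0)).trans ?_
        rw [Finset.mul_sum, Finset.mul_sum, ← Finset.sum_add_distrib]
        refine Finset.sum_le_sum fun x hx => ?_
        rw [hQ x]
        have hKx := hK x hx
        set P1 := Ex (p : ℝ) F' (ind fun S => x ∈ qFrom N (ofS (insert e O ∪ S)) n (insert e O, C))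
        set P0 := Ex (p : ℝ) F' (ind fun S => x ∈ qFrom N (ofS (O ∪ S)) n (O, insert e C))
        have hP1 : 0 ≤ P1 := Pool.Agent.Perc.Ex_nonneg hp0 hp1 fun S _ => Pool.Agent.Perc.ind_nonneg _ _
        have hP0 : 0 ≤ P0 := Pool.Agent.Perc.Ex_nonneg hp0 hp1 fun S _ => Pool.Agent.Perc.ind_nonneg _ _
        have h5 : 0 ≤ (p * P1 + (1 - p) * P0) * ((p : ℝ) * (1 - p)) :=
          mul_nonneg (add_nonneg (mul_nonneg hp0 hP1) (mul_nonneg hq0 hP0)) hpq
        have h6 := mul_le_mul_of_nonneg_left hKx h5
        refine le_trans (le_of_eq ?_) h6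
        ring
      have hlast := mul_le_mul_of_nonneg_left hRle hpq
      linarith

lemma explStep_congr {N : Rule} (hN : ∀ O C e, N O C = some e → e ∈ s ∧ e ∉ O ∧ e ∉ C)
    {ω ω' : Config} (h : ∀ e ∈ s, ω e = ω' e) (x : Finset Edge × Finset Edge) :
    explStep N ω x = explStep N ω' x := by
  rcases hNe : N x.1 x.2 with _ | e
  · rw [explStep_none hNe, explStep_none hNe]
  · have he := h e (hN _ _ _ hNe).1
    rcases ho : ω e with _ | _
    · rw [explStep_some_false hNe ho, explStep_some_false hNe (he ▸ ho)]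
    · rw [explStep_some_true hNe ho, explStep_some_true hNe (he ▸ ho)]

lemma localOn_queried {N : Rule} (hN : ∀ O C e, N O C = some e → e ∈ s ∧ e ∉ O ∧ e ∉ C)
    (n : ℕ) (e : Edge) : LocalOn s {ω | e ∈ queried N ω n} := by
  intro ω ω' h hω
  have : explStep N ω = explStep N ω' := funext (explStep_congr hN h)
  simp only [Set.mem_ofPred_eq, queried, expl] at hω ⊢
  rwa [← this]

/-- OSSS inequality for an increasing event determined by an exploration. -/
theorem osss (hA : LocalOn s A) (iA : Incr A) (N : Rule)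
    (hN : ∀ O C e, N O C = some e → e ∈ s ∧ e ∉ O ∧ e ∉ C)
    (hdet : ∀ ω ω' : Config, (∀ e ∈ queried N ω s.card, ω e = ω' e) → ω ∈ A → ω' ∈ A) :
    Pr p A * (1 - Pr p A) ≤
      1 / 2 * ∑ e ∈ s, Pr p {ω | e ∈ queried N ω s.card} * pivot p A e := by
  have hp0 : 0 ≤ (p : ℝ) := p.2.1
  have hp1 : (p : ℝ) ≤ 1 := p.2.2
  have hqs : ∀ S, qFrom N (ofS (∅ ∪ S)) s.card (∅, ∅) = queried N (ofS S) s.card := by
    intro S
    rw [Finset.empty_union]
    rfl
  have hq : ∀ (ω : Config) (n : ℕ), ∀ e ∈ queried N ω n, e ∈ s := by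
    intro ω n
    have : ∀ (n : ℕ) (x : Finset Edge × Finset Edge), x.1 ⊆ s → x.2 ⊆ s →
        ((explStep N ω)^[n] x).1 ⊆ s ∧ ((explStep N ω)^[n] x).2 ⊆ s := by
      intro n
      induction n with
      | zero => intro x h1 h2; exact ⟨h1, h2⟩
      | succ n ih =>
        intro x h1 h2
        rw [Function.iterate_succ_apply]
        apply ih
        · rcases hNe : N x.1 x.2 with _ | e
          · rw [explStep_none hNe]; exact h1
          · rcases ho : ω e with _ | _
            · rw [explStep_some_false hNe ho]; exact h1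
            · rw [explStep_some_true hNe ho]
              exact Finset.insert_subset (hN _ _ _ hNe).1 h1
        · rcases hNe : N x.1 x.2 with _ | e
          · rw [explStep_none hNe]; exact h2
          · rcases ho : ω e with _ | _
            · rw [explStep_some_false hNe ho]
              exact Finset.insert_subset (hN _ _ _ hNe).1 h2
            · rw [explStep_some_true hNe ho]; exact h2
    intro e he
    have h := this n (∅, ∅) (Finset.empty_subset _) (Finset.empty_subset _)
    rcases Finset.mem_union.1 he with h1 | h1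
    · exact h.1 h1
    · exact h.2 h1
  have key := osss_cov (s := s) hp0 hp1 hN s.card ∅ ∅ s le_rfl (by simp) (by simp)
    (ind fun S => ofS S ∈ A) (ind fun S => ofS S ∈ A)
    (fun S _ => ⟨Pool.Agent.Perc.ind_nonneg _ _, Pool.Agent.Perc.ind_le_one _ _⟩)
    (by
      intro S S' _ _ h
      refine Pool.Agent.Perc.ind_congr ?_
      have h1 : ∀ e ∈ queried N (ofS S) s.card, ofS S e = ofS S' e := by
        intro e he
        rw [ofS_apply, ofS_apply, decide_eq_decide]
        exact h e (by rw [hqs]; exact he) (hq _ _ e he)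
      constructor
      · exact hdet _ _ h1
      · intro h2
        by_contra h3
        -- the queried sets agree
        have h4 : queried N (ofS S') s.card = queried N (ofS S) s.card := by
          have : ∀ (n : ℕ) (x : Finset Edge × Finset Edge),
              (∀ e ∈ qFrom N (ofS S) n x, e ∉ x.1 → e ∉ x.2 → ofS S e = ofS S' e) →
              (explStep N (ofS S'))^[n] x = (explStep N (ofS S))^[n] x := by
            intro n
            induction n with
            | zero => intro x _; rfl
            | succ n ih =>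
              intro x hx
              rw [Function.iterate_succ_apply, Function.iterate_succ_apply]
              rw [qFrom_succ] at hx
              have hstep : explStep N (ofS S') x = explStep N (ofS S) x := by
                rcases hNe : N x.1 x.2 with _ | e
                · rw [explStep_none hNe, explStep_none hNe]
                · obtain ⟨_, h5, h6⟩ := hN _ _ _ hNe
                  have hmem : e ∈ qFrom N (ofS S) n (explStep N (ofS S) x) := by
                    unfold qFrom
                    rw [Finset.mem_union]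
                    rcases ho : ofS S e with _ | _
                    · rw [explStep_some_false hNe ho]
                      exact Or.inr ((iterate_subset N _ n _).2 (Finset.mem_insert_self _ _))
                    · rw [explStep_some_true hNe ho]
                      exact Or.inl ((iterate_subset N _ n _).1 (Finset.mem_insert_self _ _))
                  have h7 := hx e hmem h5 h6
                  rcases ho : ofS S e with _ | _
                  · rw [explStep_some_false hNe ho, explStep_some_false hNe (h7 ▸ ho)]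
                  · rw [explStep_some_true hNe ho, explStep_some_true hNe (h7 ▸ ho)]
              rw [hstep]
              apply ih
              intro e he h5 h6
              have h7 := explStep_subset N (ofS S) x
              exact hx e he (fun h => h5 (h7.1 h)) (fun h => h6 (h7.2 h))
          unfold queried expl
          rw [this s.card (∅, ∅) (fun e he _ _ => h1 e he)]
        exact h3 (hdet _ _ (fun e he => (h1 e (h4 ▸ he)).symm) h2))
  have hcov : Ex (p : ℝ) s (fun S => ind (fun S => ofS S ∈ A) S * ind (fun S => ofS S ∈ A) S) -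
      Ex (p : ℝ) s (ind fun S => ofS S ∈ A) * Ex (p : ℝ) s (ind fun S => ofS S ∈ A) =
      Pr p A * (1 - Pr p A) := by
    rw [Pr_eq_Ex hA p]
    have : Ex (p : ℝ) s (fun S => ind (fun S => ofS S ∈ A) S * ind (fun S => ofS S ∈ A) S) =
        Ex (p : ℝ) s (ind fun S => ofS S ∈ A) := by
      refine Pool.Agent.Perc.Ex_congr fun S _ => ?_
      rw [← pow_two, Pool.Agent.Perc.ind_sq]
    rw [this]
    ring
  rw [hcov] at key
  refine (le_abs_self _).trans (key.trans ?_)
  rw [Finset.mul_sum]
  refine Finset.sum_le_sum fun e he => ?_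
  have h1 : Ex (p : ℝ) s (ind fun S => e ∈ qFrom N (ofS (∅ ∪ S)) s.card (∅, ∅)) =
      Pr p {ω | e ∈ queried N ω s.card} := by
    rw [Pr_eq_Ex (localOn_queried hN s.card e) p]
    refine Pool.Agent.Perc.Ex_congr fun S _ => ?_
    refine Pool.Agent.Perc.ind_congr ?_
    rw [hqs]
    rfl
  have h2 : Ex (p : ℝ) s (fun S => |DD e (ind fun S => ofS S ∈ A) S|) = pivot p A e := by
    rw [pivot_eq_Ex hA he]
    refine Pool.Agent.Perc.Ex_congr fun S _ => ?_
    rw [abs_of_nonneg]
    unfold DD
    rw [sub_nonneg]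
    refine Pool.Agent.Perc.ind_le_ind ?_
    intro h
    refine iA _ _ (ofS_mono ?_) h
    exact (Finset.erase_subset _ _).trans (Finset.subset_insert _ _)
  rw [h1, h2]
  have h3 : 0 ≤ Pr p {ω | e ∈ queried N ω s.card} := Pr_nonneg
  have h4 : 0 ≤ pivot p A e := by
    rw [← h2]
    exact Pool.Agent.Perc.Ex_nonneg hp0 hp1 fun S _ => abs_nonneg _
  have h5 : (p : ℝ) * (1 - p) ≤ 1 / 2 := by nlinarith [sq_nonneg ((p : ℝ) - 1 / 2)]
  calc Pr p {ω | e ∈ queried N ω s.card} * ((p : ℝ) * (1 - p)) * pivot p A e
      = ((p : ℝ) * (1 - p)) * (Pr p {ω | e ∈ queried N ω s.card} * pivot p A e) := by ring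
    _ ≤ 1 / 2 * (Pr p {ω | e ∈ queried N ω s.card} * pivot p A e) := by
        apply mul_le_mul_of_nonneg_right h5 (mul_nonneg h3 h4)

end Pool.Agent.H89.Perc

end

section

/-!
# The torus: definitions of the winding event and of the exploration rule
-/

open MeasureTheory ProbabilityTheory unitInterval

namespace Pool.Agent.H89.Perc

/-- Edges of the torus on the two cutting lines. -/
def IsBd (e : Edge) : Prop := (e.2.2 = false ∧ e.2.1 = 0) ∨ (e.2.2 = true ∧ e.1 = 0)

/-- Boundary vertices of the fundamental square. -/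
def bdV (N : ℕ) : Set Vert := {u | u ∈ rect 0 N 0 N ∧ (u.1 = 0 ∨ u.1 = N ∨ u.2 = 0 ∨ u.2 = N)}

/-- Boundary faces of the fundamental square. -/
def bdF (N : ℕ) : Set Vert :=
  {φ | φ ∈ rect 0 (N - 1) 0 (N - 1) ∧ (φ.1 = 0 ∨ φ.1 = N - 1 ∨ φ.2 = 0 ∨ φ.2 = N - 1)}

/-- Vertices of the fundamental square joined to its boundary by edges in `O`. -/
def reachV (N : ℕ) (O : Finset Edge) : Set Vert :=
  {u | ∃ w ∈ bdV N, Conn (fun e => decide (e ∈ O)) (rect 0 N 0 N) w u}

/-- Faces of the fundamental square joined to the boundary faces by dual edges crossing edges in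
`C`. -/
def reachF (N : ℕ) (C : Finset Edge) : Set Vert :=
  {φ | ∃ ψ ∈ bdF N, Conn (fun e => decide (crossed e ∈ C)) (rect 0 (N - 1) 0 (N - 1)) ψ φ}

/-- Edges that may be queried next: first the edges on the cutting lines, then the edges which have
an endpoint joined to the boundary by queried open edges and an adjacent face joined to the
boundary by queried closed edges. -/
def Cand (N : ℕ) (O C : Finset Edge) (e : Edge) : Prop :=
  e ∈ tEdges N ∧ e ∉ O ∧ e ∉ C ∧
    (IsBd e ∨ ((src e ∈ reachV N O ∨ tgt e ∈ reachV N O) ∧ ∃ φ, IsFace φ e ∧ φ ∈ reachF N C))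

/-- The exploration rule. -/
noncomputable def torusRule (N : ℕ) : Rule := fun O C => by
  classical exact if h : ∃ e, Cand N O C e then some h.choose else none

theorem torusRule_spec {N : ℕ} {O C : Finset Edge} {e : Edge} (h : torusRule N O C = some e) :
    Cand N O C e := by
  unfold torusRule at h
  split_ifs at h with h'
  · rw [← Option.some.inj h]; exact h'.choose_spec

theorem torusRule_none {N : ℕ} {O C : Finset Edge} (h : torusRule N O C = none) (e : Edge) :
    ¬ Cand N O C e := by
  intro he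
  unfold torusRule at h
  rw [dif_pos ⟨e, he⟩] at h
  exact absurd h (by simp)

/-- Distance of the edge `(x, y, ·)` to the boundary of the fundamental square. -/
def rho (N : ℕ) (x y : ℤ) : ℤ := min (min x (N - 1 - x)) (min y (N - 1 - y))

end Pool.Agent.H89.Perc

end

section

/-!
# Near-critical percolation on the torus: definitions and interfaces

`q` is the density of open edges, `N` the side of the torus.  `Wind N` (horizontal winding) is the
increasing event whose probability is differentiated; all edges of the torus with the same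
direction have the same influence on it, so there are no boundary edges.
-/

open MeasureTheory ProbabilityTheory unitInterval

namespace Pool.Agent.H61.NC

open Pool.Agent.H89.Perc

/-- The block of radius `r` is pivotal for the winding event. -/
def BlockPiv (N r : ℕ) : Set Config :=
  {ω | fill (blk N r) true ω ∈ Wind N ∧ fill (blk N r) false ω ∉ Wind N}

/-- Interface 1 (separation and gluing, torus version). -/
def GLTorus : Prop :=
  ∀ c : ℝ, 0 < c → ∃ C : ℝ, 0 < C ∧ ∀ (N r : ℕ) (q : I) (d : Bool), 1 ≤ r → 64 * r ≤ N →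
    RSWreg c N q → a4 q r * Pr q (BlockPiv N (16 * r)) ≤ C * sT q N d

/-- Interface 2 (block OSSS on the torus). -/
def BlockLow : Prop :=
  ∀ c : ℝ, 0 < c → ∃ C δ : ℝ, 0 < C ∧ 0 < δ ∧ ∀ (N r : ℕ) (q : I), 1 ≤ r → 4 * r ≤ N →
    RSWreg c N q → ((r : ℝ) / N) ^ (2 - δ) ≤ C * Pr q (BlockPiv N r)

end Pool.Agent.H61.NC

end

section

/-!
# Interfaces of the separation part

Everything is for densities `q` with `RSWreg c n q`; constants depend only on `c`.
-/

open MeasureTheory ProbabilityTheory unitInterval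

namespace Pool.Agent.H29.Sep

open Pool.Agent.H89.Perc Pool.Agent.H61.NC

/-- The domain between `sphere 0 t` and `sphere 0 R` (both included), `1 ≤ t ≤ R`. -/
def dom (t R : ℕ) : Set Vert := ball 0 R \ ball 0 (t - 1)

/-- Two distinct clusters of the annulus `dom t R` join `sphere 0 t` to `sphere 0 R`. -/
def A2 (t R : ℕ) : Set Config :=
  {ω | ∃ u ∈ sphere 0 R, ∃ u' ∈ sphere 0 R, ∃ v ∈ sphere 0 t, ∃ v' ∈ sphere 0 t,
    Conn ω (dom t R) u v ∧ Conn ω (dom t R) u' v' ∧ ¬ Conn ω (dom t R) u u'}

/-- Two-terminal event: a cluster of `dom t R` touching `L` and not touching `K` reaches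
`sphere 0 t`, and a cluster touching `K` reaches `sphere 0 t`. -/
def BT (t R : ℕ) (L K : Set Vert) : Set Config :=
  {ω | (∃ u ∈ L, ∃ v ∈ sphere 0 t, Conn ω (dom t R) u v ∧ ∀ w ∈ K, ¬ Conn ω (dom t R) u w) ∧
    ∃ w ∈ K, ∃ v ∈ sphere 0 t, Conn ω (dom t R) w v}

/-- Two distinct clusters of `D ∩ ball z ρ` join `ball z t` to `sphere z ρ`. -/
def LocTwo (D : Set Vert) (z : Vert) (t ρ : ℕ) : Set Config :=
  {ω | ∃ u ∈ ball z t, ∃ u' ∈ ball z t, ∃ v ∈ sphere z ρ, ∃ v' ∈ sphere z ρ,
    Conn ω (D ∩ ball z ρ) u v ∧ Conn ω (D ∩ ball z ρ) u' v' ∧ ¬ Conn ω (D ∩ ball z ρ) u u'}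

/-- S1, inner side (owner helper26). -/
def BadIn : Prop :=
  ∀ c : ℝ, 0 < c → ∃ C κ : ℝ, 0 < C ∧ 0 < κ ∧ ∀ (n t ρ r : ℕ) (q : I), 1 ≤ t → t ≤ ρ →
    2 * ρ ≤ r → r ≤ n → RSWreg c n q →
      Pr q {ω | ∃ z ∈ sphere 0 r, ω ∈ LocTwo (ball 0 r) z t ρ} ≤
        C * ((r : ℝ) / ρ) * ((t : ℝ) / ρ) ^ κ

/-- S1, outer side (owner helper26). -/
def BadOut : Prop :=
  ∀ c : ℝ, 0 < c → ∃ C κ : ℝ, 0 < C ∧ 0 < κ ∧ ∀ (n t ρ r : ℕ) (q : I), 1 ≤ t → t ≤ ρ →
    2 * ρ ≤ r → r ≤ n → RSWreg c n q →
      Pr q {ω | ∃ z ∈ sphere 0 r, ω ∈ LocTwo (ball 0 (r - 1))ᶜ z t ρ} ≤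
        C * ((r : ℝ) / ρ) * ((t : ℝ) / ρ) ^ κ

/-- S4 (owner helper57): gluing with terminals. -/
def GLT : Prop :=
  ∀ c ε : ℝ, 0 < c → 0 < ε → ∃ (C : ℝ) (k₀ : ℕ), 0 < C ∧ 1 ≤ k₀ ∧
    ∀ (n k R : ℕ) (q : I) (L K : Set Vert), k₀ ≤ k → 64 * 4 ^ k ≤ R → R ≤ n → RSWreg c n q →
      L ⊆ sphere 0 R → K ⊆ sphere 0 R →
      a4 q (4 ^ k) * Pr q (BT (4 * 4 ^ k) R L K) ≤
        C * a4 q R + ε * (a4 q (4 ^ (k - 1)) * Pr q (BT (16 * 4 ^ k) R L K))

/-- S3 (owner helper59): regularity of the four-arm probability. -/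
def RegA4 : Prop :=
  ∀ c : ℝ, 0 < c → ∃ C : ℝ, 0 < C ∧ ∀ (n r : ℕ) (q : I), 1 ≤ r → 64 * r ≤ n → RSWreg c n q →
    a4 q r ≤ C * a4 q (4 * r)

/-- S2 + S3 (owner helper59): four arms at scale `N / 64` cost at most a pivotal edge of the
torus. -/
def SepTorus : Prop :=
  ∀ c : ℝ, 0 < c → ∃ C : ℝ, 0 < C ∧ ∀ (N r : ℕ) (q : I) (d : Bool), 1 ≤ r → N ≤ 64 * r →
    4 * r ≤ N → RSWreg c N q → a4 q r ≤ C * sT q N d

/-- S5 (helper29): quasi-multiplicativity for the planar annulus. -/
def QMann : Prop :=
  ∀ c : ℝ, 0 < c → ∃ C : ℝ, 0 < C ∧ ∀ (n r R : ℕ) (q : I), 1 ≤ r → 16 * r ≤ R → 64 * R ≤ n →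
    RSWreg c n q → a4 q r * Pr q (A2 (16 * r) R) ≤ C * a4 q R

end Pool.Agent.H29.Sep

end
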