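import Pool.Agent.H94.BG.H31.PT.M03_3
import Pool.Agent.H94.BG.H31.PT.M06_3
import Pool.Agent.H94.BG.M06

/-! The parts of this file: H57.EX.Det2, H57.EX.Det1, H57.EX.Stage2a, H57.EX.StdDet, H57.EX.StdBad, H57.EX.Near, H59.EX.SealProb, H59.EX.St2, H83.EX.CorrE, H26.ST.Defs, H26.ST.Cells, H26.ST.Open. -/

section

/-!
# The sealed cluster
-/

open MeasureTheory ProbabilityTheory unitInterval

namespace Pool.Agent.H57.EX

open Pool.Agent.H89.Perc Pool.Agent.H61.NC Pool.Agent.H29.Sep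

/-- The three parts of the glued domain. -/
private theorem mem_GG {Z : Dat} {s n : ℕ} {γ : ℕ → Vert} {v : Vert} :
    v ∈ GG Z s γ n ↔ v ∈ Z.B ∨ v ∈ Z.D ∨ v ∈ zone γ n s := by
  unfold GG
  rw [Set.mem_union, Set.mem_union, or_assoc]

private theorem mem_B {Z : Dat} {v : Vert} : v ∈ Z.B ↔ nrm v ≤ 4 * (Z.m : ℤ) := by
  unfold Dat.B
  rw [mem_ball_zero]
  push_cast
  rfl

private theorem B_sub_W (Z : Dat) : Z.B ⊆ Z.W := by
  intro v hv
  apply Z.hBW
  rw [mem_B] at hv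
  rw [mem_ball_zero]
  push_cast
  omega

private theorem GG_sub_W {Z : Dat} {s n : ℕ} {γ : ℕ → Vert} {b b' : Vert}
    (hg : ZGood Z.m s γ n b b') : GG Z s γ n ⊆ Z.W := by
  intro v hv
  rw [mem_GG] at hv
  rcases hv with hv | hv | hv
  · exact B_sub_W Z hv
  · exact Z.hDW hv
  · apply Z.hBW
    rw [mem_ball_zero]
    have := hg.bdd v hv
    push_cast
    omega

private theorem x_mem_GG (Z : Dat) (s n : ℕ) (γ : ℕ → Vert) : Z.x ∈ GG Z s γ n := by
  rw [mem_GG]
  left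
  rw [mem_B]
  have h1 := Z.hx
  rw [mem_ball_zero] at h1
  have h2 := Z.hm
  push_cast at h1
  omega

private theorem y_mem_GG (Z : Dat) (s n : ℕ) (γ : ℕ → Vert) : Z.y ∈ GG Z s γ n := by
  rw [mem_GG]
  left
  rw [mem_B]
  have h1 := Z.hy
  rw [mem_ball_zero] at h1
  have h2 := Z.hm
  push_cast at h1
  omega

private theorem src_ne_tgt (e : Edge) : src e ≠ tgt e := by
  unfold src tgt
  intro h
  rcases he : e.2.2 with _ | _
  · rw [he] at h
    have h1 := congrArg Prod.fst h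
    simp at h1
  · rw [he] at h
    have h1 := congrArg Prod.snd h
    simp at h1

private theorem nrm_sphere {t : ℕ} {v : Vert} (h : v ∈ sphere 0 t) : nrm v = t :=
  mem_sphere_zero.1 h

/-- Places of the exits. -/
theorem exit_cases {Z : Dat} {s s' : ℕ} {γ : ℕ → Vert} {n : ℕ} {b b' : Vert} {V : Finset Vert}
    {ω : Config} (h : H2 Z s s' γ n b b' V ω) {v : Vert}
    (hv : v ∈ Exits Z.W (GG Z s γ n) (cl ω (GG Z s γ n) {Z.x})) :
    v ∈ ball 0 (20 * Z.m) ∧ (v ∈ zone γ n s ∨ v ∈ sphere 0 (4 * Z.m) ∨ (v ∈ Z.D ∧ v ∈ Z.Bd)) := by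
  obtain ⟨hv1, e, w, he, hwW, hwG⟩ := hv
  have hvG : v ∈ GG Z s γ n := cl_sub hv1
  have hm := Z.hm
  have hwB : w ∉ Z.B := fun hw => hwG (mem_GG.2 (Or.inl hw))
  have hwD : w ∉ Z.D := fun hw => hwG (mem_GG.2 (Or.inr (Or.inl hw)))
  have hw19 : w ∈ ball 0 (19 * Z.m) := by
    by_contra hcon
    exact hwD (Z.hWD w hwW hcon)
  have hvw : v ∈ ball w 1 := joins_ball (joins_symm he)
  have hwv : w ∈ ball v 1 := joins_ball he
  have h1 := nrm_le_of_mem_ball hvw
  have h2 := nrm_le_of_mem_ball hwv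
  rw [mem_ball_zero] at hw19
  push_cast at hw19 h1 h2
  refine ⟨?_, ?_⟩
  · rw [mem_ball_zero]
    push_cast
    omega
  · rw [mem_GG] at hvG
    rcases hvG with hB | hD | hzn
    · right
      left
      rw [mem_B] at hB hwB
      rw [mem_sphere_zero]
      push_cast
      omega
    · right
      right
      exact ⟨hD, Or.inr ⟨hD, e, w, he, hwW, hwD⟩⟩
    · left
      exact hzn

/-- Near the exits there are no vertices of the clusters of `y` and `T`. -/
theorem exit_far {Z : Dat} {s s' : ℕ} {γ : ℕ → Vert} {n : ℕ} {b b' : Vert} {V : Finset Vert}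
    {ω : Config} (h : H2 Z s s' γ n b b' V ω) {v p : Vert}
    (hv : v ∈ Exits Z.W (GG Z s γ n) (cl ω (GG Z s γ n) {Z.x})) (hp : p ∈ ball v (4 * s')) :
    p ∉ cl ω (GG Z s γ n) {Z.y} ∧ p ∉ cl ω (GG Z s γ n) Z.T := by
  obtain ⟨-, hc⟩ := exit_cases h hv
  obtain ⟨-, -, -, hS2, hS3, hd2, hd3, -, -⟩ := h.h1
  obtain ⟨hn1, hn2⟩ := h.h2
  have hs' := h.hs'
  have hss := h.hss
  have hsm := h.hsm
  have hp1 := nrm_le_of_mem_ball hp
  have hp2 := le_nrm_of_mem_ball hp
  push_cast at hp1 hp2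
  have h38 : 4 * s' ≤ 38 * s' := by omega
  have hvS1 : v ∈ cl ω (GG Z s γ n) {Z.x} := hv.1
  rcases hc with hzn | hsp | ⟨hD, hBd⟩
  · constructor
    · intro hpS
      have hpB := hS2 hpS
      rw [mem_B] at hpB
      have hvb := h.hg.inner v hzn (by omega)
      have hpb := ball_mono (show 20 * s + 4 * s' ≤ 38 * s by omega) (ball_trans hvb hp)
      exact Set.disjoint_left.1 hd2 hpS hpb
    · intro hpS
      have hpD := Z.hD p (hS3 hpS)
      have hvb := h.hg.outer v hzn (by omega)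
      have hpb := ball_mono (show 20 * s + 4 * s' ≤ 38 * s by omega) (ball_trans hvb hp)
      exact Set.disjoint_left.1 hd3 hpS hpb
  · have hnv := nrm_sphere hsp
    push_cast at hnv
    constructor
    · intro hpS
      exact hn1 v hsp ⟨v, hvS1, mem_ball_self v _⟩ ⟨p, hpS, ball_mono h38 hp⟩
    · intro hpS
      have hpD := Z.hD p (hS3 hpS)
      have hm := Z.hm
      omega
  · have hnv := Z.hD v hD
    constructor
    · intro hpS
      have hpB := hS2 hpS
      rw [mem_B] at hpB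
      have hm := Z.hm
      omega
    · intro hpS
      exact hn2 v hBd ⟨v, hvS1, mem_ball_self v _⟩ ⟨p, hpS, ball_mono h38 hp⟩

/-- The cluster of `x` in the universe. -/
theorem sealed {Z : Dat} {s s' : ℕ} {γ : ℕ → Vert} {n : ℕ} {b b' : Vert} {V : Finset Vert}
    {ω : Config} (h : H2 Z s s' γ n b b' V ω) {p : Vert} (hp : p ∈ cl ω Z.W {Z.x}) :
    p ∈ cl ω (GG Z s γ n) {Z.x} ∨
      ∃ v ∈ Exits Z.W (GG Z s γ n) (cl ω (GG Z s γ n) {Z.x}), p ∈ ball v (4 * s') := by
  by_cases hp1 : p ∈ cl ω (GG Z s γ n) {Z.x}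
  · exact Or.inl hp1
  right
  have hxG := x_mem_GG Z s n γ
  have hxS : Z.x ∈ cl ω (GG Z s γ n) {Z.x} := mem_cl_self hxG
  rw [mem_cl_iff] at hp
  obtain ⟨v, hv, w, hw, hvW, hwW, ⟨e, he, heo⟩, hwp⟩ := last_exit hp hxS hp1
  have hvG : v ∈ GG Z s γ n := cl_sub hv
  have hwG : w ∉ GG Z s γ n := by
    intro hwG
    exact hw (cl_step hv ⟨hvG, hwG, e, he, heo⟩)
  have hvE : v ∈ Exits Z.W (GG Z s γ n) (cl ω (GG Z s γ n) {Z.x}) := ⟨hv, e, w, he, hwW, hwG⟩
  refine ⟨v, hvE, ?_⟩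
  by_contra hpv
  obtain ⟨hv20, -⟩ := exit_cases h hvE
  obtain ⟨c, hcV, hvc⟩ := h.hV v hv20
  have hpc : p ∉ ball c (3 * s') := by
    intro hpc
    apply hpv
    have h1 := ball_trans (mem_ball_comm.1 hvc) hpc
    exact ball_mono (by omega) h1
  have hs' := h.hs'
  -- the path from the exit
  set D1 : Set Vert := {v} ∪ (Z.W \ cl ω (GG Z s γ n) {Z.x}) with hD1
  have hvD1 : v ∈ D1 := Or.inl rfl
  have hpath : Conn ω D1 v p := by
    have h1 : Step ω D1 v w := ⟨hvD1, Or.inr ⟨hwW, hw⟩, e, he, heo⟩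
    exact h1.conn.trans (hwp.mono_set fun a ha => Or.inr ha)
  obtain ⟨u, hu, hvu⟩ := reach_sphere hpath (ball_mono (by omega) hvc) (Or.inl hpc)
  obtain ⟨ω', hω', hseal⟩ := h.h3
  refine hseal c hcV ⟨v, hvE, hvc⟩ ⟨v, hvc, u, hu, ?_⟩
  refine conn_congr hvu (fun a ha => ha.2) ?_
  intro f hf1 hf2 hfo
  rw [hω' f ?_]
  · exact hfo
  intro hft
  rw [mem_touch] at hft
  obtain ⟨hfin, hfS⟩ := hft
  rw [mem_eIn ((GG_sub_W h.hg).trans Z.hWR)] at hfin
  obtain ⟨hfG1, hfG2⟩ := hfin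
  -- the ends of `f` are near the exit
  have hball : ∀ a, a ∈ ball c (3 * s') → a ∈ ball v (4 * s') := by
    intro a ha
    have h1 := ball_trans (mem_ball_comm.1 hvc) ha
    exact ball_mono (by omega) h1
  have hfar1 := exit_far h hvE (hball _ hf1.2)
  have hfar2 := exit_far h hvE (hball _ hf2.2)
  have hne := src_ne_tgt f
  -- an end in the cluster of `x` is the exit
  have hS1 : ∀ a, a ∈ D1 → a ∈ cl ω (GG Z s γ n) {Z.x} → a = v := by
    intro a ha ha'
    rcases ha with ha | ha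
    · exact ha
    · exact absurd ha' ha.2
  have hboth : src f ∈ cl ω (GG Z s γ n) {Z.x} ↔ tgt f ∈ cl ω (GG Z s γ n) {Z.x} := by
    constructor
    · intro h1
      exact cl_step h1 ⟨hfG1, hfG2, f, joins_src_tgt f, hfo⟩
    · intro h1
      exact cl_step h1 ⟨hfG2, hfG1, f, (joins_src_tgt f).symm, hfo⟩
  rcases hfS with ((hf | hf) | hf) | ((hf | hf) | hf)
  · exact hne ((hS1 _ hf1.1 hf).trans (hS1 _ hf2.1 (hboth.1 hf)).symm)
  · exact hfar1.1 hf
  · exact hfar1.2 hf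
  · exact hne ((hS1 _ hf1.1 (hboth.2 hf)).trans (hS1 _ hf2.1 hf).symm)
  · exact hfar2.1 hf
  · exact hfar2.2 hf

/-- The second landing. -/
theorem det2 {Z : Dat} {s s' : ℕ} {γ : ℕ → Vert} {n : ℕ} {b b' : Vert} {V : Finset Vert}
    {ω : Config} (h : H2 Z s s' γ n b b' V ω) {N N' : Finset Vert} (hN : IsNet N (4 * Z.m) s')
    (hN' : IsNet N' (16 * Z.m) s') :
    ∃ β ∈ N, ∃ β' ∈ N', β ∉ ball b (30 * s) ∧ β' ∉ ball b' (30 * s) ∧
      ∀ (γ' : ℕ → Vert) (n' : ℕ), ZGood Z.m s' γ' n' β β' →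
        (∀ w ∈ zone γ' n' s', ∀ z ∈ zone γ n s, w ∉ ball z (8 * s')) →
        ω ∈ E2 Z s' γ' n' β β' := by
  obtain ⟨hL, ⟨u0, hu0S, hu0⟩, ⟨v0, hv0S, hv0⟩, hS2, hS3, hd2, hd3, hd12, hd13⟩ := h.h1
  obtain ⟨hn1, hn2⟩ := h.h2
  have hs' := h.hs'
  have hss := h.hss
  have hsm := h.hsm
  obtain ⟨β, hβ, hu0β⟩ := hN.cov u0 hu0
  obtain ⟨β', hβ', hv0β⟩ := hN'.cov v0 hv0
  refine ⟨β, hβ, β', hβ', ?_, ?_, ?_⟩
  · intro hcon
    exact Set.disjoint_left.1 hd2 hu0S
      (ball_mono (show 30 * s + s' ≤ 38 * s by omega) (ball_trans hcon hu0β))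
  · intro hcon
    exact Set.disjoint_left.1 hd3 hv0S
      (ball_mono (show 30 * s + s' ≤ 38 * s by omega) (ball_trans hcon hv0β))
  intro γ' n' hg' hsep
  have hβs := hN.sub β hβ
  have hβs' : β' ∈ Z.Bd := Or.inl (hN'.sub β' hβ')
  -- the two contradictions
  have hin : ∀ a ∈ cl ω (GG Z s γ n) {Z.x}, a ∉ ball β (38 * s') := by
    intro a ha hab
    exact hn1 β hβs ⟨a, ha, hab⟩ ⟨u0, hu0S, ball_mono (by omega) hu0β⟩
  have hout : ∀ a ∈ cl ω (GG Z s γ n) {Z.x}, a ∉ ball β' (38 * s') := by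
    intro a ha hab
    exact hn2 β' hβs' ⟨a, ha, hab⟩ ⟨v0, hv0S, ball_mono (by omega) hv0β⟩
  -- the cluster in the universe misses the clusters of `y` and `T`
  have hmiss2 : ∀ a ∈ cl ω (GG Z s γ n) {Z.y}, a ∉ cl ω Z.W {Z.x} := by
    intro a ha hax
    rcases sealed h hax with h1 | ⟨v, hv, hav⟩
    · exact Set.disjoint_left.1 hd12 h1 ha
    · exact (exit_far h hv hav).1 ha
  have hmiss3 : ∀ a ∈ cl ω (GG Z s γ n) Z.T, a ∉ cl ω Z.W {Z.x} := by
    intro a ha hax
    rcases sealed h hax with h1 | ⟨v, hv, hav⟩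
    · exact Set.disjoint_left.1 hd13 h1 ha
    · exact (exit_far h hv hav).2 ha
  refine ⟨?_, ?_, ?_, ?_⟩
  · obtain ⟨a, ha, haL⟩ := hL
    exact ⟨a, cl_mono (GG_sub_W h.hg) ha, haL⟩
  · rw [Set.disjoint_left]
    intro p hp hpz
    rcases sealed h hp with hp1 | ⟨v, hv, hpv⟩
    · have hpG : p ∈ GG Z s γ n := cl_sub hp1
      rw [mem_GG] at hpG
      rcases hpG with hB | hD | hzn
      · rw [mem_B] at hB
        have h1 := hg'.inner p hpz (by omega)
        exact hin p hp1 (ball_mono (by omega) h1)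
      · have hD' := Z.hD p hD
        have h1 := hg'.outer p hpz (by omega)
        exact hout p hp1 (ball_mono (by omega) h1)
      · exact hsep p hpz p hzn (mem_ball_self p _)
    · obtain ⟨-, hc⟩ := exit_cases h hv
      have hp1 := nrm_le_of_mem_ball hpv
      have hp2 := le_nrm_of_mem_ball hpv
      push_cast at hp1 hp2
      rcases hc with hzn | hsp | ⟨hD, -⟩
      · exact hsep p hpz v hzn (ball_mono (by omega) hpv)
      · have hnv := nrm_sphere hsp
        push_cast at hnv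
        have h1 := hg'.inner p hpz (by omega)
        have h2 := ball_trans h1 (mem_ball_comm.1 hpv)
        exact hin v hv.1 (ball_mono (by omega) h2)
      · have hD' := Z.hD v hD
        have h1 := hg'.outer p hpz (by omega)
        have h2 := ball_trans h1 (mem_ball_comm.1 hpv)
        exact hout v hv.1 (ball_mono (by omega) h2)
  · refine ⟨u0, hu0β, ?_⟩
    have h1 := conn_in_cl (mem_cl_iff.1 hu0S) (mem_cl_self (ω := ω) (y_mem_GG Z s n γ))
    exact h1.mono_set fun a ha => ⟨hS2 ha, hmiss2 a ha⟩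
  · obtain ⟨w, hw, hwv⟩ := hv0S
    refine ⟨w, hw, v0, hv0β, ?_⟩
    have hwS : w ∈ cl ω (GG Z s γ n) Z.T := ⟨w, hw, Conn.refl hwv.mem_left⟩
    have h1 := conn_in_cl hwv hwS
    exact h1.mono_set fun a ha => ⟨hS3 ha, hmiss3 a ha⟩

end Pool.Agent.H57.EX

end

section

/-!
# First landing
-/

open MeasureTheory ProbabilityTheory unitInterval

namespace Pool.Agent.H57.EX

open Pool.Agent.H89.Perc Pool.Agent.H61.NC Pool.Agent.H29.Sep

/-- First landing. -/
theorem det1 {Z : Dat} {s : ℕ} {N N' : Finset Vert} (hN : IsNet N (4 * Z.m) s)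
    (hN' : IsNet N' (16 * Z.m) s) :
    Four Z.x Z.y (4 * Z.m) ∩ Out Z.D Z.L Z.T (16 * Z.m) ⊆
      (Four Z.x Z.y (4 * Z.m) ∩ Out Z.D Z.L Z.T (16 * Z.m) ∩
        (NearIn Z (38 * s) ∪ NearOut Z (38 * s))) ∪ ⋃ b ∈ N, ⋃ b' ∈ N', E0 Z s b b' := by
  intro ω hω
  by_cases hnear : ω ∈ NearIn Z (38 * s) ∪ NearOut Z (38 * s)
  · exact Or.inl ⟨hω, hnear⟩
  · right
    obtain ⟨⟨⟨u0, hu0, hxu⟩, ⟨u1, hu1, hyu⟩, hxy⟩, ⟨u, hu, v, hv, huv, hT⟩, w, hw, v', hv', hwv⟩ :=
      hω
    obtain ⟨b, hb, hub⟩ := hN.cov u0 hu0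
    obtain ⟨b', hb', hvb⟩ := hN'.cov v hv
    have hs : s ≤ 38 * s := by omega
    have hucl : u ∉ cl ω Z.D Z.T := by
      rintro ⟨a, ha, hau⟩
      exact hT a ha hau.symm
    simp only [Set.mem_iUnion]
    refine ⟨b, hb, b', hb', ⟨u0, hub, hxu⟩, ?_, ⟨u, hu, hucl, v, hvb, huv⟩,
      ⟨u1, mem_cl_iff.2 hyu, hu1⟩, ⟨v', ⟨w, hw, hwv⟩, hv'⟩, ?_, ?_⟩
    · intro h
      exact hxy (mem_cl_iff.1 h).symm
    · by_contra hd
      rw [Set.not_disjoint_iff] at hd
      obtain ⟨a, ha, hab⟩ := hd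
      exact hnear (Or.inl ⟨b, hN.sub b hb, ⟨u0, mem_cl_iff.2 hxu, ball_mono hs hub⟩, ⟨a, ha, hab⟩⟩)
    · by_contra hd
      rw [Set.not_disjoint_iff] at hd
      obtain ⟨a, ha, hab⟩ := hd
      exact hnear (Or.inr ⟨b', hN'.sub b' hb', u, hu, hucl,
        ⟨v, mem_cl_iff.2 huv, ball_mono hs hvb⟩, ⟨a, ha, hab⟩⟩)

end Pool.Agent.H57.EX

end

section

/-!
# Sealing of the first cluster
-/

open MeasureTheory ProbabilityTheory unitInterval

namespace Pool.Agent.H57.EX

open Pool.Agent.H89.Perc Pool.Agent.H61.NC Pool.Agent.H29.Sep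

private lemma stage2a_seal_sub {Z : Dat} {s : ℕ} {V : Finset Vert} {G S1 S2 S3 : Set Vert} :
    {ω | ∀ v ∈ V, ω ∉ ArmBox v s (3 * s)} ⊆ SealP Z s V G S1 S2 S3 :=
  fun ω hω => ⟨ω, fun _ _ => rfl, fun v hv _ => hω v hv⟩

private lemma stage2a_local {Z : Dat} {s : ℕ} {V : Finset Vert} {G S1 S2 S3 : Set Vert}
    [DecidableEq Edge] :
    LocalOn ((V.biUnion fun v => eRect (v.1 - (3 * s : ℕ)) (v.1 + (3 * s : ℕ))
      (v.2 - (3 * s : ℕ)) (v.2 + (3 * s : ℕ))) \ touch (eIn Z.R G) (S1 ∪ S2 ∪ S3))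
      (SealP Z s V G S1 S2 S3) := by
  intro ω ω₂ hω hA
  obtain ⟨ω', h1, h2⟩ := hA
  refine ⟨fun e => if e ∈ touch (eIn Z.R G) (S1 ∪ S2 ∪ S3) then ω' e else ω₂ e, ?_, ?_⟩
  · intro e he
    simp only [if_neg he]
  · intro v hv hne hcon
    refine h2 v hv hne ?_
    refine localOn_armBox v s (3 * s) _ _ (fun e he => ?_) hcon
    split_ifs with he'
    · rfl
    · rw [h1 e he', hω e]
      exact Finset.mem_sdiff.2 ⟨Finset.mem_biUnion.2 ⟨v, hv, he⟩, he'⟩

private lemma stage2a_noarm_local {s : ℕ} {V : Finset Vert} [DecidableEq Edge] :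
    LocalOn (V.biUnion fun v => eRect (v.1 - (3 * s : ℕ)) (v.1 + (3 * s : ℕ))
      (v.2 - (3 * s : ℕ)) (v.2 + (3 * s : ℕ))) {ω | ∀ v ∈ V, ω ∉ ArmBox v s (3 * s)} := by
  intro ω ω' hω hA v hv hcon
  refine hA v hv (localOn_armBox v s (3 * s) _ _ (fun e he => ?_) hcon)
  exact (hω e (Finset.mem_biUnion.2 ⟨v, hv, he⟩)).symm

private lemma stage2a_noarm_incr {s : ℕ} {V : Finset Vert} :
    Incr {ω | ∀ v ∈ V, ω ∉ ArmBox v s (3 * s)}ᶜ := by
  intro ω ω' hω hA hB
  refine hA fun v hv hcon => hB v hv (incr_armBox v s (3 * s) ω ω' hω hcon)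

/-- Sealing, for any condition `P` on the values of the three clusters. -/
theorem stage2a {Z : Dat} {s : ℕ} {V : Finset Vert} {G : Set Vert} (hG : G ⊆ Z.W)
    (P : Set Vert → Set Vert → Set Vert → Prop) {q : I} {c : ℝ} (hc : 0 ≤ c)
    (hP : c ≤ Pr q {ω | ∀ v ∈ V, ω ∉ ArmBox v s (3 * s)}) :
    c * PrE q Z.E {ω | P (cl ω G {Z.x}) (cl ω G {Z.y}) (cl ω G Z.T)} ≤
      PrE q Z.E ({ω | P (cl ω G {Z.x}) (cl ω G {Z.y}) (cl ω G Z.T)} ∩ Seal Z s V G) := by
  classical
  have hGR : G ⊆ ball 0 Z.R := hG.trans Z.hWR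
  have hfin : G.Finite := by
    refine Set.Finite.subset (Set.Finite.subset
      (Finset.finite_toSet (Finset.Icc (-(Z.R : ℤ)) Z.R ×ˢ Finset.Icc (-(Z.R : ℤ)) Z.R)) ?_) hGR
    intro v hv
    simp only [ball, rect, Set.mem_ofPred_eq, Prod.fst_zero, Prod.snd_zero, zero_sub, zero_add]
      at hv
    simp only [Finset.coe_product, Finset.coe_Icc, Set.mem_prod, Set.mem_Icc]
    omega
  set Q : Finset (Set Vert) := hfin.finite_subsets.toFinset with hQ
  have hmemQ : ∀ S : Set Vert, S ∈ Q ↔ S ⊆ G := by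
    intro S
    rw [hQ, Set.Finite.mem_toFinset]
    rfl
  set F : Finset (Set Vert × Set Vert × Set Vert) :=
    (Q ×ˢ Q ×ˢ Q).filter (fun i => P i.1 i.2.1 i.2.2) with hF
  set X : Set Vert × Set Vert × Set Vert → Set Config :=
    fun i => {ω | cl ω G {Z.x} = i.1} ∩ ({ω | cl ω G {Z.y} = i.2.1} ∩ {ω | cl ω G Z.T = i.2.2})
    with hX
  set tX : Set Vert × Set Vert × Set Vert → Finset Edge :=
    fun i => touch (eIn Z.R G) (i.1 ∪ i.2.1 ∪ i.2.2) with htX
  set tO : Set Vert × Set Vert × Set Vert → Finset Edge :=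
    fun i => (V.biUnion fun v => eRect (v.1 - (3 * s : ℕ)) (v.1 + (3 * s : ℕ))
      (v.2 - (3 * s : ℕ)) (v.2 + (3 * s : ℕ))) \ tX i with htO
  set O : Set Vert × Set Vert × Set Vert → Set Config :=
    fun i => SealP Z s V G i.1 i.2.1 i.2.2 with hO
  have hmemE : ∀ e, src e ∈ G → tgt e ∈ G → e ∈ eIn Z.R G :=
    fun e h1 h2 => (mem_eIn hGR).2 ⟨h1, h2⟩
  have htouch : ∀ S S' : Set Vert, S ⊆ S' → touch (eIn Z.R G) S ⊆ touch (eIn Z.R G) S' := by
    intro S S' hSS e he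
    rw [mem_touch] at he ⊢
    exact ⟨he.1, he.2.imp (fun h => hSS h) (fun h => hSS h)⟩
  have key := cond_indepE (q := q) (E := Z.E) F X O tX tO hc
    (by
      intro i _ j _ hij
      rw [Set.disjoint_left]
      rintro ω ⟨h1, h2, h3⟩ ⟨h4, h5, h6⟩
      refine hij ?_
      simp only [Set.mem_ofPred_eq] at h1 h2 h3 h4 h5 h6
      exact Prod.ext (h1.symm.trans h4) (Prod.ext (h2.symm.trans h5) (h3.symm.trans h6)))
    (by
      intro i _
      refine LocalOn.inter ?_ (LocalOn.inter ?_ ?_)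
      · exact (localOn_cl hmemE).mono (htouch _ _ fun v hv => Or.inl (Or.inl hv))
      · exact (localOn_cl hmemE).mono (htouch _ _ fun v hv => Or.inl (Or.inr hv))
      · exact (localOn_cl hmemE).mono (htouch _ _ fun v hv => Or.inr hv))
    (by
      intro i _
      exact stage2a_local)
    (by
      intro i _
      exact Finset.disjoint_sdiff)
    (by
      intro i _
      exact hP.trans ((le_PrE_of_decr stage2a_noarm_local stage2a_noarm_incr).trans
        (PrE_mono stage2a_seal_sub)))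
  refine (mul_le_mul_of_nonneg_left (PrE_mono ?_) hc).trans (key.trans (PrE_mono ?_))
  · intro ω hω
    simp only [Set.mem_iUnion]
    refine ⟨(cl ω G {Z.x}, cl ω G {Z.y}, cl ω G Z.T), ?_, rfl, rfl, rfl⟩
    rw [hF, Finset.mem_filter]
    refine ⟨?_, hω⟩
    simp only [Finset.mem_product, hmemQ]
    exact ⟨cl_sub, cl_sub, cl_sub⟩
  · intro ω hω
    simp only [Set.mem_iUnion] at hω
    obtain ⟨i, hi, ⟨h1, h2, h3⟩, h4⟩ := hω
    rw [hF, Finset.mem_filter] at hi
    simp only [Set.mem_ofPred_eq] at h1 h2 h3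
    refine ⟨?_, ?_⟩
    · change P (cl ω G {Z.x}) (cl ω G {Z.y}) (cl ω G Z.T)
      rw [h1, h2, h3]
      exact hi.2
    · change ω ∈ SealP Z s V G (cl ω G {Z.x}) (cl ω G {Z.y}) (cl ω G Z.T)
      rw [h1, h2, h3]
      exact h4

end Pool.Agent.H57.EX

end

section

/-!
# The standard data: deterministic facts
-/

open MeasureTheory ProbabilityTheory unitInterval

namespace Pool.Agent.H57.EX

open Pool.Agent.H89.Perc Pool.Agent.H61.NC Pool.Agent.H29.Sep

end Pool.Agent.H57.EX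

end

section

/-!
# The standard data: probability of the bad events
-/

open MeasureTheory ProbabilityTheory unitInterval

namespace Pool.Agent.H57.EX

open Pool.Agent.H89.Perc Pool.Agent.H61.NC Pool.Agent.H29.Sep

end Pool.Agent.H57.EX

end

section

/-!
# Near clusters give two clusters of a local domain
-/

open MeasureTheory ProbabilityTheory unitInterval

namespace Pool.Agent.H57.EX

open Pool.Agent.H89.Perc Pool.Agent.H61.NC Pool.Agent.H29.Sep

end Pool.Agent.H57.EX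

end

section

/-!
# Probability of seals

`Seal G ρ t` contains the intersection over `g ∈ G` of the decreasing events no open path of the
full configuration from `ball g ρ` to `sphere g (3 ρ)` (close more edges), each of probability at
least `c'` by `noarm_lower`; use `fkg_decr_many`.  The cardinality of `G` is bounded by `M`.
-/

open MeasureTheory ProbabilityTheory unitInterval

namespace Pool.Agent.H59.EX

open Pool.Agent.H89.Perc Pool.Agent.H61.NC

end Pool.Agent.H59.EX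

end

section

/-!
# Outward separation: stage 2
-/

open MeasureTheory ProbabilityTheory unitInterval

namespace Pool.Agent.H59.EX

open Pool.Agent.H89.Perc Pool.Agent.H61.NC

end Pool.Agent.H59.EX

end

section

/-!
# The corridor lemma with an arbitrary finite edge set
-/

open MeasureTheory ProbabilityTheory unitInterval

namespace Pool.Agent.H59.EX

open Pool.Agent.H89.Perc

end Pool.Agent.H59.EX

end

section

/-!
# Separated four arms on the torus: definitions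

The torus of side `N` is `ℤ²` with the periodic configuration `per N ω = pb (modE N) ω`.  The source
edge is `(0, 0, d)`; the first point `(0, 0)` has its mouth in the west, the second point in the
east.  The corridor is the horizontal strip `[28 k, N - 28 k] × [-3 k, 3 k]` from the east target to
the translate by `(N, 0)` of the west target.
-/

open MeasureTheory ProbabilityTheory unitInterval

namespace Pool.Agent.H26.ST

open Pool.Agent.H89.Perc Pool.Agent.H61.NC Pool.Agent.H59.EX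

end Pool.Agent.H26.ST

end

section

/-!
# The sausages `Y ∪ corridor ∪ (X + (N, 0))` and their translates are far apart
-/

open MeasureTheory ProbabilityTheory unitInterval

namespace Pool.Agent.H26.ST

open Pool.Agent.H89.Perc Pool.Agent.H61.NC Pool.Agent.H59.EX

end Pool.Agent.H26.ST

end

section

/-!
# With the source edge open there is a winding path
-/

open MeasureTheory ProbabilityTheory unitInterval

namespace Pool.Agent.H26.ST

open Pool.Agent.H89.Perc Pool.Agent.H61.NC Pool.Agent.H59.EX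

end Pool.Agent.H26.ST

end
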