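import Pool.Agent.H94.BG.H31.PT.M04_1
import Pool.Agent.H94.BG.H31.PT.M06
import Pool.Agent.H94.BG.H31.PT.M09

/-! The parts of this file: H61.NC.Det, H61.NC.Pair, H61.NC.TSym, H57.EX.Nets, H59.EX.Sym, H59.EX.St1, H59.EX.GeoSep, H59.EX.St3, H59.EX.Bad. -/

section

/-!
# A pivotal edge for the winding event has four arms
-/

open MeasureTheory ProbabilityTheory unitInterval

namespace Pool.Agent.H61.NC

open Pool.Agent.H89.Perc

private lemma Det_per_shift {N : ℕ} (η : Config) (a b : ℤ) {u v : Vert}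
    (h : Conn (per N η) Set.univ u v) :
    Conn (per N η) Set.univ (u.1 + a * N, u.2 + b * N) (v.1 + a * N, v.2 + b * N) := by
  have h1 := conn_shift (ω := per N η) (a * N, b * N) Set.univ u v
  have h2 : (fun e => per N η (shiftE (a * N, b * N) e)) = per N η := by
    funext e
    simp only [per, shiftE]
    rw [Int.add_mul_emod_self_right, Int.add_mul_emod_self_right]
  rw [h2] at h1
  exact (h1.1 h).mono_set (Set.subset_univ _)

/-- Contraction of the translates of a small cluster. -/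
private lemma Det_core {N r : ℕ} (hN : 2 * r + 2 ≤ N) (x p q : Vert)
    (η0 η1 : Config)
    (hper : ∀ (a b : ℤ) (u v : Vert), Conn η0 Set.univ u v →
      Conn η0 Set.univ (u.1 + a * N, u.2 + b * N) (v.1 + a * N, v.2 + b * N))
    (hstep : ∀ v v' : Vert, Step η1 Set.univ v v' → Step η0 Set.univ v v' ∨ ∃ a b : ℤ,
      (v = (p.1 + a * N, p.2 + b * N) ∧ v' = (q.1 + a * N, q.2 + b * N)) ∨
      (v = (q.1 + a * N, q.2 + b * N) ∧ v' = (p.1 + a * N, p.2 + b * N)))
    (hq : |q.1 - x.1| ≤ 1 ∧ |q.2 - x.2| ≤ 1) (hpq : ¬ Conn η0 Set.univ p q)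
    (hC : ∀ v : Vert, Conn η0 Set.univ p v → |v.1 - x.1| ≤ r ∧ |v.2 - x.2| ≤ r)
    (u : Vert) (a b : ℤ) (h : Conn η1 Set.univ u (u.1 + a * N, u.2 + b * N)) :
    ∃ u' : Vert, Conn η0 Set.univ u' (u'.1 + a * N, u'.2 + b * N) := by
  classical
  have hN' : (2 * r + 2 : ℤ) ≤ N := by exact_mod_cast hN
  -- membership in the translate of the cluster
  obtain ⟨Cl, hCl⟩ : ∃ Cl : ℤ → ℤ → Vert → Prop, ∀ a b v, Cl a b v ↔
      Conn η0 Set.univ p (v.1 - a * N, v.2 - b * N) := ⟨_, fun _ _ _ => Iff.rfl⟩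
  have hmul : ∀ c : ℤ, |c * N| < N → c = 0 := by
    intro c hc
    by_contra h0
    have h1 : 1 ≤ |c| := Int.one_le_abs h0
    rw [abs_mul, abs_of_nonneg (by omega : (0 : ℤ) ≤ N)] at hc
    nlinarith
  have huniq : ∀ a b a' b' v, Cl a b v → Cl a' b' v → a = a' ∧ b = b' := by
    intro a b a' b' v h1 h2
    have h3 := hC _ ((hCl _ _ _).1 h1)
    have h4 := hC _ ((hCl _ _ _).1 h2)
    simp only at h3 h4
    have h5 : a - a' = 0 := by
      apply hmul
      have e1 : (a - a') * N = (v.1 - a' * N - x.1) - (v.1 - a * N - x.1) := by ring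
      rw [e1]
      have := abs_sub (v.1 - a' * N - x.1) (v.1 - a * N - x.1)
      omega
    have h6 : b - b' = 0 := by
      apply hmul
      have e1 : (b - b') * N = (v.2 - b' * N - x.2) - (v.2 - b * N - x.2) := by ring
      rw [e1]
      have := abs_sub (v.2 - b' * N - x.2) (v.2 - b * N - x.2)
      omega
    exact ⟨by omega, by omega⟩
  have hshift : ∀ a b c d v, Cl a b v → Cl (a + c) (b + d) (v.1 + c * N, v.2 + d * N) := by
    intro a b c d v h1
    rw [hCl] at h1 ⊢
    have e1 : ((v.1 + c * N - (a + c) * N, v.2 + d * N - (b + d) * N) : Vert) =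
        (v.1 - a * N, v.2 - b * N) := by
      ext <;> (simp only; ring)
    simp only at e1 ⊢
    rw [e1]
    exact h1
  have hqC : ∀ a b c d, ¬ Cl a b (q.1 + c * N, q.2 + d * N) := by
    intro a b c d h1
    rw [hCl] at h1
    have h3 := hC _ h1
    simp only at h3
    have h5 : c - a = 0 := by
      apply hmul
      have e1 : (c - a) * N = (q.1 + c * N - a * N - x.1) - (q.1 - x.1) := by ring
      rw [e1]
      have := abs_sub (q.1 + c * N - a * N - x.1) (q.1 - x.1)
      omega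
    have h6 : d - b = 0 := by
      apply hmul
      have e1 : (d - b) * N = (q.2 + d * N - b * N - x.2) - (q.2 - x.2) := by ring
      rw [e1]
      have := abs_sub (q.2 + d * N - b * N - x.2) (q.2 - x.2)
      omega
    have h7 : c = a := by omega
    have h8 : d = b := by omega
    subst h7 h8
    apply hpq
    have e1 : ((q.1 + c * N - c * N, q.2 + d * N - d * N) : Vert) = q := by
      ext <;> (simp only; ring)
    simp only at h1
    rw [e1] at h1
    exact h1
  have hpC : ∀ c d, Cl c d (p.1 + c * N, p.2 + d * N) := by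
    intro c d
    rw [hCl]
    have e1 : ((p.1 + c * N - c * N, p.2 + d * N - d * N) : Vert) = p := by
      ext <;> (simp only; ring)
    simp only
    rw [e1]
    exact Conn.refl (Set.mem_univ _)
  -- closure under steps
  have hclose : ∀ a b v v', Step η0 Set.univ v v' → Cl a b v → Cl a b v' := by
    intro a b v v' h1 h2
    rw [hCl] at h2 ⊢
    have h3 := hper (-a) (-b) v v' h1.conn
    have e1 : ∀ w : Vert, ((w.1 + -a * N, w.2 + -b * N) : Vert) = (w.1 - a * N, w.2 - b * N) := by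
      intro w
      ext <;> (simp only; ring)
    rw [e1, e1] at h3
    exact h2.trans h3
  obtain ⟨g, hg⟩ : ∃ g : Vert → Vert, g = fun v => if h : ∃ c : ℤ × ℤ, Cl c.1 c.2 v then
      (q.1 + h.choose.1 * N, q.2 + h.choose.2 * N) else v := ⟨_, rfl⟩
  have hg1 : ∀ a b v, Cl a b v → g v = (q.1 + a * N, q.2 + b * N) := by
    intro a b v h1
    have h2 : ∃ c : ℤ × ℤ, Cl c.1 c.2 v := ⟨(a, b), h1⟩
    rw [hg]
    simp only
    rw [dif_pos h2]
    obtain ⟨h3, h4⟩ := huniq _ _ _ _ v h2.choose_spec h1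
    rw [h3, h4]
  have hg2 : ∀ v, (∀ a b, ¬ Cl a b v) → g v = v := by
    intro v h1
    have h2 : ¬ ∃ c : ℤ × ℤ, Cl c.1 c.2 v := by
      rintro ⟨c, hc⟩
      exact h1 _ _ hc
    rw [hg]
    simp only
    rw [dif_neg h2]
  have hg3 : ∀ v c d, g (v.1 + c * N, v.2 + d * N) = ((g v).1 + c * N, (g v).2 + d * N) := by
    intro v c d
    by_cases h1 : ∃ c : ℤ × ℤ, Cl c.1 c.2 v
    · obtain ⟨k, hk⟩ := h1
      rw [hg1 _ _ v hk, hg1 _ _ _ (hshift k.1 k.2 c d v hk)]
      ext <;> (simp only; ring)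
    · have h2 : ∀ a b, ¬ Cl a b v := fun a b h => h1 ⟨(a, b), h⟩
      rw [hg2 v h2, hg2]
      intro a b h3
      have h4 := hshift a b (-c) (-d) _ h3
      have e1 : (((v.1 + c * N) + -c * N, (v.2 + d * N) + -d * N) : Vert) = v := by
        ext <;> (simp only; ring)
      simp only at h4
      rw [e1] at h4
      exact h2 _ _ h4
  refine ⟨g u, ?_⟩
  rw [← hg3]
  refine h.induction_right (P := fun v => Conn η0 Set.univ (g u) (g v))
    (Conn.refl (Set.mem_univ _)) ?_
  intro v v' _ hvv hv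
  rcases hstep v v' hvv with h1 | ⟨c, d, h1 | h1⟩
  · by_cases h2 : ∃ c : ℤ × ℤ, Cl c.1 c.2 v
    · obtain ⟨k, hk⟩ := h2
      rw [hg1 _ _ v hk] at hv
      rw [hg1 _ _ v' (hclose _ _ _ _ h1 hk)]
      exact hv
    · have h3 : ∀ a b, ¬ Cl a b v := fun a b h => h2 ⟨(a, b), h⟩
      have h4 : ∀ a b, ¬ Cl a b v' := fun a b h => h3 a b (hclose _ _ _ _ h1.symm h)
      rw [hg2 v h3] at hv
      rw [hg2 v' h4]
      exact hv.tail h1
  · obtain ⟨h2, h3⟩ := h1
    rw [h2, hg1 _ _ _ (hpC c d)] at hv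
    rw [h3, hg2 _ fun a b => hqC a b c d]
    exact hv
  · obtain ⟨h2, h3⟩ := h1
    rw [h2, hg2 _ fun a b => hqC a b c d] at hv
    rw [h3, hg1 _ _ _ (hpC c d)]
    exact hv

/-- If the edge `e` is pivotal for the winding event then the four-arm event of `e` occurs (on the
universal cover, i.e. for the periodic configuration). -/
theorem A4T_of_pivot {N : ℕ} {e : Edge} (he : e ∈ tEdges N) {r : ℕ} (hr : 1 ≤ r)
    (hN : 2 * r + 2 ≤ N) {ω : Config} (h1 : Function.update ω e true ∈ Wind N)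
    (h2 : Function.update ω e false ∉ Wind N) : ω ∈ A4T N e r := by
  have hN' : (2 * r + 2 : ℤ) ≤ N := by exact_mod_cast hN
  have hte : 0 ≤ e.1 ∧ e.1 < N ∧ 0 ≤ e.2.1 ∧ e.2.1 < N := by
    simp only [tEdges, Finset.mem_product, Finset.mem_Ico, Finset.mem_univ, and_true] at he
    tauto
  have hmod : modE N e = e := by
    obtain ⟨x, y, c⟩ := e
    simp only [modE]
    simp only at hte
    rw [Int.emod_eq_of_lt hte.1 hte.2.1, Int.emod_eq_of_lt hte.2.2.1 hte.2.2.2]
  obtain ⟨η0, hη0⟩ : ∃ η0, η0 = per N (Function.update ω e false) := ⟨_, rfl⟩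
  obtain ⟨η1, hη1⟩ : ∃ η1, η1 = per N (Function.update ω e true) := ⟨_, rfl⟩
  -- edges which are translates of `e`
  have htr : ∀ f : Edge, modE N f = e → ∃ a b : ℤ, f = shiftE (a * N, b * N) e := by
    intro f hf
    refine ⟨f.1 / N, f.2.1 / N, ?_⟩
    rw [← hf]
    obtain ⟨x, y, c⟩ := f
    simp only [modE, shiftE]
    rw [Int.emod_add_ediv_mul, Int.emod_add_ediv_mul]
  have hη0f : ∀ f : Edge, η0 f = if modE N f = e then false else per N ω f := by
    intro f
    rw [hη0]
    unfold per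
    rw [Function.update_apply]
    rfl
  have hη1f : ∀ f : Edge, η1 f = if modE N f = e then true else per N ω f := by
    intro f
    rw [hη1]
    unfold per
    rw [Function.update_apply]
    rfl
  have hper : ∀ (a b : ℤ) (u v : Vert), Conn η0 Set.univ u v →
      Conn η0 Set.univ (u.1 + a * N, u.2 + b * N) (v.1 + a * N, v.2 + b * N) := by
    intro a b u v h
    rw [hη0] at h ⊢
    exact Det_per_shift _ a b h
  have hstep : ∀ v v' : Vert, Step η1 Set.univ v v' → Step η0 Set.univ v v' ∨ ∃ a b : ℤ,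
      (v = ((src e).1 + a * N, (src e).2 + b * N) ∧ v' = ((tgt e).1 + a * N, (tgt e).2 + b * N)) ∨
      (v = ((tgt e).1 + a * N, (tgt e).2 + b * N) ∧
        v' = ((src e).1 + a * N, (src e).2 + b * N)) := by
    rintro v v' ⟨-, -, f, hf, hfo⟩
    by_cases hfe : modE N f = e
    · right
      obtain ⟨a, b, hab⟩ := htr f hfe
      refine ⟨a, b, ?_⟩
      have h3 := joins_shift (a * N, b * N) (joins_src_tgt e)
      rw [← hab] at h3
      rcases hf with ⟨g1, g2⟩ | ⟨g1, g2⟩ <;> rcases h3 with ⟨g3, g4⟩ | ⟨g3, g4⟩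
      · left
        exact ⟨g1.trans g3.symm, g2.trans g4.symm⟩
      · right
        exact ⟨g1.trans g4.symm, g2.trans g3.symm⟩
      · right
        exact ⟨g1.trans g4.symm, g2.trans g3.symm⟩
      · left
        exact ⟨g1.trans g3.symm, g2.trans g4.symm⟩
    · left
      refine ⟨Set.mem_univ _, Set.mem_univ _, f, hf, ?_⟩
      rw [hη1f, if_neg hfe] at hfo
      rw [hη0f, if_neg hfe]
      exact hfo
  -- the configurations agree inside the ball
  have hball : ∀ f : Edge, src f ∈ ball (src e) r → tgt f ∈ ball (src e) r →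
      close e (per N ω) f = η0 f := by
    intro f hf _
    rw [hη0f]
    unfold close
    by_cases hfe : f = e
    · rw [hfe, Function.update_self, hmod, if_pos rfl]
    · rw [Function.update_of_ne hfe]
      have h3 : modE N f ≠ e := by
        intro h
        obtain ⟨a, b, hab⟩ := htr f h
        apply hfe
        rw [hab] at hf ⊢
        obtain ⟨x, y, c⟩ := e
        simp only [mem_ball, src, shiftE] at hf ⊢
        have ha : a = 0 := by
          by_contra h0
          rcases lt_or_gt_of_ne h0 with h0 | h0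
          · have : a * N ≤ -1 * N := mul_le_mul_of_nonneg_right (by omega) (by omega)
            omega
          · have : 1 * N ≤ a * N := mul_le_mul_of_nonneg_right (by omega) (by omega)
            omega
        have hb : b = 0 := by
          by_contra h0
          rcases lt_or_gt_of_ne h0 with h0 | h0
          · have : b * N ≤ -1 * N := mul_le_mul_of_nonneg_right (by omega) (by omega)
            omega
          · have : 1 * N ≤ b * N := mul_le_mul_of_nonneg_right (by omega) (by omega)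
            omega
        rw [ha, hb]
        simp
      rw [if_neg h3]
  obtain ⟨u, a, b, ha, hu⟩ := h1
  rw [← hη1] at hu
  have hnot : ∀ u' : Vert, ¬ Conn η0 Set.univ u' (u'.1 + a * N, u'.2 + b * N) := by
    intro u' h
    rw [hη0] at h
    exact h2 ⟨u', a, b, ha, h⟩
  -- the two ends are not joined
  have hxy : ¬ Conn η0 Set.univ (src e) (tgt e) := by
    intro h
    apply hnot u
    refine hu.induction_right (P := fun v => Conn η0 Set.univ u v)
      (Conn.refl (Set.mem_univ _)) ?_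
    intro v v' _ hvv hv
    rcases hstep v v' hvv with h3 | ⟨c, d, h3 | h3⟩
    · exact hv.tail h3
    · rw [h3.1] at hv
      rw [h3.2]
      exact hv.trans (hper c d _ _ h)
    · rw [h3.1] at hv
      rw [h3.2]
      exact hv.trans (hper c d _ _ h.symm)
  have htgt : |(tgt e).1 - (src e).1| ≤ 1 ∧ |(tgt e).2 - (src e).2| ≤ 1 := by
    obtain ⟨x, y, c⟩ := e
    cases c
    · simp [src, tgt]
    · simp [src, tgt]
  have htb : tgt e ∈ ball (src e) r := by
    have h3 := abs_le.1 htgt.1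
    have h4 := abs_le.1 htgt.2
    rw [mem_ball]
    omega
  -- a point of the ball with no arm has a small cluster
  have hsmall : ∀ p : Vert, p ∈ ball (src e) r →
      (¬ ∃ u ∈ sphere (src e) r, Conn (close e (per N ω)) (ball (src e) r) p u) →
      ∀ v : Vert, Conn η0 Set.univ p v → |v.1 - (src e).1| ≤ r ∧ |v.2 - (src e).2| ≤ r := by
    intro p hp hno v hv
    by_contra hcon
    have h3 : v ∉ ball (src e) r := by
      intro h
      apply hcon
      rw [mem_ball] at h
      rw [abs_le, abs_le]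
      omega
    obtain ⟨w, hw, hc⟩ := hv.to_sphere hp (Or.inl h3)
    apply hno
    refine ⟨w, hw, ?_⟩
    have h4 := hc.mono_set (T := ball (src e) r) Set.inter_subset_right
    exact h4.congr fun f hf1 hf2 => (hball f hf1 hf2).symm
  refine ⟨?_, ?_, ?_⟩
  · by_contra hno
    obtain ⟨u', hu'⟩ := Det_core hN (src e) (src e) (tgt e) η0 η1 hper hstep htgt hxy
      (hsmall (src e) self_mem_ball hno) u a b hu
    exact hnot u' hu'
  · by_contra hno
    obtain ⟨u', hu'⟩ := Det_core hN (src e) (tgt e) (src e) η0 η1 hper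
      (fun v v' h => by
        rcases hstep v v' h with h3 | ⟨c, d, h3 | h3⟩
        · exact Or.inl h3
        · exact Or.inr ⟨c, d, Or.inr h3⟩
        · exact Or.inr ⟨c, d, Or.inl h3⟩)
      (by simp) (fun h => hxy h.symm)
      (hsmall (tgt e) htb hno) u a b hu
    exact hnot u' hu'
  · intro h
    exact hxy ((h.congr hball).mono_set (Set.subset_univ _))

end Pool.Agent.H61.NC

end

section

/-!
# Pairs of edges of the torus
-/

open MeasureTheory ProbabilityTheory unitInterval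

namespace Pool.Agent.H61.NC

open Pool.Agent.H89.Perc

/-- Distance from an edge of the torus to the middle. -/
def dist0 (N : ℕ) (f : Edge) : ℕ := max (f.1 - mid N).natAbs (f.2.1 - mid N).natAbs

private lemma Pair_mem_eRect {a b c d : ℤ} {e : Edge} :
    e ∈ eRect a b c d ↔ (a ≤ e.1 ∧ e.1 ≤ b) ∧ (c ≤ e.2.1 ∧ e.2.1 ≤ d) := by
  simp only [eRect, Finset.mem_product, Finset.mem_Icc, Finset.mem_univ, and_true]

private lemma Pair_mem_tEdges {N : ℕ} {e : Edge} :
    e ∈ tEdges N ↔ (0 ≤ e.1 ∧ e.1 < N) ∧ (0 ≤ e.2.1 ∧ e.2.1 < N) := by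
  simp only [tEdges, Finset.mem_product, Finset.mem_Ico, Finset.mem_univ, and_true]

/-- The edges on which the four-arm event of `f` depends. -/
private noncomputable def PairS (N : ℕ) (f : Edge) (r : ℕ) : Finset Edge :=
  (eRect (f.1 - r) (f.1 + r) (f.2.1 - r) (f.2.1 + r)).image (modE N)

private lemma Pair_modE {N : ℕ} {e : Edge} (he : e ∈ tEdges N) : modE N e = e := by
  rw [Pair_mem_tEdges] at he
  obtain ⟨x, y, t⟩ := e
  simp only at he
  simp only [modE]
  rw [Int.emod_eq_of_lt he.1.1 he.1.2, Int.emod_eq_of_lt he.2.1 he.2.2]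

private lemma Pair_self {N : ℕ} {f : Edge} (hf : f ∈ tEdges N) (r : ℕ) : f ∈ PairS N f r := by
  unfold PairS
  rw [Finset.mem_image]
  refine ⟨f, ?_, Pair_modE hf⟩
  rw [Pair_mem_eRect]
  omega

private lemma Pair_ctr {N : ℕ} (hN : 1 ≤ N) (d : Bool) : ctr N d ∈ tEdges N := by
  rw [Pair_mem_tEdges]
  simp only [ctr, mid]
  omega

private lemma Pair_one_dim {N ρ : ℕ} {x u v : ℤ} (hx0 : 0 ≤ x) (hxN : x < N)
    (hu : (N : ℤ) / 2 - ρ ≤ u ∧ u ≤ (N : ℤ) / 2 + ρ) (hv : x - ρ ≤ v ∧ v ≤ x + ρ)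
    (h : u % (N : ℤ) = v % N) : (x - (N : ℤ) / 2).natAbs ≤ 2 * ρ := by
  have h1 : (N : ℤ) ∣ v - u := by
    have h2 : u ≡ v [ZMOD N] := h
    exact h2.dvd
  obtain ⟨k, hk⟩ := h1
  rcases lt_trichotomy k 0 with h3 | h3 | h3
  · have h4 : (N : ℤ) * k ≤ -N := by nlinarith only [h3, Int.natCast_nonneg N]
    omega
  · subst h3
    rw [mul_zero] at hk
    omega
  · have h4 : (N : ℤ) ≤ N * k := by nlinarith only [h3, Int.natCast_nonneg N]
    omega

private lemma Pair_disj {N ρ : ℕ} {d : Bool} {f : Edge} (hf : f ∈ tEdges N)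
    (h2 : 2 * ρ < dist0 N f) : Disjoint (PairS N (ctr N d) ρ) (PairS N f ρ) := by
  rw [Finset.disjoint_left]
  intro x hx hx'
  unfold PairS at hx hx'
  rw [Finset.mem_image] at hx hx'
  obtain ⟨e1, he1, hx1⟩ := hx
  obtain ⟨e2, he2, hx2⟩ := hx'
  rw [Pair_mem_eRect] at he1 he2
  rw [Pair_mem_tEdges] at hf
  have h3 : modE N e1 = modE N e2 := hx1.trans hx2.symm
  simp only [modE, Prod.mk.injEq] at h3
  simp only [ctr, mid] at he1
  unfold dist0 at h2
  simp only [mid] at h2
  have g1 := Pair_one_dim hf.1.1 hf.1.2 he1.1 he2.1 h3.1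
  have g2 := Pair_one_dim hf.2.1 hf.2.2 he1.2 he2.2 h3.2.1
  rcases lt_max_iff.1 h2 with h | h
  · omega
  · omega

private lemma Pair_sub {N ρ R : ℕ} {f : Edge} (h3 : dist0 N f + ρ ≤ R) (h4 : 2 * R + 2 ≤ N) :
    PairS N f ρ ⊆ blk N R := by
  intro x hx
  unfold PairS at hx
  rw [Finset.mem_image] at hx
  obtain ⟨e, he, hx1⟩ := hx
  rw [Pair_mem_eRect] at he
  unfold dist0 mid at h3
  have h5 : (f.1 - (N : ℤ) / 2).natAbs + ρ ≤ R := by
    have := le_max_left (f.1 - (N : ℤ) / 2).natAbs (f.2.1 - (N : ℤ) / 2).natAbs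
    omega
  have h6 : (f.2.1 - (N : ℤ) / 2).natAbs + ρ ≤ R := by
    have := le_max_right (f.1 - (N : ℤ) / 2).natAbs (f.2.1 - (N : ℤ) / 2).natAbs
    omega
  have h7 : e ∈ tEdges N := by
    rw [Pair_mem_tEdges]
    omega
  rw [Pair_modE h7] at hx1
  rw [← hx1]
  unfold blk mid
  rw [Pair_mem_eRect]
  omega

private lemma Pair_dist_ctr (N : ℕ) (d : Bool) : dist0 N (ctr N d) = 0 := by
  simp [dist0, ctr]

private lemma Pair_fill_mem {s : Finset Edge} {b : Bool} {ω : Config} {e : Edge} (h : e ∈ s) :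
    fill s b ω e = b := by
  classical
  unfold fill
  rw [if_pos h]

private lemma Pair_fill_notMem {s : Finset Edge} {b : Bool} {ω : Config} {e : Edge}
    (h : e ∉ s) : fill s b ω e = ω e := by
  classical
  unfold fill
  rw [if_neg h]

/-- The block event depends only on the edges outside the block. -/
theorem localOn_BlockPiv {N : ℕ} (hN : 1 ≤ N) (R : ℕ) :
    LocalOn (tEdges N \ blk N R) (BlockPiv N R) := by
  intro ω ω' h hω
  have key : ∀ b, ∀ e ∈ tEdges N, fill (blk N R) b ω e = fill (blk N R) b ω' e := by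
    intro b e he
    by_cases hb : e ∈ blk N R
    · rw [Pair_fill_mem hb, Pair_fill_mem hb]
    · rw [Pair_fill_notMem hb, Pair_fill_notMem hb]
      exact h e (Finset.mem_sdiff.2 ⟨he, hb⟩)
  exact ⟨localOn_wind hN _ _ (key true) hω.1,
    fun h' => hω.2 (localOn_wind hN _ _ (fun e he => (key false e he).symm) h')⟩

private lemma Pair_ne {N ρ : ℕ} {d : Bool} {f : Edge} (h2 : 2 * ρ < dist0 N f) :
    ctr N d ≠ f := by
  rintro rfl
  rw [Pair_dist_ctr] at h2
  omega

private lemma Pair_localS (N : ℕ) (f : Edge) (r : ℕ) : LocalOn (PairS N f r) (A4T N f r) :=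
  localOn_A4T N f r

/-- On the joint event both edges have four arms. -/
private lemma Pair_joint_sub {N ρ : ℕ} {d : Bool} {f : Edge} (hf : f ∈ tEdges N)
    (h1 : 1 ≤ ρ) (h2 : 2 * ρ < dist0 N f) (h3 : 2 * ρ + 2 ≤ N) :
    Joint (Wind N) (ctr N d) f ⊆ A4T N (ctr N d) ρ ∩ A4T N f ρ := by
  intro ω hω
  have hc : ctr N d ∈ tEdges N := Pair_ctr (by omega) d
  have hdis := Pair_disj (d := d) hf h2
  obtain ⟨⟨b, hb1, hb2⟩, ⟨b', hb1', hb2'⟩⟩ := Joint_piv (incr_wind N) (Pair_ne h2) hω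
  constructor
  · have g := A4T_of_pivot hc h1 h3 hb1 hb2
    refine Pair_localS N (ctr N d) ρ _ _ (fun e he => ?_) g
    rw [Function.update_of_ne]
    rintro rfl
    exact Finset.disjoint_left.1 hdis he (Pair_self hf ρ)
  · have g := A4T_of_pivot hf h1 h3 hb1' hb2'
    refine Pair_localS N f ρ _ _ (fun e he => ?_) g
    rw [Function.update_of_ne]
    rintro rfl
    exact Finset.disjoint_left.1 hdis (Pair_self hc ρ) he

/-- On the joint event a block which contains both edges is pivotal. -/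
private lemma Pair_joint_blk {N R : ℕ} {e f : Edge} (hef : e ≠ f) (he : e ∈ blk N R)
    (hf : f ∈ blk N R) : Joint (Wind N) e f ⊆ BlockPiv N R := by
  intro ω hω
  obtain ⟨⟨b, hb1, hb2⟩, -⟩ := Joint_piv (incr_wind N) hef hω
  constructor
  · refine incr_wind N _ _ (fun x hx => ?_) hb1
    by_cases hxb : x ∈ blk N R
    · exact Pair_fill_mem hxb
    · rw [Pair_fill_notMem hxb]
      have n1 : x ≠ e := by
        rintro rfl
        exact hxb he
      have n2 : x ≠ f := by
        rintro rfl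
        exact hxb hf
      rwa [Function.update_of_ne n1, Function.update_of_ne n2] at hx
  · intro h
    refine hb2 (incr_wind N _ _ (fun x hx => ?_) h)
    by_cases hxb : x ∈ blk N R
    · rw [Pair_fill_mem hxb] at hx
      exact absurd hx (by decide)
    · rw [Pair_fill_notMem hxb] at hx
      have n1 : x ≠ e := by
        rintro rfl
        exact hxb he
      have n2 : x ≠ f := by
        rintro rfl
        exact hxb hf
      rwa [Function.update_of_ne n1, Function.update_of_ne n2]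

private lemma Pair_prob (q : I) {N ρ : ℕ} {d : Bool} {f : Edge} (hf : f ∈ tEdges N)
    (h2 : 2 * ρ < dist0 N f) (h3 : 2 * ρ + 2 ≤ N) :
    Pr q (A4T N (ctr N d) ρ ∩ A4T N f ρ) = a4 q ρ ^ 2 := by
  rw [Pr_inter_of_disjoint (Pair_localS N _ ρ) (Pair_localS N _ ρ) (Pair_disj hf h2),
    Pr_A4T q (Pair_ctr (by omega) d) (by omega), Pr_A4T q hf (by omega), sq]

theorem Pr_joint_near (q : I) {N ρ R : ℕ} {d : Bool} {f : Edge} (hf : f ∈ tEdges N)
    (h1 : 1 ≤ ρ) (h2 : 2 * ρ < dist0 N f) (h3 : dist0 N f + ρ ≤ R) (h4 : 2 * R + 2 ≤ N) :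
    Pr q (Joint (Wind N) (ctr N d) f) ≤ a4 q ρ ^ 2 * Pr q (BlockPiv N R) := by
  have hρ : 2 * ρ + 2 ≤ N := by omega
  have s1 : PairS N f ρ ⊆ blk N R := Pair_sub h3 h4
  have s2 : PairS N (ctr N d) ρ ⊆ blk N R := Pair_sub (by rw [Pair_dist_ctr]; omega) h4
  have hc : ctr N d ∈ tEdges N := Pair_ctr (by omega) d
  have hsub : Joint (Wind N) (ctr N d) f ⊆
      (A4T N (ctr N d) ρ ∩ A4T N f ρ) ∩ BlockPiv N R :=
    Set.subset_inter (Pair_joint_sub hf h1 h2 hρ)
      (Pair_joint_blk (Pair_ne h2) (s2 (Pair_self hc ρ)) (s1 (Pair_self hf ρ)))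
  refine (Pr_mono hsub).trans ?_
  rw [Pr_inter_of_disjoint (LocalOn.inter' (Pair_localS N (ctr N d) ρ) (Pair_localS N f ρ))
    (localOn_BlockPiv (by omega) R) ?_, Pair_prob q hf h2 hρ]
  rw [Finset.disjoint_left]
  intro x hx hx'
  rw [Finset.mem_sdiff] at hx'
  rcases Finset.mem_union.1 hx with h | h
  · exact hx'.2 (s2 h)
  · exact hx'.2 (s1 h)

theorem Pr_joint_far (q : I) {N ρ : ℕ} {d : Bool} {f : Edge} (hf : f ∈ tEdges N)
    (h1 : 1 ≤ ρ) (h2 : 2 * ρ < dist0 N f) (h3 : 2 * ρ + 2 ≤ N) :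
    Pr q (Joint (Wind N) (ctr N d) f) ≤ a4 q ρ ^ 2 :=
  (Pr_mono (Pair_joint_sub hf h1 h2 h3)).trans (Pair_prob q hf h2 h3).le

end Pool.Agent.H61.NC

end

section

/-!
# Translation invariance on the torus: sums over pairs of edges
-/

open MeasureTheory ProbabilityTheory unitInterval

namespace Pool.Agent.H61.NC

open Pool.Agent.H89.Perc

theorem sT_nonneg (q : I) (N : ℕ) (d : Bool) : 0 ≤ sT q N d := by
  unfold sT pivot
  rw [sub_nonneg]
  refine Pr_mono ?_
  intro ω hω
  refine incr_wind N _ _ ?_ hω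
  intro e he
  by_cases h : e = ctr N d
  · subst h; simp
  · rw [Function.update_of_ne h] at he ⊢
    exact he

end Pool.Agent.H61.NC

end

section

/-!
# Nets of spheres and grids of balls
-/

open MeasureTheory ProbabilityTheory unitInterval

namespace Pool.Agent.H57.EX

open Pool.Agent.H89.Perc Pool.Agent.H61.NC Pool.Agent.H29.Sep

end Pool.Agent.H57.EX

end

section

/-!
# Symmetries of the separated events, sum over sides
-/

open MeasureTheory ProbabilityTheory unitInterval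

namespace Pool.Agent.H59.EX

open Pool.Agent.H89.Perc Pool.Agent.H61.NC

deriving instance Fintype for Side

/-- Generators of the symmetry group of the square. -/
inductive Gen
  | sw | rx | ry
  deriving DecidableEq, Fintype

/-- Action on the vertices. -/
def Gen.v : Gen → Vert → Vert
  | .sw, a => (a.2, a.1)
  | .rx, a => (-a.1, a.2)
  | .ry, a => (a.1, -a.2)

/-- Action on the edges. -/
def Gen.e : Gen → Edge → Edge
  | .sw => swapE
  | .rx => reflX 0
  | .ry => reflY 0

/-- Action on the sides. -/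
def Gen.s : Gen → Side → Side
  | .sw, .E => .N
  | .sw, .N => .E
  | .sw, .W => .S
  | .sw, .S => .W
  | .rx, .E => .W
  | .rx, .W => .E
  | .rx, .N => .N
  | .rx, .S => .S
  | .ry, .E => .E
  | .ry, .W => .W
  | .ry, .N => .S
  | .ry, .S => .N

theorem Gen.v_v (g : Gen) (a : Vert) : g.v (g.v a) = a := by
  cases g <;> simp [Gen.v]

theorem Gen.e_e (g : Gen) (e : Edge) : g.e (g.e e) = e := by
  cases g
  · exact swapE_swapE e
  · exact reflX_reflX 0 e
  · exact reflY_reflY 0 e

theorem Gen.s_s (g : Gen) (d : Side) : g.s (g.s d) = d := by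
  cases g <;> cases d <;> rfl

theorem Gen.mem_ball (g : Gen) (r : ℕ) (a : Vert) : g.v a ∈ ball 0 r ↔ a ∈ ball 0 r := by
  cases g <;>
    simp only [Gen.v, Pool.Agent.H89.Perc.mem_ball, Prod.fst_zero, Prod.snd_zero] <;> omega

private theorem sym_joins (g : Gen) (e : Edge) (a b : Vert) (h : Joins e a b) :
    Joins (g.e e) (g.v a) (g.v b) := by
  cases g
  · exact joins_swap e a b h
  · have := joins_reflX 0 e a b h
    rw [zero_sub, zero_sub] at this
    exact this
  · have := joins_reflY 0 e a b h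
    rw [zero_sub, zero_sub] at this
    exact this

private theorem sym_ends (g : Gen) (e : Edge) :
    (src (g.e e) = g.v (src e) ∧ tgt (g.e e) = g.v (tgt e)) ∨
      (src (g.e e) = g.v (tgt e) ∧ tgt (g.e e) = g.v (src e)) := by
  rcases sym_joins g e _ _ (joins_src_tgt e) with ⟨h1, h2⟩ | ⟨h1, h2⟩
  · exact Or.inl ⟨h1.symm, h2.symm⟩
  · exact Or.inr ⟨h2.symm, h1.symm⟩

theorem sym_inj (g : Gen) : Function.Injective g.e :=
  Function.LeftInverse.injective g.e_e

theorem Gen.src_tgt (g : Gen) (e : Edge) (r : ℕ) :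
    src e ∈ ball 0 r ∧ tgt e ∈ ball 0 r → src (g.e e) ∈ ball 0 r ∧ tgt (g.e e) ∈ ball 0 r := by
  rintro ⟨h1, h2⟩
  rcases sym_ends g e with ⟨h3, h4⟩ | ⟨h3, h4⟩
  · rw [h3, h4, g.mem_ball, g.mem_ball]
    exact ⟨h1, h2⟩
  · rw [h3, h4, g.mem_ball, g.mem_ball]
    exact ⟨h2, h1⟩

/-- The image of a source. -/
noncomputable def Src.map (g : Gen) (s : Src) : Src where
  x := g.v s.x
  y := g.v s.y
  E0 := s.E0.image g.e
  hx := (g.mem_ball 2 s.x).2 s.hx
  hy := (g.mem_ball 2 s.y).2 s.hy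
  hE := by
    intro e he
    obtain ⟨f, hf, rfl⟩ := Finset.mem_image.1 he
    exact g.src_tgt f 2 (s.hE f hf)

/-- Exchange the two points. -/
def Src.flip (s : Src) : Src := ⟨s.y, s.x, s.E0, s.hy, s.hx, s.hE⟩

variable {q : I} {s : Src} {d d' : Side} {k r w : ℕ}

/-! ### The action on the constructions -/

theorem sym_cut (g : Gen) (s : Src) (ω : Config) :
    (s.map g).cut (fun e => ω (g.e e)) = fun e => s.cut ω (g.e e) := by
  funext e
  have h : e ∈ ((s.map g).E0 : Set Edge) ↔ g.e e ∈ (s.E0 : Set Edge) := by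
    constructor
    · intro he
      obtain ⟨f, hf, rfl⟩ := Finset.mem_image.1 (Finset.mem_coe.1 he)
      rw [g.e_e]
      exact Finset.mem_coe.2 hf
    · intro he
      exact Finset.mem_coe.2 (Finset.mem_image.2 ⟨g.e e, Finset.mem_coe.1 he, g.e_e e⟩)
  rw [Bool.eq_iff_iff]
  unfold Src.cut
  rw [closeS_true, closeS_true, h]

private theorem sym_fill (g : Gen) (S : Set Vert) (η : Config) :
    fillV S (fun e => η (g.e e)) = fun e => fillV {w | g.v w ∈ S} η (g.e e) := by
  funext e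
  have h : e ∈ inE S ↔ g.e e ∈ inE {w | g.v w ∈ S} := by
    simp only [inE, Set.mem_ofPred_eq]
    rcases sym_ends g e with ⟨h3, h4⟩ | ⟨h3, h4⟩
    · rw [h3, h4, g.v_v, g.v_v]
    · rw [h3, h4, g.v_v, g.v_v]
      exact and_comm
  rw [Bool.eq_iff_iff, fillV_true, fillV_true, h]

private theorem sym_conn (g : Gen) (η : Config) (S : Set Vert) (u v : Vert) :
    Conn (fun e => η (g.e e)) S u v ↔ Conn η {w | g.v w ∈ S} (g.v u) (g.v v) :=
  conn_invol g.e_e g.v_v (sym_joins g) S u v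

theorem sym_conn' (g : Gen) (η : Config) (S : Set Vert) (u v : Vert) :
    Conn (fun e => η (g.e e)) S (g.v u) (g.v v) ↔ Conn η {w | g.v w ∈ S} u v := by
  rw [sym_conn, g.v_v, g.v_v]

private theorem sym_T (g : Gen) (d : Side) (k : ℕ) (w : Vert) :
    g.v w ∈ T (g.s d) k ↔ w ∈ T d k := by
  cases g <;> cases d <;> simp only [Gen.v, Gen.s, T, rect, Set.mem_ofPred_eq] <;> omega

private theorem sym_Mouth (g : Gen) (d : Side) (k : ℕ) (w : Vert) :
    g.v w ∈ Mouth (g.s d) k ↔ w ∈ Mouth d k := by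
  cases g <;> cases d <;> simp only [Gen.v, Gen.s, Mouth, rect, Set.mem_ofPred_eq] <;> omega

theorem sym_sphere (g : Gen) (r : ℕ) (a : Vert) : g.v a ∈ sphere 0 r ↔ a ∈ sphere 0 r := by
  have h := g.mem_ball r a
  unfold sphere
  simp only [Set.mem_ofPred_eq]
  rw [h]
  cases g <;> simp only [Gen.v, Prod.fst_zero, Prod.snd_zero] <;>
    refine and_congr_right fun _ => ?_ <;> omega

private theorem sym_T' (g : Gen) (d : Side) (k : ℕ) : {w | g.v w ∈ T (g.s d) k} = T d k := by
  ext w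
  exact sym_T g d k w

private theorem sym_TT (g : Gen) (d d' : Side) (k : ℕ) :
    {w | g.v w ∈ T (g.s d) k ∪ T (g.s d') k} = T d k ∪ T d' k := by
  ext w
  simp only [Set.mem_ofPred_eq, Set.mem_union, sym_T]

private theorem sym_dom (g : Gen) (d d' : Side) (k : ℕ) :
    {w | g.v w ∈ dom (g.s d) (g.s d') k} = dom d d' k := by
  ext w
  simp only [dom, Set.mem_ofPred_eq, Set.mem_union, sym_T, g.mem_ball]

/-- The two ends of a crossing of the target. -/
private def sym_E (d : Side) (k : ℕ) (u v : Vert) : Prop :=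
  match d with
  | .E => u.2 = -(3 * k) ∧ v.2 = 3 * k
  | .N => u.1 = -(3 * k) ∧ v.1 = 3 * k
  | .W => u.2 = -(3 * k) ∧ v.2 = 3 * k
  | .S => u.1 = -(3 * k) ∧ v.1 = 3 * k

private theorem sym_fence_iff {d : Side} {k : ℕ} {ω : Config} {D : Set Vert} {x : Vert} :
    Fence d k ω D x ↔ ∃ u v, sym_E d k u v ∧ Conn ω (T d k) u v ∧ Conn ω D x u := by
  cases d
  all_goals
    constructor
    · rintro ⟨u, v, h1, h2, h3, h4⟩
      exact ⟨u, v, ⟨h1, h2⟩, h3, h4⟩
    · rintro ⟨u, v, ⟨h1, h2⟩, h3, h4⟩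
      exact ⟨u, v, h1, h2, h3, h4⟩

private theorem sym_E_g (g : Gen) {d : Side} {k : ℕ} {u v : Vert} (h : sym_E d k u v) :
    sym_E (g.s d) k (g.v u) (g.v v) ∨ sym_E (g.s d) k (g.v v) (g.v u) := by
  cases g <;> cases d <;> simp only [sym_E, Gen.s, Gen.v] at h ⊢ <;> omega

private theorem sym_fence (g : Gen) {d : Side} {k : ℕ} {η : Config} {D : Set Vert} {x : Vert}
    (hT : T (g.s d) k ⊆ D) (h : Fence d k η {w | g.v w ∈ D} x) :
    Fence (g.s d) k (fun e => η (g.e e)) D (g.v x) := by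
  obtain ⟨u, v, h1, h2, h3⟩ := sym_fence_iff.1 h
  have h2' : Conn (fun e => η (g.e e)) (T (g.s d) k) (g.v u) (g.v v) := by
    rw [sym_conn', sym_T']
    exact h2
  have h3' : Conn (fun e => η (g.e e)) D (g.v x) (g.v u) := (sym_conn' g η D x u).2 h3
  rcases sym_E_g g h1 with h4 | h4
  · exact sym_fence_iff.2 ⟨_, _, h4, h2', h3'⟩
  · exact sym_fence_iff.2 ⟨_, _, h4, h2'.symm, h3'.trans (h2'.mono_set hT)⟩

theorem sym_map_map (g : Gen) (s : Src) : (s.map g).map g = s := by
  obtain ⟨x, y, E0, hx, hy, hE⟩ := s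
  simp only [Src.map, Src.mk.injEq]
  refine ⟨g.v_v x, g.v_v y, ?_⟩
  ext e
  simp only [Finset.mem_image]
  constructor
  · rintro ⟨f, ⟨f', hf', rfl⟩, rfl⟩
    rw [g.e_e]
    exact hf'
  · intro he
    exact ⟨g.e e, ⟨e, he, rfl⟩, g.e_e e⟩

private theorem sym_T_dom (d d' : Side) (k : ℕ) : T d k ⊆ dom d d' k := fun _ h =>
  Or.inr (Or.inl h)

private theorem sym_T_dom' (d d' : Side) (k : ℕ) : T d' k ⊆ dom d d' k := fun _ h =>
  Or.inr (Or.inr h)

private theorem sym_sep (g : Gen) {s : Src} {d d' : Side} {k : ℕ} {ω : Config}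
    (h : ω ∈ Sep s d d' k) :
    (fun e => ω (g.e e)) ∈ Sep (s.map g) (g.s d) (g.s d') k := by
  obtain ⟨h1, h2, h3, h4, h5⟩ := h
  have hx : (s.map g).x = g.v s.x := rfl
  have hy : (s.map g).y = g.v s.y := rfl
  refine ⟨?_, ?_, ?_, ?_, ?_⟩
  · rw [sym_cut, hx]
    refine sym_fence g (sym_T_dom _ _ k) ?_
    rw [sym_dom]
    exact h1
  · rw [sym_cut, hy]
    refine sym_fence g (sym_T_dom' _ _ k) ?_
    rw [sym_dom]
    exact h2
  · rw [sym_cut, sym_fill, sym_TT, hx, hy, sym_conn', sym_dom]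
    exact h3
  · intro v hv hc
    rw [sym_cut, sym_fill, sym_TT, hx, sym_conn, sym_dom, g.v_v] at hc
    have h6 := h4 (g.v v) ((sym_sphere g _ v).2 hv) hc
    rw [← sym_Mouth g, g.v_v] at h6
    exact h6
  · intro v hv hc
    rw [sym_cut, sym_fill, sym_TT, hy, sym_conn, sym_dom, g.v_v] at hc
    have h6 := h5 (g.v v) ((sym_sphere g _ v).2 hv) hc
    rw [← sym_Mouth g, g.v_v] at h6
    exact h6

theorem sym_cut_congr {s : Src} {ω ω' : Config} {e : Edge} (h : ω e = ω' e) :
    s.cut ω e = s.cut ω' e := by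
  unfold Src.cut closeS
  rw [h]

private theorem sym_fill_congr {s : Src} {Z : Set Vert} {ω ω' : Config} {e : Edge}
    (h : ω e = ω' e) : fillV Z (s.cut ω) e = fillV Z (s.cut ω') e := by
  unfold fillV
  rw [sym_cut_congr h]

theorem localOn_sep (s : Src) (d d' : Side) (k : ℕ) : ∃ Λ : Finset Edge, LocalOn Λ (Sep s d d' k) := by
  refine ⟨eRect (-(36 * k : ℕ)) (36 * k : ℕ) (-(36 * k : ℕ)) (36 * k : ℕ), ?_⟩
  have hT : ∀ d : Side, ∀ a ∈ T d k,
      a ∈ rect (-(36 * k : ℕ)) (36 * k : ℕ) (-(36 * k : ℕ)) (36 * k : ℕ) := by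
    intro d a ha
    cases d <;> simp only [T, rect, Set.mem_ofPred_eq] at ha ⊢ <;> omega
  have hdom : ∀ a ∈ dom d d' k,
      a ∈ rect (-(36 * k : ℕ)) (36 * k : ℕ) (-(36 * k : ℕ)) (36 * k : ℕ) := by
    rintro a (ha | ha | ha)
    · simp only [mem_ball, Prod.fst_zero, Prod.snd_zero] at ha
      simp only [rect, Set.mem_ofPred_eq]
      omega
    · exact hT d a ha
    · exact hT d' a ha
  have key : ∀ ω ω' : Config,
      (∀ e ∈ eRect (-(36 * k : ℕ)) (36 * k : ℕ) (-(36 * k : ℕ)) (36 * k : ℕ), ω e = ω' e) →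
      ∀ u v, Conn (fillV (T d k ∪ T d' k) (s.cut ω)) (dom d d' k) u v →
        Conn (fillV (T d k ∪ T d' k) (s.cut ω')) (dom d d' k) u v := fun ω ω' h u v hc =>
    hc.congr fun e h1 _ => sym_fill_congr (h e (mem_eRect.2 (hdom _ h1)))
  rintro ω ω' h ⟨h1, h2, h3, h4, h5⟩
  refine ⟨?_, ?_, fun hc => h3 (key ω' ω (fun e he => (h e he).symm) _ _ hc),
    fun v hv hc => h4 v hv (key ω' ω (fun e he => (h e he).symm) _ _ hc),
    fun v hv hc => h5 v hv (key ω' ω (fun e he => (h e he).symm) _ _ hc)⟩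
  · exact fence_congr (fun e he => sym_cut_congr (h e (mem_eRect.2 (hT _ _ he.1))))
      (fun e he => sym_cut_congr (h e (mem_eRect.2 (hdom _ he.1)))) h1
  · exact fence_congr (fun e he => sym_cut_congr (h e (mem_eRect.2 (hT _ _ he.1))))
      (fun e he => sym_cut_congr (h e (mem_eRect.2 (hdom _ he.1)))) h2

theorem sep_map (g : Gen) : Pr q (Sep (s.map g) (g.s d) (g.s d') k) = Pr q (Sep s d d' k) := by
  have key : ∀ (s : Src) (d d' : Side),
      Pr q (Sep s d d' k) ≤ Pr q (Sep (s.map g) (g.s d) (g.s d') k) := by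
    intro s d d'
    obtain ⟨Λ, hΛ⟩ := localOn_sep (s.map g) (g.s d) (g.s d') k
    rw [← Pr_comp hΛ (sym_inj g).injOn]
    exact Pr_mono fun ω hω => sym_sep g hω
  refine le_antisymm ?_ (key s d d')
  have h := key (s.map g) (g.s d) (g.s d')
  rw [sym_map_map, g.s_s, g.s_s] at h
  exact h

theorem sep_flip : Sep s.flip d' d k = Sep s d d' k := by
  have hdom : dom d' d k = dom d d' k := by
    unfold dom
    rw [Set.union_comm (T d' k)]
  have hT : T d' k ∪ T d k = T d k ∪ T d' k := Set.union_comm _ _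
  have hcut : ∀ ω, s.flip.cut ω = s.cut ω := fun _ => rfl
  ext ω
  unfold Sep
  simp only [Set.mem_ofPred_eq, hcut, hdom, hT]
  have h : Conn (fillV (T d k ∪ T d' k) (s.cut ω)) (dom d d' k) s.flip.x s.flip.y ↔
      Conn (fillV (T d k ∪ T d' k) (s.cut ω)) (dom d d' k) s.x s.y := conn_comm
  rw [h]
  change Fence d' k (s.cut ω) (dom d d' k) s.y ∧ Fence d k (s.cut ω) (dom d d' k) s.x ∧ _ ∧
    (∀ v ∈ sphere 0 (32 * k),
      Conn (fillV (T d k ∪ T d' k) (s.cut ω)) (dom d d' k) s.y v → v ∈ Mouth d' k) ∧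
    (∀ v ∈ sphere 0 (32 * k),
      Conn (fillV (T d k ∪ T d' k) (s.cut ω)) (dom d d' k) s.x v → v ∈ Mouth d k) ↔ _
  tauto

/-- Horizontal segments. -/
private lemma sym_seg_x {S : Set Vert} (x y : ℤ) (n : ℕ)
    (h : ∀ z : ℤ, x ≤ z → z ≤ x + n → ((z, y) : Vert) ∈ S) :
    Conn allOpen S (x, y) (x + n, y) := by
  induction n with
  | zero => simpa using Conn.refl (h x le_rfl (by simp))
  | succ n ih =>
    have h1 := ih fun z hz hz' => h z hz (by push_cast; omega)
    refine h1.tail ⟨h1.mem_right, h _ (by push_cast; omega) (by push_cast; omega),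
      (x + n, y, false), Or.inl ⟨rfl, ?_⟩, rfl⟩
    simp [tgt, add_assoc]

/-- Vertical segments. -/
private lemma sym_seg_y {S : Set Vert} (x y : ℤ) (n : ℕ)
    (h : ∀ z : ℤ, y ≤ z → z ≤ y + n → ((x, z) : Vert) ∈ S) :
    Conn allOpen S (x, y) (x, y + n) := by
  induction n with
  | zero => simpa using Conn.refl (h y le_rfl (by simp))
  | succ n ih =>
    have h1 := ih fun z hz hz' => h z hz (by push_cast; omega)
    refine h1.tail ⟨h1.mem_right, h _ (by push_cast; omega) (by push_cast; omega),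
      (x, y + n, true), Or.inl ⟨rfl, ?_⟩, rfl⟩
    simp [tgt, add_assoc]

/-- Rectangles are connected. -/
private lemma sym_rect_conn {a b c d : ℤ} {u v : Vert} (hu : u ∈ rect a b c d)
    (hv : v ∈ rect a b c d) : Conn allOpen (rect a b c d) u v := by
  obtain ⟨x, y⟩ := u
  obtain ⟨x', y'⟩ := v
  have hx : ∀ z z' t : ℤ, a ≤ z → z ≤ b → a ≤ z' → z' ≤ b → c ≤ t → t ≤ d → z ≤ z' →
      Conn allOpen (rect a b c d) (z, t) (z', t) := by
    intro z z' t h1 h2 h3 h4 h5 h6 h7
    obtain ⟨n, hn⟩ := Int.eq_ofNat_of_zero_le (sub_nonneg.2 h7)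
    have h8 : z' = z + n := by omega
    subst h8
    exact sym_seg_x z t n fun w hw hw' => ⟨by omega, by omega, h5, h6⟩
  have hy : ∀ z t t' : ℤ, a ≤ z → z ≤ b → c ≤ t → t ≤ d → c ≤ t' → t' ≤ d → t ≤ t' →
      Conn allOpen (rect a b c d) (z, t) (z, t') := by
    intro z t t' h1 h2 h3 h4 h5 h6 h7
    obtain ⟨n, hn⟩ := Int.eq_ofNat_of_zero_le (sub_nonneg.2 h7)
    have h8 : t' = t + n := by omega
    subst h8
    exact sym_seg_y z t n fun w hw hw' => ⟨h1, h2, by change c ≤ w; omega, by change w ≤ d; omega⟩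
  obtain ⟨u1, u2, u3, u4⟩ := hu
  obtain ⟨v1, v2, v3, v4⟩ := hv
  simp only at u1 u2 u3 u4 v1 v2 v3 v4
  have h1 : Conn allOpen (rect a b c d) (x, y) (x', y) := by
    rcases le_total x x' with h | h
    · exact hx x x' y u1 u2 v1 v2 u3 u4 h
    · exact (hx x' x y v1 v2 u1 u2 u3 u4 h).symm
  have h2 : Conn allOpen (rect a b c d) (x', y) (x', y') := by
    rcases le_total y y' with h | h
    · exact hy x' y y' v1 v2 u3 u4 v3 v4 h
    · exact (hy x' y' y v1 v2 v3 v4 u3 u4 h).symm
  exact h1.trans h2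

private lemma sym_T_conn {d : Side} {k : ℕ} {u v : Vert} (hu : u ∈ T d k) (hv : v ∈ T d k) :
    Conn allOpen (T d k) u v := by
  cases d <;> exact sym_rect_conn hu hv

theorem sep_same : Sep s d d k = ∅ := by
  rw [Set.eq_empty_iff_forall_notMem]
  rintro ω ⟨h1, h2, h3, -, -⟩
  obtain ⟨u, hu, hxu⟩ := fence_mem h1
  obtain ⟨u', hu', hyu⟩ := fence_mem h2
  have hle : ∀ e, s.cut ω e = true → fillV (T d k ∪ T d k) (s.cut ω) e = true :=
    fun e he => fillV_true.2 (Or.inl he)
  have huu : Conn (fillV (T d k ∪ T d k) (s.cut ω)) (dom d d k) u u' :=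
    conn_fillV (fun a ha => Or.inr ha) ((sym_T_conn hu hu').mono_set fun a ha => Or.inl ha)
  exact h3 ((hxu.mono le_rfl hle).trans (huu.trans (hyu.mono le_rfl hle).symm))

/-- Sum of the separated probabilities. -/
noncomputable def bS (q : I) (s : Src) (k : ℕ) : ℝ := ∑ d : Side, ∑ d' : Side, Pr q (Sep s d d' k)

/-- The source of an edge at the origin. -/
def sE (dir : Bool) : Src where
  x := 0
  y := tgt (0, 0, dir)
  E0 := {(0, 0, dir)}
  hx := by
    rw [Pool.Agent.H89.Perc.mem_ball]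
    simp
  hy := by
    rw [Pool.Agent.H89.Perc.mem_ball]
    cases dir <;> simp [tgt]
  hE := by
    intro e he
    rw [Finset.mem_singleton] at he
    subst he
    rw [Pool.Agent.H89.Perc.mem_ball, Pool.Agent.H89.Perc.mem_ball]
    cases dir <;> simp [src, tgt]

end Pool.Agent.H59.EX

end

section

/-!
# Outward separation: stage 1
-/

open MeasureTheory ProbabilityTheory unitInterval

namespace Pool.Agent.H59.EX

open Pool.Agent.H89.Perc

end Pool.Agent.H59.EX

end

section

/-!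
# The corridors of the two points are far apart
-/

open MeasureTheory ProbabilityTheory unitInterval

namespace Pool.Agent.H59.EX

open Pool.Agent.H89.Perc

end Pool.Agent.H59.EX

end

section

/-!
# Outward separation: stage 3
-/

open MeasureTheory ProbabilityTheory unitInterval

namespace Pool.Agent.H59.EX

open Pool.Agent.H89.Perc

end Pool.Agent.H59.EX

end

section

/-!
# Bad events: two clusters close to the same vertex of the sphere
-/

open MeasureTheory ProbabilityTheory unitInterval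

namespace Pool.Agent.H59.EX

open Pool.Agent.H89.Perc Pool.Agent.H61.NC
open Pool.Agent.H29.Sep (LocTwo BadIn)

end Pool.Agent.H59.EX

end
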