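import Pool.Agent.H94.BG.H31.PT.M06
import Pool.Agent.H94.BG.H31.PT.M09
import Pool.Agent.H94.BG.H31.PT.M13
import Pool.Agent.H94.BG.M05

/-! The parts of this file: H61.NC.Sum, H59.EX.MoveCore, H59.EX.Moves, H59.EX.Iter0, H26.ST.Closed. -/

section

/-!
# Sums over edges: the second derivative is bounded by the square of the first
-/

open MeasureTheory ProbabilityTheory unitInterval

namespace Pool.Agent.H61.NC

open Pool.Agent.H89.Perc

end Pool.Agent.H61.NC

end

section

/-!
# Extension of separated events along abstract corridors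
-/

open MeasureTheory ProbabilityTheory unitInterval

namespace Pool.Agent.H59.EX

open Pool.Agent.H89.Perc Pool.Agent.H61.NC

/-! ### Rectangles are connected -/

private theorem mc_h {S : Set Vert} {y : ℤ} (x : ℤ) (n : ℕ)
    (h : ∀ z : ℤ, x ≤ z → z ≤ x + n → ((z, y) : Vert) ∈ S) : Conn allOpen S (x, y) (x + n, y) := by
  induction n with
  | zero =>
    have h0 := h x le_rfl (by simp)
    simpa using (Conn.refl h0 : Conn allOpen S (x, y) (x, y))
  | succ n ih =>
    have h1 := ih fun z hz hz' => h z hz (by push_cast; omega)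
    refine h1.tail ⟨h _ (by omega) (by push_cast; omega), h _ (by push_cast; omega) le_rfl,
      (x + n, y, false), Or.inl ⟨rfl, ?_⟩, rfl⟩
    simp [tgt]
    ring

private theorem mc_v {S : Set Vert} {x : ℤ} (y : ℤ) (n : ℕ)
    (h : ∀ z : ℤ, y ≤ z → z ≤ y + n → ((x, z) : Vert) ∈ S) : Conn allOpen S (x, y) (x, y + n) := by
  induction n with
  | zero =>
    have h0 := h y le_rfl (by simp)
    simpa using (Conn.refl h0 : Conn allOpen S (x, y) (x, y))
  | succ n ih =>
    have h1 := ih fun z hz hz' => h z hz (by push_cast; omega)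
    refine h1.tail ⟨h _ (by omega) (by push_cast; omega), h _ (by push_cast; omega) le_rfl,
      (x, y + n, true), Or.inl ⟨rfl, ?_⟩, rfl⟩
    simp [tgt]
    ring

private theorem mc_h' {S : Set Vert} {x x' y : ℤ}
    (h : ∀ z : ℤ, min x x' ≤ z → z ≤ max x x' → ((z, y) : Vert) ∈ S) :
    Conn allOpen S (x, y) (x', y) := by
  rcases le_total x x' with hx | hx
  · have h1 := mc_h (S := S) (y := y) x (x' - x).toNat fun z hz hz' => h z (by omega) (by omega)
    rwa [Int.toNat_of_nonneg (by omega), add_sub_cancel] at h1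
  · have h1 := mc_h (S := S) (y := y) x' (x - x').toNat fun z hz hz' => h z (by omega) (by omega)
    rw [Int.toNat_of_nonneg (by omega), add_sub_cancel] at h1
    exact h1.symm

private theorem mc_v' {S : Set Vert} {x y y' : ℤ}
    (h : ∀ z : ℤ, min y y' ≤ z → z ≤ max y y' → ((x, z) : Vert) ∈ S) :
    Conn allOpen S (x, y) (x, y') := by
  rcases le_total y y' with hx | hx
  · have h1 := mc_v (S := S) (x := x) y (y' - y).toNat fun z hz hz' => h z (by omega) (by omega)
    rwa [Int.toNat_of_nonneg (by omega), add_sub_cancel] at h1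
  · have h1 := mc_v (S := S) (x := x) y' (y - y').toNat fun z hz hz' => h z (by omega) (by omega)
    rw [Int.toNat_of_nonneg (by omega), add_sub_cancel] at h1
    exact h1.symm

private theorem mc_rect {a b c d : ℤ} {u v : Vert} (hu : u ∈ rect a b c d)
    (hv : v ∈ rect a b c d) : Conn allOpen (rect a b c d) u v := by
  obtain ⟨u1, u2⟩ := u
  obtain ⟨v1, v2⟩ := v
  simp only [rect, Set.mem_ofPred_eq] at hu hv
  have h1 : Conn allOpen (rect a b c d) (u1, u2) (v1, u2) := mc_h' fun z hz hz' => by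
    simp only [rect, Set.mem_ofPred_eq]
    omega
  have h2 : Conn allOpen (rect a b c d) (v1, u2) (v1, v2) := mc_v' fun z hz hz' => by
    simp only [rect, Set.mem_ofPred_eq]
    omega
  exact h1.trans h2

theorem mc_T {d : Side} {k : ℕ} {u v : Vert} (hu : u ∈ T d k) (hv : v ∈ T d k) :
    Conn allOpen (T d k) u v := by
  cases d <;> exact mc_rect hu hv

/-! ### Elementary geometry -/

theorem mc_ball_symm {a b : Vert} {r : ℕ} (h : a ∈ ball b r) : b ∈ ball a r := by
  simp only [mem_ball] at h ⊢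
  omega

theorem mc_ball_mono {a : Vert} {r r' : ℕ} (h : r ≤ r') : ball a r ⊆ ball a r' := by
  intro b hb
  simp only [mem_ball] at hb ⊢
  omega

theorem mc_T_ball {d : Side} {k : ℕ} : T d k ⊆ ball 0 (36 * k) := by
  intro a ha
  cases d
  all_goals
    simp only [T, rect, Set.mem_ofPred_eq] at ha
    simp only [mem_ball, Prod.fst_zero, Prod.snd_zero, Nat.cast_mul, Nat.cast_ofNat]
    omega

theorem mc_T_far {d : Side} {k : ℕ} (hk : 1 ≤ k) {a : Vert} (ha : a ∈ T d k) :
    a ∉ ball 0 2 := by
  intro hb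
  simp only [mem_ball, Prod.fst_zero, Prod.snd_zero, Nat.cast_ofNat] at hb
  cases d
  all_goals
    simp only [T, rect, Set.mem_ofPred_eq] at ha
    omega

theorem mc_Mouth_ball {d : Side} {k : ℕ} : Mouth d k ⊆ ball 0 (32 * k) := by
  intro a ha
  cases d
  all_goals
    simp only [Mouth, rect, Set.mem_ofPred_eq] at ha
    simp only [mem_ball, Prod.fst_zero, Prod.snd_zero, Nat.cast_mul, Nat.cast_ofNat]
    omega

theorem mc_exit {d d' : Side} {k : ℕ} {a b : Vert} {e : Edge} (hj : Joins e a b)
    (ha : a ∈ dom d d' k) (hb : b ∉ dom d d' k) :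
    a ∈ sphere 0 (32 * k) ∨ a ∈ T d k ∨ a ∈ T d' k := by
  rcases ha with ha | ha | ha
  · exact Or.inl (mem_sphere_of_joins hj ha fun h => hb (Or.inl h))
  · exact Or.inr (Or.inl ha)
  · exact Or.inr (Or.inr ha)

theorem mc_dom_ball {d d' : Side} {k : ℕ} : dom d d' k ⊆ ball 0 (36 * k) := by
  rintro a (ha | ha | ha)
  · exact mc_ball_mono (by omega) ha
  · exact mc_T_ball ha
  · exact mc_T_ball ha

theorem mc_C_dom' {d δ δ' : Side} {k : ℕ} {C : Set Vert} {N : Set Config}
    (hM : MoveData k d δ C N) : C ⊆ ball 0 (32 * (4 * k)) ∪ (T δ (4 * k) ∪ T δ' (4 * k)) := by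
  intro a ha
  rcases hM.sub ha with h | h
  · exact Or.inl (mc_ball_mono (by omega) h)
  · exact Or.inr (Or.inl h)

/-- The new mouth. -/
theorem mc_mouth {d d₁ d₂ δ : Side} {k ρ : ℕ} {C X : Set Vert} {N : Set Config}
    (hk : 1 ≤ k) (hρk : 4 * ρ ≤ k) (hM : MoveData k d δ C N) (hX : X ⊆ dom d₁ d₂ k) {v : Vert}
    (hv : v ∈ sphere 0 (32 * (4 * k)))
    (h : v ∈ X ∪ C ∨ ∃ a ∈ C ∪ Mouth d k, v ∈ ball a (4 * ρ)) : v ∈ Mouth δ (4 * k) := by
  have e1 : 32 * (4 * k) = 128 * k := by ring
  rw [e1] at hv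
  have hfar : v ∉ ball 0 (36 * k) := by
    intro hb
    have h2 := hv.2
    simp only [mem_ball, Prod.fst_zero, Prod.snd_zero] at hb h2
    push_cast at hb h2
    omega
  rcases h with (h | h) | ⟨a, ha | ha, h⟩
  · exact absurd (mc_dom_ball (hX h)) hfar
  · exact hM.mouth v hv v h self_mem_ball
  · exact hM.mouth v hv a ha (mc_ball_mono hρk h)
  · refine absurd ?_ hfar
    have h1 := mc_Mouth_ball ha
    simp only [mem_ball, Prod.fst_zero, Prod.snd_zero] at h1 h ⊢
    push_cast at h1 h ⊢
    omega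

end Pool.Agent.H59.EX

end

section

/-!
# All moves between pairs of sides
-/

open MeasureTheory ProbabilityTheory unitInterval

namespace Pool.Agent.H59.EX

open Pool.Agent.H89.Perc Pool.Agent.H61.NC

/-- The separated event with sides `d, d'` at scale `k` can be extended to sides `e, e'` at scale
`4 ^ m k`. -/
def OKm (m : ℕ) (d d' e e' : Side) : Prop :=
  ∀ (c : ℝ) (K : ℕ), 0 < c → ∃ C : ℝ, 0 < C ∧ ∀ (s : Src) (k n : ℕ) (q : I), 4 ≤ k → k ≤ K * n →
    RSWreg c n q → Pr q (Sep s d d' k) ≤ C * Pr q (Sep s e e' (4 ^ m * k))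

variable {m m' : ℕ} {d d' e e' f f' : Side}

theorem okm_trans (h : OKm m d d' e e') (h' : OKm m' e e' f f') : OKm (m + m') d d' f f' := by
  intro c K hc
  obtain ⟨C, hC, H⟩ := h c K hc
  obtain ⟨C', hC', H'⟩ := h' c (4 ^ m * K) hc
  refine ⟨C * C', mul_pos hC hC', fun s k n q hk hkn hR => ?_⟩
  have h1 := H s k n q hk hkn hR
  have hpos : 1 ≤ 4 ^ m := Nat.one_le_pow _ _ (by norm_num)
  have h2 := H' s (4 ^ m * k) n q (by nlinarith only [hk, hpos]) (by nlinarith only [hkn, hpos]) hR
  have h3 : 4 ^ m' * (4 ^ m * k) = 4 ^ (m + m') * k := by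
    rw [pow_add]; ring
  rw [h3] at h2
  calc Pr q (Sep s d d' k) ≤ C * Pr q (Sep s e e' (4 ^ m * k)) := h1
    _ ≤ C * (C' * Pr q (Sep s f f' (4 ^ (m + m') * k))) :=
        mul_le_mul_of_nonneg_left h2 hC.le
    _ = C * C' * Pr q (Sep s f f' (4 ^ (m + m') * k)) := by ring

end Pool.Agent.H59.EX

end

section

/-!
# Finite energy, explicit separated configurations
-/

open MeasureTheory ProbabilityTheory unitInterval

namespace Pool.Agent.H59.EX

open Pool.Agent.H89.Perc Pool.Agent.H61.NC

/-- In the regime the density is bounded away from `0` and `1`. -/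
theorem density_bound (c : ℝ) (hc : 0 < c) : ∃ δ : ℝ, 0 < δ ∧ ∀ (n : ℕ) (q : I), 1 ≤ n →
    RSWreg c n q → δ ≤ (q : ℝ) ∧ (q : ℝ) ≤ 1 - δ :=
  ⟨c / 16, by positivity, fun _ _ hn h => Pool.Agent.H29.Sep.rswreg_density hn h⟩

/-- Finite energy: a local event which is not empty has positive probability, uniformly. -/
theorem fin_energy {Λ : Finset Edge} {A : Set Config} (hA : LocalOn Λ A) (hne : A.Nonempty)
    {δ : ℝ} (hδ : 0 < δ) {q : I} (h : δ ≤ (q : ℝ) ∧ (q : ℝ) ≤ 1 - δ) : δ ^ Λ.card ≤ Pr q A := by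
  obtain ⟨ω₀, hω₀⟩ := hne
  refine (Pool.Agent.H29.Sep.a4Low_cyl q hδ.le h.1 h.2 ω₀ Λ).trans (Pr_mono ?_)
  intro ω hω
  exact hA ω₀ ω (fun e he => (hω e he).symm) hω₀

/-! ### Explicit configurations -/

/-- A straight open horizontal path. -/
theorem itera_row {ω : Config} {S : Set Vert} (a b : ℤ) (n : ℕ)
    (hS : ∀ i : ℤ, a ≤ i → i ≤ a + n → ((i, b) : Vert) ∈ S)
    (ho : ∀ i : ℤ, a ≤ i → i < a + n → ω (i, b, false) = true) :
    Conn ω S (a, b) (a + n, b) := by
  induction n with
  | zero =>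
    have h := Conn.refl (ω := ω) (hS a le_rfl (by simp))
    simpa using h
  | succ n ih =>
    have h1 := ih (fun i h2 h3 => hS i h2 (by push_cast; omega))
      (fun i h2 h3 => ho i h2 (by push_cast; omega))
    refine h1.tail ⟨h1.mem_right, hS _ (by omega) (by omega), (a + n, b, false), Or.inl ⟨rfl, ?_⟩,
      ho _ (by omega) (by push_cast; omega)⟩
    simp only [tgt, Bool.false_eq_true, if_false, Prod.mk.injEq, and_true]
    push_cast
    ring

/-- A straight open vertical path. -/
theorem itera_col {ω : Config} {S : Set Vert} (a b : ℤ) (n : ℕ)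
    (hS : ∀ i : ℤ, b ≤ i → i ≤ b + n → ((a, i) : Vert) ∈ S)
    (ho : ∀ i : ℤ, b ≤ i → i < b + n → ω (a, i, true) = true) :
    Conn ω S (a, b) (a, b + n) := by
  induction n with
  | zero =>
    have h := Conn.refl (ω := ω) (hS b le_rfl (by simp))
    simpa using h
  | succ n ih =>
    have h1 := ih (fun i h2 h3 => hS i h2 (by push_cast; omega))
      (fun i h2 h3 => ho i h2 (by push_cast; omega))
    refine h1.tail ⟨h1.mem_right, hS _ (by omega) (by omega), (a, b + n, true), Or.inl ⟨rfl, ?_⟩,
      ho _ (by omega) (by push_cast; omega)⟩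
    simp only [tgt, if_true, Prod.mk.injEq, true_and]
    push_cast
    ring

/-- The explicit configuration: two rows and two columns; the right row has height `j`. -/
def expl (j : ℤ) (k : ℕ) : Config := fun e => decide
  ((e.2.2 = false ∧ e.2.1 = 0 ∧ e.1 < 0) ∨ (e.2.2 = false ∧ e.2.1 = j ∧ 1 - |j| ≤ e.1) ∨
    (e.2.2 = true ∧ (e.1 = 32 * k ∨ e.1 = -(32 * k)) ∧ -(3 * (k : ℤ)) ≤ e.2.1 ∧ e.2.1 < 3 * k))

/-- Explicit separated configurations for a source whose first point is the origin and whose second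
point is the left end of the right row. -/
theorem expl_mem {s : Src} {j : ℤ} {k : ℕ} (hk : 1 ≤ k) (hj : |j| ≤ 1) (hx : s.x = 0)
    (hy : s.y = (1 - |j|, j)) (hc : s.cut (expl j k) = expl j k) :
    expl j k ∈ Sep s .W .E k := by
  have hj' : -1 ≤ j ∧ j ≤ 1 := abs_le.1 hj
  have hab : |j| = 0 ∧ j = 0 ∨ |j| = 1 ∧ (j = 1 ∨ j = -1) := by
    rcases (show j = 0 ∨ j = 1 ∨ j = -1 by omega) with h | h | h <;> subst h <;> simp
  set D : Set Vert := dom .W .E k with hD
  have hmemD : ∀ v : Vert, (-(32 * (k : ℤ)) ≤ v.1 ∧ v.1 ≤ 32 * k ∧ -(32 * (k : ℤ)) ≤ v.2 ∧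
      v.2 ≤ 32 * k) → v ∈ D := by
    intro v hv
    refine Or.inl ?_
    simp only [ball, rect, Set.mem_ofPred_eq, Prod.fst_zero, Prod.snd_zero]
    push_cast
    omega
  have hstep : ∀ p p' : Vert, Step (fillV (T .W k ∪ T .E k) (expl j k)) D p p' →
      (((p.2 = 0 ∧ p.1 ≤ 0) ∨ p ∈ T .W k) → ((p'.2 = 0 ∧ p'.1 ≤ 0) ∨ p' ∈ T .W k)) ∧
      (((p.2 = j ∧ 1 - |j| ≤ p.1) ∨ p ∈ T .E k) →
        ((p'.2 = j ∧ 1 - |j| ≤ p'.1) ∨ p' ∈ T .E k)) := by
    rintro ⟨a, b⟩ ⟨a', b'⟩ ⟨-, -, ⟨x, y, dir⟩, hjo, ho⟩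
    simp only [fillV, expl, Bool.or_eq_true, decide_eq_true_eq, inE, Set.mem_ofPred_eq,
      Set.mem_union, T, rect, src] at ho ⊢
    rcases dir with _ | _
    · simp only [Joins, src, tgt, Bool.false_eq_true, if_false, Prod.mk.injEq] at hjo ho
      simp only [true_and, false_and, or_false] at ho
      omega
    · simp only [Joins, src, tgt, if_true, Prod.mk.injEq] at hjo ho
      simp only [Bool.true_eq_false, false_and, true_and, false_or] at ho
      omega
  have hX : ∀ v, Conn (fillV (T .W k ∪ T .E k) (expl j k)) D 0 v →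
      ((v.2 = 0 ∧ v.1 ≤ 0) ∨ v ∈ T .W k) := by
    intro v hv
    refine hv.induction_right (P := fun v => (v.2 = 0 ∧ v.1 ≤ 0) ∨ v ∈ T .W k)
      (Or.inl ⟨rfl, le_rfl⟩) ?_
    intro p p' _ hp h
    exact (hstep p p' hp).1 h
  have hY : ∀ v, Conn (fillV (T .W k ∪ T .E k) (expl j k)) D (1 - |j|, j) v →
      ((v.2 = j ∧ 1 - |j| ≤ v.1) ∨ v ∈ T .E k) := by
    intro v hv
    refine hv.induction_right (P := fun v => (v.2 = j ∧ 1 - |j| ≤ v.1) ∨ v ∈ T .E k)
      (Or.inl ⟨rfl, le_rfl⟩) ?_
    intro p p' _ hp h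
    exact (hstep p p' hp).2 h
  refine ⟨?_, ?_, ?_, ?_, ?_⟩
  · -- west fence
    rw [hc, hx]
    refine ⟨(-(32 * (k : ℤ)), -(3 * (k : ℤ))), (-(32 * (k : ℤ)), 3 * (k : ℤ)), rfl, rfl, ?_, ?_⟩
    · have h := itera_col (ω := expl j k) (S := T .W k) (-(32 * (k : ℤ))) (-(3 * (k : ℤ))) (6 * k)
        (fun i h1 h2 => by
          simp only [T, rect, Set.mem_ofPred_eq]
          push_cast at h2
          omega)
        (fun i h1 h2 => by
          simp only [expl, decide_eq_true_eq]
          push_cast at h2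
          right; right
          exact ⟨trivial, Or.inr trivial, by omega, by omega⟩)
      have he : -(3 * (k : ℤ)) + ((6 * k : ℕ) : ℤ) = 3 * k := by push_cast; ring
      rwa [he] at h
    · have h1 := itera_row (ω := expl j k) (S := D) (-(32 * (k : ℤ))) 0 (32 * k)
        (fun i h1 h2 => hmemD _ (by push_cast at h2; dsimp only; omega))
        (fun i h1 h2 => by
          simp only [expl, decide_eq_true_eq]
          push_cast at h2
          left
          exact ⟨trivial, trivial, by omega⟩)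
      have he : -(32 * (k : ℤ)) + ((32 * k : ℕ) : ℤ) = 0 := by push_cast; ring
      rw [he] at h1
      have h2 := itera_col (ω := expl j k) (S := D) (-(32 * (k : ℤ))) (-(3 * (k : ℤ))) (3 * k)
        (fun i h1 h2 => hmemD _ (by push_cast at h2; dsimp only; omega))
        (fun i h1 h2 => by
          simp only [expl, decide_eq_true_eq]
          push_cast at h2
          right; right
          exact ⟨trivial, Or.inr trivial, by omega, by omega⟩)
      have he2 : -(3 * (k : ℤ)) + ((3 * k : ℕ) : ℤ) = 0 := by push_cast; ring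
      rw [he2] at h2
      exact (h2.trans h1).symm
  · -- east fence
    rw [hc, hy]
    refine ⟨(32 * (k : ℤ), -(3 * (k : ℤ))), (32 * (k : ℤ), 3 * (k : ℤ)), rfl, rfl, ?_, ?_⟩
    · have h := itera_col (ω := expl j k) (S := T .E k) (32 * (k : ℤ)) (-(3 * (k : ℤ))) (6 * k)
        (fun i h1 h2 => by
          simp only [T, rect, Set.mem_ofPred_eq]
          push_cast at h2
          omega)
        (fun i h1 h2 => by
          simp only [expl, decide_eq_true_eq]
          push_cast at h2
          right; right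
          exact ⟨trivial, Or.inl trivial, by omega, by omega⟩)
      have he : -(3 * (k : ℤ)) + ((6 * k : ℕ) : ℤ) = 3 * k := by push_cast; ring
      rwa [he] at h
    · have h1 := itera_row (ω := expl j k) (S := D) (1 - |j|) j (32 * k - 1 + j.natAbs)
        (fun i h1 h2 => hmemD _ (by
          have : ((32 * k - 1 + j.natAbs : ℕ) : ℤ) = 32 * k - 1 + |j| := by
            rw [Nat.cast_add, Int.natCast_natAbs]
            have : ((32 * k - 1 : ℕ) : ℤ) = 32 * k - 1 := by omega
            rw [this]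
          dsimp only
          omega))
        (fun i h1 h2 => by
          simp only [expl, decide_eq_true_eq]
          right; left
          exact ⟨trivial, trivial, h1⟩)
      have he : 1 - |j| + ((32 * k - 1 + j.natAbs : ℕ) : ℤ) = 32 * k := by
        rw [Nat.cast_add, Int.natCast_natAbs]
        have : ((32 * k - 1 : ℕ) : ℤ) = 32 * k - 1 := by omega
        rw [this]
        ring
      rw [he] at h1
      have h2 := itera_col (ω := expl j k) (S := D) (32 * (k : ℤ)) (-(3 * (k : ℤ)))
        (3 * k + j).toNat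
        (fun i h1 h2 => hmemD _ (by
          rw [Int.toNat_of_nonneg (by omega)] at h2
          dsimp only
          omega))
        (fun i h1 h2 => by
          rw [Int.toNat_of_nonneg (by omega)] at h2
          simp only [expl, decide_eq_true_eq]
          right; right
          exact ⟨trivial, Or.inl trivial, by omega, by omega⟩)
      have he2 : -(3 * (k : ℤ)) + ((3 * k + j).toNat : ℤ) = j := by
        rw [Int.toNat_of_nonneg (by omega)]
        ring
      rw [he2] at h2
      exact h1.trans h2.symm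
  · rw [hc, hx, hy]
    intro h
    have := hX _ h
    simp only [T, rect, Set.mem_ofPred_eq] at this
    omega
  · rw [hc, hx]
    intro v hv h
    have := hX v h
    simp only [T, rect, Set.mem_ofPred_eq, sphere, ball, Prod.fst_zero, Prod.snd_zero, Mouth]
      at this hv ⊢
    push_cast at hv
    omega
  · rw [hc, hy]
    intro v hv h
    have := hY v h
    simp only [T, rect, Set.mem_ofPred_eq, sphere, ball, Prod.fst_zero, Prod.snd_zero, Mouth]
      at this hv ⊢
    push_cast at hv
    omega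

end Pool.Agent.H59.EX

end

section

/-!
# With the source edge closed there is no winding path
-/

open MeasureTheory ProbabilityTheory unitInterval

namespace Pool.Agent.H26.ST

open Pool.Agent.H89.Perc Pool.Agent.H61.NC Pool.Agent.H59.EX

variable {N k : ℕ} {ζ η : Config} {X Y : Set Vert} {a b : Vert} {i j : ℤ × ℤ}

theorem perInv_per (N : ℕ) (ω : Config) : PerInv N (per N ω) := by
  rintro z ⟨x, y, t⟩
  simp only [per, shiftE]
  rw [Int.add_mul_emod_self_right, Int.add_mul_emod_self_right]

theorem in_sh : In N k X Y i (sh N j a) ↔ In N k X Y (i.1 + j.1, i.2 + j.2) a := by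
  have e1 : sh N i (sh N j a) = sh N (i.1 + j.1, i.2 + j.2) a := by
    simp only [sh, Prod.mk.injEq]
    constructor <;> ring
  have e2 : sh N (i.1 + 1, i.2) (sh N j a) = sh N (i.1 + j.1 + 1, i.2 + j.2) a := by
    simp only [sh, Prod.mk.injEq]
    constructor <;> ring
  unfold In
  rw [e1, e2]

theorem in_sh0 : In N k X Y (0, 0) (sh N j a) ↔ In N k X Y j a := by
  rw [in_sh]
  simp

theorem zeta_cut {N : ℕ} {d : Bool} {s : Src} (hs : IsSrc s d) {ω : Config} {e : Edge}
    (h : per N (Function.update ω (0, 0, d) false) e = true) : s.cut (per N ω) e = true := by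
  have hne : modE N e ≠ (0, 0, d) := by
    intro h1
    have h2 : per N (Function.update ω (0, 0, d) false) e =
        Function.update ω (0, 0, d) false (modE N e) := rfl
    rw [h2, h1, Function.update_self] at h
    exact absurd h (by simp)
  have h3 : per N ω e = true := by
    have h2 : per N (Function.update ω (0, 0, d) false) e =
        Function.update ω (0, 0, d) false (modE N e) := rfl
    rw [h2, Function.update_of_ne hne] at h
    exact h
  unfold Src.cut
  rw [closeS_true]
  refine ⟨h3, ?_⟩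
  rw [hs.E]
  intro h4
  rw [Finset.coe_singleton, Set.mem_singleton_iff] at h4
  refine hne ?_
  rw [h4]
  simp [modE]

end Pool.Agent.H26.ST

end
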