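import Pool.Agent.H94.BG.H31.PT.M04_1
import Pool.Agent.H94.BG.H31.PT.M06_3

/-! The parts of this file: H29.Sep.Ring, H89.Perc.TorusSym, H31.EX.ArmReg, H59.EX.Fact, H57.EX.Defs, H57.EX.Walk, H57.EX.Base, H26.HP.Reg, H26.HP.One, H59.EX.GeoDef. -/

section

/-!
# Open circuits: hooking and meeting
-/

open MeasureTheory ProbabilityTheory unitInterval

namespace Pool.Agent.H29.Sep

open Pool.Agent.H89.Perc

end Pool.Agent.H29.Sep

end

section

/-!
# Symmetries of the winding event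
-/

open MeasureTheory ProbabilityTheory unitInterval

namespace Pool.Agent.H89.Perc

end Pool.Agent.H89.Perc

end

section

/-!
# Blocking circuits and decay of annulus crossings in the box-crossing regime
-/

open MeasureTheory ProbabilityTheory unitInterval

namespace Pool.Agent.H31.EX

open Pool.Agent.H89.Perc Pool.Agent.H61.NC

end Pool.Agent.H31.EX

end

section

/-!
# Elementary facts used by all stages
-/

open MeasureTheory ProbabilityTheory unitInterval

namespace Pool.Agent.H59.EX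

open Pool.Agent.H89.Perc

section clus

variable {ω ω' : Config} {D D' X S Z : Set Vert} {a b x : Vert} {e : Edge} {t : Set Edge}

theorem mem_clus (hx : x ∈ X) (h : Conn ω D x b) : b ∈ clus ω D X := by
  exact ⟨x, hx, h⟩

/-- A path starting in the cluster stays in the cluster. -/
theorem conn_in_clus (ha : a ∈ clus ω D X) (h : Conn ω D a b) : Conn ω (clus ω D X) a b := by
  refine h.induction_right (P := fun b => Conn ω (clus ω D X) a b) (Conn.refl ha) ?_
  intro a' b' h1 h2 h3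
  exact h3.tail ⟨clus_conn ha h1, clus_conn ha (h1.tail h2), h2.2.2⟩

end clus

section fence

variable {ω ω' : Config} {D D' : Set Vert} {x y : Vert} {d : Side} {k : ℕ}

/-- A fence of `y` is a fence of `x` if `x` is joined to `y`. -/
theorem fence_trans (h1 : Conn ω D x y) (h2 : Fence d k ω D y) : Fence d k ω D x := by
  cases d
  all_goals
    obtain ⟨u, v, h3, h4, h5, h6⟩ := h2
    exact ⟨u, v, h3, h4, h5, h1.trans h6⟩

end fence

section stages

end stages

end Pool.Agent.H59.EX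

end

section

/-!
# Gluing of four arms in the plane (GLT): definitions

The inner domain is `ball 0 (4 m)`, the outer domain is a finite vertex set `D` whose points have norm
at least `16 m`.  Everything is formulated for configurations in which some edges (the set `E`) near
the origin have been closed; the corresponding probability is `PrE`.
-/

open MeasureTheory ProbabilityTheory unitInterval

namespace Pool.Agent.H57.EX

open Pool.Agent.H89.Perc Pool.Agent.H61.NC Pool.Agent.H29.Sep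

/-- Existence of the chains. -/
def Geo : Prop :=
  ∃ k₀ : ℕ, 1 ≤ k₀ ∧ ∀ k : ℕ, k₀ ≤ k → ∃ n₁ k₁ : ℕ, ∀ k' : ℕ, k₁ ≤ k' → ∃ n₂ m₀ : ℕ,
    ∀ m : ℕ, m₀ ≤ m → ∀ b ∈ sphere 0 (4 * m), ∀ b' ∈ sphere 0 (16 * m), ∃ γ : ℕ → Vert,
      ZGood m (m / k) γ n₁ b b' ∧
      ∀ β ∈ sphere 0 (4 * m), β ∉ ball b (30 * (m / k)) →
      ∀ β' ∈ sphere 0 (16 * m), β' ∉ ball b' (30 * (m / k)) → ∃ γ' : ℕ → Vert,
        ZGood m (m / k') γ' n₂ β β' ∧
        ∀ w ∈ zone γ' n₂ (m / k'), ∀ z ∈ zone γ n₁ (m / k), w ∉ ball z (8 * (m / k'))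

/-- The data of the planar gluing with terminals on the sphere of radius `R`. -/
def std (m R : ℕ) (L T : Set Vert) (hm : 10 ≤ m) (hR : 64 * m ≤ R) (hL : L ⊆ sphere 0 R)
    (hT : T ⊆ sphere 0 R) : Dat where
  x := 0
  y := (1, 0)
  E := {(0, 0, false)}
  m := m
  R := R
  D := dom (16 * m) R
  W := ball 0 R
  L := L
  T := T
  hx := by simp [ball, rect]
  hy := by simp [ball, rect]
  hE := by simp [ball, rect, src, tgt]
  hm := hm
  hD := by
    intro v hv
    have h := hv.2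
    simp only [ball, rect, Set.mem_setOf_eq, Prod.fst_zero, Prod.snd_zero, not_and_or, not_le,
      nrm] at h ⊢
    rcases abs_cases v.1 with h1 | h1 <;> rcases abs_cases v.2 with h2 | h2 <;> omega
  hDW := fun v hv => hv.1
  hBW := by
    intro v hv
    simp only [ball, rect, Set.mem_setOf_eq, Prod.fst_zero, Prod.snd_zero] at hv ⊢
    omega
  hWD := by
    intro v hv hv'
    refine ⟨hv, fun h => hv' ?_⟩
    simp only [ball, rect, Set.mem_setOf_eq, Prod.fst_zero, Prod.snd_zero] at h ⊢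
    omega
  hWR := fun v hv => hv
  hL := by
    intro v hv
    have h := hL hv
    simp only [sphere, dom, nrm, ball, rect, Set.mem_setOf_eq, Prod.fst_zero, Prod.snd_zero,
      Set.mem_diff] at h ⊢
    rcases abs_cases v.1 with h1 | h1 <;> rcases abs_cases v.2 with h2 | h2 <;> omega
  hT := by
    intro v hv
    have h := hT hv
    simp only [sphere, dom, nrm, ball, rect, Set.mem_setOf_eq, Prod.fst_zero, Prod.snd_zero,
      Set.mem_diff] at h ⊢
    rcases abs_cases v.1 with h1 | h1 <;> rcases abs_cases v.2 with h2 | h2 <;> omega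

end Pool.Agent.H57.EX

end

section

/-!
# Open paths: last exits, comparison of clusters in two domains
-/

open MeasureTheory ProbabilityTheory unitInterval

namespace Pool.Agent.H57.EX

open Pool.Agent.H89.Perc Pool.Agent.H29.Sep

/-- The start of a path entering `ball 0 (t - 1)`, backwards. -/
private theorem walk_enter {ω : Config} {D : Set Vert} {z w : Vert} {t : ℕ} (ht : 1 ≤ t)
    (h : Conn ω D w z) (hz : z ∈ ball 0 (t - 1)) (hw : w ∉ ball 0 (t - 1)) :
    ∃ v ∈ sphere 0 t, Conn ω (D \ ball 0 (t - 1)) v w := by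
  obtain ⟨a, a', h1, h2, h3, _⟩ := h.exists_hit hw hz
  refine ⟨a, ?_, h1.symm⟩
  have h4 := h1.mem_right.2
  have h5 := h2.fst_le
  have h6 := h2.snd_le
  have h7 : ((t - 1 : ℕ) : ℤ) = (t : ℤ) - 1 := by omega
  simp only [mem_ball, Prod.fst_zero, Prod.snd_zero, h7] at h3 h4
  simp only [sphere, ball, rect, Set.mem_ofPred_eq, Prod.fst_zero, Prod.snd_zero]
  omega

/-- Last visit of a ball: the part of a path after the sphere. -/
theorem leave_sphere {ω : Config} {D : Set Vert} {u w : Vert} {t : ℕ} (ht : 1 ≤ t)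
    (h : Conn ω D u w) (hu : u ∈ ball 0 t) (hw : w ∉ ball 0 (t - 1)) :
    ∃ v ∈ sphere 0 t, Conn ω (D \ ball 0 (t - 1)) v w := by
  by_cases hub : u ∈ ball 0 (t - 1)
  · exact walk_enter ht h.symm hub hw
  by_contra hno
  push Not at hno
  have key : Conn ω (D \ ball 0 (t - 1)) w u := by
    refine h.symm.induction_right (P := fun x => Conn ω (D \ ball 0 (t - 1)) w x)
      (Conn.refl ⟨h.mem_right, hw⟩) ?_
    intro a b hwa hab ha
    by_cases hb : b ∈ ball 0 (t - 1)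
    · obtain ⟨v, hv, hc⟩ := walk_enter ht (hwa.tail hab) hb hw
      exact absurd hc (hno v hv)
    · exact ha.tail ⟨ha.mem_right, ⟨hab.2.1, hb⟩, hab.2.2⟩
  refine hno u ?_ key.symm
  have h7 : ((t - 1 : ℕ) : ℤ) = (t : ℤ) - 1 := by omega
  simp only [mem_ball, Prod.fst_zero, Prod.snd_zero, h7] at hu hub
  simp only [sphere, ball, rect, Set.mem_ofPred_eq, Prod.fst_zero, Prod.snd_zero]
  omega

end Pool.Agent.H57.EX

end

section

/-!
# Probability with some closed edges, norms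
-/

open MeasureTheory ProbabilityTheory unitInterval

namespace Pool.Agent.H57.EX

open Pool.Agent.H89.Perc Pool.Agent.H61.NC Pool.Agent.H29.Sep

end Pool.Agent.H57.EX

end

section

/-!
# Consequences of the box-crossing regime: blocking, decay, half circuits
-/

open MeasureTheory ProbabilityTheory unitInterval

namespace Pool.Agent.H26.HP

open Pool.Agent.H89.Perc
open Pool.Agent.H61.NC (RSWreg)

variable {ω ω' : Config} {D X S : Set Vert} {R n : ℕ} {q : I} {c : ℝ}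

lemma RSWreg.mono {m : ℕ} (h : RSWreg c n q) (hm : m ≤ n) : RSWreg c m q :=
  fun k h1 h2 => h k h1 (h2.trans hm)

/-- Four crossings block all dual paths. -/
theorem circuit_of {p : I} {c : ℝ} (hc : 0 < c) {s r : ℕ} (hr : 4 * (s + 1) ≤ r)
    (hreg : ∀ m : ℕ, 1 ≤ m → m ≤ r → c ≤ Pr p {ω | HCross ω 0 (4 * m) 0 m}) :
    c ^ 4 ≤ Pr p {ω | dual ω ∉ DArm s r} := by
  classical
  obtain ⟨m, hm⟩ : ∃ m : ℕ, r = m + s + 2 := ⟨r - s - 2, by omega⟩
  have hm1 : 1 ≤ m := by omega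
  have h2r : 2 * r ≤ 4 * m := by omega
  have key : ∀ t : ℤ, c ≤ Pr p {ω | HCross ω (-r) r t (t + m)} := by
    intro t
    have h1 : c ≤ Pr p {ω | HCross ω 0 (2 * r) 0 m} :=
      (hreg m hm1 (by omega)).trans (Pr_mono fun ω h => HCross.mono h le_rfl (by omega) (by omega)
        le_rfl le_rfl)
    have h3 := Pr_hcross_translate (p := p) (a := 0) (b := 2 * (r : ℤ)) (c := 0) (d := m) (-r) t
    have e1 : (0 : ℤ) + -r = -r := by ring
    have e2 : 2 * (r : ℤ) + -r = r := by ring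
    have e3 : (0 : ℤ) + t = t := by ring
    have e4 : (m : ℤ) + t = t + m := by ring
    rw [e1, e2, e3, e4] at h3
    rw [h3]
    exact h1
  have keyV : ∀ t : ℤ, c ≤ Pr p {ω | VCross ω t (t + m) (-r) r} := by
    intro t
    rw [Pr_vcross_eq_hcross]
    exact key t
  have k1 := keyV (s + 1)
  have k2 := keyV (-r + 1)
  have k3 := key (s + 1)
  have k4 := key (-r + 1)
  have e1 : (s : ℤ) + 1 + m = r - 1 := by omega
  have e2 : -(r : ℤ) + 1 + m = -s - 1 := by omega
  rw [e1] at k1 k3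
  rw [e2] at k2 k4
  have h12 := fkg (p := p) (localOn_vcross ((s : ℤ) + 1) (r - 1) (-r) r)
    (localOn_vcross (-(r : ℤ) + 1) (-s - 1) (-r) r) (incr_vcross _ _ _ _) (incr_vcross _ _ _ _)
  have h34 := fkg (p := p) (localOn_hcross (-(r : ℤ)) r (s + 1) (r - 1))
    (localOn_hcross (-(r : ℤ)) r (-r + 1) (-s - 1)) (incr_hcross _ _ _ _) (incr_hcross _ _ _ _)
  have h1234 := fkg (p := p) ((localOn_vcross ((s : ℤ) + 1) (r - 1) (-r) r).inter'
      (localOn_vcross (-(r : ℤ) + 1) (-s - 1) (-r) r))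
    ((localOn_hcross (-(r : ℤ)) r (s + 1) (r - 1)).inter'
      (localOn_hcross (-(r : ℤ)) r (-r + 1) (-s - 1)))
    ((incr_vcross _ _ _ _).inter (incr_vcross _ _ _ _))
    ((incr_hcross _ _ _ _).inter (incr_hcross _ _ _ _))
  have h12' := (mul_le_mul k1 k2 hc.le Pr_nonneg).trans h12
  have h34' := (mul_le_mul k3 k4 hc.le Pr_nonneg).trans h34
  have h' := (mul_le_mul h12' h34' (by positivity) Pr_nonneg).trans h1234
  have e : c ^ 4 = c * c * (c * c) := by ring
  rw [e]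
  refine h'.trans (Pr_mono ?_)
  rintro ω ⟨⟨w1, w2⟩, ⟨w3, w4⟩⟩
  exact block (by omega) w1 w2 w3 w4

/-- In the box-crossing regime an annulus is not crossed with probability at least `c⁴`. -/
theorem armBox_le_reg (hc : 0 < c) (h : RSWreg c n q) {s r : ℕ} (hr : 4 * (s + 1) ≤ r)
    (hrn : r ≤ n) : Pr q (ArmBox 0 s r) ≤ 1 - c ^ 4 := by
  have h1 := circuit_of (p := σ q) hc hr fun m h1 h2 => (h m h1 (h2.trans hrn)).2
  have h2 := Pr_compl (p := σ q) (localOn_dual_DArm s r)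
  have h3 : {ω : Config | dual ω ∉ DArm s r}ᶜ = {ω | dual ω ∈ DArm s r} := by
    ext ω
    simp only [Set.mem_compl_iff, Set.mem_ofPred_eq, not_not]
  rw [h3, Pr_dual (circuit_localOn_DArm s r), unitInterval.symm_symm] at h2
  have h4 : Pr q (ArmBox 0 s r) ≤ Pr q (DArm s r) :=
    Pr_mono (armBox_subset_DArm (by omega))
  linarith only [h1, h2, h4]

lemma reg_le_one (h : RSWreg c n q) (hn : 1 ≤ n) : c ≤ 1 :=
  ((h 1 le_rfl hn).1).trans Pr_le_one

/-- The complement has probability at least `c⁴`. -/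
theorem noCross_reg (hc : 0 < c) (h : RSWreg c n q) {s r : ℕ} (hr : 4 * (s + 1) ≤ r)
    (hrn : r ≤ n) : c ^ 4 ≤ Pr q (ArmBox 0 s r)ᶜ := by
  rw [Pr_compl (localOn_armBox 0 s r)]
  linarith only [hc, h, hr, hrn, armBox_le_reg hc h hr hrn]

lemma armBox_subset_ann {s' s r R : ℕ} (hs' : s' ≤ s) (hs : s < r) (hr : r ≤ R) :
    ArmBox 0 s' R ⊆ Ann s r := by
  rintro ω ⟨w₀, hw₀, u, hu, hc⟩
  have hw₀s : w₀ ∈ ball 0 s := ball_subset_ball hs' hw₀
  have hw₀r : w₀ ∈ ball 0 r := ball_subset_ball hs.le hw₀s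
  have h1 : ∃ x ∈ sphere 0 r, Conn ω (ball 0 R ∩ ball 0 r) w₀ x := by
    refine hc.to_sphere hw₀r ?_
    obtain ⟨hb, h⟩ := hu
    by_cases h2 : u ∈ ball 0 r
    · refine Or.inr ⟨h2, ?_⟩
      simp only [mem_ball, Prod.fst_zero, Prod.snd_zero] at hb h h2 ⊢
      omega
    · exact Or.inl h2
  obtain ⟨x, hx, hc'⟩ := h1
  have hxs : x ∉ ball 0 s := by
    intro hxs
    obtain ⟨_, h⟩ := hx
    simp only [mem_ball, Prod.fst_zero, Prod.snd_zero] at hxs h
    omega
  obtain ⟨w, w', hw, _, hst, hl⟩ := hc'.exists_last (T := ball 0 s) hw₀s hxs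
  refine ⟨w', ?_, x, hx, hl.mono_set ?_⟩
  · have h2 := hst.fst_le
    have h3 := hst.snd_le
    simp only [mem_ball, Prod.fst_zero, Prod.snd_zero] at hw ⊢
    push_cast
    omega
  · exact fun y hy => ⟨hy.1.2, hy.2⟩

/-- Intersections of the annulus events at scales `16 ^ j s`. -/
def AnnI (s : ℕ) : ℕ → Set Config
  | 0 => Set.univ
  | k + 1 => AnnI s k ∩ Ann (16 ^ k * s) (16 ^ (k + 1) * s)

lemma localOn_annI (s k : ℕ) : LocalOn (eBall (16 ^ k * s)) (AnnI s k) := by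
  classical
  induction k with
  | zero => exact fun _ _ _ _ => Set.mem_univ _
  | succ k ih =>
    have h1 : (16 : ℕ) ^ k * s ≤ 16 ^ (k + 1) * s :=
      Nat.mul_le_mul_right _ (Nat.pow_le_pow_right (by norm_num) (Nat.le_succ k))
    exact (ih.mono (eBall_subset h1)).inter ((localOn_ann _ _).mono Finset.sdiff_subset)

lemma armBox_subset_annI {s R : ℕ} (hs : 1 ≤ s) (k : ℕ) (h : 16 ^ k * s ≤ R) :
    ArmBox 0 s R ⊆ AnnI s k := by
  induction k with
  | zero => exact Set.subset_univ _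
  | succ k ih =>
    have h1 : (16 : ℕ) ^ k * s < 16 ^ (k + 1) * s :=
      Nat.mul_lt_mul_of_pos_right (Nat.pow_lt_pow_right (by norm_num) (Nat.lt_succ_self k)) hs
    have h2 : s ≤ 16 ^ k * s := Nat.le_mul_of_pos_left s (by positivity)
    exact Set.subset_inter (ih (h1.le.trans h)) (armBox_subset_ann h2 h1 h)

/-- Polynomial decay of annulus crossings in the box-crossing regime. -/
theorem armBox_decay (c : ℝ) (hc : 0 < c) : ∃ C κ : ℝ, 0 < C ∧ 0 < κ ∧ κ ≤ 1 ∧
    ∀ (n : ℕ) (q : I), RSWreg c n q → ∀ s r : ℕ, 1 ≤ s → s ≤ r → r ≤ n →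
      Pr q (ArmBox 0 s r) ≤ C * ((s : ℝ) / r) ^ κ := by
  classical
  set c' : ℝ := min c 1 with hc'
  have hc'0 : 0 < c' := lt_min hc one_pos
  have hc'1 : c' ≤ 1 := min_le_right _ _
  set b : ℝ := 1 - c' ^ 4 / 2 with hb
  have h4 : c' ^ 4 ≤ 1 := pow_le_one₀ hc'0.le hc'1
  have h40 : 0 < c' ^ 4 := by positivity
  have hb0 : 0 < b := by linarith
  have hb1 : b < 1 := by linarith
  have hb2 : 1 / 2 ≤ b := by linarith only [hb, h4]
  have hlog : Real.log b < 0 := Real.log_neg hb0 hb1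
  have hlog16 : 0 < Real.log 16 := Real.log_pos (by norm_num)
  have hκ : 0 < - Real.log b / Real.log 16 := div_pos (neg_pos.2 hlog) hlog16
  refine ⟨1 / b, - Real.log b / Real.log 16, by positivity, hκ, ?_, ?_⟩
  · rw [div_le_one hlog16]
    have h1 : Real.log (1 / 16) ≤ Real.log b := Real.log_le_log (by norm_num) (by linarith only [hb, h4, hb0])
    rw [Real.log_div one_ne_zero (by norm_num), Real.log_one, zero_sub] at h1
    linarith
  intro n q hreg s r hs hsr hrn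
  have hreg' : RSWreg c' n q := fun m h1 h2 =>
    ⟨(min_le_left _ _).trans (hreg m h1 h2).1, (min_le_left _ _).trans (hreg m h1 h2).2⟩
  have key : ∀ k : ℕ, 16 ^ k * s ≤ n → Pr q (AnnI s k) ≤ b ^ k := by
    intro k
    induction k with
    | zero => intro _; rw [pow_zero]; exact Pr_le_one
    | succ k ih =>
      intro hk
      have h0 : (16 : ℕ) ^ k * s ≤ 16 ^ (k + 1) * s :=
        Nat.mul_le_mul_right _ (Nat.pow_le_pow_right (by norm_num) (Nat.le_succ k))
      have ih' := ih (h0.trans hk)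
      have h1 : Pr q (AnnI s (k + 1)) =
          Pr q (AnnI s k) * Pr q (Ann (16 ^ k * s) (16 ^ (k + 1) * s)) :=
        Pr_inter_of_disjoint (localOn_annI s k) (localOn_ann _ _) Finset.disjoint_sdiff
      have h2 : Pr q (Ann (16 ^ k * s) (16 ^ (k + 1) * s)) ≤ b := by
        have h3 : 4 * (16 ^ k * s + 1 + 1) ≤ 16 ^ (k + 1) * s := by
          have : 1 ≤ 16 ^ k * s := Nat.mul_pos (by positivity) hs
          rw [pow_succ]
          nlinarith only [this]
        have h4 := armBox_le_reg hc'0 hreg' h3 hk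
        have h5 : Pr q (Ann (16 ^ k * s) (16 ^ (k + 1) * s)) ≤
            Pr q (ArmBox 0 (16 ^ k * s + 1) (16 ^ (k + 1) * s)) := Pr_mono (ann_subset_armBox _ _)
        linarith only [hb, h40, h4, h5]
      rw [h1, pow_succ]
      exact mul_le_mul ih' h2 Pr_nonneg (pow_nonneg hb0.le k)
  set k := Nat.log 16 (r / s) with hk
  have hrs : 1 ≤ r / s := Nat.div_pos hsr hs
  have hk1 : 16 ^ k ≤ r / s := Nat.pow_log_le_self 16 (by omega)
  have hk2 : r / s < 16 ^ (k + 1) := Nat.lt_pow_succ_log_self (by norm_num) _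
  have hk1' : 16 ^ k * s ≤ r := (Nat.mul_le_mul_right s hk1).trans (Nat.div_mul_le_self r s)
  have hk2' : r < 16 ^ (k + 1) * s := (Nat.div_lt_iff_lt_mul hs).1 hk2
  have h1 : Pr q (ArmBox 0 s r) ≤ b ^ k :=
    (Pr_mono (armBox_subset_annI hs k hk1')).trans (key k (hk1'.trans hrn))
  refine h1.trans ?_
  have hr0 : (0 : ℝ) < r := by exact_mod_cast (lt_of_lt_of_le hs hsr)
  have hs0 : (0 : ℝ) < s := by exact_mod_cast hs
  have h2 : b ^ (k + 1) ≤ ((s : ℝ) / r) ^ (- Real.log b / Real.log 16) := by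
    have h3 : (((1 : ℝ) / 16) ^ (k + 1)) ^ (-Real.log b / Real.log 16) = b ^ (k + 1) := by
      rw [← Real.rpow_natCast ((1 : ℝ) / 16) (k + 1), ← Real.rpow_mul (by norm_num), mul_comm,
        Real.rpow_mul (by norm_num), Real.rpow_natCast]
      congr 1
      rw [Real.rpow_def_of_pos (by norm_num), Real.log_div one_ne_zero (by norm_num),
        Real.log_one, zero_sub]
      have : -Real.log 16 * (-Real.log b / Real.log 16) = Real.log b := by
        field_simp
      rw [this, Real.exp_log hb0]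
    rw [← h3]
    refine Real.rpow_le_rpow (by positivity) ?_ hκ.le
    rw [div_pow, one_pow, div_le_div_iff₀ (by positivity) hr0, one_mul, mul_comm]
    exact_mod_cast hk2'.le
  calc b ^ k = 1 / b * b ^ (k + 1) := by
        rw [pow_succ]; field_simp
    _ ≤ _ := mul_le_mul_of_nonneg_left h2 (by positivity)

/-- The upper half plane. -/
def up : Set Vert := {v | 0 ≤ v.2}

/-- The half ball around `(z, 0)`. -/
def hb (z : ℤ) (r : ℕ) : Set Vert := ball (z, 0) r ∩ up

lemma mem_hb {z : ℤ} {r : ℕ} {v : Vert} :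
    v ∈ hb z r ↔ z - r ≤ v.1 ∧ v.1 ≤ z + r ∧ 0 ≤ v.2 ∧ v.2 ≤ r := by
  simp only [hb, up, Set.mem_inter_iff, mem_ball, Set.mem_ofPred_eq]
  omega

lemma incr_HC (s : ℕ) : Incr (HC s) :=
  ((incr_vcross _ _ _ _).inter (incr_hcross _ _ _ _)).inter (incr_vcross _ _ _ _)

lemma localOn_hcross_in {a b c d : ℤ} (hD : D ⊆ ball 0 R) (h : rect a b c d ⊆ D) :
    LocalOn (eIn R D) {ω | HCross ω a b c d} := by
  rintro ω ω' hω ⟨u, v, h1, h2, h3⟩
  refine ⟨u, v, h1, h2, Conn.congr (fun e h4 h5 => hω e ?_) h3⟩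
  exact mem_eIn.2 ⟨mem_eBall.2 (hD (h h4)), h h4, h h5⟩

lemma localOn_vcross_in {a b c d : ℤ} (hD : D ⊆ ball 0 R) (h : rect a b c d ⊆ D) :
    LocalOn (eIn R D) {ω | VCross ω a b c d} := by
  rintro ω ω' hω ⟨u, v, h1, h2, h3⟩
  refine ⟨u, v, h1, h2, Conn.congr (fun e h4 h5 => hω e ?_) h3⟩
  exact mem_eIn.2 ⟨mem_eBall.2 (hD (h h4)), h h4, h h5⟩

lemma localOn_HC {s : ℕ} (hD : D ⊆ ball 0 R) (h : hb 0 (2 * s) ⊆ D) :
    LocalOn (eIn R D) (HC s) := by
  have hsub : ∀ a b c d : ℤ, -(2 * (s : ℤ)) ≤ a → b ≤ 2 * s → 0 ≤ c → d ≤ 2 * s →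
      rect a b c d ⊆ D := by
    intro a b c d h1 h2 h3 h4 v hv
    refine h (mem_hb.2 ?_)
    obtain ⟨k1, k2, k3, k4⟩ := hv
    push_cast
    omega
  exact ((localOn_vcross_in hD (hsub _ _ _ _ (by omega) (by omega) (by omega) (by omega))).inter
    (localOn_hcross_in hD (hsub _ _ _ _ (by omega) (by omega) (by omega) (by omega)))).inter
    (localOn_vcross_in hD (hsub _ _ _ _ (by omega) (by omega) (by omega) (by omega)))

theorem HC_ge (hc : 0 < c) {s : ℕ} (hs : 1 ≤ s) (h : RSWreg c s q) : c ^ 3 ≤ Pr q (HC s) := by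
  classical
  have h0 := (h s hs le_rfl).1
  have k2 : c ≤ Pr q {ω | HCross ω (-(2 * (s : ℤ))) (2 * s) s (2 * s)} := by
    have h3 := Pr_hcross_translate (p := q) (a := 0) (b := 4 * (s : ℤ)) (c := 0) (d := s)
      (-(2 * (s : ℤ))) s
    have e1 : (0 : ℤ) + -(2 * s) = -(2 * s) := by ring
    have e2 : 4 * (s : ℤ) + -(2 * s) = 2 * s := by ring
    have e3 : (0 : ℤ) + s = s := by ring
    have e4 : (s : ℤ) + s = 2 * s := by ring
    rw [e1, e2, e3, e4] at h3
    rw [h3]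
    exact h0
  have kV : ∀ t : ℤ, c ≤ Pr q {ω | VCross ω t (t + s) 0 (2 * s)} := by
    intro t
    rw [Pr_vcross_eq_hcross]
    have h3 := Pr_hcross_translate (p := q) (a := 0) (b := 2 * (s : ℤ)) (c := 0) (d := s) 0 t
    have e2 : 2 * (s : ℤ) + 0 = 2 * s := by ring
    have e3 : (0 : ℤ) + t = t := by ring
    have e4 : (s : ℤ) + t = t + s := by ring
    have e5 : (0 : ℤ) + 0 = 0 := by ring
    rw [e5, e2, e3, e4] at h3
    rw [h3]
    exact h0.trans (Pr_mono fun ω h => HCross.mono h le_rfl (by omega) (by omega) le_rfl le_rfl)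
  have k1 := kV (-(2 * s))
  have k3 := kV s
  have e1 : -(2 * (s : ℤ)) + s = -s := by ring
  have e2 : (s : ℤ) + s = 2 * s := by ring
  rw [e1] at k1
  rw [e2] at k3
  have h12 := fkg (p := q) (localOn_vcross (-(2 * (s : ℤ))) (-s) 0 (2 * s))
    (localOn_hcross (-(2 * (s : ℤ))) (2 * s) s (2 * s)) (incr_vcross _ _ _ _) (incr_hcross _ _ _ _)
  have h123 := fkg (p := q) ((localOn_vcross (-(2 * (s : ℤ))) (-s) 0 (2 * s)).inter'
    (localOn_hcross (-(2 * (s : ℤ))) (2 * s) s (2 * s))) (localOn_vcross (s : ℤ) (2 * s) 0 (2 * s))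
    ((incr_vcross _ _ _ _).inter (incr_hcross _ _ _ _)) (incr_vcross _ _ _ _)
  have h12' := (mul_le_mul k1 k2 hc.le Pr_nonneg).trans h12
  have h' := (mul_le_mul h12' k3 hc.le Pr_nonneg).trans h123
  have e : c ^ 3 = c * c * c := by ring
  rw [e]
  exact h'

/-- Keep only the edges inside `S`. -/
noncomputable def restr (ω : Config) (S : Set Vert) : Config := fun e => by
  classical exact decide (ω e = true ∧ src e ∈ S ∧ tgt e ∈ S)

lemma restr_iff {e : Edge} : restr ω S e = true ↔ ω e = true ∧ src e ∈ S ∧ tgt e ∈ S := by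
  classical
  simp only [restr, decide_eq_true_eq]

lemma conn_restr {T : Set Vert} (hST : S ⊆ T) {u v : Vert} (h : Conn ω S u v) :
    Conn (restr ω S) T u v := by
  refine h.induction_right (P := fun x => Conn (restr ω S) T u x) (Conn.refl (hST h.mem_left)) ?_
  rintro a b _ ⟨h1, h2, e, h3, h4⟩ ih
  refine ih.tail ⟨hST h1, hST h2, e, h3, restr_iff.2 ⟨h4, ?_⟩⟩
  rcases h3 with ⟨h5, h6⟩ | ⟨h5, h6⟩
  · exact ⟨h5 ▸ h1, h6 ▸ h2⟩
  · exact ⟨h6 ▸ h2, h5 ▸ h1⟩

lemma conn_of_restr {T : Set Vert} {u v : Vert} (hu : u ∈ S) (h : Conn (restr ω S) T u v) :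
    Conn ω S u v := by
  refine h.induction_right (P := fun x => Conn ω S u x) (Conn.refl hu) ?_
  rintro a b _ ⟨_, _, e, h3, h4⟩ ih
  rw [restr_iff] at h4
  refine ih.tail ⟨ih.mem_right, ?_, e, h3, h4.1⟩
  rcases h3 with ⟨h5, h6⟩ | ⟨h5, h6⟩
  · exact h6 ▸ h4.2.2
  · exact h6 ▸ h4.2.1

/-- Crossing paths inside prescribed sets. -/
theorem cross_in {a b c d : ℤ} {S' : Set Vert} {u v u' v' : Vert}
    (h : Conn ω S u v) (hS : S ⊆ rect a b c d) (hu : u.1 = a) (hv : v.1 = b)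
    (h' : Conn ω' S' u' v') (hS' : S' ⊆ rect a b c d) (hu' : u'.2 = c) (hv' : v'.2 = d) :
    ∃ w, Conn ω S u w ∧ Conn ω' S' u' w := by
  obtain ⟨w, h1, h2⟩ := cross (conn_restr hS h) hu hv (conn_restr hS' h') hu' hv'
  exact ⟨w, conn_of_restr h.mem_left h1, conn_of_restr h'.mem_left h2⟩

/-- A path in the upper half plane from `ball 0 s` to distance `2 s` meets the half circuit, which
is joined to the base. -/
theorem HC_meet {s : ℕ} (hs : 1 ≤ s) (h : ω ∈ HC s) (hS : S ⊆ up) {u v : Vert}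
    (hc : Conn ω' S u v) (hu : u ∈ ball 0 s)
    (hv : v ∉ ball 0 (2 * s) ∨ v ∈ sphere 0 (2 * s)) :
    ∃ w, Conn ω' S u w ∧ ∃ b : ℤ, -(2 * s) ≤ b ∧ b ≤ 2 * s ∧ Conn ω (hb 0 (2 * s)) (b, 0) w := by
  obtain ⟨⟨h1, h2⟩, h3⟩ := h
  have hu2 : u ∈ ball 0 (2 * s) := ball_subset_ball (by omega) hu
  obtain ⟨x, hx, hcx⟩ := hc.to_sphere hu2 hv
  have hxS : x ∈ up := hS hcx.mem_right.1
  have hcS : Conn ω' S u x := hcx.mono_set Set.inter_subset_left
  have hsub : ∀ a b c d : ℤ, -(2 * (s : ℤ)) ≤ a → b ≤ 2 * s → 0 ≤ c → d ≤ 2 * s →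
      rect a b c d ⊆ hb 0 (2 * s) := by
    intro a b c d h1 h2 h3 h4 v hv
    refine mem_hb.2 ?_
    obtain ⟨k1, k2, k3, k4⟩ := hv
    push_cast
    omega
  have hin : ∀ T : Set Vert, (∀ w ∈ T, w ∈ S ∩ ball 0 (2 * s)) → ∀ w ∈ T,
      -(2 * (s : ℤ)) ≤ w.1 ∧ w.1 ≤ 2 * s ∧ 0 ≤ w.2 ∧ w.2 ≤ 2 * s := by
    intro T hT w hw
    obtain ⟨k1, k2⟩ := hT w hw
    have : 0 ≤ w.2 := hS k1
    simp only [mem_ball, Prod.fst_zero, Prod.snd_zero] at k2
    push_cast at k2
    omega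
  have hu' := hu
  simp only [mem_ball, Prod.fst_zero, Prod.snd_zero] at hu'
  have hxb := hx.1
  simp only [mem_ball, Prod.fst_zero, Prod.snd_zero] at hxb
  push_cast at hxb
  have hx2 := hx.2
  simp only [Prod.fst_zero, Prod.snd_zero] at hx2
  push_cast at hx2
  have hxup : 0 ≤ x.2 := hxS
  by_cases hxl : x.1 = -(2 * (s : ℤ))
  · -- left strip
    obtain ⟨u', v', k1, k2, k3, k4, k5⟩ := hcx.symm.cross_x (a := -(2 * (s : ℤ))) (b := -s)
      (by omega) (by omega) (by omega)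
    obtain ⟨a, b, k6, k7, k8⟩ := h1
    obtain ⟨w, k9, k10⟩ := cross_in (a := -(2 * (s : ℤ))) (b := -s) (c := 0) (d := 2 * s) k3
      (fun w hw => by
        have h9 := hin _ (fun w h => h.1) w hw
        exact ⟨hw.2.1, hw.2.2, h9.2.2.1, h9.2.2.2⟩) k1 k2 k8 le_rfl k6 k7
    refine ⟨w, ?_, a.1, ?_, ?_, ?_⟩
    · exact hcS.trans ((k4.mono_set Set.inter_subset_left).trans (k9.mono_set fun z hz => hz.1.1))
    · have := k8.mem_left.1; omega
    · have := k8.mem_left.2.1; omega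
    · have : (a.1, (0 : ℤ)) = a := by rw [← k6]
      rw [this]
      exact k10.mono_set (hsub _ _ _ _ (by omega) (by omega) (by omega) (by omega))
  by_cases hxr : x.1 = 2 * (s : ℤ)
  · -- right strip
    obtain ⟨u', v', k1, k2, k3, k4, k5⟩ := hcx.cross_x (a := (s : ℤ)) (b := 2 * s)
      (by omega) (by omega) (by omega)
    obtain ⟨a, b, k6, k7, k8⟩ := h3
    obtain ⟨w, k9, k10⟩ := cross_in (a := (s : ℤ)) (b := 2 * s) (c := 0) (d := 2 * s) k3
      (fun w hw => by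
        have h9 := hin _ (fun w h => h.1) w hw
        exact ⟨hw.2.1, hw.2.2, h9.2.2.1, h9.2.2.2⟩) k1 k2 k8 le_rfl k6 k7
    refine ⟨w, ?_, a.1, ?_, ?_, ?_⟩
    · exact (k4.mono_set Set.inter_subset_left).trans (k9.mono_set fun z hz => hz.1.1)
    · have := k8.mem_left.1; omega
    · have := k8.mem_left.2.1; omega
    · have : (a.1, (0 : ℤ)) = a := by rw [← k6]
      rw [this]
      exact k10.mono_set (hsub _ _ _ _ (by omega) (by omega) (by omega) (by omega))
  -- top strip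
  have hxt : x.2 = 2 * (s : ℤ) := by omega
  obtain ⟨u', v', k1, k2, k3, k4, k5⟩ := hcx.cross_y (a := (s : ℤ)) (b := 2 * s)
    (by omega) (by omega) (by omega)
  obtain ⟨a, b, k6, k7, k8⟩ := h2
  obtain ⟨w, k9, k10⟩ := cross_in (a := -(2 * (s : ℤ))) (b := 2 * s) (c := s) (d := 2 * s) k8
    le_rfl k6 k7 k3 (fun w hw => by
        have h9 := hin _ (fun w h => h.1) w hw
        exact ⟨h9.1, h9.2.1, hw.2.1, hw.2.2⟩) k1 k2
  -- the horizontal crossing meets the left vertical one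
  obtain ⟨a', b', j1, j2, j3, j4, j5⟩ := k8.cross_x (a := -(2 * (s : ℤ))) (b := -s)
    (by omega) (by omega) (by omega)
  obtain ⟨a'', b'', j6, j7, j8⟩ := h1
  obtain ⟨w', j9, j10⟩ := cross_in (a := -(2 * (s : ℤ))) (b := -s) (c := 0) (d := 2 * s) j3
    (fun w hw => ⟨hw.2.1, hw.2.2, by have := hw.1.2.2.1; omega, hw.1.2.2.2⟩) j1 j2 j8 le_rfl j6 j7
  refine ⟨w, ?_, a''.1, ?_, ?_, ?_⟩
  · exact (k4.mono_set Set.inter_subset_left).trans (k10.mono_set fun z hz => hz.1.1)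
  · have := j8.mem_left.1; omega
  · have := j8.mem_left.2.1; omega
  · have : (a''.1, (0 : ℤ)) = a'' := by rw [← j6]
    rw [this]
    have e1 : Conn ω (hb 0 (2 * s)) a'' w' :=
      j10.mono_set (hsub _ _ _ _ (by omega) (by omega) (by omega) (by omega))
    have hss : rect (-(2 * (s : ℤ))) (2 * s) s (2 * s) ⊆ hb 0 (2 * s) :=
      hsub _ _ _ _ (by omega) (by omega) (by omega) (by omega)
    have e2 : Conn ω (hb 0 (2 * s)) a' w' := j9.mono_set fun z hz => hss hz.1
    have e3 : Conn ω (hb 0 (2 * s)) a a' := j4.mono_set hss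
    have e4 : Conn ω (hb 0 (2 * s)) a w := k9.mono_set hss
    exact e1.trans (e2.symm.trans (e3.symm.trans e4))

end Pool.Agent.H26.HP

end

section

/-!
# Half plane, one arm with a free side: the exponent is one

`E1 R z`: the cluster of `(z, 0)` in the half ball of radius `R` reaches distance `R` and does not
touch the base to the right of `(z, 0)`.  Its probability is at most `C / R`.
-/

open MeasureTheory ProbabilityTheory unitInterval

namespace Pool.Agent.H26.HP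

open Pool.Agent.H89.Perc
open Pool.Agent.H61.NC (RSWreg)

variable {ω ω' : Config} {D X S : Set Vert} {R n : ℕ} {q : I} {c : ℝ}

/-- The cluster of `(z, 0)` in the half ball of radius `R` reaches distance `R` and does not touch
the base to the right of `(z, 0)`. -/
def E1 (R : ℕ) (z : ℤ) : Set Config :=
  {ω | (∃ w ∈ sphere (z, 0) R, Conn ω (hb z R) (z, 0) w) ∧
    ∀ x : ℤ, z < x → x ≤ z + R → ¬ Conn ω (hb z R) (z, 0) (x, 0)}

lemma hb_subset_ball {z : ℤ} {r : ℕ} (h : |z| + r ≤ R) : hb z r ⊆ ball 0 R := by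
  intro v hv
  rw [mem_hb] at hv
  simp only [mem_ball, Prod.fst_zero, Prod.snd_zero]
  rcases abs_cases z with ⟨h1, h2⟩ | ⟨h1, h2⟩ <;> rw [h1] at h <;> omega

lemma localOn_E1 (R : ℕ) : LocalOn (eIn R (hb 0 R)) (E1 R 0) := by
  have hD : hb 0 R ⊆ ball 0 R := hb_subset_ball (by simp)
  rintro ω ω' h ⟨⟨w, hw, hc⟩, h2⟩
  refine ⟨⟨w, hw, localOn_conn_in hD _ _ ω ω' h hc⟩, fun x h3 h4 h5 => h2 x h3 h4 ?_⟩
  exact localOn_conn_in hD _ _ ω' ω (fun e he => (h e he).symm) h5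

lemma hb_shift (z : ℤ) (r : ℕ) : {w : Vert | (w.1 - z, w.2 - 0) ∈ hb 0 r} = hb z r := by
  ext w
  simp only [Set.mem_ofPred_eq, mem_hb]
  omega

lemma E1_shift (R : ℕ) (z : ℤ) :
    {ω : Config | (fun e => ω (shiftE (z, 0) e)) ∈ E1 R 0} = E1 R z := by
  have hkey : ∀ (ω : Config) (u v : Vert), Conn (fun e => ω (shiftE (z, 0) e)) (hb 0 R) u v ↔
      Conn ω (hb z R) (u.1 + z, u.2) (v.1 + z, v.2) := by
    intro ω u v
    rw [conn_shift]
    simp only [hb_shift, add_zero]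
  ext ω
  simp only [E1, Set.mem_ofPred_eq]
  constructor
  · rintro ⟨⟨w, hw, hc⟩, h2⟩
    rw [hkey] at hc
    refine ⟨⟨(w.1 + z, w.2), ?_, by simpa using hc⟩, fun x h3 h4 h5 => ?_⟩
    · refine ⟨?_, ?_⟩
      · have := hw.1
        simp only [mem_ball] at this ⊢
        omega
      · have := hw.2
        simp only at this ⊢
        omega
    · refine h2 (x - z) (by omega) (by omega) ?_
      rw [hkey]
      simpa using h5
  · rintro ⟨⟨w, hw, hc⟩, h2⟩
    refine ⟨⟨(w.1 - z, w.2), ?_, ?_⟩, fun x h3 h4 h5 => ?_⟩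
    · refine ⟨?_, ?_⟩
      · have := hw.1
        simp only [mem_ball] at this ⊢
        omega
      · have := hw.2
        simp only at this ⊢
        omega
    · rw [hkey]
      simpa using hc
    · rw [hkey] at h5
      refine h2 (x + z) (by omega) (by omega) ?_
      simpa using h5

lemma Pr_E1 (R : ℕ) (z : ℤ) : Pr q (E1 R z) = Pr q (E1 R 0) := by
  rw [← E1_shift R z, Pr_comp (localOn_E1 R) (shiftE_injective _).injOn]

/-- Restriction to a smaller half ball: a connection to the outer sphere. -/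
lemma reach_restrict {z z' : ℤ} {r r' : ℕ} (h : |z - z'| + r' ≤ r) {u w : Vert}
    (hu : u ∈ ball (z', 0) r') (hw : w ∈ sphere (z, 0) r) (hc : Conn ω (hb z r) u w) :
    ∃ w' ∈ sphere (z', 0) r', Conn ω (hb z' r') u w' := by
  have hw' : w ∉ ball (z', 0) r' ∨ w ∈ sphere (z', 0) r' := by
    by_cases h1 : w ∈ ball (z', 0) r'
    · right
      refine ⟨h1, ?_⟩
      have h2 := hw.2
      have h3 := hw.1
      have h4 : 0 ≤ w.2 := hc.mem_right.2
      simp only [mem_ball] at h1 h2 h3 ⊢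
      rcases abs_cases (z - z') with ⟨h4, h5⟩ | ⟨h4, h5⟩ <;> rw [h4] at h <;> omega
    · exact Or.inl h1
  obtain ⟨x, hx, hcx⟩ := hc.to_sphere (v := (z', 0)) (r := r') hu hw'
  exact ⟨x, hx, hcx.mono_set fun v hv => ⟨hv.2, hv.1.2⟩⟩

lemma hb_subset_hb {z z' : ℤ} {r r' : ℕ} (h : |z - z'| + r' ≤ r) : hb z' r' ⊆ hb z r := by
  intro v hv
  rw [mem_hb] at hv ⊢
  rcases abs_cases (z - z') with ⟨h4, h5⟩ | ⟨h4, h5⟩ <;> rw [h4] at h <;> omega

/-- The main bound at scale `9 n`. -/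
theorem E1_scale (hc : 0 < c) (hn : 1 ≤ n) (hreg : RSWreg c (8 * n) q) :
    (2 * (n : ℝ) + 1) * (c ^ 4 * Pr q (E1 (9 * n) 0)) ≤ 1 := by
  classical
  set D : Set Vert := hb 0 (8 * n) with hD
  have hDR : D ⊆ ball 0 (8 * n) := hb_subset_ball (by simp)
  -- the events
  set A : ℤ → Set Config := fun z => {ω | (∃ w ∈ sphere 0 (8 * n), Conn ω D (z, 0) w) ∧
    ∀ x : ℤ, z < x → x ≤ n → ¬ Conn ω D (z, 0) (x, 0)} with hA
  set B : ℤ → Set Config := fun z => {ω | (∃ w ∈ sphere 0 (8 * n), Conn ω D (z, 0) w) ∧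
    ∀ x : ℤ, z < x → x ≤ n → ¬ ∃ w ∈ sphere 0 (8 * n), Conn ω D (x, 0) w} with hB
  have h0 : ∀ z : ℤ, -(n : ℤ) ≤ z → z ≤ n → c ^ 4 * Pr q (A z) ≤ Pr q (B z) := by
    intro z hz1 hz2
    set Φ : Set Vert → Prop := fun S => (∃ w ∈ sphere 0 (8 * n), w ∈ S) ∧
      ∀ x : ℤ, z < x → x ≤ n → ((x, 0) : Vert) ∉ S with hΦ
    refine explore (X := {(z, 0)}) (A' := fun S => {ω | Φ S})
      (G := fun S => {ω | Φ S ∧ ∀ x : ℤ, z < x → x ≤ n →
        ¬ ∃ w ∈ sphere 0 (8 * n), Conn ω (D \ S) (x, 0) w}) hDR (by positivity) ?_ ?_ ?_ ?_ ?_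
    · rintro ω ⟨⟨w, hw, h1⟩, h2⟩
      refine ⟨⟨w, hw, (z, 0), rfl, h1⟩, ?_⟩
      rintro x h3 h4 ⟨_, rfl, h5⟩
      exact h2 x h3 h4 h5
    · intro S ω ω' _ h
      exact h
    · rintro S ω ω' hω ⟨h1, h2⟩
      refine ⟨h1, fun x h3 h4 => ?_⟩
      rintro ⟨w, hw, h5⟩
      refine h2 x h3 h4 ⟨w, hw, ?_⟩
      exact localOn_conn_in (Set.sdiff_subset.trans hDR) _ _ ω' ω (fun e he => (hω e he).symm) h5
    · intro S
      by_cases hS : Φ S
      · have e1 : {ω : Config | Φ S} = Set.univ := by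
          ext ω; simp [hS]
        rw [e1, Pr_univ, mul_one]
        refine (noCross_reg hc hreg (s := n) (r := 8 * n) (by omega) le_rfl).trans (Pr_mono ?_)
        intro ω hω
        refine ⟨hS, fun x h3 h4 => ?_⟩
        rintro ⟨w, hw, h5⟩
        apply hω
        refine ⟨(x, 0), ?_, w, hw, h5.mono_set (Set.sdiff_subset.trans hDR)⟩
        simp only [mem_ball, Prod.fst_zero, Prod.snd_zero]
        omega
      · have e1 : {ω : Config | Φ S} = ∅ := by
          ext ω; simp [hS]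
        rw [e1]
        have e2 : Pr q (∅ : Set Config) = 0 := by simp [Pr]
        rw [e2, mul_zero]
        exact Pr_nonneg
    · rintro ω ⟨⟨⟨w, hw, _, rfl, h1⟩, h2⟩, h3⟩
      refine ⟨⟨w, hw, h1⟩, fun x h4 h5 => ?_⟩
      rintro ⟨w', hw', h6⟩
      exact h3 x h4 h5 ⟨w', hw', conn_off (h2 x h4 h5) h6⟩
  -- disjointness
  have hsum : ∑ z ∈ Finset.Icc (-(n : ℤ)) n, Pr q (B z) ≤ 1 := by
    have hd : Set.PairwiseDisjoint (↑(Finset.Icc (-(n : ℤ)) n)) B := by
      intro z hz z' hz' hne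
      rw [Finset.coe_Icc, Set.mem_Icc] at hz hz'
      rw [Function.onFun, Set.disjoint_left]
      rintro ω ⟨h1, h2⟩ ⟨h3, h4⟩
      rcases lt_or_gt_of_ne hne with h | h
      · exact h2 z' h hz'.2 h3
      · exact h4 z h hz.2 h1
    have hm : ∀ z ∈ Finset.Icc (-(n : ℤ)) n, MeasurableSet (B z) := by
      intro z _
      have : LocalOn (eIn (8 * n) D) (B z) := by
        rintro ω ω' hω ⟨⟨w, hw, h1⟩, h2⟩
        refine ⟨⟨w, hw, localOn_conn_in hDR _ _ ω ω' hω h1⟩, fun x h3 h4 => ?_⟩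
        rintro ⟨w', hw', h6⟩
        exact h2 x h3 h4 ⟨w', hw', localOn_conn_in hDR _ _ ω' ω (fun e he => (hω e he).symm) h6⟩
      exact this.measurableSet
    have := measureReal_biUnion_finset (μ := μ q) hd hm
    unfold Pr
    rw [← this]
    exact measureReal_le_one
  -- comparison
  have hle : ∀ z ∈ Finset.Icc (-(n : ℤ)) n, c ^ 4 * Pr q (E1 (9 * n) 0) ≤ Pr q (B z) := by
    intro z hz
    rw [Finset.mem_Icc] at hz
    refine le_trans ?_ (h0 z hz.1 hz.2)
    refine mul_le_mul_of_nonneg_left ?_ (by positivity)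
    rw [← Pr_E1 (9 * n) z]
    refine Pr_mono ?_
    rintro ω ⟨⟨w, hw, h1⟩, h2⟩
    have habs : |z - 0| + ((8 * n : ℕ) : ℤ) ≤ ((9 * n : ℕ) : ℤ) := by
      push_cast
      rcases abs_cases (z - 0) with ⟨h4, h5⟩ | ⟨h4, h5⟩ <;> rw [h4] <;> omega
    refine ⟨?_, fun x h3 h4 h5 => ?_⟩
    · refine reach_restrict habs ?_ hw h1
      simp only [mem_ball]
      push_cast
      omega
    · exact h2 x h3 (by push_cast; omega) (h5.mono_set (hb_subset_hb habs))
  calc (2 * (n : ℝ) + 1) * (c ^ 4 * Pr q (E1 (9 * n) 0))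
      = ∑ _z ∈ Finset.Icc (-(n : ℤ)) n, c ^ 4 * Pr q (E1 (9 * n) 0) := by
        rw [Finset.sum_const, Int.card_Icc, nsmul_eq_mul]
        congr 1
        have : ((n : ℤ) + 1 - -(n : ℤ)).toNat = 2 * n + 1 := by omega
        rw [this]
        push_cast
        ring
    _ ≤ ∑ z ∈ Finset.Icc (-(n : ℤ)) n, Pr q (B z) := Finset.sum_le_sum hle
    _ ≤ 1 := hsum

/-- A smaller radius gives a larger event. -/
lemma E1_anti {r : ℕ} (h : r ≤ R) (z : ℤ) : E1 R z ⊆ E1 r z := by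
  rintro ω ⟨⟨w, hw, h1⟩, h2⟩
  have habs : |z - z| + (r : ℤ) ≤ R := by simp [h]
  refine ⟨reach_restrict habs ?_ hw h1, fun x h3 h4 h5 => ?_⟩
  · simp only [mem_ball]; omega
  · exact h2 x h3 (by omega) (h5.mono_set (hb_subset_hb habs))

/-- **(H1)** The one-arm event with a free side has probability at most `C / R`. -/
theorem E1_le (hc : 0 < c) (hR : 1 ≤ R) (hreg : RSWreg c R q) (z : ℤ) :
    Pr q (E1 R z) ≤ 9 / (c ^ 4 * R) := by
  rw [Pr_E1]
  have hc1 : c ≤ 1 := reg_le_one hreg hR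
  have hc4 : c ^ 4 ≤ 1 := pow_le_one₀ hc.le hc1
  have hc40 : 0 < c ^ 4 := by positivity
  have hR0 : (0 : ℝ) < R := by exact_mod_cast hR
  rw [le_div_iff₀ (by positivity)]
  by_cases h9 : R < 9
  · have h1 : (R : ℝ) ≤ 9 := by exact_mod_cast h9.le
    calc Pr q (E1 R 0) * (c ^ 4 * R) ≤ 1 * (1 * 9) := by
          refine mul_le_mul Pr_le_one (mul_le_mul hc4 h1 hR0.le zero_le_one) (by positivity)
            zero_le_one
      _ = 9 := by norm_num
  · set n := R / 9 with hn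
    have hn1 : 1 ≤ n := by omega
    have hnR : 9 * n ≤ R := by omega
    have h1 := E1_scale (q := q) hc hn1 (RSWreg.mono hreg (by omega))
    have h2 : Pr q (E1 R 0) ≤ Pr q (E1 (9 * n) 0) := Pr_mono (E1_anti hnR 0)
    have h3 : (R : ℝ) ≤ 9 * (2 * (n : ℝ) + 1) := by
      have : R ≤ 9 * (2 * n + 1) := by omega
      exact_mod_cast this
    calc Pr q (E1 R 0) * (c ^ 4 * R) ≤ Pr q (E1 (9 * n) 0) * (c ^ 4 * (9 * (2 * (n : ℝ) + 1))) := by
          refine mul_le_mul h2 (mul_le_mul_of_nonneg_left h3 hc40.le) (by positivity) Pr_nonneg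
      _ = 9 * ((2 * (n : ℝ) + 1) * (c ^ 4 * Pr q (E1 (9 * n) 0))) := by ring
      _ ≤ 9 * 1 := by linarith only [h1]
      _ = 9 := by norm_num

end Pool.Agent.H26.HP

end

section

/-!
# Corridors for the outward separation: definitions
-/

open MeasureTheory ProbabilityTheory unitInterval

namespace Pool.Agent.H59.EX

open Pool.Agent.H89.Perc
open Pool.Agent.H29.Sep (Circ)

end Pool.Agent.H59.EX

end
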