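import Pool.Agent.H94.BG.H31.PT.M03_3
import Pool.Agent.H94.BG.H31.PT.M06_2
import Pool.Agent.H94.BG.H31.PT.M10
import Pool.Agent.H94.BG.M06
import Pool.Agent.H94.BG.M08

/-! The parts of this file: H59.EX.GeoP, H59.EX.GeoAll, H59.EX.St4, H59.EX.OutE. -/

section

/-!
# Probability of the crossing events of the corridors
-/

open MeasureTheory ProbabilityTheory unitInterval

namespace Pool.Agent.H59.EX

open Pool.Agent.H89.Perc Pool.Agent.H61.NC
open Pool.Agent.H29.Sep (Circ rect_lower incr_circ localOn_circ)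

namespace GeoP

/-- A local increasing event of probability at least `c`. -/
def Gd (q : I) (c : ℝ) (A : Set Config) : Prop :=
  0 ≤ c ∧ (∃ s : Finset Edge, LocalOn s A) ∧ Incr A ∧ c ≤ Pr q A

theorem Gd.inter {q : I} {c c' : ℝ} {A B : Set Config} (hA : Gd q c A) (hB : Gd q c' B) :
    Gd q (c * c') (A ∩ B) := by
  classical
  obtain ⟨h0, ⟨s, hs⟩, iA, hp⟩ := hA
  obtain ⟨h0', ⟨t, ht⟩, iB, hp'⟩ := hB
  refine ⟨mul_nonneg h0 h0', ⟨s ∪ t, hs.inter' ht⟩, ?_, ?_⟩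
  · exact fun ω ω' hω h => ⟨iA ω ω' hω h.1, iB ω ω' hω h.2⟩
  · exact (mul_le_mul hp hp' h0' (h0.trans hp)).trans (fkg hs ht iA iB)

theorem gd_c {q : I} {c : ℝ} {v : Vert} {ρ : ℕ} (hc : 0 ≤ c) (h : c ≤ Pr q (Circ v ρ)) :
    Gd q c (Circ v ρ) :=
  ⟨hc, ⟨_, localOn_circ v ρ⟩, incr_circ v ρ, h⟩

end GeoP

open GeoP

end Pool.Agent.H59.EX

end

section

/-!
# Corridors for the second point
-/

open MeasureTheory ProbabilityTheory unitInterval

namespace Pool.Agent.H59.EX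

open Pool.Agent.H89.Perc Pool.Agent.H61.NC

end Pool.Agent.H59.EX

end

section

/-!
# Outward separation: stage 4
-/

open MeasureTheory ProbabilityTheory unitInterval

namespace Pool.Agent.H59.EX

open Pool.Agent.H89.Perc Pool.Agent.H61.NC

variable {s : Src} {w ρ ρ' : ℕ} {v v' : Vert} {d d' : Side} {Z Zy : Set Vert} {Nev Ny : Set Config}
  {q : I}

private theorem st4_cut_congr {s : Src} {ω ω' : Config} {e : Edge} (h : ω e = ω' e) :
    s.cut ω e = s.cut ω' e := by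
  unfold Src.cut closeS
  rw [h]

private theorem st4_fill_congr {s : Src} {Z : Set Vert} {ω ω' : Config} {e : Edge}
    (h : ω e = ω' e) : fillV Z (s.cut ω) e = fillV Z (s.cut ω') e := by
  unfold fillV
  rw [st4_cut_congr h]

/-- A path depends only on the edges touching the cluster. -/
private theorem st4_conn_transfer {ω ω' : Config} {D : Set Vert} {S : Set Vert} {x u : Vert}
    (hS : ∀ a, Conn ω D x a → a ∈ S)
    (h : ∀ a b e, Joins e a b → a ∈ D → b ∈ D → a ∈ S → ω e = ω' e) (hc : Conn ω D x u) :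
    Conn ω' D x u := by
  refine hc.induction_right (P := fun u => Conn ω' D x u) (Conn.refl hc.mem_left) ?_
  rintro a b hxa ⟨ha, hb, e, hj, ho⟩ ih
  exact ih.tail ⟨ha, hb, e, hj, by rw [← h a b e hj ha hb (hS a hxa)]; exact ho⟩

/-- The clusters depend only on the edges of the domain. -/
private theorem st4_clus_congr {ω ω' : Config} {D X : Set Vert}
    (h : ∀ e ∈ inE D, ω e = ω' e) : clus ω D X = clus ω' D X := by
  ext a
  constructor
  · rintro ⟨x, hx, hc⟩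
    exact ⟨x, hx, hc.congr fun e h1 h2 => h e ⟨h1, h2⟩⟩
  · rintro ⟨x, hx, hc⟩
    exact ⟨x, hx, hc.congr fun e h1 h2 => (h e ⟨h1, h2⟩).symm⟩

/-- The cluster of `y` in `ball 0 (8 w) ∪ Zy` off the set `H`, with `Zy` filled. -/
private def st4_RR (s : Src) (w : ℕ) (Zy : Set Vert) (H : Set Vert) (ω : Config) : Set Vert :=
  clus (fillV Zy (s.cut ω)) ((ball 0 (8 * w) ∪ Zy) \ H) {s.y}

/-- The pair of clusters. -/
private def st4_X (s : Src) (w : ℕ) (Z Zy : Set Vert) (ω : Config) : Set Vert × Set Vert :=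
  (SH s w Z ω, st4_RR s w Zy (SH s w Z ω) ω)

/-- The determined edges. -/
private def st4_t (w : ℕ) (Zy : Set Vert) (i : Set Vert × Set Vert) : Set Edge :=
  touch (ball 0 (160 * w)) i.1 ∪ touch ((ball 0 (8 * w) ∪ Zy) \ i.1) i.2

/-- The point `y` of the source is far from `v'`. -/
private theorem st4_y_far (hρ : 1 ≤ ρ) (hw : 64 * ρ ≤ w) (hv : v ∈ sphere 0 (8 * w)) :
    s.y ∉ ball v (3 * ρ) := by
  intro h
  have h1 := s.hy
  have h2 := hv.2
  simp only [mem_ball, Prod.fst_zero, Prod.snd_zero] at h h1 h2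
  push_cast at h h1 h2
  omega

private theorem st4_y_mem_ball (hw : 1 ≤ w) : s.y ∈ ball 0 (8 * w) := by
  have h1 := s.hy
  simp only [mem_ball, Prod.fst_zero, Prod.snd_zero] at h1 ⊢
  push_cast at h1 ⊢
  omega

/-- The landing of `y` gives `Zy ⊆ R`. -/
private theorem st4_Zy_sub (hKy : CorrData w ρ' v' d' Zy Ny) {H : Set Vert} {ω : Config}
    (hd : Disjoint Zy H)
    (h : ∃ u ∈ sphere 0 (8 * w), u ∈ ball v' ρ' ∧ Conn (s.cut ω) (ball 0 (8 * w) \ H) s.y u) :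
    Zy ⊆ st4_RR s w Zy H ω := by
  obtain ⟨u, _, hu, hc⟩ := h
  have huZ : u ∈ Zy := by
    apply hKy.ball_sub
    simp only [mem_ball] at hu ⊢
    push_cast
    omega
  have hsub : Zy ⊆ (ball 0 (8 * w) ∪ Zy) \ H := fun a ha =>
    ⟨Or.inr ha, fun h => Set.disjoint_left.1 hd ha h⟩
  have huR : u ∈ st4_RR s w Zy H ω :=
    ⟨s.y, rfl, hc.mono (fun a ha => ⟨Or.inl ha.1, ha.2⟩) fun e he => fillV_true.2 (Or.inl he)⟩
  intro b hb
  exact clus_conn huR (conn_fillV hsub (hKy.conn u huZ b hb))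

/-- The pair of clusters depends only on the determined edges. -/
private theorem st4_X_congr {i : Set Vert × Set Vert} (hZ : Z ⊆ i.1) (hZy : Zy ⊆ i.2)
    {ω ω' : Config} (h : ∀ e ∈ st4_t w Zy i, ω e = ω' e) (hω : st4_X s w Z Zy ω = i) :
    st4_X s w Z Zy ω' = i := by
  have h1 : SH s w Z ω' = i.1 :=
    locS_clus_fill (D := ball 0 (160 * w)) (X := {s.x}) hZ (s.cut ω) (s.cut ω')
      (fun e he => st4_cut_congr (h e (Or.inl he.1))) (congrArg Prod.fst hω)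
  have h0 : SH s w Z ω = i.1 := congrArg Prod.fst hω
  have h2 : st4_RR s w Zy i.1 ω = i.2 := by
    have := congrArg Prod.snd hω
    rw [← h0]
    exact this
  have h3 : st4_RR s w Zy i.1 ω' = i.2 :=
    locS_clus_fill (D := (ball 0 (8 * w) ∪ Zy) \ i.1) (X := {s.y}) hZy (s.cut ω) (s.cut ω')
      (fun e he => st4_cut_congr (h e (Or.inr he.1))) h2
  refine Prod.ext h1 ?_
  change st4_RR s w Zy (SH s w Z ω') ω' = i.2
  rw [h1]
  exact h3

/-- The event depends only on the determined edges. -/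
private theorem st4_A_congr (hK : CorrData w ρ v d Z Nev) (hKy : CorrData w ρ' v' d' Zy Ny)
    (hS : CorrSep w ρ' v' Z Zy) (hρ' : 1 ≤ ρ') {ω ω' : Config}
    (h : ∀ e ∈ st4_t w Zy (st4_X s w Z Zy ω), ω e = ω' e)
    (hω : ω ∈ Ev3 s w ρ' v' d Z ∩ Ny) :
    st4_X s w Z Zy ω' = st4_X s w Z Zy ω ∧ ω' ∈ Ev3 s w ρ' v' d Z ∩ Ny := by
  obtain ⟨⟨hC, hL, hdis⟩, hN⟩ := hω
  have hZ : Z ⊆ SH s w Z ω := Z_sub_SH_of_conf hK hC
  have hdZ : Disjoint Zy (SH s w Z ω) := Zy_disj_SH hKy hS hρ' hC hdis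
  have hZy : Zy ⊆ st4_RR s w Zy (SH s w Z ω) ω := st4_Zy_sub hKy hdZ hL
  have hX := st4_X_congr (s := s) (w := w) (Z := Z) (i := st4_X s w Z Zy ω) hZ hZy h rfl
  refine ⟨hX, ?_⟩
  have h1 : SH s w Z ω' = SH s w Z ω := congrArg Prod.fst hX
  have hHW : SH s w Z ω ⊆ ball 0 (160 * w) := clus_sub
  obtain ⟨hy, hF, hconf⟩ := hC
  obtain ⟨u, hu, huv, hyu⟩ := hL
  refine ⟨⟨⟨?_, ?_, ?_⟩, ⟨u, hu, huv, ?_⟩, ?_⟩, ?_⟩
  · rw [h1]
    exact hy
  · rw [h1]
    refine fence_congr (fun e he => ?_) (fun e he => ?_) hF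
    · refine st4_cut_congr (h e (Or.inl ⟨⟨?_, ?_⟩, Or.inl ?_⟩))
      · exact hHW (hZ (hK.T_sub he.1))
      · exact hHW (hZ (hK.T_sub he.2))
      · exact hZ (hK.T_sub he.1)
    · exact st4_cut_congr (h e (Or.inl ⟨⟨hHW he.1.1, hHW he.2.1⟩, Or.inl he.1.1⟩))
  · rw [h1]
    exact hconf
  · rw [h1]
    refine st4_conn_transfer (S := st4_RR s w Zy (SH s w Z ω) ω) (fun a ha => ?_)
      (fun a b e hj ha hb haS => ?_) hyu
    · exact ⟨s.y, rfl, ha.mono (fun a ha => ⟨Or.inl ha.1, ha.2⟩)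
        fun e he => fillV_true.2 (Or.inl he)⟩
    · refine st4_cut_congr (h e (Or.inr ((touch_of_joins hj).2 ⟨⟨?_, ?_⟩, Or.inl haS⟩)))
      · exact ⟨Or.inl ha.1, ha.2⟩
      · exact ⟨Or.inl hb.1, hb.2⟩
  · rw [h1]
    exact hdis
  · refine hKy.loc ω ω' (fun e he => h e (Or.inr ⟨⟨⟨Or.inr he.1, ?_⟩, ⟨Or.inr he.2, ?_⟩⟩,
      Or.inl (hZy he.1)⟩)) hN
    · exact fun hh => Set.disjoint_left.1 hdZ he.1 hh
    · exact fun hh => Set.disjoint_left.1 hdZ he.2 hh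

private theorem st4_dom_sub (hK : CorrData w ρ v d Z Nev) (hKy : CorrData w ρ' v' d' Zy Ny) :
    dom d d' (4 * w) ⊆ ball 0 (160 * w) := by
  rintro a (h | h | h)
  · simp only [mem_ball, Prod.fst_zero, Prod.snd_zero] at h ⊢
    push_cast at h ⊢
    omega
  · exact corr_sub160 hK (hK.T_sub h)
  · exact corr_sub160 hKy (hKy.T_sub h)

private theorem st4_corr_dom_left (hK : CorrData w ρ v d Z Nev) :
    ball 0 (8 * w) ∪ Z ⊆ dom d d' (4 * w) := by
  have hb : ball (0 : Vert) (128 * w) ⊆ dom d d' (4 * w) := by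
    intro a ha
    refine Or.inl ?_
    simp only [mem_ball, Prod.fst_zero, Prod.snd_zero] at ha ⊢
    push_cast at ha ⊢
    omega
  rintro a (h | h)
  · apply hb
    simp only [mem_ball, Prod.fst_zero, Prod.snd_zero] at h ⊢
    push_cast at h ⊢
    omega
  · rcases hK.sub h with h | h
    · exact hb h
    · exact Or.inr (Or.inl h)

private theorem st4_corr_dom_right (hKy : CorrData w ρ' v' d' Zy Ny) :
    ball 0 (8 * w) ∪ Zy ⊆ dom d d' (4 * w) := by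
  have hb : ball (0 : Vert) (128 * w) ⊆ dom d d' (4 * w) := by
    intro a ha
    refine Or.inl ?_
    simp only [mem_ball, Prod.fst_zero, Prod.snd_zero] at ha ⊢
    push_cast at ha ⊢
    omega
  rintro a (h | h)
  · apply hb
    simp only [mem_ball, Prod.fst_zero, Prod.snd_zero] at h ⊢
    push_cast at h ⊢
    omega
  · rcases hKy.sub h with h | h
    · exact hb h
    · exact Or.inr (Or.inr h)

/-- Deterministic part of stage 4. -/
private theorem st4_det (hK : CorrData w ρ v d Z Nev) (hKy : CorrData w ρ' v' d' Zy Ny)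
    (hS : CorrSep w ρ' v' Z Zy) (hρ' : 4 ≤ ρ') (hρ : 64 * ρ' ≤ ρ)
    (hw : 64 * ρ ≤ w) {K : ℕ} (hwK : w ≤ K * ρ') (hv' : v' ∈ sphere 0 (8 * w)) {ω : Config}
    (h3 : ω ∈ Ev3 s w ρ' v' d Z) (hN : ω ∈ Ny)
    (hs : ω ∈ Seal (grid ρ' (160 * K)) ρ' (st4_t w Zy (st4_X s w Z Zy ω))) :
    ω ∈ Sep s d d' (4 * w) := by
  have hρ'1 : 1 ≤ ρ' := by omega
  have hw1 : 1 ≤ w := by omega
  have hw' : 64 * ρ' ≤ w := by omega
  obtain ⟨hC, hL, hdis⟩ := h3
  have hZ : Z ⊆ SH s w Z ω := Z_sub_SH_of_conf hK hC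
  have hdZ : Disjoint Zy (SH s w Z ω) := Zy_disj_SH hKy hS hρ'1 hC hdis
  have hZy : Zy ⊆ st4_RR s w Zy (SH s w Z ω) ω := st4_Zy_sub hKy hdZ hL
  obtain ⟨hy, hF, hconf⟩ := hC
  obtain ⟨u, hu, huv, hyu⟩ := hL
  set H : Set Vert := SH s w Z ω with hH
  set R : Set Vert := st4_RR s w Zy H ω with hR
  have hRsub : ∀ a ∈ R, a ∈ ball 0 (8 * w) ∪ Zy ∧ a ∉ H := fun a ha => clus_sub ha
  have hZyH : ∀ a ∈ Zy, a ∉ H := fun a ha h => Set.disjoint_left.1 hdZ ha h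
  have hDW : ball (0 : Vert) (8 * w) ∪ Zy ⊆ ball 0 (160 * w) :=
    (st4_corr_dom_right (d := d) hKy).trans (st4_dom_sub hK hKy)
  -- the edges of `Z ∪ Zy`
  have hZZ : ∀ {e : Edge} {a b : Vert}, Joins e a b → e ∈ inE (Z ∪ Zy) →
      (a ∈ Z ∧ b ∈ Z) ∨ (a ∈ Zy ∧ b ∈ Zy) := by
    intro e a b hj he
    have h1 := (inE_of_joins hj).1 he
    have hfar : ∀ {p p' : Vert}, p ∈ Z → p' ∈ Zy → ¬ p' ∈ ball p 1 := by
      intro p p' hp hp' hpp
      refine hS.far p hp p' hp' ?_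
      simp only [mem_ball] at hpp ⊢
      push_cast at hpp ⊢
      omega
    rcases h1 with ⟨h1 | h1, h2 | h2⟩
    · exact Or.inl ⟨h1, h2⟩
    · exact absurd (ball_of_joins hj.symm) (hfar h1 h2)
    · exact absurd (ball_of_joins hj) (hfar h2 h1)
    · exact Or.inr ⟨h1, h2⟩
  -- `H` is closed
  have hclosed : ∀ {e : Edge} {a b : Vert}, Joins e a b → fillV (Z ∪ Zy) (s.cut ω) e = true →
      a ∈ ball 0 (160 * w) → b ∈ ball 0 (160 * w) → a ∈ H → b ∈ H := by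
    intro e a b hj ho ha hb haH
    have haH' := haH
    refine clus_step (ω := fillV Z (s.cut ω)) (D := ball 0 (160 * w)) (X := {s.x}) haH
      ⟨ha, hb, e, hj, ?_⟩
    rw [fillV_true] at ho ⊢
    rcases ho with ho | ho
    · exact Or.inl ho
    · rcases hZZ hj ho with h | h
      · exact Or.inr ((inE_of_joins hj).2 h)
      · exact absurd haH' (hZyH a h.1)
  have hxH : s.x ∈ H := by
    refine ⟨s.x, rfl, Conn.refl ?_⟩
    have h1 := s.hx
    simp only [mem_ball, Prod.fst_zero, Prod.snd_zero] at h1 ⊢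
    push_cast at h1 ⊢
    omega
  have hconnH : ∀ z, Conn (fillV (Z ∪ Zy) (s.cut ω)) (ball 0 (160 * w)) s.x z → z ∈ H := by
    intro z hz
    refine hz.induction_right (P := fun z => z ∈ H) hxH ?_
    rintro a b _ ⟨ha, hb, e, hj, ho⟩ ih
    exact hclosed hj ho ha hb ih
  -- from the separated event to `W`
  have hTT : T d (4 * w) ∪ T d' (4 * w) ⊆ Z ∪ Zy := by
    rintro a (h | h)
    · exact Or.inl (hK.T_sub h)
    · exact Or.inr (hKy.T_sub h)
  have hlift : ∀ {a b : Vert},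
      Conn (fillV (T d (4 * w) ∪ T d' (4 * w)) (s.cut ω)) (dom d d' (4 * w)) a b →
      Conn (fillV (Z ∪ Zy) (s.cut ω)) (ball 0 (160 * w)) a b := by
    intro a b h
    exact h.mono (st4_dom_sub hK hKy) fun e he => fillV_mono hTT he
  have hyR : s.y ∈ R := ⟨s.y, rfl, Conn.refl ⟨Or.inl (st4_y_mem_ball hw1), hy⟩⟩
  set Ex : Set Vert := {a | a ∈ R ∧ ∃ b e, Joins e a b ∧ b ∉ ball 0 (8 * w) ∪ Zy} with hEx
  have conf : ∀ z, Conn (fillV (Z ∪ Zy) (s.cut ω)) (ball 0 (160 * w)) s.y z →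
      z ∈ R ∨ (z ∉ H ∧ ∃ a ∈ Ex, z ∈ ball a (4 * ρ')) := by
    intro z hz
    refine seal_confine (ω := ω) (F := H) (t := st4_t w Zy (st4_X s w Z Zy ω))
      (G := grid ρ' (160 * K)) ?_ hs ?_ ?_ ?_ ?_ ?_ hyR hz
    · intro e he ho
      rcases fillV_true.1 ho with h | h
      · exact cut_le h
      · exfalso
        rcases hZZ (joins_src_tgt e) h with h | h
        · exact he (Or.inl ⟨⟨corr_sub160 hK h.1, corr_sub160 hK h.2⟩, Or.inl (hZ h.1)⟩)
        · exact he (Or.inr ⟨⟨⟨Or.inr h.1, hZyH _ h.1⟩, ⟨Or.inr h.2, hZyH _ h.2⟩⟩,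
            Or.inl (hZy h.1)⟩)
    · rintro a ⟨ha, -⟩
      refine exists_grid (by omega) ?_
      have h1 := hDW (hRsub a ha).1
      have h2 : (160 * w : ℕ) ≤ 160 * K * ρ' := by
        calc 160 * w ≤ 160 * (K * ρ') := Nat.mul_le_mul_left _ hwK
          _ = 160 * K * ρ' := by ring
      have h3 : ((160 * w : ℕ) : ℤ) ≤ ((160 * K * ρ' : ℕ) : ℤ) := by exact_mod_cast h2
      simp only [mem_ball, Prod.fst_zero, Prod.snd_zero] at h1 ⊢
      omega
    · intro a b e hj ho haW hbW ha hb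
      have hbH : b ∉ H := fun h => (hRsub a ha).2 (hclosed hj.symm ho hbW haW h)
      have hb' : b ∉ ball 0 (8 * w) ∪ Zy := by
        intro h
        refine hb (clus_step ha ⟨hRsub a ha, ⟨h, hbH⟩, e, hj, ?_⟩)
        rw [fillV_true] at ho ⊢
        rcases ho with ho | ho
        · exact Or.inl ho
        · rcases hZZ hj ho with h | h
          · exact absurd (hZ h.1) (hRsub a ha).2
          · exact Or.inr ((inE_of_joins hj).2 h)
      refine ⟨⟨ha, b, e, hj, hb'⟩, hbH, ?_⟩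
      rintro (h | h)
      · rcases ((touch_of_joins hj).1 h).2 with h | h
        · exact (hRsub a ha).2 h
        · exact hbH h
      · exact hb' ((touch_of_joins hj).1 h).1.2.1
    · intro a b e hj ho haW hbW _ ha2 hb
      exact absurd (hclosed hj.symm ho hbW haW hb) ha2
    · rintro a b e hj _ _ _ ha1 ha2 hb1 hb2 (h | h)
      · rcases ((touch_of_joins hj).1 h).2 with h | h
        · exact ha2 h
        · exact hb2 h
      · rcases ((touch_of_joins hj).1 h).2 with h | h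
        · exact ha1 h
        · exact hb1 h
    · intro a b e hj ho haW hbW _ ha2 hb
      exact absurd (hclosed hj.symm ho hbW haW hb) ha2
  have h128 : ∀ {z : Vert}, z ∈ sphere 0 (32 * (4 * w)) → z ∈ sphere 0 (128 * w) := by
    intro z hz
    have e : 32 * (4 * w) = 128 * w := by ring
    rwa [e] at hz
  have hnear : ∀ {z a : Vert}, z ∈ sphere 0 (128 * w) → z ∈ ball a (4 * ρ') →
      a ∉ ball 0 (8 * w) := by
    intro z a hz hza ha
    have hz2 := hz.2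
    simp only [mem_ball, Prod.fst_zero, Prod.snd_zero] at hza ha hz2
    push_cast at hza ha hz2
    omega
  have hball : ∀ {z a : Vert}, z ∈ ball a (4 * ρ') → z ∈ ball a w := by
    intro z a h
    simp only [mem_ball] at h ⊢
    push_cast at h ⊢
    omega
  have hself : ∀ {z : Vert} {r : ℕ}, z ∈ ball z r := by
    intro z r
    exact self_mem_ball
  refine ⟨?_, ?_, ?_, ?_, ?_⟩
  · exact fence_mono (fun a ha => st4_corr_dom_left hK ha.2) (fun _ h => h) hF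
  · -- the fence of `y`
    obtain ⟨z, hz, hf⟩ := hKy.hook ω hN (s.cut ω) (ball 0 (8 * w) \ H) u s.y hyu.symm huv
      (st4_y_far hρ'1 hw' hv')
    have hcut : ∀ e ∈ inE Zy, ω e = s.cut ω e := fun e he =>
      (corr_cut hKy hρ'1 hw' hv' he).symm
    have hf' : Fence d' (4 * w) (s.cut ω) Zy z :=
      fence_congr (fun e he => hcut e ⟨hKy.T_sub he.1, hKy.T_sub he.2⟩) hcut hf
    have hsub := st4_corr_dom_right (d := d) hKy
    have hyz : Conn (s.cut ω) (dom d d' (4 * w)) s.y z :=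
      (hyu.trans hz).mono_set fun a ha => hsub (Or.inl ha.1)
    exact fence_trans hyz (fence_mono (fun a ha => hsub (Or.inr ha)) (fun _ h => h) hf')
  · intro h
    exact hy (hconnH _ (hlift h))
  · intro z hz h
    have hz' := h128 hz
    rcases hconf z (hconnH z (hlift h)) with h1 | ⟨a, ha, h1⟩ | ⟨a, _, ha, h1⟩
    · exact absurd h1 (hnear hz' hself)
    · exact hK.mouth z hz' a ha (hball h1)
    · exact absurd ha.1 (hnear hz' h1)
  · intro z hz h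
    have hz' := h128 hz
    rcases conf z (hlift h) with h1 | ⟨-, a, ha, h1⟩
    · rcases (hRsub z h1).1 with h2 | h2
      · exact absurd h2 (hnear hz' hself)
      · exact hKy.mouth z hz' z h2 hself
    · rcases (hRsub a ha.1).1 with h2 | h2
      · exact absurd h2 (hnear hz' h1)
      · exact hKy.mouth z hz' a h2 (hball h1)

/-- Stage 4: seal the cluster of `y`. -/
theorem stage4 (c : ℝ) (hc : 0 < c) (K : ℕ) : ∃ c' : ℝ, 0 < c' ∧ ∀ (s : Src) (w ρ ρ' : ℕ)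
    (v v' : Vert) (d d' : Side) (Z Zy : Set Vert) (Nev Ny : Set Config) (n : ℕ) (q : I),
    CorrData w ρ v d Z Nev → CorrData w ρ' v' d' Zy Ny → CorrSep w ρ' v' Z Zy → 4 ≤ ρ' →
    64 * ρ' ≤ ρ → 64 * ρ ≤ w → w ≤ K * ρ' → v ∈ sphere 0 (8 * w) → v' ∈ sphere 0 (8 * w) →
    w ≤ n → RSWreg c n q →
      c' * Pr q (Ev3 s w ρ' v' d Z ∩ Ny) ≤ Pr q (Sep s d d' (4 * w)) := by
  classical
  obtain ⟨c', hc', hlow⟩ := seal_lower c hc 1 ((2 * (160 * K) + 1) ^ 2)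
  refine ⟨c', hc', fun s w ρ ρ' v v' d d' Z Zy Nev Ny n q hK hKy hS hρ' hρ hw hwK hv hv' hn hR =>
    ?_⟩
  have hρ'1 : 1 ≤ ρ' := by omega
  have hw1 : 1 ≤ w := by omega
  -- the finite set of edges
  obtain ⟨Λ1, hΛ1⟩ : ∃ Λ : Finset Edge, ∀ e ∈ inE (ball 0 (160 * w)), e ∈ Λ :=
    ⟨eRect (-(160 * w : ℕ)) (160 * w : ℕ) (-(160 * w : ℕ)) (160 * w : ℕ), fun e he => by
      rw [mem_eRect]
      have h := he.1
      unfold ball at h
      simp only [Prod.fst_zero, Prod.snd_zero, zero_sub, zero_add] at h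
      exact h⟩
  obtain ⟨Λ2, hΛ2⟩ := localOn_seal (grid ρ' (160 * K)) ρ'
  have hDW : ball (0 : Vert) (8 * w) ∪ Zy ⊆ ball 0 (160 * w) :=
    (st4_corr_dom_right (d := d) hKy).trans (st4_dom_sub hK hKy)
  have hΛ : ∀ e ∈ inE (ball 0 (160 * w)), e ∈ Λ1 ∪ Λ2 := fun e he =>
    Finset.mem_union_left _ (hΛ1 e he)
  have hXc : ∀ ω ω' : Config, (∀ e ∈ Λ1 ∪ Λ2, ω e = ω' e) →
      st4_X s w Z Zy ω = st4_X s w Z Zy ω' := by
    intro ω ω' h
    have h1 : SH s w Z ω = SH s w Z ω' :=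
      st4_clus_congr fun e he => st4_fill_congr (h e (hΛ e he))
    refine Prod.ext h1 ?_
    change st4_RR s w Zy (SH s w Z ω) ω = st4_RR s w Zy (SH s w Z ω') ω'
    rw [← h1]
    exact st4_clus_congr fun e he => st4_fill_congr (h e (hΛ e ⟨hDW he.1.1, hDW he.2.1⟩))
  have htW : ∀ {i : Set Vert × Set Vert}, ∀ e ∈ st4_t w Zy i, e ∈ inE (ball 0 (160 * w)) := by
    rintro i e (he | he)
    · exact he.1
    · exact ⟨hDW he.1.1.1, hDW he.1.2.1⟩
  have main := markov_indep (Λ := Λ1 ∪ Λ2) (q := q) (c := c')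
    (fun ω => st4_X s w Z Zy ω)
    (fun i => Z ⊆ i.1 ∧ Zy ⊆ i.2) (fun i => st4_t w Zy i)
    (fun i => {ω | st4_X s w Z Zy ω = i} ∩ (Ev3 s w ρ' v' d Z ∩ Ny))
    (fun i => Seal (grid ρ' (160 * K)) ρ' (st4_t w Zy i))
    ?_ ?_ ?_ ?_ ?_ ?_ ?_ hc'.le
  · have e1 : Ev3 s w ρ' v' d Z ∩ Ny ⊆
        {ω | (Z ⊆ (st4_X s w Z Zy ω).1 ∧ Zy ⊆ (st4_X s w Z Zy ω).2) ∧
          ω ∈ {ω' | st4_X s w Z Zy ω' = st4_X s w Z Zy ω} ∩ (Ev3 s w ρ' v' d Z ∩ Ny)} := by
      intro ω hω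
      have hC := hω.1.1
      exact ⟨⟨Z_sub_SH_of_conf hK hC,
        st4_Zy_sub hKy (Zy_disj_SH hKy hS hρ'1 hC hω.1.2.2) hω.1.2.1⟩, rfl, hω⟩
    refine le_trans (mul_le_mul_of_nonneg_left (Pr_mono e1) hc'.le) (le_trans main (Pr_mono ?_))
    rintro ω ⟨_, ⟨_, h3, hN⟩, hs⟩
    exact st4_det hK hKy hS hρ' hρ hw hwK hv' h3 hN hs
  · intro i ω ω' h hω
    change st4_X s w Z Zy ω' = i
    rw [← hXc ω ω' h]
    exact hω
  · intro i hi ω ω' h hω
    exact st4_X_congr hi.1 hi.2 h hω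
  · rintro i ω ω' h ⟨hω, hA⟩
    obtain ⟨h1, h2⟩ := st4_A_congr (ω' := ω') hK hKy hS hρ'1
      (fun e he => h e (hΛ e (htW e he))) hA
    exact ⟨h1.trans hω, h2⟩
  · rintro i hi ω ω' h ⟨hω, hA⟩
    obtain ⟨h1, h2⟩ := st4_A_congr (ω' := ω') hK hKy hS hρ'1
      (fun e he => h e (by
        have hω' : st4_X s w Z Zy ω = i := hω
        rw [← hω']
        exact he)) hA
    exact ⟨h1.trans hω, h2⟩
  · intro i ω ω' h
    exact hΛ2 _ ω ω' fun e he => h e (Finset.mem_union_right _ he)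
  · intro i _
    exact locS_seal _ _ _
  · intro i _
    exact hlow n ρ' q _ _ (by omega) hR (by omega) (by omega) (card_grid _ _)

end Pool.Agent.H59.EX

end

section

/-!
# Outward separation: assembly
-/

open MeasureTheory ProbabilityTheory unitInterval

namespace Pool.Agent.H59.EX

open Pool.Agent.H89.Perc Pool.Agent.H61.NC
open Pool.Agent.H29.Sep (LocTwo BadIn)

/-! ### Nets -/

/-- Points with step `ρ` in `[-8 w, 8 w]`. -/
theorem oute_net1 {w ρ : ℕ} (hρ : 1 ≤ ρ) {y : ℤ} (h1 : -(8 * (w : ℤ)) ≤ y) (h2 : y ≤ 8 * w) :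
    ∃ j ∈ Finset.range (16 * w / ρ + 1), -(8 * (w : ℤ)) + j * ρ ≤ y ∧
      y ≤ -(8 * (w : ℤ)) + j * ρ + ρ := by
  obtain ⟨t, ht⟩ := Int.eq_ofNat_of_zero_le (show 0 ≤ y + 8 * w by omega)
  have ht' : t ≤ 16 * w := by omega
  refine ⟨t / ρ, ?_, ?_, ?_⟩
  · rw [Finset.mem_range, Nat.lt_succ_iff]
    exact Nat.div_le_div_right ht'
  · have h3 := Nat.div_mul_le_self t ρ
    have h4 : ((t / ρ : ℕ) : ℤ) * (ρ : ℤ) ≤ t := by exact_mod_cast h3
    omega
  · have h3 : t < t / ρ * ρ + ρ := Nat.lt_div_mul_add (by omega)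
    have h4 : (t : ℤ) < ((t / ρ : ℕ) : ℤ) * (ρ : ℤ) + ρ := by exact_mod_cast h3
    omega

theorem oute_net2 {w ρ j : ℕ} (hj : j ∈ Finset.range (16 * w / ρ + 1)) :
    0 ≤ (j : ℤ) * ρ ∧ (j : ℤ) * ρ ≤ 16 * w := by
  rw [Finset.mem_range, Nat.lt_succ_iff] at hj
  have h3 : j * ρ ≤ 16 * w := (Nat.mul_le_mul_right ρ hj).trans (Nat.div_mul_le_self _ _)
  exact ⟨by positivity, by exact_mod_cast h3⟩

theorem oute_netE {w ρ : ℕ} (hρ : 1 ≤ ρ) : ∃ V : Finset Vert,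
    (∀ v ∈ V, OnSide .E (8 * w) v) ∧ V.card ≤ 16 * w / ρ + 1 ∧
      ∀ u, OnSide .E (8 * w) u → ∃ v ∈ V, u ∈ ball v ρ := by
  classical
  refine ⟨(Finset.range (16 * w / ρ + 1)).image
    (fun j : ℕ => ((8 * w : ℕ), -(8 * (w : ℤ)) + j * ρ)), ?_, ?_, ?_⟩
  · intro v hv
    obtain ⟨j, hj, rfl⟩ := Finset.mem_image.1 hv
    obtain ⟨h1, h2⟩ := oute_net2 hj
    refine ⟨?_, rfl⟩
    simp only [sphere, ball, rect, Set.mem_ofPred_eq, Prod.fst_zero, Prod.snd_zero]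
    push_cast
    omega
  · exact Finset.card_image_le.trans (by simp)
  · rintro u ⟨⟨h1, -⟩, h2⟩
    simp only [ball, rect, Set.mem_ofPred_eq, Prod.fst_zero, Prod.snd_zero] at h1 h2
    push_cast at h1 h2
    obtain ⟨j, hj, h3, h4⟩ := oute_net1 (w := w) hρ (y := u.2) (by omega) (by omega)
    refine ⟨_, Finset.mem_image_of_mem _ hj, ?_⟩
    simp only [ball, rect, Set.mem_ofPred_eq]
    push_cast
    omega

theorem oute_netS {w ρ : ℕ} (hρ : 1 ≤ ρ) : ∃ V : Finset Vert,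
    (∀ v ∈ V, v ∈ sphere 0 (8 * w)) ∧ V.card ≤ 4 * (16 * w / ρ + 1) ∧
      ∀ u ∈ sphere 0 (8 * w), ∃ v ∈ V, u ∈ ball v ρ := by
  classical
  set r := Finset.range (16 * w / ρ + 1) with hr
  refine ⟨(r.image (fun j : ℕ => (((8 * w : ℕ) : ℤ), -(8 * (w : ℤ)) + j * ρ)) ∪
    r.image (fun j : ℕ => (-((8 * w : ℕ) : ℤ), -(8 * (w : ℤ)) + j * ρ))) ∪
    (r.image (fun j : ℕ => (-(8 * (w : ℤ)) + j * ρ, ((8 * w : ℕ) : ℤ))) ∪
    r.image (fun j : ℕ => (-(8 * (w : ℤ)) + j * ρ, -((8 * w : ℕ) : ℤ)))), ?_, ?_, ?_⟩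
  · intro v hv
    simp only [Finset.mem_union, Finset.mem_image] at hv
    rcases hv with (⟨j, hj, rfl⟩ | ⟨j, hj, rfl⟩) | (⟨j, hj, rfl⟩ | ⟨j, hj, rfl⟩) <;>
      obtain ⟨h1, h2⟩ := oute_net2 (hr ▸ hj) <;>
      simp only [sphere, ball, rect, Set.mem_ofPred_eq, Prod.fst_zero, Prod.snd_zero] <;>
      push_cast <;> omega
  · have hc : r.card = 16 * w / ρ + 1 := by rw [hr]; simp
    have h1 : ∀ f : ℕ → Vert, (r.image f).card ≤ 16 * w / ρ + 1 := fun f =>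
      Finset.card_image_le.trans hc.le
    refine (Finset.card_union_le _ _).trans ?_
    refine (Nat.add_le_add (Finset.card_union_le _ _) (Finset.card_union_le _ _)).trans ?_
    have h2 := h1 (fun j : ℕ => (((8 * w : ℕ) : ℤ), -(8 * (w : ℤ)) + j * ρ))
    have h3 := h1 (fun j : ℕ => (-((8 * w : ℕ) : ℤ), -(8 * (w : ℤ)) + j * ρ))
    have h4 := h1 (fun j : ℕ => (-(8 * (w : ℤ)) + j * ρ, ((8 * w : ℕ) : ℤ)))
    have h5 := h1 (fun j : ℕ => (-(8 * (w : ℤ)) + j * ρ, -((8 * w : ℕ) : ℤ)))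
    omega
  · rintro u ⟨h1, h2⟩
    simp only [ball, rect, Set.mem_ofPred_eq, Prod.fst_zero, Prod.snd_zero] at h1 h2
    push_cast at h1 h2
    rcases h2 with h2 | h2 | h2 | h2
    · obtain ⟨j, hj, h3, h4⟩ := oute_net1 (w := w) hρ (y := u.2) (by omega) (by omega)
      refine ⟨(-((8 * w : ℕ) : ℤ), -(8 * (w : ℤ)) + j * ρ), ?_, ?_⟩
      · exact Finset.mem_union_left _ (Finset.mem_union_right _ (Finset.mem_image_of_mem _ hj))
      · simp only [ball, rect, Set.mem_ofPred_eq]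
        push_cast
        omega
    · obtain ⟨j, hj, h3, h4⟩ := oute_net1 (w := w) hρ (y := u.2) (by omega) (by omega)
      refine ⟨(((8 * w : ℕ) : ℤ), -(8 * (w : ℤ)) + j * ρ), ?_, ?_⟩
      · exact Finset.mem_union_left _ (Finset.mem_union_left _ (Finset.mem_image_of_mem _ hj))
      · simp only [ball, rect, Set.mem_ofPred_eq]
        push_cast
        omega
    · obtain ⟨j, hj, h3, h4⟩ := oute_net1 (w := w) hρ (y := u.1) (by omega) (by omega)
      refine ⟨(-(8 * (w : ℤ)) + j * ρ, -((8 * w : ℕ) : ℤ)), ?_, ?_⟩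
      · exact Finset.mem_union_right _ (Finset.mem_union_right _ (Finset.mem_image_of_mem _ hj))
      · simp only [ball, rect, Set.mem_ofPred_eq]
        push_cast
        omega
    · obtain ⟨j, hj, h3, h4⟩ := oute_net1 (w := w) hρ (y := u.1) (by omega) (by omega)
      refine ⟨(-(8 * (w : ℤ)) + j * ρ, ((8 * w : ℕ) : ℤ)), ?_, ?_⟩
      · exact Finset.mem_union_right _ (Finset.mem_union_left _ (Finset.mem_image_of_mem _ hj))
      · simp only [ball, rect, Set.mem_ofPred_eq]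
        push_cast
        omega

/-! ### Numbers -/

theorem oute_pow {a κ δ : ℝ} (ha : 0 < a) (hκ : 0 < κ) (hδ : 0 < δ) : ∃ K₀ : ℕ, ∀ K : ℕ, K₀ ≤ K →
    (a / K) ^ κ ≤ δ := by
  refine ⟨⌈a / δ ^ (1 / κ)⌉₊ + 1, fun K hK => ?_⟩
  have h1 : 0 < δ ^ (1 / κ) := Real.rpow_pos_of_pos hδ _
  have h2 : a / δ ^ (1 / κ) ≤ K := by
    refine (Nat.le_ceil _).trans ?_
    exact_mod_cast (Nat.le_succ _).trans hK
  have h3 : (0 : ℝ) < K := lt_of_lt_of_le (by positivity) h2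
  have h4 : a / K ≤ δ ^ (1 / κ) := by
    rw [div_le_iff₀ h3]
    rwa [div_le_iff₀ h1, mul_comm] at h2
  calc (a / K) ^ κ ≤ (δ ^ (1 / κ)) ^ κ := Real.rpow_le_rpow (by positivity) h4 hκ.le
    _ = δ := by rw [← Real.rpow_mul hδ.le, one_div, inv_mul_cancel₀ hκ.ne', Real.rpow_one]

/-- Comparison of `w` and `w / K`. -/
theorem oute_div {w K : ℕ} (hK : 1 ≤ K) (hw : K ≤ w) :
    1 ≤ w / K ∧ K * (w / K) ≤ w ∧ w ≤ 2 * K * (w / K) := by
  have h1 : 1 ≤ w / K := (Nat.one_le_div_iff (by omega)).2 hw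
  have h2 : K * (w / K) ≤ w := Nat.mul_div_le w K
  have h3 : w < K * (w / K) + K := by
    have := Nat.lt_mul_div_succ w (show 0 < K by omega)
    rwa [Nat.mul_succ] at this
  refine ⟨h1, h2, ?_⟩
  nlinarith only [h3, h1]

theorem oute_card {w K ρ : ℕ} (hρ : 1 ≤ ρ) (h : w ≤ 2 * K * ρ) : 16 * w / ρ + 1 ≤ 32 * K + 1 := by
  have : 16 * w / ρ ≤ 32 * K := by
    rw [Nat.div_le_iff_le_mul_add_pred (by omega)]
    nlinarith only [h]
  omega

/-! ### Events -/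

variable {s : Src} {w ρ ρ' : ℕ} {v v' : Vert} {d d' : Side} {Z Zy : Set Vert} {Nev Ny : Set Config}
  {q : I}

/-- The bad event of the inner boundary. -/
def BadZ (w t ρ : ℕ) : Set Config := {ω | ∃ z ∈ sphere 0 (8 * w), ω ∈ LocTwo (ball 0 (8 * w)) z t ρ}

theorem oute_ball {u v : Vert} {a b : ℕ} (h : u ∈ ball v a) {z : Vert} (hz : z ∈ ball v b) :
    z ∈ ball u (a + b) := by
  simp only [ball, rect, Set.mem_ofPred_eq] at h hz ⊢
  push_cast
  omega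

open scoped Classical in
theorem oute_cover2 (_hρ' : 1 ≤ ρ') (h1 : 64 * ρ' ≤ ρ) {V : Finset Vert}
    (hV' : ∀ u ∈ sphere 0 (8 * w), ∃ v' ∈ V, u ∈ ball v' ρ') :
    Ev2 s w ρ ρ' v d Z ⊆ ⋃ v' ∈ V.filter (fun v' => v' ∉ ball v (10 * ρ)), Ev3 s w ρ' v' d Z := by
  rintro ω ⟨h2, u, hu, huv, hc, hd⟩
  obtain ⟨v', hv', huv'⟩ := hV' u hu
  simp only [Set.mem_iUnion]
  refine ⟨v', Finset.mem_filter.2 ⟨hv', fun h => huv ?_⟩, h2, ⟨u, hu, huv', hc⟩, ?_⟩
  · simp only [ball, rect, Set.mem_ofPred_eq] at h huv' ⊢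
    push_cast at h huv' ⊢
    omega
  · refine hd.mono_right fun z hz => ?_
    have := oute_ball huv' hz
    have h8 : ρ' + 7 * ρ' = 8 * ρ' := by ring
    rwa [h8] at this

theorem bE_nonneg (q : I) (s : Src) (d : Side) (k : ℕ) : 0 ≤ ∑ d' : Side, Pr q (Sep s d d' k) :=
  Finset.sum_nonneg fun _ _ => Pr_nonneg

end Pool.Agent.H59.EX

end
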