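import Pool.Agent.H94.BG.H31.PT.M03_3
import Pool.Agent.H94.BG.H31.PT.M06_2

/-! The parts of this file: H57.EX.GeoR, H57.EX.Geo, H26.HP.Two, H26.HP.Three, H26.HP.Frame, H26.HP.Bad. -/

section

/-!
# Geo: passage from `ℤ × ℤ` to `ℝ × ℝ` with the sup norm, polar coordinates of the sup norm
-/

namespace Pool.Agent.H57.EX

open Pool.Agent.H89.Perc Pool.Agent.H61.NC Pool.Agent.H29.Sep

end Pool.Agent.H57.EX

end

section

/-!
# Existence of the chains (plane geometry)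
-/

namespace Pool.Agent.H57.EX

open Pool.Agent.H89.Perc Pool.Agent.H61.NC Pool.Agent.H29.Sep

/-! ### Clamping -/

/-! ### From curves to chains -/

/-! ### The two curves in polar coordinates -/

end Pool.Agent.H57.EX

end

section

/-!
# Half plane: clusters which cross a half annulus and avoid one side of the base
-/

open MeasureTheory ProbabilityTheory unitInterval

namespace Pool.Agent.H26.HP

open Pool.Agent.H89.Perc
open Pool.Agent.H61.NC (RSWreg)

variable {ω ω' : Config} {D X S : Set Vert} {R n r s : ℕ} {q : I} {c : ℝ}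

/-- `S` joins `ball 0 s` to distance `r` and avoids the base to the right of `16 s`. -/
def PhiR (s r : ℕ) (S : Set Vert) : Prop :=
  (∃ v ∈ S, v ∈ ball 0 s) ∧ (∃ w ∈ S, w ∈ sphere 0 r) ∧
    ∀ x : ℤ, 16 * s < x → x ≤ r → ((x, 0) : Vert) ∉ S

/-- The family of the sets with the property `PhiR`. -/
noncomputable def FR (s r : ℕ) : Finset (Finset Vert) := by
  classical exact (bF r).powerset.filter (fun T => PhiR s r ↑T)

lemma mem_FR {T : Finset Vert} : T ∈ FR s r ↔ T ⊆ bF r ∧ PhiR s r ↑T := by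
  classical
  rw [FR, Finset.mem_filter, Finset.mem_powerset]

/-- The base to the right of `16 s`. -/
def XR (s r : ℕ) : Set Vert := {v | v.2 = 0 ∧ 16 * (s : ℤ) < v.1 ∧ v.1 ≤ r}

/-- Auxiliary event. -/
def BR (s r : ℕ) : Set Config :=
  {ω | (∀ y ∈ clus ω (hb 0 r) (XR s r), y ∉ ball 0 (2 * s)) ∧
    ∃ u ∈ ball 0 s, ∃ w ∈ sphere 0 r, Conn ω (hb 0 r \ clus ω (hb 0 r) (XR s r)) u w}

/-- A cluster touches the base near the origin, reaches distance `r` and avoids the base to the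
right of `16 s`. -/
def TR (s r : ℕ) : Set Config :=
  {ω | ∃ b : ℤ, -(2 * s) ≤ b ∧ b ≤ 2 * s ∧ (∃ w ∈ sphere 0 r, Conn ω (hb 0 r) (b, 0) w) ∧
    ∀ x : ℤ, 16 * s < x → x ≤ r → ¬ Conn ω (hb 0 r) (b, 0) (x, 0)}

lemma not_mem_ball_of_sphere {t r : ℕ} (h : t < r) {w : Vert} (hw : w ∈ sphere 0 r) :
    w ∉ ball 0 t := by
  intro hb
  have h1 := hw.2
  simp only [mem_ball, Prod.fst_zero, Prod.snd_zero] at hb h1
  omega

theorem two_step1 (hc : 0 < c) (hs : 1 ≤ s) (hr : 32 * s ≤ r) (hreg : RSWreg c r q) :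
    c ^ 4 * EN q (hb 0 r) (FR s r) ≤ Pr q (BR s r) := by
  have hDR : hb 0 r ⊆ ball 0 r := hb_subset_ball (by simp)
  have h16 : hb 0 (16 * s) ⊆ hb 0 r := hb_subset_hb (by simp; omega)
  refine EN_le (G := fun S => {ω | ¬ ∃ u ∈ ball 0 (2 * s), ∃ w ∈ sphere 0 (16 * s),
    Conn ω (hb 0 (16 * s) \ S) u w}) hDR ?_ ?_ ?_ ?_
  · rintro S ω ω' hω h1 ⟨u, hu, w, hw, h2⟩
    refine h1 ⟨u, hu, w, hw, ?_⟩
    refine Conn.congr (fun e h3 h4 => (hω e ?_).symm) h2
    exact mem_eIn.2 ⟨mem_eBall.2 (hDR (h16 h3.1)), ⟨h16 h3.1, h3.2⟩, ⟨h16 h4.1, h4.2⟩⟩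
  · intro T _
    refine (noCross_reg hc (RSWreg.mono hreg (m := 16 * s) (by omega)) (s := 2 * s) (r := 16 * s)
      (by omega) le_rfl).trans (Pr_mono ?_)
    rintro ω hω ⟨u, hu, w, hw, h2⟩
    refine hω ⟨u, hu, w, hw, h2.mono_set ?_⟩
    exact fun v hv => hv.1.1
  · intro ω T hT T' hT' h1 h2 h3 h4
    rw [mem_FR] at hT hT'
    by_contra hne
    obtain ⟨⟨v, hv, hvb⟩, ⟨w, hw, hws⟩, _⟩ := hT'.2
    have hvT : v ∉ (↑T : Set Vert) := by
      intro h
      have := isClus_unique h1 h3 h hv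
      exact hne (by exact_mod_cast this)
    have h5 := isClus_off h1 hvT (isClus_conn h3 hv hw)
    obtain ⟨x, hx, h6⟩ := h5.to_sphere (v := 0) (r := 16 * s)
      (ball_subset_ball (by omega) hvb) (Or.inl (not_mem_ball_of_sphere (by omega) hws))
    refine h2 ⟨v, ball_subset_ball (by omega) hvb, x, hx, h6.mono_set ?_⟩
    exact fun z hz => ⟨⟨hz.2, hz.1.1.2⟩, hz.1.2⟩
  · intro ω T hT h1 h2
    rw [mem_FR] at hT
    obtain ⟨⟨v, hv, hvb⟩, ⟨w, hw, hws⟩, h3⟩ := hT.2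
    have key : ∀ y ∈ clus ω (hb 0 r) (XR s r), y ∉ ball 0 (2 * s) := by
      rintro y ⟨x, hx, h4⟩ hy
      have hxT : x ∉ (↑T : Set Vert) := by
        have := h3 x.1 hx.2.1 hx.2.2
        have e : (x.1, (0 : ℤ)) = x := by rw [← hx.1]
        rwa [e] at this
      have h5 := (isClus_off h1 hxT h4).symm
      obtain ⟨x', hx', h6⟩ := h5.to_sphere (v := 0) (r := 16 * s)
        (ball_subset_ball (by omega) hy) (Or.inl (by
          intro hb
          simp only [mem_ball, Prod.fst_zero, Prod.snd_zero] at hb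
          have := hx.2.1
          push_cast at hb
          omega))
      refine h2 ⟨y, hy, x', hx', h6.mono_set ?_⟩
      exact fun z hz => ⟨⟨hz.2, hz.1.1.2⟩, hz.1.2⟩
    refine ⟨key, v, hvb, w, hws, ?_⟩
    exact conn_off (fun h => key v h (ball_subset_ball (by omega) hvb)) (isClus_conn h1 hv hw)

theorem two_step2 (hc : 0 < c) (hs : 1 ≤ s) (hr : 32 * s ≤ r) (hreg : RSWreg c r q) :
    c ^ 3 * Pr q (BR s r) ≤ Pr q (TR s r) := by
  classical
  have hDR : hb 0 r ⊆ ball 0 r := hb_subset_ball (by simp)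
  have h2s : hb 0 (2 * s) ⊆ hb 0 r := hb_subset_hb (by simp; omega)
  set A' : Set Vert → Set Config := fun S => {ω | (∀ y ∈ S, y ∉ ball 0 (2 * s)) ∧
    ∃ u ∈ ball 0 s, ∃ w ∈ sphere 0 r, Conn ω (hb 0 r \ S) u w} with hA'
  have lA : ∀ S, LocalOn (eIn r (hb 0 r \ S)) (A' S) := by
    rintro S ω ω' hω ⟨h1, u, hu, w, hw, h2⟩
    exact ⟨h1, u, hu, w, hw,
      localOn_conn_in (Set.sdiff_subset.trans hDR) _ _ ω ω' hω h2⟩
  refine explore (X := XR s r) (A' := A')
    (G := fun S => {ω | (∀ y ∈ S, y ∉ ball 0 (2 * s)) ∧ ω ∈ A' S ∧ ω ∈ HC s}) hDR (by positivity)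
    ?_ lA ?_ ?_ ?_
  · intro ω h
    exact h
  · rintro S ω ω' hω ⟨h1, h2, h3⟩
    refine ⟨h1, lA S ω ω' hω h2, ?_⟩
    refine localOn_HC (Set.sdiff_subset.trans hDR) ?_ ω ω' hω h3
    exact fun v hv => ⟨h2s hv, fun hvS => h1 v hvS hv.1⟩
  · intro S
    by_cases hS : ∀ y ∈ S, y ∉ ball 0 (2 * s)
    · have hHC : LocalOn (eIn r (hb 0 r \ S)) (HC s) :=
        localOn_HC (Set.sdiff_subset.trans hDR) fun v hv => ⟨h2s hv, fun hvS => hS v hvS hv.1⟩
      have iA : Incr (A' S) := by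
        rintro ω ω' hω ⟨h1, u, hu, w, hw, h2⟩
        exact ⟨h1, u, hu, w, hw, h2.mono le_rfl hω⟩
      have h1 := fkg (p := q) (lA S) hHC iA (incr_HC s)
      have h2 := HC_ge hc hs (RSWreg.mono hreg (m := s) (by omega))
      calc c ^ 3 * Pr q (A' S) = Pr q (A' S) * c ^ 3 := mul_comm _ _
        _ ≤ Pr q (A' S) * Pr q (HC s) := mul_le_mul_of_nonneg_left h2 Pr_nonneg
        _ ≤ Pr q (A' S ∩ HC s) := h1
        _ ≤ Pr q {ω | (∀ y ∈ S, y ∉ ball 0 (2 * s)) ∧ ω ∈ A' S ∧ ω ∈ HC s} :=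
            Pr_mono fun ω hω => ⟨hS, hω.1, hω.2⟩
    · have e1 : A' S = ∅ := by
        ext ω
        simp only [hA', Set.mem_ofPred_eq, Set.mem_empty_iff_false, iff_false]
        exact fun h => hS h.1
      rw [e1]
      have e2 : Pr q (∅ : Set Config) = 0 := by simp [Pr]
      rw [e2, mul_zero]
      exact Pr_nonneg
  · rintro ω ⟨h1, ⟨_, u, hu, w, hw, h2⟩, h3⟩
    obtain ⟨w0, h4, b, h5, h6, h7⟩ := HC_meet hs h3
      (S := hb 0 r \ clus ω (hb 0 r) (XR s r)) (fun v hv => hv.1.2) h2 hu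
      (Or.inl (not_mem_ball_of_sphere (by omega) hw))
    have h8 : Conn ω (hb 0 r) (b, 0) w0 := h7.mono_set h2s
    refine ⟨b, h5, h6, ⟨w, hw, ?_⟩, fun x h9 h10 h11 => ?_⟩
    · exact h8.trans ((h4.symm.trans h2).mono_set Set.sdiff_subset)
    · refine h1 (b, 0) ⟨(x, 0), ⟨rfl, h9, h10⟩, h11.symm⟩ ?_
      simp only [mem_ball, Prod.fst_zero, Prod.snd_zero]
      push_cast
      omega

theorem two_step3 (hc : 0 < c) (hs : 1 ≤ s) (hr : 32 * s ≤ r) (hreg : RSWreg c r q) :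
    Pr q (TR s r) ≤ 594 / c ^ 4 * (s / r) := by
  classical
  have hsub : TR s r ⊆ ⋃ z ∈ Finset.Icc (-(16 * s : ℤ)) (16 * s), E1 (r - 16 * s) z := by
    rintro ω ⟨b, h1, h2, ⟨w, hw, h3⟩, h4⟩
    -- the rightmost point of the cluster on the base
    set P : Finset ℤ := (Finset.Icc b (16 * s)).filter
      (fun x => Conn ω (hb 0 r) (b, 0) (x, 0)) with hP
    have hbD : ((b, 0) : Vert) ∈ hb 0 r := h3.mem_left
    have hne : P.Nonempty := ⟨b, by
      rw [hP, Finset.mem_filter, Finset.mem_Icc]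
      exact ⟨⟨le_rfl, by omega⟩, Conn.refl hbD⟩⟩
    obtain ⟨z, hz, hmax⟩ := P.exists_max_image id hne
    rw [hP, Finset.mem_filter, Finset.mem_Icc] at hz
    simp only [Set.mem_iUnion, Finset.mem_Icc]
    have habs : |(0 : ℤ) - z| + ((r - 16 * s : ℕ) : ℤ) ≤ r := by
      rcases abs_cases ((0 : ℤ) - z) with ⟨h4, h5⟩ | ⟨h4, h5⟩ <;> rw [h4] <;> omega
    refine ⟨z, ⟨by omega, hz.1.2⟩, ?_, fun x h5 h6 h7 => ?_⟩
    · refine reach_restrict habs ?_ hw (hz.2.symm.trans h3)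
      simp only [mem_ball]
      omega
    · have h8 : Conn ω (hb 0 r) (b, 0) (x, 0) := hz.2.trans (h7.mono_set (hb_subset_hb habs))
      by_cases h9 : x ≤ 16 * s
      · have := hmax x (by
          rw [hP, Finset.mem_filter, Finset.mem_Icc]
          exact ⟨⟨by omega, h9⟩, h8⟩)
        simp only [id] at this
        omega
      · refine h4 x (by omega) ?_ h8
        have := h8.mem_right
        rw [mem_hb] at this
        simp only at this
        omega
  have hR1 : 1 ≤ r - 16 * s := by omega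
  have hr0 : (0 : ℝ) < r := by
    have : 0 < r := by omega
    exact_mod_cast this
  have hs1 : (1 : ℝ) ≤ s := by exact_mod_cast hs
  have hR2 : (r : ℝ) / 2 ≤ ((r - 16 * s : ℕ) : ℝ) := by
    have : r ≤ 2 * (r - 16 * s) := by omega
    have : (r : ℝ) ≤ 2 * ((r - 16 * s : ℕ) : ℝ) := by exact_mod_cast this
    linarith only [this]
  calc Pr q (TR s r) ≤ ∑ z ∈ Finset.Icc (-(16 * s : ℤ)) (16 * s), Pr q (E1 (r - 16 * s) z) :=
        (Pr_mono hsub).trans (Pr_biUnion_le _ _)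
    _ ≤ ∑ _z ∈ Finset.Icc (-(16 * s : ℤ)) (16 * s), 9 / (c ^ 4 * (r / 2)) := by
        refine Finset.sum_le_sum fun z _ => ?_
        refine (E1_le hc hR1 (RSWreg.mono hreg (by omega)) z).trans ?_
        have : 0 < c ^ 4 := by positivity
        exact div_le_div_of_nonneg_left (by norm_num) (by positivity)
          (mul_le_mul_of_nonneg_left hR2 this.le)
    _ = (32 * s + 1) * (9 / (c ^ 4 * (r / 2))) := by
        rw [Finset.sum_const, Int.card_Icc, nsmul_eq_mul]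
        congr 1
        have : ((16 * s : ℤ) + 1 - -(16 * s : ℤ)).toNat = 32 * s + 1 := by omega
        rw [this]
        push_cast
        ring
    _ ≤ (33 * s) * (9 / (c ^ 4 * (r / 2))) := by
        refine mul_le_mul_of_nonneg_right (by linarith only [hs1]) (by positivity)
    _ = 594 / c ^ 4 * (s / r) := by
        field_simp
        ring

/-- **(H2)** The expected number of clusters which join `ball 0 s` to distance `r` in the half ball
and avoid the base to the right of `16 s` is at most `C s / r`. -/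
theorem EN_right (hc : 0 < c) (hs : 1 ≤ s) (hr : 32 * s ≤ r) (hreg : RSWreg c r q) :
    EN q (hb 0 r) (FR s r) ≤ 594 / c ^ 11 * (s / r) := by
  have h1 := two_step1 (q := q) hc hs hr hreg
  have h2 := two_step2 (q := q) hc hs hr hreg
  have h3 := two_step3 (q := q) hc hs hr hreg
  have hc7 : 0 < c ^ 7 := by positivity
  have h4 : c ^ 7 * EN q (hb 0 r) (FR s r) ≤ 594 / c ^ 4 * (s / r) := by
    calc c ^ 7 * EN q (hb 0 r) (FR s r) = c ^ 3 * (c ^ 4 * EN q (hb 0 r) (FR s r)) := by ring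
      _ ≤ c ^ 3 * Pr q (BR s r) := mul_le_mul_of_nonneg_left h1 (by positivity)
      _ ≤ Pr q (TR s r) := h2
      _ ≤ _ := h3
  calc EN q (hb 0 r) (FR s r) = (c ^ 7 * EN q (hb 0 r) (FR s r)) / c ^ 7 := by field_simp
    _ ≤ (594 / c ^ 4 * (s / r)) / c ^ 7 := by gcongr
    _ = 594 / c ^ 11 * (s / r) := by field_simp

end Pool.Agent.H26.HP

end

section

/-!
# Half plane: two disjoint crossing clusters

`U s r`: two different clusters of the half ball of radius `r` join `ball 0 s` to distance `r`.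
Its probability is at most `C (s / r) ^ (1 + κ)`.
-/

open MeasureTheory ProbabilityTheory unitInterval

namespace Pool.Agent.H26.HP

open Pool.Agent.H89.Perc
open Pool.Agent.H61.NC (RSWreg)

variable {ω ω' : Config} {D X S T : Set Vert} {R n r s : ℕ} {q : I} {c : ℝ}

/-! ### Reflection -/

/-- Reflection in the vertical axis. -/
def rho (v : Vert) : Vert := (0 - v.1, v.2)

lemma rho_rho (v : Vert) : rho (rho v) = v := by
  ext <;> simp [rho]

lemma rho_mem_hb {v : Vert} : rho v ∈ hb 0 r ↔ v ∈ hb 0 r := by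
  simp only [mem_hb, rho]
  omega

lemma rho_mem_ball {v : Vert} : rho v ∈ ball 0 r ↔ v ∈ ball 0 r := by
  simp only [mem_ball, rho, Prod.fst_zero, Prod.snd_zero]
  omega

lemma rho_mem_sphere {v : Vert} : rho v ∈ sphere 0 r ↔ v ∈ sphere 0 r := by
  simp only [sphere, Set.mem_ofPred_eq, rho_mem_ball]
  simp only [rho, Prod.fst_zero, Prod.snd_zero]
  constructor <;> (rintro ⟨h1, h2⟩; refine ⟨h1, ?_⟩; omega)

lemma conn_rho {u v : Vert} : Conn (fun e => ω (reflX 0 e)) (hb 0 r) u v ↔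
    Conn ω (hb 0 r) (rho u) (rho v) := by
  rw [conn_reflX]
  have : {w : Vert | (0 - w.1, w.2) ∈ hb 0 r} = hb 0 r := by
    ext w
    exact rho_mem_hb
  rw [this]
  rfl

lemma isClus_rho : {ω : Config | (fun e => ω (reflX 0 e)) ∈ IsClus (hb 0 r) S} =
    IsClus (hb 0 r) (rho '' S) := by
  have key : ∀ (ω : Config) (u : Vert),
      clus (fun e => ω (reflX 0 e)) (hb 0 r) {u} = rho '' (clus ω (hb 0 r) {rho u}) := by
    intro ω u
    ext v
    simp only [clus, Set.mem_singleton_iff, exists_eq_left, Set.mem_image, Set.mem_ofPred_eq]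
    rw [conn_rho]
    constructor
    · intro h
      exact ⟨rho v, h, rho_rho v⟩
    · rintro ⟨w, h, rfl⟩
      rwa [rho_rho]
  ext ω
  simp only [IsClus, Set.mem_ofPred_eq]
  constructor
  · rintro ⟨u, hu, h⟩
    refine ⟨rho u, ⟨u, hu, rfl⟩, ?_⟩
    rw [key] at h
    rw [← h, ← Set.image_comp]
    have : rho ∘ rho = id := by funext v; exact rho_rho v
    rw [this, Set.image_id]
  · rintro ⟨_, ⟨u, hu, rfl⟩, h⟩
    refine ⟨u, hu, ?_⟩
    rw [key, h, ← Set.image_comp]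
    have : rho ∘ rho = id := by funext v; exact rho_rho v
    rw [this, Set.image_id]

lemma Pr_isClus_rho : Pr q (IsClus (hb 0 r) (rho '' S)) = Pr q (IsClus (hb 0 r) S) := by
  rw [← isClus_rho, Pr_comp (localOn_isClus (R := r) (hb_subset_ball (by simp)))
    (reflX_injective 0).injOn]

/-- `S` joins `ball 0 s` to distance `r` and avoids the base to the left of `-16 s`. -/
def PhiL (s r : ℕ) (S : Set Vert) : Prop :=
  (∃ v ∈ S, v ∈ ball 0 s) ∧ (∃ w ∈ S, w ∈ sphere 0 r) ∧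
    ∀ x : ℤ, 16 * s < x → x ≤ r → ((-x, 0) : Vert) ∉ S

/-- The family of the sets with the property `PhiL`. -/
noncomputable def FL (s r : ℕ) : Finset (Finset Vert) := by
  classical exact (bF r).powerset.filter (fun T => PhiL s r ↑T)

lemma mem_FL {T : Finset Vert} : T ∈ FL s r ↔ T ⊆ bF r ∧ PhiL s r ↑T := by
  classical
  rw [FL, Finset.mem_filter, Finset.mem_powerset]

lemma PhiL_iff : PhiL s r S ↔ PhiR s r (rho '' S) := by
  have h1 : ∀ v : Vert, v ∈ rho '' S ↔ rho v ∈ S := by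
    intro v
    constructor
    · rintro ⟨w, hw, rfl⟩
      rwa [rho_rho]
    · intro h
      exact ⟨_, h, rho_rho v⟩
  simp only [PhiL, PhiR, h1]
  refine and_congr ?_ (and_congr ?_ ?_)
  · constructor
    · rintro ⟨v, hv, h⟩
      exact ⟨rho v, by rwa [rho_rho], rho_mem_ball.2 h⟩
    · rintro ⟨v, hv, h⟩
      exact ⟨rho v, hv, rho_mem_ball.2 h⟩
  · constructor
    · rintro ⟨v, hv, h⟩
      exact ⟨rho v, by rwa [rho_rho], rho_mem_sphere.2 h⟩
    · rintro ⟨v, hv, h⟩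
      exact ⟨rho v, hv, rho_mem_sphere.2 h⟩
  · simp only [rho, zero_sub]

theorem EN_left (hc : 0 < c) (hs : 1 ≤ s) (hr : 32 * s ≤ r) (hreg : RSWreg c r q) :
    EN q (hb 0 r) (FL s r) ≤ 594 / c ^ 11 * (s / r) := by
  classical
  have h1 : ∀ T : Finset Vert, (↑(T.image rho) : Set Vert) = rho '' ↑T := fun T => by simp
  have h2 : ∀ T : Finset Vert, (T.image rho).image rho = T := by
    intro T
    rw [Finset.image_image]
    have : rho ∘ rho = id := by funext v; exact rho_rho v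
    rw [this, Finset.image_id]
  have h3 : ∀ T : Finset Vert, T ⊆ bF r → T.image rho ⊆ bF r := by
    intro T hT v hv
    rw [Finset.mem_image] at hv
    obtain ⟨w, hw, rfl⟩ := hv
    rw [mem_bF, rho_mem_ball, ← mem_bF]
    exact hT hw
  have h4 : EN q (hb 0 r) (FL s r) = EN q (hb 0 r) (FR s r) := by
    rw [EN, EN]
    refine Finset.sum_nbij' (fun T => T.image rho) (fun T => T.image rho) ?_ ?_ ?_ ?_ ?_
    · intro T hT
      rw [mem_FL] at hT
      rw [mem_FR, h1]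
      exact ⟨h3 T hT.1, PhiL_iff.1 hT.2⟩
    · intro T hT
      rw [mem_FR] at hT
      rw [mem_FL, PhiL_iff, ← h1, h2]
      exact ⟨h3 T hT.1, hT.2⟩
    · intro T _
      exact h2 T
    · intro T _
      exact h2 T
    · intro T _
      rw [h1, Pr_isClus_rho]
  rw [h4]
  exact EN_right hc hs hr hreg

/-! ### Planarity -/

lemma isClus_conn' (h : ω ∈ IsClus D S) {u v : Vert} (hu : u ∈ S) (hv : v ∈ S) :
    Conn ω S u v := by
  refine (isClus_conn h hu hv).induction_right (P := fun x => Conn ω S u x) (Conn.refl hu) ?_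
  intro a b ha hab ih
  exact ih.tail ⟨ih.mem_right, isClus_closed h hu (ha.tail hab), hab.2.2⟩

/-- Two disjoint connected sets in the half ball: the first one cannot touch the base on both
sides of a base point of the second one, if the second one reaches the sphere. -/
theorem planar (hr : 1 ≤ r) (hS : S ⊆ hb 0 r) (hT : T ⊆ hb 0 r) (hdis : ∀ v ∈ S, v ∉ T)
    {a b a' : ℤ} {z : Vert} (hab : a < a') (hab' : a' < b)
    (h1 : Conn ω S (a, 0) (b, 0)) (h2 : Conn ω' T (a', 0) z) (hz : z ∈ sphere 0 r) : False := by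
  classical
  -- the extended sets
  set S' : Set Vert := {v | v ∈ S ∨ (v.1 = a ∧ -1 ≤ v.2 ∧ v.2 ≤ 0) ∨
    (v.2 = -1 ∧ -(r : ℤ) - 2 ≤ v.1 ∧ v.1 ≤ a) ∨ (v.1 = b ∧ -1 ≤ v.2 ∧ v.2 ≤ 0) ∨
    (v.2 = -1 ∧ b ≤ v.1 ∧ v.1 ≤ r + 2)} with hS'
  set T' : Set Vert := {v | v ∈ T ∨ (v.1 = a' ∧ -2 ≤ v.2 ∧ v.2 ≤ 0) ∨
    (v.1 = z.1 ∧ z.2 = r ∧ r ≤ v.2 ∧ v.2 ≤ r + 1) ∨
    (z.1 = -r ∧ v.2 = z.2 ∧ -(r : ℤ) - 1 ≤ v.1 ∧ v.1 ≤ -r) ∨
    (z.1 = -r ∧ v.1 = -(r : ℤ) - 1 ∧ z.2 ≤ v.2 ∧ v.2 ≤ r + 1) ∨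
    (z.1 = r ∧ v.2 = z.2 ∧ r ≤ v.1 ∧ v.1 ≤ r + 1) ∨
    (z.1 = r ∧ v.1 = r + 1 ∧ z.2 ≤ v.2 ∧ v.2 ≤ r + 1)} with hT'
  have haS := h1.mem_left
  have hbS := h1.mem_right
  have haT := h2.mem_left
  have hzT := h2.mem_right
  have ha := mem_hb.1 (hS haS)
  have hb := mem_hb.1 (hS hbS)
  have ha' := mem_hb.1 (hT haT)
  have hz' := mem_hb.1 (hT hzT)
  simp only at ha hb ha'
  have hzs := hz.2
  simp only [Prod.fst_zero, Prod.snd_zero] at hzs
  have c1 : Conn allOpen S' (-(r : ℤ) - 2, -1) (r + 2, -1) := by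
    have k1 : Conn allOpen S' (-(r : ℤ) - 2, -1) (a, -1) :=
      conn_line_x (by omega) fun x h3 h4 => Or.inr (Or.inr (Or.inl ⟨rfl, h3, h4⟩))
    have k2 : Conn allOpen S' (a, -1) (a, 0) :=
      conn_line_y (by omega) fun y h3 h4 => Or.inr (Or.inl ⟨rfl, h3, h4⟩)
    have k3 : Conn allOpen S' (a, 0) (b, 0) :=
      h1.mono (fun v hv => Or.inl hv) (fun _ _ => rfl)
    have k4 : Conn allOpen S' (b, -1) (b, 0) :=
      conn_line_y (by omega) fun y h3 h4 => Or.inr (Or.inr (Or.inr (Or.inl ⟨rfl, h3, h4⟩)))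
    have k5 : Conn allOpen S' (b, -1) (r + 2, -1) :=
      conn_line_x (by omega) fun x h3 h4 => Or.inr (Or.inr (Or.inr (Or.inr ⟨rfl, h3, h4⟩)))
    exact k1.trans (k2.trans (k3.trans (k4.symm.trans k5)))
  have c2 : ∃ t : ℤ, Conn allOpen T' (a', -2) (t, r + 1) := by
    have k1 : Conn allOpen T' (a', -2) (a', 0) :=
      conn_line_y (by omega) fun y h3 h4 => Or.inr (Or.inl ⟨rfl, h3, h4⟩)
    have k2 : Conn allOpen T' (a', 0) z :=
      h2.mono (fun v hv => Or.inl hv) (fun _ _ => rfl)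
    by_cases e1 : z.2 = r
    · have k3 : Conn allOpen T' (z.1, (r : ℤ)) (z.1, r + 1) :=
        conn_line_y (by omega) fun y h3 h4 => Or.inr (Or.inr (Or.inl ⟨rfl, e1, h3, h4⟩))
      have e : z = (z.1, (r : ℤ)) := by ext <;> simp [e1]
      exact ⟨z.1, k1.trans (k2.trans (e ▸ k3))⟩
    by_cases e2 : z.1 = -r
    · have k3 : Conn allOpen T' (-(r : ℤ) - 1, z.2) (-(r : ℤ), z.2) :=
        conn_line_x (by omega) fun x h3 h4 => Or.inr (Or.inr (Or.inr (Or.inl ⟨e2, rfl, h3, h4⟩)))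
      have k4 : Conn allOpen T' (-(r : ℤ) - 1, z.2) (-(r : ℤ) - 1, r + 1) :=
        conn_line_y (by omega) fun y h3 h4 =>
          Or.inr (Or.inr (Or.inr (Or.inr (Or.inl ⟨e2, rfl, h3, h4⟩))))
      have e : z = (-(r : ℤ), z.2) := by ext <;> simp [e2]
      refine ⟨-(r : ℤ) - 1, k1.trans (k2.trans ?_)⟩
      rw [e]
      exact k3.symm.trans k4
    · have e3 : z.1 = r := by
        rcases hzs with h | h | h | h <;> omega
      have k3 : Conn allOpen T' ((r : ℤ), z.2) (r + 1, z.2) :=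
        conn_line_x (by omega) fun x h3 h4 =>
          Or.inr (Or.inr (Or.inr (Or.inr (Or.inr (Or.inl ⟨e3, rfl, h3, h4⟩)))))
      have k4 : Conn allOpen T' ((r : ℤ) + 1, z.2) (r + 1, r + 1) :=
        conn_line_y (by omega) fun y h3 h4 =>
          Or.inr (Or.inr (Or.inr (Or.inr (Or.inr (Or.inr ⟨e3, rfl, h3, h4⟩)))))
      have e : z = ((r : ℤ), z.2) := by ext <;> simp [e3]
      refine ⟨r + 1, k1.trans (k2.trans ?_)⟩
      rw [e]
      exact k3.trans k4
  obtain ⟨t, c2⟩ := c2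
  have hS'sub : S' ⊆ rect (-(r : ℤ) - 2) (r + 2) (-2) (r + 1) := by
    intro v hv
    rcases hv with h | h | h | h | h
    · have := mem_hb.1 (hS h)
      exact ⟨by omega, by omega, by omega, by omega⟩
    all_goals exact ⟨by omega, by omega, by omega, by omega⟩
  have hT'sub : T' ⊆ rect (-(r : ℤ) - 2) (r + 2) (-2) (r + 1) := by
    intro v hv
    rcases hv with h | h | h | h | h | h | h
    · have := mem_hb.1 (hT h)
      exact ⟨by omega, by omega, by omega, by omega⟩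
    all_goals exact ⟨by omega, by omega, by omega, by omega⟩
  obtain ⟨w, hw1, hw2⟩ := cross_in c1 hS'sub rfl rfl c2 hT'sub rfl rfl
  have hwS := hw1.mem_right
  have hwT := hw2.mem_right
  obtain ⟨x, y⟩ := w
  obtain ⟨z1, z2⟩ := z
  simp only at hz' hzs
  rcases hwS with h | h | h | h | h
  · have hxy := mem_hb.1 (hS h)
    simp only at hxy
    rcases hwT with g | g | g | g | g | g | g
    · exact hdis _ h g
    · simp only at g
      have : y = 0 := by omega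
      rw [this, g.1] at h
      exact hdis _ h haT
    · simp only at g
      have e1 : x = z1 := g.1
      have e2 : y = z2 := by omega
      rw [e1, e2] at h
      exact hdis _ h hzT
    · simp only at g
      have e1 : x = z1 := by omega
      have e2 : y = z2 := g.2.1
      rw [e1, e2] at h
      exact hdis _ h hzT
    · simp only at g
      omega
    · simp only at g
      have e1 : x = z1 := by omega
      have e2 : y = z2 := g.2.1
      rw [e1, e2] at h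
      exact hdis _ h hzT
    · simp only at g
      omega
  · simp only at h
    rcases hwT with g | g | g | g | g | g | g
    · have hxy := mem_hb.1 (hT g)
      simp only at hxy
      have : y = 0 := by omega
      rw [this, h.1] at g
      exact hdis _ haS g
    · simp only at g; omega
    · simp only at g; omega
    · simp only at g
      have e1 : z1 = a := by omega
      have e2 : z2 = 0 := by omega
      rw [e1, e2] at hzT
      exact hdis _ haS hzT
    · simp only at g; omega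
    · simp only at g
      have e1 : z1 = a := by omega
      have e2 : z2 = 0 := by omega
      rw [e1, e2] at hzT
      exact hdis _ haS hzT
    · simp only at g; omega
  · simp only at h
    rcases hwT with g | g | g | g | g | g | g
    · have hxy := mem_hb.1 (hT g)
      simp only at hxy
      omega
    all_goals (simp only at g; omega)
  · simp only at h
    rcases hwT with g | g | g | g | g | g | g
    · have hxy := mem_hb.1 (hT g)
      simp only at hxy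
      have : y = 0 := by omega
      rw [this, h.1] at g
      exact hdis _ hbS g
    · simp only at g; omega
    · simp only at g; omega
    · simp only at g
      have e1 : z1 = b := by omega
      have e2 : z2 = 0 := by omega
      rw [e1, e2] at hzT
      exact hdis _ hbS hzT
    · simp only at g; omega
    · simp only at g
      have e1 : z1 = b := by omega
      have e2 : z2 = 0 := by omega
      rw [e1, e2] at hzT
      exact hdis _ hbS hzT
    · simp only at g; omega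
  · simp only at h
    rcases hwT with g | g | g | g | g | g | g
    · have hxy := mem_hb.1 (hT g)
      simp only at hxy
      omega
    all_goals (simp only at g; omega)

/-! ### Two clusters -/

/-- Two different clusters of the half ball of radius `r` join `ball 0 s` to distance `r`. -/
def U (s r : ℕ) : Set Config :=
  {ω | ∃ u ∈ ball 0 s, ∃ v ∈ ball 0 s, (∃ w ∈ sphere 0 r, Conn ω (hb 0 r) u w) ∧
    (∃ w ∈ sphere 0 r, Conn ω (hb 0 r) v w) ∧ ¬ Conn ω (hb 0 r) u v}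

/-- There is a crossing off `S`. -/
def GG (s r : ℕ) (S : Set Vert) : Set Config :=
  {ω | ∃ u ∈ ball 0 s, ∃ w ∈ sphere 0 r, Conn ω (hb 0 r \ S) u w}

/-- One of the two clusters avoids one side of the base. -/
theorem U_cases (hr : 1 ≤ r) (h : ω ∈ U s r) :
    (∃ T ∈ FR s r, ω ∈ IsClus (hb 0 r) ↑T ∧ ω ∈ GG s r ↑T) ∨
    (∃ T ∈ FL s r, ω ∈ IsClus (hb 0 r) ↑T ∧ ω ∈ GG s r ↑T) := by
  classical
  obtain ⟨u, hu, v, hv, ⟨w, hw, h1⟩, ⟨w', hw', h2⟩, h3⟩ := h
  have hDR : hb 0 r ⊆ ball 0 r := hb_subset_ball (by simp)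
  set S : Set Vert := clus ω (hb 0 r) {u} with hSdef
  set T : Set Vert := clus ω (hb 0 r) {v} with hTdef
  have cS : ω ∈ IsClus (hb 0 r) S := isClus_clus h1.mem_left
  have cT : ω ∈ IsClus (hb 0 r) T := isClus_clus h2.mem_left
  have huS : u ∈ S := ⟨u, rfl, Conn.refl h1.mem_left⟩
  have hvT : v ∈ T := ⟨v, rfl, Conn.refl h2.mem_left⟩
  have hwS : w ∈ S := ⟨u, rfl, h1⟩
  have hwT : w' ∈ T := ⟨v, rfl, h2⟩
  have hdis : ∀ x ∈ S, x ∉ T := by
    intro x hx hx'
    have := isClus_unique cS cT hx hx'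
    exact h3 (isClus_conn cS huS (this ▸ hvT))
  have gS : ω ∈ GG s r S := ⟨v, hv, w', hw', isClus_off cS (fun h => hdis v h hvT) h2⟩
  have gT : ω ∈ GG s r T := ⟨u, hu, w, hw, isClus_off cT (hdis u huS) h1⟩
  obtain ⟨FS, hFS, hFSe⟩ := exists_finset (S := S) (R := r) (clus_subset.trans hDR)
  obtain ⟨FT, hFT, hFTe⟩ := exists_finset (S := T) (R := r) (clus_subset.trans hDR)
  rw [Finset.mem_powerset] at hFS hFT
  by_contra hno
  push Not at hno
  obtain ⟨n1, n2⟩ := hno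
  -- none of the four cases
  have m1 : ∃ x : ℤ, 16 * s < x ∧ x ≤ r ∧ ((x, 0) : Vert) ∈ S := by
    by_contra hx
    push Not at hx
    exact n1 FS (mem_FR.2 ⟨hFS, hFSe ▸ ⟨⟨u, huS, hu⟩, ⟨w, hwS, hw⟩, hx⟩⟩) (hFSe ▸ cS) (hFSe ▸ gS)
  have m2 : ∃ x : ℤ, 16 * s < x ∧ x ≤ r ∧ ((-x, 0) : Vert) ∈ S := by
    by_contra hx
    push Not at hx
    exact n2 FS (mem_FL.2 ⟨hFS, hFSe ▸ ⟨⟨u, huS, hu⟩, ⟨w, hwS, hw⟩, hx⟩⟩) (hFSe ▸ cS) (hFSe ▸ gS)
  have m3 : ∃ x : ℤ, 16 * s < x ∧ x ≤ r ∧ ((x, 0) : Vert) ∈ T := by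
    by_contra hx
    push Not at hx
    exact n1 FT (mem_FR.2 ⟨hFT, hFTe ▸ ⟨⟨v, hvT, hv⟩, ⟨w', hwT, hw'⟩, hx⟩⟩) (hFTe ▸ cT) (hFTe ▸ gT)
  have m4 : ∃ x : ℤ, 16 * s < x ∧ x ≤ r ∧ ((-x, 0) : Vert) ∈ T := by
    by_contra hx
    push Not at hx
    exact n2 FT (mem_FL.2 ⟨hFT, hFTe ▸ ⟨⟨v, hvT, hv⟩, ⟨w', hwT, hw'⟩, hx⟩⟩) (hFTe ▸ cT) (hFTe ▸ gT)
  obtain ⟨b, b1, b2, b3⟩ := m1
  obtain ⟨a, a1, a2, a3⟩ := m2
  obtain ⟨b', b1', b2', b3'⟩ := m3
  obtain ⟨a', a1', a2', a3'⟩ := m4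
  have hne : a ≠ a' := by
    rintro rfl
    exact hdis _ a3 a3'
  rcases lt_or_gt_of_ne hne with h | h
  · -- `-a' < -a`: the second cluster surrounds
    exact planar hr (isClus_subset cT) (isClus_subset cS) (fun x hx hx' => hdis x hx' hx)
      (a := -a') (a' := -a) (b := b') (by omega) (by omega)
      (isClus_conn' cT a3' b3') (isClus_conn' cS a3 hwS) hw
  · exact planar hr (isClus_subset cS) (isClus_subset cT) hdis
      (a := -a) (a' := -a') (b := b) (by omega) (by omega)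
      (isClus_conn' cS a3 b3) (isClus_conn' cT a3' hwT) hw'

/-- **(H3)** Two disjoint clusters crossing a half annulus. -/
theorem U_le (c : ℝ) (hc : 0 < c) : ∃ C κ : ℝ, 0 < C ∧ 0 < κ ∧ κ ≤ 1 ∧
    ∀ (n : ℕ) (q : I), RSWreg c n q → ∀ s r : ℕ, 1 ≤ s → s ≤ r → r ≤ n →
      Pr q (U s r) ≤ C * ((s : ℝ) / r) ^ (1 + κ) := by
  obtain ⟨C, κ, hC, hκ, hκ1, hdec⟩ := armBox_decay c hc
  refine ⟨max (1188 / c ^ 11 * C) (32 ^ (1 + κ)), κ, by positivity, hκ, hκ1, ?_⟩
  intro n q hreg s r hs hsr hrn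
  have hr1 : 1 ≤ r := hs.trans hsr
  have hs0 : (0 : ℝ) < s := by exact_mod_cast hs
  have hr0 : (0 : ℝ) < r := by exact_mod_cast hr1
  have hregr : RSWreg c r q := RSWreg.mono hreg hrn
  by_cases h32 : 32 * s ≤ r
  · set δ : ℝ := Pr q (ArmBox 0 s r) with hδ
    have hδ1 : δ ≤ C * ((s : ℝ) / r) ^ κ := hdec r q hregr s r hs hsr le_rfl
    have hDR : hb 0 r ⊆ ball 0 r := hb_subset_ball (by simp)
    have lG : ∀ S, LocalOn (eIn r (hb 0 r \ S)) (GG s r S) := by
      rintro S ω ω' hω ⟨u, hu, w, hw, h2⟩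
      exact ⟨u, hu, w, hw, localOn_conn_in (Set.sdiff_subset.trans hDR) _ _ ω ω' hω h2⟩
    have hG : ∀ S, Pr q (GG s r S) ≤ δ := by
      intro S
      refine Pr_mono ?_
      rintro ω ⟨u, hu, w, hw, h2⟩
      exact ⟨u, hu, w, hw, h2.mono_set (Set.sdiff_subset.trans hDR)⟩
    have h1 : Pr q {ω | ∃ T ∈ FR s r, ω ∈ IsClus (hb 0 r) ↑T ∧ ω ∈ GG s r ↑T} ≤
        EN q (hb 0 r) (FR s r) * δ :=
      le_EN hDR lG (fun T _ => hG T) fun ω h => h
    have h2 : Pr q {ω | ∃ T ∈ FL s r, ω ∈ IsClus (hb 0 r) ↑T ∧ ω ∈ GG s r ↑T} ≤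
        EN q (hb 0 r) (FL s r) * δ :=
      le_EN hDR lG (fun T _ => hG T) fun ω h => h
    have h3 : Pr q (U s r) ≤ EN q (hb 0 r) (FR s r) * δ + EN q (hb 0 r) (FL s r) * δ := by
      refine le_trans ((Pr_mono ?_).trans Pr_union_le) (add_le_add h1 h2)
      intro ω hω
      exact U_cases hr1 hω
    have h4 := EN_right hc hs h32 hregr
    have h5 := EN_left hc hs h32 hregr
    have hδ0 : 0 ≤ δ := Pr_nonneg
    have h6 : Pr q (U s r) ≤ 1188 / c ^ 11 * (s / r) * δ := by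
      calc Pr q (U s r) ≤ _ := h3
        _ ≤ 594 / c ^ 11 * (s / r) * δ + 594 / c ^ 11 * (s / r) * δ :=
          add_le_add (mul_le_mul_of_nonneg_right h4 hδ0) (mul_le_mul_of_nonneg_right h5 hδ0)
        _ = _ := by ring
    calc Pr q (U s r) ≤ 1188 / c ^ 11 * (s / r) * δ := h6
      _ ≤ 1188 / c ^ 11 * (s / r) * (C * ((s : ℝ) / r) ^ κ) :=
          mul_le_mul_of_nonneg_left hδ1 (by positivity)
      _ = (1188 / c ^ 11 * C) * ((s : ℝ) / r) ^ (1 + κ) := by
          rw [Real.rpow_add (by positivity), Real.rpow_one]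
          ring
      _ ≤ _ := mul_le_mul_of_nonneg_right (le_max_left _ _) (by positivity)
  · have h1 : (1 : ℝ) ≤ 32 * ((s : ℝ) / r) := by
      rw [← mul_div_assoc, le_div_iff₀ hr0, one_mul]
      have : r ≤ 32 * s := by omega
      exact_mod_cast this
    calc Pr q (U s r) ≤ 1 := Pr_le_one
      _ ≤ (32 * ((s : ℝ) / r)) ^ (1 + κ) := Real.one_le_rpow h1 (by linarith only [hκ])
      _ = 32 ^ (1 + κ) * ((s : ℝ) / r) ^ (1 + κ) := Real.mul_rpow (by norm_num) (by positivity)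
      _ ≤ _ := mul_le_mul_of_nonneg_right (le_max_right _ _) (by positivity)

end Pool.Agent.H26.HP

end

section

/-!
# The two-cluster event in the four half planes at an arbitrary point
-/

open MeasureTheory ProbabilityTheory unitInterval

namespace Pool.Agent.H26.HP

open Pool.Agent.H89.Perc
open Pool.Agent.H61.NC (RSWreg)
open Pool.Agent.H29.Sep (LocTwo)

variable {ω ω' : Config} {D X S T : Set Vert} {R n r s : ℕ} {q : I} {c : ℝ}

lemma exists_big_ball (z : Vert) (ρ : ℕ) : ∃ R : ℕ, ball z ρ ⊆ ball 0 R := by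
  refine ⟨z.1.natAbs + z.2.natAbs + ρ, fun v hv => ?_⟩
  simp only [mem_ball, Prod.fst_zero, Prod.snd_zero] at hv ⊢
  push_cast
  rcases abs_cases z.1 with ⟨h1, h2⟩ | ⟨h1, h2⟩ <;> rcases abs_cases z.2 with ⟨h3, h4⟩ | ⟨h3, h4⟩ <;>
    rw [h1, h3] <;> omega

lemma localOn_locTwo (D : Set Vert) (z : Vert) (t ρ : ℕ) :
    ∃ E : Finset Edge, LocalOn E (LocTwo D z t ρ) := by
  obtain ⟨R, hR⟩ := exists_big_ball z ρ
  have hD : D ∩ ball z ρ ⊆ ball 0 R := Set.inter_subset_right.trans hR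
  refine ⟨eIn R (D ∩ ball z ρ), ?_⟩
  rintro ω ω' h ⟨u, hu, u', hu', v, hv, v', hv', h1, h2, h3⟩
  exact ⟨u, hu, u', hu', v, hv, v', hv', localOn_conn_in hD _ _ ω ω' h h1,
    localOn_conn_in hD _ _ ω ω' h h2, fun h4 => h3 (localOn_conn_in hD _ _ ω' ω
      (fun e he => (h e he).symm) h4)⟩

/-- Invariance under a symmetry of the lattice. -/
theorem Pr_locTwo_map {φ : Edge → Edge} (hφ : Function.Injective φ) {f g : Vert → Vert}
    (hfg : ∀ w, f (g w) = w) (_hgf : ∀ w, g (f w) = w)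
    (hconn : ∀ (ω : Config) (S : Set Vert) (u v : Vert), Conn (fun e => ω (φ e)) S u v ↔
      Conn ω {w | g w ∈ S} (f u) (f v))
    (hball : ∀ (z w : Vert) (t : ℕ), f w ∈ ball (f z) t ↔ w ∈ ball z t)
    (hsph : ∀ (z w : Vert) (t : ℕ), f w ∈ sphere (f z) t ↔ w ∈ sphere z t)
    (D : Set Vert) (z : Vert) (t ρ : ℕ) :
    Pr q (LocTwo {w | g w ∈ D} (f z) t ρ) = Pr q (LocTwo D z t ρ) := by
  obtain ⟨E, hE⟩ := localOn_locTwo D z t ρ
  rw [← Pr_comp hE hφ.injOn]
  congr 1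
  have hset : {w | g w ∈ D ∩ ball z ρ} = {w | g w ∈ D} ∩ ball (f z) ρ := by
    ext w
    simp only [Set.mem_ofPred_eq, Set.mem_inter_iff]
    rw [← hball z (g w) ρ, hfg]
  ext ω
  simp only [LocTwo, Set.mem_ofPred_eq]
  constructor
  · rintro ⟨u, hu, u', hu', v, hv, v', hv', h1, h2, h3⟩
    refine ⟨g u, ?_, g u', ?_, g v, ?_, g v', ?_, ?_, ?_, ?_⟩
    · rwa [← hball, hfg]
    · rwa [← hball, hfg]
    · rwa [← hsph, hfg]
    · rwa [← hsph, hfg]
    · rw [hconn, hset, hfg, hfg]; exact h1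
    · rw [hconn, hset, hfg, hfg]; exact h2
    · rw [hconn, hset, hfg, hfg]; exact h3
  · rintro ⟨u, hu, u', hu', v, hv, v', hv', h1, h2, h3⟩
    rw [hconn, hset] at h1 h2 h3
    exact ⟨f u, (hball _ _ _).2 hu, f u', (hball _ _ _).2 hu', f v, (hsph _ _ _).2 hv, f v',
      (hsph _ _ _).2 hv', h1, h2, h3⟩

theorem Pr_locTwo_shift (a : Vert) (D : Set Vert) (z : Vert) (t ρ : ℕ) :
    Pr q (LocTwo {w | (w.1 - a.1, w.2 - a.2) ∈ D} (z.1 + a.1, z.2 + a.2) t ρ) =
      Pr q (LocTwo D z t ρ) := by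
  refine Pr_locTwo_map (φ := shiftE a) (shiftE_injective a) (f := fun w => (w.1 + a.1, w.2 + a.2))
    (g := fun w => (w.1 - a.1, w.2 - a.2)) ?_ ?_ ?_ ?_ ?_ D z t ρ
  · intro w; ext <;> simp
  · intro w; ext <;> simp
  · intro ω S u v
    exact conn_shift a S u v
  · intro z w t
    simp only [mem_ball]
    omega
  · intro z w t
    simp only [sphere, Set.mem_ofPred_eq, mem_ball]
    omega

theorem Pr_locTwo_reflY (D : Set Vert) (z : Vert) (t ρ : ℕ) :
    Pr q (LocTwo {w | (w.1, 0 - w.2) ∈ D} (z.1, 0 - z.2) t ρ) =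
      Pr q (LocTwo D z t ρ) := by
  refine Pr_locTwo_map (φ := reflY 0) (reflY_injective 0) (f := fun w => (w.1, 0 - w.2))
    (g := fun w => (w.1, 0 - w.2)) ?_ ?_ ?_ ?_ ?_ D z t ρ
  · intro w; ext <;> simp
  · intro w; ext <;> simp
  · intro ω S u v
    exact conn_reflY 0 S u v
  · intro z w t
    simp only [mem_ball]
    omega
  · intro z w t
    simp only [sphere, Set.mem_ofPred_eq, mem_ball]
    omega

theorem Pr_locTwo_swap (D : Set Vert) (z : Vert) (t ρ : ℕ) :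
    Pr q (LocTwo {w | (w.2, w.1) ∈ D} (z.2, z.1) t ρ) = Pr q (LocTwo D z t ρ) := by
  refine Pr_locTwo_map (φ := swapE) swapE_injective (f := fun w => (w.2, w.1))
    (g := fun w => (w.2, w.1)) ?_ ?_ ?_ ?_ ?_ D z t ρ
  · intro w; rfl
  · intro w; rfl
  · intro ω S u v
    exact conn_swap S u v
  · intro z w t
    simp only [mem_ball]
    omega
  · intro z w t
    simp only [sphere, Set.mem_ofPred_eq, mem_ball]
    omega

lemma locTwo_up_zero (t ρ : ℕ) : LocTwo up 0 t ρ = U t ρ := by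
  have h : up ∩ ball 0 ρ = hb 0 ρ := Set.inter_comm _ _
  ext ω
  simp only [LocTwo, U, h, Set.mem_ofPred_eq]
  constructor
  · rintro ⟨u, hu, u', hu', v, hv, v', hv', h1, h2, h3⟩
    exact ⟨u, hu, u', hu', ⟨v, hv, h1⟩, ⟨v', hv', h2⟩, h3⟩
  · rintro ⟨u, hu, u', hu', ⟨v, hv, h1⟩, ⟨v', hv', h2⟩, h3⟩
    exact ⟨u, hu, u', hu', v, hv, v', hv', h1, h2, h3⟩

/-- Only the part of the domain near `z` matters. -/
lemma locTwo_congr {D D' : Set Vert} {z : Vert} {t ρ : ℕ}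
    (h : ∀ v ∈ ball z ρ, v ∈ D ↔ v ∈ D') : LocTwo D z t ρ = LocTwo D' z t ρ := by
  have : D ∩ ball z ρ = D' ∩ ball z ρ := by
    ext v
    simp only [Set.mem_inter_iff]
    constructor
    · rintro ⟨h1, h2⟩; exact ⟨(h v h2).1 h1, h2⟩
    · rintro ⟨h1, h2⟩; exact ⟨(h v h2).2 h1, h2⟩
  simp only [LocTwo, this]

theorem Pr_locTwo_up (z : Vert) (t ρ : ℕ) :
    Pr q (LocTwo {v | z.2 ≤ v.2} z t ρ) = Pr q (U t ρ) := by
  have h := Pr_locTwo_shift (q := q) z up 0 t ρ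
  rw [locTwo_up_zero] at h
  rw [← h]
  congr 1
  have e1 : {w : Vert | (w.1 - z.1, w.2 - z.2) ∈ up} = {v | z.2 ≤ v.2} := by
    ext w
    simp only [up, Set.mem_ofPred_eq, sub_nonneg]
  have e2 : ((0 : Vert).1 + z.1, (0 : Vert).2 + z.2) = z := by ext <;> simp
  rw [e1, e2]

theorem Pr_locTwo_down (z : Vert) (t ρ : ℕ) :
    Pr q (LocTwo {v | v.2 ≤ z.2} z t ρ) = Pr q (U t ρ) := by
  have h := Pr_locTwo_reflY (q := q) {v | (0 - z.2) ≤ v.2} (z.1, 0 - z.2) t ρ
  rw [Pr_locTwo_up (z.1, 0 - z.2)] at h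
  rw [← h]
  congr 1
  have e1 : {w : Vert | (w.1, 0 - w.2) ∈ {v : Vert | (0 - z.2) ≤ v.2}} = {v | v.2 ≤ z.2} := by
    ext w
    simp only [Set.mem_ofPred_eq]
    omega
  have e2 : ((z.1, 0 - z.2).1, 0 - (z.1, 0 - z.2).2) = z := by ext <;> simp
  rw [e1, e2]

theorem Pr_locTwo_right (z : Vert) (t ρ : ℕ) :
    Pr q (LocTwo {v | z.1 ≤ v.1} z t ρ) = Pr q (U t ρ) := by
  have h := Pr_locTwo_swap (q := q) {v | z.1 ≤ v.2} (z.2, z.1) t ρ
  rw [Pr_locTwo_up (z.2, z.1)] at h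
  rw [← h]
  congr 1

theorem Pr_locTwo_left (z : Vert) (t ρ : ℕ) :
    Pr q (LocTwo {v | v.1 ≤ z.1} z t ρ) = Pr q (U t ρ) := by
  have h := Pr_locTwo_swap (q := q) {v | v.2 ≤ z.1} (z.2, z.1) t ρ
  rw [Pr_locTwo_down (z.2, z.1)] at h
  rw [← h]
  congr 1

end Pool.Agent.H26.HP

end

section

/-!
# Two clusters near a boundary point: the inner and the outer side of a square

Final output of the half-plane part: `badIn : BadIn` and `badOut : BadOut`.
-/

open MeasureTheory ProbabilityTheory unitInterval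

namespace Pool.Agent.H26.HP

open Pool.Agent.H89.Perc
open Pool.Agent.H61.NC (RSWreg)
open Pool.Agent.H29.Sep (LocTwo BadIn BadOut)

variable {ω ω' : Config} {D X S T : Set Vert} {R n r s t : ℕ} {q : I} {c : ℝ}

/-- `z` lies on a side of the square of radius `r`, at distance more than `ρ` from the corners. -/
def Flat (z : Vert) (ρ r : ℕ) : Prop :=
  ((z.2 = r ∨ z.2 = -r) ∧ |z.1| + ρ + 1 ≤ r) ∨ ((z.1 = r ∨ z.1 = -r) ∧ |z.2| + ρ + 1 ≤ r)

/-- Moving the centre to a grid point. -/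
lemma locTwo_grid {z z' : Vert} {ρ ρ₃ : ℕ} (hz : z ∈ ball z' t) (h1 : ρ₃ + t ≤ ρ)
    (h2 : 2 * t ≤ ρ₃) : LocTwo D z t ρ ⊆ LocTwo D z' (2 * t) ρ₃ := by
  have hb : ∀ u ∈ ball z t, u ∈ ball z' (2 * t) := by
    intro u hu
    simp only [mem_ball] at hu hz ⊢
    push_cast
    omega
  have hb3 : ∀ u ∈ ball z t, u ∈ ball z' ρ₃ := by
    intro u hu
    simp only [mem_ball] at hu hz ⊢
    omega
  have hsub : ball z' ρ₃ ⊆ ball z ρ := by
    intro u hu
    simp only [mem_ball] at hu hz ⊢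
    omega
  have hout : ∀ v ∈ sphere z ρ, v ∉ ball z' ρ₃ ∨ v ∈ sphere z' ρ₃ := by
    intro v hv
    by_cases h : v ∈ ball z' ρ₃
    · right
      refine ⟨h, ?_⟩
      have h3 := hv.2
      simp only [mem_ball] at h hz h3
      omega
    · exact Or.inl h
  rintro ω ⟨u, hu, u', hu', v, hv, v', hv', k1, k2, k3⟩
  obtain ⟨x, hx, hcx⟩ := k1.to_sphere (hb3 u hu) (hout v hv)
  obtain ⟨x', hx', hcx'⟩ := k2.to_sphere (hb3 u' hu') (hout v' hv')
  refine ⟨u, hb u hu, u', hb u' hu', x, hx, x', hx', ?_, ?_, ?_⟩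
  · exact hcx.mono_set fun w hw => ⟨hw.1.1, hw.2⟩
  · exact hcx'.mono_set fun w hw => ⟨hw.1.1, hw.2⟩
  · exact fun h => k3 (h.mono_set fun w hw => ⟨hw.1, hsub hw.2⟩)

/-- One arm from a corner. -/
lemma locTwo_arm {z v₀ : Vert} {ρ ρ₁ : ℕ} (hz : z ∈ ball v₀ ρ₁) (h1 : 2 * ρ₁ + t ≤ ρ) :
    LocTwo D z t ρ ⊆ ArmBox v₀ (ρ₁ + t) (ρ - ρ₁) := by
  rintro ω ⟨u, hu, _, _, v, hv, _, _, k1, _, _⟩
  have hub : u ∈ ball v₀ (ρ₁ + t) := by
    simp only [mem_ball] at hu hz ⊢
    push_cast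
    omega
  have hub' : u ∈ ball v₀ (ρ - ρ₁) := by
    simp only [mem_ball] at hu hz ⊢
    omega
  have hout : v ∉ ball v₀ (ρ - ρ₁) ∨ v ∈ sphere v₀ (ρ - ρ₁) := by
    by_cases h : v ∈ ball v₀ (ρ - ρ₁)
    · right
      refine ⟨h, ?_⟩
      have h3 := hv.2
      simp only [mem_ball] at h hz h3
      omega
    · exact Or.inl h
  obtain ⟨x, hx, hcx⟩ := k1.to_sphere hub' hout
  exact ⟨u, hub, x, hx, hcx.mono_set Set.inter_subset_right⟩

/-- The grid points. -/
def cand (t r : ℕ) (p : (Bool × Bool) × ℤ) : Vert :=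
  if p.1.1 then (t * p.2, if p.1.2 then r else -r) else (if p.1.2 then r else -r, t * p.2)

/-- The corners. -/
def corner (r : ℕ) (k : Bool × Bool) : Vert := (if k.1 then r else -r, if k.2 then r else -r)

lemma grid_bound {x : ℤ} (ht : 1 ≤ t) (hx : |x| ≤ r) :
    x / t ∈ Finset.Icc (-((r / t : ℕ) + 1 : ℤ)) ((r / t : ℕ) + 1) := by
  rw [Finset.mem_Icc]
  have ht0 : (0 : ℤ) < t := by exact_mod_cast ht
  obtain ⟨hx1, hx2⟩ := abs_le.1 hx
  have h1 : (t : ℤ) * ((r / t : ℕ) : ℤ) ≤ r := by exact_mod_cast Nat.mul_div_le r t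
  have h2 : (r : ℤ) < t * ((r / t : ℕ) : ℤ) + t := by
    have := Nat.lt_mul_div_succ r (show 0 < t by omega)
    have h3 : t * (r / t + 1) = t * (r / t) + t := by ring
    rw [h3] at this
    exact_mod_cast this
  have h3 := Int.mul_ediv_add_emod x t
  have h4 := Int.emod_nonneg x ht0.ne'
  have h5 := Int.emod_lt_of_pos x ht0
  constructor
  · by_contra hlt
    push Not at hlt
    have h6 : x / (t : ℤ) ≤ -((r / t : ℕ) : ℤ) - 2 := by omega
    have h7 : (t : ℤ) * (x / t) ≤ t * (-((r / t : ℕ) : ℤ) - 2) :=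
      mul_le_mul_of_nonneg_left h6 ht0.le
    have h8 : (t : ℤ) * (-((r / t : ℕ) : ℤ) - 2) = -(t * ((r / t : ℕ) : ℤ)) - 2 * t := by ring
    omega
  · by_contra hlt
    push Not at hlt
    have h6 : ((r / t : ℕ) : ℤ) + 1 ≤ x / (t : ℤ) := by omega
    have h7 : (t : ℤ) * (((r / t : ℕ) : ℤ) + 1) ≤ t * (x / t) :=
      mul_le_mul_of_nonneg_left h6 ht0.le
    have h8 : (t : ℤ) * (((r / t : ℕ) : ℤ) + 1) = t * ((r / t : ℕ) : ℤ) + t := by ring
    omega

lemma grid_near {x : ℤ} (ht : 1 ≤ t) :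
    (t : ℤ) * (x / t) ≤ x ∧ x ≤ t * (x / t) + t ∧ |(t : ℤ) * (x / t)| ≤ |x| + t := by
  have ht0 : (0 : ℤ) < t := by exact_mod_cast ht
  have h3 := Int.mul_ediv_add_emod x t
  have h4 := Int.emod_nonneg x ht0.ne'
  have h5 := Int.emod_lt_of_pos x ht0
  refine ⟨by omega, by omega, ?_⟩
  rcases abs_cases ((t : ℤ) * (x / t)) with ⟨h6, h7⟩ | ⟨h6, h7⟩ <;>
    rcases abs_cases x with ⟨h8, h9⟩ | ⟨h8, h9⟩ <;> rw [h6, h8] <;> omega

/-- The deterministic covering. -/
theorem bad_cover {ρ ρ₁ : ℕ} (ht : 1 ≤ t) (h4 : 4 * t + 4 ≤ ρ₁) (h2 : 2 * ρ₁ + t ≤ ρ)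
    (_hr : 2 * ρ ≤ r) (h : ∃ z ∈ sphere 0 r, ω ∈ LocTwo D z t ρ) :
    (∃ k : Bool × Bool, ω ∈ ArmBox (corner r k) (ρ₁ + t) (ρ - ρ₁)) ∨
    ∃ p ∈ (Finset.univ : Finset (Bool × Bool)) ×ˢ
        Finset.Icc (-((r / t : ℕ) + 1 : ℤ)) ((r / t : ℕ) + 1),
      Flat (cand t r p) (ρ₁ - t - 1) r ∧ ω ∈ LocTwo D (cand t r p) (2 * t) (ρ₁ - t - 1) := by
  obtain ⟨z, hz, hω⟩ := h
  obtain ⟨x, y⟩ := z
  obtain ⟨hzb, hzs⟩ := hz
  simp only [mem_ball, Prod.fst_zero, Prod.snd_zero] at hzb hzs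
  have hxr : |x| ≤ r := abs_le.2 ⟨by omega, by omega⟩
  have hyr : |y| ≤ r := abs_le.2 ⟨by omega, by omega⟩
  by_cases hy : y = r ∨ y = -r
  · by_cases hx : |x| + ρ₁ ≤ r
    · right
      obtain ⟨g1, g2, g3⟩ := grid_near (x := x) ht
      refine ⟨((true, decide (y = r)), x / t), ?_, ?_, ?_⟩
      · rw [Finset.mem_product]
        exact ⟨Finset.mem_univ _, grid_bound ht hxr⟩
      · left
        refine ⟨?_, ?_⟩
        · rcases hy with hy | hy
          · left; simp [cand, hy]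
          · by_cases h : y = r
            · left; simp [cand, h]
            · right; simp [cand, h]
        · simp only [cand, if_true]
          have : ((ρ₁ - t - 1 : ℕ) : ℤ) = ρ₁ - t - 1 := by omega
          rw [this]
          omega
      · refine locTwo_grid ?_ (by omega) (by omega) hω
        have e2 : (cand t r ((true, decide (y = r)), x / t)).2 = y := by
          by_cases h : y = r
          · simp [cand, h]
          · have : y = -r := by omega
            simp [cand, h]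
            omega
        have e1 : (cand t r ((true, decide (y = r)), x / t)).1 = t * (x / t) := by simp [cand]
        rw [mem_ball, e1, e2]
        simp only
        omega
    · left
      refine ⟨(decide (0 ≤ x), decide (y = r)), ?_⟩
      refine locTwo_arm ?_ (by omega) hω
      have e1 : (corner r (decide (0 ≤ x), decide (y = r))).2 = y := by
        by_cases h : y = r
        · simp [corner, h]
        · simp [corner, h]
          omega
      rw [mem_ball, e1]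
      by_cases h : 0 ≤ x
      · have e2 : (corner r (decide (0 ≤ x), decide (y = r))).1 = r := by simp [corner, h]
        rw [e2]
        rw [abs_of_nonneg h] at hx
        simp only
        omega
      · have e2 : (corner r (decide (0 ≤ x), decide (y = r))).1 = -r := by simp [corner, h]
        rw [e2]
        rw [abs_of_neg (by omega)] at hx
        simp only
        omega
  · have hx : x = r ∨ x = -r := by omega
    by_cases hy' : |y| + ρ₁ ≤ r
    · right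
      obtain ⟨g1, g2, g3⟩ := grid_near (x := y) ht
      refine ⟨((false, decide (x = r)), y / t), ?_, ?_, ?_⟩
      · rw [Finset.mem_product]
        exact ⟨Finset.mem_univ _, grid_bound ht hyr⟩
      · right
        refine ⟨?_, ?_⟩
        · rcases hx with hx | hx
          · left; simp [cand, hx]
          · by_cases h : x = r
            · left; simp [cand, h]
            · right; simp [cand, h]
        · simp only [cand, Bool.false_eq_true, if_false]
          have : ((ρ₁ - t - 1 : ℕ) : ℤ) = ρ₁ - t - 1 := by omega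
          rw [this]
          omega
      · refine locTwo_grid ?_ (by omega) (by omega) hω
        have e2 : (cand t r ((false, decide (x = r)), y / t)).1 = x := by
          by_cases h : x = r
          · simp [cand, h]
          · simp [cand, h]
            omega
        have e1 : (cand t r ((false, decide (x = r)), y / t)).2 = t * (y / t) := by simp [cand]
        rw [mem_ball, e1, e2]
        simp only
        omega
    · left
      refine ⟨(decide (x = r), decide (0 ≤ y)), ?_⟩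
      refine locTwo_arm ?_ (by omega) hω
      have e1 : (corner r (decide (x = r), decide (0 ≤ y))).1 = x := by
        by_cases h : x = r
        · simp [corner, h]
        · simp [corner, h]
          omega
      rw [mem_ball, e1]
      by_cases h : 0 ≤ y
      · have e2 : (corner r (decide (x = r), decide (0 ≤ y))).2 = r := by simp [corner, h]
        rw [e2]
        rw [abs_of_nonneg h] at hy'
        simp only
        omega
      · have e2 : (corner r (decide (x = r), decide (0 ≤ y))).2 = -r := by simp [corner, h]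
        rw [e2]
        rw [abs_of_neg (by omega)] at hy'
        simp only
        omega

/-- From flat boundary points to all boundary points. -/
theorem bad_of_flat (c : ℝ) (hc : 0 < c) : ∃ C κ : ℝ, 0 < C ∧ 0 < κ ∧
    ∀ (n t ρ r : ℕ) (q : I) (D : Set Vert), 1 ≤ t → t ≤ ρ → 2 * ρ ≤ r → r ≤ n → RSWreg c n q →
      (∀ (z : Vert) (s ρ' : ℕ), Flat z ρ' r → Pr q (LocTwo D z s ρ') ≤ Pr q (U s ρ')) →
      Pr q {ω | ∃ z ∈ sphere 0 r, ω ∈ LocTwo D z t ρ} ≤
        C * ((r : ℝ) / ρ) * ((t : ℝ) / ρ) ^ κ := by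
  classical
  obtain ⟨C1, κ1, hC1, hκ1, hκ11, hU⟩ := U_le c hc
  obtain ⟨C2, κ2, hC2, hκ2, hκ21, hA⟩ := armBox_decay c hc
  set a : ℝ := κ1 / (2 * (1 + κ1)) with ha
  have ha0 : 0 < a := by positivity
  have ha1 : a ≤ 1 := by
    rw [ha, div_le_one (by positivity)]
    linarith only [hκ1]
  set κ : ℝ := min (κ1 / 2) (a * κ2) with hκ
  have hκ0 : 0 < κ := lt_min (by positivity) (by positivity)
  have hκa : κ ≤ a := (min_le_right _ _).trans (mul_le_of_le_one_right ha0.le hκ21)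
  refine ⟨40 + 20 * C1 + 80 * C2, κ, by positivity, hκ0, ?_⟩
  intro n t ρ r q D ht htρ hρr hrn hreg hflat
  have ht0 : (0 : ℝ) < t := by exact_mod_cast ht
  have hρ0 : (0 : ℝ) < ρ := by exact_mod_cast (lt_of_lt_of_le ht htρ)
  have hr0 : (0 : ℝ) < r := by
    have : 0 < r := by omega
    exact_mod_cast this
  set θ : ℝ := (t : ℝ) / ρ with hθ
  have hθ0 : 0 < θ := by positivity
  have hθ1 : θ ≤ 1 := by
    rw [hθ, div_le_one hρ0]; exact_mod_cast htρ
  have hrρ : 1 ≤ (r : ℝ) / ρ := by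
    rw [le_div_iff₀ hρ0, one_mul]
    have : ρ ≤ r := by omega
    exact_mod_cast this
  set x : ℝ := θ ^ a with hx
  have hx0 : 0 < x := by positivity
  have hxθ : θ ≤ x := by
    calc θ = θ ^ (1 : ℝ) := (Real.rpow_one θ).symm
      _ ≤ θ ^ a := Real.rpow_le_rpow_of_exponent_ge hθ0 hθ1 ha1
  have hθκ : 0 < θ ^ κ := by positivity
  have hxκ : x ≤ θ ^ κ := Real.rpow_le_rpow_of_exponent_ge hθ0 hθ1 hκa
  have hmain : ∀ y : ℝ, 0 ≤ y → y ≤ θ ^ κ → ∀ A : ℝ, 0 ≤ A → A * y ≤ A * (r / ρ) * θ ^ κ := by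
    intro y hy0 hy A hA
    calc A * y ≤ A * θ ^ κ := mul_le_mul_of_nonneg_left hy hA
      _ = A * 1 * θ ^ κ := by ring
      _ ≤ A * (r / ρ) * θ ^ κ :=
        mul_le_mul_of_nonneg_right (mul_le_mul_of_nonneg_left hrρ hA) hθκ.le
  by_cases hx40 : 1 / 40 < x
  · calc Pr q {ω | ∃ z ∈ sphere 0 r, ω ∈ LocTwo D z t ρ} ≤ 1 := Pr_le_one
      _ ≤ 40 * x := by linarith only [hx40]
      _ ≤ 40 * (r / ρ) * θ ^ κ := hmain x hx0.le hxκ 40 (by norm_num)
      _ ≤ (40 + 20 * C1 + 80 * C2) * (r / ρ) * θ ^ κ := by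
        refine mul_le_mul_of_nonneg_right (mul_le_mul_of_nonneg_right ?_ (by positivity)) hθκ.le
        linarith only [hC1, hC2]
  push Not at hx40
  have hρx : (t : ℝ) ≤ ρ * x := by
    calc (t : ℝ) = ρ * θ := by rw [hθ]; field_simp
      _ ≤ ρ * x := mul_le_mul_of_nonneg_left hxθ hρ0.le
  have ht1 : (1 : ℝ) ≤ t := by exact_mod_cast ht
  set ρ₁ : ℕ := ⌈8 * (ρ * x)⌉₊ with hρ₁
  have e1 : 8 * (ρ * x) ≤ ρ₁ := Nat.le_ceil _
  have e2 : (ρ₁ : ℝ) ≤ 9 * (ρ * x) := by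
    have := Nat.ceil_lt_add_one (show 0 ≤ 8 * (ρ * x) by positivity)
    linarith only [hρx, ht1, this]
  have e3 : (ρ * x) ≤ ρ / 40 := by
    calc ρ * x ≤ ρ * (1 / 40) := mul_le_mul_of_nonneg_left hx40 hρ0.le
      _ = ρ / 40 := by ring
  have n1 : 8 * t ≤ ρ₁ := by
    have : (8 * t : ℝ) ≤ ρ₁ := by linarith only [hρx, e1]
    exact_mod_cast this
  have n2 : 2 * ρ₁ + t ≤ ρ := by
    have : (2 * ρ₁ + t : ℝ) ≤ ρ := by linarith only [hx0, hx40, hρx, ht1, e2, e3]
    exact_mod_cast this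
  set ρ₃ : ℕ := ρ₁ - t - 1 with hρ₃
  have e4 : 2 * (ρ * x) ≤ ρ₃ := by
    have h1 : (ρ₃ : ℝ) = ρ₁ - t - 1 := by
      have : ρ₃ + t + 1 = ρ₁ := by omega
      have h : (ρ₃ : ℝ) + t + 1 = ρ₁ := by exact_mod_cast this
      linarith only [h]
    rw [h1]
    linarith only [hx0, hx40, hρx, ht1, e1]
  have hρ₃0 : (0 : ℝ) < ρ₃ := by linarith only [hx0, hx40, hρx, ht1, e4]
  -- the covering
  have hcov : Pr q {ω | ∃ z ∈ sphere 0 r, ω ∈ LocTwo D z t ρ} ≤
      Pr q (⋃ k ∈ (Finset.univ : Finset (Bool × Bool)), ArmBox (corner r k) (ρ₁ + t) (ρ - ρ₁)) +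
      Pr q (⋃ p ∈ ((Finset.univ : Finset (Bool × Bool)) ×ˢ
        Finset.Icc (-((r / t : ℕ) + 1 : ℤ)) ((r / t : ℕ) + 1)).filter
          (fun p => Flat (cand t r p) ρ₃ r), LocTwo D (cand t r p) (2 * t) ρ₃) := by
    refine (Pr_mono ?_).trans Pr_union_le
    intro ω hω
    rcases bad_cover ht (by omega) n2 hρr hω with ⟨k, hk⟩ | ⟨p, hp, hpf, hpω⟩
    · left
      simp only [Set.mem_iUnion]
      exact ⟨k, Finset.mem_univ _, hk⟩
    · right
      simp only [Set.mem_iUnion]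
      exact ⟨p, Finset.mem_filter.2 ⟨hp, hpf⟩, hpω⟩
  -- corners
  have hcor : Pr q (⋃ k ∈ (Finset.univ : Finset (Bool × Bool)),
      ArmBox (corner r k) (ρ₁ + t) (ρ - ρ₁)) ≤ 80 * C2 * (r / ρ) * θ ^ κ := by
    have h1 : ∀ k : Bool × Bool, Pr q (ArmBox (corner r k) (ρ₁ + t) (ρ - ρ₁)) ≤
        20 * C2 * θ ^ κ := by
      intro k
      rw [Pr_armBox]
      have h2 := hA n q hreg (ρ₁ + t) (ρ - ρ₁) (by omega) (by omega) (by omega)
      refine h2.trans ?_
      have h3 : ((ρ₁ + t : ℕ) : ℝ) / ((ρ - ρ₁ : ℕ) : ℝ) ≤ 20 * x := by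
        have h4 : ((ρ - ρ₁ : ℕ) : ℝ) = ρ - ρ₁ := by
          rw [Nat.cast_sub (by omega)]
        rw [h4, div_le_iff₀ (by linarith only [hx0, hx40, hρx, ht1, e2, e3])]
        push_cast
        have h5 : (ρ : ℝ) / 2 ≤ ρ - ρ₁ := by linarith only [hx0, hx40, hρx, ht1, e2, e3]
        calc (ρ₁ : ℝ) + t ≤ 10 * (ρ * x) := by linarith only [hρx, e2]
          _ = 20 * x * (ρ / 2) := by ring
          _ ≤ 20 * x * (ρ - ρ₁) := mul_le_mul_of_nonneg_left h5 (by positivity)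
      have h6 : (((ρ₁ + t : ℕ) : ℝ) / ((ρ - ρ₁ : ℕ) : ℝ)) ^ κ2 ≤ (20 * x) ^ κ2 :=
        Real.rpow_le_rpow (by positivity) h3 hκ2.le
      have h7 : (20 * x) ^ κ2 ≤ 20 * θ ^ κ := by
        rw [Real.mul_rpow (by norm_num) hx0.le]
        have h8 : (20 : ℝ) ^ κ2 ≤ 20 := by
          calc (20 : ℝ) ^ κ2 ≤ 20 ^ (1 : ℝ) := Real.rpow_le_rpow_of_exponent_le (by norm_num) hκ21
            _ = 20 := Real.rpow_one _
        have h9 : x ^ κ2 ≤ θ ^ κ := by
          rw [hx, ← Real.rpow_mul hθ0.le]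
          exact Real.rpow_le_rpow_of_exponent_ge hθ0 hθ1 (min_le_right _ _)
        exact mul_le_mul h8 h9 (by positivity) (by norm_num)
      calc C2 * (((ρ₁ + t : ℕ) : ℝ) / ((ρ - ρ₁ : ℕ) : ℝ)) ^ κ2 ≤ C2 * (20 * θ ^ κ) :=
            mul_le_mul_of_nonneg_left (h6.trans h7) hC2.le
        _ = 20 * C2 * θ ^ κ := by ring
    calc _ ≤ ∑ k ∈ (Finset.univ : Finset (Bool × Bool)),
          Pr q (ArmBox (corner r k) (ρ₁ + t) (ρ - ρ₁)) := Pr_biUnion_le _ _
      _ ≤ ∑ _k ∈ (Finset.univ : Finset (Bool × Bool)), 20 * C2 * θ ^ κ :=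
          Finset.sum_le_sum fun k _ => h1 k
      _ = (80 * C2) * θ ^ κ := by
          rw [Finset.sum_const, Finset.card_univ]
          simp only [Fintype.card_prod, Fintype.card_bool, nsmul_eq_mul]
          push_cast
          ring
      _ ≤ 80 * C2 * (r / ρ) * θ ^ κ := hmain (θ ^ κ) hθκ.le le_rfl (80 * C2) (by positivity)
  -- flat points
  have hfl : Pr q (⋃ p ∈ ((Finset.univ : Finset (Bool × Bool)) ×ˢ
        Finset.Icc (-((r / t : ℕ) + 1 : ℤ)) ((r / t : ℕ) + 1)).filter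
          (fun p => Flat (cand t r p) ρ₃ r), LocTwo D (cand t r p) (2 * t) ρ₃) ≤
      20 * C1 * (r / ρ) * θ ^ κ := by
    have h1 : ∀ p ∈ ((Finset.univ : Finset (Bool × Bool)) ×ˢ
        Finset.Icc (-((r / t : ℕ) + 1 : ℤ)) ((r / t : ℕ) + 1)).filter
          (fun p => Flat (cand t r p) ρ₃ r), Pr q (LocTwo D (cand t r p) (2 * t) ρ₃) ≤
        C1 * (θ * θ ^ (κ1 / 2)) := by
      intro p hp
      rw [Finset.mem_filter] at hp
      refine (hflat _ _ _ hp.2).trans ((hU n q hreg (2 * t) ρ₃ (by omega) (by omega)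
        (by omega)).trans ?_)
      refine mul_le_mul_of_nonneg_left ?_ hC1.le
      have h2 : ((2 * t : ℕ) : ℝ) / ρ₃ ≤ θ / x := by
        rw [div_le_div_iff₀ hρ₃0 hx0]
        push_cast
        calc 2 * (t : ℝ) * x = θ * (2 * (ρ * x)) := by rw [hθ]; field_simp
          _ ≤ θ * ρ₃ := mul_le_mul_of_nonneg_left e4 hθ0.le
      calc (((2 * t : ℕ) : ℝ) / ρ₃) ^ (1 + κ1) ≤ (θ / x) ^ (1 + κ1) :=
            Real.rpow_le_rpow (by positivity) h2 (by positivity)
        _ = θ * θ ^ (κ1 / 2) := by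
            rw [Real.div_rpow hθ0.le hx0.le, hx, ← Real.rpow_mul hθ0.le,
              ← Real.rpow_sub hθ0]
            have e : 1 + κ1 - a * (1 + κ1) = 1 + κ1 / 2 := by
              rw [ha]; field_simp; ring
            rw [e, Real.rpow_add hθ0, Real.rpow_one]
    calc _ ≤ ∑ p ∈ ((Finset.univ : Finset (Bool × Bool)) ×ˢ
        Finset.Icc (-((r / t : ℕ) + 1 : ℤ)) ((r / t : ℕ) + 1)).filter
          (fun p => Flat (cand t r p) ρ₃ r), Pr q (LocTwo D (cand t r p) (2 * t) ρ₃) :=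
          Pr_biUnion_le _ _
      _ ≤ ∑ _p ∈ ((Finset.univ : Finset (Bool × Bool)) ×ˢ
        Finset.Icc (-((r / t : ℕ) + 1 : ℤ)) ((r / t : ℕ) + 1)).filter
          (fun p => Flat (cand t r p) ρ₃ r), C1 * (θ * θ ^ (κ1 / 2)) := Finset.sum_le_sum h1
      _ ≤ ∑ _p ∈ (Finset.univ : Finset (Bool × Bool)) ×ˢ
        Finset.Icc (-((r / t : ℕ) + 1 : ℤ)) ((r / t : ℕ) + 1), C1 * (θ * θ ^ (κ1 / 2)) :=
          Finset.sum_le_sum_of_subset_of_nonneg (Finset.filter_subset _ _)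
            fun _ _ _ => by positivity
      _ = (4 * (2 * (r / t : ℕ) + 3) : ℝ) * (C1 * (θ * θ ^ (κ1 / 2))) := by
          rw [Finset.sum_const, Finset.card_product, Finset.card_univ, Int.card_Icc, nsmul_eq_mul]
          simp only [Fintype.card_prod, Fintype.card_bool]
          congr 1
          have : ((((r / t : ℕ) : ℤ) + 1) + 1 - -(((r / t : ℕ) : ℤ) + 1)).toNat =
            2 * (r / t) + 3 := by omega
          rw [this]
          push_cast
          ring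
      _ ≤ (20 * ((r : ℝ) / t)) * (C1 * (θ * θ ^ (κ1 / 2))) := by
          refine mul_le_mul_of_nonneg_right ?_ (by positivity)
          have h3 : ((r / t : ℕ) : ℝ) ≤ (r : ℝ) / t := Nat.cast_div_le
          have h4 : (1 : ℝ) ≤ (r : ℝ) / t := by
            rw [le_div_iff₀ ht0, one_mul]
            have : t ≤ r := by omega
            exact_mod_cast this
          linarith only [h3, h4]
      _ = 20 * C1 * (r / ρ) * θ ^ (κ1 / 2) := by
          rw [hθ]; field_simp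
      _ ≤ 20 * C1 * (r / ρ) * θ ^ κ := by
          refine mul_le_mul_of_nonneg_left ?_ (by positivity)
          exact Real.rpow_le_rpow_of_exponent_ge hθ0 hθ1 (min_le_left _ _)
  calc _ ≤ _ := hcov
    _ ≤ 80 * C2 * (r / ρ) * θ ^ κ + 20 * C1 * (r / ρ) * θ ^ κ := add_le_add hcor hfl
    _ ≤ (40 + 20 * C1 + 80 * C2) * (r / ρ) * θ ^ κ := by
        have : 0 ≤ 40 * ((r : ℝ) / ρ) * θ ^ κ := by positivity
        nlinarith only [this]

/-- The inner side. -/
theorem badIn : BadIn := by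
  intro c hc
  obtain ⟨C, κ, hC, hκ, h⟩ := bad_of_flat c hc
  refine ⟨C, κ, hC, hκ, fun n t ρ r q h1 h2 h3 h4 h5 => h n t ρ r q (ball 0 r) h1 h2 h3 h4 h5 ?_⟩
  intro z s ρ' hz
  rcases hz with ⟨hz1 | hz1, hz2⟩ | ⟨hz1 | hz1, hz2⟩
  · rw [locTwo_congr (D' := {v | v.2 ≤ z.2}), Pr_locTwo_down]
    intro v hv
    simp only [mem_ball, Prod.fst_zero, Prod.snd_zero, Set.mem_ofPred_eq] at hv ⊢
    rcases abs_cases z.1 with ⟨k1, k2⟩ | ⟨k1, k2⟩ <;> rw [k1] at hz2 <;> omega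
  · rw [locTwo_congr (D' := {v | z.2 ≤ v.2}), Pr_locTwo_up]
    intro v hv
    simp only [mem_ball, Prod.fst_zero, Prod.snd_zero, Set.mem_ofPred_eq] at hv ⊢
    rcases abs_cases z.1 with ⟨k1, k2⟩ | ⟨k1, k2⟩ <;> rw [k1] at hz2 <;> omega
  · rw [locTwo_congr (D' := {v | v.1 ≤ z.1}), Pr_locTwo_left]
    intro v hv
    simp only [mem_ball, Prod.fst_zero, Prod.snd_zero, Set.mem_ofPred_eq] at hv ⊢
    rcases abs_cases z.2 with ⟨k1, k2⟩ | ⟨k1, k2⟩ <;> rw [k1] at hz2 <;> omega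
  · rw [locTwo_congr (D' := {v | z.1 ≤ v.1}), Pr_locTwo_right]
    intro v hv
    simp only [mem_ball, Prod.fst_zero, Prod.snd_zero, Set.mem_ofPred_eq] at hv ⊢
    rcases abs_cases z.2 with ⟨k1, k2⟩ | ⟨k1, k2⟩ <;> rw [k1] at hz2 <;> omega

/-- The outer side. -/
theorem badOut : BadOut := by
  intro c hc
  obtain ⟨C, κ, hC, hκ, h⟩ := bad_of_flat c hc
  refine ⟨C, κ, hC, hκ, fun n t ρ r q h1 h2 h3 h4 h5 =>
    h n t ρ r q (ball 0 (r - 1))ᶜ h1 h2 h3 h4 h5 ?_⟩
  intro z s ρ' hz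
  have hr1 : 1 ≤ r := by omega
  have hcast : ((r - 1 : ℕ) : ℤ) = r - 1 := by omega
  rcases hz with ⟨hz1 | hz1, hz2⟩ | ⟨hz1 | hz1, hz2⟩
  · rw [locTwo_congr (D' := {v | z.2 ≤ v.2}), Pr_locTwo_up]
    intro v hv
    simp only [mem_ball, Prod.fst_zero, Prod.snd_zero, Set.mem_ofPred_eq, Set.mem_compl_iff,
      hcast] at hv ⊢
    rcases abs_cases z.1 with ⟨k1, k2⟩ | ⟨k1, k2⟩ <;> rw [k1] at hz2 <;> omega
  · rw [locTwo_congr (D' := {v | v.2 ≤ z.2}), Pr_locTwo_down]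
    intro v hv
    simp only [mem_ball, Prod.fst_zero, Prod.snd_zero, Set.mem_ofPred_eq, Set.mem_compl_iff,
      hcast] at hv ⊢
    rcases abs_cases z.1 with ⟨k1, k2⟩ | ⟨k1, k2⟩ <;> rw [k1] at hz2 <;> omega
  · rw [locTwo_congr (D' := {v | z.1 ≤ v.1}), Pr_locTwo_right]
    intro v hv
    simp only [mem_ball, Prod.fst_zero, Prod.snd_zero, Set.mem_ofPred_eq, Set.mem_compl_iff,
      hcast] at hv ⊢
    rcases abs_cases z.2 with ⟨k1, k2⟩ | ⟨k1, k2⟩ <;> rw [k1] at hz2 <;> omega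
  · rw [locTwo_congr (D' := {v | v.1 ≤ z.1}), Pr_locTwo_left]
    intro v hv
    simp only [mem_ball, Prod.fst_zero, Prod.snd_zero, Set.mem_ofPred_eq, Set.mem_compl_iff,
      hcast] at hv ⊢
    rcases abs_cases z.2 with ⟨k1, k2⟩ | ⟨k1, k2⟩ <;> rw [k1] at hz2 <;> omega

end Pool.Agent.H26.HP

end
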