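import Pool.Agent.H94.BG.H31.PT.M01
import Pool.Agent.H94.BG.H31.PT.Perc.Abs

/-! The parts of this file: H83.Site.Defs, H83.Site.TProb, H83.Site.DualN, H83.Site.Glue, H83.Site.Circ, H83.Site.DualE, H83.Site.Low, H83.Site.Expl, H83.Site.Renorm, H83.Site.ABLower, H83.Site.Transfer, H83.SK.Base, H92.SN.Defs, H83.SK.P29.Rect, H83.SK.P29.CircProb, H13.SK.BlockL1, H13.SK.BlockEv, H83.SK.Tor, H83.SK.Iface, H83.SK.PHP.Expl, H83.SK.P29.ExplB. -/

section

/-!
# Site percolation on the centred square lattice

The vertices of the centred lattice `T` are the sites `(x, y, false)` of `ℤ²` and the centres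
`(x, y, true)` of the unit squares `[x, x + 1] × [y, y + 1]`. Sites are adjacent to their four
nearest neighbours and every centre is adjacent to the four corners of its square. This is a
triangulation of the plane. A configuration is a function `Edge → Bool` (`Edge = ℤ × ℤ × Bool`
is used here as the set of vertices of `T`); `full r ω` is the configuration in which all centres
have the state `r`. Open paths of `full false ω` are nearest neighbour paths of open sites, open
paths of `full true ω` are paths of open sites with diagonal steps.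
-/

set_option autoImplicit false

open MeasureTheory ProbabilityTheory unitInterval

namespace Pool.Agent.H83.Site

open Pool.Agent.H89.Perc

/-- Vertices of the centred lattice. -/
abbrev TV := Edge

/-- Twice the first coordinate of the position of a vertex. -/
def fx (v : TV) : ℤ := 2 * v.1 + (if v.2.2 then 1 else 0)

/-- Twice the second coordinate of the position of a vertex. -/
def fy (v : TV) : ℤ := 2 * v.2.1 + (if v.2.2 then 1 else 0)

/-- Adjacency of the centred lattice. -/
def TAdj (u v : TV) : Prop :=
  (u.2.2 = false ∧ v.2.2 = false ∧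
    ((u.1 = v.1 ∧ (u.2.1 = v.2.1 + 1 ∨ v.2.1 = u.2.1 + 1)) ∨
      (u.2.1 = v.2.1 ∧ (u.1 = v.1 + 1 ∨ v.1 = u.1 + 1)))) ∨
  (u.2.2 = false ∧ v.2.2 = true ∧ (u.1 = v.1 ∨ u.1 = v.1 + 1) ∧
    (u.2.1 = v.2.1 ∨ u.2.1 = v.2.1 + 1)) ∨
  (u.2.2 = true ∧ v.2.2 = false ∧ (v.1 = u.1 ∨ v.1 = u.1 + 1) ∧
    (v.2.1 = u.2.1 ∨ v.2.1 = u.2.1 + 1))

/-- One step between open vertices of `S`. -/
def TStep (η : Config) (S : Set TV) (u v : TV) : Prop :=
  u ∈ S ∧ v ∈ S ∧ TAdj u v ∧ η u = true ∧ η v = true

/-- `u` and `v` are joined by a path of open vertices of `S`. -/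
def TConn (η : Config) (S : Set TV) (u v : TV) : Prop :=
  u ∈ S ∧ η u = true ∧ Relation.ReflTransGen (TStep η S) u v

/-- The configuration with open and closed exchanged. -/
def neg (η : Config) : Config := fun v => !η v

/-- The configuration in which the centres have the state `r`. -/
def full (r : Bool) (ω : Config) : Config := fun v => if v.2.2 then r else ω v

/-- The probability of an event for the configuration `full r ω`, when the sites are open with
probability `p`. -/
noncomputable def PT (p : I) (r : Bool) (E : Set Config) : ℝ := Pr p {ω | full r ω ∈ E}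

/-! ### Geometry -/

@[simp] theorem fx_site (x y : ℤ) : fx (x, y, false) = 2 * x := by simp [fx]
@[simp] theorem fy_site (x y : ℤ) : fy (x, y, false) = 2 * y := by simp [fy]
@[simp] theorem fx_cen (x y : ℤ) : fx (x, y, true) = 2 * x + 1 := by simp [fx]
@[simp] theorem fy_cen (x y : ℤ) : fy (x, y, true) = 2 * y + 1 := by simp [fy]

theorem fx_even {v : TV} (h : v.2.2 = false) : fx v = 2 * v.1 := by simp [fx, h]
theorem fy_even {v : TV} (h : v.2.2 = false) : fy v = 2 * v.2.1 := by simp [fy, h]
theorem fx_odd {v : TV} (h : v.2.2 = true) : fx v = 2 * v.1 + 1 := by simp [fx, h]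
theorem fy_odd {v : TV} (h : v.2.2 = true) : fy v = 2 * v.2.1 + 1 := by simp [fy, h]

theorem TAdj.symm {u v : TV} (h : TAdj u v) : TAdj v u := by
  unfold TAdj at h ⊢
  rcases h with ⟨h1, h2, h3⟩ | ⟨h1, h2, h3⟩ | ⟨h1, h2, h3⟩
  · left; refine ⟨h2, h1, ?_⟩; omega
  · right; right; exact ⟨h2, h1, h3⟩
  · right; left; exact ⟨h2, h1, h3⟩

/-- A step changes the coordinates by at most one (two in doubled coordinates), and it does not
jump over a line of sites. -/
theorem TAdj.fx_le {u v : TV} (h : TAdj u v) {a : ℤ} (hu : fx u < 2 * a) : fx v ≤ 2 * a := by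
  unfold TAdj at h
  rcases h with ⟨h1, h2, h3⟩ | ⟨h1, h2, h3⟩ | ⟨h1, h2, h3⟩
  · rw [fx_even h1] at hu; rw [fx_even h2]; omega
  · rw [fx_even h1] at hu; rw [fx_odd h2]; omega
  · rw [fx_odd h1] at hu; rw [fx_even h2]; omega

theorem TAdj.le_fx {u v : TV} (h : TAdj u v) {a : ℤ} (hu : 2 * a < fx u) : 2 * a ≤ fx v := by
  unfold TAdj at h
  rcases h with ⟨h1, h2, h3⟩ | ⟨h1, h2, h3⟩ | ⟨h1, h2, h3⟩
  · rw [fx_even h1] at hu; rw [fx_even h2]; omega
  · rw [fx_even h1] at hu; rw [fx_odd h2]; omega
  · rw [fx_odd h1] at hu; rw [fx_even h2]; omega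

theorem TAdj.fy_le {u v : TV} (h : TAdj u v) {a : ℤ} (hu : fy u < 2 * a) : fy v ≤ 2 * a := by
  unfold TAdj at h
  rcases h with ⟨h1, h2, h3⟩ | ⟨h1, h2, h3⟩ | ⟨h1, h2, h3⟩
  · rw [fy_even h1] at hu; rw [fy_even h2]; omega
  · rw [fy_even h1] at hu; rw [fy_odd h2]; omega
  · rw [fy_odd h1] at hu; rw [fy_even h2]; omega

theorem TAdj.le_fy {u v : TV} (h : TAdj u v) {a : ℤ} (hu : 2 * a < fy u) : 2 * a ≤ fy v := by
  unfold TAdj at h
  rcases h with ⟨h1, h2, h3⟩ | ⟨h1, h2, h3⟩ | ⟨h1, h2, h3⟩
  · rw [fy_even h1] at hu; rw [fy_even h2]; omega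
  · rw [fy_even h1] at hu; rw [fy_odd h2]; omega
  · rw [fy_odd h1] at hu; rw [fy_even h2]; omega

/-- A vertex with even doubled coordinate is a site. -/
theorem site_of_fx {v : TV} {a : ℤ} (h : fx v = 2 * a) : v.2.2 = false ∧ v.1 = a := by
  obtain ⟨x, y, b⟩ := v
  cases b
  · simp only [fx_site] at h; exact ⟨rfl, by simp only; omega⟩
  · simp only [fx_cen] at h; omega

theorem site_of_fy {v : TV} {a : ℤ} (h : fy v = 2 * a) : v.2.2 = false ∧ v.2.1 = a := by
  obtain ⟨x, y, b⟩ := v
  cases b
  · simp only [fy_site] at h; exact ⟨rfl, by simp only; omega⟩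
  · simp only [fy_cen] at h; omega

/-! ### Paths -/

end Pool.Agent.H83.Site

end

section

/-!
# Probability of events of site percolation on the centred lattice
-/

set_option autoImplicit false

open MeasureTheory ProbabilityTheory unitInterval

namespace Pool.Agent.H83.Site

open Pool.Agent.H89.Perc

variable {p q : I} {r : Bool} {E F : Set Config} {s t : Finset Edge}

/-! ### Local and increasing events -/

theorem incr_full (r : Bool) (h : Incr E) : Incr {ω | full r ω ∈ E} := by
  intro ω ω' hω hE
  refine h _ _ (fun e he => ?_) hE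
  simp only [full] at he ⊢
  split
  · rename_i h1; rw [if_pos h1] at he; exact he
  · rename_i h1; rw [if_neg h1] at he; exact hω e he

theorem LocalOn.neg (h : LocalOn s E) : LocalOn s {η | neg η ∈ E} := by
  intro ω ω' hω hE
  exact h _ _ (fun e he => by simp only [Site.neg]; rw [hω e he]) hE

/-! ### Elementary properties of `PT` -/

theorem σσ (p : I) : σ (σ p) = p := unitInterval.symm_symm p

/-! ### Symmetries -/

/-- Translation. -/
def shf (x y : ℤ) (v : TV) : TV := (v.1 + x, v.2.1 + y, v.2.2)

/-- Reflection `x ↦ z - x`. -/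
def rfx (z : ℤ) (v : TV) : TV := (z - v.1 - (if v.2.2 then 1 else 0), v.2.1, v.2.2)

/-- Reflection `y ↦ z - y`. -/
def rfy (z : ℤ) (v : TV) : TV := (v.1, z - v.2.1 - (if v.2.2 then 1 else 0), v.2.2)

/-- Reflection in the diagonal. -/
def swp (v : TV) : TV := (v.2.1, v.1, v.2.2)

theorem fx_rfx (z : ℤ) (v : TV) : fx (rfx z v) = 2 * z - fx v := by
  obtain ⟨x, y, b⟩ := v
  cases b <;> simp [rfx] <;> omega
theorem fy_rfx (z : ℤ) (v : TV) : fy (rfx z v) = fy v := by
  obtain ⟨x, y, b⟩ := v
  cases b <;> simp [rfx]
theorem fx_rfy (z : ℤ) (v : TV) : fx (rfy z v) = fx v := by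
  obtain ⟨x, y, b⟩ := v
  cases b <;> simp [rfy]
theorem fy_rfy (z : ℤ) (v : TV) : fy (rfy z v) = 2 * z - fy v := by
  obtain ⟨x, y, b⟩ := v
  cases b <;> simp [rfy] <;> omega
theorem fx_swp (v : TV) : fx (swp v) = fy v := rfl
theorem fy_swp (v : TV) : fy (swp v) = fx v := rfl

theorem shf_shf (x y : ℤ) (v : TV) : shf x y (shf (-x) (-y) v) = v := by
  obtain ⟨a, b, c⟩ := v; simp [shf]
theorem shf_shf' (x y : ℤ) (v : TV) : shf (-x) (-y) (shf x y v) = v := by
  obtain ⟨a, b, c⟩ := v; simp [shf]
theorem swp_swp (v : TV) : swp (swp v) = v := rfl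

theorem TAdj.shf {u v : TV} (h : TAdj u v) (x y : ℤ) : TAdj (shf x y u) (shf x y v) := by
  unfold TAdj Site.shf at *
  simp only
  rcases h with ⟨h1, h2, h3⟩ | ⟨h1, h2, h3⟩ | ⟨h1, h2, h3⟩
  · exact Or.inl ⟨h1, h2, by omega⟩
  · exact Or.inr (Or.inl ⟨h1, h2, by omega⟩)
  · exact Or.inr (Or.inr ⟨h1, h2, by omega⟩)

theorem TAdj.rfx {u v : TV} (h : TAdj u v) (z : ℤ) : TAdj (rfx z u) (rfx z v) := by
  unfold TAdj Site.rfx at *
  simp only
  rcases h with ⟨h1, h2, h3⟩ | ⟨h1, h2, h3⟩ | ⟨h1, h2, h3⟩
  · refine Or.inl ⟨h1, h2, ?_⟩; rw [h1, h2]; simp only [Bool.false_eq_true, if_false]; omega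
  · refine Or.inr (Or.inl ⟨h1, h2, ?_⟩); rw [h1, h2]
    simp only [Bool.false_eq_true, if_false, if_true]; omega
  · refine Or.inr (Or.inr ⟨h1, h2, ?_⟩); rw [h1, h2]
    simp only [Bool.false_eq_true, if_false, if_true]; omega

theorem TAdj.rfy {u v : TV} (h : TAdj u v) (z : ℤ) : TAdj (rfy z u) (rfy z v) := by
  unfold TAdj Site.rfy at *
  simp only
  rcases h with ⟨h1, h2, h3⟩ | ⟨h1, h2, h3⟩ | ⟨h1, h2, h3⟩
  · refine Or.inl ⟨h1, h2, ?_⟩; rw [h1, h2]; simp only [Bool.false_eq_true, if_false]; omega
  · refine Or.inr (Or.inl ⟨h1, h2, ?_⟩); rw [h1, h2]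
    simp only [Bool.false_eq_true, if_false, if_true]; omega
  · refine Or.inr (Or.inr ⟨h1, h2, ?_⟩); rw [h1, h2]
    simp only [Bool.false_eq_true, if_false, if_true]; omega

theorem TAdj.swp {u v : TV} (h : TAdj u v) : TAdj (swp u) (swp v) := by
  unfold TAdj Site.swp at *
  simp only
  rcases h with ⟨h1, h2, h3⟩ | ⟨h1, h2, h3⟩ | ⟨h1, h2, h3⟩
  · exact Or.inl ⟨h1, h2, h3.symm⟩
  · exact Or.inr (Or.inl ⟨h1, h2, h3.symm⟩)
  · exact Or.inr (Or.inr ⟨h1, h2, h3.symm⟩)

theorem shf_injective (x y : ℤ) : Function.Injective (shf x y) := fun u v h => by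
  rw [← shf_shf' x y u, h, shf_shf']

theorem swp_injective : Function.Injective swp := fun u v h => by
  rw [← swp_swp u, h, swp_swp]

/-! ### Paths and squares -/

/-! ### Square root trick -/

end Pool.Agent.H83.Site

end

section

/-! # Duality: open horizontal and closed vertical crossings do not coexist

The centred lattice `T` is drawn in the square lattice `ℤ²`, scaled by 3: the site `(x, y)` at
`(3 x, 3 y)` and the centre `(x, y)` at `(3 x + 1, 3 y + 1)`. Every vertex of the fine lattice has a
label, a vertex of `T`, such that every edge `u v` of `T` is drawn as a path of vertices with the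
labels `u` and `v`. An open horizontal and a closed vertical crossing give two paths in the fine
lattice which cross (`Pool.Agent.H89.Perc.cross`), in a vertex whose label is both open and closed.
-/

set_option autoImplicit false

namespace Pool.Agent.H83.Site

open Pool.Agent.H89.Perc

/-- The label of a vertex of the fine lattice. -/
def lab (p : Vert) : TV :=
  if p.2 % 3 = 0 then ((p.1 + 1) / 3, p.2 / 3, false)
  else if p.1 % 3 = 0 then (p.1 / 3, (p.2 + 1) / 3, false)
  else (p.1 / 3, p.2 / 3, true)

lemma lab_row {m n x y : ℤ} (hn : n = 3 * y) (h1 : 3 * x - 1 ≤ m) (h2 : m ≤ 3 * x + 1) :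
    lab (m, n) = (x, y, false) := by
  unfold lab
  simp only
  rw [if_pos (by omega)]
  refine Prod.ext ?_ (Prod.ext ?_ rfl) <;> simp only <;> omega

lemma lab_col {m n x y : ℤ} (hm : m = 3 * x) (h1 : 3 * y - 1 ≤ n) (h2 : n ≤ 3 * y + 1) :
    lab (m, n) = (x, y, false) := by
  by_cases h : n = 3 * y
  · exact lab_row h (by omega) (by omega)
  · unfold lab
    simp only
    rw [if_neg (by omega), if_pos (by omega)]
    refine Prod.ext ?_ (Prod.ext ?_ rfl) <;> simp only <;> omega

lemma lab_cen {m n x y : ℤ} (h1 : 3 * x + 1 ≤ m) (h2 : m ≤ 3 * x + 2)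
    (h3 : 3 * y + 1 ≤ n) (h4 : n ≤ 3 * y + 2) : lab (m, n) = (x, y, true) := by
  unfold lab
  simp only
  rw [if_neg (by omega), if_neg (by omega)]
  refine Prod.ext ?_ (Prod.ext ?_ rfl) <;> simp only <;> omega

/-- The bonds of the fine lattice between vertices with open labels. -/
def fine (η : Config) : Config := fun e => η (lab (src e)) && η (lab (tgt e))

lemma fine_h {η : Config} {S : Set Vert} {m n m' : ℤ} (hm : m' = m + 1)
    (h1 : (m, n) ∈ S) (h2 : (m', n) ∈ S) (h3 : η (lab (m, n)) = true)
    (h4 : η (lab (m', n)) = true) : Conn (fine η) S (m, n) (m', n) := by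
  subst hm
  refine Step.conn ⟨h1, h2, (m, n, false), Or.inl ⟨?_, ?_⟩, ?_⟩
  · simp [src]
  · simp [tgt]
  · simp [fine, src, tgt, h3, h4]

lemma fine_v {η : Config} {S : Set Vert} {m n n' : ℤ} (hn : n' = n + 1)
    (h1 : (m, n) ∈ S) (h2 : (m, n') ∈ S) (h3 : η (lab (m, n)) = true)
    (h4 : η (lab (m, n')) = true) : Conn (fine η) S (m, n) (m, n') := by
  subst hn
  refine Step.conn ⟨h1, h2, (m, n, true), Or.inl ⟨?_, ?_⟩, ?_⟩
  · simp [src]
  · simp [tgt]
  · simp [fine, src, tgt, h3, h4]

/-- Labels along fine paths are open. -/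
lemma fine_open {η : Config} {S : Set Vert} {p q : Vert} (h : Conn (fine η) S p q)
    (hp : η (lab p) = true) : η (lab q) = true := by
  refine h.induction_right (P := fun q => η (lab q) = true) hp ?_
  rintro a b _ ⟨_, _, e, he, ho⟩ _
  simp only [fine, Bool.and_eq_true] at ho
  rcases he with ⟨h1, h2⟩ | ⟨h1, h2⟩
  · rw [h2]; exact ho.2
  · rw [h2]; exact ho.1

end Pool.Agent.H83.Site

end

section

/-! # Paths which cross a rectangle in different directions meet -/

set_option autoImplicit false

namespace Pool.Agent.H83.Site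

open Pool.Agent.H89.Perc

/-! ### Indicator of a cluster -/

open Classical in
/-- The indicator of the open cluster of `u` in `S`. -/
noncomputable def glueClu (η : Config) (S : Set TV) (u : TV) : Config :=
  fun v => if TConn η S u v then true else false

theorem glueClu_eq_true {η : Config} {S : Set TV} {u v : TV} :
    glueClu η S u v = true ↔ TConn η S u v := by
  unfold glueClu
  split <;> simp_all

theorem neg_glueClu_eq_true {η : Config} {S : Set TV} {u v : TV} :
    neg (glueClu η S u) v = true ↔ ¬ TConn η S u v := by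
  unfold neg
  rw [← glueClu_eq_true (η := η) (S := S) (u := u) (v := v)]
  simp

/-! ### The extension by one column -/

/-- `η` extended by the column `x = a - 1`, where exactly the sites with `y < t` are open. -/
def glueExt (η : Config) (a t : ℤ) : Config :=
  fun v => if 2 * a ≤ fx v then η v else if v.2.1 < t then true else false

theorem glueExt_site {η : Config} {a t y : ℤ} :
    glueExt η a t (a - 1, y, false) = if y < t then true else false := by
  unfold glueExt
  rw [if_neg (by rw [fx_site]; omega)]

/-! ### The mirror image -/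

end Pool.Agent.H83.Site

end

section

/-! # Circuits in annuli -/

set_option autoImplicit false

open MeasureTheory ProbabilityTheory unitInterval

namespace Pool.Agent.H83.Site

open Pool.Agent.H89.Perc

end Pool.Agent.H83.Site

end

section

/-! # Duality: an open horizontal or a closed vertical crossing exists -/

set_option autoImplicit false

namespace Pool.Agent.H83.Site

open Pool.Agent.H89.Perc

/-- The configuration extended by an open column on the left and closed rows at the bottom and at
the top. -/
def dualEExt (η : Config) (a b c d : ℤ) : Config := fun v =>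
  if 2 * a ≤ fx v ∧ fx v ≤ 2 * b ∧ 2 * c ≤ fy v ∧ fy v ≤ 2 * d then η v
  else decide (fx v < 2 * a ∧ 2 * c ≤ fy v ∧ fy v ≤ 2 * d)

open Classical in
noncomputable def dualEInd (A : Set TV) (v : TV) : ZMod 2 := if v ∈ A then 1 else 0

noncomputable def dualEK (A B : Set TV) (u v : TV) : ZMod 2 :=
  dualEInd A u * dualEInd B v + dualEInd B u * dualEInd A v

lemma dualE_tri {A B R : Set TV} (hAB : ∀ v, v ∈ A → v ∉ B)
    (hcl : ∀ u v w, w ∈ R → TAdj u w → TAdj v w → u ∈ A → v ∈ B → w ∈ A ∨ w ∈ B)
    {u v w : TV} (hu : u ∈ R) (hv : v ∈ R) (hw : w ∈ R) (huv : TAdj u v) (hvw : TAdj v w)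
    (huw : TAdj u w) : dualEK A B u v + dualEK A B v w + dualEK A B u w = 0 := by
  have h1 := hcl u v w hw huw hvw
  have h2 := hcl v u w hw hvw huw
  have h3 := hcl u w v hv huv hvw.symm
  have h4 := hcl w u v hv hvw.symm huv
  have h5 := hcl v w u hu huv.symm huw.symm
  have h6 := hcl w v u hu huw.symm huv.symm
  have h7 := hAB u
  have h8 := hAB v
  have h9 := hAB w
  have two : (1 : ZMod 2) + 1 = 0 := by decide
  unfold dualEK dualEInd
  by_cases a1 : u ∈ A <;> by_cases a2 : v ∈ A <;> by_cases a3 : w ∈ A <;>
    by_cases b1 : u ∈ B <;> by_cases b2 : v ∈ B <;> by_cases b3 : w ∈ B <;>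
    simp only [a1, a2, a3, b1, b2, b3, not_true_eq_false, not_false_eq_true, if_true, if_false,
      forall_true_left, or_false, or_true, mul_one, mul_zero, add_zero, zero_add, two] at *

end Pool.Agent.H83.Site

end

section

/-! # The lowest crossing of a rectangle -/

set_option autoImplicit false

namespace Pool.Agent.H83.Site

open Pool.Agent.H89.Perc

variable {η : Config} {l c d e y y' : ℤ}

/-! ### Auxiliary facts -/

theorem low_site_fy {v : TV} {a : ℤ} (h : fy v = 2 * a) : v = (v.1, a, false) := by
  obtain ⟨h1, h2⟩ := site_of_fy h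
  ext <;> simp [h1, h2]

theorem low_site_fx {v : TV} {a : ℤ} (h : fx v = 2 * a) : v = (a, v.2.1, false) := by
  obtain ⟨h1, h2⟩ := site_of_fx h
  ext <;> simp [h1, h2]

theorem low_neg_eq_true {η : Config} {v : TV} : neg η v = true ↔ η v = false := by
  simp [neg]

/-- Indicator configuration. -/
noncomputable def lowInd (A : Set TV) : Config := fun v => by
  classical exact decide (v ∈ A)

theorem lowInd_true {A : Set TV} {v : TV} : lowInd A v = true ↔ v ∈ A := by
  unfold lowInd
  simp

theorem low_neg_ind {A : Set TV} {v : TV} : neg (lowInd A) v = true ↔ v ∉ A := by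
  rw [low_neg_eq_true, ← lowInd_true (A := A), Bool.not_eq_true]

/-- Folding of the double rectangle. -/
def lowPhi (l : ℤ) (v : TV) : TV := if fx v ≤ 2 * l then v else rfx (2 * l) v

theorem lowPhi_of_le {v : TV} (h : fx v ≤ 2 * l) : lowPhi l v = v := by
  rw [lowPhi, if_pos h]

theorem lowPhi_fy (v : TV) : fy (lowPhi l v) = fy v := by
  unfold lowPhi
  split
  · rfl
  · exact fy_rfx _ _

end Pool.Agent.H83.Site

end

section

/-! # Conditioning on the lowest crossing -/

set_option autoImplicit false

open MeasureTheory ProbabilityTheory unitInterval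

namespace Pool.Agent.H83.Site

open Pool.Agent.H89.Perc

/-! ### Auxiliary facts -/

end Pool.Agent.H83.Site

end

section

/-! # Renormalisation of crossing probabilities -/

set_option autoImplicit false

open MeasureTheory ProbabilityTheory unitInterval

namespace Pool.Agent.H83.Site

open Pool.Agent.H89.Perc

end Pool.Agent.H83.Site

end

section

/-! # Lower bound for arm probabilities by the van den Berg-Kesten inequality -/

set_option autoImplicit false

open MeasureTheory ProbabilityTheory unitInterval

namespace Pool.Agent.H83.Site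

open Pool.Agent.H89.Perc

/-! ### Disjoint occurrence -/

/-- Disjoint occurrence of two events. -/
def ablower_two (r : Bool) (A B : Set Config) : Set Config :=
  {ω | ∃ ω₁ ω₂ : Config, (∀ e, ω₁ e = true → ω e = true) ∧ (∀ e, ω₂ e = true → ω e = true) ∧
    (∀ e, ω₁ e = true → ω₂ e = false) ∧ full r ω₁ ∈ A ∧ full r ω₂ ∈ B}

/-- Restriction of a configuration to a finite set. -/
def ablower_res (F : Finset Edge) (ω : Config) : Config := fun e => ω e && decide (e ∈ F)

theorem ablower_res_true {F : Finset Edge} {ω : Config} {e : Edge} :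
    ablower_res F ω e = true ↔ ω e = true ∧ e ∈ F := by
  simp [ablower_res]

theorem ablower_res_mem {r : Bool} {F : Finset Edge} {A : Set Config} (hA : LocalOn F A)
    {ω : Config} (h : full r ω ∈ A) : full r (ablower_res F ω) ∈ A := by
  refine hA _ _ (fun e he => ?_) h
  simp only [full, ablower_res, he, decide_true, Bool.and_true]

theorem ablower_localOn_two {r : Bool} {F : Finset Edge} {A B : Set Config} (hA : LocalOn F A)
    (hB : LocalOn F B) : LocalOn F (ablower_two r A B) := by
  rintro ω ω' h ⟨ω₁, ω₂, h1, h2, h3, h4, h5⟩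
  refine ⟨ablower_res F ω₁, ablower_res F ω₂, ?_, ?_, ?_, ablower_res_mem hA h4,
    ablower_res_mem hB h5⟩
  · intro e he
    rw [ablower_res_true] at he
    rw [← h e he.2]
    exact h1 e he.1
  · intro e he
    rw [ablower_res_true] at he
    rw [← h e he.2]
    exact h2 e he.1
  · intro e he
    rw [ablower_res_true] at he
    rw [ablower_res, h3 e he.1, Bool.false_and]

/-! ### Splitting of a self-avoiding path -/

/-- The graph of the steps between open vertices of `S`. -/
def ablower_graph (η : Config) (S : Set TV) : SimpleGraph TV :=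
  SimpleGraph.fromRel (TStep η S)

/-! ### The configuration of the sites of a set -/

open Classical in
/-- The configuration in which exactly the sites of `S` are open. -/
noncomputable def ablower_cfg (S : Set TV) : Config := fun e => !e.2.2 && decide (e ∈ S)

theorem ablower_cfg_true {S : Set TV} {e : TV} :
    ablower_cfg S e = true ↔ e.2.2 = false ∧ e ∈ S := by
  simp [ablower_cfg]

theorem ablower_le {r : Bool} {ω : Config} {S : Set TV} (h : ∀ x ∈ S, full r ω x = true) :
    ∀ e, ablower_cfg S e = true → ω e = true := by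
  intro e he
  rw [ablower_cfg_true] at he
  have := h e he.2
  simp only [full] at this
  rw [if_neg (by rw [he.1]; decide)] at this
  exact this

end Pool.Agent.H83.Site

end

section

/-!
# Transfer to site percolation on `ℤ × ℤ`
-/

set_option autoImplicit false

open MeasureTheory ProbabilityTheory unitInterval

namespace Pool.Agent.H83.Site

open Pool.Agent.H89.Perc

variable {r : Bool} {ω : ℤ × ℤ → Bool}

section graph

variable {G : SimpleGraph (ℤ × ℤ)}

end graph

end Pool.Agent.H83.Site

end

section

/-!
# Site percolation through the induced bond configuration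

Site configurations are stored at the edges `(x, y, false)` of the lattice. `sit ω` is the induced
bond configuration: an edge is open if both endpoints are open sites. `Pr p A` is the probability
that the induced configuration is in `A`, when the sites are open with probability `p`.
-/

set_option autoImplicit false

open MeasureTheory ProbabilityTheory unitInterval

namespace Pool.Agent.H83.SK

open Pool.Agent.H89.Perc

/-- The coordinate of a site. -/
def sv (v : Vert) : Edge := (v.1, v.2, false)

/-- The induced bond configuration. -/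
def sit (ω : Config) : Config := fun e => ω (sv (src e)) && ω (sv (tgt e))

/-- Probability for site percolation. -/
noncomputable def Pr (p : I) (A : Set Config) : ℝ := Pool.Agent.H89.Perc.Pr p {ω | sit ω ∈ A}

/-- The sites of a set of edges. -/
noncomputable def hull (s : Finset Edge) : Finset Edge := by
  classical exact s.image (fun e => sv (src e)) ∪ s.image (fun e => sv (tgt e))

variable {s t : Finset Edge} {A B : Set Config} {p q : I}

theorem sit_true {ω : Config} {e : Edge} :
    sit ω e = true ↔ ω (sv (src e)) = true ∧ ω (sv (tgt e)) = true := by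
  simp [sit]

theorem mem_hull {s : Finset Edge} {g : Edge} :
    g ∈ hull s ↔ ∃ e ∈ s, g = sv (src e) ∨ g = sv (tgt e) := by
  classical
  unfold hull
  simp only [Finset.mem_union, Finset.mem_image]
  constructor
  · rintro (⟨e, he, rfl⟩ | ⟨e, he, rfl⟩)
    · exact ⟨e, he, Or.inl rfl⟩
    · exact ⟨e, he, Or.inr rfl⟩
  · rintro ⟨e, he, rfl | rfl⟩
    · exact Or.inl ⟨e, he, rfl⟩
    · exact Or.inr ⟨e, he, rfl⟩

theorem hull_mono {s t : Finset Edge} (h : s ⊆ t) : hull s ⊆ hull t := by
  intro g hg
  rw [mem_hull] at hg ⊢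
  obtain ⟨e, he, h'⟩ := hg
  exact ⟨e, h he, h'⟩

theorem sv_injective : Function.Injective sv := by
  rintro ⟨a, b⟩ ⟨c, d⟩ h
  simpa [sv] using h

theorem disj_hull {s t : Finset Edge}
    (h : ∀ e ∈ s, ∀ f ∈ t, src e ≠ src f ∧ src e ≠ tgt f ∧ tgt e ≠ src f ∧ tgt e ≠ tgt f) :
    Disjoint (hull s) (hull t) := by
  rw [Finset.disjoint_left]
  intro g h1 h2
  rw [mem_hull] at h1 h2
  obtain ⟨e, he, h1⟩ := h1
  obtain ⟨f, hf, h2⟩ := h2
  obtain ⟨k1, k2, k3, k4⟩ := h e he f hf
  rcases h1 with rfl | rfl <;> rcases h2 with h2 | h2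
  · exact k1 (sv_injective h2)
  · exact k2 (sv_injective h2)
  · exact k3 (sv_injective h2)
  · exact k4 (sv_injective h2)

/-- Disjointness through a separating set of vertices. -/
theorem disj_hull_of {s t : Finset Edge} {S : Set Vert} (h1 : ∀ e ∈ s, src e ∈ S ∧ tgt e ∈ S)
    (h2 : ∀ e ∈ t, src e ∉ S ∧ tgt e ∉ S) : Disjoint (hull s) (hull t) := by
  refine disj_hull fun e he f hf => ?_
  obtain ⟨a1, a2⟩ := h1 e he
  obtain ⟨b1, b2⟩ := h2 f hf
  exact ⟨fun h => b1 (h ▸ a1), fun h => b2 (h ▸ a1), fun h => b1 (h ▸ a2), fun h => b2 (h ▸ a2)⟩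

theorem localOn_sit (h : LocalOn s A) : LocalOn (hull s) {ω | sit ω ∈ A} := by
  intro ω ω' hω hA
  refine h _ _ (fun e he => ?_) hA
  have h1 : sv (src e) ∈ hull s := mem_hull.2 ⟨e, he, Or.inl rfl⟩
  have h2 : sv (tgt e) ∈ hull s := mem_hull.2 ⟨e, he, Or.inr rfl⟩
  simp only [sit]
  rw [hω _ h1, hω _ h2]

theorem sit_mono {ω ω' : Config} (h : ∀ e, ω e = true → ω' e = true) :
    ∀ e, sit ω e = true → sit ω' e = true := by
  intro e he
  rw [sit_true] at he ⊢
  exact ⟨h _ he.1, h _ he.2⟩

theorem incr_sit (h : Incr A) : Incr {ω | sit ω ∈ A} :=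
  fun _ _ hω hA => h _ _ (sit_mono hω) hA

theorem incr_sit_compl (h : Incr Aᶜ) : Incr {ω | sit ω ∈ A}ᶜ :=
  fun _ _ hω hA => h _ _ (sit_mono hω) hA

/-! ### Symmetries -/

/-! ### One-arm events -/

/-! ### The box-crossing regime -/

end Pool.Agent.H83.SK

end

section

/-!
# Near-critical site percolation: definitions and interfaces

Four-arm events are sets of bond configurations (used for `sit w`), torus events are sets of site
configurations. `a4 q r` is the probability that the origin has two neighbours which are joined to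
distance `r` by open paths avoiding the origin and which are not joined to each other by such a
path.
-/

set_option autoImplicit false

open MeasureTheory ProbabilityTheory unitInterval

namespace Pool.Agent.H92.SN

open Pool.Agent.H89.Perc
open Pool.Agent.H83.SK (sv sit)

/-- Close the edges at the vertex `v`. -/
def closeV (v : Vert) (ω : Config) : Config := fun e => ω e && decide (src e ≠ v ∧ tgt e ≠ v)

/-- `a` is a neighbour of `v`. -/
def Nb (v a : Vert) : Prop := ∃ e, Joins e v a

/-! ### Interfaces -/

/-! ### The connection of the neighbours of a site -/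

end Pool.Agent.H92.SN

end

section

/-!
# Site percolation, RSW regime: crossings of all rectangles of bounded aspect ratio, both colours
-/

open MeasureTheory ProbabilityTheory unitInterval

namespace Pool.Agent.H83.SK

open Pool.Agent.H89.Perc

end Pool.Agent.H83.SK

end

section

/-!
# RSW regime: probability of open circuits
-/

open MeasureTheory ProbabilityTheory unitInterval

namespace Pool.Agent.H83.SK

open Pool.Agent.H89.Perc

end Pool.Agent.H83.SK

end

section

/-!
# Level-one inequality for block explorations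
-/

set_option autoImplicit false

open MeasureTheory ProbabilityTheory unitInterval

namespace Pool.Agent.H13.SK

open Pool.Agent.H89.Perc
open Pool.Agent.Perc (Ex ind ind_of ind_of_not)

end Pool.Agent.H13.SK

end

section

/-!
# Level-one inequality for block explorations: events
-/

set_option autoImplicit false

open MeasureTheory ProbabilityTheory unitInterval

namespace Pool.Agent.H13.SK

open Pool.Agent.H89.Perc
open Pool.Agent.Perc (Ex ind ind_of ind_of_not)

end Pool.Agent.H13.SK

end

section

/-!
# Site percolation on the torus: definitions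

The sites of the torus of side `N` are the sites of the plane modulo `N`.  `sitT N ω` is the induced
periodic bond configuration.
-/

open MeasureTheory ProbabilityTheory unitInterval

namespace Pool.Agent.H83.SK

open Pool.Agent.H89.Perc

end Pool.Agent.H83.SK

end

section

/-!
# Site percolation: interfaces of the separation part

Everything is for densities `q` with `RSWreg c n q`; constants depend only on `c`.
-/

open MeasureTheory ProbabilityTheory unitInterval

namespace Pool.Agent.H83.SK

open Pool.Agent.H89.Perc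

/-- The four edges at the origin. -/
def star0 : Finset Edge :=
  {((0, 0, false) : Edge), ((0, 0, true) : Edge), ((-1, 0, false) : Edge), ((0, -1, true) : Edge)}

end Pool.Agent.H83.SK

end

section

/-!
# Site percolation: exploration of clusters

`clus (sit w) D X` is the union of the clusters in `D` of the vertices of `X`; `Ucl w D X` is the
set of the sites which are needed to determine it. The sites off `Ucl w D X` are fresh.
-/

open MeasureTheory ProbabilityTheory unitInterval

namespace Pool.Agent.H83.SK

open Pool.Agent.H89.Perc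

variable {ω ω' : Config} {D X S U : Set Vert} {R : ℕ} {q : I}

/-- Neighbours. -/
def Adj (a b : Vert) : Prop := ∃ e : Edge, Joins e a b

/-- Steps in the induced configuration. -/
lemma step_sit {w : Config} {a b : Vert} : Step (sit w) D a b ↔
    a ∈ D ∧ b ∈ D ∧ Adj a b ∧ w (sv a) = true ∧ w (sv b) = true := by
  constructor
  · rintro ⟨h1, h2, e, h3, h4⟩
    rw [sit_true] at h4
    refine ⟨h1, h2, ⟨e, h3⟩, ?_⟩
    rcases h3 with ⟨rfl, rfl⟩ | ⟨rfl, rfl⟩
    · exact h4
    · exact ⟨h4.2, h4.1⟩
  · rintro ⟨h1, h2, ⟨e, h3⟩, h4, h5⟩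
    refine ⟨h1, h2, e, h3, ?_⟩
    rw [sit_true]
    rcases h3 with ⟨rfl, rfl⟩ | ⟨rfl, rfl⟩
    · exact ⟨h4, h5⟩
    · exact ⟨h5, h4⟩

lemma adj_ball {a b : Vert} (h : Adj a b) : b ∈ ball a 1 := by
  obtain ⟨⟨x, y, t⟩, ⟨h1, h2⟩ | ⟨h1, h2⟩⟩ := h <;>
    (subst h1; subst h2; cases t <;> simp only [mem_ball, src, tgt, if_true, if_false,
      Bool.false_eq_true, Nat.cast_one] <;> omega)

/-- A vertex with an open edge is an open site. -/
lemma conn_sit_open {w : Config} {u v : Vert} (h : Conn (sit w) D u v) (hne : u ≠ v) :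
    w (sv u) = true ∧ w (sv v) = true := by
  have h1 : ∀ a b : Vert, Conn (sit w) D a b → a ≠ b → w (sv b) = true := by
    intro a b hab
    refine hab.induction_right (P := fun x => a ≠ x → w (sv x) = true) (fun h => (h rfl).elim) ?_
    intro x y _ hxy _ _
    exact (step_sit.1 hxy).2.2.2.2
  exact ⟨h1 v u h.symm hne.symm, h1 u v h hne⟩

end Pool.Agent.H83.SK

end

section

/-!
# Conditional FKG and conditional independence after an exploration
-/

open MeasureTheory ProbabilityTheory unitInterval

namespace Pool.Agent.H83.SK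

open Pool.Agent.H89.Perc

variable {p : I}

end Pool.Agent.H83.SK

end
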