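import Pool.Agent.H94.BG.H31.PT.M02
import Pool.Agent.H94.BG.H31.PT.M03
import Pool.Agent.H94.BG.H31.PT.M07

/-! The parts of this file: H83.Site.Defs, H83.Site.TProb, H83.Site.DualN, H83.Site.Glue, H83.Site.Circ, H83.Site.DualE, H83.Site.Low, H83.Site.Expl, H83.Site.Renorm, H83.Site.ABLower, H83.Site.Transfer, H83.SK.Base, H92.SN.Defs, H83.SK.P29.Rect, H83.SK.P29.CircProb, H13.SK.BlockL1, H13.SK.BlockEv, H83.SK.Tor, H83.SK.Iface, H83.SK.PHP.Expl, H83.SK.P29.ExplB. -/

section

/-!
# Site percolation on the centred square lattice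

The vertices of the centred lattice `T` are the sites `(x, y, false)` of `ℤ²` and the centres
`(x, y, true)` of the unit squares `[x, x + 1] × [y, y + 1]`. Sites are adjacent to their four
nearest neighbours and every centre is adjacent to the four corners of its square. This is a
triangulation of the plane. A configuration is a function `Edge → Bool` (`Edge = ℤ × ℤ × Bool`
is used here as the set of vertices of `T`); `full r ω` is the configuration in which all centres
have the state `r`. Open paths of `full false ω` are nearest neighbour paths of open sites, open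
paths of `full true ω` are paths of open sites with diagonal steps.
-/

set_option autoImplicit false

open MeasureTheory ProbabilityTheory unitInterval

namespace Pool.Agent.H83.Site

open Pool.Agent.H89.Perc

/-- The vertices of `T` in the rectangle `[a, b] × [c, d]`. -/
def TR (a b c d : ℤ) : Set TV := {v | 2 * a ≤ fx v ∧ fx v ≤ 2 * b ∧ 2 * c ≤ fy v ∧ fy v ≤ 2 * d}

/-- Open horizontal crossing of `[a, b] × [c, d]`. -/
def HC (η : Config) (a b c d : ℤ) : Prop :=
  ∃ y y' : ℤ, TConn η (TR a b c d) (a, y, false) (b, y', false)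

/-- Open vertical crossing of `[a, b] × [c, d]`. -/
def VC (η : Config) (a b c d : ℤ) : Prop :=
  ∃ x x' : ℤ, TConn η (TR a b c d) (x, c, false) (x', d, false)

/-- The sites of the boundary of the square with centre `(x, y)` and half side `n`. -/
def sph (x y : ℤ) (n : ℕ) : Set TV :=
  {v | v ∈ TR (x - n) (x + n) (y - n) (y + n) ∧ v.2.2 = false ∧
    (v.1 = x - n ∨ v.1 = x + n ∨ v.2.1 = y - n ∨ v.2.1 = y + n)}

/-- The square with centre `(x, y)` and half side `s` is joined to the boundary of the square with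
half side `n`, inside the latter. -/
def AB (x y : ℤ) (s n : ℕ) : Set Config :=
  {η | ∃ u ∈ TR (x - s) (x + s) (y - s) (y + s), ∃ w ∈ sph x y n,
    TConn η (TR (x - n) (x + n) (y - n) (y + n)) u w}

/-- The probability that the square with half side `s` is joined to distance `n`. -/
noncomputable def ab (p : I) (r : Bool) (s n : ℕ) : ℝ := PT p r (AB 0 0 s n)

/-- The probability that the origin is joined to all distances. -/
noncomputable def thT (p : I) (r : Bool) : ℝ := PT p r {η | ∀ n, η ∈ AB 0 0 0 n}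

/-! ### Geometry -/

theorem mem_TR {a b c d : ℤ} {v : TV} :
    v ∈ TR a b c d ↔ 2 * a ≤ fx v ∧ fx v ≤ 2 * b ∧ 2 * c ≤ fy v ∧ fy v ≤ 2 * d := Iff.rfl

theorem mem_TR_site {a b c d x y : ℤ} :
    (x, y, false) ∈ TR a b c d ↔ a ≤ x ∧ x ≤ b ∧ c ≤ y ∧ y ≤ d := by
  simp only [mem_TR, fx_site, fy_site]
  omega

theorem mem_TR_cen {a b c d x y : ℤ} :
    (x, y, true) ∈ TR a b c d ↔ a ≤ x ∧ x + 1 ≤ b ∧ c ≤ y ∧ y + 1 ≤ d := by
  simp only [mem_TR, fx_cen, fy_cen]
  omega

theorem TR_mono {a b c d a' b' c' d' : ℤ} (h1 : a' ≤ a) (h2 : b ≤ b') (h3 : c' ≤ c)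
    (h4 : d ≤ d') : TR a b c d ⊆ TR a' b' c' d' := by
  intro v hv
  rw [mem_TR] at hv ⊢
  omega

/-! ### Paths -/

variable {η η' : Config} {S T : Set TV} {u v w : TV}

theorem TStep.symm (h : TStep η S u v) : TStep η S v u :=
  ⟨h.2.1, h.1, h.2.2.1.symm, h.2.2.2.2, h.2.2.2.1⟩

theorem TStep.mono (hST : S ⊆ T) (hη : ∀ x ∈ S, η x = true → η' x = true) (h : TStep η S u v) :
    TStep η' T u v :=
  ⟨hST h.1, hST h.2.1, h.2.2.1, hη _ h.1 h.2.2.2.1, hη _ h.2.1 h.2.2.2.2⟩

theorem TConn.refl (h : u ∈ S) (ho : η u = true) : TConn η S u u :=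
  ⟨h, ho, Relation.ReflTransGen.refl⟩

theorem TConn.mem_left (h : TConn η S u v) : u ∈ S := h.1

theorem TConn.open_left (h : TConn η S u v) : η u = true := h.2.1

theorem TStep.conn (h : TStep η S u v) : TConn η S u v :=
  ⟨h.1, h.2.2.2.1, Relation.ReflTransGen.single h⟩

theorem TConn.mem_right (h : TConn η S u v) : v ∈ S := by
  obtain ⟨h1, _, h2⟩ := h
  rcases Relation.ReflTransGen.cases_tail h2 with h3 | ⟨c, _, h3⟩
  · rw [h3]; exact h1
  · exact h3.2.1

theorem TConn.open_right (h : TConn η S u v) : η v = true := by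
  obtain ⟨_, h1, h2⟩ := h
  rcases Relation.ReflTransGen.cases_tail h2 with h3 | ⟨c, _, h3⟩
  · rw [h3]; exact h1
  · exact h3.2.2.2.2

theorem TConn.trans (h1 : TConn η S u v) (h2 : TConn η S v w) : TConn η S u w :=
  ⟨h1.1, h1.2.1, h1.2.2.trans h2.2.2⟩

theorem TConn.tail (h1 : TConn η S u v) (h2 : TStep η S v w) : TConn η S u w := h1.trans h2.conn

theorem TConn.symm (h : TConn η S u v) : TConn η S v u := by
  refine ⟨h.mem_right, h.open_right, ?_⟩
  obtain ⟨_, _, h2⟩ := h
  induction h2 with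
  | refl => exact Relation.ReflTransGen.refl
  | tail _ hbc ih => exact Relation.ReflTransGen.head hbc.symm ih

theorem TConn.mono (hST : S ⊆ T) (hη : ∀ x ∈ S, η x = true → η' x = true) (h : TConn η S u v) :
    TConn η' T u v :=
  ⟨hST h.1, hη _ h.1 h.2.1, Relation.ReflTransGen.mono (fun _ _ hab => hab.mono hST hη) _ _ h.2.2⟩

theorem TConn.mono_set (hST : S ⊆ T) (h : TConn η S u v) : TConn η T u v :=
  h.mono hST fun _ _ => id

/-- `TConn η S` only depends on the vertices of `S`. -/
theorem TConn.congr (h : ∀ x ∈ S, η x = η' x) (hc : TConn η S u v) : TConn η' S u v :=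
  hc.mono le_rfl fun x hx ho => by rw [← h x hx]; exact ho

/-- Induction along a path. -/
theorem TConn.induction_right {P : TV → Prop} (h : TConn η S u v) (h0 : P u)
    (hs : ∀ a b, TConn η S u a → TStep η S a b → P a → P b) : P v := by
  obtain ⟨h1, h2, h3⟩ := h
  induction h3 with
  | refl => exact h0
  | @tail b c hab hbc ih => exact hs b c ⟨h1, h2, hab⟩ hbc ih

/-- First exit from `T`. -/
theorem TConn.exists_exit (h : TConn η S u v) (hu : u ∈ T) (hv : v ∉ T) :
    ∃ w w', TConn η (S ∩ T) u w ∧ TStep η S w w' ∧ w' ∉ T ∧ TConn η S w' v := by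
  obtain ⟨h1, h0, h2⟩ := h
  induction h2 using Relation.ReflTransGen.head_induction_on with
  | refl => exact absurd hu hv
  | @head a c hac hcv ih =>
    by_cases hc : c ∈ T
    · obtain ⟨w, w', h3, h4, h5, h6⟩ := ih hc hac.2.1 hac.2.2.2.2
      refine ⟨w, w', ?_, h4, h5, h6⟩
      have : TStep η (S ∩ T) a c := ⟨⟨hac.1, hu⟩, ⟨hac.2.1, hc⟩, hac.2.2⟩
      exact this.conn.trans h3
    · exact ⟨a, c, TConn.refl ⟨h1, hu⟩ h0, hac, hc, ⟨hac.2.1, hac.2.2.2.2, hcv⟩⟩

/-- Last visit of `T`. -/
theorem TConn.exists_last (h : TConn η S u v) (hu : u ∈ T) (hv : v ∉ T) :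
    ∃ w w', w ∈ T ∧ TConn η S u w ∧ TStep η S w w' ∧ TConn η (S \ T) w' v := by
  obtain ⟨w, w', h1, h2, h3, h4⟩ :=
    h.symm.exists_exit (T := Tᶜ) (by simpa using hv) (by simpa using hu)
  refine ⟨w', w, by simpa using h3, h4.symm, h2.symm, ?_⟩
  have := h1.symm
  rwa [← Set.sdiff_eq] at this

/-- First hitting of `T`, when the path does not start in `T`. -/
theorem TConn.exists_hit (h : TConn η S u v) (hu : u ∉ T) (hv : v ∈ T) :
    ∃ w w', TConn η (S \ T) u w ∧ TStep η S w w' ∧ w' ∈ T ∧ TConn η S w' v := by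
  obtain ⟨w, w', h1, h2, h3, h4⟩ :=
    h.exists_exit (T := Tᶜ) (by simpa using hu) (by simpa using hv)
  exact ⟨w, w', by rwa [Set.sdiff_eq], h2, by simpa using h3, h4⟩

/-- Image of a path under a map of vertices. -/
theorem TConn.map (f : TV → TV) (hf : ∀ x ∈ S, f x ∈ T)
    (ho : ∀ x ∈ S, η x = true → η' (f x) = true)
    (hstep : ∀ a b, a ∈ S → b ∈ S → TAdj a b → TAdj (f a) (f b) ∨ f a = f b)
    (h : TConn η S u v) : TConn η' T (f u) (f v) := by
  refine h.induction_right (P := fun v => TConn η' T (f u) (f v))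
    (TConn.refl (hf _ h.mem_left) (ho _ h.mem_left h.open_left)) ?_
  intro a b _ hab ih
  rcases hstep a b hab.1 hab.2.1 hab.2.2.1 with h1 | h1
  · exact ih.tail ⟨hf _ hab.1, hf _ hab.2.1, h1, ho _ hab.1 hab.2.2.2.1,
      ho _ hab.2.1 hab.2.2.2.2⟩
  · rw [← h1]; exact ih

/-- Extraction of a horizontal crossing of the strip `a ≤ x ≤ b`. -/
theorem TConn.cross_x {a b : ℤ} (h : TConn η S u v) (hu : fx u ≤ 2 * a) (hv : 2 * b ≤ fx v)
    (hab : a ≤ b) : ∃ y y' : ℤ,
      TConn η (S ∩ {w | 2 * a ≤ fx w ∧ fx w ≤ 2 * b}) (a, y, false) (b, y', false) ∧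
      TConn η S u (a, y, false) ∧ TConn η S (b, y', false) v := by
  have h1 : ∃ v' : TV, fx v' = 2 * b ∧ TConn η (S ∩ {w | fx w ≤ 2 * b}) u v' ∧
      TConn η S v' v := by
    by_cases hub : fx u = 2 * b
    · exact ⟨u, hub, TConn.refl ⟨h.mem_left, by simp [hub]⟩ h.open_left, h⟩
    have hub' : fx u < 2 * b := lt_of_le_of_ne (hu.trans (by omega)) hub
    obtain ⟨w, w', h1, h2, h3, h4⟩ := h.exists_hit (T := {w | 2 * b ≤ fx w}) (by simpa using hub')
      (by simpa using hv)
    have h5 := h1.mem_right.2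
    simp only [Set.mem_ofPred_eq, not_le] at h3 h5
    have h6 := h2.2.2.1.fx_le h5
    have h7 : fx w' = 2 * b := le_antisymm h6 h3
    refine ⟨w', h7, ?_, h4⟩
    have h8 : TConn η (S ∩ {w | fx w ≤ 2 * b}) u w :=
      h1.mono_set fun x hx => ⟨hx.1, by
        have := hx.2; simp only [Set.mem_ofPred_eq, not_le] at this ⊢; omega⟩
    exact h8.tail ⟨h8.mem_right, ⟨h2.2.1, by simp [h7]⟩, h2.2.2⟩
  obtain ⟨v', hv', hc, hv'v⟩ := h1
  have hvs : v' = (b, v'.2.1, false) := by
    obtain ⟨h1, h2⟩ := site_of_fx hv'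
    ext <;> simp [h1, h2]
  by_cases hab' : a = b
  · subst hab'
    refine ⟨v'.2.1, v'.2.1, ?_, ?_, ?_⟩
    · rw [← hvs]; exact TConn.refl ⟨hc.mem_right.1, by simp [hv']⟩ hc.open_right
    · rw [← hvs]; exact hc.mono_set (fun x hx => hx.1)
    · rw [← hvs]; exact hv'v
  have hlt : a < b := lt_of_le_of_ne hab hab'
  obtain ⟨w, w', h1, h2, h3, h4⟩ := hc.exists_last (T := {w | fx w ≤ 2 * a}) (by simpa using hu)
    (by simp [hv']; omega)
  have h5 := h4.mem_left.2
  simp only [Set.mem_ofPred_eq, not_le] at h1 h5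
  have h6 := h3.2.2.1.symm.le_fx h5
  have h7 : fx w = 2 * a := le_antisymm h1 h6
  have hws : w = (a, w.2.1, false) := by
    obtain ⟨h1, h2⟩ := site_of_fx h7
    ext <;> simp [h1, h2]
  refine ⟨w.2.1, v'.2.1, ?_, ?_, ?_⟩
  · rw [← hws, ← hvs]
    have h8 : TConn η (S ∩ {w | 2 * a ≤ fx w ∧ fx w ≤ 2 * b}) w' v' :=
      h4.mono_set fun x hx => ⟨hx.1.1, by
        have := hx.2; have h9 := hx.1.2
        simp only [Set.mem_ofPred_eq, not_le] at this h9 ⊢; omega⟩
    have h9 : TStep η (S ∩ {w | 2 * a ≤ fx w ∧ fx w ≤ 2 * b}) w w' :=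
      ⟨⟨h3.1.1, by simp only [Set.mem_ofPred_eq]; omega⟩, h8.mem_left, h3.2.2⟩
    exact h9.conn.trans h8
  · rw [← hws]; exact h2.mono_set (fun x hx => hx.1)
  · rw [← hvs]; exact hv'v

/-- Extraction of a vertical crossing of the strip `c ≤ y ≤ d`. -/
theorem TConn.cross_y {c d : ℤ} (h : TConn η S u v) (hu : fy u ≤ 2 * c) (hv : 2 * d ≤ fy v)
    (hcd : c ≤ d) : ∃ x x' : ℤ,
      TConn η (S ∩ {w | 2 * c ≤ fy w ∧ fy w ≤ 2 * d}) (x, c, false) (x', d, false) ∧
      TConn η S u (x, c, false) ∧ TConn η S (x', d, false) v := by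
  have h1 : ∃ v' : TV, fy v' = 2 * d ∧ TConn η (S ∩ {w | fy w ≤ 2 * d}) u v' ∧
      TConn η S v' v := by
    by_cases hub : fy u = 2 * d
    · exact ⟨u, hub, TConn.refl ⟨h.mem_left, by simp [hub]⟩ h.open_left, h⟩
    have hub' : fy u < 2 * d := lt_of_le_of_ne (hu.trans (by omega)) hub
    obtain ⟨w, w', h1, h2, h3, h4⟩ := h.exists_hit (T := {w | 2 * d ≤ fy w}) (by simpa using hub')
      (by simpa using hv)
    have h5 := h1.mem_right.2
    simp only [Set.mem_ofPred_eq, not_le] at h3 h5
    have h6 := h2.2.2.1.fy_le h5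
    have h7 : fy w' = 2 * d := le_antisymm h6 h3
    refine ⟨w', h7, ?_, h4⟩
    have h8 : TConn η (S ∩ {w | fy w ≤ 2 * d}) u w :=
      h1.mono_set fun x hx => ⟨hx.1, by
        have := hx.2; simp only [Set.mem_ofPred_eq, not_le] at this ⊢; omega⟩
    exact h8.tail ⟨h8.mem_right, ⟨h2.2.1, by simp [h7]⟩, h2.2.2⟩
  obtain ⟨v', hv', hc, hv'v⟩ := h1
  have hvs : v' = (v'.1, d, false) := by
    obtain ⟨h1, h2⟩ := site_of_fy hv'
    ext <;> simp [h1, h2]
  by_cases hab' : c = d
  · subst hab'
    refine ⟨v'.1, v'.1, ?_, ?_, ?_⟩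
    · rw [← hvs]; exact TConn.refl ⟨hc.mem_right.1, by simp [hv']⟩ hc.open_right
    · rw [← hvs]; exact hc.mono_set (fun x hx => hx.1)
    · rw [← hvs]; exact hv'v
  have hlt : c < d := lt_of_le_of_ne hcd hab'
  obtain ⟨w, w', h1, h2, h3, h4⟩ := hc.exists_last (T := {w | fy w ≤ 2 * c}) (by simpa using hu)
    (by simp [hv']; omega)
  have h5 := h4.mem_left.2
  simp only [Set.mem_ofPred_eq, not_le] at h1 h5
  have h6 := h3.2.2.1.symm.le_fy h5
  have h7 : fy w = 2 * c := le_antisymm h1 h6
  have hws : w = (w.1, c, false) := by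
    obtain ⟨h1, h2⟩ := site_of_fy h7
    ext <;> simp [h1, h2]
  refine ⟨w.1, v'.1, ?_, ?_, ?_⟩
  · rw [← hws, ← hvs]
    have h8 : TConn η (S ∩ {w | 2 * c ≤ fy w ∧ fy w ≤ 2 * d}) w' v' :=
      h4.mono_set fun x hx => ⟨hx.1.1, by
        have := hx.2; have h9 := hx.1.2
        simp only [Set.mem_ofPred_eq, not_le] at this h9 ⊢; omega⟩
    have h9 : TStep η (S ∩ {w | 2 * c ≤ fy w ∧ fy w ≤ 2 * d}) w w' :=
      ⟨⟨h3.1.1, by simp only [Set.mem_ofPred_eq]; omega⟩, h8.mem_left, h3.2.2⟩
    exact h9.conn.trans h8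
  · rw [← hws]; exact h2.mono_set (fun x hx => hx.1)
  · rw [← hvs]; exact hv'v

theorem TR_inter_x {a b c d a' b' : ℤ} (ha : a ≤ a') (hb : b' ≤ b) :
    TR a b c d ∩ {w | 2 * a' ≤ fx w ∧ fx w ≤ 2 * b'} = TR a' b' c d := by
  ext w
  simp only [Set.mem_inter_iff, mem_TR, Set.mem_ofPred_eq]
  omega

theorem TR_inter_y {a b c d c' d' : ℤ} (hc : c ≤ c') (hd : d' ≤ d) :
    TR a b c d ∩ {w | 2 * c' ≤ fy w ∧ fy w ≤ 2 * d'} = TR a b c' d' := by
  ext w
  simp only [Set.mem_inter_iff, mem_TR, Set.mem_ofPred_eq]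
  omega

/-- A horizontal crossing contains a horizontal crossing of a shorter and higher rectangle. -/
theorem HC.mono {η : Config} {a b c d a' b' c' d' : ℤ} (h : HC η a b c d) (ha : a ≤ a')
    (hab : a' ≤ b') (hb : b' ≤ b) (hc : c' ≤ c) (hd : d ≤ d') : HC η a' b' c' d' := by
  obtain ⟨y, y', h⟩ := h
  obtain ⟨z, z', h1, -, -⟩ := h.cross_x (a := a') (b := b') (by simp only [fx_site]; omega)
    (by simp only [fx_site]; omega) hab
  rw [TR_inter_x ha hb] at h1
  exact ⟨z, z', h1.mono_set (TR_mono le_rfl le_rfl hc hd)⟩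

theorem VC.mono {η : Config} {a b c d a' b' c' d' : ℤ} (h : VC η a b c d) (ha : a' ≤ a)
    (hb : b ≤ b') (hc : c ≤ c') (hcd : c' ≤ d') (hd : d' ≤ d) : VC η a' b' c' d' := by
  obtain ⟨x, x', h⟩ := h
  obtain ⟨z, z', h1, -, -⟩ := h.cross_y (c := c') (d := d') (by simp only [fy_site]; omega)
    (by simp only [fy_site]; omega) hcd
  rw [TR_inter_y hc hd] at h1
  exact ⟨z, z', h1.mono_set (TR_mono ha hb le_rfl le_rfl)⟩

theorem neg_neg' (η : Config) : neg (neg η) = η := by funext v; simp [neg]

end Pool.Agent.H83.Site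

end

section

/-!
# Probability of events of site percolation on the centred lattice
-/

set_option autoImplicit false

open MeasureTheory ProbabilityTheory unitInterval

namespace Pool.Agent.H83.Site

open Pool.Agent.H89.Perc

variable {p q : I} {r : Bool} {E F : Set Config} {s t : Finset Edge}

/-! ### Local and increasing events -/

theorem TR_subset_eRect {a b c d : ℤ} {v : TV} (h : v ∈ TR a b c d) : v ∈ eRect a b c d := by
  rw [mem_eRect]
  obtain ⟨x, y, t⟩ := v
  cases t
  · rw [mem_TR_site] at h; exact h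
  · rw [mem_TR_cen] at h
    exact ⟨h.1, by simp only [src]; omega, h.2.2.1, by simp only [src]; omega⟩

theorem localOn_tconn (a b c d : ℤ) (u v : TV) :
    LocalOn (eRect a b c d) {η | TConn η (TR a b c d) u v} := by
  intro η η' h hc
  exact hc.congr fun x hx => h x (TR_subset_eRect hx)

theorem incr_tconn (S : Set TV) (u v : TV) : Incr {η | TConn η S u v} :=
  fun _ _ h hc => hc.mono le_rfl fun x _ => h x

theorem localOn_HC (a b c d : ℤ) : LocalOn (eRect a b c d) {η | HC η a b c d} := by
  rintro η η' h ⟨y, y', hc⟩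
  exact ⟨y, y', localOn_tconn a b c d _ _ η η' h hc⟩

theorem localOn_VC (a b c d : ℤ) : LocalOn (eRect a b c d) {η | VC η a b c d} := by
  rintro η η' h ⟨y, y', hc⟩
  exact ⟨y, y', localOn_tconn a b c d _ _ η η' h hc⟩

theorem incr_HC (a b c d : ℤ) : Incr {η | HC η a b c d} := by
  rintro η η' h ⟨y, y', hc⟩
  exact ⟨y, y', hc.mono le_rfl fun x _ => h x⟩

theorem incr_VC (a b c d : ℤ) : Incr {η | VC η a b c d} := by
  rintro η η' h ⟨y, y', hc⟩
  exact ⟨y, y', hc.mono le_rfl fun x _ => h x⟩

theorem localOn_AB (x y : ℤ) (k n : ℕ) :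
    LocalOn (eRect (x - n) (x + n) (y - n) (y + n)) (AB x y k n) := by
  rintro η η' h ⟨u, hu, w, hw, hc⟩
  exact ⟨u, hu, w, hw, localOn_tconn _ _ _ _ _ _ η η' h hc⟩

theorem incr_AB (x y : ℤ) (k n : ℕ) : Incr (AB x y k n) := by
  rintro η η' h ⟨u, hu, w, hw, hc⟩
  exact ⟨u, hu, w, hw, hc.mono le_rfl fun x _ => h x⟩

theorem eRect_disjoint_x {a b c d a' b' c' d' : ℤ} (h : b < a' ∨ b' < a ∨ d < c' ∨ d' < c) :
    Disjoint (eRect a b c d) (eRect a' b' c' d') := by
  rw [Finset.disjoint_left]
  intro v h1 h2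
  rw [mem_eRect] at h1 h2
  simp only [rect, Set.mem_ofPred_eq] at h1 h2
  omega

/-! ### Elementary properties of `PT` -/

theorem PT_le_one : PT p r E ≤ 1 := Pr_le_one

theorem PT_mono (h : E ⊆ F) : PT p r E ≤ PT p r F := Pr_mono fun _ hω => h hω

theorem PT_union_le : PT p r (E ∪ F) ≤ PT p r E + PT p r F := by
  have := Pr_union_le (p := p) (A := {ω | full r ω ∈ E}) (B := {ω | full r ω ∈ F})
  exact this

theorem PT_biUnion_le {ι : Type*} (G : Finset ι) (A : ι → Set Config) :
    PT p r (⋃ i ∈ G, A i) ≤ ∑ i ∈ G, PT p r (A i) := by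
  have h := Pr_biUnion_le (p := p) G (fun i => {ω | full r ω ∈ A i})
  refine le_trans (Pr_mono ?_) h
  intro ω hω
  simpa using hω

/-! ### Symmetries -/

/-- Behaviour of connections under an automorphism `φ` of the lattice with inverse `ψ`. -/
theorem tconn_comp {φ ψ : TV → TV} (h1 : ∀ v, φ (ψ v) = v) (h2 : ∀ v, ψ (φ v) = v)
    (hφ : ∀ u v, TAdj u v → TAdj (φ u) (φ v)) (hψ : ∀ u v, TAdj u v → TAdj (ψ u) (ψ v))
    {η : Config} {S : Set TV} {u v : TV} :
    TConn (fun v => η (φ v)) S u v ↔ TConn η {w | ψ w ∈ S} (φ u) (φ v) := by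
  constructor
  · intro h
    exact h.map φ (fun x hx => by simpa [h2] using hx) (fun x _ hx => hx)
      (fun a b _ _ hab => Or.inl (hφ a b hab))
  · intro h
    have := h.map (η' := fun v => η (φ v)) (T := S) ψ (fun x hx => hx)
      (fun x _ hx => by simp only [h1]; exact hx) (fun a b _ _ hab => Or.inl (hψ a b hab))
    rwa [h2, h2] at this

theorem TR_rfx (a b c d z : ℤ) : {w : TV | rfx z w ∈ TR a b c d} = TR (z - b) (z - a) c d := by
  ext w
  simp only [Set.mem_ofPred_eq, mem_TR, fx_rfx, fy_rfx]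
  omega

theorem TR_rfy (a b c d z : ℤ) : {w : TV | rfy z w ∈ TR a b c d} = TR a b (z - d) (z - c) := by
  ext w
  simp only [Set.mem_ofPred_eq, mem_TR, fx_rfy, fy_rfy]
  omega

theorem TR_swp (a b c d : ℤ) : {w : TV | swp w ∈ TR a b c d} = TR c d a b := by
  ext w
  simp only [Set.mem_ofPred_eq, mem_TR, fx_swp, fy_swp]
  omega

theorem tconn_swp {η : Config} {a b c d : ℤ} {u v : TV} :
    TConn (fun v => η (swp v)) (TR a b c d) u v ↔
      TConn η (TR c d a b) (swp u) (swp v) := by
  rw [tconn_comp swp_swp swp_swp (fun _ _ h => h.swp) (fun _ _ h => h.swp), TR_swp]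

theorem HC_swp {η : Config} {a b c d : ℤ} :
    HC (fun v => η (swp v)) a b c d ↔ VC η c d a b := by
  constructor
  · rintro ⟨y, y', h⟩
    rw [tconn_swp] at h
    exact ⟨y, y', h⟩
  · rintro ⟨y, y', h⟩
    exact ⟨y, y', tconn_swp.2 h⟩

theorem ab_le_one {k n : ℕ} : ab p r k n ≤ 1 := PT_le_one

/-! ### Paths and squares -/

/-- A path from the square of half side `n` to a vertex outside or on the boundary contains a path
inside the square to the boundary. -/
theorem TConn.to_sph {η : Config} {S : Set TV} {u w : TV} {x y : ℤ} {n : ℕ}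
    (h : TConn η S u w) (hu : u ∈ TR (x - n) (x + n) (y - n) (y + n))
    (hw : fx w ≤ 2 * (x - n) ∨ 2 * (x + n) ≤ fx w ∨ fy w ≤ 2 * (y - n) ∨ 2 * (y + n) ≤ fy w) :
    ∃ z ∈ sph x y n, TConn η (S ∩ TR (x - n) (x + n) (y - n) (y + n)) u z := by
  set T : Set TV := {v | 2 * (x - n) < fx v ∧ fx v < 2 * (x + n) ∧ 2 * (y - n) < fy v ∧
    fy v < 2 * (y + n)} with hT
  have hwT : w ∉ T := by
    rw [hT]; simp only [Set.mem_ofPred_eq]; omega
  have hsph : ∀ v : TV, v ∈ TR (x - n) (x + n) (y - n) (y + n) → v ∉ T → v ∈ sph x y n := by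
    intro v hv hvT
    refine ⟨hv, ?_⟩
    rw [mem_TR] at hv
    rw [hT] at hvT
    simp only [Set.mem_ofPred_eq] at hvT
    have : fx v = 2 * (x - n) ∨ fx v = 2 * (x + n) ∨ fy v = 2 * (y - n) ∨ fy v = 2 * (y + n) := by
      omega
    rcases this with h | h | h | h
    · exact ⟨(site_of_fx h).1, Or.inl (site_of_fx h).2⟩
    · exact ⟨(site_of_fx h).1, Or.inr (Or.inl (site_of_fx h).2)⟩
    · exact ⟨(site_of_fy h).1, Or.inr (Or.inr (Or.inl (site_of_fy h).2))⟩
    · exact ⟨(site_of_fy h).1, Or.inr (Or.inr (Or.inr (site_of_fy h).2))⟩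
  by_cases huT : u ∈ T
  · obtain ⟨a, b, h1, h2, h3, -⟩ := h.exists_exit huT hwT
    have ha := h1.mem_right.2
    rw [hT] at ha
    simp only [Set.mem_ofPred_eq] at ha
    have hb : b ∈ TR (x - n) (x + n) (y - n) (y + n) := by
      rw [mem_TR]
      exact ⟨h2.2.2.1.le_fx ha.1, h2.2.2.1.fx_le ha.2.1, h2.2.2.1.le_fy ha.2.2.1,
        h2.2.2.1.fy_le ha.2.2.2⟩
    refine ⟨b, hsph b hb h3, ?_⟩
    have h4 : TConn η (S ∩ TR (x - n) (x + n) (y - n) (y + n)) u a :=
      h1.mono_set fun v hv => ⟨hv.1, by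
        have := hv.2; rw [hT] at this; simp only [Set.mem_ofPred_eq] at this
        rw [mem_TR]; omega⟩
    exact h4.tail ⟨h4.mem_right, ⟨h2.2.1, hb⟩, h2.2.2⟩
  · exact ⟨u, hsph u hu huT, TConn.refl ⟨h.mem_left, hu⟩ h.open_left⟩

/-- A far connection gives an arm event. -/
theorem TConn.mem_AB {η : Config} {S : Set TV} {u w : TV} {x y : ℤ} {k n : ℕ}
    (h : TConn η S u w) (hk : k ≤ n) (hu : u ∈ TR (x - k) (x + k) (y - k) (y + k))
    (hw : fx w ≤ 2 * (x - n) ∨ 2 * (x + n) ≤ fx w ∨ fy w ≤ 2 * (y - n) ∨ 2 * (y + n) ≤ fy w) :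
    η ∈ AB x y k n := by
  obtain ⟨z, hz, hc⟩ := h.to_sph (x := x) (y := y) (n := n)
    (TR_mono (by omega) (by omega) (by omega) (by omega) hu) hw
  exact ⟨u, hu, z, hz, hc.mono_set Set.inter_subset_right⟩

theorem AB_mono {x y : ℤ} {k k' n n' : ℕ} (hk : k ≤ k') (hn : n' ≤ n) (hkn : k' ≤ n') :
    AB x y k n ⊆ AB x y k' n' := by
  rintro η ⟨u, hu, w, hw, hc⟩
  refine hc.mem_AB hkn (TR_mono (by omega) (by omega) (by omega) (by omega) hu) ?_
  obtain ⟨h1, h2, h3⟩ := hw
  rw [fx_even h2, fy_even h2]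
  omega

theorem ab_mono {k k' n n' : ℕ} (hk : k ≤ k') (hn : n' ≤ n) (hkn : k' ≤ n') :
    ab p r k n ≤ ab p r k' n' := PT_mono (AB_mono hk hn hkn)

/-! ### Square root trick -/

end Pool.Agent.H83.Site

end

section

/-! # Duality: open horizontal and closed vertical crossings do not coexist

The centred lattice `T` is drawn in the square lattice `ℤ²`, scaled by 3: the site `(x, y)` at
`(3 x, 3 y)` and the centre `(x, y)` at `(3 x + 1, 3 y + 1)`. Every vertex of the fine lattice has a
label, a vertex of `T`, such that every edge `u v` of `T` is drawn as a path of vertices with the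
labels `u` and `v`. An open horizontal and a closed vertical crossing give two paths in the fine
lattice which cross (`Pool.Agent.H89.Perc.cross`), in a vertex whose label is both open and closed.
-/

set_option autoImplicit false

namespace Pool.Agent.H83.Site

open Pool.Agent.H89.Perc

/-- The position of a vertex of `T` in the fine lattice. -/
def pos (v : TV) : Vert := if v.2.2 then (3 * v.1 + 1, 3 * v.2.1 + 1) else (3 * v.1, 3 * v.2.1)

lemma pos_mem {a b c d : ℤ} {u : TV} (h : u ∈ TR a b c d) :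
    pos u ∈ rect (3 * a) (3 * b) (3 * c) (3 * d) := by
  obtain ⟨x, y, r⟩ := u
  cases r
  · rw [mem_TR_site] at h
    simp only [pos, Bool.false_eq_true, if_false, rect, Set.mem_ofPred_eq]; omega
  · rw [mem_TR_cen] at h
    simp only [pos, if_true, rect, Set.mem_ofPred_eq]; omega

end Pool.Agent.H83.Site

end

section

/-! # Paths which cross a rectangle in different directions meet -/

set_option autoImplicit false

namespace Pool.Agent.H83.Site

open Pool.Agent.H89.Perc

/-! ### Indicator of a cluster -/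

theorem glue_in_clu {η : Config} {S : Set TV} {u v : TV} (h : TConn η S u v) :
    TConn (glueClu η S u) S u v := by
  refine h.induction_right (P := fun v => TConn (glueClu η S u) S u v)
    (TConn.refl h.mem_left (glueClu_eq_true.2 (TConn.refl h.mem_left h.open_left))) ?_
  intro a b hua hab ih
  exact ih.tail ⟨hab.1, hab.2.1, hab.2.2.1, glueClu_eq_true.2 hua,
    glueClu_eq_true.2 (hua.tail hab)⟩

theorem glue_avoid {η : Config} {S : Set TV} {u x x' : TV} (h : TConn η S x x')
    (hx : ¬ TConn η S u x) : TConn (neg (glueClu η S u)) S x x' := by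
  refine h.induction_right (P := fun v => TConn (neg (glueClu η S u)) S x v)
    (TConn.refl h.mem_left (neg_glueClu_eq_true.2 hx)) ?_
  intro a b hxa hab ih
  exact ih.tail ⟨hab.1, hab.2.1, hab.2.2.1, neg_glueClu_eq_true.2 fun hh => hx (hh.trans hxa.symm),
    neg_glueClu_eq_true.2 fun hh => hx (hh.trans (hxa.tail hab).symm)⟩

theorem glue_closed {η : Config} {S : Set TV} {u x x' : TV} (h : TConn (neg η) S x x') :
    TConn (neg (glueClu η S u)) S x x' := by
  refine h.mono le_rfl fun v _ hv => neg_glueClu_eq_true.2 fun hh => ?_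
  have := hh.open_right
  unfold neg at hv
  rw [this] at hv
  simp at hv

/-! ### The extension by one column -/

theorem glueExt_conn {η : Config} {a b c d t : ℤ} {u v : TV} (h : TConn η (TR a b c d) u v) :
    TConn (glueExt η a t) (TR (a - 1) b c d) u v := by
  refine h.mono (TR_mono (by omega) le_rfl le_rfl le_rfl) fun x hx ho => ?_
  unfold glueExt
  rw [if_pos (mem_TR.1 hx).1]
  exact ho

theorem glueExt_neg_conn {η : Config} {a b c d t : ℤ} {u v : TV}
    (h : TConn (neg η) (TR a b c d) u v) :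
    TConn (neg (glueExt η a t)) (TR (a - 1) b c d) u v := by
  refine h.mono (TR_mono (by omega) le_rfl le_rfl le_rfl) fun x hx ho => ?_
  unfold neg glueExt
  unfold neg at ho
  rw [if_pos (mem_TR.1 hx).1]
  exact ho

/-! ### The mirror image -/

end Pool.Agent.H83.Site

end

section

/-! # Circuits in annuli -/

set_option autoImplicit false

open MeasureTheory ProbabilityTheory unitInterval

namespace Pool.Agent.H83.Site

open Pool.Agent.H89.Perc

/-- Open crossings of the four rectangles that form the annulus `[-2s, 2s]² \ [-s, s]²`. -/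
def CircE (s : ℕ) : Set Config :=
  {η | HC η (-(2 * s)) (2 * s) s (2 * s) ∧ HC η (-(2 * s)) (2 * s) (-(2 * s)) (-s) ∧
    VC η s (2 * s) (-(2 * s)) (2 * s) ∧ VC η (-(2 * s)) (-s) (-(2 * s)) (2 * s)}

theorem circ_eRect_mono {a b c d a' b' c' d' : ℤ} (h1 : a' ≤ a) (h2 : b ≤ b') (h3 : c' ≤ c)
    (h4 : d ≤ d') : eRect a b c d ⊆ eRect a' b' c' d' := by
  intro v hv
  rw [mem_eRect] at hv ⊢
  simp only [rect, Set.mem_ofPred_eq] at hv ⊢
  omega

theorem circ_eq (s : ℕ) : CircE s = ({η | HC η (-(2 * s)) (2 * s) s (2 * s)} ∩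
    {η | HC η (-(2 * s)) (2 * s) (-(2 * s)) (-s)}) ∩ ({η | VC η s (2 * s) (-(2 * s)) (2 * s)} ∩
    {η | VC η (-(2 * s)) (-s) (-(2 * s)) (2 * s)}) := by
  ext η
  simp only [CircE, Set.mem_ofPred_eq, Set.mem_inter_iff]
  tauto

theorem localOn_CircE (s : ℕ) :
    LocalOn (eRect (-(2 * s)) (2 * s) (-(2 * s)) (2 * s)) (CircE s) := by
  rw [circ_eq]
  refine LocalOn.inter (LocalOn.inter ?_ ?_) (LocalOn.inter ?_ ?_)
  · exact (localOn_HC _ _ _ _).mono (circ_eRect_mono (by omega) (by omega) (by omega) (by omega))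
  · exact (localOn_HC _ _ _ _).mono (circ_eRect_mono (by omega) (by omega) (by omega) (by omega))
  · exact (localOn_VC _ _ _ _).mono (circ_eRect_mono (by omega) (by omega) (by omega) (by omega))
  · exact (localOn_VC _ _ _ _).mono (circ_eRect_mono (by omega) (by omega) (by omega) (by omega))

theorem incr_CircE (s : ℕ) : Incr (CircE s) := by
  rw [circ_eq]
  exact ((incr_HC _ _ _ _).inter (incr_HC _ _ _ _)).inter
    ((incr_VC _ _ _ _).inter (incr_VC _ _ _ _))

end Pool.Agent.H83.Site

end

section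

/-! # Duality: an open horizontal or a closed vertical crossing exists -/

set_option autoImplicit false

namespace Pool.Agent.H83.Site

open Pool.Agent.H89.Perc

private lemma dualE_conn {η η' : Config} {S T : Set TV} {u v : TV}
    (h : ∀ x ∈ S, η x = true → x ∈ T ∧ η' x = true) (hc : TConn η S u v) : TConn η' T u v := by
  have h0 := h _ hc.mem_left hc.open_left
  refine hc.induction_right (P := fun v => TConn η' T u v) (TConn.refl h0.1 h0.2) ?_
  intro a b _ hs ih
  have h1 := h _ hs.1 hs.2.2.2.1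
  have h2 := h _ hs.2.1 hs.2.2.2.2
  exact ih.tail ⟨h1.1, h2.1, hs.2.2.1, h1.2, h2.2⟩

theorem hc_or_vc {a b c d : ℤ} (hab : a ≤ b) (hcd : c ≤ d) (η : Config) :
    HC η a b c d ∨ VC (neg η) a b c d := by
  by_contra hcon
  push Not at hcon
  obtain ⟨hH, hV⟩ := hcon
  set R : Set TV := TR (a - 1) b (c - 1) (d + 1) with hR
  set η' : Config := dualEExt η a b c d with hη'
  set A : Set TV := {v | ∃ y, c ≤ y ∧ y ≤ d ∧ TConn η' R (a - 1, y, false) v} with hA
  set B : Set TV := {v | ∃ x, a - 1 ≤ x ∧ x ≤ b ∧ TConn (neg η') R (x, c - 1, false) v} with hB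
  have hAo : ∀ v ∈ A, η' v = true := by
    rintro v ⟨y, _, _, h⟩
    exact h.open_right
  have hBc : ∀ v ∈ B, η' v = false := by
    rintro v ⟨x, _, _, h⟩
    have := h.open_right
    simpa [neg] using this
  have hdis : ∀ v, v ∈ A → v ∉ B := by
    intro v h1 h2
    have h3 := hAo v h1
    rw [hBc v h2] at h3
    exact absurd h3 (by decide)
  have hcl : ∀ u v w, w ∈ R → TAdj u w → TAdj v w → u ∈ A → v ∈ B → w ∈ A ∨ w ∈ B := by
    intro u v w hw huw hvw hu hv
    by_cases ho : η' w = true
    · left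
      obtain ⟨y, h1, h2, h3⟩ := hu
      exact ⟨y, h1, h2, h3.tail ⟨h3.mem_right, hw, huw, h3.open_right, ho⟩⟩
    · right
      obtain ⟨x, h1, h2, h3⟩ := hv
      exact ⟨x, h1, h2, h3.tail ⟨h3.mem_right, hw, hvw, h3.open_right, by simpa [neg] using ho⟩⟩
  -- the left column is in `A`, the bottom row in `B`
  have hleft : ∀ y, c ≤ y → y ≤ d → ((a - 1, y, false) : TV) ∈ A := by
    intro y h1 h2
    refine ⟨y, h1, h2, TConn.refl ?_ ?_⟩
    · rw [hR, mem_TR_site]
      omega
    · rw [hη']
      unfold dualEExt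
      rw [fx_site, fy_site, if_neg (by omega), decide_eq_true_eq]
      omega
  have hbot : ∀ x, a - 1 ≤ x → x ≤ b → ((x, c - 1, false) : TV) ∈ B := by
    intro x h1 h2
    refine ⟨x, h1, h2, TConn.refl ?_ ?_⟩
    · rw [hR, mem_TR_site]
      omega
    · rw [hη']
      unfold neg dualEExt
      rw [fx_site, fy_site, if_neg (by omega), decide_eq_false (by omega)]
      rfl
  -- the top row is closed and not in `B`, the right column is not in `A`
  have htopc : ∀ x, ((x, d + 1, false) : TV) ∉ A := by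
    intro x h
    have h1 := hAo _ h
    rw [hη'] at h1
    unfold dualEExt at h1
    rw [fx_site, fy_site, if_neg (by omega), decide_eq_true_eq] at h1
    omega
  have htop : ∀ x, ((x, d + 1, false) : TV) ∉ B := by
    rintro x ⟨x0, h1, h2, h3⟩
    obtain ⟨x1, x2, h4, -, -⟩ := h3.cross_y (c := c) (d := d) (by rw [fy_site]; omega)
      (by rw [fy_site]; omega) hcd
    refine hV ⟨x1, x2, dualE_conn ?_ h4⟩
    rintro v ⟨hv1, hv2, hv3⟩ hvo
    rw [hR, mem_TR] at hv1
    simp only [neg, hη', dualEExt] at hvo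
    split_ifs at hvo with h5
    · exact ⟨h5, hvo⟩
    · exfalso
      rw [decide_eq_true (by omega)] at hvo
      exact absurd hvo (by decide)
  have hright : ∀ y, ((b, y, false) : TV) ∉ A := by
    rintro y ⟨y0, h1, h2, h3⟩
    obtain ⟨y1, y2, h4, -, -⟩ := h3.cross_x (a := a) (b := b) (by rw [fx_site]; omega)
      (by rw [fx_site]) hab
    refine hH ⟨y1, y2, dualE_conn ?_ h4⟩
    rintro v ⟨hv1, hv2, hv3⟩ hvo
    rw [hR, mem_TR] at hv1
    simp only [hη', dualEExt] at hvo
    split_ifs at hvo with h5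
    · exact ⟨h5, hvo⟩
    · exfalso
      rw [decide_eq_false (by omega)] at hvo
      exact absurd hvo (by decide)
  -- integration
  obtain ⟨W, hW⟩ := integRect (a := a - 1) (b := b) (c := c - 1) (d := d + 1)
    (fun e => dualEK A B ((src e).1, (src e).2, false) ((tgt e).1, (tgt e).2, false)) (by
      rintro ⟨x, y⟩ ⟨h1, h2, h3, h4⟩
      simp only at h1 h2 h3 h4
      have m0 : ((x, y, true) : TV) ∈ R := by rw [hR, mem_TR_cen]; omega
      have m1 : ((x, y, false) : TV) ∈ R := by rw [hR, mem_TR_site]; omega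
      have m2 : ((x + 1, y, false) : TV) ∈ R := by rw [hR, mem_TR_site]; omega
      have m3 : ((x + 1, y + 1, false) : TV) ∈ R := by rw [hR, mem_TR_site]; omega
      have m4 : ((x, y + 1, false) : TV) ∈ R := by rw [hR, mem_TR_site]; omega
      have t1 := dualE_tri hdis hcl m1 m2 m0 (by simp [TAdj]) (by simp [TAdj]) (by simp [TAdj])
      have t2 := dualE_tri hdis hcl m2 m3 m0 (by simp [TAdj]) (by simp [TAdj]) (by simp [TAdj])
      have t3 := dualE_tri hdis hcl m4 m3 m0 (by simp [TAdj]) (by simp [TAdj]) (by simp [TAdj])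
      have t4 := dualE_tri hdis hcl m1 m4 m0 (by simp [TAdj]) (by simp [TAdj]) (by simp [TAdj])
      simp only [fsum, src, tgt, Bool.false_eq_true, if_false, if_true]
      linear_combination t1 + t2 + t3 + t4
        - z2_add_self (dualEK A B (x, y, false) (x, y, true))
        - z2_add_self (dualEK A B (x + 1, y, false) (x, y, true))
        - z2_add_self (dualEK A B (x + 1, y + 1, false) (x, y, true))
        - z2_add_self (dualEK A B (x, y + 1, false) (x, y, true)))
  have hver : ∀ x y, a - 1 ≤ x → x ≤ b → c - 1 ≤ y → y + 1 ≤ d + 1 →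
      dualEK A B (x, y, false) (x, y + 1, false) = 0 → W (x, y) = W (x, y + 1) := by
    intro x y h1 h2 h3 h4 h5
    have := hW (x, y, true) ⟨h1, h2, h3, by simp only [src]; omega⟩
      ⟨by simpa [tgt] using h1, by simpa [tgt] using h2, by simp only [tgt, if_true]; omega,
        by simp only [tgt, if_true]; omega⟩
    simp only [src, tgt, if_true] at this
    rw [h5] at this
    exact z2_add_eq_zero.1 this.symm
  have hhor : ∀ x y, a - 1 ≤ x → x + 1 ≤ b → c - 1 ≤ y → y ≤ d + 1 →
      dualEK A B (x, y, false) (x + 1, y, false) = 0 → W (x, y) = W (x + 1, y) := by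
    intro x y h1 h2 h3 h4 h5
    have := hW (x, y, false) ⟨h1, by simp only [src]; omega, h3, h4⟩
      ⟨by simp only [tgt, Bool.false_eq_true, if_false]; omega,
        by simpa [tgt] using h2, by simpa [tgt] using h3, by simpa [tgt] using h4⟩
    simp only [src, tgt, Bool.false_eq_true, if_false] at this
    rw [h5] at this
    exact z2_add_eq_zero.1 this.symm
  have hK : ∀ u v, (u ∉ A ∨ v ∉ B) → (u ∉ B ∨ v ∉ A) → dualEK A B u v = 0 := by
    intro u v h1 h2
    unfold dualEK dualEInd
    rcases h1 with h1 | h1 <;> rcases h2 with h2 | h2 <;> simp [h1, h2]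
  have e1 : W (a - 1, c) = W (a - 1, d) := const_col (f := W) hcd fun y h1 h2 =>
    hver (a - 1) y le_rfl (by omega) (by omega) (by omega)
      (hK _ _ (Or.inr (hdis _ (hleft (y + 1) (by omega) (by omega))))
        (Or.inl (hdis _ (hleft y h1 (by omega)))))
  have e2 : W (a - 1, d) = W (a - 1, d + 1) :=
    hver (a - 1) d le_rfl (by omega) (by omega) (by omega)
      (hK _ _ (Or.inr (htop _)) (Or.inl (hdis _ (hleft d hcd le_rfl))))
  have e3 : W (a - 1, d + 1) = W (b, d + 1) := const_row (f := W) (by omega) fun x h1 h2 =>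
    hhor x (d + 1) h1 (by omega) (by omega) le_rfl (hK _ _ (Or.inl (htopc _)) (Or.inl (htop _)))
  have e4 : W (b, c - 1) = W (b, d + 1) := const_col (f := W) (by omega) fun y h1 h2 =>
    hver b y (by omega) le_rfl h1 (by omega) (hK _ _ (Or.inl (hright _)) (Or.inr (hright _)))
  have e5 : W (a - 1, c - 1) = W (b, c - 1) := const_row (f := W) (by omega) fun x h1 h2 =>
    hhor x (c - 1) h1 (by omega) le_rfl (by omega)
      (hK _ _ (Or.inl fun h => hdis _ h (hbot x h1 (by omega)))
        (Or.inr fun h => hdis _ h (hbot (x + 1) (by omega) (by omega))))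
  have hfin : W (a - 1, c - 1) = W (a - 1, c) := by rw [e1, e2, e3, ← e4, ← e5]
  have h1 := hW (a - 1, c - 1, true)
    ⟨by simp only [src]; omega, by simp only [src]; omega, by simp only [src]; omega,
      by simp only [src]; omega⟩
    ⟨by simp only [tgt, if_true]; omega, by simp only [tgt, if_true]; omega,
      by simp only [tgt, if_true]; omega, by simp only [tgt, if_true]; omega⟩
  simp only [src, tgt, if_true, sub_add_cancel] at h1
  rw [hfin, z2_add_self] at h1
  have m1 := hbot (a - 1) le_rfl (by omega)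
  have m2 := hleft c le_rfl hcd
  have m3 := hdis _ m2
  have m4 : ((a - 1, c - 1, false) : TV) ∉ A := fun h => hdis _ h m1
  unfold dualEK dualEInd at h1
  rw [if_neg m4, if_neg m3, if_pos m1, if_pos m2] at h1
  exact absurd h1 (by decide)

end Pool.Agent.H83.Site

end

section

/-! # The lowest crossing of a rectangle -/

set_option autoImplicit false

namespace Pool.Agent.H83.Site

open Pool.Agent.H89.Perc

/-- The closed cluster of the bottom row of `[0, l] × [c, d]`. -/
def Clo (η : Config) (l c d : ℤ) : Set TV :=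
  {v | ∃ x : ℤ, TConn (neg η) (TR 0 l c d) (x, c, false) v}

/-- The vertices explored when the closed cluster of the bottom row is `C`. -/
def Exd (l c d : ℤ) (C : Set TV) : Set TV :=
  {v | v ∈ TR 0 l c d ∧ (fy v = 2 * c ∨ v ∈ C ∨ ∃ w ∈ C, TAdj w v)}

/-- The configuration with all vertices that are not explored closed. -/
noncomputable def zet (η : Config) (l c d : ℤ) : Config := fun v => by
  classical exact η v && decide (v ∈ Exd l c d (Clo η l c d))

/-- The set `D ⊆ [0, l] × [c, d]` is joined to the top of `[0, 2 l] × [c, e]` by an open path which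
does not use the vertices of `D` and of its mirror image (except for the last vertex, whose state
does not matter). -/
def FJ (η : Config) (l c e : ℤ) (D : Set TV) : Prop :=
  ∃ u ∈ D, fy u = 2 * e ∨ ∃ w : TV, ∃ x : ℤ, TAdj w u ∧
    TConn η (TR 0 (2 * l) c e \ (D ∪ {v | rfx (2 * l) v ∈ D})) (x, e, false) w

variable {η : Config} {l c d e y y' : ℤ}

theorem zet_eq_true {v : TV} :
    zet η l c d v = true ↔ η v = true ∧ v ∈ Exd l c d (Clo η l c d) := by
  unfold zet
  simp

/-! ### Auxiliary facts -/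

private theorem low_clo_closed {v : TV} (h : v ∈ Clo η l c d) : η v = false := by
  obtain ⟨x, hx⟩ := h
  exact low_neg_eq_true.1 hx.open_right

theorem low_clo_bottom {v : TV} (hv : v ∈ TR 0 l c d) (h : fy v = 2 * c)
    (hc : η v = false) : v ∈ Clo η l c d := by
  refine ⟨v.1, ?_⟩
  rw [← low_site_fy h]
  exact TConn.refl hv (low_neg_eq_true.2 hc)

theorem low_clo_step {v w : TV} (hv : v ∈ Clo η l c d) (ha : TAdj v w)
    (hw : w ∈ TR 0 l c d) (hc : η w = false) : w ∈ Clo η l c d := by
  obtain ⟨x, hx⟩ := hv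
  exact ⟨x, hx.tail ⟨hx.mem_right, hw, ha, hx.open_right, low_neg_eq_true.2 hc⟩⟩

theorem low_zet_open {v : TV} (h : zet η l c d v = true) : η v = true :=
  (zet_eq_true.1 h).1

/-- An explored open vertex which is not in the bottom row is adjacent to the closed cluster. -/
theorem low_adj {v : TV} (h : zet η l c d v = true) (hv : 2 * c < fy v) :
    ∃ w : TV, ∃ x : ℤ, TConn (neg η) (TR 0 l c d) (x, c, false) w ∧ TAdj w v := by
  obtain ⟨h1, h2, h3⟩ := zet_eq_true.1 h
  rcases h3 with h3 | h3 | ⟨w, ⟨x, hw⟩, hwv⟩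
  · omega
  · rw [low_clo_closed h3] at h1
    exact absurd h1 (by decide)
  · exact ⟨w, x, hw, hwv⟩

end Pool.Agent.H83.Site

end

section

/-! # Conditioning on the lowest crossing -/

set_option autoImplicit false

open MeasureTheory ProbabilityTheory unitInterval

namespace Pool.Agent.H83.Site

open Pool.Agent.H89.Perc

/-- The lowest crossing of `[0, l] × [c, d]` exists and is joined to the top of
`[0, 2 l] × [c, e]`. -/
def LJ (l c d e : ℤ) : Set Config :=
  {η | HC η 0 l c d ∧ FJ η l c e (Exd l c d (Clo η l c d))}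

/-! ### Auxiliary facts -/

theorem expl_clo_congr {l c d : ℤ} {η η' : Config} (h : ∀ v ∈ TR 0 l c d, η v = η' v) :
    Clo η l c d = Clo η' l c d := by
  have key : ∀ {η η' : Config}, (∀ v ∈ TR 0 l c d, η v = η' v) →
      Clo η l c d ⊆ Clo η' l c d := by
    intro η η' h v hv
    obtain ⟨x, hx⟩ := hv
    exact ⟨x, hx.congr fun w hw => by simp only [neg]; rw [h w hw]⟩
  exact Set.Subset.antisymm (key h) (key fun v hv => (h v hv).symm)

theorem expl_fj_congr {l c e : ℤ} {D : Set TV} {η η' : Config}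
    (h : ∀ v ∈ TR 0 (2 * l) c e, v ∉ D → η v = η' v) (hF : FJ η l c e D) : FJ η' l c e D := by
  obtain ⟨u, hu, h1⟩ := hF
  refine ⟨u, hu, ?_⟩
  rcases h1 with h1 | ⟨w, x, hw, hc⟩
  · exact Or.inl h1
  · exact Or.inr ⟨w, x, hw, hc.congr fun v hv => h v hv.1 fun hD => hv.2 (Or.inl hD)⟩

theorem expl_fj_incr (l c e : ℤ) (D : Set TV) : Incr {η | FJ η l c e D} := by
  rintro η η' h ⟨u, hu, h1⟩
  refine ⟨u, hu, ?_⟩
  rcases h1 with h1 | ⟨w, x, hw, hc⟩
  · exact Or.inl h1
  · exact Or.inr ⟨w, x, hw, hc.mono le_rfl fun v _ => h v⟩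

theorem expl_clo_subset {l c d : ℤ} (η : Config) : Clo η l c d ⊆ TR 0 l c d :=
  fun _ ⟨_, hx⟩ => hx.mem_right

/-- The closed cluster of the bottom row is determined by the states of the explored vertices. -/
theorem expl_clo_eq {l c d : ℤ} {η η' : Config}
    (h : ∀ v ∈ Exd l c d (Clo η l c d), η v = η' v) : Clo η' l c d = Clo η l c d := by
  apply Set.Subset.antisymm
  · rintro v ⟨x, hx⟩
    refine hx.induction_right (P := fun v => v ∈ Clo η l c d) ?_ ?_
    · refine ⟨x, TConn.refl hx.mem_left ?_⟩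
      have h1 : (x, c, false) ∈ Exd l c d (Clo η l c d) := ⟨hx.mem_left, Or.inl (by simp)⟩
      have h2 := hx.open_left
      simp only [neg] at h2 ⊢
      rw [h _ h1]; exact h2
    · rintro a b - ⟨-, hb, hab, -, hb'⟩ ha
      have h1 : b ∈ Exd l c d (Clo η l c d) := ⟨hb, Or.inr (Or.inr ⟨a, ha, hab⟩)⟩
      obtain ⟨z, hz⟩ := ha
      refine ⟨z, hz.tail ⟨hz.mem_right, hb, hab, hz.open_right, ?_⟩⟩
      simp only [neg] at hb' ⊢
      rw [h _ h1]; exact hb'
  · rintro v ⟨x, hx⟩
    have hst : ∀ w : TV, TConn (neg η) (TR 0 l c d) (x, c, false) w → neg η' w = true := by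
      intro w hw
      have h1 : w ∈ Exd l c d (Clo η l c d) := ⟨hw.mem_right, Or.inr (Or.inl ⟨x, hw⟩)⟩
      have h2 := hw.open_right
      simp only [neg] at h2 ⊢
      rw [← h _ h1]; exact h2
    refine hx.induction_right (P := fun v => v ∈ Clo η' l c d) ?_ ?_
    · exact ⟨x, TConn.refl hx.mem_left (hst _ (TConn.refl hx.mem_left hx.open_left))⟩
    · rintro a b hxa hs ⟨z, hz⟩
      exact ⟨z, hz.tail ⟨hs.1, hs.2.1, hs.2.2.1, hst a hxa, hst b (hxa.tail hs)⟩⟩

theorem localOn_LJ {l c d e : ℤ} (hl : 0 ≤ l) (hde : d ≤ e) :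
    LocalOn (eRect 0 (2 * l) c e) (LJ l c d e) := by
  rintro η η' h ⟨h1, h2⟩
  have hsub : TR 0 l c d ⊆ TR 0 (2 * l) c e := TR_mono le_rfl (by omega) le_rfl hde
  have hη : ∀ v ∈ TR 0 l c d, η v = η' v := fun v hv => h v (TR_subset_eRect (hsub hv))
  refine ⟨?_, ?_⟩
  · obtain ⟨y, y', hc⟩ := h1
    exact ⟨y, y', hc.congr hη⟩
  · rw [← expl_clo_congr hη]
    exact expl_fj_congr (fun v hv _ => h v (TR_subset_eRect hv)) h2

end Pool.Agent.H83.Site

end

section

/-! # Renormalisation of crossing probabilities -/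

set_option autoImplicit false

open MeasureTheory ProbabilityTheory unitInterval

namespace Pool.Agent.H83.Site

open Pool.Agent.H89.Perc

/-- The probability that `[0, 4 m] × [1, m]` has no open horizontal crossing. -/
noncomputable def qc (p : I) (r : Bool) (m : ℕ) : ℝ := PT p r {η | VC (neg η) 0 (4 * m) 1 m}

/-- Either a path stays in `T` or it leaves `T`. -/
private theorem renorm_stay {η : Config} {S T : Set TV} {u v : TV} (h : TConn η S u v)
    (hu : u ∈ T) : TConn η (S ∩ T) u v ∨ ∃ w, w ∉ T ∧ TConn η S u w := by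
  refine h.induction_right
    (P := fun v => TConn η (S ∩ T) u v ∨ ∃ w, w ∉ T ∧ TConn η S u w) ?_ ?_
  · exact Or.inl (TConn.refl ⟨h.mem_left, hu⟩ h.open_left)
  · intro a b hua hab hP
    rcases hP with hP | hP
    · by_cases hb : b ∈ T
      · exact Or.inl (hP.tail ⟨hP.mem_right, ⟨hab.2.1, hb⟩, hab.2.2⟩)
      · exact Or.inr ⟨b, hb, hua.tail hab⟩
    · exact Or.inr hP

private theorem renorm_hc {η : Config} {a b c d a' b' : ℤ} {u v : TV}
    (h : TConn η (TR a b c d) u v) (ha : a ≤ a') (hab : a' ≤ b') (hb : b' ≤ b)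
    (hu : fx u ≤ 2 * a') (hv : 2 * b' ≤ fx v) : HC η a' b' c d := by
  obtain ⟨y, y', h1, -, -⟩ := h.cross_x (a := a') (b := b') hu hv hab
  rw [TR_inter_x ha hb] at h1
  exact ⟨y, y', h1⟩

private theorem renorm_vc {η : Config} {a b c d a' b' x x' : ℤ}
    (h : TConn η (TR a b c d ∩ {w | 2 * a' ≤ fx w ∧ fx w ≤ 2 * b'}) (x, c, false) (x', d, false))
    (ha : a ≤ a') (hb : b' ≤ b) : VC η a' b' c d := by
  rw [TR_inter_x ha hb] at h
  exact ⟨x, x', h⟩

theorem renorm_geom {η : Config} {m : ℕ} (hm : 1 ≤ m) (h : VC η 0 (8 * m) 1 m) :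
    (VC η 0 (4 * m) 1 m ∨ VC η (2 * m) (6 * m) 1 m ∨ VC η (4 * m) (8 * m) 1 m) ∨
    (HC η (3 * m + 1) (4 * m) 1 m ∨ HC η (2 * m + 1) (3 * m) 1 m ∨
      HC η (5 * m + 1) (6 * m) 1 m ∨ HC η (4 * m + 1) (5 * m) 1 m) := by
  obtain ⟨x, x', h⟩ := h
  have hx := mem_TR_site.1 h.mem_left
  by_cases h1 : x ≤ 3 * m
  · rcases renorm_stay (T := {w | 2 * (0 : ℤ) ≤ fx w ∧ fx w ≤ 2 * (4 * m : ℤ)}) h
      (by simp only [Set.mem_ofPred_eq, fx_site]; omega) with h2 | ⟨w, hw, h2⟩
    · exact Or.inl (Or.inl (renorm_vc h2 le_rfl (by omega)))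
    · simp only [Set.mem_ofPred_eq, not_and_or, not_le] at hw
      have hw2 := mem_TR.1 h2.mem_right
      refine Or.inr (Or.inl (renorm_hc h2 (by omega) (by omega) (by omega) ?_ ?_))
      · rw [fx_site]; omega
      · omega
  by_cases h1' : x ≤ 5 * m
  · rcases renorm_stay (T := {w | 2 * (2 * m : ℤ) ≤ fx w ∧ fx w ≤ 2 * (6 * m : ℤ)}) h
      (by simp only [Set.mem_ofPred_eq, fx_site]; omega) with h2 | ⟨w, hw, h2⟩
    · exact Or.inl (Or.inr (Or.inl (renorm_vc h2 (by omega) (by omega))))
    · simp only [Set.mem_ofPred_eq, not_and_or, not_le] at hw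
      rcases hw with hw | hw
      · refine Or.inr (Or.inr (Or.inl (renorm_hc h2.symm (by omega) (by omega) (by omega) ?_ ?_)))
        · omega
        · rw [fx_site]; omega
      · refine Or.inr (Or.inr (Or.inr (Or.inl
          (renorm_hc h2 (by omega) (by omega) (by omega) ?_ ?_))))
        · rw [fx_site]; omega
        · omega
  · rcases renorm_stay (T := {w | 2 * (4 * m : ℤ) ≤ fx w ∧ fx w ≤ 2 * (8 * m : ℤ)}) h
      (by simp only [Set.mem_ofPred_eq, fx_site]; omega) with h2 | ⟨w, hw, h2⟩
    · exact Or.inl (Or.inr (Or.inr (renorm_vc h2 (by omega) (by omega))))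
    · simp only [Set.mem_ofPred_eq, not_and_or, not_le] at hw
      have hw2 := mem_TR.1 h2.mem_right
      refine Or.inr (Or.inr (Or.inr (Or.inr
        (renorm_hc h2.symm (by omega) (by omega) (by omega) ?_ ?_))))
      · omega
      · rw [fx_site]; omega

end Pool.Agent.H83.Site

end

section

/-! # Lower bound for arm probabilities by the van den Berg-Kesten inequality -/

set_option autoImplicit false

open MeasureTheory ProbabilityTheory unitInterval

namespace Pool.Agent.H83.Site

open Pool.Agent.H89.Perc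

/-! ### Disjoint occurrence -/

/-! ### Splitting of a self-avoiding path -/

theorem ablower_adj {η : Config} {S : Set TV} {a b : TV} :
    (ablower_graph η S).Adj a b ↔ a ≠ b ∧ TStep η S a b := by
  rw [ablower_graph, SimpleGraph.fromRel_adj]
  constructor
  · rintro ⟨h1, h2 | h2⟩
    · exact ⟨h1, h2⟩
    · exact ⟨h1, h2.symm⟩
  · rintro ⟨h1, h2⟩
    exact ⟨h1, Or.inl h2⟩

theorem ablower_walk {η : Config} {S : Set TV} {u v : TV} (h : TConn η S u v) :
    ∃ P : (ablower_graph η S).Walk u v, P.IsPath := by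
  classical
  have h1 : (ablower_graph η S).Reachable u v := by
    obtain ⟨_, _, h2⟩ := h
    induction h2 with
    | refl => exact SimpleGraph.Reachable.refl _
    | @tail b c _ hbc ih =>
      by_cases hbc' : b = c
      · rw [← hbc']; exact ih
      · exact ih.trans (SimpleGraph.Adj.reachable (ablower_adj.2 ⟨hbc', hbc⟩))
  obtain ⟨w⟩ := h1
  exact ⟨w.bypass, w.bypass_isPath⟩

theorem ablower_tconn {η : Config} {S : Set TV} {a b : TV} (Q : (ablower_graph η S).Walk a b)
    (ho : η a = true) :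
    (∀ x ∈ Q.support, η x = true) ∧
      ∀ T : Set TV, (∀ x ∈ Q.support, x ∈ T) → TConn η T a b := by
  induction Q with
  | nil =>
    refine ⟨fun x hx => ?_, fun T hT => TConn.refl (hT _ (by simp)) ho⟩
    rw [SimpleGraph.Walk.support_nil, List.mem_singleton] at hx
    rw [hx]; exact ho
  | @cons a c b h q ih =>
    have h1 := (ablower_adj.1 h).2
    obtain ⟨ih1, ih2⟩ := ih h1.2.2.2.2
    refine ⟨fun x hx => ?_, fun T hT => ?_⟩
    · rw [SimpleGraph.Walk.support_cons, List.mem_cons] at hx
      rcases hx with hx | hx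
      · rw [hx]; exact ho
      · exact ih1 x hx
    · have hc : c ∈ T := hT c (by
        rw [SimpleGraph.Walk.support_cons]
        exact List.mem_cons_of_mem _ q.start_mem_support)
      have ha : a ∈ T := hT a (by
        rw [SimpleGraph.Walk.support_cons]
        exact List.mem_cons_self)
      have h2 : TStep η T a c := ⟨ha, hc, h1.2.2⟩
      exact h2.conn.trans (ih2 T fun x hx => hT x (by
        rw [SimpleGraph.Walk.support_cons]
        exact List.mem_cons_of_mem _ hx))

/-! ### The configuration of the sites of a set -/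

theorem ablower_conn {r : Bool} {ω : Config} {S : Set TV} {u v : TV}
    (h : TConn (full r ω) S u v) : TConn (full r (ablower_cfg S)) S u v := by
  refine h.mono le_rfl fun x hx ho => ?_
  simp only [full] at ho ⊢
  split
  · rename_i h1
    rw [if_pos h1] at ho
    exact ho
  · rename_i h1
    exact ablower_cfg_true.2 ⟨by simpa using h1, hx⟩

theorem ablower_disj {S T : Set TV} (h : ∀ x ∈ S, x ∉ T) :
    ∀ e, ablower_cfg S e = true → ablower_cfg T e = false := by
  intro e he
  rw [ablower_cfg_true] at he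
  rw [← Bool.not_eq_true, ablower_cfg_true]
  exact fun h1 => h e he.2 h1.2

end Pool.Agent.H83.Site

end

section

/-!
# Transfer to site percolation on `ℤ × ℤ`
-/

set_option autoImplicit false

open MeasureTheory ProbabilityTheory unitInterval

namespace Pool.Agent.H83.Site

open Pool.Agent.H89.Perc

variable {r : Bool} {ω : ℤ × ℤ → Bool}

section graph

variable {G : SimpleGraph (ℤ × ℤ)}

end graph

end Pool.Agent.H83.Site

end

section

/-!
# Site percolation through the induced bond configuration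

Site configurations are stored at the edges `(x, y, false)` of the lattice. `sit ω` is the induced
bond configuration: an edge is open if both endpoints are open sites. `Pr p A` is the probability
that the induced configuration is in `A`, when the sites are open with probability `p`.
-/

set_option autoImplicit false

open MeasureTheory ProbabilityTheory unitInterval

namespace Pool.Agent.H83.SK

open Pool.Agent.H89.Perc

variable {s t : Finset Edge} {A B : Set Config} {p q : I}

theorem Pr_le_one : Pr p A ≤ 1 := Pool.Agent.H89.Perc.Pr_le_one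

theorem Pr_mono (h : A ⊆ B) : Pr p A ≤ Pr p B :=
  Pool.Agent.H89.Perc.Pr_mono fun _ hω => h hω

theorem Pr_compl (h : LocalOn s A) : Pr p Aᶜ = 1 - Pr p A := by
  unfold Pr
  exact Pool.Agent.H89.Perc.Pr_compl (localOn_sit h)

/-- Events depending on edges without a common vertex are independent. -/
theorem Pr_inter_of_disjoint (hA : LocalOn s A) (hB : LocalOn t B)
    (hst : Disjoint (hull s) (hull t)) : Pr p (A ∩ B) = Pr p A * Pr p B := by
  unfold Pr
  exact Pool.Agent.H89.Perc.Pr_inter_of_disjoint (localOn_sit hA) (localOn_sit hB) hst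

/-- Harris inequality for two increasing local events. -/
theorem fkg (hA : LocalOn s A) (hB : LocalOn t B) (iA : Incr A) (iB : Incr B) :
    Pr p A * Pr p B ≤ Pr p (A ∩ B) := by
  unfold Pr
  exact Pool.Agent.H89.Perc.fkg (localOn_sit hA) (localOn_sit hB) (incr_sit iA) (incr_sit iB)

/-- Harris inequality for two decreasing local events. -/
theorem fkg_decr (hA : LocalOn s A) (hB : LocalOn t B) (iA : Incr Aᶜ) (iB : Incr Bᶜ) :
    Pr p A * Pr p B ≤ Pr p (A ∩ B) := by
  unfold Pr
  exact Pool.Agent.H89.Perc.fkg_decr (localOn_sit hA) (localOn_sit hB) (incr_sit_compl iA)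
    (incr_sit_compl iB)

/-! ### Symmetries -/

/-- An edge map which comes from an injective map of the vertices. -/
def IsAut (φ : Edge → Edge) : Prop :=
  ∃ f : Vert → Vert, Function.Injective f ∧ ∀ e,
    (src (φ e) = f (src e) ∧ tgt (φ e) = f (tgt e)) ∨ (src (φ e) = f (tgt e) ∧ tgt (φ e) = f (src e))

theorem Pr_comp (hA : LocalOn s A) {φ : Edge → Edge} (hφ : IsAut φ) :
    Pr p {ω | (fun e => ω (φ e)) ∈ A} = Pr p A := by
  obtain ⟨f, hf, h⟩ := hφ
  unfold Pr
  have h1 : {ω : Config | sit ω ∈ {ω | (fun e => ω (φ e)) ∈ A}} =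
      {ω : Config | (fun e => ω (sv (f (src e)))) ∈ {ω | sit ω ∈ A}} := by
    ext ω
    have h2 : (fun e => sit ω (φ e)) = sit (fun e => ω (sv (f (src e)))) := by
      funext e
      simp only [sit]
      have e1 : src (sv (src e)) = src e := rfl
      have e2 : src (sv (tgt e)) = tgt e := rfl
      rcases h e with ⟨h3, h4⟩ | ⟨h3, h4⟩
      · rw [h3, h4, e1, e2]
      · rw [h3, h4, e1, e2, Bool.and_comm]
    simp only [Set.mem_ofPred_eq]
    rw [h2]
  rw [h1]
  refine Pool.Agent.H89.Perc.Pr_comp (s := hull s) (localOn_sit hA)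
    (φ := fun e => sv (f (src e))) ?_
  intro a ha b hb hab
  have hab' : f (src a) = f (src b) := sv_injective hab
  have hsrc := hf hab'
  have ha' := mem_hull.1 ha
  have hb' := mem_hull.1 hb
  have key : ∀ g : Edge, (∃ e ∈ s, g = sv (src e) ∨ g = sv (tgt e)) → g = sv (src g) := by
    rintro g ⟨e, -, rfl | rfl⟩ <;> rfl
  rw [key a ha', key b hb', hsrc]

theorem isAut_swap : IsAut swapE := by
  refine ⟨fun w => (w.2, w.1), ?_, ?_⟩
  · rintro ⟨a, b⟩ ⟨c, d⟩ h
    simp only [Prod.mk.injEq] at h ⊢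
    exact ⟨h.2, h.1⟩
  · rintro ⟨x, y, t⟩
    left
    cases t <;> exact ⟨rfl, rfl⟩

theorem Pr_vcross_eq_hcross {a b c d : ℤ} :
    Pr p {ω | VCross ω c d a b} = Pr p {ω | HCross ω a b c d} := by
  rw [← Pr_comp (localOn_vcross c d a b) isAut_swap]
  congr 1
  ext ω
  exact vcross_swap

/-! ### One-arm events -/

/-! ### The box-crossing regime -/

end Pool.Agent.H83.SK

end

section

/-!
# Near-critical site percolation: definitions and interfaces

Four-arm events are sets of bond configurations (used for `sit w`), torus events are sets of site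
configurations. `a4 q r` is the probability that the origin has two neighbours which are joined to
distance `r` by open paths avoiding the origin and which are not joined to each other by such a
path.
-/

set_option autoImplicit false

open MeasureTheory ProbabilityTheory unitInterval

namespace Pool.Agent.H92.SN

open Pool.Agent.H89.Perc
open Pool.Agent.H83.SK (sv sit)

/-! ### Interfaces -/

/-! ### The connection of the neighbours of a site -/

end Pool.Agent.H92.SN

end

section

/-!
# Site percolation, RSW regime: crossings of all rectangles of bounded aspect ratio, both colours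
-/

open MeasureTheory ProbabilityTheory unitInterval

namespace Pool.Agent.H83.SK

open Pool.Agent.H89.Perc

/-- Without vertical crossings of two overlapping rectangles and without a horizontal crossing of
the overlap there is no vertical crossing of the union. -/
theorem novcross_glue {ω : Config} {a a' b b' c d : ℤ} (haa : a ≤ a') (hab : a' ≤ b)
    (hbb : b ≤ b') (h1 : ¬ VCross ω a b c d) (h2 : ¬ HCross ω a' b c d)
    (h3 : ¬ VCross ω a' b' c d) : ¬ VCross ω a b' c d := by
  rintro ⟨u, v, hu, hv, h⟩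
  by_cases hA : ∃ w, Conn ω (rect a b' c d) u w ∧ b < w.1
  · by_cases hB : ∃ w, Conn ω (rect a b' c d) u w ∧ w.1 < a'
    · obtain ⟨w, hw, hw'⟩ := hA
      obtain ⟨z, hz, hz'⟩ := hB
      obtain ⟨x, y, hx, hy, hxy, -, -⟩ := (hz.symm.trans hw).cross_x hz'.le hw'.le hab
      refine h2 ⟨x, y, hx, hy, hxy.mono_set ?_⟩
      rintro t ⟨ht, ht'⟩
      simp only [rect, Set.mem_ofPred_eq] at ht ht' ⊢
      omega
    · push Not at hB
      refine h3 ⟨u, v, hu, hv, ?_⟩
      refine h.induction_right (P := fun y => Conn ω (rect a' b' c d) u y) ?_ ?_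
      · refine Conn.refl ?_
        have k1 := h.mem_left
        have k2 := hB u (Conn.refl k1)
        simp only [rect, Set.mem_ofPred_eq] at k1 ⊢
        omega
      · intro x y hx hst ih
        have k1 := hst.2.1
        have k2 := hB y (hx.tail hst)
        refine ih.tail ⟨ih.mem_right, ?_, hst.2.2⟩
        simp only [rect, Set.mem_ofPred_eq] at k1 ⊢
        omega
  · push Not at hA
    refine h1 ⟨u, v, hu, hv, ?_⟩
    refine h.induction_right (P := fun y => Conn ω (rect a b c d) u y) ?_ ?_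
    · refine Conn.refl ?_
      have k1 := h.mem_left
      have k2 := hA u (Conn.refl k1)
      simp only [rect, Set.mem_ofPred_eq] at k1 ⊢
      omega
    · intro x y hx hst ih
      have k1 := hst.2.1
      have k2 := hA y (hx.tail hst)
      refine ih.tail ⟨ih.mem_right, ?_, hst.2.2⟩
      simp only [rect, Set.mem_ofPred_eq] at k1 ⊢
      omega

theorem decr_novcross (a b c d : ℤ) : Incr {ω | ¬ VCross ω a b c d}ᶜ := by
  have : {ω : Config | ¬ VCross ω a b c d}ᶜ = {ω | VCross ω a b c d} := by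
    ext ω
    simp
  rw [this]
  exact incr_vcross a b c d

theorem decr_nohcross (a b c d : ℤ) : Incr {ω | ¬ HCross ω a b c d}ᶜ := by
  have : {ω : Config | ¬ HCross ω a b c d}ᶜ = {ω | HCross ω a b c d} := by
    ext ω
    simp
  rw [this]
  exact incr_hcross a b c d

theorem localOn_novcross (a b c d : ℤ) : LocalOn (eRect a b c d) {ω | ¬ VCross ω a b c d} :=
  (localOn_vcross a b c d).compl

theorem localOn_nohcross (a b c d : ℤ) : LocalOn (eRect a b c d) {ω | ¬ HCross ω a b c d} :=
  (localOn_hcross a b c d).compl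

theorem Pr_novcross_eq {p : I} {a b c d : ℤ} :
    Pr p {ω | ¬ VCross ω c d a b} = Pr p {ω | ¬ HCross ω a b c d} := by
  have h1 := Pr_compl (p := p) (localOn_vcross c d a b)
  have h2 := Pr_compl (p := p) (localOn_hcross a b c d)
  rw [Pr_vcross_eq_hcross] at h1
  exact h1.trans h2.symm

end Pool.Agent.H83.SK

end

section

/-!
# RSW regime: probability of open circuits
-/

open MeasureTheory ProbabilityTheory unitInterval

namespace Pool.Agent.H83.SK

open Pool.Agent.H29.Sep

open Pool.Agent.H89.Perc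

end Pool.Agent.H83.SK

end

section

/-!
# Level-one inequality for block explorations
-/

set_option autoImplicit false

open MeasureTheory ProbabilityTheory unitInterval

namespace Pool.Agent.H13.SK

open Pool.Agent.H89.Perc
open Pool.Agent.Perc (Ex ind ind_of ind_of_not)

end Pool.Agent.H13.SK

end

section

/-!
# Level-one inequality for block explorations: events
-/

set_option autoImplicit false

open MeasureTheory ProbabilityTheory unitInterval

namespace Pool.Agent.H13.SK

open Pool.Agent.H89.Perc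
open Pool.Agent.Perc (Ex ind ind_of ind_of_not)

end Pool.Agent.H13.SK

end

section

/-!
# Site percolation on the torus: definitions

The sites of the torus of side `N` are the sites of the plane modulo `N`.  `sitT N ω` is the induced
periodic bond configuration.
-/

open MeasureTheory ProbabilityTheory unitInterval

namespace Pool.Agent.H83.SK

open Pool.Agent.H89.Perc

end Pool.Agent.H83.SK

end

section

/-!
# Site percolation: interfaces of the separation part

Everything is for densities `q` with `RSWreg c n q`; constants depend only on `c`.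
-/

open MeasureTheory ProbabilityTheory unitInterval

namespace Pool.Agent.H83.SK

open Pool.Agent.H89.Perc Pool.Agent.H29.Sep
open Pool.Agent.H59.EX (Src)

/-- The site `0` as a source: two of its neighbours (opposite for `b = false`, adjacent for
`b = true`), the four edges at `0` are closed. -/
def s4 (b : Bool) : Src where
  x := (1, 0)
  y := if b then (0, 1) else (-1, 0)
  E0 := star0
  hx := by simp [ball, rect]
  hy := by cases b <;> simp [ball, rect]
  hE := by
    intro e he
    simp only [star0, Finset.mem_insert, Finset.mem_singleton] at he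
    rcases he with rfl | rfl | rfl | rfl <;> simp [ball, rect, src, tgt]

end Pool.Agent.H83.SK

end

section

/-!
# Site percolation: exploration of clusters

`clus (sit w) D X` is the union of the clusters in `D` of the vertices of `X`; `Ucl w D X` is the
set of the sites which are needed to determine it. The sites off `Ucl w D X` are fresh.
-/

open MeasureTheory ProbabilityTheory unitInterval

namespace Pool.Agent.H83.SK

open Pool.Agent.H26.HP

open Pool.Agent.H89.Perc

variable {ω ω' : Config} {D X S U : Set Vert} {R : ℕ} {q : I}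

/-- The sites which determine the clusters of `X`. -/
def Ucl (w : Config) (D X : Set Vert) : Set Vert :=
  {v | v ∈ clus (sit w) D X ∨
    (v ∈ D ∧ ∃ a ∈ clus (sit w) D X, w (sv a) = true ∧ Adj a v)}

lemma clus_subset_Ucl {w : Config} : clus (sit w) D X ⊆ Ucl w D X := fun _ h => Or.inl h

lemma Ucl_subset {w : Config} : Ucl w D X ⊆ D := by
  rintro v (h | h)
  · exact clus_subset h
  · exact h.1

/-- The sites of a set of vertices. -/
noncomputable def siteF (R : ℕ) (U : Set Vert) : Finset Edge := by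
  classical exact ((bF R).filter (fun v => v ∈ U)).image sv

lemma mem_siteF {g : Edge} : g ∈ siteF R U ↔ ∃ v, v ∈ ball 0 R ∧ v ∈ U ∧ sv v = g := by
  classical
  simp only [siteF, Finset.mem_image, Finset.mem_filter, mem_bF, and_assoc]

lemma sv_mem_siteF {v : Vert} (hv : v ∈ ball 0 R) (hU : v ∈ U) : sv v ∈ siteF R U :=
  mem_siteF.2 ⟨v, hv, hU, rfl⟩

/-- The clusters of `X` and the determining sites are prescribed. -/
def FullU (D X S U : Set Vert) : Set Config := {w | clus (sit w) D X = S ∧ Ucl w D X = U}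

lemma localOn_fullU (hD : D ⊆ ball 0 R) : LocalOn (siteF R U) (FullU D X S U) := by
  rintro w w' h ⟨h1, h2⟩
  have hSU : S ⊆ U := by rw [← h1, ← h2]; exact clus_subset_Ucl
  have hUD : U ⊆ D := by rw [← h2]; exact Ucl_subset
  have hw : ∀ v ∈ U, w (sv v) = w' (sv v) := fun v hv => h _ (sv_mem_siteF (hD (hUD hv)) hv)
  have hnb : ∀ a ∈ S, w (sv a) = true → ∀ b ∈ D, Adj a b → b ∈ U := by
    intro a ha hwa b hb hab
    rw [← h2]
    exact Or.inr ⟨hb, a, h1 ▸ ha, hwa, hab⟩
  have h3 : clus (sit w') D X = S := by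
    ext v
    constructor
    · rintro ⟨x, hx, hc⟩
      refine hc.induction_right (P := fun y => y ∈ S) ?_ ?_
      · rw [← h1]; exact ⟨x, hx, Conn.refl hc.mem_left⟩
      · intro a b _ hab ha
        rw [step_sit] at hab
        obtain ⟨k1, k2, k3, k4, k5⟩ := hab
        have k6 : w (sv a) = true := by rw [hw a (hSU ha)]; exact k4
        have k7 : b ∈ U := hnb a ha k6 b k2 k3
        have k8 : w (sv b) = true := by rw [hw b k7]; exact k5
        rw [← h1] at ha ⊢
        exact mem_clus_of_conn ha (step_sit.2 ⟨k1, k2, k3, k6, k8⟩ : Step (sit w) D a b).conn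
    · intro hv
      rw [← h1] at hv
      obtain ⟨x, hx, hc⟩ := hv
      refine ⟨x, hx, ?_⟩
      refine hc.induction_right (P := fun y => Conn (sit w') D x y) (Conn.refl hc.mem_left) ?_
      intro a b ha hab ih
      have haS : a ∈ S := by rw [← h1]; exact ⟨x, hx, ha⟩
      have hbS : b ∈ S := by rw [← h1]; exact ⟨x, hx, ha.tail hab⟩
      rw [step_sit] at hab
      obtain ⟨k1, k2, k3, k4, k5⟩ := hab
      exact ih.tail (step_sit.2 ⟨k1, k2, k3, by rw [← hw a (hSU haS)]; exact k4,
        by rw [← hw b (hSU hbS)]; exact k5⟩)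
  refine ⟨h3, ?_⟩
  rw [← h2]
  ext v
  simp only [Ucl, Set.mem_ofPred_eq, h1, h3]
  constructor
  · rintro (k | ⟨k1, a, k2, k3, k4⟩)
    · exact Or.inl k
    · exact Or.inr ⟨k1, a, k2, by rw [hw a (hSU k2)]; exact k3, k4⟩
  · rintro (k | ⟨k1, a, k2, k3, k4⟩)
    · exact Or.inl k
    · exact Or.inr ⟨k1, a, k2, by rw [← hw a (hSU k2)]; exact k3, k4⟩

end Pool.Agent.H83.SK

end

section

/-!
# Conditional FKG and conditional independence after an exploration
-/

open MeasureTheory ProbabilityTheory unitInterval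

namespace Pool.Agent.H83.SK

open Pool.Agent.H89.Perc

variable {p : I}

end Pool.Agent.H83.SK

end
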