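import Pool.Agent.H94.BG.H31.PT.M07_4
import Pool.Agent.H94.BG.H31.PT.M22_1
import Pool.Agent.H94.BG.M17
import Pool.Agent.H94.BG.M21

/-! The parts of this file: H83.SK.P57.StdDet, H83.SK.P57.StdBad, H83.SK.PHP.Frame, H83.SK.PHP.Two, H83.SK.PHP.Three, H83.SK.PHP.Bad. -/

section

/-!
# Site percolation: the standard data
-/

open MeasureTheory ProbabilityTheory unitInterval

namespace Pool.Agent.H83.SK

open Pool.Agent.H57.EX

open Pool.Agent.H89.Perc Pool.Agent.H61.NC Pool.Agent.H29.Sep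

/-- The data of the planar gluing with terminals on the sphere of radius `R`. -/
def stdS (x y : Vert) (hx : x ∈ ball 0 2) (hy : y ∈ ball 0 2) (m R : ℕ) (L T : Set Vert)
    (hm : 10 ≤ m) (hR : 64 * m ≤ R) (hL : L ⊆ sphere 0 R) (hT : T ⊆ sphere 0 R) : Dat :=
  { std m R L T hm hR hL hT with x := x, y := y, hx := hx, hy := hy }

variable {x y : Vert} {hx : x ∈ ball 0 2} {hy : y ∈ ball 0 2} {m R : ℕ} {L T : Set Vert}
  {hm : 10 ≤ m} {hR : 64 * m ≤ R} {hL : L ⊆ sphere 0 R} {hT : T ⊆ sphere 0 R}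

theorem bd_stdS : (stdS x y hx hy m R L T hm hR hL hT).Bd = sphere 0 (16 * m) :=
  bd_std (m := m) (R := R) (L := L) (T := T) (hm := hm) (hR := hR) (hL := hL) (hT := hT)

private theorem sd_mem_dom {v : Vert} {t R : ℕ} (ht : 1 ≤ t) :
    v ∈ dom t R ↔ nrm v ≤ R ∧ (t : ℤ) ≤ nrm v := by
  rw [dom, Set.mem_sdiff, mem_ball_zero, mem_ball_zero]
  constructor
  · rintro ⟨h1, h2⟩
    exact ⟨h1, by omega⟩
  · rintro ⟨h1, h2⟩
    exact ⟨h1, by omega⟩

private theorem sd_dom_anti {t t' R : ℕ} (ht : 1 ≤ t) (h : t ≤ t') : dom t' R ⊆ dom t R := by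
  intro v hv
  rw [sd_mem_dom (by omega)] at hv
  rw [sd_mem_dom ht]
  exact ⟨hv.1, by omega⟩

private theorem sd_diff_sub {t' R : ℕ} {G : Set Vert} (hG : G ⊆ ball 0 R) :
    G \ ball 0 (t' - 1) ⊆ dom t' R := fun _ hv => ⟨hG hv.1, hv.2⟩

private theorem sd_reach {ω : Config} {G : Set Vert} {t' R : ℕ} {p u : Vert} (ht : 1 ≤ t')
    (hG : G ⊆ ball 0 R) (hc : Conn ω G p u) (hp : nrm p ≤ t') (hu : (t' : ℤ) ≤ nrm u) :
    ∃ v ∈ sphere 0 t', Conn ω (dom t' R) u v := by
  have hu' : u ∉ ball 0 (t' - 1) := by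
    rw [mem_ball_zero]
    omega
  obtain ⟨v, hv, hc'⟩ := leave_sphere ht hc (mem_ball_zero.2 hp) hu'
  exact ⟨v, hv, (hc'.mono_set (sd_diff_sub hG)).symm⟩

private theorem sd_GG_sub {s n : ℕ} {γ : ℕ → Vert} (hz : zone γ n s ⊆ ball 0 (17 * m)) :
    GG (stdS x y hx hy m R L T hm hR hL hT) s γ n ⊆ ball 0 R := by
  rintro v ((hv | hv) | hv)
  · change v ∈ ball 0 (4 * m) at hv
    rw [mem_ball_zero] at hv ⊢
    push_cast at hv
    omega
  · exact hv.1
  · have := hz hv
    rw [mem_ball_zero] at this ⊢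
    push_cast at this
    omega

private theorem sd_dom_GG {s n : ℕ} {γ : ℕ → Vert} :
    dom (64 * m) R ⊆ GG (stdS x y hx hy m R L T hm hR hL hT) s γ n := by
  intro v hv
  refine Or.inl (Or.inr ?_)
  exact sd_dom_anti (t := 16 * m) (t' := 64 * m) (by omega) (by omega) hv

theorem e1_BT {s n : ℕ} {γ : ℕ → Vert} {b b' : Vert} (hz : zone γ n s ⊆ ball 0 (17 * m)) :
    E1 (stdS x y hx hy m R L T hm hR hL hT) s b b'
        (GG (stdS x y hx hy m R L T hm hR hL hT) s γ n) ⊆ BT (64 * m) R L T := by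
  rintro ω ⟨⟨u, hu1, huL⟩, _, ⟨p, hp3, hp⟩, _, _, _, _, _, hd⟩
  have hGs := sd_GG_sub (x := x) (y := y) (hx := hx) (hy := hy) (m := m) (R := R) (L := L)
    (T := T) (hm := hm) (hR := hR) (hL := hL) (hT := hT) (γ := γ) (n := n) (s := s) hz
  set G := GG (stdS x y hx hy m R L T hm hR hL hT) s γ n with hG
  change u ∈ L at huL
  change p ∈ sphere 0 (16 * m) at hp
  have huR := mem_sphere_zero.1 (hL huL)
  rw [mem_sphere_zero] at hp
  have hxu : Conn ω G x u := mem_cl_iff.1 hu1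
  have hx2 : nrm x ≤ 2 := by
    have := mem_ball_zero.1 hx
    push_cast at this
    exact this
  obtain ⟨w, hwT, hwp⟩ := hp3
  change w ∈ T at hwT
  have hwR := mem_sphere_zero.1 (hT hwT)
  refine ⟨?_, ?_⟩
  · obtain ⟨v, hv, hc⟩ := sd_reach (t' := 64 * m) (by omega) hGs hxu
      (by push_cast; omega) (by push_cast; omega)
    refine ⟨u, huL, v, hv, hc, ?_⟩
    intro z hz' hcx
    have h1 : Conn ω G z u := (hcx.mono_set sd_dom_GG).symm
    have h2 : u ∈ cl ω G T := ⟨z, hz', h1⟩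
    exact Set.disjoint_left.1 hd hu1 h2
  · obtain ⟨v, hv, hc⟩ := sd_reach (t' := 64 * m) (by omega) hGs hwp.symm
      (by push_cast at hp ⊢; omega) (by push_cast; omega)
    exact ⟨w, hwT, v, hv, hc⟩

theorem fin_sub {s n : ℕ} {γ : ℕ → Vert} (hz : zone γ n s ⊆ ball 0 (17 * m)) :
    Fin (stdS x y hx hy m R L T hm hR hL hT) s γ n ⊆ Pool.Agent.H57.EX.Four x y R := by
  rintro ω ⟨⟨u, hu, huL⟩, w, hwT, hc⟩
  have hGs := sd_GG_sub (x := x) (y := y) (hx := hx) (hy := hy) (m := m) (R := R) (L := L)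
    (T := T) (hm := hm) (hR := hR) (hL := hL) (hT := hT) (γ := γ) (n := n) (s := s) hz
  refine ⟨⟨u, hL huL, mem_cl_iff.1 hu⟩, ⟨w, hT hwT, hc.mono_set (fun v hv => hGs hv.1)⟩, ?_⟩
  intro h
  exact hc.mem_left.2 (mem_cl_iff.2 h)

/-- The four-arm probability of a source is the one with the site `0` closed. -/
theorem four_s4 (q : I) (b : Bool) (r : ℕ) : Pr q (Pool.Agent.H59.EX.Four (s4 b) r) =
    PS q {sv 0} (Pool.Agent.H57.EX.Four (s4 b).x (s4 b).y r) := by
  have hcut : ∀ w : Config, (s4 b).cut (sit w) = sit (shut {sv 0} w) := by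
    intro w
    funext e
    have hstar : e ∈ star0 ↔ (src e = 0 ∨ tgt e = 0) := by
      obtain ⟨a, c, t⟩ := e
      cases t
      · simp only [star0, Finset.mem_insert, Finset.mem_singleton, Prod.mk.injEq, src, tgt,
          Bool.false_eq_true, if_false, Prod.ext_iff, Prod.fst_zero, Prod.snd_zero, and_true,
          and_false, or_false, false_or]
        omega
      · simp only [star0, Finset.mem_insert, Finset.mem_singleton, Prod.mk.injEq, src, tgt,
          if_true, Prod.ext_iff, Prod.fst_zero, Prod.snd_zero, and_true,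
          and_false, or_false, false_or, Bool.true_eq_false]
        omega
    have hsh : ∀ v : Vert, shut {sv 0} w (sv v) = (w (sv v) && decide (v ≠ 0)) := by
      intro v
      unfold shut
      by_cases h : v = 0
      · subst h
        simp
      · have h' : sv v ∉ ({sv 0} : Finset Edge) := by
          rw [Finset.mem_singleton]
          exact fun k => h (sv_injective k)
        simp [h, h']
    have hcutE : (s4 b).cut (sit w) e = true ↔ sit w e = true ∧ e ∉ star0 := by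
      unfold Pool.Agent.H59.EX.Src.cut Pool.Agent.H59.EX.closeS
      simp [s4]
    rw [Bool.eq_iff_iff, hcutE, hstar, sit_true, sit_true, hsh, hsh]
    simp only [Bool.and_eq_true, decide_eq_true_eq, not_or, ne_eq]
    tauto
  unfold Pr PS PrE
  congr 1
  ext w
  simp only [Set.mem_ofPred_eq]
  rw [← hcut w]
  exact Iff.rfl

end Pool.Agent.H83.SK

end

section

/-!
# The standard data: probability of the bad events
-/

open MeasureTheory ProbabilityTheory unitInterval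

namespace Pool.Agent.H83.SK

open Pool.Agent.H57.EX

open Pool.Agent.H89.Perc Pool.Agent.H61.NC Pool.Agent.H29.Sep

private theorem dom_subset {t R : ℕ} : dom t R ⊆ ball 0 R := fun _ h => h.1

/-- Sites of two domains at different distances. -/
theorem hull_eIn_disjoint {R R' : ℕ} {D D' : Set Vert} (h : D ⊆ ball 0 R) (h' : D' ⊆ ball 0 R')
    (hd : ∀ v, v ∈ D → v ∉ D') :
    Disjoint (hull (Pool.Agent.H57.EX.eIn R D)) (hull (Pool.Agent.H57.EX.eIn R' D')) := by
  refine disj_hull_of (S := D) (fun e he => (Pool.Agent.H57.EX.mem_eIn h).1 he) fun e he => ?_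
  have h1 := (Pool.Agent.H57.EX.mem_eIn h').1 he
  exact ⟨fun h2 => hd _ h2 h1.1, fun h2 => hd _ h2 h1.2⟩

theorem hull_eIn_V0 {V0 : Finset Edge} (hV0 : ∀ g ∈ V0, src g ∈ ball 0 2) {t R : ℕ}
    (ht : 4 ≤ t) : Disjoint (hull (Pool.Agent.H57.EX.eIn R (dom t R))) V0 := by
  rw [Finset.disjoint_left]
  intro g h1 h2
  have h3 := hV0 g h2
  obtain ⟨e, he, h4⟩ := mem_hull.1 h1
  have h5 := (Pool.Agent.H57.EX.mem_eIn (dom_subset (t := t))).1 he
  rcases h4 with rfl | rfl
  · exact h5.1.2 (ball_mono (by omega) h3)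
  · exact h5.2.2 (ball_mono (by omega) h3)

private theorem four_bt_bad {V0 : Finset Edge} (hV0 : ∀ g ∈ V0, src g ∈ ball 0 2) {x y : Vert}
    {m R r₁ t₁ : ℕ} {L T : Set Vert} {q : I} {A : Set Config} (hm : 10 ≤ m)
    (h1 : m < t₁) (h2 : r₁ < 64 * m)
    (hA : LocalOn (Pool.Agent.H57.EX.eIn r₁ (dom t₁ r₁)) A) :
    PS q V0 (Pool.Agent.H57.EX.Four x y m ∩ BT (64 * m) R L T ∩ A) =
      PS q V0 (Pool.Agent.H57.EX.Four x y m) * Pr q (BT (64 * m) R L T) * Pr q A := by
  classical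
  have d1 : Disjoint (hull (Pool.Agent.H57.EX.eIn m (ball 0 m)))
      (hull (Pool.Agent.H57.EX.eIn r₁ (dom t₁ r₁))) := by
    apply hull_eIn_disjoint subset_rfl dom_subset
    intro v hv hv'
    apply hv'.2
    exact ball_mono (by omega) hv
  have d2 : Disjoint (hull (Pool.Agent.H57.EX.eIn m (ball 0 m)))
      (hull (Pool.Agent.H57.EX.eIn R (dom (64 * m) R))) := by
    apply hull_eIn_disjoint subset_rfl dom_subset
    intro v hv hv'
    apply hv'.2
    exact ball_mono (by omega) hv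
  have d3 : Disjoint (hull (Pool.Agent.H57.EX.eIn R (dom (64 * m) R)))
      (hull (Pool.Agent.H57.EX.eIn r₁ (dom t₁ r₁))) := by
    apply hull_eIn_disjoint dom_subset dom_subset
    intro v hv hv'
    apply hv.2
    exact ball_mono (by omega) hv'.1
  have hFB : LocalOn (Pool.Agent.H57.EX.eIn m (ball 0 m) ∪ Pool.Agent.H57.EX.eIn R (dom (64 * m) R))
      (Pool.Agent.H57.EX.Four x y m ∩ BT (64 * m) R L T) := localOn_four.inter' localOn_BT
  have hu : Disjoint (hull (Pool.Agent.H57.EX.eIn m (ball 0 m) ∪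
      Pool.Agent.H57.EX.eIn R (dom (64 * m) R))) (hull (Pool.Agent.H57.EX.eIn r₁ (dom t₁ r₁))) := by
    rw [Finset.disjoint_left]
    intro g g1 g2
    obtain ⟨e, he, g3⟩ := mem_hull.1 g1
    rcases Finset.mem_union.1 he with he | he
    · exact Finset.disjoint_left.1 d1 (mem_hull.2 ⟨e, he, g3⟩) g2
    · exact Finset.disjoint_left.1 d3 (mem_hull.2 ⟨e, he, g3⟩) g2
  rw [PS_inter hFB hA hu, PS_inter localOn_four localOn_BT d2,
    PS_eq localOn_BT (hull_eIn_V0 hV0 (by omega)), PS_eq hA (hull_eIn_V0 hV0 (by omega))]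

/-- Probability of the bad events together with four arms inside and outside. -/
theorem bad_std (hI : BadIn) (hO : BadOut) : ∀ c : ℝ, 0 < c → ∃ C κ : ℝ, 0 < C ∧ 0 < κ ∧
    ∀ (V0 : Finset Edge) (x y : Vert) (m R n t ρ : ℕ) (q : I) (L T : Set Vert),
      (∀ g ∈ V0, src g ∈ ball 0 2) → 10 ≤ m → 64 * m ≤ R → R ≤ n →
      RSWreg c n q → 1 ≤ t → t ≤ ρ → ρ ≤ 2 * m →
      PS q V0 (Pool.Agent.H57.EX.Four x y m ∩ BT (64 * m) R L T ∩
          ({ω | ∃ z ∈ sphere 0 (4 * m), ω ∈ LocTwo (ball 0 (4 * m)) z t ρ} ∪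
            {ω | ∃ z ∈ sphere 0 (16 * m), ω ∈ LocTwo (dom (16 * m) R) z t ρ})) ≤
        C * ((m : ℝ) / ρ) * ((t : ℝ) / ρ) ^ κ * (PS q V0 (Pool.Agent.H57.EX.Four x y m) * Pr q (BT (64 * m) R L T)) := by
  intro c hc
  obtain ⟨C₁, κ₁, hC₁, hκ₁, H₁⟩ := hI c hc
  obtain ⟨C₂, κ₂, hC₂, hκ₂, H₂⟩ := hO c hc
  refine ⟨4 * C₁ + 16 * C₂, min κ₁ κ₂, by positivity, lt_min hκ₁ hκ₂, ?_⟩
  intro V0 x y m R n t ρ q L T hV0 hm hR hn hreg ht htρ hρ
  have hρ0 : (0 : ℝ) < ρ := by
    have : 0 < ρ := by omega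
    exact_mod_cast this
  have ht0 : (0 : ℝ) < t := by
    have : 0 < t := by omega
    exact_mod_cast this
  have hx0 : (0 : ℝ) < (t : ℝ) / ρ := div_pos ht0 hρ0
  have hx1 : (t : ℝ) / ρ ≤ 1 := by
    rw [div_le_one hρ0]
    exact_mod_cast htρ
  have ha4 : 0 ≤ PS q V0 (Pool.Agent.H57.EX.Four x y m) * Pr q (BT (64 * m) R L T) :=
    mul_nonneg PS_nonneg Pr_nonneg
  have hpw₁ : ((t : ℝ) / ρ) ^ κ₁ ≤ ((t : ℝ) / ρ) ^ (min κ₁ κ₂) :=
    Real.rpow_le_rpow_of_exponent_ge hx0 hx1 (min_le_left _ _)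
  have hpw₂ : ((t : ℝ) / ρ) ^ κ₂ ≤ ((t : ℝ) / ρ) ^ (min κ₁ κ₂) :=
    Real.rpow_le_rpow_of_exponent_ge hx0 hx1 (min_le_right _ _)
  have e1 : Pr q {ω | ∃ z ∈ sphere 0 (4 * m), ω ∈ LocTwo (ball 0 (4 * m)) z t ρ} ≤
      4 * C₁ * ((m : ℝ) / ρ) * ((t : ℝ) / ρ) ^ (min κ₁ κ₂) := by
    have h := H₁ n t ρ (4 * m) q ht htρ (by omega) (by omega) hreg
    refine h.trans ?_
    have h2 : C₁ * (((4 * m : ℕ) : ℝ) / ρ) = 4 * C₁ * ((m : ℝ) / ρ) := by
      push_cast
      ring
    rw [h2]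
    exact mul_le_mul_of_nonneg_left hpw₁ (by positivity)
  have e2 : Pr q {ω | ∃ z ∈ sphere 0 (16 * m), ω ∈ LocTwo (dom (16 * m) R) z t ρ} ≤
      16 * C₂ * ((m : ℝ) / ρ) * ((t : ℝ) / ρ) ^ (min κ₁ κ₂) := by
    have h := H₂ n t ρ (16 * m) q ht htρ (by omega) (by omega) hreg
    have h3 : {ω | ∃ z ∈ sphere 0 (16 * m), ω ∈ LocTwo (dom (16 * m) R) z t ρ} =
        {ω | ∃ z ∈ sphere 0 (16 * m), ω ∈ LocTwo (ball 0 (16 * m - 1))ᶜ z t ρ} := by
      ext ω
      constructor
      · rintro ⟨z, hz, h⟩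
        exact ⟨z, hz, locTwo_out_eq hR hρ hz ▸ h⟩
      · rintro ⟨z, hz, h⟩
        exact ⟨z, hz, (locTwo_out_eq hR hρ hz).symm ▸ h⟩
    rw [h3]
    refine h.trans ?_
    have h2 : C₂ * (((16 * m : ℕ) : ℝ) / ρ) = 16 * C₂ * ((m : ℝ) / ρ) := by
      push_cast
      ring
    rw [h2]
    exact mul_le_mul_of_nonneg_left hpw₂ (by positivity)
  rw [Set.inter_union_distrib_left]
  refine PS_union_le.trans ?_
  rw [four_bt_bad hV0 hm (by omega) (by omega) (localOn_locTwo_in hρ),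
    four_bt_bad hV0 hm (by omega) (by omega) (localOn_locTwo_out hρ)]
  have := mul_le_mul_of_nonneg_left e1 ha4
  have := mul_le_mul_of_nonneg_left e2 ha4
  nlinarith

end Pool.Agent.H83.SK

end

section

/-!
# The two-cluster event in the four half planes at an arbitrary point
-/

open MeasureTheory ProbabilityTheory unitInterval

namespace Pool.Agent.H83.SK

open Pool.Agent.H26.HP

open Pool.Agent.H89.Perc

open Pool.Agent.H29.Sep (LocTwo)

end Pool.Agent.H83.SK

end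

section

/-!
# Half plane: clusters which cross a half annulus and avoid one side of the base
-/

open MeasureTheory ProbabilityTheory unitInterval

namespace Pool.Agent.H83.SK

open Pool.Agent.H26.HP

open Pool.Agent.H89.Perc

end Pool.Agent.H83.SK

end

section

/-!
# Half plane: two disjoint crossing clusters

`U s r`: two different clusters of the half ball of radius `r` join `ball 0 s` to distance `r`.
Its probability is at most `C (s / r) ^ (1 + κ)`.
-/

open MeasureTheory ProbabilityTheory unitInterval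

namespace Pool.Agent.H83.SK

open Pool.Agent.H26.HP

open Pool.Agent.H89.Perc hiding rho

/-! ### Reflection -/

/-! ### Planarity -/

/-! ### Two clusters -/

end Pool.Agent.H83.SK

end

section

/-!
# Two clusters near a boundary point: the inner and the outer side of a square

Final output of the half-plane part: `badIn : BadIn` and `badOut : BadOut`.
-/

open MeasureTheory ProbabilityTheory unitInterval

namespace Pool.Agent.H83.SK

open Pool.Agent.H26.HP

open Pool.Agent.H89.Perc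

open Pool.Agent.H29.Sep (LocTwo)

end Pool.Agent.H83.SK

end
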