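import Pool.Agent.H94.BG.H31.PT.M02
import Pool.Agent.H94.BG.H31.PT.M03
import Pool.Agent.H94.BG.M01

/-! The parts of this file: H61.NC.Second, H85.Kes.BlockOSSS, H89.Perc.RSWKey, H89.Perc.DualityA, H89.Perc.RSW, H89.Perc.DualityB, H89.Perc.Circuit, H89.Perc.Decay, H59.EX.Defs, H59.EX.Out0, H29.Sep.ExplA, H29.Sep.ExplB, H26.HP.Expl, H59.EX.S0, H59.EX.Corr, H59.EX.Seal. -/

section

/-!
# Second derivative of the probability of a local event
-/

open MeasureTheory ProbabilityTheory unitInterval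

namespace Pool.Agent.H61.NC

open Pool.Agent.H89.Perc

end Pool.Agent.H61.NC

end

section

/-!
# The OSSS inequality for explorations that reveal whole blocks of edges
-/

open MeasureTheory ProbabilityTheory unitInterval

namespace Pool.Agent.H85.Kes

open Pool.Agent.H89.Perc
open Pool.Agent.Perc (Ex ind ind_of ind_of_not MonoOnF)

variable {κ : Type*} [DecidableEq κ]

variable {s β R}

/-! ### Version for local events -/

end Pool.Agent.H85.Kes

end

section

/-!
# The Russo-Seymour-Welsh lemma (version of Bollobas and Riordan)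
-/

open MeasureTheory ProbabilityTheory unitInterval

namespace Pool.Agent.H89.Perc

/-! ### The exploration from the left side of the square -/

/-- The examined edges when the explored set of faces is `Z`. -/
noncomputable def rkExpl (n : ℕ) (Z : Set Vert) : Finset Edge := by
  classical exact (eRect 0 n 0 n).filter (fun e => rkInner n e ∧ ∃ φ ∈ Z, IsFace φ e)

theorem mem_rkExpl {n : ℕ} {Z : Set Vert} {e : Edge} :
    e ∈ rkExpl n Z ↔ rkInner n e ∧ ∃ φ ∈ Z, IsFace φ e := by
  classical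
  unfold rkExpl
  rw [Finset.mem_filter]
  constructor
  · exact fun h => h.2
  · intro h
    refine ⟨?_, h⟩
    rw [mem_eRect]
    simp only [src, rect, Set.mem_ofPred_eq]
    rcases h.1 with h | h <;> omega

/-- The event that the explored set is `Z` depends only on the examined edges. -/
theorem localOn_rkE (n : ℕ) (Z : Set Vert) : LocalOn (rkExpl n Z) {ω | rkZ n ω = Z} := by
  intro ω ω' h hω
  rw [Set.mem_ofPred_eq] at hω ⊢
  have hagree : ∀ (e : Edge) (φ ψ : Vert), φ ∈ Z → Joins e φ ψ →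
      rkBc n ω (crossed e) = rkBc n ω' (crossed e) := by
    intro e φ ψ hφ hJ
    by_cases hin : rkInner n (crossed e)
    · rw [rkBc_inner hin, rkBc_inner hin]
      exact h _ (mem_rkExpl.2 ⟨hin, φ, hφ, (isFace_crossed hJ).1⟩)
    · rw [rkBc_not_inner hin, rkBc_not_inner hin]
  apply Set.Subset.antisymm
  · intro φ hφ
    refine Conn.induction_right (P := fun φ => φ ∈ Z) hφ (by rw [← hω]; exact rk_source_mem n ω) ?_
    rintro a b _ ⟨_, hb, e, hJ, ho⟩ ha
    have : rkBc n ω (crossed e) = false := by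
      rw [hagree e a b ha hJ]
      simpa [dual] using ho
    rw [← hω] at ha ⊢
    exact rkZ_step ha hb hJ this
  · intro φ hφ
    rw [← hω] at hφ
    refine Conn.induction_right (P := fun φ => φ ∈ rkZ n ω') hφ (rk_source_mem n ω') ?_
    rintro a b hca ⟨_, hb, e, hJ, ho⟩ ha
    have haZ : a ∈ Z := by rw [← hω]; exact hca
    have : rkBc n ω' (crossed e) = false := by
      rw [← hagree e a b haZ hJ]
      simpa [dual] using ho
    exact rkZ_step ha hb hJ this

section good

variable {n : ℕ} {Z : Set Vert}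

/-- Connectivity of the boundary (application of `sep`). -/
theorem RkGood.conn_T (hZ : RkGood n Z) {ω : Config} (hω : rkZ n ω = Z) {t t' : Vert}
    (ht : t ∈ rkT n Z) (ht' : t' ∈ rkT n Z) : Conn ω (rect 0 n 0 n) t t' := by
  obtain ⟨hts, e, he1, he2, hec, hef⟩ := ht
  obtain ⟨hts', e', he1', he2', hec', hef'⟩ := ht'
  have hD : rkK n Z ⊆ rect (-1) n (-1) n := fun _ h => (rkK_sub n Z h).1
  have hsep := sep (a := -1) (b := n) (c := -1) (d := n) (K := rkK n Z) hD
    (comp_connected) (compl_comp_connected hZ.sub (hZ.left 0 (by omega) (by omega)) hZ.conn)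
    ⟨he1, he2⟩ ⟨he1', he2'⟩ hec hec' hef hef'
    (by simp only [rect, Set.mem_ofPred_eq] at hts ⊢; omega)
    (by simp only [rect, Set.mem_ofPred_eq] at hts' ⊢; omega)
  have hmap := hsep.map_mem (ω' := ω) (T := rect 0 n 0 n) (fun φ => (φ.1 + 1, φ.2 + 1)) ?_ ?_
  · simpa using hmap
  · intro w hw
    simp only [rect, Set.mem_ofPred_eq] at hw ⊢
    omega
  · rintro ⟨x, y, b⟩ u v hu hv hJ ho
    refine ⟨(x + 1, y + 1, b), ?_, ?_⟩
    · have := joins_shift (1, 1) hJ
      simpa [shiftE] using this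
    · -- the crossed dual edge is a cut edge inside `D`
      have hxy : (x, y) ∈ rect (-1) ((n : ℤ) - 1) (-1) ((n : ℤ) - 1) ∧
          tgt (x, y, b) ∈ rect (-1) ((n : ℤ) - 1) (-1) ((n : ℤ) - 1) := by
        rcases hJ with ⟨h1, h2⟩ | ⟨h1, h2⟩
        · subst h1 h2; exact ⟨hu, hv⟩
        · subst h1 h2; exact ⟨hv, hu⟩
      have hcut : cutConfig (rkK n Z) (crossed (x, y, b)) = false := by
        simpa [dual] using ho
      have hin : src (crossed (x, y, b)) ∈ rkD n ∧ tgt (crossed (x, y, b)) ∈ rkD n := by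
        obtain ⟨h1, h2⟩ := hxy
        simp only [rect, Set.mem_ofPred_eq, tgt] at h1 h2
        cases b <;> simp [crossed, src, tgt, mem_rkD] at h1 h2 ⊢ <;> omega
      -- a cut edge is open in the modified configuration
      have hopen : rkBc n ω (crossed (crossed (x, y, b))) = true := by
        by_contra hcl
        rw [Bool.not_eq_true] at hcl
        rcases cut_comp hin hcut with ⟨h1, h2⟩ | ⟨h1, h2⟩
        · have h3 : tgt (crossed (x, y, b)) ∈ rkZ n ω :=
            rkZ_step (by rw [hω]; exact h1) hin.2 (joins_src_tgt _) hcl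
          rw [hω] at h3
          exact (rkK_sub n Z h2).2 h3
        · have h3 : src (crossed (x, y, b)) ∈ rkZ n ω :=
            rkZ_step (by rw [hω]; exact h1) hin.1 (joins_src_tgt _).symm hcl
          rw [hω] at h3
          exact (rkK_sub n Z h2).2 h3
      have hcc : crossed (crossed (x, y, b)) = (x + 1, y + 1, b) := by
        cases b <;> simp [crossed]
      rw [hcc] at hopen
      by_cases hi : rkInner n (x + 1, y + 1, b)
      · rwa [rkBc_inner hi] at hopen
      · rw [rkBc_not_inner hi] at hopen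
        simp only at hopen
        subst hopen
        exfalso
        apply hi
        left
        obtain ⟨h1, h2⟩ := hxy
        simp only [rect, Set.mem_ofPred_eq, tgt, if_true] at h1 h2
        exact ⟨rfl, by simp only; omega, by simp only; omega, by simp only; omega,
          by simp only; omega⟩

/-- The examined edges together with their mirror images. -/
noncomputable def rkB (n : ℕ) (Z : Set Vert) : Finset Edge :=
  rkExpl n Z ∪ (rkExpl n Z).image (reflY (2 * n))

theorem RkGood.notMem_expl (hn : 1 ≤ n) (hZ : RkGood n Z) {e : Edge} {u v : Vert}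
    (hJ : Joins e u v) (hu : u ∈ rkG n Z) : e ∉ rkExpl n Z := by
  intro he
  obtain ⟨-, φ, hφ, hf⟩ := mem_rkExpl.1 he
  have h1 := hu φ (isFace_around hJ hf).1
  have h2 := hZ.sub hφ
  rw [mem_rkD] at h2
  exact (rkK_sub n Z ((hZ.kk_low hn h2.2.1 h2.2.2.2).1 h1)).2 hφ

theorem RkGood.notMem_B (hn : 1 ≤ n) (hZ : RkGood n Z) {e : Edge} {u v : Vert}
    (hJ : Joins e u v) (hu : u ∈ rkG n Z) : e ∉ rkB n Z := by
  unfold rkB
  rw [Finset.mem_union, not_or]
  refine ⟨hZ.notMem_expl hn hJ hu, ?_⟩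
  rw [Finset.mem_image]
  rintro ⟨e', he', rfl⟩
  have h1 := joins_reflY (2 * (n : ℤ)) _ _ _ hJ
  rw [reflY_reflY] at h1
  exact hZ.notMem_expl hn h1 (rkG_refl.2 hu) he'

/-- Main geometric step: a horizontal crossing of the tall rectangle contains a path from the
right side to the boundary vertices or their mirror images that avoids the examined edges. -/
theorem RkGood.path (hn : 1 ≤ n) (hZ : RkGood n Z) {m : ℕ} (hmn : n ≤ m) {ω : Config}
    (hH : HCross ω 0 m 0 (2 * n)) :
    ∃ w t : Vert, w.1 = m ∧ (t ∈ rkT n Z ∨ (t.1, 2 * (n : ℤ) - t.2) ∈ rkT n Z) ∧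
      Conn (mask (rkB n Z) ω) (rect 0 m 0 (2 * n)) w t := by
  obtain ⟨l, w, hl, hw, hc⟩ := hH
  have hwR := hc.mem_right
  have hlR := hc.mem_left
  by_cases hwG : w ∈ rkG n Z
  · have hlG : l ∉ rkG n Z := by
      intro h
      exact hZ.kk_left (φ := (-1, l.2)) rfl (h _ (by simp [Around, hl]))
    obtain ⟨a, b, h1, h2, h3, -⟩ := hc.symm.exists_exit (T := rkG n Z) hwG hlG
    have haG : a ∈ rkG n Z := h1.mem_right.2
    have hstep : Step (mask (rkB n Z) ω) (rect 0 m 0 (2 * n)) a b := by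
      obtain ⟨ha, hb, e, hJ, ho⟩ := h2
      exact ⟨ha, hb, e, hJ, by rw [mask_of_notMem (hZ.notMem_B hn hJ haG)]; exact ho⟩
    refine ⟨w, b, hw, ?_, ?_⟩
    · obtain ⟨ha, hb, e, hJ, ho⟩ := h2
      apply hZ.mixed hn hb
      · refine ⟨src e, ?_, ?_⟩
        · exact (isFace_around hJ (Or.inl rfl)).2
        · exact haG _ (isFace_around hJ (Or.inl rfl)).1
      · by_contra hno
        push Not at hno
        exact h3 hno
    · have h4 : Conn (mask (rkB n Z) ω) (rect 0 m 0 (2 * n) ∩ rkG n Z) w a := by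
        refine Conn.congr ?_ h1
        intro e he _
        rw [mask_of_notMem (hZ.notMem_B hn (joins_src_tgt e) he.2)]
      exact (h4.mono_set Set.inter_subset_left).tail hstep
  · refine ⟨w, w, hw, hZ.mixed hn hwR ?_ ?_, Conn.refl hwR⟩
    · refine ⟨(w.1, w.2), by simp [Around], hZ.kk_right ?_ ?_ ?_⟩
      · simp only [hw]; exact_mod_cast hmn
      · simp only [rect, Set.mem_ofPred_eq] at hwR ⊢; omega
      · simp only [rect, Set.mem_ofPred_eq] at hwR ⊢; omega
    · by_contra hno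
      push Not at hno
      exact hwG hno

end good

/-! ### The probability estimate -/

/-- A path from the right side of the tall rectangle to `T` off the edges of `B`. -/
def rkY (n m : ℕ) (B : Finset Edge) (T : Set Vert) : Set Config :=
  {ω | ∃ w t : Vert, w.1 = m ∧ t ∈ T ∧ Conn (mask B ω) (rect 0 m 0 (2 * n)) w t}

theorem localOn_rkY (n m : ℕ) (B : Finset Edge) (T : Set Vert) :
    LocalOn (eRect 0 m 0 (2 * n) \ B) (rkY n m B T) := by
  rintro ω ω' h ⟨w, t, hw, ht, hc⟩
  refine ⟨w, t, hw, ht, Conn.congr ?_ hc⟩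
  intro e he _
  by_cases heB : e ∈ B
  · simp [mask, heB]
  · rw [mask_of_notMem heB, mask_of_notMem heB]
    exact h e (Finset.mem_sdiff.2 ⟨mem_eRect.2 he, heB⟩)

theorem Pr_rkY_refl {p : I} {n m : ℕ} {B : Finset Edge} (hB : ∀ e, reflY (2 * n) e ∈ B ↔ e ∈ B)
    (T : Set Vert) :
    Pr p (rkY n m B {t | (t.1, 2 * (n : ℤ) - t.2) ∈ T}) = Pr p (rkY n m B T) := by
  rw [← Pr_comp (localOn_rkY n m B T) (reflY_injective (2 * (n : ℤ))).injOn]
  congr 1
  ext ω
  have hm : mask B (fun e => ω (reflY (2 * n) e)) = fun e => mask B ω (reflY (2 * n) e) := by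
    funext e
    simp only [mask, hB]
  have hR : {w : Vert | (w.1, 2 * (n : ℤ) - w.2) ∈ rect 0 m 0 (2 * n)} = rect 0 m 0 (2 * n) := by
    ext w
    simp only [rect, Set.mem_ofPred_eq]
    omega
  simp only [rkY, Set.mem_ofPred_eq, hm, conn_reflY, hR]
  constructor
  · rintro ⟨w, t, hw, ht, hc⟩
    exact ⟨(w.1, 2 * (n : ℤ) - w.2), (t.1, 2 * (n : ℤ) - t.2), hw, ht, by simpa using hc⟩
  · rintro ⟨w, t, hw, ht, hc⟩
    exact ⟨(w.1, 2 * (n : ℤ) - w.2), (t.1, 2 * (n : ℤ) - t.2), hw, by simpa using ht, hc⟩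

theorem rkB_refl {n : ℕ} {Z : Set Vert} (e : Edge) :
    reflY (2 * n) e ∈ rkB n Z ↔ e ∈ rkB n Z := by
  have key : ∀ e, e ∈ rkB n Z → reflY (2 * n) e ∈ rkB n Z := by
    intro e he
    unfold rkB at he ⊢
    rw [Finset.mem_union] at he ⊢
    rcases he with he | he
    · exact Or.inr (Finset.mem_image_of_mem _ he)
    · obtain ⟨e', he', rfl⟩ := Finset.mem_image.1 he
      rw [reflY_reflY]
      exact Or.inl he'
  constructor
  · intro h
    have := key _ h
    rwa [reflY_reflY] at this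
  · exact key e

theorem rsw_key {p : I} {m n : ℕ} (hn : 1 ≤ n) (hmn : n ≤ m) :
    1 / 2 * Pr p {ω | VCross ω 0 n 0 n} * Pr p {ω | HCross ω 0 m 0 (2 * n)} ≤
      Pr p (XEvent m n) := by
  classical
  set DF : Finset Vert := Finset.Icc (-1 : ℤ) n ×ˢ Finset.Icc (-1 : ℤ) n with hDF
  set good : Finset (Finset Vert) := DF.powerset.filter (fun S => RkGood n (↑S : Set Vert))
    with hgood
  set E : Finset Vert → Set Config := fun S => {ω | rkZ n ω = (↑S : Set Vert)} with hE
  set Y : Finset Vert → Set Config := fun S => rkY n m (rkB n ↑S) (rkT n ↑S) with hY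
  have hlE : ∀ S : Finset Vert, LocalOn (rkExpl n (↑S : Set Vert)) (E S) := fun S => localOn_rkE n ↑S
  have hlY : ∀ S : Finset Vert, LocalOn (eRect 0 m 0 (2 * n) \ rkB n (↑S : Set Vert)) (Y S) := fun S => localOn_rkY _ _ _ _
  have hdisj : ∀ S : Finset Vert, Disjoint (rkExpl n (↑S : Set Vert))
      (eRect 0 m 0 (2 * n) \ rkB n (↑S : Set Vert)) := by
    intro S
    rw [Finset.disjoint_left]
    intro e he he'
    exact (Finset.mem_sdiff.1 he').2 (Finset.mem_union_left _ he)
  -- independence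
  have hind : ∀ S : Finset Vert, Pr p (E S ∩ Y S) = Pr p (E S) * Pr p (Y S) := fun S =>
    Pr_inter_of_disjoint (hlE S) (hlY S) (hdisj S)
  -- the lower bound for `Y`
  have hYlow : ∀ S ∈ good, 1 / 2 * Pr p {ω | HCross ω 0 m 0 (2 * n)} ≤ Pr p (Y S) := by
    intro S hS
    have hZ : RkGood n (↑S : Set Vert) := (Finset.mem_filter.1 hS).2
    have hsub : {ω | HCross ω 0 m 0 (2 * n)} ⊆ Y S ∪
        rkY n m (rkB n ↑S) {t | (t.1, 2 * (n : ℤ) - t.2) ∈ rkT n ↑S} := by
      intro ω hω
      obtain ⟨w, t, hw, ht, hc⟩ := hZ.path hn hmn hω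
      rcases ht with ht | ht
      · exact Or.inl ⟨w, t, hw, ht, hc⟩
      · exact Or.inr ⟨w, t, hw, ht, hc⟩
    have h1 := (Pr_mono (p := p) hsub).trans Pr_union_le
    rw [Pr_rkY_refl rkB_refl] at h1
    linarith
  -- the vertical crossing event
  have hV : Pr p {ω | VCross ω 0 n 0 n} ≤ ∑ S ∈ good, Pr p (E S) := by
    refine (Pr_mono ?_).trans (Pr_biUnion_le good E)
    intro ω hω
    have hg := rkGood_of_vcross hn hω
    have hcoe : (↑(DF.filter (fun φ => φ ∈ rkZ n ω)) : Set Vert) = rkZ n ω := by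
      ext φ
      simp only [Finset.coe_filter, Set.mem_ofPred_eq, hDF, Finset.mem_product, Finset.mem_Icc]
      constructor
      · exact fun h => h.2
      · intro h
        have := rkZ_subset n ω h
        rw [mem_rkD] at this
        exact ⟨⟨⟨this.1, this.2.1⟩, this.2.2.1, this.2.2.2⟩, h⟩
    rw [Set.mem_iUnion₂]
    refine ⟨DF.filter (fun φ => φ ∈ rkZ n ω), ?_, ?_⟩
    · rw [hgood, Finset.mem_filter, Finset.mem_powerset, hcoe]
      exact ⟨Finset.filter_subset _ _, hg⟩
    · simp only [hE, Set.mem_ofPred_eq, hcoe]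
  -- the union is contained in the event `X`
  have hX : (⋃ S ∈ good, E S ∩ Y S) ⊆ XEvent m n := by
    intro ω hω
    rw [Set.mem_iUnion₂] at hω
    obtain ⟨S, hS, hωE, hωY⟩ := hω
    have hZ : RkGood n (↑S : Set Vert) := (Finset.mem_filter.1 hS).2
    obtain ⟨w, t, hw, ht, hc⟩ := hωY
    obtain ⟨u, hu, hu0⟩ := hZ.bottom hn
    obtain ⟨v, hv, hvn⟩ := hZ.top hn
    refine ⟨u, v, w, hu0, hvn, hw, hZ.conn_T hωE hu hv, ?_⟩
    have h1 := hZ.conn_T hωE hu ht
    have h2 : Conn ω (rect 0 m 0 (2 * n)) u t := by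
      refine h1.mono_set ?_
      intro x hx
      simp only [rect, Set.mem_ofPred_eq] at hx ⊢
      omega
    exact h2.trans (hc.symm.mono le_rfl fun e he => mask_le he)
  have hsum : Pr p (⋃ S ∈ good, E S ∩ Y S) = ∑ S ∈ good, Pr p (E S ∩ Y S) := by
    unfold Pr
    refine measureReal_biUnion_finset ?_ ?_ (fun _ _ => measure_ne_top _ _)
    · intro S _ S' _ hne
      rw [Function.onFun, Set.disjoint_left]
      rintro ω ⟨h1, -⟩ ⟨h2, -⟩
      simp only [hE, Set.mem_ofPred_eq] at h1 h2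
      exact hne (Finset.coe_injective (h1.symm.trans h2))
    · intro S _
      exact (hlE S).measurableSet.inter (hlY S).measurableSet
  calc 1 / 2 * Pr p {ω | VCross ω 0 n 0 n} * Pr p {ω | HCross ω 0 m 0 (2 * n)}
      = Pr p {ω | VCross ω 0 n 0 n} * (1 / 2 * Pr p {ω | HCross ω 0 m 0 (2 * n)}) := by ring
    _ ≤ (∑ S ∈ good, Pr p (E S)) * (1 / 2 * Pr p {ω | HCross ω 0 m 0 (2 * n)}) :=
        mul_le_mul_of_nonneg_right hV (mul_nonneg (by norm_num) Pr_nonneg)
    _ = ∑ S ∈ good, Pr p (E S) * (1 / 2 * Pr p {ω | HCross ω 0 m 0 (2 * n)}) := by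
        rw [Finset.sum_mul]
    _ ≤ ∑ S ∈ good, Pr p (E S ∩ Y S) := by
        refine Finset.sum_le_sum fun S hS => ?_
        rw [hind S]
        exact mul_le_mul_of_nonneg_left (hYlow S hS) Pr_nonneg
    _ = Pr p (⋃ S ∈ good, E S ∩ Y S) := hsum.symm
    _ ≤ Pr p (XEvent m n) := Pr_mono hX

end Pool.Agent.H89.Perc

end

section

/-!
# Topology, part 3: rectangle duality
-/

namespace Pool.Agent.H89.Perc

end Pool.Agent.H89.Perc

end

section

/-!
# Russo-Seymour-Welsh at the self-dual point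
-/

open MeasureTheory ProbabilityTheory unitInterval

namespace Pool.Agent.H89.Perc

/-! ### The mirror image of `XEvent` -/

lemma rsw_localOn_XEvent {m n : ℕ} (hmn : n ≤ m) :
    LocalOn (eRect 0 m 0 (2 * n)) (XEvent m n) := by
  rintro ω ω' h ⟨u, v, w, hu, hv, hw, h1, h2⟩
  refine ⟨u, v, w, hu, hv, hw, Conn.congr (fun e he _ => h e (mem_eRect.2 ?_)) h1,
    Conn.congr (fun e he _ => h e (mem_eRect.2 he)) h2⟩
  exact rsw_rect_subset le_rfl (by exact_mod_cast hmn) le_rfl (by omega) he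

lemma rsw_localOn_XEvent' {m n : ℕ} (hmn : n ≤ m) :
    LocalOn (eRect ((n : ℤ) - m) n 0 (2 * n)) (rsw_XEvent' m n) := by
  rintro ω ω' h ⟨u, v, w, hu, hv, hw, h1, h2⟩
  refine ⟨u, v, w, hu, hv, hw, Conn.congr (fun e he _ => h e (mem_eRect.2 ?_)) h1,
    Conn.congr (fun e he _ => h e (mem_eRect.2 he)) h2⟩
  exact rsw_rect_subset (by omega) le_rfl le_rfl (by omega) he

lemma rsw_reflX_reflX (z : ℤ) (e : Edge) : reflX z (reflX z e) = e := by
  obtain ⟨x, y, t⟩ := e
  cases t <;> simp [reflX]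

lemma rsw_reflX_injective (z : ℤ) : Function.Injective (reflX z) := by
  intro e e' h
  rw [← rsw_reflX_reflX z e, h, rsw_reflX_reflX]

lemma rsw_XEvent'_eq (m n : ℕ) :
    {ω : Config | (fun e => ω (reflX n e)) ∈ XEvent m n} = rsw_XEvent' m n := by
  ext ω
  constructor
  · rintro ⟨u, v, w, hu, hv, hw, h1, h2⟩
    rw [conn_reflX] at h1 h2
    refine ⟨((n : ℤ) - u.1, u.2), ((n : ℤ) - v.1, v.2), ((n : ℤ) - w.1, w.2), hu, hv, ?_,
      h1.mono_set ?_, h2.mono_set ?_⟩
    · simp [hw]
    · rintro x ⟨hx1, hx2, hx3, hx4⟩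
      simp only at hx1 hx2 hx3 hx4
      exact ⟨by omega, by omega, hx3, hx4⟩
    · rintro x ⟨hx1, hx2, hx3, hx4⟩
      simp only at hx1 hx2 hx3 hx4
      exact ⟨by omega, by omega, hx3, hx4⟩
  · rintro ⟨u, v, w, hu, hv, hw, h1, h2⟩
    refine ⟨((n : ℤ) - u.1, u.2), ((n : ℤ) - v.1, v.2), ((n : ℤ) - w.1, w.2), hu, hv, ?_, ?_, ?_⟩
    · simp [hw]
    · rw [conn_reflX]
      simp only [sub_sub_cancel]
      refine h1.mono_set ?_
      rintro x ⟨hx1, hx2, hx3, hx4⟩
      exact ⟨by simp only; omega, by simp only; omega, hx3, hx4⟩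
    · rw [conn_reflX]
      simp only [sub_sub_cancel]
      refine h2.mono_set ?_
      rintro x ⟨hx1, hx2, hx3, hx4⟩
      exact ⟨by simp only; omega, by simp only; omega, hx3, hx4⟩

lemma rsw_Pr_XEvent' {p : I} {m n : ℕ} (hmn : n ≤ m) :
    Pr p (rsw_XEvent' m n) = Pr p (XEvent m n) := by
  rw [← rsw_XEvent'_eq, Pr_comp (rsw_localOn_XEvent hmn) (rsw_reflX_injective _).injOn]

theorem rsw_glue {p : I} {m n : ℕ} (hn : 1 ≤ n) (hmn : n ≤ m) :
    Pr p (XEvent m n) ^ 2 * Pr p {ω | HCross ω 0 n 0 n} ≤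
      Pr p {ω | HCross ω (n - m) m 0 (2 * n)} := by
  classical
  have hsub : (XEvent m n ∩ rsw_XEvent' m n) ∩ {ω | HCross ω 0 n 0 n} ⊆
      {ω | HCross ω (n - m) m 0 (2 * n)} := by
    rintro ω ⟨⟨⟨u, v, w, hu, hv, hw, h1, h2⟩, ⟨u', v', w', hu', hv', hw', h1', h2'⟩⟩,
      ⟨x, y, hx, hy, h3⟩⟩
    obtain ⟨z, hz1, hz2⟩ := cross h3 hx hy h1 hu hv
    obtain ⟨z', hz1', hz2'⟩ := cross h3 hx hy h1' hu' hv'
    have h4 : Conn ω (rect 0 n 0 n) u' u :=
      (hz2'.trans hz1'.symm).trans (hz1.trans hz2.symm)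
    refine ⟨w', w, hw', hw, ?_⟩
    have h5 : Conn ω (rect ((n : ℤ) - m) m 0 (2 * n)) w' u' :=
      (h2'.mono_set (rsw_rect_subset le_rfl (by exact_mod_cast hmn) le_rfl le_rfl)).symm
    have h6 : Conn ω (rect ((n : ℤ) - m) m 0 (2 * n)) u' u :=
      h4.mono_set (rsw_rect_subset (by omega) (by exact_mod_cast hmn) le_rfl (by omega))
    have h7 : Conn ω (rect ((n : ℤ) - m) m 0 (2 * n)) u w :=
      h2.mono_set (rsw_rect_subset (by omega) le_rfl le_rfl le_rfl)
    exact (h5.trans h6).trans h7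
  have h1 := fkg (p := p) (rsw_localOn_XEvent hmn) (rsw_localOn_XEvent' hmn)
    (rsw_incr_XEvent m n) (rsw_incr_XEvent' m n)
  have h2 := fkg (p := p) ((rsw_localOn_XEvent hmn).inter' (rsw_localOn_XEvent' hmn))
    (localOn_hcross 0 (n : ℤ) 0 (n : ℤ))
    ((rsw_incr_XEvent m n).inter (rsw_incr_XEvent' m n)) (incr_hcross 0 (n : ℤ) 0 (n : ℤ))
  rw [rsw_Pr_XEvent' hmn] at h1
  calc Pr p (XEvent m n) ^ 2 * Pr p {ω | HCross ω 0 n 0 n}
      ≤ Pr p (XEvent m n ∩ rsw_XEvent' m n) * Pr p {ω | HCross ω 0 n 0 n} := by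
        apply mul_le_mul_of_nonneg_right _ Pr_nonneg
        rw [sq]
        exact h1
    _ ≤ _ := h2.trans (Pr_mono hsub)

theorem half_le_hcross (n : ℕ) : 1 / 2 ≤ Pr half {ω | HCross ω 0 n 0 n} := by
  have h1 : (Set.univ : Set Config) ⊆ {ω | HCross ω 0 ((n : ℤ) + 1) 0 n} ∪
      {ω | dual ω ∈ {η | VCross η 0 n (-1) n}} := by
    intro ω _
    have := hcross_or_dual_vcross (ω := ω) (a := 0) (b := (n : ℤ) + 1) (c := 0) (d := n)
      (by omega) (by omega)
    rcases this with h | h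
    · exact Or.inl h
    · right
      simpa using h
  have h2 : (1 : ℝ) ≤ Pr half {ω | HCross ω 0 ((n : ℤ) + 1) 0 n} +
      Pr half {ω | dual ω ∈ {η | VCross η 0 n (-1) n}} := by
    rw [← Pr_univ (p := half)]
    exact (Pr_mono h1).trans Pr_union_le
  rw [Pr_dual (localOn_vcross 0 (n : ℤ) (-1) n), rsw_symm_half, Pr_vcross_eq_hcross] at h2
  have h3 : Pr half {ω | HCross ω (-1) n 0 n} = Pr half {ω | HCross ω 0 ((n : ℤ) + 1) 0 n} := by
    have := Pr_hcross_translate (p := half) (a := 0) (b := (n : ℤ) + 1) (c := 0) (d := n) (-1) 0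
    simpa using this
  rw [h3] at h2
  have h4 : Pr half {ω | HCross ω 0 ((n : ℤ) + 1) 0 n} ≤ Pr half {ω | HCross ω 0 n 0 n} := by
    apply Pr_mono
    intro ω h
    exact HCross.mono h le_rfl (by omega) (by omega) le_rfl le_rfl
  linarith

theorem half_le_vcross (n : ℕ) : 1 / 2 ≤ Pr half {ω | VCross ω 0 n 0 n} := by
  rw [Pr_vcross_eq_hcross]
  exact half_le_hcross n

/-- One step of the iteration: from width `m` to width `2 m - n`. -/
lemma rsw_step {m n : ℕ} (hn : 1 ≤ n) (hmn : n ≤ m) {x : ℝ} (hx : 0 ≤ x)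
    (h : x ≤ Pr half {ω | HCross ω 0 m 0 (2 * n)}) :
    x ^ 2 / 32 ≤ Pr half {ω | HCross ω 0 (2 * m - n) 0 (2 * n)} := by
  have h1 := rsw_key (p := half) hn hmn
  have h2 := rsw_glue (p := half) hn hmn
  have h3 : Pr half {ω | HCross ω (n - m) m 0 (2 * n)} =
      Pr half {ω | HCross ω 0 (2 * m - n) 0 (2 * n)} := by
    have := Pr_hcross_translate (p := half) (a := 0) (b := 2 * (m : ℤ) - n) (c := 0)
      (d := 2 * (n : ℤ)) ((n : ℤ) - m) 0
    rw [← this]
    congr 1
    ext ω
    simp only [zero_add, add_zero, Set.mem_ofPred_eq]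
    rw [show 2 * (m : ℤ) - n + (n - m) = m by ring]
  rw [h3] at h2
  have h4 := half_le_hcross n
  have h5 := half_le_vcross n
  have h6 : x / 4 ≤ Pr half (XEvent m n) := by
    refine le_trans ?_ h1
    have h7 : 0 ≤ Pr half {ω | VCross ω 0 n 0 n} := Pr_nonneg
    have h8 : 0 ≤ Pr half {ω | HCross ω 0 m 0 (2 * n)} := Pr_nonneg
    nlinarith
  have h9 : (x / 4) ^ 2 ≤ Pr half (XEvent m n) ^ 2 := by
    apply pow_le_pow_left₀ (by positivity) h6
  refine le_trans ?_ h2
  have h10 : 0 ≤ Pr half (XEvent m n) ^ 2 := by positivity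
  nlinarith

lemma rsw_even {n : ℕ} (hn : 1 ≤ n) :
    (1 / 2 : ℝ) ^ 91 ≤ Pr half {ω | HCross ω 0 (17 * n) 0 (2 * n)} := by
  have h1 : (1 / 2 : ℝ) ≤ Pr half {ω | HCross ω 0 ((2 * n : ℕ) : ℤ) 0 (2 * n)} := by
    have := half_le_hcross (2 * n)
    simpa using this
  have h2 := rsw_step hn (by omega) (by norm_num) h1
  have e2 : (2 : ℤ) * ((2 * n : ℕ) : ℤ) - n = ((3 * n : ℕ) : ℤ) := by push_cast; ring
  rw [e2] at h2
  have h3 := rsw_step hn (by omega) (by norm_num) h2
  have e3 : (2 : ℤ) * ((3 * n : ℕ) : ℤ) - n = ((5 * n : ℕ) : ℤ) := by push_cast; ring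
  rw [e3] at h3
  have h4 := rsw_step hn (by omega) (by norm_num) h3
  have e4 : (2 : ℤ) * ((5 * n : ℕ) : ℤ) - n = ((9 * n : ℕ) : ℤ) := by push_cast; ring
  rw [e4] at h4
  have h5 := rsw_step hn (by omega) (by norm_num) h4
  have e5 : (2 : ℤ) * ((9 * n : ℕ) : ℤ) - n = 17 * n := by push_cast; ring
  rw [e5] at h5
  refine le_trans ?_ h5
  norm_num

lemma rsw_edge (e : Edge) : (1 / 2 : ℝ) ≤ Pr half {ω | ω e = true} := by
  classical
  have hloc : LocalOn {e} {ω : Config | ω e = true} := by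
    intro ω ω' h hA
    have : ω e = ω' e := h e (by simp)
    simp only [Set.mem_ofPred_eq] at hA ⊢
    rw [← this]
    exact hA
  rw [Pr_eq_update hloc e]
  have h1 : {ω : Config | Function.update ω e true ∈ {ω : Config | ω e = true}} = Set.univ := by
    ext ω
    simp
  rw [h1, Pr_univ]
  have h2 : ((half : I) : ℝ) = 1 / 2 := rfl
  rw [h2]
  have h3 : 0 ≤ Pr half {ω : Config | Function.update ω e false ∈ {ω : Config | ω e = true}} :=
    Pr_nonneg
  linarith

lemma rsw_one : (1 / 16 : ℝ) ≤ Pr half {ω | HCross ω 0 4 0 1} := by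
  classical
  have hloc : ∀ e : Edge, LocalOn {e} {ω : Config | ω e = true} := by
    intro e ω ω' h hA
    have : ω e = ω' e := h e (by simp)
    simp only [Set.mem_ofPred_eq] at hA ⊢
    rw [← this]
    exact hA
  have hinc : ∀ e : Edge, Incr {ω : Config | ω e = true} := fun e ω ω' h hA => h e hA
  set A : ℤ → Set Config := fun i => {ω | ω (i, 0, false) = true} with hA
  have h01 := fkg (p := half) (hloc (0, 0, false)) (hloc (1, 0, false)) (hinc _) (hinc _)
  have h23 := fkg (p := half) (hloc (2, 0, false)) (hloc (3, 0, false)) (hinc _) (hinc _)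
  have h := fkg (p := half) ((hloc (0, 0, false)).inter' (hloc (1, 0, false)))
    ((hloc (2, 0, false)).inter' (hloc (3, 0, false))) ((hinc _).inter (hinc _))
    ((hinc _).inter (hinc _))
  have e0 := rsw_edge (0, 0, false)
  have e1 := rsw_edge (1, 0, false)
  have e2 := rsw_edge (2, 0, false)
  have e3 := rsw_edge (3, 0, false)
  have h01' : (1 / 4 : ℝ) ≤ Pr half ({ω : Config | ω (0, 0, false) = true} ∩
      {ω : Config | ω (1, 0, false) = true}) := by
    refine le_trans ?_ h01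
    nlinarith
  have h23' : (1 / 4 : ℝ) ≤ Pr half ({ω : Config | ω (2, 0, false) = true} ∩
      {ω : Config | ω (3, 0, false) = true}) := by
    refine le_trans ?_ h23
    nlinarith
  have h' : (1 / 16 : ℝ) ≤ Pr half (({ω : Config | ω (0, 0, false) = true} ∩
      {ω : Config | ω (1, 0, false) = true}) ∩ ({ω : Config | ω (2, 0, false) = true} ∩
      {ω : Config | ω (3, 0, false) = true})) := by
    refine le_trans ?_ h
    nlinarith
  refine h'.trans (Pr_mono ?_)
  rintro ω ⟨⟨w0, w1⟩, ⟨w2, w3⟩⟩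
  have hstep : ∀ i : ℤ, 0 ≤ i → i ≤ 3 → ω (i, 0, false) = true →
      Step ω (rect 0 4 0 1) (i, 0) (i + 1, 0) := by
    intro i hi hi' hw
    refine ⟨⟨hi, by simp only; omega, le_rfl, by norm_num⟩,
      ⟨by simp only; omega, by simp only; omega, le_rfl, by norm_num⟩,
      (i, 0, false), Or.inl ⟨rfl, rfl⟩, hw⟩
  refine ⟨(0, 0), (4, 0), rfl, rfl, ?_⟩
  have s0 := (hstep 0 (by norm_num) (by norm_num) w0).conn
  have s1 := hstep 1 (by norm_num) (by norm_num) w1
  have s2 := hstep 2 (by norm_num) (by norm_num) w2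
  have s3 := hstep 3 (by norm_num) (by norm_num) w3
  norm_num at s0 s1 s2 s3
  exact ((s0.tail s1).tail s2).tail s3

/-- Crossings of long rectangles. -/
theorem rsw : ∃ c > (0 : ℝ), ∀ m : ℕ, 1 ≤ m → c ≤ Pr half {ω | HCross ω 0 (4 * m) 0 m} := by
  refine ⟨(1 / 2 : ℝ) ^ 91, by positivity, fun m hm => ?_⟩
  by_cases h1 : m = 1
  · subst h1
    refine le_trans ?_ (le_trans rsw_one (le_of_eq ?_))
    · norm_num
    · norm_num
  · have hn : 1 ≤ m / 2 := by omega
    refine (rsw_even hn).trans (Pr_mono ?_)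
    intro ω h
    refine HCross.mono h le_rfl (by omega) ?_ le_rfl ?_
    · omega
    · omega

end Pool.Agent.H89.Perc

end

section

/-!
# Topology, part 4: gluing and blocking
-/

namespace Pool.Agent.H89.Perc

variable {ω : Config}

/-- Faces inside `ball 0 r`: a path from a face near `ball 0 s` to a boundary face. -/
def DArm (s r : ℕ) : Set Config :=
  {η | ∃ φ φ' : Vert, φ ∈ rect (-s - 1) s (-s - 1) s ∧ φ' ∈ rect (-r) (r - 1) (-r) (r - 1) ∧
    (φ'.1 = -r ∨ φ'.1 = r - 1 ∨ φ'.2 = -r ∨ φ'.2 = r - 1) ∧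
    Conn η (rect (-r) (r - 1) (-r) (r - 1)) φ φ'}

/-- Four long crossings block the annulus. -/
theorem block {s r : ℕ} (hs : s + 1 < r)
    (h1 : VCross ω (s + 1) (r - 1) (-r) r) (h2 : VCross ω (-r + 1) (-s - 1) (-r) r)
    (h3 : HCross ω (-r) r (s + 1) (r - 1)) (h4 : HCross ω (-r) r (-r + 1) (-s - 1)) :
    dual ω ∉ DArm s r := by
  rintro ⟨φ, φ', hφ, hφ', hb, hc⟩
  simp only [rect, Set.mem_ofPred_eq] at hφ hφ'
  rcases hb with hb | hb | hb | hb
  · -- left side
    obtain ⟨u, v, hu, hv, huv, -, -⟩ := hc.symm.cross_x (a := -r) (b := -s - 1) (by omega)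
      (by omega) (by omega)
    have := not_vcross_and_dual_hcross (by omega) h2
    rw [add_sub_cancel_right] at this
    refine this ⟨u, v, hu, hv, huv.mono_set ?_⟩
    rintro z ⟨hz1, hz2⟩
    simp only [rect, Set.mem_ofPred_eq] at hz1 hz2 ⊢
    omega
  · obtain ⟨u, v, hu, hv, huv, -, -⟩ := hc.cross_x (a := s) (b := r - 1) (by omega)
      (by omega) (by omega)
    have := not_vcross_and_dual_hcross (by omega) h1
    rw [add_sub_cancel_right] at this
    refine this ⟨u, v, hu, hv, huv.mono_set ?_⟩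
    rintro z ⟨hz1, hz2⟩
    simp only [rect, Set.mem_ofPred_eq] at hz1 hz2 ⊢
    omega
  · obtain ⟨u, v, hu, hv, huv, -, -⟩ := hc.symm.cross_y (a := -r) (b := -s - 1) (by omega)
      (by omega) (by omega)
    have := not_hcross_and_dual_vcross (by omega) h4
    rw [add_sub_cancel_right] at this
    refine this ⟨u, v, hu, hv, huv.mono_set ?_⟩
    rintro z ⟨hz1, hz2⟩
    simp only [rect, Set.mem_ofPred_eq] at hz1 hz2 ⊢
    omega
  · obtain ⟨u, v, hu, hv, huv, -, -⟩ := hc.cross_y (a := s) (b := r - 1) (by omega)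
      (by omega) (by omega)
    have := not_hcross_and_dual_vcross (by omega) h3
    rw [add_sub_cancel_right] at this
    refine this ⟨u, v, hu, hv, huv.mono_set ?_⟩
    rintro z ⟨hz1, hz2⟩
    simp only [rect, Set.mem_ofPred_eq] at hz1 hz2 ⊢
    omega

theorem armBox_subset_DArm {s r : ℕ} (hr : 1 ≤ r) : ArmBox 0 s r ⊆ DArm s r := by
  rintro ω ⟨w, hw, u, hu, hwu⟩
  have hu1 := hu.1
  have hu2 := hu.2
  have hwr := hwu.mem_left
  simp only [mem_ball, Prod.fst_zero, Prod.snd_zero] at hw hu1 hu2 hwr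
  by_cases hwD : w ∈ rect (-(r : ℤ)) (r - 1) (-r) (r - 1)
  · by_cases huD : u ∈ rect (-(r : ℤ)) (r - 1) (-r) (r - 1) ∧
        Conn ω (rect (-(r : ℤ)) (r - 1) (-r) (r - 1)) w u
    · refine ⟨w, u, ?_, huD.1, ?_, huD.2⟩
      · simp only [rect, Set.mem_ofPred_eq]; omega
      · have := huD.1
        simp only [rect, Set.mem_ofPred_eq] at this
        omega
    · -- some vertex on the path is a boundary face
      by_contra hno
      have key : Conn ω (rect (-(r : ℤ)) (r - 1) (-r) (r - 1)) w u := by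
        refine hwu.induction_right
          (P := fun z => Conn ω (rect (-(r : ℤ)) (r - 1) (-r) (r - 1)) w z) (Conn.refl hwD) ?_
        intro a b _ hab ha
        refine ha.tail ⟨ha.mem_right, ?_, hab.2.2⟩
        have g1 := ha.mem_right
        have g2 : ¬ (a.1 = -r ∨ a.1 = r - 1 ∨ a.2 = -r ∨ a.2 = r - 1) := by
          intro h
          refine hno ⟨w, a, ?_, g1, h, ha⟩
          simp only [rect, Set.mem_ofPred_eq]; omega
        have g3 := hab.fst_le
        have g4 := hab.snd_le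
        simp only [rect, Set.mem_ofPred_eq] at g1 ⊢
        omega
      exact huD ⟨key.mem_right, key⟩
  · refine ⟨(-r, -r), (-r, -r), ?_, ?_, Or.inl rfl, Conn.refl ?_⟩
    · simp only [rect, Set.mem_ofPred_eq] at hwD ⊢; omega
    · simp only [rect, Set.mem_ofPred_eq]; omega
    · simp only [rect, Set.mem_ofPred_eq]; omega

end Pool.Agent.H89.Perc

end

section

/-!
# Blocking circuits
-/

open MeasureTheory ProbabilityTheory unitInterval

namespace Pool.Agent.H89.Perc

lemma circuit_localOn_DArm (s r : ℕ) :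
    LocalOn (eRect (-r) (r - 1) (-r) (r - 1)) (DArm s r) := by
  rintro ω ω' h ⟨φ, φ', h1, h2, h3, h4⟩
  exact ⟨φ, φ', h1, h2, h3, Conn.congr (fun e he _ => h e (mem_eRect.2 he)) h4⟩

theorem localOn_dual_DArm (s r : ℕ) :
    LocalOn ((eRect (-r) (r - 1) (-r) (r - 1)).image crossed) {ω | dual ω ∉ DArm s r} :=
  (circuit_localOn_DArm s r).dual'.compl

/-- Blocking circuits exist with positive probability for `p ≥ 1 / 2`. -/
theorem circuit : ∃ c > (0 : ℝ), ∀ s r : ℕ, 1 ≤ s → 4 * (s + 1) ≤ r → ∀ p : I, half ≤ p →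
    c ≤ Pr p {ω | dual ω ∉ DArm s r} := by
  classical
  obtain ⟨c, hc, hrsw⟩ := rsw
  refine ⟨c ^ 4, by positivity, fun s r hs hr p hp => ?_⟩
  obtain ⟨m, hm⟩ : ∃ m : ℕ, r = m + s + 2 := ⟨r - s - 2, by omega⟩
  have hm1 : 1 ≤ m := by omega
  have h2r : 2 * r ≤ 4 * m := by omega
  -- the four crossings
  have key : ∀ t : ℤ, c ≤ Pr p {ω | HCross ω (-r) r t (t + m)} := by
    intro t
    have h1 : c ≤ Pr half {ω | HCross ω 0 (2 * r) 0 m} :=
      (hrsw m hm1).trans (Pr_mono fun ω h => HCross.mono h le_rfl (by omega) (by omega) le_rfl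
        le_rfl)
    have h2 := Pr_mono_param (localOn_hcross 0 (2 * (r : ℤ)) 0 m) (incr_hcross 0 (2 * (r : ℤ)) 0 m) hp
    have h3 := Pr_hcross_translate (p := p) (a := 0) (b := 2 * (r : ℤ)) (c := 0) (d := m) (-r) t
    have e1 : (0 : ℤ) + -r = -r := by ring
    have e2 : 2 * (r : ℤ) + -r = r := by ring
    have e3 : (0 : ℤ) + t = t := by ring
    have e4 : (m : ℤ) + t = t + m := by ring
    rw [e1, e2, e3, e4] at h3
    rw [h3]
    exact h1.trans h2
  have keyV : ∀ t : ℤ, c ≤ Pr p {ω | VCross ω t (t + m) (-r) r} := by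
    intro t
    rw [Pr_vcross_eq_hcross]
    exact key t
  have k1 := keyV (s + 1)
  have k2 := keyV (-r + 1)
  have k3 := key (s + 1)
  have k4 := key (-r + 1)
  have e1 : (s : ℤ) + 1 + m = r - 1 := by omega
  have e2 : -(r : ℤ) + 1 + m = -s - 1 := by omega
  rw [e1] at k1 k3
  rw [e2] at k2 k4
  have h12 := fkg (p := p) (localOn_vcross ((s : ℤ) + 1) (r - 1) (-r) r)
    (localOn_vcross (-(r : ℤ) + 1) (-s - 1) (-r) r) (incr_vcross _ _ _ _) (incr_vcross _ _ _ _)
  have h34 := fkg (p := p) (localOn_hcross (-(r : ℤ)) r (s + 1) (r - 1))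
    (localOn_hcross (-(r : ℤ)) r (-r + 1) (-s - 1)) (incr_hcross _ _ _ _) (incr_hcross _ _ _ _)
  have h1234 := fkg (p := p) ((localOn_vcross ((s : ℤ) + 1) (r - 1) (-r) r).inter'
      (localOn_vcross (-(r : ℤ) + 1) (-s - 1) (-r) r))
    ((localOn_hcross (-(r : ℤ)) r (s + 1) (r - 1)).inter'
      (localOn_hcross (-(r : ℤ)) r (-r + 1) (-s - 1)))
    ((incr_vcross _ _ _ _).inter (incr_vcross _ _ _ _))
    ((incr_hcross _ _ _ _).inter (incr_hcross _ _ _ _))
  have h12' := (mul_le_mul k1 k2 hc.le Pr_nonneg).trans h12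
  have h34' := (mul_le_mul k3 k4 hc.le Pr_nonneg).trans h34
  have h' := (mul_le_mul h12' h34' (by positivity) Pr_nonneg).trans h1234
  have e : c ^ 4 = c * c * (c * c) := by ring
  rw [e]
  refine h'.trans (Pr_mono ?_)
  rintro ω ⟨⟨w1, w2⟩, ⟨w3, w4⟩⟩
  exact block (by omega) w1 w2 w3 w4

end Pool.Agent.H89.Perc

end

section

/-!
# Decay of the one-arm probability at the self-dual point
-/

open MeasureTheory ProbabilityTheory unitInterval

namespace Pool.Agent.H89.Perc

/-- `DArm` is a local event. -/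
theorem decay_localOn_DArm (s r : ℕ) :
    LocalOn (eRect (-r) (r - 1) (-r) (r - 1)) (DArm s r) := by
  rintro ω ω' h ⟨φ, φ', h1, h2, h3, hc⟩
  exact ⟨φ, φ', h1, h2, h3, Conn.congr (fun e he _ => h e (mem_eRect.2 he)) hc⟩

/-- Edges with first endpoint in `ball 0 r`. -/
noncomputable def eBall (r : ℕ) : Finset Edge := eRect (-r) r (-r) r

lemma mem_eBall {r : ℕ} {e : Edge} : e ∈ eBall r ↔ src e ∈ ball 0 r := by
  rw [eBall, mem_eRect]
  simp only [ball, rect, Set.mem_ofPred_eq, Prod.fst_zero, Prod.snd_zero, zero_sub, zero_add]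

lemma eBall_subset {r r' : ℕ} (h : r ≤ r') : eBall r ⊆ eBall r' := fun _ he =>
  mem_eBall.2 (ball_subset_ball h (mem_eBall.1 he))

lemma localOn_ann [DecidableEq Edge] (s r : ℕ) : LocalOn (eBall r \ eBall s) (Ann s r) := by
  rintro ω ω' h ⟨w, hw, u, hu, hc⟩
  refine ⟨w, hw, u, hu, Conn.congr (fun e he _ => h e ?_) hc⟩
  rw [Finset.mem_sdiff, mem_eBall, mem_eBall]
  exact he

lemma arm_subset_ann {s r R : ℕ} (hs : s < r) (hr : r ≤ R) : Arm 0 R ⊆ Ann s r := by
  rintro ω ⟨u, hu, hc⟩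
  -- path to the sphere of radius `r`
  have h1 : ∃ x ∈ sphere 0 r, Conn ω (ball 0 R ∩ ball 0 r) 0 x := by
    refine hc.to_sphere self_mem_ball ?_
    obtain ⟨hb, h⟩ := hu
    by_cases h2 : u ∈ ball 0 r
    · refine Or.inr ⟨h2, ?_⟩
      simp only [mem_ball, Prod.fst_zero, Prod.snd_zero] at hb h h2 ⊢
      omega
    · exact Or.inl h2
  obtain ⟨x, hx, hc'⟩ := h1
  have hxs : x ∉ ball 0 s := by
    intro hxs
    obtain ⟨_, h⟩ := hx
    simp only [mem_ball, Prod.fst_zero, Prod.snd_zero] at hxs h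
    omega
  obtain ⟨w, w', hw, _, hst, hl⟩ := hc'.exists_last (T := ball 0 s) self_mem_ball hxs
  refine ⟨w', ?_, x, hx, hl.mono_set ?_⟩
  · have h2 := hst.fst_le
    have h3 := hst.snd_le
    simp only [mem_ball, Prod.fst_zero, Prod.snd_zero] at hw ⊢
    push_cast
    omega
  · exact fun y hy => ⟨hy.1.2, hy.2⟩

/-- Annulus crossings have probability bounded away from one. -/
theorem armBox_le : ∃ c > (0 : ℝ), ∀ s r : ℕ, 1 ≤ s → 4 * (s + 1) ≤ r →
    Pr half (ArmBox 0 s r) ≤ 1 - c := by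
  obtain ⟨c, hc, h⟩ := circuit
  refine ⟨c, hc, fun s r hs hr => ?_⟩
  have h1 := h s r hs hr half le_rfl
  have h2 := Pr_compl (p := half) (localOn_dual_DArm s r)
  have h3 : {ω : Config | dual ω ∉ DArm s r}ᶜ = {ω | dual ω ∈ DArm s r} := by
    ext ω
    simp only [Set.mem_compl_iff, Set.mem_ofPred_eq, not_not]
  rw [h3, Pr_dual (decay_localOn_DArm s r), σ_half] at h2
  have h4 : Pr half (ArmBox 0 s r) ≤ Pr half (DArm s r) :=
    Pr_mono (armBox_subset_DArm (by omega))
  linarith

end Pool.Agent.H89.Perc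

end

section

/-!
# Separated four-arm events: definitions

`Src` is a pair of points near the origin together with a set of closed edges (for instance the two
endpoints of an edge with the edge itself closed).  `Sep s d d' k` is the four-arm event to distance
`32 k` in which the cluster of `x` leaves the ball only through the mouth on side `d`, the cluster
of `y` only through the mouth on side `d'`, even if all edges in the two target rectangles
`T d k`, `T d' k` are opened, and both clusters contain a crossing of their target rectangle.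
-/

open MeasureTheory ProbabilityTheory unitInterval

namespace Pool.Agent.H59.EX

open Pool.Agent.H89.Perc

end Pool.Agent.H59.EX

end

section

/-!
# Outward separation: definitions for the stage scheme (abstract corridors)

`CorrData w ρ v d Z Nev`: a corridor `Z` starting at the boundary vertex `v` of `ball 0 (8 w)` and
containing the target rectangle `T d (4 w)`; if the increasing event `Nev` of the edges inside `Z`
happens, every path coming out of `ball v ρ` is joined inside `Z` to a fence of the target.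
-/

open MeasureTheory ProbabilityTheory unitInterval

namespace Pool.Agent.H59.EX

open Pool.Agent.H89.Perc

end Pool.Agent.H59.EX

end

section

/-!
# Exploration of full clusters and conditional FKG

`cl ω D X` is the open cluster of the vertex set `X` inside the vertex set `D`.  The event
`cl ω D X = S` only depends on the edges touching `S`; all other edges are fresh.
-/

open MeasureTheory ProbabilityTheory unitInterval

namespace Pool.Agent.H29.Sep

open Pool.Agent.H89.Perc

variable {p : I}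

end Pool.Agent.H29.Sep

end

section

/-!
# Conditional FKG and conditional independence after an exploration
-/

open MeasureTheory ProbabilityTheory unitInterval

namespace Pool.Agent.H29.Sep

open Pool.Agent.H89.Perc

variable {p : I}

end Pool.Agent.H29.Sep

end

section

/-!
# Exploration of clusters

`D` is a finite set of vertices, `clus ω D X` the union of the clusters in `D` of the vertices of
`X`.  Given this set, the edges of `D` which do not touch it are fresh.
-/

open MeasureTheory ProbabilityTheory unitInterval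

namespace Pool.Agent.H26.HP

open Pool.Agent.H89.Perc

variable {ω ω' : Config} {D X S : Set Vert} {R : ℕ} {q : I}

/-- The edges with both ends in `D`. -/
noncomputable def eIn (R : ℕ) (D : Set Vert) : Finset Edge := by
  classical exact (eBall R).filter (fun e => src e ∈ D ∧ tgt e ∈ D)

/-- The edges of `D` with at least one end in `S`. -/
noncomputable def eTouch (R : ℕ) (D S : Set Vert) : Finset Edge := by
  classical exact (eBall R).filter (fun e => (src e ∈ D ∧ tgt e ∈ D) ∧ (src e ∈ S ∨ tgt e ∈ S))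

lemma mem_eTouch {e : Edge} : e ∈ eTouch R D S ↔
    e ∈ eBall R ∧ (src e ∈ D ∧ tgt e ∈ D) ∧ (src e ∈ S ∨ tgt e ∈ S) := by
  classical
  simp only [eTouch, Finset.mem_filter]

lemma localOn_full (hD : D ⊆ ball 0 R) : LocalOn (eTouch R D S) (Full D X S) := by
  intro ω ω' h hω
  have hω' : clus ω D X = S := hω
  have hedge : ∀ a b : Vert, a ∈ S → Step ω D a b → Step ω' D a b := by
    rintro a b ha ⟨h1, h2, e, h3, h4⟩
    refine ⟨h1, h2, e, h3, ?_⟩
    rw [← h e, h4]
    rw [mem_eTouch]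
    rcases h3 with ⟨h5, h6⟩ | ⟨h5, h6⟩
    · exact ⟨mem_eBall.2 (hD (h5 ▸ h1)), ⟨h5 ▸ h1, h6 ▸ h2⟩, Or.inl (h5 ▸ ha)⟩
    · exact ⟨mem_eBall.2 (hD (h6 ▸ h2)), ⟨h6 ▸ h2, h5 ▸ h1⟩, Or.inr (h5 ▸ ha)⟩
  have hedge' : ∀ a b : Vert, a ∈ S → Step ω' D a b → Step ω D a b := by
    rintro a b ha ⟨h1, h2, e, h3, h4⟩
    refine ⟨h1, h2, e, h3, ?_⟩
    rw [h e, h4]
    rw [mem_eTouch]
    rcases h3 with ⟨h5, h6⟩ | ⟨h5, h6⟩
    · exact ⟨mem_eBall.2 (hD (h5 ▸ h1)), ⟨h5 ▸ h1, h6 ▸ h2⟩, Or.inl (h5 ▸ ha)⟩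
    · exact ⟨mem_eBall.2 (hD (h6 ▸ h2)), ⟨h6 ▸ h2, h5 ▸ h1⟩, Or.inr (h5 ▸ ha)⟩
  show clus ω' D X = S
  ext v
  constructor
  · rintro ⟨x, hx, hc⟩
    refine hc.induction_right (P := fun y => y ∈ S) ?_ ?_
    · rw [← hω']; exact ⟨x, hx, Conn.refl hc.mem_left⟩
    · intro a b _ hab ha
      rw [← hω'] at ha ⊢
      exact mem_clus_of_conn ha (hedge' a b (hω' ▸ ha) hab).conn
  · intro hv
    rw [← hω'] at hv
    obtain ⟨x, hx, hc⟩ := hv
    refine ⟨x, hx, ?_⟩
    refine hc.induction_right (P := fun y => Conn ω' D x y) (Conn.refl hc.mem_left) ?_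
    intro a b ha hab ih
    exact ih.tail (hedge a b (hω' ▸ ⟨x, hx, ha⟩) hab)

end Pool.Agent.H26.HP

end

section

/-!
# Probabilistic tools

Conditioning on the edges of a (possibly infinite) set `t`, and on the value of a random set.
-/

open MeasureTheory ProbabilityTheory unitInterval

namespace Pool.Agent.H59.EX

open Pool.Agent.H89.Perc

variable {q : I} {Λ : Finset Edge} {t : Set Edge} {A G H : Set Config}

/-- Independence: `A` depends on the edges of `t`, `H` on the other edges. -/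
theorem indep_cond (hA : LocalOn Λ A) (hA' : LocS t A) (hH : LocalOn Λ H) (hH' : LocS tᶜ H) :
    Pr q (A ∩ H) = Pr q A * Pr q H := by
  classical
  have h1 : LocalOn (Λ.filter (· ∈ t)) A :=
    localOn_of_locS hA hA' (fun e he het => Finset.mem_filter.2 ⟨he, het⟩)
  have h2 : LocalOn (Λ.filter (· ∉ t)) H :=
    localOn_of_locS hH hH' (fun e he het => Finset.mem_filter.2 ⟨he, het⟩)
  exact Pr_inter_of_disjoint h1 h2 (Finset.disjoint_filter_filter_not Λ Λ (· ∈ t))

private theorem fkg_aux (s : Finset Edge) : ∀ {s' : Finset Edge} {A G : Set Config},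
    LocalOn s A → LocalOn Λ G → Incr G → LocalOn s' H → Incr H → (∀ e ∈ s, e ∉ s') →
    Pr q (A ∩ G) * Pr q H ≤ Pr q (A ∩ G ∩ H) := by
  classical
  induction s using Finset.induction_on with
  | empty =>
    intro s' A G hA hG iG hH iH _
    rcases A.eq_empty_or_nonempty with h0 | ⟨ω₀, h0⟩
    · subst h0
      simp [Pr]
    · have hu : A = Set.univ := by
        ext ω
        simp only [Set.mem_univ, iff_true]
        exact hA ω₀ ω (fun e he => absurd he (Finset.notMem_empty e)) h0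
      subst hu
      rw [Set.univ_inter]
      exact fkg hG hH iG iH
  | @insert a s ha ih =>
    intro s' A G hA hG iG hH iH hdis
    have hAG : LocalOn (insert a s ∪ Λ) (A ∩ G) := LocalOn.inter' hA hG
    have hAGH : LocalOn (insert a s ∪ Λ ∪ s') (A ∩ G ∩ H) := LocalOn.inter' hAG hH
    have hH0 : ∀ b : Bool, {ω : Config | Function.update ω a b ∈ H} = H := by
      intro b
      have hloc : ∀ ω : Config, ∀ e ∈ s', Function.update ω a b e = ω e := by
        intro ω e he
        rw [Function.update_of_ne]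
        intro hea
        exact hdis a (Finset.mem_insert_self a s) (hea ▸ he)
      ext ω
      exact ⟨hH _ _ (hloc ω), hH _ _ (fun e he => (hloc ω e he).symm)⟩
    have key : ∀ b : Bool,
        Pr q {ω | Function.update ω a b ∈ A ∩ G} * Pr q H ≤
          Pr q {ω | Function.update ω a b ∈ A ∩ G ∩ H} := by
      intro b
      have h1 : LocalOn s {ω : Config | Function.update ω a b ∈ A} := by
        have := hA.update a b
        rwa [Finset.erase_insert ha] at this
      have h2 : LocalOn Λ {ω : Config | Function.update ω a b ∈ G} :=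
        (hG.update a b).mono (Finset.erase_subset a Λ)
      have h3 : Incr {ω : Config | Function.update ω a b ∈ G} := by
        intro ω ω' h hω
        refine iG _ _ (fun e he => ?_) hω
        by_cases hea : e = a
        · subst hea
          rw [Function.update_self] at he ⊢
          exact he
        · rw [Function.update_of_ne hea] at he ⊢
          exact h e he
      have h4 := ih (A := {ω : Config | Function.update ω a b ∈ A})
        (G := {ω : Config | Function.update ω a b ∈ G}) h1 h2 h3 hH iH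
        (fun e he => hdis e (Finset.mem_insert_of_mem he))
      have h5 : {ω : Config | Function.update ω a b ∈ A ∩ G ∩ H} =
          {ω : Config | Function.update ω a b ∈ A} ∩ {ω : Config | Function.update ω a b ∈ G} ∩
            H := by
        conv_rhs => rw [← hH0 b]
        rfl
      rw [h5]
      exact h4
    rw [Pr_eq_update hAG a, Pr_eq_update hAGH a]
    have h1 := mul_le_mul_of_nonneg_left (key true) (show (0 : ℝ) ≤ (q : ℝ) from q.2.1)
    have h2 := mul_le_mul_of_nonneg_left (key false)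
      (show (0 : ℝ) ≤ 1 - (q : ℝ) from sub_nonneg.2 q.2.2)
    linarith

/-- Conditional FKG: `A` depends on the edges of `t`, `G` and `H` are increasing, `H` depends only
on the edges outside `t`. -/
theorem fkg_cond (hA : LocalOn Λ A) (hA' : LocS t A) (hG : LocalOn Λ G) (iG : Incr G)
    (hH : LocalOn Λ H) (hH' : LocS tᶜ H) (iH : Incr H) :
    Pr q (A ∩ G) * Pr q H ≤ Pr q (A ∩ G ∩ H) := by
  classical
  have h1 : LocalOn (Λ.filter (· ∈ t)) A :=
    localOn_of_locS hA hA' (fun e he het => Finset.mem_filter.2 ⟨he, het⟩)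
  have h2 : LocalOn (Λ.filter (· ∉ t)) H :=
    localOn_of_locS hH hH' (fun e he het => Finset.mem_filter.2 ⟨he, het⟩)
  refine fkg_aux (Λ.filter (· ∈ t)) h1 hG iG h2 iH (fun e he he' => ?_)
  exact (Finset.mem_filter.1 he').2 (Finset.mem_filter.1 he).2

/-- Summation over the values of `X`. -/
theorem markov_sum {ι : Type*} {c : ℝ} (X : Config → ι) (Good : ι → Prop)
    (B C : ι → Set Config) (hX : ∀ i, LocalOn Λ {ω | X ω = i})
    (hB : ∀ i, LocalOn Λ (B i)) (hC : ∀ i, LocalOn Λ (C i))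
    (h : ∀ i, Good i → c * Pr q ({ω | X ω = i} ∩ B i) ≤ Pr q ({ω | X ω = i} ∩ C i)) :
    c * Pr q {ω | Good (X ω) ∧ ω ∈ B (X ω)} ≤ Pr q {ω | Good (X ω) ∧ ω ∈ C (X ω)} := by
  classical
  set F : Finset ι := (Λ.powerset.image (fun S => X (ofS S))).filter Good with hF
  have hval : ∀ ω : Config, X ω ∈ Λ.powerset.image (fun S => X (ofS S)) := by
    intro ω
    refine Finset.mem_image.2 ⟨Λ.filter (fun e => ω e = true),
      Finset.mem_powerset.2 (Finset.filter_subset _ _), ?_⟩
    have := hX (X ω) ω (ofS (Λ.filter (fun e => ω e = true))) (fun e he => ?_) rfl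
    · exact this
    · rw [ofS_apply]
      by_cases ho : ω e = true
      · simp [ho, he]
      · simp [ho]
  have hun : ∀ D : ι → Set Config, {ω | Good (X ω) ∧ ω ∈ D (X ω)} =
      ⋃ i ∈ F, ({ω | X ω = i} ∩ D i) := by
    intro D
    ext ω
    simp only [Set.mem_ofPred_eq, Set.mem_iUnion, Set.mem_inter_iff, hF, Finset.mem_filter,
      exists_prop]
    constructor
    · rintro ⟨h1, h2⟩
      exact ⟨X ω, ⟨hval ω, h1⟩, rfl, h2⟩
    · rintro ⟨i, ⟨_, h1⟩, h2, h3⟩
      subst h2
      exact ⟨h1, h3⟩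
  have hsum : ∀ D : ι → Set Config, (∀ i, LocalOn Λ (D i)) →
      Pr q {ω | Good (X ω) ∧ ω ∈ D (X ω)} = ∑ i ∈ F, Pr q ({ω | X ω = i} ∩ D i) := by
    intro D hD
    rw [hun D, Pr]
    refine measureReal_biUnion_finset ?_ ?_
    · intro i _ j _ hij
      refine Set.disjoint_left.2 ?_
      rintro ω ⟨h1, _⟩ ⟨h2, _⟩
      exact hij (h1.symm.trans h2)
    · intro i _
      exact ((hX i).inter (hD i)).measurableSet
  rw [hsum B hB, hsum C hC, Finset.mul_sum]
  refine Finset.sum_le_sum (fun i hi => ?_)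
  exact h i (Finset.mem_filter.1 hi).2

/-- Conditioning on the value of `X`, independent version. -/
theorem markov_indep {ι : Type*} {c : ℝ} (X : Config → ι) (Good : ι → Prop) (t : ι → Set Edge)
    (A H : ι → Set Config) (hX : ∀ i, LocalOn Λ {ω | X ω = i})
    (hX' : ∀ i, Good i → LocS (t i) {ω | X ω = i})
    (hA : ∀ i, LocalOn Λ (A i)) (hA' : ∀ i, Good i → LocS (t i) (A i))
    (hH : ∀ i, LocalOn Λ (H i)) (hH' : ∀ i, Good i → LocS (t i)ᶜ (H i))
    (hc : ∀ i, Good i → c ≤ Pr q (H i)) (hc0 : 0 ≤ c) :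
    c * Pr q {ω | Good (X ω) ∧ ω ∈ A (X ω)} ≤
      Pr q {ω | Good (X ω) ∧ ω ∈ A (X ω) ∧ ω ∈ H (X ω)} := by
  have _ := hc0
  refine markov_sum (q := q) (c := c) X Good A (fun i => A i ∩ H i) hX hA
    (fun i => (hA i).inter (hH i)) ?_
  intro i hi
  have h1 : LocS (t i) ({ω | X ω = i} ∩ A i) :=
    fun ω ω' h hω => ⟨hX' i hi ω ω' h hω.1, hA' i hi ω ω' h hω.2⟩
  have h2 := indep_cond (q := q) ((hX i).inter (hA i)) h1 (hH i) (hH' i hi)
  rw [Set.inter_assoc] at h2
  rw [h2, mul_comm]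
  exact mul_le_mul_of_nonneg_left (hc i hi) Pr_nonneg

end Pool.Agent.H59.EX

end

section

/-!
# The corridor lemma

`pb π ω` is the configuration `e ↦ ω (π e)`; `π = id` for the plane, the reduction modulo the
periods (and a translation) for the torus and for the cylinder.  Given a separated four-arm event,
increasing events inside the corridor `C` and arbitrary events `H` of the edges which are neither
inside `C` nor touch the two clusters (in the configuration with filled targets) can be added at the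
cost of constant factors.
-/

open MeasureTheory ProbabilityTheory unitInterval

namespace Pool.Agent.H59.EX

open Pool.Agent.H89.Perc

private theorem LocS.mono' {t t' : Set Edge} {A : Set Config} (h : LocS t A) (ht : t ⊆ t') :
    LocS t' A := fun _ _ hω => h _ _ fun e he => hω e (ht he)

private theorem LocS.inter' {t : Set Edge} {A B : Set Config} (h : LocS t A) (h' : LocS t B) :
    LocS t (A ∩ B) := fun ω ω' hω hm => ⟨h ω ω' hω hm.1, h' ω ω' hω hm.2⟩

private theorem LocS.localOn' {t : Set Edge} {Λ : Finset Edge} {A : Set Config} (h : LocS t A)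
    (ht : t ⊆ ↑Λ) : LocalOn Λ A := fun ω ω' hω => h ω ω' fun e he => hω e (by exact_mod_cast ht he)

private theorem locS_pb {π : Edge → Edge} {t : Set Edge} {A : Set Config} (h : LocS t A) :
    LocS (π '' t) {ω | pb π ω ∈ A} := fun _ _ hω hm =>
  h _ _ (fun e he => hω (π e) ⟨e, he, rfl⟩) hm

private theorem incr_pb {π : Edge → Edge} {A : Set Config} (h : Incr A) :
    Incr {ω | pb π ω ∈ A} := fun _ _ hω hm => h _ _ (fun e he => hω (π e) he) hm

private theorem inE_finite {S : Set Vert} (hS : S.Finite) : (inE S).Finite := by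
  refine ((hS.prod (Set.finite_univ (α := Bool))).image
    (fun z : Vert × Bool => ((z.1.1, z.1.2, z.2) : Edge))).subset ?_
  rintro ⟨a, b, t⟩ ⟨h1, -⟩
  exact ⟨((a, b), t), ⟨h1, trivial⟩, rfl⟩

private theorem rect_finite (a b c d : ℤ) : (rect a b c d).Finite := by
  refine Set.Finite.subset ((Set.finite_Icc a b).prod (Set.finite_Icc c d)) ?_
  rintro ⟨x, y⟩ ⟨h1, h2, h3, h4⟩
  exact ⟨⟨h1, h2⟩, ⟨h3, h4⟩⟩

private theorem T_finite (d : Side) (k : ℕ) : (T d k).Finite := by
  cases d <;> exact rect_finite _ _ _ _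

private theorem dom_finite (d d' : Side) (k : ℕ) : (dom d d' k).Finite :=
  (rect_finite _ _ _ _).union ((T_finite d k).union (T_finite d' k))

private theorem touch_mono {D S S' : Set Vert} (h : S ⊆ S') : touch D S ⊆ touch D S' :=
  fun _ he => ⟨he.1, he.2.imp (fun x => h x) fun x => h x⟩

/-- Configurations which agree on the edges touching the cluster of `x` have the same cluster. -/
private theorem clus_congr {ω ω' : Config} {D X : Set Vert}
    (h : ∀ e ∈ touch D (clus ω D X), ω e = ω' e) : clus ω' D X = clus ω D X :=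
  locS_clus D X (clus ω D X) ω ω' h rfl

private theorem conn_congr {ω ω' : Config} {D : Set Vert} {x v : Vert}
    (h : ∀ e ∈ touch D (clus ω D {x}), ω e = ω' e) (hc : Conn ω D x v) : Conn ω' D x v := by
  have h1 : v ∈ clus ω D {x} := ⟨x, rfl, hc⟩
  rw [← clus_congr h] at h1
  obtain ⟨y, hy, h2⟩ := h1
  rw [Set.mem_singleton_iff.1 hy] at h2
  exact h2

private theorem conn_congr' {ω ω' : Config} {D : Set Vert} {x v : Vert}
    (h : ∀ e ∈ inE D, ω e = ω' e) (hc : Conn ω D x v) : Conn ω' D x v :=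
  conn_congr (fun e he => h e he.1) hc

private theorem cut_congr (s : Src) {ω ω' : Config} {e : Edge} (h : ω e = ω' e) :
    s.cut ω e = s.cut ω' e := by
  simp only [Src.cut, closeS, h]

private theorem fill_congr {Z : Set Vert} {ω ω' : Config} {e : Edge}
    (h : e ∉ inE Z → ω e = ω' e) : fillV Z ω e = fillV Z ω' e := by
  by_cases he : e ∈ inE Z
  · simp [fillV, he]
  · simp [fillV, he, h he]

private theorem cut_mono (s : Src) {ω ω' : Config} (h : ∀ e, ω e = true → ω' e = true) (e : Edge)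
    (he : s.cut ω e = true) : s.cut ω' e = true := by
  simp only [Src.cut, closeS, Bool.and_eq_true, decide_eq_true_eq] at he ⊢
  exact ⟨h e he.1, he.2⟩

private theorem le_fill {Z : Set Vert} {ω : Config} (e : Edge) (he : ω e = true) :
    fillV Z ω e = true := by
  simp [fillV, he]

/-- A fence only looks at the edges of its target and at the edges touching the cluster. -/
private theorem fence_congr {d : Side} {k : ℕ} {ω ω' : Config} {D : Set Vert} {x : Vert}
    (h1 : ∀ e ∈ inE (T d k), ω e = ω' e) (h2 : ∀ e ∈ touch D (clus ω D {x}), ω e = ω' e)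
    (h : Fence d k ω D x) : Fence d k ω' D x := by
  cases d <;> obtain ⟨u, v, hu, hv, k1, k2⟩ := h <;>
    exact ⟨u, v, hu, hv, conn_congr' h1 k1, conn_congr h2 k2⟩

private theorem fence_mono {d : Side} {k : ℕ} {ω ω' : Config} {D : Set Vert} {x : Vert}
    (h1 : ∀ e, ω e = true → ω' e = true) (h : Fence d k ω D x) : Fence d k ω' D x := by
  cases d <;> obtain ⟨u, v, hu, hv, k1, k2⟩ := h <;>
    exact ⟨u, v, hu, hv, k1.mono le_rfl h1, k2.mono le_rfl h1⟩

/-- The part of `Sep` about the filled configuration. -/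
private def SepA (s : Src) (d d' : Side) (k : ℕ) : Set Config :=
  {ω | ¬ Conn (fillV (T d k ∪ T d' k) (s.cut ω)) (dom d d' k) s.x s.y ∧
    (∀ v ∈ sphere 0 (32 * k),
      Conn (fillV (T d k ∪ T d' k) (s.cut ω)) (dom d d' k) s.x v → v ∈ Mouth d k) ∧
    (∀ v ∈ sphere 0 (32 * k),
      Conn (fillV (T d k ∪ T d' k) (s.cut ω)) (dom d d' k) s.y v → v ∈ Mouth d' k)}

/-- The increasing part of `Sep`. -/
private def SepG (s : Src) (d d' : Side) (k : ℕ) : Set Config :=
  {ω | Fence d k (s.cut ω) (dom d d' k) s.x ∧ Fence d' k (s.cut ω) (dom d d' k) s.y}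

private theorem sep_eq (s : Src) (d d' : Side) (k : ℕ) : Sep s d d' k = SepA s d d' k ∩ SepG s d d' k := by
  ext ω
  simp only [Sep, SepA, SepG, Set.mem_ofPred_eq, Set.mem_inter_iff]
  tauto

private theorem T_sub_dom (d d' : Side) (k : ℕ) : T d k ⊆ dom d d' k := fun _ h => Or.inr (Or.inl h)

private theorem T_sub_dom' (d d' : Side) (k : ℕ) : T d' k ⊆ dom d d' k :=
  fun _ h => Or.inr (Or.inr h)

private theorem inE_mono {S S' : Set Vert} (h : S ⊆ S') : inE S ⊆ inE S' :=
  fun _ he => ⟨h he.1, h he.2⟩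

private theorem locS_sepA (s : Src) (d d' : Side) (k : ℕ) :
    LocS (inE (dom d d' k) \ inE (T d k ∪ T d' k)) (SepA s d d' k) := by
  rintro ω ω' h ⟨h1, h2, h3⟩
  have key : ∀ e ∈ inE (dom d d' k), fillV (T d k ∪ T d' k) (s.cut ω') e =
      fillV (T d k ∪ T d' k) (s.cut ω) e := fun e he =>
    fill_congr fun hne => (cut_congr s (h e ⟨he, hne⟩)).symm
  exact ⟨fun hc => h1 (conn_congr' key hc), fun v hv hc => h2 v hv (conn_congr' key hc),
    fun v hv hc => h3 v hv (conn_congr' key hc)⟩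

private theorem locS_sepG (s : Src) (d d' : Side) (k : ℕ) :
    LocS (inE (dom d d' k)) (SepG s d d' k) := by
  rintro ω ω' h ⟨h1, h2⟩
  have key : ∀ e ∈ inE (dom d d' k), s.cut ω e = s.cut ω' e := fun e he => cut_congr s (h e he)
  exact ⟨fence_congr (fun e he => key e (inE_mono (T_sub_dom d d' k) he))
      (fun e he => key e he.1) h1,
    fence_congr (fun e he => key e (inE_mono (T_sub_dom' d d' k) he)) (fun e he => key e he.1) h2⟩

private theorem incr_sepG (s : Src) (d d' : Side) (k : ℕ) : Incr (SepG s d d' k) := by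
  rintro ω ω' h ⟨h1, h2⟩
  exact ⟨fence_mono (cut_mono s h) h1, fence_mono (cut_mono s h) h2⟩

private theorem locS_FX (s : Src) (d d' : Side) (k : ℕ) (S : Set Vert) :
    LocS (touch (dom d d' k) S) {ω | FX s d d' k ω = S} := by
  intro ω ω' h hω
  exact locS_clus _ _ S _ _ (fun e he => fill_congr fun _ => cut_congr s (h e he)) hω

private theorem locS_FY (s : Src) (d d' : Side) (k : ℕ) (S : Set Vert) :
    LocS (touch (dom d d' k) S) {ω | FY s d d' k ω = S} := by
  intro ω ω' h hω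
  exact locS_clus _ _ S _ _ (fun e he => fill_congr fun _ => cut_congr s (h e he)) hω

private theorem clus_cut_sub {s : Src} {ω : Config} {Z D X : Set Vert} :
    clus (s.cut ω) D X ⊆ clus (fillV Z (s.cut ω)) D X := by
  rintro v ⟨x, hx, hc⟩
  exact ⟨x, hx, hc.mono le_rfl fun e he => le_fill e he⟩

private theorem mem_FX {s : Src} {d d' : Side} {k : ℕ} {ω : Config} {v : Vert} :
    v ∈ FX s d d' k ω ↔ Conn (fillV (T d k ∪ T d' k) (s.cut ω)) (dom d d' k) s.x v := by
  simp [FX, clus]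

private theorem mem_FY {s : Src} {d d' : Side} {k : ℕ} {ω : Config} {v : Vert} :
    v ∈ FY s d d' k ω ↔ Conn (fillV (T d k ∪ T d' k) (s.cut ω)) (dom d d' k) s.y v := by
  simp [FY, clus]

/-- Once the two clusters are known, `Sep` is decided by the edges touching them and the edges in the
targets. -/
private theorem locS_sep_val (s : Src) (d d' : Side) (k : ℕ) {C : Set Vert}
    (hCT : T d k ∪ T d' k ⊆ C) (S S' : Set Vert) :
    LocS (touch (dom d d' k) (S ∪ S') ∪ inE C)
      {ω | ω ∈ Sep s d d' k ∧ FX s d d' k ω = S ∧ FY s d d' k ω = S'} := by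
  rintro ω ω' h ⟨⟨h1, h2, h3, h4, h5⟩, hX, hY⟩
  have hX' : FX s d d' k ω' = S := locS_FX s d d' k S ω ω'
    (fun e he => h e (Or.inl (touch_mono Set.subset_union_left he))) hX
  have hY' : FY s d d' k ω' = S' := locS_FY s d d' k S' ω ω'
    (fun e he => h e (Or.inl (touch_mono Set.subset_union_right he))) hY
  have cX : ∀ v, Conn (fillV (T d k ∪ T d' k) (s.cut ω')) (dom d d' k) s.x v →
      Conn (fillV (T d k ∪ T d' k) (s.cut ω)) (dom d d' k) s.x v := fun v hv => by
    rw [← mem_FX] at hv ⊢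
    rw [hX]
    rw [hX'] at hv
    exact hv
  have cY : ∀ v, Conn (fillV (T d k ∪ T d' k) (s.cut ω')) (dom d d' k) s.y v →
      Conn (fillV (T d k ∪ T d' k) (s.cut ω)) (dom d d' k) s.y v := fun v hv => by
    rw [← mem_FY] at hv ⊢
    rw [hY]
    rw [hY'] at hv
    exact hv
  refine ⟨⟨?_, ?_, fun hc => h3 (cX _ hc), fun v hv hc => h4 v hv (cX _ hc),
    fun v hv hc => h5 v hv (cY _ hc)⟩, hX', hY'⟩
  · refine fence_congr (fun e he => cut_congr s (h e (Or.inr ?_))) (fun e he => cut_congr s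
      (h e (Or.inl ?_))) h1
    · exact inE_mono (fun v hv => hCT (Or.inl hv)) he
    · refine touch_mono (fun v hv => Or.inl ?_) he
      rw [← hX]
      exact clus_cut_sub hv
  · refine fence_congr (fun e he => cut_congr s (h e (Or.inr ?_))) (fun e he => cut_congr s
      (h e (Or.inl ?_))) h2
    · exact inE_mono (fun v hv => hCT (Or.inr hv)) he
    · refine touch_mono (fun v hv => Or.inr ?_) he
      rw [← hY]
      exact clus_cut_sub hv

theorem corridor_prob {q : I} {π : Edge → Edge} {s : Src} {d d' : Side} {k : ℕ} (hk : 1 ≤ k)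
    {C : Set Vert} {Np : Set Config} {H : Set Vert → Set Config} {c₁ c₂ : ℝ} (hc₁ : 0 ≤ c₁)
    (hc₂ : 0 ≤ c₂) (hinj : Set.InjOn π (inE (dom d d' k ∪ C)))
    (hCT : T d k ∪ T d' k ⊆ C) (hC : C ∩ dom d d' k ⊆ T d k ∪ T d' k) (hCf : C.Finite)
    (hN : LocS (inE C) Np) (iN : Incr Np) (hN1 : c₁ ≤ Pr q {ω | pb π ω ∈ Np})
    (hH : ∀ S, LocS (det π d d' k C S)ᶜ (H S))
    (hHΛ : ∃ Λ : Finset Edge, ∀ S, LocalOn Λ (H S))
    (hH1 : ∀ S, c₂ ≤ Pr q {ω | pb π ω ∈ H S}) :
    c₁ * c₂ * Pr q (Sep s d d' k) ≤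
      Pr q {ω | pb π ω ∈ Sep s d d' k ∧ pb π ω ∈ Np ∧
        pb π ω ∈ H (FX s d d' k (pb π ω) ∪ FY s d d' k (pb π ω))} := by
  classical
  obtain ⟨ΛH, hΛH⟩ := hHΛ
  have hfin : (inE (dom d d' k ∪ C)).Finite := inE_finite ((dom_finite d d' k).union hCf)
  obtain ⟨Λ, hΛ⟩ : ∃ Λ : Finset Edge, Λ = (hfin.toFinset ∪ ΛH).image π := ⟨_, rfl⟩
  have hsub : ∀ t : Set Edge, t ⊆ inE (dom d d' k ∪ C) → π '' t ⊆ ↑Λ := by
    rintro t ht _ ⟨e, he, rfl⟩
    rw [hΛ, Finset.mem_coe]
    exact Finset.mem_image_of_mem _ (Finset.mem_union_left _ (hfin.mem_toFinset.2 (ht he)))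
  have hloc : ∀ {t : Set Edge} {A : Set Config}, LocS t A → t ⊆ inE (dom d d' k ∪ C) →
      LocalOn Λ {ω | pb π ω ∈ A} := fun h ht => (locS_pb h).localOn' (hsub _ ht)
  have hdomsub : inE (dom d d' k) ⊆ inE (dom d d' k ∪ C) := inE_mono Set.subset_union_left
  have hCsub : inE C ⊆ inE (dom d d' k ∪ C) := inE_mono Set.subset_union_right
  have hZdom : inE (dom d d' k) \ inE (T d k ∪ T d' k) ⊆ inE (dom d d' k ∪ C) :=
    fun e he => hdomsub he.1
  -- Step A
  have hA : c₁ * Pr q (Sep s d d' k) ≤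
      Pr q {ω | pb π ω ∈ Sep s d d' k ∧ pb π ω ∈ Np} := by
    have hdisj : π '' inE C ⊆ (π '' (inE (dom d d' k) \ inE (T d k ∪ T d' k)))ᶜ := by
      rintro _ ⟨e, he, rfl⟩ ⟨e', he', heq⟩
      have h1 : e' = e := hinj (hdomsub he'.1) (hCsub he) heq
      subst h1
      exact he'.2 ⟨hC ⟨he.1, he'.1.1⟩, hC ⟨he.2, he'.1.2⟩⟩
    have h1 := fkg_cond (q := q) (Λ := Λ)
      (t := π '' (inE (dom d d' k) \ inE (T d k ∪ T d' k)))
      (A := {ω | pb π ω ∈ SepA s d d' k}) (G := {ω | pb π ω ∈ SepG s d d' k})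
      (H := {ω | pb π ω ∈ Np})
      (hloc (locS_sepA s d d' k) hZdom) (locS_pb (locS_sepA s d d' k))
      (hloc (locS_sepG s d d' k) hdomsub) (incr_pb (incr_sepG s d d' k))
      (hloc hN hCsub) ((locS_pb hN).mono' hdisj) (incr_pb iN)
    have h2 : {ω | pb π ω ∈ SepA s d d' k} ∩ {ω | pb π ω ∈ SepG s d d' k} =
        {ω | pb π ω ∈ Sep s d d' k} := by
      rw [sep_eq]; rfl
    have h3 : Pr q {ω | pb π ω ∈ Sep s d d' k} = Pr q (Sep s d d' k) := by
      have hl : LocalOn (inE_finite (dom_finite d d' k)).toFinset (Sep s d d' k) := by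
        rw [sep_eq]
        refine LocS.localOn' (t := inE (dom d d' k)) ?_ (by simp)
        exact ((locS_sepA s d d' k).mono' Set.sdiff_subset).inter' (locS_sepG s d d' k)
      refine Pr_comp hl ?_
      intro e he e' he' heq
      rw [Set.Finite.coe_toFinset] at he he'
      exact hinj (hdomsub he) (hdomsub he') heq
    rw [h2, h3] at h1
    calc c₁ * Pr q (Sep s d d' k) ≤ Pr q (Sep s d d' k) * Pr q {ω | pb π ω ∈ Np} := by
          rw [mul_comm]
          exact mul_le_mul_of_nonneg_left hN1 Pr_nonneg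
      _ ≤ _ := h1
      _ ≤ _ := Pr_mono fun ω hω => hω
  -- Step B
  have hB := markov_indep (q := q) (Λ := Λ) (c := c₂)
    (fun ω => (FX s d d' k (pb π ω), FY s d d' k (pb π ω))) (fun _ => True)
    (fun i => π '' (touch (dom d d' k) (i.1 ∪ i.2) ∪ inE C))
    (fun i => {ω | pb π ω ∈ {η | η ∈ Sep s d d' k ∧ FX s d d' k η = i.1 ∧ FY s d d' k η = i.2} ∩ Np})
    (fun i => {ω | pb π ω ∈ H (i.1 ∪ i.2)}) ?_ ?_ ?_ ?_ ?_ ?_ ?_ hc₂
  · refine le_trans ?_ (hB.trans (Pr_mono ?_))
    · have e : c₁ * c₂ * Pr q (Sep s d d' k) = c₂ * (c₁ * Pr q (Sep s d d' k)) := by ring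
      rw [e]
      refine (mul_le_mul_of_nonneg_left hA hc₂).trans
        (mul_le_mul_of_nonneg_left (Pr_mono ?_) hc₂)
      intro ω hω
      exact ⟨trivial, ⟨hω.1, rfl, rfl⟩, hω.2⟩
    · intro ω hω
      exact ⟨hω.2.1.1.1, hω.2.1.2, hω.2.2⟩
  · -- the values are local
    rintro ⟨S, S'⟩
    have h1 : LocS (inE (dom d d' k)) {η | FX s d d' k η = S ∧ FY s d d' k η = S'} :=
      fun ω ω' h hω => ⟨locS_FX s d d' k S ω ω' (fun e he => h e he.1) hω.1,
        locS_FY s d d' k S' ω ω' (fun e he => h e he.1) hω.2⟩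
    have h2 := hloc h1 hdomsub
    have h3 : {ω | (FX s d d' k (pb π ω), FY s d d' k (pb π ω)) = (S, S')} =
        {ω | pb π ω ∈ {η | FX s d d' k η = S ∧ FY s d d' k η = S'}} := by
      ext ω
      simp only [Set.mem_ofPred_eq, Prod.mk.injEq]
    rw [h3]
    exact h2
  · rintro ⟨S, S'⟩ -
    have h1 : LocS (touch (dom d d' k) (S ∪ S') ∪ inE C)
        {η | FX s d d' k η = S ∧ FY s d d' k η = S'} :=
      fun ω ω' h hω => ⟨locS_FX s d d' k S ω ω'
          (fun e he => h e (Or.inl (touch_mono Set.subset_union_left he))) hω.1,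
        locS_FY s d d' k S' ω ω'
          (fun e he => h e (Or.inl (touch_mono Set.subset_union_right he))) hω.2⟩
    have h2 := locS_pb (π := π) h1
    have h3 : {ω | (FX s d d' k (pb π ω), FY s d d' k (pb π ω)) = (S, S')} =
        {ω | pb π ω ∈ {η | FX s d d' k η = S ∧ FY s d d' k η = S'}} := by
      ext ω
      simp only [Set.mem_ofPred_eq, Prod.mk.injEq]
    rw [h3]
    exact h2
  · rintro ⟨S, S'⟩
    refine hloc (t := touch (dom d d' k) (S ∪ S') ∪ inE C) ?_ ?_
    · exact (locS_sep_val s d d' k hCT S S').inter' (hN.mono' Set.subset_union_right)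
    · rintro e (he | he)
      · exact hdomsub he.1
      · exact hCsub he
  · rintro ⟨S, S'⟩ -
    exact locS_pb ((locS_sep_val s d d' k hCT S S').inter' (hN.mono' Set.subset_union_right))
  · rintro ⟨S, S'⟩ ω ω' h hω
    refine hΛH (S ∪ S') _ _ (fun e he => h (π e) ?_) hω
    rw [hΛ]
    exact Finset.mem_image_of_mem _ (Finset.mem_union_right _ he)
  · rintro ⟨S, S'⟩ - ω ω' h hω
    refine hH (S ∪ S') _ _ (fun e he => h (π e) ?_) hω
    rintro ⟨e', he', heq⟩
    exact he ⟨e', he', heq.symm⟩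
  · rintro ⟨S, S'⟩ -
    exact hH1 (S ∪ S')

end Pool.Agent.H59.EX

end

section

/-!
# Seals: confinement of clusters by closed annuli (purely graph-theoretic)
-/

open MeasureTheory ProbabilityTheory unitInterval

namespace Pool.Agent.H59.EX

open Pool.Agent.H89.Perc

/-- With the edges of `t` closed, no path leads from `ball g ρ` out of `ball g (3 ρ)`, for all
centres `g ∈ G`. -/
def Seal (G : Finset Vert) (ρ : ℕ) (t : Set Edge) : Set Config :=
  {ω | ∀ g ∈ G, ∀ u ∈ ball g ρ, ∀ v, v ∉ ball g (3 * ρ) → ¬ Conn (closeS t ω) Set.univ u v}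

end Pool.Agent.H59.EX

end
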