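import Pool.Agent.H94.BG.H31.PT.M02_1
import Pool.Agent.H94.BG.H31.PT.M03_2
import Pool.Agent.H94.BG.H31.PT.M07_5
import Pool.Agent.H94.BG.M02
import Pool.Agent.H94.BG.M03

/-! The parts of this file: H83.Site.Defs, H83.Site.TProb, H83.Site.DualN, H83.Site.Glue, H83.Site.Circ, H83.Site.DualE, H83.Site.Low, H83.Site.Expl, H83.Site.Renorm, H83.Site.ABLower, H83.Site.Transfer, H83.SK.Base, H92.SN.Defs, H83.SK.P29.Rect, H83.SK.P29.CircProb, H13.SK.BlockL1, H13.SK.BlockEv, H83.SK.Tor, H83.SK.Iface, H83.SK.PHP.Expl, H83.SK.P29.ExplB. -/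

section

/-!
# Site percolation on the centred square lattice

The vertices of the centred lattice `T` are the sites `(x, y, false)` of `ℤ²` and the centres
`(x, y, true)` of the unit squares `[x, x + 1] × [y, y + 1]`. Sites are adjacent to their four
nearest neighbours and every centre is adjacent to the four corners of its square. This is a
triangulation of the plane. A configuration is a function `Edge → Bool` (`Edge = ℤ × ℤ × Bool`
is used here as the set of vertices of `T`); `full r ω` is the configuration in which all centres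
have the state `r`. Open paths of `full false ω` are nearest neighbour paths of open sites, open
paths of `full true ω` are paths of open sites with diagonal steps.
-/

set_option autoImplicit false

open MeasureTheory ProbabilityTheory unitInterval

namespace Pool.Agent.H83.Site

open Pool.Agent.H89.Perc

/-! ### Geometry -/

/-! ### Paths -/

end Pool.Agent.H83.Site

end

section

/-!
# Probability of events of site percolation on the centred lattice
-/

set_option autoImplicit false

open MeasureTheory ProbabilityTheory unitInterval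

namespace Pool.Agent.H83.Site

open Pool.Agent.H89.Perc

variable {p q : I} {r : Bool} {E F : Set Config} {s t : Finset Edge}

/-! ### Local and increasing events -/

theorem localOn_full (r : Bool) (h : LocalOn s E) : LocalOn s {ω | full r ω ∈ E} := by
  intro ω ω' hω hE
  refine h _ _ (fun e he => ?_) hE
  simp only [full]
  split
  · rfl
  · exact hω e he

/-! ### Elementary properties of `PT` -/

theorem PT_nonneg : 0 ≤ PT p r E := Pr_nonneg

theorem PT_compl (h : LocalOn s E) : PT p r Eᶜ = 1 - PT p r E := by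
  have := Pr_compl (p := p) (localOn_full r h)
  exact this

theorem PT_fkg (hE : LocalOn s E) (hF : LocalOn t F) (iE : Incr E) (iF : Incr F) :
    PT p r E * PT p r F ≤ PT p r (E ∩ F) := by
  have := fkg (p := p) (localOn_full r hE) (localOn_full r hF) (incr_full r iE) (incr_full r iF)
  exact this

theorem PT_fkg_decr (hE : LocalOn s E) (hF : LocalOn t F) (iE : Incr Eᶜ) (iF : Incr Fᶜ) :
    PT p r E * PT p r F ≤ PT p r (E ∩ F) := by
  have := fkg_decr (p := p) (localOn_full r hE) (localOn_full r hF) (incr_full r iE)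
    (incr_full r iF)
  exact this

theorem PT_indep (hE : LocalOn s E) (hF : LocalOn t F) (hst : Disjoint s t) :
    PT p r (E ∩ F) = PT p r E * PT p r F := by
  have := Pr_inter_of_disjoint (p := p) (localOn_full r hE) (localOn_full r hF) hst
  exact this

theorem PT_mono_param (hE : LocalOn s E) (iE : Incr E) (hpq : p ≤ q) : PT p r E ≤ PT q r E :=
  Pr_mono_param (localOn_full r hE) (incr_full r iE) hpq

/-- Probabilities of local events are continuous functions of the density. -/
theorem PT_continuous (hE : LocalOn s E) (r : Bool) : Continuous (fun p : I => PT p r E) := by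
  have h : ∀ p : I, PT p r E = PrR s {ω | full r ω ∈ E} (p : ℝ) := fun p =>
    Pr_eq_PrR (localOn_full r hE) p
  simp only [h]
  exact (Pool.Agent.Perc.continuous_Ex s _).comp continuous_subtype_val

/-- Relabelling of the vertices. -/
theorem PT_comp (hE : LocalOn s E) {φ : TV → TV} (hφ : Set.InjOn φ s)
    (ht : ∀ v, (φ v).2.2 = v.2.2) : PT p r {η | (fun v => η (φ v)) ∈ E} = PT p r E := by
  unfold PT
  rw [← Pr_comp (localOn_full r hE) hφ]
  congr 1
  ext ω
  simp only [Set.mem_ofPred_eq]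
  have : (fun v => full r ω (φ v)) = full r (fun e => ω (φ e)) := by
    funext v
    simp only [full, ht]
  rw [this]

/-- Relabelling of the vertices and exchange of open and closed. -/
theorem PT_comp_not (hE : LocalOn s E) {φ : TV → TV} (hφ : Set.InjOn φ s)
    (ht : ∀ v, (φ v).2.2 = v.2.2) :
    PT p r {η | (fun v => !η (φ v)) ∈ E} = PT (σ p) (!r) E := by
  unfold PT
  rw [← Pr_comp_not (localOn_full (!r) hE) hφ]
  congr 1
  ext ω
  simp only [Set.mem_ofPred_eq]
  have : (fun v => !full r ω (φ v)) = full (!r) (fun e => !ω (φ e)) := by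
    funext v
    simp only [full, ht]
    split <;> rfl
  rw [this]

theorem PT_neg (hE : LocalOn s E) : PT p r {η | neg η ∈ E} = PT (σ p) (!r) E :=
  PT_comp_not hE (φ := id) (fun _ _ _ _ h => h) (fun _ => rfl)

/-! ### Symmetries -/

theorem fx_shf (x y : ℤ) (v : TV) : fx (shf x y v) = fx v + 2 * x := by
  obtain ⟨a, b, c⟩ := v
  cases c <;> simp [shf] <;> ring
theorem fy_shf (x y : ℤ) (v : TV) : fy (shf x y v) = fy v + 2 * y := by
  obtain ⟨a, b, c⟩ := v
  cases c <;> simp [shf] <;> ring

theorem rfx_rfx (z : ℤ) (v : TV) : rfx z (rfx z v) = v := by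
  obtain ⟨a, b, c⟩ := v
  cases c
  · simp [rfx]
  · simp only [rfx, if_true]; ext <;> simp <;> ring
theorem rfy_rfy (z : ℤ) (v : TV) : rfy z (rfy z v) = v := by
  obtain ⟨a, b, c⟩ := v
  cases c
  · simp [rfy]
  · simp only [rfy, if_true]; ext <;> simp <;> ring

theorem TR_shf (a b c d x y : ℤ) :
    {w : TV | shf (-x) (-y) w ∈ TR a b c d} = TR (a + x) (b + x) (c + y) (d + y) := by
  ext w
  simp only [Set.mem_ofPred_eq, mem_TR, fx_shf, fy_shf]
  omega

theorem tconn_shf {η : Config} {a b c d x y : ℤ} {u v : TV} :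
    TConn (fun v => η (shf x y v)) (TR a b c d) u v ↔
      TConn η (TR (a + x) (b + x) (c + y) (d + y)) (shf x y u) (shf x y v) := by
  rw [tconn_comp (shf_shf x y) (shf_shf' x y) (fun _ _ h => h.shf x y)
    (fun _ _ h => h.shf (-x) (-y)), TR_shf]

theorem tconn_rfx {η : Config} {a b c d z : ℤ} {u v : TV} :
    TConn (fun v => η (rfx z v)) (TR a b c d) u v ↔
      TConn η (TR (z - b) (z - a) c d) (rfx z u) (rfx z v) := by
  rw [tconn_comp (rfx_rfx z) (rfx_rfx z) (fun _ _ h => h.rfx z) (fun _ _ h => h.rfx z), TR_rfx]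

theorem tconn_rfy {η : Config} {a b c d z : ℤ} {u v : TV} :
    TConn (fun v => η (rfy z v)) (TR a b c d) u v ↔
      TConn η (TR a b (z - d) (z - c)) (rfy z u) (rfy z v) := by
  rw [tconn_comp (rfy_rfy z) (rfy_rfy z) (fun _ _ h => h.rfy z) (fun _ _ h => h.rfy z), TR_rfy]

theorem HC_shf {η : Config} {a b c d x y : ℤ} :
    HC (fun v => η (shf x y v)) a b c d ↔ HC η (a + x) (b + x) (c + y) (d + y) := by
  constructor
  · rintro ⟨z, z', h⟩
    rw [tconn_shf] at h
    exact ⟨z + y, z' + y, h⟩
  · rintro ⟨z, z', h⟩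
    refine ⟨z - y, z' - y, ?_⟩
    rw [tconn_shf]
    simpa [shf] using h

theorem VC_shf {η : Config} {a b c d x y : ℤ} :
    VC (fun v => η (shf x y v)) a b c d ↔ VC η (a + x) (b + x) (c + y) (d + y) := by
  constructor
  · rintro ⟨z, z', h⟩
    rw [tconn_shf] at h
    exact ⟨z + x, z' + x, h⟩
  · rintro ⟨z, z', h⟩
    refine ⟨z - x, z' - x, ?_⟩
    rw [tconn_shf]
    simpa [shf] using h

theorem rfx_injective (z : ℤ) : Function.Injective (rfx z) := fun u v h => by
  rw [← rfx_rfx z u, h, rfx_rfx]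

theorem rfy_injective (z : ℤ) : Function.Injective (rfy z) := fun u v h => by
  rw [← rfy_rfy z u, h, rfy_rfy]

/-- Translation invariance of crossing probabilities. -/
theorem PT_HC_shf (p : I) (r : Bool) (a b c d x y : ℤ) :
    PT p r {η | HC η (a + x) (b + x) (c + y) (d + y)} = PT p r {η | HC η a b c d} := by
  rw [← PT_comp (p := p) (r := r) (localOn_HC a b c d) (shf_injective x y).injOn (fun _ => rfl)]
  congr 1
  ext η
  exact HC_shf.symm

theorem PT_VC_shf (p : I) (r : Bool) (a b c d x y : ℤ) :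
    PT p r {η | VC η (a + x) (b + x) (c + y) (d + y)} = PT p r {η | VC η a b c d} := by
  rw [← PT_comp (p := p) (r := r) (localOn_VC a b c d) (shf_injective x y).injOn (fun _ => rfl)]
  congr 1
  ext η
  exact VC_shf.symm

/-- Reflection in the diagonal. -/
theorem PT_VC_eq_HC (p : I) (r : Bool) (a b c d : ℤ) :
    PT p r {η | VC η a b c d} = PT p r {η | HC η c d a b} := by
  rw [← PT_comp (p := p) (r := r) (localOn_HC c d a b) swp_injective.injOn (fun _ => rfl)]
  congr 1
  ext η
  exact HC_swp.symm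

theorem AB_shf (x y : ℤ) (k n : ℕ) :
    {η : Config | (fun v => η (shf x y v)) ∈ AB 0 0 k n} = AB x y k n := by
  ext η
  simp only [AB, Set.mem_ofPred_eq]
  constructor
  · rintro ⟨u, hu, w, hw, hc⟩
    rw [tconn_shf] at hc
    refine ⟨shf x y u, ?_, shf x y w, ?_, ?_⟩
    · rw [mem_TR] at hu ⊢; rw [fx_shf, fy_shf]; omega
    · obtain ⟨h1, h2, h3⟩ := hw
      refine ⟨?_, h2, ?_⟩
      · rw [mem_TR] at h1 ⊢; rw [fx_shf, fy_shf]; omega
      · simp only [shf]; omega
    · have e1 : (0 : ℤ) - n + x = x - n := by ring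
      have e2 : (0 : ℤ) + n + x = x + n := by ring
      have e3 : (0 : ℤ) - n + y = y - n := by ring
      have e4 : (0 : ℤ) + n + y = y + n := by ring
      rwa [e1, e2, e3, e4] at hc
  · rintro ⟨u, hu, w, hw, hc⟩
    refine ⟨shf (-x) (-y) u, ?_, shf (-x) (-y) w, ?_, ?_⟩
    · rw [mem_TR] at hu ⊢; rw [fx_shf, fy_shf]; omega
    · obtain ⟨h1, h2, h3⟩ := hw
      refine ⟨?_, h2, ?_⟩
      · rw [mem_TR] at h1 ⊢; rw [fx_shf, fy_shf]; omega
      · simp only [shf]; omega
    · rw [tconn_shf, shf_shf, shf_shf]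
      have e1 : (0 : ℤ) - n + x = x - n := by ring
      have e2 : (0 : ℤ) + n + x = x + n := by ring
      have e3 : (0 : ℤ) - n + y = y - n := by ring
      have e4 : (0 : ℤ) + n + y = y + n := by ring
      rw [e1, e2, e3, e4]
      exact hc

/-- Translation invariance of the arm probabilities. -/
theorem PT_AB (p : I) (r : Bool) (x y : ℤ) (k n : ℕ) : PT p r (AB x y k n) = ab p r k n := by
  rw [← AB_shf x y k n, PT_comp (localOn_AB 0 0 k n) (shf_injective x y).injOn (fun _ => rfl), ab]

theorem ab_nonneg {k n : ℕ} : 0 ≤ ab p r k n := PT_nonneg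

theorem ab_mono_param (r : Bool) (k n : ℕ) (h : p ≤ q) : ab p r k n ≤ ab q r k n :=
  PT_mono_param (localOn_AB 0 0 k n) (incr_AB 0 0 k n) h

/-! ### Paths and squares -/

/-! ### Square root trick -/

theorem PT_sqrt_trick (hE : LocalOn s E) (hF : LocalOn t F) (iE : Incr E) (iF : Incr F)
    (h : PT p r F = PT p r E) : 1 - Real.sqrt (1 - PT p r (E ∪ F)) ≤ PT p r E := by
  classical
  have hc : PT p r Eᶜ * PT p r Fᶜ ≤ PT p r (Eᶜ ∩ Fᶜ) :=
    PT_fkg_decr hE.compl hF.compl (by rwa [compl_compl]) (by rwa [compl_compl])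
  have hU : LocalOn (s ∪ t) (E ∪ F) :=
    (hE.mono Finset.subset_union_left).union (hF.mono Finset.subset_union_right)
  have h2 : PT p r (Eᶜ ∩ Fᶜ) = 1 - PT p r (E ∪ F) := by
    rw [← PT_compl hU, Set.compl_union]
  rw [h2, PT_compl hE, PT_compl hF, h] at hc
  have h3 : 0 ≤ 1 - PT p r E := by linarith only [PT_le_one (p := p) (r := r) (E := E)]
  have h4 : 1 - PT p r E ≤ Real.sqrt (1 - PT p r (E ∪ F)) := by
    apply Real.le_sqrt_of_sq_le
    rw [sq]; exact hc
  linarith

end Pool.Agent.H83.Site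

end

section

/-! # Duality: open horizontal and closed vertical crossings do not coexist

The centred lattice `T` is drawn in the square lattice `ℤ²`, scaled by 3: the site `(x, y)` at
`(3 x, 3 y)` and the centre `(x, y)` at `(3 x + 1, 3 y + 1)`. Every vertex of the fine lattice has a
label, a vertex of `T`, such that every edge `u v` of `T` is drawn as a path of vertices with the
labels `u` and `v`. An open horizontal and a closed vertical crossing give two paths in the fine
lattice which cross (`Pool.Agent.H89.Perc.cross`), in a vertex whose label is both open and closed.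
-/

set_option autoImplicit false

namespace Pool.Agent.H83.Site

open Pool.Agent.H89.Perc

private lemma fine_ss_h {η : Config} {a b c d x y : ℤ} (hu : (x, y, false) ∈ TR a b c d)
    (hv : (x + 1, y, false) ∈ TR a b c d) (ou : η (x, y, false) = true)
    (ov : η (x + 1, y, false) = true) :
    Conn (fine η) (rect (3 * a) (3 * b) (3 * c) (3 * d)) (3 * x, 3 * y) (3 * (x + 1), 3 * y) := by
  rw [mem_TR_site] at hu hv
  have l0 : η (lab (3 * x, 3 * y)) = true := by
    rw [lab_row (x := x) (y := y) rfl (by omega) (by omega)]; exact ou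
  have l1 : η (lab (3 * x + 1, 3 * y)) = true := by
    rw [lab_row (x := x) (y := y) rfl (by omega) (by omega)]; exact ou
  have l2 : η (lab (3 * x + 2, 3 * y)) = true := by
    rw [lab_row (x := x + 1) (y := y) rfl (by omega) (by omega)]; exact ov
  have l3 : η (lab (3 * (x + 1), 3 * y)) = true := by
    rw [lab_row (x := x + 1) (y := y) rfl (by omega) (by omega)]; exact ov
  have m0 : ((3 * x, 3 * y) : Vert) ∈ rect (3 * a) (3 * b) (3 * c) (3 * d) := by
    simp only [rect, Set.mem_ofPred_eq]; omega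
  have m1 : ((3 * x + 1, 3 * y) : Vert) ∈ rect (3 * a) (3 * b) (3 * c) (3 * d) := by
    simp only [rect, Set.mem_ofPred_eq]; omega
  have m2 : ((3 * x + 2, 3 * y) : Vert) ∈ rect (3 * a) (3 * b) (3 * c) (3 * d) := by
    simp only [rect, Set.mem_ofPred_eq]; omega
  have m3 : ((3 * (x + 1), 3 * y) : Vert) ∈ rect (3 * a) (3 * b) (3 * c) (3 * d) := by
    simp only [rect, Set.mem_ofPred_eq]; omega
  exact ((fine_h (by ring) m0 m1 l0 l1).trans (fine_h (by ring) m1 m2 l1 l2)).trans
    (fine_h (by ring) m2 m3 l2 l3)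

private lemma fine_ss_v {η : Config} {a b c d x y : ℤ} (hu : (x, y, false) ∈ TR a b c d)
    (hv : (x, y + 1, false) ∈ TR a b c d) (ou : η (x, y, false) = true)
    (ov : η (x, y + 1, false) = true) :
    Conn (fine η) (rect (3 * a) (3 * b) (3 * c) (3 * d)) (3 * x, 3 * y) (3 * x, 3 * (y + 1)) := by
  rw [mem_TR_site] at hu hv
  have l0 : η (lab (3 * x, 3 * y)) = true := by
    rw [lab_col (x := x) (y := y) rfl (by omega) (by omega)]; exact ou
  have l1 : η (lab (3 * x, 3 * y + 1)) = true := by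
    rw [lab_col (x := x) (y := y) rfl (by omega) (by omega)]; exact ou
  have l2 : η (lab (3 * x, 3 * y + 2)) = true := by
    rw [lab_col (x := x) (y := y + 1) rfl (by omega) (by omega)]; exact ov
  have l3 : η (lab (3 * x, 3 * (y + 1))) = true := by
    rw [lab_col (x := x) (y := y + 1) rfl (by omega) (by omega)]; exact ov
  have m0 : ((3 * x, 3 * y) : Vert) ∈ rect (3 * a) (3 * b) (3 * c) (3 * d) := by
    simp only [rect, Set.mem_ofPred_eq]; omega
  have m1 : ((3 * x, 3 * y + 1) : Vert) ∈ rect (3 * a) (3 * b) (3 * c) (3 * d) := by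
    simp only [rect, Set.mem_ofPred_eq]; omega
  have m2 : ((3 * x, 3 * y + 2) : Vert) ∈ rect (3 * a) (3 * b) (3 * c) (3 * d) := by
    simp only [rect, Set.mem_ofPred_eq]; omega
  have m3 : ((3 * x, 3 * (y + 1)) : Vert) ∈ rect (3 * a) (3 * b) (3 * c) (3 * d) := by
    simp only [rect, Set.mem_ofPred_eq]; omega
  exact ((fine_v (by ring) m0 m1 l0 l1).trans (fine_v (by ring) m1 m2 l1 l2)).trans
    (fine_v (by ring) m2 m3 l2 l3)

/-- The edges between a centre and the four corners of its square. -/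
private lemma fine_sc {η : Config} {a b c d x y x' y' : ℤ} (hx : x' = x ∨ x' = x + 1)
    (hy : y' = y ∨ y' = y + 1) (hu : (x', y', false) ∈ TR a b c d)
    (hv : (x, y, true) ∈ TR a b c d) (ou : η (x', y', false) = true)
    (ov : η (x, y, true) = true) :
    Conn (fine η) (rect (3 * a) (3 * b) (3 * c) (3 * d)) (3 * x', 3 * y')
      (3 * x + 1, 3 * y + 1) := by
  rw [mem_TR_site] at hu
  rw [mem_TR_cen] at hv
  -- the four vertices inside the square
  have li : ∀ m n : ℤ, 3 * x + 1 ≤ m → m ≤ 3 * x + 2 → 3 * y + 1 ≤ n → n ≤ 3 * y + 2 →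
      η (lab (m, n)) = true := by
    intro m n h1 h2 h3 h4
    rw [lab_cen h1 h2 h3 h4]; exact ov
  have mi : ∀ m n : ℤ, 3 * x ≤ m → m ≤ 3 * x + 3 → 3 * y ≤ n → n ≤ 3 * y + 3 →
      ((m, n) : Vert) ∈ rect (3 * a) (3 * b) (3 * c) (3 * d) := by
    intro m n h1 h2 h3 h4
    simp only [rect, Set.mem_ofPred_eq]; omega
  -- paths between the vertices inside the square
  have c00 : Conn (fine η) (rect (3 * a) (3 * b) (3 * c) (3 * d)) (3 * x + 1, 3 * y + 1)
      (3 * x + 1, 3 * y + 1) := Conn.refl (mi _ _ (by omega) (by omega) (by omega) (by omega))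
  have c10 : Conn (fine η) (rect (3 * a) (3 * b) (3 * c) (3 * d)) (3 * x + 2, 3 * y + 1)
      (3 * x + 1, 3 * y + 1) :=
    (fine_h (by ring) (mi _ _ (by omega) (by omega) (by omega) (by omega))
      (mi _ _ (by omega) (by omega) (by omega) (by omega))
      (li _ _ (by omega) (by omega) (by omega) (by omega))
      (li _ _ (by omega) (by omega) (by omega) (by omega))).symm
  have c01 : Conn (fine η) (rect (3 * a) (3 * b) (3 * c) (3 * d)) (3 * x + 1, 3 * y + 2)
      (3 * x + 1, 3 * y + 1) :=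
    (fine_v (by ring) (mi _ _ (by omega) (by omega) (by omega) (by omega))
      (mi _ _ (by omega) (by omega) (by omega) (by omega))
      (li _ _ (by omega) (by omega) (by omega) (by omega))
      (li _ _ (by omega) (by omega) (by omega) (by omega))).symm
  have c11 : Conn (fine η) (rect (3 * a) (3 * b) (3 * c) (3 * d)) (3 * x + 2, 3 * y + 2)
      (3 * x + 1, 3 * y + 1) :=
    (fine_h (by ring) (mi _ _ (by omega) (by omega) (by omega) (by omega))
      (mi _ _ (by omega) (by omega) (by omega) (by omega))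
      (li _ _ (by omega) (by omega) (by omega) (by omega))
      (li _ _ (by omega) (by omega) (by omega) (by omega))).symm.trans c01
  -- labels near the corner
  have ls : ∀ m : ℤ, 3 * x' - 1 ≤ m → m ≤ 3 * x' + 1 → η (lab (m, 3 * y')) = true := by
    intro m h1 h2
    rw [lab_row rfl h1 h2]; exact ou
  rcases hx with rfl | rfl
  · have s1 : Conn (fine η) (rect (3 * a) (3 * b) (3 * c) (3 * d)) (3 * x', 3 * y')
        (3 * x' + 1, 3 * y') :=
      fine_h rfl (mi _ _ (by omega) (by omega) (by omega) (by omega))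
        (mi _ _ (by omega) (by omega) (by omega) (by omega))
        (ls _ (by omega) (by omega)) (ls _ (by omega) (by omega))
    rcases hy with rfl | rfl
    · exact (s1.trans (fine_v rfl (mi _ _ (by omega) (by omega) (by omega) (by omega))
        (mi _ _ (by omega) (by omega) (by omega) (by omega)) (ls _ (by omega) (by omega))
        (li _ _ (by omega) (by omega) (by omega) (by omega)))).trans c00
    · exact (s1.trans (fine_v (n := 3 * y + 2) (n' := 3 * (y + 1)) (by ring)
        (mi _ _ (by omega) (by omega) (by omega) (by omega))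
        (mi _ _ (by omega) (by omega) (by omega) (by omega))
        (li _ _ (by omega) (by omega) (by omega) (by omega))
        (ls _ (by omega) (by omega))).symm).trans c01
  · have s1 : Conn (fine η) (rect (3 * a) (3 * b) (3 * c) (3 * d)) (3 * (x + 1), 3 * y')
        (3 * x + 2, 3 * y') :=
      (fine_h (m := 3 * x + 2) (m' := 3 * (x + 1)) (by ring)
        (mi _ _ (by omega) (by omega) (by omega) (by omega))
        (mi _ _ (by omega) (by omega) (by omega) (by omega))
        (ls _ (by omega) (by omega)) (ls _ (by omega) (by omega))).symm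
    rcases hy with rfl | rfl
    · exact (s1.trans (fine_v rfl (mi _ _ (by omega) (by omega) (by omega) (by omega))
        (mi _ _ (by omega) (by omega) (by omega) (by omega)) (ls _ (by omega) (by omega))
        (li _ _ (by omega) (by omega) (by omega) (by omega)))).trans c10
    · exact (s1.trans (fine_v (n := 3 * y + 2) (n' := 3 * (y + 1)) (by ring)
        (mi _ _ (by omega) (by omega) (by omega) (by omega))
        (mi _ _ (by omega) (by omega) (by omega) (by omega))
        (li _ _ (by omega) (by omega) (by omega) (by omega))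
        (ls _ (by omega) (by omega))).symm).trans c11

/-- A step between open vertices of `T` gives a path in the fine lattice. -/
private lemma fine_step {η : Config} {a b c d : ℤ} {u v : TV} (h : TStep η (TR a b c d) u v) :
    Conn (fine η) (rect (3 * a) (3 * b) (3 * c) (3 * d)) (pos u) (pos v) := by
  obtain ⟨hu, hv, hadj, ou, ov⟩ := h
  obtain ⟨x, y, r⟩ := u
  obtain ⟨x', y', r'⟩ := v
  unfold TAdj at hadj
  simp only at hadj
  rcases hadj with ⟨h1, h2, h3⟩ | ⟨h1, h2, h3, h4⟩ | ⟨h1, h2, h3, h4⟩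
  · subst h1 h2
    simp only [pos, Bool.false_eq_true, if_false]
    rcases h3 with ⟨h3, h4 | h4⟩ | ⟨h3, h4 | h4⟩
    · subst h3 h4
      exact (fine_ss_v hv hu ov ou).symm
    · subst h3 h4
      exact fine_ss_v hu hv ou ov
    · subst h3 h4
      exact (fine_ss_h hv hu ov ou).symm
    · subst h3 h4
      exact fine_ss_h hu hv ou ov
  · subst h1 h2
    simp only [pos, Bool.false_eq_true, if_false, if_true]
    exact fine_sc h3 h4 hu hv ou ov
  · subst h1 h2
    simp only [pos, Bool.false_eq_true, if_false, if_true]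
    exact (fine_sc h3 h4 hv hu ov ou).symm

private lemma fine_conn {η : Config} {a b c d : ℤ} {u v : TV} (h : TConn η (TR a b c d) u v) :
    Conn (fine η) (rect (3 * a) (3 * b) (3 * c) (3 * d)) (pos u) (pos v) :=
  h.induction_right (P := fun v => Conn (fine η) (rect (3 * a) (3 * b) (3 * c) (3 * d)) (pos u)
    (pos v)) (Conn.refl (pos_mem h.mem_left)) fun _ _ _ hs ih => ih.trans (fine_step hs)

theorem not_hc_and_vc {a b c d : ℤ} {η : Config} (h : HC η a b c d) : ¬ VC (neg η) a b c d := by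
  rintro ⟨x, x', h'⟩
  obtain ⟨y, y', h⟩ := h
  have hc := fine_conn h
  have hc' := fine_conn h'
  simp only [pos, Bool.false_eq_true, if_false] at hc hc'
  obtain ⟨w, h1, h2⟩ := cross hc rfl rfl hc' rfl rfl
  have h3 : η (lab w) = true := fine_open h1 (by
    rw [lab_row (x := a) (y := y) rfl (by omega) (by omega)]; exact h.open_left)
  have h4 : neg η (lab w) = true := fine_open h2 (by
    rw [lab_row (x := x) (y := c) rfl (by omega) (by omega)]; exact h'.open_left)
  simp only [neg, h3] at h4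
  exact absurd h4 (by simp)

end Pool.Agent.H83.Site

end

section

/-! # Paths which cross a rectangle in different directions meet -/

set_option autoImplicit false

namespace Pool.Agent.H83.Site

open Pool.Agent.H89.Perc

/-! ### Indicator of a cluster -/

/-! ### The extension by one column -/

/-- The column of new open sites. -/
theorem glueExt_col_open {η : Config} {a b c d t : ℤ} (hab : a ≤ b) (y : ℤ) (hy : y < t)
    (hc : c ≤ y) (hd : y ≤ d) (n : ℕ) (hn : c ≤ y - n) :
    TConn (glueExt η a t) (TR (a - 1) b c d) (a - 1, y, false) (a - 1, y - n, false) := by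
  induction n with
  | zero =>
    simp only [Nat.cast_zero, sub_zero]
    refine TConn.refl ?_ ?_
    · rw [mem_TR_site]; omega
    · rw [glueExt_site, if_pos hy]
  | succ n ih =>
    have hn' : c ≤ y - n := by push_cast at hn; omega
    refine (ih hn').tail ⟨?_, ?_, ?_, ?_, ?_⟩
    · rw [mem_TR_site]; omega
    · rw [mem_TR_site]; push_cast at hn ⊢; omega
    · left
      refine ⟨rfl, rfl, Or.inl ⟨rfl, Or.inl ?_⟩⟩
      push_cast; ring
    · rw [glueExt_site, if_pos (by omega)]
    · rw [glueExt_site, if_pos (by push_cast; omega)]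

/-- The column of new closed sites. -/
theorem glueExt_col_closed {η : Config} {a b c d t : ℤ} (hab : a ≤ b) (y : ℤ) (hy : t ≤ y)
    (hc : c ≤ y) (hd : y ≤ d) (n : ℕ) (hn : y + n ≤ d) :
    TConn (neg (glueExt η a t)) (TR (a - 1) b c d) (a - 1, y, false) (a - 1, y + n, false) := by
  have hval : ∀ z : ℤ, t ≤ z → neg (glueExt η a t) (a - 1, z, false) = true := by
    intro z hz
    unfold neg
    rw [glueExt_site, if_neg (by omega)]
    rfl
  induction n with
  | zero =>
    simp only [Nat.cast_zero, add_zero]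
    refine TConn.refl ?_ (hval y hy)
    rw [mem_TR_site]; omega
  | succ n ih =>
    have hn' : y + n ≤ d := by push_cast at hn; omega
    refine (ih hn').tail ⟨?_, ?_, ?_, hval _ (by omega), hval _ (by push_cast; omega)⟩
    · rw [mem_TR_site]; omega
    · rw [mem_TR_site]; push_cast at hn ⊢; omega
    · left
      refine ⟨rfl, rfl, Or.inl ⟨rfl, Or.inr ?_⟩⟩
      push_cast; ring

theorem glue_adj_left (a y : ℤ) : TAdj (a - 1, y, false) (a, y, false) := by
  left
  refine ⟨rfl, rfl, Or.inr ⟨rfl, Or.inr ?_⟩⟩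
  ring

/-- A horizontal and a vertical open crossing are connected. -/
theorem glue_hv {η : Config} {a b c d y y' x x' : ℤ}
    (h1 : TConn η (TR a b c d) (a, y, false) (b, y', false))
    (h2 : TConn η (TR a b c d) (x, c, false) (x', d, false)) :
    TConn η (TR a b c d) (a, y, false) (x, c, false) := by
  by_contra hcon
  exact not_hc_and_vc ⟨y, y', glue_in_clu h1⟩ ⟨x, x', glue_avoid h2 hcon⟩

/-- An open path from the lower point `(a, y₁)` of the left side to the right side and a closed path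
from the upper point `(a, y₂)` of the left side to the bottom do not coexist. -/
theorem no_left_bottom {η : Config} {a b c d y₁ y₂ y₃ x : ℤ} (hy : y₁ < y₂)
    (h1 : TConn η (TR a b c d) (a, y₁, false) (b, y₃, false))
    (h2 : TConn (neg η) (TR a b c d) (a, y₂, false) (x, c, false)) : False := by
  have m1 := mem_TR_site.1 h1.mem_left
  have m2 := mem_TR_site.1 h2.mem_left
  have hab : a ≤ b := by omega
  have e1 := glueExt_conn (t := y₂) h1
  have e2 := glueExt_neg_conn (t := y₂) h2
  have H : HC (glueExt η a y₂) (a - 1) b c d := by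
    refine ⟨y₁, y₃, TConn.trans (TStep.conn ⟨?_, e1.mem_left, glue_adj_left a y₁, ?_,
      e1.open_left⟩) e1⟩
    · rw [mem_TR_site]; omega
    · rw [glueExt_site, if_pos hy]
  have V : VC (neg (glueExt η a y₂)) (a - 1) b c d := by
    have hcol := glueExt_col_closed (η := η) (b := b) (c := c) (d := d) (t := y₂) hab y₂ le_rfl
      (by omega) (by omega) (d - y₂).toNat (by omega)
    have hd : y₂ + ((d - y₂).toNat : ℤ) = d := by omega
    rw [hd] at hcol
    exact ⟨x, a - 1, (e2.symm.tail ⟨e2.mem_left, hcol.mem_left, (glue_adj_left a y₂).symm,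
      e2.open_left, hcol.open_left⟩).trans hcol⟩
  exact not_hc_and_vc H V

/-- An open path from the lower point `(a, y₁)` of the left side to the top and a closed path from
the upper point `(a, y₂)` of the left side to the right side do not coexist. -/
theorem no_left_top {η : Config} {a b c d y₁ y₂ y₃ x : ℤ} (hy : y₁ < y₂)
    (h1 : TConn η (TR a b c d) (a, y₁, false) (x, d, false))
    (h2 : TConn (neg η) (TR a b c d) (a, y₂, false) (b, y₃, false)) : False := by
  have m1 := mem_TR_site.1 h1.mem_left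
  have m2 := mem_TR_site.1 h2.mem_left
  have hab : a ≤ b := by omega
  have e1 := glueExt_conn (t := y₂) h1
  have e2 := glueExt_neg_conn (t := y₂) h2
  have H : HC (neg (glueExt η a y₂)) (a - 1) b c d := by
    refine ⟨y₂, y₃, TConn.trans (TStep.conn ⟨?_, e2.mem_left, glue_adj_left a y₂, ?_,
      e2.open_left⟩) e2⟩
    · rw [mem_TR_site]; omega
    · unfold neg
      rw [glueExt_site, if_neg (by omega)]
      rfl
  have V : VC (neg (neg (glueExt η a y₂))) (a - 1) b c d := by
    rw [neg_neg']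
    have hcol := glueExt_col_open (η := η) (b := b) (c := c) (d := d) (t := y₂) hab y₁ hy
      (by omega) (by omega) (y₁ - c).toNat (by omega)
    have hc : y₁ - ((y₁ - c).toNat : ℤ) = c := by omega
    rw [hc] at hcol
    exact ⟨a - 1, x, (hcol.symm.tail ⟨hcol.mem_left, e1.mem_left, glue_adj_left a y₁,
      hcol.open_left, e1.open_left⟩).trans e1⟩
  exact not_hc_and_vc H V

/-! ### The mirror image -/

theorem glue_mirror {η : Config} {a b c d x y x' y' : ℤ}
    (h : TConn η (TR a b c d) (x, y, false) (x', y', false)) :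
    TConn (fun v => η (rfx (a + b) v)) (TR a b c d) (a + b - x, y, false)
      (a + b - x', y', false) := by
  rw [tconn_rfx]
  have e1 : a + b - b = a := by ring
  have e2 : a + b - a = b := by ring
  have e3 : rfx (a + b) (a + b - x, y, false) = (x, y, false) := by
    simp [rfx]
  have e4 : rfx (a + b) (a + b - x', y', false) = (x', y', false) := by
    simp [rfx]
  rw [e1, e2, e3, e4]
  exact h

theorem no_right_bottom {η : Config} {a b c d y₁ y₂ y₃ x : ℤ} (hy : y₁ < y₂)
    (h1 : TConn η (TR a b c d) (b, y₁, false) (a, y₃, false))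
    (h2 : TConn (neg η) (TR a b c d) (b, y₂, false) (x, c, false)) : False := by
  have e1 := glue_mirror h1
  have e2 := glue_mirror h2
  have ha : a + b - b = a := by ring
  have hb : a + b - a = b := by ring
  rw [ha, hb] at e1
  rw [ha] at e2
  exact no_left_bottom hy e1 e2

theorem no_right_top {η : Config} {a b c d y₁ y₂ y₃ x : ℤ} (hy : y₁ < y₂)
    (h1 : TConn η (TR a b c d) (b, y₁, false) (x, d, false))
    (h2 : TConn (neg η) (TR a b c d) (b, y₂, false) (a, y₃, false)) : False := by
  have e1 := glue_mirror h1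
  have e2 := glue_mirror h2
  have ha : a + b - b = a := by ring
  have hb : a + b - a = b := by ring
  rw [ha] at e1
  rw [ha, hb] at e2
  exact no_left_top hy e1 e2

/-- Open path from a lower point of the left side to the top, open path from an upper point of the
left side to the right side: they are connected. -/
theorem glue_left {η : Config} {a b c d y₁ y₂ y₃ x : ℤ} (hy : y₁ ≤ y₂)
    (h1 : TConn η (TR a b c d) (a, y₁, false) (x, d, false))
    (h2 : TConn η (TR a b c d) (a, y₂, false) (b, y₃, false)) :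
    TConn η (TR a b c d) (a, y₁, false) (a, y₂, false) := by
  rcases hy.eq_or_lt with rfl | hlt
  · exact TConn.refl h1.mem_left h1.open_left
  · by_contra hcon
    exact no_left_top hlt (glue_in_clu h1) (glue_avoid h2 hcon)

theorem glue_right {η : Config} {a b c d y₁ y₂ y₃ x : ℤ} (hy : y₁ ≤ y₂)
    (h1 : TConn η (TR a b c d) (b, y₁, false) (x, d, false))
    (h2 : TConn η (TR a b c d) (b, y₂, false) (a, y₃, false)) :
    TConn η (TR a b c d) (b, y₁, false) (b, y₂, false) := by
  rcases hy.eq_or_lt with rfl | hlt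
  · exact TConn.refl h1.mem_left h1.open_left
  · by_contra hcon
    exact no_right_top hlt (glue_in_clu h1) (glue_avoid h2 hcon)

/-- Open crossing starting at `(a, y₀)`; the open site `(a, y)` above it is adjacent to a closed
vertex `w` which is joined to the bottom by a closed path. Then the crossing is connected to
`(a, y)`. -/
theorem glue_low_left {η : Config} {a b c d y₀ y₁ y x : ℤ} {w : TV} (hy : y₀ < y)
    (ho : η (a, y, false) = true) (hm : (a, y, false) ∈ TR a b c d)
    (h1 : TConn η (TR a b c d) (a, y₀, false) (b, y₁, false))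
    (h2 : TConn (neg η) (TR a b c d) (x, c, false) w) (hw : TAdj w (a, y, false)) :
    TConn η (TR a b c d) (a, y₀, false) (a, y, false) := by
  by_contra hcon
  have hcl := glue_closed (u := (a, y₀, false)) h2
  exact no_left_bottom hy (glue_in_clu h1) (hcl.tail ⟨hcl.mem_right, hm, hw, hcl.open_right,
    neg_glueClu_eq_true.2 hcon⟩).symm

theorem glue_low_right {η : Config} {a b c d y₀ y₁ y x : ℤ} {w : TV} (hy : y₁ < y)
    (ho : η (b, y, false) = true) (hm : (b, y, false) ∈ TR a b c d)
    (h1 : TConn η (TR a b c d) (a, y₀, false) (b, y₁, false))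
    (h2 : TConn (neg η) (TR a b c d) (x, c, false) w) (hw : TAdj w (b, y, false)) :
    TConn η (TR a b c d) (b, y₁, false) (b, y, false) := by
  by_contra hcon
  have hcl := glue_closed (u := (b, y₁, false)) h2
  exact no_right_bottom hy (glue_in_clu h1.symm) (hcl.tail ⟨hcl.mem_right, hm, hw, hcl.open_right,
    neg_glueClu_eq_true.2 hcon⟩).symm

end Pool.Agent.H83.Site

end

section

/-! # Circuits in annuli -/

set_option autoImplicit false

open MeasureTheory ProbabilityTheory unitInterval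

namespace Pool.Agent.H83.Site

open Pool.Agent.H89.Perc

theorem circ_prob {p₀ : I} {r : Bool} {c : ℝ} (hc : 0 < c)
    (h : ∀ m : ℕ, 1 ≤ m → c ≤ PT p₀ r {η | HC η 0 ((4 : ℕ) * m) 0 m}) {p : I} (hp : p₀ ≤ p)
    {s : ℕ} (hs : 1 ≤ s) : c ^ 4 ≤ PT p r (CircE s) := by
  have h0 : c ≤ PT p r {η | HC η 0 ((4 : ℕ) * s) 0 s} :=
    (h s hs).trans (PT_mono_param (localOn_HC _ _ _ _) (incr_HC _ _ _ _) hp)
  have e1 : c ≤ PT p r {η | HC η (-(2 * s)) (2 * s) s (2 * s)} := by
    have := PT_HC_shf p r 0 ((4 : ℕ) * s) 0 s (-(2 * s)) s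
    have a1 : (0 : ℤ) + -(2 * s) = -(2 * s) := by ring
    have a2 : ((4 : ℕ) : ℤ) * s + -(2 * s) = 2 * s := by push_cast; ring
    have a3 : (0 : ℤ) + s = s := by ring
    have a4 : (s : ℤ) + s = 2 * s := by ring
    rw [a1, a2, a3, a4] at this
    rw [this]
    exact h0
  have e2 : c ≤ PT p r {η | HC η (-(2 * s)) (2 * s) (-(2 * s)) (-s)} := by
    have := PT_HC_shf p r 0 ((4 : ℕ) * s) 0 s (-(2 * s)) (-(2 * s))
    have a1 : (0 : ℤ) + -(2 * s) = -(2 * s) := by ring
    have a2 : ((4 : ℕ) : ℤ) * s + -(2 * s) = 2 * s := by push_cast; ring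
    have a4 : (s : ℤ) + -(2 * s) = -s := by ring
    rw [a1, a2, a4] at this
    rw [this]
    exact h0
  have e3 : c ≤ PT p r {η | VC η s (2 * s) (-(2 * s)) (2 * s)} := by
    rw [PT_VC_eq_HC]
    exact e1
  have e4 : c ≤ PT p r {η | VC η (-(2 * s)) (-s) (-(2 * s)) (2 * s)} := by
    rw [PT_VC_eq_HC]
    exact e2
  have f1 := PT_fkg (p := p) (r := r) (localOn_HC (-(2 * s)) (2 * s) s (2 * s))
    (localOn_HC (-(2 * s)) (2 * s) (-(2 * s)) (-s)) (incr_HC _ _ _ _) (incr_HC _ _ _ _)
  have f2 := PT_fkg (p := p) (r := r) (localOn_VC s (2 * s) (-(2 * s)) (2 * s))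
    (localOn_VC (-(2 * s)) (-s) (-(2 * s)) (2 * s)) (incr_VC _ _ _ _) (incr_VC _ _ _ _)
  have g1 : LocalOn (eRect (-(2 * s)) (2 * s) (-(2 * s)) (2 * s))
      ({η | HC η (-(2 * s)) (2 * s) s (2 * s)} ∩
        {η | HC η (-(2 * s)) (2 * s) (-(2 * s)) (-s)}) :=
    LocalOn.inter
      ((localOn_HC _ _ _ _).mono (circ_eRect_mono (by omega) (by omega) (by omega) (by omega)))
      ((localOn_HC _ _ _ _).mono (circ_eRect_mono (by omega) (by omega) (by omega) (by omega)))
  have g2 : LocalOn (eRect (-(2 * s)) (2 * s) (-(2 * s)) (2 * s))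
      ({η | VC η s (2 * s) (-(2 * s)) (2 * s)} ∩
        {η | VC η (-(2 * s)) (-s) (-(2 * s)) (2 * s)}) :=
    LocalOn.inter
      ((localOn_VC _ _ _ _).mono (circ_eRect_mono (by omega) (by omega) (by omega) (by omega)))
      ((localOn_VC _ _ _ _).mono (circ_eRect_mono (by omega) (by omega) (by omega) (by omega)))
  have f3 := PT_fkg (p := p) (r := r) g1 g2 ((incr_HC _ _ _ _).inter (incr_HC _ _ _ _))
    ((incr_VC _ _ _ _).inter (incr_VC _ _ _ _))
  rw [circ_eq]
  have k1 : c * c ≤ _ := (mul_le_mul e1 e2 hc.le (hc.le.trans e1)).trans f1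
  have k2 : c * c ≤ _ := (mul_le_mul e3 e4 hc.le (hc.le.trans e3)).trans f2
  have k3 : (c * c) * (c * c) ≤ _ :=
    (mul_le_mul k1 k2 (mul_nonneg hc.le hc.le) ((mul_nonneg hc.le hc.le).trans k1)).trans f3
  calc c ^ 4 = (c * c) * (c * c) := by ring
    _ ≤ _ := k3

/-- A horizontal and a vertical crossing of rectangles which cross each other are connected. -/
theorem circ_hv {η : Config} {a b c d a' b' c' d' y y' x x' : ℤ} (ha : a ≤ a') (hab : a' ≤ b')
    (hb : b' ≤ b) (hc : c' ≤ c) (hcd : c ≤ d) (hd : d ≤ d')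
    (h1 : TConn η (TR a b c d) (a, y, false) (b, y', false))
    (h2 : TConn η (TR a' b' c' d') (x, c', false) (x', d', false)) :
    TConn η (TR a b c d ∪ TR a' b' c' d') (a, y, false) (x, c', false) := by
  obtain ⟨z, z', h3, h4, -⟩ := h1.cross_x (a := a') (b := b') (by simp only [fx_site]; omega)
    (by simp only [fx_site]; omega) hab
  rw [TR_inter_x ha hb] at h3
  obtain ⟨t, t', h5, h6, -⟩ := h2.cross_y (c := c) (d := d) (by simp only [fy_site]; omega)
    (by simp only [fy_site]; omega) hcd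
  rw [TR_inter_y hc hd] at h5
  have h7 := glue_hv h3 h5
  refine (h4.mono_set Set.subset_union_left).trans ((h7.mono_set ?_).trans
    (h6.symm.mono_set Set.subset_union_right))
  exact (TR_mono ha hb le_rfl le_rfl).trans Set.subset_union_left

/-- All paths which cross the annulus are connected to one vertex. -/
theorem circ_base {η : Config} {s : ℕ} (hs : 1 ≤ s) (h : η ∈ CircE s) : ∃ w : TV,
    ∀ (S : Set TV) (u v : TV), TConn η S u v → u ∈ TR (-s) s (-s) s →
      (fx v ≤ 2 * (-(2 * s)) ∨ 2 * (2 * s) ≤ fx v ∨ fy v ≤ 2 * (-(2 * s)) ∨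
        2 * (2 * s) ≤ fy v) →
      TConn η (S ∪ TR (-(2 * s)) (2 * s) (-(2 * s)) (2 * s)) u w := by
  obtain ⟨⟨yT, yT', hT⟩, ⟨yB, yB', hB⟩, ⟨xR, xR', hR⟩, ⟨xL, xL', hL⟩⟩ := h
  set Q : Set TV := TR (-(2 * s)) (2 * s) (-(2 * s)) (2 * s) with hQ
  have hs' : (1 : ℤ) ≤ s := by exact_mod_cast hs
  have sT : TR (-(2 * s)) (2 * s) s (2 * s) ⊆ Q := TR_mono le_rfl le_rfl (by omega) le_rfl
  have sB : TR (-(2 * s)) (2 * s) (-(2 * s)) (-s) ⊆ Q := TR_mono le_rfl le_rfl le_rfl (by omega)
  have sR : TR s (2 * s) (-(2 * s)) (2 * s) ⊆ Q := TR_mono (by omega) le_rfl le_rfl le_rfl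
  have sL : TR (-(2 * s)) (-s) (-(2 * s)) (2 * s) ⊆ Q := TR_mono le_rfl (by omega) le_rfl le_rfl
  have cTR : TConn η Q (-(2 * s), yT, false) (xR, -(2 * s), false) :=
    (circ_hv (by omega) (by omega) (by omega) (by omega) (by omega) (by omega) hT hR).mono_set
      (Set.union_subset sT sR)
  have cBR : TConn η Q (-(2 * s), yB, false) (xR, -(2 * s), false) :=
    (circ_hv (by omega) (by omega) (by omega) (by omega) (by omega) (by omega) hB hR).mono_set
      (Set.union_subset sB sR)
  have cTL : TConn η Q (-(2 * s), yT, false) (xL, -(2 * s), false) :=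
    (circ_hv (by omega) (by omega) (by omega) (by omega) (by omega) (by omega) hT hL).mono_set
      (Set.union_subset sT sL)
  have cLR : TConn η Q (xL, -(2 * s), false) (xR, -(2 * s), false) := cTL.symm.trans cTR
  refine ⟨(xR, -(2 * s), false), fun S u v huv hu hv => ?_⟩
  have hu' := hu
  rw [mem_TR] at hu'
  have hc2 : ((2 * s : ℕ) : ℤ) = 2 * s := by push_cast; ring
  obtain ⟨z, hz, hz2⟩ := huv.to_sph (x := 0) (y := 0) (n := 2 * s)
    (by rw [mem_TR, hc2]; omega) (by rw [hc2]; simp only [zero_sub, zero_add]; exact hv)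
  rw [hc2] at hz2
  simp only [zero_sub, zero_add] at hz2
  obtain ⟨hz3, hz4, hz5⟩ := hz
  rw [hc2] at hz5
  simp only [zero_sub, zero_add] at hz5
  have hfx := fx_even hz4
  have hfy := fy_even hz4
  have sub1 : S ∩ Q ⊆ S ∪ Q := Set.inter_subset_left.trans Set.subset_union_left
  rcases hz5 with h1 | h1 | h1 | h1
  · -- left
    obtain ⟨y, y', h3, -, h5⟩ := hz2.symm.cross_x (a := -(2 * s)) (b := -s)
      (by rw [hfx]; omega) (by omega) (by omega)
    have h6 : TConn η (TR (-(2 * s)) (-s) (-(2 * s)) (2 * s)) (-(2 * s), y, false)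
        (-s, y', false) := by
      refine h3.mono_set fun x hx => ?_
      obtain ⟨⟨_, hx1⟩, hx2⟩ := hx
      rw [mem_TR] at hx1 ⊢
      simp only [Set.mem_ofPred_eq] at hx2
      omega
    have h7 := glue_hv h6 hL
    have h8 : TConn η (S ∪ Q) (-s, y', false) (xL, -(2 * s), false) :=
      (h6.symm.trans h7).mono_set (sL.trans Set.subset_union_right)
    exact (h5.symm.mono_set sub1).trans (h8.trans (cLR.mono_set Set.subset_union_right))
  · -- right
    obtain ⟨y, y', h3, h4, -⟩ := hz2.cross_x (a := s) (b := 2 * s)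
      (by omega) (by rw [hfx]; omega) (by omega)
    have h6 : TConn η (TR s (2 * s) (-(2 * s)) (2 * s)) (s, y, false) (2 * s, y', false) := by
      refine h3.mono_set fun x hx => ?_
      obtain ⟨⟨_, hx1⟩, hx2⟩ := hx
      rw [mem_TR] at hx1 ⊢
      simp only [Set.mem_ofPred_eq] at hx2
      omega
    have h7 := glue_hv h6 hR
    exact (h4.mono_set sub1).trans (h7.mono_set (sR.trans Set.subset_union_right))
  · -- bottom
    obtain ⟨x, x', h3, -, h5⟩ := hz2.symm.cross_y (c := -(2 * s)) (d := -s)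
      (by rw [hfy]; omega) (by omega) (by omega)
    have h6 : TConn η (TR (-(2 * s)) (2 * s) (-(2 * s)) (-s)) (x, -(2 * s), false)
        (x', -s, false) := by
      refine h3.mono_set fun x hx => ?_
      obtain ⟨⟨_, hx1⟩, hx2⟩ := hx
      rw [mem_TR] at hx1 ⊢
      simp only [Set.mem_ofPred_eq] at hx2
      omega
    have h7 := glue_hv hB h6
    have h8 : TConn η (S ∪ Q) (x', -s, false) (xR, -(2 * s), false) :=
      ((h6.symm.trans h7.symm).mono_set (sB.trans Set.subset_union_right)).trans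
        (cBR.mono_set Set.subset_union_right)
    exact (h5.symm.mono_set sub1).trans h8
  · -- top
    obtain ⟨x, x', h3, h4, -⟩ := hz2.cross_y (c := s) (d := 2 * s)
      (by omega) (by rw [hfy]; omega) (by omega)
    have h6 : TConn η (TR (-(2 * s)) (2 * s) s (2 * s)) (x, s, false) (x', 2 * s, false) := by
      refine h3.mono_set fun x hx => ?_
      obtain ⟨⟨_, hx1⟩, hx2⟩ := hx
      rw [mem_TR] at hx1 ⊢
      simp only [Set.mem_ofPred_eq] at hx2
      omega
    have h7 := glue_hv hT h6
    exact (h4.mono_set sub1).trans ((h7.symm.mono_set (sT.trans Set.subset_union_right)).trans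
      (cTR.mono_set Set.subset_union_right))

/-- Two paths which cross the annulus are connected, if the four crossings exist. -/
theorem circ_glue {η : Config} {s : ℕ} (hs : 1 ≤ s) (h : η ∈ CircE s) {S S' : Set TV}
    {u v u' v' : TV} (h1 : TConn η S u v) (hu : u ∈ TR (-s) s (-s) s)
    (hv : fx v ≤ 2 * (-(2 * s)) ∨ 2 * (2 * s) ≤ fx v ∨ fy v ≤ 2 * (-(2 * s)) ∨
      2 * (2 * s) ≤ fy v)
    (h2 : TConn η S' u' v') (hu' : u' ∈ TR (-s) s (-s) s)
    (hv' : fx v' ≤ 2 * (-(2 * s)) ∨ 2 * (2 * s) ≤ fx v' ∨ fy v' ≤ 2 * (-(2 * s)) ∨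
      2 * (2 * s) ≤ fy v') :
    TConn η (S ∪ S' ∪ TR (-(2 * s)) (2 * s) (-(2 * s)) (2 * s)) u u' := by
  obtain ⟨w, hw⟩ := circ_base hs h
  have a1 := hw S u v h1 hu hv
  have a2 := hw S' u' v' h2 hu' hv'
  refine (a1.mono_set ?_).trans (a2.symm.mono_set ?_)
  · exact Set.union_subset_union_left _ Set.subset_union_left
  · exact Set.union_subset_union_left _ Set.subset_union_right

/-- Gluing of arms. -/
theorem arm_glue {η : Config} {s k n : ℕ} (hs : 1 ≤ s) (hk : k ≤ s) (hsn : 2 * s ≤ n)
    (h : η ∈ CircE s) (h1 : η ∈ AB 0 0 k (2 * s)) (h2 : η ∈ AB 0 0 s n) : η ∈ AB 0 0 k n := by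
  obtain ⟨u, hu, w, hw, hc⟩ := h1
  obtain ⟨u', hu', w', hw', hc'⟩ := h2
  have hk' : (k : ℤ) ≤ s := by exact_mod_cast hk
  have hn' : 2 * (s : ℤ) ≤ n := by exact_mod_cast hsn
  have hc2 : ((2 * s : ℕ) : ℤ) = 2 * s := by push_cast; ring
  rw [hc2] at hc
  obtain ⟨hw1, hw2, hw3⟩ := hw
  rw [hc2] at hw3
  have e1 := fx_even hw2
  have e2 := fy_even hw2
  have hw'0 := hw'
  obtain ⟨hw1', hw2', hw3'⟩ := hw'0
  have e1' := fx_even hw2'
  have e2' := fy_even hw2'
  have hu1 : u ∈ TR (-s) s (-s) s := by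
    rw [mem_TR] at hu ⊢
    omega
  have hu1' : u' ∈ TR (-s) s (-s) s := by
    rw [mem_TR] at hu' ⊢
    omega
  have h3 := circ_glue hs h hc hu1 (by omega) hc' hu1' (by omega)
  refine ⟨u, hu, w', hw', (h3.mono_set ?_).trans hc'⟩
  refine Set.union_subset (Set.union_subset ?_ ?_) ?_
  · exact TR_mono (by omega) (by omega) (by omega) (by omega)
  · exact TR_mono (by omega) (by omega) (by omega) (by omega)
  · exact TR_mono (by omega) (by omega) (by omega) (by omega)

end Pool.Agent.H83.Site

end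

section

/-! # Duality: an open horizontal or a closed vertical crossing exists -/

set_option autoImplicit false

namespace Pool.Agent.H83.Site

open Pool.Agent.H89.Perc

end Pool.Agent.H83.Site

end

section

/-! # The lowest crossing of a rectangle -/

set_option autoImplicit false

namespace Pool.Agent.H83.Site

open Pool.Agent.H89.Perc

variable {η : Config} {l c d e y y' : ℤ}

/-! ### Auxiliary facts -/

/-- If there is a crossing, there is one in the explored set. -/
theorem low_exists (hl : 0 ≤ l) (hcd : c ≤ d) (h : HC η 0 l c d) :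
    ∃ y y' : ℤ, TConn (zet η l c d) (TR 0 l c d) (0, y, false) (l, y', false) := by
  rcases hc_or_vc hl hcd (zet η l c d) with h1 | ⟨x, x', h2⟩
  · exact h1
  · exfalso
    have key : ∀ v : TV, neg (zet η l c d) v = true → v ∈ Exd l c d (Clo η l c d) →
        η v = false := by
      intro v hv hE
      rw [low_neg_eq_true] at hv
      by_contra hη
      rw [Bool.not_eq_false] at hη
      rw [zet_eq_true.2 ⟨hη, hE⟩] at hv
      exact absurd hv (by decide)
    have h3 : ((x', d, false) : TV) ∈ Clo η l c d := by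
      refine h2.induction_right (P := fun v => v ∈ Clo η l c d) ?_ ?_
      · refine low_clo_bottom h2.mem_left (by simp) (key _ h2.open_left ⟨h2.mem_left, ?_⟩)
        left; simp
      · intro a b _ hab ha
        refine low_clo_step ha hab.2.2.1 hab.2.1 (key _ hab.2.2.2.2 ⟨hab.2.1, ?_⟩)
        right; right
        exact ⟨a, ha, hab.2.2.1⟩
    obtain ⟨x₁, h4⟩ := h3
    exact not_hc_and_vc h ⟨x₁, x', h4⟩

/-- The start of the lowest crossing is connected to a point not higher than the start of a given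
crossing. -/
theorem low_left (h : TConn (zet η l c d) (TR 0 l c d) (0, y, false) (l, y', false))
    {y₀ y₁ : ℤ} (h0 : TConn η (TR 0 l c d) (0, y₀, false) (l, y₁, false)) :
    ∃ y₂ ≤ y₀, TConn η (TR 0 l c d) (0, y, false) (0, y₂, false) := by
  by_cases hy : y ≤ y₀
  · exact ⟨y, hy, TConn.refl h.mem_left (low_zet_open h.open_left)⟩
  · rw [not_le] at hy
    have h1 := mem_TR_site.1 h0.mem_left
    obtain ⟨w, x, hw, hwv⟩ := low_adj h.open_left (by simp only [fy_site]; omega)
    exact ⟨y₀, le_rfl,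
      (glue_low_left hy (low_zet_open h.open_left) h.mem_left h0 hw hwv).symm⟩

theorem low_right (h : TConn (zet η l c d) (TR 0 l c d) (0, y, false) (l, y', false))
    {y₀ y₁ : ℤ} (h0 : TConn η (TR 0 l c d) (0, y₀, false) (l, y₁, false)) :
    ∃ y₂ ≤ y₁, TConn η (TR 0 l c d) (l, y', false) (l, y₂, false) := by
  by_cases hy : y' ≤ y₁
  · exact ⟨y', hy, TConn.refl h.mem_right (low_zet_open h.open_right)⟩
  · rw [not_le] at hy
    have h1 := mem_TR_site.1 h0.mem_right
    obtain ⟨w, x, hw, hwv⟩ := low_adj h.open_right (by simp only [fy_site]; omega)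
    exact ⟨y₁, le_rfl,
      (glue_low_right hy (low_zet_open h.open_right) h.mem_right h0 hw hwv).symm⟩

private theorem low_rfx_fix {v : TV} (h : fx v = 2 * l) : rfx (2 * l) v = v := by
  rw [low_site_fx h]
  simp only [rfx, Bool.false_eq_true, if_false]
  ext <;> simp
  ring

private theorem lowPhi_of_ge {v : TV} (h : 2 * l ≤ fx v) : lowPhi l v = rfx (2 * l) v := by
  rcases h.eq_or_lt with h1 | h1
  · rw [low_rfx_fix h1.symm, lowPhi, if_pos h1.symm.le]
  · rw [lowPhi, if_neg (by omega)]

private theorem lowPhi_adj {u v : TV} (h : TAdj u v) : TAdj (lowPhi l u) (lowPhi l v) := by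
  by_cases hu : fx u ≤ 2 * l
  · by_cases hv : fx v ≤ 2 * l
    · rw [lowPhi_of_le hu, lowPhi_of_le hv]; exact h
    · rw [not_le] at hv
      rw [lowPhi_of_ge (h.symm.le_fx hv), lowPhi_of_ge hv.le]
      exact h.rfx _
  · rw [not_le] at hu
    rw [lowPhi_of_ge (h.le_fx hu), lowPhi_of_ge hu.le]
    exact h.rfx _

private theorem lowPhi_mem {v : TV} (h : v ∈ TR 0 (2 * l) c e) : lowPhi l v ∈ TR 0 l c e := by
  rw [mem_TR] at h
  rw [mem_TR, lowPhi_fy]
  by_cases hv : fx v ≤ 2 * l
  · rw [lowPhi_of_le hv]; omega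
  · rw [not_le] at hv
    rw [lowPhi_of_ge hv.le, fx_rfx]; omega

/-- If the explored set is joined to the top, then so is the lowest crossing. -/
theorem low_joined (hde : d ≤ e)
    (h : TConn (zet η l c d) (TR 0 l c d) (0, y, false) (l, y', false))
    (hF : FJ η l c e (Exd l c d (Clo η l c d))) :
    ∃ x : ℤ, TConn η (TR 0 (2 * l) c e) (0, y, false) (x, e, false) := by
  set D : Set TV := Exd l c d (Clo η l c d) with hD
  set A : Set TV := {v | TConn (zet η l c d) (TR 0 l c d) (0, y, false) v} with hA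
  have hm := mem_TR_site.1 h.mem_left
  have hsub : TR 0 l c d ⊆ TR 0 l c e := TR_mono le_rfl le_rfl le_rfl hde
  have hsub2 : TR 0 l c d ⊆ TR 0 (2 * l) c e := TR_mono le_rfl (by omega) le_rfl hde
  have hAη : ∀ v ∈ A, η v = true := fun v hv => low_zet_open hv.open_right
  have hAD : ∀ v ∈ A, v ∈ D := fun v hv => (zet_eq_true.1 hv.open_right).2
  obtain ⟨u, huD, hu⟩ := hF
  have huA : u ∈ A := by
    by_contra huA
    have hHC : HC (lowInd A) 0 l c d := by
      refine ⟨y, y', ?_⟩
      refine h.induction_right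
        (P := fun v => TConn (lowInd A) (TR 0 l c d) (0, y, false) v)
        (TConn.refl h.mem_left (lowInd_true.2 (TConn.refl h.mem_left h.open_left))) ?_
      intro a b h1 h2 h3
      exact h3.tail ⟨h2.1, h2.2.1, h2.2.2.1, lowInd_true.2 h1, lowInd_true.2 (h1.tail h2)⟩
    refine not_hc_and_vc hHC ?_
    -- from the bottom to `u`
    have hclosed : ∀ v : TV, neg η v = true → neg (lowInd A) v = true := by
      intro v hv
      rw [low_neg_ind]
      intro hvA
      rw [low_neg_eq_true, hAη v hvA] at hv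
      exact absurd hv (by decide)
    have hbot : ∃ x : ℤ, TConn (neg (lowInd A)) (TR 0 l c e) (x, c, false) u := by
      obtain ⟨h1, h2 | ⟨x, h2⟩ | ⟨w, ⟨x, hw⟩, hwu⟩⟩ := huD
      · refine ⟨u.1, ?_⟩
        rw [← low_site_fy h2]
        exact TConn.refl (hsub h1) (low_neg_ind.2 huA)
      · exact ⟨x, h2.mono hsub fun v _ => hclosed v⟩
      · have h3 := hw.mono (η' := neg (lowInd A)) hsub fun v _ => hclosed v
        exact ⟨x, h3.tail ⟨h3.mem_right, hsub h1, hwu, h3.open_right, low_neg_ind.2 huA⟩⟩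
    obtain ⟨x, hx⟩ := hbot
    have hVC : VC (neg (lowInd A)) 0 l c e := by
      rcases hu with hu | ⟨w, x₁, hwu, hw⟩
      · refine ⟨x, u.1, ?_⟩
        rw [← low_site_fy hu]
        exact hx
      · have hdis : ∀ v ∈ TR 0 (2 * l) c e \ (D ∪ {v | rfx (2 * l) v ∈ D}), lowPhi l v ∉ D := by
          intro v hv
          have h2 := hv.2
          rw [Set.mem_union, not_or] at h2
          by_cases hvl : fx v ≤ 2 * l
          · rw [lowPhi_of_le hvl]; exact h2.1
          · rw [not_le] at hvl
            rw [lowPhi_of_ge hvl.le]; exact h2.2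
        have h2 : TConn (neg (lowInd A)) (TR 0 l c e) (lowPhi l (x₁, e, false)) (lowPhi l w) :=
          hw.map (lowPhi l) (fun v hv => lowPhi_mem hv.1)
            (fun v hv _ => low_neg_ind.2 fun hvA => hdis v hv (hAD _ hvA))
            (fun a b _ _ hab => Or.inl (lowPhi_adj hab))
        have h3 : TAdj (lowPhi l w) u := by
          have h4 := lowPhi_adj (l := l) hwu
          rwa [lowPhi_of_le (v := u) (mem_TR.1 huD.1).2.1] at h4
        have h4 := h2.tail ⟨h2.mem_right, hsub huD.1, h3, h2.open_right, low_neg_ind.2 huA⟩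
        have h5 : lowPhi l (x₁, e, false) = ((lowPhi l (x₁, e, false)).1, e, false) :=
          low_site_fy (by rw [lowPhi_fy, fy_site])
        refine ⟨x, (lowPhi l (x₁, e, false)).1, ?_⟩
        rw [← h5]
        exact hx.trans h4.symm
    exact hVC.mono le_rfl le_rfl le_rfl (by omega) hde
  have h1 : TConn η (TR 0 (2 * l) c e) (0, y, false) u :=
    TConn.mono hsub2 (fun v _ => low_zet_open) huA
  rcases hu with hu | ⟨w, x, hwu, hw⟩
  · refine ⟨u.1, ?_⟩
    rw [← low_site_fy hu]
    exact h1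
  · have h2 : TConn η (TR 0 (2 * l) c e) (x, e, false) w := hw.mono_set fun v hv => hv.1
    exact ⟨x, (h1.tail ⟨h1.mem_right, h2.mem_right, hwu.symm, h1.open_right,
      h2.open_right⟩).trans h2.symm⟩

/-- Reflection of the closed cluster. -/
private theorem low_clo_rfx {v : TV} :
    v ∈ Clo (fun v => η (rfx l v)) l c d ↔ rfx l v ∈ Clo η l c d := by
  have h0 : neg (fun v => η (rfx l v)) = fun v => neg η (rfx l v) := rfl
  have hTR : TR (l - l) (l - 0) c d = TR 0 l c d := by
    rw [sub_self, sub_zero]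
  constructor
  · rintro ⟨x, hx⟩
    rw [h0, tconn_rfx, hTR] at hx
    exact ⟨l - x, by simpa [rfx] using hx⟩
  · rintro ⟨x, hx⟩
    refine ⟨l - x, ?_⟩
    rw [h0, tconn_rfx, hTR]
    simpa [rfx] using hx

private theorem low_exd_rfx {v : TV} :
    v ∈ Exd l c d (Clo (fun v => η (rfx l v)) l c d) ↔ rfx l v ∈ Exd l c d (Clo η l c d) := by
  have h1 : v ∈ TR 0 l c d ↔ rfx l v ∈ TR 0 l c d := by
    rw [mem_TR, mem_TR, fx_rfx, fy_rfx]; omega
  unfold Exd
  simp only [Set.mem_ofPred_eq]
  rw [← h1, fy_rfx, low_clo_rfx]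
  refine and_congr_right fun _ => or_congr_right (or_congr_right ?_)
  constructor
  · rintro ⟨w, hw, hwv⟩
    exact ⟨rfx l w, low_clo_rfx.1 hw, hwv.rfx l⟩
  · rintro ⟨w, hw, hwv⟩
    refine ⟨rfx l w, low_clo_rfx.2 (by rwa [rfx_rfx]), ?_⟩
    have h2 := hwv.rfx l
    rwa [rfx_rfx] at h2

private theorem low_zet_rfx :
    zet (fun v => η (rfx l v)) l c d = fun v => zet η l c d (rfx l v) := by
  funext v
  rw [Bool.eq_iff_iff, zet_eq_true, zet_eq_true, low_exd_rfx]

/-- Mirror image. -/
theorem low_joined_left (hde : d ≤ e)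
    (h : TConn (zet η l c d) (TR 0 l c d) (0, y, false) (l, y', false))
    (hF : FJ (fun v => η (rfx l v)) l c e (Exd l c d (Clo (fun v => η (rfx l v)) l c d))) :
    ∃ x : ℤ, TConn η (TR (-l) l c e) (l, y', false) (x, e, false) := by
  have h1 : TConn (zet (fun v => η (rfx l v)) l c d) (TR 0 l c d) (0, y', false)
      (l, y, false) := by
    rw [low_zet_rfx, tconn_rfx]
    have h2 := h.symm
    rw [sub_self, sub_zero]
    simpa [rfx] using h2
  obtain ⟨x, hx⟩ := low_joined hde h1 hF
  rw [tconn_rfx] at hx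
  refine ⟨l - x, ?_⟩
  have e1 : l - 2 * l = -l := by ring
  rw [e1, sub_zero] at hx
  simpa [rfx] using hx

/-- A vertical crossing of the double rectangle joins the explored set or its mirror image to the
top. -/
theorem fj_cover {η₀ : Config} (hl : 0 ≤ l) (hcd : c ≤ d) (hde : d ≤ e) (h0 : HC η₀ 0 l c d)
    (h : VC η 0 (2 * l) c e) :
    FJ η l c e (Exd l c d (Clo η₀ l c d)) ∨
      FJ (fun v => η (rfx (2 * l) v)) l c e (Exd l c d (Clo η₀ l c d)) := by
  set D : Set TV := Exd l c d (Clo η₀ l c d) with hD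
  set E : Set TV := D ∪ {v | rfx (2 * l) v ∈ D} with hE
  have hErfx : ∀ v : TV, v ∈ E → rfx (2 * l) v ∈ E := by
    intro v hv
    rcases hv with hv | hv
    · right
      simp only [Set.mem_ofPred_eq, rfx_rfx]
      exact hv
    · left; exact hv
  have hSrfx : ∀ v : TV, v ∈ TR 0 (2 * l) c e → rfx (2 * l) v ∈ TR 0 (2 * l) c e := by
    intro v hv
    rw [mem_TR] at hv ⊢
    rw [fx_rfx, fy_rfx]
    omega
  have hsub : TR 0 l c d ⊆ TR 0 (2 * l) c e := TR_mono le_rfl (by omega) le_rfl hde
  have hHC : HC (lowInd E) 0 (2 * l) c e := by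
    obtain ⟨y, y', h1⟩ := low_exists hl hcd h0
    have h2 : TConn (lowInd E) (TR 0 (2 * l) c e) (0, y, false) (l, y', false) :=
      h1.mono hsub fun v _ hv => lowInd_true.2 (Or.inl (zet_eq_true.1 hv).2)
    have h3 : TConn (lowInd E) (TR 0 (2 * l) c e) (rfx (2 * l) (0, y, false))
        (rfx (2 * l) (l, y', false)) :=
      h2.map (rfx (2 * l)) (fun v hv => hSrfx v hv)
        (fun v _ hv => lowInd_true.2 (hErfx v (lowInd_true.1 hv)))
        (fun a b _ _ hab => Or.inl (hab.rfx _))
    rw [low_rfx_fix (v := (l, y', false)) (by simp)] at h3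
    refine ⟨y, y, h2.trans ?_⟩
    have h4 := h3.symm
    simpa [rfx] using h4
  obtain ⟨x, x', hx⟩ := h
  have hx := hx.symm
  by_cases hE0 : ((x', e, false) : TV) ∈ E
  · rcases hE0 with h1 | h1
    · left
      exact ⟨_, h1, Or.inl (by simp)⟩
    · right
      exact ⟨_, h1, Or.inl (by rw [fy_rfx, fy_site])⟩
  · by_cases hz : ∃ z ∈ E, TConn η (TR 0 (2 * l) c e) (x', e, false) z
    · obtain ⟨z, hzE, hz⟩ := hz
      obtain ⟨w, w', h1, h2, h3, -⟩ := hz.exists_hit hE0 hzE
      rcases h3 with h3 | h3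
      · left
        exact ⟨w', h3, Or.inr ⟨w, x', h2.2.2.1, h1⟩⟩
      · right
        refine ⟨rfx (2 * l) w', h3, Or.inr ⟨rfx (2 * l) w, 2 * l - x', h2.2.2.1.rfx _, ?_⟩⟩
        have h4 : TConn (fun v => η (rfx (2 * l) v)) (TR 0 (2 * l) c e \ E)
            (rfx (2 * l) (x', e, false)) (rfx (2 * l) w) :=
          h1.map (rfx (2 * l)) (fun v hv => ⟨hSrfx v hv.1, fun hv' => hv.2 (by
              have := hErfx _ hv'
              rwa [rfx_rfx] at this)⟩)
            (fun v _ hv => by simp only [rfx_rfx]; exact hv)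
            (fun a b _ _ hab => Or.inl (hab.rfx _))
        have e1 : rfx (2 * l) (x', e, false) = (2 * l - x', e, false) := by simp [rfx]
        rw [e1] at h4
        exact h4
    · exfalso
      push Not at hz
      refine not_hc_and_vc hHC ⟨x, x', ?_⟩
      refine TConn.symm ?_
      refine hx.induction_right
        (P := fun v => TConn (neg (lowInd E)) (TR 0 (2 * l) c e) (x', e, false) v)
        (TConn.refl hx.mem_left (low_neg_ind.2 hE0)) ?_
      intro a b h1 h2 h3
      exact h3.tail ⟨h2.1, h2.2.1, h2.2.2.1, h3.open_right,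
        low_neg_ind.2 fun hb => hz b hb (h1.tail h2)⟩

end Pool.Agent.H83.Site

end

section

/-! # Conditioning on the lowest crossing -/

set_option autoImplicit false

open MeasureTheory ProbabilityTheory unitInterval

namespace Pool.Agent.H83.Site

open Pool.Agent.H89.Perc

/-! ### Auxiliary facts -/

/-- Whether there is a crossing is determined by the closed cluster of the bottom row. -/
theorem expl_hc_of_clo {l c d : ℤ} {η η₀ : Config} (hl : 0 ≤ l) (hcd : c ≤ d)
    (h0 : HC η₀ 0 l c d) (h : Clo η l c d = Clo η₀ l c d) : HC η 0 l c d := by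
  rcases hc_or_vc hl hcd η with h1 | ⟨x, x', h1⟩
  · exact h1
  · exfalso
    have h2 : (x', d, false) ∈ Clo η₀ l c d := by rw [← h]; exact ⟨x, h1⟩
    obtain ⟨z, hz⟩ := h2
    exact not_hc_and_vc h0 ⟨z, x', hz⟩

theorem expl_prob (p : I) (r : Bool) {l c d e : ℤ} (hl : 0 ≤ l) (hcd : c ≤ d) (hde : d ≤ e) :
    PT p r {η | HC η 0 l c d} * (1 - Real.sqrt (1 - PT p r {η | VC η 0 (2 * l) c e})) ≤
      PT p r (LJ l c d e) := by
  classical
  set F : Finset TV := eRect 0 l c d with hF
  set good : Finset (Finset TV) :=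
    F.powerset.filter (fun S => ∃ η₀ : Config, Clo η₀ l c d = (↑S : Set TV) ∧ HC η₀ 0 l c d)
    with hgood
  set E : Finset TV → Set Config := fun S => {η | Clo η l c d = (↑S : Set TV)} with hE
  set Y : Finset TV → Set Config := fun S => {η | FJ η l c e (Exd l c d (↑S : Set TV))} with hY
  set sE : Finset TV → Finset TV := fun S => F.filter (fun v => v ∈ Exd l c d (↑S : Set TV))
    with hsE
  set sY : Finset TV → Finset TV := fun S =>
    (eRect 0 (2 * l) c e).filter (fun v => v ∉ Exd l c d (↑S : Set TV)) with hsY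
  have hlE : ∀ S : Finset TV, LocalOn (sE S) (E S) := by
    intro S η η' h hη
    simp only [hE, Set.mem_ofPred_eq] at hη ⊢
    rw [← hη]
    apply expl_clo_eq
    intro v hv
    rw [hη] at hv
    exact h v (Finset.mem_filter.2 ⟨TR_subset_eRect hv.1, hv⟩)
  have hlY : ∀ S : Finset TV, LocalOn (sY S) (Y S) := by
    intro S η η' h hη
    exact expl_fj_congr (fun v hv hD => h v (Finset.mem_filter.2 ⟨TR_subset_eRect hv, hD⟩)) hη
  have hdisj : ∀ S : Finset TV, Disjoint (sE S) (sY S) := by
    intro S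
    rw [Finset.disjoint_left]
    intro v h1 h2
    exact (Finset.mem_filter.1 h2).2 (Finset.mem_filter.1 h1).2
  have hind : ∀ S : Finset TV, PT p r (E S ∩ Y S) = PT p r (E S) * PT p r (Y S) := fun S =>
    PT_indep (hlE S) (hlY S) (hdisj S)
  set q : ℝ := 1 - Real.sqrt (1 - PT p r {η | VC η 0 (2 * l) c e}) with hq
  have hq0 : 0 ≤ q := by
    have h1 : Real.sqrt (1 - PT p r {η | VC η 0 (2 * l) c e}) ≤ 1 := by
      rw [Real.sqrt_le_one]
      linarith only [PT_nonneg (p := p) (r := r) (E := {η | VC η 0 (2 * l) c e})]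
    linarith only [h1]
  -- the lower bound for `Y`
  have hYlow : ∀ S ∈ good, q ≤ PT p r (Y S) := by
    intro S hS
    obtain ⟨η₀, h0, h0'⟩ := (Finset.mem_filter.1 hS).2
    have hsub : {η | VC η 0 (2 * l) c e} ⊆
        Y S ∪ {η | (fun v => η (rfx (2 * l) v)) ∈ Y S} := by
      intro η hη
      have h1 := fj_cover hl hcd hde h0' hη
      rw [h0] at h1
      exact h1
    have hY' : LocalOn ((sY S).image (rfx (2 * l)))
        {η | (fun v => η (rfx (2 * l) v)) ∈ Y S} := by
      intro η η' h hη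
      exact hlY S _ _ (fun v hv => h _ (Finset.mem_image_of_mem _ hv)) hη
    have iY' : Incr {η : Config | (fun v => η (rfx (2 * l) v)) ∈ Y S} := by
      intro η η' h hη
      exact expl_fj_incr l c e _ _ _ (fun v => h _) hη
    have h2 := PT_sqrt_trick (p := p) (r := r) (hlY S) hY' (expl_fj_incr l c e _) iY'
      (PT_comp (hlY S) (rfx_injective (2 * l)).injOn (fun _ => rfl))
    have h3 := PT_mono (p := p) (r := r) hsub
    refine le_trans ?_ h2
    rw [hq]
    have h4 := Real.sqrt_le_sqrt (sub_le_sub_left h3 1)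
    linarith only [h4]
  have hV : PT p r {η | HC η 0 l c d} ≤ ∑ S ∈ good, PT p r (E S) := by
    refine (PT_mono ?_).trans (PT_biUnion_le good E)
    intro η hη
    have hcoe : (↑(F.filter (fun v => v ∈ Clo η l c d)) : Set TV) = Clo η l c d := by
      ext v
      simp only [Finset.coe_filter, Set.mem_ofPred_eq]
      exact ⟨fun h => h.2, fun h => ⟨TR_subset_eRect (expl_clo_subset η h), h⟩⟩
    rw [Set.mem_iUnion₂]
    refine ⟨F.filter (fun v => v ∈ Clo η l c d), ?_, ?_⟩
    · rw [hgood, Finset.mem_filter, Finset.mem_powerset]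
      exact ⟨Finset.filter_subset _ _, η, hcoe.symm, hη⟩
    · simp only [hE, Set.mem_ofPred_eq]
      exact hcoe.symm
  have hX : (⋃ S ∈ good, E S ∩ Y S) ⊆ LJ l c d e := by
    intro η hη
    rw [Set.mem_iUnion₂] at hη
    obtain ⟨S, hS, hηE, hηY⟩ := hη
    obtain ⟨η₀, h0, h0'⟩ := (Finset.mem_filter.1 hS).2
    simp only [hE, Set.mem_ofPred_eq] at hηE
    simp only [hY, Set.mem_ofPred_eq] at hηY
    refine ⟨expl_hc_of_clo hl hcd h0' (hηE.trans h0.symm), ?_⟩
    rw [hηE]
    exact hηY
  have hsum : PT p r (⋃ S ∈ good, E S ∩ Y S) = ∑ S ∈ good, PT p r (E S ∩ Y S) := by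
    have h1 : {ω : Config | full r ω ∈ ⋃ S ∈ good, E S ∩ Y S} =
        ⋃ S ∈ good, {ω : Config | full r ω ∈ E S ∩ Y S} := by
      ext ω
      simp only [Set.mem_ofPred_eq, Set.mem_iUnion]
    unfold PT
    rw [h1]
    unfold Pr
    refine measureReal_biUnion_finset ?_ ?_ (fun _ _ => measure_ne_top _ _)
    · intro S _ S' _ hne
      rw [Function.onFun, Set.disjoint_left]
      rintro ω ⟨h1, -⟩ ⟨h2, -⟩
      simp only [hE, Set.mem_ofPred_eq] at h1 h2
      exact hne (Finset.coe_injective (h1.symm.trans h2))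
    · intro S _
      exact (localOn_full r (LocalOn.inter' (hlE S) (hlY S))).measurableSet
  calc PT p r {η | HC η 0 l c d} * q
      ≤ (∑ S ∈ good, PT p r (E S)) * q := mul_le_mul_of_nonneg_right hV hq0
    _ = ∑ S ∈ good, PT p r (E S) * q := by rw [Finset.sum_mul]
    _ ≤ ∑ S ∈ good, PT p r (E S ∩ Y S) := by
        refine Finset.sum_le_sum fun S hS => ?_
        rw [hind S]
        exact mul_le_mul_of_nonneg_left (hYlow S hS) PT_nonneg
    _ = PT p r (⋃ S ∈ good, E S ∩ Y S) := hsum.symm
    _ ≤ PT p r (LJ l c d e) := PT_mono hX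

end Pool.Agent.H83.Site

end

section

/-! # Renormalisation of crossing probabilities -/

set_option autoImplicit false

open MeasureTheory ProbabilityTheory unitInterval

namespace Pool.Agent.H83.Site

open Pool.Agent.H89.Perc

theorem qc_eq (p : I) (r : Bool) {m : ℕ} (hm : 1 ≤ m) :
    qc p r m = 1 - PT p r {η | HC η 0 (4 * m) 1 m} := by
  have h : {η : Config | VC (neg η) 0 (4 * m) 1 m} = {η | HC η 0 (4 * m) 1 m}ᶜ := by
    ext η
    constructor
    · intro h1 h2
      exact not_hc_and_vc h2 h1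
    · intro h1
      rcases hc_or_vc (a := 0) (b := 4 * m) (c := 1) (d := m) (by omega) (by omega) η with h2 | h2
      · exact absurd h2 h1
      · exact h2
  unfold qc
  rw [h]
  exact PT_compl (localOn_HC _ _ _ _)

private theorem renorm_vshift (p : I) (r : Bool) (m : ℕ) (j : ℤ) :
    PT p r {η | VC η j (4 * m + j) 1 m} = PT p r {η | VC η 0 (4 * m) 1 m} := by
  have h := PT_VC_shf p r 0 (4 * m) 1 m j 0
  rw [zero_add, add_zero, add_zero] at h
  exact h

private theorem renorm_strip (p : I) (r : Bool) {m : ℕ} (hm : 1 ≤ m) (j : ℤ) :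
    PT p r {η | HC η (1 + j) (m + j) 1 m} ≤ PT p r {η | VC η 0 (4 * m) 1 m} := by
  have h := PT_HC_shf p r 1 m 0 (4 * m) j 0
  rw [add_zero, add_zero] at h
  rw [PT_VC_eq_HC, ← h]
  refine PT_mono fun η hη => ?_
  exact HC.mono hη le_rfl (by omega) le_rfl (by omega) (by omega)

private theorem renorm_seven (p : I) (r : Bool) {m : ℕ} (hm : 1 ≤ m) :
    PT p r {η | VC η 0 (8 * m) 1 m} ≤ 7 * PT p r {η | VC η 0 (4 * m) 1 m} := by
  set Q : ℝ := PT p r {η | VC η 0 (4 * m) 1 m} with hQ
  have v1 : PT p r {η | VC η (2 * m) (6 * m) 1 m} = Q := by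
    have := renorm_vshift p r m (2 * m)
    have e : (4 * (m : ℤ) + 2 * m) = 6 * m := by ring
    rw [e] at this
    exact this
  have v2 : PT p r {η | VC η (4 * m) (8 * m) 1 m} = Q := by
    have := renorm_vshift p r m (4 * m)
    have e : (4 * (m : ℤ) + 4 * m) = 8 * m := by ring
    rw [e] at this
    exact this
  have hs : ∀ (k : ℕ) (k' : ℤ), k' = k + 1 →
      PT p r {η | HC η (k * m + 1) (k' * m) 1 m} ≤ Q := by
    intro k k' hk
    have := renorm_strip p r hm (k * m)
    have e1 : (1 : ℤ) + k * m = k * m + 1 := by ring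
    have e2 : (m : ℤ) + k * m = k' * m := by rw [hk]; ring
    rw [e1, e2] at this
    exact this
  have s1 : PT p r {η | HC η (3 * m + 1) (4 * m) 1 m} ≤ Q := by
    have := hs 3 4 (by norm_num)
    exact_mod_cast this
  have s2 : PT p r {η | HC η (2 * m + 1) (3 * m) 1 m} ≤ Q := by
    have := hs 2 3 (by norm_num)
    exact_mod_cast this
  have s3 : PT p r {η | HC η (5 * m + 1) (6 * m) 1 m} ≤ Q := by
    have := hs 5 6 (by norm_num)
    exact_mod_cast this
  have s4 : PT p r {η | HC η (4 * m + 1) (5 * m) 1 m} ≤ Q := by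
    have := hs 4 5 (by norm_num)
    exact_mod_cast this
  have hsub : {η : Config | VC η 0 (8 * m) 1 m} ⊆
      ({η | VC η 0 (4 * m) 1 m} ∪ ({η | VC η (2 * m) (6 * m) 1 m} ∪
        {η | VC η (4 * m) (8 * m) 1 m})) ∪
      ({η | HC η (3 * m + 1) (4 * m) 1 m} ∪ ({η | HC η (2 * m + 1) (3 * m) 1 m} ∪
        ({η | HC η (5 * m + 1) (6 * m) 1 m} ∪ {η | HC η (4 * m + 1) (5 * m) 1 m}))) := by
    intro η hη
    exact renorm_geom hm hη
  have h0 := PT_mono (p := p) (r := r) hsub
  have h1 := PT_union_le (p := p) (r := r) (E := {η | VC η 0 (4 * m) 1 m} ∪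
      ({η | VC η (2 * m) (6 * m) 1 m} ∪ {η | VC η (4 * m) (8 * m) 1 m}))
    (F := {η | HC η (3 * m + 1) (4 * m) 1 m} ∪ ({η | HC η (2 * m + 1) (3 * m) 1 m} ∪
        ({η | HC η (5 * m + 1) (6 * m) 1 m} ∪ {η | HC η (4 * m + 1) (5 * m) 1 m})))
  have h2 := PT_union_le (p := p) (r := r) (E := {η | VC η 0 (4 * m) 1 m})
    (F := {η | VC η (2 * m) (6 * m) 1 m} ∪ {η | VC η (4 * m) (8 * m) 1 m})
  have h3 := PT_union_le (p := p) (r := r) (E := {η | VC η (2 * m) (6 * m) 1 m})
    (F := {η | VC η (4 * m) (8 * m) 1 m})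
  have h4 := PT_union_le (p := p) (r := r) (E := {η | HC η (3 * m + 1) (4 * m) 1 m})
    (F := {η | HC η (2 * m + 1) (3 * m) 1 m} ∪
        ({η | HC η (5 * m + 1) (6 * m) 1 m} ∪ {η | HC η (4 * m + 1) (5 * m) 1 m}))
  have h5 := PT_union_le (p := p) (r := r) (E := {η | HC η (2 * m + 1) (3 * m) 1 m})
    (F := {η | HC η (5 * m + 1) (6 * m) 1 m} ∪ {η | HC η (4 * m + 1) (5 * m) 1 m})
  have h6 := PT_union_le (p := p) (r := r) (E := {η | HC η (5 * m + 1) (6 * m) 1 m})
    (F := {η | HC η (4 * m + 1) (5 * m) 1 m})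
  rw [v1, v2] at h3
  linarith only [s1, s2, s3, s4, h0, h1, h2, h3, h4, h5, h6]

private theorem renorm_qc (p : I) (r : Bool) (m : ℕ) :
    qc p r m = PT (σ p) (!r) {η | VC η 0 (4 * m) 1 m} :=
  PT_neg (p := p) (r := r) (localOn_VC 0 (4 * m) 1 m)

theorem qc_step (p : I) (r : Bool) {m : ℕ} (hm : 1 ≤ m) :
    qc p r (2 * m) ≤ (11 * qc p r m) ^ 2 := by
  rw [renorm_qc, renorm_qc]
  set q := σ p
  set s := !r
  have hQ : 0 ≤ PT q s {η | VC η 0 (4 * m) 1 m} := PT_nonneg
  have h7 := renorm_seven q s hm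
  have hw : 0 ≤ PT q s {η | VC η 0 (8 * m) 1 m} := PT_nonneg
  have h1 : PT q s {η | VC η 0 (4 * (2 * m : ℕ)) 1 (2 * m : ℕ)} ≤
      PT q s ({η | VC η 0 (8 * m) 1 m} ∩ {η | VC η 0 (8 * m) (1 + m) (m + m)}) := by
    refine PT_mono fun η hη => ?_
    have hη' : VC η 0 (4 * (2 * m : ℕ)) 1 (2 * m : ℕ) := hη
    push_cast at hη'
    constructor
    · exact VC.mono hη' (by omega) (by omega) (by omega) (by omega) (by omega)
    · exact VC.mono hη' (by omega) (by omega) (by omega) (by omega) (by omega)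
  have h2 : PT q s {η | VC η 0 (8 * m) (1 + m) (m + m)} = PT q s {η | VC η 0 (8 * m) 1 m} := by
    have h := PT_VC_shf q s 0 (8 * m) 1 m 0 m
    rw [add_zero, add_zero] at h
    exact h
  have h3 : PT q s ({η | VC η 0 (8 * m) 1 m} ∩ {η | VC η 0 (8 * m) (1 + m) (m + m)}) =
      PT q s {η | VC η 0 (8 * m) 1 m} * PT q s {η | VC η 0 (8 * m) (1 + m) (m + m)} :=
    PT_indep (localOn_VC _ _ _ _) (localOn_VC _ _ _ _) (eRect_disjoint_x (by omega))
  rw [h3, h2] at h1
  refine h1.trans ?_
  nlinarith only [hQ, h7, hw]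

theorem qc_iter {p : I} {r : Bool} {m : ℕ} (hm : 1 ≤ m) (h : qc p r m ≤ 1 / 242) (k : ℕ) :
    qc p r (2 ^ k * m) ≤ 1 / 121 * (1 / 2) ^ (2 ^ k) := by
  induction k with
  | zero =>
    rw [pow_zero, one_mul, pow_one]
    refine h.trans ?_
    norm_num
  | succ k ih =>
    have h1 : 1 ≤ 2 ^ k * m := Nat.mul_pos (by positivity) hm
    have h2 := qc_step p r h1
    have e1 : 2 ^ (k + 1) * m = 2 * (2 ^ k * m) := by ring
    have h0 : 0 ≤ qc p r (2 ^ k * m) := PT_nonneg
    rw [e1]
    refine h2.trans ?_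
    have e2 : ((1 : ℝ) / 2) ^ (2 ^ (k + 1)) = ((1 / 2) ^ (2 ^ k)) ^ 2 := by
      rw [← pow_mul, pow_succ]
    rw [e2]
    have h3 : qc p r (2 ^ k * m) ^ 2 ≤ (1 / 121 * (1 / 2) ^ (2 ^ k)) ^ 2 :=
      pow_le_pow_left₀ h0 ih 2
    calc (11 * qc p r (2 ^ k * m)) ^ 2 = 121 * qc p r (2 ^ k * m) ^ 2 := by ring
      _ ≤ 121 * (1 / 121 * (1 / 2) ^ (2 ^ k)) ^ 2 := by linarith only [h3]
      _ = _ := by ring

end Pool.Agent.H83.Site

end

section

/-! # Lower bound for arm probabilities by the van den Berg-Kesten inequality -/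

set_option autoImplicit false

open MeasureTheory ProbabilityTheory unitInterval

namespace Pool.Agent.H83.Site

open Pool.Agent.H89.Perc

/-! ### Disjoint occurrence -/

theorem ablower_Pr_two (p : I) {r : Bool} {F : Finset Edge} {A B : Set Config}
    (hA : LocalOn F A) (hB : LocalOn F B) (iA : Incr A) (iB : Incr B) :
    Pr p (ablower_two r A B) ≤ PT p r A * PT p r B := by
  classical
  have hupA : Pool.Agent.Perc.UpOn F (fun S => ofS S ∈ {ω | full r ω ∈ A}) :=
    fun S T hST _ h => incr_full r iA _ _ (ofS_mono hST) h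
  have hupB : Pool.Agent.Perc.UpOn F (fun S => ofS S ∈ {ω | full r ω ∈ B}) :=
    fun S T hST _ h => incr_full r iB _ _ (ofS_mono hST) h
  have key := Pool.Agent.Perc.bk (p := (p : ℝ)) (F := F) p.2.1 p.2.2 hupA hupB
  unfold PT
  rw [Pr_eq_Ex (ablower_localOn_two hA hB), Pr_eq_Ex (localOn_full r hA),
    Pr_eq_Ex (localOn_full r hB)]
  refine le_trans ?_ key
  unfold Pool.Agent.Perc.Pr
  refine Pool.Agent.Perc.Ex_mono p.2.1 p.2.2 fun S _ => Pool.Agent.Perc.ind_le_ind ?_
  rintro ⟨ω₁, ω₂, h1, h2, h3, h4, h5⟩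
  have hof : ∀ ω' : Config, (∀ e, ω' e = true → ofS S e = true) →
      ofS (S.filter fun e => ω' e = true) = ω' := by
    intro ω' h
    funext e
    rw [Bool.eq_iff_iff, ofS_eq_true, Finset.mem_filter]
    exact ⟨fun h' => h'.2, fun h' => ⟨ofS_eq_true.1 (h e h'), h'⟩⟩
  refine ⟨S.filter fun e => ω₁ e = true, S.filter fun e => ω₂ e = true,
    Finset.filter_subset _ _, Finset.filter_subset _ _, ?_, ?_, ?_⟩
  · rw [Finset.disjoint_left]
    intro e he he'
    have h6 := h3 e (Finset.mem_filter.1 he).2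
    rw [(Finset.mem_filter.1 he').2] at h6
    exact absurd h6 (by decide)
  · rw [hof ω₁ h1]
    exact h4
  · rw [hof ω₂ h2]
    exact h5

/-! ### Splitting of a self-avoiding path -/

/-- A horizontal crossing of a `2 : 1` rectangle contains two disjoint paths from two vertices
next to each other to the left and right sides. -/
theorem ablower_split {η : Config} {m : ℤ} (hm : 1 ≤ m) (h : HC η 0 (2 * m) 0 m) :
    ∃ (y : ℤ) (S T : Set TV) (u v : TV) (a b : ℤ), 0 ≤ y ∧ y ≤ m ∧ -1 ≤ a ∧ a ≤ 1 ∧ -1 ≤ b ∧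
      b ≤ 1 ∧ (∀ x ∈ S, x ∉ T) ∧ (∀ x ∈ S, η x = true) ∧ (∀ x ∈ T, η x = true) ∧
      TConn η S (m, y, false) u ∧ fx u = 0 ∧ TConn η T (m + a, y + b, false) v ∧
      fx v = 4 * m := by
  classical
  obtain ⟨y₁, y₂, hc⟩ := h
  obtain ⟨P, hP⟩ := ablower_walk hc
  obtain ⟨hPo, hPc⟩ := ablower_tconn P hc.open_left
  have h1 := hPc {x | x ∈ P.support ∧ x ∈ TR 0 (2 * m) 0 m} (by
    intro x hx
    refine ⟨hx, ?_⟩
    have h2 : ∀ {a b : TV} (Q : (ablower_graph η (TR 0 (2 * m) 0 m)).Walk a b),
        a ∈ TR 0 (2 * m) 0 m → ∀ x ∈ Q.support, x ∈ TR 0 (2 * m) 0 m := by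
      intro a b Q
      induction Q with
      | nil =>
        intro ha x hx
        rw [SimpleGraph.Walk.support_nil, List.mem_singleton] at hx
        rw [hx]; exact ha
      | @cons a c b h q ih =>
        intro ha x hx
        rw [SimpleGraph.Walk.support_cons, List.mem_cons] at hx
        rcases hx with hx | hx
        · rw [hx]; exact ha
        · exact ih (ablower_adj.1 h).2.2.1 x hx
    exact h2 P hc.mem_left x hx)
  obtain ⟨y, y', h2, -, -⟩ := h1.cross_x (a := m) (b := m) (by simp only [fx_site]; omega)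
    (by simp only [fx_site]; omega) le_rfl
  have hz := h2.mem_left.1
  have hzP : ((m, y, false) : TV) ∈ P.support := hz.1
  have hzR := mem_TR_site.1 hz.2
  obtain ⟨P1, hP1⟩ : ∃ P1, P1 = P.takeUntil _ hzP := ⟨_, rfl⟩
  obtain ⟨P2, hP2⟩ : ∃ P2, P2 = P.dropUntil _ hzP := ⟨_, rfl⟩
  have hspec : P1.append P2 = P := by rw [hP1, hP2]; exact P.take_spec hzP
  have hnd : (P1.append P2).support.Nodup := by rw [hspec]; exact hP.support_nodup
  rw [SimpleGraph.Walk.support_append] at hnd
  have hdj := List.disjoint_of_nodup_append hnd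
  obtain ⟨hP1o, hP1c⟩ := ablower_tconn P1 hc.open_left
  obtain ⟨w, hadj, q, rfl⟩ := SimpleGraph.Walk.exists_eq_cons_of_ne (by
    intro h3
    have h4 := congrArg Prod.fst h3
    simp only at h4
    omega) P2
  rw [SimpleGraph.Walk.support_cons, List.tail_cons] at hdj
  have hst := (ablower_adj.1 hadj).2
  obtain ⟨hqo, hqc⟩ := ablower_tconn q hst.2.2.2.2
  have hdj' : ∀ x ∈ {x | x ∈ P1.support}, x ∉ {x | x ∈ q.support} := fun x h3 h4 => hdj h3 h4
  have hw1 : TConn η {x | x ∈ q.support} w (2 * m, y₂, false) := hqc _ fun x hx => hx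
  have hTA := hst.2.2.1
  refine ⟨y, {x | x ∈ P1.support}, {x | x ∈ q.support}, (0, y₁, false), (2 * m, y₂, false), ?_⟩
  have hcom : (0 ≤ y ∧ y ≤ m) ∧ (∀ x ∈ {x | x ∈ P1.support}, x ∉ {x | x ∈ q.support}) ∧
      (∀ x ∈ {x | x ∈ P1.support}, η x = true) ∧ (∀ x ∈ {x | x ∈ q.support}, η x = true) ∧
      TConn η {x | x ∈ P1.support} (m, y, false) (0, y₁, false) :=
    ⟨⟨hzR.2.2.1, hzR.2.2.2⟩, hdj', hP1o, hqo, (hP1c _ fun x hx => hx).symm⟩
  obtain ⟨⟨c1, c2⟩, c3, c4, c5, c6⟩ := hcom
  suffices hsuff : ∃ w' : TV, w'.2.2 = false ∧ -1 ≤ w'.1 - m ∧ w'.1 - m ≤ 1 ∧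
      -1 ≤ w'.2.1 - y ∧ w'.2.1 - y ≤ 1 ∧
      TConn η {x | x ∈ q.support} w' (2 * m, y₂, false) by
    obtain ⟨w', d1, d2, d3, d4, d5, d6⟩ := hsuff
    refine ⟨w'.1 - m, w'.2.1 - y, c1, c2, d2, d3, d4, d5, c3, c4, c5, c6, by simp, ?_,
      by simp only [fx_site]; ring⟩
    have : ((m + (w'.1 - m), y + (w'.2.1 - y), false) : TV) = w' := by
      ext
      · simp
      · simp
      · simp [d1]
    rw [this]
    exact d6
  unfold TAdj at hTA
  simp only [Bool.false_eq_true, false_and, or_false, true_and] at hTA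
  by_cases hwc : w.2.2 = false
  · refine ⟨w, hwc, ?_, ?_, ?_, ?_, hw1⟩ <;>
      rcases hTA with ⟨_, h3⟩ | ⟨h3, _⟩
    all_goals first
      | (rw [hwc] at h3; exact absurd h3 (by decide))
      | omega
  · have hwt : w.2.2 = true := by simpa using hwc
    obtain ⟨e1, e2, e3⟩ := hw1
    rcases Relation.ReflTransGen.cases_head e3 with h3 | ⟨w', h3, h4⟩
    · rw [h3] at hwc
      exact absurd rfl hwc
    · have hTA' := h3.2.2.1
      refine ⟨w', ?_, ?_, ?_, ?_, ?_, ⟨h3.2.1, h3.2.2.2.2, h4⟩⟩
      · unfold TAdj at hTA'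
        rcases hTA' with ⟨h5, _⟩ | ⟨h5, _⟩ | ⟨_, h5, _⟩
        · exact absurd h5 hwc
        · exact absurd h5 hwc
        · exact h5
      all_goals
        unfold TAdj at hTA'
        rcases hTA' with ⟨h5, _⟩ | ⟨h5, _⟩ | ⟨_, h5, h6, h7⟩
        · exact absurd h5 hwc
        · exact absurd h5 hwc
        · rcases hTA with ⟨h8, _⟩ | ⟨_, h8, h9⟩
          · exact absurd h8 hwc
          · omega

/-! ### The configuration of the sites of a set -/

theorem ab_lower {c : ℝ} (hc : 0 < c) : ∃ c' > (0 : ℝ), ∀ (p₀ : I) (r : Bool),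
    (∀ m : ℕ, 1 ≤ m → c ≤ PT p₀ r {η | HC η 0 ((2 : ℕ) * m) 0 m}) →
    ∀ p : I, p₀ ≤ p → ∀ s n : ℕ, s ≤ n → 1 ≤ n →
      c' * Real.sqrt (((s : ℝ) + 1) / n) ≤ ab p r s n := by
  refine ⟨Real.sqrt (c / 45), by positivity, fun p₀ r hHC p hp s n hs hn => ?_⟩
  refine le_trans ?_ (ab_mono_param r s n hp)
  set P := ab p₀ r s n with hP
  have hP0 : 0 ≤ P := ab_nonneg
  set M : ℤ := 2 * s + 1 with hM
  set N : ℤ := (n + 1 + s) / M with hN
  have hMpos : 0 < M := by omega
  have hN0 : 0 ≤ N := Int.ediv_nonneg (by omega) hMpos.le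
  let G : Finset (ℤ × ℤ × ℤ) := Finset.Icc 0 N ×ˢ Finset.Icc (-1) 1 ×ˢ Finset.Icc (-1) 1
  let Ev : ℤ × ℤ × ℤ → Set Config := fun i =>
    ablower_two r (AB (n + 1) (M * i.1) s n) (AB (n + 1 + i.2.1) (M * i.1 + i.2.2) s n)
  have hsub : {ω : Config | full r ω ∈ {η | HC η 0 ((2 : ℕ) * ((n + 1 : ℕ) : ℤ)) 0 ((n + 1 : ℕ) : ℤ)}} ⊆
      ⋃ i ∈ G, Ev i := by
    intro ω hω
    have hω' : HC (full r ω) 0 (2 * (n + 1 : ℤ)) 0 (n + 1 : ℤ) := by
      have h := hω
      simp only [Set.mem_ofPred_eq] at h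
      push_cast at h
      exact h
    obtain ⟨y, S, T, u, v, a, b, h1, h2, h3, h4, h5, h6, h7, h8, h9, h10, h11, h12, h13⟩ :=
      ablower_split (by omega) hω'
    set i : ℤ := (y + s) / M with hi
    have hi1 : M * i ≤ y + s := Int.mul_ediv_self_le hMpos.ne'
    have hi2 : y + s < M * i + M := by
      have := Int.lt_mul_ediv_self_add (x := y + s) hMpos
      exact this
    have hiN : ((i, a, b) : ℤ × ℤ × ℤ) ∈ G := by
      simp only [G, Finset.mem_product, Finset.mem_Icc]
      refine ⟨⟨Int.ediv_nonneg (by omega) hMpos.le, ?_⟩, ⟨h3, h4⟩, ⟨h5, h6⟩⟩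
      rw [hi, hN]
      exact Int.ediv_le_ediv hMpos (by omega)
    refine Set.mem_biUnion hiN ?_
    refine ⟨ablower_cfg S, ablower_cfg T, ablower_le h8, ablower_le h9, ablower_disj h7, ?_, ?_⟩
    · refine (ablower_conn h10).mem_AB hs ?_ (Or.inl (by rw [h11]; omega))
      rw [mem_TR_site]
      simp only
      omega
    · refine (ablower_conn h12).mem_AB hs ?_ (Or.inr (Or.inl (by
        rw [h13]
        simp only
        omega)))
      rw [mem_TR_site]
      simp only
      omega
  have hEv : ∀ i, Pr p₀ (Ev i) ≤ P ^ 2 := by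
    intro i
    have h1 := ablower_Pr_two p₀ (r := r)
      ((localOn_AB (n + 1) (M * i.1) s n).mono (Finset.subset_union_left
        (s₂ := eRect (n + 1 + i.2.1 - n) (n + 1 + i.2.1 + n) (M * i.1 + i.2.2 - n)
          (M * i.1 + i.2.2 + n))))
      ((localOn_AB (n + 1 + i.2.1) (M * i.1 + i.2.2) s n).mono Finset.subset_union_right)
      (incr_AB _ _ _ _) (incr_AB _ _ _ _)
    rw [PT_AB, PT_AB] at h1
    rw [sq]
    exact h1
  have hcard : (G.card : ℝ) = 9 * (N + 1) := by
    have h1 : G.card = (N + 1).toNat * (3 * 3) := by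
      simp only [G, Finset.card_product, Int.card_Icc]
      have e1 : (N + 1 - 0).toNat = (N + 1).toNat := by rw [sub_zero]
      rw [e1]
      rfl
    have h2 : ((N + 1).toNat : ℤ) = N + 1 := Int.toNat_of_nonneg (by omega)
    have h3 : (((N + 1).toNat : ℕ) : ℝ) = (N : ℝ) + 1 := by exact_mod_cast h2
    rw [h1]
    push_cast
    rw [h3]
    ring
  have hfin : c ≤ 9 * ((N : ℝ) + 1) * P ^ 2 := by
    calc c ≤ _ := hHC (n + 1) (by omega)
      _ ≤ Pr p₀ (⋃ i ∈ G, Ev i) := Pr_mono hsub
      _ ≤ ∑ i ∈ G, Pr p₀ (Ev i) := Pr_biUnion_le _ _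
      _ ≤ ∑ _i ∈ G, P ^ 2 := Finset.sum_le_sum (fun i _ => hEv i)
      _ = 9 * ((N : ℝ) + 1) * P ^ 2 := by
        rw [Finset.sum_const, nsmul_eq_mul, hcard]
  have hn' : (1 : ℝ) ≤ n := by exact_mod_cast hn
  have hs' : (s : ℝ) ≤ n := by exact_mod_cast hs
  have hs0 : (0 : ℝ) ≤ s := Nat.cast_nonneg s
  have hNb : ((N : ℝ) + 1) * (s + 1) ≤ 5 * n := by
    have h5 : M * N ≤ n + 1 + s := Int.mul_ediv_self_le hMpos.ne'
    have h6 : ((M : ℝ)) * N ≤ n + 1 + s := by exact_mod_cast h5
    have hN0' : (0 : ℝ) ≤ N := by exact_mod_cast hN0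
    have h7 : (M : ℝ) = 2 * s + 1 := by rw [hM]; push_cast; ring
    rw [h7] at h6
    nlinarith only [hn', hs', h6, hs0, hN0', mul_nonneg hs0 hN0']
  have hkey : c / 45 * ((s + 1) / (n : ℝ)) ≤ P ^ 2 := by
    have hnpos : (0 : ℝ) < n := by linarith only [hn']
    have h1 : c * (s + 1) ≤ 45 * n * P ^ 2 := by
      calc c * (s + 1) ≤ 9 * ((N : ℝ) + 1) * P ^ 2 * (s + 1) :=
            mul_le_mul_of_nonneg_right hfin (by linarith)
        _ = 9 * (((N : ℝ) + 1) * (s + 1)) * P ^ 2 := by ring
        _ ≤ 9 * (5 * n) * P ^ 2 := by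
            refine mul_le_mul_of_nonneg_right ?_ (sq_nonneg P)
            exact mul_le_mul_of_nonneg_left hNb (by norm_num)
        _ = 45 * n * P ^ 2 := by ring
    rw [← mul_div_assoc, div_le_iff₀ hnpos]
    linarith only [h1]
  rw [← Real.sqrt_mul (by positivity)]
  exact Real.sqrt_le_iff.2 ⟨hP0, hkey⟩

end Pool.Agent.H83.Site

end

section

/-!
# Transfer to site percolation on `ℤ × ℤ`
-/

set_option autoImplicit false

open MeasureTheory ProbabilityTheory unitInterval

namespace Pool.Agent.H83.Site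

open Pool.Agent.H89.Perc

variable {r : Bool} {ω : ℤ × ℤ → Bool}

section graph

variable {G : SimpleGraph (ℤ × ℤ)}

end graph

end Pool.Agent.H83.Site

end

section

/-!
# Site percolation through the induced bond configuration

Site configurations are stored at the edges `(x, y, false)` of the lattice. `sit ω` is the induced
bond configuration: an edge is open if both endpoints are open sites. `Pr p A` is the probability
that the induced configuration is in `A`, when the sites are open with probability `p`.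
-/

set_option autoImplicit false

open MeasureTheory ProbabilityTheory unitInterval

namespace Pool.Agent.H83.SK

open Pool.Agent.H89.Perc

variable {s t : Finset Edge} {A B : Set Config} {p q : I}

theorem Pr_nonneg : 0 ≤ Pr p A := Pool.Agent.H89.Perc.Pr_nonneg

/-! ### Symmetries -/

theorem isAut_shift (z : Vert) : IsAut (shiftE z) := by
  refine ⟨fun w => (w.1 + z.1, w.2 + z.2), ?_, ?_⟩
  · rintro ⟨a, b⟩ ⟨c, d⟩ h
    simpa using h
  · rintro ⟨x, y, t⟩
    left
    refine ⟨rfl, ?_⟩
    cases t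
    · simp only [tgt, shiftE]
      ext <;> (simp; try ring)
    · simp only [tgt, shiftE]
      ext <;> (simp; try ring)

theorem Pr_hcross_translate {a b c d : ℤ} (x y : ℤ) :
    Pr p {ω | HCross ω (a + x) (b + x) (c + y) (d + y)} = Pr p {ω | HCross ω a b c d} := by
  rw [← Pr_comp (localOn_hcross a b c d) (isAut_shift (x, y))]
  congr 1
  ext ω
  exact (hcross_shift x y).symm

theorem Pr_vcross_translate {a b c d : ℤ} (x y : ℤ) :
    Pr p {ω | VCross ω (a + x) (b + x) (c + y) (d + y)} = Pr p {ω | VCross ω a b c d} := by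
  rw [← Pr_comp (localOn_vcross a b c d) (isAut_shift (x, y))]
  congr 1
  ext ω
  exact (vcross_shift x y).symm

/-! ### One-arm events -/

theorem Pr_armBox (v : Vert) (k r : ℕ) : Pr p (ArmBox v k r) = Pr p (ArmBox 0 k r) := by
  rw [← armBox_shift v k r, Pr_comp (localOn_armBox 0 k r) (isAut_shift v)]

/-! ### The box-crossing regime -/

/-- Box-crossing regime: for all scales up to `n`, open crossings of `4 : 1` rectangles in the long
direction, and absence of open crossings in the short direction, have probability at least `c`. -/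
def RSWreg (c : ℝ) (n : ℕ) (q : I) : Prop :=
  ∀ m : ℕ, 1 ≤ m → m ≤ n → c ≤ Pr q {ω | HCross ω 0 (4 * m) 0 m} ∧
    c ≤ Pr q {ω | ¬ VCross ω 0 (4 * m) 0 m}

end Pool.Agent.H83.SK

end

section

/-!
# Near-critical site percolation: definitions and interfaces

Four-arm events are sets of bond configurations (used for `sit w`), torus events are sets of site
configurations. `a4 q r` is the probability that the origin has two neighbours which are joined to
distance `r` by open paths avoiding the origin and which are not joined to each other by such a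
path.
-/

set_option autoImplicit false

open MeasureTheory ProbabilityTheory unitInterval

namespace Pool.Agent.H92.SN

open Pool.Agent.H89.Perc Pool.Agent.H61.NC
open Pool.Agent.H83.SK (sv sit)

/-- Four-arm event of the site `v`, for the induced bond configuration: two neighbours of `v` are
joined to the sphere of radius `r` around `v` and not joined to each other, off `v`, inside the
ball. -/
def A4 (v : Vert) (r : ℕ) : Set Config :=
  {ω | ∃ a b, Nb v a ∧ Nb v b ∧ (∃ u ∈ sphere v r, Conn (closeV v ω) (ball v r) a u) ∧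
    (∃ u ∈ sphere v r, Conn (closeV v ω) (ball v r) b u) ∧ ¬ Conn (closeV v ω) (ball v r) a b}

/-- Four-arm probability. -/
noncomputable def a4 (q : I) (r : ℕ) : ℝ := Pool.Agent.H83.SK.Pr q (A4 0 r)

/-! ### Interfaces -/

/-! ### The connection of the neighbours of a site -/

end Pool.Agent.H92.SN

end

section

/-!
# Site percolation, RSW regime: crossings of all rectangles of bounded aspect ratio, both colours
-/

open MeasureTheory ProbabilityTheory unitInterval

namespace Pool.Agent.H83.SK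

open Pool.Agent.H89.Perc Pool.Agent.H85.Strict

/-- Long crossings. -/
theorem long_rsw {q : I} {n : ℕ} {c₀ : ℝ} (hc : 0 ≤ c₀)
    (h : c₀ ≤ Pr q {ω | HCross ω 0 (4 * n) 0 n}) (j : ℕ) :
    c₀ ^ (2 * j + 1) ≤ Pr q {ω | HCross ω 0 ((4 + 3 * j) * n) 0 n} := by
  induction j with
  | zero => simpa using h
  | succ j ih =>
    have hn : (0 : ℤ) ≤ n := by positivity
    have hjn : (0 : ℤ) ≤ (j : ℤ) * n := by positivity
    have hV : c₀ ≤ Pr q {ω | VCross ω ((3 + 3 * j) * n) ((4 + 3 * j) * n) 0 n} := by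
      rw [Pr_vcross_eq_hcross]
      have h1 := Pr_hcross_translate (p := q) (a := 0) (b := (n : ℤ)) (c := 0) (d := (n : ℤ)) 0
        ((3 + 3 * j) * n)
      have e1 : (0 : ℤ) + (3 + 3 * j) * n = (3 + 3 * j) * n := by ring
      have e2 : (n : ℤ) + (3 + 3 * j) * n = (4 + 3 * j) * n := by ring
      rw [e1, e2, add_zero, add_zero] at h1
      rw [h1]
      refine h.trans (Pr_mono fun ω hω => ?_)
      exact HCross.mono hω le_rfl hn (by omega) le_rfl le_rfl
    have hH : c₀ ≤ Pr q {ω | HCross ω ((3 + 3 * j) * n) ((7 + 3 * j) * n) 0 n} := by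
      have h1 := Pr_hcross_translate (p := q) (a := 0) (b := 4 * (n : ℤ)) (c := 0) (d := (n : ℤ))
        ((3 + 3 * j) * n) 0
      have e1 : (0 : ℤ) + (3 + 3 * j) * n = (3 + 3 * j) * n := by ring
      have e2 : 4 * (n : ℤ) + (3 + 3 * j) * n = (7 + 3 * j) * n := by ring
      rw [e1, e2, add_zero, add_zero] at h1
      rw [h1]
      exact h
    have f1 := fkg (p := q) (localOn_hcross 0 ((4 + 3 * (j : ℤ)) * n) 0 n)
      (localOn_vcross ((3 + 3 * (j : ℤ)) * n) ((4 + 3 * (j : ℤ)) * n) 0 n)
      (incr_hcross _ _ _ _) (incr_vcross _ _ _ _)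
    have f2 := fkg (p := q) ((localOn_hcross 0 ((4 + 3 * (j : ℤ)) * n) 0 n).inter'
      (localOn_vcross ((3 + 3 * (j : ℤ)) * n) ((4 + 3 * (j : ℤ)) * n) 0 n))
      (localOn_hcross ((3 + 3 * (j : ℤ)) * n) ((7 + 3 * (j : ℤ)) * n) 0 n)
      ((incr_hcross _ _ _ _).inter (incr_vcross _ _ _ _)) (incr_hcross _ _ _ _)
    have e : c₀ ^ (2 * (j + 1) + 1) = c₀ ^ (2 * j + 1) * c₀ * c₀ := by ring
    rw [e]
    have g1 := (mul_le_mul ih hV hc Pr_nonneg).trans f1
    have g2 := (mul_le_mul g1 hH hc Pr_nonneg).trans f2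
    refine g2.trans (Pr_mono ?_)
    rintro ω ⟨⟨w1, w2⟩, w3⟩
    have := hcross_glue (by nlinarith only [hjn]) (by nlinarith only) (by nlinarith only) hn w1 w2 w3
    show HCross ω 0 ((4 + 3 * ((j + 1 : ℕ) : ℤ)) * n) 0 n
    have e : (4 + 3 * ((j + 1 : ℕ) : ℤ)) * n = (7 + 3 * (j : ℤ)) * n := by push_cast; ring
    rw [e]
    exact this

theorem Pr_novcross_translate {p : I} {a b c d : ℤ} (x y : ℤ) :
    Pr p {ω | ¬ VCross ω (a + x) (b + x) (c + y) (d + y)} = Pr p {ω | ¬ VCross ω a b c d} := by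
  have h1 := Pr_compl (p := p) (localOn_vcross (a + x) (b + x) (c + y) (d + y))
  have h2 := Pr_compl (p := p) (localOn_vcross a b c d)
  rw [Pr_vcross_translate] at h1
  exact h1.trans h2.symm

/-- Absence of crossings of long rectangles in the short direction. -/
theorem long_closed {q : I} {n : ℕ} {c₀ : ℝ} (hc : 0 ≤ c₀)
    (h : c₀ ≤ Pr q {ω | ¬ VCross ω 0 (4 * n) 0 n}) (j : ℕ) :
    c₀ ^ (2 * j + 1) ≤ Pr q {ω | ¬ VCross ω 0 ((4 + 3 * j) * n) 0 n} := by
  induction j with
  | zero => simpa using h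
  | succ j ih =>
    have hn : (0 : ℤ) ≤ n := by positivity
    have hjn : (0 : ℤ) ≤ (j : ℤ) * n := by positivity
    have hV : c₀ ≤ Pr q {ω | ¬ HCross ω ((3 + 3 * j) * n) ((4 + 3 * j) * n) 0 n} := by
      rw [← Pr_novcross_eq]
      have h1 := Pr_novcross_translate (p := q) (a := 0) (b := (n : ℤ)) (c := 0) (d := (n : ℤ)) 0
        ((3 + 3 * j) * n)
      have e1 : (0 : ℤ) + (3 + 3 * j) * n = (3 + 3 * j) * n := by ring
      have e2 : (n : ℤ) + (3 + 3 * j) * n = (4 + 3 * j) * n := by ring
      rw [e1, e2, add_zero, add_zero] at h1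
      rw [h1]
      refine h.trans (Pr_mono fun ω hω => ?_)
      exact fun hv => hω (VCross.mono hv le_rfl (by omega) le_rfl hn le_rfl)
    have hH : c₀ ≤ Pr q {ω | ¬ VCross ω ((3 + 3 * j) * n) ((7 + 3 * j) * n) 0 n} := by
      have h1 := Pr_novcross_translate (p := q) (a := 0) (b := 4 * (n : ℤ)) (c := 0) (d := (n : ℤ))
        ((3 + 3 * j) * n) 0
      have e1 : (0 : ℤ) + (3 + 3 * j) * n = (3 + 3 * j) * n := by ring
      have e2 : 4 * (n : ℤ) + (3 + 3 * j) * n = (7 + 3 * j) * n := by ring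
      rw [e1, e2, add_zero, add_zero] at h1
      rw [h1]
      exact h
    have f1 := fkg_decr (p := q) (localOn_novcross 0 ((4 + 3 * (j : ℤ)) * n) 0 n)
      (localOn_nohcross ((3 + 3 * (j : ℤ)) * n) ((4 + 3 * (j : ℤ)) * n) 0 n)
      (decr_novcross _ _ _ _) (decr_nohcross _ _ _ _)
    have f2 := fkg_decr (p := q) ((localOn_novcross 0 ((4 + 3 * (j : ℤ)) * n) 0 n).inter'
      (localOn_nohcross ((3 + 3 * (j : ℤ)) * n) ((4 + 3 * (j : ℤ)) * n) 0 n))
      (localOn_novcross ((3 + 3 * (j : ℤ)) * n) ((7 + 3 * (j : ℤ)) * n) 0 n)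
      (by
        rw [Set.compl_inter]
        exact Incr.union (decr_novcross _ _ _ _) (decr_nohcross _ _ _ _)) (decr_novcross _ _ _ _)
    have e : c₀ ^ (2 * (j + 1) + 1) = c₀ ^ (2 * j + 1) * c₀ * c₀ := by ring
    rw [e]
    have g1 := (mul_le_mul ih hV hc Pr_nonneg).trans f1
    have g2 := (mul_le_mul g1 hH hc Pr_nonneg).trans f2
    refine g2.trans (Pr_mono ?_)
    rintro ω ⟨⟨w1, w2⟩, w3⟩
    have := novcross_glue (by nlinarith only [hjn]) (by nlinarith only) (by nlinarith only) w1 w2 w3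
    show ¬ VCross ω 0 ((4 + 3 * ((j + 1 : ℕ) : ℤ)) * n) 0 n
    have e : (4 + 3 * ((j + 1 : ℕ) : ℤ)) * n = (7 + 3 * (j : ℤ)) * n := by push_cast; ring
    rw [e]
    exact this

/-- Crossings of all rectangles of aspect ratio at most `K` and height at most `K n`. -/
theorem rect_lower (c : ℝ) (hc : 0 < c) (K : ℕ) : ∃ c' : ℝ, 0 < c' ∧ ∀ (n : ℕ) (q : I), 1 ≤ n →
    RSWreg c n q → ∀ a b y z : ℤ, a ≤ b → y < z → b - a ≤ K * (z - y) → z - y ≤ K * n →
      c' ≤ Pr q {ω | HCross ω a b y z} ∧ c' ≤ Pr q {ω | VCross ω y z a b} := by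
  refine ⟨c ^ (2 * (K * K) + 1), pow_pos hc _, ?_⟩
  intro n q hn hreg a b y z hab hyz h1 h2
  have key : c ^ (2 * (K * K) + 1) ≤ Pr q {ω | HCross ω a b y z} := by
    obtain ⟨h, hh⟩ : ∃ h : ℕ, (h : ℤ) = z - y := ⟨(z - y).toNat, Int.toNat_of_nonneg (by omega)⟩
    have hh1 : 1 ≤ h := by omega
    have hK : h ≤ K * n := by
      have : (h : ℤ) ≤ ((K * n : ℕ) : ℤ) := by push_cast; rw [hh]; exact h2
      exact_mod_cast this
    have hK1 : 1 ≤ K := by
      rcases Nat.eq_zero_or_pos K with h0 | h0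
      · rw [h0, zero_mul] at hK
        omega
      · exact h0
    set m : ℕ := min h n with hm
    have hm1 : 1 ≤ m := le_min hh1 hn
    have hmh : m ≤ h := min_le_left _ _
    have hmn : m ≤ n := min_le_right _ _
    have hhm : h ≤ K * m := by
      rcases min_choice h n with h3 | h3
      · rw [hm, h3]; exact Nat.le_mul_of_pos_left _ hK1
      · rw [hm, h3]; exact hK
    have hlen : b - a ≤ ((4 + 3 * (K * K) : ℕ) : ℤ) * m := by
      have e1 : b - a ≤ K * (h : ℤ) := by rw [hh]; exact h1
      have e2 : (h : ℤ) ≤ K * (m : ℤ) := by exact_mod_cast hhm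
      have e3 : (K : ℤ) * h ≤ K * (K * m) := mul_le_mul_of_nonneg_left e2 (by positivity)
      have e4 : (0 : ℤ) ≤ (K : ℤ) * K * m := by positivity
      have e5 : (0 : ℤ) ≤ (m : ℤ) := by positivity
      push_cast
      nlinarith only [hab, hm1, e1, e3]
    have hl := long_rsw (q := q) (n := m) hc.le (hreg m hm1 hmn).1 (K * K)
    have ht := Pr_hcross_translate (p := q) (a := 0) (b := (4 + 3 * ((K * K : ℕ) : ℤ)) * m) (c := 0)
      (d := (m : ℤ)) a y
    have e0 : (0 : ℤ) + a = a := zero_add a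
    have e0' : (0 : ℤ) + y = y := zero_add y
    rw [e0, e0'] at ht
    refine hl.trans ?_
    rw [← ht]
    refine Pr_mono fun ω hω => ?_
    have hlen' : b ≤ (4 + 3 * ((K * K : ℕ) : ℤ)) * m + a := by
      push_cast at hlen ⊢
      linarith only [hlen]
    have hz : (m : ℤ) + y ≤ z := by
      have : (m : ℤ) ≤ h := by exact_mod_cast hmh
      linarith only [hh, hmh]
    exact HCross.mono hω le_rfl hab hlen' le_rfl hz
  refine ⟨key, ?_⟩
  rw [Pr_vcross_eq_hcross]
  exact key

/-- Absence of crossings in the short direction, for all rectangles of aspect ratio at most `K` and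
height at most `K n`. -/
theorem rect_closed (c : ℝ) (hc : 0 < c) (K : ℕ) : ∃ c' : ℝ, 0 < c' ∧ ∀ (n : ℕ) (q : I), 1 ≤ n →
    RSWreg c n q → ∀ a b y z : ℤ, a ≤ b → y < z → b - a ≤ K * (z - y) → z - y ≤ K * n →
      c' ≤ Pr q {ω | ¬ VCross ω a b y z} ∧ c' ≤ Pr q {ω | ¬ HCross ω y z a b} := by
  refine ⟨c ^ (2 * (K * K) + 1), pow_pos hc _, ?_⟩
  intro n q hn hreg a b y z hab hyz h1 h2
  have key : c ^ (2 * (K * K) + 1) ≤ Pr q {ω | ¬ VCross ω a b y z} := by
    obtain ⟨h, hh⟩ : ∃ h : ℕ, (h : ℤ) = z - y := ⟨(z - y).toNat, Int.toNat_of_nonneg (by omega)⟩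
    have hh1 : 1 ≤ h := by omega
    have hK : h ≤ K * n := by
      have : (h : ℤ) ≤ ((K * n : ℕ) : ℤ) := by push_cast; rw [hh]; exact h2
      exact_mod_cast this
    have hK1 : 1 ≤ K := by
      rcases Nat.eq_zero_or_pos K with h0 | h0
      · rw [h0, zero_mul] at hK
        omega
      · exact h0
    set m : ℕ := min h n with hm
    have hm1 : 1 ≤ m := le_min hh1 hn
    have hmh : m ≤ h := min_le_left _ _
    have hmn : m ≤ n := min_le_right _ _
    have hhm : h ≤ K * m := by
      rcases min_choice h n with h3 | h3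
      · rw [hm, h3]; exact Nat.le_mul_of_pos_left _ hK1
      · rw [hm, h3]; exact hK
    have hlen : b - a ≤ ((4 + 3 * (K * K) : ℕ) : ℤ) * m := by
      have e1 : b - a ≤ K * (h : ℤ) := by rw [hh]; exact h1
      have e2 : (h : ℤ) ≤ K * (m : ℤ) := by exact_mod_cast hhm
      have e3 : (K : ℤ) * h ≤ K * (K * m) := mul_le_mul_of_nonneg_left e2 (by positivity)
      have e4 : (0 : ℤ) ≤ (K : ℤ) * K * m := by positivity
      have e5 : (0 : ℤ) ≤ (m : ℤ) := by positivity
      push_cast
      nlinarith only [hab, hm1, e1, e3]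
    have hl := long_closed (q := q) (n := m) hc.le (hreg m hm1 hmn).2 (K * K)
    have ht := Pr_novcross_translate (p := q) (a := 0) (b := (4 + 3 * ((K * K : ℕ) : ℤ)) * m) (c := 0)
      (d := (m : ℤ)) a y
    have e0 : (0 : ℤ) + a = a := zero_add a
    have e0' : (0 : ℤ) + y = y := zero_add y
    rw [e0, e0'] at ht
    refine hl.trans ?_
    rw [← ht]
    refine Pr_mono fun ω hω => ?_
    have hlen' : b ≤ (4 + 3 * ((K * K : ℕ) : ℤ)) * m + a := by
      push_cast at hlen ⊢
      linarith only [hlen]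
    have hz : (m : ℤ) + y ≤ z := by
      have : (m : ℤ) ≤ h := by exact_mod_cast hmh
      linarith only [hh, hmh]
    exact fun hv => hω (VCross.mono hv le_rfl hlen' le_rfl (by omega) hz)
  refine ⟨key, ?_⟩
  rw [← Pr_novcross_eq]
  exact key

end Pool.Agent.H83.SK

end

section

/-!
# RSW regime: probability of open circuits
-/

open MeasureTheory ProbabilityTheory unitInterval

namespace Pool.Agent.H83.SK

open Pool.Agent.H29.Sep

open Pool.Agent.H89.Perc

end Pool.Agent.H83.SK

end

section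

/-!
# Level-one inequality for block explorations
-/

set_option autoImplicit false

open MeasureTheory ProbabilityTheory unitInterval

namespace Pool.Agent.H13.SK

open Pool.Agent.H89.Perc Pool.Agent.H85.Kes
open Pool.Agent.Perc (Ex ind ind_of ind_of_not)

variable {κ : Type*} [DecidableEq κ] {s : Finset Edge} {β : Edge → κ} {R : BRule κ}

variable {T : Finset κ} {g : κ → Finset Edge → ℝ}

/-- Locality of the test functions. -/
def LocG (s : Finset Edge) (β : Edge → κ) (T : Finset κ) (g : κ → Finset Edge → ℝ) : Prop :=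
  ∀ b ∈ T, ∀ S : Finset Edge, g b S = g b (S ∩ blk s β b)

theorem LocG.other (hg : LocG s β T g) {b x : κ} (hx : x ∈ T) (hxb : x ≠ b)
    {T' S : Finset Edge} (hT : T' ⊆ blk s β b) : g x (T' ∪ S) = g x S := by
  rw [hg x hx (T' ∪ S), hg x hx S]
  congr 1
  ext e
  simp only [Finset.mem_inter, Finset.mem_union]
  constructor
  · rintro ⟨h1 | h1, h2⟩
    · have h3 := hT h1
      rw [mem_blk] at h2 h3
      exact absurd (h2.2.symm.trans h3.2) hxb
    · exact ⟨h1, h2⟩
  · rintro ⟨h1, h2⟩
    exact ⟨Or.inr h1, h2⟩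

end Pool.Agent.H13.SK

end

section

/-!
# Level-one inequality for block explorations: events
-/

set_option autoImplicit false

open MeasureTheory ProbabilityTheory unitInterval

namespace Pool.Agent.H13.SK

open Pool.Agent.H89.Perc Pool.Agent.H85.Kes
open Pool.Agent.Perc (Ex ind ind_of ind_of_not)

end Pool.Agent.H13.SK

end

section

/-!
# Site percolation on the torus: definitions

The sites of the torus of side `N` are the sites of the plane modulo `N`.  `sitT N ω` is the induced
periodic bond configuration.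
-/

open MeasureTheory ProbabilityTheory unitInterval

namespace Pool.Agent.H83.SK

open Pool.Agent.H89.Perc Pool.Agent.H61.NC

end Pool.Agent.H83.SK

end

section

/-!
# Site percolation: interfaces of the separation part

Everything is for densities `q` with `RSWreg c n q`; constants depend only on `c`.
-/

open MeasureTheory ProbabilityTheory unitInterval

namespace Pool.Agent.H83.SK

open Pool.Agent.H89.Perc Pool.Agent.H29.Sep
open Pool.Agent.H59.EX (Src Four)

/-- Four-arm probability of the site `0`: with the site `0` closed, two given neighbours of `0` are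
joined to distance `r` and not joined to each other (sum over the two kinds of pairs). -/
noncomputable def a4 (q : I) (r : ℕ) : ℝ :=
  Pr q (Four (s4 false) r) + Pr q (Four (s4 true) r)

end Pool.Agent.H83.SK

end

section

/-!
# Site percolation: exploration of clusters

`clus (sit w) D X` is the union of the clusters in `D` of the vertices of `X`; `Ucl w D X` is the
set of the sites which are needed to determine it. The sites off `Ucl w D X` are fresh.
-/

open MeasureTheory ProbabilityTheory unitInterval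

namespace Pool.Agent.H83.SK

open Pool.Agent.H26.HP

open Pool.Agent.H89.Perc

end Pool.Agent.H83.SK

end

section

/-!
# Conditional FKG and conditional independence after an exploration
-/

open MeasureTheory ProbabilityTheory unitInterval

namespace Pool.Agent.H83.SK

open Pool.Agent.H89.Perc

variable {p : I}

end Pool.Agent.H83.SK

end
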