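import Pool.Agent.H94.BG.H31.PT.M03_3
import Pool.Agent.H94.BG.H31.PT.M07_3
import Pool.Agent.H94.BG.M19

/-! The parts of this file: H83.Site.Defs, H83.Site.TProb, H83.Site.DualN, H83.Site.Glue, H83.Site.Circ, H83.Site.DualE, H83.Site.Low, H83.Site.Expl, H83.Site.Renorm, H83.Site.ABLower, H83.Site.Transfer, H83.SK.Base, H92.SN.Defs, H83.SK.P29.Rect, H83.SK.P29.CircProb, H13.SK.BlockL1, H13.SK.BlockEv, H83.SK.Tor, H83.SK.Iface, H83.SK.PHP.Expl, H83.SK.P29.ExplB. -/

section

/-!
# Site percolation on the centred square lattice

The vertices of the centred lattice `T` are the sites `(x, y, false)` of `ℤ²` and the centres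
`(x, y, true)` of the unit squares `[x, x + 1] × [y, y + 1]`. Sites are adjacent to their four
nearest neighbours and every centre is adjacent to the four corners of its square. This is a
triangulation of the plane. A configuration is a function `Edge → Bool` (`Edge = ℤ × ℤ × Bool`
is used here as the set of vertices of `T`); `full r ω` is the configuration in which all centres
have the state `r`. Open paths of `full false ω` are nearest neighbour paths of open sites, open
paths of `full true ω` are paths of open sites with diagonal steps.
-/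

set_option autoImplicit false

open MeasureTheory ProbabilityTheory unitInterval

namespace Pool.Agent.H83.Site

open Pool.Agent.H89.Perc

/-! ### Geometry -/

/-! ### Paths -/

end Pool.Agent.H83.Site

end

section

/-!
# Probability of events of site percolation on the centred lattice
-/

set_option autoImplicit false

open MeasureTheory ProbabilityTheory unitInterval

namespace Pool.Agent.H83.Site

open Pool.Agent.H89.Perc

/-! ### Local and increasing events -/

/-! ### Elementary properties of `PT` -/

/-! ### Symmetries -/

/-! ### Paths and squares -/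

/-! ### Square root trick -/

end Pool.Agent.H83.Site

end

section

/-! # Duality: open horizontal and closed vertical crossings do not coexist

The centred lattice `T` is drawn in the square lattice `ℤ²`, scaled by 3: the site `(x, y)` at
`(3 x, 3 y)` and the centre `(x, y)` at `(3 x + 1, 3 y + 1)`. Every vertex of the fine lattice has a
label, a vertex of `T`, such that every edge `u v` of `T` is drawn as a path of vertices with the
labels `u` and `v`. An open horizontal and a closed vertical crossing give two paths in the fine
lattice which cross (`Pool.Agent.H89.Perc.cross`), in a vertex whose label is both open and closed.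
-/

set_option autoImplicit false

namespace Pool.Agent.H83.Site

open Pool.Agent.H89.Perc

end Pool.Agent.H83.Site

end

section

/-! # Paths which cross a rectangle in different directions meet -/

set_option autoImplicit false

namespace Pool.Agent.H83.Site

open Pool.Agent.H89.Perc

/-! ### Indicator of a cluster -/

/-! ### The extension by one column -/

/-! ### The mirror image -/

end Pool.Agent.H83.Site

end

section

/-! # Circuits in annuli -/

set_option autoImplicit false

open MeasureTheory ProbabilityTheory unitInterval

namespace Pool.Agent.H83.Site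

open Pool.Agent.H89.Perc

end Pool.Agent.H83.Site

end

section

/-! # Duality: an open horizontal or a closed vertical crossing exists -/

set_option autoImplicit false

namespace Pool.Agent.H83.Site

open Pool.Agent.H89.Perc

end Pool.Agent.H83.Site

end

section

/-! # The lowest crossing of a rectangle -/

set_option autoImplicit false

namespace Pool.Agent.H83.Site

open Pool.Agent.H89.Perc

/-! ### Auxiliary facts -/

end Pool.Agent.H83.Site

end

section

/-! # Conditioning on the lowest crossing -/

set_option autoImplicit false

open MeasureTheory ProbabilityTheory unitInterval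

namespace Pool.Agent.H83.Site

open Pool.Agent.H89.Perc

/-! ### Auxiliary facts -/

end Pool.Agent.H83.Site

end

section

/-! # Renormalisation of crossing probabilities -/

set_option autoImplicit false

open MeasureTheory ProbabilityTheory unitInterval

namespace Pool.Agent.H83.Site

open Pool.Agent.H89.Perc

end Pool.Agent.H83.Site

end

section

/-! # Lower bound for arm probabilities by the van den Berg-Kesten inequality -/

set_option autoImplicit false

open MeasureTheory ProbabilityTheory unitInterval

namespace Pool.Agent.H83.Site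

open Pool.Agent.H89.Perc

/-! ### Disjoint occurrence -/

/-! ### Splitting of a self-avoiding path -/

/-! ### The configuration of the sites of a set -/

end Pool.Agent.H83.Site

end

section

/-!
# Transfer to site percolation on `ℤ × ℤ`
-/

set_option autoImplicit false

open MeasureTheory ProbabilityTheory unitInterval

namespace Pool.Agent.H83.Site

open Pool.Agent.H89.Perc

variable {r : Bool} {ω : ℤ × ℤ → Bool}

section graph

variable {G : SimpleGraph (ℤ × ℤ)}

end graph

end Pool.Agent.H83.Site

end

section

/-!
# Site percolation through the induced bond configuration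

Site configurations are stored at the edges `(x, y, false)` of the lattice. `sit ω` is the induced
bond configuration: an edge is open if both endpoints are open sites. `Pr p A` is the probability
that the induced configuration is in `A`, when the sites are open with probability `p`.
-/

set_option autoImplicit false

open MeasureTheory ProbabilityTheory unitInterval

namespace Pool.Agent.H83.SK

open Pool.Agent.H89.Perc

variable {s t : Finset Edge} {A B : Set Config} {p q : I}

theorem Pr_empty : Pr p (∅ : Set Config) = 0 := by
  unfold Pr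
  have : {ω : Config | sit ω ∈ (∅ : Set Config)} = ∅ := by ext ω; simp
  rw [this]
  simp [Pool.Agent.H89.Perc.Pr]

/-- Probability of a disjoint union of local events. -/
theorem Pr_biUnion {ι : Type*} (F : Finset ι) (A : ι → Set Config)
    (t : ι → Finset Edge) (hA : ∀ i ∈ F, LocalOn (t i) (A i))
    (hd : ∀ i ∈ F, ∀ j ∈ F, i ≠ j → Disjoint (A i) (A j)) :
    Pr p (⋃ i ∈ F, A i) = ∑ i ∈ F, Pr p (A i) := by
  unfold Pr
  have h : {ω | sit ω ∈ ⋃ i ∈ F, A i} = ⋃ i ∈ F, {ω | sit ω ∈ A i} := by
    ext ω
    simp
  rw [h]
  refine measureReal_biUnion_finset (fun i hi j hj hij => ?_)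
    (fun i hi => (localOn_sit (hA i hi)).measurableSet)
  rw [Function.onFun, Set.disjoint_left]
  intro ω h1 h2
  exact Set.disjoint_left.1 (hd i hi j hj hij) h1 h2

/-! ### Symmetries -/

/-! ### One-arm events -/

/-! ### The box-crossing regime -/

end Pool.Agent.H83.SK

end

section

/-!
# Near-critical site percolation: definitions and interfaces

Four-arm events are sets of bond configurations (used for `sit w`), torus events are sets of site
configurations. `a4 q r` is the probability that the origin has two neighbours which are joined to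
distance `r` by open paths avoiding the origin and which are not joined to each other by such a
path.
-/

set_option autoImplicit false

open MeasureTheory ProbabilityTheory unitInterval

namespace Pool.Agent.H92.SN

open Pool.Agent.H89.Perc Pool.Agent.H61.NC
open Pool.Agent.H83.SK (sv sit)

/-! ### Interfaces -/

/-! ### The connection of the neighbours of a site -/

end Pool.Agent.H92.SN

end

section

/-!
# Site percolation, RSW regime: crossings of all rectangles of bounded aspect ratio, both colours
-/

open MeasureTheory ProbabilityTheory unitInterval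

namespace Pool.Agent.H83.SK

open Pool.Agent.H89.Perc Pool.Agent.H85.Strict

end Pool.Agent.H83.SK

end

section

/-!
# RSW regime: probability of open circuits
-/

open MeasureTheory ProbabilityTheory unitInterval

namespace Pool.Agent.H83.SK

open Pool.Agent.H29.Sep

open Pool.Agent.H89.Perc

end Pool.Agent.H83.SK

end

section

/-!
# Level-one inequality for block explorations
-/

set_option autoImplicit false

open MeasureTheory ProbabilityTheory unitInterval

namespace Pool.Agent.H13.SK

open Pool.Agent.H89.Perc Pool.Agent.H85.Kes
open Pool.Agent.Perc (Ex ind ind_of ind_of_not)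

end Pool.Agent.H13.SK

end

section

/-!
# Level-one inequality for block explorations: events
-/

set_option autoImplicit false

open MeasureTheory ProbabilityTheory unitInterval

namespace Pool.Agent.H13.SK

open Pool.Agent.H89.Perc Pool.Agent.H85.Kes
open Pool.Agent.Perc (Ex ind ind_of ind_of_not)

end Pool.Agent.H13.SK

end

section

/-!
# Site percolation on the torus: definitions

The sites of the torus of side `N` are the sites of the plane modulo `N`.  `sitT N ω` is the induced
periodic bond configuration.
-/

open MeasureTheory ProbabilityTheory unitInterval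

namespace Pool.Agent.H83.SK

open Pool.Agent.H89.Perc Pool.Agent.H61.NC

end Pool.Agent.H83.SK

end

section

/-!
# Site percolation: interfaces of the separation part

Everything is for densities `q` with `RSWreg c n q`; constants depend only on `c`.
-/

open MeasureTheory ProbabilityTheory unitInterval

namespace Pool.Agent.H83.SK

open Pool.Agent.H89.Perc Pool.Agent.H29.Sep
open Pool.Agent.H59.EX (Src Four)

end Pool.Agent.H83.SK

end

section

/-!
# Site percolation: exploration of clusters

`clus (sit w) D X` is the union of the clusters in `D` of the vertices of `X`; `Ucl w D X` is the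
set of the sites which are needed to determine it. The sites off `Ucl w D X` are fresh.
-/

open MeasureTheory ProbabilityTheory unitInterval

namespace Pool.Agent.H83.SK

open Pool.Agent.H26.HP

open Pool.Agent.H89.Perc

variable {ω ω' : Config} {D X S U : Set Vert} {R : ℕ} {q : I}

lemma siteF_disjoint (D U : Set Vert) : Disjoint (siteF R U) (hull (eIn R (D \ U))) := by
  rw [Finset.disjoint_left]
  intro g h1 h2
  rw [mem_siteF] at h1
  rw [mem_hull] at h2
  obtain ⟨v, _, hvU, rfl⟩ := h1
  obtain ⟨e, he, h⟩ := h2
  rw [mem_eIn] at he
  rcases h with h | h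
  · exact he.2.1.2 (sv_injective h ▸ hvU)
  · exact he.2.2.2 (sv_injective h ▸ hvU)

/-- A path which starts outside of the explored set stays off the determining sites. -/
lemma conn_offU {w : Config} {u v : Vert} (hu : u ∉ clus (sit w) D X) (hne : u ≠ v)
    (h : Conn (sit w) D u v) : Conn (sit w) (D \ Ucl w D X) u v := by
  have hkey : ∀ a : Vert, Conn (sit w) D u a → w (sv a) = true → a ∈ D \ Ucl w D X := by
    intro a ha hwa
    refine ⟨ha.mem_right, ?_⟩
    rintro (k | ⟨_, b, k1, k2, k3⟩)
    · exact hu (mem_clus_of_conn k ha.symm)
    · have hb := clus_subset k1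
      have : Step (sit w) D b a := step_sit.2 ⟨hb, ha.mem_right, k3, k2, hwa⟩
      exact hu (mem_clus_of_conn (mem_clus_of_conn k1 this.conn) ha.symm)
  have hu0 : u ∈ D \ Ucl w D X := hkey u (Conn.refl h.mem_left) (conn_sit_open h hne).1
  refine h.induction_right (P := fun x => Conn (sit w) (D \ Ucl w D X) u x)
    (Conn.refl hu0) ?_
  intro a b ha hab ih
  have hb := step_sit.1 hab
  exact ih.tail (step_sit.2 ⟨ih.mem_right, hkey b (ha.tail hab) hb.2.2.2.2, hb.2.2⟩)

/-- **Exploration.**  Given the cluster `S` of `X` and the determining set `U`, the events `A' S U`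
and `G S U` only depend on fresh sites; if `c P(A' S U) ≤ P(G S U)` for all `S`, `U`, then
`c P(A) ≤ P(B)`. -/
theorem explore (hD : D ⊆ ball 0 R) {A B : Set Config} {A' G : Set Vert → Set Vert → Set Config}
    {c : ℝ} (hc0 : 0 ≤ c)
    (hA : ∀ w, sit w ∈ A → sit w ∈ A' (clus (sit w) D X) (Ucl w D X))
    (lA : ∀ S U, LocalOn (eIn R (D \ U)) (A' S U)) (lG : ∀ S U, LocalOn (eIn R (D \ U)) (G S U))
    (hc : ∀ S U, (∀ v ∈ U, v ∈ S ∨ ∃ a ∈ S, Adj a v) → c * Pr q (A' S U) ≤ Pr q (G S U))
    (hB : ∀ w, sit w ∈ G (clus (sit w) D X) (Ucl w D X) → sit w ∈ B) :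
    c * Pr q A ≤ Pr q B := by
  classical
  set P : Finset (Finset Vert × Finset Vert) := (bF R).powerset ×ˢ (bF R).powerset with hP
  have h1 : Pr q A ≤ ∑ T ∈ P, Pool.Agent.H89.Perc.Pr q
      (FullU D X T.1 T.2 ∩ {w | sit w ∈ A' T.1 T.2}) := by
    refine (Pool.Agent.H89.Perc.Pr_mono ?_).trans (Pool.Agent.H89.Perc.Pr_biUnion_le _ _)
    intro w hw
    obtain ⟨T, hT, hTe⟩ := exists_finset (S := clus (sit w) D X) (clus_subset.trans hD)
    obtain ⟨V, hV, hVe⟩ := exists_finset (S := Ucl w D X) (Ucl_subset.trans hD)
    simp only [Set.mem_iUnion]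
    refine ⟨(T, V), Finset.mem_product.2 ⟨hT, hV⟩, ⟨hTe.symm, hVe.symm⟩, ?_⟩
    show sit w ∈ A' ↑T ↑V
    rw [hTe, hVe]
    exact hA w hw
  have h2 : ∑ T ∈ P, Pool.Agent.H89.Perc.Pr q (FullU D X T.1 T.2 ∩ {w | sit w ∈ G T.1 T.2}) ≤
      Pr q B := by
    have hd : Set.PairwiseDisjoint (↑P) (fun T : Finset Vert × Finset Vert =>
        FullU D X T.1 T.2 ∩ {w | sit w ∈ G T.1 T.2}) := by
      intro T1 _ T2 _ hne
      rw [Function.onFun, Set.disjoint_left]
      rintro ω ⟨⟨k1, k1'⟩, _⟩ ⟨⟨k2, k2'⟩, _⟩
      apply hne
      have k3 : (↑T1.1 : Set Vert) = ↑T2.1 := by rw [← k1, ← k2]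
      have k4 : (↑T1.2 : Set Vert) = ↑T2.2 := by rw [← k1', ← k2']
      exact Prod.ext (by exact_mod_cast k3) (by exact_mod_cast k4)
    have hm : ∀ T ∈ P, MeasurableSet (FullU D X (↑T.1 : Set Vert) ↑T.2 ∩
        {w | sit w ∈ G T.1 T.2}) :=
      fun T _ => ((localOn_fullU hD).inter' (localOn_sit (lG T.1 T.2))).measurableSet
    have := measureReal_biUnion_finset (μ := μ q) hd hm
    unfold Pool.Agent.H89.Perc.Pr
    rw [← this]
    refine measureReal_mono ?_
    intro w hw
    simp only [Set.mem_iUnion] at hw
    obtain ⟨T, _, ⟨k1, k1'⟩, k2⟩ := hw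
    show sit w ∈ B
    apply hB
    rw [k1, k1']
    exact k2
  calc c * Pr q A ≤ c * ∑ T ∈ P, Pool.Agent.H89.Perc.Pr q
        (FullU D X T.1 T.2 ∩ {w | sit w ∈ A' T.1 T.2}) := mul_le_mul_of_nonneg_left h1 hc0
    _ = ∑ T ∈ P, c * Pool.Agent.H89.Perc.Pr q
        (FullU D X T.1 T.2 ∩ {w | sit w ∈ A' T.1 T.2}) := Finset.mul_sum _ _ _
    _ ≤ ∑ T ∈ P, Pool.Agent.H89.Perc.Pr q (FullU D X T.1 T.2 ∩ {w | sit w ∈ G T.1 T.2}) := by
        refine Finset.sum_le_sum fun T _ => ?_
        by_cases hT : ∀ v ∈ (↑T.2 : Set Vert), v ∈ (↑T.1 : Set Vert) ∨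
            ∃ a ∈ (↑T.1 : Set Vert), Adj a v
        · rw [Pool.Agent.H89.Perc.Pr_inter_of_disjoint (localOn_fullU hD)
            (localOn_sit (lA T.1 T.2)) (siteF_disjoint _ _),
            Pool.Agent.H89.Perc.Pr_inter_of_disjoint (localOn_fullU hD)
            (localOn_sit (lG T.1 T.2)) (siteF_disjoint _ _)]
          have h3 := hc T.1 T.2 hT
          unfold Pr at h3
          calc c * (Pool.Agent.H89.Perc.Pr q (FullU D X T.1 T.2) *
                Pool.Agent.H89.Perc.Pr q {w | sit w ∈ A' T.1 T.2})
              = Pool.Agent.H89.Perc.Pr q (FullU D X T.1 T.2) *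
                (c * Pool.Agent.H89.Perc.Pr q {w | sit w ∈ A' T.1 T.2}) := by ring
            _ ≤ _ := mul_le_mul_of_nonneg_left h3 Pool.Agent.H89.Perc.Pr_nonneg
        · have e1 : FullU D X (↑T.1 : Set Vert) ↑T.2 = ∅ := by
            ext w
            simp only [Set.mem_empty_iff_false, iff_false]
            rintro ⟨k1, k2⟩
            apply hT
            intro v hv
            rw [← k2] at hv
            rw [← k1]
            rcases hv with k | ⟨_, a, k3, _, k4⟩
            · exact Or.inl k
            · exact Or.inr ⟨a, k3, k4⟩
          rw [e1, Set.empty_inter, Set.empty_inter]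
          simp [Pool.Agent.H89.Perc.Pr]
    _ ≤ Pr q B := h2

end Pool.Agent.H83.SK

end

section

/-!
# Conditional FKG and conditional independence after an exploration
-/

open MeasureTheory ProbabilityTheory unitInterval

namespace Pool.Agent.H83.SK

open Pool.Agent.H89.Perc

variable {p : I}

private theorem ExplB_inter {ι : Type*} [DecidableEq Edge] (F : Finset ι) (A : ι → Set Config)
    (t : ι → Finset Edge) (hA : ∀ i ∈ F, LocalOn (t i) (A i)) :
    LocalOn (F.biUnion t) (⋂ i ∈ F, A i) := by
  intro ω ω' hω h
  rw [Set.mem_iInter₂] at h ⊢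
  intro i hi
  exact hA i hi ω ω' (fun e he => hω e (Finset.mem_biUnion.2 ⟨i, hi, he⟩)) (h i hi)

/-- Finite intersections of decreasing local events: Harris inequality. -/
theorem fkg_decr_many {ι : Type*} (F : Finset ι) (A : ι → Set Config) (t : ι → Finset Edge)
    {c : ℝ} (hc : 0 ≤ c) (hA : ∀ i ∈ F, LocalOn (t i) (A i)) (iA : ∀ i ∈ F, Incr (A i)ᶜ)
    (hP : ∀ i ∈ F, c ≤ Pr p (A i)) : c ^ F.card ≤ Pr p (⋂ i ∈ F, A i) := by
  classical
  induction F using Finset.induction_on with
  | empty => simp [Pr_univ]
  | insert a F ha ih =>
    rw [Finset.card_insert_of_notMem ha, Finset.set_biInter_insert, pow_succ']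
    have hF : ∀ i ∈ F, i ∈ insert a F := fun i hi => Finset.mem_insert_of_mem hi
    have haF : a ∈ insert a F := Finset.mem_insert_self _ _
    have h1 := ih (fun i hi => hA i (hF i hi)) (fun i hi => iA i (hF i hi))
      (fun i hi => hP i (hF i hi))
    have h2 : Incr (⋂ i ∈ F, A i)ᶜ := by
      intro ω ω' hω h h3
      apply h
      rw [Set.mem_iInter₂] at h3 ⊢
      intro i hi
      by_contra h4
      exact iA i (hF i hi) ω ω' hω h4 (h3 i hi)
    refine le_trans ?_ (fkg_decr (hA a haF) (ExplB_inter F A t (fun i hi => hA i (hF i hi)))
      (iA a haF) h2)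
    exact mul_le_mul (hP a haF) h1 (pow_nonneg hc _) Pr_nonneg

/-- Finite intersections of increasing local events: Harris inequality. -/
theorem fkg_many {ι : Type*} (F : Finset ι) (A : ι → Set Config) (t : ι → Finset Edge)
    {c : ℝ} (hc : 0 ≤ c) (hA : ∀ i ∈ F, LocalOn (t i) (A i)) (iA : ∀ i ∈ F, Incr (A i))
    (hP : ∀ i ∈ F, c ≤ Pr p (A i)) : c ^ F.card ≤ Pr p (⋂ i ∈ F, A i) := by
  classical
  induction F using Finset.induction_on with
  | empty => simp [Pr_univ]
  | insert a F ha ih =>
    rw [Finset.card_insert_of_notMem ha, Finset.set_biInter_insert, pow_succ']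
    have hF : ∀ i ∈ F, i ∈ insert a F := fun i hi => Finset.mem_insert_of_mem hi
    have haF : a ∈ insert a F := Finset.mem_insert_self _ _
    have h1 := ih (fun i hi => hA i (hF i hi)) (fun i hi => iA i (hF i hi))
      (fun i hi => hP i (hF i hi))
    have h2 : Incr (⋂ i ∈ F, A i) := by
      intro ω ω' hω h
      rw [Set.mem_iInter₂] at h ⊢
      intro i hi
      exact iA i (hF i hi) ω ω' hω (h i hi)
    refine le_trans ?_ (fkg (hA a haF) (ExplB_inter F A t (fun i hi => hA i (hF i hi)))
      (iA a haF) h2)
    exact mul_le_mul (hP a haF) h1 (pow_nonneg hc _) Pr_nonneg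

end Pool.Agent.H83.SK

end
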