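import Pool.Agent.H94.BG.H31.PT.M07_3
import Pool.Agent.H94.BG.M19

/-! The parts of this file: H83.Site.Defs, H83.Site.TProb, H83.Site.DualN, H83.Site.Glue, H83.Site.Circ, H83.Site.DualE, H83.Site.Low, H83.Site.Expl, H83.Site.Renorm, H83.Site.ABLower, H83.Site.Transfer, H83.SK.Base, H92.SN.Defs, H83.SK.P29.Rect, H83.SK.P29.CircProb, H13.SK.BlockL1, H13.SK.BlockEv, H83.SK.Tor, H83.SK.Iface, H83.SK.PHP.Expl, H83.SK.P29.ExplB. -/

section

/-!
# Site percolation on the centred square lattice

The vertices of the centred lattice `T` are the sites `(x, y, false)` of `ℤ²` and the centres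
`(x, y, true)` of the unit squares `[x, x + 1] × [y, y + 1]`. Sites are adjacent to their four
nearest neighbours and every centre is adjacent to the four corners of its square. This is a
triangulation of the plane. A configuration is a function `Edge → Bool` (`Edge = ℤ × ℤ × Bool`
is used here as the set of vertices of `T`); `full r ω` is the configuration in which all centres
have the state `r`. Open paths of `full false ω` are nearest neighbour paths of open sites, open
paths of `full true ω` are paths of open sites with diagonal steps.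
-/

set_option autoImplicit false

open MeasureTheory ProbabilityTheory unitInterval

namespace Pool.Agent.H83.Site

open Pool.Agent.H89.Perc

/-! ### Geometry -/

/-! ### Paths -/

end Pool.Agent.H83.Site

end

section

/-!
# Probability of events of site percolation on the centred lattice
-/

set_option autoImplicit false

open MeasureTheory ProbabilityTheory unitInterval

namespace Pool.Agent.H83.Site

open Pool.Agent.H89.Perc

/-! ### Local and increasing events -/

/-! ### Elementary properties of `PT` -/

/-! ### Symmetries -/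

/-! ### Paths and squares -/

/-! ### Square root trick -/

end Pool.Agent.H83.Site

end

section

/-! # Duality: open horizontal and closed vertical crossings do not coexist

The centred lattice `T` is drawn in the square lattice `ℤ²`, scaled by 3: the site `(x, y)` at
`(3 x, 3 y)` and the centre `(x, y)` at `(3 x + 1, 3 y + 1)`. Every vertex of the fine lattice has a
label, a vertex of `T`, such that every edge `u v` of `T` is drawn as a path of vertices with the
labels `u` and `v`. An open horizontal and a closed vertical crossing give two paths in the fine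
lattice which cross (`Pool.Agent.H89.Perc.cross`), in a vertex whose label is both open and closed.
-/

set_option autoImplicit false

namespace Pool.Agent.H83.Site

open Pool.Agent.H89.Perc

end Pool.Agent.H83.Site

end

section

/-! # Paths which cross a rectangle in different directions meet -/

set_option autoImplicit false

namespace Pool.Agent.H83.Site

open Pool.Agent.H89.Perc

/-! ### Indicator of a cluster -/

/-! ### The extension by one column -/

/-! ### The mirror image -/

end Pool.Agent.H83.Site

end

section

/-! # Circuits in annuli -/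

set_option autoImplicit false

open MeasureTheory ProbabilityTheory unitInterval

namespace Pool.Agent.H83.Site

open Pool.Agent.H89.Perc

end Pool.Agent.H83.Site

end

section

/-! # Duality: an open horizontal or a closed vertical crossing exists -/

set_option autoImplicit false

namespace Pool.Agent.H83.Site

open Pool.Agent.H89.Perc

end Pool.Agent.H83.Site

end

section

/-! # The lowest crossing of a rectangle -/

set_option autoImplicit false

namespace Pool.Agent.H83.Site

open Pool.Agent.H89.Perc

/-! ### Auxiliary facts -/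

end Pool.Agent.H83.Site

end

section

/-! # Conditioning on the lowest crossing -/

set_option autoImplicit false

open MeasureTheory ProbabilityTheory unitInterval

namespace Pool.Agent.H83.Site

open Pool.Agent.H89.Perc

/-! ### Auxiliary facts -/

end Pool.Agent.H83.Site

end

section

/-! # Renormalisation of crossing probabilities -/

set_option autoImplicit false

open MeasureTheory ProbabilityTheory unitInterval

namespace Pool.Agent.H83.Site

open Pool.Agent.H89.Perc

end Pool.Agent.H83.Site

end

section

/-! # Lower bound for arm probabilities by the van den Berg-Kesten inequality -/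

set_option autoImplicit false

open MeasureTheory ProbabilityTheory unitInterval

namespace Pool.Agent.H83.Site

open Pool.Agent.H89.Perc

/-! ### Disjoint occurrence -/

/-! ### Splitting of a self-avoiding path -/

/-! ### The configuration of the sites of a set -/

end Pool.Agent.H83.Site

end

section

/-!
# Transfer to site percolation on `ℤ × ℤ`
-/

set_option autoImplicit false

open MeasureTheory ProbabilityTheory unitInterval

namespace Pool.Agent.H83.Site

open Pool.Agent.H89.Perc

variable {r : Bool} {ω : ℤ × ℤ → Bool}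

section graph

variable {G : SimpleGraph (ℤ × ℤ)}

end graph

end Pool.Agent.H83.Site

end

section

/-!
# Site percolation through the induced bond configuration

Site configurations are stored at the edges `(x, y, false)` of the lattice. `sit ω` is the induced
bond configuration: an edge is open if both endpoints are open sites. `Pr p A` is the probability
that the induced configuration is in `A`, when the sites are open with probability `p`.
-/

set_option autoImplicit false

open MeasureTheory ProbabilityTheory unitInterval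

namespace Pool.Agent.H83.SK

open Pool.Agent.H89.Perc

variable {s t : Finset Edge} {A B : Set Config} {p q : I}

/-! ### Symmetries -/

/-! ### One-arm events -/

/-! ### The box-crossing regime -/

theorem rswreg_mono {c : ℝ} {n m : ℕ} {q : I} (h : RSWreg c n q) (hm : m ≤ n) :
    RSWreg c m q := fun k h1 h2 => h k h1 (h2.trans hm)

end Pool.Agent.H83.SK

end

section

/-!
# Near-critical site percolation: definitions and interfaces

Four-arm events are sets of bond configurations (used for `sit w`), torus events are sets of site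
configurations. `a4 q r` is the probability that the origin has two neighbours which are joined to
distance `r` by open paths avoiding the origin and which are not joined to each other by such a
path.
-/

set_option autoImplicit false

open MeasureTheory ProbabilityTheory unitInterval

namespace Pool.Agent.H92.SN

open Pool.Agent.H89.Perc Pool.Agent.H61.NC
open Pool.Agent.H83.SK (sv sit)

/-- Box-crossing regime for site percolation. -/
abbrev SReg := Pool.Agent.H83.SK.RSWreg

/-- The four-arm event of a site of the torus. -/
def A4T (N : ℕ) (v : Vert) (r : ℕ) : Set Config := {w | sit (per N w) ∈ A4 v r}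

/-! ### Interfaces -/

/-- Separation and gluing on the torus. -/
def GLTorus : Prop :=
  ∀ c : ℝ, 0 < c → ∃ C : ℝ, 0 < C ∧ ∀ (N r : ℕ) (q : I), 1 ≤ r → 64 * r ≤ N →
    SReg c N q → a4 q r * Pr q (BlockPiv N (16 * r)) ≤ C * sT q N

/-- Block OSSS on the torus, lower bound. -/
def BlockLow : Prop :=
  ∀ c : ℝ, 0 < c → ∃ C δ : ℝ, 0 < C ∧ 0 < δ ∧ ∀ (N r : ℕ) (q : I), 1 ≤ r → 4 * r ≤ N →
    SReg c N q → ((r : ℝ) / N) ^ (2 - δ) ≤ C * Pr q (BlockPiv N r)

/-- Level-one inequality for blocks, upper bound. -/
def BlockUp : Prop :=
  ∀ c : ℝ, 0 < c → ∃ C δ : ℝ, 0 < C ∧ 0 < δ ∧ ∀ (N r : ℕ) (q : I), 1 ≤ r → 4 * r ≤ N →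
    SReg c N q → Pr q (BlockPiv N r) ≤ C * ((r : ℝ) / N) ^ (1 + δ)

/-- Quasi-multiplicativity for the planar annulus. -/
def QMann : Prop :=
  ∀ c : ℝ, 0 < c → ∃ C : ℝ, 0 < C ∧ ∀ (n r R : ℕ) (q : I), 1 ≤ r → 16 * r ≤ R → 64 * R ≤ n →
    SReg c n q →
      a4 q r * Pool.Agent.H83.SK.Pr q (Pool.Agent.H29.Sep.A2 (16 * r) R) ≤ C * a4 q R

/-! ### The connection of the neighbours of a site -/

end Pool.Agent.H92.SN

end

section

/-!
# Site percolation, RSW regime: crossings of all rectangles of bounded aspect ratio, both colours
-/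

open MeasureTheory ProbabilityTheory unitInterval

namespace Pool.Agent.H83.SK

open Pool.Agent.H89.Perc Pool.Agent.H85.Strict

end Pool.Agent.H83.SK

end

section

/-!
# RSW regime: probability of open circuits
-/

open MeasureTheory ProbabilityTheory unitInterval

namespace Pool.Agent.H83.SK

open Pool.Agent.H29.Sep

open Pool.Agent.H89.Perc

theorem circ_lower (c : ℝ) (hc : 0 < c) (K : ℕ) : ∃ c' : ℝ, 0 < c' ∧ ∀ (n : ℕ) (q : I), 1 ≤ n →
    RSWreg c n q → ∀ (v : Vert) (s : ℕ), 1 ≤ s → s ≤ K * n → c' ≤ Pr q (Circ v s) := by
  classical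
  obtain ⟨c1, hc1, h⟩ := rect_lower c hc (6 * K + 8)
  refine ⟨c1 * (c1 * (c1 * c1)), by positivity, fun n q hn hq v s hs hsK => ?_⟩
  have hs' : (1 : ℤ) ≤ s := by exact_mod_cast hs
  have hsK' : (s : ℤ) ≤ K * n := by exact_mod_cast hsK
  have hn' : (1 : ℤ) ≤ n := by exact_mod_cast hn
  have hK0 : (0 : ℤ) ≤ K := Int.natCast_nonneg K
  have e1 : (6 * s : ℤ) ≤ ((6 * K + 8 : ℕ) : ℤ) * (2 * s - 1) := by
    push_cast
    nlinarith only [hs]
  have e2 : (2 * s - 1 : ℤ) ≤ ((6 * K + 8 : ℕ) : ℤ) * n := by
    push_cast
    nlinarith only [hn, hs, hsK]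
  have hT := (h n q hn hq (v.1 - 3 * s) (v.1 + 3 * s) (v.2 + s + 1) (v.2 + 3 * s) (by omega)
    (by omega) (by
      have : v.1 + 3 * (s : ℤ) - (v.1 - 3 * s) = 6 * s := by ring
      have h2 : v.2 + 3 * (s : ℤ) - (v.2 + s + 1) = 2 * s - 1 := by ring
      rw [this, h2]
      exact e1) (by
      have h2 : v.2 + 3 * (s : ℤ) - (v.2 + s + 1) = 2 * s - 1 := by ring
      rw [h2]
      exact e2)).1
  have hB := (h n q hn hq (v.1 - 3 * s) (v.1 + 3 * s) (v.2 - 3 * s) (v.2 - s - 1) (by omega)
    (by omega) (by
      have : v.1 + 3 * (s : ℤ) - (v.1 - 3 * s) = 6 * s := by ring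
      have h2 : v.2 - (s : ℤ) - 1 - (v.2 - 3 * s) = 2 * s - 1 := by ring
      rw [this, h2]
      exact e1) (by
      have h2 : v.2 - (s : ℤ) - 1 - (v.2 - 3 * s) = 2 * s - 1 := by ring
      rw [h2]
      exact e2)).1
  have hR := (h n q hn hq (v.2 - 3 * s) (v.2 + 3 * s) (v.1 + s + 1) (v.1 + 3 * s) (by omega)
    (by omega) (by
      have : v.2 + 3 * (s : ℤ) - (v.2 - 3 * s) = 6 * s := by ring
      have h2 : v.1 + 3 * (s : ℤ) - (v.1 + s + 1) = 2 * s - 1 := by ring
      rw [this, h2]
      exact e1) (by
      have h2 : v.1 + 3 * (s : ℤ) - (v.1 + s + 1) = 2 * s - 1 := by ring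
      rw [h2]
      exact e2)).2
  have hL := (h n q hn hq (v.2 - 3 * s) (v.2 + 3 * s) (v.1 - 3 * s) (v.1 - s - 1) (by omega)
    (by omega) (by
      have : v.2 + 3 * (s : ℤ) - (v.2 - 3 * s) = 6 * s := by ring
      have h2 : v.1 - (s : ℤ) - 1 - (v.1 - 3 * s) = 2 * s - 1 := by ring
      rw [this, h2]
      exact e1) (by
      have h2 : v.1 - (s : ℤ) - 1 - (v.1 - 3 * s) = 2 * s - 1 := by ring
      rw [h2]
      exact e2)).2
  set AT : Set Config := {ω | HCross ω (v.1 - 3 * s) (v.1 + 3 * s) (v.2 + s + 1) (v.2 + 3 * s)}
    with hAT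
  set AB : Set Config := {ω | HCross ω (v.1 - 3 * s) (v.1 + 3 * s) (v.2 - 3 * s) (v.2 - s - 1)}
    with hAB
  set AR : Set Config := {ω | VCross ω (v.1 + s + 1) (v.1 + 3 * s) (v.2 - 3 * s) (v.2 + 3 * s)}
    with hAR
  set AL : Set Config := {ω | VCross ω (v.1 - 3 * s) (v.1 - s - 1) (v.2 - 3 * s) (v.2 + 3 * s)}
    with hAL
  have hEq : Circ v s = AT ∩ (AB ∩ (AR ∩ AL)) := by
    ext ω
    rfl
  have lT := localOn_hcross (v.1 - 3 * s) (v.1 + 3 * s) (v.2 + s + 1) (v.2 + 3 * s)
  have lB := localOn_hcross (v.1 - 3 * s) (v.1 + 3 * s) (v.2 - 3 * s) (v.2 - s - 1)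
  have lR := localOn_vcross (v.1 + s + 1) (v.1 + 3 * s) (v.2 - 3 * s) (v.2 + 3 * s)
  have lL := localOn_vcross (v.1 - 3 * s) (v.1 - s - 1) (v.2 - 3 * s) (v.2 + 3 * s)
  have iT := incr_hcross (v.1 - 3 * s) (v.1 + 3 * s) (v.2 + s + 1) (v.2 + 3 * s)
  have iB := incr_hcross (v.1 - 3 * s) (v.1 + 3 * s) (v.2 - 3 * s) (v.2 - s - 1)
  have iR := incr_vcross (v.1 + s + 1) (v.1 + 3 * s) (v.2 - 3 * s) (v.2 + 3 * s)
  have iL := incr_vcross (v.1 - 3 * s) (v.1 - s - 1) (v.2 - 3 * s) (v.2 + 3 * s)
  have f1 : Pr q AR * Pr q AL ≤ Pr q (AR ∩ AL) := fkg lR lL iR iL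
  have f2 : Pr q AB * Pr q (AR ∩ AL) ≤ Pr q (AB ∩ (AR ∩ AL)) :=
    fkg lB (lR.inter' lL) iB (iR.inter iL)
  have f3 : Pr q AT * Pr q (AB ∩ (AR ∩ AL)) ≤ Pr q (AT ∩ (AB ∩ (AR ∩ AL))) :=
    fkg lT (lB.inter' (lR.inter' lL)) iT (iB.inter (iR.inter iL))
  rw [hEq]
  have g1 : c1 * c1 ≤ Pr q (AR ∩ AL) := (mul_le_mul hR hL hc1.le Pr_nonneg).trans f1
  have g2 : c1 * (c1 * c1) ≤ Pr q (AB ∩ (AR ∩ AL)) :=
    (mul_le_mul hB g1 (by positivity) Pr_nonneg).trans f2
  exact (mul_le_mul hT g2 (by positivity) Pr_nonneg).trans f3

end Pool.Agent.H83.SK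

end

section

/-!
# Level-one inequality for block explorations
-/

set_option autoImplicit false

open MeasureTheory ProbabilityTheory unitInterval

namespace Pool.Agent.H13.SK

open Pool.Agent.H89.Perc Pool.Agent.H85.Kes
open Pool.Agent.Perc (Ex ind ind_of ind_of_not)

end Pool.Agent.H13.SK

end

section

/-!
# Level-one inequality for block explorations: events
-/

set_option autoImplicit false

open MeasureTheory ProbabilityTheory unitInterval

namespace Pool.Agent.H13.SK

open Pool.Agent.H89.Perc Pool.Agent.H85.Kes
open Pool.Agent.Perc (Ex ind ind_of ind_of_not)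

end Pool.Agent.H13.SK

end

section

/-!
# Site percolation on the torus: definitions

The sites of the torus of side `N` are the sites of the plane modulo `N`.  `sitT N ω` is the induced
periodic bond configuration.
-/

open MeasureTheory ProbabilityTheory unitInterval

namespace Pool.Agent.H83.SK

open Pool.Agent.H89.Perc Pool.Agent.H61.NC

end Pool.Agent.H83.SK

end

section

/-!
# Site percolation: interfaces of the separation part

Everything is for densities `q` with `RSWreg c n q`; constants depend only on `c`.
-/

open MeasureTheory ProbabilityTheory unitInterval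

namespace Pool.Agent.H83.SK

open Pool.Agent.H89.Perc Pool.Agent.H29.Sep
open Pool.Agent.H59.EX (Src Four)

/-- S5: quasi-multiplicativity for the planar annulus. -/
def QMann : Prop :=
  ∀ c : ℝ, 0 < c → ∃ C : ℝ, 0 < C ∧ ∀ (n r R : ℕ) (q : I), 1 ≤ r → 16 * r ≤ R → 64 * R ≤ n →
    RSWreg c n q → a4 q r * Pr q (A2 (16 * r) R) ≤ C * a4 q R

/-- Separation and gluing, torus version. -/
def GLTorus : Prop :=
  ∀ c : ℝ, 0 < c → ∃ C : ℝ, 0 < C ∧ ∀ (N r : ℕ) (q : I), 1 ≤ r → 64 * r ≤ N →
    RSWreg c N q → a4 q r * Pool.Agent.H89.Perc.Pr q (BlockPiv N (16 * r)) ≤ C * sT q N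

end Pool.Agent.H83.SK

end

section

/-!
# Site percolation: exploration of clusters

`clus (sit w) D X` is the union of the clusters in `D` of the vertices of `X`; `Ucl w D X` is the
set of the sites which are needed to determine it. The sites off `Ucl w D X` are fresh.
-/

open MeasureTheory ProbabilityTheory unitInterval

namespace Pool.Agent.H83.SK

open Pool.Agent.H26.HP

open Pool.Agent.H89.Perc

end Pool.Agent.H83.SK

end

section

/-!
# Conditional FKG and conditional independence after an exploration
-/

open MeasureTheory ProbabilityTheory unitInterval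

namespace Pool.Agent.H83.SK

open Pool.Agent.H89.Perc

variable {p : I}

end Pool.Agent.H83.SK

end
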