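import Pool.Agent.H94.BG.H31.PT.M03_3
import Pool.Agent.H94.BG.H31.PT.M06_3
import Pool.Agent.H94.BG.M19

/-! The parts of this file: H13.SK.SigmaUp, H13.SK.BddLoc, H83.SK.P29.NoArm, H38.SK.N59.Defs, H38.SK.N59.Stage. -/

section

/-!
# Upper bound for the mean cluster size of site percolation at a scale where the other colour is
good
-/

set_option autoImplicit false

open MeasureTheory ProbabilityTheory unitInterval

namespace Pool.Agent.H13.SK

open Pool.Agent.H89.Perc Pool.Agent.H83.Site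

end Pool.Agent.H13.SK

end

section

/-! # Russo-Seymour-Welsh for probabilities bounded away from zero, up to a given scale -/

set_option autoImplicit false

open MeasureTheory ProbabilityTheory unitInterval

namespace Pool.Agent.H13.SK

open Pool.Agent.H89.Perc Pool.Agent.H83.Site

end Pool.Agent.H13.SK

end

section

/-!
# Site percolation, RSW regime: annuli which are not crossed, one-arm decay
-/

open MeasureTheory ProbabilityTheory unitInterval

namespace Pool.Agent.H83.SK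

open Pool.Agent.H89.Perc Pool.Agent.H61.NC Pool.Agent.H31.EX

end Pool.Agent.H83.SK

end

section

/-!
# Separated four-arm events for site percolation: definitions

Everything is at the level of the sites: a configuration `w` gives the states of the sites, stored
at the coordinates `sv v`; `sit w` is the induced bond configuration.  Filling a set `Z` means
opening the sites of `Z`.
-/

set_option autoImplicit false

open MeasureTheory ProbabilityTheory unitInterval

namespace Pool.Agent.H38.N59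

open Pool.Agent.H89.Perc
open Pool.Agent.H83.SK (sv sit sit_true)
open Pool.Agent.H59.EX (LocS inE touch clus closeS Side T Mouth Fence dom)

/-- Open the sites of `Z`. -/
noncomputable def fillS (Z : Set Vert) (w : Config) : Config := fun e => by
  classical exact w e || decide (e ∈ vE Z)

/-- The configuration with the two target rectangles filled. -/
noncomputable def Src.ful (s : Src) (d d' : Side) (k : ℕ) (w : Config) : Config :=
  fillS (T d k ∪ T d' k) (s.cut w)

/-- Separated four-arm event. -/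
def Sep (s : Src) (d d' : Side) (k : ℕ) : Set Config :=
  {w | Fence d k (sit (s.cut w)) (dom d d' k) s.x ∧ Fence d' k (sit (s.cut w)) (dom d d' k) s.y ∧
    ¬ Conn (sit (s.ful d d' k w)) (dom d d' k) s.x s.y ∧
    (∀ v ∈ sphere 0 (32 * k), Conn (sit (s.ful d d' k w)) (dom d d' k) s.x v → v ∈ Mouth d k) ∧
    (∀ v ∈ sphere 0 (32 * k), Conn (sit (s.ful d d' k w)) (dom d d' k) s.y v → v ∈ Mouth d' k)}

/-- Cluster of the first point with filled targets. -/
noncomputable def FX (s : Src) (d d' : Side) (k : ℕ) (w : Config) : Set Vert :=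
  clus (sit (s.ful d d' k w)) (dom d d' k) {s.x}

/-- Cluster of the second point with filled targets. -/
noncomputable def FY (s : Src) (d d' : Side) (k : ℕ) (w : Config) : Set Vert :=
  clus (sit (s.ful d d' k w)) (dom d d' k) {s.y}

/-! ### Elementary facts -/

variable {w w' η : Config} {D X S Z V : Set Vert} {t t' : Set Edge} {a b x : Vert} {e g : Edge}

theorem vE_mono (h : S ⊆ Z) : vE S ⊆ vE Z := fun _ he => ⟨he.1, h he.2⟩

theorem en_mono (h : t ⊆ t') : en t ⊆ en t' := by
  rintro g ⟨e, he, h1⟩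
  exact ⟨e, h he, h1⟩

theorem rv_sub : rv D S ⊆ vE D := by
  rintro g ⟨e, he, rfl | rfl⟩
  · exact sv_mem_vE.2 he.1.1
  · exact sv_mem_vE.2 he.1.2

theorem fillS_true : fillS Z w g = true ↔ w g = true ∨ g ∈ vE Z := by
  classical
  unfold fillS
  rw [Bool.or_eq_true, decide_eq_true_iff]

theorem fill_sv : fillS Z w (sv a) = true ↔ w (sv a) = true ∨ a ∈ Z := by
  rw [fillS_true, sv_mem_vE]

theorem cut_sv {s : Src} : s.cut w (sv a) = true ↔ w (sv a) = true ∧ a ∉ s.V0 := by
  unfold Src.cut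
  rw [closeS_true, sv_mem_vE, Finset.mem_coe]

theorem cut_le {s : Src} (h : s.cut w g = true) : w g = true := by
  unfold Src.cut at h
  exact (closeS_true.1 h).1

theorem fillS_mono (hZ : S ⊆ Z) : fillS S w g = true → fillS Z w g = true := by
  rw [fillS_true, fillS_true]
  rintro (h | h)
  · exact Or.inl h
  · exact Or.inr (vE_mono hZ h)

theorem le_fillS (h : w g = true) : fillS Z w g = true := fillS_true.2 (Or.inl h)

theorem cut_congr {s : Src} (h : w g = w' g) : s.cut w g = s.cut w' g := by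
  unfold Src.cut closeS
  rw [h]

theorem cut_incr {s : Src} (h : ∀ g, w g = true → w' g = true) (g : Edge)
    (hg : s.cut w g = true) : s.cut w' g = true := by
  unfold Src.cut at hg ⊢
  rw [closeS_true] at hg ⊢
  exact ⟨h g hg.1, hg.2⟩

theorem fill_congr (h : g ∉ vE Z → w g = w' g) : fillS Z w g = fillS Z w' g := by
  by_cases hg : g ∈ vE Z
  · simp [fillS, hg]
  · simp [fillS, hg, h hg]

theorem sit_congr (h : ∀ g ∈ en t, w g = w' g) (he : e ∈ t) : sit w e = sit w' e := by
  unfold sit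
  rw [h _ ⟨e, he, Or.inl rfl⟩, h _ ⟨e, he, Or.inr rfl⟩]

/-- Local events of the induced configuration. -/
theorem locS_sit {A : Set Config} (h : LocS t A) : LocS (en t) {w | sit w ∈ A} :=
  fun _ _ hw hA => h _ _ (fun _ he => sit_congr hw he) hA

theorem locS_sit_inE {A : Set Config} (h : LocS (inE S) A) : LocS (vE S) {w | sit w ∈ A} :=
  fun _ _ hw hA => h _ _ (fun _ he => sit_congr' hw he.1 he.2) hA

theorem incr_sit {A : Set Config} (h : Incr A) : Incr {w | sit w ∈ A} :=
  fun _ _ hw hA => h _ _ (sit_mono hw) hA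

theorem of_mem_rv (h : sv b ∈ rv D S) : ∃ a e, Joins e a b ∧ a ∈ D ∧ b ∈ D ∧ (a ∈ S ∨ b ∈ S) := by
  obtain ⟨e, he, h1 | h1⟩ := h
  · have h2 := Pool.Agent.H83.SK.sv_injective h1
    rw [h2]
    exact ⟨tgt e, e, Or.inr ⟨rfl, rfl⟩, he.1.2, he.1.1, he.2.symm⟩
  · have h2 := Pool.Agent.H83.SK.sv_injective h1
    rw [h2]
    exact ⟨src e, e, Or.inl ⟨rfl, rfl⟩, he.1.1, he.1.2, he.2⟩

/-- The cluster of an open site consists of open sites. -/
theorem open_of_clus (hx : η (sv x) = true) (h : a ∈ clus (sit η) D {x}) :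
    η (sv a) = true := by
  have hc : Conn (sit η) D x a := Pool.Agent.H59.EX.mem_clus_single.1 h
  refine hc.induction_right (P := fun a => η (sv a) = true) hx ?_
  rintro a b _ ⟨-, -, e, hj, ho⟩ _
  exact ((sit_joins hj).1 ho).2

/-- The end points of a path between different vertices are open. -/
theorem open_of_conn (h : Conn (sit η) D a b) (hab : a ≠ b) : η (sv a) = true := by
  obtain ⟨_, h2⟩ := h
  rcases Relation.ReflTransGen.cases_head h2 with h3 | ⟨c, h3, -⟩
  · exact absurd h3 hab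
  · obtain ⟨-, -, e, hj, ho⟩ := h3
    exact ((sit_joins hj).1 ho).1

/-- Open neighbours of the cluster belong to the cluster. -/
theorem clus_adj (ha : a ∈ clus (sit η) D X) (hoa : η (sv a) = true) (hob : η (sv b) = true)
    (hj : Joins e a b) (hb : b ∈ D) : b ∈ clus (sit η) D X :=
  Pool.Agent.H59.EX.clus_step ha ⟨Pool.Agent.H59.EX.clus_sub ha, hb, e, hj,
    (sit_joins hj).2 ⟨hoa, hob⟩⟩

/-- The value of a cluster is determined by the sites of `rv D S`. -/
theorem locS_clus (D X S : Set Vert) : LocS (rv D S) {w | clus (sit w) D X = S} :=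
  locS_sit (Pool.Agent.H59.EX.locS_clus D X S)

/-- The same with the sites of `Z` filled. -/
theorem clus_fill_congr {s : Src} (h : ∀ g ∈ rv D S, g ∉ vE Z → w g = w' g)
    (hw : clus (sit (fillS Z (s.cut w))) D X = S) :
    clus (sit (fillS Z (s.cut w'))) D X = S :=
  locS_clus D X S _ _ (fun g hg => fill_congr fun hZ => cut_congr (h g hg hZ)) hw

theorem clus_cut_congr {s : Src} (h : ∀ g ∈ rv D S, w g = w' g)
    (hw : clus (sit (s.cut w)) D X = S) : clus (sit (s.cut w')) D X = S :=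
  locS_clus D X S _ _ (fun g hg => cut_congr (h g hg)) hw

/-- Filled sets are connected. -/
theorem conn_fillS (hZ : Z ⊆ D) (h : Conn allOpen Z a b) : Conn (sit (fillS Z w)) D a b := by
  refine h.induction_right (P := fun b => Conn (sit (fillS Z w)) D a b)
    (Conn.refl (hZ h.mem_left)) ?_
  rintro a' b' _ ⟨h1, h2, e, he, _⟩ h3
  exact h3.tail ⟨hZ h1, hZ h2, e, he, (sit_joins he).2
    ⟨fill_sv.2 (Or.inr h1), fill_sv.2 (Or.inr h2)⟩⟩

/-- The configurations `w` and `s.cut w` agree off `ball 0 2`. -/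
theorem cut_of_not_ball {s : Src} (h : a ∉ ball 0 2) : s.cut w (sv a) = w (sv a) := by
  refine Bool.eq_iff_iff.2 ?_
  rw [cut_sv]
  exact ⟨fun h1 => h1.1, fun h1 => ⟨h1, fun h2 => h (s.hV a h2)⟩⟩

/-- If `x` is joined to `u` then the sites of the path are in the cluster of `x` in a bigger
configuration. -/
theorem conn_transfer {D S : Set Vert} {x u : Vert}
    (hS : ∀ a, Conn (sit w) D x a → a ∈ S) (h : ∀ a ∈ S, w (sv a) = w' (sv a))
    (hc : Conn (sit w) D x u) : Conn (sit w') D x u := by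
  refine hc.induction_right (P := fun u => Conn (sit w') D x u) (Conn.refl hc.mem_left) ?_
  rintro a b hxa ⟨ha, hb, e, hj, ho⟩ ih
  have h1 := hS a hxa
  have h2 := hS b (hxa.tail ⟨ha, hb, e, hj, ho⟩)
  refine ih.tail ⟨ha, hb, e, hj, ?_⟩
  rw [sit_joins hj] at ho ⊢
  rw [← h a h1, ← h b h2]
  exact ho

theorem fence_congr {d : Side} {k : ℕ} {x : Vert} (hT : ∀ g ∈ vE (T d k), w g = w' g)
    (hD : ∀ g ∈ vE D, w g = w' g) (h : Fence d k (sit w) D x) : Fence d k (sit w') D x :=
  Pool.Agent.H59.EX.fence_congr (fun _ he => sit_congr' hT he.1 he.2)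
    (fun _ he => sit_congr' hD he.1 he.2) h

end Pool.Agent.H38.N59

end

section

/-!
# Outward separation for sites: definitions and elementary facts for the stages

The corridors and their crossing events are those of the bond setting, evaluated at the induced
configuration.
-/

set_option autoImplicit false

open MeasureTheory ProbabilityTheory unitInterval

namespace Pool.Agent.H38.N59

open Pool.Agent.H89.Perc
open Pool.Agent.H83.SK (sv sit sit_true)
open Pool.Agent.H59.EX (LocS inE touch clus closeS Side T Mouth Fence dom CorrData CorrSep clus_sub clus_step clus_conn mem_clus_single fence_mem corr_inter corr_far corr_sub160 mem_sphere_of_joins)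

/-- Cluster of the second point in `ball 0 (8 w)`. -/
def SY (s : Src) (w : ℕ) (ω : Config) : Set Vert := clus (sit (s.cut ω)) (ball 0 (8 * w)) {s.y}

/-- Cluster of the first point in `ball 0 (8 w) ∪ Z`, with `Z` filled. -/
noncomputable def S1 (s : Src) (w : ℕ) (Z : Set Vert) (ω : Config) : Set Vert :=
  clus (sit (fillS Z (s.cut ω))) (ball 0 (8 * w) ∪ Z) {s.x}

/-- Cluster of the first point in `ball 0 (160 w)`, with `Z` filled. -/
noncomputable def SH (s : Src) (w : ℕ) (Z : Set Vert) (ω : Config) : Set Vert :=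
  clus (sit (fillS Z (s.cut ω))) (ball 0 (160 * w)) {s.x}

/-- Stage 0: `x` lands near `v`, the cluster of `y` is far from `v`. -/
def Ev0 (s : Src) (w ρ : ℕ) (v : Vert) : Set Config :=
  {ω | (∃ u ∈ sphere 0 (8 * w), u ∈ ball v ρ ∧ Conn (sit (s.cut ω)) (ball 0 (8 * w)) s.x u) ∧
    (∃ u ∈ sphere 0 (8 * w), Conn (sit (s.cut ω)) (ball 0 (8 * w)) s.y u) ∧
    ¬ Conn (sit (s.cut ω)) (ball 0 (8 * w)) s.x s.y ∧ Disjoint (SY s w ω) (ball v (11 * ρ))}

/-- The clusters of `x` (after gluing) and of `y` are nowhere both close to the same vertex of the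
sphere. -/
def Good12 (s : Src) (w ρ' : ℕ) (Z : Set Vert) : Set Config :=
  {ω | ∀ z ∈ sphere 0 (8 * w), (S1 s w Z ω ∩ ball z (12 * ρ')).Nonempty →
    ¬ (SY s w ω ∩ ball z (12 * ρ')).Nonempty}

/-- The cluster of `x` is confined, contains a fence, and misses `y`. -/
def Conf (s : Src) (w ρ' : ℕ) (d : Side) (Z : Set Vert) : Set Config :=
  {ω | s.y ∉ SH s w Z ω ∧
    Fence d (4 * w) (sit (s.cut ω)) (SH s w Z ω ∩ (ball 0 (8 * w) ∪ Z)) s.x ∧
    ∀ z ∈ SH s w Z ω, z ∈ ball 0 (8 * w) ∨ (∃ a ∈ Z, ball z 1 ⊆ ball a (4 * ρ')) ∨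
      ∃ a ∈ SH s w Z ω, a ∈ sphere 0 (8 * w) ∧ ball z 1 ⊆ ball a (4 * ρ')}

/-- Stage 2 result. -/
def Ev2 (s : Src) (w ρ ρ' : ℕ) (v : Vert) (d : Side) (Z : Set Vert) : Set Config :=
  {ω | ω ∈ Conf s w ρ' d Z ∧ ∃ u ∈ sphere 0 (8 * w), u ∉ ball v (11 * ρ) ∧
    Conn (sit (s.cut ω)) (ball 0 (8 * w) \ SH s w Z ω) s.y u ∧
    Disjoint (SH s w Z ω) (ball u (8 * ρ'))}

/-- Stage 3: `y` lands near `v'`. -/
def Ev3 (s : Src) (w ρ' : ℕ) (v' : Vert) (d : Side) (Z : Set Vert) : Set Config :=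
  {ω | ω ∈ Conf s w ρ' d Z ∧ (∃ u ∈ sphere 0 (8 * w), u ∈ ball v' ρ' ∧
    Conn (sit (s.cut ω)) (ball 0 (8 * w) \ SH s w Z ω) s.y u) ∧
    Disjoint (SH s w Z ω) (ball v' (7 * ρ'))}

variable {ω : Config} {s : Src} {w ρ ρ' : ℕ} {v v' : Vert} {d d' : Side} {Z Zy : Set Vert}
  {Nev Ny : Set Config} {a b z : Vert}

theorem ball_mono' {z : Vert} {r r' : ℕ} (h : r ≤ r') : ball z r ⊆ ball z r' := by
  intro a ha
  simp only [mem_ball] at ha ⊢
  omega

theorem ball_symm' {a b : Vert} {r : ℕ} (h : a ∈ ball b r) : b ∈ ball a r := by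
  simp only [mem_ball] at h ⊢
  omega

/-- A vertex near `a`, with room for its neighbours. -/
theorem near_sub {r R : ℕ} (h : z ∈ ball a r) (hR : r + 1 ≤ R) : ball z 1 ⊆ ball a R := by
  intro b hb
  simp only [mem_ball] at h hb ⊢
  push_cast at hb
  omega

theorem near_self {r : ℕ} (hr : 1 ≤ r) : ball z 1 ⊆ ball z r := ball_mono' hr

theorem mem_of_near {r : ℕ} (h : ball z 1 ⊆ ball a r) : z ∈ ball a r := h self_mem_ball

theorem corr_cut (hK : CorrData w ρ v d Z Nev) (hρ : 1 ≤ ρ) (hw : 64 * ρ ≤ w)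
    (hv : v ∈ sphere 0 (8 * w)) {g : Edge} (hg : g ∈ vE Z) : s.cut ω g = ω g := by
  obtain ⟨h1, h2⟩ := hg
  have h3 : g = sv (src g) := by
    obtain ⟨x, y, t⟩ := g
    have h4 : t = false := h1
    simp [sv, src, h4]
  rw [h3]
  exact cut_of_not_ball fun h => corr_far hK hρ hw hv h2 (ball_mono' (by omega) h)

/-- The cluster of `y` is closed under steps of the filled configuration in `D ∪ Z`. -/
theorem SY_closed (hK : CorrData w ρ v d Z Nev) (hρ : 1 ≤ ρ)
    (h : Disjoint (SY s w ω) (ball v (11 * ρ))) {a b : Vert} (ha : a ∈ SY s w ω)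
    (hs : Step (sit (fillS Z (s.cut ω))) (ball 0 (8 * w) ∪ Z) a b) : b ∈ SY s w ω := by
  have haD : a ∈ ball 0 (8 * w) := clus_sub ha
  have hfar : a ∉ ball v (5 * ρ) := fun h1 =>
    Set.disjoint_left.1 h ha (ball_mono' (by omega) h1)
  obtain ⟨_, h2, e, he, ho⟩ := hs
  obtain ⟨hoa, hob⟩ := (sit_joins he).1 ho
  rw [fill_sv] at hoa hob
  have haZ : a ∉ Z := fun h1 => hfar (corr_inter hK ⟨h1, haD⟩)
  have hbZ : b ∉ Z := fun h1 =>
    hfar (hK.inter b h1 a haD (ball_mono' hρ (Pool.Agent.H59.EX.ball_of_joins he)))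
  exact clus_step ha ⟨haD, h2.resolve_right hbZ, e, he,
    (sit_joins he).2 ⟨hoa.resolve_right haZ, hob.resolve_right hbZ⟩⟩

/-- F1. -/
theorem S1_disj_SY (hK : CorrData w ρ v d Z Nev) (hρ : 1 ≤ ρ)
    (h : Disjoint (SY s w ω) (ball v (11 * ρ)))
    (hxy : ¬ Conn (sit (s.cut ω)) (ball 0 (8 * w)) s.x s.y) :
    Disjoint (S1 s w Z ω) (SY s w ω) := by
  rw [Set.disjoint_left]
  intro z hz hz'
  have h1 : Conn (sit (fillS Z (s.cut ω))) (ball 0 (8 * w) ∪ Z) z s.x :=
    (mem_clus_single.1 hz).symm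
  have h2 : s.x ∈ SY s w ω := h1.induction_right (P := fun b => b ∈ SY s w ω) hz'
    fun a b _ h3 h4 => SY_closed hK hρ h h4 h3
  exact hxy (mem_clus_single.1 h2).symm

private theorem fact_sub160 (hK : CorrData w ρ v d Z Nev) :
    ball 0 (8 * w) ∪ Z ⊆ ball 0 (160 * w) :=
  Set.union_subset (ball_mono' (by omega)) (corr_sub160 hK)

theorem S1_sub_SH (hK : CorrData w ρ v d Z Nev) : S1 s w Z ω ⊆ SH s w Z ω :=
  Pool.Agent.H59.EX.clus_mono (fact_sub160 hK) fun _ h => h

/-- If the cluster of `x` meets the filled corridor it contains it. -/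
theorem Z_sub_SH (hK : CorrData w ρ v d Z Nev) {a : Vert} (ha : a ∈ Z) (ha' : a ∈ SH s w Z ω) :
    Z ⊆ SH s w Z ω := by
  intro b hb
  exact clus_conn ha' (conn_fillS (corr_sub160 hK) (hK.conn a ha b hb))

theorem Z_sub_S1 (hK : CorrData w ρ v d Z Nev) {a : Vert} (ha : a ∈ Z) (ha' : a ∈ S1 s w Z ω) :
    Z ⊆ S1 s w Z ω := by
  intro b hb
  exact clus_conn ha' (conn_fillS Set.subset_union_right (hK.conn a ha b hb))

theorem Z_sub_SH_of_conf (hK : CorrData w ρ v d Z Nev) (h : ω ∈ Conf s w ρ' d Z) :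
    Z ⊆ SH s w Z ω := by
  obtain ⟨_, hF, _⟩ := h
  obtain ⟨u, hu, hc⟩ := fence_mem hF
  exact Z_sub_SH hK (hK.T_sub hu) hc.mem_right.1

/-- The second corridor and its neighbours miss every confined set. -/
theorem conf_far (hKy : CorrData w ρ' v' d' Zy Ny) (hS : CorrSep w ρ' v' Z Zy)
    (hρ' : 1 ≤ ρ') {S : Set Vert}
    (hconf : ∀ z ∈ S, z ∈ ball 0 (8 * w) ∨ (∃ a ∈ Z, ball z 1 ⊆ ball a (4 * ρ')) ∨
      ∃ a ∈ S, a ∈ sphere 0 (8 * w) ∧ ball z 1 ⊆ ball a (4 * ρ'))
    (hd : Disjoint S (ball v' (7 * ρ'))) {z z' : Vert} (hz : z ∈ Zy) (hz' : z' ∈ ball z 1) :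
    z' ∉ S := by
  rw [Set.disjoint_left] at hd
  intro hS'
  rcases hconf z' hS' with h1 | ⟨a, ha, h1⟩ | ⟨a, ha, ha', h1⟩
  · exact hd hS' (ball_mono' (by omega) (hKy.inter z hz z' h1 (ball_mono' hρ' hz')))
  · exact hS.far a ha z hz (ball_mono' (by omega) (h1 (ball_symm' hz')))
  · exact hd ha (hS.fringe z hz a ha' (h1 (ball_symm' hz')))

/-- The second corridor misses the confined cluster. -/
theorem Zy_disj_SH (hKy : CorrData w ρ' v' d' Zy Ny) (hS : CorrSep w ρ' v' Z Zy)
    (hρ' : 1 ≤ ρ') (h : ω ∈ Conf s w ρ' d Z) (hd : Disjoint (SH s w Z ω) (ball v' (7 * ρ'))) :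
    Disjoint Zy (SH s w Z ω) := by
  rw [Set.disjoint_left]
  intro z hz
  exact conf_far hKy hS hρ' h.2.2 hd hz self_mem_ball

/-- The points of the source are far from the sphere. -/
theorem src_far (h : a ∈ ball 0 2) (hρ : 1 ≤ ρ) (hw : 64 * ρ ≤ w) (hv : v ∈ sphere 0 (8 * w)) :
    a ∉ ball v (3 * ρ) := by
  intro h1
  have h2 := hv.2
  simp only [mem_ball, Prod.fst_zero, Prod.snd_zero] at h h1 h2
  push_cast at h h1 h2
  omega

theorem src_mem (h : a ∈ ball 0 2) (hw : 1 ≤ w) : a ∈ ball 0 (8 * w) := by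
  simp only [mem_ball, Prod.fst_zero, Prod.snd_zero] at h ⊢
  push_cast at h ⊢
  omega

theorem src_ne (h : a ∈ ball 0 2) (hw : 1 ≤ w) {u : Vert} (hu : u ∈ sphere 0 (8 * w)) :
    a ≠ u := by
  rintro rfl
  have h2 := hu.2
  simp only [mem_ball, Prod.fst_zero, Prod.snd_zero] at h h2
  push_cast at h h2
  omega

/-- The point of a fence of the source is open. -/
theorem open_of_fence {η : Config} {D : Set Vert} {k : ℕ} (hk : 1 ≤ k) (h : a ∈ ball 0 2)
    (hf : Fence d k (sit η) D a) : η (sv a) = true := by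
  obtain ⟨u, hu, hc⟩ := fence_mem hf
  refine open_of_conn hc ?_
  rintro rfl
  cases d
  all_goals
    simp only [T, rect, Set.mem_ofPred_eq] at hu
    simp only [mem_ball, Prod.fst_zero, Prod.snd_zero] at h
    push_cast at h
    omega

/-- A finite set which contains all the sites of `ball 0 r`. -/
theorem exists_fin (r : ℕ) : ∃ Λ : Finset Edge, ∀ g ∈ vE (ball 0 r), g ∈ Λ := by
  refine ⟨eRect (-(r : ℤ)) r (-(r : ℤ)) r, fun g hg => ?_⟩
  rw [mem_eRect]
  have h := hg.2
  unfold ball at h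
  simp only [Prod.fst_zero, Prod.snd_zero, zero_sub, zero_add] at h
  exact h

/-- A path only looks at the sites of its cluster. -/
theorem conn_of_sub {D S : Set Vert} {ω' : Config} {x u : Vert}
    (hS : ∀ a, Conn (sit (s.cut ω)) D x a → a ∈ S) (h : ∀ g ∈ vE S, ω g = ω' g)
    (hc : Conn (sit (s.cut ω)) D x u) : Conn (sit (s.cut ω')) D x u :=
  conn_transfer hS (fun _ ha => cut_congr (h _ (sv_mem_vE.2 ha))) hc

end Pool.Agent.H38.N59

end
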