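import Pool.Agent.H94.BG.H31.PT.M07_3
import Pool.Agent.H94.BG.M19

/-! The parts of this file: H13.SK.SigmaUp, H13.SK.BddLoc, H83.SK.P29.NoArm, H38.SK.N59.Defs, H38.SK.N59.Stage. -/

section

/-!
# Upper bound for the mean cluster size of site percolation at a scale where the other colour is
good
-/

set_option autoImplicit false

open MeasureTheory ProbabilityTheory unitInterval

namespace Pool.Agent.H13.SK

open Pool.Agent.H89.Perc Pool.Agent.H83.Site

end Pool.Agent.H13.SK

end

section

/-! # Russo-Seymour-Welsh for probabilities bounded away from zero, up to a given scale -/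

set_option autoImplicit false

open MeasureTheory ProbabilityTheory unitInterval

namespace Pool.Agent.H13.SK

open Pool.Agent.H89.Perc Pool.Agent.H83.Site

end Pool.Agent.H13.SK

end

section

/-!
# Site percolation, RSW regime: annuli which are not crossed, one-arm decay
-/

open MeasureTheory ProbabilityTheory unitInterval

namespace Pool.Agent.H83.SK

open Pool.Agent.H89.Perc Pool.Agent.H61.NC Pool.Agent.H31.EX

/-- Probability of the four events. -/
lemma noarm_four {c₁ : ℝ} (hc : 0 ≤ c₁) {q : I} {v : Vert} {s r : ℕ}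
    (h1 : c₁ ≤ Pr q {ω | ¬ HCross ω (v.1 + s) (v.1 + r) (v.2 - r) (v.2 + r)})
    (h2 : c₁ ≤ Pr q {ω | ¬ HCross ω (v.1 - r) (v.1 - s) (v.2 - r) (v.2 + r)})
    (h3 : c₁ ≤ Pr q {ω | ¬ VCross ω (v.1 - r) (v.1 + r) (v.2 + s) (v.2 + r)})
    (h4 : c₁ ≤ Pr q {ω | ¬ VCross ω (v.1 - r) (v.1 + r) (v.2 - r) (v.2 - s)}) (hsr : s ≤ r) :
    c₁ ^ 4 ≤ Pr q (ArmBox v s r)ᶜ := by
  have h12 := fkg_decr (p := q) (localOn_nohcross (v.1 + s) (v.1 + r) (v.2 - r) (v.2 + r))
    (localOn_nohcross (v.1 - r) (v.1 - s) (v.2 - r) (v.2 + r)) (decr_nohcross _ _ _ _)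
    (decr_nohcross _ _ _ _)
  have h34 := fkg_decr (p := q) (localOn_novcross (v.1 - r) (v.1 + r) (v.2 + s) (v.2 + r))
    (localOn_novcross (v.1 - r) (v.1 + r) (v.2 - r) (v.2 - s)) (decr_novcross _ _ _ _)
    (decr_novcross _ _ _ _)
  have h1234 := fkg_decr (p := q)
    ((localOn_nohcross (v.1 + s) (v.1 + r) (v.2 - r) (v.2 + r)).inter'
      (localOn_nohcross (v.1 - r) (v.1 - s) (v.2 - r) (v.2 + r)))
    ((localOn_novcross (v.1 - r) (v.1 + r) (v.2 + s) (v.2 + r)).inter'
      (localOn_novcross (v.1 - r) (v.1 + r) (v.2 - r) (v.2 - s)))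
    (by
      rw [Set.compl_inter]
      exact Incr.union (decr_nohcross _ _ _ _) (decr_nohcross _ _ _ _))
    (by
      rw [Set.compl_inter]
      exact Incr.union (decr_novcross _ _ _ _) (decr_novcross _ _ _ _))
  have h12' := (mul_le_mul h1 h2 hc Pr_nonneg).trans h12
  have h34' := (mul_le_mul h3 h4 hc Pr_nonneg).trans h34
  have h' := (mul_le_mul h12' h34' (by positivity) Pr_nonneg).trans h1234
  have e : c₁ ^ 4 = c₁ * c₁ * (c₁ * c₁) := by ring
  rw [e]
  refine h'.trans (Pr_mono ?_)
  rintro ω ⟨⟨w1, w2⟩, ⟨w3, w4⟩⟩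
  exact noarm_det hsr w1 w2 w3 w4

/-- The annulus `ball v (3 s)` minus `ball v s` is not crossed with positive probability. -/
theorem noarm_lower (c : ℝ) (hc : 0 < c) (K : ℕ) : ∃ c' : ℝ, 0 < c' ∧ ∀ (n : ℕ) (q : I), 1 ≤ n →
    RSWreg c n q → ∀ (v : Vert) (s : ℕ), 1 ≤ s → s ≤ K * n →
      c' ≤ Pr q {ω | ¬ ∃ u ∈ ball v s, ∃ u' ∈ sphere v (3 * s), Conn ω (ball v (3 * s)) u u'} := by
  obtain ⟨c1, hc1, H⟩ := rect_closed c hc (3 + 2 * K)
  refine ⟨c1 ^ 4, by positivity, ?_⟩
  intro n q hn hreg v s hs hsK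
  have hcompl : {ω : Config | ¬ ∃ u ∈ ball v s, ∃ u' ∈ sphere v (3 * s),
      Conn ω (ball v (3 * s)) u u'} = (ArmBox v s (3 * s))ᶜ := rfl
  rw [hcompl]
  have hs' : (1 : ℤ) ≤ s := by exact_mod_cast hs
  have hsK' : (s : ℤ) ≤ K * n := by exact_mod_cast hsK
  have hK0 : (0 : ℤ) ≤ K * s := by positivity
  have hn0 : (0 : ℤ) ≤ n := by positivity
  have key : ∀ a b y z : ℤ, b - a = 6 * s → z - y = 2 * s →
      c1 ≤ Pr q {ω | ¬ VCross ω a b y z} ∧ c1 ≤ Pr q {ω | ¬ HCross ω y z a b} := by
    intro a b y z h1 h2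
    refine H n q hn hreg a b y z (by omega) (by omega) ?_ ?_
    · rw [h1, h2]
      push_cast
      nlinarith
    · rw [h2]
      push_cast
      nlinarith
  have e3 : ((3 * s : ℕ) : ℤ) = 3 * s := by push_cast; ring
  refine noarm_four hc1.le ?_ ?_ ?_ ?_ (by omega)
  · exact (key _ _ _ _ (by rw [e3]; ring) (by rw [e3]; ring)).2
  · exact (key _ _ _ _ (by rw [e3]; ring) (by rw [e3]; ring)).2
  · exact (key _ _ _ _ (by rw [e3]; ring) (by rw [e3]; ring)).1
  · exact (key _ _ _ _ (by rw [e3]; ring) (by rw [e3]; ring)).1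

end Pool.Agent.H83.SK

end

section

/-!
# Separated four-arm events for site percolation: definitions

Everything is at the level of the sites: a configuration `w` gives the states of the sites, stored
at the coordinates `sv v`; `sit w` is the induced bond configuration.  Filling a set `Z` means
opening the sites of `Z`.
-/

set_option autoImplicit false

open MeasureTheory ProbabilityTheory unitInterval

namespace Pool.Agent.H38.N59

open Pool.Agent.H89.Perc
open Pool.Agent.H83.SK (sv sit sit_true)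
open Pool.Agent.H59.EX (LocS inE touch clus closeS Side T Mouth Fence dom)

/-! ### Elementary facts -/

end Pool.Agent.H38.N59

end

section

/-!
# Outward separation for sites: definitions and elementary facts for the stages

The corridors and their crossing events are those of the bond setting, evaluated at the induced
configuration.
-/

set_option autoImplicit false

open MeasureTheory ProbabilityTheory unitInterval

namespace Pool.Agent.H38.N59

open Pool.Agent.H89.Perc
open Pool.Agent.H83.SK (sv sit sit_true RSWreg)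
open Pool.Agent.H59.EX (LocS inE touch clus closeS Side T Mouth Fence dom CorrData CorrSep fence_mem mem_sphere_of_joins)

end Pool.Agent.H38.N59

end
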