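import Pool.Agent.H94.BG.H31.PT.M06_2
import Pool.Agent.H94.BG.H31.PT.M07_2
import Pool.Agent.H94.BG.H31.PT.M07_6
import Pool.Agent.H94.BG.H31.PT.M08_2
import Pool.Agent.H94.BG.H31.PT.M08_6
import Pool.Agent.H94.BG.H31.PT.M10
import Pool.Agent.H94.BG.M08

/-! The parts of this file: H13.SK.SigmaSum, H83.Site.FSstrong, H13.SK.Good, H83.SK.P57.Chain, H83.SK.PHP.Reg, H83.SK.PHP.One, H38.SK.N59.Corr, H38.SK.N59.Sym, H38.SK.N59.Bad, H38.SK.N59.St3, H38.SK.N59.St1. -/

section

/-!
# Upper bound for the mean cluster size: summation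
-/

set_option autoImplicit false

open MeasureTheory ProbabilityTheory unitInterval

namespace Pool.Agent.H13.SK

open Pool.Agent.H89.Perc Pool.Agent.H83.Site

end Pool.Agent.H13.SK

end

section

/-! # Finite size criterion with arms -/

set_option autoImplicit false

open MeasureTheory ProbabilityTheory unitInterval

namespace Pool.Agent.H83.Site

open Pool.Agent.H89.Perc

end Pool.Agent.H83.Site

end

section

/-!
# Good scales of site percolation

`Good δ p r m`: the square of side `4 m` is crossed with probability at least `1 - δ` by paths of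
the colour `r` (`r = false`: open sites of the square lattice, `r = true`: sites of the matching
lattice).
-/

set_option autoImplicit false

open MeasureTheory ProbabilityTheory unitInterval

namespace Pool.Agent.H13.SK

open Pool.Agent.H89.Perc Pool.Agent.H83.Site

end Pool.Agent.H13.SK

end

section

/-!
# Chains of circuits
-/

open MeasureTheory ProbabilityTheory unitInterval

namespace Pool.Agent.H83.SK

open Pool.Agent.H57.EX

open Pool.Agent.H89.Perc Pool.Agent.H61.NC Pool.Agent.H29.Sep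

/-- Probability of a chain of circuits (from `circ_lower` and `fkg_many`). -/
theorem allCirc_lower (c : ℝ) (hc : 0 < c) : ∃ c' : ℝ, 0 < c' ∧ c' ≤ 1 ∧ ∀ (m : ℕ) (q : I),
    1 ≤ m → RSWreg c m q → ∀ (γ : ℕ → Vert) (n s : ℕ), 1 ≤ s → s ≤ m →
      c' ^ (n + 1) ≤ Pr q (AllCirc γ n s) := by
  classical
  obtain ⟨c1, hc1, H⟩ := circ_lower c hc 1
  refine ⟨min c1 1, lt_min hc1 one_pos, min_le_right _ _, ?_⟩
  intro m q hm hq γ n s hs hsm
  have h1 := fkg_many (p := q) (Finset.range (n + 1)) (fun i => Circ (γ i) s)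
    (fun i => eCirc (γ i) s) (c := min c1 1) (le_min hc1.le zero_le_one)
    (fun i _ => localOn_circ _ _) (fun i _ => incr_circ _ _)
    (fun i _ => (min_le_left _ _).trans (H m q hm hq (γ i) s hs (by omega)))
  rw [Finset.card_range] at h1
  have h2 : (⋂ i ∈ Finset.range (n + 1), Circ (γ i) s) = AllCirc γ n s := by
    ext ω
    rw [Set.mem_iInter₂]
    constructor
    · intro h i hi
      exact h i (Finset.mem_range.mpr (by omega))
    · intro h i hi
      exact h i (by have := Finset.mem_range.mp hi; omega)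
  rwa [h2] at h1

/-- Probability of the sealing event (from `noarm_lower` and `fkg_decr_many`). -/
theorem seal_lower (c : ℝ) (hc : 0 < c) : ∃ c' : ℝ, 0 < c' ∧ c' ≤ 1 ∧ ∀ (m : ℕ) (q : I),
    1 ≤ m → RSWreg c m q → ∀ (V : Finset Vert) (s : ℕ), 1 ≤ s → s ≤ m →
      c' ^ V.card ≤ Pr q {ω | ∀ v ∈ V, ω ∉ ArmBox v s (3 * s)} := by
  classical
  obtain ⟨c1, hc1, H⟩ := noarm_lower c hc 1
  refine ⟨min c1 1, lt_min hc1 one_pos, min_le_right _ _, ?_⟩
  intro m q hm hq V s hs hsm
  have hcompl : ∀ v : Vert, {ω | ¬ ∃ u ∈ ball v s, ∃ u' ∈ sphere v (3 * s),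
      Conn ω (ball v (3 * s)) u u'} = (ArmBox v s (3 * s))ᶜ := fun v => rfl
  have h1 := fkg_decr_many (p := q) V (fun v => (ArmBox v s (3 * s))ᶜ)
    (fun v => eRect (v.1 - ((3 * s : ℕ) : ℤ)) (v.1 + ((3 * s : ℕ) : ℤ))
      (v.2 - ((3 * s : ℕ) : ℤ)) (v.2 + ((3 * s : ℕ) : ℤ)))
    (c := min c1 1) (le_min hc1.le zero_le_one)
    (fun v _ => (localOn_armBox v s (3 * s)).compl)
    (fun v _ => by rw [compl_compl]; exact incr_armBox _ _ _)
    (fun v _ => by
      rw [← hcompl]
      exact (min_le_left _ _).trans (H m q hm hq v s hs (by omega)))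
  have h2 : (⋂ v ∈ V, (ArmBox v s (3 * s))ᶜ) = {ω | ∀ v ∈ V, ω ∉ ArmBox v s (3 * s)} := by
    ext ω
    rw [Set.mem_iInter₂]
    rfl
  rwa [h2] at h1

end Pool.Agent.H83.SK

end

section

/-!
# Site percolation, box-crossing regime: blocking, decay, half circuits
-/

open MeasureTheory ProbabilityTheory unitInterval

namespace Pool.Agent.H83.SK

open Pool.Agent.H26.HP

open Pool.Agent.H89.Perc

end Pool.Agent.H83.SK

end

section

/-!
# Half plane, one arm with a free side: the exponent is one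

`E1 R z`: the cluster of `(z, 0)` in the half ball of radius `R` reaches distance `R` and does not
touch the base to the right of `(z, 0)`.  Its probability is at most `C / R`.
-/

open MeasureTheory ProbabilityTheory unitInterval

namespace Pool.Agent.H83.SK

open Pool.Agent.H26.HP

open Pool.Agent.H89.Perc

end Pool.Agent.H83.SK

end

section

/-!
# The corridor lemma for site percolation

`pb π w` is the configuration `g ↦ w (π g)`.  Given a separated four-arm event, increasing events of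
the sites of the corridor `C` and arbitrary events `H` of the sites which are neither in `C` nor in
or adjacent (in the domain) to the two clusters (with filled targets) can be added at the cost of
constant factors.
-/

set_option autoImplicit false

open MeasureTheory ProbabilityTheory unitInterval

namespace Pool.Agent.H38.N59

open Pool.Agent.H89.Perc
open Pool.Agent.H83.SK (sv sit sit_true RSWreg)
open Pool.Agent.H59.EX (LocS inE touch clus closeS Side T Mouth Fence dom pb sat fkg_cond markov_indep)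

theorem locS_mono {t t' : Set Edge} {A : Set Config} (h : LocS t A) (ht : t ⊆ t') :
    LocS t' A := fun _ _ hw => h _ _ fun e he => hw e (ht he)

theorem locS_inter {t : Set Edge} {A B : Set Config} (h : LocS t A) (h' : LocS t B) :
    LocS t (A ∩ B) := fun w w' hw hm => ⟨h w w' hw hm.1, h' w w' hw hm.2⟩

theorem locS_localOn {t : Set Edge} {Λ : Finset Edge} {A : Set Config} (h : LocS t A)
    (ht : t ⊆ ↑Λ) : LocalOn Λ A := fun w w' hw => h w w' fun e he => hw e (by exact_mod_cast ht he)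

theorem locS_pb {π : Edge → Edge} {t : Set Edge} {A : Set Config} (h : LocS t A) :
    LocS (π '' t) {w | pb π w ∈ A} := fun _ _ hw hm =>
  h _ _ (fun e he => hw (π e) ⟨e, he, rfl⟩) hm

theorem incr_pb {π : Edge → Edge} {A : Set Config} (h : Incr A) :
    Incr {w | pb π w ∈ A} := fun _ _ hw hm => h _ _ (fun e he => hw (π e) he) hm

theorem vE_finite {S : Set Vert} (hS : S.Finite) : (vE S).Finite := by
  refine (hS.image sv).subset ?_
  rintro ⟨a, b, t⟩ ⟨h1, h2⟩
  refine ⟨(a, b), h2, ?_⟩
  have h3 : t = false := h1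
  simp [sv, h3]

private theorem touch_mono {D S S' : Set Vert} (h : S ⊆ S') : touch D S ⊆ touch D S' :=
  fun _ he => ⟨he.1, he.2.imp (fun x => h x) fun x => h x⟩

theorem rv_mono {D S S' : Set Vert} (h : S ⊆ S') : rv D S ⊆ rv D S' :=
  en_mono (touch_mono h)

/-- A path only looks at the sites determined by the cluster. -/
theorem conn_congr_rv {w w' : Config} {D : Set Vert} {x v : Vert}
    (h : ∀ g ∈ rv D (clus (sit w) D {x}), w g = w' g) (hc : Conn (sit w) D x v) :
    Conn (sit w') D x v := by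
  have h1 : v ∈ clus (sit w) D {x} := ⟨x, rfl, hc⟩
  have h2 : clus (sit w') D {x} = clus (sit w) D {x} :=
    locS_clus D {x} (clus (sit w) D {x}) w w' h rfl
  rw [← h2] at h1
  obtain ⟨y, hy, h3⟩ := h1
  rw [Set.mem_singleton_iff.1 hy] at h3
  exact h3

/-- A fence only looks at the sites of its target and at the sites determined by the cluster. -/
theorem fence_congr_rv {d : Side} {k : ℕ} {w w' : Config} {D : Set Vert} {x : Vert}
    (h1 : ∀ g ∈ vE (T d k), w g = w' g) (h2 : ∀ g ∈ rv D (clus (sit w) D {x}), w g = w' g)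
    (h : Fence d k (sit w) D x) : Fence d k (sit w') D x := by
  cases d <;> obtain ⟨u, v, hu, hv, k1, k2⟩ := h <;>
    exact ⟨u, v, hu, hv, conn_congr h1 k1, conn_congr_rv h2 k2⟩

private theorem fence_mono {d : Side} {k : ℕ} {w w' : Config} {D : Set Vert} {x : Vert}
    (h1 : ∀ g, w g = true → w' g = true) (h : Fence d k (sit w) D x) : Fence d k (sit w') D x :=
  Pool.Agent.H59.EX.fence_mono le_rfl (sit_mono h1) h

/-- The part of `Sep` about the filled configuration. -/
def SepA (s : Src) (d d' : Side) (k : ℕ) : Set Config :=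
  {w | ¬ Conn (sit (s.ful d d' k w)) (dom d d' k) s.x s.y ∧
    (∀ v ∈ sphere 0 (32 * k), Conn (sit (s.ful d d' k w)) (dom d d' k) s.x v → v ∈ Mouth d k) ∧
    (∀ v ∈ sphere 0 (32 * k), Conn (sit (s.ful d d' k w)) (dom d d' k) s.y v → v ∈ Mouth d' k)}

/-- The increasing part of `Sep`. -/
def SepG (s : Src) (d d' : Side) (k : ℕ) : Set Config :=
  {w | Fence d k (sit (s.cut w)) (dom d d' k) s.x ∧ Fence d' k (sit (s.cut w)) (dom d d' k) s.y}

theorem sep_eq (s : Src) (d d' : Side) (k : ℕ) :
    Sep s d d' k = SepA s d d' k ∩ SepG s d d' k := by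
  ext w
  simp only [Sep, SepA, SepG, Set.mem_ofPred_eq, Set.mem_inter_iff]
  tauto

private theorem T_sub_dom (d d' : Side) (k : ℕ) : T d k ⊆ dom d d' k := fun _ h => Or.inr (Or.inl h)

private theorem T_sub_dom' (d d' : Side) (k : ℕ) : T d' k ⊆ dom d d' k :=
  fun _ h => Or.inr (Or.inr h)

theorem locS_sepA (s : Src) (d d' : Side) (k : ℕ) :
    LocS (vE (dom d d' k) \ vE (T d k ∪ T d' k)) (SepA s d d' k) := by
  rintro w w' h ⟨h1, h2, h3⟩
  have key : ∀ g ∈ vE (dom d d' k), s.ful d d' k w' g = s.ful d d' k w g := fun g hg =>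
    fill_congr fun hne => (cut_congr (h g ⟨hg, hne⟩)).symm
  exact ⟨fun hc => h1 (conn_congr key hc), fun v hv hc => h2 v hv (conn_congr key hc),
    fun v hv hc => h3 v hv (conn_congr key hc)⟩

theorem locS_sepG (s : Src) (d d' : Side) (k : ℕ) :
    LocS (vE (dom d d' k)) (SepG s d d' k) := by
  rintro w w' h ⟨h1, h2⟩
  have key : ∀ g ∈ vE (dom d d' k), s.cut w g = s.cut w' g := fun g hg => cut_congr (h g hg)
  exact ⟨fence_congr (fun g hg => key g (vE_mono (T_sub_dom d d' k) hg)) key h1,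
    fence_congr (fun g hg => key g (vE_mono (T_sub_dom' d d' k) hg)) key h2⟩

theorem incr_sepG (s : Src) (d d' : Side) (k : ℕ) : Incr (SepG s d d' k) := by
  rintro w w' h ⟨h1, h2⟩
  exact ⟨fence_mono (cut_incr h) h1, fence_mono (cut_incr h) h2⟩

theorem locS_sep (s : Src) (d d' : Side) (k : ℕ) : LocS (vE (dom d d' k)) (Sep s d d' k) := by
  rw [sep_eq]
  exact locS_inter (locS_mono (locS_sepA s d d' k) Set.sdiff_subset) (locS_sepG s d d' k)

theorem locS_FX (s : Src) (d d' : Side) (k : ℕ) (S : Set Vert) :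
    LocS (rv (dom d d' k) S) {w | FX s d d' k w = S} :=
  fun _ _ h hw => clus_fill_congr (fun g hg _ => h g hg) hw

theorem locS_FY (s : Src) (d d' : Side) (k : ℕ) (S : Set Vert) :
    LocS (rv (dom d d' k) S) {w | FY s d d' k w = S} :=
  fun _ _ h hw => clus_fill_congr (fun g hg _ => h g hg) hw

private theorem clus_cut_sub {s : Src} {w : Config} {Z D X : Set Vert} :
    clus (sit (s.cut w)) D X ⊆ clus (sit (fillS Z (s.cut w))) D X := by
  rintro v ⟨x, hx, hc⟩
  exact ⟨x, hx, conn_mono le_rfl (fun g hg => le_fillS hg) hc⟩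

theorem mem_FX {s : Src} {d d' : Side} {k : ℕ} {w : Config} {v : Vert} :
    v ∈ FX s d d' k w ↔ Conn (sit (s.ful d d' k w)) (dom d d' k) s.x v := by
  simp [FX, clus]

theorem mem_FY {s : Src} {d d' : Side} {k : ℕ} {w : Config} {v : Vert} :
    v ∈ FY s d d' k w ↔ Conn (sit (s.ful d d' k w)) (dom d d' k) s.y v := by
  simp [FY, clus]

/-- Once the two clusters are known, `Sep` is decided by the sites of the clusters, their neighbours
and the sites of the targets. -/
theorem locS_sep_val (s : Src) (d d' : Side) (k : ℕ) {C : Set Vert}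
    (hCT : T d k ∪ T d' k ⊆ C) (S S' : Set Vert) :
    LocS (rv (dom d d' k) (S ∪ S') ∪ vE C)
      {w | w ∈ Sep s d d' k ∧ FX s d d' k w = S ∧ FY s d d' k w = S'} := by
  rintro w w' h ⟨⟨h1, h2, h3, h4, h5⟩, hX, hY⟩
  have hX' : FX s d d' k w' = S := locS_FX s d d' k S w w'
    (fun e he => h e (Or.inl (rv_mono Set.subset_union_left he))) hX
  have hY' : FY s d d' k w' = S' := locS_FY s d d' k S' w w'
    (fun e he => h e (Or.inl (rv_mono Set.subset_union_right he))) hY
  have cX : ∀ v, Conn (sit (s.ful d d' k w')) (dom d d' k) s.x v →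
      Conn (sit (s.ful d d' k w)) (dom d d' k) s.x v := fun v hv => by
    rw [← mem_FX] at hv ⊢
    rw [hX]
    rw [hX'] at hv
    exact hv
  have cY : ∀ v, Conn (sit (s.ful d d' k w')) (dom d d' k) s.y v →
      Conn (sit (s.ful d d' k w)) (dom d d' k) s.y v := fun v hv => by
    rw [← mem_FY] at hv ⊢
    rw [hY]
    rw [hY'] at hv
    exact hv
  refine ⟨⟨?_, ?_, fun hc => h3 (cX _ hc), fun v hv hc => h4 v hv (cX _ hc),
    fun v hv hc => h5 v hv (cY _ hc)⟩, hX', hY'⟩
  · refine fence_congr_rv (fun g hg => cut_congr (h g (Or.inr ?_))) (fun g hg => cut_congr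
      (h g (Or.inl ?_))) h1
    · exact vE_mono (fun v hv => hCT (Or.inl hv)) hg
    · refine rv_mono (fun v hv => Or.inl ?_) hg
      rw [← hX]
      exact clus_cut_sub hv
  · refine fence_congr_rv (fun g hg => cut_congr (h g (Or.inr ?_))) (fun g hg => cut_congr
      (h g (Or.inl ?_))) h2
    · exact vE_mono (fun v hv => hCT (Or.inr hv)) hg
    · refine rv_mono (fun v hv => Or.inr ?_) hg
      rw [← hY]
      exact clus_cut_sub hv

end Pool.Agent.H38.N59

end

section

/-!
# Symmetries of the separated events for sites, sum over sides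
-/

set_option autoImplicit false

open MeasureTheory ProbabilityTheory unitInterval

namespace Pool.Agent.H38.N59

open Pool.Agent.H89.Perc
open Pool.Agent.H61.NC hiding RSWreg
open Pool.Agent.H83.SK (sv sit sit_true RSWreg)
open Pool.Agent.H59.EX (LocS inE touch clus closeS Side T Mouth Fence dom Gen OnSide fence_mem)

private theorem sym_joins (g : Gen) (e : Edge) (a b : Vert) (h : Joins e a b) :
    Joins (g.e e) (g.v a) (g.v b) := by
  cases g
  · exact joins_swap e a b h
  · have := joins_reflX 0 e a b h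
    rw [zero_sub, zero_sub] at this
    exact this
  · have := joins_reflY 0 e a b h
    rw [zero_sub, zero_sub] at this
    exact this

private theorem sym_ends (g : Gen) (e : Edge) :
    (src (g.e e) = g.v (src e) ∧ tgt (g.e e) = g.v (tgt e)) ∨
      (src (g.e e) = g.v (tgt e) ∧ tgt (g.e e) = g.v (src e)) := by
  rcases sym_joins g e _ _ (joins_src_tgt e) with ⟨h1, h2⟩ | ⟨h1, h2⟩
  · exact Or.inl ⟨h1.symm, h2.symm⟩
  · exact Or.inr ⟨h2.symm, h1.symm⟩

/-- The action on the coordinates of the sites. -/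
def gp (g : Gen) (e : Edge) : Edge := if e.2.2 = false then sv (g.v (src e)) else e

theorem gp_sv (g : Gen) (a : Vert) : gp g (sv a) = sv (g.v a) := by
  simp [gp, sv, src]

theorem gp_gp (g : Gen) (e : Edge) : gp g (gp g e) = e := by
  by_cases h : e.2.2 = false
  · have h1 : e = sv (src e) := by
      obtain ⟨x, y, t⟩ := e
      have h4 : t = false := h
      simp [sv, src, h4]
    rw [h1, gp_sv, gp_sv, g.v_v]
  · have h1 : gp g e = e := by simp [gp, h]
    rw [h1, h1]

theorem gp_inj (g : Gen) : Function.Injective (gp g) :=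
  Function.LeftInverse.injective (gp_gp g)

/-- The induced configuration of the transformed configuration. -/
theorem gp_sit (g : Gen) (ω : Config) : sit (fun e => ω (gp g e)) = fun e => sit ω (g.e e) := by
  funext e
  unfold sit
  change (ω (gp g (sv (src e))) && ω (gp g (sv (tgt e)))) = _
  rw [gp_sv, gp_sv]
  rcases sym_ends g e with ⟨h1, h2⟩ | ⟨h1, h2⟩
  · rw [h1, h2]
  · rw [h1, h2, Bool.and_comm]

/-- The image of a source. -/
noncomputable def Src.map (g : Gen) (s : Src) : Src where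
  x := g.v s.x
  y := g.v s.y
  V0 := s.V0.image g.v
  hx := (g.mem_ball 2 s.x).2 s.hx
  hy := (g.mem_ball 2 s.y).2 s.hy
  hV := by
    intro v hv
    obtain ⟨f, hf, rfl⟩ := Finset.mem_image.1 hv
    exact (g.mem_ball 2 f).2 (s.hV f hf)

/-- Exchange the two points. -/
def Src.flip (s : Src) : Src := ⟨s.y, s.x, s.V0, s.hy, s.hx, s.hV⟩

variable {q : I} {s : Src} {d d' : Side} {k r w : ℕ}

/-! ### The action on the constructions -/

private theorem sym_mem_vE (g : Gen) (S : Set Vert) (e : Edge) :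
    e ∈ vE S ↔ gp g e ∈ vE {w | g.v w ∈ S} := by
  by_cases h : e.2.2 = false
  · have h1 : e = sv (src e) := by
      obtain ⟨x, y, t⟩ := e
      have h4 : t = false := h
      simp [sv, src, h4]
    rw [h1, gp_sv, sv_mem_vE, sv_mem_vE, Set.mem_ofPred_eq, g.v_v]
  · have h1 : gp g e = e := by simp [gp, h]
    rw [h1]
    exact ⟨fun h2 => absurd h2.1 h, fun h2 => absurd h2.1 h⟩

theorem sym_cut (g : Gen) (s : Src) (ω : Config) :
    (s.map g).cut (fun e => ω (gp g e)) = fun e => s.cut ω (gp g e) := by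
  funext e
  have h : e ∈ vE ((s.map g).V0 : Set Vert) ↔ gp g e ∈ vE (s.V0 : Set Vert) := by
    rw [sym_mem_vE g]
    have h2 : {w | g.v w ∈ ((s.map g).V0 : Set Vert)} = (s.V0 : Set Vert) := by
      ext a
      simp only [Set.mem_ofPred_eq, Finset.mem_coe, Src.map, Finset.mem_image]
      constructor
      · rintro ⟨b, hb, h3⟩
        have h4 := congrArg g.v h3
        rw [g.v_v, g.v_v] at h4
        rwa [← h4]
      · intro ha
        exact ⟨a, ha, rfl⟩
    rw [h2]
  rw [Bool.eq_iff_iff]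
  unfold Src.cut
  rw [closeS_true, closeS_true, h]

private theorem sym_fill (g : Gen) (S : Set Vert) (η : Config) :
    fillS S (fun e => η (gp g e)) = fun e => fillS {w | g.v w ∈ S} η (gp g e) := by
  funext e
  rw [Bool.eq_iff_iff, fillS_true, fillS_true, sym_mem_vE g]

private theorem sym_conn (g : Gen) (η : Config) (S : Set Vert) (u v : Vert) :
    Conn (sit (fun e => η (gp g e))) S u v ↔
      Conn (sit η) {w | g.v w ∈ S} (g.v u) (g.v v) := by
  rw [gp_sit]
  exact conn_invol g.e_e g.v_v (sym_joins g) S u v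

theorem sym_conn' (g : Gen) (η : Config) (S : Set Vert) (u v : Vert) :
    Conn (sit (fun e => η (gp g e))) S (g.v u) (g.v v) ↔ Conn (sit η) {w | g.v w ∈ S} u v := by
  rw [sym_conn, g.v_v, g.v_v]

private theorem sym_T (g : Gen) (d : Side) (k : ℕ) (w : Vert) :
    g.v w ∈ T (g.s d) k ↔ w ∈ T d k := by
  cases g <;> cases d <;> simp only [Gen.v, Gen.s, T, rect, Set.mem_ofPred_eq] <;> omega

private theorem sym_Mouth (g : Gen) (d : Side) (k : ℕ) (w : Vert) :
    g.v w ∈ Mouth (g.s d) k ↔ w ∈ Mouth d k := by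
  cases g <;> cases d <;> simp only [Gen.v, Gen.s, Mouth, rect, Set.mem_ofPred_eq] <;> omega

theorem sym_sphere (g : Gen) (r : ℕ) (a : Vert) : g.v a ∈ sphere 0 r ↔ a ∈ sphere 0 r := by
  have h := g.mem_ball r a
  unfold sphere
  simp only [Set.mem_ofPred_eq]
  rw [h]
  cases g <;> simp only [Gen.v, Prod.fst_zero, Prod.snd_zero] <;>
    refine and_congr_right fun _ => ?_ <;> omega

private theorem sym_T' (g : Gen) (d : Side) (k : ℕ) : {w | g.v w ∈ T (g.s d) k} = T d k := by
  ext w
  exact sym_T g d k w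

private theorem sym_TT (g : Gen) (d d' : Side) (k : ℕ) :
    {w | g.v w ∈ T (g.s d) k ∪ T (g.s d') k} = T d k ∪ T d' k := by
  ext w
  simp only [Set.mem_ofPred_eq, Set.mem_union, sym_T]

private theorem sym_dom (g : Gen) (d d' : Side) (k : ℕ) :
    {w | g.v w ∈ dom (g.s d) (g.s d') k} = dom d d' k := by
  ext w
  simp only [dom, Set.mem_ofPred_eq, Set.mem_union, sym_T, g.mem_ball]

/-- The two ends of a crossing of the target. -/
private def sym_E (d : Side) (k : ℕ) (u v : Vert) : Prop :=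
  match d with
  | .E => u.2 = -(3 * k) ∧ v.2 = 3 * k
  | .N => u.1 = -(3 * k) ∧ v.1 = 3 * k
  | .W => u.2 = -(3 * k) ∧ v.2 = 3 * k
  | .S => u.1 = -(3 * k) ∧ v.1 = 3 * k

private theorem sym_fence_iff {d : Side} {k : ℕ} {ω : Config} {D : Set Vert} {x : Vert} :
    Fence d k ω D x ↔ ∃ u v, sym_E d k u v ∧ Conn ω (T d k) u v ∧ Conn ω D x u := by
  cases d
  all_goals
    constructor
    · rintro ⟨u, v, h1, h2, h3, h4⟩
      exact ⟨u, v, ⟨h1, h2⟩, h3, h4⟩
    · rintro ⟨u, v, ⟨h1, h2⟩, h3, h4⟩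
      exact ⟨u, v, h1, h2, h3, h4⟩

private theorem sym_E_g (g : Gen) {d : Side} {k : ℕ} {u v : Vert} (h : sym_E d k u v) :
    sym_E (g.s d) k (g.v u) (g.v v) ∨ sym_E (g.s d) k (g.v v) (g.v u) := by
  cases g <;> cases d <;> simp only [sym_E, Gen.s, Gen.v] at h ⊢ <;> omega

private theorem sym_fence (g : Gen) {d : Side} {k : ℕ} {η : Config} {D : Set Vert} {x : Vert}
    (hT : T (g.s d) k ⊆ D) (h : Fence d k (sit η) {w | g.v w ∈ D} x) :
    Fence (g.s d) k (sit (fun e => η (gp g e))) D (g.v x) := by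
  obtain ⟨u, v, h1, h2, h3⟩ := sym_fence_iff.1 h
  have h2' : Conn (sit (fun e => η (gp g e))) (T (g.s d) k) (g.v u) (g.v v) := by
    rw [sym_conn', sym_T']
    exact h2
  have h3' : Conn (sit (fun e => η (gp g e))) D (g.v x) (g.v u) := (sym_conn' g η D x u).2 h3
  rcases sym_E_g g h1 with h4 | h4
  · exact sym_fence_iff.2 ⟨_, _, h4, h2', h3'⟩
  · exact sym_fence_iff.2 ⟨_, _, h4, h2'.symm, h3'.trans (h2'.mono_set hT)⟩

theorem sym_map_map (g : Gen) (s : Src) : (s.map g).map g = s := by
  obtain ⟨x, y, V0, hx, hy, hV⟩ := s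
  simp only [Src.map, Src.mk.injEq]
  refine ⟨g.v_v x, g.v_v y, ?_⟩
  ext e
  simp only [Finset.mem_image]
  constructor
  · rintro ⟨f, ⟨f', hf', rfl⟩, rfl⟩
    rw [g.v_v]
    exact hf'
  · intro he
    exact ⟨g.v e, ⟨e, he, rfl⟩, g.v_v e⟩

private theorem sym_ful (g : Gen) (s : Src) (d d' : Side) (k : ℕ) (ω : Config) :
    (s.map g).ful (g.s d) (g.s d') k (fun e => ω (gp g e)) =
      fun e => s.ful d d' k ω (gp g e) := by
  unfold Src.ful
  rw [sym_cut, sym_fill, sym_TT]

private theorem sym_T_dom (d d' : Side) (k : ℕ) : T d k ⊆ dom d d' k := fun _ h =>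
  Or.inr (Or.inl h)

private theorem sym_T_dom' (d d' : Side) (k : ℕ) : T d' k ⊆ dom d d' k := fun _ h =>
  Or.inr (Or.inr h)

theorem sym_sep (g : Gen) {s : Src} {d d' : Side} {k : ℕ} {ω : Config}
    (h : ω ∈ Sep s d d' k) :
    (fun e => ω (gp g e)) ∈ Sep (s.map g) (g.s d) (g.s d') k := by
  obtain ⟨h1, h2, h3, h4, h5⟩ := h
  have hx : (s.map g).x = g.v s.x := rfl
  have hy : (s.map g).y = g.v s.y := rfl
  refine ⟨?_, ?_, ?_, ?_, ?_⟩
  · rw [sym_cut, hx]
    refine sym_fence g (sym_T_dom _ _ k) ?_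
    rw [sym_dom]
    exact h1
  · rw [sym_cut, hy]
    refine sym_fence g (sym_T_dom' _ _ k) ?_
    rw [sym_dom]
    exact h2
  · rw [sym_ful, hx, hy, sym_conn', sym_dom]
    exact h3
  · intro v hv hc
    rw [sym_ful, hx, sym_conn, sym_dom, g.v_v] at hc
    have h6 := h4 (g.v v) ((sym_sphere g _ v).2 hv) hc
    rw [← sym_Mouth g, g.v_v] at h6
    exact h6
  · intro v hv hc
    rw [sym_ful, hy, sym_conn, sym_dom, g.v_v] at hc
    have h6 := h5 (g.v v) ((sym_sphere g _ v).2 hv) hc
    rw [← sym_Mouth g, g.v_v] at h6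
    exact h6

theorem locS_four (s : Src) (r : ℕ) : LocS (vE (ball 0 r)) (Four s r) := by
  have key : ∀ ω ω' : Config, (∀ e ∈ vE (ball 0 r), ω e = ω' e) →
      ∀ u v, Conn (sit (s.cut ω)) (ball 0 r) u v → Conn (sit (s.cut ω')) (ball 0 r) u v :=
    fun ω ω' h u v hc => conn_congr (fun e he => cut_congr (h e he)) hc
  rintro ω ω' h ⟨⟨u, hu, h1⟩, ⟨u', hu', h2⟩, h3⟩
  exact ⟨⟨u, hu, key _ _ h _ _ h1⟩, ⟨u', hu', key _ _ h _ _ h2⟩,
    fun h4 => h3 (key _ _ (fun e he => (h e he).symm) _ _ h4)⟩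

theorem sep_flip : Sep s.flip d' d k = Sep s d d' k := by
  have hdom : dom d' d k = dom d d' k := by
    unfold dom
    rw [Set.union_comm (T d' k)]
  have hcut : ∀ ω, s.flip.cut ω = s.cut ω := fun _ => rfl
  have hful : ∀ ω, s.flip.ful d' d k ω = s.ful d d' k ω := by
    intro ω
    unfold Src.ful
    rw [hcut, Set.union_comm (T d' k)]
  ext ω
  unfold Sep
  simp only [Set.mem_ofPred_eq, hcut, hdom, hful]
  have h : Conn (sit (s.ful d d' k ω)) (dom d d' k) s.flip.x s.flip.y ↔
      Conn (sit (s.ful d d' k ω)) (dom d d' k) s.x s.y := conn_comm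
  rw [h]
  change Fence d' k (sit (s.cut ω)) (dom d d' k) s.y ∧
    Fence d k (sit (s.cut ω)) (dom d d' k) s.x ∧ _ ∧
    (∀ v ∈ sphere 0 (32 * k),
      Conn (sit (s.ful d d' k ω)) (dom d d' k) s.y v → v ∈ Mouth d' k) ∧
    (∀ v ∈ sphere 0 (32 * k),
      Conn (sit (s.ful d d' k ω)) (dom d d' k) s.x v → v ∈ Mouth d k) ↔ _
  tauto

/-- Horizontal segments. -/
private lemma sym_seg_x {S : Set Vert} (x y : ℤ) (n : ℕ)
    (h : ∀ z : ℤ, x ≤ z → z ≤ x + n → ((z, y) : Vert) ∈ S) :
    Conn allOpen S (x, y) (x + n, y) := by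
  induction n with
  | zero => simpa using Conn.refl (h x le_rfl (by simp))
  | succ n ih =>
    have h1 := ih fun z hz hz' => h z hz (by push_cast; omega)
    refine h1.tail ⟨h1.mem_right, h _ (by push_cast; omega) (by push_cast; omega),
      (x + n, y, false), Or.inl ⟨rfl, ?_⟩, rfl⟩
    simp [tgt, add_assoc]

/-- Vertical segments. -/
private lemma sym_seg_y {S : Set Vert} (x y : ℤ) (n : ℕ)
    (h : ∀ z : ℤ, y ≤ z → z ≤ y + n → ((x, z) : Vert) ∈ S) :
    Conn allOpen S (x, y) (x, y + n) := by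
  induction n with
  | zero => simpa using Conn.refl (h y le_rfl (by simp))
  | succ n ih =>
    have h1 := ih fun z hz hz' => h z hz (by push_cast; omega)
    refine h1.tail ⟨h1.mem_right, h _ (by push_cast; omega) (by push_cast; omega),
      (x, y + n, true), Or.inl ⟨rfl, ?_⟩, rfl⟩
    simp [tgt, add_assoc]

/-- Rectangles are connected. -/
private lemma sym_rect_conn {a b c d : ℤ} {u v : Vert} (hu : u ∈ rect a b c d)
    (hv : v ∈ rect a b c d) : Conn allOpen (rect a b c d) u v := by
  obtain ⟨x, y⟩ := u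
  obtain ⟨x', y'⟩ := v
  have hx : ∀ z z' t : ℤ, a ≤ z → z ≤ b → a ≤ z' → z' ≤ b → c ≤ t → t ≤ d → z ≤ z' →
      Conn allOpen (rect a b c d) (z, t) (z', t) := by
    intro z z' t h1 h2 h3 h4 h5 h6 h7
    obtain ⟨n, hn⟩ := Int.eq_ofNat_of_zero_le (sub_nonneg.2 h7)
    have h8 : z' = z + n := by omega
    subst h8
    exact sym_seg_x z t n fun w hw hw' => ⟨by omega, by omega, h5, h6⟩
  have hy : ∀ z t t' : ℤ, a ≤ z → z ≤ b → c ≤ t → t ≤ d → c ≤ t' → t' ≤ d → t ≤ t' →
      Conn allOpen (rect a b c d) (z, t) (z, t') := by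
    intro z t t' h1 h2 h3 h4 h5 h6 h7
    obtain ⟨n, hn⟩ := Int.eq_ofNat_of_zero_le (sub_nonneg.2 h7)
    have h8 : t' = t + n := by omega
    subst h8
    exact sym_seg_y z t n fun w hw hw' => ⟨h1, h2, by change c ≤ w; omega, by change w ≤ d; omega⟩
  obtain ⟨u1, u2, u3, u4⟩ := hu
  obtain ⟨v1, v2, v3, v4⟩ := hv
  simp only at u1 u2 u3 u4 v1 v2 v3 v4
  have h1 : Conn allOpen (rect a b c d) (x, y) (x', y) := by
    rcases le_total x x' with h | h
    · exact hx x x' y u1 u2 v1 v2 u3 u4 h
    · exact (hx x' x y v1 v2 u1 u2 u3 u4 h).symm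
  have h2 : Conn allOpen (rect a b c d) (x', y) (x', y') := by
    rcases le_total y y' with h | h
    · exact hy x' y y' v1 v2 u3 u4 v3 v4 h
    · exact (hy x' y' y v1 v2 v3 v4 u3 u4 h).symm
  exact h1.trans h2

private lemma sym_T_conn {d : Side} {k : ℕ} {u v : Vert} (hu : u ∈ T d k) (hv : v ∈ T d k) :
    Conn allOpen (T d k) u v := by
  cases d <;> exact sym_rect_conn hu hv

theorem sep_same : Sep s d d k = ∅ := by
  rw [Set.eq_empty_iff_forall_notMem]
  rintro ω ⟨h1, h2, h3, -, -⟩
  obtain ⟨u, hu, hxu⟩ := fence_mem h1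
  obtain ⟨u', hu', hyu⟩ := fence_mem h2
  have hle : ∀ e, s.cut ω e = true → s.ful d d k ω e = true :=
    fun e he => le_fillS he
  have huu : Conn (sit (s.ful d d k ω)) (dom d d k) u u' :=
    conn_fillS (fun a ha => Or.inr ha) ((sym_T_conn hu hu').mono_set fun a ha => Or.inl ha)
  exact h3 ((conn_mono le_rfl hle hxu).trans (huu.trans (conn_mono le_rfl hle hyu).symm))

/-- Sum of the separated probabilities. -/
noncomputable def bS (q : I) (s : Src) (k : ℕ) : ℝ := ∑ d : Side, ∑ d' : Side, Pr q (Sep s d d' k)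

end Pool.Agent.H38.N59

end

section

/-!
# Bad events for sites: two clusters close to the same vertex of the sphere
-/

set_option autoImplicit false

open MeasureTheory ProbabilityTheory unitInterval

namespace Pool.Agent.H38.N59

open Pool.Agent.H89.Perc
open Pool.Agent.H61.NC hiding RSWreg
open Pool.Agent.H83.SK (sv sit sit_true RSWreg)
open Pool.Agent.H59.EX (LocS inE touch clus closeS Side T Mouth Fence dom CorrData CorrSep mem_clus_single clus_conn)
open Pool.Agent.H29.Sep (LocTwo)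

variable {s : Src} {w ρ ρ' : ℕ} {v v' : Vert} {d d' : Side} {Z Zy : Set Vert} {Nev Ny : Set Config}
  {q : I}

theorem cut_sub {ω : Config} {S S' : Set Vert} {a b : Vert} (hS : S ⊆ S')
    (h : Conn (sit (s.cut ω)) S a b) : Conn (sit ω) S' a b :=
  conn_mono hS (fun _ he => cut_le he) h

/-- The bad event of the inner boundary. -/
def BadZ (w t ρ : ℕ) : Set Config :=
  {ω | ∃ z ∈ sphere 0 (8 * w), sit ω ∈ LocTwo (ball 0 (8 * w)) z t ρ}

end Pool.Agent.H38.N59

end

section

/-!
# Outward separation for sites: stage 3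
-/

set_option autoImplicit false

open MeasureTheory ProbabilityTheory unitInterval

namespace Pool.Agent.H38.N59

open Pool.Agent.H89.Perc
open Pool.Agent.H83.SK (sv sit sit_true RSWreg)
open Pool.Agent.H59.EX (LocS inE touch clus closeS Side T Mouth Fence dom CorrData CorrSep mem_clus_single corr_inter corr_sub160 markov_incr clus_sub)

end Pool.Agent.H38.N59

end

section

/-!
# Outward separation for sites: stage 1
-/

set_option autoImplicit false

open MeasureTheory ProbabilityTheory unitInterval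

namespace Pool.Agent.H38.N59

open Pool.Agent.H89.Perc
open Pool.Agent.H83.SK (sv sit sit_true RSWreg)
open Pool.Agent.H59.EX (LocS inE touch clus closeS Side T Mouth Fence dom CorrData CorrSep mem_clus_single corr_inter corr_sub160 markov_incr)

end Pool.Agent.H38.N59

end
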