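import Mathlib

/-! The parts of this file: H89.Perc.Defs, H89.Perc.Path, H89.Perc.Z2, H89.Perc.Cross, H89.Perc.Sep. -/

section

/-!
# Bond percolation on the square lattice: basic definitions

Vertices are `ℤ × ℤ`.  The edge `(x, y, false)` joins `(x, y)` and `(x + 1, y)`, the edge
`(x, y, true)` joins `(x, y)` and `(x, y + 1)`.  A configuration is a function `Edge → Bool`
(`true` means open).  The dual vertex `(x, y)` is the unit square with lower left corner `(x, y)`,
and `dual ω` is the dual configuration, in which a dual edge is open if and only if the primal edge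
which it crosses is closed.
-/

open MeasureTheory ProbabilityTheory unitInterval

namespace Pool.Agent.H89.Perc

/-- Vertices of the square lattice. -/
abbrev Vert := ℤ × ℤ

/-- Edges of the square lattice. -/
abbrev Edge := ℤ × ℤ × Bool

/-- Configurations. -/
abbrev Config := Edge → Bool

/-- First endpoint. -/
def src (e : Edge) : Vert := (e.1, e.2.1)

/-- Second endpoint. -/
def tgt (e : Edge) : Vert := if e.2.2 then (e.1, e.2.1 + 1) else (e.1 + 1, e.2.1)

/-- The edge `e` joins `u` and `v`. -/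
def Joins (e : Edge) (u v : Vert) : Prop := (u = src e ∧ v = tgt e) ∨ (u = tgt e ∧ v = src e)

/-- One step along an open edge inside the vertex set `S`. -/
def Step (ω : Config) (S : Set Vert) (u v : Vert) : Prop :=
  u ∈ S ∧ v ∈ S ∧ ∃ e, Joins e u v ∧ ω e = true

/-- `u` and `v` are joined by an open path inside `S`. -/
def Conn (ω : Config) (S : Set Vert) (u v : Vert) : Prop :=
  u ∈ S ∧ Relation.ReflTransGen (Step ω S) u v

/-- The primal edge crossed by the dual edge `e`. -/
def crossed (e : Edge) : Edge := if e.2.2 then (e.1, e.2.1 + 1, false) else (e.1 + 1, e.2.1, true)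

/-- The dual configuration. -/
def dual (ω : Config) : Config := fun e => !ω (crossed e)

/-- The configuration with all edges open. -/
def allOpen : Config := fun _ => true

/-- The rectangle `[a, b] × [c, d]`. -/
def rect (a b c d : ℤ) : Set Vert := {v | a ≤ v.1 ∧ v.1 ≤ b ∧ c ≤ v.2 ∧ v.2 ≤ d}

/-- Open crossing of `[a, b] × [c, d]` from left to right. -/
def HCross (ω : Config) (a b c d : ℤ) : Prop :=
  ∃ u v : Vert, u.1 = a ∧ v.1 = b ∧ Conn ω (rect a b c d) u v

/-- Open crossing of `[a, b] × [c, d]` from bottom to top. -/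
def VCross (ω : Config) (a b c d : ℤ) : Prop :=
  ∃ u v : Vert, u.2 = c ∧ v.2 = d ∧ Conn ω (rect a b c d) u v

/-- The square `[-r, r]²` around `v`. -/
def ball (v : Vert) (r : ℕ) : Set Vert := rect (v.1 - r) (v.1 + r) (v.2 - r) (v.2 + r)

/-- The boundary of `ball v r`. -/
def sphere (v : Vert) (r : ℕ) : Set Vert :=
  {u | u ∈ ball v r ∧ (u.1 = v.1 - r ∨ u.1 = v.1 + r ∨ u.2 = v.2 - r ∨ u.2 = v.2 + r)}

/-- One-arm event: `v` is joined to `sphere v r` inside `ball v r`. -/
def Arm (v : Vert) (r : ℕ) : Set Config := {ω | ∃ u ∈ sphere v r, Conn ω (ball v r) v u}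

/-- The product measure with density `p` of open edges. -/
noncomputable def μ (p : I) : Measure Config :=
  Measure.infinitePi (fun _ : Edge => bernoulliMeasure true false p)

/-- The probability of `A` at density `p`. -/
noncomputable def Pr (p : I) (A : Set Config) : ℝ := (μ p).real A

/-- The event `A` depends only on the edges of the finite set `s`. -/
def LocalOn (s : Finset Edge) (A : Set Config) : Prop :=
  ∀ ω ω' : Config, (∀ e ∈ s, ω e = ω' e) → ω ∈ A → ω' ∈ A

/-- Increasing event. -/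
def Incr (A : Set Config) : Prop :=
  ∀ ω ω' : Config, (∀ e, ω e = true → ω' e = true) → ω ∈ A → ω' ∈ A

/-- One-arm probability at the origin. -/
noncomputable def arm (p : I) (r : ℕ) : ℝ := Pr p (Arm 0 r)

/-- The critical density `1/2` as an element of the unit interval. -/
noncomputable def half : I := ⟨1 / 2, by norm_num, by norm_num⟩

end Pool.Agent.H89.Perc

end

section

/-!
# Basic lemmas on open paths
-/

open MeasureTheory ProbabilityTheory unitInterval

namespace Pool.Agent.H89.Perc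

variable {ω ω' : Config} {S T : Set Vert} {u v w : Vert} {e : Edge}

lemma Joins.symm (h : Joins e u v) : Joins e v u := by
  rcases h with ⟨h1, h2⟩ | ⟨h1, h2⟩
  · exact Or.inr ⟨h2, h1⟩
  · exact Or.inl ⟨h2, h1⟩

lemma joins_src_tgt (e : Edge) : Joins e (src e) (tgt e) := Or.inl ⟨rfl, rfl⟩

lemma Step.symm (h : Step ω S u v) : Step ω S v u := by
  obtain ⟨h1, h2, e, h3, h4⟩ := h
  exact ⟨h2, h1, e, h3.symm, h4⟩

lemma Step.mono (hST : S ⊆ T) (hω : ∀ e, ω e = true → ω' e = true) (h : Step ω S u v) :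
    Step ω' T u v := by
  obtain ⟨h1, h2, e, h3, h4⟩ := h
  exact ⟨hST h1, hST h2, e, h3, hω e h4⟩

lemma Conn.refl (h : u ∈ S) : Conn ω S u u := ⟨h, Relation.ReflTransGen.refl⟩

lemma Conn.mem_left (h : Conn ω S u v) : u ∈ S := h.1

lemma Conn.mem_right (h : Conn ω S u v) : v ∈ S := by
  obtain ⟨h1, h2⟩ := h
  induction h2 with
  | refl => exact h1
  | tail _ h _ => exact h.2.1

lemma Step.conn (h : Step ω S u v) : Conn ω S u v :=
  ⟨h.1, Relation.ReflTransGen.single h⟩

lemma Conn.trans (h1 : Conn ω S u v) (h2 : Conn ω S v w) : Conn ω S u w :=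
  ⟨h1.1, h1.2.trans h2.2⟩

lemma Conn.tail (h1 : Conn ω S u v) (h2 : Step ω S v w) : Conn ω S u w := h1.trans h2.conn

lemma Conn.symm (h : Conn ω S u v) : Conn ω S v u := by
  refine ⟨h.mem_right, ?_⟩
  have := h.2
  clear h
  induction this with
  | refl => exact Relation.ReflTransGen.refl
  | tail _ h ih => exact (Relation.ReflTransGen.single h.symm).trans ih

lemma Conn.mono (hST : S ⊆ T) (hω : ∀ e, ω e = true → ω' e = true) (h : Conn ω S u v) :
    Conn ω' T u v :=
  ⟨hST h.1, Relation.ReflTransGen.mono (fun _ _ h' => Step.mono hST hω h') _ _ h.2⟩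

lemma Conn.mono_set (hST : S ⊆ T) (h : Conn ω S u v) : Conn ω T u v := h.mono hST fun _ => id

/-- `Conn ω S` only depends on the edges inside `S`. -/
lemma Conn.congr (h : ∀ e, src e ∈ S → tgt e ∈ S → ω e = ω' e) (hc : Conn ω S u v) :
    Conn ω' S u v := by
  refine ⟨hc.1, Relation.ReflTransGen.mono ?_ _ _ hc.2⟩
  rintro a b ⟨ha, hb, e, he, ho⟩
  refine ⟨ha, hb, e, he, ?_⟩
  rcases he with ⟨h1, h2⟩ | ⟨h1, h2⟩
  · rw [← h e (h1 ▸ ha) (h2 ▸ hb)]; exact ho
  · rw [← h e (h2 ▸ hb) (h1 ▸ ha)]; exact ho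

/-- Induction along a path, with all vertices in `S`. -/
lemma Conn.induction_right {P : Vert → Prop} (h : Conn ω S u v) (h0 : P u)
    (hs : ∀ a b, Conn ω S u a → Step ω S a b → P a → P b) : P v := by
  obtain ⟨h1, h2⟩ := h
  induction h2 with
  | refl => exact h0
  | @tail b c hab hbc ih => exact hs b c ⟨h1, hab⟩ hbc ih

/-- First exit from `T`. -/
lemma Conn.exists_exit (h : Conn ω S u v) (hu : u ∈ T) (hv : v ∉ T) :
    ∃ w w', Conn ω (S ∩ T) u w ∧ Step ω S w w' ∧ w' ∉ T ∧ Conn ω S w' v := by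
  obtain ⟨h1, h2⟩ := h
  induction h2 using Relation.ReflTransGen.head_induction_on with
  | refl => exact absurd hu hv
  | @head a c hac hcv ih =>
    by_cases hc : c ∈ T
    · obtain ⟨w, w', h3, h4, h5, h6⟩ := ih hc hac.2.1
      refine ⟨w, w', ?_, h4, h5, h6⟩
      have : Step ω (S ∩ T) a c := ⟨⟨hac.1, hu⟩, ⟨hac.2.1, hc⟩, hac.2.2⟩
      exact this.conn.trans h3
    · exact ⟨a, c, Conn.refl ⟨h1, hu⟩, hac, hc, ⟨hac.2.1, hcv⟩⟩

/-- Last visit of `T`. -/
lemma Conn.exists_last (h : Conn ω S u v) (hu : u ∈ T) (hv : v ∉ T) :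
    ∃ w w', w ∈ T ∧ Conn ω S u w ∧ Step ω S w w' ∧ Conn ω (S \ T) w' v := by
  obtain ⟨w, w', h1, h2, h3, h4⟩ :=
    h.symm.exists_exit (T := Tᶜ) (by simpa using hv) (by simpa using hu)
  refine ⟨w', w, by simpa using h3, h4.symm, h2.symm, ?_⟩
  have := h1.symm
  rwa [← Set.sdiff_eq] at this

/-- First hitting of `T`, when the path does not start in `T`. -/
lemma Conn.exists_hit (h : Conn ω S u v) (hu : u ∉ T) (hv : v ∈ T) :
    ∃ w w', Conn ω (S \ T) u w ∧ Step ω S w w' ∧ w' ∈ T ∧ Conn ω S w' v := by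
  obtain ⟨w, w', h1, h2, h3, h4⟩ :=
    h.exists_exit (T := Tᶜ) (by simpa using hu) (by simpa using hv)
  exact ⟨w, w', by rwa [Set.sdiff_eq], h2, by simpa using h3, h4⟩

lemma Step.fst_le (h : Step ω S u v) : v.1 ≤ u.1 + 1 ∧ u.1 ≤ v.1 + 1 := by
  obtain ⟨_, _, e, he, _⟩ := h
  rcases he with ⟨h1, h2⟩ | ⟨h1, h2⟩ <;>
  · subst h1 h2
    rcases he' : e.2.2 <;> simp [src, tgt, he']
    all_goals try omega

/-- A step changes exactly one coordinate by one. -/
lemma Step.cases (h : Step ω S u v) :
    (u.1 = v.1 ∧ (v.2 = u.2 + 1 ∨ u.2 = v.2 + 1)) ∨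
      (u.2 = v.2 ∧ (v.1 = u.1 + 1 ∨ u.1 = v.1 + 1)) := by
  obtain ⟨_, _, e, he, _⟩ := h
  rcases he with ⟨h1, h2⟩ | ⟨h1, h2⟩ <;>
  · subst h1 h2
    rcases he' : e.2.2 <;> simp [src, tgt, he']

/-- Extraction of a horizontal crossing of the strip `a ≤ x ≤ b`. -/
lemma Conn.cross_x {a b : ℤ} (h : Conn ω S u v) (hu : u.1 ≤ a) (hv : b ≤ v.1) (hab : a ≤ b) :
    ∃ u' v' : Vert, u'.1 = a ∧ v'.1 = b ∧ Conn ω (S ∩ {w | a ≤ w.1 ∧ w.1 ≤ b}) u' v' ∧
      Conn ω S u u' ∧ Conn ω S v' v := by
  -- first hitting of `x ≥ b`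
  have h1 : ∃ v' : Vert, v'.1 = b ∧ Conn ω (S ∩ {w | w.1 ≤ b}) u v' ∧ Conn ω S v' v := by
    by_cases hub : u.1 = b
    · exact ⟨u, hub, Conn.refl ⟨h.mem_left, by simp [hub]⟩, h⟩
    have hub' : u.1 < b := lt_of_le_of_ne (hu.trans hab) hub
    obtain ⟨w, w', h1, h2, h3, h4⟩ := h.exists_hit (T := {w | b ≤ w.1}) (by simpa using hub')
      (by simpa using hv)
    have h5 := h1.mem_right.2
    simp only [Set.mem_ofPred_eq, not_le] at h3 h5
    have h6 := h2.fst_le
    have h7 : w'.1 = b := by omega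
    refine ⟨w', h7, ?_, h4⟩
    have h8 : Conn ω (S ∩ {w | w.1 ≤ b}) u w :=
      h1.mono_set fun x hx => ⟨hx.1, by have := hx.2; simp only [Set.mem_ofPred_eq, not_le] at this ⊢; omega⟩
    exact h8.tail ⟨h8.mem_right, ⟨h2.2.1, by simp [h7]⟩, h2.2.2⟩
  obtain ⟨v', hv', hc, hv'v⟩ := h1
  -- last visit of `x ≤ a`
  by_cases hab' : a = b
  · subst hab'
    exact ⟨v', v', hv', hv', Conn.refl ⟨hc.mem_right.1, by simp [hv']⟩,
      hc.mono_set (fun x hx => hx.1), hv'v⟩
  have hlt : a < b := lt_of_le_of_ne hab hab'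
  obtain ⟨w, w', h1, h2, h3, h4⟩ := hc.exists_last (T := {w | w.1 ≤ a}) (by simpa using hu)
    (by simp [hv']; omega)
  have h5 := h4.mem_left.2
  simp only [Set.mem_ofPred_eq, not_le] at h1 h5
  have h6 := h3.fst_le
  have h7 : w.1 = a := by omega
  refine ⟨w, v', h7, hv', ?_, h2.mono_set (fun x hx => hx.1), hv'v⟩
  have h8 : Conn ω (S ∩ {w | a ≤ w.1 ∧ w.1 ≤ b}) w' v' :=
    h4.mono_set fun x hx => ⟨hx.1.1, by
      have := hx.2; have h9 := hx.1.2
      simp only [Set.mem_ofPred_eq, not_le] at this h9 ⊢; omega⟩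
  have h9 : Step ω (S ∩ {w | a ≤ w.1 ∧ w.1 ≤ b}) w w' :=
    ⟨⟨h3.1.1, by simp only [Set.mem_ofPred_eq]; omega⟩, h8.mem_left, h3.2.2⟩
  exact h9.conn.trans h8

lemma mem_ball {r : ℕ} : u ∈ ball v r ↔
    v.1 - r ≤ u.1 ∧ u.1 ≤ v.1 + r ∧ v.2 - r ≤ u.2 ∧ u.2 ≤ v.2 + r := Iff.rfl

end Pool.Agent.H89.Perc

end

section

/-!
# Parity arguments in the plane

Edge functions with values in `ZMod 2`. `fsum c F` is the sum around the face `F` (with lower left
corner `F`), `vsum c V` is the sum over the edges at the vertex `V`. On a rectangle, an edge function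
whose face sums vanish is the coboundary of a vertex function (`integRect`); the consequence
`cut_lemma` is the tool behind the duality statements.
-/

namespace Pool.Agent.H89.Perc

variable {ω ω' : Config} {S T : Set Vert} {u v w : Vert} {e : Edge}

lemma z2_add_self (a : ZMod 2) : a + a = 0 := CharTwo.add_self_eq_zero a

lemma z2_add_eq_zero {a b : ZMod 2} : a + b = 0 ↔ a = b := by
  revert a b; decide

/-- The sum around the face `F`. -/
def fsum (c : Edge → ZMod 2) (F : Vert) : ZMod 2 :=
  c (F.1, F.2, false) + c (F.1 + 1, F.2, true) + c (F.1, F.2 + 1, false) + c (F.1, F.2, true)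

/-- The sum over the edges at the vertex `V`. -/
def vsum (c : Edge → ZMod 2) (V : Vert) : ZMod 2 :=
  c (V.1, V.2, false) + c (V.1, V.2, true) + c (V.1 - 1, V.2, false) + c (V.1, V.2 - 1, true)

/-- The dual edge which crosses the edge `e`. -/
def uncross (e : Edge) : Edge := if e.2.2 then (e.1 - 1, e.2.1, false) else (e.1, e.2.1 - 1, true)

lemma crossed_uncross (e : Edge) : crossed (uncross e) = e := by
  obtain ⟨x, y, b⟩ := e
  cases b <;> simp [crossed, uncross]

lemma uncross_crossed (e : Edge) : uncross (crossed e) = e := by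
  obtain ⟨x, y, b⟩ := e
  cases b <;> simp [crossed, uncross]

/-- The face next to `e` which is different from `src e`. -/
def lowFace (e : Edge) : Vert := if e.2.2 then (e.1 - 1, e.2.1) else (e.1, e.2.1 - 1)

lemma src_uncross (e : Edge) : src (uncross e) = lowFace e := by
  obtain ⟨x, y, b⟩ := e
  cases b <;> simp [src, uncross, lowFace]

lemma tgt_uncross (e : Edge) : tgt (uncross e) = src e := by
  obtain ⟨x, y, b⟩ := e
  cases b <;> simp [src, tgt, uncross]

lemma vsum_crossed (c : Edge → ZMod 2) (F : Vert) : vsum (fun e => c (crossed e)) F = fsum c F := by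
  simp only [vsum, fsum, crossed]
  simp
  ring

/-- A dual step through a closed edge. -/
lemma dual_step (h : ω e = false) (h1 : lowFace e ∈ S) (h2 : src e ∈ S) :
    Step (dual ω) S (lowFace e) (src e) := by
  refine ⟨h1, h2, uncross e, Or.inl ⟨(src_uncross e).symm, (tgt_uncross e).symm⟩, ?_⟩
  simp [dual, crossed_uncross, h]

/-- A function which does not change along open edges is constant along open paths. -/
lemma Conn.const {α : Type*} {f : Vert → α} (h : Conn ω S u v)
    (hf : ∀ e, src e ∈ S → tgt e ∈ S → ω e = true → f (src e) = f (tgt e)) : f u = f v := by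
  refine h.induction_right (P := fun x => f u = f x) rfl ?_
  intro a b _ hs ih
  obtain ⟨h1, h2, e, h3, h4⟩ := hs
  rw [ih]
  rcases h3 with ⟨h5, h6⟩ | ⟨h5, h6⟩
  · subst h5 h6
    exact hf e h1 h2 h4
  · subst h5 h6
    exact (hf e h2 h1 h4).symm

lemma const_row {α : Type*} {f : Vert → α} {x₁ x₂ y : ℤ} (hx : x₁ ≤ x₂)
    (h : ∀ x, x₁ ≤ x → x < x₂ → f (x, y) = f (x + 1, y)) : f (x₁, y) = f (x₂, y) := by
  have key : ∀ n : ℕ, x₁ + n ≤ x₂ → f (x₁, y) = f (x₁ + n, y) := by
    intro n
    induction n with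
    | zero => intro _; simp
    | succ n ih =>
      intro hn
      push_cast at hn
      rw [ih (by omega), h (x₁ + n) (by omega) (by omega)]
      congr 2
      push_cast
      ring
  have := key (x₂ - x₁).toNat (by omega)
  rw [this]
  congr 2
  omega

lemma const_col {α : Type*} {f : Vert → α} {x y₁ y₂ : ℤ} (hy : y₁ ≤ y₂)
    (h : ∀ y, y₁ ≤ y → y < y₂ → f (x, y) = f (x, y + 1)) : f (x, y₁) = f (x, y₂) := by
  have key : ∀ n : ℕ, y₁ + n ≤ y₂ → f (x, y₁) = f (x, y₁ + n) := by
    intro n
    induction n with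
    | zero => intro _; simp
    | succ n ih =>
      intro hn
      push_cast at hn
      rw [ih (by omega), h (y₁ + n) (by omega) (by omega)]
      congr 2
      push_cast
      ring
  have := key (y₂ - y₁).toNat (by omega)
  rw [this]
  congr 2
  omega

/-- **Integration on a rectangle.** If the face sums of `κ` vanish on the faces of a rectangle, then
`κ` is the coboundary of a vertex function on the rectangle. -/
theorem integRect {a b c d : ℤ} (κ : Edge → ZMod 2)
    (hf : ∀ F ∈ rect a (b - 1) c (d - 1), fsum κ F = 0) :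
    ∃ W : Vert → ZMod 2, ∀ e : Edge, src e ∈ rect a b c d → tgt e ∈ rect a b c d →
      κ e = W (src e) + W (tgt e) := by
  set W : Vert → ZMod 2 := fun V => ∑ i ∈ Finset.range (V.1 - a).toNat, κ (a + i, c, false) +
    ∑ j ∈ Finset.range (V.2 - c).toNat, κ (V.1, c + j, true) with hW
  have hvert : ∀ x y, c ≤ y → W (x, y + 1) = W (x, y) + κ (x, y, true) := by
    intro x y hy
    have e1 : (y + 1 - c).toNat = (y - c).toNat + 1 := by omega
    simp only [hW]
    have e2 : c + ((y - c).toNat : ℤ) = y := by omega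
    rw [e1, Finset.sum_range_succ, e2, add_assoc]
  have hhor0 : ∀ x, a ≤ x → W (x + 1, c) = W (x, c) + κ (x, c, false) := by
    intro x hx
    have e1 : (x + 1 - a).toNat = (x - a).toNat + 1 := by omega
    simp only [hW]
    rw [e1, Finset.sum_range_succ]
    have e2 : a + ((x - a).toNat : ℤ) = x := by omega
    rw [e2]
    simp
  have hhor : ∀ (n : ℕ) (x : ℤ), a ≤ x → x + 1 ≤ b → c + n ≤ d →
      W (x + 1, c + n) = W (x, c + n) + κ (x, c + n, false) := by
    intro n x hx hxb
    induction n with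
    | zero => intro _; simpa using hhor0 x hx
    | succ n ih =>
      intro hn
      push_cast at hn
      have e1 : (c + ((n + 1 : ℕ) : ℤ)) = (c + (n : ℤ)) + 1 := by push_cast; ring
      rw [e1, hvert _ _ (by omega), hvert _ _ (by omega), ih (by omega)]
      have h1 := hf (x, c + n) ⟨hx, by simp only; omega, by simp only; omega, by simp only; omega⟩
      simp only [fsum] at h1
      have h2 := z2_add_self (κ (x, c + n, true))
      have h3 := z2_add_self (κ (x, c + n + 1, false))
      linear_combination h1 - h2 - h3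
  refine ⟨W, ?_⟩
  rintro ⟨x, y, t⟩ h1 h2
  cases t
  · simp only [src, tgt, rect, Set.mem_ofPred_eq, Bool.false_eq_true, if_false] at h1 h2 ⊢
    have e1 : c + ((y - c).toNat : ℤ) = y := by omega
    have := hhor (y - c).toNat x (by omega) (by omega) (by omega)
    rw [e1] at this
    rw [this, ← add_assoc, z2_add_self, zero_add]
  · simp only [src, tgt, rect, Set.mem_ofPred_eq, if_true] at h1 h2 ⊢
    rw [hvert x y (by omega), ← add_assoc, z2_add_self, zero_add]

/-- **Cut lemma.** Let `χ` be a vertex function and let `T` be a set of faces of a rectangle which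
is closed under crossing edges along which `χ` changes. Then there is a vertex function `W` on the
rectangle which changes exactly along those edges near `T` along which `χ` changes. -/
theorem cut_lemma {a b c d : ℤ} (χ : Vert → ZMod 2) (T : Set Vert)
    (hTs : T ⊆ rect a (b - 1) c (d - 1))
    (hT : ∀ e : Edge, src e ∈ rect a (b - 1) c (d - 1) → lowFace e ∈ rect a (b - 1) c (d - 1) →
      χ (src e) ≠ χ (tgt e) → (src e ∈ T ↔ lowFace e ∈ T)) :
    ∃ W : Vert → ZMod 2, ∀ e : Edge, src e ∈ rect a b c d → tgt e ∈ rect a b c d →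
      ((src e ∈ T ∨ lowFace e ∈ T) → W (src e) + W (tgt e) = χ (src e) + χ (tgt e)) ∧
      (src e ∉ T → lowFace e ∉ T → W (src e) = W (tgt e)) := by
  classical
  set κ : Edge → ZMod 2 := fun e =>
    if src e ∈ T ∨ lowFace e ∈ T then χ (src e) + χ (tgt e) else 0 with hκ
  have hout : ∀ e : Edge, ∀ F ∈ rect a (b - 1) c (d - 1), F ∉ T → (F = src e ∨ F = lowFace e) →
      κ e = 0 := by
    intro e F hF hFT hFe
    simp only [hκ]
    split_ifs with h
    · rw [z2_add_eq_zero]
      by_contra hne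
      rcases hFe with h1 | h1
      · subst h1
        rcases h with h | h
        · exact hFT h
        · exact hFT ((hT e hF (hTs h) hne).2 h)
      · subst h1
        rcases h with h | h
        · exact hFT ((hT e (hTs h) hF hne).1 h)
        · exact hFT h
    · rfl
  have hin : ∀ e : Edge, (src e ∈ T ∨ lowFace e ∈ T) → κ e = χ (src e) + χ (tgt e) := by
    intro e h
    simp only [hκ, if_pos h]
  obtain ⟨W, hW⟩ := integRect (a := a) (b := b) (c := c) (d := d) κ (by
    intro F hF
    have s1 : F = src (F.1, F.2, false) := rfl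
    have s2 : F = lowFace (F.1 + 1, F.2, true) := by simp [lowFace]
    have s3 : F = lowFace (F.1, F.2 + 1, false) := by simp [lowFace]
    have s4 : F = src (F.1, F.2, true) := rfl
    by_cases hFT : F ∈ T
    · unfold fsum
      rw [hin _ (Or.inl (s1 ▸ hFT)), hin _ (Or.inr (s2 ▸ hFT)), hin _ (Or.inr (s3 ▸ hFT)),
        hin _ (Or.inl (s4 ▸ hFT))]
      simp only [src, tgt, if_true, Bool.false_eq_true, if_false]
      linear_combination z2_add_self (χ (F.1, F.2)) + z2_add_self (χ (F.1 + 1, F.2)) +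
        z2_add_self (χ (F.1, F.2 + 1)) + z2_add_self (χ (F.1 + 1, F.2 + 1))
    · unfold fsum
      rw [hout _ F hF hFT (Or.inl s1), hout _ F hF hFT (Or.inr s2), hout _ F hF hFT (Or.inr s3),
        hout _ F hF hFT (Or.inl s4)]
      simp)
  refine ⟨W, fun e h1 h2 => ⟨fun h => ?_, fun h3 h4 => ?_⟩⟩
  · rw [← hW e h1 h2, hin e h]
  · have : κ e = 0 := by
      simp only [hκ]
      rw [if_neg (by tauto)]
    rw [← z2_add_eq_zero, ← hW e h1 h2, this]

/-! ### Chains of paths -/

/-- The indicator of an edge. -/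
def one (e : Edge) : Edge → ZMod 2 := fun e' => if e' = e then 1 else 0

lemma vsum_add (c c' : Edge → ZMod 2) (F : Vert) :
    vsum (fun e => c e + c' e) F = vsum c F + vsum c' F := by
  unfold vsum
  ring

lemma vsum_one (e : Edge) (V : Vert) :
    vsum (one e) V = (if V = src e then 1 else 0) + (if V = tgt e then 1 else 0) := by
  obtain ⟨x, y, b⟩ := e
  obtain ⟨a, d⟩ := V
  cases b
  · simp only [vsum, one, src, tgt, Prod.mk.injEq, Bool.false_eq_true, and_false, if_false,
      and_true, Bool.true_eq_false]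
    have h1 : (a - 1 = x ∧ d = y) ↔ (a = x + 1 ∧ d = y) := by
      constructor <;> rintro ⟨h, h'⟩ <;> exact ⟨by omega, h'⟩
    simp only [h1]
    ring
  · simp only [vsum, one, src, tgt, Prod.mk.injEq, Bool.false_eq_true, and_false, if_false,
      and_true, if_true]
    have h1 : (a = x ∧ d - 1 = y) ↔ (a = x ∧ d = y + 1) := by
      constructor <;> rintro ⟨h, h'⟩ <;> exact ⟨h, by omega⟩
    simp only [h1]
    ring

/-- A path gives a chain of edges whose odd vertices are its two endpoints. -/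
theorem Conn.chain (h : Conn ω S u v) :
    ∃ z : Edge → ZMod 2, (∀ e, z e ≠ 0 → ω e = true ∧ src e ∈ S ∧ tgt e ∈ S) ∧
      ∀ V, vsum z V = (if V = u then 1 else 0) + (if V = v then 1 else 0) := by
  refine h.induction_right (P := fun x => ∃ z : Edge → ZMod 2,
    (∀ e, z e ≠ 0 → ω e = true ∧ src e ∈ S ∧ tgt e ∈ S) ∧
      ∀ V, vsum z V = (if V = u then 1 else 0) + (if V = x then 1 else 0)) ?_ ?_
  · refine ⟨fun _ => 0, by simp, fun V => ?_⟩
    rw [z2_add_self]
    simp [vsum]
  · rintro a b _ ⟨h1, h2, e, h3, h4⟩ ⟨z, hz1, hz2⟩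
    refine ⟨fun e' => z e' + one e e', ?_, ?_⟩
    · intro e' he'
      by_cases hee : e' = e
      · subst hee
        rcases h3 with ⟨h5, h6⟩ | ⟨h5, h6⟩
        · subst h5 h6; exact ⟨h4, h1, h2⟩
        · subst h5 h6; exact ⟨h4, h2, h1⟩
      · apply hz1
        intro h0
        apply he'
        simp only [one]
        rw [h0, if_neg hee, add_zero]
    · intro V
      rw [vsum_add, hz2, vsum_one]
      have hz : (if V = a then (1 : ZMod 2) else 0) + (if V = a then 1 else 0) = 0 :=
        z2_add_self _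
      rcases h3 with ⟨h5, h6⟩ | ⟨h5, h6⟩
      · rw [← h5, ← h6]; linear_combination hz
      · rw [← h5, ← h6]; linear_combination hz

/-- A dual path gives a chain of closed edges whose odd faces are its two endpoints. -/
theorem Conn.dual_chain (h : Conn (dual ω) S u v) :
    ∃ D : Edge → ZMod 2, (∀ e, D e ≠ 0 → ω e = false ∧ lowFace e ∈ S ∧ src e ∈ S) ∧
      ∀ F, fsum D F = (if F = u then 1 else 0) + (if F = v then 1 else 0) := by
  obtain ⟨z, hz1, hz2⟩ := h.chain
  refine ⟨fun e => z (uncross e), ?_, ?_⟩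
  · intro e he
    obtain ⟨h1, h2, h3⟩ := hz1 _ he
    rw [src_uncross] at h2
    rw [tgt_uncross] at h3
    refine ⟨?_, h2, h3⟩
    simpa [dual, crossed_uncross] using h1
  · intro F
    rw [← vsum_crossed]
    simp only [uncross_crossed]
    exact hz2 F

/-! ### Reflection in the diagonal -/

/-- The reflected configuration. -/
def sw (ω : Config) : Config := fun e => ω (e.2.1, e.1, !e.2.2)

lemma Step.sw (h : Step ω S u v) : Step (sw ω) {w | (w.2, w.1) ∈ S} (u.2, u.1) (v.2, v.1) := by
  obtain ⟨h1, h2, e, h3, h4⟩ := h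
  refine ⟨h1, h2, (e.2.1, e.1, !e.2.2), ?_, ?_⟩
  · obtain ⟨x, y, b⟩ := e
    rcases h3 with ⟨h5, h6⟩ | ⟨h5, h6⟩ <;> subst h5 h6 <;> cases b <;> simp [Joins, src, tgt]
  · simpa [Perc.sw] using h4

lemma Conn.sw (h : Conn ω S u v) : Conn (sw ω) {w | (w.2, w.1) ∈ S} (u.2, u.1) (v.2, v.1) := by
  refine h.induction_right (P := fun x => Conn (Perc.sw ω) {w | (w.2, w.1) ∈ S} (u.2, u.1)
    (x.2, x.1)) (Conn.refl h.mem_left) ?_
  intro a b _ hs ih
  exact ih.tail hs.sw

lemma sw_dual (ω : Config) : sw (dual ω) = dual (sw ω) := by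
  funext ⟨x, y, b⟩
  cases b <;> simp [sw, dual, crossed]

lemma HCross.sw {a b c d : ℤ} (h : HCross ω a b c d) : VCross (sw ω) c d a b := by
  obtain ⟨u, v, h1, h2, h3⟩ := h
  refine ⟨(u.2, u.1), (v.2, v.1), h1, h2, h3.sw.mono_set ?_⟩
  rintro w ⟨k1, k2, k3, k4⟩
  exact ⟨k3, k4, k1, k2⟩

lemma VCross.sw {a b c d : ℤ} (h : VCross ω a b c d) : HCross (sw ω) c d a b := by
  obtain ⟨u, v, h1, h2, h3⟩ := h
  refine ⟨(u.2, u.1), (v.2, v.1), h1, h2, h3.sw.mono_set ?_⟩
  rintro w ⟨k1, k2, k3, k4⟩
  exact ⟨k3, k4, k1, k2⟩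

end Pool.Agent.H89.Perc

end

section

/-!
# Topology, part 1: a left-right path and a bottom-top path of a rectangle meet
-/

namespace Pool.Agent.H89.Perc

/-- An open left-right crossing and a dual bottom-top crossing cannot coexist. -/
theorem not_hcross_and_dual_vcross {ω : Config} {a b c d : ℤ} (hab : a < b)
    (h : HCross ω a b c d) : ¬ VCross (dual ω) a (b - 1) (c - 1) d := by
  rintro ⟨φ, ψ, hφ, hψ, hd⟩
  obtain ⟨u, v, hu, hv, hc⟩ := h
  obtain ⟨D, hD1, hD2⟩ := hd.dual_chain
  have hφm := hd.mem_left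
  have hψm := hd.mem_right
  have hum := hc.mem_left
  have hvm := hc.mem_right
  simp only [rect, Set.mem_ofPred_eq] at hφm hψm hum hvm
  -- close up the dual path by vertical rays
  set D' : Edge → ZMod 2 := fun e => D e +
    (if e.2.2 = false ∧ e.1 = φ.1 ∧ e.2.1 ≤ φ.2 then 1 else 0) +
    (if e.2.2 = false ∧ e.1 = ψ.1 ∧ ψ.2 < e.2.1 then 1 else 0) with hD'
  have hface : ∀ F, fsum D' F = 0 := by
    rintro ⟨x, y⟩
    have h1 := hD2 (x, y)
    simp only [fsum] at h1
    simp only [fsum, hD', true_and, Bool.true_eq_false, false_and, if_false, add_zero]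
    have e1 : ((if x = φ.1 ∧ y ≤ φ.2 then (1 : ZMod 2) else 0) +
        (if x = φ.1 ∧ y + 1 ≤ φ.2 then 1 else 0)) = if (x, y) = φ then 1 else 0 := by
      have h2 : ((x, y) = φ) ↔ (x = φ.1 ∧ y = φ.2) := by
        rw [Prod.ext_iff]
      simp only [h2]
      by_cases k1 : x = φ.1
      · rcases lt_trichotomy y φ.2 with k2 | k2 | k2
        · rw [if_pos ⟨k1, by omega⟩, if_pos ⟨k1, by omega⟩, if_neg (by omega)]
          exact z2_add_self 1
        · rw [if_pos ⟨k1, by omega⟩, if_neg (by omega), if_pos ⟨k1, k2⟩, add_zero]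
        · rw [if_neg (by omega), if_neg (by omega), if_neg (by omega), add_zero]
      · rw [if_neg (by tauto), if_neg (by tauto), if_neg (by tauto), add_zero]
    have e2 : ((if x = ψ.1 ∧ ψ.2 < y then (1 : ZMod 2) else 0) +
        (if x = ψ.1 ∧ ψ.2 < y + 1 then 1 else 0)) = if (x, y) = ψ then 1 else 0 := by
      have h2 : ((x, y) = ψ) ↔ (x = ψ.1 ∧ y = ψ.2) := by
        rw [Prod.ext_iff]
      simp only [h2]
      by_cases k1 : x = ψ.1
      · rcases lt_trichotomy y ψ.2 with k2 | k2 | k2
        · rw [if_neg (by omega), if_neg (by omega), if_neg (by omega), add_zero]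
        · rw [if_neg (by omega), if_pos ⟨k1, by omega⟩, if_pos ⟨k1, k2⟩, zero_add]
        · rw [if_pos ⟨k1, by omega⟩, if_pos ⟨k1, by omega⟩, if_neg (by omega)]
          exact z2_add_self 1
      · rw [if_neg (by tauto), if_neg (by tauto), if_neg (by tauto), add_zero]
    linear_combination h1 + e1 + e2 + z2_add_self (if (x, y) = φ then (1 : ZMod 2) else 0) +
      z2_add_self (if (x, y) = ψ then (1 : ZMod 2) else 0)
  obtain ⟨W, hW⟩ := integRect (a := a) (b := b) (c := c - 1) (d := d) D' (fun F _ => hface F)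
  -- the potential on the four sides
  have hcol : ∀ x, (x = a ∨ x = b) → ∀ y, c - 1 ≤ y → y ≤ d → W (x, c - 1) = W (x, y) := by
    intro x hx y hy1 hy2
    refine const_col hy1 fun y' h1 h2 => ?_
    have h3 := hW (x, y', true)
    simp only [src, tgt, if_true, rect, Set.mem_ofPred_eq] at h3
    have h4 := h3 ⟨by omega, by omega, by omega, by omega⟩ ⟨by omega, by omega, by omega, by omega⟩
    rw [← z2_add_eq_zero, ← h4]
    have h5 : D (x, y', true) = 0 := by
      by_contra hne
      obtain ⟨_, h6, h7⟩ := hD1 _ hne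
      simp only [lowFace, src, rect, Set.mem_ofPred_eq, if_true] at h6 h7
      omega
    simp [hD', h5]
  have hbot : W (a, c - 1) + W (b, c - 1) = 1 := by
    have hrow : ∀ x, a ≤ x → x < b →
        W (x, c - 1) + W (x + 1, c - 1) = if x = φ.1 then 1 else 0 := by
      intro x h1 h2
      have h3 := hW (x, c - 1, false)
      simp only [src, tgt, Bool.false_eq_true, if_false, rect, Set.mem_ofPred_eq] at h3
      have h4 := h3 ⟨by omega, by omega, by omega, by omega⟩
        ⟨by omega, by omega, by omega, by omega⟩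
      rw [← h4]
      have h5 : D (x, c - 1, false) = 0 := by
        by_contra hne
        obtain ⟨_, h6, h7⟩ := hD1 _ hne
        simp only [lowFace, src, rect, Set.mem_ofPred_eq, Bool.false_eq_true, if_false] at h6 h7
        omega
      have h6 : ¬ (x = ψ.1 ∧ ψ.2 < c - 1) := by omega
      have h7 : (x = φ.1 ∧ c - 1 ≤ φ.2) ↔ x = φ.1 := by
        constructor
        · exact fun h => h.1
        · exact fun h => ⟨h, by omega⟩
      simp only [hD', h5, true_and, h6, if_false, h7]
      simp
    have h1 : W (a, c - 1) = W (φ.1, c - 1) := by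
      refine const_row hφm.1 fun x h1 h2 => ?_
      rw [← z2_add_eq_zero, hrow x h1 (by omega), if_neg (by omega)]
    have h2 : W (φ.1 + 1, c - 1) = W (b, c - 1) := by
      refine const_row (by omega) fun x h1 h2 => ?_
      rw [← z2_add_eq_zero, hrow x (by omega) (by omega), if_neg (by omega)]
    rw [h1, ← h2, hrow φ.1 (by omega) (by omega), if_pos rfl]
  -- the potential is constant along the open crossing
  have hpath : W u = W v := by
    refine hc.const ?_
    intro e h1 h2 h3
    have h4 := hW e ⟨h1.1, h1.2.1, by have := h1.2.2.1; omega, h1.2.2.2⟩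
      ⟨h2.1, h2.2.1, by have := h2.2.2.1; omega, h2.2.2.2⟩
    rw [← z2_add_eq_zero, ← h4]
    have h5 : D e = 0 := by
      by_contra hne
      rw [(hD1 _ hne).1] at h3
      exact absurd h3 (by decide)
    have h6 : ¬ (e.2.2 = false ∧ e.1 = φ.1 ∧ e.2.1 ≤ φ.2) := by
      rintro ⟨_, _, h7⟩
      have := h1.2.2.1
      simp only [src] at this
      omega
    have h7 : ¬ (e.2.2 = false ∧ e.1 = ψ.1 ∧ ψ.2 < e.2.1) := by
      rintro ⟨_, _, h7⟩
      have := h1.2.2.2
      simp only [src] at this
      omega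
    simp only [hD', h5, if_neg h6, if_neg h7]
    simp
  have h1 : W (a, c - 1) = W u := by
    rw [hcol a (Or.inl rfl) u.2 (by omega) (by omega), ← hu]
  have h2 : W (b, c - 1) = W v := by
    rw [hcol b (Or.inr rfl) v.2 (by omega) (by omega), ← hv]
  rw [h1, h2, hpath, z2_add_self] at hbot
  exact absurd hbot (by decide)

/-- An open bottom-top crossing and a dual left-right crossing cannot coexist. -/
theorem not_vcross_and_dual_hcross {ω : Config} {a b c d : ℤ} (hcd : c < d)
    (h : VCross ω a b c d) : ¬ HCross (dual ω) (a - 1) b c (d - 1) := by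
  intro h'
  have h1 := h'.sw
  rw [sw_dual] at h1
  exact not_hcross_and_dual_vcross hcd h.sw h1

end Pool.Agent.H89.Perc

end

section

/-!
# Topology, part 2: the boundary between two complementary connected sets is dual-connected
-/

namespace Pool.Agent.H89.Perc

/-- The configuration in which exactly the edges with exactly one endpoint in `K` are closed. -/
noncomputable def cutConfig (K : Set Vert) : Config :=
  fun e => by classical exact decide (src e ∈ K ↔ tgt e ∈ K)

/-- The two faces (dual vertices) adjacent to an edge. -/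
def IsFace (φ : Vert) (e : Edge) : Prop :=
  φ = src e ∨ φ = (if e.2.2 then (e.1 - 1, e.2.1) else (e.1, e.2.1 - 1))

/-- The component of `v` in `D \ C`. -/
def comp (D C : Set Vert) (v : Vert) : Set Vert := {w | Conn allOpen (D \ C) v w}

end Pool.Agent.H89.Perc

end
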