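import Pool.Agent.H94.BG.H31.PT.M02
import Pool.Agent.H94.BG.M01

/-! The parts of this file: Perc.Bridge, H89.Perc.Prob, H89.Perc.FKG, H89.Perc.Russo, H89.Perc.Symm. -/

section

/-!
# Local events of bond percolation as events of a finite product space
-/

open MeasureTheory ProbabilityTheory unitInterval

namespace Pool.Agent.H89.Perc

open Pool.Agent.Perc (Ex ind ind_of ind_of_not)

end Pool.Agent.H89.Perc

end

section

/-!
# Probability: basic facts about the product measure on configurations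
-/

open MeasureTheory ProbabilityTheory unitInterval

namespace Pool.Agent.H89.Perc

open Pool.Agent.Perc (Ex ind ind_of ind_of_not ind_congr)

variable {s t : Finset Edge} {A B : Set Config} {p q : I}

lemma LocalOn.union (hA : LocalOn s A) (hB : LocalOn s B) : LocalOn s (A ∪ B) :=
  fun ω ω' hω h => h.imp (hA ω ω' hω) (hB ω ω' hω)

lemma Incr.union (hA : Incr A) (hB : Incr B) : Incr (A ∪ B) :=
  fun ω ω' hω h => h.imp (hA ω ω' hω) (hB ω ω' hω)

/-- The influence of an edge as a finite expectation of a discrete derivative. -/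
theorem pivot_eq_Ex (hA : LocalOn s A) {e : Edge} (he : e ∈ s) :
    pivot p A e = Ex (p : ℝ) s (Pool.Agent.Perc.DD e (ind (fun S => ofS S ∈ A))) := by
  rw [pivot, Pr_update_true hA, Pr_update_false hA, Pool.Agent.Perc.Ex_DD he]

lemma localOn_conn {a b c d : ℤ} (u v : Vert) :
    LocalOn (eRect a b c d) {ω | Conn ω (rect a b c d) u v} := by
  intro ω ω' h hc
  exact Conn.congr (fun e he _ => h e (mem_eRect.2 he)) hc

lemma incr_conn (S : Set Vert) (u v : Vert) : Incr {ω | Conn ω S u v} :=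
  fun _ _ h hc => Conn.mono le_rfl h hc

/-- Decreasing in `ω` when increasing in the dual configuration. -/
lemma Incr.dual_compl (hA : Incr A) : Incr {ω | dual ω ∈ A}ᶜ := by
  intro ω ω' h hA' hA''
  refine hA' (hA _ _ (fun e he => ?_) hA'')
  simp only [dual, Bool.not_eq_true'] at he ⊢
  by_contra hc
  rw [Bool.not_eq_false] at hc
  rw [h _ hc] at he
  exact absurd he (by decide)

theorem localOn_arm (v : Vert) (r : ℕ) :
    LocalOn (eRect (v.1 - r) (v.1 + r) (v.2 - r) (v.2 + r)) (Arm v r) := by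
  intro ω ω' h ⟨u, hu, hc⟩
  exact ⟨u, hu, Conn.congr (fun e he _ => h e (mem_eRect.2 he)) hc⟩

theorem incr_arm (v : Vert) (r : ℕ) : Incr (Arm v r) := by
  rintro ω ω' h ⟨u, hu, hc⟩
  exact ⟨u, hu, Conn.mono le_rfl h hc⟩

theorem localOn_armBox (v : Vert) (k r : ℕ) :
    LocalOn (eRect (v.1 - r) (v.1 + r) (v.2 - r) (v.2 + r)) (ArmBox v k r) := by
  intro ω ω' h ⟨w, hw, u, hu, hc⟩
  exact ⟨w, hw, u, hu, Conn.congr (fun e he _ => h e (mem_eRect.2 he)) hc⟩

theorem incr_armBox (v : Vert) (k r : ℕ) : Incr (ArmBox v k r) := by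
  rintro ω ω' h ⟨w, hw, u, hu, hc⟩
  exact ⟨w, hw, u, hu, Conn.mono le_rfl h hc⟩

theorem arm_shift (v : Vert) (r : ℕ) :
    {ω : Config | (fun e => ω (shiftE v e)) ∈ Arm 0 r} = Arm v r := by
  ext ω
  simp only [Arm, Set.mem_ofPred_eq]
  have hb : {w : Vert | (w.1 - v.1, w.2 - v.2) ∈ ball 0 r} = ball v r := by
    ext w
    simp only [Set.mem_ofPred_eq, mem_ball, Prod.fst_zero, Prod.snd_zero]
    omega
  constructor
  · rintro ⟨u, hu, hc⟩
    rw [conn_shift, hb] at hc
    refine ⟨(u.1 + v.1, u.2 + v.2), ⟨hc.mem_right, ?_⟩, by simpa using hc⟩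
    have := hu.2
    simp only [Prod.fst_zero, Prod.snd_zero] at this ⊢
    omega
  · rintro ⟨u, hu, hc⟩
    refine ⟨(u.1 - v.1, u.2 - v.2), ⟨?_, ?_⟩, ?_⟩
    · have := hu.1
      simp only [mem_ball, Prod.fst_zero, Prod.snd_zero] at this ⊢
      omega
    · have := hu.2
      simp only [Prod.fst_zero, Prod.snd_zero] at this ⊢
      omega
    · rw [conn_shift, hb]
      simpa using hc

/-- Translation invariance of one-arm probabilities. -/
theorem Pr_arm (v : Vert) (r : ℕ) : Pr p (Arm v r) = arm p r := by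
  rw [← arm_shift v r, Pr_comp (localOn_arm 0 r) (shiftE_injective v).injOn, arm]

theorem armBox_shift (v : Vert) (k r : ℕ) :
    {ω : Config | (fun e => ω (shiftE v e)) ∈ ArmBox 0 k r} = ArmBox v k r := by
  ext ω
  simp only [ArmBox, Set.mem_ofPred_eq]
  have hb : {w : Vert | (w.1 - v.1, w.2 - v.2) ∈ ball 0 r} = ball v r := by
    ext w
    simp only [Set.mem_ofPred_eq, mem_ball, Prod.fst_zero, Prod.snd_zero]
    omega
  constructor
  · rintro ⟨w, hw, u, hu, hc⟩
    rw [conn_shift, hb] at hc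
    refine ⟨(w.1 + v.1, w.2 + v.2), ?_, (u.1 + v.1, u.2 + v.2), ⟨hc.mem_right, ?_⟩, hc⟩
    · simp only [mem_ball, Prod.fst_zero, Prod.snd_zero] at hw ⊢
      omega
    · have := hu.2
      simp only [Prod.fst_zero, Prod.snd_zero] at this ⊢
      omega
  · rintro ⟨w, hw, u, hu, hc⟩
    refine ⟨(w.1 - v.1, w.2 - v.2), ?_, (u.1 - v.1, u.2 - v.2), ⟨?_, ?_⟩, ?_⟩
    · simp only [mem_ball, Prod.fst_zero, Prod.snd_zero] at hw ⊢
      omega
    · have := hu.1
      simp only [mem_ball, Prod.fst_zero, Prod.snd_zero] at this ⊢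
      omega
    · have := hu.2
      simp only [Prod.fst_zero, Prod.snd_zero] at this ⊢
      omega
    · rw [conn_shift, hb]
      simpa using hc

theorem Pr_armBox (v : Vert) (k r : ℕ) : Pr p (ArmBox v k r) = Pr p (ArmBox 0 k r) := by
  rw [← armBox_shift v k r, Pr_comp (localOn_armBox 0 k r) (shiftE_injective v).injOn]

theorem Pr_dual_arm (v : Vert) (r : ℕ) : Pr p {ω | dual ω ∈ Arm v r} = arm (σ p) r := by
  rw [Pr_dual (localOn_arm v r), Pr_arm]

/-- The one-arm probability is nonincreasing in the radius. -/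
theorem arm_antitone {r r' : ℕ} (h : r ≤ r') : arm p r' ≤ arm p r := by
  refine Pr_mono ?_
  rintro ω ⟨u, hu, hc⟩
  refine hc.mem_arm ?_
  have h0 : ((0 : Vert).1) = 0 := rfl
  have h1 : ((0 : Vert).2) = 0 := rfl
  obtain ⟨hb, hs⟩ := hu
  simp only [mem_ball, h0, h1] at hb hs
  rw [h0, h1]
  rcases abs_cases (u.1 - 0) with h3 | h3 <;> rcases abs_cases (u.2 - 0) with h4 | h4 <;> omega

theorem arm_zero : arm p 0 = 1 := by
  have : Arm 0 0 = Set.univ := by
    refine Set.eq_univ_of_forall fun ω => ⟨0, ⟨self_mem_ball, Or.inl (by simp)⟩,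
      Conn.refl self_mem_ball⟩
  rw [arm, this, Pr_univ]

lemma arm_nonneg {r : ℕ} : 0 ≤ arm p r := Pr_nonneg

lemma arm_le_one {r : ℕ} : arm p r ≤ 1 := Pr_le_one

end Pool.Agent.H89.Perc

end

section

/-!
# Harris (FKG) inequality for local events
-/

open MeasureTheory ProbabilityTheory unitInterval

namespace Pool.Agent.H89.Perc

open Pool.Agent.Perc (Ex ind ind_of ind_of_not ind_congr ind_mul ind_le_ind MonoOnF AntiOnF)

variable {s t : Finset Edge} {A B : Set Config} {p q : I}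

/-- Harris inequality: an increasing and a decreasing local event are negatively correlated. -/
theorem fkg_mixed (hA : LocalOn s A) (hB : LocalOn t B) (iA : Incr A) (iB : Incr Bᶜ) :
    Pr p (A ∩ B) ≤ Pr p A * Pr p B := by
  rw [Pr_inter_eq_Ex hA hB, Pr_eq_Ex (hA.mono (Finset.subset_union_left (s₂ := t))),
    Pr_eq_Ex (hB.mono (Finset.subset_union_right (s₁ := s)))]
  exact Pool.Agent.Perc.harris_mono_anti p.2.1 p.2.2 (iA.monoOnF _) (iB.antiOnF _)

theorem arm_mono_param (r : ℕ) (hpq : p ≤ q) : arm p r ≤ arm q r :=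
  Pr_mono_param (localOn_arm 0 r) (incr_arm 0 r) hpq

end Pool.Agent.H89.Perc

end

section

/-!
# Russo's formula, integrated form of a sharp threshold inequality
-/

open MeasureTheory ProbabilityTheory unitInterval

namespace Pool.Agent.H89.Perc

open Pool.Agent.Perc (Ex ind)

variable {s : Finset Edge} {A : Set Config}

/-- The polynomial `q ↦ P_q(A)` on the whole real line. -/
noncomputable def PrR (s : Finset Edge) (A : Set Config) (q : ℝ) : ℝ :=
  Ex q s (ind (fun S => ofS S ∈ A))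

theorem Pr_eq_PrR (hA : LocalOn s A) (p : I) : Pr p A = PrR s A (p : ℝ) := Pr_eq_Ex hA p

/-- Russo's formula. -/
theorem hasDerivAt_PrR (hA : LocalOn s A) (q : I) :
    HasDerivAt (PrR s A) (∑ e ∈ s, pivot q A e) (q : ℝ) := by
  have h := Pool.Agent.Perc.hasDerivAt_Ex s (ind (fun S => ofS S ∈ A)) (q : ℝ)
  rw [Finset.sum_congr rfl fun e he => pivot_eq_Ex (p := q) hA he]
  exact h

/-- If the variance of the indicator of an increasing local event is bounded by `δ / 2` times the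
sum of its influences (which by Russo's formula is the derivative of the probability) for all
densities between `p₀` and `p₁`, then the probability passes from `p₀` to `p₁` rapidly from
small to large values. -/
theorem threshold (hA : LocalOn s A) (iA : Incr A) {p₀ p₁ : I} (h0 : 0 < (p₀ : ℝ))
    (h01 : p₀ ≤ p₁) (h1 : (p₁ : ℝ) < 1) {δ : ℝ} (hδ : 0 < δ)
    (hvar : ∀ q : I, p₀ ≤ q → q ≤ p₁ →
      Pr q A * (1 - Pr q A) ≤ δ / 2 * ∑ e ∈ s, pivot q A e) :
    Pr p₀ A * (1 - Pr p₁ A) ≤ Real.exp (-2 * ((p₁ : ℝ) - p₀) / δ) := by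
  have h01' : (p₀ : ℝ) ≤ p₁ := h01
  rcases (Pr_nonneg (p := p₀) (A := A)).eq_or_lt with hz | hpos
  · rw [← hz, zero_mul]; exact (Real.exp_pos _).le
  rcases (Pr_le_one (p := p₁) (A := A)).eq_or_lt with hz | hlt
  · rw [hz, sub_self, mul_zero]; exact (Real.exp_pos _).le
  -- on the interval the probability is in `(0, 1)`
  have hbd : ∀ x ∈ Set.Icc (p₀ : ℝ) p₁, 0 < PrR s A x ∧ PrR s A x < 1 := by
    intro x hx
    have hxI : x ∈ I := ⟨p₀.2.1.trans hx.1, hx.2.trans p₁.2.2⟩
    have e1 := Pr_mono_param (p := p₀) (q := ⟨x, hxI⟩) hA iA hx.1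
    have e2 := Pr_mono_param (p := ⟨x, hxI⟩) (q := p₁) hA iA hx.2
    rw [Pr_eq_PrR hA (⟨x, hxI⟩ : I)] at e1 e2
    exact ⟨hpos.trans_le e1, lt_of_le_of_lt e2 hlt⟩
  -- the logit
  set g : ℝ → ℝ := fun x => Real.log (PrR s A x) - Real.log (1 - PrR s A x) - 2 / δ * x with hg
  have hder : ∀ x ∈ Set.Icc (p₀ : ℝ) p₁, ∃ d, HasDerivAt g d x ∧ 0 ≤ d := by
    intro x hx
    have hxI : x ∈ I := ⟨p₀.2.1.trans hx.1, hx.2.trans p₁.2.2⟩
    obtain ⟨b1, b2⟩ := hbd x hx
    have hd := hasDerivAt_PrR hA ⟨x, hxI⟩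
    set D := ∑ e ∈ s, pivot ⟨x, hxI⟩ A e with hD
    have h3 : HasDerivAt (PrR s A) D x := hd
    have h4 := h3.log b1.ne'
    have h5 := (h3.const_sub 1).log (by linarith : (1 : ℝ) - PrR s A x ≠ 0)
    have h6 := ((hasDerivAt_id x).const_mul (2 / δ))
    refine ⟨_, (h4.sub h5).sub h6, ?_⟩
    have hv := hvar ⟨x, hxI⟩ hx.1 hx.2
    rw [Pr_eq_PrR hA] at hv
    have hv' : PrR s A x * (1 - PrR s A x) ≤ δ / 2 * D := hv
    have hpp : 0 < PrR s A x * (1 - PrR s A x) := mul_pos b1 (by linarith)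
    have e1 : D / PrR s A x - -D / (1 - PrR s A x)
        = D / (PrR s A x * (1 - PrR s A x)) := by
      have : (1 : ℝ) - PrR s A x ≠ 0 := by linarith
      field_simp
      ring
    simp only [mul_one]
    rw [e1, sub_nonneg, le_div_iff₀ hpp]
    calc 2 / δ * (PrR s A x * (1 - PrR s A x)) ≤ 2 / δ * (δ / 2 * D) :=
          mul_le_mul_of_nonneg_left hv' (by positivity)
      _ = D := by field_simp
  have hmono : MonotoneOn g (Set.Icc (p₀ : ℝ) p₁) := by
    refine monotoneOn_of_deriv_nonneg (convex_Icc _ _) ?_ ?_ ?_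
    · intro x hx
      obtain ⟨d, hd, _⟩ := hder x hx
      exact hd.continuousAt.continuousWithinAt
    · intro x hx
      rw [interior_Icc] at hx
      obtain ⟨d, hd, _⟩ := hder x ⟨hx.1.le, hx.2.le⟩
      exact hd.differentiableAt.differentiableWithinAt
    · intro x hx
      rw [interior_Icc] at hx
      obtain ⟨d, hd, h⟩ := hder x ⟨hx.1.le, hx.2.le⟩
      rw [hd.deriv]; exact h
  have key := hmono ⟨le_rfl, h01'⟩ ⟨h01', le_rfl⟩ h01'
  obtain ⟨a1, a2⟩ := hbd p₀ ⟨le_rfl, h01'⟩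
  obtain ⟨b1, b2⟩ := hbd p₁ ⟨h01', le_rfl⟩
  rw [Pr_eq_PrR hA, Pr_eq_PrR hA]
  set x := PrR s A p₀ with hx
  set y := PrR s A p₁ with hy
  have hk : Real.log x - Real.log (1 - x) - 2 / δ * p₀
      ≤ Real.log y - Real.log (1 - y) - 2 / δ * p₁ := key
  have hlx : Real.log (1 - x) ≤ 0 := Real.log_nonpos (by linarith) (by linarith)
  have hly : Real.log y ≤ 0 := Real.log_nonpos b1.le b2.le
  have h7 : Real.log (x * (1 - y)) ≤ -2 * ((p₁ : ℝ) - p₀) / δ := by
    rw [Real.log_mul a1.ne' (by linarith : (1 : ℝ) - y ≠ 0)]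
    have : -2 * ((p₁ : ℝ) - p₀) / δ = 2 / δ * p₀ - 2 / δ * p₁ := by ring
    rw [this]
    linarith
  have h8 : 0 < x * (1 - y) := mul_pos a1 (by linarith)
  calc x * (1 - y) = Real.exp (Real.log (x * (1 - y))) := (Real.exp_log h8).symm
    _ ≤ _ := Real.exp_le_exp.2 h7

end Pool.Agent.H89.Perc

end

section

/-!
# Symmetries of crossing probabilities
-/

open MeasureTheory ProbabilityTheory unitInterval

namespace Pool.Agent.H89.Perc

variable {p : I} {ω : Config} {a b c d : ℤ}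

theorem VCross.mono {a' b' c' d' : ℤ} (h : VCross ω a b c d) (ha : a' ≤ a)
    (hb : b ≤ b') (hc : c ≤ c') (hcd : c' ≤ d') (hd : d' ≤ d) : VCross ω a' b' c' d' := by
  obtain ⟨u, v, hu, hv, h⟩ := h
  obtain ⟨u', v', hu', hv', h1, -, -⟩ := h.cross_y (a := c') (b := d') (by omega) (by omega) hcd
  refine ⟨u', v', hu', hv', h1.mono_set ?_⟩
  intro w hw
  simp only [rect, Set.mem_inter_iff, Set.mem_ofPred_eq] at hw ⊢
  omega

theorem vcross_shift (x y : ℤ) : VCross (fun e => ω (shiftE (x, y) e)) a b c d ↔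
    VCross ω (a + x) (b + x) (c + y) (d + y) := by
  have hb : {w : Vert | (w.1 - (x, y).1, w.2 - (x, y).2) ∈ rect a b c d}
      = rect (a + x) (b + x) (c + y) (d + y) := by
    ext w
    simp only [Set.mem_ofPred_eq, rect]
    omega
  constructor
  · rintro ⟨u, v, hu, hv, h⟩
    rw [conn_shift, hb] at h
    exact ⟨_, _, by simp [hu], by simp [hv], h⟩
  · rintro ⟨u, v, hu, hv, h⟩
    refine ⟨(u.1 - x, u.2 - y), (v.1 - x, v.2 - y), by simp [hu], by simp [hv], ?_⟩
    rw [conn_shift, hb]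
    simpa using h

theorem Pr_vcross_translate (x y : ℤ) :
    Pr p {ω | VCross ω (a + x) (b + x) (c + y) (d + y)} = Pr p {ω | VCross ω a b c d} := by
  rw [← Pr_comp (localOn_vcross a b c d) (shiftE_injective (x, y)).injOn]
  congr 1
  ext ω
  exact (vcross_shift x y).symm

theorem reflX_injective (z : ℤ) : Function.Injective (reflX z) :=
  Function.LeftInverse.injective (reflX_reflX z)

end Pool.Agent.H89.Perc

end
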