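import Pool.Agent.H94.BG.H31.PT.M03_2
import Pool.Agent.H94.BG.M02

/-! The parts of this file: H61.NC.Second, H85.Kes.BlockOSSS, H89.Perc.RSWKey, H89.Perc.DualityA, H89.Perc.RSW, H89.Perc.DualityB, H89.Perc.Circuit, H89.Perc.Decay, H59.EX.Defs, H59.EX.Out0, H29.Sep.ExplA, H29.Sep.ExplB, H26.HP.Expl, H59.EX.S0, H59.EX.Corr, H59.EX.Seal. -/

section

/-!
# Second derivative of the probability of a local event
-/

open MeasureTheory ProbabilityTheory unitInterval

namespace Pool.Agent.H61.NC

open Pool.Agent.H89.Perc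

end Pool.Agent.H61.NC

end

section

/-!
# The OSSS inequality for explorations that reveal whole blocks of edges
-/

open MeasureTheory ProbabilityTheory unitInterval

namespace Pool.Agent.H85.Kes

open Pool.Agent.H89.Perc
open Pool.Agent.Perc (Ex ind ind_of ind_of_not MonoOnF)

variable {κ : Type*} [DecidableEq κ]

variable {s β R}

/-! ### Version for local events -/

end Pool.Agent.H85.Kes

end

section

/-!
# The Russo-Seymour-Welsh lemma (version of Bollobas and Riordan)
-/

open MeasureTheory ProbabilityTheory unitInterval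

namespace Pool.Agent.H89.Perc

/-! ### The exploration from the left side of the square -/

section good

end good

/-! ### The probability estimate -/

end Pool.Agent.H89.Perc

end

section

/-!
# Topology, part 3: rectangle duality
-/

namespace Pool.Agent.H89.Perc

end Pool.Agent.H89.Perc

end

section

/-!
# Russo-Seymour-Welsh at the self-dual point
-/

open MeasureTheory ProbabilityTheory unitInterval

namespace Pool.Agent.H89.Perc

/-! ### The mirror image of `XEvent` -/

end Pool.Agent.H89.Perc

end

section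

/-!
# Topology, part 4: gluing and blocking
-/

namespace Pool.Agent.H89.Perc

variable {ω : Config}

/-- Gluing: if no dual path crosses the annulus between `ball 0 s` and `ball 0 r`, then a path from
`0` to `sphere 0 r` and a path from `ball 0 s` to `sphere 0 R` are connected. -/
theorem glue {s r R : ℕ} (hs : s < r) (hr : r ≤ R) (h1 : ω ∈ Arm 0 r) (h2 : ω ∈ ArmBox 0 s R)
    (h3 : dual ω ∉ DArm s r) : ω ∈ Arm 0 R := by
  obtain ⟨y₀, hy₀, hc₀⟩ := h1
  obtain ⟨w, hw, u, hu, hwu⟩ := h2
  have hrR : ball 0 r ⊆ ball 0 R := by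
    intro x hx
    simp only [mem_ball, Prod.fst_zero, Prod.snd_zero] at hx ⊢
    omega
  have hwr : w ∈ ball 0 r := by
    simp only [mem_ball, Prod.fst_zero, Prod.snd_zero] at hw ⊢
    omega
  by_cases hw0 : Conn ω (ball 0 r) 0 w
  · exact ⟨u, hu, (hw0.mono_set hrR).trans hwu⟩
  exfalso
  obtain ⟨x, hx, hwx⟩ := hwu.to_sphere (v := 0) (r := r) hwr (by
    by_cases h : u ∈ ball 0 r
    · right
      refine ⟨h, ?_⟩
      have h4 := hu.2
      simp only [mem_ball, Prod.fst_zero, Prod.snd_zero] at h h4 ⊢
      omega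
    · exact Or.inl h)
  have hwx' : Conn ω (ball 0 r) w x := hwx.mono_set Set.inter_subset_right
  -- the open cluster of the origin in the ball
  set C : Set Vert := {z | Conn ω (ball 0 r) 0 z} with hCdef
  have hCsub : C ⊆ rect (-r) r (-r) r := by
    intro z hz
    have := Conn.mem_right hz
    simp only [mem_ball, Prod.fst_zero, Prod.snd_zero] at this
    simp only [rect, Set.mem_ofPred_eq]; omega
  have hball : ball 0 r = rect (-r) r (-r) r := by
    ext z
    simp only [mem_ball, Prod.fst_zero, Prod.snd_zero, rect, Set.mem_ofPred_eq]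
    omega
  have h0C : (0 : Vert) ∈ C := Conn.refl self_mem_ball
  have hC0 : ∀ z ∈ C, Conn allOpen C 0 z := by
    intro z hz
    refine Conn.induction_right (P := fun z => Conn allOpen C 0 z) hz (Conn.refl h0C) ?_
    intro a b ha hab h
    exact h.tail ⟨ha, ha.tail hab, by obtain ⟨_, _, e, he, _⟩ := hab; exact ⟨e, he, rfl⟩⟩
  have hCc : ∀ u ∈ C, ∀ w ∈ C, Conn allOpen C u w := fun u hu w hw =>
    (hC0 u hu).symm.trans (hC0 w hw)
  set D : Set Vert := rect (-(r : ℤ)) r (-r) r with hD
  set K : Set Vert := comp D C w with hKdef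
  have hwK : w ∈ K := Conn.refl ⟨hball ▸ hwr, hw0⟩
  have hxK : x ∈ K := by
    refine Conn.induction_right (P := fun z => z ∈ K) hwx' hwK ?_
    intro a b ha hab h
    refine Conn.tail (v := a) h ⟨Conn.mem_right h, ⟨hball ▸ hab.2.1, ?_⟩, ?_⟩
    · intro hb
      exact hw0 ((Conn.tail hb hab.symm).trans ha.symm)
    · obtain ⟨_, _, e, he, _⟩ := hab
      exact ⟨e, he, rfl⟩
  have hKC : ∀ z ∈ K, z ∈ D ∧ z ∉ C := fun z hz => Conn.mem_right hz
  have h0K : (0 : Vert) ∉ K := fun h => (hKC _ h).2 h0C
  have hyK : y₀ ∉ K := fun h => (hKC _ h).2 hc₀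
  -- first cut edge
  obtain ⟨a, b, h4, h5, h6, -⟩ := (dualB_ball hw).exists_hit (T := K) h0K hwK
  obtain ⟨e, -, he2, he3, he4⟩ := dualB_cut h5 h4.mem_right.2 h6
  -- second cut edge
  have hys : Conn allOpen (sphere 0 r) y₀ x := (dualB_sphere hy₀).symm.trans (dualB_sphere hx)
  obtain ⟨a', b', h4', h5', h6', -⟩ := hys.exists_hit (T := K) hyK hxK
  obtain ⟨e', -, he2', he3', he4'⟩ := dualB_cut h5' h4'.mem_right.2 h6'
  obtain ⟨φ', hφ', hφD', hφb'⟩ := dualB_face (by omega) he3' he4'
  have hse : ∀ z ∈ ball 0 s, z ∈ D := by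
    intro z hz
    simp only [mem_ball, Prod.fst_zero, Prod.snd_zero] at hz
    simp only [hD, rect, Set.mem_ofPred_eq]
    omega
  have hsphere : ∀ z ∈ sphere 0 r, z ∈ D := fun z hz => hball ▸ hz.1
  have hsep := sep (a := -r) (b := r) (c := -r) (d := r) (K := K) (fun z hz => (hKC z hz).1)
    (comp_connected (D := D) (C := C) (v := w))
    (compl_comp_connected (c₀ := 0) hCsub h0C hCc)
    (e := e) (e' := e') ⟨hse _ he3, hse _ he4⟩ ⟨hsphere _ he3', hsphere _ he4'⟩ he2 he2'
    (φ := src e) (φ' := φ') (Or.inl rfl) hφ'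
    (by
      simp only [mem_ball, Prod.fst_zero, Prod.snd_zero] at he3
      simp only [rect, Set.mem_ofPred_eq]
      omega) hφD'
  refine h3 ⟨src e, φ', ?_, hφD', hφb', ?_⟩
  · simp only [mem_ball, Prod.fst_zero, Prod.snd_zero] at he3
    simp only [rect, Set.mem_ofPred_eq]
    omega
  · -- cut edges are closed
    refine ⟨hsep.1, Relation.ReflTransGen.mono ?_ _ _ hsep.2⟩
    rintro p q ⟨hp, hq, f, hf, ho⟩
    refine ⟨hp, hq, f, hf, ?_⟩
    have hcr : src (crossed f) ∈ D ∧ tgt (crossed f) ∈ D := by
      have key : ∀ p q : Vert, p ∈ rect (-(r : ℤ)) (r - 1) (-r) (r - 1) →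
          q ∈ rect (-(r : ℤ)) (r - 1) (-r) (r - 1) → p = src f → q = tgt f →
          src (crossed f) ∈ D ∧ tgt (crossed f) ∈ D := by
        rintro p q hp hq rfl rfl
        obtain ⟨x, y, b⟩ := f
        cases b
        · simp only [rect, src, tgt, Bool.false_eq_true, if_false, Set.mem_ofPred_eq] at hp hq
          simp only [hD, rect, crossed, src, tgt, Bool.false_eq_true, if_false, if_true,
            Set.mem_ofPred_eq]
          omega
        · simp only [rect, src, tgt, if_true, Set.mem_ofPred_eq] at hp hq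
          simp only [hD, rect, crossed, src, tgt, Bool.false_eq_true, if_false, if_true,
            Set.mem_ofPred_eq]
          omega
      rcases hf with ⟨hf1, hf2⟩ | ⟨hf1, hf2⟩
      · exact key p q hp hq hf1 hf2
      · exact key q p hq hp hf2 hf1
    have hcut : cutConfig K (crossed f) = false := by
      simpa [dual] using ho
    simp only [dual, Bool.not_eq_true']
    by_contra hopen
    have hopen' : ω (crossed f) = true := by simpa using hopen
    have hcD := hcr
    rw [← hball] at hcD
    rcases cut_comp hcr hcut with ⟨g1, g2⟩ | ⟨g1, g2⟩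
    · exact (hKC _ g2).2 (Conn.tail g1 ⟨hcD.1, hcD.2, _, joins_src_tgt _, hopen'⟩)
    · exact (hKC _ g2).2 (Conn.tail g1 ⟨hcD.2, hcD.1, _, (joins_src_tgt _).symm, hopen'⟩)

end Pool.Agent.H89.Perc

end

section

/-!
# Blocking circuits
-/

open MeasureTheory ProbabilityTheory unitInterval

namespace Pool.Agent.H89.Perc

end Pool.Agent.H89.Perc

end

section

/-!
# Decay of the one-arm probability at the self-dual point
-/

open MeasureTheory ProbabilityTheory unitInterval

namespace Pool.Agent.H89.Perc

end Pool.Agent.H89.Perc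

end

section

/-!
# Separated four-arm events: definitions

`Src` is a pair of points near the origin together with a set of closed edges (for instance the two
endpoints of an edge with the edge itself closed).  `Sep s d d' k` is the four-arm event to distance
`32 k` in which the cluster of `x` leaves the ball only through the mouth on side `d`, the cluster
of `y` only through the mouth on side `d'`, even if all edges in the two target rectangles
`T d k`, `T d' k` are opened, and both clusters contain a crossing of their target rectangle.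
-/

open MeasureTheory ProbabilityTheory unitInterval

namespace Pool.Agent.H59.EX

open Pool.Agent.H89.Perc

end Pool.Agent.H59.EX

end

section

/-!
# Outward separation: definitions for the stage scheme (abstract corridors)

`CorrData w ρ v d Z Nev`: a corridor `Z` starting at the boundary vertex `v` of `ball 0 (8 w)` and
containing the target rectangle `T d (4 w)`; if the increasing event `Nev` of the edges inside `Z`
happens, every path coming out of `ball v ρ` is joined inside `Z` to a fence of the target.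
-/

open MeasureTheory ProbabilityTheory unitInterval

namespace Pool.Agent.H59.EX

open Pool.Agent.H89.Perc

end Pool.Agent.H59.EX

end

section

/-!
# Exploration of full clusters and conditional FKG

`cl ω D X` is the open cluster of the vertex set `X` inside the vertex set `D`.  The event
`cl ω D X = S` only depends on the edges touching `S`; all other edges are fresh.
-/

open MeasureTheory ProbabilityTheory unitInterval

namespace Pool.Agent.H29.Sep

open Pool.Agent.H89.Perc

variable {p : I}

/-- Closing edges makes a decreasing event more likely. -/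
theorem Pr_le_shut {s T : Finset Edge} {A : Set Config} (h : LocalOn s A) (iA : Incr Aᶜ) :
    Pr p A ≤ Pr p {ω | shut T ω ∈ A} := by
  refine Pr_mono fun ω hω => ?_
  by_contra hcon
  refine iA (shut T ω) ω (fun e he => ?_) hcon hω
  by_cases hT : e ∈ T
  · rw [shut_mem hT] at he
    exact absurd he Bool.false_ne_true
  · rwa [shut_not_mem hT] at he

end Pool.Agent.H29.Sep

end

section

/-!
# Conditional FKG and conditional independence after an exploration
-/

open MeasureTheory ProbabilityTheory unitInterval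

namespace Pool.Agent.H29.Sep

open Pool.Agent.H89.Perc

variable {p : I}

private theorem ExplB_union {ι : Type*} (F : Finset ι) (A : ι → Set Config)
    (t : ι → Finset Edge) (hA : ∀ i ∈ F, LocalOn (t i) (A i))
    (hd : ∀ i ∈ F, ∀ j ∈ F, i ≠ j → Disjoint (A i) (A j)) :
    Pr p (⋃ i ∈ F, A i) = ∑ i ∈ F, Pr p (A i) := by
  unfold Pr
  exact measureReal_biUnion_finset (fun i hi j hj hij => hd i hi j hj hij)
    (fun i hi => (hA i hi).measurableSet)

/-- Conditional FKG: the values `E i` of an exploration are disjoint events, given `E i` the events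
`A i` and `O i` are increasing events of fresh edges. -/
theorem cond_fkg {ι : Type*} (F : Finset ι) (E A O : ι → Set Config) (tE tA tO : ι → Finset Edge)
    {c : ℝ} (hc : 0 ≤ c)
    (hdisj : ∀ i ∈ F, ∀ j ∈ F, i ≠ j → Disjoint (E i) (E j))
    (hE : ∀ i ∈ F, LocalOn (tE i) (E i)) (hA : ∀ i ∈ F, LocalOn (tA i) (A i))
    (hO : ∀ i ∈ F, LocalOn (tO i) (O i)) (iA : ∀ i ∈ F, Incr (A i)) (iO : ∀ i ∈ F, Incr (O i))
    (h1 : ∀ i ∈ F, Disjoint (tE i) (tA i)) (h2 : ∀ i ∈ F, Disjoint (tE i) (tO i))
    (hP : ∀ i ∈ F, c ≤ Pr p (O i)) :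
    c * Pr p (⋃ i ∈ F, E i ∩ A i) ≤ Pr p (⋃ i ∈ F, E i ∩ (A i ∩ O i)) := by
  classical
  rw [ExplB_union F (fun i => E i ∩ (A i ∩ O i)) (fun i => tE i ∪ (tA i ∪ tO i))
    (fun i hi => (hE i hi).inter' ((hA i hi).inter' (hO i hi)))
    (fun i hi j hj hij => (hdisj i hi j hj hij).mono Set.inter_subset_left Set.inter_subset_left)]
  calc c * Pr p (⋃ i ∈ F, E i ∩ A i) ≤ c * ∑ i ∈ F, Pr p (E i ∩ A i) :=
        mul_le_mul_of_nonneg_left (Pr_biUnion_le F _) hc
    _ = ∑ i ∈ F, c * Pr p (E i ∩ A i) := Finset.mul_sum _ _ _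
    _ ≤ ∑ i ∈ F, Pr p (E i ∩ (A i ∩ O i)) := by
        refine Finset.sum_le_sum fun i hi => ?_
        rw [Pr_inter_of_disjoint (hE i hi) (hA i hi) (h1 i hi),
          Pr_inter_of_disjoint (hE i hi) ((hA i hi).inter' (hO i hi))
            (Finset.disjoint_union_right.2 ⟨h1 i hi, h2 i hi⟩)]
        have h3 := fkg (p := p) (hA i hi) (hO i hi) (iA i hi) (iO i hi)
        have h4 : c * Pr p (A i) ≤ Pr p (A i ∩ O i) := by
          refine le_trans ?_ h3
          rw [mul_comm]
          exact mul_le_mul_of_nonneg_left (hP i hi) Pr_nonneg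
        calc c * (Pr p (E i) * Pr p (A i)) = Pr p (E i) * (c * Pr p (A i)) := by ring
          _ ≤ Pr p (E i) * Pr p (A i ∩ O i) := mul_le_mul_of_nonneg_left h4 Pr_nonneg

/-- Conditional independence (used for the seals): the events `O i` are events of fresh edges. -/
theorem cond_indep {ι : Type*} (F : Finset ι) (E O : ι → Set Config) (tE tO : ι → Finset Edge)
    {c : ℝ} (hc : 0 ≤ c)
    (hdisj : ∀ i ∈ F, ∀ j ∈ F, i ≠ j → Disjoint (E i) (E j))
    (hE : ∀ i ∈ F, LocalOn (tE i) (E i)) (hO : ∀ i ∈ F, LocalOn (tO i) (O i))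
    (h2 : ∀ i ∈ F, Disjoint (tE i) (tO i)) (hP : ∀ i ∈ F, c ≤ Pr p (O i)) :
    c * Pr p (⋃ i ∈ F, E i) ≤ Pr p (⋃ i ∈ F, E i ∩ O i) := by
  classical
  rw [ExplB_union F (fun i => E i ∩ O i) (fun i => tE i ∪ tO i)
    (fun i hi => (hE i hi).inter' (hO i hi))
    (fun i hi j hj hij => (hdisj i hi j hj hij).mono Set.inter_subset_left Set.inter_subset_left)]
  calc c * Pr p (⋃ i ∈ F, E i) ≤ c * ∑ i ∈ F, Pr p (E i) :=
        mul_le_mul_of_nonneg_left (Pr_biUnion_le F _) hc
    _ = ∑ i ∈ F, c * Pr p (E i) := Finset.mul_sum _ _ _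
    _ ≤ ∑ i ∈ F, Pr p (E i ∩ O i) := by
        refine Finset.sum_le_sum fun i hi => ?_
        rw [Pr_inter_of_disjoint (hE i hi) (hO i hi) (h2 i hi), mul_comm]
        exact mul_le_mul_of_nonneg_left (hP i hi) Pr_nonneg

end Pool.Agent.H29.Sep

end

section

/-!
# Exploration of clusters

`D` is a finite set of vertices, `clus ω D X` the union of the clusters in `D` of the vertices of
`X`.  Given this set, the edges of `D` which do not touch it are fresh.
-/

open MeasureTheory ProbabilityTheory unitInterval

namespace Pool.Agent.H26.HP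

open Pool.Agent.H89.Perc

variable {ω ω' : Config} {D X S : Set Vert} {R : ℕ} {q : I}

lemma mem_eIn {e : Edge} : e ∈ eIn R D ↔ e ∈ eBall R ∧ src e ∈ D ∧ tgt e ∈ D := by
  classical
  simp only [eIn, Finset.mem_filter]

lemma eTouch_disjoint : Disjoint (eTouch R D S) (eIn R (D \ S)) := by
  rw [Finset.disjoint_left]
  intro e h1 h2
  rw [mem_eTouch] at h1
  rw [mem_eIn] at h2
  rcases h1.2.2 with h | h
  · exact h2.2.1.2 h
  · exact h2.2.2.2 h

lemma localOn_conn_in (hD : D ⊆ ball 0 R) (u v : Vert) :
    LocalOn (eIn R D) {ω | Conn ω D u v} := by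
  intro ω ω' h hc
  exact Conn.congr (fun e h1 h2 => h e (mem_eIn.2 ⟨mem_eBall.2 (hD h1), h1, h2⟩)) hc

/-- A path which starts outside of the explored set stays outside. -/
lemma conn_off {u v : Vert} (hu : u ∉ clus ω D X) (h : Conn ω D u v) :
    Conn ω (D \ clus ω D X) u v := by
  refine h.induction_right (P := fun x => Conn ω (D \ clus ω D X) u x)
    (Conn.refl ⟨h.mem_left, hu⟩) ?_
  intro a b ha hab ih
  refine ih.tail ⟨ih.mem_right, ⟨hab.2.1, fun hb => hu ?_⟩, hab.2.2⟩
  exact mem_clus_of_conn hb (ha.tail hab).symm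

/-- **Exploration.**  Given the cluster `S` of `X`, the events `A' S` and `G S` only depend on
fresh edges; if `c P(A' S) ≤ P(G S)` for all `S`, then `c P(A) ≤ P(B)`. -/
theorem explore (hD : D ⊆ ball 0 R) {A B : Set Config} {A' G : Set Vert → Set Config} {c : ℝ}
    (hc0 : 0 ≤ c) (hA : ∀ ω ∈ A, ω ∈ A' (clus ω D X))
    (lA : ∀ S, LocalOn (eIn R (D \ S)) (A' S)) (lG : ∀ S, LocalOn (eIn R (D \ S)) (G S))
    (hc : ∀ S, c * Pr q (A' S) ≤ Pr q (G S)) (hB : ∀ ω, ω ∈ G (clus ω D X) → ω ∈ B) :
    c * Pr q A ≤ Pr q B := by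
  classical
  have h1 : Pr q A ≤ ∑ T ∈ (bF R).powerset, Pr q (Full D X T ∩ A' T) := by
    refine (Pr_mono ?_).trans (Pr_biUnion_le _ _)
    intro ω hω
    obtain ⟨T, hT, hTe⟩ := exists_finset (S := clus ω D X) (clus_subset.trans hD)
    simp only [Set.mem_iUnion]
    refine ⟨T, hT, hTe.symm, ?_⟩
    rw [hTe]
    exact hA ω hω
  have h2 : ∑ T ∈ (bF R).powerset, Pr q (Full D X T ∩ G T) ≤ Pr q B := by
    have hd : Set.PairwiseDisjoint (↑(bF R).powerset)
        (fun T : Finset Vert => Full D X T ∩ G T) := by
      intro T1 _ T2 _ hne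
      rw [Function.onFun, Set.disjoint_left]
      rintro ω ⟨k1, _⟩ ⟨k2, _⟩
      apply hne
      have k3 : (↑T1 : Set Vert) = ↑T2 := by
        rw [← (show clus ω D X = ↑T1 from k1), ← (show clus ω D X = ↑T2 from k2)]
      exact_mod_cast k3
    have hm : ∀ T ∈ (bF R).powerset, MeasurableSet (Full D X (↑T : Set Vert) ∩ G T) :=
      fun T _ => ((localOn_full hD).inter' (lG T)).measurableSet
    have := measureReal_biUnion_finset (μ := μ q) hd hm
    unfold Pr
    rw [← this]
    refine measureReal_mono ?_
    intro ω hω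
    simp only [Set.mem_iUnion] at hω
    obtain ⟨T, _, k1, k2⟩ := hω
    apply hB
    rw [show clus ω D X = ↑T from k1]
    exact k2
  calc c * Pr q A ≤ c * ∑ T ∈ (bF R).powerset, Pr q (Full D X T ∩ A' T) :=
        mul_le_mul_of_nonneg_left h1 hc0
    _ = ∑ T ∈ (bF R).powerset, c * Pr q (Full D X T ∩ A' T) := Finset.mul_sum _ _ _
    _ ≤ ∑ T ∈ (bF R).powerset, Pr q (Full D X T ∩ G T) := by
        refine Finset.sum_le_sum fun T _ => ?_
        rw [Pr_inter_of_disjoint (localOn_full hD) (lA T) eTouch_disjoint,
          Pr_inter_of_disjoint (localOn_full hD) (lG T) eTouch_disjoint]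
        calc c * (Pr q (Full D X T) * Pr q (A' T)) = Pr q (Full D X T) * (c * Pr q (A' T)) := by
              ring
          _ ≤ _ := mul_le_mul_of_nonneg_left (hc T) Pr_nonneg
    _ ≤ Pr q B := h2

end Pool.Agent.H26.HP

end

section

/-!
# Probabilistic tools

Conditioning on the edges of a (possibly infinite) set `t`, and on the value of a random set.
-/

open MeasureTheory ProbabilityTheory unitInterval

namespace Pool.Agent.H59.EX

open Pool.Agent.H89.Perc

end Pool.Agent.H59.EX

end

section

/-!
# The corridor lemma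

`pb π ω` is the configuration `e ↦ ω (π e)`; `π = id` for the plane, the reduction modulo the
periods (and a translation) for the torus and for the cylinder.  Given a separated four-arm event,
increasing events inside the corridor `C` and arbitrary events `H` of the edges which are neither
inside `C` nor touch the two clusters (in the configuration with filled targets) can be added at the
cost of constant factors.
-/

open MeasureTheory ProbabilityTheory unitInterval

namespace Pool.Agent.H59.EX

open Pool.Agent.H89.Perc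

end Pool.Agent.H59.EX

end

section

/-!
# Seals: confinement of clusters by closed annuli (purely graph-theoretic)
-/

open MeasureTheory ProbabilityTheory unitInterval

namespace Pool.Agent.H59.EX

open Pool.Agent.H89.Perc

end Pool.Agent.H59.EX

end
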