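import Pool.Agent.H94.BG.H31.PT.M02_1
import Pool.Agent.H94.BG.H31.PT.M03_4

/-! The parts of this file: H61.NC.Second, H85.Kes.BlockOSSS, H89.Perc.RSWKey, H89.Perc.DualityA, H89.Perc.RSW, H89.Perc.DualityB, H89.Perc.Circuit, H89.Perc.Decay, H59.EX.Defs, H59.EX.Out0, H29.Sep.ExplA, H29.Sep.ExplB, H26.HP.Expl, H59.EX.S0, H59.EX.Corr, H59.EX.Seal. -/

section

/-!
# Second derivative of the probability of a local event
-/

open MeasureTheory ProbabilityTheory unitInterval

namespace Pool.Agent.H61.NC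

open Pool.Agent.H89.Perc

variable {s : Finset Edge} {A : Set Config}

/-- The derivative of the probability of `A` as a function on the real line. -/
noncomputable def PrR' (s : Finset Edge) (A : Set Config) (x : ℝ) : ℝ :=
  ∑ e ∈ s, (PrR s (upd A e true) x - PrR s (upd A e false) x)

theorem localOn_upd (hA : LocalOn s A) (e : Edge) (b : Bool) : LocalOn s (upd A e b) :=
  (hA.update e b).mono (Finset.erase_subset e s)

private theorem second_pivot_eq (q : I) (A : Set Config) (e : Edge) :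
    pivot q A e = Pr q (upd A e true) - Pr q (upd A e false) := rfl

theorem PrR'_eq (hA : LocalOn s A) (q : I) : PrR' s A (q : ℝ) = ∑ e ∈ s, pivot q A e := by
  unfold PrR'
  refine Finset.sum_congr rfl fun e _ => ?_
  rw [second_pivot_eq, Pr_eq_PrR (localOn_upd hA e true), Pr_eq_PrR (localOn_upd hA e false)]

theorem hasDerivAt_PrR_eq (hA : LocalOn s A) (q : I) :
    HasDerivAt (PrR s A) (PrR' s A (q : ℝ)) (q : ℝ) := by
  rw [PrR'_eq hA q]
  exact hasDerivAt_PrR hA q

theorem hasDerivAt_PrR' (hA : LocalOn s A) (q : I) :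
    HasDerivAt (PrR' s A)
      (∑ e ∈ s, ∑ f ∈ s, (pivot q (upd A e true) f - pivot q (upd A e false) f)) (q : ℝ) := by
  unfold PrR'
  refine HasDerivAt.fun_sum fun e _ => ?_
  rw [Finset.sum_sub_distrib]
  exact (hasDerivAt_PrR (localOn_upd hA e true) q).sub (hasDerivAt_PrR (localOn_upd hA e false) q)

private theorem second_upd_mono (iA : Incr A) (e : Edge) : upd A e false ⊆ upd A e true := by
  intro ω hω
  refine iA _ _ (fun x hx => ?_) hω
  by_cases hxe : x = e
  · subst hxe; simp
  · rw [Function.update_of_ne hxe] at hx ⊢; exact hx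

private theorem second_upd_incr (iA : Incr A) (e : Edge) (b : Bool) : Incr (upd A e b) := by
  intro ω ω' h hω
  refine iA _ _ (fun x hx => ?_) hω
  by_cases hxe : x = e
  · subst hxe; simpa using hx
  · rw [Function.update_of_ne hxe] at hx ⊢; exact h x hx

private theorem second_upd_sub {A B : Set Config} (h : A ⊆ B) (f : Edge) (b : Bool) :
    upd A f b ⊆ upd B f b := fun _ hω => h hω

theorem abs_pivot2_le (hA : LocalOn s A) (iA : Incr A) {e f : Edge} (hef : e ≠ f) (q : I) :
    |pivot q (upd A e true) f - pivot q (upd A e false) f| ≤ Pr q (Joint A e f) := by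
  set TT := upd (upd A e true) f true with hTT
  set TF := upd (upd A e true) f false with hTF
  set FT := upd (upd A e false) f true with hFT
  set FF := upd (upd A e false) f false with hFF
  have lTT : MeasurableSet TT := (localOn_upd (localOn_upd hA e true) f true).measurableSet
  have lTF : MeasurableSet TF := (localOn_upd (localOn_upd hA e true) f false).measurableSet
  have lFT : MeasurableSet FT := (localOn_upd (localOn_upd hA e false) f true).measurableSet
  have lFF : MeasurableSet FF := (localOn_upd (localOn_upd hA e false) f false).measurableSet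
  have s1 : TF ⊆ TT := second_upd_mono (second_upd_incr iA e true) f
  have s2 : FT ⊆ TT := second_upd_sub (second_upd_mono iA e) f true
  have s3 : FF ⊆ TF := second_upd_sub (second_upd_mono iA e) f false
  have s4 : FF ⊆ FT := second_upd_mono (second_upd_incr iA e false) f
  have e1 : Pr q (TF ∪ FT) + Pr q (TF ∩ FT) = Pr q TF + Pr q FT :=
    measureReal_union_add_inter lFT
  have e2 : Pr q (TT \ (TF ∪ FT)) = Pr q TT - Pr q (TF ∪ FT) :=
    measureReal_sdiff (Set.union_subset s1 s2) (lTF.union lFT)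
  have e3 : Pr q ((TF ∩ FT) \ FF) = Pr q (TF ∩ FT) - Pr q FF :=
    measureReal_sdiff (Set.subset_inter s3 s4) lFF
  have e4 : Pr q (TT \ (TF ∪ FT)) ≤ Pr q (Joint A e f) := Pr_mono Set.subset_union_left
  have e5 : Pr q ((TF ∩ FT) \ FF) ≤ Pr q (Joint A e f) := Pr_mono Set.subset_union_right
  have p1 : 0 ≤ Pr q (TT \ (TF ∪ FT)) := Pr_nonneg
  have p2 : 0 ≤ Pr q ((TF ∩ FT) \ FF) := Pr_nonneg
  have e6 : pivot q (upd A e true) f - pivot q (upd A e false) f =
      Pr q (TT \ (TF ∪ FT)) - Pr q ((TF ∩ FT) \ FF) := by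
    rw [second_pivot_eq, second_pivot_eq, e2, e3]
    linarith
  rw [e6, abs_le]
  constructor <;> linarith

theorem pivot_upd_self (q : I) (A : Set Config) (e : Edge) (b : Bool) :
    pivot q (upd A e b) e = 0 := by
  have h : ∀ b' : Bool, {ω : Config | Function.update ω e b' ∈ upd A e b} = upd A e b := by
    intro b'
    ext ω
    simp only [upd, Set.mem_ofPred_eq, Function.update_idem]
  unfold pivot
  rw [h true, h false, sub_self]

theorem abs_second_le (hA : LocalOn s A) (iA : Incr A) (q : I) :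
    |∑ e ∈ s, ∑ f ∈ s, (pivot q (upd A e true) f - pivot q (upd A e false) f)| ≤
      ∑ e ∈ s, ∑ f ∈ s.erase e, Pr q (Joint A e f) := by
  refine (Finset.abs_sum_le_sum_abs _ _).trans (Finset.sum_le_sum fun e _ => ?_)
  rw [← Finset.sum_erase s (a := e)
    (f := fun f => pivot q (upd A e true) f - pivot q (upd A e false) f)
    (by simp only [pivot_upd_self, sub_self])]
  refine (Finset.abs_sum_le_sum_abs _ _).trans (Finset.sum_le_sum fun f hf => ?_)
  exact abs_pivot2_le hA iA (Ne.symm (Finset.ne_of_mem_erase hf)) q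

/-- Comparison with the influence of one edge (finite energy). -/
theorem Pr_Joint_le (hA : LocalOn s A) (iA : Incr A) {e f : Edge} (hef : e ≠ f) (q : I)
    (h1 : 1 / 4 ≤ (q : ℝ)) (h2 : (q : ℝ) ≤ 3 / 4) :
    Pr q (Joint A e f) ≤ 8 * pivot q A e := by
  set TT := upd (upd A e true) f true with hTT
  set TF := upd (upd A e true) f false with hTF
  set FT := upd (upd A e false) f true with hFT
  set FF := upd (upd A e false) f false with hFF
  have lFT : MeasurableSet FT := (localOn_upd (localOn_upd hA e false) f true).measurableSet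
  have lFF : MeasurableSet FF := (localOn_upd (localOn_upd hA e false) f false).measurableSet
  have s2 : FT ⊆ TT := second_upd_sub (second_upd_mono iA e) f true
  have s3 : FF ⊆ TF := second_upd_sub (second_upd_mono iA e) f false
  have e2 : Pr q (TT \ FT) = Pr q TT - Pr q FT := measureReal_sdiff s2 lFT
  have e3 : Pr q (TF \ FF) = Pr q TF - Pr q FF := measureReal_sdiff s3 lFF
  have p1 : 0 ≤ Pr q (TT \ FT) := Pr_nonneg
  have p2 : 0 ≤ Pr q (TF \ FF) := Pr_nonneg
  have e4 : Pr q (Joint A e f) ≤ Pr q (TT \ FT) + Pr q (TF \ FF) := by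
    refine (Pr_mono ?_).trans Pr_union_le
    rintro ω (⟨a1, a2⟩ | ⟨⟨a1, a2⟩, a3⟩)
    · left
      rw [Set.mem_union, not_or] at a2
      exact ⟨a1, a2.2⟩
    · right
      exact ⟨a1, a3⟩
  have f1 : Pr q (upd A e true) = q * Pr q TT + (1 - q) * Pr q TF :=
    Pr_eq_update (localOn_upd hA e true) f
  have f2 : Pr q (upd A e false) = q * Pr q FT + (1 - q) * Pr q FF :=
    Pr_eq_update (localOn_upd hA e false) f
  have f3 : pivot q A e = q * Pr q (TT \ FT) + (1 - q) * Pr q (TF \ FF) := by
    rw [second_pivot_eq, f1, f2, e2, e3]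
    ring
  rw [f3]
  nlinarith [mul_nonneg (sub_nonneg.2 h1) p1, mul_nonneg (sub_nonneg.2 h2) p2]

end Pool.Agent.H61.NC

end

section

/-!
# The OSSS inequality for explorations that reveal whole blocks of edges
-/

open MeasureTheory ProbabilityTheory unitInterval

namespace Pool.Agent.H85.Kes

open Pool.Agent.H89.Perc
open Pool.Agent.Perc (Ex ind ind_of ind_of_not MonoOnF)

variable {κ : Type*} [DecidableEq κ]

variable (s : Finset Edge) (β : Edge → κ) (R : BRule κ)

variable {s β R}

/-! ### Version for local events -/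

lemma setB_mono {B : Finset Edge} (ω : Config) (e : Edge) (h : setB B false ω e = true) :
    setB B true ω e = true := by
  by_cases h' : e ∈ B
  · simp [setB, h']
  · simpa [setB, h'] using h

end Pool.Agent.H85.Kes

end

section

/-!
# The Russo-Seymour-Welsh lemma (version of Bollobas and Riordan)
-/

open MeasureTheory ProbabilityTheory unitInterval

namespace Pool.Agent.H89.Perc

/-! ### The exploration from the left side of the square -/

section good

end good

/-! ### The probability estimate -/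

end Pool.Agent.H89.Perc

end

section

/-!
# Topology, part 3: rectangle duality
-/

namespace Pool.Agent.H89.Perc

end Pool.Agent.H89.Perc

end

section

/-!
# Russo-Seymour-Welsh at the self-dual point
-/

open MeasureTheory ProbabilityTheory unitInterval

namespace Pool.Agent.H89.Perc

/-! ### The mirror image of `XEvent` -/

end Pool.Agent.H89.Perc

end

section

/-!
# Topology, part 4: gluing and blocking
-/

namespace Pool.Agent.H89.Perc

end Pool.Agent.H89.Perc

end

section

/-!
# Blocking circuits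
-/

open MeasureTheory ProbabilityTheory unitInterval

namespace Pool.Agent.H89.Perc

lemma circuit_incr_DArm (s r : ℕ) : Incr (DArm s r) := by
  rintro ω ω' h ⟨φ, φ', h1, h2, h3, h4⟩
  exact ⟨φ, φ', h1, h2, h3, h4.mono le_rfl h⟩

theorem incr_dual_DArm (s r : ℕ) : Incr {ω | dual ω ∉ DArm s r} :=
  (circuit_incr_DArm s r).dual_compl

end Pool.Agent.H89.Perc

end

section

/-!
# Decay of the one-arm probability at the self-dual point
-/

open MeasureTheory ProbabilityTheory unitInterval

namespace Pool.Agent.H89.Perc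

/-- Intersections of the annulus events at scales `16 ^ j`. -/
def AnnInter : ℕ → Set Config
  | 0 => Set.univ
  | n + 1 => AnnInter n ∩ Ann (16 ^ n) (16 ^ (n + 1))

lemma localOn_annInter (n : ℕ) : LocalOn (eBall (16 ^ n)) (AnnInter n) := by
  classical
  induction n with
  | zero => exact fun _ _ _ _ => Set.mem_univ _
  | succ n ih =>
    have h1 : (16 : ℕ) ^ n ≤ 16 ^ (n + 1) := Nat.pow_le_pow_right (by norm_num) (Nat.le_succ n)
    exact (ih.mono (eBall_subset h1)).inter ((localOn_ann _ _).mono Finset.sdiff_subset)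

lemma arm_subset_annInter {R : ℕ} (n : ℕ) (h : 16 ^ n ≤ R) : Arm 0 R ⊆ AnnInter n := by
  induction n with
  | zero => exact Set.subset_univ _
  | succ n ih =>
    have h1 : (16 : ℕ) ^ n < 16 ^ (n + 1) := Nat.pow_lt_pow_right (by norm_num) (Nat.lt_succ_self n)
    exact Set.subset_inter (ih (h1.le.trans h)) (arm_subset_ann h1 h)

/-- Polynomial decay of the one-arm probability at `1 / 2`. -/
theorem arm_decay : ∃ C c : ℝ, 0 < C ∧ 0 < c ∧ ∀ r : ℕ, 1 ≤ r →
    arm half r ≤ C * (r : ℝ) ^ (-c) := by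
  classical
  obtain ⟨c, hc, h⟩ := armBox_le
  have hc1 : c ≤ 1 := by
    have h1 := h 1 8 le_rfl (by norm_num)
    have h2 : 0 ≤ Pr half (ArmBox 0 1 8) := Pr_nonneg
    linarith
  set q : ℝ := 1 - c / 2 with hq
  have hq0 : 0 < q := by linarith
  have hq1 : q < 1 := by linarith
  -- the probability of the intersection of the annulus events
  have key : ∀ n : ℕ, Pr half (AnnInter n) ≤ q ^ n := by
    intro n
    induction n with
    | zero => rw [pow_zero]; exact Pr_le_one
    | succ n ih =>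
      have h1 : Pr half (AnnInter (n + 1)) =
          Pr half (AnnInter n) * Pr half (Ann (16 ^ n) (16 ^ (n + 1))) :=
        Pr_inter_of_disjoint (localOn_annInter n) (localOn_ann _ _) Finset.disjoint_sdiff
      have h2 : Pr half (Ann (16 ^ n) (16 ^ (n + 1))) ≤ q := by
        have h3 : 4 * (16 ^ n + 1 + 1) ≤ 16 ^ (n + 1) := by
          have : 1 ≤ 16 ^ n := Nat.one_le_pow _ _ (by norm_num)
          rw [pow_succ]
          omega
        have h4 := h (16 ^ n + 1) (16 ^ (n + 1)) (by omega) h3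
        have h5 : Pr half (Ann (16 ^ n) (16 ^ (n + 1))) ≤
            Pr half (ArmBox 0 (16 ^ n + 1) (16 ^ (n + 1))) := Pr_mono (ann_subset_armBox _ _)
        linarith
      rw [h1, pow_succ]
      exact mul_le_mul ih h2 Pr_nonneg (pow_nonneg hq0.le n)
  have hlog : Real.log q < 0 := Real.log_neg hq0 hq1
  have hlog16 : 0 < Real.log 16 := Real.log_pos (by norm_num)
  refine ⟨1 / q, - Real.log q / Real.log 16, by positivity,
    div_pos (neg_pos.2 hlog) hlog16, fun r hr => ?_⟩
  set n := Nat.log 16 r with hn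
  have hn1 : 16 ^ n ≤ r := Nat.pow_log_le_self 16 (by omega)
  have hn2 : r < 16 ^ (n + 1) := Nat.lt_pow_succ_log_self (by norm_num) r
  have h1 : arm half r ≤ q ^ n := (Pr_mono (arm_subset_annInter n hn1)).trans (key n)
  refine h1.trans ?_
  have hr0 : (0 : ℝ) < r := by exact_mod_cast hr
  have h2 : q ^ (n + 1) ≤ (r : ℝ) ^ (-(-Real.log q / Real.log 16)) := by
    have h3 : ((16 : ℝ) ^ (n + 1)) ^ (-(-Real.log q / Real.log 16)) = q ^ (n + 1) := by
      rw [← Real.rpow_natCast (16 : ℝ) (n + 1), ← Real.rpow_mul (by norm_num), mul_comm,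
        Real.rpow_mul (by norm_num), Real.rpow_natCast]
      congr 1
      rw [Real.rpow_def_of_pos (by norm_num)]
      have : Real.log 16 * -(-Real.log q / Real.log 16) = Real.log q := by
        field_simp
      rw [this, Real.exp_log hq0]
    rw [← h3]
    refine Real.rpow_le_rpow_of_nonpos hr0 ?_ ?_
    · exact_mod_cast hn2.le
    · have := div_pos (neg_pos.2 hlog) hlog16
      linarith
  calc q ^ n = 1 / q * q ^ (n + 1) := by
        rw [pow_succ]; field_simp
    _ ≤ _ := mul_le_mul_of_nonneg_left h2 (by positivity)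

end Pool.Agent.H89.Perc

end

section

/-!
# Separated four-arm events: definitions

`Src` is a pair of points near the origin together with a set of closed edges (for instance the two
endpoints of an edge with the edge itself closed).  `Sep s d d' k` is the four-arm event to distance
`32 k` in which the cluster of `x` leaves the ball only through the mouth on side `d`, the cluster
of `y` only through the mouth on side `d'`, even if all edges in the two target rectangles
`T d k`, `T d' k` are opened, and both clusters contain a crossing of their target rectangle.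
-/

open MeasureTheory ProbabilityTheory unitInterval

namespace Pool.Agent.H59.EX

open Pool.Agent.H89.Perc

end Pool.Agent.H59.EX

end

section

/-!
# Outward separation: definitions for the stage scheme (abstract corridors)

`CorrData w ρ v d Z Nev`: a corridor `Z` starting at the boundary vertex `v` of `ball 0 (8 w)` and
containing the target rectangle `T d (4 w)`; if the increasing event `Nev` of the edges inside `Z`
happens, every path coming out of `ball v ρ` is joined inside `Z` to a fence of the target.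
-/

open MeasureTheory ProbabilityTheory unitInterval

namespace Pool.Agent.H59.EX

open Pool.Agent.H89.Perc

/-- Stage 0: `x` lands near `v`, the cluster of `y` is far from `v`. -/
def Ev0 (s : Src) (w ρ : ℕ) (v : Vert) : Set Config :=
  {ω | (∃ u ∈ sphere 0 (8 * w), u ∈ ball v ρ ∧ Conn (s.cut ω) (ball 0 (8 * w)) s.x u) ∧
    (∃ u ∈ sphere 0 (8 * w), Conn (s.cut ω) (ball 0 (8 * w)) s.y u) ∧
    ¬ Conn (s.cut ω) (ball 0 (8 * w)) s.x s.y ∧ Disjoint (SY s w ω) (ball v (11 * ρ))}

/-- The clusters of `x` (after gluing) and of `y` are nowhere both close to the same vertex of the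
sphere. -/
def Good12 (s : Src) (w ρ' : ℕ) (Z : Set Vert) : Set Config :=
  {ω | ∀ z ∈ sphere 0 (8 * w), (S1 s w Z ω ∩ ball z (12 * ρ')).Nonempty →
    ¬ (SY s w ω ∩ ball z (12 * ρ')).Nonempty}

/-- Stage 2 result. -/
def Ev2 (s : Src) (w ρ ρ' : ℕ) (v : Vert) (d : Side) (Z : Set Vert) : Set Config :=
  {ω | ω ∈ Conf s w ρ' d Z ∧ ∃ u ∈ sphere 0 (8 * w), u ∉ ball v (11 * ρ) ∧
    Conn (s.cut ω) (ball 0 (8 * w) \ SH s w Z ω) s.y u ∧
    Disjoint (SH s w Z ω) (ball u (8 * ρ'))}

/-- Stage 3: `y` lands near `v'`. -/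
def Ev3 (s : Src) (w ρ' : ℕ) (v' : Vert) (d : Side) (Z : Set Vert) : Set Config :=
  {ω | ω ∈ Conf s w ρ' d Z ∧ (∃ u ∈ sphere 0 (8 * w), u ∈ ball v' ρ' ∧
    Conn (s.cut ω) (ball 0 (8 * w) \ SH s w Z ω) s.y u) ∧
    Disjoint (SH s w Z ω) (ball v' (7 * ρ'))}

end Pool.Agent.H59.EX

end

section

/-!
# Exploration of full clusters and conditional FKG

`cl ω D X` is the open cluster of the vertex set `X` inside the vertex set `D`.  The event
`cl ω D X = S` only depends on the edges touching `S`; all other edges are fresh.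
-/

open MeasureTheory ProbabilityTheory unitInterval

namespace Pool.Agent.H29.Sep

open Pool.Agent.H89.Perc

variable {p : I}

theorem mem_touch {s : Finset Edge} {S : Set Vert} {e : Edge} :
    e ∈ touch s S ↔ e ∈ s ∧ (src e ∈ S ∨ tgt e ∈ S) := by
  classical
  unfold touch
  exact Finset.mem_filter

theorem mem_off {s : Finset Edge} {S : Set Vert} {e : Edge} :
    e ∈ off s S ↔ e ∈ s ∧ src e ∉ S ∧ tgt e ∉ S := by
  classical
  unfold off
  exact Finset.mem_filter

theorem touch_disj (s t : Finset Edge) (S : Set Vert) : Disjoint (touch s S) (off t S) := by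
  rw [Finset.disjoint_left]
  intro e h1 h2
  rw [mem_touch] at h1
  rw [mem_off] at h2
  rcases h1.2 with h | h
  · exact h2.2.1 h
  · exact h2.2.2 h

/-- a step starting in `S` only uses an edge touching `S` -/
private theorem explA_step {ω ω' : Config} {s : Finset Edge} {D S : Set Vert}
    (hs : ∀ e, src e ∈ D → tgt e ∈ D → e ∈ s) (h : ∀ e ∈ touch s S, ω e = ω' e) {a b : Vert}
    (ha : a ∈ S) (st : Step ω D a b) : Step ω' D a b := by
  obtain ⟨h1, h2, e, he, ho⟩ := st
  refine ⟨h1, h2, e, he, ?_⟩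
  rcases he with ⟨h3, h4⟩ | ⟨h3, h4⟩
  · rw [← h e (mem_touch.2 ⟨hs e (h3 ▸ h1) (h4 ▸ h2), Or.inl (h3 ▸ ha)⟩)]
    exact ho
  · rw [← h e (mem_touch.2 ⟨hs e (h4 ▸ h2) (h3 ▸ h1), Or.inr (h3 ▸ ha)⟩)]
    exact ho

/-- The value of a cluster is decided by the edges touching it. -/
theorem localOn_cl {s : Finset Edge} {D X S : Set Vert}
    (hs : ∀ e, src e ∈ D → tgt e ∈ D → e ∈ s) :
    LocalOn (touch s S) {ω | cl ω D X = S} := by
  intro ω ω' hω hcl
  change cl ω D X = S at hcl
  change cl ω' D X = S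
  have hω' : ∀ e ∈ touch s S, ω' e = ω e := fun e he => (hω e he).symm
  apply Set.Subset.antisymm
  · rintro v ⟨u, hu, huv⟩
    refine huv.induction_right (P := fun v => v ∈ S) ?_ ?_
    · rw [← hcl]
      exact ⟨u, hu, Conn.refl huv.mem_left⟩
    · intro a b _ h2 h3
      have h4 := explA_step hs hω' h3 h2
      rw [← hcl] at h3 ⊢
      exact cl_step h3 h4
  · intro v hv
    rw [← hcl] at hv
    obtain ⟨u, hu, huv⟩ := hv
    refine ⟨u, hu, ?_⟩
    refine huv.induction_right (P := fun v => Conn ω' D u v) (Conn.refl huv.mem_left) ?_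
    intro a b h1 h2 h3
    have ha : a ∈ S := by
      rw [← hcl]
      exact ⟨u, hu, h1⟩
    exact h3.tail (explA_step hs hω ha h2)

/-- Connections off `S` are decided by the edges not touching `S`. -/
theorem localOn_conn_off {s : Finset Edge} {D S : Set Vert} {u v : Vert}
    (hs : ∀ e, src e ∈ D → tgt e ∈ D → e ∈ s) :
    LocalOn (off s S) {ω | Conn ω (D \ S) u v} := by
  intro ω ω' hω h
  exact Conn.congr (fun e h1 h2 => hω e (mem_off.2 ⟨hs e h1.1 h2.1, h1.2, h2.2⟩)) h

end Pool.Agent.H29.Sep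

end

section

/-!
# Conditional FKG and conditional independence after an exploration
-/

open MeasureTheory ProbabilityTheory unitInterval

namespace Pool.Agent.H29.Sep

open Pool.Agent.H89.Perc

variable {p : I}

/-- Finite intersections of increasing local events: Harris inequality. -/
theorem fkg_many {ι : Type*} (F : Finset ι) (A : ι → Set Config) (t : ι → Finset Edge)
    {c : ℝ} (hc : 0 ≤ c) (hA : ∀ i ∈ F, LocalOn (t i) (A i)) (iA : ∀ i ∈ F, Incr (A i))
    (hP : ∀ i ∈ F, c ≤ Pr p (A i)) : c ^ F.card ≤ Pr p (⋂ i ∈ F, A i) := by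
  classical
  induction F using Finset.induction_on with
  | empty => simp [Pr_univ]
  | insert a F ha ih =>
    rw [Finset.card_insert_of_notMem ha, Finset.set_biInter_insert, pow_succ']
    have hF : ∀ i ∈ F, i ∈ insert a F := fun i hi => Finset.mem_insert_of_mem hi
    have haF : a ∈ insert a F := Finset.mem_insert_self _ _
    have h1 := ih (fun i hi => hA i (hF i hi)) (fun i hi => iA i (hF i hi))
      (fun i hi => hP i (hF i hi))
    have h2 : Incr (⋂ i ∈ F, A i) := by
      intro ω ω' hω h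
      rw [Set.mem_iInter₂] at h ⊢
      intro i hi
      exact iA i (hF i hi) ω ω' hω (h i hi)
    refine le_trans ?_ (fkg (hA a haF) (ExplB_inter F A t (fun i hi => hA i (hF i hi)))
      (iA a haF) h2)
    exact mul_le_mul (hP a haF) h1 (pow_nonneg hc _) Pr_nonneg

end Pool.Agent.H29.Sep

end

section

/-!
# Exploration of clusters

`D` is a finite set of vertices, `clus ω D X` the union of the clusters in `D` of the vertices of
`X`.  Given this set, the edges of `D` which do not touch it are fresh.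
-/

open MeasureTheory ProbabilityTheory unitInterval

namespace Pool.Agent.H26.HP

open Pool.Agent.H89.Perc

variable {ω ω' : Config} {D X S : Set Vert} {R : ℕ} {q : I}

/-- `S` is a cluster of `D`. -/
def IsClus (D S : Set Vert) : Set Config := {ω | ∃ u ∈ S, clus ω D {u} = S}

lemma localOn_isClus (hD : D ⊆ ball 0 R) : LocalOn (eTouch R D S) (IsClus D S) := by
  rintro ω ω' h ⟨u, hu, hc⟩
  exact ⟨u, hu, localOn_full hD ω ω' h hc⟩

/-- The expected number of clusters of `D` in the family `F`. -/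
noncomputable def EN (q : I) (D : Set Vert) (F : Finset (Finset Vert)) : ℝ :=
  ∑ T ∈ F, Pr q (IsClus D T)

/-- If each cluster of the family is alone with probability at least `c`, then the expected number
of clusters is at most `c⁻¹ P(B)`. -/
theorem EN_le (hD : D ⊆ ball 0 R) {F : Finset (Finset Vert)} {B : Set Config}
    {G : Set Vert → Set Config} {c : ℝ} (lG : ∀ S, LocalOn (eIn R (D \ S)) (G S))
    (hc : ∀ T ∈ F, c ≤ Pr q (G T))
    (hu : ∀ ω, ∀ T ∈ F, ∀ T' ∈ F, ω ∈ IsClus D T → ω ∈ G T → ω ∈ IsClus D T' → ω ∈ G T' → T = T')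
    (hB : ∀ ω, ∀ T ∈ F, ω ∈ IsClus D T → ω ∈ G T → ω ∈ B) :
    c * EN q D F ≤ Pr q B := by
  classical
  have h2 : ∑ T ∈ F, Pr q (IsClus D T ∩ G T) ≤ Pr q B := by
    have hd : Set.PairwiseDisjoint (↑F) (fun T : Finset Vert => IsClus D (↑T : Set Vert) ∩ G T) := by
      intro T1 hT1 T2 hT2 hne
      rw [Function.onFun, Set.disjoint_left]
      rintro ω ⟨k1, k2⟩ ⟨k3, k4⟩
      exact hne (hu ω T1 hT1 T2 hT2 k1 k2 k3 k4)
    have hm : ∀ T ∈ F, MeasurableSet (IsClus D (↑T : Set Vert) ∩ G T) :=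
      fun T _ => ((localOn_isClus hD).inter' (lG T)).measurableSet
    have := measureReal_biUnion_finset (μ := μ q) hd hm
    unfold Pr
    rw [← this]
    refine measureReal_mono ?_
    intro ω hω
    simp only [Set.mem_iUnion] at hω
    obtain ⟨T, hT, k1, k2⟩ := hω
    exact hB ω T hT k1 k2
  refine le_trans ?_ h2
  rw [EN, Finset.mul_sum]
  refine Finset.sum_le_sum fun T hT => ?_
  rw [Pr_inter_of_disjoint (localOn_isClus hD) (lG T) eTouch_disjoint, mul_comm]
  exact mul_le_mul_of_nonneg_left (hc T hT) Pr_nonneg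

/-- Upper bound by the expected number of clusters times the conditional probability of the rest. -/
theorem le_EN (hD : D ⊆ ball 0 R) {F : Finset (Finset Vert)} {A : Set Config}
    {G : Set Vert → Set Config} {δ : ℝ} (lG : ∀ S, LocalOn (eIn R (D \ S)) (G S))
    (hδ : ∀ T ∈ F, Pr q (G T) ≤ δ) (hA : ∀ ω ∈ A, ∃ T ∈ F, ω ∈ IsClus D T ∧ ω ∈ G T) :
    Pr q A ≤ EN q D F * δ := by
  classical
  calc Pr q A ≤ Pr q (⋃ T ∈ F, (IsClus D (↑T : Set Vert) ∩ G T)) := by
        refine Pr_mono fun ω hω => ?_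
        simp only [Set.mem_iUnion]
        obtain ⟨T, hT, h1, h2⟩ := hA ω hω
        exact ⟨T, hT, h1, h2⟩
    _ ≤ ∑ T ∈ F, Pr q (IsClus D (↑T : Set Vert) ∩ G T) := Pr_biUnion_le _ _
    _ ≤ ∑ T ∈ F, Pr q (IsClus D (↑T : Set Vert)) * δ := by
        refine Finset.sum_le_sum fun T hT => ?_
        rw [Pr_inter_of_disjoint (localOn_isClus hD) (lG T) eTouch_disjoint]
        exact mul_le_mul_of_nonneg_left (hδ T hT) Pr_nonneg
    _ = EN q D F * δ := by rw [EN, Finset.sum_mul]

lemma isClus_unique {S T : Set Vert} (h1 : ω ∈ IsClus D S) (h2 : ω ∈ IsClus D T) {v : Vert}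
    (hS : v ∈ S) (hT : v ∈ T) : S = T := by
  obtain ⟨u, _, rfl⟩ := h1
  obtain ⟨w, _, rfl⟩ := h2
  obtain ⟨_, rfl, hu⟩ := hS
  obtain ⟨_, rfl, hw⟩ := hT
  ext z
  constructor
  · rintro ⟨_, rfl, h⟩
    exact ⟨_, rfl, (hw.trans hu.symm).trans h⟩
  · rintro ⟨_, rfl, h⟩
    exact ⟨_, rfl, (hu.trans hw.symm).trans h⟩

lemma isClus_clus {u : Vert} (hu : u ∈ D) : ω ∈ IsClus D (clus ω D {u}) :=
  ⟨u, ⟨u, rfl, Conn.refl hu⟩, rfl⟩

/-- Two points of a cluster are joined. -/
lemma isClus_conn (h : ω ∈ IsClus D S) {u v : Vert} (hu : u ∈ S) (hv : v ∈ S) :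
    Conn ω D u v := by
  obtain ⟨w, _, rfl⟩ := h
  obtain ⟨_, rfl, h1⟩ := hu
  obtain ⟨_, rfl, h2⟩ := hv
  exact h1.symm.trans h2

lemma isClus_closed (h : ω ∈ IsClus D S) {u v : Vert} (hu : u ∈ S) (hc : Conn ω D u v) :
    v ∈ S := by
  obtain ⟨w, _, rfl⟩ := h
  obtain ⟨_, rfl, h1⟩ := hu
  exact ⟨_, rfl, h1.trans hc⟩

lemma isClus_subset (h : ω ∈ IsClus D S) : S ⊆ D := by
  obtain ⟨w, _, rfl⟩ := h
  exact clus_subset

lemma isClus_off (h : ω ∈ IsClus D S) {u v : Vert} (hu : u ∉ S) (hc : Conn ω D u v) :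
    Conn ω (D \ S) u v := by
  obtain ⟨w, _, rfl⟩ := h
  exact conn_off hu hc

end Pool.Agent.H26.HP

end

section

/-!
# Probabilistic tools

Conditioning on the edges of a (possibly infinite) set `t`, and on the value of a random set.
-/

open MeasureTheory ProbabilityTheory unitInterval

namespace Pool.Agent.H59.EX

open Pool.Agent.H89.Perc

variable {q : I} {Λ : Finset Edge} {t : Set Edge} {A G H : Set Config}

/-- Conditioning on the value of `X`, increasing version. -/
theorem markov_incr {ι : Type*} {c : ℝ} (X : Config → ι) (Good : ι → Prop) (t : ι → Set Edge)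
    (A G H : ι → Set Config) (hX : ∀ i, LocalOn Λ {ω | X ω = i})
    (hX' : ∀ i, Good i → LocS (t i) {ω | X ω = i})
    (hA : ∀ i, LocalOn Λ (A i)) (hA' : ∀ i, Good i → LocS (t i) (A i))
    (hG : ∀ i, LocalOn Λ (G i)) (iG : ∀ i, Good i → Incr (G i))
    (hH : ∀ i, LocalOn Λ (H i)) (hH' : ∀ i, Good i → LocS (t i)ᶜ (H i))
    (iH : ∀ i, Good i → Incr (H i)) (hc : ∀ i, Good i → c ≤ Pr q (H i)) (hc0 : 0 ≤ c) :
    c * Pr q {ω | Good (X ω) ∧ ω ∈ A (X ω) ∧ ω ∈ G (X ω)} ≤
      Pr q {ω | Good (X ω) ∧ ω ∈ A (X ω) ∧ ω ∈ G (X ω) ∧ ω ∈ H (X ω)} := by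
  have _ := hc0
  refine markov_sum (q := q) (c := c) X Good (fun i => A i ∩ G i) (fun i => A i ∩ (G i ∩ H i)) hX
    (fun i => (hA i).inter (hG i)) (fun i => (hA i).inter ((hG i).inter (hH i))) ?_
  intro i hi
  have h1 : LocS (t i) ({ω | X ω = i} ∩ A i) :=
    fun ω ω' h hω => ⟨hX' i hi ω ω' h hω.1, hA' i hi ω ω' h hω.2⟩
  have h2 := fkg_cond (q := q) ((hX i).inter (hA i)) h1 (hG i) (iG i hi) (hH i) (hH' i hi)
    (iH i hi)
  have h3 : ({ω | X ω = i} ∩ A i) ∩ G i ∩ H i = {ω | X ω = i} ∩ (A i ∩ (G i ∩ H i)) := by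
    simp only [Set.inter_assoc]
  have h4 : ({ω | X ω = i} ∩ A i) ∩ G i = {ω | X ω = i} ∩ (A i ∩ G i) := by
    simp only [Set.inter_assoc]
  rw [h3, h4] at h2
  refine le_trans ?_ h2
  rw [mul_comm]
  exact mul_le_mul_of_nonneg_left (hc i hi) Pr_nonneg

/-- The same with filled edges inside `Z ⊆ S`. -/
theorem locS_clus_fill {D X S Z : Set Vert} (hZ : Z ⊆ S) :
    LocS (touch D S \ inE Z) {ω | clus (fillV Z ω) D X = S} := by
  have _ := hZ
  intro ω ω' h hω
  refine locS_clus D X S (fillV Z ω) (fillV Z ω') (fun e he => ?_) hω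
  unfold fillV
  by_cases hez : e ∈ inE Z
  · simp [hez]
  · rw [h e ⟨he, hez⟩]

end Pool.Agent.H59.EX

end

section

/-!
# The corridor lemma

`pb π ω` is the configuration `e ↦ ω (π e)`; `π = id` for the plane, the reduction modulo the
periods (and a translation) for the torus and for the cylinder.  Given a separated four-arm event,
increasing events inside the corridor `C` and arbitrary events `H` of the edges which are neither
inside `C` nor touch the two clusters (in the configuration with filled targets) can be added at the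
cost of constant factors.
-/

open MeasureTheory ProbabilityTheory unitInterval

namespace Pool.Agent.H59.EX

open Pool.Agent.H89.Perc

end Pool.Agent.H59.EX

end

section

/-!
# Seals: confinement of clusters by closed annuli (purely graph-theoretic)
-/

open MeasureTheory ProbabilityTheory unitInterval

namespace Pool.Agent.H59.EX

open Pool.Agent.H89.Perc

theorem mem_grid {ρ K : ℕ} {i j : ℤ} (hi : |i| ≤ K) (hj : |j| ≤ K) :
    (((ρ : ℤ) * i, (ρ : ℤ) * j) : Vert) ∈ grid ρ K := by
  rw [abs_le] at hi hj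
  have h : ((i, j) : ℤ × ℤ) ∈ Finset.Icc (-(K : ℤ)) K ×ˢ Finset.Icc (-(K : ℤ)) K :=
    Finset.mem_product.2 ⟨Finset.mem_Icc.2 hi, Finset.mem_Icc.2 hj⟩
  exact Finset.mem_image_of_mem (fun z : ℤ × ℤ => (((ρ : ℤ) * z.1, (ρ : ℤ) * z.2) : Vert)) h

/-- The grid is `ρ`-dense in `ball 0 (K ρ)`. -/
theorem exists_grid {ρ K : ℕ} (hρ : 1 ≤ ρ) {v : Vert} (hv : v ∈ ball 0 (K * ρ)) :
    ∃ g ∈ grid ρ K, v ∈ ball g ρ := by
  have h1 : ∀ a : ℤ, |a| ≤ (K * ρ : ℕ) → ∃ i : ℤ, |i| ≤ K ∧ (ρ : ℤ) * i - ρ ≤ a ∧ a ≤ ρ * i + ρ := by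
    intro a ha
    have hρ0 : (0 : ℤ) < ρ := by exact_mod_cast hρ
    rw [abs_le] at ha
    push_cast at ha
    rcases le_total 0 a with h0 | h0
    · refine ⟨a / ρ, ?_, ?_, ?_⟩
      · rw [abs_le]
        refine ⟨le_trans (by omega) (Int.ediv_nonneg h0 hρ0.le), ?_⟩
        exact Int.ediv_le_of_le_mul hρ0 ha.2
      · have := Int.mul_ediv_self_le (x := a) (k := ρ) hρ0.ne'
        omega
      · have := Int.lt_mul_ediv_self_add (x := a) (k := ρ) hρ0
        omega
    · refine ⟨-((-a) / ρ), ?_, ?_, ?_⟩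
      · rw [abs_neg, abs_le]
        refine ⟨le_trans (by omega) (Int.ediv_nonneg (by omega) hρ0.le), ?_⟩
        exact Int.ediv_le_of_le_mul hρ0 (by omega)
      · have := Int.lt_mul_ediv_self_add (x := -a) (k := ρ) hρ0
        have h2 : (ρ : ℤ) * -(-a / ρ) = -(ρ * (-a / ρ)) := by ring
        omega
      · have := Int.mul_ediv_self_le (x := -a) (k := ρ) hρ0.ne'
        have h2 : (ρ : ℤ) * -(-a / ρ) = -(ρ * (-a / ρ)) := by ring
        omega
  rw [mem_ball] at hv
  simp only [Prod.fst_zero, Prod.snd_zero, zero_sub, zero_add] at hv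
  obtain ⟨i, hi, hi1, hi2⟩ := h1 v.1 (abs_le.2 ⟨hv.1, hv.2.1⟩)
  obtain ⟨j, hj, hj1, hj2⟩ := h1 v.2 (abs_le.2 ⟨hv.2.2.1, hv.2.2.2⟩)
  refine ⟨_, mem_grid hi hj, ?_⟩
  rw [mem_ball]
  exact ⟨hi1, hi2, hj1, hj2⟩

/-- **Seal lemma.**  `η` is a configuration which is below `ω` off `t`; open edges of `η` leave `S`
only at the vertices of `Ex`, do not enter `F` from `S`, and enter `F` from elsewhere only far from
`Ex`; open edges off `S ∪ F` are not in `t`.  If `ω` is sealed near `Ex`, then the cluster of `S`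
stays near `S` and off `F`. -/
theorem seal_confine {η ω : Config} {W S F Ex : Set Vert} {t : Set Edge} {G : Finset Vert} {ρ : ℕ}
    (hηω : ∀ e, e ∉ t → η e = true → ω e = true)
    (hseal : ω ∈ Seal G ρ t)
    (hG : ∀ a ∈ Ex, ∃ g ∈ G, a ∈ ball g ρ)
    (h1 : ∀ a b e, Joins e a b → η e = true → a ∈ W → b ∈ W → a ∈ S → b ∉ S →
      a ∈ Ex ∧ b ∉ F ∧ e ∉ t)
    (h2 : ∀ a b e, Joins e a b → η e = true → a ∈ W → b ∈ W → a ∉ S → a ∉ F → b ∈ F →
      ∀ x ∈ Ex, b ∉ ball x (4 * ρ))
    (h3 : ∀ a b e, Joins e a b → η e = true → a ∈ W → b ∈ W → a ∉ S → a ∉ F → b ∉ S → b ∉ F →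
      e ∉ t)
    (h4 : ∀ a b e, Joins e a b → η e = true → a ∈ W → b ∈ W → a ∉ S → a ∉ F → b ∈ F → e ∉ t)
    {x z : Vert} (hx : x ∈ S) (h : Conn η W x z) :
    z ∈ S ∨ (z ∉ F ∧ ∃ a ∈ Ex, z ∈ ball a (4 * ρ)) := by
  have key : z ∈ S ∨ (z ∉ S ∧ z ∉ F ∧ ∃ a ∈ Ex, Conn (closeS t ω) Set.univ a z) := by
    refine h.induction_right
      (P := fun z => z ∈ S ∨ (z ∉ S ∧ z ∉ F ∧ ∃ a ∈ Ex, Conn (closeS t ω) Set.univ a z))
      (Or.inl hx) ?_
    rintro a b _ ⟨haW, hbW, e, hj, ho⟩ ih
    have hopen : e ∉ t → (closeS t ω) e = true := by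
      intro het
      simp only [closeS, Bool.and_eq_true, decide_eq_true_eq]
      exact ⟨hηω e het ho, het⟩
    by_cases hbS : b ∈ S
    · exact Or.inl hbS
    rcases ih with haS | ⟨haS, haF, c, hc, hcc⟩
    · obtain ⟨k1, k2, k3⟩ := h1 a b e hj ho haW hbW haS hbS
      exact Or.inr ⟨hbS, k2, a, k1, (Step.conn ⟨trivial, trivial, e, hj, hopen k3⟩)⟩
    · by_cases hbF : b ∈ F
      · exfalso
        have hcb : Conn (closeS t ω) Set.univ c b :=
          hcc.tail ⟨trivial, trivial, e, hj, hopen (h4 a b e hj ho haW hbW haS haF hbF)⟩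
        obtain ⟨g, hg, hcg⟩ := hG c hc
        have hb : b ∈ ball g (3 * ρ) := by
          by_contra hb
          exact hseal g hg c hcg b hb hcb
        refine h2 a b e hj ho haW hbW haS haF hbF c hc ?_
        rw [mem_ball] at hb hcg ⊢
        push_cast at hb ⊢
        omega
      · exact Or.inr ⟨hbS, hbF, c, hc, hcc.tail ⟨trivial, trivial, e, hj,
          hopen (h3 a b e hj ho haW hbW haS haF hbS hbF)⟩⟩
  rcases key with h | ⟨-, hF, a, ha, hac⟩
  · exact Or.inl h
  · refine Or.inr ⟨hF, a, ha, ?_⟩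
    obtain ⟨g, hg, hag⟩ := hG a ha
    have hz : z ∈ ball g (3 * ρ) := by
      by_contra hz
      exact hseal g hg a hag z hz hac
    rw [mem_ball] at hz hag ⊢
    push_cast at hz ⊢
    omega

theorem seal_anti {G : Finset Vert} {ρ : ℕ} {t : Set Edge} {ω ω' : Config}
    (h : ω' ∈ Seal G ρ t) (hω : ∀ e, e ∉ t → ω e = true → ω' e = true) : ω ∈ Seal G ρ t := by
  intro g hg u hu v hv hc
  refine h g hg u hu v hv (hc.mono le_rfl ?_)
  intro e he
  simp only [closeS, Bool.and_eq_true, decide_eq_true_eq] at he ⊢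
  exact ⟨hω e he.2 he.1, he.2⟩

theorem locS_seal (G : Finset Vert) (ρ : ℕ) (t : Set Edge) : LocS tᶜ (Seal G ρ t) := by
  intro ω ω' h hω
  refine seal_anti hω fun e he ho => ?_
  rw [h e he]
  exact ho

theorem seal_decr (G : Finset Vert) (ρ : ℕ) (t : Set Edge) : Incr (Seal G ρ t)ᶜ := by
  intro ω ω' h hω hω'
  exact hω (seal_anti hω' fun e _ he => h e he)

end Pool.Agent.H59.EX

end
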