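import Pool.Agent.H94.BG.H31.PT.M03_3
import Pool.Agent.H94.BG.H31.PT.M07_3
import Pool.Agent.H94.BG.M19

/-! The parts of this file: H83.Site.Defs, H83.Site.TProb, H83.Site.DualN, H83.Site.Glue, H83.Site.Circ, H83.Site.DualE, H83.Site.Low, H83.Site.Expl, H83.Site.Renorm, H83.Site.ABLower, H83.Site.Transfer, H83.SK.Base, H92.SN.Defs, H83.SK.P29.Rect, H83.SK.P29.CircProb, H13.SK.BlockL1, H13.SK.BlockEv, H83.SK.Tor, H83.SK.Iface, H83.SK.PHP.Expl, H83.SK.P29.ExplB. -/

section

/-!
# Site percolation on the centred square lattice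

The vertices of the centred lattice `T` are the sites `(x, y, false)` of `ℤ²` and the centres
`(x, y, true)` of the unit squares `[x, x + 1] × [y, y + 1]`. Sites are adjacent to their four
nearest neighbours and every centre is adjacent to the four corners of its square. This is a
triangulation of the plane. A configuration is a function `Edge → Bool` (`Edge = ℤ × ℤ × Bool`
is used here as the set of vertices of `T`); `full r ω` is the configuration in which all centres
have the state `r`. Open paths of `full false ω` are nearest neighbour paths of open sites, open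
paths of `full true ω` are paths of open sites with diagonal steps.
-/

set_option autoImplicit false

open MeasureTheory ProbabilityTheory unitInterval

namespace Pool.Agent.H83.Site

open Pool.Agent.H89.Perc

/-! ### Geometry -/

/-! ### Paths -/

variable {η η' : Config} {S T : Set TV} {u v w : TV}

theorem neg_full (r : Bool) (ω : Config) : neg (full r ω) = full (!r) (neg ω) := by
  funext v
  simp only [neg, full]
  split <;> rfl

end Pool.Agent.H83.Site

end

section

/-!
# Probability of events of site percolation on the centred lattice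
-/

set_option autoImplicit false

open MeasureTheory ProbabilityTheory unitInterval

namespace Pool.Agent.H83.Site

open Pool.Agent.H89.Perc

variable {p q : I} {r : Bool} {E F : Set Config} {s t : Finset Edge}

/-! ### Local and increasing events -/

theorem Incr.neg_compl (h : Incr E) : Incr {η | neg η ∈ E}ᶜ := by
  intro ω ω' hω hE hE'
  refine hE (h _ _ (fun e he => ?_) hE')
  simp only [neg, Bool.not_eq_true'] at he ⊢
  by_contra hc
  rw [Bool.not_eq_false] at hc
  rw [hω _ hc] at he
  exact absurd he (by decide)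

/-! ### Elementary properties of `PT` -/

/-! ### Symmetries -/

/-! ### Paths and squares -/

/-! ### Square root trick -/

end Pool.Agent.H83.Site

end

section

/-! # Duality: open horizontal and closed vertical crossings do not coexist

The centred lattice `T` is drawn in the square lattice `ℤ²`, scaled by 3: the site `(x, y)` at
`(3 x, 3 y)` and the centre `(x, y)` at `(3 x + 1, 3 y + 1)`. Every vertex of the fine lattice has a
label, a vertex of `T`, such that every edge `u v` of `T` is drawn as a path of vertices with the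
labels `u` and `v`. An open horizontal and a closed vertical crossing give two paths in the fine
lattice which cross (`Pool.Agent.H89.Perc.cross`), in a vertex whose label is both open and closed.
-/

set_option autoImplicit false

namespace Pool.Agent.H83.Site

open Pool.Agent.H89.Perc

end Pool.Agent.H83.Site

end

section

/-! # Paths which cross a rectangle in different directions meet -/

set_option autoImplicit false

namespace Pool.Agent.H83.Site

open Pool.Agent.H89.Perc

/-! ### Indicator of a cluster -/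

/-! ### The extension by one column -/

/-! ### The mirror image -/

end Pool.Agent.H83.Site

end

section

/-! # Circuits in annuli -/

set_option autoImplicit false

open MeasureTheory ProbabilityTheory unitInterval

namespace Pool.Agent.H83.Site

open Pool.Agent.H89.Perc

end Pool.Agent.H83.Site

end

section

/-! # Duality: an open horizontal or a closed vertical crossing exists -/

set_option autoImplicit false

namespace Pool.Agent.H83.Site

open Pool.Agent.H89.Perc

end Pool.Agent.H83.Site

end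

section

/-! # The lowest crossing of a rectangle -/

set_option autoImplicit false

namespace Pool.Agent.H83.Site

open Pool.Agent.H89.Perc

/-! ### Auxiliary facts -/

end Pool.Agent.H83.Site

end

section

/-! # Conditioning on the lowest crossing -/

set_option autoImplicit false

open MeasureTheory ProbabilityTheory unitInterval

namespace Pool.Agent.H83.Site

open Pool.Agent.H89.Perc

/-! ### Auxiliary facts -/

end Pool.Agent.H83.Site

end

section

/-! # Renormalisation of crossing probabilities -/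

set_option autoImplicit false

open MeasureTheory ProbabilityTheory unitInterval

namespace Pool.Agent.H83.Site

open Pool.Agent.H89.Perc

end Pool.Agent.H83.Site

end

section

/-! # Lower bound for arm probabilities by the van den Berg-Kesten inequality -/

set_option autoImplicit false

open MeasureTheory ProbabilityTheory unitInterval

namespace Pool.Agent.H83.Site

open Pool.Agent.H89.Perc

/-! ### Disjoint occurrence -/

/-! ### Splitting of a self-avoiding path -/

/-! ### The configuration of the sites of a set -/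

end Pool.Agent.H83.Site

end

section

/-!
# Transfer to site percolation on `ℤ × ℤ`
-/

set_option autoImplicit false

open MeasureTheory ProbabilityTheory unitInterval

namespace Pool.Agent.H83.Site

open Pool.Agent.H89.Perc

variable {r : Bool} {ω : ℤ × ℤ → Bool}

section graph

variable {G : SimpleGraph (ℤ × ℤ)}

/-- The cluster of the origin is infinite if and only if the origin is joined to all
distances. -/
theorem infinite_iff (hG : ∀ u v, G.Adj u v ↔ ω u = true ∧ ω v = true ∧ SA r u v) :
    {v | G.Reachable (0, 0) v}.Infinite ↔ ∀ n, full r (extS ω) ∈ AB 0 0 0 n := by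
  constructor
  · intro hinf n
    -- a point of the cluster outside of the box
    have hfin : (Set.Icc ((-n : ℤ), (-n : ℤ)) ((n : ℤ), (n : ℤ))).Finite := Set.finite_Icc _ _
    obtain ⟨v, hv, hvn⟩ := hinf.exists_notMem_finite hfin
    have hne : v ≠ (0, 0) := by
      rintro rfl
      apply hvn
      rw [Set.mem_Icc]
      exact ⟨⟨by simp, by simp⟩, ⟨by simp, by simp⟩⟩
    have hvr : G.Reachable (0, 0) v := hv
    have h0 : ω (0, 0) = true := by
      rw [SimpleGraph.reachable_iff_reflTransGen] at hvr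
      rcases Relation.ReflTransGen.cases_head hvr with h | ⟨c, h, -⟩
      · exact absurd h.symm hne
      · exact ((hG _ _).1 h).1
    have hc := tconn_of_reachable hG h0 hvr
    have hvn' : (v.1, v.2, false) ∉ TR (0 - n) (0 + n) (0 - n) (0 + n) := by
      rw [mem_TR_site]
      intro h
      apply hvn
      rw [Set.mem_Icc]
      exact ⟨⟨by simp only; omega, by simp only; omega⟩, ⟨by simp only; omega, by simp only; omega⟩⟩
    have h0n : ((0 : ℤ), (0 : ℤ), false) ∈ TR (0 - n) (0 + n) (0 - n) (0 + n) := by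
      rw [mem_TR_site]; omega
    obtain ⟨w, w', h1, h2, h3, -⟩ := hc.exists_exit h0n hvn'
    rw [Set.univ_inter] at h1
    have hw := h1.mem_right
    have hs : w ∈ sph 0 0 n := by
      rw [mem_TR] at hw
      rw [mem_TR] at h3
      have hadj := h2.2.2.1
      have e1 : fx w < 2 * (0 + n) → fx w' ≤ 2 * (0 + n) := hadj.fx_le
      have e2 : 2 * (0 - n) < fx w → 2 * (0 - n) ≤ fx w' := hadj.le_fx
      have e3 : fy w < 2 * (0 + n) → fy w' ≤ 2 * (0 + n) := hadj.fy_le
      have e4 : 2 * (0 - n) < fy w → 2 * (0 - n) ≤ fy w' := hadj.le_fy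
      have h5 : fx w = 2 * (0 - n) ∨ fx w = 2 * (0 + n) ∨ fy w = 2 * (0 - n) ∨
          fy w = 2 * (0 + n) := by
        by_contra hcon
        push Not at hcon
        apply h3
        refine ⟨e2 ?_, e1 ?_, e4 ?_, e3 ?_⟩ <;> omega
      refine ⟨h1.mem_right, ?_, ?_⟩
      · rcases h5 with h | h | h | h
        · exact (site_of_fx h).1
        · exact (site_of_fx h).1
        · exact (site_of_fy h).1
        · exact (site_of_fy h).1
      · rcases h5 with h | h | h | h
        · left; exact (site_of_fx h).2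
        · right; left; exact (site_of_fx h).2
        · right; right; left; exact (site_of_fy h).2
        · right; right; right; exact (site_of_fy h).2
    refine ⟨(0, 0, false), ?_, w, hs, h1⟩
    rw [mem_TR_site]; omega
  · intro h hfin
    -- all points of the cluster are bounded
    obtain ⟨N, hN⟩ : ∃ N : ℕ, ∀ v ∈ {v | G.Reachable (0, 0) v}, |v.1| < N ∧ |v.2| < N := by
      obtain ⟨B, hB⟩ := (hfin.image fun v : ℤ × ℤ => max |v.1| |v.2|).bddAbove
      refine ⟨(B + 1).toNat, fun v hv => ?_⟩
      have h1 : max |v.1| |v.2| ≤ B := hB ⟨v, hv, rfl⟩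
      have h2 := le_max_left |v.1| |v.2|
      have h3 := le_max_right |v.1| |v.2|
      have h4 := abs_nonneg v.1
      have h5 := Int.self_le_toNat (B + 1)
      constructor <;> omega
    obtain ⟨u, hu, w, ⟨-, hws, hw⟩, hc⟩ := h N
    obtain ⟨u1, u2, u3⟩ := u
    have hu' : u3 = false ∧ u1 = 0 ∧ u2 = 0 := by
      cases u3
      · rw [mem_TR_site] at hu
        exact ⟨rfl, by omega, by omega⟩
      · rw [mem_TR_cen] at hu
        omega
    obtain ⟨rfl, rfl, rfl⟩ := hu'
    obtain ⟨w1, w2, w3⟩ := w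
    simp only at hws
    subst hws
    have ho : ω (w1, w2) = true := by
      have := hc.open_right
      rwa [full_site] at this
    have hr := reachable_of_tconn (u := (0, 0)) hG hc (w1, w2) (by simp [crn]) ho
    have h1 := hN (w1, w2) hr
    simp only [abs_lt] at h1
    simp only at hw
    omega

end graph

/-- The percolation probability of the two site percolation models. -/
theorem theta_transfer (p : I) (r : Bool) (G : (ℤ × ℤ → Bool) → SimpleGraph (ℤ × ℤ))
    (hG : ∀ ω u v, (G ω).Adj u v ↔ ω u = true ∧ ω v = true ∧ SA r u v) :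
    (Measure.infinitePi (fun _ : ℤ × ℤ => bernoulliMeasure true false p)).real
      {ω | {v | (G ω).Reachable (0, 0) v}.Infinite} = thT p r := by
  have hset : {ω | {v | (G ω).Reachable (0, 0) v}.Infinite} =
      extS ⁻¹' {ω | ∀ n, full r ω ∈ AB 0 0 0 n} := by
    ext ω
    simp only [Set.mem_ofPred_eq, Set.mem_preimage]
    exact infinite_iff (hG ω)
  have hext : Measurable extS := by
    refine measurable_pi_lambda _ fun v => ?_
    exact measurable_pi_apply (v.1, v.2.1)
  have hres : Measurable resS := by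
    refine measurable_pi_lambda _ fun v => ?_
    exact measurable_pi_apply (v.1, v.2, false)
  have hT : MeasurableSet {ω : Config | ∀ n, full r ω ∈ AB 0 0 0 n} := by
    have : {ω : Config | ∀ n, full r ω ∈ AB 0 0 0 n} = ⋂ n, {ω | full r ω ∈ AB 0 0 0 n} := by
      ext ω; simp
    rw [this]
    exact MeasurableSet.iInter fun n => (localOn_full r (localOn_AB 0 0 0 n)).measurableSet
  rw [hset, ← map_resS, map_measureReal_apply hres (hext hT)]
  unfold thT PT Pr
  congr 1
  ext ω
  simp only [Set.mem_preimage, Set.mem_ofPred_eq, full_extS_resS]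

end Pool.Agent.H83.Site

end

section

/-!
# Site percolation through the induced bond configuration

Site configurations are stored at the edges `(x, y, false)` of the lattice. `sit ω` is the induced
bond configuration: an edge is open if both endpoints are open sites. `Pr p A` is the probability
that the induced configuration is in `A`, when the sites are open with probability `p`.
-/

set_option autoImplicit false

open MeasureTheory ProbabilityTheory unitInterval

namespace Pool.Agent.H83.SK

open Pool.Agent.H89.Perc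

variable {s t : Finset Edge} {A B : Set Config} {p q : I}

theorem Pr_biUnion_le {ι : Type*} (F : Finset ι) (A : ι → Set Config) :
    Pr p (⋃ i ∈ F, A i) ≤ ∑ i ∈ F, Pr p (A i) := by
  unfold Pr
  have h : {ω | sit ω ∈ ⋃ i ∈ F, A i} = ⋃ i ∈ F, {ω | sit ω ∈ A i} := by
    ext ω
    simp
  rw [h]
  exact Pool.Agent.H89.Perc.Pr_biUnion_le F _

/-! ### Symmetries -/

/-! ### One-arm events -/

/-! ### The box-crossing regime -/

end Pool.Agent.H83.SK

end

section

/-!
# Near-critical site percolation: definitions and interfaces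

Four-arm events are sets of bond configurations (used for `sit w`), torus events are sets of site
configurations. `a4 q r` is the probability that the origin has two neighbours which are joined to
distance `r` by open paths avoiding the origin and which are not joined to each other by such a
path.
-/

set_option autoImplicit false

open MeasureTheory ProbabilityTheory unitInterval

namespace Pool.Agent.H92.SN

open Pool.Agent.H89.Perc Pool.Agent.H61.NC
open Pool.Agent.H83.SK (sv sit)

/-! ### Interfaces -/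

/-! ### The connection of the neighbours of a site -/

/-- `tau` as a function on the real line (`0` outside the unit interval). -/
noncomputable def tauR (x : ℝ) : ℝ := by
  classical exact if h : x ∈ I then tau ⟨x, h⟩ else 0

/-- The torus version of `tau`. -/
noncomputable def tauT (N : ℕ) (q : I) : ℝ := ∑ i ∈ Finset.Icc 1 3, Pr q (DT N i)

end Pool.Agent.H92.SN

end

section

/-!
# Site percolation, RSW regime: crossings of all rectangles of bounded aspect ratio, both colours
-/

open MeasureTheory ProbabilityTheory unitInterval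

namespace Pool.Agent.H83.SK

open Pool.Agent.H89.Perc Pool.Agent.H85.Strict

end Pool.Agent.H83.SK

end

section

/-!
# RSW regime: probability of open circuits
-/

open MeasureTheory ProbabilityTheory unitInterval

namespace Pool.Agent.H83.SK

open Pool.Agent.H29.Sep

open Pool.Agent.H89.Perc

end Pool.Agent.H83.SK

end

section

/-!
# Level-one inequality for block explorations
-/

set_option autoImplicit false

open MeasureTheory ProbabilityTheory unitInterval

namespace Pool.Agent.H13.SK

open Pool.Agent.H89.Perc Pool.Agent.H85.Kes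
open Pool.Agent.Perc (Ex ind ind_of ind_of_not)

variable {κ : Type*} [DecidableEq κ] {s : Finset Edge} {β : Edge → κ} {R : BRule κ}

/-- The edges of the blocks outside `D`. -/
def fr (s : Finset Edge) (β : Edge → κ) (D : Finset κ) : Finset Edge :=
  s.filter (fun e => β e ∉ D)

theorem mem_fr {D : Finset κ} {e : Edge} : e ∈ fr s β D ↔ e ∈ s ∧ β e ∉ D := by
  rw [fr, Finset.mem_filter]

theorem blk_subset_fr {D : Finset κ} {b : κ} (hb : b ∉ D) : blk s β b ⊆ fr s β D := by
  intro e he
  rw [mem_blk] at he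
  rw [mem_fr]
  exact ⟨he.1, by rw [he.2]; exact hb⟩

theorem disj_blk_fr (D : Finset κ) (b : κ) : Disjoint (blk s β b) (fr s β (insert b D)) := by
  rw [Finset.disjoint_left]
  intro e he he'
  rw [mem_blk] at he
  rw [mem_fr, Finset.mem_insert, not_or] at he'
  exact he'.2.1 he.2

theorem blk_union_fr {D : Finset κ} {b : κ} (hb : b ∉ D) :
    blk s β b ∪ fr s β (insert b D) = fr s β D := by
  ext e
  rw [Finset.mem_union, mem_blk, mem_fr, mem_fr, Finset.mem_insert]
  constructor
  · rintro (h | h)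
    · exact ⟨h.1, by rw [h.2]; exact hb⟩
    · exact ⟨h.1, fun h' => h.2 (Or.inr h')⟩
  · rintro ⟨h1, h2⟩
    by_cases h : β e = b
    · exact Or.inl ⟨h1, h⟩
    · exact Or.inr ⟨h1, fun h' => h'.elim h h2⟩

theorem fr_insert_subset (D : Finset κ) (b : κ) : fr s β (insert b D) ⊆ fr s β D := by
  intro e he
  rw [mem_fr, Finset.mem_insert, not_or] at he
  rw [mem_fr]
  exact ⟨he.1, he.2.2⟩

/-- The revealed blocks when the unrevealed open edges are `S`. -/
def JJ (s : Finset Edge) (β : Edge → κ) (R : BRule κ) (n : ℕ) (D : Finset κ) (O S : Finset Edge) :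
    Finset κ := bFrom s β R (ofS (O ∪ S)) n (D, O)

theorem JJ_step {n : ℕ} {D : Finset κ} {O : Finset Edge} {b : κ} (hNe : R D O = some b)
    (hb : b ∉ D) (hO : ∀ e ∈ O, β e ∈ D) {T S : Finset Edge} (hT : T ⊆ blk s β b)
    (hS : S ⊆ fr s β (insert b D)) :
    JJ s β R (n + 1) D O (T ∪ S) = JJ s β R n (insert b D) (O ∪ T) S := by
  unfold JJ
  rw [bFrom_succ, bStep_some (x := (D, O)) hNe, ← Finset.union_assoc]
  congr 2
  congr 1
  ext e
  rw [Finset.mem_filter, ofS_eq_true, Finset.mem_union, Finset.mem_union]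
  constructor
  · rintro ⟨h1, (h2 | h2) | h2⟩
    · exfalso
      have h3 := hO e h2
      rw [mem_blk] at h1
      rw [h1.2] at h3
      exact hb h3
    · exact h2
    · exact absurd (hS h2) (Finset.disjoint_left.1 (disj_blk_fr D b) h1)
  · intro h
    exact ⟨hT h, Or.inl (Or.inr h)⟩

/-- The sum of the test functions of the revealed blocks. -/
noncomputable def XX (s : Finset Edge) (β : Edge → κ) (R : BRule κ) (T : Finset κ)
    (g : κ → Finset Edge → ℝ) (n : ℕ) (D : Finset κ) (O S : Finset Edge) : ℝ :=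
  ∑ b ∈ T \ D, if b ∈ JJ s β R n D O S then g b S else 0

variable {T : Finset κ} {g : κ → Finset Edge → ℝ}

theorem sdiff_insert_sum {D : Finset κ} {b : κ} (hb : b ∉ D) (h : κ → ℝ) :
    ∑ x ∈ T \ D, h x = (if b ∈ T then h b else 0) + ∑ x ∈ T \ insert b D, h x := by
  by_cases hT : b ∈ T
  · rw [if_pos hT]
    have h1 : T \ D = insert b (T \ insert b D) := by
      ext x
      simp only [Finset.mem_sdiff, Finset.mem_insert, not_or]
      constructor
      · rintro ⟨h1, h2⟩
        by_cases hx : x = b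
        · exact Or.inl hx
        · exact Or.inr ⟨h1, hx, h2⟩
      · rintro (rfl | ⟨h1, -, h2⟩)
        · exact ⟨hT, hb⟩
        · exact ⟨h1, h2⟩
    rw [h1, Finset.sum_insert (by simp)]
  · rw [if_neg hT, zero_add]
    refine Finset.sum_congr ?_ fun _ _ => rfl
    ext x
    simp only [Finset.mem_sdiff, Finset.mem_insert, not_or]
    constructor
    · rintro ⟨h1, h2⟩
      exact ⟨h1, fun hx => hT (hx ▸ h1), h2⟩
    · rintro ⟨h1, -, h2⟩
      exact ⟨h1, h2⟩

theorem LocG.own (hg : LocG s β T g) {D : Finset κ} {b : κ} (hb : b ∈ T) {T' S : Finset Edge}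
    (hT : T' ⊆ blk s β b) (hS : S ⊆ fr s β (insert b D)) : g b (T' ∪ S) = g b T' := by
  rw [hg b hb (T' ∪ S), hg b hb T']
  congr 1
  ext e
  simp only [Finset.mem_inter, Finset.mem_union]
  constructor
  · rintro ⟨h1 | h1, h2⟩
    · exact ⟨h1, h2⟩
    · exact absurd (hS h1) (Finset.disjoint_left.1 (disj_blk_fr D b) h2)
  · rintro ⟨h1, h2⟩
    exact ⟨Or.inl h1, h2⟩

theorem XX_step (hg : LocG s β T g) {n : ℕ} {D : Finset κ} {O : Finset Edge} {b : κ}
    (hNe : R D O = some b) (hb : b ∉ D) (hO : ∀ e ∈ O, β e ∈ D) {T' S : Finset Edge}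
    (hT : T' ⊆ blk s β b) (hS : S ⊆ fr s β (insert b D)) :
    XX s β R T g (n + 1) D O (T' ∪ S) =
      (if b ∈ T then g b T' else 0) + XX s β R T g n (insert b D) (O ∪ T') S := by
  unfold XX
  rw [sdiff_insert_sum hb, JJ_step hNe hb hO hT hS]
  have h1 : b ∈ JJ s β R n (insert b D) (O ∪ T') S :=
    subset_bFrom _ _ _ (Finset.mem_insert_self b D)
  congr 1
  · by_cases hbT : b ∈ T
    · rw [if_pos hbT, if_pos hbT, if_pos h1, hg.own hbT hT hS]
    · rw [if_neg hbT, if_neg hbT]
  · refine Finset.sum_congr rfl fun x hx => ?_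
    rw [Finset.mem_sdiff, Finset.mem_insert, not_or] at hx
    rw [hg.other hx.1 hx.2.1 hT]

theorem Ex_fr {p : ℝ} {D : Finset κ} {b : κ} (hb : b ∉ D) (h : Finset Edge → ℝ) :
    Ex p (fr s β D) h =
      Ex p (blk s β b) (fun T' => Ex p (fr s β (insert b D)) (fun S => h (T' ∪ S))) := by
  rw [← Pool.Agent.Perc.Ex_union (disj_blk_fr D b), blk_union_fr hb]

theorem card_step {K D : Finset κ} {b : κ} {n : ℕ} (hbK : b ∈ K) (hbD : b ∉ D)
    (hD : (K \ D).card ≤ n + 1) : (K \ insert b D).card ≤ n := by
  have h1 : K \ insert b D = (K \ D).erase b := by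
    ext x
    simp only [Finset.mem_sdiff, Finset.mem_insert, Finset.mem_erase, not_or]
    tauto
  rw [h1, Finset.card_erase_of_mem (Finset.mem_sdiff.2 ⟨hbK, hbD⟩)]
  omega

theorem O_step {D : Finset κ} {O T' : Finset Edge} {b : κ} (hO : ∀ e ∈ O, β e ∈ D)
    (hT : T' ⊆ blk s β b) : ∀ e ∈ O ∪ T', β e ∈ insert b D := by
  intro e he
  rcases Finset.mem_union.1 he with h | h
  · exact Finset.mem_insert_of_mem (hO e h)
  · have := hT h
    rw [mem_blk] at this
    rw [this.2]
    exact Finset.mem_insert_self _ _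

theorem XX_none {n : ℕ} {D : Finset κ} {O S : Finset Edge} (h : R D O = none) :
    XX s β R T g n D O S = 0 := by
  unfold XX
  refine Finset.sum_eq_zero fun b hb => ?_
  rw [if_neg]
  unfold JJ
  rw [bFrom_none (x := (D, O)) h]
  exact (Finset.mem_sdiff.1 hb).2

/-- Mean value. -/
theorem XX_mean {p : ℝ} {K : Finset κ} (hR : ∀ D O b, R D O = some b → b ∈ K ∧ b ∉ D)
    (hTK : T ⊆ K) (hg : LocG s β T g) (hmean : ∀ b ∈ T, Ex p (blk s β b) (g b) = 0) (n : ℕ) :
    ∀ (D : Finset κ) (O : Finset Edge), (K \ D).card ≤ n → (∀ e ∈ O, β e ∈ D) →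
      Ex p (fr s β D) (fun S => XX s β R T g n D O S) = 0 := by
  induction n with
  | zero =>
    intro D O hD _
    have hKD : K \ D = ∅ := Finset.card_eq_zero.1 (Nat.le_zero.1 hD)
    have hTD : T \ D = ∅ := by
      rw [Finset.sdiff_eq_empty_iff_subset] at hKD ⊢
      exact hTK.trans hKD
    unfold XX
    simp [hTD]
  | succ n ih =>
    intro D O hD hO
    rcases hNe : R D O with _ | b
    · simp [XX_none hNe]
    · obtain ⟨hbK, hbD⟩ := hR D O b hNe
      rw [Ex_fr hbD]
      have h1 : ∀ T', T' ⊆ blk s β b →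
          Ex p (fr s β (insert b D)) (fun S => XX s β R T g (n + 1) D O (T' ∪ S)) =
            if b ∈ T then g b T' else 0 := by
        intro T' hT'
        rw [Pool.Agent.Perc.Ex_congr fun S hS => XX_step hg hNe hbD hO hT' hS,
          Pool.Agent.Perc.Ex_add, Pool.Agent.Perc.Ex_const,
          ih (insert b D) (O ∪ T') (card_step hbK hbD hD) (O_step hO hT'), add_zero]
      rw [Pool.Agent.Perc.Ex_congr h1]
      by_cases hbT : b ∈ T
      · simp only [if_pos hbT]
        exact hmean b hbT
      · simp [hbT]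

/-- Second moment. -/
theorem XX_sq {p : ℝ} {K : Finset κ} (hR : ∀ D O b, R D O = some b → b ∈ K ∧ b ∉ D)
    (hTK : T ⊆ K) (hg : LocG s β T g) (hmean : ∀ b ∈ T, Ex p (blk s β b) (g b) = 0) (n : ℕ) :
    ∀ (D : Finset κ) (O : Finset Edge), (K \ D).card ≤ n → (∀ e ∈ O, β e ∈ D) →
      Ex p (fr s β D) (fun S => XX s β R T g n D O S ^ 2) =
        ∑ b ∈ T \ D, Ex p (blk s β b) (fun S => g b S ^ 2) *
          Ex p (fr s β D) (ind fun S => b ∈ JJ s β R n D O S) := by
  induction n with
  | zero =>
    intro D O hD _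
    have hKD : K \ D = ∅ := Finset.card_eq_zero.1 (Nat.le_zero.1 hD)
    have hTD : T \ D = ∅ := by
      rw [Finset.sdiff_eq_empty_iff_subset] at hKD ⊢
      exact hTK.trans hKD
    unfold XX
    simp [hTD]
  | succ n ih =>
    intro D O hD hO
    rcases hNe : R D O with _ | b
    · simp only [XX_none hNe]
      rw [Finset.sum_eq_zero]
      · simp
      · intro b hb
        have : ∀ S, S ⊆ fr s β D → ind (fun S => b ∈ JJ s β R (n + 1) D O S) S = 0 := by
          intro S _
          apply ind_of_not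
          unfold JJ
          rw [bFrom_none (x := (D, O)) hNe]
          exact (Finset.mem_sdiff.1 hb).2
        rw [Pool.Agent.Perc.Ex_congr this]
        simp
    · obtain ⟨hbK, hbD⟩ := hR D O b hNe
      have hc := card_step hbK hbD hD
      rw [Ex_fr hbD]
      have h1 : ∀ T', T' ⊆ blk s β b →
          Ex p (fr s β (insert b D)) (fun S => XX s β R T g (n + 1) D O (T' ∪ S) ^ 2) =
            (if b ∈ T then g b T' ^ 2 else 0) +
            ∑ x ∈ T \ insert b D, Ex p (blk s β x) (fun S => g x S ^ 2) *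
              Ex p (fr s β (insert b D)) (ind fun S => x ∈ JJ s β R n (insert b D) (O ∪ T') S) := by
        intro T' hT'
        rw [← ih (insert b D) (O ∪ T') hc (O_step hO hT')]
        have h2 : ∀ S, S ⊆ fr s β (insert b D) → XX s β R T g (n + 1) D O (T' ∪ S) ^ 2 =
            (if b ∈ T then g b T' ^ 2 else 0) +
              (2 * (if b ∈ T then g b T' else 0) * XX s β R T g n (insert b D) (O ∪ T') S +
              XX s β R T g n (insert b D) (O ∪ T') S ^ 2) := by
          intro S hS
          rw [XX_step hg hNe hbD hO hT' hS]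
          split_ifs <;> ring
        rw [Pool.Agent.Perc.Ex_congr h2, Pool.Agent.Perc.Ex_add, Pool.Agent.Perc.Ex_const,
          Pool.Agent.Perc.Ex_add, Pool.Agent.Perc.Ex_const_mul,
          XX_mean hR hTK hg hmean n (insert b D) (O ∪ T') hc (O_step hO hT'), mul_zero, zero_add]
      rw [Pool.Agent.Perc.Ex_congr h1, Pool.Agent.Perc.Ex_add, Pool.Agent.Perc.Ex_sum,
        sdiff_insert_sum hbD]
      congr 1
      · by_cases hbT : b ∈ T
        · simp only [if_pos hbT]
          have : ∀ S, S ⊆ fr s β D → ind (fun S => b ∈ JJ s β R (n + 1) D O S) S = 1 := by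
            intro S hS
            apply ind_of
            have hS' : S = (S ∩ blk s β b) ∪ (S ∩ fr s β (insert b D)) := by
              rw [← Finset.inter_union_distrib_left, blk_union_fr hbD,
                Finset.inter_eq_left.2 hS]
            rw [hS', JJ_step hNe hbD hO Finset.inter_subset_right Finset.inter_subset_right]
            exact subset_bFrom _ _ _ (Finset.mem_insert_self b D)
          rw [Pool.Agent.Perc.Ex_congr this, Pool.Agent.Perc.Ex_const, mul_one]
        · simp [hbT]
      · refine Finset.sum_congr rfl fun x hx => ?_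
        rw [Pool.Agent.Perc.Ex_const_mul, Ex_fr hbD]
        congr 1
        refine Pool.Agent.Perc.Ex_congr fun T' hT' => ?_
        refine Pool.Agent.Perc.Ex_congr fun S hS => ?_
        exact Pool.Agent.Perc.ind_congr (by rw [JJ_step hNe hbD hO hT' hS])

/-- The unrevealed blocks do not contribute. -/
theorem XX_proj {p : ℝ} {K : Finset κ} (hK : ∀ e ∈ s, β e ∈ K)
    (hR : ∀ D O b, R D O = some b → b ∈ K ∧ b ∉ D)
    (hTK : T ⊆ K) (hg : LocG s β T g) (hmean : ∀ b ∈ T, Ex p (blk s β b) (g b) = 0) (n : ℕ) :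
    ∀ (D : Finset κ) (O : Finset Edge), (K \ D).card ≤ n → (∀ e ∈ O, β e ∈ D) →
      ∀ f : Finset Edge → ℝ,
      (∀ S S', S ⊆ fr s β D → S' ⊆ fr s β D →
        (∀ e ∈ fr s β D, β e ∈ JJ s β R n D O S → (e ∈ S ↔ e ∈ S')) → f S = f S') →
      Ex p (fr s β D) (fun S => f S * ∑ b ∈ T \ D, g b S) =
        Ex p (fr s β D) (fun S => f S * XX s β R T g n D O S) := by
  induction n with
  | zero =>
    intro D O hD _ f _
    have hKD : K \ D = ∅ := Finset.card_eq_zero.1 (Nat.le_zero.1 hD)
    have hTD : T \ D = ∅ := by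
      rw [Finset.sdiff_eq_empty_iff_subset] at hKD ⊢
      exact hTK.trans hKD
    unfold XX
    simp [hTD]
  | succ n ih =>
    intro D O hD hO f hdet
    rcases hNe : R D O with _ | b
    · simp only [XX_none hNe, mul_zero, Pool.Agent.Perc.Ex_const]
      have hconst : ∀ S, S ⊆ fr s β D → f S = f ∅ := by
        intro S hS
        refine hdet S ∅ hS (Finset.empty_subset _) fun e heF he => ?_
        unfold JJ at he
        rw [bFrom_none (x := (D, O)) hNe] at he
        exact absurd he (mem_fr.1 heF).2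
      have h1 : ∀ S, S ⊆ fr s β D → f S * ∑ b ∈ T \ D, g b S = f ∅ * ∑ b ∈ T \ D, g b S := by
        intro S hS
        rw [hconst S hS]
      rw [Pool.Agent.Perc.Ex_congr h1, Pool.Agent.Perc.Ex_const_mul, Pool.Agent.Perc.Ex_sum,
        Finset.sum_eq_zero, mul_zero]
      intro b hb
      obtain ⟨hbT, hbD⟩ := Finset.mem_sdiff.1 hb
      rw [Pool.Agent.Perc.Ex_restrict (blk_subset_fr hbD) (fun S _ => hg b hbT S)]
      exact hmean b hbT
    · obtain ⟨hbK, hbD⟩ := hR D O b hNe
      have hc := card_step hbK hbD hD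
      rw [Ex_fr hbD, Ex_fr hbD]
      refine Pool.Agent.Perc.Ex_congr fun T' hT' => ?_
      have h1 : ∀ S, S ⊆ fr s β (insert b D) → f (T' ∪ S) * ∑ x ∈ T \ D, g x (T' ∪ S) =
          f (T' ∪ S) * (if b ∈ T then g b T' else 0) +
            f (T' ∪ S) * ∑ x ∈ T \ insert b D, g x S := by
        intro S hS
        rw [sdiff_insert_sum hbD, mul_add]
        congr 2
        · by_cases hbT : b ∈ T
          · rw [if_pos hbT, if_pos hbT, hg.own hbT hT' hS]
          · rw [if_neg hbT, if_neg hbT]
        · refine Finset.sum_congr rfl fun x hx => ?_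
          rw [Finset.mem_sdiff, Finset.mem_insert, not_or] at hx
          rw [hg.other hx.1 hx.2.1 hT']
      have h2 : ∀ S, S ⊆ fr s β (insert b D) → f (T' ∪ S) * XX s β R T g (n + 1) D O (T' ∪ S) =
          f (T' ∪ S) * (if b ∈ T then g b T' else 0) +
            f (T' ∪ S) * XX s β R T g n (insert b D) (O ∪ T') S := by
        intro S hS
        rw [XX_step hg hNe hbD hO hT' hS, mul_add]
      rw [Pool.Agent.Perc.Ex_congr h1, Pool.Agent.Perc.Ex_congr h2, Pool.Agent.Perc.Ex_add,
        Pool.Agent.Perc.Ex_add]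
      congr 1
      refine ih (insert b D) (O ∪ T') hc (O_step hO hT') (fun S => f (T' ∪ S)) ?_
      intro S S' hS hS' h
      have hsub : ∀ S, S ⊆ fr s β (insert b D) → T' ∪ S ⊆ fr s β D := fun S hS =>
        Finset.union_subset (hT'.trans (blk_subset_fr hbD)) (hS.trans (fr_insert_subset D b))
      refine hdet _ _ (hsub S hS) (hsub S' hS') fun e heF he => ?_
      rw [JJ_step hNe hbD hO hT' hS] at he
      rw [Finset.mem_union, Finset.mem_union]
      by_cases heB : e ∈ blk s β b
      · have h1 : e ∉ S := fun h' => Finset.disjoint_left.1 (disj_blk_fr D b) heB (hS h')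
        have h2 : e ∉ S' := fun h' => Finset.disjoint_left.1 (disj_blk_fr D b) heB (hS' h')
        tauto
      · have heF' : e ∈ fr s β (insert b D) := by
          rw [← blk_union_fr hbD, Finset.mem_union] at heF
          exact heF.resolve_left heB
        have := h e heF' he
        tauto

/-- **Level-one inequality** for a function determined by a block exploration. -/
theorem block_l1 {p : ℝ} (hp0 : 0 ≤ p) (hp1 : p ≤ 1) {K : Finset κ} (hK : ∀ e ∈ s, β e ∈ K)
    (hR : ∀ D O b, R D O = some b → b ∈ K ∧ b ∉ D)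
    (hTK : T ⊆ K) (hg : LocG s β T g) (hmean : ∀ b ∈ T, Ex p (blk s β b) (g b) = 0)
    {f : Finset Edge → ℝ}
    (hdet : ∀ S S', S ⊆ s → S' ⊆ s →
      (∀ e ∈ s, β e ∈ revealed s β R (ofS S) K.card → (e ∈ S ↔ e ∈ S')) → f S = f S') :
    (∑ b ∈ T, Ex p s (fun S => f S * g b S)) ^ 2 ≤
      Ex p s (fun S => f S ^ 2) * ∑ b ∈ T, Ex p (blk s β b) (fun S => g b S ^ 2) *
        Ex p s (ind fun S => b ∈ revealed s β R (ofS S) K.card) := by
  have hfr : fr s β ∅ = s := by
    ext e
    rw [mem_fr]
    simp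
  have hJ : ∀ S, JJ s β R K.card ∅ ∅ S = revealed s β R (ofS S) K.card := by
    intro S
    unfold JJ revealed
    rw [Finset.empty_union]
  have h1 := XX_proj (p := p) (R := R) hK hR hTK hg hmean K.card ∅ ∅ (by simp) (by simp) f (by
    intro S S' hS hS' h
    rw [hfr] at hS hS' h
    exact hdet S S' hS hS' fun e he h' => h e he (by rw [hJ]; exact h'))
  have h2 := XX_sq (p := p) (R := R) hR hTK hg hmean K.card ∅ ∅ (by simp) (by simp)
  rw [hfr, Finset.sdiff_empty] at h1 h2
  have h3 : ∑ b ∈ T, Ex p s (fun S => f S * g b S) = Ex p s (fun S => f S * ∑ b ∈ T, g b S) := by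
    rw [← Pool.Agent.Perc.Ex_sum]
    exact Pool.Agent.Perc.Ex_congr fun S _ => by rw [Finset.mul_sum]
  rw [h3, h1]
  refine (Pool.Agent.Perc.Ex_mul_sq_le hp0 hp1 s f _).trans ?_
  rw [h2]
  simp only [hJ]
  exact le_rfl

end Pool.Agent.H13.SK

end

section

/-!
# Level-one inequality for block explorations: events
-/

set_option autoImplicit false

open MeasureTheory ProbabilityTheory unitInterval

namespace Pool.Agent.H13.SK

open Pool.Agent.H89.Perc Pool.Agent.H85.Kes
open Pool.Agent.Perc (Ex ind ind_of ind_of_not)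

variable {κ : Type*} [DecidableEq κ] {s : Finset Edge} {β : Edge → κ} {R : BRule κ}

/-- If the increasing event `O` makes the block `B` effectively open and the decreasing event `C`
makes it effectively closed, then the difference of the conditional probabilities of `A` is at
least the probability that `B` is pivotal. -/
theorem piv_le_diff {A O C : Set Config} {t t' : Finset Edge} (hA : LocalOn s A) (iA : Incr A)
    (hO : LocalOn t O) (iO : Incr O) (hC : LocalOn t' C) (iC : Incr Cᶜ) (B : Finset Edge)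
    (h1 : ∀ ω ∈ O, setB B true ω ∈ A → ω ∈ A) (h2 : ∀ ω ∈ C, ω ∈ A → setB B false ω ∈ A) (p : I)
    (pO : 0 < Pr p O) (pC : 0 < Pr p C) :
    Pr p (BPiv B A) ≤ Pr p (A ∩ O) / Pr p O - Pr p (A ∩ C) / Pr p C := by
  set Ap : Set Config := {ω | setB B true ω ∈ A} with hAp
  set Am : Set Config := {ω | setB B false ω ∈ A} with hAm
  have key : ∀ (b : Bool) (ω ω' : Config), (∀ e ∈ s, ω e = ω' e) →
      ∀ e ∈ s, setB B b ω e = setB B b ω' e := by
    intro b ω ω' h e he
    unfold setB
    split_ifs
    · rfl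
    · exact h e he
  have lAp : LocalOn s Ap := fun ω ω' h hω => hA _ _ (key true ω ω' h) hω
  have lAm : LocalOn s Am := fun ω ω' h hω => hA _ _ (key false ω ω' h) hω
  have keyi : ∀ (b : Bool) (ω ω' : Config), (∀ e, ω e = true → ω' e = true) →
      ∀ e, setB B b ω e = true → setB B b ω' e = true := by
    intro b ω ω' h e he
    unfold setB at he ⊢
    split_ifs at he ⊢ with h'
    · exact he
    · exact h e he
  have iAp : Incr Ap := fun ω ω' h hω => iA _ _ (keyi true ω ω' h) hω
  have iAm : Incr Am := fun ω ω' h hω => iA _ _ (keyi false ω ω' h) hω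
  have s1 : Ap ∩ O ⊆ A ∩ O := fun ω hω => ⟨h1 ω hω.2 hω.1, hω.2⟩
  have s2 : A ∩ C ⊆ Am ∩ C := fun ω hω => ⟨h2 ω hω.2 hω.1, hω.2⟩
  have e1 : Pr p Ap * Pr p O ≤ Pr p (A ∩ O) := (fkg lAp hO iAp iO).trans (Pr_mono s1)
  have e2 : Pr p (A ∩ C) ≤ Pr p Am * Pr p C := (Pr_mono s2).trans (fkg_mixed lAm hC iAm iC)
  have e3 : Pr p (BPiv B A) = Pr p Ap - Pr p Am := by
    have hsub : Am ⊆ Ap := fun ω hω => iA _ _ (setB_mono ω) hω
    have h3 : BPiv B A = Ap \ Am := by
      ext ω
      simp only [BPiv, Set.mem_ofPred_eq, Set.mem_sdiff, hAp, hAm]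
    rw [h3]
    unfold Pr
    rw [measureReal_sdiff hsub lAm.measurableSet]
  rw [e3]
  have e4 : Pr p Ap ≤ Pr p (A ∩ O) / Pr p O := by
    rw [le_div_iff₀ pO]; exact e1
  have e5 : Pr p (A ∩ C) / Pr p C ≤ Pr p Am := by
    rw [div_le_iff₀ pC]; exact e2
  linarith only [e4, e5]

theorem blk_subset_s (b : κ) : blk s β b ⊆ s := fun _ he => (mem_blk.1 he).1

/-- **Level-one inequality for events**: if around each block of `T` the events `O b` and `C b`,
local on the block, make the smaller block `B b` effectively open and closed, then the sum of the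
influences of the blocks `B b` is bounded by the revealments. -/
theorem block_l1_event {A : Set Config} (hA : LocalOn s A) (iA : Incr A) {K T : Finset κ}
    (hK : ∀ e ∈ s, β e ∈ K) (hR : ∀ D O b, R D O = some b → b ∈ K ∧ b ∉ D) (hTK : T ⊆ K)
    (hdet : ∀ ω ω' : Config, (∀ e ∈ s, β e ∈ revealed s β R ω K.card → ω e = ω' e) →
      ω ∈ A → ω' ∈ A)
    (O C : κ → Set Config) (B : κ → Finset Edge)
    (hO : ∀ b ∈ T, LocalOn (blk s β b) (O b)) (iO : ∀ b ∈ T, Incr (O b))
    (hC : ∀ b ∈ T, LocalOn (blk s β b) (C b)) (iC : ∀ b ∈ T, Incr (C b)ᶜ)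
    (h1 : ∀ b ∈ T, ∀ ω ∈ O b, setB (B b) true ω ∈ A → ω ∈ A)
    (h2 : ∀ b ∈ T, ∀ ω ∈ C b, ω ∈ A → setB (B b) false ω ∈ A)
    (p : I) {c : ℝ} (hc : 0 < c) (pO : ∀ b ∈ T, c ≤ Pr p (O b)) (pC : ∀ b ∈ T, c ≤ Pr p (C b)) :
    (∑ b ∈ T, Pr p (BPiv (B b) A)) ^ 2 ≤
      2 / c * ∑ b ∈ T, Pr p {ω | b ∈ revealed s β R ω K.card} := by
  have hp0 := p.2.1
  have hp1 := p.2.2
  set f : Finset Edge → ℝ := ind (fun S => ofS S ∈ A) with hf
  set g : κ → Finset Edge → ℝ := fun b S =>
    ind (fun S => ofS S ∈ O b) S / Pr p (O b) - ind (fun S => ofS S ∈ C b) S / Pr p (C b) with hg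
  have hloc : ∀ (b : κ) (E : Set Config), LocalOn (blk s β b) E → ∀ S : Finset Edge,
      ind (fun S => ofS S ∈ E) S = ind (fun S => ofS S ∈ E) (S ∩ blk s β b) := by
    intro b E hE S
    apply Pool.Agent.Perc.ind_congr
    have h : ∀ e ∈ blk s β b, ofS S e = ofS (S ∩ blk s β b) e := by
      intro e he
      simp [ofS, he]
    exact ⟨fun h' => hE _ _ h h', fun h' => hE _ _ (fun e he => (h e he).symm) h'⟩
  have hLG : LocG s β T g := by
    intro b hb S
    simp only [hg]
    rw [hloc b (O b) (hO b hb) S, hloc b (C b) (hC b hb) S]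
  have hmean : ∀ b ∈ T, Ex (p : ℝ) (blk s β b) (g b) = 0 := by
    intro b hb
    have hO0 : Pr p (O b) ≠ 0 := (lt_of_lt_of_le hc (pO b hb)).ne'
    have hC0 : Pr p (C b) ≠ 0 := (lt_of_lt_of_le hc (pC b hb)).ne'
    simp only [hg, div_eq_mul_inv]
    rw [Pool.Agent.Perc.Ex_sub, Pool.Agent.Perc.Ex_mul_const, Pool.Agent.Perc.Ex_mul_const,
      ← Pr_eq_Ex (hO b hb), ← Pr_eq_Ex (hC b hb), mul_inv_cancel₀ hO0, mul_inv_cancel₀ hC0,
      sub_self]
  have hdet' : ∀ S S', S ⊆ s → S' ⊆ s →
      (∀ e ∈ s, β e ∈ revealed s β R (ofS S) K.card → (e ∈ S ↔ e ∈ S')) → f S = f S' := by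
    intro S S' _ _ h
    apply Pool.Agent.Perc.ind_congr
    have h3 : ∀ e ∈ s, β e ∈ revealed s β R (ofS S) K.card → ofS S e = ofS S' e := by
      intro e he he'
      simp only [ofS, h e he he']
    refine ⟨fun h' => hdet _ _ h3 h', fun h' => hdet _ _ ?_ h'⟩
    intro e he he'
    have h4 : revealed s β R (ofS S') K.card = revealed s β R (ofS S) K.card := by
      unfold revealed
      exact bFrom_congr K.card (∅, ∅) fun e he h'' => h3 e he h''
    rw [h4] at he'
    exact (h3 e he he').symm
  have main := block_l1 (T := T) (g := g) hp0 hp1 hK hR hTK hLG hmean hdet'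
  -- the coefficients
  have hcoef : ∀ b ∈ T, Pr p (BPiv (B b) A) ≤ Ex (p : ℝ) s (fun S => f S * g b S) := by
    intro b hb
    have pO' := lt_of_lt_of_le hc (pO b hb)
    have pC' := lt_of_lt_of_le hc (pC b hb)
    refine (piv_le_diff hA iA (hO b hb) (iO b hb) (hC b hb) (iC b hb) (B b) (h1 b hb) (h2 b hb) p
      pO' pC').trans (le_of_eq ?_)
    have e1 : ∀ E : Set Config, LocalOn (blk s β b) E →
        Pr p (A ∩ E) = Ex (p : ℝ) s (fun S => f S * ind (fun S => ofS S ∈ E) S) := by
      intro E hE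
      rw [Pr_eq_Ex (hA.inter (hE.mono (blk_subset_s b)))]
      refine Pool.Agent.Perc.Ex_congr fun S _ => ?_
      rw [hf, Pool.Agent.Perc.ind_mul]
      exact Pool.Agent.Perc.ind_congr Iff.rfl
    rw [e1 _ (hO b hb), e1 _ (hC b hb)]
    have e2 : ∀ S, S ⊆ s → f S * g b S = f S * ind (fun S => ofS S ∈ O b) S * (Pr p (O b))⁻¹ -
        f S * ind (fun S => ofS S ∈ C b) S * (Pr p (C b))⁻¹ := by
      intro S _
      simp only [hg]
      ring
    rw [Pool.Agent.Perc.Ex_congr e2, Pool.Agent.Perc.Ex_sub, Pool.Agent.Perc.Ex_mul_const,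
      Pool.Agent.Perc.Ex_mul_const, div_eq_mul_inv, div_eq_mul_inv]
  -- the variances
  have hvar : ∀ b ∈ T, Ex (p : ℝ) (blk s β b) (fun S => g b S ^ 2) ≤ 2 / c := by
    intro b hb
    have pO' := lt_of_lt_of_le hc (pO b hb)
    have pC' := lt_of_lt_of_le hc (pC b hb)
    have e1 : ∀ S, S ⊆ blk s β b → g b S ^ 2 ≤
        ind (fun S => ofS S ∈ O b) S * ((Pr p (O b))⁻¹ * (Pr p (O b))⁻¹) +
        ind (fun S => ofS S ∈ C b) S * ((Pr p (C b))⁻¹ * (Pr p (C b))⁻¹) := by
      intro S _
      simp only [hg]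
      have a1 := Pool.Agent.Perc.ind_nonneg (fun S => ofS S ∈ O b) S
      have a2 := Pool.Agent.Perc.ind_nonneg (fun S => ofS S ∈ C b) S
      have a3 := Pool.Agent.Perc.ind_sq (fun S => ofS S ∈ O b) S
      have a4 := Pool.Agent.Perc.ind_sq (fun S => ofS S ∈ C b) S
      have a5 : 0 ≤ ind (fun S => ofS S ∈ O b) S / Pr p (O b) := by positivity
      have a6 : 0 ≤ ind (fun S => ofS S ∈ C b) S / Pr p (C b) := by positivity
      have a7 : (ind (fun S => ofS S ∈ O b) S / Pr p (O b)) ^ 2 =
          ind (fun S => ofS S ∈ O b) S * ((Pr p (O b))⁻¹ * (Pr p (O b))⁻¹) := by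
        rw [div_pow, a3]
        field_simp
      have a8 : (ind (fun S => ofS S ∈ C b) S / Pr p (C b)) ^ 2 =
          ind (fun S => ofS S ∈ C b) S * ((Pr p (C b))⁻¹ * (Pr p (C b))⁻¹) := by
        rw [div_pow, a4]
        field_simp
      rw [← a7, ← a8]
      nlinarith only [a5, a6]
    refine (Pool.Agent.Perc.Ex_mono hp0 hp1 e1).trans ?_
    rw [Pool.Agent.Perc.Ex_add, Pool.Agent.Perc.Ex_mul_const, Pool.Agent.Perc.Ex_mul_const,
      ← Pr_eq_Ex (hO b hb), ← Pr_eq_Ex (hC b hb), ← mul_assoc, ← mul_assoc,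
      mul_inv_cancel₀ pO'.ne', mul_inv_cancel₀ pC'.ne', one_mul, one_mul]
    have b1 : (Pr p (O b))⁻¹ ≤ c⁻¹ := inv_anti₀ hc (pO b hb)
    have b2 : (Pr p (C b))⁻¹ ≤ c⁻¹ := inv_anti₀ hc (pC b hb)
    calc (Pr p (O b))⁻¹ + (Pr p (C b))⁻¹ ≤ c⁻¹ + c⁻¹ := add_le_add b1 b2
      _ = 2 / c := by ring
  have hsum0 : 0 ≤ ∑ b ∈ T, Pr p (BPiv (B b) A) := Finset.sum_nonneg fun b _ => Pr_nonneg
  have hle : ∑ b ∈ T, Pr p (BPiv (B b) A) ≤ ∑ b ∈ T, Ex (p : ℝ) s (fun S => f S * g b S) :=
    Finset.sum_le_sum hcoef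
  have hf2 : Ex (p : ℝ) s (fun S => f S ^ 2) ≤ 1 := by
    have : ∀ S, S ⊆ s → f S ^ 2 ≤ 1 := by
      intro S _
      rw [hf, Pool.Agent.Perc.ind_sq]
      exact Pool.Agent.Perc.ind_le_one _ _
    refine (Pool.Agent.Perc.Ex_mono hp0 hp1 this).trans ?_
    rw [Pool.Agent.Perc.Ex_const]
  calc (∑ b ∈ T, Pr p (BPiv (B b) A)) ^ 2
      ≤ (∑ b ∈ T, Ex (p : ℝ) s (fun S => f S * g b S)) ^ 2 := by gcongr
    _ ≤ _ := main
    _ ≤ 1 * ∑ b ∈ T, 2 / c * Pr p {ω | b ∈ revealed s β R ω K.card} := by
        refine mul_le_mul hf2 ?_ ?_ zero_le_one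
        · refine Finset.sum_le_sum fun b hb => ?_
          have h3 : Ex (p : ℝ) s (ind fun S => b ∈ revealed s β R (ofS S) K.card) =
              Pr p {ω | b ∈ revealed s β R ω K.card} :=
            (Pr_eq_Ex (localOn_revealed (s := s) (β := β) (R := R) K.card b) p).symm
          rw [h3]
          exact mul_le_mul_of_nonneg_right (hvar b hb) Pr_nonneg
        · refine Finset.sum_nonneg fun b _ => mul_nonneg ?_ ?_
          · exact Pool.Agent.Perc.Ex_nonneg hp0 hp1 fun S _ => sq_nonneg _
          · exact Pool.Agent.Perc.Ex_nonneg hp0 hp1 fun S _ => Pool.Agent.Perc.ind_nonneg _ _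
    _ = _ := by rw [one_mul, Finset.mul_sum]

end Pool.Agent.H13.SK

end

section

/-!
# Site percolation on the torus: definitions

The sites of the torus of side `N` are the sites of the plane modulo `N`.  `sitT N ω` is the induced
periodic bond configuration.
-/

open MeasureTheory ProbabilityTheory unitInterval

namespace Pool.Agent.H83.SK

open Pool.Agent.H89.Perc Pool.Agent.H61.NC

variable {N : ℕ} {q : I} {A B : Set Config} {s t : Finset Edge}

/-- Probability for site percolation on the torus. -/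
noncomputable def PrT (N : ℕ) (q : I) (A : Set Config) : ℝ :=
  Pool.Agent.H89.Perc.Pr q {ω | sitT N ω ∈ A}

end Pool.Agent.H83.SK

end

section

/-!
# Site percolation: interfaces of the separation part

Everything is for densities `q` with `RSWreg c n q`; constants depend only on `c`.
-/

open MeasureTheory ProbabilityTheory unitInterval

namespace Pool.Agent.H83.SK

open Pool.Agent.H89.Perc Pool.Agent.H29.Sep
open Pool.Agent.H59.EX (Src Four)

/-- S1, inner side. -/
def BadIn : Prop :=
  ∀ c : ℝ, 0 < c → ∃ C κ : ℝ, 0 < C ∧ 0 < κ ∧ ∀ (n t ρ r : ℕ) (q : I), 1 ≤ t → t ≤ ρ →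
    2 * ρ ≤ r → r ≤ n → RSWreg c n q →
      Pr q {ω | ∃ z ∈ sphere 0 r, ω ∈ LocTwo (ball 0 r) z t ρ} ≤
        C * ((r : ℝ) / ρ) * ((t : ℝ) / ρ) ^ κ

/-- S1, outer side. -/
def BadOut : Prop :=
  ∀ c : ℝ, 0 < c → ∃ C κ : ℝ, 0 < C ∧ 0 < κ ∧ ∀ (n t ρ r : ℕ) (q : I), 1 ≤ t → t ≤ ρ →
    2 * ρ ≤ r → r ≤ n → RSWreg c n q →
      Pr q {ω | ∃ z ∈ sphere 0 r, ω ∈ LocTwo (ball 0 (r - 1))ᶜ z t ρ} ≤
        C * ((r : ℝ) / ρ) * ((t : ℝ) / ρ) ^ κ

/-- S4: gluing with terminals. -/
def GLT : Prop :=
  ∀ c ε : ℝ, 0 < c → 0 < ε → ∃ (C : ℝ) (k₀ : ℕ), 0 < C ∧ 1 ≤ k₀ ∧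
    ∀ (n k R : ℕ) (q : I) (L K : Set Vert), k₀ ≤ k → 64 * 4 ^ k ≤ R → R ≤ n → RSWreg c n q →
      L ⊆ sphere 0 R → K ⊆ sphere 0 R →
      a4 q (4 ^ k) * Pr q (BT (4 * 4 ^ k) R L K) ≤
        C * a4 q R + ε * (a4 q (4 ^ (k - 1)) * Pr q (BT (16 * 4 ^ k) R L K))

/-- S3: regularity of the four-arm probability. -/
def RegA4 : Prop :=
  ∀ c : ℝ, 0 < c → ∃ C : ℝ, 0 < C ∧ ∀ (n r : ℕ) (q : I), 1 ≤ r → 64 * r ≤ n → RSWreg c n q →
    a4 q r ≤ C * a4 q (4 * r)

/-- S2 + S3: four arms at scale `N / 64` cost at most a pivotal site of the torus. -/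
def SepTorus : Prop :=
  ∀ c : ℝ, 0 < c → ∃ C : ℝ, 0 < C ∧ ∀ (N r : ℕ) (q : I), 1 ≤ r → N ≤ 64 * r →
    4 * r ≤ N → RSWreg c N q → a4 q r ≤ C * sT q N

end Pool.Agent.H83.SK

end

section

/-!
# Site percolation: exploration of clusters

`clus (sit w) D X` is the union of the clusters in `D` of the vertices of `X`; `Ucl w D X` is the
set of the sites which are needed to determine it. The sites off `Ucl w D X` are fresh.
-/

open MeasureTheory ProbabilityTheory unitInterval

namespace Pool.Agent.H83.SK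

open Pool.Agent.H26.HP

open Pool.Agent.H89.Perc

variable {ω ω' : Config} {D X S U : Set Vert} {R : ℕ} {q : I}

/-- Probability of a disjoint union of local events, disjoint for site configurations. -/
theorem Pr_biUnion' {ι : Type*} (F : Finset ι) (A : ι → Set Config)
    (t : ι → Finset Edge) (hA : ∀ i ∈ F, LocalOn (t i) (A i))
    (hd : ∀ i ∈ F, ∀ j ∈ F, ∀ w : Config, sit w ∈ A i → sit w ∈ A j → i = j) :
    Pr q (⋃ i ∈ F, A i) = ∑ i ∈ F, Pr q (A i) := by
  unfold Pr
  have h : {ω | sit ω ∈ ⋃ i ∈ F, A i} = ⋃ i ∈ F, {ω | sit ω ∈ A i} := by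
    ext ω
    simp
  rw [h]
  refine measureReal_biUnion_finset (fun i hi j hj hij => ?_)
    (fun i hi => (localOn_sit (hA i hi)).measurableSet)
  rw [Function.onFun, Set.disjoint_left]
  intro ω h1 h2
  exact hij (hd i hi j hj ω h1 h2)

lemma hull_eTouch_disjoint (D S : Set Vert) :
    Disjoint (hull (eTouch R D S)) (hull (eIn R (D \ nb D S))) := by
  refine disj_hull_of (S := nb D S) ?_ ?_
  · intro e he
    rw [mem_eTouch] at he
    obtain ⟨_, ⟨h1, h2⟩, h3 | h3⟩ := he
    · exact ⟨Or.inl h3, Or.inr ⟨h2, src e, h3, e, Or.inl ⟨rfl, rfl⟩⟩⟩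
    · exact ⟨Or.inr ⟨h1, tgt e, h3, e, Or.inr ⟨rfl, rfl⟩⟩, Or.inl h3⟩
  · intro e he
    rw [mem_eIn] at he
    exact ⟨he.2.1.2, he.2.2.2⟩

/-- The sites of a nontrivial cluster are open, a path off the cluster stays off the
neighbourhood. -/
lemma isClus_offU {w : Config} (h : sit w ∈ IsClus D S) {a b : Vert} (ha : a ∈ S) (hb : b ∈ S)
    (hab : a ≠ b) {u v : Vert} (hu : u ∉ S) (hne : u ≠ v) (hc : Conn (sit w) D u v) :
    Conn (sit w) (D \ nb D S) u v := by
  have hop : ∀ x ∈ S, w (sv x) = true := by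
    intro x hx
    by_cases hxa : x = a
    · subst hxa
      exact (conn_sit_open (isClus_conn h hx hb) hab).1
    · exact (conn_sit_open (isClus_conn h hx ha) hxa).1
  have hkey : ∀ x : Vert, Conn (sit w) D u x → w (sv x) = true → x ∈ D \ nb D S := by
    intro x hx hwx
    refine ⟨hx.mem_right, ?_⟩
    rintro (k | ⟨_, y, k1, k3⟩)
    · exact hu (isClus_closed h k hx.symm)
    · have hy := isClus_subset h k1
      have : Step (sit w) D y x := step_sit.2 ⟨hy, hx.mem_right, k3, hop y k1, hwx⟩
      exact hu (isClus_closed h (isClus_closed h k1 this.conn) hx.symm)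
  have hu0 : u ∈ D \ nb D S := hkey u (Conn.refl hc.mem_left) (conn_sit_open hc hne).1
  refine hc.induction_right (P := fun x => Conn (sit w) (D \ nb D S) u x) (Conn.refl hu0) ?_
  intro x y hx hxy ih
  have hb := step_sit.1 hxy
  exact ih.tail (step_sit.2 ⟨ih.mem_right, hkey y (hx.tail hxy) hb.2.2.2.2, hb.2.2⟩)

/-- The expected number of clusters of `D` in the family `F`. -/
noncomputable def EN (q : I) (D : Set Vert) (F : Finset (Finset Vert)) : ℝ :=
  ∑ T ∈ F, Pr q (IsClus D T)

/-- If each cluster of the family is alone with probability at least `c`, then the expected number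
of clusters is at most `c⁻¹ P(B)`. -/
theorem EN_le (hD : D ⊆ ball 0 R) {F : Finset (Finset Vert)} {B : Set Config}
    {G : Set Vert → Set Config} {c : ℝ} (lG : ∀ S, LocalOn (eIn R (D \ nb D S)) (G S))
    (hc : ∀ T ∈ F, c ≤ Pr q (G T))
    (hu : ∀ w, ∀ T ∈ F, ∀ T' ∈ F, sit w ∈ IsClus D T → sit w ∈ G T → sit w ∈ IsClus D T' →
      sit w ∈ G T' → T = T')
    (hB : ∀ w, ∀ T ∈ F, sit w ∈ IsClus D T → sit w ∈ G T → sit w ∈ B) :
    c * EN q D F ≤ Pr q B := by
  classical
  have h2 : ∑ T ∈ F, Pr q (IsClus D T ∩ G T) ≤ Pr q B := by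
    have := Pr_biUnion' (q := q) F (fun T : Finset Vert => IsClus D (↑T : Set Vert) ∩ G T)
      (fun T => eTouch R D ↑T ∪ eIn R (D \ nb D ↑T))
      (fun T _ => (localOn_isClus hD).inter' (lG T))
      (fun T1 hT1 T2 hT2 w h1 h2 => hu w T1 hT1 T2 hT2 h1.1 h1.2 h2.1 h2.2)
    rw [← this]
    unfold Pr
    refine Pool.Agent.H89.Perc.Pr_mono ?_
    intro w hw
    simp only [Set.mem_ofPred_eq, Set.mem_iUnion] at hw
    obtain ⟨T, hT, k1, k2⟩ := hw
    exact hB w T hT k1 k2
  refine le_trans ?_ h2
  rw [EN, Finset.mul_sum]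
  refine Finset.sum_le_sum fun T hT => ?_
  rw [Pr_inter_of_disjoint (localOn_isClus hD) (lG T) (hull_eTouch_disjoint _ _), mul_comm]
  exact mul_le_mul_of_nonneg_left (hc T hT) Pr_nonneg

/-- Upper bound by the expected number of clusters times the conditional probability of the rest. -/
theorem le_EN (hD : D ⊆ ball 0 R) {F : Finset (Finset Vert)} {A : Set Config}
    {G : Set Vert → Set Config} {δ : ℝ} (lG : ∀ S, LocalOn (eIn R (D \ nb D S)) (G S))
    (hδ : ∀ T ∈ F, Pr q (G T) ≤ δ)
    (hA : ∀ w, sit w ∈ A → ∃ T ∈ F, sit w ∈ IsClus D T ∧ sit w ∈ G T) :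
    Pr q A ≤ EN q D F * δ := by
  classical
  calc Pr q A ≤ Pr q (⋃ T ∈ F, (IsClus D (↑T : Set Vert) ∩ G T)) := by
        unfold Pr
        refine Pool.Agent.H89.Perc.Pr_mono fun w hw => ?_
        simp only [Set.mem_ofPred_eq, Set.mem_iUnion]
        obtain ⟨T, hT, h1, h2⟩ := hA w hw
        exact ⟨T, hT, h1, h2⟩
    _ ≤ ∑ T ∈ F, Pr q (IsClus D (↑T : Set Vert) ∩ G T) := Pr_biUnion_le _ _
    _ ≤ ∑ T ∈ F, Pr q (IsClus D (↑T : Set Vert)) * δ := by
        refine Finset.sum_le_sum fun T hT => ?_
        rw [Pr_inter_of_disjoint (localOn_isClus hD) (lG T) (hull_eTouch_disjoint _ _)]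
        exact mul_le_mul_of_nonneg_left (hδ T hT) Pr_nonneg
    _ = EN q D F * δ := by rw [EN, Finset.sum_mul]

end Pool.Agent.H83.SK

end

section

/-!
# Conditional FKG and conditional independence after an exploration
-/

open MeasureTheory ProbabilityTheory unitInterval

namespace Pool.Agent.H83.SK

open Pool.Agent.H89.Perc

variable {p : I}

end Pool.Agent.H83.SK

end
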