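import Pool.Agent.H94.BG.H31.PT.M03_3
import Pool.Agent.H94.BG.H31.PT.M06_3
import Pool.Agent.H94.BG.H31.PT.M10

/-! The parts of this file: H61.NC.Det, H61.NC.Pair, H61.NC.TSym, H57.EX.Nets, H59.EX.Sym, H59.EX.St1, H59.EX.GeoSep, H59.EX.St3, H59.EX.Bad. -/

section

/-!
# A pivotal edge for the winding event has four arms
-/

open MeasureTheory ProbabilityTheory unitInterval

namespace Pool.Agent.H61.NC

open Pool.Agent.H89.Perc

end Pool.Agent.H61.NC

end

section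

/-!
# Pairs of edges of the torus
-/

open MeasureTheory ProbabilityTheory unitInterval

namespace Pool.Agent.H61.NC

open Pool.Agent.H89.Perc

end Pool.Agent.H61.NC

end

section

/-!
# Translation invariance on the torus: sums over pairs of edges
-/

open MeasureTheory ProbabilityTheory unitInterval

namespace Pool.Agent.H61.NC

open Pool.Agent.H89.Perc

end Pool.Agent.H61.NC

end

section

/-!
# Nets of spheres and grids of balls
-/

open MeasureTheory ProbabilityTheory unitInterval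

namespace Pool.Agent.H57.EX

open Pool.Agent.H89.Perc Pool.Agent.H61.NC Pool.Agent.H29.Sep

end Pool.Agent.H57.EX

end

section

/-!
# Symmetries of the separated events, sum over sides
-/

open MeasureTheory ProbabilityTheory unitInterval

namespace Pool.Agent.H59.EX

open Pool.Agent.H89.Perc Pool.Agent.H61.NC

/-- `x` reaches the side `d` of `ball 0 (8 w)`. -/
def Land (d : Side) (s : Src) (w : ℕ) : Set Config :=
  {ω | ∃ u, OnSide d (8 * w) u ∧ Conn (s.cut ω) (ball 0 (8 * w)) s.x u}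

variable {q : I} {s : Src} {d d' : Side} {k r w : ℕ}

/-! ### The action on the constructions -/

private theorem sym_side (g : Gen) (d : Side) (r : ℕ) (a : Vert) :
    OnSide (g.s d) r (g.v a) ↔ OnSide d r a := by
  unfold OnSide
  rw [sym_sphere]
  refine and_congr_right fun _ => ?_
  cases g <;> cases d <;> simp only [Gen.v, Gen.s] <;> omega

private theorem sym_ball' (g : Gen) (r : ℕ) : {w | g.v w ∈ ball 0 r} = ball 0 r := by
  ext w
  exact g.mem_ball r w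

private theorem sym_four (g : Gen) {s : Src} {r : ℕ} {ω : Config} (h : ω ∈ Four s r) :
    (fun e => ω (g.e e)) ∈ Four (s.map g) r := by
  obtain ⟨⟨u, hu, h1⟩, ⟨u', hu', h2⟩, h3⟩ := h
  have hx : (s.map g).x = g.v s.x := rfl
  have hy : (s.map g).y = g.v s.y := rfl
  refine ⟨⟨g.v u, (sym_sphere g r u).2 hu, ?_⟩, ⟨g.v u', (sym_sphere g r u').2 hu', ?_⟩, ?_⟩
  · rw [sym_cut, hx, sym_conn', sym_ball']
    exact h1
  · rw [sym_cut, hy, sym_conn', sym_ball']
    exact h2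
  · rw [sym_cut, hx, hy, sym_conn', sym_ball']
    exact h3

private theorem sym_land (g : Gen) {s : Src} {d : Side} {w : ℕ} {ω : Config}
    (h : ω ∈ Land d s w) : (fun e => ω (g.e e)) ∈ Land (g.s d) (s.map g) w := by
  obtain ⟨u, hu, h1⟩ := h
  have hx : (s.map g).x = g.v s.x := rfl
  refine ⟨g.v u, (sym_side g d _ u).2 hu, ?_⟩
  rw [sym_cut, hx, sym_conn', sym_ball']
  exact h1

private theorem sym_mem_eRect {r : ℕ} {e : Edge} (h : src e ∈ ball 0 r) :
    e ∈ eRect (-(r : ℤ)) r (-(r : ℤ)) r := by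
  rw [mem_eRect]
  simp only [mem_ball, Prod.fst_zero, Prod.snd_zero] at h
  simp only [rect, Set.mem_ofPred_eq]
  omega

private theorem sym_localOn_four (s : Src) (r : ℕ) :
    LocalOn (eRect (-(r : ℤ)) r (-(r : ℤ)) r) (Four s r) := by
  have key : ∀ ω ω' : Config, (∀ e ∈ eRect (-(r : ℤ)) r (-(r : ℤ)) r, ω e = ω' e) →
      ∀ u v, Conn (s.cut ω) (ball 0 r) u v → Conn (s.cut ω') (ball 0 r) u v := fun ω ω' h u v hc =>
    hc.congr fun e h1 _ => sym_cut_congr (h e (sym_mem_eRect h1))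
  rintro ω ω' h ⟨⟨u, hu, h1⟩, ⟨u', hu', h2⟩, h3⟩
  exact ⟨⟨u, hu, key _ _ h _ _ h1⟩, ⟨u', hu', key _ _ h _ _ h2⟩,
    fun h4 => h3 (key _ _ (fun e he => (h e he).symm) _ _ h4)⟩

private theorem sym_localOn_land (d : Side) (s : Src) (w : ℕ) :
    LocalOn (eRect (-((8 * w : ℕ) : ℤ)) (8 * w : ℕ) (-((8 * w : ℕ) : ℤ)) (8 * w : ℕ)) (Land d s w) := by
  rintro ω ω' h ⟨u, hu, h1⟩
  exact ⟨u, hu, h1.congr fun e h2 _ => sym_cut_congr (h e (sym_mem_eRect h2))⟩

theorem localOn_four (s : Src) (r : ℕ) : ∃ Λ : Finset Edge, LocalOn Λ (Four s r) := by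
  exact ⟨_, sym_localOn_four s r⟩

theorem four_map (g : Gen) : Pr q (Four (s.map g) r) = Pr q (Four s r) := by
  have key : ∀ s : Src, Pr q (Four s r) ≤ Pr q (Four (s.map g) r) := by
    intro s
    obtain ⟨Λ, hΛ⟩ := localOn_four (s.map g) r
    rw [← Pr_comp hΛ (sym_inj g).injOn]
    exact Pr_mono fun ω hω => sym_four g hω
  refine le_antisymm ?_ (key s)
  have h := key (s.map g)
  rw [sym_map_map] at h
  exact h

theorem four_land_map (g : Gen) :
    Pr q (Four (s.map g) (8 * w) ∩ Land (g.s d) (s.map g) w) = Pr q (Four s (8 * w) ∩ Land d s w) := by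
  have key : ∀ (s : Src) (d : Side), Pr q (Four s (8 * w) ∩ Land d s w) ≤
      Pr q (Four (s.map g) (8 * w) ∩ Land (g.s d) (s.map g) w) := by
    intro s d
    rw [← Pr_comp ((sym_localOn_four (s.map g) (8 * w)).inter
      (sym_localOn_land (g.s d) (s.map g) w)) (sym_inj g).injOn]
    exact Pr_mono fun ω hω => ⟨sym_four g hω.1, sym_land g hω.2⟩
  refine le_antisymm ?_ (key s d)
  have h := key (s.map g) (g.s d)
  rw [sym_map_map, g.s_s] at h
  exact h

/-- A separated event is a four-arm event. -/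
theorem sep_sub_four (hk : 1 ≤ k) : Sep s d d' k ⊆ Four s (28 * k) := by
  have hball : ∀ a ∈ ball (0 : Vert) 2, a ∈ ball (0 : Vert) (28 * k) := by
    intro a ha
    simp only [mem_ball, Prod.fst_zero, Prod.snd_zero] at ha ⊢
    push_cast at ha ⊢
    omega
  have hT : ∀ (d : Side), ∀ u ∈ T d k, u ∉ ball (0 : Vert) (28 * k) ∨ u ∈ sphere 0 (28 * k) := by
    intro d u hu
    by_cases h : u ∈ ball (0 : Vert) (28 * k)
    · refine Or.inr ⟨h, ?_⟩
      cases d <;> simp only [T, rect, Set.mem_ofPred_eq] at hu <;>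
        simp only [mem_ball, Prod.fst_zero, Prod.snd_zero] at h ⊢ <;> push_cast at h ⊢ <;> omega
    · exact Or.inl h
  rintro ω ⟨h1, h2, h3, -, -⟩
  obtain ⟨u, hu, hxu⟩ := fence_mem h1
  obtain ⟨u', hu', hyu⟩ := fence_mem h2
  obtain ⟨z, hz, hxz⟩ := hxu.to_sphere (v := 0) (r := 28 * k) (hball _ s.hx) (hT d u hu)
  obtain ⟨z', hz', hyz⟩ := hyu.to_sphere (v := 0) (r := 28 * k) (hball _ s.hy) (hT d' u' hu')
  refine ⟨⟨z, hz, hxz.mono_set Set.inter_subset_right⟩,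
    ⟨z', hz', hyz.mono_set Set.inter_subset_right⟩, fun hc => h3 ?_⟩
  refine hc.mono (fun a ha => Or.inl ?_) fun e he => fillV_true.2 (Or.inl he)
  simp only [mem_ball, Prod.fst_zero, Prod.snd_zero] at ha ⊢
  push_cast at ha ⊢
  omega

theorem four_mono' (h : 2 ≤ r) {r' : ℕ} (hr : r ≤ r') : Four s r' ⊆ Four s r := by
  have hball : ∀ a ∈ ball (0 : Vert) 2, a ∈ ball (0 : Vert) r := by
    intro a ha
    simp only [mem_ball, Prod.fst_zero, Prod.snd_zero] at ha ⊢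
    push_cast at ha
    omega
  have hsph : ∀ u ∈ sphere (0 : Vert) r', u ∉ ball (0 : Vert) r ∨ u ∈ sphere 0 r := by
    rintro u ⟨-, hu⟩
    by_cases h : u ∈ ball (0 : Vert) r
    · refine Or.inr ⟨h, ?_⟩
      simp only [mem_ball, Prod.fst_zero, Prod.snd_zero] at h hu ⊢
      omega
    · exact Or.inl h
  have hsub : ball (0 : Vert) r ⊆ ball 0 r' := by
    intro a ha
    simp only [mem_ball, Prod.fst_zero, Prod.snd_zero] at ha ⊢
    omega
  rintro ω ⟨⟨u, hu, h1⟩, ⟨u', hu', h2⟩, h3⟩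
  obtain ⟨z, hz, hxz⟩ := h1.to_sphere (v := 0) (r := r) (hball _ s.hx) (hsph u hu)
  obtain ⟨z', hz', hyz⟩ := h2.to_sphere (v := 0) (r := r) (hball _ s.hy) (hsph u' hu')
  exact ⟨⟨z, hz, hxz.mono_set Set.inter_subset_right⟩,
    ⟨z', hz', hyz.mono_set Set.inter_subset_right⟩, fun hc => h3 (hc.mono_set hsub)⟩

theorem four_land : Four s (8 * w) ⊆ ⋃ d : Side, Four s (8 * w) ∩ Land d s w := by
  intro ω hω
  obtain ⟨u, hu, h1⟩ := hω.1
  rw [Set.mem_iUnion]
  obtain ⟨d, hd⟩ : ∃ d : Side, OnSide d (8 * w) u := by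
    have h2 := hu.2
    simp only [Prod.fst_zero, Prod.snd_zero, zero_sub, zero_add] at h2
    rcases h2 with h | h | h | h
    · exact ⟨.W, hu, h⟩
    · exact ⟨.E, hu, h⟩
    · exact ⟨.S, hu, h⟩
    · exact ⟨.N, hu, h⟩
  exact ⟨d, hω, u, hd, h1⟩

theorem a4_eq_four {r : ℕ} (dir : Bool) : a4 q r = Pr q (Four (sE dir) r) := by
  rw [← Pr_A4 q (0, 0, dir) r]
  congr 1
  have hcut : ∀ ω : Config, (sE dir).cut ω = close (0, 0, dir) ω := by
    intro ω
    funext e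
    unfold close Src.cut
    by_cases he : e = (0, 0, dir)
    · subst he
      rw [Function.update_self]
      by_contra h
      have h1 := (closeS_true.1 (Bool.eq_true_of_not_eq_false h)).2
      exact h1 (Finset.mem_coe.2 (Finset.mem_singleton_self _))
    · rw [Function.update_of_ne he, Bool.eq_iff_iff, closeS_true]
      refine ⟨fun h => h.1, fun h => ⟨h, fun h2 => he ?_⟩⟩
      exact Finset.mem_singleton.1 (Finset.mem_coe.1 h2)
  ext ω
  unfold A4 Four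
  simp only [Set.mem_ofPred_eq, hcut]
  exact Iff.rfl

end Pool.Agent.H59.EX

end

section

/-!
# Outward separation: stage 1
-/

open MeasureTheory ProbabilityTheory unitInterval

namespace Pool.Agent.H59.EX

open Pool.Agent.H89.Perc

variable {s : Src} {w ρ ρ' : ℕ} {v v' : Vert} {d d' : Side} {Z Zy : Set Vert} {Nev Ny : Set Config}
  {q : I}

private theorem st1_cut_congr {s : Src} {ω ω' : Config} {e : Edge} (h : ω e = ω' e) :
    s.cut ω e = s.cut ω' e := by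
  unfold Src.cut closeS
  rw [h]

private theorem st1_cut_incr {s : Src} {ω ω' : Config} (h : ∀ e, ω e = true → ω' e = true)
    (e : Edge) (he : s.cut ω e = true) : s.cut ω' e = true := by
  unfold Src.cut at he ⊢
  rw [closeS_true] at he ⊢
  exact ⟨h e he.1, he.2⟩

/-- The cluster of `y` depends on the edges of the ball only. -/
private theorem st1_SY_congr {s : Src} {w : ℕ} {ω ω' : Config}
    (h : ∀ e ∈ inE (ball 0 (8 * w)), ω e = ω' e) : SY s w ω = SY s w ω' := by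
  have key : ∀ ω ω' : Config, (∀ e ∈ inE (ball 0 (8 * w)), ω e = ω' e) →
      SY s w ω ⊆ SY s w ω' := by
    rintro ω ω' h a ⟨y, hy, hc⟩
    exact ⟨y, hy, hc.congr fun e h1 h2 => st1_cut_congr (h e ⟨h1, h2⟩)⟩
  exact Set.Subset.antisymm (key _ _ h) (key _ _ fun e he => (h e he).symm)

/-- Stage 1: conditional FKG given the cluster of `y`. -/
theorem stage1 (hK : CorrData w ρ v d Z Nev) (hρ : 1 ≤ ρ) (hw : 64 * ρ ≤ w)
    (hv : v ∈ sphere 0 (8 * w)) {c : ℝ} (hc : 0 ≤ c) (hN : c ≤ Pr q Nev) :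
    c * Pr q (Ev0 s w ρ v) ≤ Pr q (Ev0 s w ρ v ∩ Nev) := by
  classical
  -- the finite set of edges
  obtain ⟨Λ, hΛ⟩ : ∃ Λ : Finset Edge, ∀ e ∈ inE (ball 0 (160 * w)), e ∈ Λ :=
    ⟨eRect (-(160 * w : ℕ)) (160 * w : ℕ) (-(160 * w : ℕ)) (160 * w : ℕ), fun e he => by
      rw [mem_eRect]
      have h := he.1
      unfold ball at h
      simp only [Prod.fst_zero, Prod.snd_zero, zero_sub, zero_add] at h
      exact h⟩
  have hball : ball (0 : Vert) (8 * w) ⊆ ball 0 (160 * w) := by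
    intro a ha
    simp only [mem_ball, Prod.fst_zero, Prod.snd_zero] at ha ⊢
    omega
  have hΛD : ∀ e ∈ inE (ball (0 : Vert) (8 * w)), e ∈ Λ := fun e he =>
    hΛ e ⟨hball he.1, hball he.2⟩
  have hZ160 := corr_sub160 hK
  have hΛZ : ∀ e ∈ inE Z, e ∈ Λ := fun e he => hΛ e ⟨hZ160 he.1, hZ160 he.2⟩
  have hN1 : LocalOn Λ Nev := fun ω ω' h hω => hK.loc ω ω' (fun e he => h e (hΛZ e he)) hω
  have main := markov_incr (Λ := Λ) (q := q) (c := c) (SY s w)
    (fun S => s.x ∉ S ∧ (∃ u ∈ sphere 0 (8 * w), u ∈ S) ∧ Disjoint S (ball v (11 * ρ)))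
    (fun S => touch (ball 0 (8 * w)) S) (fun _ => Set.univ)
    (fun _ => {ω | ∃ u ∈ sphere 0 (8 * w), u ∈ ball v ρ ∧
      Conn (s.cut ω) (ball 0 (8 * w)) s.x u}) (fun _ => Nev)
    (by
      intro i ω ω' h hω
      have h1 : SY s w ω = SY s w ω' := st1_SY_congr fun e he => h e (hΛD e he)
      change SY s w ω' = i
      rw [← h1]
      exact hω)
    (by
      intro i _ ω ω' h hω
      exact locS_clus (ball 0 (8 * w)) {s.y} i (s.cut ω) (s.cut ω')
        (fun e he => st1_cut_congr (h e he)) hω)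
    (fun _ ω ω' _ _ => trivial)
    (fun _ _ ω ω' _ _ => trivial)
    (by
      rintro _ ω ω' h ⟨u, h1, h2, h3⟩
      exact ⟨u, h1, h2, h3.congr fun e k1 k2 => st1_cut_congr (h e (hΛD e ⟨k1, k2⟩))⟩)
    (by
      rintro _ _ ω ω' h ⟨u, h1, h2, h3⟩
      exact ⟨u, h1, h2, h3.mono le_rfl (st1_cut_incr h)⟩)
    (fun _ => hN1)
    (by
      rintro S ⟨_, _, hd⟩ ω ω' h hω
      refine hK.loc ω ω' (fun e he => h e ?_) hω
      rintro ⟨hD, hS⟩
      have hin := corr_inter hK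
      have h5 : ball v (5 * ρ) ⊆ ball v (11 * ρ) := by
        intro a ha
        simp only [mem_ball] at ha ⊢
        omega
      rcases hS with hS | hS
      · exact Set.disjoint_left.1 hd hS (h5 (hin ⟨he.1, hD.1⟩))
      · exact Set.disjoint_left.1 hd hS (h5 (hin ⟨he.2, hD.2⟩)))
    (fun _ _ => hK.incr) (fun _ _ => hN) hc
  have e1 : {ω | (s.x ∉ SY s w ω ∧ (∃ u ∈ sphere 0 (8 * w), u ∈ SY s w ω) ∧
      Disjoint (SY s w ω) (ball v (11 * ρ))) ∧ ω ∈ (Set.univ : Set Config) ∧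
      ω ∈ {ω | ∃ u ∈ sphere 0 (8 * w), u ∈ ball v ρ ∧
        Conn (s.cut ω) (ball 0 (8 * w)) s.x u}} = Ev0 s w ρ v := by
    ext ω
    unfold Ev0
    simp only [SY, mem_clus_single, Set.mem_univ, true_and, Set.mem_ofPred_eq]
    rw [conn_comm (u := s.x) (v := s.y)]
    tauto
  have e2 : {ω | (s.x ∉ SY s w ω ∧ (∃ u ∈ sphere 0 (8 * w), u ∈ SY s w ω) ∧
      Disjoint (SY s w ω) (ball v (11 * ρ))) ∧ ω ∈ (Set.univ : Set Config) ∧
      ω ∈ {ω | ∃ u ∈ sphere 0 (8 * w), u ∈ ball v ρ ∧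
        Conn (s.cut ω) (ball 0 (8 * w)) s.x u} ∧ ω ∈ Nev} = Ev0 s w ρ v ∩ Nev := by
    rw [← e1]
    ext ω
    simp only [Set.mem_inter_iff, Set.mem_ofPred_eq]
    tauto
  rw [e1, e2] at main
  exact main

end Pool.Agent.H59.EX

end

section

/-!
# The corridors of the two points are far apart
-/

open MeasureTheory ProbabilityTheory unitInterval

namespace Pool.Agent.H59.EX

open Pool.Agent.H89.Perc

end Pool.Agent.H59.EX

end

section

/-!
# Outward separation: stage 3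
-/

open MeasureTheory ProbabilityTheory unitInterval

namespace Pool.Agent.H59.EX

open Pool.Agent.H89.Perc

variable {s : Src} {w ρ ρ' : ℕ} {v v' : Vert} {d d' : Side} {Z Zy : Set Vert} {Nev Ny : Set Config}
  {q : I}

private theorem st3_cut_congr {s : Src} {ω ω' : Config} {e : Edge} (h : ω e = ω' e) :
    s.cut ω e = s.cut ω' e := by
  unfold Src.cut closeS
  rw [h]

private theorem st3_cut_incr {s : Src} {ω ω' : Config} (h : ∀ e, ω e = true → ω' e = true)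
    (e : Edge) (he : s.cut ω e = true) : s.cut ω' e = true := by
  unfold Src.cut at he ⊢
  rw [closeS_true] at he ⊢
  exact ⟨h e he.1, he.2⟩

private theorem st3_fill_congr {s : Src} {Z : Set Vert} {ω ω' : Config} {e : Edge}
    (h : ω e = ω' e) : fillV Z (s.cut ω) e = fillV Z (s.cut ω') e := by
  unfold fillV
  rw [st3_cut_congr h]

/-- The cluster of `x` depends on the edges of `ball 0 (160 w)` only. -/
private theorem st3_SH_congr {s : Src} {w : ℕ} {Z : Set Vert} {ω ω' : Config}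
    (h : ∀ e ∈ inE (ball 0 (160 * w)), ω e = ω' e) : SH s w Z ω = SH s w Z ω' := by
  have key : ∀ ω ω' : Config, (∀ e ∈ inE (ball 0 (160 * w)), ω e = ω' e) →
      SH s w Z ω ⊆ SH s w Z ω' := by
    rintro ω ω' h a ⟨y, hy, hc⟩
    exact ⟨y, hy, hc.congr fun e h1 h2 => st3_fill_congr (h e ⟨h1, h2⟩)⟩
  exact Set.Subset.antisymm (key _ _ h) (key _ _ fun e he => (h e he).symm)

/-- Conditions on the value of the cluster of `x`. -/
private def st3_Good (s : Src) (w ρ' : ℕ) (v' : Vert) (Z : Set Vert) (S : Set Vert) : Prop :=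
  Z ⊆ S ∧ s.y ∉ S ∧ (∀ z ∈ S, z ∈ ball 0 (8 * w) ∨ (∃ a ∈ Z, z ∈ ball a (4 * ρ')) ∨
    ∃ a ∈ S, a ∈ sphere 0 (8 * w) ∧ z ∈ ball a (4 * ρ')) ∧ Disjoint S (ball v' (7 * ρ'))

/-- Stage 3: conditional FKG given the sealed cluster of `x`. -/
theorem stage3 (hK : CorrData w ρ v d Z Nev) (hKy : CorrData w ρ' v' d' Zy Ny)
    (hS : CorrSep w ρ' v' Z Zy) (hρ' : 1 ≤ ρ') (h1 : 64 * ρ' ≤ ρ) (h2 : 64 * ρ ≤ w)
    (hv : v ∈ sphere 0 (8 * w)) (hv' : v' ∈ sphere 0 (8 * w)) {c : ℝ} (hc : 0 ≤ c)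
    (hN : c ≤ Pr q Ny) :
    c * Pr q (Ev3 s w ρ' v' d Z) ≤ Pr q (Ev3 s w ρ' v' d Z ∩ Ny) := by
  classical
  have _ := h1
  have _ := h2
  have _ := hv
  have _ := hv'
  -- the finite set of edges
  obtain ⟨Λ, hΛ⟩ : ∃ Λ : Finset Edge, ∀ e ∈ inE (ball 0 (160 * w)), e ∈ Λ :=
    ⟨eRect (-(160 * w : ℕ)) (160 * w : ℕ) (-(160 * w : ℕ)) (160 * w : ℕ), fun e he => by
      rw [mem_eRect]
      have h := he.1
      unfold ball at h
      simp only [Prod.fst_zero, Prod.snd_zero, zero_sub, zero_add] at h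
      exact h⟩
  have hball : ball (0 : Vert) (8 * w) ⊆ ball 0 (160 * w) := by
    intro a ha
    simp only [mem_ball, Prod.fst_zero, Prod.snd_zero] at ha ⊢
    omega
  have hZ160 := corr_sub160 hK
  have hZy160 := corr_sub160 hKy
  have hDZ : ball (0 : Vert) (8 * w) ∪ Z ⊆ ball 0 (160 * w) := Set.union_subset hball hZ160
  have hN1 : LocalOn Λ Ny := fun ω ω' h hω =>
    hKy.loc ω ω' (fun e he => h e (hΛ e ⟨hZy160 he.1, hZy160 he.2⟩)) hω
  -- the second corridor misses the cluster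
  have hdis : ∀ S : Set Vert, st3_Good s w ρ' v' Z S → ∀ z ∈ Zy, z ∉ S := by
    rintro S ⟨-, -, hconf, hd⟩ z hz hzS
    have h57 : ball v' (5 * ρ') ⊆ ball v' (7 * ρ') := by
      intro a ha
      simp only [mem_ball] at ha ⊢
      omega
    rcases hconf z hzS with h | ⟨a, ha, h⟩ | ⟨a, ha, ha', h⟩
    · exact Set.disjoint_left.1 hd hzS (h57 (corr_inter hKy ⟨hz, h⟩))
    · refine hS.far a ha z hz ?_
      simp only [mem_ball] at h ⊢
      push_cast at h ⊢
      omega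
    · exact Set.disjoint_left.1 hd ha (hS.fringe z hz a ha' h)
  have main := markov_incr (Λ := Λ) (q := q) (c := c) (SH s w Z)
    (st3_Good s w ρ' v' Z)
    (fun S => touch (ball 0 (160 * w)) S)
    (fun S => {ω | Fence d (4 * w) (s.cut ω) (S ∩ (ball 0 (8 * w) ∪ Z)) s.x})
    (fun S => {ω | ∃ u ∈ sphere 0 (8 * w), u ∈ ball v' ρ' ∧
      Conn (s.cut ω) (ball 0 (8 * w) \ S) s.y u}) (fun _ => Ny)
    (by
      intro i ω ω' h hω
      have h1 : SH s w Z ω = SH s w Z ω' := st3_SH_congr fun e he => h e (hΛ e he)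
      change SH s w Z ω' = i
      rw [← h1]
      exact hω)
    (by
      rintro i ⟨hi, -⟩ ω ω' h hω
      exact locS_clus_fill (D := ball 0 (160 * w)) (X := {s.x}) hi (s.cut ω) (s.cut ω')
        (fun e he => st3_cut_congr (h e he.1)) hω)
    (by
      intro S ω ω' h hω
      refine fence_congr (fun e he => ?_) (fun e he => ?_) hω
      · exact st3_cut_congr (h e (hΛ e ⟨hZ160 (hK.T_sub he.1), hZ160 (hK.T_sub he.2)⟩))
      · exact st3_cut_congr (h e (hΛ e ⟨hDZ he.1.2, hDZ he.2.2⟩)))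
    (by
      rintro S ⟨hZS, -⟩ ω ω' h hω
      refine fence_congr (fun e he => ?_) (fun e he => ?_) hω
      · exact st3_cut_congr (h e ⟨⟨hZ160 (hK.T_sub he.1), hZ160 (hK.T_sub he.2)⟩,
          Or.inl (hZS (hK.T_sub he.1))⟩)
      · exact st3_cut_congr (h e ⟨⟨hDZ he.1.2, hDZ he.2.2⟩, Or.inl he.1.1⟩))
    (by
      rintro _ ω ω' h ⟨u, h1, h2, h3⟩
      exact ⟨u, h1, h2, h3.congr fun e k1 k2 =>
        st3_cut_congr (h e (hΛ e ⟨hball k1.1, hball k2.1⟩))⟩)
    (by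
      rintro _ _ ω ω' h ⟨u, h1, h2, h3⟩
      exact ⟨u, h1, h2, h3.mono le_rfl (st3_cut_incr h)⟩)
    (fun _ => hN1)
    (by
      intro S hG ω ω' h hω
      refine hKy.loc ω ω' (fun e he => h e ?_) hω
      rintro ⟨-, hS | hS⟩
      · exact hdis S hG _ he.1 hS
      · exact hdis S hG _ he.2 hS)
    (fun _ _ => hKy.incr) (fun _ _ => hN) hc
  have e1 : {ω | st3_Good s w ρ' v' Z (SH s w Z ω) ∧
      ω ∈ {ω' | Fence d (4 * w) (s.cut ω') (SH s w Z ω ∩ (ball 0 (8 * w) ∪ Z)) s.x} ∧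
      ω ∈ {ω' | ∃ u ∈ sphere 0 (8 * w), u ∈ ball v' ρ' ∧
        Conn (s.cut ω') (ball 0 (8 * w) \ SH s w Z ω) s.y u}} = Ev3 s w ρ' v' d Z := by
    ext ω
    constructor
    · rintro ⟨⟨hZ, hy, hconf, hd⟩, hF, hL⟩
      exact ⟨⟨hy, hF, hconf⟩, hL, hd⟩
    · rintro ⟨hC, hL, hd⟩
      have hZ := Z_sub_SH_of_conf hK hC
      obtain ⟨hy, hF, hconf⟩ := hC
      exact ⟨⟨hZ, hy, hconf, hd⟩, hF, hL⟩
  have e2 : {ω | st3_Good s w ρ' v' Z (SH s w Z ω) ∧
      ω ∈ {ω' | Fence d (4 * w) (s.cut ω') (SH s w Z ω ∩ (ball 0 (8 * w) ∪ Z)) s.x} ∧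
      ω ∈ {ω' | ∃ u ∈ sphere 0 (8 * w), u ∈ ball v' ρ' ∧
        Conn (s.cut ω') (ball 0 (8 * w) \ SH s w Z ω) s.y u} ∧ ω ∈ Ny} =
      Ev3 s w ρ' v' d Z ∩ Ny := by
    rw [← e1]
    ext ω
    simp only [Set.mem_inter_iff, Set.mem_ofPred_eq]
    tauto
  rw [e1, e2] at main
  exact main

end Pool.Agent.H59.EX

end

section

/-!
# Bad events: two clusters close to the same vertex of the sphere
-/

open MeasureTheory ProbabilityTheory unitInterval

namespace Pool.Agent.H59.EX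

open Pool.Agent.H89.Perc Pool.Agent.H61.NC
open Pool.Agent.H29.Sep (LocTwo BadIn)

variable {s : Src} {w ρ ρ' : ℕ} {v v' : Vert} {d d' : Side} {Z Zy : Set Vert} {Nev Ny : Set Config}
  {q : I}

/-- The balls around a vertex of the sphere are far from the source. -/
private theorem bad_far {r : ℕ} {z : Vert} (hz : z ∈ sphere 0 (8 * w)) (hr : r + 2 < 8 * w)
    {a : Vert} (ha : a ∈ ball z r) : a ∉ ball 0 2 := by
  intro h
  obtain ⟨h1, h2⟩ := hz
  rw [mem_ball] at h1 ha h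
  simp only [Prod.fst_zero, Prod.snd_zero, zero_sub, zero_add] at h1 h2 h
  push_cast at h1 h2 h
  omega

/-- On sets far from the source the configuration is not cut. -/
private theorem bad_uncut {ω : Config} {S : Set Vert} {a b : Vert}
    (hS : ∀ p ∈ S, p ∉ ball 0 2) (h : Conn ω S a b) : Conn (s.cut ω) S a b :=
  h.congr fun _ he _ => (cut_of_not_ball (Or.inl (hS _ he))).symm

theorem four_mono {r r' : ℕ} (h : 2 ≤ r) (hr : r ≤ r') : Four s r' ⊆ Four s r := by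
  rcases hr.eq_or_lt with h0 | h0
  · subst h0; exact le_rfl
  have hsub : ball (0 : Vert) r ⊆ ball 0 r' := by
    intro a ha
    simp only [mem_ball] at ha ⊢
    omega
  have hsub2 : ball (0 : Vert) 2 ⊆ ball 0 r := by
    intro a ha
    simp only [mem_ball] at ha ⊢
    omega
  have hout : ∀ u ∈ sphere (0 : Vert) r', u ∉ ball 0 r := by
    rintro u ⟨hu1, hu2⟩ hu3
    simp only [mem_ball] at hu1 hu3
    omega
  rintro ω ⟨⟨u, hu, h1⟩, ⟨u', hu', h2⟩, h3⟩
  obtain ⟨x, hx, hcx⟩ := h1.to_sphere (v := 0) (r := r) (hsub2 s.hx) (Or.inl (hout u hu))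
  obtain ⟨x', hx', hcx'⟩ := h2.to_sphere (v := 0) (r := r) (hsub2 s.hy) (Or.inl (hout u' hu'))
  exact ⟨⟨x, hx, hcx.mono_set Set.inter_subset_right⟩,
    ⟨x', hx', hcx'.mono_set Set.inter_subset_right⟩, fun h5 => h3 (h5.mono_set hsub)⟩

/-- If `x` lands near `v` and the cluster of `y` comes near `v`, then two distinct clusters cross
a half annulus. -/
theorem bad0 (hρ : 1 ≤ ρ) (hw : 64 * ρ ≤ w) (hv : v ∈ sphere 0 (8 * w)) {ω : Config}
    (hω : ω ∈ Four s (8 * w))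
    (hx : ∃ u ∈ sphere 0 (8 * w), u ∈ ball v ρ ∧ Conn (s.cut ω) (ball 0 (8 * w)) s.x u)
    (hy : ¬ Disjoint (SY s w ω) (ball v (11 * ρ))) :
    ω ∈ Four s (2 * w) ∧ ∃ z ∈ sphere 0 (8 * w), ω ∈ LocTwo (ball 0 (8 * w)) z (11 * ρ) (4 * w) := by
  refine ⟨four_mono (by omega) (by omega) hω, v, hv, ?_⟩
  obtain ⟨u, -, huv, hxu⟩ := hx
  obtain ⟨p, hp, hpv⟩ := Set.not_disjoint_iff.1 hy
  have hyp : Conn (s.cut ω) (ball 0 (8 * w)) s.y p := mem_clus_single.1 hp
  have hfar : ∀ a ∈ ball v (4 * w), a ∉ ball 0 2 := fun a ha => bad_far hv (by omega) ha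
  have hu11 : u ∈ ball v (11 * ρ) := by
    rw [mem_ball] at huv ⊢
    push_cast
    omega
  have hsub : ball v (11 * ρ) ⊆ ball v (4 * w) := by
    intro a ha
    rw [mem_ball] at ha ⊢
    push_cast at ha ⊢
    omega
  obtain ⟨a, ha, hca⟩ := hxu.symm.to_sphere (v := v) (r := 4 * w) (hsub hu11)
    (Or.inl fun h => hfar _ h s.hx)
  obtain ⟨b, hb, hcb⟩ := hyp.symm.to_sphere (v := v) (r := 4 * w) (hsub hpv)
    (Or.inl fun h => hfar _ h s.hy)
  refine ⟨u, hu11, p, hpv, a, ha, b, hb, hca.mono le_rfl fun e he => cut_le he,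
    hcb.mono le_rfl fun e he => cut_le he, fun h => hω.2.2 ?_⟩
  have h1 : Conn (s.cut ω) (ball 0 (8 * w) ∩ ball v (4 * w)) u p :=
    bad_uncut (fun q hq => hfar q hq.2) h
  exact (hxu.trans (h1.mono_set Set.inter_subset_left)).trans hyp.symm

/-- If the clusters of `x` (after gluing) and of `y` come close to the same vertex, then two
distinct clusters cross a half annulus. -/
theorem bad12 (hK : CorrData w ρ v d Z Nev) (hρ' : 1 ≤ ρ') (h1 : 64 * ρ' ≤ ρ) (h2 : 64 * ρ ≤ w)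
    (hv : v ∈ sphere 0 (8 * w)) {ω : Config} (hω : ω ∈ Ev0 s w ρ v)
    (hg : ω ∉ Good12 s w ρ' Z) :
    ω ∈ Four s (2 * w) ∧ ∃ z ∈ sphere 0 (8 * w), ω ∈ LocTwo (ball 0 (8 * w)) z (12 * ρ') ρ := by
  obtain ⟨⟨u, hu, huv, hxu⟩, ⟨u', hu', hyu'⟩, hxy, hdis⟩ := hω
  refine ⟨four_mono (by omega) (by omega) ⟨⟨u, hu, hxu⟩, ⟨u', hu', hyu'⟩, hxy⟩, ?_⟩
  simp only [Good12, Set.mem_ofPred_eq, not_forall, not_not] at hg
  obtain ⟨z, hz, ⟨a, ha1, haz⟩, ⟨b, hb1, hbz⟩⟩ := hg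
  refine ⟨z, hz, ?_⟩
  have hfar : ∀ p ∈ ball z ρ, p ∉ ball 0 2 := fun p hp => bad_far hz (by omega) hp
  have hsub : ball z (12 * ρ') ⊆ ball z ρ := by
    intro p hp
    rw [mem_ball] at hp ⊢
    push_cast at hp ⊢
    omega
  -- the corridor is far from `z`
  have hbv : b ∉ ball v (11 * ρ) := Set.disjoint_left.1 hdis hb1
  have hZ : ∀ p ∈ ball z ρ, p ∉ Z := by
    intro p hp hpZ
    have h3 : z ∈ ball v (5 * ρ) := by
      refine hK.inter p hpZ z hz.1 ?_
      rw [mem_ball] at hp ⊢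
      omega
    apply hbv
    rw [mem_ball] at h3 hbz ⊢
    push_cast at h3 hbz ⊢
    omega
  have hca : Conn (fillV Z (s.cut ω)) (ball 0 (8 * w) ∪ Z) s.x a := mem_clus_single.1 ha1
  have hcb : Conn (s.cut ω) (ball 0 (8 * w)) s.y b := mem_clus_single.1 hb1
  obtain ⟨a', ha', haa'⟩ := hca.symm.to_sphere (v := z) (r := ρ) (hsub haz)
    (Or.inl fun h => hfar _ h s.hx)
  obtain ⟨b', hb', hbb'⟩ := hcb.symm.to_sphere (v := z) (r := ρ) (hsub hbz)
    (Or.inl fun h => hfar _ h s.hy)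
  have hDa : Conn ω (ball 0 (8 * w) ∩ ball z ρ) a a' := by
    have h4 : Conn (s.cut ω) ((ball 0 (8 * w) ∪ Z) ∩ ball z ρ) a a' := by
      refine haa'.congr fun e he _ => ?_
      have h5 : e ∉ inE Z := fun h => hZ _ he.2 h.1
      simp [fillV, h5]
    refine h4.mono ?_ fun e he => cut_le he
    rintro p ⟨hp | hp, hp'⟩
    · exact ⟨hp, hp'⟩
    · exact absurd hp (hZ p hp')
  refine ⟨a, haz, b, hbz, a', ha', b', hb', hDa, hbb'.mono le_rfl fun e he => cut_le he, fun h => ?_⟩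
  have h6 : Conn (s.cut ω) (ball 0 (8 * w) ∩ ball z ρ) a b :=
    bad_uncut (fun q hq => hfar q hq.2) h
  have h7 : b ∈ S1 s w Z ω := by
    refine clus_conn ha1 (h6.mono ?_ fun e he => fillV_true.2 (Or.inl he))
    exact Set.inter_subset_left.trans Set.subset_union_left
  exact Set.disjoint_left.1 (S1_disj_SY hK (by omega) hdis hxy) h7 hb1

private theorem bad_localOn_four (r : ℕ) :
    LocalOn (eRect (-r) r (-r) r) (Four s r) := by
  have key : ∀ ω ω' : Config, (∀ f ∈ eRect (-r) r (-r) r,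
      ω f = ω' f) → ∀ u v : Vert, Conn (s.cut ω) (ball 0 r) u v →
        Conn (s.cut ω') (ball 0 r) u v := by
    intro ω ω' h u v hc
    refine Conn.congr (fun f hf _ => ?_) hc
    have : ω f = ω' f := by
      refine h f (mem_eRect.2 ?_)
      rw [mem_ball] at hf
      simpa [rect] using hf
    simp only [Src.cut, closeS, this]
  rintro ω ω' h ⟨⟨u, hu, h1⟩, ⟨u', hu', h2⟩, h3⟩
  exact ⟨⟨u, hu, key _ _ h _ _ h1⟩, ⟨u', hu', key _ _ h _ _ h2⟩,
    fun h4 => h3 (key _ _ (fun f hf => (h f hf).symm) _ _ h4)⟩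

/-- Independence of the inner four-arm event and of the events near the sphere. -/
theorem four_bad_indep {t ρ₁ : ℕ} (ht : t ≤ ρ₁) (hρ₁ : ρ₁ ≤ 4 * w) (hw : 1 ≤ w) :
    Pr q (Four s (2 * w) ∩ {ω | ∃ z ∈ sphere 0 (8 * w), ω ∈ LocTwo (ball 0 (8 * w)) z t ρ₁}) =
      Pr q (Four s (2 * w)) *
        Pr q {ω | ∃ z ∈ sphere 0 (8 * w), ω ∈ LocTwo (ball 0 (8 * w)) z t ρ₁} := by
  classical
  set Λ : Finset Edge := eRect (-(8 * w : ℕ)) (8 * w : ℕ) (-(8 * w : ℕ)) (8 * w : ℕ) \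
    eRect (-(2 * w : ℕ)) (2 * w : ℕ) (-(2 * w : ℕ)) (2 * w : ℕ) with hΛ
  refine Pr_inter_of_disjoint (bad_localOn_four (2 * w)) (t := Λ) ?_ ?_
  · have key : ∀ z ∈ sphere (0 : Vert) (8 * w), ∀ ω ω' : Config, (∀ f ∈ Λ, ω f = ω' f) →
        ∀ u v : Vert, Conn ω (ball 0 (8 * w) ∩ ball z ρ₁) u v →
          Conn ω' (ball 0 (8 * w) ∩ ball z ρ₁) u v := by
      intro z hz ω ω' h u v hc
      refine Conn.congr (fun f hf _ => h f ?_) hc
      obtain ⟨hf1, hf2⟩ := hf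
      obtain ⟨hz1, hz2⟩ := hz
      rw [hΛ, Finset.mem_sdiff, mem_eRect, mem_eRect]
      simp only [mem_ball, rect, Set.mem_ofPred_eq, Prod.fst_zero, Prod.snd_zero, zero_sub,
        zero_add] at hf1 hf2 hz1 hz2 ⊢
      push_cast at hf1 hf2 hz1 hz2 ⊢
      omega
    rintro ω ω' h ⟨z, hz, u, hu, u', hu', p, hp, p', hp', h1, h2, h3⟩
    exact ⟨z, hz, u, hu, u', hu', p, hp, p', hp', key z hz _ _ h _ _ h1, key z hz _ _ h _ _ h2,
      fun h4 => h3 (key z hz _ _ (fun f hf => (h f hf).symm) _ _ h4)⟩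
  · exact Finset.disjoint_sdiff

end Pool.Agent.H59.EX

end
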