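import Pool.Agent.H94.BG.H31.PT.M07_3

/-! The parts of this file: H83.Site.Near, H83.Site.Chain, H83.Site.Bdd, H83.Site.Crit, H83.Site.ArmT, H83.SK.P57.Base, H83.SK.P57.Stage2a, H83.SK.P57.Det2. -/

section

/-! # Russo-Seymour-Welsh for probabilities close to one -/

set_option autoImplicit false

open MeasureTheory ProbabilityTheory unitInterval

namespace Pool.Agent.H83.Site

open Pool.Agent.H89.Perc

end Pool.Agent.H83.Site

end

section

/-! # Finite size criterion: connections to infinity, absence of percolation -/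

set_option autoImplicit false

open MeasureTheory ProbabilityTheory unitInterval

namespace Pool.Agent.H83.Site

open Pool.Agent.H89.Perc

theorem thT_le_ab (p : I) (r : Bool) (n : ℕ) : thT p r ≤ ab p r 0 n :=
  PT_mono fun _ h => h n

/-- The arm to distance `M` crosses one of four rectangles. -/
private theorem chain_arm_sub {M : ℕ} (hM : 1 ≤ M) :
    AB 0 0 0 M ⊆ (({η | VC η (-M) M 1 M} ∪ {η | VC η (-M) M (-M) (-1)}) ∪
      {η | HC η 1 M (-M) M}) ∪ {η | HC η (-M) (-1) (-M) M} := by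
  rintro η ⟨u, hu, w, hw, hc⟩
  obtain ⟨h1, h2, h3⟩ := hw
  rw [mem_TR] at hu
  simp only [Nat.cast_zero, sub_zero, add_zero, mul_zero, zero_sub, zero_add] at hu h3 hc h1
  have hMz : (1 : ℤ) ≤ M := by exact_mod_cast hM
  rcases h3 with h3 | h3 | h3 | h3
  · right
    obtain ⟨y, y', h4, -, -⟩ := hc.symm.cross_x (a := -M) (b := -1)
      (by rw [fx_even h2]; omega) (by omega) (by omega)
    rw [TR_inter_x (by omega) (by omega)] at h4
    exact ⟨y, y', h4⟩
  · left; right
    obtain ⟨y, y', h4, -, -⟩ := hc.cross_x (a := 1) (b := M)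
      (by omega) (by rw [fx_even h2]; omega) (by omega)
    rw [TR_inter_x (by omega) (by omega)] at h4
    exact ⟨y, y', h4⟩
  · left; left; right
    obtain ⟨y, y', h4, -, -⟩ := hc.symm.cross_y (c := -M) (d := -1)
      (by rw [fy_even h2]; omega) (by omega) (by omega)
    rw [TR_inter_y (by omega) (by omega)] at h4
    exact ⟨y, y', h4⟩
  · left; left; left
    obtain ⟨y, y', h4, -, -⟩ := hc.cross_y (c := 1) (d := M)
      (by omega) (by rw [fy_even h2]; omega) (by omega)
    rw [TR_inter_y (by omega) (by omega)] at h4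
    exact ⟨y, y', h4⟩

private theorem chain_arm_le {p : I} {r : Bool} {M : ℕ} (hM : 1 ≤ M) :
    ab p r 0 M ≤ 4 * qc (σ p) (!r) M := by
  have hq : qc (σ p) (!r) M = PT p r {η | VC η 0 (4 * M) 1 M} := by
    unfold qc
    have := PT_neg (p := σ p) (r := !r) (localOn_VC 0 (4 * (M : ℤ)) 1 M)
    rw [σσ, Bool.not_not] at this
    exact this
  have hMz : (1 : ℤ) ≤ M := by exact_mod_cast hM
  have hv : ∀ a c : ℤ, PT p r {η | VC η a (a + 2 * M) c (c + (M - 1))} ≤
      PT p r {η | VC η 0 (4 * M) 1 M} := by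
    intro a c
    have h1 := PT_VC_shf p r 0 (2 * M) 1 M a (c - 1)
    have e1 : (0 : ℤ) + a = a := by ring
    have e2 : 2 * (M : ℤ) + a = a + 2 * M := by ring
    have e3 : 1 + (c - 1) = c := by ring
    have e4 : (M : ℤ) + (c - 1) = c + (M - 1) := by ring
    rw [e1, e2, e3, e4] at h1
    rw [h1]
    exact PT_mono fun η hη => VC.mono hη le_rfl (by omega) le_rfl hMz le_rfl
  have h1 : PT p r {η | VC η (-M) M 1 M} ≤ PT p r {η | VC η 0 (4 * M) 1 M} := by
    have := hv (-M) 1
    have e1 : -(M : ℤ) + 2 * M = M := by ring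
    have e2 : 1 + ((M : ℤ) - 1) = M := by ring
    rwa [e1, e2] at this
  have h2 : PT p r {η | VC η (-M) M (-M) (-1)} ≤ PT p r {η | VC η 0 (4 * M) 1 M} := by
    have := hv (-M) (-M)
    have e1 : -(M : ℤ) + 2 * M = M := by ring
    have e2 : -(M : ℤ) + (M - 1) = -1 := by ring
    rwa [e1, e2] at this
  have h3 : PT p r {η | HC η 1 M (-M) M} ≤ PT p r {η | VC η 0 (4 * M) 1 M} := by
    rw [← PT_VC_eq_HC]; exact h1
  have h4 : PT p r {η | HC η (-M) (-1) (-M) M} ≤ PT p r {η | VC η 0 (4 * M) 1 M} := by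
    rw [← PT_VC_eq_HC]; exact h2
  have h5 : ab p r 0 M ≤ ((PT p r {η | VC η (-M) M 1 M} + PT p r {η | VC η (-M) M (-M) (-1)}) +
      PT p r {η | HC η 1 M (-M) M}) + PT p r {η | HC η (-M) (-1) (-M) M} := by
    refine (PT_mono (chain_arm_sub hM)).trans ?_
    refine PT_union_le.trans (add_le_add ?_ le_rfl)
    refine PT_union_le.trans (add_le_add ?_ le_rfl)
    exact PT_union_le
  rw [hq]
  linarith

open Filter Topology in
/-- No percolation when the crossing probability of one long rectangle for the matching lattice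
is close to one. -/
theorem fs_minus {p : I} {r : Bool} {m : ℕ} (hm : 1 ≤ m) (h : qc (σ p) (!r) m ≤ 1 / 242) :
    thT p r = 0 := by
  have h1 : ∀ k : ℕ, thT p r ≤ (1 / 2 : ℝ) ^ k := by
    intro k
    have hn : 1 ≤ 2 ^ k * m := Nat.one_le_iff_ne_zero.2 (by positivity)
    have h2 := (thT_le_ab p r (2 ^ k * m)).trans (chain_arm_le hn)
    have h3 := qc_iter hm h k
    have h4 : (1 / 2 : ℝ) ^ (2 ^ k) ≤ (1 / 2) ^ k :=
      pow_le_pow_of_le_one (by norm_num) (by norm_num) (Nat.lt_two_pow_self).le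
    have h5 : (0 : ℝ) ≤ (1 / 2 : ℝ) ^ (2 ^ k) := by positivity
    linarith
  have h2 : Tendsto (fun k : ℕ => (1 / 2 : ℝ) ^ k) atTop (𝓝 0) :=
    tendsto_pow_atTop_nhds_zero_of_lt_one (by norm_num) (by norm_num)
  have h3 : thT p r ≤ 0 := ge_of_tendsto h2 (Filter.Eventually.of_forall h1)
  exact le_antisymm h3 PT_nonneg

end Pool.Agent.H83.Site

end

section

/-! # Russo-Seymour-Welsh for probabilities bounded away from zero -/

set_option autoImplicit false

open MeasureTheory ProbabilityTheory unitInterval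

namespace Pool.Agent.H83.Site

open Pool.Agent.H89.Perc

/-- The left end of a crossing of the square `[0, n]²` is joined to the top of
`[0, 2 n] × [0, m]`. -/
def XV (n m : ℤ) : Set Config :=
  {η | ∃ y y' x : ℤ, TConn η (TR 0 n 0 n) (0, y, false) (n, y', false) ∧
    TConn η (TR 0 (2 * n) 0 m) (0, y, false) (x, m, false)}

/-- The mirror image of `XV n m`. -/
def XV' (n m : ℤ) : Set Config :=
  {η | ∃ y y' x : ℤ, TConn η (TR 0 n 0 n) (0, y, false) (n, y', false) ∧
    TConn η (TR 0 (2 * n) (n - m) n) (0, y, false) (x, n - m, false)}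

theorem localOn_XV {n m : ℤ} (hn : 0 ≤ n) (hnm : n ≤ m) :
    LocalOn (eRect 0 (2 * n) 0 m) (XV n m) := by
  rintro η η' h ⟨y, y', x, h1, h2⟩
  refine ⟨y, y', x, h1.congr fun v hv => h v (TR_subset_eRect ?_),
    h2.congr fun v hv => h v (TR_subset_eRect hv)⟩
  exact TR_mono le_rfl (by omega) le_rfl hnm hv

theorem incr_XV (n m : ℤ) : Incr (XV n m) := by
  rintro η η' h ⟨y, y', x, h1, h2⟩
  exact ⟨y, y', x, h1.mono le_rfl fun v _ => h v, h2.mono le_rfl fun v _ => h v⟩

theorem localOn_XV' {n m : ℤ} (hn : 0 ≤ n) (hnm : n ≤ m) :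
    LocalOn (eRect 0 (2 * n) (n - m) n) (XV' n m) := by
  rintro η η' h ⟨y, y', x, h1, h2⟩
  refine ⟨y, y', x, h1.congr fun v hv => h v (TR_subset_eRect ?_),
    h2.congr fun v hv => h v (TR_subset_eRect hv)⟩
  exact TR_mono le_rfl (by omega) (by omega) le_rfl hv

theorem incr_XV' (n m : ℤ) : Incr (XV' n m) := by
  rintro η η' h ⟨y, y', x, h1, h2⟩
  exact ⟨y, y', x, h1.mono le_rfl fun v _ => h v, h2.mono le_rfl fun v _ => h v⟩

private theorem rfy_site (z x y : ℤ) : rfy z (x, y, false) = (x, z - y, false) := by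
  simp [rfy]

private theorem XV'_eq (n m : ℤ) :
    {η : Config | (fun v => η (rfy n v)) ∈ XV n m} = XV' n m := by
  ext η
  constructor
  · rintro ⟨y, y', x, h1, h2⟩
    rw [tconn_rfy, rfy_site, rfy_site] at h1 h2
    refine ⟨n - y, n - y', x, ?_, ?_⟩
    · simpa using h1
    · simpa using h2
  · rintro ⟨y, y', x, h1, h2⟩
    refine ⟨n - y, n - y', x, ?_, ?_⟩
    · rw [tconn_rfy, rfy_site, rfy_site]
      simpa using h1
    · rw [tconn_rfy, rfy_site, rfy_site]
      simpa using h2

theorem PT_XV' (p : I) (r : Bool) {n m : ℤ} (hn : 0 ≤ n) (hnm : n ≤ m) :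
    PT p r (XV' n m) = PT p r (XV n m) := by
  rw [← XV'_eq, PT_comp (localOn_XV hn hnm) (rfy_injective n).injOn (fun _ => rfl)]

theorem LJ_subset_XV {n m : ℤ} (hn : 0 ≤ n) (hnm : n ≤ m) : LJ n 0 n m ⊆ XV n m := by
  rintro η ⟨h1, h2⟩
  obtain ⟨y, y', h⟩ := low_exists hn hn h1
  obtain ⟨x, hx⟩ := low_joined hnm h h2
  exact ⟨y, y', x, h.mono le_rfl fun v _ hv => (zet_eq_true.1 hv).1, hx⟩

theorem glue_XV {n m : ℤ} (hn : 0 ≤ n) (hnm : n ≤ m) :
    (XV n m ∩ XV' n m) ∩ {η | VC η 0 n 0 n} ⊆ {η | VC η 0 (2 * n) (n - m) m} := by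
  rintro η ⟨⟨⟨y, y', x, h1, h2⟩, ⟨z, z', x', h1', h2'⟩⟩, ⟨w, w', h3⟩⟩
  have h4 := glue_hv h1 h3
  have h5 := glue_hv h1' h3
  have h6 := (h5.trans h4.symm).mono_set (TR_mono (a' := 0) (b' := 2 * n) (c' := n - m) (d' := m)
    le_rfl (by omega) (by omega) hnm)
  have h7 := h2.mono_set (TR_mono (a' := 0) (b' := 2 * n) (c' := n - m) (d' := m)
    le_rfl le_rfl (by omega) le_rfl)
  have h8 := h2'.mono_set (TR_mono (a' := 0) (b' := 2 * n) (c' := n - m) (d' := m)
    le_rfl le_rfl le_rfl hnm)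
  exact ⟨x', x, (h8.symm.trans h6).trans h7⟩

theorem half_le_sqrt {v : ℝ} (h0 : 0 ≤ v) (h1 : v ≤ 1) : v / 2 ≤ 1 - Real.sqrt (1 - v) := by
  have h2 : Real.sqrt (1 - v) ≤ 1 - v / 2 := by
    rw [Real.sqrt_le_left (by linarith)]
    nlinarith
  linarith

private theorem localOn_site (v : TV) : LocalOn {v} {η : Config | η v = true} := by
  intro η η' h hA
  have : η v = η' v := h v (by simp)
  simp only [Set.mem_ofPred_eq] at hA ⊢
  rw [← this]
  exact hA

private theorem incr_site (v : TV) : Incr {η : Config | η v = true} := fun _ _ h hA => h v hA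

/-- All sites of a row are open. -/
theorem row_prob (p : I) (r : Bool) {q : ℝ} (hq : 0 ≤ q)
    (h : ∀ x : ℤ, q ≤ PT p r {η | η (x, 0, false) = true}) (N : ℕ) :
    q ^ (N + 1) ≤ PT p r {η | ∀ i ≤ N, η ((i : ℤ), 0, false) = true} ∧
      ∃ s, LocalOn s {η : Config | ∀ i ≤ N, η ((i : ℤ), 0, false) = true} := by
  classical
  induction N with
  | zero =>
    have e : {η : Config | ∀ i ≤ (0 : ℕ), η ((i : ℤ), 0, false) = true} =
        {η | η (0, 0, false) = true} := by
      ext η
      simp only [Set.mem_ofPred_eq, Nat.le_zero, forall_eq, Nat.cast_zero]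
    rw [e]
    exact ⟨by simpa using h 0, _, localOn_site _⟩
  | succ N ih =>
    obtain ⟨h1, s, h2⟩ := ih
    have e : {η : Config | ∀ i ≤ N + 1, η ((i : ℤ), 0, false) = true} =
        {η : Config | ∀ i ≤ N, η ((i : ℤ), 0, false) = true} ∩
          {η | η (((N + 1 : ℕ) : ℤ), 0, false) = true} := by
      ext η
      simp only [Set.mem_ofPred_eq, Set.mem_inter_iff]
      constructor
      · exact fun h => ⟨fun i hi => h i (by omega), h (N + 1) le_rfl⟩
      · rintro ⟨h, h'⟩ i hi
        rcases Nat.lt_or_ge N i with hi' | hi'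
        · obtain rfl : i = N + 1 := by omega
          exact h'
        · exact h i hi'
    have hi : Incr {η : Config | ∀ i ≤ N, η ((i : ℤ), 0, false) = true} :=
      fun _ _ h hA i hi => h _ (hA i hi)
    rw [e]
    refine ⟨?_, _, h2.inter' (localOn_site _)⟩
    refine le_trans ?_ (PT_fkg h2 (localOn_site _) hi (incr_site _))
    rw [pow_succ]
    exact mul_le_mul h1 (h _) hq PT_nonneg

theorem row_subset {m : ℤ} (hm : 0 ≤ m) (N : ℕ) :
    {η : Config | ∀ i ≤ N, η ((i : ℤ), 0, false) = true} ⊆ {η | HC η 0 N 0 m} := by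
  intro η h
  refine ⟨0, 0, ?_⟩
  have key : ∀ i : ℕ, i ≤ N → TConn η (TR 0 N 0 m) (0, 0, false) ((i : ℤ), 0, false) := by
    intro i
    induction i with
    | zero =>
      intro _
      exact TConn.refl (mem_TR_site.2 ⟨le_rfl, by omega, le_rfl, hm⟩) (by
        simpa using h 0 (Nat.zero_le _))
    | succ i ih =>
      intro hi
      refine (ih (by omega)).tail ⟨mem_TR_site.2 ⟨by omega, by omega, le_rfl, hm⟩,
        mem_TR_site.2 ⟨by omega, by omega, le_rfl, hm⟩, ?_, h i (by omega), h (i + 1) hi⟩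
      refine Or.inl ⟨rfl, rfl, Or.inr ⟨rfl, Or.inr ?_⟩⟩
      push_cast
      ring
  exact key N le_rfl

theorem PT_site (p : I) (r : Bool) (x y : ℤ) :
    PT p r {η | η (x, y, false) = true} = PT p r {η | η (0, 0, false) = true} := by
  rw [← PT_comp (p := p) (r := r) (localOn_site (0, 0, false)) (shf_injective x y).injOn
    (fun _ => rfl)]
  congr 1
  ext η
  simp [shf]

theorem site_prob (p : I) (r : Bool) {δ : ℝ}
    (h : δ ≤ PT p r {η | HC η 0 2 0 2}) : δ / 3 ≤ PT p r {η | η (0, 0, false) = true} := by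
  have h1 : {η : Config | HC η 0 2 0 2} ⊆ ({η | η (0, 0, false) = true} ∪
      {η | η (0, 1, false) = true}) ∪ {η | η (0, 2, false) = true} := by
    rintro η ⟨y, y', hc⟩
    have h2 := mem_TR_site.1 hc.mem_left
    have h3 := hc.open_left
    have h4 : y = 0 ∨ y = 1 ∨ y = 2 := by omega
    rcases h4 with rfl | rfl | rfl
    · exact Or.inl (Or.inl h3)
    · exact Or.inl (Or.inr h3)
    · exact Or.inr h3
  have h2 := (PT_mono (p := p) (r := r) h1).trans (PT_union_le.trans
    (add_le_add_left PT_union_le _))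
  rw [PT_site p r 0 1, PT_site p r 0 2] at h2
  linarith

end Pool.Agent.H83.Site

end

section

/-! # The critical point -/

set_option autoImplicit false

open MeasureTheory ProbabilityTheory unitInterval

namespace Pool.Agent.H83.Site

open Pool.Agent.H89.Perc

/-- The critical density of site percolation on the square lattice. -/
noncomputable def pc : I := sSup {p : I | thT p false = 0}

theorem thT_pos_of_pc_lt {p : I} (h : pc < p) : 0 < thT p false := by
  have h0 : 0 ≤ thT p false := PT_nonneg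
  rcases h0.lt_or_eq with h1 | h1
  · exact h1
  · exact absurd (le_sSup (show p ∈ {p : I | thT p false = 0} from h1.symm)) (not_le.2 h)

theorem crit_Pr_zero {s : Finset Edge} {A : Set Config} (hA : LocalOn s A) (h : ofS ∅ ∉ A) :
    Pr 0 A = 0 := by
  have hc : LocalOn s (cyl s ∅) := by
    intro ω ω' hω hE
    rw [mem_cyl] at hE ⊢
    intro e he
    rw [← hω e he]
    exact hE e he
  have hsub : A ⊆ (cyl s ∅)ᶜ := by
    intro ω hω hcyl
    rw [mem_cyl] at hcyl
    exact h (hA ω (ofS ∅) hcyl hω)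
  have h1 : Pr 0 (cyl s ∅) = 1 := by
    rw [Pr_cyl 0 (Finset.empty_subset s)]
    simp
  refine le_antisymm ?_ Pr_nonneg
  refine (Pr_mono hsub).trans ?_
  rw [Pr_compl hc, h1]
  norm_num

theorem crit_qc_zero (r : Bool) {m : ℕ} (hm : 1 ≤ m) : qc 0 r m = 1 := by
  rw [qc_eq 0 r hm]
  have h : PT 0 r {η | HC η 0 (4 * m) 1 m} = 0 := by
    unfold PT
    refine crit_Pr_zero (localOn_full r (localOn_HC 0 (4 * m) 1 m)) ?_
    rintro ⟨y, y', hc⟩
    have h1 := hc.open_left
    simp [full, ofS] at h1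
  rw [h]
  norm_num

theorem crit_qc_continuous (r : Bool) (m : ℕ) : Continuous (fun p : I => qc p r m) :=
  PT_continuous (LocalOn.neg (localOn_VC 0 (4 * m) 1 m)) r

theorem crit_exists_lt {f : I → ℝ} (hf : Continuous f) {x : ℝ} {a : I} (ha : f a < x)
    (h0 : 0 < a) : ∃ b < a, f b < x := by
  have h1 : {p : I | f p < x} ∈ nhds a := (isOpen_lt hf continuous_const).mem_nhds ha
  obtain ⟨l, hl, hs⟩ := exists_Ioc_subset_of_mem_nhds h1 ⟨0, h0⟩
  obtain ⟨b, hb1, hb2⟩ := exists_between hl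
  exact ⟨b, hb2, hs ⟨hb1, hb2.le⟩⟩

theorem crit_exists_gt {f : I → ℝ} (hf : Continuous f) {x : ℝ} {a : I} (ha : f a < x)
    (h0 : a < 1) : ∃ b, a < b ∧ f b < x := by
  have h1 : {p : I | f p < x} ∈ nhds a := (isOpen_lt hf continuous_const).mem_nhds ha
  obtain ⟨l, hl, hs⟩ := exists_Ico_subset_of_mem_nhds h1 ⟨1, h0⟩
  obtain ⟨b, hb1, hb2⟩ := exists_between hl
  exact ⟨b, hb1, hs ⟨hb1.le, hb2⟩⟩

theorem crit_dual (p : I) (r : Bool) {a b c d : ℤ} (hab : a ≤ b) (hcd : c ≤ d) :
    PT p r {η | HC η a b c d} = 1 - PT (σ p) (!r) {η | HC η c d a b} := by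
  have h1 : {η : Config | HC η a b c d} = {η | VC (neg η) a b c d}ᶜ := by
    ext η
    simp only [Set.mem_ofPred_eq, Set.mem_compl_iff]
    constructor
    · intro h
      exact not_hc_and_vc h
    · intro h
      exact (hc_or_vc hab hcd η).resolve_right h
  have h4 : LocalOn (eRect a b c d) {η | VC (neg η) a b c d} :=
    LocalOn.neg (localOn_VC a b c d)
  rw [h1, PT_compl h4]
  have h2 : PT p r {η | neg η ∈ {η | VC η a b c d}} = PT (σ p) (!r) {η | VC η a b c d} :=
    PT_neg (localOn_VC a b c d)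
  have h3 : PT p r {η | VC (neg η) a b c d} = PT (σ p) (!r) {η | VC η a b c d} := h2
  rw [h3, PT_VC_eq_HC]

end Pool.Agent.H83.Site

end

section

/-! # Extension of arms, averages -/

set_option autoImplicit false

open MeasureTheory ProbabilityTheory unitInterval

namespace Pool.Agent.H83.Site

open Pool.Agent.H89.Perc

/-! ### Open sites -/

end Pool.Agent.H83.Site

end

section

/-!
# Site percolation: probability with some closed sites, exploration
-/

open MeasureTheory ProbabilityTheory unitInterval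

namespace Pool.Agent.H83.SK

open Pool.Agent.H89.Perc Pool.Agent.H61.NC Pool.Agent.H29.Sep

/-! ### Exploration -/

end Pool.Agent.H83.SK

end

section

/-!
# Site percolation: sealing of the first cluster
-/

open MeasureTheory ProbabilityTheory unitInterval

namespace Pool.Agent.H83.SK

open Pool.Agent.H89.Perc Pool.Agent.H61.NC Pool.Agent.H29.Sep

end Pool.Agent.H83.SK

end

section

/-!
# Site percolation: the sealed cluster
-/

open MeasureTheory ProbabilityTheory unitInterval

namespace Pool.Agent.H83.SK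

open Pool.Agent.H89.Perc Pool.Agent.H61.NC Pool.Agent.H29.Sep

end Pool.Agent.H83.SK

end
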