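import Pool.Agent.H94.BG.H31.PT.M07_3
import Pool.Agent.H94.BG.M19

/-! The parts of this file: H83.Site.Near, H83.Site.Chain, H83.Site.Bdd, H83.Site.Crit, H83.Site.ArmT, H83.SK.P57.Base, H83.SK.P57.Stage2a, H83.SK.P57.Det2. -/

section

/-! # Russo-Seymour-Welsh for probabilities close to one -/

set_option autoImplicit false

open MeasureTheory ProbabilityTheory unitInterval

namespace Pool.Agent.H83.Site

open Pool.Agent.H89.Perc

lemma NearG.inter {p : I} {r : Bool} {q₁ q₂ : ℝ} {E F : Set Config}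
    (h1 : NearG p r q₁ E) (h2 : NearG p r q₂ F) : NearG p r (q₁ + q₂) (E ∩ F) := by
  classical
  obtain ⟨⟨s, hs⟩, h1⟩ := h1
  obtain ⟨⟨t, ht⟩, h2⟩ := h2
  have hloc : LocalOn (s ∪ t) (E ∩ F) :=
    (hs.mono Finset.subset_union_left).inter (ht.mono Finset.subset_union_right)
  refine ⟨⟨s ∪ t, hloc⟩, ?_⟩
  have h3 := PT_compl (p := p) (r := r) hloc
  rw [Set.compl_inter] at h3
  have h4 := PT_union_le (p := p) (r := r) (E := Eᶜ) (F := Fᶜ)
  rw [PT_compl hs, PT_compl ht] at h4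
  linarith

private lemma near_st {p : I} {r : Bool} {P : ℤ → ℤ → Prop} {a b l : ℤ} {δ : ℝ}
    (hP : ∀ y y', P y y' ∨ P (2 * l - y) (2 * l - y'))
    (h : 1 - δ ≤ PT p r {η | HC η a b 0 (2 * l)}) : NearG p r (Real.sqrt δ) (NearSt P a b l) := by
  have hloc := near_localOn_st P a b l
  refine ⟨⟨_, hloc⟩, ?_⟩
  obtain ⟨t, ht⟩ := near_localOn_comp hloc (rfy (2 * l))
  have h1 : PT p r {η | (fun v => η (rfy (2 * l) v)) ∈ NearSt P a b l} =
      PT p r (NearSt P a b l) := PT_comp hloc (rfy_injective _).injOn fun _ => rfl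
  have h2 := PT_sqrt_trick (p := p) (r := r) hloc ht (near_incr_st P a b l)
    (fun ω ω' hω hE => near_incr_st P a b l _ _ (fun e he => hω _ he) hE) h1
  have h3 : 1 - δ ≤ PT p r (NearSt P a b l ∪
      {η | (fun v => η (rfy (2 * l) v)) ∈ NearSt P a b l}) := by
    refine h.trans (PT_mono ?_)
    rintro η ⟨y, y', hc⟩
    rcases hP y y' with h | h
    · exact Or.inl ⟨y, y', h, hc⟩
    · refine Or.inr ⟨2 * l - y, 2 * l - y', h, ?_⟩
      rw [tconn_rfy]
      simpa [rfy] using hc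
  have h4 : Real.sqrt (1 - PT p r (NearSt P a b l ∪
      {η | (fun v => η (rfy (2 * l) v)) ∈ NearSt P a b l})) ≤ Real.sqrt δ :=
    Real.sqrt_le_sqrt (by linarith)
  linarith

private lemma near_lj {p : I} {r : Bool} {l : ℤ} (hl : 1 ≤ l) {δ : ℝ} (hδ : 0 ≤ δ)
    (hδ1 : δ ≤ 1) (h : 1 - δ ≤ PT p r {η | HC η 0 (2 * l) 0 (2 * l)}) :
    NearG p r (δ + Real.sqrt δ) (LJ l 0 (2 * l) (2 * l)) := by
  refine ⟨⟨_, localOn_LJ (by omega) le_rfl⟩, ?_⟩
  have h1 := expl_prob p r (l := l) (c := 0) (d := 2 * l) (e := 2 * l) (by omega) (by omega) le_rfl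
  have h2 : 1 - δ ≤ PT p r {η | HC η 0 l 0 (2 * l)} :=
    h.trans (PT_mono fun η hη => HC.mono hη le_rfl (by omega) (by omega) le_rfl le_rfl)
  rw [PT_VC_eq_HC] at h1
  have h3 : Real.sqrt (1 - PT p r {η | HC η 0 (2 * l) 0 (2 * l)}) ≤ Real.sqrt δ :=
    Real.sqrt_le_sqrt (by linarith)
  have h4 : Real.sqrt δ ≤ 1 := by
    rw [Real.sqrt_le_left zero_le_one, one_pow]
    exact hδ1
  have h5 := Real.sqrt_nonneg δ
  have h6 : (1 - δ) * (1 - Real.sqrt δ) ≤ PT p r {η | HC η 0 l 0 (2 * l)} *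
      (1 - Real.sqrt (1 - PT p r {η | HC η 0 (2 * l) 0 (2 * l)})) :=
    mul_le_mul h2 (by linarith) (by linarith) PT_nonneg
  have h7 : 0 ≤ δ * Real.sqrt δ := mul_nonneg hδ h5
  nlinarith

private lemma near_lj' {p : I} {r : Bool} {l : ℤ} {q : ℝ} {E : Set Config}
    (h : NearG p r q E) : NearG p r q {η | (fun v => η (rfx l v)) ∈ E} := by
  obtain ⟨⟨s, hs⟩, h⟩ := h
  refine ⟨near_localOn_comp hs _, ?_⟩
  rw [PT_comp hs (rfx_injective _).injOn fun _ => rfl]
  exact h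

/-- The deterministic part. -/
private lemma near_det {η : Config} {l : ℤ} (hl : 1 ≤ l)
    (h1 : η ∈ LJ l 0 (2 * l) (2 * l)) (h2 : (fun v => η (rfx l v)) ∈ LJ l 0 (2 * l) (2 * l))
    (h3 : η ∈ NearSt (fun y _ => y ≤ l) 0 l l) (h4 : η ∈ NearSt (fun _ y' => y' ≤ l) 0 l l)
    (h5 : η ∈ NearSt (fun y _ => l ≤ y) 0 (2 * l) l)
    (h6 : η ∈ NearSt (fun _ y' => l ≤ y') (-l) l l) : HC η (-l) (2 * l) 0 (2 * l) := by
  obtain ⟨y, y', hz⟩ := low_exists (by omega) (by omega) h1.1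
  obtain ⟨a0, a1, ha, hca⟩ := h3
  obtain ⟨b0, b1, hb, hcb⟩ := h4
  obtain ⟨c0, c1, hc, hcc⟩ := h5
  obtain ⟨d0, d1, hd, hcd⟩ := h6
  obtain ⟨y2, hy2, hl2⟩ := low_left hz hca
  obtain ⟨y3, hy3, hl3⟩ := low_right hz hcb
  obtain ⟨x, hx⟩ := low_joined le_rfl hz h1.2
  obtain ⟨x', hx'⟩ := low_joined_left le_rfl hz h2.2
  have s1 : TR 0 l 0 (2 * l) ⊆ TR 0 (2 * l) 0 (2 * l) :=
    TR_mono le_rfl (by omega) le_rfl le_rfl
  have s2 : TR 0 l 0 (2 * l) ⊆ TR (-l) l 0 (2 * l) :=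
    TR_mono (by omega) le_rfl le_rfl le_rfl
  have s3 : TR 0 (2 * l) 0 (2 * l) ⊆ TR (-l) (2 * l) 0 (2 * l) :=
    TR_mono (by omega) le_rfl le_rfl le_rfl
  have s4 : TR (-l) l 0 (2 * l) ⊆ TR (-l) (2 * l) 0 (2 * l) :=
    TR_mono le_rfl (by omega) le_rfl le_rfl
  -- right side
  have r1 : TConn η (TR 0 (2 * l) 0 (2 * l)) (0, y2, false) (x, 2 * l, false) :=
    (hl2.mono_set s1).symm.trans hx
  have r2 := glue_left (by omega) r1 hcc
  have r3 : TConn η (TR 0 (2 * l) 0 (2 * l)) (0, y, false) (2 * l, c1, false) :=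
    ((hl2.mono_set s1).trans r2).trans hcc
  -- left side
  have q1 : TConn η (TR (-l) l 0 (2 * l)) (l, y3, false) (x', 2 * l, false) :=
    (hl3.mono_set s2).symm.trans hx'
  have q2 := glue_right (by omega) q1 hcd.symm
  have q3 : TConn η (TR (-l) l 0 (2 * l)) (l, y', false) (-l, d0, false) :=
    ((hl3.mono_set s2).trans q2).trans hcd.symm
  have m1 : TConn η (TR 0 l 0 (2 * l)) (0, y, false) (l, y', false) :=
    hz.mono le_rfl fun v _ hv => (zet_eq_true.1 hv).1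
  exact ⟨d0, c1, (((q3.mono_set s4).symm.trans (m1.mono_set (s2.trans s4)).symm).trans
    (r3.mono_set s3))⟩

private lemma near_three {p : I} {r : Bool} {l : ℤ} (hl : 1 ≤ l) {δ : ℝ} (hδ : 0 ≤ δ)
    (hδ1 : δ ≤ 1) (h : 1 - δ ≤ PT p r {η | HC η 0 (2 * l) 0 (2 * l)}) :
    1 - 8 * Real.sqrt δ ≤ PT p r {η | HC η 0 (3 * l) 0 (2 * l)} := by
  have hs : δ ≤ Real.sqrt δ := Real.le_sqrt_of_sq_le (by nlinarith)
  have e1 := near_lj hl hδ hδ1 h
  have e2 := near_lj' (l := l) e1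
  have hS : 1 - δ ≤ PT p r {η | HC η 0 l 0 (2 * l)} :=
    h.trans (PT_mono fun η hη => HC.mono hη le_rfl (by omega) (by omega) le_rfl le_rfl)
  have hB : 1 - δ ≤ PT p r {η | HC η (-l) l 0 (2 * l)} := by
    have h1 := PT_HC_shf p r 0 (2 * l) 0 (2 * l) (-l) 0
    have e1 : (0 : ℤ) + -l = -l := by ring
    have e2 : 2 * l + -l = l := by ring
    rw [e1, e2, add_zero, add_zero] at h1
    rw [h1]
    exact h
  have e3 := near_st (P := fun y _ => y ≤ l) (fun y y' => by omega) hS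
  have e4 := near_st (P := fun _ y' => y' ≤ l) (fun y y' => by omega) hS
  have e5 := near_st (P := fun y _ => l ≤ y) (fun y y' => by omega) h
  have e6 := near_st (P := fun _ y' => l ≤ y') (fun y y' => by omega) hB
  have e7 := ((((e1.inter e2).inter e3).inter e4).inter e5).inter e6
  have h1 := PT_HC_shf p r 0 (3 * l) 0 (2 * l) (-l) 0
  have f1 : (0 : ℤ) + -l = -l := by ring
  have f2 : 3 * l + -l = 2 * l := by ring
  rw [f1, f2, add_zero, add_zero] at h1
  rw [← h1]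
  refine le_trans ?_ (e7.2.trans (PT_mono ?_))
  · linarith
  · rintro η ⟨⟨⟨⟨⟨h1, h2⟩, h3⟩, h4⟩, h5⟩, h6⟩
    exact near_det hl h1 h2 h3 h4 h5 h6

private lemma near_step {η : Config} {l m : ℤ} (hl : 1 ≤ l) (hm : 0 ≤ m)
    (h1 : HC η 0 (m + 3 * l) 0 (2 * l)) (h2 : HC η (m + l) (m + 4 * l) 0 (2 * l))
    (h3 : VC η (m + l) (m + 3 * l) 0 (2 * l)) : HC η 0 (m + 4 * l) 0 (2 * l) := by
  obtain ⟨y1, y2, h1⟩ := h1
  obtain ⟨z1, z2, h2⟩ := h2
  obtain ⟨x1, x2, h3⟩ := h3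
  obtain ⟨a1, a2, ha, ha1, -⟩ := h1.cross_x (a := m + l) (b := m + 3 * l)
    (by rw [fx_site]; omega) (by rw [fx_site]) (by omega)
  obtain ⟨b1, b2, hb, -, hb2⟩ := h2.cross_x (a := m + l) (b := m + 3 * l)
    (by rw [fx_site]) (by rw [fx_site]; omega) (by omega)
  rw [TR_inter_x (by omega) (by omega)] at ha hb
  have g1 := glue_hv ha h3
  have g2 := glue_hv hb h3
  have s1 : TR 0 (m + 3 * l) 0 (2 * l) ⊆ TR 0 (m + 4 * l) 0 (2 * l) :=
    TR_mono le_rfl (by omega) le_rfl le_rfl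
  have s2 : TR (m + l) (m + 4 * l) 0 (2 * l) ⊆ TR 0 (m + 4 * l) 0 (2 * l) :=
    TR_mono (by omega) le_rfl le_rfl le_rfl
  have s3 : TR (m + l) (m + 3 * l) 0 (2 * l) ⊆ TR 0 (m + 4 * l) 0 (2 * l) :=
    TR_mono (by omega) (by omega) le_rfl le_rfl
  exact ⟨y1, z2, (((ha1.mono_set s1).trans (g1.mono_set s3)).trans (g2.mono_set s3).symm).trans
    ((hb.mono_set s3).trans (hb2.mono_set s2))⟩

theorem near_rsw (p : I) (r : Bool) {l : ℕ} (hl : 1 ≤ l) {δ : ℝ} (hδ : 0 ≤ δ)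
    (h : 1 - δ ≤ PT p r {η | HC η 0 (2 * l) 0 (2 * l)}) :
    1 - 100 * Real.sqrt δ ≤ PT p r {η | HC η 0 (12 * l) 0 (2 * l)} := by
  by_cases hδ1 : 1 < δ
  · have h1 : 1 ≤ Real.sqrt δ := by
      rw [Real.one_le_sqrt]
      exact hδ1.le
    have h2 := PT_nonneg (p := p) (r := r) (E := {η | HC η 0 (12 * l) 0 (2 * l)})
    linarith
  push Not at hδ1
  have hL : (1 : ℤ) ≤ (l : ℤ) := by exact_mod_cast hl
  have hs : δ ≤ Real.sqrt δ := Real.le_sqrt_of_sq_le (by nlinarith)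
  have h3 := near_three hL hδ hδ1 h
  have key : ∀ j : ℕ, 1 - (8 * Real.sqrt δ + j * (9 * Real.sqrt δ)) ≤
      PT p r {η | HC η 0 (j * l + 3 * l) 0 (2 * l)} := by
    intro j
    induction j with
    | zero => simpa using h3
    | succ j ih =>
      have n1 : NearG p r (8 * Real.sqrt δ + j * (9 * Real.sqrt δ))
          {η | HC η 0 (j * l + 3 * l) 0 (2 * l)} := ⟨⟨_, localOn_HC _ _ _ _⟩, ih⟩
      have n2 : NearG p r (8 * Real.sqrt δ)
          {η | HC η (j * l + l) (j * l + 4 * l) 0 (2 * l)} := by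
        refine ⟨⟨_, localOn_HC _ _ _ _⟩, ?_⟩
        have h1 := PT_HC_shf p r 0 (3 * l) 0 (2 * l) (j * l + l) 0
        have f1 : (0 : ℤ) + (j * l + l) = j * l + l := by ring
        have f2 : 3 * (l : ℤ) + (j * l + l) = j * l + 4 * l := by ring
        rw [f1, f2, add_zero, add_zero] at h1
        rw [h1]
        exact h3
      have n3 : NearG p r (Real.sqrt δ)
          {η | VC η (j * l + l) (j * l + 3 * l) 0 (2 * l)} := by
        refine ⟨⟨_, localOn_VC _ _ _ _⟩, ?_⟩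
        have h1 := PT_VC_shf p r 0 (2 * l) 0 (2 * l) (j * l + l) 0
        have f1 : (0 : ℤ) + (j * l + l) = j * l + l := by ring
        have f2 : 2 * (l : ℤ) + (j * l + l) = j * l + 3 * l := by ring
        rw [f1, f2, add_zero, add_zero] at h1
        rw [h1, PT_VC_eq_HC]
        linarith
      have n4 := (n1.inter n2).inter n3
      refine le_trans ?_ (n4.2.trans (PT_mono ?_))
      · push_cast
        linarith
      · rintro η ⟨⟨k1, k2⟩, k3⟩
        have k4 := near_step hL (m := j * l) (by positivity) k1 k2 k3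
        simp only [Set.mem_ofPred_eq]
        have f3 : ((j + 1 : ℕ) : ℤ) * l + 3 * l = j * l + 4 * l := by push_cast; ring
        rw [f3]
        exact k4
  have h4 := key 9
  have f4 : ((9 : ℕ) : ℤ) * l + 3 * l = 12 * l := by push_cast; ring
  rw [f4] at h4
  refine le_trans ?_ h4
  have := Real.sqrt_nonneg δ
  push_cast
  linarith

end Pool.Agent.H83.Site

end

section

/-! # Finite size criterion: connections to infinity, absence of percolation -/

set_option autoImplicit false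

open MeasureTheory ProbabilityTheory unitInterval

namespace Pool.Agent.H83.Site

open Pool.Agent.H89.Perc

end Pool.Agent.H83.Site

end

section

/-! # Russo-Seymour-Welsh for probabilities bounded away from zero -/

set_option autoImplicit false

open MeasureTheory ProbabilityTheory unitInterval

namespace Pool.Agent.H83.Site

open Pool.Agent.H89.Perc

end Pool.Agent.H83.Site

end

section

/-! # The critical point -/

set_option autoImplicit false

open MeasureTheory ProbabilityTheory unitInterval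

namespace Pool.Agent.H83.Site

open Pool.Agent.H89.Perc

end Pool.Agent.H83.Site

end

section

/-! # Extension of arms, averages -/

set_option autoImplicit false

open MeasureTheory ProbabilityTheory unitInterval

namespace Pool.Agent.H83.Site

open Pool.Agent.H89.Perc

/-! ### Open sites -/

theorem arm_extT {p₀ : I} {r : Bool} (h : BXP p₀ r) : ∃ c > (0 : ℝ), ∀ p : I, p₀ ≤ p →
    ∀ m n : ℕ, 1 ≤ m → m ≤ n → c * Real.sqrt ((m : ℝ) / n) * ab p r 0 m ≤ ab p r 0 n := by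
  obtain ⟨c4, hc4, H4⟩ := h 4
  obtain ⟨c2, hc2, H2⟩ := h 2
  obtain ⟨c', hc', HL⟩ := ab_lower hc2
  have HL' := HL p₀ r H2
  have hc41 : c4 ≤ 1 := (H4 1 le_rfl).trans PT_le_one
  have hc44 : c4 ^ 4 ≤ 1 := pow_le_one₀ hc4.le hc41
  refine ⟨c' * (c4 ^ 4 / 2), by positivity, fun p hp m n hm hmn => ?_⟩
  have hn : 1 ≤ n := hm.trans hmn
  have hn0 : (0 : ℝ) < n := by exact_mod_cast hn
  have hm0 : (0 : ℝ) < m := by exact_mod_cast hm
  have hsq : 0 ≤ Real.sqrt ((m : ℝ) / n) := Real.sqrt_nonneg _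
  by_cases hm1 : m = 1
  · subst hm1
    have h1 := HL' p hp 0 n (by omega) hn
    have h2 : Real.sqrt ((((0 : ℕ) : ℝ) + 1) / n) = Real.sqrt (((1 : ℕ) : ℝ) / n) := by
      norm_num
    rw [h2] at h1
    refine le_trans ?_ h1
    have h3 : ab p r 0 1 ≤ 1 := ab_le_one
    have h4 : 0 ≤ ab p r 0 1 := ab_nonneg
    calc c' * (c4 ^ 4 / 2) * Real.sqrt (((1 : ℕ) : ℝ) / n) * ab p r 0 1
        ≤ c' * (c4 ^ 4 / 2) * Real.sqrt (((1 : ℕ) : ℝ) / n) * 1 :=
          mul_le_mul_of_nonneg_left h3 (by positivity)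
      _ ≤ c' * 1 * Real.sqrt (((1 : ℕ) : ℝ) / n) * 1 := by
          refine mul_le_mul_of_nonneg_right (mul_le_mul_of_nonneg_right
            (mul_le_mul_of_nonneg_left ?_ hc'.le) hsq) zero_le_one
          linarith
      _ = c' * Real.sqrt (((1 : ℕ) : ℝ) / n) := by ring
  · have hm2 : 2 ≤ m := by omega
    set s : ℕ := m / 2 with hs
    have hs1 : 1 ≤ s := by omega
    have h2s : 2 * s ≤ m := by omega
    have hms : m ≤ 2 * (s + 1) := by omega
    have e1 : ab p r 0 m ≤ ab p r 0 (2 * s) := ab_mono le_rfl h2s (by omega)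
    have e2 : c4 ^ 4 ≤ PT p r (CircE s) := circ_prob hc4 H4 hp hs1
    have e3 : c' * Real.sqrt (((s : ℝ) + 1) / n) ≤ ab p r s n := HL' p hp s n (by omega) hn
    have e4 : Real.sqrt ((m : ℝ) / n) / 2 ≤ Real.sqrt (((s : ℝ) + 1) / n) := by
      have h1 : Real.sqrt ((m : ℝ) / n) / 2 = Real.sqrt ((m : ℝ) / n / 4) := by
        rw [Real.sqrt_div (by positivity) (4 : ℝ)]
        congr 1
        rw [show (4 : ℝ) = 2 ^ 2 by norm_num, Real.sqrt_sq (by norm_num)]
      rw [h1]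
      apply Real.sqrt_le_sqrt
      rw [div_div, div_le_div_iff₀ (by positivity) hn0]
      have : (m : ℝ) ≤ 2 * (s + 1) := by exact_mod_cast hms
      nlinarith
    have f1 : ab p r 0 (2 * s) * PT p r (CircE s) ≤ PT p r (AB 0 0 0 (2 * s) ∩ CircE s) :=
      PT_fkg (localOn_AB 0 0 0 (2 * s)) (localOn_CircE s) (incr_AB 0 0 0 (2 * s))
        (incr_CircE s)
    have f2 : PT p r (AB 0 0 0 (2 * s) ∩ CircE s) * ab p r s n ≤
        PT p r ((AB 0 0 0 (2 * s) ∩ CircE s) ∩ AB 0 0 s n) :=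
      PT_fkg ((localOn_AB 0 0 0 (2 * s)).inter' (localOn_CircE s)) (localOn_AB 0 0 s n)
        ((incr_AB 0 0 0 (2 * s)).inter (incr_CircE s)) (incr_AB 0 0 s n)
    have f3 : PT p r ((AB 0 0 0 (2 * s) ∩ CircE s) ∩ AB 0 0 s n) ≤ ab p r 0 n := by
      refine PT_mono ?_
      rintro η ⟨⟨g1, g2⟩, g3⟩
      exact arm_glue hs1 (Nat.zero_le _) (by omega) g2 g1 g3
    have g0 : 0 ≤ ab p r 0 m := ab_nonneg
    have g1 : 0 ≤ ab p r 0 (2 * s) := ab_nonneg
    have g2 : 0 ≤ ab p r s n := ab_nonneg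
    have g3 : 0 ≤ PT p r (AB 0 0 0 (2 * s) ∩ CircE s) := PT_nonneg
    calc c' * (c4 ^ 4 / 2) * Real.sqrt ((m : ℝ) / n) * ab p r 0 m
        = (ab p r 0 m * c4 ^ 4) * (c' * (Real.sqrt ((m : ℝ) / n) / 2)) := by ring
      _ ≤ (ab p r 0 (2 * s) * PT p r (CircE s)) * ab p r s n := by
          refine mul_le_mul (mul_le_mul e1 e2 (by positivity) g1) ?_ (by positivity)
            (mul_nonneg g1 PT_nonneg)
          exact (mul_le_mul_of_nonneg_left e4 hc'.le).trans e3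
      _ ≤ PT p r (AB 0 0 0 (2 * s) ∩ CircE s) * ab p r s n :=
          mul_le_mul_of_nonneg_right f1 g2
      _ ≤ _ := f2.trans f3

theorem arm_one_lowerT {p₀ : I} {r : Bool} (h : BXP p₀ r) : ∃ c > (0 : ℝ), ∀ p : I, p₀ ≤ p →
    c ≤ ab p r 0 1 := by
  obtain ⟨c2, hc2, H2⟩ := h 2
  obtain ⟨c', hc', HL⟩ := ab_lower hc2
  refine ⟨c', hc', fun p hp => ?_⟩
  have h1 := HL p₀ r H2 p hp 0 1 (by omega) le_rfl
  have h2 : Real.sqrt ((((0 : ℕ) : ℝ) + 1) / ((1 : ℕ) : ℝ)) = 1 := by norm_num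
  rwa [h2, mul_one] at h1

end Pool.Agent.H83.Site

end

section

/-!
# Site percolation: probability with some closed sites, exploration
-/

open MeasureTheory ProbabilityTheory unitInterval

namespace Pool.Agent.H83.SK

open Pool.Agent.H57.EX

open Pool.Agent.H89.Perc Pool.Agent.H61.NC Pool.Agent.H29.Sep

/-! ### Exploration -/

end Pool.Agent.H83.SK

end

section

/-!
# Site percolation: sealing of the first cluster
-/

open MeasureTheory ProbabilityTheory unitInterval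

namespace Pool.Agent.H83.SK

open Pool.Agent.H57.EX

open Pool.Agent.H89.Perc Pool.Agent.H61.NC Pool.Agent.H29.Sep

end Pool.Agent.H83.SK

end

section

/-!
# Site percolation: the sealed cluster
-/

open MeasureTheory ProbabilityTheory unitInterval

namespace Pool.Agent.H83.SK

open Pool.Agent.H57.EX

open Pool.Agent.H89.Perc Pool.Agent.H61.NC Pool.Agent.H29.Sep

end Pool.Agent.H83.SK

end
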