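import Pool.Agent.H94.BG.H31.PT.M07_3
import Pool.Agent.H94.BG.M19

/-! The parts of this file: H83.Site.Near, H83.Site.Chain, H83.Site.Bdd, H83.Site.Crit, H83.Site.ArmT, H83.SK.P57.Base, H83.SK.P57.Stage2a, H83.SK.P57.Det2. -/

section

/-! # Russo-Seymour-Welsh for probabilities close to one -/

set_option autoImplicit false

open MeasureTheory ProbabilityTheory unitInterval

namespace Pool.Agent.H83.Site

open Pool.Agent.H89.Perc

end Pool.Agent.H83.Site

end

section

/-! # Finite size criterion: connections to infinity, absence of percolation -/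

set_option autoImplicit false

open MeasureTheory ProbabilityTheory unitInterval

namespace Pool.Agent.H83.Site

open Pool.Agent.H89.Perc

/-- One step of the chain, from a horizontal to a vertical crossing. -/
private theorem chain_hv {η : Config} {u : TV} {n : ℤ} (hn : 1 ≤ n)
    (h1 : ∃ y y' : ℤ, TConn η (TR 0 (4 * n) 1 n) (0, y, false) (4 * n, y', false) ∧
      TConn η Set.univ u (0, y, false))
    (h2 : VC η 1 (2 * n) 0 (4 * (2 * n))) :
    ∃ x x' : ℤ, TConn η (TR 1 (2 * n) 0 (4 * (2 * n))) (x, 0, false) (x', 4 * (2 * n), false) ∧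
      TConn η Set.univ u (x, 0, false) := by
  obtain ⟨y, y', hc, hu⟩ := h1
  obtain ⟨x, x', hv⟩ := h2
  refine ⟨x, x', hv, ?_⟩
  obtain ⟨z, z', h3, h4, -⟩ := hc.cross_x (a := 1) (b := 2 * n)
    (by simp only [fx_site]; omega) (by simp only [fx_site]; omega) (by omega)
  rw [TR_inter_x (by omega) (by omega)] at h3
  have h5 : TConn η (TR 1 (2 * n) 0 (4 * (2 * n))) (1, z, false) (2 * n, z', false) :=
    h3.mono_set (TR_mono le_rfl le_rfl (by omega) (by omega))
  have h6 := glue_hv h5 hv
  exact (hu.trans (h4.mono_set (Set.subset_univ _))).trans (h6.mono_set (Set.subset_univ _))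

/-- One step of the chain, from a vertical to a horizontal crossing. -/
private theorem chain_vh {η : Config} {u : TV} {n : ℤ} (hn : 1 ≤ n)
    (h1 : ∃ x x' : ℤ, TConn η (TR 1 n 0 (4 * n)) (x, 0, false) (x', 4 * n, false) ∧
      TConn η Set.univ u (x, 0, false))
    (h2 : HC η 0 (4 * (2 * n)) 1 (2 * n)) :
    ∃ y y' : ℤ, TConn η (TR 0 (4 * (2 * n)) 1 (2 * n)) (0, y, false) (4 * (2 * n), y', false) ∧
      TConn η Set.univ u (0, y, false) := by
  obtain ⟨x, x', hc, hu⟩ := h1
  obtain ⟨y, y', hv⟩ := h2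
  refine ⟨y, y', hv, ?_⟩
  obtain ⟨z, z', h3, h4, -⟩ := hc.cross_y (c := 1) (d := 2 * n)
    (by simp only [fy_site]; omega) (by simp only [fy_site]; omega) (by omega)
  rw [TR_inter_y (by omega) (by omega)] at h3
  have h5 : TConn η (TR 0 (4 * (2 * n)) 1 (2 * n)) (z, 1, false) (z', 2 * n, false) :=
    h3.mono_set (TR_mono (by omega) (by omega) le_rfl le_rfl)
  have h6 := (glue_hv hv h5).symm
  exact (hu.trans (h4.mono_set (Set.subset_univ _))).trans (h6.mono_set (Set.subset_univ _))

private theorem chain_det {η : Config} {m : ℕ} (hm : 1 ≤ m) (J : ℕ)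
    (h : ∀ k ≤ 2 * J, η ∈ chainE m k) :
    ∃ u ∈ TR (0 - ((4 * m : ℕ) : ℤ)) (0 + ((4 * m : ℕ) : ℤ)) (0 - ((4 * m : ℕ) : ℤ))
        (0 + ((4 * m : ℕ) : ℤ)),
      ∃ y y' : ℤ, TConn η (TR 0 (4 * ((2 ^ (2 * J) * m : ℕ) : ℤ)) 1 ((2 ^ (2 * J) * m : ℕ) : ℤ))
        (0, y, false) (4 * ((2 ^ (2 * J) * m : ℕ) : ℤ), y', false) ∧
        TConn η Set.univ u (0, y, false) := by
  induction J with
  | zero =>
    have h0 := h 0 le_rfl
    rw [chainE, if_pos (by norm_num)] at h0
    obtain ⟨y, y', hc⟩ := h0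
    refine ⟨(0, y, false), ?_, y, y', ?_, ?_⟩
    · have := hc.mem_left
      rw [mem_TR_site] at this ⊢
      simp only [pow_zero, one_mul] at this
      push_cast
      omega
    · simpa using hc
    · exact TConn.refl (Set.mem_univ _) hc.open_left
  | succ J ih =>
    obtain ⟨u, hu, h1⟩ := ih (fun k hk => h k (by omega))
    refine ⟨u, hu, ?_⟩
    have hB := h (2 * J + 1) (by omega)
    have hA := h (2 * (J + 1)) le_rfl
    rw [chainE, if_neg (by omega)] at hB
    rw [chainE, if_pos (by omega)] at hA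
    have hn : (1 : ℤ) ≤ ((2 ^ (2 * J) * m : ℕ) : ℤ) := by
      have : 1 ≤ 2 ^ (2 * J) * m := Nat.one_le_iff_ne_zero.2 (by positivity)
      exact_mod_cast this
    have e1 : ((2 ^ (2 * J + 1) * m : ℕ) : ℤ) = 2 * ((2 ^ (2 * J) * m : ℕ) : ℤ) := by
      push_cast; ring
    have e2 : ((2 ^ (2 * (J + 1)) * m : ℕ) : ℤ) = 2 * (2 * ((2 ^ (2 * J) * m : ℕ) : ℤ)) := by
      push_cast; ring
    rw [e1] at hB
    rw [e2] at hA ⊢
    have h2 := chain_hv hn h1 hB
    exact chain_vh (by omega) h2 hA

private theorem chain_prob {p : I} {r : Bool} {m : ℕ} (hm : 1 ≤ m) (h : qc p r m ≤ 1 / 242)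
    (k : ℕ) : PT p r (chainE m k)ᶜ ≤ 1 / 121 * (1 / 2) ^ (2 ^ k) := by
  have hn : 1 ≤ 2 ^ k * m := Nat.one_le_iff_ne_zero.2 (by positivity)
  have h1 := qc_iter hm h k
  rw [qc_eq p r hn] at h1
  unfold chainE
  split_ifs
  · rw [PT_compl (localOn_HC _ _ _ _)]
    exact h1
  · rw [PT_compl (localOn_VC _ _ _ _), PT_VC_eq_HC]
    exact h1

/-- A chain of crossings of larger and larger rectangles. -/
theorem fs_chain {p : I} {r : Bool} {m : ℕ} (hm : 1 ≤ m) (h : qc p r m ≤ 1 / 242) {N : ℕ}
    (hN : 4 * m ≤ N) : 1 / 2 ≤ ab p r (4 * m) N := by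
  have hsub : (AB 0 0 (4 * m) N)ᶜ ⊆ ⋃ k ∈ Finset.range (2 * N + 1), (chainE m k)ᶜ := by
    intro η hη
    by_contra hc
    apply hη
    simp only [Set.mem_iUnion, Set.mem_compl_iff, not_exists, not_not, Finset.mem_range] at hc
    obtain ⟨u, hu, y, y', h1, h2⟩ := chain_det (η := η) hm N (fun k hk => hc k (by omega))
    have h3 := h2.trans (h1.mono_set (Set.subset_univ _))
    refine h3.mem_AB hN hu ?_
    right; left
    simp only [fx_site]
    have h4 : N ≤ 4 * (2 ^ (2 * N) * m) := by
      have h5 : N < 2 ^ (2 * N) := lt_of_lt_of_le Nat.lt_two_pow_self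
        (Nat.pow_le_pow_right (by norm_num) (by omega))
      nlinarith
    have h6 : (N : ℤ) ≤ 4 * ((2 ^ (2 * N) * m : ℕ) : ℤ) := by exact_mod_cast h4
    linarith
  have h1 : PT p r (AB 0 0 (4 * m) N)ᶜ ≤ 1 / 2 := by
    refine (PT_mono hsub).trans ((PT_biUnion_le _ _).trans ?_)
    exact (Finset.sum_le_sum fun k _ => chain_prob hm h k).trans (sum_sq_le _)
  rw [PT_compl (localOn_AB 0 0 (4 * m) N)] at h1
  unfold ab
  linarith

open Filter Topology in
private theorem chain_tendsto (p : I) (r : Bool) :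
    Tendsto (fun n => ab p r 0 n) atTop (𝓝 (thT p r)) := by
  have h : Tendsto (fun n : ℕ => μ p {ω : Config | full r ω ∈ AB 0 0 0 n}) atTop
      (𝓝 (μ p (⋂ n : ℕ, {ω : Config | full r ω ∈ AB 0 0 0 n}))) :=
    tendsto_measure_iInter_atTop
      (fun n => ((localOn_full r (localOn_AB 0 0 0 n)).measurableSet).nullMeasurableSet)
      (chain_thT_antitone r) ⟨0, measure_ne_top _ _⟩
  have h2 := (ENNReal.tendsto_toReal
    (measure_ne_top (μ p) (⋂ n : ℕ, {ω : Config | full r ω ∈ AB 0 0 0 n}))).comp h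
  rw [thT, PT, chain_thT_set]
  exact h2

/-- Continuity of the measure. -/
theorem le_thT {p : I} {r : Bool} {x : ℝ} {n₀ : ℕ} (h : ∀ n, n₀ ≤ n → x ≤ ab p r 0 n) :
    x ≤ thT p r := by
  refine ge_of_tendsto (chain_tendsto p r) ?_
  filter_upwards [Filter.eventually_ge_atTop n₀] with n hn using h n hn

end Pool.Agent.H83.Site

end

section

/-! # Russo-Seymour-Welsh for probabilities bounded away from zero -/

set_option autoImplicit false

open MeasureTheory ProbabilityTheory unitInterval

namespace Pool.Agent.H83.Site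

open Pool.Agent.H89.Perc

end Pool.Agent.H83.Site

end

section

/-! # The critical point -/

set_option autoImplicit false

open MeasureTheory ProbabilityTheory unitInterval

namespace Pool.Agent.H83.Site

open Pool.Agent.H89.Perc

end Pool.Agent.H83.Site

end

section

/-! # Extension of arms, averages -/

set_option autoImplicit false

open MeasureTheory ProbabilityTheory unitInterval

namespace Pool.Agent.H83.Site

open Pool.Agent.H89.Perc

/-! ### Open sites -/

end Pool.Agent.H83.Site

end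

section

/-!
# Site percolation: probability with some closed sites, exploration
-/

open MeasureTheory ProbabilityTheory unitInterval

namespace Pool.Agent.H83.SK

open Pool.Agent.H57.EX

open Pool.Agent.H89.Perc Pool.Agent.H61.NC Pool.Agent.H29.Sep

/-! ### Exploration -/

end Pool.Agent.H83.SK

end

section

/-!
# Site percolation: sealing of the first cluster
-/

open MeasureTheory ProbabilityTheory unitInterval

namespace Pool.Agent.H83.SK

open Pool.Agent.H57.EX

open Pool.Agent.H89.Perc Pool.Agent.H61.NC Pool.Agent.H29.Sep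

end Pool.Agent.H83.SK

end

section

/-!
# Site percolation: the sealed cluster
-/

open MeasureTheory ProbabilityTheory unitInterval

namespace Pool.Agent.H83.SK

open Pool.Agent.H57.EX

open Pool.Agent.H89.Perc Pool.Agent.H61.NC Pool.Agent.H29.Sep

end Pool.Agent.H83.SK

end
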