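import Pool.Agent.H94.BG.H31.PT.M11_1
import Pool.Agent.H94.BG.H31.PT.M11_2
import Pool.Agent.H94.BG.H31.PT.M11_5

/-! The parts of this file: H83.Site.Near, H83.Site.Chain, H83.Site.Bdd, H83.Site.Crit, H83.Site.ArmT, H83.SK.P57.Base, H83.SK.P57.Stage2a, H83.SK.P57.Det2. -/

section

/-! # Russo-Seymour-Welsh for probabilities close to one -/

set_option autoImplicit false

open MeasureTheory ProbabilityTheory unitInterval

namespace Pool.Agent.H83.Site

open Pool.Agent.H89.Perc

end Pool.Agent.H83.Site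

end

section

/-! # Finite size criterion: connections to infinity, absence of percolation -/

set_option autoImplicit false

open MeasureTheory ProbabilityTheory unitInterval

namespace Pool.Agent.H83.Site

open Pool.Agent.H89.Perc

/-- Percolation when the crossing probability of one long rectangle is close to one. -/
theorem fs_plus {p : I} {r : Bool} {m : ℕ} (hm : 1 ≤ m) (h : qc p r m ≤ 1 / 242) :
    0 < thT p r := by
  classical
  set s : ℕ := 4 * m with hs
  set Q : Finset (ℤ × ℤ) := Finset.Icc (-(s : ℤ)) s ×ˢ Finset.Icc (-(s : ℤ)) s with hQ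
  have hQpos : (0 : ℝ) < Q.card := by
    have : 0 < Q.card := Finset.card_pos.2 ⟨(0, 0), by
      rw [hQ, Finset.mem_product, Finset.mem_Icc]; simp⟩
    exact_mod_cast this
  have hsub : ∀ n : ℕ, AB 0 0 s (n + s) ⊆ ⋃ v ∈ Q, AB v.1 v.2 0 n := by
    rintro n η ⟨u, hu, w, hw, hc⟩
    -- a site `v` of the square which is joined to `w`
    have key : ∃ a b : ℤ, -(s : ℤ) ≤ a ∧ a ≤ s ∧ -(s : ℤ) ≤ b ∧ b ≤ s ∧
        TConn η (TR (0 - ((n + s : ℕ) : ℤ)) (0 + ((n + s : ℕ) : ℤ)) (0 - ((n + s : ℕ) : ℤ))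
          (0 + ((n + s : ℕ) : ℤ))) (a, b, false) w := by
      obtain ⟨a, b, t⟩ := u
      cases t
      · rw [mem_TR_site] at hu
        exact ⟨a, b, by omega, by omega, by omega, by omega, hc⟩
      · rw [mem_TR_cen] at hu
        obtain ⟨h1, h2, h3⟩ := hc
        rcases Relation.ReflTransGen.cases_head h3 with h4 | ⟨v, h4, h5⟩
        · exfalso
          have := hw.2.1
          rw [← h4] at this
          simp at this
        · obtain ⟨a', b', t'⟩ := v
          have hadj := h4.2.2.1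
          unfold TAdj at hadj
          simp only [Bool.true_eq_false, false_and, false_or, true_and] at hadj
          obtain ⟨ht, h6, h7⟩ := hadj
          subst ht
          refine ⟨a', b', by omega, by omega, by omega, by omega, h4.2.1, h4.2.2.2.2, h5⟩
    obtain ⟨a, b, ha1, ha2, hb1, hb2, hc'⟩ := key
    simp only [Set.mem_iUnion]
    refine ⟨(a, b), ?_, ?_⟩
    · rw [hQ, Finset.mem_product, Finset.mem_Icc, Finset.mem_Icc]
      exact ⟨⟨ha1, ha2⟩, hb1, hb2⟩
    · refine hc'.mem_AB (Nat.zero_le _) ?_ ?_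
      · rw [mem_TR_site]; simp
      · obtain ⟨h1, h2, h3⟩ := hw
        rw [fx_even h2, fy_even h2]
        push_cast at h3
        simp only
        omega
  have hlow : ∀ n : ℕ, 1 / 2 / (Q.card : ℝ) ≤ ab p r 0 n := by
    intro n
    have h1 : 1 / 2 ≤ ab p r s (n + s) := fs_chain hm h (by omega)
    have h2 : ab p r s (n + s) ≤ ∑ v ∈ Q, ab p r 0 n := by
      refine (PT_mono (hsub n)).trans ((PT_biUnion_le _ _).trans ?_)
      exact Finset.sum_le_sum fun v _ => (PT_AB p r v.1 v.2 0 n).le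
    rw [Finset.sum_const, nsmul_eq_mul] at h2
    rw [div_le_iff₀ hQpos]
    linarith
  have := le_thT (p := p) (r := r) (n₀ := 0) (fun n _ => hlow n)
  refine lt_of_lt_of_le ?_ this
  positivity

end Pool.Agent.H83.Site

end

section

/-! # Russo-Seymour-Welsh for probabilities bounded away from zero -/

set_option autoImplicit false

open MeasureTheory ProbabilityTheory unitInterval

namespace Pool.Agent.H83.Site

open Pool.Agent.H89.Perc

/-- One step of the iteration, from height `m` to height `2 m - n`. -/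
private theorem bdd_step (p : I) (r : Bool) {n m : ℤ} (hn : 0 ≤ n) (hnm : n ≤ m) {δ v : ℝ}
    (hδ : 0 ≤ δ) (hv0 : 0 ≤ v) (hH : δ ≤ PT p r {η | HC η 0 n 0 n})
    (hv : v ≤ PT p r {η | VC η 0 (2 * n) 0 m}) :
    (δ * (v / 2)) ^ 2 * δ ≤ PT p r {η | VC η 0 (2 * n) 0 (2 * m - n)} := by
  have h1 : δ * (v / 2) ≤ PT p r (XV n m) := by
    refine le_trans ?_ (PT_mono (LJ_subset_XV hn hnm))
    refine le_trans ?_ (expl_prob p r hn hn hnm)
    have h2 := half_le_sqrt (v := PT p r {η | VC η 0 (2 * n) 0 m}) PT_nonneg PT_le_one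
    have h3 : v / 2 ≤ 1 - Real.sqrt (1 - PT p r {η | VC η 0 (2 * n) 0 m}) := by linarith
    exact mul_le_mul hH h3 (by positivity) PT_nonneg
  have h4 : δ ≤ PT p r {η | VC η 0 n 0 n} := by rwa [PT_VC_eq_HC]
  have h5 := PT_fkg (p := p) (r := r) (localOn_XV hn hnm) (localOn_XV' hn hnm) (incr_XV n m)
    (incr_XV' n m)
  rw [PT_XV' p r hn hnm] at h5
  have h6 := PT_fkg (p := p) (r := r) ((localOn_XV hn hnm).inter' (localOn_XV' hn hnm))
    (localOn_VC 0 n 0 n) ((incr_XV n m).inter (incr_XV' n m)) (incr_VC 0 n 0 n)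
  have h7 := h6.trans (PT_mono (glue_XV hn hnm))
  have h8 : PT p r {η | VC η 0 (2 * n) (n - m) m} =
      PT p r {η | VC η 0 (2 * n) 0 (2 * m - n)} := by
    have := PT_VC_shf p r 0 (2 * n) 0 (2 * m - n) 0 (n - m)
    rw [← this]
    congr 1
    ext η
    simp only [Set.mem_ofPred_eq, zero_add, add_zero]
    rw [show 2 * m - n + (n - m) = m by ring]
  rw [h8] at h7
  refine le_trans ?_ h7
  have h9 : (δ * (v / 2)) ^ 2 ≤ PT p r (XV n m ∩ XV' n m) := by
    refine le_trans ?_ h5
    rw [sq]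
    exact mul_le_mul h1 h1 (by positivity) PT_nonneg
  exact mul_le_mul h9 h4 hδ PT_nonneg

private theorem bdd_iter {δ : ℝ} (hδ : 0 < δ) (j : ℕ) : ∃ c > (0 : ℝ), ∀ (p : I) (r : Bool),
    (∀ k : ℕ, 1 ≤ k → δ ≤ PT p r {η | HC η 0 (2 * k) 0 (2 * k)}) →
    ∀ k : ℕ, 1 ≤ k → c ≤ PT p r {η | VC η 0 (2 * (2 * k)) 0 ((2 ^ j + 1) * (2 * k))} := by
  induction j with
  | zero =>
    refine ⟨δ, hδ, fun p r h k hk => ?_⟩
    have h1 := h (2 * k) (by omega)
    rw [PT_VC_eq_HC]
    push_cast at h1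
    have e : ((2 : ℤ) ^ 0 + 1) * (2 * (k : ℤ)) = 2 * (2 * k) := by ring
    rw [e]
    exact h1
  | succ j ih =>
    obtain ⟨c, hc, hstep⟩ := ih
    refine ⟨(δ * (c / 2)) ^ 2 * δ, by positivity, fun p r h k hk => ?_⟩
    have h1 := hstep p r h k hk
    have h2 : ((2 : ℤ) * k) ≤ (2 ^ j + 1) * (2 * k) := by
      have : (0 : ℤ) < 2 ^ j := by positivity
      nlinarith
    have h3 := bdd_step p r (n := 2 * k) (m := (2 ^ j + 1) * (2 * k)) (by omega) h2 hδ.le hc.le
      (h k hk) h1
    have e : (2 : ℤ) * ((2 ^ j + 1) * (2 * k)) - 2 * k = (2 ^ (j + 1) + 1) * (2 * k) := by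
      ring
    rwa [e] at h3

theorem bdd_rsw {δ : ℝ} (hδ : 0 < δ) (K : ℕ) : ∃ c > (0 : ℝ), ∀ (p : I) (r : Bool),
    (∀ k : ℕ, 1 ≤ k → δ ≤ PT p r {η | HC η 0 (2 * k) 0 (2 * k)}) →
    ∀ m : ℕ, 1 ≤ m → c ≤ PT p r {η | HC η 0 (K * m) 0 m} := by
  obtain ⟨c, hc, hcP⟩ := bdd_iter hδ (4 * K)
  refine ⟨min c (min (δ / 3) 1 ^ (3 * K + 1)), by positivity, fun p r h m hm => ?_⟩
  by_cases hm4 : 4 ≤ m
  · refine (min_le_left _ _).trans ((hcP p r h (m / 4) (by omega)).trans ?_)
    rw [PT_VC_eq_HC]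
    refine PT_mono fun η hη => ?_
    refine HC.mono hη le_rfl (by positivity) ?_ le_rfl (by omega)
    have h1 : 4 * K + 1 ≤ 2 ^ (4 * K) := Nat.lt_two_pow_self
    have h2 : (4 * (K : ℤ) + 1) ≤ 2 ^ (4 * K) := by exact_mod_cast h1
    have h3 : (m : ℤ) ≤ 7 * ((m / 4 : ℕ) : ℤ) := by omega
    have h4 : (0 : ℤ) ≤ ((m / 4 : ℕ) : ℤ) := by omega
    have h5 : (0 : ℤ) ≤ K := by omega
    calc (K : ℤ) * m ≤ K * (7 * ((m / 4 : ℕ) : ℤ)) := mul_le_mul_of_nonneg_left h3 h5
      _ ≤ (4 * K + 1 + 1) * (2 * ((m / 4 : ℕ) : ℤ)) := by nlinarith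
      _ ≤ (2 ^ (4 * K) + 1) * (2 * ((m / 4 : ℕ) : ℤ)) := by
        apply mul_le_mul_of_nonneg_right _ (by omega)
        omega
  · refine (min_le_right _ _).trans ?_
    have h1 := h 1 le_rfl
    norm_num at h1
    have h2 := site_prob p r h1
    have h3 : ∀ x : ℤ, min (δ / 3) 1 ≤ PT p r {η | η (x, 0, false) = true} := fun x => by
      rw [PT_site p r x 0]
      exact (min_le_left _ _).trans h2
    have h4 := (row_prob p r (q := min (δ / 3) 1) (by positivity) h3 (K * m)).1
    have h5 : min (δ / 3) 1 ^ (3 * K + 1) ≤ min (δ / 3) 1 ^ (K * m + 1) := by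
      apply pow_le_pow_of_le_one (by positivity) (min_le_right _ _)
      have : K * m ≤ K * 3 := Nat.mul_le_mul_left K (by omega)
      omega
    refine h5.trans (h4.trans ?_)
    have h6 := row_subset (m := (m : ℤ)) (by omega) (K * m)
    push_cast at h6
    exact PT_mono h6

end Pool.Agent.H83.Site

end

section

/-! # The critical point -/

set_option autoImplicit false

open MeasureTheory ProbabilityTheory unitInterval

namespace Pool.Agent.H83.Site

open Pool.Agent.H89.Perc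

theorem thT_mono {p q : I} (r : Bool) (h : p ≤ q) : thT p r ≤ thT q r :=
  le_thT (n₀ := 0) fun n _ => (thT_le_ab p r n).trans (ab_mono_param r 0 n h)

theorem thT_eq_zero_of_lt_pc {p : I} (h : p < pc) : thT p false = 0 := by
  obtain ⟨q, hq, hpq⟩ := lt_sSup_iff.1 h
  have h1 : thT q false = 0 := hq
  refine le_antisymm ?_ PT_nonneg
  rw [← h1]
  exact thT_mono false hpq.le

theorem crit_qc {m : ℕ} (hm : 1 ≤ m) : 1 / 242 ≤ qc pc false m ∧ 1 / 242 ≤ qc (σ pc) true m := by
  constructor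
  · by_contra hlt
    rw [not_le] at hlt
    have h0 : 0 < pc := by
      rcases (unitInterval.nonneg' : (0 : I) ≤ pc).lt_or_eq with h | h
      · exact h
      · rw [← h, crit_qc_zero false hm] at hlt
        norm_num at hlt
    obtain ⟨b, hb1, hb2⟩ := crit_exists_lt (crit_qc_continuous false m) hlt h0
    have h1 := fs_plus hm hb2.le
    rw [thT_eq_zero_of_lt_pc hb1] at h1
    exact lt_irrefl _ h1
  · by_contra hlt
    rw [not_le] at hlt
    have h0 : pc < 1 := by
      rcases (unitInterval.le_one' : pc ≤ (1 : I)).lt_or_eq with h | h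
      · exact h
      · rw [h, unitInterval.symm_one, crit_qc_zero true hm] at hlt
        norm_num at hlt
    have hcont : Continuous (fun p : I => qc (σ p) true m) :=
      (crit_qc_continuous true m).comp unitInterval.continuous_symm
    obtain ⟨b, hb1, hb2⟩ := crit_exists_gt hcont hlt h0
    have h1 : thT b false = 0 := fs_minus (p := b) (r := false) hm (by simpa using hb2.le)
    have h2 := thT_pos_of_pc_lt hb1
    rw [h1] at h2
    exact lt_irrefl _ h2

theorem crit_sq_aux (p : I) (r : Bool) {k : ℕ} (hk : 1 ≤ k)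
    (hq : 1 / 242 ≤ qc (σ p) (!r) (2 * k + 1)) :
    (1 / 24300 : ℝ) ^ 2 ≤ PT p r {η | HC η 0 (2 * k) 0 (2 * k)} := by
  by_contra hlt
  rw [not_le] at hlt
  have h1 := crit_dual p r (a := 0) (b := 2 * k) (c := 0) (d := 2 * k) (by positivity)
    (by positivity)
  have h2 : 1 - (1 / 24300 : ℝ) ^ 2 ≤ PT (σ p) (!r) {η | HC η 0 (2 * k) 0 (2 * k)} := by
    linarith
  have h3 := near_rsw (σ p) (!r) hk (δ := (1 / 24300 : ℝ) ^ 2) (by positivity) h2
  rw [Real.sqrt_sq (by norm_num)] at h3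
  rw [qc_eq (σ p) (!r) (by omega)] at hq
  have h4 : PT (σ p) (!r) {η | HC η 0 (12 * k) 0 (2 * k)} ≤
      PT (σ p) (!r) {η | HC η 0 (4 * ((2 * k + 1 : ℕ) : ℤ)) 1 ((2 * k + 1 : ℕ) : ℤ)} := by
    rw [← PT_HC_shf (σ p) (!r) 0 (12 * k) 0 (2 * k) 0 1]
    refine PT_mono fun η hη => ?_
    have hη' : HC η (0 + 0) (12 * k + 0) (0 + 1) (2 * k + 1) := hη
    exact hη'.mono (by omega) (by positivity) (by push_cast; omega) (by omega)
      (by push_cast; omega)
  linarith

theorem crit_squares : ∃ δ > (0 : ℝ), ∀ k : ℕ, 1 ≤ k →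
    δ ≤ PT pc false {η | HC η 0 (2 * k) 0 (2 * k)} ∧
      δ ≤ PT (σ pc) true {η | HC η 0 (2 * k) 0 (2 * k)} := by
  refine ⟨(1 / 24300 : ℝ) ^ 2, by positivity, fun k hk => ⟨?_, ?_⟩⟩
  · exact crit_sq_aux pc false hk (crit_qc (by omega)).2
  · refine crit_sq_aux (σ pc) true hk ?_
    rw [σσ]
    exact (crit_qc (by omega)).1

theorem bxp_pc : BXP pc false ∧ BXP (σ pc) true := by
  obtain ⟨δ, hδ, h⟩ := crit_squares
  constructor
  · intro K
    obtain ⟨c, hc, hK⟩ := bdd_rsw hδ K
    exact ⟨c, hc, hK pc false fun k hk => (h k hk).1⟩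
  · intro K
    obtain ⟨c, hc, hK⟩ := bdd_rsw hδ K
    exact ⟨c, hc, hK (σ pc) true fun k hk => (h k hk).2⟩

end Pool.Agent.H83.Site

end

section

/-! # Extension of arms, averages -/

set_option autoImplicit false

open MeasureTheory ProbabilityTheory unitInterval

namespace Pool.Agent.H83.Site

open Pool.Agent.H89.Perc

/-! ### Open sites -/

end Pool.Agent.H83.Site

end

section

/-!
# Site percolation: probability with some closed sites, exploration
-/

open MeasureTheory ProbabilityTheory unitInterval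

namespace Pool.Agent.H83.SK

open Pool.Agent.H57.EX

open Pool.Agent.H89.Perc Pool.Agent.H61.NC Pool.Agent.H29.Sep

/-! ### Exploration -/

end Pool.Agent.H83.SK

end

section

/-!
# Site percolation: sealing of the first cluster
-/

open MeasureTheory ProbabilityTheory unitInterval

namespace Pool.Agent.H83.SK

open Pool.Agent.H57.EX

open Pool.Agent.H89.Perc Pool.Agent.H61.NC Pool.Agent.H29.Sep

end Pool.Agent.H83.SK

end

section

/-!
# Site percolation: the sealed cluster
-/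

open MeasureTheory ProbabilityTheory unitInterval

namespace Pool.Agent.H83.SK

open Pool.Agent.H57.EX

open Pool.Agent.H89.Perc Pool.Agent.H61.NC Pool.Agent.H29.Sep

end Pool.Agent.H83.SK

end
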