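import Pool.Agent.H94.BG.H31.PT.M06_1
import Pool.Agent.H94.BG.H31.PT.M11_2

/-! The parts of this file: H13.SK.SigmaSum, H83.Site.FSstrong, H13.SK.Good, H83.SK.P57.Chain, H83.SK.PHP.Reg, H83.SK.PHP.One, H38.SK.N59.Corr, H38.SK.N59.Sym, H38.SK.N59.Bad, H38.SK.N59.St3, H38.SK.N59.St1. -/

section

/-!
# Upper bound for the mean cluster size: summation
-/

set_option autoImplicit false

open MeasureTheory ProbabilityTheory unitInterval

namespace Pool.Agent.H13.SK

open Pool.Agent.H89.Perc Pool.Agent.H83.Site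

/-- The one-arm probability at distance `m` is at least of order `m ^ (-1/2)`. -/
theorem arm_low {p₀ : I} {r : Bool} (h : BXP p₀ r) : ∃ C > (0 : ℝ),
    ∀ m : ℕ, 1 ≤ m → 1 ≤ C * m * ab p₀ r 0 m ^ 2 := by
  obtain ⟨c, hc, H⟩ := arm_extT h
  obtain ⟨c₁, hc₁, H₁⟩ := arm_one_lowerT h
  have h1 := H₁ p₀ le_rfl
  refine ⟨1 / (c * c₁) ^ 2, by positivity, fun m hm => ?_⟩
  have hmp : (1 : ℝ) ≤ m := by exact_mod_cast hm
  have h2 := H p₀ le_rfl 1 m le_rfl hm
  have h3 : c * Real.sqrt (1 / m) * c₁ ≤ ab p₀ r 0 m := by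
    refine le_trans ?_ h2
    have : 0 ≤ c * Real.sqrt (1 / m) := by positivity
    simpa using mul_le_mul_of_nonneg_left h1 this
  have h4 : (c * Real.sqrt (1 / m) * c₁) ^ 2 ≤ ab p₀ r 0 m ^ 2 := by gcongr
  have h5 : (c * Real.sqrt (1 / m) * c₁) ^ 2 = (c * c₁) ^ 2 / m := by
    rw [mul_pow, mul_pow, Real.sq_sqrt (by positivity)]
    ring
  rw [h5] at h4
  rw [div_le_iff₀ (by positivity)] at h4
  rw [div_mul_eq_mul_div, div_mul_eq_mul_div, one_mul, le_div_iff₀ (by positivity), one_mul]
  linarith only [h4]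

/-- Regularity of the one-arm probability. -/
theorem arm_reg {p₀ : I} {r : Bool} (h : BXP p₀ r) : ∃ C > (0 : ℝ), ∀ p : I, p ≤ p₀ →
    ∀ m s : ℕ, 1 ≤ m → s ≤ m → ab p r 0 s ^ 2 ≤ C * (m / (s + 1)) * ab p₀ r 0 m ^ 2 := by
  obtain ⟨c, hc, H⟩ := arm_extT h
  obtain ⟨C₁, hC₁, H₁⟩ := arm_low h
  refine ⟨2 / c ^ 2 + C₁, by positivity, fun p hp m s hm hs => ?_⟩
  have hmp : (1 : ℝ) ≤ m := by exact_mod_cast hm
  have hpi : 0 ≤ ab p₀ r 0 m := ab_nonneg
  have hm0 : ab p r 0 s ≤ ab p₀ r 0 s := PT_mono_param (localOn_AB _ _ _ _) (incr_AB _ _ _ _) hp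
  have hs0 : 0 ≤ ab p r 0 s := ab_nonneg
  rcases Nat.eq_zero_or_pos s with h0 | h0
  · subst h0
    have h6 : ab p r 0 0 ^ 2 ≤ 1 := by
      have h7 : ab p r 0 0 ≤ 1 := PT_le_one
      nlinarith only [h7, hs0]
    have h8 := H₁ m hm
    have h9 : 0 ≤ 2 / c ^ 2 * m * ab p₀ r 0 m ^ 2 := by positivity
    calc ab p r 0 0 ^ 2 ≤ 1 := h6
      _ ≤ 2 / c ^ 2 * m * ab p₀ r 0 m ^ 2 + C₁ * m * ab p₀ r 0 m ^ 2 := by linarith only [h8, h9]
      _ = _ := by push_cast; ring
  · have hsp : (1 : ℝ) ≤ s := by exact_mod_cast h0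
    have h2 := H p₀ le_rfl s m h0 hs
    have h3 : (c * Real.sqrt ((s : ℝ) / m) * ab p₀ r 0 s) ^ 2 ≤ ab p₀ r 0 m ^ 2 := by
      have : 0 ≤ ab p₀ r 0 s := ab_nonneg
      gcongr
    have h5 : (c * Real.sqrt ((s : ℝ) / m) * ab p₀ r 0 s) ^ 2 =
        c ^ 2 * (s / m) * ab p₀ r 0 s ^ 2 := by
      rw [mul_pow, mul_pow, Real.sq_sqrt (by positivity)]
    rw [h5] at h3
    have h6 : ab p r 0 s ^ 2 ≤ ab p₀ r 0 s ^ 2 := by gcongr
    have h7 : ab p₀ r 0 s ^ 2 ≤ 1 / c ^ 2 * (m / s) * ab p₀ r 0 m ^ 2 := by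
      calc ab p₀ r 0 s ^ 2 = 1 / c ^ 2 * (m / s) * (c ^ 2 * (s / m) * ab p₀ r 0 s ^ 2) := by
            field_simp
        _ ≤ _ := by gcongr
    have h8 : (m : ℝ) / s ≤ 2 * (m / (s + 1)) := by
      rw [← mul_div_assoc, div_le_div_iff₀ (by positivity) (by positivity)]
      nlinarith only [hsp]
    have h9 : 0 ≤ C₁ * (m / (s + 1)) * ab p₀ r 0 m ^ 2 := by positivity
    calc ab p r 0 s ^ 2 ≤ 1 / c ^ 2 * (m / s) * ab p₀ r 0 m ^ 2 := h6.trans h7
      _ ≤ 1 / c ^ 2 * (2 * (m / (s + 1))) * ab p₀ r 0 m ^ 2 := by gcongr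
      _ ≤ 1 / c ^ 2 * (2 * (m / (s + 1))) * ab p₀ r 0 m ^ 2 +
          C₁ * (m / (s + 1)) * ab p₀ r 0 m ^ 2 := by linarith only [h9]
      _ = _ := by ring

end Pool.Agent.H13.SK

end

section

/-! # Finite size criterion with arms -/

set_option autoImplicit false

open MeasureTheory ProbabilityTheory unitInterval

namespace Pool.Agent.H83.Site

open Pool.Agent.H89.Perc

end Pool.Agent.H83.Site

end

section

/-!
# Good scales of site percolation

`Good δ p r m`: the square of side `4 m` is crossed with probability at least `1 - δ` by paths of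
the colour `r` (`r = false`: open sites of the square lattice, `r = true`: sites of the matching
lattice).
-/

set_option autoImplicit false

open MeasureTheory ProbabilityTheory unitInterval

namespace Pool.Agent.H13.SK

open Pool.Agent.H89.Perc Pool.Agent.H83.Site

/-- The square of side `4 m` is crossed with probability at least `1 - δ`. -/
def Good (δ : ℝ) (p : I) (r : Bool) (m : ℕ) : Prop :=
  1 - δ ≤ PT p r {η | HC η 0 (4 * m) 0 (4 * m)}

theorem Good.mono {δ δ' : ℝ} (h : δ ≤ δ') {p : I} {r : Bool} {m : ℕ} (hg : Good δ p r m) :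
    Good δ' p r m := by
  unfold Good at hg ⊢
  linarith

/-- At a good scale long rectangles are crossed. -/
theorem good_long {δ : ℝ} (hδ : 0 ≤ δ) {p : I} {r : Bool} {m : ℕ} (hm : 1 ≤ m)
    (h : Good δ p r m) : 1 - 100 * Real.sqrt δ ≤ PT p r {η | HC η 0 (24 * m) 0 (4 * m)} := by
  have h1 := near_rsw p r (l := 2 * m) (by omega) hδ (by
    have e : (2 : ℤ) * ((2 * m : ℕ) : ℤ) = 4 * m := by push_cast; ring
    rw [e]
    exact h)
  have e1 : (12 : ℤ) * ((2 * m : ℕ) : ℤ) = 24 * m := by push_cast; ring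
  have e2 : (2 : ℤ) * ((2 * m : ℕ) : ℤ) = 4 * m := by push_cast; ring
  rw [e1, e2] at h1
  exact h1

theorem sqrt_small : 100 * Real.sqrt (1 / 10 ^ 10) = 1 / 1000 := by
  have : (1 : ℝ) / 10 ^ 10 = (1 / 10 ^ 5) ^ 2 := by norm_num
  rw [this, Real.sqrt_sq (by norm_num)]
  norm_num

/-- At a good scale the other colour decays. -/
theorem good_qc {p : I} {r : Bool} {m : ℕ} (hm : 1 ≤ m) (h : Good (1 / 10 ^ 10) p r m) :
    qc p r (4 * m + 1) ≤ 1 / 242 := by
  have h1 := good_long (by norm_num) hm h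
  rw [sqrt_small] at h1
  rw [qc_eq p r (by omega)]
  have h2 : PT p r {η | HC η 0 (24 * m) 0 (4 * m)} ≤
      PT p r {η | HC η 0 (4 * ((4 * m + 1 : ℕ) : ℤ)) 1 ((4 * m + 1 : ℕ) : ℤ)} := by
    rw [← PT_HC_shf p r 0 (24 * m) 0 (4 * m) 0 1]
    refine PT_mono fun η hη => ?_
    simp only [Set.mem_ofPred_eq] at hη ⊢
    exact hη.mono (by omega) (by omega) (by push_cast; omega) (by omega) (by push_cast; omega)
  linarith only [h1, h2]

end Pool.Agent.H13.SK

end

section

/-!
# Chains of circuits
-/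

open MeasureTheory ProbabilityTheory unitInterval

namespace Pool.Agent.H83.SK

open Pool.Agent.H57.EX

open Pool.Agent.H89.Perc Pool.Agent.H61.NC Pool.Agent.H29.Sep

end Pool.Agent.H83.SK

end

section

/-!
# Site percolation, box-crossing regime: blocking, decay, half circuits
-/

open MeasureTheory ProbabilityTheory unitInterval

namespace Pool.Agent.H83.SK

open Pool.Agent.H26.HP

open Pool.Agent.H89.Perc

end Pool.Agent.H83.SK

end

section

/-!
# Half plane, one arm with a free side: the exponent is one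

`E1 R z`: the cluster of `(z, 0)` in the half ball of radius `R` reaches distance `R` and does not
touch the base to the right of `(z, 0)`.  Its probability is at most `C / R`.
-/

open MeasureTheory ProbabilityTheory unitInterval

namespace Pool.Agent.H83.SK

open Pool.Agent.H26.HP

open Pool.Agent.H89.Perc

end Pool.Agent.H83.SK

end

section

/-!
# The corridor lemma for site percolation

`pb π w` is the configuration `g ↦ w (π g)`.  Given a separated four-arm event, increasing events of
the sites of the corridor `C` and arbitrary events `H` of the sites which are neither in `C` nor in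
or adjacent (in the domain) to the two clusters (with filled targets) can be added at the cost of
constant factors.
-/

set_option autoImplicit false

open MeasureTheory ProbabilityTheory unitInterval

namespace Pool.Agent.H38.N59

open Pool.Agent.H89.Perc
open Pool.Agent.H83.SK (sv sit sit_true RSWreg)
open Pool.Agent.H59.EX (LocS inE touch clus closeS Side T Mouth Fence dom pb sat fkg_cond markov_indep)

theorem rect_finite (a b c d : ℤ) : (rect a b c d).Finite := by
  refine Set.Finite.subset ((Set.finite_Icc a b).prod (Set.finite_Icc c d)) ?_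
  rintro ⟨x, y⟩ ⟨h1, h2, h3, h4⟩
  exact ⟨⟨h1, h2⟩, ⟨h3, h4⟩⟩

end Pool.Agent.H38.N59

end

section

/-!
# Symmetries of the separated events for sites, sum over sides
-/

set_option autoImplicit false

open MeasureTheory ProbabilityTheory unitInterval

namespace Pool.Agent.H38.N59

open Pool.Agent.H89.Perc
open Pool.Agent.H61.NC hiding RSWreg
open Pool.Agent.H83.SK (sv sit sit_true RSWreg)
open Pool.Agent.H59.EX (LocS inE touch clus closeS Side T Mouth Fence dom fence_mem)

/-! ### The action on the constructions -/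

end Pool.Agent.H38.N59

end

section

/-!
# Bad events for sites: two clusters close to the same vertex of the sphere
-/

set_option autoImplicit false

open MeasureTheory ProbabilityTheory unitInterval

namespace Pool.Agent.H38.N59

open Pool.Agent.H89.Perc
open Pool.Agent.H61.NC hiding RSWreg
open Pool.Agent.H83.SK (sv sit sit_true RSWreg)
open Pool.Agent.H59.EX (LocS inE touch clus closeS Side T Mouth Fence dom CorrData CorrSep mem_clus_single clus_conn)

end Pool.Agent.H38.N59

end

section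

/-!
# Outward separation for sites: stage 3
-/

set_option autoImplicit false

open MeasureTheory ProbabilityTheory unitInterval

namespace Pool.Agent.H38.N59

open Pool.Agent.H89.Perc
open Pool.Agent.H83.SK (sv sit sit_true RSWreg)
open Pool.Agent.H59.EX (LocS inE touch clus closeS Side T Mouth Fence dom CorrData CorrSep mem_clus_single corr_inter corr_sub160 clus_sub)

end Pool.Agent.H38.N59

end

section

/-!
# Outward separation for sites: stage 1
-/

set_option autoImplicit false

open MeasureTheory ProbabilityTheory unitInterval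

namespace Pool.Agent.H38.N59

open Pool.Agent.H89.Perc
open Pool.Agent.H83.SK (sv sit sit_true RSWreg)
open Pool.Agent.H59.EX (LocS inE touch clus closeS Side T Mouth Fence dom CorrData CorrSep mem_clus_single corr_inter corr_sub160)

end Pool.Agent.H38.N59

end
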