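import Pool.Agent.H94.BG.H31.PT.M10_3
import Pool.Agent.H94.BG.H31.PT.M12_2

/-! The parts of this file: H13.SK.SigmaSum, H83.Site.FSstrong, H13.SK.Good, H83.SK.P57.Chain, H83.SK.PHP.Reg, H83.SK.PHP.One, H38.SK.N59.Corr, H38.SK.N59.Sym, H38.SK.N59.Bad, H38.SK.N59.St3, H38.SK.N59.St1. -/

section

/-!
# Upper bound for the mean cluster size: summation
-/

set_option autoImplicit false

open MeasureTheory ProbabilityTheory unitInterval

namespace Pool.Agent.H13.SK

open Pool.Agent.H89.Perc Pool.Agent.H83.Site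

end Pool.Agent.H13.SK

end

section

/-! # Finite size criterion with arms -/

set_option autoImplicit false

open MeasureTheory ProbabilityTheory unitInterval

namespace Pool.Agent.H83.Site

open Pool.Agent.H89.Perc

end Pool.Agent.H83.Site

end

section

/-!
# Good scales of site percolation

`Good δ p r m`: the square of side `4 m` is crossed with probability at least `1 - δ` by paths of
the colour `r` (`r = false`: open sites of the square lattice, `r = true`: sites of the matching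
lattice).
-/

set_option autoImplicit false

open MeasureTheory ProbabilityTheory unitInterval

namespace Pool.Agent.H13.SK

open Pool.Agent.H89.Perc Pool.Agent.H83.Site

end Pool.Agent.H13.SK

end

section

/-!
# Chains of circuits
-/

open MeasureTheory ProbabilityTheory unitInterval

namespace Pool.Agent.H83.SK

open Pool.Agent.H57.EX

open Pool.Agent.H89.Perc Pool.Agent.H61.NC Pool.Agent.H29.Sep

end Pool.Agent.H83.SK

end

section

/-!
# Site percolation, box-crossing regime: blocking, decay, half circuits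
-/

open MeasureTheory ProbabilityTheory unitInterval

namespace Pool.Agent.H83.SK

open Pool.Agent.H26.HP

open Pool.Agent.H89.Perc

end Pool.Agent.H83.SK

end

section

/-!
# Half plane, one arm with a free side: the exponent is one

`E1 R z`: the cluster of `(z, 0)` in the half ball of radius `R` reaches distance `R` and does not
touch the base to the right of `(z, 0)`.  Its probability is at most `C / R`.
-/

open MeasureTheory ProbabilityTheory unitInterval

namespace Pool.Agent.H83.SK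

open Pool.Agent.H26.HP

open Pool.Agent.H89.Perc

end Pool.Agent.H83.SK

end

section

/-!
# The corridor lemma for site percolation

`pb π w` is the configuration `g ↦ w (π g)`.  Given a separated four-arm event, increasing events of
the sites of the corridor `C` and arbitrary events `H` of the sites which are neither in `C` nor in
or adjacent (in the domain) to the two clusters (with filled targets) can be added at the cost of
constant factors.
-/

set_option autoImplicit false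

open MeasureTheory ProbabilityTheory unitInterval

namespace Pool.Agent.H38.N59

open Pool.Agent.H89.Perc
open Pool.Agent.H83.SK (sv sit sit_true RSWreg)
open Pool.Agent.H59.EX (LocS inE touch clus closeS Side T Mouth Fence dom pb sat fkg_cond markov_indep)

end Pool.Agent.H38.N59

end

section

/-!
# Symmetries of the separated events for sites, sum over sides
-/

set_option autoImplicit false

open MeasureTheory ProbabilityTheory unitInterval

namespace Pool.Agent.H38.N59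

open Pool.Agent.H89.Perc
open Pool.Agent.H61.NC hiding RSWreg
open Pool.Agent.H83.SK (sv sit sit_true RSWreg)
open Pool.Agent.H59.EX (LocS inE touch clus closeS Side T Mouth Fence dom Gen OnSide fence_mem)

/-- `x` reaches the side `d` of `ball 0 (8 w)`. -/
def Land (d : Side) (s : Src) (w : ℕ) : Set Config :=
  {ω | ∃ u, OnSide d (8 * w) u ∧ Conn (sit (s.cut ω)) (ball 0 (8 * w)) s.x u}

variable {q : I} {s : Src} {d d' : Side} {k r w : ℕ}

/-! ### The action on the constructions -/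

private theorem sym_side (g : Gen) (d : Side) (r : ℕ) (a : Vert) :
    OnSide (g.s d) r (g.v a) ↔ OnSide d r a := by
  unfold OnSide
  rw [sym_sphere]
  refine and_congr_right fun _ => ?_
  cases g <;> cases d <;> simp only [Gen.v, Gen.s] <;> omega

private theorem sym_ball' (g : Gen) (r : ℕ) : {w | g.v w ∈ ball 0 r} = ball 0 r := by
  ext w
  exact g.mem_ball r w

private theorem sym_four (g : Gen) {s : Src} {r : ℕ} {ω : Config} (h : ω ∈ Four s r) :
    (fun e => ω (gp g e)) ∈ Four (s.map g) r := by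
  obtain ⟨⟨u, hu, h1⟩, ⟨u', hu', h2⟩, h3⟩ := h
  have hx : (s.map g).x = g.v s.x := rfl
  have hy : (s.map g).y = g.v s.y := rfl
  refine ⟨⟨g.v u, (sym_sphere g r u).2 hu, ?_⟩, ⟨g.v u', (sym_sphere g r u').2 hu', ?_⟩, ?_⟩
  · rw [sym_cut, hx, sym_conn', sym_ball']
    exact h1
  · rw [sym_cut, hy, sym_conn', sym_ball']
    exact h2
  · rw [sym_cut, hx, hy, sym_conn', sym_ball']
    exact h3

private theorem sym_land (g : Gen) {s : Src} {d : Side} {w : ℕ} {ω : Config}
    (h : ω ∈ Land d s w) : (fun e => ω (gp g e)) ∈ Land (g.s d) (s.map g) w := by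
  obtain ⟨u, hu, h1⟩ := h
  have hx : (s.map g).x = g.v s.x := rfl
  refine ⟨g.v u, (sym_side g d _ u).2 hu, ?_⟩
  rw [sym_cut, hx, sym_conn', sym_ball']
  exact h1

theorem locS_land (d : Side) (s : Src) (w : ℕ) : LocS (vE (ball 0 (8 * w))) (Land d s w) := by
  rintro ω ω' h ⟨u, hu, h1⟩
  exact ⟨u, hu, conn_congr (fun e he => cut_congr (h e he)) h1⟩

theorem localOn_four (s : Src) (r : ℕ) : ∃ Λ : Finset Edge, LocalOn Λ (Four s r) := by
  obtain ⟨Λ, hΛ⟩ := exists_fin r
  exact ⟨Λ, locS_localOn (locS_four s r) fun e he => Finset.mem_coe.2 (hΛ e he)⟩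

theorem four_map (g : Gen) : Pr q (Four (s.map g) r) = Pr q (Four s r) := by
  have key : ∀ s : Src, Pr q (Four s r) ≤ Pr q (Four (s.map g) r) := by
    intro s
    obtain ⟨Λ, hΛ⟩ := localOn_four (s.map g) r
    rw [← Pr_comp hΛ (gp_inj g).injOn]
    exact Pr_mono fun ω hω => sym_four g hω
  refine le_antisymm ?_ (key s)
  have h := key (s.map g)
  rw [sym_map_map] at h
  exact h

theorem four_land_map (g : Gen) :
    Pr q (Four (s.map g) (8 * w) ∩ Land (g.s d) (s.map g) w) = Pr q (Four s (8 * w) ∩ Land d s w) := by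
  have key : ∀ (s : Src) (d : Side), Pr q (Four s (8 * w) ∩ Land d s w) ≤
      Pr q (Four (s.map g) (8 * w) ∩ Land (g.s d) (s.map g) w) := by
    intro s d
    obtain ⟨Λ, hΛ⟩ := exists_fin (8 * w)
    have hl : LocalOn Λ (Four (s.map g) (8 * w) ∩ Land (g.s d) (s.map g) w) :=
      locS_localOn (locS_inter (locS_four (s.map g) (8 * w)) (locS_land (g.s d) (s.map g) w))
        fun e he => Finset.mem_coe.2 (hΛ e he)
    rw [← Pr_comp hl (gp_inj g).injOn]
    exact Pr_mono fun ω hω => ⟨sym_four g hω.1, sym_land g hω.2⟩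
  refine le_antisymm ?_ (key s d)
  have h := key (s.map g) (g.s d)
  rw [sym_map_map, g.s_s] at h
  exact h

/-- A separated event is a four-arm event. -/
theorem sep_sub_four (hk : 1 ≤ k) : Sep s d d' k ⊆ Four s (28 * k) := by
  have hball : ∀ a ∈ ball (0 : Vert) 2, a ∈ ball (0 : Vert) (28 * k) := by
    intro a ha
    simp only [mem_ball, Prod.fst_zero, Prod.snd_zero] at ha ⊢
    push_cast at ha ⊢
    omega
  have hT : ∀ (d : Side), ∀ u ∈ T d k, u ∉ ball (0 : Vert) (28 * k) ∨ u ∈ sphere 0 (28 * k) := by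
    intro d u hu
    by_cases h : u ∈ ball (0 : Vert) (28 * k)
    · refine Or.inr ⟨h, ?_⟩
      cases d <;> simp only [T, rect, Set.mem_ofPred_eq] at hu <;>
        simp only [mem_ball, Prod.fst_zero, Prod.snd_zero] at h ⊢ <;> push_cast at h ⊢ <;> omega
    · exact Or.inl h
  rintro ω ⟨h1, h2, h3, -, -⟩
  obtain ⟨u, hu, hxu⟩ := fence_mem h1
  obtain ⟨u', hu', hyu⟩ := fence_mem h2
  obtain ⟨z, hz, hxz⟩ := hxu.to_sphere (v := 0) (r := 28 * k) (hball _ s.hx) (hT d u hu)
  obtain ⟨z', hz', hyz⟩ := hyu.to_sphere (v := 0) (r := 28 * k) (hball _ s.hy) (hT d' u' hu')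
  refine ⟨⟨z, hz, hxz.mono_set Set.inter_subset_right⟩,
    ⟨z', hz', hyz.mono_set Set.inter_subset_right⟩, fun hc => h3 ?_⟩
  refine conn_mono (fun a ha => Or.inl ?_) (fun e he => le_fillS he) hc
  simp only [mem_ball, Prod.fst_zero, Prod.snd_zero] at ha ⊢
  push_cast at ha ⊢
  omega

theorem four_mono' (h : 2 ≤ r) {r' : ℕ} (hr : r ≤ r') : Four s r' ⊆ Four s r := by
  have hball : ∀ a ∈ ball (0 : Vert) 2, a ∈ ball (0 : Vert) r := by
    intro a ha
    simp only [mem_ball, Prod.fst_zero, Prod.snd_zero] at ha ⊢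
    push_cast at ha
    omega
  have hsph : ∀ u ∈ sphere (0 : Vert) r', u ∉ ball (0 : Vert) r ∨ u ∈ sphere 0 r := by
    rintro u ⟨-, hu⟩
    by_cases h : u ∈ ball (0 : Vert) r
    · refine Or.inr ⟨h, ?_⟩
      simp only [mem_ball, Prod.fst_zero, Prod.snd_zero] at h hu ⊢
      omega
    · exact Or.inl h
  have hsub : ball (0 : Vert) r ⊆ ball 0 r' := by
    intro a ha
    simp only [mem_ball, Prod.fst_zero, Prod.snd_zero] at ha ⊢
    omega
  rintro ω ⟨⟨u, hu, h1⟩, ⟨u', hu', h2⟩, h3⟩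
  obtain ⟨z, hz, hxz⟩ := h1.to_sphere (v := 0) (r := r) (hball _ s.hx) (hsph u hu)
  obtain ⟨z', hz', hyz⟩ := h2.to_sphere (v := 0) (r := r) (hball _ s.hy) (hsph u' hu')
  exact ⟨⟨z, hz, hxz.mono_set Set.inter_subset_right⟩,
    ⟨z', hz', hyz.mono_set Set.inter_subset_right⟩, fun hc => h3 (hc.mono_set hsub)⟩

theorem four_land : Four s (8 * w) ⊆ ⋃ d : Side, Four s (8 * w) ∩ Land d s w := by
  intro ω hω
  obtain ⟨u, hu, h1⟩ := hω.1
  rw [Set.mem_iUnion]
  obtain ⟨d, hd⟩ : ∃ d : Side, OnSide d (8 * w) u := by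
    have h2 := hu.2
    simp only [Prod.fst_zero, Prod.snd_zero, zero_sub, zero_add] at h2
    rcases h2 with h | h | h | h
    · exact ⟨.W, hu, h⟩
    · exact ⟨.E, hu, h⟩
    · exact ⟨.S, hu, h⟩
    · exact ⟨.N, hu, h⟩
  exact ⟨d, hω, u, hd, h1⟩

end Pool.Agent.H38.N59

end

section

/-!
# Bad events for sites: two clusters close to the same vertex of the sphere
-/

set_option autoImplicit false

open MeasureTheory ProbabilityTheory unitInterval

namespace Pool.Agent.H38.N59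

open Pool.Agent.H89.Perc
open Pool.Agent.H61.NC hiding RSWreg
open Pool.Agent.H83.SK (sv sit sit_true RSWreg)
open Pool.Agent.H59.EX (LocS inE touch clus closeS Side T Mouth Fence dom CorrData CorrSep mem_clus_single clus_conn)
open Pool.Agent.H29.Sep (LocTwo)

variable {s : Src} {w ρ ρ' : ℕ} {v v' : Vert} {d d' : Side} {Z Zy : Set Vert} {Nev Ny : Set Config}
  {q : I}

/-- The balls around a vertex of the sphere are far from the source. -/
private theorem bad_far {r : ℕ} {z : Vert} (hz : z ∈ sphere 0 (8 * w)) (hr : r + 2 < 8 * w)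
    {a : Vert} (ha : a ∈ ball z r) : a ∉ ball 0 2 := by
  intro h
  obtain ⟨h1, h2⟩ := hz
  rw [mem_ball] at h1 ha h
  simp only [Prod.fst_zero, Prod.snd_zero, zero_sub, zero_add] at h1 h2 h
  push_cast at h1 h2 h
  omega

/-- On sets far from the source the configuration is not cut. -/
private theorem bad_uncut {ω : Config} {S : Set Vert} {a b : Vert}
    (hS : ∀ p ∈ S, p ∉ ball 0 2) (h : Conn (sit ω) S a b) : Conn (sit (s.cut ω)) S a b := by
  refine conn_congr (fun g hg => ?_) h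
  obtain ⟨h1, h2⟩ := hg
  have h3 : g = sv (src g) := by
    obtain ⟨x, y, t⟩ := g
    have h4 : t = false := h1
    simp [sv, src, h4]
  rw [h3]
  exact (cut_of_not_ball (hS _ h2)).symm

/-- If `x` lands near `v` and the cluster of `y` comes near `v`, then two distinct clusters cross
a half annulus. -/
theorem bad0 (hρ : 1 ≤ ρ) (hw : 64 * ρ ≤ w) (hv : v ∈ sphere 0 (8 * w)) {ω : Config}
    (hω : ω ∈ Four s (8 * w))
    (hx : ∃ u ∈ sphere 0 (8 * w), u ∈ ball v ρ ∧ Conn (sit (s.cut ω)) (ball 0 (8 * w)) s.x u)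
    (hy : ¬ Disjoint (SY s w ω) (ball v (11 * ρ))) :
    ω ∈ Four s (2 * w) ∧ ∃ z ∈ sphere 0 (8 * w),
      sit ω ∈ LocTwo (ball 0 (8 * w)) z (11 * ρ) (4 * w) := by
  refine ⟨four_mono' (by omega) (by omega) hω, v, hv, ?_⟩
  obtain ⟨u, -, huv, hxu⟩ := hx
  obtain ⟨p, hp, hpv⟩ := Set.not_disjoint_iff.1 hy
  have hyp : Conn (sit (s.cut ω)) (ball 0 (8 * w)) s.y p := mem_clus_single.1 hp
  have hfar : ∀ a ∈ ball v (4 * w), a ∉ ball 0 2 := fun a ha => bad_far hv (by omega) ha
  have hu11 : u ∈ ball v (11 * ρ) := ball_mono' (by omega) huv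
  have hsub : ball v (11 * ρ) ⊆ ball v (4 * w) := ball_mono' (by omega)
  obtain ⟨a, ha, hca⟩ := hxu.symm.to_sphere (v := v) (r := 4 * w) (hsub hu11)
    (Or.inl fun h => hfar _ h s.hx)
  obtain ⟨b, hb, hcb⟩ := hyp.symm.to_sphere (v := v) (r := 4 * w) (hsub hpv)
    (Or.inl fun h => hfar _ h s.hy)
  refine ⟨u, hu11, p, hpv, a, ha, b, hb, cut_sub le_rfl hca, cut_sub le_rfl hcb,
    fun h => hω.2.2 ?_⟩
  have h1 : Conn (sit (s.cut ω)) (ball 0 (8 * w) ∩ ball v (4 * w)) u p :=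
    bad_uncut (fun q hq => hfar q hq.2) h
  exact (hxu.trans (h1.mono_set Set.inter_subset_left)).trans hyp.symm

/-- If the clusters of `x` (after gluing) and of `y` come close to the same vertex, then two
distinct clusters cross a half annulus. -/
theorem bad12 (hK : CorrData w ρ v d Z Nev) (hρ' : 1 ≤ ρ') (h1 : 64 * ρ' ≤ ρ) (h2 : 64 * ρ ≤ w)
    {ω : Config} (hω : ω ∈ Ev0 s w ρ v)
    (hg : ω ∉ Good12 s w ρ' Z) :
    ω ∈ Four s (2 * w) ∧ ∃ z ∈ sphere 0 (8 * w),
      sit ω ∈ LocTwo (ball 0 (8 * w)) z (12 * ρ') ρ := by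
  obtain ⟨⟨u, hu, huv, hxu⟩, ⟨u', hu', hyu'⟩, hxy, hdis⟩ := hω
  refine ⟨four_mono' (by omega) (by omega) ⟨⟨u, hu, hxu⟩, ⟨u', hu', hyu'⟩, hxy⟩, ?_⟩
  simp only [Good12, Set.mem_ofPred_eq, not_forall, not_not] at hg
  obtain ⟨z, hz, ⟨a, ha1, haz⟩, ⟨b, hb1, hbz⟩⟩ := hg
  refine ⟨z, hz, ?_⟩
  have hfar : ∀ p ∈ ball z ρ, p ∉ ball 0 2 := fun p hp => bad_far hz (by omega) hp
  have hsub : ball z (12 * ρ') ⊆ ball z ρ := ball_mono' (by omega)
  -- the corridor is far from `z`
  have hbv : b ∉ ball v (11 * ρ) := Set.disjoint_left.1 hdis hb1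
  have hZ : ∀ p ∈ ball z ρ, p ∉ Z := by
    intro p hp hpZ
    have h3 : z ∈ ball v (5 * ρ) := hK.inter p hpZ z hz.1 (ball_symm' hp)
    apply hbv
    rw [mem_ball] at h3 hbz ⊢
    push_cast at h3 hbz ⊢
    omega
  have hca : Conn (sit (fillS Z (s.cut ω))) (ball 0 (8 * w) ∪ Z) s.x a := mem_clus_single.1 ha1
  have hcb : Conn (sit (s.cut ω)) (ball 0 (8 * w)) s.y b := mem_clus_single.1 hb1
  obtain ⟨a', ha', haa'⟩ := hca.symm.to_sphere (v := z) (r := ρ) (hsub haz)
    (Or.inl fun h => hfar _ h s.hx)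
  obtain ⟨b', hb', hbb'⟩ := hcb.symm.to_sphere (v := z) (r := ρ) (hsub hbz)
    (Or.inl fun h => hfar _ h s.hy)
  have hDa : Conn (sit ω) (ball 0 (8 * w) ∩ ball z ρ) a a' := by
    have h4 : Conn (sit (s.cut ω)) ((ball 0 (8 * w) ∪ Z) ∩ ball z ρ) a a' := by
      refine conn_congr (fun g hg => ?_) haa'
      have h5 : g ∉ vE Z := fun h => hZ _ hg.2.2 h.2
      simp [fillS, h5]
    refine cut_sub ?_ h4
    rintro p ⟨hp | hp, hp'⟩
    · exact ⟨hp, hp'⟩
    · exact absurd hp (hZ p hp')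
  refine ⟨a, haz, b, hbz, a', ha', b', hb', hDa, cut_sub le_rfl hbb', fun h => ?_⟩
  have h6 : Conn (sit (s.cut ω)) (ball 0 (8 * w) ∩ ball z ρ) a b :=
    bad_uncut (fun q hq => hfar q hq.2) h
  have h7 : b ∈ S1 s w Z ω := by
    refine clus_conn ha1 (conn_mono ?_ (fun e he => le_fillS he) h6)
    exact Set.inter_subset_left.trans Set.subset_union_left
  exact Set.disjoint_left.1 (S1_disj_SY hK (by omega) hdis hxy) h7 hb1

/-- Independence of the inner four-arm event and of the events near the sphere. -/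
theorem four_bad_indep {t ρ₁ : ℕ} (hρ₁ : ρ₁ ≤ 4 * w) (hw : 1 ≤ w) :
    Pr q (Four s (2 * w) ∩ BadZ w t ρ₁) = Pr q (Four s (2 * w)) * Pr q (BadZ w t ρ₁) := by
  classical
  obtain ⟨Λ, hΛ⟩ := exists_fin (8 * w)
  have hsub : ball (0 : Vert) (2 * w) ⊆ ball 0 (8 * w) := ball_mono' (by omega)
  have hbad : LocS (vE (ball 0 (8 * w) \ ball 0 (2 * w))) (BadZ w t ρ₁) := by
    have key : ∀ z ∈ sphere (0 : Vert) (8 * w), ∀ ω ω' : Config,
        (∀ f ∈ vE (ball 0 (8 * w) \ ball 0 (2 * w)), ω f = ω' f) →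
        ∀ u v : Vert, Conn (sit ω) (ball 0 (8 * w) ∩ ball z ρ₁) u v →
          Conn (sit ω') (ball 0 (8 * w) ∩ ball z ρ₁) u v := by
      intro z hz ω ω' h u v hc
      refine conn_congr (fun f hf => h f ⟨hf.1, hf.2.1, fun h0 => ?_⟩) hc
      have hf2 := hf.2.2
      obtain ⟨hz1, hz2⟩ := hz
      simp only [mem_ball, Prod.fst_zero, Prod.snd_zero] at h0 hf2 hz1 hz2
      push_cast at h0 hf2 hz1 hz2
      omega
    rintro ω ω' h ⟨z, hz, u, hu, u', hu', p, hp, p', hp', h1, h2, h3⟩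
    exact ⟨z, hz, u, hu, u', hu', p, hp, p', hp', key z hz _ _ h _ _ h1, key z hz _ _ h _ _ h2,
      fun h4 => h3 (key z hz _ _ (fun f hf => (h f hf).symm) _ _ h4)⟩
  refine Pool.Agent.H59.EX.indep_cond (Λ := Λ) (t := vE (ball 0 (2 * w))) ?_ (locS_four s _) ?_ ?_
  · exact locS_localOn (locS_four s (2 * w)) fun e he => Finset.mem_coe.2 (hΛ e (vE_mono hsub he))
  · exact locS_localOn hbad fun e he => Finset.mem_coe.2 (hΛ e (vE_mono Set.sdiff_subset he))
  · exact locS_mono hbad fun e he h => he.2.2 h.2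

end Pool.Agent.H38.N59

end

section

/-!
# Outward separation for sites: stage 3
-/

set_option autoImplicit false

open MeasureTheory ProbabilityTheory unitInterval

namespace Pool.Agent.H38.N59

open Pool.Agent.H89.Perc
open Pool.Agent.H83.SK (sv sit sit_true RSWreg)
open Pool.Agent.H59.EX (LocS inE touch clus closeS Side T Mouth Fence dom CorrData CorrSep mem_clus_single corr_inter corr_sub160 markov_incr clus_sub)

variable {s : Src} {w ρ ρ' : ℕ} {v v' : Vert} {d d' : Side} {Z Zy : Set Vert} {Nev Ny : Set Config}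
  {q : I}

/-- Conditions on the value of the cluster of `x`. -/
private def st3_Good (s : Src) (w ρ' : ℕ) (v' : Vert) (Z : Set Vert) (S : Set Vert) : Prop :=
  Z ⊆ S ∧ s.y ∉ S ∧ (∀ z ∈ S, z ∈ ball 0 (8 * w) ∨ (∃ a ∈ Z, ball z 1 ⊆ ball a (4 * ρ')) ∨
    ∃ a ∈ S, a ∈ sphere 0 (8 * w) ∧ ball z 1 ⊆ ball a (4 * ρ')) ∧ Disjoint S (ball v' (7 * ρ'))

/-- Stage 3: conditional FKG given the sealed cluster of `x`. -/
theorem stage3 (hK : CorrData w ρ v d Z Nev) (hKy : CorrData w ρ' v' d' Zy Ny)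
    (hS : CorrSep w ρ' v' Z Zy) (hρ' : 1 ≤ ρ') {c : ℝ} (hc : 0 ≤ c)
    (hN : c ≤ Pr q {ω | sit ω ∈ Ny}) :
    c * Pr q (Ev3 s w ρ' v' d Z) ≤ Pr q (Ev3 s w ρ' v' d Z ∩ {ω | sit ω ∈ Ny}) := by
  classical
  -- the finite set of sites
  obtain ⟨Λ, hΛ⟩ := exists_fin (160 * w)
  have hball : ball (0 : Vert) (8 * w) ⊆ ball 0 (160 * w) := ball_mono' (by omega)
  have hZ160 := corr_sub160 hK
  have hZy160 := corr_sub160 hKy
  have hDZ : ball (0 : Vert) (8 * w) ∪ Z ⊆ ball 0 (160 * w) := Set.union_subset hball hZ160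
  have hloc : LocS (vE Zy) {ω | sit ω ∈ Ny} := locS_sit_inE hKy.loc
  have hN1 : LocalOn Λ {ω | sit ω ∈ Ny} := fun ω ω' h hω =>
    hloc ω ω' (fun e he => h e (hΛ e (vE_mono hZy160 he))) hω
  have main := markov_incr (Λ := Λ) (q := q) (c := c) (SH s w Z)
    (st3_Good s w ρ' v' Z)
    (fun S => rv (ball 0 (160 * w)) S ∪ vE S)
    (fun S => {ω | Fence d (4 * w) (sit (s.cut ω)) (S ∩ (ball 0 (8 * w) ∪ Z)) s.x})
    (fun S => {ω | ∃ u ∈ sphere 0 (8 * w), u ∈ ball v' ρ' ∧
      Conn (sit (s.cut ω)) (ball 0 (8 * w) \ S) s.y u}) (fun _ => {ω | sit ω ∈ Ny})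
    (by
      intro i ω ω' h hω
      exact clus_fill_congr (fun g hg _ => h g (hΛ g (rv_sub hg))) hω)
    (by
      rintro i - ω ω' h hω
      exact clus_fill_congr (fun g hg _ => h g (Or.inl hg)) hω)
    (by
      intro S ω ω' h hω
      refine fence_congr (fun g hg => ?_) (fun g hg => ?_) hω
      · exact cut_congr (h g (hΛ g (vE_mono (hK.T_sub.trans hZ160) hg)))
      · exact cut_congr (h g (hΛ g (vE_mono (Set.inter_subset_right.trans hDZ) hg))))
    (by
      rintro S ⟨hZS, -⟩ ω ω' h hω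
      refine fence_congr (fun g hg => ?_) (fun g hg => ?_) hω
      · exact cut_congr (h g (Or.inr (vE_mono (hK.T_sub.trans hZS) hg)))
      · exact cut_congr (h g (Or.inr (vE_mono Set.inter_subset_left hg))))
    (by
      rintro _ ω ω' h ⟨u, h1, h2, h3⟩
      exact ⟨u, h1, h2, conn_congr (fun g hg =>
        cut_congr (h g (hΛ g (vE_mono (Set.sdiff_subset.trans hball) hg)))) h3⟩)
    (by
      rintro _ _ ω ω' h ⟨u, h1, h2, h3⟩
      exact ⟨u, h1, h2, conn_mono le_rfl (cut_incr h) h3⟩)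
    (fun _ => hN1)
    (by
      rintro S ⟨-, -, hconf, hd⟩ ω ω' h hω
      refine hloc ω ω' (fun g hg => h g ?_) hω
      obtain ⟨hg1, hg2⟩ := hg
      have h3 : g = sv (src g) := by
        obtain ⟨x, y, t⟩ := g
        have h4 : t = false := hg1
        simp [sv, src, h4]
      have hfar : ∀ z' ∈ ball (src g) 1, z' ∉ S := fun z' hz' =>
        conf_far hKy hS hρ' hconf hd hg2 hz'
      rw [h3]
      rintro (h5 | h5)
      · obtain ⟨a, e, hj, -, -, h1⟩ := of_mem_rv h5
        rcases h1 with h1 | h1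
        · exact hfar a (Pool.Agent.H59.EX.ball_of_joins hj) h1
        · exact hfar _ self_mem_ball h1
      · exact hfar _ self_mem_ball (sv_mem_vE.1 h5))
    (fun _ _ => incr_sit hKy.incr) (fun _ _ => hN) hc
  have e1 : {ω | st3_Good s w ρ' v' Z (SH s w Z ω) ∧
      ω ∈ {ω' | Fence d (4 * w) (sit (s.cut ω')) (SH s w Z ω ∩ (ball 0 (8 * w) ∪ Z)) s.x} ∧
      ω ∈ {ω' | ∃ u ∈ sphere 0 (8 * w), u ∈ ball v' ρ' ∧
        Conn (sit (s.cut ω')) (ball 0 (8 * w) \ SH s w Z ω) s.y u}} = Ev3 s w ρ' v' d Z := by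
    ext ω
    constructor
    · rintro ⟨⟨hZ, hy, hconf, hd⟩, hF, hL⟩
      exact ⟨⟨hy, hF, hconf⟩, hL, hd⟩
    · rintro ⟨hC, hL, hd⟩
      have hZ := Z_sub_SH_of_conf hK hC
      obtain ⟨hy, hF, hconf⟩ := hC
      exact ⟨⟨hZ, hy, hconf, hd⟩, hF, hL⟩
  have e2 : {ω | st3_Good s w ρ' v' Z (SH s w Z ω) ∧
      ω ∈ {ω' | Fence d (4 * w) (sit (s.cut ω')) (SH s w Z ω ∩ (ball 0 (8 * w) ∪ Z)) s.x} ∧
      ω ∈ {ω' | ∃ u ∈ sphere 0 (8 * w), u ∈ ball v' ρ' ∧
        Conn (sit (s.cut ω')) (ball 0 (8 * w) \ SH s w Z ω) s.y u} ∧ ω ∈ {ω | sit ω ∈ Ny}} =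
      Ev3 s w ρ' v' d Z ∩ {ω | sit ω ∈ Ny} := by
    rw [← e1]
    ext ω
    simp only [Set.mem_inter_iff, Set.mem_ofPred_eq]
    tauto
  rw [e1, e2] at main
  exact main

end Pool.Agent.H38.N59

end

section

/-!
# Outward separation for sites: stage 1
-/

set_option autoImplicit false

open MeasureTheory ProbabilityTheory unitInterval

namespace Pool.Agent.H38.N59

open Pool.Agent.H89.Perc
open Pool.Agent.H83.SK (sv sit sit_true RSWreg)
open Pool.Agent.H59.EX (LocS inE touch clus closeS Side T Mouth Fence dom CorrData CorrSep mem_clus_single corr_inter corr_sub160 markov_incr)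

variable {s : Src} {w ρ ρ' : ℕ} {v v' : Vert} {d d' : Side} {Z Zy : Set Vert} {Nev Ny : Set Config}
  {q : I}

/-- Stage 1: conditional FKG given the cluster of `y`. -/
theorem stage1 (hK : CorrData w ρ v d Z Nev) (hρ : 1 ≤ ρ) {c : ℝ} (hc : 0 ≤ c)
    (hN : c ≤ Pr q {ω | sit ω ∈ Nev}) :
    c * Pr q (Ev0 s w ρ v) ≤ Pr q (Ev0 s w ρ v ∩ {ω | sit ω ∈ Nev}) := by
  classical
  -- the finite set of sites
  obtain ⟨Λ, hΛ⟩ := exists_fin (160 * w)
  have hball : ball (0 : Vert) (8 * w) ⊆ ball 0 (160 * w) := ball_mono' (by omega)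
  have hΛD : ∀ e ∈ vE (ball (0 : Vert) (8 * w)), e ∈ Λ := fun e he => hΛ e (vE_mono hball he)
  have hΛZ : ∀ e ∈ vE Z, e ∈ Λ := fun e he => hΛ e (vE_mono (corr_sub160 hK) he)
  have hloc : LocS (vE Z) {ω | sit ω ∈ Nev} := locS_sit_inE hK.loc
  have hN1 : LocalOn Λ {ω | sit ω ∈ Nev} := fun ω ω' h hω =>
    hloc ω ω' (fun e he => h e (hΛZ e he)) hω
  have main := markov_incr (Λ := Λ) (q := q) (c := c) (SY s w)
    (fun S => s.x ∉ S ∧ (∃ u ∈ sphere 0 (8 * w), u ∈ S) ∧ Disjoint S (ball v (11 * ρ)))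
    (fun S => rv (ball 0 (8 * w)) S) (fun _ => Set.univ)
    (fun _ => {ω | ∃ u ∈ sphere 0 (8 * w), u ∈ ball v ρ ∧
      Conn (sit (s.cut ω)) (ball 0 (8 * w)) s.x u}) (fun _ => {ω | sit ω ∈ Nev})
    (by
      intro i ω ω' h hω
      exact clus_cut_congr (fun g hg => h g (hΛD g (rv_sub hg))) hω)
    (by
      intro i _ ω ω' h hω
      exact clus_cut_congr (fun g hg => h g hg) hω)
    (fun _ ω ω' _ _ => trivial)
    (fun _ _ ω ω' _ _ => trivial)
    (by
      rintro _ ω ω' h ⟨u, h1, h2, h3⟩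
      exact ⟨u, h1, h2, conn_congr (fun g hg => cut_congr (h g (hΛD g hg))) h3⟩)
    (by
      rintro _ _ ω ω' h ⟨u, h1, h2, h3⟩
      exact ⟨u, h1, h2, conn_mono le_rfl (cut_incr h) h3⟩)
    (fun _ => hN1)
    (by
      rintro S ⟨_, _, hd⟩ ω ω' h hω
      refine hloc ω ω' (fun g hg => h g ?_) hω
      intro hS
      have h0 := Set.disjoint_left.1 hd
      obtain ⟨hg1, hg2⟩ := hg
      have h3 : g = sv (src g) := by
        obtain ⟨x, y, t⟩ := g
        have h4 : t = false := hg1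
        simp [sv, src, h4]
      rw [h3] at hS
      obtain ⟨a, e, hj, -, hbD, h1⟩ := of_mem_rv hS
      have h5 : src g ∈ ball v (5 * ρ) := corr_inter hK ⟨hg2, hbD⟩
      have h6 : a ∈ ball (src g) 1 := Pool.Agent.H59.EX.ball_of_joins hj
      rcases h1 with h1 | h1
      · refine h0 h1 ?_
        simp only [mem_ball] at h5 h6 ⊢
        push_cast at h5 h6 ⊢
        omega
      · exact h0 h1 (ball_mono' (by omega) h5))
    (fun _ _ => incr_sit hK.incr) (fun _ _ => hN) hc
  have e1 : {ω | (s.x ∉ SY s w ω ∧ (∃ u ∈ sphere 0 (8 * w), u ∈ SY s w ω) ∧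
      Disjoint (SY s w ω) (ball v (11 * ρ))) ∧ ω ∈ (Set.univ : Set Config) ∧
      ω ∈ {ω | ∃ u ∈ sphere 0 (8 * w), u ∈ ball v ρ ∧
        Conn (sit (s.cut ω)) (ball 0 (8 * w)) s.x u}} = Ev0 s w ρ v := by
    ext ω
    unfold Ev0
    simp only [SY, mem_clus_single, Set.mem_univ, true_and, Set.mem_ofPred_eq]
    rw [conn_comm (u := s.x) (v := s.y)]
    tauto
  have e2 : {ω | (s.x ∉ SY s w ω ∧ (∃ u ∈ sphere 0 (8 * w), u ∈ SY s w ω) ∧
      Disjoint (SY s w ω) (ball v (11 * ρ))) ∧ ω ∈ (Set.univ : Set Config) ∧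
      ω ∈ {ω | ∃ u ∈ sphere 0 (8 * w), u ∈ ball v ρ ∧
        Conn (sit (s.cut ω)) (ball 0 (8 * w)) s.x u} ∧ ω ∈ {ω | sit ω ∈ Nev}} =
      Ev0 s w ρ v ∩ {ω | sit ω ∈ Nev} := by
    rw [← e1]
    ext ω
    simp only [Set.mem_inter_iff, Set.mem_ofPred_eq]
    tauto
  rw [e1, e2] at main
  exact main

end Pool.Agent.H38.N59

end
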