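import Pool.Agent.H94.BG.H31.PT.M12
import Pool.Agent.H94.BG.H31.PT.M12_2

/-! The parts of this file: H13.SK.SigmaSum, H83.Site.FSstrong, H13.SK.Good, H83.SK.P57.Chain, H83.SK.PHP.Reg, H83.SK.PHP.One, H38.SK.N59.Corr, H38.SK.N59.Sym, H38.SK.N59.Bad, H38.SK.N59.St3, H38.SK.N59.St1. -/

section

/-!
# Upper bound for the mean cluster size: summation
-/

set_option autoImplicit false

open MeasureTheory ProbabilityTheory unitInterval

namespace Pool.Agent.H13.SK

open Pool.Agent.H89.Perc Pool.Agent.H83.Site

end Pool.Agent.H13.SK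

end

section

/-! # Finite size criterion with arms -/

set_option autoImplicit false

open MeasureTheory ProbabilityTheory unitInterval

namespace Pool.Agent.H83.Site

open Pool.Agent.H89.Perc

end Pool.Agent.H83.Site

end

section

/-!
# Good scales of site percolation

`Good δ p r m`: the square of side `4 m` is crossed with probability at least `1 - δ` by paths of
the colour `r` (`r = false`: open sites of the square lattice, `r = true`: sites of the matching
lattice).
-/

set_option autoImplicit false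

open MeasureTheory ProbabilityTheory unitInterval

namespace Pool.Agent.H13.SK

open Pool.Agent.H89.Perc Pool.Agent.H83.Site

end Pool.Agent.H13.SK

end

section

/-!
# Chains of circuits
-/

open MeasureTheory ProbabilityTheory unitInterval

namespace Pool.Agent.H83.SK

open Pool.Agent.H57.EX

open Pool.Agent.H89.Perc Pool.Agent.H61.NC Pool.Agent.H29.Sep

end Pool.Agent.H83.SK

end

section

/-!
# Site percolation, box-crossing regime: blocking, decay, half circuits
-/

open MeasureTheory ProbabilityTheory unitInterval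

namespace Pool.Agent.H83.SK

open Pool.Agent.H26.HP

open Pool.Agent.H89.Perc

end Pool.Agent.H83.SK

end

section

/-!
# Half plane, one arm with a free side: the exponent is one

`E1 R z`: the cluster of `(z, 0)` in the half ball of radius `R` reaches distance `R` and does not
touch the base to the right of `(z, 0)`.  Its probability is at most `C / R`.
-/

open MeasureTheory ProbabilityTheory unitInterval

namespace Pool.Agent.H83.SK

open Pool.Agent.H26.HP

open Pool.Agent.H89.Perc

end Pool.Agent.H83.SK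

end

section

/-!
# The corridor lemma for site percolation

`pb π w` is the configuration `g ↦ w (π g)`.  Given a separated four-arm event, increasing events of
the sites of the corridor `C` and arbitrary events `H` of the sites which are neither in `C` nor in
or adjacent (in the domain) to the two clusters (with filled targets) can be added at the cost of
constant factors.
-/

set_option autoImplicit false

open MeasureTheory ProbabilityTheory unitInterval

namespace Pool.Agent.H38.N59

open Pool.Agent.H89.Perc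
open Pool.Agent.H83.SK (sv sit sit_true RSWreg)
open Pool.Agent.H59.EX (LocS inE touch clus closeS Side T Mouth Fence dom pb sat fkg_cond markov_indep)

private theorem T_finite (d : Side) (k : ℕ) : (T d k).Finite := by
  cases d <;> exact rect_finite _ _ _ _

theorem dom_finite (d d' : Side) (k : ℕ) : (dom d d' k).Finite :=
  (rect_finite _ _ _ _).union ((T_finite d k).union (T_finite d' k))

theorem corridor_prob {q : I} {π : Edge → Edge} {s : Src} {d d' : Side} {k : ℕ}
    {C : Set Vert} {Np : Set Config} {H : Set Vert → Set Config} {c₁ c₂ : ℝ}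
    (hc₂ : 0 ≤ c₂) (hinj : Set.InjOn π (vE (dom d d' k ∪ C)))
    (hCT : T d k ∪ T d' k ⊆ C) (hC : C ∩ dom d d' k ⊆ T d k ∪ T d' k) (hCf : C.Finite)
    (hN : LocS (vE C) Np) (iN : Incr Np) (hN1 : c₁ ≤ Pr q {w | pb π w ∈ Np})
    (hH : ∀ S, LocS (det π d d' k C S)ᶜ (H S))
    (hHΛ : ∃ Λ : Finset Edge, ∀ S, LocalOn Λ (H S))
    (hH1 : ∀ S, c₂ ≤ Pr q {w | pb π w ∈ H S}) :
    c₁ * c₂ * Pr q (Sep s d d' k) ≤
      Pr q {w | pb π w ∈ Sep s d d' k ∧ pb π w ∈ Np ∧
        pb π w ∈ H (FX s d d' k (pb π w) ∪ FY s d d' k (pb π w))} := by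
  classical
  obtain ⟨ΛH, hΛH⟩ := hHΛ
  have hfin : (vE (dom d d' k ∪ C)).Finite := vE_finite ((dom_finite d d' k).union hCf)
  obtain ⟨Λ, hΛ⟩ : ∃ Λ : Finset Edge, Λ = (hfin.toFinset ∪ ΛH).image π := ⟨_, rfl⟩
  have hsub : ∀ t : Set Edge, t ⊆ vE (dom d d' k ∪ C) → π '' t ⊆ ↑Λ := by
    rintro t ht _ ⟨e, he, rfl⟩
    rw [hΛ, Finset.mem_coe]
    exact Finset.mem_image_of_mem _ (Finset.mem_union_left _ (hfin.mem_toFinset.2 (ht he)))
  have hloc : ∀ {t : Set Edge} {A : Set Config}, LocS t A → t ⊆ vE (dom d d' k ∪ C) →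
      LocalOn Λ {w | pb π w ∈ A} := fun h ht => locS_localOn (locS_pb h) (hsub _ ht)
  have hdomsub : vE (dom d d' k) ⊆ vE (dom d d' k ∪ C) := vE_mono Set.subset_union_left
  have hCsub : vE C ⊆ vE (dom d d' k ∪ C) := vE_mono Set.subset_union_right
  have hrvsub : ∀ S, rv (dom d d' k) S ⊆ vE (dom d d' k ∪ C) := fun S => rv_sub.trans hdomsub
  have hZdom : vE (dom d d' k) \ vE (T d k ∪ T d' k) ⊆ vE (dom d d' k ∪ C) :=
    fun e he => hdomsub he.1
  -- Step A
  have hA : c₁ * Pr q (Sep s d d' k) ≤
      Pr q {w | pb π w ∈ Sep s d d' k ∧ pb π w ∈ Np} := by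
    have hdisj : π '' vE C ⊆ (π '' (vE (dom d d' k) \ vE (T d k ∪ T d' k)))ᶜ := by
      rintro _ ⟨e, he, rfl⟩ ⟨e', he', heq⟩
      have h1 : e' = e := hinj (hdomsub he'.1) (hCsub he) heq
      subst h1
      exact he'.2 ⟨he.1, hC ⟨he.2, he'.1.2⟩⟩
    have h1 := fkg_cond (q := q) (Λ := Λ)
      (t := π '' (vE (dom d d' k) \ vE (T d k ∪ T d' k)))
      (A := {w | pb π w ∈ SepA s d d' k}) (G := {w | pb π w ∈ SepG s d d' k})
      (H := {w | pb π w ∈ Np})
      (hloc (locS_sepA s d d' k) hZdom) (locS_pb (locS_sepA s d d' k))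
      (hloc (locS_sepG s d d' k) hdomsub) (incr_pb (incr_sepG s d d' k))
      (hloc hN hCsub) (locS_mono (locS_pb hN) hdisj) (incr_pb iN)
    have h2 : {w | pb π w ∈ SepA s d d' k} ∩ {w | pb π w ∈ SepG s d d' k} =
        {w | pb π w ∈ Sep s d d' k} := by
      rw [sep_eq]; rfl
    have h3 : Pr q {w | pb π w ∈ Sep s d d' k} = Pr q (Sep s d d' k) := by
      have hl : LocalOn (vE_finite (dom_finite d d' k)).toFinset (Sep s d d' k) :=
        locS_localOn (locS_sep s d d' k) (by simp)
      refine Pr_comp hl ?_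
      intro e he e' he' heq
      rw [Set.Finite.coe_toFinset] at he he'
      exact hinj (hdomsub he) (hdomsub he') heq
    rw [h2, h3] at h1
    calc c₁ * Pr q (Sep s d d' k) ≤ Pr q (Sep s d d' k) * Pr q {w | pb π w ∈ Np} := by
          rw [mul_comm]
          exact mul_le_mul_of_nonneg_left hN1 Pr_nonneg
      _ ≤ _ := h1
      _ ≤ _ := Pr_mono fun w hw => hw
  -- Step B
  have hB := markov_indep (q := q) (Λ := Λ) (c := c₂)
    (fun w => (FX s d d' k (pb π w), FY s d d' k (pb π w))) (fun _ => True)
    (fun i => π '' (rv (dom d d' k) (i.1 ∪ i.2) ∪ vE C))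
    (fun i => {w | pb π w ∈ {η | η ∈ Sep s d d' k ∧ FX s d d' k η = i.1 ∧ FY s d d' k η = i.2} ∩ Np})
    (fun i => {w | pb π w ∈ H (i.1 ∪ i.2)}) ?_ ?_ ?_ ?_ ?_ ?_ ?_ hc₂
  · refine le_trans ?_ (hB.trans (Pr_mono ?_))
    · have e : c₁ * c₂ * Pr q (Sep s d d' k) = c₂ * (c₁ * Pr q (Sep s d d' k)) := by ring
      rw [e]
      refine (mul_le_mul_of_nonneg_left hA hc₂).trans
        (mul_le_mul_of_nonneg_left (Pr_mono ?_) hc₂)
      intro w hw
      exact ⟨trivial, ⟨hw.1, rfl, rfl⟩, hw.2⟩
    · intro w hw
      exact ⟨hw.2.1.1.1, hw.2.1.2, hw.2.2⟩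
  · -- the values are local
    rintro ⟨S, S'⟩
    have h1 : LocS (vE (dom d d' k)) {η | FX s d d' k η = S ∧ FY s d d' k η = S'} :=
      fun w w' h hw => ⟨locS_FX s d d' k S w w' (fun e he => h e (rv_sub he)) hw.1,
        locS_FY s d d' k S' w w' (fun e he => h e (rv_sub he)) hw.2⟩
    have h2 := hloc h1 hdomsub
    have h3 : {w | (FX s d d' k (pb π w), FY s d d' k (pb π w)) = (S, S')} =
        {w | pb π w ∈ {η | FX s d d' k η = S ∧ FY s d d' k η = S'}} := by
      ext w
      simp only [Set.mem_ofPred_eq, Prod.mk.injEq]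
    rw [h3]
    exact h2
  · rintro ⟨S, S'⟩ -
    have h1 : LocS (rv (dom d d' k) (S ∪ S') ∪ vE C)
        {η | FX s d d' k η = S ∧ FY s d d' k η = S'} :=
      fun w w' h hw => ⟨locS_FX s d d' k S w w'
          (fun e he => h e (Or.inl (rv_mono Set.subset_union_left he))) hw.1,
        locS_FY s d d' k S' w w'
          (fun e he => h e (Or.inl (rv_mono Set.subset_union_right he))) hw.2⟩
    have h2 := locS_pb (π := π) h1
    have h3 : {w | (FX s d d' k (pb π w), FY s d d' k (pb π w)) = (S, S')} =
        {w | pb π w ∈ {η | FX s d d' k η = S ∧ FY s d d' k η = S'}} := by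
      ext w
      simp only [Set.mem_ofPred_eq, Prod.mk.injEq]
    rw [h3]
    exact h2
  · rintro ⟨S, S'⟩
    refine hloc (t := rv (dom d d' k) (S ∪ S') ∪ vE C) ?_ ?_
    · exact locS_inter (locS_sep_val s d d' k hCT S S') (locS_mono hN Set.subset_union_right)
    · rintro e (he | he)
      · exact hrvsub _ he
      · exact hCsub he
  · rintro ⟨S, S'⟩ -
    exact locS_pb (locS_inter (locS_sep_val s d d' k hCT S S')
      (locS_mono hN Set.subset_union_right))
  · rintro ⟨S, S'⟩ w w' h hw
    refine hΛH (S ∪ S') _ _ (fun e he => h (π e) ?_) hw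
    rw [hΛ]
    exact Finset.mem_image_of_mem _ (Finset.mem_union_right _ he)
  · rintro ⟨S, S'⟩ - w w' h hw
    refine hH (S ∪ S') _ _ (fun e he => h (π e) ?_) hw
    rintro ⟨e', he', heq⟩
    exact he ⟨e', he', heq.symm⟩
  · rintro ⟨S, S'⟩ -
    exact hH1 (S ∪ S')

end Pool.Agent.H38.N59

end

section

/-!
# Symmetries of the separated events for sites, sum over sides
-/

set_option autoImplicit false

open MeasureTheory ProbabilityTheory unitInterval

namespace Pool.Agent.H38.N59

open Pool.Agent.H89.Perc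
open Pool.Agent.H61.NC hiding RSWreg
open Pool.Agent.H83.SK (sv sit sit_true RSWreg)
open Pool.Agent.H59.EX (LocS inE touch clus closeS Side T Mouth Fence dom Gen OnSide fence_mem)

variable {q : I} {s : Src} {d d' : Side} {k r w : ℕ}

/-! ### The action on the constructions -/

theorem localOn_sep (s : Src) (d d' : Side) (k : ℕ) : ∃ Λ : Finset Edge, LocalOn Λ (Sep s d d' k) :=
  ⟨(vE_finite (dom_finite d d' k)).toFinset, locS_localOn (locS_sep s d d' k) (by simp)⟩

theorem sep_map (g : Gen) : Pr q (Sep (s.map g) (g.s d) (g.s d') k) = Pr q (Sep s d d' k) := by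
  have key : ∀ (s : Src) (d d' : Side),
      Pr q (Sep s d d' k) ≤ Pr q (Sep (s.map g) (g.s d) (g.s d') k) := by
    intro s d d'
    obtain ⟨Λ, hΛ⟩ := localOn_sep (s.map g) (g.s d) (g.s d') k
    rw [← Pr_comp hΛ (gp_inj g).injOn]
    exact Pr_mono fun ω hω => sym_sep g hω
  refine le_antisymm ?_ (key s d d')
  have h := key (s.map g) (g.s d) (g.s d')
  rw [sym_map_map, g.s_s, g.s_s] at h
  exact h

end Pool.Agent.H38.N59

end

section

/-!
# Bad events for sites: two clusters close to the same vertex of the sphere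
-/

set_option autoImplicit false

open MeasureTheory ProbabilityTheory unitInterval

namespace Pool.Agent.H38.N59

open Pool.Agent.H89.Perc
open Pool.Agent.H61.NC hiding RSWreg
open Pool.Agent.H83.SK (sv sit sit_true RSWreg)
open Pool.Agent.H59.EX (LocS inE touch clus closeS Side T Mouth Fence dom CorrData CorrSep mem_clus_single clus_conn)
open Pool.Agent.H29.Sep (LocTwo)

end Pool.Agent.H38.N59

end

section

/-!
# Outward separation for sites: stage 3
-/

set_option autoImplicit false

open MeasureTheory ProbabilityTheory unitInterval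

namespace Pool.Agent.H38.N59

open Pool.Agent.H89.Perc
open Pool.Agent.H83.SK (sv sit sit_true RSWreg)
open Pool.Agent.H59.EX (LocS inE touch clus closeS Side T Mouth Fence dom CorrData CorrSep mem_clus_single corr_inter corr_sub160 markov_incr clus_sub)

end Pool.Agent.H38.N59

end

section

/-!
# Outward separation for sites: stage 1
-/

set_option autoImplicit false

open MeasureTheory ProbabilityTheory unitInterval

namespace Pool.Agent.H38.N59

open Pool.Agent.H89.Perc
open Pool.Agent.H83.SK (sv sit sit_true RSWreg)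
open Pool.Agent.H59.EX (LocS inE touch clus closeS Side T Mouth Fence dom CorrData CorrSep mem_clus_single corr_inter corr_sub160 markov_incr)

end Pool.Agent.H38.N59

end
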