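import Pool.Agent.H94.BG.H31.PT.M03_2
import Pool.Agent.H94.BG.H31.PT.M04_1
import Pool.Agent.H94.BG.H31.PT.M09
import Pool.Agent.H94.BG.H31.PT.M13
import Pool.Agent.H94.BG.M02

/-! The parts of this file: H89.Perc.WindExcl, H31.EX.WindReg, H89.Perc.TorusDet, H31.EX.BlockRule, H31.EX.BlockReveal, H31.EX.BlockLow, H61.NC.BlockTwo, H29.Sep.A4Low, H29.Sep.OuterSplit, H59.EX.MoveDef, H59.EX.MoveTurn, H59.EX.MoveStr. -/

section

/-!
# An open horizontal winding path excludes a dual vertical winding path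
-/

open MeasureTheory ProbabilityTheory unitInterval

namespace Pool.Agent.H89.Perc

end Pool.Agent.H89.Perc

end

section

/-!
# The winding event is not degenerate in the box-crossing regime
-/

open MeasureTheory ProbabilityTheory unitInterval

namespace Pool.Agent.H31.EX

open Pool.Agent.H89.Perc Pool.Agent.H61.NC

end Pool.Agent.H31.EX

end

section

/-!
# The exploration determines the winding event
-/

open MeasureTheory ProbabilityTheory unitInterval

namespace Pool.Agent.H89.Perc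

/-! ### The exploration -/

/-! ### The boundary of the fundamental square is connected -/

/-! ### Periodicity -/

end Pool.Agent.H89.Perc

end

section

/-!
# Block OSSS inequality for an exploration that queries single edges

From an exploration rule for single edges we make a rule for blocks: run the edge exploration on
the revealed blocks; when it asks for an edge of a block that is not revealed, reveal this block.
-/

open MeasureTheory ProbabilityTheory unitInterval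

namespace Pool.Agent.H31.EX

open Pool.Agent.H89.Perc Pool.Agent.H85.Kes

end Pool.Agent.H31.EX

end

section

/-!
# Blocks of the torus: a revealed block has a primal arm and a dual arm
-/

open MeasureTheory ProbabilityTheory unitInterval

namespace Pool.Agent.H31.EX

open Pool.Agent.H89.Perc

end Pool.Agent.H31.EX

end

section

/-!
# Lower bound for the probability that a block is pivotal for the winding event
-/

open MeasureTheory ProbabilityTheory unitInterval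

namespace Pool.Agent.H31.EX

open Pool.Agent.H89.Perc Pool.Agent.H61.NC

/-! ### The sum over the blocks -/

end Pool.Agent.H31.EX

end

section

/-!
# A pivotal block of the torus has two distinct crossing clusters around it
-/

open MeasureTheory ProbabilityTheory unitInterval

namespace Pool.Agent.H61.NC

open Pool.Agent.H89.Perc

private lemma bt_shift {N : ℕ} (η : Config) (a b : ℤ) {u v : Vert}
    (h : Conn (per N η) Set.univ u v) :
    Conn (per N η) Set.univ (u.1 + a * N, u.2 + b * N) (v.1 + a * N, v.2 + b * N) := by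
  have h1 := conn_shift (ω := per N η) (a * N, b * N) Set.univ u v
  have h2 : (fun e => per N η (shiftE (a * N, b * N) e)) = per N η := by
    funext e
    simp only [per, shiftE]
    rw [Int.add_mul_emod_self_right, Int.add_mul_emod_self_right]
  rw [h2] at h1
  have h3 := h1.1 h
  refine h3.mono_set (Set.subset_univ _)

/-- A long path crosses the annulus. -/
private lemma bt_cross {η : Config} {m : Vert} {t R' : ℕ} (ht : 1 ≤ t) (htR : t ≤ R') {v v' : Vert}
    (hv : v ∈ ball m t) (hv' : v' ∉ ball m R') (h : Conn η Set.univ v v') :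
    ∃ x ∈ sphere m t, (∃ w ∈ sphere m R', Conn η (Ring m t R') x w) ∧ Conn η Set.univ v x := by
  have htR'' : (t : ℤ) ≤ R' := by exact_mod_cast htR
  have ht1 : ((t - 1 : ℕ) : ℤ) = (t : ℤ) - 1 := by push_cast [Nat.cast_sub ht]; ring
  have hsub : ball m t ⊆ ball m R' := by
    intro x hx
    rw [mem_ball] at hx ⊢
    omega
  obtain ⟨w, hw, h1⟩ := h.to_sphere (r := R') (hsub hv) (Or.inl hv')
  rcases htR.eq_or_lt with heq | hlt
  · subst heq
    refine ⟨w, hw, ⟨w, hw, Conn.refl ⟨hw.1, fun h3 => ?_⟩⟩, h1.mono_set (Set.subset_univ _)⟩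
    have h4 := hw.2
    have h5 := hw.1
    rw [mem_ball] at h3 h5
    rw [ht1] at h3
    omega
  have htR' : (t : ℤ) < R' := by exact_mod_cast hlt
  have hwt : w ∉ ball m t := by
    intro hh
    rw [mem_ball] at hh
    have h2 := hw
    simp only [sphere, ball, rect, Set.mem_ofPred_eq] at h2
    omega
  obtain ⟨x, x', h2, h3, h4, h5⟩ := h1.exists_last (T := ball m t) hv hwt
  have h6 := h5.mem_left
  have e1 := h4.fst_le
  have e2 := h4.snd_le
  have hx : x ∈ sphere m t := by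
    refine ⟨h2, ?_⟩
    have h7 := h6.2
    rw [mem_ball] at h2 h7
    omega
  have hring : ∀ y ∈ sphere m t, y ∈ Ring m t R' := by
    intro y hy
    refine ⟨hsub hy.1, ?_⟩
    have h7 := hy.2
    have h8 := hy.1
    rw [mem_ball] at h8 ⊢
    rw [ht1]
    omega
  have h8 : Conn η (Ring m t R') x' w := by
    refine h5.mono_set ?_
    rintro y ⟨⟨-, hy1⟩, hy2⟩
    refine ⟨hy1, fun hy3 => hy2 ?_⟩
    rw [mem_ball] at hy3 ⊢
    rw [ht1] at hy3
    omega
  have h9 : Step η (Ring m t R') x x' := ⟨hring x hx, h8.mem_left, h4.2.2⟩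
  exact ⟨x, hx, ⟨w, hw, h9.conn.trans h8⟩, h3.mono_set (Set.subset_univ _)⟩

/-- All end points of edges of the block. -/
private def bt_B (N R : ℕ) (a b : ℤ) : Set Vert :=
  {v | mid N - R + a * N ≤ v.1 ∧ v.1 ≤ mid N + R + 1 + a * N ∧
    mid N - R + b * N ≤ v.2 ∧ v.2 ≤ mid N + R + 1 + b * N}

private lemma bt_B_shift {N R : ℕ} {a b a' b' : ℤ} {v : Vert} (h : v ∈ bt_B N R a b) :
    ((v.1 + a' * N, v.2 + b' * N) : Vert) ∈ bt_B N R (a + a') (b + b') := by
  simp only [bt_B, Set.mem_ofPred_eq] at h ⊢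
  have e1 : (a + a') * (N : ℤ) = a * N + a' * N := by ring
  have e2 : (b + b') * (N : ℤ) = b * N + b' * N := by ring
  rw [e1, e2]
  omega

/-- An edge of the filled configuration is an edge of the emptied one, or it is in a block. -/
private lemma bt_step {N R : ℕ} {ω : Config} {v v' : Vert}
    (h : Step (per N (fill (blk N R) true ω)) Set.univ v v') :
    Step (per N (fill (blk N R) false ω)) Set.univ v v' ∨
      ∃ a b : ℤ, v ∈ bt_B N R a b ∧ v' ∈ bt_B N R a b := by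
  obtain ⟨-, -, e, he, hω⟩ := h
  by_cases hb : (e.1 % N, e.2.1 % N, e.2.2) ∈ blk N R
  · right
    refine ⟨e.1 / N, e.2.1 / N, ?_⟩
    rw [blk, mem_eRect] at hb
    simp only [src, rect, Set.mem_ofPred_eq] at hb
    have e1 : e.1 = e.1 % N + e.1 / N * N := (Int.emod_add_ediv_mul e.1 N).symm
    have e2 : e.2.1 = e.2.1 % N + e.2.1 / N * N := (Int.emod_add_ediv_mul e.2.1 N).symm
    have hs : src e ∈ bt_B N R (e.1 / N) (e.2.1 / N) := by
      simp only [bt_B, src, Set.mem_ofPred_eq]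
      omega
    have ht : tgt e ∈ bt_B N R (e.1 / N) (e.2.1 / N) := by
      rcases hd : e.2.2 <;> simp only [bt_B, tgt, hd, Set.mem_ofPred_eq, if_true, Bool.false_eq_true,
        if_false] <;> omega
    rcases he with ⟨h1, h2⟩ | ⟨h1, h2⟩
    · rw [h1, h2]; exact ⟨hs, ht⟩
    · rw [h1, h2]; exact ⟨ht, hs⟩
  · left
    refine ⟨Set.mem_univ _, Set.mem_univ _, e, he, ?_⟩
    simp only [per, fill, if_neg hb] at hω ⊢
    exact hω

/-- **A pivotal block has two distinct crossing clusters around it.** -/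
theorem two_of_blockPiv {N R t R' : ℕ} (hRt : R + 1 ≤ t) (htR : t ≤ R') (hN : R + R' + 2 ≤ N)
    {ω : Config} (h : ω ∈ BlockPiv N R) : per N ω ∈ Two (mid N, mid N) t R' := by
  obtain ⟨⟨u, a, b, ha, hc⟩, hno⟩ := h
  have hNR : (R : ℤ) + R' + 2 ≤ N := by exact_mod_cast hN
  have hRt' : (R : ℤ) + 1 ≤ t := by exact_mod_cast hRt
  have htR' : (t : ℤ) ≤ R' := by exact_mod_cast htR
  set η0 := per N (fill (blk N R) false ω) with hη0
  set η1 := per N (fill (blk N R) true ω) with hη1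
  -- an excursion which winds
  have hexc : ∃ v ∈ bt_B N R 0 0, ∃ a b : ℤ, ∃ v' ∈ bt_B N R a b, a ≠ 0 ∧
      Conn η0 Set.univ v v' := by
    by_contra hnone
    push Not at hnone
    have hnone' : ∀ (a₁ b₁ a₂ b₂ : ℤ) (v v' : Vert), v ∈ bt_B N R a₁ b₁ → v' ∈ bt_B N R a₂ b₂ →
        Conn η0 Set.univ v v' → a₁ = a₂ := by
      intro a₁ b₁ a₂ b₂ v v' h1 h2 h3
      have h4 := bt_B_shift (a' := -a₁) (b' := -b₁) h1
      have h5 := bt_B_shift (a' := -a₁) (b' := -b₁) h2
      have h6 := bt_shift (fill (blk N R) false ω) (-a₁) (-b₁) h3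
      rw [add_neg_cancel, add_neg_cancel] at h4
      by_contra hne
      exact hnone _ h4 _ _ _ h5 (by intro h; apply hne; linarith only [h]) h6
    have key : Conn η0 Set.univ u (u.1 + a * N, u.2 + b * N) ∨ ∃ a₁ b₁ b₂ : ℤ,
        ∃ v₁ ∈ bt_B N R a₁ b₁, ∃ v₂ ∈ bt_B N R a₁ b₂, Conn η0 Set.univ u v₁ ∧
          Conn η0 Set.univ v₂ (u.1 + a * N, u.2 + b * N) := by
      refine hc.induction_right (P := fun w => Conn η0 Set.univ u w ∨ ∃ a₁ b₁ b₂ : ℤ,
        ∃ v₁ ∈ bt_B N R a₁ b₁, ∃ v₂ ∈ bt_B N R a₁ b₂, Conn η0 Set.univ u v₁ ∧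
          Conn η0 Set.univ v₂ w) (Or.inl (Conn.refl (Set.mem_univ _))) ?_
      intro w w' _ hs ih
      rcases bt_step hs with h1 | ⟨a₂, b₂, h1, h2⟩
      · rcases ih with ih | ⟨a₁, b₁, b₂, v₁, hv₁, v₂, hv₂, h2, h3⟩
        · exact Or.inl (ih.tail h1)
        · exact Or.inr ⟨a₁, b₁, b₂, v₁, hv₁, v₂, hv₂, h2, h3.tail h1⟩
      · rcases ih with ih | ⟨a₁, b₁, b₂', v₁, hv₁, v₂, hv₂, h3, h4⟩
        · exact Or.inr ⟨a₂, b₂, b₂, w, h1, w', h2, ih, Conn.refl (Set.mem_univ _)⟩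
        · have := hnone' _ _ _ _ _ _ hv₂ h1 h4
          subst this
          exact Or.inr ⟨a₁, b₁, b₂, v₁, hv₁, w', h2, h3, Conn.refl (Set.mem_univ _)⟩
    rcases key with h1 | ⟨a₁, b₁, b₂, v₁, hv₁, v₂, hv₂, h1, h2⟩
    · exact hno ⟨u, a, b, ha, h1⟩
    · have h3 := bt_shift (fill (blk N R) false ω) a b h1
      have h4 := hnone' _ _ _ _ _ _ hv₂ (bt_B_shift (a' := a) (b' := b) hv₁) (h2.trans h3)
      exact ha (by linarith only [h4])
  obtain ⟨v, hv, a', b', v', hv', ha', hvv⟩ := hexc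
  -- geometry
  have habs : (N : ℤ) ≤ |a'| * N := by
    have h1 : (1 : ℤ) ≤ |a'| := Int.one_le_abs ha'
    have h2 : (0 : ℤ) ≤ N := by positivity
    nlinarith only [h1]
  have hball : ∀ w ∈ bt_B N R 0 0, w ∈ ball (mid N, mid N) t := by
    intro w hw
    simp only [bt_B, zero_mul, add_zero, Set.mem_ofPred_eq] at hw
    rw [mem_ball]
    simp only
    omega
  have hfar : ∀ (c : ℤ) (b'' : ℤ), |c| = |a'| → ∀ w ∈ bt_B N R c b'', w ∉ ball (mid N, mid N) R' := by
    intro c b'' hcc w hw hw'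
    simp only [bt_B, Set.mem_ofPred_eq] at hw
    rw [mem_ball] at hw'
    simp only at hw'
    have h1 : |c * (N : ℤ)| = |a'| * N := by
      rw [abs_mul, hcc, abs_of_nonneg (by positivity : (0 : ℤ) ≤ N)]
    rcases abs_cases (c * (N : ℤ)) with h2 | h2 <;> omega
  have hcongr : ∀ e : Edge, src e ∈ Ring (mid N, mid N) t R' →
      per N ω e = η0 e := by
    intro e he
    have ht1 : ((t - 1 : ℕ) : ℤ) = (t : ℤ) - 1 := by
      push_cast [Nat.cast_sub (show 1 ≤ t by omega)]; ring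
    have hb : (e.1 % N, e.2.1 % N, e.2.2) ∉ blk N R := by
      intro hb
      rw [blk, mem_eRect] at hb
      simp only [src, rect, Set.mem_ofPred_eq] at hb
      have e1 : e.1 = e.1 % N + e.1 / N * N := (Int.emod_add_ediv_mul e.1 N).symm
      have e2 : e.2.1 = e.2.1 % N + e.2.1 / N * N := (Int.emod_add_ediv_mul e.2.1 N).symm
      obtain ⟨h1, h2⟩ := he
      simp only [mem_ball, src, ht1] at h1 h2
      have hz : ∀ k : ℤ, |k * (N : ℤ)| < N → k = 0 := by
        intro k hk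
        by_contra hk0
        have h3 : (1 : ℤ) ≤ |k| := Int.one_le_abs hk0
        rw [abs_mul, abs_of_nonneg (by positivity : (0 : ℤ) ≤ N)] at hk
        nlinarith only [hk, h3]
      have k1 : e.1 / N = 0 := hz _ (abs_lt.2 ⟨by omega, by omega⟩)
      have k2 : e.2.1 / N = 0 := hz _ (abs_lt.2 ⟨by omega, by omega⟩)
      rw [k1, zero_mul] at e1
      rw [k2, zero_mul] at e2
      apply h2
      omega
    simp only [hη0, per, fill, if_neg hb]
  have hcon : ∀ x y : Vert, Conn (per N ω) (Ring (mid N, mid N) t R') x y →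
      Conn η0 Set.univ x y := fun x y hxy =>
    (hxy.congr fun e h1 _ => hcongr e h1).mono_set (Set.subset_univ _)
  have hcon' : ∀ x y : Vert, Conn η0 (Ring (mid N, mid N) t R') x y →
      Conn (per N ω) (Ring (mid N, mid N) t R') x y := fun x y hxy =>
    hxy.congr fun e h1 _ => (hcongr e h1).symm
  -- the second cluster is the first one translated
  have hv'' := bt_B_shift (a' := -a') (b' := -b') hv'
  rw [add_neg_cancel, add_neg_cancel] at hv''
  have hvm := bt_B_shift (a' := -a') (b' := -b') hv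
  have h2 := bt_shift (fill (blk N R) false ω) (-a') (-b') hvv
  obtain ⟨x, hx, ⟨w, hw, hxw⟩, hvx⟩ := bt_cross (by omega) htR (hball v hv)
    (hfar a' b' rfl v' hv') hvv
  obtain ⟨x', hx', ⟨w', hw', hxw'⟩, hvx'⟩ := bt_cross (by omega) htR (hball _ hv'')
    (hfar (0 + -a') (0 + -b') (by rw [zero_add, abs_neg]) _ hvm) h2.symm
  refine ⟨x, x', hx, hx', ⟨w, hw, hcon' _ _ hxw⟩, ⟨w', hw', hcon' _ _ hxw'⟩, fun hxx => ?_⟩
  have h3 := (hvx'.trans (hcon _ _ hxx).symm).trans hvx.symm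
  have h4 := h3.trans hvv
  refine hno ⟨(v'.1 + -a' * N, v'.2 + -b' * N), a', b', ha', ?_⟩
  simp only
  rw [show v'.1 + -a' * (N : ℤ) + a' * N = v'.1 by ring,
    show v'.2 + -b' * (N : ℤ) + b' * N = v'.2 by ring]
  exact h4

end Pool.Agent.H61.NC

end

section

/-!
# Small scales: finite energy
-/

open MeasureTheory ProbabilityTheory unitInterval

namespace Pool.Agent.H29.Sep

open Pool.Agent.H89.Perc Pool.Agent.H61.NC

theorem a4_le_one (q : I) (r : ℕ) : a4 q r ≤ 1 := Pr_le_one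

end Pool.Agent.H29.Sep

end

section

/-!
# Outer decomposition of the annulus event into two-terminal events
-/

open MeasureTheory ProbabilityTheory unitInterval

namespace Pool.Agent.H29.Sep

open Pool.Agent.H89.Perc Pool.Agent.H61.NC

private theorem OuterSplit_ball {v : Vert} {r : ℕ} : v ∈ ball (0 : Vert) r ↔
    -(r : ℤ) ≤ v.1 ∧ v.1 ≤ r ∧ -(r : ℤ) ≤ v.2 ∧ v.2 ≤ r := by
  rw [mem_ball]
  simp

private theorem OuterSplit_sphere {v : Vert} {r : ℕ} : v ∈ sphere (0 : Vert) r ↔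
    (-(r : ℤ) ≤ v.1 ∧ v.1 ≤ r ∧ -(r : ℤ) ≤ v.2 ∧ v.2 ≤ r) ∧
      (v.1 = -(r : ℤ) ∨ v.1 = r ∨ v.2 = -(r : ℤ) ∨ v.2 = r) := by
  rw [← OuterSplit_ball]
  show v ∈ ball 0 r ∧ _ ↔ _
  simp

theorem localOn_A2 {t R : ℕ} :
    LocalOn (eRect (-(R : ℤ)) R (-(R : ℤ)) R) (A2 t R) := by
  have key : ∀ ω ω' : Config, (∀ e ∈ eRect (-(R : ℤ)) R (-(R : ℤ)) R, ω e = ω' e) →
      ∀ u v : Vert, Conn ω (dom t R) u v → Conn ω' (dom t R) u v := by
    intro ω ω' h u v hc
    refine Conn.congr (fun e he _ => h e (mem_eRect.2 ?_)) hc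
    exact OuterSplit_ball.1 he.1
  rintro ω ω' h ⟨u, hu, u', hu', v, hv, v', hv', h1, h2, h3⟩
  exact ⟨u, hu, u', hu', v, hv, v', hv', key ω ω' h _ _ h1, key ω ω' h _ _ h2,
    fun h4 => h3 (key ω' ω (fun e he => (h e he).symm) _ _ h4)⟩

private theorem OuterSplit_restrict {ω : Config} {t t' R R' : ℕ} (h1 : 1 ≤ t) (h2 : t ≤ t')
    (h3 : t' ≤ R') (h4 : R' ≤ R) {u v : Vert} (hu : u ∈ sphere 0 R) (hv : v ∈ sphere 0 t)
    (h : Conn ω (dom t R) u v) :
    ∃ x ∈ sphere 0 R', ∃ y ∈ sphere 0 t', Conn ω (dom t' R') x y ∧ Conn ω (dom t R) u x := by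
  have hvb : v ∈ ball 0 R' := by
    rw [OuterSplit_sphere] at hv
    rw [OuterSplit_ball]
    omega
  have hub : u ∉ ball 0 R' ∨ u ∈ sphere 0 R' := by
    by_cases h5 : u ∈ ball 0 R'
    · right
      rw [OuterSplit_sphere] at hu ⊢
      rw [OuterSplit_ball] at h5
      omega
    · exact Or.inl h5
  obtain ⟨x, hx, hcx⟩ := h.symm.to_sphere (v := 0) (r := R') hvb hub
  have hux : Conn ω (dom t R) u x := h.trans (hcx.mono_set Set.inter_subset_left)
  by_cases htt : t' = t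
  · subst htt
    refine ⟨x, hx, v, hv, ?_, hux⟩
    refine hcx.symm.mono_set ?_
    rintro w ⟨hw1, hw2⟩
    exact ⟨hw2, hw1.2⟩
  · have hvT : v ∈ ball 0 (t' - 1) := by
      rw [OuterSplit_sphere] at hv
      rw [OuterSplit_ball]
      omega
    have hxT : x ∉ ball 0 (t' - 1) := by
      intro h5
      rw [OuterSplit_sphere] at hx
      rw [OuterSplit_ball] at h5
      omega
    obtain ⟨w, w', h5, h6, h7, -⟩ := hcx.symm.exists_hit hxT hvT
    refine ⟨x, hx, w, ?_, ?_, hux⟩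
    · have h8 := h5.mem_right
      have h9 := h8.2
      have h10 := h6.fst_le
      have h11 := h6.snd_le
      rw [OuterSplit_ball] at h7 h9
      rw [OuterSplit_sphere]
      omega
    · refine h5.mono_set ?_
      rintro z ⟨hz1, hz2⟩
      exact ⟨hz1.2, hz2⟩

/-- Two distinct crossing clusters of an annulus restrict to a smaller annulus. -/
theorem A2_mono {t t' R R' : ℕ} (h1 : 1 ≤ t) (h2 : t ≤ t') (h3 : t' ≤ R') (h4 : R' ≤ R) :
    A2 t R ⊆ A2 t' R' := by
  rintro ω ⟨u, hu, u', hu', v, hv, v', hv', h5, h6, h7⟩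
  obtain ⟨x, hx, y, hy, hxy, hux⟩ := OuterSplit_restrict h1 h2 h3 h4 hu hv h5
  obtain ⟨x', hx', y', hy', hxy', hux'⟩ := OuterSplit_restrict h1 h2 h3 h4 hu' hv' h6
  refine ⟨x, hx, x', hx', y, hy, y', hy', hxy, hxy', fun h8 => h7 ?_⟩
  have hsub : dom t' R' ⊆ dom t R := by
    rintro w ⟨hw1, hw2⟩
    refine ⟨?_, fun h9 => hw2 ?_⟩
    · rw [OuterSplit_ball] at hw1 ⊢
      omega
    · rw [OuterSplit_ball] at h9 ⊢
      omega
  exact (hux.trans (h8.mono_set hsub)).trans hux'.symm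

theorem BT_subset_A2 {t R : ℕ} {L K : Set Vert} (hL : L ⊆ sphere 0 R) (hK : K ⊆ sphere 0 R) :
    BT t R L K ⊆ A2 t R := by
  rintro ω ⟨⟨u, hu, v, hv, h1, h2⟩, w, hw, v', hv', h3⟩
  exact ⟨u, hL hu, w, hK hw, v, hv, v', hv', h1, h3, h2 w hw⟩

/-- points of the sphere in distance at most `s` of every point of the sphere -/
private theorem OuterSplit_net (M R s : ℕ) (hs : 1 ≤ s) (hRs : 2 * R ≤ s * (4 * M)) :
    ∃ Z : Finset Vert, Z.card ≤ 4 * (4 * M + 1) ∧ (∀ z ∈ Z, z ∈ sphere 0 R) ∧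
      ∀ u ∈ sphere 0 R, ∃ z ∈ Z, u ∈ ball z s := by
  classical
  obtain ⟨y, hy⟩ : ∃ y : ℕ → ℤ, ∀ i, y i = min (-(R : ℤ) + i * s) R := ⟨_, fun _ => rfl⟩
  have hyb : ∀ i, -(R : ℤ) ≤ y i ∧ y i ≤ R := by
    intro i
    rw [hy]
    refine ⟨le_min ?_ (by omega), min_le_right _ _⟩
    have : (0 : ℤ) ≤ (i : ℤ) * s := by positivity
    omega
  have hnear : ∀ x : ℤ, -(R : ℤ) ≤ x → x ≤ R → ∃ i ∈ Finset.range (4 * M + 1),
      y i ≤ x ∧ x ≤ y i + s := by
    intro x hx1 hx2
    obtain ⟨m, hm⟩ : ∃ m : ℕ, (m : ℤ) = x + R := ⟨(x + R).toNat, by omega⟩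
    refine ⟨m / s, ?_, ?_⟩
    · rw [Finset.mem_range, Nat.lt_succ_iff]
      apply Nat.div_le_of_le_mul
      omega
    · have h1 := Nat.div_add_mod m s
      have h2 := Nat.mod_lt m (show 0 < s by omega)
      have h3 : ((m / s : ℕ) : ℤ) * s + ((m % s : ℕ) : ℤ) = m := by
        rw [mul_comm]
        exact_mod_cast h1
      have h4 : ((m % s : ℕ) : ℤ) < s := by exact_mod_cast h2
      have h5 : (0 : ℤ) ≤ ((m % s : ℕ) : ℤ) := by positivity
      have h6 : y (m / s) = -(R : ℤ) + ((m / s : ℕ) : ℤ) * s := by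
        rw [hy]
        apply min_eq_left
        linarith only [hx2, hm, h3]
      rw [h6]
      constructor
      · linarith only [hm, h3]
      · linarith only [hm, h3, h4]
  refine ⟨(((Finset.range (4 * M + 1)).image (fun i => ((R : ℤ), y i)) ∪
    (Finset.range (4 * M + 1)).image (fun i => (-(R : ℤ), y i))) ∪
    (Finset.range (4 * M + 1)).image (fun i => (y i, (R : ℤ)))) ∪
    (Finset.range (4 * M + 1)).image (fun i => (y i, -(R : ℤ))), ?_, ?_, ?_⟩
  · have hc : ∀ f : ℕ → Vert, ((Finset.range (4 * M + 1)).image f).card ≤ 4 * M + 1 := fun f =>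
      (Finset.card_image_le).trans (by rw [Finset.card_range])
    refine (Finset.card_union_le _ _).trans ?_
    have h1 := hc (fun i => (y i, -(R : ℤ)))
    have h2 := hc (fun i => (y i, (R : ℤ)))
    have h3 := hc (fun i => (-(R : ℤ), y i))
    have h4 := hc (fun i => ((R : ℤ), y i))
    have h5 := Finset.card_union_le ((Finset.range (4 * M + 1)).image (fun i => ((R : ℤ), y i)) ∪
      (Finset.range (4 * M + 1)).image (fun i => (-(R : ℤ), y i)))
      ((Finset.range (4 * M + 1)).image (fun i => (y i, (R : ℤ))))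
    have h6 := Finset.card_union_le ((Finset.range (4 * M + 1)).image (fun i => ((R : ℤ), y i)))
      ((Finset.range (4 * M + 1)).image (fun i => (-(R : ℤ), y i)))
    omega
  · intro z hz
    simp only [Finset.mem_union, Finset.mem_image] at hz
    rw [OuterSplit_sphere]
    have hR0 : (0 : ℤ) ≤ R := by positivity
    rcases hz with ((⟨i, -, rfl⟩ | ⟨i, -, rfl⟩) | ⟨i, -, rfl⟩) | ⟨i, -, rfl⟩
    · obtain ⟨h1, h2⟩ := hyb i
      exact ⟨⟨by simp only; omega, by simp only; omega, h1, h2⟩, Or.inr (Or.inl rfl)⟩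
    · obtain ⟨h1, h2⟩ := hyb i
      exact ⟨⟨by simp only; omega, by simp only; omega, h1, h2⟩, Or.inl rfl⟩
    · obtain ⟨h1, h2⟩ := hyb i
      exact ⟨⟨h1, h2, by simp only; omega, by simp only; omega⟩, Or.inr (Or.inr (Or.inr rfl))⟩
    · obtain ⟨h1, h2⟩ := hyb i
      exact ⟨⟨h1, h2, by simp only; omega, by simp only; omega⟩, Or.inr (Or.inr (Or.inl rfl))⟩
  · intro u hu
    rw [OuterSplit_sphere] at hu
    obtain ⟨⟨h1, h2, h3, h4⟩, h5⟩ := hu
    obtain ⟨i, hi, hi1, hi2⟩ := hnear u.1 h1 h2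
    obtain ⟨j, hj, hj1, hj2⟩ := hnear u.2 h3 h4
    simp only [Finset.mem_union, Finset.mem_image]
    rcases h5 with h5 | h5 | h5 | h5
    · refine ⟨(-(R : ℤ), y j), Or.inl (Or.inl (Or.inr ⟨j, hj, rfl⟩)), ?_⟩
      rw [mem_ball]
      simp only
      omega
    · refine ⟨((R : ℤ), y j), Or.inl (Or.inl (Or.inl ⟨j, hj, rfl⟩)), ?_⟩
      rw [mem_ball]
      simp only
      omega
    · refine ⟨(y i, -(R : ℤ)), Or.inr ⟨i, hi, rfl⟩, ?_⟩
      rw [mem_ball]
      simp only
      omega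
    · refine ⟨(y i, (R : ℤ)), Or.inl (Or.inr ⟨i, hi, rfl⟩), ?_⟩
      rw [mem_ball]
      simp only
      omega

/-- the local event in a box of the decomposition -/
private theorem OuterSplit_bad {ω : Config} {t R s : ℕ} (h1 : 1 ≤ t) (h2 : 4 * t ≤ R)
    (hs : s ≤ R / 2) {z u u' v v' v0 : Vert} (hz : z ∈ sphere 0 R)
    (hv : v ∈ sphere 0 t) (hv' : v' ∈ sphere 0 t) (huv : Conn ω (dom t R) u v)
    (huv' : Conn ω (dom t R) u' v') (huu : ¬ Conn ω (dom t R) u u') (hu' : u' ∈ ball z s)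
    (hv0 : v0 ∈ ball z s) (huv0 : Conn ω (dom t R) u v0) :
    ω ∈ LocTwo (ball 0 R) z s (R / 2) := by
  have hR : ((R / 2 : ℕ) : ℤ) * 2 ≤ R := by
    have := Nat.div_mul_le_self R 2
    exact_mod_cast this
  have hsR : (s : ℤ) ≤ ((R / 2 : ℕ) : ℤ) := by exact_mod_cast hs
  have h2' : 4 * (t : ℤ) ≤ R := by exact_mod_cast h2
  have h1' : 1 ≤ (t : ℤ) := by exact_mod_cast h1
  rw [OuterSplit_sphere] at hz
  have hout : ∀ w ∈ sphere (0 : Vert) t, w ∉ ball z (R / 2) := by
    intro w hw hw2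
    rw [OuterSplit_sphere] at hw
    rw [mem_ball] at hw2
    omega
  have hin : ∀ w, w ∈ ball z s → w ∈ ball z (R / 2) := by
    intro w hw
    rw [mem_ball] at hw ⊢
    omega
  obtain ⟨x, hx, hcx⟩ := (huv0.symm.trans huv).to_sphere (v := z) (r := R / 2) (hin _ hv0)
    (Or.inl (hout v hv))
  obtain ⟨x', hx', hcx'⟩ := huv'.to_sphere (v := z) (r := R / 2) (hin _ hu') (Or.inl (hout v' hv'))
  have hsub : dom t R ∩ ball z (R / 2) ⊆ ball 0 R ∩ ball z (R / 2) :=
    fun w hw => ⟨hw.1.1, hw.2⟩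
  refine ⟨v0, hv0, u', hu', x, hx, x', hx', hcx.mono_set hsub, hcx'.mono_set hsub, ?_⟩
  intro h3
  apply huu
  refine huv0.trans (h3.mono_set ?_)
  rintro w ⟨hw1, hw2⟩
  refine ⟨hw1, fun hw3 => ?_⟩
  rw [OuterSplit_ball] at hw3
  rw [mem_ball] at hw2
  omega

/-- Outer decomposition. -/
theorem outer_split (hB : BadIn) : ∀ c ε : ℝ, 0 < c → 0 < ε → ∃ J R₀ : ℕ,
    ∀ (n t R : ℕ) (q : I), 1 ≤ t → 4 * t ≤ R → R₀ ≤ R → R ≤ n → RSWreg c n q →
      ∃ F : Finset (Set Vert), F.card ≤ J ∧ (∀ β ∈ F, β ⊆ sphere 0 R) ∧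
        Pr q (A2 t R) ≤ ∑ β ∈ F, ∑ γ ∈ F, Pr q (BT t R β γ) + ε * Pr q (A2 t (R / 4)) := by
  classical
  intro c ε hc hε
  obtain ⟨C, κ, hC, hκ, hbad⟩ := hB c hc
  -- the choice of the number of boxes
  obtain ⟨δ, hδ⟩ : ∃ δ : ℝ, δ = ε / (3 * C) := ⟨_, rfl⟩
  have hδ0 : 0 < δ := by rw [hδ]; positivity
  obtain ⟨M, hM⟩ := exists_nat_ge (max 2 (3 / δ ^ (1 / κ)))
  have hM2 : (2 : ℝ) ≤ M := (le_max_left _ _).trans hM
  have hM2' : 2 ≤ M := by exact_mod_cast hM2
  have hMpos : (0 : ℝ) < M := by linarith only [hM2]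
  have hM3 : (3 / (M : ℝ)) ^ κ ≤ δ := by
    have h1 : 3 / δ ^ (1 / κ) ≤ M := (le_max_right _ _).trans hM
    have h2 : 0 < δ ^ (1 / κ) := Real.rpow_pos_of_pos hδ0 _
    have h3 : 3 / (M : ℝ) ≤ δ ^ (1 / κ) := by
      rw [div_le_iff₀ hMpos]
      rw [div_le_iff₀ h2] at h1
      linarith only [h1]
    calc (3 / (M : ℝ)) ^ κ ≤ (δ ^ (1 / κ)) ^ κ :=
          Real.rpow_le_rpow (by positivity) h3 hκ.le
      _ = δ := by
          rw [← Real.rpow_mul hδ0.le, one_div, inv_mul_cancel₀ hκ.ne', Real.rpow_one]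
  refine ⟨4 * (4 * M + 1), M, ?_⟩
  intro n t R q h1t h4t hMR hRn hreg
  obtain ⟨s, hs⟩ : ∃ s : ℕ, s = R / M := ⟨_, rfl⟩
  have hs1 : 1 ≤ s := by
    rw [hs]
    exact (Nat.one_le_div_iff (by omega)).2 hMR
  have hsM : s * M ≤ R := by rw [hs]; exact Nat.div_mul_le_self R M
  have hsM2 : R < (s + 1) * M := by
    rw [hs]
    have := Nat.lt_div_mul_add (a := R) (b := M) (by omega)
    rw [add_mul, one_mul]
    omega
  have hs2 : s ≤ R / 2 := by
    rw [hs]
    exact Nat.div_le_div_left hM2' (by norm_num)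
  obtain ⟨Z, hZc, hZs, hZn⟩ := OuterSplit_net M R s hs1 (by nlinarith only [hsM2, hs1])
  refine ⟨Z.image (fun z => sphere 0 R ∩ ball z s), (Finset.card_image_le).trans hZc, ?_, ?_⟩
  · intro β hβ
    obtain ⟨z, -, rfl⟩ := Finset.mem_image.1 hβ
    exact Set.inter_subset_left
  obtain ⟨F, hF⟩ : ∃ F : Finset (Set Vert), F = Z.image (fun z => sphere 0 R ∩ ball z s) :=
    ⟨_, rfl⟩
  rw [← hF]
  obtain ⟨Bd, hBd⟩ : ∃ Bd : Set Config,
      Bd = {ω | ∃ z ∈ sphere 0 R, ω ∈ LocTwo (ball 0 R) z s (R / 2)} := ⟨_, rfl⟩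
  have hcover : A2 t R ⊆ (⋃ β ∈ F, ⋃ γ ∈ F, BT t R β γ) ∪ (Bd ∩ A2 t (R / 4)) := by
    intro ω hω
    have hω' := hω
    obtain ⟨u, hu, u', hu', v, hv, v', hv', h5, h6, h7⟩ := hω
    obtain ⟨z0, hz0, hz0u⟩ := hZn u hu
    obtain ⟨z, hz, hzu⟩ := hZn u' hu'
    by_cases h8 : ∀ w ∈ sphere 0 R ∩ ball z s, ¬ Conn ω (dom t R) u w
    · left
      simp only [Set.mem_iUnion]
      refine ⟨sphere 0 R ∩ ball z0 s, ?_, sphere 0 R ∩ ball z s, ?_, ?_⟩
      · rw [hF]
        exact Finset.mem_image_of_mem _ hz0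
      · rw [hF]
        exact Finset.mem_image_of_mem _ hz
      · exact ⟨⟨u, ⟨hu, hz0u⟩, v, hv, h5, h8⟩, u', ⟨hu', hzu⟩, v', hv', h6⟩
    · right
      push Not at h8
      obtain ⟨v0, ⟨-, hv0⟩, h9⟩ := h8
      refine ⟨?_, ?_⟩
      · rw [hBd]
        exact ⟨z, hZs z hz, OuterSplit_bad h1t h4t hs2 (hZs z hz) hv hv' h5 h6 h7 hzu hv0 h9⟩
      · refine A2_mono h1t le_rfl ?_ (Nat.div_le_self R 4) hω'
        omega
  -- the bad event is independent of the inner event
  obtain ⟨S1, hS1⟩ : ∃ S1 : Finset Edge, S1 = (eRect (-(R : ℤ)) R (-(R : ℤ)) R).filter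
      (fun e => src e ∉ ball (0 : Vert) (R / 4)) := ⟨_, rfl⟩
  have hloc : LocalOn S1 Bd := by
    have key : ∀ ω ω' : Config, (∀ e ∈ S1, ω e = ω' e) → ∀ z ∈ sphere (0 : Vert) R,
        ∀ u v : Vert, Conn ω (ball 0 R ∩ ball z (R / 2)) u v →
          Conn ω' (ball 0 R ∩ ball z (R / 2)) u v := by
      intro ω ω' h z hz u v hc
      refine Conn.congr (fun e he _ => h e ?_) hc
      rw [hS1, Finset.mem_filter]
      refine ⟨mem_eRect.2 (OuterSplit_ball.1 he.1), fun h9 => ?_⟩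
      have h10 := he.2
      rw [OuterSplit_sphere] at hz
      rw [OuterSplit_ball] at h9
      rw [mem_ball] at h10
      omega
    rw [hBd]
    rintro ω ω' h ⟨z, hz, u, hu, u', hu', v, hv, v', hv', h5, h6, h7⟩
    exact ⟨z, hz, u, hu, u', hu', v, hv, v', hv', key ω ω' h z hz _ _ h5, key ω ω' h z hz _ _ h6,
      fun h8 => h7 (key ω' ω (fun e he => (h e he).symm) z hz _ _ h8)⟩
  have hdisj : Disjoint S1 (eRect (-((R / 4 : ℕ) : ℤ)) ((R / 4 : ℕ) : ℤ) (-((R / 4 : ℕ) : ℤ))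
      ((R / 4 : ℕ) : ℤ)) := by
    rw [Finset.disjoint_left]
    intro e he he2
    rw [hS1, Finset.mem_filter] at he
    exact he.2 (OuterSplit_ball.2 (mem_eRect.1 he2))
  have hind : Pr q (Bd ∩ A2 t (R / 4)) = Pr q Bd * Pr q (A2 t (R / 4)) :=
    Pr_inter_of_disjoint hloc localOn_A2 hdisj
  have hR2 : 2 ≤ R := by omega
  have hsmall : Pr q Bd ≤ ε := by
    have h5 := hbad n s (R / 2) R q hs1 hs2 (by omega) hRn hreg
    rw [← hBd] at h5
    refine h5.trans ?_
    have hρ : (R : ℝ) ≤ 3 * ((R / 2 : ℕ) : ℝ) := by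
      have : R ≤ 3 * (R / 2) := by omega
      exact_mod_cast this
    have hRpos : (0 : ℝ) < R := by
      have : 0 < R := by omega
      exact_mod_cast this
    have hρpos : (0 : ℝ) < ((R / 2 : ℕ) : ℝ) := by linarith only [hρ, hRpos]
    have h6 : (R : ℝ) / ((R / 2 : ℕ) : ℝ) ≤ 3 := by
      rw [div_le_iff₀ hρpos]
      exact hρ
    have h7 : (s : ℝ) / ((R / 2 : ℕ) : ℝ) ≤ 3 / M := by
      rw [div_le_div_iff₀ hρpos hMpos]
      have h8 : (s : ℝ) * M ≤ R := by exact_mod_cast hsM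
      linarith only [hρ, h8]
    have h8 : ((s : ℝ) / ((R / 2 : ℕ) : ℝ)) ^ κ ≤ δ :=
      (Real.rpow_le_rpow (by positivity) h7 hκ.le).trans hM3
    calc C * ((R : ℝ) / ((R / 2 : ℕ) : ℝ)) * ((s : ℝ) / ((R / 2 : ℕ) : ℝ)) ^ κ
        ≤ C * 3 * δ := by
          refine mul_le_mul (mul_le_mul_of_nonneg_left h6 hC.le) h8
            (Real.rpow_nonneg (by positivity) _) (by positivity)
      _ = ε := by
          rw [hδ]
          field_simp
  calc Pr q (A2 t R) ≤ Pr q ((⋃ β ∈ F, ⋃ γ ∈ F, BT t R β γ) ∪ (Bd ∩ A2 t (R / 4))) :=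
        Pr_mono hcover
    _ ≤ Pr q (⋃ β ∈ F, ⋃ γ ∈ F, BT t R β γ) + Pr q (Bd ∩ A2 t (R / 4)) := Pr_union_le
    _ ≤ ∑ β ∈ F, ∑ γ ∈ F, Pr q (BT t R β γ) + ε * Pr q (A2 t (R / 4)) := by
        refine add_le_add ?_ ?_
        · refine (Pr_biUnion_le F _).trans (Finset.sum_le_sum fun β _ => ?_)
          exact Pr_biUnion_le F _
        · rw [hind]
          exact mul_le_mul_of_nonneg_right hsmall Pr_nonneg

end Pool.Agent.H29.Sep

end

section

/-!
# Moves: extension of separated events from scale `k` to scale `4 k`, definitions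
-/

open MeasureTheory ProbabilityTheory unitInterval

namespace Pool.Agent.H59.EX

open Pool.Agent.H89.Perc

end Pool.Agent.H59.EX

end

section

/-!
# The turning corridor of the moves
-/

open MeasureTheory ProbabilityTheory unitInterval

namespace Pool.Agent.H59.EX

open Pool.Agent.H89.Perc
open Pool.Agent.H85.Strict (hv_meet)

end Pool.Agent.H59.EX

end

section

/-!
# The straight corridors of the moves, probabilities
-/

open MeasureTheory ProbabilityTheory unitInterval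

namespace Pool.Agent.H59.EX

open Pool.Agent.H89.Perc Pool.Agent.H61.NC
open Pool.Agent.H85.Strict (hv_meet)

end Pool.Agent.H59.EX

end
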