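import Pool.Agent.H94.BG.H31.PT.M10
import Pool.Agent.H94.BG.H31.PT.M15_4
import Pool.Agent.H94.BG.M11

/-! The parts of this file: H61.NC.Sum, H59.EX.MoveCore, H59.EX.Moves, H59.EX.Iter0, H26.ST.Closed. -/

section

/-!
# Sums over edges: the second derivative is bounded by the square of the first
-/

open MeasureTheory ProbabilityTheory unitInterval

namespace Pool.Agent.H61.NC

open Pool.Agent.H89.Perc

end Pool.Agent.H61.NC

end

section

/-!
# Extension of separated events along abstract corridors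
-/

open MeasureTheory ProbabilityTheory unitInterval

namespace Pool.Agent.H59.EX

open Pool.Agent.H89.Perc Pool.Agent.H61.NC

/-! ### Rectangles are connected -/

/-! ### Elementary geometry -/

end Pool.Agent.H59.EX

end

section

/-!
# All moves between pairs of sides
-/

open MeasureTheory ProbabilityTheory unitInterval

namespace Pool.Agent.H59.EX

open Pool.Agent.H89.Perc Pool.Agent.H61.NC

variable {m m' : ℕ} {d d' e e' f f' : Side}

theorem okm_map (g : Gen) (h : OKm m d d' e e') : OKm m (g.s d) (g.s d') (g.s e) (g.s e') := by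
  intro c K hc
  obtain ⟨C, hC, H⟩ := h c K hc
  refine ⟨C, hC, fun s k n q hk hkn hR => ?_⟩
  have h1 := H (s.map g) k n q hk hkn hR
  have h2 : ∀ (a b : Side) (j : ℕ),
      Pr q (Sep (s.map g) a b j) = Pr q (Sep s (g.s a) (g.s b) j) := by
    intro a b j
    have h3 := sep_map (q := q) (s := s) (d := g.s a) (d' := g.s b) (k := j) g
    rw [Gen.s_s, Gen.s_s] at h3
    exact h3
  rw [h2, h2] at h1
  exact h1

theorem okm_flip (h : OKm m d d' e e') : OKm m d' d e' e := by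
  intro c K hc
  obtain ⟨C, hC, H⟩ := h c K hc
  refine ⟨C, hC, fun s k n q hk hkn hR => ?_⟩
  have h1 := H s.flip k n q hk hkn hR
  rw [sep_flip, sep_flip] at h1
  exact h1

theorem mv_NSNS : OKm 1 .N .S .N .S := okm_map .sw okm_EW

theorem mv_WEWE : OKm 1 .W .E .W .E := okm_map .rx okm_EW

theorem mv_NENE : OKm 1 .N .E .N .E := okm_map .sw okm_EN

theorem mv_WNWN : OKm 1 .W .N .W .N := okm_map .rx okm_EN

theorem mv_ESES : OKm 1 .E .S .E .S := okm_map .ry okm_EN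

theorem mv_SNSE : OKm 1 .S .N .S .E := okm_map .sw okm_WT

theorem mv_EWEN : OKm 1 .E .W .E .N := okm_map .rx okm_WT

theorem mv_WEWS : OKm 1 .W .E .W .S := okm_map .ry okm_WT

theorem mv_EWNW : OKm 1 .E .W .N .W := okm_flip okm_WT

theorem mv_WNWE : OKm 1 .W .N .W .E := okm_map .sw okm_ST

theorem mv_SWSN : OKm 1 .S .W .S .N := okm_map .rx okm_ST

theorem mv_NENS : OKm 1 .N .E .N .S := okm_map .ry okm_ST

theorem mv_ESNS : OKm 1 .E .S .N .S := okm_flip okm_ST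

theorem mv_SNSN : OKm 1 .S .N .S .N := okm_map .ry (okm_map .sw okm_EW)

theorem mv_NWNW : OKm 1 .N .W .N .W := okm_map .rx (okm_map .sw okm_EN)

theorem mv_SESE : OKm 1 .S .E .S .E := okm_map .ry (okm_map .sw okm_EN)

theorem mv_WSWS : OKm 1 .W .S .W .S := okm_map .ry (okm_map .rx okm_EN)

theorem mv_SNSW : OKm 1 .S .N .S .W := okm_map .rx (okm_map .sw okm_WT)

theorem mv_NSNE : OKm 1 .N .S .N .E := okm_map .ry (okm_map .sw okm_WT)

theorem mv_NSES : OKm 1 .N .S .E .S := okm_flip (okm_map .sw okm_WT)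

theorem mv_EWES : OKm 1 .E .W .E .S := okm_map .ry (okm_map .rx okm_WT)

theorem mv_WENE : OKm 1 .W .E .N .E := okm_flip (okm_map .rx okm_WT)

theorem mv_EWSW : OKm 1 .E .W .S .W := okm_flip (okm_map .ry okm_WT)

theorem mv_ENEW : OKm 1 .E .N .E .W := okm_map .rx (okm_map .sw okm_ST)

theorem mv_WSWE : OKm 1 .W .S .W .E := okm_map .ry (okm_map .sw okm_ST)

theorem mv_NWEW : OKm 1 .N .W .E .W := okm_flip (okm_map .sw okm_ST)

theorem mv_NWNS : OKm 1 .N .W .N .S := okm_map .ry (okm_map .rx okm_ST)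

theorem mv_WSNS : OKm 1 .W .S .N .S := okm_flip (okm_map .rx okm_ST)

theorem mv_ENSN : OKm 1 .E .N .S .N := okm_flip (okm_map .ry okm_ST)

theorem mv_SWSW : OKm 1 .S .W .S .W := okm_map .ry (okm_map .rx (okm_map .sw okm_EN))

theorem mv_NSNW : OKm 1 .N .S .N .W := okm_map .ry (okm_map .rx (okm_map .sw okm_WT))

theorem mv_NSWS : OKm 1 .N .S .W .S := okm_flip (okm_map .rx (okm_map .sw okm_WT))

theorem mv_SNEN : OKm 1 .S .N .E .N := okm_flip (okm_map .ry (okm_map .sw okm_WT))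

theorem mv_WESE : OKm 1 .W .E .S .E := okm_flip (okm_map .ry (okm_map .rx okm_WT))

theorem mv_ESEW : OKm 1 .E .S .E .W := okm_map .ry (okm_map .rx (okm_map .sw okm_ST))

theorem mv_NEWE : OKm 1 .N .E .W .E := okm_flip (okm_map .rx (okm_map .sw okm_ST))

theorem mv_SWEW : OKm 1 .S .W .E .W := okm_flip (okm_map .ry (okm_map .sw okm_ST))

theorem mv_WNSN : OKm 1 .W .N .S .N := okm_flip (okm_map .ry (okm_map .rx okm_ST))

theorem mv_SNWN : OKm 1 .S .N .W .N := okm_flip (okm_map .ry (okm_map .rx (okm_map .sw okm_WT)))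

theorem mv_SEWE : OKm 1 .S .E .W .E := okm_flip (okm_map .ry (okm_map .rx (okm_map .sw okm_ST)))

theorem okm_straight (h : d ≠ d') : OKm 1 d d' d d' := by
  cases d <;> cases d' <;> first | exact absurd rfl h | skip
  · exact mv_ENEN
  · exact mv_EWEW
  · exact mv_ESES
  · exact mv_NENE
  · exact mv_NWNW
  · exact mv_NSNS
  · exact mv_WEWE
  · exact mv_WNWN
  · exact mv_WSWS
  · exact mv_SESE
  · exact mv_SNSN
  · exact mv_SWSW

theorem mw_ENEW : OKm 2 .E .N .E .W :=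
  okm_trans (m := 1) (m' := 1) mv_ENEN mv_ENEW

theorem mw_ENSN : OKm 2 .E .N .S .N :=
  okm_trans (m := 1) (m' := 1) mv_ENEN mv_ENSN

theorem mw_ENES : OKm 2 .E .N .E .S :=
  okm_trans (m := 1) (m' := 1) mv_ENEW mv_EWES

theorem mw_ENNW : OKm 2 .E .N .N .W :=
  okm_trans (m := 1) (m' := 1) mv_ENEW mv_EWNW

theorem mw_ENSW : OKm 2 .E .N .S .W :=
  okm_trans (m := 1) (m' := 1) mv_ENEW mv_EWSW

theorem mw_ENSE : OKm 2 .E .N .S .E :=
  okm_trans (m := 1) (m' := 1) mv_ENSN mv_SNSE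

theorem mw_ENWN : OKm 2 .E .N .W .N :=
  okm_trans (m := 1) (m' := 1) mv_ENSN mv_SNWN

theorem mw_ESES : OKm 2 .E .S .E .S :=
  okm_trans (m := 1) (m' := 1) mv_ESES mv_ESES

theorem mw_ESEW : OKm 2 .E .S .E .W :=
  okm_trans (m := 1) (m' := 1) mv_ESES mv_ESEW

theorem mw_ESNS : OKm 2 .E .S .N .S :=
  okm_trans (m := 1) (m' := 1) mv_ESES mv_ESNS

theorem mw_ESEN : OKm 2 .E .S .E .N :=
  okm_trans (m := 1) (m' := 1) mv_ESEW mv_EWEN

theorem mw_ESSW : OKm 2 .E .S .S .W :=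
  okm_trans (m := 1) (m' := 1) mv_ESEW mv_EWSW

theorem mw_ESNE : OKm 2 .E .S .N .E :=
  okm_trans (m := 1) (m' := 1) mv_ESNS mv_NSNE

theorem mw_ESNW : OKm 2 .E .S .N .W :=
  okm_trans (m := 1) (m' := 1) mv_ESNS mv_NSNW

theorem mw_ESWS : OKm 2 .E .S .W .S :=
  okm_trans (m := 1) (m' := 1) mv_ESNS mv_NSWS

theorem mw_EWSN : OKm 2 .E .W .S .N :=
  okm_trans (m := 1) (m' := 1) mv_EWEN mv_ENSN

theorem mw_EWEN : OKm 2 .E .W .E .N :=
  okm_trans (m := 1) (m' := 1) mv_EWEW mv_EWEN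

theorem mw_EWES : OKm 2 .E .W .E .S :=
  okm_trans (m := 1) (m' := 1) mv_EWEW mv_EWES

theorem mw_EWNW : OKm 2 .E .W .N .W :=
  okm_trans (m := 1) (m' := 1) mv_EWEW mv_EWNW

theorem mw_EWSW : OKm 2 .E .W .S .W :=
  okm_trans (m := 1) (m' := 1) mv_EWEW mv_EWSW

theorem mw_EWNS : OKm 2 .E .W .N .S :=
  okm_trans (m := 1) (m' := 1) mv_EWNW mv_NWNS

theorem mw_NENE : OKm 2 .N .E .N .E :=
  okm_trans (m := 1) (m' := 1) mv_NENE mv_NENE

theorem mw_NENS : OKm 2 .N .E .N .S :=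
  okm_trans (m := 1) (m' := 1) mv_NENE mv_NENS

theorem mw_NEWE : OKm 2 .N .E .W .E :=
  okm_trans (m := 1) (m' := 1) mv_NENE mv_NEWE

theorem mw_NEES : OKm 2 .N .E .E .S :=
  okm_trans (m := 1) (m' := 1) mv_NENS mv_NSES

theorem mw_NENW : OKm 2 .N .E .N .W :=
  okm_trans (m := 1) (m' := 1) mv_NENS mv_NSNW

theorem mw_NEWS : OKm 2 .N .E .W .S :=
  okm_trans (m := 1) (m' := 1) mv_NENS mv_NSWS

theorem mw_NESE : OKm 2 .N .E .S .E :=
  okm_trans (m := 1) (m' := 1) mv_NEWE mv_WESE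

theorem mw_NEWN : OKm 2 .N .E .W .N :=
  okm_trans (m := 1) (m' := 1) mv_NEWE mv_WEWN

theorem mw_NSEW : OKm 2 .N .S .E .W :=
  okm_trans (m := 1) (m' := 1) mv_NSES mv_ESEW

theorem mw_NSWE : OKm 2 .N .S .W .E :=
  okm_trans (m := 1) (m' := 1) mv_NSNE mv_NEWE

theorem mw_NSES : OKm 2 .N .S .E .S :=
  okm_trans (m := 1) (m' := 1) mv_NSNS mv_NSES

theorem mw_NSNE : OKm 2 .N .S .N .E :=
  okm_trans (m := 1) (m' := 1) mv_NSNS mv_NSNE

theorem mw_NSNS : OKm 2 .N .S .N .S :=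
  okm_trans (m := 1) (m' := 1) mv_NSNS mv_NSNS

theorem mw_NSNW : OKm 2 .N .S .N .W :=
  okm_trans (m := 1) (m' := 1) mv_NSNS mv_NSNW

theorem mw_NSWS : OKm 2 .N .S .W .S :=
  okm_trans (m := 1) (m' := 1) mv_NSNS mv_NSWS

theorem mw_NWEN : OKm 2 .N .W .E .N :=
  okm_trans (m := 1) (m' := 1) mv_NWEW mv_EWEN

theorem mw_NWES : OKm 2 .N .W .E .S :=
  okm_trans (m := 1) (m' := 1) mv_NWEW mv_EWES

theorem mw_NWSW : OKm 2 .N .W .S .W :=
  okm_trans (m := 1) (m' := 1) mv_NWEW mv_EWSW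

theorem mw_NWNE : OKm 2 .N .W .N .E :=
  okm_trans (m := 1) (m' := 1) mv_NWNS mv_NSNE

theorem mw_NWWS : OKm 2 .N .W .W .S :=
  okm_trans (m := 1) (m' := 1) mv_NWNS mv_NSWS

theorem mw_NWEW : OKm 2 .N .W .E .W :=
  okm_trans (m := 1) (m' := 1) mv_NWNW mv_NWEW

theorem mw_NWNS : OKm 2 .N .W .N .S :=
  okm_trans (m := 1) (m' := 1) mv_NWNW mv_NWNS

theorem mw_NWNW : OKm 2 .N .W .N .W :=
  okm_trans (m := 1) (m' := 1) mv_NWNW mv_NWNW

theorem mw_SEWE : OKm 2 .S .E .W .E :=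
  okm_trans (m := 1) (m' := 1) mv_SESE mv_SEWE

theorem mw_SEEN : OKm 2 .S .E .E .N :=
  okm_trans (m := 1) (m' := 1) mv_SESN mv_SNEN

theorem mw_SESE : OKm 2 .S .E .S .E :=
  okm_trans (m := 1) (m' := 1) mv_SESN mv_SNSE

theorem mw_SESN : OKm 2 .S .E .S .N :=
  okm_trans (m := 1) (m' := 1) mv_SESN mv_SNSN

theorem mw_SESW : OKm 2 .S .E .S .W :=
  okm_trans (m := 1) (m' := 1) mv_SESN mv_SNSW

theorem mw_SEWN : OKm 2 .S .E .W .N :=
  okm_trans (m := 1) (m' := 1) mv_SESN mv_SNWN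

theorem mw_SENE : OKm 2 .S .E .N .E :=
  okm_trans (m := 1) (m' := 1) mv_SEWE mv_WENE

theorem mw_SEWS : OKm 2 .S .E .W .S :=
  okm_trans (m := 1) (m' := 1) mv_SEWE mv_WEWS

theorem mw_SNSE : OKm 2 .S .N .S .E :=
  okm_trans (m := 1) (m' := 1) mv_SNSE mv_SESE

theorem mw_SNSN : OKm 2 .S .N .S .N :=
  okm_trans (m := 1) (m' := 1) mv_SNSE mv_SESN

theorem mw_SNWE : OKm 2 .S .N .W .E :=
  okm_trans (m := 1) (m' := 1) mv_SNSE mv_SEWE

theorem mw_SNEN : OKm 2 .S .N .E .N :=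
  okm_trans (m := 1) (m' := 1) mv_SNSN mv_SNEN

theorem mw_SNSW : OKm 2 .S .N .S .W :=
  okm_trans (m := 1) (m' := 1) mv_SNSN mv_SNSW

theorem mw_SNWN : OKm 2 .S .N .W .N :=
  okm_trans (m := 1) (m' := 1) mv_SNSN mv_SNWN

theorem mw_SNEW : OKm 2 .S .N .E .W :=
  okm_trans (m := 1) (m' := 1) mv_SNSW mv_SWEW

theorem mw_SWES : OKm 2 .S .W .E .S :=
  okm_trans (m := 1) (m' := 1) mv_SWEW mv_EWES

theorem mw_SWNW : OKm 2 .S .W .N .W :=
  okm_trans (m := 1) (m' := 1) mv_SWEW mv_EWNW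

theorem mw_SWSE : OKm 2 .S .W .S .E :=
  okm_trans (m := 1) (m' := 1) mv_SWSN mv_SNSE

theorem mw_SWSN : OKm 2 .S .W .S .N :=
  okm_trans (m := 1) (m' := 1) mv_SWSN mv_SNSN

theorem mw_SWSW : OKm 2 .S .W .S .W :=
  okm_trans (m := 1) (m' := 1) mv_SWSN mv_SNSW

theorem mw_SWEW : OKm 2 .S .W .E .W :=
  okm_trans (m := 1) (m' := 1) mv_SWSW mv_SWEW

theorem mw_WEWS : OKm 2 .W .E .W .S :=
  okm_trans (m := 1) (m' := 1) mv_WEWE mv_WEWS

theorem mw_WESN : OKm 2 .W .E .S .N :=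
  okm_trans (m := 1) (m' := 1) mv_WEWN mv_WNSN

theorem mw_WEWE : OKm 2 .W .E .W .E :=
  okm_trans (m := 1) (m' := 1) mv_WEWN mv_WNWE

theorem mw_WEWN : OKm 2 .W .E .W .N :=
  okm_trans (m := 1) (m' := 1) mv_WEWN mv_WNWN

theorem mw_WENS : OKm 2 .W .E .N .S :=
  okm_trans (m := 1) (m' := 1) mv_WEWS mv_WSNS

theorem mw_WNEN : OKm 2 .W .N .E .N :=
  okm_trans (m := 1) (m' := 1) mv_WNSN mv_SNEN

theorem mw_WNSW : OKm 2 .W .N .S .W :=
  okm_trans (m := 1) (m' := 1) mv_WNSN mv_SNSW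

theorem mw_WNNE : OKm 2 .W .N .N .E :=
  okm_trans (m := 1) (m' := 1) mv_WNWE mv_WENE

theorem mw_WNSE : OKm 2 .W .N .S .E :=
  okm_trans (m := 1) (m' := 1) mv_WNWE mv_WESE

theorem mw_WNWS : OKm 2 .W .N .W .S :=
  okm_trans (m := 1) (m' := 1) mv_WNWE mv_WEWS

theorem mw_WNSN : OKm 2 .W .N .S .N :=
  okm_trans (m := 1) (m' := 1) mv_WNWN mv_WNSN

theorem mw_WNWE : OKm 2 .W .N .W .E :=
  okm_trans (m := 1) (m' := 1) mv_WNWN mv_WNWE

theorem mw_WNWN : OKm 2 .W .N .W .N :=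
  okm_trans (m := 1) (m' := 1) mv_WNWN mv_WNWN

theorem mw_WSES : OKm 2 .W .S .E .S :=
  okm_trans (m := 1) (m' := 1) mv_WSNS mv_NSES

theorem mw_WSNW : OKm 2 .W .S .N .W :=
  okm_trans (m := 1) (m' := 1) mv_WSNS mv_NSNW

theorem mw_WSNE : OKm 2 .W .S .N .E :=
  okm_trans (m := 1) (m' := 1) mv_WSWE mv_WENE

theorem mw_WSSE : OKm 2 .W .S .S .E :=
  okm_trans (m := 1) (m' := 1) mv_WSWE mv_WESE

theorem mw_WSWN : OKm 2 .W .S .W .N :=
  okm_trans (m := 1) (m' := 1) mv_WSWE mv_WEWN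

theorem mw_WSNS : OKm 2 .W .S .N .S :=
  okm_trans (m := 1) (m' := 1) mv_WSWS mv_WSNS

theorem mw_WSWE : OKm 2 .W .S .W .E :=
  okm_trans (m := 1) (m' := 1) mv_WSWS mv_WSWE

theorem mw_WSWS : OKm 2 .W .S .W .S :=
  okm_trans (m := 1) (m' := 1) mv_WSWS mv_WSWS

theorem reach_EN (h' : e ≠ e') : OKm 4 .E .N e e' := by
  cases e <;> cases e' <;> first | exact absurd rfl h' | skip
  · exact okm_trans (m := 2) (m' := 2) mw_ENEN mw_ENEN
  · exact okm_trans (m := 2) (m' := 2) mw_ENEN mw_ENEW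
  · exact okm_trans (m := 2) (m' := 2) mw_ENEN mw_ENES
  · exact okm_trans (m := 2) (m' := 2) mw_ENNW mw_NWNE
  · exact okm_trans (m := 2) (m' := 2) mw_ENEN mw_ENNW
  · exact okm_trans (m := 2) (m' := 2) mw_ENEW mw_EWNS
  · exact okm_trans (m := 2) (m' := 2) mw_ENSN mw_SNWE
  · exact okm_trans (m := 2) (m' := 2) mw_ENEN mw_ENWN
  · exact okm_trans (m := 2) (m' := 2) mw_ENNW mw_NWWS
  · exact okm_trans (m := 2) (m' := 2) mw_ENEN mw_ENSE
  · exact okm_trans (m := 2) (m' := 2) mw_ENEN mw_ENSN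
  · exact okm_trans (m := 2) (m' := 2) mw_ENEN mw_ENSW

theorem reach_EW (h' : e ≠ e') : OKm 4 .E .W e e' := by
  cases e <;> cases e' <;> first | exact absurd rfl h' | skip
  · exact okm_trans (m := 2) (m' := 2) mw_EWEW mw_EWEN
  · exact okm_trans (m := 2) (m' := 2) mw_EWEW mw_EWEW
  · exact okm_trans (m := 2) (m' := 2) mw_EWEW mw_EWES
  · exact okm_trans (m := 2) (m' := 2) mw_EWNW mw_NWNE
  · exact okm_trans (m := 2) (m' := 2) mw_EWEW mw_EWNW
  · exact okm_trans (m := 2) (m' := 2) mw_EWEW mw_EWNS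
  · exact okm_trans (m := 2) (m' := 2) mw_EWSN mw_SNWE
  · exact okm_trans (m := 2) (m' := 2) mw_EWEN mw_ENWN
  · exact okm_trans (m := 2) (m' := 2) mw_EWNW mw_NWWS
  · exact okm_trans (m := 2) (m' := 2) mw_EWEN mw_ENSE
  · exact okm_trans (m := 2) (m' := 2) mw_EWEW mw_EWSN
  · exact okm_trans (m := 2) (m' := 2) mw_EWEW mw_EWSW

theorem reach_ES (h' : e ≠ e') : OKm 4 .E .S e e' := by
  cases e <;> cases e' <;> first | exact absurd rfl h' | skip
  · exact okm_trans (m := 2) (m' := 2) mw_ESES mw_ESEN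
  · exact okm_trans (m := 2) (m' := 2) mw_ESES mw_ESEW
  · exact okm_trans (m := 2) (m' := 2) mw_ESES mw_ESES
  · exact okm_trans (m := 2) (m' := 2) mw_ESES mw_ESNE
  · exact okm_trans (m := 2) (m' := 2) mw_ESES mw_ESNW
  · exact okm_trans (m := 2) (m' := 2) mw_ESES mw_ESNS
  · exact okm_trans (m := 2) (m' := 2) mw_ESNS mw_NSWE
  · exact okm_trans (m := 2) (m' := 2) mw_ESNE mw_NEWN
  · exact okm_trans (m := 2) (m' := 2) mw_ESES mw_ESWS
  · exact okm_trans (m := 2) (m' := 2) mw_ESNE mw_NESE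
  · exact okm_trans (m := 2) (m' := 2) mw_ESEW mw_EWSN
  · exact okm_trans (m := 2) (m' := 2) mw_ESES mw_ESSW

theorem reach_NE (h' : e ≠ e') : OKm 4 .N .E e e' := by
  cases e <;> cases e' <;> first | exact absurd rfl h' | skip
  · exact okm_trans (m := 2) (m' := 2) mw_NEES mw_ESEN
  · exact okm_trans (m := 2) (m' := 2) mw_NENS mw_NSEW
  · exact okm_trans (m := 2) (m' := 2) mw_NENE mw_NEES
  · exact okm_trans (m := 2) (m' := 2) mw_NENE mw_NENE
  · exact okm_trans (m := 2) (m' := 2) mw_NENE mw_NENW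
  · exact okm_trans (m := 2) (m' := 2) mw_NENE mw_NENS
  · exact okm_trans (m := 2) (m' := 2) mw_NENE mw_NEWE
  · exact okm_trans (m := 2) (m' := 2) mw_NENE mw_NEWN
  · exact okm_trans (m := 2) (m' := 2) mw_NENE mw_NEWS
  · exact okm_trans (m := 2) (m' := 2) mw_NENE mw_NESE
  · exact okm_trans (m := 2) (m' := 2) mw_NEWE mw_WESN
  · exact okm_trans (m := 2) (m' := 2) mw_NEES mw_ESSW

theorem reach_NW (h' : e ≠ e') : OKm 4 .N .W e e' := by
  cases e <;> cases e' <;> first | exact absurd rfl h' | skip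
  · exact okm_trans (m := 2) (m' := 2) mw_NWNW mw_NWEN
  · exact okm_trans (m := 2) (m' := 2) mw_NWNW mw_NWEW
  · exact okm_trans (m := 2) (m' := 2) mw_NWNW mw_NWES
  · exact okm_trans (m := 2) (m' := 2) mw_NWNW mw_NWNE
  · exact okm_trans (m := 2) (m' := 2) mw_NWNW mw_NWNW
  · exact okm_trans (m := 2) (m' := 2) mw_NWNW mw_NWNS
  · exact okm_trans (m := 2) (m' := 2) mw_NWNS mw_NSWE
  · exact okm_trans (m := 2) (m' := 2) mw_NWEN mw_ENWN
  · exact okm_trans (m := 2) (m' := 2) mw_NWNW mw_NWWS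
  · exact okm_trans (m := 2) (m' := 2) mw_NWEN mw_ENSE
  · exact okm_trans (m := 2) (m' := 2) mw_NWEW mw_EWSN
  · exact okm_trans (m := 2) (m' := 2) mw_NWNW mw_NWSW

theorem reach_NS (h' : e ≠ e') : OKm 4 .N .S e e' := by
  cases e <;> cases e' <;> first | exact absurd rfl h' | skip
  · exact okm_trans (m := 2) (m' := 2) mw_NSES mw_ESEN
  · exact okm_trans (m := 2) (m' := 2) mw_NSNS mw_NSEW
  · exact okm_trans (m := 2) (m' := 2) mw_NSNS mw_NSES
  · exact okm_trans (m := 2) (m' := 2) mw_NSNS mw_NSNE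
  · exact okm_trans (m := 2) (m' := 2) mw_NSNS mw_NSNW
  · exact okm_trans (m := 2) (m' := 2) mw_NSNS mw_NSNS
  · exact okm_trans (m := 2) (m' := 2) mw_NSNS mw_NSWE
  · exact okm_trans (m := 2) (m' := 2) mw_NSNE mw_NEWN
  · exact okm_trans (m := 2) (m' := 2) mw_NSNS mw_NSWS
  · exact okm_trans (m := 2) (m' := 2) mw_NSNE mw_NESE
  · exact okm_trans (m := 2) (m' := 2) mw_NSWE mw_WESN
  · exact okm_trans (m := 2) (m' := 2) mw_NSES mw_ESSW

theorem reach_WE (h' : e ≠ e') : OKm 4 .W .E e e' := by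
  cases e <;> cases e' <;> first | exact absurd rfl h' | skip
  · exact okm_trans (m := 2) (m' := 2) mw_WEWN mw_WNEN
  · exact okm_trans (m := 2) (m' := 2) mw_WESN mw_SNEW
  · exact okm_trans (m := 2) (m' := 2) mw_WEWS mw_WSES
  · exact okm_trans (m := 2) (m' := 2) mw_WEWN mw_WNNE
  · exact okm_trans (m := 2) (m' := 2) mw_WEWS mw_WSNW
  · exact okm_trans (m := 2) (m' := 2) mw_WEWE mw_WENS
  · exact okm_trans (m := 2) (m' := 2) mw_WEWN mw_WNWE
  · exact okm_trans (m := 2) (m' := 2) mw_WEWN mw_WNWN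
  · exact okm_trans (m := 2) (m' := 2) mw_WEWN mw_WNWS
  · exact okm_trans (m := 2) (m' := 2) mw_WEWN mw_WNSE
  · exact okm_trans (m := 2) (m' := 2) mw_WEWN mw_WNSN
  · exact okm_trans (m := 2) (m' := 2) mw_WEWN mw_WNSW

theorem reach_WN (h' : e ≠ e') : OKm 4 .W .N e e' := by
  cases e <;> cases e' <;> first | exact absurd rfl h' | skip
  · exact okm_trans (m := 2) (m' := 2) mw_WNWN mw_WNEN
  · exact okm_trans (m := 2) (m' := 2) mw_WNSN mw_SNEW
  · exact okm_trans (m := 2) (m' := 2) mw_WNWS mw_WSES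
  · exact okm_trans (m := 2) (m' := 2) mw_WNWN mw_WNNE
  · exact okm_trans (m := 2) (m' := 2) mw_WNWS mw_WSNW
  · exact okm_trans (m := 2) (m' := 2) mw_WNWE mw_WENS
  · exact okm_trans (m := 2) (m' := 2) mw_WNWN mw_WNWE
  · exact okm_trans (m := 2) (m' := 2) mw_WNWN mw_WNWN
  · exact okm_trans (m := 2) (m' := 2) mw_WNWN mw_WNWS
  · exact okm_trans (m := 2) (m' := 2) mw_WNWN mw_WNSE
  · exact okm_trans (m := 2) (m' := 2) mw_WNWN mw_WNSN
  · exact okm_trans (m := 2) (m' := 2) mw_WNWN mw_WNSW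

theorem reach_WS (h' : e ≠ e') : OKm 4 .W .S e e' := by
  cases e <;> cases e' <;> first | exact absurd rfl h' | skip
  · exact okm_trans (m := 2) (m' := 2) mw_WSWN mw_WNEN
  · exact okm_trans (m := 2) (m' := 2) mw_WSNS mw_NSEW
  · exact okm_trans (m := 2) (m' := 2) mw_WSWS mw_WSES
  · exact okm_trans (m := 2) (m' := 2) mw_WSWS mw_WSNE
  · exact okm_trans (m := 2) (m' := 2) mw_WSWS mw_WSNW
  · exact okm_trans (m := 2) (m' := 2) mw_WSWS mw_WSNS
  · exact okm_trans (m := 2) (m' := 2) mw_WSWS mw_WSWE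
  · exact okm_trans (m := 2) (m' := 2) mw_WSWS mw_WSWN
  · exact okm_trans (m := 2) (m' := 2) mw_WSWS mw_WSWS
  · exact okm_trans (m := 2) (m' := 2) mw_WSWS mw_WSSE
  · exact okm_trans (m := 2) (m' := 2) mw_WSWE mw_WESN
  · exact okm_trans (m := 2) (m' := 2) mw_WSWN mw_WNSW

theorem reach_SE (h' : e ≠ e') : OKm 4 .S .E e e' := by
  cases e <;> cases e' <;> first | exact absurd rfl h' | skip
  · exact okm_trans (m := 2) (m' := 2) mw_SESE mw_SEEN
  · exact okm_trans (m := 2) (m' := 2) mw_SESN mw_SNEW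
  · exact okm_trans (m := 2) (m' := 2) mw_SESW mw_SWES
  · exact okm_trans (m := 2) (m' := 2) mw_SESE mw_SENE
  · exact okm_trans (m := 2) (m' := 2) mw_SESW mw_SWNW
  · exact okm_trans (m := 2) (m' := 2) mw_SEWE mw_WENS
  · exact okm_trans (m := 2) (m' := 2) mw_SESE mw_SEWE
  · exact okm_trans (m := 2) (m' := 2) mw_SESE mw_SEWN
  · exact okm_trans (m := 2) (m' := 2) mw_SESE mw_SEWS
  · exact okm_trans (m := 2) (m' := 2) mw_SESE mw_SESE
  · exact okm_trans (m := 2) (m' := 2) mw_SESE mw_SESN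
  · exact okm_trans (m := 2) (m' := 2) mw_SESE mw_SESW

theorem reach_SN (h' : e ≠ e') : OKm 4 .S .N e e' := by
  cases e <;> cases e' <;> first | exact absurd rfl h' | skip
  · exact okm_trans (m := 2) (m' := 2) mw_SNSN mw_SNEN
  · exact okm_trans (m := 2) (m' := 2) mw_SNSN mw_SNEW
  · exact okm_trans (m := 2) (m' := 2) mw_SNSW mw_SWES
  · exact okm_trans (m := 2) (m' := 2) mw_SNSE mw_SENE
  · exact okm_trans (m := 2) (m' := 2) mw_SNSW mw_SWNW
  · exact okm_trans (m := 2) (m' := 2) mw_SNWE mw_WENS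
  · exact okm_trans (m := 2) (m' := 2) mw_SNSN mw_SNWE
  · exact okm_trans (m := 2) (m' := 2) mw_SNSN mw_SNWN
  · exact okm_trans (m := 2) (m' := 2) mw_SNSE mw_SEWS
  · exact okm_trans (m := 2) (m' := 2) mw_SNSN mw_SNSE
  · exact okm_trans (m := 2) (m' := 2) mw_SNSN mw_SNSN
  · exact okm_trans (m := 2) (m' := 2) mw_SNSN mw_SNSW

theorem reach_SW (h' : e ≠ e') : OKm 4 .S .W e e' := by
  cases e <;> cases e' <;> first | exact absurd rfl h' | skip
  · exact okm_trans (m := 2) (m' := 2) mw_SWSE mw_SEEN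
  · exact okm_trans (m := 2) (m' := 2) mw_SWSN mw_SNEW
  · exact okm_trans (m := 2) (m' := 2) mw_SWSW mw_SWES
  · exact okm_trans (m := 2) (m' := 2) mw_SWSE mw_SENE
  · exact okm_trans (m := 2) (m' := 2) mw_SWSW mw_SWNW
  · exact okm_trans (m := 2) (m' := 2) mw_SWEW mw_EWNS
  · exact okm_trans (m := 2) (m' := 2) mw_SWSE mw_SEWE
  · exact okm_trans (m := 2) (m' := 2) mw_SWSE mw_SEWN
  · exact okm_trans (m := 2) (m' := 2) mw_SWSE mw_SEWS
  · exact okm_trans (m := 2) (m' := 2) mw_SWSE mw_SESE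
  · exact okm_trans (m := 2) (m' := 2) mw_SWSE mw_SESN
  · exact okm_trans (m := 2) (m' := 2) mw_SWSE mw_SESW

/-- Everything can be reached in four moves. -/
theorem okm_reach (h : d ≠ d') (h' : e ≠ e') : OKm 4 d d' e e' := by
  cases d <;> cases d' <;> first | exact absurd rfl h | skip
  · exact reach_EN h'
  · exact reach_EW h'
  · exact reach_ES h'
  · exact reach_NE h'
  · exact reach_NW h'
  · exact reach_NS h'
  · exact reach_WE h'
  · exact reach_WN h'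
  · exact reach_WS h'
  · exact reach_SE h'
  · exact reach_SN h'
  · exact reach_SW h'

theorem bS_step (c : ℝ) (hc : 0 < c) (K : ℕ) : ∃ C : ℝ, 0 < C ∧ ∀ (s : Src) (k n : ℕ) (q : I),
    4 ≤ k → k ≤ K * n → RSWreg c n q → bS q s k ≤ C * bS q s (4 * k) := by
  have hex : ∀ d d' : Side, ∃ C : ℝ, 0 < C ∧ ∀ (s : Src) (k n : ℕ) (q : I),
      4 ≤ k → k ≤ K * n → RSWreg c n q → Pr q (Sep s d d' k) ≤ C * Pr q (Sep s d d' (4 * k)) := by
    intro d d'
    by_cases h : d = d'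
    · subst h
      refine ⟨1, one_pos, fun s k n q _ _ _ => ?_⟩
      rw [sep_same, sep_same]
      simp
    · obtain ⟨C, hC, H⟩ := okm_straight h c K hc
      refine ⟨C, hC, fun s k n q hk hkn hR => ?_⟩
      simpa using H s k n q hk hkn hR
  choose C hC H using hex
  have hle : ∀ d d' : Side, C d d' ≤ ∑ a : Side, ∑ b : Side, C a b := by
    intro d d'
    calc C d d' ≤ ∑ b : Side, C d b :=
          Finset.single_le_sum (f := fun b => C d b) (fun b _ => (hC d b).le) (Finset.mem_univ d')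
      _ ≤ ∑ a : Side, ∑ b : Side, C a b :=
          Finset.single_le_sum (f := fun a => ∑ b : Side, C a b)
            (fun a _ => Finset.sum_nonneg fun b _ => (hC a b).le) (Finset.mem_univ d)
  refine ⟨∑ a : Side, ∑ b : Side, C a b, lt_of_lt_of_le (hC .E .E) (hle .E .E),
    fun s k n q hk hkn hR => ?_⟩
  unfold bS
  rw [Finset.mul_sum]
  refine Finset.sum_le_sum fun d _ => ?_
  rw [Finset.mul_sum]
  refine Finset.sum_le_sum fun d' _ => ?_
  refine (H d d' s k n q hk hkn hR).trans ?_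
  exact mul_le_mul_of_nonneg_right (hle d d') measureReal_nonneg

theorem bS_reach (c : ℝ) (hc : 0 < c) (K : ℕ) : ∃ C : ℝ, 0 < C ∧ ∀ (s : Src) (k n : ℕ) (q : I)
    (e e' : Side), e ≠ e' → 4 ≤ k → k ≤ K * n → RSWreg c n q →
      bS q s k ≤ C * Pr q (Sep s e e' (256 * k)) := by
  have hex : ∀ d d' e e' : Side, ∃ C : ℝ, 0 < C ∧ (e ≠ e' → ∀ (s : Src) (k n : ℕ) (q : I),
      4 ≤ k → k ≤ K * n → RSWreg c n q →
        Pr q (Sep s d d' k) ≤ C * Pr q (Sep s e e' (256 * k))) := by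
    intro d d' e e'
    by_cases he : e ≠ e'
    · by_cases h : d = d'
      · subst h
        refine ⟨1, one_pos, fun _ s k n q _ _ _ => ?_⟩
        rw [sep_same]
        have h0 : Pr q (∅ : Set Config) = 0 := measureReal_empty
        rw [h0, one_mul]
        exact measureReal_nonneg
      · obtain ⟨C, hC, H⟩ := okm_reach h he c K hc
        refine ⟨C, hC, fun _ s k n q hk hkn hR => ?_⟩
        have h1 := H s k n q hk hkn hR
        norm_num at h1
        exact h1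
    · exact ⟨1, one_pos, fun h => absurd h he⟩
  choose C hC H using hex
  have hp : 0 < ∑ a : Side, ∑ b : Side, ∑ e : Side, ∑ e' : Side, C a b e e' := by
    refine Finset.sum_pos (fun a _ => Finset.sum_pos (fun b _ => Finset.sum_pos (fun e _ =>
      Finset.sum_pos (fun e' _ => hC a b e e') ⟨.E, Finset.mem_univ _⟩)
      ⟨.E, Finset.mem_univ _⟩) ⟨.E, Finset.mem_univ _⟩) ⟨.E, Finset.mem_univ _⟩
  refine ⟨_, hp, fun s k n q e e' he hk hkn hR => ?_⟩
  unfold bS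
  rw [Finset.sum_mul]
  refine Finset.sum_le_sum fun d _ => ?_
  rw [Finset.sum_mul]
  refine Finset.sum_le_sum fun d' _ => ?_
  refine (H d d' e e' he s k n q hk hkn hR).trans ?_
  refine mul_le_mul_of_nonneg_right ?_ measureReal_nonneg
  calc C d d' e e' ≤ ∑ b : Side, C d d' e b :=
        Finset.single_le_sum (f := fun b => C d d' e b) (fun b _ => (hC d d' e b).le)
          (Finset.mem_univ e')
    _ ≤ ∑ a : Side, ∑ b : Side, C d d' a b :=
        Finset.single_le_sum (f := fun a => ∑ b : Side, C d d' a b)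
          (fun a _ => Finset.sum_nonneg fun b _ => (hC d d' a b).le) (Finset.mem_univ e)

end Pool.Agent.H59.EX

end

section

/-!
# Finite energy, explicit separated configurations
-/

open MeasureTheory ProbabilityTheory unitInterval

namespace Pool.Agent.H59.EX

open Pool.Agent.H89.Perc Pool.Agent.H61.NC

/-! ### Explicit configurations -/

theorem sep_sE_nonempty (dir : Bool) {k : ℕ} (hk : 1 ≤ k) : (Sep (sE dir) .W .E k).Nonempty := by
  cases dir
  · refine ⟨expl 0 k, expl_mem hk (by simp) rfl (by simp [sE, tgt]) ?_⟩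
    funext e
    simp only [Src.cut, closeS, sE, Finset.coe_singleton, Set.mem_singleton_iff]
    by_cases he : e = (0, 0, false)
    · subst he
      simp [expl]
    · simp [he]
  · refine ⟨expl 1 k, expl_mem hk (by simp) rfl (by simp [sE, tgt]) ?_⟩
    funext e
    simp only [Src.cut, closeS, sE, Finset.coe_singleton, Set.mem_singleton_iff]
    by_cases he : e = (0, 0, true)
    · subst he
      have h0 : expl 1 k (0, 0, true) = false := by
        simp only [expl, decide_eq_false_iff_not]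
        intro h
        rcases h with h | h | h
        · exact absurd h.1 (by decide)
        · exact absurd h.1 (by decide)
        · omega
      simp [h0]
    · simp [he]

end Pool.Agent.H59.EX

end

section

/-!
# With the source edge closed there is no winding path
-/

open MeasureTheory ProbabilityTheory unitInterval

namespace Pool.Agent.H26.ST

open Pool.Agent.H89.Perc Pool.Agent.H61.NC Pool.Agent.H59.EX

variable {N k : ℕ} {ζ η : Config} {X Y : Set Vert} {a b : Vert} {i j : ℤ × ℤ}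

/-- The cluster of a sausage does not reach other sausages. -/
theorem TD.confine (h : TD N k ζ X Y) {ρ K : ℕ} (hρ : 1 ≤ ρ) (hρk : 8 * ρ ≤ k) (hK : N ≤ K * ρ)
    (hle : ∀ e, ζ e = true → η e = true)
    (hseal : η ∈ Seal (grid ρ K) ρ (Pool.Agent.H59.EX.detE (modE N) .W .E k (EC N k) (X ∪ Y)))
    {x z : Vert} (hx : In N k X Y (0, 0) x) (hc : Conn ζ Set.univ x z) (hz : In N k X Y j z) :
    j = (0, 0) := by
  have hk := h.hk
  have hN : (128 * k : ℤ) ≤ N := by exact_mod_cast h.hN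
  have hρk' : (8 * ρ : ℤ) ≤ k := by exact_mod_cast hρk
  by_contra hj
  have key := seal_confine (η := ζ) (ω := η) (W := Set.univ) (S := {v | In N k X Y (0, 0) v})
    (F := {v | ∃ j : ℤ × ℤ, j ≠ (0, 0) ∧ In N k X Y j v})
    (Ex := {a | 28 * (k : ℤ) ≤ a.1 ∧ a.1 ≤ N - 28 * k ∧ -(4 * k : ℤ) ≤ a.2 ∧ a.2 ≤ 4 * k})
    (t := Pool.Agent.H59.EX.detE (modE N) .W .E k (EC N k) (X ∪ Y)) (G := grid ρ K) (ρ := ρ)
    (fun e _ => hle e) hseal ?_ ?_ ?_ ?_ ?_ (x := x) (z := z) hx hc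
  · rcases key with h1 | ⟨h1, -⟩
    · exact hj (h.sep hz h1 (Or.inl rfl))
    · exact h1 ⟨j, hj, hz⟩
  · rintro a ⟨h1, h2, h3, h4⟩
    have hK' : (N : ℤ) ≤ ((K * ρ : ℕ) : ℤ) := by exact_mod_cast hK
    refine exists_grid hρ ?_
    rw [mem_ball, Prod.fst_zero, Prod.snd_zero]
    omega
  · intro a b e he ho _ _ ha hb
    refine ⟨h.exit ha hb he ho, ?_, ?_⟩
    · rintro ⟨j', hj', hb'⟩
      exact hj' (h.sep hb' ha (Or.inr ⟨e, he.symm, ho⟩))
    · intro ht
      obtain ⟨i, hi1, hi2⟩ := h.det he ho ht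
      have h1 := h.sep hi1 ha (Or.inl rfl)
      subst h1
      exact hb hi2
  · rintro a b e he ho - - ha ha' ⟨j', hj', hb⟩ x ⟨h1, h2, h3, h4⟩ hbx
    have ha2 : ¬ In N k X Y (0, 0) (sh N j' a) := by
      rw [in_sh0]
      exact fun h5 => ha' ⟨j', hj', h5⟩
    have hb2 : In N k X Y (0, 0) (sh N j' b) := in_sh0.2 hb
    have h5 := h.exit hb2 ha2 (joins_sh j' he.symm) (by rw [per_sh h.per]; exact ho)
    have e1 := mulN N j'.1
    have e2 := mulN N j'.2
    obtain ⟨j1, j2⟩ := j'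
    have hj3 : j1 ≠ 0 ∨ j2 ≠ 0 := by
      by_contra hcon
      push Not at hcon
      exact hj' (by rw [hcon.1, hcon.2])
    simp only [sh] at h5
    rw [mem_ball] at hbx
    push_cast at hbx
    simp only at e1 e2
    omega
  · intro a b e he ho _ _ ha ha' _ _ ht
    obtain ⟨i, hi1, hi2⟩ := h.det he ho ht
    by_cases h0 : i = (0, 0)
    · subst h0
      exact ha hi1
    · exact ha' ⟨i, h0, hi1⟩
  · intro a b e he ho _ _ ha ha' _ ht
    obtain ⟨i, hi1, hi2⟩ := h.det he ho ht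
    by_cases h0 : i = (0, 0)
    · subst h0
      exact ha hi1
    · exact ha' ⟨i, h0, hi1⟩

/-- No winding path. -/
theorem TD.not_wind (h : TD N k ζ X Y) {ρ K : ℕ} (hρ : 1 ≤ ρ) (hρk : 8 * ρ ≤ k) (hK : N ≤ K * ρ)
    (hle : ∀ e, ζ e = true → η e = true)
    (hH : η ∈ HT N k ρ K (X ∪ Y)) {u : Vert} {p q : ℤ} (hp : p ≠ 0) :
    ¬ Conn ζ Set.univ u (u.1 + p * N, u.2 + q * N) := by
  intro hc
  have hk := h.hk
  have hN : (128 * k : ℤ) ≤ N := by exact_mod_cast h.hN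
  have hsh : ∀ w : Vert, sh N (-p, -q) w = (w.1 + p * N, w.2 + q * N) := by
    intro w
    simp only [sh, Prod.mk.injEq]
    constructor <;> ring
  by_cases hU : ∃ w, Conn ζ Set.univ u w ∧ ∃ i, In N k X Y i w
  · obtain ⟨w, hw, i, hi⟩ := hU
    have h1 : Conn ζ Set.univ (sh N (-p, -q) u) (sh N (-p, -q) w) :=
      conn_sh h.per (-p, -q) (T := Set.univ) (fun _ _ => trivial) hw
    rw [hsh] at h1
    have h2 : Conn ζ Set.univ w (sh N (-p, -q) w) := (hw.symm.trans hc).trans h1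
    have h3 := conn_sh h.per i (T := Set.univ) (fun _ _ => trivial) h2
    have h4 : In N k X Y (p, q) (sh N i (sh N (-p, -q) w)) := by
      rw [in_sh, in_sh]
      have e : (p + i.1 + (-p, -q).1, q + i.2 + (-p, -q).2) = i :=
        Prod.ext (by simp only; ring) (by simp only; ring)
      simp only at e ⊢
      rw [e]
      exact hi
    have h5 := h.confine hρ hρk hK hle hH.1 (in_sh0.2 hi) h3 h4
    rw [Prod.mk.injEq] at h5
    exact hp h5.1
  · push Not at hU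
    have h1 : Conn ζ {w | ∀ i, ¬ In N k X Y i w} u (u.1 + p * N, u.2 + q * N) := by
      refine hc.induction_right (P := fun w => Conn ζ {w | ∀ i, ¬ In N k X Y i w} u w)
        (Conn.refl (hU u (Conn.refl trivial))) ?_
      intro w w' hw hs ih
      exact ih.tail ⟨ih.mem_right, hU w' (hw.tail hs), hs.2.2⟩
    have hinv : ∀ (j : ℤ × ℤ), ∀ v ∈ {w | ∀ i, ¬ In N k X Y i w},
        sh N j v ∈ {w | ∀ i, ¬ In N k X Y i w} := by
      intro j v hv i hi
      rw [in_sh] at hi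
      exact hv _ hi
    have h2 := conn_sh h.per (-p, -q) (hinv _) h1
    have h3 := h1.trans (by rw [← hsh u] at h2 ⊢; exact h2)
    have hX : ¬ HCross ζ (40 * k) (50 * k) (3 * k + 1) (N - 3 * k - 1) := by
      rintro ⟨a, b, h4, h5, h6⟩
      exact hH.2 ⟨a, b, h4, h5, h6.mono le_rfl hle⟩
    have e1 := mulN N p
    rcases lt_or_gt_of_ne hp with h0 | h0
    · refine hX (h.strip h3.symm ?_)
      simp only [sh]
      have e2 : -p * (N : ℤ) = -(p * N) := by ring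
      rw [e2]
      omega
    · refine hX (h.strip h3 ?_)
      simp only [sh]
      have e2 : -p * (N : ℤ) = -(p * N) := by ring
      rw [e2]
      omega

theorem closed_not_wind {N k ρ K : ℕ} {d : Bool} {s : Src} (hs : IsSrc s d) (hk : 64 ≤ k)
    (hN : 128 * k ≤ N) (hρ : 1 ≤ ρ) (hρk : 8 * ρ ≤ k) (hK : N ≤ K * ρ) {ω : Config}
    (h1 : per N ω ∈ Pool.Agent.H59.EX.Sep s .W .E k)
    (h3 : per N ω ∈ HT N k ρ K (FX s .W .E k (per N ω) ∪ FY s .W .E k (per N ω))) :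
    Function.update ω (0, 0, d) false ∉ Wind N := by
  rintro ⟨u, p, q, hp, hc⟩
  exact (td_of_sep hs hk hN h1).not_wind hρ hρk hK (fun e he => cut_le (zeta_cut hs he)) h3 hp hc

end Pool.Agent.H26.ST

end
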