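import Pool.Agent.H94.BG.H31.PT.M01

/-! The parts of this file: H90.AL.Dist, H29.Kap.Defs, H90.AL.Arms, H29.Kap.Integral, H31.AL.Dyadic. -/

section

/-!
# Distances on the torus
-/

open MeasureTheory ProbabilityTheory unitInterval

namespace Pool.Agent.H90.AL

open Pool.Agent.H89.Perc

end Pool.Agent.H90.AL

end

section

/-!
# Cluster counts in rectangles: definitions

Vertices, edges, configurations, `Conn`, `dual`, `rect` are those of `Pool.Agent.H89.Perc`.
-/

set_option autoImplicit false

namespace Pool.Agent.H29.Kap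

open Pool.Agent.H89.Perc

/-- The edges with both endpoints in the rectangle `[a, b] × [c, d]`. -/
noncomputable def redges (a b c d : ℤ) : Finset Edge :=
  (Finset.Icc a (b - 1) ×ˢ Finset.Icc c d ×ˢ {false}) ∪
    (Finset.Icc a b ×ˢ Finset.Icc c (d - 1) ×ˢ {true})

/-- The boundary vertices of the rectangle `[a, b] × [c, d]`. -/
def bd (a b c d : ℤ) : Set Vert :=
  {v | v ∈ rect a b c d ∧ (v.1 = a ∨ v.1 = b ∨ v.2 = c ∨ v.2 = d)}

/-- The clusters of `ω` in the vertex set `S` (only edges with both endpoints in `S` are used). -/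
def clusters (ω : Config) (S : Set Vert) : Set (Set Vert) :=
  {C | ∃ v ∈ S, C = {w | Conn ω S v w}}

/-- The number of clusters of `ω` in `S` which do not meet `B` (inner clusters). -/
noncomputable def J (ω : Config) (S B : Set Vert) : ℕ :=
  {C | C ∈ clusters ω S ∧ Disjoint C B}.ncard

/-- The number of clusters of `ω` in `S`. -/
noncomputable def K (ω : Config) (S : Set Vert) : ℕ := (clusters ω S).ncard

/-- Connection in `S`, where all vertices of `B` are identified. -/
def WConn (ω : Config) (S B : Set Vert) (u v : Vert) : Prop :=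
  Conn ω S u v ∨ ((∃ x ∈ B, Conn ω S u x) ∧ ∃ y ∈ B, Conn ω S v y)

/-- An endpoint of `e` is joined to the boundary of the rectangle `[a, b] × [c, d]` by an open path
in the rectangle which does not use `e`. -/
def OArm (ω : Config) (a b c d : ℤ) (e : Edge) : Prop :=
  ∃ u, (u = src e ∨ u = tgt e) ∧ ∃ w ∈ bd a b c d,
    Conn (Function.update ω e false) (rect a b c d) u w

/-- A face next to `e` is joined to the outside of the rectangle `[a, b] × [c, d]` by a closed dual
path which does not use the dual edge of `e`. (The face with lower left corner `F` is the dual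
vertex `F`; the faces next to `e` are `src e` and `lowFace e`; the faces inside the rectangle are
`rect a (b - 1) c (d - 1)`; the outside is the boundary of `rect (a - 1) b (c - 1) d`.) -/
def CArm (ω : Config) (a b c d : ℤ) (e : Edge) : Prop :=
  ∃ F, (F = src e ∨ F = lowFace e) ∧ ∃ G ∈ bd (a - 1) b (c - 1) d,
    Conn (dual (Function.update ω e true)) (rect (a - 1) b (c - 1) d) F G

/-- The random set `R` of the rectangle `D = [a, b] × [c, d]`: edges of `D` with an open arm and a
closed dual arm to the outside of `D`. -/
def InR (ω : Config) (a b c d : ℤ) (e : Edge) : Prop :=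
  e ∈ redges a b c d ∧ OArm ω a b c d e ∧ CArm ω a b c d e

/-- The number of clusters of `[x1, x2] × [c, d]` which touch both vertical sides. -/
noncomputable def NC (ω : Config) (x1 x2 c d : ℤ) : ℕ :=
  {C | C ∈ clusters ω (rect x1 x2 c d) ∧ (∃ u ∈ C, u.1 = x1) ∧ ∃ v ∈ C, v.1 = x2}.ncard

/-- The configuration with the state of `g` flipped. -/
def flip (ω : Config) (g : Edge) : Config := Function.update ω g (!ω g)

/-- Second difference of the number of clusters for the overlapping rectangles `[x0, x2]` and
`[x1, x3]` (times `[c, d]`). -/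
noncomputable def X (ω : Config) (x0 x1 x2 x3 c d : ℤ) : ℤ :=
  (K ω (rect x0 x3 c d) : ℤ) - K ω (rect x0 x2 c d) - K ω (rect x1 x3 c d) + K ω (rect x1 x2 c d)

theorem mem_redges {a b c d : ℤ} {e : Edge} :
    e ∈ redges a b c d ↔ src e ∈ rect a b c d ∧ tgt e ∈ rect a b c d := by
  obtain ⟨x, y, t⟩ := e
  cases t
  · simp only [redges, Finset.mem_union, Finset.mem_product, Finset.mem_Icc, Finset.mem_singleton,
      src, tgt, rect, Set.mem_ofPred_eq, Bool.false_eq_true, if_false, and_true, and_false, or_false]
    omega
  · simp only [redges, Finset.mem_union, Finset.mem_product, Finset.mem_Icc, Finset.mem_singleton,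
      src, tgt, rect, Set.mem_ofPred_eq, if_true, Bool.true_eq_false, and_false, and_true, false_or]
    omega

theorem rect_finite (a b c d : ℤ) : (rect a b c d).Finite := by
  refine ((Finset.Icc a b ×ˢ Finset.Icc c d).finite_toSet).subset ?_
  rintro ⟨x, y⟩ ⟨h1, h2, h3, h4⟩
  simp only [Finset.coe_product, Finset.coe_Icc, Set.mem_prod, Set.mem_Icc]
  exact ⟨⟨h1, h2⟩, h3, h4⟩

theorem clusters_finite (ω : Config) {S : Set Vert} (hS : S.Finite) : (clusters ω S).Finite := by
  have : clusters ω S = (fun v => {w | Conn ω S v w}) '' S := by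
    ext C
    constructor
    · rintro ⟨v, hv, rfl⟩; exact ⟨v, hv, rfl⟩
    · rintro ⟨v, hv, rfl⟩; exact ⟨v, hv, rfl⟩
  rw [this]
  exact hS.image _

theorem K_eq_J (ω : Config) (S : Set Vert) : K ω S = J ω S ∅ := by
  unfold K J
  congr 1
  ext C
  simp

theorem mem_cluster_iff {ω : Config} {S : Set Vert} {C : Set Vert} (hC : C ∈ clusters ω S)
    {v : Vert} (hv : v ∈ C) : C = {w | Conn ω S v w} := by
  obtain ⟨u, hu, rfl⟩ := hC
  ext w
  exact ⟨fun h => (Conn.symm hv).trans h, fun h => Conn.trans hv h⟩

theorem cluster_subset {ω : Config} {S : Set Vert} {C : Set Vert} (hC : C ∈ clusters ω S) :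
    C ⊆ S := by
  obtain ⟨u, hu, rfl⟩ := hC
  exact fun w hw => Conn.mem_right hw

theorem cluster_nonempty {ω : Config} {S : Set Vert} {C : Set Vert} (hC : C ∈ clusters ω S) :
    C.Nonempty := by
  obtain ⟨u, hu, rfl⟩ := hC
  exact ⟨u, Conn.refl hu⟩

end Pool.Agent.H29.Kap

end

section

/-!
# Arms of a pivotal edge for the connection event on the torus
-/

open MeasureTheory ProbabilityTheory unitInterval

namespace Pool.Agent.H90.AL

open Pool.Agent.H89.Perc

/-! ### Crossing clusters of an annulus -/

end Pool.Agent.H90.AL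

end

section

/-! # Expectations of local functions and the number of clusters of the open graph -/

set_option autoImplicit false

open MeasureTheory ProbabilityTheory unitInterval

namespace Pool.Agent.H29.Kap

open Pool.Agent.H89.Perc

/-- The box with `n × n` vertices. -/
def box (n : ℕ) : Set (ℤ × ℤ) := {v | 0 ≤ v.1 ∧ v.1 < n ∧ 0 ≤ v.2 ∧ v.2 < n}

end Pool.Agent.H29.Kap

end

section

/-!
# Analysis: differentiability from approximations at all scales
-/

open Filter Topology

namespace Pool.Agent.H31.AL

end Pool.Agent.H31.AL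

end
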