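import Pool.Agent.H94.BG.H31.PT.M04_1
import Pool.Agent.H94.BG.H31.PT.M09
import Pool.Agent.H94.BG.H31.PT.M16_1

/-! The parts of this file: H90.AL.Dist, H29.Kap.Defs, H90.AL.Arms, H29.Kap.Integral, H31.AL.Dyadic. -/

section

/-!
# Distances on the torus
-/

open MeasureTheory ProbabilityTheory unitInterval

namespace Pool.Agent.H90.AL

open Pool.Agent.H89.Perc Pool.Agent.H61.NC

lemma modE_mem {N : ℕ} (hN : 1 ≤ N) (e : Edge) : modE N e ∈ tEdges N := by
  have hN' : (0 : ℤ) < N := by exact_mod_cast hN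
  rw [mem_tEdges_iff]
  exact ⟨⟨Int.emod_nonneg _ hN'.ne', Int.emod_lt_of_pos _ hN'⟩,
    ⟨Int.emod_nonneg _ hN'.ne', Int.emod_lt_of_pos _ hN'⟩⟩

lemma modE_eq {N : ℕ} {e : Edge} (he : e ∈ tEdges N) : modE N e = e := by
  rw [mem_tEdges_iff] at he
  obtain ⟨x, y, t⟩ := e
  simp only at he
  simp only [modE]
  rw [Int.emod_eq_of_lt he.1.1 he.1.2, Int.emod_eq_of_lt he.2.1 he.2.2]

lemma modE_shift {N : ℕ} (e : Edge) :
    ∃ a b : ℤ, e = shiftE (a * N, b * N) (modE N e) := by
  refine ⟨e.1 / N, e.2.1 / N, ?_⟩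
  obtain ⟨x, y, c⟩ := e
  simp only [modE, shiftE]
  rw [Int.emod_add_ediv_mul, Int.emod_add_ediv_mul]

lemma src_modE {N : ℕ} (e : Edge) :
    ∃ a b : ℤ, ((src (modE N e)).1 - a * N, (src (modE N e)).2 - b * N) = src e := by
  obtain ⟨a, b, h⟩ := modE_shift (N := N) e
  refine ⟨-a, -b, ?_⟩
  conv_rhs => rw [h]
  simp only [src, shiftE]
  ext <;> (simp only; ring)

lemma modE_mem_SR {N : ℕ} (hN : 1 ≤ N) {c : Vert} {R : ℕ} {e : Edge} (he : src e ∈ ball c R) :
    modE N e ∈ SR N c 0 R := by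
  rw [mem_SR]
  refine ⟨modE_mem hN e, Nat.zero_le _, ?_⟩
  obtain ⟨a, b, h⟩ := src_modE (N := N) e
  exact dT_le_of hN a b (by rw [h]; exact he)

lemma modE_mem_SR' {N : ℕ} (hN : 1 ≤ N) {c : Vert} {t R : ℕ} (ht : 1 ≤ t) (hR : t + R ≤ N)
    {e : Edge} (he : src e ∈ ball c R) (he' : src e ∉ ball c (t - 1)) :
    modE N e ∈ SR N c t R := by
  rw [mem_SR]
  obtain ⟨a, b, h⟩ := src_modE (N := N) e
  refine ⟨modE_mem hN e, ?_, ?_⟩
  · by_contra hlt
    push Not at hlt
    apply he'
    have := mem_of_dT_le hN (u := src (modE N e)) (v := c) (t := t - 1) (R := R) (by omega)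
      (by omega) a b (by rw [h]; exact he)
    rw [h] at this
    exact this
  · exact dT_le_of hN a b (by rw [h]; exact he)

lemma localOn_A4T' {N : ℕ} (hN : 1 ≤ N) (f : Edge) (r : ℕ) :
    LocalOn (SR N (src f) 0 r) (A4T N f r) := by
  refine (localOn_A4T N f r).mono ?_
  intro g hg
  rw [Finset.mem_image] at hg
  obtain ⟨e, he, rfl⟩ := hg
  exact modE_mem_SR hN (mem_eRect.1 he)

/-- Two crossing clusters of an annulus of the torus. -/
def A2T (N : ℕ) (c : Vert) (t R : ℕ) : Set Config :=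
  {ω | (fun g => per N ω (shiftE c g)) ∈ Pool.Agent.H29.Sep.A2 t R}

lemma A2_congr {t R : ℕ} {ω ω' : Config}
    (h : ∀ e, src e ∈ Pool.Agent.H29.Sep.dom t R → tgt e ∈ Pool.Agent.H29.Sep.dom t R →
      ω e = ω' e) (hω : ω ∈ Pool.Agent.H29.Sep.A2 t R) : ω' ∈ Pool.Agent.H29.Sep.A2 t R := by
  obtain ⟨u, hu, u', hu', v, hv, v', hv', h1, h2, h3⟩ := hω
  refine ⟨u, hu, u', hu', v, hv, v', hv', h1.congr h, h2.congr h, fun h4 => h3 ?_⟩
  exact h4.congr fun e he he' => (h e he he').symm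

lemma localOn_A2' (t R : ℕ) : LocalOn (eRect (-(R : ℤ)) R (-(R : ℤ)) R)
    (Pool.Agent.H29.Sep.A2 t R) := by
  intro ω ω' h hω
  refine A2_congr (fun e he _ => h e (mem_eRect.2 ?_)) hω
  have := he.1
  simpa [ball] using this

lemma localOn_A2T {N : ℕ} (hN : 1 ≤ N) (c : Vert) {t R : ℕ} (ht : 1 ≤ t) (hR : t + R ≤ N) :
    LocalOn (SR N c t R) (A2T N c t R) := by
  intro ω ω' h hω
  refine A2_congr (fun e he _ => ?_) hω
  unfold per
  refine h _ (modE_mem_SR' hN ht hR (e := shiftE c e) ?_ ?_)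
  · have := he.1
    simp only [mem_ball, src, shiftE, Prod.fst_zero, Prod.snd_zero] at this ⊢
    omega
  · intro h'
    apply he.2
    simp only [mem_ball, src, shiftE, Prod.fst_zero, Prod.snd_zero] at h' ⊢
    omega

lemma Pr_A2T (q : I) {N : ℕ} (c : Vert) {t R : ℕ} (hR : 2 * R < N) :
    Pr q (A2T N c t R) = Pr q (Pool.Agent.H29.Sep.A2 t R) := by
  have hinj : Set.InjOn (fun g : Edge => modE N (shiftE c g)) (eRect (-(R : ℤ)) R (-(R : ℤ)) R) := by
    intro e he e' he' hee
    have h1 : shiftE c e ∈ eRect (c.1 - R) (c.1 + R) (c.2 - R) (c.2 + R) := by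
      rw [Finset.mem_coe, mem_eRect] at he
      rw [mem_eRect]
      simp only [src, shiftE, rect, Set.mem_ofPred_eq] at he ⊢
      omega
    have h2 : shiftE c e' ∈ eRect (c.1 - R) (c.1 + R) (c.2 - R) (c.2 + R) := by
      rw [Finset.mem_coe, mem_eRect] at he'
      rw [mem_eRect]
      simp only [src, shiftE, rect, Set.mem_ofPred_eq] at he' ⊢
      omega
    exact shiftE_injective c (modE_injOn (by omega) (by omega) h1 h2 hee)
  rw [← Pr_comp (localOn_A2' t R) hinj]
  rfl

end Pool.Agent.H90.AL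

end

section

/-!
# Cluster counts in rectangles: definitions

Vertices, edges, configurations, `Conn`, `dual`, `rect` are those of `Pool.Agent.H89.Perc`.
-/

set_option autoImplicit false

namespace Pool.Agent.H29.Kap

open Pool.Agent.H89.Perc

end Pool.Agent.H29.Kap

end

section

/-!
# Arms of a pivotal edge for the connection event on the torus
-/

open MeasureTheory ProbabilityTheory unitInterval

namespace Pool.Agent.H90.AL

open Pool.Agent.H89.Perc Pool.Agent.H61.NC

/-! ### Crossing clusters of an annulus -/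

/-- Two vertices in different clusters of the torus, both joined inside and outside of an annulus,
give two crossing clusters. -/
theorem A2_of_cross {N : ℕ} {η : Config} (hper : IsPer N η) {X Y c : Vert} {t R : ℕ}
    (ht : 1 ≤ t) (hR : t ≤ R)
    (hXY : ∀ a b : ℤ, ¬ Conn η Set.univ X (Y.1 + a * N, Y.2 + b * N))
    {a b a' b' : ℤ} {w1 w2 w1' w2' : Vert}
    (hw1 : (w1.1 - a * N, w1.2 - b * N) ∈ ball c t) (hw2 : (w2.1 - a * N, w2.2 - b * N) ∉ ball c R)
    (h1 : Conn η Set.univ X w1) (h2 : Conn η Set.univ X w2)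
    (hw1' : (w1'.1 - a' * N, w1'.2 - b' * N) ∈ ball c t)
    (hw2' : (w2'.1 - a' * N, w2'.2 - b' * N) ∉ ball c R)
    (h1' : Conn η Set.univ Y w1') (h2' : Conn η Set.univ Y w2') :
    (fun g => η (shiftE c g)) ∈ Pool.Agent.H29.Sep.A2 t R := by
  -- translate
  have e : ∀ (a b : ℤ) (w : Vert), ((w.1 + -a * N, w.2 + -b * N) : Vert) =
      (w.1 - a * N, w.2 - b * N) := by
    intro a b w
    ext <;> (simp only; ring)
  have k1 := conn_per hper (-a) (-b) (h1.symm.trans h2)
  have k1' := conn_per hper (-a') (-b') (h1'.symm.trans h2')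
  rw [e, e] at k1 k1'
  obtain ⟨u, hu, v, hv, huv, hwu⟩ := ann_cross ht hR hw1 hw2 k1
  obtain ⟨u', hu', v', hv', huv', hwu'⟩ := ann_cross ht hR hw1' hw2' k1'
  have hdom : {w : Vert | (w.1 - c.1, w.2 - c.2) ∈ Pool.Agent.H29.Sep.dom t R} =
      ball c R \ ball c (t - 1) := by
    ext w
    simp only [Pool.Agent.H29.Sep.dom, Set.mem_ofPred_eq, Set.mem_sdiff, mem_ball, Prod.fst_zero,
      Prod.snd_zero]
    constructor
    · rintro ⟨g1, g2⟩
      refine ⟨by omega, fun g3 => g2 (by omega)⟩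
    · rintro ⟨g1, g2⟩
      refine ⟨by omega, fun g3 => g2 (by omega)⟩
  have hsh : ∀ x y : Vert, Conn η (ball c R \ ball c (t - 1)) x y ↔
      Conn (fun g => η (shiftE c g)) (Pool.Agent.H29.Sep.dom t R) (x.1 - c.1, x.2 - c.2)
        (y.1 - c.1, y.2 - c.2) := by
    intro x y
    rw [conn_shift, hdom]
    simp only [sub_add_cancel]
  have hsp : ∀ (x : Vert) (r : ℕ), x ∈ sphere c r → ((x.1 - c.1, x.2 - c.2) : Vert) ∈ sphere 0 r := by
    rintro x r ⟨g1, g2⟩
    rw [mem_ball] at g1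
    refine ⟨?_, ?_⟩
    · simp only [mem_ball, Prod.fst_zero, Prod.snd_zero]
      omega
    · simp only [Prod.fst_zero, Prod.snd_zero]
      omega
  refine ⟨_, hsp u R hu, _, hsp u' R hu', _, hsp v t hv, _, hsp v' t hv', (hsh u v).1 huv,
    (hsh u' v').1 huv', fun hcon => ?_⟩
  rw [← hsh] at hcon
  -- `X` is joined to a translate of `Y`
  have g1 : Conn η Set.univ (w1.1 - a * N, w1.2 - b * N) (w1'.1 - a' * N, w1'.2 - b' * N) :=
    (hwu.trans (hcon.mono_set (Set.subset_univ _))).trans hwu'.symm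
  have g2 := conn_per hper a b g1
  have e2 : ((w1.1 - a * N + a * N, w1.2 - b * N + b * N) : Vert) = w1 := by
    ext <;> (simp only; ring)
  simp only at g2
  rw [e2] at g2
  have g3 := conn_per hper (a - a') (b - b') h1'
  have e3 : ((w1'.1 - a' * N + a * N, w1'.2 - b' * N + b * N) : Vert) =
      (w1'.1 + (a - a') * N, w1'.2 + (b - b') * N) := by
    ext <;> (simp only; ring)
  rw [e3] at g2
  exact hXY (a - a') (b - b') ((h1.trans g2).trans g3.symm)

end Pool.Agent.H90.AL

end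

section

/-! # Expectations of local functions and the number of clusters of the open graph -/

set_option autoImplicit false

open MeasureTheory ProbabilityTheory unitInterval

namespace Pool.Agent.H29.Kap

open Pool.Agent.H89.Perc Pool.Agent.Perc

end Pool.Agent.H29.Kap

end

section

/-!
# Analysis: differentiability from approximations at all scales
-/

open Filter Topology

namespace Pool.Agent.H31.AL

end Pool.Agent.H31.AL

end
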