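import Pool.Agent.H94.BG.H31.PT.M02
import Pool.Agent.H94.BG.H31.PT.M16

/-! The parts of this file: H90.AL.Dist, H29.Kap.Defs, H90.AL.Arms, H29.Kap.Integral, H31.AL.Dyadic. -/

section

/-!
# Distances on the torus
-/

open MeasureTheory ProbabilityTheory unitInterval

namespace Pool.Agent.H90.AL

open Pool.Agent.H89.Perc

end Pool.Agent.H90.AL

end

section

/-!
# Cluster counts in rectangles: definitions

Vertices, edges, configurations, `Conn`, `dual`, `rect` are those of `Pool.Agent.H89.Perc`.
-/

set_option autoImplicit false

namespace Pool.Agent.H29.Kap

open Pool.Agent.H89.Perc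

/-- Expected number of clusters of bond percolation with density `p` on `[a, b] × [c, d]`. -/
noncomputable def EK (p : ℝ) (a b c d : ℤ) : ℝ :=
  Pool.Agent.Perc.Ex p (redges a b c d)
    (fun S => (K (Pool.Agent.H89.Perc.ofS S) (rect a b c d) : ℝ))

/-- Expected number of inner clusters of bond percolation with density `p` on `[a, b] × [c, d]`. -/
noncomputable def EJ (p : ℝ) (a b c d : ℤ) : ℝ :=
  Pool.Agent.Perc.Ex p (redges a b c d)
    (fun S => (J (Pool.Agent.H89.Perc.ofS S) (rect a b c d) (bd a b c d) : ℝ))

theorem ofS_update (S : Finset Edge) (e : Edge) :
    Function.update (ofS S) e true = ofS (insert e S) ∧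
      Function.update (ofS S) e false = ofS (S.erase e) :=
  ⟨update_ofS_true S e, update_ofS_false S e⟩

end Pool.Agent.H29.Kap

end

section

/-!
# Arms of a pivotal edge for the connection event on the torus
-/

open MeasureTheory ProbabilityTheory unitInterval

namespace Pool.Agent.H90.AL

open Pool.Agent.H89.Perc

/-! ### Crossing clusters of an annulus -/

end Pool.Agent.H90.AL

end

section

/-! # Expectations of local functions and the number of clusters of the open graph -/

set_option autoImplicit false

open MeasureTheory ProbabilityTheory unitInterval

namespace Pool.Agent.H29.Kap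

open Pool.Agent.H89.Perc Pool.Agent.Perc

end Pool.Agent.H29.Kap

end

section

/-!
# Analysis: differentiability from approximations at all scales
-/

open Filter Topology

namespace Pool.Agent.H31.AL

end Pool.Agent.H31.AL

end
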