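import Pool.Agent.H94.BG.H31.PT.M07_5
import Pool.Agent.H94.BG.M06

/-! The parts of this file: H83.Site.PcRange, H92.SN.A4B, H38.SK.Dict, H38.SK.WindT, H38.SK.WindP, H92.SN.TSym, H83.SK.P29.A4Low, H38.SK.N59.Seal, H38.SK.N59.St4, H38.SK.N59.St2, H38.SK.N59.GeoP, H38.SK.N59.GeoAll, H38.SK.N59.MoveStr, H83.SK.PST.Defs. -/

section

/-!
# The critical density is neither zero nor one
-/

set_option autoImplicit false

open MeasureTheory ProbabilityTheory unitInterval

namespace Pool.Agent.H83.Site

open Pool.Agent.H89.Perc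

theorem Pr_open (p : I) (e : Edge) : Pr p {ω : Config | ω e = true} = p := by
  have hl : LocalOn {e} {ω : Config | ω e = true} := by
    intro ω ω' h hω
    simp only [Set.mem_ofPred_eq] at hω ⊢
    rw [← h e (Finset.mem_singleton_self e)]; exact hω
  rw [Pr_eq_update hl e]
  have h1 : {ω : Config | Function.update ω e true ∈ {ω : Config | ω e = true}} = Set.univ := by
    ext ω; simp
  have h2 : {ω : Config | Function.update ω e false ∈ {ω : Config | ω e = true}} = ∅ := by
    ext ω; simp
  rw [h1, h2]
  simp [Pr]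

end Pool.Agent.H83.Site

end

section

/-!
# Basic properties of the four-arm event of a site, in the plane and on the torus
-/

set_option autoImplicit false

open MeasureTheory ProbabilityTheory unitInterval

namespace Pool.Agent.H92.SN

open Pool.Agent.H89.Perc
open Pool.Agent.H61.NC (modE fill mid)
open Pool.Agent.H83.SK (sv sit)

/-- The sites of the square with centre `v` and half side `r`. -/
noncomputable def sBall (v : Vert) (r : ℕ) : Finset Edge :=
  Finset.Icc (v.1 - r) (v.1 + r) ×ˢ Finset.Icc (v.2 - r) (v.2 + r) ×ˢ {false}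

theorem mem_sBall {v : Vert} {r : ℕ} {e : Edge} :
    e ∈ sBall v r ↔ src e ∈ ball v r ∧ e.2.2 = false := by
  simp only [sBall, Finset.mem_product, Finset.mem_Icc, Finset.mem_singleton, mem_ball, src]
  tauto

theorem sv_src {e : Edge} (h : e.2.2 = false) : sv (src e) = e := by
  obtain ⟨x, y, t⟩ := e
  simp only at h
  subst h
  rfl

theorem src_sv (v : Vert) : src (sv v) = v := rfl

theorem sv_ne {u v : Vert} (h : u ≠ v) : sv u ≠ sv v :=
  fun h' => h (Pool.Agent.H83.SK.sv_injective h')

theorem closeV_le {v : Vert} {ω : Config} : ∀ e, closeV v ω e = true → ω e = true := by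
  intro e he
  simp only [closeV, Bool.and_eq_true] at he
  exact he.1

theorem closeV_congr {v : Vert} {e : Edge} {ω ω' : Config} (h : ω e = ω' e) :
    closeV v ω e = closeV v ω' e := by
  unfold closeV
  rw [h]

/-- A site configuration determines the induced configuration inside a ball. -/
theorem sit_congr_ball {w w' : Config} {v : Vert} {r : ℕ} (h : ∀ e ∈ sBall v r, w e = w' e)
    {e : Edge} (h1 : src e ∈ ball v r) (h2 : tgt e ∈ ball v r) : sit w e = sit w' e := by
  have k1 : sv (src e) ∈ sBall v r := mem_sBall.2 ⟨by rw [src_sv]; exact h1, rfl⟩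
  have k2 : sv (tgt e) ∈ sBall v r := mem_sBall.2 ⟨by rw [src_sv]; exact h2, rfl⟩
  simp only [sit]
  rw [h _ k1, h _ k2]

theorem Nb.cases {v a : Vert} (h : Nb v a) : a = (v.1 + 1, v.2) ∨ a = (v.1, v.2 + 1) ∨
    a = (v.1 - 1, v.2) ∨ a = (v.1, v.2 - 1) := by
  obtain ⟨e, h | h⟩ := h
  · obtain ⟨h1, h2⟩ := h
    subst h1 h2
    obtain ⟨x, y, t⟩ := e
    cases t
    · left; simp [src, tgt]
    · right; left; simp [src, tgt]
  · obtain ⟨h1, h2⟩ := h
    subst h1 h2
    obtain ⟨x, y, t⟩ := e
    cases t
    · right; right; left; simp [src, tgt]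
    · right; right; right; simp [src, tgt]

theorem Nb.mem_ball {v a : Vert} (h : Nb v a) {r : ℕ} (hr : 1 ≤ r) : a ∈ ball v r := by
  rcases h.cases with h | h | h | h <;> subst h <;>
    simp only [Pool.Agent.H89.Perc.mem_ball] <;> omega

theorem Nb.ne {v a : Vert} (h : Nb v a) : a ≠ v := by
  rintro rfl
  rcases h.cases with h | h | h | h
  · have := congrArg Prod.fst h; simp at this
  · have := congrArg Prod.snd h; simp at this
  · have := congrArg Prod.fst h; simp only at this; omega
  · have := congrArg Prod.snd h; simp only at this; omega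

theorem Nb.shift {v a : Vert} (h : Nb v a) (z : Vert) :
    Nb (v.1 + z.1, v.2 + z.2) (a.1 + z.1, a.2 + z.2) := by
  obtain ⟨e, he⟩ := h
  exact ⟨shiftE z e, joins_shift z he⟩

theorem Step.nb {ω : Config} {S : Set Vert} {u v : Vert} (h : Step ω S u v) : Nb u v :=
  ⟨h.2.2.choose, h.2.2.choose_spec.1⟩

theorem closeV_shift (v z : Vert) (ω : Config) : closeV v (fun f => ω (shiftE z f)) =
    fun f => closeV (v.1 + z.1, v.2 + z.2) ω (shiftE z f) := by
  funext f
  have h1 : ∀ w : Vert, (w.1 + z.1, w.2 + z.2) = (v.1 + z.1, v.2 + z.2) ↔ w = v := by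
    intro w
    simp only [Prod.mk.injEq, add_left_inj, Prod.ext_iff]
  have h2 : src (shiftE z f) = ((src f).1 + z.1, (src f).2 + z.2) := rfl
  have h3 : tgt (shiftE z f) = ((tgt f).1 + z.1, (tgt f).2 + z.2) := by
    obtain ⟨x, y, t⟩ := f
    cases t
    · simp only [tgt, shiftE]
      ext <;> (simp; try ring)
    · simp only [tgt, shiftE]
      ext <;> (simp; try ring)
  simp only [closeV]
  rw [h2, h3]
  simp only [ne_eq, h1]

private theorem a4B_int {N : ℕ} {a b c : ℤ} {r : ℕ} (h : 2 * r < N) (ha1 : c - r ≤ a)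
    (ha2 : a ≤ c + r) (hb1 : c - r ≤ b) (hb2 : b ≤ c + r) (hab : a % N = b % N) : a = b := by
  have h1 : (N : ℤ) ∣ a - b := Int.ModEq.dvd (show b ≡ a [ZMOD N] from hab.symm)
  have h2 : |a - b| < N := by
    rw [abs_lt]
    constructor <;> omega
  have h3 := Int.eq_zero_of_abs_lt_dvd h1 h2
  omega

theorem modE_injOn_sBall {N : ℕ} (v : Vert) {r : ℕ} (h : 2 * r < N) :
    Set.InjOn (modE N) (sBall v r) := by
  intro e he e' he' hee
  rw [Finset.mem_coe, mem_sBall] at he he'
  simp only [src, Pool.Agent.H89.Perc.mem_ball] at he he'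
  simp only [modE, Prod.mk.injEq] at hee
  obtain ⟨x, y, d⟩ := e
  obtain ⟨x', y', d'⟩ := e'
  simp only at he he' hee
  obtain ⟨hx, hy, hd⟩ := hee
  rw [a4B_int h he.1.1 he.1.2.1 he'.1.1 he'.1.2.1 hx,
    a4B_int h he.1.2.2.1 he.1.2.2.2 he'.1.2.2.1 he'.1.2.2.2 hy, hd]

end Pool.Agent.H92.SN

end

section

/-!
# Dictionary between the centred lattice and the induced bond configuration
-/

set_option autoImplicit false

open MeasureTheory ProbabilityTheory unitInterval

namespace Pool.Agent.H83.SK.Dict

open Pool.Agent.H89.Perc Pool.Agent.H83.Site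

/-! ### Crossings -/

/-! ### Probabilities -/

/-! ### The box-crossing regime -/

/-! ### Arms -/

end Pool.Agent.H83.SK.Dict

end

section

/-!
# Winding paths of site percolation on the torus
-/

set_option autoImplicit false

open MeasureTheory ProbabilityTheory unitInterval

namespace Pool.Agent.H83.SK.WG

open Pool.Agent.H89.Perc Pool.Agent.H83.Site

/-! ### Periodic configurations -/

/-! ### Winding paths from crossings -/

end Pool.Agent.H83.SK.WG

end

section

/-!
# The probability of winding for site percolation on the torus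
-/

set_option autoImplicit false

open MeasureTheory ProbabilityTheory unitInterval

namespace Pool.Agent.H83.SK.WG

open Pool.Agent.H89.Perc Pool.Agent.H83.Site

variable {q : I} {N : ℕ} {a b c d : ℤ}

/-! ### Crossings at all places -/

/-! ### The four crossings -/

/-- The four open crossings. -/
def four (N : ℕ) (h m : ℤ) : Set Config :=
  ({ω | full false (per N ω) ∈ {η | HC η 0 (h + m) 0 m}} ∩
    {ω | full false (per N ω) ∈ {η | HC η h (N + m) 0 m}}) ∩
  ({ω | full false (per N ω) ∈ {η | VC η h (h + m) 0 m}} ∩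
    {ω | full false (per N ω) ∈ {η | VC η 0 m 0 m}})

section
variable {e : ℝ} {h m L : ℤ}

end

/-! ### The box-crossing regime -/

/-! ### Good scales -/

end Pool.Agent.H83.SK.WG

end

section

/-!
# The winding event of the torus and its translation invariance
-/

set_option autoImplicit false

open MeasureTheory ProbabilityTheory unitInterval

namespace Pool.Agent.H92.SN

open Pool.Agent.H89.Perc
open Pool.Agent.H61.NC (fill mid upd Joint)
open Pool.Agent.H83.SK (sv sit)

theorem sit_shiftE (z : Vert) (ω : Config) :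
    sit (fun f => ω (shiftE z f)) = fun f => sit ω (shiftE z f) := by
  funext f
  obtain ⟨x, y, t⟩ := f
  cases t
  · simp only [sit, sv, src, tgt, shiftE, Bool.false_eq_true, if_false]
    rw [show x + 1 + z.1 = x + z.1 + 1 by ring]
  · simp only [sit, sv, src, tgt, shiftE, if_true]
    rw [show y + 1 + z.2 = y + z.2 + 1 by ring]

theorem localOn_Joint {s : Finset Edge} {A : Set Config} (hA : LocalOn s A) (e f : Edge) :
    LocalOn s (Joint A e f) := by
  have hl : ∀ (A : Set Config), LocalOn s A → ∀ (e : Edge) (b : Bool),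
      LocalOn s (upd A e b) := by
    intro A hA e b ω ω' h hω
    refine hA _ _ (fun x hx => ?_) hω
    by_cases hxe : x = e
    · subst hxe; simp
    · rw [Function.update_of_ne hxe, Function.update_of_ne hxe]
      exact h x hx
  have hl2 : ∀ (a b : Bool), LocalOn s (upd (upd A e a) f b) := fun a b =>
    hl _ (hl _ hA e a) f b
  unfold Joint
  rw [Set.sdiff_eq, Set.sdiff_eq]
  exact ((hl2 _ _).inter ((hl2 _ _).union (hl2 _ _)).compl).union
    (((hl2 _ _).inter (hl2 _ _)).inter (hl2 _ _).compl)

theorem pivot_nonneg_of_incr {A : Set Config} (iA : Incr A) (q : I) (e : Edge) :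
    0 ≤ pivot q A e := by
  unfold pivot
  rw [sub_nonneg]
  refine Pr_mono ?_
  intro ω hω
  refine iA _ _ ?_ hω
  intro f hf
  by_cases h : f = e
  · subst h; simp
  · rw [Function.update_of_ne h] at hf ⊢
    exact hf

theorem fill_mem {s : Finset Edge} {b : Bool} {ω : Config} {e : Edge} (h : e ∈ s) :
    fill s b ω e = b := by
  classical
  unfold fill
  rw [if_pos h]

theorem fill_notMem {s : Finset Edge} {b : Bool} {ω : Config} {e : Edge}
    (h : e ∉ s) : fill s b ω e = ω e := by
  classical
  unfold fill
  rw [if_neg h]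

end Pool.Agent.H92.SN

end

section

/-!
# Site percolation, small scales: finite energy
-/

open MeasureTheory ProbabilityTheory unitInterval

namespace Pool.Agent.H83.SK

open Pool.Agent.H89.Perc Pool.Agent.H29.Sep
open Pool.Agent.H59.EX (Src Four closeS_true)

/-- The probability that a site is open. -/
theorem site_open (q : I) (e : Edge) :
    Pool.Agent.H89.Perc.Pr q {ω : Config | ω e = true} = q := a4Low_open q e

theorem site_closed (q : I) (e : Edge) :
    Pool.Agent.H89.Perc.Pr q {ω : Config | ω e = false} = 1 - q := by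
  have hloc : LocalOn {e} {ω : Config | ω e = true} := by
    intro ω ω' h hω
    rw [Set.mem_ofPred_eq, ← h e (Finset.mem_singleton_self e)]
    exact hω
  have h1 : {ω : Config | ω e = false} = {ω : Config | ω e = true}ᶜ := by
    ext ω
    simp
  rw [h1, Pool.Agent.H89.Perc.Pr_compl hloc, site_open]

theorem a4Low_hcross (q : I) {c : ℝ}
    (h : c ≤ Pr q {ω | HCross ω 0 (4 * ((1 : ℕ) : ℤ)) 0 ((1 : ℕ) : ℤ)}) :
    c / 16 ≤ (q : ℝ) := by
  have hsub : {ω : Config | sit ω ∈ {ω | HCross ω 0 (4 * ((1 : ℕ) : ℤ)) 0 ((1 : ℕ) : ℤ)}} ⊆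
      {ω | ω (0, 0, false) = true} ∪ {ω | ω (0, 1, false) = true} := by
    rintro ω ⟨u, v, hu, hv, hc⟩
    by_contra hno
    simp only [Set.mem_union, Set.mem_ofPred_eq, not_or] at hno
    have hu0 := hc.mem_left
    have hP : v = u := by
      refine hc.induction_right (P := fun w => w = u) rfl ?_
      rintro a b _ ⟨ha', hb', f, hf, ho⟩ rfl
      exfalso
      rw [sit_true] at ho
      have ho' : ω (sv a) = true := by
        rcases hf with ⟨h3, h4⟩ | ⟨h3, h4⟩
        · rw [h3]; exact ho.1
        · rw [h3]; exact ho.2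
      simp only [rect, Set.mem_ofPred_eq, Nat.cast_one] at hu0
      obtain ⟨x, y⟩ := a
      simp only at hu hu0
      subst hu
      have hy : y = 0 ∨ y = 1 := by omega
      rcases hy with rfl | rfl
      · exact hno.1 ho'
      · exact hno.2 ho'
    rw [hP, hu] at hv
    norm_num at hv
  have h1 := (h.trans (Pool.Agent.H89.Perc.Pr_mono hsub)).trans Pool.Agent.H89.Perc.Pr_union_le
  rw [site_open, site_open] at h1
  have h2 : (0 : ℝ) ≤ q := q.2.1
  linarith only [h1, h2]

theorem a4Low_vcross (q : I) {c : ℝ}
    (h : c ≤ Pr q {ω | ¬ VCross ω 0 (4 * ((1 : ℕ) : ℤ)) 0 ((1 : ℕ) : ℤ)}) :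
    (q : ℝ) ≤ 1 - c / 16 := by
  have hsub : {ω : Config | sit ω ∈ {ω | ¬ VCross ω 0 (4 * ((1 : ℕ) : ℤ)) 0 ((1 : ℕ) : ℤ)}} ⊆
      {ω | ω (0, 0, false) = false} ∪ {ω | ω (0, 1, false) = false} := by
    intro ω hω
    by_contra hno
    simp only [Set.mem_union, Set.mem_ofPred_eq, not_or, Bool.not_eq_false] at hno
    refine hω ⟨(0, 0), (0, 1), rfl, rfl, Step.conn ⟨?_, ?_, (0, 0, true), Or.inl ⟨rfl, rfl⟩, ?_⟩⟩
    · simp [rect]
    · simp [rect]
    · rw [sit_true]
      exact ⟨hno.1, hno.2⟩
  have h1 := (h.trans (Pool.Agent.H89.Perc.Pr_mono hsub)).trans Pool.Agent.H89.Perc.Pr_union_le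
  rw [site_closed, site_closed] at h1
  have h2 : (q : ℝ) ≤ 1 := q.2.2
  linarith only [h1, h2]

theorem s4_mem (b : Bool) {r : ℕ} (hr : 1 ≤ r) :
    (s4 b).x ∈ ball (0 : Vert) r ∧ (s4 b).y ∈ ball (0 : Vert) r := by
  have h : (1 : ℤ) ≤ r := by exact_mod_cast hr
  cases b
  · simp only [s4, mem_ball, Prod.fst_zero, Prod.snd_zero, Bool.false_eq_true, if_false]
    omega
  · simp only [s4, mem_ball, Prod.fst_zero, Prod.snd_zero, if_true]
    omega

/-- The sites of the horizontal axis. -/
def axis : Config := fun e => decide (e.2.1 = 0)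

end Pool.Agent.H83.SK

end

section

/-!
# Seals for site percolation
-/

set_option autoImplicit false

open MeasureTheory ProbabilityTheory unitInterval

namespace Pool.Agent.H38.N59

open Pool.Agent.H89.Perc
open Pool.Agent.H83.SK (sv sit sit_true)
open Pool.Agent.H59.EX (LocS inE touch clus closeS Side T Mouth Fence dom pb grid)

/-- Sites of `ball g r` (as a finite set). -/
noncomputable def bF (g : Vert) (r : ℕ) : Finset Edge := by
  classical exact (eRect (g.1 - r) (g.1 + r) (g.2 - r) (g.2 + r)).filter (fun e => e.2.2 = false)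

end Pool.Agent.H38.N59

end

section

/-!
# Outward separation for sites: stage 4
-/

set_option autoImplicit false

open MeasureTheory ProbabilityTheory unitInterval

namespace Pool.Agent.H38.N59

open Pool.Agent.H89.Perc
open Pool.Agent.H61.NC hiding RSWreg
open Pool.Agent.H83.SK (sv sit sit_true)
open Pool.Agent.H59.EX (LocS inE touch clus closeS Side T Mouth Fence dom CorrData CorrSep mem_sphere_of_joins markov_indep grid card_grid)

end Pool.Agent.H38.N59

end

section

/-!
# Outward separation for sites: stage 2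
-/

set_option autoImplicit false

open MeasureTheory ProbabilityTheory unitInterval

namespace Pool.Agent.H38.N59

open Pool.Agent.H89.Perc
open Pool.Agent.H61.NC hiding RSWreg
open Pool.Agent.H83.SK (sv sit sit_true)
open Pool.Agent.H59.EX (LocS inE touch clus closeS Side T Mouth Fence dom CorrData CorrSep mem_sphere_of_joins markov_indep grid card_grid)

end Pool.Agent.H38.N59

end

section

/-!
# Probability of the crossing events of the corridors
-/

open MeasureTheory ProbabilityTheory unitInterval

namespace Pool.Agent.H83.SK.NG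

open Pool.Agent.H59.EX

open Pool.Agent.H89.Perc
open Pool.Agent.H29.Sep (Circ)

namespace GeoQ

end GeoQ

open GeoQ

end Pool.Agent.H83.SK.NG

end

section

/-!
# Corridors for the second point
-/

open MeasureTheory ProbabilityTheory unitInterval

namespace Pool.Agent.H83.SK.NG

open Pool.Agent.H59.EX

open Pool.Agent.H89.Perc

end Pool.Agent.H83.SK.NG

end

section

/-!
# The straight corridors of the moves, probabilities
-/

open MeasureTheory ProbabilityTheory unitInterval

namespace Pool.Agent.H83.SK.NG

open Pool.Agent.H59.EX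

open Pool.Agent.H89.Perc Pool.Agent.H61.NC
open Pool.Agent.H85.Strict (hv_meet)

open scoped Classical in
/-- Harris inequality with a lower bound. -/
theorem ms_and {q : I} {s t : Finset Edge} {A B : Set Config} {x y : ℝ} (hx : 0 ≤ x) (hy : 0 ≤ y)
    (hA : LocalOn s A ∧ Incr A ∧ x ≤ Pr q A) (hB : LocalOn t B ∧ Incr B ∧ y ≤ Pr q B) :
    LocalOn (s ∪ t) (A ∩ B) ∧ Incr (A ∩ B) ∧ x * y ≤ Pr q (A ∩ B) :=
  ⟨hA.1.inter' hB.1, hA.2.1.inter hB.2.1,
    (mul_le_mul hA.2.2 hB.2.2 hy (hx.trans hA.2.2)).trans (fkg hA.1 hB.1 hA.2.1 hB.2.1)⟩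

end Pool.Agent.H83.SK.NG

end

section

/-!
# Site percolation on the torus: separated four arms, definitions

The torus of side `N` is `ℤ²` with the periodic configuration `per N ω = pb (modE N) ω` of sites. The
source is the closed site `0` with two of its neighbours; the first neighbour has its mouth in the
west, the second one in the east. The corridor is the horizontal strip `[28 k, N - 28 k] × [-3 k,
3 k]` from the east target to the translate by `(N, 0)` of the west target.
-/

set_option autoImplicit false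

open MeasureTheory ProbabilityTheory unitInterval

namespace Pool.Agent.H83.PST

open Pool.Agent.H89.Perc
open Pool.Agent.H61.NC (modE)
open Pool.Agent.H83.SK (sv sit sit_true)
open Pool.Agent.H59.EX (LocS inE touch clus closeS Side T Mouth Fence dom pb grid)
open Pool.Agent.H26.ST (Cor PerInv sh TD Rel1 In)

/-- The sites of the corridor: those of the strip left of the translated west target, and those of
the west target. -/
def CC (N k : ℕ) : Set Vert := {v | (v ∈ Cor N k ∧ v.1 < N - 36 * k) ∨ v ∈ T .W k}

/-- A vertical strip off the corridor is not crossed. -/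
def NoX (N k : ℕ) : Set Config :=
  {η | ¬ HCross (sit η) (40 * k) (50 * k) (3 * k + 1) (N - 3 * k - 1)}

end Pool.Agent.H83.PST

end
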