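import Pool.Agent.H94.BG.H31.PT.M06_3
import Pool.Agent.H94.BG.H31.PT.M10_1
import Pool.Agent.H94.BG.H31.PT.M18
import Pool.Agent.H94.BG.M19

/-! The parts of this file: H83.Site.PcRange, H92.SN.A4B, H38.SK.Dict, H38.SK.WindT, H38.SK.WindP, H92.SN.TSym, H83.SK.P29.A4Low, H38.SK.N59.Seal, H38.SK.N59.St4, H38.SK.N59.St2, H38.SK.N59.GeoP, H38.SK.N59.GeoAll, H38.SK.N59.MoveStr, H83.SK.PST.Defs. -/

section

/-!
# The critical density is neither zero nor one
-/

set_option autoImplicit false

open MeasureTheory ProbabilityTheory unitInterval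

namespace Pool.Agent.H83.Site

open Pool.Agent.H89.Perc

end Pool.Agent.H83.Site

end

section

/-!
# Basic properties of the four-arm event of a site, in the plane and on the torus
-/

set_option autoImplicit false

open MeasureTheory ProbabilityTheory unitInterval

namespace Pool.Agent.H92.SN

open Pool.Agent.H89.Perc
open Pool.Agent.H61.NC (modE fill mid)
open Pool.Agent.H83.SK (sv sit)

theorem mem_tSites {N : ℕ} {e : Edge} :
    e ∈ tSites N ↔ (0 ≤ e.1 ∧ e.1 < N) ∧ (0 ≤ e.2.1 ∧ e.2.1 < N) ∧ e.2.2 = false := by
  simp only [tSites, Finset.mem_product, Finset.mem_Ico, Finset.mem_singleton]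

theorem mem_blkS {N r : ℕ} {e : Edge} : e ∈ blkS N r ↔
    (mid N - r ≤ e.1 ∧ e.1 ≤ mid N + r) ∧ (mid N - r ≤ e.2.1 ∧ e.2.1 ≤ mid N + r) ∧
      e.2.2 = false := by
  simp only [blkS, Finset.mem_product, Finset.mem_Icc, Finset.mem_singleton]

theorem tSites_sub (N : ℕ) : tSites N ⊆ tEdges N := by
  intro e he
  rw [mem_tSites] at he
  simp only [tEdges, Finset.mem_product, Finset.mem_Ico, Finset.mem_univ, and_true]
  exact ⟨he.1, he.2.1⟩

/-- The induced configuration with the site `v` closed. -/
theorem sit_shut (v : Vert) (w : Config) : sit (shut v w) = closeV v (sit w) := by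
  funext e
  simp only [sit, shut, closeV]
  by_cases h1 : src e = v
  · subst h1
    simp
  · by_cases h2 : tgt e = v
    · subst h2
      simp
    · rw [Function.update_of_ne (sv_ne h1), Function.update_of_ne (sv_ne h2)]
      simp [h1, h2]

theorem nb_Nb (v : Vert) (i : ℕ) : Nb v (nb v i) := by
  rcases i with _ | _ | _ | i
  · exact ⟨(v.1, v.2, false), Or.inl ⟨rfl, by simp [tgt, nb]⟩⟩
  · exact ⟨(v.1, v.2, true), Or.inl ⟨rfl, by simp [tgt, nb]⟩⟩
  · exact ⟨(v.1 - 1, v.2, false), Or.inr ⟨by simp [tgt], by simp [src, nb]⟩⟩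
  · exact ⟨(v.1, v.2 - 1, true), Or.inr ⟨by simp [tgt], by simp [src, nb]⟩⟩

theorem Nb.exists_nb {v a : Vert} (h : Nb v a) : ∃ i < 4, a = nb v i := by
  rcases h.cases with h | h | h | h
  · exact ⟨0, by norm_num, h⟩
  · exact ⟨1, by norm_num, h⟩
  · exact ⟨2, by norm_num, h⟩
  · exact ⟨3, by norm_num, h⟩

end Pool.Agent.H92.SN

end

section

/-!
# Dictionary between the centred lattice and the induced bond configuration
-/

set_option autoImplicit false

open MeasureTheory ProbabilityTheory unitInterval

namespace Pool.Agent.H83.SK.Dict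

open Pool.Agent.H89.Perc Pool.Agent.H83.Site

/-! ### Crossings -/

/-! ### Probabilities -/

/-! ### The box-crossing regime -/

/-! ### Arms -/

end Pool.Agent.H83.SK.Dict

end

section

/-!
# Winding paths of site percolation on the torus
-/

set_option autoImplicit false

open MeasureTheory ProbabilityTheory unitInterval

namespace Pool.Agent.H83.SK.WG

open Pool.Agent.H89.Perc Pool.Agent.H83.Site
open Pool.Agent.H92.SN (WindS tSites)

theorem mem_tSites {N : ℕ} {e : Edge} :
    e ∈ tSites N ↔ e.2.2 = false ∧ 0 ≤ e.1 ∧ e.1 < N ∧ 0 ≤ e.2.1 ∧ e.2.1 < N := by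
  simp only [tSites, Finset.mem_product, Finset.mem_Ico, Finset.mem_singleton]
  tauto

theorem sit_per_congr {N : ℕ} (hN : 1 ≤ N) {ω ω' : Config} (h : ∀ e ∈ tSites N, ω e = ω' e) :
    sit (per N ω) = sit (per N ω') := by
  have hN' : (0 : ℤ) < N := by exact_mod_cast hN
  have key : ∀ v : Vert, per N ω (sv v) = per N ω' (sv v) := by
    intro v
    refine h _ (mem_tSites.2 ⟨rfl, ?_, ?_, ?_, ?_⟩)
    · exact Int.emod_nonneg _ hN'.ne'
    · exact Int.emod_lt_of_pos _ hN'
    · exact Int.emod_nonneg _ hN'.ne'
    · exact Int.emod_lt_of_pos _ hN'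
  funext e
  simp only [sit, key]

/-! ### Periodic configurations -/

/-! ### Winding paths from crossings -/

end Pool.Agent.H83.SK.WG

end

section

/-!
# The probability of winding for site percolation on the torus
-/

set_option autoImplicit false

open MeasureTheory ProbabilityTheory unitInterval

namespace Pool.Agent.H83.SK.WG

open Pool.Agent.H89.Perc Pool.Agent.H83.Site
open Pool.Agent.H92.SN (WindS tSites)

variable {q : I} {N : ℕ} {a b c d : ℤ}

/-! ### Crossings at all places -/

/-! ### The four crossings -/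

section
variable {e : ℝ} {h m L : ℤ}

end

/-! ### The box-crossing regime -/

/-! ### Good scales -/

end Pool.Agent.H83.SK.WG

end

section

/-!
# The winding event of the torus and its translation invariance
-/

set_option autoImplicit false

open MeasureTheory ProbabilityTheory unitInterval

namespace Pool.Agent.H92.SN

open Pool.Agent.H89.Perc
open Pool.Agent.H61.NC (fill mid upd Joint PrR')
open Pool.Agent.H83.SK (sv sit)

/-- The configuration on the torus determines the induced periodic configuration. -/
theorem sit_per_congr {N : ℕ} (hN : 1 ≤ N) {w w' : Config} (h : ∀ e ∈ tSites N, w e = w' e) :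
    sit (per N w) = sit (per N w') := by
  have hN' : (0 : ℤ) < N := by exact_mod_cast hN
  have key : ∀ v : Vert, per N w (sv v) = per N w' (sv v) := by
    intro v
    refine h _ ?_
    rw [mem_tSites]
    exact ⟨⟨Int.emod_nonneg _ hN'.ne', Int.emod_lt_of_pos _ hN'⟩,
      ⟨Int.emod_nonneg _ hN'.ne', Int.emod_lt_of_pos _ hN'⟩, rfl⟩
  funext e
  simp only [sit]
  rw [key, key]

theorem localOn_WindS {N : ℕ} (hN : 1 ≤ N) : LocalOn (tSites N) (WindS N) := by
  rintro w w' h ⟨u, a, b, ha, hc⟩
  exact ⟨u, a, b, ha, sit_per_congr hN h ▸ hc⟩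

theorem incr_WindS (N : ℕ) : Incr (WindS N) := by
  rintro w w' h ⟨u, a, b, ha, hc⟩
  exact ⟨u, a, b, ha, hc.mono le_rfl (Pool.Agent.H83.SK.sit_mono fun e he => h _ he)⟩

theorem cE_mem {N : ℕ} (hN : 1 ≤ N) : cE N ∈ tSites N := by
  rw [mem_tSites]
  simp only [cE, mid, and_true]
  omega

theorem card_tSites (N : ℕ) : ((tSites N).card : ℝ) = (N : ℝ) ^ 2 := by
  unfold tSites
  rw [Finset.card_product, Finset.card_product, Finset.card_singleton, Int.card_Ico]
  simp only [sub_zero, Int.toNat_natCast, mul_one]
  push_cast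
  ring

/-- Translations of the torus. -/
theorem windS_tau (N : ℕ) (z : Vert) (w : Config) :
    (fun f => w (torusSym_tau N z f)) ∈ WindS N ↔ w ∈ WindS N := by
  constructor
  · rintro ⟨u, a, b, ha, hc⟩
    rw [torusSym_per, sit_shiftE, conn_shift] at hc
    refine ⟨(u.1 + z.1, u.2 + z.2), a, b, ha, ?_⟩
    have h := hc.mono_set (Set.subset_univ _)
    convert h using 2
    · simp only; ring
    · simp only; ring
  · rintro ⟨u, a, b, ha, hc⟩
    refine ⟨(u.1 - z.1, u.2 - z.2), a, b, ha, ?_⟩
    rw [torusSym_per, sit_shiftE, conn_shift]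
    have h1 : {w : Vert | (w.1 - z.1, w.2 - z.2) ∈ (Set.univ : Set Vert)} = Set.univ := by
      ext w; simp
    rw [h1]
    convert hc using 2
    · simp
    · simp
    · simp only; ring
    · simp only; ring

theorem tau_injOn (N : ℕ) (z : Vert) : Set.InjOn (torusSym_tau N z) (tSites N) :=
  (torusSym_tau_injOn N z).mono (by
    intro e he
    exact tSites_sub N he)

theorem tau_mem {N : ℕ} (hN : 1 ≤ N) (z : Vert) {e : Edge} (he : e.2.2 = false) :
    torusSym_tau N z e ∈ tSites N := by
  have hN' : (0 : ℤ) < N := by exact_mod_cast hN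
  rw [mem_tSites]
  exact ⟨⟨Int.emod_nonneg _ hN'.ne', Int.emod_lt_of_pos _ hN'⟩,
      ⟨Int.emod_nonneg _ hN'.ne', Int.emod_lt_of_pos _ hN'⟩, he⟩

theorem tau_cE {N : ℕ} {e : Edge} (he : e ∈ tSites N) :
    torusSym_tau N (e.1 - mid N, e.2.1 - mid N) (cE N) = e := by
  rw [mem_tSites] at he
  obtain ⟨x, y, d⟩ := e
  simp only at he
  simp only [torusSym_tau, cE, Prod.mk.injEq]
  refine ⟨?_, ?_, he.2.2.symm⟩
  · rw [show mid N + (x - mid N) = x by ring, Int.emod_eq_of_lt he.1.1 he.1.2]
  · rw [show mid N + (y - mid N) = y by ring, Int.emod_eq_of_lt he.2.1.1 he.2.1.2]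

theorem tSym_image {N : ℕ} (hN : 1 ≤ N) (z : Vert) :
    (tSites N).image (torusSym_tau N z) = tSites N := by
  refine Finset.eq_of_subset_of_card_le ?_ ?_
  · intro x hx
    obtain ⟨y, hy, rfl⟩ := Finset.mem_image.1 hx
    exact tau_mem hN z (mem_tSites.1 hy).2.2
  · rw [Finset.card_image_of_injOn (tau_injOn N z)]

private theorem tSym_update {N : ℕ} (hN : 1 ≤ N) (q : I) {e : Edge} (he : e ∈ tSites N)
    (b : Bool) : Pr q {w | Function.update w e b ∈ WindS N} =
      Pr q {w | Function.update w (cE N) b ∈ WindS N} := by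
  have hloc : LocalOn (tSites N) {w | Function.update w (cE N) b ∈ WindS N} := by
    intro ω ω' hω h1
    refine localOn_WindS hN _ _ (fun f hf => ?_) h1
    by_cases hfe : f = cE N
    · subst hfe; simp
    · simp only [Function.update_of_ne hfe]; exact hω f hf
  set z : Vert := (e.1 - mid N, e.2.1 - mid N) with hz
  have hτ : torusSym_tau N z (cE N) = e := tau_cE he
  rw [← Pr_comp hloc (tau_injOn N z)]
  congr 1
  ext ω
  simp only [Set.mem_ofPred_eq]
  rw [← windS_tau N z (Function.update ω e b)]
  have key : ∀ f ∈ tSites N, Function.update ω e b (torusSym_tau N z f) =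
      Function.update (fun f => ω (torusSym_tau N z f)) (cE N) b f := by
    intro f hf
    by_cases hfe : f = cE N
    · subst hfe
      rw [hτ]; simp
    · have h2 : torusSym_tau N z f ≠ e := by
        intro h3
        rw [← hτ] at h3
        exact hfe (tau_injOn N z hf (cE_mem hN) h3)
      rw [Function.update_of_ne h2, Function.update_of_ne hfe]
  exact ⟨fun h1 => localOn_WindS hN _ _ key h1,
    fun h1 => localOn_WindS hN _ _ (fun f hf => (key f hf).symm) h1⟩

theorem pivot_windS {N : ℕ} (hN : 1 ≤ N) (q : I) {e : Edge} (he : e ∈ tSites N) :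
    pivot q (WindS N) e = sT q N := by
  unfold sT pivot
  rw [tSym_update hN q he true, tSym_update hN q he false]

theorem sum_pivot {N : ℕ} (hN : 1 ≤ N) (q : I) :
    ∑ e ∈ tSites N, pivot q (WindS N) e = (N : ℝ) ^ 2 * sT q N := by
  rw [Finset.sum_congr rfl fun e he => pivot_windS hN q he, Finset.sum_const, nsmul_eq_mul,
    card_tSites]

end Pool.Agent.H92.SN

end

section

/-!
# Site percolation, small scales: finite energy
-/

open MeasureTheory ProbabilityTheory unitInterval

namespace Pool.Agent.H83.SK

open Pool.Agent.H89.Perc Pool.Agent.H29.Sep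
open Pool.Agent.H59.EX (Src Four closeS_true)

end Pool.Agent.H83.SK

end

section

/-!
# Seals for site percolation
-/

set_option autoImplicit false

open MeasureTheory ProbabilityTheory unitInterval

namespace Pool.Agent.H38.N59

open Pool.Agent.H89.Perc
open Pool.Agent.H83.SK (sv sit sit_true)
open Pool.Agent.H59.EX (LocS inE touch clus closeS Side T Mouth Fence dom pb grid)

theorem ball_of_joins {e : Edge} {a b : Vert} (hj : Joins e a b) : a ∈ ball b 1 :=
  Pool.Agent.H59.EX.ball_of_joins hj

end Pool.Agent.H38.N59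

end

section

/-!
# Outward separation for sites: stage 4
-/

set_option autoImplicit false

open MeasureTheory ProbabilityTheory unitInterval

namespace Pool.Agent.H38.N59

open Pool.Agent.H89.Perc
open Pool.Agent.H61.NC hiding RSWreg
open Pool.Agent.H83.SK (sv sit sit_true)
open Pool.Agent.H59.EX (LocS inE touch clus closeS Side T Mouth Fence dom CorrData CorrSep clus_sub clus_step clus_conn mem_clus_single fence_mono corr_inter corr_sub160 mem_sphere_of_joins markov_indep grid exists_grid card_grid)

end Pool.Agent.H38.N59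

end

section

/-!
# Outward separation for sites: stage 2
-/

set_option autoImplicit false

open MeasureTheory ProbabilityTheory unitInterval

namespace Pool.Agent.H38.N59

open Pool.Agent.H89.Perc
open Pool.Agent.H61.NC hiding RSWreg
open Pool.Agent.H83.SK (sv sit sit_true)
open Pool.Agent.H59.EX (LocS inE touch clus closeS Side T Mouth Fence dom CorrData CorrSep clus_sub clus_step clus_conn mem_clus_single fence_mono corr_inter corr_sub160 mem_sphere_of_joins markov_indep grid exists_grid card_grid)

end Pool.Agent.H38.N59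

end

section

/-!
# Probability of the crossing events of the corridors
-/

open MeasureTheory ProbabilityTheory unitInterval

namespace Pool.Agent.H83.SK.NG

open Pool.Agent.H59.EX

open Pool.Agent.H89.Perc
open Pool.Agent.H29.Sep (Circ)

namespace GeoQ

end GeoQ

open GeoQ

end Pool.Agent.H83.SK.NG

end

section

/-!
# Corridors for the second point
-/

open MeasureTheory ProbabilityTheory unitInterval

namespace Pool.Agent.H83.SK.NG

open Pool.Agent.H59.EX

open Pool.Agent.H89.Perc

end Pool.Agent.H83.SK.NG

end

section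

/-!
# The straight corridors of the moves, probabilities
-/

open MeasureTheory ProbabilityTheory unitInterval

namespace Pool.Agent.H83.SK.NG

open Pool.Agent.H59.EX

open Pool.Agent.H89.Perc Pool.Agent.H61.NC
open Pool.Agent.H85.Strict (hv_meet)

end Pool.Agent.H83.SK.NG

end

section

/-!
# Site percolation on the torus: separated four arms, definitions

The torus of side `N` is `ℤ²` with the periodic configuration `per N ω = pb (modE N) ω` of sites. The
source is the closed site `0` with two of its neighbours; the first neighbour has its mouth in the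
west, the second one in the east. The corridor is the horizontal strip `[28 k, N - 28 k] × [-3 k,
3 k]` from the east target to the translate by `(N, 0)` of the west target.
-/

set_option autoImplicit false

open MeasureTheory ProbabilityTheory unitInterval

namespace Pool.Agent.H83.PST

open Pool.Agent.H89.Perc
open Pool.Agent.H61.NC (modE)
open Pool.Agent.H83.SK (sv sit sit_true)
open Pool.Agent.H59.EX (LocS inE touch clus closeS Side T Mouth Fence dom pb grid)
open Pool.Agent.H26.ST (Cor PerInv sh TD Rel1 In)
open Pool.Agent.H92.SN (WindS tSites)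

end Pool.Agent.H83.PST

end
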