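import Pool.Agent.H94.BG.H31.PT.M07_3
import Pool.Agent.H94.BG.H31.PT.M10_1
import Pool.Agent.H94.BG.H31.PT.M18

/-! The parts of this file: H83.Site.PcRange, H92.SN.A4B, H38.SK.Dict, H38.SK.WindT, H38.SK.WindP, H92.SN.TSym, H83.SK.P29.A4Low, H38.SK.N59.Seal, H38.SK.N59.St4, H38.SK.N59.St2, H38.SK.N59.GeoP, H38.SK.N59.GeoAll, H38.SK.N59.MoveStr, H83.SK.PST.Defs. -/

section

/-!
# The critical density is neither zero nor one
-/

set_option autoImplicit false

open MeasureTheory ProbabilityTheory unitInterval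

namespace Pool.Agent.H83.Site

open Pool.Agent.H89.Perc

end Pool.Agent.H83.Site

end

section

/-!
# Basic properties of the four-arm event of a site, in the plane and on the torus
-/

set_option autoImplicit false

open MeasureTheory ProbabilityTheory unitInterval

namespace Pool.Agent.H92.SN

open Pool.Agent.H89.Perc
open Pool.Agent.H61.NC (modE fill mid)
open Pool.Agent.H83.SK (sv sit)

private theorem a4B_local {v : Vert} {r : ℕ} {ω ω' : Config}
    (h : ∀ e, src e ∈ ball v r → tgt e ∈ ball v r → ω e = ω' e) (hω : ω ∈ A4 v r) :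
    ω' ∈ A4 v r := by
  have key : ∀ x y, Conn (closeV v ω) (ball v r) x y → Conn (closeV v ω') (ball v r) x y :=
    fun x y hc => hc.congr fun e h1 h2 => closeV_congr (h e h1 h2)
  have key' : ∀ x y, Conn (closeV v ω') (ball v r) x y → Conn (closeV v ω) (ball v r) x y :=
    fun x y hc => hc.congr fun e h1 h2 => closeV_congr (h e h1 h2).symm
  obtain ⟨a, b, ha, hb, ⟨u, hu, h1⟩, ⟨u', hu', h2⟩, h3⟩ := hω
  exact ⟨a, b, ha, hb, ⟨u, hu, key _ _ h1⟩, ⟨u', hu', key _ _ h2⟩, fun h4 => h3 (key' _ _ h4)⟩

theorem localOn_A4 (v : Vert) (r : ℕ) :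
    LocalOn (eRect (v.1 - r) (v.1 + r) (v.2 - r) (v.2 + r)) (A4 v r) := by
  intro ω ω' h hω
  exact a4B_local (fun e h1 _ => h e (mem_eRect.2 h1)) hω

theorem localOn_sitA4 (v : Vert) (r : ℕ) : LocalOn (sBall v r) {w | sit w ∈ A4 v r} := by
  intro w w' h hw
  exact a4B_local (fun e h1 h2 => sit_congr_ball h h1 h2) hw

theorem A4_anti {v : Vert} {r r' : ℕ} (h1 : 1 ≤ r) (h : r ≤ r') : A4 v r' ⊆ A4 v r := by
  rcases h.eq_or_lt with h0 | h0
  · subst h0; exact le_rfl
  have hsub : ball v r ⊆ ball v r' := by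
    intro w hw
    simp only [Pool.Agent.H89.Perc.mem_ball] at hw ⊢
    omega
  have hout : ∀ u ∈ sphere v r', u ∉ ball v r := by
    rintro u ⟨hu1, hu2⟩ hu3
    simp only [Pool.Agent.H89.Perc.mem_ball] at hu1 hu3
    omega
  rintro ω ⟨a, b, ha, hb, ⟨u, hu, h2⟩, ⟨u', hu', h3⟩, h4⟩
  obtain ⟨x, hx, hcx⟩ := h2.to_sphere (v := v) (r := r) (ha.mem_ball h1) (Or.inl (hout u hu))
  obtain ⟨x', hx', hcx'⟩ := h3.to_sphere (v := v) (r := r) (hb.mem_ball h1)
    (Or.inl (hout u' hu'))
  exact ⟨a, b, ha, hb, ⟨x, hx, hcx.mono_set Set.inter_subset_right⟩,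
    ⟨x', hx', hcx'.mono_set Set.inter_subset_right⟩, fun h5 => h4 (h5.mono_set hsub)⟩

private theorem a4B_shift (v : Vert) (r : ℕ) :
    {ω : Config | (fun f => ω (shiftE v f)) ∈ A4 0 r} = A4 v r := by
  have hb : {w : Vert | (w.1 - v.1, w.2 - v.2) ∈ ball (0 : Vert) r} = ball v r := by
    ext w
    simp only [Set.mem_ofPred_eq, Pool.Agent.H89.Perc.mem_ball, Prod.fst_zero, Prod.snd_zero]
    omega
  have key : ∀ (ω : Config) (a b : Vert),
      Conn (closeV 0 (fun f => ω (shiftE v f))) (ball (0 : Vert) r) a b ↔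
      Conn (closeV v ω) (ball v r) (a.1 + v.1, a.2 + v.2) (b.1 + v.1, b.2 + v.2) := by
    intro ω a b
    rw [closeV_shift, conn_shift, hb]
    simp
  have hex : ∀ (ω : Config) (a : Vert),
      (∃ u ∈ sphere (0 : Vert) r, Conn (closeV 0 (fun f => ω (shiftE v f))) (ball 0 r) a u) ↔
      ∃ u ∈ sphere v r, Conn (closeV v ω) (ball v r) (a.1 + v.1, a.2 + v.2) u := by
    intro ω a
    constructor
    · rintro ⟨u, hu, hc⟩
      refine ⟨(u.1 + v.1, u.2 + v.2), ?_, (key ω a u).1 hc⟩
      obtain ⟨hu1, hu2⟩ := hu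
      simp only [sphere, Set.mem_ofPred_eq, Pool.Agent.H89.Perc.mem_ball, Prod.fst_zero,
        Prod.snd_zero] at hu1 hu2 ⊢
      omega
    · rintro ⟨u, hu, hc⟩
      refine ⟨(u.1 - v.1, u.2 - v.2), ?_, (key ω a _).2 (by simpa using hc)⟩
      obtain ⟨hu1, hu2⟩ := hu
      simp only [sphere, Set.mem_ofPred_eq, Pool.Agent.H89.Perc.mem_ball, Prod.fst_zero,
        Prod.snd_zero] at hu1 hu2 ⊢
      omega
  ext ω
  simp only [A4, Set.mem_ofPred_eq]
  constructor
  · rintro ⟨a, b, ha, hb', h1, h2, h3⟩
    refine ⟨(a.1 + v.1, a.2 + v.2), (b.1 + v.1, b.2 + v.2), ?_, ?_, (hex ω a).1 h1,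
      (hex ω b).1 h2, fun h => h3 ((key ω a b).2 h)⟩
    · simpa using ha.shift v
    · simpa using hb'.shift v
  · rintro ⟨a, b, ha, hb', h1, h2, h3⟩
    refine ⟨(a.1 - v.1, a.2 - v.2), (b.1 - v.1, b.2 - v.2), ?_, ?_, (hex ω _).2 (by simpa using h1),
      (hex ω _).2 (by simpa using h2), fun h => h3 (by simpa using (key ω _ _).1 h)⟩
    · have := ha.shift (-v)
      have e0 : (0 : Vert) = (0, 0) := rfl
      rw [e0]
      simpa [sub_eq_add_neg] using this
    · have := hb'.shift (-v)
      have e0 : (0 : Vert) = (0, 0) := rfl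
      rw [e0]
      simpa [sub_eq_add_neg] using this

/-- The four-arm probability does not depend on the site. -/
theorem Pr_A4 (q : I) (v : Vert) (r : ℕ) : Pool.Agent.H83.SK.Pr q (A4 v r) = a4 q r := by
  rw [← a4B_shift v r, Pool.Agent.H83.SK.Pr_comp (localOn_A4 0 r)
    (Pool.Agent.H83.SK.isAut_shift v), a4]

theorem a4_nonneg (q : I) (r : ℕ) : 0 ≤ a4 q r := Pool.Agent.H83.SK.Pr_nonneg

theorem a4_anti (q : I) {r r' : ℕ} (h1 : 1 ≤ r) (h : r ≤ r') : a4 q r' ≤ a4 q r :=
  Pool.Agent.H83.SK.Pr_mono (A4_anti h1 h)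

end Pool.Agent.H92.SN

end

section

/-!
# Dictionary between the centred lattice and the induced bond configuration
-/

set_option autoImplicit false

open MeasureTheory ProbabilityTheory unitInterval

namespace Pool.Agent.H83.SK.Dict

open Pool.Agent.H89.Perc Pool.Agent.H83.Site

/-! ### Crossings -/

/-! ### Probabilities -/

/-! ### The box-crossing regime -/

/-! ### Arms -/

end Pool.Agent.H83.SK.Dict

end

section

/-!
# Winding paths of site percolation on the torus
-/

set_option autoImplicit false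

open MeasureTheory ProbabilityTheory unitInterval

namespace Pool.Agent.H83.SK.WG

open Pool.Agent.H89.Perc Pool.Agent.H83.Site

/-! ### Periodic configurations -/

/-! ### Winding paths from crossings -/

end Pool.Agent.H83.SK.WG

end

section

/-!
# The probability of winding for site percolation on the torus
-/

set_option autoImplicit false

open MeasureTheory ProbabilityTheory unitInterval

namespace Pool.Agent.H83.SK.WG

open Pool.Agent.H89.Perc Pool.Agent.H83.Site

variable {q : I} {N : ℕ} {a b c d : ℤ}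

/-! ### Crossings at all places -/

/-! ### The four crossings -/

section
variable {e : ℝ} {h m L : ℤ}

end

/-! ### The box-crossing regime -/

/-! ### Good scales -/

end Pool.Agent.H83.SK.WG

end

section

/-!
# The winding event of the torus and its translation invariance
-/

set_option autoImplicit false

open MeasureTheory ProbabilityTheory unitInterval

namespace Pool.Agent.H92.SN

open Pool.Agent.H89.Perc
open Pool.Agent.H61.NC (fill mid upd Joint PrR')
open Pool.Agent.H83.SK (sv sit)

theorem tSym_mem_upd {A : Set Config} {e f : Edge} {a b : Bool} {w : Config} :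
    w ∈ upd (upd A e a) f b ↔ Function.update (Function.update w f b) e a ∈ A := Iff.rfl

end Pool.Agent.H92.SN

end

section

/-!
# Site percolation, small scales: finite energy
-/

open MeasureTheory ProbabilityTheory unitInterval

namespace Pool.Agent.H83.SK

open Pool.Agent.H89.Perc Pool.Agent.H29.Sep
open Pool.Agent.H59.EX (Src Four closeS_true)

/-- In the regime the density is bounded away from `0` and `1`. -/
theorem rswreg_density {c : ℝ} {n : ℕ} {q : I} (hn : 1 ≤ n) (h : RSWreg c n q) :
    c / 16 ≤ (q : ℝ) ∧ (q : ℝ) ≤ 1 - c / 16 := by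
  obtain ⟨h1, h2⟩ := h 1 le_rfl hn
  exact ⟨a4Low_hcross q h1, a4Low_vcross q h2⟩

theorem a4_nn (q : I) (r : ℕ) : 0 ≤ a4 q r := add_nonneg Pr_nonneg Pr_nonneg

end Pool.Agent.H83.SK

end

section

/-!
# Seals for site percolation
-/

set_option autoImplicit false

open MeasureTheory ProbabilityTheory unitInterval

namespace Pool.Agent.H38.N59

open Pool.Agent.H89.Perc
open Pool.Agent.H83.SK (sv sit sit_true RSWreg)
open Pool.Agent.H59.EX (LocS inE touch clus closeS Side T Mouth Fence dom pb grid)

end Pool.Agent.H38.N59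

end

section

/-!
# Outward separation for sites: stage 4
-/

set_option autoImplicit false

open MeasureTheory ProbabilityTheory unitInterval

namespace Pool.Agent.H38.N59

open Pool.Agent.H89.Perc
open Pool.Agent.H61.NC hiding RSWreg
open Pool.Agent.H83.SK (sv sit sit_true RSWreg)
open Pool.Agent.H59.EX (LocS inE touch clus closeS Side T Mouth Fence dom CorrData CorrSep mem_sphere_of_joins markov_indep grid exists_grid card_grid)

end Pool.Agent.H38.N59

end

section

/-!
# Outward separation for sites: stage 2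
-/

set_option autoImplicit false

open MeasureTheory ProbabilityTheory unitInterval

namespace Pool.Agent.H38.N59

open Pool.Agent.H89.Perc
open Pool.Agent.H61.NC hiding RSWreg
open Pool.Agent.H83.SK (sv sit sit_true RSWreg)
open Pool.Agent.H59.EX (LocS inE touch clus closeS Side T Mouth Fence dom CorrData CorrSep mem_sphere_of_joins markov_indep grid exists_grid card_grid)

end Pool.Agent.H38.N59

end

section

/-!
# Probability of the crossing events of the corridors
-/

open MeasureTheory ProbabilityTheory unitInterval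

namespace Pool.Agent.H83.SK.NG

open Pool.Agent.H59.EX

open Pool.Agent.H89.Perc
open Pool.Agent.H29.Sep (Circ)

namespace GeoQ

end GeoQ

open GeoQ

end Pool.Agent.H83.SK.NG

end

section

/-!
# Corridors for the second point
-/

open MeasureTheory ProbabilityTheory unitInterval

namespace Pool.Agent.H83.SK.NG

open Pool.Agent.H59.EX

open Pool.Agent.H89.Perc

end Pool.Agent.H83.SK.NG

end

section

/-!
# The straight corridors of the moves, probabilities
-/

open MeasureTheory ProbabilityTheory unitInterval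

namespace Pool.Agent.H83.SK.NG

open Pool.Agent.H59.EX

open Pool.Agent.H89.Perc Pool.Agent.H61.NC
open Pool.Agent.H85.Strict (hv_meet)

theorem prob_move (c : ℝ) (hc : 0 < c) (K : ℕ) : ∃ c' : ℝ, 0 < c' ∧ ∀ (d : Side) (k n : ℕ)
    (q : I), 4 ≤ k → k ≤ K * n → RSWreg c n q → c' ≤ Pr q (NM d k) ∧ c' ≤ Pr q (NT k) := by
  classical
  obtain ⟨c₀, hc₀, h⟩ := Pool.Agent.H83.SK.rect_lower c hc (32 * K + 20)
  refine ⟨min (c₀ * c₀) (c₀ * (c₀ * (c₀ * (c₀ * c₀)))), by positivity, ?_⟩
  intro d k n q hk hkn hreg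
  have hn : 1 ≤ n := by
    rcases Nat.eq_zero_or_pos n with h0 | h0
    · subst h0
      omega
    · exact h0
  have hknZ : (k : ℤ) ≤ K * n := by exact_mod_cast hkn
  have hK0 : (0 : ℤ) ≤ K := by positivity
  have hn0 : (0 : ℤ) ≤ n := by positivity
  have hl : ∀ a b y z : ℤ, a ≤ b → y < z → b - a ≤ 20 * (z - y) → z - y ≤ 32 * k →
      c₀ ≤ Pr q {ω | HCross ω a b y z} ∧ c₀ ≤ Pr q {ω | VCross ω y z a b} := by
    intro a b y z h1 h2 h3 h4
    refine h n q hn hreg a b y z h1 h2 ?_ ?_
    · push_cast
      nlinarith only [h3, hK0, h2, mul_nonneg hK0 (show (0 : ℤ) ≤ z - y by omega)]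
    · push_cast
      nlinarith only [hkn, hn, h4, mul_nonneg hK0 hn0]
  have hH : ∀ a b y z : ℤ, a ≤ b → y < z → b - a ≤ 20 * (z - y) → z - y ≤ 32 * k →
      LocalOn (eRect a b y z) {ω | HCross ω a b y z} ∧ Incr {ω | HCross ω a b y z} ∧
        c₀ ≤ Pr q {ω | HCross ω a b y z} :=
    fun a b y z h1 h2 h3 h4 => ⟨ms_local_h _ _ _ _, mt_incr_h, (hl a b y z h1 h2 h3 h4).1⟩
  have hV : ∀ y z a b : ℤ, a ≤ b → y < z → b - a ≤ 20 * (z - y) → z - y ≤ 32 * k →
      LocalOn (eRect y z a b) {ω | VCross ω y z a b} ∧ Incr {ω | VCross ω y z a b} ∧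
        c₀ ≤ Pr q {ω | VCross ω y z a b} :=
    fun y z a b h1 h2 h3 h4 => ⟨ms_local_v _ _ _ _, mt_incr_v, (hl a b y z h1 h2 h3 h4).2⟩
  have p2 : 0 ≤ c₀ * c₀ := by positivity
  have p3 : 0 ≤ c₀ * (c₀ * c₀) := by positivity
  have p4 : 0 ≤ c₀ * (c₀ * (c₀ * c₀)) := by positivity
  constructor
  · refine (min_le_left _ _).trans ?_
    cases d
    · exact (ms_and hc₀.le hc₀.le
        (hH (28 * k) (144 * k) (-(3 * k)) (3 * k) (by omega) (by omega) (by omega) (by omega))
        (hV (112 * k) (144 * k) (-(12 * k)) (12 * k) (by omega) (by omega) (by omega)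
          (by omega))).2.2
    · exact (ms_and hc₀.le hc₀.le
        (hV (-(3 * k)) (3 * k) (28 * k) (144 * k) (by omega) (by omega) (by omega) (by omega))
        (hH (-(12 * k)) (12 * k) (112 * k) (144 * k) (by omega) (by omega) (by omega)
          (by omega))).2.2
    · exact (ms_and hc₀.le hc₀.le
        (hH (-(144 * k)) (-(28 * k)) (-(3 * k)) (3 * k) (by omega) (by omega) (by omega)
          (by omega))
        (hV (-(144 * k)) (-(112 * k)) (-(12 * k)) (12 * k) (by omega) (by omega) (by omega)
          (by omega))).2.2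
    · exact (ms_and hc₀.le hc₀.le
        (hV (-(3 * k)) (3 * k) (-(144 * k)) (-(28 * k)) (by omega) (by omega) (by omega)
          (by omega))
        (hH (-(12 * k)) (12 * k) (-(144 * k)) (-(112 * k)) (by omega) (by omega) (by omega)
          (by omega))).2.2
  · refine (min_le_right _ _).trans ?_
    exact (ms_and hc₀.le p4
      (hH (28 * k) (64 * k) (-(3 * k)) (3 * k) (by omega) (by omega) (by omega) (by omega))
      (ms_and hc₀.le p3
        (hV (60 * k) (64 * k) (-(3 * k)) (64 * k) (by omega) (by omega) (by omega) (by omega))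
        (ms_and hc₀.le p2
          (hH (-(3 * k)) (64 * k) (60 * k) (64 * k) (by omega) (by omega) (by omega) (by omega))
          (ms_and hc₀.le hc₀.le
            (hV (-(3 * k)) (3 * k) (60 * k) (144 * k) (by omega) (by omega) (by omega) (by omega))
            (hH (-(12 * k)) (12 * k) (112 * k) (144 * k) (by omega) (by omega) (by omega)
              (by omega)))))).2.2

end Pool.Agent.H83.SK.NG

end

section

/-!
# Site percolation on the torus: separated four arms, definitions

The torus of side `N` is `ℤ²` with the periodic configuration `per N ω = pb (modE N) ω` of sites. The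
source is the closed site `0` with two of its neighbours; the first neighbour has its mouth in the
west, the second one in the east. The corridor is the horizontal strip `[28 k, N - 28 k] × [-3 k,
3 k]` from the east target to the translate by `(N, 0)` of the west target.
-/

set_option autoImplicit false

open MeasureTheory ProbabilityTheory unitInterval

namespace Pool.Agent.H83.PST

open Pool.Agent.H89.Perc
open Pool.Agent.H61.NC (modE)
open Pool.Agent.H83.SK (sv sit sit_true RSWreg)
open Pool.Agent.H59.EX (LocS inE touch clus closeS Side T Mouth Fence dom pb grid)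
open Pool.Agent.H26.ST (Cor PerInv sh TD Rel1 In)

end Pool.Agent.H83.PST

end
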