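import Pool.Agent.H94.BG.H31.PT.M07_6
import Pool.Agent.H94.BG.H31.PT.M08_6
import Pool.Agent.H94.BG.H31.PT.M10
import Pool.Agent.H94.BG.H31.PT.M16_2
import Pool.Agent.H94.BG.H31.PT.M18_3
import Pool.Agent.H94.BG.H31.PT.M18_4
import Pool.Agent.H94.BG.M11

/-! The parts of this file: H83.Site.PcRange, H92.SN.A4B, H38.SK.Dict, H38.SK.WindT, H38.SK.WindP, H92.SN.TSym, H83.SK.P29.A4Low, H38.SK.N59.Seal, H38.SK.N59.St4, H38.SK.N59.St2, H38.SK.N59.GeoP, H38.SK.N59.GeoAll, H38.SK.N59.MoveStr, H83.SK.PST.Defs. -/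

section

/-!
# The critical density is neither zero nor one
-/

set_option autoImplicit false

open MeasureTheory ProbabilityTheory unitInterval

namespace Pool.Agent.H83.Site

open Pool.Agent.H89.Perc

end Pool.Agent.H83.Site

end

section

/-!
# Basic properties of the four-arm event of a site, in the plane and on the torus
-/

set_option autoImplicit false

open MeasureTheory ProbabilityTheory unitInterval

namespace Pool.Agent.H92.SN

open Pool.Agent.H89.Perc
open Pool.Agent.H61.NC (modE fill mid)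
open Pool.Agent.H83.SK (sv sit)
open Pool.Agent.H90.AL (dT)

theorem localOn_A4T (N : ℕ) (v : Vert) (r : ℕ) :
    LocalOn ((sBall v r).image (modE N)) (A4T N v r) := by
  intro w w' h hw
  refine localOn_sitA4 v r _ _ (fun e he => ?_) hw
  exact h _ (Finset.mem_image_of_mem (modE N) he)

theorem localOn_A4T' {N : ℕ} (hN : 1 ≤ N) (v : Vert) (r : ℕ) :
    LocalOn ((tSites N).filter fun g => dT N (src g) v ≤ r) (A4T N v r) := by
  refine (localOn_A4T N v r).mono ?_
  intro g hg
  rw [Finset.mem_image] at hg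
  obtain ⟨e, he, rfl⟩ := hg
  rw [mem_sBall] at he
  have h1 := Pool.Agent.H90.AL.modE_mem hN e
  rw [Pool.Agent.H90.AL.mem_tEdges_iff] at h1
  rw [Finset.mem_filter, mem_tSites]
  refine ⟨⟨h1.1, h1.2, ?_⟩, ?_⟩
  · exact he.2
  · obtain ⟨a, b, h⟩ := Pool.Agent.H90.AL.src_modE (N := N) e
    exact Pool.Agent.H90.AL.dT_le_of hN a b (by rw [h]; exact he.1)

theorem Pr_A4T (q : I) {N : ℕ} (v : Vert) {r : ℕ} (h : 2 * r < N) :
    Pr q (A4T N v r) = a4 q r := by
  rw [← Pr_A4 q v r]
  unfold Pool.Agent.H83.SK.Pr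
  rw [← Pr_comp (localOn_sitA4 v r) (modE_injOn_sBall v h)]
  rfl

/-- The density in the box-crossing regime is bounded away from `0` and `1`. -/
theorem sreg_mem {c : ℝ} (hc : 0 < c) {n : ℕ} (hn : 1 ≤ n) {q : I} (h : SReg c n q) :
    c / 10 ≤ (q : ℝ) ∧ c / 10 ≤ 1 - (q : ℝ) := by
  obtain ⟨h1, h2⟩ := h 1 le_rfl hn
  have k1 : ∀ e : Edge, Pr q {w | w e = true} = q := by
    intro e
    have hloc : LocalOn {e} {w : Config | w e = true} := by
      intro w w' h' hw
      rw [Set.mem_ofPred_eq, ← h' e (Finset.mem_singleton_self e)]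
      exact hw
    rw [Pr_eq_update hloc e]
    have e1 : {w : Config | Function.update w e true ∈ {w : Config | w e = true}} = Set.univ := by
      ext w; simp
    have e2 : {w : Config | Function.update w e false ∈ {w : Config | w e = true}} = ∅ := by
      ext w; simp
    rw [e1, e2, Pr_univ]
    simp [Pool.Agent.H89.Perc.Pr]
  have k2 : ∀ e : Edge, Pr q {w | w e = false} = 1 - q := by
    intro e
    have hloc : LocalOn {e} {w : Config | w e = false} := by
      intro w w' h' hw
      rw [Set.mem_ofPred_eq, ← h' e (Finset.mem_singleton_self e)]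
      exact hw
    rw [Pr_eq_update hloc e]
    have e1 : {w : Config | Function.update w e true ∈ {w : Config | w e = false}} = ∅ := by
      ext w; simp
    have e2 : {w : Config | Function.update w e false ∈ {w : Config | w e = false}} =
        Set.univ := by
      ext w; simp
    rw [e1, e2, Pr_univ]
    simp [Pool.Agent.H89.Perc.Pr]
  constructor
  · have h3 : Pool.Agent.H83.SK.Pr q {ω | HCross ω 0 (4 * (1 : ℕ)) 0 (1 : ℕ)} ≤
        Pr q ({w | w (0, 0, false) = true} ∪ {w | w (0, 1, false) = true}) := by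
      refine Pr_mono ?_
      rintro w ⟨u, v, hu, hv, hc'⟩
      have huv : u ≠ v := by
        rintro rfl
        rw [hu] at hv
        simp at hv
      obtain ⟨w1, w2, -, hst, -, -⟩ := hc'.exists_exit (T := {u}) rfl
        (by simpa using Ne.symm huv)
      have hmem := hc'.mem_left
      obtain ⟨x, x', h4, h5, h6, -⟩ := hc'.exists_exit (T := {u}) rfl (by simpa using Ne.symm huv)
      have hx : x = u := h4.mem_right.2
      subst hx
      obtain ⟨-, -, e, he, ho⟩ := h5
      rw [Pool.Agent.H83.SK.sit_true] at ho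
      have hopen : w (sv x) = true := by
        rcases he with ⟨h7, -⟩ | ⟨h7, -⟩
        · rw [h7]; exact ho.1
        · rw [h7]; exact ho.2
      simp only [rect, Set.mem_ofPred_eq] at hmem
      obtain ⟨a, b⟩ := x
      simp only at hu hmem
      subst hu
      have hb : b = 0 ∨ b = 1 := by
        have := hmem.2.2.1
        have := hmem.2.2.2
        push_cast at this
        omega
      rcases hb with hb | hb
      · left
        subst hb
        exact hopen
      · right
        subst hb
        exact hopen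
    have h4 := Pr_union_le (p := q) (A := {w : Config | w (0, 0, false) = true})
      (B := {w : Config | w (0, 1, false) = true})
    rw [k1, k1] at h4
    have := q.2.1
    linarith only [hc, h1, h3, h4]
  · have h3 : Pool.Agent.H83.SK.Pr q {ω | ¬ VCross ω 0 (4 * (1 : ℕ)) 0 (1 : ℕ)} ≤
        Pr q ({w | w (0, 0, false) = false} ∪ {w | w (0, 1, false) = false}) := by
      refine Pr_mono ?_
      intro w hw
      by_contra hno
      simp only [Set.mem_union, Set.mem_ofPred_eq, not_or, Bool.not_eq_false] at hno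
      apply hw
      refine ⟨(0, 0), (0, 1), rfl, by simp, Step.conn ⟨?_, ?_, (0, 0, true), Or.inl ⟨rfl, ?_⟩, ?_⟩⟩
      · simp [rect]
      · simp [rect]
      · simp [tgt]
      · rw [Pool.Agent.H83.SK.sit_true]
        exact ⟨hno.1, by simpa [tgt, sv] using hno.2⟩
    have h4 := Pr_union_le (p := q) (A := {w : Config | w (0, 0, false) = false})
      (B := {w : Config | w (0, 1, false) = false})
    rw [k2, k2] at h4
    have := q.2.2
    linarith only [hc, h2, h3, h4]

theorem sreg_anti {c : ℝ} {n m : ℕ} {q : I} (h : SReg c n q) (hm : m ≤ n) : SReg c m q :=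
  Pool.Agent.H83.SK.rswreg_mono h hm

end Pool.Agent.H92.SN

end

section

/-!
# Dictionary between the centred lattice and the induced bond configuration
-/

set_option autoImplicit false

open MeasureTheory ProbabilityTheory unitInterval

namespace Pool.Agent.H83.SK.Dict

open Pool.Agent.H89.Perc Pool.Agent.H83.Site

variable {ω : Config} {S : Set Vert} {T : Set TV} {a b c d : ℤ} {p q : I}

theorem sit_joins {e : Edge} {u v : Vert} (h : Joins e u v) :
    sit ω e = true ↔ ω (sv u) = true ∧ ω (sv v) = true := by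
  rw [sit_true]
  rcases h with ⟨h1, h2⟩ | ⟨h1, h2⟩ <;> rw [h1, h2]
  exact and_comm

/-! ### Crossings -/

/-! ### Probabilities -/

/-! ### The box-crossing regime -/

/-! ### Arms -/

end Pool.Agent.H83.SK.Dict

end

section

/-!
# Winding paths of site percolation on the torus
-/

set_option autoImplicit false

open MeasureTheory ProbabilityTheory unitInterval

namespace Pool.Agent.H83.SK.WG

open Pool.Agent.H89.Perc Pool.Agent.H83.Site Pool.Agent.H83.SK.Dict
open Pool.Agent.H92.SN (WindS tSites)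

theorem incr_windS (N : ℕ) : Incr (WindS N) := by
  rintro ω ω' h ⟨u, a, b, ha, hc⟩
  refine ⟨u, a, b, ha, hc.mono le_rfl ?_⟩
  exact sit_mono fun e he => h _ he

/-! ### Periodic configurations -/

/-! ### Winding paths from crossings -/

end Pool.Agent.H83.SK.WG

end

section

/-!
# The probability of winding for site percolation on the torus
-/

set_option autoImplicit false

open MeasureTheory ProbabilityTheory unitInterval

namespace Pool.Agent.H83.SK.WG

open Pool.Agent.H89.Perc Pool.Agent.H83.Site Pool.Agent.H83.SK.Dict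
open Pool.Agent.H92.SN (WindS tSites)

variable {q : I} {N : ℕ} {a b c d : ℤ}

/-! ### Crossings at all places -/

/-! ### The four crossings -/

section
variable {e : ℝ} {h m L : ℤ}

end

/-! ### The box-crossing regime -/

/-! ### Good scales -/

end Pool.Agent.H83.SK.WG

end

section

/-!
# The winding event of the torus and its translation invariance
-/

set_option autoImplicit false

open MeasureTheory ProbabilityTheory unitInterval

namespace Pool.Agent.H92.SN

open Pool.Agent.H89.Perc
open Pool.Agent.H61.NC (fill mid upd Joint PrR' dist0)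
open Pool.Agent.H83.SK (sv sit)

private theorem tSym_upd {N : ℕ} (hN : 1 ≤ N) (z : Vert) {e f : Edge} (he : e ∈ tSites N)
    (hf : f ∈ tSites N) (a b : Bool) (w : Config) :
    (fun x => w (torusSym_tau N z x)) ∈ upd (upd (WindS N) e a) f b ↔
      w ∈ upd (upd (WindS N) (torusSym_tau N z e) a) (torusSym_tau N z f) b := by
  rw [tSym_mem_upd, tSym_mem_upd, ← windS_tau N z
    (Function.update (Function.update w (torusSym_tau N z f) b) (torusSym_tau N z e) a)]
  have key : ∀ x ∈ tSites N,
      Function.update (Function.update w (torusSym_tau N z f) b) (torusSym_tau N z e) a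
        (torusSym_tau N z x) =
      Function.update (Function.update (fun x => w (torusSym_tau N z x)) f b) e a x := by
    intro x hx
    by_cases hxe : x = e
    · subst hxe
      rw [Function.update_self, Function.update_self]
    · have h2 : torusSym_tau N z x ≠ torusSym_tau N z e := fun h =>
        hxe (tau_injOn N z hx he h)
      rw [Function.update_of_ne h2, Function.update_of_ne hxe]
      by_cases hxf : x = f
      · subst hxf
        rw [Function.update_self, Function.update_self]
      · have h3 : torusSym_tau N z x ≠ torusSym_tau N z f := fun h =>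
          hxf (tau_injOn N z hx hf h)
        rw [Function.update_of_ne h3, Function.update_of_ne hxf]
  exact ⟨fun h1 => localOn_WindS hN _ _ (fun x hx => (key x hx).symm) h1,
    fun h1 => localOn_WindS hN _ _ key h1⟩

private theorem tSym_joint {N : ℕ} (hN : 1 ≤ N) (q : I) (z : Vert) {e f : Edge}
    (he : e ∈ tSites N) (hf : f ∈ tSites N) :
    Pr q (Joint (WindS N) (torusSym_tau N z e) (torusSym_tau N z f)) =
      Pr q (Joint (WindS N) e f) := by
  rw [← Pr_comp (localOn_Joint (localOn_WindS hN) e f) (tau_injOn N z)]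
  congr 1
  ext ω
  have h := fun a b => tSym_upd hN z he hf a b ω
  unfold Joint
  rw [Set.mem_ofPred_eq]
  simp only [Set.mem_union, Set.mem_sdiff, Set.mem_inter_iff, h]

theorem sT_nonneg (q : I) (N : ℕ) : 0 ≤ sT q N := pivot_nonneg_of_incr (incr_WindS N) q _

/-- The sum over pairs is a sum over pairs with first site in the middle. -/
theorem sum_joint {N : ℕ} (hN : 1 ≤ N) (q : I) :
    ∑ e ∈ tSites N, ∑ f ∈ (tSites N).erase e, Pr q (Joint (WindS N) e f) =
      (N : ℝ) ^ 2 * ∑ f ∈ (tSites N).erase (cE N), Pr q (Joint (WindS N) (cE N) f) := by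
  rw [← card_tSites, ← nsmul_eq_mul, ← Finset.sum_const]
  refine Finset.sum_congr rfl fun e he => ?_
  set z : Vert := (e.1 - mid N, e.2.1 - mid N) with hz
  have hτ : torusSym_tau N z (cE N) = e := tau_cE he
  symm
  refine Finset.sum_bij (fun f _ => torusSym_tau N z f) ?_ ?_ ?_ ?_
  · intro f hf
    rw [Finset.mem_erase] at hf ⊢
    refine ⟨fun h => hf.1 ?_, tau_mem hN z (mem_tSites.1 hf.2).2.2⟩
    refine tau_injOn N z hf.2 (cE_mem hN) ?_
    rw [h, hτ]
  · intro f hf f' hf' h
    exact tau_injOn N z (Finset.mem_of_mem_erase hf) (Finset.mem_of_mem_erase hf') h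
  · intro f hf
    rw [Finset.mem_erase] at hf
    have h1 : f ∈ (tSites N).image (torusSym_tau N z) := by rw [tSym_image hN z]; exact hf.2
    obtain ⟨g, hg, hgf⟩ := Finset.mem_image.1 h1
    refine ⟨g, Finset.mem_erase.2 ⟨fun h => hf.1 ?_, hg⟩, hgf⟩
    rw [← hgf, h, hτ]
  · intro f hf
    have h1 := tSym_joint hN q z (cE_mem hN) (Finset.mem_of_mem_erase hf)
    rw [hτ] at h1
    exact h1.symm

/-- The block event depends only on the sites outside the block. -/
theorem localOn_BlockPiv {N : ℕ} (hN : 1 ≤ N) (R : ℕ) :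
    LocalOn (tSites N \ blkS N R) (BlockPiv N R) := by
  intro ω ω' h hω
  have key : ∀ b, ∀ e ∈ tSites N, fill (blkS N R) b ω e = fill (blkS N R) b ω' e := by
    intro b e he
    by_cases hb : e ∈ blkS N R
    · rw [fill_mem hb, fill_mem hb]
    · rw [fill_notMem hb, fill_notMem hb]
      exact h e (Finset.mem_sdiff.2 ⟨he, hb⟩)
  exact ⟨localOn_WindS hN _ _ (key true) hω.1,
    fun h' => hω.2 (localOn_WindS hN _ _ (fun e he => (key false e he).symm) h')⟩

end Pool.Agent.H92.SN

end

section

/-!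
# Site percolation, small scales: finite energy
-/

open MeasureTheory ProbabilityTheory unitInterval

namespace Pool.Agent.H83.SK

open Pool.Agent.H89.Perc Pool.Agent.H29.Sep
open Pool.Agent.H59.EX (Src Four closeS_true)

theorem a4_le_two (q : I) (r : ℕ) : a4 q r ≤ 2 := by
  have h1 : Pr q (Four (s4 false) r) ≤ 1 := Pr_le_one
  have h2 : Pr q (Four (s4 true) r) ≤ 1 := Pr_le_one
  unfold a4
  linarith

theorem four_anti (b : Bool) {r r' : ℕ} (h1 : 1 ≤ r) (h : r ≤ r') :
    Four (s4 b) r' ⊆ Four (s4 b) r := by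
  rcases h.eq_or_lt with h0 | h0
  · subst h0; exact le_rfl
  have hsub : ball (0 : Vert) r ⊆ ball 0 r' := by
    intro w hw
    simp only [mem_ball] at hw ⊢
    omega
  have hout : ∀ u ∈ sphere (0 : Vert) r', u ∉ ball (0 : Vert) r := by
    rintro u ⟨hu1, hu2⟩ hu3
    simp only [mem_ball] at hu1 hu3
    omega
  rintro ω ⟨⟨u, hu, h2⟩, ⟨u', hu', h3⟩, h4⟩
  obtain ⟨x, hx, hcx⟩ := h2.to_sphere (v := 0) (r := r) (s4_mem b h1).1 (Or.inl (hout u hu))
  obtain ⟨x', hx', hcx'⟩ := h3.to_sphere (v := 0) (r := r) (s4_mem b h1).2 (Or.inl (hout u' hu'))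
  exact ⟨⟨x, hx, hcx.mono_set Set.inter_subset_right⟩,
    ⟨x', hx', hcx'.mono_set Set.inter_subset_right⟩, fun h5 => h4 (h5.mono_set hsub)⟩

theorem a4_anti {q : I} {r r' : ℕ} (h1 : 1 ≤ r) (h : r ≤ r') : a4 q r' ≤ a4 q r :=
  add_le_add (Pr_mono (four_anti false h1 h)) (Pr_mono (four_anti true h1 h))

private theorem axis_sub (r : ℕ) (hr : 1 ≤ r) {ω : Config}
    (hω : ∀ e ∈ eRect (-r) r (-r) r, ω e = axis e) : sit ω ∈ Four (s4 false) r := by
  have hr' : (1 : ℤ) ≤ r := by exact_mod_cast hr
  have key : ∀ v : Vert, v ∈ ball (0 : Vert) r → (ω (sv v) = true ↔ v.2 = 0) := by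
    intro v hv
    have h1 : sv v ∈ eRect (-(r : ℤ)) r (-(r : ℤ)) r := by
      rw [mem_eRect, show src (sv v) = v from rfl]
      simpa [ball] using hv
    rw [hω _ h1]
    simp [axis, sv]
  have hstep : ∀ a b : Vert, Step ((s4 false).cut (sit ω)) (ball 0 r) a b →
      a.2 = 0 ∧ b.2 = 0 ∧ a ≠ 0 ∧ b ≠ 0 := by
    rintro a b ⟨ha, hb, e, he, ho⟩
    unfold Src.cut at ho
    rw [closeS_true, sit_true] at ho
    obtain ⟨⟨o1, o2⟩, o3⟩ := ho
    have hE : ∀ e' : Edge, src e' = 0 ∨ tgt e' = 0 → e' ∈ ((s4 false).E0 : Set Edge) := by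
      rintro ⟨x, y, d⟩ h
      simp only [s4, star0, Finset.coe_insert, Finset.coe_singleton, Set.mem_insert_iff,
        Set.mem_singleton_iff]
      cases d
      · simp only [src, tgt, Bool.false_eq_true, if_false, Prod.ext_iff, Prod.fst_zero,
          Prod.snd_zero] at h
        rcases h with ⟨h1, h2⟩ | ⟨h1, h2⟩
        · left; rw [h1, h2]
        · right; right; left
          rw [h2, show x = -1 by omega]
      · simp only [src, tgt, if_true, Prod.ext_iff, Prod.fst_zero, Prod.snd_zero] at h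
        rcases h with ⟨h1, h2⟩ | ⟨h1, h2⟩
        · right; left; rw [h1, h2]
        · right; right; right
          rw [h1, show y = -1 by omega]
    rcases he with ⟨h1, h2⟩ | ⟨h1, h2⟩
    · rw [← h1] at o1
      rw [← h2] at o2
      exact ⟨(key a ha).1 o1, (key b hb).1 o2, fun h => o3 (hE e (Or.inl (h1 ▸ h))),
        fun h => o3 (hE e (Or.inr (h2 ▸ h)))⟩
    · rw [← h2] at o1
      rw [← h1] at o2
      exact ⟨(key a ha).1 o2, (key b hb).1 o1, fun h => o3 (hE e (Or.inr (h1 ▸ h))),
        fun h => o3 (hE e (Or.inl (h2 ▸ h)))⟩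
  have hline : ∀ (x : ℤ), 1 ≤ x → x < r → ((s4 false).cut (sit ω)) (x, 0, false) = true := by
    intro x hx1 hx2
    unfold Src.cut
    rw [closeS_true, sit_true]
    refine ⟨⟨(key _ ?_).2 rfl, (key _ ?_).2 rfl⟩, ?_⟩
    · simp only [src, mem_ball, Prod.fst_zero, Prod.snd_zero]; omega
    · simp only [tgt, mem_ball, Prod.fst_zero, Prod.snd_zero, Bool.false_eq_true, if_false]; omega
    · simp only [s4, star0, Finset.coe_insert, Finset.coe_singleton, Set.mem_insert_iff,
        Set.mem_singleton_iff, Prod.mk.injEq]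
      omega
  have hline' : ∀ (x : ℤ), x < -1 → -(r : ℤ) ≤ x →
      ((s4 false).cut (sit ω)) (x, 0, false) = true := by
    intro x hx1 hx2
    unfold Src.cut
    rw [closeS_true, sit_true]
    refine ⟨⟨(key _ ?_).2 rfl, (key _ ?_).2 rfl⟩, ?_⟩
    · simp only [src, mem_ball, Prod.fst_zero, Prod.snd_zero]; omega
    · simp only [tgt, mem_ball, Prod.fst_zero, Prod.snd_zero, Bool.false_eq_true, if_false]; omega
    · simp only [s4, star0, Finset.coe_insert, Finset.coe_singleton, Set.mem_insert_iff,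
        Set.mem_singleton_iff, Prod.mk.injEq]
      omega
  refine ⟨⟨((r : ℤ), 0), ?_, ?_⟩, ⟨(-(r : ℤ), 0), ?_, ?_⟩, ?_⟩
  · refine ⟨?_, Or.inr (Or.inl (by simp))⟩
    simp only [mem_ball, Prod.fst_zero, Prod.snd_zero]; omega
  · have : ∀ n : ℕ, (n : ℤ) + 1 ≤ r →
        Conn ((s4 false).cut (sit ω)) (ball 0 r) (1, 0) ((n : ℤ) + 1, 0) := by
      intro n
      induction n with
      | zero =>
        intro _
        have : (1, 0) ∈ ball (0 : Vert) r := (s4_mem false hr).1
        simpa using Conn.refl this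
      | succ n ih =>
        intro hn
        have h1 := ih (by push_cast at hn; omega)
        refine h1.tail ⟨h1.mem_right, ?_, ((n : ℤ) + 1, 0, false), Or.inl ⟨rfl, ?_⟩,
          hline _ (by omega) (by push_cast at hn; omega)⟩
        · simp only [mem_ball, Prod.fst_zero, Prod.snd_zero]; push_cast at hn ⊢; omega
        · simp only [tgt, Bool.false_eq_true, if_false]
          push_cast
          rfl
    have h2 := this (r - 1) (by omega)
    rw [show (((r - 1 : ℕ) : ℤ) + 1) = r by omega] at h2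
    exact h2
  · refine ⟨?_, Or.inl (by simp)⟩
    simp only [mem_ball, Prod.fst_zero, Prod.snd_zero]; omega
  · have : ∀ n : ℕ, (n : ℤ) + 1 ≤ r →
        Conn ((s4 false).cut (sit ω)) (ball 0 r) (-1, 0) (-((n : ℤ) + 1), 0) := by
      intro n
      induction n with
      | zero =>
        intro _
        have : (-1, 0) ∈ ball (0 : Vert) r := (s4_mem false hr).2
        simpa using Conn.refl this
      | succ n ih =>
        intro hn
        have h1 := ih (by push_cast at hn; omega)
        refine h1.tail ⟨h1.mem_right, ?_, (-((n : ℤ) + 1) - 1, 0, false), Or.inr ⟨?_, ?_⟩,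
          hline' _ (by omega) (by push_cast at hn; omega)⟩
        · simp only [mem_ball, Prod.fst_zero, Prod.snd_zero]; push_cast at hn ⊢; omega
        · simp only [tgt, Bool.false_eq_true, if_false]
          ext <;> simp
        · simp only [src]
          ext
          · push_cast; ring
          · rfl
    have h2 := this (r - 1) (by omega)
    rw [show (((r - 1 : ℕ) : ℤ) + 1) = r by omega] at h2
    exact h2
  · intro hc
    have hx : ∀ v : Vert, Conn ((s4 false).cut (sit ω)) (ball 0 r) (s4 false).x v → 1 ≤ v.1 := by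
      intro v hv
      refine hv.induction_right (P := fun v => 1 ≤ v.1) ?_ ?_
      · simp [s4]
      · intro a b _ hab ha
        obtain ⟨h1, h2, h3, h4⟩ := hstep a b hab
        have h5 := hab.fst_le
        by_contra h6
        apply h4
        ext
        · simp only [Prod.fst_zero]; omega
        · simpa using h2
    have := hx _ hc
    simp [s4] at this

/-- The four-arm probability at bounded scales is bounded below. -/
theorem a4_low (c : ℝ) (hc : 0 < c) (r : ℕ) (hr : 1 ≤ r) : ∃ c₀ : ℝ, 0 < c₀ ∧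
    ∀ (n : ℕ) (q : I), 1 ≤ n → RSWreg c n q → c₀ ≤ a4 q r := by
  refine ⟨(c / 16) ^ (eRect (-r) r (-r) r).card, by positivity, ?_⟩
  intro n q hn h
  obtain ⟨h1, h2⟩ := rswreg_density hn h
  have h3 := a4Low_cyl q (by positivity) h1 h2 axis (eRect (-r) r (-r) r)
  have h4 : Pool.Agent.H89.Perc.Pr q {ω | ∀ e ∈ eRect (-r) r (-r) r, ω e = axis e} ≤
      Pr q (Four (s4 false) r) := Pool.Agent.H89.Perc.Pr_mono fun ω hω => axis_sub r hr hω
  have h5 : 0 ≤ Pr q (Four (s4 true) r) := Pr_nonneg
  unfold a4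
  linarith only [h3, h4, h5]

end Pool.Agent.H83.SK

end

section

/-!
# Seals for site percolation
-/

set_option autoImplicit false

open MeasureTheory ProbabilityTheory unitInterval

namespace Pool.Agent.H38.N59

open Pool.Agent.H89.Perc
open Pool.Agent.H83.SK (sv sit sit_true RSWreg)
open Pool.Agent.H59.EX (LocS inE touch clus closeS Side T Mouth Fence dom pb grid)

/-- **Seal lemma.**  `η` is a configuration which is below `w` off `t`; open steps of `η` leave `S`
only at the vertices of `Ex`, to a site which is neither in `F` nor in `t`, and enter `F` from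
elsewhere only far from `Ex`; open sites off `S ∪ F` are not in `t`.  If `w` is sealed near `Ex`,
then the cluster of `S` stays near `S` and off `F`. -/
theorem seal_confine {η w : Config} {W S F Ex : Set Vert} {t : Set Edge} {G : Finset Vert}
    {ρ : ℕ} (hηw : ∀ a : Vert, sv a ∉ t → η (sv a) = true → w (sv a) = true)
    (hseal : w ∈ Seal G ρ t)
    (hG : ∀ a ∈ Ex, ∀ b, b ∈ ball a 1 → ∃ g ∈ G, b ∈ ball g ρ)
    (h1 : ∀ a b e, Joins e a b → η (sv a) = true → η (sv b) = true → a ∈ W → b ∈ W → a ∈ S →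
      b ∉ S → a ∈ Ex ∧ b ∉ F ∧ sv b ∉ t)
    (h2 : ∀ a b e, Joins e a b → η (sv a) = true → η (sv b) = true → a ∈ W → b ∈ W → a ∉ S →
      a ∉ F → b ∈ F → ∀ x ∈ Ex, b ∉ ball x (4 * ρ + 2))
    (h3 : ∀ a b e, Joins e a b → η (sv a) = true → η (sv b) = true → a ∈ W → b ∈ W → a ∉ S →
      a ∉ F → b ∉ S → b ∉ F → sv b ∉ t)
    {x z : Vert} (hx : x ∈ S) (h : Conn (sit η) W x z) :
    z ∈ S ∨ (z ∉ F ∧ ∃ a ∈ Ex, z ∈ ball a (4 * ρ + 1)) := by
  have key : z ∈ S ∨ (z ∉ S ∧ z ∉ F ∧ closeS t w (sv z) = true ∧ ∃ a ∈ Ex, ∃ b, b ∈ ball a 1 ∧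
      Conn (sit (closeS t w)) Set.univ b z) := by
    refine h.induction_right
      (P := fun z => z ∈ S ∨ (z ∉ S ∧ z ∉ F ∧ closeS t w (sv z) = true ∧ ∃ a ∈ Ex, ∃ b,
        b ∈ ball a 1 ∧ Conn (sit (closeS t w)) Set.univ b z)) (Or.inl hx) ?_
    rintro a b _ ⟨haW, hbW, e, hj, ho⟩ ih
    obtain ⟨hoa, hob⟩ := (sit_joins hj).1 ho
    have hopen : sv b ∉ t → closeS t w (sv b) = true := fun hbt =>
      closeS_true.2 ⟨hηw b hbt hob, hbt⟩
    by_cases hbS : b ∈ S
    · exact Or.inl hbS
    rcases ih with haS | ⟨haS, haF, hca, c, hc, c', hc', hcc⟩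
    · obtain ⟨k1, k2, k3⟩ := h1 a b e hj hoa hob haW hbW haS hbS
      exact Or.inr ⟨hbS, k2, hopen k3, a, k1, b, ball_of_joins hj.symm, Conn.refl trivial⟩
    · by_cases hbF : b ∈ F
      · exfalso
        obtain ⟨g, hg, hcg⟩ := hG c hc c' hc'
        have ha : a ∈ ball g (3 * ρ) := by
          by_contra ha
          exact hseal g hg c' hcg a ha hcc
        refine h2 a b e hj hoa hob haW hbW haS haF hbF c hc ?_
        have hab := ball_of_joins hj.symm
        rw [mem_ball] at ha hcg hc' hab ⊢
        push_cast at ha hc' hab ⊢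
        omega
      · have k := hopen (h3 a b e hj hoa hob haW hbW haS haF hbS hbF)
        exact Or.inr ⟨hbS, hbF, k, c, hc, c', hc', hcc.tail ⟨trivial, trivial, e, hj,
          (sit_joins hj).2 ⟨hca, k⟩⟩⟩
  rcases key with h | ⟨-, hF, -, a, ha, b, hb, hbc⟩
  · exact Or.inl h
  · refine Or.inr ⟨hF, a, ha, ?_⟩
    obtain ⟨g, hg, hag⟩ := hG a ha b hb
    have hz : z ∈ ball g (3 * ρ) := by
      by_contra hz
      exact hseal g hg b hag z hz hbc
    rw [mem_ball] at hz hag hb ⊢
    push_cast at hz hb ⊢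
    omega

theorem seal_anti {G : Finset Vert} {ρ : ℕ} {t : Set Edge} {w w' : Config}
    (h : w' ∈ Seal G ρ t) (hω : ∀ e, e ∉ t → w e = true → w' e = true) : w ∈ Seal G ρ t := by
  intro g hg u hu v hv hc
  refine h g hg u hu v hv (conn_mono le_rfl ?_ hc)
  intro e he
  rw [closeS_true] at he ⊢
  exact ⟨hω e he.2 he.1, he.2⟩

theorem locS_seal (G : Finset Vert) (ρ : ℕ) (t : Set Edge) : LocS tᶜ (Seal G ρ t) := by
  intro ω ω' h hω
  refine seal_anti hω fun e he ho => ?_
  rw [h e he]
  exact ho

theorem seal_decr (G : Finset Vert) (ρ : ℕ) (t : Set Edge) : Incr (Seal G ρ t)ᶜ := by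
  intro ω ω' h hω hω'
  exact hω (seal_anti hω' fun e _ he => h e he)

theorem mem_bF {g : Vert} {r : ℕ} {e : Edge} : e ∈ bF g r ↔ e ∈ vE (ball g r) := by
  classical
  simp only [bF, Finset.mem_filter, mem_eRect]
  exact and_comm

private theorem localOn_arm' (g : Vert) (k r : ℕ) :
    LocalOn (bF g r) {w | sit w ∈ (ArmBox g k r)ᶜ} := by
  intro w w' h hw hw'
  refine hw ?_
  obtain ⟨p, hp, u, hu, hc⟩ := hw'
  exact ⟨p, hp, u, hu, conn_congr (fun e he => (h e (mem_bF.2 he)).symm) hc⟩

/-- `Seal` is a local event. -/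
theorem localOn_seal (G : Finset Vert) (ρ : ℕ) : ∃ Λ : Finset Edge, ∀ t : Set Edge,
    LocalOn Λ (Seal G ρ t) := by
  classical
  refine ⟨G.biUnion fun g => bF g (3 * ρ + 1), fun t ω ω' h hω g hg u hu v hv hc => ?_⟩
  have hu' : u ∈ ball g (3 * ρ) := by
    rw [mem_ball] at hu ⊢
    push_cast
    omega
  obtain ⟨w, w', h1, h2, h3, -⟩ := hc.exists_exit hu' hv
  have hw : w ∈ ball g (3 * ρ) := h1.mem_right.2
  have hw1 : w ∈ ball g (3 * ρ + 1) := by
    rw [mem_ball] at hw ⊢
    push_cast at hw ⊢
    omega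
  have hw' : w' ∈ ball g (3 * ρ + 1) := by
    have k1 := h2.fst_le
    have k2 := h2.snd_le
    rw [mem_ball] at hw ⊢
    push_cast at hw ⊢
    omega
  have hsub : Set.univ ∩ ball g (3 * ρ) ⊆ ball g (3 * ρ + 1) := by
    rintro z ⟨-, hz⟩
    rw [mem_ball] at hz ⊢
    push_cast at hz ⊢
    omega
  have hc2 : Conn (sit (closeS t ω')) (ball g (3 * ρ + 1)) u w' :=
    (h1.mono_set hsub).tail ⟨hw1, hw', h2.2.2⟩
  have hc3 : Conn (sit (closeS t ω)) (ball g (3 * ρ + 1)) u w' := by
    refine conn_congr (fun e he => ?_) hc2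
    have := h e (Finset.mem_biUnion.2 ⟨g, hg, mem_bF.2 he⟩)
    simp only [closeS, this]
  exact hω g hg u hu w' h3 (hc3.mono_set (Set.subset_univ _))

/-- The intersection of the no-arm events is contained in the seal. -/
private theorem noarm_subset_seal (G : Finset Vert) (ρ : ℕ) (t : Set Edge) {w : Config}
    (h : ∀ g ∈ G, sit w ∈ (ArmBox g ρ (3 * ρ))ᶜ) : w ∈ Seal G ρ t := by
  intro g hg u hu v hv hc
  have hu' : u ∈ ball g (3 * ρ) := by
    rw [mem_ball] at hu ⊢
    push_cast
    omega
  have hc' : Conn (sit w) Set.univ u v := conn_mono le_rfl (fun e he => (closeS_true.1 he).1) hc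
  obtain ⟨x, hx, hcx⟩ := hc'.to_sphere (v := g) (r := 3 * ρ) hu' (Or.inl hv)
  exact h g hg ⟨u, hu, x, hx, hcx.mono_set Set.inter_subset_right⟩

/-- The same for a pulled back configuration, if `π` is injective on the sites of every
`ball g (3 ρ)`. -/
theorem seal_lower_pb (c : ℝ) (hc : 0 < c) (K M : ℕ) : ∃ c' : ℝ, 0 < c' ∧ ∀ (n ρ : ℕ) (q : I)
    (G : Finset Vert) (t : Set Edge) (π : Edge → Edge), 1 ≤ n → RSWreg c n q → 1 ≤ ρ →
      ρ ≤ K * n → G.card ≤ M → (∀ g ∈ G, Set.InjOn π (vE (ball g (3 * ρ)))) →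
      c' ≤ Pr q {ω | pb π ω ∈ Seal G ρ t} := by
  classical
  obtain ⟨c₀, hc₀, h0⟩ := Pool.Agent.H83.SK.noarm_lower c hc K
  refine ⟨(min c₀ 1) ^ M, pow_pos (lt_min hc₀ one_pos) _, ?_⟩
  intro n ρ q G t π hn hr hρ hρK hG hinj
  have hm0 : 0 ≤ min c₀ 1 := (lt_min hc₀ one_pos).le
  have h1 : (min c₀ 1) ^ M ≤ (min c₀ 1) ^ G.card :=
    pow_le_pow_of_le_one hm0 (min_le_right _ _) hG
  have hloc : ∀ g ∈ G, LocalOn ((bF g (3 * ρ)).image π)
      {ω | sit (pb π ω) ∈ (ArmBox g ρ (3 * ρ))ᶜ} := by
    intro g _ ω ω' h hω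
    exact localOn_arm' g ρ (3 * ρ) _ _
      (fun e he => h _ (Finset.mem_image_of_mem π he)) hω
  have hincr : ∀ g ∈ G, Incr ({ω | sit (pb π ω) ∈ (ArmBox g ρ (3 * ρ))ᶜ} : Set Config)ᶜ := by
    intro g _ ω ω' h hω hω'
    have h2 : sit (pb π ω) ∈ ArmBox g ρ (3 * ρ) := by
      by_contra hcon
      exact hω hcon
    exact hω' (incr_armBox g ρ (3 * ρ) _ _ (sit_mono fun e he => h _ he) h2)
  have hP : ∀ g ∈ G, min c₀ 1 ≤ Pr q {ω | sit (pb π ω) ∈ (ArmBox g ρ (3 * ρ))ᶜ} := by
    intro g hg
    have h2 : Pr q {ω | (fun e => ω (π e)) ∈ {w | sit w ∈ (ArmBox g ρ (3 * ρ))ᶜ}} =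
        Pr q {w | sit w ∈ (ArmBox g ρ (3 * ρ))ᶜ} := by
      refine Pr_comp (localOn_arm' g ρ (3 * ρ)) ?_
      intro a ha b hb hab
      exact hinj g hg (mem_bF.1 (Finset.mem_coe.1 ha)) (mem_bF.1 (Finset.mem_coe.1 hb)) hab
    have h3 := h0 n q hn hr g ρ hρ hρK
    refine (min_le_left _ _).trans (h3.trans (le_of_eq ?_))
    exact h2.symm
  have h4 : (min c₀ 1) ^ G.card ≤
      Pr q (⋂ g ∈ G, {ω | sit (pb π ω) ∈ (ArmBox g ρ (3 * ρ))ᶜ}) :=
    Pool.Agent.H29.Sep.fkg_decr_many (p := q) G
      (fun g => {ω | sit (pb π ω) ∈ (ArmBox g ρ (3 * ρ))ᶜ}) (fun g => (bF g (3 * ρ)).image π)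
      hm0 hloc hincr hP
  refine (h1.trans h4).trans (Pr_mono ?_)
  intro ω hω
  simp only [Set.mem_iInter] at hω
  exact noarm_subset_seal G ρ t fun g hg => hω g hg

theorem seal_lower (c : ℝ) (hc : 0 < c) (K M : ℕ) : ∃ c' : ℝ, 0 < c' ∧ ∀ (n ρ : ℕ) (q : I)
    (G : Finset Vert) (t : Set Edge), 1 ≤ n → RSWreg c n q → 1 ≤ ρ → ρ ≤ K * n → G.card ≤ M →
      c' ≤ Pr q (Seal G ρ t) := by
  obtain ⟨c', hc', h⟩ := seal_lower_pb c hc K M
  refine ⟨c', hc', fun n ρ q G t hn hr hρ hρK hG => ?_⟩
  exact h n ρ q G t id hn hr hρ hρK hG fun g _ => Set.injOn_id _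

end Pool.Agent.H38.N59

end

section

/-!
# Outward separation for sites: stage 4
-/

set_option autoImplicit false

open MeasureTheory ProbabilityTheory unitInterval

namespace Pool.Agent.H38.N59

open Pool.Agent.H89.Perc
open Pool.Agent.H61.NC hiding RSWreg
open Pool.Agent.H83.SK (sv sit sit_true RSWreg)
open Pool.Agent.H59.EX (LocS inE touch clus closeS Side T Mouth Fence dom CorrData CorrSep clus_sub clus_step clus_conn mem_clus_single fence_mono corr_inter corr_sub160 mem_sphere_of_joins markov_indep grid exists_grid card_grid)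

end Pool.Agent.H38.N59

end

section

/-!
# Outward separation for sites: stage 2
-/

set_option autoImplicit false

open MeasureTheory ProbabilityTheory unitInterval

namespace Pool.Agent.H38.N59

open Pool.Agent.H89.Perc
open Pool.Agent.H61.NC hiding RSWreg
open Pool.Agent.H83.SK (sv sit sit_true RSWreg)
open Pool.Agent.H59.EX (LocS inE touch clus closeS Side T Mouth Fence dom CorrData CorrSep clus_sub clus_step clus_conn mem_clus_single fence_mono corr_inter corr_sub160 mem_sphere_of_joins markov_indep grid exists_grid card_grid)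

end Pool.Agent.H38.N59

end

section

/-!
# Probability of the crossing events of the corridors
-/

open MeasureTheory ProbabilityTheory unitInterval

namespace Pool.Agent.H83.SK.NG

open Pool.Agent.H59.EX

open Pool.Agent.H89.Perc
open Pool.Agent.H29.Sep (Circ)

namespace GeoQ

end GeoQ

open GeoQ

end Pool.Agent.H83.SK.NG

end

section

/-!
# Corridors for the second point
-/

open MeasureTheory ProbabilityTheory unitInterval

namespace Pool.Agent.H83.SK.NG

open Pool.Agent.H59.EX

open Pool.Agent.H89.Perc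

end Pool.Agent.H83.SK.NG

end

section

/-!
# The straight corridors of the moves, probabilities
-/

open MeasureTheory ProbabilityTheory unitInterval

namespace Pool.Agent.H83.SK.NG

open Pool.Agent.H59.EX

open Pool.Agent.H89.Perc Pool.Agent.H61.NC
open Pool.Agent.H85.Strict (hv_meet)

end Pool.Agent.H83.SK.NG

end

section

/-!
# Site percolation on the torus: separated four arms, definitions

The torus of side `N` is `ℤ²` with the periodic configuration `per N ω = pb (modE N) ω` of sites. The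
source is the closed site `0` with two of its neighbours; the first neighbour has its mouth in the
west, the second one in the east. The corridor is the horizontal strip `[28 k, N - 28 k] × [-3 k,
3 k]` from the east target to the translate by `(N, 0)` of the west target.
-/

set_option autoImplicit false

open MeasureTheory ProbabilityTheory unitInterval

namespace Pool.Agent.H83.PST

open Pool.Agent.H89.Perc
open Pool.Agent.H61.NC (modE)
open Pool.Agent.H83.SK (sv sit sit_true RSWreg)
open Pool.Agent.H59.EX (LocS inE touch clus closeS Side T Mouth Fence dom pb grid)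
open Pool.Agent.H38.N59 (vE rv Src det Seal Four)
open Pool.Agent.H26.ST (Cor glu PerInv sh TD Rel1 In)
open Pool.Agent.H92.SN (WindS tSites)

/-- Seals and a closed vertical strip. -/
def HT (N k ρ K : ℕ) (S : Set Vert) : Set Config :=
  Seal (grid ρ K) ρ (det (modE N) .W .E k (CC N k) S) ∩ NoX N k

end Pool.Agent.H83.PST

end
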