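import Pool.Agent.H94.BG.H31.PT.M08_2
import Pool.Agent.H94.BG.H31.PT.M17
import Pool.Agent.H94.BG.H31.PT.M18_5
import Pool.Agent.H94.BG.M07
import Pool.Agent.H94.BG.M22

/-! The parts of this file: H83.Site.PcRange, H92.SN.A4B, H38.SK.Dict, H38.SK.WindT, H38.SK.WindP, H92.SN.TSym, H83.SK.P29.A4Low, H38.SK.N59.Seal, H38.SK.N59.St4, H38.SK.N59.St2, H38.SK.N59.GeoP, H38.SK.N59.GeoAll, H38.SK.N59.MoveStr, H83.SK.PST.Defs. -/

section

/-!
# The critical density is neither zero nor one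
-/

set_option autoImplicit false

open MeasureTheory ProbabilityTheory unitInterval

namespace Pool.Agent.H83.Site

open Pool.Agent.H89.Perc

end Pool.Agent.H83.Site

end

section

/-!
# Basic properties of the four-arm event of a site, in the plane and on the torus
-/

set_option autoImplicit false

open MeasureTheory ProbabilityTheory unitInterval

namespace Pool.Agent.H92.SN

open Pool.Agent.H89.Perc
open Pool.Agent.H61.NC (modE fill mid)
open Pool.Agent.H83.SK (sv sit)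
open Pool.Agent.H90.AL (dT)

end Pool.Agent.H92.SN

end

section

/-!
# Dictionary between the centred lattice and the induced bond configuration
-/

set_option autoImplicit false

open MeasureTheory ProbabilityTheory unitInterval

namespace Pool.Agent.H83.SK.Dict

open Pool.Agent.H89.Perc Pool.Agent.H83.Site

variable {ω : Config} {S : Set Vert} {T : Set TV} {a b c d : ℤ} {p q : I}

/-- An open path of the square lattice starting and ending at different vertices starts in an open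
site. -/
theorem open_of_conn {u v : Vert} (h : Conn (sit ω) S u v) (huv : u ≠ v) :
    ω (sv u) = true := by
  obtain ⟨h1, h2⟩ := h
  rcases Relation.ReflTransGen.cases_head h2 with h3 | ⟨w, h3, -⟩
  · exact absurd h3 huv
  · obtain ⟨-, -, e, he, ho⟩ := h3
    exact ((sit_joins he).1 ho).1

/-! ### Crossings -/

/-! ### Probabilities -/

/-! ### The box-crossing regime -/

/-! ### Arms -/

end Pool.Agent.H83.SK.Dict

end

section

/-!
# Winding paths of site percolation on the torus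
-/

set_option autoImplicit false

open MeasureTheory ProbabilityTheory unitInterval

namespace Pool.Agent.H83.SK.WG

open Pool.Agent.H89.Perc Pool.Agent.H83.Site Pool.Agent.H83.SK.Dict
open Pool.Agent.H92.SN (WindS tSites)

/-! ### Periodic configurations -/

/-! ### Winding paths from crossings -/

end Pool.Agent.H83.SK.WG

end

section

/-!
# The probability of winding for site percolation on the torus
-/

set_option autoImplicit false

open MeasureTheory ProbabilityTheory unitInterval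

namespace Pool.Agent.H83.SK.WG

open Pool.Agent.H89.Perc Pool.Agent.H83.Site Pool.Agent.H83.SK.Dict
open Pool.Agent.H92.SN (WindS tSites)

variable {q : I} {N : ℕ} {a b c d : ℤ}

/-! ### Crossings at all places -/

/-! ### The four crossings -/

section
variable {e : ℝ} {h m L : ℤ}

end

/-! ### The box-crossing regime -/

/-! ### Good scales -/

end Pool.Agent.H83.SK.WG

end

section

/-!
# The winding event of the torus and its translation invariance
-/

set_option autoImplicit false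

open MeasureTheory ProbabilityTheory unitInterval

namespace Pool.Agent.H92.SN

open Pool.Agent.H89.Perc
open Pool.Agent.H61.NC (fill mid upd Joint PrR' dist0)
open Pool.Agent.H83.SK (sv sit)

end Pool.Agent.H92.SN

end

section

/-!
# Site percolation, small scales: finite energy
-/

open MeasureTheory ProbabilityTheory unitInterval

namespace Pool.Agent.H83.SK

open Pool.Agent.H89.Perc Pool.Agent.H29.Sep
open Pool.Agent.H59.EX (Src Four closeS_true)

end Pool.Agent.H83.SK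

end

section

/-!
# Seals for site percolation
-/

set_option autoImplicit false

open MeasureTheory ProbabilityTheory unitInterval

namespace Pool.Agent.H38.N59

open Pool.Agent.H89.Perc
open Pool.Agent.H83.SK (sv sit sit_true RSWreg)
open Pool.Agent.H59.EX (LocS inE touch clus closeS Side T Mouth Fence dom pb grid)

end Pool.Agent.H38.N59

end

section

/-!
# Outward separation for sites: stage 4
-/

set_option autoImplicit false

open MeasureTheory ProbabilityTheory unitInterval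

namespace Pool.Agent.H38.N59

open Pool.Agent.H89.Perc
open Pool.Agent.H61.NC hiding RSWreg
open Pool.Agent.H83.SK (sv sit sit_true RSWreg)
open Pool.Agent.H59.EX (LocS inE touch clus closeS Side T Mouth Fence dom CorrData CorrSep clus_sub clus_step clus_conn mem_clus mem_clus_single conn_in_clus fence_trans fence_mono corr_inter corr_sub160 mem_sphere_of_joins markov_indep grid exists_grid card_grid)

variable {s : Src} {w ρ ρ' : ℕ} {v v' : Vert} {d d' : Side} {Z Zy : Set Vert} {Nev Ny : Set Config}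
  {q : I}

/-- The cluster of `y` in `ball 0 (8 w) ∪ Zy` off the set `H`, with `Zy` filled. -/
private noncomputable def st4_RR (s : Src) (w : ℕ) (Zy : Set Vert) (H : Set Vert) (ω : Config) :
    Set Vert :=
  clus (sit (fillS Zy (s.cut ω))) ((ball 0 (8 * w) ∪ Zy) \ H) {s.y}

/-- The pair of clusters. -/
private noncomputable def st4_X (s : Src) (w : ℕ) (Z Zy : Set Vert) (ω : Config) :
    Set Vert × Set Vert :=
  (SH s w Z ω, st4_RR s w Zy (SH s w Z ω) ω)

/-- The landing of `y` gives `Zy ⊆ R`. -/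
private theorem st4_Zy_sub (hKy : CorrData w ρ' v' d' Zy Ny) {H : Set Vert} {ω : Config}
    (hd : Disjoint Zy H)
    (h : ∃ u ∈ sphere 0 (8 * w), u ∈ ball v' ρ' ∧
      Conn (sit (s.cut ω)) (ball 0 (8 * w) \ H) s.y u) :
    Zy ⊆ st4_RR s w Zy H ω := by
  obtain ⟨u, _, hu, hc⟩ := h
  have huZ : u ∈ Zy := hKy.ball_sub (ball_mono' (by omega) hu)
  have hsub : Zy ⊆ (ball 0 (8 * w) ∪ Zy) \ H := fun a ha =>
    ⟨Or.inr ha, fun h => Set.disjoint_left.1 hd ha h⟩
  have huR : u ∈ st4_RR s w Zy H ω :=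
    ⟨s.y, rfl, conn_mono (fun a ha => ⟨Or.inl ha.1, ha.2⟩) (fun e he => le_fillS he) hc⟩
  intro b hb
  exact clus_conn huR (conn_fillS hsub (hKy.conn u huZ b hb))

/-- The pair of clusters depends only on the determined sites. -/
private theorem st4_X_congr {i : Set Vert × Set Vert}
    {ω ω' : Config} (h : ∀ e ∈ st4_t w Zy i, ω e = ω' e) (hω : st4_X s w Z Zy ω = i) :
    st4_X s w Z Zy ω' = i := by
  have h1 : SH s w Z ω' = i.1 :=
    clus_fill_congr (fun g hg _ => h g (Or.inl (Or.inl hg))) (congrArg Prod.fst hω)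
  have h0 : SH s w Z ω = i.1 := congrArg Prod.fst hω
  have h2 : st4_RR s w Zy i.1 ω = i.2 := by
    have := congrArg Prod.snd hω
    rw [← h0]
    exact this
  have h3 : st4_RR s w Zy i.1 ω' = i.2 :=
    clus_fill_congr (fun g hg _ => h g (Or.inr (Or.inl hg))) h2
  refine Prod.ext h1 ?_
  change st4_RR s w Zy (SH s w Z ω') ω' = i.2
  rw [h1]
  exact h3

/-- The event depends only on the determined sites. -/
private theorem st4_A_congr (hK : CorrData w ρ v d Z Nev) (hKy : CorrData w ρ' v' d' Zy Ny)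
    (hS : CorrSep w ρ' v' Z Zy) (hρ' : 1 ≤ ρ') {ω ω' : Config}
    (h : ∀ e ∈ st4_t w Zy (st4_X s w Z Zy ω), ω e = ω' e)
    (hω : ω ∈ Ev3 s w ρ' v' d Z ∩ {ω | sit ω ∈ Ny}) :
    st4_X s w Z Zy ω' = st4_X s w Z Zy ω ∧ ω' ∈ Ev3 s w ρ' v' d Z ∩ {ω | sit ω ∈ Ny} := by
  obtain ⟨⟨hC, hL, hdis⟩, hN⟩ := hω
  have hZ : Z ⊆ SH s w Z ω := Z_sub_SH_of_conf hK hC
  have hdZ : Disjoint Zy (SH s w Z ω) := Zy_disj_SH hKy hS hρ' hC hdis
  have hZy : Zy ⊆ st4_RR s w Zy (SH s w Z ω) ω := st4_Zy_sub hKy hdZ hL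
  have hX := st4_X_congr (s := s) (w := w) (Z := Z) (i := st4_X s w Z Zy ω) h rfl
  refine ⟨hX, ?_⟩
  have h1 : SH s w Z ω' = SH s w Z ω := congrArg Prod.fst hX
  obtain ⟨hy, hF, hconf⟩ := hC
  obtain ⟨u, hu, huv, hyu⟩ := hL
  refine ⟨⟨⟨?_, ?_, ?_⟩, ⟨u, hu, huv, ?_⟩, ?_⟩, ?_⟩
  · rw [h1]
    exact hy
  · rw [h1]
    refine fence_congr (fun g hg => ?_) (fun g hg => ?_) hF
    · exact cut_congr (h g (Or.inl (Or.inr (vE_mono (hK.T_sub.trans hZ) hg))))
    · exact cut_congr (h g (Or.inl (Or.inr (vE_mono Set.inter_subset_left hg))))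
  · rw [h1]
    exact hconf
  · rw [h1]
    refine conn_of_sub (S := st4_RR s w Zy (SH s w Z ω) ω) (fun a ha => ?_)
      (fun g hg => h g (Or.inr (Or.inr hg))) hyu
    exact ⟨s.y, rfl, conn_mono (fun a ha => ⟨Or.inl ha.1, ha.2⟩) (fun e he => le_fillS he) ha⟩
  · rw [h1]
    exact hdis
  · exact locS_sit_inE hKy.loc ω ω' (fun g hg => h g (Or.inr (Or.inr (vE_mono hZy hg)))) hN

private theorem st4_dom_sub (hK : CorrData w ρ v d Z Nev) (hKy : CorrData w ρ' v' d' Zy Ny) :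
    dom d d' (4 * w) ⊆ ball 0 (160 * w) := by
  rintro a (h | h | h)
  · exact ball_mono' (by omega) h
  · exact corr_sub160 hK (hK.T_sub h)
  · exact corr_sub160 hKy (hKy.T_sub h)

private theorem st4_corr_dom_left (hK : CorrData w ρ v d Z Nev) :
    ball 0 (8 * w) ∪ Z ⊆ dom d d' (4 * w) := by
  have hb : ball (0 : Vert) (128 * w) ⊆ dom d d' (4 * w) := fun a ha =>
    Or.inl (ball_mono' (by omega) ha)
  rintro a (h | h)
  · exact hb (ball_mono' (by omega) h)
  · rcases hK.sub h with h | h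
    · exact hb h
    · exact Or.inr (Or.inl h)

private theorem st4_corr_dom_right (hKy : CorrData w ρ' v' d' Zy Ny) :
    ball 0 (8 * w) ∪ Zy ⊆ dom d d' (4 * w) := by
  have hb : ball (0 : Vert) (128 * w) ⊆ dom d d' (4 * w) := fun a ha =>
    Or.inl (ball_mono' (by omega) ha)
  rintro a (h | h)
  · exact hb (ball_mono' (by omega) h)
  · rcases hKy.sub h with h | h
    · exact hb h
    · exact Or.inr (Or.inr h)

/-- Deterministic part of stage 4. -/
private theorem st4_det (hK : CorrData w ρ v d Z Nev) (hKy : CorrData w ρ' v' d' Zy Ny)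
    (hS : CorrSep w ρ' v' Z Zy) (hρ' : 4 ≤ ρ') (hρ : 64 * ρ' ≤ ρ)
    (hw : 64 * ρ ≤ w) {K : ℕ} (hwK : w ≤ K * ρ') (hv' : v' ∈ sphere 0 (8 * w)) {ω : Config}
    (h3 : ω ∈ Ev3 s w ρ' v' d Z) (hN : sit ω ∈ Ny)
    (hs : ω ∈ Seal (grid (ρ' - 1) (320 * K)) (ρ' - 1) (st4_t w Zy (st4_X s w Z Zy ω))) :
    ω ∈ Sep s d d' (4 * w) := by
  have hρ'1 : 1 ≤ ρ' := by omega
  have hw1 : 1 ≤ w := by omega
  have hw' : 64 * ρ' ≤ w := by omega
  obtain ⟨hC, hL, hdis⟩ := h3
  have hZ : Z ⊆ SH s w Z ω := Z_sub_SH_of_conf hK hC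
  have hdZ : Disjoint Zy (SH s w Z ω) := Zy_disj_SH hKy hS hρ'1 hC hdis
  have hZy : Zy ⊆ st4_RR s w Zy (SH s w Z ω) ω := st4_Zy_sub hKy hdZ hL
  have hfarH : ∀ {z z' : Vert}, z ∈ Zy → z' ∈ ball z 1 → z' ∉ SH s w Z ω := fun hz hz' =>
    conf_far hKy hS hρ'1 hC.2.2 hdis hz hz'
  obtain ⟨hy, hF, hconf⟩ := hC
  obtain ⟨u, hu, huv, hyu⟩ := hL
  -- the points of the source are open
  have hxo : s.cut ω (sv s.x) = true := open_of_fence (by omega) s.hx hF
  have hyo : s.cut ω (sv s.y) = true := open_of_conn hyu (src_ne s.hy hw1 hu)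
  set H : Set Vert := SH s w Z ω with hH
  set R : Set Vert := st4_RR s w Zy H ω with hR
  have hHo : ∀ a ∈ H, fillS Z (s.cut ω) (sv a) = true := fun a ha =>
    open_of_clus (le_fillS hxo) ha
  have hRo : ∀ a ∈ R, fillS Zy (s.cut ω) (sv a) = true := fun a ha =>
    open_of_clus (le_fillS hyo) ha
  have hRsub : ∀ a ∈ R, a ∈ ball 0 (8 * w) ∪ Zy ∧ a ∉ H := fun a ha => clus_sub ha
  have hHsub : H ⊆ ball 0 (160 * w) := clus_sub
  have hZyH : ∀ a ∈ Zy, a ∉ H := fun a ha h => Set.disjoint_left.1 hdZ ha h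
  have hDW : ball (0 : Vert) (8 * w) ∪ Zy ⊆ ball 0 (160 * w) :=
    (st4_corr_dom_right (d := d) hKy).trans (st4_dom_sub hK hKy)
  have hor : ∀ {a : Vert}, fillS (Z ∪ Zy) (s.cut ω) (sv a) = true →
      s.cut ω (sv a) = true ∨ a ∈ Z ∨ a ∈ Zy := fun h => fill_sv.1 h
  -- `H` is closed
  have hclosed : ∀ {e : Edge} {a b : Vert}, Joins e a b →
      fillS (Z ∪ Zy) (s.cut ω) (sv b) = true → b ∈ ball 0 (160 * w) → a ∈ H → b ∈ H := by
    intro e a b hj hob hb haH
    refine clus_adj haH (hHo a haH) ?_ hj hb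
    rcases hor hob with h | h | h
    · exact le_fillS h
    · exact fill_sv.2 (Or.inr h)
    · exact absurd haH (hfarH h (Pool.Agent.H59.EX.ball_of_joins hj))
  have hxH : s.x ∈ H := ⟨s.x, rfl, Conn.refl (ball_mono' (by omega) (src_mem s.hx hw1))⟩
  have hconnH : ∀ z, Conn (sit (fillS (Z ∪ Zy) (s.cut ω))) (ball 0 (160 * w)) s.x z → z ∈ H := by
    intro z hz
    refine hz.induction_right (P := fun z => z ∈ H) hxH ?_
    rintro a b _ ⟨_, hb, e, hj, ho⟩ ih
    exact hclosed hj ((sit_joins hj).1 ho).2 hb ih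
  -- from the separated event to `W`
  have hTT : T d (4 * w) ∪ T d' (4 * w) ⊆ Z ∪ Zy := by
    rintro a (h | h)
    · exact Or.inl (hK.T_sub h)
    · exact Or.inr (hKy.T_sub h)
  have hlift : ∀ {a b : Vert},
      Conn (sit (s.ful d d' (4 * w) ω)) (dom d d' (4 * w)) a b →
      Conn (sit (fillS (Z ∪ Zy) (s.cut ω))) (ball 0 (160 * w)) a b := by
    intro a b h
    exact conn_mono (st4_dom_sub hK hKy) (fun e he => fillS_mono hTT he) h
  have hyR : s.y ∈ R := ⟨s.y, rfl, Conn.refl ⟨Or.inl (src_mem s.hy hw1), hy⟩⟩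
  -- open sites of `D ∪ Zy` off `H` which are adjacent to `R` belong to `R`
  have hstepR : ∀ {e : Edge} {a b : Vert}, Joins e a b →
      fillS (Z ∪ Zy) (s.cut ω) (sv b) = true → b ∈ ball 0 (8 * w) ∪ Zy → b ∉ H → a ∈ R →
      b ∈ R := by
    intro e a b hj hob hb hbH haR
    refine clus_adj haR (hRo a haR) ?_ hj ⟨hb, hbH⟩
    rcases hor hob with h | h | h
    · exact le_fillS h
    · exact absurd (hZ h) hbH
    · exact fill_sv.2 (Or.inr h)
  -- open sites off the clusters are not determined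
  have free : ∀ b, fillS (Z ∪ Zy) (s.cut ω) (sv b) = true → b ∉ R → b ∉ H →
      sv b ∉ st4_t w Zy (st4_X s w Z Zy ω) := by
    intro b hob hb1 hb2 h
    rcases h with (h | h) | (h | h)
    · obtain ⟨a, e, hj, haD, hbD, h1⟩ := of_mem_rv h
      rcases h1 with h1 | h1
      · exact hb2 (hclosed hj hob hbD h1)
      · exact hb2 h1
    · exact hb2 (sv_mem_vE.1 h)
    · obtain ⟨a, e, hj, haD, hbD, h1⟩ := of_mem_rv h
      rcases h1 with h1 | h1
      · exact hb1 (hstepR hj hob hbD.1 hbD.2 h1)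
      · exact hb1 h1
    · exact hb1 (sv_mem_vE.1 h)
  set Ex : Set Vert := {a | a ∈ R ∧ ∃ b e, Joins e a b ∧ b ∉ ball 0 (8 * w) ∪ Zy} with hEx
  have conf : ∀ z, Conn (sit (fillS (Z ∪ Zy) (s.cut ω))) (ball 0 (160 * w)) s.y z →
      z ∈ R ∨ (z ∉ H ∧ ∃ a ∈ Ex, z ∈ ball a (4 * (ρ' - 1) + 1)) := by
    intro z hz
    refine seal_confine (w := ω) (F := H) (t := st4_t w Zy (st4_X s w Z Zy ω))
      (G := grid (ρ' - 1) (320 * K)) ?_ hs ?_ ?_ ?_ ?_ hyR hz
    · intro a ha ho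
      rcases hor ho with h | h | h
      · exact cut_le h
      · exact absurd (Or.inl (Or.inr (sv_mem_vE.2 (hZ h)))) ha
      · exact absurd (Or.inr (Or.inr (sv_mem_vE.2 (hZy h)))) ha
    · rintro a ⟨ha, -⟩ b hb
      refine exists_grid (by omega) ?_
      have h1 := hDW (hRsub a ha).1
      have hK1 : 1 ≤ K := by
        rcases Nat.eq_zero_or_pos K with h | h
        · subst h
          omega
        · exact h
      have h2 : (160 * w + 1 : ℕ) ≤ 320 * K * (ρ' - 1) := by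
        obtain ⟨r, rfl⟩ : ∃ r, ρ' = r + 1 := ⟨ρ' - 1, by omega⟩
        have h4 : 3 ≤ r := by omega
        have h5 : w ≤ K * (r + 1) := hwK
        have h6 : 3 ≤ K * r := by nlinarith only [hw, hρ', hρ, hwK]
        rw [Nat.add_sub_cancel]
        have h7 : K * (r + 1) = K * r + K := by ring
        have h8 : 3 * K ≤ K * r := by nlinarith only [hρ']
        have h9 : 320 * K * r = 320 * (K * r) := by ring
        rw [h9]
        omega
      have h3 : ((160 * w + 1 : ℕ) : ℤ) ≤ ((320 * K * (ρ' - 1) : ℕ) : ℤ) := by exact_mod_cast h2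
      simp only [mem_ball, Prod.fst_zero, Prod.snd_zero] at h1 hb ⊢
      push_cast at h1 hb h3
      omega
    · intro a b e hj hoa hob haW hbW ha hb
      have hbH : b ∉ H := fun h => (hRsub a ha).2 (hclosed hj.symm hoa haW h)
      have hb' : b ∉ ball 0 (8 * w) ∪ Zy := fun h => hb (hstepR hj hob h hbH ha)
      exact ⟨⟨ha, b, e, hj, hb'⟩, hbH, free b hob hb hbH⟩
    · intro a b e hj hoa _ haW _ _ ha2 hb
      exact absurd (hclosed hj.symm hoa haW hb) ha2
    · intro a b e hj _ hob _ _ _ _ hb1 hb2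
      exact free b hob hb1 hb2
  have h128 : ∀ {z : Vert}, z ∈ sphere 0 (32 * (4 * w)) → z ∈ sphere 0 (128 * w) := by
    intro z hz
    have e : 32 * (4 * w) = 128 * w := by ring
    rwa [e] at hz
  have hnear : ∀ {z a : Vert}, z ∈ sphere 0 (128 * w) → z ∈ ball a (4 * ρ') →
      a ∉ ball 0 (8 * w) := by
    intro z a hz hza ha
    have hz2 := hz.2
    simp only [mem_ball, Prod.fst_zero, Prod.snd_zero] at hza ha hz2
    push_cast at hza ha hz2
    omega
  have hball : ∀ {z a : Vert}, z ∈ ball a (4 * ρ') → z ∈ ball a w := fun h =>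
    ball_mono' (by omega) h
  have hself : ∀ {z : Vert} {r : ℕ}, z ∈ ball z r := self_mem_ball
  refine ⟨?_, ?_, ?_, ?_, ?_⟩
  · exact fence_mono (fun a ha => st4_corr_dom_left hK ha.2) (fun _ h => h) hF
  · -- the fence of `y`
    obtain ⟨z, hz, hf⟩ := hKy.hook (sit ω) hN (sit (s.cut ω)) (ball 0 (8 * w) \ H) u s.y hyu.symm
      huv (src_far s.hy hρ'1 hw' hv')
    have hcut : ∀ g ∈ vE Zy, ω g = s.cut ω g := fun g hg =>
      (corr_cut hKy hρ'1 hw' hv' hg).symm
    have hf' : Fence d' (4 * w) (sit (s.cut ω)) Zy z :=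
      fence_congr (fun g hg => hcut g (vE_mono hKy.T_sub hg)) hcut hf
    have hsub := st4_corr_dom_right (d := d) hKy
    have hyz : Conn (sit (s.cut ω)) (dom d d' (4 * w)) s.y z :=
      (hyu.trans hz).mono_set fun a ha => hsub (Or.inl ha.1)
    exact fence_trans hyz (fence_mono (fun a ha => hsub (Or.inr ha)) (fun _ h => h) hf')
  · intro h
    exact hy (hconnH _ (hlift h))
  · intro z hz h
    have hz' := h128 hz
    rcases hconf z (hconnH z (hlift h)) with h1 | ⟨a, ha, h1⟩ | ⟨a, _, ha, h1⟩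
    · exact absurd h1 (hnear hz' hself)
    · exact hK.mouth z hz' a ha (hball (mem_of_near h1))
    · exact absurd ha.1 (hnear hz' (mem_of_near h1))
  · intro z hz h
    have hz' := h128 hz
    rcases conf z (hlift h) with h1 | ⟨-, a, ha, h1⟩
    · rcases (hRsub z h1).1 with h2 | h2
      · exact absurd h2 (hnear hz' hself)
      · exact hKy.mouth z hz' z h2 hself
    · have h1' : z ∈ ball a (4 * ρ') := ball_mono' (by omega) h1
      rcases (hRsub a ha.1).1 with h2 | h2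
      · exact absurd h2 (hnear hz' h1')
      · exact hKy.mouth z hz' a h2 (hball h1')

/-- Stage 4: seal the cluster of `y`. -/
theorem stage4 (c : ℝ) (hc : 0 < c) (K : ℕ) : ∃ c' : ℝ, 0 < c' ∧ ∀ (s : Src) (w ρ ρ' : ℕ)
    (v v' : Vert) (d d' : Side) (Z Zy : Set Vert) (Nev Ny : Set Config) (n : ℕ) (q : I),
    CorrData w ρ v d Z Nev → CorrData w ρ' v' d' Zy Ny → CorrSep w ρ' v' Z Zy → 4 ≤ ρ' →
    64 * ρ' ≤ ρ → 64 * ρ ≤ w → w ≤ K * ρ' → v' ∈ sphere 0 (8 * w) →
    w ≤ n → RSWreg c n q →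
      c' * Pr q (Ev3 s w ρ' v' d Z ∩ {ω | sit ω ∈ Ny}) ≤ Pr q (Sep s d d' (4 * w)) := by
  classical
  obtain ⟨c', hc', hlow⟩ := seal_lower c hc 1 ((2 * (320 * K) + 1) ^ 2)
  refine ⟨c', hc', fun s w ρ ρ' v v' d d' Z Zy Nev Ny n q hK hKy hS hρ' hρ hw hwK hv' hn hR =>
    ?_⟩
  have hρ'1 : 1 ≤ ρ' := by omega
  have hw1 : 1 ≤ w := by omega
  -- the finite set of sites
  obtain ⟨Λ1, hΛ1⟩ := exists_fin (160 * w)
  obtain ⟨Λ2, hΛ2⟩ := localOn_seal (grid (ρ' - 1) (320 * K)) (ρ' - 1)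
  have hDW : ball (0 : Vert) (8 * w) ∪ Zy ⊆ ball 0 (160 * w) :=
    (st4_corr_dom_right (d := d) hKy).trans (st4_dom_sub hK hKy)
  have hΛ : ∀ e ∈ vE (ball 0 (160 * w)), e ∈ Λ1 ∪ Λ2 := fun e he =>
    Finset.mem_union_left _ (hΛ1 e he)
  have htΛ : ∀ ω : Config, ∀ e ∈ st4_t w Zy (st4_X s w Z Zy ω), e ∈ Λ1 ∪ Λ2 := by
    rintro ω e ((he | he) | (he | he))
    · exact hΛ e (rv_sub he)
    · exact hΛ e (vE_mono clus_sub he)
    · exact hΛ e (vE_mono (Set.sdiff_subset.trans hDW) (rv_sub he))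
    · exact hΛ e (vE_mono (fun a ha => hDW (clus_sub ha).1) he)
  have main := markov_indep (Λ := Λ1 ∪ Λ2) (q := q) (c := c')
    (fun ω => st4_X s w Z Zy ω)
    (fun i => Z ⊆ i.1 ∧ Zy ⊆ i.2) (fun i => st4_t w Zy i)
    (fun i => {ω | st4_X s w Z Zy ω = i} ∩ (Ev3 s w ρ' v' d Z ∩ {ω | sit ω ∈ Ny}))
    (fun i => Seal (grid (ρ' - 1) (320 * K)) (ρ' - 1) (st4_t w Zy i))
    ?_ ?_ ?_ ?_ ?_ ?_ ?_ hc'.le
  · have e1 : Ev3 s w ρ' v' d Z ∩ {ω | sit ω ∈ Ny} ⊆
        {ω | (Z ⊆ (st4_X s w Z Zy ω).1 ∧ Zy ⊆ (st4_X s w Z Zy ω).2) ∧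
          ω ∈ {ω' | st4_X s w Z Zy ω' = st4_X s w Z Zy ω} ∩
            (Ev3 s w ρ' v' d Z ∩ {ω | sit ω ∈ Ny})} := by
      intro ω hω
      have hC := hω.1.1
      exact ⟨⟨Z_sub_SH_of_conf hK hC,
        st4_Zy_sub hKy (Zy_disj_SH hKy hS hρ'1 hC hω.1.2.2) hω.1.2.1⟩, rfl, hω⟩
    refine le_trans (mul_le_mul_of_nonneg_left (Pr_mono e1) hc'.le) (le_trans main (Pr_mono ?_))
    rintro ω ⟨_, ⟨_, h3, hN⟩, hs⟩
    exact st4_det hK hKy hS hρ' hρ hw hwK hv' h3 hN hs
  · intro i ω ω' h hω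
    have hω' : st4_X s w Z Zy ω = i := hω
    subst hω'
    exact st4_X_congr (fun e he => h e (htΛ ω e he)) rfl
  · intro i hi ω ω' h hω
    exact st4_X_congr h hω
  · rintro i ω ω' h ⟨hω, hA⟩
    obtain ⟨h1, h2⟩ := st4_A_congr (ω' := ω') hK hKy hS hρ'1
      (fun e he => h e (htΛ ω e he)) hA
    exact ⟨h1.trans hω, h2⟩
  · rintro i hi ω ω' h ⟨hω, hA⟩
    obtain ⟨h1, h2⟩ := st4_A_congr (ω' := ω') hK hKy hS hρ'1
      (fun e he => h e (by
        have hω' : st4_X s w Z Zy ω = i := hω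
        rw [← hω']
        exact he)) hA
    exact ⟨h1.trans hω, h2⟩
  · intro i ω ω' h
    exact hΛ2 _ ω ω' fun e he => h e (Finset.mem_union_right _ he)
  · intro i _
    exact locS_seal _ _ _
  · intro i _
    exact hlow n (ρ' - 1) q _ _ (by omega) hR (by omega) (by omega) (card_grid _ _)

end Pool.Agent.H38.N59

end

section

/-!
# Outward separation for sites: stage 2
-/

set_option autoImplicit false

open MeasureTheory ProbabilityTheory unitInterval

namespace Pool.Agent.H38.N59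

open Pool.Agent.H89.Perc
open Pool.Agent.H61.NC hiding RSWreg
open Pool.Agent.H83.SK (sv sit sit_true RSWreg)
open Pool.Agent.H59.EX (LocS inE touch clus closeS Side T Mouth Fence dom CorrData CorrSep clus_sub clus_step clus_conn mem_clus mem_clus_single conn_in_clus fence_trans fence_mono corr_inter corr_sub160 mem_sphere_of_joins markov_indep grid exists_grid card_grid)

variable {s : Src} {w ρ ρ' : ℕ} {v v' : Vert} {d d' : Side} {Z Zy : Set Vert} {Nev Ny : Set Config}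
  {q : I}

/-- The landing gives `Z ⊆ S1`. -/
private theorem st2_Z_sub (hK : CorrData w ρ v d Z Nev) {ω : Config}
    (h : ∃ u ∈ sphere 0 (8 * w), u ∈ ball v ρ ∧ Conn (sit (s.cut ω)) (ball 0 (8 * w)) s.x u) :
    Z ⊆ S1 s w Z ω := by
  obtain ⟨u, _, hu, hc⟩ := h
  have huZ : u ∈ Z := hK.ball_sub (ball_mono' (by omega) hu)
  refine Z_sub_S1 hK huZ ?_
  exact ⟨s.x, rfl, conn_mono Set.subset_union_left (fun e he => le_fillS he) hc⟩

private theorem st2_x_mem_S1 (hw : 1 ≤ w) {ω : Config} : s.x ∈ S1 s w Z ω :=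
  ⟨s.x, rfl, Conn.refl (Or.inl (src_mem s.hx hw))⟩

private theorem st2_y_mem_SY (hw : 1 ≤ w) {ω : Config} : s.y ∈ SY s w ω :=
  ⟨s.y, rfl, Conn.refl (src_mem s.hy hw)⟩

/-- The determined sites. -/
private def st2_t (w : ℕ) (Z : Set Vert) (i : Set Vert × Set Vert) : Set Edge :=
  rv (ball 0 (8 * w) ∪ Z) (i.2 ∪ i.1) ∪ vE (i.2 ∪ i.1)

/-- The pair of clusters depends only on the determined sites. -/
private theorem st2_X_congr {i : Set Vert × Set Vert} {ω ω' : Config}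
    (h : ∀ e ∈ st2_t w Z i, ω e = ω' e) (hω : (SY s w ω, S1 s w Z ω) = i) :
    (SY s w ω', S1 s w Z ω') = i := by
  refine Prod.ext ?_ ?_
  · refine clus_cut_congr (fun g hg => h g (Or.inl ?_)) (congrArg Prod.fst hω)
    obtain ⟨e, he, h1⟩ := hg
    exact ⟨e, ⟨⟨Or.inl he.1.1, Or.inl he.1.2⟩, he.2.imp Or.inr Or.inr⟩, h1⟩
  · refine clus_fill_congr (fun g hg _ => h g (Or.inl ?_)) (congrArg Prod.snd hω)
    obtain ⟨e, he, h1⟩ := hg
    exact ⟨e, ⟨⟨he.1.1, he.1.2⟩, he.2.imp Or.inl Or.inl⟩, h1⟩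

/-- The event depends only on the determined sites. -/
private theorem st2_A_congr (hK : CorrData w ρ v d Z Nev) {ω ω' : Config}
    (h : ∀ e ∈ st2_t w Z (SY s w ω, S1 s w Z ω), ω e = ω' e)
    (hω : ω ∈ Ev0 s w ρ v ∩ {ω | sit ω ∈ Nev} ∩ Good12 s w ρ' Z) :
    (SY s w ω', S1 s w Z ω') = (SY s w ω, S1 s w Z ω) ∧
      ω' ∈ Ev0 s w ρ v ∩ {ω | sit ω ∈ Nev} ∩ Good12 s w ρ' Z := by
  have hZ : Z ⊆ S1 s w Z ω := st2_Z_sub hK hω.1.1.1
  have hX := st2_X_congr (s := s) (w := w) (Z := Z) (i := (SY s w ω, S1 s w Z ω)) h rfl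
  refine ⟨hX, ?_⟩
  have hY : SY s w ω' = SY s w ω := congrArg Prod.fst hX
  have h1 : S1 s w Z ω' = S1 s w Z ω := congrArg Prod.snd hX
  obtain ⟨⟨⟨⟨u, hu, huv, hxu⟩, ⟨u', hu', hyu⟩, hxy, hdis⟩, hN⟩, hG⟩ := hω
  refine ⟨⟨⟨⟨u, hu, huv, ?_⟩, ⟨u', hu', ?_⟩, ?_, ?_⟩, ?_⟩, ?_⟩
  · refine conn_of_sub (S := S1 s w Z ω) (fun a ha => ?_)
      (fun g hg => h g (Or.inr (vE_mono Set.subset_union_left hg))) hxu
    exact ⟨s.x, rfl, conn_mono Set.subset_union_left (fun e he => le_fillS he) ha⟩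
  · have h2 : u' ∈ SY s w ω' := by
      rw [hY]
      exact ⟨s.y, rfl, hyu⟩
    exact mem_clus_single.1 h2
  · intro hc
    have h2 : s.x ∈ SY s w ω' := ⟨s.y, rfl, hc.symm⟩
    rw [hY] at h2
    exact hxy (mem_clus_single.1 h2).symm
  · rw [hY]
    exact hdis
  · exact locS_sit_inE hK.loc ω ω'
      (fun g hg => h g (Or.inr (vE_mono (hZ.trans Set.subset_union_left) hg))) hN
  · intro z hz
    rw [hY, h1]
    exact hG z hz

/-- Deterministic part of stage 2. -/
private theorem st2_det (hK : CorrData w ρ v d Z Nev) (hρ' : 4 ≤ ρ') (hρ : 64 * ρ' ≤ ρ)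
    (hw : 64 * ρ ≤ w) {K : ℕ} (hwK : w ≤ K * ρ') (hv : v ∈ sphere 0 (8 * w)) {ω : Config}
    (h0 : ω ∈ Ev0 s w ρ v) (hN : sit ω ∈ Nev) (hG : ω ∈ Good12 s w ρ' Z)
    (hs : ω ∈ Seal (grid (ρ' - 1) (320 * K)) (ρ' - 1) (st2_t w Z (SY s w ω, S1 s w Z ω))) :
    ω ∈ Ev2 s w ρ ρ' v d Z := by
  have hρ1 : 1 ≤ ρ := by omega
  have hw1 : 1 ≤ w := by omega
  obtain ⟨hx, hy, hxy, hdis⟩ := h0
  have hZS1 : Z ⊆ S1 s w Z ω := st2_Z_sub hK hx
  have F1 := S1_disj_SY hK hρ1 hdis hxy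
  have F1' : ∀ a, a ∈ S1 s w Z ω → a ∉ SY s w ω := fun a h1 h2 => Set.disjoint_left.1 F1 h1 h2
  have hS1D : S1 s w Z ω ⊆ ball 0 (8 * w) ∪ Z := clus_sub
  have hSYD : SY s w ω ⊆ ball 0 (8 * w) := clus_sub
  have hD160 : ball (0 : Vert) (8 * w) ∪ Z ⊆ ball 0 (160 * w) :=
    Set.union_subset (ball_mono' (by omega)) (corr_sub160 hK)
  have hS1H : S1 s w Z ω ⊆ SH s w Z ω := S1_sub_SH hK
  -- the points of the source are open
  have hxo : s.cut ω (sv s.x) = true := by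
    obtain ⟨u, hu, -, hc⟩ := hx
    exact open_of_conn hc (src_ne s.hx hw1 hu)
  have hyo : s.cut ω (sv s.y) = true := by
    obtain ⟨u, hu, hc⟩ := hy
    exact open_of_conn hc (src_ne s.hy hw1 hu)
  have hxo' : fillS Z (s.cut ω) (sv s.x) = true := le_fillS hxo
  have hS1o : ∀ a ∈ S1 s w Z ω, fillS Z (s.cut ω) (sv a) = true := fun a ha =>
    open_of_clus hxo' ha
  have hSYo : ∀ a ∈ SY s w ω, s.cut ω (sv a) = true := fun a ha => open_of_clus hyo ha
  -- off the clusters: a step into `SY`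
  have key : ∀ a b e, Joins e a b → fillS Z (s.cut ω) (sv a) = true → a ∉ SY s w ω →
      b ∈ SY s w ω → a ∉ ball 0 (8 * w) ∪ Z := by
    intro a b e hj ho ha hb haD
    exact ha (SY_closed hK hρ1 hdis hb ⟨Or.inl (hSYD hb), haD, e, hj.symm,
      (sit_joins hj.symm).2 ⟨le_fillS (hSYo b hb), ho⟩⟩)
  -- open sites off the clusters are not determined
  have free : ∀ b, fillS Z (s.cut ω) (sv b) = true → b ∉ S1 s w Z ω → b ∉ SY s w ω →
      sv b ∉ st2_t w Z (SY s w ω, S1 s w Z ω) := by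
    intro b hob hb1 hb2 h
    rcases h with h | h
    · obtain ⟨a, e, hj, haD, hbD, h1⟩ := of_mem_rv h
      rcases h1 with (h1 | h1) | (h1 | h1)
      · exact hb1 (clus_adj h1 (hS1o a h1) hob hj hbD)
      · exact key b a e hj.symm hob hb2 h1 hbD
      · exact hb1 h1
      · exact hb2 h1
    · rcases sv_mem_vE.1 h with h | h
      · exact hb1 h
      · exact hb2 h
  set Ex : Set Vert := {a | a ∈ S1 s w Z ω ∧ ∃ b e, Joins e a b ∧ b ∉ ball 0 (8 * w) ∪ Z} with hEx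
  have conf : ∀ z ∈ SH s w Z ω, z ∈ S1 s w Z ω ∨
      (z ∉ SY s w ω ∧ ∃ a ∈ Ex, z ∈ ball a (4 * (ρ' - 1) + 1)) := by
    rintro z ⟨x, hxx, hz⟩
    rw [Set.mem_singleton_iff] at hxx
    subst hxx
    refine seal_confine (w := ω) (F := SY s w ω) (t := st2_t w Z (SY s w ω, S1 s w Z ω))
      (G := grid (ρ' - 1) (320 * K)) ?_ hs ?_ ?_ ?_ ?_ (st2_x_mem_S1 hw1) hz
    · intro a ha ho
      rcases fill_sv.1 ho with h | h
      · exact cut_le h
      · exact absurd (Or.inr (sv_mem_vE.2 (Or.inl (hZS1 h)))) ha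
    · rintro a ⟨ha, -⟩ b hb
      refine exists_grid (by omega) ?_
      have h1 := hD160 (hS1D ha)
      have hK1 : 1 ≤ K := by
        rcases Nat.eq_zero_or_pos K with h | h
        · subst h
          omega
        · exact h
      have h2 : (160 * w + 1 : ℕ) ≤ 320 * K * (ρ' - 1) := by
        obtain ⟨r, rfl⟩ : ∃ r, ρ' = r + 1 := ⟨ρ' - 1, by omega⟩
        have h4 : 3 ≤ r := by omega
        have h5 : w ≤ K * (r + 1) := hwK
        have h6 : 3 ≤ K * r := by nlinarith only [hw, hρ', hρ, hwK]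
        rw [Nat.add_sub_cancel]
        have h7 : K * (r + 1) = K * r + K := by ring
        have h8 : 3 * K ≤ K * r := by nlinarith only [hρ']
        have h9 : 320 * K * r = 320 * (K * r) := by ring
        rw [h9]
        omega
      have h3 : ((160 * w + 1 : ℕ) : ℤ) ≤ ((320 * K * (ρ' - 1) : ℕ) : ℤ) := by exact_mod_cast h2
      simp only [mem_ball, Prod.fst_zero, Prod.snd_zero] at h1 hb ⊢
      push_cast at h1 hb h3
      omega
    · intro a b e hj hoa hob _ _ ha hb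
      have hb' : b ∉ ball 0 (8 * w) ∪ Z := fun h => hb (clus_adj ha hoa hob hj h)
      exact ⟨⟨ha, b, e, hj, hb'⟩, fun h => hb' (Or.inl (hSYD h)),
        free b hob hb fun h => hb' (Or.inl (hSYD h))⟩
    · intro a b e hj hoa hob _ _ ha1 ha2 hb x' hx' hbx
      have haD := key a b e hj hoa ha2 hb
      have hbs : b ∈ sphere 0 (8 * w) :=
        mem_sphere_of_joins hj.symm (hSYD hb) fun h => haD (Or.inl h)
      refine hG b hbs ⟨x', hx'.1, ?_⟩ ⟨b, hb, self_mem_ball⟩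
      exact ball_symm' (ball_mono' (by omega) hbx)
    · intro a b e hj _ hob _ _ _ _ hb1 hb2
      exact free b hob hb1 hb2
  have hSYH : ∀ a ∈ SY s w ω, a ∉ SH s w Z ω := by
    intro a ha h
    rcases conf a h with h | ⟨h, -⟩
    · exact F1' a h ha
    · exact h ha
  have hZH : Z ⊆ SH s w Z ω := hZS1.trans hS1H
  refine ⟨⟨hSYH _ (st2_y_mem_SY hw1), ?_, ?_⟩, ?_⟩
  · -- the fence
    obtain ⟨u, hu, huv, hxu⟩ := hx
    obtain ⟨z, hz, hf⟩ := hK.hook (sit ω) hN (sit (s.cut ω)) (ball 0 (8 * w)) u s.x hxu.symm huv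
      (src_far s.hx hρ1 hw hv)
    have hcut : ∀ g ∈ vE Z, ω g = s.cut ω g := fun g hg => (corr_cut hK hρ1 hw hv hg).symm
    have hf' : Fence d (4 * w) (sit (s.cut ω)) Z z :=
      fence_congr (fun g hg => hcut g (vE_mono hK.T_sub hg)) hcut hf
    have hxz : Conn (sit (s.cut ω)) (ball 0 (8 * w)) s.x z := hxu.trans hz
    have hxz' : Conn (sit (s.cut ω)) (SH s w Z ω ∩ (ball 0 (8 * w) ∪ Z)) s.x z := by
      have h1 : Conn (sit (s.cut ω)) (clus (sit (s.cut ω)) (ball 0 (8 * w)) {s.x}) s.x z :=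
        conn_in_clus (mem_clus rfl (Conn.refl hxz.mem_left)) hxz
      refine h1.mono_set ?_
      rintro a ⟨x, hxx, hc⟩
      refine ⟨?_, Or.inl hc.mem_right⟩
      exact hS1H ⟨x, hxx, conn_mono Set.subset_union_left (fun e he => le_fillS he) hc⟩
    exact fence_trans hxz' (fence_mono (fun a ha => ⟨hZH ha, Or.inr ha⟩) (fun _ h => h) hf')
  · -- confinement
    intro z hz
    rcases conf z hz with h | ⟨-, a, ha, hza⟩
    · rcases hS1D h with h | h
      · exact Or.inl h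
      · exact Or.inr (Or.inl ⟨z, h, near_self (by omega)⟩)
    · obtain ⟨ha1, b, e, hj, hb⟩ := ha
      rcases hS1D ha1 with h | h
      · exact Or.inr (Or.inr ⟨a, hS1H ha1, mem_sphere_of_joins hj h fun h => hb (Or.inl h),
          near_sub hza (by omega)⟩)
      · exact Or.inr (Or.inl ⟨a, h, near_sub hza (by omega)⟩)
  · -- the cluster of `y`
    obtain ⟨u, hu, hyu⟩ := hy
    have huY : u ∈ SY s w ω := ⟨s.y, rfl, hyu⟩
    refine ⟨u, hu, fun h => Set.disjoint_left.1 hdis huY h, ?_, ?_⟩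
    · have h1 : Conn (sit (s.cut ω)) (SY s w ω) s.y u := conn_in_clus (st2_y_mem_SY hw1) hyu
      exact h1.mono_set fun a ha => ⟨hSYD ha, hSYH a ha⟩
    · refine Set.disjoint_left.2 fun z hz hzu => ?_
      rcases conf z hz with h | ⟨-, a, ha, hza⟩
      · exact hG u hu ⟨z, h, ball_mono' (by omega) hzu⟩ ⟨u, huY, self_mem_ball⟩
      · refine hG u hu ⟨a, ha.1, ?_⟩ ⟨u, huY, self_mem_ball⟩
        simp only [mem_ball] at hzu hza ⊢
        push_cast at hzu hza ⊢
        omega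

/-- Stage 2: seal the cluster of `x`. -/
theorem stage2 (c : ℝ) (hc : 0 < c) (K : ℕ) : ∃ c' : ℝ, 0 < c' ∧ ∀ (s : Src) (w ρ ρ' : ℕ)
    (v : Vert) (d : Side) (Z : Set Vert) (Nev : Set Config) (n : ℕ) (q : I),
    CorrData w ρ v d Z Nev → 4 ≤ ρ' → 64 * ρ' ≤ ρ → 64 * ρ ≤ w → w ≤ K * ρ' →
    v ∈ sphere 0 (8 * w) → w ≤ n → RSWreg c n q →
      c' * Pr q (Ev0 s w ρ v ∩ {ω | sit ω ∈ Nev} ∩ Good12 s w ρ' Z) ≤
        Pr q (Ev2 s w ρ ρ' v d Z) := by
  classical
  obtain ⟨c', hc', hlow⟩ := seal_lower c hc 1 ((2 * (320 * K) + 1) ^ 2)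
  refine ⟨c', hc', fun s w ρ ρ' v d Z Nev n q hK hρ' hρ hw hwK hv hn hR => ?_⟩
  have hρ1 : 1 ≤ ρ := by omega
  have hw1 : 1 ≤ w := by omega
  -- the finite set of sites
  obtain ⟨Λ1, hΛ1⟩ := exists_fin (160 * w)
  obtain ⟨Λ2, hΛ2⟩ := localOn_seal (grid (ρ' - 1) (320 * K)) (ρ' - 1)
  have hD160 : ball (0 : Vert) (8 * w) ∪ Z ⊆ ball 0 (160 * w) :=
    Set.union_subset (ball_mono' (by omega)) (corr_sub160 hK)
  have hΛ : ∀ e ∈ vE (ball 0 (8 * w) ∪ Z), e ∈ Λ1 ∪ Λ2 := fun e he =>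
    Finset.mem_union_left _ (hΛ1 e (vE_mono hD160 he))
  have htΛ : ∀ ω : Config, ∀ e ∈ st2_t w Z (SY s w ω, S1 s w Z ω), e ∈ Λ1 ∪ Λ2 := by
    rintro ω e (he | he)
    · exact hΛ e (rv_sub he)
    · refine hΛ e (vE_mono ?_ he)
      rintro a (ha | ha)
      · exact clus_sub ha
      · exact Or.inl (clus_sub ha)
  have main := markov_indep (Λ := Λ1 ∪ Λ2) (q := q) (c := c')
    (fun ω => (SY s w ω, S1 s w Z ω))
    (fun i => Z ⊆ i.2) (fun i => st2_t w Z i)
    (fun i => {ω | (SY s w ω, S1 s w Z ω) = i} ∩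
      (Ev0 s w ρ v ∩ {ω | sit ω ∈ Nev} ∩ Good12 s w ρ' Z))
    (fun i => Seal (grid (ρ' - 1) (320 * K)) (ρ' - 1) (st2_t w Z i))
    ?_ ?_ ?_ ?_ ?_ ?_ ?_ hc'.le
  · have e1 : Ev0 s w ρ v ∩ {ω | sit ω ∈ Nev} ∩ Good12 s w ρ' Z ⊆
        {ω | Z ⊆ (SY s w ω, S1 s w Z ω).2 ∧
          ω ∈ {ω' | (SY s w ω', S1 s w Z ω') = (SY s w ω, S1 s w Z ω)} ∩
            (Ev0 s w ρ v ∩ {ω | sit ω ∈ Nev} ∩ Good12 s w ρ' Z)} := by
      intro ω hω
      exact ⟨st2_Z_sub hK hω.1.1.1, rfl, hω⟩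
    refine le_trans (mul_le_mul_of_nonneg_left (Pr_mono e1) hc'.le) (le_trans main (Pr_mono ?_))
    rintro ω ⟨_, ⟨_, ⟨⟨h0, hN⟩, hG⟩⟩, hs⟩
    exact st2_det hK hρ' hρ hw hwK hv h0 hN hG hs
  · intro i ω ω' h hω
    have hω' : (SY s w ω, S1 s w Z ω) = i := hω
    subst hω'
    exact st2_X_congr (fun e he => h e (htΛ ω e he)) rfl
  · intro i hi ω ω' h hω
    exact st2_X_congr h hω
  · rintro i ω ω' h ⟨hω, hA⟩
    obtain ⟨h1, h2⟩ := st2_A_congr (ω' := ω') hK (fun e he => h e (htΛ ω e he)) hA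
    exact ⟨h1.trans hω, h2⟩
  · rintro i hi ω ω' h ⟨hω, hA⟩
    obtain ⟨h1, h2⟩ := st2_A_congr (ω' := ω') hK
      (fun e he => h e (by
        have hω' : (SY s w ω, S1 s w Z ω) = i := hω
        rw [← hω']
        exact he)) hA
    exact ⟨h1.trans hω, h2⟩
  · intro i ω ω' h
    exact hΛ2 _ ω ω' fun e he => h e (Finset.mem_union_right _ he)
  · intro i _
    exact locS_seal _ _ _
  · intro i _
    exact hlow n (ρ' - 1) q _ _ (by omega) hR (by omega) (by omega) (card_grid _ _)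

end Pool.Agent.H38.N59

end

section

/-!
# Probability of the crossing events of the corridors
-/

open MeasureTheory ProbabilityTheory unitInterval

namespace Pool.Agent.H83.SK.NG

open Pool.Agent.H59.EX

open Pool.Agent.H89.Perc
open Pool.Agent.H29.Sep (Circ incr_circ localOn_circ)

namespace GeoQ

theorem gd_h {q : I} {c : ℝ} {a b y z : ℤ} (hc : 0 ≤ c) (h : c ≤ Pr q {ω | HCross ω a b y z}) :
    Gd q c {ω | HCross ω a b y z} :=
  ⟨hc, ⟨_, localOn_hcross a b y z⟩, GeoS.incr_h _ _ _ _, h⟩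

theorem gd_v {q : I} {c : ℝ} {a b y z : ℤ} (hc : 0 ≤ c) (h : c ≤ Pr q {ω | VCross ω a b y z}) :
    Gd q c {ω | VCross ω a b y z} :=
  ⟨hc, ⟨_, localOn_vcross a b y z⟩, GeoS.incr_v _ _ _ _, h⟩

end GeoQ

open GeoQ

theorem prob_straight (c : ℝ) (hc : 0 < c) (K : ℕ) : ∃ c' : ℝ, 0 < c' ∧ ∀ (d : Side) (w ρ n : ℕ)
    (v : Vert) (q : I), 1 ≤ ρ → ρ ≤ w → w ≤ K * ρ → w ≤ n → OnSide d (8 * w) v → RSWreg c n q →
      c' ≤ Pr q (NS d w ρ v) := by
  obtain ⟨c1, hc1, H1⟩ := circ_lower c hc 1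
  obtain ⟨c2, hc2, H2⟩ := rect_lower c hc (5 * K + 200)
  refine ⟨c1 * (c2 * (c2 * (c2 * c2))), by positivity, ?_⟩
  intro d w ρ n v q hρ hρw hK hwn hv hreg
  have hn : 1 ≤ n := by omega
  have g1 := gd_c hc1.le (H1 n q hn hreg v ρ hρ (by omega))
  have eK : (w : ℤ) ≤ K * ρ := by exact_mod_cast hK
  have eK0 : (0 : ℤ) ≤ K := Int.natCast_nonneg K
  have eρ : (1 : ℤ) ≤ ρ := by exact_mod_cast hρ
  have ew : (ρ : ℤ) ≤ w := by exact_mod_cast hρw
  have en : (w : ℤ) ≤ n := by exact_mod_cast hwn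
  have p1 : (0 : ℤ) ≤ K * n := by positivity
  have p2 : (0 : ℤ) ≤ K * w := by positivity
  -- thin crossing
  have t1 : ∀ a y : ℤ, c2 ≤ Pr q {ω | HCross ω a (a + 9 * w) y (y + 2 * ρ)} ∧
      c2 ≤ Pr q {ω | VCross ω y (y + 2 * ρ) a (a + 9 * w)} := by
    intro a y
    refine H2 n q hn hreg a (a + 9 * w) y (y + 2 * ρ) (by omega) (by omega) ?_ ?_
    · push_cast
      nlinarith only [hρ, hρw, hK]
    · push_cast
      nlinarith only [hρ, hρw, hwn, p1]
  have t2 : ∀ a y : ℤ, c2 ≤ Pr q {ω | HCross ω a (a + 24 * w) y (y + w)} ∧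
      c2 ≤ Pr q {ω | VCross ω y (y + w) a (a + 24 * w)} := by
    intro a y
    refine H2 n q hn hreg a (a + 24 * w) y (y + w) (by omega) (by omega) ?_ ?_
    · push_cast
      nlinarith only [hρ, hρw, p2]
    · push_cast
      nlinarith only [hρ, hρw, hwn, p1]
  have t3 : ∀ a y : ℤ, c2 ≤ Pr q {ω | HCross ω a (a + 128 * w) y (y + 24 * w)} ∧
      c2 ≤ Pr q {ω | VCross ω y (y + 24 * w) a (a + 128 * w)} := by
    intro a y
    refine H2 n q hn hreg a (a + 128 * w) y (y + 24 * w) (by omega) (by omega) ?_ ?_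
    · push_cast
      nlinarith only [hρ, hρw, p2]
    · push_cast
      nlinarith only [hρ, hρw, hwn, p1]
  have t4 : ∀ a y : ℤ, c2 ≤ Pr q {ω | HCross ω a (a + 24 * w) y (y + 32 * w)} ∧
      c2 ≤ Pr q {ω | VCross ω y (y + 32 * w) a (a + 24 * w)} := by
    intro a y
    refine H2 n q hn hreg a (a + 24 * w) y (y + 32 * w) (by omega) (by omega) ?_ ?_
    · push_cast
      nlinarith only [hρ, hρw, p2]
    · push_cast
      nlinarith only [hρ, hρw, hwn, p1]
  cases d with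
  | E =>
    have g2 := gd_h hc2.le (t1 (8 * w) (v.2 - ρ)).1
    have g3 := gd_v hc2.le (t2 (-(12 * w)) (16 * w)).2
    have g4 := gd_h hc2.le (t3 (16 * w) (-(12 * w))).1
    have g5 := gd_v hc2.le (t4 (-(12 * w)) (112 * w)).2
    rw [show (8 * w + 9 * w : ℤ) = 17 * w by ring, show (v.2 - ρ + 2 * ρ : ℤ) = v.2 + ρ by ring] at g2
    rw [show (-(12 * w) + 24 * w : ℤ) = 12 * w by ring, show (16 * w + w : ℤ) = 17 * w by ring] at g3
    rw [show (-(12 * w) + 24 * w : ℤ) = 12 * w by ring,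
      show (16 * w + 128 * w : ℤ) = 144 * w by ring] at g4
    rw [show (-(12 * w) + 24 * w : ℤ) = 12 * w by ring,
      show (112 * w + 32 * w : ℤ) = 144 * w by ring] at g5
    exact (g1.inter (g2.inter (g3.inter (g4.inter g5)))).2.2.2
  | N =>
    have g2 := gd_v hc2.le (t1 (8 * w) (v.1 - ρ)).2
    have g3 := gd_h hc2.le (t2 (-(12 * w)) (16 * w)).1
    have g4 := gd_v hc2.le (t3 (16 * w) (-(12 * w))).2
    have g5 := gd_h hc2.le (t4 (-(12 * w)) (112 * w)).1
    rw [show (8 * w + 9 * w : ℤ) = 17 * w by ring, show (v.1 - ρ + 2 * ρ : ℤ) = v.1 + ρ by ring] at g2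
    rw [show (-(12 * w) + 24 * w : ℤ) = 12 * w by ring, show (16 * w + w : ℤ) = 17 * w by ring] at g3
    rw [show (-(12 * w) + 24 * w : ℤ) = 12 * w by ring,
      show (16 * w + 128 * w : ℤ) = 144 * w by ring] at g4
    rw [show (-(12 * w) + 24 * w : ℤ) = 12 * w by ring,
      show (112 * w + 32 * w : ℤ) = 144 * w by ring] at g5
    exact (g1.inter (g2.inter (g3.inter (g4.inter g5)))).2.2.2
  | W =>
    have g2 := gd_h hc2.le (t1 (-(17 * w)) (v.2 - ρ)).1
    have g3 := gd_v hc2.le (t2 (-(12 * w)) (-(17 * w))).2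
    have g4 := gd_h hc2.le (t3 (-(144 * w)) (-(12 * w))).1
    have g5 := gd_v hc2.le (t4 (-(12 * w)) (-(144 * w))).2
    rw [show (-(17 * w) + 9 * w : ℤ) = -(8 * w) by ring,
      show (v.2 - ρ + 2 * ρ : ℤ) = v.2 + ρ by ring] at g2
    rw [show (-(12 * w) + 24 * w : ℤ) = 12 * w by ring,
      show (-(17 * w) + w : ℤ) = -(16 * w) by ring] at g3
    rw [show (-(12 * w) + 24 * w : ℤ) = 12 * w by ring,
      show (-(144 * w) + 128 * w : ℤ) = -(16 * w) by ring] at g4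
    rw [show (-(12 * w) + 24 * w : ℤ) = 12 * w by ring,
      show (-(144 * w) + 32 * w : ℤ) = -(112 * w) by ring] at g5
    exact (g1.inter (g2.inter (g3.inter (g4.inter g5)))).2.2.2
  | S =>
    have g2 := gd_v hc2.le (t1 (-(17 * w)) (v.1 - ρ)).2
    have g3 := gd_h hc2.le (t2 (-(12 * w)) (-(17 * w))).1
    have g4 := gd_v hc2.le (t3 (-(144 * w)) (-(12 * w))).2
    have g5 := gd_h hc2.le (t4 (-(12 * w)) (-(144 * w))).1
    rw [show (-(17 * w) + 9 * w : ℤ) = -(8 * w) by ring,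
      show (v.1 - ρ + 2 * ρ : ℤ) = v.1 + ρ by ring] at g2
    rw [show (-(12 * w) + 24 * w : ℤ) = 12 * w by ring,
      show (-(17 * w) + w : ℤ) = -(16 * w) by ring] at g3
    rw [show (-(12 * w) + 24 * w : ℤ) = 12 * w by ring,
      show (-(144 * w) + 128 * w : ℤ) = -(16 * w) by ring] at g4
    rw [show (-(12 * w) + 24 * w : ℤ) = 12 * w by ring,
      show (-(144 * w) + 32 * w : ℤ) = -(112 * w) by ring] at g5
    exact (g1.inter (g2.inter (g3.inter (g4.inter g5)))).2.2.2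

theorem prob_turn (c : ℝ) (hc : 0 < c) (K : ℕ) : ∃ c' : ℝ, 0 < c' ∧ ∀ (w ρ n : ℕ)
    (v : Vert) (q : I), 1 ≤ ρ → ρ ≤ w → w ≤ K * ρ → w ≤ n → OnSide .E (8 * w) v → RSWreg c n q →
      c' ≤ Pr q (NTN w ρ v) ∧ c' ≤ Pr q (NTS w ρ v) := by
  obtain ⟨c1, hc1, H1⟩ := circ_lower c hc 1
  obtain ⟨c2, hc2, H2⟩ := rect_lower c hc (5 * K + 200)
  refine ⟨c1 * (c2 * (c2 * (c2 * (c2 * c2)))), by positivity, ?_⟩
  intro w ρ n v q hρ hρw hK hwn hv hreg
  obtain ⟨⟨hvb, -⟩, hv1⟩ := hv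
  simp only [mem_ball, Prod.fst_zero, Prod.snd_zero] at hvb hv1
  have hn : 1 ≤ n := by omega
  have g1 := gd_c hc1.le (H1 n q hn hreg v ρ hρ (by omega))
  have eK : (w : ℤ) ≤ K * ρ := by exact_mod_cast hK
  have eK0 : (0 : ℤ) ≤ K := Int.natCast_nonneg K
  have eρ : (1 : ℤ) ≤ ρ := by exact_mod_cast hρ
  have ew : (ρ : ℤ) ≤ w := by exact_mod_cast hρw
  have en : (w : ℤ) ≤ n := by exact_mod_cast hwn
  have p1 : (0 : ℤ) ≤ K * n := by positivity
  have p2 : (0 : ℤ) ≤ K * w := by positivity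
  have g2 : Gd q c2 {ω | HCross ω (8 * w) (13 * w) (v.2 - ρ) (v.2 + ρ)} := by
    refine gd_h hc2.le (H2 n q hn hreg _ _ _ _ (by omega) (by omega) ?_ ?_).1
    · push_cast
      nlinarith only [hρ, hρw, hK]
    · push_cast
      nlinarith only [hρ, hρw, hwn, p1]
  have r1 : ∀ a b y : ℤ, a ≤ b → b - a ≤ 132 * w →
      c2 ≤ Pr q {ω | HCross ω a b y (y + w)} ∧ c2 ≤ Pr q {ω | VCross ω y (y + w) a b} := by
    intro a b y hab hb
    refine H2 n q hn hreg a b y (y + w) hab (by omega) ?_ ?_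
    · push_cast
      nlinarith only [hρ, hρw, p2, hb]
    · push_cast
      nlinarith only [hρ, hρw, hwn, p1]
  have r2 : ∀ a b y : ℤ, a ≤ b → b - a ≤ 132 * w →
      c2 ≤ Pr q {ω | HCross ω a b y (y + 8 * w)} ∧ c2 ≤ Pr q {ω | VCross ω y (y + 8 * w) a b} := by
    intro a b y hab hb
    refine H2 n q hn hreg a b y (y + 8 * w) hab (by omega) ?_ ?_
    · push_cast
      nlinarith only [hρ, hρw, p2, hb]
    · push_cast
      nlinarith only [hρ, hρw, hwn, p1]
  have r3 : ∀ a b y : ℤ, a ≤ b → b - a ≤ 132 * w →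
      c2 ≤ Pr q {ω | HCross ω a b y (y + 32 * w)} ∧ c2 ≤ Pr q {ω | VCross ω y (y + 32 * w) a b} := by
    intro a b y hab hb
    refine H2 n q hn hreg a b y (y + 32 * w) hab (by omega) ?_ ?_
    · push_cast
      nlinarith only [hρ, hρw, p2, hb]
    · push_cast
      nlinarith only [hρ, hρw, hwn, p1]
  constructor
  · have g3 := gd_v hc2.le (r1 (v.2 - ρ) (13 * w) (12 * w) (by omega) (by omega)).2
    have g4 := gd_h hc2.le (r1 (-(4 * w)) (13 * w) (12 * w) (by omega) (by omega)).1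
    have g5 := gd_v hc2.le (r2 (12 * w) (144 * w) (-(4 * w)) (by omega) (by omega)).2
    have g6 := gd_h hc2.le (r3 (-(12 * w)) (12 * w) (112 * w) (by omega) (by omega)).1
    rw [show (12 * w + w : ℤ) = 13 * w by ring] at g3 g4
    rw [show (-(4 * w) + 8 * w : ℤ) = 4 * w by ring] at g5
    rw [show (112 * w + 32 * w : ℤ) = 144 * w by ring] at g6
    exact (g1.inter (g2.inter (g3.inter (g4.inter (g5.inter g6))))).2.2.2
  · have g3 := gd_v hc2.le (r1 (-(13 * w)) (v.2 + ρ) (12 * w) (by omega) (by omega)).2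
    have g4 := gd_h hc2.le (r1 (-(4 * w)) (13 * w) (-(13 * w)) (by omega) (by omega)).1
    have g5 := gd_v hc2.le (r2 (-(144 * w)) (-(12 * w)) (-(4 * w)) (by omega) (by omega)).2
    have g6 := gd_h hc2.le (r3 (-(12 * w)) (12 * w) (-(144 * w)) (by omega) (by omega)).1
    rw [show (12 * w + w : ℤ) = 13 * w by ring] at g3
    rw [show (-(13 * w) + w : ℤ) = -(12 * w) by ring] at g4
    rw [show (-(4 * w) + 8 * w : ℤ) = 4 * w by ring] at g5
    rw [show (-(144 * w) + 32 * w : ℤ) = -(112 * w) by ring] at g6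
    exact (g1.inter (g2.inter (g3.inter (g4.inter (g5.inter g6))))).2.2.2

end Pool.Agent.H83.SK.NG

end

section

/-!
# Corridors for the second point
-/

open MeasureTheory ProbabilityTheory unitInterval

namespace Pool.Agent.H83.SK.NG

open Pool.Agent.H59.EX

open Pool.Agent.H89.Perc

/-- `x` lands at `v` on the east side, `y` at `v'` anywhere on the sphere, not close to `v`. -/
theorem exists_corr_y (c : ℝ) (hc : 0 < c) (K : ℕ) : ∃ c' : ℝ, 0 < c' ∧
    ∀ (w ρ ρ' n : ℕ) (v v' : Vert) (q : I), 1 ≤ ρ' → 64 * ρ' ≤ ρ → 64 * ρ ≤ w → w ≤ K * ρ' →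
      w ≤ n → OnSide .E (8 * w) v → v' ∈ sphere 0 (8 * w) → v' ∉ ball v (10 * ρ) →
      RSWreg c n q → ∃ (d' : Side) (Zy : Set Vert) (Ny : Set Config), d' ≠ .E ∧
        CorrData w ρ' v' d' Zy Ny ∧ CorrSep w ρ' v' (ZS .E w ρ v) Zy ∧ c' ≤ Pr q Ny := by
  obtain ⟨c₁, hc₁, H₁⟩ := prob_straight c hc K
  obtain ⟨c₂, hc₂, H₂⟩ := prob_turn c hc K
  refine ⟨min c₁ c₂, lt_min hc₁ hc₂, ?_⟩
  intro w ρ ρ' n v v' q h1 h2 h3 h4 h5 hv hv' hvv hR
  have hw' : 64 * ρ' ≤ w := by omega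
  have hρw : ρ' ≤ w := by omega
  obtain ⟨-, hv1⟩ := id hv
  have hv1' : v.1 = ((8 * w : ℕ) : ℤ) := hv1
  obtain ⟨-, hside⟩ := id hv'
  simp only [Prod.fst_zero, Prod.snd_zero, zero_sub, zero_add] at hside
  have straight : ∀ d' : Side, d' ≠ .E → OnSide d' (8 * w) v' →
      CorrSep w ρ' v' (ZS .E w ρ v) (ZS d' w ρ' v') →
      ∃ (d' : Side) (Zy : Set Vert) (Ny : Set Config), d' ≠ .E ∧
        CorrData w ρ' v' d' Zy Ny ∧ CorrSep w ρ' v' (ZS .E w ρ v) Zy ∧ min c₁ c₂ ≤ Pr q Ny :=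
    fun d' hd hO hS => ⟨d', _, _, hd, corr_straight h1 hw' hO, hS,
      (min_le_left _ _).trans (H₁ d' w ρ' n v' q h1 hρw h4 h5 hO hR)⟩
  rcases hside with h | h | h | h
  · exact straight .W (by simp) ⟨hv', h⟩ (sep_EW h1 h2 h3 hv ⟨hv', h⟩)
  · have hO : OnSide .E (8 * w) v' := ⟨hv', h⟩
    have h' : v'.2 < v.2 - 10 * ρ ∨ v.2 + 10 * ρ < v'.2 := by
      by_contra hcon
      push Not at hcon
      refine hvv ?_
      rw [mem_ball]
      omega
    rcases h' with h' | h'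
    · exact ⟨.S, _, _, by simp, corr_turn_S h1 hw' hO, sep_ETS h1 h2 h3 hv hO (by omega),
        (min_le_right _ _).trans (H₂ w ρ' n v' q h1 hρw h4 h5 hO hR).2⟩
    · exact ⟨.N, _, _, by simp, corr_turn_N h1 hw' hO, sep_ETN h1 h2 h3 hv hO h',
        (min_le_right _ _).trans (H₂ w ρ' n v' q h1 hρw h4 h5 hO hR).1⟩
  · exact straight .S (by simp) ⟨hv', h⟩ (sep_ES h1 h2 h3 hv ⟨hv', h⟩ hvv)
  · exact straight .N (by simp) ⟨hv', h⟩ (sep_EN h1 h2 h3 hv ⟨hv', h⟩ hvv)

end Pool.Agent.H83.SK.NG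

end

section

/-!
# The straight corridors of the moves, probabilities
-/

open MeasureTheory ProbabilityTheory unitInterval

namespace Pool.Agent.H83.SK.NG

open Pool.Agent.H59.EX

open Pool.Agent.H89.Perc Pool.Agent.H61.NC
open Pool.Agent.H85.Strict (hv_meet)

end Pool.Agent.H83.SK.NG

end

section

/-!
# Site percolation on the torus: separated four arms, definitions

The torus of side `N` is `ℤ²` with the periodic configuration `per N ω = pb (modE N) ω` of sites. The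
source is the closed site `0` with two of its neighbours; the first neighbour has its mouth in the
west, the second one in the east. The corridor is the horizontal strip `[28 k, N - 28 k] × [-3 k,
3 k]` from the east target to the translate by `(N, 0)` of the west target.
-/

set_option autoImplicit false

open MeasureTheory ProbabilityTheory unitInterval

namespace Pool.Agent.H83.PST

open Pool.Agent.H89.Perc
open Pool.Agent.H61.NC (modE)
open Pool.Agent.H83.SK (sv sit sit_true RSWreg)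
open Pool.Agent.H59.EX (LocS inE touch clus closeS Side T Mouth Fence dom pb grid)
open Pool.Agent.H38.N59 (vE rv fillS Src Sep FX FY det Seal Four)
open Pool.Agent.H26.ST (Cor glu PerInv sh TD Rel1 In)
open Pool.Agent.H92.SN (WindS tSites)

end Pool.Agent.H83.PST

end
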