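import Pool.Agent.H94.BG.H31.PT.M08_2
import Pool.Agent.H94.BG.H31.PT.M15_4
import Pool.Agent.H94.BG.H31.PT.M18_5

/-! The parts of this file: H83.SK.P29.BlockAnn, H83.SK.P29.OuterSplit, H83.SK.P29.QM, H38.SK.N59.Iter0, H38.SK.N59.MoveCore, H38.SK.N59.Moves. -/

section

/-!
# A pivotal block of the torus is surrounded by two distinct crossing clusters
-/

open MeasureTheory ProbabilityTheory unitInterval

namespace Pool.Agent.H83.SK

open Pool.Agent.H29.Sep

open Pool.Agent.H89.Perc Pool.Agent.H61.NC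

end Pool.Agent.H83.SK

end

section

/-!
# Outer decomposition of the annulus event into two-terminal events
-/

open MeasureTheory ProbabilityTheory unitInterval

namespace Pool.Agent.H83.SK

open Pool.Agent.H29.Sep

open Pool.Agent.H89.Perc Pool.Agent.H61.NC

end Pool.Agent.H83.SK

end

section

/-!
# Quasi-multiplicativity for the planar annulus and the gluing inequality on the torus
-/

open MeasureTheory ProbabilityTheory unitInterval

namespace Pool.Agent.H83.SK

open Pool.Agent.H29.Sep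

open Pool.Agent.H89.Perc Pool.Agent.H61.NC

end Pool.Agent.H83.SK

end

section

/-!
# Finite energy, explicit separated configurations of sites
-/

set_option autoImplicit false

open MeasureTheory ProbabilityTheory unitInterval

namespace Pool.Agent.H38.N59

open Pool.Agent.H89.Perc
open Pool.Agent.H61.NC hiding RSWreg
open Pool.Agent.H83.SK (sv sit sit_true RSWreg)
open Pool.Agent.H59.EX (LocS inE touch clus closeS Side T Mouth Fence dom)

/-! ### Explicit configurations -/

end Pool.Agent.H38.N59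

end

section

/-!
# Extension of separated events along abstract corridors, for sites
-/

set_option autoImplicit false

open MeasureTheory ProbabilityTheory unitInterval

namespace Pool.Agent.H38.N59

open Pool.Agent.H89.Perc
open Pool.Agent.H61.NC hiding RSWreg
open Pool.Agent.H83.SK (sv sit sit_true RSWreg)
open Pool.Agent.H59.EX (LocS inE touch clus closeS Side T Mouth Fence dom CorrData CorrSep clus_sub clus_step clus_conn mem_clus_single fence_mono fence_mem mem_sphere_of_joins markov_indep grid exists_grid card_grid pb sat MoveData MoveSep)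

/-! ### Rectangles are connected -/

private theorem mc_h {S : Set Vert} {y : ℤ} (x : ℤ) (n : ℕ)
    (h : ∀ z : ℤ, x ≤ z → z ≤ x + n → ((z, y) : Vert) ∈ S) : Conn allOpen S (x, y) (x + n, y) := by
  induction n with
  | zero =>
    have h0 := h x le_rfl (by simp)
    simpa using (Conn.refl h0 : Conn allOpen S (x, y) (x, y))
  | succ n ih =>
    have h1 := ih fun z hz hz' => h z hz (by push_cast; omega)
    refine h1.tail ⟨h _ (by omega) (by push_cast; omega), h _ (by push_cast; omega) le_rfl,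
      (x + n, y, false), Or.inl ⟨rfl, ?_⟩, rfl⟩
    simp [tgt]
    ring

private theorem mc_v {S : Set Vert} {x : ℤ} (y : ℤ) (n : ℕ)
    (h : ∀ z : ℤ, y ≤ z → z ≤ y + n → ((x, z) : Vert) ∈ S) : Conn allOpen S (x, y) (x, y + n) := by
  induction n with
  | zero =>
    have h0 := h y le_rfl (by simp)
    simpa using (Conn.refl h0 : Conn allOpen S (x, y) (x, y))
  | succ n ih =>
    have h1 := ih fun z hz hz' => h z hz (by push_cast; omega)
    refine h1.tail ⟨h _ (by omega) (by push_cast; omega), h _ (by push_cast; omega) le_rfl,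
      (x, y + n, true), Or.inl ⟨rfl, ?_⟩, rfl⟩
    simp [tgt]
    ring

private theorem mc_h' {S : Set Vert} {x x' y : ℤ}
    (h : ∀ z : ℤ, min x x' ≤ z → z ≤ max x x' → ((z, y) : Vert) ∈ S) :
    Conn allOpen S (x, y) (x', y) := by
  rcases le_total x x' with hx | hx
  · have h1 := mc_h (S := S) (y := y) x (x' - x).toNat fun z hz hz' => h z (by omega) (by omega)
    rwa [Int.toNat_of_nonneg (by omega), add_sub_cancel] at h1
  · have h1 := mc_h (S := S) (y := y) x' (x - x').toNat fun z hz hz' => h z (by omega) (by omega)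
    rw [Int.toNat_of_nonneg (by omega), add_sub_cancel] at h1
    exact h1.symm

private theorem mc_v' {S : Set Vert} {x y y' : ℤ}
    (h : ∀ z : ℤ, min y y' ≤ z → z ≤ max y y' → ((x, z) : Vert) ∈ S) :
    Conn allOpen S (x, y) (x, y') := by
  rcases le_total y y' with hx | hx
  · have h1 := mc_v (S := S) (x := x) y (y' - y).toNat fun z hz hz' => h z (by omega) (by omega)
    rwa [Int.toNat_of_nonneg (by omega), add_sub_cancel] at h1
  · have h1 := mc_v (S := S) (x := x) y' (y - y').toNat fun z hz hz' => h z (by omega) (by omega)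
    rw [Int.toNat_of_nonneg (by omega), add_sub_cancel] at h1
    exact h1.symm

private theorem mc_rect {a b c d : ℤ} {u v : Vert} (hu : u ∈ rect a b c d)
    (hv : v ∈ rect a b c d) : Conn allOpen (rect a b c d) u v := by
  obtain ⟨u1, u2⟩ := u
  obtain ⟨v1, v2⟩ := v
  simp only [rect, Set.mem_ofPred_eq] at hu hv
  have h1 : Conn allOpen (rect a b c d) (u1, u2) (v1, u2) := mc_h' fun z hz hz' => by
    simp only [rect, Set.mem_ofPred_eq]
    omega
  have h2 : Conn allOpen (rect a b c d) (v1, u2) (v1, v2) := mc_v' fun z hz hz' => by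
    simp only [rect, Set.mem_ofPred_eq]
    omega
  exact h1.trans h2

theorem mc_T {d : Side} {k : ℕ} {u v : Vert} (hu : u ∈ T d k) (hv : v ∈ T d k) :
    Conn allOpen (T d k) u v := by
  cases d <;> exact mc_rect hu hv

/-! ### Elementary geometry -/

theorem mc_T_ball {d : Side} {k : ℕ} : T d k ⊆ ball 0 (36 * k) := by
  intro a ha
  cases d
  all_goals
    simp only [T, rect, Set.mem_ofPred_eq] at ha
    simp only [mem_ball, Prod.fst_zero, Prod.snd_zero, Nat.cast_mul, Nat.cast_ofNat]
    omega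

private theorem mc_T_far {d : Side} {k : ℕ} (hk : 1 ≤ k) {a : Vert} (ha : a ∈ T d k) :
    a ∉ ball 0 2 := by
  intro hb
  simp only [mem_ball, Prod.fst_zero, Prod.snd_zero, Nat.cast_ofNat] at hb
  cases d
  all_goals
    simp only [T, rect, Set.mem_ofPred_eq] at ha
    omega

theorem mc_Mouth_ball {d : Side} {k : ℕ} : Mouth d k ⊆ ball 0 (32 * k) := by
  intro a ha
  cases d
  all_goals
    simp only [Mouth, rect, Set.mem_ofPred_eq] at ha
    simp only [mem_ball, Prod.fst_zero, Prod.snd_zero, Nat.cast_mul, Nat.cast_ofNat]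
    omega

/-- One cluster is confined (abstract form).  `η` is the configuration with filled corridors. -/
theorem mc_conf {k ρ : ℕ} {ω cut : Config} {Dm C C' X Y Mx My : Set Vert}
    {G : Finset Vert} {t : Set Edge}
    (ht : t = rv Dm (X ∪ Y) ∪ vE (C ∪ C')) (hk : 1 ≤ k) (hρk : 4 * ρ + 2 ≤ k)
    (hcut : ∀ e, cut e = true → ω e = true)
    (hX : ∀ a b e, Joins e a b → fillS (C ∪ C') cut (sv b) = true → a ∈ X → b ∈ Dm → b ∈ X)
    (hY : ∀ a b e, Joins e a b → fillS (C ∪ C') cut (sv b) = true → a ∈ Y → b ∈ Dm → b ∈ Y)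
    (hXD : X ⊆ Dm) (hYD : Y ⊆ Dm)
    (hCX : ∀ a ∈ C, a ∈ Dm → a ∈ X)
    (hXe : ∀ a b e, Joins e a b → a ∈ X → b ∉ Dm → a ∈ C ∪ Mx)
    (hYe : ∀ a b e, Joins e a b → a ∈ Y → b ∉ Dm → a ∈ C' ∪ My)
    (hsep : ∀ a ∈ C ∪ Mx, ∀ b ∈ C' ∪ My, b ∉ ball a k)
    (hG : ∀ a ∈ C ∪ Mx, ∀ b, b ∈ ball a 1 → ∃ g ∈ G, b ∈ ball g ρ)
    (hseal : ω ∈ Seal G ρ t) {x z : Vert} (hx : x ∈ X)
    (hc : Conn (sit (fillS (C ∪ C') cut)) Set.univ x z) :
    z ∈ X ∪ C ∨ (z ∉ Y ∪ C' ∧ ∃ a ∈ C ∪ Mx, z ∈ ball a (4 * ρ + 1)) := by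
  have hadj : ∀ a b e, Joins e a b → a ∈ C ∪ Mx → b ∉ C' ∪ My := by
    intro a b e hj ha hb
    exact hsep a ha b hb (ball_mono' hk (Pool.Agent.H59.EX.ball_of_joins hj.symm))
  -- open sites off the clusters and the corridors are not determined
  have free : ∀ b, fillS (C ∪ C') cut (sv b) = true → b ∉ X ∪ C → b ∉ Y ∪ C' → sv b ∉ t := by
    intro b hob hb1 hb2
    rw [ht]
    rintro (h | h)
    · obtain ⟨a, e, hj, -, hbD, h1⟩ := of_mem_rv h
      rcases h1 with (h1 | h1) | (h1 | h1)
      · exact hb1 (Or.inl (hX a b e hj hob h1 hbD))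
      · exact hb2 (Or.inl (hY a b e hj hob h1 hbD))
      · exact hb1 (Or.inl h1)
      · exact hb2 (Or.inl h1)
    · rcases sv_mem_vE.1 h with h | h
      · exact hb1 (Or.inr h)
      · exact hb2 (Or.inr h)
  refine seal_confine (w := ω) (W := Set.univ) (S := X ∪ C) (F := Y ∪ C') (Ex := C ∪ Mx) (t := t)
    (G := G) ?_ hseal hG ?_ ?_ ?_ (Or.inl hx) hc
  · intro a ha ho
    rcases fill_sv.1 ho with h | h
    · exact hcut _ h
    · refine absurd ?_ ha
      rw [ht]
      exact Or.inr (sv_mem_vE.2 h)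
  · intro a b e hj _ hob _ _ ha hb
    have hbX : b ∉ X := fun h' => hb (Or.inl h')
    have hE : a ∈ C ∪ Mx ∧ b ∉ Y ∪ C' := by
      by_cases haX : a ∈ X
      · have hbD : b ∉ Dm := fun h' => hbX (hX a b e hj hob haX h')
        have haE := hXe a b e hj haX hbD
        have hbC' := hadj a b e hj haE
        refine ⟨haE, ?_⟩
        rintro (h' | h')
        · exact hbD (hYD h')
        · exact hbC' (Or.inl h')
      · have haC : a ∈ C := ha.resolve_left haX
        have haD : a ∉ Dm := fun h' => haX (hCX a haC h')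
        have hbC' := hadj a b e hj (Or.inl haC)
        refine ⟨Or.inl haC, ?_⟩
        rintro (h' | h')
        · exact hbC' (hYe b a e hj.symm h' haD)
        · exact hbC' (Or.inl h')
    exact ⟨hE.1, hE.2, free b hob hb hE.2⟩
  · intro a b e hj hoa _ _ _ ha1 ha2 hb x' hx' hbx
    have hnear : b ∈ ball x' k := ball_mono' hρk hbx
    rcases hb with hb | hb
    · have haD : a ∉ Dm := fun h' => ha2 (Or.inl (hY b a e hj.symm hoa hb h'))
      exact hsep x' hx' b (hYe b a e hj.symm hb haD) hnear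
    · exact hsep x' hx' b (Or.inl hb) hnear
  · intro a b e _ _ hob _ _ _ _ hb1 hb2
    exact free b hob hb1 hb2

/-- One side of a separated event: open neighbours of the cluster belong to the cluster. -/
theorem mc_step {s : Src} {d d' : Side} {k : ℕ} {ω : Config} {x₀ : Vert} {a b : Vert}
    {e : Edge} {C : Set Vert} (hx : s.cut ω (sv x₀) = true) (hj : Joins e a b)
    (hC : ∀ b ∈ C, b ∈ dom d d' k → b ∈ T d k ∪ T d' k)
    (ho : fillS C (s.cut ω) (sv b) = true)
    (ha : a ∈ clus (sit (s.ful d d' k ω)) (dom d d' k) {x₀}) (hb : b ∈ dom d d' k) :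
    b ∈ clus (sit (s.ful d d' k ω)) (dom d d' k) {x₀} := by
  have hoa : s.ful d d' k ω (sv a) = true := open_of_clus (le_fillS hx) ha
  refine clus_adj ha hoa ?_ hj hb
  rcases fill_sv.1 ho with h | h
  · exact le_fillS h
  · exact fill_sv.2 (Or.inr (hC b h hb))

theorem mc_exit {d d' : Side} {k : ℕ} {a b : Vert} {e : Edge} (hj : Joins e a b)
    (ha : a ∈ dom d d' k) (hb : b ∉ dom d d' k) :
    a ∈ sphere 0 (32 * k) ∨ a ∈ T d k ∨ a ∈ T d' k := by
  rcases ha with ha | ha | ha
  · exact Or.inl (mem_sphere_of_joins hj ha fun h => hb (Or.inl h))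
  · exact Or.inr (Or.inl ha)
  · exact Or.inr (Or.inr ha)

theorem mc_dom_ball {d d' : Side} {k : ℕ} : dom d d' k ⊆ ball 0 (36 * k) := by
  rintro a (ha | ha | ha)
  · exact ball_mono' (by omega) ha
  · exact mc_T_ball ha
  · exact mc_T_ball ha

/-- The corridor keeps away from the source. -/
theorem mc_corr_cut {s : Src} {d δ : Side} {k : ℕ} {C : Set Vert} {N : Set Config}
    (hk : 1 ≤ k) (hM : MoveData k d δ C N) {ω : Config} {a : Vert} (ha : a ∈ C) :
    s.cut ω (sv a) = ω (sv a) :=
  cut_of_not_ball fun h => mc_T_far hk (hM.inter ⟨ha, ball_mono' (by omega) h⟩) h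

theorem mc_C_dom' {d δ δ' : Side} {k : ℕ} {C : Set Vert} {N : Set Config}
    (hM : MoveData k d δ C N) : C ⊆ ball 0 (32 * (4 * k)) ∪ (T δ (4 * k) ∪ T δ' (4 * k)) := by
  intro a ha
  rcases hM.sub ha with h | h
  · exact Or.inl (ball_mono' (by omega) h)
  · exact Or.inr (Or.inl h)

/-- The new mouth. -/
theorem mc_mouth {d d₁ d₂ δ : Side} {k ρ : ℕ} {C X : Set Vert} {N : Set Config}
    (hk : 1 ≤ k) (hρk : 4 * ρ + 2 ≤ k) (hM : MoveData k d δ C N) (hX : X ⊆ dom d₁ d₂ k) {v : Vert}
    (hv : v ∈ sphere 0 (32 * (4 * k)))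
    (h : v ∈ X ∪ C ∨ ∃ a ∈ C ∪ Mouth d k, v ∈ ball a (4 * ρ + 1)) : v ∈ Mouth δ (4 * k) := by
  have e1 : 32 * (4 * k) = 128 * k := by ring
  rw [e1] at hv
  have hfar : v ∉ ball 0 (36 * k) := by
    intro hb
    have h2 := hv.2
    simp only [mem_ball, Prod.fst_zero, Prod.snd_zero] at hb h2
    push_cast at hb h2
    omega
  rcases h with (h | h) | ⟨a, ha | ha, h⟩
  · exact absurd (mc_dom_ball (hX h)) hfar
  · exact hM.mouth v hv v h self_mem_ball
  · exact hM.mouth v hv a ha (ball_mono' (by omega) h)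
  · refine absurd ?_ hfar
    have h1 := mc_Mouth_ball ha
    simp only [mem_ball, Prod.fst_zero, Prod.snd_zero] at h1 h ⊢
    push_cast at h1 h ⊢
    omega

end Pool.Agent.H38.N59

end

section

/-!
# All moves between pairs of sides, for sites
-/

set_option autoImplicit false

open MeasureTheory ProbabilityTheory unitInterval

namespace Pool.Agent.H38.N59

open Pool.Agent.H89.Perc
open Pool.Agent.H61.NC hiding RSWreg
open Pool.Agent.H83.SK (sv sit sit_true RSWreg)
open Pool.Agent.H59.EX (Side Gen MoveData MoveSep move_straight move_turn msep_EW msep_EN msep_WT msep_ST)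
open Pool.Agent.H83.SK.NG (prob_move)

/-- The separated event with sides `d, d'` at scale `k` can be extended to sides `e, e'` at scale
`4 ^ m k`. -/
def OKm (m : ℕ) (d d' e e' : Side) : Prop :=
  ∀ (c : ℝ) (K : ℕ), 0 < c → ∃ C : ℝ, 0 < C ∧ ∀ (s : Src) (k n : ℕ) (q : I), 8 ≤ k → k ≤ K * n →
    RSWreg c n q → Pr q (Sep s d d' k) ≤ C * Pr q (Sep s e e' (4 ^ m * k))

variable {m m' : ℕ} {d d' e e' f f' : Side}

theorem hk4 {k : ℕ} (hk : 8 ≤ k) : 4 ≤ k := by omega

theorem okm_trans (h : OKm m d d' e e') (h' : OKm m' e e' f f') : OKm (m + m') d d' f f' := by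
  intro c K hc
  obtain ⟨C, hC, H⟩ := h c K hc
  obtain ⟨C', hC', H'⟩ := h' c (4 ^ m * K) hc
  refine ⟨C * C', mul_pos hC hC', fun s k n q hk hkn hR => ?_⟩
  have h1 := H s k n q hk hkn hR
  have hpos : 1 ≤ 4 ^ m := Nat.one_le_pow _ _ (by norm_num)
  have h2 := H' s (4 ^ m * k) n q (by nlinarith only [hk, hpos]) (by nlinarith only [hkn, hpos]) hR
  have h3 : 4 ^ m' * (4 ^ m * k) = 4 ^ (m + m') * k := by
    rw [pow_add]; ring
  rw [h3] at h2
  calc Pr q (Sep s d d' k) ≤ C * Pr q (Sep s e e' (4 ^ m * k)) := h1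
    _ ≤ C * (C' * Pr q (Sep s f f' (4 ^ (m + m') * k))) :=
        mul_le_mul_of_nonneg_left h2 hC.le
    _ = C * C' * Pr q (Sep s f f' (4 ^ (m + m') * k)) := by ring

end Pool.Agent.H38.N59

end
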