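import Pool.Agent.H94.BG.H31.PT.M07_4
import Pool.Agent.H94.BG.H31.PT.M08_2
import Pool.Agent.H94.BG.H31.PT.M13_1
import Pool.Agent.H94.BG.H31.PT.M18_5

/-! The parts of this file: H83.SK.P29.BlockAnn, H83.SK.P29.OuterSplit, H83.SK.P29.QM, H38.SK.N59.Iter0, H38.SK.N59.MoveCore, H38.SK.N59.Moves. -/

section

/-!
# A pivotal block of the torus is surrounded by two distinct crossing clusters
-/

open MeasureTheory ProbabilityTheory unitInterval

namespace Pool.Agent.H83.SK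

open Pool.Agent.H29.Sep

open Pool.Agent.H89.Perc Pool.Agent.H61.NC

private lemma blockAnn_sphere {r : ℕ} {u v : Vert} :
    ((u.1 - v.1, u.2 - v.2) : Vert) ∈ sphere 0 r ↔ u ∈ sphere v r := by
  simp only [sphere, ball, rect, Set.mem_ofPred_eq, Prod.fst_zero, Prod.snd_zero]
  omega

private lemma blockAnn_dom {t R : ℕ} {u v : Vert} :
    ((u.1 - v.1, u.2 - v.2) : Vert) ∈ dom t R ↔ u ∈ Pool.Agent.H61.NC.Ring v t R := by
  simp only [dom, Pool.Agent.H61.NC.Ring, ball, rect, Set.mem_sdiff, Set.mem_ofPred_eq,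
    Prod.fst_zero, Prod.snd_zero]
  omega

/-- The annulus events at `v` and at `0`. -/
private lemma blockAnn_shift {ω : Config} {v : Vert} {t R : ℕ} (h : ω ∈ Two v t R) :
    (fun e => ω (shiftE v e)) ∈ A2 t R := by
  obtain ⟨u, u', hu, hu', ⟨w, hw, h1⟩, ⟨w', hw', h2⟩, h3⟩ := h
  have hset : {w : Vert | (w.1 - v.1, w.2 - v.2) ∈ dom t R} = Pool.Agent.H61.NC.Ring v t R := by
    ext w
    exact blockAnn_dom
  have key : ∀ x y : Vert, Conn (fun e => ω (shiftE v e)) (dom t R)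
      (x.1 - v.1, x.2 - v.2) (y.1 - v.1, y.2 - v.2) ↔
      Conn ω (Pool.Agent.H61.NC.Ring v t R) x y := by
    intro x y
    rw [conn_shift v (dom t R), hset]
    simp only [sub_add_cancel, Prod.mk.eta]
  refine ⟨_, blockAnn_sphere.2 hw, _, blockAnn_sphere.2 hw', _, blockAnn_sphere.2 hu, _,
    blockAnn_sphere.2 hu', (key _ _).2 h1.symm, (key _ _).2 h2.symm, ?_⟩
  rw [key]
  exact fun h4 => h3 ((h1.trans h4).trans h2.symm)

private lemma blockAnn_local (t R : ℕ) : LocalOn (eRect (-R) R (-R) R) (A2 t R) := by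
  rintro ω ω' h ⟨u, hu, u', hu', v, hv, v', hv', h1, h2, h3⟩
  have hmem : ∀ e : Edge, src e ∈ dom t R → e ∈ eRect (-(R : ℤ)) R (-R) R := by
    intro e he
    rw [mem_eRect]
    have := he.1
    simp only [ball, rect, Set.mem_ofPred_eq, Prod.fst_zero, Prod.snd_zero] at this ⊢
    omega
  refine ⟨u, hu, u', hu', v, hv, v', hv', h1.congr fun e he _ => h e (hmem e he),
    h2.congr fun e he _ => h e (hmem e he), fun h4 => h3 ?_⟩
  exact h4.congr fun e he _ => (h e (hmem e he)).symm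

theorem sitT_shift (N : ℕ) (v : Vert) (ω : Config) :
    (fun e => sitT N ω (shiftE v e)) = sit (fun e => ω (modE N (shiftE v e))) := by
  funext ⟨x, y, b⟩
  cases b
  · simp only [sitT, per, sit, sv, src, tgt, shiftE, modE, Bool.false_eq_true, if_false]
    rw [show x + v.1 + 1 = x + 1 + v.1 by ring]
  · simp only [sitT, per, sit, sv, src, tgt, shiftE, modE, if_true]
    rw [show y + v.2 + 1 = y + 1 + v.2 by ring]

/-- Local events at an arbitrary place of the torus. -/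
theorem PrT_shift_eq {N : ℕ} {q : I} {s : Finset Edge} {A : Set Config} (v : Vert)
    (hA : LocalOn s A) (hinj : Set.InjOn (fun e => modE N (shiftE v e)) (hull s : Set Edge)) :
    PrT N q {η | (fun e => η (shiftE v e)) ∈ A} = Pr q A := by
  unfold PrT Pr
  have h1 : {ω : Config | sitT N ω ∈ {η : Config | (fun e => η (shiftE v e)) ∈ A}} =
      {ω : Config | (fun e => ω (modE N (shiftE v e))) ∈ {ω | sit ω ∈ A}} := by
    ext ω
    simp only [Set.mem_ofPred_eq]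
    rw [sitT_shift]
  rw [h1]
  exact Pool.Agent.H89.Perc.Pr_comp (s := hull s) (localOn_sit hA) hinj

theorem mem_blkS {N r : ℕ} {e : Edge} : e ∈ blkS N r ↔
    e.2.2 = false ∧ mid N - r ≤ e.1 ∧ e.1 ≤ mid N + r ∧ mid N - r ≤ e.2.1 ∧ e.2.1 ≤ mid N + r := by
  classical
  unfold blkS
  rw [Finset.mem_filter, blk, mem_eRect]
  simp only [src, rect, Set.mem_ofPred_eq]
  tauto

theorem mem_blk {N r : ℕ} {e : Edge} : e ∈ blk N r ↔
    mid N - r ≤ e.1 ∧ e.1 ≤ mid N + r ∧ mid N - r ≤ e.2.1 ∧ e.2.1 ≤ mid N + r := by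
  unfold blk
  rw [mem_eRect]
  simp only [src, rect, Set.mem_ofPred_eq]

/-- If the reduced edge is not in the larger block, the two sites are not in the block. -/
theorem blk_off {N ρ : ℕ} (hN : 2 * ρ + 2 ≤ N) {e : Edge} (he : modE N e ∉ blk N (ρ + 1)) :
    modE N (sv (src e)) ∉ blkS N ρ ∧ modE N (sv (tgt e)) ∉ blkS N ρ := by
  have hN' : (2 * ρ + 2 : ℤ) ≤ N := by exact_mod_cast hN
  have hmid : (ρ : ℤ) + 1 ≤ mid N := by
    unfold mid
    omega
  have hN0 : (0 : ℤ) < N := by omega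
  have hdec : ∀ z : ℤ, 1 ≤ (z + 1) % N → z % N = (z + 1) % N - 1 := by
    intro z hz
    have h1 := Int.emod_lt_of_pos (z + 1) hN0
    have h2 : ((z + 1) - 1) % N = ((z + 1) % N - 1) % N :=
      (Int.emod_sub_emod (z + 1) N 1).symm
    rw [add_sub_cancel_right] at h2
    rw [h2]
    exact Int.emod_eq_of_lt (by omega) (by omega)
  obtain ⟨x, y, b⟩ := e
  rw [mem_blk] at he
  rw [mem_blkS, mem_blkS]
  push_cast at he
  cases b
  · simp only [modE, sv, src, tgt, Bool.false_eq_true, if_false, true_and] at he ⊢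
    constructor
    · omega
    · intro h
      have := hdec x (by omega)
      omega
  · simp only [modE, sv, src, tgt, if_true, true_and] at he ⊢
    constructor
    · omega
    · intro h
      have := hdec y (by omega)
      omega

theorem fill_apply (s : Finset Edge) (b : Bool) (ω : Config) (e : Edge) :
    (e ∈ s → fill s b ω e = b) ∧ (e ∉ s → fill s b ω e = ω e) := by
  classical
  unfold fill
  exact ⟨fun h => if_pos h, fun h => if_neg h⟩

theorem sitT_fill {N ρ : ℕ} (hN : 2 * ρ + 2 ≤ N) {e : Edge} (he : modE N e ∉ blk N (ρ + 1))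
    (b : Bool) (ω : Config) : sitT N (fill (blkS N ρ) b ω) e = sitT N ω e := by
  obtain ⟨h1, h2⟩ := blk_off hN he
  have e1 := (fill_apply (blkS N ρ) b ω (modE N (sv (src e)))).2 h1
  have e2 := (fill_apply (blkS N ρ) b ω (modE N (sv (tgt e)))).2 h2
  show (fill (blkS N ρ) b ω (modE N (sv (src e))) && fill (blkS N ρ) b ω (modE N (sv (tgt e)))) =
    (ω (modE N (sv (src e))) && ω (modE N (sv (tgt e))))
  rw [e1, e2]

theorem per_fill_sitT (N r : ℕ) (b : Bool) (ω : Config) (e : Edge) :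
    (modE N e ∈ blk N r → per N (fill (blk N r) b (sitT N ω)) e = b) ∧
      (modE N e ∉ blk N r → per N (fill (blk N r) b (sitT N ω)) e = sitT N ω e) := by
  constructor
  · intro h
    exact (fill_apply _ _ _ _).1 h
  · intro h
    have h1 : per N (fill (blk N r) b (sitT N ω)) e = sitT N ω (modE N e) :=
      (fill_apply _ _ _ _).2 h
    rw [h1]
    exact congrFun (per_sitT N ω) e

/-- The edges of the blocks: from the sites to the edges. -/
theorem blockPiv_bond {N ρ : ℕ} (hN : 2 * ρ + 2 ≤ N) {ω : Config} (h : ω ∈ BlockPiv N ρ) :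
    sitT N ω ∈ Pool.Agent.H61.NC.BlockPiv N (ρ + 1) := by
  obtain ⟨⟨u, a, b, ha, hc⟩, hno⟩ := h
  refine ⟨⟨u, a, b, ha, hc.mono le_rfl fun e he => ?_⟩, ?_⟩
  · rw [per_sitT] at he
    by_cases h1 : modE N e ∈ blk N (ρ + 1)
    · exact (per_fill_sitT N (ρ + 1) true ω e).1 h1
    · rw [(per_fill_sitT N (ρ + 1) true ω e).2 h1]
      rwa [sitT_fill hN h1] at he
  · rintro ⟨u', a', b', ha', hc'⟩
    refine hno ⟨u', a', b', ha', hc'.mono le_rfl fun e he => ?_⟩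
    rw [per_sitT]
    by_cases h1 : modE N e ∈ blk N (ρ + 1)
    · rw [(per_fill_sitT N (ρ + 1) false ω e).1 h1] at he
      exact absurd he (by simp)
    · rw [(per_fill_sitT N (ρ + 1) false ω e).2 h1] at he
      rwa [sitT_fill hN h1]

theorem modE_inj_box {N R : ℕ} (h3 : 2 * R + 1 ≤ N) :
    Set.InjOn (fun e => modE N (shiftE (mid N, mid N) e))
      {e : Edge | -(R : ℤ) ≤ e.1 ∧ e.1 ≤ R ∧ -(R : ℤ) ≤ e.2.1 ∧ e.2.1 ≤ R} := by
  intro e he e' he' hee
  simp only [Set.mem_ofPred_eq] at he he'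
  simp only [modE, shiftE, Prod.mk.injEq] at hee
  obtain ⟨x, y, d⟩ := e
  obtain ⟨x', y', d'⟩ := e'
  simp only at he he' hee
  obtain ⟨hx, hy, hd⟩ := hee
  have key : ∀ a b : ℤ, -(R : ℤ) ≤ a → a ≤ R → -(R : ℤ) ≤ b → b ≤ R →
      (a + mid N) % N = (b + mid N) % N → a = b := by
    intro a b ha1 ha2 hb1 hb2 hab
    have h5 : (N : ℤ) ∣ (b + mid N) - (a + mid N) :=
      Int.ModEq.dvd (show a + mid N ≡ b + mid N [ZMOD N] from hab)
    have h6 : (b + mid N) - (a + mid N) = b - a := by ring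
    rw [h6] at h5
    have h7 : |b - a| < N := by
      rw [abs_lt]
      constructor <;> omega
    have := Int.eq_zero_of_abs_lt_dvd h5 h7
    omega
  rw [key x x' he.1 he.2.1 he'.1 he'.2.1 hx, key y y' he.2.2.1 he.2.2.2 he'.2.2.1 he'.2.2.2 hy,
    hd]

/-- The sites of the edges in a box. -/
theorem hull_eRect (R : ℕ) : (hull (eRect (-(R : ℤ)) R (-(R : ℤ)) R) : Set Edge) ⊆
    {e : Edge | -((R + 1 : ℕ) : ℤ) ≤ e.1 ∧ e.1 ≤ (R + 1 : ℕ) ∧ -((R + 1 : ℕ) : ℤ) ≤ e.2.1 ∧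
      e.2.1 ≤ (R + 1 : ℕ)} := by
  intro g hg
  rw [Finset.mem_coe, mem_hull] at hg
  obtain ⟨⟨x, y, d⟩, he, hg⟩ := hg
  rw [mem_eRect] at he
  simp only [src, rect, Set.mem_ofPred_eq] at he
  rcases hg with rfl | rfl
  · simp only [sv, src, Set.mem_ofPred_eq]
    push_cast
    omega
  · cases d
    · simp only [sv, tgt, Bool.false_eq_true, if_false, Set.mem_ofPred_eq]
      push_cast
      omega
    · simp only [sv, tgt, if_true, Set.mem_ofPred_eq]
      push_cast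
      omega

theorem blockPiv_le {N ρ R : ℕ} (q : I) (h1 : 1 ≤ ρ) (h2 : ρ + 3 ≤ R) (h3 : 4 * R ≤ N) :
    Pool.Agent.H89.Perc.Pr q (BlockPiv N ρ) ≤ Pr q (A2 (ρ + 3) R) := by
  have hinj : Set.InjOn (fun e => modE N (shiftE (mid N, mid N) e))
      (hull (eRect (-(R : ℤ)) R (-R) R) : Set Edge) :=
    (modE_inj_box (R := R + 1) (by omega)).mono (hull_eRect R)
  rw [← PrT_shift_eq (mid N, mid N) (blockAnn_local (ρ + 3) R) hinj]
  refine Pool.Agent.H89.Perc.Pr_mono fun ω hω => ?_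
  have h4 := blockPiv_bond (by omega) hω
  have h5 := two_of_blockPiv (N := N) (R := ρ + 1) (t := ρ + 3) (R' := R) (by omega) h2
    (by omega) h4
  rw [per_sitT] at h5
  exact blockAnn_shift h5

end Pool.Agent.H83.SK

end

section

/-!
# Outer decomposition of the annulus event into two-terminal events
-/

open MeasureTheory ProbabilityTheory unitInterval

namespace Pool.Agent.H83.SK

open Pool.Agent.H29.Sep

open Pool.Agent.H89.Perc Pool.Agent.H61.NC

private theorem OuterSplit_ball {v : Vert} {r : ℕ} : v ∈ ball (0 : Vert) r ↔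
    -(r : ℤ) ≤ v.1 ∧ v.1 ≤ r ∧ -(r : ℤ) ≤ v.2 ∧ v.2 ≤ r := by
  rw [mem_ball]
  simp

private theorem OuterSplit_sphere {v : Vert} {r : ℕ} : v ∈ sphere (0 : Vert) r ↔
    (-(r : ℤ) ≤ v.1 ∧ v.1 ≤ r ∧ -(r : ℤ) ≤ v.2 ∧ v.2 ≤ r) ∧
      (v.1 = -(r : ℤ) ∨ v.1 = r ∨ v.2 = -(r : ℤ) ∨ v.2 = r) := by
  rw [← OuterSplit_ball]
  show v ∈ ball 0 r ∧ _ ↔ _
  simp

/-- points of the sphere in distance at most `s` of every point of the sphere -/
private theorem OuterSplit_net (M R s : ℕ) (hs : 1 ≤ s) (hRs : 2 * R ≤ s * (4 * M)) :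
    ∃ Z : Finset Vert, Z.card ≤ 4 * (4 * M + 1) ∧ (∀ z ∈ Z, z ∈ sphere 0 R) ∧
      ∀ u ∈ sphere 0 R, ∃ z ∈ Z, u ∈ ball z s := by
  classical
  obtain ⟨y, hy⟩ : ∃ y : ℕ → ℤ, ∀ i, y i = min (-(R : ℤ) + i * s) R := ⟨_, fun _ => rfl⟩
  have hyb : ∀ i, -(R : ℤ) ≤ y i ∧ y i ≤ R := by
    intro i
    rw [hy]
    refine ⟨le_min ?_ (by omega), min_le_right _ _⟩
    have : (0 : ℤ) ≤ (i : ℤ) * s := by positivity
    omega
  have hnear : ∀ x : ℤ, -(R : ℤ) ≤ x → x ≤ R → ∃ i ∈ Finset.range (4 * M + 1),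
      y i ≤ x ∧ x ≤ y i + s := by
    intro x hx1 hx2
    obtain ⟨m, hm⟩ : ∃ m : ℕ, (m : ℤ) = x + R := ⟨(x + R).toNat, by omega⟩
    refine ⟨m / s, ?_, ?_⟩
    · rw [Finset.mem_range, Nat.lt_succ_iff]
      apply Nat.div_le_of_le_mul
      omega
    · have h1 := Nat.div_add_mod m s
      have h2 := Nat.mod_lt m (show 0 < s by omega)
      have h3 : ((m / s : ℕ) : ℤ) * s + ((m % s : ℕ) : ℤ) = m := by
        rw [mul_comm]
        exact_mod_cast h1
      have h4 : ((m % s : ℕ) : ℤ) < s := by exact_mod_cast h2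
      have h5 : (0 : ℤ) ≤ ((m % s : ℕ) : ℤ) := by positivity
      have h6 : y (m / s) = -(R : ℤ) + ((m / s : ℕ) : ℤ) * s := by
        rw [hy]
        apply min_eq_left
        linarith only [hx2, hm, h3]
      rw [h6]
      constructor
      · linarith only [hm, h3]
      · linarith only [hm, h3, h4]
  refine ⟨(((Finset.range (4 * M + 1)).image (fun i => ((R : ℤ), y i)) ∪
    (Finset.range (4 * M + 1)).image (fun i => (-(R : ℤ), y i))) ∪
    (Finset.range (4 * M + 1)).image (fun i => (y i, (R : ℤ)))) ∪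
    (Finset.range (4 * M + 1)).image (fun i => (y i, -(R : ℤ))), ?_, ?_, ?_⟩
  · have hc : ∀ f : ℕ → Vert, ((Finset.range (4 * M + 1)).image f).card ≤ 4 * M + 1 := fun f =>
      (Finset.card_image_le).trans (by rw [Finset.card_range])
    refine (Finset.card_union_le _ _).trans ?_
    have h1 := hc (fun i => (y i, -(R : ℤ)))
    have h2 := hc (fun i => (y i, (R : ℤ)))
    have h3 := hc (fun i => (-(R : ℤ), y i))
    have h4 := hc (fun i => ((R : ℤ), y i))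
    have h5 := Finset.card_union_le ((Finset.range (4 * M + 1)).image (fun i => ((R : ℤ), y i)) ∪
      (Finset.range (4 * M + 1)).image (fun i => (-(R : ℤ), y i)))
      ((Finset.range (4 * M + 1)).image (fun i => (y i, (R : ℤ))))
    have h6 := Finset.card_union_le ((Finset.range (4 * M + 1)).image (fun i => ((R : ℤ), y i)))
      ((Finset.range (4 * M + 1)).image (fun i => (-(R : ℤ), y i)))
    omega
  · intro z hz
    simp only [Finset.mem_union, Finset.mem_image] at hz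
    rw [OuterSplit_sphere]
    have hR0 : (0 : ℤ) ≤ R := by positivity
    rcases hz with ((⟨i, -, rfl⟩ | ⟨i, -, rfl⟩) | ⟨i, -, rfl⟩) | ⟨i, -, rfl⟩
    · obtain ⟨h1, h2⟩ := hyb i
      exact ⟨⟨by simp only; omega, by simp only; omega, h1, h2⟩, Or.inr (Or.inl rfl)⟩
    · obtain ⟨h1, h2⟩ := hyb i
      exact ⟨⟨by simp only; omega, by simp only; omega, h1, h2⟩, Or.inl rfl⟩
    · obtain ⟨h1, h2⟩ := hyb i
      exact ⟨⟨h1, h2, by simp only; omega, by simp only; omega⟩, Or.inr (Or.inr (Or.inr rfl))⟩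
    · obtain ⟨h1, h2⟩ := hyb i
      exact ⟨⟨h1, h2, by simp only; omega, by simp only; omega⟩, Or.inr (Or.inr (Or.inl rfl))⟩
  · intro u hu
    rw [OuterSplit_sphere] at hu
    obtain ⟨⟨h1, h2, h3, h4⟩, h5⟩ := hu
    obtain ⟨i, hi, hi1, hi2⟩ := hnear u.1 h1 h2
    obtain ⟨j, hj, hj1, hj2⟩ := hnear u.2 h3 h4
    simp only [Finset.mem_union, Finset.mem_image]
    rcases h5 with h5 | h5 | h5 | h5
    · refine ⟨(-(R : ℤ), y j), Or.inl (Or.inl (Or.inr ⟨j, hj, rfl⟩)), ?_⟩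
      rw [mem_ball]
      simp only
      omega
    · refine ⟨((R : ℤ), y j), Or.inl (Or.inl (Or.inl ⟨j, hj, rfl⟩)), ?_⟩
      rw [mem_ball]
      simp only
      omega
    · refine ⟨(y i, -(R : ℤ)), Or.inr ⟨i, hi, rfl⟩, ?_⟩
      rw [mem_ball]
      simp only
      omega
    · refine ⟨(y i, (R : ℤ)), Or.inl (Or.inr ⟨i, hi, rfl⟩), ?_⟩
      rw [mem_ball]
      simp only
      omega

/-- the local event in a box of the decomposition -/
private theorem OuterSplit_bad {ω : Config} {t R s : ℕ} (h1 : 1 ≤ t) (h2 : 4 * t ≤ R)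
    (hs : s ≤ R / 2) {z u u' v v' v0 : Vert} (hz : z ∈ sphere 0 R)
    (hv : v ∈ sphere 0 t) (hv' : v' ∈ sphere 0 t) (huv : Conn ω (dom t R) u v)
    (huv' : Conn ω (dom t R) u' v') (huu : ¬ Conn ω (dom t R) u u') (hu' : u' ∈ ball z s)
    (hv0 : v0 ∈ ball z s) (huv0 : Conn ω (dom t R) u v0) :
    ω ∈ LocTwo (ball 0 R) z s (R / 2) := by
  have hR : ((R / 2 : ℕ) : ℤ) * 2 ≤ R := by
    have := Nat.div_mul_le_self R 2
    exact_mod_cast this
  have hsR : (s : ℤ) ≤ ((R / 2 : ℕ) : ℤ) := by exact_mod_cast hs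
  have h2' : 4 * (t : ℤ) ≤ R := by exact_mod_cast h2
  have h1' : 1 ≤ (t : ℤ) := by exact_mod_cast h1
  rw [OuterSplit_sphere] at hz
  have hout : ∀ w ∈ sphere (0 : Vert) t, w ∉ ball z (R / 2) := by
    intro w hw hw2
    rw [OuterSplit_sphere] at hw
    rw [mem_ball] at hw2
    omega
  have hin : ∀ w, w ∈ ball z s → w ∈ ball z (R / 2) := by
    intro w hw
    rw [mem_ball] at hw ⊢
    omega
  obtain ⟨x, hx, hcx⟩ := (huv0.symm.trans huv).to_sphere (v := z) (r := R / 2) (hin _ hv0)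
    (Or.inl (hout v hv))
  obtain ⟨x', hx', hcx'⟩ := huv'.to_sphere (v := z) (r := R / 2) (hin _ hu') (Or.inl (hout v' hv'))
  have hsub : dom t R ∩ ball z (R / 2) ⊆ ball 0 R ∩ ball z (R / 2) :=
    fun w hw => ⟨hw.1.1, hw.2⟩
  refine ⟨v0, hv0, u', hu', x, hx, x', hx', hcx.mono_set hsub, hcx'.mono_set hsub, ?_⟩
  intro h3
  apply huu
  refine huv0.trans (h3.mono_set ?_)
  rintro w ⟨hw1, hw2⟩
  refine ⟨hw1, fun hw3 => ?_⟩
  rw [OuterSplit_ball] at hw3
  rw [mem_ball] at hw2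
  omega

/-- Outer decomposition. -/
theorem outer_split (hB : BadIn) : ∀ c ε : ℝ, 0 < c → 0 < ε → ∃ J R₀ : ℕ,
    ∀ (n t R : ℕ) (q : I), 1 ≤ t → 4 * t ≤ R → R₀ ≤ R → R ≤ n → RSWreg c n q →
      ∃ F : Finset (Set Vert), F.card ≤ J ∧ (∀ β ∈ F, β ⊆ sphere 0 R) ∧
        Pr q (A2 t R) ≤ ∑ β ∈ F, ∑ γ ∈ F, Pr q (BT t R β γ) + ε * Pr q (A2 t (R / 4)) := by
  classical
  intro c ε hc hε
  obtain ⟨C, κ, hC, hκ, hbad⟩ := hB c hc
  -- the choice of the number of boxes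
  obtain ⟨δ, hδ⟩ : ∃ δ : ℝ, δ = ε / (3 * C) := ⟨_, rfl⟩
  have hδ0 : 0 < δ := by rw [hδ]; positivity
  obtain ⟨M, hM⟩ := exists_nat_ge (max 2 (3 / δ ^ (1 / κ)))
  have hM2 : (2 : ℝ) ≤ M := (le_max_left _ _).trans hM
  have hM2' : 2 ≤ M := by exact_mod_cast hM2
  have hMpos : (0 : ℝ) < M := by linarith only [hM2]
  have hM3 : (3 / (M : ℝ)) ^ κ ≤ δ := by
    have h1 : 3 / δ ^ (1 / κ) ≤ M := (le_max_right _ _).trans hM
    have h2 : 0 < δ ^ (1 / κ) := Real.rpow_pos_of_pos hδ0 _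
    have h3 : 3 / (M : ℝ) ≤ δ ^ (1 / κ) := by
      rw [div_le_iff₀ hMpos]
      rw [div_le_iff₀ h2] at h1
      linarith only [h1]
    calc (3 / (M : ℝ)) ^ κ ≤ (δ ^ (1 / κ)) ^ κ :=
          Real.rpow_le_rpow (by positivity) h3 hκ.le
      _ = δ := by
          rw [← Real.rpow_mul hδ0.le, one_div, inv_mul_cancel₀ hκ.ne', Real.rpow_one]
  refine ⟨4 * (4 * M + 1), max M 12, ?_⟩
  intro n t R q h1t h4t hMR' hRn hreg
  have hMR : M ≤ R := (le_max_left _ _).trans hMR'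
  have hR12 : 12 ≤ R := (le_max_right _ _).trans hMR'
  obtain ⟨s, hs⟩ : ∃ s : ℕ, s = R / M := ⟨_, rfl⟩
  have hs1 : 1 ≤ s := by
    rw [hs]
    exact (Nat.one_le_div_iff (by omega)).2 hMR
  have hsM : s * M ≤ R := by rw [hs]; exact Nat.div_mul_le_self R M
  have hsM2 : R < (s + 1) * M := by
    rw [hs]
    have := Nat.lt_div_mul_add (a := R) (b := M) (by omega)
    rw [add_mul, one_mul]
    omega
  have hs2 : s ≤ R / 2 := by
    rw [hs]
    exact Nat.div_le_div_left hM2' (by norm_num)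
  obtain ⟨Z, hZc, hZs, hZn⟩ := OuterSplit_net M R s hs1 (by nlinarith only [hsM2, hs1])
  refine ⟨Z.image (fun z => sphere 0 R ∩ ball z s), (Finset.card_image_le).trans hZc, ?_, ?_⟩
  · intro β hβ
    obtain ⟨z, -, rfl⟩ := Finset.mem_image.1 hβ
    exact Set.inter_subset_left
  obtain ⟨F, hF⟩ : ∃ F : Finset (Set Vert), F = Z.image (fun z => sphere 0 R ∩ ball z s) :=
    ⟨_, rfl⟩
  rw [← hF]
  obtain ⟨Bd, hBd⟩ : ∃ Bd : Set Config,
      Bd = {ω | ∃ z ∈ sphere 0 R, ω ∈ LocTwo (ball 0 R) z s (R / 2)} := ⟨_, rfl⟩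
  have hcover : A2 t R ⊆ (⋃ β ∈ F, ⋃ γ ∈ F, BT t R β γ) ∪ (Bd ∩ A2 t (R / 4)) := by
    intro ω hω
    have hω' := hω
    obtain ⟨u, hu, u', hu', v, hv, v', hv', h5, h6, h7⟩ := hω
    obtain ⟨z0, hz0, hz0u⟩ := hZn u hu
    obtain ⟨z, hz, hzu⟩ := hZn u' hu'
    by_cases h8 : ∀ w ∈ sphere 0 R ∩ ball z s, ¬ Conn ω (dom t R) u w
    · left
      simp only [Set.mem_iUnion]
      refine ⟨sphere 0 R ∩ ball z0 s, ?_, sphere 0 R ∩ ball z s, ?_, ?_⟩
      · rw [hF]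
        exact Finset.mem_image_of_mem _ hz0
      · rw [hF]
        exact Finset.mem_image_of_mem _ hz
      · exact ⟨⟨u, ⟨hu, hz0u⟩, v, hv, h5, h8⟩, u', ⟨hu', hzu⟩, v', hv', h6⟩
    · right
      push Not at h8
      obtain ⟨v0, ⟨-, hv0⟩, h9⟩ := h8
      refine ⟨?_, ?_⟩
      · rw [hBd]
        exact ⟨z, hZs z hz, OuterSplit_bad h1t h4t hs2 (hZs z hz) hv hv' h5 h6 h7 hzu hv0 h9⟩
      · refine A2_mono h1t le_rfl ?_ (Nat.div_le_self R 4) hω'
        omega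
  -- the bad event is independent of the inner event
  obtain ⟨S1, hS1⟩ : ∃ S1 : Finset Edge, S1 = (eRect (-(R : ℤ)) R (-(R : ℤ)) R).filter
      (fun e => src e ∉ ball (0 : Vert) (R / 4 + 2)) := ⟨_, rfl⟩
  have hloc : LocalOn S1 Bd := by
    have key : ∀ ω ω' : Config, (∀ e ∈ S1, ω e = ω' e) → ∀ z ∈ sphere (0 : Vert) R,
        ∀ u v : Vert, Conn ω (ball 0 R ∩ ball z (R / 2)) u v →
          Conn ω' (ball 0 R ∩ ball z (R / 2)) u v := by
      intro ω ω' h z hz u v hc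
      refine Conn.congr (fun e he _ => h e ?_) hc
      rw [hS1, Finset.mem_filter]
      refine ⟨mem_eRect.2 (OuterSplit_ball.1 he.1), fun h9 => ?_⟩
      have h10 := he.2
      rw [OuterSplit_sphere] at hz
      rw [OuterSplit_ball] at h9
      rw [mem_ball] at h10
      omega
    rw [hBd]
    rintro ω ω' h ⟨z, hz, u, hu, u', hu', v, hv, v', hv', h5, h6, h7⟩
    exact ⟨z, hz, u, hu, u', hu', v, hv, v', hv', key ω ω' h z hz _ _ h5, key ω ω' h z hz _ _ h6,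
      fun h8 => h7 (key ω' ω (fun e he => (h e he).symm) z hz _ _ h8)⟩
  have hdisj : Disjoint (hull S1) (hull (eRect (-((R / 4 : ℕ) : ℤ)) ((R / 4 : ℕ) : ℤ)
      (-((R / 4 : ℕ) : ℤ)) ((R / 4 : ℕ) : ℤ))) := by
    refine (disj_hull_of (S := ball 0 (R / 4 + 1)) ?_ ?_).symm
    · intro e he
      rw [mem_eRect] at he
      obtain ⟨x, y, b⟩ := e
      cases b <;> simp only [src, tgt, rect, Set.mem_ofPred_eq, OuterSplit_ball, if_true,
        Bool.false_eq_true, if_false] at he ⊢ <;> push_cast <;> omega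
    · intro e he
      rw [hS1, Finset.mem_filter] at he
      obtain ⟨-, he⟩ := he
      obtain ⟨x, y, b⟩ := e
      cases b <;> simp only [src, tgt, OuterSplit_ball, if_true,
        Bool.false_eq_true, if_false] at he ⊢ <;> push_cast at he ⊢ <;> omega
  have hind : Pr q (Bd ∩ A2 t (R / 4)) = Pr q Bd * Pr q (A2 t (R / 4)) :=
    Pr_inter_of_disjoint hloc localOn_A2 hdisj
  have hR2 : 2 ≤ R := by omega
  have hsmall : Pr q Bd ≤ ε := by
    have h5 := hbad n s (R / 2) R q hs1 hs2 (by omega) hRn hreg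
    rw [← hBd] at h5
    refine h5.trans ?_
    have hρ : (R : ℝ) ≤ 3 * ((R / 2 : ℕ) : ℝ) := by
      have : R ≤ 3 * (R / 2) := by omega
      exact_mod_cast this
    have hRpos : (0 : ℝ) < R := by
      have : 0 < R := by omega
      exact_mod_cast this
    have hρpos : (0 : ℝ) < ((R / 2 : ℕ) : ℝ) := by linarith only [hρ, hRpos]
    have h6 : (R : ℝ) / ((R / 2 : ℕ) : ℝ) ≤ 3 := by
      rw [div_le_iff₀ hρpos]
      exact hρ
    have h7 : (s : ℝ) / ((R / 2 : ℕ) : ℝ) ≤ 3 / M := by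
      rw [div_le_div_iff₀ hρpos hMpos]
      have h8 : (s : ℝ) * M ≤ R := by exact_mod_cast hsM
      linarith only [hρ, h8]
    have h8 : ((s : ℝ) / ((R / 2 : ℕ) : ℝ)) ^ κ ≤ δ :=
      (Real.rpow_le_rpow (by positivity) h7 hκ.le).trans hM3
    calc C * ((R : ℝ) / ((R / 2 : ℕ) : ℝ)) * ((s : ℝ) / ((R / 2 : ℕ) : ℝ)) ^ κ
        ≤ C * 3 * δ := by
          refine mul_le_mul (mul_le_mul_of_nonneg_left h6 hC.le) h8
            (Real.rpow_nonneg (by positivity) _) (by positivity)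
      _ = ε := by
          rw [hδ]
          field_simp
  calc Pr q (A2 t R) ≤ Pr q ((⋃ β ∈ F, ⋃ γ ∈ F, BT t R β γ) ∪ (Bd ∩ A2 t (R / 4))) :=
        Pr_mono hcover
    _ ≤ Pr q (⋃ β ∈ F, ⋃ γ ∈ F, BT t R β γ) + Pr q (Bd ∩ A2 t (R / 4)) := Pr_union_le
    _ ≤ ∑ β ∈ F, ∑ γ ∈ F, Pr q (BT t R β γ) + ε * Pr q (A2 t (R / 4)) := by
        refine add_le_add ?_ ?_
        · refine (Pr_biUnion_le F _).trans (Finset.sum_le_sum fun β _ => ?_)
          exact Pr_biUnion_le F _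
        · rw [hind]
          exact mul_le_mul_of_nonneg_right hsmall Pr_nonneg

end Pool.Agent.H83.SK

end

section

/-!
# Quasi-multiplicativity for the planar annulus and the gluing inequality on the torus
-/

open MeasureTheory ProbabilityTheory unitInterval

namespace Pool.Agent.H83.SK

open Pool.Agent.H29.Sep

open Pool.Agent.H89.Perc Pool.Agent.H61.NC

/-- Iterated regularity. -/
theorem reg_iter {C₁ : ℝ} (hC₁ : 1 ≤ C₁) {n : ℕ} {q : I}
    (H : ∀ r : ℕ, 1 ≤ r → 64 * r ≤ n → a4 q r ≤ C₁ * a4 q (4 * r)) (j : ℕ) :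
    ∀ r ρ : ℕ, 1 ≤ r → r ≤ ρ → ρ ≤ 4 ^ j * r → 64 * ρ ≤ n + 64 → a4 q r ≤ C₁ ^ j * a4 q ρ := by
  induction j with
  | zero =>
    intro r ρ h1 h2 h3 _
    have : r = ρ := by
      have : 4 ^ 0 * r = r := by simp
      omega
    subst this
    simp
  | succ j ih =>
    intro r ρ h1 h2 h3 h4
    rcases h2.eq_or_lt with h | h
    · subst h
      have : (1 : ℝ) ≤ C₁ ^ (j + 1) := one_le_pow₀ hC₁
      nlinarith only [this, a4_nn q r]
    · have h5 : 64 * r ≤ n := by omega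
      have h6 := H r h1 h5
      rcases Nat.lt_or_ge (4 * r) ρ with h7 | h7
      · have h8 := ih (4 * r) ρ (by omega) h7.le (by
          have : 4 ^ (j + 1) * r = 4 ^ j * (4 * r) := by ring
          omega) h4
        calc a4 q r ≤ C₁ * a4 q (4 * r) := h6
          _ ≤ C₁ * (C₁ ^ j * a4 q ρ) := by
              apply mul_le_mul_of_nonneg_left h8 (by linarith only [hC₁])
          _ = C₁ ^ (j + 1) * a4 q ρ := by ring
      · have h8 : a4 q (4 * r) ≤ a4 q ρ := a4_anti (by omega) h7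
        have h9 : (1 : ℝ) ≤ C₁ ^ j := one_le_pow₀ hC₁
        calc a4 q r ≤ C₁ * a4 q (4 * r) := h6
          _ ≤ C₁ * a4 q ρ := mul_le_mul_of_nonneg_left h8 (by linarith only [hC₁])
          _ = C₁ * (1 * a4 q ρ) := by ring
          _ ≤ C₁ * (C₁ ^ j * a4 q ρ) := by
              apply mul_le_mul_of_nonneg_left _ (by linarith only [hC₁])
              exact mul_le_mul_of_nonneg_right h9 (a4_nn q ρ)
          _ = C₁ ^ (j + 1) * a4 q ρ := by ring

/-- One step of the absorption. -/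
theorem qm_step {c : ℝ} {C₁ C₂ ε ε₂ : ℝ} {J R₀ k₀ n : ℕ} {q : I}
    (hR : RSWreg c n q) (hε : 0 ≤ ε) (hC₁ : 1 ≤ C₁) (hC₂ : 0 ≤ C₂)
    (H1 : ∀ r : ℕ, 1 ≤ r → 64 * r ≤ n → a4 q r ≤ C₁ * a4 q (4 * r))
    (H2 : ∀ (t R : ℕ), 1 ≤ t → 4 * t ≤ R → R₀ ≤ R → R ≤ n →
      ∃ F : Finset (Set Vert), F.card ≤ J ∧ (∀ β ∈ F, β ⊆ sphere 0 R) ∧
        Pr q (A2 t R) ≤ ∑ β ∈ F, ∑ γ ∈ F, Pr q (BT t R β γ) + ε₂ * Pr q (A2 t (R / 4)))
    (H3 : ∀ (k R : ℕ) (L K : Set Vert), k₀ ≤ k → 64 * 4 ^ k ≤ R → R ≤ n →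
      L ⊆ sphere 0 R → K ⊆ sphere 0 R →
      a4 q (4 ^ k) * Pr q (BT (4 * 4 ^ k) R L K) ≤
        C₂ * a4 q R + ε * (a4 q (4 ^ (k - 1)) * Pr q (BT (16 * 4 ^ k) R L K)))
    {k m : ℕ} (hk : k₀ ≤ k) (hk1 : 1 ≤ k) (hkm : k + 3 ≤ m) (hm : R₀ ≤ 4 ^ m) (hmn : 4 * 4 ^ m ≤ n) :
    a4 q (4 ^ k) * Pr q (A2 (4 * 4 ^ k) (4 ^ m)) ≤
      (J : ℝ) ^ 2 * C₂ * a4 q (4 ^ m) +
      (J : ℝ) ^ 2 * ε * C₁ ^ 2 * (a4 q (4 ^ (k + 1)) * Pr q (A2 (4 * 4 ^ (k + 1)) (4 ^ m))) +
      ε₂ * (a4 q (4 ^ k) * Pr q (A2 (4 * 4 ^ k) (4 ^ (m - 1)))) := by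
  obtain ⟨i, rfl⟩ : ∃ i, m = k + 3 + i := ⟨m - (k + 3), by omega⟩
  obtain ⟨k', rfl⟩ : ∃ k', k = k' + 1 := ⟨k - 1, by omega⟩
  set m := k' + 1 + 3 + i with hmdef
  have e64 : 64 * 4 ^ (k' + 1) ≤ 4 ^ m := by
    rw [hmdef]
    have : 4 ^ (k' + 1 + 3 + i) = 64 * 4 ^ (k' + 1) * 4 ^ i := by ring
    rw [this]
    exact Nat.le_mul_of_pos_right _ (by positivity)
  have hdiv : 4 ^ m / 4 = 4 ^ (m - 1) := by
    have : m = (m - 1) + 1 := by omega
    conv_lhs => rw [this, pow_succ]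
    simp
  obtain ⟨F, hF1, hF2, hF3⟩ := H2 (4 * 4 ^ (k' + 1)) (4 ^ m) (by
    have : 0 < 4 ^ (k' + 1) := by positivity
    omega) (by omega) hm (by omega)
  rw [hdiv] at hF3
  have hA : 0 ≤ a4 q (4 ^ (k' + 1)) := a4_nn _ _
  have hreg : a4 q (4 ^ k') ≤ C₁ ^ 2 * a4 q (4 ^ (k' + 1 + 1)) := by
    refine reg_iter hC₁ H1 2 (4 ^ k') (4 ^ (k' + 1 + 1)) (Nat.one_le_pow _ _ (by norm_num)) ?_ ?_ ?_
    · exact Nat.pow_le_pow_right (by norm_num) (by omega)
    · rw [pow_succ, pow_succ]; ring_nf; exact le_rfl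
    · have h6 : 64 * 4 ^ (k' + 1 + 1) = 4 * (64 * 4 ^ (k' + 1)) := by ring
      omega
  have e16 : 16 * 4 ^ (k' + 1) = 4 * 4 ^ (k' + 1 + 1) := by ring
  have key : ∀ β ∈ F, ∀ γ ∈ F, a4 q (4 ^ (k' + 1)) * Pr q (BT (4 * 4 ^ (k' + 1)) (4 ^ m) β γ) ≤
      C₂ * a4 q (4 ^ m) + ε * (C₁ ^ 2 *
        (a4 q (4 ^ (k' + 1 + 1)) * Pr q (A2 (4 * 4 ^ (k' + 1 + 1)) (4 ^ m)))) := by
    intro β hβ γ hγ
    refine (H3 (k' + 1) (4 ^ m) β γ hk e64 (by omega) (hF2 β hβ) (hF2 γ hγ)).trans ?_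
    rw [Nat.add_sub_cancel, e16]
    have hb : Pr q (BT (4 * 4 ^ (k' + 1 + 1)) (4 ^ m) β γ) ≤
        Pr q (A2 (4 * 4 ^ (k' + 1 + 1)) (4 ^ m)) := Pr_mono (BT_subset_A2 (hF2 β hβ) (hF2 γ hγ))
    have : a4 q (4 ^ k') * Pr q (BT (4 * 4 ^ (k' + 1 + 1)) (4 ^ m) β γ) ≤
        (C₁ ^ 2 * a4 q (4 ^ (k' + 1 + 1))) * Pr q (A2 (4 * 4 ^ (k' + 1 + 1)) (4 ^ m)) :=
      mul_le_mul hreg hb Pr_nonneg (by have := a4_nn q (4 ^ (k' + 1 + 1)); positivity)
    have := mul_le_mul_of_nonneg_left this hε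
    linarith only [this]
  set X := a4 q (4 ^ (k' + 1 + 1)) * Pr q (A2 (4 * 4 ^ (k' + 1 + 1)) (4 ^ m)) with hX
  have hX0 : 0 ≤ X := mul_nonneg (a4_nn _ _) Pr_nonneg
  have hB0 : 0 ≤ C₂ * a4 q (4 ^ m) + ε * (C₁ ^ 2 * X) := by
    have := a4_nn q (4 ^ m)
    positivity
  have hsum : a4 q (4 ^ (k' + 1)) * ∑ β ∈ F, ∑ γ ∈ F, Pr q (BT (4 * 4 ^ (k' + 1)) (4 ^ m) β γ) ≤
      (J : ℝ) ^ 2 * (C₂ * a4 q (4 ^ m) + ε * (C₁ ^ 2 * X)) := by
    rw [Finset.mul_sum]
    calc ∑ β ∈ F, a4 q (4 ^ (k' + 1)) * ∑ γ ∈ F, Pr q (BT (4 * 4 ^ (k' + 1)) (4 ^ m) β γ)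
        ≤ ∑ _β ∈ F, ∑ _γ ∈ F, (C₂ * a4 q (4 ^ m) + ε * (C₁ ^ 2 * X)) := by
          refine Finset.sum_le_sum fun β hβ => ?_
          rw [Finset.mul_sum]
          exact Finset.sum_le_sum fun γ hγ => key β hβ γ hγ
      _ = ((F.card : ℝ) * F.card) * (C₂ * a4 q (4 ^ m) + ε * (C₁ ^ 2 * X)) := by
          rw [Finset.sum_const, Finset.sum_const, nsmul_eq_mul, nsmul_eq_mul]; ring
      _ ≤ ((J : ℝ) * J) * (C₂ * a4 q (4 ^ m) + ε * (C₁ ^ 2 * X)) := by
          apply mul_le_mul_of_nonneg_right _ hB0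
          have : (F.card : ℝ) ≤ J := by exact_mod_cast hF1
          exact mul_le_mul this this (Nat.cast_nonneg _) (Nat.cast_nonneg _)
      _ = (J : ℝ) ^ 2 * (C₂ * a4 q (4 ^ m) + ε * (C₁ ^ 2 * X)) := by ring
  have hfin := mul_le_mul_of_nonneg_left hF3 hA
  rw [mul_add] at hfin
  calc a4 q (4 ^ (k' + 1)) * Pr q (A2 (4 * 4 ^ (k' + 1)) (4 ^ m))
      ≤ a4 q (4 ^ (k' + 1)) * ∑ β ∈ F, ∑ γ ∈ F, Pr q (BT (4 * 4 ^ (k' + 1)) (4 ^ m) β γ) +
          a4 q (4 ^ (k' + 1)) * (ε₂ * Pr q (A2 (4 * 4 ^ (k' + 1)) (4 ^ (m - 1)))) := hfin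
    _ ≤ (J : ℝ) ^ 2 * (C₂ * a4 q (4 ^ m) + ε * (C₁ ^ 2 * X)) +
          a4 q (4 ^ (k' + 1)) * (ε₂ * Pr q (A2 (4 * 4 ^ (k' + 1)) (4 ^ (m - 1)))) := by linarith only [hsum]
    _ = _ := by ring

/-- Quasi-multiplicativity at powers of four. -/
theorem qm_pow (hB : BadIn) (hG : GLT) (hr : RegA4) : ∀ c : ℝ, 0 < c → ∃ (M : ℝ) (k₀ : ℕ),
    1 ≤ M ∧ 1 ≤ k₀ ∧ ∀ (n : ℕ) (q : I), RSWreg c n q → ∀ m k : ℕ, k₀ ≤ k → k ≤ m →
      64 * 4 ^ m ≤ n → a4 q (4 ^ k) * Pr q (A2 (4 * 4 ^ k) (4 ^ m)) ≤ M * a4 q (4 ^ m) := by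
  intro c hc
  obtain ⟨C₁', hC₁', H1'⟩ := hr c hc
  set C₁ : ℝ := max C₁' 1 with hC₁def
  have hC₁ : 1 ≤ C₁ := le_max_right _ _
  have hC₁0 : 0 < C₁ := by linarith only [hC₁]
  obtain ⟨J, R₀, H2⟩ := outer_split hB c (1 / (4 * C₁)) hc (by positivity)
  set ε : ℝ := 1 / (2 * ((J : ℝ) + 1) ^ 2 * C₁ ^ 2) with hεdef
  have hε : 0 < ε := by positivity
  obtain ⟨C₂, k₀, hC₂, hk₀, H3⟩ := hG c ε hc hε
  obtain ⟨c₀, hc₀, H4⟩ := a4_low c hc (4 ^ R₀) (Nat.one_le_pow _ _ (by norm_num))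
  set M : ℝ := max (max (C₁ ^ 3) (2 / c₀)) (4 * ((J : ℝ) ^ 2 * C₂)) with hMdef
  have hM1 : C₁ ^ 3 ≤ M := (le_max_left _ _).trans (le_max_left _ _)
  have hM2 : 2 / c₀ ≤ M := (le_max_right _ _).trans (le_max_left _ _)
  have hM3 : 4 * ((J : ℝ) ^ 2 * C₂) ≤ M := le_max_right _ _
  have hM0 : 1 ≤ M := (one_le_pow₀ hC₁).trans hM1
  refine ⟨M, k₀, hM0, hk₀, fun n q hR => ?_⟩
  have H1 : ∀ r : ℕ, 1 ≤ r → 64 * r ≤ n → a4 q r ≤ C₁ * a4 q (4 * r) := fun r h1 h2 =>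
    (H1' n r q h1 h2 hR).trans (mul_le_mul_of_nonneg_right (le_max_left _ _) (a4_nn _ _))
  intro m
  induction m with
  | zero => intro k h1 h2; omega
  | succ m ihm =>
    intro k hk hkm hmn
    -- downward induction in `k`
    obtain ⟨d, hd⟩ : ∃ d, m + 1 = k + d := ⟨m + 1 - k, by omega⟩
    induction d using Nat.strong_induction_on generalizing k with
    | _ d ihd =>
      have hpos : 0 < 4 ^ m := by positivity
      have e4 : 4 ^ (m + 1) = 4 * 4 ^ m := by ring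
      have hP1 : Pr q (A2 (4 * 4 ^ k) (4 ^ (m + 1))) ≤ 1 := Pr_le_one
      have htriv : a4 q (4 ^ k) * Pr q (A2 (4 * 4 ^ k) (4 ^ (m + 1))) ≤ a4 q (4 ^ k) := by
        have := a4_nn q (4 ^ k)
        nlinarith only [hP1, this]
      rcases Nat.lt_or_ge d 3 with hd3 | hd3
      · -- `k` close to `m + 1`
        have h1 := reg_iter hC₁ H1 2 (4 ^ k) (4 ^ (m + 1)) (Nat.one_le_pow _ _ (by norm_num))
          (Nat.pow_le_pow_right (by norm_num) hkm) (by
            rw [← pow_add]; exact Nat.pow_le_pow_right (by norm_num) (by omega)) (by omega)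
        have h2 : C₁ ^ 2 ≤ M := (pow_le_pow_right₀ hC₁ (by norm_num)).trans hM1
        calc _ ≤ a4 q (4 ^ k) := htriv
          _ ≤ C₁ ^ 2 * a4 q (4 ^ (m + 1)) := h1
          _ ≤ M * a4 q (4 ^ (m + 1)) := mul_le_mul_of_nonneg_right h2 (a4_nn _ _)
      · rcases Nat.lt_or_ge (4 ^ (m + 1)) R₀ with hR0 | hR0
        · -- small `m`
          have h1 : m + 1 ≤ R₀ := by
            have : m + 1 < 4 ^ (m + 1) := Nat.lt_pow_self (by norm_num)
            omega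
          have h2 : a4 q (4 ^ R₀) ≤ a4 q (4 ^ (m + 1)) :=
            a4_anti (Nat.one_le_pow _ _ (by norm_num)) (Nat.pow_le_pow_right (by norm_num) h1)
          have h3 := H4 n q (by omega) hR
          have h4 : c₀ ≤ a4 q (4 ^ (m + 1)) := h3.trans h2
          calc _ ≤ a4 q (4 ^ k) := htriv
            _ ≤ 2 := a4_le_two _ _
            _ = (2 / c₀) * c₀ := by field_simp
            _ ≤ M * a4 q (4 ^ (m + 1)) := by
                apply mul_le_mul hM2 h4 hc₀.le (by linarith only [hM0])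
        · have h1 := qm_step (k := k) (m := m + 1) hR hε.le hC₁ hC₂.le H1
            (fun t R a b c' d' => H2 n t R q a b c' d' hR)
            (fun k R L K a b c' d' e' => H3 n k R q L K a b c' hR d' e') hk (by omega) (by omega)
            hR0 (by omega)
          rw [Nat.add_sub_cancel] at h1
          have h2 := ihd (d - 1) (by omega) (k + 1) (by omega) (by omega) (by omega)
          have h3 := ihm k hk (by omega) (by omega)
          have h4 := H1 (4 ^ m) (by omega) (by omega)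
          rw [← e4] at h4
          have hJ : (J : ℝ) ^ 2 * ε * C₁ ^ 2 ≤ 1 / 2 := by
            rw [hεdef]
            have hJ1 : (0 : ℝ) ≤ J := Nat.cast_nonneg _
            have : (J : ℝ) ^ 2 * (1 / (2 * ((J : ℝ) + 1) ^ 2 * C₁ ^ 2)) * C₁ ^ 2 =
                (1 / 2) * ((J : ℝ) ^ 2 / ((J : ℝ) + 1) ^ 2) := by
              field_simp
            rw [this]
            have h5 : (J : ℝ) ^ 2 / ((J : ℝ) + 1) ^ 2 ≤ 1 := by
              rw [div_le_one (by positivity)]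
              nlinarith
            linarith only [h5]
          have hX0 : 0 ≤ a4 q (4 ^ (k + 1)) * Pr q (A2 (4 * 4 ^ (k + 1)) (4 ^ (m + 1))) :=
            mul_nonneg (a4_nn _ _) Pr_nonneg
          have hY0 : 0 ≤ a4 q (4 ^ (m + 1)) := a4_nn _ _
          have h6 : 1 / (4 * C₁) * (a4 q (4 ^ k) * Pr q (A2 (4 * 4 ^ k) (4 ^ m))) ≤
              (M / 4) * a4 q (4 ^ (m + 1)) := by
            calc 1 / (4 * C₁) * (a4 q (4 ^ k) * Pr q (A2 (4 * 4 ^ k) (4 ^ m)))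
                ≤ 1 / (4 * C₁) * (M * (C₁ * a4 q (4 ^ (m + 1)))) := by
                  apply mul_le_mul_of_nonneg_left _ (by positivity)
                  exact h3.trans (mul_le_mul_of_nonneg_left h4 (by linarith only [hM0]))
              _ = (M / 4) * a4 q (4 ^ (m + 1)) := by field_simp
          have h7 : (J : ℝ) ^ 2 * ε * C₁ ^ 2 *
              (a4 q (4 ^ (k + 1)) * Pr q (A2 (4 * 4 ^ (k + 1)) (4 ^ (m + 1)))) ≤
              (M / 2) * a4 q (4 ^ (m + 1)) := by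
            calc _ ≤ (1 / 2) * (a4 q (4 ^ (k + 1)) *
                  Pr q (A2 (4 * 4 ^ (k + 1)) (4 ^ (m + 1)))) :=
                  mul_le_mul_of_nonneg_right hJ hX0
              _ ≤ (1 / 2) * (M * a4 q (4 ^ (m + 1))) :=
                  mul_le_mul_of_nonneg_left h2 (by norm_num)
              _ = (M / 2) * a4 q (4 ^ (m + 1)) := by ring
          have h8 : (J : ℝ) ^ 2 * C₂ * a4 q (4 ^ (m + 1)) ≤ (M / 4) * a4 q (4 ^ (m + 1)) :=
            mul_le_mul_of_nonneg_right (by linarith only [hM3]) hY0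
          linarith only [h1, h6, h7, h8]

/-- Quasi-multiplicativity. -/
theorem qmann (hB : BadIn) (hG : GLT) (hr : RegA4) : QMann := by
  intro c hc
  obtain ⟨M, k₀, hM, hk₀, H⟩ := qm_pow hB hG hr c hc
  obtain ⟨C₁', hC₁', H1'⟩ := hr c hc
  set C₁ : ℝ := max C₁' 1 with hC₁def
  have hC₁ : 1 ≤ C₁ := le_max_right _ _
  have hC₁0 : 0 < C₁ := by linarith only [hC₁]
  obtain ⟨c₀, hc₀, H4⟩ := a4_low c hc (4 ^ (k₀ + 1)) (Nat.one_le_pow _ _ (by norm_num))
  set D : ℝ := max (C₁ ^ 4) (2 / c₀) with hD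
  have hD1 : C₁ ^ 4 ≤ D := le_max_left _ _
  have hD2 : 2 / c₀ ≤ D := le_max_right _ _
  have hD0 : 1 ≤ D := (one_le_pow₀ hC₁).trans hD1
  refine ⟨D * (M * C₁), by positivity, fun n r R q h1 h2 h3 hR => ?_⟩
  have H1 : ∀ r : ℕ, 1 ≤ r → 64 * r ≤ n → a4 q r ≤ C₁ * a4 q (4 * r) := fun r h1 h2 =>
    (H1' n r q h1 h2 hR).trans (mul_le_mul_of_nonneg_right (le_max_left _ _) (a4_nn _ _))
  have hbig : D ≤ D * (M * C₁) := by
    have : 1 ≤ M * C₁ := by nlinarith only [hM, hC₁]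
    nlinarith only [this, hD0]
  -- scales
  obtain ⟨m, hm1, hm2⟩ : ∃ m, 4 ^ m ≤ R ∧ R < 4 ^ (m + 1) := by
    refine ⟨Nat.log 4 R, Nat.pow_log_le_self 4 (by omega), Nat.lt_pow_succ_log_self (by norm_num) R⟩
  obtain ⟨a, ha1, ha2⟩ : ∃ a, 4 ^ a ≤ 4 * r ∧ 4 * r < 4 ^ (a + 1) := by
    refine ⟨Nat.log 4 (4 * r), Nat.pow_log_le_self 4 (by omega),
      Nat.lt_pow_succ_log_self (by norm_num) _⟩
  have e1 : 4 ^ (m + 1) = 4 * 4 ^ m := by ring
  have e2 : 4 ^ (a + 1) = 4 * 4 ^ a := by ring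
  have htriv : a4 q r * Pr q (A2 (16 * r) R) ≤ a4 q r := by
    have h4 : Pr q (A2 (16 * r) R) ≤ 1 := Pr_le_one
    have := a4_nn q r
    nlinarith only [h4, this]
  set k := max k₀ (a + 1) with hkdef
  have hk0 : k₀ ≤ k := le_max_left _ _
  have hka : a + 1 ≤ k := le_max_right _ _
  have hrk : 4 * r ≤ 4 ^ k := ha2.le.trans (Nat.pow_le_pow_right (by norm_num) hka)
  rcases Nat.lt_or_ge k m with hkm | hkm
  · -- main case
    have hsub : A2 (16 * r) R ⊆ A2 (4 * 4 ^ k) (4 ^ m) := by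
      refine A2_mono (by omega) (by omega) ?_ hm1
      have : 4 ^ (k + 1) ≤ 4 ^ m := Nat.pow_le_pow_right (by norm_num) hkm
      have e3 : 4 ^ (k + 1) = 4 * 4 ^ k := by ring
      omega
    have hmain := H n q hR m k hk0 hkm.le (by omega)
    have hreg : a4 q r ≤ D * a4 q (4 ^ k) := by
      rcases Nat.le_total k₀ (a + 1) with hc1 | hc1
      · have hk : k = a + 1 := max_eq_right hc1
        have h5 := reg_iter hC₁ H1 4 r (4 ^ k) h1 (by omega) (by rw [hk]; omega) (by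
          rw [hk]; omega)
        exact h5.trans (mul_le_mul_of_nonneg_right hD1 (a4_nn _ _))
      · have hk : k = k₀ := max_eq_left hc1
        have h5 := H4 n q (by omega) hR
        have h6 : a4 q (4 ^ (k₀ + 1)) ≤ a4 q (4 ^ k) := by
          rw [hk]
          exact a4_anti (Nat.one_le_pow _ _ (by norm_num))
            (Nat.pow_le_pow_right (by norm_num) (by omega))
        calc a4 q r ≤ 2 := a4_le_two _ _
          _ = (2 / c₀) * c₀ := by field_simp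
          _ ≤ D * a4 q (4 ^ k) := mul_le_mul hD2 (h5.trans h6) hc₀.le (by linarith only [hD0])
    have hlast : a4 q (4 ^ m) ≤ C₁ * a4 q R := by
      have h5 := H1 (4 ^ m) (Nat.one_le_pow _ _ (by norm_num)) (by omega)
      have h6 : a4 q (4 * 4 ^ m) ≤ a4 q R := a4_anti (by omega) (by omega)
      exact h5.trans (mul_le_mul_of_nonneg_left h6 hC₁0.le)
    calc a4 q r * Pr q (A2 (16 * r) R)
        ≤ (D * a4 q (4 ^ k)) * Pr q (A2 (4 * 4 ^ k) (4 ^ m)) :=
          mul_le_mul hreg (Pr_mono hsub) Pr_nonneg (mul_nonneg (by linarith only [hD0]) (a4_nn _ _))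
      _ = D * (a4 q (4 ^ k) * Pr q (A2 (4 * 4 ^ k) (4 ^ m))) := by ring
      _ ≤ D * (M * (C₁ * a4 q R)) := by
          apply mul_le_mul_of_nonneg_left _ (by linarith only [hD0])
          exact hmain.trans (mul_le_mul_of_nonneg_left hlast (by linarith only [hM]))
      _ = D * (M * C₁) * a4 q R := by ring
  · -- `r` comparable with `R`, or `R` bounded
    have hgoal : a4 q r ≤ D * a4 q R := by
      rcases Nat.le_total k₀ (a + 1) with hc1 | hc1
      · have hk : k = a + 1 := max_eq_right hc1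
        rw [hk] at hkm
        have h5 : 4 ^ m ≤ 4 ^ (a + 1) := Nat.pow_le_pow_right (by norm_num) hkm
        have h6 := reg_iter hC₁ H1 4 r R h1 (by omega) (by omega) (by omega)
        exact h6.trans (mul_le_mul_of_nonneg_right hD1 (a4_nn _ _))
      · have hk : k = k₀ := max_eq_left hc1
        rw [hk] at hkm
        have h5 := H4 n q (by omega) hR
        have h6 : a4 q (4 ^ (k₀ + 1)) ≤ a4 q R := by
          have h7 : 4 ^ (m + 1) ≤ 4 ^ (k₀ + 1) := Nat.pow_le_pow_right (by norm_num) (by omega)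
          exact a4_anti (by omega) (by omega)
        calc a4 q r ≤ 2 := a4_le_two _ _
          _ = (2 / c₀) * c₀ := by field_simp
          _ ≤ D * a4 q R := mul_le_mul hD2 (h5.trans h6) hc₀.le (by linarith only [hD0])
    exact htriv.trans (hgoal.trans (mul_le_mul_of_nonneg_right hbig (a4_nn _ _)))

/-- The gluing inequality on the torus. -/
theorem glTorus (hB : BadIn) (hG : GLT) (hr : RegA4) (hS : SepTorus) : GLTorus := by
  intro c hc
  obtain ⟨M, hM, H⟩ := qmann hB hG hr c hc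
  obtain ⟨C₁', hC₁', H1'⟩ := hr c hc
  set C₁ : ℝ := max C₁' 1 with hC₁def
  have hC₁ : 1 ≤ C₁ := le_max_right _ _
  have hC₁0 : 0 < C₁ := by linarith
  obtain ⟨C₃, hC₃, H3⟩ := hS c hc
  refine ⟨(C₁ ^ 4 + C₁ ^ 2 * M) * C₃, by positivity, fun N r q h1 h2 hR => ?_⟩
  have H1 : ∀ r : ℕ, 1 ≤ r → 64 * r ≤ N → a4 q r ≤ C₁ * a4 q (4 * r) := fun r h1 h2 =>
    (H1' N r q h1 h2 hR).trans (mul_le_mul_of_nonneg_right (le_max_left _ _) (a4_nn _ _))
  have hP1 : Pool.Agent.H89.Perc.Pr q (BlockPiv N (16 * r)) ≤ 1 :=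
    Pool.Agent.H89.Perc.Pr_le_one
  have hP0 : 0 ≤ Pool.Agent.H89.Perc.Pr q (BlockPiv N (16 * r)) :=
    Pool.Agent.H89.Perc.Pr_nonneg
  set R := N / 64 + 1 with hRdef
  have hR1 : N ≤ 64 * R := by omega
  have hR2 : 4 * R ≤ N := by omega
  have h3 := H3 N R q (by omega) hR1 hR2 hR
  have h4 := a4_nn q r
  have hs0 : 0 ≤ sT q N := by
    by_contra h
    push Not at h
    have := a4_nn q R
    nlinarith only [h3, this, hC₃, h]
  rcases Nat.lt_or_ge N (4096 * r) with hs | hs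
  · have h5 : a4 q r ≤ C₁ ^ 4 * a4 q R := by
      rcases Nat.lt_or_ge r R with h6 | h6
      · exact reg_iter hC₁ H1 4 r R h1 h6.le (by omega) (by omega)
      · have := a4_anti (q := q) (by omega : 1 ≤ R) h6
        have h7 : (1 : ℝ) ≤ C₁ ^ 4 := one_le_pow₀ hC₁
        nlinarith only [this, h4, h7, a4_nn q R]
    calc a4 q r * Pool.Agent.H89.Perc.Pr q (BlockPiv N (16 * r)) ≤ a4 q r := by nlinarith only [hP1, h4]
      _ ≤ C₁ ^ 4 * (C₃ * sT q N) := h5.trans (mul_le_mul_of_nonneg_left h3 (by positivity))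
      _ ≤ (C₁ ^ 4 + C₁ ^ 2 * M) * C₃ * sT q N := by
          have : 0 ≤ C₁ ^ 2 * M * C₃ * sT q N := by positivity
          nlinarith only [this]
  · set ρ := N / 64 with hρ
    have h5 := blockPiv_le (N := N) (ρ := 16 * r) (R := ρ) q (by omega) (by omega) (by omega)
    have h6 : A2 (16 * r + 3) ρ ⊆ A2 (16 * (2 * r)) ρ :=
      A2_mono (by omega) (by omega) (by omega) le_rfl
    have h7 := H N (2 * r) ρ q (by omega) (by omega) (by omega) hR
    have h8 : a4 q r ≤ C₁ * a4 q (2 * r) :=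
      (H1 r h1 h2).trans (mul_le_mul_of_nonneg_left (a4_anti (by omega) (by omega)) hC₁0.le)
    have h9 : a4 q ρ ≤ C₁ * a4 q R := by
      rw [hRdef]
      have h10 := reg_iter hC₁ H1 1 ρ (ρ + 1) (by omega) (by omega) (by omega) (by omega)
      rwa [pow_one] at h10
    calc a4 q r * Pool.Agent.H89.Perc.Pr q (BlockPiv N (16 * r))
        ≤ (C₁ * a4 q (2 * r)) * Pr q (A2 (16 * (2 * r)) ρ) :=
          mul_le_mul h8 (h5.trans (Pr_mono h6)) hP0 (mul_nonneg hC₁0.le (a4_nn _ _))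
      _ = C₁ * (a4 q (2 * r) * Pr q (A2 (16 * (2 * r)) ρ)) := by ring
      _ ≤ C₁ * (M * (C₁ * (C₃ * sT q N))) := by
          apply mul_le_mul_of_nonneg_left _ hC₁0.le
          refine h7.trans (mul_le_mul_of_nonneg_left ?_ hM.le)
          exact h9.trans (mul_le_mul_of_nonneg_left h3 hC₁0.le)
      _ ≤ (C₁ ^ 4 + C₁ ^ 2 * M) * C₃ * sT q N := by
          have : 0 ≤ C₁ ^ 4 * C₃ * sT q N := by positivity
          nlinarith only [this]

end Pool.Agent.H83.SK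

end

section

/-!
# Finite energy, explicit separated configurations of sites
-/

set_option autoImplicit false

open MeasureTheory ProbabilityTheory unitInterval

namespace Pool.Agent.H38.N59

open Pool.Agent.H89.Perc
open Pool.Agent.H61.NC hiding RSWreg
open Pool.Agent.H83.SK (sv sit sit_true RSWreg)
open Pool.Agent.H59.EX (LocS inE touch clus closeS Side T Mouth Fence dom)

/-! ### Explicit configurations -/

end Pool.Agent.H38.N59

end

section

/-!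
# Extension of separated events along abstract corridors, for sites
-/

set_option autoImplicit false

open MeasureTheory ProbabilityTheory unitInterval

namespace Pool.Agent.H38.N59

open Pool.Agent.H89.Perc
open Pool.Agent.H61.NC hiding RSWreg
open Pool.Agent.H83.SK (sv sit sit_true RSWreg)
open Pool.Agent.H59.EX (LocS inE touch clus closeS Side T Mouth Fence dom CorrData CorrSep clus_sub clus_step clus_conn mem_clus_single fence_mono fence_mem mem_sphere_of_joins markov_indep grid exists_grid card_grid pb sat MoveData MoveSep)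

/-! ### Rectangles are connected -/

/-! ### Elementary geometry -/

end Pool.Agent.H38.N59

end

section

/-!
# All moves between pairs of sides, for sites
-/

set_option autoImplicit false

open MeasureTheory ProbabilityTheory unitInterval

namespace Pool.Agent.H38.N59

open Pool.Agent.H89.Perc
open Pool.Agent.H61.NC hiding RSWreg
open Pool.Agent.H83.SK (sv sit sit_true RSWreg)
open Pool.Agent.H59.EX (Side Gen MoveData MoveSep msep_EW msep_EN msep_WT msep_ST)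
open Pool.Agent.H83.SK.NG (prob_move)

end Pool.Agent.H38.N59

end
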