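import Pool.Agent.H94.BG.H31.PT.M08_2
import Pool.Agent.H94.BG.H31.PT.M15_1
import Pool.Agent.H94.BG.H31.PT.M18_4

/-! The parts of this file: H83.SK.P29.BlockAnn, H83.SK.P29.OuterSplit, H83.SK.P29.QM, H38.SK.N59.Iter0, H38.SK.N59.MoveCore, H38.SK.N59.Moves. -/

section

/-!
# A pivotal block of the torus is surrounded by two distinct crossing clusters
-/

open MeasureTheory ProbabilityTheory unitInterval

namespace Pool.Agent.H83.SK

open Pool.Agent.H29.Sep

open Pool.Agent.H89.Perc Pool.Agent.H61.NC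

end Pool.Agent.H83.SK

end

section

/-!
# Outer decomposition of the annulus event into two-terminal events
-/

open MeasureTheory ProbabilityTheory unitInterval

namespace Pool.Agent.H83.SK

open Pool.Agent.H29.Sep

open Pool.Agent.H89.Perc Pool.Agent.H61.NC

end Pool.Agent.H83.SK

end

section

/-!
# Quasi-multiplicativity for the planar annulus and the gluing inequality on the torus
-/

open MeasureTheory ProbabilityTheory unitInterval

namespace Pool.Agent.H83.SK

open Pool.Agent.H29.Sep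

open Pool.Agent.H89.Perc Pool.Agent.H61.NC

end Pool.Agent.H83.SK

end

section

/-!
# Finite energy, explicit separated configurations of sites
-/

set_option autoImplicit false

open MeasureTheory ProbabilityTheory unitInterval

namespace Pool.Agent.H38.N59

open Pool.Agent.H89.Perc
open Pool.Agent.H61.NC hiding RSWreg
open Pool.Agent.H83.SK (sv sit sit_true RSWreg)
open Pool.Agent.H59.EX (LocS inE touch clus closeS Side T Mouth Fence dom)

/-- In the regime the density is bounded away from `0` and `1`. -/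
theorem density_bound (c : ℝ) (hc : 0 < c) : ∃ δ : ℝ, 0 < δ ∧ ∀ (n : ℕ) (q : I), 1 ≤ n →
    RSWreg c n q → δ ≤ (q : ℝ) ∧ (q : ℝ) ≤ 1 - δ :=
  ⟨c / 16, by positivity, fun _ _ hn h => Pool.Agent.H83.SK.rswreg_density hn h⟩

/-- The site `0` as a source: two of its neighbours, the site `0` is closed. -/
def s4 (b : Bool) : Src where
  x := (1, 0)
  y := if b then (0, 1) else (-1, 0)
  V0 := {0}
  hx := by simp [ball, rect]
  hy := by cases b <;> simp [ball, rect]
  hV := by
    intro v hv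
    rw [Finset.mem_singleton] at hv
    subst hv
    simp [ball, rect]

/-- Closing the site `0` closes the four edges at `0`. -/
theorem s4_cut (b : Bool) (w : Config) :
    sit ((s4 b).cut w) = (Pool.Agent.H83.SK.s4 b).cut (sit w) := by
  funext e
  rw [Bool.eq_iff_iff]
  unfold Pool.Agent.H59.EX.Src.cut
  rw [Pool.Agent.H59.EX.closeS_true, sit_true, sit_true, cut_sv, cut_sv]
  have h : e ∈ ((Pool.Agent.H83.SK.s4 b).E0 : Set Edge) ↔ src e = 0 ∨ tgt e = 0 := by
    obtain ⟨x, y, t⟩ := e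
    cases t <;>
      simp [Pool.Agent.H83.SK.s4, Pool.Agent.H83.SK.star0, src, tgt, Prod.ext_iff] <;> omega
  rw [h]
  simp only [s4, Finset.mem_singleton]
  tauto

/-- The event of the interface. -/
theorem four_s4 (b : Bool) (r : ℕ) :
    {w | sit w ∈ Pool.Agent.H59.EX.Four (Pool.Agent.H83.SK.s4 b) r} = Four (s4 b) r := by
  ext w
  unfold Pool.Agent.H59.EX.Four Four
  simp only [Set.mem_ofPred_eq, s4_cut]
  exact Iff.rfl

theorem a4_eq (q : I) (r : ℕ) :
    Pool.Agent.H83.SK.a4 q r = Pr q (Four (s4 false) r) + Pr q (Four (s4 true) r) := by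
  unfold Pool.Agent.H83.SK.a4 Pool.Agent.H83.SK.Pr
  rw [four_s4, four_s4]

/-! ### Explicit configurations -/

/-- A straight open horizontal path. -/
theorem itera_row {ω : Config} {S : Set Vert} (a b : ℤ) (n : ℕ)
    (hS : ∀ i : ℤ, a ≤ i → i ≤ a + n → ((i, b) : Vert) ∈ S)
    (ho : ∀ i : ℤ, a ≤ i → i ≤ a + n → ω (i, b, false) = true) :
    Conn (sit ω) S (a, b) (a + n, b) := by
  refine Pool.Agent.H59.EX.itera_row a b n hS fun i h1 h2 => ?_
  rw [sit_true]
  exact ⟨ho i h1 (by omega), ho (i + 1) (by omega) (by omega)⟩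

/-- A straight open vertical path. -/
theorem itera_col {ω : Config} {S : Set Vert} (a b : ℤ) (n : ℕ)
    (hS : ∀ i : ℤ, b ≤ i → i ≤ b + n → ((a, i) : Vert) ∈ S)
    (ho : ∀ i : ℤ, b ≤ i → i ≤ b + n → ω (a, i, false) = true) :
    Conn (sit ω) S (a, b) (a, b + n) := by
  refine Pool.Agent.H59.EX.itera_col a b n hS fun i h1 h2 => ?_
  rw [sit_true]
  exact ⟨ho i h1 (by omega), ho (i + 1) (by omega) (by omega)⟩

/-- The explicit configuration: two rows and two columns; the left row has height `j`. -/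
def expl (j : ℤ) (k : ℕ) : Config := fun e => decide
  (e.2.2 = false ∧ ((e.2.1 = 0 ∧ 1 ≤ e.1) ∨ (e.2.1 = j ∧ e.1 ≤ j - 1) ∨
    ((e.1 = 32 * k ∨ e.1 = -(32 * k)) ∧ -(3 * (k : ℤ)) ≤ e.2.1 ∧ e.2.1 ≤ 3 * k)))

theorem expl_sv {j : ℤ} {k : ℕ} {a : Vert} : expl j k (sv a) = true ↔
    ((a.2 = 0 ∧ 1 ≤ a.1) ∨ (a.2 = j ∧ a.1 ≤ j - 1) ∨
    ((a.1 = 32 * k ∨ a.1 = -(32 * k)) ∧ -(3 * (k : ℤ)) ≤ a.2 ∧ a.2 ≤ 3 * k)) := by
  simp [expl, sv]

/-- Explicit separated configurations. -/
theorem expl_mem {s : Src} {j : ℤ} {k : ℕ} (hk : 1 ≤ k) (hj : j = 0 ∨ j = 1) (hx : s.x = (1, 0))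
    (hy : s.y = (j - 1, j)) (hc : s.cut (expl j k) = expl j k) :
    expl j k ∈ Sep s .E .W k := by
  set D : Set Vert := dom .E .W k with hD
  have hmemD : ∀ v : Vert, (-(32 * (k : ℤ)) ≤ v.1 ∧ v.1 ≤ 32 * k ∧ -(32 * (k : ℤ)) ≤ v.2 ∧
      v.2 ≤ 32 * k) → v ∈ D := by
    intro v hv
    refine Or.inl ?_
    simp only [ball, rect, Set.mem_ofPred_eq, Prod.fst_zero, Prod.snd_zero]
    push_cast
    omega
  have hadj : ∀ {p p' : Vert} {e : Edge}, Joins e p p' →
      p'.1 ≤ p.1 + 1 ∧ p.1 ≤ p'.1 + 1 ∧ p'.2 ≤ p.2 + 1 ∧ p.2 ≤ p'.2 + 1 ∧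
        (p.1 = p'.1 ∨ p.2 = p'.2) := by
    rintro ⟨a, b⟩ ⟨a', b'⟩ ⟨x, y, dir⟩ hjo
    rcases dir with _ | _
    · simp only [Joins, src, tgt, Bool.false_eq_true, if_false, Prod.mk.injEq] at hjo
      dsimp only
      omega
    · simp only [Joins, src, tgt, if_true, Prod.mk.injEq] at hjo
      dsimp only
      omega
  have hopen : ∀ p : Vert, fillS (T .E k ∪ T .W k) (expl j k) (sv p) = true →
      ((p.2 = 0 ∧ 1 ≤ p.1) ∨ p ∈ T .E k) ∨ ((p.2 = j ∧ p.1 ≤ j - 1) ∨ p ∈ T .W k) := by
    intro p hp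
    rw [fill_sv, expl_sv] at hp
    simp only [Set.mem_union, T, rect, Set.mem_ofPred_eq] at hp ⊢
    omega
  have hstep : ∀ p p' : Vert, Step (sit (fillS (T .E k ∪ T .W k) (expl j k))) D p p' →
      (((p.2 = 0 ∧ 1 ≤ p.1) ∨ p ∈ T .E k) → ((p'.2 = 0 ∧ 1 ≤ p'.1) ∨ p' ∈ T .E k)) ∧
      (((p.2 = j ∧ p.1 ≤ j - 1) ∨ p ∈ T .W k) →
        ((p'.2 = j ∧ p'.1 ≤ j - 1) ∨ p' ∈ T .W k)) := by
    rintro p p' ⟨-, -, e, hjo, ho⟩
    have h1 := hadj hjo
    have h2 := hopen p' ((sit_joins hjo).1 ho).2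
    simp only [T, rect, Set.mem_ofPred_eq] at h2 ⊢
    omega
  have hX : ∀ v, Conn (sit (fillS (T .E k ∪ T .W k) (expl j k))) D (1, 0) v →
      ((v.2 = 0 ∧ 1 ≤ v.1) ∨ v ∈ T .E k) := by
    intro v hv
    refine hv.induction_right (P := fun v => (v.2 = 0 ∧ 1 ≤ v.1) ∨ v ∈ T .E k)
      (Or.inl ⟨rfl, le_rfl⟩) ?_
    intro p p' _ hp h
    exact (hstep p p' hp).1 h
  have hY : ∀ v, Conn (sit (fillS (T .E k ∪ T .W k) (expl j k))) D (j - 1, j) v →
      ((v.2 = j ∧ v.1 ≤ j - 1) ∨ v ∈ T .W k) := by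
    intro v hv
    refine hv.induction_right (P := fun v => (v.2 = j ∧ v.1 ≤ j - 1) ∨ v ∈ T .W k)
      (Or.inl ⟨rfl, le_rfl⟩) ?_
    intro p p' _ hp h
    exact (hstep p p' hp).2 h
  have hop : ∀ x y : ℤ, ((y = 0 ∧ 1 ≤ x) ∨ (y = j ∧ x ≤ j - 1) ∨
      ((x = 32 * k ∨ x = -(32 * k)) ∧ -(3 * (k : ℤ)) ≤ y ∧ y ≤ 3 * k)) →
      expl j k (x, y, false) = true := fun x y h => (expl_sv (a := (x, y))).2 h
  refine ⟨?_, ?_, ?_, ?_, ?_⟩
  · -- east fence
    rw [hc, hx]
    refine ⟨(32 * (k : ℤ), -(3 * (k : ℤ))), (32 * (k : ℤ), 3 * (k : ℤ)), rfl, rfl, ?_, ?_⟩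
    · have h := itera_col (ω := expl j k) (S := T .E k) (32 * (k : ℤ)) (-(3 * (k : ℤ))) (6 * k)
        (fun i h1 h2 => by
          simp only [T, rect, Set.mem_ofPred_eq]
          push_cast at h2
          omega)
        (fun i h1 h2 => hop _ _ (by push_cast at h2; omega))
      have he : -(3 * (k : ℤ)) + ((6 * k : ℕ) : ℤ) = 3 * k := by push_cast; ring
      rwa [he] at h
    · have h1 := itera_row (ω := expl j k) (S := D) 1 0 (32 * k - 1)
        (fun i h1 h2 => hmemD _ (by dsimp only; omega))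
        (fun i h1 h2 => hop _ _ (by omega))
      have he : (1 : ℤ) + ((32 * k - 1 : ℕ) : ℤ) = 32 * k := by omega
      rw [he] at h1
      have h2 := itera_col (ω := expl j k) (S := D) (32 * (k : ℤ)) (-(3 * (k : ℤ))) (3 * k)
        (fun i h1 h2 => hmemD _ (by push_cast at h2; dsimp only; omega))
        (fun i h1 h2 => hop _ _ (by push_cast at h2; omega))
      have he2 : -(3 * (k : ℤ)) + ((3 * k : ℕ) : ℤ) = 0 := by push_cast; ring
      rw [he2] at h2
      exact h1.trans h2.symm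
  · -- west fence
    rw [hc, hy]
    refine ⟨(-(32 * (k : ℤ)), -(3 * (k : ℤ))), (-(32 * (k : ℤ)), 3 * (k : ℤ)), rfl, rfl, ?_, ?_⟩
    · have h := itera_col (ω := expl j k) (S := T .W k) (-(32 * (k : ℤ))) (-(3 * (k : ℤ))) (6 * k)
        (fun i h1 h2 => by
          simp only [T, rect, Set.mem_ofPred_eq]
          push_cast at h2
          omega)
        (fun i h1 h2 => hop _ _ (by push_cast at h2; omega))
      have he : -(3 * (k : ℤ)) + ((6 * k : ℕ) : ℤ) = 3 * k := by push_cast; ring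
      rwa [he] at h
    · have h1 := itera_row (ω := expl j k) (S := D) (-(32 * (k : ℤ))) j (32 * k + j - 1).toNat
        (fun i h1 h2 => hmemD _ (by
          rw [Int.toNat_of_nonneg (by omega)] at h2
          dsimp only
          omega))
        (fun i h1 h2 => hop _ _ (by
          rw [Int.toNat_of_nonneg (by omega)] at h2
          omega))
      have he : -(32 * (k : ℤ)) + ((32 * k + j - 1).toNat : ℤ) = j - 1 := by
        rw [Int.toNat_of_nonneg (by omega)]
        ring
      rw [he] at h1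
      have h2 := itera_col (ω := expl j k) (S := D) (-(32 * (k : ℤ))) (-(3 * (k : ℤ)))
        (3 * k + j).toNat
        (fun i h1 h2 => hmemD _ (by
          rw [Int.toNat_of_nonneg (by omega)] at h2
          dsimp only
          omega))
        (fun i h1 h2 => hop _ _ (by
          rw [Int.toNat_of_nonneg (by omega)] at h2
          omega))
      have he2 : -(3 * (k : ℤ)) + ((3 * k + j).toNat : ℤ) = j := by
        rw [Int.toNat_of_nonneg (by omega)]
        ring
      rw [he2] at h2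
      exact (h2.trans h1).symm
  · unfold Src.ful
    rw [hc, hx, hy]
    intro h
    have := hX _ h
    simp only [T, rect, Set.mem_ofPred_eq] at this
    omega
  · unfold Src.ful
    rw [hc, hx]
    intro v hv h
    have := hX v h
    simp only [T, rect, Set.mem_ofPred_eq, sphere, ball, Prod.fst_zero, Prod.snd_zero, Mouth]
      at this hv ⊢
    push_cast at hv
    omega
  · unfold Src.ful
    rw [hc, hy]
    intro v hv h
    have := hY v h
    simp only [T, rect, Set.mem_ofPred_eq, sphere, ball, Prod.fst_zero, Prod.snd_zero, Mouth]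
      at this hv ⊢
    push_cast at hv
    omega

theorem sep_s4_nonempty (b : Bool) {k : ℕ} (hk : 1 ≤ k) : (Sep (s4 b) .E .W k).Nonempty := by
  have hcut : ∀ j : ℤ, (j = 0 ∨ j = 1) → (s4 b).cut (expl j k) = expl j k := by
    intro j hj
    funext e
    rw [Bool.eq_iff_iff]
    unfold Src.cut
    rw [closeS_true]
    refine ⟨fun h => h.1, fun h => ⟨h, fun h2 => ?_⟩⟩
    have h3 : e = sv 0 := by
      obtain ⟨x, y, t⟩ := e
      have h4 : t = false := h2.1
      have h5 : ((x, y) : Vert) = 0 := by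
        have h6 := h2.2
        simp only [s4, Finset.coe_singleton, Set.mem_singleton_iff] at h6
        exact h6
      rw [← h5, h4]
      rfl
    rw [h3, expl_sv] at h
    simp only [Prod.fst_zero, Prod.snd_zero] at h
    omega
  cases b
  · exact ⟨expl 0 k, expl_mem hk (Or.inl rfl) rfl rfl (hcut 0 (Or.inl rfl))⟩
  · exact ⟨expl 1 k, expl_mem hk (Or.inr rfl) rfl rfl (hcut 1 (Or.inr rfl))⟩

end Pool.Agent.H38.N59

end

section

/-!
# Extension of separated events along abstract corridors, for sites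
-/

set_option autoImplicit false

open MeasureTheory ProbabilityTheory unitInterval

namespace Pool.Agent.H38.N59

open Pool.Agent.H89.Perc
open Pool.Agent.H61.NC hiding RSWreg
open Pool.Agent.H83.SK (sv sit sit_true RSWreg)
open Pool.Agent.H59.EX (LocS inE touch clus closeS Side T Mouth Fence dom CorrData CorrSep clus_sub clus_step clus_conn mem_clus_single fence_mono fence_mem mem_sphere_of_joins markov_indep grid exists_grid card_grid pb sat MoveData MoveSep)

/-! ### Rectangles are connected -/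

/-! ### Elementary geometry -/

end Pool.Agent.H38.N59

end

section

/-!
# All moves between pairs of sides, for sites
-/

set_option autoImplicit false

open MeasureTheory ProbabilityTheory unitInterval

namespace Pool.Agent.H38.N59

open Pool.Agent.H89.Perc
open Pool.Agent.H61.NC hiding RSWreg
open Pool.Agent.H83.SK (sv sit sit_true RSWreg)
open Pool.Agent.H59.EX (Side MoveData MoveSep msep_EW msep_EN msep_WT msep_ST)
open Pool.Agent.H83.SK.NG (prob_move)

end Pool.Agent.H38.N59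

end
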