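import Pool.Agent.H94.BG.H31.PT.H59.EX.Iter_1
import Pool.Agent.H94.BG.H31.PT.M19_2
import Pool.Agent.H94.BG.H31.PT.M19_3
import Pool.Agent.H94.BG.H31.PT.M21

/-! The parts of this file: H38.SK.N59.OutE, H38.SK.N59.Iter. -/

section

/-!
# Outward separation for sites: assembly
-/

set_option autoImplicit false

open MeasureTheory ProbabilityTheory unitInterval

namespace Pool.Agent.H38.N59

open Pool.Agent.H89.Perc
open Pool.Agent.H61.NC hiding RSWreg
open Pool.Agent.H83.SK (sv sit sit_true RSWreg BadIn)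
open Pool.Agent.H59.EX (Side Gen CorrData CorrSep OnSide ZS NS corr_straight oute_netE oute_netS oute_pow oute_div oute_card oute_ball)
open Pool.Agent.H83.SK.NG (prob_straight exists_corr_y)

end Pool.Agent.H38.N59

end

section

/-!
# Four-arm events of sites are comparable to separated four-arm events; regularity
-/

set_option autoImplicit false

open MeasureTheory ProbabilityTheory unitInterval

namespace Pool.Agent.H38.N59

open Pool.Agent.H89.Perc
open Pool.Agent.H61.NC hiding RSWreg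
open Pool.Agent.H83.SK (sv sit sit_true RSWreg BadIn RegA4)
open Pool.Agent.H59.EX (Side fin_energy itr_base)

/-- Uniform lower bound for finitely many local nonempty events. -/
theorem itr_fin (A : ℕ → Set Config) (hA : ∀ k, ∃ Λ : Finset Edge, LocalOn Λ (A k))
    (c : ℝ) (hc : 0 < c) (W : ℕ) (hne : ∀ k, 1 ≤ k → k < W → (A k).Nonempty) :
    ∃ M : ℝ, 0 < M ∧ ∀ (k n : ℕ) (q : I), 1 ≤ k → k < W → 1 ≤ n → RSWreg c n q →
      1 ≤ M * Pr q (A k) := by
  obtain ⟨δ, hδ, hden⟩ := density_bound c hc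
  choose Λ hΛ using hA
  refine ⟨1 + ∑ k ∈ Finset.range W, (δ ^ (Λ k).card)⁻¹, by positivity, ?_⟩
  intro k n q hk hkW hn hreg
  have h1 := fin_energy (hΛ k) (hne k hk hkW) hδ (hden n q hn hreg)
  have h2 : (δ ^ (Λ k).card)⁻¹ ≤ 1 + ∑ k ∈ Finset.range W, (δ ^ (Λ k).card)⁻¹ := by
    have := Finset.single_le_sum (f := fun k => (δ ^ (Λ k).card)⁻¹) (s := Finset.range W)
      (fun _ _ => by positivity) (Finset.mem_range.2 hkW)
    linarith
  have h3 : (0 : ℝ) < δ ^ (Λ k).card := by positivity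
  calc (1 : ℝ) = (δ ^ (Λ k).card)⁻¹ * δ ^ (Λ k).card := by field_simp
    _ ≤ (1 + ∑ k ∈ Finset.range W, (δ ^ (Λ k).card)⁻¹) * Pr q (A k) :=
      mul_le_mul h2 h1 h3.le (by positivity)

/-- **Separation.** -/
theorem four_le_sep (hB : BadIn) {s : Src} (hs : ∀ k : ℕ, 1 ≤ k → (Sep s .E .W k).Nonempty)
    (c : ℝ) (hc : 0 < c) : ∃ (C : ℝ) (r₀ : ℕ), 0 < C ∧ ∀ (n r : ℕ) (q : I) (e e' : Side),
      e ≠ e' → r₀ ≤ r → r ≤ n → RSWreg c n q →
      ∃ k : ℕ, 64 * r ≤ k ∧ k ≤ 128 * r ∧ Pr q (Four s r) ≤ C * Pr q (Sep s e e' k) := by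
  obtain ⟨C₁, hC₁, hstep⟩ := bS_step c hc 1
  obtain ⟨C₂, hC₂, hreach⟩ := bS_reach c hc 1
  obtain ⟨C, w₀, hC, hout⟩ := out_step hB c (1 / (2 * C₁)) hc (by positivity)
  obtain ⟨M₀, hM₀, hfin⟩ := itr_fin (fun k => Sep s .E .W (4 * k))
    (fun k => localOn_sep s .E .W (4 * k)) c hc (4 * (w₀ + 2))
    (fun k hk _ => hs (4 * k) (by omega))
  have hMpos : 0 < M₀ + 2 * C := by positivity
  refine ⟨(M₀ + 2 * C) * C₂, 8 * (w₀ + 2), by positivity, ?_⟩
  intro n r q e e' hee hr hrn hreg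
  obtain ⟨i, m, hm1, hm2, hm3, hm4⟩ := itr_base (W := w₀ + 2) (R := r / 8) (by omega) (by omega)
  have key : ∀ j : ℕ, j ≤ i → Pr q (Four s (8 * (4 ^ j * m))) ≤
      (M₀ + 2 * C) * bS q s (4 * (4 ^ j * m)) := by
    intro j
    induction j with
    | zero =>
      intro _
      have h1 : Pr q (Four s (8 * (4 ^ 0 * m))) ≤ 1 := Pr_le_one
      have h2 := hfin m n q (by omega) hm2 (by omega) hreg
      have h3 := itr_bS_ge q s .E .W (4 * m)
      have h4 : 0 ≤ bS q s (4 * m) := Pr_nonneg.trans h3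
      simp only [pow_zero, one_mul]
      simp only [pow_zero, one_mul] at h1
      nlinarith only [h2, h1, h3, hM₀, hC, h4, mul_le_mul_of_nonneg_left h3 hM₀.le, mul_nonneg hC.le h4]
    | succ j ih =>
      intro hj
      have ih' := ih (by omega)
      have hle : 4 ^ (j + 1) * m ≤ 4 ^ i * m :=
        Nat.mul_le_mul_right _ (Nat.pow_le_pow_right (by norm_num) hj)
      have hge : 1 * m ≤ 4 ^ j * m := Nat.mul_le_mul_right _ (Nat.one_le_pow _ _ (by norm_num))
      have e1 : 2 * (4 ^ (j + 1) * m) = 8 * (4 ^ j * m) := by ring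
      have e2 : 4 ^ (j + 1) * m = 4 * (4 ^ j * m) := by ring
      have h1 := hout s (4 ^ (j + 1) * m) n q (by omega) (by omega) hreg
      have h2 := hstep s (4 ^ (j + 1) * m) n q (by omega) (by omega) hreg
      rw [e1] at h1
      have h3 : 0 ≤ bS q s (4 * (4 ^ (j + 1) * m)) :=
        Pr_nonneg.trans (itr_bS_ge q s .E .W _)
      rw [← e2] at ih'
      have h4 : 1 / (2 * C₁) * Pr q (Four s (8 * (4 ^ j * m))) ≤
          (M₀ + 2 * C) / 2 * bS q s (4 * (4 ^ (j + 1) * m)) := by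
        calc 1 / (2 * C₁) * Pr q (Four s (8 * (4 ^ j * m)))
            ≤ 1 / (2 * C₁) * ((M₀ + 2 * C) * (C₁ * bS q s (4 * (4 ^ (j + 1) * m)))) := by
              refine mul_le_mul_of_nonneg_left (ih'.trans ?_) (by positivity)
              exact mul_le_mul_of_nonneg_left h2 hMpos.le
          _ = (M₀ + 2 * C) / 2 * bS q s (4 * (4 ^ (j + 1) * m)) := by
              field_simp
      nlinarith only [h1, h4, hM₀, h3, mul_nonneg hM₀.le h3]
  have h1 := key i le_rfl
  have h2 : Pr q (Four s r) ≤ Pr q (Four s (8 * (4 ^ i * m))) :=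
    Pr_mono (four_mono' (by omega) (by omega))
  have h3 := hreach s (4 * (4 ^ i * m)) n q e e' hee (by omega) (by omega) hreg
  refine ⟨256 * (4 * (4 ^ i * m)), by omega, by omega, ?_⟩
  calc Pr q (Four s r) ≤ (M₀ + 2 * C) * bS q s (4 * (4 ^ i * m)) := h2.trans h1
    _ ≤ (M₀ + 2 * C) * (C₂ * Pr q (Sep s e e' (256 * (4 * (4 ^ i * m))))) :=
      mul_le_mul_of_nonneg_left h3 hMpos.le
    _ = (M₀ + 2 * C) * C₂ * Pr q (Sep s e e' (256 * (4 * (4 ^ i * m)))) := by ring

/-- Comparison of scales for one source. -/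
theorem four_reg (hB : BadIn) {s : Src} (hs : ∀ k : ℕ, 1 ≤ k → (Sep s .E .W k).Nonempty)
    (c : ℝ) (hc : 0 < c) : ∃ C : ℝ, 0 < C ∧ ∀ (n r : ℕ) (q : I), 1 ≤ r → 64 * r ≤ n →
      RSWreg c n q → Pr q (Four s r) ≤ C * Pr q (Four s (4 * r)) := by
  obtain ⟨C, r₀, hC, h⟩ := four_le_sep hB hs c hc
  obtain ⟨M, hM, hfin⟩ := itr_fin (fun r => Four s (4 * r))
    (fun r => localOn_four s (4 * r)) c hc r₀
    (fun r hr _ => ((hs r hr).mono (sep_sub_four hr)).mono (four_mono' (by omega) (by omega)))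
  refine ⟨C + M, by positivity, ?_⟩
  intro n r q hr hrn hreg
  have h0 : 0 ≤ Pr q (Four s (4 * r)) := Pr_nonneg
  rcases lt_or_ge r r₀ with hlt | hge
  · have h1 := hfin r n q hr hlt (by omega) hreg
    have h2 : Pr q (Four s r) ≤ 1 := Pr_le_one
    nlinarith only [h1, h2, hC, h0, mul_nonneg hC.le h0]
  · obtain ⟨k, hk1, hk2, hk⟩ := h n r q .E .W (by decide) hge (by omega) hreg
    have h1 : Pr q (Sep s .E .W k) ≤ Pr q (Four s (4 * r)) :=
      Pr_mono ((sep_sub_four (by omega)).trans (four_mono' (by omega) (by omega)))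
    nlinarith only [hk, hM, h0, h1, hC, mul_nonneg hM.le h0, mul_le_mul_of_nonneg_left h1 hC.le]

/-- Regularity of the four-arm probability. -/
theorem regA4 (hB : BadIn) : RegA4 := by
  intro c hc
  obtain ⟨C, hC, h⟩ := four_reg hB (s := s4 false) (fun k hk => sep_s4_nonempty false hk) c hc
  obtain ⟨C', hC', h'⟩ := four_reg hB (s := s4 true) (fun k hk => sep_s4_nonempty true hk) c hc
  refine ⟨C + C', by positivity, fun n r q hr hrn hreg => ?_⟩
  rw [a4_eq, a4_eq]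
  have h1 := h n r q hr hrn hreg
  have h2 := h' n r q hr hrn hreg
  have h3 : 0 ≤ Pr q (Four (s4 false) (4 * r)) := Pr_nonneg
  have h4 : 0 ≤ Pr q (Four (s4 true) (4 * r)) := Pr_nonneg
  nlinarith only [h1, h2, hC, h4, hC', h3, mul_nonneg hC.le h4, mul_nonneg hC'.le h3]

end Pool.Agent.H38.N59

end
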