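import Pool.Agent.H94.BG.H31.PT.M03_3
import Pool.Agent.H94.BG.M06
import Pool.Agent.H94.BG.M08
import Pool.Agent.H94.BG.M19

/-! The parts of this file: H13.SK.SigmaTr, H13.SK.SigmaMono, H13.SK.Regime, H13.SK.LenOne, H92.SN.Tau, H92.SN.KCnt, H13.SK.TBlock, H13.SK.TTwo, H92.SN.Ret, H92.SN.Det, H92.SN.Pair, H92.SN.Sum, H92.SN.Main, H92.SN.Fin, H92.SN.Unif, H92.SN.Piv, H83.SK.PST.Prob, H83.SK.PST.Piv, H38.SK.Conv. -/

section

/-!
# The mean cluster size as a sum of the two-point function
-/

set_option autoImplicit false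

open MeasureTheory ProbabilityTheory unitInterval
open scoped ENNReal

namespace Pool.Agent.H13.SK

open Pool.Agent.H89.Perc Pool.Agent.H83.Site

theorem tconn_box {η : Config} {v : TV} (h : TConn η Set.univ (0, 0, false) v) :
    ∃ R : ℕ, TConn η (TR (-R) R (-R) R) (0, 0, false) v := by
  refine h.induction_right
    (P := fun v => ∃ R : ℕ, TConn η (TR (-R) R (-R) R) (0, 0, false) v)
    ⟨0, TConn.refl (by rw [mem_TR_site]; simp) h.open_left⟩ ?_
  rintro a b - hab ⟨R, hR⟩
  have h1 : TConn η (TR (-(R + 1 : ℕ)) (R + 1 : ℕ) (-(R + 1 : ℕ)) (R + 1 : ℕ)) (0, 0, false) a :=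
    hR.mono_set (TR_mono (by push_cast; omega) (by push_cast; omega) (by push_cast; omega)
      (by push_cast; omega))
  have ha := hR.mem_right
  rw [mem_TR] at ha
  have h2 := hab.2.2.1.fx_le (a := R + 1) (by omega)
  have h3 := hab.2.2.1.le_fx (a := -(R + 1)) (by omega)
  have h4 := hab.2.2.1.fy_le (a := R + 1) (by omega)
  have h5 := hab.2.2.1.le_fy (a := -(R + 1)) (by omega)
  refine ⟨R + 1, h1.tail ⟨h1.mem_right, ?_, hab.2.2⟩⟩
  rw [mem_TR]
  push_cast
  omega

end Pool.Agent.H13.SK

end

section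

/-!
# The mean cluster size is nondecreasing in the density
-/

set_option autoImplicit false

open MeasureTheory ProbabilityTheory unitInterval
open scoped ENNReal

namespace Pool.Agent.H13.SK

open Pool.Agent.H89.Perc Pool.Agent.H83.Site

end Pool.Agent.H13.SK

end

section

/-!
# The box-crossing regime of site percolation and the characteristic length
-/

set_option autoImplicit false

open MeasureTheory ProbabilityTheory unitInterval Filter Topology

namespace Pool.Agent.H13.SK

open Pool.Agent.H89.Perc Pool.Agent.H83.Site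

/-- Box-crossing regime for both colours: rectangles of aspect ratio `K` and height at most `n` are
crossed by open paths and by closed paths of the matching lattice with probability at least
`c`. -/
def RegT (K : ℕ) (c : ℝ) (n : ℕ) (q : I) : Prop :=
  ∀ m : ℕ, 1 ≤ m → m ≤ n → c ≤ PT q false {η | HC η 0 (K * m) 0 m} ∧
    c ≤ PT (σ q) true {η | HC η 0 (K * m) 0 m}

theorem RegT.anti {K : ℕ} {c : ℝ} {n n' : ℕ} {q : I} (h : RegT K c n q) (hn : n' ≤ n) :
    RegT K c n' q := fun m hm hmn => h m hm (hmn.trans hn)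

theorem RegT.mono_c {K : ℕ} {c c' : ℝ} {n : ℕ} {q : I} (h : RegT K c n q) (hc : c' ≤ c) :
    RegT K c' n q := fun m hm hmn => ⟨hc.trans (h m hm hmn).1, hc.trans (h m hm hmn).2⟩

theorem RegT.mono_K {K K' : ℕ} {c : ℝ} {n : ℕ} {q : I} (h : RegT K c n q) (hK : K' ≤ K) :
    RegT K' c n q := by
  intro m hm hmn
  have h1 : ∀ (p : I) (r : Bool), PT p r {η | HC η 0 (K * m) 0 m} ≤
      PT p r {η | HC η 0 (K' * m) 0 m} := by
    intro p r
    refine PT_mono fun η hη => ?_
    refine HC.mono hη le_rfl (by positivity) ?_ le_rfl le_rfl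
    exact_mod_cast Nat.mul_le_mul_right m hK
  exact ⟨(h m hm hmn).1.trans (h1 _ _), (h m hm hmn).2.trans (h1 _ _)⟩

theorem sigma_anti {p q : I} (h : p ≤ q) : σ q ≤ σ p := by
  have h' : (p : ℝ) ≤ q := h
  change (1 - (q : ℝ)) ≤ 1 - (p : ℝ)
  linarith

end Pool.Agent.H13.SK

end

section

/-!
# The characteristic lengths on the two sides of the critical density

`NC a4 Wp Reg` collects the results of near-critical percolation on the torus which are used:
`a4` is the four-arm probability, `Wp` the winding probability and `Reg` the box-crossing regime.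
-/

set_option autoImplicit false

open MeasureTheory ProbabilityTheory unitInterval Filter Topology

namespace Pool.Agent.H13.SK

open Pool.Agent.H89.Perc Pool.Agent.H83.Site

end Pool.Agent.H13.SK

end

section

/-!
# The connection of the neighbours of a site
-/

set_option autoImplicit false

open MeasureTheory ProbabilityTheory unitInterval Filter Topology

namespace Pool.Agent.H92.SN

open Pool.Agent.H89.Perc
open Pool.Agent.H61.NC (modE PrR' hasDerivAt_PrR_eq)
open Pool.Agent.H83.SK (sv sit)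

theorem Dn_mono {S T : Set Vert} (h : S ⊆ T) (v : Vert) (i : ℕ) : Dn S v i ⊆ Dn T v i := by
  rintro ω ⟨j, hj, hc⟩
  exact ⟨j, hj, hc.mono_set h⟩

theorem nb_shift (v z : Vert) (i : ℕ) : nb (v.1 + z.1, v.2 + z.2) i =
    ((nb v i).1 + z.1, (nb v i).2 + z.2) := by
  rcases i with _ | _ | _ | i <;> simp only [nb] <;> ext <;> (simp only; try ring)

/-- The finite volume version of the summands of `tau`. -/
noncomputable def tl (i m : ℕ) (q : I) : ℝ := Pool.Agent.H83.SK.Pr q (Dn (ball 0 m) 0 i)

theorem conn_ball_of_univ {ω : Config} {u v : Vert} (z : Vert) (h : Conn ω Set.univ u v) :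
    ∃ m : ℕ, Conn ω (ball z m) u v := by
  refine h.induction_right (P := fun w => ∃ m : ℕ, Conn ω (ball z m) u w) ?_ ?_
  · refine ⟨(u.1 - z.1).natAbs + (u.2 - z.2).natAbs, Conn.refl ?_⟩
    rw [mem_ball]
    omega
  · rintro a b _ hs ⟨m, hm⟩
    have hb : ball z m ⊆ ball z (m + 1) := by
      intro w hw
      rw [mem_ball] at hw ⊢
      omega
    have ha := hm.mem_right
    have h1 := hs.fst_le
    have h2 := hs.symm.fst_le
    have h3 := hs.snd_le
    obtain ⟨-, -, f, hf, ho⟩ := hs
    refine ⟨m + 1, (hm.mono_set hb).tail ⟨hb ha, ?_, f, hf, ho⟩⟩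
    rw [mem_ball] at ha ⊢
    omega

theorem ball_mono (v : Vert) {r r' : ℕ} (h : r ≤ r') : ball v r ⊆ ball v r' := by
  intro w hw
  rw [mem_ball] at hw ⊢
  omega

theorem Dn_univ_eq (v : Vert) (i : ℕ) : Dn Set.univ v i = ⋃ m : ℕ, Dn (ball v m) v i := by
  ext ω
  rw [Set.mem_iUnion]
  constructor
  · rintro ⟨j, hj, hc⟩
    obtain ⟨m, hm⟩ := conn_ball_of_univ v hc
    exact ⟨m, j, hj, hm⟩
  · rintro ⟨m, hm⟩
    exact Dn_mono (Set.subset_univ _) v i hm

theorem tl_le (i m : ℕ) (q : I) : tl i m q ≤ Pool.Agent.H83.SK.Pr q (Dn Set.univ 0 i) :=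
  Pool.Agent.H83.SK.Pr_mono (Dn_mono (Set.subset_univ _) _ _)

theorem tau_le_three (q : I) : tau q ≤ 3 := by
  have : tau q ≤ ∑ i ∈ Finset.Icc 1 3, (1 : ℝ) :=
    Finset.sum_le_sum fun _ _ => Pool.Agent.H83.SK.Pr_le_one
  simpa using this

/-- A connection between two vertices of a ball which is not realised inside the ball. -/
lemma reach_sphere {ω : Config} {z : Vert} {r : ℕ} {u v : Vert} (h : Conn ω Set.univ u v)
    (hu : u ∈ ball z r) (hn : ¬ Conn ω (ball z r) u v) :
    ∃ x ∈ sphere z r, Conn ω (ball z r) u x := by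
  obtain ⟨w, w', h1, h2, h3, -⟩ := h.exists_exit (T := {w | Conn ω (ball z r) u w})
    (Conn.refl hu) hn
  have h4 : Conn ω (ball z r) u w := h1.mem_right.2
  have h5 : w' ∉ ball z r := by
    intro h6
    apply h3
    obtain ⟨-, -, g, g1, g2⟩ := h2
    exact h4.tail ⟨h4.mem_right, h6, g, g1, g2⟩
  have h6 : Conn ω Set.univ u w' := (h1.mono_set (Set.subset_univ _)).tail h2
  obtain ⟨x, hx, hc⟩ := h6.to_sphere hu (Or.inl h5)
  exact ⟨x, hx, hc.mono_set Set.inter_subset_right⟩

end Pool.Agent.H92.SN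

end

section

/-!
# The number of open clusters
-/

set_option autoImplicit false

open MeasureTheory ProbabilityTheory unitInterval

namespace Pool.Agent.H92.SN

open Pool.Agent.H89.Perc
open Pool.Agent.H83.SK (sv sit)

/-- The open clusters of the site configuration `w` in the set `S`. -/
def oClus (w : Config) (S : Set Vert) : Set (Set Vert) :=
  {C | ∃ v ∈ S, w (sv v) = true ∧ C = {u | Conn (sit w) S v u}}

/-- The number of open clusters of the site configuration `w` in the set `S`. -/
noncomputable def KO (w : Config) (S : Set Vert) : ℕ := (oClus w S).ncard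

theorem kc_left {w : Config} {S : Set Vert} {a b : Vert} (h : Conn (sit w) S a b)
    (hab : a ≠ b) : w (sv a) = true := by
  obtain ⟨x, x', h4, h5, -, -⟩ := h.exists_exit (T := {a}) rfl (by simpa using Ne.symm hab)
  have hx : x = a := h4.mem_right.2
  subst hx
  obtain ⟨-, -, e, he, ho⟩ := h5
  rw [Pool.Agent.H83.SK.sit_true] at ho
  rcases he with ⟨h7, -⟩ | ⟨h7, -⟩
  · rw [h7]; exact ho.1
  · rw [h7]; exact ho.2

theorem kc_right {w : Config} {S : Set Vert} {a b : Vert} (h : Conn (sit w) S a b)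
    (hab : a ≠ b) : w (sv b) = true := kc_left h.symm (Ne.symm hab)

theorem kc_nb_ne (v : Vert) {i j : ℕ} (hi : i < 4) (hj : j < i) : nb v j ≠ nb v i := by
  obtain ⟨x, y⟩ := v
  have hcases : (j = 0 ∧ i = 1) ∨ (j = 0 ∧ i = 2) ∨ (j = 1 ∧ i = 2) ∨ (j = 0 ∧ i = 3) ∨
      (j = 1 ∧ i = 3) ∨ (j = 2 ∧ i = 3) := by omega
  rcases hcases with ⟨rfl, rfl⟩ | ⟨rfl, rfl⟩ | ⟨rfl, rfl⟩ | ⟨rfl, rfl⟩ | ⟨rfl, rfl⟩ | ⟨rfl, rfl⟩ <;>
    simp only [nb, ne_eq, Prod.mk.injEq] <;> omega

theorem kc_joins {e : Edge} {a b : Vert} (h : Joins e a b) {v : Vert} (ha : a ≠ v)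
    (hb : b ≠ v) : src e ≠ v ∧ tgt e ≠ v := by
  rcases h with ⟨h5, h6⟩ | ⟨h5, h6⟩
  · subst h5 h6; exact ⟨ha, hb⟩
  · subst h5 h6; exact ⟨hb, ha⟩

open Classical in
theorem kc_card {α : Type*} (P : ℕ → Prop) (f : ℕ → α) (n : ℕ) :
    ((((Finset.range n).filter P).image f).card : ℤ) =
      ∑ i ∈ Finset.range n, if P i ∧ ¬ ∃ j < i, P j ∧ f j = f i then (1 : ℤ) else 0 := by
  induction n with
  | zero => simp
  | succ n ih =>
    rw [Finset.sum_range_succ, ← ih, Finset.range_add_one, Finset.filter_insert]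
    by_cases hP : P n
    · rw [if_pos hP, Finset.image_insert]
      by_cases hE : ∃ j < n, P j ∧ f j = f n
      · rw [if_neg (fun h => h.2 hE), Finset.insert_eq_of_mem]
        · simp
        · obtain ⟨j, hj, hPj, hf⟩ := hE
          exact Finset.mem_image.2 ⟨j, by simp [hj, hPj], hf⟩
      · rw [if_pos ⟨hP, hE⟩, Finset.card_insert_of_notMem]
        · push_cast
          ring
        · intro hmem
          obtain ⟨j, hj, hf⟩ := Finset.mem_image.1 hmem
          rw [Finset.mem_filter, Finset.mem_range] at hj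
          exact hE ⟨j, hj.1, hj.2, hf⟩
    · rw [if_neg hP, if_neg (fun h => hP h.1)]
      simp

end Pool.Agent.H92.SN

end

section

/-!
# Exploration of the clusters of the cutting lines of the torus, block by block (sites)
-/

open MeasureTheory ProbabilityTheory unitInterval

namespace Pool.Agent.H13.SK

open Pool.Agent.H89.Perc Pool.Agent.H85.Kes
open Pool.Agent.H83.SK (sit sv sit_true)
open Pool.Agent.H92.SN (tSites WindS)

section state

variable {κ : Type*} [DecidableEq κ]

/-- State of a block exploration. -/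
def bState (s : Finset Edge) (β : Edge → κ) (R : BRule κ) (ω : Config) (n : ℕ) :
    Finset κ × Finset Edge := (bStep s β R ω)^[n] (∅, ∅)

variable {s : Finset Edge} {β : Edge → κ} {R : BRule κ}

theorem bState_succ (ω : Config) (n : ℕ) :
    bState s β R ω (n + 1) = bStep s β R ω (bState s β R ω n) := by
  simp only [bState, Function.iterate_succ_apply']

theorem revealed_eq (ω : Config) (n : ℕ) : revealed s β R ω n = (bState s β R ω n).1 := rfl

theorem mem_bState (ω : Config) (n : ℕ) (e : Edge) :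
    e ∈ (bState s β R ω n).2 ↔ e ∈ s ∧ β e ∈ (bState s β R ω n).1 ∧ ω e = true := by
  induction n with
  | zero => simp [bState]
  | succ n ih =>
    rw [bState_succ]
    rcases h : R (bState s β R ω n).1 (bState s β R ω n).2 with _ | b
    · rw [bStep_none h]; exact ih
    · rw [bStep_some h]
      simp only [Finset.mem_union, Finset.mem_filter, mem_blk, Finset.mem_insert, ih]
      tauto

theorem bState_stop {K : Finset κ} (hR : ∀ D O b, R D O = some b → b ∈ K ∧ b ∉ D) (ω : Config)
    (n : ℕ) : (bState s β R ω n).1 ⊆ K ∧ (R (bState s β R ω n).1 (bState s β R ω n).2 = none ∨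
      n ≤ (bState s β R ω n).1.card) := by
  induction n with
  | zero => simp [bState]
  | succ n ih =>
    obtain ⟨h1, h2⟩ := ih
    rcases h : R (bState s β R ω n).1 (bState s β R ω n).2 with _ | b
    · rw [bState_succ, bStep_none h]
      exact ⟨h1, Or.inl h⟩
    · have hb := hR _ _ _ h
      rw [bState_succ, bStep_some h]
      refine ⟨Finset.insert_subset hb.1 h1, Or.inr ?_⟩
      rw [Finset.card_insert_of_notMem hb.2]
      rcases h2 with h2 | h2
      · rw [h] at h2
        exact absurd h2 (by simp)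
      · omega

theorem bState_final {K : Finset κ} (hR : ∀ D O b, R D O = some b → b ∈ K ∧ b ∉ D)
    (ω : Config) :
    R (bState s β R ω K.card).1 (bState s β R ω K.card).2 = none := by
  obtain ⟨h1, h2⟩ := bState_stop hR ω K.card
  rcases h2 with h2 | h2
  · exact h2
  · have h3 : (bState s β R ω K.card).1 = K := Finset.eq_of_subset_of_card_le h1 h2
    rcases h : R (bState s β R ω K.card).1 (bState s β R ω K.card).2 with _ | b
    · rfl
    · have hb := hR _ _ _ h
      rw [h3] at hb
      exact absurd hb.1 hb.2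

theorem exists_step_of_revealed (ω : Config) (n : ℕ) {b : κ} (hb : b ∈ revealed s β R ω n) :
    ∃ m, R (bState s β R ω m).1 (bState s β R ω m).2 = some b := by
  induction n with
  | zero => simp [revealed, bFrom] at hb
  | succ n ih =>
    rw [revealed_eq, bState_succ] at hb
    rcases h : R (bState s β R ω n).1 (bState s β R ω n).2 with _ | b'
    · rw [bStep_none h] at hb
      exact ih hb
    · rw [bStep_some h] at hb
      rcases Finset.mem_insert.1 hb with rfl | hb
      · exact ⟨n, h⟩
      · exact ih hb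

end state

/-! ### The clusters of the cutting lines -/

/-- The vertex lies on a cutting line. -/
def OnL (N : ℕ) (u : Vert) : Prop := (N : ℤ) ∣ u.1 ∨ (N : ℤ) ∣ u.2

/-- The vertices joined to the cutting lines. -/
def Rch (N : ℕ) (ω : Config) : Set Vert :=
  {v | ∃ u, OnL N u ∧ Conn (sit (per N ω)) Set.univ u v}

/-- The site is in a cluster of the cutting lines or next to one. -/
def Want (N : ℕ) (ω : Config) (e : Edge) : Prop :=
  e ∈ tSites N ∧ ∃ a ∈ Rch N ω, a = src e ∨ ∃ f, Joins f a (src e)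

theorem rch_mono {N : ℕ} {ω ω' : Config} (h : ∀ e, ω e = true → ω' e = true) :
    Rch N ω ⊆ Rch N ω' := by
  rintro v ⟨u, hu, hc⟩
  exact ⟨u, hu, hc.mono le_rfl (Pool.Agent.H83.SK.sit_mono fun e he => h _ he)⟩

theorem emod_eq (N : ℕ) (x : ℤ) : x % N = x + -(x / N) * N := by
  have := Int.emod_add_ediv_mul x N
  linarith only [this]

/-- A path whose first coordinate increases by the period hits a cutting line. -/
theorem hit_line {N : ℕ} (hN : 1 ≤ N) {η : Config} {u v : Vert} (h : Conn η Set.univ u v)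
    (hd : u.1 + N ≤ v.1) :
    ∃ x : Vert, (N : ℤ) ∣ x.1 ∧ Conn η Set.univ u x ∧ Conn η Set.univ x v := by
  have hN0 : (0 : ℤ) < N := by exact_mod_cast hN
  have h1 := Int.emod_add_ediv_mul u.1 N
  have h2 := Int.emod_nonneg u.1 hN0.ne'
  have h3 := Int.emod_lt_of_pos u.1 hN0
  obtain ⟨w, w', h4, h5, h6, h7⟩ := h.exists_exit (T := {x : Vert | x.1 < (u.1 / N + 1) * N})
    (by simp only [Set.mem_ofPred_eq]; linarith only [h1, h3]) (by simp only [Set.mem_ofPred_eq]; linarith only [hd, h1, h2])
  have h8 := h4.mem_right.2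
  simp only [Set.mem_ofPred_eq, not_lt] at h6 h8
  have h9 := h5.fst_le
  refine ⟨w', ?_, (h4.mono_set Set.inter_subset_left).tail h5, h7⟩
  have : w'.1 = (u.1 / N + 1) * N := by omega
  rw [this]
  exact Dvd.intro_left _ rfl

/-! ### The rule -/

section rule

variable {κ : Type*} [DecidableEq κ]

/-- The exploration of the clusters of the cutting lines, block by block. -/
noncomputable def tRule (N : ℕ) (β : Edge → κ) : BRule κ := fun D O => by
  classical exact if h : ∃ e, Want N (ofS O) e ∧ β e ∉ D then some (β h.choose) else none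

variable {N : ℕ} {β : Edge → κ}

theorem tRule_some {D : Finset κ} {O : Finset Edge} {b : κ} (h : tRule N β D O = some b) :
    ∃ e, Want N (ofS O) e ∧ β e = b ∧ b ∉ D := by
  classical
  unfold tRule at h
  split_ifs at h with h'
  have h1 := h'.choose_spec
  have h2 := Option.some.inj h
  exact ⟨h'.choose, h1.1, h2, h2 ▸ h1.2⟩

theorem tRule_none {D : Finset κ} {O : Finset Edge} (h : tRule N β D O = none) {e : Edge}
    (he : Want N (ofS O) e) : β e ∈ D := by
  classical
  by_contra hc
  unfold tRule at h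
  rw [dif_pos ⟨e, he, hc⟩] at h
  exact absurd h (by simp)

theorem tRule_mem {K : Finset κ} (hK : ∀ e ∈ tSites N, β e ∈ K) (D : Finset κ) (O : Finset Edge)
    (b : κ) (h : tRule N β D O = some b) : b ∈ K ∧ b ∉ D := by
  obtain ⟨e, he, h1, h2⟩ := tRule_some h
  exact ⟨h1 ▸ hK e he.1, h2⟩

/-- A revealed block has an open arm. -/
theorem tRule_arm {b : κ} {z : Vert} {ρ R : ℕ}
    (hblk : ∀ e ∈ blk (tSites N) β b, src e ∈ ball z ρ) (hρ : ρ + 1 ≤ R)
    (hR1 : (R : ℤ) < z.1 ∧ z.1 + R < N) (hR2 : (R : ℤ) < z.2 ∧ z.2 + R < N) (n : ℕ) :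
    {ω | b ∈ revealed (tSites N) β (tRule N β) ω n} ⊆ {ω | sit ω ∈ ArmBox z (ρ + 1) R} := by
  intro ω hω
  obtain ⟨m, hm⟩ := exists_step_of_revealed ω n hω
  obtain ⟨e, ⟨he, a, ha, hae⟩, hb, -⟩ := tRule_some hm
  have hsrc := hblk e (mem_blk.2 ⟨he, hb⟩)
  have ha' : a ∈ Rch N ω := by
    refine rch_mono (fun f hf => ?_) ha
    rw [ofS_apply, decide_eq_true_iff, mem_bState] at hf
    exact hf.2.2
  obtain ⟨u, hu, hc⟩ := ha'
  have hab : a ∈ ball z (ρ + 1) := by
    rcases hae with h1 | ⟨f, hf⟩
    · rw [h1]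
      rw [mem_ball] at hsrc ⊢
      push_cast
      omega
    · have h2 : Step (fun _ => true) Set.univ a (src e) :=
        ⟨Set.mem_univ _, Set.mem_univ _, f, hf, rfl⟩
      have h3 := h2.fst_le
      have h4 := h2.snd_le
      rw [mem_ball] at hsrc ⊢
      push_cast
      omega
  have haR : a ∈ ball z R := by
    have : ((ρ + 1 : ℕ) : ℤ) ≤ R := by exact_mod_cast hρ
    rw [mem_ball] at hab ⊢
    omega
  have huR : u ∉ ball z R := by
    intro h
    rw [mem_ball] at h
    rcases hu with ⟨k, hk⟩ | ⟨k, hk⟩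
    · rcases lt_trichotomy k 0 with h1 | h1 | h1
      · have : (N : ℤ) * k ≤ 0 := by nlinarith only [hρ, hR1, h, hk, h1]
        omega
      · rw [h1, mul_zero] at hk
        omega
      · have : (N : ℤ) ≤ N * k := by nlinarith only [hR1, h, hk, h1]
        omega
    · rcases lt_trichotomy k 0 with h1 | h1 | h1
      · have : (N : ℤ) * k ≤ 0 := by nlinarith only [hρ, hR1, hR2, h, hk, h1]
        omega
      · rw [h1, mul_zero] at hk
        omega
      · have : (N : ℤ) ≤ N * k := by nlinarith only [hR2, h, hk, h1]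
        omega
  obtain ⟨y, hy, hcy⟩ := hc.symm.to_sphere haR (Or.inl huR)
  refine ⟨a, hab, y, hy, ?_⟩
  refine Conn.mono_set Set.inter_subset_right (Conn.congr (fun f h1 h2 => ?_) hcy)
  have key : ∀ v ∈ ball z R, per N ω (sv v) = ω (sv v) := by
    intro v hv
    rw [mem_ball] at hv
    simp only [per, sv]
    rw [Int.emod_eq_of_lt (by omega) (by omega), Int.emod_eq_of_lt (by omega) (by omega)]
  simp only [sit]
  rw [key _ h1.2, key _ h2.2]

end rule

end Pool.Agent.H13.SK

end

section

/-!
# Pivotal blocks of the torus (sites): translations, two distinct crossing clusters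
-/

open MeasureTheory ProbabilityTheory unitInterval

namespace Pool.Agent.H13.SK

open Pool.Agent.H89.Perc Pool.Agent.H85.Kes
open Pool.Agent.H83.SK (sit sv)
open Pool.Agent.H92.SN (tSites WindS blkS BlockPiv)
open Pool.Agent.H61.NC (Two Ring mid)

/-! ### Translations -/

/-- The block of radius `r` around `z`. -/
noncomputable def zB (z : Vert) (r : ℕ) : Finset Edge :=
  Finset.Icc (z.1 - r) (z.1 + r) ×ˢ Finset.Icc (z.2 - r) (z.2 + r) ×ˢ {false}

theorem mem_zB {z : Vert} {r : ℕ} {e : Edge} : e ∈ zB z r ↔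
    e.2.2 = false ∧ (z.1 - r ≤ e.1 ∧ e.1 ≤ z.1 + r) ∧ (z.2 - r ≤ e.2.1 ∧ e.2.1 ≤ z.2 + r) := by
  simp only [zB, Finset.mem_product, Finset.mem_Icc, Finset.mem_singleton]
  tauto

theorem zB_mid (N r : ℕ) : zB (mid N, mid N) r = blkS N r := by
  unfold zB blkS
  rfl

theorem blockPiv_eq (N r : ℕ) : BlockPiv N r = BPiv (blkS N r) (WindS N) := by
  ext ω
  simp only [Pool.Agent.H92.SN.BlockPiv, BPiv, Pool.Agent.H31.EX.fill_eq_setB]

/-! ### A pivotal block has two distinct crossing clusters around it -/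

/-- A long path crosses the annulus. -/
theorem ring_cross {η : Config} {m : Vert} {t R' : ℕ} (ht : 1 ≤ t) (htR : t ≤ R') {v v' : Vert}
    (hv : v ∈ ball m t) (hv' : v' ∉ ball m R') (h : Conn η Set.univ v v') :
    ∃ x ∈ sphere m t, (∃ w ∈ sphere m R', Conn η (Ring m t R') x w) ∧ Conn η Set.univ v x := by
  have htR'' : (t : ℤ) ≤ R' := by exact_mod_cast htR
  have ht1 : ((t - 1 : ℕ) : ℤ) = (t : ℤ) - 1 := by push_cast [Nat.cast_sub ht]; ring
  have hsub : ball m t ⊆ ball m R' := by
    intro x hx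
    rw [mem_ball] at hx ⊢
    omega
  obtain ⟨w, hw, h1⟩ := h.to_sphere (r := R') (hsub hv) (Or.inl hv')
  rcases htR.eq_or_lt with heq | hlt
  · subst heq
    refine ⟨w, hw, ⟨w, hw, Conn.refl ⟨hw.1, fun h3 => ?_⟩⟩, h1.mono_set (Set.subset_univ _)⟩
    have h4 := hw.2
    have h5 := hw.1
    rw [mem_ball] at h3 h5
    rw [ht1] at h3
    omega
  have htR' : (t : ℤ) < R' := by exact_mod_cast hlt
  have hwt : w ∉ ball m t := by
    intro hh
    rw [mem_ball] at hh
    have h2 := hw
    simp only [sphere, ball, rect, Set.mem_ofPred_eq] at h2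
    omega
  obtain ⟨x, x', h2, h3, h4, h5⟩ := h1.exists_last (T := ball m t) hv hwt
  have h6 := h5.mem_left
  have e1 := h4.fst_le
  have e2 := h4.snd_le
  have hx : x ∈ sphere m t := by
    refine ⟨h2, ?_⟩
    have h7 := h6.2
    rw [mem_ball] at h2 h7
    omega
  have hring : ∀ y ∈ sphere m t, y ∈ Ring m t R' := by
    intro y hy
    refine ⟨hsub hy.1, ?_⟩
    have h7 := hy.2
    have h8 := hy.1
    rw [mem_ball] at h8 ⊢
    rw [ht1]
    omega
  have h8 : Conn η (Ring m t R') x' w := by
    refine h5.mono_set ?_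
    rintro y ⟨⟨-, hy1⟩, hy2⟩
    refine ⟨hy1, fun hy3 => hy2 ?_⟩
    rw [mem_ball] at hy3 ⊢
    rw [ht1] at hy3
    omega
  have h9 : Step η (Ring m t R') x x' := ⟨hring x hx, h8.mem_left, h4.2.2⟩
  exact ⟨x, hx, ⟨w, hw, h9.conn.trans h8⟩, h3.mono_set (Set.subset_univ _)⟩

/-- The vertices of the copy `(a, b)` of the block and their neighbours. -/
def tB (N : ℕ) (z : Vert) (R : ℕ) (a b : ℤ) : Set Vert :=
  {v | z.1 - R - 1 + a * N ≤ v.1 ∧ v.1 ≤ z.1 + R + 1 + a * N ∧
    z.2 - R - 1 + b * N ≤ v.2 ∧ v.2 ≤ z.2 + R + 1 + b * N}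

theorem tB_shift {N R : ℕ} {z : Vert} {a b a' b' : ℤ} {v : Vert} (h : v ∈ tB N z R a b) :
    ((v.1 + a' * N, v.2 + b' * N) : Vert) ∈ tB N z R (a + a') (b + b') := by
  simp only [tB, Set.mem_ofPred_eq] at h ⊢
  have e1 : (a + a') * (N : ℤ) = a * N + a' * N := by ring
  have e2 : (b + b') * (N : ℤ) = b * N + b' * N := by ring
  rw [e1, e2]
  omega

/-- A site of the block, seen in the periodic extension. -/
theorem tB_of_mem {N R : ℕ} {z : Vert} {v : Vert}
    (h : ((v.1 % N, v.2 % N, false) : Edge) ∈ zB z R) :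
    z.1 - R + v.1 / N * N ≤ v.1 ∧ v.1 ≤ z.1 + R + v.1 / N * N ∧
    z.2 - R + v.2 / N * N ≤ v.2 ∧ v.2 ≤ z.2 + R + v.2 / N * N := by
  rw [mem_zB] at h
  have e1 : v.1 % N + v.1 / N * N = v.1 := Int.emod_add_ediv_mul v.1 N
  have e2 : v.2 % N + v.2 / N * N = v.2 := Int.emod_add_ediv_mul v.2 N
  simp only at h
  omega

end Pool.Agent.H13.SK

end

section

/-!
# Opening a closed site of a periodic configuration
-/

set_option autoImplicit false

open MeasureTheory ProbabilityTheory unitInterval

namespace Pool.Agent.H92.SN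

open Pool.Agent.H89.Perc
open Pool.Agent.H61.NC (modE)
open Pool.Agent.H83.SK (sv sit)

/-- All neighbours of `v` which reach the sphere are joined in the ball. -/
def NoFour (v : Vert) (r : ℕ) (η0 η1 : Config) : Prop :=
  ∀ p q, Step η1 Set.univ v p → Step η1 Set.univ v q →
    (∃ u ∈ sphere v r, Conn η0 (ball v r) p u) → (∃ u ∈ sphere v r, Conn η0 (ball v r) q u) →
    Conn η0 (ball v r) p q

theorem conn_iso {η : Config} {x y : Vert} (h : ∀ z, ¬ Step η Set.univ x z)
    (hc : Conn η Set.univ x y) : y = x := by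
  refine hc.induction_right (P := fun z => z = x) rfl ?_
  intro a b _ hab ha
  subst ha
  exact absurd hab (h b)

theorem per_sv {N : ℕ} (w : Config) (u : Vert) :
    per N w (sv u) = w (modE N (sv u)) := rfl

end Pool.Agent.H92.SN

end

section

/-!
# A pivotal site for the winding event has four arms
-/

set_option autoImplicit false

open MeasureTheory ProbabilityTheory unitInterval

namespace Pool.Agent.H92.SN

open Pool.Agent.H89.Perc
open Pool.Agent.H83.SK (sv sit)

end Pool.Agent.H92.SN

end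

section

/-!
# Pairs of sites of the torus
-/

set_option autoImplicit false

open MeasureTheory ProbabilityTheory unitInterval

namespace Pool.Agent.H92.SN

open Pool.Agent.H89.Perc
open Pool.Agent.H61.NC (fill mid upd Joint PrR' Joint_piv localOn_upd modE)
open Pool.Agent.H83.SK (sv sit)

theorem pivot_eq_sdiff {s : Finset Edge} {A : Set Config} (hA : LocalOn s A) (iA : Incr A)
    (q : I) (e : Edge) : pivot q A e = Pr q {w | Function.update w e true ∈ A ∧
      Function.update w e false ∉ A} := by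
  have lF : MeasurableSet (upd A e false) := (localOn_upd hA e false).measurableSet
  have s3 : upd A e false ⊆ upd A e true := by
    intro ω hω
    refine iA _ _ (fun x hx => ?_) hω
    by_cases hxe : x = e
    · subst hxe; simp
    · rw [Function.update_of_ne hxe] at hx ⊢; exact hx
  have e2 : Pr q (upd A e true \ upd A e false) = Pr q (upd A e true) - Pr q (upd A e false) :=
    measureReal_sdiff s3 lF
  exact e2.symm

end Pool.Agent.H92.SN

end

section

/-!
# The sum over pairs of sites
-/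

set_option autoImplicit false

open MeasureTheory ProbabilityTheory unitInterval

namespace Pool.Agent.H92.SN

open Pool.Agent.H89.Perc
open Pool.Agent.H61.NC (fill mid upd Joint PrR')
open Pool.Agent.H83.SK (sv sit)

end Pool.Agent.H92.SN

end

section

/-!
# Near-critical stability of the influences
-/

set_option autoImplicit false

open MeasureTheory ProbabilityTheory unitInterval

namespace Pool.Agent.H92.SN

open Pool.Agent.H89.Perc
open Pool.Agent.H61.NC (fill mid upd Joint PrR' PrR'_eq hasDerivAt_PrR_eq hasDerivAt_PrR' abs_second_le)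
open Pool.Agent.H83.SK (sv sit)

end Pool.Agent.H92.SN

end

section

/-!
# Scaling relations for the four-arm probability
-/

set_option autoImplicit false

open MeasureTheory ProbabilityTheory unitInterval

namespace Pool.Agent.H92.SN

open Pool.Agent.H89.Perc
open Pool.Agent.H61.NC (fill mid upd Joint PrR')
open Pool.Agent.H83.SK (sv sit)

end Pool.Agent.H92.SN

end

section

/-!
# Uniform decay of the four-arm probability
-/

set_option autoImplicit false

open MeasureTheory ProbabilityTheory unitInterval Filter Topology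

namespace Pool.Agent.H92.SN

open Pool.Agent.H89.Perc
open Pool.Agent.H29.Sep (Circ ann)
open Pool.Agent.H83.SK (sv sit)

end Pool.Agent.H92.SN

end

section

/-!
# Pivotal sites of the connection event on the torus
-/

set_option autoImplicit false

open MeasureTheory ProbabilityTheory unitInterval

namespace Pool.Agent.H92.SN

open Pool.Agent.H89.Perc
open Pool.Agent.H61.NC (modE mid)
open Pool.Agent.H83.SK (sv sit)

/-! ### Events of annuli -/

/-- Two crossing clusters of an annulus of the torus. -/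
def A2S (N : ℕ) (c : Vert) (t R : ℕ) : Set Config :=
  {w | (fun g => sit (per N w) (shiftE c g)) ∈ Pool.Agent.H29.Sep.A2 t R}

lemma dom_shift {c u : Vert} {t R : ℕ} (h : u ∈ Pool.Agent.H29.Sep.dom t R) :
    (u.1 + c.1, u.2 + c.2) ∈ ball c R ∧ (u.1 + c.1, u.2 + c.2) ∉ ball c (t - 1) := by
  constructor
  · have := h.1
    simp only [mem_ball, Prod.fst_zero, Prod.snd_zero] at this ⊢
    omega
  · intro h'
    apply h.2
    simp only [mem_ball, Prod.fst_zero, Prod.snd_zero] at h' ⊢
    omega

lemma src_shiftE (c : Vert) (g : Edge) : src (shiftE c g) = ((src g).1 + c.1, (src g).2 + c.2) :=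
  rfl

lemma tgt_shiftE (c : Vert) (g : Edge) :
    tgt (shiftE c g) = ((tgt g).1 + c.1, (tgt g).2 + c.2) := by
  obtain ⟨x, y, t⟩ := g
  cases t
  · simp only [tgt, shiftE]
    ext <;> (simp; try ring)
  · simp only [tgt, shiftE]
    ext <;> (simp; try ring)

/-! ### Pivotal sites -/

/-- The periodic configuration with the middle site closed. -/
def cfgS (N : ℕ) (w : Config) : Config := sit (per N (shut (cV N) w))

/-- The site `x` is pivotal. -/
def PivS (N i : ℕ) (x : Vert) (w : Config) : Prop :=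
  Function.update w (sv x) true ∈ DT N i ∧ Function.update w (sv x) false ∉ DT N i

lemma PivS.ne {N i : ℕ} {x : Vert} {w : Config} (h : PivS N i x w) : x ≠ cV N := by
  rintro rfl
  apply h.2
  have h1 := h.1
  unfold DT shut at h1 ⊢
  simp only [Set.mem_ofPred_eq, Function.update_idem] at h1 ⊢
  exact h1

lemma PivS.conn {N i : ℕ} {x : Vert} {w : Config} (h : PivS N i x w) :
    ∃ j < i, (∃ a b : ℤ, Conn (cfgS N (Function.update w (sv x) true)) Set.univ (nb (cV N) j)
      ((nb (cV N) i).1 + a * N, (nb (cV N) i).2 + b * N)) ∧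
    ∀ a b : ℤ, ¬ Conn (cfgS N (Function.update w (sv x) false)) Set.univ (nb (cV N) j)
      ((nb (cV N) i).1 + a * N, (nb (cV N) i).2 + b * N) := by
  obtain ⟨j, hj, a, b, hc⟩ := h.1
  exact ⟨j, hj, ⟨a, b, hc⟩, fun a b hc' => h.2 ⟨j, hj, a, b, hc'⟩⟩

end Pool.Agent.H92.SN

end

section

/-!
# Probabilities of the corridor event and of the seals; locality
-/

set_option autoImplicit false

open MeasureTheory ProbabilityTheory unitInterval

namespace Pool.Agent.H83.PST

open Pool.Agent.H89.Perc
open Pool.Agent.H61.NC (modE)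
open Pool.Agent.H83.SK (sv sit sit_true)
open Pool.Agent.H59.EX (LocS inE touch clus closeS Side T Mouth Fence dom pb grid)
open Pool.Agent.H26.ST (Cor PerInv sh TD Rel1 In)
open Pool.Agent.H92.SN (WindS tSites)

lemma mod_eq' {N : ℕ} {x y : ℤ} (h1 : x - y < N) (h2 : y - x < N)
    (h : x % N = y % N) : x = y := by
  have hd : (N : ℤ) ∣ x - y := Int.ModEq.dvd (Int.ModEq.symm h)
  have : x - y = 0 := by
    apply Int.eq_zero_of_abs_lt_dvd hd
    rw [abs_lt]
    omega
  omega

lemma mem_dom {k : ℕ} {v : Vert} (h : v ∈ dom .W .E k) :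
    -(36 * (k : ℤ)) ≤ v.1 ∧ v.1 ≤ 36 * k ∧ -(32 * (k : ℤ)) ≤ v.2 ∧ v.2 ≤ 32 * k ∧
      (32 * (k : ℤ) < |v.1| → -(3 * (k : ℤ)) ≤ v.2 ∧ v.2 ≤ 3 * k) := by
  simp only [dom, T, ball, rect, Set.mem_union, Set.mem_ofPred_eq, Prod.fst_zero,
    Prod.snd_zero] at h
  push_cast at h
  rcases abs_cases v.1 with h1 | h1 <;> omega

/-- The sites of a rectangle. -/
noncomputable def sR (a b c d : ℤ) : Finset Edge := by
  classical exact (eRect a b c d).filter (fun e => e.2.2 = false)

end Pool.Agent.H83.PST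

end

section

/-!
# Lower bounds for the influence of a site of the torus; small tori
-/

set_option autoImplicit false

open MeasureTheory ProbabilityTheory unitInterval

namespace Pool.Agent.H83.PST

open Pool.Agent.H89.Perc
open Pool.Agent.H61.NC (modE ctr mid)
open Pool.Agent.H83.SK (sv sit sit_true sT sitT)
open Pool.Agent.H92.SN (WindS tSites cE)

theorem windS_eq (N : ℕ) : {ω | sitT N ω ∈ Wind N} = WindS N := by
  ext ω
  constructor
  · rintro ⟨u, a, b, ha, hc⟩
    rw [Pool.Agent.H83.SK.per_sitT] at hc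
    exact ⟨u, a, b, ha, hc⟩
  · rintro ⟨u, a, b, ha, hc⟩
    refine ⟨u, a, b, ha, ?_⟩
    rw [Pool.Agent.H83.SK.per_sitT]
    exact hc

theorem sT_eq (q : I) (N : ℕ) : sT q N = Pool.Agent.H92.SN.sT q N := by
  unfold Pool.Agent.H83.SK.sT
  rw [windS_eq]
  rfl

/-! ### Small tori -/

/-- The explicit configuration of the sites: a row without the site `0`. -/
def smB : Config := fun e => decide (e.2.1 = 0 ∧ e.1 ≠ 0)

private theorem div_eq {N x : ℤ} (hN : 0 < N) (h : (x + 1) % N ≠ 0) : x / N = (x + 1) / N := by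
  have h1 := Int.emod_add_mul_ediv (x + 1) N
  have h2 := Int.emod_nonneg (x + 1) hN.ne'
  have h3 := Int.emod_lt_of_pos (x + 1) hN
  exact ((Int.ediv_emod_unique (r := (x + 1) % N - 1) hN).2
    ⟨by linarith only [h1], by omega, by omega⟩).1

private theorem smB_step {N : ℕ} (hN : 1 ≤ N) {e : Edge} (he : sit (per N smB) e = true) :
    (src e).1 / (N : ℤ) = (tgt e).1 / (N : ℤ) := by
  have hN0 : (0 : ℤ) < N := by omega
  rw [sit_true] at he
  obtain ⟨x, y, t⟩ := e
  cases t
  · have h2 := he.2
    simp only [sv, tgt, per, smB, Bool.false_eq_true, if_false, decide_eq_true_eq] at h2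
    simp only [src, tgt, Bool.false_eq_true, if_false]
    exact div_eq hN0 h2.2
  · simp only [src, tgt, if_true]

theorem smB_not {N : ℕ} (hN : 1 ≤ N) : smB ∉ WindS N := by
  rintro ⟨u, a, b, ha, hc⟩
  have hN' : (N : ℤ) ≠ 0 := by omega
  have key : ∀ v, Conn (sit (per N smB)) Set.univ u v → u.1 / (N : ℤ) = v.1 / (N : ℤ) := by
    intro v hv
    refine hv.induction_right (P := fun v => u.1 / (N : ℤ) = v.1 / (N : ℤ)) rfl ?_
    rintro x y _ ⟨-, -, e, hj, ho⟩ ih
    rw [ih]
    have := smB_step hN ho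
    rcases hj with ⟨h1, h2⟩ | ⟨h1, h2⟩
    · rw [h1, h2]
      exact this
    · rw [h1, h2]
      exact this.symm
  have h1 := key _ hc
  simp only [Int.add_mul_ediv_right _ _ hN'] at h1
  omega

theorem smB_wind {N : ℕ} (hN : 1 ≤ N) : Function.update smB (sv 0) true ∈ WindS N := by
  obtain ⟨ω, hω⟩ : ∃ ω : Config, ω = Function.update smB (sv 0) true := ⟨_, rfl⟩
  rw [← hω]
  have hN0 : (0 : ℤ) < N := by omega
  have hopen : ∀ j : ℕ, per N ω (sv ((j : ℤ), (0 : ℤ))) = true := by
    intro j
    have h1 : per N ω (sv ((j : ℤ), (0 : ℤ))) = ω ((j : ℤ) % N, 0, false) := by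
      simp [per, sv]
    rw [h1, hω, Function.update_apply]
    split_ifs with h
    · rfl
    · simp only [smB, decide_eq_true_eq, true_and]
      intro h2
      refine h ?_
      rw [h2]
      rfl
  have key : ∀ j : ℕ, Conn (sit (per N ω)) Set.univ ((0 : ℤ), (0 : ℤ)) ((j : ℤ), (0 : ℤ)) := by
    intro j
    induction j with
    | zero => exact Conn.refl trivial
    | succ j ih =>
      refine ih.tail ⟨trivial, trivial, ((j : ℤ), 0, false), Or.inl ⟨rfl, ?_⟩, ?_⟩
      · simp [tgt]
      · rw [sit_true]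
        refine ⟨hopen j, ?_⟩
        have := hopen (j + 1)
        push_cast at this
        simpa [tgt] using this
  refine ⟨(0, 0), 1, 0, one_ne_zero, ?_⟩
  have e1 : ((((0 : ℤ), (0 : ℤ)) : Vert).1 + 1 * (N : ℤ), (((0 : ℤ), (0 : ℤ)) : Vert).2 +
      0 * (N : ℤ)) = ((N : ℤ), (0 : ℤ)) := by
    simp
  rw [e1]
  exact key N

theorem smB_closed : Function.update smB (sv 0) false = smB := by
  refine Function.update_eq_self_iff.2 ?_
  simp [smB, sv]

end Pool.Agent.H83.PST

end

section

/-!
# The two forms of the four-arm probability of a site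

`SK.a4` sums over two kinds of pairs of neighbours of the origin, `SN.a4` is the probability of the
union over all pairs.
-/

set_option autoImplicit false

open MeasureTheory ProbabilityTheory unitInterval

namespace Pool.Agent.H38.SKConv

open Pool.Agent.H89.Perc
open Pool.Agent.H59.EX (closeS Four)
open Pool.Agent.H83.SK (s4 star0 IsAut isAut_swap isAut_reflX isAut_reflY sitT blkS)
open Pool.Agent.H92.SN (closeV Nb WindS)
open Pool.Agent.H61.NC (fill blk mid)

variable {q : I} {r : ℕ}

theorem mem_star0 (e : Edge) : e ∈ star0 ↔ src e = 0 ∨ tgt e = 0 := by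
  obtain ⟨x, y, t⟩ := e
  cases t
  · simp only [star0, Finset.mem_insert, Finset.mem_singleton, Prod.mk.injEq, src, tgt,
      Bool.false_eq_true, if_false, and_false, and_true, or_false, false_or]
    constructor
    · rintro (⟨rfl, rfl⟩ | ⟨rfl, rfl⟩)
      · left; rfl
      · right; rfl
    · rintro (h | h)
      · have h1 := congrArg Prod.fst h
        have h2 := congrArg Prod.snd h
        simp only [Prod.fst_zero, Prod.snd_zero] at h1 h2
        left; exact ⟨h1, h2⟩
      · have h1 := congrArg Prod.fst h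
        have h2 := congrArg Prod.snd h
        simp only [Prod.fst_zero, Prod.snd_zero] at h1 h2
        right; exact ⟨by omega, h2⟩
  · simp only [star0, Finset.mem_insert, Finset.mem_singleton, Prod.mk.injEq, src, tgt,
      if_true, and_false, and_true, false_or, reduceCtorEq]
    constructor
    · rintro (⟨rfl, rfl⟩ | ⟨rfl, rfl⟩)
      · left; rfl
      · right; rfl
    · rintro (h | h)
      · have h1 := congrArg Prod.fst h
        have h2 := congrArg Prod.snd h
        simp only [Prod.fst_zero, Prod.snd_zero] at h1 h2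
        left; exact ⟨h1, h2⟩
      · have h1 := congrArg Prod.fst h
        have h2 := congrArg Prod.snd h
        simp only [Prod.fst_zero, Prod.snd_zero] at h1 h2
        right; exact ⟨h1, by omega⟩

theorem cut_eq (b : Bool) (ω : Config) : (s4 b).cut ω = closeV 0 ω := by
  funext e
  have h := mem_star0 e
  have h0 : (s4 b).E0 = star0 := rfl
  rw [Bool.eq_iff_iff]
  unfold Pool.Agent.H59.EX.Src.cut closeS closeV
  rw [h0]
  simp only [Finset.mem_coe, Bool.and_eq_true, decide_eq_true_eq]
  rw [h, not_or]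

/-- Two given neighbours of the origin are joined to distance `r` and not to each other. -/
def F (a b : Vert) (r : ℕ) : Set Config :=
  {ω | (∃ u ∈ sphere 0 r, Conn (closeV 0 ω) (ball 0 r) a u) ∧
    (∃ u ∈ sphere 0 r, Conn (closeV 0 ω) (ball 0 r) b u) ∧ ¬ Conn (closeV 0 ω) (ball 0 r) a b}

theorem F_comm (a b : Vert) : F a b r = F b a r := by
  ext ω
  constructor
  · rintro ⟨h1, h2, h3⟩
    exact ⟨h2, h1, fun h => h3 h.symm⟩
  · rintro ⟨h1, h2, h3⟩
    exact ⟨h2, h1, fun h => h3 h.symm⟩

theorem localOn_F (a b : Vert) (r : ℕ) :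
    LocalOn (eRect (-(r : ℤ)) r (-(r : ℤ)) r) (F a b r) := by
  have key : ∀ ω ω' : Config, (∀ e ∈ eRect (-(r : ℤ)) r (-(r : ℤ)) r, ω e = ω' e) → ∀ x y,
      Conn (closeV 0 ω) (ball 0 r) x y → Conn (closeV 0 ω') (ball 0 r) x y := by
    intro ω ω' h x y hc
    refine hc.congr fun e h1 _ => ?_
    unfold closeV
    rw [h e]
    rw [mem_eRect]
    rw [Pool.Agent.H89.Perc.mem_ball] at h1
    simp only [Prod.fst_zero, Prod.snd_zero] at h1
    simp only [rect, Set.mem_ofPred_eq]
    omega
  rintro ω ω' h ⟨⟨u, hu, h1⟩, ⟨u', hu', h2⟩, h3⟩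
  exact ⟨⟨u, hu, key _ _ h _ _ h1⟩, ⟨u', hu', key _ _ h _ _ h2⟩,
    fun h4 => h3 (key _ _ (fun e he => (h e he).symm) _ _ h4)⟩

theorem blkS_eq (N r : ℕ) : blkS N r = Pool.Agent.H92.SN.blkS N r := by
  ext ⟨x, y, t⟩
  unfold blkS Pool.Agent.H92.SN.blkS blk eRect
  simp only [Finset.mem_filter, Finset.mem_product, Finset.mem_Icc, Finset.mem_univ, and_true,
    Finset.mem_singleton]
  tauto

theorem blockPiv_eq (N r : ℕ) : Pool.Agent.H83.SK.BlockPiv N r = Pool.Agent.H92.SN.BlockPiv N r := by
  ext w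
  have h : ∀ w' : Config, sitT N w' ∈ Wind N ↔ w' ∈ WindS N := by
    intro w'
    rw [← Pool.Agent.H83.PST.windS_eq]
    rfl
  unfold Pool.Agent.H83.SK.BlockPiv Pool.Agent.H92.SN.BlockPiv
  simp only [Set.mem_ofPred_eq]
  rw [h, h, blkS_eq]

end Pool.Agent.H38.SKConv

end
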