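import Pool.Agent.H94.BG.H31.PT.M08_7
import Pool.Agent.H94.BG.H31.PT.M11_3
import Pool.Agent.H94.BG.H31.PT.M12
import Pool.Agent.H94.BG.H31.PT.M16
import Pool.Agent.H94.BG.H31.PT.M24
import Pool.Agent.H94.BG.H31.PT.M25

/-! The parts of this file: H13.SK.SigmaTr, H13.SK.SigmaMono, H13.SK.Regime, H13.SK.LenOne, H92.SN.Tau, H92.SN.KCnt, H13.SK.TBlock, H13.SK.TTwo, H92.SN.Ret, H92.SN.Det, H92.SN.Pair, H92.SN.Sum, H92.SN.Main, H92.SN.Fin, H92.SN.Unif, H92.SN.Piv, H83.SK.PST.Prob, H83.SK.PST.Piv, H38.SK.Conv. -/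

section

/-!
# The mean cluster size as a sum of the two-point function
-/

set_option autoImplicit false

open MeasureTheory ProbabilityTheory unitInterval
open scoped ENNReal

namespace Pool.Agent.H13.SK

open Pool.Agent.H89.Perc Pool.Agent.H83.Site

end Pool.Agent.H13.SK

end

section

/-!
# The mean cluster size is nondecreasing in the density
-/

set_option autoImplicit false

open MeasureTheory ProbabilityTheory unitInterval
open scoped ENNReal

namespace Pool.Agent.H13.SK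

open Pool.Agent.H89.Perc Pool.Agent.H83.Site

end Pool.Agent.H13.SK

end

section

/-!
# The box-crossing regime of site percolation and the characteristic length
-/

set_option autoImplicit false

open MeasureTheory ProbabilityTheory unitInterval Filter Topology

namespace Pool.Agent.H13.SK

open Pool.Agent.H89.Perc Pool.Agent.H83.Site

/-- At a bad scale the square is crossed by the other colour. -/
theorem bad_dual {δ : ℝ} {p : I} {r : Bool} {m : ℕ} (h : ¬ Good δ p r m) :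
    δ ≤ PT (σ p) (!r) {η | HC η 0 (4 * m) 0 (4 * m)} := by
  unfold Good at h
  have h1 := crit_dual p r (a := 0) (b := 4 * (m : ℤ)) (c := 0) (d := 4 * (m : ℤ)) (by omega)
    (by omega)
  push Not at h
  rw [h1] at h
  linarith

/-- Below the first good scale of the colour `r` long rectangles are crossed by the other
colour. -/
theorem cross_of_bad : ∀ δ > (0 : ℝ), ∀ K K' : ℕ, ∃ c > (0 : ℝ), ∀ (p q : I) (r : Bool) (n : ℕ),
    2 ≤ n → (∀ m : ℕ, 1 ≤ m → m < n → ¬ Good δ p r m) → q ≤ p →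
      ∀ m : ℕ, 1 ≤ m → m ≤ K' * n → c ≤ PT (σ q) (!r) {η | HC η 0 (K * m) 0 m} := by
  intro δ hδ K K'
  obtain ⟨c, hc, H⟩ := bdd_local' hδ K (2 * K')
  refine ⟨c, hc, fun p q r n hn hb hqp m hm hmn => ?_⟩
  have h1 := H (σ p) (!r) (n - 1) (by omega) (fun k hk hkn => bad_dual (hb k hk (by omega))) m hm (by
    obtain ⟨k, rfl⟩ : ∃ k, n = k + 2 := ⟨n - 2, by omega⟩
    have : k + 2 - 1 = k + 1 := by omega
    rw [this]
    nlinarith only [hmn])
  exact h1.trans (PT_mono_param (localOn_HC _ _ _ _) (incr_HC _ _ _ _) (sigma_anti hqp))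

/-- The regime above the critical density. -/
theorem reg_plus : ∀ δ > (0 : ℝ), ∀ K K' : ℕ, ∃ c > (0 : ℝ), ∀ (p : I) (n : ℕ), 2 ≤ n →
    (∀ m : ℕ, 1 ≤ m → m < n → ¬ Good δ p false m) →
      ∀ q : I, pc ≤ q → q ≤ p → RegT K c (K' * n) q := by
  intro δ hδ K K'
  obtain ⟨c, hc, H⟩ := cross_of_bad δ hδ K K'
  obtain ⟨c', hc', H'⟩ := bxp_pc.1 K
  refine ⟨min c c', lt_min hc hc', fun p n hn hb q hq hqp m hm hmn => ⟨?_, ?_⟩⟩
  · exact (min_le_right _ _).trans ((H' m hm).trans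
      (PT_mono_param (localOn_HC _ _ _ _) (incr_HC _ _ _ _) hq))
  · exact (min_le_left _ _).trans (H p q false n hn hb hqp m hm hmn)

/-- The regime below the critical density. -/
theorem reg_minus : ∀ δ > (0 : ℝ), ∀ K K' : ℕ, ∃ c > (0 : ℝ), ∀ (p : I) (n : ℕ), 2 ≤ n →
    (∀ m : ℕ, 1 ≤ m → m < n → ¬ Good δ (σ p) true m) →
      ∀ q : I, p ≤ q → q ≤ pc → RegT K c (K' * n) q := by
  intro δ hδ K K'
  obtain ⟨c, hc, H⟩ := cross_of_bad δ hδ K K'
  obtain ⟨c', hc', H'⟩ := bxp_pc.2 K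
  refine ⟨min c c', lt_min hc hc', fun p n hn hb q hpq hq m hm hmn => ⟨?_, ?_⟩⟩
  · have h1 := H (σ p) (σ q) true n hn hb (sigma_anti hpq) m hm hmn
    rw [σσ] at h1
    exact (min_le_left _ _).trans h1
  · exact (min_le_right _ _).trans ((H' m hm).trans
      (PT_mono_param (localOn_HC _ _ _ _) (incr_HC _ _ _ _) (sigma_anti hq)))

/-- No scale is good at the critical density. -/
theorem exists_bad_pc : ∃ δ > (0 : ℝ), ∀ m : ℕ, 1 ≤ m →
    ¬ Good δ pc false m ∧ ¬ Good δ (σ pc) true m := by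
  obtain ⟨c, hc, H⟩ := bxp_pc.1 1
  obtain ⟨c', hc', H'⟩ := bxp_pc.2 1
  refine ⟨min c c' / 2, by positivity, fun m hm => ?_⟩
  have h1 := H (4 * m) (by omega)
  have h2 := H' (4 * m) (by omega)
  have e : ((1 : ℕ) : ℤ) * ((4 * m : ℕ) : ℤ) = 4 * m := by push_cast; ring
  have e' : ((4 * m : ℕ) : ℤ) = 4 * m := by push_cast; ring
  rw [e, e'] at h1 h2
  have h3 := crit_dual pc false (a := 0) (b := 4 * (m : ℤ)) (c := 0) (d := 4 * (m : ℤ)) (by omega)
    (by omega)
  have h4 : 0 < min c c' := lt_min hc hc'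
  have h5 := min_le_left c c'
  have h6 := min_le_right c c'
  constructor
  · intro hg
    unfold Good at hg
    simp only [Bool.not_false] at h3
    linarith only [hc', h2, h6, hg, h3]
  · intro hg
    unfold Good at hg
    simp only [Bool.not_false] at h3
    linarith only [hc, h1, h5, hg, h3]

/-- Continuity: small scales stay bad near a density where they are bad. -/
theorem bad_near {δ : ℝ} {p₀ : I} {r : Bool} (hbad : ∀ m : ℕ, 1 ≤ m → ¬ Good δ p₀ r m) (m₀ : ℕ) :
    ∀ᶠ p : I in 𝓝 p₀, ∀ m : ℕ, 1 ≤ m → m < m₀ → ¬ Good δ p r m := by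
  induction m₀ with
  | zero => exact Eventually.of_forall fun p m _ hm => absurd hm (by omega)
  | succ k ih =>
    by_cases hk : 1 ≤ k
    · have h1 : PT p₀ r {η | HC η 0 (4 * k) 0 (4 * k)} < 1 - δ := by
        have := hbad k hk
        unfold Good at this
        linarith
      have h2 := (PT_continuous (localOn_HC 0 (4 * (k : ℤ)) 0 (4 * (k : ℤ))) r).continuousAt
        (x := p₀)
      have h3 := h2.eventually_lt_const h1
      filter_upwards [ih, h3] with p hp1 hp2 m hm hmk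
      rcases Nat.lt_succ_iff_lt_or_eq.1 hmk with h | h
      · exact hp1 m hm h
      · subst h
        unfold Good
        linarith only [hp2]
    · filter_upwards [ih] with p hp m hm hmk
      exact hp m hm (by omega)

/-- The characteristic length of the colour `r`. -/
noncomputable def Len (δ : ℝ) (p : I) (r : Bool) : ℕ := sInf {m : ℕ | 1 ≤ m ∧ Good δ p r m}

theorem Len_spec {δ : ℝ} {p : I} {r : Bool} (h : ∃ m : ℕ, 1 ≤ m ∧ Good δ p r m) :
    1 ≤ Len δ p r ∧ Good δ p r (Len δ p r) := Nat.sInf_mem h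

theorem not_good_of_lt {δ : ℝ} {p : I} {r : Bool} {m : ℕ} (hm : 1 ≤ m) (h : m < Len δ p r) :
    ¬ Good δ p r m := fun hg => Nat.notMem_of_lt_sInf h ⟨hm, hg⟩

theorem le_Len {δ : ℝ} {p : I} {r : Bool} {m₀ : ℕ} (h : ∃ m : ℕ, 1 ≤ m ∧ Good δ p r m)
    (hb : ∀ m : ℕ, 1 ≤ m → m < m₀ → ¬ Good δ p r m) : m₀ ≤ Len δ p r := by
  by_contra hlt
  push Not at hlt
  exact hb _ (Len_spec h).1 hlt (Len_spec h).2

end Pool.Agent.H13.SK

end

section

/-!
# The characteristic lengths on the two sides of the critical density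

`NC a4 Wp Reg` collects the results of near-critical percolation on the torus which are used:
`a4` is the four-arm probability, `Wp` the winding probability and `Reg` the box-crossing regime.
-/

set_option autoImplicit false

open MeasureTheory ProbabilityTheory unitInterval Filter Topology

namespace Pool.Agent.H13.SK

open Pool.Agent.H89.Perc Pool.Agent.H83.Site

/-- Interface. -/
structure NC (a4 : I → ℕ → ℝ) (Wp : I → ℕ → ℝ) (Reg : ℝ → ℕ → I → Prop) : Prop where
  dict : ∀ c > (0 : ℝ), ∃ c' > (0 : ℝ), ∀ (n : ℕ) (q : I), RegT 8 c n q → Reg c' n q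
  up : ∀ c > (0 : ℝ), ∃ C > (0 : ℝ), ∀ (N : ℕ) (q₀ q₁ q : I), 64 ≤ N → q₀ ≤ q → q ≤ q₁ →
    (∀ q' : I, q₀ ≤ q' → q' ≤ q₁ → Reg c N q') →
      ((q₁ : ℝ) - q₀) * ((N : ℝ) ^ 2 * a4 q (N / 64)) ≤ C
  lo : ∀ c > (0 : ℝ), ∃ C > (0 : ℝ), ∀ (N r : ℕ) (q₀ q₁ q : I), 64 ≤ N → 1 ≤ r →
    2 * r + 2 ≤ N → q₀ ≤ q → q ≤ q₁ → (∀ q' : I, q₀ ≤ q' → q' ≤ q₁ → Reg c N q') →
      Wp q₁ N - Wp q₀ N ≤ C * (((q₁ : ℝ) - q₀) * ((N : ℝ) ^ 2 * a4 q r))
  low : ∀ c > (0 : ℝ), ∃ C > (0 : ℝ), ∃ δ₀ > (0 : ℝ), δ₀ ≤ 1 ∧ ∀ (m n : ℕ) (q : I), 1 ≤ m →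
    m ≤ n → Reg c (64 * n) q → a4 q m ≤ C * ((n : ℝ) / m) ^ (2 - δ₀) * a4 q n
  high : ∀ c > (0 : ℝ), ∃ C > (0 : ℝ), ∃ δ₀ > (0 : ℝ), δ₀ ≤ 1 ∧ ∀ (m n : ℕ) (q : I), 1 ≤ m →
    m ≤ n → Reg c (64 * n) q → a4 q n ≤ C * ((m : ℝ) / n) ^ (1 + δ₀) * a4 q m
  nonneg : ∀ (q : I) (r : ℕ), 0 ≤ a4 q r
  anti : ∀ (q : I) (r r' : ℕ), 1 ≤ r → r ≤ r' → a4 q r' ≤ a4 q r
  pos : 0 < a4 pc 1
  gap : ∃ δ > (0 : ℝ), ∃ c > (0 : ℝ),
    (∀ p : I, pc ≤ p → ∀ m : ℕ, 1 ≤ m → Good δ p false m →
      c ≤ Wp p (14 * m) - Wp pc (14 * m)) ∧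
    (∀ p : I, p ≤ pc → ∀ m : ℕ, 1 ≤ m → Good δ (σ p) true m →
      c ≤ Wp pc (14 * m) - Wp p (14 * m))

variable {a4 : I → ℕ → ℝ} {Wp : I → ℕ → ℝ} {Reg : ℝ → ℕ → I → Prop}

/-- The critical density is in the regime at all scales. -/
theorem NC.reg_pc (H : NC a4 Wp Reg) : ∃ c > (0 : ℝ), ∀ n : ℕ, Reg c n pc := by
  obtain ⟨c, hc, h1⟩ := bxp_pc.1 8
  obtain ⟨c', hc', h2⟩ := bxp_pc.2 8
  obtain ⟨c'', hc'', h3⟩ := H.dict (min c c') (lt_min hc hc')
  exact ⟨c'', hc'', fun n => h3 n pc fun m hm _ =>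
    ⟨(min_le_left _ _).trans (h1 m hm), (min_le_right _ _).trans (h2 m hm)⟩⟩

/-- Growth of `n ^ 2 a4(n)` at the critical density. -/
theorem NC.growth1 (H : NC a4 Wp Reg) :
    ∃ c₀ > (0 : ℝ), ∃ δ₀ > (0 : ℝ), δ₀ ≤ 1 ∧ Grow c₀ δ₀ 1 (a4 pc) := by
  obtain ⟨c, hc, hreg⟩ := H.reg_pc
  obtain ⟨C, hC, δ₀, hδ₀, hδ₁, hg⟩ := H.low c hc
  refine ⟨1 / C, by positivity, δ₀, hδ₀, hδ₁, fun m n hm hmn => ?_⟩
  have hm0 : (0 : ℝ) < m := by exact_mod_cast (by omega : 0 < m)
  have hn0 : (0 : ℝ) < n := by exact_mod_cast (by omega : 0 < n)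
  have h1 := hg m n pc hm (by omega) (hreg _)
  have h2 : ((m : ℝ) / n) ^ (2 - δ₀) * ((n : ℝ) / m) ^ (2 - δ₀) = 1 := by
    rw [← Real.mul_rpow (by positivity) (by positivity)]
    have : (m : ℝ) / n * (n / m) = 1 := by field_simp
    rw [this, Real.one_rpow]
  have h3 : 0 ≤ 1 / C * ((m : ℝ) / n) ^ (2 - δ₀) := by positivity
  calc 1 / C * ((m : ℝ) / n) ^ (2 - δ₀) * a4 pc m
      ≤ 1 / C * ((m : ℝ) / n) ^ (2 - δ₀) * (C * ((n : ℝ) / m) ^ (2 - δ₀) * a4 pc n) :=
        mul_le_mul_of_nonneg_left h1 h3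
    _ = (1 / C * C) * (((m : ℝ) / n) ^ (2 - δ₀) * ((n : ℝ) / m) ^ (2 - δ₀)) * a4 pc n := by ring
    _ = a4 pc n := by rw [h2, one_div_mul_cancel hC.ne', one_mul, one_mul]

/-- Growth of `n ^ 2 a4(n)` at the critical density. -/
theorem NC.growth (H : NC a4 Wp Reg) : ∃ c₀ > (0 : ℝ), ∃ δ₀ > (0 : ℝ), Grow c₀ δ₀ 64 (a4 pc) := by
  obtain ⟨c₀, hc₀, δ₀, hδ₀, -, hG⟩ := H.growth1
  exact ⟨c₀, hc₀, δ₀, hδ₀, fun m n hm hmn => hG m n hm (by omega)⟩

/-- `n ^ 2 a4(n)` is unbounded. -/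
theorem NC.unbounded (H : NC a4 Wp Reg) (B : ℝ) :
    ∃ n : ℕ, 1 ≤ n ∧ B < (n : ℝ) ^ 2 * a4 pc n := by
  obtain ⟨c₀, hc₀, δ₀, hδ₀, hG⟩ := H.growth
  have h6 : Tendsto (fun r : ℕ => (r : ℝ) ^ δ₀) atTop atTop :=
    (tendsto_rpow_atTop hδ₀).comp tendsto_natCast_atTop_atTop
  obtain ⟨r, hr1, hr2⟩ := ((h6.eventually_gt_atTop (B / (c₀ * a4 pc 1))).and
    (eventually_ge_atTop 64)).exists
  have hp := H.pos
  refine ⟨r, by omega, ?_⟩
  have h1 := grow_sq hG (m := 1) (n := r) le_rfl (by omega) (by omega)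
  rw [div_lt_iff₀ (by positivity)] at hr1
  refine lt_of_lt_of_le hr1 (le_trans (le_of_eq ?_) h1)
  push_cast
  rw [div_one]
  ring

/-- Above the critical density there are good scales. -/
theorem NC.exists_good_plus (H : NC a4 Wp Reg) {δ : ℝ} (hδ : 0 < δ) {p : I} (hp : pc < p) :
    ∃ m : ℕ, 1 ≤ m ∧ Good δ p false m := by
  by_contra hno
  push Not at hno
  obtain ⟨c, hc, hr⟩ := reg_plus δ hδ 8 64
  obtain ⟨c', hc', hd⟩ := H.dict c hc
  obtain ⟨C, hC, hC'⟩ := H.up c' hc'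
  have hx : 0 < (p : ℝ) - pc := sub_pos.2 hp
  obtain ⟨n, hn, hB⟩ := H.unbounded (C / ((p : ℝ) - pc))
  have h1 := hC' (64 * n) pc p pc (by omega) le_rfl hp.le fun q h2 h3 =>
    hd _ q ((hr p (n + 2) (by omega) (fun m hm _ => hno m hm) q h2 h3).anti (by omega))
  rw [Nat.mul_div_cancel_left n (by norm_num)] at h1
  rw [div_lt_iff₀ hx] at hB
  have h2 : 0 ≤ (n : ℝ) ^ 2 * a4 pc n := mul_nonneg (by positivity) (H.nonneg _ _)
  push_cast at h1
  nlinarith only [hC, hB, h1]

/-- Below the critical density the closed colour has good scales. -/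
theorem NC.exists_good_minus (H : NC a4 Wp Reg) {δ : ℝ} (hδ : 0 < δ) {p : I} (hp : p < pc) :
    ∃ m : ℕ, 1 ≤ m ∧ Good δ (σ p) true m := by
  by_contra hno
  push Not at hno
  obtain ⟨c, hc, hr⟩ := reg_minus δ hδ 8 64
  obtain ⟨c', hc', hd⟩ := H.dict c hc
  obtain ⟨C, hC, hC'⟩ := H.up c' hc'
  have hx : 0 < (pc : ℝ) - p := sub_pos.2 hp
  obtain ⟨n, hn, hB⟩ := H.unbounded (C / ((pc : ℝ) - p))
  have h1 := hC' (64 * n) p pc pc (by omega) hp.le le_rfl fun q h2 h3 =>
    hd _ q ((hr p (n + 2) (by omega) (fun m hm _ => hno m hm) q h2 h3).anti (by omega))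
  rw [Nat.mul_div_cancel_left n (by norm_num)] at h1
  rw [div_lt_iff₀ hx] at hB
  have h2 : 0 ≤ (n : ℝ) ^ 2 * a4 pc n := mul_nonneg (by positivity) (H.nonneg _ _)
  push_cast at h1
  nlinarith only [hC, hB, h1]

/-- The scale relation above the critical density. -/
theorem NC.scale_plus (H : NC a4 Wp Reg) : ∃ δ₁ > (0 : ℝ), ∀ δ : ℝ, 0 < δ → δ ≤ δ₁ →
    ∃ c > (0 : ℝ), ∃ C > (0 : ℝ), ∀ p : I, pc < p → 5 ≤ Len δ p false →
      c ≤ ((p : ℝ) - pc) * ((Len δ p false : ℝ) ^ 2 * a4 pc (Len δ p false)) ∧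
      ((p : ℝ) - pc) * ((Len δ p false : ℝ) ^ 2 * a4 pc (Len δ p false)) ≤ C := by
  obtain ⟨δ₁, hδ₁, cg, hcg, hgap, -⟩ := H.gap
  refine ⟨δ₁, hδ₁, fun δ hδ hδ' => ?_⟩
  obtain ⟨c, hc, hr⟩ := reg_plus δ hδ 8 64
  obtain ⟨c', hc', hd⟩ := H.dict c hc
  obtain ⟨C, hC, hup⟩ := H.up c' hc'
  obtain ⟨C', hC', hlo⟩ := H.lo c' hc'
  refine ⟨cg / (196 * C'), by positivity, C, hC, fun p hp hL => ?_⟩
  have hex := H.exists_good_plus hδ hp
  have hsp := Len_spec hex
  obtain ⟨L, hLe⟩ : ∃ L : ℕ, L = Len δ p false := ⟨_, rfl⟩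
  have hbad : ∀ m : ℕ, 1 ≤ m → m < L → ¬ Good δ p false m := fun m hm h =>
    not_good_of_lt hm (by rw [← hLe]; exact h)
  rw [← hLe] at hL hsp ⊢
  have hx : 0 < (p : ℝ) - pc := sub_pos.2 hp
  have hreg : ∀ q : I, pc ≤ q → q ≤ p → RegT 8 c (64 * L) q := hr p L (by omega) hbad
  constructor
  · have h1 := hlo (14 * L) (6 * L) pc p pc (by omega) (by omega) (by omega) le_rfl hp.le
      fun q h2 h3 => hd _ q ((hreg q h2 h3).anti (by omega))
    have h2 := hgap p hp.le L hsp.1 (hsp.2.mono hδ')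
    have h3 := H.anti pc L (6 * L) hsp.1 (by omega)
    rw [div_le_iff₀ (by positivity)]
    calc cg ≤ C' * (((p : ℝ) - pc) * ((14 * L : ℕ) ^ 2 * a4 pc (6 * L))) := h2.trans h1
      _ ≤ C' * (((p : ℝ) - pc) * ((14 * L : ℕ) ^ 2 * a4 pc L)) := by gcongr
      _ = _ := by push_cast; ring
  · have h1 := hup (64 * L) pc p pc (by omega) le_rfl hp.le fun q h2 h3 => hd _ q (hreg q h2 h3)
    rw [Nat.mul_div_cancel_left L (by norm_num)] at h1
    have h2 : 0 ≤ (L : ℝ) ^ 2 * a4 pc L := mul_nonneg (by positivity) (H.nonneg _ _)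
    push_cast at h1
    nlinarith only [hC, h1, mul_nonneg hx.le h2]

/-- The scale relation below the critical density. -/
theorem NC.scale_minus (H : NC a4 Wp Reg) : ∃ δ₁ > (0 : ℝ), ∀ δ : ℝ, 0 < δ → δ ≤ δ₁ →
    ∃ c > (0 : ℝ), ∃ C > (0 : ℝ), ∀ p : I, p < pc → 5 ≤ Len δ (σ p) true →
      c ≤ ((pc : ℝ) - p) * ((Len δ (σ p) true : ℝ) ^ 2 * a4 pc (Len δ (σ p) true)) ∧
      ((pc : ℝ) - p) * ((Len δ (σ p) true : ℝ) ^ 2 * a4 pc (Len δ (σ p) true)) ≤ C := by
  obtain ⟨δ₁, hδ₁, cg, hcg, -, hgap⟩ := H.gap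
  refine ⟨δ₁, hδ₁, fun δ hδ hδ' => ?_⟩
  obtain ⟨c, hc, hr⟩ := reg_minus δ hδ 8 64
  obtain ⟨c', hc', hd⟩ := H.dict c hc
  obtain ⟨C, hC, hup⟩ := H.up c' hc'
  obtain ⟨C', hC', hlo⟩ := H.lo c' hc'
  refine ⟨cg / (196 * C'), by positivity, C, hC, fun p hp hL => ?_⟩
  have hex := H.exists_good_minus hδ hp
  have hsp := Len_spec hex
  obtain ⟨L, hLe⟩ : ∃ L : ℕ, L = Len δ (σ p) true := ⟨_, rfl⟩
  have hbad : ∀ m : ℕ, 1 ≤ m → m < L → ¬ Good δ (σ p) true m := fun m hm h =>
    not_good_of_lt hm (by rw [← hLe]; exact h)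
  rw [← hLe] at hL hsp ⊢
  have hx : 0 < (pc : ℝ) - p := sub_pos.2 hp
  have hreg : ∀ q : I, p ≤ q → q ≤ pc → RegT 8 c (64 * L) q := hr p L (by omega) hbad
  constructor
  · have h1 := hlo (14 * L) (6 * L) p pc pc (by omega) (by omega) (by omega) hp.le le_rfl
      fun q h2 h3 => hd _ q ((hreg q h2 h3).anti (by omega))
    have h2 := hgap p hp.le L hsp.1 (hsp.2.mono hδ')
    have h3 := H.anti pc L (6 * L) hsp.1 (by omega)
    rw [div_le_iff₀ (by positivity)]
    calc cg ≤ C' * (((pc : ℝ) - p) * ((14 * L : ℕ) ^ 2 * a4 pc (6 * L))) := h2.trans h1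
      _ ≤ C' * (((pc : ℝ) - p) * ((14 * L : ℕ) ^ 2 * a4 pc L)) := by gcongr
      _ = _ := by push_cast; ring
  · have h1 := hup (64 * L) p pc pc (by omega) hp.le le_rfl fun q h2 h3 => hd _ q (hreg q h2 h3)
    rw [Nat.mul_div_cancel_left L (by norm_num)] at h1
    have h2 : 0 ≤ (L : ℝ) ^ 2 * a4 pc L := mul_nonneg (by positivity) (H.nonneg _ _)
    push_cast at h1
    nlinarith only [hC, h1, mul_nonneg hx.le h2]

end Pool.Agent.H13.SK

end

section

/-!
# The connection of the neighbours of a site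
-/

set_option autoImplicit false

open MeasureTheory ProbabilityTheory unitInterval Filter Topology

namespace Pool.Agent.H92.SN

open Pool.Agent.H89.Perc
open Pool.Agent.H61.NC (modE PrR' hasDerivAt_PrR_eq)
open Pool.Agent.H83.SK (sv sit)

end Pool.Agent.H92.SN

end

section

/-!
# The number of open clusters
-/

set_option autoImplicit false

open MeasureTheory ProbabilityTheory unitInterval

namespace Pool.Agent.H92.SN

open Pool.Agent.H89.Perc
open Pool.Agent.H83.SK (sv sit)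

end Pool.Agent.H92.SN

end

section

/-!
# Exploration of the clusters of the cutting lines of the torus, block by block (sites)
-/

open MeasureTheory ProbabilityTheory unitInterval

namespace Pool.Agent.H13.SK

open Pool.Agent.H89.Perc Pool.Agent.H85.Kes
open Pool.Agent.H83.SK (sit sv sit_true)
open Pool.Agent.H92.SN (tSites WindS)

section state

variable {κ : Type*} [DecidableEq κ]

end state

/-! ### The clusters of the cutting lines -/

/-! ### The rule -/

section rule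

variable {κ : Type*} [DecidableEq κ]

end rule

end Pool.Agent.H13.SK

end

section

/-!
# Pivotal blocks of the torus (sites): translations, two distinct crossing clusters
-/

open MeasureTheory ProbabilityTheory unitInterval

namespace Pool.Agent.H13.SK

open Pool.Agent.H89.Perc Pool.Agent.H85.Kes
open Pool.Agent.H83.SK (sit sv)
open Pool.Agent.H92.SN (tSites WindS blkS BlockPiv)
open Pool.Agent.H61.NC (Two Ring mid)

/-! ### Translations -/

/-! ### A pivotal block has two distinct crossing clusters around it -/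

end Pool.Agent.H13.SK

end

section

/-!
# Opening a closed site of a periodic configuration
-/

set_option autoImplicit false

open MeasureTheory ProbabilityTheory unitInterval

namespace Pool.Agent.H92.SN

open Pool.Agent.H89.Perc
open Pool.Agent.H61.NC (modE)
open Pool.Agent.H83.SK (sv sit)

end Pool.Agent.H92.SN

end

section

/-!
# A pivotal site for the winding event has four arms
-/

set_option autoImplicit false

open MeasureTheory ProbabilityTheory unitInterval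

namespace Pool.Agent.H92.SN

open Pool.Agent.H89.Perc
open Pool.Agent.H83.SK (sv sit)

end Pool.Agent.H92.SN

end

section

/-!
# Pairs of sites of the torus
-/

set_option autoImplicit false

open MeasureTheory ProbabilityTheory unitInterval

namespace Pool.Agent.H92.SN

open Pool.Agent.H89.Perc
open Pool.Agent.H61.NC (fill mid upd Joint PrR' Joint_piv localOn_upd modE)
open Pool.Agent.H83.SK (sv sit)

end Pool.Agent.H92.SN

end

section

/-!
# The sum over pairs of sites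
-/

set_option autoImplicit false

open MeasureTheory ProbabilityTheory unitInterval

namespace Pool.Agent.H92.SN

open Pool.Agent.H89.Perc
open Pool.Agent.H61.NC (fill mid upd Joint PrR')
open Pool.Agent.H83.SK (sv sit)

end Pool.Agent.H92.SN

end

section

/-!
# Near-critical stability of the influences
-/

set_option autoImplicit false

open MeasureTheory ProbabilityTheory unitInterval

namespace Pool.Agent.H92.SN

open Pool.Agent.H89.Perc
open Pool.Agent.H61.NC (fill mid upd Joint PrR' PrR'_eq hasDerivAt_PrR_eq hasDerivAt_PrR' abs_second_le)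
open Pool.Agent.H83.SK (sv sit)

end Pool.Agent.H92.SN

end

section

/-!
# Scaling relations for the four-arm probability
-/

set_option autoImplicit false

open MeasureTheory ProbabilityTheory unitInterval

namespace Pool.Agent.H92.SN

open Pool.Agent.H89.Perc
open Pool.Agent.H61.NC (fill mid upd Joint PrR')
open Pool.Agent.H83.SK (sv sit)

end Pool.Agent.H92.SN

end

section

/-!
# Uniform decay of the four-arm probability
-/

set_option autoImplicit false

open MeasureTheory ProbabilityTheory unitInterval Filter Topology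

namespace Pool.Agent.H92.SN

open Pool.Agent.H89.Perc
open Pool.Agent.H29.Sep (Circ eCirc circ_ring ann)
open Pool.Agent.H83.SK (sv sit)

end Pool.Agent.H92.SN

end

section

/-!
# Pivotal sites of the connection event on the torus
-/

set_option autoImplicit false

open MeasureTheory ProbabilityTheory unitInterval

namespace Pool.Agent.H92.SN

open Pool.Agent.H89.Perc
open Pool.Agent.H61.NC (modE mid)
open Pool.Agent.H83.SK (sv sit)

/-! ### Events of annuli -/

/-! ### Pivotal sites -/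

end Pool.Agent.H92.SN

end

section

/-!
# Probabilities of the corridor event and of the seals; locality
-/

set_option autoImplicit false

open MeasureTheory ProbabilityTheory unitInterval

namespace Pool.Agent.H83.PST

open Pool.Agent.H89.Perc
open Pool.Agent.H61.NC (modE)
open Pool.Agent.H83.SK (sv sit sit_true RSWreg)
open Pool.Agent.H59.EX (LocS inE touch clus closeS Side T Mouth Fence dom pb grid)
open Pool.Agent.H26.ST (Cor PerInv sh TD Rel1 In)
open Pool.Agent.H92.SN (WindS tSites)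

end Pool.Agent.H83.PST

end

section

/-!
# Lower bounds for the influence of a site of the torus; small tori
-/

set_option autoImplicit false

open MeasureTheory ProbabilityTheory unitInterval

namespace Pool.Agent.H83.PST

open Pool.Agent.H89.Perc
open Pool.Agent.H61.NC (modE ctr mid)
open Pool.Agent.H83.SK (sv sit sit_true RSWreg sT sitT)
open Pool.Agent.H92.SN (WindS tSites cE)

/-! ### Small tori -/

end Pool.Agent.H83.PST

end

section

/-!
# The two forms of the four-arm probability of a site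

`SK.a4` sums over two kinds of pairs of neighbours of the origin, `SN.a4` is the probability of the
union over all pairs.
-/

set_option autoImplicit false

open MeasureTheory ProbabilityTheory unitInterval

namespace Pool.Agent.H38.SKConv

open Pool.Agent.H89.Perc
open Pool.Agent.H59.EX (closeS Four)
open Pool.Agent.H83.SK (s4 star0 IsAut isAut_swap isAut_reflX isAut_reflY sitT blkS)
open Pool.Agent.H92.SN (closeV A4 Nb WindS)
open Pool.Agent.H61.NC (fill blk mid)

variable {q : I} {r : ℕ}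

end Pool.Agent.H38.SKConv

end
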