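import Pool.Agent.H94.BG.H31.PT.M08_2
import Pool.Agent.H94.BG.H31.PT.M11_1
import Pool.Agent.H94.BG.H31.PT.M12
import Pool.Agent.H94.BG.H31.PT.M18_5
import Pool.Agent.H94.BG.M20
import Pool.Agent.H94.BG.M23

/-! The parts of this file: H13.SK.SigmaTr, H13.SK.SigmaMono, H13.SK.Regime, H13.SK.LenOne, H92.SN.Tau, H92.SN.KCnt, H13.SK.TBlock, H13.SK.TTwo, H92.SN.Ret, H92.SN.Det, H92.SN.Pair, H92.SN.Sum, H92.SN.Main, H92.SN.Fin, H92.SN.Unif, H92.SN.Piv, H83.SK.PST.Prob, H83.SK.PST.Piv, H38.SK.Conv. -/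

section

/-!
# The mean cluster size as a sum of the two-point function
-/

set_option autoImplicit false

open MeasureTheory ProbabilityTheory unitInterval
open scoped ENNReal

namespace Pool.Agent.H13.SK

open Pool.Agent.H89.Perc Pool.Agent.H83.Site

end Pool.Agent.H13.SK

end

section

/-!
# The mean cluster size is nondecreasing in the density
-/

set_option autoImplicit false

open MeasureTheory ProbabilityTheory unitInterval
open scoped ENNReal

namespace Pool.Agent.H13.SK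

open Pool.Agent.H89.Perc Pool.Agent.H83.Site

end Pool.Agent.H13.SK

end

section

/-!
# The box-crossing regime of site percolation and the characteristic length
-/

set_option autoImplicit false

open MeasureTheory ProbabilityTheory unitInterval Filter Topology

namespace Pool.Agent.H13.SK

open Pool.Agent.H89.Perc Pool.Agent.H83.Site

end Pool.Agent.H13.SK

end

section

/-!
# The characteristic lengths on the two sides of the critical density

`NC a4 Wp Reg` collects the results of near-critical percolation on the torus which are used: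
`a4` is the four-arm probability, `Wp` the winding probability and `Reg` the box-crossing regime.
-/

set_option autoImplicit false

open MeasureTheory ProbabilityTheory unitInterval Filter Topology

namespace Pool.Agent.H13.SK

open Pool.Agent.H89.Perc Pool.Agent.H83.Site

end Pool.Agent.H13.SK

end

section

/-!
# The connection of the neighbours of a site
-/

set_option autoImplicit false

open MeasureTheory ProbabilityTheory unitInterval Filter Topology

namespace Pool.Agent.H92.SN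

open Pool.Agent.H89.Perc
open Pool.Agent.H61.NC (modE PrR' hasDerivAt_PrR_eq)
open Pool.Agent.H83.SK (sv sit)

theorem Dn_sub (v : Vert) {r : ℕ} (hr : 1 ≤ r) (i : ℕ) :
    Dn Set.univ v i ⊆ Dn (ball v r) v i ∪ A4 v r := by
  rintro ω ⟨j, hj, hc⟩
  by_cases h0 : Conn (closeV v ω) (ball v r) (nb v j) (nb v i)
  · exact Or.inl ⟨j, hj, h0⟩
  · exact Or.inr ⟨nb v j, nb v i, nb_Nb v j, nb_Nb v i,
      reach_sphere hc ((nb_Nb v j).mem_ball hr) h0,
      reach_sphere hc.symm ((nb_Nb v i).mem_ball hr) fun h => h0 h.symm, h0⟩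

/-- Comparison with the finite volume. -/
theorem tl_near (q : I) {r : ℕ} (hr : 1 ≤ r) (i : ℕ) :
    Pool.Agent.H83.SK.Pr q (Dn Set.univ 0 i) ≤ tl i r q + a4 q r := by
  rw [← Pr_A4 q 0 r]
  exact (Pool.Agent.H83.SK.Pr_mono (Dn_sub 0 hr i)).trans Pool.Agent.H83.SK.Pr_union_le

end Pool.Agent.H92.SN

end

section

/-!
# The number of open clusters
-/

set_option autoImplicit false

open MeasureTheory ProbabilityTheory unitInterval

namespace Pool.Agent.H92.SN

open Pool.Agent.H89.Perc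
open Pool.Agent.H83.SK (sv sit)

end Pool.Agent.H92.SN

end

section

/-!
# Exploration of the clusters of the cutting lines of the torus, block by block (sites)
-/

open MeasureTheory ProbabilityTheory unitInterval

namespace Pool.Agent.H13.SK

open Pool.Agent.H89.Perc Pool.Agent.H85.Kes
open Pool.Agent.H83.SK (sit sv sit_true)
open Pool.Agent.H92.SN (tSites WindS)
open Pool.Agent.H83.SK.WG (mem_tSites localOn_windS incr_windS)

section state

variable {κ : Type*} [DecidableEq κ]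

end state

/-! ### The clusters of the cutting lines -/

theorem sit_joins {ω : Config} {e : Edge} {u v : Vert} (h : Joins e u v) :
    sit ω e = true ↔ ω (sv u) = true ∧ ω (sv v) = true :=
  Pool.Agent.H83.SK.Dict.sit_joins h

theorem sit_per_conn_shift {N : ℕ} {ω : Config} (a b : ℤ) {u v : Vert}
    (h : Conn (sit (per N ω)) Set.univ u v) :
    Conn (sit (per N ω)) Set.univ (u.1 + a * N, u.2 + b * N) (v.1 + a * N, v.2 + b * N) := by
  refine h.map (fun w => (w.1 + a * N, w.2 + b * N)) (fun _ _ => Set.mem_univ _) ?_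
  intro e x y hj ho
  refine ⟨shiftE (a * N, b * N) e, joins_shift (a * N, b * N) hj, ?_⟩
  rw [sit_joins hj] at ho
  rw [sit_joins (joins_shift (a * N, b * N) hj)]
  simp only [per, sv, Int.add_mul_emod_self_right] at ho ⊢
  exact ho

theorem rch_shift {N : ℕ} {ω : Config} (a b : ℤ) {v : Vert} (h : v ∈ Rch N ω) :
    ((v.1 + a * N, v.2 + b * N) : Vert) ∈ Rch N ω := by
  obtain ⟨u, hu, hc⟩ := h
  refine ⟨_, ?_, sit_per_conn_shift a b hc⟩
  rcases hu with hu | hu
  · exact Or.inl (dvd_add hu (Dvd.intro_left a rfl))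
  · exact Or.inr (dvd_add hu (Dvd.intro_left b rfl))

/-- A site which is reached, or next to a reached one, is wanted (after translation). -/
theorem want_of_near {N : ℕ} (hN : 1 ≤ N) {ω : Config} {y v : Vert} (hy : y ∈ Rch N ω)
    (h : y = v ∨ ∃ f, Joins f y v) : Want N ω (v.1 % N, v.2 % N, false) := by
  have hN0 : (0 : ℤ) < N := by exact_mod_cast hN
  refine ⟨?_, (y.1 + -(v.1 / N) * N, y.2 + -(v.2 / N) * N), rch_shift _ _ hy, ?_⟩
  · rw [mem_tSites]
    exact ⟨rfl, Int.emod_nonneg _ hN0.ne', Int.emod_lt_of_pos _ hN0,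
      Int.emod_nonneg _ hN0.ne', Int.emod_lt_of_pos _ hN0⟩
  · have hs : src ((v.1 % N, v.2 % N, false) : Edge) =
        ((v.1 + -(v.1 / N) * N, v.2 + -(v.2 / N) * N) : Vert) := by
      simp only [src, emod_eq]
    rw [hs]
    rcases h with h | ⟨f, hf⟩
    · left
      rw [h]
    · right
      exact ⟨_, joins_shift (-(v.1 / N) * N, -(v.2 / N) * N) hf⟩

/-- A winding path can be rotated so that it starts on a cutting line. -/
theorem wind_from_line {N : ℕ} (hN : 1 ≤ N) {ω : Config} (h : ω ∈ WindS N) :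
    ∃ (x : Vert) (a b : ℤ), a ≠ 0 ∧ OnL N x ∧
      Conn (sit (per N ω)) Set.univ x (x.1 + a * N, x.2 + b * N) := by
  obtain ⟨u, a, b, ha, hc⟩ := h
  have hN0 : (0 : ℤ) < N := by exact_mod_cast hN
  have key : ∃ x : Vert, (N : ℤ) ∣ x.1 ∧ Conn (sit (per N ω)) Set.univ u x ∧
      Conn (sit (per N ω)) Set.univ x (u.1 + a * N, u.2 + b * N) := by
    rcases lt_or_gt_of_ne ha with h1 | h1
    · obtain ⟨x, h2, h3, h4⟩ := hit_line hN hc.symm (by simp only; nlinarith only [h1])
      exact ⟨x, h2, h4.symm, h3.symm⟩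
    · exact hit_line hN hc (by simp only; nlinarith only [h1])
  obtain ⟨x, h1, h2, h3⟩ := key
  exact ⟨x, a, b, ha, Or.inl h1, h3.trans (sit_per_conn_shift a b h2)⟩

/-- If `ω₀` knows all open sites of `ω` it wants, then it knows the winding. -/
theorem wind_of_wanted {N : ℕ} (hN : 1 ≤ N) {ω ω₀ : Config}
    (hcl : ∀ e, Want N ω₀ e → ω e = true → ω₀ e = true) (h : ω ∈ WindS N) : ω₀ ∈ WindS N := by
  obtain ⟨x, a, b, ha, hx, hc⟩ := wind_from_line hN h
  refine ⟨x, a, b, ha, ?_⟩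
  refine hc.induction_right (P := fun y => Conn (sit (per N ω₀)) Set.univ x y)
    (Conn.refl (Set.mem_univ _)) ?_
  rintro y y' - ⟨-, -, e, he, ho⟩ ih
  have hy : y ∈ Rch N ω₀ := ⟨x, hx, ih⟩
  rw [sit_joins he] at ho
  refine ih.tail ⟨Set.mem_univ _, Set.mem_univ _, e, he, ?_⟩
  rw [sit_joins he]
  exact ⟨hcl _ (want_of_near hN hy (Or.inl rfl)) ho.1, hcl _ (want_of_near hN hy (Or.inr ⟨e, he⟩)) ho.2⟩

/-! ### The rule -/

section rule

variable {κ : Type*} [DecidableEq κ]

variable {N : ℕ} {β : Edge → κ}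

/-- The revealed blocks determine the winding. -/
theorem tRule_det (hN : 1 ≤ N) {K : Finset κ} (hK : ∀ e ∈ tSites N, β e ∈ K) (ω ω' : Config)
    (h : ∀ e ∈ tSites N, β e ∈ revealed (tSites N) β (tRule N β) ω K.card → ω e = ω' e)
    (hω : ω ∈ WindS N) : ω' ∈ WindS N := by
  have hfin := bState_final (s := tSites N) (β := β) (tRule_mem hK) ω
  have h1 : ofS (bState (tSites N) β (tRule N β) ω K.card).2 ∈ WindS N := by
    refine wind_of_wanted hN (fun e he ho => ?_) hω
    rw [ofS_apply, decide_eq_true_iff, mem_bState]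
    exact ⟨he.1, tRule_none hfin he, ho⟩
  refine incr_windS N _ _ (fun e he => ?_) h1
  rw [ofS_apply, decide_eq_true_iff, mem_bState] at he
  rw [← h e he.1 he.2.1]
  exact he.2.2

end rule

end Pool.Agent.H13.SK

end

section

/-!
# Pivotal blocks of the torus (sites): translations, two distinct crossing clusters
-/

open MeasureTheory ProbabilityTheory unitInterval

namespace Pool.Agent.H13.SK

open Pool.Agent.H89.Perc Pool.Agent.H85.Kes
open Pool.Agent.H83.SK (sit sv)
open Pool.Agent.H92.SN (tSites WindS blkS BlockPiv)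
open Pool.Agent.H83.SK.WG (mem_tSites localOn_windS incr_windS)
open Pool.Agent.H61.NC (Two Ring mid)

/-! ### Translations -/

theorem tSites_subset (N : ℕ) : tSites N ⊆ tEdges N := by
  intro e he
  rw [mem_tSites] at he
  rw [Pool.Agent.H31.EX.mem_tEdges]
  exact ⟨he.2.1 |> fun h => ⟨h, he.2.2.1⟩, he.2.2.2⟩

theorem zB_subset {N r : ℕ} {z : Vert} (h1 : (r : ℤ) ≤ z.1 ∧ z.1 + r < N)
    (h2 : (r : ℤ) ≤ z.2 ∧ z.2 + r < N) : zB z r ⊆ tSites N := by
  intro e he
  rw [mem_zB] at he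
  rw [mem_tSites]
  obtain ⟨h3, h4, h5⟩ := he
  refine ⟨h3, ?_⟩
  omega

theorem blkS_subset {N r : ℕ} (hr : 1 ≤ r) (h : 4 * r ≤ N) : blkS N r ⊆ tSites N := by
  rw [← zB_mid]
  refine zB_subset ?_ ?_ <;> simp only [mid] <;> omega

/-! ### A pivotal block has two distinct crossing clusters around it -/

/-- A step of the filled configuration is a step of the emptied one, or it is near a block. -/
theorem tB_step {N R : ℕ} {z : Vert} {ω : Config} {v v' : Vert}
    (h : Step (sit (per N (setB (zB z R) true ω))) Set.univ v v') :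
    Step (sit (per N (setB (zB z R) false ω))) Set.univ v v' ∨
      ∃ a b : ℤ, v ∈ tB N z R a b ∧ v' ∈ tB N z R a b := by
  have e1 := h.fst_le
  have e2 := h.snd_le
  obtain ⟨-, -, e, he, hω⟩ := h
  by_cases hb : ((v.1 % N, v.2 % N, false) : Edge) ∈ zB z R
  · right
    have h1 := tB_of_mem hb
    refine ⟨v.1 / N, v.2 / N, ?_, ?_⟩ <;> simp only [tB, Set.mem_ofPred_eq] <;> omega
  by_cases hb' : ((v'.1 % N, v'.2 % N, false) : Edge) ∈ zB z R
  · right
    have h1 := tB_of_mem hb'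
    refine ⟨v'.1 / N, v'.2 / N, ?_, ?_⟩ <;> simp only [tB, Set.mem_ofPred_eq] <;> omega
  · left
    refine ⟨Set.mem_univ _, Set.mem_univ _, e, he, ?_⟩
    rw [sit_joins he] at hω ⊢
    simp only [per, sv, setB, if_neg hb, if_neg hb'] at hω ⊢
    exact hω

/-- **A pivotal block has two distinct crossing clusters around it.** -/
theorem two_of_bpiv {N R t R' : ℕ} {z : Vert} (hRt : R + 1 ≤ t) (htR : t ≤ R')
    (hN : R + R' + 2 ≤ N) {ω : Config} (h : ω ∈ BPiv (zB z R) (WindS N)) :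
    sit (per N ω) ∈ Two z t R' := by
  obtain ⟨⟨u, a, b, ha, hc⟩, hno⟩ := h
  have hNR : (R : ℤ) + R' + 2 ≤ N := by exact_mod_cast hN
  have hRt' : (R : ℤ) + 1 ≤ t := by exact_mod_cast hRt
  have htR' : (t : ℤ) ≤ R' := by exact_mod_cast htR
  set η0 := sit (per N (setB (zB z R) false ω)) with hη0
  set η1 := sit (per N (setB (zB z R) true ω)) with hη1
  -- an excursion which winds
  have hexc : ∃ v ∈ tB N z R 0 0, ∃ a b : ℤ, ∃ v' ∈ tB N z R a b, a ≠ 0 ∧
      Conn η0 Set.univ v v' := by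
    by_contra hnone
    push Not at hnone
    have hnone' : ∀ (a₁ b₁ a₂ b₂ : ℤ) (v v' : Vert), v ∈ tB N z R a₁ b₁ → v' ∈ tB N z R a₂ b₂ →
        Conn η0 Set.univ v v' → a₁ = a₂ := by
      intro a₁ b₁ a₂ b₂ v v' h1 h2 h3
      have h4 := tB_shift (a' := -a₁) (b' := -b₁) h1
      have h5 := tB_shift (a' := -a₁) (b' := -b₁) h2
      have h6 := sit_per_conn_shift (-a₁) (-b₁) h3
      rw [add_neg_cancel, add_neg_cancel] at h4
      by_contra hne
      exact hnone _ h4 _ _ _ h5 (by intro h; apply hne; linarith only [h]) h6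
    have key : Conn η0 Set.univ u (u.1 + a * N, u.2 + b * N) ∨ ∃ a₁ b₁ b₂ : ℤ,
        ∃ v₁ ∈ tB N z R a₁ b₁, ∃ v₂ ∈ tB N z R a₁ b₂, Conn η0 Set.univ u v₁ ∧
          Conn η0 Set.univ v₂ (u.1 + a * N, u.2 + b * N) := by
      refine hc.induction_right (P := fun w => Conn η0 Set.univ u w ∨ ∃ a₁ b₁ b₂ : ℤ,
        ∃ v₁ ∈ tB N z R a₁ b₁, ∃ v₂ ∈ tB N z R a₁ b₂, Conn η0 Set.univ u v₁ ∧
          Conn η0 Set.univ v₂ w) (Or.inl (Conn.refl (Set.mem_univ _))) ?_
      intro w w' _ hs ih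
      rcases tB_step hs with h1 | ⟨a₂, b₂, h1, h2⟩
      · rcases ih with ih | ⟨a₁, b₁, b₂, v₁, hv₁, v₂, hv₂, h2, h3⟩
        · exact Or.inl (ih.tail h1)
        · exact Or.inr ⟨a₁, b₁, b₂, v₁, hv₁, v₂, hv₂, h2, h3.tail h1⟩
      · rcases ih with ih | ⟨a₁, b₁, b₂', v₁, hv₁, v₂, hv₂, h3, h4⟩
        · exact Or.inr ⟨a₂, b₂, b₂, w, h1, w', h2, ih, Conn.refl (Set.mem_univ _)⟩
        · have := hnone' _ _ _ _ _ _ hv₂ h1 h4
          subst this
          exact Or.inr ⟨a₁, b₁, b₂, v₁, hv₁, w', h2, h3, Conn.refl (Set.mem_univ _)⟩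
    rcases key with h1 | ⟨a₁, b₁, b₂, v₁, hv₁, v₂, hv₂, h1, h2⟩
    · exact hno ⟨u, a, b, ha, h1⟩
    · have h3 := sit_per_conn_shift a b h1
      have h4 := hnone' _ _ _ _ _ _ hv₂ (tB_shift (a' := a) (b' := b) hv₁) (h2.trans h3)
      exact ha (by linarith only [h4])
  obtain ⟨v, hv, a', b', v', hv', ha', hvv⟩ := hexc
  -- geometry
  have habs : (N : ℤ) ≤ |a'| * N := by
    have h1 : (1 : ℤ) ≤ |a'| := Int.one_le_abs ha'
    have h2 : (0 : ℤ) ≤ N := by positivity
    nlinarith only [h1]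
  have hball : ∀ w ∈ tB N z R 0 0, w ∈ ball z t := by
    intro w hw
    simp only [tB, zero_mul, add_zero, Set.mem_ofPred_eq] at hw
    rw [mem_ball]
    omega
  have hfar : ∀ (c : ℤ) (b'' : ℤ), |c| = |a'| → ∀ w ∈ tB N z R c b'', w ∉ ball z R' := by
    intro c b'' hcc w hw hw'
    simp only [tB, Set.mem_ofPred_eq] at hw
    rw [mem_ball] at hw'
    have h1 : |c * (N : ℤ)| = |a'| * N := by
      rw [abs_mul, hcc, abs_of_nonneg (by positivity : (0 : ℤ) ≤ N)]
    rcases abs_cases (c * (N : ℤ)) with h2 | h2 <;> omega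
  have hcongr : ∀ v : Vert, v ∈ Ring z t R' →
      per N ω (sv v) = per N (setB (zB z R) false ω) (sv v) := by
    intro v he
    have ht1 : ((t - 1 : ℕ) : ℤ) = (t : ℤ) - 1 := by
      push_cast [Nat.cast_sub (show 1 ≤ t by omega)]; ring
    have hb : ((v.1 % N, v.2 % N, false) : Edge) ∉ zB z R := by
      intro hb
      have h3 := tB_of_mem hb
      obtain ⟨h1, h2⟩ := he
      simp only [mem_ball, ht1] at h1 h2
      have hz : ∀ k : ℤ, |k * (N : ℤ)| < N → k = 0 := by
        intro k hk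
        by_contra hk0
        have h3 : (1 : ℤ) ≤ |k| := Int.one_le_abs hk0
        rw [abs_mul, abs_of_nonneg (by positivity : (0 : ℤ) ≤ N)] at hk
        nlinarith only [hk, h3]
      have k1 : v.1 / N = 0 := hz _ (abs_lt.2 ⟨by omega, by omega⟩)
      have k2 : v.2 / N = 0 := hz _ (abs_lt.2 ⟨by omega, by omega⟩)
      rw [k1, k2] at h3
      apply h2
      omega
    simp only [per, sv, setB, if_neg hb]
  have hcon : ∀ x y : Vert, Conn (sit (per N ω)) (Ring z t R') x y →
      Conn η0 Set.univ x y := fun x y hxy =>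
    (hxy.congr fun e h1 h2 => by
      rw [hη0]
      simp only [sit]
      rw [hcongr _ h1, hcongr _ h2]).mono_set (Set.subset_univ _)
  have hcon' : ∀ x y : Vert, Conn η0 (Ring z t R') x y →
      Conn (sit (per N ω)) (Ring z t R') x y := fun x y hxy =>
    hxy.congr fun e h1 h2 => by
      rw [hη0]
      simp only [sit]
      rw [hcongr _ h1, hcongr _ h2]
  -- the second cluster is the first one translated
  have hv'' := tB_shift (a' := -a') (b' := -b') hv'
  rw [add_neg_cancel, add_neg_cancel] at hv''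
  have hvm := tB_shift (a' := -a') (b' := -b') hv
  have h2 := sit_per_conn_shift (-a') (-b') hvv
  obtain ⟨x, hx, ⟨w, hw, hxw⟩, hvx⟩ := ring_cross (by omega) htR (hball v hv)
    (hfar a' b' rfl v' hv') hvv
  obtain ⟨x', hx', ⟨w', hw', hxw'⟩, hvx'⟩ := ring_cross (by omega) htR (hball _ hv'')
    (hfar (0 + -a') (0 + -b') (by rw [zero_add, abs_neg]) _ hvm) h2.symm
  refine ⟨x, x', hx, hx', ⟨w, hw, hcon' _ _ hxw⟩, ⟨w', hw', hcon' _ _ hxw'⟩, fun hxx => ?_⟩
  have h3 := (hvx'.trans (hcon _ _ hxx).symm).trans hvx.symm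
  have h4 := h3.trans hvv
  refine hno ⟨(v'.1 + -a' * N, v'.2 + -b' * N), a', b', ha', ?_⟩
  simp only
  rw [show v'.1 + -a' * (N : ℤ) + a' * N = v'.1 by ring,
    show v'.2 + -b' * (N : ℤ) + b' * N = v'.2 by ring]
  exact h4

end Pool.Agent.H13.SK

end

section

/-!
# Opening a closed site of a periodic configuration
-/

set_option autoImplicit false

open MeasureTheory ProbabilityTheory unitInterval

namespace Pool.Agent.H92.SN

open Pool.Agent.H89.Perc
open Pool.Agent.H61.NC (modE)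
open Pool.Agent.H83.SK (sv sit)
open Pool.Agent.H90.AL (IsPer)

end Pool.Agent.H92.SN

end

section

/-!
# A pivotal site for the winding event has four arms
-/

set_option autoImplicit false

open MeasureTheory ProbabilityTheory unitInterval

namespace Pool.Agent.H92.SN

open Pool.Agent.H89.Perc
open Pool.Agent.H83.SK (sv sit)

end Pool.Agent.H92.SN

end

section

/-!
# Pairs of sites of the torus
-/

set_option autoImplicit false

open MeasureTheory ProbabilityTheory unitInterval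

namespace Pool.Agent.H92.SN

open Pool.Agent.H89.Perc
open Pool.Agent.H61.NC (fill mid upd Joint PrR' dist0 Joint_piv localOn_upd modE)
open Pool.Agent.H83.SK (sv sit)

end Pool.Agent.H92.SN

end

section

/-!
# The sum over pairs of sites
-/

set_option autoImplicit false

open MeasureTheory ProbabilityTheory unitInterval

namespace Pool.Agent.H92.SN

open Pool.Agent.H89.Perc
open Pool.Agent.H61.NC (fill mid upd Joint PrR' dist0 Sum_rpow Sum_eight)
open Pool.Agent.H83.SK (sv sit)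

end Pool.Agent.H92.SN

end

section

/-!
# Near-critical stability of the influences
-/

set_option autoImplicit false

open MeasureTheory ProbabilityTheory unitInterval

namespace Pool.Agent.H92.SN

open Pool.Agent.H89.Perc
open Pool.Agent.H61.NC (fill mid upd Joint PrR' dist0 PrR'_eq hasDerivAt_PrR_eq hasDerivAt_PrR' abs_second_le stability)
open Pool.Agent.H83.SK (sv sit)

end Pool.Agent.H92.SN

end

section

/-!
# Scaling relations for the four-arm probability
-/

set_option autoImplicit false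

open MeasureTheory ProbabilityTheory unitInterval

namespace Pool.Agent.H92.SN

open Pool.Agent.H89.Perc
open Pool.Agent.H61.NC (fill mid upd Joint PrR' dist0)
open Pool.Agent.H83.SK (sv sit)

theorem a4_one_pos {q : I} (hq : (q : ℝ) < 1) : 0 < a4 q 1 :=
  lt_of_lt_of_le (pow_pos (sub_pos.2 hq) 9) (a4_one q (sub_pos.2 hq).le le_rfl)

end Pool.Agent.H92.SN

end

section

/-!
# Uniform decay of the four-arm probability
-/

set_option autoImplicit false

open MeasureTheory ProbabilityTheory unitInterval Filter Topology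

namespace Pool.Agent.H92.SN

open Pool.Agent.H89.Perc
open Pool.Agent.H29.Sep (Circ eCirc mem_eCirc localOn_circ incr_circ circ_ring ann)
open Pool.Agent.H83.SK (sv sit)

/-- An open ring joins the arms. -/
theorem notMem_A4_of_circ {ω : Config} {s r : ℕ} (hs : 1 ≤ s) (hr : 3 * s ≤ r)
    (h : ω ∈ Circ 0 s) : ω ∉ A4 0 r := by
  rintro ⟨a, b, ha, hb, ⟨u, hu, h1⟩, ⟨u', hu', h2⟩, h3⟩
  obtain ⟨g1, g2, g3⟩ := circ_ring hs h
  have hout : ∀ u ∈ sphere (0 : Vert) r, u ∈ sphere 0 (3 * s) ∨ u ∉ ball (0 : Vert) (3 * s) := by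
    rintro u ⟨hu1, hu2⟩
    by_cases hm : u ∈ ball (0 : Vert) (3 * s)
    · left
      refine ⟨hm, ?_⟩
      rw [mem_ball] at hm
      push_cast at hm ⊢
      have : (3 * s : ℤ) ≤ r := by exact_mod_cast hr
      omega
    · exact Or.inr hm
  obtain ⟨w, hw, c1⟩ := g3 _ _ _ _ h1 (ha.mem_ball hs) (hout u hu)
  obtain ⟨w', hw', c2⟩ := g3 _ _ _ _ h2 (hb.mem_ball hs) (hout u' hu')
  have h0 : ∀ x ∈ ann (0 : Vert) s (3 * s), x ≠ 0 := by
    rintro x ⟨-, hx⟩ rfl
    exact hx self_mem_ball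
  have c3 : Conn (closeV 0 ω) (ann 0 s (3 * s)) w w' := by
    refine (g2 w hw w' hw').congr fun e k1 k2 => ?_
    simp only [closeV, h0 _ k1, h0 _ k2, ne_eq, not_false_eq_true, and_self, decide_true,
      Bool.and_true]
  have c4 : Conn (closeV 0 ω) (ball 0 r) w w' := c3.mono_set fun x hx => ball_mono 0 hr hx.1
  exact h3 ((c1.trans c4).trans c2.symm)

theorem a4_le_circ (q : I) {k r : ℕ} (hr : 3 * 4 ^ k ≤ r) {c : ℝ} (hc1 : c ≤ 1)
    (h : ∀ m, m ≤ k → c ≤ Pool.Agent.H83.SK.Pr q (Circ 0 (4 ^ m))) :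
    a4 q r ≤ (1 - c) ^ (k + 1) := by
  classical
  -- the events
  have hloc : ∀ k : ℕ, LocalOn ((Finset.range (k + 1)).biUnion fun m => eCirc 0 (4 ^ m))
      {ω | ∀ m, m ≤ k → ω ∉ Circ 0 (4 ^ m)} := by
    intro k ω ω' hω h1 m hm h2
    refine h1 m hm (localOn_circ 0 (4 ^ m) _ _ (fun e he => ?_) h2)
    exact (hω e (Finset.mem_biUnion.2 ⟨m, Finset.mem_range.2 (by omega), he⟩)).symm
  have key : ∀ k : ℕ, (∀ m, m ≤ k → c ≤ Pool.Agent.H83.SK.Pr q (Circ 0 (4 ^ m))) →
      Pool.Agent.H83.SK.Pr q {ω | ∀ m, m ≤ k → ω ∉ Circ 0 (4 ^ m)} ≤ (1 - c) ^ (k + 1) := by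
    intro k
    induction k with
    | zero =>
      intro h
      have e : {ω : Config | ∀ m, m ≤ 0 → ω ∉ Circ 0 (4 ^ m)} = (Circ 0 (4 ^ 0))ᶜ := by
        ext ω
        simp only [Set.mem_ofPred_eq, Set.mem_compl_iff]
        exact ⟨fun h => h 0 le_rfl, fun h m hm => by
          have : m = 0 := by omega
          subst this
          exact h⟩
      rw [e, Pool.Agent.H83.SK.Pr_compl (localOn_circ 0 (4 ^ 0)), zero_add, pow_one]
      linarith only [h, h 0 le_rfl]
    | succ k ih =>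
      intro h
      have e : {ω : Config | ∀ m, m ≤ k + 1 → ω ∉ Circ 0 (4 ^ m)} =
          {ω | ∀ m, m ≤ k → ω ∉ Circ 0 (4 ^ m)} ∩ (Circ 0 (4 ^ (k + 1)))ᶜ := by
        ext ω
        simp only [Set.mem_ofPred_eq, Set.mem_inter_iff, Set.mem_compl_iff]
        constructor
        · intro h
          exact ⟨fun m hm => h m (by omega), h (k + 1) le_rfl⟩
        · rintro ⟨h1, h2⟩ m hm
          rcases Nat.lt_or_ge m (k + 1) with h3 | h3
          · exact h1 m (by omega)
          · have : m = k + 1 := by omega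
            subst this
            exact h2
      rw [e, Pool.Agent.H83.SK.Pr_inter_of_disjoint (hloc k) (localOn_circ 0 (4 ^ (k + 1))).compl,
        Pool.Agent.H83.SK.Pr_compl (localOn_circ 0 (4 ^ (k + 1))), pow_succ (1 - c)]
      · refine mul_le_mul (ih fun m hm => h m (by omega)) ?_ ?_ (pow_nonneg (by linarith) _)
        · linarith [h (k + 1) le_rfl]
        · have : Pool.Agent.H83.SK.Pr q (Circ 0 (4 ^ (k + 1))) ≤ 1 := Pool.Agent.H83.SK.Pr_le_one
          linarith
      · refine Pool.Agent.H83.SK.disj_hull_of (S := ball 0 (4 ^ (k + 1))) ?_ ?_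
        · intro e he
          obtain ⟨m, hm, hem⟩ := Finset.mem_biUnion.1 he
          rw [mem_eCirc] at hem
          have hm' : 3 * 4 ^ m ≤ 4 ^ (k + 1) := by
            have h1 : 4 ^ m ≤ 4 ^ k := Nat.pow_le_pow_right (by norm_num)
              (by have := Finset.mem_range.1 hm; omega)
            rw [pow_succ]
            omega
          exact ⟨ball_mono 0 hm' hem.1.1, ball_mono 0 hm' hem.2.1⟩
        · intro e he
          rw [mem_eCirc] at he
          exact ⟨he.1.2, he.2.2⟩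
  refine le_trans ?_ (key k h)
  refine Pool.Agent.H83.SK.Pr_mono ?_
  intro ω hω m hm hcirc
  have h4 : 1 ≤ 4 ^ m := Nat.one_le_pow _ _ (by norm_num)
  have h5 : 4 ^ m ≤ 4 ^ k := Nat.pow_le_pow_right (by norm_num) hm
  exact notMem_A4_of_circ h4 (by omega) hcirc hω

theorem A4_sub_armBox (r : ℕ) : A4 0 r ⊆ ArmBox 0 1 r := by
  rintro ω ⟨a, -, ha, -, ⟨u, hu, h1⟩, -, -⟩
  exact ⟨a, ha.mem_ball le_rfl, u, hu, h1.mono le_rfl closeV_le⟩

theorem a4_unif {pc : I} (hpc : ∃ c : ℝ, 0 < c ∧ ∀ n, SReg c n pc) :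
    ∀ ε : ℝ, 0 < ε → ∃ r : ℕ, 1 ≤ r ∧ ∀ q : I, a4 q r ≤ ε := by
  obtain ⟨c, hc, hreg⟩ := hpc
  intro ε hε
  obtain ⟨c₁, hc₁, hcirc⟩ := Pool.Agent.H83.SK.circ_lower c hc 1
  obtain ⟨C, κ, hC, hκ, harm⟩ := Pool.Agent.H83.SK.armBox_decay c hc 1
  have hcirc' : ∀ m : ℕ, c₁ ≤ Pool.Agent.H83.SK.Pr pc (Circ 0 (4 ^ m)) := fun m =>
    hcirc (4 ^ m) pc (Nat.one_le_pow _ _ (by norm_num)) (hreg _) 0 (4 ^ m)
      (Nat.one_le_pow _ _ (by norm_num)) (by omega)
  have hc1 : c₁ ≤ 1 := (hcirc' 0).trans Pool.Agent.H83.SK.Pr_le_one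
  -- the choice of the scales
  have h1 : Tendsto (fun k : ℕ => (1 - c₁) ^ (k + 1)) atTop (𝓝 0) :=
    (tendsto_pow_atTop_nhds_zero_of_lt_one (by linarith) (by linarith)).comp
      (tendsto_add_atTop_nat 1)
  obtain ⟨k, hk⟩ := (h1.eventually (gt_mem_nhds hε)).exists
  have h2 : Tendsto (fun r : ℕ => C * ((1 : ℝ) / r) ^ κ) atTop (𝓝 0) := by
    have h3 : Tendsto (fun r : ℕ => (1 : ℝ) / r) atTop (𝓝 0) := tendsto_one_div_atTop_nhds_zero_nat
    have h4 := (h3.rpow_const (Or.inr hκ.le)).const_mul C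
    rw [Real.zero_rpow hκ.ne', mul_zero] at h4
    exact h4
  obtain ⟨r, hr1, hr2⟩ := ((h2.eventually (gt_mem_nhds hε)).and
    (eventually_ge_atTop (3 * 4 ^ k))).exists
  have h4k : 1 ≤ 4 ^ k := Nat.one_le_pow _ _ (by norm_num)
  refine ⟨r, by omega, fun q => ?_⟩
  rcases le_total q pc with hq | hq
  · have h5 : a4 q r ≤ Pool.Agent.H83.SK.Pr q (ArmBox 0 1 r) :=
      Pool.Agent.H83.SK.Pr_mono (A4_sub_armBox r)
    have h6 : Pool.Agent.H83.SK.Pr q (ArmBox 0 1 r) ≤ Pool.Agent.H83.SK.Pr pc (ArmBox 0 1 r) :=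
      Pool.Agent.H83.SK.Pr_mono_param (localOn_armBox 0 1 r) (incr_armBox 0 1 r) hq
    have h7 := harm r pc (by omega) (hreg r) 0 1 r le_rfl (by omega) (by omega)
    rw [Nat.cast_one] at h7
    exact (h5.trans (h6.trans h7)).trans hr1.le
  · refine (a4_le_circ q hr2 hc1 fun m _ => ?_).trans hk.le
    exact (hcirc' m).trans
      (Pool.Agent.H83.SK.Pr_mono_param (localOn_circ 0 (4 ^ m)) (incr_circ 0 (4 ^ m)) hq)

end Pool.Agent.H92.SN

end

section

/-!
# Pivotal sites of the connection event on the torus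
-/

set_option autoImplicit false

open MeasureTheory ProbabilityTheory unitInterval

namespace Pool.Agent.H92.SN

open Pool.Agent.H89.Perc
open Pool.Agent.H61.NC (modE mid)
open Pool.Agent.H83.SK (sv sit)
open Pool.Agent.H90.AL (IsPer dT dT_self dT_comm dT_tri dT_le_half dT_le_of exists_of_dT_le notMem_of_lt modE_mem modE_eq mem_tEdges_iff src_modE conn_per isPer_per A2_of_cross A2_congr modE_mem_SR' mem_SR)

/-! ### Events of annuli -/

/-! ### Pivotal sites -/

end Pool.Agent.H92.SN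

end

section

/-!
# Probabilities of the corridor event and of the seals; locality
-/

set_option autoImplicit false

open MeasureTheory ProbabilityTheory unitInterval

namespace Pool.Agent.H83.PST

open Pool.Agent.H89.Perc
open Pool.Agent.H61.NC (modE)
open Pool.Agent.H83.SK (sv sit sit_true RSWreg)
open Pool.Agent.H59.EX (LocS inE touch clus closeS Side T Mouth Fence dom pb grid)
open Pool.Agent.H38.N59 (vE rv fillS Src Sep FX FY det Seal Four vE_mono sv_mem_vE)
open Pool.Agent.H26.ST (Cor glu PerInv sh TD Rel1 In glu_per)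
open Pool.Agent.H92.SN (WindS tSites)

private lemma CC_bounds {N k : ℕ} (hk : 64 ≤ k) (hN : 128 * k ≤ N) {v : Vert} (he : v ∈ CC N k) :
    -(36 * (k : ℤ)) ≤ v.1 ∧ v.1 < N - 36 * k ∧ -(3 * (k : ℤ)) ≤ v.2 ∧ v.2 ≤ 3 * k := by
  have hN' : 128 * (k : ℤ) ≤ N := by exact_mod_cast hN
  rcases he with ⟨h1, h2⟩ | h1
  · simp only [Cor, rect, Set.mem_ofPred_eq] at h1
    omega
  · simp only [T, rect, Set.mem_ofPred_eq] at h1
    omega

theorem injOn_modE {N k : ℕ} (hk : 64 ≤ k) (hN : 128 * k ≤ N) :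
    Set.InjOn (modE N) (vE (dom .W .E k ∪ CC N k)) := by
  have hN' : 128 * (k : ℤ) ≤ N := by exact_mod_cast hN
  have hk' : 64 ≤ (k : ℤ) := by exact_mod_cast hk
  have key : ∀ v ∈ dom .W .E k ∪ CC N k, -(36 * (k : ℤ)) ≤ v.1 ∧ v.1 < N - 36 * k ∧
      -(32 * (k : ℤ)) ≤ v.2 ∧ v.2 ≤ 32 * k := by
    rintro v (he | he)
    · have := mem_dom he
      omega
    · have := CC_bounds hk hN he
      omega
  rintro ⟨x, y, t⟩ h1 ⟨x', y', t'⟩ h2 h
  have k1 := key _ h1.2
  have k2 := key _ h2.2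
  simp only [src] at k1 k2
  simp only [modE, Prod.mk.injEq] at h
  obtain ⟨h3, h4, h5⟩ := h
  rw [mod_eq' (by omega) (by omega) h3, mod_eq' (by omega) (by omega) h4, h5]

theorem CC_inter {N k : ℕ} (hk : 64 ≤ k) (hN : 128 * k ≤ N) :
    CC N k ∩ dom .W .E k ⊆ T .W k ∪ T .E k := by
  have hN' : 128 * (k : ℤ) ≤ N := by exact_mod_cast hN
  rintro v ⟨⟨h1, -⟩ | h1, h2⟩
  · have h3 := mem_dom h2
    right
    simp only [Cor, rect, Set.mem_ofPred_eq] at h1
    simp only [T, rect, Set.mem_ofPred_eq]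
    omega
  · exact Or.inl h1

theorem T_sub_CC {N k : ℕ} (hk : 64 ≤ k) (hN : 128 * k ≤ N) : T .W k ∪ T .E k ⊆ CC N k := by
  have hN' : 128 * (k : ℤ) ≤ N := by exact_mod_cast hN
  have hk' : 64 ≤ (k : ℤ) := by exact_mod_cast hk
  rintro v (h | h)
  · exact Or.inr h
  · simp only [T, rect, Set.mem_ofPred_eq] at h
    left
    simp only [Cor, rect, Set.mem_ofPred_eq]
    omega

private theorem rect_finite (a b c d : ℤ) : (rect a b c d).Finite := by
  refine Set.Finite.subset ((Set.finite_Icc a b).prod (Set.finite_Icc c d)) ?_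
  rintro ⟨x, y⟩ ⟨h1, h2, h3, h4⟩
  exact ⟨⟨h1, h2⟩, ⟨h3, h4⟩⟩

theorem CC_finite (N k : ℕ) : (CC N k).Finite := by
  refine ((rect_finite (28 * k) (N - 28 * k) (-(3 * k)) (3 * k)).union
    (rect_finite (-(36 * k)) (-(28 * k)) (-(3 * k)) (3 * k))).subset ?_
  rintro e (h | h)
  · exact Or.inl h.1
  · exact Or.inr h

private lemma glu_congr {N k : ℕ} (hN : 128 * k ≤ N) {η η' : Config}
    (h : ∀ e ∈ vE (CC N k), η e = η' e) :
    ∀ e ∈ vE (rect (28 * k) (N - 28 * k) (-(3 * k)) (3 * k)), glu N k η e = glu N k η' e := by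
  have hN' : 128 * (k : ℤ) ≤ N := by exact_mod_cast hN
  rintro ⟨x, y, t⟩ he
  unfold glu
  by_cases hx : x < N - 36 * k
  · simp only [hx, if_true]
    exact h _ ⟨he.1, Or.inl ⟨he.2, hx⟩⟩
  · simp only [hx, if_false]
    refine h _ ⟨he.1, Or.inr ?_⟩
    have h2 := he.2
    simp only [src, rect, Set.mem_ofPred_eq] at h2
    simp only [src, T, rect, Set.mem_ofPred_eq]
    omega

theorem locS_NpT {N k : ℕ} (hN : 128 * k ≤ N) : LocS (vE (CC N k)) (NpT N k) := by
  intro η η' h hη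
  refine hcross_congr (fun e he ho => ?_) hη
  rw [← glu_congr hN h e he]
  exact ho

theorem incr_NpT (N k : ℕ) : Incr (NpT N k) := by
  intro η η' h hη
  refine hcross_congr (fun e _ ho => ?_) hη
  unfold glu at ho ⊢
  split_ifs at ho ⊢
  · exact h _ ho
  · exact h _ ho

private lemma locS_NoX (N k : ℕ) :
    LocS (vE (rect (40 * k) (50 * k) (3 * k + 1) (N - 3 * k - 1))) (NoX N k) := by
  intro η η' h hη hη'
  refine hη (hcross_congr (fun e he ho => ?_) hη')
  rw [h e he]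
  exact ho

/-- `NoX` does not see the corridor nor the clusters. -/
theorem locS_HT {N k ρ K : ℕ} (hk : 64 ≤ k) (hN : 128 * k ≤ N) (S : Set Vert) :
    LocS (det (modE N) .W .E k (CC N k) S)ᶜ (HT N k ρ K S) := by
  have hN' : 128 * (k : ℤ) ≤ N := by exact_mod_cast hN
  have hk' : 64 ≤ (k : ℤ) := by exact_mod_cast hk
  intro η η' h hη
  refine ⟨Pool.Agent.H38.N59.locS_seal _ _ _ η η' h hη.1,
    locS_NoX N k η η' (fun e he => h e ?_) hη.2⟩
  rintro ⟨e', he', heq⟩
  have h0 := he.2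
  obtain ⟨x, y, t⟩ := e
  obtain ⟨x', y', t'⟩ := e'
  simp only [modE, Prod.mk.injEq] at heq
  obtain ⟨h3, h4, h5⟩ := heq
  simp only [src, rect, Set.mem_ofPred_eq] at h0
  rcases he' with he' | he'
  · have h6 := mem_dom (Pool.Agent.H38.N59.rv_sub he').2
    simp only [src] at h6
    have := mod_eq' (by omega) (by omega) h3
    omega
  · have h6 := CC_bounds hk hN he'.2
    simp only [src] at h6
    have := mod_eq' (by omega) (by omega) h4
    omega

private lemma localOn_NoX (N k : ℕ) :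
    LocalOn (sR (40 * k) (50 * k) (3 * k + 1) (N - 3 * k - 1)) (NoX N k) := by
  intro η η' h hη
  exact locS_NoX N k η η' (fun e he => h e (mem_sR.2 he)) hη

theorem localOn_HT (N k ρ K : ℕ) : ∃ Λ : Finset Edge, ∀ S, LocalOn Λ (HT N k ρ K S) := by
  classical
  obtain ⟨Λ, hΛ⟩ := Pool.Agent.H38.N59.localOn_seal (grid ρ K) ρ
  refine ⟨Λ ∪ sR (40 * k) (50 * k) (3 * k + 1) (N - 3 * k - 1), fun S η η' h hη => ?_⟩
  exact ⟨hΛ _ η η' (fun e he => h e (Finset.mem_union_left _ he)) hη.1,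
    localOn_NoX N k η η' (fun e he => h e (Finset.mem_union_right _ he)) hη.2⟩

theorem NpT_lower (c : ℝ) (hc : 0 < c) (K₁ : ℕ) : ∃ c' : ℝ, 0 < c' ∧ ∀ (N k : ℕ) (q : I),
    64 ≤ k → 128 * k ≤ N → N ≤ K₁ * k → RSWreg c N q →
      c' ≤ Pr q {ω | pb (modE N) ω ∈ NpT N k} := by
  obtain ⟨c', hc', H⟩ := Pool.Agent.H83.SK.rect_lower c hc K₁
  refine ⟨c', hc', fun N k q hk hN hK hR => ?_⟩
  have hN' : 128 * (k : ℤ) ≤ N := by exact_mod_cast hN
  have hk' : 64 ≤ (k : ℤ) := by exact_mod_cast hk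
  have hK' : (N : ℤ) ≤ K₁ * k := by exact_mod_cast hK
  have hK1 : (1 : ℤ) ≤ K₁ := by
    rcases Nat.eq_zero_or_pos K₁ with h | h
    · rw [h] at hK
      omega
    · exact_mod_cast h
  have h1 : c' ≤ Pr q {w | HCross (sit w) (28 * k) (N - 28 * k) (-(3 * k)) (3 * k)} :=
    (H N q (by omega) hR (28 * k) (N - 28 * k) (-(3 * k)) (3 * k) (by omega) (by omega)
    (by nlinarith only [hk, hN, hK]) (by nlinarith only [hk, hN, hK])).1
  refine h1.trans ?_
  rw [← Pr_pb (N := N) (localOn_cross (28 * (k : ℤ)) (N - 28 * k) (-(3 * k)) (3 * k))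
    (by omega) (by omega)]
  refine Pr_mono fun ω hω => ?_
  show HCross (sit (glu N k (per N ω))) _ _ _ _
  rw [glu_per]
  exact hω

private lemma incr_NoX_compl (N k : ℕ) : Incr ({ω | pb (modE N) ω ∈ NoX N k} : Set Config)ᶜ := by
  intro ω ω' h hω hω'
  have h1 : HCross (sit (pb (modE N) ω)) (40 * k) (50 * k) (3 * k + 1) (N - 3 * k - 1) := by
    by_contra hcon
    exact hω hcon
  exact hω' (hcross_congr (fun e _ ho => h _ ho) h1)

private lemma incr_Seal_compl (N ρ : ℕ) (G : Finset Vert) (t : Set Edge) :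
    Incr ({ω | pb (modE N) ω ∈ Seal G ρ t} : Set Config)ᶜ := by
  intro ω ω' h hω hω'
  exact Pool.Agent.H38.N59.seal_decr G ρ t _ _ (fun e he => h (modE N e) he) hω hω'

theorem HT_lower (c : ℝ) (hc : 0 < c) (K₁ K : ℕ) : ∃ c' : ℝ, 0 < c' ∧ ∀ (N k ρ : ℕ) (q : I)
    (S : Set Vert), 64 ≤ k → 128 * k ≤ N → N ≤ K₁ * k → 1 ≤ ρ → 8 * ρ ≤ k → RSWreg c N q →
      c' ≤ Pr q {ω | pb (modE N) ω ∈ HT N k ρ K S} := by
  classical
  obtain ⟨c₁, hc₁, H1⟩ := Pool.Agent.H83.SK.rect_closed c hc K₁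
  obtain ⟨c₂, hc₂, H2⟩ := Pool.Agent.H38.N59.seal_lower_pb c hc 1 ((2 * K + 1) ^ 2)
  refine ⟨c₂ * c₁, by positivity, fun N k ρ q S hk hN hK hρ hρk hR => ?_⟩
  have hN' : 128 * (k : ℤ) ≤ N := by exact_mod_cast hN
  have hk' : 64 ≤ (k : ℤ) := by exact_mod_cast hk
  have hK' : (N : ℤ) ≤ K₁ * k := by exact_mod_cast hK
  have hρk' : 8 * (ρ : ℤ) ≤ k := by exact_mod_cast hρk
  have hK1 : (1 : ℤ) ≤ K₁ := by
    rcases Nat.eq_zero_or_pos K₁ with h | h
    · rw [h] at hK
      omega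
    · exact_mod_cast h
  have hseal := H2 N ρ q (grid ρ K) (det (modE N) .W .E k (CC N k) S) (modE N) (by omega) hR hρ
    (by omega) (Pool.Agent.H59.EX.card_grid ρ K) (by
      intro g _
      exact modE_injOn_vE (N := N) (a := g.1 - (3 * ρ : ℕ)) (b := g.1 + (3 * ρ : ℕ))
        (c := g.2 - (3 * ρ : ℕ)) (d := g.2 + (3 * ρ : ℕ)) (by push_cast; omega)
        (by push_cast; omega))
  have hnox : c₁ ≤ Pr q {ω | pb (modE N) ω ∈ NoX N k} := by
    have h1 : c₁ ≤ Pr q {w | ¬ HCross (sit w) (40 * k) (50 * k) (3 * k + 1) (N - 3 * k - 1)} :=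
      (H1 N q (by omega) hR (3 * k + 1) (N - 3 * k - 1) (40 * k) (50 * k) (by omega) (by omega)
        (by nlinarith only [hk, hN, hK]) (by nlinarith only [hk, hN, hK])).2
    rw [Pr_pb (N := N) (localOn_NoX N k) (by omega) (by omega)]
    exact h1
  obtain ⟨Λ, hΛ⟩ := Pool.Agent.H38.N59.localOn_seal (grid ρ K) ρ
  have hl1 : LocalOn (Λ.image (modE N)) {ω | pb (modE N) ω ∈
      Seal (grid ρ K) ρ (det (modE N) .W .E k (CC N k) S)} := by
    intro ω ω' h hω
    exact hΛ _ _ _ (fun e he => h _ (Finset.mem_image_of_mem _ he)) hω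
  have hl2 : LocalOn ((sR (40 * k) (50 * k) (3 * k + 1) (N - 3 * k - 1)).image (modE N))
      {ω | pb (modE N) ω ∈ NoX N k} := by
    intro ω ω' h hω
    exact localOn_NoX N k _ _ (fun e he => h _ (Finset.mem_image_of_mem _ he)) hω
  have hfkg := fkg_decr (p := q) hl1 hl2 (incr_Seal_compl N ρ _ _) (incr_NoX_compl N k)
  refine ((mul_le_mul hseal hnox hc₁.le Pr_nonneg).trans hfkg).trans (Pr_mono ?_)
  intro ω hω
  exact ⟨hω.1, hω.2⟩

end Pool.Agent.H83.PST

end

section

/-!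
# Lower bounds for the influence of a site of the torus; small tori
-/

set_option autoImplicit false

open MeasureTheory ProbabilityTheory unitInterval

namespace Pool.Agent.H83.PST

open Pool.Agent.H89.Perc
open Pool.Agent.H61.NC (modE ctr mid)
open Pool.Agent.H83.SK (sv sit sit_true RSWreg sT sitT)
open Pool.Agent.H92.SN (WindS tSites mem_tSites localOn_WindS incr_WindS pivot_windS cE)

theorem sT_nonneg (q : I) (N : ℕ) : 0 ≤ sT q N := by
  rw [sT_eq]
  exact Pool.Agent.H92.SN.sT_nonneg q N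

theorem zero_mem {N : ℕ} (hN : 1 ≤ N) : sv 0 ∈ tSites N := by
  rw [mem_tSites]
  simp only [sv, Prod.fst_zero, Prod.snd_zero, and_true]
  omega

theorem sT_pivot {N : ℕ} (hN : 1 ≤ N) (q : I) : sT q N = pivot q (WindS N) (sv 0) := by
  rw [sT_eq]
  exact (pivot_windS hN q (zero_mem hN)).symm

theorem le_sT {N : ℕ} (hN : 1 ≤ N) {q : I} {E : Set Config}
    (hE : ∀ ω ∈ E, Function.update ω (sv 0) true ∈ WindS N ∧
      Function.update ω (sv 0) false ∉ WindS N) : Pr q E ≤ sT q N := by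
  rw [sT_pivot hN]
  have hl : ∀ b : Bool, LocalOn (tSites N) {ω | Function.update ω (sv 0) b ∈ WindS N} := by
    intro b ω ω' hω h2
    refine localOn_WindS hN _ _ (fun f hf => ?_) h2
    by_cases hfe : f = sv 0
    · subst hfe; simp
    · simp only [Function.update_of_ne hfe]; exact hω f hf
  have hsub : {ω | Function.update ω (sv 0) false ∈ WindS N} ⊆
      {ω | Function.update ω (sv 0) true ∈ WindS N} := by
    intro ω hω
    refine incr_WindS N _ _ ?_ hω
    intro e he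
    by_cases h : e = sv 0
    · subst h; simp
    · rw [Function.update_of_ne h] at he ⊢
      exact he
  have h2 : Pr q ({ω | Function.update ω (sv 0) true ∈ WindS N} \
      {ω | Function.update ω (sv 0) false ∈ WindS N}) = pivot q (WindS N) (sv 0) :=
    measureReal_sdiff hsub (hl false).measurableSet
  rw [← h2]
  exact Pr_mono fun ω hω => ⟨(hE ω hω).1, (hE ω hω).2⟩

/-! ### Small tori -/

private theorem pivot_ge {N : ℕ} (hN : 1 ≤ N) (q : I) {t : ℝ} (ht : 0 ≤ t)
    (h1 : t ≤ (q : ℝ)) (h2 : (q : ℝ) ≤ 1 - t) :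
    t ^ (tSites N).card ≤ pivot q (WindS N) (sv 0) := by
  have hloc : LocalOn (tSites N) {ω : Config | ∀ e ∈ tSites N, ω e = smB e} := by
    intro ω ω' h hω e he
    rw [← h e he]
    exact hω e he
  have hE := Pool.Agent.H29.Sep.a4Low_cyl q ht h1 h2 smB (tSites N)
  have hup : ∀ (ω : Config) (b : Bool), (∀ e ∈ tSites N, ω e = smB e) → ∀ e ∈ tSites N,
      Function.update ω (sv 0) b e = Function.update smB (sv 0) b e := by
    intro ω b h e he
    rw [Function.update_apply, Function.update_apply]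
    split_ifs
    · rfl
    · exact h e he
  have hW := localOn_WindS (N := N) hN
  have hsub1 : {ω : Config | Function.update ω (sv 0) false ∈ WindS N} ∪
      {ω : Config | ∀ e ∈ tSites N, ω e = smB e} ⊆
      {ω | Function.update ω (sv 0) true ∈ WindS N} := by
    rintro ω (h | h)
    · refine incr_WindS N _ _ (fun e he => ?_) h
      rw [Function.update_apply] at he ⊢
      split_ifs at he ⊢
      exact he
    · exact hW _ _ (fun e he => (hup ω true h e he).symm) (smB_wind hN)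
  have hdisj : Disjoint {ω : Config | Function.update ω (sv 0) false ∈ WindS N}
      {ω : Config | ∀ e ∈ tSites N, ω e = smB e} := by
    rw [Set.disjoint_left]
    intro ω h h'
    have := hW _ _ (fun e he => hup ω false h' e he) h
    rw [smB_closed] at this
    exact smB_not hN this
  have h3 : Pr q ({ω : Config | Function.update ω (sv 0) false ∈ WindS N} ∪
      {ω : Config | ∀ e ∈ tSites N, ω e = smB e}) =
      Pr q {ω : Config | Function.update ω (sv 0) false ∈ WindS N} +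
        Pr q {ω : Config | ∀ e ∈ tSites N, ω e = smB e} :=
    measureReal_union hdisj hloc.measurableSet
  have h4 := Pr_mono (p := q) hsub1
  rw [h3] at h4
  unfold pivot
  linarith only [hE, h4]

/-- Small tori: finite energy. -/
theorem sT_small (c : ℝ) (hc : 0 < c) (N₀ : ℕ) : ∃ c' : ℝ, 0 < c' ∧ ∀ (N : ℕ) (q : I),
    1 ≤ N → N ≤ N₀ → RSWreg c N q → c' ≤ sT q N := by
  refine ⟨(min (c / 16) 1) ^ (N₀ * N₀), by positivity, ?_⟩
  intro N q hN hN0 hreg
  obtain ⟨h1, h2⟩ := Pool.Agent.H83.SK.rswreg_density hN hreg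
  set t : ℝ := min (c / 16) 1 with ht
  have ht0 : 0 < t := by positivity
  have ht1 : t ≤ 1 := min_le_right _ _
  have ht2 : t ≤ c / 16 := min_le_left _ _
  have hcard : (tSites N).card ≤ N₀ * N₀ := by
    have : (tSites N).card = N * N := by
      simp [tSites]
    rw [this]
    exact Nat.mul_le_mul hN0 hN0
  have h3 := pivot_ge hN q ht0.le (ht2.trans h1) (by linarith only [h2, ht2])
  have h4 : t ^ (N₀ * N₀) ≤ t ^ (tSites N).card := pow_le_pow_of_le_one ht0.le ht1 hcard
  rw [sT_pivot hN]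
  exact h4.trans h3

end Pool.Agent.H83.PST

end

section

/-!
# The two forms of the four-arm probability of a site

`SK.a4` sums over two kinds of pairs of neighbours of the origin, `SN.a4` is the probability of the
union over all pairs.
-/

set_option autoImplicit false

open MeasureTheory ProbabilityTheory unitInterval

namespace Pool.Agent.H38.SKConv

open Pool.Agent.H89.Perc
open Pool.Agent.H59.EX (Gen closeS Four)
open Pool.Agent.H83.SK (s4 star0 IsAut isAut_swap isAut_reflX isAut_reflY sitT blkS)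
open Pool.Agent.H92.SN (closeV A4 Nb WindS)
open Pool.Agent.H61.NC (fill blk mid)

variable {q : I} {r : ℕ}

theorem a4_le_two (q : I) (r : ℕ) :
    Pool.Agent.H83.SK.a4 q r ≤ 2 * Pool.Agent.H92.SN.a4 q r := by
  have key : ∀ b : Bool, Pool.Agent.H83.SK.Pr q (Four (s4 b) r) ≤ Pool.Agent.H92.SN.a4 q r := by
    intro b
    refine Pool.Agent.H83.SK.Pr_mono ?_
    rw [four_eq]
    rintro ω ⟨h1, h2, h3⟩
    have n1 : Nb 0 (1, 0) := ⟨(0, 0, false), Or.inl ⟨rfl, rfl⟩⟩
    have n2 : Nb 0 (if b then (0, 1) else (-1, 0)) := by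
      cases b
      · exact ⟨(-1, 0, false), Or.inr ⟨rfl, rfl⟩⟩
      · exact ⟨(0, 0, true), Or.inl ⟨rfl, rfl⟩⟩
    exact ⟨_, _, n1, n2, h1, h2, h3⟩
  have h1 := key false
  have h2 := key true
  unfold Pool.Agent.H83.SK.a4
  linarith

theorem a4_le_four (q : I) (r : ℕ) :
    Pool.Agent.H92.SN.a4 q r ≤ 4 * Pool.Agent.H83.SK.a4 q r := by
  have hsub : A4 0 r ⊆ (F (1, 0) (-1, 0) r ∪ F (0, 1) (0, -1) r) ∪
      ((F (1, 0) (0, 1) r ∪ F (-1, 0) (0, 1) r) ∪ (F (1, 0) (0, -1) r ∪ F (-1, 0) (0, -1) r)) := by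
    rintro ω ⟨a, b, ha, hb, h1, h2, h3⟩
    have hm : ω ∈ F a b r := ⟨h1, h2, h3⟩
    have hm' : ω ∈ F b a r := by rw [F_comm]; exact hm
    have hne : a ≠ b := by
      rintro rfl
      obtain ⟨u, _, hu⟩ := h1
      exact h3 (Conn.refl hu.mem_left)
    have hz : ∀ c : Vert, Nb 0 c → c = (1, 0) ∨ c = (0, 1) ∨ c = (-1, 0) ∨ c = (0, -1) := by
      intro c hc
      rcases hc.cases with h | h | h | h
      · left; rw [h]; rfl
      · right; left; rw [h]; rfl
      · right; right; left; rw [h]; rfl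
      · right; right; right; rw [h]; rfl
    simp only [Set.mem_union]
    rcases hz a ha with rfl | rfl | rfl | rfl <;> rcases hz b hb with rfl | rfl | rfl | rfl <;>
      first | exact absurd rfl hne | tauto
  have h1 : Pool.Agent.H92.SN.a4 q r ≤
      (Pool.Agent.H83.SK.Pr q (F (1, 0) (-1, 0) r) + Pool.Agent.H83.SK.Pr q (F (0, 1) (0, -1) r)) +
      ((Pool.Agent.H83.SK.Pr q (F (1, 0) (0, 1) r) + Pool.Agent.H83.SK.Pr q (F (-1, 0) (0, 1) r)) +
      (Pool.Agent.H83.SK.Pr q (F (1, 0) (0, -1) r) +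
        Pool.Agent.H83.SK.Pr q (F (-1, 0) (0, -1) r))) := by
    refine (Pool.Agent.H83.SK.Pr_mono hsub).trans ?_
    refine Pool.Agent.H83.SK.Pr_union_le.trans (add_le_add Pool.Agent.H83.SK.Pr_union_le ?_)
    exact Pool.Agent.H83.SK.Pr_union_le.trans
      (add_le_add Pool.Agent.H83.SK.Pr_union_le Pool.Agent.H83.SK.Pr_union_le)
  rw [pr_WE, pr_WN, pr_ES, pr_WS] at h1
  have h2 : Pool.Agent.H83.SK.a4 q r = Pool.Agent.H83.SK.Pr q (F (1, 0) (-1, 0) r) +
      Pool.Agent.H83.SK.Pr q (F (1, 0) (0, 1) r) := by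
    unfold Pool.Agent.H83.SK.a4
    rw [four_eq, four_eq]
    rfl
  have h3 : 0 ≤ Pool.Agent.H83.SK.Pr q (F (1, 0) (-1, 0) r) := Pool.Agent.H83.SK.Pr_nonneg
  rw [h2]
  linarith

theorem glTorus_conv (h : Pool.Agent.H83.SK.GLTorus) : Pool.Agent.H92.SN.GLTorus := by
  intro c hc
  obtain ⟨C, hC, h1⟩ := h c hc
  refine ⟨4 * C, by positivity, fun N r q hr hN hq => ?_⟩
  have h2 := h1 N r q hr hN hq
  rw [blockPiv_eq, Pool.Agent.H83.PST.sT_eq] at h2
  have h3 := a4_le_four q r
  have h4 : 0 ≤ Pool.Agent.H89.Perc.Pr q (Pool.Agent.H92.SN.BlockPiv N (16 * r)) :=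
    Pool.Agent.H89.Perc.Pr_nonneg
  have h5 := mul_le_mul_of_nonneg_right h3 h4
  have h6 : 4 * Pool.Agent.H83.SK.a4 q r *
      Pool.Agent.H89.Perc.Pr q (Pool.Agent.H92.SN.BlockPiv N (16 * r)) =
      4 * (Pool.Agent.H83.SK.a4 q r *
        Pool.Agent.H89.Perc.Pr q (Pool.Agent.H92.SN.BlockPiv N (16 * r))) := by ring
  rw [h6] at h5
  refine h5.trans ?_
  linarith only [h2]

theorem qmann_conv (h : Pool.Agent.H83.SK.QMann) : Pool.Agent.H92.SN.QMann := by
  intro c hc
  obtain ⟨C, hC, h1⟩ := h c hc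
  refine ⟨8 * C, by positivity, fun n r R q hr hR hn hq => ?_⟩
  have h2 := h1 n r R q hr hR hn hq
  have h3 := a4_le_four q r
  have h4 : 0 ≤ Pool.Agent.H83.SK.Pr q (Pool.Agent.H29.Sep.A2 (16 * r) R) :=
    Pool.Agent.H83.SK.Pr_nonneg
  have h5 := mul_le_mul_of_nonneg_right h3 h4
  have h7 := a4_le_two q R
  have h8 := mul_le_mul_of_nonneg_left h7 hC.le
  have h6 : 4 * Pool.Agent.H83.SK.a4 q r * Pool.Agent.H83.SK.Pr q (Pool.Agent.H29.Sep.A2 (16 * r) R)
      = 4 * (Pool.Agent.H83.SK.a4 q r *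
        Pool.Agent.H83.SK.Pr q (Pool.Agent.H29.Sep.A2 (16 * r) R)) := by ring
  rw [h6] at h5
  refine h5.trans ?_
  linarith only [h2, h8]

end Pool.Agent.H38.SKConv

end
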