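import Pool.Agent.H94.BG.H31.PT.M07_6
import Pool.Agent.H94.BG.H31.PT.M10
import Pool.Agent.H94.BG.H31.PT.M16_2
import Pool.Agent.H94.BG.H31.PT.M18_3
import Pool.Agent.H94.BG.H31.PT.M18_4
import Pool.Agent.H94.BG.H31.PT.M25
import Pool.Agent.H94.BG.M11
import Pool.Agent.H94.BG.M21

/-! The parts of this file: H13.SK.SigmaTr, H13.SK.SigmaMono, H13.SK.Regime, H13.SK.LenOne, H92.SN.Tau, H92.SN.KCnt, H13.SK.TBlock, H13.SK.TTwo, H92.SN.Ret, H92.SN.Det, H92.SN.Pair, H92.SN.Sum, H92.SN.Main, H92.SN.Fin, H92.SN.Unif, H92.SN.Piv, H83.SK.PST.Prob, H83.SK.PST.Piv, H38.SK.Conv. -/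

section

/-!
# The mean cluster size as a sum of the two-point function
-/

set_option autoImplicit false

open MeasureTheory ProbabilityTheory unitInterval
open scoped ENNReal

namespace Pool.Agent.H13.SK

open Pool.Agent.H89.Perc Pool.Agent.H83.Site

end Pool.Agent.H13.SK

end

section

/-!
# The mean cluster size is nondecreasing in the density
-/

set_option autoImplicit false

open MeasureTheory ProbabilityTheory unitInterval
open scoped ENNReal

namespace Pool.Agent.H13.SK

open Pool.Agent.H89.Perc Pool.Agent.H83.Site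

/-- The probability that one site is open. -/
theorem Pr_open (q : I) (e : Edge) : Pr q {ω : Config | ω e = true} = q := by
  have hloc : LocalOn {e} {ω : Config | ω e = true} := by
    intro ω ω' h hω
    rw [Set.mem_ofPred_eq, ← h e (Finset.mem_singleton_self e)]
    exact hω
  rw [Pr_eq_update hloc e]
  have h1 : {ω : Config | Function.update ω e true ∈ {ω : Config | ω e = true}} = Set.univ := by
    ext ω; simp
  have h2 : {ω : Config | Function.update ω e false ∈ {ω : Config | ω e = true}} = ∅ := by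
    ext ω; simp
  rw [h1, h2, Pr_univ]
  simp [Pr]

end Pool.Agent.H13.SK

end

section

/-!
# The box-crossing regime of site percolation and the characteristic length
-/

set_option autoImplicit false

open MeasureTheory ProbabilityTheory unitInterval Filter Topology

namespace Pool.Agent.H13.SK

open Pool.Agent.H89.Perc Pool.Agent.H83.Site

end Pool.Agent.H13.SK

end

section

/-!
# The characteristic lengths on the two sides of the critical density

`NC a4 Wp Reg` collects the results of near-critical percolation on the torus which are used: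
`a4` is the four-arm probability, `Wp` the winding probability and `Reg` the box-crossing regime.
-/

set_option autoImplicit false

open MeasureTheory ProbabilityTheory unitInterval Filter Topology

namespace Pool.Agent.H13.SK

open Pool.Agent.H89.Perc Pool.Agent.H83.Site

end Pool.Agent.H13.SK

end

section

/-!
# The connection of the neighbours of a site
-/

set_option autoImplicit false

open MeasureTheory ProbabilityTheory unitInterval Filter Topology

namespace Pool.Agent.H92.SN

open Pool.Agent.H89.Perc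
open Pool.Agent.H61.NC (modE PrR' hasDerivAt_PrR_eq)
open Pool.Agent.H83.SK (sv sit)

theorem Dn_congr {S : Set Vert} {v : Vert} {i : ℕ} {ω ω' : Config}
    (h : ∀ e, src e ∈ S → tgt e ∈ S → ω e = ω' e) (hω : ω ∈ Dn S v i) : ω' ∈ Dn S v i := by
  obtain ⟨j, hj, hc⟩ := hω
  exact ⟨j, hj, hc.congr fun e h1 h2 => closeV_congr (h e h1 h2)⟩

theorem localOn_Dn_ball (v : Vert) (r i : ℕ) :
    LocalOn (eRect (v.1 - r) (v.1 + r) (v.2 - r) (v.2 + r)) (Dn (ball v r) v i) := by
  intro ω ω' h hω
  exact Dn_congr (fun e h1 _ => h e (mem_eRect.2 h1)) hω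

theorem localOn_sitDn (v : Vert) (r i : ℕ) :
    LocalOn (sBall v r) {w | sit w ∈ Dn (ball v r) v i} := by
  intro w w' h hw
  exact Dn_congr (fun e h1 h2 => sit_congr_ball h h1 h2) hw

private theorem tau_shift (v : Vert) (r i : ℕ) :
    {ω : Config | (fun f => ω (shiftE v f)) ∈ Dn (ball 0 r) 0 i} = Dn (ball v r) v i := by
  have hb : {w : Vert | (w.1 - v.1, w.2 - v.2) ∈ ball (0 : Vert) r} = ball v r := by
    ext w
    simp only [Set.mem_ofPred_eq, mem_ball, Prod.fst_zero, Prod.snd_zero]
    omega
  have hv : ((0 : Vert).1 + v.1, (0 : Vert).2 + v.2) = v := by simp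
  have hn : ∀ j, ((nb (0 : Vert) j).1 + v.1, (nb (0 : Vert) j).2 + v.2) = nb v j := by
    intro j
    rw [← nb_shift, hv]
  ext ω
  simp only [Dn, Set.mem_ofPred_eq]
  constructor
  · rintro ⟨j, hj, hc⟩
    rw [closeV_shift, conn_shift, hb, hv, hn, hn] at hc
    exact ⟨j, hj, hc⟩
  · rintro ⟨j, hj, hc⟩
    refine ⟨j, hj, ?_⟩
    rw [closeV_shift, conn_shift, hb, hv, hn, hn]
    exact hc

theorem Pr_Dn_ball (q : I) (v : Vert) (m i : ℕ) :
    Pool.Agent.H83.SK.Pr q (Dn (ball v m) v i) = tl i m q := by
  rw [← tau_shift v m i, Pool.Agent.H83.SK.Pr_comp (localOn_Dn_ball 0 m i)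
    (Pool.Agent.H83.SK.isAut_shift v), tl]

theorem Dn_univ_tendsto (q : I) (v : Vert) (i : ℕ) :
    Tendsto (fun m => tl i m q) atTop (𝓝 (Pool.Agent.H83.SK.Pr q (Dn Set.univ v i))) := by
  have hm : Monotone (fun m : ℕ => {w : Config | sit w ∈ Dn (ball v m) v i}) := by
    intro a b hab w hw
    exact Dn_mono (ball_mono v hab) v i hw
  have h := tendsto_measure_iUnion_atTop (μ := μ q) hm
  have he : (⋃ m : ℕ, {w : Config | sit w ∈ Dn (ball v m) v i}) =
      {w | sit w ∈ Dn Set.univ v i} := by
    rw [Dn_univ_eq]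
    ext w
    simp only [Set.mem_iUnion, Set.mem_ofPred_eq]
  rw [he] at h
  have h2 := (ENNReal.tendsto_toReal (measure_ne_top (μ q) {w | sit w ∈ Dn Set.univ v i})).comp h
  refine h2.congr fun m => ?_
  rw [← Pr_Dn_ball q v m i]
  rfl

theorem Pr_Dn_univ (q : I) (v : Vert) (i : ℕ) : Pool.Agent.H83.SK.Pr q (Dn Set.univ v i) =
    Pool.Agent.H83.SK.Pr q (Dn Set.univ 0 i) :=
  tendsto_nhds_unique (Dn_univ_tendsto q v i) (Dn_univ_tendsto q 0 i)

end Pool.Agent.H92.SN

end

section

/-!
# The number of open clusters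
-/

set_option autoImplicit false

open MeasureTheory ProbabilityTheory unitInterval

namespace Pool.Agent.H92.SN

open Pool.Agent.H89.Perc
open Pool.Agent.H83.SK (sv sit)

private theorem kc_nb_ne_v (v : Vert) (i : ℕ) : nb v i ≠ v := (nb_Nb v i).ne

open Classical in
/-- The change of the number of open clusters when the site `v` is opened. -/
theorem KO_update {S : Set Vert} (hS : S.Finite) {v : Vert} (hv : v ∈ S) (w : Config) :
    (KO (Function.update w (sv v) true) S : ℤ) - KO (Function.update w (sv v) false) S =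
      1 - (∑ i ∈ Finset.range 4, if nb v i ∈ S ∧ w (sv (nb v i)) = true then (1 : ℤ) else 0) +
        ∑ i ∈ Finset.Icc 1 3, if sit w ∈ Dn S v i then (1 : ℤ) else 0 := by
  have hs0 : sit (Function.update w (sv v) false) = closeV v (sit w) := sit_shut v w
  set w1 := Function.update w (sv v) true with hw1
  set w0 := Function.update w (sv v) false with hw0
  have hv1 : w1 (sv v) = true := by rw [hw1]; simp
  have hv0 : w0 (sv v) = false := by rw [hw0]; simp
  have hu1 : ∀ u, u ≠ v → w1 (sv u) = w (sv u) := fun u hu => by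
    rw [hw1, Function.update_of_ne (sv_ne hu)]
  have hu0 : ∀ u, u ≠ v → w0 (sv u) = w (sv u) := fun u hu => by
    rw [hw0, Function.update_of_ne (sv_ne hu)]
  have hle : ∀ e, w0 e = true → w1 e = true := by
    intro e he
    by_cases h : e = sv v
    · subst h; exact hv1
    · rw [hw0, Function.update_of_ne h] at he
      rw [hw1, Function.update_of_ne h]
      exact he
  have hmono : ∀ {a b : Vert}, Conn (sit w0) S a b → Conn (sit w1) S a b := fun h =>
    h.mono subset_rfl (Pool.Agent.H83.SK.sit_mono hle)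
  have hedge : ∀ e : Edge, src e ≠ v → tgt e ≠ v → sit w1 e = sit w0 e := by
    intro e h1 h2
    simp only [sit]
    rw [hu1 _ h1, hu1 _ h2, hu0 _ h1, hu0 _ h2]
  -- `v` is isolated in `w0`
  have hiso : ∀ {a : Vert}, Conn (sit w0) S a v → a = v := by
    intro a h
    by_contra hne
    have := kc_right h hne
    rw [hv0] at this
    exact Bool.false_ne_true this
  -- the connection to `v` in `w1`
  have hnbv : ∀ i, nb v i ∈ S → w (sv (nb v i)) = true → Conn (sit w1) S (nb v i) v := by
    intro i hi ho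
    obtain ⟨e, he⟩ := nb_Nb v i
    have h3 : w1 (sv (nb v i)) = true := by rw [hu1 _ (kc_nb_ne_v v i)]; exact ho
    refine (Step.conn ⟨hv, hi, e, he, ?_⟩ : Conn (sit w1) S v (nb v i)).symm
    rw [Pool.Agent.H83.SK.sit_true]
    rcases he with ⟨h1, h2⟩ | ⟨h1, h2⟩
    · rw [← h1, ← h2]; exact ⟨hv1, h3⟩
    · rw [← h1, ← h2]; exact ⟨h3, hv1⟩
  have hto : ∀ u, u ≠ v → Conn (sit w1) S u v →
      ∃ i, i < 4 ∧ nb v i ∈ S ∧ w (sv (nb v i)) = true ∧ Conn (sit w0) S u (nb v i) := by
    intro u hu h
    obtain ⟨x, y, h1, h2, h3, -⟩ := h.exists_hit (T := {v}) hu rfl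
    have hy : y = v := h3
    subst hy
    have hxS : x ∈ S ∧ x ≠ y := h1.mem_right
    have hopen : w (sv x) = true := by
      rw [← hu1 x hxS.2]
      exact kc_left h2.conn hxS.2
    have hnb : Nb y x := by
      obtain ⟨-, -, e, he, -⟩ := h2
      exact ⟨e, by rcases he with he | he; exacts [Or.inr ⟨he.2, he.1⟩, Or.inl ⟨he.2, he.1⟩]⟩
    obtain ⟨i, hi, rfl⟩ := hnb.exists_nb
    refine ⟨i, hi, hxS.1, hopen, ?_⟩
    have h4 : Conn (sit w0) (S \ {y}) u (nb y i) :=
      h1.congr fun e he1 he2 => hedge e he1.2 he2.2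
    exact h4.mono_set Set.sdiff_subset
  have hfar : ∀ u x, ¬ Conn (sit w1) S u v → Conn (sit w1) S u x → Conn (sit w0) S u x := by
    intro u x hn h
    have h' : Conn (sit w1) S u x ∧ Conn (sit w0) S u x := by
      refine h.induction_right (P := fun z => Conn (sit w1) S u z ∧ Conn (sit w0) S u z)
        ⟨Conn.refl h.mem_left, Conn.refl h.mem_left⟩ ?_
      rintro a b _ hab ⟨h1, h2⟩
      have hb : Conn (sit w1) S u b := h1.tail hab
      refine ⟨hb, h2.tail ?_⟩
      have ha' : a ≠ v := fun h => hn (h ▸ h1)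
      have hb' : b ≠ v := fun h => hn (h ▸ hb)
      obtain ⟨h3, h4, e, he, ho⟩ := hab
      obtain ⟨h5, h6⟩ := kc_joins he ha' hb'
      exact ⟨h3, h4, e, he, by rw [← hedge e h5 h6]; exact ho⟩
    exact h'.2
  -- clusters
  set cl : Vert → Set Vert := fun u => {x | Conn (sit w0) S u x} with hcl
  have hcl_eq : ∀ {a b : Vert}, Conn (sit w0) S a b → cl a = cl b := by
    intro a b h
    ext x
    exact ⟨fun h' => h.symm.trans h', fun h' => h.trans h'⟩
  have hcl_conn : ∀ {a b : Vert}, b ∈ S → cl a = cl b → Conn (sit w0) S a b := by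
    intro a b hb h
    have : b ∈ cl b := Conn.refl hb
    rw [← h] at this
    exact this
  obtain ⟨P, hP⟩ : ∃ P : ℕ → Prop, ∀ i, P i ↔ (nb v i ∈ S ∧ w (sv (nb v i)) = true) :=
    ⟨fun i => nb v i ∈ S ∧ w (sv (nb v i)) = true, fun _ => Iff.rfl⟩
  set M : Finset (Set Vert) := ((Finset.range 4).filter P).image (fun i => cl (nb v i)) with hM
  set A : Set (Set Vert) := {C | ∃ u ∈ S, u ≠ v ∧ w (sv u) = true ∧ ¬ Conn (sit w1) S u v ∧
    C = cl u} with hA
  have hAfin : A.Finite := by
    refine (hS.image cl).subset ?_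
    rintro C ⟨u, hu, -, -, -, rfl⟩
    exact ⟨u, hu, rfl⟩
  have h0 : oClus w0 S = A ∪ (M : Set (Set Vert)) := by
    ext C
    constructor
    · rintro ⟨u, hu, ho, rfl⟩
      have huv : u ≠ v := by
        rintro rfl
        rw [hv0] at ho
        exact Bool.false_ne_true ho
      rw [hu0 u huv] at ho
      by_cases hc : Conn (sit w1) S u v
      · right
        obtain ⟨i, hi, h1, h2, h3⟩ := hto u huv hc
        rw [hM, Finset.mem_coe, Finset.mem_image]
        refine ⟨i, ?_, (hcl_eq h3).symm⟩
        rw [Finset.mem_filter, Finset.mem_range]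
        exact ⟨hi, (hP i).2 ⟨h1, h2⟩⟩
      · left
        exact ⟨u, hu, huv, ho, hc, rfl⟩
    · rintro (⟨u, hu, huv, ho, -, rfl⟩ | hC)
      · exact ⟨u, hu, by rw [hu0 u huv]; exact ho, rfl⟩
      · rw [hM, Finset.mem_coe, Finset.mem_image] at hC
        obtain ⟨i, hi, rfl⟩ := hC
        rw [Finset.mem_filter, hP] at hi
        exact ⟨nb v i, hi.2.1, by rw [hu0 _ (kc_nb_ne_v v i)]; exact hi.2.2, rfl⟩
  have hdisj : Disjoint A (M : Set (Set Vert)) := by
    rw [Set.disjoint_left]
    rintro C ⟨u, hu, huv, ho, hn, rfl⟩ hC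
    rw [hM, Finset.mem_coe, Finset.mem_image] at hC
    obtain ⟨i, hi, h1⟩ := hC
    rw [Finset.mem_filter, hP] at hi
    exact hn ((hmono (hcl_conn hi.2.1 h1.symm)).trans (hnbv i hi.2.1 hi.2.2))
  have h1 : oClus w1 S = insert {x | Conn (sit w1) S v x} A := by
    ext C
    rw [Set.mem_insert_iff]
    constructor
    · rintro ⟨u, hu, ho, rfl⟩
      by_cases hc : Conn (sit w1) S u v
      · left
        ext x
        exact ⟨fun h => hc.symm.trans h, fun h => hc.trans h⟩
      · right
        have huv : u ≠ v := fun h => hc (h ▸ Conn.refl hu)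
        rw [hu1 u huv] at ho
        refine ⟨u, hu, huv, ho, hc, ?_⟩
        ext x
        exact ⟨fun h => hfar u x hc h, fun h => hmono h⟩
    · rintro (rfl | ⟨u, hu, huv, ho, hc, rfl⟩)
      · exact ⟨v, hv, hv1, rfl⟩
      · refine ⟨u, hu, by rw [hu1 u huv]; exact ho, ?_⟩
        ext x
        exact ⟨fun h => hmono h, fun h => hfar u x hc h⟩
  have hnot : {x | Conn (sit w1) S v x} ∉ A := by
    rintro ⟨u, hu, huv, ho, hc, h⟩
    have : v ∈ {x | Conn (sit w1) S v x} := Conn.refl hv
    rw [h] at this
    exact huv (hiso this)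
  have hK1 : KO w1 S = A.ncard + 1 := by
    unfold KO
    rw [h1, Set.ncard_insert_of_notMem hnot hAfin]
  have hK0 : KO w0 S = A.ncard + M.card := by
    unfold KO
    rw [h0, Set.ncard_union_eq hdisj hAfin M.finite_toSet, Set.ncard_coe_finset]
  have hMc : (M.card : ℤ) = ∑ i ∈ Finset.range 4,
      if P i ∧ ¬ ∃ j < i, P j ∧ cl (nb v j) = cl (nb v i) then (1 : ℤ) else 0 := by
    have hc := kc_card P (fun i => cl (nb v i)) 4
    rw [hM]
    exact hc
  have hkey : ∀ i ∈ Finset.range 4,
      (if P i ∧ ¬ ∃ j < i, P j ∧ cl (nb v j) = cl (nb v i) then (1 : ℤ) else 0) =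
      (if P i then (1 : ℤ) else 0) - if sit w ∈ Dn S v i then (1 : ℤ) else 0 := by
    intro i hi
    have hi4 : i < 4 := Finset.mem_range.1 hi
    by_cases hD : sit w ∈ Dn S v i
    · obtain ⟨j, hj, hc⟩ := hD
      rw [← hs0] at hc
      have hne := kc_nb_ne v hi4 hj
      have hPj : P j := (hP j).2 ⟨hc.mem_left, by
        rw [← hu0 _ (kc_nb_ne_v v j)]; exact kc_left hc hne⟩
      have hPi : P i := (hP i).2 ⟨hc.mem_right, by
        rw [← hu0 _ (kc_nb_ne_v v i)]; exact kc_right hc hne⟩
      rw [if_neg (fun h => h.2 ⟨j, hj, hPj, hcl_eq hc⟩), if_pos hPi,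
        if_pos (show sit w ∈ Dn S v i from ⟨j, hj, by rw [← hs0]; exact hc⟩)]
      ring
    · rw [if_neg hD, sub_zero]
      by_cases hPi : P i
      · rw [if_pos hPi, if_pos]
        refine ⟨hPi, ?_⟩
        rintro ⟨j, hj, hPj, h⟩
        exact hD ⟨j, hj, by rw [← hs0]; exact hcl_conn ((hP i).1 hPi).1 h⟩
      · rw [if_neg hPi, if_neg (fun h => hPi h.1)]
  have hD0 : ¬ sit w ∈ Dn S v 0 := by
    rintro ⟨j, hj, -⟩
    omega
  have hIcc : ∑ i ∈ Finset.Icc 1 3, (if sit w ∈ Dn S v i then (1 : ℤ) else 0) =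
      ∑ i ∈ Finset.range 4, if sit w ∈ Dn S v i then (1 : ℤ) else 0 := by
    have : Finset.Icc 1 3 = ({1, 2, 3} : Finset ℕ) := by decide
    rw [this]
    simp only [Finset.sum_range_succ, Finset.sum_range_zero, if_neg hD0]
    rw [Finset.sum_insert (by decide), Finset.sum_insert (by decide), Finset.sum_singleton]
    ring
  have hP4 : ∑ i ∈ Finset.range 4, (if P i then (1 : ℤ) else 0) =
      ∑ i ∈ Finset.range 4, if nb v i ∈ S ∧ w (sv (nb v i)) = true then (1 : ℤ) else 0 := by
    refine Finset.sum_congr rfl fun i _ => ?_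
    by_cases h : P i
    · rw [if_pos h, if_pos ((hP i).1 h)]
    · rw [if_neg h, if_neg fun h' => h ((hP i).2 h')]
  rw [Finset.sum_congr rfl hkey, Finset.sum_sub_distrib, hP4] at hMc
  rw [hK1, hK0, hIcc]
  push_cast
  rw [hMc]
  ring

end Pool.Agent.H92.SN

end

section

/-!
# Exploration of the clusters of the cutting lines of the torus, block by block (sites)
-/

open MeasureTheory ProbabilityTheory unitInterval

namespace Pool.Agent.H13.SK

open Pool.Agent.H89.Perc Pool.Agent.H85.Kes
open Pool.Agent.H83.SK (sit sv sit_true)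
open Pool.Agent.H92.SN (tSites WindS)
open Pool.Agent.H83.SK.WG (mem_tSites)

section state

variable {κ : Type*} [DecidableEq κ]

end state

/-! ### The clusters of the cutting lines -/

/-! ### The rule -/

section rule

variable {κ : Type*} [DecidableEq κ]

end rule

end Pool.Agent.H13.SK

end

section

/-!
# Pivotal blocks of the torus (sites): translations, two distinct crossing clusters
-/

open MeasureTheory ProbabilityTheory unitInterval

namespace Pool.Agent.H13.SK

open Pool.Agent.H89.Perc Pool.Agent.H85.Kes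
open Pool.Agent.H83.SK (sit sv)
open Pool.Agent.H92.SN (tSites WindS blkS BlockPiv)
open Pool.Agent.H83.SK.WG (mem_tSites)
open Pool.Agent.H61.NC (Two Ring mid)

/-! ### Translations -/

theorem sit_shiftE (η : Config) (z : Vert) :
    sit (fun f => η (shiftE z f)) = fun f => sit η (shiftE z f) := by
  funext ⟨x, y, t⟩
  cases t
  · simp only [sit, shiftE, sv, src, tgt]
    simp only [Bool.false_eq_true, if_false]
    rw [add_right_comm]
  · simp only [sit, shiftE, sv, src, tgt]
    simp only [if_true]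
    rw [add_right_comm y 1]

/-! ### A pivotal block has two distinct crossing clusters around it -/

end Pool.Agent.H13.SK

end

section

/-!
# Opening a closed site of a periodic configuration
-/

set_option autoImplicit false

open MeasureTheory ProbabilityTheory unitInterval

namespace Pool.Agent.H92.SN

open Pool.Agent.H89.Perc
open Pool.Agent.H61.NC (modE)
open Pool.Agent.H83.SK (sv sit)
open Pool.Agent.H90.AL (IsPer)

theorem isPer_sit {N : ℕ} {η : Config} (h : IsPer N η) : IsPer N (sit η) := by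
  intro a b f
  have h1 := sit_shiftE (a * N, b * N) η
  have h2 : (fun f => η (shiftE (a * N, b * N) f)) = η := by
    funext e
    exact h a b e
  rw [h2] at h1
  exact (congrFun h1 f).symm

/-- The sites which are translates of a site of the torus. -/
theorem modE_eq_iff {N : ℕ} {v : Vert} (hv : sv v ∈ tSites N) (u : Vert) :
    modE N (sv u) = sv v ↔ ∃ a b : ℤ, u = (v.1 + a * N, v.2 + b * N) := by
  rw [mem_tSites] at hv
  constructor
  · intro h
    simp only [modE, sv, Prod.mk.injEq, and_true] at h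
    refine ⟨u.1 / N, u.2 / N, ?_⟩
    rw [← h.1, ← h.2]
    ext
    · simp only
      rw [Int.emod_add_ediv_mul]
    · simp only
      rw [Int.emod_add_ediv_mul]
  · rintro ⟨a, b, rfl⟩
    simp only [modE, sv, Prod.mk.injEq, and_true]
    simp only [sv] at hv
    rw [Int.add_mul_emod_self_right, Int.add_mul_emod_self_right,
      Int.emod_eq_of_lt hv.1.1 hv.1.2, Int.emod_eq_of_lt hv.2.1.1 hv.2.1.2]
    exact ⟨rfl, rfl⟩

/-- In the ball the torus configuration with the translates of `v` closed is the configuration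
with `v` closed. -/
theorem sit_per_ball {N r : ℕ} (hN : 2 * r < N) {v : Vert} (hv : sv v ∈ tSites N) (w : Config)
    {e : Edge} (h1 : src e ∈ ball v r) (h2 : tgt e ∈ ball v r) :
    sit (per N (Function.update w (sv v) false)) e = closeV v (sit (per N w)) e := by
  have key : ∀ u : Vert, u ∈ ball v r →
      per N (Function.update w (sv v) false) (sv u) = Function.update (per N w) (sv v) false (sv u) := by
    intro u hu
    by_cases huv : u = v
    · subst huv
      rw [per_sv, (modE_eq_iff hv u).2 ⟨0, 0, by simp⟩, Function.update_self, Function.update_self]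
    · rw [Function.update_of_ne (sv_ne huv), per_sv, per_sv, Function.update_of_ne]
      intro h3
      rw [modE_eq_iff hv] at h3
      obtain ⟨a, b, rfl⟩ := h3
      apply huv
      rw [mem_ball] at hu
      simp only at hu
      have hN' : (2 * r : ℤ) < N := by exact_mod_cast hN
      have key : ∀ c x : ℤ, x - r ≤ x + c * N → x + c * N ≤ x + r → c = 0 := by
        intro c x h1 h2
        by_contra h0
        rcases lt_or_gt_of_ne h0 with h5 | h5
        · have h6 : c * N ≤ -1 * N := mul_le_mul_of_nonneg_right (by omega) (by omega)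
          omega
        · have h6 : 1 * N ≤ c * N := mul_le_mul_of_nonneg_right (by omega) (by omega)
          omega
      rw [key a v.1 hu.1 hu.2.1, key b v.2 hu.2.2.1 hu.2.2.2]
      simp
  rw [← sit_shut]
  unfold shut
  simp only [sit]
  rw [key _ h1, key _ h2]

end Pool.Agent.H92.SN

end

section

/-!
# A pivotal site for the winding event has four arms
-/

set_option autoImplicit false

open MeasureTheory ProbabilityTheory unitInterval

namespace Pool.Agent.H92.SN

open Pool.Agent.H89.Perc
open Pool.Agent.H83.SK (sv sit)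

/-- If there are no four arms then all neighbours which reach the sphere are joined. -/
theorem noFour_of_notMem {N : ℕ} {v : Vert} (hv : sv v ∈ tSites N) {r : ℕ} (hN : 2 * r < N)
    {w : Config} (h : w ∉ A4T N v r) :
    NoFour v r (sit (per N (Function.update w (sv v) false)))
      (sit (per N (Function.update w (sv v) true))) := by
  have key : ∀ x y, Conn (sit (per N (Function.update w (sv v) false))) (ball v r) x y ↔
      Conn (closeV v (sit (per N w))) (ball v r) x y := by
    intro x y
    exact ⟨fun h => h.congr fun e h1 h2 => sit_per_ball hN hv w h1 h2,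
      fun h => h.congr fun e h1 h2 => (sit_per_ball hN hv w h1 h2).symm⟩
  rintro p q hp hq ⟨u, hu, h1⟩ ⟨u', hu', h2⟩
  by_contra h3
  apply h
  rw [key] at h1 h2 h3
  exact ⟨p, q, Step.nb hp, Step.nb hq, ⟨u, hu, h1⟩, ⟨u', hu', h2⟩, h3⟩

end Pool.Agent.H92.SN

end

section

/-!
# Pairs of sites of the torus
-/

set_option autoImplicit false

open MeasureTheory ProbabilityTheory unitInterval

namespace Pool.Agent.H92.SN

open Pool.Agent.H89.Perc
open Pool.Agent.H61.NC (fill mid upd Joint PrR' dist0 Joint_piv localOn_upd modE)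
open Pool.Agent.H83.SK (sv sit)

/-- The sites on which the four-arm event of `f` depends. -/
noncomputable def PairS (N : ℕ) (f : Edge) (r : ℕ) : Finset Edge :=
  (sBall (src f) r).image (modE N)

private lemma Pair_modE {N : ℕ} {e : Edge} (he : e ∈ tSites N) : modE N e = e := by
  rw [mem_tSites] at he
  obtain ⟨x, y, t⟩ := e
  simp only at he
  simp only [modE]
  rw [Int.emod_eq_of_lt he.1.1 he.1.2, Int.emod_eq_of_lt he.2.1.1 he.2.1.2]

lemma Pair_self {N : ℕ} {f : Edge} (hf : f ∈ tSites N) (r : ℕ) : f ∈ PairS N f r := by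
  unfold PairS
  rw [Finset.mem_image]
  refine ⟨f, ?_, Pair_modE hf⟩
  rw [mem_sBall]
  exact ⟨self_mem_ball, (mem_tSites.1 hf).2.2⟩

lemma Pair_sub {N ρ R : ℕ} {f : Edge} (h3 : dist0 N f + ρ ≤ R) (h4 : 2 * R + 2 ≤ N) :
    PairS N f ρ ⊆ blkS N R := by
  intro x hx
  unfold PairS at hx
  rw [Finset.mem_image] at hx
  obtain ⟨e, he, hx1⟩ := hx
  rw [mem_sBall, Pool.Agent.H89.Perc.mem_ball] at he
  simp only [src] at he
  unfold dist0 mid at h3
  have h5 : (f.1 - (N : ℤ) / 2).natAbs + ρ ≤ R := by
    have := le_max_left (f.1 - (N : ℤ) / 2).natAbs (f.2.1 - (N : ℤ) / 2).natAbs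
    omega
  have h6 : (f.2.1 - (N : ℤ) / 2).natAbs + ρ ≤ R := by
    have := le_max_right (f.1 - (N : ℤ) / 2).natAbs (f.2.1 - (N : ℤ) / 2).natAbs
    omega
  have h7 : e ∈ tSites N := by
    rw [mem_tSites]
    exact ⟨by omega, by omega, he.2⟩
  rw [Pair_modE h7] at hx1
  rw [← hx1]
  unfold mid at *
  rw [mem_blkS]
  unfold mid
  exact ⟨by omega, by omega, he.2⟩

theorem BlockPiv_of_fill {N R : ℕ} {w w1 w0 : Config} (h1 : w1 ∈ WindS N) (h0 : w0 ∉ WindS N)
    (k1 : ∀ x, x ∉ blkS N R → w1 x = w x) (k0 : ∀ x, x ∉ blkS N R → w0 x = w x) :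
    w ∈ BlockPiv N R := by
  constructor
  · refine incr_WindS N _ _ (fun x hx => ?_) h1
    by_cases hxb : x ∈ blkS N R
    · exact fill_mem hxb
    · rw [fill_notMem hxb, ← k1 x hxb]
      exact hx
  · intro h
    refine h0 (incr_WindS N _ _ (fun x hx => ?_) h)
    by_cases hxb : x ∈ blkS N R
    · rw [fill_mem hxb] at hx
      exact absurd hx (by decide)
    · rw [fill_notMem hxb] at hx
      rwa [k0 x hxb]

/-- On the joint event a block which contains both sites is pivotal. -/
lemma Pair_joint_blk {N R : ℕ} {e f : Edge} (hef : e ≠ f) (he : e ∈ blkS N R)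
    (hf : f ∈ blkS N R) : Joint (WindS N) e f ⊆ BlockPiv N R := by
  intro ω hω
  obtain ⟨⟨b, hb1, hb2⟩, -⟩ := Joint_piv (incr_WindS N) hef hω
  have key : ∀ c : Bool, ∀ x, x ∉ blkS N R →
      Function.update (Function.update ω f b) e c x = ω x := by
    intro c x hx
    have n1 : x ≠ e := by
      rintro rfl
      exact hx he
    have n2 : x ≠ f := by
      rintro rfl
      exact hx hf
    rw [Function.update_of_ne n1, Function.update_of_ne n2]
  exact BlockPiv_of_fill hb1 hb2 (key true) (key false)

end Pool.Agent.H92.SN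

end

section

/-!
# The sum over pairs of sites
-/

set_option autoImplicit false

open MeasureTheory ProbabilityTheory unitInterval

namespace Pool.Agent.H92.SN

open Pool.Agent.H89.Perc
open Pool.Agent.H61.NC (fill mid upd Joint PrR' dist0 Sum_rpow Sum_eight)
open Pool.Agent.H83.SK (sv sit)

theorem Sum_card_sBall (v : Vert) (s : ℕ) : (sBall v s).card = (2 * s + 1) ^ 2 := by
  unfold sBall
  rw [Finset.card_product, Finset.card_product, Int.card_Icc, Int.card_Icc,
    Finset.card_singleton]
  have h : (v.1 + (s : ℤ) + 1 - (v.1 - s)).toNat = 2 * s + 1 := by omega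
  have h' : (v.2 + (s : ℤ) + 1 - (v.2 - s)).toNat = 2 * s + 1 := by omega
  rw [h, h']
  ring

/-- The influences at scale `N` are comparable to the four-arm probability at scale `N / 64`. -/
theorem a4_le_sT (hGL : GLTorus) (hBL : BlockLow) : ∀ c : ℝ, 0 < c → ∃ C : ℝ, 0 < C ∧
    ∀ (N : ℕ) (q : I), 64 ≤ N → SReg c N q → a4 q (N / 64) ≤ C * sT q N := by
  intro c hc
  obtain ⟨C1, hC1, h1⟩ := hGL c hc
  obtain ⟨C2, δ, hC2, hδ, h2⟩ := hBL c hc
  refine ⟨64 * C1 * C2, by positivity, fun N q hN hR => ?_⟩
  obtain ⟨r, hr⟩ : ∃ r, r = N / 64 := ⟨_, rfl⟩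
  rw [← hr]
  have hr1 : 1 ≤ r := by omega
  have hrN : 64 * r ≤ N := by omega
  have hrN' : N ≤ 128 * r := by omega
  have k1 := h1 N r q hr1 hrN hR
  have k2 := h2 N (16 * r) q (by omega) (by omega) hR
  have hNpos : (0 : ℝ) < N := by exact_mod_cast (by omega : 0 < N)
  have hx1 : (1 / 8 : ℝ) ≤ ((16 * r : ℕ) : ℝ) / N := by
    rw [le_div_iff₀ hNpos]
    have : (N : ℝ) ≤ 128 * r := by exact_mod_cast hrN'
    push_cast
    linarith only [this]
  have hx2 : ((16 * r : ℕ) : ℝ) / N ≤ 1 := by
    rw [div_le_one hNpos]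
    exact_mod_cast (by omega : 16 * r ≤ N)
  have hx0 : 0 < ((16 * r : ℕ) : ℝ) / N := by linarith only [hx1]
  have k3 : (1 / 64 : ℝ) ≤ (((16 * r : ℕ) : ℝ) / N) ^ (2 - δ) := by
    calc (1 / 64 : ℝ) = (1 / 8 : ℝ) ^ 2 := by norm_num
      _ ≤ (((16 * r : ℕ) : ℝ) / N) ^ 2 := by gcongr
      _ = (((16 * r : ℕ) : ℝ) / N) ^ (2 : ℝ) := (Real.rpow_two _).symm
      _ ≤ _ := Real.rpow_le_rpow_of_exponent_ge hx0 hx2 (by linarith only [hδ])
  have k4 : 1 ≤ 64 * C2 * Pr q (BlockPiv N (16 * r)) := by linarith only [k2, k3]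
  have ha := a4_nonneg q r
  calc a4 q r = a4 q r * 1 := (mul_one _).symm
    _ ≤ a4 q r * (64 * C2 * Pr q (BlockPiv N (16 * r))) := mul_le_mul_of_nonneg_left k4 ha
    _ = 64 * C2 * (a4 q r * Pr q (BlockPiv N (16 * r))) := by ring
    _ ≤ 64 * C2 * (C1 * sT q N) := mul_le_mul_of_nonneg_left k1 (by positivity)
    _ = _ := by ring

end Pool.Agent.H92.SN

end

section

/-!
# Near-critical stability of the influences
-/

set_option autoImplicit false

open MeasureTheory ProbabilityTheory unitInterval

namespace Pool.Agent.H92.SN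

open Pool.Agent.H89.Perc
open Pool.Agent.H61.NC (fill mid upd Joint PrR' dist0 PrR'_eq hasDerivAt_PrR_eq hasDerivAt_PrR' abs_second_le)
open Pool.Agent.H83.SK (sv sit)

theorem FT'_eq {N : ℕ} (hN : 1 ≤ N) (q : I) : FT' N q = (N : ℝ) ^ 2 * sT q N := by
  unfold FT'
  rw [PrR'_eq (localOn_WindS hN), sum_pivot hN]

end Pool.Agent.H92.SN

end

section

/-!
# Scaling relations for the four-arm probability
-/

set_option autoImplicit false

open MeasureTheory ProbabilityTheory unitInterval

namespace Pool.Agent.H92.SN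

open Pool.Agent.H89.Perc
open Pool.Agent.H61.NC (fill mid upd Joint PrR' dist0)
open Pool.Agent.H83.SK (sv sit)

end Pool.Agent.H92.SN

end

section

/-!
# Uniform decay of the four-arm probability
-/

set_option autoImplicit false

open MeasureTheory ProbabilityTheory unitInterval Filter Topology

namespace Pool.Agent.H92.SN

open Pool.Agent.H89.Perc
open Pool.Agent.H29.Sep (Circ eCirc circ_ring ann)
open Pool.Agent.H83.SK (sv sit)

end Pool.Agent.H92.SN

end

section

/-!
# Pivotal sites of the connection event on the torus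
-/

set_option autoImplicit false

open MeasureTheory ProbabilityTheory unitInterval

namespace Pool.Agent.H92.SN

open Pool.Agent.H89.Perc
open Pool.Agent.H61.NC (modE mid)
open Pool.Agent.H83.SK (sv sit)
open Pool.Agent.H90.AL (IsPer dT dT_self dT_comm dT_tri dT_le_half dT_le_of exists_of_dT_le notMem_of_lt modE_mem modE_eq mem_tEdges_iff src_modE conn_per isPer_per A2_of_cross A2_congr modE_mem_SR' mem_SR)

/-! ### Events of annuli -/

lemma localOn_sitA2 (t R : ℕ) :
    LocalOn (sBall 0 R) {w | sit w ∈ Pool.Agent.H29.Sep.A2 t R} := by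
  intro w w' h hw
  exact A2_congr (fun e h1 h2 => sit_congr_ball h h1.1 h2.1) hw

lemma Pr_A2S (q : I) {N : ℕ} (c : Vert) {t R : ℕ} (hR : 2 * R < N) :
    Pr q (A2S N c t R) = Pool.Agent.H83.SK.Pr q (Pool.Agent.H29.Sep.A2 t R) := by
  have hinj : Set.InjOn (fun g : Edge => modE N (shiftE c g)) (sBall 0 R) := by
    intro e he e' he' hee
    have key : ∀ e, e ∈ sBall 0 R → shiftE c e ∈ sBall c R := by
      intro e he
      rw [mem_sBall, mem_ball] at he ⊢
      simp only [Prod.fst_zero, Prod.snd_zero] at he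
      refine ⟨?_, he.2⟩
      rw [src_shiftE]
      simp only
      omega
    exact shiftE_injective c (modE_injOn_sBall c hR (key e he) (key e' he') hee)
  unfold Pool.Agent.H83.SK.Pr
  rw [← Pr_comp (localOn_sitA2 t R) hinj]
  congr 1
  ext w
  simp only [A2S, Set.mem_ofPred_eq]
  rw [← sit_shiftE]
  exact Iff.rfl

/-! ### Pivotal sites -/

lemma isPer_cfgS (N : ℕ) (w : Config) : IsPer N (cfgS N w) := isPer_sit (isPer_per N _)

lemma cfgS_update {N : ℕ} {x : Vert} (hx : x ≠ cV N) (w : Config) (b : Bool) :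
    cfgS N (Function.update w (sv x) b) =
      sit (per N (Function.update (shut (cV N) w) (sv x) b)) := by
  unfold cfgS shut
  rw [Function.update_comm (sv_ne hx.symm)]

lemma dT_nb {N : ℕ} (hN : 1 ≤ N) {u v : Vert} (h : Nb v u) : dT N u v ≤ 1 := by
  refine dT_le_of hN 0 0 ?_
  simpa using h.mem_ball (r := 1) le_rfl

end Pool.Agent.H92.SN

end

section

/-!
# Probabilities of the corridor event and of the seals; locality
-/

set_option autoImplicit false

open MeasureTheory ProbabilityTheory unitInterval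

namespace Pool.Agent.H83.PST

open Pool.Agent.H89.Perc
open Pool.Agent.H61.NC (modE)
open Pool.Agent.H83.SK (sv sit sit_true RSWreg)
open Pool.Agent.H59.EX (LocS inE touch clus closeS Side T Mouth Fence dom pb grid)
open Pool.Agent.H26.ST (Cor PerInv sh TD Rel1 In)
open Pool.Agent.H92.SN (WindS tSites)

end Pool.Agent.H83.PST

end

section

/-!
# Lower bounds for the influence of a site of the torus; small tori
-/

set_option autoImplicit false

open MeasureTheory ProbabilityTheory unitInterval

namespace Pool.Agent.H83.PST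

open Pool.Agent.H89.Perc
open Pool.Agent.H61.NC (modE ctr mid)
open Pool.Agent.H83.SK (sv sit sit_true RSWreg sT sitT)
open Pool.Agent.H92.SN (WindS tSites mem_tSites localOn_WindS incr_WindS pivot_windS cE)

/-! ### Small tori -/

end Pool.Agent.H83.PST

end

section

/-!
# The two forms of the four-arm probability of a site

`SK.a4` sums over two kinds of pairs of neighbours of the origin, `SN.a4` is the probability of the
union over all pairs.
-/

set_option autoImplicit false

open MeasureTheory ProbabilityTheory unitInterval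

namespace Pool.Agent.H38.SKConv

open Pool.Agent.H89.Perc
open Pool.Agent.H59.EX (Gen closeS Four)
open Pool.Agent.H83.SK (s4 star0 IsAut isAut_swap isAut_reflX isAut_reflY sitT blkS)
open Pool.Agent.H92.SN (closeV A4 Nb WindS)
open Pool.Agent.H61.NC (fill blk mid)

variable {q : I} {r : ℕ}

end Pool.Agent.H38.SKConv

end
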