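import Pool.Agent.H94.BG.H31.PT.M15_2
import Pool.Agent.H94.BG.H31.PT.M18_5
import Pool.Agent.H94.BG.H31.PT.M25_4
import Pool.Agent.H94.BG.M07
import Pool.Agent.H94.BG.M20

/-! The parts of this file: H13.SK.SigmaTr, H13.SK.SigmaMono, H13.SK.Regime, H13.SK.LenOne, H92.SN.Tau, H92.SN.KCnt, H13.SK.TBlock, H13.SK.TTwo, H92.SN.Ret, H92.SN.Det, H92.SN.Pair, H92.SN.Sum, H92.SN.Main, H92.SN.Fin, H92.SN.Unif, H92.SN.Piv, H83.SK.PST.Prob, H83.SK.PST.Piv, H38.SK.Conv. -/

section

/-!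
# The mean cluster size as a sum of the two-point function
-/

set_option autoImplicit false

open MeasureTheory ProbabilityTheory unitInterval
open scoped ENNReal

namespace Pool.Agent.H13.SK

open Pool.Agent.H89.Perc Pool.Agent.H83.Site

end Pool.Agent.H13.SK

end

section

/-!
# The mean cluster size is nondecreasing in the density
-/

set_option autoImplicit false

open MeasureTheory ProbabilityTheory unitInterval
open scoped ENNReal

namespace Pool.Agent.H13.SK

open Pool.Agent.H89.Perc Pool.Agent.H83.Site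

end Pool.Agent.H13.SK

end

section

/-!
# The box-crossing regime of site percolation and the characteristic length
-/

set_option autoImplicit false

open MeasureTheory ProbabilityTheory unitInterval Filter Topology

namespace Pool.Agent.H13.SK

open Pool.Agent.H89.Perc Pool.Agent.H83.Site

end Pool.Agent.H13.SK

end

section

/-!
# The characteristic lengths on the two sides of the critical density

`NC a4 Wp Reg` collects the results of near-critical percolation on the torus which are used: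
`a4` is the four-arm probability, `Wp` the winding probability and `Reg` the box-crossing regime.
-/

set_option autoImplicit false

open MeasureTheory ProbabilityTheory unitInterval Filter Topology

namespace Pool.Agent.H13.SK

open Pool.Agent.H89.Perc Pool.Agent.H83.Site

end Pool.Agent.H13.SK

end

section

/-!
# The connection of the neighbours of a site
-/

set_option autoImplicit false

open MeasureTheory ProbabilityTheory unitInterval Filter Topology

namespace Pool.Agent.H92.SN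

open Pool.Agent.H89.Perc
open Pool.Agent.H61.NC (modE PrR' hasDerivAt_PrR_eq)
open Pool.Agent.H83.SK (sv sit)

end Pool.Agent.H92.SN

end

section

/-!
# The number of open clusters
-/

set_option autoImplicit false

open MeasureTheory ProbabilityTheory unitInterval

namespace Pool.Agent.H92.SN

open Pool.Agent.H89.Perc
open Pool.Agent.H83.SK (sv sit)

end Pool.Agent.H92.SN

end

section

/-!
# Exploration of the clusters of the cutting lines of the torus, block by block (sites)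
-/

open MeasureTheory ProbabilityTheory unitInterval

namespace Pool.Agent.H13.SK

open Pool.Agent.H89.Perc Pool.Agent.H85.Kes
open Pool.Agent.H83.SK (sit sv sit_true)
open Pool.Agent.H92.SN (tSites WindS)
open Pool.Agent.H83.SK.WG (mem_tSites localOn_windS incr_windS)

section state

variable {κ : Type*} [DecidableEq κ]

end state

/-! ### The clusters of the cutting lines -/

/-! ### The rule -/

section rule

variable {κ : Type*} [DecidableEq κ]

end rule

end Pool.Agent.H13.SK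

end

section

/-!
# Pivotal blocks of the torus (sites): translations, two distinct crossing clusters
-/

open MeasureTheory ProbabilityTheory unitInterval

namespace Pool.Agent.H13.SK

open Pool.Agent.H89.Perc Pool.Agent.H85.Kes
open Pool.Agent.H83.SK (sit sv)
open Pool.Agent.H92.SN (tSites WindS blkS BlockPiv)
open Pool.Agent.H83.SK.WG (mem_tSites localOn_windS incr_windS)
open Pool.Agent.H61.NC (Two Ring mid)

/-! ### Translations -/

/-! ### A pivotal block has two distinct crossing clusters around it -/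

end Pool.Agent.H13.SK

end

section

/-!
# Opening a closed site of a periodic configuration
-/

set_option autoImplicit false

open MeasureTheory ProbabilityTheory unitInterval

namespace Pool.Agent.H92.SN

open Pool.Agent.H89.Perc
open Pool.Agent.H61.NC (modE)
open Pool.Agent.H83.SK (sv sit)
open Pool.Agent.H90.AL (IsPer)

/-- Neighbours of `v`, shifted. -/
theorem AddSite.nb_out {N r : ℕ} {v : Vert} {η0 η1 : Config} (h : AddSite N v η0 η1) (hr : 1 ≤ r)
    (hN : 2 * r + 2 ≤ N) {p : Vert} (hp : Step η1 Set.univ v p) {a b a' b' : ℤ}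
    (hne : (a, b) ≠ (a', b')) :
    (p.1 + a * N, p.2 + b * N) ∉ ball (v.1 + a' * N, v.2 + b' * N) r := by
  intro hm
  have h1 := (Step.nb hp).mem_ball (r := 1) le_rfl
  rw [mem_ball] at hm h1
  simp only at hm
  push_cast at h1
  apply hne
  have hN' : (2 * r + 2 : ℤ) ≤ N := by exact_mod_cast hN
  have key : ∀ c c' x y : ℤ, y - 1 ≤ x → x ≤ y + 1 → y + c' * N - r ≤ x + c * N →
      x + c * N ≤ y + c' * N + r → c = c' := by
    intro c c' x y h1 h2 h3 h4
    by_contra h0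
    rcases lt_or_gt_of_ne h0 with h5 | h5
    · have h6 : (c + 1) * N ≤ c' * N := mul_le_mul_of_nonneg_right (by omega) (by omega)
      rw [add_mul, one_mul] at h6
      omega
    · have h6 : (c' + 1) * N ≤ c * N := mul_le_mul_of_nonneg_right (by omega) (by omega)
      rw [add_mul, one_mul] at h6
      omega
  rw [Prod.mk.injEq]
  exact ⟨key a a' p.1 v.1 h1.1 h1.2.1 hm.1 hm.2.1,
    key b b' p.2 v.2 h1.2.2.1 h1.2.2.2 hm.2.2.1 hm.2.2.2⟩

theorem AddSite.nb_off {N : ℕ} {v : Vert} {η0 η1 : Config} (h : AddSite N v η0 η1) (hN : 4 ≤ N)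
    {p : Vert} (hp : Step η1 Set.univ v p) (c d a b : ℤ) :
    ((p.1 + c * N, p.2 + d * N) : Vert) ≠ (v.1 + a * N, v.2 + b * N) := by
  by_cases hcd : (c, d) = (a, b)
  · obtain ⟨rfl, rfl⟩ := Prod.mk.inj hcd
    intro h1
    rw [Prod.mk.injEq] at h1
    exact (Step.nb hp).ne (Prod.ext (by linarith only [h1, h1.1]) (by linarith only [h1, h1.2]))
  · intro h1
    refine h.nb_out (r := 1) le_rfl (by omega) hp hcd ?_
    rw [h1]
    exact self_mem_ball

/-- Without four arms a winding path can avoid the translates of `v`. -/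
theorem wind_of_noFour {N r : ℕ} {v : Vert} {η0 η1 : Config} (hr : 1 ≤ r) (hN : 2 * r + 2 ≤ N)
    (h : AddSite N v η0 η1) (h4 : NoFour v r η0 η1) {u : Vert} {a b : ℤ} (hab : a ≠ 0 ∨ b ≠ 0)
    (hc : Conn η1 Set.univ u (u.1 + a * N, u.2 + b * N)) :
    ∃ u' : Vert, Conn η0 Set.univ u' (u'.1 + a * N, u'.2 + b * N) := by
  by_cases hT : ∃ c d : ℤ, Conn η1 Set.univ u (v.1 + c * N, v.2 + d * N)
  · obtain ⟨c, d, hcd⟩ := hT
    -- rotate the path
    have hrot : Conn η1 Set.univ (v.1 + c * N, v.2 + d * N)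
        (v.1 + (c + a) * N, v.2 + (d + b) * N) := by
      have h1 := Pool.Agent.H90.AL.conn_per h.per1 a b hcd
      have h2 := (hcd.symm.trans hc).trans h1
      have e1 : ((v.1 + c * N + a * N, v.2 + d * N + b * N) : Vert) =
          (v.1 + (c + a) * N, v.2 + (d + b) * N) := by
        ext <;> (simp only; ring)
      simp only at h2
      rw [e1] at h2
      exact h2
    obtain ⟨R, hR⟩ : ∃ R : Vert → Prop, ∀ p, R p ↔ (Step η1 Set.univ v p ∧
      ∃ u ∈ sphere v r, Conn η0 (ball v r) p u) := ⟨_, fun _ => Iff.rfl⟩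
    obtain ⟨B, hB⟩ : ∃ B : ℤ → ℤ → Prop, ∀ k l, B k l ↔ ((k = c ∧ l = d) ∨ ∃ p q, R p ∧ R q ∧
      Conn η0 Set.univ (p.1 + c * N, p.2 + d * N) (q.1 + k * N, q.2 + l * N)) :=
        ⟨_, fun _ _ => Iff.rfl⟩
    have key : ∃ k l, B k l ∧ (((v.1 + (c + a) * N, v.2 + (d + b) * N) : Vert) =
        (v.1 + k * N, v.2 + l * N) ∨ ∃ p, Step η1 Set.univ v p ∧
        Conn η0 Set.univ (p.1 + k * N, p.2 + l * N) (v.1 + (c + a) * N, v.2 + (d + b) * N)) := by
      refine hrot.induction_right (P := fun Y => ∃ k l, B k l ∧ (Y = (v.1 + k * N, v.2 + l * N) ∨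
        ∃ p, Step η1 Set.univ v p ∧ Conn η0 Set.univ (p.1 + k * N, p.2 + l * N) Y)) ?_ ?_
      · exact ⟨c, d, (hB c d).2 (Or.inl ⟨rfl, rfl⟩), Or.inl rfl⟩
      · rintro Y Y' - hs ⟨k, l, hkl, h1⟩
        rcases h1 with h1 | ⟨p, hp, h1⟩
        · subst h1
          refine ⟨k, l, hkl, Or.inr ⟨(Y'.1 - k * N, Y'.2 - l * N), step_per' h.per1 k l hs, ?_⟩⟩
          have e1 : ((Y'.1 - k * N + k * N, Y'.2 - l * N + l * N) : Vert) = Y' := by
            ext <;> (simp only; ring)
          simp only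
          rw [e1]
          exact Conn.refl (Set.mem_univ _)
        · have hoff := h.off (h.nb_off (by omega) hp k l) h1
          rcases h.step' hoff hs with h2 | ⟨k', l', q, hY', hq, hY⟩
          · exact ⟨k, l, hkl, Or.inr ⟨p, hp, h1.tail h2⟩⟩
          · by_cases hkk : (k, l) = (k', l')
            · obtain ⟨rfl, rfl⟩ := Prod.mk.inj hkk
              exact ⟨k, l, hkl, Or.inl hY'⟩
            · refine ⟨k', l', ?_, Or.inl hY'⟩
              rw [hY] at h1
              have hp' : R p := (hR p).2 ⟨hp, reach_of_conn h.per0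
                ((Step.nb hp).mem_ball hr) k l (h.nb_out hr hN hq (Ne.symm hkk)) h1⟩
              have hq' : R q := (hR q).2 ⟨hq, reach_of_conn h.per0
                ((Step.nb hq).mem_ball hr) k' l' (h.nb_out hr hN hp hkk) h1.symm⟩
              rw [hB] at hkl ⊢
              right
              rcases hkl with ⟨rfl, rfl⟩ | ⟨p0, q0, hp0, hq0, h3⟩
              · exact ⟨p, q, hp', hq', h1⟩
              · refine ⟨p0, q, hp0, hq', h3.trans (Conn.trans ?_ h1)⟩
                rw [hR] at hq0 hp'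
                exact Pool.Agent.H90.AL.conn_per h.per0 k l
                  ((h4 q0 p hq0.1 hp'.1 hq0.2 hp'.2).mono_set (Set.subset_univ _))
    obtain ⟨k, l, hkl, h1⟩ := key
    have hN0 : (0 : ℤ) < N := by
      have : (2 * r + 2 : ℤ) ≤ N := by exact_mod_cast hN
      omega
    have hk : k = c + a ∧ l = d + b := by
      rcases h1 with h1 | ⟨p, hp, h1⟩
      · rw [Prod.mk.injEq] at h1
        constructor
        · have := add_left_cancel h1.1
          exact (mul_right_cancel₀ hN0.ne' this).symm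
        · have := add_left_cancel h1.2
          exact (mul_right_cancel₀ hN0.ne' this).symm
      · exact absurd rfl (h.off (h.nb_off (by omega) hp k l) h1 (c + a) (d + b))
    obtain ⟨rfl, rfl⟩ := hk
    rw [hB] at hkl
    rcases hkl with ⟨h2, h3⟩ | ⟨p, q, hp, hq, h2⟩
    · exfalso
      rcases hab with h5 | h5 <;> omega
    · rw [hR] at hp hq
      refine ⟨(p.1 + c * N, p.2 + d * N), ?_⟩
      have h3 := Pool.Agent.H90.AL.conn_per h.per0 (c + a) (d + b)
        ((h4 q p hq.1 hp.1 hq.2 hp.2).mono_set (Set.subset_univ _))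
      have h5 := h2.trans h3
      have e1 : ((p.1 + (c + a) * N, p.2 + (d + b) * N) : Vert) =
          (p.1 + c * N + a * N, p.2 + d * N + b * N) := by
        ext <;> (simp only; ring)
      rw [e1] at h5
      exact h5
  · push Not at hT
    refine ⟨u, ?_⟩
    refine hc.induction_right (P := fun Y => Conn η0 Set.univ u Y) (Conn.refl (Set.mem_univ _)) ?_
    intro x y hux hs hx
    rcases h.step x y hs with h1 | ⟨a', b', h1 | h1⟩
    · exact hx.tail h1
    · rw [h1] at hux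
      exact absurd hux (hT a' b')
    · have := hux.tail hs
      rw [h1] at this
      exact absurd this (hT a' b')

/-- Without four arms a path between far vertices can avoid the translates of `v`. -/
theorem conn_of_noFour {N r : ℕ} {v : Vert} {η0 η1 : Config} (hr : 1 ≤ r) (hN : 2 * r + 2 ≤ N)
    (h : AddSite N v η0 η1) (h4 : NoFour v r η0 η1) {X Y : Vert}
    (hX : ∀ a b : ℤ, (X.1 - a * N, X.2 - b * N) ∉ ball v r)
    (hY : ∀ a b : ℤ, (Y.1 - a * N, Y.2 - b * N) ∉ ball v r)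
    (hc : Conn η1 Set.univ X Y) : Conn η0 Set.univ X Y := by
  have hconv : ∀ {Z : Vert}, (∀ a b : ℤ, (Z.1 - a * N, Z.2 - b * N) ∉ ball v r) → ∀ a b : ℤ,
      Z ∉ ball (v.1 + a * N, v.2 + b * N) r := by
    intro Z hZ a b hm
    apply hZ a b
    rw [mem_ball] at hm ⊢
    simp only at hm ⊢
    omega
  have hX' := hconv hX
  have hY' := hconv hY
  have hXoff : ∀ a b : ℤ, X ≠ (v.1 + a * N, v.2 + b * N) := fun a b h1 => hX' a b (by
    rw [h1]; exact self_mem_ball)
  obtain ⟨R, hR⟩ : ∃ R : Vert → Prop, ∀ p, R p ↔ (Step η1 Set.univ v p ∧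
    ∃ u ∈ sphere v r, Conn η0 (ball v r) p u) := ⟨_, fun _ => Iff.rfl⟩
  have key : Conn η0 Set.univ X Y ∨ ∃ k l q, R q ∧
      Conn η0 Set.univ X (q.1 + k * N, q.2 + l * N) ∧ (Y = (v.1 + k * N, v.2 + l * N) ∨
        ∃ p, Step η1 Set.univ v p ∧ Conn η0 Set.univ (p.1 + k * N, p.2 + l * N) Y) := by
    refine hc.induction_right (P := fun Z => Conn η0 Set.univ X Z ∨ ∃ k l q, R q ∧
      Conn η0 Set.univ X (q.1 + k * N, q.2 + l * N) ∧ (Z = (v.1 + k * N, v.2 + l * N) ∨
        ∃ p, Step η1 Set.univ v p ∧ Conn η0 Set.univ (p.1 + k * N, p.2 + l * N) Z))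
      (Or.inl (Conn.refl (Set.mem_univ _))) ?_
    rintro Z Z' - hs (h1 | ⟨k, l, q, hq, hXq, h1 | ⟨p, hp, h1⟩⟩)
    · rcases h.step' (h.off hXoff h1) hs with h2 | ⟨k, l, q, hZ', hq, hZ⟩
      · exact Or.inl (h1.tail h2)
      · right
        rw [hZ] at h1
        exact ⟨k, l, q, (hR q).2 ⟨hq, reach_of_conn h.per0 ((Step.nb hq).mem_ball hr) k l
          (hX' k l) h1.symm⟩, h1, Or.inl hZ'⟩
    · right
      subst h1
      refine ⟨k, l, q, hq, hXq, Or.inr ⟨(Z'.1 - k * N, Z'.2 - l * N),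
        step_per' h.per1 k l hs, ?_⟩⟩
      have e1 : ((Z'.1 - k * N + k * N, Z'.2 - l * N + l * N) : Vert) = Z' := by
        ext <;> (simp only; ring)
      simp only
      rw [e1]
      exact Conn.refl (Set.mem_univ _)
    · right
      have hoff := h.off (h.nb_off (by omega) hp k l) h1
      rcases h.step' hoff hs with h2 | ⟨k', l', q', hZ', hq', hZ⟩
      · exact ⟨k, l, q, hq, hXq, Or.inr ⟨p, hp, h1.tail h2⟩⟩
      · by_cases hkk : (k, l) = (k', l')
        · obtain ⟨rfl, rfl⟩ := Prod.mk.inj hkk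
          exact ⟨k, l, q, hq, hXq, Or.inl hZ'⟩
        · rw [hZ] at h1
          have hpR : R p := (hR p).2 ⟨hp, reach_of_conn h.per0
            ((Step.nb hp).mem_ball hr) k l (h.nb_out hr hN hq' (Ne.symm hkk)) h1⟩
          have hqR : R q' := (hR q').2 ⟨hq', reach_of_conn h.per0
            ((Step.nb hq').mem_ball hr) k' l' (h.nb_out hr hN hp hkk) h1.symm⟩
          refine ⟨k', l', q', hqR, hXq.trans (Conn.trans ?_ h1), Or.inl hZ'⟩
          rw [hR] at hq hpR
          exact Pool.Agent.H90.AL.conn_per h.per0 k l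
            ((h4 q p hq.1 hpR.1 hq.2 hpR.2).mono_set (Set.subset_univ _))
  rcases key with h1 | ⟨k, l, q, hq, hXq, h1 | ⟨p, hp, h1⟩⟩
  · exact h1
  · exact absurd (h1 ▸ self_mem_ball) (hY' k l)
  · have hpR : R p := (hR p).2 ⟨hp, reach_of_conn h.per0
      ((Step.nb hp).mem_ball hr) k l (hY' k l) h1⟩
    rw [hR] at hq hpR
    exact (hXq.trans (Pool.Agent.H90.AL.conn_per h.per0 k l
      ((h4 q p hq.1 hpR.1 hq.2 hpR.2).mono_set (Set.subset_univ _)))).trans h1

/-- If opening `v` joins `X` to `Y`, then the cluster of `X` contains a translate of a neighbour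
of `v`. -/
theorem touch_of_addSite {N : ℕ} {v : Vert} {η0 η1 : Config} (h : AddSite N v η0 η1) {X Y : Vert}
    (hX : ∀ a b : ℤ, X ≠ (v.1 + a * N, v.2 + b * N)) (h1 : Conn η1 Set.univ X Y)
    (h0 : ¬ Conn η0 Set.univ X Y) :
    ∃ (p : Vert) (a b : ℤ), Nb v p ∧ Conn η0 Set.univ X (p.1 + a * N, p.2 + b * N) := by
  have key : Conn η0 Set.univ X Y ∨ ∃ (p : Vert) (a b : ℤ), Nb v p ∧
      Conn η0 Set.univ X (p.1 + a * N, p.2 + b * N) := by
    refine h1.induction_right (P := fun Z => Conn η0 Set.univ X Z ∨ ∃ (p : Vert) (a b : ℤ),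
      Nb v p ∧ Conn η0 Set.univ X (p.1 + a * N, p.2 + b * N))
      (Or.inl (Conn.refl (Set.mem_univ _))) ?_
    rintro Z Z' - hs (h2 | h2)
    · rcases h.step' (h.off hX h2) hs with h3 | ⟨k, l, q, hZ', hq, hZ⟩
      · exact Or.inl (h2.tail h3)
      · right
        rw [hZ] at h2
        exact ⟨q, k, l, Step.nb hq, h2⟩
    · exact Or.inr h2
  rcases key with h2 | h2
  · exact absurd h2 h0
  · exact h2

/-- The configurations on the torus. -/
theorem addSite_sit {N : ℕ} {v : Vert} (hv : sv v ∈ tSites N) (w : Config) :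
    AddSite N v (sit (per N (Function.update w (sv v) false)))
      (sit (per N (Function.update w (sv v) true))) := by
  have hmono : ∀ e, Function.update w (sv v) false e = true →
      Function.update w (sv v) true e = true := by
    intro e he
    by_cases h : e = sv v
    · subst h; simp
    · rw [Function.update_of_ne h] at he ⊢
      exact he
  have hvv : modE N (sv v) = sv v := (modE_eq_iff hv v).2 ⟨0, 0, by simp⟩
  refine ⟨isPer_sit (Pool.Agent.H90.AL.isPer_per N _), isPer_sit (Pool.Agent.H90.AL.isPer_per N _),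
    ?_, ?_, ?_⟩
  · rintro x ⟨-, -, e, he, ho⟩
    rw [Pool.Agent.H83.SK.sit_true, per_sv, per_sv] at ho
    rcases he with ⟨h1, -⟩ | ⟨h1, -⟩
    · rw [← h1, hvv, Function.update_self] at ho
      exact absurd ho.1 (by decide)
    · rw [← h1, hvv, Function.update_self] at ho
      exact absurd ho.2 (by decide)
  · exact Pool.Agent.H83.SK.sit_mono fun e he => hmono _ he
  · rintro x y ⟨-, -, e, he, ho⟩
    by_cases h : sit (per N (Function.update w (sv v) false)) e = true
    · exact Or.inl ⟨Set.mem_univ _, Set.mem_univ _, e, he, h⟩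
    · right
      rw [Pool.Agent.H83.SK.sit_true, per_sv, per_sv] at h ho
      have h2 : modE N (sv (src e)) = sv v ∨ modE N (sv (tgt e)) = sv v := by
        by_contra hno
        push Not at hno
        apply h
        rw [Function.update_of_ne hno.1, Function.update_of_ne hno.2] at ho ⊢
        exact ho
      rw [modE_eq_iff hv, modE_eq_iff hv] at h2
      rcases h2 with ⟨a, b, h2⟩ | ⟨a, b, h2⟩ <;> refine ⟨a, b, ?_⟩ <;> rw [← h2] <;>
        rcases he with ⟨h3, h4⟩ | ⟨h3, h4⟩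
      · exact Or.inl h3
      · exact Or.inr h4
      · exact Or.inr h4
      · exact Or.inl h3

end Pool.Agent.H92.SN

end

section

/-!
# A pivotal site for the winding event has four arms
-/

set_option autoImplicit false

open MeasureTheory ProbabilityTheory unitInterval

namespace Pool.Agent.H92.SN

open Pool.Agent.H89.Perc
open Pool.Agent.H83.SK (sv sit)

theorem A4T_of_pivot {N : ℕ} {v : Vert} (hv : sv v ∈ tSites N) {r : ℕ} (hr : 1 ≤ r)
    (hN : 2 * r + 2 ≤ N) {w : Config} (h1 : Function.update w (sv v) true ∈ WindS N)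
    (h2 : Function.update w (sv v) false ∉ WindS N) : w ∈ A4T N v r := by
  by_contra h
  obtain ⟨u, a, b, ha, hc⟩ := h1
  obtain ⟨u', hc'⟩ := wind_of_noFour hr hN (addSite_sit hv w)
    (noFour_of_notMem hv (by omega) h) (Or.inl ha) hc
  exact h2 ⟨u', a, b, ha, hc'⟩

end Pool.Agent.H92.SN

end

section

/-!
# Pairs of sites of the torus
-/

set_option autoImplicit false

open MeasureTheory ProbabilityTheory unitInterval

namespace Pool.Agent.H92.SN

open Pool.Agent.H89.Perc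
open Pool.Agent.H61.NC (fill mid upd Joint PrR' dist0 Joint_piv localOn_upd modE)
open Pool.Agent.H83.SK (sv sit)

private lemma Pair_disj {N ρ : ℕ} {f : Edge} (hf : f ∈ tSites N)
    (h2 : 2 * ρ < dist0 N f) : Disjoint (PairS N (cE N) ρ) (PairS N f ρ) := by
  rw [Finset.disjoint_left]
  intro x hx hx'
  unfold PairS at hx hx'
  rw [Finset.mem_image] at hx hx'
  obtain ⟨e1, he1, hx1⟩ := hx
  obtain ⟨e2, he2, hx2⟩ := hx'
  rw [mem_sBall, Pool.Agent.H89.Perc.mem_ball] at he1 he2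
  rw [mem_tSites] at hf
  have h3 : modE N e1 = modE N e2 := hx1.trans hx2.symm
  simp only [modE, Prod.mk.injEq] at h3
  simp only [cE, mid, src] at he1 he2
  unfold dist0 at h2
  simp only [mid] at h2
  have g1 := Pair_one_dim hf.1.1 hf.1.2 ⟨he1.1.1, he1.1.2.1⟩ ⟨he2.1.1, he2.1.2.1⟩ h3.1
  have g2 := Pair_one_dim hf.2.1.1 hf.2.1.2 ⟨he1.1.2.2.1, he1.1.2.2.2⟩
    ⟨he2.1.2.2.1, he2.1.2.2.2⟩ h3.2.1
  rcases lt_max_iff.1 h2 with h | h
  · omega
  · omega

lemma Pair_localS (N : ℕ) (f : Edge) (r : ℕ) :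
    LocalOn (PairS N f r) (A4T N (src f) r) := localOn_A4T N (src f) r

theorem A4T_of_pivot' {N : ℕ} {f : Edge} (hf : f ∈ tSites N) {r : ℕ} (hr : 1 ≤ r)
    (hN : 2 * r + 2 ≤ N) {w : Config} (h1 : Function.update w f true ∈ WindS N)
    (h2 : Function.update w f false ∉ WindS N) : w ∈ A4T N (src f) r := by
  have hs : sv (src f) = f := sv_src (mem_tSites.1 hf).2.2
  refine A4T_of_pivot (by rw [hs]; exact hf) hr hN ?_ ?_
  · rw [hs]; exact h1
  · rw [hs]; exact h2

/-- On the joint event both sites have four arms. -/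
private lemma Pair_joint_sub {N ρ : ℕ} {f : Edge} (hf : f ∈ tSites N)
    (h1 : 1 ≤ ρ) (h2 : 2 * ρ < dist0 N f) (h3 : 2 * ρ + 2 ≤ N) :
    Joint (WindS N) (cE N) f ⊆ A4T N (src (cE N)) ρ ∩ A4T N (src f) ρ := by
  intro ω hω
  have hc : cE N ∈ tSites N := cE_mem (by omega)
  have hdis := Pair_disj hf h2
  obtain ⟨⟨b, hb1, hb2⟩, ⟨b', hb1', hb2'⟩⟩ := Joint_piv (incr_WindS N) (Pair_ne h2) hω
  constructor
  · have g := A4T_of_pivot' hc h1 h3 hb1 hb2
    refine Pair_localS N (cE N) ρ _ _ (fun e he => ?_) g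
    rw [Function.update_of_ne]
    rintro rfl
    exact Finset.disjoint_left.1 hdis he (Pair_self hf ρ)
  · have g := A4T_of_pivot' hf h1 h3 hb1' hb2'
    refine Pair_localS N f ρ _ _ (fun e he => ?_) g
    rw [Function.update_of_ne]
    rintro rfl
    exact Finset.disjoint_left.1 hdis (Pair_self hc ρ) he

private lemma Pair_prob (q : I) {N ρ : ℕ} {f : Edge} (hf : f ∈ tSites N)
    (h2 : 2 * ρ < dist0 N f) (h3 : 2 * ρ + 2 ≤ N) :
    Pr q (A4T N (src (cE N)) ρ ∩ A4T N (src f) ρ) = a4 q ρ ^ 2 := by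
  rw [Pr_inter_of_disjoint (Pair_localS N _ ρ) (Pair_localS N _ ρ) (Pair_disj hf h2),
    Pr_A4T q _ (by omega), Pr_A4T q _ (by omega), sq]

theorem Pr_joint_near (q : I) {N ρ R : ℕ} {f : Edge} (hf : f ∈ tSites N)
    (h1 : 1 ≤ ρ) (h2 : 2 * ρ < dist0 N f) (h3 : dist0 N f + ρ ≤ R) (h4 : 2 * R + 2 ≤ N) :
    Pr q (Joint (WindS N) (cE N) f) ≤ a4 q ρ ^ 2 * Pr q (BlockPiv N R) := by
  have hρ : 2 * ρ + 2 ≤ N := by omega
  have s1 : PairS N f ρ ⊆ blkS N R := Pair_sub h3 h4
  have s2 : PairS N (cE N) ρ ⊆ blkS N R := Pair_sub (by rw [Pair_dist_ctr]; omega) h4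
  have hc : cE N ∈ tSites N := cE_mem (by omega)
  have hsub : Joint (WindS N) (cE N) f ⊆
      (A4T N (src (cE N)) ρ ∩ A4T N (src f) ρ) ∩ BlockPiv N R :=
    Set.subset_inter (Pair_joint_sub hf h1 h2 hρ)
      (Pair_joint_blk (Pair_ne h2) (s2 (Pair_self hc ρ)) (s1 (Pair_self hf ρ)))
  refine (Pr_mono hsub).trans ?_
  rw [Pr_inter_of_disjoint (LocalOn.inter' (Pair_localS N (cE N) ρ) (Pair_localS N f ρ))
    (localOn_BlockPiv (by omega) R) ?_, Pair_prob q hf h2 hρ]
  rw [Finset.disjoint_left]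
  intro x hx hx'
  rw [Finset.mem_sdiff] at hx'
  rcases Finset.mem_union.1 hx with h | h
  · exact hx'.2 (s2 h)
  · exact hx'.2 (s1 h)

theorem Pr_joint_far (q : I) {N ρ : ℕ} {f : Edge} (hf : f ∈ tSites N)
    (h1 : 1 ≤ ρ) (h2 : 2 * ρ < dist0 N f) (h3 : 2 * ρ + 2 ≤ N) :
    Pr q (Joint (WindS N) (cE N) f) ≤ a4 q ρ ^ 2 :=
  (Pr_mono (Pair_joint_sub hf h1 h2 h3)).trans (Pair_prob q hf h2 h3).le

/-- The influence of a site is bounded by the four-arm probability. -/
theorem pivot_le_a4 (q : I) {N r : ℕ} {e : Edge} (he : e ∈ tSites N) (hr : 1 ≤ r)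
    (hN : 2 * r + 2 ≤ N) : pivot q (WindS N) e ≤ a4 q r := by
  rw [← Pr_A4T q (src e) (show 2 * r < N by omega),
    pivot_eq_sdiff (localOn_WindS (by omega)) (incr_WindS N)]
  exact Pr_mono fun w hw => A4T_of_pivot' he hr hN hw.1 hw.2

end Pool.Agent.H92.SN

end

section

/-!
# The sum over pairs of sites
-/

set_option autoImplicit false

open MeasureTheory ProbabilityTheory unitInterval

namespace Pool.Agent.H92.SN

open Pool.Agent.H89.Perc
open Pool.Agent.H61.NC (fill mid upd Joint PrR' dist0 Sum_rpow Sum_eight)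
open Pool.Agent.H83.SK (sv sit)

/-- Number of sites of the torus at a given distance from the middle. -/
theorem card_dist0 (N t : ℕ) (ht : 1 ≤ t) :
    (((tSites N).filter fun f => dist0 N f = t).card : ℝ) ≤ 8 * t := by
  classical
  obtain ⟨s, rfl⟩ : ∃ s, t = s + 1 := ⟨t - 1, by omega⟩
  have hsub : ((tSites N).filter fun f => dist0 N f = s + 1) ⊆
      sBall (cV N) (s + 1) \ sBall (cV N) s := by
    intro f hf
    rw [Finset.mem_filter] at hf
    have h1 := hf.2
    have h2 := (mem_tSites.1 hf.1).2.2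
    unfold dist0 at h1
    rw [Finset.mem_sdiff, mem_sBall, mem_sBall, Pool.Agent.H89.Perc.mem_ball,
      Pool.Agent.H89.Perc.mem_ball]
    simp only [cV, src, h2, and_true]
    push_cast
    omega
  have hsub2 : sBall (cV N) s ⊆ sBall (cV N) (s + 1) := by
    intro f hf
    rw [mem_sBall, Pool.Agent.H89.Perc.mem_ball] at hf ⊢
    refine ⟨?_, hf.2⟩
    have := hf.1
    push_cast
    omega
  have h1 := Finset.card_le_card hsub
  rw [Finset.card_sdiff_of_subset hsub2, Sum_card_sBall, Sum_card_sBall] at h1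
  have h2 : (2 * (s + 1) + 1) ^ 2 - (2 * s + 1) ^ 2 = 8 * (s + 1) := by
    have : (2 * (s + 1) + 1) ^ 2 = (2 * s + 1) ^ 2 + 8 * (s + 1) := by ring
    omega
  rw [h2] at h1
  exact_mod_cast h1

theorem sum_a4 (hGL : GLTorus) (hBL : BlockLow) : ∀ c : ℝ, 0 < c → ∃ C : ℝ, 0 < C ∧
    ∀ (N : ℕ) (q : I), 64 ≤ N → SReg c N q →
      ∑ t ∈ Finset.Icc 1 N, (t : ℝ) * a4 q t ≤ C * ((N : ℝ) ^ 2 * sT q N) := by
  intro c hc
  obtain ⟨C3, hC3, h3⟩ := a4_le_sT hGL hBL c hc
  obtain ⟨C1, hC1, h1⟩ := hGL c hc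
  obtain ⟨C2, δ0, hC2, hδ0, h2⟩ := hBL c hc
  obtain ⟨δ, hδ⟩ : ∃ δ, δ = min δ0 1 := ⟨_, rfl⟩
  have hδpos : 0 < δ := by rw [hδ]; exact lt_min hδ0 one_pos
  have hδ1 : δ ≤ 1 := by rw [hδ]; exact min_le_right _ _
  have hδle : δ ≤ δ0 := by rw [hδ]; exact min_le_left _ _
  refine ⟨C1 * C2 / δ + C3, by positivity, fun N q hN hR => ?_⟩
  have hs := sT_nonneg q N
  have hNpos : (0 : ℝ) < N := by exact_mod_cast (by omega : 0 < N)
  have hterm : ∀ t ∈ Finset.Icc 1 N, (t : ℝ) * a4 q t ≤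
      C1 * C2 * sT q N * (N : ℝ) ^ (2 - δ) * (t : ℝ) ^ (δ - 1) + N * (C3 * sT q N) := by
    intro t ht
    rw [Finset.mem_Icc] at ht
    have htpos : (0 : ℝ) < t := by exact_mod_cast (by omega : 0 < t)
    have ha := a4_nonneg q t
    by_cases h64 : 64 * t ≤ N
    · have k1 := h1 N t q ht.1 h64 hR
      have k2 := h2 N (16 * t) q (by omega) (by omega) hR
      have hx : (t : ℝ) / N ≤ ((16 * t : ℕ) : ℝ) / N := by
        apply div_le_div_of_nonneg_right _ hNpos.le
        push_cast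
        linarith only [htpos]
      have hx1 : ((16 * t : ℕ) : ℝ) / N ≤ 1 := by
        rw [div_le_one hNpos]
        exact_mod_cast (by omega : 16 * t ≤ N)
      have hx0 : 0 < (t : ℝ) / N := by positivity
      have k3 : ((t : ℝ) / N) ^ (2 - δ) ≤ C2 * Pr q (BlockPiv N (16 * t)) := by
        calc ((t : ℝ) / N) ^ (2 - δ) ≤ (((16 * t : ℕ) : ℝ) / N) ^ (2 - δ) :=
              Real.rpow_le_rpow hx0.le hx (by linarith only [hδ1])
          _ ≤ (((16 * t : ℕ) : ℝ) / N) ^ (2 - δ0) :=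
              Real.rpow_le_rpow_of_exponent_ge (hx0.trans_le hx) hx1 (by linarith only [hδle])
          _ ≤ _ := k2
      have k4 : a4 q t * ((t : ℝ) / N) ^ (2 - δ) ≤ C1 * C2 * sT q N := by
        calc a4 q t * ((t : ℝ) / N) ^ (2 - δ) ≤ a4 q t * (C2 * Pr q (BlockPiv N (16 * t))) :=
              mul_le_mul_of_nonneg_left k3 ha
          _ = C2 * (a4 q t * Pr q (BlockPiv N (16 * t))) := by ring
          _ ≤ C2 * (C1 * sT q N) := mul_le_mul_of_nonneg_left k1 hC2.le
          _ = _ := by ring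
      have hN2 : 0 < (N : ℝ) ^ (2 - δ) := by positivity
      have ht2 : 0 < (t : ℝ) ^ (δ - 1) := by positivity
      have k5 : (t : ℝ) * a4 q t =
          a4 q t * ((t : ℝ) / N) ^ (2 - δ) * (N : ℝ) ^ (2 - δ) * (t : ℝ) ^ (δ - 1) := by
        rw [Real.div_rpow htpos.le hNpos.le]
        have e1 : (t : ℝ) ^ (2 - δ) * (t : ℝ) ^ (δ - 1) = t := by
          rw [← Real.rpow_add htpos]
          have : 2 - δ + (δ - 1) = 1 := by ring
          rw [this, Real.rpow_one]
        calc (t : ℝ) * a4 q t = a4 q t * ((t : ℝ) ^ (2 - δ) * (t : ℝ) ^ (δ - 1)) := by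
              rw [e1]; ring
          _ = _ := by
              field_simp
      rw [k5]
      have k6 : a4 q t * ((t : ℝ) / N) ^ (2 - δ) * (N : ℝ) ^ (2 - δ) * (t : ℝ) ^ (δ - 1) ≤
          C1 * C2 * sT q N * (N : ℝ) ^ (2 - δ) * (t : ℝ) ^ (δ - 1) := by
        gcongr
      have k7 : 0 ≤ N * (C3 * sT q N) := by positivity
      linarith only [k6, k7]
    · have k1 := h3 N q hN hR
      have k2 := a4_anti q (by omega : 1 ≤ N / 64) (by omega : N / 64 ≤ t)
      have k3 : (t : ℝ) * a4 q t ≤ N * (C3 * sT q N) := by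
        have ht' : (t : ℝ) ≤ N := by exact_mod_cast ht.2
        exact mul_le_mul ht' (k2.trans k1) ha hNpos.le
      have k4 : 0 ≤ C1 * C2 * sT q N * (N : ℝ) ^ (2 - δ) * (t : ℝ) ^ (δ - 1) := by positivity
      linarith only [k3, k4]
  calc ∑ t ∈ Finset.Icc 1 N, (t : ℝ) * a4 q t
      ≤ ∑ t ∈ Finset.Icc 1 N, (C1 * C2 * sT q N * (N : ℝ) ^ (2 - δ) * (t : ℝ) ^ (δ - 1) +
          N * (C3 * sT q N)) := Finset.sum_le_sum hterm
    _ = C1 * C2 * sT q N * (N : ℝ) ^ (2 - δ) * ∑ t ∈ Finset.Icc 1 N, (t : ℝ) ^ (δ - 1) +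
          N * (N * (C3 * sT q N)) := by
        rw [Finset.sum_add_distrib, ← Finset.mul_sum, Finset.sum_const, Nat.card_Icc,
          Nat.add_sub_cancel, nsmul_eq_mul]
    _ ≤ C1 * C2 * sT q N * (N : ℝ) ^ (2 - δ) * ((N : ℝ) ^ δ / δ) +
          N * (N * (C3 * sT q N)) := by
        gcongr
        exact Sum_rpow δ hδpos hδ1 N
    _ = (C1 * C2 / δ + C3) * ((N : ℝ) ^ 2 * sT q N) := by
        have e : (N : ℝ) ^ (2 - δ) * (N : ℝ) ^ δ = (N : ℝ) ^ 2 := by
          rw [← Real.rpow_add hNpos, sub_add_cancel, Real.rpow_two]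
        calc C1 * C2 * sT q N * (N : ℝ) ^ (2 - δ) * ((N : ℝ) ^ δ / δ) +
            N * (N * (C3 * sT q N)) = C1 * C2 * sT q N * ((N : ℝ) ^ (2 - δ) * (N : ℝ) ^ δ) / δ +
            N * (N * (C3 * sT q N)) := by ring
          _ = _ := by rw [e]; ring

theorem Sum_card_small (N : ℕ) :
    (((tSites N).filter fun f => dist0 N f < 8).card : ℝ) ≤ 225 := by
  classical
  have hsub : ((tSites N).filter fun f => dist0 N f < 8) ⊆ sBall (cV N) 7 := by
    intro f hf
    rw [Finset.mem_filter] at hf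
    have h1 := hf.2
    have h2 := (mem_tSites.1 hf.1).2.2
    unfold dist0 at h1
    rw [mem_sBall, Pool.Agent.H89.Perc.mem_ball]
    simp only [cV, src, h2, and_true]
    push_cast
    omega
  have h1 := Finset.card_le_card hsub
  rw [Sum_card_sBall] at h1
  have h2 : (2 * 7 + 1) ^ 2 = 225 := by norm_num
  rw [h2] at h1
  exact_mod_cast h1

theorem Sum_dist0_le {N : ℕ} {f : Edge} (hf : f ∈ tSites N) : dist0 N f ≤ N := by
  rw [mem_tSites] at hf
  unfold dist0 mid
  omega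

/-- Sum over the edges by distance. -/
theorem Sum_by_dist (N : ℕ) (h : ℕ → ℝ) (hh : ∀ t, 0 ≤ h t) :
    ∑ f ∈ (tSites N).filter (fun f => 8 ≤ dist0 N f), h (dist0 N f) ≤
      ∑ t ∈ Finset.Icc 8 N, 8 * t * h t := by
  classical
  have hmaps : ∀ f ∈ (tSites N).filter (fun f => 8 ≤ dist0 N f), dist0 N f ∈ Finset.Icc 8 N := by
    intro f hf
    rw [Finset.mem_filter] at hf
    rw [Finset.mem_Icc]
    exact ⟨hf.2, Sum_dist0_le hf.1⟩
  rw [← Finset.sum_fiberwise_of_maps_to hmaps]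
  refine Finset.sum_le_sum fun t ht => ?_
  rw [Finset.mem_Icc] at ht
  have h1 : ∑ f ∈ ((tSites N).filter (fun f => 8 ≤ dist0 N f)).filter (fun f => dist0 N f = t),
      h (dist0 N f) = (((tSites N).filter (fun f => 8 ≤ dist0 N f)).filter
        (fun f => dist0 N f = t)).card * h t := by
    rw [← nsmul_eq_mul]
    refine Finset.sum_eq_card_nsmul fun f hf => ?_
    rw [(Finset.mem_filter.1 hf).2]
  rw [h1]
  refine mul_le_mul_of_nonneg_right ?_ (hh t)
  refine le_trans ?_ (card_dist0 N t (by omega))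
  have h2 : ((tSites N).filter (fun f => 8 ≤ dist0 N f)).filter (fun f => dist0 N f = t) ⊆
      (tSites N).filter (fun f => dist0 N f = t) :=
    Finset.filter_subset_filter _ (Finset.filter_subset _ _)
  exact_mod_cast Finset.card_le_card h2

theorem sum_joint_ctr (hGL : GLTorus) (hBL : BlockLow) : ∀ c : ℝ, 0 < c → ∃ C : ℝ, 0 < C ∧
    ∀ (N : ℕ) (q : I), 64 ≤ N → SReg c N q →
      ∑ f ∈ (tSites N).erase (cE N), Pr q (Joint (WindS N) (cE N) f) ≤
        C * ((N : ℝ) ^ 2 * sT q N ^ 2) := by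
  classical
  intro c hc
  obtain ⟨C3, hC3, h3⟩ := a4_le_sT hGL hBL c hc
  obtain ⟨C4, hC4, h4⟩ := sum_a4 hGL hBL c hc
  obtain ⟨C1, hC1, h1⟩ := hGL c hc
  obtain ⟨m, hmdef⟩ : ∃ m : ℝ, m = c / 10 := ⟨_, rfl⟩
  have hm : 0 < m := by rw [hmdef]; positivity
  refine ⟨225 * (1 / m) * ((1 / m) ^ 9 * C4) + 960 * C1 * C4 + C3 ^ 2, by positivity,
    fun N q hN hR => ?_⟩
  obtain ⟨hq1, hq2⟩ := sreg_mem hc (by omega) hR
  rw [← hmdef] at hq1 hq2
  have hs := sT_nonneg q N
  have hNpos : (0 : ℝ) < N := by exact_mod_cast (by omega : 0 < N)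
  have hN1 : 1 ≤ N := by omega
  have hsum := h4 N q hN hR
  -- lower bound of the influence
  have hlow : 1 ≤ (1 / m) ^ 9 * C4 * ((N : ℝ) ^ 2 * sT q N) := by
    have k1 := a4_one q hm.le hq2
    have k2 : a4 q 1 ≤ ∑ t ∈ Finset.Icc 1 N, (t : ℝ) * a4 q t := by
      have k3 := Finset.single_le_sum (f := fun t : ℕ => (t : ℝ) * a4 q t)
        (fun t _ => mul_nonneg (Nat.cast_nonneg t) (a4_nonneg q t))
        (Finset.mem_Icc.2 ⟨le_rfl, hN1⟩ : 1 ∈ Finset.Icc 1 N)
      simpa using k3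
    have k4 : m ^ 9 ≤ C4 * ((N : ℝ) ^ 2 * sT q N) := k1.trans (k2.trans hsum)
    calc (1 : ℝ) = (1 / m) ^ 9 * m ^ 9 := by rw [← mul_pow, one_div_mul_cancel hm.ne', one_pow]
      _ ≤ (1 / m) ^ 9 * (C4 * ((N : ℝ) ^ 2 * sT q N)) :=
          mul_le_mul_of_nonneg_left k4 (by positivity)
      _ = _ := by ring
  -- bound of one term
  have hterm : ∀ f ∈ (tSites N).erase (cE N), Pr q (Joint (WindS N) (cE N) f) ≤
      (if dist0 N f < 8 then 1 / m * sT q N else 0) +
      (if 8 ≤ dist0 N f then C1 * sT q N * a4 q (dist0 N f / 8) else 0) +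
        C3 ^ 2 * sT q N ^ 2 := by
    intro f hf
    rw [Finset.mem_erase] at hf
    have ha := a4_nonneg q (dist0 N f / 8)
    have hC3s : 0 ≤ C3 ^ 2 * sT q N ^ 2 := by positivity
    by_cases h8 : dist0 N f < 8
    · rw [if_pos h8, if_neg (by omega)]
      have k1 := Pr_Joint_le (localOn_WindS hN1) (incr_WindS N) (Ne.symm hf.1) q hm hq1 hq2
      have k2 : pivot q (WindS N) (cE N) = sT q N := rfl
      rw [k2] at k1
      linarith only [hC3s, k1]
    · rw [if_neg h8, if_pos (by omega)]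
      obtain ⟨r, hr⟩ : ∃ r, r = dist0 N f / 8 := ⟨_, rfl⟩
      rw [← hr] at ha ⊢
      by_cases h64 : 64 * r ≤ N
      · have k1 := Pr_joint_near q hf.2 (by omega : 1 ≤ r)
          (by omega : 2 * r < dist0 N f) (by omega : dist0 N f + r ≤ 16 * r) (by omega)
        have k2 := h1 N r q (by omega) h64 hR
        have k3 : a4 q r ^ 2 * Pr q (BlockPiv N (16 * r)) ≤ C1 * sT q N * a4 q r := by
          calc a4 q r ^ 2 * Pr q (BlockPiv N (16 * r))
              = a4 q r * (a4 q r * Pr q (BlockPiv N (16 * r))) := by ring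
            _ ≤ a4 q r * (C1 * sT q N) := mul_le_mul_of_nonneg_left k2 ha
            _ = _ := by ring
        linarith only [hC3s, k1, k3]
      · have k1 := Pr_joint_far q hf.2 (by omega : 1 ≤ N / 64)
          (by omega : 2 * (N / 64) < dist0 N f) (by omega)
        have k2 := h3 N q hN hR
        have k3 := a4_nonneg q (N / 64)
        have k4 : a4 q (N / 64) ^ 2 ≤ (C3 * sT q N) ^ 2 := pow_le_pow_left₀ k3 k2 2
        have k5 : 0 ≤ C1 * sT q N * a4 q r := by positivity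
        rw [mul_pow] at k4
        linarith only [k1, k4, k5]
  have hsub : (tSites N).erase (cE N) ⊆ tSites N := Finset.erase_subset _ _
  have hg0 : ∀ f ∈ tSites N, f ∉ (tSites N).erase (cE N) → 0 ≤
      (if dist0 N f < 8 then 1 / m * sT q N else 0) +
      (if 8 ≤ dist0 N f then C1 * sT q N * a4 q (dist0 N f / 8) else 0) +
        C3 ^ 2 * sT q N ^ 2 := by
    intro f _ _
    have ha := a4_nonneg q (dist0 N f / 8)
    split_ifs <;> positivity
  have p1 : ∑ f ∈ tSites N, (if dist0 N f < 8 then 1 / m * sT q N else 0) ≤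
      225 * (1 / m * sT q N) := by
    rw [← Finset.sum_filter, Finset.sum_const, nsmul_eq_mul]
    exact mul_le_mul_of_nonneg_right (Sum_card_small N) (by positivity)
  have p2 : ∑ f ∈ tSites N, (if 8 ≤ dist0 N f then C1 * sT q N * a4 q (dist0 N f / 8) else 0) ≤
      960 * C1 * C4 * ((N : ℝ) ^ 2 * sT q N ^ 2) := by
    rw [← Finset.sum_filter, ← Finset.mul_sum]
    have k1 := Sum_by_dist N (fun t => a4 q (t / 8)) (fun t => a4_nonneg q _)
    have k2 := Sum_eight N (fun t => a4 q t) (fun t => a4_nonneg q _)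
    have k3 : ∑ t ∈ Finset.Icc 8 N, 8 * (t : ℝ) * a4 q (t / 8) =
        8 * ∑ t ∈ Finset.Icc 8 N, (t : ℝ) * a4 q (t / 8) := by
      rw [Finset.mul_sum]
      exact Finset.sum_congr rfl fun t _ => by ring
    have k4 : ∑ f ∈ (tSites N).filter (fun f => 8 ≤ dist0 N f), a4 q (dist0 N f / 8) ≤
        960 * (C4 * ((N : ℝ) ^ 2 * sT q N)) := by
      refine k1.trans ?_
      rw [k3]
      linarith only [hsum, k2]
    calc C1 * sT q N * ∑ f ∈ (tSites N).filter (fun f => 8 ≤ dist0 N f), a4 q (dist0 N f / 8)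
        ≤ C1 * sT q N * (960 * (C4 * ((N : ℝ) ^ 2 * sT q N))) :=
          mul_le_mul_of_nonneg_left k4 (by positivity)
      _ = _ := by ring
  have p3 : ∑ _f ∈ tSites N, C3 ^ 2 * sT q N ^ 2 = C3 ^ 2 * ((N : ℝ) ^ 2 * sT q N ^ 2) := by
    rw [Finset.sum_const, nsmul_eq_mul, card_tSites]
    ring
  have p4 : 225 * (1 / m * sT q N) ≤
      225 * (1 / m) * ((1 / m) ^ 9 * C4) * ((N : ℝ) ^ 2 * sT q N ^ 2) := by
    calc 225 * (1 / m * sT q N) = 225 * (1 / m * sT q N) * 1 := (mul_one _).symm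
      _ ≤ 225 * (1 / m * sT q N) * ((1 / m) ^ 9 * C4 * ((N : ℝ) ^ 2 * sT q N)) :=
          mul_le_mul_of_nonneg_left hlow (by positivity)
      _ = _ := by ring
  calc ∑ f ∈ (tSites N).erase (cE N), Pr q (Joint (WindS N) (cE N) f)
      ≤ ∑ f ∈ (tSites N).erase (cE N), ((if dist0 N f < 8 then 1 / m * sT q N else 0) +
        (if 8 ≤ dist0 N f then C1 * sT q N * a4 q (dist0 N f / 8) else 0) +
        C3 ^ 2 * sT q N ^ 2) := Finset.sum_le_sum hterm
    _ ≤ ∑ f ∈ tSites N, ((if dist0 N f < 8 then 1 / m * sT q N else 0) +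
        (if 8 ≤ dist0 N f then C1 * sT q N * a4 q (dist0 N f / 8) else 0) +
        C3 ^ 2 * sT q N ^ 2) := Finset.sum_le_sum_of_subset_of_nonneg hsub hg0
    _ = ∑ f ∈ tSites N, (if dist0 N f < 8 then 1 / m * sT q N else 0) +
        ∑ f ∈ tSites N, (if 8 ≤ dist0 N f then C1 * sT q N * a4 q (dist0 N f / 8) else 0) +
        ∑ _f ∈ tSites N, C3 ^ 2 * sT q N ^ 2 := by
        rw [Finset.sum_add_distrib, Finset.sum_add_distrib]
    _ ≤ 225 * (1 / m) * ((1 / m) ^ 9 * C4) * ((N : ℝ) ^ 2 * sT q N ^ 2) +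
        960 * C1 * C4 * ((N : ℝ) ^ 2 * sT q N ^ 2) +
        C3 ^ 2 * ((N : ℝ) ^ 2 * sT q N ^ 2) := by
        rw [p3]
        linarith only [p1, p2, p4]
    _ = _ := by ring

end Pool.Agent.H92.SN

end

section

/-!
# Near-critical stability of the influences
-/

set_option autoImplicit false

open MeasureTheory ProbabilityTheory unitInterval

namespace Pool.Agent.H92.SN

open Pool.Agent.H89.Perc
open Pool.Agent.H61.NC (fill mid upd Joint PrR' dist0 PrR'_eq hasDerivAt_PrR_eq hasDerivAt_PrR' abs_second_le stability)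
open Pool.Agent.H83.SK (sv sit)

theorem one_le_sum_a4 (hGL : GLTorus) (hBL : BlockLow) : ∀ c : ℝ, 0 < c → ∃ C : ℝ, 0 < C ∧
    ∀ (N : ℕ) (q : I), 64 ≤ N → SReg c N q → 1 ≤ C * ((N : ℝ) ^ 2 * sT q N) := by
  intro c hc
  obtain ⟨C, hC, H⟩ := sum_a4 hGL hBL c hc
  refine ⟨C / (c / 10) ^ 9, by positivity, fun N q hN hR => ?_⟩
  have h3 := H N q hN hR
  have h4 : (1 : ℝ) * a4 q 1 ≤ ∑ t ∈ Finset.Icc 1 N, (t : ℝ) * a4 q t := by
    have := Finset.single_le_sum (f := fun t : ℕ => (t : ℝ) * a4 q t)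
      (fun t _ => mul_nonneg (Nat.cast_nonneg t) (a4_nonneg q t))
      (Finset.mem_Icc.2 ⟨le_rfl, by omega⟩ : 1 ∈ Finset.Icc 1 N)
    simpa using this
  have h5 := a4_one q (m := c / 10) (by positivity) (sreg_mem hc (by omega) hR).2
  have hm : 0 < (c / 10) ^ 9 := by positivity
  rw [div_mul_eq_mul_div, le_div_iff₀ hm]
  linarith only [h3, h4, h5]

theorem sT_pos (hGL : GLTorus) (hBL : BlockLow) {c : ℝ} (hc : 0 < c) {N : ℕ} {q : I}
    (hN : 64 ≤ N) (hR : SReg c N q) : 0 < sT q N := by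
  obtain ⟨C, hC, H⟩ := one_le_sum_a4 hGL hBL c hc
  have h3 := H N q hN hR
  by_contra h
  push Not at h
  have h0 : (N : ℝ) ^ 2 * sT q N ≤ 0 := mul_nonpos_of_nonneg_of_nonpos (by positivity) h
  have := mul_nonpos_of_nonneg_of_nonpos hC.le h0
  linarith

theorem FT'_pos (hGL : GLTorus) (hBL : BlockLow) {c : ℝ} (hc : 0 < c) {N : ℕ} {q : I}
    (hN : 64 ≤ N) (hR : SReg c N q) : 0 < FT' N q := by
  rw [FT'_eq (by omega)]
  have h1 := sT_pos hGL hBL hc hN hR
  have h2 : (0 : ℝ) < N := by exact_mod_cast (by omega : 0 < N)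
  positivity

theorem second_le (hGL : GLTorus) (hBL : BlockLow) : ∀ c : ℝ, 0 < c → ∃ C : ℝ, 0 < C ∧
    ∀ (N : ℕ) (q : I), 64 ≤ N → SReg c N q →
      ∑ e ∈ tSites N, ∑ f ∈ (tSites N).erase e, Pr q (Joint (WindS N) e f) ≤
        C * FT' N q ^ 2 := by
  intro c hc
  obtain ⟨C, hC, H⟩ := sum_joint_ctr hGL hBL c hc
  refine ⟨C, hC, fun N q hN hR => ?_⟩
  have hN1 : 1 ≤ N := by omega
  rw [sum_joint hN1, FT'_eq hN1]
  have ha := H N q hN hR
  have hN2 : (0 : ℝ) ≤ (N : ℝ) ^ 2 := by positivity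
  calc (N : ℝ) ^ 2 * ∑ f ∈ (tSites N).erase (cE N), Pr q (Joint (WindS N) (cE N) f)
      ≤ (N : ℝ) ^ 2 * (C * ((N : ℝ) ^ 2 * sT q N ^ 2)) := mul_le_mul_of_nonneg_left ha hN2
    _ = C * ((N : ℝ) ^ 2 * sT q N) ^ 2 := by ring

theorem near_critical (hGL : GLTorus) (hBL : BlockLow) : ∀ c : ℝ, 0 < c → ∃ K : ℝ, 0 < K ∧
    ∀ (N : ℕ) (q₀ q₁ : I), 64 ≤ N → q₀ ≤ q₁ → (∀ q : I, q₀ ≤ q → q ≤ q₁ → SReg c N q) →
      FT' N q₁ ≤ K * FT' N q₀ ∧ FT' N q₀ ≤ K * FT' N q₁ := by
  intro c hc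
  obtain ⟨C, hC, H⟩ := second_le hGL hBL c hc
  refine ⟨Real.exp C, Real.exp_pos _, fun N q₀ q₁ hN h01 hR => ?_⟩
  have hN1 : 1 ≤ N := by omega
  have hloc := localOn_WindS hN1
  have hmem : ∀ x ∈ Set.Icc (q₀ : ℝ) q₁, ∃ q : I, (q : ℝ) = x ∧ q₀ ≤ q ∧ q ≤ q₁ := by
    intro x hx
    exact ⟨⟨x, q₀.2.1.trans hx.1, hx.2.trans q₁.2.2⟩, rfl, hx.1, hx.2⟩
  have key := stability (F := PrR (tSites N) (WindS N)) (F' := PrR' (tSites N) (WindS N))
    (F'' := fun x => if hx : x ∈ I then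
      ∑ e ∈ tSites N, ∑ f ∈ tSites N, (pivot ⟨x, hx⟩ (upd (WindS N) e true) f -
        pivot ⟨x, hx⟩ (upd (WindS N) e false) f) else 0)
    (a := q₀) (b := q₁) (K := C) h01 hC.le ?_ ?_ ?_ ?_ ?_
  · exact key
  · intro x hx
    obtain ⟨q, rfl, hq0, hq1⟩ := hmem x hx
    exact hasDerivAt_PrR_eq hloc q
  · intro x hx
    obtain ⟨q, rfl, hq0, hq1⟩ := hmem x hx
    have := hasDerivAt_PrR' hloc q
    simp only [Subtype.coe_prop, dite_true, Subtype.coe_eta]
    exact this
  · intro x hx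
    obtain ⟨q, rfl, hq0, hq1⟩ := hmem x hx
    exact FT'_pos hGL hBL hc hN (hR q hq0 hq1)
  · intro x hx
    obtain ⟨q, rfl, hq0, hq1⟩ := hmem x hx
    simp only [Subtype.coe_prop, dite_true, Subtype.coe_eta]
    refine (abs_second_le hloc (incr_WindS N) q).trans ?_
    exact H N q hN (hR q hq0 hq1)
  · intro x hx
    obtain ⟨q, rfl, hq0, hq1⟩ := hmem x hx
    rw [← Pr_eq_PrR hloc]
    exact ⟨Pr_nonneg, Pr_le_one⟩

theorem window (hGL : GLTorus) (hBL : BlockLow) : ∀ c : ℝ, 0 < c → ∃ K : ℝ, 0 < K ∧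
    ∀ (N : ℕ) (q₀ q₁ : I), 64 ≤ N → q₀ ≤ q₁ → (∀ q : I, q₀ ≤ q → q ≤ q₁ → SReg c N q) →
      ((q₁ : ℝ) - q₀) * FT' N q₀ ≤ K * (Pr q₁ (WindS N) - Pr q₀ (WindS N)) ∧
      Pr q₁ (WindS N) - Pr q₀ (WindS N) ≤ K * (((q₁ : ℝ) - q₀) * FT' N q₀) := by
  intro c hc
  obtain ⟨K, hK, H⟩ := near_critical hGL hBL c hc
  refine ⟨K, hK, fun N q₀ q₁ hN h01 hR => ?_⟩
  have hN1 : 1 ≤ N := by omega
  have hloc := localOn_WindS hN1
  have h01' : (q₀ : ℝ) ≤ q₁ := h01
  have hder : ∀ q : I, q₀ ≤ q → q ≤ q₁ →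
      HasDerivAt (PrR (tSites N) (WindS N)) (FT' N q) (q : ℝ) := by
    intro q _ _
    exact hasDerivAt_PrR_eq hloc q
  have hst : ∀ q : I, q₀ ≤ q → q ≤ q₁ → FT' N q ≤ K * FT' N q₀ ∧ FT' N q₀ ≤ K * FT' N q := by
    intro q hq0 hq1
    exact H N q₀ q hN hq0 fun q' h2 h3 => hR q' h2 (h3.trans hq1)
  rw [Pr_eq_PrR hloc, Pr_eq_PrR hloc]
  have hmem : ∀ x ∈ Set.Icc (q₀ : ℝ) q₁, ∃ q : I, (q : ℝ) = x ∧ q₀ ≤ q ∧ q ≤ q₁ := by
    intro x hx
    exact ⟨⟨x, q₀.2.1.trans hx.1, hx.2.trans q₁.2.2⟩, rfl, hx.1, hx.2⟩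
  have hcont : ContinuousOn (PrR (tSites N) (WindS N)) (Set.Icc (q₀ : ℝ) q₁) := by
    intro x hx
    obtain ⟨q, rfl, hq0, hq1⟩ := hmem x hx
    exact (hder q hq0 hq1).continuousAt.continuousWithinAt
  constructor
  · have h2 := Convex.mul_sub_le_image_sub_of_le_deriv (convex_Icc (q₀ : ℝ) q₁)
      (f := PrR (tSites N) (WindS N)) hcont ?_ (C := FT' N q₀ / K) ?_ (q₀ : ℝ) ⟨le_rfl, h01'⟩
      (q₁ : ℝ) ⟨h01', le_rfl⟩ h01'
    · calc ((q₁ : ℝ) - q₀) * FT' N q₀ = K * (FT' N q₀ / K * ((q₁ : ℝ) - q₀)) := by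
            field_simp
        _ ≤ _ := mul_le_mul_of_nonneg_left h2 hK.le
    · intro x hx
      rw [interior_Icc] at hx
      obtain ⟨q, rfl, hq0, hq1⟩ := hmem x ⟨hx.1.le, hx.2.le⟩
      exact (hder q hq0 hq1).differentiableAt.differentiableWithinAt
    · intro x hx
      rw [interior_Icc] at hx
      obtain ⟨q, rfl, hq0, hq1⟩ := hmem x ⟨hx.1.le, hx.2.le⟩
      rw [(hder q hq0 hq1).deriv, div_le_iff₀ hK]
      linarith only [hst, hq0, hq1, (hst q hq0 hq1).2]
  · have h2 := Convex.image_sub_le_mul_sub_of_deriv_le (convex_Icc (q₀ : ℝ) q₁)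
      (f := PrR (tSites N) (WindS N)) hcont ?_ (C := K * FT' N q₀) ?_ (q₀ : ℝ) ⟨le_rfl, h01'⟩
      (q₁ : ℝ) ⟨h01', le_rfl⟩ h01'
    · refine h2.trans (le_of_eq (by ring))
    · intro x hx
      rw [interior_Icc] at hx
      obtain ⟨q, rfl, hq0, hq1⟩ := hmem x ⟨hx.1.le, hx.2.le⟩
      exact (hder q hq0 hq1).differentiableAt.differentiableWithinAt
    · intro x hx
      rw [interior_Icc] at hx
      obtain ⟨q, rfl, hq0, hq1⟩ := hmem x ⟨hx.1.le, hx.2.le⟩
      rw [(hder q hq0 hq1).deriv]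
      exact (hst q hq0 hq1).1

end Pool.Agent.H92.SN

end

section

/-!
# Scaling relations for the four-arm probability
-/

set_option autoImplicit false

open MeasureTheory ProbabilityTheory unitInterval

namespace Pool.Agent.H92.SN

open Pool.Agent.H89.Perc
open Pool.Agent.H61.NC (fill mid upd Joint PrR' dist0)
open Pool.Agent.H83.SK (sv sit)

/-- Growth of the four-arm probability, on one torus. -/
theorem a4_grow (hGL : GLTorus) (hBL : BlockLow) : ∀ c : ℝ, 0 < c → ∃ C δ : ℝ, 0 < C ∧ 0 < δ ∧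
    δ ≤ 1 ∧ ∀ (r N : ℕ) (q : I), 1 ≤ r → 64 * r ≤ N → SReg c N q →
      ((r : ℝ) / N) ^ (2 - δ) * a4 q r ≤ C * a4 q (N / 2 - 1) := by
  intro c hc
  obtain ⟨C1, hC1, h1⟩ := hGL c hc
  obtain ⟨C2, δ0, hC2, hδ0, h2⟩ := hBL c hc
  obtain ⟨δ, hδ⟩ : ∃ δ, δ = min δ0 1 := ⟨_, rfl⟩
  have hδpos : 0 < δ := by rw [hδ]; exact lt_min hδ0 one_pos
  have hδ1 : δ ≤ 1 := by rw [hδ]; exact min_le_right _ _
  have hδle : δ ≤ δ0 := by rw [hδ]; exact min_le_left _ _
  refine ⟨C1 * C2, δ, by positivity, hδpos, hδ1, fun r N q hr hrN hR => ?_⟩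
  have hNpos : (0 : ℝ) < N := by exact_mod_cast (by omega : 0 < N)
  have hrpos : (0 : ℝ) < r := by exact_mod_cast hr
  have k1 := h1 N r q hr hrN hR
  have k2 := h2 N (16 * r) q (by omega) (by omega) hR
  have ha := a4_nonneg q r
  have hx : (r : ℝ) / N ≤ ((16 * r : ℕ) : ℝ) / N := by
    apply div_le_div_of_nonneg_right _ hNpos.le
    push_cast
    linarith only [hrpos]
  have hx1 : ((16 * r : ℕ) : ℝ) / N ≤ 1 := by
    rw [div_le_one hNpos]
    exact_mod_cast (by omega : 16 * r ≤ N)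
  have hx0 : 0 < (r : ℝ) / N := by positivity
  have k3 : ((r : ℝ) / N) ^ (2 - δ) ≤ C2 * Pr q (BlockPiv N (16 * r)) := by
    calc ((r : ℝ) / N) ^ (2 - δ) ≤ (((16 * r : ℕ) : ℝ) / N) ^ (2 - δ) :=
          Real.rpow_le_rpow hx0.le hx (by linarith only [hδ1])
      _ ≤ (((16 * r : ℕ) : ℝ) / N) ^ (2 - δ0) :=
          Real.rpow_le_rpow_of_exponent_ge (hx0.trans_le hx) hx1 (by linarith only [hδle])
      _ ≤ _ := k2
  have k4 : sT q N ≤ a4 q (N / 2 - 1) :=
    pivot_le_a4 q (cE_mem (by omega)) (by omega) (by omega)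
  calc ((r : ℝ) / N) ^ (2 - δ) * a4 q r ≤ C2 * Pr q (BlockPiv N (16 * r)) * a4 q r :=
        mul_le_mul_of_nonneg_right k3 ha
    _ = C2 * (a4 q r * Pr q (BlockPiv N (16 * r))) := by ring
    _ ≤ C2 * (C1 * a4 q (N / 2 - 1)) :=
        mul_le_mul_of_nonneg_left (k1.trans (mul_le_mul_of_nonneg_left k4 hC1.le)) hC2.le
    _ = _ := by ring

/-- Lower regularity of the four-arm probability. -/
theorem a4_low (hGL : GLTorus) (hBL : BlockLow) : ∀ c : ℝ, 0 < c → ∃ C δ : ℝ, 0 < C ∧ 0 < δ ∧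
    δ ≤ 1 ∧ ∀ (m n : ℕ) (q : I), 1 ≤ m → m ≤ n → SReg c (64 * n) q →
      a4 q m ≤ C * ((n : ℝ) / m) ^ (2 - δ) * a4 q n := by
  intro c hc
  obtain ⟨C, δ, hC, hδ, hδ1, H⟩ := a4_grow hGL hBL c hc
  refine ⟨C * 64 ^ 2, δ, by positivity, hδ, hδ1, fun m n q hm hmn hR => ?_⟩
  have h1 := H m (64 * n) q hm (by omega) hR
  have h2 := a4_anti q (show 1 ≤ n by omega) (show n ≤ 64 * n / 2 - 1 by omega)
  have hmpos : (0 : ℝ) < m := by exact_mod_cast hm
  have hnpos : (0 : ℝ) < n := by exact_mod_cast (by omega : 0 < n)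
  have ha := a4_nonneg q m
  have hb := a4_nonneg q n
  have e1 : ((m : ℝ) / ((64 * n : ℕ) : ℝ)) ^ (2 - δ) =
      (((n : ℝ) / m) ^ (2 - δ))⁻¹ * (64 ^ (2 - δ))⁻¹ := by
    rw [← Real.inv_rpow (by positivity), ← Real.inv_rpow (by norm_num),
      ← Real.mul_rpow (by positivity) (by norm_num)]
    congr 1
    push_cast
    field_simp
  rw [e1] at h1
  have hp : (0 : ℝ) < ((n : ℝ) / m) ^ (2 - δ) := by positivity
  have h64 : (64 : ℝ) ^ (2 - δ) ≤ 64 ^ 2 := by
    rw [← Real.rpow_two]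
    exact Real.rpow_le_rpow_of_exponent_le (by norm_num) (by linarith only [hδ])
  have h640 : (0 : ℝ) < (64 : ℝ) ^ (2 - δ) := by positivity
  calc a4 q m = ((n : ℝ) / m) ^ (2 - δ) * 64 ^ (2 - δ) *
        ((((n : ℝ) / m) ^ (2 - δ))⁻¹ * (64 ^ (2 - δ))⁻¹ * a4 q m) := by
        field_simp
    _ ≤ ((n : ℝ) / m) ^ (2 - δ) * 64 ^ (2 - δ) * (C * a4 q (64 * n / 2 - 1)) :=
        mul_le_mul_of_nonneg_left h1 (by positivity)
    _ ≤ ((n : ℝ) / m) ^ (2 - δ) * 64 ^ (2 - δ) * (C * a4 q n) := by gcongr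
    _ ≤ ((n : ℝ) / m) ^ (2 - δ) * 64 ^ 2 * (C * a4 q n) := by gcongr
    _ = _ := by ring

/-- Sums of four-arm probabilities. -/
theorem sum_a4_le (hGL : GLTorus) (hBL : BlockLow) : ∀ c : ℝ, 0 < c → ∃ C : ℝ, 0 < C ∧
    ∀ (n : ℕ) (q : I), 1 ≤ n → SReg c (64 * n) q →
      ∑ t ∈ Finset.Icc 1 n, (t : ℝ) * a4 q t ≤ C * ((n : ℝ) ^ 2 * a4 q n) := by
  intro c hc
  obtain ⟨C, hC, H⟩ := sum_a4 hGL hBL c hc
  refine ⟨C * 64 ^ 2, by positivity, fun n q hn hR => ?_⟩
  have h1 := H (64 * n) q (by omega) hR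
  have h2 : sT q (64 * n) ≤ a4 q n := pivot_le_a4 q (cE_mem (by omega)) hn (by omega)
  have h3 : ∑ t ∈ Finset.Icc 1 n, (t : ℝ) * a4 q t ≤
      ∑ t ∈ Finset.Icc 1 (64 * n), (t : ℝ) * a4 q t :=
    Finset.sum_le_sum_of_subset_of_nonneg (Finset.Icc_subset_Icc le_rfl (by omega))
      fun t _ _ => mul_nonneg (Nat.cast_nonneg t) (a4_nonneg q t)
  calc ∑ t ∈ Finset.Icc 1 n, (t : ℝ) * a4 q t ≤ C * (((64 * n : ℕ) : ℝ) ^ 2 * sT q (64 * n)) :=
        h3.trans h1
    _ ≤ C * (((64 * n : ℕ) : ℝ) ^ 2 * a4 q n) := by gcongr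
    _ = _ := by push_cast; ring

end Pool.Agent.H92.SN

end

section

/-!
# Uniform decay of the four-arm probability
-/

set_option autoImplicit false

open MeasureTheory ProbabilityTheory unitInterval Filter Topology

namespace Pool.Agent.H92.SN

open Pool.Agent.H89.Perc
open Pool.Agent.H29.Sep (Circ eCirc mem_eCirc localOn_circ incr_circ circ_ring ann)
open Pool.Agent.H83.SK (sv sit)

end Pool.Agent.H92.SN

end

section

/-!
# Pivotal sites of the connection event on the torus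
-/

set_option autoImplicit false

open MeasureTheory ProbabilityTheory unitInterval

namespace Pool.Agent.H92.SN

open Pool.Agent.H89.Perc
open Pool.Agent.H61.NC (modE mid)
open Pool.Agent.H83.SK (sv sit)
open Pool.Agent.H90.AL (IsPer dT dT_self dT_comm dT_tri dT_le_half dT_le_of exists_of_dT_le notMem_of_lt modE_mem modE_eq mem_tEdges_iff src_modE conn_per isPer_per A2_of_cross A2_congr modE_mem_SR' mem_SR)

/-! ### Events of annuli -/

lemma localOn_A4S {N : ℕ} (hN : 1 ≤ N) (v : Vert) (r : ℕ) :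
    LocalOn (SRS N v 0 r) (A4T N v r) := by
  refine (localOn_A4T' hN v r).mono ?_
  intro g hg
  rw [Finset.mem_filter] at hg
  exact mem_SRS.2 ⟨hg.1, Nat.zero_le _, hg.2⟩

lemma modE_sv_SRS' {N : ℕ} (hN : 1 ≤ N) {c u : Vert} {t R : ℕ} (ht : 1 ≤ t) (hR : t + R ≤ N)
    (h1 : u ∈ ball c R) (h2 : u ∉ ball c (t - 1)) : modE N (sv u) ∈ SRS N c t R := by
  have h3 := modE_mem_SR' hN ht hR (e := sv u) h1 h2
  rw [mem_SR, mem_tEdges_iff] at h3
  rw [mem_SRS, mem_tSites]
  exact ⟨⟨h3.1.1, h3.1.2, rfl⟩, h3.2⟩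

lemma localOn_A2S {N : ℕ} (hN : 1 ≤ N) (c : Vert) {t R : ℕ} (ht : 1 ≤ t) (hR : t + R ≤ N) :
    LocalOn (SRS N c t R) (A2S N c t R) := by
  intro w w' h hw
  refine A2_congr (fun e h1 h2 => ?_) hw
  obtain ⟨k1, k2⟩ := dom_shift (c := c) h1
  obtain ⟨k3, k4⟩ := dom_shift (c := c) h2
  simp only [sit]
  rw [per_sv, per_sv, per_sv, per_sv, src_shiftE, tgt_shiftE,
    h _ (modE_sv_SRS' hN ht hR k1 k2), h _ (modE_sv_SRS' hN ht hR k3 k4)]

/-! ### Pivotal sites -/

lemma PivS.add {N i : ℕ} {x : Vert} (hx : sv x ∈ tSites N) {w : Config} (h : PivS N i x w) :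
    AddSite N x (cfgS N (Function.update w (sv x) false))
      (cfgS N (Function.update w (sv x) true)) := by
  rw [cfgS_update h.ne, cfgS_update h.ne]
  exact addSite_sit hx _

/-- The neighbours of the middle site are joined to neighbours of the pivotal site. -/
lemma PivS.touch {N i : ℕ} (hN : 1 ≤ N) {x : Vert} (hx : sv x ∈ tSites N) {w : Config}
    (h : PivS N i x w) (hd : 1 < dT N x (cV N)) :
    ∃ j < i, (∀ a b : ℤ, ¬ Conn (cfgS N (Function.update w (sv x) false)) Set.univ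
        (nb (cV N) j) ((nb (cV N) i).1 + a * N, (nb (cV N) i).2 + b * N)) ∧
      (∃ (p : Vert) (a b : ℤ), Nb x p ∧ Conn (cfgS N (Function.update w (sv x) false)) Set.univ
        (nb (cV N) j) (p.1 + a * N, p.2 + b * N)) ∧
      ∃ (p : Vert) (a b : ℤ), Nb x p ∧ Conn (cfgS N (Function.update w (sv x) false)) Set.univ
        (nb (cV N) i) (p.1 + a * N, p.2 + b * N) := by
  obtain ⟨j, hj, ⟨a, b, h1⟩, h0⟩ := h.conn
  have hfar : ∀ k, 0 < dT N (nb (cV N) k) x := by
    intro k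
    have h2 := dT_nb hN (nb_Nb (cV N) k)
    have h3 := dT_tri hN x (nb (cV N) k) (cV N)
    rw [dT_comm hN x (nb (cV N) k)] at h3
    omega
  refine ⟨j, hj, h0, ?_, ?_⟩
  · exact touch_of_addSite (h.add hx) (fun a b => ne_of_dT hN (hfar j) a b) h1 (h0 a b)
  · have hY : ∀ a' b' : ℤ, (((nb (cV N) i).1 + a * N, (nb (cV N) i).2 + b * N) : Vert) ≠
        (x.1 + a' * N, x.2 + b' * N) := by
      intro a' b'
      refine ne_of_dT hN ?_ a' b'
      rw [dT_shift hN]
      exact hfar i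
    obtain ⟨p, a', b', hp, h2⟩ := touch_of_addSite (h.add hx) hY h1.symm
      (fun hc => h0 a b hc.symm)
    refine ⟨p, a' - a, b' - b, hp, ?_⟩
    have h3 := conn_per (isPer_cfgS N _) (-a) (-b) h2
    have e1 : ((((nb (cV N) i).1 + a * N) + -a * N, ((nb (cV N) i).2 + b * N) + -b * N) : Vert) =
        nb (cV N) i := by
      ext <;> (simp only; ring)
    have e2 : (((p.1 + a' * N) + -a * N, (p.2 + b' * N) + -b * N) : Vert) =
        (p.1 + (a' - a) * N, p.2 + (b' - b) * N) := by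
      ext <;> (simp only; ring)
    simp only at h3
    rw [e1, e2] at h3
    exact h3

/-- Changing a site far from `v`. -/
lemma a4S_update {N : ℕ} (hN : 1 ≤ N) {v x : Vert} {r : ℕ} {b : Bool} {w : Config}
    (h : r < dT N x v) : Function.update w (sv x) b ∈ A4T N v r ↔ w ∈ A4T N v r := by
  have key : ∀ e ∈ SRS N v 0 r, Function.update w (sv x) b e = w e := by
    intro e he
    rw [Function.update_of_ne]
    rintro rfl
    rw [mem_SRS, src_sv] at he
    omega
  exact ⟨localOn_A4S hN v r _ _ key, localOn_A4S hN v r _ _ fun e he => (key e he).symm⟩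

/-- Four arms of the pivotal site. -/
theorem PivS.a4_self {N i : ℕ} {x : Vert} (hx : sv x ∈ tSites N) {w : Config}
    (h : PivS N i x w) {r : ℕ} (hr : 1 ≤ r) (hN : 2 * r + 2 ≤ N)
    (hd : r + 1 < dT N (cV N) x) : w ∈ A4T N x r := by
  have hN1 : 1 ≤ N := by omega
  obtain ⟨j, hj, ⟨a, b, h1⟩, h0⟩ := h.conn
  by_contra hcon
  have h2 : shut (cV N) w ∉ A4T N x r := by
    intro h3
    exact hcon ((a4S_update hN1 (by omega)).1 h3)
  have h3 := noFour_of_notMem hx (by omega) h2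
  rw [← cfgS_update h.ne, ← cfgS_update h.ne] at h3
  have hfar : ∀ k, r < dT N (nb (cV N) k) x := by
    intro k
    have h2 := dT_nb hN1 (nb_Nb (cV N) k)
    have h3 := dT_tri hN1 (cV N) (nb (cV N) k) x
    rw [dT_comm hN1 (cV N) (nb (cV N) k)] at h3
    omega
  refine h0 a b (conn_of_noFour hr hN (h.add hx) h3 ?_ ?_ h1)
  · exact fun a b => notMem_of_lt hN1 (hfar j) a b
  · intro a' b'
    refine notMem_of_lt hN1 ?_ a' b'
    rw [dT_shift hN1]
    exact hfar i

/-- Four arms of the middle site. -/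
theorem PivS.a4_ctr {N i : ℕ} {x : Vert} (hx : sv x ∈ tSites N) {w : Config}
    (h : PivS N i x w) {r : ℕ} (hr : 1 ≤ r) (hN : 2 * r + 2 ≤ N)
    (hd : r + 1 < dT N x (cV N)) : w ∈ A4T N (cV N) r := by
  have hN1 : 1 ≤ N := by omega
  have hcm : sv (cV N) ∈ tSites N := by rw [sv_cV]; exact cE_mem hN1
  obtain ⟨j, hj, h0, ⟨p, a, b, hp, t1⟩, ⟨p', a', b', hp', t2⟩⟩ := h.touch hN1 hx (by omega)
  -- the configuration in the ball
  have hball : ∀ g : Edge, src g ∈ ball (cV N) r → tgt g ∈ ball (cV N) r →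
      cfgS N (Function.update w (sv x) false) g = closeV (cV N) (sit (per N w)) g := by
    intro g h1 h2
    unfold cfgS shut
    rw [sit_per_ball (by omega) hcm _ h1 h2]
    refine closeV_congr ?_
    have key : ∀ u : Vert, u ∈ ball (cV N) r →
        per N (Function.update w (sv x) false) (sv u) = per N w (sv u) := by
      intro u hu
      rw [per_sv, per_sv, Function.update_of_ne]
      intro h3
      rw [modE_eq_iff hx] at h3
      obtain ⟨k, l, rfl⟩ := h3
      have h4 : dT N (x.1 + k * N, x.2 + l * N) (cV N) ≤ r :=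
        dT_le_of hN1 0 0 (by simpa using hu)
      rw [dT_shift hN1] at h4
      omega
    simp only [sit]
    rw [key _ h1, key _ h2]
  have harm : ∀ (k : ℕ) (p : Vert) (a b : ℤ), Nb x p →
      Conn (cfgS N (Function.update w (sv x) false)) Set.univ (nb (cV N) k)
        (p.1 + a * N, p.2 + b * N) →
      ∃ u ∈ sphere (cV N) r, Conn (closeV (cV N) (sit (per N w))) (ball (cV N) r)
        (nb (cV N) k) u := by
    intro k p a b hp t
    have hout : (p.1 + a * N, p.2 + b * N) ∉ ball (cV N) r := by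
      intro h3
      have h4 : dT N (p.1 + a * N, p.2 + b * N) (cV N) ≤ r :=
        dT_le_of hN1 0 0 (by simpa using h3)
      rw [dT_shift hN1] at h4
      have h5 := dT_nb hN1 hp
      have h6 := dT_tri hN1 x p (cV N)
      rw [dT_comm hN1 x p] at h6
      omega
    obtain ⟨u, hu, hc⟩ := t.to_sphere ((nb_Nb (cV N) k).mem_ball hr) (Or.inl hout)
    exact ⟨u, hu, (hc.mono_set Set.inter_subset_right).congr hball⟩
  refine ⟨nb (cV N) j, nb (cV N) i, nb_Nb _ j, nb_Nb _ i, harm j p a b hp t1,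
    harm i p' a' b' hp' t2, fun hcon => h0 0 0 ?_⟩
  simp only [zero_mul, add_zero]
  exact (hcon.congr fun g g1 g2 => (hball g g1 g2).symm).mono_set (Set.subset_univ _)

/-- Two crossing clusters of an annulus which separates `x` from the middle site. -/
theorem PivS.a2 {N i : ℕ} {x : Vert} (hx : sv x ∈ tSites N) {w : Config} (h : PivS N i x w)
    {c : Vert} {t R : ℕ} (ht : 1 ≤ t) (htR : t ≤ R) (hR : 2 * R < N)
    (hd : (dT N x c + 1 ≤ t ∧ R + 1 < dT N (cV N) c) ∨
      (dT N (cV N) c + 1 ≤ t ∧ R + 1 < dT N x c)) : w ∈ A2S N c t R := by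
  have hN1 : 1 ≤ N := by omega
  have hcm : sv (cV N) ∈ tSites N := by rw [sv_cV]; exact cE_mem hN1
  have hxc : 1 < dT N x (cV N) := by
    have h1 := dT_tri hN1 (cV N) x c
    have h2 := dT_tri hN1 x (cV N) c
    rw [dT_comm hN1 (cV N) x] at h1
    omega
  obtain ⟨j, hj, h0, ⟨p, a, b, hp, t1⟩, ⟨p', a', b', hp', t2⟩⟩ := h.touch hN1 hx hxc
  have hper := isPer_cfgS N (Function.update w (sv x) false)
  -- translates of vertices near `c`
  have hnear : ∀ u : Vert, dT N u c ≤ t → ∃ k l : ℤ, (u.1 - k * N, u.2 - l * N) ∈ ball c t :=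
    fun u hu => exists_of_dT_le hu
  have hd1 : ∀ {y q : Vert}, Nb y q → dT N q c ≤ dT N y c + 1 := by
    intro y q hq
    have h1 := dT_nb hN1 hq
    have h2 := dT_tri hN1 q y c
    omega
  have hd2 : ∀ {y q : Vert}, Nb y q → dT N y c ≤ dT N q c + 1 := by
    intro y q hq
    have h1 := dT_nb hN1 hq
    have h2 := dT_tri hN1 y q c
    rw [dT_comm hN1 y q] at h2
    omega
  -- the configuration in the annulus
  have hcf : ∀ g : Edge, src g ∈ Pool.Agent.H29.Sep.dom t R → tgt g ∈ Pool.Agent.H29.Sep.dom t R →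
      cfgS N (Function.update w (sv x) false) (shiftE c g) = sit (per N w) (shiftE c g) := by
    intro g h1 h2
    have key : ∀ u : Vert, u ∈ ball c R → u ∉ ball c (t - 1) →
        per N (shut (cV N) (Function.update w (sv x) false)) (sv u) = per N w (sv u) := by
      intro u hu hu'
      have h3 := modE_sv_SRS' hN1 ht (by omega) hu hu'
      rw [mem_SRS] at h3
      unfold shut
      rw [per_sv, per_sv, Function.update_of_ne, Function.update_of_ne]
      · intro h4
        rw [h4, src_sv] at h3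
        rcases hd with hd | hd <;> omega
      · intro h4
        rw [h4, src_sv] at h3
        rcases hd with hd | hd <;> omega
    obtain ⟨k1, k2⟩ := dom_shift (c := c) h1
    obtain ⟨k3, k4⟩ := dom_shift (c := c) h2
    unfold cfgS
    simp only [sit]
    rw [src_shiftE, tgt_shiftE, key _ k1 k2, key _ k3 k4]
  refine A2_congr hcf ?_
  have hsh : ∀ (u : Vert) (a b k l : ℤ), ((u.1 + a * N - (k + a) * N, u.2 + b * N - (l + b) * N) : Vert) =
      (u.1 - k * N, u.2 - l * N) := by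
    intro u a b k l
    ext <;> (simp only; ring)
  rcases hd with ⟨hd3, hd4⟩ | ⟨hd3, hd4⟩
  · -- `x` inside
    obtain ⟨k, l, hk⟩ := hnear p (by have := hd1 hp; omega)
    obtain ⟨k', l', hk'⟩ := hnear p' (by have := hd1 hp'; omega)
    have hX : R < dT N (nb (cV N) j) c := by have := hd2 (nb_Nb (cV N) j); omega
    have hY : R < dT N (nb (cV N) i) c := by have := hd2 (nb_Nb (cV N) i); omega
    refine A2_of_cross hper ht htR h0 (a := k + a) (b := l + b) (a' := k' + a') (b' := l' + b')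
      ?_ (notMem_of_lt hN1 hX _ _) t1 (Conn.refl (Set.mem_univ _)) ?_
      (notMem_of_lt hN1 hY _ _) t2 (Conn.refl (Set.mem_univ _))
    · simp only
      rw [hsh]
      exact hk
    · simp only
      rw [hsh]
      exact hk'
  · -- the middle site inside
    obtain ⟨k, l, hk⟩ := hnear (nb (cV N) j) (by have := hd1 (nb_Nb (cV N) j); omega)
    obtain ⟨k', l', hk'⟩ := hnear (nb (cV N) i) (by have := hd1 (nb_Nb (cV N) i); omega)
    have hX : R < dT N p c := by have := hd2 hp; omega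
    have hY : R < dT N p' c := by have := hd2 hp'; omega
    refine A2_of_cross hper ht htR h0 hk
      (notMem_of_lt hN1 (by rw [dT_shift hN1]; exact hX) _ _) (Conn.refl (Set.mem_univ _)) t1 hk'
      (notMem_of_lt hN1 (by rw [dT_shift hN1]; exact hY) _ _) (Conn.refl (Set.mem_univ _)) t2

end Pool.Agent.H92.SN

end

section

/-!
# Probabilities of the corridor event and of the seals; locality
-/

set_option autoImplicit false

open MeasureTheory ProbabilityTheory unitInterval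

namespace Pool.Agent.H83.PST

open Pool.Agent.H89.Perc
open Pool.Agent.H61.NC (modE)
open Pool.Agent.H83.SK (sv sit sit_true RSWreg)
open Pool.Agent.H59.EX (LocS inE touch clus closeS Side T Mouth Fence dom pb grid)
open Pool.Agent.H38.N59 (vE rv Src det Seal Four sv_mem_vE)
open Pool.Agent.H26.ST (Cor glu PerInv sh TD Rel1 In glu_per)
open Pool.Agent.H92.SN (WindS tSites)

end Pool.Agent.H83.PST

end

section

/-!
# Lower bounds for the influence of a site of the torus; small tori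
-/

set_option autoImplicit false

open MeasureTheory ProbabilityTheory unitInterval

namespace Pool.Agent.H83.PST

open Pool.Agent.H89.Perc
open Pool.Agent.H61.NC (modE ctr mid)
open Pool.Agent.H83.SK (sv sit sit_true RSWreg sT sitT)
open Pool.Agent.H92.SN (WindS tSites mem_tSites localOn_WindS incr_WindS pivot_windS cE)

/-! ### Small tori -/

end Pool.Agent.H83.PST

end

section

/-!
# The two forms of the four-arm probability of a site

`SK.a4` sums over two kinds of pairs of neighbours of the origin, `SN.a4` is the probability of the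
union over all pairs.
-/

set_option autoImplicit false

open MeasureTheory ProbabilityTheory unitInterval

namespace Pool.Agent.H38.SKConv

open Pool.Agent.H89.Perc
open Pool.Agent.H59.EX (Gen closeS Four)
open Pool.Agent.H83.SK (s4 star0 IsAut isAut_swap isAut_reflX isAut_reflY sitT blkS)
open Pool.Agent.H92.SN (closeV A4 Nb WindS)
open Pool.Agent.H61.NC (fill blk mid)

variable {q : I} {r : ℕ}

end Pool.Agent.H38.SKConv

end
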