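import Pool.Agent.H94.BG.H31.PT.M25_1
import Pool.Agent.H94.BG.M24
import Pool.Agent.H94.BG.M27

/-! The parts of this file: H13.SK.LenTwo, H13.SK.LenThree. -/

section

/-!
# The characteristic length of site percolation
-/

set_option autoImplicit false

open MeasureTheory ProbabilityTheory unitInterval Filter Topology

namespace Pool.Agent.H13.SK

open Pool.Agent.H89.Perc Pool.Agent.H83.Site

theorem abs_small : ∃ η > (0 : ℝ), ∀ h : ℝ, 0 < h → h < η →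
    0 ≤ (pc : ℝ) - h ∧ (pc : ℝ) + h ≤ 1 := by
  refine ⟨min (pc : ℝ) (1 - pc), lt_min pc_pos (by linarith [pc_lt_one]), fun h h0 h1 => ?_⟩
  have h2 := h1.trans_le (min_le_left _ _)
  have h3 := h1.trans_le (min_le_right _ _)
  constructor <;> linarith

theorem len_facts {a4 : I → ℕ → ℝ} {Wp : I → ℕ → ℝ} {Reg : ℝ → ℕ → I → Prop}
    (H : NC a4 Wp Reg) : ∃ L : ℝ → ℕ, LenFacts a4 L := by
  obtain ⟨δ₁, hδ₁, H1⟩ := H.scale_plus
  obtain ⟨δ₂, hδ₂, H2⟩ := H.scale_minus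
  obtain ⟨δ₃, hδ₃, H3⟩ := exists_bad_pc
  obtain ⟨δ₄, hδ₄, cθ, hcθ, H4⟩ := theta_low bxp_pc.1
  obtain ⟨δ₅, hδ₅, Cσ, hCσ, H5⟩ := sum_good bxp_pc.1
  obtain ⟨δ, hδe⟩ : ∃ δ : ℝ, δ = min δ₁ (min δ₂ (min δ₃ (min δ₄ δ₅))) := ⟨_, rfl⟩
  have hδ : 0 < δ := by
    rw [hδe]; exact lt_min hδ₁ (lt_min hδ₂ (lt_min hδ₃ (lt_min hδ₄ hδ₅)))
  have e1 : δ ≤ δ₁ := by rw [hδe]; exact min_le_left _ _
  have e2 : δ ≤ δ₂ := by rw [hδe]; exact (min_le_right _ _).trans (min_le_left _ _)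
  have e3 : δ ≤ δ₃ := by
    rw [hδe]; exact (min_le_right _ _).trans ((min_le_right _ _).trans (min_le_left _ _))
  have e4 : δ ≤ δ₄ := by
    rw [hδe]
    exact (min_le_right _ _).trans ((min_le_right _ _).trans ((min_le_right _ _).trans
      (min_le_left _ _)))
  have e5 : δ ≤ δ₅ := by
    rw [hδe]
    exact (min_le_right _ _).trans ((min_le_right _ _).trans ((min_le_right _ _).trans
      (min_le_right _ _)))
  obtain ⟨c₁, hc₁, C₁, hC₁, S1⟩ := H1 δ hδ e1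
  obtain ⟨c₂, hc₂, C₂, hC₂, S2⟩ := H2 δ hδ e2
  obtain ⟨c₀, hc₀, δ₀, hδ₀, hG⟩ := H.growth
  obtain ⟨K₁, hK₁, cmp1⟩ := scale_cmp hc₀ hδ₀ hc₁ hC₂ 64
  obtain ⟨K₂, hK₂, cmp2⟩ := scale_cmp hc₀ hδ₀ hc₂ hC₁ 64
  obtain ⟨η₀, hη₀, hsm⟩ := abs_small
  -- both lengths are large
  have hlarge : ∀ n : ℕ, ∃ η > (0 : ℝ), η ≤ η₀ ∧ ∀ h : ℝ, 0 < h → h < η →
      n ≤ Len δ (pI (pc + h)) false ∧ n ≤ Len δ (σ (pI (pc - h))) true := by
    intro n
    have b1 := bad_near (δ := δ) (p₀ := pc) (r := false)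
      (fun m hm hg => (H3 m hm).1 (hg.mono e3)) n
    have b2 := bad_near (δ := δ) (p₀ := σ pc) (r := true)
      (fun m hm hg => (H3 m hm).2 (hg.mono e3)) n
    rw [Metric.eventually_nhds_iff] at b1 b2
    obtain ⟨η₁, hη₁, b1⟩ := b1
    obtain ⟨η₂, hη₂, b2⟩ := b2
    refine ⟨min η₀ (min η₁ η₂), lt_min hη₀ (lt_min hη₁ hη₂), min_le_left _ _,
      fun h h0 h1 => ?_⟩
    have h2 := h1.trans_le (min_le_left _ _)
    have h3 := h1.trans_le ((min_le_right _ _).trans (min_le_left _ _))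
    have h4 := h1.trans_le ((min_le_right _ _).trans (min_le_right _ _))
    obtain ⟨h5, h6⟩ := hsm h h0 h2
    have v1 : ((pI (pc + h) : I) : ℝ) = pc + h := pI_val (by linarith [pc_pos]) h6
    have v2 : ((pI (pc - h) : I) : ℝ) = pc - h := pI_val h5 (by linarith [pc_lt_one])
    constructor
    · refine le_Len (H.exists_good_plus hδ ?_) (b1 ?_)
      · change (pc : ℝ) < ((pI (pc + h) : I) : ℝ)
        rw [v1]; linarith
      · rw [Subtype.dist_eq, v1, Real.dist_eq]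
        have : (pc : ℝ) + h - pc = h := by ring
        rw [this, abs_of_pos h0]
        exact h3
    · refine le_Len (H.exists_good_minus hδ ?_) (b2 ?_)
      · change ((pI (pc - h) : I) : ℝ) < (pc : ℝ)
        rw [v2]; linarith
      · rw [Subtype.dist_eq, Real.dist_eq]
        have e : ((σ (pI (pc - h)) : I) : ℝ) = 1 - (pc - h) := by
          rw [show ((σ (pI (pc - h)) : I) : ℝ) = 1 - ((pI (pc - h) : I) : ℝ) from rfl, v2]
        have e' : ((σ pc : I) : ℝ) = 1 - pc := rfl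
        rw [e, e']
        have : 1 - ((pc : ℝ) - h) - (1 - pc) = h := by ring
        rw [this, abs_of_pos h0]
        exact h4
  -- comparison of the lengths
  obtain ⟨η₅, hη₅, hη₅', hL5⟩ := hlarge 5
  have hcmp : ∀ h : ℝ, 0 < h → h < η₅ →
      Len δ (σ (pI (pc - h))) true ≤ K₁ * Len δ (pI (pc + h)) false ∧
      Len δ (pI (pc + h)) false ≤ K₂ * Len δ (σ (pI (pc - h))) true := by
    intro h h0 h1
    obtain ⟨h5, h6⟩ := hsm h h0 (h1.trans_le hη₅')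
    have v1 : ((pI (pc + h) : I) : ℝ) = pc + h := pI_val (by linarith [pc_pos]) h6
    have v2 : ((pI (pc - h) : I) : ℝ) = pc - h := pI_val h5 (by linarith [pc_lt_one])
    obtain ⟨l1, l2⟩ := hL5 h h0 h1
    have s1 := S1 (pI (pc + h)) (by
      change (pc : ℝ) < ((pI (pc + h) : I) : ℝ)
      rw [v1]; linarith) l1
    have s2 := S2 (pI (pc - h)) (by
      change ((pI (pc - h) : I) : ℝ) < (pc : ℝ)
      rw [v2]; linarith) l2
    rw [v1] at s1
    rw [v2] at s2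
    have a1 : (pc : ℝ) + h - pc = h := by ring
    have a2 : (pc : ℝ) - (pc - h) = h := by ring
    rw [a1] at s1
    rw [a2] at s2
    exact ⟨cmp1 (a4 pc) hG h h _ _ (by omega) (by omega) h0 le_rfl s1.1 s2.2,
      cmp2 (a4 pc) hG h h _ _ (by omega) (by omega) h0 le_rfl s2.1 s1.2⟩
  refine ⟨fun h => Len δ (pI (pc + h)) false, ?_⟩
  constructor
  · intro n
    obtain ⟨η, hη, -, hl⟩ := hlarge n
    exact ⟨η, hη, fun h h0 h1 => (hl h h0 h1).1⟩
  · intro K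
    obtain ⟨c, hc, hr⟩ := reg_plus δ hδ 8 K
    obtain ⟨c', hc', hr'⟩ := reg_minus δ hδ 8 (K * K₂)
    refine ⟨min c c', lt_min hc hc', η₅, hη₅, fun h h0 h1 q hq => ?_⟩
    obtain ⟨h5, h6⟩ := hsm h h0 (h1.trans_le hη₅')
    have v1 : ((pI (pc + h) : I) : ℝ) = pc + h := pI_val (by linarith [pc_pos]) h6
    have v2 : ((pI (pc - h) : I) : ℝ) = pc - h := pI_val h5 (by linarith [pc_lt_one])
    obtain ⟨l1, l2⟩ := hL5 h h0 h1
    obtain ⟨-, k2⟩ := hcmp h h0 h1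
    rw [abs_le] at hq
    rcases le_total pc q with hq' | hq'
    · exact (hr (pI (pc + h)) _ (by omega) (fun m hm hml => not_good_of_lt hm hml) q hq' (by
        change (q : ℝ) ≤ ((pI (pc + h) : I) : ℝ)
        rw [v1]; linarith)).mono_c (min_le_left _ _)
    · refine ((hr' (pI (pc - h)) _ (by omega) (fun m hm hml => not_good_of_lt hm hml) q (by
        change ((pI (pc - h) : I) : ℝ) ≤ (q : ℝ)
        rw [v2]; linarith) hq').mono_c (min_le_right _ _)).anti ?_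
      calc K * Len δ (pI (pc + h)) false ≤ K * (K₂ * Len δ (σ (pI (pc - h))) true) :=
            Nat.mul_le_mul_left K k2
        _ = _ := by ring
  · refine ⟨c₁, hc₁, C₁, hC₁, η₅, hη₅, fun h h0 h1 => ?_⟩
    obtain ⟨h5, h6⟩ := hsm h h0 (h1.trans_le hη₅')
    have v1 : ((pI (pc + h) : I) : ℝ) = pc + h := pI_val (by linarith [pc_pos]) h6
    obtain ⟨l1, -⟩ := hL5 h h0 h1
    have s1 := S1 (pI (pc + h)) (by
      change (pc : ℝ) < ((pI (pc + h) : I) : ℝ)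
      rw [v1]; linarith) l1
    rw [v1] at s1
    have a1 : (pc : ℝ) + h - pc = h := by ring
    rw [a1] at s1
    exact s1
  · refine ⟨cθ, hcθ, η₅, hη₅, fun h h0 h1 p hp => ?_⟩
    have hpe := pI_eq hp
    simp only [hpe]
    have hpp : pc < p := by
      change (pc : ℝ) < (p : ℝ)
      rw [hp]; linarith
    have hs := Len_spec (H.exists_good_plus hδ hpp)
    refine le_trans ?_ (H4 p hpp.le _ hs.1 (hs.2.mono e4))
    exact mul_le_mul_of_nonneg_left (ab_mono_param _ _ _ hpp.le) hcθ.le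
  · obtain ⟨cπ, hcπ, hπ⟩ := arm_extT bxp_pc.1
    refine ⟨Cσ * K₁ ^ 2 * (K₂ / cπ ^ 2 + 1), by positivity, η₅, hη₅, fun h h0 h1 p hp F => ?_⟩
    have hpe := pI_eq hp
    have hpp : p < pc := by
      change (p : ℝ) < (pc : ℝ)
      rw [hp]; linarith
    have hs := Len_spec (H.exists_good_minus hδ hpp)
    obtain ⟨k1, k2⟩ := hcmp h h0 h1
    have l1 := (hL5 h h0 h1).1
    rw [hpe] at k1 k2
    obtain ⟨M, hM⟩ : ∃ M : ℕ, M = Len δ (σ p) true := ⟨_, rfl⟩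
    obtain ⟨N, hN⟩ : ∃ N : ℕ, N = Len δ (pI (pc + h)) false := ⟨_, rfl⟩
    have h6 := H5 p hpp.le _ hs.1 (hs.2.mono e5) F
    rw [← hM] at h6 k1 k2 hs
    rw [← hN] at k1 k2 l1 ⊢
    have hM1 : (1 : ℝ) ≤ M := by exact_mod_cast hs.1
    have hN1 : (1 : ℝ) ≤ N := by exact_mod_cast (by omega : 1 ≤ N)
    have k1' : (M : ℝ) ≤ K₁ * N := by exact_mod_cast k1
    have k2' : (N : ℝ) ≤ K₂ * M := by exact_mod_cast k2
    refine h6.trans ?_
    have hK1 : (1 : ℝ) ≤ K₁ := by exact_mod_cast hK₁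
    have hK2 : (1 : ℝ) ≤ K₂ := by exact_mod_cast hK₂
    have hpi0 : 0 ≤ ab pc false 0 M := ab_nonneg
    have hpi1 : 0 ≤ ab pc false 0 N := ab_nonneg
    -- comparison of the arms
    have h7 : ab pc false 0 M ^ 2 ≤ (K₂ / cπ ^ 2 + 1) * ab pc false 0 N ^ 2 := by
      rcases le_total M N with h8 | h8
      · have h9 := hπ pc le_rfl M N (by omega) h8
        have h10 : (cπ * Real.sqrt ((M : ℝ) / N) * ab pc false 0 M) ^ 2 ≤
            ab pc false 0 N ^ 2 := by gcongr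
        rw [mul_pow, mul_pow, Real.sq_sqrt (by positivity)] at h10
        have h11 : 1 / (K₂ : ℝ) ≤ M / N := by
          rw [div_le_div_iff₀ (by positivity) (by positivity)]
          linarith
        have h12 : cπ ^ 2 * (1 / K₂) * ab pc false 0 M ^ 2 ≤ ab pc false 0 N ^ 2 := by
          refine le_trans ?_ h10
          gcongr
        have h13 : ab pc false 0 M ^ 2 ≤ K₂ / cπ ^ 2 * ab pc false 0 N ^ 2 := by
          calc ab pc false 0 M ^ 2 = K₂ / cπ ^ 2 * (cπ ^ 2 * (1 / K₂) * ab pc false 0 M ^ 2) := by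
                field_simp
            _ ≤ _ := by gcongr
        nlinarith [sq_nonneg (ab pc false 0 N)]
      · have h9 : ab pc false 0 M ≤ ab pc false 0 N := ab_mono le_rfl h8 (by omega)
        have h10 : ab pc false 0 M ^ 2 ≤ ab pc false 0 N ^ 2 := by gcongr
        have h11 : 0 ≤ K₂ / cπ ^ 2 * ab pc false 0 N ^ 2 := by positivity
        nlinarith
    calc Cσ * (M : ℝ) ^ 2 * ab pc false 0 M ^ 2
        ≤ Cσ * (K₁ * N) ^ 2 * ((K₂ / cπ ^ 2 + 1) * ab pc false 0 N ^ 2) := by gcongr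
      _ = _ := by ring

end Pool.Agent.H13.SK

end

section

/-!
# The regime in the window around the critical density
-/

set_option autoImplicit false

open MeasureTheory ProbabilityTheory unitInterval Filter Topology

namespace Pool.Agent.H13.SK

open Pool.Agent.H89.Perc Pool.Agent.H83.Site

variable {a4 : I → ℕ → ℝ} {Wp : I → ℕ → ℝ} {Reg : ℝ → ℕ → I → Prop}

/-- `n ^ 2 a4(n)` is bounded below. -/
theorem NC.sq_low (H : NC a4 Wp Reg) :
    ∃ c₂ > (0 : ℝ), ∀ n : ℕ, 1 ≤ n → c₂ ≤ (n : ℝ) ^ 2 * a4 pc n := by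
  obtain ⟨c₀, hc₀, δ₀, hδ₀, hδ₁, hG⟩ := H.growth1
  refine ⟨c₀ * a4 pc 1, mul_pos hc₀ H.pos, fun n hn => ?_⟩
  have hn1 : (1 : ℝ) ≤ n := by exact_mod_cast hn
  have h1 := grow_sq hG (m := 1) (n := n) le_rfl hn (by omega)
  have h2 : 1 ≤ ((n : ℝ) / (1 : ℕ)) ^ δ₀ := by
    refine Real.one_le_rpow ?_ hδ₀.le
    rw [Nat.cast_one, div_one]
    exact hn1
  have h3 : 0 < c₀ * a4 pc 1 := mul_pos hc₀ H.pos
  refine le_trans ?_ h1
  have e : c₀ * ((n : ℝ) / (1 : ℕ)) ^ δ₀ * (((1 : ℕ) : ℝ) ^ 2 * a4 pc 1) =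
      ((n : ℝ) / (1 : ℕ)) ^ δ₀ * (c₀ * a4 pc 1) := by
    push_cast
    ring
  rw [e]
  nlinarith

/-- Positivity of the four-arm probability at the critical density. -/
theorem NC.pos_pc (H : NC a4 Wp Reg) (n : ℕ) (hn : 1 ≤ n) : 0 < a4 pc n := by
  obtain ⟨c₂, hc₂, h⟩ := H.sq_low
  have h1 := hc₂.trans_le (h n hn)
  exact (mul_pos_iff_of_pos_left (by positivity)).1 h1

/-- **The window is in the regime.** -/
theorem window_reg (H : NC a4 Wp Reg) (K : ℕ) : ∃ c > (0 : ℝ), ∃ c' > (0 : ℝ),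
    ∀ (n : ℕ) (q : I), 1 ≤ n → |(q : ℝ) - pc| * ((n : ℝ) ^ 2 * a4 pc n) ≤ c' →
      RegT 8 c (K * n) q := by
  obtain ⟨L, F⟩ := len_facts H
  obtain ⟨c₀, hc₀, δ₀, hδ₀, hδ₁, hG⟩ := H.growth1
  obtain ⟨c₂, hc₂, hsq⟩ := H.sq_low
  obtain ⟨cs, hcs, Cs, hCs, ηs, hηs, hscale⟩ := F.scale
  obtain ⟨cr, hcr, ηr, hηr, hreg⟩ := F.reg K
  obtain ⟨ηl, hηl, hlarge⟩ := F.large 1
  obtain ⟨cp, hcp, hpc⟩ := regT_pc 8
  obtain ⟨c₃, hc₃, hsmall⟩ := scale_small hc₀ hδ₀ hcs (k := 1) le_rfl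
  set η : ℝ := min ηs (min ηr ηl) with hη
  have hη0 : 0 < η := lt_min hηs (lt_min hηr hηl)
  refine ⟨min cr cp, lt_min hcr hcp, min c₃ (η * c₂ / 2), lt_min hc₃ (by positivity), ?_⟩
  intro n q hn hq
  rcases eq_or_ne ((q : ℝ) - pc) 0 with h0 | h0
  · have : q = pc := Subtype.ext (by linarith)
    rw [this]
    exact (hpc (K * n)).mono_c (min_le_right _ _)
  · set h : ℝ := |(q : ℝ) - pc| with hh
    have hh0 : 0 < h := abs_pos.2 h0
    have h1 : h * c₂ ≤ h * ((n : ℝ) ^ 2 * a4 pc n) := mul_le_mul_of_nonneg_left (hsq n hn) hh0.le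
    have h2 : h < η := by
      have h3 : h * c₂ ≤ η * c₂ / 2 := h1.trans (hq.trans (min_le_right _ _))
      by_contra hlt
      push Not at hlt
      nlinarith
    have hs : h < ηs := h2.trans_le (min_le_left _ _)
    have hr : h < ηr := h2.trans_le ((min_le_right _ _).trans (min_le_left _ _))
    have hl : h < ηl := h2.trans_le ((min_le_right _ _).trans (min_le_right _ _))
    have h4 := hsmall (a4 pc) hG h h (L h) n (hlarge h hh0 hl) hn hh0 le_rfl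
      (hscale h hh0 hs).1 (hq.trans (min_le_left _ _))
    rw [one_mul] at h4
    exact ((hreg h hh0 hr q le_rfl).anti (Nat.mul_le_mul_left K h4)).mono_c (min_le_left _ _)

/-- The window is in the abstract regime. -/
theorem window_reg' (H : NC a4 Wp Reg) (K : ℕ) : ∃ c > (0 : ℝ), ∃ c' > (0 : ℝ),
    ∀ (n : ℕ) (q : I), 1 ≤ n → |(q : ℝ) - pc| * ((n : ℝ) ^ 2 * a4 pc n) ≤ c' →
      Reg c (K * n) q := by
  obtain ⟨c, hc, c', hc', h⟩ := window_reg H K
  obtain ⟨c'', hc'', hd⟩ := H.dict c hc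
  exact ⟨c'', hc'', c', hc', fun n q hn hq => hd _ q (h n q hn hq)⟩

end Pool.Agent.H13.SK

end
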