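import Pool.Agent.H94.BG.H31.PT.H90.AL.Sums
import Pool.Agent.H94.BG.H31.PT.M07_4
import Pool.Agent.H94.BG.H31.PT.M07_6
import Pool.Agent.H94.BG.H31.PT.M24
import Pool.Agent.H94.BG.M20

/-! The parts of this file: H13.SK.FinalThree, H13.SK.KExp, H13.SK.KLim, H13.SK.Comb, H13.SK.KTransfer, H92.SN.Est, H92.SN.Second, H92.SN.Win, H92.SN.WinPc. -/

section

/-!
# The remainder of the cluster density in terms of `θ` and `σ`
-/

set_option autoImplicit false

open MeasureTheory ProbabilityTheory unitInterval Filter Topology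
open scoped ENNReal

namespace Pool.Agent.H13.SK

open Pool.Agent.H89.Perc Pool.Agent.H83.Site

variable {a4 : I → ℕ → ℝ} {Wp : I → ℕ → ℝ} {Reg : ℝ → ℕ → I → Prop}

/-- The mean cluster size. -/
noncomputable def mcs (G : (ℤ × ℤ → Bool) → SimpleGraph (ℤ × ℤ)) (p : I) : ℝ≥0∞ :=
  ∫⁻ ω, (({v | ω (0, 0) = true ∧ (G ω).Reachable (0, 0) v}.encard : ℕ∞) : ℝ≥0∞)
    ∂(Measure.infinitePi (fun _ : ℤ × ℤ => bernoulliMeasure true false p))

/-- The bound of the remainder by the four-arm probabilities. -/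
def RemB (a : ℕ → ℝ) (Rm : ℝ → ℝ) : Prop :=
  ∃ cr > (0 : ℝ), ∃ Cr > (0 : ℝ), ∃ n₀ : ℕ, ∀ n : ℕ, n₀ ≤ n → 1 ≤ n → ∀ x : ℝ, 0 < x →
    x * ((n : ℝ) ^ 2 * a n) ≤ cr →
    Rm x ≤ Cr * (1 / (n : ℝ) ^ 2 + (1 / ((n : ℝ) ^ 2 * a n)) ^ 3 * SumB a n)

theorem Scl.shrink {a : ℕ → ℝ} {L : ℝ → ℕ} {c₀ δ₀ cs Cs η η' : ℝ} (S : Scl a L c₀ δ₀ cs Cs η)
    (h0 : 0 < η') (h : η' ≤ η) : Scl a L c₀ δ₀ cs Cs η' :=
  { S with
    hη := h0
    one := fun t h1 h2 => S.one t h1 (h2.trans_le h)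
    scale := fun t h1 h2 => S.scale t h1 (h2.trans_le h) }

end Pool.Agent.H13.SK

end

section

/-!
# The expected number of open clusters in a box and its derivative
-/

set_option autoImplicit false

open MeasureTheory ProbabilityTheory unitInterval Filter Topology

namespace Pool.Agent.H13.SK

open Pool.Agent.H89.Perc Pool.Agent.H92.SN
open Pool.Agent.H83.SK (sv sit)

/-- The vertices of the box. -/
def bV (n : ℕ) : Set Vert := {v | 0 ≤ v.1 ∧ v.1 < n ∧ 0 ≤ v.2 ∧ v.2 < n}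

/-- The expected number of open clusters in the box. -/
noncomputable def EKO (n : ℕ) (p : ℝ) : ℝ :=
  Pool.Agent.Perc.Ex p (tSites n) (fun S => (KO (ofS S) (bV n) : ℝ))

theorem bV_finite (n : ℕ) : (bV n).Finite := by
  refine ((Finset.Icc (0 : ℤ) n ×ˢ Finset.Icc (0 : ℤ) n).finite_toSet).subset ?_
  rintro ⟨x, y⟩ ⟨h1, h2, h3, h4⟩
  simp only [Finset.coe_product, Finset.coe_Icc, Set.mem_prod, Set.mem_Icc]
  exact ⟨⟨h1, h2.le⟩, h3, h4.le⟩

theorem sv_mem_tSites {n : ℕ} {v : Vert} : sv v ∈ tSites n ↔ v ∈ bV n := by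
  simp only [tSites, Finset.mem_product, Finset.mem_Ico, Finset.mem_singleton, sv, bV,
    Set.mem_ofPred_eq, and_true]
  tauto

theorem eq_sv_of_mem {n : ℕ} {e : Edge} (h : e ∈ tSites n) : e = sv (src e) := by
  simp only [tSites, Finset.mem_product, Finset.mem_singleton] at h
  obtain ⟨x, y, t⟩ := e
  have ht : t = false := h.2.2
  subst ht
  rfl

theorem src_mem_bV {n : ℕ} {e : Edge} (h : e ∈ tSites n) : src e ∈ bV n := by
  rw [← sv_mem_tSites, ← eq_sv_of_mem h]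
  exact h

open Classical in
/-- The number of neighbours of `v` in the box. -/
noncomputable def nbc (n : ℕ) (v : Vert) : ℝ :=
  ∑ i ∈ Finset.range 4, if nb v i ∈ bV n then (1 : ℝ) else 0

/-- The expected change of the number of clusters when `v` is opened. -/
noncomputable def dS (n : ℕ) (q : I) (v : Vert) : ℝ :=
  1 - q * nbc n v + ∑ i ∈ Finset.Icc 1 3, Pool.Agent.H83.SK.Pr q (Dn (bV n) v i)

theorem localOn_open {n : ℕ} {v : Vert} (hv : v ∈ bV n) :
    LocalOn (tSites n) {w : Config | w (sv v) = true} := by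
  intro w w' h hw
  rw [Set.mem_ofPred_eq] at hw ⊢
  rw [← h _ (sv_mem_tSites.2 hv)]
  exact hw

theorem nbc_nonneg (n : ℕ) (v : Vert) : 0 ≤ nbc n v := by
  unfold nbc
  refine Finset.sum_nonneg fun i _ => ?_
  split_ifs <;> norm_num

theorem nbc_le (n : ℕ) (v : Vert) : nbc n v ≤ 4 := by
  unfold nbc
  have : ∑ i ∈ Finset.range 4, (1 : ℝ) = 4 := by simp
  rw [← this]
  refine Finset.sum_le_sum fun i _ => ?_
  split_ifs <;> norm_num

theorem abs_dS_le (n : ℕ) (q : I) (v : Vert) : |dS n q v| ≤ 4 := by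
  have h1 := nbc_nonneg n v
  have h2 := nbc_le n v
  have h3 : 0 ≤ ∑ i ∈ Finset.Icc 1 3, Pool.Agent.H83.SK.Pr q (Dn (bV n) v i) :=
    Finset.sum_nonneg fun _ _ => Pool.Agent.H83.SK.Pr_nonneg
  have h4 : ∑ i ∈ Finset.Icc 1 3, Pool.Agent.H83.SK.Pr q (Dn (bV n) v i) ≤ 3 := by
    have : ∑ i ∈ Finset.Icc 1 3, Pool.Agent.H83.SK.Pr q (Dn (bV n) v i) ≤
        ∑ i ∈ Finset.Icc 1 3, (1 : ℝ) :=
      Finset.sum_le_sum fun _ _ => Pool.Agent.H83.SK.Pr_le_one
    simpa using this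
  have h5 := q.2.1
  have h6 := q.2.2
  have h7 : (q : ℝ) * nbc n v ≤ 1 * 4 := mul_le_mul h6 h2 h1 zero_le_one
  have h8 : 0 ≤ (q : ℝ) * nbc n v := mul_nonneg h5 h1
  rw [abs_le]
  unfold dS
  constructor <;> linarith

theorem card_tSites (n : ℕ) : ((tSites n).card : ℝ) = (n : ℝ) ^ 2 := by
  unfold tSites
  rw [Finset.card_product, Finset.card_product, Int.card_Ico, Finset.card_singleton]
  have : ((n : ℤ) - 0).toNat = n := by omega
  rw [this]
  push_cast
  ring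

theorem EKO_zero (n : ℕ) : EKO n 0 = 0 := by
  unfold EKO
  unfold Pool.Agent.Perc.Ex
  refine Finset.sum_eq_zero fun S hS => ?_
  rcases S.eq_empty_or_nonempty with rfl | hne
  · have h0 : KO (ofS ∅) (bV n) = 0 := by
      unfold KO oClus
      have : {C : Set Vert | ∃ v ∈ bV n, ofS ∅ (sv v) = true ∧
          C = {u | Conn (sit (ofS ∅)) (bV n) v u}} = ∅ := by
        ext C
        simp only [Set.mem_ofPred_eq, Set.mem_empty_iff_false, iff_false]
        rintro ⟨v, -, h, -⟩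
        rw [ofS_eq_true] at h
        exact Finset.notMem_empty _ h
      rw [this, Set.ncard_empty]
    beta_reduce
    rw [h0]
    simp
  · have : S.card ≠ 0 := fun h => hne.ne_empty (Finset.card_eq_zero.1 h)
    rw [zero_pow this]
    simp

end Pool.Agent.H13.SK

end

section

/-!
# The cluster density
-/

set_option autoImplicit false

open MeasureTheory ProbabilityTheory unitInterval Filter Topology

namespace Pool.Agent.H13.SK

open Pool.Agent.H89.Perc Pool.Agent.H92.SN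
open Pool.Agent.H83.SK (sv sit)

/-- The derivative of the expected number of clusters. -/
noncomputable def DN (n : ℕ) (q : I) : ℝ := ∑ e ∈ tSites n, dS n q (src e)

theorem abs_DN_le (n : ℕ) (q : I) : |DN n q| ≤ 4 * (n : ℝ) ^ 2 := by
  unfold DN
  refine (Finset.abs_sum_le_sum_abs _ _).trans ?_
  refine (Finset.sum_le_sum fun e _ => abs_dS_le n q (src e)).trans ?_
  rw [Finset.sum_const, nsmul_eq_mul, card_tSites]
  linarith

theorem nb_mem_ball (v : Vert) {m : ℕ} (hm : 1 ≤ m) (i : ℕ) : nb v i ∈ ball v m :=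
  (nb_Nb v i).mem_ball hm

theorem nbc_interior {n m : ℕ} (hm : 1 ≤ m) {v : Vert} (h : ball v m ⊆ bV n) : nbc n v = 4 := by
  classical
  unfold nbc
  have h1 : ∀ i : ℕ, i ∈ Finset.range 4 → nb v i ∈ bV n := fun i _ => h (nb_mem_ball v hm i)
  rw [Finset.sum_congr rfl fun i hi => if_pos (h1 i hi)]
  simp

/-- The error of the approximation in the ball of radius `m`. -/
noncomputable def errS (m : ℕ) (q : I) : ℝ :=
  ∑ i ∈ Finset.Icc 1 3, (Pool.Agent.H83.SK.Pr q (Dn Set.univ 0 i) - tl i m q)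

theorem errS_nonneg (m : ℕ) (q : I) : 0 ≤ errS m q :=
  Finset.sum_nonneg fun i _ => sub_nonneg.2 (tl_le i m q)

theorem abs_tgt_le (q : I) : |1 - 4 * (q : ℝ) + tau q| ≤ 4 := by
  have h1 := tau_nonneg q
  have h2 := tau_le_three q
  have h3 := q.2.1
  have h4 := q.2.2
  rw [abs_le]
  constructor <;> linarith

/-- The cluster density. -/
noncomputable def kapS (p : ℝ) : ℝ := ∫ x in (0 : ℝ)..p, (1 - 4 * x + tauR x)

/-! ### The derivative -/

theorem tauR_eq (q : I) : tauR q = tau q := by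
  unfold tauR
  rw [dif_pos q.2]

theorem tauR_continuousOn (h : Continuous tau) : ContinuousOn tauR (Set.Icc 0 1) := by
  rw [continuousOn_iff_continuous_domRestrict]
  have : (Set.Icc (0 : ℝ) 1).domRestrict tauR = tau := by
    funext q
    exact tauR_eq q
  rw [this]
  exact h

theorem kapS_hasDerivAt (h : Continuous tau) {x : ℝ} (h0 : 0 < x) (h1 : x < 1) :
    HasDerivAt kapS (1 - 4 * x + tauR x) x := by
  have hcon : ContinuousOn (fun x : ℝ => 1 - 4 * x + tauR x) (Set.Icc 0 1) :=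
    (Continuous.continuousOn (by fun_prop)).add (tauR_continuousOn h)
  have hco : ∀ y ∈ Set.Ioo (0 : ℝ) 1, ContinuousAt (fun x : ℝ => 1 - 4 * x + tauR x) y :=
    fun y hy => hcon.continuousAt (Icc_mem_nhds hy.1 hy.2)
  unfold kapS
  refine intervalIntegral.integral_hasDerivAt_right ?_ ?_ (hco x ⟨h0, h1⟩)
  · refine ContinuousOn.intervalIntegrable ?_
    rw [Set.uIcc_of_le h0.le]
    exact hcon.mono (Set.Icc_subset_Icc_right h1.le)
  · exact ContinuousAt.stronglyMeasurableAtFilter isOpen_Ioo hco x ⟨h0, h1⟩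

end Pool.Agent.H13.SK

end

section

/-!
# The remainder of the cluster density at the critical density
-/

set_option autoImplicit false

open MeasureTheory ProbabilityTheory unitInterval Filter Topology

namespace Pool.Agent.H13.SK

open Pool.Agent.H92.SN (tauR GLTorus)

/-- The bound of the remainder only depends on the values near zero. -/
theorem RemB.congr {a : ℕ → ℝ} {Rm Rm' : ℝ → ℝ} {c₀ δ₀ : ℝ} (hc₀ : 0 < c₀) (hδ₀ : 0 < δ₀)
    (hG : Grow c₀ δ₀ 1 a) (hpos : ∀ n, 1 ≤ n → 0 < a n) (h : RemB a Rm) {η : ℝ} (hη : 0 < η)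
    (he : ∀ x : ℝ, 0 < x → x < η → Rm' x = Rm x) : RemB a Rm' := by
  obtain ⟨cr, hcr, Cr, hCr, n₀, hb⟩ := h
  have hlim : Tendsto (fun n : ℕ => c₀ * (n : ℝ) ^ δ₀ * a 1) atTop atTop := by
    have h1 : Tendsto (fun n : ℕ => (n : ℝ) ^ δ₀) atTop atTop :=
      (tendsto_rpow_atTop hδ₀).comp tendsto_natCast_atTop_atTop
    exact (h1.const_mul_atTop hc₀).atTop_mul_const (hpos 1 le_rfl)
  obtain ⟨n₁, hn₁⟩ := eventually_atTop.1 (hlim.eventually_gt_atTop (cr / η))
  refine ⟨cr, hcr, Cr, hCr, max n₀ n₁, fun n hn h1 x hx hxn => ?_⟩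
  have h2 := hn₁ n ((le_max_right _ _).trans hn)
  have h3 : c₀ * (n : ℝ) ^ δ₀ * a 1 ≤ (n : ℝ) ^ 2 * a n := by
    have := grow_sq hG le_rfl h1 (by omega : 1 * 1 ≤ n)
    simpa using this
  have h4 : x < η := by
    have h5 : cr / η < (n : ℝ) ^ 2 * a n := h2.trans_le h3
    rw [div_lt_iff₀ hη] at h5
    by_contra hcon
    push Not at hcon
    have h6 : 0 < (n : ℝ) ^ 2 * a n := (div_pos hcr hη).trans (h2.trans_le h3)
    nlinarith only [hη, hxn, hcr, hcon, hx, h5]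
  rw [he x hx h4]
  exact hb n ((le_max_left _ _).trans hn) h1 x hx hxn

end Pool.Agent.H13.SK

end

section

/-!
# The number of clusters of the graph of open sites
-/

set_option autoImplicit false

open MeasureTheory ProbabilityTheory unitInterval Filter Topology

namespace Pool.Agent.H13.SK

open Pool.Agent.H89.Perc Pool.Agent.H92.SN
open Pool.Agent.H83.SK (sv sit)
open Pool.Agent.H83.Site (SA extS resS map_resS)

/-- A local function is measurable. -/
theorem measurable_of_local {s : Finset Edge} {f : Config → ℝ}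
    (hf : ∀ ω ω' : Config, (∀ e ∈ s, ω e = ω' e) → f ω = f ω') : Measurable f := by
  classical
  have h1 : f = fun ω => ∑ S ∈ s.powerset, (cyl s S).indicator (fun _ => f (ofS S)) ω := by
    funext ω
    set S0 : Finset Edge := s.filter (fun e => ω e = true) with hS0
    have hS0s : S0 ∈ s.powerset := Finset.mem_powerset.2 (Finset.filter_subset _ _)
    have hω : ω ∈ cyl s S0 := by
      rw [mem_cyl]
      intro e he
      rw [ofS_apply, hS0]
      simp [he]
    rw [Finset.sum_eq_single_of_mem S0 hS0s]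
    · rw [Set.indicator_of_mem hω]
      exact hf _ _ fun e he => mem_cyl.1 hω e he
    · intro S hS hne
      rw [Set.indicator_of_notMem]
      intro hc
      rw [mem_cyl] at hc hω
      apply hne
      ext e
      by_cases he : e ∈ s
      · have := (hc e he).symm.trans (hω e he)
        rw [ofS_apply, ofS_apply, decide_eq_decide] at this
        exact this
      · exact ⟨fun h => absurd (Finset.mem_powerset.1 hS h) he,
          fun h => absurd (Finset.mem_powerset.1 hS0s h) he⟩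
  rw [h1]
  exact Finset.measurable_sum _ fun S _ => measurable_const.indicator (measurableSet_cyl s S)

theorem conn_sit_congr {w w' : Config} {S : Set Vert} (h : ∀ v ∈ S, w (sv v) = w' (sv v))
    (u v : Vert) : Conn (sit w) S u v ↔ Conn (sit w') S u v := by
  have key : ∀ e, src e ∈ S → tgt e ∈ S → sit w e = sit w' e := by
    intro e h1 h2
    simp only [sit]
    rw [h _ h1, h _ h2]
  exact ⟨Conn.congr key, Conn.congr fun e h1 h2 => (key e h1 h2).symm⟩

theorem KO_congr {w w' : Config} {S : Set Vert} (h : ∀ v ∈ S, w (sv v) = w' (sv v)) :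
    KO w S = KO w' S := by
  unfold KO oClus
  congr 1
  ext C
  simp only [Set.mem_ofPred_eq]
  constructor
  · rintro ⟨v, hv, ho, rfl⟩
    refine ⟨v, hv, by rw [← h v hv]; exact ho, ?_⟩
    ext u
    exact conn_sit_congr h v u
  · rintro ⟨v, hv, ho, rfl⟩
    refine ⟨v, hv, by rw [h v hv]; exact ho, ?_⟩
    ext u
    exact (conn_sit_congr h v u).symm

theorem KO_local (n : ℕ) (w w' : Config) (h : ∀ e ∈ tSites n, w e = w' e) :
    (KO w (bV n) : ℝ) = KO w' (bV n) := by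
  have := KO_congr (w := w) (w' := w') (S := bV n) fun v hv => h _ (sv_mem_tSites.2 hv)
  rw [this]

theorem joins_of_SA {u v : Vert} (h : SA false u v) : ∃ e, Joins e u v := by
  obtain ⟨a, b⟩ := u
  obtain ⟨c, d⟩ := v
  obtain ⟨h1, h2, h3, h4⟩ := h
  simp only [abs_le, Bool.false_eq_true, false_or] at h2 h3 h4
  have hne : a ≠ c ∨ b ≠ d := by
    by_contra hcon
    push Not at hcon
    exact h1 (by rw [hcon.1, hcon.2])
  have hcases : (c = a + 1 ∧ b = d) ∨ (c = a - 1 ∧ b = d) ∨ (a = c ∧ d = b + 1) ∨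
      (a = c ∧ d = b - 1) := by omega
  rcases hcases with ⟨rfl, rfl⟩ | ⟨rfl, rfl⟩ | ⟨rfl, rfl⟩ | ⟨rfl, rfl⟩
  · exact ⟨(a, b, false), Or.inl ⟨rfl, by simp [tgt]⟩⟩
  · exact ⟨(a - 1, b, false), Or.inr ⟨by simp [tgt], rfl⟩⟩
  · exact ⟨(a, b, true), Or.inl ⟨rfl, by simp [tgt]⟩⟩
  · exact ⟨(a, b - 1, true), Or.inr ⟨by simp [tgt], rfl⟩⟩

theorem SA_of_joins {e : Edge} {u v : Vert} (h : Joins e u v) : SA false u v := by
  obtain ⟨x, y, t⟩ := e
  rcases h with ⟨h1, h2⟩ | ⟨h1, h2⟩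
  · subst h1 h2
    cases t
    · refine ⟨?_, ?_, ?_, ?_⟩ <;> simp [src, tgt]
    · refine ⟨?_, ?_, ?_, ?_⟩ <;> simp [src, tgt]
  · subst h1 h2
    cases t
    · refine ⟨?_, ?_, ?_, ?_⟩ <;> simp [src, tgt]
    · refine ⟨?_, ?_, ?_, ?_⟩ <;> simp [src, tgt]

section graph

variable {G : (ℤ × ℤ → Bool) → SimpleGraph (ℤ × ℤ)}

theorem extS_sv (ω : ℤ × ℤ → Bool) (v : Vert) : extS ω (sv v) = ω v := rfl

theorem step_ext_iff (hG : ∀ ω u v, (G ω).Adj u v ↔ ω u = true ∧ ω v = true ∧ SA false u v)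
    (ω : ℤ × ℤ → Bool) (S : Set Vert) (u v : ℤ × ℤ) :
    Step (sit (extS ω)) S u v ↔ u ∈ S ∧ v ∈ S ∧ (G ω).Adj u v := by
  unfold Step
  refine and_congr_right fun _ => and_congr_right fun _ => ?_
  rw [hG]
  constructor
  · rintro ⟨e, he, ho⟩
    rw [Pool.Agent.H83.SK.sit_true, extS_sv, extS_sv] at ho
    refine ⟨?_, ?_, SA_of_joins he⟩
    · rcases he with ⟨h1, -⟩ | ⟨h1, -⟩
      · rw [h1]; exact ho.1
      · rw [h1]; exact ho.2
    · rcases he with ⟨-, h1⟩ | ⟨-, h1⟩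
      · rw [h1]; exact ho.2
      · rw [h1]; exact ho.1
  · rintro ⟨h1, h2, h3⟩
    obtain ⟨e, he⟩ := joins_of_SA h3
    refine ⟨e, he, ?_⟩
    rw [Pool.Agent.H83.SK.sit_true, extS_sv, extS_sv]
    rcases he with ⟨h4, h5⟩ | ⟨h4, h5⟩
    · rw [← h4, ← h5]; exact ⟨h1, h2⟩
    · rw [← h4, ← h5]; exact ⟨h2, h1⟩

theorem reach_iff (hG : ∀ ω u v, (G ω).Adj u v ↔ ω u = true ∧ ω v = true ∧ SA false u v)
    (ω : ℤ × ℤ → Bool) (S : Set Vert) (u v : {v : ℤ × ℤ | v ∈ S ∧ ω v = true}) :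
    ((G ω).induce {v | v ∈ S ∧ ω v = true}).Reachable u v ↔
      Conn (sit (extS ω)) S (u : ℤ × ℤ) (v : ℤ × ℤ) := by
  constructor
  · rintro ⟨w⟩
    have key : ∀ x y : {v : ℤ × ℤ | v ∈ S ∧ ω v = true},
        ((G ω).induce {v | v ∈ S ∧ ω v = true}).Walk x y →
        Conn (sit (extS ω)) S (x : ℤ × ℤ) (y : ℤ × ℤ) := by
      intro x y w
      induction w with
      | @nil x => exact Conn.refl x.2.1
      | @cons x y z h _ ih =>
        refine Conn.trans (Step.conn ?_) ih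
        rw [step_ext_iff hG]
        exact ⟨x.2.1, y.2.1, h⟩
    exact key u v w
  · intro h
    have key : ∀ x : Vert, Conn (sit (extS ω)) S (u : ℤ × ℤ) x → ∀ hx : x ∈ S ∧ ω x = true,
        ((G ω).induce {v | v ∈ S ∧ ω v = true}).Reachable u ⟨x, hx⟩ := by
      intro x hc
      refine hc.induction_right (P := fun x => ∀ hx : x ∈ S ∧ ω x = true,
        ((G ω).induce {v | v ∈ S ∧ ω v = true}).Reachable u ⟨x, hx⟩)
        (fun hx => SimpleGraph.Reachable.refl _) ?_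
      intro a b _ hab ih hb
      rw [step_ext_iff hG] at hab
      have ha : a ∈ S ∧ ω a = true := ⟨hab.1, ((hG ω a b).1 hab.2.2).1⟩
      refine (ih ha).trans ?_
      exact SimpleGraph.Adj.reachable
        (u := (⟨a, ha⟩ : {v : ℤ × ℤ | v ∈ S ∧ ω v = true}))
        (v := (⟨b, hb⟩ : {v : ℤ × ℤ | v ∈ S ∧ ω v = true})) hab.2.2
    exact key v h v.2

theorem card_comp_eq (hG : ∀ ω u v, (G ω).Adj u v ↔ ω u = true ∧ ω v = true ∧ SA false u v)
    (ω : ℤ × ℤ → Bool) (S : Set Vert) :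
    Nat.card ((G ω).induce {v | v ∈ S ∧ ω v = true}).ConnectedComponent = KO (extS ω) S := by
  unfold KO
  rw [← Nat.card_coe_set_eq]
  let φ : ((G ω).induce {v | v ∈ S ∧ ω v = true}).ConnectedComponent → oClus (extS ω) S :=
    Quot.lift (fun v : {v : ℤ × ℤ | v ∈ S ∧ ω v = true} =>
      ⟨{u | Conn (sit (extS ω)) S (v : ℤ × ℤ) u}, v, v.2.1, v.2.2, rfl⟩) (by
      intro u v huv
      have huv' : Conn (sit (extS ω)) S (u : ℤ × ℤ) (v : ℤ × ℤ) := (reach_iff hG ω S u v).1 huv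
      apply Subtype.ext
      ext w
      exact ⟨fun h => huv'.symm.trans h, fun h => huv'.trans h⟩)
  refine Nat.card_eq_of_bijective φ ⟨?_, ?_⟩
  · intro x y
    refine Quot.induction_on₂ x y fun u v h => ?_
    have h1 : ({w | Conn (sit (extS ω)) S (u : ℤ × ℤ) w} : Set Vert) =
        {w | Conn (sit (extS ω)) S (v : ℤ × ℤ) w} := congrArg Subtype.val h
    have h2 : (v : Vert) ∈ ({w | Conn (sit (extS ω)) S (u : ℤ × ℤ) w} : Set Vert) := by
      rw [h1]; exact Conn.refl v.2.1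
    exact Quot.sound ((reach_iff hG ω S u v).2 h2)
  · rintro ⟨C, v, hv, ho, rfl⟩
    exact ⟨Quot.mk _ ⟨v, hv, ho⟩, rfl⟩

/-- The expected number of clusters of the graph of open sites in the box. -/
theorem meanClusters_eq
    (hG : ∀ ω u v, (G ω).Adj u v ↔ ω u = true ∧ ω v = true ∧ SA false u v) (n : ℕ) (p : I) :
    ∫ ω, (Nat.card ((G ω).induce {v | v ∈ bV n ∧ ω v = true}).ConnectedComponent : ℝ)
        ∂(Measure.infinitePi fun _ : ℤ × ℤ => bernoulliMeasure true false p) = EKO n p := by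
  simp only [card_comp_eq hG]
  have hres : Measurable resS := by
    refine measurable_pi_lambda _ fun v => ?_
    exact measurable_pi_apply (v.1, v.2, false)
  have hext : Measurable extS := by
    refine measurable_pi_lambda _ fun v => ?_
    exact measurable_pi_apply (v.1, v.2.1)
  have hm : Measurable fun ω : ℤ × ℤ → Bool => (KO (extS ω) (bV n) : ℝ) :=
    (measurable_of_local (s := tSites n) (f := fun w => (KO w (bV n) : ℝ))
      fun w w' h => KO_local n w w' h).comp hext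
  rw [← map_resS, integral_map hres.aemeasurable hm.aestronglyMeasurable]
  have h1 : ∀ w : Config, (KO (extS (resS w)) (bV n) : ℝ) = KO w (bV n) := fun w => by
    have := KO_congr (w := extS (resS w)) (w' := w) (S := bV n) fun v _ => rfl
    rw [this]
  simp only [h1]
  exact Pool.Agent.H29.Kap.integral_eq_Ex (s := tSites n) (f := fun w => (KO w (bV n) : ℝ))
    (fun w w' h => KO_local n w w' h) p

end graph

end Pool.Agent.H13.SK

end

section

/-!
# Joint influences of two sites on the connection event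
-/

set_option autoImplicit false

open MeasureTheory ProbabilityTheory unitInterval

namespace Pool.Agent.H92.SN

open Pool.Agent.H89.Perc
open Pool.Agent.H61.NC (modE mid Joint Joint_piv)
open Pool.Agent.H83.SK (sv sit)
open Pool.Agent.H90.AL (dT dT_self dT_comm dT_tri dT_le_half)
open Pool.Agent.H29.Sep (A2)

variable {N i : ℕ} {J : Set Config} {u v w : Vert}

/-- The event `J` implies arms of `u`, `v`, `w`, where `u` and `v` are the closest sites. -/
structure RoleS (N : ℕ) (J : Set Config) (u v w : Vert) : Prop where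
  near : ∀ r : ℕ, 1 ≤ r → 2 * r + 2 ≤ N → r + 1 < dT N u v → r + 1 < dT N u w →
    r + 1 < dT N v w → J ⊆ A4T N u r ∩ A4T N v r
  far : ∀ r : ℕ, 1 ≤ r → 2 * r + 2 ≤ N → r + 1 < dT N u w → r + 1 < dT N v w → J ⊆ A4T N w r
  ann : ∀ t R : ℕ, 1 ≤ t → t ≤ R → 2 * R < N → dT N u v + 1 ≤ t →
    R + 1 < dT N u w → J ⊆ A2S N u t R

lemma joint_pivS {x y : Vert} (hi : Incr (DT N i)) (hxy : x ≠ y) {w : Config}
    (h : w ∈ Joint (DT N i) (sv x) (sv y)) :
    (∃ b, PivS N i x (Function.update w (sv y) b)) ∧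
      ∃ b, PivS N i y (Function.update w (sv x) b) := by
  obtain ⟨⟨b, h1, h2⟩, ⟨b', h3, h4⟩⟩ := Joint_piv hi (sv_ne hxy) h
  exact ⟨⟨b, h1, h2⟩, ⟨b', h3, h4⟩⟩

/-! ### Probabilities -/

lemma disj_SRS (hN : 1 ≤ N) {c c' : Vert} {t R t' R' : ℕ}
    (h : R + R' < dT N c c' ∨ dT N c c' + R' < t) : Disjoint (SRS N c t R) (SRS N c' t' R') := by
  rw [Finset.disjoint_left]
  intro g hg hg'
  rw [mem_SRS] at hg hg'
  have h1 := dT_tri hN c (src g) c'
  have h2 := dT_tri hN (src g) c' c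
  rw [dT_comm hN c (src g)] at h1
  rw [dT_comm hN c' c] at h2
  rcases h with h | h <;> omega

end Pool.Agent.H92.SN

end

section

/-!
# Second derivative of the connection probability on the torus
-/

set_option autoImplicit false

open MeasureTheory ProbabilityTheory unitInterval

namespace Pool.Agent.H92.SN

open Pool.Agent.H89.Perc
open Pool.Agent.H61.NC (modE mid Joint Joint_piv)
open Pool.Agent.H83.SK (sv sit)
open Pool.Agent.H90.AL (dT dT_self dT_comm dT_tri dT_le_half sum_by_dT isPer_per conn_per)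

theorem localOn_DT {N : ℕ} (hN : 1 ≤ N) (i : ℕ) : LocalOn (tSites N) (DT N i) := by
  intro w w' h hw
  have e : sit (per N (shut (cV N) w)) = sit (per N (shut (cV N) w')) := by
    refine sit_per_congr hN fun e he => ?_
    unfold shut
    by_cases h1 : e = sv (cV N)
    · subst h1
      rw [Function.update_self, Function.update_self]
    · rw [Function.update_of_ne h1, Function.update_of_ne h1]
      exact h e he
  obtain ⟨j, hj, a, b, hc⟩ := hw
  exact ⟨j, hj, a, b, e ▸ hc⟩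

theorem incr_DT (N i : ℕ) : Incr (DT N i) := by
  rintro w w' h ⟨j, hj, a, b, hc⟩
  refine ⟨j, hj, a, b, hc.mono le_rfl (Pool.Agent.H83.SK.sit_mono fun e he => ?_)⟩
  rw [per] at he ⊢
  unfold shut at he ⊢
  by_cases h1 : (e.1 % (N : ℤ), e.2.1 % (N : ℤ), e.2.2) = sv (cV N)
  · rw [h1, Function.update_self] at he
    exact absurd he (by decide)
  · rw [Function.update_of_ne h1] at he ⊢
    exact h _ he

/-! ### The double sum -/

/-- The weight of a pair of distances. -/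
noncomputable def GS (a : ℕ → ℝ) (x y : ℕ) : ℝ :=
  if x ≤ y then a (x + 1) * (a (y + 1) * a (y + 1)) else 0

lemma GS_nonneg {a : ℕ → ℝ} (ha : ∀ t, 0 ≤ a t) (x y : ℕ) : 0 ≤ GS a x y := by
  unfold GS
  split_ifs
  · exact mul_nonneg (ha _) (mul_nonneg (ha _) (ha _))
  · exact le_rfl

theorem sum_by_dTS {N : ℕ} (hN : 1 ≤ N) (c : Vert) (h : ℕ → ℝ) (hh : ∀ t, 0 ≤ h t) :
    ∑ f ∈ tSites N, h (dT N (src f) c) ≤ ∑ t ∈ Finset.range (N + 1), 16 * ((t : ℝ) + 1) * h t :=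
  (Finset.sum_le_sum_of_subset_of_nonneg (tSites_sub N) fun _ _ _ => hh _).trans
    (sum_by_dT hN c h hh)

theorem sum_GS {a : ℕ → ℝ} (ha : ∀ t, 0 ≤ a t) {N : ℕ} {C : ℝ}
    (h : ∀ n, 1 ≤ n → n ≤ N + 1 → ∑ t ∈ Finset.Icc 1 n, (t : ℝ) * a t ≤ C * ((n : ℝ) ^ 2 * a n)) :
    ∑ y ∈ Finset.range (N + 1), 16 * ((y : ℝ) + 1) *
      ∑ x ∈ Finset.range (N + 1), 16 * ((x : ℝ) + 1) * GS a x y ≤
      256 * C * ∑ t ∈ Finset.Icc 1 (N + 1), (t : ℝ) ^ 3 * a t ^ 3 := by
  have inner : ∀ y ∈ Finset.range (N + 1), 16 * ((y : ℝ) + 1) *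
      ∑ x ∈ Finset.range (N + 1), 16 * ((x : ℝ) + 1) * GS a x y ≤
      256 * C * (((y + 1 : ℕ) : ℝ) ^ 3 * a (y + 1) ^ 3) := by
    intro y hy
    have hy1 : y < N + 1 := Finset.mem_range.1 hy
    have e1 : ∑ x ∈ Finset.range (N + 1), 16 * ((x : ℝ) + 1) * GS a x y =
        ∑ x ∈ Finset.range (y + 1), 16 * ((x : ℝ) + 1) * GS a x y := by
      symm
      refine Finset.sum_subset (Finset.range_subset_range.2 (by omega)) fun x _ hx => ?_
      rw [Finset.mem_range, not_lt] at hx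
      unfold GS
      rw [if_neg (by omega), mul_zero]
    have e2 : ∑ x ∈ Finset.range (y + 1), 16 * ((x : ℝ) + 1) * GS a x y =
        16 * (a (y + 1) * a (y + 1)) * ∑ t ∈ Finset.Icc 1 (y + 1), (t : ℝ) * a t := by
      have e3 : Finset.Icc 1 (y + 1) = Finset.Ico (0 + 1) (y + 1 + 1) := by
        ext x
        simp only [Finset.mem_Icc, Finset.mem_Ico]
        omega
      rw [e3, ← Finset.sum_Ico_add' (fun t : ℕ => (t : ℝ) * a t) 0 (y + 1) 1,
        ← Finset.range_eq_Ico, Finset.mul_sum]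
      refine Finset.sum_congr rfl fun x hx => ?_
      rw [Finset.mem_range] at hx
      unfold GS
      rw [if_pos (by omega)]
      push_cast
      ring
    rw [e1, e2]
    have h3 := h (y + 1) (by omega) (by omega)
    have h4 : 0 ≤ a (y + 1) * a (y + 1) := mul_nonneg (ha _) (ha _)
    calc 16 * ((y : ℝ) + 1) * (16 * (a (y + 1) * a (y + 1)) *
          ∑ t ∈ Finset.Icc 1 (y + 1), (t : ℝ) * a t) ≤
        16 * ((y : ℝ) + 1) * (16 * (a (y + 1) * a (y + 1)) *
          (C * (((y + 1 : ℕ) : ℝ) ^ 2 * a (y + 1)))) := by gcongr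
      _ = _ := by push_cast; ring
  refine (Finset.sum_le_sum inner).trans (le_of_eq ?_)
  rw [← Finset.mul_sum]
  congr 1
  have e3 : Finset.Icc 1 (N + 1) = Finset.Ico (0 + 1) (N + 1 + 1) := by
    ext x
    simp only [Finset.mem_Icc, Finset.mem_Ico]
    omega
  rw [e3, ← Finset.sum_Ico_add' (fun t : ℕ => (t : ℝ) ^ 3 * a t ^ 3) 0 (N + 1) 1,
    ← Finset.range_eq_Ico]

end Pool.Agent.H92.SN

end

section

/-!
# Linear approximation of `tau` in the window of scale `2 ^ k`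
-/

set_option autoImplicit false

open MeasureTheory ProbabilityTheory unitInterval Filter Topology

namespace Pool.Agent.H92.SN

open Pool.Agent.H89.Perc
open Pool.Agent.H61.NC (fill mid upd Joint PrR' dist0 PrR'_eq hasDerivAt_PrR_eq hasDerivAt_PrR' abs_second_le)
open Pool.Agent.H83.SK (sv sit)
open Pool.Agent.H13.SK (SumB uu SumB_nonneg)

/-- Comparison with the dyadic sum. -/
theorem sum_Ico_two_pow {a : ℕ → ℝ} (h0 : ∀ t, 0 ≤ a t)
    (hanti : ∀ m n, 1 ≤ m → m ≤ n → a n ≤ a m) (m : ℕ) :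
    ∑ t ∈ Finset.Ico (1 : ℕ) (2 ^ m), (t : ℝ) ^ 3 * a t ^ 3 ≤
      8 * ∑ j ∈ Finset.range m, ((2 : ℝ) ^ j) ^ 4 * a (2 ^ j) ^ 3 := by
  induction m with
  | zero => simp
  | succ m ih =>
    have h1 : 2 ^ m ≤ 2 ^ (m + 1) := Nat.pow_le_pow_right (by norm_num) (by omega)
    rw [← Finset.sum_Ico_consecutive _ (Nat.one_le_two_pow : 1 ≤ 2 ^ m) h1,
      Finset.sum_range_succ, mul_add]
    refine add_le_add ih ?_
    have h2 : ∀ t ∈ Finset.Ico ((2 : ℕ) ^ m) (2 ^ (m + 1)), (t : ℝ) ^ 3 * a t ^ 3 ≤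
        ((2 : ℝ) ^ (m + 1)) ^ 3 * a (2 ^ m) ^ 3 := by
      intro t ht
      rw [Finset.mem_Ico] at ht
      have h3 : (t : ℝ) ≤ (2 : ℝ) ^ (m + 1) := by exact_mod_cast ht.2.le
      have h4 : a t ≤ a (2 ^ m) := hanti _ _ Nat.one_le_two_pow ht.1
      have h5 := h0 t
      gcongr
    refine (Finset.sum_le_sum h2).trans (le_of_eq ?_)
    rw [Finset.sum_const, Nat.card_Ico, nsmul_eq_mul]
    have h6 : ((2 ^ (m + 1) - 2 ^ m : ℕ) : ℝ) = (2 : ℝ) ^ m := by
      have : 2 ^ (m + 1) - 2 ^ m = 2 ^ m := by rw [pow_succ]; omega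
      rw [this]
      push_cast
      ring
    rw [h6]
    ring

theorem sum_Icc_le_SumB {a : ℕ → ℝ} (h0 : ∀ t, 0 ≤ a t)
    (hanti : ∀ m n, 1 ≤ m → m ≤ n → a n ≤ a m) (k : ℕ) :
    ∑ t ∈ Finset.Icc (1 : ℕ) (4 * 2 ^ k + 1), (t : ℝ) ^ 3 * a t ^ 3 ≤ 2184 * SumB a (2 ^ k) := by
  have hk : 1 ≤ 2 ^ k := Nat.one_le_two_pow
  have h1 : Finset.Icc 1 (4 * 2 ^ k + 1) ⊆ Finset.Ico 1 (2 ^ (k + 3)) := by
    intro t ht
    rw [Finset.mem_Icc] at ht
    rw [Finset.mem_Ico, pow_add]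
    omega
  refine (Finset.sum_le_sum_of_subset_of_nonneg h1 fun t _ _ =>
    mul_nonneg (by positivity) (pow_nonneg (h0 t) 3)).trans ?_
  refine (sum_Ico_two_pow h0 hanti (k + 3)).trans ?_
  unfold SumB
  rw [Nat.log_pow (by norm_num), Finset.sum_range_succ, Finset.sum_range_succ]
  obtain ⟨S, hS⟩ : ∃ S, S = ∑ j ∈ Finset.range (k + 1), ((2 : ℝ) ^ j) ^ 4 * a (2 ^ j) ^ 3 :=
    ⟨_, rfl⟩
  rw [← hS]
  have h2 : ((2 : ℝ) ^ k) ^ 4 * a (2 ^ k) ^ 3 ≤ S := by
    rw [hS]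
    exact Finset.single_le_sum (f := fun j : ℕ => ((2 : ℝ) ^ j) ^ 4 * a (2 ^ j) ^ 3)
      (fun j _ => mul_nonneg (by positivity) (pow_nonneg (h0 _) 3))
      (Finset.mem_range.2 (by omega))
  have h3 : a (2 ^ (k + 1)) ≤ a (2 ^ k) :=
    hanti _ _ hk (Nat.pow_le_pow_right (by norm_num) (by omega))
  have h4 : a (2 ^ (k + 2)) ≤ a (2 ^ k) :=
    hanti _ _ hk (Nat.pow_le_pow_right (by norm_num) (by omega))
  have h5 := h0 (2 ^ (k + 1))
  have h6 := h0 (2 ^ (k + 2))
  have h7 := h0 (2 ^ k)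
  have h8 : ((2 : ℝ) ^ (k + 1)) ^ 4 * a (2 ^ (k + 1)) ^ 3 ≤ 16 * S := by
    calc ((2 : ℝ) ^ (k + 1)) ^ 4 * a (2 ^ (k + 1)) ^ 3
        ≤ ((2 : ℝ) ^ (k + 1)) ^ 4 * a (2 ^ k) ^ 3 := by gcongr
      _ = 16 * (((2 : ℝ) ^ k) ^ 4 * a (2 ^ k) ^ 3) := by ring
      _ ≤ 16 * S := by linarith only [h2]
  have h9 : ((2 : ℝ) ^ (k + 2)) ^ 4 * a (2 ^ (k + 2)) ^ 3 ≤ 256 * S := by
    calc ((2 : ℝ) ^ (k + 2)) ^ 4 * a (2 ^ (k + 2)) ^ 3
        ≤ ((2 : ℝ) ^ (k + 2)) ^ 4 * a (2 ^ k) ^ 3 := by gcongr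
      _ = 256 * (((2 : ℝ) ^ k) ^ 4 * a (2 ^ k) ^ 3) := by ring
      _ ≤ 256 * S := by linarith
  linarith

/-- Linear approximation of one term on the torus. -/
theorem taylor_DT {N i : ℕ} (hN : 1 ≤ N) {p : I} {r B : ℝ} (hr0 : 0 ≤ (p : ℝ) - r)
    (hr1 : (p : ℝ) + r ≤ 1)
    (hB : ∀ q : I, |(q : ℝ) - p| ≤ r →
      ∑ f ∈ tSites N, ∑ g ∈ (tSites N).erase f, Pr q (Joint (DT N i) f g) ≤ B)
    {q : I} (hq : |(q : ℝ) - p| ≤ r) :
    |Pr q (DT N i) - Pr p (DT N i) - PrR' (tSites N) (DT N i) p * ((q : ℝ) - p)| ≤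
      B * |(q : ℝ) - p| ^ 2 := by
  classical
  have hloc := localOn_DT hN i
  have hmem : ∀ x : ℝ, |x - p| ≤ r → ∃ q : I, (q : ℝ) = x := by
    intro x hx
    rw [abs_le] at hx
    exact ⟨⟨x, by linarith, by linarith⟩, rfl⟩
  have hB0 : 0 ≤ B := le_trans (Finset.sum_nonneg fun _ _ => Finset.sum_nonneg fun _ _ => Pr_nonneg)
    (hB q hq)
  have key := Pool.Agent.H31.AL.taylor_one (F := PrR (tSites N) (DT N i))
    (F' := PrR' (tSites N) (DT N i))
    (F'' := fun x => if hx : x ∈ I then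
      ∑ e ∈ tSites N, ∑ f ∈ tSites N, (pivot ⟨x, hx⟩ (upd (DT N i) e true) f -
        pivot ⟨x, hx⟩ (upd (DT N i) e false) f) else 0)
    (x₀ := (p : ℝ)) (r := r) (B := B) hB0 ?_ ?_ ?_ hq
  · rw [Pr_eq_PrR hloc, Pr_eq_PrR hloc]
    exact key
  · intro x hx
    obtain ⟨q, rfl⟩ := hmem x hx
    exact hasDerivAt_PrR_eq hloc q
  · intro x hx
    obtain ⟨q, rfl⟩ := hmem x hx
    have := hasDerivAt_PrR' hloc q
    simp only [Subtype.coe_prop, dite_true, Subtype.coe_eta]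
    exact this
  · intro x hx
    obtain ⟨q, rfl⟩ := hmem x hx
    simp only [Subtype.coe_prop, dite_true, Subtype.coe_eta]
    exact (abs_second_le hloc (incr_DT N i) q).trans (hB q hx)

end Pool.Agent.H92.SN

end

section

/-!
# The window at the critical density
-/

set_option autoImplicit false

open MeasureTheory ProbabilityTheory unitInterval Filter Topology

namespace Pool.Agent.H92.SN

open Pool.Agent.H13.SK (SumB uu uu_grow)

end Pool.Agent.H92.SN

end
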