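import Pool.Agent.H94.BG.H31.PT.M11_1
import Pool.Agent.H94.BG.H31.PT.M25_7
import Pool.Agent.H94.BG.H31.PT.M30

/-! The parts of this file: H13.SK.FinalThree, H13.SK.KExp, H13.SK.KLim, H13.SK.Comb, H13.SK.KTransfer, H92.SN.Est, H92.SN.Second, H92.SN.Win, H92.SN.WinPc. -/

section

/-!
# The remainder of the cluster density in terms of `θ` and `σ`
-/

set_option autoImplicit false

open MeasureTheory ProbabilityTheory unitInterval Filter Topology
open scoped ENNReal

namespace Pool.Agent.H13.SK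

open Pool.Agent.H89.Perc Pool.Agent.H83.Site

end Pool.Agent.H13.SK

end

section

/-!
# The expected number of open clusters in a box and its derivative
-/

set_option autoImplicit false

open MeasureTheory ProbabilityTheory unitInterval Filter Topology

namespace Pool.Agent.H13.SK

open Pool.Agent.H89.Perc Pool.Agent.H92.SN
open Pool.Agent.H83.SK (sv sit)

theorem localOn_sitDn_box (n : ℕ) (v : Vert) (i : ℕ) :
    LocalOn (tSites n) {w | sit w ∈ Dn (bV n) v i} := by
  intro w w' h hw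
  refine Dn_congr (fun e h1 h2 => ?_) hw
  simp only [sit]
  rw [h _ (sv_mem_tSites.2 h1), h _ (sv_mem_tSites.2 h2)]

open Classical in
theorem EKO_hasDerivAt (n : ℕ) (q : I) :
    HasDerivAt (EKO n) (∑ e ∈ tSites n, dS n q (src e)) q := by
  unfold EKO
  refine (Pool.Agent.Perc.hasDerivAt_Ex (tSites n) _ (q : ℝ)).congr_deriv ?_
  refine Finset.sum_congr rfl fun e he => ?_
  obtain ⟨v, hv⟩ : ∃ v, v = src e := ⟨_, rfl⟩
  have hev : e = sv v := by rw [hv]; exact eq_sv_of_mem he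
  have hvb : v ∈ bV n := by rw [hv]; exact src_mem_bV he
  rw [← hv]
  have key : ∀ S, S ⊆ tSites n →
      Pool.Agent.Perc.DD e (fun S => (KO (ofS S) (bV n) : ℝ)) S =
        (1 - ∑ i ∈ Finset.range 4, (if nb v i ∈ bV n then (1 : ℝ) else 0) *
          Pool.Agent.Perc.ind (fun S => ofS S ∈ {w : Config | w (sv (nb v i)) = true}) S) +
        ∑ i ∈ Finset.Icc 1 3,
          Pool.Agent.Perc.ind (fun S => ofS S ∈ {w : Config | sit w ∈ Dn (bV n) v i}) S := by
    intro S _
    have hk := KO_update (bV_finite n) hvb (ofS S)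
    obtain ⟨u1, u2⟩ := Pool.Agent.H29.Kap.ofS_update S e
    unfold Pool.Agent.Perc.DD
    beta_reduce
    rw [← u1, ← u2, hev]
    have hk' := congrArg (fun z : ℤ => (z : ℝ)) hk
    push_cast at hk'
    rw [hk']
    congr 1
    · congr 1
      refine Finset.sum_congr rfl fun i _ => ?_
      by_cases h1 : nb v i ∈ bV n
      · by_cases h2 : ofS S (sv (nb v i)) = true
        · rw [if_pos ⟨h1, h2⟩, if_pos h1, Pool.Agent.Perc.ind_of
            (A := fun S => ofS S ∈ {w : Config | w (sv (nb v i)) = true}) h2, one_mul]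
        · rw [if_neg (fun h => h2 h.2), Pool.Agent.Perc.ind_of_not
            (A := fun S => ofS S ∈ {w : Config | w (sv (nb v i)) = true}) h2, mul_zero]
      · rw [if_neg (fun h => h1 h.1), if_neg h1, zero_mul]
  rw [Pool.Agent.Perc.Ex_congr key, Pool.Agent.Perc.Ex_add, Pool.Agent.Perc.Ex_sub,
    Pool.Agent.Perc.Ex_const, Pool.Agent.Perc.Ex_sum, Pool.Agent.Perc.Ex_sum]
  unfold dS nbc
  rw [Finset.mul_sum]
  congr 1
  · congr 1
    refine Finset.sum_congr rfl fun i _ => ?_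
    rw [Pool.Agent.Perc.Ex_const_mul, mul_comm]
    by_cases h1 : nb v i ∈ bV n
    · rw [← Pr_eq_Ex (localOn_open h1), Pr_open]
    · rw [if_neg h1, mul_zero, mul_zero]
  · refine Finset.sum_congr rfl fun i _ => ?_
    rw [← Pr_eq_Ex (localOn_sitDn_box n v i)]
    rfl

end Pool.Agent.H13.SK

end

section

/-!
# The cluster density
-/

set_option autoImplicit false

open MeasureTheory ProbabilityTheory unitInterval Filter Topology

namespace Pool.Agent.H13.SK

open Pool.Agent.H89.Perc Pool.Agent.H92.SN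
open Pool.Agent.H83.SK (sv sit)

theorem errS_tendsto (q : I) : Tendsto (fun m => errS m q) atTop (𝓝 0) := by
  have h : Tendsto (fun m => ∑ i ∈ Finset.Icc 1 3,
      (Pool.Agent.H83.SK.Pr q (Dn Set.univ 0 i) - tl i m q)) atTop
      (𝓝 (∑ i ∈ Finset.Icc 1 3, (Pool.Agent.H83.SK.Pr q (Dn Set.univ 0 i) -
        Pool.Agent.H83.SK.Pr q (Dn Set.univ 0 i)))) :=
    tendsto_finsetSum _ fun i _ => (Dn_univ_tendsto q 0 i).const_sub _
  simp only [sub_self, Finset.sum_const_zero] at h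
  exact h

theorem dS_interior {n m : ℕ} (hm : 1 ≤ m) {v : Vert} (h : ball v m ⊆ bV n) (q : I) :
    |dS n q v - (1 - 4 * q + tau q)| ≤ errS m q := by
  have h1 : dS n q v - (1 - 4 * q + tau q) = -∑ i ∈ Finset.Icc 1 3,
      (Pool.Agent.H83.SK.Pr q (Dn Set.univ 0 i) - Pool.Agent.H83.SK.Pr q (Dn (bV n) v i)) := by
    unfold dS tau
    rw [nbc_interior hm h, Finset.sum_sub_distrib]
    ring
  have h2 : ∀ i, tl i m q ≤ Pool.Agent.H83.SK.Pr q (Dn (bV n) v i) := fun i => by
    rw [← Pr_Dn_ball q v m i]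
    exact Pool.Agent.H83.SK.Pr_mono (Dn_mono h v i)
  have h3 : ∀ i, Pool.Agent.H83.SK.Pr q (Dn (bV n) v i) ≤
      Pool.Agent.H83.SK.Pr q (Dn Set.univ 0 i) := fun i => by
    rw [← Pr_Dn_univ q v i]
    exact Pool.Agent.H83.SK.Pr_mono (Dn_mono (Set.subset_univ _) v i)
  rw [h1, abs_neg, abs_of_nonneg (Finset.sum_nonneg fun i _ => sub_nonneg.2 (h3 i))]
  unfold errS
  exact Finset.sum_le_sum fun i _ => by linarith [h2 i]

theorem DN_near {n m : ℕ} (hm : 1 ≤ m) (hn : 2 * m ≤ n) (q : I) :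
    |DN n q - (n : ℝ) ^ 2 * (1 - 4 * q + tau q)| ≤ (n : ℝ) ^ 2 * errS m q + 32 * m * n := by
  classical
  obtain ⟨t, ht⟩ : ∃ t : ℝ, t = 1 - 4 * q + tau q := ⟨_, rfl⟩
  rw [← ht]
  have habs : |t| ≤ 4 := by rw [ht]; exact abs_tgt_le q
  set F : Finset Edge := Finset.Ico (m : ℤ) (n - m) ×ˢ Finset.Ico (m : ℤ) (n - m) ×ˢ {false} with hF
  have hsub : F ⊆ tSites n := by
    intro e he
    simp only [hF, tSites, Finset.mem_product, Finset.mem_Ico, Finset.mem_singleton] at he ⊢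
    exact ⟨by omega, by omega, he.2.2⟩
  have hcard : (F.card : ℝ) = ((n : ℝ) - 2 * m) ^ 2 := by
    rw [hF, Finset.card_product, Finset.card_product, Int.card_Ico, Finset.card_singleton]
    have e1 : ((n : ℤ) - m - m).toNat = n - 2 * m := by omega
    rw [e1]
    push_cast [Nat.cast_sub hn]
    ring
  have hint : ∀ e ∈ F, |dS n q (src e) - t| ≤ errS m q := by
    intro e he
    rw [ht]
    refine dS_interior hm ?_ q
    intro w hw
    rw [mem_ball] at hw
    simp only [hF, Finset.mem_product, Finset.mem_Ico, Finset.mem_singleton] at he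
    simp only [bV, Set.mem_ofPred_eq]
    simp only [src] at hw
    omega
  have h1 : DN n q - (n : ℝ) ^ 2 * t = ∑ e ∈ tSites n, (dS n q (src e) - t) := by
    rw [Finset.sum_sub_distrib, Finset.sum_const, nsmul_eq_mul, card_tSites]
    rfl
  rw [h1, ← Finset.sum_sdiff hsub]
  have h2 : |∑ e ∈ tSites n \ F, (dS n q (src e) - t)| ≤ 32 * m * n := by
    refine (Finset.abs_sum_le_sum_abs _ _).trans ?_
    have h3 : ∑ e ∈ tSites n \ F, |dS n q (src e) - t| ≤ ∑ e ∈ tSites n \ F, (8 : ℝ) := by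
      refine Finset.sum_le_sum fun e _ => ?_
      have h4 := abs_dS_le n q (src e)
      calc |dS n q (src e) - t| ≤ |dS n q (src e)| + |t| := abs_sub _ _
        _ ≤ 8 := by linarith only [habs, h4]
    refine h3.trans ?_
    rw [Finset.sum_const, nsmul_eq_mul]
    have h5 : ((tSites n \ F).card : ℝ) = (n : ℝ) ^ 2 - ((n : ℝ) - 2 * m) ^ 2 := by
      rw [Finset.card_sdiff_of_subset hsub, Nat.cast_sub (Finset.card_le_card hsub), card_tSites,
        hcard]
    rw [h5]
    have h6 : 0 ≤ (m : ℝ) ^ 2 := sq_nonneg _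
    nlinarith only
  have h3 : |∑ e ∈ F, (dS n q (src e) - t)| ≤ (n : ℝ) ^ 2 * errS m q := by
    refine (Finset.abs_sum_le_sum_abs _ _).trans ((Finset.sum_le_sum hint).trans ?_)
    rw [Finset.sum_const, nsmul_eq_mul, hcard]
    refine mul_le_mul_of_nonneg_right ?_ (errS_nonneg m q)
    have h4 : (2 * m : ℝ) ≤ n := by exact_mod_cast hn
    have h5 : (0 : ℝ) ≤ m := Nat.cast_nonneg m
    nlinarith only [h4]
  calc |∑ e ∈ tSites n \ F, (dS n q (src e) - t) + ∑ e ∈ F, (dS n q (src e) - t)| ≤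
      |∑ e ∈ tSites n \ F, (dS n q (src e) - t)| + |∑ e ∈ F, (dS n q (src e) - t)| :=
        abs_add_le _ _
    _ ≤ _ := by linarith

theorem DN_tendsto (q : I) :
    Tendsto (fun n : ℕ => DN n q / (n : ℝ) ^ 2) atTop (𝓝 (1 - 4 * q + tau q)) := by
  rw [Metric.tendsto_atTop]
  intro ε hε
  obtain ⟨m, hm1, hm2⟩ := (((errS_tendsto q).eventually (gt_mem_nhds (half_pos hε))).and
    (eventually_ge_atTop 1)).exists
  have hlim : Tendsto (fun n : ℕ => 32 * (m : ℝ) * (1 / (n : ℝ))) atTop (𝓝 (32 * m * 0)) :=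
    tendsto_one_div_atTop_nhds_zero_nat.const_mul _
  rw [mul_zero] at hlim
  obtain ⟨n₀, hn₀⟩ := eventually_atTop.1 ((hlim.eventually (gt_mem_nhds (half_pos hε))).and
    (eventually_ge_atTop (2 * m)))
  refine ⟨n₀, fun n hn => ?_⟩
  obtain ⟨h1, h2⟩ := hn₀ n hn
  have hn0 : (0 : ℝ) < n := by
    have : 0 < n := by omega
    exact_mod_cast this
  have h3 := DN_near hm2 h2 q
  rw [Real.dist_eq]
  have h4 : DN n q / (n : ℝ) ^ 2 - (1 - 4 * q + tau q) =
      (DN n q - (n : ℝ) ^ 2 * (1 - 4 * q + tau q)) / (n : ℝ) ^ 2 := by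
    field_simp
  rw [h4, abs_div, abs_of_pos (by positivity : (0 : ℝ) < (n : ℝ) ^ 2), div_lt_iff₀ (by positivity)]
  refine h3.trans_lt ?_
  have h5 : 32 * (m : ℝ) * n = 32 * (m : ℝ) * (1 / (n : ℝ)) * (n : ℝ) ^ 2 := by
    field_simp
  rw [h5]
  have h6 : (0 : ℝ) < (n : ℝ) ^ 2 := by positivity
  nlinarith only [h1, hm1, h6]

theorem EKO_eq_integral (n : ℕ) (p : I) :
    ∃ g : ℝ → ℝ, Continuous g ∧ (∀ q : I, g q = DN n q) ∧
      EKO n p = ∫ x in (0 : ℝ)..p, g x := by
  obtain ⟨g, hg⟩ : ∃ g : ℝ → ℝ, g = fun x => ∑ e ∈ tSites n, Pool.Agent.Perc.Ex x (tSites n)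
    (Pool.Agent.Perc.DD e (fun S => (KO (ofS S) (bV n) : ℝ))) := ⟨_, rfl⟩
  have hd : ∀ x : ℝ, HasDerivAt (EKO n) (g x) x := fun x => by
    rw [hg]
    exact Pool.Agent.Perc.hasDerivAt_Ex (tSites n) _ x
  have hc : Continuous g := by
    rw [hg]
    exact continuous_finsetSum _ fun e _ => Pool.Agent.Perc.continuous_Ex _ _
  refine ⟨g, hc, fun q => (hd q).unique (EKO_hasDerivAt n q), ?_⟩
  rw [intervalIntegral.integral_eq_sub_of_hasDerivAt (fun x _ => hd x)
    (hc.intervalIntegrable _ _), EKO_zero, sub_zero]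

/-- The cluster density is the limit of the expected number of clusters per site. -/
theorem EKO_tendsto (p : I) :
    Tendsto (fun n : ℕ => EKO n p / (n : ℝ) ^ 2) atTop (𝓝 (kapS p)) := by
  choose g hc hg hi using fun n => EKO_eq_integral n p
  have h1 : ∀ n : ℕ, EKO n p / (n : ℝ) ^ 2 = ∫ x in (0 : ℝ)..p, g n x / (n : ℝ) ^ 2 := by
    intro n
    rw [hi n, intervalIntegral.integral_div]
  simp only [h1]
  unfold kapS
  refine intervalIntegral.tendsto_integral_filter_of_dominated_convergence (fun _ => (4 : ℝ))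
    ?_ ?_ ?_ ?_
  · exact Eventually.of_forall fun n => ((hc n).div_const _).aestronglyMeasurable
  · refine Eventually.of_forall fun n => Eventually.of_forall fun x hx => ?_
    rw [Set.uIoc_of_le p.2.1] at hx
    have hx' : x ∈ I := ⟨hx.1.le, hx.2.trans p.2.2⟩
    have h2 := hg n ⟨x, hx'⟩
    have h3 := abs_DN_le n ⟨x, hx'⟩
    simp only at h2
    rw [h2, Real.norm_eq_abs, abs_div, abs_of_nonneg (by positivity : (0 : ℝ) ≤ (n : ℝ) ^ 2)]
    exact div_le_of_le_mul₀ (by positivity) (by norm_num) h3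
  · exact _root_.intervalIntegrable_const
  · refine Eventually.of_forall fun x hx => ?_
    rw [Set.uIoc_of_le p.2.1] at hx
    have hx' : x ∈ I := ⟨hx.1.le, hx.2.trans p.2.2⟩
    have h2 : ∀ n, g n x = DN n ⟨x, hx'⟩ := fun n => hg n ⟨x, hx'⟩
    simp only [h2]
    have h3 : tauR x = tau ⟨x, hx'⟩ := by unfold tauR; rw [dif_pos hx']
    rw [h3]
    exact DN_tendsto ⟨x, hx'⟩

/-! ### The derivative -/

end Pool.Agent.H13.SK

end

section

/-!
# The remainder of the cluster density at the critical density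
-/

set_option autoImplicit false

open MeasureTheory ProbabilityTheory unitInterval Filter Topology

namespace Pool.Agent.H13.SK

open Pool.Agent.H83.Site (pc)
open Pool.Agent.H92.SN (tauR GLTorus)

/-- The dyadic approximations of `τ` in the window. -/
def WinS : Prop :=
  ∃ c > (0 : ℝ), ∃ C > (0 : ℝ), ∃ k₀ : ℕ, ∃ b : ℕ → ℝ, ∀ k, k₀ ≤ k → ∀ t : ℝ,
    |t| ≤ c * (1 / uu (Pool.Agent.H92.SN.a4 pc) k) →
      |tauR (pc + t) - tauR pc - b k * t| ≤
        C * (Pool.Agent.H92.SN.a4 pc (2 ^ k) + t ^ 2 * SumB (Pool.Agent.H92.SN.a4 pc) (2 ^ k))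

end Pool.Agent.H13.SK

end

section

/-!
# The number of clusters of the graph of open sites
-/

set_option autoImplicit false

open MeasureTheory ProbabilityTheory unitInterval Filter Topology

namespace Pool.Agent.H13.SK

open Pool.Agent.H89.Perc Pool.Agent.H92.SN
open Pool.Agent.H83.SK (sv sit)
open Pool.Agent.H83.Site (SA extS resS map_resS)

section graph

end graph

end Pool.Agent.H13.SK

end

section

/-!
# Joint influences of two sites on the connection event
-/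

set_option autoImplicit false

open MeasureTheory ProbabilityTheory unitInterval

namespace Pool.Agent.H92.SN

open Pool.Agent.H89.Perc
open Pool.Agent.H61.NC (modE mid Joint Joint_piv)
open Pool.Agent.H83.SK (sv sit)
open Pool.Agent.H90.AL (dT dT_self dT_comm dT_tri dT_le_half)
open Pool.Agent.H29.Sep (A2)

variable {N i : ℕ} {J : Set Config} {u v w : Vert}

lemma a2S_update (hN : 1 ≤ N) {x c : Vert} {t R : ℕ} {b : Bool} {w : Config} (ht : 1 ≤ t)
    (hR : t + R ≤ N) (h : dT N x c < t ∨ R < dT N x c)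
    (h' : Function.update w (sv x) b ∈ A2S N c t R) : w ∈ A2S N c t R := by
  refine localOn_A2S hN c ht hR _ _ (fun e he => ?_) h'
  rw [Function.update_of_ne]
  rintro rfl
  rw [mem_SRS, src_sv] at he
  omega

/-- The two sites are close, the middle site is far. -/
theorem roleS_one (hN : 1 ≤ N) {x y : Vert} (hx : sv x ∈ tSites N) (hy : sv y ∈ tSites N)
    (hxy : x ≠ y) (hi : Incr (DT N i)) :
    RoleS N (Joint (DT N i) (sv x) (sv y)) x y (cV N) where
  near r hr hrN h1 h2 h3 := by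
    intro ω hω
    obtain ⟨⟨b, hb⟩, ⟨b', hb'⟩⟩ := joint_pivS hi hxy hω
    refine ⟨(a4S_update hN (x := y) (b := b) ?_).1 (hb.a4_self hx hr hrN ?_),
      (a4S_update hN (x := x) (b := b') ?_).1 (hb'.a4_self hy hr hrN ?_)⟩
    · rw [dT_comm hN]; omega
    · rw [dT_comm hN]; omega
    · omega
    · rw [dT_comm hN]; omega
  far r hr hrN h1 h2 := by
    intro ω hω
    obtain ⟨⟨b, hb⟩, -⟩ := joint_pivS hi hxy hω
    exact (a4S_update hN (x := y) (b := b) (by omega)).1 (hb.a4_ctr hx hr hrN (by omega))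
  ann t R ht htR hR h1 h2 := by
    intro ω hω
    obtain ⟨⟨b, hb⟩, -⟩ := joint_pivS hi hxy hω
    refine a2S_update hN (x := y) (b := b) ht (by omega) (Or.inl ?_)
      (hb.a2 hx ht htR hR (Or.inl ?_))
    · rw [dT_comm hN]; omega
    · rw [dT_self, dT_comm hN (cV N)]
      omega

/-- The site `x` is close to the middle site, the site `y` is far. -/
theorem roleS_two (hN : 1 ≤ N) {x y : Vert} (hx : sv x ∈ tSites N) (hy : sv y ∈ tSites N)
    (hxy : x ≠ y) (hi : Incr (DT N i)) :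
    RoleS N (Joint (DT N i) (sv x) (sv y)) (cV N) x y where
  near r hr hrN h1 h2 h3 := by
    intro ω hω
    obtain ⟨⟨b, hb⟩, -⟩ := joint_pivS hi hxy hω
    refine ⟨(a4S_update hN (x := y) (b := b) ?_).1 (hb.a4_ctr hx hr hrN ?_),
      (a4S_update hN (x := y) (b := b) ?_).1 (hb.a4_self hx hr hrN ?_)⟩
    · rw [dT_comm hN]; omega
    · rw [dT_comm hN]; omega
    · rw [dT_comm hN]; omega
    · omega
  far r hr hrN h1 h2 := by
    intro ω hω
    obtain ⟨-, ⟨b, hb⟩⟩ := joint_pivS hi hxy hω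
    exact (a4S_update hN (x := x) (b := b) (by omega)).1 (hb.a4_self hy hr hrN (by omega))
  ann t R ht htR hR h1 h2 := by
    intro ω hω
    obtain ⟨-, ⟨b, hb⟩⟩ := joint_pivS hi hxy hω
    refine a2S_update hN (x := x) (b := b) ht (by omega) (Or.inl ?_)
      (hb.a2 hy ht htR hR (Or.inr ?_))
    · rw [dT_comm hN]; omega
    · rw [dT_self, dT_comm hN y]
      omega

/-- The site `y` is close to the middle site, the site `x` is far. -/
theorem roleS_three (hN : 1 ≤ N) {x y : Vert} (hx : sv x ∈ tSites N) (hy : sv y ∈ tSites N)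
    (hxy : x ≠ y) (hi : Incr (DT N i)) :
    RoleS N (Joint (DT N i) (sv x) (sv y)) (cV N) y x where
  near r hr hrN h1 h2 h3 := by
    intro ω hω
    obtain ⟨-, ⟨b, hb⟩⟩ := joint_pivS hi hxy hω
    refine ⟨(a4S_update hN (x := x) (b := b) ?_).1 (hb.a4_ctr hy hr hrN ?_),
      (a4S_update hN (x := x) (b := b) ?_).1 (hb.a4_self hy hr hrN ?_)⟩
    · rw [dT_comm hN]; omega
    · rw [dT_comm hN]; omega
    · rw [dT_comm hN]; omega
    · omega
  far r hr hrN h1 h2 := by
    intro ω hω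
    obtain ⟨⟨b, hb⟩, -⟩ := joint_pivS hi hxy hω
    exact (a4S_update hN (x := y) (b := b) (by omega)).1 (hb.a4_self hx hr hrN (by omega))
  ann t R ht htR hR h1 h2 := by
    intro ω hω
    obtain ⟨⟨b, hb⟩, -⟩ := joint_pivS hi hxy hω
    refine a2S_update hN (x := y) (b := b) ht (by omega) (Or.inl ?_)
      (hb.a2 hx ht htR hR (Or.inr ?_))
    · rw [dT_comm hN]; omega
    · rw [dT_self, dT_comm hN x]
      omega

/-! ### Probabilities -/

theorem Pr_roleS_A (q : I) (hJ : RoleS N J u v w) {r t R r' : ℕ} (hN : 1 ≤ N) (h1 : 1 ≤ r)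
    (h2 : 2 * r < dT N u v) (h3 : dT N u v + r < t) (h4 : t ≤ R) (h5 : 1 ≤ r')
    (h6 : R + r' + 1 < dT N u w) (h7 : r + r' + 1 < dT N v w) :
    Pr q J ≤ a4 q r * a4 q r * (Pool.Agent.H83.SK.Pr q (A2 t R) * a4 q r') := by
  classical
  have b1 := dT_le_half hN u w
  have b2 := dT_le_half hN u v
  have hsub : J ⊆ (A4T N u r ∩ A4T N v r) ∩ (A2S N u t R ∩ A4T N w r') := by
    intro ω hω
    exact ⟨hJ.near r h1 (by omega) (by omega) (by omega) (by omega) hω,
      hJ.ann t R (by omega) h4 (by omega) (by omega) (by omega) hω,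
      hJ.far r' h5 (by omega) (by omega) (by omega) hω⟩
  refine (Pr_mono hsub).trans (le_of_eq ?_)
  rw [Pr_inter_of_disjoint ((localOn_A4S hN u r).inter' (localOn_A4S hN v r))
      ((localOn_A2S hN u (by omega : 1 ≤ t) (by omega : t + R ≤ N)).inter'
        (localOn_A4S hN w r')) ?_,
    Pr_inter_of_disjoint (localOn_A4S hN u r) (localOn_A4S hN v r)
      (disj_SRS hN (Or.inl (by omega))),
    Pr_inter_of_disjoint (localOn_A2S hN u (by omega : 1 ≤ t) (by omega : t + R ≤ N))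
      (localOn_A4S hN w r') (disj_SRS hN (Or.inl (by omega))),
    Pr_A4T q u (by omega), Pr_A4T q v (by omega), Pr_A4T q w (by omega),
    Pr_A2S q _ (by omega)]
  rw [Finset.disjoint_union_left, Finset.disjoint_union_right, Finset.disjoint_union_right]
  refine ⟨⟨?_, disj_SRS hN (Or.inl (by omega))⟩, ⟨?_, disj_SRS hN (Or.inl (by omega))⟩⟩
  · exact (disj_SRS hN (Or.inr (by rw [dT_self]; omega))).symm
  · exact (disj_SRS hN (Or.inr (by omega))).symm

theorem Pr_roleS_B (q : I) (hJ : RoleS N J u v w) {r r' : ℕ} (hN : 1 ≤ N) (h1 : 1 ≤ r)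
    (h2 : 2 * r < dT N u v) (h5 : 1 ≤ r') (h6 : r + r' + 1 < dT N u w)
    (h7 : r + r' + 1 < dT N v w) : Pr q J ≤ a4 q r * a4 q r * a4 q r' := by
  classical
  have b1 := dT_le_half hN u w
  have b2 := dT_le_half hN u v
  have hsub : J ⊆ (A4T N u r ∩ A4T N v r) ∩ A4T N w r' := by
    intro ω hω
    exact ⟨hJ.near r h1 (by omega) (by omega) (by omega) (by omega) hω,
      hJ.far r' h5 (by omega) (by omega) (by omega) hω⟩
  refine (Pr_mono hsub).trans (le_of_eq ?_)
  rw [Pr_inter_of_disjoint ((localOn_A4S hN u r).inter' (localOn_A4S hN v r))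
      (localOn_A4S hN w r') ?_,
    Pr_inter_of_disjoint (localOn_A4S hN u r) (localOn_A4S hN v r)
      (disj_SRS hN (Or.inl (by omega))),
    Pr_A4T q u (by omega), Pr_A4T q v (by omega), Pr_A4T q w (by omega)]
  rw [Finset.disjoint_union_left]
  exact ⟨disj_SRS hN (Or.inl (by omega)), disj_SRS hN (Or.inl (by omega))⟩

theorem Pr_roleS_C (q : I) (hJ : RoleS N J u v w) {t R r' : ℕ} (hN : 1 ≤ N)
    (h3 : dT N u v < t) (h4 : t ≤ R) (h5 : 1 ≤ r') (h6 : R + r' + 1 < dT N u w)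
    (h7 : r' + 1 < dT N v w) :
    Pr q J ≤ Pool.Agent.H83.SK.Pr q (A2 t R) * a4 q r' := by
  classical
  have b1 := dT_le_half hN u w
  have hsub : J ⊆ A2S N u t R ∩ A4T N w r' := by
    intro ω hω
    exact ⟨hJ.ann t R (by omega) h4 (by omega) (by omega) (by omega) hω,
      hJ.far r' h5 (by omega) (by omega) (by omega) hω⟩
  refine (Pr_mono hsub).trans (le_of_eq ?_)
  rw [Pr_inter_of_disjoint (localOn_A2S hN u (by omega : 1 ≤ t) (by omega : t + R ≤ N))
      (localOn_A4S hN w r') (disj_SRS hN (Or.inl (by omega))), Pr_A4T q w (by omega),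
    Pr_A2S q _ (by omega)]

/-- Comparison of the four-arm probabilities at comparable distances. -/
theorem a4_cmp (hGL : GLTorus) (hBL : BlockLow) : ∀ c : ℝ, 0 < c → ∀ K : ℕ, 1 ≤ K →
    ∃ C : ℝ, 0 < C ∧ ∀ (m n : ℕ) (q : I), 1 ≤ m → 1 ≤ n → n ≤ K * m → SReg c (64 * n) q →
      a4 q m ≤ C * a4 q n := by
  intro c hc K hK
  obtain ⟨C, δ, hC, hδ, hδ1, H⟩ := a4_low hGL hBL c hc
  have hK0 : (1 : ℝ) ≤ K := by exact_mod_cast hK
  refine ⟨max (C * (K : ℝ) ^ 2) 1, lt_max_of_lt_right one_pos, fun m n q hm hn hnm hR => ?_⟩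
  have ha := a4_nonneg q n
  rcases Nat.lt_or_ge n m with h | h
  · calc a4 q m ≤ a4 q n := a4_anti q hn h.le
      _ = 1 * a4 q n := (one_mul _).symm
      _ ≤ _ := mul_le_mul_of_nonneg_right (le_max_right _ _) ha
  · have h1 := H m n q hm h hR
    have hm0 : (0 : ℝ) < m := by exact_mod_cast hm
    have h2 : (n : ℝ) / m ≤ K := by
      rw [div_le_iff₀ hm0]
      exact_mod_cast hnm
    have h3 : ((n : ℝ) / m) ^ (2 - δ) ≤ (K : ℝ) ^ 2 := by
      calc ((n : ℝ) / m) ^ (2 - δ) ≤ (K : ℝ) ^ (2 - δ) :=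
            Real.rpow_le_rpow (by positivity) h2 (by linarith only [hδ1])
        _ ≤ (K : ℝ) ^ (2 : ℝ) := Real.rpow_le_rpow_of_exponent_le hK0 (by linarith only [hδ])
        _ = (K : ℝ) ^ 2 := Real.rpow_two _
    calc a4 q m ≤ C * ((n : ℝ) / m) ^ (2 - δ) * a4 q n := h1
      _ ≤ C * (K : ℝ) ^ 2 * a4 q n := by gcongr
      _ ≤ _ := mul_le_mul_of_nonneg_right (le_max_left _ _) ha

/-- The basic estimate. -/
theorem estimateS (hGL : GLTorus) (hBL : BlockLow) (hQM : QMann) : ∀ c : ℝ, 0 < c →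
    ∃ C : ℝ, 0 < C ∧ ∀ (N : ℕ) (q : I) (J : Set Config) (u v w : Vert) (d₁ d₂ : ℕ), 1 ≤ N →
      SReg c (128 * N) q → RoleS N J u v w → dT N u v = d₁ → d₁ ≤ d₂ → d₂ ≤ dT N u w →
      d₂ ≤ dT N v w →
      Pr q J ≤ C * (a4 q (d₁ + 1) * (a4 q (d₂ + 1) * a4 q (d₂ + 1))) := by
  intro c hc
  obtain ⟨C₁, hC₁, hQ⟩ := hQM c hc
  obtain ⟨K8, p8, hK8⟩ := a4_cmp hGL hBL c hc 8 (by norm_num)
  obtain ⟨K64, p64, hK64⟩ := a4_cmp hGL hBL c hc 64 (by norm_num)
  obtain ⟨m, hm⟩ : ∃ m : ℝ, m = (1 / (c / 10) ^ 9) := ⟨_, rfl⟩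
  have pm : 0 < m := by rw [hm]; positivity
  refine ⟨K8 * (C₁ * K8) * K8 + K8 * K64 * K8 + m * (m * (K64 * C₁)) * (K8 * K8) +
      m * K8 * (m * K64 * (m * K64)), by positivity, ?_⟩
  intro N q J u v w d₁ d₂ hN hR hJ e1 e2 e3 e4
  have b1 := dT_le_half hN u w
  have b2 := dT_le_half hN u v
  obtain ⟨g, hg⟩ : ∃ g : ℕ → ℝ, g = fun r => a4 q r := ⟨_, rfl⟩
  have hg0 : ∀ r, 0 ≤ g r := fun r => by rw [hg]; exact a4_nonneg q r
  have hgr : ∀ r, a4 q r = g r := fun r => by rw [hg]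
  obtain ⟨X, hX⟩ : ∃ X : ℝ, X = g (d₁ + 1) := ⟨_, rfl⟩
  obtain ⟨Y, hY⟩ : ∃ Y : ℝ, Y = g (d₂ + 1) := ⟨_, rfl⟩
  have hX0 : 0 ≤ X := by rw [hX]; exact hg0 _
  have hY0 : 0 ≤ Y := by rw [hY]; exact hg0 _
  rw [hgr, hgr, ← hX, ← hY]
  have hd1N : d₁ + 1 ≤ 2 * N := by omega
  have hd2N : d₂ + 1 ≤ 2 * N := by omega
  have z1 : 0 ≤ K8 * (C₁ * K8) * K8 * (X * (Y * Y)) := by positivity
  have z2 : 0 ≤ K8 * K64 * K8 * (X * (Y * Y)) := by positivity
  have z3 : 0 ≤ m * (m * (K64 * C₁)) * (K8 * K8) * (X * (Y * Y)) := by positivity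
  have z4 : 0 ≤ m * K8 * (m * K64 * (m * K64)) * (X * (Y * Y)) := by positivity
  rw [add_mul, add_mul, add_mul]
  -- comparisons
  have c8 : ∀ r n : ℕ, 1 ≤ r → 1 ≤ n → n ≤ 8 * r → n ≤ 2 * N → g r ≤ K8 * g n := by
    intro r n h1 h2 h3 h4
    rw [← hgr, ← hgr]
    exact hK8 r n q h1 h2 h3 (sreg_anti hR (by omega))
  have c64 : ∀ r n : ℕ, 1 ≤ r → 1 ≤ n → n ≤ 64 * r → n ≤ 2 * N → g r ≤ K64 * g n := by
    intro r n h1 h2 h3 h4
    rw [← hgr, ← hgr]
    exact hK64 r n q h1 h2 h3 (sreg_anti hR (by omega))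
  have hone : 1 ≤ m * g 1 := by
    have h1 := a4_one q (m := c / 10) (by positivity) (sreg_mem hc (by omega) hR).2
    rw [hgr] at h1
    rw [hm, div_mul_eq_mul_div, one_mul, one_le_div (by positivity)]
    exact h1
  by_cases hd1 : 8 ≤ d₁
  · by_cases hcase : 16 * (d₁ / 4) ≤ d₂ / 2
    · -- annulus
      have h1 := Pr_roleS_A q hJ (r := d₁ / 4) (t := 16 * (d₁ / 4)) (R := d₂ / 2)
        (r' := d₂ / 4) hN (by omega) (by omega) (by omega) hcase (by omega) (by omega) (by omega)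
      have h2 := hQ (128 * N) (d₁ / 4) (d₂ / 2) q (by omega) hcase (by omega) hR
      have h3 := c8 (d₁ / 4) (d₁ + 1) (by omega) (by omega) (by omega) (by omega)
      have h4 := c8 (d₂ / 4) (d₂ + 1) (by omega) (by omega) (by omega) (by omega)
      have h5 := c8 (d₂ / 2) (d₂ + 1) (by omega) (by omega) (by omega) (by omega)
      rw [hgr, hgr] at h1
      rw [hgr, hgr] at h2
      rw [← hX] at h3
      rw [← hY] at h4 h5
      have hA20 : 0 ≤ Pool.Agent.H83.SK.Pr q (A2 (16 * (d₁ / 4)) (d₂ / 2)) :=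
        Pool.Agent.H83.SK.Pr_nonneg
      have h6 : g (d₁ / 4) * g (d₁ / 4) *
          (Pool.Agent.H83.SK.Pr q (A2 (16 * (d₁ / 4)) (d₂ / 2)) * g (d₂ / 4)) ≤
          K8 * (C₁ * K8) * K8 * (X * (Y * Y)) := by
        calc g (d₁ / 4) * g (d₁ / 4) *
            (Pool.Agent.H83.SK.Pr q (A2 (16 * (d₁ / 4)) (d₂ / 2)) * g (d₂ / 4))
            = g (d₁ / 4) * (g (d₁ / 4) *
              Pool.Agent.H83.SK.Pr q (A2 (16 * (d₁ / 4)) (d₂ / 2))) * g (d₂ / 4) := by
              ring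
          _ ≤ (K8 * X) * (C₁ * (K8 * Y)) * (K8 * Y) := by
              refine mul_le_mul (mul_le_mul h3 (h2.trans ?_) (mul_nonneg (hg0 _) hA20)
                (by positivity)) h4 (hg0 _) (by positivity)
              exact mul_le_mul_of_nonneg_left h5 hC₁.le
          _ = _ := by ring
      linarith only [z2, z3, z4, h1, h6]
    · -- comparable distances
      have h1 := Pr_roleS_B q hJ (r := d₁ / 4) (r' := d₂ / 4) hN (by omega) (by omega)
        (by omega) (by omega) (by omega)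
      have h3 := c8 (d₁ / 4) (d₁ + 1) (by omega) (by omega) (by omega) (by omega)
      have h3' := c64 (d₁ / 4) (d₂ + 1) (by omega) (by omega) (by omega) (by omega)
      have h4 := c8 (d₂ / 4) (d₂ + 1) (by omega) (by omega) (by omega) (by omega)
      rw [hgr, hgr] at h1
      rw [← hX] at h3
      rw [← hY] at h3' h4
      have h6 : g (d₁ / 4) * g (d₁ / 4) * g (d₂ / 4) ≤ K8 * K64 * K8 * (X * (Y * Y)) := by
        calc g (d₁ / 4) * g (d₁ / 4) * g (d₂ / 4) ≤ (K8 * X) * (K64 * Y) * (K8 * Y) :=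
              mul_le_mul (mul_le_mul h3 h3' (hg0 _) (by positivity)) h4 (hg0 _) (by positivity)
          _ = _ := by ring
      linarith only [z1, z3, z4, h1, h6]
  · push Not at hd1
    have hXone : 1 ≤ m * K8 * X := by
      have h1 := c8 1 (d₁ + 1) le_rfl (by omega) (by omega) hd1N
      rw [← hX] at h1
      calc (1 : ℝ) ≤ m * g 1 := hone
        _ ≤ m * (K8 * X) := mul_le_mul_of_nonneg_left h1 pm.le
        _ = _ := by ring
    by_cases hd2 : 63 ≤ d₂
    · have h1 := Pr_roleS_C q hJ (t := 16) (R := d₂ / 2) (r' := d₂ / 4) hN (by omega) (by omega)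
        (by omega) (by omega) (by omega)
      have h2 := hQ (128 * N) 1 (d₂ / 2) q le_rfl (by omega) (by omega) hR
      have h4 := c8 (d₂ / 4) (d₂ + 1) (by omega) (by omega) (by omega) (by omega)
      have h5 := c64 (d₂ / 2) (d₂ + 1) (by omega) (by omega) (by omega) (by omega)
      rw [hgr] at h1
      rw [mul_one, hgr (d₂ / 2), hgr 1] at h2
      rw [← hY] at h4 h5
      have hA20 : 0 ≤ Pool.Agent.H83.SK.Pr q (A2 16 (d₂ / 2)) := Pool.Agent.H83.SK.Pr_nonneg
      have h8 : Pool.Agent.H83.SK.Pr q (A2 16 (d₂ / 2)) ≤ m * (C₁ * (K64 * Y)) := by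
        calc Pool.Agent.H83.SK.Pr q (A2 16 (d₂ / 2))
            = 1 * Pool.Agent.H83.SK.Pr q (A2 16 (d₂ / 2)) := (one_mul _).symm
          _ ≤ m * g 1 * Pool.Agent.H83.SK.Pr q (A2 16 (d₂ / 2)) :=
              mul_le_mul_of_nonneg_right hone hA20
          _ = m * (g 1 * Pool.Agent.H83.SK.Pr q (A2 16 (d₂ / 2))) := by ring
          _ ≤ m * (C₁ * (K64 * Y)) :=
              mul_le_mul_of_nonneg_left (h2.trans (mul_le_mul_of_nonneg_left h5 hC₁.le)) pm.le
      have h6 : Pool.Agent.H83.SK.Pr q (A2 16 (d₂ / 2)) * g (d₂ / 4) ≤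
          m * (m * (K64 * C₁)) * (K8 * K8) * (X * (Y * Y)) := by
        calc Pool.Agent.H83.SK.Pr q (A2 16 (d₂ / 2)) * g (d₂ / 4) ≤
              (m * (C₁ * (K64 * Y))) * (K8 * Y) :=
              mul_le_mul h8 h4 (hg0 _) (by positivity)
          _ = m * (K64 * C₁) * K8 * (Y * Y) * 1 := by ring
          _ ≤ m * (K64 * C₁) * K8 * (Y * Y) * (m * K8 * X) :=
              mul_le_mul_of_nonneg_left hXone (by positivity)
          _ = _ := by ring
      linarith only [z1, z2, z4, h1, h6]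
    · push Not at hd2
      have hYone : 1 ≤ m * K64 * Y := by
        have h1 := c64 1 (d₂ + 1) le_rfl (by omega) (by omega) hd2N
        rw [← hY] at h1
        calc (1 : ℝ) ≤ m * g 1 := hone
          _ ≤ m * (K64 * Y) := mul_le_mul_of_nonneg_left h1 pm.le
          _ = _ := by ring
      have h1 : Pr q J ≤ 1 := Pr_le_one
      have h2 : (1 : ℝ) ≤ m * K8 * (m * K64 * (m * K64)) * (X * (Y * Y)) := by
        calc (1 : ℝ) = 1 * (1 * 1) := by ring
          _ ≤ (m * K8 * X) * ((m * K64 * Y) * (m * K64 * Y)) :=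
              mul_le_mul hXone (mul_le_mul hYone hYone zero_le_one (by positivity)) (by norm_num)
                (by positivity)
          _ = _ := by ring
      linarith only [z1, z2, z3, h1, h2]

end Pool.Agent.H92.SN

end

section

/-!
# Second derivative of the connection probability on the torus
-/

set_option autoImplicit false

open MeasureTheory ProbabilityTheory unitInterval

namespace Pool.Agent.H92.SN

open Pool.Agent.H89.Perc
open Pool.Agent.H61.NC (modE mid Joint Joint_piv)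
open Pool.Agent.H83.SK (sv sit)
open Pool.Agent.H90.AL (dT dT_self dT_comm dT_tri dT_le_half sum_by_dT isPer_per conn_per)

theorem cfgS_ball {N r : ℕ} (hr : 2 * r < N) (w : Config) {g : Edge}
    (h1 : src g ∈ ball (cV N) r) (h2 : tgt g ∈ ball (cV N) r) :
    cfgS N w g = closeV (cV N) (sit (per N w)) g :=
  sit_per_ball hr (by rw [sv_cV]; exact cE_mem (by omega)) w h1 h2

theorem B0T_sub {N r : ℕ} (i : ℕ) (hr : 2 * r < N) :
    {w | sit (per N w) ∈ Dn (ball (cV N) r) (cV N) i} ⊆ DT N i := by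
  rintro w ⟨j, hj, hc⟩
  refine ⟨j, hj, 0, 0, ?_⟩
  simp only [zero_mul, add_zero]
  exact (hc.congr fun g h1 h2 => (cfgS_ball hr w h1 h2).symm).mono_set (Set.subset_univ _)

theorem Pr_B0T (q : I) {N r : ℕ} (i : ℕ) (hr : 2 * r < N) :
    Pr q {w | sit (per N w) ∈ Dn (ball (cV N) r) (cV N) i} = tl i r q := by
  rw [← Pr_Dn_ball q (cV N) r i]
  unfold Pool.Agent.H83.SK.Pr
  rw [← Pr_comp (localOn_sitDn (cV N) r i) (modE_injOn_sBall (cV N) hr)]
  rfl

/-! ### The double sum -/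

/-- The sum of the joint influences. -/
theorem second_DT (hGL : GLTorus) (hBL : BlockLow) (hQM : QMann) : ∀ c : ℝ, 0 < c →
    ∃ C : ℝ, 0 < C ∧ ∀ (N i : ℕ) (q : I), 1 ≤ N → SReg c (128 * N) q →
      ∑ f ∈ tSites N, ∑ g ∈ (tSites N).erase f, Pr q (Joint (DT N i) f g) ≤
        C * ∑ t ∈ Finset.Icc 1 (N + 1), (t : ℝ) ^ 3 * a4 q t ^ 3 := by
  classical
  intro c hc
  obtain ⟨C, hC, hest⟩ := estimateS hGL hBL hQM c hc
  obtain ⟨K, hK, hcmp⟩ := a4_cmp hGL hBL c hc 2 (by norm_num)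
  obtain ⟨M, hM, hsum⟩ := sum_a4_le hGL hBL c hc
  refine ⟨C * K ^ 2 * (3 * (256 * M)), by positivity, ?_⟩
  intro N i q hN hR
  obtain ⟨a, ha⟩ : ∃ a : ℕ → ℝ, a = fun t => a4 q t := ⟨_, rfl⟩
  have ha0 : ∀ t, 0 ≤ a t := fun t => by rw [ha]; exact a4_nonneg q t
  have har : ∀ t, a4 q t = a t := fun t => by rw [ha]
  obtain ⟨e, he⟩ : ∃ e : Vert, e = cV N := ⟨_, rfl⟩
  have hi := incr_DT N i
  have hreg : ∀ n, n ≤ N + 1 → SReg c (64 * n) q := fun n hn => sreg_anti hR (by omega)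
  -- the bound by the two smallest distances
  have hbd : ∀ (p : ℝ) (d₁ d₂ y : ℕ), d₁ ≤ y → y ≤ 2 * d₂ → y ≤ N →
      p ≤ C * (a4 q (d₁ + 1) * (a4 q (d₂ + 1) * a4 q (d₂ + 1))) →
      p ≤ C * K ^ 2 * GS a d₁ y := by
    intro p d₁ d₂ y h1 h2 h3 h
    have h4 := hcmp (d₂ + 1) (y + 1) q (by omega) (by omega) (by omega) (hreg _ (by omega))
    rw [har, har] at h4
    rw [har, har] at h
    have h5 : a (d₂ + 1) * a (d₂ + 1) ≤ (K * a (y + 1)) * (K * a (y + 1)) :=
      mul_le_mul h4 h4 (ha0 _) (mul_nonneg hK.le (ha0 _))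
    unfold GS
    rw [if_pos h1]
    calc p ≤ C * (a (d₁ + 1) * (a (d₂ + 1) * a (d₂ + 1))) := h
      _ ≤ C * (a (d₁ + 1) * ((K * a (y + 1)) * (K * a (y + 1)))) :=
          mul_le_mul_of_nonneg_left (mul_le_mul_of_nonneg_left h5 (ha0 _)) hC.le
      _ = _ := by ring
  have hCK : 0 ≤ C * K ^ 2 := by positivity
  -- termwise
  have hterm : ∀ f ∈ tSites N, ∀ g ∈ (tSites N).erase f, Pr q (Joint (DT N i) f g) ≤
      C * K ^ 2 * (GS a (dT N (src f) e) (dT N (src g) e) +
        GS a (dT N (src g) e) (dT N (src f) e) +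
        GS a (dT N (src g) (src f)) (dT N (src f) e)) := by
    intro f hf g hg
    have hgm : g ∈ tSites N := Finset.mem_of_mem_erase hg
    have hf2 := (mem_tSites.1 hf).2.2
    have hg2 := (mem_tSites.1 hgm).2.2
    have sf : sv (src f) = f := sv_src hf2
    have sg : sv (src g) = g := sv_src hg2
    have hfg : src f ≠ src g := by
      intro h
      apply Finset.ne_of_mem_erase hg
      rw [← sf, ← sg, h]
    have hxf : sv (src f) ∈ tSites N := by rw [sf]; exact hf
    have hxg : sv (src g) ∈ tSites N := by rw [sg]; exact hgm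
    have r1 := roleS_one hN hxf hxg hfg hi
    have r2 := roleS_two hN hxf hxg hfg hi
    have r3 := roleS_three hN hxf hxg hfg hi
    rw [sf, sg, ← he] at r1 r2 r3
    obtain ⟨x, hx⟩ : ∃ x, x = dT N (src f) e := ⟨_, rfl⟩
    obtain ⟨y, hy⟩ : ∃ y, y = dT N (src g) e := ⟨_, rfl⟩
    obtain ⟨z, hz⟩ : ∃ z, z = dT N (src g) (src f) := ⟨_, rfl⟩
    have t1 := dT_tri hN (src f) (src g) e
    have t2 := dT_tri hN (src g) (src f) e
    have t3 := dT_tri hN (src g) e (src f)
    have c1 := dT_comm hN (src f) (src g)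
    have c2 := dT_comm hN e (src f)
    have c3 := dT_comm hN e (src g)
    have l1 := dT_le_half hN (src f) e
    have l2 := dT_le_half hN (src g) e
    have g1 := GS_nonneg ha0 x y
    have g2 := GS_nonneg ha0 y x
    have g3 := GS_nonneg ha0 z x
    rw [← hx, ← hy, ← hz]
    rw [mul_add, mul_add]
    have k1 := mul_nonneg hCK g1
    have k2 := mul_nonneg hCK g2
    have k3 := mul_nonneg hCK g3
    have hcase : (x ≤ y ∧ x ≤ z) ∨ (y ≤ x ∧ y ≤ z) ∨ (z ≤ x ∧ z ≤ y) := by omega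
    rcases hcase with ⟨m1, m2⟩ | ⟨m1, m2⟩ | ⟨m1, m2⟩
    · have h1 := hest N q _ e (src f) (src g) x (min y z) hN hR r2 (by omega) (by omega)
        (by omega) (by omega)
      have h2 := hbd _ x (min y z) y m1 (by omega) (by omega) h1
      linarith only [k2, k3, h2]
    · have h1 := hest N q _ e (src g) (src f) y (min x z) hN hR r3 (by omega) (by omega)
        (by omega) (by omega)
      have h2 := hbd _ y (min x z) x m1 (by omega) (by omega) h1
      linarith only [k1, k3, h2]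
    · have h1 := hest N q _ (src f) (src g) e z (min x y) hN hR r1 (by omega) (by omega)
        (by omega) (by omega)
      have h2 := hbd _ z (min x y) x m1 (by omega) (by omega) h1
      linarith only [k1, k2, h2]
  -- the three sums
  obtain ⟨T, hT⟩ : ∃ T : ℝ, T = ∑ t ∈ Finset.Icc 1 (N + 1), (t : ℝ) ^ 3 * a t ^ 3 := ⟨_, rfl⟩
  have hG := sum_GS ha0 (N := N) (C := M) (fun n h1 h2 => by
    rw [ha]
    exact hsum n q h1 (hreg n h2))
  rw [← hT] at hG
  have hin : ∀ (c' : Vert) (y : ℕ), ∑ g ∈ tSites N, GS a (dT N (src g) c') y ≤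
      ∑ x ∈ Finset.range (N + 1), 16 * ((x : ℝ) + 1) * GS a x y :=
    fun c' y => sum_by_dTS hN c' (fun x => GS a x y) fun x => GS_nonneg ha0 x y
  have hout : ∑ f ∈ tSites N, ∑ x ∈ Finset.range (N + 1), 16 * ((x : ℝ) + 1) *
      GS a x (dT N (src f) e) ≤ 256 * M * T := by
    refine le_trans (sum_by_dTS hN e
      (fun y => ∑ x ∈ Finset.range (N + 1), 16 * ((x : ℝ) + 1) * GS a x y) fun y => ?_) hG
    exact Finset.sum_nonneg fun x _ => mul_nonneg (by positivity) (GS_nonneg ha0 x y)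
  have s1 : ∑ f ∈ tSites N, ∑ g ∈ tSites N,
      GS a (dT N (src f) e) (dT N (src g) e) ≤ 256 * M * T := by
    rw [Finset.sum_comm]
    exact (Finset.sum_le_sum fun g _ => hin e _).trans hout
  have s2 : ∑ f ∈ tSites N, ∑ g ∈ tSites N,
      GS a (dT N (src g) e) (dT N (src f) e) ≤ 256 * M * T :=
    (Finset.sum_le_sum fun f _ => hin e _).trans hout
  have s3 : ∑ f ∈ tSites N, ∑ g ∈ tSites N,
      GS a (dT N (src g) (src f)) (dT N (src f) e) ≤ 256 * M * T :=
    (Finset.sum_le_sum fun f _ => hin (src f) _).trans hout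
  have hT' : ∑ t ∈ Finset.Icc 1 (N + 1), (t : ℝ) ^ 3 * a4 q t ^ 3 = T := by
    rw [hT, ha]
  rw [hT']
  calc ∑ f ∈ tSites N, ∑ g ∈ (tSites N).erase f, Pr q (Joint (DT N i) f g)
      ≤ ∑ f ∈ tSites N, ∑ g ∈ tSites N,
        C * K ^ 2 * (GS a (dT N (src f) e) (dT N (src g) e) +
          GS a (dT N (src g) e) (dT N (src f) e) +
          GS a (dT N (src g) (src f)) (dT N (src f) e)) := by
        refine Finset.sum_le_sum fun f hf => ?_
        refine (Finset.sum_le_sum fun g hg => hterm f hf g hg).trans ?_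
        refine Finset.sum_le_sum_of_subset_of_nonneg (Finset.erase_subset _ _) fun g _ _ => ?_
        have g1 := GS_nonneg ha0 (dT N (src f) e) (dT N (src g) e)
        have g2 := GS_nonneg ha0 (dT N (src g) e) (dT N (src f) e)
        have g3 := GS_nonneg ha0 (dT N (src g) (src f)) (dT N (src f) e)
        exact mul_nonneg hCK (by linarith)
    _ = C * K ^ 2 * (∑ f ∈ tSites N, ∑ g ∈ tSites N, GS a (dT N (src f) e) (dT N (src g) e) +
        ∑ f ∈ tSites N, ∑ g ∈ tSites N, GS a (dT N (src g) e) (dT N (src f) e) +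
        ∑ f ∈ tSites N, ∑ g ∈ tSites N, GS a (dT N (src g) (src f)) (dT N (src f) e)) := by
        rw [← Finset.sum_add_distrib, ← Finset.sum_add_distrib, Finset.mul_sum]
        refine Finset.sum_congr rfl fun f _ => ?_
        rw [← Finset.sum_add_distrib, ← Finset.sum_add_distrib, Finset.mul_sum]
    _ ≤ C * K ^ 2 * (3 * (256 * M)) * T := by
        rw [mul_assoc (C * K ^ 2)]
        refine mul_le_mul_of_nonneg_left ?_ hCK
        linarith

end Pool.Agent.H92.SN

end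

section

/-!
# Linear approximation of `tau` in the window of scale `2 ^ k`
-/

set_option autoImplicit false

open MeasureTheory ProbabilityTheory unitInterval Filter Topology

namespace Pool.Agent.H92.SN

open Pool.Agent.H89.Perc
open Pool.Agent.H61.NC (fill mid upd Joint PrR' dist0 PrR'_eq hasDerivAt_PrR_eq hasDerivAt_PrR' abs_second_le)
open Pool.Agent.H83.SK (sv sit)
open Pool.Agent.H13.SK (SumB uu SumB_nonneg)

end Pool.Agent.H92.SN

end

section

/-!
# The window at the critical density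
-/

set_option autoImplicit false

open MeasureTheory ProbabilityTheory unitInterval Filter Topology

namespace Pool.Agent.H92.SN

open Pool.Agent.H83.Site (pc)
open Pool.Agent.H13.SK (SumB uu uu_grow)

end Pool.Agent.H92.SN

end
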