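import Pool.Agent.H94.BG.H31.PT.M29_1
import Pool.Agent.H94.BG.H31.PT.M30_2
import Pool.Agent.H94.BG.M25

/-! The parts of this file: H13.SK.FinalThree, H13.SK.KExp, H13.SK.KLim, H13.SK.Comb, H13.SK.KTransfer, H92.SN.Est, H92.SN.Second, H92.SN.Win, H92.SN.WinPc. -/

section

/-!
# The remainder of the cluster density in terms of `θ` and `σ`
-/

set_option autoImplicit false

open MeasureTheory ProbabilityTheory unitInterval Filter Topology
open scoped ENNReal

namespace Pool.Agent.H13.SK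

open Pool.Agent.H89.Perc Pool.Agent.H83.Site

end Pool.Agent.H13.SK

end

section

/-!
# The expected number of open clusters in a box and its derivative
-/

set_option autoImplicit false

open MeasureTheory ProbabilityTheory unitInterval Filter Topology

namespace Pool.Agent.H13.SK

open Pool.Agent.H89.Perc Pool.Agent.H92.SN
open Pool.Agent.H83.SK (sv sit)

end Pool.Agent.H13.SK

end

section

/-!
# The cluster density
-/

set_option autoImplicit false

open MeasureTheory ProbabilityTheory unitInterval Filter Topology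

namespace Pool.Agent.H13.SK

open Pool.Agent.H89.Perc Pool.Agent.H92.SN
open Pool.Agent.H83.SK (sv sit)

/-! ### The derivative -/

end Pool.Agent.H13.SK

end

section

/-!
# The remainder of the cluster density at the critical density
-/

set_option autoImplicit false

open MeasureTheory ProbabilityTheory unitInterval Filter Topology

namespace Pool.Agent.H13.SK

open Pool.Agent.H83.Site (pc pc_pos pc_lt_one)
open Pool.Agent.H92.SN (tauR GLTorus)

/-- Continuity of `τ`. -/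
theorem tau_cont (hGL : GLTorus) : Continuous Pool.Agent.H92.SN.tau := by
  obtain ⟨c, hc, h⟩ := (nc_holds hGL).reg_pc
  exact Pool.Agent.H92.SN.tau_continuous (Pool.Agent.H92.SN.a4_unif ⟨c, hc, h⟩)

/-- The cluster density is differentiable on `(0, 1)`, twice differentiable at the critical
density, and the remainder is bounded by the four-arm probabilities. -/
theorem comb (hGL : GLTorus) (hW : WinS) :
    (∀ᶠ x in 𝓝 (pc : ℝ), DifferentiableAt ℝ kapS x) ∧ DifferentiableAt ℝ (deriv kapS) pc ∧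
    RemB (Pool.Agent.H92.SN.a4 pc)
      (fun x => max |Rm2 kapS pc (pc + x)| |Rm2 kapS pc (pc - x)|) := by
  have H := nc_holds hGL
  have hp0 := pc_pos
  have hp1 := pc_lt_one
  obtain ⟨c₀, hc₀, δ₀, hδ₀, -, hG⟩ := H.growth1
  obtain ⟨cp, hcp, hreg⟩ := H.reg_pc
  obtain ⟨C₁, hC₁, δ₁, hδ₁, -, hU⟩ := H.high cp hcp
  obtain ⟨c, hc, C, hC, k₀, b, hw⟩ := hW
  have hη : 0 < min (pc : ℝ) (1 - pc) := lt_min hp0 (by linarith)
  refine rem_of_win (a := Pool.Agent.H92.SN.a4 pc) (x₀ := pc) hc₀ hδ₀ hC₁ hδ₁ hG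
    (fun m n hm hmn => hU m n pc hm hmn (hreg _)) (fun n hn => H.pos_pc n hn)
    (fun m n hm hmn => H.anti pc m n hm hmn) hη (fun x hx => ?_) hc hC hw
  rw [abs_lt] at hx
  have h1 := min_le_left (pc : ℝ) (1 - pc)
  have h2 := min_le_right (pc : ℝ) (1 - pc)
  exact kapS_hasDerivAt (tau_cont hGL) (by linarith) (by linarith)

end Pool.Agent.H13.SK

end

section

/-!
# The number of clusters of the graph of open sites
-/

set_option autoImplicit false

open MeasureTheory ProbabilityTheory unitInterval Filter Topology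

namespace Pool.Agent.H13.SK

open Pool.Agent.H89.Perc Pool.Agent.H92.SN
open Pool.Agent.H83.SK (sv sit)
open Pool.Agent.H83.Site (SA extS resS map_resS)

section graph

end graph

end Pool.Agent.H13.SK

end

section

/-!
# Joint influences of two sites on the connection event
-/

set_option autoImplicit false

open MeasureTheory ProbabilityTheory unitInterval

namespace Pool.Agent.H92.SN

open Pool.Agent.H89.Perc
open Pool.Agent.H61.NC (modE mid Joint Joint_piv)
open Pool.Agent.H83.SK (sv sit)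
open Pool.Agent.H90.AL (dT dT_self dT_comm dT_tri dT_le_half)
open Pool.Agent.H29.Sep (A2)

/-! ### Probabilities -/

end Pool.Agent.H92.SN

end

section

/-!
# Second derivative of the connection probability on the torus
-/

set_option autoImplicit false

open MeasureTheory ProbabilityTheory unitInterval

namespace Pool.Agent.H92.SN

open Pool.Agent.H89.Perc
open Pool.Agent.H61.NC (modE mid Joint Joint_piv)
open Pool.Agent.H83.SK (sv sit)
open Pool.Agent.H90.AL (dT dT_self dT_comm dT_tri dT_le_half sum_by_dT isPer_per conn_per)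

theorem DT_sub {N r : ℕ} (i : ℕ) (hr : 1 ≤ r) (hN : 2 * r + 2 ≤ N) :
    DT N i ⊆ {w | sit (per N w) ∈ Dn (ball (cV N) r) (cV N) i} ∪ A4T N (cV N) r := by
  rintro w ⟨j, hj, a, b, hc⟩
  have hcf : ∀ g : Edge, src g ∈ ball (cV N) r → tgt g ∈ ball (cV N) r →
      cfgS N w g = closeV (cV N) (sit (per N w)) g := fun g h1 h2 =>
    cfgS_ball (by omega) w h1 h2
  change Conn (cfgS N w) _ _ _ at hc
  by_cases h0 : Conn (cfgS N w) (ball (cV N) r) (nb (cV N) j) (nb (cV N) i)
  · exact Or.inl ⟨j, hj, h0.congr hcf⟩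
  right
  have hp := isPer_cfgS N w
  have mj := (nb_Nb (cV N) j).mem_ball (r := 1) le_rfl
  have mi := (nb_Nb (cV N) i).mem_ball (r := 1) le_rfl
  have e1 : ((((nb (cV N) i).1 + a * N) + -a * N, ((nb (cV N) i).2 + b * N) + -b * N) : Vert) =
      nb (cV N) i := by
    ext <;> (simp only; ring)
  have hc2 := conn_per hp (-a) (-b) hc
  simp only at hc2
  rw [e1] at hc2
  have hout : a ≠ 0 ∨ b ≠ 0 → ((nb (cV N) i).1 + a * N, (nb (cV N) i).2 + b * N) ∉
      ball (cV N) r ∧ ((nb (cV N) j).1 + -a * N, (nb (cV N) j).2 + -b * N) ∉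
      ball (cV N) r := by
    intro hab
    have key : ∀ x : ℤ, x ≠ 0 → x * N ≤ -N ∨ N ≤ x * N := by
      intro x hx
      rcases lt_or_gt_of_ne hx with h | h
      · left
        have : x * N ≤ -1 * N := mul_le_mul_of_nonneg_right (by omega) (by omega)
        omega
      · right
        have : 1 * N ≤ x * N := mul_le_mul_of_nonneg_right (by omega) (by omega)
        omega
    rw [mem_ball] at mj mi
    push_cast at mj mi
    simp only [mem_ball, neg_mul]
    rcases hab with h | h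
    · have := key _ h
      constructor <;> omega
    · have := key _ h
      constructor <;> omega
  have conv : ∀ p : Vert, (∃ x ∈ sphere (cV N) r,
      Conn (cfgS N w) (ball (cV N) r) p x) → ∃ x ∈ sphere (cV N) r,
      Conn (closeV (cV N) (sit (per N w))) (ball (cV N) r) p x := by
    rintro p ⟨x, hx, hc⟩
    exact ⟨x, hx, hc.congr hcf⟩
  refine ⟨nb (cV N) j, nb (cV N) i, nb_Nb _ _, nb_Nb _ _, conv _ ?_, conv _ ?_, fun h =>
    h0 (h.congr fun g h1 h2 => (hcf g h1 h2).symm)⟩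
  · by_cases hab : a ≠ 0 ∨ b ≠ 0
    · obtain ⟨x, hx, hcx⟩ := hc.to_sphere ((nb_Nb (cV N) j).mem_ball hr) (Or.inl (hout hab).1)
      exact ⟨x, hx, hcx.mono_set Set.inter_subset_right⟩
    · push Not at hab
      rw [hab.1, hab.2] at hc
      simp only [zero_mul, add_zero] at hc
      exact reach_sphere hc ((nb_Nb (cV N) j).mem_ball hr) h0
  · by_cases hab : a ≠ 0 ∨ b ≠ 0
    · obtain ⟨x, hx, hcx⟩ := hc2.symm.to_sphere ((nb_Nb (cV N) i).mem_ball hr)
        (Or.inl (hout hab).2)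
      exact ⟨x, hx, hcx.mono_set Set.inter_subset_right⟩
    · push Not at hab
      rw [hab.1, hab.2] at hc
      simp only [zero_mul, add_zero] at hc
      exact reach_sphere hc.symm ((nb_Nb (cV N) i).mem_ball hr) fun h => h0 h.symm

/-- Comparison with the plane. -/
theorem DT_near (q : I) {N r : ℕ} (i : ℕ) (hr : 1 ≤ r) (hN : 2 * r + 2 ≤ N) :
    |Pr q (DT N i) - Pool.Agent.H83.SK.Pr q (Dn Set.univ 0 i)| ≤ a4 q r := by
  have h1 : tl i r q ≤ Pr q (DT N i) := by
    rw [← Pr_B0T q (N := N) i (by omega)]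
    exact Pr_mono (B0T_sub i (by omega))
  have h2 : Pr q (DT N i) ≤ tl i r q + a4 q r := by
    rw [← Pr_B0T q (N := N) i (by omega), ← Pr_A4T q (cV N) (show 2 * r < N by omega)]
    exact (Pr_mono (DT_sub i hr hN)).trans Pr_union_le
  have h3 := tl_le i r q
  have h4 := tl_near q hr i
  rw [abs_le]
  constructor <;> linarith

theorem tauT_near (q : I) {N r : ℕ} (hr : 1 ≤ r) (hN : 2 * r + 2 ≤ N) :
    |tauT N q - tau q| ≤ 3 * a4 q r := by
  unfold tauT tau
  rw [← Finset.sum_sub_distrib]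
  refine (Finset.abs_sum_le_sum_abs _ _).trans ?_
  refine (Finset.sum_le_sum fun i _ => DT_near q i hr hN).trans (le_of_eq ?_)
  rw [Finset.sum_const, Nat.card_Icc]
  simp

/-! ### The double sum -/

end Pool.Agent.H92.SN

end

section

/-!
# Linear approximation of `tau` in the window of scale `2 ^ k`
-/

set_option autoImplicit false

open MeasureTheory ProbabilityTheory unitInterval Filter Topology

namespace Pool.Agent.H92.SN

open Pool.Agent.H89.Perc
open Pool.Agent.H61.NC (fill mid upd Joint PrR' dist0 PrR'_eq hasDerivAt_PrR_eq hasDerivAt_PrR' abs_second_le)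
open Pool.Agent.H83.SK (sv sit)
open Pool.Agent.H13.SK (SumB uu SumB_nonneg)

/-- **The linear approximation of `tau` in the window of scale `2 ^ k`.** -/
theorem window_tau (hGL : GLTorus) (hBL : BlockLow) (hQM : QMann) {p : I} (hp0 : 0 < (p : ℝ))
    (hp1 : (p : ℝ) < 1)
    (hreg : ∃ c > (0 : ℝ), ∃ c' > (0 : ℝ), ∀ (n : ℕ) (q : I), 1 ≤ n →
      |(q : ℝ) - p| * ((n : ℝ) ^ 2 * a4 p n) ≤ c' → SReg c (512 * n) q)
    (hu : Tendsto (fun k => uu (a4 p) k) atTop atTop) (hpos : ∀ n, 1 ≤ n → 0 < a4 p n) :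
    ∃ c > (0 : ℝ), ∃ C > (0 : ℝ), ∃ (k₀ : ℕ) (b : ℕ → ℝ), ∀ k, k₀ ≤ k → ∀ t : ℝ,
      |t| ≤ c * (1 / uu (a4 p) k) →
        |(tauR (p + t) - tauR p) - b k * t| ≤
          C * (a4 p (2 ^ k) + t ^ 2 * SumB (a4 p) (2 ^ k)) := by
  obtain ⟨c, hc, c', hc', hR⟩ := hreg
  obtain ⟨C₂, hC₂, h2⟩ := second_DT hGL hBL hQM c hc
  obtain ⟨C₃, hC₃, h3⟩ := a4_near hGL hBL c hc
  have hm : 0 < min (p : ℝ) (1 - p) := lt_min hp0 (by linarith)
  obtain ⟨k₀, hk₀⟩ := (hu.eventually_ge_atTop (c' / min (p : ℝ) (1 - p))).exists_forall_of_atTop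
  refine ⟨c', hc', 3 * (C₃ + 1) + 3 * (C₂ * (C₃ ^ 3 * 2184)), by positivity, k₀,
    fun k => ∑ i ∈ Finset.Icc 1 3, PrR' (tSites (4 * 2 ^ k)) (DT (4 * 2 ^ k) i) p,
    fun k hk t ht => ?_⟩
  have hk1 : 1 ≤ 2 ^ k := Nat.one_le_two_pow
  obtain ⟨N, hN⟩ : ∃ N, N = 4 * 2 ^ k := ⟨_, rfl⟩
  have hN1 : 1 ≤ N := by omega
  have huk : 0 < uu (a4 p) k := Pool.Agent.H13.SK.uu_pos hpos k
  have hb : c' * (1 / uu (a4 p) k) ≤ min (p : ℝ) (1 - p) := by
    have h4 := hk₀ k hk
    rw [div_le_iff₀ hm] at h4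
    rw [mul_one_div, div_le_iff₀ huk, mul_comm]
    exact h4
  have ht0 : |t| ≤ p := ht.trans (hb.trans (min_le_left _ _))
  have ht1 : |t| ≤ 1 - p := ht.trans (hb.trans (min_le_right _ _))
  have hreg : ∀ q : I, |(q : ℝ) - p| ≤ |t| → SReg c (512 * 2 ^ k) q := by
    intro q hq
    refine hR (2 ^ k) q hk1 ?_
    have h5 : |(q : ℝ) - p| ≤ c' * (1 / uu (a4 p) k) := hq.trans ht
    rw [mul_one_div, le_div_iff₀ huk] at h5
    unfold uu at h5
    push_cast
    exact h5
  have hcmp : ∀ q : I, |(q : ℝ) - p| ≤ |t| → ∀ s : ℕ, 1 ≤ s → s ≤ 8 * 2 ^ k →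
      a4 q s ≤ C₃ * a4 p s := by
    intro q hq s hs1 hs2
    rcases le_total p q with hpq | hpq
    · refine (h3 (8 * 2 ^ k) p q hpq (fun q' h6 h7 => ?_) s hs1 hs2).1
      have h8 : |(q' : ℝ) - p| ≤ |t| := by
        refine le_trans ?_ hq
        have h6' : (p : ℝ) ≤ q' := h6
        have h7' : (q' : ℝ) ≤ q := h7
        rw [abs_of_nonneg (by linarith only [h6']), abs_of_nonneg (by linarith only [h6', h7'])]
        linarith only [h7']
      have h9 := hreg q' h8
      rw [show 64 * (8 * 2 ^ k) = 512 * 2 ^ k by ring]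
      exact h9
    · refine (h3 (8 * 2 ^ k) q p hpq (fun q' h6 h7 => ?_) s hs1 hs2).2
      have h8 : |(q' : ℝ) - p| ≤ |t| := by
        refine le_trans ?_ hq
        have h6' : (q : ℝ) ≤ q' := h6
        have h7' : (q' : ℝ) ≤ p := h7
        rw [abs_of_nonpos (by linarith), abs_of_nonpos (by linarith only [h6', h7'])]
        linarith only [h6']
      have h9 := hreg q' h8
      rw [show 64 * (8 * 2 ^ k) = 512 * 2 ^ k by ring]
      exact h9
  have hanti : ∀ m n, 1 ≤ m → m ≤ n → a4 p n ≤ a4 p m := fun m n h6 h7 => a4_anti p h6 h7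
  obtain ⟨S, hS⟩ : ∃ S, S = SumB (a4 p) (2 ^ k) := ⟨_, rfl⟩
  have hS0 : 0 ≤ S := by rw [hS]; exact SumB_nonneg hpos _
  have hsec : ∀ (i : ℕ) (q : I), |(q : ℝ) - p| ≤ |t| →
      ∑ f ∈ tSites N, ∑ g ∈ (tSites N).erase f, Pr q (Joint (DT N i) f g) ≤
        C₂ * (C₃ ^ 3 * 2184) * S := by
    intro i q hq
    have h4 := h2 N i q hN1 (by
      have h9 := hreg q hq
      rw [show 128 * N = 512 * 2 ^ k by rw [hN]; ring]
      exact h9)
    refine h4.trans ?_
    rw [mul_assoc]
    refine mul_le_mul_of_nonneg_left ?_ hC₂.le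
    calc ∑ s ∈ Finset.Icc 1 (N + 1), (s : ℝ) ^ 3 * a4 q s ^ 3
        ≤ ∑ s ∈ Finset.Icc 1 (N + 1), C₃ ^ 3 * ((s : ℝ) ^ 3 * a4 p s ^ 3) := by
          refine Finset.sum_le_sum fun s hs => ?_
          rw [Finset.mem_Icc] at hs
          have h5 := hcmp q hq s hs.1 (by omega)
          have h6 := a4_nonneg q s
          calc (s : ℝ) ^ 3 * a4 q s ^ 3 ≤ (s : ℝ) ^ 3 * (C₃ * a4 p s) ^ 3 := by gcongr
            _ = _ := by ring
      _ = C₃ ^ 3 * ∑ s ∈ Finset.Icc 1 (N + 1), (s : ℝ) ^ 3 * a4 p s ^ 3 := by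
          rw [Finset.mul_sum]
      _ ≤ C₃ ^ 3 * (2184 * S) := by
          refine mul_le_mul_of_nonneg_left ?_ (by positivity)
          rw [hN, hS]
          exact sum_Icc_le_SumB (fun t => a4_nonneg p t) hanti k
      _ = C₃ ^ 3 * 2184 * S := by ring
  -- the point
  have hmem : (p : ℝ) + t ∈ I := by
    have h4 := abs_le.1 ht0
    have h5 := abs_le.1 ht1
    exact ⟨by linarith only [h4], by linarith⟩
  obtain ⟨q, hq⟩ : ∃ q : I, q = ⟨(p : ℝ) + t, hmem⟩ := ⟨_, rfl⟩
  have hqt : (q : ℝ) - p = t := by rw [hq]; simp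
  have hqt' : |(q : ℝ) - p| ≤ |t| := by rw [hqt]
  have e1 : tauR ((p : ℝ) + t) = tau q := by
    unfold tauR
    rw [dif_pos hmem, hq]
  have e2 : tauR (p : ℝ) = tau p := by
    unfold tauR
    rw [dif_pos p.2]
  have hT : ∀ i, |Pr q (DT N i) - Pr p (DT N i) - PrR' (tSites N) (DT N i) p * t| ≤
      C₂ * (C₃ ^ 3 * 2184) * S * t ^ 2 := by
    intro i
    have h4 := taylor_DT (i := i) hN1 (r := |t|) (by linarith only [ht0]) (by linarith) (hsec i) hqt'
    rw [hqt, sq_abs] at h4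
    exact h4
  have hTT : |tauT N q - tauT N p -
      (∑ i ∈ Finset.Icc 1 3, PrR' (tSites N) (DT N i) p) * t| ≤
      3 * (C₂ * (C₃ ^ 3 * 2184) * S * t ^ 2) := by
    unfold tauT
    rw [Finset.sum_mul, ← Finset.sum_sub_distrib, ← Finset.sum_sub_distrib]
    refine (Finset.abs_sum_le_sum_abs _ _).trans ?_
    refine (Finset.sum_le_sum fun i _ => hT i).trans (le_of_eq ?_)
    rw [Finset.sum_const, Nat.card_Icc]
    simp
  have h6 := tauT_near q (N := N) (r := 2 ^ k) hk1 (by omega)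
  have h7 := tauT_near p (N := N) (r := 2 ^ k) hk1 (by omega)
  have h8 := hcmp q hqt' (2 ^ k) hk1 (by omega)
  have h9 := a4_nonneg p (2 ^ k)
  have e3 : tauR ((p : ℝ) + t) - tauR p -
      (∑ i ∈ Finset.Icc 1 3, PrR' (tSites N) (DT N i) p) * t =
      (tauT N q - tauT N p - (∑ i ∈ Finset.Icc 1 3, PrR' (tSites N) (DT N i) p) * t) +
        (-(tauT N q - tau q) + (tauT N p - tau p)) := by
    rw [e1, e2]
    ring
  beta_reduce
  rw [← hN, e3, ← hS]
  refine (abs_add_le _ _).trans ?_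
  have h10 := abs_add_le (-(tauT N q - tau q)) (tauT N p - tau p)
  rw [abs_neg] at h10
  have h11 : 0 ≤ C₂ * (C₃ ^ 3 * 2184) * a4 p (2 ^ k) := by positivity
  have h12 : 0 ≤ (C₃ + 1) * (t ^ 2 * S) := by positivity
  calc |tauT N q - tauT N p - (∑ i ∈ Finset.Icc 1 3, PrR' (tSites N) (DT N i) p) * t| +
        |-(tauT N q - tau q) + (tauT N p - tau p)|
      ≤ 3 * (C₂ * (C₃ ^ 3 * 2184) * S * t ^ 2) + (3 * (C₃ * a4 p (2 ^ k)) + 3 * a4 p (2 ^ k)) := by
        linarith only [hTT, h6, h7, h8, h10]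
    _ ≤ (3 * (C₃ + 1) + 3 * (C₂ * (C₃ ^ 3 * 2184))) * (a4 p (2 ^ k) + t ^ 2 * S) := by
        nlinarith only [h11, h12]

end Pool.Agent.H92.SN

end

section

/-!
# The window at the critical density
-/

set_option autoImplicit false

open MeasureTheory ProbabilityTheory unitInterval Filter Topology

namespace Pool.Agent.H92.SN

open Pool.Agent.H83.Site (pc pc_pos pc_lt_one)
open Pool.Agent.H13.SK (SumB uu uu_grow nc_holds window_reg' blockLow)

/-- The windows at the critical density shrink. -/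
theorem uu_tendsto (hGL : GLTorus) : Tendsto (fun k => uu (a4 pc) k) atTop atTop := by
  have H := nc_holds hGL
  obtain ⟨c₀, hc₀, δ₀, hδ₀, -, hG⟩ := H.growth1
  have h0 : 0 < uu (a4 pc) 0 := Pool.Agent.H13.SK.uu_pos H.pos_pc 0
  have h1 : Tendsto (fun i : ℕ => c₀ * ((2 : ℝ) ^ δ₀) ^ i * uu (a4 pc) 0) atTop atTop :=
    ((tendsto_pow_atTop_atTop_of_one_lt
      (Real.one_lt_rpow (by norm_num) hδ₀)).const_mul_atTop hc₀).atTop_mul_const h0
  refine tendsto_atTop_mono (fun i => ?_) h1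
  have h2 := uu_grow hG 0 i
  rwa [zero_add] at h2

/-- **The linear approximation of `tau` in the windows at the critical density.** -/
theorem window_tau_pc (hGL : GLTorus) (hQM : QMann) :
    ∃ c > (0 : ℝ), ∃ C > (0 : ℝ), ∃ (k₀ : ℕ) (b : ℕ → ℝ), ∀ k, k₀ ≤ k → ∀ t : ℝ,
      |t| ≤ c * (1 / uu (a4 pc) k) →
        |(tauR (pc + t) - tauR pc) - b k * t| ≤
          C * (a4 pc (2 ^ k) + t ^ 2 * SumB (a4 pc) (2 ^ k)) :=
  window_tau hGL blockLow hQM pc_pos pc_lt_one (window_reg' (nc_holds hGL) 512) (uu_tendsto hGL)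
    (nc_holds hGL).pos_pc

end Pool.Agent.H92.SN

end
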