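import Pool.Agent.H94.BG.H31.PT.M01

/-! The parts of this file: H85.Gamma.Window, H31.EX.PowerLaw, H56.EX.Pat, H56.EX.TL, H56.EX.Ins, H89.Link.Defs, H89.Link.Row, H56.EX.Defs, H89.Link.Potential, H12.QKZ.DivDiff, H12.QKZ.Support, H12.QKZ.Weights, H12.QKZ.Trig, H12.QKZ.RMat, H12.QKZ.Doeblin, H12.QKZ.Scatter, H12.QKZ.Dens, H96.EX.SSum, H34.Hom.Dvd, H34.Hom.Ext, H34.Hom.Lim, H34.Hom.Three, H34.Hom.Moments, H34.Hom.Wz, H34.Hom.Wz2, H34.Hom.Chu, H34.Hom.Alt, H34.Hom.SumId, H56.EX.Exch. -/

section

/-!
# Stability of the one-arm probability below the critical point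
-/

open MeasureTheory ProbabilityTheory unitInterval Filter Topology

namespace Pool.Agent.H85.Gamma

open Pool.Agent.H89.Perc

end Pool.Agent.H85.Gamma

end

section

/-!
# Power laws with `o(1)` in the exponent

`PL F a` means `F h = h ^ (a + o(1))` as `h ↓ 0`, `PN f a` means `f n = n ^ (-a + o(1))` as
`n → ∞`.
-/

namespace Pool.Agent.H31.EX

/-- `F h = h ^ (a + o(1))` as `h ↓ 0`. -/
def PL (F : ℝ → ℝ) (a : ℝ) : Prop :=
  ∀ ε > (0 : ℝ), ∃ δ > (0 : ℝ), ∀ h : ℝ, 0 < h → h < δ → h ^ (a + ε) ≤ F h ∧ F h ≤ h ^ (a - ε)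

/-- Products of power laws. -/
lemma PL.mul {F G : ℝ → ℝ} {a b : ℝ} (hF : PL F a) (hG : PL G b) :
    PL (fun x => F x * G x) (a + b) := by
  intro ε hε
  obtain ⟨δ₁, hδ₁, hF1⟩ := hF (ε / 2) (by positivity)
  obtain ⟨δ₂, hδ₂, hG1⟩ := hG (ε / 2) (by positivity)
  refine ⟨min δ₁ δ₂, lt_min hδ₁ hδ₂, fun x x0 x1 => ?_⟩
  obtain ⟨f1, f2⟩ := hF1 x x0 (x1.trans_le (min_le_left _ _))
  obtain ⟨g1, g2⟩ := hG1 x x0 (x1.trans_le (min_le_right _ _))
  have p1 : 0 < x ^ (a + ε / 2) := by positivity
  have p2 : 0 < x ^ (b + ε / 2) := by positivity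
  constructor
  · calc x ^ (a + b + ε) = x ^ (a + ε / 2) * x ^ (b + ε / 2) := by
          rw [← Real.rpow_add x0]; congr 1; ring
      _ ≤ F x * G x := mul_le_mul f1 g1 p2.le (p1.le.trans f1)
  · calc F x * G x ≤ x ^ (a - ε / 2) * x ^ (b - ε / 2) :=
          mul_le_mul f2 g2 (p2.le.trans g1) (by positivity)
      _ = x ^ (a + b - ε) := by
          rw [← Real.rpow_add x0]; congr 1; ring

lemma PL.pow_two {F : ℝ → ℝ} {a : ℝ} (hF : PL F a) : PL (fun x => F x ^ 2) (2 * a) := by
  have := hF.mul hF
  intro ε hε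
  obtain ⟨δ, hδ, h⟩ := this ε hε
  refine ⟨δ, hδ, fun x x0 x1 => ?_⟩
  have h1 := h x x0 x1
  simp only [_root_.pow_two, two_mul] at h1 ⊢
  exact h1

end Pool.Agent.H31.EX

end

section

/-! Link patterns on the half infinite cylinder (punctured disc), as involutions on the universal cover,
and the periodic Temperley-Lieb moves `e_i` (contractible and noncontractible loops are dropped). -/

namespace H56.EX

/-- Link patterns of the half infinite cylinder with `L` boundary points, on the universal cover `ℤ`. -/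
@[ext] structure Pat (L : ℕ) where
  m : ℤ → ℤ
  inv : ∀ x, m (m x) = x
  per : ∀ x, m (x + L) = m x + L
  ne : ∀ x, m x ≠ x
  short : ∀ x, |m x - x| < L
  nc : ∀ x y, x < y → y < m x → x < m y ∧ m y < m x

/-- The raw Temperley-Lieb move. -/
def tl (L : ℕ) (i : ℤ) (m : ℤ → ℤ) (x : ℤ) : ℤ :=
  if (L : ℤ) ∣ x - i then x + 1
  else if (L : ℤ) ∣ x - (i + 1) then x - 1
  else if (L : ℤ) ∣ m x - i then m (m x + 1)
  else if (L : ℤ) ∣ m x - (i + 1) then m (m x - 1)
  else m x

lemma dvd_cases {L : ℕ} {t : ℤ} (h : (L : ℤ) ∣ t) : t = 0 ∨ (L : ℤ) ≤ t ∨ t ≤ -(L : ℤ) := by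
  obtain ⟨a, rfl⟩ := h
  rcases lt_trichotomy a 0 with ha | ha | ha
  · right; right
    have : (0 : ℤ) ≤ L := Int.natCast_nonneg L
    nlinarith only [ha]
  · left; simp [ha]
  · right; left
    have : (0 : ℤ) ≤ L := Int.natCast_nonneg L
    nlinarith only [ha]

namespace Pat

variable {L : ℕ} (P : Pat L)

lemma per_mul (x a : ℤ) : P.m (x + L * a) = P.m x + L * a := by
  induction a using Int.induction_on with
  | zero => simp
  | succ a ih =>
    have := P.per (x + L * a)
    rw [show x + (L : ℤ) * (a + 1) = x + L * a + L by ring, this, ih]; ring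
  | pred a ih =>
    have := P.per (x + L * (-a - 1))
    rw [show x + (L : ℤ) * (-a - 1) + L = x + L * (-a) by ring, ih] at this
    linarith only [this]

lemma per_dvd {x y : ℤ} (h : (L : ℤ) ∣ y - x) : P.m y = P.m x + (y - x) := by
  obtain ⟨a, ha⟩ := h
  have : y = x + L * a := by linarith only [ha]
  rw [this, P.per_mul]; ring

lemma inj {x y : ℤ} (h : P.m x = P.m y) : x = y := by
  rw [← P.inv x, h, P.inv]

lemma short' (x : ℤ) : P.m x - x < L ∧ x - P.m x < L := by
  have := P.short x; rw [abs_lt] at this; constructor <;> linarith [this.1, this.2]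

/-- `m x` is never congruent to `x`. -/
lemma not_dvd_self (x : ℤ) : ¬ (L : ℤ) ∣ P.m x - x := by
  intro h
  have h1 := P.short' x
  rcases dvd_cases h with h | h | h
  · exact P.ne x (by linarith only [h])
  · linarith [h1.1]
  · linarith [h1.2]

lemma two_le (P : Pat L) : 2 ≤ L := by
  have h := P.short' 0
  have h2 := P.ne 0
  rcases lt_trichotomy (P.m 0) 0 with h3 | h3 | h3
  · have : (1 : ℤ) < L := by linarith [h.2]
    omega
  · exact absurd h3 h2
  · have : (1 : ℤ) < L := by linarith [h.1]
    omega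

end Pat

section closure

variable {L : ℕ} (P : Pat L) (i : ℤ)

lemma not_both (h2 : 2 ≤ L) {x i : ℤ} (h : (L : ℤ) ∣ x - i) : ¬ (L : ℤ) ∣ x - (i + 1) := by
  intro h'
  have : (L : ℤ) ∣ 1 := by
    have := dvd_sub h h'
    have e : x - i - (x - (i + 1)) = 1 := by ring
    rwa [e] at this
  have := Int.le_of_dvd (by norm_num) this
  omega

lemma tl_of_dvd {m : ℤ → ℤ} {x : ℤ} (h : (L : ℤ) ∣ x - i) : tl L i m x = x + 1 := by
  simp [tl, h]

lemma tl_of_dvd_succ (h2 : 2 ≤ L) {m : ℤ → ℤ} {x : ℤ} (h : (L : ℤ) ∣ x - (i + 1)) :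
    tl L i m x = x - 1 := by
  have h' : ¬ (L : ℤ) ∣ x - i := fun h' => not_both h2 h' h
  simp [tl, h, h']

lemma tl_of_m {m : ℤ → ℤ} {x : ℤ} (h1 : ¬ (L : ℤ) ∣ x - i) (h2 : ¬ (L : ℤ) ∣ x - (i + 1))
    (h : (L : ℤ) ∣ m x - i) : tl L i m x = m (m x + 1) := by
  simp [tl, h, h1, h2]

lemma tl_of_m_succ (hL : 2 ≤ L) {m : ℤ → ℤ} {x : ℤ} (h1 : ¬ (L : ℤ) ∣ x - i)
    (h2 : ¬ (L : ℤ) ∣ x - (i + 1)) (h : (L : ℤ) ∣ m x - (i + 1)) : tl L i m x = m (m x - 1) := by
  have h' : ¬ (L : ℤ) ∣ m x - i := fun h' => not_both hL h' h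
  simp [tl, h, h1, h2, h']

lemma tl_of_else {m : ℤ → ℤ} {x : ℤ} (h1 : ¬ (L : ℤ) ∣ x - i)
    (h2 : ¬ (L : ℤ) ∣ x - (i + 1)) (h3 : ¬ (L : ℤ) ∣ m x - i) (h4 : ¬ (L : ℤ) ∣ m x - (i + 1)) :
    tl L i m x = m x := by
  simp [tl, h1, h2, h3, h4]

/-- the five cases for the value of `tl` -/
lemma tl_cases (hL : 2 ≤ L) (m : ℤ → ℤ) (x : ℤ) :
    ((L : ℤ) ∣ x - i ∧ tl L i m x = x + 1) ∨
    ((L : ℤ) ∣ x - (i + 1) ∧ tl L i m x = x - 1) ∨
    (¬ (L : ℤ) ∣ x - i ∧ ¬ (L : ℤ) ∣ x - (i + 1) ∧ (L : ℤ) ∣ m x - i ∧ tl L i m x = m (m x + 1)) ∨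
    (¬ (L : ℤ) ∣ x - i ∧ ¬ (L : ℤ) ∣ x - (i + 1) ∧ (L : ℤ) ∣ m x - (i + 1) ∧
      tl L i m x = m (m x - 1)) ∨
    (¬ (L : ℤ) ∣ x - i ∧ ¬ (L : ℤ) ∣ x - (i + 1) ∧ ¬ (L : ℤ) ∣ m x - i ∧
      ¬ (L : ℤ) ∣ m x - (i + 1) ∧ tl L i m x = m x) := by
  by_cases h1 : (L : ℤ) ∣ x - i
  · left; exact ⟨h1, tl_of_dvd i h1⟩
  by_cases h2 : (L : ℤ) ∣ x - (i + 1)
  · right; left; exact ⟨h2, tl_of_dvd_succ i hL h2⟩
  by_cases h3 : (L : ℤ) ∣ m x - i
  · right; right; left; exact ⟨h1, h2, h3, tl_of_m i h1 h2 h3⟩
  by_cases h4 : (L : ℤ) ∣ m x - (i + 1)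
  · right; right; right; left; exact ⟨h1, h2, h4, tl_of_m_succ i hL h1 h2 h4⟩
  · right; right; right; right; exact ⟨h1, h2, h3, h4, tl_of_else i h1 h2 h3 h4⟩

lemma dvd_shift {x y i : ℤ} (h : (L : ℤ) ∣ y - x) : (L : ℤ) ∣ y - i ↔ (L : ℤ) ∣ x - i := by
  constructor
  · intro h'
    have := dvd_sub h' h
    have e : y - i - (y - x) = x - i := by ring
    rwa [e] at this
  · intro h'
    have := dvd_add h' h
    have e : x - i + (y - x) = y - i := by ring
    rwa [e] at this

/-- z congruent to i: then m (z+1) not congruent to i, i+1 unless m z congruent to i+1 -/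
lemma aux_succ {z : ℤ} (hz : (L : ℤ) ∣ z - i) (h : ¬ (L : ℤ) ∣ P.m z - (i + 1)) :
    ¬ (L : ℤ) ∣ P.m (z + 1) - i ∧ ¬ (L : ℤ) ∣ P.m (z + 1) - (i + 1) := by
  constructor
  · intro h'
    apply h
    -- m (z+1) = z + aL
    have h1 : (L : ℤ) ∣ P.m (z + 1) - z := by
      have := dvd_sub h' hz
      have e : P.m (z + 1) - i - (z - i) = P.m (z + 1) - z := by ring
      rwa [e] at this
    have h2 := P.per_dvd h1
    rw [P.inv] at h2
    -- z + 1 = m z + (m (z+1) - z)
    have h3 : (L : ℤ) ∣ P.m z - (z + 1) := by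
      have e : P.m z - (z + 1) = -(P.m (z + 1) - z) := by linarith
      rw [e]; exact (dvd_neg).2 h1
    have := dvd_add h3 hz
    have e : P.m z - (z + 1) + (z - i) = P.m z - (i + 1) := by ring
    rwa [e] at this
  · intro h'
    apply P.not_dvd_self (z + 1)
    have := dvd_sub h' hz
    have e : P.m (z + 1) - (i + 1) - (z - i) = P.m (z + 1) - (z + 1) := by ring
    rwa [e] at this

lemma aux_self {z : ℤ} (hz : (L : ℤ) ∣ z - i) :
    ¬ (L : ℤ) ∣ P.m z - i := by
  intro h'
  apply P.not_dvd_self z
  have := dvd_sub h' hz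
  have e : P.m z - i - (z - i) = P.m z - z := by ring
  rwa [e] at this

lemma tl_inv (x : ℤ) : tl L i P.m (tl L i P.m x) = x := by
  have hL := P.two_le
  rcases tl_cases i hL P.m x with ⟨h, e⟩ | ⟨h, e⟩ | ⟨h1, h2, h3, e⟩ | ⟨h1, h2, h3, e⟩ |
    ⟨h1, h2, h3, h4, e⟩
  · rw [e, tl_of_dvd_succ i hL]; ring
    have : x + 1 - (i + 1) = x - i := by ring
    rwa [this]
  · rw [e, tl_of_dvd i]; ring
    have : x - 1 - i = x - (i + 1) := by ring
    rwa [this]
  · rw [e]
    have hz : ¬ (L : ℤ) ∣ P.m (P.m x) - (i + 1) := by rw [P.inv]; exact h2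
    obtain ⟨a1, a2⟩ := aux_succ P i h3 hz
    rw [tl_of_m_succ i hL a1 a2, P.inv]
    · rw [show P.m x + 1 - 1 = P.m x by ring, P.inv]
    · rw [P.inv]
      have : P.m x + 1 - (i + 1) = P.m x - i := by ring
      rwa [this]
  · rw [e]
    have hz : (L : ℤ) ∣ (P.m x - 1) - i := by
      have : P.m x - 1 - i = P.m x - (i + 1) := by ring
      rwa [this]
    have hz2 : ¬ (L : ℤ) ∣ P.m (P.m x - 1) - (i + 1) := by
      intro h'
      -- m (m x - 1) = m x + aL  => m x - 1 = x + aL
      have h5 : (L : ℤ) ∣ P.m (P.m x - 1) - P.m x := by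
        have := dvd_sub h' h3
        have e : P.m (P.m x - 1) - (i + 1) - (P.m x - (i + 1)) = P.m (P.m x - 1) - P.m x := by ring
        rwa [e] at this
      have h6 := P.per_dvd h5
      rw [P.inv, P.inv] at h6
      apply h1
      have h7 : (L : ℤ) ∣ x - (P.m x - 1) := by
        have e : x - (P.m x - 1) = -(P.m (P.m x - 1) - P.m x) := by linarith only [h6]
        rw [e]; exact (dvd_neg).2 h5
      have := dvd_add h7 hz
      have e : x - (P.m x - 1) + (P.m x - 1 - i) = x - i := by ring
      rwa [e] at this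
    have a1 := aux_self P i hz
    rw [tl_of_m i a1 hz2, P.inv]
    · rw [show P.m x - 1 + 1 = P.m x by ring, P.inv]
    · rw [P.inv]; exact hz
  · rw [e, tl_of_else i h3 h4 (by rw [P.inv]; exact h1) (by rw [P.inv]; exact h2), P.inv]

lemma tl_per (x : ℤ) : tl L i P.m (x + L) = tl L i P.m x + L := by
  have hL := P.two_le
  have hd : (L : ℤ) ∣ (x + L) - x := by simp
  have hm : P.m (x + L) = P.m x + L := P.per x
  have hd' : (L : ℤ) ∣ P.m (x + L) - P.m x := by rw [hm]; simp
  rcases tl_cases i hL P.m x with ⟨h, e⟩ | ⟨h, e⟩ | ⟨h1, h2, h3, e⟩ | ⟨h1, h2, h3, e⟩ |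
    ⟨h1, h2, h3, h4, e⟩
  · rw [e, tl_of_dvd i ((dvd_shift hd).2 h)]; ring
  · rw [e, tl_of_dvd_succ i hL ((dvd_shift hd).2 h)]; ring
  · rw [e, tl_of_m i (by rw [dvd_shift hd]; exact h1) (by rw [dvd_shift hd]; exact h2)
      ((dvd_shift hd').2 h3), hm, show P.m x + L + 1 = P.m x + 1 + L by ring, P.per]
  · rw [e, tl_of_m_succ i hL (by rw [dvd_shift hd]; exact h1) (by rw [dvd_shift hd]; exact h2)
      ((dvd_shift hd').2 h3), hm, show P.m x + L - 1 = P.m x - 1 + L by ring, P.per]
  · rw [e, tl_of_else i (by rw [dvd_shift hd]; exact h1) (by rw [dvd_shift hd]; exact h2)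
      (by rw [dvd_shift hd']; exact h3) (by rw [dvd_shift hd']; exact h4), hm]

lemma tl_ne (x : ℤ) : tl L i P.m x ≠ x := by
  have hL := P.two_le
  rcases tl_cases i hL P.m x with ⟨h, e⟩ | ⟨h, e⟩ | ⟨h1, h2, h3, e⟩ | ⟨h1, h2, h3, e⟩ |
    ⟨h1, h2, h3, h4, e⟩
  · rw [e]; omega
  · rw [e]; omega
  · rw [e]; intro h
    have := P.inv x
    have h5 := P.inj (h.trans this.symm)
    omega
  · rw [e]; intro h
    have := P.inv x
    have h5 := P.inj (h.trans this.symm)
    omega
  · rw [e]; exact P.ne x

/-- distance of the two partners -/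
lemma partner_close {z : ℤ} (h : ¬ (L : ℤ) ∣ P.m z - (z + 1)) :
    P.m (z + 1) - P.m z < L ∧ P.m z - P.m (z + 1) < L := by
  have s1 := P.short' z
  have s2 := P.short' (z + 1)
  have n1 := P.ne z
  have n2 := P.ne (z + 1)
  have hne1 : P.m z ≠ z + 1 := fun h' => h (by rw [h']; simp)
  have hne2 : P.m (z + 1) ≠ z := by
    intro h'
    apply hne1
    have h3 := P.inv (z + 1)
    rwa [h'] at h3
  have hneL : P.m z + L ≠ z + 1 := by
    intro h'
    apply h
    have e : P.m z - (z + 1) = -(L : ℤ) := by linarith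
    rw [e]; simp
  rcases lt_or_gt_of_ne n1 with hj | hj
  · -- m z < z
    rcases lt_or_gt_of_ne n2 with hk | hk
    · -- m (z+1) < z+1, so < z
      have hk' : P.m (z + 1) < z := by omega
      have := P.nc (P.m (z + 1)) z hk' (by rw [P.inv]; omega)
      rw [P.inv] at this
      constructor
      · linarith only [s2, hj, this, this.1]
      · omega
    · -- m z < z < z+1 < m (z+1)
      constructor
      · by_contra hc
        rw [not_lt] at hc
        have hper : P.m (P.m z + L) = z + L := by rw [P.per, P.inv]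
        have hneq : P.m z + L ≠ P.m (z + 1) := by
          intro h'
          have h2 := congrArg P.m h'
          rw [hper, P.inv] at h2
          have := P.two_le
          omega
        have h3 : z + 1 < P.m z + L := by omega
        have h4 : P.m z + L < P.m (z + 1) := by omega
        have := P.nc (z + 1) (P.m z + L) h3 h4
        rw [hper] at this
        omega
      · omega
  · -- m z > z, so > z + 1
    have hz : z + 1 < P.m z := by omega
    have := P.nc z (z + 1) (by omega) hz
    constructor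
    · omega
    · omega

lemma tl_short (x : ℤ) : |tl L i P.m x - x| < L := by
  have hL := P.two_le
  rw [abs_lt]
  rcases tl_cases i hL P.m x with ⟨h, e⟩ | ⟨h, e⟩ | ⟨h1, h2, h3, e⟩ | ⟨h1, h2, h3, e⟩ |
    ⟨h1, h2, h3, h4, e⟩
  · rw [e]; constructor <;> omega
  · rw [e]; constructor <;> omega
  · rw [e]
    have hz : ¬ (L : ℤ) ∣ P.m (P.m x) - (P.m x + 1) := by
      rw [P.inv]
      intro h'
      apply h2
      have := dvd_add h' h3
      have e : x - (P.m x + 1) + (P.m x - i) = x - (i + 1) := by ring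
      rwa [e] at this
    have := partner_close P hz
    rw [P.inv] at this
    constructor <;> linarith only [this, this.1, this.2]
  · rw [e]
    have hz : ¬ (L : ℤ) ∣ P.m (P.m x - 1) - (P.m x - 1 + 1) := by
      intro h'
      rw [show P.m x - 1 + 1 = P.m x by ring] at h'
      have h6 := P.per_dvd h'
      rw [P.inv, P.inv] at h6
      apply h1
      have h7 : (L : ℤ) ∣ x - (P.m x - 1) := by
        have e : x - (P.m x - 1) = -(P.m (P.m x - 1) - P.m x) := by linarith only [h6]
        rw [e]; exact (dvd_neg).2 h'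
      have := dvd_add h7 h3
      have e : x - (P.m x - 1) + (P.m x - (i + 1)) = x - i := by ring
      rwa [e] at this
    have := partner_close P hz
    rw [show P.m x - 1 + 1 = P.m x by ring, P.inv] at this
    constructor <;> linarith [this.1, this.2]
  · rw [e]; have := P.short x; rwa [abs_lt] at this

/-- Key step: the new arc joining the partners of `z` and `z+1`: everything strictly below it. -/
lemma new_arc {z y : ℤ} (hz : (L : ℤ) ∣ z - i) (h : ¬ (L : ℤ) ∣ P.m z - (z + 1))
    (hyi : ¬ (L : ℤ) ∣ y - i) (hyi' : ¬ (L : ℤ) ∣ y - (i + 1))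
    (hy : (P.m z < y ∧ y < P.m (z + 1)) ∨ (P.m (z + 1) < y ∧ y < P.m z)) :
    ¬ (L : ℤ) ∣ P.m y - i ∧ ¬ (L : ℤ) ∣ P.m y - (i + 1) ∧
    ((P.m z < P.m y ∧ P.m y < P.m (z + 1)) ∨ (P.m (z + 1) < P.m y ∧ P.m y < P.m z)) := by
  have hL := P.two_le
  have hc := partner_close P h
  have s1 := P.short' z
  have s2 := P.short' (z + 1)
  have n1 := P.ne z
  have n2 := P.ne (z + 1)
  have i1 := P.inv z
  have i2 := P.inv (z + 1)
  have iy := P.inv y
  have hne1 : P.m z ≠ z + 1 := fun h' => h (by rw [h']; simp)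
  have hne2 : P.m (z + 1) ≠ z := by
    intro h'
    apply hne1
    have h3 := P.inv (z + 1)
    rwa [h'] at h3
  have hyz : y ≠ z := by rintro rfl; exact hyi hz
  have hyz1 : y ≠ z + 1 := by
    rintro rfl
    apply hyi'
    have e : z + 1 - (i + 1) = z - i := by ring
    rwa [e]
  -- m y is congruent to i or i+1 only if y is a translate of m z or m (z+1)
  have key1 : (L : ℤ) ∣ P.m y - i → (L : ℤ) ∣ P.m y - z ∧ P.m y - z = y - P.m z := by
    intro h'
    have h1 : (L : ℤ) ∣ P.m y - z := by
      have := dvd_sub h' hz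
      have e : P.m y - i - (z - i) = P.m y - z := by ring
      rwa [e] at this
    refine ⟨h1, ?_⟩
    have h2 := P.per_dvd h1
    rw [iy] at h2
    linarith only [h2]
  have key2 : (L : ℤ) ∣ P.m y - (i + 1) →
      (L : ℤ) ∣ P.m y - (z + 1) ∧ P.m y - (z + 1) = y - P.m (z + 1) := by
    intro h'
    have h1 : (L : ℤ) ∣ P.m y - (z + 1) := by
      have := dvd_sub h' hz
      have e : P.m y - (i + 1) - (z - i) = P.m y - (z + 1) := by ring
      rwa [e] at this
    refine ⟨h1, ?_⟩
    have h2 := P.per_dvd h1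
    rw [iy] at h2
    linarith only [h2]
  have hmain : (P.m z < P.m y ∧ P.m y < P.m (z + 1)) ∨ (P.m (z + 1) < P.m y ∧ P.m y < P.m z) := by
    rcases hy with ⟨hy1, hy2⟩ | ⟨hy1, hy2⟩
    · left
      -- m z < y < m (z+1)
      rcases lt_or_gt_of_ne n1 with hj | hj
      · rcases lt_or_gt_of_ne n2 with hk | hk
        · -- both left: m (z+1) < z and then m z inside: contradiction with m z < m (z+1)
          have hk' : P.m (z + 1) < z := by omega
          have := P.nc (P.m (z + 1)) z hk' (by rw [i2]; omega)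
          omega
        · rcases lt_trichotomy y z with h3 | h3 | h3
          · have := P.nc (P.m z) y hy1 (by rw [i1]; exact h3)
            rw [i1] at this
            omega
          · exact absurd h3 hyz
          · have := P.nc (z + 1) y (by omega) hy2
            omega
      · -- m z > z + 1: m (z+1) in between
        have hzz : z + 1 < P.m z := by omega
        have := P.nc z (z + 1) (by omega) hzz
        omega
    · right
      rcases lt_or_gt_of_ne n1 with hj | hj
      · rcases lt_or_gt_of_ne n2 with hk | hk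
        · -- m (z+1) < m z < z
          have hk' : P.m (z + 1) < z := by omega
          have h3 := P.nc (P.m (z + 1)) z hk' (by rw [i2]; omega)
          rw [i2] at h3
          have h4 := P.nc (P.m (z + 1)) y hy1 (by rw [i2]; omega)
          rw [i2] at h4
          refine ⟨h4.1, ?_⟩
          by_contra hcon
          have hne : P.m y ≠ P.m z := fun h' => hyz (P.inj h')
          have hne' : P.m y ≠ z := by
            intro h'
            have := iy
            rw [h'] at this
            omega
          have h5 : P.m z < P.m y := by omega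
          have h6 : P.m y < z := by omega
          have h7 := P.nc (P.m z) (P.m y) h5 (by rw [i1]; exact h6)
          rw [iy] at h7
          omega
        · omega
      · have hzz : z + 1 < P.m z := by omega
        have h3 := P.nc z (z + 1) (by omega) hzz
        have h4 := P.nc z y (by omega) hy2
        refine ⟨?_, h4.2⟩
        by_contra hcon
        have hne : P.m y ≠ P.m (z + 1) := fun h' => hyz1 (P.inj h')
        have hne' : P.m y ≠ z + 1 := by
          intro h'
          have := iy
          rw [h'] at this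
          omega
        have h5 : z + 1 < P.m y := by omega
        have h6 : P.m y < P.m (z + 1) := by omega
        have h7 := P.nc (z + 1) (P.m y) h5 h6
        rw [iy] at h7
        omega
  refine ⟨?_, ?_, hmain⟩
  · intro h'
    obtain ⟨h1, h2⟩ := key1 h'
    rcases dvd_cases h1 with h3 | h3 | h3
    · have : P.m y = z := by linarith only [h3]
      have h4 : y = P.m z := by linarith only [h2, h3]
      omega
    · omega
    · omega
  · intro h'
    obtain ⟨h1, h2⟩ := key2 h'
    rcases dvd_cases h1 with h3 | h3 | h3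
    · have h4 : y = P.m (z + 1) := by linarith only [h2, h3]
      omega
    · omega
    · omega

lemma tl_nc (x y : ℤ) (hxy : x < y) (hyx : y < tl L i P.m x) :
    x < tl L i P.m y ∧ tl L i P.m y < tl L i P.m x := by
  have hL := P.two_le
  have iy := P.inv y
  have ix := P.inv x
  rcases tl_cases i hL P.m x with ⟨h, e⟩ | ⟨h, e⟩ | ⟨h1, h2, h3, e⟩ | ⟨h1, h2, h3, e⟩ |
    ⟨h1, h2, h3, h4, e⟩
  · rw [e] at hyx; omega
  · rw [e] at hyx; omega
  · -- m x = z, z ≡ i, new arc from x = m z to m (z + 1)
    set z := P.m x with hzdef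
    have hz : ¬ (L : ℤ) ∣ P.m z - (z + 1) := by
      rw [ix]
      intro h'
      apply h2
      have := dvd_add h' h3
      have e : x - (z + 1) + (z - i) = x - (i + 1) := by ring
      rwa [e] at this
    rw [e] at hyx ⊢
    obtain ⟨a1, a2⟩ := aux_succ P i h3 (by rw [ix]; exact h2)
    rcases tl_cases i hL P.m y with ⟨g, f⟩ | ⟨g, f⟩ | ⟨g1, g2, g3, f⟩ | ⟨g1, g2, g3, f⟩ |
      ⟨g1, g2, g3, g4, f⟩
    · rw [f]
      have : P.m (z + 1) ≠ y + 1 := by
        intro h'
        apply a2
        rw [h']
        have e : y + 1 - (i + 1) = y - i := by ring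
        rwa [e]
      omega
    · rw [f]
      have : x ≠ y - 1 := by
        intro h'
        apply h1
        rw [h']
        have e : y - 1 - i = y - (i + 1) := by ring
        rwa [e]
      omega
    · have := new_arc P i h3 hz g1 g2 (Or.inl ⟨by rw [ix]; exact hxy, hyx⟩)
      exact absurd g3 this.1
    · have := new_arc P i h3 hz g1 g2 (Or.inl ⟨by rw [ix]; exact hxy, hyx⟩)
      exact absurd g3 this.2.1
    · rw [f]
      have := (new_arc P i h3 hz g1 g2 (Or.inl ⟨by rw [ix]; exact hxy, hyx⟩)).2.2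
      rw [ix] at this
      omega
  · -- m x = z + 1, z ≡ i
    obtain ⟨z, hzz⟩ : ∃ z, P.m x = z + 1 := ⟨P.m x - 1, by ring⟩
    have hzi : (L : ℤ) ∣ z - i := by
      rw [hzz] at h3
      have e : z + 1 - (i + 1) = z - i := by ring
      rwa [e] at h3
    rw [hzz] at e ix
    rw [show z + 1 - 1 = z by ring] at e
    have hz : ¬ (L : ℤ) ∣ P.m z - (z + 1) := by
      intro h'
      have h6 := P.per_dvd h'
      rw [P.inv, ix] at h6
      apply h1
      have h7 : (L : ℤ) ∣ x - z := by
        have e : x - z = -(P.m z - (z + 1)) := by linarith only [h6]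
        rw [e]; exact (dvd_neg).2 h'
      have := dvd_add h7 hzi
      have e : x - z + (z - i) = x - i := by ring
      rwa [e] at this
    have hz' : ¬ (L : ℤ) ∣ P.m z - (i + 1) := by
      intro h'
      apply hz
      have := dvd_sub h' hzi
      have e : P.m z - (i + 1) - (z - i) = P.m z - (z + 1) := by ring
      rwa [e] at this
    have a2 := hz'
    rw [e] at hyx ⊢
    rcases tl_cases i hL P.m y with ⟨g, f⟩ | ⟨g, f⟩ | ⟨g1, g2, g3, f⟩ | ⟨g1, g2, g3, f⟩ |
      ⟨g1, g2, g3, g4, f⟩
    · rw [f]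
      have : P.m z ≠ y + 1 := by
        intro h'
        apply a2
        rw [h']
        have e : y + 1 - (i + 1) = y - i := by ring
        rwa [e]
      omega
    · rw [f]
      have : x ≠ y - 1 := by
        intro h'
        apply h1
        rw [h']
        have e : y - 1 - i = y - (i + 1) := by ring
        rwa [e]
      omega
    · have := new_arc P i hzi hz g1 g2 (Or.inr ⟨by rw [ix]; exact hxy, hyx⟩)
      exact absurd g3 this.1
    · have := new_arc P i hzi hz g1 g2 (Or.inr ⟨by rw [ix]; exact hxy, hyx⟩)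
      exact absurd g3 this.2.1
    · rw [f]
      have := (new_arc P i hzi hz g1 g2 (Or.inr ⟨by rw [ix]; exact hxy, hyx⟩)).2.2
      rw [ix] at this
      omega
  · rw [e] at hyx ⊢
    have hnc := P.nc x y hxy hyx
    rcases tl_cases i hL P.m y with ⟨g, f⟩ | ⟨g, f⟩ | ⟨g1, g2, g3, f⟩ | ⟨g1, g2, g3, f⟩ |
      ⟨g1, g2, g3, g4, f⟩
    · rw [f]
      have : P.m x ≠ y + 1 := by
        intro h'
        apply h4
        rw [h']
        have e : y + 1 - (i + 1) = y - i := by ring
        rwa [e]
      omega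
    · rw [f]
      have : x ≠ y - 1 := by
        intro h'
        apply h1
        rw [h']
        have e : y - 1 - i = y - (i + 1) := by ring
        rwa [e]
      omega
    · rw [f]
      -- m y ≡ i
      have hne : P.m x ≠ P.m y + 1 := by
        intro h'
        apply h4
        rw [h']
        have e : P.m y + 1 - (i + 1) = P.m y - i := by ring
        rwa [e]
      exact P.nc x (P.m y + 1) (by omega) (by omega)
    · rw [f]
      have hne : x ≠ P.m y - 1 := by
        intro h'
        apply h1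
        rw [h']
        have e : P.m y - 1 - i = P.m y - (i + 1) := by ring
        rwa [e]
      exact P.nc x (P.m y - 1) (by omega) (by omega)
    · rw [f]; exact hnc

/-- The Temperley-Lieb move `e_i` on link patterns. -/
def E (i : ℤ) (P : Pat L) : Pat L where
  m := tl L i P.m
  inv := tl_inv P i
  per := tl_per P i
  ne := tl_ne P i
  short := tl_short P i
  nc := tl_nc P i

/-- rotation: the strand at position `x` moves to `x + 1` -/
def rot (P : Pat L) : Pat L where
  m := fun x => P.m (x - 1) + 1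
  inv := fun x => by simp [P.inv]
  per := fun x => by
    show P.m (x + L - 1) + 1 = P.m (x - 1) + 1 + L
    rw [show x + (L : ℤ) - 1 = x - 1 + L by ring, P.per]; ring
  ne := fun x h => P.ne (x - 1) (by linarith only [h])
  short := fun x => by
    have := P.short (x - 1)
    have e : P.m (x - 1) + 1 - x = P.m (x - 1) - (x - 1) := by ring
    show |P.m (x - 1) + 1 - x| < L
    rwa [e]
  nc := fun x y h1 h2 => by
    have := P.nc (x - 1) (y - 1) (by linarith) (by linarith)
    exact ⟨by linarith [this.1], by linarith [this.2]⟩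

end closure

end H56.EX

end

section

/-! Temperley-Lieb relations for the moves `E i` on link patterns. -/

namespace H56.EX

variable {L : ℕ}

lemma Pat.eq_of_dvd {P Q : Pat L} {x y : ℤ} (h : (L : ℤ) ∣ y - x) (hx : P.m x = Q.m x) :
    P.m y = Q.m y := by
  rw [P.per_dvd h, Q.per_dvd h, hx]

/-- congruence of two positions -/
abbrev Cg (L : ℕ) (x y : ℤ) : Prop := (L : ℤ) ∣ x - y

lemma Cg.symm' {x y : ℤ} (h : Cg L x y) : Cg L y x := by
  unfold Cg at *
  have e : y - x = -(x - y) := by ring
  rw [e]; exact (dvd_neg).2 h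

lemma Cg.trans' {x y z : ℤ} (h : Cg L x y) (h' : Cg L y z) : Cg L x z := by
  unfold Cg at *
  have := dvd_add h h'
  have e : x - y + (y - z) = x - z := by ring
  rwa [e] at this

lemma Cg.refl' (x : ℤ) : Cg L x x := by unfold Cg; simp

lemma Cg.add {x y : ℤ} (c : ℤ) (h : Cg L x y) : Cg L (x + c) (y + c) := by
  unfold Cg at *
  have e : x + c - (y + c) = x - y := by ring
  rwa [e]

lemma Cg.sub {x y : ℤ} (c : ℤ) (h : Cg L x y) : Cg L (x - c) (y - c) := by
  unfold Cg at *
  have e : x - c - (y - c) = x - y := by ring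
  rwa [e]

lemma Cg.m {x y : ℤ} (P : Pat L) (h : Cg L x y) : Cg L (P.m x) (P.m y) := by
  unfold Cg at *
  rw [P.per_dvd h]
  have e : P.m y + (x - y) - P.m y = x - y := by ring
  rwa [e]

lemma not_Cg_succ (hL : 2 ≤ L) (x : ℤ) : ¬ Cg L x (x + 1) := by
  unfold Cg
  intro h
  have e : x - (x + 1) = -1 := by ring
  rw [e] at h
  have := Int.le_of_dvd (by norm_num) ((dvd_neg).1 h)
  omega

namespace E

variable (P : Pat L) (i : ℤ)

lemma of_i {x : ℤ} (h : Cg L x i) : (E i P).m x = x + 1 := tl_of_dvd i h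

lemma of_succ {x : ℤ} (h : Cg L x (i + 1)) : (E i P).m x = x - 1 :=
  tl_of_dvd_succ i P.two_le h

lemma self : (E i P).m i = i + 1 := of_i P i (Cg.refl' i)
lemma succ : (E i P).m (i + 1) = i := by rw [of_succ P i (Cg.refl' _)]; ring

lemma of_m {x : ℤ} (h1 : ¬ Cg L x i) (h2 : ¬ Cg L x (i + 1)) (h : Cg L (P.m x) i) :
    (E i P).m x = P.m (P.m x + 1) := tl_of_m i h1 h2 h

lemma of_m_succ {x : ℤ} (h1 : ¬ Cg L x i) (h2 : ¬ Cg L x (i + 1)) (h : Cg L (P.m x) (i + 1)) :
    (E i P).m x = P.m (P.m x - 1) := tl_of_m_succ i P.two_le h1 h2 h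

lemma other {x : ℤ} (h1 : ¬ Cg L x i) (h2 : ¬ Cg L x (i + 1)) (h3 : ¬ Cg L (P.m x) i)
    (h4 : ¬ Cg L (P.m x) (i + 1)) : (E i P).m x = P.m x := tl_of_else i h1 h2 h3 h4

lemma mem_not {x : ℤ} (h1 : ¬ Cg L x i) (h2 : ¬ Cg L x (i + 1)) :
    ¬ Cg L ((E i P).m x) i ∧ ¬ Cg L ((E i P).m x) (i + 1) := by
  constructor
  · intro h
    have := of_i P i h
    rw [(E i P).inv] at this
    apply h2
    rw [this]
    exact Cg.add 1 h
  · intro h
    have := of_succ P i h
    rw [(E i P).inv] at this
    apply h1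
    rw [this]
    have := Cg.sub 1 h
    rwa [show i + 1 - 1 = i by ring] at this

end E

/-! ### Finiteness -/

lemma Pat.ext_Ico {P Q : Pat L} (h : ∀ x : ℤ, 0 ≤ x → x < L → P.m x = Q.m x) : P = Q := by
  have hL := P.two_le
  apply Pat.ext
  funext x
  have h1 : (L : ℤ) ∣ x - x % L := Int.dvd_self_sub_emod
  have hpos : (0 : ℤ) < L := by omega
  exact Pat.eq_of_dvd h1 (h _ (Int.emod_nonneg _ (by omega)) (Int.emod_lt_of_pos _ hpos))

instance : Finite (Pat L) := by
  classical
  let f : Pat L → (Fin L → Set.Ioo (-(L : ℤ)) (2 * L)) := fun P k =>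
    ⟨P.m k, by
      have h1 := P.short' (k : ℤ)
      have h2 := k.isLt
      constructor
      · have : (0 : ℤ) ≤ (k : ℕ) := Int.natCast_nonneg _
        linarith only [h1, h1.2]
      · have : ((k : ℕ) : ℤ) < L := by exact_mod_cast h2
        linarith only [h1, h2, h1.1]⟩
  have : Finite (Set.Ioo (-(L : ℤ)) (2 * L)) := (Set.finite_Ioo _ _).to_subtype
  apply Finite.of_injective f
  intro P Q hPQ
  apply Pat.ext_Ico
  intro x hx0 hxL
  have hx : x = ((⟨x.toNat, by omega⟩ : Fin L) : ℕ) := by simp [hx0]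
  have := congrFun hPQ ⟨x.toNat, by omega⟩
  have h2 := congrArg Subtype.val this
  simp only [f] at h2
  rw [hx]
  exact h2

noncomputable instance : Fintype (Pat L) := Fintype.ofFinite _

noncomputable instance : DecidableEq (Pat L) := Classical.decEq _

end H56.EX

end

section

/-! Insertion of a small arc at positions `i, i+1`: `ins i : Pat L → Pat (L+2)`. -/

namespace H56.EX

variable {L : ℕ}

/-- position of the old strand `y` after inserting two strands at positions `i, i+1` -/
def phi (L : ℕ) (i y : ℤ) : ℤ := y + 2 * ((y - i) / (L : ℤ) + 1)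

/-- inverse of `phi` -/
def psi (L : ℕ) (i x : ℤ) : ℤ := x - 2 * ((x - i) / ((L : ℤ) + 2) + 1)

lemma phi_form (hL : 1 ≤ L) (i a s : ℤ) (h0 : 0 ≤ s) (h1 : s < L) :
    phi L i (i + s + L * a) = i + s + 2 + (L + 2) * a := by
  unfold phi
  have e : (i + s + L * a - i) / (L : ℤ) = a := by
    rw [show i + s + (L : ℤ) * a - i = s + a * L by ring, Int.add_mul_ediv_right _ _ (by omega),
      Int.ediv_eq_zero_of_lt h0 h1]
    ring
  rw [e]; ring

lemma psi_form (i a r : ℤ) (h0 : 0 ≤ r) (h1 : r < L + 2) :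
    psi L i (i + r + (L + 2) * a) = i + r - 2 + L * a := by
  unfold psi
  have e : (i + r + (L + 2) * a - i) / ((L : ℤ) + 2) = a := by
    rw [show i + r + ((L : ℤ) + 2) * a - i = r + a * (L + 2) by ring,
      Int.add_mul_ediv_right _ _ (by omega), Int.ediv_eq_zero_of_lt h0 h1]
    ring
  rw [e]; ring

lemma exists_form {N : ℤ} (hN : 0 < N) (i x : ℤ) : ∃ a r, 0 ≤ r ∧ r < N ∧ x = i + r + N * a := by
  refine ⟨(x - i) / N, (x - i) % N, Int.emod_nonneg _ (by omega), Int.emod_lt_of_pos _ hN, ?_⟩
  have := Int.emod_add_mul_ediv (x - i) N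
  linarith only [this]

lemma psi_phi (hL : 1 ≤ L) (i y : ℤ) : psi L i (phi L i y) = y := by
  obtain ⟨a, s, h0, h1, rfl⟩ := exists_form (N := (L : ℤ)) (by omega) i y
  rw [phi_form hL i a s h0 h1, show i + s + 2 + ((L : ℤ) + 2) * a = i + (s + 2) + (L + 2) * a by ring,
    psi_form i a (s + 2) (by omega) (by omega)]
  ring

lemma phi_psi (hL : 1 ≤ L) {i x : ℤ} (h1 : ¬ Cg (L + 2) x i) (h2 : ¬ Cg (L + 2) x (i + 1)) :
    phi L i (psi L i x) = x := by
  obtain ⟨a, r, g0, g1, rfl⟩ := exists_form (N := ((L : ℤ) + 2)) (by omega) i x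
  have hr0 : r ≠ 0 := by
    rintro rfl
    apply h1
    unfold Cg
    push_cast
    have e : i + 0 + ((L : ℤ) + 2) * a - i = (L + 2) * a := by ring
    rw [e]; exact Dvd.intro _ rfl
  have hr1 : r ≠ 1 := by
    rintro rfl
    apply h2
    unfold Cg
    push_cast
    have e : i + 1 + ((L : ℤ) + 2) * a - (i + 1) = (L + 2) * a := by ring
    rw [e]; exact Dvd.intro _ rfl
  rw [psi_form i a r g0 g1, show i + r - 2 + (L : ℤ) * a = i + (r - 2) + L * a by ring,
    phi_form hL i a (r - 2) (by omega) (by omega)]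
  ring

lemma phi_not (hL : 1 ≤ L) (i y : ℤ) :
    ¬ Cg (L + 2) (phi L i y) i ∧ ¬ Cg (L + 2) (phi L i y) (i + 1) := by
  obtain ⟨a, s, h0, h1, rfl⟩ := exists_form (N := (L : ℤ)) (by omega) i y
  rw [phi_form hL i a s h0 h1]
  constructor
  · intro h
    unfold Cg at h
    have h' : ((L + 2 : ℕ) : ℤ) ∣ s + 2 := by
      have h3 : ((L + 2 : ℕ) : ℤ) ∣ ((L + 2 : ℕ) : ℤ) * a := Dvd.intro _ rfl
      have := dvd_sub h h3
      push_cast at this ⊢
      have e : i + s + 2 + ((L : ℤ) + 2) * a - i - (L + 2) * a = s + 2 := by ring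
      rwa [e] at this
    have := Int.le_of_dvd (by omega) h'
    push_cast at this
    omega
  · intro h
    unfold Cg at h
    have h' : ((L + 2 : ℕ) : ℤ) ∣ s + 1 := by
      have h3 : ((L + 2 : ℕ) : ℤ) ∣ ((L + 2 : ℕ) : ℤ) * a := Dvd.intro _ rfl
      have := dvd_sub h h3
      push_cast at this ⊢
      have e : i + s + 2 + ((L : ℤ) + 2) * a - (i + 1) - (L + 2) * a = s + 1 := by ring
      rwa [e] at this
    have := Int.le_of_dvd (by omega) h'
    push_cast at this
    omega

lemma phi_add_L (hL : 1 ≤ L) (i y : ℤ) : phi L i (y + L) = phi L i y + (L + 2) := by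
  unfold phi
  have : (y + L - i) / (L : ℤ) = (y - i) / L + 1 := by
    rw [show y + (L : ℤ) - i = (y - i) + 1 * L by ring, Int.add_mul_ediv_right _ _ (by omega)]
  rw [this]; ring

lemma phi_mono (hL : 1 ≤ L) {i x y : ℤ} (h : x < y) : phi L i x < phi L i y := by
  unfold phi
  have : (x - i) / (L : ℤ) ≤ (y - i) / L := Int.ediv_le_ediv (by omega) (by omega)
  omega

lemma phi_lt_iff (hL : 1 ≤ L) {i x y : ℤ} : phi L i x < phi L i y ↔ x < y := by
  constructor
  · intro h
    by_contra hc
    rcases eq_or_lt_of_le (not_lt.1 hc) with h1 | h1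
    · rw [h1] at h; exact lt_irrefl _ h
    · exact absurd (phi_mono hL (i := i) h1) (by omega)
  · exact phi_mono hL

lemma phi_inj (hL : 1 ≤ L) {i x y : ℤ} (h : phi L i x = phi L i y) : x = y := by
  rw [← psi_phi hL i x, h, psi_phi hL]

/-- raw insertion -/
def insm (L : ℕ) (i : ℤ) (m : ℤ → ℤ) (x : ℤ) : ℤ :=
  if Cg (L + 2) x i then x + 1
  else if Cg (L + 2) x (i + 1) then x - 1
  else phi L i (m (psi L i x))

lemma insm_i {m : ℤ → ℤ} {i x : ℤ} (h : Cg (L + 2) x i) : insm L i m x = x + 1 := by
  simp only [insm, if_pos h]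

lemma insm_succ {m : ℤ → ℤ} {i x : ℤ} (h : Cg (L + 2) x (i + 1)) : insm L i m x = x - 1 := by
  have h' : ¬ Cg (L + 2) x i := fun h' =>
    not_Cg_succ (L := L + 2) (by omega) i (Cg.trans' (Cg.symm' h') h)
  simp only [insm, if_neg h', if_pos h]

lemma insm_phi (hL : 1 ≤ L) (m : ℤ → ℤ) (i y : ℤ) : insm L i m (phi L i y) = phi L i (m y) := by
  have := phi_not hL i y
  simp only [insm, if_neg this.1, if_neg this.2, psi_phi hL]

/-- every position is `≡ i`, `≡ i+1` or in the image of `phi` -/
lemma pos_cases (hL : 1 ≤ L) (i x : ℤ) :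
    Cg (L + 2) x i ∨ Cg (L + 2) x (i + 1) ∨ ∃ y, x = phi L i y := by
  by_cases h1 : Cg (L + 2) x i
  · exact Or.inl h1
  by_cases h2 : Cg (L + 2) x (i + 1)
  · exact Or.inr (Or.inl h2)
  · exact Or.inr (Or.inr ⟨psi L i x, (phi_psi hL h1 h2).symm⟩)

/-- insertion of a small arc at positions `i, i+1` -/
def ins (i : ℤ) (P : Pat L) : Pat (L + 2) where
  m := insm L i P.m
  inv := fun x => by
    have hL : 1 ≤ L := le_trans (by norm_num) P.two_le
    rcases pos_cases hL i x with h | h | ⟨y, rfl⟩
    · rw [insm_i h, insm_succ (Cg.add 1 h)]; ring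
    · rw [insm_succ h, insm_i]
      · ring
      · have := Cg.sub 1 h
        simpa using this
    · rw [insm_phi hL, insm_phi hL, P.inv]
  per := fun x => by
    have hL : 1 ≤ L := le_trans (by norm_num) P.two_le
    have hd : Cg (L + 2) (x + ((L + 2 : ℕ) : ℤ)) x := by unfold Cg; simp
    rcases pos_cases hL i x with h | h | ⟨y, rfl⟩
    · rw [insm_i h, insm_i (Cg.trans' hd h)]; ring
    · rw [insm_succ h, insm_succ (Cg.trans' hd h)]; ring
    · have e : phi L i y + ((L + 2 : ℕ) : ℤ) = phi L i (y + L) := by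
        rw [phi_add_L hL]; push_cast; ring
      rw [e, insm_phi hL, insm_phi hL, P.per, phi_add_L hL]; push_cast; ring
  ne := fun x => by
    have hL : 1 ≤ L := le_trans (by norm_num) P.two_le
    rcases pos_cases hL i x with h | h | ⟨y, rfl⟩
    · rw [insm_i h]; omega
    · rw [insm_succ h]; omega
    · rw [insm_phi hL]
      intro h
      exact P.ne y (phi_inj hL h)
  short := fun x => by
    have hL : 1 ≤ L := le_trans (by norm_num) P.two_le
    rw [abs_lt]
    rcases pos_cases hL i x with h | h | ⟨y, rfl⟩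
    · rw [insm_i h]; push_cast; constructor <;> omega
    · rw [insm_succ h]; push_cast; constructor <;> omega
    · rw [insm_phi hL]
      have h1 := P.short' y
      have h2 : phi L i (P.m y) < phi L i (y + L) := phi_mono hL (by linarith only [h1, h1.1])
      have h3 : phi L i y < phi L i (P.m y + L) := phi_mono hL (by linarith [h1.2])
      rw [phi_add_L hL] at h2 h3
      push_cast
      constructor <;> linarith
  nc := fun x y hxy hyx => by
    have hL : 1 ≤ L := le_trans (by norm_num) P.two_le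
    rcases pos_cases hL i x with h | h | ⟨u, rfl⟩
    · rw [insm_i h] at hyx; omega
    · rw [insm_succ h] at hyx; omega
    · rw [insm_phi hL] at hyx ⊢
      rcases pos_cases hL i y with h | h | ⟨v, rfl⟩
      · rw [insm_i h]
        have : phi L i (P.m u) ≠ y + 1 := by
          intro h'
          apply (phi_not hL i (P.m u)).2
          rw [h']; exact Cg.add 1 h
        omega
      · rw [insm_succ h]
        have : phi L i u ≠ y - 1 := by
          intro h'
          apply (phi_not hL i u).1
          rw [h']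
          have := Cg.sub 1 h
          simpa using this
        omega
      · rw [insm_phi hL]
        have := P.nc u v ((phi_lt_iff hL).1 hxy) ((phi_lt_iff hL).1 hyx)
        exact ⟨phi_mono hL this.1, phi_mono hL this.2⟩

lemma ins_i (i : ℤ) (P : Pat L) {x : ℤ} (h : Cg (L + 2) x i) : (ins i P).m x = x + 1 := insm_i h
lemma ins_succ (i : ℤ) (P : Pat L) {x : ℤ} (h : Cg (L + 2) x (i + 1)) :
    (ins i P).m x = x - 1 := insm_succ h
lemma ins_phi (i : ℤ) (P : Pat L) (y : ℤ) : (ins i P).m (phi L i y) = phi L i (P.m y) :=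
  insm_phi (le_trans (by norm_num) P.two_le) P.m i y

/-- a pattern with a small arc at `i` comes from a unique smaller pattern -/
lemma exists_ins (hL : 2 ≤ L) (i : ℤ) (P : Pat (L + 2)) (h : P.m i = i + 1) :
    ∃ Q : Pat L, P = ins i Q := by
  have hL1 : 1 ≤ L := by omega
  have hsucc : P.m (i + 1) = i := by
    have := P.inv i
    rwa [h] at this
  have hni : ∀ y, ¬ Cg (L + 2) (P.m (phi L i y)) i ∧ ¬ Cg (L + 2) (P.m (phi L i y)) (i + 1) := by
    intro y
    have hn := phi_not hL1 i y
    constructor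
    · intro h'
      apply hn.2
      have := Cg.m P h'
      rwa [P.inv, h] at this
    · intro h'
      apply hn.1
      have := Cg.m P h'
      rwa [P.inv, hsucc] at this
  have hpp : ∀ y, phi L i (psi L i (P.m (phi L i y))) = P.m (phi L i y) := fun y =>
    phi_psi hL1 (hni y).1 (hni y).2
  refine ⟨{
    m := fun y => psi L i (P.m (phi L i y))
    inv := fun y => by
      show psi L i (P.m (phi L i (psi L i (P.m (phi L i y))))) = y
      rw [hpp, P.inv, psi_phi hL1]
    per := fun y => by
      apply phi_inj hL1 (i := i)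
      show phi L i (psi L i (P.m (phi L i (y + L)))) = phi L i (psi L i (P.m (phi L i y)) + L)
      rw [hpp, phi_add_L hL1, phi_add_L hL1, hpp]
      have := P.per (phi L i y)
      push_cast at this
      exact this
    ne := fun y h' => by
      have h2 : phi L i (psi L i (P.m (phi L i y))) = phi L i y := by rw [h']
      rw [hpp] at h2
      exact P.ne _ h2
    short := fun y => by
      have h1 := P.short' (phi L i y)
      push_cast at h1
      rw [abs_lt]
      constructor
      · have h2 : phi L i y < phi L i (psi L i (P.m (phi L i y)) + L) := by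
          rw [phi_add_L hL1, hpp]; linarith only [h1, h1.2]
        have := (phi_lt_iff hL1).1 h2
        linarith
      · have h2 : phi L i (psi L i (P.m (phi L i y))) < phi L i (y + L) := by
          rw [phi_add_L hL1, hpp]; linarith [h1.1]
        have := (phi_lt_iff hL1).1 h2
        linarith only [this]
    nc := fun x y h1 h2 => by
      have g1 : phi L i x < phi L i y := phi_mono hL1 h1
      have g2 : phi L i y < P.m (phi L i x) := by
        rw [← hpp x]; exact phi_mono hL1 h2
      have := P.nc _ _ g1 g2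
      constructor
      · apply (phi_lt_iff hL1 (i := i)).1
        rw [hpp]; exact this.1
      · apply (phi_lt_iff hL1 (i := i)).1
        rw [hpp, hpp]; exact this.2 }, ?_⟩
  apply Pat.ext
  funext x
  rcases pos_cases hL1 i x with h' | h' | ⟨y, rfl⟩
  · rw [ins_i _ _ h']
    have h2 : P.m x = P.m i + (x - i) := P.per_dvd h'
    rw [h2, h]; ring
  · rw [ins_succ _ _ h']
    have h2 : P.m x = P.m (i + 1) + (x - (i + 1)) := P.per_dvd h'
    rw [h2, hsucc]; ring
  · rw [ins_phi]
    exact (hpp y).symm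

end H56.EX

end

section

/-!
# LINK: critical bond percolation on a cylinder and loops (definitions)

Medial lattice: the vertex `(c, r)` (column `c`, row `r`) lies on the edge `medge c r` of the square
lattice.  Faces of the medial lattice: `(c, r)` = the unit square between the columns `c`, `c + 1`
and between the rows `r - 1`, `r` (level `r`).  It is a primal vertex if `c + r` is odd, namely
`((c + r + 1) / 2, (r - c - 1) / 2)`, and a dual vertex (a face of the square lattice, named by its
lower left corner) if `c + r` is even, namely `((c + r) / 2, (r - c - 2) / 2)`.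
The primal vertex `(x, y)` lies at level `x + y`, the edge `e` lies in the row `e.1 + e.2.1`.
The seam is level `0`; the strand of the seam in column `c` lies between the primal vertex `pv c` and
the dual vertex `dv c`.  The period is `c → c + L`, `L = 2 n`, i.e. `(x, y) → (x + n, y - n)`.

At the vertex `(c, r)` the strands connect bottom - right and top - left if `tB ω c r = true`
(type B), and bottom - left and top - right if `tB ω c r = false` (type A).
-/

set_option autoImplicit false

open MeasureTheory ProbabilityTheory Filter Topology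

namespace Pool.Agent.H89.Link

open H56.EX
open Pool.Agent.H89.Perc (Vert Edge Config Pr half src tgt lowFace ball sphere)

variable {L : ℕ} {T : Type*}

/-! ### The row map -/

open Classical in
/-- Remove the positions `i, i + 1` (mod `L + 2`) and join their partners (`Q0` is a dummy). -/
noncomputable def cap (i : ℤ) (P : Pat (L + 2)) (Q0 : Pat L) : Pat L :=
  if h : ∃ Q : Pat L, E i P = ins i Q then h.choose else Q0

/-- The horizontal line of the row, coming from the left, passes the columns `0, …, k - 1`. -/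
def wires (t : ℤ → Bool) : ℕ → Pat (L + 2) → Pat (L + 2)
  | 0, P => P
  | k + 1, P => if t k = true then E ((k : ℤ) + 1) (wires t k P) else wires t k P

/-- The pattern below a row of vertices of types `t` if the pattern above is `P`. -/
noncomputable def row (t : ℤ → Bool) (P : Pat L) : Pat L :=
  rot (cap (-1) (wires t L (ins 0 P)) P)

/-- Consistent colours in one row: `top c`, `bot c` are the colours of the vertical edges above and
below the vertex `c`, `hor c` is the colour of the horizontal edge from `c` to `c + 1`. -/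
def RowCol (t : ℤ → Bool) (top hor bot : ℤ → T) : Prop :=
  ∀ c : ℤ, (t c = true → bot c = hor c ∧ top c = hor (c - 1)) ∧
    (t c = false → bot c = hor (c - 1) ∧ top c = hor c)

/-- `h` rows `r, …, r + h - 1` above level `r`, with the pattern `s` at the top. -/
noncomputable def halfP (s : Pat L) (t : ℤ → ℤ → Bool) : ℕ → ℤ → Pat L
  | 0, _ => s
  | h + 1, r => row (fun c => t c r) (halfP s t h (r + 1))

/-- The pattern of the small arcs around the primal vertices of an even level. -/
def IsStar (s : Pat L) : Prop := ∀ x : ℤ, s.m x = if x % 2 = 0 then x - 1 else x + 1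

/-! ### Percolation -/

/-- The edge of the square lattice at the medial vertex `(c, r)`. -/
def medge (c r : ℤ) : Edge :=
  if (c + r) % 2 = 0 then ((c + r) / 2, (r - c) / 2, false)
  else ((c + r + 1) / 2, (r - c - 1) / 2, true)

/-- Type of the medial vertex `(c, r)` (`true` = bottom - right and top - left). -/
def tB (ω : Config) (c r : ℤ) : Bool :=
  if (c + r) % 2 = 0 then ω (medge c r) else !ω (medge c r)

/-- The configuration with period `(n, -n)` which agrees with `ω` on the strip `0 ≤ x < n`. -/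
def per (n : ℕ) (ω : Config) : Config := fun e =>
  ω (e.1 % n, e.2.1 + (e.1 - e.1 % n), e.2.2)

/-- Pattern of the rows `0, …, h - 1` above the seam. -/
noncomputable def up (s : Pat L) (n h : ℕ) (ω : Config) : Pat L :=
  halfP s (fun c r => tB (per n ω) c r) h 0

/-- Pattern of the rows `-1, …, -h` below the seam (reflected upwards). -/
noncomputable def dn (s : Pat L) (n h : ℕ) (ω : Config) : Pat L :=
  halfP s (fun c r => !tB (per n ω) c (-1 - r)) h 0

/-- The primal vertex next to column `c` of the seam. -/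
def pv (c : ℤ) : Vert := ((c + 1) / 2, -((c + 1) / 2))

/-- The dual vertex (lower left corner of the face) next to column `c` of the seam. -/
def dv (c : ℤ) : Vert := (c / 2, -(c / 2) - 1)

/-- The vertices `x`, `y` on the two sides of the face `q = (0, -1)` between the columns `0`, `1`. -/
def xx : Vert := (0, 0)
/-- see `xx` -/
def yy : Vert := (1, -1)

/-- `x` and `y` are joined to distance `k`, but not to each other. -/
def FourD (k : ℕ) : Set Config :=
  {ω | (∃ u ∈ sphere 0 k, Perc.Conn ω (ball 0 k) xx u) ∧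
    (∃ u ∈ sphere 0 k, Perc.Conn ω (ball 0 k) yy u) ∧ ¬ Perc.Conn ω (ball 0 k) xx yy}

/-- The strip of levels smaller than `H` in absolute value. -/
def strip (H : ℕ) : Set Vert := {v | -(H : ℤ) < v.1 + v.2 ∧ v.1 + v.2 < H}

/-! ### The stationary vector -/

/-- periodic extension of a row of bits -/
def bits (t : Fin L → Bool) (c : ℤ) : Bool :=
  if h : (c % (L : ℤ)).toNat < L then t ⟨(c % (L : ℤ)).toNat, h⟩ else false

open Classical in
/-- push forward of `v` under the row map with the bits `t` -/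
noncomputable def pushRow (t : Fin L → Bool) (v : Pat L → ℂ) (Q : Pat L) : ℂ :=
  ∑ P : Pat L, if row (bits t) P = Q then v P else 0

/-- `v` is stationary for the random row map with fair bits. -/
def Stat (v : Pat L → ℂ) : Prop :=
  ∀ Q : Pat L, ∑ t : Fin L → Bool, pushRow t v Q = 2 ^ L * v Q

open Classical in
/-- The law of the pattern below `h` rows with fair bits, with the pattern `s` at the top. -/
noncomputable def law (s : Pat L) : ℕ → Pat L → ℝ
  | 0, Q => if Q = s then 1 else 0
  | h + 1, Q => (1 / 2) ^ L * ∑ t : Fin L → Bool, ∑ P : Pat L,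
      if row (bits t) P = Q then law s h P else 0

end Pool.Agent.H89.Link

end

section

/-!
# LINK module `Row`: colours are transported by the row map

Proof of `row_inv`.  All facts hold on the universal covers; colours are NOT assumed periodic.
1. (`cap_spec`) for `2 ≤ L`: `E i P` has a small arc at `i` (`E.self`), so `exists_ins` gives
   `E i P = ins i (cap i P Q0)`.
2. (`E_inv`) if `f (P.m x) = f x` for all `x`, `g x = f x` for `x` not congruent to `i`, `i + 1`
   (mod `L`), and for every `y` congruent to `i`: `f y = f (y + 1)` and `g y = g (y + 1)`, then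
   `g ((E i P).m x) = g x` (cases of `tl`, `H56.EX.tl_cases` or `E.of_i`, `E.of_succ`, `E.of_m`,
   `E.of_m_succ`, `E.other`, `E.mem_not`).
3. (`ins_inv`) if `f (phi L i y) = g y`, `g (P.m y) = g y` and `f y = f (y + 1)` for `y` congruent to `i`
   mod `L + 2`, then `f ((ins i P).m x) = f x`; conversely if `f ((ins i P).m x) = f x` for all `x` then
   `f (phi L i (P.m y)) = f (phi L i y)`.
4. Colour of position `X = (L + 2) j + s`, `0 ≤ s < L + 2`, when the wire has passed the columns
   `0, …, k - 1`:  `s = 0`: `hor (j L - 1)`;  `1 ≤ s ≤ k`: `bot (j L + s - 1)`;  `s = k + 1`: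
   `hor (j L + k - 1)`;  `k + 2 ≤ s ≤ L + 1`: `top (j L + s - 2)`.
   Step `k → k + 1` changes only the positions `s = k + 1, k + 2`: from `hor (j L + k - 1), top (j L + k)` to
   `bot (j L + k), hor (j L + k)`; if `t k = true` use `E_inv` with `i = k + 1`, if `t k = false` nothing
   changes.  (`t (j L + k) = t k` by periodicity.)
5. At the end (`k = L`) the positions `(L+2) j - 1` and `(L+2) j` both have colour `hor (j L - 1)`; use
   `E_inv` with `i = -1`, then `cap_spec` and the second part of 3; the position `(L+2) j + c + 1`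
   (`0 ≤ c < L`) is `phi L (-1) (j L + c - 1)`; finally `rot` shifts by one.
-/

set_option autoImplicit false

namespace Pool.Agent.H89.Link

open H56.EX

variable {L : ℕ} {T : Type*}

theorem cap_spec (hL : 2 ≤ L) (i : ℤ) (P : Pat (L + 2)) (Q0 : Pat L) :
    E i P = ins i (cap i P Q0) := by
  have h : ∃ Q : Pat L, E i P = ins i Q := exists_ins hL i (E i P) (E.self P i)
  unfold cap
  rw [dif_pos h]
  exact h.choose_spec

/-- Colours and the move `E i`. -/
lemma E_inv {N : ℕ} {i : ℤ} {P : Pat N} {f g : ℤ → T} (hf : ∀ x, f (P.m x) = f x)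
    (hfi : ∀ y, Cg N y i → f y = f (y + 1)) (hgi : ∀ y, Cg N y i → g y = g (y + 1))
    (hg : ∀ x, ¬ Cg N x i → ¬ Cg N x (i + 1) → g x = f x) (x : ℤ) :
    g ((E i P).m x) = g x := by
  by_cases h1 : Cg N x i
  · rw [E.of_i P i h1]; exact (hgi x h1).symm
  by_cases h2 : Cg N x (i + 1)
  · rw [E.of_succ P i h2]
    have h3 : Cg N (x - 1) i := by
      have := Cg.sub 1 h2
      rwa [show i + 1 - 1 = i by ring] at this
    have := hgi (x - 1) h3
    rwa [show x - 1 + 1 = x by ring] at this
  obtain ⟨m1, m2⟩ := E.mem_not P i h1 h2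
  rw [hg x h1 h2, hg _ m1 m2]
  by_cases h3 : Cg N (P.m x) i
  · rw [E.of_m P i h1 h2 h3, hf, ← hfi _ h3, hf]
  by_cases h4 : Cg N (P.m x) (i + 1)
  · rw [E.of_m_succ P i h1 h2 h4, hf]
    have h5 : Cg N (P.m x - 1) i := by
      have := Cg.sub 1 h4
      rwa [show i + 1 - 1 = i by ring] at this
    rw [hfi _ h5, show P.m x - 1 + 1 = P.m x by ring, hf]
  · rw [E.other P i h1 h2 h3 h4, hf]

/-- Colours and the insertion of a small arc. -/
lemma ins_inv {i : ℤ} {P : Pat L} {f g : ℤ → T} (hfg : ∀ y, f (phi L i y) = g y)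
    (hg : ∀ y, g (P.m y) = g y) (hfi : ∀ y, Cg (L + 2) y i → f y = f (y + 1)) (x : ℤ) :
    f ((ins i P).m x) = f x := by
  have hL : 1 ≤ L := le_trans (by norm_num) P.two_le
  rcases pos_cases hL i x with h | h | ⟨y, rfl⟩
  · rw [ins_i i P h]; exact (hfi x h).symm
  · rw [ins_succ i P h]
    have h3 : Cg (L + 2) (x - 1) i := by
      have := Cg.sub 1 h
      rwa [show i + 1 - 1 = i by ring] at this
    have := hfi (x - 1) h3
    rwa [show x - 1 + 1 = x by ring] at this
  · rw [ins_phi, hfg, hfg, hg]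

/-- Colour of the position `(L + 2) j + s` when the wire has passed the columns `0, …, k - 1`. -/
def wcol (L : ℕ) (top hor bot : ℤ → T) (k : ℕ) (x : ℤ) : T :=
  if x % ((L : ℤ) + 2) = 0 then hor (x / ((L : ℤ) + 2) * L - 1)
  else if x % ((L : ℤ) + 2) ≤ k then bot (x / ((L : ℤ) + 2) * L + x % ((L : ℤ) + 2) - 1)
  else if x % ((L : ℤ) + 2) = k + 1 then hor (x / ((L : ℤ) + 2) * L + k - 1)
  else top (x / ((L : ℤ) + 2) * L + x % ((L : ℤ) + 2) - 2)

lemma wcol_form (top hor bot : ℤ → T) (k : ℕ) (j s : ℤ) (h0 : 0 ≤ s) (h1 : s < L + 2) :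
    wcol L top hor bot k (s + (L + 2) * j) =
      if s = 0 then hor (j * L - 1)
      else if s ≤ k then bot (j * L + s - 1)
      else if s = k + 1 then hor (j * L + k - 1)
      else top (j * L + s - 2) := by
  have e1 : (s + ((L : ℤ) + 2) * j) % ((L : ℤ) + 2) = s := by
    rw [show s + ((L : ℤ) + 2) * j = s + j * ((L : ℤ) + 2) by ring, Int.add_mul_emod_self_right]
    exact Int.emod_eq_of_lt h0 h1
  have e2 : (s + ((L : ℤ) + 2) * j) / ((L : ℤ) + 2) = j := by
    rw [show s + ((L : ℤ) + 2) * j = s + j * ((L : ℤ) + 2) by ring,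
      Int.add_mul_ediv_right _ _ (by omega), Int.ediv_eq_zero_of_lt h0 h1]
    ring
  unfold wcol
  rw [e1, e2]

lemma exists_pos_form (L : ℕ) (x : ℤ) :
    ∃ j s : ℤ, 0 ≤ s ∧ s < (L : ℤ) + 2 ∧ x = s + ((L : ℤ) + 2) * j := by
  obtain ⟨a, r, h0, h1, h2⟩ := exists_form (N := ((L : ℤ) + 2)) (by omega) 0 x
  exact ⟨a, r, h0, h1, by rw [h2]; ring⟩

lemma Cg_form {L : ℕ} {j s i : ℤ} : Cg (L + 2) (s + ((L : ℤ) + 2) * j) i ↔ Cg (L + 2) s i := by
  unfold Cg
  push_cast
  rw [show s + ((L : ℤ) + 2) * j - i = (s - i) + ((L : ℤ) + 2) * j by ring]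
  exact (Int.dvd_add_left (Dvd.intro _ rfl))

lemma Cg_small {L : ℕ} {s i : ℤ} (h0 : 0 ≤ s) (h1 : s < (L : ℤ) + 2) (h2 : 0 ≤ i)
    (h3 : i < (L : ℤ) + 2) (h : Cg (L + 2) s i) : s = i := by
  unfold Cg at h
  push_cast at h
  have h5 : s % ((L : ℤ) + 2) = i % ((L : ℤ) + 2) := Int.emod_eq_emod_iff_emod_sub_eq_zero.2
    (Int.emod_eq_zero_of_dvd h)
  rwa [Int.emod_eq_of_lt h0 h1, Int.emod_eq_of_lt h2 h3] at h5

lemma per_mul' {t : ℤ → Bool} (ht : ∀ c, t (c + L) = t c) (c j : ℤ) : t (j * L + c) = t c := by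
  induction j using Int.induction_on with
  | zero => simp
  | succ a ih => rw [show ((a : ℤ) + 1) * L + c = (a : ℤ) * L + c + L by ring, ht, ih]
  | pred a ih =>
    have := ht ((-(a : ℤ) - 1) * L + c)
    rw [show (-(a : ℤ) - 1) * L + c + L = -(a : ℤ) * L + c by ring, ih] at this
    exact this.symm

/-- The colours of the positions while the wire passes. -/
lemma wires_inv {t : ℤ → Bool} (ht : ∀ c, t (c + L) = t c) (P : Pat L) {top hor bot : ℤ → T}
    (h : RowCol t top hor bot) (hP : ∀ x, top (P.m x) = top x) (k : ℕ) (hk : k ≤ L) (x : ℤ) :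
    wcol L top hor bot k ((wires t k (ins 0 P)).m x) = wcol L top hor bot k x := by
  have hL : 2 ≤ L := P.two_le
  induction k generalizing x with
  | zero =>
    refine ins_inv (g := top) ?_ hP ?_ x
    · intro y
      obtain ⟨a, r, h0, h1, rfl⟩ := exists_form (N := (L : ℤ)) (by omega) 0 y
      rw [phi_form (by omega) 0 a r h0 h1,
        show 0 + r + 2 + ((L : ℤ) + 2) * a = (r + 2) + ((L : ℤ) + 2) * a by ring,
        wcol_form top hor bot 0 a (r + 2) (by omega) (by omega), if_neg (by omega),
        if_neg (by push_cast; omega), if_neg (by push_cast; omega)]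
      congr 1
      ring
    · intro y hy
      obtain ⟨j, s, h0, h1, rfl⟩ := exists_pos_form L y
      rw [Cg_form] at hy
      obtain rfl : s = 0 := Cg_small h0 h1 le_rfl (by omega) hy
      rw [show 0 + ((L : ℤ) + 2) * j + 1 = 1 + ((L : ℤ) + 2) * j by ring,
        wcol_form top hor bot 0 j 0 le_rfl (by omega),
        wcol_form top hor bot 0 j 1 (by norm_num) (by omega), if_pos rfl, if_neg (by norm_num),
        if_neg (by push_cast; norm_num), if_pos (by norm_num)]
      congr 1
      push_cast
      ring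
  | succ k ih =>
    have ih' := ih (by omega)
    have hstep : ∀ j s : ℤ, 0 ≤ s → s < (L : ℤ) + 2 → s ≠ (k : ℤ) + 1 → s ≠ (k : ℤ) + 2 →
        wcol L top hor bot (k + 1) (s + ((L : ℤ) + 2) * j) =
          wcol L top hor bot k (s + ((L : ℤ) + 2) * j) := by
      intro j s h0 h1 h2 h3
      rw [wcol_form _ _ _ _ _ _ h0 h1, wcol_form _ _ _ _ _ _ h0 h1]
      by_cases c0 : s = 0
      · rw [if_pos c0, if_pos c0]
      rw [if_neg c0, if_neg c0]
      by_cases c1 : s ≤ (k : ℤ)
      · rw [if_pos c1, if_pos (by push_cast; omega)]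
      · rw [if_neg c1, if_neg (by push_cast; omega), if_neg (by omega),
          if_neg (by push_cast; omega)]
    have v1 : ∀ j : ℤ, wcol L top hor bot k (((k : ℤ) + 1) + ((L : ℤ) + 2) * j) =
        hor (j * L + k - 1) := by
      intro j
      rw [wcol_form _ _ _ _ _ _ (by omega) (by omega), if_neg (by omega), if_neg (by omega),
        if_pos rfl]
    have v2 : ∀ j : ℤ, wcol L top hor bot k (((k : ℤ) + 2) + ((L : ℤ) + 2) * j) =
        top (j * L + k) := by
      intro j
      rw [wcol_form _ _ _ _ _ _ (by omega) (by omega), if_neg (by omega), if_neg (by omega),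
        if_neg (by omega)]
      congr 1
      ring
    have w1 : ∀ j : ℤ, wcol L top hor bot (k + 1) (((k : ℤ) + 1) + ((L : ℤ) + 2) * j) =
        bot (j * L + k) := by
      intro j
      rw [wcol_form _ _ _ _ _ _ (by omega) (by omega), if_neg (by omega),
        if_pos (by push_cast; omega)]
      congr 1
      ring
    have w2 : ∀ j : ℤ, wcol L top hor bot (k + 1) (((k : ℤ) + 2) + ((L : ℤ) + 2) * j) =
        hor (j * L + k) := by
      intro j
      rw [wcol_form _ _ _ _ _ _ (by omega) (by omega), if_neg (by omega),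
        if_neg (by push_cast; omega), if_pos (by push_cast; ring)]
      congr 1
      push_cast
      ring
    by_cases htk : t k = true
    · have e : wires t (k + 1) (ins 0 P) = E ((k : ℤ) + 1) (wires t k (ins 0 P)) := by
        rw [wires, if_pos htk]
      rw [e]
      have hr : ∀ j : ℤ, bot (j * L + k) = hor (j * L + k) ∧
          top (j * L + k) = hor (j * L + k - 1) := fun j =>
        (h (j * L + k)).1 (by rw [per_mul' ht]; exact htk)
      refine E_inv (f := wcol L top hor bot k) ih' ?_ ?_ ?_ x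
      · intro y hy
        obtain ⟨j, s, h0, h1, rfl⟩ := exists_pos_form L y
        rw [Cg_form] at hy
        obtain rfl : s = (k : ℤ) + 1 := Cg_small h0 h1 (by omega) (by omega) hy
        rw [show (k : ℤ) + 1 + ((L : ℤ) + 2) * j + 1 = ((k : ℤ) + 2) + ((L : ℤ) + 2) * j by ring,
          v1, v2, (hr j).2]
      · intro y hy
        obtain ⟨j, s, h0, h1, rfl⟩ := exists_pos_form L y
        rw [Cg_form] at hy
        obtain rfl : s = (k : ℤ) + 1 := Cg_small h0 h1 (by omega) (by omega) hy
        rw [show (k : ℤ) + 1 + ((L : ℤ) + 2) * j + 1 = ((k : ℤ) + 2) + ((L : ℤ) + 2) * j by ring,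
          w1, w2, (hr j).1]
      · intro y hy1 hy2
        obtain ⟨j, s, h0, h1, rfl⟩ := exists_pos_form L y
        rw [Cg_form] at hy1 hy2
        refine hstep j s h0 h1 ?_ ?_
        · rintro rfl
          exact hy1 (Cg.refl' _)
        · rintro rfl
          apply hy2
          rw [show (k : ℤ) + 1 + 1 = (k : ℤ) + 2 by ring]
          exact Cg.refl' _
    · have htk' : t k = false := by simpa using htk
      have e : wires t (k + 1) (ins 0 P) = wires t k (ins 0 P) := by
        rw [wires, if_neg htk]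
      rw [e]
      have hr : ∀ j : ℤ, bot (j * L + k) = hor (j * L + k - 1) ∧
          top (j * L + k) = hor (j * L + k) := fun j =>
        (h (j * L + k)).2 (by rw [per_mul' ht]; exact htk')
      have heq : wcol L top hor bot (k + 1) = wcol L top hor bot k := by
        funext y
        obtain ⟨j, s, h0, h1, rfl⟩ := exists_pos_form L y
        by_cases c1 : s = (k : ℤ) + 1
        · rw [c1, v1, w1, (hr j).1]
        by_cases c2 : s = (k : ℤ) + 2
        · rw [c2, v2, w2, (hr j).2]
        exact hstep j s h0 h1 c1 c2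
      rw [heq]
      exact ih' x

/-- **Colours are transported by the row map.** -/
theorem row_inv {t : ℤ → Bool} (ht : ∀ c, t (c + L) = t c) (P : Pat L) {top hor bot : ℤ → T}
    (h : RowCol t top hor bot) (hP : ∀ x, top (P.m x) = top x) (x : ℤ) :
    bot ((row t P).m x) = bot x := by
  have hL : 2 ≤ L := P.two_le
  set W := wires t L (ins 0 P) with hW
  set C := cap (-1) W P with hC
  set f := wcol L top hor bot L with hf
  have hwi : ∀ y, f (W.m y) = f y := wires_inv ht P h hP L le_rfl
  -- values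
  have v0 : ∀ j : ℤ, f (0 + ((L : ℤ) + 2) * j) = hor (j * L - 1) := by
    intro j
    rw [hf, wcol_form _ _ _ _ _ _ le_rfl (by omega), if_pos rfl]
  have v1 : ∀ j : ℤ, f (((L : ℤ) + 1) + ((L : ℤ) + 2) * j) = hor (j * L + L - 1) := by
    intro j
    rw [hf, wcol_form _ _ _ _ _ _ (by omega) (by omega), if_neg (by omega), if_neg (by omega),
      if_pos rfl]
  have hfi : ∀ y, Cg (L + 2) y (-1) → f y = f (y + 1) := by
    intro y hy
    obtain ⟨j, s, h0, h1, rfl⟩ := exists_pos_form L y
    rw [Cg_form] at hy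
    have hs : s = (L : ℤ) + 1 := by
      refine Cg_small h0 h1 (by omega) (by omega) ?_
      refine Cg.trans' hy ?_
      unfold Cg
      push_cast
      exact ⟨-1, by ring⟩
    rw [hs, show (L : ℤ) + 1 + ((L : ℤ) + 2) * j + 1 = 0 + ((L : ℤ) + 2) * (j + 1) by ring, v0, v1]
    congr 1
    ring
  have hE : ∀ y, f ((E (-1) W).m y) = f y :=
    E_inv hwi hfi hfi (fun _ _ _ => rfl)
  have hcs : E (-1) W = ins (-1) C := cap_spec hL (-1) W P
  rw [hcs] at hE
  have hphi : ∀ y : ℤ, f (phi L (-1) y) = bot (y + 1) := by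
    intro y
    obtain ⟨a, r, h0, h1, rfl⟩ := exists_form (N := (L : ℤ)) (by omega) (-1) y
    rw [phi_form (by omega) (-1) a r h0 h1,
      show -1 + r + 2 + ((L : ℤ) + 2) * a = (r + 1) + ((L : ℤ) + 2) * a by ring, hf,
      wcol_form _ _ _ _ _ _ (by omega) (by omega), if_neg (by omega), if_pos (by omega)]
    congr 1
    ring
  have hCm : ∀ y : ℤ, bot (C.m y + 1) = bot (y + 1) := by
    intro y
    have := hE (phi L (-1) y)
    rw [ins_phi, hphi, hphi] at this
    exact this
  have hrow : (row t P).m x = C.m (x - 1) + 1 := rfl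
  rw [hrow, hCm, show x - 1 + 1 = x by ring]

end Pool.Agent.H89.Link

end

section

/-! Common definitions of the EXACT project, loop part:
the cube root of unity `q`, operators `eop i`, the list of properties `PsiProps` of the
polynomial qKZ solution, the leg relation of a pair of patterns and the leg sums. -/

namespace H56.EX

open scoped BigOperators

variable {L : ℕ}

/-- `q = e^{2πi/3}` -/
noncomputable def q : ℂ := ⟨-1 / 2, Real.sqrt 3 / 2⟩

lemma q_sq : q ^ 2 + q + 1 = 0 := by
  have h : Real.sqrt 3 * Real.sqrt 3 = 3 := Real.mul_self_sqrt (by norm_num)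
  apply Complex.ext
  · simp [q, pow_two]; nlinarith only [h]
  · simp [q, pow_two]; ring

lemma q_cube : q ^ 3 = 1 := by
  have h := q_sq
  have : q ^ 3 - 1 = (q - 1) * (q ^ 2 + q + 1) := by ring
  rw [h, mul_zero] at this
  linear_combination this

lemma q_ne_zero : q ≠ 0 := by
  intro h
  have := q_cube
  rw [h] at this
  norm_num at this

lemma q_ne_one : q ≠ 1 := by
  intro h
  have := q_sq
  rw [h] at this
  norm_num at this

/-- the Temperley-Lieb generator `e_i` on vectors -/
noncomputable def eop (i : ℤ) (v : Pat L → ℂ) (P : Pat L) : ℂ :=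
  ∑ P' : Pat L, if E i P' = P then v P' else 0

/-- replace the parameter of strand `i` (and its translates) by `t` -/
def upd (L : ℕ) (ζ : ℤ → ℂ) (i : ℤ) (t : ℂ) : ℤ → ℂ :=
  fun x => if Cg L x i then t else ζ x

/-- exchange the parameters of the strands `i` and `i+1` (and translates) -/
def swp (L : ℕ) (i : ℤ) (ζ : ℤ → ℂ) : ℤ → ℂ :=
  fun x => if Cg L x i then ζ (x + 1) else if Cg L x (i + 1) then ζ (x - 1) else ζ x

/-- `L`-periodic families of spectral parameters -/
def Per (L : ℕ) (ζ : ℤ → ℂ) : Prop := ∀ x, ζ (x + L) = ζ x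

/-- base pattern condition: all arcs nested around the gap between strand `-1` and strand `0`. -/
def IsBase (P : Pat L) : Prop := ∀ x : ℤ, -(L : ℤ) ≤ 2 * x → 2 * x < L → P.m x = -1 - x

/-- Properties of the polynomial qKZ solution used by the leg formulas.  `Ψ L P ζ` is the component
at the pattern `P`, with parameters `ζ` (an `L`-periodic function on the universal cover). -/
structure PsiProps (Ψ : ∀ L : ℕ, Pat L → (ℤ → ℂ) → ℂ) : Prop where
  /-- only the parameters in one period matter -/
  congr : ∀ (L : ℕ) (P : Pat L) (ζ ζ' : ℤ → ℂ), (∀ x : ℤ, 0 ≤ x → x < L → ζ x = ζ' x) →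
    Ψ L P ζ = Ψ L P ζ'
  /-- jointly polynomial in the parameters of one period -/
  mv : ∀ (L : ℕ) (P : Pat L), ∃ p : MvPolynomial (Fin L) ℂ, ∀ ζ : ℤ → ℂ,
    Ψ L P ζ = MvPolynomial.eval (fun k : Fin L => ζ ((k : ℕ) : ℤ)) p
  /-- polynomial of degree `≤ L-1` in each parameter -/
  poly : ∀ (L : ℕ) (P : Pat L) (ζ : ℤ → ℂ), Per L ζ → ∀ i : ℤ,
    ∃ p : Polynomial ℂ, p.natDegree ≤ L - 1 ∧ ∀ t, Ψ L P (upd L ζ i t) = p.eval t
  /-- exchange relation -/
  exch : ∀ (L : ℕ) (P : Pat L) (ζ : ℤ → ℂ), Per L ζ → ∀ i : ℤ,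
    (q * ζ (i + 1) - q⁻¹ * ζ i) * Ψ L P (swp L i ζ) =
      (q * ζ i - q⁻¹ * ζ (i + 1)) * Ψ L P ζ +
        (ζ i - ζ (i + 1)) * eop i (fun P' => Ψ L P' ζ) P
  /-- rotation covariance -/
  rot : ∀ (L : ℕ) (P : Pat L) (ζ : ℤ → ℂ), Per L ζ →
    Ψ L (rot P) (fun x => ζ (x - 1)) = Ψ L P ζ
  /-- at `ζ i = q² ζ (i+1)` only patterns with a small arc at `i` survive -/
  arc_zero : ∀ (L : ℕ) (P : Pat L) (ζ : ℤ → ℂ), Per L ζ → ∀ i : ℤ, ζ i = q ^ 2 * ζ (i + 1) →
    P.m i ≠ i + 1 → Ψ L P ζ = 0
  /-- arc recursion -/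
  arc : ∀ (L : ℕ) (P : Pat L) (ζ : ℤ → ℂ), Per (L + 2) ζ → ∀ i : ℤ,
    ζ i = q ^ 2 * ζ (i + 1) →
    Ψ (L + 2) (ins i P) ζ =
      (-q * ζ (i + 1) * (∏ s ∈ Finset.range L, (ζ (i + 2 + s) - q * ζ (i + 1)) ^ 2) / 3 ^ L) *
        Ψ L P (fun x => ζ (phi L i x))
  /-- base component -/
  base : ∀ (L : ℕ) (P : Pat L) (ζ : ℤ → ℂ), IsBase P →
    Ψ L P ζ = ∏ j ∈ Finset.range L, ∏ i ∈ Finset.range j,
      (q * ζ j - q⁻¹ * ζ i) / (q - q⁻¹)

/-! ### The leg relation

`Pt : Pat Lt` top pattern, `Pb : Pat Lb` bottom pattern, `kt, kb` = number of strands in the hole at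
the top / bottom, `M` = number of glued strands; in all uses `Lt = kt + M`, `Lb = kb + M`.
Top hole ends: positions `0..kt-1`; glued top positions `kt..kt+M-1` (mod `Lt`); same at the bottom.
Vertices of the composite graph: `inl x` top boundary points, `inr y` bottom boundary points
(on the universal covers). -/

section leg

variable {Lt Lb : ℕ}

inductive Step (kt kb M : ℕ) (Pt : Pat Lt) (Pb : Pat Lb) : ℤ ⊕ ℤ → ℤ ⊕ ℤ → Prop
  | top (x : ℤ) : Step kt kb M Pt Pb (Sum.inl x) (Sum.inl (Pt.m x))
  | bot (y : ℤ) : Step kt kb M Pt Pb (Sum.inr y) (Sum.inr (Pb.m y))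
  | glue (a : ℤ) (j : ℕ) (hj : j < M) : Step kt kb M Pt Pb
      (Sum.inl (kt + j + Lt * a)) (Sum.inr (kb + j + Lb * a))

/-- connectivity in the composite graph -/
def Conn (kt kb M : ℕ) (Pt : Pat Lt) (Pb : Pat Lb) : ℤ ⊕ ℤ → ℤ ⊕ ℤ → Prop :=
  Relation.EqvGen (Step kt kb M Pt Pb)

/-- position of the hole end `u` on sheet `a` -/
def hpos (Lt Lb kt kb : ℕ) (u : Fin kt ⊕ Fin kb) (a : ℤ) : ℤ ⊕ ℤ :=
  match u with
  | Sum.inl s => Sum.inl ((s : ℕ) + Lt * a)
  | Sum.inr s => Sum.inr ((s : ℕ) + Lb * a)

end leg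

/-- periodic extension of a sequence of parameters -/
def par (L : ℕ) (s : ℕ → ℂ) : ℤ → ℂ := fun x => s (x % (L : ℤ)).toNat

/-- prepend a parameter -/
def scons (a : ℂ) (s : ℕ → ℂ) : ℕ → ℂ
  | 0 => a
  | n + 1 => s n

end H56.EX

end

section

/-!
# LINK module `Potential`: parity potentials

`A : Edge → ZMod 2` supported in rows of absolute value `< H` (the row of `e` is `e.1 + e.2.1`).
Ray potential of the face with lower left corner `(a, b)`: the sum of `A` over the horizontal edges above,
  `pot A H (a, b) = ∑_{j = b + 1}^{H - a - 1} A (a, j, false)`   (all other terms vanish).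
* `pot_hor`: `pot (a, b - 1) + pot (a, b) = A (a, b, false)` (trivial), for all `(a, b)`;
* `pot_ver`: `pot (a - 1, b) + pot (a, b) = A (a, b, true) + ∑_{j > b} vsum A (a, j)` where the sum runs over the
  vertices `(a, j)` with `b < j` (finitely many non zero terms): telescoping of the vertical edges.
So if all vertices have even degree (`vsum A V = 0`) then `pot` is a potential on the whole plane; if the only
vertex with odd degree is `0`, then it is a potential except across the edges `(0, b, true)`, `b < 0`.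
A finite or periodic sum of open paths gives such an `A`: `pathSum` of a list of vertices.
-/

set_option autoImplicit false

namespace Pool.Agent.H89.Link

open Pool.Agent.H89.Perc (Vert Edge Config src tgt lowFace vsum)

end Pool.Agent.H89.Link

end

section

/-!
# Divided differences

For a polynomial `P` and two different variables `a, b` there is a polynomial `Q` with
`(X a - X b) Q = (q X b - q² X a) P(swap a b) - (q X a - q² X b) P`  (`q² + q + 1 = 0`), and the
exponents of `Q` lie between exponents of `P`.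
-/

namespace Pool.Agent.H12.QKZ

open MvPolynomial

set_option linter.unusedSectionVars false
set_option linter.unusedSimpArgs false

variable {σ K : Type*} [DecidableEq σ] [Field K]

/-- `e'` arises from `e` by moving weight between the variables `a` and `b` without leaving the
interval spanned by `e a` and `e b`. -/
def Between (a b : σ) (e e' : σ →₀ ℕ) : Prop :=
  (∀ c, c ≠ a → c ≠ b → e' c = e c) ∧ e' a + e' b = e a + e b ∧
    min (e a) (e b) ≤ e' a ∧ e' a ≤ max (e a) (e b)

/-- All exponents of `Q` are between `e`. -/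
def InT (a b : σ) (e : σ →₀ ℕ) (Q : MvPolynomial σ K) : Prop :=
  ∀ e', coeff e' Q ≠ 0 → Between a b e e'

theorem InT.add {a b : σ} {e : σ →₀ ℕ} {Q Q' : MvPolynomial σ K} (h : InT a b e Q)
    (h' : InT a b e Q') : InT a b e (Q + Q') := by
  intro e' he'
  rw [coeff_add] at he'
  by_cases h0 : coeff e' Q = 0
  · rw [h0, zero_add] at he'; exact h' e' he'
  · exact h e' h0

theorem InT.zero (a b : σ) (e : σ →₀ ℕ) : InT a b e (0 : MvPolynomial σ K) := by
  intro e' he'; simp at he'

theorem InT.sum {a b : σ} {e : σ →₀ ℕ} {ι : Type*} {s : Finset ι} {Q : ι → MvPolynomial σ K}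
    (h : ∀ i ∈ s, InT a b e (Q i)) : InT a b e (∑ i ∈ s, Q i) := by
  classical
  induction s using Finset.induction_on with
  | empty => simpa using InT.zero a b e
  | insert i s hi ih =>
    rw [Finset.sum_insert hi]
    exact (h i (Finset.mem_insert_self _ _)).add
      (ih fun j hj => h j (Finset.mem_insert_of_mem hj))

end Pool.Agent.H12.QKZ

end

section

/-!
# Joint degree and joint order
-/

namespace Pool.Agent.H12.QKZ

open MvPolynomial

set_option linter.unusedSectionVars false
set_option linter.unusedSimpArgs false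

variable {σ K : Type*} [DecidableEq σ] [Field K]

/-- All exponents of `P` have joint degree in `S` between `lo` and `up`. -/
def Bd (S : Finset σ) (lo up : ℕ) (P : MvPolynomial σ K) : Prop :=
  ∀ e, coeff e P ≠ 0 → lo ≤ ∑ c ∈ S, e c ∧ ∑ c ∈ S, e c ≤ up

/-- For every set `S` of variables the joint degree of `P` in `S` is between `lo |S|` and
`up |S|`. -/
def JointBd (lo up : ℕ → ℕ) (P : MvPolynomial σ K) : Prop :=
  ∀ S : Finset σ, Bd S (lo S.card) (up S.card) P

theorem Bd.add {S : Finset σ} {lo up : ℕ} {P Q : MvPolynomial σ K} (h : Bd S lo up P)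
    (h' : Bd S lo up Q) : Bd S lo up (P + Q) := by
  intro e he
  rw [coeff_add] at he
  by_cases h0 : coeff e P = 0
  · rw [h0, zero_add] at he; exact h' e he
  · exact h e h0

theorem Bd.zero (S : Finset σ) (lo up : ℕ) : Bd S lo up (0 : MvPolynomial σ K) := by
  intro e he; simp at he

theorem Bd.neg {S : Finset σ} {lo up : ℕ} {P : MvPolynomial σ K} (h : Bd S lo up P) :
    Bd S lo up (-P) := by
  intro e he
  rw [coeff_neg, neg_ne_zero] at he
  exact h e he

theorem Bd.sub {S : Finset σ} {lo up : ℕ} {P Q : MvPolynomial σ K} (h : Bd S lo up P)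
    (h' : Bd S lo up Q) : Bd S lo up (P - Q) := by
  rw [sub_eq_add_neg]; exact h.add h'.neg

theorem Bd.mul {S : Finset σ} {lo up lo' up' : ℕ} {P Q : MvPolynomial σ K} (h : Bd S lo up P)
    (h' : Bd S lo' up' Q) : Bd S (lo + lo') (up + up') (P * Q) := by
  intro e he
  rw [coeff_mul] at he
  obtain ⟨⟨e1, e2⟩, hmem, hne⟩ := Finset.exists_ne_zero_of_sum_ne_zero he
  rw [Finset.HasAntidiagonal.mem_antidiagonal] at hmem
  simp only at hmem hne
  obtain ⟨a1, a2⟩ := h e1 (left_ne_zero_of_mul hne)
  obtain ⟨b1, b2⟩ := h' e2 (right_ne_zero_of_mul hne)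
  have : ∑ c ∈ S, e c = ∑ c ∈ S, e1 c + ∑ c ∈ S, e2 c := by
    rw [← Finset.sum_add_distrib]
    refine Finset.sum_congr rfl fun c _ => ?_
    rw [← hmem]; rfl
  omega

theorem Bd.one (S : Finset σ) : Bd S 0 0 (1 : MvPolynomial σ K) := by
  intro e he
  rw [coeff_one] at he
  split_ifs at he with h
  · subst h; simp
  · exact absurd rfl he

theorem Bd.prod {S : Finset σ} {ι : Type*} (s : Finset ι) (lo up : ι → ℕ)
    (P : ι → MvPolynomial σ K) (h : ∀ i ∈ s, Bd S (lo i) (up i) (P i)) :
    Bd S (∑ i ∈ s, lo i) (∑ i ∈ s, up i) (∏ i ∈ s, P i) := by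
  classical
  induction s using Finset.induction_on with
  | empty => simpa using Bd.one S
  | insert i s hi ih =>
    rw [Finset.sum_insert hi, Finset.sum_insert hi, Finset.prod_insert hi]
    exact (h i (Finset.mem_insert_self _ _)).mul
      (ih fun j hj => h j (Finset.mem_insert_of_mem hj))

theorem JointBd.add {lo up : ℕ → ℕ} {P Q : MvPolynomial σ K} (h : JointBd lo up P)
    (h' : JointBd lo up Q) : JointBd lo up (P + Q) := fun S => (h S).add (h' S)

theorem JointBd.zero (lo up : ℕ → ℕ) : JointBd lo up (0 : MvPolynomial σ K) :=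
  fun S => Bd.zero S _ _

theorem JointBd.sum {lo up : ℕ → ℕ} {ι : Type*} (s : Finset ι) (P : ι → MvPolynomial σ K)
    (h : ∀ i ∈ s, JointBd lo up (P i)) : JointBd lo up (∑ i ∈ s, P i) := by
  classical
  induction s using Finset.induction_on with
  | empty => simpa using JointBd.zero lo up
  | insert i s hi ih =>
    rw [Finset.sum_insert hi]
    exact (h i (Finset.mem_insert_self _ _)).add
      (ih fun j hj => h j (Finset.mem_insert_of_mem hj))

end Pool.Agent.H12.QKZ

end

section

/-!
# The weights of the R-matrix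

`bw q z w = (z - w) / (q w - q² z)` with `q² + q + 1 = 0` (so `q² = q⁻¹`), and its value on the unit
circle, where it is real.
-/

namespace Pool.Agent.H12.QKZ

section field

variable {K : Type*} [Field K]

end field

end Pool.Agent.H12.QKZ

end

section

/-!
# The weights on the unit circle
-/

namespace Pool.Agent.H12.QKZ

open Complex

/-- Real form of the weight. -/
noncomputable def br (δ : ℝ) : ℝ := Real.sin (δ / 2) / Real.sin (2 * Real.pi / 3 - δ / 2)

end Pool.Agent.H12.QKZ

end

section

/-!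
# The R-matrix of the dense O(1) loop model: algebra

`Rm u e = (1 - u) • 1 + u • e` in an algebra, with `e * e = e`; unitarity and the Yang-Baxter equation.
-/

namespace Pool.Agent.H12.QKZ

section algebra

variable {K A : Type*} [CommRing K] [Ring A] [Algebra K A]

/-- The R-matrix with weight `u` of the turning `e` and weight `1 - u` of the identity. -/
def Rm (u : K) (e : A) : A := (1 - u) • (1 : A) + u • e

end algebra

end Pool.Agent.H12.QKZ

end

section

/-!
# Fixed vectors of a stochastic matrix with a common reachable state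

`P` is a real square matrix with nonnegative entries and column sums `1`, and some power of `P` has a
strictly positive row.  Then `P` has exactly one fixed vector whose coordinates sum to `1`.
-/

namespace Pool.Agent.H12.QKZ

open Matrix Finset

variable {S : Type*} [Fintype S] [DecidableEq S]

end Pool.Agent.H12.QKZ

end

section

/-!
# The scattering matrix of the line with the largest angle
-/

namespace Pool.Agent.H12.QKZ

open H56.EX Matrix

set_option linter.unusedSectionVars false

section mapMat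

variable {S : Type*} [Fintype S] [DecidableEq S]

/-- The matrix of a map. -/
def mapMat (f : S → S) : Matrix S S ℝ := fun a b => if f b = a then 1 else 0

/-- `A` has positive entries at `(f P, P)`. -/
def PosAt (A : Matrix S S ℝ) (f : S → S) : Prop := ∀ P, 0 < A (f P) P

theorem PosAt.mapMat (f : S → S) : PosAt (mapMat f) f := by
  intro P; simp [Pool.Agent.H12.QKZ.mapMat]

end mapMat

variable {L : ℕ}

/-- Matrix of `e_i`. -/
noncomputable def EM (i : ℤ) : Matrix (Pat L) (Pat L) ℝ := mapMat (E i)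

/-- The R-matrix at position `i` with angle difference `δ`. -/
noncomputable def RR (i : ℤ) (δ : ℝ) : Matrix (Pat L) (Pat L) ℝ := Rm (br δ) (EM i)

/-- Carry line `m` over the next `k` lines. -/
noncomputable def W (θ : ℤ → ℝ) (m : ℤ) : ℕ → Matrix (Pat L) (Pat L) ℝ
  | 0 => 1
  | k + 1 => RR (m + k) (θ m - θ (m + 1 + k)) * W θ m k

/-- Exchange of two neighbouring angles. -/
def sw (L : ℕ) (i : ℤ) (θ : ℤ → ℝ) : ℤ → ℝ :=
  fun x => if Cg L x i then θ (x + 1) else if Cg L x (i + 1) then θ (x - 1) else θ x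

end Pool.Agent.H12.QKZ

end

section

/-!
# Zariski density of the admissible points
-/

namespace Pool.Agent.H12.QKZ

open H56.EX

/-- Periodic extension of a finite sequence of angles. -/
noncomputable def ext (L : ℕ) (hL : 0 < L) (t : Fin L → ℝ) : ℤ → ℝ :=
  fun x => t ⟨(x % (L : ℤ)).toNat, by
    have h1 := Int.emod_lt_of_pos x (show (0 : ℤ) < L by omega)
    have h2 := Int.emod_nonneg x (show (L : ℤ) ≠ 0 by omega)
    omega⟩

end Pool.Agent.H12.QKZ

end

section

/-!
# The explicit sum `S_M(c; z)` of the leg functions: recursion and uniqueness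

`q` is a primitive cube root of unity in a field `K`.  For a finite set `s` of indices, spectral
parameters `z : ι → K` (pairwise distinct), and a list `c` of leg parameters, `SG` is
`∑_{A ⊆ s} ∏_{j ∈ A} (u ∏_i (c_i - q z_j)) ∏_{j ∈ s \ A} (v ∏_i (c_i - q² z_j)) ∏_{j ∈ A, k ∈ s \ A} g (z_j, z_k)`.
-/

set_option autoImplicit false

namespace Pool.Agent.H96.EX

open Finset Polynomial

variable {K ι : Type*} [Field K] [DecidableEq ι]

end Pool.Agent.H96.EX

end

section

/-!
# Divisibility of antisymmetric polynomials by a Vandermonde product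
-/

namespace Pool.Agent.H34.Hom

open MvPolynomial

variable {σ : Type*}

end Pool.Agent.H34.Hom

end

section

/-!
# `∏_{j<k} (z_j² + z_j z_k + z_k²) · SG` is a polynomial
-/

namespace Pool.Agent.H34.Hom

open Finset MvPolynomial

section poly

variable {κ : Type*}

/-- variable `z_j` -/
noncomputable def Z (j : ℕ) : MvPolynomial (κ ⊕ ℕ) ℂ := X (Sum.inr j)

end poly

end Pool.Agent.H34.Hom

end

section

/-!
# Homogeneous limits of the leg sums, and coefficientwise limits of polynomials
-/

namespace Pool.Agent.H34.Hom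

open Finset Polynomial Filter Topology

/-! ### coefficientwise limits -/

end Pool.Agent.H34.Hom

end

section

/-!
# The three-term relation and the exponents modulo 3
-/

namespace Pool.Agent.H34.Hom

open Finset Polynomial Filter Topology

/-! ### three-term relation for the leg sums -/

end Pool.Agent.H34.Hom

end

section

/-!
# Moments of the coefficients of a polynomial with a high order zero at `1`
-/

namespace Pool.Agent.H34.Hom

open Finset Polynomial

variable {K : Type*} [Field K]

end Pool.Agent.H34.Hom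

end

section

/-!
# A very-well-poised alternating sum (WZ proof)

`gN N i = ∏_{m<N} (3i-3m-1)(3i-3m-2)` and `A0 M = ∑_i (-1)^(M-i) C(M,i) gN (M+1) i`.
For even `M`: `A0 (M+2) * (m+2) = 36 (m+1)(2m+1)(2m+3)(3m+4)(3m+5) A0 M`, `M = 2m`.
-/

namespace Pool.Agent.H34.Hom

open Finset

end Pool.Agent.H34.Hom

end

section

/-! Symmetry consequences for the sums with an extra factor `i`. -/

namespace Pool.Agent.H34.Hom

open Finset

end Pool.Agent.H34.Hom

end

section

/-!
# A Chu-Vandermonde sum (WZ proof)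

`∑_k (-1)^k C(M,k) / ∏_{m≤M} (3(k-m)-1)` in closed form.
-/

namespace Pool.Agent.H34.Hom

open Finset

variable (K : Type*) [Field K] [CharZero K]

end Pool.Agent.H34.Hom

end

section

/-!
# Alternants, and the factorised sum rule

`alt e N z = det (z_i ^ e_j)`.  With `ex a = (0, a, 3, 3+a, 6, 6+a, …)` the product
`alt (ex 1) · alt (ex 2)` satisfies the recursion of the sum of the qKZ solution times the square
of the Vandermonde determinant.
-/

set_option autoImplicit false

namespace Pool.Agent.H34.Hom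

open Finset Polynomial

section ring

variable {R : Type*} [CommRing R]

end ring

section poly

end poly

end Pool.Agent.H34.Hom

end

section

/-!
# The sum rule: `Z_{2n} · Δ² · 3^{n(n-1)} = alt (ex 1) · alt (ex 2)`
-/

set_option autoImplicit false

namespace Pool.Agent.H34.Hom

open Finset Polynomial

end Pool.Agent.H34.Hom

end

section

/-! Exchange relations of leg sums. -/

namespace H56.EX

open scoped BigOperators Classical

variable {Lt Lb : ℕ}

section linear

variable (kt kb M : ℕ)

end linear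

/-! ### top-bottom symmetry -/

/-! ### hole ends (LT2) -/


end H56.EX

end
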