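import Pool.Agent.H94.BG.H31.PT.M31

/-! The parts of this file: H85.Gamma.Window, H31.EX.PowerLaw, H56.EX.Pat, H56.EX.TL, H56.EX.Ins, H89.Link.Defs, H89.Link.Row, H56.EX.Defs, H89.Link.Potential, H12.QKZ.DivDiff, H12.QKZ.Support, H12.QKZ.Weights, H12.QKZ.Trig, H12.QKZ.RMat, H12.QKZ.Doeblin, H12.QKZ.Scatter, H12.QKZ.Dens, H96.EX.SSum, H34.Hom.Dvd, H34.Hom.Ext, H34.Hom.Lim, H34.Hom.Three, H34.Hom.Moments, H34.Hom.Wz, H34.Hom.Wz2, H34.Hom.Chu, H34.Hom.Alt, H34.Hom.SumId, H56.EX.Exch. -/

section

/-!
# Stability of the one-arm probability below the critical point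
-/

open MeasureTheory ProbabilityTheory unitInterval Filter Topology

namespace Pool.Agent.H85.Gamma

open Pool.Agent.H89.Perc

end Pool.Agent.H85.Gamma

end

section

/-!
# Power laws with `o(1)` in the exponent

`PL F a` means `F h = h ^ (a + o(1))` as `h ↓ 0`, `PN f a` means `f n = n ^ (-a + o(1))` as
`n → ∞`.
-/

namespace Pool.Agent.H31.EX

end Pool.Agent.H31.EX

end

section

/-! Link patterns on the half infinite cylinder (punctured disc), as involutions on the universal cover,
and the periodic Temperley-Lieb moves `e_i` (contractible and noncontractible loops are dropped). -/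

namespace H56.EX

namespace Pat

end Pat

section closure

end closure

end H56.EX

end

section

/-! Temperley-Lieb relations for the moves `E i` on link patterns. -/

namespace H56.EX

variable {L : ℕ}

namespace E

end E

lemma E_congr {i j : ℤ} (h : Cg L i j) (P : Pat L) : E i P = E j P := by
  apply Pat.ext
  funext x
  have e1 : ∀ y : ℤ, ((L : ℤ) ∣ y - i ↔ (L : ℤ) ∣ y - j) := fun y =>
    ⟨fun h' => Cg.trans' (L := L) h' h, fun h' => Cg.trans' (L := L) h' (Cg.symm' h)⟩
  have e2 : ∀ y : ℤ, ((L : ℤ) ∣ y - (i + 1) ↔ (L : ℤ) ∣ y - (j + 1)) := fun y =>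
    ⟨fun h' => Cg.trans' (L := L) h' (Cg.add 1 h),
      fun h' => Cg.trans' (L := L) h' (Cg.symm' (Cg.add 1 h))⟩
  show tl L i P.m x = tl L j P.m x
  unfold tl
  simp only [e1, e2]

/-! ### Finiteness -/

end H56.EX

end

section

/-! Insertion of a small arc at positions `i, i+1`: `ins i : Pat L → Pat (L+2)`. -/

namespace H56.EX

variable {L : ℕ}

lemma ins_self (i : ℤ) (P : Pat L) : (ins i P).m i = i + 1 := ins_i i P (Cg.refl' i)

end H56.EX

end

section

/-!
# LINK: critical bond percolation on a cylinder and loops (definitions)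

Medial lattice: the vertex `(c, r)` (column `c`, row `r`) lies on the edge `medge c r` of the square
lattice.  Faces of the medial lattice: `(c, r)` = the unit square between the columns `c`, `c + 1`
and between the rows `r - 1`, `r` (level `r`).  It is a primal vertex if `c + r` is odd, namely
`((c + r + 1) / 2, (r - c - 1) / 2)`, and a dual vertex (a face of the square lattice, named by its
lower left corner) if `c + r` is even, namely `((c + r) / 2, (r - c - 2) / 2)`.
The primal vertex `(x, y)` lies at level `x + y`, the edge `e` lies in the row `e.1 + e.2.1`.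
The seam is level `0`; the strand of the seam in column `c` lies between the primal vertex `pv c` and
the dual vertex `dv c`.  The period is `c → c + L`, `L = 2 n`, i.e. `(x, y) → (x + n, y - n)`.

At the vertex `(c, r)` the strands connect bottom - right and top - left if `tB ω c r = true`
(type B), and bottom - left and top - right if `tB ω c r = false` (type A).
-/

set_option autoImplicit false

open MeasureTheory ProbabilityTheory Filter Topology

namespace Pool.Agent.H89.Link

open H56.EX
open Pool.Agent.H89.Perc (Vert Edge Config Pr half src tgt lowFace ball sphere)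

variable {L : ℕ} {T : Type*}

/-! ### The row map -/

/-! ### Percolation -/

/-! ### The stationary vector -/

end Pool.Agent.H89.Link

end

section

/-!
# LINK module `Row`: colours are transported by the row map

Proof of `row_inv`.  All facts hold on the universal covers; colours are NOT assumed periodic.
1. (`cap_spec`) for `2 ≤ L`: `E i P` has a small arc at `i` (`E.self`), so `exists_ins` gives
   `E i P = ins i (cap i P Q0)`.
2. (`E_inv`) if `f (P.m x) = f x` for all `x`, `g x = f x` for `x` not congruent to `i`, `i + 1`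
   (mod `L`), and for every `y` congruent to `i`: `f y = f (y + 1)` and `g y = g (y + 1)`, then
   `g ((E i P).m x) = g x` (cases of `tl`, `H56.EX.tl_cases` or `E.of_i`, `E.of_succ`, `E.of_m`,
   `E.of_m_succ`, `E.other`, `E.mem_not`).
3. (`ins_inv`) if `f (phi L i y) = g y`, `g (P.m y) = g y` and `f y = f (y + 1)` for `y` congruent to `i`
   mod `L + 2`, then `f ((ins i P).m x) = f x`; conversely if `f ((ins i P).m x) = f x` for all `x` then
   `f (phi L i (P.m y)) = f (phi L i y)`.
4. Colour of position `X = (L + 2) j + s`, `0 ≤ s < L + 2`, when the wire has passed the columns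
   `0, …, k - 1`:  `s = 0`: `hor (j L - 1)`;  `1 ≤ s ≤ k`: `bot (j L + s - 1)`;  `s = k + 1`:
   `hor (j L + k - 1)`;  `k + 2 ≤ s ≤ L + 1`: `top (j L + s - 2)`.
   Step `k → k + 1` changes only the positions `s = k + 1, k + 2`: from `hor (j L + k - 1), top (j L + k)` to
   `bot (j L + k), hor (j L + k)`; if `t k = true` use `E_inv` with `i = k + 1`, if `t k = false` nothing
   changes.  (`t (j L + k) = t k` by periodicity.)
5. At the end (`k = L`) the positions `(L+2) j - 1` and `(L+2) j` both have colour `hor (j L - 1)`; use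
   `E_inv` with `i = -1`, then `cap_spec` and the second part of 3; the position `(L+2) j + c + 1`
   (`0 ≤ c < L`) is `phi L (-1) (j L + c - 1)`; finally `rot` shifts by one.
-/

set_option autoImplicit false

namespace Pool.Agent.H89.Link

open H56.EX

variable {L : ℕ} {T : Type*}

end Pool.Agent.H89.Link

end

section

/-! Common definitions of the EXACT project, loop part:
the cube root of unity `q`, operators `eop i`, the list of properties `PsiProps` of the
polynomial qKZ solution, the leg relation of a pair of patterns and the leg sums. -/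

namespace H56.EX

open scoped BigOperators

variable {L : ℕ}

/-! ### The leg relation

`Pt : Pat Lt` top pattern, `Pb : Pat Lb` bottom pattern, `kt, kb` = number of strands in the hole at
the top / bottom, `M` = number of glued strands; in all uses `Lt = kt + M`, `Lb = kb + M`.
Top hole ends: positions `0..kt-1`; glued top positions `kt..kt+M-1` (mod `Lt`); same at the bottom.
Vertices of the composite graph: `inl x` top boundary points, `inr y` bottom boundary points
(on the universal covers). -/

section leg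

variable {Lt Lb : ℕ}

end leg

/-- pair weight -/
noncomputable def fpair (ε ε' z w : ℂ) : ℂ :=
  if ε = ε' then z ^ 2 + z * w + w ^ 2
  else if ε = q then (w - q * z) ^ 3 / (w - z) else (z - q * w) ^ 3 / (z - w)

end H56.EX

end

section

/-!
# LINK module `Potential`: parity potentials

`A : Edge → ZMod 2` supported in rows of absolute value `< H` (the row of `e` is `e.1 + e.2.1`).
Ray potential of the face with lower left corner `(a, b)`: the sum of `A` over the horizontal edges above,
  `pot A H (a, b) = ∑_{j = b + 1}^{H - a - 1} A (a, j, false)`   (all other terms vanish).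
* `pot_hor`: `pot (a, b - 1) + pot (a, b) = A (a, b, false)` (trivial), for all `(a, b)`;
* `pot_ver`: `pot (a - 1, b) + pot (a, b) = A (a, b, true) + ∑_{j > b} vsum A (a, j)` where the sum runs over the
  vertices `(a, j)` with `b < j` (finitely many non zero terms): telescoping of the vertical edges.
So if all vertices have even degree (`vsum A V = 0`) then `pot` is a potential on the whole plane; if the only
vertex with odd degree is `0`, then it is a potential except across the edges `(0, b, true)`, `b < 0`.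
A finite or periodic sum of open paths gives such an `A`: `pathSum` of a list of vertices.
-/

set_option autoImplicit false

namespace Pool.Agent.H89.Link

open Pool.Agent.H89.Perc (Vert Edge Config src tgt lowFace vsum)

end Pool.Agent.H89.Link

end

section

/-!
# Divided differences

For a polynomial `P` and two different variables `a, b` there is a polynomial `Q` with
`(X a - X b) Q = (q X b - q² X a) P(swap a b) - (q X a - q² X b) P`  (`q² + q + 1 = 0`), and the
exponents of `Q` lie between exponents of `P`.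
-/

namespace Pool.Agent.H12.QKZ

open MvPolynomial

set_option linter.unusedSectionVars false
set_option linter.unusedSimpArgs false

variable {σ K : Type*} [DecidableEq σ] [Field K]

end Pool.Agent.H12.QKZ

end

section

/-!
# Joint degree and joint order
-/

namespace Pool.Agent.H12.QKZ

open MvPolynomial

set_option linter.unusedSectionVars false
set_option linter.unusedSimpArgs false

variable {σ K : Type*} [DecidableEq σ] [Field K]

end Pool.Agent.H12.QKZ

end

section

/-!
# The weights of the R-matrix

`bw q z w = (z - w) / (q w - q² z)` with `q² + q + 1 = 0` (so `q² = q⁻¹`), and its value on the unit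
circle, where it is real.
-/

namespace Pool.Agent.H12.QKZ

section field

variable {K : Type*} [Field K]

end field

end Pool.Agent.H12.QKZ

end

section

/-!
# The weights on the unit circle
-/

namespace Pool.Agent.H12.QKZ

open Complex

/-- The cube root of unity `e^{2πi/3}`. -/
noncomputable def qc : ℂ := Complex.exp ((2 * Real.pi / 3 : ℝ) * I)

theorem qc_cos_sin : qc = (-1 / 2 : ℝ) + (Real.sqrt 3 / 2 : ℝ) * I := by
  unfold qc
  rw [Complex.exp_mul_I, ← Complex.ofReal_cos, ← Complex.ofReal_sin]
  have h1 : Real.cos (2 * Real.pi / 3) = -1 / 2 := by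
    rw [show 2 * Real.pi / 3 = Real.pi - Real.pi / 3 by ring, Real.cos_pi_sub,
      Real.cos_pi_div_three]
    ring
  have h2 : Real.sin (2 * Real.pi / 3) = Real.sqrt 3 / 2 := by
    rw [show 2 * Real.pi / 3 = Real.pi - Real.pi / 3 by ring, Real.sin_pi_sub,
      Real.sin_pi_div_three]
  rw [h1, h2]

/-- Points of the unit circle. -/
noncomputable def zc (t : ℝ) : ℂ := Complex.exp ((t : ℂ) * I)

theorem zc_sub (t s : ℝ) : zc t - zc s
    = Complex.exp (((t + s) / 2 : ℝ) * I) * (2 * I) * (Real.sin ((t - s) / 2) : ℝ) := by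
  have h1 : zc t = Complex.exp (((t + s) / 2 : ℝ) * I) * Complex.exp (((t - s) / 2 : ℝ) * I) := by
    rw [← Complex.exp_add]; unfold zc; congr 1; push_cast; ring
  have h2 : zc s = Complex.exp (((t + s) / 2 : ℝ) * I) * Complex.exp (-((t - s) / 2 : ℝ) * I) := by
    rw [← Complex.exp_add]; unfold zc; congr 1; push_cast; ring
  rw [h1, h2, ← mul_sub, mul_assoc]
  congr 1
  rw [Complex.ofReal_sin, Complex.sin]
  have : I * I = -1 := Complex.I_mul_I
  linear_combination
    (Complex.exp (((t - s) / 2 : ℝ) * I) - Complex.exp (-((t - s) / 2 : ℝ) * I)) * this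

theorem den_eq (t s : ℝ) : qc * zc s - qc ^ 2 * zc t
    = Complex.exp (((t + s) / 2 : ℝ) * I) * (2 * I) *
      (Real.sin (2 * Real.pi / 3 - (t - s) / 2) : ℝ) := by
  have h1 : qc * zc s = zc (2 * Real.pi / 3 + s) := by
    unfold qc zc; rw [← Complex.exp_add]; congr 1; push_cast; ring
  have h2 : qc ^ 2 * zc t = zc (t - 2 * Real.pi / 3) := by
    unfold qc zc
    rw [← Complex.exp_nat_mul, ← Complex.exp_add]
    have : Complex.exp (((2 : ℕ) : ℂ) * (((2 * Real.pi / 3 : ℝ) : ℂ) * I) + (t : ℂ) * I)
        = Complex.exp (((t - 2 * Real.pi / 3 : ℝ) : ℂ) * I + 2 * Real.pi * I) := by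
      congr 1; push_cast; ring
    rw [this, Complex.exp_add, Complex.exp_two_pi_mul_I, mul_one]
  rw [h1, h2, zc_sub]
  congr 3
  · congr 2; push_cast; ring
  · congr 1; ring_nf

theorem sin_den_pos {δ : ℝ} (h1 : -(2 * Real.pi / 3) < δ) (h2 : δ < 4 * Real.pi / 3) :
    0 < Real.sin (2 * Real.pi / 3 - δ / 2) := by
  apply Real.sin_pos_of_pos_of_lt_pi <;> linarith only [h2, h1, Real.pi_pos]

theorem den_ne_zero {t s : ℝ} (h1 : -(2 * Real.pi / 3) < t - s) (h2 : t - s < 4 * Real.pi / 3) :
    qc * zc s - qc ^ 2 * zc t ≠ 0 := by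
  rw [den_eq]
  refine mul_ne_zero (mul_ne_zero (Complex.exp_ne_zero _) ?_) ?_
  · simp
  · exact_mod_cast (sin_den_pos h1 h2).ne'

theorem br_pos {δ : ℝ} (h1 : 0 < δ) (h2 : δ < 2 * Real.pi / 3) : 0 < br δ := by
  apply div_pos
  · apply Real.sin_pos_of_pos_of_lt_pi <;> linarith only [h1, h2, Real.pi_pos]
  · exact sin_den_pos (by linarith only [h1, h2]) (by linarith only [h1, h2])

theorem br_lt_one {δ : ℝ} (h1 : 0 < δ) (h2 : δ < 2 * Real.pi / 3) : br δ < 1 := by
  unfold br
  rw [div_lt_one (sin_den_pos (by linarith only [h1, h2]) (by linarith))]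
  rcases le_or_gt (2 * Real.pi / 3 - δ / 2) (Real.pi / 2) with h | h
  · apply Real.sin_lt_sin_of_lt_of_le_pi_div_two <;> linarith only [h1, h2, h, Real.pi_pos]
  · rw [← Real.sin_pi_sub (2 * Real.pi / 3 - δ / 2)]
    apply Real.sin_lt_sin_of_lt_of_le_pi_div_two <;> linarith only [h1, h, Real.pi_pos]

end Pool.Agent.H12.QKZ

end

section

/-!
# The R-matrix of the dense O(1) loop model: algebra

`Rm u e = (1 - u) • 1 + u • e` in an algebra, with `e * e = e`; unitarity and the Yang-Baxter equation.
-/

namespace Pool.Agent.H12.QKZ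

section algebra

variable {K A : Type*} [CommRing K] [Ring A] [Algebra K A]

end algebra

end Pool.Agent.H12.QKZ

end

section

/-!
# Fixed vectors of a stochastic matrix with a common reachable state

`P` is a real square matrix with nonnegative entries and column sums `1`, and some power of `P` has a
strictly positive row.  Then `P` has exactly one fixed vector whose coordinates sum to `1`.
-/

namespace Pool.Agent.H12.QKZ

open Matrix Finset

variable {S : Type*} [Fintype S] [DecidableEq S]

/-- Column-stochastic matrices. -/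
def ColStoch (P : Matrix S S ℝ) : Prop := (∀ i j, 0 ≤ P i j) ∧ ∀ j, ∑ i, P i j = 1

theorem ColStoch.one : ColStoch (1 : Matrix S S ℝ) := by
  refine ⟨fun i j => ?_, fun j => ?_⟩
  · rw [Matrix.one_apply]; split_ifs <;> norm_num
  · simp [Matrix.one_apply]

theorem ColStoch.mul {P Q : Matrix S S ℝ} (hP : ColStoch P) (hQ : ColStoch Q) :
    ColStoch (P * Q) := by
  refine ⟨fun i j => ?_, fun j => ?_⟩
  · rw [Matrix.mul_apply]
    exact Finset.sum_nonneg fun k _ => mul_nonneg (hP.1 i k) (hQ.1 k j)
  · simp only [Matrix.mul_apply]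
    rw [Finset.sum_comm]
    simp_rw [← Finset.sum_mul, hP.2, one_mul]
    exact hQ.2 j

theorem ColStoch.sum_mulVec {P : Matrix S S ℝ} (hP : ColStoch P) (v : S → ℝ) :
    ∑ i, (P *ᵥ v) i = ∑ j, v j := by
  simp only [Matrix.mulVec, dotProduct]
  rw [Finset.sum_comm]
  simp_rw [← Finset.sum_mul, hP.2, one_mul]

end Pool.Agent.H12.QKZ

end

section

/-!
# The scattering matrix of the line with the largest angle
-/

namespace Pool.Agent.H12.QKZ

open H56.EX Matrix

set_option linter.unusedSectionVars false

section mapMat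

variable {S : Type*} [Fintype S] [DecidableEq S]

theorem mapMat_congr {f g : S → S} (h : ∀ x, f x = g x) : mapMat f = mapMat g := by
  rw [show f = g from funext h]

theorem mapMat_colStoch (f : S → S) : ColStoch (mapMat f) := by
  refine ⟨fun a b => ?_, fun b => ?_⟩
  · unfold mapMat; split_ifs <;> norm_num
  · simp [mapMat]

theorem Rm_colStoch {u : ℝ} (h0 : 0 ≤ u) (h1 : u ≤ 1) {A : Matrix S S ℝ} (hA : ColStoch A) :
    ColStoch (Rm u A) := by
  refine ⟨fun a b => ?_, fun b => ?_⟩
  · have h2 := hA.1 a b
    have h3 := (ColStoch.one (S := S)).1 a b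
    simp only [Rm, Matrix.add_apply, Matrix.smul_apply, smul_eq_mul]
    exact add_nonneg (mul_nonneg (by linarith) h3) (mul_nonneg h0 h2)
  · simp only [Rm, Matrix.add_apply, Matrix.smul_apply, smul_eq_mul]
    rw [Finset.sum_add_distrib, ← Finset.mul_sum, ← Finset.mul_sum, hA.2,
      (ColStoch.one (S := S)).2]
    ring

theorem PosAt.mul {A B : Matrix S S ℝ} {f g : S → S} (hA : PosAt A f) (hB : PosAt B g)
    (hA' : ∀ i j, 0 ≤ A i j) (hB' : ∀ i j, 0 ≤ B i j) : PosAt (A * B) (f ∘ g) := by
  intro P
  rw [Matrix.mul_apply]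
  exact Finset.sum_pos' (fun c _ => mul_nonneg (hA' _ _) (hB' _ _))
    ⟨g P, Finset.mem_univ _, mul_pos (hA _) (hB _)⟩

theorem PosAt.one : PosAt (1 : Matrix S S ℝ) id := by
  intro P
  show 0 < (1 : Matrix S S ℝ) P P
  rw [Matrix.one_apply_eq]; norm_num

theorem PosAt.Rm_map {u : ℝ} (h0 : 0 < u) (h1 : u ≤ 1) (f : S → S) :
    PosAt (Rm u (Pool.Agent.H12.QKZ.mapMat f)) f := by
  intro P
  simp only [Rm, Matrix.add_apply, Matrix.smul_apply, smul_eq_mul]
  have h3 := (ColStoch.one (S := S)).1 (f P) P
  have h4 : Pool.Agent.H12.QKZ.mapMat f (f P) P = 1 := by simp [Pool.Agent.H12.QKZ.mapMat]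
  rw [h4]
  have : 0 ≤ (1 - u) * (1 : Matrix S S ℝ) (f P) P := mul_nonneg (by linarith only [h1]) h3
  linarith

theorem PosAt.Rm_id {u : ℝ} (h0 : 0 ≤ u) (h1 : u < 1) (f : S → S) :
    PosAt (Rm u (Pool.Agent.H12.QKZ.mapMat f)) id := by
  intro P
  simp only [Rm, Matrix.add_apply, Matrix.smul_apply, smul_eq_mul, id]
  have h3 := (mapMat_colStoch f).1 P P
  rw [Matrix.one_apply_eq]
  have : 0 ≤ u * Pool.Agent.H12.QKZ.mapMat f P P := mul_nonneg h0 h3
  linarith

end mapMat

variable {L : ℕ}

/-- Matrix of the rotation. -/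
noncomputable def RotM : Matrix (Pat L) (Pat L) ℝ := mapMat rot

theorem EM_congr {i j : ℤ} (h : Cg L i j) : (EM i : Matrix (Pat L) (Pat L) ℝ) = EM j :=
  mapMat_congr fun P => E_congr h P

theorem RR_congr {i j : ℤ} (h : Cg L i j) (δ : ℝ) :
    (RR i δ : Matrix (Pat L) (Pat L) ℝ) = RR j δ := by
  unfold RR; rw [EM_congr h]

/-- The scattering matrix of line `m`. -/
noncomputable def Sc (θ : ℤ → ℝ) (m : ℤ) : Matrix (Pat L) (Pat L) ℝ := RotM * W θ m (L - 1)

/-- Admissible angles with maximum at `m`. -/
structure Adm (L : ℕ) (θ : ℤ → ℝ) (m : ℤ) : Prop where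
  per : ∀ x, θ (x + L) = θ x
  pos : ∀ x, 0 < θ x
  lt : ∀ x, θ x < Real.pi / 3
  inj : ∀ x y, ¬ Cg L x y → θ x ≠ θ y
  max : ∀ x, ¬ Cg L x m → θ x < θ m

theorem per_dvd_fun {α : Type*} {θ : ℤ → α} (h : ∀ x, θ (x + L) = θ x) {x y : ℤ}
    (hxy : Cg L x y) : θ x = θ y := by
  obtain ⟨t, ht⟩ := hxy
  have key : ∀ t : ℤ, ∀ y, θ (y + L * t) = θ y := by
    intro t
    induction t using Int.induction_on with
    | zero => intro y; simp
    | succ a ih =>
      intro y
      rw [show y + (L : ℤ) * (a + 1) = y + L * a + L by ring, h, ih]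
    | pred a ih =>
      intro y
      rw [← h (y + L * (-a - 1)), show y + (L : ℤ) * (-a - 1) + L = y + L * (-a) by ring, ih]
  rw [show x = y + L * t by linarith]
  exact key t y

theorem Adm.congr {θ : ℤ → ℝ} {m : ℤ} (h : Adm L θ m) {x y : ℤ} (hxy : Cg L x y) :
    θ x = θ y := per_dvd_fun h.per hxy

theorem Adm.abs_lt {θ : ℤ → ℝ} {m : ℤ} (h : Adm L θ m) (x y : ℤ) :
    |θ x - θ y| < 2 * Real.pi / 3 := by
  rw [_root_.abs_lt]
  have h1 := h.pos x
  have h2 := h.lt x
  have h3 := h.pos y
  have h4 := h.lt y
  constructor <;> linarith only [h1, h2, h4, h3, Real.pi_pos]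

theorem not_cg_of_lt {x y : ℤ} (h1 : 0 < x - y) (h2 : x - y < L) : ¬ Cg L x y := by
  intro h
  have := Int.le_of_dvd h1 h
  omega

theorem sw_of_i {θ : ℤ → ℝ} {i x : ℤ} (h : Cg L x i) : sw L i θ x = θ (x + 1) := by
  simp only [sw, if_pos h]

theorem sw_of_succ (hL : 2 ≤ L) {θ : ℤ → ℝ} {i x : ℤ} (h : Cg L x (i + 1)) :
    sw L i θ x = θ (x - 1) := by
  have h' : ¬ Cg L x i := fun h' => not_Cg_succ hL i (Cg.trans' (Cg.symm' h') h)
  simp only [sw, if_neg h', if_pos h]

theorem sw_other {θ : ℤ → ℝ} {i x : ℤ} (h : ¬ Cg L x i) (h' : ¬ Cg L x (i + 1)) :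
    sw L i θ x = θ x := by
  simp only [sw, if_neg h, if_neg h']

end Pool.Agent.H12.QKZ

end

section

/-!
# Zariski density of the admissible points
-/

namespace Pool.Agent.H12.QKZ

open H56.EX

theorem zc_injOn {s t : ℝ} (hs : 0 < s) (hs' : s < Real.pi / 3) (ht : 0 < t)
    (ht' : t < Real.pi / 3) (h : zc s = zc t) : s = t := by
  have h1 : zc s - zc t = 0 := sub_eq_zero.2 h
  rw [zc_sub] at h1
  have h2 : (Complex.exp (((s + t) / 2 : ℝ) * Complex.I) * (2 * Complex.I)) ≠ 0 := by
    refine mul_ne_zero (Complex.exp_ne_zero _) ?_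
    simp
  have h3 : Real.sin ((s - t) / 2) = 0 := by
    have := (mul_eq_zero.1 h1).resolve_left h2
    exact_mod_cast this
  have hpi := Real.pi_pos
  have h4 := (Real.sin_eq_zero_iff_of_lt_of_lt (x := (s - t) / 2) (by linarith only [hs, hs', ht']) (by linarith only [hs, hs', ht])).1 h3
  linarith only [h4]

end Pool.Agent.H12.QKZ

end

section

/-!
# The explicit sum `S_M(c; z)` of the leg functions: recursion and uniqueness

`q` is a primitive cube root of unity in a field `K`.  For a finite set `s` of indices, spectral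
parameters `z : ι → K` (pairwise distinct), and a list `c` of leg parameters, `SG` is
`∑_{A ⊆ s} ∏_{j ∈ A} (u ∏_i (c_i - q z_j)) ∏_{j ∈ s \ A} (v ∏_i (c_i - q² z_j)) ∏_{j ∈ A, k ∈ s \ A} g (z_j, z_k)`.
-/

set_option autoImplicit false

namespace Pool.Agent.H96.EX

open Finset Polynomial

variable {K ι : Type*} [Field K] [DecidableEq ι]

/-- `(w - q z)² / ((w - z) (w - q² z))` -/
noncomputable def gg (q z w : K) : K := (w - q * z) ^ 2 / ((w - z) * (w - q ^ 2 * z))

/-- the product of `c_i - x` over the legs -/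
def lg (c : List K) (x : K) : K := (c.map fun a => a - x).prod

/-- the explicit sum -/
noncomputable def SG (q u v : K) (s : Finset ι) (c : List K) (z : ι → K) : K :=
  ∑ A ∈ s.powerset, (∏ j ∈ A, u * lg c (q * z j)) * (∏ j ∈ s \ A, v * lg c (q ^ 2 * z j)) *
    ∏ j ∈ A, ∏ k ∈ s \ A, gg q (z j) (z k)

end Pool.Agent.H96.EX

end

section

/-!
# Divisibility of antisymmetric polynomials by a Vandermonde product
-/

namespace Pool.Agent.H34.Hom

open MvPolynomial

variable {σ : Type*}

end Pool.Agent.H34.Hom

end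

section

/-!
# `∏_{j<k} (z_j² + z_j z_k + z_k²) · SG` is a polynomial
-/

namespace Pool.Agent.H34.Hom

open Finset MvPolynomial Pool.Agent.H96.EX

/-- product over pairs `j < k < M` -/
def pp {R : Type*} [CommMonoid R] (M : ℕ) (F : ℕ → ℕ → R) : R :=
  ∏ k ∈ range M, ∏ j ∈ range k, F j k

section poly

variable {κ : Type*}

/-- pair factor -/
noncomputable def hA (q : ℂ) (A : Finset ℕ) (j k : ℕ) : MvPolynomial (κ ⊕ ℕ) ℂ :=
  if j ∈ A then
    if k ∈ A then Z k ^ 3 - Z j ^ 3 else (Z k - C q * Z j) ^ 3
  else
    if k ∈ A then - (Z j - C q * Z k) ^ 3 else Z k ^ 3 - Z j ^ 3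

end poly

end Pool.Agent.H34.Hom

end

section

/-!
# Homogeneous limits of the leg sums, and coefficientwise limits of polynomials
-/

namespace Pool.Agent.H34.Hom

open Finset Polynomial Pool.Agent.H96.EX Filter Topology

/-! ### coefficientwise limits -/

/-- coefficientwise convergence -/
def CT (F : Filter ℝ) (p : ℝ → ℂ[X]) (P : ℂ[X]) : Prop :=
  ∀ k, Tendsto (fun t => (p t).coeff k) F (𝓝 (P.coeff k))

lemma CT.C {F : Filter ℝ} {f : ℝ → ℂ} {x : ℂ} (h : Tendsto f F (𝓝 x)) :
    CT F (fun t => Polynomial.C (f t)) (Polynomial.C x) := by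
  intro k
  simp only [coeff_C]
  split_ifs
  · exact h
  · exact tendsto_const_nhds

end Pool.Agent.H34.Hom

end

section

/-!
# The three-term relation and the exponents modulo 3
-/

namespace Pool.Agent.H34.Hom

open Finset Polynomial Pool.Agent.H96.EX Filter Topology

/-- the part of `f` with exponents `≡ r` mod 3 -/
noncomputable def sec (r : ℕ) (f : ℂ[X]) : ℂ[X] :=
  ∑ k ∈ range (f.natDegree + 1), monomial k (f.coeff (3 * k + r))

lemma coeff_sec (r : ℕ) (f : ℂ[X]) (k : ℕ) : (sec r f).coeff k = f.coeff (3 * k + r) := by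
  unfold sec
  rw [finsetSum_coeff]
  simp only [coeff_monomial]
  rw [Finset.sum_ite_eq' (range (f.natDegree + 1)) k (fun k => f.coeff (3 * k + r))]
  split_ifs with h
  · rfl
  · rw [mem_range, not_lt] at h
    rw [coeff_eq_zero_of_natDegree_lt]
    omega

lemma sec_decomp (f : ℂ[X]) :
    f = expand ℂ 3 (sec 0 f) + X * expand ℂ 3 (sec 1 f) + X ^ 2 * expand ℂ 3 (sec 2 f) := by
  ext n
  have h3 : (0 : ℕ) < 3 := by norm_num
  simp only [coeff_add, pow_two, mul_assoc]
  rcases n with _ | _ | n
  · simp [coeff_expand h3, coeff_sec, mul_coeff_zero]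
  · rw [coeff_X_mul, coeff_X_mul, mul_coeff_zero, coeff_expand h3, coeff_expand h3]
    simp [coeff_sec]
  · rw [coeff_X_mul, coeff_X_mul, coeff_X_mul, coeff_expand h3, coeff_expand h3, coeff_expand h3,
      coeff_sec, coeff_sec, coeff_sec]
    obtain ⟨k, hk⟩ : ∃ k, n = 3 * k ∨ n = 3 * k + 1 ∨ n = 3 * k + 2 := ⟨n / 3, by omega⟩
    rcases hk with rfl | rfl | rfl
    · rw [if_neg (by omega), if_neg (by omega), if_pos (by omega), Nat.mul_div_cancel_left k h3]
      simp
    · rw [if_pos (by omega), if_neg (by omega), if_neg (by omega)]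
      have : (3 * k + 1 + 1 + 1) / 3 = k + 1 := by omega
      rw [this]
      simp; congr 1
    · rw [if_neg (by omega), if_pos (by omega), if_neg (by omega)]
      have : (3 * k + 2 + 1) / 3 = k + 1 := by omega
      rw [this]
      simp; congr 1

lemma eval_decomp (f : ℂ[X]) (x : ℂ) :
    f.eval x = (sec 0 f).eval (x ^ 3) + x * (sec 1 f).eval (x ^ 3) + x ^ 2 * (sec 2 f).eval (x ^ 3) := by
  conv_lhs => rw [sec_decomp f]
  simp only [eval_add, eval_mul, eval_X, eval_pow, expand_eval]

/-! ### three-term relation for the leg sums -/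

end Pool.Agent.H34.Hom

end

section

/-!
# Moments of the coefficients of a polynomial with a high order zero at `1`
-/

namespace Pool.Agent.H34.Hom

open Finset Polynomial

variable {K : Type*} [Field K]

/-- `∑_e coeff_e(φ) f(e)` -/
noncomputable def mom (φ : K[X]) (f : K → K) : K := φ.sum fun e a => a * f e

lemma mom_eq_range (φ : K[X]) (f : K → K) (n : ℕ) (hn : φ.natDegree < n) :
    mom φ f = ∑ e ∈ range n, φ.coeff e * f e := by
  unfold mom
  exact φ.sum_over_range' (fun e => by simp) n hn

end Pool.Agent.H34.Hom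

end

section

/-!
# A very-well-poised alternating sum (WZ proof)

`gN N i = ∏_{m<N} (3i-3m-1)(3i-3m-2)` and `A0 M = ∑_i (-1)^(M-i) C(M,i) gN (M+1) i`.
For even `M`: `A0 (M+2) * (m+2) = 36 (m+1)(2m+1)(2m+3)(3m+4)(3m+5) A0 M`, `M = 2m`.
-/

namespace Pool.Agent.H34.Hom

open Finset

/-- `∏_{m<N} (3i-3m-1)(3i-3m-2)` -/
def gN (N : ℕ) (i : ℤ) : ℤ := ∏ m ∈ range N, (3 * i - 3 * m - 1) * (3 * i - 3 * m - 2)

/-- the alternating sum of the four-leg evaluation -/
def A0 (M : ℕ) : ℤ := ∑ i ∈ range (M + 1), (-1) ^ (M - i) * (M.choose i : ℤ) * gN (M + 1) i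

end Pool.Agent.H34.Hom

end

section

/-! Symmetry consequences for the sums with an extra factor `i`. -/

namespace Pool.Agent.H34.Hom

open Finset

end Pool.Agent.H34.Hom

end

section

/-!
# A Chu-Vandermonde sum (WZ proof)

`∑_k (-1)^k C(M,k) / ∏_{m≤M} (3(k-m)-1)` in closed form.
-/

namespace Pool.Agent.H34.Hom

open Finset

variable (K : Type*) [Field K] [CharZero K]

end Pool.Agent.H34.Hom

end

section

/-!
# Alternants, and the factorised sum rule

`alt e N z = det (z_i ^ e_j)`.  With `ex a = (0, a, 3, 3+a, 6, 6+a, …)` the product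
`alt (ex 1) · alt (ex 2)` satisfies the recursion of the sum of the qKZ solution times the square
of the Vandermonde determinant.
-/

set_option autoImplicit false

namespace Pool.Agent.H34.Hom

open Finset Polynomial

/-- exponents `0, a, 3, 3+a, 6, …` -/
def ex (a : ℕ) : ℕ → ℕ
  | 0 => 0
  | 1 => a
  | k + 2 => ex a k + 3

section ring

variable {R : Type*} [CommRing R]

end ring

section poly

end poly

end Pool.Agent.H34.Hom

end

section

/-!
# The sum rule: `Z_{2n} · Δ² · 3^{n(n-1)} = alt (ex 1) · alt (ex 2)`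
-/

set_option autoImplicit false

namespace Pool.Agent.H34.Hom

open Finset Polynomial

end Pool.Agent.H34.Hom

end

section

/-! Exchange relations of leg sums. -/

namespace H56.EX

open scoped BigOperators Classical

variable {Lt Lb : ℕ}

section linear

variable (kt kb M : ℕ)

end linear

/-! ### top-bottom symmetry -/

/-! ### hole ends (LT2) -/


end H56.EX

end
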