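import Pool.Agent.H94.BG.H31.PT.M31_1

/-! The parts of this file: H85.Gamma.Window, H31.EX.PowerLaw, H56.EX.Pat, H56.EX.TL, H56.EX.Ins, H89.Link.Defs, H89.Link.Row, H56.EX.Defs, H89.Link.Potential, H12.QKZ.DivDiff, H12.QKZ.Support, H12.QKZ.Weights, H12.QKZ.Trig, H12.QKZ.RMat, H12.QKZ.Doeblin, H12.QKZ.Scatter, H12.QKZ.Dens, H96.EX.SSum, H34.Hom.Dvd, H34.Hom.Ext, H34.Hom.Lim, H34.Hom.Three, H34.Hom.Moments, H34.Hom.Wz, H34.Hom.Wz2, H34.Hom.Chu, H34.Hom.Alt, H34.Hom.SumId, H56.EX.Exch. -/

section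

/-!
# Stability of the one-arm probability below the critical point
-/

open MeasureTheory ProbabilityTheory unitInterval Filter Topology

namespace Pool.Agent.H85.Gamma

open Pool.Agent.H89.Perc

end Pool.Agent.H85.Gamma

end

section

/-!
# Power laws with `o(1)` in the exponent

`PL F a` means `F h = h ^ (a + o(1))` as `h ↓ 0`, `PN f a` means `f n = n ^ (-a + o(1))` as
`n → ∞`.
-/

namespace Pool.Agent.H31.EX

/-- `f n = n ^ (-a + o(1))` as `n → ∞`. -/
def PN (f : ℕ → ℝ) (a : ℝ) : Prop :=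
  ∀ ε > (0 : ℝ), ∃ n₀ : ℕ, ∀ n : ℕ, n₀ ≤ n → (n : ℝ) ^ (-a - ε) ≤ f n ∧ f n ≤ (n : ℝ) ^ (-a + ε)

/-- A positive power of a small number is smaller than a constant. -/
lemma exists_rpow_le {ε c : ℝ} (hε : 0 < ε) (hc : 0 < c) :
    ∃ δ > (0 : ℝ), δ ≤ 1 ∧ ∀ h : ℝ, 0 < h → h < δ → h ^ ε ≤ c := by
  refine ⟨min 1 (c ^ (1 / ε)), lt_min one_pos (by positivity), min_le_left _ _, fun h h0 h1 => ?_⟩
  have h2 : h ≤ c ^ (1 / ε) := (h1.le).trans (min_le_right _ _)
  calc h ^ ε ≤ (c ^ (1 / ε)) ^ ε := Real.rpow_le_rpow h0.le h2 hε.le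
    _ = c := by
      rw [← Real.rpow_mul hc.le, one_div_mul_cancel hε.ne', Real.rpow_one]

/-- A function between two multiples of a power law satisfies the same power law. -/
lemma PL.of_between {F G : ℝ → ℝ} {a c C δ₀ : ℝ} (hF : PL F a) (hc : 0 < c) (hC : 0 < C)
    (hδ₀ : 0 < δ₀) (h : ∀ x : ℝ, 0 < x → x < δ₀ → c * F x ≤ G x ∧ G x ≤ C * F x) : PL G a := by
  intro ε hε
  obtain ⟨δ₁, hδ₁, hF1⟩ := hF (ε / 2) (by positivity)
  obtain ⟨δ₂, hδ₂, -, h2⟩ := exists_rpow_le (ε := ε / 2) (c := c) (by positivity) hc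
  obtain ⟨δ₃, hδ₃, -, h3⟩ := exists_rpow_le (ε := ε / 2) (c := C⁻¹) (by positivity) (by positivity)
  refine ⟨min (min δ₀ δ₁) (min δ₂ δ₃), lt_min (lt_min hδ₀ hδ₁) (lt_min hδ₂ hδ₃), fun x x0 x1 => ?_⟩
  have y0 : x < δ₀ := x1.trans_le ((min_le_left _ _).trans (min_le_left _ _))
  have y1 : x < δ₁ := x1.trans_le ((min_le_left _ _).trans (min_le_right _ _))
  have y2 : x < δ₂ := x1.trans_le ((min_le_right _ _).trans (min_le_left _ _))
  have y3 : x < δ₃ := x1.trans_le ((min_le_right _ _).trans (min_le_right _ _))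
  obtain ⟨g1, g2⟩ := h x x0 y0
  obtain ⟨f1, f2⟩ := hF1 x x0 y1
  have z2 := h2 x x0 y2
  have z3 := h3 x x0 y3
  have p1 : 0 < x ^ (a + ε / 2) := by positivity
  have p2 : 0 < x ^ (a - ε) := by positivity
  constructor
  · calc x ^ (a + ε) = x ^ (ε / 2) * x ^ (a + ε / 2) := by
          rw [← Real.rpow_add x0]; congr 1; ring
      _ ≤ c * x ^ (a + ε / 2) := mul_le_mul_of_nonneg_right z2 p1.le
      _ ≤ c * F x := mul_le_mul_of_nonneg_left f1 hc.le
      _ ≤ G x := g1
  · have e : x ^ (a - ε / 2) = x ^ (ε / 2) * x ^ (a - ε) := by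
      rw [← Real.rpow_add x0]; congr 1; ring
    calc G x ≤ C * F x := g2
      _ ≤ C * x ^ (a - ε / 2) := mul_le_mul_of_nonneg_left f2 hC.le
      _ = C * (x ^ (ε / 2) * x ^ (a - ε)) := by rw [e]
      _ ≤ C * (C⁻¹ * x ^ (a - ε)) :=
          mul_le_mul_of_nonneg_left (mul_le_mul_of_nonneg_right z3 p2.le) hC.le
      _ = x ^ (a - ε) := by rw [← mul_assoc, mul_inv_cancel₀ hC.ne', one_mul]

/-- Composition of a power law in `n` with a length which diverges like a power. -/
lemma PL.comp {f : ℕ → ℝ} {L : ℝ → ℕ} {a b : ℝ} (ha : 0 < a) (hb : 0 < b) (hf : PN f a)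
    (hL : PL (fun x => (L x : ℝ)) (-b)) : PL (fun x => f (L x)) (a * b) := by
  intro ε hε
  -- choice of the small parameter
  set t : ℝ := min (min (a / 2) (b / 2)) (min 1 (ε / (a + b + 2))) with ht
  have ht0 : 0 < t := by
    refine lt_min (lt_min (by positivity) (by positivity)) (lt_min one_pos (by positivity))
  have hta : t ≤ a / 2 := (min_le_left _ _).trans (min_le_left _ _)
  have htb : t ≤ b / 2 := (min_le_left _ _).trans (min_le_right _ _)
  have ht1 : t ≤ 1 := (min_le_right _ _).trans (min_le_left _ _)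
  have hte : t ≤ ε / (a + b + 2) := (min_le_right _ _).trans (min_le_right _ _)
  have hte' : t * (a + b + 2) ≤ ε := by rwa [le_div_iff₀ (by positivity)] at hte
  obtain ⟨n₀, hn₀⟩ := hf t ht0
  obtain ⟨δ₁, hδ₁, hL1⟩ := hL t ht0
  have hbt : 0 < b - t := by linarith only [ht0, htb]
  have hat : 0 < a - t := by linarith only [ht0, hta]
  obtain ⟨δ₂, hδ₂, hδ₂1, h2⟩ := exists_rpow_le (ε := b - t) (c := ((n₀ : ℝ) + 1)⁻¹) hbt
    (by positivity)
  refine ⟨min δ₁ δ₂, lt_min hδ₁ hδ₂, fun x x0 x1 => ?_⟩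
  have x2 : x < δ₂ := x1.trans_le (min_le_right _ _)
  have x3 : x ≤ 1 := x2.le.trans hδ₂1
  obtain ⟨l1, l2⟩ := hL1 x x0 (x1.trans_le (min_le_left _ _))
  have k1 := h2 x x0 x2
  -- `L x` is large
  have hinv : x ^ (-b + t) = (x ^ (b - t))⁻¹ := by
    rw [← Real.rpow_neg x0.le]; congr 1; ring
  have hbig : (n₀ : ℝ) + 1 ≤ L x := by
    refine le_trans ?_ l1
    rw [hinv, le_inv_comm₀ (by positivity) (by positivity)]
    exact k1
  have hLn : n₀ ≤ L x := by
    have : (n₀ : ℝ) ≤ L x := by linarith only [hδ₂1, x0, x2, hbig]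
    exact_mod_cast this
  have hLpos : (0 : ℝ) < L x := by
    have : (0 : ℝ) ≤ n₀ := Nat.cast_nonneg _
    linarith only [hδ₂1, x0, x2, hbig]
  obtain ⟨f1, f2⟩ := hn₀ (L x) hLn
  have q1 : 0 < x ^ (-b + t) := by positivity
  constructor
  · refine le_trans ?_ f1
    have e1 : (L x : ℝ) ^ (-a - t) = ((L x : ℝ) ^ (a + t))⁻¹ := by
      rw [← Real.rpow_neg hLpos.le]; congr 1; ring
    have e2 : ((L x : ℝ)) ^ (a + t) ≤ (x ^ (-b - t)) ^ (a + t) :=
      Real.rpow_le_rpow hLpos.le l2 (by linarith only [ht0, hta])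
    have e3 : (x ^ (-b - t)) ^ (a + t) = (x ^ ((b + t) * (a + t)))⁻¹ := by
      rw [← Real.rpow_mul x0.le, ← Real.rpow_neg x0.le]; congr 1; ring
    rw [e1, le_inv_comm₀ (by positivity) (by positivity)]
    refine e2.trans (le_of_eq e3 |>.trans ?_)
    rw [inv_le_inv₀ (by positivity) (by positivity)]
    refine Real.rpow_le_rpow_of_exponent_ge x0 x3 ?_
    nlinarith only [ht0, hte', ht1]
  · refine f2.trans ?_
    have e1 : (L x : ℝ) ^ (-a + t) = ((L x : ℝ) ^ (a - t))⁻¹ := by
      rw [← Real.rpow_neg hLpos.le]; congr 1; ring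
    have e2 : (x ^ (-b + t)) ^ (a - t) ≤ (L x : ℝ) ^ (a - t) :=
      Real.rpow_le_rpow q1.le l1 hat.le
    have e3 : (x ^ (-b + t)) ^ (a - t) = (x ^ ((b - t) * (a - t)))⁻¹ := by
      rw [← Real.rpow_mul x0.le, ← Real.rpow_neg x0.le]; congr 1; ring
    rw [e1, inv_le_comm₀ (by positivity) (by positivity)]
    refine le_trans ?_ e2
    rw [e3, inv_le_inv₀ (by positivity) (by positivity)]
    refine Real.rpow_le_rpow_of_exponent_ge x0 x3 ?_
    nlinarith only [ht0, hte']

/-- The length is determined by `h L ^ (s + o(1)) ≍ 1`. -/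
lemma PL.of_window {L : ℝ → ℕ} {s : ℝ} (hs : 0 < s)
    (hup : ∀ ε > (0 : ℝ), ∃ C > (0 : ℝ), ∃ δ > (0 : ℝ), ∀ x : ℝ, 0 < x → x < δ →
      x * (L x : ℝ) ^ (s - ε) ≤ C)
    (hlow : ∀ ε > (0 : ℝ), ∃ c > (0 : ℝ), ∃ δ > (0 : ℝ), ∀ x : ℝ, 0 < x → x < δ →
      c ≤ x * (L x : ℝ) ^ (s + ε)) : PL (fun x => (L x : ℝ)) (-(1 / s)) := by
  intro ε hε
  -- lower bound
  have low : ∃ δ > (0 : ℝ), ∀ x : ℝ, 0 < x → x < δ → x ^ (-(1 / s) + ε) ≤ (L x : ℝ) := by
    -- exponent `t` with `1 / (s + t) ≥ 1 / s - ε / 2`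
    set t : ℝ := ε * s ^ 2 / 2 with ht
    have ht0 : 0 < t := by positivity
    obtain ⟨c, hc, δ₁, hδ₁, h1⟩ := hlow t ht0
    have hst : 0 < s + t := by positivity
    set u : ℝ := (1 / s - ε) * (s + t) with hu
    have hu1 : u < 1 := by
      have e : u = 1 + (t / s - ε * s - ε * t) := by rw [hu]; field_simp; ring
      have e2 : t / s = ε * s / 2 := by rw [ht]; field_simp
      rw [e, e2]
      have : 0 < ε * s := by positivity
      have : 0 < ε * t := by positivity
      linarith
    obtain ⟨δ₂, hδ₂, hδ₂1, h2⟩ := exists_rpow_le (ε := 1 - u) (c := c) (by linarith only [hu1]) hc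
    refine ⟨min δ₁ δ₂, lt_min hδ₁ hδ₂, fun x x0 x1 => ?_⟩
    have k1 := h1 x x0 (x1.trans_le (min_le_left _ _))
    have k2 := h2 x x0 (x1.trans_le (min_le_right _ _))
    have hLpow : x ^ (-u) ≤ (L x : ℝ) ^ (s + t) := by
      have e : x ^ (1 - u) = x * x ^ (-u) := by
        rw [show (1 - u : ℝ) = 1 + -u by ring, Real.rpow_add x0, Real.rpow_one]
      rw [e] at k2
      exact le_of_mul_le_mul_left (k2.trans k1) x0
    have hL0 : (0 : ℝ) ≤ L x := Nat.cast_nonneg _
    have e2 : x ^ (-(1 / s) + ε) = (x ^ (-u)) ^ (1 / (s + t)) := by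
      rw [← Real.rpow_mul x0.le]
      congr 1
      rw [hu]
      field_simp
      ring
    have e3 : ((L x : ℝ) ^ (s + t)) ^ (1 / (s + t)) = L x := by
      rw [← Real.rpow_mul hL0, mul_one_div_cancel hst.ne', Real.rpow_one]
    rw [e2, ← e3]
    exact Real.rpow_le_rpow (by positivity) hLpow (by positivity)
  have up : ∃ δ > (0 : ℝ), ∀ x : ℝ, 0 < x → x < δ → (L x : ℝ) ≤ x ^ (-(1 / s) - ε) := by
    set t : ℝ := min (s / 2) (ε * s ^ 2 / (2 * (1 + ε * s))) with ht
    have ht0 : 0 < t := lt_min (by positivity) (by positivity)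
    have hts : t ≤ s / 2 := min_le_left _ _
    have hte : t ≤ ε * s ^ 2 / (2 * (1 + ε * s)) := min_le_right _ _
    obtain ⟨C, hC, δ₁, hδ₁, h1⟩ := hup t ht0
    have hst : 0 < s - t := by linarith only [ht0, hts]
    set u : ℝ := (1 / s + ε) * (s - t) with hu
    have hu1 : 1 < u := by
      have e : u = 1 + ε * s - t * ((1 + ε * s) / s) := by rw [hu]; field_simp
      have e2 : t * ((1 + ε * s) / s) ≤ ε * s / 2 := by
        calc t * ((1 + ε * s) / s) ≤ (ε * s ^ 2 / (2 * (1 + ε * s))) * ((1 + ε * s) / s) :=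
              mul_le_mul_of_nonneg_right hte (by positivity)
          _ = ε * s / 2 := by field_simp
      rw [e]
      have : 0 < ε * s := by positivity
      linarith only [e2, this]
    obtain ⟨δ₂, hδ₂, hδ₂1, h2⟩ := exists_rpow_le (ε := u - 1) (c := C⁻¹) (by linarith)
      (by positivity)
    refine ⟨min δ₁ δ₂, lt_min hδ₁ hδ₂, fun x x0 x1 => ?_⟩
    have k1 := h1 x x0 (x1.trans_le (min_le_left _ _))
    have k2 := h2 x x0 (x1.trans_le (min_le_right _ _))
    have hLpow : (L x : ℝ) ^ (s - t) ≤ x ^ (-u) := by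
      have e : x ^ (u - 1) * x ^ (-u) = x⁻¹ := by
        rw [← Real.rpow_add x0, show u - 1 + -u = (-1 : ℝ) by ring, Real.rpow_neg_one]
      have k3 : (L x : ℝ) ^ (s - t) ≤ C * x⁻¹ := by
        rw [← div_eq_mul_inv, le_div_iff₀ x0, mul_comm]
        exact k1
      refine k3.trans ?_
      rw [← e]
      calc C * (x ^ (u - 1) * x ^ (-u)) ≤ C * (C⁻¹ * x ^ (-u)) :=
            mul_le_mul_of_nonneg_left (mul_le_mul_of_nonneg_right k2 (by positivity)) hC.le
        _ = x ^ (-u) := by rw [← mul_assoc, mul_inv_cancel₀ hC.ne', one_mul]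
    have hL0 : (0 : ℝ) ≤ L x := Nat.cast_nonneg _
    have e2 : x ^ (-(1 / s) - ε) = (x ^ (-u)) ^ (1 / (s - t)) := by
      rw [← Real.rpow_mul x0.le]
      congr 1
      rw [hu]
      field_simp
      ring
    have e3 : ((L x : ℝ) ^ (s - t)) ^ (1 / (s - t)) = L x := by
      rw [← Real.rpow_mul hL0, mul_one_div_cancel hst.ne', Real.rpow_one]
    rw [e2, ← e3]
    exact Real.rpow_le_rpow (by positivity) hLpow (by positivity)
  obtain ⟨δ₁, hδ₁, h1⟩ := low
  obtain ⟨δ₂, hδ₂, h2⟩ := up
  exact ⟨min δ₁ δ₂, lt_min hδ₁ hδ₂, fun x x0 x1 =>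
    ⟨h1 x x0 (x1.trans_le (min_le_left _ _)), h2 x x0 (x1.trans_le (min_le_right _ _))⟩⟩

end Pool.Agent.H31.EX

end

section

/-! Link patterns on the half infinite cylinder (punctured disc), as involutions on the universal cover,
and the periodic Temperley-Lieb moves `e_i` (contractible and noncontractible loops are dropped). -/

namespace H56.EX

namespace Pat

end Pat

section closure

end closure

end H56.EX

end

section

/-! Temperley-Lieb relations for the moves `E i` on link patterns. -/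

namespace H56.EX

variable {L : ℕ}

namespace E

end E

/-! ### Finiteness -/

end H56.EX

end

section

/-! Insertion of a small arc at positions `i, i+1`: `ins i : Pat L → Pat (L+2)`. -/

namespace H56.EX

variable {L : ℕ}

end H56.EX

end

section

/-!
# LINK: critical bond percolation on a cylinder and loops (definitions)

Medial lattice: the vertex `(c, r)` (column `c`, row `r`) lies on the edge `medge c r` of the square
lattice.  Faces of the medial lattice: `(c, r)` = the unit square between the columns `c`, `c + 1`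
and between the rows `r - 1`, `r` (level `r`).  It is a primal vertex if `c + r` is odd, namely
`((c + r + 1) / 2, (r - c - 1) / 2)`, and a dual vertex (a face of the square lattice, named by its
lower left corner) if `c + r` is even, namely `((c + r) / 2, (r - c - 2) / 2)`.
The primal vertex `(x, y)` lies at level `x + y`, the edge `e` lies in the row `e.1 + e.2.1`.
The seam is level `0`; the strand of the seam in column `c` lies between the primal vertex `pv c` and
the dual vertex `dv c`.  The period is `c → c + L`, `L = 2 n`, i.e. `(x, y) → (x + n, y - n)`.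

At the vertex `(c, r)` the strands connect bottom - right and top - left if `tB ω c r = true`
(type B), and bottom - left and top - right if `tB ω c r = false` (type A).
-/

set_option autoImplicit false

open MeasureTheory ProbabilityTheory Filter Topology

namespace Pool.Agent.H89.Link

open H56.EX
open Pool.Agent.H89.Perc (Vert Edge Config Pr half src tgt lowFace ball sphere)

variable {L : ℕ} {T : Type*}

/-! ### The row map -/

/-! ### Percolation -/

/-- `y` is joined to the next copy of `x` in a strip, but not to `x`, and the cluster of `y` is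
contained in a window of width less than two periods. -/
def Fc (n H : ℕ) : Set Config :=
  {ω | Perc.Conn ω (strip H) yy (n, -n) ∧ ¬ Perc.Conn ω Set.univ xx yy ∧
    ∀ v, Perc.Conn ω Set.univ yy v → -(n : ℤ) < v.1 - v.2 ∧ v.1 - v.2 < 3 * n}

/-! ### The stationary vector -/

end Pool.Agent.H89.Link

end

section

/-!
# LINK module `Row`: colours are transported by the row map

Proof of `row_inv`.  All facts hold on the universal covers; colours are NOT assumed periodic.
1. (`cap_spec`) for `2 ≤ L`: `E i P` has a small arc at `i` (`E.self`), so `exists_ins` gives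
   `E i P = ins i (cap i P Q0)`.
2. (`E_inv`) if `f (P.m x) = f x` for all `x`, `g x = f x` for `x` not congruent to `i`, `i + 1`
   (mod `L`), and for every `y` congruent to `i`: `f y = f (y + 1)` and `g y = g (y + 1)`, then
   `g ((E i P).m x) = g x` (cases of `tl`, `H56.EX.tl_cases` or `E.of_i`, `E.of_succ`, `E.of_m`,
   `E.of_m_succ`, `E.other`, `E.mem_not`).
3. (`ins_inv`) if `f (phi L i y) = g y`, `g (P.m y) = g y` and `f y = f (y + 1)` for `y` congruent to `i`
   mod `L + 2`, then `f ((ins i P).m x) = f x`; conversely if `f ((ins i P).m x) = f x` for all `x` then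
   `f (phi L i (P.m y)) = f (phi L i y)`.
4. Colour of position `X = (L + 2) j + s`, `0 ≤ s < L + 2`, when the wire has passed the columns
   `0, …, k - 1`:  `s = 0`: `hor (j L - 1)`;  `1 ≤ s ≤ k`: `bot (j L + s - 1)`;  `s = k + 1`:
   `hor (j L + k - 1)`;  `k + 2 ≤ s ≤ L + 1`: `top (j L + s - 2)`.
   Step `k → k + 1` changes only the positions `s = k + 1, k + 2`: from `hor (j L + k - 1), top (j L + k)` to
   `bot (j L + k), hor (j L + k)`; if `t k = true` use `E_inv` with `i = k + 1`, if `t k = false` nothing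
   changes.  (`t (j L + k) = t k` by periodicity.)
5. At the end (`k = L`) the positions `(L+2) j - 1` and `(L+2) j` both have colour `hor (j L - 1)`; use
   `E_inv` with `i = -1`, then `cap_spec` and the second part of 3; the position `(L+2) j + c + 1`
   (`0 ≤ c < L`) is `phi L (-1) (j L + c - 1)`; finally `rot` shifts by one.
-/

set_option autoImplicit false

namespace Pool.Agent.H89.Link

open H56.EX

variable {L : ℕ} {T : Type*}

end Pool.Agent.H89.Link

end

section

/-! Common definitions of the EXACT project, loop part: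
the cube root of unity `q`, operators `eop i`, the list of properties `PsiProps` of the
polynomial qKZ solution, the leg relation of a pair of patterns and the leg sums. -/

namespace H56.EX

open scoped BigOperators

variable {L : ℕ}

/-! ### The leg relation

`Pt : Pat Lt` top pattern, `Pb : Pat Lb` bottom pattern, `kt, kb` = number of strands in the hole at
the top / bottom, `M` = number of glued strands; in all uses `Lt = kt + M`, `Lb = kb + M`.
Top hole ends: positions `0..kt-1`; glued top positions `kt..kt+M-1` (mod `Lt`); same at the bottom.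
Vertices of the composite graph: `inl x` top boundary points, `inr y` bottom boundary points
(on the universal covers). -/

section leg

variable {Lt Lb : ℕ}

end leg

end H56.EX

end

section

/-!
# LINK module `Potential`: parity potentials

`A : Edge → ZMod 2` supported in rows of absolute value `< H` (the row of `e` is `e.1 + e.2.1`).
Ray potential of the face with lower left corner `(a, b)`: the sum of `A` over the horizontal edges above,
  `pot A H (a, b) = ∑_{j = b + 1}^{H - a - 1} A (a, j, false)`   (all other terms vanish).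
* `pot_hor`: `pot (a, b - 1) + pot (a, b) = A (a, b, false)` (trivial), for all `(a, b)`;
* `pot_ver`: `pot (a - 1, b) + pot (a, b) = A (a, b, true) + ∑_{j > b} vsum A (a, j)` where the sum runs over the
  vertices `(a, j)` with `b < j` (finitely many non zero terms): telescoping of the vertical edges.
So if all vertices have even degree (`vsum A V = 0`) then `pot` is a potential on the whole plane; if the only
vertex with odd degree is `0`, then it is a potential except across the edges `(0, b, true)`, `b < 0`.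
A finite or periodic sum of open paths gives such an `A`: `pathSum` of a list of vertices.
-/

set_option autoImplicit false

namespace Pool.Agent.H89.Link

open Pool.Agent.H89.Perc (Vert Edge Config src tgt lowFace vsum)

end Pool.Agent.H89.Link

end

section

/-!
# Divided differences

For a polynomial `P` and two different variables `a, b` there is a polynomial `Q` with
`(X a - X b) Q = (q X b - q² X a) P(swap a b) - (q X a - q² X b) P`  (`q² + q + 1 = 0`), and the
exponents of `Q` lie between exponents of `P`.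
-/

namespace Pool.Agent.H12.QKZ

open MvPolynomial

set_option linter.unusedSectionVars false
set_option linter.unusedSimpArgs false

variable {σ K : Type*} [DecidableEq σ] [Field K]

end Pool.Agent.H12.QKZ

end

section

/-!
# Joint degree and joint order
-/

namespace Pool.Agent.H12.QKZ

open MvPolynomial

set_option linter.unusedSectionVars false
set_option linter.unusedSimpArgs false

variable {σ K : Type*} [DecidableEq σ] [Field K]

theorem JointBd.sub {lo up : ℕ → ℕ} {P Q : MvPolynomial σ K} (h : JointBd lo up P)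
    (h' : JointBd lo up Q) : JointBd lo up (P - Q) := fun S => (h S).sub (h' S)

/-- Renaming by a permutation preserves joint bounds. -/
theorem JointBd.rename {lo up : ℕ → ℕ} (f : Equiv.Perm σ) {P : MvPolynomial σ K}
    (h : JointBd lo up P) : JointBd lo up (MvPolynomial.rename f P) := by
  intro S e he
  have hcoeff : coeff e (MvPolynomial.rename f P)
      = coeff (e.mapDomain f.symm) P := by
    conv_lhs => rw [show e = (e.mapDomain f.symm).mapDomain f by
      rw [← Finsupp.mapDomain_comp]; simp]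
    exact coeff_rename_mapDomain f f.injective _ _
  rw [hcoeff] at he
  have h0 := h (S.map f.symm.toEmbedding) _ he
  rw [Finset.card_map, Finset.sum_map] at h0
  have : ∀ c, (e.mapDomain f.symm) (f.symm.toEmbedding c) = e c := fun c =>
    Finsupp.mapDomain_apply f.symm.injective _ _
  simpa only [this] using h0

end Pool.Agent.H12.QKZ

end

section

/-!
# The weights of the R-matrix

`bw q z w = (z - w) / (q w - q² z)` with `q² + q + 1 = 0` (so `q² = q⁻¹`), and its value on the unit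
circle, where it is real.
-/

namespace Pool.Agent.H12.QKZ

section field

variable {K : Type*} [Field K]

end field

end Pool.Agent.H12.QKZ

end

section

/-!
# The weights on the unit circle
-/

namespace Pool.Agent.H12.QKZ

open Complex

end Pool.Agent.H12.QKZ

end

section

/-!
# The R-matrix of the dense O(1) loop model: algebra

`Rm u e = (1 - u) • 1 + u • e` in an algebra, with `e * e = e`; unitarity and the Yang-Baxter equation.
-/

namespace Pool.Agent.H12.QKZ

section algebra

variable {K A : Type*} [CommRing K] [Ring A] [Algebra K A]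

end algebra

end Pool.Agent.H12.QKZ

end

section

/-!
# Fixed vectors of a stochastic matrix with a common reachable state

`P` is a real square matrix with nonnegative entries and column sums `1`, and some power of `P` has a
strictly positive row.  Then `P` has exactly one fixed vector whose coordinates sum to `1`.
-/

namespace Pool.Agent.H12.QKZ

open Matrix Finset

variable {S : Type*} [Fintype S] [DecidableEq S]

end Pool.Agent.H12.QKZ

end

section

/-!
# The scattering matrix of the line with the largest angle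
-/

namespace Pool.Agent.H12.QKZ

open H56.EX Matrix

set_option linter.unusedSectionVars false

section mapMat

variable {S : Type*} [Fintype S] [DecidableEq S]

end mapMat

variable {L : ℕ}

end Pool.Agent.H12.QKZ

end

section

/-!
# Zariski density of the admissible points
-/

namespace Pool.Agent.H12.QKZ

open H56.EX

end Pool.Agent.H12.QKZ

end

section

/-!
# The explicit sum `S_M(c; z)` of the leg functions: recursion and uniqueness

`q` is a primitive cube root of unity in a field `K`.  For a finite set `s` of indices, spectral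
parameters `z : ι → K` (pairwise distinct), and a list `c` of leg parameters, `SG` is
`∑_{A ⊆ s} ∏_{j ∈ A} (u ∏_i (c_i - q z_j)) ∏_{j ∈ s \ A} (v ∏_i (c_i - q² z_j)) ∏_{j ∈ A, k ∈ s \ A} g (z_j, z_k)`.
-/

set_option autoImplicit false

namespace Pool.Agent.H96.EX

open Finset Polynomial

variable {K ι : Type*} [Field K] [DecidableEq ι]

@[simp] lemma lg_nil (x : K) : lg [] x = 1 := by simp [lg]
@[simp] lemma lg_cons (a : K) (c : List K) (x : K) : lg (a :: c) x = (a - x) * lg c x := by
  simp [lg]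

lemma lg_perm {c c' : List K} (h : c.Perm c') (x : K) : lg c x = lg c' x := by
  unfold lg; exact (h.map _).prod_eq

lemma SG_perm {q u v : K} {s : Finset ι} {c c' : List K} (h : c.Perm c') (z : ι → K) :
    SG q u v s c z = SG q u v s c' z := by
  unfold SG
  simp only [lg_perm h]

lemma SG_empty (q u v : K) (c : List K) (z : ι → K) : SG q u v ∅ c z = 1 := by
  simp [SG]

/-- splitting the sum according to whether `a ∈ A` -/
lemma SG_split (q u v : K) {s : Finset ι} {a : ι} (ha : a ∈ s) (c : List K) (z : ι → K) :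
    SG q u v s c z =
      (∑ A ∈ (s.erase a).powerset, (u * lg c (q * z a)) * (∏ j ∈ A, u * lg c (q * z j)) *
        (∏ j ∈ s.erase a \ A, v * lg c (q ^ 2 * z j)) *
        ((∏ k ∈ s.erase a \ A, gg q (z a) (z k)) *
          ∏ j ∈ A, ∏ k ∈ s.erase a \ A, gg q (z j) (z k))) +
      (∑ A ∈ (s.erase a).powerset, (∏ j ∈ A, u * lg c (q * z j)) *
        ((v * lg c (q ^ 2 * z a)) * ∏ j ∈ s.erase a \ A, v * lg c (q ^ 2 * z j)) *
        ((∏ j ∈ A, gg q (z j) (z a)) *
          ∏ j ∈ A, ∏ k ∈ s.erase a \ A, gg q (z j) (z k))) := by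
  unfold SG
  have hs : s = insert a (s.erase a) := (insert_erase ha).symm
  conv_lhs => rw [hs]
  have hna : a ∉ s.erase a := notMem_erase a s
  rw [Finset.sum_powerset_insert hna, add_comm]
  congr 1
  · apply Finset.sum_congr rfl
    intro A hA
    rw [mem_powerset] at hA
    have hA' : a ∉ A := fun h => hna (hA h)
    have h1 : insert a (s.erase a) \ insert a A = s.erase a \ A := by
      ext x
      simp only [mem_sdiff, mem_insert, not_or]
      constructor
      · rintro ⟨h | h, h', h''⟩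
        · exact absurd h h'
        · exact ⟨h, h''⟩
      · rintro ⟨h, h'⟩
        exact ⟨Or.inr h, fun e => hna (e ▸ h), h'⟩
    rw [h1, Finset.prod_insert hA', Finset.prod_insert hA']
  · apply Finset.sum_congr rfl
    intro A hA
    rw [mem_powerset] at hA
    have hA' : a ∉ A := fun h => hna (hA h)
    have h1 : insert a (s.erase a) \ A = insert a (s.erase a \ A) := by
      rw [insert_sdiff_of_notMem _ hA']
    have hna' : a ∉ s.erase a \ A := fun h => hna (mem_sdiff.1 h).1
    rw [h1, Finset.prod_insert hna']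
    have h3 : (∏ j ∈ A, ∏ k ∈ insert a (s.erase a \ A), gg q (z j) (z k)) =
        (∏ j ∈ A, gg q (z j) (z a)) * ∏ j ∈ A, ∏ k ∈ s.erase a \ A, gg q (z j) (z k) := by
      rw [← Finset.prod_mul_distrib]
      apply Finset.prod_congr rfl
      intro j _
      rw [Finset.prod_insert hna']
    rw [h3]

/-- recursion at `c_1 = q² z_a`: the leg is replaced by the strand `z_a` -/
theorem SG_rec1 {q u v : K} (hq : q ^ 2 + q + 1 = 0) {s : Finset ι} {a : ι} (ha : a ∈ s)
    (c : List K) (z : ι → K) (hz : ∀ j ∈ s.erase a, z j ≠ z a ∧ z j ≠ q ^ 2 * z a) :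
    SG q u v s ((q ^ 2 * z a) :: c) z =
      u * ((q ^ 2 - q) * z a) * lg c (q * z a) *
        (∏ j ∈ s.erase a, (z j - q * z a) / (z j - q ^ 2 * z a)) *
        SG q u v (s.erase a) (z a :: c) z := by
  have q3 : q ^ 3 = 1 := by linear_combination (q - 1) * hq
  rw [SG_split q u v ha]
  have h2 : (∑ A ∈ (s.erase a).powerset, (∏ j ∈ A, u * lg (q ^ 2 * z a :: c) (q * z j)) *
        ((v * lg (q ^ 2 * z a :: c) (q ^ 2 * z a)) *
          ∏ j ∈ s.erase a \ A, v * lg (q ^ 2 * z a :: c) (q ^ 2 * z j)) *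
        ((∏ j ∈ A, gg q (z j) (z a)) *
          ∏ j ∈ A, ∏ k ∈ s.erase a \ A, gg q (z j) (z k))) = 0 := by
    apply Finset.sum_eq_zero
    intro A _
    simp
  rw [h2, add_zero]
  unfold SG
  rw [Finset.mul_sum]
  apply Finset.sum_congr rfl
  intro A hA
  rw [mem_powerset] at hA
  have hsplit : (∏ j ∈ s.erase a, (z j - q * z a) / (z j - q ^ 2 * z a)) =
      (∏ j ∈ A, (z j - q * z a) / (z j - q ^ 2 * z a)) *
      ∏ j ∈ s.erase a \ A, (z j - q * z a) / (z j - q ^ 2 * z a) := by
    rw [← Finset.prod_sdiff hA (f := fun j => (z j - q * z a) / (z j - q ^ 2 * z a)), mul_comm]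
  rw [hsplit]
  have e1 : (∏ j ∈ A, u * lg (q ^ 2 * z a :: c) (q * z j)) =
      (∏ j ∈ A, (z j - q * z a) / (z j - q ^ 2 * z a)) *
        ∏ j ∈ A, u * lg (z a :: c) (q * z j) := by
    rw [← Finset.prod_mul_distrib]
    apply Finset.prod_congr rfl
    intro j hj
    have hne : z j - q ^ 2 * z a ≠ 0 := sub_ne_zero.2 (hz j (hA hj)).2
    rw [lg_cons, lg_cons, div_mul_eq_mul_div, eq_div_iff hne]
    linear_combination (u * lg c (q * z j) * z a * (z j - q * z a)) * q3
  have e2 : (∏ j ∈ s.erase a \ A, v * lg (q ^ 2 * z a :: c) (q ^ 2 * z j)) *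
      (∏ k ∈ s.erase a \ A, gg q (z a) (z k)) =
      (∏ j ∈ s.erase a \ A, (z j - q * z a) / (z j - q ^ 2 * z a)) *
        ∏ j ∈ s.erase a \ A, v * lg (z a :: c) (q ^ 2 * z j) := by
    rw [← Finset.prod_mul_distrib, ← Finset.prod_mul_distrib]
    apply Finset.prod_congr rfl
    intro j hj
    have hj' := (mem_sdiff.1 hj).1
    have hne : z j - q ^ 2 * z a ≠ 0 := sub_ne_zero.2 (hz j hj').2
    have hne1 : z j - z a ≠ 0 := sub_ne_zero.2 (hz j hj').1
    rw [lg_cons, lg_cons, gg, mul_div_assoc', div_mul_eq_mul_div, div_eq_div_iff (mul_ne_zero hne1 hne) hne]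
    linear_combination (v * lg c (q ^ 2 * z j) * (z j - q ^ 2 * z a) * (z j - z a) *
      (z j - q * z a) * z a) * q3
  rw [e1, lg_cons]
  calc _ = (u * ((q ^ 2 * z a - q * z a) * lg c (q * z a))) *
        ((∏ j ∈ A, (z j - q * z a) / (z j - q ^ 2 * z a)) *
        ∏ j ∈ A, u * lg (z a :: c) (q * z j)) *
        ((∏ j ∈ s.erase a \ A, v * lg (q ^ 2 * z a :: c) (q ^ 2 * z j)) *
        (∏ k ∈ s.erase a \ A, gg q (z a) (z k))) *
          ∏ j ∈ A, ∏ k ∈ s.erase a \ A, gg q (z j) (z k) := by ring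
    _ = _ := by rw [e2]; ring

/-- recursion at `c_1 = q z_a`: the leg is replaced by the strand `z_a` -/
theorem SG_rec2 {q u v : K} (hq : q ^ 2 + q + 1 = 0) {s : Finset ι} {a : ι} (ha : a ∈ s)
    (c : List K) (z : ι → K) (hz : ∀ j ∈ s.erase a, z j ≠ z a ∧ z j ≠ q * z a) :
    SG q u v s ((q * z a) :: c) z =
      v * ((q - q ^ 2) * z a) * lg c (q ^ 2 * z a) *
        (∏ j ∈ s.erase a, (z j - q ^ 2 * z a) / (z j - q * z a)) *
        SG q u v (s.erase a) (z a :: c) z := by
  have q3 : q ^ 3 = 1 := by linear_combination (q - 1) * hq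
  rw [SG_split q u v ha]
  have h2 : (∑ A ∈ (s.erase a).powerset, (u * lg (q * z a :: c) (q * z a)) *
        (∏ j ∈ A, u * lg (q * z a :: c) (q * z j)) *
        (∏ j ∈ s.erase a \ A, v * lg (q * z a :: c) (q ^ 2 * z j)) *
        ((∏ k ∈ s.erase a \ A, gg q (z a) (z k)) *
          ∏ j ∈ A, ∏ k ∈ s.erase a \ A, gg q (z j) (z k))) = 0 := by
    apply Finset.sum_eq_zero
    intro A _
    simp
  rw [h2, zero_add]
  unfold SG
  rw [Finset.mul_sum]
  apply Finset.sum_congr rfl
  intro A hA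
  rw [mem_powerset] at hA
  have hsplit : (∏ j ∈ s.erase a, (z j - q ^ 2 * z a) / (z j - q * z a)) =
      (∏ j ∈ A, (z j - q ^ 2 * z a) / (z j - q * z a)) *
      ∏ j ∈ s.erase a \ A, (z j - q ^ 2 * z a) / (z j - q * z a) := by
    rw [← Finset.prod_sdiff hA (f := fun j => (z j - q ^ 2 * z a) / (z j - q * z a)), mul_comm]
  rw [hsplit]
  have e1 : (∏ j ∈ s.erase a \ A, v * lg (q * z a :: c) (q ^ 2 * z j)) =
      (∏ j ∈ s.erase a \ A, (z j - q ^ 2 * z a) / (z j - q * z a)) *
        ∏ j ∈ s.erase a \ A, v * lg (z a :: c) (q ^ 2 * z j) := by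
    rw [← Finset.prod_mul_distrib]
    apply Finset.prod_congr rfl
    intro j hj
    have hj' := (mem_sdiff.1 hj).1
    have hne : z j - q * z a ≠ 0 := sub_ne_zero.2 (hz j hj').2
    rw [lg_cons, lg_cons, div_mul_eq_mul_div, eq_div_iff hne]
    linear_combination (v * lg c (q ^ 2 * z j) * z a * z j * (1 - q)) * q3
  have e2 : (∏ j ∈ A, u * lg (q * z a :: c) (q * z j)) *
      (∏ j ∈ A, gg q (z j) (z a)) =
      (∏ j ∈ A, (z j - q ^ 2 * z a) / (z j - q * z a)) *
        ∏ j ∈ A, u * lg (z a :: c) (q * z j) := by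
    rw [← Finset.prod_mul_distrib, ← Finset.prod_mul_distrib]
    apply Finset.prod_congr rfl
    intro j hj
    have hj' := hA hj
    have hne : z j - q * z a ≠ 0 := sub_ne_zero.2 (hz j hj').2
    have hne1 : z a - z j ≠ 0 := sub_ne_zero.2 (hz j hj').1.symm
    have hne2 : z a - q ^ 2 * z j ≠ 0 := by
      intro h
      apply hne
      linear_combination (-q) * h - z j * q3
    rw [lg_cons, lg_cons, gg, mul_div_assoc', div_mul_eq_mul_div,
      div_eq_div_iff (mul_ne_zero hne1 hne2) hne]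
    linear_combination (u * lg c (q * z j) * z j * z a * (q * (1 - q) * z j ^ 2 +
      (1 - q) * z a ^ 2 + (q ^ 2 - 1) * z j * z a)) * q3
  rw [e1, lg_cons]
  calc _ = (v * ((q * z a - q ^ 2 * z a) * lg c (q ^ 2 * z a))) *
        ((∏ j ∈ A, u * lg (q * z a :: c) (q * z j)) * (∏ j ∈ A, gg q (z j) (z a))) *
        ((∏ j ∈ s.erase a \ A, (z j - q ^ 2 * z a) / (z j - q * z a)) *
        ∏ j ∈ s.erase a \ A, v * lg (z a :: c) (q ^ 2 * z j)) *
          ∏ j ∈ A, ∏ k ∈ s.erase a \ A, gg q (z j) (z k) := by ring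
    _ = _ := by rw [e2]; ring

/-- `SG` as a polynomial in the first leg parameter -/
noncomputable def SGpoly (q u v : K) (s : Finset ι) (c : List K) (z : ι → K) : K[X] :=
  ∑ A ∈ s.powerset, (∏ j ∈ A, C (u * lg c (q * z j)) * (X - C (q * z j))) *
    (∏ j ∈ s \ A, C (v * lg c (q ^ 2 * z j)) * (X - C (q ^ 2 * z j))) *
    C (∏ j ∈ A, ∏ k ∈ s \ A, gg q (z j) (z k))

lemma SGpoly_eval (q u v : K) (s : Finset ι) (c : List K) (z : ι → K) (x : K) :
    (SGpoly q u v s c z).eval x = SG q u v s (x :: c) z := by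
  unfold SGpoly SG
  rw [eval_finsetSum]
  apply Finset.sum_congr rfl
  intro A _
  simp only [eval_mul, eval_C, eval_prod, eval_sub, eval_X, lg_cons]
  congr 2
  · apply Finset.prod_congr rfl; intro j _; ring
  · apply Finset.prod_congr rfl; intro j _; ring

lemma SGpoly_natDegree (q u v : K) (s : Finset ι) (c : List K) (z : ι → K) :
    (SGpoly q u v s c z).natDegree ≤ s.card := by
  unfold SGpoly
  apply natDegree_sum_le_of_forall_le
  intro A hA
  rw [mem_powerset] at hA
  have hb : ∀ (T : Finset ι) (f g : ι → K),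
      (∏ j ∈ T, C (f j) * (X - C (g j))).natDegree ≤ T.card := by
    intro T f g
    refine (natDegree_prod_le _ _).trans ?_
    rw [Finset.card_eq_sum_ones]
    apply Finset.sum_le_sum
    intro j _
    refine (natDegree_C_mul_le _ _).trans ?_
    exact natDegree_X_sub_C_le _
  refine (natDegree_mul_le).trans ?_
  rw [natDegree_C, add_zero]
  refine (natDegree_mul_le).trans ?_
  have h1 := hb A (fun j => u * lg c (q * z j)) (fun j => q * z j)
  have h2 := hb (s \ A) (fun j => v * lg c (q ^ 2 * z j)) (fun j => q ^ 2 * z j)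
  have h3 : A.card + (s \ A).card = s.card := by
    rw [Finset.card_sdiff_of_subset hA]
    have := Finset.card_le_card hA
    omega
  simp only at h1 h2
  omega

end Pool.Agent.H96.EX

end

section

/-!
# Divisibility of antisymmetric polynomials by a Vandermonde product
-/

namespace Pool.Agent.H34.Hom

open MvPolynomial

variable {σ : Type*}

lemma dvd_of_vanish [DecidableEq σ] (P : MvPolynomial σ ℂ) (a b : σ)
    (hP : ∀ z : σ → ℂ, z a = z b → eval z P = 0) : (X a - X b : MvPolynomial σ ℂ) ∣ P := by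
  set φ : MvPolynomial σ ℂ →ₐ[ℂ] MvPolynomial σ ℂ := aeval (fun i => if i = a then X b else X i) with hφ
  have h0 : φ P = 0 := by
    apply MvPolynomial.funext
    intro z
    rw [map_zero, hφ]
    have h1 : eval z (aeval (fun i => if i = a then X b else (X i : MvPolynomial σ ℂ)) P) =
        eval (fun i => if i = a then z b else z i) P := by
      have h1' : ((aeval z : MvPolynomial σ ℂ →ₐ[ℂ] ℂ).comp
          (aeval (fun i => if i = a then X b else (X i : MvPolynomial σ ℂ)))) =
          aeval (fun i => if i = a then z b else z i) := by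
        apply MvPolynomial.algHom_ext
        intro i
        rw [AlgHom.comp_apply, aeval_X, aeval_X]
        by_cases hi : i = a
        · rw [if_pos hi, if_pos hi, aeval_X]
        · rw [if_neg hi, if_neg hi, aeval_X]
      have h1'' := DFunLike.congr_fun h1' P
      exact h1''
    rw [h1]
    apply hP
    by_cases hb : b = a <;> simp [hb]
  set I : Ideal (MvPolynomial σ ℂ) := Ideal.span {X a - X b} with hI
  have h2 : ((Ideal.Quotient.mkₐ ℂ I).comp φ) = Ideal.Quotient.mkₐ ℂ I := by
    apply MvPolynomial.algHom_ext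
    intro i
    rw [AlgHom.comp_apply, hφ, aeval_X]
    by_cases hi : i = a
    · rw [if_pos hi, hi]
      rw [Ideal.Quotient.mkₐ_eq_mk, Ideal.Quotient.eq]
      rw [hI, Ideal.mem_span_singleton]
      exact ⟨-1, by ring⟩
    · rw [if_neg hi]
  have h3 : Ideal.Quotient.mkₐ ℂ I P = 0 := by
    rw [← h2, AlgHom.comp_apply, h0, map_zero]
  rw [Ideal.Quotient.mkₐ_eq_mk, Ideal.Quotient.eq_zero_iff_mem, hI, Ideal.mem_span_singleton] at h3
  exact h3

lemma irreducible_X_sub_X [DecidableEq σ] (a b : σ) (hab : a ≠ b) :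
    Irreducible (X a - X b : MvPolynomial σ ℂ) := by
  have h := irreducible_sumSMulX (n := σ) (R := ℂ) (Finsupp.single a 1 - Finsupp.single b 1) ?_ ?_
  · have e : sumSMulX (Finsupp.single a (1:ℂ) - Finsupp.single b 1) = (X a - X b : MvPolynomial σ ℂ) := by
      simp [sumSMulX, map_sub, Finsupp.linearCombination_single]
    rwa [e] at h
  · refine ⟨a, ?_⟩
    rw [Finsupp.mem_support_iff]
    simp [hab]
  · intro r hr
    have := hr a
    simp [hab] at this
    exact isUnit_iff_ne_zero.2 this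

lemma not_dvd_X_sub_X [DecidableEq σ] (a b c d : σ) (hcd : c ≠ d)
    (h : ¬((c = a ∧ d = b) ∨ (c = b ∧ d = a))) :
    ¬ (X a - X b : MvPolynomial σ ℂ) ∣ (X c - X d) := by
  rintro ⟨Q, hQ⟩
  have key : ∀ z : σ → ℂ, z a = z b → z c = z d := by
    intro z hz
    have h1 := congrArg (eval z) hQ
    simp only [map_sub, map_mul, eval_X] at h1
    rw [hz, sub_self, zero_mul, sub_eq_zero] at h1
    exact h1
  by_cases hc : c = a ∨ c = b
  · have hd1 : d ≠ a := by
      rintro rfl
      rcases hc with rfl | rfl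
      · exact hcd rfl
      · exact h (Or.inr ⟨rfl, rfl⟩)
    have hd2 : d ≠ b := by
      rintro rfl
      rcases hc with rfl | rfl
      · exact h (Or.inl ⟨rfl, rfl⟩)
      · exact hcd rfl
    have := key (fun i => if i = d then 1 else 0) (by simp [hd1.symm, hd2.symm])
    simp [hcd] at this
  · push Not at hc
    have := key (fun i => if i = c then 1 else 0) (by simp [hc.1.symm, hc.2.symm])
    simp [hcd.symm] at this

lemma prod_dvd_of_vanish [DecidableEq σ] (P : MvPolynomial σ ℂ) (T : Finset (σ × σ))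
    (h1 : ∀ x ∈ T, x.1 ≠ x.2) (h2 : ∀ x ∈ T, (x.2, x.1) ∉ T)
    (hP : ∀ x ∈ T, ∀ z : σ → ℂ, z x.1 = z x.2 → eval z P = 0) :
    (∏ x ∈ T, (X x.1 - X x.2 : MvPolynomial σ ℂ)) ∣ P := by
  apply Finset.prod_dvd_of_isRelPrime
  · intro x hx y hy hxy
    rw [Function.onFun]
    rw [(irreducible_X_sub_X x.1 x.2 (h1 x hx)).isRelPrime_iff_not_dvd]
    apply not_dvd_X_sub_X _ _ _ _ (h1 y hy)
    rintro (⟨e1, e2⟩ | ⟨e1, e2⟩)
    · exact hxy (Prod.ext e1.symm e2.symm)
    · apply h2 x hx
      have : (x.2, x.1) = y := Prod.ext e1.symm e2.symm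
      rw [this]; exact hy
  · intro x hx
    exact dvd_of_vanish P _ _ (hP x hx)

end Pool.Agent.H34.Hom

end

section

/-!
# `∏_{j<k} (z_j² + z_j z_k + z_k²) · SG` is a polynomial
-/

namespace Pool.Agent.H34.Hom

open Finset MvPolynomial Pool.Agent.H96.EX

/-- pairwise distinct cubes -/
def Gen (M : ℕ) (z : ℕ → ℂ) : Prop := ∀ j < M, ∀ k < M, j ≠ k → z j ^ 3 ≠ z k ^ 3

lemma pp_mul {R : Type*} [CommMonoid R] (M : ℕ) (F G : ℕ → ℕ → R) :
    pp M (fun j k => F j k * G j k) = pp M F * pp M G := by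
  unfold pp
  simp only [prod_mul_distrib]

lemma pp_congr {R : Type*} [CommMonoid R] (M : ℕ) (F G : ℕ → ℕ → R)
    (h : ∀ j k, j < k → k < M → F j k = G j k) : pp M F = pp M G := by
  unfold pp
  apply prod_congr rfl
  intro k hk
  apply prod_congr rfl
  intro j hj
  exact h j k (mem_range.1 hj) (mem_range.1 hk)

lemma pp_symm {R : Type*} [CommMonoid R] (M : ℕ) (G : ℕ → ℕ → R) :
    pp M (fun j k => G j k * G k j) * ∏ j ∈ range M, G j j =
      ∏ j ∈ range M, ∏ k ∈ range M, G j k := by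
  unfold pp
  induction M with
  | zero => simp
  | succ M ih =>
    rw [prod_range_succ, prod_range_succ, prod_range_succ (fun j => ∏ k ∈ range (M + 1), G j k)]
    simp only [prod_range_succ (fun k => G _ k)]
    rw [prod_mul_distrib (f := fun x => ∏ k ∈ range M, G x k), ← ih, prod_mul_distrib (s := range M)]
    simp only []
    ac_rfl

lemma pp_ne_zero {R : Type*} [CommRing R] [IsDomain R] (M : ℕ) (F : ℕ → ℕ → R)
    (h : ∀ j k, j < k → k < M → F j k ≠ 0) : pp M F ≠ 0 := by
  unfold pp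
  rw [prod_ne_zero_iff]
  intro k hk
  rw [prod_ne_zero_iff]
  intro j hj
  exact h j k (mem_range.1 hj) (mem_range.1 hk)

/-- the product of `z_j² + z_j z_k + z_k²` over pairs -/
noncomputable def PM (M : ℕ) (z : ℕ → ℂ) : ℂ := pp M fun j k => z j ^ 2 + z j * z k + z k ^ 2

noncomputable def VM (M : ℕ) (z : ℕ → ℂ) : ℂ := pp M fun j k => z k - z j

noncomputable def V3 (M : ℕ) (z : ℕ → ℂ) : ℂ := pp M fun j k => z k ^ 3 - z j ^ 3

lemma V3_eq (M : ℕ) (z : ℕ → ℂ) : V3 M z = VM M z * PM M z := by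
  unfold V3 VM PM
  rw [← pp_mul]
  apply pp_congr
  intro j k _ _
  ring

lemma V3_ne_zero {M : ℕ} {z : ℕ → ℂ} (hz : Gen M z) : V3 M z ≠ 0 := by
  apply pp_ne_zero
  intro j k hjk hk
  exact sub_ne_zero.2 (hz k hk j (by omega) (by omega))

lemma gen_of_V3_ne_zero {M : ℕ} {z : ℕ → ℂ} (h : V3 M z ≠ 0) : Gen M z := by
  have key : ∀ j k, j < k → k < M → z k ^ 3 - z j ^ 3 ≠ 0 := by
    intro j k hjk hk h0
    apply h
    unfold V3 pp
    apply prod_eq_zero (mem_range.2 hk)
    exact prod_eq_zero (mem_range.2 hjk) h0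
  intro j hj k hk hjk
  rcases Nat.lt_or_gt_of_ne hjk with h1 | h1
  · intro e; exact key j k h1 hk (by rw [e]; ring)
  · intro e; exact key k j h1 hj (by rw [e]; ring)

lemma V3_det (M : ℕ) (z : ℕ → ℂ) :
    V3 M z = (Matrix.vandermonde (fun i : Fin M => z i ^ 3)).det := by
  rw [Matrix.det_vandermonde]
  rw [Finset.prod_comm' (t' := Finset.univ) (s' := fun j => Finset.Iio j)
    (by intro i j; simp)]
  unfold V3 pp
  rw [Finset.prod_range]
  apply prod_congr rfl
  intro k _
  have h := Fin.map_valEmbedding_Iio k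
  rw [← Nat.Iio_eq_range, ← h, prod_map]
  rfl

lemma V3_swap {M : ℕ} (z : ℕ → ℂ) {a b : ℕ} (ha : a < M) (hb : b < M) (hab : a ≠ b) :
    V3 M (z ∘ Equiv.swap a b) = - V3 M z := by
  rw [V3_det, V3_det]
  set τ : Equiv.Perm (Fin M) := Equiv.swap ⟨a, ha⟩ ⟨b, hb⟩ with hτ
  have h1 : (Matrix.vandermonde (fun i : Fin M => (z ∘ Equiv.swap a b) i ^ 3)) =
      (Matrix.vandermonde (fun i : Fin M => z i ^ 3)).submatrix τ id := by
    ext i j
    simp only [Matrix.vandermonde_apply, Matrix.submatrix_apply, Function.comp, id]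
    congr 3
    rw [hτ]
    rcases eq_or_ne (i : ℕ) a with h | h
    · have : i = ⟨a, ha⟩ := Fin.ext h
      rw [this]; simp
    · rcases eq_or_ne (i : ℕ) b with h' | h'
      · have : i = ⟨b, hb⟩ := Fin.ext h'
        rw [this]; simp
      · rw [Equiv.swap_apply_of_ne_of_ne h h', Equiv.swap_apply_of_ne_of_ne]
        · intro e; exact h (congrArg Fin.val e)
        · intro e; exact h' (congrArg Fin.val e)
  rw [h1, Matrix.det_permute, hτ, Equiv.Perm.sign_swap]
  · simp
  · intro e; exact hab (congrArg Fin.val e)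

lemma SG_comp_perm (q u v : ℂ) {s : Finset ℕ} (c : List ℂ) (z : ℕ → ℂ) (τ : Equiv.Perm ℕ)
    (hs : s.map τ.toEmbedding = s) : SG q u v s c (z ∘ τ) = SG q u v s c z := by
  unfold SG
  refine Finset.sum_bij (fun A _ => A.map τ.toEmbedding) ?_ ?_ ?_ ?_
  · intro A hA
    rw [mem_powerset] at hA ⊢
    rw [← hs]
    exact Finset.map_subset_map.2 hA
  · intro A _ B _ h
    exact Finset.map_injective _ h
  · intro B hB
    rw [mem_powerset] at hB
    refine ⟨B.map τ.symm.toEmbedding, ?_, ?_⟩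
    · rw [mem_powerset]
      intro x hx
      rw [Finset.mem_map] at hx
      obtain ⟨y, hy, rfl⟩ := hx
      have := hB hy
      rw [← hs, Finset.mem_map] at this
      obtain ⟨x', hx', hxy⟩ := this
      have : τ.symm.toEmbedding y = x' := by
        rw [← hxy]; simp
      rw [this]; exact hx'
    · ext x
      simp
  · intro A hA
    have h1 : s \ A.map τ.toEmbedding = (s \ A).map τ.toEmbedding := by
      rw [Finset.map_sdiff, hs]
    rw [h1]
    simp only [prod_map, Equiv.toEmbedding_apply, Function.comp_apply]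

lemma map_swap_range {M a b : ℕ} (ha : a < M) (hb : b < M) :
    (range M).map (Equiv.swap a b).toEmbedding = range M := by
  apply Finset.eq_of_subset_of_card_le
  · intro x hx
    rw [Finset.mem_map] at hx
    obtain ⟨y, hy, rfl⟩ := hx
    rw [mem_range] at hy ⊢
    simp only [Equiv.toEmbedding_apply]
    rcases eq_or_ne y a with rfl | h
    · rw [Equiv.swap_apply_left]; exact hb
    · rcases eq_or_ne y b with rfl | h'
      · rw [Equiv.swap_apply_right]; exact ha
      · rw [Equiv.swap_apply_of_ne_of_ne h h']; exact hy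
  · rw [Finset.card_map]

section poly

variable {κ : Type*}

noncomputable def Cv (a : κ) : MvPolynomial (κ ⊕ ℕ) ℂ := X (Sum.inl a)

/-- evaluation point -/
def pt (y : κ → ℂ) (z : ℕ → ℂ) : κ ⊕ ℕ → ℂ := Sum.elim y z

@[simp] lemma eval_Z (y : κ → ℂ) (z : ℕ → ℂ) (j : ℕ) : eval (pt y z) (Z j) = z j := by
  simp [Z, pt]

@[simp] lemma eval_Cv (y : κ → ℂ) (z : ℕ → ℂ) (a : κ) : eval (pt y z) (Cv a) = y a := by
  simp [Cv, pt]

noncomputable def Npoly (q u v : ℂ) (M : ℕ) (l : List κ) : MvPolynomial (κ ⊕ ℕ) ℂ :=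
  ∑ A ∈ (range M).powerset,
    (∏ j ∈ A, C u * (l.map fun a => Cv a - C q * Z j).prod) *
    (∏ j ∈ range M \ A, C v * (l.map fun a => Cv a - C (q ^ 2) * Z j).prod) *
    pp M (hA q A)

lemma eval_list_prod (y : κ → ℂ) (z : ℕ → ℂ) (l : List κ) (w : ℂ) (j : ℕ) :
    eval (pt y z) ((l.map fun a => Cv a - C w * Z j).prod) = lg (l.map y) (w * z j) := by
  induction l with
  | nil => simp
  | cons a l ih => simp [ih]

lemma eval_pp (y : κ → ℂ) (z : ℕ → ℂ) (M : ℕ) (F : ℕ → ℕ → MvPolynomial (κ ⊕ ℕ) ℂ) :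
    eval (pt y z) (pp M F) = pp M (fun j k => eval (pt y z) (F j k)) := by
  unfold pp
  simp only [map_prod]

lemma prod_prod_ite (M : ℕ) (A : Finset ℕ) (hA : A ⊆ range M) (F : ℕ → ℕ → ℂ) :
    ∏ j ∈ range M, ∏ k ∈ range M, (if j ∈ A ∧ k ∉ A then F j k else 1) =
      ∏ j ∈ A, ∏ k ∈ range M \ A, F j k := by
  rw [← prod_subset hA]
  · apply prod_congr rfl
    intro j hj
    rw [← prod_subset (s₁ := range M \ A) (s₂ := range M) sdiff_subset]
    · apply prod_congr rfl
      intro k hk
      rw [if_pos ⟨hj, (mem_sdiff.1 hk).2⟩]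
    · intro k hk hk'
      rw [if_neg]
      rintro ⟨_, h⟩
      exact hk' (mem_sdiff.2 ⟨hk, h⟩)
  · intro j _ hj
    apply prod_eq_one
    intro k _
    rw [if_neg]
    rintro ⟨h, _⟩
    exact hj h

theorem eval_Npoly (q u v : ℂ) (hq : q ^ 2 + q + 1 = 0) (M : ℕ) (l : List κ) (y : κ → ℂ)
    (z : ℕ → ℂ) (hz : Gen M z) :
    eval (pt y z) (Npoly q u v M l) = V3 M z * SG q u v (range M) (l.map y) z := by
  have q3 : q ^ 3 = 1 := by linear_combination (q - 1) * hq
  unfold Npoly SG
  rw [map_sum, mul_sum]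
  apply sum_congr rfl
  intro A hAM
  rw [mem_powerset] at hAM
  rw [map_mul, map_mul, map_prod, map_prod, eval_pp]
  simp only [map_mul, eval_C, eval_list_prod]
  have h1 : pp M (fun j k => eval (pt y z) (hA q A j k)) =
      V3 M z * ∏ j ∈ A, ∏ k ∈ range M \ A, gg q (z j) (z k) := by
    rw [← prod_prod_ite M A hAM]
    have h2 := pp_symm M (fun j k => if j ∈ A ∧ k ∉ A then gg q (z j) (z k) else 1)
    have h3 : ∏ j ∈ range M, (if j ∈ A ∧ j ∉ A then gg q (z j) (z j) else 1) = 1 := by
      apply prod_eq_one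
      intro j _
      rw [if_neg]
      rintro ⟨h, h'⟩; exact h' h
    rw [h3, mul_one] at h2
    rw [← h2]
    unfold V3
    rw [← pp_mul]
    apply pp_congr
    intro j k hjk hk
    have hne : z k ^ 3 ≠ z j ^ 3 := hz k hk j (by omega) (by omega)
    have hfac : z k ^ 3 - z j ^ 3 = (z k - z j) * (z k - q * z j) * (z k - q ^ 2 * z j) := by
      linear_combination (z k ^ 2 * z j - q * z k * z j ^ 2) * hq + z j ^ 3 * q3
    have hp : (z k - z j) * (z k - q * z j) * (z k - q ^ 2 * z j) ≠ 0 := by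
      rw [← hfac]; exact sub_ne_zero.2 hne
    have hp1 : z k - z j ≠ 0 := fun h => hp (by rw [h]; ring)
    have hp2 : z k - q * z j ≠ 0 := fun h => hp (by rw [h]; ring)
    have hp3 : z k - q ^ 2 * z j ≠ 0 := fun h => hp (by rw [h]; ring)
    unfold hA
    by_cases hj : j ∈ A <;> by_cases hk' : k ∈ A
    · simp [hj, hk']
    · simp only [hj, hk', if_true, if_false, not_false_eq_true, and_self, not_true_eq_false,
        and_false, false_and, mul_one, map_pow, map_sub, map_mul, eval_Z, eval_C]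
      rw [hfac, gg]
      field_simp
    · simp only [hj, hk', if_true, if_false, not_false_eq_true, and_self, not_true_eq_false,
        and_false, false_and, one_mul, map_neg, map_pow, map_sub, map_mul, eval_Z, eval_C]
      have hp4 : z j - z k ≠ 0 := fun h => hp1 (by linear_combination -h)
      have hp5 : z j - q ^ 2 * z k ≠ 0 := fun h => hp2 (by linear_combination (-q) * h - z k * q3)
      have hfac' : z k ^ 3 - z j ^ 3 = -((z j - z k) * (z j - q * z k) * (z j - q ^ 2 * z k)) := by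
        linear_combination -(z j ^ 2 * z k - q * z j * z k ^ 2) * hq - z k ^ 3 * q3
      rw [gg, hfac']
      field_simp
    · simp [hj, hk']
  rw [h1]
  ring

lemma V3poly_exists (M : ℕ) : ∃ P : MvPolynomial (κ ⊕ ℕ) ℂ, P ≠ 0 ∧
    ∀ (y : κ → ℂ) (z : ℕ → ℂ), eval (pt y z) P = V3 M z := by
  refine ⟨pp M (fun j k => Z k ^ 3 - Z j ^ 3), ?_, ?_⟩
  · intro h
    have h1 : eval (pt (fun _ : κ => (0 : ℂ)) (fun n => (n : ℂ))) (pp M (fun j k => Z k ^ 3 - Z j ^ 3)) = 0 := by
      rw [h, map_zero]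
    rw [eval_pp] at h1
    revert h1
    apply pp_ne_zero
    intro j k hjk _
    simp only [map_sub, map_pow, eval_Z]
    rw [sub_ne_zero]
    have : (k ^ 3 : ℕ) ≠ j ^ 3 := by
      intro e
      exact (Nat.pow_lt_pow_left hjk (by norm_num : (3 : ℕ) ≠ 0)).ne e.symm
    exact_mod_cast this
  · intro y z
    rw [eval_pp]
    unfold V3
    simp

lemma VMpoly (M : ℕ) (y : κ → ℂ) (z : ℕ → ℂ) :
    eval (pt y z) (pp M (fun j k => Z k - Z j)) = VM M z := by
  rw [eval_pp]
  unfold VM
  simp

/-- polynomials agreeing at generic points are equal -/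
lemma eq_of_gen (M : ℕ) (P Q : MvPolynomial (κ ⊕ ℕ) ℂ)
    (h : ∀ (y : κ → ℂ) (z : ℕ → ℂ), Gen M z → eval (pt y z) P = eval (pt y z) Q) : P = Q := by
  obtain ⟨V, hV0, hV⟩ := V3poly_exists (κ := κ) M
  have h1 : (P - Q) * V = 0 := by
    apply MvPolynomial.funext
    intro w
    have hw : w = pt (fun a => w (Sum.inl a)) (fun j => w (Sum.inr j)) := by
      funext x; cases x <;> rfl
    rw [hw, map_mul, map_zero, map_sub]
    rcases eq_or_ne (V3 M (fun j => w (Sum.inr j))) 0 with h0 | h0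
    · rw [hV, h0, mul_zero]
    · rw [h _ _ (gen_of_V3_ne_zero h0), sub_self, zero_mul]
  rcases mul_eq_zero.1 h1 with h2 | h2
  · exact sub_eq_zero.1 h2
  · exact absurd h2 hV0

theorem Npoly_vanish (q u v : ℂ) (hq : q ^ 2 + q + 1 = 0) (M : ℕ) (l : List κ) (a b : ℕ)
    (ha : a < M) (hb : b < M) (hab : a ≠ b) (w : κ ⊕ ℕ → ℂ)
    (hw : w (Sum.inr a) = w (Sum.inr b)) : eval w (Npoly q u v M l) = 0 := by
  set σ : Equiv.Perm ℕ := Equiv.swap a b with hσ
  have h1 : rename (Sum.map id σ) (Npoly q u v M l) = - Npoly q u v M l := by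
    apply eq_of_gen M
    intro y z hz
    rw [eval_rename]
    have e1 : pt y z ∘ Sum.map id σ = pt y (z ∘ σ) := by
      funext x; cases x <;> rfl
    have hz' : Gen M (z ∘ σ) := by
      apply gen_of_V3_ne_zero
      rw [hσ, V3_swap z ha hb hab]
      exact neg_ne_zero.2 (V3_ne_zero hz)
    rw [e1, eval_Npoly q u v hq M l y _ hz', map_neg, eval_Npoly q u v hq M l y _ hz,
      hσ, V3_swap z ha hb hab, SG_comp_perm _ _ _ _ _ _ (map_swap_range ha hb)]
    ring
  have h2 := congrArg (eval w) h1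
  rw [eval_rename, map_neg] at h2
  have e2 : w ∘ Sum.map id σ = w := by
    funext x
    cases x with
    | inl x => rfl
    | inr x =>
      simp only [Function.comp_apply, Sum.map_inr]
      rcases eq_or_ne x a with h | h
      · rw [h, hσ, Equiv.swap_apply_left]; exact hw.symm
      · rcases eq_or_ne x b with h' | h'
        · rw [h', hσ, Equiv.swap_apply_right]; exact hw
        · rw [hσ, Equiv.swap_apply_of_ne_of_ne h h']
  rw [e2] at h2
  have h3 : (2 : ℂ) * eval w (Npoly q u v M l) = 0 := by linear_combination h2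
  rcases mul_eq_zero.1 h3 with h4 | h4
  · norm_num at h4
  · exact h4

/-- **Polynomiality**: `PM · SG` is a polynomial in the legs and the strands. -/
theorem SG_ext [DecidableEq κ] (q u v : ℂ) (hq : q ^ 2 + q + 1 = 0) (M : ℕ) (l : List κ) :
    ∃ P : MvPolynomial (κ ⊕ ℕ) ℂ, ∀ (y : κ → ℂ) (z : ℕ → ℂ), Gen M z →
      eval (pt y z) P = PM M z * SG q u v (range M) (l.map y) z := by
  classical
  set T : Finset ((κ ⊕ ℕ) × (κ ⊕ ℕ)) :=
    ((range M ×ˢ range M).filter (fun x => x.1 < x.2)).image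
      (fun x => ((Sum.inr x.2 : κ ⊕ ℕ), (Sum.inr x.1 : κ ⊕ ℕ))) with hT
  have hmem : ∀ x ∈ T, ∃ j k : ℕ, j < k ∧ k < M ∧ x = (Sum.inr k, Sum.inr j) := by
    intro x hx
    rw [hT, mem_image] at hx
    obtain ⟨⟨j, k⟩, hjk, rfl⟩ := hx
    rw [mem_filter, mem_product, mem_range, mem_range] at hjk
    exact ⟨j, k, hjk.2, hjk.1.2, rfl⟩
  have hdvd := prod_dvd_of_vanish (Npoly q u v M l) T
    (by
      intro x hx
      obtain ⟨j, k, hjk, _, rfl⟩ := hmem x hx
      intro e
      have := Sum.inr.inj e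
      omega)
    (by
      intro x hx hx'
      obtain ⟨j, k, hjk, _, rfl⟩ := hmem x hx
      obtain ⟨j', k', hjk', _, e⟩ := hmem _ hx'
      have e1 := Sum.inr.inj (Prod.ext_iff.1 e).1
      have e2 := Sum.inr.inj (Prod.ext_iff.1 e).2
      omega)
    (by
      intro x hx w hw
      obtain ⟨j, k, hjk, hk, rfl⟩ := hmem x hx
      exact Npoly_vanish q u v hq M l k j hk (by omega) (by omega) w hw)
  have hprod : (∏ x ∈ T, (X x.1 - X x.2 : MvPolynomial (κ ⊕ ℕ) ℂ)) = pp M (fun j k => Z k - Z j) := by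
    rw [hT, prod_image, prod_filter, prod_product]
    · unfold pp
      rw [prod_comm]
      apply prod_congr rfl
      intro k hk
      rw [← prod_filter]
      apply prod_congr
      · ext j
        rw [mem_filter, mem_range, mem_range]
        rw [mem_range] at hk
        omega
      · intro j _; rfl
    · intro x _ y _ hxy
      have e1 := Sum.inr.inj (Prod.ext_iff.1 hxy).1
      have e2 := Sum.inr.inj (Prod.ext_iff.1 hxy).2
      exact Prod.ext e2 e1
  rw [hprod] at hdvd
  obtain ⟨P, hP⟩ := hdvd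
  refine ⟨P, ?_⟩
  intro y z hz
  have h1 := eval_Npoly q u v hq M l y z hz
  rw [hP, map_mul, VMpoly, V3_eq] at h1
  have h2 : VM M z ≠ 0 := by
    intro h
    apply V3_ne_zero hz
    rw [V3_eq, h, zero_mul]
  apply mul_left_cancel₀ h2
  rw [h1]; ring

end poly

end Pool.Agent.H34.Hom

end

section

/-!
# Homogeneous limits of the leg sums, and coefficientwise limits of polynomials
-/

namespace Pool.Agent.H34.Hom

open Finset Polynomial Pool.Agent.H96.EX Filter Topology

/-- the path of parameters towards the homogeneous point -/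
noncomputable def zt (t : ℝ) (j : ℕ) : ℂ := 1 + (j : ℂ) * (t : ℂ)

lemma zt_eq (t : ℝ) (j : ℕ) : zt t j = ((1 + j * t : ℝ) : ℂ) := by
  unfold zt; push_cast; ring

lemma gen_zt (M : ℕ) {t : ℝ} (ht : 0 < t) : Gen M (zt t) := by
  intro j _ k _ hjk h
  rw [zt_eq, zt_eq] at h
  have h1 : (1 + (j : ℝ) * t) ^ 3 = (1 + (k : ℝ) * t) ^ 3 := by exact_mod_cast h
  have h2 : (1 + (j : ℝ) * t) = (1 + (k : ℝ) * t) := by
    have hodd : Odd 3 := by decide
    exact (Odd.strictMono_pow hodd).injective h1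
  have h3 : ((j : ℝ) - k) * t = 0 := by linear_combination h2
  rcases mul_eq_zero.1 h3 with h4 | h4
  · apply hjk
    have : (j : ℝ) = k := by linarith only [h4]
    exact_mod_cast this
  · exact ht.ne' h4

lemma zt_ne_zero {t : ℝ} (ht : 0 < t) (j : ℕ) : zt t j ≠ 0 := by
  rw [zt_eq]
  have : (0 : ℝ) < 1 + j * t := by positivity
  exact_mod_cast this.ne'

lemma tendsto_zt (j : ℕ) : Tendsto (fun t : ℝ => zt t j) (𝓝[>] 0) (𝓝 1) := by
  have h : Continuous (fun t : ℝ => zt t j) := by unfold zt; fun_prop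
  have h2 := (h.tendsto 0).mono_left (nhdsWithin_le_nhds (s := Set.Ioi 0))
  simpa [zt] using h2

/-- leg sum times the pair product -/
noncomputable def SS (q u v : ℂ) (M : ℕ) (c : List ℂ) (z : ℕ → ℂ) : ℂ :=
  PM M z * SG q u v (range M) c z

theorem exists_HV {q : ℂ} (u v : ℂ) (hq : q ^ 2 + q + 1 = 0) (M : ℕ) (c : List ℂ) :
    ∃ x : ℂ, Tendsto (fun t : ℝ => SS q u v M c (zt t)) (𝓝[>] 0) (𝓝 x) := by
  classical
  obtain ⟨P, hP⟩ := SG_ext (κ := ℂ) q u v hq M c
  refine ⟨MvPolynomial.eval (pt id (fun _ => 1)) P, ?_⟩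
  have h1 : Tendsto (fun t : ℝ => MvPolynomial.eval (pt id (zt t)) P) (𝓝[>] 0)
      (𝓝 (MvPolynomial.eval (pt id (fun _ => 1)) P)) := by
    apply (MvPolynomial.continuous_eval P).continuousAt.tendsto.comp
    rw [tendsto_pi_nhds]
    intro x
    cases x with
    | inl x => exact tendsto_const_nhds
    | inr x => exact tendsto_zt x
  refine h1.congr' ?_
  filter_upwards [self_mem_nhdsWithin] with t ht
  rw [hP id (zt t) (gen_zt M ht), List.map_id]
  rfl

/-- homogeneous value of the leg sum -/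
noncomputable def HV (q u v : ℂ) (M : ℕ) (c : List ℂ) : ℂ :=
  limUnder (𝓝[>] (0 : ℝ)) (fun t : ℝ => SS q u v M c (zt t))

theorem tendsto_HV {q : ℂ} (u v : ℂ) (hq : q ^ 2 + q + 1 = 0) (M : ℕ) (c : List ℂ) :
    Tendsto (fun t : ℝ => SS q u v M c (zt t)) (𝓝[>] 0) (𝓝 (HV q u v M c)) := by
  obtain ⟨x, hx⟩ := exists_HV u v hq M c
  have := hx.limUnder_eq
  unfold HV
  rw [this]; exact hx

/-- joint limit: legs and strands tend to the homogeneous point along any generic path -/
theorem tendsto_HV' {κ : Type*} {q : ℂ} (u v : ℂ) (hq : q ^ 2 + q + 1 = 0) (M : ℕ) (l : List κ)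
    {F : Filter ℝ} (y : ℝ → κ → ℂ) (y0 : κ → ℂ) (hy : ∀ a, Tendsto (fun t => y t a) F (𝓝 (y0 a)))
    (z : ℝ → ℕ → ℂ) (hz : ∀ j, Tendsto (fun t => z t j) F (𝓝 1)) (hg : ∀ᶠ t in F, Gen M (z t)) :
    Tendsto (fun t : ℝ => SS q u v M (l.map (y t)) (z t)) F (𝓝 (HV q u v M (l.map y0))) := by
  classical
  obtain ⟨P, hP⟩ := SG_ext (κ := κ) q u v hq M l
  have h1 : Tendsto (fun t : ℝ => MvPolynomial.eval (pt (y t) (z t)) P) F
      (𝓝 (MvPolynomial.eval (pt y0 (fun _ => 1)) P)) := by
    apply (MvPolynomial.continuous_eval P).continuousAt.tendsto.comp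
    rw [tendsto_pi_nhds]
    intro x
    cases x with
    | inl x => exact hy x
    | inr x => exact hz x
  have h2 : Tendsto (fun t : ℝ => MvPolynomial.eval (pt y0 (zt t)) P) (𝓝[>] 0)
      (𝓝 (MvPolynomial.eval (pt y0 (fun _ => 1)) P)) := by
    apply (MvPolynomial.continuous_eval P).continuousAt.tendsto.comp
    rw [tendsto_pi_nhds]
    intro x
    cases x with
    | inl x => exact tendsto_const_nhds
    | inr x => exact tendsto_zt x
  have h3 : MvPolynomial.eval (pt y0 (fun _ => 1)) P = HV q u v M (l.map y0) := by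
    refine tendsto_nhds_unique h2 ?_
    refine (tendsto_HV u v hq M (l.map y0)).congr' ?_
    filter_upwards [self_mem_nhdsWithin] with t ht
    rw [hP y0 (zt t) (gen_zt M ht)]
    rfl
  rw [← h3]
  refine h1.congr' ?_
  filter_upwards [hg] with t ht
  rw [hP (y t) (z t) ht]
  rfl

/-! ### coefficientwise limits -/

lemma CT.sub {F : Filter ℝ} {p r : ℝ → ℂ[X]} {P R : ℂ[X]} (h1 : CT F p P) (h2 : CT F r R) :
    CT F (fun t => p t - r t) (P - R) := by
  intro k
  simp only [coeff_sub]
  exact (h1 k).sub (h2 k)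

lemma CT.mul {F : Filter ℝ} {p r : ℝ → ℂ[X]} {P R : ℂ[X]} (h1 : CT F p P) (h2 : CT F r R) :
    CT F (fun t => p t * r t) (P * R) := by
  intro k
  simp only [coeff_mul]
  apply tendsto_finsetSum
  intro x _
  exact (h1 x.1).mul (h2 x.2)

lemma CT.const (F : Filter ℝ) (P : ℂ[X]) : CT F (fun _ => P) P := fun _ => tendsto_const_nhds

lemma CT.pow {F : Filter ℝ} {p : ℝ → ℂ[X]} {P : ℂ[X]} (h1 : CT F p P) (n : ℕ) :
    CT F (fun t => p t ^ n) (P ^ n) := by
  induction n with
  | zero => simpa using CT.const F 1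
  | succ n ih =>
    simp only [pow_succ]
    exact ih.mul h1

lemma CT.prod {F : Filter ℝ} {ι : Type*} (s : Finset ι) {p : ι → ℝ → ℂ[X]} {P : ι → ℂ[X]}
    (h : ∀ i ∈ s, CT F (p i) (P i)) : CT F (fun t => ∏ i ∈ s, p i t) (∏ i ∈ s, P i) := by
  classical
  induction s using Finset.induction_on with
  | empty => simpa using CT.const F 1
  | insert a s ha ih =>
    simp only [prod_insert ha]
    exact (h a (mem_insert_self a s)).mul (ih fun i hi => h i (mem_insert_of_mem hi))

lemma CT.unique {F : Filter ℝ} [F.NeBot] {p : ℝ → ℂ[X]} {P R : ℂ[X]} (h1 : CT F p P)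
    (h2 : CT F p R) : P = R := by
  ext k
  exact tendsto_nhds_unique (h1 k) (h2 k)

lemma CT.congr' {F : Filter ℝ} {p r : ℝ → ℂ[X]} {P : ℂ[X]} (h1 : CT F p P)
    (h : ∀ᶠ t in F, p t = r t) : CT F r P := by
  intro k
  refine (h1 k).congr' ?_
  filter_upwards [h] with t ht
  rw [ht]

/-- pointwise convergence with bounded degree gives coefficientwise convergence -/
theorem CT_of_pointwise {F : Filter ℝ} [F.NeBot] (p : ℝ → ℂ[X]) (M : ℕ)
    (hdeg : ∀ t, (p t).natDegree ≤ M) (f : ℂ → ℂ)
    (h : ∀ x, Tendsto (fun t => (p t).eval x) F (𝓝 (f x))) :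
    ∃ P : ℂ[X], P.natDegree ≤ M ∧ (∀ x, P.eval x = f x) ∧ CT F p P := by
  set v : ℕ → ℂ := fun i => (i : ℂ) with hv
  have hinj : Set.InjOn v (range (M + 1) : Finset ℕ) := by
    intro a _ b _ hab
    have hab' : (a : ℂ) = (b : ℂ) := hab
    exact_mod_cast hab'
  have hp : ∀ t, p t = ∑ i ∈ range (M + 1), Polynomial.C ((p t).eval (v i)) * Lagrange.basis (range (M + 1)) v i := by
    intro t
    have h1 := Lagrange.eq_interpolate (s := range (M + 1)) (f := p t) hinj (by
      rw [card_range]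
      exact lt_of_le_of_lt degree_le_natDegree (by exact_mod_cast Nat.lt_succ_of_le (hdeg t)))
    rw [Lagrange.interpolate_apply] at h1
    exact h1
  set P : ℂ[X] := ∑ i ∈ range (M + 1), Polynomial.C (f (v i)) * Lagrange.basis (range (M + 1)) v i with hP
  have hCT : CT F p P := by
    intro k
    have h2 : ∀ t, (p t).coeff k = ∑ i ∈ range (M + 1), (p t).eval (v i) * (Lagrange.basis (range (M + 1)) v i).coeff k := by
      intro t
      conv_lhs => rw [hp t]
      rw [finsetSum_coeff]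
      simp only [coeff_C_mul]
    simp only [h2]
    rw [hP, finsetSum_coeff]
    simp only [coeff_C_mul]
    apply tendsto_finsetSum
    intro i _
    exact (h _).mul_const _
  refine ⟨P, ?_, ?_, hCT⟩
  · rw [natDegree_le_iff_coeff_eq_zero]
    intro N hN
    have h3 : ∀ t, (p t).coeff N = 0 := fun t => coeff_eq_zero_of_natDegree_lt (lt_of_le_of_lt (hdeg t) hN)
    have h4 := hCT N
    simp only [h3] at h4
    exact (tendsto_nhds_unique h4 tendsto_const_nhds)
  · intro x
    have h5 : ∀ t, (p t).eval x = ∑ i ∈ range (M + 1), (p t).eval (v i) * (Lagrange.basis (range (M + 1)) v i).eval x := by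
      intro t
      conv_lhs => rw [hp t]
      rw [eval_finsetSum]
      simp only [eval_mul, eval_C]
    have h6 : Tendsto (fun t => (p t).eval x) F (𝓝 (P.eval x)) := by
      simp only [h5]
      rw [hP, eval_finsetSum]
      simp only [eval_mul, eval_C]
      apply tendsto_finsetSum
      intro i _
      exact (h _).mul_const _
    exact tendsto_nhds_unique h6 (h x)

/-- the first leg as a polynomial variable -/
noncomputable def Sp (q u v : ℂ) (M : ℕ) (c : List ℂ) (z : ℕ → ℂ) : ℂ[X] :=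
  C (PM M z) * SGpoly q u v (range M) c z

lemma Sp_eval (q u v : ℂ) (M : ℕ) (c : List ℂ) (z : ℕ → ℂ) (x : ℂ) :
    (Sp q u v M c z).eval x = SS q u v M (x :: c) z := by
  unfold Sp SS
  rw [eval_mul, eval_C, SGpoly_eval]

lemma Sp_natDegree (q u v : ℂ) (M : ℕ) (c : List ℂ) (z : ℕ → ℂ) :
    (Sp q u v M c z).natDegree ≤ M := by
  unfold Sp
  refine (natDegree_C_mul_le _ _).trans ?_
  have := SGpoly_natDegree q u v (range M) c z
  rwa [card_range] at this

theorem exists_HP {q : ℂ} (u v : ℂ) (hq : q ^ 2 + q + 1 = 0) (M : ℕ) (c : List ℂ) :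
    ∃ P : ℂ[X], P.natDegree ≤ M ∧ (∀ x, P.eval x = HV q u v M (x :: c)) ∧
      CT (𝓝[>] (0 : ℝ)) (fun t => Sp q u v M c (zt t)) P := by
  apply CT_of_pointwise _ M (fun t => Sp_natDegree q u v M c (zt t))
  intro x
  simp only [Sp_eval]
  exact tendsto_HV u v hq M (x :: c)

end Pool.Agent.H34.Hom

end

section

/-!
# The three-term relation and the exponents modulo 3
-/

namespace Pool.Agent.H34.Hom

open Finset Polynomial Pool.Agent.H96.EX Filter Topology

/-- vanishing of the `2` part -/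
lemma sec2_eval_eq_zero {q : ℂ} (hq : q ^ 2 + q + 1 = 0) (f : ℂ[X]) (x : ℂ) (hx : x ≠ 0)
    (h0 : f.eval x = 0) (h1 : f.eval (q ^ 2 * x) + q ^ 2 * f.eval (q * x) = 0) :
    (sec 2 f).eval (x ^ 3) = 0 := by
  have q3 : q ^ 3 = 1 := by linear_combination (q - 1) * hq
  have e1 : (q * x) ^ 3 = x ^ 3 := by rw [mul_pow, q3, one_mul]
  have e2 : (q ^ 2 * x) ^ 3 = x ^ 3 := by
    rw [mul_pow]; have : (q ^ 2) ^ 3 = 1 := by rw [← pow_mul, mul_comm, pow_mul, q3, one_pow]
    rw [this, one_mul]
  rw [eval_decomp f x] at h0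
  rw [eval_decomp f (q ^ 2 * x), eval_decomp f (q * x), e1, e2] at h1
  -- multiply the second relation by q² : q² f(q² x) + q f(q x) + f(x) = 3 x² sec 2
  have h3 : (3 : ℂ) * (x ^ 2 * (sec 2 f).eval (x ^ 3)) = 0 := by
    have q4 : q ^ 4 = q := by linear_combination q * q3
    have q6 : q ^ 6 = 1 := by linear_combination (q ^ 3 + 1) * q3
    linear_combination h0 + q ^ 2 * h1 +
      (-((sec 0 f).eval (x ^ 3))) * (hq + q * q3) +
      (-(x * (sec 1 f).eval (x ^ 3))) * (hq + (q + q ^ 2) * q3) +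
      (-(x ^ 2 * (sec 2 f).eval (x ^ 3))) * ((q ^ 3 + 1) * q3 + (q ^ 3 + 1) * q3)
  rcases mul_eq_zero.1 h3 with h | h
  · norm_num at h
  · rcases mul_eq_zero.1 h with h' | h'
    · exact absurd h' (pow_ne_zero 2 hx)
    · exact h'

/-! ### three-term relation for the leg sums -/

/-- product over the other strands -/
lemma lg_neg (c : List ℂ) (x : ℂ) : lg c x = (-1) ^ c.length * (c.map fun a => x - a).prod := by
  induction c with
  | nil => simp
  | cons a c ih =>
    rw [lg_cons, ih, List.length_cons, List.map_cons, List.prod_cons, pow_succ]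
    ring

lemma gen_facts {q : ℂ} (hq : q ^ 2 + q + 1 = 0) {M : ℕ} {z : ℕ → ℂ} (hz : Gen M z) {a : ℕ} (ha : a < M)
    {j : ℕ} (hj : j ∈ (range M).erase a) :
    z j ≠ z a ∧ z j ≠ q * z a ∧ z j ≠ q ^ 2 * z a := by
  have q3 : q ^ 3 = 1 := by linear_combination (q - 1) * hq
  have hja := ne_of_mem_erase hj
  have hjM := mem_range.1 (mem_of_mem_erase hj)
  have h := hz j hjM a ha hja
  refine ⟨fun e => h (by rw [e]), fun e => h ?_, fun e => h ?_⟩
  · rw [e, mul_pow, q3, one_mul]
  · rw [e, mul_pow, ← pow_mul, mul_comm 2 3, pow_mul, q3, one_pow, one_mul]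

/-- common factor of the two recursions -/
noncomputable def Wf (q u v : ℂ) (M : ℕ) (a : ℕ) (c : List ℂ) (z : ℕ → ℂ) : ℂ :=
  PM M z / (∏ j ∈ (range M).erase a, (z j ^ 2 + z j * z a + z a ^ 2)) * z a *
    SG q u v ((range M).erase a) (z a :: c) z

lemma SS_rec1 {q : ℂ} (u v : ℂ) (hq : q ^ 2 + q + 1 = 0) {M : ℕ} {z : ℕ → ℂ} (hz : Gen M z) {a : ℕ}
    (ha : a < M) (c : List ℂ) :
    SS q u v M ((q ^ 2 * z a) :: c) z = u * (q ^ 2 - q) * lg c (q * z a) *
      (∏ j ∈ (range M).erase a, (z j - q * z a) ^ 2) * Wf q u v M a c z := by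
  have q3 : q ^ 3 = 1 := by linear_combination (q - 1) * hq
  unfold SS Wf
  rw [SG_rec1 hq (mem_range.2 ha) c z (fun j hj => ⟨(gen_facts hq hz ha hj).1, (gen_facts hq hz ha hj).2.2⟩)]
  have h1 : (∏ j ∈ (range M).erase a, (z j ^ 2 + z j * z a + z a ^ 2)) =
      (∏ j ∈ (range M).erase a, (z j - q * z a)) * ∏ j ∈ (range M).erase a, (z j - q ^ 2 * z a) := by
    rw [← prod_mul_distrib]
    apply prod_congr rfl
    intro j _
    linear_combination (z j * z a) * hq - z a ^ 2 * q3
  have h2 : ∏ j ∈ (range M).erase a, (z j - q * z a) ≠ 0 :=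
    prod_ne_zero_iff.2 fun j hj => sub_ne_zero.2 (gen_facts hq hz ha hj).2.1
  have h3 : ∏ j ∈ (range M).erase a, (z j - q ^ 2 * z a) ≠ 0 :=
    prod_ne_zero_iff.2 fun j hj => sub_ne_zero.2 (gen_facts hq hz ha hj).2.2
  rw [h1, prod_div_distrib, prod_pow]
  field_simp

lemma SS_rec2 {q : ℂ} (u v : ℂ) (hq : q ^ 2 + q + 1 = 0) {M : ℕ} {z : ℕ → ℂ} (hz : Gen M z) {a : ℕ}
    (ha : a < M) (c : List ℂ) :
    SS q u v M ((q * z a) :: c) z = v * (q - q ^ 2) * lg c (q ^ 2 * z a) *
      (∏ j ∈ (range M).erase a, (z j - q ^ 2 * z a) ^ 2) * Wf q u v M a c z := by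
  have q3 : q ^ 3 = 1 := by linear_combination (q - 1) * hq
  unfold SS Wf
  rw [SG_rec2 hq (mem_range.2 ha) c z (fun j hj => ⟨(gen_facts hq hz ha hj).1, (gen_facts hq hz ha hj).2.1⟩)]
  have h1 : (∏ j ∈ (range M).erase a, (z j ^ 2 + z j * z a + z a ^ 2)) =
      (∏ j ∈ (range M).erase a, (z j - q * z a)) * ∏ j ∈ (range M).erase a, (z j - q ^ 2 * z a) := by
    rw [← prod_mul_distrib]
    apply prod_congr rfl
    intro j _
    linear_combination (z j * z a) * hq - z a ^ 2 * q3
  have h2 : ∏ j ∈ (range M).erase a, (z j - q * z a) ≠ 0 :=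
    prod_ne_zero_iff.2 fun j hj => sub_ne_zero.2 (gen_facts hq hz ha hj).2.1
  have h3 : ∏ j ∈ (range M).erase a, (z j - q ^ 2 * z a) ≠ 0 :=
    prod_ne_zero_iff.2 fun j hj => sub_ne_zero.2 (gen_facts hq hz ha hj).2.2
  rw [h1, prod_div_distrib, prod_pow]
  field_simp

/-- the polynomial `Φ` -/
noncomputable def Phi (q u v : ℂ) (M : ℕ) (c : List ℂ) (z : ℕ → ℂ) : ℂ[X] :=
  Sp q u v M c z * (c.map fun a => X - C a).prod * ∏ j ∈ range M, (X - C (z j)) ^ 2

lemma eval_list (c : List ℂ) (x : ℂ) :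
    ((c.map fun a => (X - C a : ℂ[X])).prod).eval x = (c.map fun a => x - a).prod := by
  induction c with
  | nil => simp
  | cons a c ih => simp [ih]

lemma Phi_eval (q u v : ℂ) (M : ℕ) (c : List ℂ) (z : ℕ → ℂ) (x : ℂ) :
    (Phi q u v M c z).eval x = SS q u v M (x :: c) z * (c.map fun a => x - a).prod *
      ∏ j ∈ range M, (x - z j) ^ 2 := by
  unfold Phi
  rw [eval_mul, eval_mul, Sp_eval, eval_list, eval_prod]
  simp

lemma Phi_root (q u v : ℂ) {M : ℕ} (c : List ℂ) (z : ℕ → ℂ) {a : ℕ} (ha : a < M) :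
    (Phi q u v M c z).eval (z a) = 0 := by
  rw [Phi_eval, prod_eq_zero (mem_range.2 ha) (by simp), mul_zero]

lemma Phi_three {q : ℂ} (u v : ℂ) (hq : q ^ 2 + q + 1 = 0) {M : ℕ} {z : ℕ → ℂ} (hz : Gen M z) {a : ℕ}
    (ha : a < M) (c : List ℂ) :
    v * (Phi q u v M c z).eval (q ^ 2 * z a) + u * q * (Phi q u v M c z).eval (q * z a) = 0 := by
  have q3 : q ^ 3 = 1 := by linear_combination (q - 1) * hq
  rw [Phi_eval, Phi_eval, SS_rec1 u v hq hz ha, SS_rec2 u v hq hz ha, lg_neg, lg_neg]
  rw [← mul_prod_erase (range M) (fun j => (q ^ 2 * z a - z j) ^ 2) (mem_range.2 ha),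
    ← mul_prod_erase (range M) (fun j => (q * z a - z j) ^ 2) (mem_range.2 ha)]
  have e1 : ∏ j ∈ (range M).erase a, (q ^ 2 * z a - z j) ^ 2 =
      ∏ j ∈ (range M).erase a, (z j - q ^ 2 * z a) ^ 2 :=
    prod_congr rfl fun j _ => by ring
  have e2 : ∏ j ∈ (range M).erase a, (q * z a - z j) ^ 2 =
      ∏ j ∈ (range M).erase a, (z j - q * z a) ^ 2 :=
    prod_congr rfl fun j _ => by ring
  rw [e1, e2]
  have e3 : (q ^ 2 - q) * (q ^ 2 * z a - z a) ^ 2 + q * (q - q ^ 2) * (q * z a - z a) ^ 2 = 0 := by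
    have : (q ^ 2 - q) * (q ^ 2 * z a - z a) ^ 2 + q * (q - q ^ 2) * (q * z a - z a) ^ 2 =
      z a ^ 2 * q * (q - 1) ^ 3 * (q ^ 2 + q + 1) := by ring
    rw [this, hq]; ring
  set A := (c.map fun a_1 => q * z a - a_1).prod
  set B := (c.map fun a_1 => q ^ 2 * z a - a_1).prod
  set D := ∏ j ∈ (range M).erase a, (z j - q * z a) ^ 2
  set E := ∏ j ∈ (range M).erase a, (z j - q ^ 2 * z a) ^ 2
  set W := Wf q u v M a c z
  linear_combination (u * v * (-1) ^ c.length * A * B * D * E * W) * e3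

end Pool.Agent.H34.Hom

end

section

/-!
# Moments of the coefficients of a polynomial with a high order zero at `1`
-/

namespace Pool.Agent.H34.Hom

open Finset Polynomial

variable {K : Type*} [Field K]

lemma mom_add (φ ψ : K[X]) (f : K → K) : mom (φ + ψ) f = mom φ f + mom ψ f := by
  unfold mom
  rw [Polynomial.sum_add_index]
  · intro i; simp
  · intro a b₁ b₂; ring

lemma mom_smul (c : K) (φ : K[X]) (f : K → K) : mom (C c * φ) f = c * mom φ f := by
  have h1 := mom_eq_range φ f (φ.natDegree + 1) (by omega)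
  have h2 := mom_eq_range (C c * φ) f (φ.natDegree + 1)
    (lt_of_le_of_lt (natDegree_C_mul_le c φ) (by omega))
  rw [h1, h2, mul_sum]
  apply sum_congr rfl
  intro e _
  rw [coeff_C_mul]; ring

lemma mom_neg (φ : K[X]) (f : K → K) : mom (-φ) f = - mom φ f := by
  have := mom_smul (-1) φ f
  simpa using this

lemma mom_sub (φ ψ : K[X]) (f : K → K) : mom (φ - ψ) f = mom φ f - mom ψ f := by
  rw [sub_eq_add_neg, mom_add, mom_neg, sub_eq_add_neg]

lemma mom_X_mul (φ : K[X]) (f : K → K) : mom (X * φ) f = mom φ (fun x => f (x + 1)) := by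
  have h1 := mom_eq_range φ (fun x => f (x + 1)) (φ.natDegree + 1) (by omega)
  have h2 := mom_eq_range (X * φ) f (φ.natDegree + 2)
    (lt_of_le_of_lt (natDegree_mul_le (p := X) (q := φ)) (by
      have := natDegree_X_le (R := K); omega))
  rw [h1, h2, sum_range_succ']
  simp [coeff_X_mul]

lemma mom_X_sub_one_mul (φ : K[X]) (f : K → K) :
    mom ((X - 1) * φ) f = mom φ (fwdDiff 1 f) := by
  have h : (X - 1) * φ = X * φ - φ := by ring
  rw [h, mom_sub, mom_X_mul]
  rw [mom_eq_range φ _ (φ.natDegree + 1) (by omega), mom_eq_range φ f (φ.natDegree + 1) (by omega),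
    mom_eq_range φ _ (φ.natDegree + 1) (by omega), ← sum_sub_distrib]
  apply sum_congr rfl
  intro e _
  unfold fwdDiff
  ring

lemma mom_X_sub_one_pow (N : ℕ) (φ : K[X]) (f : K → K) :
    mom ((X - 1) ^ N * φ) f = mom φ ((fwdDiff 1)^[N] f) := by
  induction N generalizing f with
  | zero => simp
  | succ N ih =>
    rw [pow_succ', mul_assoc, mom_X_sub_one_mul, ih]
    rfl

lemma mom_const (φ : K[X]) (c : K) : mom φ (fun _ => c) = φ.eval 1 * c := by
  rw [mom_eq_range φ _ (φ.natDegree + 1) (by omega), ← sum_mul, eval_eq_sum_range]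
  simp

/-- the first nonvanishing moment -/
theorem mom_eq_factorial (N : ℕ) (φ P : K[X]) (hP : P.natDegree = N) :
    mom ((X - 1) ^ N * φ) (fun x => P.eval x) = φ.eval 1 * (P.leadingCoeff * (N.factorial : K)) := by
  subst hP
  rw [mom_X_sub_one_pow]
  have := Polynomial.fwdDiff_iter_degree_eq_factorial P
  rw [this]
  have h2 : (P.leadingCoeff • ((P.natDegree.factorial : K → K))) = fun _ : K => P.leadingCoeff * (P.natDegree.factorial : K) := by
    funext x; simp
  rw [h2, mom_const]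

end Pool.Agent.H34.Hom

end

section

/-!
# A very-well-poised alternating sum (WZ proof)

`gN N i = ∏_{m<N} (3i-3m-1)(3i-3m-2)` and `A0 M = ∑_i (-1)^(M-i) C(M,i) gN (M+1) i`.
For even `M`: `A0 (M+2) * (m+2) = 36 (m+1)(2m+1)(2m+3)(3m+4)(3m+5) A0 M`, `M = 2m`.
-/

namespace Pool.Agent.H34.Hom

open Finset

end Pool.Agent.H34.Hom

end

section

/-! Symmetry consequences for the sums with an extra factor `i`. -/

namespace Pool.Agent.H34.Hom

open Finset

end Pool.Agent.H34.Hom

end

section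

/-!
# A Chu-Vandermonde sum (WZ proof)

`∑_k (-1)^k C(M,k) / ∏_{m≤M} (3(k-m)-1)` in closed form.
-/

namespace Pool.Agent.H34.Hom

open Finset

/-- `∏_{m ≤ M} (3(k-m)-1)` -/
def Dd (M : ℕ) (k : ℤ) : ℤ := ∏ m ∈ range (M + 1), (3 * (k - m) - 1)

lemma Dd_ne_zero (M : ℕ) (k : ℤ) : Dd M k ≠ 0 := by
  unfold Dd
  rw [prod_ne_zero_iff]
  intro m _ h
  omega

lemma Dd_succ (M : ℕ) (k : ℤ) : Dd (M + 1) k = Dd M k * (3 * (k - (M + 1)) - 1) := by
  unfold Dd; rw [prod_range_succ]; push_cast; ring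

lemma Dd_succ' (M : ℕ) (k : ℤ) : Dd (M + 1) (k + 1) = Dd M k * (3 * k + 2) := by
  unfold Dd
  rw [prod_range_succ']
  congr 1
  · apply prod_congr rfl
    intro m _; push_cast; ring
  · push_cast; ring

lemma Dd_shift (M : ℕ) (k : ℤ) : Dd M (k + 1) * (3 * (k - M) - 1) = Dd M k * (3 * k + 2) := by
  rw [← Dd_succ', Dd_succ]; ring

variable (K : Type*) [Field K] [CharZero K]

/-- the summand -/
noncomputable def Tt (M k : ℕ) : K := (-1) ^ k * (M.choose k : K) / (Dd M k : K)

noncomputable def Hsum (M : ℕ) : K := ∑ k ∈ range (M + 1), Tt K M k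

lemma three_ne (a : ℤ) (b : ℤ) (hb : b % 3 ≠ 0) : ((3 * a + b : ℤ) : K) ≠ 0 := by
  rw [Int.cast_ne_zero]; omega

lemma Tt_step (M k : ℕ) :
    ((3 * M + 2) * (3 * M + 4) : K) * Tt K (M + 1) (k + 1) =
      -(6 * (2 * M + 1) + (-(9 * M + 10) + 6 * (k + 2))) * Tt K M (k + 1) +
        (-(9 * M + 10) + 6 * (k + 1)) * Tt K M k := by
  have hc1 : ((M + 1).choose (k + 1) : K) * (k + 1) = (M + 1) * (M.choose k : K) := by
    have := Nat.add_one_mul_choose_eq M k
    exact_mod_cast this.symm
  have hc2 : (M.choose (k + 1) : K) * (k + 1) = (M.choose k : K) * (M - k) := by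
    rcases le_or_gt k M with h | h
    · have := Nat.choose_succ_right_eq M k
      have h2 : ((M - k : ℕ) : K) = M - k := by push_cast [Nat.cast_sub h]; ring
      rw [← h2]
      exact_mod_cast this
    · rw [Nat.choose_eq_zero_of_lt h, Nat.choose_eq_zero_of_lt (by omega)]; simp
  have hk : (k : K) + 1 ≠ 0 := by exact_mod_cast Nat.succ_ne_zero k
  have d0 : (Dd M k : K) ≠ 0 := Int.cast_ne_zero.2 (Dd_ne_zero M k)
  have e3 : ((3 * (k : ℤ) + 2 : ℤ) : K) ≠ 0 := three_ne K k 2 (by norm_num)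
  have e4 : ((3 * ((k : ℤ) - M) + (-1) : ℤ) : K) ≠ 0 := three_ne K _ (-1) (by norm_num)
  have d1 : (Dd (M + 1) ((k + 1 : ℕ) : ℤ) : K) = (Dd M k : K) * (3 * k + 2) := by
    have := Dd_succ' M k
    push_cast
    rw [this]; push_cast; ring
  have d2 : (Dd M ((k + 1 : ℕ) : ℤ) : K) = (Dd M k : K) * (3 * k + 2) / (3 * (k - M) - 1) := by
    have := Dd_shift M k
    push_cast at e4 ⊢
    rw [eq_div_iff (by intro h; apply e4; rw [← h]; ring)]
    have h2 : ((Dd M ((k : ℤ) + 1) * (3 * ((k : ℤ) - M) - 1) : ℤ) : K) = ((Dd M k * (3 * k + 2) : ℤ) : K) := by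
      rw [this]
    push_cast at h2
    exact h2
  have e3' : (3 * (k : K) + 2) ≠ 0 := by push_cast at e3; exact e3
  have e4' : (3 * ((k : K) - M) - 1) ≠ 0 := by
    push_cast at e4; intro h; apply e4; rw [← h]; ring
  have hC1 : ((M + 1).choose (k + 1) : K) = (M + 1) * (M.choose k : K) / (k + 1) := by
    rw [eq_div_iff hk, hc1]
  have hC2 : (M.choose (k + 1) : K) = (M.choose k : K) * (M - k) / (k + 1) := by
    rw [eq_div_iff hk, hc2]
  unfold Tt
  rw [d1, d2, hC1, hC2, pow_succ]
  field_simp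
  ring

lemma Tt_step0 (M : ℕ) :
    ((3 * M + 2) * (3 * M + 4) : K) * Tt K (M + 1) 0 =
      -(6 * (2 * M + 1) + (-(9 * M + 10) + 6 * (0 + 1))) * Tt K M 0 := by
  have d0 : (Dd M 0 : K) ≠ 0 := Int.cast_ne_zero.2 (Dd_ne_zero M 0)
  have d1 : (Dd (M + 1) 0 : K) = (Dd M 0 : K) * (-(3 * M + 4)) := by
    rw [Dd_succ]; push_cast; ring
  have e1 : (3 * (M : K) + 4) ≠ 0 := by
    have : ((3 * M + 4 : ℕ) : K) ≠ 0 := Nat.cast_ne_zero.2 (by omega)
    push_cast at this; exact this
  unfold Tt
  push_cast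
  rw [d1]
  simp only [pow_zero, Nat.choose_zero_right, Nat.cast_one, mul_one]
  field_simp
  ring

lemma Tt_last (M : ℕ) : Tt K M (M + 1) = 0 := by
  unfold Tt
  rw [Nat.choose_eq_zero_of_lt (by omega)]
  simp

theorem Hsum_rec (M : ℕ) :
    ((3 * M + 2) * (3 * M + 4) : K) * Hsum K (M + 1) = -(6 * (2 * M + 1)) * Hsum K M := by
  unfold Hsum
  rw [sum_range_succ', mul_add, Tt_step0, mul_sum]
  have h1 : ∑ i ∈ range (M + 1), ((3 * M + 2) * (3 * M + 4) : K) * Tt K (M + 1) (i + 1) =
      ∑ i ∈ range (M + 1), (-(6 * (2 * M + 1) + (-(9 * M + 10) + 6 * (((i + 1 : ℕ) : K) + 1))) * Tt K M (i + 1)) +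
        ∑ i ∈ range (M + 1), (-(9 * M + 10) + 6 * (i + 1)) * Tt K M i := by
    rw [← sum_add_distrib]
    apply sum_congr rfl
    intro i _
    rw [Tt_step]
    push_cast
    ring
  rw [h1]
  have h2 : ∑ i ∈ range (M + 1), (-(6 * (2 * M + 1) + (-(9 * M + 10) + 6 * (((i + 1 : ℕ) : K) + 1))) * Tt K M (i + 1)) +
      -(6 * (2 * M + 1) + (-(9 * M + 10) + 6 * (((0 : ℕ) : K) + 1))) * Tt K M 0 =
      ∑ i ∈ range (M + 1), (-(6 * (2 * M + 1) + (-(9 * M + 10) + 6 * ((i : K) + 1))) * Tt K M i) := by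
    rw [← sum_range_succ' (fun i : ℕ => (-(6 * (2 * M + 1) + (-(9 * M + 10) + 6 * ((i : K) + 1))) * Tt K M i)),
      sum_range_succ, Tt_last, mul_zero, add_zero]
  rw [add_right_comm]
  have h3 : -(6 * (2 * (M : K) + 1) + (-(9 * M + 10) + 6 * (0 + 1))) * Tt K M 0 =
    -(6 * (2 * M + 1) + (-(9 * M + 10) + 6 * (((0 : ℕ) : K) + 1))) * Tt K M 0 := by push_cast; ring
  rw [h3, h2, ← sum_add_distrib, mul_sum]
  apply sum_congr rfl
  intro i _
  ring

theorem Hsum_zero : Hsum K 0 = -1 := by
  simp [Hsum, Tt, Dd]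

/-- closed form -/
theorem Hsum_eq (M : ℕ) :
    Hsum K M = (-1) ^ (M + 1) * 9 ^ M * ((2 * M).factorial : K) / ((3 * M + 1).factorial : K) := by
  induction M with
  | zero => rw [Hsum_zero]; simp
  | succ M ih =>
    have h := Hsum_rec K M
    rw [ih] at h
    have e1 : (3 * (M : K) + 4) ≠ 0 := by
      have : ((3 * M + 4 : ℕ) : K) ≠ 0 := Nat.cast_ne_zero.2 (by omega)
      push_cast at this; exact this
    have e2 : (3 * (M : K) + 2) ≠ 0 := by
      have : ((3 * M + 2 : ℕ) : K) ≠ 0 := Nat.cast_ne_zero.2 (by omega)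
      push_cast at this; exact this
    have e3 : (3 * (M : K) + 3) ≠ 0 := by
      have : ((3 * M + 3 : ℕ) : K) ≠ 0 := Nat.cast_ne_zero.2 (by omega)
      push_cast at this; exact this
    have f1 : ((3 * (M + 1) + 1).factorial : K) = (3 * M + 4) * (3 * M + 3) * (3 * M + 2) * ((3 * M + 1).factorial : K) := by
      have : 3 * (M + 1) + 1 = (3 * M + 1) + 1 + 1 + 1 := by ring
      rw [this, Nat.factorial_succ, Nat.factorial_succ, Nat.factorial_succ]
      push_cast; ring
    have f2 : ((2 * (M + 1)).factorial : K) = (2 * M + 2) * (2 * M + 1) * ((2 * M).factorial : K) := by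
      have : 2 * (M + 1) = (2 * M) + 1 + 1 := by ring
      rw [this, Nat.factorial_succ, Nat.factorial_succ]
      push_cast; ring
    have f4 : ((3 * M + 1).factorial : K) ≠ 0 := Nat.cast_ne_zero.2 (Nat.factorial_ne_zero _)
    have h5 : Hsum K (M + 1) = -(6 * (2 * M + 1)) * ((-1) ^ (M + 1) * 9 ^ M * ((2 * M).factorial : K) /
      ((3 * M + 1).factorial : K)) / ((3 * M + 2) * (3 * M + 4)) := by
      rw [eq_div_iff (mul_ne_zero e2 e1), mul_comm, h]
    rw [h5, f1, f2]
    field_simp
    ring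

end Pool.Agent.H34.Hom

end

section

/-!
# Alternants, and the factorised sum rule

`alt e N z = det (z_i ^ e_j)`.  With `ex a = (0, a, 3, 3+a, 6, 6+a, …)` the product
`alt (ex 1) · alt (ex 2)` satisfies the recursion of the sum of the qKZ solution times the square
of the Vandermonde determinant.
-/

set_option autoImplicit false

namespace Pool.Agent.H34.Hom

open Finset Polynomial

section ring

variable {R : Type*} [CommRing R]

end ring

section poly

end poly

end Pool.Agent.H34.Hom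

end

section

/-!
# The sum rule: `Z_{2n} · Δ² · 3^{n(n-1)} = alt (ex 1) · alt (ex 2)`
-/

set_option autoImplicit false

namespace Pool.Agent.H34.Hom

open Finset Polynomial

end Pool.Agent.H34.Hom

end

section

/-! Exchange relations of leg sums. -/

namespace H56.EX

open scoped BigOperators Classical

variable {Lt Lb : ℕ}

section linear

variable (kt kb M : ℕ)

end linear

/-! ### top-bottom symmetry -/

/-! ### hole ends (LT2) -/


end H56.EX

end
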