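import Pool.Agent.H94.BG.H31.PT.M31

/-! The parts of this file: H85.Gamma.Window, H31.EX.PowerLaw, H56.EX.Pat, H56.EX.TL, H56.EX.Ins, H89.Link.Defs, H89.Link.Row, H56.EX.Defs, H89.Link.Potential, H12.QKZ.DivDiff, H12.QKZ.Support, H12.QKZ.Weights, H12.QKZ.Trig, H12.QKZ.RMat, H12.QKZ.Doeblin, H12.QKZ.Scatter, H12.QKZ.Dens, H96.EX.SSum, H34.Hom.Dvd, H34.Hom.Ext, H34.Hom.Lim, H34.Hom.Three, H34.Hom.Moments, H34.Hom.Wz, H34.Hom.Wz2, H34.Hom.Chu, H34.Hom.Alt, H34.Hom.SumId, H56.EX.Exch. -/

section

/-!
# Stability of the one-arm probability below the critical point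
-/

open MeasureTheory ProbabilityTheory unitInterval Filter Topology

namespace Pool.Agent.H85.Gamma

open Pool.Agent.H89.Perc

theorem half_coe : ((half : I) : ℝ) = 1 / 2 := rfl

end Pool.Agent.H85.Gamma

end

section

/-!
# Power laws with `o(1)` in the exponent

`PL F a` means `F h = h ^ (a + o(1))` as `h ↓ 0`, `PN f a` means `f n = n ^ (-a + o(1))` as
`n → ∞`.
-/

namespace Pool.Agent.H31.EX

end Pool.Agent.H31.EX

end

section

/-! Link patterns on the half infinite cylinder (punctured disc), as involutions on the universal cover,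
and the periodic Temperley-Lieb moves `e_i` (contractible and noncontractible loops are dropped). -/

namespace H56.EX

namespace Pat

end Pat

section closure

variable {L : ℕ} (P : Pat L) (i : ℤ)

@[simp] lemma rot_m (P : Pat L) (x : ℤ) : (rot P).m x = P.m (x - 1) + 1 := rfl

end closure

end H56.EX

end

section

/-! Temperley-Lieb relations for the moves `E i` on link patterns. -/

namespace H56.EX

variable {L : ℕ}

lemma Cg.m' {x y : ℤ} (P : Pat L) (h : Cg L (P.m x) (P.m y)) : Cg L x y := by
  have := Cg.m P h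
  rwa [P.inv, P.inv] at this

namespace E

variable (P : Pat L) (i : ℤ)

/-- `e_i` does nothing to a pattern with a small arc at `i`. -/
lemma eq_self (h : P.m i = i + 1) : E i P = P := by
  apply Pat.ext
  funext x
  by_cases h1 : Cg L x i
  · exact Pat.eq_of_dvd h1 (by rw [self, h])
  by_cases h2 : Cg L x (i + 1)
  · refine Pat.eq_of_dvd h2 ?_
    rw [succ]
    have := P.inv i
    rw [h] at this
    exact this.symm
  have hi : P.m (i + 1) = i := by
    have := P.inv i
    rwa [h] at this
  have h3 : ¬ Cg L (P.m x) i := by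
    intro h'
    apply h2
    have := Cg.m P h'
    rwa [P.inv, h] at this
  have h4 : ¬ Cg L (P.m x) (i + 1) := by
    intro h'
    apply h1
    have := Cg.m P h'
    rwa [P.inv, hi] at this
  exact other P i h1 h2 h3 h4

lemma idem : E i (E i P) = E i P := eq_self _ _ (self P i)

end E

/-- `e_i e_{i+1} e_i = e_i` -/
lemma E_braid (i : ℤ) (P : Pat L) (hL : 3 ≤ L) : E i (E (i + 1) (E i P)) = E i P := by
  set Q := E i P with hQ
  have hQi : Q.m i = i + 1 := E.self P i
  have hQi1 : Q.m (i + 1) = i := E.succ P i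
  have n1 : ¬ Cg L i (i + 1) := not_Cg_succ (by omega) i
  have n2 : ¬ Cg L (i + 1) (i + 1 + 1) := not_Cg_succ (by omega) (i + 1)
  have n3 : ¬ Cg L i (i + 1 + 1) := by
    unfold Cg
    intro h
    have e : i - (i + 1 + 1) = -2 := by ring
    rw [e] at h
    have := Int.le_of_dvd (by norm_num) ((dvd_neg).1 h)
    omega
  have n1' : ¬ Cg L (i + 1) i := fun h => n1 (Cg.symm' h)
  have n2' : ¬ Cg L (i + 1 + 1) (i + 1) := fun h => n2 (Cg.symm' h)
  have n3' : ¬ Cg L (i + 1 + 1) i := fun h => n3 (Cg.symm' h)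
  set R := E (i + 1) Q with hR
  have hRi : R.m i = Q.m (i + 1 + 1) := by
    have := E.of_m Q (i + 1) n1 n3 (by rw [hQi]; exact Cg.refl' _)
    rw [hQi] at this
    exact this
  apply Pat.ext
  funext x
  by_cases x1 : Cg L x i
  · exact Pat.eq_of_dvd x1 (by rw [E.self, hQi])
  by_cases x2 : Cg L x (i + 1)
  · exact Pat.eq_of_dvd x2 (by rw [E.succ, hQi1])
  by_cases x3 : Cg L x (i + 1 + 1)
  · refine Pat.eq_of_dvd x3 ?_
    have r1 : R.m (i + 1 + 1) = i + 1 := E.succ Q (i + 1)
    rw [E.of_m_succ R i n3' n2' (by rw [r1]; exact Cg.refl' _), r1, show i + 1 - 1 = i by ring, hRi]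
  -- Q.m x is not congruent to i, i+1
  have y1 : ¬ Cg L (Q.m x) i := by
    intro h
    have := Cg.m Q h
    rw [Q.inv, hQi] at this
    exact x2 this
  have y2 : ¬ Cg L (Q.m x) (i + 1) := by
    intro h
    have := Cg.m Q h
    rw [Q.inv, hQi1] at this
    exact x1 this
  by_cases y3 : Cg L (Q.m x) (i + 1 + 1)
  · -- R.m x = Q.m (Q.m x - 1) ≡ i
    have r1 : R.m x = Q.m (Q.m x - 1) := E.of_m_succ Q (i + 1) x2 x3 y3
    have c1 : Cg L (Q.m x - 1) (i + 1) := by
      have := Cg.sub 1 y3
      simpa using this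
    have r2 : Q.m (Q.m x - 1) = Q.m x - 1 - 1 := by
      have := Q.per_dvd c1
      rw [hQi1] at this
      rw [this]; ring
    rw [r2] at r1
    have c2 : Cg L (R.m x) i := by
      rw [r1]
      have := Cg.sub 1 c1
      simpa using this
    rw [E.of_m R i x1 x2 c2, r1]
    have c3 : Cg L (Q.m x - 1) (i + 1) := c1
    rw [show Q.m x - 1 - 1 + 1 = Q.m x - 1 by ring]
    rw [E.of_i Q (i + 1) c3]; ring
  · have r1 : R.m x = Q.m x := E.other Q (i + 1) x2 x3 y2 y3
    rw [E.other R i x1 x2 (by rw [r1]; exact y1) (by rw [r1]; exact y2), r1]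

/-! ### Finiteness -/

end H56.EX

end

section

/-! Insertion of a small arc at positions `i, i+1`: `ins i : Pat L → Pat (L+2)`. -/

namespace H56.EX

variable {L : ℕ}

lemma ins_injective (i : ℤ) : Function.Injective (ins (L := L) i) := by
  intro P Q h
  have hL : 1 ≤ L := le_trans (by norm_num) P.two_le
  apply Pat.ext
  funext y
  have h1 : (ins i P).m (phi L i y) = (ins i Q).m (phi L i y) := by rw [h]
  rw [ins_phi, ins_phi] at h1
  exact phi_inj hL h1

end H56.EX

end

section

/-!
# LINK: critical bond percolation on a cylinder and loops (definitions)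

Medial lattice: the vertex `(c, r)` (column `c`, row `r`) lies on the edge `medge c r` of the square
lattice.  Faces of the medial lattice: `(c, r)` = the unit square between the columns `c`, `c + 1`
and between the rows `r - 1`, `r` (level `r`).  It is a primal vertex if `c + r` is odd, namely
`((c + r + 1) / 2, (r - c - 1) / 2)`, and a dual vertex (a face of the square lattice, named by its
lower left corner) if `c + r` is even, namely `((c + r) / 2, (r - c - 2) / 2)`.
The primal vertex `(x, y)` lies at level `x + y`, the edge `e` lies in the row `e.1 + e.2.1`.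
The seam is level `0`; the strand of the seam in column `c` lies between the primal vertex `pv c` and
the dual vertex `dv c`.  The period is `c → c + L`, `L = 2 n`, i.e. `(x, y) → (x + n, y - n)`.

At the vertex `(c, r)` the strands connect bottom - right and top - left if `tB ω c r = true`
(type B), and bottom - left and top - right if `tB ω c r = false` (type A).
-/

set_option autoImplicit false

open MeasureTheory ProbabilityTheory Filter Topology

namespace Pool.Agent.H89.Link

open H56.EX
open Pool.Agent.H89.Perc (Vert Edge Config Pr half src tgt lowFace ball sphere)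

variable {L : ℕ} {T : Type*}

/-! ### The row map -/

/-! ### Percolation -/

/-- No loop surrounds the primal vertex `0` (between the columns `-1` and `0`). -/
def NoSurr (P Q : Pat L) : Prop :=
  ∀ X : Finset ℤ, (∀ x ∈ X, P.m x ∈ X) → (∀ x ∈ X, Q.m x ∈ X) →
    Even (X.filter fun c => 0 ≤ c).card

/-! ### The stationary vector -/

end Pool.Agent.H89.Link

end

section

/-!
# LINK module `Row`: colours are transported by the row map

Proof of `row_inv`.  All facts hold on the universal covers; colours are NOT assumed periodic.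
1. (`cap_spec`) for `2 ≤ L`: `E i P` has a small arc at `i` (`E.self`), so `exists_ins` gives
   `E i P = ins i (cap i P Q0)`.
2. (`E_inv`) if `f (P.m x) = f x` for all `x`, `g x = f x` for `x` not congruent to `i`, `i + 1`
   (mod `L`), and for every `y` congruent to `i`: `f y = f (y + 1)` and `g y = g (y + 1)`, then
   `g ((E i P).m x) = g x` (cases of `tl`, `H56.EX.tl_cases` or `E.of_i`, `E.of_succ`, `E.of_m`,
   `E.of_m_succ`, `E.other`, `E.mem_not`).
3. (`ins_inv`) if `f (phi L i y) = g y`, `g (P.m y) = g y` and `f y = f (y + 1)` for `y` congruent to `i`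
   mod `L + 2`, then `f ((ins i P).m x) = f x`; conversely if `f ((ins i P).m x) = f x` for all `x` then
   `f (phi L i (P.m y)) = f (phi L i y)`.
4. Colour of position `X = (L + 2) j + s`, `0 ≤ s < L + 2`, when the wire has passed the columns
   `0, …, k - 1`:  `s = 0`: `hor (j L - 1)`;  `1 ≤ s ≤ k`: `bot (j L + s - 1)`;  `s = k + 1`:
   `hor (j L + k - 1)`;  `k + 2 ≤ s ≤ L + 1`: `top (j L + s - 2)`.
   Step `k → k + 1` changes only the positions `s = k + 1, k + 2`: from `hor (j L + k - 1), top (j L + k)` to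
   `bot (j L + k), hor (j L + k)`; if `t k = true` use `E_inv` with `i = k + 1`, if `t k = false` nothing
   changes.  (`t (j L + k) = t k` by periodicity.)
5. At the end (`k = L`) the positions `(L+2) j - 1` and `(L+2) j` both have colour `hor (j L - 1)`; use
   `E_inv` with `i = -1`, then `cap_spec` and the second part of 3; the position `(L+2) j + c + 1`
   (`0 ≤ c < L`) is `phi L (-1) (j L + c - 1)`; finally `rot` shifts by one.
-/

set_option autoImplicit false

namespace Pool.Agent.H89.Link

open H56.EX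

variable {L : ℕ} {T : Type*}

end Pool.Agent.H89.Link

end

section

/-! Common definitions of the EXACT project, loop part:
the cube root of unity `q`, operators `eop i`, the list of properties `PsiProps` of the
polynomial qKZ solution, the leg relation of a pair of patterns and the leg sums. -/

namespace H56.EX

open scoped BigOperators

variable {L : ℕ}

lemma q_inv : q⁻¹ = q ^ 2 := by
  have h := q_cube
  have h0 := q_ne_zero
  field_simp
  rw [← h]

/-! ### The leg relation

`Pt : Pat Lt` top pattern, `Pb : Pat Lb` bottom pattern, `kt, kb` = number of strands in the hole at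
the top / bottom, `M` = number of glued strands; in all uses `Lt = kt + M`, `Lb = kb + M`.
Top hole ends: positions `0..kt-1`; glued top positions `kt..kt+M-1` (mod `Lt`); same at the bottom.
Vertices of the composite graph: `inl x` top boundary points, `inr y` bottom boundary points
(on the universal covers). -/

section leg

variable {Lt Lb : ℕ}

/-- Leg class: every path between two hole ends goes round the cylinder an odd number of times. -/
def Leg (kt kb M : ℕ) (Pt : Pat Lt) (Pb : Pat Lb) : Prop :=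
  ∀ (u v : Fin kt ⊕ Fin kb) (a b : ℤ),
    Conn kt kb M Pt Pb (hpos Lt Lb kt kb u a) (hpos Lt Lb kt kb v b) →
    (u = v ∧ a = b) ∨ Odd (b - a)

open Classical in
/-- leg sum of two vectors -/
noncomputable def legSum (kt kb M : ℕ) (v : Pat Lt → ℂ) (w : Pat Lb → ℂ) : ℂ :=
  ∑ Pt, ∑ Pb, if Leg kt kb M Pt Pb then v Pt * w Pb else 0

end leg

/-- The (2,2) leg function: top legs `a0,a1`, bottom legs `b0,b1`, `M` glued strands `z`. -/
noncomputable def F22 (Ψ : ∀ L : ℕ, Pat L → (ℤ → ℂ) → ℂ) (M : ℕ) (a0 a1 b0 b1 : ℂ)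
    (z : ℕ → ℂ) : ℂ :=
  legSum 2 2 M (fun P : Pat (M + 2) => Ψ (M + 2) P (par (M + 2) (scons a0 (scons a1 z))))
    (fun P : Pat (M + 2) => Ψ (M + 2) P
      (par (M + 2) (scons b0⁻¹ (scons b1⁻¹ (fun n => (z n)⁻¹)))))

/-- The (1,3) leg function. -/
noncomputable def F13 (Ψ : ∀ L : ℕ, Pat L → (ℤ → ℂ) → ℂ) (M : ℕ) (a b0 b1 b2 : ℂ)
    (z : ℕ → ℂ) : ℂ :=
  legSum 1 3 M (fun P : Pat (M + 1) => Ψ (M + 1) P (par (M + 1) (scons a z)))
    (fun P : Pat (M + 3) => Ψ (M + 3) P
      (par (M + 3) (scons b0⁻¹ (scons b1⁻¹ (scons b2⁻¹ (fun n => (z n)⁻¹))))))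

end H56.EX

end

section

/-!
# LINK module `Potential`: parity potentials

`A : Edge → ZMod 2` supported in rows of absolute value `< H` (the row of `e` is `e.1 + e.2.1`).
Ray potential of the face with lower left corner `(a, b)`: the sum of `A` over the horizontal edges above,
  `pot A H (a, b) = ∑_{j = b + 1}^{H - a - 1} A (a, j, false)`   (all other terms vanish).
* `pot_hor`: `pot (a, b - 1) + pot (a, b) = A (a, b, false)` (trivial), for all `(a, b)`;
* `pot_ver`: `pot (a - 1, b) + pot (a, b) = A (a, b, true) + ∑_{j > b} vsum A (a, j)` where the sum runs over the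
  vertices `(a, j)` with `b < j` (finitely many non zero terms): telescoping of the vertical edges.
So if all vertices have even degree (`vsum A V = 0`) then `pot` is a potential on the whole plane; if the only
vertex with odd degree is `0`, then it is a potential except across the edges `(0, b, true)`, `b < 0`.
A finite or periodic sum of open paths gives such an `A`: `pathSum` of a list of vertices.
-/

set_option autoImplicit false

namespace Pool.Agent.H89.Link

open Pool.Agent.H89.Perc (Vert Edge Config src tgt lowFace vsum)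

/-- The ray potential. -/
noncomputable def pot (A : Edge → ZMod 2) (H : ℕ) (f : Vert) : ZMod 2 :=
  ∑ j ∈ Finset.Ioo f.2 ((H : ℤ) - f.1), A (f.1, j, false)

variable {A : Edge → ZMod 2} {H : ℕ}

/-- the potential vanishes at the levels `≥ H` -/
theorem pot_top (A : Edge → ZMod 2) (H : ℕ) {f : Vert} (hf : (H : ℤ) ≤ f.1 + f.2 + 1) :
    pot A H f = 0 := by
  unfold pot
  apply Finset.sum_eq_zero
  intro j hj
  rw [Finset.mem_Ioo] at hj
  omega

/-- The upper end of the ray does not matter. -/
private lemma Potential_ext (hA : ∀ e : Edge, ¬ (-(H : ℤ) < e.1 + e.2.1 ∧ e.1 + e.2.1 + 1 < H) →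
    A e = 0) (a b K : ℤ) (hK : (H : ℤ) - a ≤ K) :
    pot A H (a, b) = ∑ j ∈ Finset.Ioo b K, A (a, j, false) := by
  unfold pot
  refine Finset.sum_subset ?_ ?_
  · intro j hj
    rw [Finset.mem_Ioo] at hj ⊢
    simp only at hj
    omega
  · intro j hj hj'
    rw [Finset.mem_Ioo] at hj hj'
    simp only at hj'
    apply hA
    simp only
    omega

private lemma Potential_succ (f : ℤ → ZMod 2) (b K : ℤ) (h : b < K) :
    ∑ j ∈ Finset.Ioo b (K + 1), f j = ∑ j ∈ Finset.Ioo b K, f j + f K := by
  have h1 : Finset.Ioo b (K + 1) = insert K (Finset.Ioo b K) := by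
    ext j
    rw [Finset.mem_insert, Finset.mem_Ioo, Finset.mem_Ioo]
    omega
  rw [h1, Finset.sum_insert (by simp), add_comm]

private lemma Potential_tele (g : ℤ → ZMod 2) (b : ℤ) (m : ℕ) :
    ∑ j ∈ Finset.Ioo b (b + 1 + m), (g j + g (j - 1)) = g b + g (b + m) := by
  induction m with
  | zero =>
    have h1 : Finset.Ioo b (b + 1 + (0 : ℕ)) = ∅ := by
      ext j
      simp only [Finset.mem_Ioo, Finset.notMem_empty, iff_false]
      omega
    rw [h1, Finset.sum_empty]
    simp [CharTwo.add_self_eq_zero]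
  | succ m ih =>
    have h1 : b + 1 + ((m + 1 : ℕ) : ℤ) = (b + 1 + m) + 1 := by push_cast; ring
    rw [h1, Potential_succ _ _ _ (by omega), ih]
    have h2 : b + 1 + (m : ℤ) - 1 = b + m := by ring
    have h3 : b + ((m + 1 : ℕ) : ℤ) = b + 1 + m := by push_cast; ring
    rw [h2, h3]
    have h4 := CharTwo.add_self_eq_zero (g (b + m))
    linear_combination h4

/-- Vertical edges. -/
private lemma Potential_ver (hA : ∀ e : Edge,
    ¬ (-(H : ℤ) < e.1 + e.2.1 ∧ e.1 + e.2.1 + 1 < H) → A e = 0) (a b K : ℤ)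
    (hK : (H : ℤ) - a + 1 ≤ K) (hb : b < K) :
    pot A H (a - 1, b) + pot A H (a, b) =
      A (a, b, true) + ∑ j ∈ Finset.Ioo b K, vsum A (a, j) := by
  rw [Potential_ext hA (a - 1) b K (by omega), Potential_ext hA a b K (by omega)]
  obtain ⟨m, hm⟩ : ∃ m : ℕ, K = b + 1 + m := ⟨(K - b - 1).toNat, by omega⟩
  have h1 := Potential_tele (fun j => A (a, j, true)) b m
  rw [← hm] at h1
  have h2 : A (a, b + m, true) = 0 := by
    apply hA
    simp only
    omega
  simp only [h2, add_zero] at h1
  rw [← h1, ← Finset.sum_add_distrib, ← Finset.sum_add_distrib]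
  refine Finset.sum_congr rfl fun j _ => ?_
  unfold vsum
  simp only
  have h3 := CharTwo.add_self_eq_zero (A (a, j, true))
  have h4 := CharTwo.add_self_eq_zero (A (a, j - 1, true))
  linear_combination -h3 - h4

private lemma Potential_hor (hA : ∀ e : Edge,
    ¬ (-(H : ℤ) < e.1 + e.2.1 ∧ e.1 + e.2.1 + 1 < H) → A e = 0) (a b : ℤ) :
    pot A H (a, b - 1) + pot A H (a, b) = A (a, b, false) := by
  obtain ⟨K, hK1, hK2⟩ : ∃ K : ℤ, (H : ℤ) - a ≤ K ∧ b < K :=
    ⟨max ((H : ℤ) - a) (b + 1), le_max_left _ _, lt_of_lt_of_le (by omega) (le_max_right _ _)⟩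
  rw [Potential_ext hA a (b - 1) K hK1, Potential_ext hA a b K hK1]
  have h1 : Finset.Ioo (b - 1) K = insert b (Finset.Ioo b K) := by
    ext j
    rw [Finset.mem_insert, Finset.mem_Ioo, Finset.mem_Ioo]
    omega
  rw [h1, Finset.sum_insert (by simp), add_assoc, CharTwo.add_self_eq_zero, add_zero]

/-- Potential when all degrees are even. -/
theorem pot_even (hA : ∀ e : Edge, ¬ (-(H : ℤ) < e.1 + e.2.1 ∧ e.1 + e.2.1 + 1 < H) → A e = 0)
    (hv : ∀ V, vsum A V = 0) (e : Edge) : pot A H (lowFace e) + pot A H (src e) = A e := by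
  obtain ⟨a, b, t⟩ := e
  cases t
  · exact Potential_hor hA a b
  · have h1 := Potential_ver hA a b (max ((H : ℤ) - a + 1) (b + 1)) (le_max_left _ _)
      (lt_of_lt_of_le (by omega) (le_max_right _ _))
    rw [Finset.sum_eq_zero (fun j _ => hv _), add_zero] at h1
    exact h1

/-- Potential when `0` is the only vertex of odd degree. -/
theorem pot_odd (hA : ∀ e : Edge, ¬ (-(H : ℤ) < e.1 + e.2.1 ∧ e.1 + e.2.1 + 1 < H) → A e = 0)
    (hv : ∀ V, V ≠ 0 → vsum A V = 0) (h0 : vsum A 0 = 1) (e : Edge) :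
    pot A H (lowFace e) + pot A H (src e) =
      A e + if e.2.2 = true ∧ e.1 = 0 ∧ e.2.1 < 0 then 1 else 0 := by
  obtain ⟨a, b, t⟩ := e
  cases t
  · simp only [Bool.false_eq_true, false_and, if_false, add_zero]
    exact Potential_hor hA a b
  · obtain ⟨K, hK1, hK2, hK3⟩ : ∃ K : ℤ, (H : ℤ) - a + 1 ≤ K ∧ b < K ∧ 0 < K :=
      ⟨max ((H : ℤ) - a + 1) (max (b + 1) 1), le_max_left _ _,
        lt_of_lt_of_le (by omega) ((le_max_left _ _).trans (le_max_right _ _)),
        lt_of_lt_of_le (by omega) ((le_max_right _ _).trans (le_max_right _ _))⟩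
    have h1 := Potential_ver hA a b K hK1 hK2
    have h2 : ∑ j ∈ Finset.Ioo b K, vsum A (a, j) = if a = 0 ∧ b < 0 then 1 else 0 := by
      split_ifs with h
      · obtain ⟨ha, hb⟩ := h
        subst ha
        rw [Finset.sum_eq_single_of_mem (0 : ℤ) (Finset.mem_Ioo.2 ⟨hb, hK3⟩)]
        · exact h0
        · intro j _ hj
          apply hv
          intro h
          exact hj (congrArg Prod.snd h)
      · apply Finset.sum_eq_zero
        intro j hj
        apply hv
        intro h'
        rw [Finset.mem_Ioo] at hj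
        have e1 : a = 0 := congrArg Prod.fst h'
        have e2 : j = 0 := congrArg Prod.snd h'
        exact h ⟨e1, by omega⟩
    rw [h2] at h1
    simp only [true_and]
    exact h1

private lemma Potential_vsum_add (c c' : Edge → ZMod 2) (V : Vert) :
    vsum (fun e => c e + c' e) V = vsum c V + vsum c' V := by
  unfold vsum
  ring

open Classical in
private lemma Potential_vsum_single (e : Edge) (V : Vert) :
    vsum (fun e' => if e' = e then (1 : ZMod 2) else 0) V =
      (if V = src e then 1 else 0) + (if V = tgt e then 1 else 0) := by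
  obtain ⟨x, y, t⟩ := e
  obtain ⟨a, b⟩ := V
  cases t
  · have h1 : ((a, b) : Vert) = tgt (x, y, false) ↔ a - 1 = x ∧ b = y := by
      simp only [tgt, Bool.false_eq_true, if_false, Prod.mk.injEq]
      omega
    simp only [vsum, src, h1, Prod.mk.injEq, and_true, Bool.true_eq_false, and_false, if_false,
      add_zero]
  · have h1 : ((a, b) : Vert) = tgt (x, y, true) ↔ a = x ∧ b - 1 = y := by
      simp only [tgt, if_true, Prod.mk.injEq]
      omega
    simp only [vsum, src, h1, Prod.mk.injEq, and_true, Bool.false_eq_true, and_false, if_false,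
      add_zero, zero_add]

/-- An open path gives an edge function with values in `ZMod 2`, supported on open edges between
vertices of `S`, with odd degree exactly at the two end points (if they are different). -/
theorem exists_pathSum {ω : Config} {S : Set Vert} {u v : Vert} (h : Perc.Conn ω S u v) :
    ∃ c : Edge → ZMod 2, (∀ e, c e ≠ 0 → ω e = true ∧ src e ∈ S ∧ tgt e ∈ S) ∧
      {e | c e ≠ 0}.Finite ∧
      ∀ V, vsum c V = (if V = u then 1 else 0) + (if V = v then 1 else 0) := by
  classical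
  refine h.induction_right (P := fun v => ∃ c : Edge → ZMod 2,
    (∀ e, c e ≠ 0 → ω e = true ∧ src e ∈ S ∧ tgt e ∈ S) ∧ {e | c e ≠ 0}.Finite ∧
      ∀ V, vsum c V = (if V = u then 1 else 0) + (if V = v then 1 else 0)) ?_ ?_
  · refine ⟨fun _ => 0, fun e he => absurd rfl he, by simp, fun V => ?_⟩
    rw [CharTwo.add_self_eq_zero]
    simp [vsum]
  · rintro a b - ⟨ha, hb, e, he, heo⟩ ⟨c, hc1, hc2, hc3⟩
    refine ⟨fun e' => c e' + if e' = e then 1 else 0, ?_, ?_, ?_⟩
    · intro e' he'
      by_cases h1 : e' = e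
      · rw [h1]
        rcases he with ⟨g1, g2⟩ | ⟨g1, g2⟩
        · exact ⟨heo, g1 ▸ ha, g2 ▸ hb⟩
        · exact ⟨heo, g2 ▸ hb, g1 ▸ ha⟩
      · apply hc1
        simpa [h1] using he'
    · refine (hc2.union (Set.finite_singleton e)).subset ?_
      intro e' he'
      by_cases h1 : e' = e
      · exact Or.inr h1
      · left
        simpa [h1] using he'
    · intro V
      rw [Potential_vsum_add, hc3, Potential_vsum_single]
      rcases he with ⟨g1, g2⟩ | ⟨g1, g2⟩
      · rw [g1, g2]
        have h2 := CharTwo.add_self_eq_zero (if V = src e then (1 : ZMod 2) else 0)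
        linear_combination h2
      · rw [g1, g2]
        have h2 := CharTwo.add_self_eq_zero (if V = tgt e then (1 : ZMod 2) else 0)
        linear_combination h2

/-- For a finite set of edges only finitely many translates of an edge meet it. -/
private lemma Potential_fin {ι : Type*} (φ : ι → ℤ) (hφ : Function.Injective φ) (n : ℕ)
    (hn : 1 ≤ n) {c : Edge → ZMod 2} (hc : {e | c e ≠ 0}.Finite) (x y : ℤ) (t : Bool) :
    (Function.support fun k : ι => c (x + n * φ k, y - n * φ k, t)).Finite := by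
  refine Set.Finite.preimage (f := fun k : ι => ((x + n * φ k, y - n * φ k, t) : Edge)) ?_ hc
  intro k _ k' _ h
  have h1 := congrArg Prod.fst h
  simp only at h1
  have h2 : (n : ℤ) * φ k = n * φ k' := by linarith only [h1]
  exact hφ (mul_left_cancel₀ (by exact_mod_cast (by omega : n ≠ 0)) h2)

private lemma Potential_vsum_finsum {ι : Type*} (φ : ι → ℤ) (hφ : Function.Injective φ) (n : ℕ)
    (hn : 1 ≤ n) {c : Edge → ZMod 2} (hc : {e | c e ≠ 0}.Finite) (V : Vert) :
    vsum (fun e => ∑ᶠ k : ι, c (e.1 + n * φ k, e.2.1 - n * φ k, e.2.2)) V =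
      ∑ᶠ k : ι, vsum c (V.1 + n * φ k, V.2 - n * φ k) := by
  have f1 := Potential_fin φ hφ n hn hc V.1 V.2 false
  have f2 := Potential_fin φ hφ n hn hc V.1 V.2 true
  have f3 := Potential_fin φ hφ n hn hc (V.1 - 1) V.2 false
  have f4 := Potential_fin φ hφ n hn hc V.1 (V.2 - 1) true
  have e3 : ∀ k, V.1 + (n : ℤ) * φ k - 1 = V.1 - 1 + n * φ k := fun k => by ring
  have e4 : ∀ k, V.2 - (n : ℤ) * φ k - 1 = V.2 - 1 - n * φ k := fun k => by ring
  unfold vsum
  simp only [e3, e4]
  have g1 := (f1.union f2).subset (Function.support_add _ _)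
  have g2 := (g1.union f3).subset (Function.support_add _ _)
  rw [finsum_add_distrib g2 f4, finsum_add_distrib g1 f3, finsum_add_distrib f1 f2]

/-- Sum of the translates of a path from `0` to `(n, -n)` by `(n k, - n k)`, `k ≥ 0`. -/
theorem exists_halfSum (n : ℕ) (hn : 1 ≤ n) {c : Edge → ZMod 2} (hc : {e | c e ≠ 0}.Finite)
    (hv : ∀ V : Vert, vsum c V = (if V = 0 then 1 else 0) + (if V = ((n : ℤ), -(n : ℤ)) then 1 else 0)) :
    ∃ C : Edge → ZMod 2, (∀ e, C e ≠ 0 → ∃ k : ℤ, c (e.1 + n * k, e.2.1 - n * k, e.2.2) ≠ 0) ∧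
      (∃ B : ℤ, ∀ e, C e ≠ 0 → B ≤ e.1) ∧
      (∀ V : Vert, V ≠ 0 → vsum C V = 0) ∧ vsum C 0 = 1 := by
  have hn0 : (0 : ℤ) < n := by exact_mod_cast hn
  have hφ : Function.Injective fun k : ℕ => -(k : ℤ) := by
    intro k k' h
    simp only at h
    omega
  obtain ⟨f, hf⟩ : ∃ f : Vert → ℕ → ZMod 2, ∀ V k, f V k =
      if V = ((n : ℤ) * k, -((n : ℤ) * k)) then 1 else 0 := ⟨_, fun _ _ => rfl⟩
  -- the degrees
  have hdeg : ∀ V : Vert, vsum (fun e => ∑ᶠ k : ℕ, c (e.1 + n * -(k : ℤ), e.2.1 - n * -(k : ℤ),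
      e.2.2)) V = f V 0 := by
    intro V
    have h1 := Potential_vsum_finsum (fun k : ℕ => -(k : ℤ)) hφ n hn hc V
    rw [h1]
    have h2 : ∀ k : ℕ, vsum c (V.1 + n * -(k : ℤ), V.2 - n * -(k : ℤ)) = f V k + f V (k + 1) := by
      intro k
      rw [hv, hf, hf]
      congr 1
      · have : ((V.1 + n * -(k : ℤ), V.2 - n * -(k : ℤ)) : Vert) = 0 ↔
            V = ((n : ℤ) * k, -((n : ℤ) * k)) := by
          obtain ⟨x, y⟩ := V
          simp only [Prod.mk_eq_zero, Prod.mk.injEq]
          constructor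
          · rintro ⟨h3, h4⟩
            constructor <;> linarith only [h3, h4]
          · rintro ⟨h3, h4⟩
            constructor <;> linarith only [h3, h4]
        simp only [this]
      · have : ((V.1 + n * -(k : ℤ), V.2 - n * -(k : ℤ)) : Vert) = ((n : ℤ), -(n : ℤ)) ↔
            V = ((n : ℤ) * ((k + 1 : ℕ) : ℤ), -((n : ℤ) * ((k + 1 : ℕ) : ℤ))) := by
          obtain ⟨x, y⟩ := V
          simp only [Prod.mk.injEq]
          push_cast
          constructor
          · rintro ⟨h3, h4⟩
            constructor <;> linarith only [h3, h4]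
          · rintro ⟨h3, h4⟩
            constructor <;> linarith only [h3, h4]
        simp only [this]
    simp only [h2]
    -- `f V k = 0` for large `k`
    have h3 : ∀ k : ℕ, V.1.natAbs < k → f V k = 0 := by
      intro k hk
      rw [hf, if_neg]
      intro h
      have h4 : V.1 = (n : ℤ) * k := by rw [h]
      have h5 : (k : ℤ) ≤ n * k := by nlinarith only [hn]
      omega
    rw [finsum_eq_sum_of_support_subset (s := Finset.range (V.1.natAbs + 1))]
    · have h4 : ∀ m : ℕ, ∑ k ∈ Finset.range m, (f V k + f V (k + 1)) = f V 0 + f V m := by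
        intro m
        induction m with
        | zero => simp [CharTwo.add_self_eq_zero]
        | succ m ih =>
          rw [Finset.sum_range_succ, ih]
          have h5 := CharTwo.add_self_eq_zero (f V m)
          linear_combination h5
      rw [h4, h3 (V.1.natAbs + 1) (by omega), add_zero]
    · intro k hk
      rw [Finset.coe_range, Set.mem_Iio]
      by_contra h4
      rw [Function.mem_support] at hk
      apply hk
      rw [h3 k (by omega), h3 (k + 1) (by omega), add_zero]
  refine ⟨fun e => ∑ᶠ k : ℕ, c (e.1 + n * -(k : ℤ), e.2.1 - n * -(k : ℤ), e.2.2), ?_, ?_, ?_, ?_⟩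
  · intro e he
    by_contra hno
    push Not at hno
    exact he (by simp only [hno]; exact finsum_zero)
  · obtain ⟨B, hB⟩ := (hc.image fun e => e.1).bddBelow
    refine ⟨B, fun e he => ?_⟩
    have h1 : ∃ k : ℕ, c (e.1 + n * -(k : ℤ), e.2.1 - n * -(k : ℤ), e.2.2) ≠ 0 := by
      by_contra hno
      push Not at hno
      exact he (by simp only [hno]; exact finsum_zero)
    obtain ⟨k, hk⟩ := h1
    have h2 : B ≤ e.1 + n * -(k : ℤ) := hB ⟨_, hk, rfl⟩
    have h3 : 0 ≤ (n : ℤ) * k := by positivity
    linarith only [h2, h3]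
  · intro V hV
    rw [hdeg, hf, if_neg]
    intro h
    apply hV
    rw [h]
    simp
  · rw [hdeg, hf, if_pos]
    simp only [Nat.cast_zero, mul_zero, neg_zero]
    rfl

end Pool.Agent.H89.Link

end

section

/-!
# Divided differences

For a polynomial `P` and two different variables `a, b` there is a polynomial `Q` with
`(X a - X b) Q = (q X b - q² X a) P(swap a b) - (q X a - q² X b) P`  (`q² + q + 1 = 0`), and the
exponents of `Q` lie between exponents of `P`.
-/

namespace Pool.Agent.H12.QKZ

open MvPolynomial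

set_option linter.unusedSectionVars false
set_option linter.unusedSimpArgs false

variable {σ K : Type*} [DecidableEq σ] [Field K]

/-- Remove the variables `a` and `b` from an exponent. -/
noncomputable def rest (a b : σ) (e : σ →₀ ℕ) : σ →₀ ℕ :=
  e - Finsupp.single a (e a) - Finsupp.single b (e b)

theorem rest_left {a b : σ} (e : σ →₀ ℕ) : rest a b e a = 0 := by
  simp [rest]

theorem rest_right {a b : σ} (hab : a ≠ b) (e : σ →₀ ℕ) : rest a b e b = 0 := by
  simp [rest, Finsupp.single_apply, hab]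

theorem rest_of_ne {a b c : σ} (hca : c ≠ a) (hcb : c ≠ b) (e : σ →₀ ℕ) : rest a b e c = e c := by
  simp [rest, Finsupp.single_apply, Ne.symm hca, Ne.symm hcb]

theorem InT.mono {a b : σ} (hab : a ≠ b) (e : σ →₀ ℕ) (c : K) (α β : ℕ)
    (h1 : α + β = e a + e b) (h2 : min (e a) (e b) ≤ α) (h3 : α ≤ max (e a) (e b)) :
    InT a b e (monomial (rest a b e) c * X a ^ α * X b ^ β) := by
  intro e' he'
  rw [X_pow_eq_monomial, X_pow_eq_monomial, monomial_mul, monomial_mul, mul_one, mul_one,
    coeff_monomial] at he'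
  split_ifs at he' with hh
  · subst hh
    have ha : (rest a b e + Finsupp.single a α + Finsupp.single b β) a = α := by
      simp [rest_left, Finsupp.single_apply, hab.symm]
    have hb : (rest a b e + Finsupp.single a α + Finsupp.single b β) b = β := by
      simp [rest_right hab, Finsupp.single_apply, hab]
    refine ⟨fun d hda hdb => ?_, ?_, ?_, ?_⟩
    · simp [rest_of_ne hda hdb, Finsupp.single_apply, Ne.symm hda, Ne.symm hdb]
    · rw [ha, hb, h1]
    · rw [ha]; exact h2
    · rw [ha]; exact h3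
  · exact absurd rfl he'

end Pool.Agent.H12.QKZ

end

section

/-!
# Joint degree and joint order
-/

namespace Pool.Agent.H12.QKZ

open MvPolynomial

set_option linter.unusedSectionVars false
set_option linter.unusedSimpArgs false

variable {σ K : Type*} [DecidableEq σ] [Field K]

theorem Bd.C_mul {S : Finset σ} {lo up : ℕ} {P : MvPolynomial σ K} (h : Bd S lo up P) (x : K) :
    Bd S lo up (C x * P) := by
  intro e he
  rw [coeff_C_mul] at he
  exact h e (right_ne_zero_of_mul he)

theorem Bd.var (S : Finset σ) (a : σ) :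
    Bd S (if a ∈ S then 1 else 0) (if a ∈ S then 1 else 0) (X a : MvPolynomial σ K) := by
  intro e he
  rw [coeff_X] at he
  split_ifs at he with h
  · subst h
    have : ∑ c ∈ S, (Finsupp.single a 1 : σ →₀ ℕ) c = if a ∈ S then 1 else 0 := by
      simp [Finsupp.single_apply]
    rw [this]; simp
  · exact absurd rfl he

theorem Bd.mono {S : Finset σ} {lo up lo' up' : ℕ} {P : MvPolynomial σ K} (h : Bd S lo up P)
    (h1 : lo' ≤ lo) (h2 : up ≤ up') : Bd S lo' up' P :=
  fun e he => ⟨h1.trans (h e he).1, (h e he).2.trans h2⟩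

/-- A linear form in two variables. -/
theorem Bd.lin (S : Finset σ) (a b : σ) (x y : K) :
    Bd S (if a ∈ S ∧ b ∈ S then 1 else 0) (if a ∈ S ∨ b ∈ S then 1 else 0)
      (C x * X b - C y * X a) := by
  refine Bd.sub ?_ ?_
  · refine (Bd.C_mul (Bd.var S b) x).mono ?_ ?_ <;> split_ifs <;> simp_all
  · refine (Bd.C_mul (Bd.var S a) y).mono ?_ ?_ <;> split_ifs <;> simp_all

end Pool.Agent.H12.QKZ

end

section

/-!
# The weights of the R-matrix

`bw q z w = (z - w) / (q w - q² z)` with `q² + q + 1 = 0` (so `q² = q⁻¹`), and its value on the unit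
circle, where it is real.
-/

namespace Pool.Agent.H12.QKZ

section field

variable {K : Type*} [Field K]

end field

end Pool.Agent.H12.QKZ

end

section

/-!
# The weights on the unit circle
-/

namespace Pool.Agent.H12.QKZ

open Complex

end Pool.Agent.H12.QKZ

end

section

/-!
# The R-matrix of the dense O(1) loop model: algebra

`Rm u e = (1 - u) • 1 + u • e` in an algebra, with `e * e = e`; unitarity and the Yang-Baxter equation.
-/

namespace Pool.Agent.H12.QKZ

section algebra

variable {K A : Type*} [CommRing K] [Ring A] [Algebra K A]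

end algebra

end Pool.Agent.H12.QKZ

end

section

/-!
# Fixed vectors of a stochastic matrix with a common reachable state

`P` is a real square matrix with nonnegative entries and column sums `1`, and some power of `P` has a
strictly positive row.  Then `P` has exactly one fixed vector whose coordinates sum to `1`.
-/

namespace Pool.Agent.H12.QKZ

open Matrix Finset

variable {S : Type*} [Fintype S] [DecidableEq S]

end Pool.Agent.H12.QKZ

end

section

/-!
# The scattering matrix of the line with the largest angle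
-/

namespace Pool.Agent.H12.QKZ

open H56.EX Matrix

set_option linter.unusedSectionVars false

section mapMat

variable {S : Type*} [Fintype S] [DecidableEq S]

end mapMat

variable {L : ℕ}

end Pool.Agent.H12.QKZ

end

section

/-!
# Zariski density of the admissible points
-/

namespace Pool.Agent.H12.QKZ

open H56.EX

end Pool.Agent.H12.QKZ

end

section

/-!
# The explicit sum `S_M(c; z)` of the leg functions: recursion and uniqueness

`q` is a primitive cube root of unity in a field `K`.  For a finite set `s` of indices, spectral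
parameters `z : ι → K` (pairwise distinct), and a list `c` of leg parameters, `SG` is
`∑_{A ⊆ s} ∏_{j ∈ A} (u ∏_i (c_i - q z_j)) ∏_{j ∈ s \ A} (v ∏_i (c_i - q² z_j)) ∏_{j ∈ A, k ∈ s \ A} g (z_j, z_k)`.
-/

set_option autoImplicit false

namespace Pool.Agent.H96.EX

open Finset Polynomial

variable {K ι : Type*} [Field K] [DecidableEq ι]

end Pool.Agent.H96.EX

end

section

/-!
# Divisibility of antisymmetric polynomials by a Vandermonde product
-/

namespace Pool.Agent.H34.Hom

open MvPolynomial

variable {σ : Type*}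

end Pool.Agent.H34.Hom

end

section

/-!
# `∏_{j<k} (z_j² + z_j z_k + z_k²) · SG` is a polynomial
-/

namespace Pool.Agent.H34.Hom

open Finset MvPolynomial

section poly

variable {κ : Type*}

end poly

end Pool.Agent.H34.Hom

end

section

/-!
# Homogeneous limits of the leg sums, and coefficientwise limits of polynomials
-/

namespace Pool.Agent.H34.Hom

open Finset Polynomial Filter Topology

/-! ### coefficientwise limits -/

end Pool.Agent.H34.Hom

end

section

/-!
# The three-term relation and the exponents modulo 3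
-/

namespace Pool.Agent.H34.Hom

open Finset Polynomial Filter Topology

/-! ### three-term relation for the leg sums -/

end Pool.Agent.H34.Hom

end

section

/-!
# Moments of the coefficients of a polynomial with a high order zero at `1`
-/

namespace Pool.Agent.H34.Hom

open Finset Polynomial

variable {K : Type*} [Field K]

end Pool.Agent.H34.Hom

end

section

/-!
# A very-well-poised alternating sum (WZ proof)

`gN N i = ∏_{m<N} (3i-3m-1)(3i-3m-2)` and `A0 M = ∑_i (-1)^(M-i) C(M,i) gN (M+1) i`.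
For even `M`: `A0 (M+2) * (m+2) = 36 (m+1)(2m+1)(2m+3)(3m+4)(3m+5) A0 M`, `M = 2m`.
-/

namespace Pool.Agent.H34.Hom

open Finset

end Pool.Agent.H34.Hom

end

section

/-! Symmetry consequences for the sums with an extra factor `i`. -/

namespace Pool.Agent.H34.Hom

open Finset

end Pool.Agent.H34.Hom

end

section

/-!
# A Chu-Vandermonde sum (WZ proof)

`∑_k (-1)^k C(M,k) / ∏_{m≤M} (3(k-m)-1)` in closed form.
-/

namespace Pool.Agent.H34.Hom

open Finset

variable (K : Type*) [Field K] [CharZero K]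

end Pool.Agent.H34.Hom

end

section

/-!
# Alternants, and the factorised sum rule

`alt e N z = det (z_i ^ e_j)`.  With `ex a = (0, a, 3, 3+a, 6, 6+a, …)` the product
`alt (ex 1) · alt (ex 2)` satisfies the recursion of the sum of the qKZ solution times the square
of the Vandermonde determinant.
-/

set_option autoImplicit false

namespace Pool.Agent.H34.Hom

open Finset Polynomial

section ring

variable {R : Type*} [CommRing R]

end ring

section poly

end poly

end Pool.Agent.H34.Hom

end

section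

/-!
# The sum rule: `Z_{2n} · Δ² · 3^{n(n-1)} = alt (ex 1) · alt (ex 2)`
-/

set_option autoImplicit false

namespace Pool.Agent.H34.Hom

open Finset Polynomial

/-- properties of the sum of the components -/
structure SR (q : ℂ) (Z : ℕ → (ℕ → ℂ) → ℂ) : Prop where
  swap : ∀ (L : ℕ) (z : ℕ → ℂ) (i : ℕ), i + 1 < L → Z L (z ∘ Equiv.swap i (i + 1)) = Z L z
  poly : ∀ L : ℕ, 0 < L → ∀ z : ℕ → ℂ, ∃ p : ℂ[X], p.natDegree ≤ L - 1 ∧
    ∀ t, Z L (Function.update z 0 t) = p.eval t
  recu : ∀ L : ℕ, 2 ≤ L → ∀ z : ℕ → ℂ, z 0 = q ^ 2 * z 1 → Z (L + 2) z =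
    (-q * z 1 * (∏ s ∈ range L, (z (s + 2) - q * z 1) ^ 2) / 3 ^ L) * Z L (fun n => z (n + 2))
  two : ∀ z : ℕ → ℂ, Z 2 z = z 0 + z 1

variable {q : ℂ} {Z : ℕ → (ℕ → ℂ) → ℂ}

/-- distinct cubes, nonzero, outside the index `i0` -/
def TG (N i0 : ℕ) (z : ℕ → ℂ) : Prop :=
  (∀ a < N, a ≠ i0 → z a ≠ 0) ∧ ∀ a < N, ∀ b < N, a ≠ b → a ≠ i0 → b ≠ i0 → z a ^ 3 ≠ z b ^ 3

lemma swap_lt' {N x y a : ℕ} (hx : x < N) (hy : y < N) (ha : a < N) : Equiv.swap x y a < N := by
  rcases eq_or_ne a x with h | h
  · rw [h, Equiv.swap_apply_left]; exact hy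
  · rcases eq_or_ne a y with h' | h'
    · rw [h', Equiv.swap_apply_right]; exact hx
    · rw [Equiv.swap_apply_of_ne_of_ne h h']; exact ha

lemma TG.swap {N i0 : ℕ} {z : ℕ → ℂ} (h : TG N i0 z) {x y : ℕ} (hx : x < N) (hy : y < N) :
    TG N (Equiv.swap x y i0) (z ∘ Equiv.swap x y) := by
  have key : ∀ a, a ≠ Equiv.swap x y i0 → Equiv.swap x y a ≠ i0 := by
    intro a ha h1
    apply ha
    rw [← h1]; simp
  refine ⟨fun a ha h0 => h.1 _ (swap_lt' hx hy ha) (key a h0), fun a ha b hb hab h0 h1 => ?_⟩
  exact h.2 _ (swap_lt' hx hy ha) _ (swap_lt' hx hy hb) (fun e => hab (Equiv.injective _ e))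
    (key a h0) (key b h1)

end Pool.Agent.H34.Hom

end

section

/-! Exchange relations of leg sums. -/

namespace H56.EX

open scoped BigOperators Classical

variable {Lt Lb : ℕ}

/-- indicator of the leg class -/
noncomputable def chi (kt kb M : ℕ) (Pt : Pat Lt) (Pb : Pat Lb) : ℂ :=
  if Leg kt kb M Pt Pb then 1 else 0

lemma legSum_eq (kt kb M : ℕ) (v : Pat Lt → ℂ) (w : Pat Lb → ℂ) :
    legSum kt kb M v w = ∑ Pt, ∑ Pb, chi kt kb M Pt Pb * (v Pt * w Pb) := by
  unfold legSum chi
  refine Finset.sum_congr rfl fun Pt _ => Finset.sum_congr rfl fun Pb _ => ?_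
  by_cases h : Leg kt kb M Pt Pb <;> simp [h]

lemma legSum_eop_left (kt kb M : ℕ) (i : ℤ) (v : Pat Lt → ℂ) (w : Pat Lb → ℂ) :
    legSum kt kb M (eop i v) w = ∑ Pt, ∑ Pb, chi kt kb M (E i Pt) Pb * (v Pt * w Pb) := by
  rw [legSum_eq]
  have h1 : ∀ Pt : Pat Lt, ∑ Pb : Pat Lb, chi kt kb M Pt Pb * (eop i v Pt * w Pb) =
      ∑ P' : Pat Lt, ∑ Pb : Pat Lb,
        (if E i P' = Pt then chi kt kb M Pt Pb * (v P' * w Pb) else 0) := by
    intro Pt
    rw [Finset.sum_comm]
    refine Finset.sum_congr rfl fun Pb _ => ?_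
    unfold eop
    rw [Finset.sum_mul, Finset.mul_sum]
    refine Finset.sum_congr rfl fun P' _ => ?_
    by_cases h : E i P' = Pt <;> simp [h]
  rw [Finset.sum_congr rfl (fun Pt _ => h1 Pt), Finset.sum_comm]
  refine Finset.sum_congr rfl fun P' _ => ?_
  rw [Finset.sum_comm]
  refine Finset.sum_congr rfl fun Pb _ => ?_
  rw [Finset.sum_ite_eq Finset.univ (E i P')]
  simp

lemma legSum_swap' (kt kb M : ℕ) (i : ℤ) (v : Pat Lt → ℂ) (w : Pat Lb → ℂ) :
    legSum kt kb M v (eop i w) = ∑ Pt, ∑ Pb, chi kt kb M Pt (E i Pb) * (v Pt * w Pb) := by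
  rw [legSum_eq]
  refine Finset.sum_congr rfl fun Pt _ => ?_
  have h1 : ∀ Pb : Pat Lb, chi kt kb M Pt Pb * (v Pt * eop i w Pb) =
      ∑ P' : Pat Lb, (if E i P' = Pb then chi kt kb M Pt Pb * (v Pt * w P') else 0) := by
    intro Pb
    unfold eop
    rw [Finset.mul_sum, Finset.mul_sum]
    refine Finset.sum_congr rfl fun P' _ => ?_
    by_cases h : E i P' = Pb <;> simp [h]
  rw [Finset.sum_congr rfl (fun Pb _ => h1 Pb), Finset.sum_comm]
  refine Finset.sum_congr rfl fun P' _ => ?_
  rw [Finset.sum_ite_eq Finset.univ (E i P')]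
  simp

section linear

variable (kt kb M : ℕ)

lemma legSum_add_left (v v' : Pat Lt → ℂ) (w : Pat Lb → ℂ) :
    legSum kt kb M (fun P => v P + v' P) w = legSum kt kb M v w + legSum kt kb M v' w := by
  simp only [legSum_eq, ← Finset.sum_add_distrib]
  refine Finset.sum_congr rfl fun _ _ => Finset.sum_congr rfl fun _ _ => by ring

lemma legSum_smul_left (c : ℂ) (v : Pat Lt → ℂ) (w : Pat Lb → ℂ) :
    legSum kt kb M (fun P => c * v P) w = c * legSum kt kb M v w := by
  simp only [legSum_eq, Finset.mul_sum]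
  refine Finset.sum_congr rfl fun _ _ => Finset.sum_congr rfl fun _ _ => by ring

lemma legSum_add_right (v : Pat Lt → ℂ) (w w' : Pat Lb → ℂ) :
    legSum kt kb M v (fun P => w P + w' P) = legSum kt kb M v w + legSum kt kb M v w' := by
  simp only [legSum_eq, ← Finset.sum_add_distrib]
  refine Finset.sum_congr rfl fun _ _ => Finset.sum_congr rfl fun _ _ => by ring

lemma legSum_smul_right (c : ℂ) (v : Pat Lt → ℂ) (w : Pat Lb → ℂ) :
    legSum kt kb M v (fun P => c * w P) = c * legSum kt kb M v w := by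
  simp only [legSum_eq, Finset.mul_sum]
  refine Finset.sum_congr rfl fun _ _ => Finset.sum_congr rfl fun _ _ => by ring

end linear

/-! ### top-bottom symmetry -/

lemma connSwap {kt kb M : ℕ} {Pt : Pat Lt} {Pb : Pat Lb} {u v : ℤ ⊕ ℤ}
    (h : Conn kt kb M Pt Pb u v) : Conn kb kt M Pb Pt u.swap v.swap := by
  induction h with
  | rel x y h =>
    cases h with
    | top x => exact Relation.EqvGen.rel _ _ (Step.bot x)
    | bot y => exact Relation.EqvGen.rel _ _ (Step.top y)
    | glue a j hj => exact Relation.EqvGen.symm _ _ (Relation.EqvGen.rel _ _ (Step.glue a j hj))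
  | refl x => exact Relation.EqvGen.refl _
  | symm x y _ ih => exact Relation.EqvGen.symm _ _ ih
  | trans x y z _ _ ih1 ih2 => exact Relation.EqvGen.trans _ _ _ ih1 ih2

lemma hpos_swap {kt kb : ℕ} (u : Fin kt ⊕ Fin kb) (a : ℤ) :
    (hpos Lt Lb kt kb u a).swap = hpos Lb Lt kb kt u.swap a := by
  cases u <;> rfl

lemma legSwap_imp {kt kb M : ℕ} {Pt : Pat Lt} {Pb : Pat Lb} (h : Leg kt kb M Pt Pb) :
    Leg kb kt M Pb Pt := by
  intro u v a b hc
  have h1 := connSwap hc
  rw [hpos_swap, hpos_swap] at h1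
  rcases h u.swap v.swap a b h1 with ⟨h2, h3⟩ | h2
  · left
    exact ⟨by rw [← Sum.swap_swap u, h2, Sum.swap_swap], h3⟩
  · exact Or.inr h2

/-- LT5 -/
theorem legSwap {kt kb M : ℕ} {Pt : Pat Lt} {Pb : Pat Lb} :
    Leg kt kb M Pt Pb ↔ Leg kb kt M Pb Pt := ⟨legSwap_imp, legSwap_imp⟩

lemma chi_swap (kt kb M : ℕ) (Pt : Pat Lt) (Pb : Pat Lb) :
    chi kt kb M Pt Pb = chi kb kt M Pb Pt := by
  unfold chi
  simp only [legSwap (kt := kt) (kb := kb)]

lemma legSum_swap (kt kb M : ℕ) (v : Pat Lt → ℂ) (w : Pat Lb → ℂ) :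
    legSum kt kb M v w = legSum kb kt M w v := by
  rw [legSum_eq, legSum_eq, Finset.sum_comm]
  refine Finset.sum_congr rfl fun _ _ => Finset.sum_congr rfl fun _ _ => ?_
  rw [chi_swap]; ring

/-! ### hole ends (LT2) -/

/-- LT2: a small arc between consecutive hole ends of the top excludes the leg class -/
theorem not_leg_top {kt kb M : ℕ} {Pt : Pat Lt} {Pb : Pat Lb} (s : ℕ) (hs : s + 1 < kt)
    (h : Pt.m s = s + 1) : ¬ Leg kt kb M Pt Pb := by
  intro hl
  have hc : Conn kt kb M Pt Pb (hpos Lt Lb kt kb (Sum.inl ⟨s, by omega⟩) 0)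
      (hpos Lt Lb kt kb (Sum.inl ⟨s + 1, hs⟩) 0) := by
    have := Relation.EqvGen.rel _ _ (Step.top (kt := kt) (kb := kb) (M := M) (Pt := Pt) (Pb := Pb) s)
    rw [h] at this
    simpa [hpos, Conn] using this
  rcases hl _ _ _ _ hc with ⟨h1, _⟩ | h1
  · simp at h1
  · simp at h1

lemma legSum_eop_hole (kt kb M : ℕ) (s : ℕ) (hs : s + 1 < kt) (v : Pat Lt → ℂ) (w : Pat Lb → ℂ) :
    legSum kt kb M (eop s v) w = 0 := by
  rw [legSum_eop_left]
  apply Finset.sum_eq_zero
  intro Pt _
  apply Finset.sum_eq_zero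
  intro Pb _
  have : ¬ Leg kt kb M (E s Pt) Pb := not_leg_top s hs (by simpa using E.self Pt (s : ℤ))
  simp [chi, this]

section psi

variable {Ψ : ∀ L : ℕ, Pat L → (ℤ → ℂ) → ℂ} (hΨ : PsiProps Ψ)

include hΨ

/-- exchange of two neighbouring hole ends at the top: a scalar -/
theorem exch_hole_top (kt kb M : ℕ) (s : ℕ) (hs : s + 1 < kt) (ζ : ℤ → ℂ) (hζ : Per Lt ζ)
    (w : Pat Lb → ℂ) :
    (q * ζ (s + 1) - q⁻¹ * ζ s) * legSum kt kb M (fun P => Ψ Lt P (swp Lt s ζ)) w =
      (q * ζ s - q⁻¹ * ζ (s + 1)) * legSum kt kb M (fun P => Ψ Lt P ζ) w := by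
  rw [← legSum_smul_left]
  have h1 : (fun P : Pat Lt => (q * ζ (s + 1) - q⁻¹ * ζ s) * Ψ Lt P (swp Lt s ζ)) =
      fun P => (q * ζ s - q⁻¹ * ζ (s + 1)) * Ψ Lt P ζ +
        (ζ s - ζ (s + 1)) * eop s (fun P' => Ψ Lt P' ζ) P := by
    funext P
    exact hΨ.exch Lt P ζ hζ s
  rw [h1, legSum_add_left, legSum_smul_left, legSum_smul_left, legSum_eop_hole _ _ _ s hs]
  ring

theorem exch_hole_bot (kt kb M : ℕ) (s : ℕ) (hs : s + 1 < kb) (ζ : ℤ → ℂ) (hζ : Per Lb ζ)
    (v : Pat Lt → ℂ) :
    (q * ζ (s + 1) - q⁻¹ * ζ s) * legSum kt kb M v (fun P => Ψ Lb P (swp Lb s ζ)) =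
      (q * ζ s - q⁻¹ * ζ (s + 1)) * legSum kt kb M v (fun P => Ψ Lb P ζ) := by
  rw [legSum_swap, legSum_swap kt kb M]
  exact exch_hole_top hΨ kb kt M s hs ζ hζ v

/-- simultaneous exchange of two neighbouring glued strands (uses LT1 as hypothesis `hadj`). -/
theorem exch_glued (kt kb M : ℕ) (j : ℕ)
    (hadj : ∀ (Pt : Pat Lt) (Pb : Pat Lb),
      Leg kt kb M (E (kt + j) Pt) Pb ↔ Leg kt kb M Pt (E (kb + j) Pb))
    (ζ ξ : ℤ → ℂ) (hζ : Per Lt ζ) (hξ : Per Lb ξ)
    (h0 : ζ (kt + j) ≠ 0) (h1 : ζ (kt + j + 1) ≠ 0)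
    (e0 : ξ (kb + j) = (ζ (kt + j))⁻¹) (e1 : ξ (kb + j + 1) = (ζ (kt + j + 1))⁻¹)
    (g0 : q * ζ (kt + j + 1) - q⁻¹ * ζ (kt + j) ≠ 0)
    (g1 : q * ζ (kt + j) - q⁻¹ * ζ (kt + j + 1) ≠ 0) :
    legSum kt kb M (fun P => Ψ Lt P (swp Lt (kt + j) ζ)) (fun P => Ψ Lb P (swp Lb (kb + j) ξ)) =
      legSum kt kb M (fun P => Ψ Lt P ζ) (fun P => Ψ Lb P ξ) := by
  set i : ℤ := kt + j with hi
  set i' : ℤ := kb + j with hi'
  set x := ζ i with hx
  set y := ζ (i + 1) with hy
  set v : Pat Lt → ℂ := fun P => Ψ Lt P ζ with hv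
  set w : Pat Lb → ℂ := fun P => Ψ Lb P ξ with hw
  have ht : ∀ P : Pat Lt, (q * y - q⁻¹ * x) * Ψ Lt P (swp Lt i ζ) =
      (q * x - q⁻¹ * y) * v P + (x - y) * eop i v P := fun P => hΨ.exch Lt P ζ hζ i
  have hb : ∀ P : Pat Lb, (q * x - q⁻¹ * y) * Ψ Lb P (swp Lb i' ξ) =
      (q * y - q⁻¹ * x) * w P + (-(x - y)) * eop i' w P := by
    intro P
    have := hΨ.exch Lb P ξ hξ i'
    rw [e0, e1] at this
    have hq := q_ne_zero
    field_simp at this ⊢
    linear_combination this
  have hmain : ((q * y - q⁻¹ * x) * (q * x - q⁻¹ * y)) *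
      legSum kt kb M (fun P => Ψ Lt P (swp Lt i ζ)) (fun P => Ψ Lb P (swp Lb i' ξ)) =
      ((q * y - q⁻¹ * x) * (q * x - q⁻¹ * y)) * legSum kt kb M v w := by
    have adj1 : ∀ (v : Pat Lt → ℂ) (w : Pat Lb → ℂ),
        legSum kt kb M (eop i v) w = legSum kt kb M v (eop i' w) := by
      intro v w
      rw [legSum_eop_left, legSum_swap']
      refine Finset.sum_congr rfl fun _ _ => Finset.sum_congr rfl fun _ _ => ?_
      unfold chi
      simp only [hadj]
    have idem : ∀ w : Pat Lb → ℂ, legSum kt kb M v (eop i' (eop i' w)) =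
        legSum kt kb M v (eop i' w) := by
      intro w
      have : eop i' (eop i' w) = eop i' w := by
        funext P
        unfold eop
        have h2 : ∀ P' : Pat Lb, (if E i' P' = P then (∑ P'' : Pat Lb,
            if E i' P'' = P' then w P'' else 0) else 0) =
            ∑ P'' : Pat Lb, if E i' P'' = P' then (if E i' P' = P then w P'' else 0) else 0 := by
          intro P'
          by_cases h : E i' P' = P <;> simp [h]
        rw [Finset.sum_congr rfl (fun P' _ => h2 P'), Finset.sum_comm]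
        refine Finset.sum_congr rfl fun P'' _ => ?_
        rw [Finset.sum_ite_eq Finset.univ (E i' P'')]
        simp [E.idem]
      rw [this]
    rw [mul_assoc, ← legSum_smul_right, ← legSum_smul_left]
    rw [show (fun P => (q * y - q⁻¹ * x) * Ψ Lt P (swp Lt i ζ)) =
      fun P => (q * x - q⁻¹ * y) * v P + (x - y) * eop i v P from funext ht,
      show (fun P => (q * x - q⁻¹ * y) * Ψ Lb P (swp Lb i' ξ)) =
      fun P => (q * y - q⁻¹ * x) * w P + (-(x - y)) * eop i' w P from funext hb]
    simp only [legSum_add_left, legSum_add_right, legSum_smul_left, legSum_smul_right, adj1, idem]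
    have hq2 : q⁻¹ = -1 - q := by
      rw [q_inv]; linear_combination q_sq
    rw [hq2]
    ring
  exact mul_left_cancel₀ (mul_ne_zero g0 g1) hmain

end psi

end H56.EX

end
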