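import Pool.Agent.H94.BG.H31.PT.M31_1
import Pool.Agent.H94.BG.H31.PT.M31_4

/-! The parts of this file: H85.Gamma.Window, H31.EX.PowerLaw, H56.EX.Pat, H56.EX.TL, H56.EX.Ins, H89.Link.Defs, H89.Link.Row, H56.EX.Defs, H89.Link.Potential, H12.QKZ.DivDiff, H12.QKZ.Support, H12.QKZ.Weights, H12.QKZ.Trig, H12.QKZ.RMat, H12.QKZ.Doeblin, H12.QKZ.Scatter, H12.QKZ.Dens, H96.EX.SSum, H34.Hom.Dvd, H34.Hom.Ext, H34.Hom.Lim, H34.Hom.Three, H34.Hom.Moments, H34.Hom.Wz, H34.Hom.Wz2, H34.Hom.Chu, H34.Hom.Alt, H34.Hom.SumId, H56.EX.Exch. -/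

section

/-!
# Stability of the one-arm probability below the critical point
-/

open MeasureTheory ProbabilityTheory unitInterval Filter Topology

namespace Pool.Agent.H85.Gamma

open Pool.Agent.H89.Perc

end Pool.Agent.H85.Gamma

end

section

/-!
# Power laws with `o(1)` in the exponent

`PL F a` means `F h = h ^ (a + o(1))` as `h ↓ 0`, `PN f a` means `f n = n ^ (-a + o(1))` as
`n → ∞`.
-/

namespace Pool.Agent.H31.EX

end Pool.Agent.H31.EX

end

section

/-! Link patterns on the half infinite cylinder (punctured disc), as involutions on the universal cover,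
and the periodic Temperley-Lieb moves `e_i` (contractible and noncontractible loops are dropped). -/

namespace H56.EX

namespace Pat

end Pat

section closure

variable {L : ℕ} (P : Pat L) (i : ℤ)

@[simp] lemma E_m (i : ℤ) (P : Pat L) (x : ℤ) : (E i P).m x = tl L i P.m x := rfl

end closure

end H56.EX

end

section

/-! Temperley-Lieb relations for the moves `E i` on link patterns. -/

namespace H56.EX

variable {L : ℕ}

namespace E

end E

lemma rot_E (i : ℤ) (P : Pat L) : rot (E i P) = E (i + 1) (rot P) := by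
  apply Pat.ext
  funext x
  show tl L i P.m (x - 1) + 1 = tl L (i + 1) (fun x => P.m (x - 1) + 1) x
  unfold tl
  have e1 : x - (i + 1) = x - 1 - i := by ring
  have e2 : x - (i + 1 + 1) = x - 1 - (i + 1) := by ring
  have e3 : P.m (x - 1) + 1 - (i + 1) = P.m (x - 1) - i := by ring
  have e4 : P.m (x - 1) + 1 - (i + 1 + 1) = P.m (x - 1) - (i + 1) := by ring
  simp only [e1, e2, e3, e4]
  split_ifs <;> simp

/-- far commutation -/
lemma E_comm {i j : ℤ} (P : Pat L) (h1 : ¬ Cg L i j) (h2 : ¬ Cg L i (j + 1))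
    (h3 : ¬ Cg L (i + 1) j) : E i (E j P) = E j (E i P) := by
  have hL := P.two_le
  have h4 : ¬ Cg L (i + 1) (j + 1) := by
    intro h
    apply h1
    have := Cg.sub 1 h
    simpa using this
  -- one half
  have key : ∀ (i j : ℤ), ¬ Cg L i j → ¬ Cg L i (j + 1) → ¬ Cg L (i + 1) j →
      ¬ Cg L (i + 1) (j + 1) → ∀ x, ¬ Cg L x i → ¬ Cg L x (i + 1) → ¬ Cg L x j →
      ¬ Cg L x (j + 1) → (Cg L (P.m x) i ∨ Cg L (P.m x) (i + 1)) →
      (E i (E j P)).m x = (E j (E i P)).m x := by
    intro i j h1 h2 h3 h4 x x1 x2 x3 x4 hx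
    rcases hx with hx | hx
    · have y3 : ¬ Cg L (P.m x) j := fun h => h1 (Cg.trans' (Cg.symm' hx) h)
      have y4 : ¬ Cg L (P.m x) (j + 1) := fun h => h2 (Cg.trans' (Cg.symm' hx) h)
      have ej : (E j P).m x = P.m x := E.other P j x3 x4 y3 y4
      have ei : (E i P).m x = P.m (P.m x + 1) := E.of_m P i x1 x2 hx
      have hx' : Cg L (P.m x + 1) (i + 1) := Cg.add 1 hx
      have z3 : ¬ Cg L (P.m x + 1) j := fun h => h3 (Cg.trans' (Cg.symm' hx') h)
      have z4 : ¬ Cg L (P.m x + 1) (j + 1) := fun h => h4 (Cg.trans' (Cg.symm' hx') h)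
      have L1 : (E i (E j P)).m x = (E j P).m (P.m x + 1) := by
        rw [E.of_m (E j P) i x1 x2 (by rw [ej]; exact hx), ej]
      rw [L1]
      obtain ⟨w1, w2⟩ := E.mem_not P i x1 x2
      rw [ei] at w1 w2
      by_cases c1 : Cg L (P.m (P.m x + 1)) j
      · rw [E.of_m P j z3 z4 c1, E.of_m (E i P) j x3 x4 (by rw [ei]; exact c1), ei]
        set w := P.m (P.m x + 1) with hw
        have c1' : Cg L (w + 1) (j + 1) := Cg.add 1 c1
        have v1 : ¬ Cg L (w + 1) i := fun h => h2 (Cg.trans' (Cg.symm' h) c1')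
        have v2 : ¬ Cg L (w + 1) (i + 1) := fun h => h4 (Cg.trans' (Cg.symm' h) c1')
        symm
        apply E.other P i v1 v2
        · intro h
          -- P.m (w+1) ≡ i ≡ P.m x
          have := Cg.m' P (Cg.trans' h (Cg.symm' hx))
          exact x4 (Cg.trans' (Cg.symm' this) c1')
        · intro h
          have h5 : Cg L (P.m (w + 1)) (P.m w) := by
            rw [hw, P.inv]; exact Cg.trans' h (Cg.symm' hx')
          exact not_Cg_succ hL w (Cg.symm' (Cg.m' P h5))
      by_cases c2 : Cg L (P.m (P.m x + 1)) (j + 1)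
      · rw [E.of_m_succ P j z3 z4 c2, E.of_m_succ (E i P) j x3 x4 (by rw [ei]; exact c2), ei]
        set w := P.m (P.m x + 1) with hw
        have c1' : Cg L (w - 1) j := by
          have := Cg.sub 1 c2
          simpa using this
        have v1 : ¬ Cg L (w - 1) i := fun h => h1 (Cg.trans' (Cg.symm' h) c1')
        have v2 : ¬ Cg L (w - 1) (i + 1) := fun h => h3 (Cg.trans' (Cg.symm' h) c1')
        symm
        apply E.other P i v1 v2
        · intro h
          have := Cg.m' P (Cg.trans' h (Cg.symm' hx))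
          exact x3 (Cg.trans' (Cg.symm' this) c1')
        · intro h
          have h5 : Cg L (P.m (w - 1)) (P.m w) := by
            rw [hw, P.inv]; exact Cg.trans' h (Cg.symm' hx')
          have h6 := Cg.m' P h5
          apply not_Cg_succ hL (w - 1)
          rwa [show w - 1 + 1 = w by ring]
      · rw [E.other P j z3 z4 c1 c2, E.other (E i P) j x3 x4 (by rw [ei]; exact c1)
          (by rw [ei]; exact c2), ei]
    · have y3 : ¬ Cg L (P.m x) j := fun h => h3 (Cg.trans' (Cg.symm' hx) h)
      have y4 : ¬ Cg L (P.m x) (j + 1) := fun h => h4 (Cg.trans' (Cg.symm' hx) h)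
      have ej : (E j P).m x = P.m x := E.other P j x3 x4 y3 y4
      have ei : (E i P).m x = P.m (P.m x - 1) := E.of_m_succ P i x1 x2 hx
      have hx' : Cg L (P.m x - 1) i := by
        have := Cg.sub 1 hx
        simpa using this
      have z3 : ¬ Cg L (P.m x - 1) j := fun h => h1 (Cg.trans' (Cg.symm' hx') h)
      have z4 : ¬ Cg L (P.m x - 1) (j + 1) := fun h => h2 (Cg.trans' (Cg.symm' hx') h)
      have L1 : (E i (E j P)).m x = (E j P).m (P.m x - 1) := by
        rw [E.of_m_succ (E j P) i x1 x2 (by rw [ej]; exact hx), ej]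
      rw [L1]
      obtain ⟨w1, w2⟩ := E.mem_not P i x1 x2
      rw [ei] at w1 w2
      by_cases c1 : Cg L (P.m (P.m x - 1)) j
      · rw [E.of_m P j z3 z4 c1, E.of_m (E i P) j x3 x4 (by rw [ei]; exact c1), ei]
        set w := P.m (P.m x - 1) with hw
        have c1' : Cg L (w + 1) (j + 1) := Cg.add 1 c1
        have v1 : ¬ Cg L (w + 1) i := fun h => h2 (Cg.trans' (Cg.symm' h) c1')
        have v2 : ¬ Cg L (w + 1) (i + 1) := fun h => h4 (Cg.trans' (Cg.symm' h) c1')
        symm
        apply E.other P i v1 v2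
        · intro h
          have h5 : Cg L (P.m (w + 1)) (P.m w) := by
            rw [hw, P.inv]; exact Cg.trans' h (Cg.symm' hx')
          exact not_Cg_succ hL w (Cg.symm' (Cg.m' P h5))
        · intro h
          have := Cg.m' P (Cg.trans' h (Cg.symm' hx))
          exact x4 (Cg.trans' (Cg.symm' this) c1')
      by_cases c2 : Cg L (P.m (P.m x - 1)) (j + 1)
      · rw [E.of_m_succ P j z3 z4 c2, E.of_m_succ (E i P) j x3 x4 (by rw [ei]; exact c2), ei]
        set w := P.m (P.m x - 1) with hw
        have c1' : Cg L (w - 1) j := by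
          have := Cg.sub 1 c2
          simpa using this
        have v1 : ¬ Cg L (w - 1) i := fun h => h1 (Cg.trans' (Cg.symm' h) c1')
        have v2 : ¬ Cg L (w - 1) (i + 1) := fun h => h3 (Cg.trans' (Cg.symm' h) c1')
        symm
        apply E.other P i v1 v2
        · intro h
          have h5 : Cg L (P.m (w - 1)) (P.m w) := by
            rw [hw, P.inv]; exact Cg.trans' h (Cg.symm' hx')
          have h6 := Cg.m' P h5
          apply not_Cg_succ hL (w - 1)
          rwa [show w - 1 + 1 = w by ring]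
        · intro h
          have := Cg.m' P (Cg.trans' h (Cg.symm' hx))
          exact x3 (Cg.trans' (Cg.symm' this) c1')
      · rw [E.other P j z3 z4 c1 c2, E.other (E i P) j x3 x4 (by rw [ei]; exact c1)
          (by rw [ei]; exact c2), ei]
  have h2' : ¬ Cg L j (i + 1) := fun h => h3 (Cg.symm' h)
  have h3' : ¬ Cg L (j + 1) i := fun h => h2 (Cg.symm' h)
  have h1' : ¬ Cg L j i := fun h => h1 (Cg.symm' h)
  have h4' : ¬ Cg L (j + 1) (i + 1) := fun h => h4 (Cg.symm' h)
  apply Pat.ext
  funext x
  by_cases x1 : Cg L x i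
  · refine Pat.eq_of_dvd x1 ?_
    rw [E.self, E.other (E i P) j h1 h2 (by rw [E.self]; exact h3) (by rw [E.self]; exact h4),
      E.self]
  by_cases x2 : Cg L x (i + 1)
  · refine Pat.eq_of_dvd x2 ?_
    rw [E.succ, E.other (E i P) j h3 h4 (by rw [E.succ]; exact h1) (by rw [E.succ]; exact h2),
      E.succ]
  by_cases x3 : Cg L x j
  · refine Pat.eq_of_dvd x3 ?_
    rw [E.self, E.other (E j P) i h1' h2' (by rw [E.self]; exact h3') (by rw [E.self]; exact h4'),
      E.self]
  by_cases x4 : Cg L x (j + 1)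
  · refine Pat.eq_of_dvd x4 ?_
    rw [E.succ, E.other (E j P) i h3' h4' (by rw [E.succ]; exact h1') (by rw [E.succ]; exact h2'),
      E.succ]
  by_cases y1 : Cg L (P.m x) i
  · exact key i j h1 h2 h3 h4 x x1 x2 x3 x4 (Or.inl y1)
  by_cases y2 : Cg L (P.m x) (i + 1)
  · exact key i j h1 h2 h3 h4 x x1 x2 x3 x4 (Or.inr y2)
  by_cases y3 : Cg L (P.m x) j
  · exact (key j i h1' h2' h3' h4' x x3 x4 x1 x2 (Or.inl y3)).symm
  by_cases y4 : Cg L (P.m x) (j + 1)
  · exact (key j i h1' h2' h3' h4' x x3 x4 x1 x2 (Or.inr y4)).symm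
  have ej : (E j P).m x = P.m x := E.other P j x3 x4 y3 y4
  have ei : (E i P).m x = P.m x := E.other P i x1 x2 y1 y2
  rw [E.other (E j P) i x1 x2 (by rw [ej]; exact y1) (by rw [ej]; exact y2), ej,
    E.other (E i P) j x3 x4 (by rw [ei]; exact y3) (by rw [ei]; exact y4), ei]

/-- `e_{i+1} e_i e_{i+1} = e_{i+1}` -/
lemma E_braid' (i : ℤ) (P : Pat L) (hL : 3 ≤ L) :
    E (i + 1) (E i (E (i + 1) P)) = E (i + 1) P := by
  set Q := E (i + 1) P with hQ
  have hQi : Q.m (i + 1) = i + 1 + 1 := E.self P (i + 1)
  have hQi1 : Q.m (i + 1 + 1) = i + 1 := E.succ P (i + 1)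
  have n1 : ¬ Cg L i (i + 1) := not_Cg_succ (by omega) i
  have n2 : ¬ Cg L (i + 1) (i + 1 + 1) := not_Cg_succ (by omega) (i + 1)
  have n3 : ¬ Cg L i (i + 1 + 1) := by
    unfold Cg
    intro h
    have e : i - (i + 1 + 1) = -2 := by ring
    rw [e] at h
    have := Int.le_of_dvd (by norm_num) ((dvd_neg).1 h)
    omega
  have n1' : ¬ Cg L (i + 1) i := fun h => n1 (Cg.symm' h)
  have n2' : ¬ Cg L (i + 1 + 1) (i + 1) := fun h => n2 (Cg.symm' h)
  have n3' : ¬ Cg L (i + 1 + 1) i := fun h => n3 (Cg.symm' h)
  set R := E i Q with hR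
  have hRi : R.m (i + 1 + 1) = Q.m i := by
    have := E.of_m_succ Q i n3' n2' (by rw [hQi1]; exact Cg.refl' _)
    rw [hQi1, show i + 1 - 1 = i by ring] at this
    exact this
  apply Pat.ext
  funext x
  by_cases x1 : Cg L x (i + 1)
  · exact Pat.eq_of_dvd x1 (by rw [E.self, hQi])
  by_cases x2 : Cg L x (i + 1 + 1)
  · exact Pat.eq_of_dvd x2 (by rw [E.succ, hQi1])
  by_cases x3 : Cg L x i
  · refine Pat.eq_of_dvd x3 ?_
    have r1 : R.m i = i + 1 := E.self Q i
    rw [E.of_m R (i + 1) n1 n3 (by rw [r1]; exact Cg.refl' _), r1, hRi]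
  have y1 : ¬ Cg L (Q.m x) (i + 1) := by
    intro h
    have := Cg.m Q h
    rw [Q.inv, hQi] at this
    exact x2 this
  have y2 : ¬ Cg L (Q.m x) (i + 1 + 1) := by
    intro h
    have := Cg.m Q h
    rw [Q.inv, hQi1] at this
    exact x1 this
  by_cases y3 : Cg L (Q.m x) i
  · have r1 : R.m x = Q.m (Q.m x + 1) := E.of_m Q i x3 x1 y3
    have c1 : Cg L (Q.m x + 1) (i + 1) := Cg.add 1 y3
    have r2 : Q.m (Q.m x + 1) = Q.m x + 1 + 1 := by
      have := Q.per_dvd c1
      rw [hQi] at this
      rw [this]; ring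
    rw [r2] at r1
    have c2 : Cg L (R.m x) (i + 1 + 1) := by
      rw [r1]; exact Cg.add 1 c1
    rw [E.of_m_succ R (i + 1) x1 x2 c2, r1]
    rw [show Q.m x + 1 + 1 - 1 = Q.m x + 1 by ring]
    rw [E.of_succ Q i c1]; ring
  · have r1 : R.m x = Q.m x := E.other Q i x3 x1 y3 y1
    rw [E.other R (i + 1) x1 x2 (by rw [r1]; exact y1) (by rw [r1]; exact y2), r1]

/-! ### Finiteness -/

end H56.EX

end

section

/-! Insertion of a small arc at positions `i, i+1`: `ins i : Pat L → Pat (L+2)`. -/

namespace H56.EX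

variable {L : ℕ}

end H56.EX

end

section

/-!
# LINK: critical bond percolation on a cylinder and loops (definitions)

Medial lattice: the vertex `(c, r)` (column `c`, row `r`) lies on the edge `medge c r` of the square
lattice.  Faces of the medial lattice: `(c, r)` = the unit square between the columns `c`, `c + 1`
and between the rows `r - 1`, `r` (level `r`).  It is a primal vertex if `c + r` is odd, namely
`((c + r + 1) / 2, (r - c - 1) / 2)`, and a dual vertex (a face of the square lattice, named by its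
lower left corner) if `c + r` is even, namely `((c + r) / 2, (r - c - 2) / 2)`.
The primal vertex `(x, y)` lies at level `x + y`, the edge `e` lies in the row `e.1 + e.2.1`.
The seam is level `0`; the strand of the seam in column `c` lies between the primal vertex `pv c` and
the dual vertex `dv c`.  The period is `c → c + L`, `L = 2 n`, i.e. `(x, y) → (x + n, y - n)`.

At the vertex `(c, r)` the strands connect bottom - right and top - left if `tB ω c r = true`
(type B), and bottom - left and top - right if `tB ω c r = false` (type A).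
-/

set_option autoImplicit false

open MeasureTheory ProbabilityTheory Filter Topology

namespace Pool.Agent.H89.Link

open H56.EX
open Pool.Agent.H89.Perc (Vert Edge Config Pr half src tgt lowFace ball sphere)

variable {L : ℕ} {T : Type*}

/-! ### The row map -/

/-! ### Percolation -/

/-! ### The stationary vector -/

end Pool.Agent.H89.Link

end

section

/-!
# LINK module `Row`: colours are transported by the row map

Proof of `row_inv`.  All facts hold on the universal covers; colours are NOT assumed periodic.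
1. (`cap_spec`) for `2 ≤ L`: `E i P` has a small arc at `i` (`E.self`), so `exists_ins` gives
   `E i P = ins i (cap i P Q0)`.
2. (`E_inv`) if `f (P.m x) = f x` for all `x`, `g x = f x` for `x` not congruent to `i`, `i + 1`
   (mod `L`), and for every `y` congruent to `i`: `f y = f (y + 1)` and `g y = g (y + 1)`, then
   `g ((E i P).m x) = g x` (cases of `tl`, `H56.EX.tl_cases` or `E.of_i`, `E.of_succ`, `E.of_m`,
   `E.of_m_succ`, `E.other`, `E.mem_not`).
3. (`ins_inv`) if `f (phi L i y) = g y`, `g (P.m y) = g y` and `f y = f (y + 1)` for `y` congruent to `i`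
   mod `L + 2`, then `f ((ins i P).m x) = f x`; conversely if `f ((ins i P).m x) = f x` for all `x` then
   `f (phi L i (P.m y)) = f (phi L i y)`.
4. Colour of position `X = (L + 2) j + s`, `0 ≤ s < L + 2`, when the wire has passed the columns
   `0, …, k - 1`:  `s = 0`: `hor (j L - 1)`;  `1 ≤ s ≤ k`: `bot (j L + s - 1)`;  `s = k + 1`:
   `hor (j L + k - 1)`;  `k + 2 ≤ s ≤ L + 1`: `top (j L + s - 2)`.
   Step `k → k + 1` changes only the positions `s = k + 1, k + 2`: from `hor (j L + k - 1), top (j L + k)` to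
   `bot (j L + k), hor (j L + k)`; if `t k = true` use `E_inv` with `i = k + 1`, if `t k = false` nothing
   changes.  (`t (j L + k) = t k` by periodicity.)
5. At the end (`k = L`) the positions `(L+2) j - 1` and `(L+2) j` both have colour `hor (j L - 1)`; use
   `E_inv` with `i = -1`, then `cap_spec` and the second part of 3; the position `(L+2) j + c + 1`
   (`0 ≤ c < L`) is `phi L (-1) (j L + c - 1)`; finally `rot` shifts by one.
-/

set_option autoImplicit false

namespace Pool.Agent.H89.Link

open H56.EX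

variable {L : ℕ} {T : Type*}

end Pool.Agent.H89.Link

end

section

/-! Common definitions of the EXACT project, loop part:
the cube root of unity `q`, operators `eop i`, the list of properties `PsiProps` of the
polynomial qKZ solution, the leg relation of a pair of patterns and the leg sums. -/

namespace H56.EX

open scoped BigOperators

variable {L : ℕ}

/-! ### The leg relation

`Pt : Pat Lt` top pattern, `Pb : Pat Lb` bottom pattern, `kt, kb` = number of strands in the hole at
the top / bottom, `M` = number of glued strands; in all uses `Lt = kt + M`, `Lb = kb + M`.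
Top hole ends: positions `0..kt-1`; glued top positions `kt..kt+M-1` (mod `Lt`); same at the bottom.
Vertices of the composite graph: `inl x` top boundary points, `inr y` bottom boundary points
(on the universal covers). -/

section leg

variable {Lt Lb : ℕ}

end leg

end H56.EX

end

section

/-!
# LINK module `Potential`: parity potentials

`A : Edge → ZMod 2` supported in rows of absolute value `< H` (the row of `e` is `e.1 + e.2.1`).
Ray potential of the face with lower left corner `(a, b)`: the sum of `A` over the horizontal edges above,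
  `pot A H (a, b) = ∑_{j = b + 1}^{H - a - 1} A (a, j, false)`   (all other terms vanish).
* `pot_hor`: `pot (a, b - 1) + pot (a, b) = A (a, b, false)` (trivial), for all `(a, b)`;
* `pot_ver`: `pot (a - 1, b) + pot (a, b) = A (a, b, true) + ∑_{j > b} vsum A (a, j)` where the sum runs over the
  vertices `(a, j)` with `b < j` (finitely many non zero terms): telescoping of the vertical edges.
So if all vertices have even degree (`vsum A V = 0`) then `pot` is a potential on the whole plane; if the only
vertex with odd degree is `0`, then it is a potential except across the edges `(0, b, true)`, `b < 0`.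
A finite or periodic sum of open paths gives such an `A`: `pathSum` of a list of vertices.
-/

set_option autoImplicit false

namespace Pool.Agent.H89.Link

open Pool.Agent.H89.Perc (Vert Edge Config src tgt lowFace vsum)

end Pool.Agent.H89.Link

end

section

/-!
# Divided differences

For a polynomial `P` and two different variables `a, b` there is a polynomial `Q` with
`(X a - X b) Q = (q X b - q² X a) P(swap a b) - (q X a - q² X b) P`  (`q² + q + 1 = 0`), and the
exponents of `Q` lie between exponents of `P`.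
-/

namespace Pool.Agent.H12.QKZ

open MvPolynomial

set_option linter.unusedSectionVars false
set_option linter.unusedSimpArgs false

variable {σ K : Type*} [DecidableEq σ] [Field K]

/-- The right-hand side of the divided difference equation. -/
noncomputable def ddNum (q : K) (a b : σ) (P : MvPolynomial σ K) : MvPolynomial σ K :=
  (C q * X b - C (q ^ 2) * X a) * rename (Equiv.swap a b) P
    - (C q * X a - C (q ^ 2) * X b) * P

theorem ddNum_add (q : K) (a b : σ) (P P' : MvPolynomial σ K) :
    ddNum q a b (P + P') = ddNum q a b P + ddNum q a b P' := by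
  simp only [ddNum, map_add]; ring

/-- The property that `Q` is a divided difference of `P` with exponents between those of `P`. -/
def IsDD (q : K) (a b : σ) (P Q : MvPolynomial σ K) : Prop :=
  (X a - X b) * Q = ddNum q a b P ∧ ∀ e' ∈ Q.support, ∃ e ∈ P.support, Between a b e e'

theorem rest_add {a b : σ} (hab : a ≠ b) (e : σ →₀ ℕ) :
    rest a b e + Finsupp.single a (e a) + Finsupp.single b (e b) = e := by
  ext d
  by_cases hda : d = a
  · subst hda; simp [rest_left, Finsupp.single_apply, hab.symm]
  · by_cases hdb : d = b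
    · subst hdb; simp [rest_right hab, Finsupp.single_apply, hab]
    · simp [rest_of_ne hda hdb, Finsupp.single_apply, Ne.symm hda, Ne.symm hdb]

/-- Split a monomial. -/
theorem monomial_split {a b : σ} (hab : a ≠ b) (e : σ →₀ ℕ) (c : K) :
    monomial e c = monomial (rest a b e) c * X a ^ (e a) * X b ^ (e b) := by
  rw [X_pow_eq_monomial, X_pow_eq_monomial, monomial_mul, monomial_mul, mul_one, mul_one,
    rest_add hab]

theorem rename_rest {a b : σ} (hab : a ≠ b) (e : σ →₀ ℕ) (c : K) :
    rename (Equiv.swap a b) (monomial (rest a b e) c) = monomial (rest a b e) c := by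
  rw [rename_monomial]
  have : Finsupp.mapDomain (⇑(Equiv.swap a b)) (rest a b e) = rest a b e := by
    ext d
    have h1 : (Finsupp.mapDomain (⇑(Equiv.swap a b)) (rest a b e)) d
        = (rest a b e) (Equiv.swap a b d) := by
      conv_lhs => rw [show d = Equiv.swap a b (Equiv.swap a b d) by simp]
      exact Finsupp.mapDomain_apply (Equiv.swap a b).injective _ _
    rw [h1]
    by_cases hda : d = a
    · subst hda; rw [Equiv.swap_apply_left, rest_left, rest_right hab]
    · by_cases hdb : d = b
      · subst hdb; rw [Equiv.swap_apply_right, rest_left, rest_right hab]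
      · rw [Equiv.swap_apply_of_ne_of_ne hda hdb]
  rw [this]

theorem rename_split {a b : σ} (hab : a ≠ b) (e : σ →₀ ℕ) (c : K) :
    rename (Equiv.swap a b) (monomial e c)
      = monomial (rest a b e) c * X b ^ (e a) * X a ^ (e b) := by
  rw [monomial_split hab e c, map_mul, map_mul, map_pow, map_pow, rename_X, rename_X,
    Equiv.swap_apply_left, Equiv.swap_apply_right, rename_rest hab]

theorem InT.smulC {a b : σ} {e : σ →₀ ℕ} {Q : MvPolynomial σ K} (h : InT a b e Q) (x : K) :
    InT a b e (C x * Q) := by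
  intro e' he'
  rw [coeff_C_mul] at he'
  exact h e' (right_ne_zero_of_mul he')

/-- The geometric part of the divided difference. -/
theorem InT.lin {a b : σ} (hab : a ≠ b) (e : σ →₀ ℕ) (c q : K) (l k : ℕ)
    (hl : l = min (e a) (e b)) (hk : l + k = max (e a) (e b)) :
    InT a b e ((C q * X b - C (q ^ 2) * X a) *
      (monomial (rest a b e) c * (X a * X b) ^ l *
        ∑ i ∈ Finset.range k, X a ^ i * X b ^ (k - 1 - i))) := by
  have hsum : min (e a) (e b) + max (e a) (e b) = e a + e b := min_add_max _ _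
  have h : (C q * X b - C (q ^ 2) * X a) *
      (monomial (rest a b e) c * (X a * X b) ^ l *
        ∑ i ∈ Finset.range k, X a ^ i * X b ^ (k - 1 - i))
      = ∑ i ∈ Finset.range k, (C q * (monomial (rest a b e) c * X a ^ (l + i) *
            X b ^ (l + (k - 1 - i) + 1))
          + C (-q ^ 2) * (monomial (rest a b e) c * X a ^ (l + i + 1) *
            X b ^ (l + (k - 1 - i)))) := by
    rw [Finset.mul_sum, Finset.mul_sum]
    refine Finset.sum_congr rfl fun i _ => ?_
    rw [map_neg]
    ring
  rw [h]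
  refine InT.sum fun i hi => ?_
  rw [Finset.mem_range] at hi
  refine (InT.smulC (InT.mono hab e c _ _ ?_ ?_ ?_) _).add
    (InT.smulC (InT.mono hab e c _ _ ?_ ?_ ?_) _) <;> omega

theorem exists_dd_monomial {q : K} (hq : q ^ 2 + q + 1 = 0) {a b : σ} (hab : a ≠ b)
    (e : σ →₀ ℕ) (c : K) : ∃ Q : MvPolynomial σ K,
      (X a - X b) * Q = ddNum q a b (monomial e c) ∧ InT a b e Q := by
  have hq' : (C q : MvPolynomial σ K) + C (q ^ 2) = -1 := by
    rw [← map_add, ← map_one C, ← map_neg]
    congr 1; linear_combination hq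
  rcases le_total (e b) (e a) with h | h
  · obtain ⟨k, hk⟩ := Nat.exists_eq_add_of_le h
    refine ⟨monomial (rest a b e) c * X a ^ (e a) * X b ^ (e b) +
      C (-1) * ((C q * X b - C (q ^ 2) * X a) *
        (monomial (rest a b e) c * (X a * X b) ^ (e b) *
        ∑ i ∈ Finset.range k, X a ^ i * X b ^ (k - 1 - i))), ?_, ?_⟩
    · unfold ddNum
      rw [rename_split hab, monomial_split hab e c]
      have hg := Commute.geom_sum₂_mul (Commute.all (X a : MvPolynomial σ K) (X b)) k
      rw [map_neg, map_one, hk]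
      linear_combination
        (-(C q * X b - C (q ^ 2) * X a) * monomial (rest a b e) c * (X a * X b) ^ (e b)) * hg
        + monomial (rest a b e) c * (X a * X b) ^ (e b) * X a ^ k * (X a - X b) * hq'
    · refine (InT.mono hab e c _ _ rfl (min_le_left _ _) (le_max_left _ _)).add (InT.smulC ?_ _)
      exact InT.lin hab e c q _ _ (by rw [min_eq_right h]) (by rw [max_eq_left h, hk])
  · obtain ⟨k, hk⟩ := Nat.exists_eq_add_of_le h
    refine ⟨monomial (rest a b e) c * X a ^ (e a) * X b ^ (e b) +
      (C q * X b - C (q ^ 2) * X a) *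
        (monomial (rest a b e) c * (X a * X b) ^ (e a) *
        ∑ i ∈ Finset.range k, X a ^ i * X b ^ (k - 1 - i)), ?_, ?_⟩
    · unfold ddNum
      rw [rename_split hab, monomial_split hab e c]
      have hg := Commute.geom_sum₂_mul (Commute.all (X a : MvPolynomial σ K) (X b)) k
      rw [hk]
      linear_combination
        ((C q * X b - C (q ^ 2) * X a) * monomial (rest a b e) c * (X a * X b) ^ (e a)) * hg
        + monomial (rest a b e) c * (X a * X b) ^ (e a) * X b ^ k * (X a - X b) * hq'
    · refine (InT.mono hab e c _ _ rfl (min_le_left _ _) (le_max_left _ _)).add ?_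
      exact InT.lin hab e c q _ _ (by rw [min_eq_left h]) (by rw [max_eq_right h, hk])

/-- Divided differences of polynomials exist. -/
theorem exists_dd {q : K} (hq : q ^ 2 + q + 1 = 0) {a b : σ} (hab : a ≠ b)
    (P : MvPolynomial σ K) : ∃ Q, IsDD q a b P Q := by
  classical
  choose F hF1 hF2 using fun (e : σ →₀ ℕ) (c : K) => exists_dd_monomial hq hab e c
  refine ⟨∑ e ∈ P.support, F e (coeff e P), ?_, ?_⟩
  · conv_rhs => rw [P.as_sum]
    rw [Finset.mul_sum]
    have hlin : ∀ s : Finset (σ →₀ ℕ), ddNum q a b (∑ e ∈ s, monomial e (coeff e P))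
        = ∑ e ∈ s, ddNum q a b (monomial e (coeff e P)) := by
      intro s
      induction s using Finset.induction_on with
      | empty => simp [ddNum]
      | insert i s hi ih => rw [Finset.sum_insert hi, Finset.sum_insert hi, ddNum_add, ih]
    rw [hlin]
    exact Finset.sum_congr rfl fun e _ => hF1 e _
  · intro e' he'
    rw [mem_support_iff, coeff_sum] at he'
    obtain ⟨e, he, hne⟩ := Finset.exists_ne_zero_of_sum_ne_zero he'
    exact ⟨e, he, hF2 e _ e' hne⟩

end Pool.Agent.H12.QKZ

end

section

/-!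
# Joint degree and joint order
-/

namespace Pool.Agent.H12.QKZ

open MvPolynomial

set_option linter.unusedSectionVars false
set_option linter.unusedSimpArgs false

variable {σ K : Type*} [DecidableEq σ] [Field K]

/-- Divided differences preserve joint bounds. -/
theorem JointBd.dd {lo up : ℕ → ℕ} {q : K} {a b : σ} (hab : a ≠ b) {P Q : MvPolynomial σ K}
    (h : JointBd lo up P) (hQ : IsDD q a b P Q) : JointBd lo up Q := by
  intro S e' he'
  obtain ⟨e, he, h1, h2, h3, h4⟩ := hQ.2 e' (mem_support_iff.2 he')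
  rw [mem_support_iff] at he
  by_cases ha : a ∈ S <;> by_cases hb : b ∈ S
  · have key : ∀ f : σ →₀ ℕ, ∑ c ∈ S, f c = f a + (f b + ∑ c ∈ (S.erase a).erase b, f c) := by
      intro f
      rw [← Finset.add_sum_erase S _ ha,
        ← Finset.add_sum_erase (S.erase a) _ (Finset.mem_erase.2 ⟨hab.symm, hb⟩)]
    have hr : ∑ c ∈ (S.erase a).erase b, e' c = ∑ c ∈ (S.erase a).erase b, e c := by
      refine Finset.sum_congr rfl fun c hc => ?_
      simp only [Finset.mem_erase] at hc
      exact h1 c hc.2.1 hc.1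
    have h0 := h S e he
    rw [key e'] ; rw [key e] at h0
    omega
  · have key : ∀ f : σ →₀ ℕ, ∑ c ∈ S, f c = f a + ∑ c ∈ S.erase a, f c := by
      intro f; rw [← Finset.add_sum_erase S _ ha]
    have hr : ∑ c ∈ S.erase a, e' c = ∑ c ∈ S.erase a, e c := by
      refine Finset.sum_congr rfl fun c hc => ?_
      simp only [Finset.mem_erase] at hc
      exact h1 c hc.1 (fun hcb => hb (hcb ▸ hc.2))
    have h0 := h S e he
    have hb' : b ∉ S.erase a := fun hh => hb (Finset.mem_of_mem_erase hh)
    have h0' := h (insert b (S.erase a)) e he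
    have hcard : (insert b (S.erase a)).card = S.card := by
      rw [Finset.card_insert_of_notMem hb', Finset.card_erase_of_mem ha]
      have : 0 < S.card := Finset.card_pos.2 ⟨a, ha⟩
      omega
    rw [hcard, Finset.sum_insert hb'] at h0'
    rw [key e']; rw [key e] at h0
    omega
  · have key : ∀ f : σ →₀ ℕ, ∑ c ∈ S, f c = f b + ∑ c ∈ S.erase b, f c := by
      intro f; rw [← Finset.add_sum_erase S _ hb]
    have hr : ∑ c ∈ S.erase b, e' c = ∑ c ∈ S.erase b, e c := by
      refine Finset.sum_congr rfl fun c hc => ?_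
      simp only [Finset.mem_erase] at hc
      exact h1 c (fun hca => ha (hca ▸ hc.2)) hc.1
    have h0 := h S e he
    have ha' : a ∉ S.erase b := fun hh => ha (Finset.mem_of_mem_erase hh)
    have h0' := h (insert a (S.erase b)) e he
    have hcard : (insert a (S.erase b)).card = S.card := by
      rw [Finset.card_insert_of_notMem ha', Finset.card_erase_of_mem hb]
      have : 0 < S.card := Finset.card_pos.2 ⟨b, hb⟩
      omega
    rw [hcard, Finset.sum_insert ha'] at h0'
    rw [key e']; rw [key e] at h0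
    omega
  · have hr : ∑ c ∈ S, e' c = ∑ c ∈ S, e c := by
      refine Finset.sum_congr rfl fun c hc => ?_
      exact h1 c (fun hca => ha (hca ▸ hc)) (fun hcb => hb (hcb ▸ hc))
    have h0 := h S e he
    omega

end Pool.Agent.H12.QKZ

end

section

/-!
# The weights of the R-matrix

`bw q z w = (z - w) / (q w - q² z)` with `q² + q + 1 = 0` (so `q² = q⁻¹`), and its value on the unit
circle, where it is real.
-/

namespace Pool.Agent.H12.QKZ

section field

variable {K : Type*} [Field K]

/-- Weight of `e` in the R-matrix. -/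
def bw (q z w : K) : K := (z - w) / (q * w - q ^ 2 * z)

theorem bw_unitary {q : K} (hq : q ^ 2 + q + 1 = 0) {z w : K} (h1 : q * w - q ^ 2 * z ≠ 0)
    (h2 : q * z - q ^ 2 * w ≠ 0) : bw q z w + bw q w z = bw q z w * bw q w z := by
  unfold bw
  rw [div_add_div _ _ h1 h2, div_mul_div_comm]
  congr 1
  linear_combination ((z - w) ^ 2) * hq

theorem bw_ybe {q : K} (hq : q ^ 2 + q + 1 = 0) {x y z : K} (h1 : q * y - q ^ 2 * x ≠ 0)
    (h2 : q * z - q ^ 2 * x ≠ 0) (h3 : q * z - q ^ 2 * y ≠ 0) :
    bw q x z * (1 - bw q x y * bw q y z) = bw q x y + bw q y z - bw q x y * bw q y z := by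
  unfold bw
  obtain ⟨A, hA⟩ : ∃ A, A = q * y - q ^ 2 * x := ⟨_, rfl⟩
  obtain ⟨B, hB⟩ : ∃ B, B = q * z - q ^ 2 * x := ⟨_, rfl⟩
  obtain ⟨C, hC⟩ : ∃ C, C = q * z - q ^ 2 * y := ⟨_, rfl⟩
  rw [← hA] at h1 ⊢
  rw [← hB] at h2 ⊢
  rw [← hC] at h3 ⊢
  have key : (x - z) * (A * C - (x - y) * (y - z))
      = (x - y) * B * C + (y - z) * A * B - (x - y) * (y - z) * B := by
    subst hA hB hC
    linear_combination (q * x * y * z - q * x * y ^ 2 + q * x ^ 2 * y - q * x ^ 2 * z
      - q ^ 2 * x * y * z + q ^ 2 * x * y ^ 2 - q ^ 2 * x ^ 2 * y + q ^ 2 * x ^ 2 * z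
      + x * y ^ 2 - x * z ^ 2 - x ^ 2 * y + x ^ 2 * z + y * z ^ 2 - y ^ 2 * z) * hq
  have e1 : (x - z) / B * (1 - (x - y) / A * ((y - z) / C))
      = (x - z) * (A * C - (x - y) * (y - z)) / (A * B * C) := by
    field_simp
  have e2 : (x - y) / A + (y - z) / C - (x - y) / A * ((y - z) / C)
      = ((x - y) * B * C + (y - z) * A * B - (x - y) * (y - z) * B) / (A * B * C) := by
    field_simp
  rw [e1, e2, key]

end field

end Pool.Agent.H12.QKZ

end

section

/-!
# The weights on the unit circle
-/

namespace Pool.Agent.H12.QKZ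

open Complex

theorem qc_eq : qc ^ 2 + qc + 1 = 0 := by
  have hne : qc ≠ 1 := by
    rw [qc_cos_sin]
    intro h
    have := congrArg Complex.re h
    simp at this
    norm_num at this
  have h3 : qc ^ 3 = 1 := by
    unfold qc
    rw [← Complex.exp_nat_mul]
    rw [show ((3 : ℕ) : ℂ) * (((2 * Real.pi / 3 : ℝ) : ℂ) * I) = 2 * Real.pi * I by
      push_cast; ring]
    exact Complex.exp_two_pi_mul_I
  have : (qc - 1) * (qc ^ 2 + qc + 1) = 0 := by linear_combination h3
  rcases mul_eq_zero.1 this with h | h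
  · exact absurd (sub_eq_zero.1 h) hne
  · exact h

theorem bw_zc {t s : ℝ} : bw qc (zc t) (zc s) = (br (t - s) : ℝ) := by
  unfold bw br
  rw [den_eq, zc_sub, mul_div_mul_left]
  · push_cast; rfl
  · refine mul_ne_zero (Complex.exp_ne_zero _) ?_
    simp

theorem br_unitary {δ : ℝ} (h1 : -(2 * Real.pi / 3) < δ) (h2 : δ < 2 * Real.pi / 3) :
    br δ + br (-δ) = br δ * br (-δ) := by
  have h := bw_unitary (K := ℂ) qc_eq (z := zc δ) (w := zc 0)
    (den_ne_zero (by simpa using h1) (by simpa using by linarith only [h1, h2, Real.pi_pos]))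
    (den_ne_zero (t := 0) (s := δ) (by linarith only [h2]) (by linarith only [h1, h2]))
  rw [bw_zc, bw_zc, sub_zero, zero_sub] at h
  exact_mod_cast h

theorem br_ybe {x y z : ℝ} (h1 : |x - y| < 2 * Real.pi / 3) (h2 : |x - z| < 2 * Real.pi / 3)
    (h3 : |y - z| < 2 * Real.pi / 3) :
    br (x - z) * (1 - br (x - y) * br (y - z))
      = br (x - y) + br (y - z) - br (x - y) * br (y - z) := by
  have hh : ∀ {a b : ℝ}, |a - b| < 2 * Real.pi / 3 → qc * zc b - qc ^ 2 * zc a ≠ 0 := by
    intro a b hab
    rw [abs_lt] at hab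
    exact den_ne_zero hab.1 (by linarith only [hab, hab.2, Real.pi_pos])
  have h := bw_ybe (K := ℂ) qc_eq (hh h1) (hh h2) (hh h3)
  rw [bw_zc, bw_zc, bw_zc] at h
  exact_mod_cast h

end Pool.Agent.H12.QKZ

end

section

/-!
# The R-matrix of the dense O(1) loop model: algebra

`Rm u e = (1 - u) • 1 + u • e` in an algebra, with `e * e = e`; unitarity and the Yang-Baxter equation.
-/

namespace Pool.Agent.H12.QKZ

section algebra

variable {K A : Type*} [CommRing K] [Ring A] [Algebra K A]

theorem Rm_zero (e : A) : Rm (0 : K) e = 1 := by simp [Rm]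

theorem Rm_mul (u v : K) {e : A} (he : e * e = e) : Rm u e * Rm v e = Rm (u + v - u * v) e := by
  simp only [Rm, mul_add, add_mul, smul_mul_smul_comm, one_mul, mul_one, he]
  module

theorem Rm_unitary {u v : K} (h : u + v = u * v) {e : A} (he : e * e = e) :
    Rm u e * Rm v e = 1 := by
  rw [Rm_mul u v he, h, sub_self, Rm_zero]

theorem Rm_comm {u v : K} {e f : A} (h : e * f = f * e) : Rm u e * Rm v f = Rm v f * Rm u e := by
  simp only [Rm, mul_add, add_mul, smul_mul_smul_comm, one_mul, mul_one, h]
  module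

/-- Yang-Baxter equation. -/
theorem Rm_ybe {u v w : K} (h : v * (1 - u * w) = u + w - u * w) {e f : A}
    (he : e * e = e) (hf : f * f = f) (hef : e * f * e = e) (hfe : f * e * f = f) :
    Rm u e * Rm v f * Rm w e = Rm w f * Rm v e * Rm u f := by
  have h1 : Rm u e * Rm v f * Rm w e
      = ((1 - u) * (1 - v) * (1 - w)) • (1 : A)
        + (u * (1 - v) * (1 - w) + (1 - u) * (1 - v) * w + u * (1 - v) * w + u * v * w) • e
        + ((1 - u) * v * (1 - w)) • f + (u * v * (1 - w)) • (e * f)
        + ((1 - u) * v * w) • (f * e) := by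
    simp only [Rm, mul_add, add_mul, smul_mul_smul_comm, one_mul, mul_one, he, hef]
    module
  have h2 : Rm w f * Rm v e * Rm u f
      = ((1 - u) * (1 - v) * (1 - w)) • (1 : A)
        + (w * (1 - v) * (1 - u) + (1 - w) * (1 - v) * u + w * (1 - v) * u + w * v * u) • f
        + ((1 - w) * v * (1 - u)) • e + (w * v * (1 - u)) • (f * e)
        + ((1 - w) * v * u) • (e * f) := by
    simp only [Rm, mul_add, add_mul, smul_mul_smul_comm, one_mul, mul_one, hf, hfe]
    module
  have c1 : u * (1 - v) * (1 - w) + (1 - u) * (1 - v) * w + u * (1 - v) * w + u * v * w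
      = (1 - w) * v * (1 - u) := by linear_combination -h
  have c2 : w * (1 - v) * (1 - u) + (1 - w) * (1 - v) * u + w * (1 - v) * u + w * v * u
      = (1 - u) * v * (1 - w) := by linear_combination -h
  rw [h1, h2, c1, c2]
  have c3 : u * v * (1 - w) = (1 - w) * v * u := by ring
  have c4 : (1 - u) * v * w = w * v * (1 - u) := by ring
  rw [c3, c4]
  module

end algebra

end Pool.Agent.H12.QKZ

end

section

/-!
# Fixed vectors of a stochastic matrix with a common reachable state

`P` is a real square matrix with nonnegative entries and column sums `1`, and some power of `P` has a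
strictly positive row.  Then `P` has exactly one fixed vector whose coordinates sum to `1`.
-/

namespace Pool.Agent.H12.QKZ

open Matrix Finset

variable {S : Type*} [Fintype S] [DecidableEq S]

theorem ColStoch.pow {P : Matrix S S ℝ} (hP : ColStoch P) (k : ℕ) : ColStoch (P ^ k) := by
  induction k with
  | zero => rw [pow_zero]; exact ColStoch.one
  | succ k ih => rw [pow_succ]; exact ih.mul hP

theorem pow_mulVec_fixed {P : Matrix S S ℝ} {v : S → ℝ} (h : P *ᵥ v = v) (k : ℕ) :
    (P ^ k) *ᵥ v = v := by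
  induction k with
  | zero => rw [pow_zero, Matrix.one_mulVec]
  | succ k ih => rw [pow_succ, ← Matrix.mulVec_mulVec, h, ih]

/-- A fixed vector with coordinate sum `0` vanishes. -/
theorem fixed_sum_zero {P : Matrix S S ℝ} (hP : ColStoch P) {k : ℕ} {s : S}
    (hpos : ∀ j, 0 < (P ^ k) s j) {v : S → ℝ} (hv : P *ᵥ v = v) (hs : ∑ i, v i = 0) : v = 0 := by
  classical
  by_contra hne
  set Q := P ^ k with hQ
  have hQs : ColStoch Q := hP.pow k
  have hQv : Q *ᵥ v = v := pow_mulVec_fixed hv k
  have hS : (Finset.univ : Finset S).Nonempty := ⟨s, Finset.mem_univ _⟩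
  obtain ⟨j0, -, hj0⟩ := Finset.exists_min_image (Finset.univ : Finset S) (fun j => Q s j) hS
  set c := Q s j0 with hc
  have hc0 : 0 < c := hpos j0
  -- `w i = ∑_j (Q i j - [i = s] c) v j`
  have hkey : ∀ i, |v i| ≤ ∑ j, (Q i j - if i = s then c else 0) * |v j| := by
    intro i
    have h1 : v i = ∑ j, (Q i j - if i = s then c else 0) * v j := by
      have : ∑ j, (Q i j - if i = s then c else 0) * v j
          = ∑ j, Q i j * v j - (if i = s then c else 0) * ∑ j, v j := by
        rw [Finset.mul_sum, ← Finset.sum_sub_distrib]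
        exact Finset.sum_congr rfl fun j _ => by ring
      rw [this, hs, mul_zero, sub_zero]
      conv_lhs => rw [← hQv]
      rfl
    calc |v i| = |∑ j, (Q i j - if i = s then c else 0) * v j| := by rw [← h1]
      _ ≤ ∑ j, |(Q i j - if i = s then c else 0) * v j| := Finset.abs_sum_le_sum_abs _ _
      _ = ∑ j, (Q i j - if i = s then c else 0) * |v j| := by
          refine Finset.sum_congr rfl fun j _ => ?_
          rw [abs_mul, abs_of_nonneg]
          by_cases his : i = s
          · rw [if_pos his, his]; linarith [hj0 j (Finset.mem_univ _)]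
          · rw [if_neg his, sub_zero]; exact hQs.1 i j
  have hsum : ∑ i, |v i| ≤ (1 - c) * ∑ j, |v j| := by
    calc ∑ i, |v i| ≤ ∑ i, ∑ j, (Q i j - if i = s then c else 0) * |v j| :=
          Finset.sum_le_sum fun i _ => hkey i
      _ = ∑ j, (∑ i, (Q i j - if i = s then c else 0)) * |v j| := by
          rw [Finset.sum_comm]; simp_rw [Finset.sum_mul]
      _ = ∑ j, (1 - c) * |v j| := by
          refine Finset.sum_congr rfl fun j _ => ?_
          rw [Finset.sum_sub_distrib, hQs.2, Finset.sum_ite_eq' Finset.univ s]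
          simp
      _ = (1 - c) * ∑ j, |v j| := by rw [Finset.mul_sum]
  have hpos' : 0 < ∑ j, |v j| := by
    obtain ⟨j, hj⟩ := Function.ne_iff.1 hne
    exact Finset.sum_pos' (fun j _ => abs_nonneg _) ⟨j, Finset.mem_univ _, abs_pos.2 hj⟩
  nlinarith only [hsum, hc0, hpos']

/-- Existence and uniqueness of the normalised fixed vector. -/
theorem exists_unique_fixed {P : Matrix S S ℝ} (hP : ColStoch P) {k : ℕ} {s : S}
    (hpos : ∀ j, 0 < (P ^ k) s j) : ∃! v : S → ℝ, P *ᵥ v = v ∧ ∑ i, v i = 1 := by
  classical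
  have hdet : (P - 1).det = 0 := by
    rw [← Matrix.exists_vecMul_eq_zero_iff]
    refine ⟨fun _ => 1, ?_, ?_⟩
    · intro h; exact one_ne_zero (congrFun h s)
    · funext j
      rw [Matrix.vecMul_sub, Matrix.vecMul_one]
      simp only [Pi.sub_apply, Matrix.vecMul, dotProduct, one_mul, Pi.zero_apply]
      rw [hP.2]; ring
  obtain ⟨v, hv0, hv⟩ := Matrix.exists_mulVec_eq_zero_iff.2 hdet
  have hfix : P *ᵥ v = v := by
    rw [Matrix.sub_mulVec, Matrix.one_mulVec, sub_eq_zero] at hv; exact hv
  have hsum : ∑ i, v i ≠ 0 := fun h => hv0 (fixed_sum_zero hP hpos hfix h)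
  refine ⟨fun i => (∑ i, v i)⁻¹ * v i, ⟨?_, ?_⟩, ?_⟩
  · have : (fun i => (∑ i, v i)⁻¹ * v i) = (∑ i, v i)⁻¹ • v := by
      funext i; simp
    rw [this, Matrix.mulVec_smul, hfix]
  · rw [← Finset.mul_sum, inv_mul_cancel₀ hsum]
  · rintro w ⟨hw, hw1⟩
    have h0 : (w - fun i => (∑ i, v i)⁻¹ * v i) = 0 := by
      apply fixed_sum_zero hP hpos
      · have : (fun i => (∑ i, v i)⁻¹ * v i) = (∑ i, v i)⁻¹ • v := by
          funext i; simp
        rw [Matrix.mulVec_sub, this, Matrix.mulVec_smul, hfix, hw]
      · simp only [Pi.sub_apply]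
        rw [Finset.sum_sub_distrib, hw1, ← Finset.mul_sum, inv_mul_cancel₀ hsum, sub_self]
    exact sub_eq_zero.1 h0

end Pool.Agent.H12.QKZ

end

section

/-!
# The scattering matrix of the line with the largest angle
-/

namespace Pool.Agent.H12.QKZ

open H56.EX Matrix

set_option linter.unusedSectionVars false

section mapMat

variable {S : Type*} [Fintype S] [DecidableEq S]

theorem mapMat_mul (f g : S → S) : mapMat f * mapMat g = mapMat (f ∘ g) := by
  ext a b
  rw [Matrix.mul_apply, Finset.sum_eq_single (g b)]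
  · simp [mapMat]
  · intro c _ hc
    simp [mapMat, Ne.symm hc]
  · intro h; exact absurd (Finset.mem_univ _) h

theorem mapMat_mulVec (f : S → S) (v : S → ℝ) (a : S) :
    (mapMat f *ᵥ v) a = ∑ b, if f b = a then v b else 0 := by
  simp [Matrix.mulVec, dotProduct, mapMat]

end mapMat

variable {L : ℕ}

theorem EM_sq (i : ℤ) : (EM i : Matrix (Pat L) (Pat L) ℝ) * EM i = EM i := by
  unfold EM
  rw [mapMat_mul]
  exact mapMat_congr fun P => E.idem P i

theorem EM_braid (hL : 3 ≤ L) (i : ℤ) :
    (EM i : Matrix (Pat L) (Pat L) ℝ) * EM (i + 1) * EM i = EM i := by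
  unfold EM
  rw [mapMat_mul, mapMat_mul]
  exact mapMat_congr fun P => E_braid i P hL

theorem EM_braid' (hL : 3 ≤ L) (i : ℤ) :
    (EM (i + 1) : Matrix (Pat L) (Pat L) ℝ) * EM i * EM (i + 1) = EM (i + 1) := by
  unfold EM
  rw [mapMat_mul, mapMat_mul]
  exact mapMat_congr fun P => E_braid' i P hL

theorem EM_comm {i j : ℤ} (h1 : ¬ Cg L i j) (h2 : ¬ Cg L i (j + 1)) (h3 : ¬ Cg L (i + 1) j) :
    (EM i : Matrix (Pat L) (Pat L) ℝ) * EM j = EM j * EM i := by
  unfold EM
  rw [mapMat_mul, mapMat_mul]
  exact mapMat_congr fun P => E_comm P h1 h2 h3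

theorem RotM_EM (i : ℤ) : (RotM : Matrix (Pat L) (Pat L) ℝ) * EM i = EM (i + 1) * RotM := by
  unfold EM RotM
  rw [mapMat_mul, mapMat_mul]
  exact mapMat_congr fun P => rot_E i P

theorem RotM_RR (i : ℤ) (δ : ℝ) :
    (RotM : Matrix (Pat L) (Pat L) ℝ) * RR i δ = RR (i + 1) δ * RotM := by
  unfold RR Rm
  rw [mul_add, add_mul, Matrix.mul_smul, Matrix.mul_smul, Matrix.smul_mul, Matrix.smul_mul,
    RotM_EM, mul_one, one_mul]

theorem RR_comm {i j : ℤ} (h1 : ¬ Cg L i j) (h2 : ¬ Cg L i (j + 1)) (h3 : ¬ Cg L (i + 1) j)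
    (δ ε : ℝ) : (RR i δ : Matrix (Pat L) (Pat L) ℝ) * RR j ε = RR j ε * RR i δ :=
  Rm_comm (EM_comm h1 h2 h3)

theorem RR_inv (i : ℤ) {δ : ℝ} (h : |δ| < 2 * Real.pi / 3) :
    (RR i δ : Matrix (Pat L) (Pat L) ℝ) * RR i (-δ) = 1 := by
  rw [abs_lt] at h
  exact Rm_unitary (br_unitary h.1 h.2) (EM_sq i)

theorem RR_ybe (hL : 3 ≤ L) (i : ℤ) {x y z : ℝ} (h1 : |x - y| < 2 * Real.pi / 3)
    (h2 : |x - z| < 2 * Real.pi / 3) (h3 : |y - z| < 2 * Real.pi / 3) :
    (RR i (y - z) : Matrix (Pat L) (Pat L) ℝ) * RR (i + 1) (x - z) * RR i (x - y)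
      = RR (i + 1) (x - y) * RR i (x - z) * RR (i + 1) (y - z) := by
  have h := br_ybe h1 h2 h3
  refine Rm_ybe ?_ (EM_sq i) (EM_sq (i + 1)) (EM_braid hL i) (EM_braid' hL i)
  linear_combination h

theorem W_swap_max (hL : 2 ≤ L) (θ : ℤ → ℝ) (m : ℤ) : ∀ k : ℕ, k + 2 ≤ L →
    (W θ m (k + 1) : Matrix (Pat L) (Pat L) ℝ)
      = W (sw L m θ) (m + 1) k * RR m (θ m - θ (m + 1)) := by
  intro k
  induction k with
  | zero =>
    intro _
    simp only [W, Nat.cast_zero, add_zero, mul_one, one_mul]
  | succ k ih =>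
    intro hk
    have h1 : sw L m θ (m + 1) = θ m := by
      rw [sw_of_succ hL (Cg.refl' _)]; congr 1; ring
    have h2 : sw L m θ (m + 1 + 1 + k) = θ (m + 1 + (k + 1 : ℕ)) := by
      rw [sw_other]
      · congr 1; push_cast; ring
      · apply not_cg_of_lt <;> omega
      · apply not_cg_of_lt <;> omega
    rw [W, ih (by omega)]
    conv_rhs => rw [W]
    rw [h1, h2, ← mul_assoc]
    congr 3
    push_cast; ring

/-- Conjugation of the scattering matrix when the maximal line is moved one step. -/
theorem Sc_swap_max (hL : 2 ≤ L) {θ : ℤ → ℝ} (hper : ∀ x, θ (x + L) = θ x) (m : ℤ) :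
    RR m (θ m - θ (m + 1)) * (Sc θ m : Matrix (Pat L) (Pat L) ℝ)
      = Sc (sw L m θ) (m + 1) * RR m (θ m - θ (m + 1)) := by
  obtain ⟨k, hk⟩ : ∃ k, L = k + 2 := ⟨L - 2, by omega⟩
  unfold Sc
  have e1 : L - 1 = k + 1 := by omega
  rw [e1, W_swap_max hL θ m k (by omega)]
  conv_rhs => rw [W]
  have h1 : sw L m θ (m + 1) = θ m := by
    rw [sw_of_succ hL (Cg.refl' _)]; congr 1; ring
  have h2 : sw L m θ (m + 1 + 1 + k) = θ (m + 1) := by
    have hc : Cg L (m + 1 + 1 + k) m := by
      unfold Cg; rw [hk]; push_cast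
      rw [show m + 1 + 1 + (k : ℤ) - m = k + 2 by ring]
    rw [sw_of_i hc]
    apply per_dvd_fun hper
    exact Cg.add 1 hc
  have h3 : (RotM : Matrix (Pat L) (Pat L) ℝ) * RR (m + 1 + k) (θ m - θ (m + 1))
      = RR m (θ m - θ (m + 1)) * RotM := by
    rw [RotM_RR, RR_congr (i := m + 1 + k + 1) (j := m)]
    unfold Cg; rw [hk]; push_cast
    rw [show m + 1 + (k : ℤ) + 1 - m = k + 2 by ring]
  rw [h1, h2]
  rw [← mul_assoc RotM (RR (m + 1 + k) _), h3]
  simp only [mul_assoc]

/-- `R` at a position far from the carried segment commutes with `W`. -/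
theorem RR_comm_W (θ : ℤ → ℝ) (m i : ℤ) (δ : ℝ) : ∀ k : ℕ, (m + k < i) → (i + 1 < m + L) →
    (RR i δ : Matrix (Pat L) (Pat L) ℝ) * W θ m k = W θ m k * RR i δ := by
  intro k
  induction k with
  | zero => intro _ _; simp [W]
  | succ k ih =>
    intro h1 h2
    push_cast at h1
    rw [W, ← mul_assoc, RR_comm, mul_assoc, ih (by omega) h2, ← mul_assoc]
    · apply not_cg_of_lt <;> omega
    · apply not_cg_of_lt <;> omega
    · apply not_cg_of_lt <;> omega

theorem W_sw_low (θ : ℤ → ℝ) (m i : ℤ) : ∀ k : ℕ, (m + k < i) → (i + 1 < m + L) →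
    (W (sw L i θ) m k : Matrix (Pat L) (Pat L) ℝ) = W θ m k := by
  intro k
  induction k with
  | zero => intro _ _; rfl
  | succ k ih =>
    intro h1 h2
    push_cast at h1
    rw [W, W, ih (by omega) h2]
    have e1 : sw L i θ m = θ m := by
      apply sw_other
      · intro h; exact not_cg_of_lt (by omega) (by omega) (Cg.symm' h)
      · intro h; exact not_cg_of_lt (by omega) (by omega) (Cg.symm' h)
    have e2 : sw L i θ (m + 1 + k) = θ (m + 1 + k) := by
      apply sw_other
      · intro h; exact not_cg_of_lt (by omega) (by omega) (Cg.symm' h)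
      · intro h; exact not_cg_of_lt (by omega) (by omega) (Cg.symm' h)
    rw [e1, e2]

theorem W_sw_mid (hL : 3 ≤ L) {θ : ℤ → ℝ} {m₀ : ℤ} (hθ : Adm L θ m₀) (m : ℤ) (j : ℕ) :
    ∀ d : ℕ, j + d + 3 ≤ L →
    RR (m + j) (θ (m + 1 + j) - θ (m + 1 + j + 1)) *
        (W θ m (j + 2 + d) : Matrix (Pat L) (Pat L) ℝ)
      = W (sw L (m + 1 + j) θ) m (j + 2 + d) *
        RR (m + 1 + j) (θ (m + 1 + j) - θ (m + 1 + j + 1)) := by
  intro d
  have em : j + d + 3 ≤ L → sw L (m + 1 + j) θ m = θ m := by
    intro h
    apply sw_other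
    · intro h; exact not_cg_of_lt (by omega) (by omega) (Cg.symm' h)
    · intro h; exact not_cg_of_lt (by omega) (by omega) (Cg.symm' h)
  induction d with
  | zero =>
    intro hk
    have em' := em hk
    simp only [add_zero]
    have e1 : sw L (m + 1 + j) θ (m + 1 + j) = θ (m + 1 + j + 1) := sw_of_i (Cg.refl' _)
    have e2 : sw L (m + 1 + j) θ (m + 1 + j + 1) = θ (m + 1 + j) := by
      rw [sw_of_succ (by omega) (Cg.refl' _)]; congr 1; ring
    have hw : ∀ η : ℤ → ℝ, (W η m (j + 2) : Matrix (Pat L) (Pat L) ℝ)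
        = RR (m + j + 1) (η m - η (m + 1 + j + 1)) *
          (RR (m + j) (η m - η (m + 1 + j)) * W η m j) := by
      intro η
      rw [W, W]
      push_cast
      rw [show m + ((j : ℤ) + 1) = m + j + 1 by ring,
        show m + 1 + ((j : ℤ) + 1) = m + 1 + j + 1 by ring]
    rw [hw, hw, em', e1, e2, W_sw_low θ m (m + 1 + j) j (by omega) (by omega)]
    have hy := RR_ybe (L := L) hL (m + j) (hθ.abs_lt m (m + 1 + j))
      (hθ.abs_lt m (m + 1 + j + 1)) (hθ.abs_lt (m + 1 + j) (m + 1 + j + 1))
    rw [← mul_assoc, ← mul_assoc, hy]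
    rw [show m + (j : ℤ) + 1 = m + 1 + j by ring] at *
    simp only [mul_assoc]
    rw [RR_comm_W θ m (m + 1 + j) _ j (by omega) (by omega)]
  | succ d ih =>
    intro hk
    have em' := em hk
    rw [show j + 2 + (d + 1) = (j + 2 + d) + 1 by ring, W, W, em']
    have e3 : sw L (m + 1 + j) θ (m + 1 + (j + 2 + d : ℕ)) = θ (m + 1 + (j + 2 + d : ℕ)) := by
      apply sw_other <;> apply not_cg_of_lt <;> push_cast <;> omega
    rw [e3, ← mul_assoc, RR_comm, mul_assoc, ih (fun _ => em') (by omega), ← mul_assoc]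
    · intro h; exact not_cg_of_lt (by push_cast; omega) (by push_cast; omega) (Cg.symm' h)
    · intro h; exact not_cg_of_lt (by push_cast; omega) (by push_cast; omega) (Cg.symm' h)
    · intro h; exact not_cg_of_lt (by push_cast; omega) (by push_cast; omega) (Cg.symm' h)

/-- A Yang-Baxter move through the maximal line. -/
theorem Sc_swap_other {θ : ℤ → ℝ} {m₀ : ℤ} (hθ : Adm L θ m₀) (m i : ℤ) (h1 : m < i)
    (h2 : i + 1 < m + L) :
    RR i (θ i - θ (i + 1)) * (Sc θ m : Matrix (Pat L) (Pat L) ℝ)
      = Sc (sw L i θ) m * RR i (θ i - θ (i + 1)) := by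
  obtain ⟨j, hj⟩ : ∃ j : ℕ, i = m + 1 + j := ⟨(i - m - 1).toNat, by omega⟩
  obtain ⟨d, hd⟩ : ∃ d : ℕ, L = j + d + 3 := ⟨L - j - 3, by omega⟩
  have hL : 3 ≤ L := by omega
  subst hj
  have key := W_sw_mid hL hθ m j d (by omega)
  have e : L - 1 = j + 2 + d := by omega
  unfold Sc
  rw [e]
  have h3 : (RR (m + 1 + j) (θ (m + 1 + j) - θ (m + 1 + j + 1)) : Matrix (Pat L) (Pat L) ℝ)
      * RotM = RotM * RR (m + j) (θ (m + 1 + j) - θ (m + 1 + j + 1)) := by
    rw [RotM_RR, show m + (j : ℤ) + 1 = m + 1 + j by ring]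
  rw [← mul_assoc, h3, mul_assoc, key, mul_assoc]

theorem W_rot (θ : ℤ → ℝ) (m : ℤ) : ∀ k : ℕ,
    (RotM : Matrix (Pat L) (Pat L) ℝ) * W θ m k = W (fun x => θ (x - 1)) (m + 1) k * RotM := by
  intro k
  induction k with
  | zero => simp [W]
  | succ k ih =>
    rw [W, W, ← mul_assoc, RotM_RR, mul_assoc, ih, ← mul_assoc]
    simp only [add_sub_cancel_right]
    rw [show m + 1 + 1 + (k : ℤ) - 1 = m + 1 + k by ring,
      show m + (k : ℤ) + 1 = m + 1 + k by ring]

theorem Sc_rot (θ : ℤ → ℝ) (m : ℤ) :
    (RotM : Matrix (Pat L) (Pat L) ℝ) * Sc θ m = Sc (fun x => θ (x - 1)) (m + 1) * RotM := by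
  unfold Sc
  rw [mul_assoc, ← W_rot]

end Pool.Agent.H12.QKZ

end

section

/-!
# Zariski density of the admissible points
-/

namespace Pool.Agent.H12.QKZ

open H56.EX

/-- A polynomial vanishing at all points of the unit circle with pairwise distinct angles in
`(0, π/3)` is zero. -/
theorem dens {L : ℕ} (p : MvPolynomial (Fin L) ℂ)
    (h : ∀ t : Fin L → ℝ, (∀ k, 0 < t k ∧ t k < Real.pi / 3) → Function.Injective t →
      MvPolynomial.eval (fun k => zc (t k)) p = 0) : p = 0 := by
  classical
  set V : MvPolynomial (Fin L) ℂ := ∏ a, ∏ b,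
    (if a = b then 1 else (MvPolynomial.X a - MvPolynomial.X b)) with hV
  have hV0 : V ≠ 0 := by
    rw [hV, Finset.prod_ne_zero_iff]
    intro a _
    rw [Finset.prod_ne_zero_iff]
    intro b _
    split_ifs with hab
    · exact one_ne_zero
    · rw [sub_ne_zero]
      intro h'
      exact hab (MvPolynomial.X_injective h')
  have hpV : p * V = 0 := by
    apply MvPolynomial.funext_set (fun _ : Fin L => zc '' Set.Ioo 0 (Real.pi / 3))
    · intro _
      apply Set.Infinite.image
      · intro s hs t ht hst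
        exact zc_injOn hs.1 hs.2 ht.1 ht.2 hst
      · exact Set.Ioo_infinite (by positivity)
    · intro x hx
      choose t ht using fun k => hx k (Set.mem_univ k)
      have hx' : x = fun k => zc (t k) := funext fun k => (ht k).2.symm
      rw [map_mul, map_zero]
      by_cases hinj : Function.Injective t
      · rw [hx', h t (fun k => (ht k).1) hinj, zero_mul]
      · have : ∃ a b, t a = t b ∧ a ≠ b := by
          by_contra hc
          push Not at hc
          exact hinj fun a b hab => hc a b hab
        obtain ⟨a, b, hab, hne⟩ := this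
        have hv : MvPolynomial.eval x V = 0 := by
          rw [hV, map_prod]
          apply Finset.prod_eq_zero (Finset.mem_univ a)
          rw [map_prod]
          apply Finset.prod_eq_zero (Finset.mem_univ b)
          rw [if_neg hne, map_sub, MvPolynomial.eval_X, MvPolynomial.eval_X, hx']
          simp only [hab, sub_self]
        rw [hv, mul_zero]
  exact (mul_eq_zero.1 hpV).resolve_right hV0

theorem ext_fin {L : ℕ} (hL : 0 < L) (t : Fin L → ℝ) (k : Fin L) : ext L hL t (k : ℕ) = t k := by
  unfold ext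
  congr 1
  apply Fin.ext
  simp only
  rw [Int.emod_eq_of_lt (by omega) (by have := k.isLt; omega)]
  simp

theorem ext_adm {L : ℕ} (hL : 0 < L) (t : Fin L → ℝ) (h1 : ∀ k, 0 < t k ∧ t k < Real.pi / 3)
    (h2 : Function.Injective t) : ∃ m, Adm L (ext L hL t) m := by
  have hpos : (0 : ℤ) < L := by omega
  have : Nonempty (Fin L) := ⟨⟨0, hL⟩⟩
  obtain ⟨k, -, hk⟩ := Finset.exists_max_image (Finset.univ : Finset (Fin L)) t
    Finset.univ_nonempty
  have hinj : ∀ x y : ℤ, ¬ Cg L x y → ext L hL t x ≠ ext L hL t y := by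
    intro x y hxy h
    apply hxy
    have h3 := h2 h
    have h4 := congrArg Fin.val h3
    simp only at h4
    have e1 := Int.emod_nonneg x hpos.ne'
    have e2 := Int.emod_nonneg y hpos.ne'
    have h5 : x % (L : ℤ) = y % L := by omega
    exact Int.dvd_of_emod_eq_zero (Int.emod_eq_emod_iff_emod_sub_eq_zero.1 h5)
  refine ⟨(k : ℕ), ?_, fun x => (h1 _).1, fun x => (h1 _).2, hinj, ?_⟩
  · intro x
    unfold ext
    congr 1
    apply Fin.ext
    simp
  · intro x hx
    rw [ext_fin hL]
    have := hinj x (k : ℕ) hx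
    rw [ext_fin hL] at this
    exact lt_of_le_of_ne (hk _ (Finset.mem_univ _)) this

/-- Two polynomials which agree at all admissible points are equal. -/
theorem dens_adm {L : ℕ} (hL : 0 < L) (p p' : MvPolynomial (Fin L) ℂ)
    (h : ∀ θ : ℤ → ℝ, (∃ m, Adm L θ m) →
      MvPolynomial.eval (fun k : Fin L => zc (θ (k : ℕ))) p
        = MvPolynomial.eval (fun k : Fin L => zc (θ (k : ℕ))) p') : p = p' := by
  rw [← sub_eq_zero]
  apply dens
  intro t ht hinj
  have := h (ext L hL t) (ext_adm hL t ht hinj)
  simp only [ext_fin] at this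
  rw [map_sub, this, sub_self]

end Pool.Agent.H12.QKZ

end

section

/-!
# The explicit sum `S_M(c; z)` of the leg functions: recursion and uniqueness

`q` is a primitive cube root of unity in a field `K`.  For a finite set `s` of indices, spectral
parameters `z : ι → K` (pairwise distinct), and a list `c` of leg parameters, `SG` is
`∑_{A ⊆ s} ∏_{j ∈ A} (u ∏_i (c_i - q z_j)) ∏_{j ∈ s \ A} (v ∏_i (c_i - q² z_j)) ∏_{j ∈ A, k ∈ s \ A} g (z_j, z_k)`.
-/

set_option autoImplicit false

namespace Pool.Agent.H96.EX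

open Finset Polynomial

variable {K ι : Type*} [Field K] [DecidableEq ι]

end Pool.Agent.H96.EX

end

section

/-!
# Divisibility of antisymmetric polynomials by a Vandermonde product
-/

namespace Pool.Agent.H34.Hom

open MvPolynomial

variable {σ : Type*}

end Pool.Agent.H34.Hom

end

section

/-!
# `∏_{j<k} (z_j² + z_j z_k + z_k²) · SG` is a polynomial
-/

namespace Pool.Agent.H34.Hom

open Finset MvPolynomial Pool.Agent.H96.EX

section poly

variable {κ : Type*}

end poly

end Pool.Agent.H34.Hom

end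

section

/-!
# Homogeneous limits of the leg sums, and coefficientwise limits of polynomials
-/

namespace Pool.Agent.H34.Hom

open Finset Polynomial Pool.Agent.H96.EX Filter Topology

/-! ### coefficientwise limits -/

end Pool.Agent.H34.Hom

end

section

/-!
# The three-term relation and the exponents modulo 3
-/

namespace Pool.Agent.H34.Hom

open Finset Polynomial Pool.Agent.H96.EX Filter Topology

/-! ### three-term relation for the leg sums -/

end Pool.Agent.H34.Hom

end

section

/-!
# Moments of the coefficients of a polynomial with a high order zero at `1`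
-/

namespace Pool.Agent.H34.Hom

open Finset Polynomial

variable {K : Type*} [Field K]

end Pool.Agent.H34.Hom

end

section

/-!
# A very-well-poised alternating sum (WZ proof)

`gN N i = ∏_{m<N} (3i-3m-1)(3i-3m-2)` and `A0 M = ∑_i (-1)^(M-i) C(M,i) gN (M+1) i`.
For even `M`: `A0 (M+2) * (m+2) = 36 (m+1)(2m+1)(2m+3)(3m+4)(3m+5) A0 M`, `M = 2m`.
-/

namespace Pool.Agent.H34.Hom

open Finset

end Pool.Agent.H34.Hom

end

section

/-! Symmetry consequences for the sums with an extra factor `i`. -/

namespace Pool.Agent.H34.Hom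

open Finset

end Pool.Agent.H34.Hom

end

section

/-!
# A Chu-Vandermonde sum (WZ proof)

`∑_k (-1)^k C(M,k) / ∏_{m≤M} (3(k-m)-1)` in closed form.
-/

namespace Pool.Agent.H34.Hom

open Finset

variable (K : Type*) [Field K] [CharZero K]

end Pool.Agent.H34.Hom

end

section

/-!
# Alternants, and the factorised sum rule

`alt e N z = det (z_i ^ e_j)`.  With `ex a = (0, a, 3, 3+a, 6, 6+a, …)` the product
`alt (ex 1) · alt (ex 2)` satisfies the recursion of the sum of the qKZ solution times the square
of the Vandermonde determinant.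
-/

set_option autoImplicit false

namespace Pool.Agent.H34.Hom

open Finset Polynomial

section ring

variable {R : Type*} [CommRing R]

end ring

section poly

end poly

end Pool.Agent.H34.Hom

end

section

/-!
# The sum rule: `Z_{2n} · Δ² · 3^{n(n-1)} = alt (ex 1) · alt (ex 2)`
-/

set_option autoImplicit false

namespace Pool.Agent.H34.Hom

open Finset Polynomial

end Pool.Agent.H34.Hom

end

section

/-! Exchange relations of leg sums. -/

namespace H56.EX

open scoped BigOperators Classical

variable {Lt Lb : ℕ}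

section linear

variable (kt kb M : ℕ)

end linear

/-! ### top-bottom symmetry -/

/-! ### hole ends (LT2) -/


end H56.EX

end
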