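import Pool.Agent.H94.BG.H31.PT.M03
import Pool.Agent.H94.BG.H31.PT.M31
import Pool.Agent.H94.BG.M03

/-! The parts of this file: H89.Perc.ArmBoxLower, H83.EX.SqrtTrick, H83.EX.Glue2, H83.EX.Double, H83.EX.DualSmall, H83.EX.StrongRSW, H57.LF.FS2, H57.LF.FS3, H57.LF.FS1, H89.Perc.ThetaLimit, H89.Perc.Surround, H57.LF.FS4, H85.Gamma.KIArm, H85.Gamma.Second, H85.Gamma.Main, H83.EX.WindDet, H89.Link.PerProb, H89.Link.Half, H89.Link.Face, H47.EX.Confine, H47.EX.SrcD, H89.Link.Four, H89.Link.Star, H89.Link.Law, H89.Link.One, H89.Link.Final, H14.EX.Top, H12.QKZ.Iface, H14.EX.Arc, H12.QKZ.PhiBase, H12.QKZ.Area, H12.QKZ.Comb, H56.EX.Rec, H56.EX.Param, H96.EX.LT1, H14.EX.LT4, H56.EX.Sym, H7.EX.LT3. -/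

section

/-!
# Lower bound for annulus crossing probabilities
-/

open MeasureTheory ProbabilityTheory unitInterval

namespace Pool.Agent.H89.Perc

namespace ArmBoxLower

/-- the upper arc of the box `[-W, W] × [-3W, 3W]` -/
def arc (W : ℤ) : Set Vert :=
  {v | (v.2 = 3 * W ∧ -W ≤ v.1 ∧ v.1 ≤ W) ∨ (0 ≤ v.2 ∧ v.2 ≤ 3 * W ∧ (v.1 = -W ∨ v.1 = W))}

/-- the vertices joined to the upper arc inside the box -/
def up (ω : Config) (W : ℤ) : Set Vert :=
  {v | ∃ a ∈ arc W, Conn ω (rect (-W) W (-3 * W) (3 * W)) v a}

end ArmBoxLower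

end Pool.Agent.H89.Perc

end

section

/-! # The square-root trick -/

open MeasureTheory ProbabilityTheory unitInterval

namespace Pool.Agent.H83.EX

open Pool.Agent.H89.Perc

end Pool.Agent.H83.EX

end

section

/-! # Two paths across an annulus without dual crossing are connected -/

open MeasureTheory ProbabilityTheory unitInterval

namespace Pool.Agent.H83.EX

open Pool.Agent.H89.Perc

end Pool.Agent.H83.EX

end

section

/-! # Doubling the length of a rectangle -/

open MeasureTheory ProbabilityTheory unitInterval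

namespace Pool.Agent.H83.EX

open Pool.Agent.H89.Perc

end Pool.Agent.H83.EX

end

section

/-! # Annulus crossings of thick annuli are unlikely -/

open MeasureTheory ProbabilityTheory unitInterval

namespace Pool.Agent.H83.EX

open Pool.Agent.H89.Perc

end Pool.Agent.H83.EX

end

section

/-! # If the squares are crossed with probability close to one, so are the long rectangles -/

open MeasureTheory ProbabilityTheory unitInterval

namespace Pool.Agent.H83.EX

open Pool.Agent.H89.Perc

end Pool.Agent.H83.EX

end

section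

open MeasureTheory ProbabilityTheory unitInterval

namespace Pool.Agent.H57.LF

open Pool.Agent.H89.Perc

end Pool.Agent.H57.LF

end

section

open MeasureTheory ProbabilityTheory unitInterval

namespace Pool.Agent.H57.LF

open Pool.Agent.H89.Perc

end Pool.Agent.H57.LF

end

section

open MeasureTheory ProbabilityTheory unitInterval

namespace Pool.Agent.H57.LF

open Pool.Agent.H89.Perc

end Pool.Agent.H57.LF

end

section

/-!
# The percolation probability is the limit of the one-arm probabilities
-/

open MeasureTheory ProbabilityTheory unitInterval Filter Topology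

namespace Pool.Agent.H89.Perc

end Pool.Agent.H89.Perc

end

section

/-!
# Finite clusters are surrounded by dual paths
-/

open MeasureTheory ProbabilityTheory unitInterval

namespace Pool.Agent.H89.Perc

/-- Last index with a property. -/
private lemma surround_last (P : ℤ → Prop) {a b : ℤ} (hab : a ≤ b) (ha : P a) (hb : ¬ P b) :
    ∃ j, a ≤ j ∧ j < b ∧ P j ∧ ¬ P (j + 1) := by
  by_contra hno
  push Not at hno
  have key : ∀ j, a ≤ j → j ≤ b → P j := by
    intro j hj
    induction j, hj using Int.leInduction with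
    | base => exact fun _ => ha
    | succ k hk ih => exact fun hkb => hno k hk (by omega) (ih (by omega))
  exact hb (key b hab le_rfl)

/-- First index with a property, going down. -/
private lemma surround_last_down (P : ℤ → Prop) {a b : ℤ} (hab : b ≤ a) (ha : P a) (hb : ¬ P b) :
    ∃ j, b < j ∧ j ≤ a ∧ P j ∧ ¬ P (j - 1) := by
  obtain ⟨j, h1, h2, h3, h4⟩ := surround_last (fun t => P (-t)) (a := -a) (b := -b) (by omega)
    (by simpa using ha) (by simpa using hb)
  refine ⟨-j, by omega, by omega, h3, ?_⟩
  have : -(j + 1) = -j - 1 := by ring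
  rw [← this]
  exact h4

private lemma surround_mono_on {ω ω' : Config} {S : Set Vert} {u v : Vert}
    (h : ∀ e, src e ∈ S → tgt e ∈ S → ω e = true → ω' e = true) (hc : Conn ω S u v) :
    Conn ω' S u v := by
  refine ⟨hc.1, Relation.ReflTransGen.mono ?_ _ _ hc.2⟩
  rintro a b ⟨ha, hb, e, he, ho⟩
  refine ⟨ha, hb, e, he, ?_⟩
  rcases he with ⟨h1, h2⟩ | ⟨h1, h2⟩
  · exact h e (h1 ▸ ha) (h2 ▸ hb) ho
  · exact h e (h2 ▸ hb) (h1 ▸ ha) ho

private lemma surround_vert {S : Set Vert} {x y₁ y₂ : ℤ} (hy : y₁ ≤ y₂)
    (hS : ∀ y, y₁ ≤ y → y ≤ y₂ → ((x, y) : Vert) ∈ S) :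
    Conn allOpen S (x, y₁) (x, y₂) := by
  induction y₂, hy using Int.leInduction with
  | base => exact Conn.refl (hS y₁ le_rfl le_rfl)
  | succ k hk ih =>
    have h1 := ih fun y hy1 hy2 => hS y hy1 (by omega)
    refine h1.tail ⟨h1.mem_right, hS _ (by omega) le_rfl, (x, k, true), ?_, rfl⟩
    left
    simp [src, tgt]

private lemma surround_horiz {S : Set Vert} {x₁ x₂ y : ℤ} (hx : x₁ ≤ x₂)
    (hS : ∀ x, x₁ ≤ x → x ≤ x₂ → ((x, y) : Vert) ∈ S) :
    Conn allOpen S (x₁, y) (x₂, y) := by
  induction x₂, hx using Int.leInduction with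
  | base => exact Conn.refl (hS x₁ le_rfl le_rfl)
  | succ k hk ih =>
    have h1 := ih fun x hx1 hx2 => hS x hx1 (by omega)
    refine h1.tail ⟨h1.mem_right, hS _ (by omega) le_rfl, (k, y, false), ?_, rfl⟩
    left
    simp [src, tgt]

/-- The boundary of a square is connected. -/
private lemma surround_sphere {S : Set Vert} {M : ℕ}
    (hS : ∀ w ∈ sphere 0 M, w ∈ S) (w : Vert) (hw : w ∈ sphere 0 M) :
    Conn allOpen S ((M : ℤ), 0) w := by
  have hmem : ∀ x y : ℤ, -(M : ℤ) ≤ x → x ≤ M → -(M : ℤ) ≤ y → y ≤ M →
      (x = -(M : ℤ) ∨ x = M ∨ y = -(M : ℤ) ∨ y = M) → ((x, y) : Vert) ∈ S := by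
    intro x y h1 h2 h3 h4 h5
    refine hS _ ⟨?_, ?_⟩
    · simp only [mem_ball, Prod.fst_zero, Prod.snd_zero]
      omega
    · simp only [Prod.fst_zero, Prod.snd_zero]
      omega
  have hM : (0 : ℤ) ≤ M := by positivity
  -- corners
  have hru : Conn allOpen S ((M : ℤ), 0) (M, M) :=
    surround_vert hM fun y h1 h2 => hmem _ _ (by omega) (by omega) (by omega) (by omega) (by omega)
  have hrd : Conn allOpen S ((M : ℤ), 0) (M, -M) :=
    (surround_vert (by omega) fun y h1 h2 =>
      hmem _ _ (by omega) (by omega) (by omega) (by omega) (by omega)).symm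
  have hlu : Conn allOpen S ((M : ℤ), 0) (-M, M) :=
    hru.trans (surround_horiz (by omega) fun y h1 h2 =>
      hmem _ _ (by omega) (by omega) (by omega) (by omega) (by omega)).symm
  obtain ⟨x, y⟩ := w
  obtain ⟨hb, hs⟩ := hw
  simp only [mem_ball, Prod.fst_zero, Prod.snd_zero] at hb hs
  rcases hs with h | h | h | h
  · -- left side
    have hx : x = -(M : ℤ) := by omega
    subst hx
    exact hlu.trans (surround_vert (by omega) fun t h1 h2 =>
      hmem _ _ (by omega) (by omega) (by omega) (by omega) (by omega)).symm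
  · have hx : x = (M : ℤ) := by omega
    subst hx
    exact hru.trans (surround_vert (by omega) fun t h1 h2 =>
      hmem _ _ (by omega) (by omega) (by omega) (by omega) (by omega)).symm
  · have hy : y = -(M : ℤ) := by omega
    subst hy
    exact hrd.trans (surround_horiz (by omega) fun t h1 h2 =>
      hmem _ _ (by omega) (by omega) (by omega) (by omega) (by omega)).symm
  · have hy : y = (M : ℤ) := by omega
    subst hy
    exact hru.trans (surround_horiz (by omega) fun t h1 h2 =>
      hmem _ _ (by omega) (by omega) (by omega) (by omega) (by omega)).symm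

/-- A cluster which reaches distance `2 R` but not distance `M` is surrounded by a dual path. -/
theorem surround {ω : Config} {R M : ℕ} (hR : 1 ≤ R) (hM : 2 * R < M) (h1 : ω ∈ Arm 0 (2 * R))
    (h2 : ω ∉ Arm 0 M) : ∃ j : ℕ, j < M ∧ dual ω ∈ Arm ((j : ℤ), 0) (max j R) := by
  have hball : ball 0 M = rect (-(M : ℤ)) M (-(M : ℤ)) M := by
    simp [ball]
  obtain ⟨u, hu, hcu⟩ := h1
  set D : Set Vert := rect (-(M : ℤ)) M (-(M : ℤ)) M with hD
  have hub : -(2 * R : ℤ) ≤ u.1 ∧ u.1 ≤ 2 * R ∧ -(2 * R : ℤ) ≤ u.2 ∧ u.2 ≤ 2 * R := by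
    have := hu.1
    simp only [mem_ball, Prod.fst_zero, Prod.snd_zero] at this
    push_cast at this
    omega
  have hus : u.1 = -(2 * R : ℤ) ∨ u.1 = 2 * R ∨ u.2 = -(2 * R : ℤ) ∨ u.2 = 2 * R := by
    have := hu.2
    simp only [Prod.fst_zero, Prod.snd_zero] at this
    push_cast at this
    omega
  have h0D : (0 : Vert) ∈ D := by
    refine ⟨?_, ?_, ?_, ?_⟩ <;> simp
  -- the cluster
  set C : Set Vert := {w | Conn ω D 0 w} with hC
  have hCD : C ⊆ D := fun w hw => hw.mem_right
  have h0C : (0 : Vert) ∈ C := Conn.refl h0D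
  have huC : u ∈ C := by
    refine hcu.mono_set ?_
    intro w hw
    simp only [mem_ball, Prod.fst_zero, Prod.snd_zero] at hw
    push_cast at hw
    simp only [hD, rect, Set.mem_ofPred_eq]
    omega
  have hCconn : ∀ a ∈ C, ∀ b ∈ C, Conn allOpen C a b := by
    have h0 : ∀ a ∈ C, Conn allOpen C 0 a := by
      intro a ha
      refine Conn.induction_right (P := fun x => Conn allOpen C 0 x) ha (Conn.refl h0C) ?_
      intro x y hx hxy hc
      obtain ⟨_, hy, e, he, _⟩ := id hxy
      exact hc.tail ⟨hc.mem_right, hx.tail hxy, e, he, rfl⟩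
    intro a ha b hb
    exact (h0 a ha).symm.trans (h0 b hb)
  have hsC : ∀ w ∈ sphere 0 M, w ∈ D \ C := by
    intro w hw
    refine ⟨?_, fun hwC => h2 ⟨w, hw, ?_⟩⟩
    · rw [← hball]; exact hw.1
    · rw [hball]; exact hwC
  set K : Set Vert := comp D C ((M : ℤ), 0) with hK
  have hsK : ∀ w ∈ sphere 0 M, w ∈ K := fun w hw => surround_sphere hsC w hw
  have hKD : K ⊆ D := fun w hw => (Conn.mem_right hw).1
  have hKC : ∀ w ∈ K, w ∉ C := fun w hw => (Conn.mem_right hw).2
  have hKc : ∀ a ∈ K, ∀ b ∈ K, Conn allOpen K a b := comp_connected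
  have hKc' : ∀ a ∈ D \ K, ∀ b ∈ D \ K, Conn allOpen (D \ K) a b :=
    compl_comp_connected hCD h0C hCconn
  -- cut edges are closed
  have hclosed : ∀ e : Edge, src e ∈ D → tgt e ∈ D → cutConfig K e = false → ω e = false := by
    intro e hs ht hcut
    by_contra ho
    rw [Bool.not_eq_false] at ho
    rcases cut_comp ⟨hs, ht⟩ hcut with ⟨h3, h4⟩ | ⟨h3, h4⟩
    · exact hKC _ h4 (Conn.tail h3 ⟨hs, ht, e, joins_src_tgt e, ho⟩)
    · exact hKC _ h4 (Conn.tail h3 ⟨ht, hs, e, (joins_src_tgt e).symm, ho⟩)
  have hcutiff : ∀ e : Edge, (src e ∈ K ↔ tgt e ∉ K) → cutConfig K e = false := by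
    intro e he
    simp only [cutConfig, decide_eq_false_iff_not]
    tauto
  -- dual paths
  have hsep : ∀ e e' : Edge, src e ∈ D → tgt e ∈ D → src e' ∈ D → tgt e' ∈ D →
      (src e ∈ K ↔ tgt e ∉ K) → (src e' ∈ K ↔ tgt e' ∉ K) → ∀ φ φ' : Vert, IsFace φ e →
      IsFace φ' e' → φ ∈ rect (-(M : ℤ)) (M - 1) (-(M : ℤ)) (M - 1) →
      φ' ∈ rect (-(M : ℤ)) (M - 1) (-(M : ℤ)) (M - 1) →
      Conn (dual ω) (rect (-(M : ℤ)) (M - 1) (-(M : ℤ)) (M - 1)) φ φ' := by
    intro e e' h3 h4 h5 h6 h7 h8 φ φ' h9 h10 h11 h12
    have h13 := sep (K := K) hKD hKc hKc' ⟨h3, h4⟩ ⟨h5, h6⟩ (hcutiff e h7) (hcutiff e' h8)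
      h9 h10 h11 h12
    refine surround_mono_on ?_ h13
    intro f hf1 hf2 hf3
    simp only [dual, Bool.not_eq_true'] at hf3 ⊢
    obtain ⟨x, y, b⟩ := f
    cases b
    · simp only [src, tgt, rect, Set.mem_ofPred_eq, Bool.false_eq_true, if_false] at hf1 hf2
      refine hclosed _ ?_ ?_ hf3
      · simp only [crossed, src, hD, rect, Set.mem_ofPred_eq, Bool.false_eq_true, if_false]
        omega
      · simp only [crossed, tgt, hD, rect, Set.mem_ofPred_eq, Bool.false_eq_true, if_false,
          if_true]
        omega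
    · simp only [src, tgt, rect, Set.mem_ofPred_eq, if_true] at hf1 hf2
      refine hclosed _ ?_ ?_ hf3
      · simp only [crossed, src, hD, rect, Set.mem_ofPred_eq, if_true]
        omega
      · simp only [crossed, tgt, hD, rect, Set.mem_ofPred_eq, if_true, Bool.false_eq_true,
          if_false]
        omega
  have hsph : ∀ x y : ℤ, -(M : ℤ) ≤ x → x ≤ M → -(M : ℤ) ≤ y → y ≤ M →
      (x = -(M : ℤ) ∨ x = M ∨ y = -(M : ℤ) ∨ y = M) → ((x, y) : Vert) ∈ K := by
    intro x y h3 h4 h5 h6 h7
    refine hsK _ ⟨?_, ?_⟩
    · simp only [mem_ball, Prod.fst_zero, Prod.snd_zero]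
      omega
    · simp only [Prod.fst_zero, Prod.snd_zero]
      omega
  have h0K : ((0 : ℤ), (0 : ℤ)) ∉ K := fun h => hKC _ h h0C
  have huK : (u.1, u.2) ∉ K := fun h => hKC _ h huC
  -- the cut edge on the positive axis
  obtain ⟨j, hj0, hjM, hjK, hjK'⟩ := surround_last (fun t => ((t, 0) : Vert) ∉ K)
    (a := 0) (b := M) (by omega) h0K (by
      simp only [not_not]
      exact hsph _ _ (by omega) le_rfl (by omega) (by omega) (by omega))
  simp only [not_not] at hjK'
  obtain ⟨n, rfl⟩ := Int.eq_ofNat_of_zero_le hj0
  refine ⟨n, by omega, ?_⟩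
  have main : ∀ (e' : Edge) (φ' : Vert), src e' ∈ D → tgt e' ∈ D → (src e' ∈ K ↔ tgt e' ∉ K) →
      IsFace φ' e' → φ' ∈ rect (-(M : ℤ)) (M - 1) (-(M : ℤ)) (M - 1) →
      (((max n R : ℕ) : ℤ) ≤ |φ'.1 - n| ∨ ((max n R : ℕ) : ℤ) ≤ |φ'.2 - 0|) →
      dual ω ∈ Arm ((n : ℤ), 0) (max n R) := by
    intro e' φ' h3 h4 h5 h6 h7 h8
    refine Conn.mem_arm (hsep ((n : ℤ), 0, false) e' ?_ ?_ h3 h4 ?_ h5 ((n : ℤ), 0) φ'
      (Or.inl rfl) h6 ?_ h7) h8
    · simp only [src, hD, rect, Set.mem_ofPred_eq]
      omega
    · simp only [tgt, hD, rect, Set.mem_ofPred_eq, Bool.false_eq_true, if_false]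
      omega
    · simp only [src, tgt, Bool.false_eq_true, if_false]
      exact iff_of_false hjK (not_not.mpr hjK')
    · simp only [rect, Set.mem_ofPred_eq]
      omega
  by_cases hnR : R ≤ n
  · -- use the negative axis
    obtain ⟨i, hi1, hi2, hi3, hi4⟩ := surround_last_down (fun t => ((t, 0) : Vert) ∉ K)
      (a := 0) (b := -(M : ℤ)) (by omega) h0K (by
        simp only [not_not]
        exact hsph _ _ le_rfl (by omega) (by omega) (by omega) (by omega))
    simp only [not_not] at hi4
    refine main (i - 1, 0, false) (i - 1, 0) ?_ ?_ ?_ (Or.inl rfl) ?_ ?_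
    · simp only [src, hD, rect, Set.mem_ofPred_eq]
      omega
    · simp only [tgt, hD, rect, Set.mem_ofPred_eq, Bool.false_eq_true, if_false]
      omega
    · simp only [src, tgt, Bool.false_eq_true, if_false, sub_add_cancel]
      exact iff_of_true hi4 hi3
    · simp only [rect, Set.mem_ofPred_eq]
      omega
    · left
      rw [max_eq_left hnR]
      rw [abs_of_nonpos (by simp only; omega)]
      simp only
      omega
  · have hnR' : n < R := by omega
    rw [max_eq_right hnR'.le] at main ⊢
    rcases hus with h | h | h | h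
    · -- go left
      obtain ⟨i, hi1, hi2, hi3, hi4⟩ := surround_last_down (fun t => ((t, u.2) : Vert) ∉ K)
        (a := u.1) (b := -(M : ℤ)) (by omega) huK (by
          simp only [not_not]
          exact hsph _ _ le_rfl (by omega) (by omega) (by omega) (by omega))
      simp only [not_not] at hi4
      refine main (i - 1, u.2, false) (i - 1, u.2) ?_ ?_ ?_ (Or.inl rfl) ?_ ?_
      · simp only [src, hD, rect, Set.mem_ofPred_eq]
        omega
      · simp only [tgt, hD, rect, Set.mem_ofPred_eq, Bool.false_eq_true, if_false]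
        omega
      · simp only [src, tgt, Bool.false_eq_true, if_false, sub_add_cancel]
        exact iff_of_true hi4 hi3
      · simp only [rect, Set.mem_ofPred_eq]
        omega
      · left
        rw [abs_of_nonpos (by simp only; omega)]
        simp only
        omega
    · -- go right
      obtain ⟨i, hi1, hi2, hi3, hi4⟩ := surround_last (fun t => ((t, u.2) : Vert) ∉ K)
        (a := u.1) (b := (M : ℤ)) (by omega) huK (by
          simp only [not_not]
          exact hsph _ _ (by omega) le_rfl (by omega) (by omega) (by omega))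
      simp only [not_not] at hi4
      refine main (i, u.2, false) (i, u.2) ?_ ?_ ?_ (Or.inl rfl) ?_ ?_
      · simp only [src, hD, rect, Set.mem_ofPred_eq]
        omega
      · simp only [tgt, hD, rect, Set.mem_ofPred_eq, Bool.false_eq_true, if_false]
        omega
      · simp only [src, tgt, Bool.false_eq_true, if_false]
        exact iff_of_false hi3 (not_not.mpr hi4)
      · simp only [rect, Set.mem_ofPred_eq]
        omega
      · left
        rw [abs_of_nonneg (by simp only; omega)]
        simp only
        omega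
    · -- go down
      obtain ⟨i, hi1, hi2, hi3, hi4⟩ := surround_last_down (fun t => ((u.1, t) : Vert) ∉ K)
        (a := u.2) (b := -(M : ℤ)) (by omega) huK (by
          simp only [not_not]
          exact hsph _ _ (by omega) (by omega) le_rfl (by omega) (by omega))
      simp only [not_not] at hi4
      refine main (u.1, i - 1, true) (u.1, i - 1) ?_ ?_ ?_ (Or.inl rfl) ?_ ?_
      · simp only [src, hD, rect, Set.mem_ofPred_eq]
        omega
      · simp only [tgt, hD, rect, Set.mem_ofPred_eq, if_true]
        omega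
      · simp only [src, tgt, if_true, sub_add_cancel]
        exact iff_of_true hi4 hi3
      · simp only [rect, Set.mem_ofPred_eq]
        omega
      · right
        rw [abs_of_nonpos (by simp only; omega)]
        simp only
        omega
    · -- go up
      obtain ⟨i, hi1, hi2, hi3, hi4⟩ := surround_last (fun t => ((u.1, t) : Vert) ∉ K)
        (a := u.2) (b := (M : ℤ)) (by omega) huK (by
          simp only [not_not]
          exact hsph _ _ (by omega) (by omega) (by omega) le_rfl (by omega))
      simp only [not_not] at hi4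
      refine main (u.1, i, true) (u.1, i) ?_ ?_ ?_ (Or.inl rfl) ?_ ?_
      · simp only [src, hD, rect, Set.mem_ofPred_eq]
        omega
      · simp only [tgt, hD, rect, Set.mem_ofPred_eq, if_true]
        omega
      · simp only [src, tgt, if_true]
        exact iff_of_false hi3 (not_not.mpr hi4)
      · simp only [rect, Set.mem_ofPred_eq]
        omega
      · right
        rw [abs_of_nonneg (by simp only; omega)]
        simp only
        omega

end Pool.Agent.H89.Perc

end

section

open MeasureTheory ProbabilityTheory unitInterval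

namespace Pool.Agent.H57.LF

open Pool.Agent.H89.Perc

end Pool.Agent.H57.LF

end

section

/-!
# The key inequality for the one-arm event
-/

open MeasureTheory ProbabilityTheory unitInterval

namespace Pool.Agent.H85.Gamma

open Pool.Agent.H89.Perc
open Pool.Agent.Perc (Ex ind ind_of ind_of_not ind_congr)

end Pool.Agent.H85.Gamma

end

section

/-!
# Lower bound for the susceptibility by a second moment argument
-/

open MeasureTheory ProbabilityTheory unitInterval Filter Topology
open scoped ENNReal

namespace Pool.Agent.H85.Gamma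

open Pool.Agent.H89.Perc
open Pool.Agent.Perc (Ex ind ind_of ind_of_not ind_congr ind_nonneg ind_le_one)

end Pool.Agent.H85.Gamma

end

section

/-!
# The mean cluster size of bond percolation on the square lattice is at least `c (1/2 - p)^{-2}`
-/

open MeasureTheory ProbabilityTheory unitInterval Filter Topology
open scoped ENNReal

namespace Pool.Agent.H85.Gamma

open Pool.Agent.H89.Perc

end Pool.Agent.H85.Gamma

end

section

/-! # A winding path from crossings of rectangles -/

open MeasureTheory ProbabilityTheory unitInterval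

namespace Pool.Agent.H83.EX

open Pool.Agent.H89.Perc

end Pool.Agent.H83.EX

end

section

/-!
# LINK module `PerProb`: local events have the same probability in the plane and on the cylinder

`per n ω e = ω (base n e)` with `base n e = (e.1 % n, e.2.1 + (e.1 - e.1 % n), e.2.2)`.  If `base n` is injective on
the finite set `S` and `A` depends only on `S`, then `{ω | per n ω ∈ A}` is the image of `A` under the
relabelling, and has the same probability (the law of `(ω (base n e))_{e ∈ S}` is the product law).
`base n` is injective on the edges with `|e.1| ≤ k` if `2 k < n`.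
-/

set_option autoImplicit false

open MeasureTheory ProbabilityTheory unitInterval

namespace Pool.Agent.H89.Link

open Pool.Agent.H89.Perc (Vert Edge Config Pr half)

/-- The representative of the edge `e` in the strip `0 ≤ x < n`. -/
def base (n : ℕ) (e : Edge) : Edge := (e.1 % n, e.2.1 + (e.1 - e.1 % n), e.2.2)

theorem base_injOn {n k : ℕ} (hk : 2 * k < n) :
    Set.InjOn (base n) {e : Edge | -(k : ℤ) ≤ e.1 ∧ e.1 ≤ k} := by
  rintro ⟨x, y, b⟩ ⟨h1, h2⟩ ⟨x', y', b'⟩ ⟨h1', h2'⟩ h
  simp only [base, Prod.mk.injEq] at h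
  simp only at h1 h2 h1' h2'
  obtain ⟨e1, e2, e3⟩ := h
  have hd : (n : ℤ) ∣ x - x' := Int.ModEq.dvd (Eq.symm e1)
  have hlt : |x - x'| < (n : ℤ) := by
    rw [abs_lt]
    constructor <;> omega
  have h0 : x - x' = 0 := Int.eq_zero_of_abs_lt_dvd hd hlt
  have hx : x = x' := by omega
  subst hx
  have hy : y = y' := by omega
  subst hy
  subst e3
  rfl

theorem pr_per (p : I) {n : ℕ} {S : Finset Edge} (hS : Set.InjOn (base n) S) {A : Set Config}
    (hA : Perc.LocalOn S A) : Pr p {ω | per n ω ∈ A} = Pr p A :=
  Perc.Pr_comp hA hS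

/-- `base n` is injective on the edges of a box. -/
theorem perProb_injOn {n k : ℕ} (hk : 2 * k < n) :
    Set.InjOn (base n) (Perc.eRect (-(k : ℤ)) k (-(k : ℤ)) k : Finset Edge) := by
  refine (base_injOn hk).mono ?_
  intro e he
  have he' := Perc.mem_eRect.1 (Finset.mem_coe.1 he)
  exact ⟨he'.1, he'.2.1⟩

end Pool.Agent.H89.Link

end

section

/-!
# LINK module `Half`: colours are transported through a half cylinder

`halfP_inv`: induction on `h` with `row_inv` (the upper part has rows `r + 1, …, r + h`).
`halfP_congr`: induction on `h`; `row t P` only uses `t 0, …, t (L - 1)` (`wires_congr`).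
-/

set_option autoImplicit false

namespace Pool.Agent.H89.Link

open H56.EX

variable {L : ℕ} {T : Type*}

/-- **Colours are transported through a half cylinder.** -/
theorem halfP_inv {s : Pat L} {t : ℤ → ℤ → Bool} (ht : ∀ c r, t (c + L) r = t c r)
    {V H : ℤ → ℤ → T} (h : ℕ) (r : ℤ)
    (hV : ∀ r', r ≤ r' → r' < r + h →
      RowCol (fun c => t c r') (fun c => V c (r' + 1)) (fun c => H c r') (fun c => V c r'))
    (hs : ∀ x, V (s.m x) (r + h) = V x (r + h)) (x : ℤ) :
    V ((halfP s t h r).m x) r = V x r := by
  induction h generalizing r x with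
  | zero => simpa [halfP] using hs x
  | succ h ih =>
    simp only [halfP]
    have ih' := ih (r + 1) (fun r' h1 h2 => hV r' (by omega) (by push_cast; omega))
      (fun y => by
        have e : r + 1 + (h : ℤ) = r + ((h + 1 : ℕ) : ℤ) := by push_cast; ring
        rw [e]; exact hs y)
    exact row_inv (fun c => ht c r) _ (hV r le_rfl (by push_cast; omega)) ih' x

end Pool.Agent.H89.Link

end

section

/-!
# LINK module `Face`: colourings of primal or dual vertices give invariants of the patterns

`F : Vert → T` constant along the open edges of the rows `0, …, h - 1` (of `per n ω`) gives a colour of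
the medial edges: the colour of the adjacent primal vertex.  In medial coordinates the face `(c, r)`
(between the columns `c, c + 1`, at level `r`) is primal iff `c + r` is odd and is then the vertex
`((c + r + 1) / 2, (r - c - 1) / 2)`.  Put (primal colouring)
  `K c r = F ((c + r + 1) / 2, (r - c - 1) / 2)`,
  `V c r = if (c + r) % 2 = 1 then K c r else K (c - 1) r`   (vertical edge in column `c` at level `r`),
  `H c r = if (c + r) % 2 = 1 then K c r else K c (r + 1)`   (horizontal edge from `(c, r)` to `(c + 1, r)`).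
Then `RowCol (tB (per n ω) · r) (V · (r + 1)) (H · r) (V · r)`:
* `c + r` even: `medge c r = (a, b, false)`, `a = (c + r) / 2`, `b = (r - c) / 2`; South-West face
  `(c - 1, r)` = `src`, North-East face `(c, r + 1)` = `tgt`; `V c r = K (c-1) r`, `V c (r+1) = K c (r+1)`,
  `H c r = K c (r+1)`, `H (c-1) r = K (c-1) r`; `tB = true` iff the edge is open.
* `c + r` odd: `medge c r = (a, b, true)`, `a = (c + r + 1) / 2`, `b = (r - c - 1) / 2`; South-East face
  `(c, r)` = `src`, North-West face `(c - 1, r + 1)` = `tgt`; `V c r = K c r = H c r`,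
  `V c (r+1) = K (c-1) (r+1) = H (c-1) r`; `tB = false` iff the edge is open.
At the top level `h` (even) the star joins `c` odd with `c + 1`, both are next to the primal face `(c, h)`.
The dual colouring is the same with parities exchanged: `K c r = G ((c + r) / 2, (r - c - 2) / 2)` for
`c + r` even, `V c r = if (c + r) % 2 = 0 then K c r else K (c - 1) r`, `H c r = if (c + r) % 2 = 0 then K c r
else K c (r + 1)`; at the top all dual faces have the same colour `a`.
`V c 0` is `F (pv c)` resp. `G (dv c)`.
`tB (per n ω) (c + 2 n) r = tB (per n ω) c r` (`tB_per`).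
For `dn` use the reflected colouring `V' c r = V c (-r)`, `H' c r = H c (-1 - r)`; the types are flipped:
at the vertex `(c, -1 - r)`, top and bottom are exchanged (`top' = V c (-r-1)` is the edge below it).
-/

set_option autoImplicit false

namespace Pool.Agent.H89.Link

open H56.EX
open Pool.Agent.H89.Perc (Vert Edge Config src tgt lowFace)

variable {L n : ℕ} {T : Type*}

theorem per_shift (n : ℕ) (ω : Config) (e : Edge) (k : ℤ) :
    per n ω (e.1 + n * k, e.2.1 - n * k, e.2.2) = per n ω e := by
  unfold per
  simp only [Int.add_mul_emod_self_left]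
  congr 2
  congr 1
  ring

theorem tB_per (hL : L = 2 * n) (ω : Config) (c r : ℤ) :
    tB (per n ω) (c + L) r = tB (per n ω) c r := by
  have hL' : (L : ℤ) = 2 * n := by rw [hL]; push_cast; ring
  have h1 : (c + L + r) % 2 = (c + r) % 2 := by rw [hL']; omega
  have h2 : per n ω (medge (c + L) r) = per n ω (medge c r) := by
    rw [← per_shift n ω (medge c r) 1]
    congr 1
    unfold medge
    rw [h1]
    split_ifs with h
    · refine Prod.ext ?_ (Prod.ext ?_ rfl)
      · simp only; rw [hL']; omega
      · simp only; rw [hL']; omega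
    · refine Prod.ext ?_ (Prod.ext ?_ rfl)
      · simp only; rw [hL']; omega
      · simp only; rw [hL']; omega
  unfold tB
  rw [h1, h2]

/-- Colour of the vertical medial edge, from a colouring of primal vertices. -/
private def faceV (F : Vert → T) (c r : ℤ) : T := F ((c + r + 1) / 2, (r - c) / 2)

/-- Colour of the horizontal medial edge, from a colouring of primal vertices. -/
private def faceH (F : Vert → T) (c r : ℤ) : T := F ((c + r + 2) / 2, (r - c) / 2)

/-- Colour of the vertical medial edge, from a colouring of dual vertices. -/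
private def faceV' (G : Vert → T) (c r : ℤ) : T := G ((c + r) / 2, (r - c - 1) / 2)

/-- Colour of the horizontal medial edge, from a colouring of dual vertices. -/
private def faceH' (G : Vert → T) (c r : ℤ) : T := G ((c + r + 1) / 2, (r - c - 1) / 2)

private theorem face_congr (F : Vert → T) {a b a' b' : ℤ} (h1 : a = a') (h2 : b = b') :
    F (a, b) = F (a', b') := by rw [h1, h2]

private theorem medge_sum (c r : ℤ) : (medge c r).1 + (medge c r).2.1 = r := by
  unfold medge
  split_ifs with h
  · simp only; omega
  · simp only; omega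

private theorem face_primal (η : Config) (F : Vert → T) (c r : ℤ)
    (hF : η (medge c r) = true → F (src (medge c r)) = F (tgt (medge c r))) :
    (tB η c r = true → faceV F c r = faceH F c r ∧ faceV F c (r + 1) = faceH F (c - 1) r) ∧
      (tB η c r = false → faceV F c r = faceH F (c - 1) r ∧ faceV F c (r + 1) = faceH F c r) := by
  by_cases h : (c + r) % 2 = 0
  · have hm : medge c r = ((c + r) / 2, (r - c) / 2, false) := by
      unfold medge; rw [if_pos h]
    have ht : tB η c r = η (medge c r) := by unfold tB; rw [if_pos h]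
    have hs : F (src (medge c r)) = F ((c + r) / 2, (r - c) / 2) := by rw [hm]; rfl
    have hg : F (tgt (medge c r)) = F ((c + r) / 2 + 1, (r - c) / 2) := by rw [hm]; rfl
    have v1 : faceV F c r = F ((c + r) / 2, (r - c) / 2) := face_congr F (by omega) (by omega)
    have v2 : faceV F c (r + 1) = F ((c + r) / 2 + 1, (r - c) / 2) :=
      face_congr F (by omega) (by omega)
    have v3 : faceH F c r = F ((c + r) / 2 + 1, (r - c) / 2) := face_congr F (by omega) (by omega)
    have v4 : faceH F (c - 1) r = F ((c + r) / 2, (r - c) / 2) := face_congr F (by omega) (by omega)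
    rw [ht, v1, v2, v3, v4, ← hs, ← hg]
    exact ⟨fun ho => ⟨hF ho, (hF ho).symm⟩, fun _ => ⟨rfl, rfl⟩⟩
  · have hm : medge c r = ((c + r + 1) / 2, (r - c - 1) / 2, true) := by
      unfold medge; rw [if_neg h]
    have ht : tB η c r = !η (medge c r) := by unfold tB; rw [if_neg h]
    have hs : F (src (medge c r)) = F ((c + r + 1) / 2, (r - c - 1) / 2) := by rw [hm]; rfl
    have hg : F (tgt (medge c r)) = F ((c + r + 1) / 2, (r - c - 1) / 2 + 1) := by rw [hm]; rfl
    have v1 : faceV F c r = F ((c + r + 1) / 2, (r - c - 1) / 2) :=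
      face_congr F (by omega) (by omega)
    have v2 : faceV F c (r + 1) = F ((c + r + 1) / 2, (r - c - 1) / 2 + 1) :=
      face_congr F (by omega) (by omega)
    have v3 : faceH F c r = F ((c + r + 1) / 2, (r - c - 1) / 2) :=
      face_congr F (by omega) (by omega)
    have v4 : faceH F (c - 1) r = F ((c + r + 1) / 2, (r - c - 1) / 2 + 1) :=
      face_congr F (by omega) (by omega)
    rw [ht, v1, v2, v3, v4, ← hs, ← hg]
    refine ⟨fun _ => ⟨rfl, rfl⟩, fun ho => ?_⟩
    have ho' : η (medge c r) = true := by
      cases hη : η (medge c r)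
      · rw [hη] at ho; exact absurd ho (by decide)
      · rfl
    exact ⟨hF ho', (hF ho').symm⟩

private theorem face_dual (η : Config) (G : Vert → T) (c r : ℤ)
    (hG : η (medge c r) = false → G (lowFace (medge c r)) = G (src (medge c r))) :
    (tB η c r = true → faceV' G c r = faceH' G c r ∧ faceV' G c (r + 1) = faceH' G (c - 1) r) ∧
      (tB η c r = false → faceV' G c r = faceH' G (c - 1) r ∧
        faceV' G c (r + 1) = faceH' G c r) := by
  by_cases h : (c + r) % 2 = 0
  · have hm : medge c r = ((c + r) / 2, (r - c) / 2, false) := by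
      unfold medge; rw [if_pos h]
    have ht : tB η c r = η (medge c r) := by unfold tB; rw [if_pos h]
    have hs : G (src (medge c r)) = G ((c + r) / 2, (r - c) / 2) := by rw [hm]; rfl
    have hg : G (lowFace (medge c r)) = G ((c + r) / 2, (r - c) / 2 - 1) := by rw [hm]; rfl
    have v1 : faceV' G c r = G ((c + r) / 2, (r - c) / 2 - 1) :=
      face_congr G (by omega) (by omega)
    have v2 : faceV' G c (r + 1) = G ((c + r) / 2, (r - c) / 2) :=
      face_congr G (by omega) (by omega)
    have v3 : faceH' G c r = G ((c + r) / 2, (r - c) / 2 - 1) :=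
      face_congr G (by omega) (by omega)
    have v4 : faceH' G (c - 1) r = G ((c + r) / 2, (r - c) / 2) :=
      face_congr G (by omega) (by omega)
    rw [ht, v1, v2, v3, v4, ← hs, ← hg]
    exact ⟨fun _ => ⟨rfl, rfl⟩, fun ho => ⟨hG ho, (hG ho).symm⟩⟩
  · have hm : medge c r = ((c + r + 1) / 2, (r - c - 1) / 2, true) := by
      unfold medge; rw [if_neg h]
    have ht : tB η c r = !η (medge c r) := by unfold tB; rw [if_neg h]
    have hs : G (src (medge c r)) = G ((c + r + 1) / 2, (r - c - 1) / 2) := by rw [hm]; rfl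
    have hg : G (lowFace (medge c r)) = G ((c + r + 1) / 2 - 1, (r - c - 1) / 2) := by
      rw [hm]; rfl
    have v1 : faceV' G c r = G ((c + r + 1) / 2 - 1, (r - c - 1) / 2) :=
      face_congr G (by omega) (by omega)
    have v2 : faceV' G c (r + 1) = G ((c + r + 1) / 2, (r - c - 1) / 2) :=
      face_congr G (by omega) (by omega)
    have v3 : faceH' G c r = G ((c + r + 1) / 2, (r - c - 1) / 2) :=
      face_congr G (by omega) (by omega)
    have v4 : faceH' G (c - 1) r = G ((c + r + 1) / 2 - 1, (r - c - 1) / 2) :=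
      face_congr G (by omega) (by omega)
    rw [ht, v1, v2, v3, v4, ← hs, ← hg]
    refine ⟨fun ho => ?_, fun _ => ⟨rfl, rfl⟩⟩
    have ho' : η (medge c r) = false := by
      cases hη : η (medge c r)
      · rfl
      · rw [hη] at ho; exact absurd ho (by decide)
    exact ⟨hG ho', (hG ho').symm⟩

private theorem face_star {s : Pat L} (hs : IsStar s) (F : Vert → T) {k : ℤ} (hk : k % 2 = 0)
    (x : ℤ) : faceV F (s.m x) k = faceV F x k := by
  rw [hs x]
  split_ifs with h
  · exact face_congr F (by omega) (by omega)
  · exact face_congr F (by omega) (by omega)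

private theorem faceV_zero (F : Vert → T) (c : ℤ) : faceV F c 0 = F (pv c) :=
  face_congr F (by omega) (by omega)

private theorem faceV'_zero (G : Vert → T) (c : ℤ) : faceV' G c 0 = G (dv c) :=
  face_congr G (by omega) (by omega)

theorem up_primal (hL : L = 2 * n) {s : Pat L} (hs : IsStar s) {h : ℕ} (he : Even h) (ω : Config)
    {F : Vert → T} (hF : ∀ e : Edge, 0 ≤ e.1 + e.2.1 → e.1 + e.2.1 < h → per n ω e = true →
      F (src e) = F (tgt e)) (x : ℤ) : F (pv ((up s n h ω).m x)) = F (pv x) := by
  have hk : (0 + (h : ℤ)) % 2 = 0 := by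
    obtain ⟨m, hm⟩ := he
    rw [hm]; push_cast; omega
  have key := halfP_inv (s := s) (t := fun c r => tB (per n ω) c r) (tB_per hL ω)
    (V := faceV F) (H := faceH F) h 0 ?_ (fun y => face_star hs F hk y) x
  · rw [faceV_zero, faceV_zero] at key
    exact key
  · intro r' h0 h1 c
    exact face_primal (per n ω) F c r' (hF _ (by rw [medge_sum]; exact h0)
      (by rw [medge_sum]; linarith only [h1]))

theorem dn_primal (hL : L = 2 * n) {s : Pat L} (hs : IsStar s) {h : ℕ} (he : Even h) (ω : Config)
    {F : Vert → T} (hF : ∀ e : Edge, -(h : ℤ) ≤ e.1 + e.2.1 → e.1 + e.2.1 < 0 → per n ω e = true →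
      F (src e) = F (tgt e)) (x : ℤ) : F (pv ((dn s n h ω).m x)) = F (pv x) := by
  have hk : (-(0 + (h : ℤ))) % 2 = 0 := by
    obtain ⟨m, hm⟩ := he
    rw [hm]; push_cast; omega
  have key := halfP_inv (s := s) (t := fun c r => !tB (per n ω) c (-1 - r))
    (fun c r => by simp only [tB_per hL ω])
    (V := fun c r => faceV F c (-r)) (H := fun c r => faceH F c (-1 - r)) h 0 ?_
    (fun y => face_star hs F hk y) x
  · simp only [neg_zero] at key
    rw [faceV_zero, faceV_zero] at key
    exact key
  · intro r' h0 h1 c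
    have hp := face_primal (per n ω) F c (-1 - r') (hF _ (by rw [medge_sum]; linarith)
      (by rw [medge_sum]; linarith only [h0]))
    have e1 : -1 - r' + 1 = -r' := by ring
    have e2 : -(r' + 1) = -1 - r' := by ring
    rw [e1] at hp
    simp only [e2]
    refine ⟨fun ht => ?_, fun ht => ?_⟩
    · have ht' : tB (per n ω) c (-1 - r') = false := by simpa using ht
      exact ⟨(hp.2 ht').2, (hp.2 ht').1⟩
    · have ht' : tB (per n ω) c (-1 - r') = true := by simpa using ht
      exact ⟨(hp.1 ht').2, (hp.1 ht').1⟩

theorem up_dual (hL : L = 2 * n) {s : Pat L} (hs : IsStar s) {h : ℕ} (he : Even h) (ω : Config)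
    {G : Vert → T} (hG : ∀ e : Edge, 0 ≤ e.1 + e.2.1 → e.1 + e.2.1 < h → per n ω e = false →
      G (lowFace e) = G (src e)) (a : T) (ha : ∀ f : Vert, f.1 + f.2 + 1 = h → G f = a) (x : ℤ) :
    G (dv ((up s n h ω).m x)) = G (dv x) := by
  have hv : ∀ y : ℤ, faceV' G y (0 + (h : ℤ)) = a := by
    intro y
    refine ha _ ?_
    simp only
    omega
  have key := halfP_inv (s := s) (t := fun c r => tB (per n ω) c r) (tB_per hL ω)
    (V := faceV' G) (H := faceH' G) h 0 ?_ (fun y => by rw [hv, hv]) x
  · rw [faceV'_zero, faceV'_zero] at key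
    exact key
  · intro r' h0 h1 c
    exact face_dual (per n ω) G c r' (hG _ (by rw [medge_sum]; exact h0)
      (by rw [medge_sum]; linarith))

theorem dn_dual (hL : L = 2 * n) {s : Pat L} (hs : IsStar s) {h : ℕ} (he : Even h) (ω : Config)
    {G : Vert → T} (hG : ∀ e : Edge, -(h : ℤ) ≤ e.1 + e.2.1 → e.1 + e.2.1 < 0 → per n ω e = false →
      G (lowFace e) = G (src e)) (a : T) (ha : ∀ f : Vert, f.1 + f.2 + 1 = -(h : ℤ) → G f = a) (x : ℤ) :
    G (dv ((dn s n h ω).m x)) = G (dv x) := by
  have hv : ∀ y : ℤ, faceV' G y (-(0 + (h : ℤ))) = a := by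
    intro y
    refine ha _ ?_
    simp only
    omega
  have key := halfP_inv (s := s) (t := fun c r => !tB (per n ω) c (-1 - r))
    (fun c r => by simp only [tB_per hL ω])
    (V := fun c r => faceV' G c (-r)) (H := fun c r => faceH' G c (-1 - r)) h 0 ?_
    (fun y => by simp only [hv]) x
  · simp only [neg_zero] at key
    rw [faceV'_zero, faceV'_zero] at key
    exact key
  · intro r' h0 h1 c
    have hp := face_dual (per n ω) G c (-1 - r') (hG _ (by rw [medge_sum]; linarith only [h1])
      (by rw [medge_sum]; linarith only [h0]))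
    have e1 : -1 - r' + 1 = -r' := by ring
    have e2 : -(r' + 1) = -1 - r' := by ring
    rw [e1] at hp
    simp only [e2]
    refine ⟨fun ht => ?_, fun ht => ?_⟩
    · have ht' : tB (per n ω) c (-1 - r') = false := by simpa using ht
      exact ⟨(hp.2 ht').2, (hp.2 ht').1⟩
    · have ht' : tB (per n ω) c (-1 - r') = true := by simpa using ht
      exact ⟨(hp.1 ht').2, (hp.1 ht').1⟩

end Pool.Agent.H89.Link

end

section

/-!
# Periodic configurations: confinement of two clusters by seals

`Γ` is a group of periods.  `F₁`, `F₂` are clusters in a domain `D`, `X₁`, `X₂` corridors attached to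
them, `M₁`, `M₂` the mouths through which they leave `D`.
-/

set_option autoImplicit false

open MeasureTheory ProbabilityTheory unitInterval

namespace Pool.Agent.H47.EX

open Pool.Agent.H89.Perc Pool.Agent.H59.EX

/-- All translates of `S` by periods. -/
def pset (Γ : AddSubgroup (ℤ × ℤ)) (S : Set Vert) : Set Vert := {v | ∃ z ∈ Γ, v + z ∈ S}

variable {Γ : AddSubgroup (ℤ × ℤ)}

theorem ball_comm {a b : Vert} {r : ℕ} : b ∈ ball a r ↔ a ∈ ball b r := by
  rw [mem_ball, mem_ball]
  omega

theorem ball_add {a b z : Vert} {r : ℕ} : b + z ∈ ball (a + z) r ↔ b ∈ ball a r := by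
  rw [mem_ball, mem_ball, Prod.fst_add, Prod.snd_add, Prod.fst_add, Prod.snd_add]
  omega

/-- The data of the two clusters. -/
structure TwoData (Γ : AddSubgroup (ℤ × ℤ)) (D F₁ F₂ X₁ X₂ M₁ M₂ C : Set Vert) (η : Config)
    (ρ : ℕ) : Prop where
  per : ∀ z ∈ Γ, ∀ e, η (shiftE z e) = η e
  s1 : F₁ ⊆ D
  s2 : F₂ ⊆ D
  disj : ∀ a ∈ F₁, a ∉ F₂
  cl1 : ∀ a ∈ F₁, ∀ b, Step η D a b → b ∈ F₁
  cl2 : ∀ a ∈ F₂, ∀ b, Step η D a b → b ∈ F₂
  x1 : ∀ a ∈ X₁, a ∈ D → a ∈ F₁
  x2 : ∀ a ∈ X₂, a ∈ D → a ∈ F₂
  m1 : ∀ a ∈ F₁, a ∉ X₁ → ∀ b, b ∉ D → b ∈ ball a 1 → a ∈ M₁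
  m2 : ∀ a ∈ F₂, a ∉ X₂ → ∀ b, b ∉ D → b ∈ ball a 1 → a ∈ M₂
  far : ∀ a ∈ M₁ ∪ X₁, ∀ b, ∀ z ∈ Γ, b + z ∈ M₂ ∪ X₂ → b ∉ ball a (4 * ρ)
  one : ∀ a ∈ D ∪ (X₁ ∪ X₂), ∀ b, ∀ z ∈ Γ, b + z ∈ D → b ∈ ball a 1 → z = 0
  cC : C ⊆ pset Γ X₁ ∪ pset Γ X₂

variable {D F₁ F₂ X₁ X₂ M₁ M₂ C : Set Vert} {η : Config} {ρ : ℕ}

/-- Exchange the roles of the two clusters. -/
theorem TwoData.symm (h : TwoData Γ D F₁ F₂ X₁ X₂ M₁ M₂ C η ρ) :
    TwoData Γ D F₂ F₁ X₂ X₁ M₂ M₁ C η ρ where
  per := h.per
  s1 := h.s2
  s2 := h.s1
  disj := fun a h2 h1 => h.disj a h1 h2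
  cl1 := h.cl2
  cl2 := h.cl1
  x1 := h.x2
  x2 := h.x1
  m1 := h.m2
  m2 := h.m1
  far := by
    intro a ha b z hz hb hab
    have e : a = a + z + -z := by abel
    refine h.far (b + z) hb (a + z) (-z) (Γ.neg_mem hz) ?_ ?_
    · rwa [← e]
    · rw [ball_add, ball_comm]
      exact hab
  one := by
    intro a ha b z hz hb hab
    refine h.one a ?_ b z hz hb hab
    rcases ha with ha | ha | ha
    · exact Or.inl ha
    · exact Or.inr (Or.inr ha)
    · exact Or.inr (Or.inl ha)
  cC := by
    intro v hv
    exact (h.cC hv).symm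

end Pool.Agent.H47.EX

end

section

/-!
# The diagonal source
-/

set_option autoImplicit false

namespace Pool.Agent.H47.EX

open Pool.Agent.H89.Perc Pool.Agent.H59.EX

end Pool.Agent.H47.EX

end

section

/-!
# LINK module `Four`: the four-leg event implies four arms

Composite graph `H56.EX.Conn 2 2 (L - 2) P Q` on `ℤ ⊕ ℤ` with `P = up s n h ω`, `Q = dn s n h ω`: `inl x ~ inl (P.m x)`,
`inr y ~ inr (Q.m y)`, `inl c ~ inr c` for the columns `c` with `c % L ≥ 2`.  Home columns: `c % L ∈ {0, 1}`.
(A) If `Leg 2 2 (L - 2) P Q` then no two different ones of the four nodes `inl 0, inl 1, inr 0, inr 1` are connected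
(`a = b = 0` in `Leg`, `Odd 0` is false).
(B) Let `Z` be a finite set of nodes closed under the steps and containing one of the four home nodes `ℓ`, all of
whose nodes have a position in `(-L + 1, L)`, so the only home positions in `Z` are `0` and `1`.  The connected
component `O` of `ℓ` is contained in `Z`, finite, closed under the fixed point free involution
`α : inl x ↦ inl (P.m x), inr y ↦ inr (Q.m y)`, so `|O|` is even; `O` without its home nodes is closed under
`β : inl c ↔ inr c`, so it has an even number of elements.  So `O` contains an even number of home nodes, hence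
another home node; this contradicts (A).
(i) Suppose `x = (0, 0)` is not joined to `sphere 0 k` in `ball 0 k`.  `C` = vertices joined to `x` in `ball 0 k`,
its indicator is constant along open edges; `Z` = nodes whose position `c` has `pv c ∈ C` is closed under the steps
(`up_primal`, `dn_primal`), finite, contains `inl 0`; positions are in `[-2 k - 1, 2 k]` and `2 k + 2 < L`. (B).
(ii) Suppose `y = (1, -1)` is not joined to `sphere 0 k` in `ball 0 k`: the same with `inl 1` (`pv 1 = y`).
(iii) Suppose `x` and `y` are joined in `ball 0 k`.  `exists_pathSum` gives `c` with odd degrees exactly at `x`, `y`;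
add the two edges `(0, 0, false)` and `(1, -1, true)` (the path `x, (1, 0), y`): `A`, all degrees even, finite,
in the strip `H = 2 k + 2`.  `G' = pot A H`.  `Gu = G'` except `Gu q = G' q + 1` for `q = (0, -1)`, `Gd = G'`.
Then `Gu (lowFace e) = Gu (src e)` for closed `e` in rows `≥ 0`: the edges of rows `≥ 0` with `q` as one of their
faces are exactly `(0, 0, false)` and `(1, -1, true)`.  The edges of rows `< 0` at `q` are `(0, -1, false)`,
`(0, -1, true)`.  `Gu = 0` at level `h`, `Gd` = constant at level `-h` (`2 k + 2 ≤ h`); the constant is `0` because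
`G'` has finite support in every level (or: `G' (a, b) = 0` for large `a`).  So the sets of nodes
`Z_ε = {inl c | Gu (dv c) = ε} ∪ {inr c | Gd (dv c) = ε}` are closed under the steps (for `c` not home,
`dv c ≠ q`, so `Gu = Gd`); `dv 0 = dv 1 = q`.  `Gu q ≠ Gd q`, so one of them is `1`: `Z_1` is finite, with positions in
`[-2 k, 2 k + 1]` (on the seam `pot A H (a, -a-1) ≠ 0` needs `|a| ≤ k`), and contains exactly the home nodes
`inl 0, inl 1` or exactly `inr 0, inr 1`.  (B) gives a contradiction (the other home node in the component is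
different from `ℓ`, and any two different home nodes contradict (A)).
-/

set_option autoImplicit false

namespace Pool.Agent.H89.Link

open H56.EX
open Pool.Agent.H89.Perc (Vert Edge Config src tgt lowFace vsum)

variable {L n : ℕ}

/-! ### Finite invariant sets of nodes -/

/-! ### The primal arms -/

/-! ### The two arms are not connected -/

end Pool.Agent.H89.Link

end

section

/-!
# LINK module `Star`: the pattern of small arcs, reset by an alternating row

`exists_star`: write down the involution `x ↦ if x % 2 = 0 then x - 1 else x + 1`.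
`row_alt`: apply `row_inv` with `T = ℤ`, `bot c = (c + 1) / 2`, `hor c = if c % 2 = 1 then (c + 1) / 2 else C`
and `top = C` constant (`C` any constant, e.g. `C = 0` and colours in `Option ℤ`): so
`bot ((row t P).m x) = bot x`, hence `(row t P).m x ∈ {x, x + 1}` for odd `x` and `∈ {x - 1, x}` for even `x`,
and `(row t P).m x ≠ x` (`Pat.ne`).  Conclude with `Pat.ext`.
-/

set_option autoImplicit false

namespace Pool.Agent.H89.Link

open H56.EX

variable {L : ℕ}

end Pool.Agent.H89.Link

end

section

/-!
# LINK module `Law`: the law of the two patterns, and its limit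

`pr_up_dn`: for `L = 2 n`, the bits `tB (per n ω) c r`, `0 ≤ c < L`, `-h ≤ r < h`, are the values of `ω`
(or their negations) at pairwise different edges: `per n ω (medge c r) = ω (medge' c r)` with
`medge' c r = (e.1 % n, e.2.1 + (e.1 - e.1 % n), e.2.2)`, `e = medge c r`; the map `(c, r) ↦ medge' c r` is
injective on `0 ≤ c < 2 n` (`e.1 + e.2.1 = r` and the orientation and `e.1 - e.2.1` determine `c` modulo `2 n`).
So they are independent fair bits (`Pr half`, product measure), and the same holds for the reflected and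
flipped bits of the lower half.  Then induction over the rows (the row next to the seam is applied last;
peel it off).  A convenient formulation: the probability of a set of bit arrays is
(number of arrays) / 2 ^ (2 h L); see `Pool.Agent.H89.Perc.Prob` for cylinder probabilities.
`law_tendsto`: the kernel `K P Q = 2 ^ (-L) #{t | row (bits t) P = Q}` satisfies `K P s ≥ 2 ^ (-L)` for all `P`
by `row_alt`.  For a signed/complex vector `w` with sum zero, `‖K w‖₁ ≤ (1 - 2 ^ (-L)) ‖w‖₁`.  Apply it to
`w = law s h - v / ∑ v` (`law s h` has sum one, is the `h`-th iterate, and `v` is fixed by `Stat v`).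
-/

set_option autoImplicit false

open MeasureTheory ProbabilityTheory Filter Topology

namespace Pool.Agent.H89.Link

open H56.EX
open Pool.Agent.H89.Perc (Vert Edge Config Pr half)

variable {L n : ℕ}

/-! ### Fair bits -/

open Pool.Agent.H89.Perc (LocalOn ofS ofS_apply Pr_eq_Ex)
open Pool.Agent.Perc (Ex ind ind_of ind_of_not ind_congr)

/-! ### Patterns of arrays of bits -/

/-! ### The edges -/

/-! ### Convergence -/

end Pool.Agent.H89.Link

end

section

/-!
# LINK module `One`: one arm

`arm_of_noSurr`.  Suppose `per n ω ∉ Arm 0 k`.  Let `C` be the set of vertices joined to `0` inside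
`ball 0 k`; it is finite, contains `0` and no point of `sphere 0 k`, hence its indicator `F` is constant along
all open edges of `per n ω` (a neighbour of a point of the ball which is not on the sphere is in the ball).
By `up_primal`, `dn_primal` the finite set `X = {c | pv c ∈ C}` is invariant under both involutions.
`pv c = (j, -j)` with `j = (c + 1) / 2`: the columns `2 j - 1, 2 j`.  So
`#{c ∈ X | 0 ≤ c} = 1 + 2 #{j ≥ 1 | (j, -j) ∈ C}` is odd, which contradicts `NoSurr`.

`noSurr_of_path`.  `exists_pathSum` and `exists_halfSum` give `A : Edge → ZMod 2` supported on open edges of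
`per n ω` in the strip, with `0` the only vertex of odd degree; `G = pot A H`.  By `pot_odd`
`Gu f = G f` satisfies `Gu (lowFace e) = Gu (src e)` for all closed edges `e` in rows `≥ 0` (there
`e.1 = 0 ∧ e.2.1 < 0` is impossible), and `Gd f = G f + (if 0 ≤ f.1 then 1 else 0)` satisfies the same for closed
edges in rows `< 0` (check: only `e = (0, b, true)` has `lowFace e`, `src e` on different sides of `f.1 = 0`, and
in the rows `< 0` it has `b < 0`).  Top level `h ≥ H`: `Gu = 0` (`pot_top`).  Bottom level `-h ≤ -H`: `Gd` is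
constant: for `f.1 + f.2 + 1 = -h` moving from `(a, b)` to `(a + 1, b - 1)` crosses edges of rows `< -H` (or
`≤ -H`), where `A = 0`, so `Gd` does not change; (equivalently `Gd (a, b) = Gd (a+1, b-1)` for all `a`, then
integer induction).  Hence `up_dual`, `dn_dual`: with `hu c = Gu (dv c)`, `hd c = Gd (dv c)`:
`hu ((up ..).m c) = hu c`, `hd ((dn ..).m c) = hd c`, and `hu c + hd c = if 0 ≤ c then 1 else 0`
(`(dv c).1 = c / 2 ≥ 0 ↔ c ≥ 0`).  For an invariant finite set `X`: `∑_{c ∈ X} hu c = 0` in `ZMod 2` (a fixed point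
free involution of `X` preserves `hu`; `Finset.sum_involution`), same for `hd`; so `#{c ∈ X | 0 ≤ c}` is even.
-/

set_option autoImplicit false

namespace Pool.Agent.H89.Link

open H56.EX
open Pool.Agent.H89.Perc (Vert Edge Config src tgt lowFace vsum)

variable {L n : ℕ}

end Pool.Agent.H89.Link

end

section

/-!
# LINK module `Final`

Let `h → ∞` through even numbers in `pr_up_dn` with `A` = the event in question, use `law_tendsto`.
-/

set_option autoImplicit false

open MeasureTheory ProbabilityTheory Filter Topology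

namespace Pool.Agent.H89.Link

open H56.EX
open Pool.Agent.H89.Perc (Vert Edge Config Pr half)

variable {L n : ℕ}

end Pool.Agent.H89.Link

end

section

/-! Topological lemmas on insertions of small arcs (EXACT project). -/

namespace Pool.Agent.H14.EX

open H56.EX

variable {L : ℕ}

end Pool.Agent.H14.EX

end

section

/-!
# Interface for the construction of the polynomial qKZ solution

`PsiPre Ψ` collects the properties of `Ψ` which are obtained directly from the construction; the arc
recursion (`arc_zero`, `arc` of `PsiProps`) is derived from `PsiPre` and the triangularity lemma.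
-/

namespace Pool.Agent.H12.QKZ

open H56.EX

/-- The properties of the qKZ solution obtained directly from the construction. -/
structure PsiPre (Ψ : ∀ L : ℕ, Pat L → (ℤ → ℂ) → ℂ) : Prop where
  congr : ∀ (L : ℕ) (P : Pat L) (ζ ζ' : ℤ → ℂ), (∀ x : ℤ, 0 ≤ x → x < L → ζ x = ζ' x) →
    Ψ L P ζ = Ψ L P ζ'
  mv : ∀ (L : ℕ) (P : Pat L), ∃ p : MvPolynomial (Fin L) ℂ, ∀ ζ : ℤ → ℂ,
    Ψ L P ζ = MvPolynomial.eval (fun k : Fin L => ζ ((k : ℕ) : ℤ)) p
  exch : ∀ (L : ℕ) (P : Pat L) (ζ : ℤ → ℂ), Per L ζ → ∀ i : ℤ,
    (q * ζ (i + 1) - q⁻¹ * ζ i) * Ψ L P (swp L i ζ) =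
      (q * ζ i - q⁻¹ * ζ (i + 1)) * Ψ L P ζ +
        (ζ i - ζ (i + 1)) * eop i (fun P' => Ψ L P' ζ) P
  rot : ∀ (L : ℕ) (P : Pat L) (ζ : ℤ → ℂ), Per L ζ →
    Ψ L (rot P) (fun x => ζ (x - 1)) = Ψ L P ζ
  base : ∀ (L : ℕ) (P : Pat L) (ζ : ℤ → ℂ), IsBase P →
    Ψ L P ζ = ∏ j ∈ Finset.range L, ∏ i ∈ Finset.range j,
      (q * ζ j - q⁻¹ * ζ i) / (q - q⁻¹)

end Pool.Agent.H12.QKZ

end

section

/-! Arc recursion of the polynomial qKZ solution (EXACT project): `arc_zero_of`, `arc_of`. -/

namespace Pool.Agent.H14.EX

open H56.EX Pool.Agent.H12.QKZ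

variable {L : ℕ}

/-! ### Push-forwards -/

/-! ### `arc_zero` -/

variable {Ψ : ∀ L : ℕ, Pat L → (ℤ → ℂ) → ℂ}

/-! ### Insertion of the parameters `q² w, w` -/

/-! ### The inserted vector -/

/-! ### Products over a period -/

/-! ### Generic parameters -/

/-- the factor of the arc recursion -/
noncomputable def gfac (L : ℕ) (w : ℂ) (ξ : ℤ → ℂ) : ℂ :=
  -q * w * (∏ s ∈ Finset.range L, (ξ s - q * w) ^ 2) / 3 ^ L

end Pool.Agent.H14.EX

end

section

/-!
# The base component
-/

namespace Pool.Agent.H12.QKZ

open H56.EX MvPolynomial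

end Pool.Agent.H12.QKZ

end

section

/-!
# The total length of the arcs of a link pattern
-/

namespace Pool.Agent.H12.QKZ

open H56.EX

variable {L : ℕ}

end Pool.Agent.H12.QKZ

end

section

/-!
# Good positions of a link pattern and the fibres of `e_i`
-/

namespace Pool.Agent.H12.QKZ

open H56.EX

variable {L : ℕ}

/-- `i` is a good position of `P`: strands `i` and `i+1` are connected to the left and to the right,
respectively, and not with each other. -/
def Good (P : Pat L) (i : ℤ) : Prop :=
  P.m i < i ∧ i + 1 < P.m (i + 1) ∧ ¬ Cg L (P.m i) (i + 1)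

end Pool.Agent.H12.QKZ

end

section

/-! Arc recursion of the leg sums. -/

namespace H56.EX

open scoped BigOperators Classical

variable {Lt Lb L : ℕ}


/-! ### parameters -/

end H56.EX

end

section

/-! Manipulation of the parameter sequences; exchange, recursion and polynomiality of `F22`, `F13`. -/

namespace H56.EX

open scoped BigOperators Classical


end H56.EX

end

section

/-!
# LT1: the Temperley–Lieb generator can be moved from the top pattern to the bottom pattern
at glued strands, without changing the leg class.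
-/

namespace H56.EX

open Relation

variable {Lt Lb : ℕ}

section vmap

end vmap

end H56.EX

end

section

/-! Topology lemma LT4 of the EXACT project: a small arc between the last glued strand
(position `-1`) and the first hole end (position `0`) of the top pattern. -/

namespace H56.EX

variable {Lt Lb : ℕ}

section

end

end H56.EX

end

section

/-! Symmetry of `F22`, `F13` in the glued strands. -/

namespace H56.EX

open scoped BigOperators Classical

/-- genericity of two parameters -/
def Cub (x y : ℂ) : Prop := x ^ 3 ≠ y ^ 3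


/-! ### moving a parameter to the front -/


end H56.EX

end

section

/-! Topology lemma LT3: a small arc between the last hole end of the top pattern and the first
glued strand turns the hole end into a hole end of the bottom pattern. -/

namespace H56.EX

namespace LT3

variable {Lt Lb : ℕ}

end LT3

variable {Lt Lb : ℕ}

end H56.EX

end
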