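import Pool.Agent.H94.BG.H31.PT.M02_1
import Pool.Agent.H94.BG.H31.PT.M03_4
import Pool.Agent.H94.BG.H31.PT.M32

/-! The parts of this file: H89.Perc.ArmBoxLower, H83.EX.SqrtTrick, H83.EX.Glue2, H83.EX.Double, H83.EX.DualSmall, H83.EX.StrongRSW, H57.LF.FS2, H57.LF.FS3, H57.LF.FS1, H89.Perc.ThetaLimit, H89.Perc.Surround, H57.LF.FS4, H85.Gamma.KIArm, H85.Gamma.Second, H85.Gamma.Main, H83.EX.WindDet, H89.Link.PerProb, H89.Link.Half, H89.Link.Face, H47.EX.Confine, H47.EX.SrcD, H89.Link.Four, H89.Link.Star, H89.Link.Law, H89.Link.One, H89.Link.Final, H14.EX.Top, H12.QKZ.Iface, H14.EX.Arc, H12.QKZ.PhiBase, H12.QKZ.Area, H12.QKZ.Comb, H56.EX.Rec, H56.EX.Param, H96.EX.LT1, H14.EX.LT4, H56.EX.Sym, H7.EX.LT3. -/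

section

/-!
# Lower bound for annulus crossing probabilities
-/

open MeasureTheory ProbabilityTheory unitInterval

namespace Pool.Agent.H89.Perc

namespace ArmBoxLower

end ArmBoxLower

end Pool.Agent.H89.Perc

end

section

/-! # The square-root trick -/

open MeasureTheory ProbabilityTheory unitInterval

namespace Pool.Agent.H83.EX

open Pool.Agent.H89.Perc

end Pool.Agent.H83.EX

end

section

/-! # Two paths across an annulus without dual crossing are connected -/

open MeasureTheory ProbabilityTheory unitInterval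

namespace Pool.Agent.H83.EX

open Pool.Agent.H89.Perc

end Pool.Agent.H83.EX

end

section

/-! # Doubling the length of a rectangle -/

open MeasureTheory ProbabilityTheory unitInterval

namespace Pool.Agent.H83.EX

open Pool.Agent.H89.Perc

end Pool.Agent.H83.EX

end

section

/-! # Annulus crossings of thick annuli are unlikely -/

open MeasureTheory ProbabilityTheory unitInterval

namespace Pool.Agent.H83.EX

open Pool.Agent.H89.Perc

end Pool.Agent.H83.EX

end

section

/-! # If the squares are crossed with probability close to one, so are the long rectangles -/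

open MeasureTheory ProbabilityTheory unitInterval

namespace Pool.Agent.H83.EX

open Pool.Agent.H89.Perc

end Pool.Agent.H83.EX

end

section

open MeasureTheory ProbabilityTheory unitInterval

namespace Pool.Agent.H57.LF

open Pool.Agent.H89.Perc

end Pool.Agent.H57.LF

end

section

open MeasureTheory ProbabilityTheory unitInterval

namespace Pool.Agent.H57.LF

open Pool.Agent.H89.Perc

end Pool.Agent.H57.LF

end

section

open MeasureTheory ProbabilityTheory unitInterval

namespace Pool.Agent.H57.LF

open Pool.Agent.H89.Perc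

end Pool.Agent.H57.LF

end

section

/-!
# The percolation probability is the limit of the one-arm probabilities
-/

open MeasureTheory ProbabilityTheory unitInterval Filter Topology

namespace Pool.Agent.H89.Perc

end Pool.Agent.H89.Perc

end

section

/-!
# Finite clusters are surrounded by dual paths
-/

open MeasureTheory ProbabilityTheory unitInterval

namespace Pool.Agent.H89.Perc

end Pool.Agent.H89.Perc

end

section

open MeasureTheory ProbabilityTheory unitInterval

namespace Pool.Agent.H57.LF

open Pool.Agent.H89.Perc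

end Pool.Agent.H57.LF

end

section

/-!
# The key inequality for the one-arm event
-/

open MeasureTheory ProbabilityTheory unitInterval

namespace Pool.Agent.H85.Gamma

open Pool.Agent.H89.Perc
open Pool.Agent.Perc (Ex ind ind_of ind_of_not ind_congr)

/-- The edges on which the one-arm event depends. -/
noncomputable def eB (m : ℕ) : Finset Edge := eRect (-m) m (-m) m

theorem mem_eB {m : ℕ} {e : Edge} : e ∈ eB m ↔ src e ∈ ball 0 m := by
  unfold eB
  rw [mem_eRect]
  simp [ball]

end Pool.Agent.H85.Gamma

end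

section

/-!
# Lower bound for the susceptibility by a second moment argument
-/

open MeasureTheory ProbabilityTheory unitInterval Filter Topology
open scoped ENNReal

namespace Pool.Agent.H85.Gamma

open Pool.Agent.H89.Perc
open Pool.Agent.Perc (Ex ind ind_of ind_of_not ind_congr ind_nonneg ind_le_one)

theorem localOn_connB (r : ℕ) (x y : Vert) : LocalOn (eB r) {ω | Conn ω (ball 0 r) x y} := by
  intro ω ω' h hc
  exact Conn.congr (fun e he _ => h e (mem_eB.2 he)) hc

/-- The box of radius `n` as a finite set. -/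
noncomputable def bx (n : ℕ) : Finset Vert := Finset.Icc (-(n : ℤ)) n ×ˢ Finset.Icc (-(n : ℤ)) n

theorem mem_bx {n : ℕ} {x : Vert} : x ∈ bx n ↔ x ∈ ball 0 n := by
  unfold bx
  rw [Finset.mem_product, Finset.mem_Icc, Finset.mem_Icc, mem_ball]
  simp only [Prod.fst_zero, Prod.snd_zero]
  omega

theorem card_bx (n : ℕ) : ((bx n).card : ℝ) = (2 * n + 1) ^ 2 := by
  unfold bx
  rw [Finset.card_product, Int.card_Icc]
  have : ((n : ℤ) + 1 - -(n : ℤ)).toNat = 2 * n + 1 := by omega
  rw [this]
  push_cast
  ring

end Pool.Agent.H85.Gamma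

end

section

/-!
# The mean cluster size of bond percolation on the square lattice is at least `c (1/2 - p)^{-2}`
-/

open MeasureTheory ProbabilityTheory unitInterval Filter Topology
open scoped ENNReal

namespace Pool.Agent.H85.Gamma

open Pool.Agent.H89.Perc

/-- The mean cluster size: the expected number of vertices in the open cluster of the origin. -/
noncomputable def sigma (p : I) : ℝ≥0∞ :=
  ∫⁻ ω, (({v : Vert | Conn ω Set.univ 0 v}.encard : ℕ∞) : ℝ≥0∞) ∂(μ p)

end Pool.Agent.H85.Gamma

end

section

/-! # A winding path from crossings of rectangles -/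

open MeasureTheory ProbabilityTheory unitInterval

namespace Pool.Agent.H83.EX

open Pool.Agent.H89.Perc

end Pool.Agent.H83.EX

end

section

/-!
# LINK module `PerProb`: local events have the same probability in the plane and on the cylinder

`per n ω e = ω (base n e)` with `base n e = (e.1 % n, e.2.1 + (e.1 - e.1 % n), e.2.2)`.  If `base n` is injective on
the finite set `S` and `A` depends only on `S`, then `{ω | per n ω ∈ A}` is the image of `A` under the
relabelling, and has the same probability (the law of `(ω (base n e))_{e ∈ S}` is the product law).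
`base n` is injective on the edges with `|e.1| ≤ k` if `2 k < n`.
-/

set_option autoImplicit false

open MeasureTheory ProbabilityTheory unitInterval

namespace Pool.Agent.H89.Link

open Pool.Agent.H89.Perc (Vert Edge Config Pr half)

theorem pr_per_arm (p : I) {n k : ℕ} (hk : 2 * k < n) :
    Pr p {ω | per n ω ∈ Perc.Arm 0 k} = Perc.arm p k := by
  have h := Perc.localOn_arm 0 k
  simp only [Prod.fst_zero, Prod.snd_zero, zero_sub, zero_add] at h
  exact pr_per p (perProb_injOn hk) h

end Pool.Agent.H89.Link

end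

section

/-!
# LINK module `Half`: colours are transported through a half cylinder

`halfP_inv`: induction on `h` with `row_inv` (the upper part has rows `r + 1, …, r + h`).
`halfP_congr`: induction on `h`; `row t P` only uses `t 0, …, t (L - 1)` (`wires_congr`).
-/

set_option autoImplicit false

namespace Pool.Agent.H89.Link

open H56.EX

variable {L : ℕ} {T : Type*}

theorem wires_congr {t t' : ℤ → Bool} {k : ℕ} (h : ∀ c : ℤ, 0 ≤ c → c < k → t c = t' c)
    (P : Pat (L + 2)) : wires t k P = wires t' k P := by
  induction k with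
  | zero => rfl
  | succ k ih =>
    have ih' := ih (fun c h1 h2 => h c h1 (by push_cast; omega))
    have hk := h k (by positivity) (by push_cast; omega)
    simp only [wires]
    rw [ih', hk]

theorem row_congr {t t' : ℤ → Bool} (h : ∀ c : ℤ, 0 ≤ c → c < L → t c = t' c) (P : Pat L) :
    row t P = row t' P := by
  unfold row
  rw [wires_congr h]

end Pool.Agent.H89.Link

end

section

/-!
# LINK module `Face`: colourings of primal or dual vertices give invariants of the patterns

`F : Vert → T` constant along the open edges of the rows `0, …, h - 1` (of `per n ω`) gives a colour of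
the medial edges: the colour of the adjacent primal vertex.  In medial coordinates the face `(c, r)`
(between the columns `c, c + 1`, at level `r`) is primal iff `c + r` is odd and is then the vertex
`((c + r + 1) / 2, (r - c - 1) / 2)`.  Put (primal colouring)
  `K c r = F ((c + r + 1) / 2, (r - c - 1) / 2)`,
  `V c r = if (c + r) % 2 = 1 then K c r else K (c - 1) r`   (vertical edge in column `c` at level `r`),
  `H c r = if (c + r) % 2 = 1 then K c r else K c (r + 1)`   (horizontal edge from `(c, r)` to `(c + 1, r)`).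
Then `RowCol (tB (per n ω) · r) (V · (r + 1)) (H · r) (V · r)`:
* `c + r` even: `medge c r = (a, b, false)`, `a = (c + r) / 2`, `b = (r - c) / 2`; South-West face
  `(c - 1, r)` = `src`, North-East face `(c, r + 1)` = `tgt`; `V c r = K (c-1) r`, `V c (r+1) = K c (r+1)`,
  `H c r = K c (r+1)`, `H (c-1) r = K (c-1) r`; `tB = true` iff the edge is open.
* `c + r` odd: `medge c r = (a, b, true)`, `a = (c + r + 1) / 2`, `b = (r - c - 1) / 2`; South-East face
  `(c, r)` = `src`, North-West face `(c - 1, r + 1)` = `tgt`; `V c r = K c r = H c r`,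
  `V c (r+1) = K (c-1) (r+1) = H (c-1) r`; `tB = false` iff the edge is open.
At the top level `h` (even) the star joins `c` odd with `c + 1`, both are next to the primal face `(c, h)`.
The dual colouring is the same with parities exchanged: `K c r = G ((c + r) / 2, (r - c - 2) / 2)` for
`c + r` even, `V c r = if (c + r) % 2 = 0 then K c r else K (c - 1) r`, `H c r = if (c + r) % 2 = 0 then K c r
else K c (r + 1)`; at the top all dual faces have the same colour `a`.
`V c 0` is `F (pv c)` resp. `G (dv c)`.
`tB (per n ω) (c + 2 n) r = tB (per n ω) c r` (`tB_per`).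
For `dn` use the reflected colouring `V' c r = V c (-r)`, `H' c r = H c (-1 - r)`; the types are flipped:
at the vertex `(c, -1 - r)`, top and bottom are exchanged (`top' = V c (-r-1)` is the edge below it).
-/

set_option autoImplicit false

namespace Pool.Agent.H89.Link

open H56.EX
open Pool.Agent.H89.Perc (Vert Edge Config src tgt lowFace)

end Pool.Agent.H89.Link

end

section

/-!
# Periodic configurations: confinement of two clusters by seals

`Γ` is a group of periods.  `F₁`, `F₂` are clusters in a domain `D`, `X₁`, `X₂` corridors attached to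
them, `M₁`, `M₂` the mouths through which they leave `D`.
-/

set_option autoImplicit false

open MeasureTheory ProbabilityTheory unitInterval

namespace Pool.Agent.H47.EX

open Pool.Agent.H89.Perc Pool.Agent.H59.EX

/-- All translates of the edge set `t` by periods. -/
def pedge (Γ : AddSubgroup (ℤ × ℤ)) (t : Set Edge) : Set Edge := {e | ∃ z ∈ Γ, shiftE z e ∈ t}

variable {Γ : AddSubgroup (ℤ × ℤ)}

theorem pset_sub (S : Set Vert) : S ⊆ pset Γ S := fun v hv => ⟨0, Γ.zero_mem, by simpa using hv⟩

theorem pset_add {S : Set Vert} {v z : Vert} (hz : z ∈ Γ) : v + z ∈ pset Γ S ↔ v ∈ pset Γ S := by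
  constructor
  · rintro ⟨w, hw, h⟩
    exact ⟨z + w, Γ.add_mem hz hw, by rwa [← add_assoc]⟩
  · rintro ⟨w, hw, h⟩
    refine ⟨-z + w, Γ.add_mem (Γ.neg_mem hz) hw, ?_⟩
    rwa [add_assoc, add_neg_cancel_left]

/-- Adjacent vertices. -/
theorem ball_one_of_joins {e : Edge} {a b : Vert} (h : Joins e a b) : b ∈ ball a 1 := by
  obtain ⟨x, y, t⟩ := e
  rcases h with ⟨h1, h2⟩ | ⟨h1, h2⟩ <;> subst h1 h2 <;> cases t <;>
    simp [mem_ball, src, tgt] <;> omega

variable {D F₁ F₂ X₁ X₂ M₁ M₂ C : Set Vert} {η : Config} {ρ : ℕ}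

theorem joins_inE {S : Set Vert} {e : Edge} {a b : Vert} (hj : Joins e a b) (he : e ∈ inE S) :
    a ∈ S ∧ b ∈ S := by
  rcases hj with ⟨h1, h2⟩ | ⟨h1, h2⟩
  · subst h1 h2
    exact he
  · subst h1 h2
    exact ⟨he.2, he.1⟩

end Pool.Agent.H47.EX

end

section

/-!
# The diagonal source
-/

set_option autoImplicit false

namespace Pool.Agent.H47.EX

open Pool.Agent.H89.Perc Pool.Agent.H59.EX

end Pool.Agent.H47.EX

end

section

/-!
# LINK module `Four`: the four-leg event implies four arms

Composite graph `H56.EX.Conn 2 2 (L - 2) P Q` on `ℤ ⊕ ℤ` with `P = up s n h ω`, `Q = dn s n h ω`: `inl x ~ inl (P.m x)`,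
`inr y ~ inr (Q.m y)`, `inl c ~ inr c` for the columns `c` with `c % L ≥ 2`.  Home columns: `c % L ∈ {0, 1}`.
(A) If `Leg 2 2 (L - 2) P Q` then no two different ones of the four nodes `inl 0, inl 1, inr 0, inr 1` are connected
(`a = b = 0` in `Leg`, `Odd 0` is false).
(B) Let `Z` be a finite set of nodes closed under the steps and containing one of the four home nodes `ℓ`, all of
whose nodes have a position in `(-L + 1, L)`, so the only home positions in `Z` are `0` and `1`.  The connected
component `O` of `ℓ` is contained in `Z`, finite, closed under the fixed point free involution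
`α : inl x ↦ inl (P.m x), inr y ↦ inr (Q.m y)`, so `|O|` is even; `O` without its home nodes is closed under
`β : inl c ↔ inr c`, so it has an even number of elements.  So `O` contains an even number of home nodes, hence
another home node; this contradicts (A).
(i) Suppose `x = (0, 0)` is not joined to `sphere 0 k` in `ball 0 k`.  `C` = vertices joined to `x` in `ball 0 k`,
its indicator is constant along open edges; `Z` = nodes whose position `c` has `pv c ∈ C` is closed under the steps
(`up_primal`, `dn_primal`), finite, contains `inl 0`; positions are in `[-2 k - 1, 2 k]` and `2 k + 2 < L`. (B).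
(ii) Suppose `y = (1, -1)` is not joined to `sphere 0 k` in `ball 0 k`: the same with `inl 1` (`pv 1 = y`).
(iii) Suppose `x` and `y` are joined in `ball 0 k`.  `exists_pathSum` gives `c` with odd degrees exactly at `x`, `y`;
add the two edges `(0, 0, false)` and `(1, -1, true)` (the path `x, (1, 0), y`): `A`, all degrees even, finite,
in the strip `H = 2 k + 2`.  `G' = pot A H`.  `Gu = G'` except `Gu q = G' q + 1` for `q = (0, -1)`, `Gd = G'`.
Then `Gu (lowFace e) = Gu (src e)` for closed `e` in rows `≥ 0`: the edges of rows `≥ 0` with `q` as one of their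
faces are exactly `(0, 0, false)` and `(1, -1, true)`.  The edges of rows `< 0` at `q` are `(0, -1, false)`,
`(0, -1, true)`.  `Gu = 0` at level `h`, `Gd` = constant at level `-h` (`2 k + 2 ≤ h`); the constant is `0` because
`G'` has finite support in every level (or: `G' (a, b) = 0` for large `a`).  So the sets of nodes
`Z_ε = {inl c | Gu (dv c) = ε} ∪ {inr c | Gd (dv c) = ε}` are closed under the steps (for `c` not home,
`dv c ≠ q`, so `Gu = Gd`); `dv 0 = dv 1 = q`.  `Gu q ≠ Gd q`, so one of them is `1`: `Z_1` is finite, with positions in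
`[-2 k, 2 k + 1]` (on the seam `pot A H (a, -a-1) ≠ 0` needs `|a| ≤ k`), and contains exactly the home nodes
`inl 0, inl 1` or exactly `inr 0, inr 1`.  (B) gives a contradiction (the other home node in the component is
different from `ℓ`, and any two different home nodes contradict (A)).
-/

set_option autoImplicit false

namespace Pool.Agent.H89.Link

open H56.EX
open Pool.Agent.H89.Perc (Vert Edge Config src tgt lowFace vsum)

variable {L n : ℕ}

/-! ### Finite invariant sets of nodes -/

/-! ### The primal arms -/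

/-! ### The two arms are not connected -/

end Pool.Agent.H89.Link

end

section

/-!
# LINK module `Star`: the pattern of small arcs, reset by an alternating row

`exists_star`: write down the involution `x ↦ if x % 2 = 0 then x - 1 else x + 1`.
`row_alt`: apply `row_inv` with `T = ℤ`, `bot c = (c + 1) / 2`, `hor c = if c % 2 = 1 then (c + 1) / 2 else C`
and `top = C` constant (`C` any constant, e.g. `C = 0` and colours in `Option ℤ`): so
`bot ((row t P).m x) = bot x`, hence `(row t P).m x ∈ {x, x + 1}` for odd `x` and `∈ {x - 1, x}` for even `x`,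
and `(row t P).m x ≠ x` (`Pat.ne`).  Conclude with `Pat.ext`.
-/

set_option autoImplicit false

namespace Pool.Agent.H89.Link

open H56.EX

variable {L : ℕ}

theorem exists_star {n : ℕ} (hL : L = 2 * n) (hn : 1 ≤ n) : ∃ s : Pat L, IsStar s := by
  refine ⟨⟨fun x => if x % 2 = 0 then x - 1 else x + 1, ?_, ?_, ?_, ?_, ?_⟩, fun x => rfl⟩
  · intro x
    split_ifs <;> omega
  · intro x
    subst hL
    push_cast
    split_ifs <;> omega
  · intro x
    split_ifs <;> omega
  · intro x
    subst hL
    push_cast
    rw [abs_lt]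
    split_ifs <;> constructor <;> omega
  · intro x y
    split_ifs <;> intro h1 h2 <;> exfalso <;> omega

/-- A row with alternating types resets every pattern. -/
theorem row_alt {n : ℕ} (hL : L = 2 * n) {s : Pat L} (hs : IsStar s) (P : Pat L) {t : ℤ → Bool}
    (ht : ∀ c, t c = decide (c % 2 = 1)) : row t P = s := by
  have hper : ∀ c, t (c + L) = t c := by
    intro c
    rw [ht, ht]
    subst hL
    push_cast
    congr 1
    apply propext
    constructor <;> intro h <;> omega
  have hcol : RowCol t (fun _ => (none : Option ℤ))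
      (fun c => if c % 2 = 1 then some ((c + 1) / 2) else none) (fun c => some ((c + 1) / 2)) := by
    intro c
    constructor
    · intro h
      rw [ht] at h
      have h1 : c % 2 = 1 := by simpa using h
      have h2 : ¬ (c - 1) % 2 = 1 := by omega
      simp [h1, h2]
    · intro h
      rw [ht] at h
      have h1 : ¬ c % 2 = 1 := by simpa using h
      have h2 : (c - 1) % 2 = 1 := by omega
      have h3 : (c - 1 + 1) / 2 = (c + 1) / 2 := by omega
      simp only [h1, h2, h3, if_true, if_false]
      simp
  apply Pat.ext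
  funext x
  have h := row_inv hper P hcol (fun _ => rfl) x
  have hne := (row t P).ne x
  simp only [Option.some.injEq] at h
  rw [hs x]
  split_ifs <;> omega

end Pool.Agent.H89.Link

end

section

/-!
# LINK module `Law`: the law of the two patterns, and its limit

`pr_up_dn`: for `L = 2 n`, the bits `tB (per n ω) c r`, `0 ≤ c < L`, `-h ≤ r < h`, are the values of `ω`
(or their negations) at pairwise different edges: `per n ω (medge c r) = ω (medge' c r)` with
`medge' c r = (e.1 % n, e.2.1 + (e.1 - e.1 % n), e.2.2)`, `e = medge c r`; the map `(c, r) ↦ medge' c r` is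
injective on `0 ≤ c < 2 n` (`e.1 + e.2.1 = r` and the orientation and `e.1 - e.2.1` determine `c` modulo `2 n`).
So they are independent fair bits (`Pr half`, product measure), and the same holds for the reflected and
flipped bits of the lower half.  Then induction over the rows (the row next to the seam is applied last;
peel it off).  A convenient formulation: the probability of a set of bit arrays is
(number of arrays) / 2 ^ (2 h L); see `Pool.Agent.H89.Perc.Prob` for cylinder probabilities.
`law_tendsto`: the kernel `K P Q = 2 ^ (-L) #{t | row (bits t) P = Q}` satisfies `K P s ≥ 2 ^ (-L)` for all `P`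
by `row_alt`.  For a signed/complex vector `w` with sum zero, `‖K w‖₁ ≤ (1 - 2 ^ (-L)) ‖w‖₁`.  Apply it to
`w = law s h - v / ∑ v` (`law s h` has sum one, is the `h`-th iterate, and `v` is fixed by `Stat v`).
-/

set_option autoImplicit false

open MeasureTheory ProbabilityTheory Filter Topology

namespace Pool.Agent.H89.Link

open H56.EX
open Pool.Agent.H89.Perc (Vert Edge Config Pr half)

variable {L n : ℕ}

/-! ### Fair bits -/

open Pool.Agent.H89.Perc (LocalOn ofS ofS_apply Pr_eq_Ex)
open Pool.Agent.Perc (Ex ind ind_of ind_of_not ind_congr)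

open Classical in
/-- Finitely many different edges, some of them flipped, are independent fair bits. -/
private theorem law_bits {ι : Type*} [Fintype ι] [DecidableEq ι] (φ : ι → Edge)
    (hφ : Function.Injective φ) (sg : ι → Bool) (B : Set (ι → Bool)) :
    Pr half {ω | (fun i => xor (ω (φ i)) (sg i)) ∈ B} =
      (1 / 2) ^ Fintype.card ι * ∑ b : ι → Bool, if b ∈ B then 1 else 0 := by
  set s : Finset Edge := Finset.univ.image φ with hs
  have hloc : LocalOn s {ω | (fun i => xor (ω (φ i)) (sg i)) ∈ B} := by
    intro ω ω' h hB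
    have : (fun i => xor (ω' (φ i)) (sg i)) = (fun i => xor (ω (φ i)) (sg i)) := by
      funext i
      rw [h (φ i) (Finset.mem_image_of_mem _ (Finset.mem_univ i))]
    show (fun i => xor (ω' (φ i)) (sg i)) ∈ B
    rw [this]
    exact hB
  rw [Pr_eq_Ex hloc]
  have hcard : s.card = Fintype.card ι := by
    rw [hs, Finset.card_image_of_injective _ hφ, Finset.card_univ]
  unfold Ex
  have hhalf : ((half : unitInterval) : ℝ) = 1 / 2 := rfl
  have hterm : ∀ S ∈ s.powerset, ((half : unitInterval) : ℝ) ^ S.card *
      (1 - ((half : unitInterval) : ℝ)) ^ (s \ S).card *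
      ind (fun S => ofS S ∈ {ω : Config | (fun i => xor (ω (φ i)) (sg i)) ∈ B}) S =
      (1 / 2) ^ Fintype.card ι *
        (if (fun i => xor (decide (φ i ∈ S)) (sg i)) ∈ B then 1 else 0) := by
    intro S hS
    rw [hhalf, show (1 : ℝ) - 1 / 2 = 1 / 2 by norm_num, ← pow_add,
      Finset.card_sdiff_of_subset (Finset.mem_powerset.1 hS),
      Nat.add_sub_cancel' (Finset.card_le_card (Finset.mem_powerset.1 hS)), hcard]
    by_cases h : (fun i => xor (decide (φ i ∈ S)) (sg i)) ∈ B
    · rw [if_pos h, ind_of]
      exact h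
    · rw [if_neg h, ind_of_not]
      exact h
  rw [Finset.sum_congr rfl hterm, ← Finset.mul_sum]
  congr 1
  refine Finset.sum_bij' (fun S _ => fun i => xor (decide (φ i ∈ S)) (sg i))
    (fun b _ => (Finset.univ.filter (fun i => xor (b i) (sg i) = true)).image φ)
    ?_ ?_ ?_ ?_ ?_
  · intro S _
    exact Finset.mem_univ _
  · intro b _
    rw [Finset.mem_powerset, hs]
    exact Finset.image_subset_image (Finset.subset_univ _)
  · intro S hS
    ext e
    rw [Finset.mem_image]
    constructor
    · rintro ⟨i, hi, rfl⟩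
      have := (Finset.mem_filter.1 hi).2
      simpa using this
    · intro he
      obtain ⟨i, _, hi⟩ := Finset.mem_image.1 (Finset.mem_powerset.1 hS he)
      refine ⟨i, Finset.mem_filter.2 ⟨Finset.mem_univ _, ?_⟩, hi⟩
      show xor (xor (decide (φ i ∈ S)) (sg i)) (sg i) = true
      rw [hi]
      simp [he]
  · intro b _
    funext i
    have : φ i ∈ (Finset.univ.filter (fun i => xor (b i) (sg i) = true)).image φ ↔
        xor (b i) (sg i) = true := by
      rw [Finset.mem_image]
      constructor
      · rintro ⟨j, hj, hji⟩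
        rw [← hφ hji]
        exact (Finset.mem_filter.1 hj).2
      · intro h
        exact ⟨i, Finset.mem_filter.2 ⟨Finset.mem_univ _, h⟩, rfl⟩
    simp only [this]
    cases b i <;> cases sg i <;> rfl
  · intro S _
    rfl

/-! ### Patterns of arrays of bits -/

/-- The pattern below the rows `b 0` (lowest), `b 1`, … -/
noncomputable def law_hp (s : Pat L) : (h : ℕ) → (Fin h → Fin L → Bool) → Pat L
  | 0, _ => s
  | h + 1, b => row (bits (b 0)) (law_hp s h (fun i => b i.succ))

private theorem law_bits_apply {t : ℤ → Bool} {c : ℤ} (h0 : 0 ≤ c) (h1 : c < L) :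
    bits (fun x : Fin L => t ((x : ℕ) : ℤ)) c = t c := by
  have hc : c % (L : ℤ) = c := Int.emod_eq_of_lt h0 h1
  unfold bits
  have h2 : (c % (L : ℤ)).toNat < L := by rw [hc]; omega
  rw [dif_pos h2]
  show t (((c % (L : ℤ)).toNat : ℕ) : ℤ) = t c
  rw [hc, Int.toNat_of_nonneg h0]

private theorem law_halfP (s : Pat L) (t : ℤ → ℤ → Bool) (h : ℕ) (r : ℤ) :
    halfP s t h r = law_hp s h (fun i c => t ((c : ℕ) : ℤ) (r + ((i : ℕ) : ℤ))) := by
  induction h generalizing r with
  | zero => rfl
  | succ h ih =>
    show row (fun c => t c r) (halfP s t h (r + 1)) = row _ _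
    rw [ih (r + 1)]
    have h1 : (fun (i : Fin h) (c : Fin L) => t ((c : ℕ) : ℤ) (r + 1 + ((i : ℕ) : ℤ))) =
        (fun (i : Fin h) (c : Fin L) => t ((c : ℕ) : ℤ) (r + ((i.succ : ℕ) : ℤ))) := by
      funext i c
      congr 1
      rw [Fin.val_succ]
      push_cast
      ring
    rw [h1]
    apply row_congr
    intro c hc0 hc1
    have h2 := law_bits_apply (t := fun c => t c (r + (((0 : Fin (h + 1)) : ℕ) : ℤ))) hc0 hc1
    rw [h2]
    simp

open Classical in
private theorem law_eq_sum (s : Pat L) (h : ℕ) (Q : Pat L) :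
    law s h Q = (1 / 2) ^ (h * L) *
      ∑ b : Fin h → Fin L → Bool, if law_hp s h b = Q then (1 : ℝ) else 0 := by
  induction h generalizing Q with
  | zero =>
    have h0 : ∀ b : Fin 0 → Fin L → Bool, law_hp s 0 b = s := fun _ => rfl
    show (if Q = s then (1 : ℝ) else 0) = _
    rw [zero_mul, pow_zero, one_mul, Fintype.sum_unique, h0]
    by_cases hQ : Q = s
    · rw [if_pos hQ, if_pos hQ.symm]
    · rw [if_neg hQ, if_neg (Ne.symm hQ)]
  | succ h ih =>
    show (1 / 2) ^ L * ∑ t : Fin L → Bool, ∑ P : Pat L,
      (if row (bits t) P = Q then law s h P else 0) = _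
    have h1 : (∑ b : Fin (h + 1) → Fin L → Bool, if law_hp s (h + 1) b = Q then (1 : ℝ) else 0) =
        ∑ t : Fin L → Bool, ∑ b : Fin h → Fin L → Bool,
          if row (bits t) (law_hp s h b) = Q then (1 : ℝ) else 0 := by
      rw [← Fintype.sum_prod_type' (f := fun (t : Fin L → Bool) (b : Fin h → Fin L → Bool) =>
        if row (bits t) (law_hp s h b) = Q then (1 : ℝ) else 0)]
      symm
      refine Fintype.sum_equiv (Fin.consEquiv (fun _ => Fin L → Bool)) _ _ ?_
      rintro ⟨t, b⟩
      rfl
    rw [h1, Nat.succ_mul, pow_add, mul_comm ((1 / 2 : ℝ) ^ (h * L)), mul_assoc]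
    congr 1
    rw [Finset.mul_sum]
    apply Finset.sum_congr rfl
    intro t _
    have h2 : ∀ b : Fin h → Fin L → Bool,
        (if row (bits t) (law_hp s h b) = Q then (1 : ℝ) else 0) =
        ∑ P : Pat L, if row (bits t) P = Q then (if law_hp s h b = P then (1 : ℝ) else 0)
          else 0 := by
      intro b
      rw [Finset.sum_eq_single (law_hp s h b)]
      · simp
      · intro P _ hP
        have h4 : ¬ law_hp s h b = P := Ne.symm hP
        simp only [if_neg h4, ite_self]
      · intro hcon
        exact absurd (Finset.mem_univ _) hcon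
    rw [Finset.sum_congr rfl (fun b _ => h2 b), Finset.sum_comm, Finset.mul_sum]
    apply Finset.sum_congr rfl
    intro P _
    by_cases h3 : row (bits t) P = Q
    · simp only [if_pos h3]
      exact ih P
    · simp only [if_neg h3]
      simp

/-! ### The edges -/

/-- representative of the edge `medge c r` in the fundamental strip -/
private def law_me (n : ℕ) (c r : ℤ) : Edge :=
  ((medge c r).1 % n, (medge c r).2.1 + ((medge c r).1 - (medge c r).1 % n), (medge c r).2.2)

private theorem law_per_me (n : ℕ) (ω : Config) (c r : ℤ) :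
    per n ω (medge c r) = ω (law_me n c r) := rfl

private theorem law_tB (n : ℕ) (ω : Config) (c r : ℤ) :
    tB (per n ω) c r = xor (ω (law_me n c r)) (decide ((c + r) % 2 ≠ 0)) := by
  unfold tB
  rw [law_per_me]
  by_cases h : (c + r) % 2 = 0
  · rw [if_pos h]
    simp [h]
  · rw [if_neg h]
    simp [h]

private theorem law_me_inj {n : ℕ} {c r c' r' : ℤ} (h0 : 0 ≤ c) (h1 : c < 2 * n)
    (h0' : 0 ≤ c') (h1' : c' < 2 * n) (h : law_me n c r = law_me n c' r') : c = c' ∧ r = r' := by
  unfold law_me at h
  simp only [Prod.mk.injEq] at h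
  obtain ⟨e1, e2, e3⟩ := h
  have hr : r = r' := by
    have a1 : (medge c r).1 + (medge c r).2.1 = r := by
      unfold medge
      split_ifs with h2
      · show (c + r) / 2 + (r - c) / 2 = r
        omega
      · show (c + r + 1) / 2 + (r - c - 1) / 2 = r
        omega
    have a2 : (medge c' r').1 + (medge c' r').2.1 = r' := by
      unfold medge
      split_ifs with h2
      · show (c' + r') / 2 + (r' - c') / 2 = r'
        omega
      · show (c' + r' + 1) / 2 + (r' - c' - 1) / 2 = r'
        omega
    omega
  subst hr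
  refine ⟨?_, rfl⟩
  have hmod : (n : ℤ) ∣ (medge c r).1 - (medge c' r).1 := Int.ModEq.dvd e1.symm
  obtain ⟨k, hk⟩ := hmod
  have hdiff : c - c' = 2 * ((medge c r).1 - (medge c' r).1) := by
    unfold medge at e3 ⊢
    by_cases h2 : (c + r) % 2 = 0
    · by_cases h3 : (c' + r) % 2 = 0
      · rw [if_pos h2, if_pos h3]
        show c - c' = 2 * ((c + r) / 2 - (c' + r) / 2)
        omega
      · rw [if_pos h2, if_neg h3] at e3
        exact absurd e3 (by simp)
    · by_cases h3 : (c' + r) % 2 = 0
      · rw [if_neg h2, if_pos h3] at e3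
        exact absurd e3 (by simp)
      · rw [if_neg h2, if_neg h3]
        show c - c' = 2 * ((c + r + 1) / 2 - (c' + r + 1) / 2)
        omega
  rw [hk] at hdiff
  have hk0 : k = 0 := by
    by_contra hk0
    rcases lt_or_gt_of_ne hk0 with hk1 | hk1
    · have : (n : ℤ) * k ≤ -n := by nlinarith only [hk1]
      omega
    · have : (n : ℤ) * k ≥ n := by nlinarith only [hk1]
      omega
  rw [hk0] at hdiff
  omega

open Classical in
theorem pr_up_dn (hL : L = 2 * n) (hn : 1 ≤ n) (s : Pat L) (h : ℕ) (A : Set (Pat L × Pat L)) :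
    Pr half {ω | (up s n h ω, dn s n h ω) ∈ A} =
      ∑ P : Pat L, ∑ Q : Pat L, if (P, Q) ∈ A then law s h P * law s h Q else 0 := by
  have _ := hn
  -- the index set and the edges
  let ι := (Fin h × Fin L) ⊕ (Fin h × Fin L)
  let rw' : ι → ℤ := Sum.elim (fun x => ((x.1 : ℕ) : ℤ)) (fun x => -1 - ((x.1 : ℕ) : ℤ))
  let cl : ι → ℤ := Sum.elim (fun x => ((x.2 : ℕ) : ℤ)) (fun x => ((x.2 : ℕ) : ℤ))
  let φ : ι → Edge := fun i => law_me n (cl i) (rw' i)
  let sg : ι → Bool := Sum.elim
    (fun x => decide ((((x.2 : ℕ) : ℤ) + ((x.1 : ℕ) : ℤ)) % 2 ≠ 0))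
    (fun x => !decide ((((x.2 : ℕ) : ℤ) + (-1 - ((x.1 : ℕ) : ℤ))) % 2 ≠ 0))
  have hcl : ∀ i : ι, 0 ≤ cl i ∧ cl i < 2 * n := by
    rintro (⟨x, y⟩ | ⟨x, y⟩)
    · have := y.2
      show 0 ≤ ((y : ℕ) : ℤ) ∧ ((y : ℕ) : ℤ) < 2 * n
      omega
    · have := y.2
      show 0 ≤ ((y : ℕ) : ℤ) ∧ ((y : ℕ) : ℤ) < 2 * n
      omega
  have hφ : Function.Injective φ := by
    intro i j hij
    obtain ⟨hc, hr⟩ := law_me_inj (hcl i).1 (hcl i).2 (hcl j).1 (hcl j).2 hij
    rcases i with ⟨x, y⟩ | ⟨x, y⟩ <;> rcases j with ⟨x', y'⟩ | ⟨x', y'⟩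
    · have h1 : ((y : ℕ) : ℤ) = ((y' : ℕ) : ℤ) := hc
      have h2 : ((x : ℕ) : ℤ) = ((x' : ℕ) : ℤ) := hr
      have h3 : y = y' := Fin.ext (by omega)
      have h4 : x = x' := Fin.ext (by omega)
      rw [h3, h4]
    · have h2 : ((x : ℕ) : ℤ) = -1 - ((x' : ℕ) : ℤ) := hr
      omega
    · have h2 : -1 - ((x : ℕ) : ℤ) = ((x' : ℕ) : ℤ) := hr
      omega
    · have h1 : ((y : ℕ) : ℤ) = ((y' : ℕ) : ℤ) := hc
      have h2 : -1 - ((x : ℕ) : ℤ) = -1 - ((x' : ℕ) : ℤ) := hr
      have h3 : y = y' := Fin.ext (by omega)
      have h4 : x = x' := Fin.ext (by omega)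
      rw [h3, h4]
  let B : Set (ι → Bool) := {b | (law_hp s h (fun i c => b (Sum.inl (i, c))),
    law_hp s h (fun i c => b (Sum.inr (i, c)))) ∈ A}
  have hset : {ω : Config | (up s n h ω, dn s n h ω) ∈ A} =
      {ω | (fun i => xor (ω (φ i)) (sg i)) ∈ B} := by
    ext ω
    have h1 : up s n h ω = law_hp s h
        (fun i c => xor (ω (φ (Sum.inl (i, c)))) (sg (Sum.inl (i, c)))) := by
      unfold up
      rw [law_halfP]
      congr 1
      funext i c
      rw [law_tB]
      show xor (ω (law_me n ((c : ℕ) : ℤ) (0 + ((i : ℕ) : ℤ))))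
        (decide ((((c : ℕ) : ℤ) + (0 + ((i : ℕ) : ℤ))) % 2 ≠ 0)) =
        xor (ω (law_me n ((c : ℕ) : ℤ) ((i : ℕ) : ℤ)))
          (decide ((((c : ℕ) : ℤ) + ((i : ℕ) : ℤ)) % 2 ≠ 0))
      rw [zero_add]
    have h2 : dn s n h ω = law_hp s h
        (fun i c => xor (ω (φ (Sum.inr (i, c)))) (sg (Sum.inr (i, c)))) := by
      unfold dn
      rw [law_halfP]
      congr 1
      funext i c
      rw [law_tB]
      show (!xor (ω (law_me n ((c : ℕ) : ℤ) (-1 - (0 + ((i : ℕ) : ℤ)))))
        (decide ((((c : ℕ) : ℤ) + (-1 - (0 + ((i : ℕ) : ℤ)))) % 2 ≠ 0))) =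
        xor (ω (law_me n ((c : ℕ) : ℤ) (-1 - ((i : ℕ) : ℤ))))
          (!decide ((((c : ℕ) : ℤ) + (-1 - ((i : ℕ) : ℤ))) % 2 ≠ 0))
      rw [zero_add]
      generalize ω (law_me n ((c : ℕ) : ℤ) (-1 - ((i : ℕ) : ℤ))) = a
      generalize decide ((((c : ℕ) : ℤ) + (-1 - ((i : ℕ) : ℤ))) % 2 ≠ 0) = b
      cases a <;> cases b <;> rfl
    show (up s n h ω, dn s n h ω) ∈ A ↔ _
    rw [h1, h2]
    exact Iff.rfl
  rw [hset, law_bits φ hφ sg B]
  have hcard : Fintype.card ι = h * L + h * L := by
    show Fintype.card ((Fin h × Fin L) ⊕ (Fin h × Fin L)) = _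
    rw [Fintype.card_sum, Fintype.card_prod, Fintype.card_fin, Fintype.card_fin]
  rw [hcard]
  -- arrays
  have hsum : (∑ b : ι → Bool, if b ∈ B then (1 : ℝ) else 0) =
      ∑ b : Fin h → Fin L → Bool, ∑ b' : Fin h → Fin L → Bool,
        if (law_hp s h b, law_hp s h b') ∈ A then (1 : ℝ) else 0 := by
    rw [← Fintype.sum_prod_type' (f := fun (b b' : Fin h → Fin L → Bool) =>
      if (law_hp s h b, law_hp s h b') ∈ A then (1 : ℝ) else 0)]
    refine Fintype.sum_equiv ((Equiv.sumArrowEquivProdArrow _ _ _).trans
      (Equiv.prodCongr (Equiv.curry _ _ _) (Equiv.curry _ _ _))) _ _ ?_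
    intro b
    rfl
  rw [hsum]
  have hexp : ∀ P Q : Pat L, (if (P, Q) ∈ A then law s h P * law s h Q else 0) =
      (1 / 2) ^ (h * L + h * L) * ∑ b : Fin h → Fin L → Bool, ∑ b' : Fin h → Fin L → Bool,
        if law_hp s h b = P then (if law_hp s h b' = Q then (if (P, Q) ∈ A then (1 : ℝ) else 0)
          else 0) else 0 := by
    intro P Q
    rw [law_eq_sum s h P, law_eq_sum s h Q, pow_add]
    by_cases hPQ : (P, Q) ∈ A
    · simp only [if_pos hPQ]
      have h5 : (∑ b : Fin h → Fin L → Bool, ∑ b' : Fin h → Fin L → Bool,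
          if law_hp s h b = P then (if law_hp s h b' = Q then (1 : ℝ) else 0) else 0) =
          (∑ b : Fin h → Fin L → Bool, if law_hp s h b = P then (1 : ℝ) else 0) *
          ∑ b' : Fin h → Fin L → Bool, if law_hp s h b' = Q then (1 : ℝ) else 0 := by
        rw [Finset.sum_mul]
        apply Finset.sum_congr rfl
        intro b _
        by_cases hb : law_hp s h b = P
        · simp only [if_pos hb, one_mul]
        · simp only [if_neg hb, zero_mul, Finset.sum_const_zero]
      rw [h5]
      ring
    · simp only [if_neg hPQ, ite_self, Finset.sum_const_zero, mul_zero]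
  rw [Finset.sum_congr rfl (fun P _ => Finset.sum_congr rfl (fun Q _ => hexp P Q))]
  simp only [← Finset.mul_sum]
  congr 1
  let f : Pat L → Pat L → (Fin h → Fin L → Bool) → (Fin h → Fin L → Bool) → ℝ :=
    fun P Q b b' => if law_hp s h b = P then
      (if law_hp s h b' = Q then (if (P, Q) ∈ A then (1 : ℝ) else 0) else 0) else 0
  symm
  calc ∑ P : Pat L, ∑ Q : Pat L, ∑ b : Fin h → Fin L → Bool, ∑ b' : Fin h → Fin L → Bool,
        f P Q b b'
      = ∑ P : Pat L, ∑ b : Fin h → Fin L → Bool, ∑ Q : Pat L, ∑ b' : Fin h → Fin L → Bool,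
        f P Q b b' := Finset.sum_congr rfl (fun P _ => Finset.sum_comm)
    _ = ∑ b : Fin h → Fin L → Bool, ∑ P : Pat L, ∑ Q : Pat L, ∑ b' : Fin h → Fin L → Bool,
        f P Q b b' := Finset.sum_comm
    _ = ∑ b : Fin h → Fin L → Bool, ∑ P : Pat L, ∑ b' : Fin h → Fin L → Bool, ∑ Q : Pat L,
        f P Q b b' :=
        Finset.sum_congr rfl (fun b _ => Finset.sum_congr rfl (fun P _ => Finset.sum_comm))
    _ = ∑ b : Fin h → Fin L → Bool, ∑ b' : Fin h → Fin L → Bool, ∑ P : Pat L, ∑ Q : Pat L,
        f P Q b b' := Finset.sum_congr rfl (fun b _ => Finset.sum_comm)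
    _ = ∑ b : Fin h → Fin L → Bool, ∑ b' : Fin h → Fin L → Bool,
        if (law_hp s h b, law_hp s h b') ∈ A then (1 : ℝ) else 0 := by
        apply Finset.sum_congr rfl
        intro b _
        apply Finset.sum_congr rfl
        intro b' _
        rw [Finset.sum_eq_single (law_hp s h b), Finset.sum_eq_single (law_hp s h b')]
        · simp [f]
        · intro Q _ hQ
          have h7 : ¬ law_hp s h b' = Q := Ne.symm hQ
          simp only [f, if_neg h7, ite_self]
        · intro hcon
          exact absurd (Finset.mem_univ _) hcon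
        · intro P _ hP
          have h7 : ¬ law_hp s h b = P := Ne.symm hP
          simp only [f, if_neg h7, Finset.sum_const_zero]
        · intro hcon
          exact absurd (Finset.mem_univ _) hcon

/-! ### Convergence -/

open Classical in
/-- transition probabilities -/
private noncomputable def law_K (P Q : Pat L) : ℝ :=
  (1 / 2) ^ L * ∑ t : Fin L → Bool, if row (bits t) P = Q then (1 : ℝ) else 0

private theorem law_K_nonneg (P Q : Pat L) : 0 ≤ law_K P Q := by
  unfold law_K
  apply mul_nonneg (by positivity)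
  apply Finset.sum_nonneg
  intro t _
  split_ifs <;> norm_num

private theorem law_K_sum (P : Pat L) : ∑ Q : Pat L, law_K P Q = 1 := by
  classical
  unfold law_K
  rw [← Finset.mul_sum, Finset.sum_comm]
  have h1 : ∀ t : Fin L → Bool, (∑ Q : Pat L, if row (bits t) P = Q then (1 : ℝ) else 0) = 1 := by
    intro t
    rw [Finset.sum_eq_single (row (bits t) P)]
    · simp
    · intro Q _ hQ
      rw [if_neg (fun e => hQ e.symm)]
    · intro hcon
      exact absurd (Finset.mem_univ _) hcon
  rw [Finset.sum_congr rfl (fun t _ => h1 t)]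
  simp only [Finset.sum_const, Finset.card_univ, Fintype.card_fun, Fintype.card_bool,
    Fintype.card_fin, nsmul_eq_mul, mul_one]
  push_cast
  rw [← mul_pow]
  norm_num

private theorem law_K_law (s : Pat L) (h : ℕ) (Q : Pat L) :
    law s (h + 1) Q = ∑ P : Pat L, law_K P Q * law s h P := by
  classical
  show (1 / 2) ^ L * ∑ t : Fin L → Bool, ∑ P : Pat L,
      (if row (bits t) P = Q then law s h P else 0) = _
  unfold law_K
  rw [Finset.sum_comm, Finset.mul_sum]
  apply Finset.sum_congr rfl
  intro P _
  rw [mul_assoc, Finset.sum_mul]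
  congr 1
  apply Finset.sum_congr rfl
  intro t _
  split_ifs <;> simp

private theorem law_K_stat {v : Pat L → ℂ} (hv : Stat v) (Q : Pat L) :
    ∑ P : Pat L, (law_K P Q : ℂ) * v P = v Q := by
  classical
  have h1 := hv Q
  unfold pushRow at h1
  rw [Finset.sum_comm] at h1
  have h2 : ∑ P : Pat L, (law_K P Q : ℂ) * v P = (1 / 2) ^ L * ∑ P : Pat L,
      ∑ t : Fin L → Bool, if row (bits t) P = Q then v P else 0 := by
    rw [Finset.mul_sum]
    apply Finset.sum_congr rfl
    intro P _
    unfold law_K
    push_cast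
    rw [mul_assoc, Finset.sum_mul]
    congr 1
    apply Finset.sum_congr rfl
    intro t _
    split_ifs <;> simp
  rw [h2, h1, ← mul_assoc, ← mul_pow]
  norm_num

private theorem law_sum_one (s : Pat L) (h : ℕ) : ∑ Q : Pat L, law s h Q = 1 := by
  classical
  induction h with
  | zero =>
    show (∑ Q : Pat L, if Q = s then (1 : ℝ) else 0) = 1
    rw [Finset.sum_eq_single s]
    · simp
    · intro Q _ hQ
      rw [if_neg hQ]
    · intro hcon
      exact absurd (Finset.mem_univ _) hcon
  | succ h ih =>
    rw [Finset.sum_congr rfl (fun Q _ => law_K_law s h Q), Finset.sum_comm]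
    have : ∀ P : Pat L, ∑ Q : Pat L, law_K P Q * law s h P = law s h P := by
      intro P
      rw [← Finset.sum_mul, law_K_sum, one_mul]
    rw [Finset.sum_congr rfl (fun P _ => this P), ih]

private theorem law_K_star (hL : L = 2 * n) (hn : 1 ≤ n) {s : Pat L} (hs : IsStar s)
    (P : Pat L) : (1 / 2) ^ L ≤ law_K P s := by
  classical
  unfold law_K
  have h1 : (1 : ℝ) ≤ ∑ t : Fin L → Bool, if row (bits t) P = s then (1 : ℝ) else 0 := by
    let t0 : Fin L → Bool := fun c => decide ((((c : ℕ) : ℤ)) % 2 = 1)
    have hbits : ∀ c : ℤ, bits t0 c = decide (c % 2 = 1) := by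
      intro c
      have hLpos : (0 : ℤ) < L := by omega
      have h2 : 0 ≤ c % (L : ℤ) := Int.emod_nonneg _ (by omega)
      have h3 : c % (L : ℤ) < L := Int.emod_lt_of_pos _ hLpos
      unfold bits
      rw [dif_pos (by omega)]
      show decide ((((c % (L : ℤ)).toNat : ℕ) : ℤ) % 2 = 1) = decide (c % 2 = 1)
      rw [Int.toNat_of_nonneg h2]
      have h4 : c % (L : ℤ) % 2 = c % 2 := by
        apply Int.emod_emod_of_dvd
        exact ⟨n, by rw [hL]; push_cast; ring⟩
      rw [h4]
    have h5 : row (bits t0) P = s := row_alt hL hs P hbits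
    have h6 := Finset.single_le_sum
      (f := fun t : Fin L → Bool => if row (bits t) P = s then (1 : ℝ) else 0)
      (fun t _ => by split_ifs <;> norm_num) (Finset.mem_univ t0)
    simp only [h5, if_true] at h6
    exact h6
  calc (1 / 2 : ℝ) ^ L = (1 / 2) ^ L * 1 := (mul_one _).symm
    _ ≤ _ := mul_le_mul_of_nonneg_left h1 (by positivity)

theorem law_tendsto (hL : L = 2 * n) (hn : 1 ≤ n) {s : Pat L} (hs : IsStar s) {v : Pat L → ℂ}
    (hv : Stat v) (hS : ∑ P, v P ≠ 0) (Q : Pat L) :
    Tendsto (fun h : ℕ => (law s h Q : ℂ)) atTop (𝓝 (v Q / ∑ P, v P)) := by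
  classical
  set S := ∑ P, v P with hSdef
  set ε : ℝ := (1 / 2) ^ L with hε
  have hε0 : 0 < ε := by positivity
  have hε1 : ε ≤ 1 := pow_le_one₀ (by norm_num) (by norm_num)
  let w : ℕ → Pat L → ℂ := fun h Q => (law s h Q : ℂ) - v Q / S
  have hw0 : ∀ h, ∑ Q, w h Q = 0 := by
    intro h
    show ∑ Q, ((law s h Q : ℂ) - v Q / S) = 0
    rw [Finset.sum_sub_distrib, ← Finset.sum_div, ← hSdef, div_self hS]
    have := law_sum_one s h
    have h2 : ∑ Q : Pat L, (law s h Q : ℂ) = 1 := by
      exact_mod_cast this
    rw [h2, sub_self]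
  have hrec : ∀ h Q, w (h + 1) Q = ∑ P, ((law_K P Q - if Q = s then ε else 0 : ℝ) : ℂ) * w h P := by
    intro h Q
    have h1 : ∑ P, ((law_K P Q - if Q = s then ε else 0 : ℝ) : ℂ) * w h P =
        ∑ P, (law_K P Q : ℂ) * w h P - ((if Q = s then ε else 0 : ℝ) : ℂ) * ∑ P, w h P := by
      rw [Finset.mul_sum, ← Finset.sum_sub_distrib]
      apply Finset.sum_congr rfl
      intro P _
      push_cast
      ring
    rw [h1, hw0, mul_zero, sub_zero]
    show (law s (h + 1) Q : ℂ) - v Q / S = ∑ P, (law_K P Q : ℂ) * ((law s h P : ℂ) - v P / S)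
    have h2 : ∑ P, (law_K P Q : ℂ) * ((law s h P : ℂ) - v P / S) =
        ∑ P, (law_K P Q : ℂ) * (law s h P : ℂ) - (∑ P, (law_K P Q : ℂ) * v P) / S := by
      rw [Finset.sum_div, ← Finset.sum_sub_distrib]
      apply Finset.sum_congr rfl
      intro P _
      ring
    rw [h2, law_K_stat hv Q, law_K_law]
    push_cast
    rfl
  have hcoef : ∀ P Q : Pat L, 0 ≤ law_K P Q - if Q = s then ε else 0 := by
    intro P Q
    by_cases hQ : Q = s
    · rw [if_pos hQ, hQ]
      exact sub_nonneg.2 (law_K_star hL hn hs P)
    · rw [if_neg hQ, sub_zero]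
      exact law_K_nonneg P Q
  have hcoefsum : ∀ P : Pat L, ∑ Q : Pat L, (law_K P Q - if Q = s then ε else 0) = 1 - ε := by
    intro P
    rw [Finset.sum_sub_distrib, law_K_sum, Finset.sum_ite_eq' Finset.univ s (fun _ => ε)]
    simp
  have hcontr : ∀ h, ∑ Q, ‖w (h + 1) Q‖ ≤ (1 - ε) * ∑ P, ‖w h P‖ := by
    intro h
    calc ∑ Q, ‖w (h + 1) Q‖
        ≤ ∑ Q, ∑ P, (law_K P Q - if Q = s then ε else 0) * ‖w h P‖ := by
          apply Finset.sum_le_sum
          intro Q _
          rw [hrec h Q]
          refine (norm_sum_le _ _).trans ?_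
          apply Finset.sum_le_sum
          intro P _
          rw [norm_mul, Complex.norm_real, Real.norm_eq_abs, abs_of_nonneg (hcoef P Q)]
      _ = ∑ P, (1 - ε) * ‖w h P‖ := by
          rw [Finset.sum_comm]
          apply Finset.sum_congr rfl
          intro P _
          rw [← Finset.sum_mul, hcoefsum]
      _ = (1 - ε) * ∑ P, ‖w h P‖ := by rw [Finset.mul_sum]
  have hbound : ∀ h, ∑ Q, ‖w h Q‖ ≤ (1 - ε) ^ h * ∑ Q, ‖w 0 Q‖ := by
    intro h
    induction h with
    | zero => simp
    | succ h ih =>
      calc ∑ Q, ‖w (h + 1) Q‖ ≤ (1 - ε) * ∑ P, ‖w h P‖ := hcontr h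
        _ ≤ (1 - ε) * ((1 - ε) ^ h * ∑ Q, ‖w 0 Q‖) :=
          mul_le_mul_of_nonneg_left ih (by linarith only [hε1])
        _ = (1 - ε) ^ (h + 1) * ∑ Q, ‖w 0 Q‖ := by ring
  have hlim : Tendsto (fun h : ℕ => (1 - ε) ^ h * ∑ Q, ‖w 0 Q‖) atTop (𝓝 0) := by
    have h1 : Tendsto (fun h : ℕ => (1 - ε) ^ h) atTop (𝓝 0) :=
      tendsto_pow_atTop_nhds_zero_of_lt_one (by linarith only [hε1]) (by linarith only [hε0])
    simpa using h1.mul_const (∑ Q, ‖w 0 Q‖)
  rw [tendsto_iff_norm_sub_tendsto_zero]
  refine squeeze_zero (fun h => norm_nonneg _) (fun h => ?_) hlim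
  refine le_trans ?_ (hbound h)
  exact Finset.single_le_sum (f := fun Q => ‖w h Q‖) (fun _ _ => norm_nonneg _)
    (Finset.mem_univ Q)

end Pool.Agent.H89.Link

end

section

/-!
# LINK module `One`: one arm

`arm_of_noSurr`.  Suppose `per n ω ∉ Arm 0 k`.  Let `C` be the set of vertices joined to `0` inside
`ball 0 k`; it is finite, contains `0` and no point of `sphere 0 k`, hence its indicator `F` is constant along
all open edges of `per n ω` (a neighbour of a point of the ball which is not on the sphere is in the ball).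
By `up_primal`, `dn_primal` the finite set `X = {c | pv c ∈ C}` is invariant under both involutions.
`pv c = (j, -j)` with `j = (c + 1) / 2`: the columns `2 j - 1, 2 j`.  So
`#{c ∈ X | 0 ≤ c} = 1 + 2 #{j ≥ 1 | (j, -j) ∈ C}` is odd, which contradicts `NoSurr`.

`noSurr_of_path`.  `exists_pathSum` and `exists_halfSum` give `A : Edge → ZMod 2` supported on open edges of
`per n ω` in the strip, with `0` the only vertex of odd degree; `G = pot A H`.  By `pot_odd`
`Gu f = G f` satisfies `Gu (lowFace e) = Gu (src e)` for all closed edges `e` in rows `≥ 0` (there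
`e.1 = 0 ∧ e.2.1 < 0` is impossible), and `Gd f = G f + (if 0 ≤ f.1 then 1 else 0)` satisfies the same for closed
edges in rows `< 0` (check: only `e = (0, b, true)` has `lowFace e`, `src e` on different sides of `f.1 = 0`, and
in the rows `< 0` it has `b < 0`).  Top level `h ≥ H`: `Gu = 0` (`pot_top`).  Bottom level `-h ≤ -H`: `Gd` is
constant: for `f.1 + f.2 + 1 = -h` moving from `(a, b)` to `(a + 1, b - 1)` crosses edges of rows `< -H` (or
`≤ -H`), where `A = 0`, so `Gd` does not change; (equivalently `Gd (a, b) = Gd (a+1, b-1)` for all `a`, then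
integer induction).  Hence `up_dual`, `dn_dual`: with `hu c = Gu (dv c)`, `hd c = Gd (dv c)`:
`hu ((up ..).m c) = hu c`, `hd ((dn ..).m c) = hd c`, and `hu c + hd c = if 0 ≤ c then 1 else 0`
(`(dv c).1 = c / 2 ≥ 0 ↔ c ≥ 0`).  For an invariant finite set `X`: `∑_{c ∈ X} hu c = 0` in `ZMod 2` (a fixed point
free involution of `X` preserves `hu`; `Finset.sum_involution`), same for `hd`; so `#{c ∈ X | 0 ≤ c}` is even.
-/

set_option autoImplicit false

namespace Pool.Agent.H89.Link

open H56.EX
open Pool.Agent.H89.Perc (Vert Edge Config src tgt lowFace vsum)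

variable {L n : ℕ}

end Pool.Agent.H89.Link

end

section

/-!
# LINK module `Final`

Let `h → ∞` through even numbers in `pr_up_dn` with `A` = the event in question, use `law_tendsto`.
-/

set_option autoImplicit false

open MeasureTheory ProbabilityTheory Filter Topology

namespace Pool.Agent.H89.Link

open H56.EX
open Pool.Agent.H89.Perc (Vert Edge Config Pr half)

variable {L n : ℕ}

open Classical in
theorem pr_tendsto (hL : L = 2 * n) (hn : 1 ≤ n) {s : Pat L} (hs : IsStar s) {v : Pat L → ℂ}
    (hv : Stat v) (hS : ∑ P, v P ≠ 0) (A : Set (Pat L × Pat L)) :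
    Tendsto (fun h : ℕ => ((Pr half {ω | (up s n (2 * h) ω, dn s n (2 * h) ω) ∈ A} : ℝ) : ℂ)) atTop
      (𝓝 ((∑ P : Pat L, ∑ Q : Pat L, if (P, Q) ∈ A then v P * v Q else 0) / (∑ P, v P) ^ 2)) := by
  have h2 : Tendsto (fun h : ℕ => 2 * h) atTop atTop :=
    tendsto_atTop_mono (fun h => by simp only [id]; omega) tendsto_id
  have hlaw : ∀ Q : Pat L, Tendsto (fun h : ℕ => (law s (2 * h) Q : ℂ)) atTop
      (𝓝 (v Q / ∑ P, v P)) := fun Q => (law_tendsto hL hn hs hv hS Q).comp h2
  have hlim : (∑ P : Pat L, ∑ Q : Pat L, if (P, Q) ∈ A then v P * v Q else 0) / (∑ P, v P) ^ 2 =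
      ∑ P : Pat L, ∑ Q : Pat L, if (P, Q) ∈ A then (v P / ∑ P, v P) * (v Q / ∑ P, v P) else 0 := by
    rw [Finset.sum_div]
    refine Finset.sum_congr rfl fun P _ => ?_
    rw [Finset.sum_div]
    refine Finset.sum_congr rfl fun Q _ => ?_
    split_ifs
    · field_simp
    · simp
  rw [hlim]
  have heq : (fun h : ℕ => ((Pr half {ω | (up s n (2 * h) ω, dn s n (2 * h) ω) ∈ A} : ℝ) : ℂ)) =
      fun h : ℕ => ∑ P : Pat L, ∑ Q : Pat L,
        if (P, Q) ∈ A then (law s (2 * h) P : ℂ) * (law s (2 * h) Q : ℂ) else 0 := by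
    funext h
    rw [pr_up_dn hL hn s (2 * h) A]
    push_cast
    refine Finset.sum_congr rfl fun P _ => Finset.sum_congr rfl fun Q _ => ?_
    split_ifs <;> simp
  rw [heq]
  refine tendsto_finsetSum _ fun P _ => tendsto_finsetSum _ fun Q _ => ?_
  split_ifs
  · exact (hlaw P).mul (hlaw Q)
  · exact tendsto_const_nhds

end Pool.Agent.H89.Link

end

section

/-! Topological lemmas on insertions of small arcs (EXACT project). -/

namespace Pool.Agent.H14.EX

open H56.EX

variable {L : ℕ}

end Pool.Agent.H14.EX

end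

section

/-!
# Interface for the construction of the polynomial qKZ solution

`PsiPre Ψ` collects the properties of `Ψ` which are obtained directly from the construction; the arc
recursion (`arc_zero`, `arc` of `PsiProps`) is derived from `PsiPre` and the triangularity lemma.
-/

namespace Pool.Agent.H12.QKZ

open H56.EX

end Pool.Agent.H12.QKZ

end

section

/-! Arc recursion of the polynomial qKZ solution (EXACT project): `arc_zero_of`, `arc_of`. -/

namespace Pool.Agent.H14.EX

open H56.EX Pool.Agent.H12.QKZ

variable {L : ℕ}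

/-! ### Push-forwards -/

/-! ### `arc_zero` -/

/-! ### Insertion of the parameters `q² w, w` -/

/-! ### The inserted vector -/

/-! ### Products over a period -/

/-! ### Generic parameters -/

end Pool.Agent.H14.EX

end

section

/-!
# The base component
-/

namespace Pool.Agent.H12.QKZ

open H56.EX MvPolynomial

end Pool.Agent.H12.QKZ

end

section

/-!
# The total length of the arcs of a link pattern
-/

namespace Pool.Agent.H12.QKZ

open H56.EX

variable {L : ℕ}

end Pool.Agent.H12.QKZ

end

section

/-!
# Good positions of a link pattern and the fibres of `e_i`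
-/

namespace Pool.Agent.H12.QKZ

open H56.EX

variable {L : ℕ}

end Pool.Agent.H12.QKZ

end

section

/-! Arc recursion of the leg sums. -/

namespace H56.EX

open scoped BigOperators Classical

variable {Lt Lb L : ℕ}


/-! ### parameters -/

lemma par_nat {L : ℕ} (s : ℕ → ℂ) {n : ℕ} (h : n < L) : par L s n = s n := by
  unfold par
  rw [Int.emod_eq_of_lt (by omega) (by exact_mod_cast h)]
  simp

end H56.EX

end

section

/-! Manipulation of the parameter sequences; exchange, recursion and polynomiality of `F22`, `F13`. -/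

namespace H56.EX

open scoped BigOperators Classical


end H56.EX

end

section

/-!
# LT1: the Temperley–Lieb generator can be moved from the top pattern to the bottom pattern
at glued strands, without changing the leg class.
-/

namespace H56.EX

open Relation

variable {Lt Lb : ℕ}

lemma eqvGen_map {α β : Type*} {r : α → α → Prop} {s : β → β → Prop} (f : α → β)
    (h : ∀ x y, r x y → EqvGen s (f x) (f y)) {x y : α} (hxy : EqvGen r x y) :
    EqvGen s (f x) (f y) := by
  induction hxy with
  | rel x y hxy => exact h x y hxy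
  | refl x => exact EqvGen.refl _
  | symm x y _ ih => exact EqvGen.symm _ _ ih
  | trans x y z _ _ ih1 ih2 => exact EqvGen.trans _ _ _ ih1 ih2

lemma step_swap {kt kb M : ℕ} {Pt : Pat Lt} {Pb : Pat Lb} {x y : ℤ ⊕ ℤ}
    (h : Step kt kb M Pt Pb x y) : EqvGen (Step kb kt M Pb Pt) x.swap y.swap := by
  cases h with
  | top x => exact EqvGen.rel _ _ (Step.bot x)
  | bot y => exact EqvGen.rel _ _ (Step.top y)
  | glue a j hj => exact EqvGen.symm _ _ (EqvGen.rel _ _ (Step.glue a j hj))

lemma conn_swap {kt kb M : ℕ} {Pt : Pat Lt} {Pb : Pat Lb} {x y : ℤ ⊕ ℤ}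
    (h : Conn kt kb M Pt Pb x y) : Conn kb kt M Pb Pt x.swap y.swap :=
  eqvGen_map Sum.swap (fun _ _ h => step_swap h) h

section vmap

end vmap

end H56.EX

end

section

/-! Topology lemma LT4 of the EXACT project: a small arc between the last glued strand
(position `-1`) and the first hole end (position `0`) of the top pattern. -/

namespace H56.EX

variable {Lt Lb : ℕ}

section

end

end H56.EX

end

section

/-! Symmetry of `F22`, `F13` in the glued strands. -/

namespace H56.EX

open scoped BigOperators Classical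

lemma Cub.neq {x y : ℂ} (h : Cub x y) : x ≠ q * y := fun e => h (by
  rw [e, mul_pow, q_cube, one_mul])


/-! ### moving a parameter to the front -/

/-- move `z j` to the front -/
def mvf (j : ℕ) (z : ℕ → ℂ) : ℕ → ℂ :=
  fun n => if n = 0 then z j else if n ≤ j then z (n - 1) else z n

lemma mvf_zero (z : ℕ → ℂ) : mvf 0 z = z := by
  funext n
  unfold mvf
  by_cases h : n = 0
  · subst h; simp
  · rw [if_neg h, if_neg (by omega)]

lemma mvf_succ (j : ℕ) (z : ℕ → ℂ) : mvf (j + 1) z = mvf j (z ∘ Equiv.swap j (j + 1)) := by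
  funext n
  unfold mvf
  by_cases h : n = 0
  · simp [h]
  rw [if_neg h, if_neg h]
  by_cases h1 : n ≤ j
  · rw [if_pos (by omega), if_pos h1, Function.comp_apply,
      Equiv.swap_apply_of_ne_of_ne (by omega) (by omega)]
  rw [if_neg h1]
  by_cases h2 : n = j + 1
  · subst h2; simp
  · rw [if_neg (by omega), Function.comp_apply,
      Equiv.swap_apply_of_ne_of_ne (by omega) (by omega)]

/-- generic family -/
def Gen (M : ℕ) (z : ℕ → ℂ) : Prop :=
  (∀ j, j < M → z j ≠ 0) ∧ ∀ j k, j < M → k < M → j ≠ k → Cub (z j) (z k)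

lemma Gen.swap {M : ℕ} {z : ℕ → ℂ} (h : Gen M z) (j : ℕ) (hj : j + 1 < M) :
    Gen M (z ∘ Equiv.swap j (j + 1)) := by
  have hb : ∀ k, k < M → Equiv.swap j (j + 1) k < M := by
    intro k hk
    by_cases h1 : k = j
    · subst h1; simp; omega
    by_cases h2 : k = j + 1
    · subst h2; simp; omega
    rw [Equiv.swap_apply_of_ne_of_ne h1 h2]; exact hk
  refine ⟨fun k hk => h.1 _ (hb k hk), fun k l hk hl hkl => h.2 _ _ (hb k hk) (hb l hl) ?_⟩
  intro e
  exact hkl ((Equiv.swap j (j + 1)).injective e)

lemma inv_mvf {M : ℕ} (f : (ℕ → ℂ) → ℂ)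
    (hf : ∀ z, Gen M z → ∀ j, j + 1 < M → f (z ∘ Equiv.swap j (j + 1)) = f z) :
    ∀ j, j < M → ∀ z, Gen M z → f (mvf j z) = f z := by
  intro j
  induction j with
  | zero => intro _ z _; rw [mvf_zero]
  | succ j ih =>
    intro hj z hz
    rw [mvf_succ, ih (by omega) _ (hz.swap j hj), hf z hz j hj]


end H56.EX

end

section

/-! Topology lemma LT3: a small arc between the last hole end of the top pattern and the first
glued strand turns the hole end into a hole end of the bottom pattern. -/

namespace H56.EX

namespace LT3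

variable {Lt Lb : ℕ}

end LT3

variable {Lt Lb : ℕ}

end H56.EX

end
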