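import Pool.Agent.H94.BG.H31.PT.M31_4
import Pool.Agent.H94.BG.H31.PT.M32_5

/-! The parts of this file: H89.Perc.ArmBoxLower, H83.EX.SqrtTrick, H83.EX.Glue2, H83.EX.Double, H83.EX.DualSmall, H83.EX.StrongRSW, H57.LF.FS2, H57.LF.FS3, H57.LF.FS1, H89.Perc.ThetaLimit, H89.Perc.Surround, H57.LF.FS4, H85.Gamma.KIArm, H85.Gamma.Second, H85.Gamma.Main, H83.EX.WindDet, H89.Link.PerProb, H89.Link.Half, H89.Link.Face, H47.EX.Confine, H47.EX.SrcD, H89.Link.Four, H89.Link.Star, H89.Link.Law, H89.Link.One, H89.Link.Final, H14.EX.Top, H12.QKZ.Iface, H14.EX.Arc, H12.QKZ.PhiBase, H12.QKZ.Area, H12.QKZ.Comb, H56.EX.Rec, H56.EX.Param, H96.EX.LT1, H14.EX.LT4, H56.EX.Sym, H7.EX.LT3. -/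

section

/-!
# Lower bound for annulus crossing probabilities
-/

open MeasureTheory ProbabilityTheory unitInterval

namespace Pool.Agent.H89.Perc

namespace ArmBoxLower

end ArmBoxLower

end Pool.Agent.H89.Perc

end

section

/-! # The square-root trick -/

open MeasureTheory ProbabilityTheory unitInterval

namespace Pool.Agent.H83.EX

open Pool.Agent.H89.Perc

end Pool.Agent.H83.EX

end

section

/-! # Two paths across an annulus without dual crossing are connected -/

open MeasureTheory ProbabilityTheory unitInterval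

namespace Pool.Agent.H83.EX

open Pool.Agent.H89.Perc

end Pool.Agent.H83.EX

end

section

/-! # Doubling the length of a rectangle -/

open MeasureTheory ProbabilityTheory unitInterval

namespace Pool.Agent.H83.EX

open Pool.Agent.H89.Perc

end Pool.Agent.H83.EX

end

section

/-! # Annulus crossings of thick annuli are unlikely -/

open MeasureTheory ProbabilityTheory unitInterval

namespace Pool.Agent.H83.EX

open Pool.Agent.H89.Perc

end Pool.Agent.H83.EX

end

section

/-! # If the squares are crossed with probability close to one, so are the long rectangles -/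

open MeasureTheory ProbabilityTheory unitInterval

namespace Pool.Agent.H83.EX

open Pool.Agent.H89.Perc

end Pool.Agent.H83.EX

end

section

open MeasureTheory ProbabilityTheory unitInterval

namespace Pool.Agent.H57.LF

open Pool.Agent.H89.Perc

end Pool.Agent.H57.LF

end

section

open MeasureTheory ProbabilityTheory unitInterval

namespace Pool.Agent.H57.LF

open Pool.Agent.H89.Perc

end Pool.Agent.H57.LF

end

section

open MeasureTheory ProbabilityTheory unitInterval

namespace Pool.Agent.H57.LF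

open Pool.Agent.H89.Perc

end Pool.Agent.H57.LF

end

section

/-!
# The percolation probability is the limit of the one-arm probabilities
-/

open MeasureTheory ProbabilityTheory unitInterval Filter Topology

namespace Pool.Agent.H89.Perc

end Pool.Agent.H89.Perc

end

section

/-!
# Finite clusters are surrounded by dual paths
-/

open MeasureTheory ProbabilityTheory unitInterval

namespace Pool.Agent.H89.Perc

end Pool.Agent.H89.Perc

end

section

open MeasureTheory ProbabilityTheory unitInterval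

namespace Pool.Agent.H57.LF

open Pool.Agent.H89.Perc

end Pool.Agent.H57.LF

end

section

/-!
# The key inequality for the one-arm event
-/

open MeasureTheory ProbabilityTheory unitInterval

namespace Pool.Agent.H85.Gamma

open Pool.Agent.H89.Perc
open Pool.Agent.Perc (Ex ind ind_of ind_of_not ind_congr)

end Pool.Agent.H85.Gamma

end

section

/-!
# Lower bound for the susceptibility by a second moment argument
-/

open MeasureTheory ProbabilityTheory unitInterval Filter Topology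
open scoped ENNReal

namespace Pool.Agent.H85.Gamma

open Pool.Agent.H89.Perc
open Pool.Agent.Perc (Ex ind ind_of ind_of_not ind_congr ind_nonneg ind_le_one)

end Pool.Agent.H85.Gamma

end

section

/-!
# The mean cluster size of bond percolation on the square lattice is at least `c (1/2 - p)^{-2}`
-/

open MeasureTheory ProbabilityTheory unitInterval Filter Topology
open scoped ENNReal

namespace Pool.Agent.H85.Gamma

open Pool.Agent.H89.Perc

end Pool.Agent.H85.Gamma

end

section

/-! # A winding path from crossings of rectangles -/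

open MeasureTheory ProbabilityTheory unitInterval

namespace Pool.Agent.H83.EX

open Pool.Agent.H89.Perc

end Pool.Agent.H83.EX

end

section

/-!
# LINK module `PerProb`: local events have the same probability in the plane and on the cylinder

`per n ω e = ω (base n e)` with `base n e = (e.1 % n, e.2.1 + (e.1 - e.1 % n), e.2.2)`.  If `base n` is injective on
the finite set `S` and `A` depends only on `S`, then `{ω | per n ω ∈ A}` is the image of `A` under the
relabelling, and has the same probability (the law of `(ω (base n e))_{e ∈ S}` is the product law).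
`base n` is injective on the edges with `|e.1| ≤ k` if `2 k < n`.
-/

set_option autoImplicit false

open MeasureTheory ProbabilityTheory unitInterval

namespace Pool.Agent.H89.Link

open Pool.Agent.H89.Perc (Vert Edge Config Pr half)

end Pool.Agent.H89.Link

end

section

/-!
# LINK module `Half`: colours are transported through a half cylinder

`halfP_inv`: induction on `h` with `row_inv` (the upper part has rows `r + 1, …, r + h`).
`halfP_congr`: induction on `h`; `row t P` only uses `t 0, …, t (L - 1)` (`wires_congr`).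
-/

set_option autoImplicit false

namespace Pool.Agent.H89.Link

open H56.EX

end Pool.Agent.H89.Link

end

section

/-!
# LINK module `Face`: colourings of primal or dual vertices give invariants of the patterns

`F : Vert → T` constant along the open edges of the rows `0, …, h - 1` (of `per n ω`) gives a colour of
the medial edges: the colour of the adjacent primal vertex.  In medial coordinates the face `(c, r)`
(between the columns `c, c + 1`, at level `r`) is primal iff `c + r` is odd and is then the vertex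
`((c + r + 1) / 2, (r - c - 1) / 2)`.  Put (primal colouring)
  `K c r = F ((c + r + 1) / 2, (r - c - 1) / 2)`,
  `V c r = if (c + r) % 2 = 1 then K c r else K (c - 1) r`   (vertical edge in column `c` at level `r`),
  `H c r = if (c + r) % 2 = 1 then K c r else K c (r + 1)`   (horizontal edge from `(c, r)` to `(c + 1, r)`).
Then `RowCol (tB (per n ω) · r) (V · (r + 1)) (H · r) (V · r)`:
* `c + r` even: `medge c r = (a, b, false)`, `a = (c + r) / 2`, `b = (r - c) / 2`; South-West face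
  `(c - 1, r)` = `src`, North-East face `(c, r + 1)` = `tgt`; `V c r = K (c-1) r`, `V c (r+1) = K c (r+1)`,
  `H c r = K c (r+1)`, `H (c-1) r = K (c-1) r`; `tB = true` iff the edge is open.
* `c + r` odd: `medge c r = (a, b, true)`, `a = (c + r + 1) / 2`, `b = (r - c - 1) / 2`; South-East face
  `(c, r)` = `src`, North-West face `(c - 1, r + 1)` = `tgt`; `V c r = K c r = H c r`,
  `V c (r+1) = K (c-1) (r+1) = H (c-1) r`; `tB = false` iff the edge is open.
At the top level `h` (even) the star joins `c` odd with `c + 1`, both are next to the primal face `(c, h)`.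
The dual colouring is the same with parities exchanged: `K c r = G ((c + r) / 2, (r - c - 2) / 2)` for
`c + r` even, `V c r = if (c + r) % 2 = 0 then K c r else K (c - 1) r`, `H c r = if (c + r) % 2 = 0 then K c r
else K c (r + 1)`; at the top all dual faces have the same colour `a`.
`V c 0` is `F (pv c)` resp. `G (dv c)`.
`tB (per n ω) (c + 2 n) r = tB (per n ω) c r` (`tB_per`).
For `dn` use the reflected colouring `V' c r = V c (-r)`, `H' c r = H c (-1 - r)`; the types are flipped: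
at the vertex `(c, -1 - r)`, top and bottom are exchanged (`top' = V c (-r-1)` is the edge below it).
-/

set_option autoImplicit false

namespace Pool.Agent.H89.Link

open H56.EX
open Pool.Agent.H89.Perc (Vert Edge Config src tgt lowFace)

end Pool.Agent.H89.Link

end

section

/-!
# Periodic configurations: confinement of two clusters by seals

`Γ` is a group of periods.  `F₁`, `F₂` are clusters in a domain `D`, `X₁`, `X₂` corridors attached to
them, `M₁`, `M₂` the mouths through which they leave `D`.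
-/

set_option autoImplicit false

open MeasureTheory ProbabilityTheory unitInterval

namespace Pool.Agent.H47.EX

open Pool.Agent.H89.Perc Pool.Agent.H59.EX

variable {Γ : AddSubgroup (ℤ × ℤ)}

end Pool.Agent.H47.EX

end

section

/-!
# The diagonal source
-/

set_option autoImplicit false

namespace Pool.Agent.H47.EX

open Pool.Agent.H89.Perc Pool.Agent.H59.EX

end Pool.Agent.H47.EX

end

section

/-!
# LINK module `Four`: the four-leg event implies four arms

Composite graph `H56.EX.Conn 2 2 (L - 2) P Q` on `ℤ ⊕ ℤ` with `P = up s n h ω`, `Q = dn s n h ω`: `inl x ~ inl (P.m x)`,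
`inr y ~ inr (Q.m y)`, `inl c ~ inr c` for the columns `c` with `c % L ≥ 2`.  Home columns: `c % L ∈ {0, 1}`.
(A) If `Leg 2 2 (L - 2) P Q` then no two different ones of the four nodes `inl 0, inl 1, inr 0, inr 1` are connected
(`a = b = 0` in `Leg`, `Odd 0` is false).
(B) Let `Z` be a finite set of nodes closed under the steps and containing one of the four home nodes `ℓ`, all of
whose nodes have a position in `(-L + 1, L)`, so the only home positions in `Z` are `0` and `1`.  The connected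
component `O` of `ℓ` is contained in `Z`, finite, closed under the fixed point free involution
`α : inl x ↦ inl (P.m x), inr y ↦ inr (Q.m y)`, so `|O|` is even; `O` without its home nodes is closed under
`β : inl c ↔ inr c`, so it has an even number of elements.  So `O` contains an even number of home nodes, hence
another home node; this contradicts (A).
(i) Suppose `x = (0, 0)` is not joined to `sphere 0 k` in `ball 0 k`.  `C` = vertices joined to `x` in `ball 0 k`,
its indicator is constant along open edges; `Z` = nodes whose position `c` has `pv c ∈ C` is closed under the steps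
(`up_primal`, `dn_primal`), finite, contains `inl 0`; positions are in `[-2 k - 1, 2 k]` and `2 k + 2 < L`. (B).
(ii) Suppose `y = (1, -1)` is not joined to `sphere 0 k` in `ball 0 k`: the same with `inl 1` (`pv 1 = y`).
(iii) Suppose `x` and `y` are joined in `ball 0 k`.  `exists_pathSum` gives `c` with odd degrees exactly at `x`, `y`;
add the two edges `(0, 0, false)` and `(1, -1, true)` (the path `x, (1, 0), y`): `A`, all degrees even, finite,
in the strip `H = 2 k + 2`.  `G' = pot A H`.  `Gu = G'` except `Gu q = G' q + 1` for `q = (0, -1)`, `Gd = G'`.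
Then `Gu (lowFace e) = Gu (src e)` for closed `e` in rows `≥ 0`: the edges of rows `≥ 0` with `q` as one of their
faces are exactly `(0, 0, false)` and `(1, -1, true)`.  The edges of rows `< 0` at `q` are `(0, -1, false)`,
`(0, -1, true)`.  `Gu = 0` at level `h`, `Gd` = constant at level `-h` (`2 k + 2 ≤ h`); the constant is `0` because
`G'` has finite support in every level (or: `G' (a, b) = 0` for large `a`).  So the sets of nodes
`Z_ε = {inl c | Gu (dv c) = ε} ∪ {inr c | Gd (dv c) = ε}` are closed under the steps (for `c` not home,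
`dv c ≠ q`, so `Gu = Gd`); `dv 0 = dv 1 = q`.  `Gu q ≠ Gd q`, so one of them is `1`: `Z_1` is finite, with positions in
`[-2 k, 2 k + 1]` (on the seam `pot A H (a, -a-1) ≠ 0` needs `|a| ≤ k`), and contains exactly the home nodes
`inl 0, inl 1` or exactly `inr 0, inr 1`.  (B) gives a contradiction (the other home node in the component is
different from `ℓ`, and any two different home nodes contradict (A)).
-/

set_option autoImplicit false

namespace Pool.Agent.H89.Link

open H56.EX
open Pool.Agent.H89.Perc (Vert Edge Config src tgt lowFace vsum)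

variable {L n : ℕ}

/-! ### Finite invariant sets of nodes -/

/-! ### The primal arms -/

/-! ### The two arms are not connected -/

end Pool.Agent.H89.Link

end

section

/-!
# LINK module `Star`: the pattern of small arcs, reset by an alternating row

`exists_star`: write down the involution `x ↦ if x % 2 = 0 then x - 1 else x + 1`.
`row_alt`: apply `row_inv` with `T = ℤ`, `bot c = (c + 1) / 2`, `hor c = if c % 2 = 1 then (c + 1) / 2 else C`
and `top = C` constant (`C` any constant, e.g. `C = 0` and colours in `Option ℤ`): so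
`bot ((row t P).m x) = bot x`, hence `(row t P).m x ∈ {x, x + 1}` for odd `x` and `∈ {x - 1, x}` for even `x`,
and `(row t P).m x ≠ x` (`Pat.ne`).  Conclude with `Pat.ext`.
-/

set_option autoImplicit false

namespace Pool.Agent.H89.Link

open H56.EX

variable {L : ℕ}

end Pool.Agent.H89.Link

end

section

/-!
# LINK module `Law`: the law of the two patterns, and its limit

`pr_up_dn`: for `L = 2 n`, the bits `tB (per n ω) c r`, `0 ≤ c < L`, `-h ≤ r < h`, are the values of `ω`
(or their negations) at pairwise different edges: `per n ω (medge c r) = ω (medge' c r)` with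
`medge' c r = (e.1 % n, e.2.1 + (e.1 - e.1 % n), e.2.2)`, `e = medge c r`; the map `(c, r) ↦ medge' c r` is
injective on `0 ≤ c < 2 n` (`e.1 + e.2.1 = r` and the orientation and `e.1 - e.2.1` determine `c` modulo `2 n`).
So they are independent fair bits (`Pr half`, product measure), and the same holds for the reflected and
flipped bits of the lower half.  Then induction over the rows (the row next to the seam is applied last;
peel it off).  A convenient formulation: the probability of a set of bit arrays is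
(number of arrays) / 2 ^ (2 h L); see `Pool.Agent.H89.Perc.Prob` for cylinder probabilities.
`law_tendsto`: the kernel `K P Q = 2 ^ (-L) #{t | row (bits t) P = Q}` satisfies `K P s ≥ 2 ^ (-L)` for all `P`
by `row_alt`.  For a signed/complex vector `w` with sum zero, `‖K w‖₁ ≤ (1 - 2 ^ (-L)) ‖w‖₁`.  Apply it to
`w = law s h - v / ∑ v` (`law s h` has sum one, is the `h`-th iterate, and `v` is fixed by `Stat v`).
-/

set_option autoImplicit false

open MeasureTheory ProbabilityTheory Filter Topology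

namespace Pool.Agent.H89.Link

open H56.EX
open Pool.Agent.H89.Perc (Vert Edge Config Pr half)

variable {L n : ℕ}

/-! ### Fair bits -/

open Pool.Agent.H89.Perc (LocalOn ofS ofS_apply Pr_eq_Ex)
open Pool.Agent.Perc (Ex ind ind_of ind_of_not ind_congr)

/-! ### Patterns of arrays of bits -/

/-! ### The edges -/

/-! ### Convergence -/

end Pool.Agent.H89.Link

end

section

/-!
# LINK module `One`: one arm

`arm_of_noSurr`.  Suppose `per n ω ∉ Arm 0 k`.  Let `C` be the set of vertices joined to `0` inside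
`ball 0 k`; it is finite, contains `0` and no point of `sphere 0 k`, hence its indicator `F` is constant along
all open edges of `per n ω` (a neighbour of a point of the ball which is not on the sphere is in the ball).
By `up_primal`, `dn_primal` the finite set `X = {c | pv c ∈ C}` is invariant under both involutions.
`pv c = (j, -j)` with `j = (c + 1) / 2`: the columns `2 j - 1, 2 j`.  So
`#{c ∈ X | 0 ≤ c} = 1 + 2 #{j ≥ 1 | (j, -j) ∈ C}` is odd, which contradicts `NoSurr`.

`noSurr_of_path`.  `exists_pathSum` and `exists_halfSum` give `A : Edge → ZMod 2` supported on open edges of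
`per n ω` in the strip, with `0` the only vertex of odd degree; `G = pot A H`.  By `pot_odd`
`Gu f = G f` satisfies `Gu (lowFace e) = Gu (src e)` for all closed edges `e` in rows `≥ 0` (there
`e.1 = 0 ∧ e.2.1 < 0` is impossible), and `Gd f = G f + (if 0 ≤ f.1 then 1 else 0)` satisfies the same for closed
edges in rows `< 0` (check: only `e = (0, b, true)` has `lowFace e`, `src e` on different sides of `f.1 = 0`, and
in the rows `< 0` it has `b < 0`).  Top level `h ≥ H`: `Gu = 0` (`pot_top`).  Bottom level `-h ≤ -H`: `Gd` is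
constant: for `f.1 + f.2 + 1 = -h` moving from `(a, b)` to `(a + 1, b - 1)` crosses edges of rows `< -H` (or
`≤ -H`), where `A = 0`, so `Gd` does not change; (equivalently `Gd (a, b) = Gd (a+1, b-1)` for all `a`, then
integer induction).  Hence `up_dual`, `dn_dual`: with `hu c = Gu (dv c)`, `hd c = Gd (dv c)`:
`hu ((up ..).m c) = hu c`, `hd ((dn ..).m c) = hd c`, and `hu c + hd c = if 0 ≤ c then 1 else 0`
(`(dv c).1 = c / 2 ≥ 0 ↔ c ≥ 0`).  For an invariant finite set `X`: `∑_{c ∈ X} hu c = 0` in `ZMod 2` (a fixed point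
free involution of `X` preserves `hu`; `Finset.sum_involution`), same for `hd`; so `#{c ∈ X | 0 ≤ c}` is even.
-/

set_option autoImplicit false

namespace Pool.Agent.H89.Link

open H56.EX
open Pool.Agent.H89.Perc (Vert Edge Config src tgt lowFace vsum)

variable {L n : ℕ}

end Pool.Agent.H89.Link

end

section

/-!
# LINK module `Final`

Let `h → ∞` through even numbers in `pr_up_dn` with `A` = the event in question, use `law_tendsto`.
-/

set_option autoImplicit false

open MeasureTheory ProbabilityTheory Filter Topology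

namespace Pool.Agent.H89.Link

open H56.EX
open Pool.Agent.H89.Perc (Vert Edge Config Pr half)

variable {L n : ℕ}

end Pool.Agent.H89.Link

end

section

/-! Topological lemmas on insertions of small arcs (EXACT project). -/

namespace Pool.Agent.H14.EX

open H56.EX

variable {L : ℕ}

end Pool.Agent.H14.EX

end

section

/-!
# Interface for the construction of the polynomial qKZ solution

`PsiPre Ψ` collects the properties of `Ψ` which are obtained directly from the construction; the arc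
recursion (`arc_zero`, `arc` of `PsiProps`) is derived from `PsiPre` and the triangularity lemma.
-/

namespace Pool.Agent.H12.QKZ

open H56.EX

end Pool.Agent.H12.QKZ

end

section

/-! Arc recursion of the polynomial qKZ solution (EXACT project): `arc_zero_of`, `arc_of`. -/

namespace Pool.Agent.H14.EX

open H56.EX Pool.Agent.H12.QKZ

variable {L : ℕ}

/-! ### Push-forwards -/

/-! ### `arc_zero` -/

/-! ### Insertion of the parameters `q² w, w` -/

/-! ### The inserted vector -/

/-! ### Products over a period -/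

/-! ### Generic parameters -/

end Pool.Agent.H14.EX

end

section

/-!
# The base component
-/

namespace Pool.Agent.H12.QKZ

open H56.EX MvPolynomial

end Pool.Agent.H12.QKZ

end

section

/-!
# The total length of the arcs of a link pattern
-/

namespace Pool.Agent.H12.QKZ

open H56.EX

variable {L : ℕ}

end Pool.Agent.H12.QKZ

end

section

/-!
# Good positions of a link pattern and the fibres of `e_i`
-/

namespace Pool.Agent.H12.QKZ

open H56.EX

variable {L : ℕ}

end Pool.Agent.H12.QKZ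

end

section

/-! Arc recursion of the leg sums. -/

namespace H56.EX

open scoped BigOperators Classical

variable {Lt Lb L : ℕ}

/-- inverse rotation -/
def unrot (P : Pat L) : Pat L where
  m := fun x => P.m (x + 1) - 1
  inv := fun x => by simp [P.inv]
  per := fun x => by
    show P.m (x + L + 1) - 1 = P.m (x + 1) - 1 + L
    rw [show x + (L : ℤ) + 1 = x + 1 + L by ring, P.per]; ring
  ne := fun x h => P.ne (x + 1) (by linarith)
  short := fun x => by
    have := P.short (x + 1)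
    have e : P.m (x + 1) - 1 - x = P.m (x + 1) - (x + 1) := by ring
    show |P.m (x + 1) - 1 - x| < L
    rwa [e]
  nc := fun x y h1 h2 => by
    have := P.nc (x + 1) (y + 1) (by linarith) (by linarith)
    exact ⟨by linarith [this.1], by linarith [this.2]⟩

/-- rotation as a bijection -/
def rotEquiv (L : ℕ) : Pat L ≃ Pat L where
  toFun := rot
  invFun := unrot
  left_inv := fun P => by
    apply Pat.ext; funext x
    show P.m (x + 1 - 1) + 1 - 1 = P.m x
    rw [show x + 1 - 1 = x by ring]; ring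
  right_inv := fun P => by
    apply Pat.ext; funext x
    show P.m (x - 1 + 1) - 1 + 1 = P.m x
    rw [show x - 1 + 1 = x by ring]; ring

/-- the scalar of the arc recursion -/
noncomputable def gfac (L : ℕ) (i : ℤ) (ζ : ℤ → ℂ) : ℂ :=
  -q * ζ (i + 1) * (∏ s ∈ Finset.range L, (ζ (i + 2 + s) - q * ζ (i + 1)) ^ 2) / 3 ^ L

/-- a sum over `Pat (L+2)` of a function supported on patterns with a small arc at `i`. -/
lemma sum_arc (hL : 2 ≤ L) (i : ℤ) (f : Pat (L + 2) → ℂ) (hf : ∀ P, P.m i ≠ i + 1 → f P = 0) :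
    ∑ P, f P = ∑ Q : Pat L, f (ins i Q) := by
  rw [← Finset.sum_image (s := Finset.univ) (g := ins (L := L) i)
    (fun a _ b _ h => ins_injective i h)]
  symm
  apply Finset.sum_subset (Finset.subset_univ _)
  intro P _ hP
  apply hf
  intro h
  obtain ⟨Q, hQ⟩ := exists_ins hL i P h
  exact hP (Finset.mem_image.2 ⟨Q, Finset.mem_univ _, hQ.symm⟩)

section psi

variable {Ψ : ∀ L : ℕ, Pat L → (ℤ → ℂ) → ℂ} (hΨ : PsiProps Ψ)

include hΨ

/-- right recursion: the last top leg becomes a bottom leg -/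
theorem rec_right (kt kb M : ℕ)
    (LT3 : ∀ (Pt : Pat Lt) (Pb : Pat Lb),
      Leg (kt + 1) kb (M + 1) (ins kt Pt) Pb ↔ Leg kt (kb + 1) M Pt Pb)
    (hL : 2 ≤ Lt) (ζ : ℤ → ℂ) (hζ : Per (Lt + 2) ζ) (h : ζ kt = q ^ 2 * ζ (kt + 1))
    (w : Pat Lb → ℂ) :
    legSum (kt + 1) kb (M + 1) (fun P : Pat (Lt + 2) => Ψ (Lt + 2) P ζ) w =
      gfac Lt kt ζ * legSum kt (kb + 1) M
        (fun P : Pat Lt => Ψ Lt P (fun x => ζ (phi Lt kt x))) w := by
  rw [legSum_eq, legSum_eq, sum_arc hL kt]
  · rw [Finset.mul_sum]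
    refine Finset.sum_congr rfl fun Q _ => ?_
    rw [Finset.mul_sum]
    refine Finset.sum_congr rfl fun Pb _ => ?_
    rw [hΨ.arc Lt Q ζ hζ kt h]
    have : chi (kt + 1) kb (M + 1) (ins (kt : ℤ) Q) Pb = chi kt (kb + 1) M Q Pb := by
      unfold chi; simp only [LT3]
    rw [this]
    unfold gfac
    ring
  · intro P hP
    apply Finset.sum_eq_zero
    intro Pb _
    rw [hΨ.arc_zero (Lt + 2) P ζ hζ kt h hP]
    ring

/-- left recursion: the first top leg becomes a bottom leg (bottom rotated) -/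
theorem rec_left (kt kb M : ℕ)
    (LT4 : ∀ (Pt : Pat Lt) (Pb : Pat Lb),
      Leg (kt + 1) kb (M + 1) (ins (-1) Pt) Pb ↔ Leg kt (kb + 1) M (rot Pt) (rot Pb))
    (hL : 2 ≤ Lt) (ζ ξ : ℤ → ℂ) (hζ : Per (Lt + 2) ζ) (hξ : Per Lb ξ)
    (h : ζ (-1) = q ^ 2 * ζ 0) :
    legSum (kt + 1) kb (M + 1) (fun P : Pat (Lt + 2) => Ψ (Lt + 2) P ζ)
        (fun P : Pat Lb => Ψ Lb P ξ) =
      gfac Lt (-1) ζ * legSum kt (kb + 1) M
        (fun P : Pat Lt => Ψ Lt P (fun x => ζ (phi Lt (-1) (x - 1))))
        (fun P : Pat Lb => Ψ Lb P (fun x => ξ (x - 1))) := by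
  have hper : Per Lt (fun x => ζ (phi Lt (-1) x)) := by
    intro x
    show ζ (phi Lt (-1) (x + Lt)) = ζ (phi Lt (-1) x)
    rw [phi_add_L (by omega)]
    have := hζ (phi Lt (-1) x)
    push_cast at this
    exact this
  have h' : ζ (-1) = q ^ 2 * ζ (-1 + 1) := by simpa using h
  rw [legSum_eq, legSum_eq, sum_arc hL (-1)]
  · have hR : (∑ Pt : Pat Lt, ∑ Pb : Pat Lb, chi kt (kb + 1) M Pt Pb *
        (Ψ Lt Pt (fun x => ζ (phi Lt (-1) (x - 1))) * Ψ Lb Pb (fun x => ξ (x - 1)))) =
        ∑ Q : Pat Lt, ∑ Pb : Pat Lb, chi kt (kb + 1) M ((rotEquiv Lt) Q) ((rotEquiv Lb) Pb) *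
        (Ψ Lt ((rotEquiv Lt) Q) (fun x => ζ (phi Lt (-1) (x - 1))) *
          Ψ Lb ((rotEquiv Lb) Pb) (fun x => ξ (x - 1))) := by
      rw [← Equiv.sum_comp (rotEquiv Lt)]
      refine Finset.sum_congr rfl fun Q _ => ?_
      rw [← Equiv.sum_comp (rotEquiv Lb)]
    rw [hR, Finset.mul_sum]
    refine Finset.sum_congr rfl fun Q _ => ?_
    rw [Finset.mul_sum]
    refine Finset.sum_congr rfl fun Pb _ => ?_
    rw [hΨ.arc Lt Q ζ hζ (-1) h']
    have e1 : chi (kt + 1) kb (M + 1) (ins (-1) Q) Pb =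
        chi kt (kb + 1) M ((rotEquiv Lt) Q) ((rotEquiv Lb) Pb) := by
      unfold chi; simp only [LT4]; rfl
    have e2 : Ψ Lt ((rotEquiv Lt) Q) (fun x => ζ (phi Lt (-1) (x - 1))) =
        Ψ Lt Q (fun x => ζ (phi Lt (-1) x)) :=
      hΨ.rot Lt Q (fun x => ζ (phi Lt (-1) x)) hper
    have e3 : Ψ Lb ((rotEquiv Lb) Pb) (fun x => ξ (x - 1)) = Ψ Lb Pb ξ := hΨ.rot Lb Pb ξ hξ
    rw [e1, e2, e3]
    unfold gfac
    ring
  · intro P hP
    apply Finset.sum_eq_zero
    intro Pb _
    rw [hΨ.arc_zero (Lt + 2) P ζ hζ (-1) h' hP]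
    ring

end psi

/-! ### parameters -/

lemma per_par (L : ℕ) (s : ℕ → ℂ) : Per L (par L s) := by
  intro x
  unfold par
  rw [Int.add_emod_right]

lemma par_of {L : ℕ} (s : ℕ → ℂ) {x : ℤ} {n : ℕ} (h : n < L) (hx : Cg L x n) :
    par L s x = s n := by
  rw [← par_nat s h]
  unfold par
  congr 2
  exact (Int.modEq_iff_dvd.2 hx : (n : ℤ) ≡ x [ZMOD L]).symm

end H56.EX

end

section

/-! Manipulation of the parameter sequences; exchange, recursion and polynomiality of `F22`, `F13`. -/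

namespace H56.EX

open scoped BigOperators Classical

lemma par_eq_emod (L : ℕ) (hL : 0 < L) (s : ℕ → ℂ) (x : ℤ) :
    ∃ n : ℕ, n < L ∧ Cg L x n ∧ par L s x = s n := by
  have h0 : 0 ≤ x % (L : ℤ) := Int.emod_nonneg _ (by omega)
  have h1 : x % (L : ℤ) < L := Int.emod_lt_of_pos _ (by omega)
  refine ⟨(x % (L : ℤ)).toNat, by omega, ?_, rfl⟩
  unfold Cg
  rw [Int.toNat_of_nonneg h0]
  exact Int.dvd_self_sub_emod

lemma swp_par {L : ℕ} (s : ℕ → ℂ) {n : ℕ} (hn : n + 1 < L) :
    swp L n (par L s) = par L (s ∘ Equiv.swap n (n + 1)) := by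
  funext x
  unfold swp
  by_cases h1 : Cg L x n
  · rw [if_pos h1, par_of (s ∘ Equiv.swap n (n + 1)) (by omega) h1,
      par_of s hn (n := n + 1) (by push_cast; exact Cg.add 1 h1)]
    simp
  rw [if_neg h1]
  by_cases h2 : Cg L x (n + 1)
  · rw [if_pos h2, par_of (s ∘ Equiv.swap n (n + 1)) hn (n := n + 1) (by push_cast; exact h2),
      par_of s (n := n) (by omega) (by have := Cg.sub 1 h2; simpa using this)]
    simp
  rw [if_neg h2]
  obtain ⟨m, hm, hc, he⟩ := par_eq_emod L (by omega) s x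
  rw [he, par_of _ hm hc]
  have hm1 : m ≠ n := by rintro rfl; exact h1 hc
  have hm2 : m ≠ n + 1 := by
    rintro rfl
    apply h2
    push_cast at hc
    exact hc
  simp [Equiv.swap_apply_of_ne_of_ne hm1 hm2]

lemma upd_par {L : ℕ} (s : ℕ → ℂ) {n : ℕ} (hn : n < L) (t : ℂ) :
    upd L (par L s) n t = par L (Function.update s n t) := by
  funext x
  unfold upd
  by_cases h1 : Cg L x n
  · rw [if_pos h1, par_of _ hn h1]; simp
  rw [if_neg h1]
  obtain ⟨m, hm, hc, he⟩ := par_eq_emod L (by omega) s x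
  rw [he, par_of _ hm hc]
  have hm1 : m ≠ n := by rintro rfl; exact h1 hc
  simp [hm1]

/-- removing two strands at `k, k+1` -/
lemma phi_par {L : ℕ} (hL : 1 ≤ L) (s : ℕ → ℂ) (k : ℕ) (hk : k ≤ L) :
    (fun x => par (L + 2) s (phi L k x)) = par L (fun n => if n < k then s n else s (n + 2)) := by
  funext x
  obtain ⟨m, hm, hc, he⟩ := par_eq_emod L (by omega) (fun n => if n < k then s n else s (n + 2)) x
  rw [he]
  obtain ⟨a, ha⟩ := hc
  have hx : x = m + L * a := by linarith only [ha]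
  by_cases h : m < k
  · simp only [h, if_true]
    apply par_of s (by omega)
    have e : x = k + ((m : ℤ) - k + L) + L * (a - 1) := by rw [hx]; ring
    rw [e, phi_form hL _ _ _ (by omega) (by omega)]
    unfold Cg
    push_cast
    refine ⟨a, by ring⟩
  · simp only [h, if_false]
    apply par_of s (by omega)
    have e : x = k + ((m : ℤ) - k) + L * a := by rw [hx]; ring
    rw [e, phi_form hL _ _ _ (by omega) (by omega)]
    unfold Cg
    push_cast
    refine ⟨a, by ring⟩

/-- removing the strands `-1, 0` and rotating -/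
lemma phi_par_left {L : ℕ} (hL : 1 ≤ L) (s : ℕ → ℂ) :
    (fun x => par (L + 2) s (phi L (-1) (x - 1))) = par L (fun n => s (n + 1)) := by
  funext x
  obtain ⟨m, hm, hc, he⟩ := par_eq_emod L (by omega) (fun n => s (n + 1)) x
  rw [he]
  obtain ⟨a, ha⟩ := hc
  have hx : x = m + L * a := by linarith only [ha]
  apply par_of s (by omega)
  have e : x - 1 = -1 + (m : ℤ) + L * a := by rw [hx]; ring
  rw [e, phi_form hL _ _ _ (by omega) (by omega)]
  unfold Cg
  push_cast
  refine ⟨a, by ring⟩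

/-- rotating the parameters -/
lemma rot_par {L : ℕ} (hL : 1 ≤ L) (s : ℕ → ℂ) :
    (fun x => par L s (x - 1)) = par L (scons (s (L - 1)) s) := by
  funext x
  obtain ⟨m, hm, hc, he⟩ := par_eq_emod L (by omega) (scons (s (L - 1)) s) x
  rw [he]
  rcases m with _ | m
  · show par L s (x - 1) = s (L - 1)
    apply par_of s (by omega)
    unfold Cg at hc ⊢
    obtain ⟨a, ha⟩ := hc
    refine ⟨a - 1, ?_⟩
    have : ((L - 1 : ℕ) : ℤ) = L - 1 := by omega
    rw [this]
    push_cast at ha
    linear_combination ha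
  · show par L s (x - 1) = s m
    apply par_of s (by omega)
    have := Cg.sub 1 hc
    simpa using this

lemma scons_swap01 (a0 a1 : ℂ) (z : ℕ → ℂ) :
    (scons a0 (scons a1 z)) ∘ Equiv.swap 0 1 = scons a1 (scons a0 z) := by
  funext n
  rcases n with _ | _ | n
  · simp [scons]
  · simp [scons]
  · have : Equiv.swap 0 1 (n + 2) = n + 2 := Equiv.swap_apply_of_ne_of_ne (by omega) (by omega)
    simp [this, scons]

lemma scons_swap_succ (a : ℂ) (z : ℕ → ℂ) (n : ℕ) :
    (scons a z) ∘ Equiv.swap (n + 1) (n + 2) = scons a (z ∘ Equiv.swap n (n + 1)) := by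
  funext m
  rcases m with _ | m
  · have : Equiv.swap (n + 1) (n + 2) 0 = 0 := Equiv.swap_apply_of_ne_of_ne (by omega) (by omega)
    simp [this, scons]
  · by_cases h1 : m = n
    · subst h1; simp [scons]
    by_cases h2 : m = n + 1
    · subst h2; simp [scons]
    have e1 : Equiv.swap (n + 1) (n + 2) (m + 1) = m + 1 :=
      Equiv.swap_apply_of_ne_of_ne (by omega) (by omega)
    have e2 : Equiv.swap n (n + 1) m = m := Equiv.swap_apply_of_ne_of_ne h1 h2
    simp [e1, e2, scons]

section psi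

variable {Ψ : ∀ L : ℕ, Pat L → (ℤ → ℂ) → ℂ} (hΨ : PsiProps Ψ)

include hΨ

theorem F22_swap_a (M : ℕ) (a0 a1 b0 b1 : ℂ) (z : ℕ → ℂ) :
    (q * a1 - q⁻¹ * a0) * F22 Ψ M a1 a0 b0 b1 z = (q * a0 - q⁻¹ * a1) * F22 Ψ M a0 a1 b0 b1 z := by
  have h := exch_hole_top hΨ 2 2 M 0 (by omega) (par (M + 2) (scons a0 (scons a1 z)))
    (per_par _ _) (fun P : Pat (M + 2) => Ψ (M + 2) P
      (par (M + 2) (scons b0⁻¹ (scons b1⁻¹ (fun n => (z n)⁻¹)))))
  rw [swp_par _ (by omega), scons_swap01] at h
  have e0 : par (M + 2) (scons a0 (scons a1 z)) ((0 : ℕ) : ℤ) = a0 := par_nat _ (by omega)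
  have e1 : par (M + 2) (scons a0 (scons a1 z)) (((0 : ℕ) : ℤ) + 1) = a1 := by
    have : (((0 : ℕ) : ℤ) + 1) = ((1 : ℕ) : ℤ) := by norm_num
    rw [this]; exact par_nat _ (by omega)
  rw [e0, e1] at h
  exact h

theorem F13_swap_b01 (M : ℕ) (a b0 b1 b2 : ℂ) (z : ℕ → ℂ) :
    (q * b1⁻¹ - q⁻¹ * b0⁻¹) * F13 Ψ M a b1 b0 b2 z =
      (q * b0⁻¹ - q⁻¹ * b1⁻¹) * F13 Ψ M a b0 b1 b2 z := by
  have h := exch_hole_bot hΨ 1 3 M 0 (by omega)
    (par (M + 3) (scons b0⁻¹ (scons b1⁻¹ (scons b2⁻¹ (fun n => (z n)⁻¹)))))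
    (per_par _ _) (fun P : Pat (M + 1) => Ψ (M + 1) P (par (M + 1) (scons a z)))
  rw [swp_par _ (by omega), scons_swap01] at h
  have e0 : par (M + 3) (scons b0⁻¹ (scons b1⁻¹ (scons b2⁻¹ (fun n => (z n)⁻¹))))
      ((0 : ℕ) : ℤ) = b0⁻¹ := par_nat _ (by omega)
  have e1 : par (M + 3) (scons b0⁻¹ (scons b1⁻¹ (scons b2⁻¹ (fun n => (z n)⁻¹))))
      (((0 : ℕ) : ℤ) + 1) = b1⁻¹ := by
    have : (((0 : ℕ) : ℤ) + 1) = ((1 : ℕ) : ℤ) := by norm_num
    rw [this]; exact par_nat _ (by omega)
  rw [e0, e1] at h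
  exact h

theorem F13_swap_b12 (M : ℕ) (a b0 b1 b2 : ℂ) (z : ℕ → ℂ) :
    (q * b2⁻¹ - q⁻¹ * b1⁻¹) * F13 Ψ M a b0 b2 b1 z =
      (q * b1⁻¹ - q⁻¹ * b2⁻¹) * F13 Ψ M a b0 b1 b2 z := by
  have h := exch_hole_bot hΨ 1 3 M 1 (by omega)
    (par (M + 3) (scons b0⁻¹ (scons b1⁻¹ (scons b2⁻¹ (fun n => (z n)⁻¹)))))
    (per_par _ _) (fun P : Pat (M + 1) => Ψ (M + 1) P (par (M + 1) (scons a z)))
  rw [swp_par _ (by omega), scons_swap_succ b0⁻¹ _ 0, scons_swap01] at h
  have e0 : par (M + 3) (scons b0⁻¹ (scons b1⁻¹ (scons b2⁻¹ (fun n => (z n)⁻¹))))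
      ((1 : ℕ) : ℤ) = b1⁻¹ := par_nat _ (by omega)
  have e1 : par (M + 3) (scons b0⁻¹ (scons b1⁻¹ (scons b2⁻¹ (fun n => (z n)⁻¹))))
      (((1 : ℕ) : ℤ) + 1) = b2⁻¹ := by
    have : (((1 : ℕ) : ℤ) + 1) = ((2 : ℕ) : ℤ) := by norm_num
    rw [this]; exact par_nat _ (by omega)
  rw [e0, e1] at h
  exact h

end psi

end H56.EX

end

section

/-!
# LT1: the Temperley–Lieb generator can be moved from the top pattern to the bottom pattern
at glued strands, without changing the leg class.
-/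

namespace H56.EX

open Relation

variable {Lt Lb : ℕ}

lemma leg_swap_of {kt kb M : ℕ} {Pt : Pat Lt} {Pb : Pat Lb} (h : Leg kt kb M Pt Pb) :
    Leg kb kt M Pb Pt := by
  intro u v a b hc
  have h1 := conn_swap hc
  have e : ∀ (w : Fin kb ⊕ Fin kt) (c : ℤ), (hpos Lb Lt kb kt w c).swap =
      hpos Lt Lb kt kb w.swap c := by
    intro w c
    rcases w with w | w <;> rfl
  rw [e, e] at h1
  rcases h _ _ _ _ h1 with ⟨h2, h3⟩ | h2
  · left
    refine ⟨?_, h3⟩
    have := congrArg Sum.swap h2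
    rwa [Sum.swap_swap, Sum.swap_swap] at this
  · right; exact h2

section vmap

variable (kt kb : ℕ) (Pb : Pat Lb) (j : ℕ)

open Classical in
/-- images of the four special vertices -/
noncomputable def gv (y : ℤ) : ℤ ⊕ ℤ :=
  if Cg Lb (Pb.m (kb + j)) (kb + j + 1) then Sum.inl 0 else Sum.inr (Pb.m y)

open Classical in
/-- vertex map -/
noncomputable def vmap (Lt : ℕ) : ℤ ⊕ ℤ → ℤ ⊕ ℤ
  | Sum.inl x =>
    if Cg Lt x (kt + j) then gv kb Pb j (kb + j + Lb * ((x - (kt + j)) / Lt))
    else if Cg Lt x (kt + j + 1) then gv kb Pb j (kb + j + 1 + Lb * ((x - (kt + j + 1)) / Lt))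
    else Sum.inl x
  | Sum.inr y =>
    if Cg Lb y (kb + j) ∨ Cg Lb y (kb + j + 1) then gv kb Pb j y else Sum.inr y

lemma vmap_top0 (hL : 2 ≤ Lt) (a : ℤ) :
    vmap kt kb Pb j Lt (Sum.inl (kt + j + Lt * a)) = gv kb Pb j (kb + j + Lb * a) := by
  have h : Cg Lt ((kt : ℤ) + j + Lt * a) (kt + j) := by
    unfold Cg; rw [show (kt : ℤ) + j + Lt * a - (kt + j) = Lt * a by ring]; exact dvd_mul_right _ _
  have h2 : ((kt : ℤ) + j + Lt * a - (kt + j)) / Lt = a := by
    rw [show (kt : ℤ) + j + Lt * a - (kt + j) = Lt * a by ring]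
    exact Int.mul_ediv_cancel_left _ (by omega)
  simp only [vmap, if_pos h, h2]

lemma vmap_top1 (hL : 2 ≤ Lt) (a : ℤ) :
    vmap kt kb Pb j Lt (Sum.inl (kt + j + 1 + Lt * a)) = gv kb Pb j (kb + j + 1 + Lb * a) := by
  have h : Cg Lt ((kt : ℤ) + j + 1 + Lt * a) (kt + j + 1) := by
    unfold Cg
    rw [show (kt : ℤ) + j + 1 + Lt * a - (kt + j + 1) = Lt * a by ring]; exact dvd_mul_right _ _
  have h1 : ¬ Cg Lt ((kt : ℤ) + j + 1 + Lt * a) (kt + j) := by
    intro h'
    exact not_Cg_succ hL (kt + j : ℤ) (Cg.trans' (Cg.symm' h') h)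
  have h2 : ((kt : ℤ) + j + 1 + Lt * a - (kt + j + 1)) / Lt = a := by
    rw [show (kt : ℤ) + j + 1 + Lt * a - (kt + j + 1) = Lt * a by ring]
    exact Int.mul_ediv_cancel_left _ (by omega)
  simp only [vmap, if_pos h, if_neg h1, h2]

lemma vmap_top {x : ℤ} (h0 : ¬ Cg Lt x (kt + j)) (h1 : ¬ Cg Lt x (kt + j + 1)) :
    vmap kt kb Pb j Lt (Sum.inl x) = Sum.inl x := by
  simp only [vmap, if_neg h0, if_neg h1]

lemma vmap_bot_g {y : ℤ} (h : Cg Lb y (kb + j) ∨ Cg Lb y (kb + j + 1)) :
    vmap kt kb Pb j Lt (Sum.inr y) = gv kb Pb j y := by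
  simp only [vmap, if_pos h]

lemma vmap_bot {y : ℤ} (h0 : ¬ Cg Lb y (kb + j)) (h1 : ¬ Cg Lb y (kb + j + 1)) :
    vmap kt kb Pb j Lt (Sum.inr y) = Sum.inr y := by
  have h : ¬ (Cg Lb y (kb + j) ∨ Cg Lb y (kb + j + 1)) := by
    rintro (h | h)
    · exact h0 h
    · exact h1 h
  simp only [vmap, if_neg h]

end vmap

lemma exists_mul_of_Cg {L : ℕ} {x y : ℤ} (h : Cg L x y) : ∃ a, x = y + L * a := by
  obtain ⟨a, ha⟩ := h
  exact ⟨a, by linarith only [ha]⟩

lemma Cg_add_mul {L : ℕ} (y a : ℤ) : Cg L (y + L * a) y := by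
  unfold Cg
  rw [show y + L * a - y = L * a by ring]
  exact dvd_mul_right _ _

/-- the images of two neighbouring special vertices are connected -/
lemma gv_conn (kt kb M : ℕ) (Pt : Pat Lt) (Pb : Pat Lb) (j : ℕ) (a : ℤ) :
    Conn kt kb M Pt (E (kb + j) Pb) (gv kb Pb j (kb + j + Lb * a))
      (gv kb Pb j (kb + j + 1 + Lb * a)) := by
  by_cases hd : Cg Lb (Pb.m (kb + j)) (kb + j + 1)
  · simp only [gv, if_pos hd]
    exact EqvGen.refl _
  · simp only [gv, if_neg hd]
    have hL := Pb.two_le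
    have h0 : Cg Lb ((kb : ℤ) + j + Lb * a) (kb + j) := Cg_add_mul _ _
    have e1 : ¬ Cg Lb (Pb.m (kb + j + Lb * a)) (kb + j) := by
      intro h
      exact Pb.not_dvd_self (kb + j + Lb * a) (Cg.trans' h (Cg.symm' h0))
    have e2 : ¬ Cg Lb (Pb.m (kb + j + Lb * a)) (kb + j + 1) := by
      intro h
      exact hd (Cg.trans' (Cg.m Pb (Cg.symm' h0)) h)
    have e3 : (E (kb + j) Pb).m (Pb.m (kb + j + Lb * a)) = Pb.m (kb + j + 1 + Lb * a) := by
      rw [E.of_m Pb (kb + j) e1 e2 (by rw [Pb.inv]; exact h0), Pb.inv]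
      congr 1; ring
    rw [← e3]
    exact EqvGen.rel _ _ (Step.bot _)

lemma step_map (kt kb M : ℕ) (hLt : Lt = kt + M) (hLb : Lb = kb + M) (Pt : Pat Lt) (Pb : Pat Lb)
    (j : ℕ) (hj : j + 1 < M) {x y : ℤ ⊕ ℤ} (h : Step kt kb M (E (kt + j) Pt) Pb x y) :
    Conn kt kb M Pt (E (kb + j) Pb) (vmap kt kb Pb j Lt x) (vmap kt kb Pb j Lt y) := by
  have hLt2 := Pt.two_le
  have hLb2 := Pb.two_le
  have hrel : ∀ {u v : ℤ ⊕ ℤ}, Step kt kb M Pt (E (kb + j) Pb) u v →
      Conn kt kb M Pt (E (kb + j) Pb) u v := fun h => EqvGen.rel _ _ h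
  have htr : ∀ {u v w : ℤ ⊕ ℤ}, Conn kt kb M Pt (E (kb + j) Pb) u v →
      Conn kt kb M Pt (E (kb + j) Pb) v w → Conn kt kb M Pt (E (kb + j) Pb) u w :=
    fun h h' => EqvGen.trans _ _ _ h h'
  have hsy : ∀ {u v : ℤ ⊕ ℤ}, Conn kt kb M Pt (E (kb + j) Pb) u v →
      Conn kt kb M Pt (E (kb + j) Pb) v u := fun h => EqvGen.symm _ _ h
  have hrf : ∀ (u : ℤ ⊕ ℤ), Conn kt kb M Pt (E (kb + j) Pb) u u := fun u => EqvGen.refl u
  -- the two glued strands `j`, `j+1` on sheet `a` and the small arc at the bottom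
  have hmid : ∀ a : ℤ, Conn kt kb M Pt (E (kb + j) Pb) (Sum.inl (kt + j + Lt * a))
      (Sum.inl (kt + j + 1 + Lt * a)) := by
    intro a
    have g1 := hrel (Step.glue (Pt := Pt) (Pb := E (kb + j) Pb) (kt := kt) (kb := kb) a j
      (by omega))
    have g2 := hrel (Step.glue (Pt := Pt) (Pb := E (kb + j) Pb) (kt := kt) (kb := kb) a (j + 1)
      (by omega))
    have g3 := hrel (Step.bot (kt := kt) (kb := kb) (M := M) (Pt := Pt) (Pb := E (kb + j) Pb)
      (kb + j + Lb * a))
    rw [E.of_i Pb (kb + j) (Cg_add_mul _ _)] at g3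
    push_cast at g2
    rw [show (kt : ℤ) + (j + 1) + Lt * a = kt + j + 1 + Lt * a by ring,
      show (kb : ℤ) + (j + 1) + Lb * a = kb + j + Lb * a + 1 by ring] at g2
    exact htr g1 (htr g3 (hsy g2))
  cases h with
  | top x =>
    rcases tl_cases ((kt : ℤ) + j) hLt2 Pt.m x with ⟨h, e⟩ | ⟨h, e⟩ | ⟨h1, h2, h3, e⟩ |
      ⟨h1, h2, h3, e⟩ | ⟨h1, h2, h3, h4, e⟩
    · -- x ≡ i
      have e' : (E (kt + j) Pt).m x = x + 1 := e
      rw [e']
      obtain ⟨a, ha⟩ := exists_mul_of_Cg h
      have hx1 : x + 1 = kt + j + 1 + Lt * a := by rw [ha]; ring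
      rw [hx1, ha, vmap_top0 kt kb Pb j hLt2 a, vmap_top1 kt kb Pb j hLt2 a]
      exact gv_conn kt kb M Pt Pb j a
    · have e' : (E (kt + j) Pt).m x = x - 1 := e
      rw [e']
      obtain ⟨a, ha⟩ := exists_mul_of_Cg h
      have hx1 : x - 1 = kt + j + Lt * a := by rw [ha]; ring
      rw [hx1, ha, vmap_top0 kt kb Pb j hLt2 a, vmap_top1 kt kb Pb j hLt2 a]
      exact hsy (gv_conn kt kb M Pt Pb j a)
    · have e' : (E (kt + j) Pt).m x = Pt.m (Pt.m x + 1) := e
      have hn := E.mem_not Pt (kt + j) h1 h2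
      rw [e'] at hn
      rw [e', vmap_top kt kb Pb j h1 h2, vmap_top kt kb Pb j hn.1 hn.2]
      obtain ⟨a, ha⟩ := exists_mul_of_Cg h3
      have g1 := hrel (Step.top (kt := kt) (kb := kb) (M := M) (Pt := Pt) (Pb := E (kb + j) Pb) x)
      have g3 := hrel (Step.top (kt := kt) (kb := kb) (M := M) (Pt := Pt) (Pb := E (kb + j) Pb)
        (Pt.m x + 1))
      have g2 := hmid a
      rw [← ha] at g2
      have e3 : (kt : ℤ) + j + 1 + Lt * a = Pt.m x + 1 := by rw [ha]; ring
      rw [e3] at g2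
      exact htr g1 (htr g2 g3)
    · have e' : (E (kt + j) Pt).m x = Pt.m (Pt.m x - 1) := e
      have hn := E.mem_not Pt (kt + j) h1 h2
      rw [e'] at hn
      rw [e', vmap_top kt kb Pb j h1 h2, vmap_top kt kb Pb j hn.1 hn.2]
      obtain ⟨a, ha⟩ := exists_mul_of_Cg h3
      have g1 := hrel (Step.top (kt := kt) (kb := kb) (M := M) (Pt := Pt) (Pb := E (kb + j) Pb) x)
      have g3 := hrel (Step.top (kt := kt) (kb := kb) (M := M) (Pt := Pt) (Pb := E (kb + j) Pb)
        (Pt.m x - 1))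
      have g2 := hsy (hmid a)
      rw [← ha] at g2
      have e3 : (kt : ℤ) + j + Lt * a = Pt.m x - 1 := by rw [ha]; ring
      rw [e3] at g2
      exact htr g1 (htr g2 g3)
    · have e' : (E (kt + j) Pt).m x = Pt.m x := e
      rw [e', vmap_top kt kb Pb j h1 h2, vmap_top kt kb Pb j h3 h4]
      exact hrel (Step.top _)
  | bot y =>
    by_cases hd : Cg Lb (Pb.m (kb + j)) (kb + j + 1)
    · -- degenerate case
      have hd' : Cg Lb (Pb.m (kb + j + 1)) (kb + j) := by
        have := Cg.m Pb hd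
        rw [Pb.inv] at this
        exact Cg.symm' this
      by_cases hy0 : Cg Lb y (kb + j)
      · have hy1 : Cg Lb (Pb.m y) (kb + j + 1) := Cg.trans' (Cg.m Pb hy0) hd
        rw [vmap_bot_g kt kb Pb j (Or.inl hy0), vmap_bot_g kt kb Pb j (Or.inr hy1)]
        simp only [gv, if_pos hd]
        exact hrf _
      by_cases hy1 : Cg Lb y (kb + j + 1)
      · have hy2 : Cg Lb (Pb.m y) (kb + j) := Cg.trans' (Cg.m Pb hy1) hd'
        rw [vmap_bot_g kt kb Pb j (Or.inr hy1), vmap_bot_g kt kb Pb j (Or.inl hy2)]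
        simp only [gv, if_pos hd]
        exact hrf _
      have n0 : ¬ Cg Lb (Pb.m y) (kb + j) := by
        intro h
        apply hy1
        have := Cg.m Pb h
        rw [Pb.inv] at this
        exact Cg.trans' this hd
      have n1 : ¬ Cg Lb (Pb.m y) (kb + j + 1) := by
        intro h
        apply hy0
        have := Cg.m Pb h
        rw [Pb.inv] at this
        exact Cg.trans' this hd'
      rw [vmap_bot kt kb Pb j hy0 hy1, vmap_bot kt kb Pb j n0 n1,
        ← E.other Pb (kb + j) hy0 hy1 n0 n1]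
      exact hrel (Step.bot _)
    · have hn0 : ∀ y : ℤ, Cg Lb y (kb + j) →
          ¬ Cg Lb (Pb.m y) (kb + j) ∧ ¬ Cg Lb (Pb.m y) (kb + j + 1) := by
        intro y hy
        constructor
        · intro h
          exact Pb.not_dvd_self y (Cg.trans' h (Cg.symm' hy))
        · intro h
          exact hd (Cg.trans' (Cg.m Pb (Cg.symm' hy)) h)
      have hn1 : ∀ y : ℤ, Cg Lb y (kb + j + 1) →
          ¬ Cg Lb (Pb.m y) (kb + j) ∧ ¬ Cg Lb (Pb.m y) (kb + j + 1) := by
        intro y hy
        constructor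
        · intro h
          apply hd
          have h1 := Cg.m Pb h
          rw [Pb.inv] at h1
          exact Cg.trans' (Cg.symm' h1) hy
        · intro h
          exact Pb.not_dvd_self y (Cg.trans' h (Cg.symm' hy))
      by_cases hy : Cg Lb y (kb + j) ∨ Cg Lb y (kb + j + 1)
      · have hn : ¬ Cg Lb (Pb.m y) (kb + j) ∧ ¬ Cg Lb (Pb.m y) (kb + j + 1) := by
          rcases hy with hy | hy
          · exact hn0 y hy
          · exact hn1 y hy
        rw [vmap_bot_g kt kb Pb j hy, vmap_bot kt kb Pb j hn.1 hn.2]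
        simp only [gv, if_neg hd]
        exact hrf _
      · by_cases hm : Cg Lb (Pb.m y) (kb + j) ∨ Cg Lb (Pb.m y) (kb + j + 1)
        · rw [vmap_bot_g kt kb Pb j hm, vmap_bot kt kb Pb j (fun h => hy (Or.inl h))
            (fun h => hy (Or.inr h))]
          simp only [gv, if_neg hd, Pb.inv]
          exact hrf _
        · rw [vmap_bot kt kb Pb j (fun h => hy (Or.inl h)) (fun h => hy (Or.inr h)),
            vmap_bot kt kb Pb j (fun h => hm (Or.inl h)) (fun h => hm (Or.inr h)),
            ← E.other Pb (kb + j) (fun h => hy (Or.inl h)) (fun h => hy (Or.inr h))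
              (fun h => hm (Or.inl h)) (fun h => hm (Or.inr h))]
          exact hrel (Step.bot _)
  | glue a j' hj' =>
    rcases eq_or_ne j' j with rfl | h0
    · rw [vmap_top0 kt kb Pb j' hLt2 a, vmap_bot_g kt kb Pb j' (Or.inl (Cg_add_mul _ _))]
      exact hrf _
    rcases eq_or_ne j' (j + 1) with rfl | h1
    · push_cast
      rw [show (kt : ℤ) + (j + 1) + Lt * a = kt + j + 1 + Lt * a by ring,
        show (kb : ℤ) + (j + 1) + Lb * a = kb + j + 1 + Lb * a by ring,
        vmap_top1 kt kb Pb j hLt2 a, vmap_bot_g kt kb Pb j (Or.inr (Cg_add_mul _ _))]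
      exact hrf _
    · have key : ∀ (L k : ℕ) (_ : L = k + M) (c : ℕ) (_ : c < M) (_ : j' ≠ c),
          ¬ Cg L ((k : ℤ) + j' + L * a) (k + c) := by
        intro L k hL c hc hne h
        have h' : Cg L ((k : ℤ) + j') (k + c) :=
          Cg.trans' (Cg.symm' (Cg_add_mul _ a)) h
        unfold Cg at h'
        rcases dvd_cases h' with h2 | h2 | h2 <;> omega
      have t0 := key Lt kt hLt j (by omega) h0
      have t1 := key Lt kt hLt (j + 1) hj h1
      have b0 := key Lb kb hLb j (by omega) h0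
      have b1 := key Lb kb hLb (j + 1) hj h1
      push_cast at t1 b1
      rw [← add_assoc] at t1 b1
      rw [vmap_top kt kb Pb j t0 t1, vmap_bot kt kb Pb j b0 b1]
      exact hrel (Step.glue a j' hj')

lemma leg_adj_aux (kt kb M : ℕ) (hLt : Lt = kt + M) (hLb : Lb = kb + M) (Pt : Pat Lt)
    (Pb : Pat Lb) (j : ℕ) (hj : j + 1 < M) (h : Leg kt kb M Pt (E (kb + j) Pb)) :
    Leg kt kb M (E (kt + j) Pt) Pb := by
  have hfix : ∀ (u : Fin kt ⊕ Fin kb) (a : ℤ),
      vmap kt kb Pb j Lt (hpos Lt Lb kt kb u a) = hpos Lt Lb kt kb u a := by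
    intro u a
    have key : ∀ (L k : ℕ) (_ : L = k + M) (c : ℕ) (_ : c < M) (s : Fin k),
        ¬ Cg L (((s : ℕ) : ℤ) + L * a) (k + c) := by
      intro L k hL c hc s h
      have h' : Cg L ((s : ℕ) : ℤ) (k + c) :=
        Cg.trans' (Cg.symm' (Cg_add_mul _ a)) h
      unfold Cg at h'
      have hs := s.isLt
      rcases dvd_cases h' with h2 | h2 | h2 <;> omega
    rcases u with s | s
    · have t0 := key Lt kt hLt j (by omega) s
      have t1 := key Lt kt hLt (j + 1) hj s
      push_cast at t1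
      rw [← add_assoc] at t1
      exact vmap_top kt kb Pb j t0 t1
    · have t0 := key Lb kb hLb j (by omega) s
      have t1 := key Lb kb hLb (j + 1) hj s
      push_cast at t1
      rw [← add_assoc] at t1
      exact vmap_bot kt kb Pb j t0 t1
  intro u v a b hc
  apply h u v a b
  have h1 : Conn kt kb M Pt (E (kb + j) Pb) (vmap kt kb Pb j Lt (hpos Lt Lb kt kb u a))
      (vmap kt kb Pb j Lt (hpos Lt Lb kt kb v b)) :=
    eqvGen_map (vmap kt kb Pb j Lt)
      (fun x y hxy => step_map kt kb M hLt hLb Pt Pb j hj hxy) hc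
  rwa [hfix, hfix] at h1

/-- LT1: `e_i` can be moved from the top pattern to the bottom pattern at glued strands. -/
theorem leg_adj (kt kb M : ℕ) (hLt : Lt = kt + M) (hLb : Lb = kb + M) (Pt : Pat Lt) (Pb : Pat Lb)
    (j : ℕ) (hj : j + 1 < M) :
    Leg kt kb M (E (kt + j) Pt) Pb ↔ Leg kt kb M Pt (E (kb + j) Pb) := by
  constructor
  · intro h
    exact leg_swap_of (leg_adj_aux kb kt M hLb hLt Pb Pt j hj (leg_swap_of h))
  · exact leg_adj_aux kt kb M hLt hLb Pt Pb j hj

end H56.EX

end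

section

/-! Topology lemma LT4 of the EXACT project: a small arc between the last glued strand
(position `-1`) and the first hole end (position `0`) of the top pattern. -/

namespace H56.EX

variable {Lt Lb : ℕ}

lemma LT4_conn_map {kt kb M kt' kb' M' Lt Lb Lt' Lb' : ℕ} {Pt : Pat Lt} {Pb : Pat Lb}
    {Pt' : Pat Lt'} {Pb' : Pat Lb'} (f : ℤ ⊕ ℤ → ℤ ⊕ ℤ)
    (h : ∀ p r, Step kt kb M Pt Pb p r → Conn kt' kb' M' Pt' Pb' (f p) (f r)) {p r : ℤ ⊕ ℤ}
    (hc : Conn kt kb M Pt Pb p r) : Conn kt' kb' M' Pt' Pb' (f p) (f r) := by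
  unfold Conn at hc ⊢
  induction hc with
  | rel _ _ h1 => exact h _ _ h1
  | refl _ => exact Relation.EqvGen.refl _
  | symm _ _ _ ih => exact Relation.EqvGen.symm _ _ ih
  | trans _ _ _ _ _ ih1 ih2 => exact Relation.EqvGen.trans _ _ _ ih1 ih2

/-- new positions to old positions -/
def LT4_down (Lt : ℕ) : ℤ ⊕ ℤ → ℤ ⊕ ℤ
  | Sum.inl x => Sum.inl (phi Lt (-1) (x - 1))
  | Sum.inr y => Sum.inr (y - 1)

/-- old positions to new positions -/
def LT4_up (Lt Lb : ℕ) : ℤ ⊕ ℤ → ℤ ⊕ ℤ
  | Sum.inl x => if Cg (Lt + 2) x (-1) ∨ Cg (Lt + 2) x (-1 + 1) then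
      Sum.inr (Lb * ((x + 1) / ((Lt : ℤ) + 2))) else Sum.inl (psi Lt (-1) x + 1)
  | Sum.inr y => Sum.inr (y + 1)

lemma LT4_up_phi (hL : 1 ≤ Lt) (y : ℤ) :
    LT4_up Lt Lb (Sum.inl (phi Lt (-1) y)) = Sum.inl (y + 1) := by
  have h := phi_not hL (-1) y
  have h2 : ¬ (Cg (Lt + 2) (phi Lt (-1) y) (-1) ∨ Cg (Lt + 2) (phi Lt (-1) y) (-1 + 1)) := by
    rintro (h3 | h3)
    · exact h.1 h3
    · exact h.2 h3
  simp only [LT4_up, if_neg h2, psi_phi hL]

lemma LT4_up_neg (a : ℤ) :
    LT4_up Lt Lb (Sum.inl (-1 + ((Lt + 2 : ℕ) : ℤ) * a)) = Sum.inr (Lb * a) := by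
  have h : Cg (Lt + 2) (-1 + ((Lt + 2 : ℕ) : ℤ) * a) (-1) := by
    unfold Cg
    exact ⟨a, by ring⟩
  simp only [LT4_up, if_pos (Or.inl h : Cg (Lt + 2) (-1 + ((Lt + 2 : ℕ) : ℤ) * a) (-1) ∨ _)]
  congr 2
  push_cast
  rw [show -1 + ((Lt : ℤ) + 2) * a + 1 = ((Lt : ℤ) + 2) * a by ring]
  exact Int.mul_ediv_cancel_left _ (by omega)

lemma LT4_up_zero (a : ℤ) :
    LT4_up Lt Lb (Sum.inl (((Lt + 2 : ℕ) : ℤ) * a)) = Sum.inr (Lb * a) := by
  have h : Cg (Lt + 2) (((Lt + 2 : ℕ) : ℤ) * a) (-1 + 1) := by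
    unfold Cg
    exact ⟨a, by ring⟩
  simp only [LT4_up, if_pos (Or.inr h : _ ∨ Cg (Lt + 2) (((Lt + 2 : ℕ) : ℤ) * a) (-1 + 1))]
  congr 2
  push_cast
  rw [show ((Lt : ℤ) + 2) * a + 1 = 1 + a * ((Lt : ℤ) + 2) by ring,
    Int.add_mul_ediv_right _ _ (by omega), Int.ediv_eq_zero_of_lt (by norm_num) (by omega)]
  ring

/-- new glue positions are images of old ones -/
lemma LT4_phi_glue (s : ℕ) (hs : s < Lt) (a : ℤ) :
    phi Lt (-1) ((s : ℤ) + Lt * a - 1) = s + 1 + ((Lt + 2 : ℕ) : ℤ) * a := by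
  have h := phi_form (L := Lt) (by omega) (-1) a s (by omega) (by exact_mod_cast hs)
  have e : -1 + (s : ℤ) + Lt * a = (s : ℤ) + Lt * a - 1 := by ring
  rw [e] at h
  rw [h]
  push_cast
  ring

section

variable (kt kb M : ℕ) (hLt : Lt = kt + M) (hLb : Lb = kb + 1 + M) (Pt : Pat Lt) (Pb : Pat Lb)

include hLt in
lemma LT4_down_step (p r : ℤ ⊕ ℤ) (h : Step kt (kb + 1) M (rot Pt) (rot Pb) p r) :
    Conn (kt + 1) kb (M + 1) (ins (-1) Pt) Pb (LT4_down Lt p) (LT4_down Lt r) := by
  unfold Conn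
  cases h with
  | top x =>
    have h := Step.top (kt := kt + 1) (kb := kb) (M := M + 1) (Pt := ins (-1) Pt) (Pb := Pb)
      (phi Lt (-1) (x - 1))
    rw [ins_phi] at h
    have e : LT4_down Lt (Sum.inl ((rot Pt).m x)) = Sum.inl (phi Lt (-1) (Pt.m (x - 1))) := by
      simp [LT4_down]
    rw [e]
    exact Relation.EqvGen.rel _ _ h
  | bot y =>
    have h := Step.bot (kt := kt + 1) (kb := kb) (M := M + 1) (Pt := ins (-1) Pt) (Pb := Pb)
      (y - 1)
    have e : LT4_down Lt (Sum.inr ((rot Pb).m y)) = Sum.inr (Pb.m (y - 1)) := by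
      simp [LT4_down]
    rw [e]
    exact Relation.EqvGen.rel _ _ h
  | glue a j hj =>
    have h := Step.glue (kt := kt + 1) (kb := kb) (M := M + 1) (Pt := ins (-1) Pt) (Pb := Pb)
      a j (by omega)
    have e1 : LT4_down Lt (Sum.inl ((kt : ℤ) + j + Lt * a)) =
        Sum.inl (((kt + 1 : ℕ) : ℤ) + j + ((Lt + 2 : ℕ) : ℤ) * a) := by
      have := LT4_phi_glue (Lt := Lt) (kt + j) (by omega) a
      simp only [LT4_down]
      congr 1
      push_cast at this ⊢
      rw [this]
      ring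
    have e2 : LT4_down Lt (Sum.inr (((kb + 1 : ℕ) : ℤ) + j + Lb * a)) =
        Sum.inr ((kb : ℤ) + j + Lb * a) := by
      simp only [LT4_down]
      congr 1
      push_cast
      ring
    rw [e1, e2]
    exact Relation.EqvGen.rel _ _ h

include hLt hLb in
lemma LT4_up_step (p r : ℤ ⊕ ℤ) (h : Step (kt + 1) kb (M + 1) (ins (-1) Pt) Pb p r) :
    Conn kt (kb + 1) M (rot Pt) (rot Pb) (LT4_up Lt Lb p) (LT4_up Lt Lb r) := by
  have hL : 1 ≤ Lt := le_trans (by norm_num) Pt.two_le
  unfold Conn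
  cases h with
  | top x =>
    rcases pos_cases hL (-1) x with h | h | ⟨y, rfl⟩
    · -- `x = -1 + (Lt+2) a`
      rw [ins_i _ _ h]
      obtain ⟨a, ha⟩ := h
      have e : x = -1 + ((Lt + 2 : ℕ) : ℤ) * a := by linarith only [ha]
      have e2 : x + 1 = ((Lt + 2 : ℕ) : ℤ) * a := by linarith only [ha]
      rw [e2, LT4_up_zero, e, LT4_up_neg]
      exact Relation.EqvGen.refl _
    · rw [ins_succ _ _ h]
      obtain ⟨a, ha⟩ := h
      have e : x = ((Lt + 2 : ℕ) : ℤ) * a := by linarith only [ha]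
      have e2 : x - 1 = -1 + ((Lt + 2 : ℕ) : ℤ) * a := by linarith only [ha]
      rw [e2, LT4_up_neg, e, LT4_up_zero]
      exact Relation.EqvGen.refl _
    · rw [ins_phi, LT4_up_phi hL, LT4_up_phi hL]
      have h := Step.top (kt := kt) (kb := kb + 1) (M := M) (Pt := rot Pt) (Pb := rot Pb) (y + 1)
      rw [rot_m, show y + 1 - 1 = y by ring] at h
      exact Relation.EqvGen.rel _ _ h
  | bot y =>
    have h := Step.bot (kt := kt) (kb := kb + 1) (M := M) (Pt := rot Pt) (Pb := rot Pb) (y + 1)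
    rw [rot_m, show y + 1 - 1 = y by ring] at h
    exact Relation.EqvGen.rel _ _ h
  | glue a j hj =>
    rcases Nat.lt_or_ge j M with hjM | hjM
    · have h := Step.glue (kt := kt) (kb := kb + 1) (M := M) (Pt := rot Pt) (Pb := rot Pb) a j hjM
      have e1 : ((kt + 1 : ℕ) : ℤ) + j + ((Lt + 2 : ℕ) : ℤ) * a =
          phi Lt (-1) ((kt : ℤ) + j + Lt * a - 1) := by
        have := LT4_phi_glue (Lt := Lt) (kt + j) (by omega) a
        push_cast at this ⊢
        rw [this]
        ring
      rw [e1, LT4_up_phi hL, show (kt : ℤ) + j + Lt * a - 1 + 1 = kt + j + Lt * a by ring]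
      have e2 : LT4_up Lt Lb (Sum.inr ((kb : ℤ) + j + Lb * a)) =
          Sum.inr (((kb + 1 : ℕ) : ℤ) + j + Lb * a) := by
        simp only [LT4_up]
        congr 1
        push_cast
        ring
      rw [e2]
      exact Relation.EqvGen.rel _ _ h
    · have hjM' : j = M := by omega
      subst hjM'
      have e1 : ((kt + 1 : ℕ) : ℤ) + j + ((Lt + 2 : ℕ) : ℤ) * a =
          -1 + ((Lt + 2 : ℕ) : ℤ) * (a + 1) := by
        rw [hLt]; push_cast; ring
      rw [e1, LT4_up_neg]
      have e2 : LT4_up Lt Lb (Sum.inr ((kb : ℤ) + j + Lb * a)) = Sum.inr (Lb * (a + 1)) := by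
        simp only [LT4_up]
        congr 1
        rw [hLb]; push_cast; ring
      rw [e2]
      exact Relation.EqvGen.refl _

/-- correspondence of the hole ends -/
def LT4_sig : Fin (kt + 1) ⊕ Fin kb → Fin kt ⊕ Fin (kb + 1)
  | Sum.inl s => Fin.cases (Sum.inr 0) (fun s' => Sum.inl s') s
  | Sum.inr s => Sum.inr s.succ

/-- inverse correspondence of the hole ends -/
def LT4_tau : Fin kt ⊕ Fin (kb + 1) → Fin (kt + 1) ⊕ Fin kb
  | Sum.inl s => Sum.inl s.succ
  | Sum.inr s => Fin.cases (Sum.inl 0) (fun s' => Sum.inr s') s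

lemma LT4_tau_sig (u : Fin (kt + 1) ⊕ Fin kb) : LT4_tau kt kb (LT4_sig kt kb u) = u := by
  rcases u with s | s
  · refine Fin.cases ?_ (fun s' => ?_) s
    · simp [LT4_sig, LT4_tau]
    · simp [LT4_sig, LT4_tau]
  · simp [LT4_sig, LT4_tau]

lemma LT4_sig_tau (u : Fin kt ⊕ Fin (kb + 1)) : LT4_sig kt kb (LT4_tau kt kb u) = u := by
  rcases u with s | s
  · simp [LT4_sig, LT4_tau]
  · refine Fin.cases ?_ (fun s' => ?_) s
    · simp [LT4_sig, LT4_tau]
    · simp [LT4_sig, LT4_tau]

include hLt Pt in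
lemma LT4_up_hpos (u : Fin (kt + 1) ⊕ Fin kb) (a : ℤ) :
    LT4_up Lt Lb (hpos (Lt + 2) Lb (kt + 1) kb u a) = hpos Lt Lb kt (kb + 1) (LT4_sig kt kb u) a := by
  have hL : 1 ≤ Lt := le_trans (by norm_num) Pt.two_le
  rcases u with s | s
  · refine Fin.cases ?_ (fun s' => ?_) s
    · have h := LT4_up_zero (Lt := Lt) (Lb := Lb) a
      simp only [LT4_sig, hpos, Fin.cases_zero, Fin.val_zero, Nat.cast_zero, zero_add]
      exact h
    · have hs' := s'.2
      have e1 := LT4_phi_glue (Lt := Lt) (s' : ℕ) (by omega) a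
      simp only [LT4_sig, hpos, Fin.cases_succ, Fin.val_succ]
      have e2 : (((s' : ℕ) + 1 : ℕ) : ℤ) + ((Lt + 2 : ℕ) : ℤ) * a =
          phi Lt (-1) (((s' : ℕ) : ℤ) + Lt * a - 1) := by
        rw [e1]; push_cast; ring
      rw [e2, LT4_up_phi hL]
      congr 1
      ring
  · simp only [LT4_sig, hpos, LT4_up, Fin.val_succ]
    congr 1
    push_cast
    ring

include hLt hLb Pt in
lemma LT4_down_hpos (u : Fin kt ⊕ Fin (kb + 1)) (a : ℤ) :
    Conn (kt + 1) kb (M + 1) (ins (-1) Pt) Pb (LT4_down Lt (hpos Lt Lb kt (kb + 1) u a))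
      (hpos (Lt + 2) Lb (kt + 1) kb (LT4_tau kt kb u) a) := by
  have hL : 1 ≤ Lt := le_trans (by norm_num) Pt.two_le
  unfold Conn
  rcases u with s | s
  · have hs := s.2
    have e1 := LT4_phi_glue (Lt := Lt) (s : ℕ) (by omega) a
    simp only [LT4_tau, hpos, LT4_down, Fin.val_succ]
    rw [e1]
    have e2 : (((s : ℕ) : ℤ) + 1 + ((Lt + 2 : ℕ) : ℤ) * a) =
        (((s : ℕ) + 1 : ℕ) : ℤ) + ((Lt + 2 : ℕ) : ℤ) * a := by push_cast; ring
    rw [e2]
    exact Relation.EqvGen.refl _
  · refine Fin.cases ?_ (fun s' => ?_) s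
    · -- bottom `-1 + Lb a`, top `-1 + (Lt+2) a`, top `(Lt+2) a`
      simp only [LT4_tau, hpos, LT4_down, Fin.cases_zero, Fin.val_zero, Nat.cast_zero, zero_add]
      have h1 := Step.glue (kt := kt + 1) (kb := kb) (M := M + 1) (Pt := ins (-1) Pt) (Pb := Pb)
        (a - 1) M (by omega)
      have h2 := Step.top (kt := kt + 1) (kb := kb) (M := M + 1) (Pt := ins (-1) Pt) (Pb := Pb)
        (-1 + ((Lt + 2 : ℕ) : ℤ) * a)
      have hc : Cg (Lt + 2) (-1 + ((Lt + 2 : ℕ) : ℤ) * a) (-1) := ⟨a, by ring⟩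
      rw [ins_i _ _ hc, show -1 + ((Lt + 2 : ℕ) : ℤ) * a + 1 = ((Lt + 2 : ℕ) : ℤ) * a by ring] at h2
      have e1 : ((kt + 1 : ℕ) : ℤ) + (M : ℕ) + ((Lt + 2 : ℕ) : ℤ) * (a - 1) =
          -1 + ((Lt + 2 : ℕ) : ℤ) * a := by rw [hLt]; push_cast; ring
      have e2 : (kb : ℤ) + (M : ℕ) + Lb * (a - 1) = Lb * a - 1 := by rw [hLb]; push_cast; ring
      rw [e1, e2] at h1
      exact Relation.EqvGen.trans _ _ _ (Relation.EqvGen.symm _ _ (Relation.EqvGen.rel _ _ h1))
        (Relation.EqvGen.rel _ _ h2)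
    · simp only [LT4_tau, hpos, LT4_down, Fin.cases_succ, Fin.val_succ]
      have e : (((s' : ℕ) + 1 : ℕ) : ℤ) + (Lb : ℤ) * a - 1 = ((s' : ℕ) : ℤ) + Lb * a := by
        push_cast; ring
      rw [e]
      exact Relation.EqvGen.refl _

end

/-- LT4: small arc between the last glued strand (position -1) and the first hole end
(position 0) of the top. -/
theorem leg_ins_left (kt kb M : ℕ) (hLt : Lt = kt + M) (hLb : Lb = kb + 1 + M)
    (Pt : Pat Lt) (Pb : Pat Lb) :
    Leg (kt + 1) kb (M + 1) (ins (-1) Pt) Pb ↔ Leg kt (kb + 1) M (rot Pt) (rot Pb) := by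
  constructor
  · intro h u v a b hc
    have h1 := LT4_conn_map (LT4_down Lt) (LT4_down_step kt kb M hLt Pt Pb) hc
    have h2 := LT4_down_hpos kt kb M hLt hLb Pt Pb u a
    have h3 := LT4_down_hpos kt kb M hLt hLb Pt Pb v b
    have h4 := h _ _ a b (Relation.EqvGen.trans _ _ _ (Relation.EqvGen.symm _ _ h2)
      (Relation.EqvGen.trans _ _ _ h1 h3))
    rcases h4 with ⟨h5, h6⟩ | h5
    · left
      refine ⟨?_, h6⟩
      rw [← LT4_sig_tau kt kb u, ← LT4_sig_tau kt kb v, h5]
    · exact Or.inr h5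
  · intro h u v a b hc
    have h1 := LT4_conn_map (LT4_up Lt Lb) (LT4_up_step kt kb M hLt hLb Pt Pb) hc
    rw [LT4_up_hpos kt kb M hLt Pt, LT4_up_hpos kt kb M hLt Pt] at h1
    rcases h _ _ a b h1 with ⟨h5, h6⟩ | h5
    · left
      refine ⟨?_, h6⟩
      rw [← LT4_tau_sig kt kb u, ← LT4_tau_sig kt kb v, h5]
    · exact Or.inr h5

end H56.EX

end

section

/-! Symmetry of `F22`, `F13` in the glued strands. -/

namespace H56.EX

open scoped BigOperators Classical

/-- The topological lemmas on leg classes, used as hypotheses. -/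
structure LegTop : Prop where
  adj : ∀ {Lt Lb : ℕ} (kt kb M : ℕ), Lt = kt + M → Lb = kb + M → ∀ (Pt : Pat Lt) (Pb : Pat Lb)
    (j : ℕ), j + 1 < M → (Leg kt kb M (E (kt + j) Pt) Pb ↔ Leg kt kb M Pt (E (kb + j) Pb))
  right : ∀ {Lt Lb : ℕ} (kt kb M : ℕ), Lt = kt + M → Lb = kb + 1 + M → ∀ (Pt : Pat Lt)
    (Pb : Pat Lb), Leg (kt + 1) kb (M + 1) (ins kt Pt) Pb ↔ Leg kt (kb + 1) M Pt Pb
  left : ∀ {Lt Lb : ℕ} (kt kb M : ℕ), Lt = kt + M → Lb = kb + 1 + M → ∀ (Pt : Pat Lt)
    (Pb : Pat Lb), Leg (kt + 1) kb (M + 1) (ins (-1) Pt) Pb ↔ Leg kt (kb + 1) M (rot Pt) (rot Pb)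

lemma Cub.symm {x y : ℂ} (h : Cub x y) : Cub y x := fun h' => h h'.symm

lemma Cub.g {x y : ℂ} (h : Cub x y) : q * x - q⁻¹ * y ≠ 0 := by
  intro e
  apply h.neq
  have hq := q_cube
  rw [q_inv] at e
  have : q * (x - q * y) = 0 := by linear_combination e
  rcases mul_eq_zero.1 this with h1 | h1
  · exact absurd h1 q_ne_zero
  · exact sub_eq_zero.1 h1


/-! ### moving a parameter to the front -/


end H56.EX

end

section

/-! Topology lemma LT3: a small arc between the last hole end of the top pattern and the first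
glued strand turns the hole end into a hole end of the bottom pattern. -/

namespace H56.EX

namespace LT3

lemma eqvGen_map {α β : Type*} {r : α → α → Prop} {s : β → β → Prop} (f : α → β)
    (h : ∀ a b, r a b → Relation.EqvGen s (f a) (f b)) {a b : α} (hab : Relation.EqvGen r a b) :
    Relation.EqvGen s (f a) (f b) := by
  induction hab with
  | rel a b hab => exact h a b hab
  | refl a => exact Relation.EqvGen.refl _
  | symm a b _ ih => exact Relation.EqvGen.symm _ _ ih
  | trans a b c _ _ ih1 ih2 => exact Relation.EqvGen.trans _ _ _ ih1 ih2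

variable {Lt Lb : ℕ}

/-- new graph to old graph -/
def f (Lt kt : ℕ) : ℤ ⊕ ℤ → ℤ ⊕ ℤ
  | Sum.inl y => Sum.inl (phi Lt kt y)
  | Sum.inr y => Sum.inr y

open Classical in
/-- old graph to new graph -/
noncomputable def g (Lt Lb kt kb : ℕ) : ℤ ⊕ ℤ → ℤ ⊕ ℤ
  | Sum.inl x =>
      if Cg (Lt + 2) x kt then Sum.inr (kb + Lb * ((x - kt) / ((Lt : ℤ) + 2)))
      else if Cg (Lt + 2) x (kt + 1) then Sum.inr (kb + Lb * ((x - (kt + 1)) / ((Lt : ℤ) + 2)))
      else Sum.inl (psi Lt kt x)
  | Sum.inr y => Sum.inr y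

lemma g_phi (hL : 1 ≤ Lt) (kt kb : ℕ) (y : ℤ) :
    g Lt Lb kt kb (Sum.inl (phi Lt kt y)) = Sum.inl y := by
  have h := phi_not hL (kt : ℤ) y
  simp only [g, if_neg h.1, if_neg h.2, psi_phi hL]

lemma g_zero (kt kb : ℕ) (a : ℤ) :
    g Lt Lb kt kb (Sum.inl (kt + (Lt + 2) * a)) = Sum.inr (kb + Lb * a) := by
  have h : Cg (Lt + 2) ((kt : ℤ) + (Lt + 2) * a) kt := by
    unfold Cg
    refine ⟨a, ?_⟩
    push_cast; ring
  have e : ((kt : ℤ) + (Lt + 2) * a - kt) / ((Lt : ℤ) + 2) = a := by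
    rw [show (kt : ℤ) + (Lt + 2) * a - kt = (Lt + 2) * a by ring]
    exact Int.mul_ediv_cancel_left _ (by omega)
  simp only [g, if_pos h, e]

lemma g_one (kt kb : ℕ) (a : ℤ) :
    g Lt Lb kt kb (Sum.inl (kt + 1 + (Lt + 2) * a)) = Sum.inr (kb + Lb * a) := by
  have h1 : Cg (Lt + 2) ((kt : ℤ) + 1 + (Lt + 2) * a) (kt + 1) := by
    unfold Cg
    refine ⟨a, ?_⟩
    push_cast; ring
  have h0 : ¬ Cg (Lt + 2) ((kt : ℤ) + 1 + (Lt + 2) * a) kt := fun h =>
    not_Cg_succ (L := Lt + 2) (by omega) (kt : ℤ) (Cg.trans' (Cg.symm' h) h1)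
  have e : ((kt : ℤ) + 1 + (Lt + 2) * a - (kt + 1)) / ((Lt : ℤ) + 2) = a := by
    rw [show (kt : ℤ) + 1 + (Lt + 2) * a - (kt + 1) = (Lt + 2) * a by ring]
    exact Int.mul_ediv_cancel_left _ (by omega)
  simp only [g, if_neg h0, if_pos h1, e]

lemma cases (hL : 1 ≤ Lt) (kt : ℕ) (x : ℤ) :
    (∃ a : ℤ, x = kt + (Lt + 2) * a) ∨ (∃ a : ℤ, x = kt + 1 + (Lt + 2) * a) ∨
      ∃ y, x = phi Lt kt y := by
  rcases pos_cases hL (kt : ℤ) x with h | h | h
  · left
    obtain ⟨a, ha⟩ := h
    refine ⟨a, ?_⟩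
    push_cast at ha
    linarith only [ha]
  · right; left
    obtain ⟨a, ha⟩ := h
    refine ⟨a, ?_⟩
    push_cast at ha
    linarith only [ha]
  · exact Or.inr (Or.inr h)

/-- value of `phi` at a glued position -/
lemma phi_glue (kt M : ℕ) (hLt : Lt = kt + M) (a : ℤ) (j : ℕ) (hj : j < M) :
    phi Lt kt (kt + j + Lt * a) = kt + 1 + (j + 1) + (Lt + 2) * a := by
  have := phi_form (L := Lt) (by omega) (kt : ℤ) a j (by omega) (by omega)
  rw [this]; ring

/-- value of `phi` at a hole position -/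
lemma phi_hole (kt M : ℕ) (hLt : Lt = kt + M) (a : ℤ) (s : ℕ) (hs : s < kt) :
    phi Lt kt (s + Lt * a) = s + (Lt + 2) * a := by
  have := phi_form (L := Lt) (by omega) (kt : ℤ) (a - 1) (Lt + s - kt) (by omega) (by omega)
  rw [show (kt : ℤ) + (Lt + s - kt) + Lt * (a - 1) = s + Lt * a by ring] at this
  rw [this]; ring

lemma step_new_old (kt kb M : ℕ) (hLt : Lt = kt + M) (Pt : Pat Lt) (Pb : Pat Lb) (u v : ℤ ⊕ ℤ)
    (h : Step kt (kb + 1) M Pt Pb u v) :
    Conn (kt + 1) kb (M + 1) (ins kt Pt) Pb (f Lt kt u) (f Lt kt v) := by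
  cases h with
  | top x =>
    show Conn _ _ _ _ _ (Sum.inl (phi Lt kt x)) (Sum.inl (phi Lt kt (Pt.m x)))
    rw [← ins_phi]
    exact Relation.EqvGen.rel _ _ (Step.top _)
  | bot y => exact Relation.EqvGen.rel _ _ (Step.bot _)
  | glue a j hj =>
    show Conn _ _ _ _ _ (Sum.inl (phi Lt kt (kt + j + Lt * a)))
      (Sum.inr (((kb + 1 : ℕ) : ℤ) + j + Lb * a))
    rw [phi_glue kt M hLt a j hj]
    have := Step.glue (kt := kt + 1) (kb := kb) (M := M + 1) (Pt := ins kt Pt) (Pb := Pb) a (j + 1)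
      (by omega)
    push_cast at this ⊢
    have e : (kb : ℤ) + 1 + j + Lb * a = kb + (j + 1) + Lb * a := by ring
    rw [e]
    exact Relation.EqvGen.rel _ _ this

lemma step_old_new (kt kb M : ℕ) (hLt : Lt = kt + M) (Pt : Pat Lt) (Pb : Pat Lb) (u v : ℤ ⊕ ℤ)
    (h : Step (kt + 1) kb (M + 1) (ins kt Pt) Pb u v) :
    Conn kt (kb + 1) M Pt Pb (g Lt Lb kt kb u) (g Lt Lb kt kb v) := by
  have hL : 1 ≤ Lt := le_trans (by norm_num) Pt.two_le
  cases h with
  | top x =>
    rcases cases hL kt x with ⟨a, rfl⟩ | ⟨a, rfl⟩ | ⟨y, rfl⟩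
    · have h : Cg (Lt + 2) ((kt : ℤ) + (Lt + 2) * a) kt := by
        unfold Cg
        refine ⟨a, ?_⟩
        push_cast; ring
      rw [ins_i _ _ h, show (kt : ℤ) + (Lt + 2) * a + 1 = kt + 1 + (Lt + 2) * a by ring, g_zero,
        g_one]
      exact Relation.EqvGen.refl _
    · have h : Cg (Lt + 2) ((kt : ℤ) + 1 + (Lt + 2) * a) (kt + 1) := by
        unfold Cg
        refine ⟨a, ?_⟩
        push_cast; ring
      rw [ins_succ _ _ h, show (kt : ℤ) + 1 + (Lt + 2) * a - 1 = kt + (Lt + 2) * a by ring, g_zero,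
        g_one]
      exact Relation.EqvGen.refl _
    · rw [ins_phi, g_phi hL, g_phi hL]
      exact Relation.EqvGen.rel _ _ (Step.top _)
  | bot y => exact Relation.EqvGen.rel _ _ (Step.bot _)
  | glue a j hj =>
    rcases j with _ | j
    · have e1 : (((kt + 1 : ℕ) : ℤ) + ((0 : ℕ) : ℤ) + ((Lt + 2 : ℕ) : ℤ) * a) =
          kt + 1 + (Lt + 2) * a := by push_cast; ring
      have e2 : ((kb : ℤ) + ((0 : ℕ) : ℤ) + (Lb : ℤ) * a) = kb + Lb * a := by push_cast; ring
      rw [e1, e2, g_one]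
      exact Relation.EqvGen.refl _
    · have hj' : j < M := by omega
      have e1 : (((kt + 1 : ℕ) : ℤ) + ((j + 1 : ℕ) : ℤ) + ((Lt + 2 : ℕ) : ℤ) * a) =
          phi Lt kt (kt + j + Lt * a) := by
        rw [phi_glue kt M hLt a j hj']; push_cast; ring
      have e2 : ((kb : ℤ) + ((j + 1 : ℕ) : ℤ) + (Lb : ℤ) * a) =
          ((kb + 1 : ℕ) : ℤ) + j + Lb * a := by push_cast; ring
      rw [e1, e2, g_phi hL]
      exact Relation.EqvGen.rel _ _ (Step.glue a j hj')

/-- correspondence of the hole ends -/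
def sig (kt kb : ℕ) : Fin (kt + 1) ⊕ Fin kb → Fin kt ⊕ Fin (kb + 1)
  | Sum.inl s => if h : (s : ℕ) < kt then Sum.inl ⟨s, h⟩ else Sum.inr ⟨kb, by omega⟩
  | Sum.inr s => Sum.inr ⟨s, by omega⟩

lemma sig_inj (kt kb : ℕ) : Function.Injective (sig kt kb) := by
  rintro (s | s) (t | t) h
  · by_cases h1 : (s : ℕ) < kt <;> by_cases h2 : (t : ℕ) < kt
    · simp only [sig, dif_pos h1, dif_pos h2, Sum.inl.injEq, Fin.mk.injEq] at h
      rw [Sum.inl.injEq, Fin.ext_iff]; exact h
    · simp [sig, dif_pos h1, dif_neg h2] at h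
    · simp [sig, dif_neg h1, dif_pos h2] at h
    · rw [Sum.inl.injEq, Fin.ext_iff]; omega
  · by_cases h1 : (s : ℕ) < kt
    · simp [sig, dif_pos h1] at h
    · simp only [sig, dif_neg h1, Sum.inr.injEq, Fin.mk.injEq] at h; omega
  · by_cases h1 : (t : ℕ) < kt
    · simp [sig, dif_pos h1] at h
    · simp only [sig, dif_neg h1, Sum.inr.injEq, Fin.mk.injEq] at h; omega
  · simp only [sig, Sum.inr.injEq, Fin.mk.injEq] at h
    rw [Sum.inr.injEq, Fin.ext_iff]; exact h

lemma sig_surj (kt kb : ℕ) : Function.Surjective (sig kt kb) := by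
  rintro (s | s)
  · refine ⟨Sum.inl ⟨s, by omega⟩, ?_⟩
    simp [sig]
  · by_cases h : (s : ℕ) < kb
    · exact ⟨Sum.inr ⟨s, h⟩, by simp [sig]⟩
    · refine ⟨Sum.inl ⟨kt, by omega⟩, ?_⟩
      simp only [sig, lt_irrefl, dif_neg, not_false_eq_true, Sum.inr.injEq, Fin.ext_iff]
      omega

lemma g_hpos (kt kb M : ℕ) (hLt : Lt = kt + M) (hL : 1 ≤ Lt) (u : Fin (kt + 1) ⊕ Fin kb) (a : ℤ) :
    g Lt Lb kt kb (hpos (Lt + 2) Lb (kt + 1) kb u a) = hpos Lt Lb kt (kb + 1) (sig kt kb u) a := by
  rcases u with s | s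
  · by_cases h : (s : ℕ) < kt
    · simp only [sig, dif_pos h, hpos]
      have e : (((s : ℕ) : ℤ) + ((Lt + 2 : ℕ) : ℤ) * a) = phi Lt kt (((s : ℕ) : ℤ) + Lt * a) := by
        rw [phi_hole kt M hLt a s h]; push_cast; ring
      rw [e, g_phi hL]
    · have hs : (s : ℕ) = kt := by omega
      simp only [sig, dif_neg h, hpos]
      have e : (((s : ℕ) : ℤ) + ((Lt + 2 : ℕ) : ℤ) * a) = kt + (Lt + 2) * a := by
        rw [hs]; push_cast; ring
      rw [e, g_zero]
  · rfl

lemma f_hpos (kt kb M : ℕ) (hLt : Lt = kt + M) (Pt : Pat Lt) (Pb : Pat Lb)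
    (u : Fin (kt + 1) ⊕ Fin kb) (a : ℤ) :
    Conn (kt + 1) kb (M + 1) (ins kt Pt) Pb (f Lt kt (hpos Lt Lb kt (kb + 1) (sig kt kb u) a))
      (hpos (Lt + 2) Lb (kt + 1) kb u a) := by
  rcases u with s | s
  · by_cases h : (s : ℕ) < kt
    · simp only [sig, dif_pos h, hpos, f]
      have e : (((s : ℕ) : ℤ) + ((Lt + 2 : ℕ) : ℤ) * a) = phi Lt kt (((s : ℕ) : ℤ) + Lt * a) := by
        rw [phi_hole kt M hLt a s h]; push_cast; ring
      rw [e]
      exact Relation.EqvGen.refl _
    · have hs : (s : ℕ) = kt := by omega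
      simp only [sig, dif_neg h, hpos, f]
      have e : (((s : ℕ) : ℤ) + ((Lt + 2 : ℕ) : ℤ) * a) = kt + (Lt + 2) * a := by
        rw [hs]; push_cast; ring
      rw [e]
      have hc : Cg (Lt + 2) ((kt : ℤ) + 1 + (Lt + 2) * a) (kt + 1) := by
        unfold Cg
        refine ⟨a, ?_⟩
        push_cast; ring
      have h1 := Step.top (kt := kt + 1) (kb := kb) (M := M + 1) (Pt := ins kt Pt) (Pb := Pb)
        ((kt : ℤ) + 1 + (Lt + 2) * a)
      rw [ins_succ _ _ hc, show (kt : ℤ) + 1 + (Lt + 2) * a - 1 = kt + (Lt + 2) * a by ring] at h1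
      have h2 := Step.glue (kt := kt + 1) (kb := kb) (M := M + 1) (Pt := ins kt Pt) (Pb := Pb) a 0
        (by omega)
      have e1 : (((kt + 1 : ℕ) : ℤ) + ((0 : ℕ) : ℤ) + ((Lt + 2 : ℕ) : ℤ) * a) =
          kt + 1 + (Lt + 2) * a := by push_cast; ring
      have e2 : ((kb : ℤ) + ((0 : ℕ) : ℤ) + (Lb : ℤ) * a) = kb + Lb * a := by push_cast; ring
      rw [e1, e2] at h2
      exact Relation.EqvGen.trans _ _ _
        (Relation.EqvGen.symm _ _ (Relation.EqvGen.rel _ _ h2)) (Relation.EqvGen.rel _ _ h1)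
  · exact Relation.EqvGen.refl _

end LT3

variable {Lt Lb : ℕ}

/-- LT3: small arc between the last hole end of the top and the first glued strand. -/
theorem leg_ins_right (kt kb M : ℕ) (hLt : Lt = kt + M) (hLb : Lb = kb + 1 + M)
    (Pt : Pat Lt) (Pb : Pat Lb) :
    Leg (kt + 1) kb (M + 1) (ins kt Pt) Pb ↔ Leg kt (kb + 1) M Pt Pb := by
  have hL : 1 ≤ Lt := le_trans (by norm_num) Pt.two_le
  constructor
  · intro H u' v' a b h
    obtain ⟨u, rfl⟩ := LT3.sig_surj kt kb u'
    obtain ⟨v, rfl⟩ := LT3.sig_surj kt kb v'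
    have h1 := LT3.eqvGen_map (LT3.f Lt kt) (LT3.step_new_old kt kb M hLt Pt Pb) h
    have h2 := LT3.f_hpos kt kb M hLt Pt Pb u a
    have h3 := LT3.f_hpos kt kb M hLt Pt Pb v b
    have h4 := Relation.EqvGen.trans _ _ _ (Relation.EqvGen.symm _ _ h2)
      (Relation.EqvGen.trans _ _ _ h1 h3)
    rcases H u v a b h4 with ⟨h5, h6⟩ | h5
    · left; exact ⟨by rw [h5], h6⟩
    · right; exact h5
  · intro H u v a b h
    have h1 := LT3.eqvGen_map (LT3.g Lt Lb kt kb) (LT3.step_old_new kt kb M hLt Pt Pb) h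
    rw [LT3.g_hpos kt kb M hLt hL, LT3.g_hpos kt kb M hLt hL] at h1
    rcases H _ _ a b h1 with ⟨h5, h6⟩ | h5
    · left; exact ⟨LT3.sig_inj kt kb h5, h6⟩
    · right; exact h5

end H56.EX

end
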