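import Pool.Agent.H94.BG.H31.PT.M02_1
import Pool.Agent.H94.BG.H31.PT.M31
import Pool.Agent.H94.BG.M02

/-! The parts of this file: H89.Perc.ArmBoxLower, H83.EX.SqrtTrick, H83.EX.Glue2, H83.EX.Double, H83.EX.DualSmall, H83.EX.StrongRSW, H57.LF.FS2, H57.LF.FS3, H57.LF.FS1, H89.Perc.ThetaLimit, H89.Perc.Surround, H57.LF.FS4, H85.Gamma.KIArm, H85.Gamma.Second, H85.Gamma.Main, H83.EX.WindDet, H89.Link.PerProb, H89.Link.Half, H89.Link.Face, H47.EX.Confine, H47.EX.SrcD, H89.Link.Four, H89.Link.Star, H89.Link.Law, H89.Link.One, H89.Link.Final, H14.EX.Top, H12.QKZ.Iface, H14.EX.Arc, H12.QKZ.PhiBase, H12.QKZ.Area, H12.QKZ.Comb, H56.EX.Rec, H56.EX.Param, H96.EX.LT1, H14.EX.LT4, H56.EX.Sym, H7.EX.LT3. -/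

section

/-!
# Lower bound for annulus crossing probabilities
-/

open MeasureTheory ProbabilityTheory unitInterval

namespace Pool.Agent.H89.Perc

namespace ArmBoxLower

end ArmBoxLower

end Pool.Agent.H89.Perc

end

section

/-! # The square-root trick -/

open MeasureTheory ProbabilityTheory unitInterval

namespace Pool.Agent.H83.EX

open Pool.Agent.H89.Perc

end Pool.Agent.H83.EX

end

section

/-! # Two paths across an annulus without dual crossing are connected -/

open MeasureTheory ProbabilityTheory unitInterval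

namespace Pool.Agent.H83.EX

open Pool.Agent.H89.Perc

end Pool.Agent.H83.EX

end

section

/-! # Doubling the length of a rectangle -/

open MeasureTheory ProbabilityTheory unitInterval

namespace Pool.Agent.H83.EX

open Pool.Agent.H89.Perc

end Pool.Agent.H83.EX

end

section

/-! # Annulus crossings of thick annuli are unlikely -/

open MeasureTheory ProbabilityTheory unitInterval

namespace Pool.Agent.H83.EX

open Pool.Agent.H89.Perc

end Pool.Agent.H83.EX

end

section

/-! # If the squares are crossed with probability close to one, so are the long rectangles -/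

open MeasureTheory ProbabilityTheory unitInterval

namespace Pool.Agent.H83.EX

open Pool.Agent.H89.Perc

end Pool.Agent.H83.EX

end

section

open MeasureTheory ProbabilityTheory unitInterval

namespace Pool.Agent.H57.LF

open Pool.Agent.H89.Perc

private lemma fs2_div {L : ℕ} (hL : 1 ≤ L) (x : ℤ) (K : ℤ) (h1 : -(K * L) ≤ x) (h2 : x ≤ K * L) :
    ∃ i : ℤ, -K ≤ i ∧ i ≤ K ∧ i * L ≤ x ∧ x < i * L + L := by
  have hL' : (0 : ℤ) < L := by exact_mod_cast hL
  refine ⟨x / L, ?_, ?_, ?_, ?_⟩
  · rw [Int.le_ediv_iff_mul_le hL']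
    linarith
  · have : x / L < K + 1 := by
      rw [Int.ediv_lt_iff_lt_mul hL']
      nlinarith only [hL, h2]
    omega
  · exact Int.ediv_mul_le x hL'.ne'
  · have := Int.lt_ediv_add_one_mul_self x hL'
    linarith

private lemma fs2_far {L : ℕ} (hL : 1 ≤ L) {x y i j : ℤ} (h1 : i * L ≤ x) (h2 : x < i * L + L)
    (h3 : j * L ≤ y) (h4 : y < j * L + L) (h : x + 18 * L ≤ y ∨ y + 18 * L ≤ x) :
    i + 15 ≤ j ∨ j + 15 ≤ i := by
  have hL' : (0 : ℤ) < L := by exact_mod_cast hL
  rcases h with h | h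
  · left
    by_contra hc
    push Not at hc
    have : (j + 1) * L ≤ (i + 15) * L := mul_le_mul_of_nonneg_right (by omega) hL'.le
    nlinarith only [hL, h1, h4, h, this]
  · right
    by_contra hc
    push Not at hc
    have : (i + 1) * L ≤ (j + 15) * L := mul_le_mul_of_nonneg_right (by omega) hL'.le
    nlinarith only [hL, h2, h3, h, this]

private lemma fs2_sep {L : ℕ} (hL : 1 ≤ L) {i j : ℤ} (h : i + 15 ≤ j ∨ j + 15 ≤ i) {x : ℤ}
    (h1 : i * L - (7 * L : ℕ) ≤ x) (h2 : x ≤ i * L + (7 * L : ℕ)) (h3 : j * L - (7 * L : ℕ) ≤ x)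
    (h4 : x ≤ j * L + (7 * L : ℕ)) : False := by
  have hL' : (0 : ℤ) < L := by exact_mod_cast hL
  push_cast at h1 h2 h3 h4
  rcases h with h | h
  · have : (i + 15) * L ≤ j * L := mul_le_mul_of_nonneg_right h hL'.le
    nlinarith only [hL, h2, h3, this]
  · have : (j + 15) * L ≤ i * L := mul_le_mul_of_nonneg_right h hL'.le
    nlinarith only [hL, h1, h4, this]

theorem fs_step {q : I} {L : ℕ} (hL : 1 ≤ L) :
    Pr q (ArmBox 0 (3 * L) (21 * L)) ≤ 10 ^ 8 * Pr q (ArmBox 0 L (7 * L)) ^ 2 := by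
  classical
  have hL' : (0 : ℤ) < L := by exact_mod_cast hL
  set F : Finset ((ℤ × ℤ) × (ℤ × ℤ)) :=
    ((Finset.Icc (-3) 3 ×ˢ Finset.Icc (-3) 3) ×ˢ (Finset.Icc (-21) 21 ×ˢ Finset.Icc (-21) 21)).filter
      (fun x => (x.1.1 + 15 ≤ x.2.1 ∨ x.2.1 + 15 ≤ x.1.1) ∨
        (x.1.2 + 15 ≤ x.2.2 ∨ x.2.2 + 15 ≤ x.1.2)) with hF
  set E : (ℤ × ℤ) × (ℤ × ℤ) → Set Config := fun x =>
    ArmBox (x.1.1 * L, x.1.2 * L) L (7 * L) ∩ ArmBox (x.2.1 * L, x.2.2 * L) L (7 * L) with hE
  have hsub : ArmBox 0 (3 * L) (21 * L) ⊆ ⋃ x ∈ F, E x := by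
    rintro ω ⟨w, hw, u, hu, hc⟩
    obtain ⟨w1, w2⟩ := w
    obtain ⟨u1, u2⟩ := u
    obtain ⟨hub, hus⟩ := hu
    simp only [mem_ball, Prod.fst_zero, Prod.snd_zero] at hw hub hus
    push_cast at hw hub hus
    obtain ⟨i, hi1, hi2, hi3, hi4⟩ := fs2_div hL w1 3 (by omega) (by omega)
    obtain ⟨j, hj1, hj2, hj3, hj4⟩ := fs2_div hL w2 3 (by omega) (by omega)
    obtain ⟨i', hi1', hi2', hi3', hi4'⟩ := fs2_div hL u1 21 (by omega) (by omega)
    obtain ⟨j', hj1', hj2', hj3', hj4'⟩ := fs2_div hL u2 21 (by omega) (by omega)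
    have hfar : (w1 + 18 * L ≤ u1 ∨ u1 + 18 * L ≤ w1) ∨ (w2 + 18 * L ≤ u2 ∨ u2 + 18 * L ≤ w2) := by
      omega
    simp only [Set.mem_iUnion]
    refine ⟨((i, j), (i', j')), ?_, ?_, ?_⟩
    · rw [hF]
      simp only [Finset.mem_filter, Finset.mem_product, Finset.mem_Icc]
      refine ⟨⟨⟨⟨hi1, hi2⟩, hj1, hj2⟩, ⟨hi1', hi2'⟩, hj1', hj2'⟩, ?_⟩
      rcases hfar with h | h
      · exact Or.inl (fs2_far hL hi3 hi4 hi3' hi4' h)
      · exact Or.inr (fs2_far hL hj3 hj4 hj3' hj4' h)
    · obtain ⟨x, hx, hcx⟩ := hc.to_sphere (v := (i * L, j * L)) (r := 7 * L)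
        (by
          simp only [mem_ball]
          push_cast
          omega)
        (by
          left
          simp only [mem_ball]
          push_cast
          omega)
      refine ⟨(w1, w2), ?_, x, hx, hcx.mono_set Set.inter_subset_right⟩
      simp only [mem_ball]
      omega
    · obtain ⟨x, hx, hcx⟩ := hc.symm.to_sphere (v := (i' * L, j' * L)) (r := 7 * L)
        (by
          simp only [mem_ball]
          push_cast
          omega)
        (by
          left
          simp only [mem_ball]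
          push_cast
          omega)
      refine ⟨(u1, u2), ?_, x, hx, hcx.mono_set Set.inter_subset_right⟩
      simp only [mem_ball]
      omega
  have hE' : ∀ x ∈ F, Pr q (E x) = Pr q (ArmBox 0 L (7 * L)) ^ 2 := by
    intro x hx
    rw [hF, Finset.mem_filter] at hx
    have hx' := hx.2
    rw [hE]
    simp only
    rw [Pr_inter_of_disjoint (localOn_armBox _ _ _) (localOn_armBox _ _ _) ?_,
      Pr_armBox, Pr_armBox (x.2.1 * L, x.2.2 * L), sq]
    rw [Finset.disjoint_left]
    intro e h1 h2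
    rw [mem_eRect] at h1 h2
    simp only [rect, Set.mem_ofPred_eq] at h1 h2
    rcases hx' with h | h
    · exact fs2_sep hL h h1.1 h1.2.1 h2.1 h2.2.1
    · exact fs2_sep hL h h1.2.2.1 h1.2.2.2 h2.2.2.1 h2.2.2.2
  have hcard : (F.card : ℝ) ≤ 10 ^ 8 := by
    have h1 : F.card ≤ ((Finset.Icc (-3 : ℤ) 3 ×ˢ Finset.Icc (-3 : ℤ) 3) ×ˢ
        (Finset.Icc (-21 : ℤ) 21 ×ˢ Finset.Icc (-21 : ℤ) 21)).card := Finset.card_filter_le _ _
    have h2 : ((Finset.Icc (-3 : ℤ) 3 ×ˢ Finset.Icc (-3 : ℤ) 3) ×ˢ
        (Finset.Icc (-21 : ℤ) 21 ×ˢ Finset.Icc (-21 : ℤ) 21)).card = 90601 := by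
      simp only [Finset.card_product, Int.card_Icc]
      rfl
    rw [h2] at h1
    have h3 : (F.card : ℝ) ≤ 90601 := by exact_mod_cast h1
    linarith only [h3]
  calc Pr q (ArmBox 0 (3 * L) (21 * L)) ≤ Pr q (⋃ x ∈ F, E x) := Pr_mono hsub
    _ ≤ ∑ x ∈ F, Pr q (E x) := Pr_biUnion_le _ _
    _ = F.card * Pr q (ArmBox 0 L (7 * L)) ^ 2 := by
        rw [Finset.sum_congr rfl hE', Finset.sum_const, nsmul_eq_mul]
    _ ≤ 10 ^ 8 * Pr q (ArmBox 0 L (7 * L)) ^ 2 := by gcongr

end Pool.Agent.H57.LF

end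

section

open MeasureTheory ProbabilityTheory unitInterval

namespace Pool.Agent.H57.LF

open Pool.Agent.H89.Perc

private lemma fs3_mono {v : Vert} {s s' r r' : ℕ} (hs : s ≤ s') (hr : r' ≤ r) (hsr : s' ≤ r') :
    ArmBox v s r ⊆ ArmBox v s' r' := by
  rintro ω ⟨w, hw, u, hu, hc⟩
  have hws : w ∈ ball v s' := by
    simp only [mem_ball] at hw ⊢; omega
  have hwr : w ∈ ball v r' := by
    simp only [mem_ball] at hws ⊢; omega
  obtain ⟨x, hx, hcx⟩ := hc.to_sphere (v := v) (r := r') hwr (by
    rcases Nat.lt_or_ge r' r with h | h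
    · left
      intro hub
      have h1 := hu.2
      simp only [mem_ball] at hub
      omega
    · have : r = r' := le_antisymm h hr
      subst this
      exact Or.inr hu)
  exact ⟨w, hws, x, hx, hcx.mono_set Set.inter_subset_right⟩

private lemma fs3_iter {q : I} {L : ℕ} (hL : 1 ≤ L)
    (h0 : Pr q (ArmBox 0 L (7 * L)) ≤ 1 / (9 * 10 ^ 8)) (k : ℕ) :
    10 ^ 8 * Pr q (ArmBox 0 (3 ^ k * L) (7 * (3 ^ k * L))) ≤ (1 / 9) ^ (k + 1) := by
  induction k with
  | zero =>
    simp only [pow_zero, one_mul, zero_add, pow_one]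
    have : (1 : ℝ) / (9 * 10 ^ 8) = 1 / 10 ^ 8 * (1 / 9) := by norm_num
    rw [this] at h0
    have h1 : (10 : ℝ) ^ 8 * (1 / 10 ^ 8 * (1 / 9)) = 1 / 9 := by norm_num
    calc _ ≤ (10 : ℝ) ^ 8 * (1 / 10 ^ 8 * (1 / 9)) := by gcongr
      _ = 1 / 9 := h1
  | succ k ih =>
    have h1 := fs_step (q := q) (L := 3 ^ k * L) (Nat.mul_pos (by positivity) hL)
    have e1 : 3 * (3 ^ k * L) = 3 ^ (k + 1) * L := by ring
    have e2 : 21 * (3 ^ k * L) = 7 * (3 ^ (k + 1) * L) := by ring
    rw [e1, e2] at h1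
    set a := Pr q (ArmBox 0 (3 ^ k * L) (7 * (3 ^ k * L))) with ha
    have ha0 : 0 ≤ a := Pr_nonneg
    calc 10 ^ 8 * Pr q (ArmBox 0 (3 ^ (k + 1) * L) (7 * (3 ^ (k + 1) * L)))
        ≤ 10 ^ 8 * (10 ^ 8 * a ^ 2) := by gcongr
      _ = (10 ^ 8 * a) ^ 2 := by ring
      _ ≤ ((1 / 9) ^ (k + 1)) ^ 2 := by gcongr
      _ = (1 / 9) ^ (2 * (k + 1)) := by rw [← pow_mul, mul_comm]
      _ ≤ (1 / 9) ^ (k + 1 + 1) := pow_le_pow_of_le_one (by norm_num) (by norm_num) (by omega)

private lemma fs3_term {q : I} {L : ℕ} (hL : 1 ≤ L)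
    (h0 : Pr q (ArmBox 0 L (7 * L)) ≤ 1 / (9 * 10 ^ 8)) (i : ℕ) :
    10 ^ 8 * Pr q (ArmBox 0 L (max (i * L) (8 * L) - L)) ≤ 81 / ((i : ℝ) + 1) ^ 2 := by
  have hr : max (i * L) (8 * L) - L = (max i 8 - 1) * L := by
    rw [← max_mul_of_nonneg _ _ (Nat.zero_le L), Nat.sub_mul, one_mul]
  set M := max i 8 - 1 with hM
  have hM7 : 7 ≤ M := by
    have := le_max_right i 8
    omega
  obtain ⟨k, hk1, hk2⟩ : ∃ k, 7 * 3 ^ k ≤ M ∧ M < 7 * 3 ^ (k + 1) := by
    have hn : M / 7 ≠ 0 := by omega
    refine ⟨Nat.log 3 (M / 7), ?_, ?_⟩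
    · have := Nat.pow_log_le_self 3 hn
      omega
    · have := Nat.lt_pow_succ_log_self (b := 3) (by norm_num) (M / 7)
      rw [Nat.succ_eq_add_one] at this
      omega
  have h1 : Pr q (ArmBox 0 L (M * L)) ≤ Pr q (ArmBox 0 (3 ^ k * L) (7 * (3 ^ k * L))) := by
    apply Pr_mono
    apply fs3_mono
    · exact Nat.le_mul_of_pos_left _ (by positivity)
    · rw [← mul_assoc]
      exact Nat.mul_le_mul_right _ hk1
    · omega
  have h2 := fs3_iter hL h0 k
  rw [hr]
  have h3 : ((i : ℝ) + 1) * 7 ≤ 9 * M := by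
    have : (i + 1) * 7 ≤ 9 * M := by
      rcases le_total i 8 with h | h
      · omega
      · have : max i 8 = i := max_eq_left h
        omega
    exact_mod_cast this
  have h4 : (M : ℝ) ≤ 7 * 3 ^ (k + 1) := by exact_mod_cast hk2.le
  have h5 : ((i : ℝ) + 1) ≤ 9 * 3 ^ (k + 1) := by linarith only [h3, h4]
  have h6 : (0 : ℝ) < (i : ℝ) + 1 := by positivity
  have h7 : ((1 : ℝ) / 9) ^ (k + 1) ≤ 81 / ((i : ℝ) + 1) ^ 2 := by
    rw [le_div_iff₀ (by positivity)]
    calc ((1 : ℝ) / 9) ^ (k + 1) * ((i : ℝ) + 1) ^ 2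
        ≤ (1 / 9) ^ (k + 1) * (9 * 3 ^ (k + 1)) ^ 2 := by gcongr
      _ = 81 * ((1 / 9) ^ (k + 1) * (3 ^ 2) ^ (k + 1)) := by
          rw [mul_pow, ← pow_mul, mul_comm (k + 1) 2, pow_mul]
          ring
      _ = 81 := by
          rw [← mul_pow]
          norm_num
  calc 10 ^ 8 * Pr q (ArmBox 0 L (M * L))
      ≤ 10 ^ 8 * Pr q (ArmBox 0 (3 ^ k * L) (7 * (3 ^ k * L))) := by gcongr
    _ ≤ (1 / 9) ^ (k + 1) := h2
    _ ≤ _ := h7

private lemma fs3_series (M : ℕ) :
    ∑ i ∈ Finset.range M, (81 : ℝ) / ((i : ℝ) + 1) ^ 2 ≤ 162 * (1 - 1 / ((M : ℝ) + 1)) := by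
  induction M with
  | zero => simp
  | succ M ih =>
    rw [Finset.sum_range_succ]
    have h1 : (0 : ℝ) < (M : ℝ) + 1 := by positivity
    have h2 : (81 : ℝ) / ((M : ℝ) + 1) ^ 2 ≤ 162 * (1 / ((M : ℝ) + 1) - 1 / ((M : ℝ) + 1 + 1)) := by
      rw [div_sub_div _ _ (by positivity) (by positivity), mul_div_assoc',
        div_le_div_iff₀ (by positivity) (by positivity)]
      have h3 : (0 : ℝ) ≤ M := Nat.cast_nonneg _
      nlinarith only [mul_nonneg h3 h3, mul_nonneg (mul_nonneg h3 h3) h3]
    push_cast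
    linarith only [ih, h2]

theorem fs_sum : ∃ ε > (0 : ℝ), ∃ K : ℕ, 2 ≤ K ∧ ∀ q : I, ∀ L : ℕ, 1 ≤ L →
    Pr q (ArmBox 0 L (7 * L)) ≤ ε → ∀ M : ℕ,
    ∑ i ∈ Finset.range M, Pr q (ArmBox 0 L (max (i * L) (K * L) - L)) ≤ 1 / 2 := by
  refine ⟨1 / (9 * 10 ^ 8), by positivity, 8, by norm_num, fun q L hL h0 M => ?_⟩
  have h1 : 10 ^ 8 * ∑ i ∈ Finset.range M, Pr q (ArmBox 0 L (max (i * L) (8 * L) - L)) ≤ 162 := by
    rw [Finset.mul_sum]
    refine (Finset.sum_le_sum fun i _ => fs3_term hL h0 i).trans ?_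
    refine (fs3_series M).trans ?_
    have : (0 : ℝ) ≤ 1 / ((M : ℝ) + 1) := by positivity
    linarith only [this]
  linarith only [h1]

end Pool.Agent.H57.LF

end

section

open MeasureTheory ProbabilityTheory unitInterval

namespace Pool.Agent.H57.LF

open Pool.Agent.H89.Perc

/-- a path across a horizontal strip inside a rectangle gives a vertical crossing -/
private theorem fs1_vert {ω : Config} {a b c d : ℤ} {u v : Vert}
    (h : Conn ω (rect a b c d) u v) {a' b' c' d' : ℤ} (hu : u.2 ≤ c') (hv : d' ≤ v.2)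
    (hcd : c' ≤ d') (ha : a' ≤ a) (hb : b ≤ b') : VCross ω a' b' c' d' := by
  obtain ⟨u', v', h1, h2, h3, -, -⟩ := h.cross_y hu hv hcd
  refine ⟨u', v', h1, h2, h3.mono_set ?_⟩
  intro w hw
  simp only [rect, Set.mem_inter_iff, Set.mem_ofPred_eq] at hw ⊢
  omega

private theorem fs1_hor {ω : Config} {a b c d : ℤ} {u v : Vert}
    (h : Conn ω (rect a b c d) u v) {a' b' c' d' : ℤ} (hu : u.1 ≤ a') (hv : b' ≤ v.1)
    (hab : a' ≤ b') (hc : c' ≤ c) (hd : d ≤ d') : HCross ω a' b' c' d' := by
  obtain ⟨u', v', h1, h2, h3, -, -⟩ := h.cross_x hu hv hab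
  refine ⟨u', v', h1, h2, h3.mono_set ?_⟩
  intro w hw
  simp only [rect, Set.mem_inter_iff, Set.mem_ofPred_eq] at hw ⊢
  omega

private theorem fs1_cover {m : ℕ} (hm : 1 ≤ m) :
    ArmBox 0 m (7 * m) ⊆
      ({ω | VCross ω (-(7 * m : ℤ)) (8 * m - 1) m (6 * m + 1)} ∪
        {ω | VCross ω (-(7 * m : ℤ)) (8 * m - 1) (-(6 * m : ℤ) - 1) (-(m : ℤ))}) ∪
      ({ω | HCross ω m (6 * m + 1) (-(7 * m : ℤ)) (8 * m - 1)} ∪
        {ω | HCross ω (-(6 * m : ℤ) - 1) (-(m : ℤ)) (-(7 * m : ℤ)) (8 * m - 1)}) := by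
  rintro ω ⟨w, hw, u, hu, hc⟩
  simp only [ball, rect, sphere, Set.mem_ofPred_eq, Prod.fst_zero, Prod.snd_zero] at hw hu
  push_cast at hw hu
  have hc' : Conn ω (rect (-(7 * m : ℤ)) (7 * m) (-(7 * m : ℤ)) (7 * m)) w u := by
    have : ball 0 (7 * m) = rect (-(7 * m : ℤ)) (7 * m) (-(7 * m : ℤ)) (7 * m) := by
      simp only [ball, Prod.fst_zero, Prod.snd_zero]
      push_cast
      ring_nf
    rwa [this] at hc
  obtain ⟨hw1, hw2, hw3, hw4⟩ := hw
  obtain ⟨-, h | h | h | h⟩ := hu
  · -- left
    right; right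
    exact fs1_hor hc'.symm (by omega) (by omega) (by omega) (by omega) (by omega)
  · -- right
    right; left
    exact fs1_hor hc' (by omega) (by omega) (by omega) (by omega) (by omega)
  · -- bottom
    left; right
    exact fs1_vert hc'.symm (by omega) (by omega) (by omega) (by omega) (by omega)
  · -- top
    left; left
    exact fs1_vert hc' (by omega) (by omega) (by omega) (by omega) (by omega)

theorem fs_annulus {p : I} {m : ℕ} (hm : 1 ≤ m) :
    Pr (σ p) (ArmBox 0 m (7 * m)) ≤
      4 * (1 - Pr p {ω | HCross ω m (16 * m) (-m) (4 * m)}) := by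
  set b : ℝ := Pr (σ p) {ω | VCross ω m (16 * m - 1) (-(m : ℤ) - 1) (4 * m)} with hb
  have hb1 : b ≤ 1 - Pr p {ω | HCross ω m (16 * m) (-m) (4 * m)} := by
    rw [hb, ← Pr_dual (localOn_vcross _ _ _ _), ← Pr_compl (localOn_hcross _ _ _ _)]
    refine Pr_mono ?_
    intro ω hω hω'
    exact not_hcross_and_dual_vcross (by omega) hω' hω
  have e1 : Pr (σ p) {ω | VCross ω (-(7 * m : ℤ)) (8 * m - 1) m (6 * m + 1)} = b := by
    have := Pr_vcross_translate (p := σ p) (a := m) (b := 16 * m - 1) (c := -(m : ℤ) - 1)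
      (d := 4 * m) (-(8 * m : ℤ)) (2 * m + 1)
    rw [hb, ← this]
    congr 2
    funext ω
    congr 1 <;> ring
  have e2 : Pr (σ p) {ω | VCross ω (-(7 * m : ℤ)) (8 * m - 1) (-(6 * m : ℤ) - 1) (-(m : ℤ))}
      = b := by
    have := Pr_vcross_translate (p := σ p) (a := m) (b := 16 * m - 1) (c := -(m : ℤ) - 1)
      (d := 4 * m) (-(8 * m : ℤ)) (-(5 * m : ℤ))
    rw [hb, ← this]
    congr 2
    funext ω
    congr 1 <;> ring
  have e3 : Pr (σ p) {ω | HCross ω m (6 * m + 1) (-(7 * m : ℤ)) (8 * m - 1)} = b := by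
    rw [← Pr_vcross_eq_hcross, e1]
  have e4 : Pr (σ p) {ω | HCross ω (-(6 * m : ℤ) - 1) (-(m : ℤ)) (-(7 * m : ℤ)) (8 * m - 1)}
      = b := by
    rw [← Pr_vcross_eq_hcross, e2]
  calc Pr (σ p) (ArmBox 0 m (7 * m)) ≤ _ := Pr_mono (fs1_cover hm)
    _ ≤ _ := Pr_union_le
    _ ≤ (b + b) + (b + b) := by
        refine add_le_add (Pr_union_le.trans ?_) (Pr_union_le.trans ?_)
        · rw [e1, e2]
        · rw [e3, e4]
    _ = 4 * b := by ring
    _ ≤ _ := by linarith only [hb1]

end Pool.Agent.H57.LF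

end

section

/-!
# The percolation probability is the limit of the one-arm probabilities
-/

open MeasureTheory ProbabilityTheory unitInterval Filter Topology

namespace Pool.Agent.H89.Perc

private lemma thetaLimit_ball_finite (r : ℕ) : (ball 0 r).Finite := by
  refine Set.Finite.subset
    ((Set.finite_Icc (-(r : ℤ)) r).prod (Set.finite_Icc (-(r : ℤ)) r)) ?_
  intro u hu
  simp only [mem_ball, Prod.fst_zero, Prod.snd_zero] at hu
  simp only [Set.mem_prod, Set.mem_Icc]
  omega

private lemma thetaLimit_not_mem_ball {r : ℕ} {u : Vert} (hu : u ∉ ball 0 r) :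
    (r : ℤ) ≤ |u.1 - (0 : Vert).1| ∨ (r : ℤ) ≤ |u.2 - (0 : Vert).2| := by
  simp only [mem_ball, Prod.fst_zero, Prod.snd_zero] at hu ⊢
  rcases abs_cases (u.1 - 0) with h3 | h3 <;> rcases abs_cases (u.2 - 0) with h4 | h4 <;> omega

private lemma thetaLimit_antitone : Antitone (fun r : ℕ => Arm 0 r) := by
  intro r r' h
  rintro ω ⟨u, hu, hc⟩
  refine hc.mem_arm ?_
  obtain ⟨hb, hs⟩ := hu
  simp only [mem_ball, Prod.fst_zero, Prod.snd_zero] at hb hs ⊢
  rcases abs_cases (u.1 - 0) with h3 | h3 <;> rcases abs_cases (u.2 - 0) with h4 | h4 <;> omega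

private lemma thetaLimit_set :
    {ω : Config | {v | Conn ω Set.univ 0 v}.Infinite} = ⋂ r : ℕ, Arm 0 r := by
  ext ω
  simp only [Set.mem_ofPred_eq, Set.mem_iInter]
  constructor
  · intro h r
    obtain ⟨v, hv, hvb⟩ := h.exists_notMem_finite (thetaLimit_ball_finite r)
    have hv' : Conn ω Set.univ 0 v := hv
    exact hv'.mem_arm (thetaLimit_not_mem_ball hvb)
  · intro h hfin
    -- a bound for the absolute values of the coordinates of a finite cluster
    obtain ⟨M, hM⟩ : ∃ M : ℕ, ∀ v ∈ {v | Conn ω Set.univ 0 v}, (v.1.natAbs ≤ M ∧ v.2.natAbs ≤ M) := by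
      obtain ⟨M, hM⟩ := (hfin.image (fun v : Vert => max v.1.natAbs v.2.natAbs)).bddAbove
      refine ⟨M, fun v hv => ?_⟩
      have := hM (Set.mem_image_of_mem _ hv)
      exact ⟨(le_max_left _ _).trans this, (le_max_right _ _).trans this⟩
    obtain ⟨u, hu, hc⟩ := h (M + 1)
    have h1 := hM u (hc.mono_set (Set.subset_univ _))
    obtain ⟨_, hs⟩ := hu
    simp only [Prod.fst_zero, Prod.snd_zero] at hs
    omega

theorem tendsto_arm (p : I) : Tendsto (fun r => arm p r) atTop (𝓝 (theta p)) := by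
  have h : Tendsto (fun r : ℕ => μ p (Arm 0 r)) atTop (𝓝 (μ p (⋂ r : ℕ, Arm 0 r))) :=
    tendsto_measure_iInter_atTop
      (fun r => ((localOn_arm 0 r).measurableSet).nullMeasurableSet) thetaLimit_antitone
      ⟨0, measure_ne_top _ _⟩
  have h2 := (ENNReal.tendsto_toReal (measure_ne_top (μ p) (⋂ r : ℕ, Arm 0 r))).comp h
  rw [theta, thetaLimit_set]
  exact h2

end Pool.Agent.H89.Perc

end

section

/-!
# Finite clusters are surrounded by dual paths
-/

open MeasureTheory ProbabilityTheory unitInterval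

namespace Pool.Agent.H89.Perc

end Pool.Agent.H89.Perc

end

section

open MeasureTheory ProbabilityTheory unitInterval

namespace Pool.Agent.H57.LF

open Pool.Agent.H89.Perc

open Classical in
/-- The configuration with all edges inside the ball of radius `r` opened. -/
noncomputable def fs4Open (ω : Config) (r : ℕ) : Config :=
  fun e => if src e ∈ ball 0 r ∧ tgt e ∈ ball 0 r then true else ω e

lemma fs4Open_le (ω : Config) (r : ℕ) (e : Edge) (h : ω e = true) :
    fs4Open ω r e = true := by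
  unfold fs4Open
  split_ifs
  · rfl
  · exact h

lemma fs4_path (ω : Config) (r : ℕ) :
    ∀ n : ℕ, n ≤ r → Conn (fs4Open ω r) (ball 0 r) 0 ((n : ℤ), 0) := by
  intro n
  induction n with
  | zero => exact fun _ => Conn.refl self_mem_ball
  | succ n ih =>
    intro h
    have h1 := ih (by omega)
    have hb : (((n : ℤ) + 1, 0) : Vert) ∈ ball 0 r := by
      simp only [mem_ball, Prod.fst_zero, Prod.snd_zero]
      omega
    have e1 : (((n + 1 : ℕ) : ℤ), (0 : ℤ)) = (((n : ℤ) + 1, 0) : Vert) := by push_cast; rfl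
    rw [e1]
    refine h1.tail ⟨h1.mem_right, hb, ((n : ℤ), 0, false), Or.inl ⟨rfl, ?_⟩, ?_⟩
    · simp [tgt]
    · unfold fs4Open
      rw [if_pos]
      refine ⟨h1.mem_right, ?_⟩
      simpa [tgt] using hb

lemma fs4_back {ω : Config} {r M : ℕ} (hM : r < M) (h : fs4Open ω r ∈ Arm 0 M) :
    ω ∈ ArmBox 0 r M := by
  obtain ⟨u, hu, hc⟩ := h
  have hu' : u ∉ ball 0 r := by
    have h1 := hu.2
    simp only [mem_ball, Prod.fst_zero, Prod.snd_zero] at h1 ⊢
    omega
  obtain ⟨w, w', h1, h2, h3, h4⟩ := hc.exists_last (T := ball 0 r) self_mem_ball hu'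
  refine ⟨w, h1, u, hu, ?_⟩
  have hw' := h4.mem_left.2
  have h5 : Conn ω (ball 0 M \ ball 0 r) w' u := by
    refine h4.congr ?_
    intro e he _
    unfold fs4Open
    rw [if_neg]
    rintro ⟨h6, -⟩
    exact he.2 h6
  refine Conn.trans ?_ (h5.mono_set Set.sdiff_subset)
  refine Step.conn ⟨h3.1, h3.2.1, ?_⟩
  obtain ⟨-, -, e, he, ho⟩ := h3
  refine ⟨e, he, ?_⟩
  unfold fs4Open at ho
  rw [if_neg] at ho
  · exact ho
  · rintro ⟨h6, h7⟩
    rcases he with ⟨h8, h9⟩ | ⟨h8, h9⟩
    · exact hw' (h9 ▸ h7)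
    · exact hw' (h9 ▸ h6)

lemma fs4_arm {ω : Config} {j R L : ℕ} (hL : 1 ≤ L) (hLR : L ≤ R)
    (h : ω ∈ Arm ((j : ℤ), 0) (max j R)) :
    ω ∈ ArmBox (((j / L * L : ℕ) : ℤ), 0) L (max (j / L * L) R - L) := by
  have hj1 : j / L * L ≤ j := Nat.div_mul_le_self j L
  have hj2 : j < j / L * L + L := Nat.lt_div_mul_add hL
  set k := j / L * L with hk
  set r := max k R - L with hr
  have hrL : (r : ℤ) = max (k : ℤ) R - L := by
    rw [hr]
    push_cast [Nat.cast_sub (hLR.trans (le_max_right k R))]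
    rfl
  by_cases hrl : r ≤ L
  · refine ⟨((k : ℤ) + r, 0), ?_, ((k : ℤ) + r, 0), ⟨?_, Or.inr (Or.inl rfl)⟩, Conn.refl ?_⟩
    · simp only [mem_ball]; omega
    · simp only [mem_ball]; omega
    · simp only [mem_ball]; omega
  · push Not at hrl
    obtain ⟨u, hu, hc⟩ := h
    obtain ⟨hub, hus⟩ := hu
    obtain ⟨x, hx, hcx⟩ := hc.to_sphere (v := ((k : ℤ), 0)) (r := r)
      (by simp only [mem_ball]; omega)
      (by
        by_cases hub' : u ∈ ball ((k : ℤ), 0) r
        · right
          refine ⟨hub', ?_⟩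
          simp only [mem_ball] at hub hub'
          simp only at hus ⊢
          push_cast at hub hus
          omega
        · exact Or.inl hub')
    refine ⟨((j : ℤ), 0), ?_, x, hx, hcx.mono_set Set.inter_subset_right⟩
    simp only [mem_ball]; omega

end Pool.Agent.H57.LF

end

section

/-!
# The key inequality for the one-arm event
-/

open MeasureTheory ProbabilityTheory unitInterval

namespace Pool.Agent.H85.Gamma

open Pool.Agent.H89.Perc
open Pool.Agent.Perc (Ex ind ind_of ind_of_not ind_congr)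

end Pool.Agent.H85.Gamma

end

section

/-!
# Lower bound for the susceptibility by a second moment argument
-/

open MeasureTheory ProbabilityTheory unitInterval Filter Topology
open scoped ENNReal

namespace Pool.Agent.H85.Gamma

open Pool.Agent.H89.Perc
open Pool.Agent.Perc (Ex ind ind_of ind_of_not ind_congr ind_nonneg ind_le_one)

end Pool.Agent.H85.Gamma

end

section

/-!
# The mean cluster size of bond percolation on the square lattice is at least `c (1/2 - p)^{-2}`
-/

open MeasureTheory ProbabilityTheory unitInterval Filter Topology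
open scoped ENNReal

namespace Pool.Agent.H85.Gamma

open Pool.Agent.H89.Perc

end Pool.Agent.H85.Gamma

end

section

/-! # A winding path from crossings of rectangles -/

open MeasureTheory ProbabilityTheory unitInterval

namespace Pool.Agent.H83.EX

open Pool.Agent.H89.Perc

end Pool.Agent.H83.EX

end

section

/-!
# LINK module `PerProb`: local events have the same probability in the plane and on the cylinder

`per n ω e = ω (base n e)` with `base n e = (e.1 % n, e.2.1 + (e.1 - e.1 % n), e.2.2)`.  If `base n` is injective on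
the finite set `S` and `A` depends only on `S`, then `{ω | per n ω ∈ A}` is the image of `A` under the
relabelling, and has the same probability (the law of `(ω (base n e))_{e ∈ S}` is the product law).
`base n` is injective on the edges with `|e.1| ≤ k` if `2 k < n`.
-/

set_option autoImplicit false

open MeasureTheory ProbabilityTheory unitInterval

namespace Pool.Agent.H89.Link

open Pool.Agent.H89.Perc (Vert Edge Config Pr half)

end Pool.Agent.H89.Link

end

section

/-!
# LINK module `Half`: colours are transported through a half cylinder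

`halfP_inv`: induction on `h` with `row_inv` (the upper part has rows `r + 1, …, r + h`).
`halfP_congr`: induction on `h`; `row t P` only uses `t 0, …, t (L - 1)` (`wires_congr`).
-/

set_option autoImplicit false

namespace Pool.Agent.H89.Link

open H56.EX

end Pool.Agent.H89.Link

end

section

/-!
# LINK module `Face`: colourings of primal or dual vertices give invariants of the patterns

`F : Vert → T` constant along the open edges of the rows `0, …, h - 1` (of `per n ω`) gives a colour of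
the medial edges: the colour of the adjacent primal vertex.  In medial coordinates the face `(c, r)`
(between the columns `c, c + 1`, at level `r`) is primal iff `c + r` is odd and is then the vertex
`((c + r + 1) / 2, (r - c - 1) / 2)`.  Put (primal colouring)
  `K c r = F ((c + r + 1) / 2, (r - c - 1) / 2)`,
  `V c r = if (c + r) % 2 = 1 then K c r else K (c - 1) r`   (vertical edge in column `c` at level `r`),
  `H c r = if (c + r) % 2 = 1 then K c r else K c (r + 1)`   (horizontal edge from `(c, r)` to `(c + 1, r)`).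
Then `RowCol (tB (per n ω) · r) (V · (r + 1)) (H · r) (V · r)`:
* `c + r` even: `medge c r = (a, b, false)`, `a = (c + r) / 2`, `b = (r - c) / 2`; South-West face
  `(c - 1, r)` = `src`, North-East face `(c, r + 1)` = `tgt`; `V c r = K (c-1) r`, `V c (r+1) = K c (r+1)`,
  `H c r = K c (r+1)`, `H (c-1) r = K (c-1) r`; `tB = true` iff the edge is open.
* `c + r` odd: `medge c r = (a, b, true)`, `a = (c + r + 1) / 2`, `b = (r - c - 1) / 2`; South-East face
  `(c, r)` = `src`, North-West face `(c - 1, r + 1)` = `tgt`; `V c r = K c r = H c r`,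
  `V c (r+1) = K (c-1) (r+1) = H (c-1) r`; `tB = false` iff the edge is open.
At the top level `h` (even) the star joins `c` odd with `c + 1`, both are next to the primal face `(c, h)`.
The dual colouring is the same with parities exchanged: `K c r = G ((c + r) / 2, (r - c - 2) / 2)` for
`c + r` even, `V c r = if (c + r) % 2 = 0 then K c r else K (c - 1) r`, `H c r = if (c + r) % 2 = 0 then K c r
else K c (r + 1)`; at the top all dual faces have the same colour `a`.
`V c 0` is `F (pv c)` resp. `G (dv c)`.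
`tB (per n ω) (c + 2 n) r = tB (per n ω) c r` (`tB_per`).
For `dn` use the reflected colouring `V' c r = V c (-r)`, `H' c r = H c (-1 - r)`; the types are flipped:
at the vertex `(c, -1 - r)`, top and bottom are exchanged (`top' = V c (-r-1)` is the edge below it).
-/

set_option autoImplicit false

namespace Pool.Agent.H89.Link

open H56.EX
open Pool.Agent.H89.Perc (Vert Edge Config src tgt lowFace)

end Pool.Agent.H89.Link

end

section

/-!
# Periodic configurations: confinement of two clusters by seals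

`Γ` is a group of periods.  `F₁`, `F₂` are clusters in a domain `D`, `X₁`, `X₂` corridors attached to
them, `M₁`, `M₂` the mouths through which they leave `D`.
-/

set_option autoImplicit false

open MeasureTheory ProbabilityTheory unitInterval

namespace Pool.Agent.H47.EX

open Pool.Agent.H89.Perc Pool.Agent.H59.EX

variable {Γ : AddSubgroup (ℤ × ℤ)}

end Pool.Agent.H47.EX

end

section

/-!
# The diagonal source
-/

set_option autoImplicit false

namespace Pool.Agent.H47.EX

open Pool.Agent.H89.Perc Pool.Agent.H59.EX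

end Pool.Agent.H47.EX

end

section

/-!
# LINK module `Four`: the four-leg event implies four arms

Composite graph `H56.EX.Conn 2 2 (L - 2) P Q` on `ℤ ⊕ ℤ` with `P = up s n h ω`, `Q = dn s n h ω`: `inl x ~ inl (P.m x)`,
`inr y ~ inr (Q.m y)`, `inl c ~ inr c` for the columns `c` with `c % L ≥ 2`.  Home columns: `c % L ∈ {0, 1}`.
(A) If `Leg 2 2 (L - 2) P Q` then no two different ones of the four nodes `inl 0, inl 1, inr 0, inr 1` are connected
(`a = b = 0` in `Leg`, `Odd 0` is false).
(B) Let `Z` be a finite set of nodes closed under the steps and containing one of the four home nodes `ℓ`, all of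
whose nodes have a position in `(-L + 1, L)`, so the only home positions in `Z` are `0` and `1`.  The connected
component `O` of `ℓ` is contained in `Z`, finite, closed under the fixed point free involution
`α : inl x ↦ inl (P.m x), inr y ↦ inr (Q.m y)`, so `|O|` is even; `O` without its home nodes is closed under
`β : inl c ↔ inr c`, so it has an even number of elements.  So `O` contains an even number of home nodes, hence
another home node; this contradicts (A).
(i) Suppose `x = (0, 0)` is not joined to `sphere 0 k` in `ball 0 k`.  `C` = vertices joined to `x` in `ball 0 k`,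
its indicator is constant along open edges; `Z` = nodes whose position `c` has `pv c ∈ C` is closed under the steps
(`up_primal`, `dn_primal`), finite, contains `inl 0`; positions are in `[-2 k - 1, 2 k]` and `2 k + 2 < L`. (B).
(ii) Suppose `y = (1, -1)` is not joined to `sphere 0 k` in `ball 0 k`: the same with `inl 1` (`pv 1 = y`).
(iii) Suppose `x` and `y` are joined in `ball 0 k`.  `exists_pathSum` gives `c` with odd degrees exactly at `x`, `y`;
add the two edges `(0, 0, false)` and `(1, -1, true)` (the path `x, (1, 0), y`): `A`, all degrees even, finite,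
in the strip `H = 2 k + 2`.  `G' = pot A H`.  `Gu = G'` except `Gu q = G' q + 1` for `q = (0, -1)`, `Gd = G'`.
Then `Gu (lowFace e) = Gu (src e)` for closed `e` in rows `≥ 0`: the edges of rows `≥ 0` with `q` as one of their
faces are exactly `(0, 0, false)` and `(1, -1, true)`.  The edges of rows `< 0` at `q` are `(0, -1, false)`,
`(0, -1, true)`.  `Gu = 0` at level `h`, `Gd` = constant at level `-h` (`2 k + 2 ≤ h`); the constant is `0` because
`G'` has finite support in every level (or: `G' (a, b) = 0` for large `a`).  So the sets of nodes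
`Z_ε = {inl c | Gu (dv c) = ε} ∪ {inr c | Gd (dv c) = ε}` are closed under the steps (for `c` not home,
`dv c ≠ q`, so `Gu = Gd`); `dv 0 = dv 1 = q`.  `Gu q ≠ Gd q`, so one of them is `1`: `Z_1` is finite, with positions in
`[-2 k, 2 k + 1]` (on the seam `pot A H (a, -a-1) ≠ 0` needs `|a| ≤ k`), and contains exactly the home nodes
`inl 0, inl 1` or exactly `inr 0, inr 1`.  (B) gives a contradiction (the other home node in the component is
different from `ℓ`, and any two different home nodes contradict (A)).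
-/

set_option autoImplicit false

namespace Pool.Agent.H89.Link

open H56.EX
open Pool.Agent.H89.Perc (Vert Edge Config src tgt lowFace vsum)

variable {L n : ℕ}

/-! ### Finite invariant sets of nodes -/

/-! ### The primal arms -/

/-! ### The two arms are not connected -/

end Pool.Agent.H89.Link

end

section

/-!
# LINK module `Star`: the pattern of small arcs, reset by an alternating row

`exists_star`: write down the involution `x ↦ if x % 2 = 0 then x - 1 else x + 1`.
`row_alt`: apply `row_inv` with `T = ℤ`, `bot c = (c + 1) / 2`, `hor c = if c % 2 = 1 then (c + 1) / 2 else C`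
and `top = C` constant (`C` any constant, e.g. `C = 0` and colours in `Option ℤ`): so
`bot ((row t P).m x) = bot x`, hence `(row t P).m x ∈ {x, x + 1}` for odd `x` and `∈ {x - 1, x}` for even `x`,
and `(row t P).m x ≠ x` (`Pat.ne`).  Conclude with `Pat.ext`.
-/

set_option autoImplicit false

namespace Pool.Agent.H89.Link

open H56.EX

variable {L : ℕ}

end Pool.Agent.H89.Link

end

section

/-!
# LINK module `Law`: the law of the two patterns, and its limit

`pr_up_dn`: for `L = 2 n`, the bits `tB (per n ω) c r`, `0 ≤ c < L`, `-h ≤ r < h`, are the values of `ω`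
(or their negations) at pairwise different edges: `per n ω (medge c r) = ω (medge' c r)` with
`medge' c r = (e.1 % n, e.2.1 + (e.1 - e.1 % n), e.2.2)`, `e = medge c r`; the map `(c, r) ↦ medge' c r` is
injective on `0 ≤ c < 2 n` (`e.1 + e.2.1 = r` and the orientation and `e.1 - e.2.1` determine `c` modulo `2 n`).
So they are independent fair bits (`Pr half`, product measure), and the same holds for the reflected and
flipped bits of the lower half.  Then induction over the rows (the row next to the seam is applied last;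
peel it off).  A convenient formulation: the probability of a set of bit arrays is
(number of arrays) / 2 ^ (2 h L); see `Pool.Agent.H89.Perc.Prob` for cylinder probabilities.
`law_tendsto`: the kernel `K P Q = 2 ^ (-L) #{t | row (bits t) P = Q}` satisfies `K P s ≥ 2 ^ (-L)` for all `P`
by `row_alt`.  For a signed/complex vector `w` with sum zero, `‖K w‖₁ ≤ (1 - 2 ^ (-L)) ‖w‖₁`.  Apply it to
`w = law s h - v / ∑ v` (`law s h` has sum one, is the `h`-th iterate, and `v` is fixed by `Stat v`).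
-/

set_option autoImplicit false

open MeasureTheory ProbabilityTheory Filter Topology

namespace Pool.Agent.H89.Link

open H56.EX
open Pool.Agent.H89.Perc (Vert Edge Config Pr half)

variable {L n : ℕ}

/-! ### Fair bits -/

open Pool.Agent.H89.Perc (LocalOn ofS ofS_apply Pr_eq_Ex)
open Pool.Agent.Perc (Ex ind ind_of ind_of_not ind_congr)

/-! ### Patterns of arrays of bits -/

/-! ### The edges -/

/-! ### Convergence -/

end Pool.Agent.H89.Link

end

section

/-!
# LINK module `One`: one arm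

`arm_of_noSurr`.  Suppose `per n ω ∉ Arm 0 k`.  Let `C` be the set of vertices joined to `0` inside
`ball 0 k`; it is finite, contains `0` and no point of `sphere 0 k`, hence its indicator `F` is constant along
all open edges of `per n ω` (a neighbour of a point of the ball which is not on the sphere is in the ball).
By `up_primal`, `dn_primal` the finite set `X = {c | pv c ∈ C}` is invariant under both involutions.
`pv c = (j, -j)` with `j = (c + 1) / 2`: the columns `2 j - 1, 2 j`.  So
`#{c ∈ X | 0 ≤ c} = 1 + 2 #{j ≥ 1 | (j, -j) ∈ C}` is odd, which contradicts `NoSurr`.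

`noSurr_of_path`.  `exists_pathSum` and `exists_halfSum` give `A : Edge → ZMod 2` supported on open edges of
`per n ω` in the strip, with `0` the only vertex of odd degree; `G = pot A H`.  By `pot_odd`
`Gu f = G f` satisfies `Gu (lowFace e) = Gu (src e)` for all closed edges `e` in rows `≥ 0` (there
`e.1 = 0 ∧ e.2.1 < 0` is impossible), and `Gd f = G f + (if 0 ≤ f.1 then 1 else 0)` satisfies the same for closed
edges in rows `< 0` (check: only `e = (0, b, true)` has `lowFace e`, `src e` on different sides of `f.1 = 0`, and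
in the rows `< 0` it has `b < 0`).  Top level `h ≥ H`: `Gu = 0` (`pot_top`).  Bottom level `-h ≤ -H`: `Gd` is
constant: for `f.1 + f.2 + 1 = -h` moving from `(a, b)` to `(a + 1, b - 1)` crosses edges of rows `< -H` (or
`≤ -H`), where `A = 0`, so `Gd` does not change; (equivalently `Gd (a, b) = Gd (a+1, b-1)` for all `a`, then
integer induction).  Hence `up_dual`, `dn_dual`: with `hu c = Gu (dv c)`, `hd c = Gd (dv c)`:
`hu ((up ..).m c) = hu c`, `hd ((dn ..).m c) = hd c`, and `hu c + hd c = if 0 ≤ c then 1 else 0`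
(`(dv c).1 = c / 2 ≥ 0 ↔ c ≥ 0`).  For an invariant finite set `X`: `∑_{c ∈ X} hu c = 0` in `ZMod 2` (a fixed point
free involution of `X` preserves `hu`; `Finset.sum_involution`), same for `hd`; so `#{c ∈ X | 0 ≤ c}` is even.
-/

set_option autoImplicit false

namespace Pool.Agent.H89.Link

open H56.EX
open Pool.Agent.H89.Perc (Vert Edge Config src tgt lowFace vsum)

variable {L n : ℕ}

end Pool.Agent.H89.Link

end

section

/-!
# LINK module `Final`

Let `h → ∞` through even numbers in `pr_up_dn` with `A` = the event in question, use `law_tendsto`.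
-/

set_option autoImplicit false

open MeasureTheory ProbabilityTheory Filter Topology

namespace Pool.Agent.H89.Link

open H56.EX
open Pool.Agent.H89.Perc (Vert Edge Config Pr half)

variable {L n : ℕ}

end Pool.Agent.H89.Link

end

section

/-! Topological lemmas on insertions of small arcs (EXACT project). -/

namespace Pool.Agent.H14.EX

open H56.EX

variable {L : ℕ}

lemma Cg_def {x y : ℤ} : Cg L x y ↔ ∃ a : ℤ, x = y + L * a := by
  constructor
  · rintro ⟨a, ha⟩; exact ⟨a, by linarith only [ha]⟩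
  · rintro ⟨a, ha⟩; exact ⟨a, by rw [ha]; ring⟩

/-- congruent numbers at distance less than the modulus are equal -/
lemma Cg_eq {N : ℕ} {x y : ℤ} (h : Cg N x y) (h1 : x - y < N) (h2 : y - x < N) : x = y := by
  rcases dvd_cases h with h | h | h <;> omega

lemma phi_succ_of_not (hL : 1 ≤ L) {i y : ℤ} (h : ¬ Cg L y i) : phi L (i + 1) y = phi L i y := by
  obtain ⟨a, s, h0, h1, rfl⟩ := exists_form (N := (L : ℤ)) (by omega) i y
  have hs : s ≠ 0 := by
    rintro rfl
    exact h ⟨a, by ring⟩
  rw [phi_form hL i a s h0 h1]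
  have := phi_form hL (i + 1) a (s - 1) (by omega) (by omega)
  rw [show i + 1 + (s - 1) + (L : ℤ) * a = i + s + L * a by ring] at this
  rw [this]
  ring

lemma phi_succ_of (hL : 1 ≤ L) {i y : ℤ} (h : Cg L y i) : phi L (i + 1) y = phi L i y - 2 := by
  obtain ⟨a, rfl⟩ := Cg_def.1 h
  have e1 := phi_form hL i a 0 le_rfl (by omega)
  have e2 := phi_form hL (i + 1) (a - 1) (L - 1) (by omega) (by omega)
  rw [show i + 0 + (L : ℤ) * a = i + L * a by ring] at e1
  rw [show i + 1 + ((L : ℤ) - 1) + L * (a - 1) = i + L * a by ring] at e2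
  rw [e1, e2]
  ring

lemma phi_shift (i y : ℤ) : phi L (i + 1) (y + 1) = phi L i y + 1 := by
  unfold phi
  rw [show y + 1 - (i + 1) = y - i by ring]
  ring

/-- the position `phi L i y` for `y ≡ i` is `≡ i + 2` -/
lemma phi_Cg (hL : 1 ≤ L) {i y : ℤ} (h : Cg L y i) : Cg (L + 2) (phi L i y) (i + 2) := by
  obtain ⟨a, rfl⟩ := Cg_def.1 h
  have e1 := phi_form hL i a 0 le_rfl (by omega)
  rw [show i + 0 + (L : ℤ) * a = i + L * a by ring] at e1
  rw [e1]
  exact ⟨a, by push_cast; ring⟩

/-- positions `j`, `j+1` are not moved by an insertion at `j+2` -/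
lemma phi_far (hL2 : 2 ≤ L) (j a : ℤ) :
    phi L (j + 2) (j + L * a) = j + (L + 2) * a ∧
    phi L (j + 2) (j + 1 + L * a) = j + 1 + (L + 2) * a := by
  have hL : 1 ≤ L := by omega
  have e1 := phi_form hL (j + 2) (a - 1) (L - 2) (by omega) (by omega)
  have e2 := phi_form hL (j + 2) (a - 1) (L - 1) (by omega) (by omega)
  rw [show j + 2 + ((L : ℤ) - 2) + L * (a - 1) = j + L * a by ring] at e1
  rw [show j + 2 + ((L : ℤ) - 1) + L * (a - 1) = j + 1 + L * a by ring] at e2
  rw [e1, e2]
  constructor <;> ring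

lemma phi_far_Cg (hL2 : 2 ≤ L) (j y : ℤ) :
    (Cg (L + 2) (phi L (j + 2) y) j ↔ Cg L y j) ∧
    (Cg (L + 2) (phi L (j + 2) y) (j + 1) ↔ Cg L y (j + 1)) := by
  have hL : 1 ≤ L := by omega
  refine ⟨⟨?_, ?_⟩, ⟨?_, ?_⟩⟩
  · intro h
    obtain ⟨a, ha⟩ := Cg_def.1 h
    have e : phi L (j + 2) y = phi L (j + 2) (j + L * a) := by
      rw [(phi_far hL2 j a).1, ha]; push_cast; ring
    rw [phi_inj hL e]
    exact ⟨a, by ring⟩
  · intro h
    obtain ⟨a, rfl⟩ := Cg_def.1 h
    rw [(phi_far hL2 j a).1]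
    exact ⟨a, by push_cast; ring⟩
  · intro h
    obtain ⟨a, ha⟩ := Cg_def.1 h
    have e : phi L (j + 2) y = phi L (j + 2) (j + 1 + L * a) := by
      rw [(phi_far hL2 j a).2, ha]; push_cast; ring
    rw [phi_inj hL e]
    exact ⟨a, by ring⟩
  · intro h
    obtain ⟨a, rfl⟩ := Cg_def.1 h
    rw [(phi_far hL2 j a).2]
    exact ⟨a, by push_cast; ring⟩

lemma phi_far_add (hL2 : 2 ≤ L) {j y : ℤ} (h : Cg L y j) :
    phi L (j + 2) (y + 1) = phi L (j + 2) y + 1 := by
  obtain ⟨a, rfl⟩ := Cg_def.1 h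
  rw [(phi_far hL2 j a).1, show j + (L : ℤ) * a + 1 = j + 1 + L * a by ring,
    (phi_far hL2 j a).2]
  ring

lemma phi_far_sub (hL2 : 2 ≤ L) {j y : ℤ} (h : Cg L y (j + 1)) :
    phi L (j + 2) (y - 1) = phi L (j + 2) y - 1 := by
  have h' : Cg L (y - 1) j := by
    have := Cg.sub 1 h
    rwa [show j + 1 - 1 = j by ring] at this
  have := phi_far_add hL2 h'
  rw [show y - 1 + 1 = y by ring] at this
  rw [this]
  ring

end Pool.Agent.H14.EX

end

section

/-!
# Interface for the construction of the polynomial qKZ solution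

`PsiPre Ψ` collects the properties of `Ψ` which are obtained directly from the construction; the arc
recursion (`arc_zero`, `arc` of `PsiProps`) is derived from `PsiPre` and the triangularity lemma.
-/

namespace Pool.Agent.H12.QKZ

open H56.EX

end Pool.Agent.H12.QKZ

end

section

/-! Arc recursion of the polynomial qKZ solution (EXACT project): `arc_zero_of`, `arc_of`. -/

namespace Pool.Agent.H14.EX

open H56.EX Pool.Agent.H12.QKZ

variable {L : ℕ}

/-! ### Push-forwards -/

/-- push-forward of a vector along a map of patterns -/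
noncomputable def pf {L M : ℕ} (f : Pat L → Pat M) (v : Pat L → ℂ) (Q : Pat M) : ℂ :=
  ∑ P : Pat L, if f P = Q then v P else 0

lemma eop_eq_pf (i : ℤ) (v : Pat L → ℂ) : eop i v = pf (E i) v := rfl

/-! ### `arc_zero` -/

variable {Ψ : ∀ L : ℕ, Pat L → (ℤ → ℂ) → ℂ}

lemma q4 : q ^ 4 = q := by
  have := _root_.H56.EX.q_cube
  calc q ^ 4 = q ^ 3 * q := by ring
    _ = q := by rw [this, one_mul]

lemma not_Cg_self_succ (hL : 2 ≤ L) {x i : ℤ} (h : Cg L x i) : ¬ Cg L x (i + 1) := fun h' =>
  not_Cg_succ hL i (Cg.trans' (Cg.symm' h) h')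

/-- periodicity by multiples of the period -/
lemma Per_mul {ξ : ℤ → ℂ} (h : Per L ξ) (x a : ℤ) : ξ (x + L * a) = ξ x := by
  induction a using Int.induction_on with
  | zero => simp
  | succ a ih => rw [show x + (L : ℤ) * (a + 1) = x + L * a + L by ring, h, ih]
  | pred a ih =>
    have := h (x + (L : ℤ) * (-a - 1))
    rw [show x + (L : ℤ) * (-a - 1) + L = x + L * -a by ring, ih] at this
    exact this.symm

lemma Per_Cg {ξ : ℤ → ℂ} (h : Per L ξ) {x y : ℤ} (hxy : Cg L x y) : ξ x = ξ y := by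
  obtain ⟨a, rfl⟩ := Cg_def.1 hxy
  exact Per_mul h y a

/-! ### Insertion of the parameters `q² w, w` -/

/-- the parameters `ξ` with `q² w, w` inserted at `i, i+1` -/
noncomputable def insp (L : ℕ) (i : ℤ) (w : ℂ) (ξ : ℤ → ℂ) : ℤ → ℂ :=
  fun x => if Cg (L + 2) x i then q ^ 2 * w else if Cg (L + 2) x (i + 1) then w else ξ (psi L i x)

lemma insp_i {i x : ℤ} {w : ℂ} {ξ : ℤ → ℂ} (h : Cg (L + 2) x i) :
    insp L i w ξ x = q ^ 2 * w := by
  simp only [insp, if_pos h]

lemma insp_succ {i x : ℤ} {w : ℂ} {ξ : ℤ → ℂ} (h : Cg (L + 2) x (i + 1)) :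
    insp L i w ξ x = w := by
  have h' : ¬ Cg (L + 2) x i := fun h' => not_Cg_self_succ (by omega) h' h
  simp only [insp, if_neg h', if_pos h]

lemma insp_phi (hL : 1 ≤ L) (i y : ℤ) (w : ℂ) (ξ : ℤ → ℂ) :
    insp L i w ξ (phi L i y) = ξ y := by
  have := phi_not hL i y
  simp only [insp, if_neg this.1, if_neg this.2, psi_phi hL]

lemma insp_Per (hL : 1 ≤ L) {ξ : ℤ → ℂ} (h : Per L ξ) (i : ℤ) (w : ℂ) :
    Per (L + 2) (insp L i w ξ) := by
  intro x
  have hd : Cg (L + 2) (x + ((L + 2 : ℕ) : ℤ)) x := ⟨1, by ring⟩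
  rcases pos_cases hL i x with hx | hx | ⟨y, rfl⟩
  · rw [insp_i hx, insp_i (Cg.trans' hd hx)]
  · rw [insp_succ hx, insp_succ (Cg.trans' hd hx)]
  · have e : phi L i y + ((L + 2 : ℕ) : ℤ) = phi L i (y + L) := by
      rw [phi_add_L hL]; push_cast; ring
    rw [e, insp_phi hL, insp_phi hL, h]

/-- every periodic family with `ζ_i = q² ζ_{i+1}` is an insertion -/
lemma eq_insp (hL : 1 ≤ L) {ζ : ℤ → ℂ} (h : Per (L + 2) ζ) (i : ℤ)
    (hi : ζ i = q ^ 2 * ζ (i + 1)) :
    ζ = insp L i (ζ (i + 1)) (fun y => ζ (phi L i y)) := by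
  funext x
  rcases pos_cases hL i x with hx | hx | ⟨y, rfl⟩
  · rw [insp_i hx, Per_Cg h hx, hi]
  · rw [insp_succ hx, Per_Cg h hx]
  · rw [insp_phi hL]

lemma phi_Per (hL : 1 ≤ L) {ζ : ℤ → ℂ} (h : Per (L + 2) ζ) (i : ℤ) :
    Per L (fun y => ζ (phi L i y)) := by
  intro y
  show ζ (phi L i (y + L)) = ζ (phi L i y)
  rw [phi_add_L hL]
  have := h (phi L i y)
  push_cast at this
  exact this

lemma swp_i {N : ℕ} {i x : ℤ} {ζ : ℤ → ℂ} (h : Cg N x i) : swp N i ζ x = ζ (x + 1) := by
  simp only [swp, if_pos h]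

lemma swp_succ {N : ℕ} (hN : 2 ≤ N) {i x : ℤ} {ζ : ℤ → ℂ} (h : Cg N x (i + 1)) :
    swp N i ζ x = ζ (x - 1) := by
  have h' : ¬ Cg N x i := fun h' => not_Cg_self_succ hN h' h
  simp only [swp, if_neg h', if_pos h]

lemma swp_other {N : ℕ} {i x : ℤ} {ζ : ℤ → ℂ} (h : ¬ Cg N x i) (h' : ¬ Cg N x (i + 1)) :
    swp N i ζ x = ζ x := by
  simp only [swp, if_neg h, if_neg h']

/-- rotation of the inserted parameters -/
lemma insp_rot (hL : 1 ≤ L) (i : ℤ) (w : ℂ) (ξ : ℤ → ℂ) :
    (fun x => insp L i w ξ (x - 1)) = insp L (i + 1) w (fun x => ξ (x - 1)) := by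
  funext x
  rcases pos_cases hL i (x - 1) with h | h | ⟨y, hy⟩
  · have h' := Cg.add 1 h
    rw [show x - 1 + 1 = x by ring] at h'
    rw [insp_i h, insp_i h']
  · have h' := Cg.add 1 h
    rw [show x - 1 + 1 = x by ring] at h'
    rw [insp_succ h, insp_succ h']
  · have e : x = phi L (i + 1) (y + 1) := by rw [phi_shift, ← hy]; ring
    rw [hy, insp_phi hL, e, insp_phi hL, show y + 1 - 1 = y by ring]

lemma insp_apply_j (hL : 2 ≤ L) (j : ℤ) (w : ℂ) (ξ : ℤ → ℂ) :
    insp L (j + 2) w ξ j = ξ j ∧ insp L (j + 2) w ξ (j + 1) = ξ (j + 1) := by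
  have hL1 : 1 ≤ L := by omega
  have e := phi_far hL j 0
  simp only [mul_zero, add_zero] at e
  have h1 := insp_phi hL1 (j + 2) j w ξ
  have h2 := insp_phi hL1 (j + 2) (j + 1) w ξ
  rw [e.1] at h1
  rw [e.2] at h2
  exact ⟨h1, h2⟩

/-! ### The inserted vector -/

/-- the components of the inserted vector -/
noncomputable def Th (Ψ : ∀ L : ℕ, Pat L → (ℤ → ℂ) → ℂ) (i : ℤ) (w : ℂ) (P : Pat L)
    (ξ : ℤ → ℂ) : ℂ := Ψ (L + 2) (ins i P) (insp L i w ξ)

/-! ### Products over a period -/

/-! ### Generic parameters -/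

/-- generic parameters with respect to `w` -/
def gen (L : ℕ) (w : ℂ) : Set (ℤ → ℂ) :=
  {ξ | Per L ξ ∧ (∀ x y, ξ x = ξ y → Cg L x y) ∧ ∀ x, ξ x ≠ w ∧ ξ x ≠ q * w}

/-- the exchange of positions -/
noncomputable def sw (L : ℕ) (i x : ℤ) : ℤ :=
  if Cg L x i then x + 1 else if Cg L x (i + 1) then x - 1 else x

lemma swp_eq (i : ℤ) (ξ : ℤ → ℂ) (x : ℤ) : swp L i ξ x = ξ (sw L i x) := by
  unfold swp sw
  split_ifs <;> rfl

lemma sw_Cg {i x y : ℤ} (h : Cg L x y) : sw L i y - sw L i x = y - x := by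
  have e1 : Cg L x i ↔ Cg L y i :=
    ⟨fun h' => Cg.trans' (Cg.symm' h) h', fun h' => Cg.trans' h h'⟩
  have e2 : Cg L x (i + 1) ↔ Cg L y (i + 1) :=
    ⟨fun h' => Cg.trans' (Cg.symm' h) h', fun h' => Cg.trans' h h'⟩
  unfold sw
  simp only [e1, e2]
  split_ifs <;> ring

lemma sw_sw (hL : 2 ≤ L) (i x : ℤ) : sw L i (sw L i x) = x := by
  by_cases h1 : Cg L x i
  · have e : sw L i x = x + 1 := by simp only [sw, if_pos h1]
    have h2 := Cg.add 1 h1
    have h3 : ¬ Cg L (x + 1) i := fun h => not_Cg_self_succ hL h h2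
    rw [e]
    simp only [sw, if_neg h3, if_pos h2]
    ring
  by_cases h2 : Cg L x (i + 1)
  · have e : sw L i x = x - 1 := by simp only [sw, if_neg h1, if_pos h2]
    have h3 : Cg L (x - 1) i := by
      have := Cg.sub 1 h2
      rwa [show i + 1 - 1 = i by ring] at this
    rw [e]
    simp only [sw, if_pos h3]
    ring
  · have e : sw L i x = x := by simp only [sw, if_neg h1, if_neg h2]
    rw [e, e]

lemma Per_swp {ξ : ℤ → ℂ} (h : Per L ξ) (i : ℤ) : Per L (swp L i ξ) := by
  intro x
  rw [swp_eq, swp_eq]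
  have hx : Cg L x (x + L) := ⟨-1, by ring⟩
  have := sw_Cg (i := i) hx
  have e : sw L i (x + L) = sw L i x + L := by linarith only [this]
  rw [e, h]

lemma gen_swp (hL : 2 ≤ L) {w : ℂ} (i : ℤ) {ξ : ℤ → ℂ} (h : ξ ∈ gen L w) :
    swp L i ξ ∈ gen L w := by
  obtain ⟨h1, h2, h3⟩ := h
  refine ⟨Per_swp h1 i, ?_, ?_⟩
  · intro x y hxy
    rw [swp_eq, swp_eq] at hxy
    have hc := h2 _ _ hxy
    have e := sw_Cg (i := i) hc
    rw [sw_sw hL, sw_sw hL] at e
    unfold Cg at hc ⊢
    have e2 : x - y = sw L i x - sw L i y := by linarith only [e]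
    rw [e2]; exact hc
  · intro x
    rw [swp_eq]
    exact h3 _

/-- the direction of perturbation -/
noncomputable def cdir (L : ℕ) (x : ℤ) : ℂ := ((x % (L : ℤ) : ℤ) : ℂ) + 1

lemma cdir_Per : Per L (cdir L) := by
  intro x
  unfold cdir
  rw [Int.add_emod_right]

lemma cdir_ne (hL : 1 ≤ L) (x : ℤ) : cdir L x ≠ 0 := by
  unfold cdir
  have h := Int.emod_nonneg x (show (L : ℤ) ≠ 0 by omega)
  intro h0
  have h1 : ((x % (L : ℤ) + 1 : ℤ) : ℂ) = 0 := by push_cast; exact h0
  have h2 : x % (L : ℤ) + 1 = 0 := by exact_mod_cast h1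
  omega

lemma cdir_inj {x y : ℤ} (h : cdir L x = cdir L y) : Cg L x y := by
  unfold cdir at h
  have h1 : ((x % (L : ℤ) : ℤ) : ℂ) = ((y % (L : ℤ) : ℤ) : ℂ) := by linear_combination h
  have h2 : x % (L : ℤ) = y % (L : ℤ) := by exact_mod_cast h1
  exact Int.ModEq.dvd (show y ≡ x [ZMOD (L : ℤ)] from h2.symm)

end Pool.Agent.H14.EX

end

section

/-!
# The base component
-/

namespace Pool.Agent.H12.QKZ

open H56.EX MvPolynomial

theorem prod_range_swap {n k : ℕ} (hk : k + 2 ≤ n) (f : ℕ → ℂ) :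
    ∏ i ∈ Finset.range n, f (Equiv.swap k (k + 1) i) = ∏ i ∈ Finset.range n, f i := by
  refine Finset.prod_equiv (Equiv.swap k (k + 1)) ?_ (fun _ _ => rfl)
  intro i
  simp only [Finset.mem_range]
  by_cases h1 : i = k
  · subst h1; rw [Equiv.swap_apply_left]; omega
  · by_cases h2 : i = k + 1
    · subst h2; rw [Equiv.swap_apply_right]; omega
    · rw [Equiv.swap_apply_of_ne_of_ne h1 h2]

/-- Lower and upper joint degree. -/
def loF (k : ℕ) : ℕ := k.choose 2

/-- Upper joint degree in `k` variables. -/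
def upF (L k : ℕ) : ℕ := L.choose 2 - (L - k).choose 2

end Pool.Agent.H12.QKZ

end

section

/-!
# The total length of the arcs of a link pattern
-/

namespace Pool.Agent.H12.QKZ

open H56.EX

variable {L : ℕ}

/-- Twice the total length of the arcs. -/
noncomputable def area (P : Pat L) : ℤ := ∑ x ∈ Finset.Ico (0 : ℤ) L, |P.m x - x|

theorem area_le (P : Pat L) : area P ≤ L * L := by
  unfold area
  calc ∑ x ∈ Finset.Ico (0 : ℤ) L, |P.m x - x| ≤ ∑ x ∈ Finset.Ico (0 : ℤ) L, (L : ℤ) :=
        Finset.sum_le_sum fun x _ => (P.short x).le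
    _ = L * L := by simp

theorem sum_class (hL : 1 ≤ L) (c v : ℤ) :
    ∑ x ∈ Finset.Ico (0 : ℤ) L, (if Cg L x c then v else 0) = v := by
  have hpos : (0 : ℤ) < L := by omega
  rw [Finset.sum_eq_single (c % (L : ℤ))]
  · rw [if_pos]
    unfold Cg
    rw [show c % (L : ℤ) - c = -(c - c % L) by ring, dvd_neg]
    exact Int.dvd_self_sub_emod
  · intro x hx hne
    rw [if_neg]
    intro hc
    apply hne
    rw [Finset.mem_Ico] at hx
    have h1 : x % (L : ℤ) = c % L :=
      Int.emod_eq_emod_iff_emod_sub_eq_zero.2 (Int.emod_eq_zero_of_dvd hc)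
    rw [← h1, Int.emod_eq_of_lt hx.1 hx.2]
  · intro hx
    exfalso
    apply hx
    rw [Finset.mem_Ico]
    exact ⟨Int.emod_nonneg _ hpos.ne', Int.emod_lt_of_pos _ hpos⟩

theorem not_cg_m_self (P : Pat L) (x : ℤ) : ¬ Cg L (P.m x) x := P.not_dvd_self x

end Pool.Agent.H12.QKZ

end

section

/-!
# Good positions of a link pattern and the fibres of `e_i`
-/

namespace Pool.Agent.H12.QKZ

open H56.EX

variable {L : ℕ}

theorem cg_iff_eq_zero {L : ℕ} {x y : ℤ} (h1 : x - y < L) (h2 : -(L : ℤ) < x - y) :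
    Cg L x y ↔ x = y := by
  constructor
  · intro h
    rcases dvd_cases h with h | h | h <;> omega
  · rintro rfl; exact Cg.refl' x

theorem _root_.H56.EX.Pat.partner_close' (P : Pat L) {i : ℤ} (h : ¬ Cg L (P.m i) (i + 1)) :
    P.m (i + 1) - P.m i < L ∧ P.m i - P.m (i + 1) < L := partner_close P h

theorem exists_adj (P : Pat L) {y : ℤ} (hy : P.m y < y) :
    ∀ k : ℕ, y + k < P.m (y + k) → ∃ i, P.m i < i ∧ i + 1 < P.m (i + 1) := by
  intro k
  induction k with
  | zero => intro h; simp only [Nat.cast_zero, add_zero] at h; omega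
  | succ k ih =>
    intro h
    rcases lt_or_gt_of_ne (P.ne (y + k)) with h1 | h1
    · refine ⟨y + k, h1, ?_⟩
      have e : y + ((k + 1 : ℕ) : ℤ) = y + k + 1 := by push_cast; ring
      rw [e] at h; exact h
    · exact ih h1

theorem exists_adj' (P : Pat L) : ∃ i, P.m i < i ∧ i + 1 < P.m (i + 1) := by
  -- an opener
  obtain ⟨x, hx⟩ : ∃ x, x < P.m x := by
    rcases lt_or_gt_of_ne (P.ne 0) with h | h
    · exact ⟨P.m 0, by rw [P.inv]; exact h⟩
    · exact ⟨0, h⟩
  have hs := P.short' x
  have hy : P.m (P.m x) < P.m x := by rw [P.inv]; exact hx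
  obtain ⟨k, hk⟩ : ∃ k : ℕ, P.m x + k = x + L := ⟨(x + L - P.m x).toNat, by omega⟩
  apply exists_adj P hy k
  rw [hk, P.per]; omega

end Pool.Agent.H12.QKZ

end

section

/-! Arc recursion of the leg sums. -/

namespace H56.EX

open scoped BigOperators Classical

variable {Lt Lb L : ℕ}


/-! ### parameters -/

end H56.EX

end

section

/-! Manipulation of the parameter sequences; exchange, recursion and polynomiality of `F22`, `F13`. -/

namespace H56.EX

open scoped BigOperators Classical


end H56.EX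

end

section

/-!
# LT1: the Temperley–Lieb generator can be moved from the top pattern to the bottom pattern
at glued strands, without changing the leg class.
-/

namespace H56.EX

open Relation

variable {Lt Lb : ℕ}

section vmap

end vmap

end H56.EX

end

section

/-! Topology lemma LT4 of the EXACT project: a small arc between the last glued strand
(position `-1`) and the first hole end (position `0`) of the top pattern. -/

namespace H56.EX

variable {Lt Lb : ℕ}

section

end

end H56.EX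

end

section

/-! Symmetry of `F22`, `F13` in the glued strands. -/

namespace H56.EX

open scoped BigOperators Classical


/-! ### moving a parameter to the front -/


end H56.EX

end

section

/-! Topology lemma LT3: a small arc between the last hole end of the top pattern and the first
glued strand turns the hole end into a hole end of the bottom pattern. -/

namespace H56.EX

namespace LT3

variable {Lt Lb : ℕ}

end LT3

variable {Lt Lb : ℕ}

end H56.EX

end
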