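import Pool.Agent.H94.BG.H31.PT.M02_1
import Pool.Agent.H94.BG.H31.PT.M03_2
import Pool.Agent.H94.BG.H31.PT.M32
import Pool.Agent.H94.BG.M02

/-! The parts of this file: H89.Perc.ArmBoxLower, H83.EX.SqrtTrick, H83.EX.Glue2, H83.EX.Double, H83.EX.DualSmall, H83.EX.StrongRSW, H57.LF.FS2, H57.LF.FS3, H57.LF.FS1, H89.Perc.ThetaLimit, H89.Perc.Surround, H57.LF.FS4, H85.Gamma.KIArm, H85.Gamma.Second, H85.Gamma.Main, H83.EX.WindDet, H89.Link.PerProb, H89.Link.Half, H89.Link.Face, H47.EX.Confine, H47.EX.SrcD, H89.Link.Four, H89.Link.Star, H89.Link.Law, H89.Link.One, H89.Link.Final, H14.EX.Top, H12.QKZ.Iface, H14.EX.Arc, H12.QKZ.PhiBase, H12.QKZ.Area, H12.QKZ.Comb, H56.EX.Rec, H56.EX.Param, H96.EX.LT1, H14.EX.LT4, H56.EX.Sym, H7.EX.LT3. -/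

section

/-!
# Lower bound for annulus crossing probabilities
-/

open MeasureTheory ProbabilityTheory unitInterval

namespace Pool.Agent.H89.Perc

namespace ArmBoxLower

lemma line_h (S : Set Vert) (y x : ℤ) (n : ℕ) (h : ∀ i : ℕ, i ≤ n → ((x + i, y) : Vert) ∈ S) :
    Conn allOpen S (x, y) (x + n, y) := by
  induction n with
  | zero => simpa using Conn.refl (by simpa using h 0 le_rfl)
  | succ n ih =>
    have h1 := ih (fun i hi => h i (by omega))
    refine h1.tail ⟨h1.mem_right, ?_, ((x + n, y, false) : Edge), Or.inl ⟨rfl, ?_⟩, rfl⟩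
    · have := h (n + 1) le_rfl
      exact_mod_cast this
    · simp [tgt]; ring

lemma line_v (S : Set Vert) (x y : ℤ) (n : ℕ) (h : ∀ i : ℕ, i ≤ n → ((x, y + i) : Vert) ∈ S) :
    Conn allOpen S (x, y) (x, y + n) := by
  induction n with
  | zero => simpa using Conn.refl (by simpa using h 0 le_rfl)
  | succ n ih =>
    have h1 := ih (fun i hi => h i (by omega))
    refine h1.tail ⟨h1.mem_right, ?_, ((x, y + n, true) : Edge), Or.inl ⟨rfl, ?_⟩, rfl⟩
    · have := h (n + 1) le_rfl
      exact_mod_cast this
    · simp [tgt]; ring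

lemma line_h' (S : Set Vert) (y x x' : ℤ) (hxx : x ≤ x')
    (h : ∀ t : ℤ, x ≤ t → t ≤ x' → ((t, y) : Vert) ∈ S) : Conn allOpen S (x, y) (x', y) := by
  obtain ⟨n, hn⟩ := Int.eq_ofNat_of_zero_le (sub_nonneg.2 hxx)
  have h1 : x' = x + n := by omega
  rw [h1]
  exact line_h S y x n (fun i hi => h _ (by omega) (by omega))

lemma line_v' (S : Set Vert) (x y y' : ℤ) (hyy : y ≤ y')
    (h : ∀ t : ℤ, y ≤ t → t ≤ y' → ((x, t) : Vert) ∈ S) : Conn allOpen S (x, y) (x, y') := by
  obtain ⟨n, hn⟩ := Int.eq_ofNat_of_zero_le (sub_nonneg.2 hyy)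
  have h1 : y' = y + n := by omega
  rw [h1]
  exact line_v S x y n (fun i hi => h _ (by omega) (by omega))

lemma arc_conn {W : ℤ} (hW : 0 ≤ W) {a : Vert} (ha : a ∈ arc W) :
    Conn allOpen (arc W) a (-W, 3 * W) := by
  obtain ⟨a1, a2⟩ := a
  simp only [arc, Set.mem_ofPred_eq] at ha
  have htop : ∀ x : ℤ, -W ≤ x → x ≤ W → Conn allOpen (arc W) (x, 3 * W) (-W, 3 * W) := by
    intro x h1 h2
    refine (line_h' (arc W) (3 * W) (-W) x h1 (fun t h3 h4 => ?_)).symm
    simp only [arc, Set.mem_ofPred_eq]
    left; exact ⟨trivial, h3, by omega⟩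
  rcases ha with ⟨h1, h2, h3⟩ | ⟨h1, h2, h3⟩
  · subst h1
    exact htop a1 h2 h3
  · have hv : Conn allOpen (arc W) (a1, a2) (a1, 3 * W) := by
      refine line_v' (arc W) a1 a2 (3 * W) h2 (fun t h4 h5 => ?_)
      simp only [arc, Set.mem_ofPred_eq]
      right; exact ⟨by omega, h5, h3⟩
    refine hv.trans (htop a1 (by omega) (by omega))

lemma arc_subset {W : ℤ} (hW : 0 ≤ W) : arc W ⊆ rect (-W) W (-3 * W) (3 * W) := by
  rintro ⟨a1, a2⟩ ha
  simp only [arc, Set.mem_ofPred_eq] at ha
  simp only [rect, Set.mem_ofPred_eq]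
  omega

lemma up_subset {ω : Config} {W : ℤ} : up ω W ⊆ rect (-W) W (-3 * W) (3 * W) := by
  rintro v ⟨a, _, h⟩
  exact h.mem_left

lemma up_conn {ω : Config} {W : ℤ} (hW : 0 ≤ W) {v : Vert} (hv : v ∈ up ω W) :
    Conn allOpen (up ω W) v (-W, 3 * W) := by
  obtain ⟨a, ha, h⟩ := hv
  have h1 : Conn allOpen (up ω W) a v := by
    have h2 := h.symm
    refine h2.induction_right (P := fun x => Conn allOpen (up ω W) a x) ?_ ?_
    · exact Conn.refl ⟨a, ha, Conn.refl h2.mem_left⟩
    · intro x y hx hxy hP
      refine hP.tail ⟨hP.mem_right, ⟨a, ha, (hx.tail hxy).symm⟩, ?_⟩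
      obtain ⟨_, _, e, he, _⟩ := hxy
      exact ⟨e, he, rfl⟩
  refine h1.symm.trans ((arc_conn hW ha).mono_set ?_)
  intro b hb
  exact ⟨b, hb, Conn.refl (arc_subset hW hb)⟩

/-- crossed edge of a dual edge between two faces inside a rectangle -/
lemma crossed_mem {a b c d : ℤ} {e : Edge} {φ ψ : Vert} (hj : Joins e φ ψ)
    (h1 : φ ∈ rect a (b - 1) c (d - 1)) (h2 : ψ ∈ rect a (b - 1) c (d - 1)) :
    src (crossed e) ∈ rect a b c d ∧ tgt (crossed e) ∈ rect a b c d := by
  obtain ⟨x, y, o⟩ := e
  have h3 : src (x, y, o) ∈ rect a (b - 1) c (d - 1) ∧ tgt (x, y, o) ∈ rect a (b - 1) c (d - 1) := by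
    rcases hj with ⟨h3, h4⟩ | ⟨h3, h4⟩
    · exact ⟨h3 ▸ h1, h4 ▸ h2⟩
    · exact ⟨h4 ▸ h2, h3 ▸ h1⟩
  cases o <;> simp only [src, tgt, crossed, rect, Set.mem_ofPred_eq, if_true, if_false,
    Bool.false_eq_true] at h3 ⊢ <;> omega

theorem two_arms {ω : Config} {W : ℤ} (hW : 4 ≤ W) (h1 : HCross ω (-W) W 0 (2 * W))
    (h2 : HCross (dual ω) (-W - 1) W (-2 * W - 3) (-2)) :
    ∃ h : ℤ, -2 * W - 2 ≤ h ∧ h ≤ 2 * W ∧
      (∃ a : Vert, (a.1 = -W ∨ a.1 = W ∨ a.2 = 3 * W) ∧
        Conn ω (rect (-W) W (-3 * W) (3 * W)) (0, h) a) ∧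
      (∃ φ : Vert, φ.1 = -W ∧
        Conn (dual ω) (rect (-W) (W - 1) (-3 * W) (3 * W - 1)) (0, h - 1) φ) := by
  set B := rect (-W) W (-3 * W) (3 * W) with hB
  set C := up ω W with hC
  -- the cluster does not come below the dual crossing
  have hlow : ∀ v ∈ C, -2 * W - 2 ≤ v.2 := by
    rintro v ⟨a, ha, hc⟩
    by_contra hlt
    push Not at hlt
    have ha2 : 0 ≤ a.2 := by
      simp only [arc, Set.mem_ofPred_eq] at ha
      omega
    obtain ⟨u', v', h3, h4, h5, _, _⟩ := hc.cross_y (a := -2 * W - 3) (b := -1) (by omega)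
      (by omega) (by omega)
    have h6 : VCross ω (-W) W (-2 * W - 3) (-1) := by
      refine ⟨u', v', h3, h4, h5.mono_set ?_⟩
      rintro x ⟨hx1, hx2⟩
      simp only [rect, Set.mem_ofPred_eq] at hx1 hx2 ⊢
      omega
    have h7 := not_vcross_and_dual_hcross (by omega) h6
    exact h7 h2
  -- the open crossing meets column 0
  obtain ⟨h0, h0a, h0b, h0c⟩ : ∃ h0 : ℤ, 0 ≤ h0 ∧ h0 ≤ 2 * W ∧ ((0, h0) : Vert) ∈ C := by
    obtain ⟨u, v, hu, hv, hc⟩ := h1
    obtain ⟨u', _, h3, _, _, h5, _⟩ := hc.cross_x (a := 0) (b := 0) (by omega) (by omega) le_rfl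
    have h6 := h5.mem_right
    have h7 := h5.mem_left
    obtain ⟨x, y⟩ := u'
    simp only at h3
    subst h3
    simp only [rect, Set.mem_ofPred_eq] at h6 h7
    refine ⟨y, by omega, by omega, u, ?_, (h5.symm.mono_set ?_)⟩
    · simp only [arc, Set.mem_ofPred_eq]
      right; exact ⟨by omega, by omega, Or.inl hu⟩
    · intro x hx
      simp only [hB, rect, Set.mem_ofPred_eq] at hx ⊢
      omega
  -- first visit of the cluster on the column, from below
  have hex : ∃ k : ℕ, ((0, -3 * W + k) : Vert) ∈ C := by
    refine ⟨(h0 + 3 * W).toNat, ?_⟩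
    rw [Int.toNat_of_nonneg (by omega)]
    have : -3 * W + (h0 + 3 * W) = h0 := by ring
    rwa [this]
  classical
  obtain ⟨k, hk, hkmin⟩ : ∃ k : ℕ, ((0, -3 * W + k) : Vert) ∈ C ∧
      ∀ j : ℕ, j < k → ((0, -3 * W + j) : Vert) ∉ C :=
    ⟨Nat.find hex, Nat.find_spec hex, fun j hj => Nat.find_min hex hj⟩
  have hk1 := hlow _ hk
  simp only at hk1
  have hk2 : -3 * W + (k : ℤ) ≤ h0 := by
    by_contra hlt
    push Not at hlt
    refine hkmin (h0 + 3 * W).toNat (by omega) ?_
    rw [Int.toNat_of_nonneg (by omega)]
    have : -3 * W + (h0 + 3 * W) = h0 := by ring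
    rwa [this]
  have hkpos : 1 ≤ k := by omega
  set h : ℤ := -3 * W + k with hh
  set K := comp B C (0, -3 * W) with hK
  have hKC : ∀ w ∈ K, w ∈ B ∧ w ∉ C := fun w hw => (Conn.mem_right hw)
  -- the column below `h` is in `K`
  have hcol : ((0, h - 1) : Vert) ∈ K := by
    refine line_v' (B \ C) 0 (-3 * W) (h - 1) (by omega) (fun t h3 h4 => ⟨?_, ?_⟩)
    · simp only [hB, rect, Set.mem_ofPred_eq]
      omega
    · have := hkmin (t + 3 * W).toNat (by omega)
      rw [Int.toNat_of_nonneg (by omega)] at this
      have h5 : -3 * W + (t + 3 * W) = t := by ring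
      rwa [h5] at this
  -- the lower left corner is in `K`
  have hcorner : ((-W, -3 * W) : Vert) ∈ K := by
    refine (line_h' (B \ C) (-3 * W) (-W) 0 (by omega) (fun t h3 h4 => ⟨?_, ?_⟩)).symm
    · simp only [hB, rect, Set.mem_ofPred_eq]
      omega
    · intro hc
      have := hlow _ hc
      simp only at this
      omega
  -- a cut edge on the left side
  obtain ⟨y, hy1, hy2, hy3, hy4⟩ : ∃ y : ℤ, -3 * W ≤ y ∧ y ≤ -1 ∧ ((-W, y) : Vert) ∈ K ∧
      ((-W, y + 1) : Vert) ∉ K := by
    have hex' : ∃ j : ℕ, ((-W, -3 * W + j) : Vert) ∉ K := by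
      refine ⟨(3 * W).toNat, fun hmem => ?_⟩
      rw [Int.toNat_of_nonneg (by omega)] at hmem
      refine (hKC _ hmem).2 ⟨(-W, -3 * W + 3 * W), ?_, Conn.refl ?_⟩
      · simp only [arc, Set.mem_ofPred_eq]
        right; exact ⟨by omega, by omega, Or.inl trivial⟩
      · simp only [rect, Set.mem_ofPred_eq]; omega
    obtain ⟨j, hj, hjmin⟩ : ∃ j : ℕ, ((-W, -3 * W + j) : Vert) ∉ K ∧
        ∀ i : ℕ, i < j → ((-W, -3 * W + i) : Vert) ∈ K :=
      ⟨Nat.find hex', Nat.find_spec hex', fun i hi => by
        have := Nat.find_min hex' hi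
        rwa [not_not] at this⟩
    have hj0 : j ≠ 0 := by
      rintro rfl
      apply hj
      simpa using hcorner
    have hjle : j ≤ (3 * W).toNat := by
      by_contra hlt
      push Not at hlt
      have hmem := hjmin _ hlt
      rw [Int.toNat_of_nonneg (by omega)] at hmem
      refine (hKC _ hmem).2 ⟨(-W, -3 * W + 3 * W), ?_, Conn.refl ?_⟩
      · simp only [arc, Set.mem_ofPred_eq]
        right; exact ⟨by omega, by omega, Or.inl trivial⟩
      · simp only [rect, Set.mem_ofPred_eq]; omega
    have h3 := hjmin (j - 1) (by omega)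
    refine ⟨-3 * W + j - 1, by omega, by omega, ?_, ?_⟩
    · have h4 : -3 * W + ((j - 1 : ℕ) : ℤ) = -3 * W + j - 1 := by omega
      rwa [h4] at h3
    · have h4 : -3 * W + (j : ℤ) - 1 + 1 = -3 * W + j := by omega
      rwa [h4]
  have hhC : ((0, h) : Vert) ∉ K := fun hmem => (hKC _ hmem).2 hk
  refine ⟨h, by omega, by omega, ?_, ?_⟩
  · obtain ⟨a, ha, hc⟩ := hk
    refine ⟨a, ?_, hc⟩
    simp only [arc, Set.mem_ofPred_eq] at ha
    omega
  · refine ⟨(-W, y), rfl, ?_⟩
    have hcl : ∀ u ∈ C, ∀ w ∈ C, Conn allOpen C u w := fun u hu w hw =>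
      (up_conn (by omega) hu).trans (up_conn (by omega) hw).symm
    have hsep := sep (K := K) (a := -W) (b := W) (c := -3 * W) (d := 3 * W)
      (fun w hw => (hKC w hw).1) comp_connected (compl_comp_connected up_subset hk hcl)
      (e := (0, h - 1, true)) (e' := (-W, y, true))
      (by
        simp only [src, tgt, rect, Set.mem_ofPred_eq, if_true]
        omega)
      (by
        simp only [src, tgt, rect, Set.mem_ofPred_eq, if_true]
        omega)
      (by
        simp only [cutConfig, src, tgt, if_true, decide_eq_false_iff_not]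
        intro hiff
        apply hhC
        have := hiff.1 hcol
        rwa [sub_add_cancel] at this)
      (by
        simp only [cutConfig, src, tgt, if_true, decide_eq_false_iff_not]
        intro hiff
        exact hy4 (hiff.1 hy3))
      (φ := (0, h - 1)) (φ' := (-W, y)) (Or.inl rfl) (Or.inl rfl)
      (by
        simp only [rect, Set.mem_ofPred_eq]
        omega)
      (by
        simp only [rect, Set.mem_ofPred_eq]
        omega)
    refine ⟨hsep.1, Relation.ReflTransGen.mono ?_ _ _ hsep.2⟩
    rintro α β ⟨hα, hβ, e, hj, ho⟩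
    refine ⟨hα, hβ, e, hj, ?_⟩
    have hin := crossed_mem hj hα hβ
    simp only [dual, Bool.not_eq_true'] at ho ⊢
    have hcut := cut_comp (D := B) (C := C) (v := (0, -3 * W)) hin ho
    by_contra hopen
    rw [Bool.not_eq_false] at hopen
    rcases hcut with ⟨h3, h4⟩ | ⟨h3, h4⟩
    · refine (hKC _ h4).2 ?_
      obtain ⟨a, ha, hc⟩ := h3
      exact ⟨a, ha, Conn.trans (Step.conn ⟨hin.2, hin.1, _, (joins_src_tgt _).symm, hopen⟩) hc⟩
    · refine (hKC _ h4).2 ?_
      obtain ⟨a, ha, hc⟩ := h3
      exact ⟨a, ha, Conn.trans (Step.conn ⟨hin.1, hin.2, _, joins_src_tgt _, hopen⟩) hc⟩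

lemma sigma_half : σ half = half := by
  apply Subtype.ext
  simp only [half, unitInterval.coe_symm_eq]
  norm_num

end ArmBoxLower

open ArmBoxLower in
/-- The annulus crossing probability at `1 / 2` decays at most like the square root of the ratio of
the radii. -/
theorem armBox_lower : ∃ c > (0 : ℝ), ∀ s R : ℕ, 1 ≤ R → s ≤ R →
    c * Real.sqrt ((s + 1) / R) ≤ Pr half (ArmBox 0 s R) := by
  refine ⟨1 / 10, by norm_num, fun s R hR hs => ?_⟩
  set W : ℤ := 2 * R + 2 with hW
  set P := Pr half (ArmBox 0 s R) with hP
  -- the two crossings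
  set E1 : Set Config := {ω | HCross ω (-W) W 0 (2 * W)} with hE1
  set F2 : Set Config := {η | HCross η (-W - 1) W (-2 * W - 3) (-2)} with hF2
  set E2 : Set Config := {ω | dual ω ∈ F2} with hE2
  have hl1 : LocalOn (eRect (-W) W 0 (2 * W)) E1 := localOn_hcross _ _ _ _
  have hlF : LocalOn (eRect (-W - 1) W (-2 * W - 3) (-2)) F2 := localOn_hcross _ _ _ _
  have hl2 : LocalOn ((eRect (-W - 1) W (-2 * W - 3) (-2)).image crossed) E2 := hlF.dual'
  have hdis : Disjoint (eRect (-W) W 0 (2 * W)) ((eRect (-W - 1) W (-2 * W - 3) (-2)).image crossed) := by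
    rw [Finset.disjoint_left]
    intro e he he'
    rw [Finset.mem_image] at he'
    obtain ⟨e', he', rfl⟩ := he'
    rw [mem_eRect] at he he'
    obtain ⟨x, y, o⟩ := e'
    cases o <;> simp only [src, crossed, rect, Set.mem_ofPred_eq, if_true, if_false,
      Bool.false_eq_true] at he he' <;> omega
  have hp1 : 1 / 2 ≤ Pr half E1 := by
    have h1 := Pr_hcross_translate (p := half) (a := 0) (b := ((4 * R + 4 : ℕ) : ℤ)) (c := 0)
      (d := ((4 * R + 4 : ℕ) : ℤ)) (-W) 0
    have h2 := half_le_hcross (4 * R + 4)
    rw [← h1] at h2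
    have e1 : (0 : ℤ) + -W = -W := by ring
    have e2 : ((4 * R + 4 : ℕ) : ℤ) + -W = W := by rw [hW]; push_cast; ring
    have e3 : (0 : ℤ) + 0 = 0 := rfl
    have e4 : ((4 * R + 4 : ℕ) : ℤ) + 0 = 2 * W := by rw [hW]; push_cast; ring
    rw [e1, e2, e3, e4] at h2
    exact h2
  have hp2 : 1 / 2 ≤ Pr half E2 := by
    have h0 : Pr half E2 = Pr half F2 := by
      rw [hE2, Pr_dual hlF, sigma_half]
    rw [h0]
    have h1 := Pr_hcross_translate (p := half) (a := 0) (b := ((4 * R + 5 : ℕ) : ℤ)) (c := 0)
      (d := ((4 * R + 5 : ℕ) : ℤ)) (-W - 1) (-2 * W - 3)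
    have h2 := half_le_hcross (4 * R + 5)
    rw [← h1] at h2
    have e1 : (0 : ℤ) + (-W - 1) = -W - 1 := by ring
    have e2 : ((4 * R + 5 : ℕ) : ℤ) + (-W - 1) = W := by rw [hW]; push_cast; ring
    have e3 : (0 : ℤ) + (-2 * W - 3) = -2 * W - 3 := by ring
    have e4 : ((4 * R + 5 : ℕ) : ℤ) + (-2 * W - 3) = -2 := by rw [hW]; push_cast; ring
    rw [e1, e2, e3, e4] at h2
    exact h2
  have hp12 : 1 / 4 ≤ Pr half (E1 ∩ E2) := by
    rw [Pr_inter_of_disjoint hl1 hl2 hdis]
    nlinarith only [hp1, hp2]
  -- the blocks
  set m : ℤ := 2 * s + 1 with hm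
  set N : ℤ := (2 * W + 2 + s) / m with hN
  have hmpos : 0 < m := by omega
  let Ev : ℤ → Set Config := fun i =>
    ArmBox (0, m * i) s R ∩ {ω | dual ω ∈ ArmBox (0, m * i - 1) s R}
  have hsub : E1 ∩ E2 ⊆ ⋃ i ∈ Finset.Icc (-N) N, Ev i := by
    rintro ω ⟨hω1, hω2⟩
    obtain ⟨h, hh1, hh2, ⟨a, ha, hca⟩, ⟨φ, hφ, hcφ⟩⟩ := two_arms (by omega) hω1 hω2
    -- the index of the block
    set i : ℤ := (h + s) / m with hi
    have hi1 : m * i ≤ h + s := Int.mul_ediv_self_le hmpos.ne'
    have hi2 : h + s < m * i + m := by
      have := Int.lt_mul_ediv_self_add (x := h + s) hmpos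
      exact this
    have hiN : i ∈ Finset.Icc (-N) N := by
      rw [Finset.mem_Icc]
      constructor
      · rw [hi, Int.le_ediv_iff_mul_le hmpos]
        have h3 : 2 * W + 2 + s < m * N + m := Int.lt_mul_ediv_self_add hmpos
        have h4 : -N * m = -(m * N) := by ring
        rw [h4]
        have h5 : m * N ≤ 2 * W + 2 + s := Int.mul_ediv_self_le hmpos.ne'
        omega
      · rw [hi, hN]
        exact Int.ediv_le_ediv hmpos (by omega)
    refine Set.mem_biUnion hiN ⟨?_, ?_⟩
    · obtain ⟨x, hx, hcx⟩ := hca.to_sphere (v := ((0, m * i) : Vert)) (r := R)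
        (by simp only [mem_ball]; omega)
        (by left; simp only [mem_ball]; omega)
      refine ⟨(0, h), ?_, x, hx, hcx.mono_set Set.inter_subset_right⟩
      simp only [mem_ball]; omega
    · obtain ⟨x, hx, hcx⟩ := hcφ.to_sphere (v := ((0, m * i - 1) : Vert)) (r := R)
        (by simp only [mem_ball]; omega)
        (by left; simp only [mem_ball]; omega)
      refine ⟨(0, h - 1), ?_, x, hx, hcx.mono_set Set.inter_subset_right⟩
      simp only [mem_ball]; omega
  have hEv : ∀ i, Pr half (Ev i) ≤ P ^ 2 := by
    intro i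
    have h1 := fkg_mixed (p := half) (localOn_armBox (0, m * i) s R)
      (localOn_armBox (0, m * i - 1) s R).dual' (incr_armBox (0, m * i) s R)
      (incr_armBox (0, m * i - 1) s R).dual_compl
    have h2 : Pr half {ω | dual ω ∈ ArmBox (0, m * i - 1) s R} = P := by
      rw [Pr_dual (localOn_armBox (0, m * i - 1) s R), sigma_half, Pr_armBox]
    rw [h2, Pr_armBox] at h1
    rw [sq]
    exact h1
  have hfin : 1 / 4 ≤ (2 * (N : ℝ) + 1) * P ^ 2 := by
    have hN0 : 0 ≤ N := Int.ediv_nonneg (by omega) hmpos.le
    calc 1 / 4 ≤ Pr half (E1 ∩ E2) := hp12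
      _ ≤ Pr half (⋃ i ∈ Finset.Icc (-N) N, Ev i) := Pr_mono hsub
      _ ≤ ∑ i ∈ Finset.Icc (-N) N, Pr half (Ev i) := Pr_biUnion_le _ _
      _ ≤ ∑ _i ∈ Finset.Icc (-N) N, P ^ 2 := Finset.sum_le_sum (fun i _ => hEv i)
      _ = (2 * (N : ℝ) + 1) * P ^ 2 := by
        rw [Finset.sum_const, Int.card_Icc, nsmul_eq_mul]
        congr 1
        have : ((N + 1 - -N).toNat : ℤ) = 2 * N + 1 := by
          rw [Int.toNat_of_nonneg (by omega)]; ring
        exact_mod_cast this
  have hP0 : 0 ≤ P := Pr_nonneg
  have hR' : (1 : ℝ) ≤ R := by exact_mod_cast hR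
  have hs' : (s : ℝ) ≤ R := by exact_mod_cast hs
  have hs0 : (0 : ℝ) ≤ s := Nat.cast_nonneg s
  have hNb : (2 * (N : ℝ) + 1) * (s + 1) ≤ 24 * R := by
    have h5 : m * N ≤ 2 * W + 2 + s := Int.mul_ediv_self_le hmpos.ne'
    have h6 : ((m : ℝ)) * N ≤ 2 * W + 2 + s := by exact_mod_cast h5
    have hN0 : 0 ≤ N := Int.ediv_nonneg (by omega) hmpos.le
    have hN0' : (0 : ℝ) ≤ N := by exact_mod_cast hN0
    have h7 : (m : ℝ) = 2 * s + 1 := by rw [hm]; push_cast; ring
    have h8 : (W : ℝ) = 2 * R + 2 := by rw [hW]; push_cast; ring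
    rw [h7, h8] at h6
    nlinarith only [hR', hs', h6, hN0']
  have hkey : (s + 1) / (R : ℝ) ≤ (10 * P) ^ 2 := by
    rw [div_le_iff₀ (by linarith only [hR'])]
    nlinarith only [hfin, hNb, mul_nonneg (sq_nonneg P) hs0, mul_le_mul_of_nonneg_right hNb (sq_nonneg P)]
  have h9 : Real.sqrt ((s + 1) / R) ≤ 10 * P := Real.sqrt_le_iff.2 ⟨by linarith only [hP0], hkey⟩
  linarith only [h9]

end Pool.Agent.H89.Perc

end

section

/-! # The square-root trick -/

open MeasureTheory ProbabilityTheory unitInterval

namespace Pool.Agent.H83.EX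

open Pool.Agent.H89.Perc

end Pool.Agent.H83.EX

end

section

/-! # Two paths across an annulus without dual crossing are connected -/

open MeasureTheory ProbabilityTheory unitInterval

namespace Pool.Agent.H83.EX

open Pool.Agent.H89.Perc

end Pool.Agent.H83.EX

end

section

/-! # Doubling the length of a rectangle -/

open MeasureTheory ProbabilityTheory unitInterval

namespace Pool.Agent.H83.EX

open Pool.Agent.H89.Perc

end Pool.Agent.H83.EX

end

section

/-! # Annulus crossings of thick annuli are unlikely -/

open MeasureTheory ProbabilityTheory unitInterval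

namespace Pool.Agent.H83.EX

open Pool.Agent.H89.Perc

end Pool.Agent.H83.EX

end

section

/-! # If the squares are crossed with probability close to one, so are the long rectangles -/

open MeasureTheory ProbabilityTheory unitInterval

namespace Pool.Agent.H83.EX

open Pool.Agent.H89.Perc

end Pool.Agent.H83.EX

end

section

open MeasureTheory ProbabilityTheory unitInterval

namespace Pool.Agent.H57.LF

open Pool.Agent.H89.Perc

end Pool.Agent.H57.LF

end

section

open MeasureTheory ProbabilityTheory unitInterval

namespace Pool.Agent.H57.LF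

open Pool.Agent.H89.Perc

end Pool.Agent.H57.LF

end

section

open MeasureTheory ProbabilityTheory unitInterval

namespace Pool.Agent.H57.LF

open Pool.Agent.H89.Perc

end Pool.Agent.H57.LF

end

section

/-!
# The percolation probability is the limit of the one-arm probabilities
-/

open MeasureTheory ProbabilityTheory unitInterval Filter Topology

namespace Pool.Agent.H89.Perc

end Pool.Agent.H89.Perc

end

section

/-!
# Finite clusters are surrounded by dual paths
-/

open MeasureTheory ProbabilityTheory unitInterval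

namespace Pool.Agent.H89.Perc

end Pool.Agent.H89.Perc

end

section

open MeasureTheory ProbabilityTheory unitInterval

namespace Pool.Agent.H57.LF

open Pool.Agent.H89.Perc

end Pool.Agent.H57.LF

end

section

/-!
# The key inequality for the one-arm event
-/

open MeasureTheory ProbabilityTheory unitInterval

namespace Pool.Agent.H85.Gamma

open Pool.Agent.H89.Perc
open Pool.Agent.Perc (Ex ind ind_of ind_of_not ind_congr)

end Pool.Agent.H85.Gamma

end

section

/-!
# Lower bound for the susceptibility by a second moment argument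
-/

open MeasureTheory ProbabilityTheory unitInterval Filter Topology
open scoped ENNReal

namespace Pool.Agent.H85.Gamma

open Pool.Agent.H89.Perc
open Pool.Agent.Perc (Ex ind ind_of ind_of_not ind_congr ind_nonneg ind_le_one)

end Pool.Agent.H85.Gamma

end

section

/-!
# The mean cluster size of bond percolation on the square lattice is at least `c (1/2 - p)^{-2}`
-/

open MeasureTheory ProbabilityTheory unitInterval Filter Topology
open scoped ENNReal

namespace Pool.Agent.H85.Gamma

open Pool.Agent.H89.Perc

end Pool.Agent.H85.Gamma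

end

section

/-! # A winding path from crossings of rectangles -/

open MeasureTheory ProbabilityTheory unitInterval

namespace Pool.Agent.H83.EX

open Pool.Agent.H89.Perc

end Pool.Agent.H83.EX

end

section

/-!
# LINK module `PerProb`: local events have the same probability in the plane and on the cylinder

`per n ω e = ω (base n e)` with `base n e = (e.1 % n, e.2.1 + (e.1 - e.1 % n), e.2.2)`.  If `base n` is injective on
the finite set `S` and `A` depends only on `S`, then `{ω | per n ω ∈ A}` is the image of `A` under the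
relabelling, and has the same probability (the law of `(ω (base n e))_{e ∈ S}` is the product law).
`base n` is injective on the edges with `|e.1| ≤ k` if `2 k < n`.
-/

set_option autoImplicit false

open MeasureTheory ProbabilityTheory unitInterval

namespace Pool.Agent.H89.Link

open Pool.Agent.H89.Perc (Vert Edge Config Pr half)

end Pool.Agent.H89.Link

end

section

/-!
# LINK module `Half`: colours are transported through a half cylinder

`halfP_inv`: induction on `h` with `row_inv` (the upper part has rows `r + 1, …, r + h`).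
`halfP_congr`: induction on `h`; `row t P` only uses `t 0, …, t (L - 1)` (`wires_congr`).
-/

set_option autoImplicit false

namespace Pool.Agent.H89.Link

open H56.EX

end Pool.Agent.H89.Link

end

section

/-!
# LINK module `Face`: colourings of primal or dual vertices give invariants of the patterns

`F : Vert → T` constant along the open edges of the rows `0, …, h - 1` (of `per n ω`) gives a colour of
the medial edges: the colour of the adjacent primal vertex.  In medial coordinates the face `(c, r)`
(between the columns `c, c + 1`, at level `r`) is primal iff `c + r` is odd and is then the vertex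
`((c + r + 1) / 2, (r - c - 1) / 2)`.  Put (primal colouring)
  `K c r = F ((c + r + 1) / 2, (r - c - 1) / 2)`,
  `V c r = if (c + r) % 2 = 1 then K c r else K (c - 1) r`   (vertical edge in column `c` at level `r`),
  `H c r = if (c + r) % 2 = 1 then K c r else K c (r + 1)`   (horizontal edge from `(c, r)` to `(c + 1, r)`).
Then `RowCol (tB (per n ω) · r) (V · (r + 1)) (H · r) (V · r)`:
* `c + r` even: `medge c r = (a, b, false)`, `a = (c + r) / 2`, `b = (r - c) / 2`; South-West face
  `(c - 1, r)` = `src`, North-East face `(c, r + 1)` = `tgt`; `V c r = K (c-1) r`, `V c (r+1) = K c (r+1)`,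
  `H c r = K c (r+1)`, `H (c-1) r = K (c-1) r`; `tB = true` iff the edge is open.
* `c + r` odd: `medge c r = (a, b, true)`, `a = (c + r + 1) / 2`, `b = (r - c - 1) / 2`; South-East face
  `(c, r)` = `src`, North-West face `(c - 1, r + 1)` = `tgt`; `V c r = K c r = H c r`,
  `V c (r+1) = K (c-1) (r+1) = H (c-1) r`; `tB = false` iff the edge is open.
At the top level `h` (even) the star joins `c` odd with `c + 1`, both are next to the primal face `(c, h)`.
The dual colouring is the same with parities exchanged: `K c r = G ((c + r) / 2, (r - c - 2) / 2)` for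
`c + r` even, `V c r = if (c + r) % 2 = 0 then K c r else K (c - 1) r`, `H c r = if (c + r) % 2 = 0 then K c r
else K c (r + 1)`; at the top all dual faces have the same colour `a`.
`V c 0` is `F (pv c)` resp. `G (dv c)`.
`tB (per n ω) (c + 2 n) r = tB (per n ω) c r` (`tB_per`).
For `dn` use the reflected colouring `V' c r = V c (-r)`, `H' c r = H c (-1 - r)`; the types are flipped:
at the vertex `(c, -1 - r)`, top and bottom are exchanged (`top' = V c (-r-1)` is the edge below it).
-/

set_option autoImplicit false

namespace Pool.Agent.H89.Link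

open H56.EX
open Pool.Agent.H89.Perc (Vert Edge Config src tgt lowFace)

end Pool.Agent.H89.Link

end

section

/-!
# Periodic configurations: confinement of two clusters by seals

`Γ` is a group of periods.  `F₁`, `F₂` are clusters in a domain `D`, `X₁`, `X₂` corridors attached to
them, `M₁`, `M₂` the mouths through which they leave `D`.
-/

set_option autoImplicit false

open MeasureTheory ProbabilityTheory unitInterval

namespace Pool.Agent.H47.EX

open Pool.Agent.H89.Perc Pool.Agent.H59.EX

variable {Γ : AddSubgroup (ℤ × ℤ)}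

end Pool.Agent.H47.EX

end

section

/-!
# The diagonal source
-/

set_option autoImplicit false

namespace Pool.Agent.H47.EX

open Pool.Agent.H89.Perc Pool.Agent.H59.EX

end Pool.Agent.H47.EX

end

section

/-!
# LINK module `Four`: the four-leg event implies four arms

Composite graph `H56.EX.Conn 2 2 (L - 2) P Q` on `ℤ ⊕ ℤ` with `P = up s n h ω`, `Q = dn s n h ω`: `inl x ~ inl (P.m x)`,
`inr y ~ inr (Q.m y)`, `inl c ~ inr c` for the columns `c` with `c % L ≥ 2`.  Home columns: `c % L ∈ {0, 1}`.
(A) If `Leg 2 2 (L - 2) P Q` then no two different ones of the four nodes `inl 0, inl 1, inr 0, inr 1` are connected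
(`a = b = 0` in `Leg`, `Odd 0` is false).
(B) Let `Z` be a finite set of nodes closed under the steps and containing one of the four home nodes `ℓ`, all of
whose nodes have a position in `(-L + 1, L)`, so the only home positions in `Z` are `0` and `1`.  The connected
component `O` of `ℓ` is contained in `Z`, finite, closed under the fixed point free involution
`α : inl x ↦ inl (P.m x), inr y ↦ inr (Q.m y)`, so `|O|` is even; `O` without its home nodes is closed under
`β : inl c ↔ inr c`, so it has an even number of elements.  So `O` contains an even number of home nodes, hence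
another home node; this contradicts (A).
(i) Suppose `x = (0, 0)` is not joined to `sphere 0 k` in `ball 0 k`.  `C` = vertices joined to `x` in `ball 0 k`,
its indicator is constant along open edges; `Z` = nodes whose position `c` has `pv c ∈ C` is closed under the steps
(`up_primal`, `dn_primal`), finite, contains `inl 0`; positions are in `[-2 k - 1, 2 k]` and `2 k + 2 < L`. (B).
(ii) Suppose `y = (1, -1)` is not joined to `sphere 0 k` in `ball 0 k`: the same with `inl 1` (`pv 1 = y`).
(iii) Suppose `x` and `y` are joined in `ball 0 k`.  `exists_pathSum` gives `c` with odd degrees exactly at `x`, `y`;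
add the two edges `(0, 0, false)` and `(1, -1, true)` (the path `x, (1, 0), y`): `A`, all degrees even, finite,
in the strip `H = 2 k + 2`.  `G' = pot A H`.  `Gu = G'` except `Gu q = G' q + 1` for `q = (0, -1)`, `Gd = G'`.
Then `Gu (lowFace e) = Gu (src e)` for closed `e` in rows `≥ 0`: the edges of rows `≥ 0` with `q` as one of their
faces are exactly `(0, 0, false)` and `(1, -1, true)`.  The edges of rows `< 0` at `q` are `(0, -1, false)`,
`(0, -1, true)`.  `Gu = 0` at level `h`, `Gd` = constant at level `-h` (`2 k + 2 ≤ h`); the constant is `0` because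
`G'` has finite support in every level (or: `G' (a, b) = 0` for large `a`).  So the sets of nodes
`Z_ε = {inl c | Gu (dv c) = ε} ∪ {inr c | Gd (dv c) = ε}` are closed under the steps (for `c` not home,
`dv c ≠ q`, so `Gu = Gd`); `dv 0 = dv 1 = q`.  `Gu q ≠ Gd q`, so one of them is `1`: `Z_1` is finite, with positions in
`[-2 k, 2 k + 1]` (on the seam `pot A H (a, -a-1) ≠ 0` needs `|a| ≤ k`), and contains exactly the home nodes
`inl 0, inl 1` or exactly `inr 0, inr 1`.  (B) gives a contradiction (the other home node in the component is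
different from `ℓ`, and any two different home nodes contradict (A)).
-/

set_option autoImplicit false

namespace Pool.Agent.H89.Link

open H56.EX
open Pool.Agent.H89.Perc (Vert Edge Config src tgt lowFace vsum)

variable {L n : ℕ}

/-! ### Finite invariant sets of nodes -/

/-! ### The primal arms -/

/-! ### The two arms are not connected -/

end Pool.Agent.H89.Link

end

section

/-!
# LINK module `Star`: the pattern of small arcs, reset by an alternating row

`exists_star`: write down the involution `x ↦ if x % 2 = 0 then x - 1 else x + 1`.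
`row_alt`: apply `row_inv` with `T = ℤ`, `bot c = (c + 1) / 2`, `hor c = if c % 2 = 1 then (c + 1) / 2 else C`
and `top = C` constant (`C` any constant, e.g. `C = 0` and colours in `Option ℤ`): so
`bot ((row t P).m x) = bot x`, hence `(row t P).m x ∈ {x, x + 1}` for odd `x` and `∈ {x - 1, x}` for even `x`,
and `(row t P).m x ≠ x` (`Pat.ne`).  Conclude with `Pat.ext`.
-/

set_option autoImplicit false

namespace Pool.Agent.H89.Link

open H56.EX

variable {L : ℕ}

end Pool.Agent.H89.Link

end

section

/-!
# LINK module `Law`: the law of the two patterns, and its limit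

`pr_up_dn`: for `L = 2 n`, the bits `tB (per n ω) c r`, `0 ≤ c < L`, `-h ≤ r < h`, are the values of `ω`
(or their negations) at pairwise different edges: `per n ω (medge c r) = ω (medge' c r)` with
`medge' c r = (e.1 % n, e.2.1 + (e.1 - e.1 % n), e.2.2)`, `e = medge c r`; the map `(c, r) ↦ medge' c r` is
injective on `0 ≤ c < 2 n` (`e.1 + e.2.1 = r` and the orientation and `e.1 - e.2.1` determine `c` modulo `2 n`).
So they are independent fair bits (`Pr half`, product measure), and the same holds for the reflected and
flipped bits of the lower half.  Then induction over the rows (the row next to the seam is applied last;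
peel it off).  A convenient formulation: the probability of a set of bit arrays is
(number of arrays) / 2 ^ (2 h L); see `Pool.Agent.H89.Perc.Prob` for cylinder probabilities.
`law_tendsto`: the kernel `K P Q = 2 ^ (-L) #{t | row (bits t) P = Q}` satisfies `K P s ≥ 2 ^ (-L)` for all `P`
by `row_alt`.  For a signed/complex vector `w` with sum zero, `‖K w‖₁ ≤ (1 - 2 ^ (-L)) ‖w‖₁`.  Apply it to
`w = law s h - v / ∑ v` (`law s h` has sum one, is the `h`-th iterate, and `v` is fixed by `Stat v`).
-/

set_option autoImplicit false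

open MeasureTheory ProbabilityTheory Filter Topology

namespace Pool.Agent.H89.Link

open H56.EX
open Pool.Agent.H89.Perc (Vert Edge Config Pr half)

variable {L n : ℕ}

/-! ### Fair bits -/

open Pool.Agent.H89.Perc (LocalOn ofS ofS_apply Pr_eq_Ex)
open Pool.Agent.Perc (Ex ind ind_of ind_of_not ind_congr)

/-! ### Patterns of arrays of bits -/

/-! ### The edges -/

/-! ### Convergence -/

end Pool.Agent.H89.Link

end

section

/-!
# LINK module `One`: one arm

`arm_of_noSurr`.  Suppose `per n ω ∉ Arm 0 k`.  Let `C` be the set of vertices joined to `0` inside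
`ball 0 k`; it is finite, contains `0` and no point of `sphere 0 k`, hence its indicator `F` is constant along
all open edges of `per n ω` (a neighbour of a point of the ball which is not on the sphere is in the ball).
By `up_primal`, `dn_primal` the finite set `X = {c | pv c ∈ C}` is invariant under both involutions.
`pv c = (j, -j)` with `j = (c + 1) / 2`: the columns `2 j - 1, 2 j`.  So
`#{c ∈ X | 0 ≤ c} = 1 + 2 #{j ≥ 1 | (j, -j) ∈ C}` is odd, which contradicts `NoSurr`.

`noSurr_of_path`.  `exists_pathSum` and `exists_halfSum` give `A : Edge → ZMod 2` supported on open edges of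
`per n ω` in the strip, with `0` the only vertex of odd degree; `G = pot A H`.  By `pot_odd`
`Gu f = G f` satisfies `Gu (lowFace e) = Gu (src e)` for all closed edges `e` in rows `≥ 0` (there
`e.1 = 0 ∧ e.2.1 < 0` is impossible), and `Gd f = G f + (if 0 ≤ f.1 then 1 else 0)` satisfies the same for closed
edges in rows `< 0` (check: only `e = (0, b, true)` has `lowFace e`, `src e` on different sides of `f.1 = 0`, and
in the rows `< 0` it has `b < 0`).  Top level `h ≥ H`: `Gu = 0` (`pot_top`).  Bottom level `-h ≤ -H`: `Gd` is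
constant: for `f.1 + f.2 + 1 = -h` moving from `(a, b)` to `(a + 1, b - 1)` crosses edges of rows `< -H` (or
`≤ -H`), where `A = 0`, so `Gd` does not change; (equivalently `Gd (a, b) = Gd (a+1, b-1)` for all `a`, then
integer induction).  Hence `up_dual`, `dn_dual`: with `hu c = Gu (dv c)`, `hd c = Gd (dv c)`:
`hu ((up ..).m c) = hu c`, `hd ((dn ..).m c) = hd c`, and `hu c + hd c = if 0 ≤ c then 1 else 0`
(`(dv c).1 = c / 2 ≥ 0 ↔ c ≥ 0`).  For an invariant finite set `X`: `∑_{c ∈ X} hu c = 0` in `ZMod 2` (a fixed point
free involution of `X` preserves `hu`; `Finset.sum_involution`), same for `hd`; so `#{c ∈ X | 0 ≤ c}` is even.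
-/

set_option autoImplicit false

namespace Pool.Agent.H89.Link

open H56.EX
open Pool.Agent.H89.Perc (Vert Edge Config src tgt lowFace vsum)

variable {L n : ℕ}

end Pool.Agent.H89.Link

end

section

/-!
# LINK module `Final`

Let `h → ∞` through even numbers in `pr_up_dn` with `A` = the event in question, use `law_tendsto`.
-/

set_option autoImplicit false

open MeasureTheory ProbabilityTheory Filter Topology

namespace Pool.Agent.H89.Link

open H56.EX
open Pool.Agent.H89.Perc (Vert Edge Config Pr half)

variable {L n : ℕ}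

end Pool.Agent.H89.Link

end

section

/-! Topological lemmas on insertions of small arcs (EXACT project). -/

namespace Pool.Agent.H14.EX

open H56.EX

variable {L : ℕ}

end Pool.Agent.H14.EX

end

section

/-!
# Interface for the construction of the polynomial qKZ solution

`PsiPre Ψ` collects the properties of `Ψ` which are obtained directly from the construction; the arc
recursion (`arc_zero`, `arc` of `PsiProps`) is derived from `PsiPre` and the triangularity lemma.
-/

namespace Pool.Agent.H12.QKZ

open H56.EX

end Pool.Agent.H12.QKZ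

end

section

/-! Arc recursion of the polynomial qKZ solution (EXACT project): `arc_zero_of`, `arc_of`. -/

namespace Pool.Agent.H14.EX

open H56.EX Pool.Agent.H12.QKZ

variable {L : ℕ}

/-! ### Push-forwards -/

/-! ### `arc_zero` -/

/-! ### Insertion of the parameters `q² w, w` -/

/-! ### The inserted vector -/

/-! ### Products over a period -/

/-! ### Generic parameters -/

end Pool.Agent.H14.EX

end

section

/-!
# The base component
-/

namespace Pool.Agent.H12.QKZ

open H56.EX MvPolynomial

end Pool.Agent.H12.QKZ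

end

section

/-!
# The total length of the arcs of a link pattern
-/

namespace Pool.Agent.H12.QKZ

open H56.EX

variable {L : ℕ}

end Pool.Agent.H12.QKZ

end

section

/-!
# Good positions of a link pattern and the fibres of `e_i`
-/

namespace Pool.Agent.H12.QKZ

open H56.EX

variable {L : ℕ}

end Pool.Agent.H12.QKZ

end

section

/-! Arc recursion of the leg sums. -/

namespace H56.EX

open scoped BigOperators Classical

variable {Lt Lb L : ℕ}


/-! ### parameters -/

end H56.EX

end

section

/-! Manipulation of the parameter sequences; exchange, recursion and polynomiality of `F22`, `F13`. -/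

namespace H56.EX

open scoped BigOperators Classical


end H56.EX

end

section

/-!
# LT1: the Temperley–Lieb generator can be moved from the top pattern to the bottom pattern
at glued strands, without changing the leg class.
-/

namespace H56.EX

open Relation

variable {Lt Lb : ℕ}

section vmap

end vmap

end H56.EX

end

section

/-! Topology lemma LT4 of the EXACT project: a small arc between the last glued strand
(position `-1`) and the first hole end (position `0`) of the top pattern. -/

namespace H56.EX

variable {Lt Lb : ℕ}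

section

end

end H56.EX

end

section

/-! Symmetry of `F22`, `F13` in the glued strands. -/

namespace H56.EX

open scoped BigOperators Classical


/-! ### moving a parameter to the front -/


end H56.EX

end

section

/-! Topology lemma LT3: a small arc between the last hole end of the top pattern and the first
glued strand turns the hole end into a hole end of the bottom pattern. -/

namespace H56.EX

namespace LT3

variable {Lt Lb : ℕ}

end LT3

variable {Lt Lb : ℕ}

end H56.EX

end
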