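import Pool.Agent.H94.BG.H31.PT.M02_1
import Pool.Agent.H94.BG.H31.PT.M03_4
import Pool.Agent.H94.BG.H31.PT.M31_4
import Pool.Agent.H94.BG.H31.PT.M32

/-! The parts of this file: H89.Perc.ArmBoxLower, H83.EX.SqrtTrick, H83.EX.Glue2, H83.EX.Double, H83.EX.DualSmall, H83.EX.StrongRSW, H57.LF.FS2, H57.LF.FS3, H57.LF.FS1, H89.Perc.ThetaLimit, H89.Perc.Surround, H57.LF.FS4, H85.Gamma.KIArm, H85.Gamma.Second, H85.Gamma.Main, H83.EX.WindDet, H89.Link.PerProb, H89.Link.Half, H89.Link.Face, H47.EX.Confine, H47.EX.SrcD, H89.Link.Four, H89.Link.Star, H89.Link.Law, H89.Link.One, H89.Link.Final, H14.EX.Top, H12.QKZ.Iface, H14.EX.Arc, H12.QKZ.PhiBase, H12.QKZ.Area, H12.QKZ.Comb, H56.EX.Rec, H56.EX.Param, H96.EX.LT1, H14.EX.LT4, H56.EX.Sym, H7.EX.LT3. -/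

section

/-!
# Lower bound for annulus crossing probabilities
-/

open MeasureTheory ProbabilityTheory unitInterval

namespace Pool.Agent.H89.Perc

namespace ArmBoxLower

end ArmBoxLower

end Pool.Agent.H89.Perc

end

section

/-! # The square-root trick -/

open MeasureTheory ProbabilityTheory unitInterval

namespace Pool.Agent.H83.EX

open Pool.Agent.H89.Perc

theorem Sqrt_aux {p : I} {ι : Type*} (A : ι → Set Config)
    (s : ι → Finset Edge) : ∀ F : Finset ι, (∀ i ∈ F, LocalOn (s i) (A i)) →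
    (∀ i ∈ F, Incr (A i)) → (∃ t : Finset Edge, LocalOn t (⋂ i ∈ F, (A i)ᶜ)) ∧
      Incr (⋂ i ∈ F, (A i)ᶜ)ᶜ ∧ ∏ i ∈ F, (1 - Pr p (A i)) ≤ Pr p (⋂ i ∈ F, (A i)ᶜ) := by
  classical
  intro F
  induction F using Finset.induction_on with
  | empty =>
    intro _ _
    refine ⟨⟨∅, ?_⟩, ?_, ?_⟩
    · intro ω ω' _ _
      simp
    · intro ω ω' _ h
      simp at h
    · simp only [Finset.notMem_empty, Set.iInter_of_empty, Set.iInter_univ, Finset.prod_empty]
      rw [Pr_univ]
  | insert i F hi ih =>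
    intro hA iA
    obtain ⟨⟨t, ht⟩, hinc, hle⟩ := ih (fun j hj => hA j (Finset.mem_insert_of_mem hj))
      (fun j hj => iA j (Finset.mem_insert_of_mem hj))
    have hAi := hA i (Finset.mem_insert_self i F)
    have iAi := iA i (Finset.mem_insert_self i F)
    have hset : (⋂ j ∈ insert i F, (A j)ᶜ) = (A i)ᶜ ∩ ⋂ j ∈ F, (A j)ᶜ := by
      ext ω
      simp only [Set.mem_iInter, Set.mem_inter_iff, Finset.mem_insert, forall_eq_or_imp]
    have hAc : LocalOn (s i) (A i)ᶜ := hAi.compl
    rw [hset]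
    refine ⟨⟨s i ∪ t, (hAc.mono Finset.subset_union_left).inter (ht.mono Finset.subset_union_right)⟩,
      ?_, ?_⟩
    · rw [Set.compl_inter, compl_compl]
      intro ω ω' h hω
      rcases hω with hω | hω
      · exact Or.inl (iAi ω ω' h hω)
      · exact Or.inr (hinc ω ω' h hω)
    · rw [Finset.prod_insert hi]
      have h1 : 1 - Pr p (A i) = Pr p (A i)ᶜ := (Pr_compl hAi).symm
      rw [h1]
      calc Pr p (A i)ᶜ * ∏ j ∈ F, (1 - Pr p (A j)) ≤ Pr p (A i)ᶜ * Pr p (⋂ j ∈ F, (A j)ᶜ) :=
            mul_le_mul_of_nonneg_left hle Pr_nonneg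
        _ ≤ _ := fkg_decr hAc ht (by rw [compl_compl]; exact iAi) hinc

theorem sqrt_trick {p : I} {ι : Type*} (F : Finset ι) (hF : F.Nonempty) (A : ι → Set Config)
    (s : ι → Finset Edge) (hA : ∀ i ∈ F, LocalOn (s i) (A i)) (iA : ∀ i ∈ F, Incr (A i))
    {B : Set Config} (hB : B ⊆ ⋃ i ∈ F, A i) {δ : ℝ} (hδ : 0 ≤ δ) (h : 1 - δ ≤ Pr p B) :
    ∃ i ∈ F, 1 - δ ^ ((1 : ℝ) / F.card) ≤ Pr p (A i) := by
  obtain ⟨⟨t, ht⟩, -, hle⟩ := Sqrt_aux (p := p) A s F hA iA
  have h1 : Pr p (⋂ i ∈ F, (A i)ᶜ) ≤ δ := by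
    have h2 : B ⊆ (⋂ i ∈ F, (A i)ᶜ)ᶜ := by
      intro ω hω
      obtain ⟨i, hi, hωi⟩ := Set.mem_iUnion₂.1 (hB hω)
      intro hcon
      exact Set.mem_iInter₂.1 hcon i hi hωi
    have h3 := Pr_mono (p := p) h2
    rw [Pr_compl ht] at h3
    linarith
  have h2 := hle.trans h1
  by_contra hcon
  push Not at hcon
  have hx0 : 0 ≤ δ ^ ((1 : ℝ) / F.card) := Real.rpow_nonneg hδ _
  have hxc : (δ ^ ((1 : ℝ) / F.card)) ^ F.card = δ := by
    rw [one_div]
    exact Real.rpow_inv_natCast_pow hδ (Finset.card_pos.2 hF).ne'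
  have hf : ∀ i ∈ F, δ ^ ((1 : ℝ) / F.card) < 1 - Pr p (A i) := by
    intro i hi
    have := hcon i hi
    linarith only [this]
  have h3 : (δ ^ ((1 : ℝ) / F.card)) ^ F.card < ∏ i ∈ F, (1 - Pr p (A i)) := by
    rcases hx0.eq_or_lt with h0 | h0
    · rw [← h0, zero_pow (Finset.card_pos.2 hF).ne']
      exact Finset.prod_pos fun i hi => by
        have := hf i hi
        linarith only [hx0, this]
    · rw [← Finset.prod_const]
      exact Finset.prod_lt_prod_of_nonempty (fun i _ => h0) hf hF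
  rw [hxc] at h3
  linarith only [hle, h1, h3]

end Pool.Agent.H83.EX

end

section

/-! # Two paths across an annulus without dual crossing are connected -/

open MeasureTheory ProbabilityTheory unitInterval

namespace Pool.Agent.H83.EX

open Pool.Agent.H89.Perc

variable {ω : Config}

/-- Horizontal segments. -/
private lemma glue2_seg_x {S : Set Vert} (x y : ℤ) (n : ℕ)
    (h : ∀ z : ℤ, x ≤ z → z ≤ x + n → ((z, y) : Vert) ∈ S) :
    Conn allOpen S (x, y) (x + n, y) := by
  induction n with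
  | zero => simpa using Conn.refl (h x le_rfl (by simp))
  | succ n ih =>
    have h1 := ih fun z hz hz' => h z hz (by push_cast; omega)
    refine h1.tail ⟨h1.mem_right, h _ (by push_cast; omega) (by push_cast; omega),
      (x + n, y, false), Or.inl ⟨rfl, ?_⟩, rfl⟩
    simp [tgt, add_assoc]

/-- Vertical segments. -/
private lemma glue2_seg_y {S : Set Vert} (x y : ℤ) (n : ℕ)
    (h : ∀ z : ℤ, y ≤ z → z ≤ y + n → ((x, z) : Vert) ∈ S) :
    Conn allOpen S (x, y) (x, y + n) := by
  induction n with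
  | zero => simpa using Conn.refl (h y le_rfl (by simp))
  | succ n ih =>
    have h1 := ih fun z hz hz' => h z hz (by push_cast; omega)
    refine h1.tail ⟨h1.mem_right, h _ (by push_cast; omega) (by push_cast; omega),
      (x, y + n, true), Or.inl ⟨rfl, ?_⟩, rfl⟩
    simp [tgt, add_assoc]

private lemma glue2_seg_x' {S : Set Vert} (x x' y : ℤ) (hx : x ≤ x')
    (h : ∀ z : ℤ, x ≤ z → z ≤ x' → ((z, y) : Vert) ∈ S) :
    Conn allOpen S (x, y) (x', y) := by
  obtain ⟨n, hn⟩ := Int.eq_ofNat_of_zero_le (sub_nonneg.2 hx)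
  have h1 : x' = x + n := by omega
  subst h1
  exact glue2_seg_x x y n h

private lemma glue2_seg_y' {S : Set Vert} (x y y' : ℤ) (hy : y ≤ y')
    (h : ∀ z : ℤ, y ≤ z → z ≤ y' → ((x, z) : Vert) ∈ S) :
    Conn allOpen S (x, y) (x, y') := by
  obtain ⟨n, hn⟩ := Int.eq_ofNat_of_zero_le (sub_nonneg.2 hy)
  have h1 : y' = y + n := by omega
  subst h1
  exact glue2_seg_y x y n h

/-- Squares are connected. -/
private lemma glue2_ball {s : ℕ} {w : Vert} (hw : w ∈ ball 0 s) : Conn allOpen (ball 0 s) 0 w := by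
  obtain ⟨x, y⟩ := w
  simp only [mem_ball, Prod.fst_zero, Prod.snd_zero] at hw
  have h1 : Conn allOpen (ball 0 s) (0, 0) (x, 0) := by
    rcases le_total 0 x with h | h
    · exact glue2_seg_x' _ _ _ h fun z h1 h2 => by
        simp only [mem_ball, Prod.fst_zero, Prod.snd_zero]; omega
    · exact (glue2_seg_x' _ _ _ h fun z h1 h2 => by
        simp only [mem_ball, Prod.fst_zero, Prod.snd_zero]; omega).symm
  have h2 : Conn allOpen (ball 0 s) (x, 0) (x, y) := by
    rcases le_total 0 y with h | h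
    · exact glue2_seg_y' _ _ _ h fun z h1 h2 => by
        simp only [mem_ball, Prod.fst_zero, Prod.snd_zero]; omega
    · exact (glue2_seg_y' _ _ _ h fun z h1 h2 => by
        simp only [mem_ball, Prod.fst_zero, Prod.snd_zero]; omega).symm
  exact h1.trans h2

/-- Boundaries of squares are connected. -/
private lemma glue2_sphere {r : ℕ} {w : Vert} (hw : w ∈ sphere 0 r) :
    Conn allOpen (sphere 0 r) (r, r) w := by
  obtain ⟨x, y⟩ := w
  simp only [sphere, mem_ball, Prod.fst_zero, Prod.snd_zero, Set.mem_ofPred_eq] at hw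
  have top : ∀ x : ℤ, -r ≤ x → x ≤ r → Conn allOpen (sphere 0 r) (r, r) (x, r) := by
    intro x h1 h2
    exact (glue2_seg_x' _ _ _ h2 fun z h3 h4 => by
      simp only [sphere, mem_ball, Prod.fst_zero, Prod.snd_zero, Set.mem_ofPred_eq]; omega).symm
  have right : ∀ y : ℤ, -r ≤ y → y ≤ r → Conn allOpen (sphere 0 r) (r, r) (r, y) := by
    intro x h1 h2
    exact (glue2_seg_y' _ _ _ h2 fun z h3 h4 => by
      simp only [sphere, mem_ball, Prod.fst_zero, Prod.snd_zero, Set.mem_ofPred_eq]; omega).symm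
  obtain ⟨h1, h2 | h2 | h2 | h2⟩ := hw
  · have h3 : x = -r := by omega
    subst h3
    exact (top (-r) (by omega) (by omega)).trans
      (glue2_seg_y' _ _ _ (by omega) fun z h3 h4 => by
        simp only [sphere, mem_ball, Prod.fst_zero, Prod.snd_zero, Set.mem_ofPred_eq]; omega).symm
  · have h3 : x = r := by omega
    subst h3
    exact right y (by omega) (by omega)
  · have h3 : y = -r := by omega
    subst h3
    exact (right (-r) (by omega) (by omega)).trans
      (glue2_seg_x' _ _ _ (by omega) fun z h3 h4 => by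
        simp only [sphere, mem_ball, Prod.fst_zero, Prod.snd_zero, Set.mem_ofPred_eq]; omega).symm
  · have h3 : y = r := by omega
    subst h3
    exact top x (by omega) (by omega)

/-- A step out of a set `K` is along a cut edge. -/
private lemma glue2_cut {K S : Set Vert} {ω : Config} {u v : Vert} (h : Step ω S u v)
    (hu : u ∉ K) (hv : v ∈ K) :
    ∃ e, Joins e u v ∧ cutConfig K e = false ∧ src e ∈ S ∧ tgt e ∈ S := by
  obtain ⟨h1, h2, e, h3, h4⟩ := h
  refine ⟨e, h3, ?_, ?_⟩
  · rcases h3 with ⟨h5, h6⟩ | ⟨h5, h6⟩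
    · subst h5 h6; simp [cutConfig, hu, hv]
    · subst h5 h6; simp [cutConfig, hu, hv]
  · rcases h3 with ⟨h5, h6⟩ | ⟨h5, h6⟩
    · subst h5 h6; exact ⟨h1, h2⟩
    · subst h5 h6; exact ⟨h2, h1⟩

/-- A boundary face next to an edge of the sphere. -/
private lemma glue2_face {r : ℕ} (hr : 1 ≤ r) {e : Edge} (h1 : src e ∈ sphere 0 r)
    (h2 : tgt e ∈ sphere 0 r) :
    ∃ φ : Vert, IsFace φ e ∧ φ ∈ rect (-r) (r - 1) (-r) (r - 1) ∧
      (φ.1 = -r ∨ φ.1 = r - 1 ∨ φ.2 = -r ∨ φ.2 = r - 1) := by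
  obtain ⟨x, y, b⟩ := e
  cases b
  · simp only [sphere, mem_ball, Prod.fst_zero, Prod.snd_zero, Set.mem_ofPred_eq, src, tgt,
      Bool.false_eq_true, if_false] at h1 h2
    by_cases h : y = r
    · refine ⟨(x, y - 1), Or.inr (by simp), ?_, ?_⟩
      · simp only [rect, Set.mem_ofPred_eq]; omega
      · right; right; right; show y - 1 = r - 1; omega
    · refine ⟨(x, y), Or.inl rfl, ?_, ?_⟩
      · simp only [rect, Set.mem_ofPred_eq]; omega
      · simp only; omega
  · simp only [sphere, mem_ball, Prod.fst_zero, Prod.snd_zero, Set.mem_ofPred_eq, src, tgt,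
      if_true] at h1 h2
    by_cases h : x = r
    · refine ⟨(x - 1, y), Or.inr (by simp), ?_, ?_⟩
      · simp only [rect, Set.mem_ofPred_eq]; omega
      · right; left; show x - 1 = r - 1; omega
    · refine ⟨(x, y), Or.inl rfl, ?_, ?_⟩
      · simp only [rect, Set.mem_ofPred_eq]; omega
      · simp only; omega

/-- Locality of the dual annulus event. -/
private theorem glue2_localOn_dArm {s r : ℕ} :
    LocalOn (eRect (-r) (r - 1) (-r) (r - 1)) (DArm s r) := by
  rintro ω ω' h ⟨φ, φ', h1, h2, h3, hc⟩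
  exact ⟨φ, φ', h1, h2, h3, Conn.congr (fun e he _ => h e (mem_eRect.2 he)) hc⟩

theorem glue2 {ω : Config} {s r : ℕ} (hs : s < r) {w₁ w₂ x₁ x₂ : Vert} (hw₁ : w₁ ∈ ball 0 s)
    (hw₂ : w₂ ∈ ball 0 s) (hx₁ : x₁ ∈ sphere 0 r) (hx₂ : x₂ ∈ sphere 0 r)
    (h₁ : Conn ω (ball 0 r) w₁ x₁) (h₂ : Conn ω (ball 0 r) w₂ x₂) (h : dual ω ∉ DArm s r) :
    Conn ω (ball 0 r) w₁ w₂ := by
  by_contra hw0
  have hwr : w₂ ∈ ball 0 r := h₂.mem_left
  -- the open cluster of the origin in the ball
  set C : Set Vert := {z | Conn ω (ball 0 r) w₁ z} with hCdef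
  have hCsub : C ⊆ rect (-r) r (-r) r := by
    intro z hz
    have := Conn.mem_right hz
    simp only [mem_ball, Prod.fst_zero, Prod.snd_zero] at this
    simp only [rect, Set.mem_ofPred_eq]; omega
  have hball : ball 0 r = rect (-r) r (-r) r := by
    ext z
    simp only [mem_ball, Prod.fst_zero, Prod.snd_zero, rect, Set.mem_ofPred_eq]
    omega
  have h0C : w₁ ∈ C := Conn.refl h₁.mem_left
  have hC0 : ∀ z ∈ C, Conn allOpen C w₁ z := by
    intro z hz
    refine Conn.induction_right (P := fun z => Conn allOpen C w₁ z) hz (Conn.refl h0C) ?_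
    intro a b ha hab h
    exact h.tail ⟨ha, ha.tail hab, by obtain ⟨_, _, e, he, _⟩ := hab; exact ⟨e, he, rfl⟩⟩
  have hCc : ∀ u ∈ C, ∀ w ∈ C, Conn allOpen C u w := fun u hu w hw =>
    (hC0 u hu).symm.trans (hC0 w hw)
  set D : Set Vert := rect (-(r : ℤ)) r (-r) r with hD
  set K : Set Vert := comp D C w₂ with hKdef
  have hwK : w₂ ∈ K := Conn.refl ⟨hball ▸ hwr, hw0⟩
  have hxK : x₂ ∈ K := by
    refine Conn.induction_right (P := fun z => z ∈ K) h₂ hwK ?_
    intro a b ha hab h'
    refine Conn.tail (v := a) h' ⟨Conn.mem_right h', ⟨hball ▸ hab.2.1, ?_⟩, ?_⟩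
    · intro hb
      exact hw0 ((Conn.tail hb hab.symm).trans ha.symm)
    · obtain ⟨_, _, e, he, _⟩ := hab
      exact ⟨e, he, rfl⟩
  have hKC : ∀ z ∈ K, z ∈ D ∧ z ∉ C := fun z hz => Conn.mem_right hz
  have h0K : w₁ ∉ K := fun h => (hKC _ h).2 h0C
  have hyK : x₁ ∉ K := fun h => (hKC _ h).2 h₁
  -- first cut edge
  obtain ⟨a, b, h4, h5, h6, -⟩ := ((glue2_ball hw₁).symm.trans (glue2_ball hw₂)).exists_hit (T := K) h0K hwK
  obtain ⟨e, -, he2, he3, he4⟩ := glue2_cut h5 h4.mem_right.2 h6
  -- second cut edge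
  have hys : Conn allOpen (sphere 0 r) x₁ x₂ := (glue2_sphere hx₁).symm.trans (glue2_sphere hx₂)
  obtain ⟨a', b', h4', h5', h6', -⟩ := hys.exists_hit (T := K) hyK hxK
  obtain ⟨e', -, he2', he3', he4'⟩ := glue2_cut h5' h4'.mem_right.2 h6'
  obtain ⟨φ', hφ', hφD', hφb'⟩ := glue2_face (by omega) he3' he4'
  have hse : ∀ z ∈ ball 0 s, z ∈ D := by
    intro z hz
    simp only [mem_ball, Prod.fst_zero, Prod.snd_zero] at hz
    simp only [hD, rect, Set.mem_ofPred_eq]
    omega
  have hsphere : ∀ z ∈ sphere 0 r, z ∈ D := fun z hz => hball ▸ hz.1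
  have hsep := sep (a := -r) (b := r) (c := -r) (d := r) (K := K) (fun z hz => (hKC z hz).1)
    (comp_connected (D := D) (C := C) (v := w₂))
    (compl_comp_connected (c₀ := w₁) hCsub h0C hCc)
    (e := e) (e' := e') ⟨hse _ he3, hse _ he4⟩ ⟨hsphere _ he3', hsphere _ he4'⟩ he2 he2'
    (φ := src e) (φ' := φ') (Or.inl rfl) hφ'
    (by
      simp only [mem_ball, Prod.fst_zero, Prod.snd_zero] at he3
      simp only [rect, Set.mem_ofPred_eq]
      omega) hφD'
  refine h ⟨src e, φ', ?_, hφD', hφb', ?_⟩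
  · simp only [mem_ball, Prod.fst_zero, Prod.snd_zero] at he3
    simp only [rect, Set.mem_ofPred_eq]
    omega
  · -- cut edges are closed
    refine ⟨hsep.1, Relation.ReflTransGen.mono ?_ _ _ hsep.2⟩
    rintro p q ⟨hp, hq, f, hf, ho⟩
    refine ⟨hp, hq, f, hf, ?_⟩
    have hcr : src (crossed f) ∈ D ∧ tgt (crossed f) ∈ D := by
      have key : ∀ p q : Vert, p ∈ rect (-(r : ℤ)) (r - 1) (-r) (r - 1) →
          q ∈ rect (-(r : ℤ)) (r - 1) (-r) (r - 1) → p = src f → q = tgt f →
          src (crossed f) ∈ D ∧ tgt (crossed f) ∈ D := by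
        rintro p q hp hq rfl rfl
        obtain ⟨x, y, b⟩ := f
        cases b
        · simp only [rect, src, tgt, Bool.false_eq_true, if_false, Set.mem_ofPred_eq] at hp hq
          simp only [hD, rect, crossed, src, tgt, Bool.false_eq_true, if_false, if_true,
            Set.mem_ofPred_eq]
          omega
        · simp only [rect, src, tgt, if_true, Set.mem_ofPred_eq] at hp hq
          simp only [hD, rect, crossed, src, tgt, Bool.false_eq_true, if_false, if_true,
            Set.mem_ofPred_eq]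
          omega
      rcases hf with ⟨hf1, hf2⟩ | ⟨hf1, hf2⟩
      · exact key p q hp hq hf1 hf2
      · exact key q p hq hp hf2 hf1
    have hcut : cutConfig K (crossed f) = false := by
      simpa [dual] using ho
    simp only [dual, Bool.not_eq_true']
    by_contra hopen
    have hopen' : ω (crossed f) = true := by simpa using hopen
    have hcD := hcr
    rw [← hball] at hcD
    rcases cut_comp hcr hcut with ⟨g1, g2⟩ | ⟨g1, g2⟩
    · exact (hKC _ g2).2 (Conn.tail g1 ⟨hcD.1, hcD.2, _, joins_src_tgt _, hopen'⟩)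
    · exact (hKC _ g2).2 (Conn.tail g1 ⟨hcD.2, hcD.1, _, (joins_src_tgt _).symm, hopen'⟩)

/-- The same around an arbitrary centre. -/
theorem glue2_shift {ω : Config} {s r : ℕ} (hs : s < r) (z : Vert) {w₁ w₂ x₁ x₂ : Vert}
    (hw₁ : w₁ ∈ ball z s) (hw₂ : w₂ ∈ ball z s) (hx₁ : x₁ ∈ sphere z r) (hx₂ : x₂ ∈ sphere z r)
    (h₁ : Conn ω (ball z r) w₁ x₁) (h₂ : Conn ω (ball z r) w₂ x₂)
    (h : dual (fun e => ω (shiftE z e)) ∉ DArm s r) : Conn ω (ball z r) w₁ w₂ := by
  have hb : ∀ k : ℕ, {w : Vert | (w.1 - z.1, w.2 - z.2) ∈ ball 0 k} = ball z k := by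
    intro k
    ext w
    simp only [mem_ball, Prod.fst_zero, Prod.snd_zero, Set.mem_ofPred_eq]
    omega
  have key : ∀ u v : Vert, Conn (fun e => ω (shiftE z e)) (ball 0 r) (u.1 - z.1, u.2 - z.2)
      (v.1 - z.1, v.2 - z.2) ↔ Conn ω (ball z r) u v := by
    intro u v
    rw [conn_shift, hb]
    simp only [sub_add_cancel]
  rw [← key] at h₁ h₂ ⊢
  refine glue2 hs ?_ ?_ ?_ ?_ h₁ h₂ h
  · simp only [mem_ball, Prod.fst_zero, Prod.snd_zero] at hw₁ ⊢
    omega
  · simp only [mem_ball, Prod.fst_zero, Prod.snd_zero] at hw₂ ⊢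
    omega
  · simp only [sphere, mem_ball, Prod.fst_zero, Prod.snd_zero, Set.mem_ofPred_eq] at hx₁ ⊢
    omega
  · simp only [sphere, mem_ball, Prod.fst_zero, Prod.snd_zero, Set.mem_ofPred_eq] at hx₂ ⊢
    omega

theorem Pr_dArm_shift (p : I) (z : Vert) (s r : ℕ) :
    Pr p {ω | dual (fun e => ω (shiftE z e)) ∈ DArm s r} = Pr p {ω | dual ω ∈ DArm s r} := by
  have h : LocalOn ((eRect (-r) (r - 1) (-r) (r - 1)).image crossed) {ω | dual ω ∈ DArm s r} :=
    glue2_localOn_dArm.dual'
  exact Pr_comp h (shiftE_injective z).injOn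

end Pool.Agent.H83.EX

end

section

/-! # Doubling the length of a rectangle -/

open MeasureTheory ProbabilityTheory unitInterval

namespace Pool.Agent.H83.EX

open Pool.Agent.H89.Perc

/-- Crossing from the left side to a segment of the right side. -/
private def dblA (w : ℕ) (c d : ℤ) (s j : ℕ) : Set Config :=
  {ω | ∃ u v : Vert, u.1 = 0 ∧ v.1 = w ∧ c + j * (2 * s + 1) ≤ v.2 ∧
    v.2 ≤ c + j * (2 * s + 1) + 2 * s ∧ Conn ω (rect 0 w c d) u v}

private lemma dblA_local (w : ℕ) (c d : ℤ) (s j : ℕ) :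
    LocalOn (eRect 0 w c d) (dblA w c d s j) := by
  rintro ω ω' h ⟨u, v, h1, h2, h3, h4, h5⟩
  exact ⟨u, v, h1, h2, h3, h4, Conn.congr (fun e he _ => h e (mem_eRect.2 he)) h5⟩

private lemma dblA_incr (w : ℕ) (c d : ℤ) (s j : ℕ) : Incr (dblA w c d s j) := by
  rintro ω ω' h ⟨u, v, h1, h2, h3, h4, h5⟩
  exact ⟨u, v, h1, h2, h3, h4, h5.mono le_rfl h⟩

private lemma dbl_cover {w : ℕ} {c d : ℤ} {s k : ℕ} (hc : d - c < k * (2 * s + 1)) :
    {ω : Config | HCross ω 0 w c d} ⊆ ⋃ j ∈ Finset.range k, dblA w c d s j := by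
  rintro ω ⟨u, v, hu, hv, h⟩
  have hv2 := h.mem_right
  simp only [rect, Set.mem_ofPred_eq] at hv2
  obtain ⟨-, -, h3, h4⟩ := hv2
  have hpos : (0 : ℤ) < 2 * s + 1 := by positivity
  have hq0 : 0 ≤ (v.2 - c) / (2 * s + 1) := Int.ediv_nonneg (by omega) hpos.le
  have hq1 : (v.2 - c) / (2 * s + 1) < k := by
    rw [Int.ediv_lt_iff_lt_mul hpos]
    linarith only [hc, h4]
  obtain ⟨j, hj⟩ := Int.eq_ofNat_of_zero_le hq0
  have hdm := Int.emod_add_mul_ediv (v.2 - c) (2 * s + 1)
  have hm0 := Int.emod_nonneg (v.2 - c) hpos.ne'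
  have hm1 := Int.emod_lt_of_pos (v.2 - c) hpos
  rw [hj] at hdm hq1
  simp only [Set.mem_iUnion]
  refine ⟨j, Finset.mem_range.2 (by exact_mod_cast hq1), u, v, hu, hv, ?_, ?_, h⟩
  · have : (2 * (s : ℤ) + 1) * (j : ℤ) = (j : ℤ) * (2 * s + 1) := by ring
    linarith only [hdm, hm0]
  · have : (2 * (s : ℤ) + 1) * (j : ℤ) = (j : ℤ) * (2 * s + 1) := by ring
    linarith only [hdm, hm1]

theorem double_cross {p : I} {w : ℕ} {c d : ℤ} {s r k : ℕ} (hs : s < r) (hrw : r ≤ w)
    (hcd : c ≤ d) (hk : 1 ≤ k) (hc : d - c < k * (2 * s + 1)) {δ : ℝ} (hδ : 0 ≤ δ)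
    (h : 1 - δ ≤ Pr p {ω | HCross ω 0 w c d}) :
    1 - 2 * δ ^ ((1 : ℝ) / k) - Pr p {ω | dual ω ∈ DArm s r} ≤
      Pr p {ω | HCross ω 0 (2 * w) (c - r) (d + r)} := by
  obtain ⟨j, -, hj⟩ := sqrt_trick (p := p) (Finset.range k)
    (Finset.nonempty_range_iff.2 (by omega)) (fun j => dblA w c d s j) (fun _ => eRect 0 w c d)
    (fun j _ => dblA_local w c d s j) (fun j _ => dblA_incr w c d s j) (dbl_cover hc) hδ h
  rw [Finset.card_range] at hj
  set A := dblA w c d s j with hA
  have hAl : LocalOn (eRect 0 w c d) A := dblA_local w c d s j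
  set z : Vert := ((w : ℤ), min (c + j * (2 * s + 1) + s) d) with hz
  have hz1 : z.1 = w := rfl
  have hj0 : (0 : ℤ) ≤ (j : ℤ) * (2 * s + 1) := by positivity
  have hz2 : c ≤ z.2 ∧ z.2 ≤ d ∧ z.2 ≤ c + j * (2 * s + 1) + s ∧
      (z.2 = c + j * (2 * s + 1) + s ∨ z.2 = d) := by
    have h1 : z.2 = min (c + j * (2 * s + 1) + s) d := rfl
    rw [h1]
    refine ⟨le_min (by omega) hcd, min_le_right _ _, min_le_left _ _, min_choice _ _⟩
  obtain ⟨hz3, hz4, hz5, hz6⟩ := hz2
  set B : Set Config := {ω | (fun e => ω (reflX (2 * w) e)) ∈ Aᶜ} with hB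
  have hPB : Pr p B = Pr p Aᶜ := Pr_comp hAl.compl (reflX_injective (2 * w)).injOn
  have hPA : Pr p Aᶜ = 1 - Pr p A := Pr_compl hAl
  set C : Set Config := {ω | dual (fun e => ω (shiftE z e)) ∈ DArm s r} with hC
  have hPC : Pr p C = Pr p {ω | dual ω ∈ DArm s r} := Pr_dArm_shift p z s r
  have hcov : (Set.univ : Set Config) ⊆
      (({ω | HCross ω 0 (2 * w) (c - r) (d + r)} ∪ Aᶜ) ∪ B) ∪ C := by
    intro ω _
    by_contra hno
    simp only [Set.mem_union, not_or] at hno
    obtain ⟨⟨⟨n1, n2⟩, n3⟩, n4⟩ := hno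
    have m2 : ω ∈ A := not_not.1 n2
    have m3 : (fun e => ω (reflX (2 * w) e)) ∈ A := not_not.1 n3
    have m4 : dual (fun e => ω (shiftE z e)) ∉ DArm s r := n4
    obtain ⟨u, v, hu, hv, hv1, hv2, hcon⟩ := m2
    obtain ⟨u', v', hu', hv', hv1', hv2', hcon'⟩ := m3
    rw [conn_reflX] at hcon'
    have hvr := hcon.mem_right
    have hvr' := hcon'.mem_right
    have hur := hcon.mem_left
    have hur' := hcon'.mem_left
    simp only [rect, Set.mem_ofPred_eq] at hvr hvr' hur hur'
    have hvb : v ∈ ball z s := by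
      rw [mem_ball]
      omega
    have hvb' : ((2 * (w : ℤ) - v'.1, v'.2) : Vert) ∈ ball z s := by
      rw [mem_ball]
      dsimp only
      omega
    have hsr : ball z s ⊆ ball z r := by
      intro x hx
      rw [mem_ball] at hx ⊢
      omega
    obtain ⟨x₁, hx₁, hx₁c⟩ := hcon.symm.to_sphere (hsr hvb) (by
      by_cases hub : u ∈ ball z r
      · right
        refine ⟨hub, Or.inl ?_⟩
        rw [mem_ball] at hub
        omega
      · exact Or.inl hub)
    obtain ⟨x₂, hx₂, hx₂c⟩ := hcon'.symm.to_sphere (hsr hvb') (by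
      by_cases hub : ((2 * (w : ℤ) - u'.1, u'.2) : Vert) ∈ ball z r
      · right
        refine ⟨hub, Or.inr (Or.inl ?_)⟩
        rw [mem_ball] at hub
        dsimp only at hub ⊢
        omega
      · exact Or.inl hub)
    have hg := glue2_shift hs z hvb hvb' hx₁ hx₂ (hx₁c.mono_set Set.inter_subset_right)
      (hx₂c.mono_set Set.inter_subset_right) m4
    refine n1 ⟨u, (2 * (w : ℤ) - u'.1, u'.2), hu, by dsimp only; omega, ?_⟩
    refine (hcon.mono_set ?_).trans ((hg.mono_set ?_).trans (hcon'.symm.mono_set ?_))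
    · intro x hx
      simp only [rect, Set.mem_ofPred_eq] at hx ⊢
      omega
    · intro x hx
      rw [mem_ball] at hx
      simp only [rect, Set.mem_ofPred_eq]
      omega
    · intro x hx
      simp only [rect, Set.mem_ofPred_eq] at hx ⊢
      omega
  have h1 : (1 : ℝ) ≤ Pr p ((({ω | HCross ω 0 (2 * w) (c - r) (d + r)} ∪ Aᶜ) ∪ B) ∪ C) := by
    rw [← Pr_univ (p := p)]
    exact Pr_mono hcov
  have h2 : Pr p ((({ω | HCross ω 0 (2 * w) (c - r) (d + r)} ∪ Aᶜ) ∪ B) ∪ C) ≤
      Pr p {ω | HCross ω 0 (2 * w) (c - r) (d + r)} + Pr p Aᶜ + Pr p B + Pr p C :=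
    Pr_union_le.trans (by
      gcongr
      exact Pr_union_le.trans (by
        gcongr
        exact Pr_union_le))
  have hj' : 1 - δ ^ ((1 : ℝ) / k) ≤ Pr p A := hj
  rw [hPB, hPA, hPC] at h2
  linarith only [hj, h1, h2]

end Pool.Agent.H83.EX

end

section

/-! # Annulus crossings of thick annuli are unlikely -/

open MeasureTheory ProbabilityTheory unitInterval

namespace Pool.Agent.H83.EX

open Pool.Agent.H89.Perc

private theorem ds_armBox_subset_ann {s a r R : ℕ} (hsa : s ≤ a) (hs : a < r) (hr : r ≤ R) :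
    ArmBox 0 s R ⊆ Ann a r := by
  rintro ω ⟨v, hv, u, hu, hc⟩
  have hva : v ∈ ball 0 a := ball_subset_ball hsa hv
  have hvr : v ∈ ball 0 r := ball_subset_ball (hsa.trans hs.le) hv
  -- path to the sphere of radius `r`
  have h1 : ∃ x ∈ sphere 0 r, Conn ω (ball 0 R ∩ ball 0 r) v x := by
    refine hc.to_sphere hvr ?_
    obtain ⟨hb, h⟩ := hu
    by_cases h2 : u ∈ ball 0 r
    · refine Or.inr ⟨h2, ?_⟩
      simp only [mem_ball, Prod.fst_zero, Prod.snd_zero] at hb h h2 ⊢
      omega
    · exact Or.inl h2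
  obtain ⟨x, hx, hc'⟩ := h1
  have hxs : x ∉ ball 0 a := by
    intro hxs
    obtain ⟨_, h⟩ := hx
    simp only [mem_ball, Prod.fst_zero, Prod.snd_zero] at hxs h
    omega
  obtain ⟨w, w', hw, _, hst, hl⟩ := hc'.exists_last (T := ball 0 a) hva hxs
  refine ⟨w', ?_, x, hx, hl.mono_set ?_⟩
  · have h2 := hst.fst_le
    have h3 := hst.snd_le
    simp only [mem_ball, Prod.fst_zero, Prod.snd_zero] at hw ⊢
    push_cast
    omega
  · exact fun y hy => ⟨hy.1.2, hy.2⟩

/-- Intersections of the annulus events at scales `16 ^ j * s`. -/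
private def dsInter (s : ℕ) : ℕ → Set Config
  | 0 => Set.univ
  | n + 1 => dsInter s n ∩ Ann (16 ^ n * s) (16 ^ (n + 1) * s)

private lemma ds_localOn (s n : ℕ) : LocalOn (eBall (16 ^ n * s)) (dsInter s n) := by
  classical
  induction n with
  | zero => exact fun _ _ _ _ => Set.mem_univ _
  | succ n ih =>
    have h1 : (16 : ℕ) ^ n * s ≤ 16 ^ (n + 1) * s :=
      Nat.mul_le_mul_right s (Nat.pow_le_pow_right (by norm_num) (Nat.le_succ n))
    exact (ih.mono (eBall_subset h1)).inter ((localOn_ann _ _).mono Finset.sdiff_subset)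

private lemma ds_subset {s R : ℕ} (hs : 1 ≤ s) (n : ℕ) (h : 16 ^ n * s ≤ R) :
    ArmBox 0 s R ⊆ dsInter s n := by
  induction n with
  | zero => exact Set.subset_univ _
  | succ n ih =>
    have h0 : (16 : ℕ) ^ n < 16 ^ (n + 1) :=
      Nat.pow_lt_pow_right (by norm_num) (Nat.lt_succ_self n)
    have h1 : (16 : ℕ) ^ n * s < 16 ^ (n + 1) * s := Nat.mul_lt_mul_of_pos_right h0 hs
    have h2 : s ≤ 16 ^ n * s := Nat.le_mul_of_pos_left s (Nat.pow_pos (by norm_num))
    exact Set.subset_inter (ih (h1.le.trans h)) (ds_armBox_subset_ann h2 h1 h)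

theorem armBox_small : ∀ η > (0 : ℝ), ∃ K : ℕ, 1 ≤ K ∧ ∀ s r : ℕ, 1 ≤ s → K * s ≤ r →
    Pr half (ArmBox 0 s r) ≤ η := by
  classical
  intro η hη
  obtain ⟨c, hc, h⟩ := armBox_le
  have hc1 : c ≤ 1 := by
    have h1 := h 1 8 le_rfl (by norm_num)
    have h2 : 0 ≤ Pr half (ArmBox 0 1 8) := Pr_nonneg
    linarith
  set q : ℝ := 1 - c / 2 with hq
  have hq0 : 0 < q := by linarith only [hc1, hq]
  have hq1 : q < 1 := by linarith
  obtain ⟨n, hn⟩ := exists_pow_lt_of_lt_one hη hq1
  refine ⟨16 ^ n, Nat.one_le_pow _ _ (by norm_num), fun s r hs hr => ?_⟩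
  have key : ∀ n : ℕ, Pr half (dsInter s n) ≤ q ^ n := by
    intro n
    induction n with
    | zero => rw [pow_zero]; exact Pr_le_one
    | succ n ih =>
      have h1 : Pr half (dsInter s (n + 1)) =
          Pr half (dsInter s n) * Pr half (Ann (16 ^ n * s) (16 ^ (n + 1) * s)) :=
        Pr_inter_of_disjoint (ds_localOn s n) (localOn_ann _ _) Finset.disjoint_sdiff
      have h2 : Pr half (Ann (16 ^ n * s) (16 ^ (n + 1) * s)) ≤ q := by
        have h3 : 4 * (16 ^ n * s + 1 + 1) ≤ 16 ^ (n + 1) * s := by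
          have h5 : 1 ≤ 16 ^ n * s := Nat.mul_pos (Nat.pow_pos (by norm_num)) hs
          have h6 : 16 ^ (n + 1) * s = 16 * (16 ^ n * s) := by rw [pow_succ]; ring
          rw [h6]
          omega
        have h4 := h (16 ^ n * s + 1) (16 ^ (n + 1) * s) (by omega) h3
        have h5 : Pr half (Ann (16 ^ n * s) (16 ^ (n + 1) * s)) ≤
            Pr half (ArmBox 0 (16 ^ n * s + 1) (16 ^ (n + 1) * s)) :=
          Pr_mono (ann_subset_armBox _ _)
        linarith only [hq, hq1, h4, h5]
      rw [h1, pow_succ]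
      exact mul_le_mul ih h2 Pr_nonneg (pow_nonneg hq0.le n)
  exact ((Pr_mono (ds_subset hs n hr)).trans (key n)).trans hn.le

private theorem ds_DArm_subset {s r : ℕ} (hr : 1 ≤ r) (hsr : s + 2 ≤ r) :
    DArm s r ⊆ ArmBox 0 (s + 1) (r - 1) := by
  rintro ω ⟨φ, φ', h1, h2, h3, hc⟩
  simp only [rect, Set.mem_ofPred_eq] at h1 h2
  have hφ : φ ∈ ball 0 (s + 1) := by
    simp only [mem_ball, Prod.fst_zero, Prod.snd_zero]
    push_cast
    omega
  have hφr : φ ∈ ball 0 (r - 1) := ball_subset_ball (by omega) hφ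
  obtain ⟨x, hx, hcx⟩ := hc.to_sphere (v := 0) (r := r - 1) hφr (by
    by_cases h : φ' ∈ ball 0 (r - 1)
    · right
      refine ⟨h, ?_⟩
      simp only [mem_ball, Prod.fst_zero, Prod.snd_zero] at h ⊢
      push_cast [Nat.cast_sub hr] at h ⊢
      omega
    · exact Or.inl h)
  exact ⟨φ, hφ, x, hx, hcx.mono_set Set.inter_subset_right⟩

theorem dArm_small : ∀ η > (0 : ℝ), ∃ K : ℕ, 1 ≤ K ∧ ∀ s r : ℕ, 1 ≤ s → K * s ≤ r →
    ∀ p : I, half ≤ p → Pr p {ω | dual ω ∈ DArm s r} ≤ η := by
  intro η hη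
  obtain ⟨K, hK, hsmall⟩ := armBox_small η hη
  refine ⟨2 * K + 1, by omega, fun s r hs hr p hp => ?_⟩
  have h1 : 2 * (K * s) + s ≤ r := by
    calc 2 * (K * s) + s = (2 * K + 1) * s := by ring
      _ ≤ r := hr
  have h2 : K ≤ K * s := Nat.le_mul_of_pos_right K hs
  have h3 : s ≤ K * s := Nat.le_mul_of_pos_left s hK
  have hr1 : 1 ≤ r := by omega
  have h4 : K * (s + 1) ≤ r - 1 := by
    rw [Nat.mul_add, Nat.mul_one]
    omega
  rw [Pr_dual (decay_localOn_DArm s r)]
  have hσ : σ p ≤ half := by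
    have h5 : ((half : I) : ℝ) ≤ p := hp
    have h6 : ((half : I) : ℝ) = 1 / 2 := by norm_num [half]
    rw [← Subtype.coe_le_coe, unitInterval.coe_symm_eq]
    linarith only [h5, h6]
  calc Pr (σ p) (DArm s r) ≤ Pr (σ p) (ArmBox 0 (s + 1) (r - 1)) :=
        Pr_mono (ds_DArm_subset hr1 (by omega))
    _ ≤ Pr half (ArmBox 0 (s + 1) (r - 1)) :=
        Pr_mono_param (localOn_armBox 0 (s + 1) (r - 1)) (incr_armBox 0 (s + 1) (r - 1)) hσ
    _ ≤ η := hsmall (s + 1) (r - 1) (by omega) h4

end Pool.Agent.H83.EX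

end

section

/-! # If the squares are crossed with probability close to one, so are the long rectangles -/

open MeasureTheory ProbabilityTheory unitInterval

namespace Pool.Agent.H83.EX

open Pool.Agent.H89.Perc

/-- One doubling step. -/
private theorem Strong_step : ∀ η > (0 : ℝ), ∃ δ > (0 : ℝ), ∃ K : ℕ, 1 ≤ K ∧ ∀ p : I, half ≤ p →
    ∀ (m w r : ℕ) (c d : ℤ), r = m / 4 → K ≤ r → r ≤ w → c ≤ d → d - c ≤ 5 * m →
    1 - δ ≤ Pr p {ω | HCross ω 0 w c d} →
    1 - η ≤ Pr p {ω | HCross ω 0 (2 * w) (c - r) (d + r)} := by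
  intro η hη
  obtain ⟨K0, hK0, H⟩ := dArm_small (η / 2) (by positivity)
  refine ⟨(η / 4) ^ (80 * max K0 2), by positivity, max K0 2, by omega, ?_⟩
  intro p hp m w r c d hr hKr hrw hcd hdc h
  obtain ⟨K, hK⟩ : ∃ K, K = max K0 2 := ⟨_, rfl⟩
  rw [← hK] at hKr h
  have hK2 : 2 ≤ K := by omega
  have hKK : K0 ≤ K := by omega
  obtain ⟨s, hs⟩ : ∃ s, s = r / K := ⟨_, rfl⟩
  have hs1 : 1 ≤ s := by
    rw [hs]
    exact (Nat.one_le_div_iff (by omega)).2 hKr
  have hKs : K * s ≤ r := by
    rw [hs]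
    exact Nat.mul_div_le r K
  have hK0s : K0 * s ≤ r := le_trans (Nat.mul_le_mul_right s hKK) hKs
  have h2s : 2 * s ≤ K * s := Nat.mul_le_mul_right s hK2
  have hsr : s < r := by omega
  have hrs : r < K * (s + 1) := by
    rw [hs]
    have := Nat.lt_mul_div_succ r (show 0 < K by omega)
    exact this
  have hrs2 : r < 2 * (K * s) := by
    have h1 : K * (s + 1) ≤ K * (2 * s) := Nat.mul_le_mul_left K (by omega)
    have h2 : K * (2 * s) = 2 * (K * s) := by ring
    omega
  have hm : m < 8 * (2 * (K * s)) := by omega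
  have hlen : d - c < ((80 * K : ℕ) : ℤ) * (2 * (s : ℤ) + 1) := by
    have h1 : ((80 * K : ℕ) : ℤ) * (2 * (s : ℤ) + 1) = 160 * ((K : ℤ) * s) + 80 * K := by
      push_cast
      ring
    have h2 : (m : ℤ) < 8 * (2 * ((K : ℤ) * s)) := by exact_mod_cast hm
    rw [h1]
    omega
  have h1 := double_cross (p := p) hsr hrw hcd (show 1 ≤ 80 * K by omega) hlen
    (by positivity : (0 : ℝ) ≤ (η / 4) ^ (80 * K)) h
  have h2 := H s r hs1 hK0s p hp
  have h3 : ((η / 4) ^ (80 * K)) ^ ((1 : ℝ) / ((80 * K : ℕ) : ℝ)) = η / 4 := by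
    rw [one_div]
    exact Real.pow_rpow_inv_natCast (by positivity) (by omega)
  rw [h3] at h1
  linarith only [h1, h2]

/-- All scales above a constant. -/
private theorem Strong_large : ∀ η > (0 : ℝ), ∃ δ > (0 : ℝ), ∃ m0 : ℕ, ∀ p : I, half ≤ p →
    ∀ m : ℕ, m0 ≤ m → 1 - δ ≤ Pr p {ω | HCross ω 0 (4 * m) 0 (4 * m)} →
    1 - η ≤ Pr p {ω | HCross ω 0 (16 * m) 0 (5 * m)} := by
  intro η hη
  obtain ⟨δ2, hδ2, K2, hK2, H2⟩ := Strong_step η hη
  obtain ⟨δ1, hδ1, K1, hK1, H1⟩ := Strong_step δ2 hδ2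
  refine ⟨δ1, hδ1, 4 * (K1 + K2), ?_⟩
  intro p hp m hm h
  obtain ⟨r, hr⟩ : ∃ r, r = m / 4 := ⟨_, rfl⟩
  have h1 := H1 p hp m (4 * m) r 0 (4 * m) hr (by omega) (by omega) (by omega) (by omega)
    (by push_cast; exact h)
  have h2 := H2 p hp m (8 * m) r (0 - r) (4 * m + r) hr (by omega) (by omega) (by omega) (by omega)
    (by
      have e1 : ((8 * m : ℕ) : ℤ) = 2 * ((4 * m : ℕ) : ℤ) := by push_cast; ring
      rw [e1]
      exact h1)
  have h3 := Pr_hcross_translate (p := p) (a := 0) (b := 2 * ((8 * m : ℕ) : ℤ))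
    (c := (0 - r) - r) (d := (4 * m + r) + r) 0 (2 * r)
  rw [← h3] at h2
  refine h2.trans (Pr_mono fun ω hω => ?_)
  refine HCross.mono hω (by omega) (by omega) (by push_cast; omega) (by omega) (by omega)

private theorem Strong_localOn (e : Edge) : LocalOn {e} {ω : Config | ω e = true} := by
  intro ω ω' h hA
  have : ω e = ω' e := h e (by simp)
  simp only [Set.mem_ofPred_eq] at hA ⊢
  rw [← this]
  exact hA

private theorem Strong_incr (e : Edge) : Incr {ω : Config | ω e = true} := fun _ _ h hA => h e hA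

private theorem Strong_edge {p : I} (e e' : Edge) :
    Pr p {ω | ω e = true} = Pr p {ω | ω e' = true} := by
  have h := Pr_comp (p := p) (Strong_localOn e) (φ := fun _ => e')
    (by simp)
  rw [← h]
  rfl

/-- A crossing of a square uses an open edge of the first column. -/
private theorem Strong_first {m : ℕ} (hm : 1 ≤ m) :
    {ω | HCross ω 0 (4 * m) 0 (4 * m)} ⊆
      ⋃ j ∈ Finset.range (4 * m + 1), {ω : Config | ω (0, (j : ℤ), false) = true} := by
  rintro ω ⟨u, v, hu, hv, hc⟩
  obtain ⟨a, b, ha, hb, h, -⟩ := Conn.exists_exit hc (T := {z : Vert | z.1 ≤ 0})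
    (by simp only [Set.mem_ofPred_eq]; omega) (by simp only [Set.mem_ofPred_eq]; omega)
  have h1 : a.1 ≤ 0 := ha.mem_right.2
  obtain ⟨ha1, -, ha3, ha4⟩ := hb.1
  simp only [Set.mem_ofPred_eq, not_le] at h
  obtain ⟨-, -, e, he, ho⟩ := hb
  have h0 : a.1 = 0 := le_antisymm h1 ha1
  have hee : e = (0, a.2, false) := by
    obtain ⟨x, y, t⟩ := e
    rcases he with ⟨e1, e2⟩ | ⟨e1, e2⟩
    · subst e1 e2
      cases t
      · simp only [src] at h0 ⊢
        rw [h0]
      · simp only [src, tgt] at h0 h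
        simp at h
        omega
    · subst e1 e2
      cases t
      · simp only [src, tgt] at h0 h
        simp at h0
        omega
      · simp only [src, tgt] at h0 h
        simp at h0
        omega
  obtain ⟨j, hj⟩ := Int.eq_ofNat_of_zero_le ha3
  simp only [Set.mem_iUnion]
  refine ⟨j, Finset.mem_range.2 (by omega), ?_⟩
  rw [Set.mem_ofPred_eq, ← hj, ← hee]
  exact ho

/-- An open row. -/
private theorem Strong_row {m : ℕ} {ω : Config}
    (h : ∀ i ∈ Finset.range (16 * m), ω ((i : ℤ), 0, false) = true) :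
    HCross ω 0 (16 * m) 0 (5 * m) := by
  have key : ∀ i : ℕ, i ≤ 16 * m → Conn ω (rect 0 (16 * m) 0 (5 * m)) (0, 0) ((i : ℤ), 0) := by
    intro i
    induction i with
    | zero =>
      intro _
      refine Conn.refl ⟨le_rfl, ?_, le_rfl, ?_⟩ <;> simp only <;> omega
    | succ i ih =>
      intro hi
      have h1 := ih (by omega)
      refine h1.tail ⟨h1.mem_right, ⟨?_, ?_, ?_, ?_⟩, ((i : ℤ), 0, false), Or.inl ⟨rfl, ?_⟩,
        h i (Finset.mem_range.2 (by omega))⟩
      · simp only; omega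
      · simp only; omega
      · simp only; omega
      · simp only; omega
      · simp [tgt]
  refine ⟨(0, 0), (((16 * m : ℕ) : ℤ), 0), rfl, ?_, key _ le_rfl⟩
  push_cast
  rfl

/-- All scales below a constant. -/
private theorem Strong_small : ∀ η > (0 : ℝ), ∀ m0 : ℕ, ∃ δ > (0 : ℝ), ∀ p : I,
    ∀ m : ℕ, 1 ≤ m → m ≤ m0 → 1 - δ ≤ Pr p {ω | HCross ω 0 (4 * m) 0 (4 * m)} →
    1 - η ≤ Pr p {ω | HCross ω 0 (16 * m) 0 (5 * m)} := by
  intro η hη m0
  obtain ⟨ε, hε⟩ : ∃ ε : ℝ, ε = min 1 (η / (16 * m0 + 1)) := ⟨_, rfl⟩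
  have hε0 : 0 < ε := by
    rw [hε]
    exact lt_min one_pos (by positivity)
  have hε1 : ε ≤ 1 := by rw [hε]; exact min_le_left _ _
  have hεη : ε * (16 * m0 + 1) ≤ η := by
    rw [← le_div_iff₀ (by positivity), hε]
    exact min_le_right _ _
  refine ⟨ε ^ (4 * m0 + 1), by positivity, ?_⟩
  intro p m hm hmm h
  have hne : (Finset.range (4 * m + 1)).Nonempty := Finset.nonempty_range_iff.2 (by omega)
  obtain ⟨j, hj, h1⟩ := sqrt_trick (p := p) (Finset.range (4 * m + 1)) hne
    (fun j : ℕ => {ω : Config | ω (0, (j : ℤ), false) = true})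
    (fun j : ℕ => {((0 : ℤ), (j : ℤ), false)}) (fun j _ => Strong_localOn _)
    (fun j _ => Strong_incr _) (Strong_first hm)
    (by positivity : (0 : ℝ) ≤ ε ^ (4 * m0 + 1)) h
  rw [Finset.card_range] at h1
  have h2 : (ε ^ (4 * m0 + 1)) ^ ((1 : ℝ) / ((4 * m + 1 : ℕ) : ℝ)) ≤ ε := by
    have h3 : ε ^ (4 * m0 + 1) ≤ ε ^ (4 * m + 1) :=
      pow_le_pow_of_le_one hε0.le hε1 (by omega)
    have h4 : (ε ^ (4 * m + 1)) ^ ((1 : ℝ) / ((4 * m + 1 : ℕ) : ℝ)) = ε := by
      rw [one_div]
      exact Real.pow_rpow_inv_natCast hε0.le (by omega)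
    calc (ε ^ (4 * m0 + 1)) ^ ((1 : ℝ) / ((4 * m + 1 : ℕ) : ℝ))
        ≤ (ε ^ (4 * m + 1)) ^ ((1 : ℝ) / ((4 * m + 1 : ℕ) : ℝ)) :=
          Real.rpow_le_rpow (by positivity) h3 (by positivity)
      _ = ε := h4
  have h5 : ∀ e : Edge, 1 - ε ≤ Pr p {ω : Config | ω e = true} := by
    intro e
    rw [Strong_edge e (0, (j : ℤ), false)]
    linarith only [h1, h2]
  have h6 : ({ω | HCross ω 0 (16 * m) 0 (5 * m)} : Set Config)ᶜ ⊆
      ⋃ i ∈ Finset.range (16 * m), ({ω : Config | ω ((i : ℤ), 0, false) = true} : Set Config)ᶜ := by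
    intro ω hω
    by_contra hcon
    apply hω
    refine Strong_row fun i hi => ?_
    by_contra hne
    apply hcon
    simp only [Set.mem_iUnion]
    exact ⟨i, hi, hne⟩
  have h7 := (Pr_mono (p := p) h6).trans (Pr_biUnion_le _ _)
  rw [Pr_compl (localOn_hcross _ _ _ _)] at h7
  have h8 : ∑ i ∈ Finset.range (16 * m),
      Pr p ({ω : Config | ω ((i : ℤ), 0, false) = true} : Set Config)ᶜ ≤
      ∑ _i ∈ Finset.range (16 * m), ε := by
    refine Finset.sum_le_sum fun i _ => ?_
    rw [Pr_compl (Strong_localOn _)]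
    linarith only [h5, h5 ((i : ℤ), 0, false)]
  rw [Finset.sum_const, Finset.card_range, nsmul_eq_mul] at h8
  have h9 : ((16 * m : ℕ) : ℝ) * ε ≤ ε * (16 * m0 + 1) := by
    have : ((16 * m : ℕ) : ℝ) ≤ 16 * m0 + 1 := by
      push_cast
      have : (m : ℝ) ≤ m0 := by exact_mod_cast hmm
      linarith only [this]
    nlinarith only [hε0, this]
  linarith only [hεη, h7, h8, h9]

theorem strong_rsw : ∀ η > (0 : ℝ), ∃ δ > (0 : ℝ), ∀ p : I, half ≤ p → ∀ m : ℕ, 1 ≤ m →
    1 - δ ≤ Pr p {ω | HCross ω 0 (4 * m) 0 (4 * m)} →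
    1 - η ≤ Pr p {ω | HCross ω 0 (16 * m) 0 (5 * m)} := by
  intro η hη
  obtain ⟨δ1, hδ1, m0, H1⟩ := Strong_large η hη
  obtain ⟨δ2, hδ2, H2⟩ := Strong_small η hη m0
  refine ⟨min δ1 δ2, lt_min hδ1 hδ2, ?_⟩
  intro p hp m hm h
  rcases le_total m0 m with h1 | h1
  · exact H1 p hp m h1 (by linarith only [h, min_le_left δ1 δ2])
  · exact H2 p m hm h1 (by linarith only [h, min_le_right δ1 δ2])

end Pool.Agent.H83.EX

end

section

open MeasureTheory ProbabilityTheory unitInterval

namespace Pool.Agent.H57.LF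

open Pool.Agent.H89.Perc

end Pool.Agent.H57.LF

end

section

open MeasureTheory ProbabilityTheory unitInterval

namespace Pool.Agent.H57.LF

open Pool.Agent.H89.Perc

end Pool.Agent.H57.LF

end

section

open MeasureTheory ProbabilityTheory unitInterval

namespace Pool.Agent.H57.LF

open Pool.Agent.H89.Perc

end Pool.Agent.H57.LF

end

section

/-!
# The percolation probability is the limit of the one-arm probabilities
-/

open MeasureTheory ProbabilityTheory unitInterval Filter Topology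

namespace Pool.Agent.H89.Perc

end Pool.Agent.H89.Perc

end

section

/-!
# Finite clusters are surrounded by dual paths
-/

open MeasureTheory ProbabilityTheory unitInterval

namespace Pool.Agent.H89.Perc

end Pool.Agent.H89.Perc

end

section

open MeasureTheory ProbabilityTheory unitInterval

namespace Pool.Agent.H57.LF

open Pool.Agent.H89.Perc

end Pool.Agent.H57.LF

end

section

/-!
# The key inequality for the one-arm event
-/

open MeasureTheory ProbabilityTheory unitInterval

namespace Pool.Agent.H85.Gamma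

open Pool.Agent.H89.Perc
open Pool.Agent.Perc (Ex ind ind_of ind_of_not ind_congr)

end Pool.Agent.H85.Gamma

end

section

/-!
# Lower bound for the susceptibility by a second moment argument
-/

open MeasureTheory ProbabilityTheory unitInterval Filter Topology
open scoped ENNReal

namespace Pool.Agent.H85.Gamma

open Pool.Agent.H89.Perc
open Pool.Agent.Perc (Ex ind ind_of ind_of_not ind_congr ind_nonneg ind_le_one)

end Pool.Agent.H85.Gamma

end

section

/-!
# The mean cluster size of bond percolation on the square lattice is at least `c (1/2 - p)^{-2}`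
-/

open MeasureTheory ProbabilityTheory unitInterval Filter Topology
open scoped ENNReal

namespace Pool.Agent.H85.Gamma

open Pool.Agent.H89.Perc

end Pool.Agent.H85.Gamma

end

section

/-! # A winding path from crossings of rectangles -/

open MeasureTheory ProbabilityTheory unitInterval

namespace Pool.Agent.H83.EX

open Pool.Agent.H89.Perc

/-- A path across a vertical strip meets every vertical crossing of the strip. -/
private lemma windDet_meet {η : Config} {A B a b c d : ℤ} {u v u' v' : Vert}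
    (h : Conn η (rect A B c d) u v) (hu : u.1 ≤ a) (hv : b ≤ v.1) (hab : a ≤ b)
    (h' : Conn η (rect a b c d) u' v') (hu' : u'.2 = c) (hv' : v'.2 = d) :
    Conn η Set.univ u u' := by
  obtain ⟨p, q, hp, hq, h1, h2, -⟩ := h.cross_x hu hv hab
  have h3 : Conn η (rect a b c d) p q := by
    refine h1.mono_set ?_
    intro w hw
    simp only [rect, Set.mem_inter_iff, Set.mem_ofPred_eq] at hw ⊢
    omega
  obtain ⟨w, h4, h5⟩ := cross h3 hp hq h' hu' hv'
  exact ((h2.mono_set (Set.subset_univ _)).trans (h4.mono_set (Set.subset_univ _))).trans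
    (h5.mono_set (Set.subset_univ _)).symm

theorem wind_det {m : ℕ} (hm : 1 ≤ m) {η : Config} (hη : ∀ e, η (shiftE (14 * m, 0) e) = η e)
    (h1 : HCross η 0 (12 * m) 0 (5 * m)) (h2 : HCross η (7 * m) (19 * m) 0 (5 * m))
    (v1 : VCross η (7 * m) (12 * m) 0 (5 * m)) (v2 : VCross η (14 * m) (19 * m) 0 (5 * m)) :
    ∃ u : Vert, Conn η Set.univ u (u.1 + 14 * m, u.2) := by
  obtain ⟨u, v, hu, hv, h⟩ := h1
  obtain ⟨u2, v2', hu2, hv2, h2⟩ := h2
  obtain ⟨a1, b1, ha1, hb1, k1⟩ := v1
  obtain ⟨a2, b2, ha2, hb2, k2⟩ := v2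
  have hm' : (1 : ℤ) ≤ m := by exact_mod_cast hm
  -- `u ~ a1`
  have e1 : Conn η Set.univ u a1 :=
    windDet_meet h (by omega) (by omega) (by omega) k1 ha1 hb1
  -- `u2 ~ a1`, `u2 ~ a2`
  have e2 : Conn η Set.univ u2 a1 :=
    windDet_meet h2 (by omega) (by omega) (by omega) k1 ha1 hb1
  have e3 : Conn η Set.univ u2 a2 :=
    windDet_meet h2 (by omega) (by omega) (by omega) k2 ha2 hb2
  -- the translate of the first crossing
  have e4 : Conn η (rect (14 * m) (26 * m) 0 (5 * m)) (u.1 + 14 * m, u.2) (v.1 + 14 * m, v.2) := by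
    have h3 : Conn (fun e => η (shiftE (14 * m, 0) e)) (rect 0 (12 * m) 0 (5 * m)) u v := by
      have : (fun e => η (shiftE (14 * m, 0) e)) = η := funext hη
      rw [this]
      exact h
    rw [conn_shift] at h3
    have h4 : (u.1 + ((14 * m, 0) : Vert).1, u.2 + ((14 * m, 0) : Vert).2) =
        (u.1 + 14 * m, u.2) := by simp
    have h5 : (v.1 + ((14 * m, 0) : Vert).1, v.2 + ((14 * m, 0) : Vert).2) =
        (v.1 + 14 * m, v.2) := by simp
    rw [h4, h5] at h3
    refine h3.mono_set ?_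
    intro w hw
    simp only [rect, Set.mem_ofPred_eq] at hw ⊢
    omega
  have e5 : Conn η Set.univ (u.1 + 14 * m, u.2) a2 :=
    windDet_meet e4 (by simp only; omega) (by simp only; omega) (by omega) k2 ha2 hb2
  exact ⟨u, ((e1.trans e2.symm).trans e3).trans e5.symm⟩

/-- Reduction modulo `N`. -/
private def windDet_red (N : ℕ) (e : Edge) : Edge := (e.1 % N, e.2.1 % N, e.2.2)

private lemma windDet_mod {N : ℕ} {x y a b : ℤ} (hab : b - a < N) (hx : a ≤ x ∧ x ≤ b)
    (hy : a ≤ y ∧ y ≤ b) (h : x % N = y % N) : x = y := by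
  have hd : (N : ℤ) ∣ x - y := Int.ModEq.dvd (Int.ModEq.symm h)
  have : x - y = 0 := by
    apply Int.eq_zero_of_abs_lt_dvd hd
    rw [abs_lt]
    omega
  omega

private lemma windDet_injOn {N : ℕ} {a b c d : ℤ} (hab : b - a < N) (hcd : d - c < N) :
    Set.InjOn (windDet_red N) (eRect a b c d : Set Edge) := by
  rintro ⟨x, y, t⟩ h1 ⟨x', y', t'⟩ h2 h
  rw [Finset.mem_coe, mem_eRect] at h1 h2
  simp only [src, rect, Set.mem_ofPred_eq] at h1 h2
  simp only [windDet_red, Prod.mk.injEq] at h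
  obtain ⟨h3, h4, h5⟩ := h
  rw [windDet_mod hab ⟨h1.1, h1.2.1⟩ ⟨h2.1, h2.2.1⟩ h3,
    windDet_mod hcd ⟨h1.2.2.1, h1.2.2.2⟩ ⟨h2.2.2.1, h2.2.2.2⟩ h4, h5]

private lemma windDetc_injOn {N : ℕ} {a b c d : ℤ} (hab : b - a < N) (hcd : d - c < N) :
    Set.InjOn (fun e => windDet_red N (crossed e)) (eRect a b c d : Set Edge) := by
  rintro ⟨x, y, t⟩ h1 ⟨x', y', t'⟩ h2 h
  rw [Finset.mem_coe, mem_eRect] at h1 h2
  simp only [src, rect, Set.mem_ofPred_eq] at h1 h2
  cases t <;> cases t'
  · simp only [windDet_red, crossed, Prod.mk.injEq, Bool.false_eq_true, if_false] at h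
    have e1 := windDet_mod (a := a + 1) (b := b + 1) (by omega) (by omega) (by omega) h.1
    have e2 := windDet_mod hcd ⟨h1.2.2.1, h1.2.2.2⟩ ⟨h2.2.2.1, h2.2.2.2⟩ h.2.1
    simp only [Prod.mk.injEq, and_true]
    omega
  · simp [windDet_red, crossed] at h
  · simp [windDet_red, crossed] at h
  · simp only [windDet_red, crossed, Prod.mk.injEq, if_true] at h
    have e1 := windDet_mod hab ⟨h1.1, h1.2.1⟩ ⟨h2.1, h2.2.1⟩ h.1
    have e2 := windDet_mod (a := c + 1) (b := d + 1) (by omega) (by omega) (by omega) h.2.1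
    simp only [Prod.mk.injEq, and_true]
    omega

/-- Periodic configurations and rectangles which fit into the torus. -/
theorem Pr_per_hcross (q : I) {N : ℕ} {a b c d : ℤ} (hab : b - a < N) (hcd : d - c < N) :
    Pr q {ω | HCross (per N ω) a b c d} = Pr q {ω | HCross ω a b c d} :=
  Pr_comp (localOn_hcross a b c d) (windDet_injOn hab hcd)

theorem Pr_per_vcross (q : I) {N : ℕ} {a b c d : ℤ} (hab : b - a < N) (hcd : d - c < N) :
    Pr q {ω | VCross (per N ω) a b c d} = Pr q {ω | VCross ω a b c d} :=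
  Pr_comp (localOn_vcross a b c d) (windDet_injOn hab hcd)

theorem Pr_per_dual_hcross (q : I) {N : ℕ} {a b c d : ℤ} (hab : b - a < N) (hcd : d - c < N) :
    Pr q {ω | HCross (dual (per N ω)) a b c d} = Pr (σ q) {ω | HCross ω a b c d} :=
  Pr_comp_not (localOn_hcross a b c d) (windDetc_injOn hab hcd)

theorem Pr_per_dual_vcross (q : I) {N : ℕ} {a b c d : ℤ} (hab : b - a < N) (hcd : d - c < N) :
    Pr q {ω | VCross (dual (per N ω)) a b c d} = Pr (σ q) {ω | VCross ω a b c d} :=
  Pr_comp_not (localOn_vcross a b c d) (windDetc_injOn hab hcd)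

end Pool.Agent.H83.EX

end

section

/-!
# LINK module `PerProb`: local events have the same probability in the plane and on the cylinder

`per n ω e = ω (base n e)` with `base n e = (e.1 % n, e.2.1 + (e.1 - e.1 % n), e.2.2)`.  If `base n` is injective on
the finite set `S` and `A` depends only on `S`, then `{ω | per n ω ∈ A}` is the image of `A` under the
relabelling, and has the same probability (the law of `(ω (base n e))_{e ∈ S}` is the product law).
`base n` is injective on the edges with `|e.1| ≤ k` if `2 k < n`.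
-/

set_option autoImplicit false

open MeasureTheory ProbabilityTheory unitInterval

namespace Pool.Agent.H89.Link

open Pool.Agent.H89.Perc (Vert Edge Config Pr half)

theorem per_eq (n : ℕ) (ω : Config) (e : Edge) : per n ω e = ω (base n e) := rfl

theorem perProb_ball (k : ℕ) : Perc.ball 0 k = Perc.rect (-(k : ℤ)) k (-(k : ℤ)) k := by
  simp [Perc.ball]

theorem perProb_localOn (k : ℕ) :
    Perc.LocalOn (Perc.eRect (-(k : ℤ)) k (-(k : ℤ)) k) (FourD k) := by
  intro ω ω' h hA
  have hc : ∀ (u v : Vert), Perc.Conn ω (Perc.ball 0 k) u v → Perc.Conn ω' (Perc.ball 0 k) u v := by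
    intro u v huv
    rw [perProb_ball] at huv ⊢
    exact Perc.localOn_conn u v ω ω' h huv
  have hc' : ∀ (u v : Vert), Perc.Conn ω' (Perc.ball 0 k) u v → Perc.Conn ω (Perc.ball 0 k) u v := by
    intro u v huv
    rw [perProb_ball] at huv ⊢
    exact Perc.localOn_conn u v ω' ω (fun e he => (h e he).symm) huv
  obtain ⟨⟨u, hu, h1⟩, ⟨v, hv, h2⟩, h3⟩ := hA
  exact ⟨⟨u, hu, hc _ _ h1⟩, ⟨v, hv, hc _ _ h2⟩, fun h4 => h3 (hc' _ _ h4)⟩

theorem pr_per_fourD (p : I) {n k : ℕ} (hk : 2 * k < n) :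
    Pr p {ω | per n ω ∈ FourD k} = Pr p (FourD k) :=
  pr_per p (perProb_injOn hk) (perProb_localOn k)

end Pool.Agent.H89.Link

end

section

/-!
# LINK module `Half`: colours are transported through a half cylinder

`halfP_inv`: induction on `h` with `row_inv` (the upper part has rows `r + 1, …, r + h`).
`halfP_congr`: induction on `h`; `row t P` only uses `t 0, …, t (L - 1)` (`wires_congr`).
-/

set_option autoImplicit false

namespace Pool.Agent.H89.Link

open H56.EX

end Pool.Agent.H89.Link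

end

section

/-!
# LINK module `Face`: colourings of primal or dual vertices give invariants of the patterns

`F : Vert → T` constant along the open edges of the rows `0, …, h - 1` (of `per n ω`) gives a colour of
the medial edges: the colour of the adjacent primal vertex.  In medial coordinates the face `(c, r)`
(between the columns `c, c + 1`, at level `r`) is primal iff `c + r` is odd and is then the vertex
`((c + r + 1) / 2, (r - c - 1) / 2)`.  Put (primal colouring)
  `K c r = F ((c + r + 1) / 2, (r - c - 1) / 2)`,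
  `V c r = if (c + r) % 2 = 1 then K c r else K (c - 1) r`   (vertical edge in column `c` at level `r`),
  `H c r = if (c + r) % 2 = 1 then K c r else K c (r + 1)`   (horizontal edge from `(c, r)` to `(c + 1, r)`).
Then `RowCol (tB (per n ω) · r) (V · (r + 1)) (H · r) (V · r)`:
* `c + r` even: `medge c r = (a, b, false)`, `a = (c + r) / 2`, `b = (r - c) / 2`; South-West face
  `(c - 1, r)` = `src`, North-East face `(c, r + 1)` = `tgt`; `V c r = K (c-1) r`, `V c (r+1) = K c (r+1)`,
  `H c r = K c (r+1)`, `H (c-1) r = K (c-1) r`; `tB = true` iff the edge is open.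
* `c + r` odd: `medge c r = (a, b, true)`, `a = (c + r + 1) / 2`, `b = (r - c - 1) / 2`; South-East face
  `(c, r)` = `src`, North-West face `(c - 1, r + 1)` = `tgt`; `V c r = K c r = H c r`,
  `V c (r+1) = K (c-1) (r+1) = H (c-1) r`; `tB = false` iff the edge is open.
At the top level `h` (even) the star joins `c` odd with `c + 1`, both are next to the primal face `(c, h)`.
The dual colouring is the same with parities exchanged: `K c r = G ((c + r) / 2, (r - c - 2) / 2)` for
`c + r` even, `V c r = if (c + r) % 2 = 0 then K c r else K (c - 1) r`, `H c r = if (c + r) % 2 = 0 then K c r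
else K c (r + 1)`; at the top all dual faces have the same colour `a`.
`V c 0` is `F (pv c)` resp. `G (dv c)`.
`tB (per n ω) (c + 2 n) r = tB (per n ω) c r` (`tB_per`).
For `dn` use the reflected colouring `V' c r = V c (-r)`, `H' c r = H c (-1 - r)`; the types are flipped:
at the vertex `(c, -1 - r)`, top and bottom are exchanged (`top' = V c (-r-1)` is the edge below it).
-/

set_option autoImplicit false

namespace Pool.Agent.H89.Link

open H56.EX
open Pool.Agent.H89.Perc (Vert Edge Config src tgt lowFace)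

end Pool.Agent.H89.Link

end

section

/-!
# Periodic configurations: confinement of two clusters by seals

`Γ` is a group of periods.  `F₁`, `F₂` are clusters in a domain `D`, `X₁`, `X₂` corridors attached to
them, `M₁`, `M₂` the mouths through which they leave `D`.
-/

set_option autoImplicit false

open MeasureTheory ProbabilityTheory unitInterval

namespace Pool.Agent.H47.EX

open Pool.Agent.H89.Perc Pool.Agent.H59.EX

variable {Γ : AddSubgroup (ℤ × ℤ)}

theorem src_shiftE (z : Vert) (e : Edge) : src (shiftE z e) = src e + z := rfl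

theorem tgt_shiftE (z : Vert) (e : Edge) : tgt (shiftE z e) = tgt e + z := by
  obtain ⟨a, b, t⟩ := e
  cases t
  · simp only [tgt, shiftE, Bool.false_eq_true, if_false]
    ext <;> simp <;> ring
  · simp only [tgt, shiftE, if_true]
    ext <;> simp
    ring

theorem shiftE_zero (e : Edge) : shiftE 0 e = e := by
  obtain ⟨a, b, t⟩ := e
  simp [shiftE]

end Pool.Agent.H47.EX

end

section

/-!
# The diagonal source
-/

set_option autoImplicit false

namespace Pool.Agent.H47.EX

open Pool.Agent.H89.Perc Pool.Agent.H59.EX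

/-- The two opposite corners `(0, 0)`, `(1, -1)` of a face; no edge is closed. -/
def srcD : Src where
  x := Pool.Agent.H89.Link.xx
  y := Pool.Agent.H89.Link.yy
  E0 := ∅
  hx := by
    simp only [Pool.Agent.H89.Link.xx, ball, rect, Set.mem_ofPred_eq]
    norm_num
  hy := by
    simp only [Pool.Agent.H89.Link.yy, ball, rect, Set.mem_ofPred_eq]
    norm_num
  hE := by
    intro e he
    simp at he

theorem cut_srcD (ω : Config) : srcD.cut ω = ω := by
  funext e
  simp [Src.cut, closeS, srcD]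

end Pool.Agent.H47.EX

end

section

/-!
# LINK module `Four`: the four-leg event implies four arms

Composite graph `H56.EX.Conn 2 2 (L - 2) P Q` on `ℤ ⊕ ℤ` with `P = up s n h ω`, `Q = dn s n h ω`: `inl x ~ inl (P.m x)`,
`inr y ~ inr (Q.m y)`, `inl c ~ inr c` for the columns `c` with `c % L ≥ 2`.  Home columns: `c % L ∈ {0, 1}`.
(A) If `Leg 2 2 (L - 2) P Q` then no two different ones of the four nodes `inl 0, inl 1, inr 0, inr 1` are connected
(`a = b = 0` in `Leg`, `Odd 0` is false).
(B) Let `Z` be a finite set of nodes closed under the steps and containing one of the four home nodes `ℓ`, all of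
whose nodes have a position in `(-L + 1, L)`, so the only home positions in `Z` are `0` and `1`.  The connected
component `O` of `ℓ` is contained in `Z`, finite, closed under the fixed point free involution
`α : inl x ↦ inl (P.m x), inr y ↦ inr (Q.m y)`, so `|O|` is even; `O` without its home nodes is closed under
`β : inl c ↔ inr c`, so it has an even number of elements.  So `O` contains an even number of home nodes, hence
another home node; this contradicts (A).
(i) Suppose `x = (0, 0)` is not joined to `sphere 0 k` in `ball 0 k`.  `C` = vertices joined to `x` in `ball 0 k`,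
its indicator is constant along open edges; `Z` = nodes whose position `c` has `pv c ∈ C` is closed under the steps
(`up_primal`, `dn_primal`), finite, contains `inl 0`; positions are in `[-2 k - 1, 2 k]` and `2 k + 2 < L`. (B).
(ii) Suppose `y = (1, -1)` is not joined to `sphere 0 k` in `ball 0 k`: the same with `inl 1` (`pv 1 = y`).
(iii) Suppose `x` and `y` are joined in `ball 0 k`.  `exists_pathSum` gives `c` with odd degrees exactly at `x`, `y`;
add the two edges `(0, 0, false)` and `(1, -1, true)` (the path `x, (1, 0), y`): `A`, all degrees even, finite,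
in the strip `H = 2 k + 2`.  `G' = pot A H`.  `Gu = G'` except `Gu q = G' q + 1` for `q = (0, -1)`, `Gd = G'`.
Then `Gu (lowFace e) = Gu (src e)` for closed `e` in rows `≥ 0`: the edges of rows `≥ 0` with `q` as one of their
faces are exactly `(0, 0, false)` and `(1, -1, true)`.  The edges of rows `< 0` at `q` are `(0, -1, false)`,
`(0, -1, true)`.  `Gu = 0` at level `h`, `Gd` = constant at level `-h` (`2 k + 2 ≤ h`); the constant is `0` because
`G'` has finite support in every level (or: `G' (a, b) = 0` for large `a`).  So the sets of nodes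
`Z_ε = {inl c | Gu (dv c) = ε} ∪ {inr c | Gd (dv c) = ε}` are closed under the steps (for `c` not home,
`dv c ≠ q`, so `Gu = Gd`); `dv 0 = dv 1 = q`.  `Gu q ≠ Gd q`, so one of them is `1`: `Z_1` is finite, with positions in
`[-2 k, 2 k + 1]` (on the seam `pot A H (a, -a-1) ≠ 0` needs `|a| ≤ k`), and contains exactly the home nodes
`inl 0, inl 1` or exactly `inr 0, inr 1`.  (B) gives a contradiction (the other home node in the component is
different from `ℓ`, and any two different home nodes contradict (A)).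
-/

set_option autoImplicit false

namespace Pool.Agent.H89.Link

open H56.EX
open Pool.Agent.H89.Perc (Vert Edge Config src tgt lowFace vsum)

variable {L n : ℕ}

/-! ### Finite invariant sets of nodes -/

private lemma Four_home {c : ℤ} (h1 : -(L : ℤ) + 1 < c) (h2 : c < L) (h3 : ¬ 2 ≤ c % L)
    (hL : 2 ≤ L) : c = 0 ∨ c = 1 := by
  have hL' : (0 : ℤ) < L := by omega
  have h4 := Int.emod_nonneg c hL'.ne'
  have h5 := Int.mul_ediv_add_emod c L
  have h6 : c / L = 0 := by
    by_contra hne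
    rcases lt_or_gt_of_ne hne with h7 | h7
    · have : (L : ℤ) * (c / L) ≤ L * (-1) := mul_le_mul_of_nonneg_left (by omega) hL'.le
      omega
    · have : (L : ℤ) * 1 ≤ L * (c / L) := mul_le_mul_of_nonneg_left (by omega) hL'.le
      omega
  rw [h6, mul_zero] at h5
  omega

/-- position of a node -/
private def Four_pos : ℤ ⊕ ℤ → ℤ := Sum.elim id id

private def Four_alpha (P Q : Pat L) : ℤ ⊕ ℤ → ℤ ⊕ ℤ :=
  Sum.elim (fun x => Sum.inl (P.m x)) (fun y => Sum.inr (Q.m y))

private def Four_beta : ℤ ⊕ ℤ → ℤ ⊕ ℤ := Sum.elim Sum.inr Sum.inl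

private lemma Four_leg {P Q : Pat L} (hleg : Leg 2 2 (L - 2) P Q) {ℓ ℓ' : ℤ ⊕ ℤ}
    (h : ℓ = Sum.inl 0 ∨ ℓ = Sum.inl 1 ∨ ℓ = Sum.inr 0 ∨ ℓ = Sum.inr 1)
    (h' : ℓ' = Sum.inl 0 ∨ ℓ' = Sum.inl 1 ∨ ℓ' = Sum.inr 0 ∨ ℓ' = Sum.inr 1)
    (hc : H56.EX.Conn 2 2 (L - 2) P Q ℓ ℓ') : ℓ = ℓ' := by
  have key : ∀ {ν : ℤ ⊕ ℤ}, (ν = Sum.inl 0 ∨ ν = Sum.inl 1 ∨ ν = Sum.inr 0 ∨ ν = Sum.inr 1) →
      ∃ u : Fin 2 ⊕ Fin 2, hpos L L 2 2 u 0 = ν := by
    rintro ν (rfl | rfl | rfl | rfl)
    · exact ⟨Sum.inl 0, by simp [hpos]⟩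
    · exact ⟨Sum.inl 1, by simp [hpos]⟩
    · exact ⟨Sum.inr 0, by simp [hpos]⟩
    · exact ⟨Sum.inr 1, by simp [hpos]⟩
  obtain ⟨u, hu⟩ := key h
  obtain ⟨v, hv⟩ := key h'
  rw [← hu, ← hv] at hc
  rcases hleg u v 0 0 hc with ⟨h1, -⟩ | h1
  · rw [← hu, ← hv, h1]
  · simp at h1

private lemma Four_closed (hL : 2 ≤ L) {P Q : Pat L} (Z : Finset (ℤ ⊕ ℤ))
    (hP : ∀ x, Sum.inl x ∈ Z → Sum.inl (P.m x) ∈ Z)
    (hQ : ∀ x, Sum.inr x ∈ Z → Sum.inr (Q.m x) ∈ Z)
    (hg : ∀ c : ℤ, 2 ≤ c % L → (Sum.inl c ∈ Z ↔ Sum.inr c ∈ Z)) {ν μ : ℤ ⊕ ℤ}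
    (h : H56.EX.Conn 2 2 (L - 2) P Q ν μ) : ν ∈ Z ↔ μ ∈ Z := by
  induction h with
  | rel ν μ h =>
    cases h with
    | top x =>
      constructor
      · exact hP x
      · intro h
        have := hP _ h
        rwa [P.inv] at this
    | bot y =>
      constructor
      · exact hQ y
      · intro h
        have := hQ _ h
        rwa [Q.inv] at this
    | glue a j hj =>
      apply hg
      have e : (((2 : ℕ) : ℤ) + (j : ℤ) + L * a) % L = 2 + j := by
        rw [Int.add_mul_emod_self_left, Int.emod_eq_of_lt (by positivity) (by push_cast; omega)]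
        push_cast
        ring
      rw [e]
      omega
  | refl ν => exact Iff.rfl
  | symm ν μ _ ih => exact ih.symm
  | trans ν μ ξ _ _ ih1 ih2 => exact ih1.trans ih2

private lemma Four_no_finite (hL : 2 ≤ L) {P Q : Pat L} (hleg : Leg 2 2 (L - 2) P Q)
    (Z : Finset (ℤ ⊕ ℤ)) (hP : ∀ x, Sum.inl x ∈ Z → Sum.inl (P.m x) ∈ Z)
    (hQ : ∀ x, Sum.inr x ∈ Z → Sum.inr (Q.m x) ∈ Z)
    (hg : ∀ c : ℤ, 2 ≤ c % L → (Sum.inl c ∈ Z ↔ Sum.inr c ∈ Z))
    (hpos : ∀ c : ℤ, (Sum.inl c ∈ Z ∨ Sum.inr c ∈ Z) → -(L : ℤ) + 1 < c ∧ c < L)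
    (ℓ : ℤ ⊕ ℤ) (hℓ : ℓ ∈ Z)
    (hh : ℓ = Sum.inl 0 ∨ ℓ = Sum.inl 1 ∨ ℓ = Sum.inr 0 ∨ ℓ = Sum.inr 1) : False := by
  classical
  obtain ⟨O, hO⟩ : ∃ O : Finset (ℤ ⊕ ℤ), O = Z.filter (fun ν => H56.EX.Conn 2 2 (L - 2) P Q ℓ ν) :=
    ⟨_, rfl⟩
  have memO : ∀ ν, ν ∈ O ↔ H56.EX.Conn 2 2 (L - 2) P Q ℓ ν := by
    intro ν
    rw [hO, Finset.mem_filter]
    exact ⟨fun h => h.2, fun h => ⟨(Four_closed hL Z hP hQ hg h).1 hℓ, h⟩⟩
  have hOZ : ∀ ν, ν ∈ O → ν ∈ Z := fun ν h => by
    rw [hO, Finset.mem_filter] at h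
    exact h.1
  have h1 : ∑ ν ∈ O, (1 : ZMod 2) = 0 := by
    apply Finset.sum_involution (fun ν _ => Four_alpha P Q ν)
    · intro ν _
      exact CharTwo.add_self_eq_zero 1
    · intro ν _ _
      rcases ν with x | y
      · intro h
        exact P.ne x (Sum.inl.inj h)
      · intro h
        exact Q.ne y (Sum.inr.inj h)
    · intro ν hν
      rw [memO] at hν ⊢
      rcases ν with x | y
      · exact Relation.EqvGen.trans _ _ _ hν (Relation.EqvGen.rel _ _ (H56.EX.Step.top x))
      · exact Relation.EqvGen.trans _ _ _ hν (Relation.EqvGen.rel _ _ (H56.EX.Step.bot y))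
    · intro ν _
      rcases ν with x | y
      · show Sum.inl (P.m (P.m x)) = Sum.inl x
        rw [P.inv]
      · show Sum.inr (Q.m (Q.m y)) = Sum.inr y
        rw [Q.inv]
  have hglue : ∀ c : ℤ, 2 ≤ c % L → H56.EX.Conn 2 2 (L - 2) P Q (Sum.inl c) (Sum.inr c) := by
    intro c hc
    have hlt := Int.emod_lt_of_pos c (show (0 : ℤ) < L by omega)
    have h2 := H56.EX.Step.glue (kt := 2) (kb := 2) (M := L - 2) (Pt := P) (Pb := Q) (c / L)
      (c % L - 2).toNat (by omega)
    have e : ((2 : ℕ) : ℤ) + ((c % L - 2).toNat : ℤ) + L * (c / L) = c := by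
      have h5 := Int.mul_ediv_add_emod c L
      have : (((c % L - 2).toNat : ℕ) : ℤ) = c % L - 2 := Int.toNat_of_nonneg (by omega)
      rw [this]
      push_cast
      linarith only [h5]
    rw [e] at h2
    exact Relation.EqvGen.rel _ _ h2
  have h2 : ∑ ν ∈ O.filter (fun ν => 2 ≤ Four_pos ν % L), (1 : ZMod 2) = 0 := by
    apply Finset.sum_involution (fun ν _ => Four_beta ν)
    · intro ν _
      exact CharTwo.add_self_eq_zero 1
    · intro ν _ _
      rcases ν with x | y
      · intro h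
        exact absurd h (by simp [Four_beta])
      · intro h
        exact absurd h (by simp [Four_beta])
    · intro ν hν
      rw [Finset.mem_filter, memO] at hν ⊢
      rcases ν with x | y
      · refine ⟨Relation.EqvGen.trans _ _ _ hν.1 (hglue x hν.2), hν.2⟩
      · refine ⟨Relation.EqvGen.trans _ _ _ hν.1 (Relation.EqvGen.symm _ _ (hglue y hν.2)), hν.2⟩
    · intro ν _
      rcases ν with x | y <;> rfl
  have h3 : ∑ ν ∈ O.filter (fun ν => ¬ 2 ≤ Four_pos ν % L), (1 : ZMod 2) = 0 := by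
    have h4 := Finset.sum_filter_add_sum_filter_not O (fun ν => 2 ≤ Four_pos ν % (L : ℤ))
      (fun _ => (1 : ZMod 2))
    rw [h1, h2, zero_add] at h4
    exact h4
  have hhome : ¬ 2 ≤ Four_pos ℓ % (L : ℤ) := by
    have h01 : Four_pos ℓ = 0 ∨ Four_pos ℓ = 1 := by
      rcases hh with rfl | rfl | rfl | rfl
      · exact Or.inl rfl
      · exact Or.inr rfl
      · exact Or.inl rfl
      · exact Or.inr rfl
    rcases h01 with h | h
    · rw [h]; simp
    · rw [h, Int.emod_eq_of_lt (by norm_num) (by omega)]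
      norm_num
  have hmem : ℓ ∈ O.filter (fun ν => ¬ 2 ≤ Four_pos ν % (L : ℤ)) := by
    rw [Finset.mem_filter, memO]
    exact ⟨Relation.EqvGen.refl _, hhome⟩
  have hall : ∀ ν ∈ O.filter (fun ν => ¬ 2 ≤ Four_pos ν % (L : ℤ)), ν = ℓ := by
    intro ν hν
    rw [Finset.mem_filter] at hν
    obtain ⟨hν1, hν2⟩ := hν
    have h01 : ν = Sum.inl 0 ∨ ν = Sum.inl 1 ∨ ν = Sum.inr 0 ∨ ν = Sum.inr 1 := by
      have hZ := hOZ ν hν1
      rcases ν with c | c
      · obtain ⟨h5, h6⟩ := hpos c (Or.inl hZ)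
        rcases Four_home h5 h6 hν2 hL with rfl | rfl
        · exact Or.inl rfl
        · exact Or.inr (Or.inl rfl)
      · obtain ⟨h5, h6⟩ := hpos c (Or.inr hZ)
        rcases Four_home h5 h6 hν2 hL with rfl | rfl
        · exact Or.inr (Or.inr (Or.inl rfl))
        · exact Or.inr (Or.inr (Or.inr rfl))
    exact (Four_leg hleg hh h01 ((memO ν).1 hν1)).symm
  have heq : O.filter (fun ν => ¬ 2 ≤ Four_pos ν % (L : ℤ)) = {ℓ} :=
    Finset.eq_singleton_iff_unique_mem.2 ⟨hmem, hall⟩
  rw [heq, Finset.sum_singleton] at h3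
  exact one_ne_zero h3

/-! ### The primal arms -/

private lemma Four_mem_ball {k : ℕ} {v : Vert} : v ∈ Perc.ball 0 k ↔
    -(k : ℤ) ≤ v.1 ∧ v.1 ≤ k ∧ -(k : ℤ) ≤ v.2 ∧ v.2 ≤ k := by
  show (0 : ℤ) - k ≤ v.1 ∧ v.1 ≤ 0 + k ∧ (0 : ℤ) - k ≤ v.2 ∧ v.2 ≤ 0 + k ↔ _
  simp

private lemma Four_arm (hL : L = 2 * n) {s : Pat L} (hs : IsStar s) {h k : ℕ} (he : Even h)
    (hk : k + 2 < n) (ω : Config)
    (hleg : Leg 2 2 (L - 2) (up s n h ω) (dn s n h ω)) (v : Vert) (hv : v ∈ Perc.ball 0 k)
    (c0 : ℤ) (hc0 : c0 = 0 ∨ c0 = 1) (hpv : pv c0 = v) :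
    ∃ u ∈ Perc.sphere 0 k, Perc.Conn (per n ω) (Perc.ball 0 k) v u := by
  classical
  by_contra hcon
  push Not at hcon
  -- the indicator of the cluster
  have hstep : ∀ a b : Vert, ∀ e : Edge, Perc.Joins e a b → per n ω e = true →
      Perc.Conn (per n ω) (Perc.ball 0 k) v a → Perc.Conn (per n ω) (Perc.ball 0 k) v b := by
    intro a b e hj ho ha
    have h1 := ha.mem_right
    have h2 : a ∉ Perc.sphere 0 k := fun h => hcon a h ha
    have h3 : Perc.Step (per n ω) Set.univ a b := ⟨trivial, trivial, e, hj, ho⟩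
    have h4 := h3.cases
    have h5 : b ∈ Perc.ball 0 k := by
      rw [Four_mem_ball] at h1 ⊢
      have h6 : ¬ (a.1 = -(k : ℤ) ∨ a.1 = k ∨ a.2 = -(k : ℤ) ∨ a.2 = k) := by
        intro h6
        apply h2
        refine ⟨Four_mem_ball.2 h1, ?_⟩
        show a.1 = 0 - (k : ℤ) ∨ a.1 = 0 + (k : ℤ) ∨ a.2 = 0 - (k : ℤ) ∨ a.2 = 0 + (k : ℤ)
        omega
      omega
    exact ha.tail ⟨h1, h5, e, hj, ho⟩
  have hF : ∀ e : Edge, per n ω e = true →
      (Perc.Conn (per n ω) (Perc.ball 0 k) v (src e)) =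
        (Perc.Conn (per n ω) (Perc.ball 0 k) v (tgt e)) := by
    intro e ho
    apply propext
    exact ⟨hstep _ _ e (Perc.joins_src_tgt e) ho, hstep _ _ e (Perc.joins_src_tgt e).symm ho⟩
  have hup := up_primal (F := fun a => Perc.Conn (per n ω) (Perc.ball 0 k) v a) hL hs he ω
    (fun e _ _ ho => hF e ho)
  have hdn := dn_primal (F := fun a => Perc.Conn (per n ω) (Perc.ball 0 k) v a) hL hs he ω
    (fun e _ _ ho => hF e ho)
  obtain ⟨Z, hZ⟩ : ∃ Z : Finset (ℤ ⊕ ℤ), ∀ ν, ν ∈ Z ↔
      Perc.Conn (per n ω) (Perc.ball 0 k) v (pv (Four_pos ν)) := by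
    obtain ⟨S, hS⟩ : ∃ S : Finset ℤ, S = (Finset.Icc (-(2 * k : ℤ) - 1) (2 * k)).filter
        (fun c => Perc.Conn (per n ω) (Perc.ball 0 k) v (pv c)) := ⟨_, rfl⟩
    have memS : ∀ c, c ∈ S ↔ Perc.Conn (per n ω) (Perc.ball 0 k) v (pv c) := by
      intro c
      rw [hS, Finset.mem_filter, Finset.mem_Icc]
      constructor
      · exact fun h => h.2
      · intro h
        refine ⟨?_, h⟩
        have h1 := Four_mem_ball.1 h.mem_right
        simp only [pv] at h1
        omega
    refine ⟨S.image Sum.inl ∪ S.image Sum.inr, ?_⟩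
    intro ν
    rcases ν with c | c
    · rw [show Four_pos (Sum.inl c) = c from rfl, ← memS]
      simp
    · rw [show Four_pos (Sum.inr c) = c from rfl, ← memS]
      simp
  have hn3 : 3 ≤ n := by omega
  apply Four_no_finite (by omega) hleg Z _ _ _ _ (Sum.inl c0)
  · rw [hZ]
    show Perc.Conn (per n ω) (Perc.ball 0 k) v (pv c0)
    rw [hpv]
    exact Perc.Conn.refl hv
  · rcases hc0 with rfl | rfl
    · exact Or.inl rfl
    · exact Or.inr (Or.inl rfl)
  · intro x hx
    rw [hZ] at hx ⊢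
    show Perc.Conn (per n ω) (Perc.ball 0 k) v (pv ((up s n h ω).m x))
    rw [hup x]
    exact hx
  · intro x hx
    rw [hZ] at hx ⊢
    show Perc.Conn (per n ω) (Perc.ball 0 k) v (pv ((dn s n h ω).m x))
    rw [hdn x]
    exact hx
  · intro c _
    rw [hZ, hZ]
    rfl
  · intro c hc
    have h1 : Perc.Conn (per n ω) (Perc.ball 0 k) v (pv c) := by
      rcases hc with h | h
      · exact (hZ _).1 h
      · exact (hZ _).1 h
    have h2 := Four_mem_ball.1 h1.mem_right
    simp only [pv] at h2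
    omega

/-! ### The two arms are not connected -/

private lemma Four_pot_zero {A : Edge → ZMod 2} {k : ℕ}
    (hA : ∀ e : Edge, A e ≠ 0 → src e ∈ Perc.ball 0 k ∧ tgt e ∈ Perc.ball 0 k)
    (hv : ∀ V, vsum A V = 0) {f : Vert} (hf : f.1 < -(k : ℤ) ∨ (k : ℤ) < f.1 ∨ f.2 < -(k : ℤ)) :
    pot A (2 * k + 2) f = 0 := by
  have hA1 : ∀ e : Edge, (e.1 < -(k : ℤ) ∨ (k : ℤ) < e.1 ∨ e.2.1 < -(k : ℤ)) → A e = 0 := by
    intro e he
    by_contra hne
    have h1 := (hA e hne).1
    rw [Four_mem_ball] at h1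
    simp only [src] at h1
    omega
  have hA2 : ∀ e : Edge, ¬ (-((2 * k + 2 : ℕ) : ℤ) < e.1 + e.2.1 ∧
      e.1 + e.2.1 + 1 < ((2 * k + 2 : ℕ) : ℤ)) → A e = 0 := by
    intro e he
    by_contra hne
    obtain ⟨h1, h2⟩ := hA e hne
    rw [Four_mem_ball] at h1 h2
    simp only [src, tgt] at h1 h2
    apply he
    push_cast
    split_ifs at h2 <;> simp only at h2 <;> omega
  have hside : ∀ f : Vert, (f.1 < -(k : ℤ) ∨ (k : ℤ) < f.1) → pot A (2 * k + 2) f = 0 := by
    intro f hf
    unfold pot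
    apply Finset.sum_eq_zero
    intro j _
    apply hA1
    rcases hf with h | h
    · exact Or.inl h
    · exact Or.inr (Or.inl h)
  rcases hf with h | h | h
  · exact hside f (Or.inl h)
  · exact hside f (Or.inr h)
  · obtain ⟨a, b⟩ := f
    simp only at h
    have key : ∀ m : ℕ, pot A (2 * k + 2) ((k : ℤ) + 1 - m, b) = 0 := by
      intro m
      induction m with
      | zero =>
        apply hside
        right
        simp
      | succ m ih =>
        have h1 := pot_even hA2 hv ((k : ℤ) + 1 - m, b, true)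
        have h2 : lowFace ((k : ℤ) + 1 - m, b, true) = ((k : ℤ) + 1 - ((m + 1 : ℕ) : ℤ), b) := by
          simp only [lowFace, if_true]
          rw [Prod.mk.injEq]
          refine ⟨?_, rfl⟩
          push_cast
          ring
        have h3 : src ((k : ℤ) + 1 - m, b, true) = ((k : ℤ) + 1 - m, b) := rfl
        rw [h2, h3, ih, add_zero] at h1
        rw [h1]
        exact hA1 _ (Or.inr (Or.inr h))
    by_cases ha : (k : ℤ) < a
    · exact hside _ (Or.inr ha)
    · have h1 := key ((k : ℤ) + 1 - a).toNat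
      rw [Int.toNat_of_nonneg (by omega)] at h1
      rw [show (k : ℤ) + 1 - ((k : ℤ) + 1 - a) = a by ring] at h1
      exact h1

private lemma Four_dv {c : ℤ} (h : dv c = (0, -1)) : c = 0 ∨ c = 1 := by
  simp only [dv, Prod.mk.injEq] at h
  omega

private lemma Four_sep (hL : L = 2 * n) {s : Pat L} (hs : IsStar s) {h k : ℕ} (he : Even h)
    (hk1 : 1 ≤ k) (hk : k + 2 < n) (hh : 2 * k + 2 ≤ h) (ω : Config)
    (hleg : Leg 2 2 (L - 2) (up s n h ω) (dn s n h ω)) :
    ¬ Perc.Conn (per n ω) (Perc.ball 0 k) xx yy := by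
  classical
  intro hconn
  obtain ⟨c, hc, -, hcv⟩ := exists_pathSum hconn
  obtain ⟨A, hAdef⟩ : ∃ A : Edge → ZMod 2, A = fun e =>
      (fun e => c e + Perc.one (0, 0, false) e) e + Perc.one (1, -1, true) e := ⟨_, rfl⟩
  have hAe : ∀ e, A e = c e + Perc.one (0, 0, false) e + Perc.one (1, -1, true) e := by
    intro e
    rw [hAdef]
  have hA : ∀ e : Edge, A e ≠ 0 → src e ∈ Perc.ball 0 k ∧ tgt e ∈ Perc.ball 0 k := by
    intro e hne
    by_cases h1 : c e = 0
    · by_cases h2 : e = (0, 0, false)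
      · subst h2
        rw [Four_mem_ball, Four_mem_ball]
        simp only [src, tgt]
        simp
        omega
      · by_cases h3 : e = (1, -1, true)
        · subst h3
          rw [Four_mem_ball, Four_mem_ball]
          simp only [src, tgt]
          simp
          omega
        · exfalso
          apply hne
          rw [hAe, h1]
          simp [Perc.one, h2, h3]
    · exact (hc e h1).2
  have hv : ∀ V, vsum A V = 0 := by
    intro V
    rw [hAdef, Perc.vsum_add, Perc.vsum_add, hcv, Perc.vsum_one, Perc.vsum_one]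
    have e1 : src ((0, 0, false) : Edge) = xx := rfl
    have e2 : tgt ((0, 0, false) : Edge) = (1, 0) := rfl
    have e3 : src ((1, -1, true) : Edge) = yy := rfl
    have e4 : tgt ((1, -1, true) : Edge) = (1, 0) := rfl
    rw [e1, e2, e3, e4]
    generalize (if V = xx then (1 : ZMod 2) else 0) = a1
    generalize (if V = yy then (1 : ZMod 2) else 0) = a2
    generalize (if V = ((1, 0) : Vert) then (1 : ZMod 2) else 0) = a3
    revert a1 a2 a3
    decide
  have hA2 : ∀ e : Edge, ¬ (-((2 * k + 2 : ℕ) : ℤ) < e.1 + e.2.1 ∧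
      e.1 + e.2.1 + 1 < ((2 * k + 2 : ℕ) : ℤ)) → A e = 0 := by
    intro e he
    by_contra hne
    obtain ⟨h1, h2⟩ := hA e hne
    rw [Four_mem_ball] at h1 h2
    simp only [src, tgt] at h1 h2
    apply he
    push_cast
    split_ifs at h2 <;> simp only at h2 <;> omega
  obtain ⟨G, hGdef⟩ : ∃ G : Vert → ZMod 2, G = pot A (2 * k + 2) := ⟨_, rfl⟩
  have hG0 : ∀ f : Vert, (f.1 < -(k : ℤ) ∨ (k : ℤ) < f.1 ∨ f.2 < -(k : ℤ)) → G f = 0 := by
    intro f hf
    rw [hGdef]
    exact Four_pot_zero hA hv hf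
  have hGe : ∀ e : Edge, G (lowFace e) + G (src e) = A e := by
    intro e
    rw [hGdef]
    exact pot_even hA2 hv e
  obtain ⟨Gu, hGu⟩ : ∃ Gu : Vert → ZMod 2, ∀ f, Gu f = G f + if f = (0, -1) then 1 else 0 :=
    ⟨fun f => G f + if f = (0, -1) then 1 else 0, fun _ => rfl⟩
  have hclosed : ∀ e : Edge, per n ω e = false →
      G (lowFace e) + G (src e) = Perc.one (0, 0, false) e + Perc.one (1, -1, true) e := by
    intro e ho
    have h1 : c e = 0 := by
      by_contra h1
      rw [(hc e h1).1] at ho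
      cases ho
    rw [hGe, hAe, h1, zero_add]
  have hup := up_dual (G := Gu) hL hs he ω (by
    intro e hr _ ho
    have h1 := hclosed e ho
    rw [← Perc.z2_add_eq_zero, hGu, hGu]
    obtain ⟨a, b, bb⟩ := e
    simp only at hr
    have h2 : src (a, b, bb) ≠ (0, -1) := by
      intro h2
      simp only [src, Prod.mk.injEq] at h2
      omega
    have h3 : lowFace (a, b, bb) = (0, -1) ↔ ((a, b, bb) = ((0, 0, false) : Edge) ∨
        (a, b, bb) = ((1, -1, true) : Edge)) := by
      cases bb <;> simp [lowFace, Prod.mk.injEq] <;> omega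
    have h4 : ¬ ((a, b, bb) = ((0, 0, false) : Edge) ∧ (a, b, bb) = ((1, -1, true) : Edge)) := by
      rintro ⟨h5, h6⟩
      rw [h5] at h6
      simp at h6
    rw [if_neg h2, add_zero]
    have h5 : G (lowFace (a, b, bb)) + (if lowFace (a, b, bb) = (0, -1) then 1 else 0) +
        G (src (a, b, bb)) = (G (lowFace (a, b, bb)) + G (src (a, b, bb))) +
        (if lowFace (a, b, bb) = (0, -1) then 1 else 0) := by ring
    rw [h5, h1]
    simp only [Perc.one]
    by_cases h6 : (a, b, bb) = ((0, 0, false) : Edge)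
    · have h7 : ¬ (a, b, bb) = ((1, -1, true) : Edge) := fun h => h4 ⟨h6, h⟩
      rw [if_pos h6, if_neg h7, if_pos (h3.2 (Or.inl h6))]
      decide
    · by_cases h7 : (a, b, bb) = ((1, -1, true) : Edge)
      · rw [if_neg h6, if_pos h7, if_pos (h3.2 (Or.inr h7))]
        decide
      · rw [if_neg h6, if_neg h7, if_neg (fun h => by
          rcases h3.1 h with h | h
          · exact h6 h
          · exact h7 h)]
        decide) 0 (by
    intro f hf
    rw [hGu, if_neg (by rintro rfl; simp at hf; omega), add_zero, hGdef]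
    apply pot_top
    push_cast
    omega)
  have hdn := dn_dual (G := G) hL hs he ω (by
    intro e _ hr ho
    have h1 := hclosed e ho
    rw [← Perc.z2_add_eq_zero, h1]
    have h2 : e ≠ (0, 0, false) := by
      rintro rfl
      simp at hr
    have h3 : e ≠ (1, -1, true) := by
      rintro rfl
      simp at hr
    simp [Perc.one, h2, h3]) 0 (by
    intro f hf
    apply hG0
    omega)
  obtain ⟨Z, hZ1, hZ2⟩ : ∃ Z : Finset (ℤ ⊕ ℤ), (∀ c, Sum.inl c ∈ Z ↔ Gu (dv c) = 1) ∧
      (∀ c, Sum.inr c ∈ Z ↔ G (dv c) = 1) := by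
    have hrange : ∀ c : ℤ, G (dv c) = 1 → c ∈ Finset.Icc (-(2 * k : ℤ)) (2 * k + 1) := by
      intro c hc
      rw [Finset.mem_Icc]
      by_contra hcon
      have h1 : G (dv c) = 0 := by
        apply hG0
        simp only [dv]
        omega
      rw [h1] at hc
      exact zero_ne_one hc
    refine ⟨((Finset.Icc (-(2 * k : ℤ)) (2 * k + 1)).filter (fun c => Gu (dv c) = 1)).image Sum.inl ∪
      ((Finset.Icc (-(2 * k : ℤ)) (2 * k + 1)).filter (fun c => G (dv c) = 1)).image Sum.inr, ?_, ?_⟩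
    · intro c
      simp only [Finset.mem_union, Finset.mem_image, Finset.mem_filter, Sum.inl.injEq,
        exists_eq_right, reduceCtorEq, and_false, exists_false, or_false]
      constructor
      · exact fun h => h.2
      · intro hc
        refine ⟨?_, hc⟩
        by_cases h1 : dv c = (0, -1)
        · rw [Finset.mem_Icc]
          rcases Four_dv h1 with rfl | rfl <;> constructor <;> omega
        · rw [hGu, if_neg h1, add_zero] at hc
          exact hrange c hc
    · intro c
      simp only [Finset.mem_union, Finset.mem_image, Finset.mem_filter, Sum.inr.injEq,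
        exists_eq_right, reduceCtorEq, and_false, exists_false, false_or]
      constructor
      · exact fun h => h.2
      · intro hc
        exact ⟨hrange c hc, hc⟩
  have hq : Gu (0, -1) = 1 ∨ G (0, -1) = 1 := by
    rw [hGu, if_pos rfl]
    generalize G (0, -1) = a
    revert a
    decide
  have hdv0 : dv 0 = (0, -1) := by simp [dv]
  have main : ∀ ℓ : ℤ ⊕ ℤ, ℓ ∈ Z →
      (ℓ = Sum.inl 0 ∨ ℓ = Sum.inl 1 ∨ ℓ = Sum.inr 0 ∨ ℓ = Sum.inr 1) → False := by
    intro ℓ hℓ hhome
    apply Four_no_finite (by omega) hleg Z _ _ _ _ ℓ hℓ hhome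
    · intro x hx
      rw [hZ1] at hx ⊢
      rw [hup x]
      exact hx
    · intro x hx
      rw [hZ2] at hx ⊢
      rw [hdn x]
      exact hx
    · intro c hc2
      rw [hZ1, hZ2, hGu]
      have h1 : dv c ≠ (0, -1) := by
        intro h1
        rcases Four_dv h1 with rfl | rfl
        · simp at hc2
        · rw [Int.emod_eq_of_lt (by norm_num) (by omega)] at hc2
          norm_num at hc2
      rw [if_neg h1, add_zero]
    · intro c hcc
      have hrange : -(2 * k : ℤ) ≤ c ∧ c ≤ 2 * k + 1 := by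
        by_contra hcon
        have h1 : G (dv c) = 0 := by
          apply hG0
          simp only [dv]
          omega
        rcases hcc with h2 | h2
        · rw [hZ1, hGu, h1] at h2
          by_cases h3 : dv c = (0, -1)
          · rcases Four_dv h3 with rfl | rfl <;> omega
          · rw [if_neg h3] at h2
            simp at h2
        · rw [hZ2, h1] at h2
          exact zero_ne_one h2
      omega
  rcases hq with h1 | h1
  · refine main (Sum.inl 0) ?_ (Or.inl rfl)
    rw [hZ1, hdv0]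
    exact h1
  · refine main (Sum.inr 0) ?_ (Or.inr (Or.inr (Or.inl rfl)))
    rw [hZ2, hdv0]
    exact h1

theorem fourD_of_leg (hL : L = 2 * n) {s : Pat L} (hs : IsStar s) {h k : ℕ} (he : Even h)
    (hk1 : 1 ≤ k) (hk : k + 2 < n) (hh : 2 * k + 2 ≤ h) (ω : Config)
    (hleg : Leg 2 2 (L - 2) (up s n h ω) (dn s n h ω)) : per n ω ∈ FourD k := by
  refine ⟨?_, ?_, Four_sep hL hs he hk1 hk hh ω hleg⟩
  · refine Four_arm hL hs he hk ω hleg xx ?_ 0 (Or.inl rfl) ?_
    · rw [Four_mem_ball]
      simp [xx]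
    · simp [pv, xx]
  · refine Four_arm hL hs he hk ω hleg yy ?_ 1 (Or.inr rfl) ?_
    · rw [Four_mem_ball]
      simp only [yy]
      omega
    · simp [pv, yy]

end Pool.Agent.H89.Link

end

section

/-!
# LINK module `Star`: the pattern of small arcs, reset by an alternating row

`exists_star`: write down the involution `x ↦ if x % 2 = 0 then x - 1 else x + 1`.
`row_alt`: apply `row_inv` with `T = ℤ`, `bot c = (c + 1) / 2`, `hor c = if c % 2 = 1 then (c + 1) / 2 else C`
and `top = C` constant (`C` any constant, e.g. `C = 0` and colours in `Option ℤ`): so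
`bot ((row t P).m x) = bot x`, hence `(row t P).m x ∈ {x, x + 1}` for odd `x` and `∈ {x - 1, x}` for even `x`,
and `(row t P).m x ≠ x` (`Pat.ne`).  Conclude with `Pat.ext`.
-/

set_option autoImplicit false

namespace Pool.Agent.H89.Link

open H56.EX

variable {L : ℕ}

end Pool.Agent.H89.Link

end

section

/-!
# LINK module `Law`: the law of the two patterns, and its limit

`pr_up_dn`: for `L = 2 n`, the bits `tB (per n ω) c r`, `0 ≤ c < L`, `-h ≤ r < h`, are the values of `ω`
(or their negations) at pairwise different edges: `per n ω (medge c r) = ω (medge' c r)` with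
`medge' c r = (e.1 % n, e.2.1 + (e.1 - e.1 % n), e.2.2)`, `e = medge c r`; the map `(c, r) ↦ medge' c r` is
injective on `0 ≤ c < 2 n` (`e.1 + e.2.1 = r` and the orientation and `e.1 - e.2.1` determine `c` modulo `2 n`).
So they are independent fair bits (`Pr half`, product measure), and the same holds for the reflected and
flipped bits of the lower half.  Then induction over the rows (the row next to the seam is applied last;
peel it off).  A convenient formulation: the probability of a set of bit arrays is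
(number of arrays) / 2 ^ (2 h L); see `Pool.Agent.H89.Perc.Prob` for cylinder probabilities.
`law_tendsto`: the kernel `K P Q = 2 ^ (-L) #{t | row (bits t) P = Q}` satisfies `K P s ≥ 2 ^ (-L)` for all `P`
by `row_alt`.  For a signed/complex vector `w` with sum zero, `‖K w‖₁ ≤ (1 - 2 ^ (-L)) ‖w‖₁`.  Apply it to
`w = law s h - v / ∑ v` (`law s h` has sum one, is the `h`-th iterate, and `v` is fixed by `Stat v`).
-/

set_option autoImplicit false

open MeasureTheory ProbabilityTheory Filter Topology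

namespace Pool.Agent.H89.Link

open H56.EX
open Pool.Agent.H89.Perc (Vert Edge Config Pr half)

variable {L n : ℕ}

/-! ### Fair bits -/

open Pool.Agent.H89.Perc (LocalOn ofS ofS_apply Pr_eq_Ex)
open Pool.Agent.Perc (Ex ind ind_of ind_of_not ind_congr)

/-! ### Patterns of arrays of bits -/

/-! ### The edges -/

/-! ### Convergence -/

end Pool.Agent.H89.Link

end

section

/-!
# LINK module `One`: one arm

`arm_of_noSurr`.  Suppose `per n ω ∉ Arm 0 k`.  Let `C` be the set of vertices joined to `0` inside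
`ball 0 k`; it is finite, contains `0` and no point of `sphere 0 k`, hence its indicator `F` is constant along
all open edges of `per n ω` (a neighbour of a point of the ball which is not on the sphere is in the ball).
By `up_primal`, `dn_primal` the finite set `X = {c | pv c ∈ C}` is invariant under both involutions.
`pv c = (j, -j)` with `j = (c + 1) / 2`: the columns `2 j - 1, 2 j`.  So
`#{c ∈ X | 0 ≤ c} = 1 + 2 #{j ≥ 1 | (j, -j) ∈ C}` is odd, which contradicts `NoSurr`.

`noSurr_of_path`.  `exists_pathSum` and `exists_halfSum` give `A : Edge → ZMod 2` supported on open edges of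
`per n ω` in the strip, with `0` the only vertex of odd degree; `G = pot A H`.  By `pot_odd`
`Gu f = G f` satisfies `Gu (lowFace e) = Gu (src e)` for all closed edges `e` in rows `≥ 0` (there
`e.1 = 0 ∧ e.2.1 < 0` is impossible), and `Gd f = G f + (if 0 ≤ f.1 then 1 else 0)` satisfies the same for closed
edges in rows `< 0` (check: only `e = (0, b, true)` has `lowFace e`, `src e` on different sides of `f.1 = 0`, and
in the rows `< 0` it has `b < 0`).  Top level `h ≥ H`: `Gu = 0` (`pot_top`).  Bottom level `-h ≤ -H`: `Gd` is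
constant: for `f.1 + f.2 + 1 = -h` moving from `(a, b)` to `(a + 1, b - 1)` crosses edges of rows `< -H` (or
`≤ -H`), where `A = 0`, so `Gd` does not change; (equivalently `Gd (a, b) = Gd (a+1, b-1)` for all `a`, then
integer induction).  Hence `up_dual`, `dn_dual`: with `hu c = Gu (dv c)`, `hd c = Gd (dv c)`:
`hu ((up ..).m c) = hu c`, `hd ((dn ..).m c) = hd c`, and `hu c + hd c = if 0 ≤ c then 1 else 0`
(`(dv c).1 = c / 2 ≥ 0 ↔ c ≥ 0`).  For an invariant finite set `X`: `∑_{c ∈ X} hu c = 0` in `ZMod 2` (a fixed point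
free involution of `X` preserves `hu`; `Finset.sum_involution`), same for `hd`; so `#{c ∈ X | 0 ≤ c}` is even.
-/

set_option autoImplicit false

namespace Pool.Agent.H89.Link

open H56.EX
open Pool.Agent.H89.Perc (Vert Edge Config src tgt lowFace vsum)

variable {L n : ℕ}

end Pool.Agent.H89.Link

end

section

/-!
# LINK module `Final`

Let `h → ∞` through even numbers in `pr_up_dn` with `A` = the event in question, use `law_tendsto`.
-/

set_option autoImplicit false

open MeasureTheory ProbabilityTheory Filter Topology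

namespace Pool.Agent.H89.Link

open H56.EX
open Pool.Agent.H89.Perc (Vert Edge Config Pr half)

variable {L n : ℕ}

end Pool.Agent.H89.Link

end

section

/-! Topological lemmas on insertions of small arcs (EXACT project). -/

namespace Pool.Agent.H14.EX

open H56.EX

variable {L : ℕ}

end Pool.Agent.H14.EX

end

section

/-!
# Interface for the construction of the polynomial qKZ solution

`PsiPre Ψ` collects the properties of `Ψ` which are obtained directly from the construction; the arc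
recursion (`arc_zero`, `arc` of `PsiProps`) is derived from `PsiPre` and the triangularity lemma.
-/

namespace Pool.Agent.H12.QKZ

open H56.EX

end Pool.Agent.H12.QKZ

end

section

/-! Arc recursion of the polynomial qKZ solution (EXACT project): `arc_zero_of`, `arc_of`. -/

namespace Pool.Agent.H14.EX

open H56.EX Pool.Agent.H12.QKZ

variable {L : ℕ}

/-! ### Push-forwards -/

/-! ### `arc_zero` -/

/-! ### Insertion of the parameters `q² w, w` -/

/-! ### The inserted vector -/

/-! ### Products over a period -/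

/-! ### Generic parameters -/

end Pool.Agent.H14.EX

end

section

/-!
# The base component
-/

namespace Pool.Agent.H12.QKZ

open H56.EX MvPolynomial

end Pool.Agent.H12.QKZ

end

section

/-!
# The total length of the arcs of a link pattern
-/

namespace Pool.Agent.H12.QKZ

open H56.EX

variable {L : ℕ}

end Pool.Agent.H12.QKZ

end

section

/-!
# Good positions of a link pattern and the fibres of `e_i`
-/

namespace Pool.Agent.H12.QKZ

open H56.EX

variable {L : ℕ}

end Pool.Agent.H12.QKZ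

end

section

/-! Arc recursion of the leg sums. -/

namespace H56.EX

open scoped BigOperators Classical

variable {Lt Lb L : ℕ}


/-! ### parameters -/

end H56.EX

end

section

/-! Manipulation of the parameter sequences; exchange, recursion and polynomiality of `F22`, `F13`. -/

namespace H56.EX

open scoped BigOperators Classical


end H56.EX

end

section

/-!
# LT1: the Temperley–Lieb generator can be moved from the top pattern to the bottom pattern
at glued strands, without changing the leg class.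
-/

namespace H56.EX

open Relation

variable {Lt Lb : ℕ}

section vmap

end vmap

end H56.EX

end

section

/-! Topology lemma LT4 of the EXACT project: a small arc between the last glued strand
(position `-1`) and the first hole end (position `0`) of the top pattern. -/

namespace H56.EX

variable {Lt Lb : ℕ}

section

end

end H56.EX

end

section

/-! Symmetry of `F22`, `F13` in the glued strands. -/

namespace H56.EX

open scoped BigOperators Classical

lemma Cub.ne1 {x y : ℂ} (h : Cub x y) : x ≠ y := fun e => h (by rw [e])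

lemma Cub.neq2 {x y : ℂ} (h : Cub x y) : x ≠ q ^ 2 * y := fun e => h (by
  rw [e, mul_pow, ← pow_mul, mul_comm 2 3, pow_mul, q_cube, one_pow, one_mul])


/-! ### moving a parameter to the front -/


end H56.EX

end

section

/-! Topology lemma LT3: a small arc between the last hole end of the top pattern and the first
glued strand turns the hole end into a hole end of the bottom pattern. -/

namespace H56.EX

namespace LT3

variable {Lt Lb : ℕ}

end LT3

variable {Lt Lb : ℕ}

end H56.EX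

end
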