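import Pool.Agent.H94.BG.H31.PT.M32_1

/-! The parts of this file: H89.Perc.ArmBoxLower, H83.EX.SqrtTrick, H83.EX.Glue2, H83.EX.Double, H83.EX.DualSmall, H83.EX.StrongRSW, H57.LF.FS2, H57.LF.FS3, H57.LF.FS1, H89.Perc.ThetaLimit, H89.Perc.Surround, H57.LF.FS4, H85.Gamma.KIArm, H85.Gamma.Second, H85.Gamma.Main, H83.EX.WindDet, H89.Link.PerProb, H89.Link.Half, H89.Link.Face, H47.EX.Confine, H47.EX.SrcD, H89.Link.Four, H89.Link.Star, H89.Link.Law, H89.Link.One, H89.Link.Final, H14.EX.Top, H12.QKZ.Iface, H14.EX.Arc, H12.QKZ.PhiBase, H12.QKZ.Area, H12.QKZ.Comb, H56.EX.Rec, H56.EX.Param, H96.EX.LT1, H14.EX.LT4, H56.EX.Sym, H7.EX.LT3. -/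

section

/-!
# Lower bound for annulus crossing probabilities
-/

open MeasureTheory ProbabilityTheory unitInterval

namespace Pool.Agent.H89.Perc

namespace ArmBoxLower

end ArmBoxLower

end Pool.Agent.H89.Perc

end

section

/-! # The square-root trick -/

open MeasureTheory ProbabilityTheory unitInterval

namespace Pool.Agent.H83.EX

open Pool.Agent.H89.Perc

end Pool.Agent.H83.EX

end

section

/-! # Two paths across an annulus without dual crossing are connected -/

open MeasureTheory ProbabilityTheory unitInterval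

namespace Pool.Agent.H83.EX

open Pool.Agent.H89.Perc

end Pool.Agent.H83.EX

end

section

/-! # Doubling the length of a rectangle -/

open MeasureTheory ProbabilityTheory unitInterval

namespace Pool.Agent.H83.EX

open Pool.Agent.H89.Perc

end Pool.Agent.H83.EX

end

section

/-! # Annulus crossings of thick annuli are unlikely -/

open MeasureTheory ProbabilityTheory unitInterval

namespace Pool.Agent.H83.EX

open Pool.Agent.H89.Perc

end Pool.Agent.H83.EX

end

section

/-! # If the squares are crossed with probability close to one, so are the long rectangles -/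

open MeasureTheory ProbabilityTheory unitInterval

namespace Pool.Agent.H83.EX

open Pool.Agent.H89.Perc

end Pool.Agent.H83.EX

end

section

open MeasureTheory ProbabilityTheory unitInterval

namespace Pool.Agent.H57.LF

open Pool.Agent.H89.Perc

end Pool.Agent.H57.LF

end

section

open MeasureTheory ProbabilityTheory unitInterval

namespace Pool.Agent.H57.LF

open Pool.Agent.H89.Perc

end Pool.Agent.H57.LF

end

section

open MeasureTheory ProbabilityTheory unitInterval

namespace Pool.Agent.H57.LF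

open Pool.Agent.H89.Perc

end Pool.Agent.H57.LF

end

section

/-!
# The percolation probability is the limit of the one-arm probabilities
-/

open MeasureTheory ProbabilityTheory unitInterval Filter Topology

namespace Pool.Agent.H89.Perc

end Pool.Agent.H89.Perc

end

section

/-!
# Finite clusters are surrounded by dual paths
-/

open MeasureTheory ProbabilityTheory unitInterval

namespace Pool.Agent.H89.Perc

theorem arm_sub_le {p : I} {R M : ℕ} (hR : 1 ≤ R) (hM : 2 * R < M) :
    arm p (2 * R) ≤ arm p M + ∑ j ∈ Finset.range M, arm (σ p) (max j R) := by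
  have hsub : Arm 0 (2 * R) ⊆ Arm 0 M ∪
      ⋃ j ∈ Finset.range M, {ω | dual ω ∈ Arm (((j : ℕ) : ℤ), 0) (max j R)} := by
    intro ω hω
    by_cases h : ω ∈ Arm 0 M
    · exact Or.inl h
    · right
      obtain ⟨j, hj, hj'⟩ := surround hR hM hω h
      simp only [Set.mem_iUnion]
      exact ⟨j, Finset.mem_range.2 hj, hj'⟩
  calc arm p (2 * R) ≤ _ := Pr_mono hsub
    _ ≤ _ := Pr_union_le
    _ ≤ arm p M + ∑ j ∈ Finset.range M, Pr p {ω | dual ω ∈ Arm (((j : ℕ) : ℤ), 0) (max j R)} := by
        gcongr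
        · exact le_rfl
        · exact Pr_biUnion_le _ _
    _ = _ := by
        simp_rw [Pr_dual_arm]

end Pool.Agent.H89.Perc

end

section

open MeasureTheory ProbabilityTheory unitInterval

namespace Pool.Agent.H57.LF

open Pool.Agent.H89.Perc

end Pool.Agent.H57.LF

end

section

/-!
# The key inequality for the one-arm event
-/

open MeasureTheory ProbabilityTheory unitInterval

namespace Pool.Agent.H85.Gamma

open Pool.Agent.H89.Perc
open Pool.Agent.Perc (Ex ind ind_of ind_of_not ind_congr)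

end Pool.Agent.H85.Gamma

end

section

/-!
# Lower bound for the susceptibility by a second moment argument
-/

open MeasureTheory ProbabilityTheory unitInterval Filter Topology
open scoped ENNReal

namespace Pool.Agent.H85.Gamma

open Pool.Agent.H89.Perc
open Pool.Agent.Perc (Ex ind ind_of ind_of_not ind_congr ind_nonneg ind_le_one)

/-- `x` is joined to the boundary of the box of radius `r` inside that box. -/
def ToSph (r : ℕ) (x : Vert) : Set Config := {ω | ∃ u ∈ sphere 0 r, Conn ω (ball 0 r) x u}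

theorem localOn_ToSph (r : ℕ) (x : Vert) : LocalOn (eB r) (ToSph r x) := by
  rintro ω ω' h ⟨u, hu, hc⟩
  exact ⟨u, hu, Conn.congr (fun e he _ => h e (mem_eB.2 he)) hc⟩

theorem incr_ToSph (r : ℕ) (x : Vert) : Incr (ToSph r x) := by
  rintro ω ω' h ⟨u, hu, hc⟩
  exact ⟨u, hu, hc.mono le_rfl h⟩

/-- The open edges inside the cluster of `x`. -/
noncomputable def clE (r : ℕ) (S : Finset Edge) (x : Vert) : Finset Edge := by
  classical exact S.filter (fun e => Conn (ofS S) (ball 0 r) x (src e) ∧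
    Conn (ofS S) (ball 0 r) x (tgt e))

theorem mem_clE {r : ℕ} {S : Finset Edge} {x : Vert} {e : Edge} :
    e ∈ clE r S x ↔ e ∈ S ∧ Conn (ofS S) (ball 0 r) x (src e) ∧
      Conn (ofS S) (ball 0 r) x (tgt e) := by
  classical
  unfold clE
  rw [Finset.mem_filter]

theorem conn_clE {r : ℕ} {S : Finset Edge} {x u : Vert} (h : Conn (ofS S) (ball 0 r) x u) :
    Conn (ofS (clE r S x)) (ball 0 r) x u := by
  refine h.induction_right (P := fun z => Conn (ofS (clE r S x)) (ball 0 r) x z)
    (Conn.refl h.mem_left) ?_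
  rintro a b hxa hab ih
  have hxb : Conn (ofS S) (ball 0 r) x b := hxa.tail hab
  obtain ⟨ha, hb, e, hJ, ho⟩ := hab
  refine ih.tail ⟨ha, hb, e, hJ, ?_⟩
  rw [ofS_eq_true] at ho ⊢
  rw [mem_clE]
  rcases hJ with ⟨h1, h2⟩ | ⟨h1, h2⟩
  · subst h1 h2; exact ⟨ho, hxa, hxb⟩
  · subst h1 h2; exact ⟨ho, hxb, hxa⟩

/-- Two vertices joined to the boundary by different clusters: BK inequality. -/
theorem bk_pair (p : I) (r : ℕ) (x y : Vert) :
    Pr p ((ToSph r x ∩ ToSph r y) ∩ {ω | Conn ω (ball 0 r) x y}ᶜ)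
      ≤ Pr p (ToSph r x) * Pr p (ToSph r y) := by
  have hup : ∀ z, Pool.Agent.Perc.UpOn (eB r) (fun S => ofS S ∈ ToSph r z) :=
    fun z S T hST _ h => incr_ToSph r z _ _ (ofS_mono hST) h
  have key := Pool.Agent.Perc.bk (p := (p : ℝ)) (F := eB r) p.2.1 p.2.2 (hup x) (hup y)
  rw [Pr_eq_Ex (((localOn_ToSph r x).inter (localOn_ToSph r y)).inter (localOn_connB r x y).compl),
    Pr_eq_Ex (localOn_ToSph r x), Pr_eq_Ex (localOn_ToSph r y)]
  refine le_trans ?_ key
  unfold Pool.Agent.Perc.Pr
  refine Pool.Agent.Perc.Ex_mono p.2.1 p.2.2 fun S _ => Pool.Agent.Perc.ind_le_ind ?_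
  rintro ⟨⟨⟨u, hu, h1⟩, ⟨v, hv, h2⟩⟩, h3⟩
  refine ⟨clE r S x, clE r S y, ?_, ?_, ?_, ⟨u, hu, conn_clE h1⟩, ⟨v, hv, conn_clE h2⟩⟩
  · intro e he; exact (mem_clE.1 he).1
  · intro e he; exact (mem_clE.1 he).1
  · rw [Finset.disjoint_left]
    intro e he he'
    exact h3 ((mem_clE.1 he).2.1.trans (mem_clE.1 he').2.1.symm)

/-- Second moment lower bound for the number of connected pairs. -/
theorem pairs_lower (p : I) (n r : ℕ) :
    (1 - Pr p (ArmBox 0 n r)) * (∑ x ∈ bx n, Pr p (ToSph r x)) ^ 2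
      ≤ ∑ x ∈ bx n, ∑ y ∈ bx n, Pr p {ω | Conn ω (ball 0 r) x y} := by
  set A : Vert → Finset Edge → ℝ := fun x => ind (fun S => ofS S ∈ ToSph r x) with hA
  set M := ∑ x ∈ bx n, Pr p (ToSph r x) with hM
  set X : Finset Edge → ℝ := fun S => ∑ x ∈ bx n, A x S with hX
  have hPrA : ∀ x, Pr p (ToSph r x) = Ex (p : ℝ) (eB r) (A x) := fun x =>
    Pr_eq_Ex (localOn_ToSph r x) p
  have hEX : Ex (p : ℝ) (eB r) X = M := by
    rw [hX, Pool.Agent.Perc.Ex_sum, hM]
    exact Finset.sum_congr rfl fun x _ => (hPrA x).symm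
  have hEX2 : Ex (p : ℝ) (eB r) (fun S => X S ^ 2)
      = ∑ x ∈ bx n, ∑ y ∈ bx n, Pr p (ToSph r x ∩ ToSph r y) := by
    have : Ex (p : ℝ) (eB r) (fun S => X S ^ 2)
        = Ex (p : ℝ) (eB r) (fun S => ∑ x ∈ bx n, ∑ y ∈ bx n, A x S * A y S) := by
      refine Pool.Agent.Perc.Ex_congr fun S _ => ?_
      simp only [hX]
      rw [pow_two, Finset.sum_mul_sum]
    rw [this, Pool.Agent.Perc.Ex_sum]
    refine Finset.sum_congr rfl fun x _ => ?_
    rw [Pool.Agent.Perc.Ex_sum]
    refine Finset.sum_congr rfl fun y _ => ?_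
    rw [Pr_eq_Ex ((localOn_ToSph r x).inter (localOn_ToSph r y))]
    refine Pool.Agent.Perc.Ex_congr fun S _ => ?_
    simp only [hA]
    rw [Pool.Agent.Perc.ind_mul]
    rfl
  -- variance bound
  have hvar : (1 - Pr p (ArmBox 0 n r)) * M ^ 2 ≤ Ex (p : ℝ) (eB r) (fun S => X S ^ 2) - M ^ 2 := by
    have hl : LocalOn (eB r) (ArmBox 0 n r) := by
      have := localOn_armBox 0 n r
      simpa [eB] using this
    have h1 : Pr p (ArmBox 0 n r)ᶜ = 1 - Pr p (ArmBox 0 n r) := Pr_compl hl
    rw [← h1, Pr_eq_Ex hl.compl]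
    have h2 : Ex (p : ℝ) (eB r) (fun S => (X S - M) ^ 2)
        = Ex (p : ℝ) (eB r) (fun S => X S ^ 2) - M ^ 2 := by
      have e1 : Ex (p : ℝ) (eB r) (fun S => (X S - M) ^ 2)
          = Ex (p : ℝ) (eB r) (fun S => (X S ^ 2 - (2 * M) * X S) + M ^ 2) :=
        Pool.Agent.Perc.Ex_congr fun S _ => by ring
      rw [e1, Pool.Agent.Perc.Ex_add, Pool.Agent.Perc.Ex_sub, Pool.Agent.Perc.Ex_const_mul, hEX,
        Pool.Agent.Perc.Ex_const]
      ring
    rw [← h2, ← Pool.Agent.Perc.Ex_mul_const]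
    refine Pool.Agent.Perc.Ex_mono p.2.1 p.2.2 fun S _ => ?_
    by_cases hS : ofS S ∈ (ArmBox 0 n r)ᶜ
    · have hX0 : X S = 0 := by
        simp only [hX]
        refine Finset.sum_eq_zero fun x hx => ?_
        refine ind_of_not (A := fun S => ofS S ∈ ToSph r x) ?_
        rintro ⟨u, hu, hc⟩
        exact hS ⟨x, mem_bx.1 hx, u, hu, hc⟩
      rw [hX0, ind_of (A := fun S => ofS S ∈ (ArmBox 0 n r)ᶜ) hS]
      apply le_of_eq
      ring
    · rw [ind_of_not (A := fun S => ofS S ∈ (ArmBox 0 n r)ᶜ) hS, zero_mul]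
      positivity
  refine hvar.trans ?_
  rw [hEX2, hM, pow_two, Finset.sum_mul_sum, ← Finset.sum_sub_distrib]
  refine Finset.sum_le_sum fun x _ => ?_
  rw [← Finset.sum_sub_distrib]
  refine Finset.sum_le_sum fun y _ => ?_
  have h1 := bk_pair p r x y
  have h2 : Pr p (ToSph r x ∩ ToSph r y) ≤ Pr p {ω | Conn ω (ball 0 r) x y}
      + Pr p ((ToSph r x ∩ ToSph r y) ∩ {ω | Conn ω (ball 0 r) x y}ᶜ) := by
    refine (Pr_mono ?_).trans Pr_union_le
    intro ω hω
    by_cases h : ω ∈ {ω | Conn ω (ball 0 r) x y}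
    · exact Or.inl h
    · exact Or.inr ⟨hω, h⟩
  linarith only [h1, h2]

theorem Pr_connB_le (p : I) {n r : ℕ} {x : Vert} (hx : x ∈ ball 0 n) (y : Vert) :
    Pr p {ω | Conn ω (ball 0 r) x y}
      ≤ Pr p {ω | Conn ω (ball 0 (r + n)) 0 (y.1 - x.1, y.2 - x.2)} := by
  rw [← Pr_comp (localOn_connB (r + n) 0 (y.1 - x.1, y.2 - x.2)) (shiftE_injective x).injOn]
  refine Pr_mono ?_
  intro ω hω
  show Conn (fun e => ω (shiftE x e)) (ball 0 (r + n)) 0 (y.1 - x.1, y.2 - x.2)
  rw [conn_shift]
  have hω' : Conn ω (ball 0 r) x y := hω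
  have e1 : ((0 : Vert).1 + x.1, (0 : Vert).2 + x.2) = x := by simp
  have e2 : ((y.1 - x.1, y.2 - x.2) : Vert).1 + x.1 = y.1 := by simp
  have e3 : ((y.1 - x.1, y.2 - x.2) : Vert).2 + x.2 = y.2 := by simp
  rw [e1, e2, e3]
  refine hω'.mono_set ?_
  intro w hw
  simp only [mem_ball, Prod.fst_zero, Prod.snd_zero, Set.mem_ofPred_eq] at hw hx ⊢
  push_cast
  omega

theorem arm_le_ToSph (p : I) {n r : ℕ} {x : Vert} (hx : x ∈ ball 0 n) (hnr : n ≤ r) :
    arm p (r + n) ≤ Pr p (ToSph r x) := by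
  rw [← Pr_arm x (r + n)]
  refine Pr_mono ?_
  rintro ω ⟨u, hu, hc⟩
  have hxr : x ∈ ball 0 r := by
    simp only [mem_ball, Prod.fst_zero, Prod.snd_zero] at hx ⊢
    omega
  have hu' : u ∉ ball 0 r ∨ u ∈ sphere 0 r := by
    by_cases h : u ∈ ball 0 r
    · right
      refine ⟨h, ?_⟩
      have h2 := hu.2
      simp only [mem_ball, Prod.fst_zero, Prod.snd_zero] at hx h ⊢
      push_cast at h2
      omega
    · exact Or.inl h
  obtain ⟨v, hv, hc'⟩ := hc.to_sphere hxr hu'
  exact ⟨v, hv, hc'.mono_set Set.inter_subset_right⟩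

/-- Lower bound for a truncated susceptibility. -/
theorem trunc_lower : ∃ c : ℝ, 0 < c ∧ ∀ n : ℕ, 1 ≤ n → ∀ q : I, (q : ℝ) ≤ 1 / 2 →
    c * (n : ℝ) ^ 2 * arm q (5 * n + 4) ^ 2
      ≤ ∑ z ∈ bx (2 * n), Pr q {ω | Conn ω (ball 0 (5 * n + 4)) 0 z} := by
  obtain ⟨c, hc, hbox⟩ := armBox_le
  refine ⟨4 * c, by positivity, ?_⟩
  intro n hn q hq
  set r := 4 * (n + 1) with hr
  have hrn : r + n = 5 * n + 4 := by omega
  rw [← hrn]
  set T := ∑ z ∈ bx (2 * n), Pr q {ω | Conn ω (ball 0 (r + n)) 0 z} with hT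
  have hl : LocalOn (eRect ((0 : Vert).1 - r) ((0 : Vert).1 + r) ((0 : Vert).2 - r)
      ((0 : Vert).2 + r)) (ArmBox 0 n r) := localOn_armBox 0 n r
  have h1 : Pr q (ArmBox 0 n r) ≤ 1 - c := by
    refine (Pr_mono_param hl (incr_armBox 0 n r) ?_).trans (hbox n r hn le_rfl)
    show ((q : I) : ℝ) ≤ ((half : I) : ℝ)
    rw [half_coe]
    exact hq
  have h2 := pairs_lower q n r
  have h3 : ∑ x ∈ bx n, ∑ y ∈ bx n, Pr q {ω | Conn ω (ball 0 r) x y} ≤ (bx n).card * T := by
    rw [← nsmul_eq_mul]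
    refine Finset.sum_le_card_nsmul _ _ _ fun x hx => ?_
    have hx' := mem_bx.1 hx
    calc ∑ y ∈ bx n, Pr q {ω | Conn ω (ball 0 r) x y}
        ≤ ∑ y ∈ bx n, Pr q {ω | Conn ω (ball 0 (r + n)) 0 (y.1 - x.1, y.2 - x.2)} :=
          Finset.sum_le_sum fun y _ => Pr_connB_le q hx' y
      _ = ∑ z ∈ (bx n).image (fun y : Vert => ((y.1 - x.1, y.2 - x.2) : Vert)),
            Pr q {ω | Conn ω (ball 0 (r + n)) 0 z} := by
          rw [Finset.sum_image]
          intro a _ b _ hab
          simp only [Prod.mk.injEq, sub_left_inj] at hab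
          exact Prod.ext hab.1 hab.2
      _ ≤ T := by
          refine Finset.sum_le_sum_of_subset_of_nonneg ?_ fun _ _ _ => Pr_nonneg
          intro z hz
          obtain ⟨y, hy, rfl⟩ := Finset.mem_image.1 hz
          rw [mem_bx] at hy ⊢
          simp only [mem_ball, Prod.fst_zero, Prod.snd_zero] at hy hx' ⊢
          push_cast
          omega
  have h4 : ((bx n).card : ℝ) * arm q (r + n) ≤ ∑ x ∈ bx n, Pr q (ToSph r x) := by
    rw [← nsmul_eq_mul]
    exact Finset.card_nsmul_le_sum _ _ _ fun x hx => arm_le_ToSph q (mem_bx.1 hx) (by omega)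
  have ha := arm_nonneg (p := q) (r := r + n)
  have hcard : (4 : ℝ) * n ^ 2 ≤ (bx n).card := by
    rw [card_bx]
    have : (0 : ℝ) ≤ n := by positivity
    nlinarith
  have hcp : (0 : ℝ) < (bx n).card := by
    rw [card_bx]; positivity
  have h5 : c * (((bx n).card : ℝ) * arm q (r + n)) ^ 2 ≤ (bx n).card * T := by
    calc c * (((bx n).card : ℝ) * arm q (r + n)) ^ 2
        ≤ (1 - Pr q (ArmBox 0 n r)) * (∑ x ∈ bx n, Pr q (ToSph r x)) ^ 2 := by
          refine mul_le_mul (by linarith only [h1]) (by gcongr) (by positivity) (by linarith only [hc, h1])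
      _ ≤ _ := h2.trans h3
  have h6 : c * ((bx n).card : ℝ) * arm q (r + n) ^ 2 ≤ T := by
    have : ((bx n).card : ℝ) * (c * ((bx n).card : ℝ) * arm q (r + n) ^ 2) ≤ (bx n).card * T := by
      calc _ = c * (((bx n).card : ℝ) * arm q (r + n)) ^ 2 := by ring
        _ ≤ _ := h5
    exact le_of_mul_le_mul_left this hcp
  calc 4 * c * (n : ℝ) ^ 2 * arm q (r + n) ^ 2 = c * (4 * n ^ 2) * arm q (r + n) ^ 2 := by ring
    _ ≤ c * ((bx n).card : ℝ) * arm q (r + n) ^ 2 := by gcongr
    _ ≤ T := h6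

end Pool.Agent.H85.Gamma

end

section

/-!
# The mean cluster size of bond percolation on the square lattice is at least `c (1/2 - p)^{-2}`
-/

open MeasureTheory ProbabilityTheory unitInterval Filter Topology
open scoped ENNReal

namespace Pool.Agent.H85.Gamma

open Pool.Agent.H89.Perc

theorem trunc_le_sigma (p : I) (F : Finset Vert) (r : ℕ) :
    ENNReal.ofReal (∑ z ∈ F, Pr p {ω | Conn ω (ball 0 r) 0 z}) ≤ sigma p := by
  classical
  have hmeas : ∀ z : Vert, MeasurableSet {ω : Config | Conn ω (ball 0 r) 0 z} := fun z =>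
    (localOn_connB r 0 z).measurableSet
  rw [ENNReal.ofReal_sum_of_nonneg fun z _ => Pr_nonneg]
  have h1 : ∀ z ∈ F, ENNReal.ofReal (Pr p {ω | Conn ω (ball 0 r) 0 z})
      = ∫⁻ ω, Set.indicator {ω : Config | Conn ω (ball 0 r) 0 z} (fun _ => (1 : ℝ≥0∞)) ω ∂(μ p) := by
    intro z _
    rw [lintegral_indicator (hmeas z), lintegral_const, Measure.restrict_apply_univ, one_mul]
    unfold Pr
    rw [ofReal_measureReal]
  rw [Finset.sum_congr rfl h1, ← lintegral_finsetSum F fun z _ =>
    (measurable_const.indicator (hmeas z))]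
  unfold sigma
  refine lintegral_mono fun ω => ?_
  have h2 : ∑ z ∈ F, Set.indicator {ω : Config | Conn ω (ball 0 r) 0 z} (fun _ => (1 : ℝ≥0∞)) ω
      = ((F.filter (fun z => Conn ω (ball 0 r) 0 z)).card : ℝ≥0∞) := by
    rw [Finset.card_filter]
    push_cast
    refine Finset.sum_congr rfl fun z _ => ?_
    by_cases h : Conn ω (ball 0 r) 0 z
    · rw [Set.indicator_of_mem (show ω ∈ {ω : Config | Conn ω (ball 0 r) 0 z} from h), if_pos h]
    · rw [Set.indicator_of_notMem (show ω ∉ {ω : Config | Conn ω (ball 0 r) 0 z} from h), if_neg h]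
  rw [h2]
  have h3 : ((F.filter (fun z => Conn ω (ball 0 r) 0 z)).card : ℕ∞)
      ≤ {v : Vert | Conn ω Set.univ 0 v}.encard := by
    rw [← Set.encard_coe_eq_coe_finsetCard]
    refine Set.encard_le_encard ?_
    intro z hz
    rw [Finset.mem_coe, Finset.mem_filter] at hz
    exact hz.2.mono_set (Set.subset_univ _)
  rw [← ENat.toENNReal_coe]
  exact ENat.toENNReal_le.2 h3

end Pool.Agent.H85.Gamma

end

section

/-! # A winding path from crossings of rectangles -/

open MeasureTheory ProbabilityTheory unitInterval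

namespace Pool.Agent.H83.EX

open Pool.Agent.H89.Perc

end Pool.Agent.H83.EX

end

section

/-!
# LINK module `PerProb`: local events have the same probability in the plane and on the cylinder

`per n ω e = ω (base n e)` with `base n e = (e.1 % n, e.2.1 + (e.1 - e.1 % n), e.2.2)`.  If `base n` is injective on
the finite set `S` and `A` depends only on `S`, then `{ω | per n ω ∈ A}` is the image of `A` under the
relabelling, and has the same probability (the law of `(ω (base n e))_{e ∈ S}` is the product law).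
`base n` is injective on the edges with `|e.1| ≤ k` if `2 k < n`.
-/

set_option autoImplicit false

open MeasureTheory ProbabilityTheory unitInterval

namespace Pool.Agent.H89.Link

open Pool.Agent.H89.Perc (Vert Edge Config Pr half)

end Pool.Agent.H89.Link

end

section

/-!
# LINK module `Half`: colours are transported through a half cylinder

`halfP_inv`: induction on `h` with `row_inv` (the upper part has rows `r + 1, …, r + h`).
`halfP_congr`: induction on `h`; `row t P` only uses `t 0, …, t (L - 1)` (`wires_congr`).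
-/

set_option autoImplicit false

namespace Pool.Agent.H89.Link

open H56.EX

end Pool.Agent.H89.Link

end

section

/-!
# LINK module `Face`: colourings of primal or dual vertices give invariants of the patterns

`F : Vert → T` constant along the open edges of the rows `0, …, h - 1` (of `per n ω`) gives a colour of
the medial edges: the colour of the adjacent primal vertex.  In medial coordinates the face `(c, r)`
(between the columns `c, c + 1`, at level `r`) is primal iff `c + r` is odd and is then the vertex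
`((c + r + 1) / 2, (r - c - 1) / 2)`.  Put (primal colouring)
  `K c r = F ((c + r + 1) / 2, (r - c - 1) / 2)`,
  `V c r = if (c + r) % 2 = 1 then K c r else K (c - 1) r`   (vertical edge in column `c` at level `r`),
  `H c r = if (c + r) % 2 = 1 then K c r else K c (r + 1)`   (horizontal edge from `(c, r)` to `(c + 1, r)`).
Then `RowCol (tB (per n ω) · r) (V · (r + 1)) (H · r) (V · r)`:
* `c + r` even: `medge c r = (a, b, false)`, `a = (c + r) / 2`, `b = (r - c) / 2`; South-West face
  `(c - 1, r)` = `src`, North-East face `(c, r + 1)` = `tgt`; `V c r = K (c-1) r`, `V c (r+1) = K c (r+1)`,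
  `H c r = K c (r+1)`, `H (c-1) r = K (c-1) r`; `tB = true` iff the edge is open.
* `c + r` odd: `medge c r = (a, b, true)`, `a = (c + r + 1) / 2`, `b = (r - c - 1) / 2`; South-East face
  `(c, r)` = `src`, North-West face `(c - 1, r + 1)` = `tgt`; `V c r = K c r = H c r`,
  `V c (r+1) = K (c-1) (r+1) = H (c-1) r`; `tB = false` iff the edge is open.
At the top level `h` (even) the star joins `c` odd with `c + 1`, both are next to the primal face `(c, h)`.
The dual colouring is the same with parities exchanged: `K c r = G ((c + r) / 2, (r - c - 2) / 2)` for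
`c + r` even, `V c r = if (c + r) % 2 = 0 then K c r else K (c - 1) r`, `H c r = if (c + r) % 2 = 0 then K c r
else K c (r + 1)`; at the top all dual faces have the same colour `a`.
`V c 0` is `F (pv c)` resp. `G (dv c)`.
`tB (per n ω) (c + 2 n) r = tB (per n ω) c r` (`tB_per`).
For `dn` use the reflected colouring `V' c r = V c (-r)`, `H' c r = H c (-1 - r)`; the types are flipped:
at the vertex `(c, -1 - r)`, top and bottom are exchanged (`top' = V c (-r-1)` is the edge below it).
-/

set_option autoImplicit false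

namespace Pool.Agent.H89.Link

open H56.EX
open Pool.Agent.H89.Perc (Vert Edge Config src tgt lowFace)

end Pool.Agent.H89.Link

end

section

/-!
# Periodic configurations: confinement of two clusters by seals

`Γ` is a group of periods.  `F₁`, `F₂` are clusters in a domain `D`, `X₁`, `X₂` corridors attached to
them, `M₁`, `M₂` the mouths through which they leave `D`.
-/

set_option autoImplicit false

open MeasureTheory ProbabilityTheory unitInterval

namespace Pool.Agent.H47.EX

open Pool.Agent.H89.Perc Pool.Agent.H59.EX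

variable {Γ : AddSubgroup (ℤ × ℤ)}

theorem joins_shiftE {e : Edge} {a b : Vert} (z : Vert) (h : Joins e a b) :
    Joins (shiftE z e) (a + z) (b + z) := joins_shift z h

theorem shiftE_shiftE (z w : Vert) (e : Edge) : shiftE z (shiftE w e) = shiftE (w + z) e := by
  obtain ⟨a, b, t⟩ := e
  simp only [shiftE, Prod.fst_add, Prod.snd_add, add_assoc]

theorem pset_mono {S T : Set Vert} (h : S ⊆ T) : pset Γ S ⊆ pset Γ T :=
  fun _ ⟨z, hz, hv⟩ => ⟨z, hz, h hv⟩

theorem pedge_add {t : Set Edge} {e : Edge} {z : Vert} (hz : z ∈ Γ) :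
    shiftE z e ∈ pedge Γ t ↔ e ∈ pedge Γ t := by
  constructor
  · rintro ⟨w, hw, h⟩
    rw [shiftE_shiftE] at h
    exact ⟨z + w, Γ.add_mem hz hw, h⟩
  · rintro ⟨w, hw, h⟩
    refine ⟨-z + w, Γ.add_mem (Γ.neg_mem hz) hw, ?_⟩
    rwa [shiftE_shiftE, add_neg_cancel_left]

theorem ball_mono {a b : Vert} {r s : ℕ} (h : r ≤ s) (hb : b ∈ ball a r) : b ∈ ball a s := by
  rw [mem_ball] at hb ⊢
  omega

variable {D F₁ F₂ X₁ X₂ M₁ M₂ C : Set Vert} {η : Config} {ρ : ℕ}

/-- The determined edges. -/
def tset (D F₁ F₂ C : Set Vert) : Set Edge := touch D (F₁ ∪ F₂) ∪ inE C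

theorem tset_symm : tset D F₁ F₂ C = tset D F₂ F₁ C := by
  unfold tset
  rw [Set.union_comm F₁ F₂]

theorem joins_touch {S T : Set Vert} {e : Edge} {a b : Vert} (hj : Joins e a b)
    (he : e ∈ touch S T) : a ∈ S ∧ b ∈ S ∧ (a ∈ T ∨ b ∈ T) := by
  rcases hj with ⟨h1, h2⟩ | ⟨h1, h2⟩
  · subst h1 h2
    exact ⟨he.1.1, he.1.2, he.2⟩
  · subst h1 h2
    exact ⟨he.1.2, he.1.1, he.2.symm⟩

private theorem exit_core (h : TwoData Γ D F₁ F₂ X₁ X₂ M₁ M₂ C η ρ) (hρ : 1 ≤ ρ) {a b : Vert}
    {e : Edge} (hj : Joins e a b) (ho : η e = true) (ha : a ∈ F₁ ∪ X₁)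
    (hb : b ∉ pset Γ (F₁ ∪ X₁)) :
    a ∈ M₁ ∪ X₁ ∧ b ∉ pset Γ (F₂ ∪ X₂) ∧ e ∉ pedge Γ (tset D F₁ F₂ C) := by
  have hab : b ∈ ball a 1 := ball_one_of_joins hj
  have hab4 : b ∈ ball a (4 * ρ) := ball_mono (by omega) hab
  have hbF : b ∉ F₁ ∪ X₁ := fun h' => hb (pset_sub _ h')
  have kA : ¬ (a ∈ D ∧ b ∈ D) := by
    rintro ⟨haD, hbD⟩
    have haF : a ∈ F₁ := by
      rcases ha with ha | ha
      · exact ha
      · exact h.x1 a ha haD
    exact hbF (Or.inl (h.cl1 a haF b ⟨haD, hbD, e, hj, ho⟩))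
  have kB : a ∈ M₁ ∪ X₁ := by
    by_cases hx : a ∈ X₁
    · exact Or.inr hx
    · rcases ha with ha | ha
      · exact Or.inl (h.m1 a ha hx b (fun hbD => kA ⟨h.s1 ha, hbD⟩) hab)
      · exact absurd ha hx
  have kC : b ∉ pset Γ (F₂ ∪ X₂) := by
    rintro ⟨z, hz, hbz | hbz⟩
    · have hz0 : z = 0 := h.one a (by
        rcases ha with ha | ha
        · exact Or.inl (h.s1 ha)
        · exact Or.inr (Or.inl ha)) b z hz (h.s2 hbz) hab
      rw [hz0, add_zero] at hbz
      by_cases hx : b ∈ X₂
      · exact h.far a kB b 0 Γ.zero_mem (by rw [add_zero]; exact Or.inr hx) hab4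
      · have hm := h.m2 b hbz hx a (fun haD => kA ⟨haD, h.s2 hbz⟩) (ball_comm.1 hab)
        exact h.far a kB b 0 Γ.zero_mem (by rw [add_zero]; exact Or.inl hm) hab4
    · exact h.far a kB b z hz (Or.inr hbz) hab4
  refine ⟨kB, kC, ?_⟩
  rintro ⟨z, hz, ht | ht⟩
  · obtain ⟨h1, h2, -⟩ := joins_touch (joins_shiftE z hj) ht
    have hz0 : z = 0 := h.one a (by
        rcases ha with ha | ha
        · exact Or.inl (h.s1 ha)
        · exact Or.inr (Or.inl ha)) b z hz h2 hab
    rw [hz0, add_zero] at h1 h2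
    exact kA ⟨h1, h2⟩
  · obtain ⟨-, h2⟩ := joins_inE (joins_shiftE z hj) ht
    rcases h.cC h2 with h3 | h3
    · exact hb (pset_mono Set.subset_union_right ((pset_add hz).1 h3))
    · exact kC (pset_mono Set.subset_union_right ((pset_add hz).1 h3))

theorem TwoData.exit (h : TwoData Γ D F₁ F₂ X₁ X₂ M₁ M₂ C η ρ) (hρ : 1 ≤ ρ) {a b : Vert}
    {e : Edge} (hj : Joins e a b) (ho : η e = true) (ha : a ∈ pset Γ (F₁ ∪ X₁))
    (hb : b ∉ pset Γ (F₁ ∪ X₁)) :
    a ∈ pset Γ (M₁ ∪ X₁) ∧ b ∉ pset Γ (F₂ ∪ X₂) ∧ e ∉ pedge Γ (tset D F₁ F₂ C) := by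
  obtain ⟨z, hz, ha⟩ := ha
  obtain ⟨k1, k2, k3⟩ := exit_core h hρ (joins_shiftE z hj) (by rw [h.per z hz]; exact ho) ha
    (fun h' => hb ((pset_add hz).1 h'))
  exact ⟨⟨z, hz, k1⟩, fun h' => k2 ((pset_add hz).2 h'), fun h' => k3 ((pedge_add hz).2 h')⟩

theorem TwoData.sdisj (h : TwoData Γ D F₁ F₂ X₁ X₂ M₁ M₂ C η ρ) {a : Vert}
    (h1 : a ∈ pset Γ (F₁ ∪ X₁)) : a ∉ pset Γ (F₂ ∪ X₂) := by
  have core : ∀ a ∈ F₁ ∪ X₁, a ∉ pset Γ (F₂ ∪ X₂) := by
    rintro a ha ⟨z, hz, hb⟩
    have haa : a ∈ ball a (4 * ρ) := self_mem_ball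
    rcases hb with hb | hb
    · have hz0 : z = 0 := h.one a (by
        rcases ha with ha | ha
        · exact Or.inl (h.s1 ha)
        · exact Or.inr (Or.inl ha)) a z hz (h.s2 hb) self_mem_ball
      rw [hz0, add_zero] at hb
      rcases ha with ha | ha
      · exact h.disj a ha hb
      · exact h.disj a (h.x1 a ha (h.s2 hb)) hb
    · rcases ha with ha | ha
      · have hz0 : -z = 0 := h.one (a + z) (Or.inr (Or.inr hb)) (a + z) (-z) (Γ.neg_mem hz)
          (by rw [add_neg_cancel_right]; exact h.s1 ha) self_mem_ball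
        rw [neg_eq_zero.1 hz0, add_zero] at hb
        exact h.disj a ha (h.x2 a hb (h.s1 ha))
      · exact h.far a (Or.inr ha) a z hz (Or.inr hb) haa
  obtain ⟨z, hz, h1⟩ := h1
  intro h2
  exact core _ h1 ((pset_add hz).2 h2)

/-- Translates of paths in a periodic configuration. -/
theorem conn_closeS_add {t : Set Edge} (hper : ∀ z ∈ Γ, ∀ e, η (shiftE z e) = η e) {u v z : Vert}
    (hz : z ∈ Γ) (h : Conn (closeS (pedge Γ t) η) Set.univ u v) :
    Conn (closeS (pedge Γ t) η) Set.univ (u + z) (v + z) := by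
  refine h.map (fun w => w + z) (fun _ _ => trivial) ?_
  intro e a b hj ho
  refine ⟨shiftE z e, joins_shiftE z hj, ?_⟩
  simp only [closeS, Bool.and_eq_true, decide_eq_true_eq] at ho ⊢
  rw [hper z hz, pedge_add hz]
  exact ho

/-- **Two sealed clusters are disjoint.** -/
theorem TwoData.not_conn (h : TwoData Γ D F₁ F₂ X₁ X₂ M₁ M₂ C η ρ) (hρ : 1 ≤ ρ)
    (hs : ∀ a ∈ M₁ ∪ X₁, ∀ v, Conn (closeS (pedge Γ (tset D F₁ F₂ C)) η) Set.univ a v →
      v ∈ ball a (4 * ρ)) {x y : Vert} (hx : x ∈ pset Γ (F₁ ∪ X₁)) (hy : y ∈ pset Γ (F₂ ∪ X₂)) :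
    ¬ Conn η Set.univ x y := by
  intro hc
  set t := pedge Γ (tset D F₁ F₂ C) with ht
  have hs' : ∀ a ∈ pset Γ (M₁ ∪ X₁), ∀ v, Conn (closeS t η) Set.univ a v →
      v ∈ ball a (4 * ρ) := by
    rintro a ⟨z, hz, ha⟩ v hv
    have := hs _ ha _ (conn_closeS_add h.per hz hv)
    rwa [ball_add] at this
  have key : y ∈ pset Γ (F₁ ∪ X₁) ∨ (y ∉ pset Γ (F₁ ∪ X₁) ∧ y ∉ pset Γ (F₂ ∪ X₂) ∧
      ∃ a ∈ pset Γ (M₁ ∪ X₁), Conn (closeS t η) Set.univ a y) := by
    refine hc.induction_right (P := fun y => y ∈ pset Γ (F₁ ∪ X₁) ∨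
      (y ∉ pset Γ (F₁ ∪ X₁) ∧ y ∉ pset Γ (F₂ ∪ X₂) ∧
        ∃ a ∈ pset Γ (M₁ ∪ X₁), Conn (closeS t η) Set.univ a y)) (Or.inl hx) ?_
    rintro a b _ ⟨-, -, e, hj, ho⟩ ih
    have hopen : e ∉ t → (closeS t η) e = true := by
      intro het
      simp only [closeS, Bool.and_eq_true, decide_eq_true_eq]
      exact ⟨ho, het⟩
    by_cases hbS : b ∈ pset Γ (F₁ ∪ X₁)
    · exact Or.inl hbS
    refine Or.inr ⟨hbS, ?_⟩
    rcases ih with haS | ⟨haS, haF, c, hc, hcc⟩
    · obtain ⟨k1, k2, k3⟩ := h.exit hρ hj ho haS hbS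
      exact ⟨k2, a, k1, Step.conn ⟨trivial, trivial, e, hj, hopen k3⟩⟩
    · by_cases hbF : b ∈ pset Γ (F₂ ∪ X₂)
      · exfalso
        obtain ⟨k1, -, k3⟩ := h.symm.exit hρ hj.symm ho hbF haF
        rw [tset_symm] at k3
        have hcb := hs' c hc b (hcc.tail ⟨trivial, trivial, e, hj, hopen k3⟩)
        obtain ⟨z, hz, hc'⟩ := hc
        obtain ⟨w, hw, hb'⟩ := k1
        refine h.far _ hc' (b + z) (-z + w) (Γ.add_mem (Γ.neg_mem hz) hw) ?_ ?_
        · rw [add_assoc, add_neg_cancel_left]
          exact hb'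
        · rw [ball_add]
          exact hcb
      · refine ⟨hbF, c, hc, hcc.tail ⟨trivial, trivial, e, hj, hopen ?_⟩⟩
        rintro ⟨z, hz, ht' | ht'⟩
        · obtain ⟨-, -, h3 | h3⟩ := joins_touch (joins_shiftE z hj) ht'
          · rcases h3 with h3 | h3
            · exact haS ⟨z, hz, Or.inl h3⟩
            · exact haF ⟨z, hz, Or.inl h3⟩
          · rcases h3 with h3 | h3
            · exact hbS ⟨z, hz, Or.inl h3⟩
            · exact hbF ⟨z, hz, Or.inl h3⟩
        · obtain ⟨h3, -⟩ := joins_inE (joins_shiftE z hj) ht'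
          rcases h.cC h3 with h4 | h4
          · exact haS (pset_mono Set.subset_union_right ((pset_add hz).1 h4))
          · exact haF (pset_mono Set.subset_union_right ((pset_add hz).1 h4))
  rcases key with h1 | ⟨-, h2, -⟩
  · exact h.sdisj h1 hy
  · exact h2 hy

end Pool.Agent.H47.EX

end

section

/-!
# The diagonal source
-/

set_option autoImplicit false

namespace Pool.Agent.H47.EX

open Pool.Agent.H89.Perc Pool.Agent.H59.EX

end Pool.Agent.H47.EX

end

section

/-!
# LINK module `Four`: the four-leg event implies four arms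

Composite graph `H56.EX.Conn 2 2 (L - 2) P Q` on `ℤ ⊕ ℤ` with `P = up s n h ω`, `Q = dn s n h ω`: `inl x ~ inl (P.m x)`,
`inr y ~ inr (Q.m y)`, `inl c ~ inr c` for the columns `c` with `c % L ≥ 2`.  Home columns: `c % L ∈ {0, 1}`.
(A) If `Leg 2 2 (L - 2) P Q` then no two different ones of the four nodes `inl 0, inl 1, inr 0, inr 1` are connected
(`a = b = 0` in `Leg`, `Odd 0` is false).
(B) Let `Z` be a finite set of nodes closed under the steps and containing one of the four home nodes `ℓ`, all of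
whose nodes have a position in `(-L + 1, L)`, so the only home positions in `Z` are `0` and `1`.  The connected
component `O` of `ℓ` is contained in `Z`, finite, closed under the fixed point free involution
`α : inl x ↦ inl (P.m x), inr y ↦ inr (Q.m y)`, so `|O|` is even; `O` without its home nodes is closed under
`β : inl c ↔ inr c`, so it has an even number of elements.  So `O` contains an even number of home nodes, hence
another home node; this contradicts (A).
(i) Suppose `x = (0, 0)` is not joined to `sphere 0 k` in `ball 0 k`.  `C` = vertices joined to `x` in `ball 0 k`,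
its indicator is constant along open edges; `Z` = nodes whose position `c` has `pv c ∈ C` is closed under the steps
(`up_primal`, `dn_primal`), finite, contains `inl 0`; positions are in `[-2 k - 1, 2 k]` and `2 k + 2 < L`. (B).
(ii) Suppose `y = (1, -1)` is not joined to `sphere 0 k` in `ball 0 k`: the same with `inl 1` (`pv 1 = y`).
(iii) Suppose `x` and `y` are joined in `ball 0 k`.  `exists_pathSum` gives `c` with odd degrees exactly at `x`, `y`;
add the two edges `(0, 0, false)` and `(1, -1, true)` (the path `x, (1, 0), y`): `A`, all degrees even, finite,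
in the strip `H = 2 k + 2`.  `G' = pot A H`.  `Gu = G'` except `Gu q = G' q + 1` for `q = (0, -1)`, `Gd = G'`.
Then `Gu (lowFace e) = Gu (src e)` for closed `e` in rows `≥ 0`: the edges of rows `≥ 0` with `q` as one of their
faces are exactly `(0, 0, false)` and `(1, -1, true)`.  The edges of rows `< 0` at `q` are `(0, -1, false)`,
`(0, -1, true)`.  `Gu = 0` at level `h`, `Gd` = constant at level `-h` (`2 k + 2 ≤ h`); the constant is `0` because
`G'` has finite support in every level (or: `G' (a, b) = 0` for large `a`).  So the sets of nodes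
`Z_ε = {inl c | Gu (dv c) = ε} ∪ {inr c | Gd (dv c) = ε}` are closed under the steps (for `c` not home,
`dv c ≠ q`, so `Gu = Gd`); `dv 0 = dv 1 = q`.  `Gu q ≠ Gd q`, so one of them is `1`: `Z_1` is finite, with positions in
`[-2 k, 2 k + 1]` (on the seam `pot A H (a, -a-1) ≠ 0` needs `|a| ≤ k`), and contains exactly the home nodes
`inl 0, inl 1` or exactly `inr 0, inr 1`.  (B) gives a contradiction (the other home node in the component is
different from `ℓ`, and any two different home nodes contradict (A)).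
-/

set_option autoImplicit false

namespace Pool.Agent.H89.Link

open H56.EX
open Pool.Agent.H89.Perc (Vert Edge Config src tgt lowFace vsum)

variable {L n : ℕ}

/-! ### Finite invariant sets of nodes -/

/-! ### The primal arms -/

/-! ### The two arms are not connected -/

end Pool.Agent.H89.Link

end

section

/-!
# LINK module `Star`: the pattern of small arcs, reset by an alternating row

`exists_star`: write down the involution `x ↦ if x % 2 = 0 then x - 1 else x + 1`.
`row_alt`: apply `row_inv` with `T = ℤ`, `bot c = (c + 1) / 2`, `hor c = if c % 2 = 1 then (c + 1) / 2 else C`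
and `top = C` constant (`C` any constant, e.g. `C = 0` and colours in `Option ℤ`): so
`bot ((row t P).m x) = bot x`, hence `(row t P).m x ∈ {x, x + 1}` for odd `x` and `∈ {x - 1, x}` for even `x`,
and `(row t P).m x ≠ x` (`Pat.ne`).  Conclude with `Pat.ext`.
-/

set_option autoImplicit false

namespace Pool.Agent.H89.Link

open H56.EX

variable {L : ℕ}

end Pool.Agent.H89.Link

end

section

/-!
# LINK module `Law`: the law of the two patterns, and its limit

`pr_up_dn`: for `L = 2 n`, the bits `tB (per n ω) c r`, `0 ≤ c < L`, `-h ≤ r < h`, are the values of `ω`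
(or their negations) at pairwise different edges: `per n ω (medge c r) = ω (medge' c r)` with
`medge' c r = (e.1 % n, e.2.1 + (e.1 - e.1 % n), e.2.2)`, `e = medge c r`; the map `(c, r) ↦ medge' c r` is
injective on `0 ≤ c < 2 n` (`e.1 + e.2.1 = r` and the orientation and `e.1 - e.2.1` determine `c` modulo `2 n`).
So they are independent fair bits (`Pr half`, product measure), and the same holds for the reflected and
flipped bits of the lower half.  Then induction over the rows (the row next to the seam is applied last;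
peel it off).  A convenient formulation: the probability of a set of bit arrays is
(number of arrays) / 2 ^ (2 h L); see `Pool.Agent.H89.Perc.Prob` for cylinder probabilities.
`law_tendsto`: the kernel `K P Q = 2 ^ (-L) #{t | row (bits t) P = Q}` satisfies `K P s ≥ 2 ^ (-L)` for all `P`
by `row_alt`.  For a signed/complex vector `w` with sum zero, `‖K w‖₁ ≤ (1 - 2 ^ (-L)) ‖w‖₁`.  Apply it to
`w = law s h - v / ∑ v` (`law s h` has sum one, is the `h`-th iterate, and `v` is fixed by `Stat v`).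
-/

set_option autoImplicit false

open MeasureTheory ProbabilityTheory Filter Topology

namespace Pool.Agent.H89.Link

open H56.EX
open Pool.Agent.H89.Perc (Vert Edge Config Pr half)

variable {L n : ℕ}

/-! ### Fair bits -/

open Pool.Agent.H89.Perc (LocalOn ofS ofS_apply Pr_eq_Ex)
open Pool.Agent.Perc (Ex ind ind_of ind_of_not ind_congr)

/-! ### Patterns of arrays of bits -/

/-! ### The edges -/

/-! ### Convergence -/

end Pool.Agent.H89.Link

end

section

/-!
# LINK module `One`: one arm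

`arm_of_noSurr`.  Suppose `per n ω ∉ Arm 0 k`.  Let `C` be the set of vertices joined to `0` inside
`ball 0 k`; it is finite, contains `0` and no point of `sphere 0 k`, hence its indicator `F` is constant along
all open edges of `per n ω` (a neighbour of a point of the ball which is not on the sphere is in the ball).
By `up_primal`, `dn_primal` the finite set `X = {c | pv c ∈ C}` is invariant under both involutions.
`pv c = (j, -j)` with `j = (c + 1) / 2`: the columns `2 j - 1, 2 j`.  So
`#{c ∈ X | 0 ≤ c} = 1 + 2 #{j ≥ 1 | (j, -j) ∈ C}` is odd, which contradicts `NoSurr`.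

`noSurr_of_path`.  `exists_pathSum` and `exists_halfSum` give `A : Edge → ZMod 2` supported on open edges of
`per n ω` in the strip, with `0` the only vertex of odd degree; `G = pot A H`.  By `pot_odd`
`Gu f = G f` satisfies `Gu (lowFace e) = Gu (src e)` for all closed edges `e` in rows `≥ 0` (there
`e.1 = 0 ∧ e.2.1 < 0` is impossible), and `Gd f = G f + (if 0 ≤ f.1 then 1 else 0)` satisfies the same for closed
edges in rows `< 0` (check: only `e = (0, b, true)` has `lowFace e`, `src e` on different sides of `f.1 = 0`, and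
in the rows `< 0` it has `b < 0`).  Top level `h ≥ H`: `Gu = 0` (`pot_top`).  Bottom level `-h ≤ -H`: `Gd` is
constant: for `f.1 + f.2 + 1 = -h` moving from `(a, b)` to `(a + 1, b - 1)` crosses edges of rows `< -H` (or
`≤ -H`), where `A = 0`, so `Gd` does not change; (equivalently `Gd (a, b) = Gd (a+1, b-1)` for all `a`, then
integer induction).  Hence `up_dual`, `dn_dual`: with `hu c = Gu (dv c)`, `hd c = Gd (dv c)`:
`hu ((up ..).m c) = hu c`, `hd ((dn ..).m c) = hd c`, and `hu c + hd c = if 0 ≤ c then 1 else 0`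
(`(dv c).1 = c / 2 ≥ 0 ↔ c ≥ 0`).  For an invariant finite set `X`: `∑_{c ∈ X} hu c = 0` in `ZMod 2` (a fixed point
free involution of `X` preserves `hu`; `Finset.sum_involution`), same for `hd`; so `#{c ∈ X | 0 ≤ c}` is even.
-/

set_option autoImplicit false

namespace Pool.Agent.H89.Link

open H56.EX
open Pool.Agent.H89.Perc (Vert Edge Config src tgt lowFace vsum)

variable {L n : ℕ}

/-- a sum in `ZMod 2` which is invariant under a fixed point free involution vanishes -/
lemma sum_invol_zero {X : Finset ℤ} (P : Pat L) (hX : ∀ x ∈ X, P.m x ∈ X) (f : ℤ → ZMod 2)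
    (hf : ∀ x, f (P.m x) = f x) : ∑ x ∈ X, f x = 0 := by
  apply Finset.sum_involution (fun x _ => P.m x)
  · intro a _
    rw [hf]
    exact Perc.z2_add_self _
  · intro a _ _
    exact P.ne a
  · intro a ha
    exact hX a ha
  · intro a _
    exact P.inv a

lemma even_card_of_invol {X : Finset ℤ} (g : ℤ → ℤ) (hm : ∀ x ∈ X, g x ∈ X)
    (hi : ∀ x ∈ X, g (g x) = x) (hn : ∀ x ∈ X, g x ≠ x) : Even X.card := by
  rw [← ZMod.natCast_eq_zero_iff_even, Finset.card_eq_sum_ones]
  push_cast
  apply Finset.sum_involution (fun x _ => g x)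
  · intro a _
    exact Perc.z2_add_self _
  · intro a ha _
    exact hn a ha
  · intro a ha
    exact hm a ha
  · intro a ha
    exact hi a ha

/-- The cluster of `v` inside a ball is a cluster of the whole configuration if it does not reach the
sphere. -/
lemma conn_ball_step {η : Config} {k : ℕ} {v : Vert} (hno : ∀ u ∈ Perc.sphere 0 k,
    ¬ Perc.Conn η (Perc.ball 0 k) v u) {a b : Vert} (ha : Perc.Conn η (Perc.ball 0 k) v a)
    {e : Edge} (he : Perc.Joins e a b) (ho : η e = true) : Perc.Conn η (Perc.ball 0 k) v b := by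
  have hab : Perc.Step η Set.univ a b := ⟨trivial, trivial, e, he, ho⟩
  have h1 : a ∈ Perc.ball 0 k := ha.mem_right
  have h2 : a ∉ Perc.sphere 0 k := fun h => hno a h ha
  have h3 : ¬ (a.1 = (0 : Vert).1 - k ∨ a.1 = (0 : Vert).1 + k ∨ a.2 = (0 : Vert).2 - k ∨
      a.2 = (0 : Vert).2 + k) := fun h => h2 ⟨h1, h⟩
  have h4 := hab.fst_le
  have h5 := hab.snd_le
  have hb : b ∈ Perc.ball 0 k := by
    simp only [Perc.mem_ball] at h1 ⊢
    omega
  exact ha.tail ⟨h1, hb, e, he, ho⟩

theorem arm_of_noSurr (hL : L = 2 * n) {s : Pat L} (hs : IsStar s) {h : ℕ} (he : Even h)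
    (ω : Config) (hN : NoSurr (up s n h ω) (dn s n h ω)) (k : ℕ) : per n ω ∈ Perc.Arm 0 k := by
  classical
  by_contra harm
  set η := per n ω with hη
  have hno : ∀ u ∈ Perc.sphere 0 k, ¬ Perc.Conn η (Perc.ball 0 k) 0 u := by
    intro u hu hc
    exact harm ⟨u, hu, hc⟩
  set F : Vert → Prop := fun v => Perc.Conn η (Perc.ball 0 k) 0 v with hF
  have hconst : ∀ e : Edge, η e = true → F (src e) = F (tgt e) := by
    intro e ho
    apply propext
    constructor
    · intro h1
      exact conn_ball_step hno h1 (Perc.joins_src_tgt e) ho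
    · intro h1
      exact conn_ball_step hno h1 (Perc.joins_src_tgt e).symm ho
  have hup : ∀ x, F (pv ((up s n h ω).m x)) = F (pv x) :=
    up_primal hL hs he ω (fun e _ _ ho => hconst e ho)
  have hdn : ∀ x, F (pv ((dn s n h ω).m x)) = F (pv x) :=
    dn_primal hL hs he ω (fun e _ _ ho => hconst e ho)
  set X : Finset ℤ := (Finset.Icc (-2 * (k : ℤ) - 1) (2 * k)).filter (fun c => F (pv c)) with hX
  have hmem : ∀ c, c ∈ X ↔ F (pv c) := by
    intro c
    rw [hX, Finset.mem_filter]
    constructor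
    · exact fun h => h.2
    · intro h
      refine ⟨?_, h⟩
      have h1 : pv c ∈ Perc.ball 0 k := Perc.Conn.mem_right h
      simp only [Perc.mem_ball, pv] at h1
      have h2 : (0 : Vert).1 = 0 := rfl
      have h3 : (0 : Vert).2 = 0 := rfl
      rw [h2, h3] at h1
      rw [Finset.mem_Icc]
      omega
  have hEven := hN X (fun x hx => by rw [hmem] at hx ⊢; rw [hup]; exact hx)
    (fun x hx => by rw [hmem] at hx ⊢; rw [hdn]; exact hx)
  have h0 : (0 : ℤ) ∈ X := by
    rw [hmem]
    have : pv 0 = (0 : Vert) := by simp [pv]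
    rw [this]
    exact Perc.Conn.refl Perc.self_mem_ball
  have h0' : (0 : ℤ) ∈ X.filter (fun c => 0 ≤ c) := by
    rw [Finset.mem_filter]; exact ⟨h0, le_refl _⟩
  have hY : Even ((X.filter (fun c => 0 ≤ c)).erase 0).card := by
    apply even_card_of_invol (fun c => if c % 2 = 0 then c - 1 else c + 1)
    · intro c hc
      rw [Finset.mem_erase, Finset.mem_filter, hmem] at hc ⊢
      obtain ⟨h1, h2, h3⟩ := hc
      have hpv : pv (if c % 2 = 0 then c - 1 else c + 1) = pv c := by
        unfold pv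
        have : ((if c % 2 = 0 then c - 1 else c + 1) + 1) / 2 = (c + 1) / 2 := by
          split_ifs <;> omega
        rw [this]
      refine ⟨?_, ?_, ?_⟩
      · split_ifs <;> omega
      · rw [hpv]; exact h2
      · split_ifs <;> omega
    · intro c _
      show (if (if c % 2 = 0 then c - 1 else c + 1) % 2 = 0 then _ else _) = c
      split_ifs <;> omega
    · intro c _
      show (if c % 2 = 0 then c - 1 else c + 1) ≠ c
      split_ifs <;> omega
  have h1 : ((X.filter (fun c => 0 ≤ c)).erase 0).card + 1 = (X.filter (fun c => 0 ≤ c)).card :=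
    Finset.card_erase_add_one h0'
  rw [← h1] at hEven
  rcases hY with ⟨a, ha⟩
  rcases hEven with ⟨b, hb⟩
  omega

lemma level_shift (n : ℕ) (e : Edge) (k : ℤ) :
    (e.1 + n * k) + (e.2.1 - n * k) = e.1 + e.2.1 := by ring

lemma mem_strip_src {H : ℕ} {e : Edge} (h1 : src e ∈ strip H) (h2 : tgt e ∈ strip H) :
    -(H : ℤ) < e.1 + e.2.1 ∧ e.1 + e.2.1 + 1 < H := by
  simp only [strip, Set.mem_ofPred_eq, src] at h1
  simp only [strip, Set.mem_ofPred_eq, tgt] at h2
  split_ifs at h2 with h
  · simp only at h2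
    omega
  · simp only at h2
    omega

theorem noSurr_of_path (hL : L = 2 * n) (hn : 1 ≤ n) {s : Pat L} (hs : IsStar s) {h H : ℕ}
    (he : Even h) (hH : H ≤ h) (ω : Config)
    (hp : Perc.Conn (per n ω) (strip H) 0 ((n : ℤ), -(n : ℤ))) :
    NoSurr (up s n h ω) (dn s n h ω) := by
  classical
  set η := per n ω with hη
  obtain ⟨c, hc1, hc2, hc3⟩ := exists_pathSum hp
  obtain ⟨A, hA1, ⟨B, hB⟩, hA2, hA3⟩ := exists_halfSum n hn hc2 hc3
  -- support of `A`
  have hAo : ∀ e, A e ≠ 0 → η e = true ∧ -(H : ℤ) < e.1 + e.2.1 ∧ e.1 + e.2.1 + 1 < H := by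
    intro e hAe
    obtain ⟨k, hk⟩ := hA1 e hAe
    obtain ⟨h1, h2, h3⟩ := hc1 _ hk
    have h4 := mem_strip_src h2 h3
    simp only at h4
    rw [level_shift] at h4
    refine ⟨?_, h4⟩
    rw [hη, ← per_shift n ω e k]
    exact h1
  have hAclosed : ∀ e, η e = false → A e = 0 := by
    intro e h1
    by_contra h2
    rw [(hAo e h2).1] at h1
    exact absurd h1 (by decide)
  have hAs : ∀ e : Edge, ¬ (-(H : ℤ) < e.1 + e.2.1 ∧ e.1 + e.2.1 + 1 < H) → A e = 0 := by
    intro e h1
    by_contra h2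
    exact h1 (hAo e h2).2
  have hpot := pot_odd hAs hA2 hA3
  set G := pot A H with hG
  set Gd : Vert → ZMod 2 := fun f => G f + if 0 ≤ f.1 then 1 else 0 with hGd
  have hu : ∀ e : Edge, 0 ≤ e.1 + e.2.1 → A e = 0 → G (lowFace e) = G (src e) := by
    intro e h1 h2
    have h3 := hpot e
    rw [h2, if_neg (by omega), add_zero] at h3
    exact Perc.z2_add_eq_zero.1 h3
  have hGd' : ∀ a b : ℤ, Gd (a, b) = G (a, b) + if 0 ≤ a then 1 else 0 := fun a b => rfl
  have hd : ∀ e : Edge, e.1 + e.2.1 < 0 → A e = 0 → Gd (lowFace e) = Gd (src e) := by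
    intro e h1 h2
    have h3 := hpot e
    rw [h2, zero_add] at h3
    obtain ⟨a, b, t⟩ := e
    simp only at h1
    rcases t with _ | _
    · have h4 : G (a, b - 1) + G (a, b) = 0 := by
        rw [if_neg (by simp)] at h3
        exact h3
      show Gd (a, b - 1) = Gd (a, b)
      rw [hGd', hGd', Perc.z2_add_eq_zero.1 h4]
    · show Gd (a - 1, b) = Gd (a, b)
      rw [hGd', hGd']
      by_cases ha : a = 0
      · have hb : b < 0 := by omega
        have h5 : G (a - 1, b) + G (a, b) = 1 := by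
          rw [if_pos ⟨rfl, ha, hb⟩] at h3
          exact h3
        have h4 : G (a - 1, b) = 1 + G (a, b) := by
          have h6 : G (a - 1, b) + G (a, b) + G (a, b) = 1 + G (a, b) := by rw [h5]
          rwa [add_assoc, Perc.z2_add_self, add_zero] at h6
        rw [if_neg (by omega), if_pos (by omega), add_zero, h4, add_comm]
      · have h5 : G (a - 1, b) + G (a, b) = 0 := by
          rw [if_neg (by rintro ⟨_, h6, _⟩; exact ha h6)] at h3
          exact h3
        rw [Perc.z2_add_eq_zero.1 h5]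
        by_cases ha' : 0 ≤ a
        · rw [if_pos ha', if_pos (by omega)]
        · rw [if_neg ha', if_neg (by omega)]
  have hup := up_dual hL hs he ω (G := G)
    (fun e h1 _ h2 => hu e h1 (hAclosed e h2)) 0
    (fun f hf => pot_top A H (by omega))
  have hbot : ∀ f : Vert, f.1 + f.2 + 1 = -(h : ℤ) → Gd f = Gd (0, -(h : ℤ) - 1) := by
    have hstep : ∀ a : ℤ, Gd (a + 1, -(h : ℤ) - 1 - (a + 1)) = Gd (a, -(h : ℤ) - 1 - a) := by
      intro a
      have e1 := hd (a, -(h : ℤ) - 1 - a, false) (by simp only; omega) (hAs _ (by simp only; omega))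
      have e2 := hd (a + 1, -(h : ℤ) - 1 - a - 1, true) (by simp only; omega)
        (hAs _ (by simp only; omega))
      simp only [lowFace, src, Bool.false_eq_true, if_false, if_true] at e1 e2
      rw [show a + 1 - 1 = a by ring] at e2
      rw [show -(h : ℤ) - 1 - (a + 1) = -(h : ℤ) - 1 - a - 1 by ring, ← e2, e1]
    have hall : ∀ a : ℤ, Gd (a, -(h : ℤ) - 1 - a) = Gd (0, -(h : ℤ) - 1) := by
      intro a
      induction a using Int.induction_on with
      | zero => simp
      | succ a ih => rw [hstep]; exact ih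
      | pred a ih =>
        have := hstep (-a - 1)
        rw [show (-(a : ℤ) - 1 + 1) = -a by ring] at this
        rw [← this]; exact ih
    intro f hf
    have h1 : f = (f.1, -(h : ℤ) - 1 - f.1) := by
      apply Prod.ext
      · rfl
      · simp only; omega
    rw [h1]
    exact hall f.1
  have hdn := dn_dual hL hs he ω (G := Gd)
    (fun e _ h1 h2 => hd e h1 (hAclosed e h2)) (Gd (0, -(h : ℤ) - 1)) hbot
  intro X hX1 hX2
  have s1 := sum_invol_zero (up s n h ω) hX1 (fun c => G (dv c)) hup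
  have s2 := sum_invol_zero (dn s n h ω) hX2 (fun c => Gd (dv c)) hdn
  have s3 : ∑ x ∈ X, (if 0 ≤ x then (1 : ZMod 2) else 0) = 0 := by
    have e1 : ∀ x : ℤ, (if 0 ≤ x then (1 : ZMod 2) else 0) = G (dv x) + Gd (dv x) := by
      intro x
      rw [hGd]
      simp only
      rw [← add_assoc, Perc.z2_add_self, zero_add]
      have h3 : (dv x).1 = x / 2 := rfl
      rw [h3]
      by_cases hx : 0 ≤ x
      · rw [if_pos hx, if_pos (by omega)]
      · rw [if_neg hx, if_neg (by omega)]
    rw [Finset.sum_congr rfl (fun x _ => e1 x), Finset.sum_add_distrib]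
    rw [show (∑ x ∈ X, G (dv x)) = 0 from s1, show (∑ x ∈ X, Gd (dv x)) = 0 from s2, add_zero]
  rw [← ZMod.natCast_eq_zero_iff_even, Finset.card_eq_sum_ones]
  push_cast
  rw [Finset.sum_filter]
  exact s3

end Pool.Agent.H89.Link

end

section

/-!
# LINK module `Final`

Let `h → ∞` through even numbers in `pr_up_dn` with `A` = the event in question, use `law_tendsto`.
-/

set_option autoImplicit false

open MeasureTheory ProbabilityTheory Filter Topology

namespace Pool.Agent.H89.Link

open H56.EX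
open Pool.Agent.H89.Perc (Vert Edge Config Pr half)

variable {L n : ℕ}

/-- The limit of real numbers in `ℂ` is real. -/
private lemma real_limit {a : ℕ → ℝ} {z : ℂ} (h : Tendsto (fun n => (a n : ℂ)) atTop (𝓝 z)) :
    ∃ g : ℝ, (g : ℂ) = z ∧ Tendsto a atTop (𝓝 g) := by
  have h1 : Tendsto a atTop (𝓝 z.re) := by
    have := (Complex.continuous_re.tendsto z).comp h
    simpa [Function.comp_def] using this
  have h2 : Tendsto (fun n => (a n : ℂ)) atTop (𝓝 (z.re : ℂ)) :=
    (Complex.continuous_ofReal.tendsto z.re).comp h1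
  exact ⟨z.re, tendsto_nhds_unique h2 h, h1⟩

private lemma pr_mono {A B : Set Config} (h : A ⊆ B) : Pr half A ≤ Pr half B :=
  measureReal_mono h

open Classical in
/-- **One arm.** -/
theorem link_one (hL : L = 2 * n) (hn : 1 ≤ n) {v : Pat L → ℂ} (hv : Stat v) (hS : ∑ P, v P ≠ 0) :
    ∃ g : ℝ, (g : ℂ) = (∑ P : Pat L, ∑ Q : Pat L, if NoSurr P Q then v P * v Q else 0) /
        (∑ P, v P) ^ 2 ∧
      (∀ k : ℕ, 2 * k < n → g ≤ Perc.arm half k) ∧
      ∀ H : ℕ, Pr half {ω | Perc.Conn (per n ω) (strip H) 0 ((n : ℤ), -(n : ℤ))} ≤ g := by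
  obtain ⟨s, hs⟩ := exists_star hL hn
  have hT := pr_tendsto hL hn hs hv hS {PQ : Pat L × Pat L | NoSurr PQ.1 PQ.2}
  obtain ⟨g, hg, ht⟩ := real_limit hT
  refine ⟨g, ?_, ?_, ?_⟩
  · rw [hg]
    rfl
  · intro k hk
    refine le_of_tendsto' ht fun h => ?_
    rw [← pr_per_arm half hk]
    refine pr_mono fun ω hω => ?_
    exact arm_of_noSurr hL hs (even_two_mul h) ω hω k
  · intro H
    refine ge_of_tendsto ht ?_
    filter_upwards [eventually_ge_atTop H] with h hh
    refine pr_mono fun ω hω => ?_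
    exact noSurr_of_path hL hn hs (even_two_mul h) (by omega) ω hω

end Pool.Agent.H89.Link

end

section

/-! Topological lemmas on insertions of small arcs (EXACT project). -/

namespace Pool.Agent.H14.EX

open H56.EX

variable {L : ℕ}

end Pool.Agent.H14.EX

end

section

/-!
# Interface for the construction of the polynomial qKZ solution

`PsiPre Ψ` collects the properties of `Ψ` which are obtained directly from the construction; the arc
recursion (`arc_zero`, `arc` of `PsiProps`) is derived from `PsiPre` and the triangularity lemma.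
-/

namespace Pool.Agent.H12.QKZ

open H56.EX

end Pool.Agent.H12.QKZ

end

section

/-! Arc recursion of the polynomial qKZ solution (EXACT project): `arc_zero_of`, `arc_of`. -/

namespace Pool.Agent.H14.EX

open H56.EX Pool.Agent.H12.QKZ

variable {L : ℕ}

/-! ### Push-forwards -/

/-! ### `arc_zero` -/

/-! ### Insertion of the parameters `q² w, w` -/

/-! ### The inserted vector -/

/-! ### Products over a period -/

/-! ### Generic parameters -/

end Pool.Agent.H14.EX

end

section

/-!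
# The base component
-/

namespace Pool.Agent.H12.QKZ

open H56.EX MvPolynomial

end Pool.Agent.H12.QKZ

end

section

/-!
# The total length of the arcs of a link pattern
-/

namespace Pool.Agent.H12.QKZ

open H56.EX

variable {L : ℕ}

end Pool.Agent.H12.QKZ

end

section

/-!
# Good positions of a link pattern and the fibres of `e_i`
-/

namespace Pool.Agent.H12.QKZ

open H56.EX

variable {L : ℕ}

end Pool.Agent.H12.QKZ

end

section

/-! Arc recursion of the leg sums. -/

namespace H56.EX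

open scoped BigOperators Classical

variable {Lt Lb L : ℕ}


/-! ### parameters -/

end H56.EX

end

section

/-! Manipulation of the parameter sequences; exchange, recursion and polynomiality of `F22`, `F13`. -/

namespace H56.EX

open scoped BigOperators Classical

section psi

variable {Ψ : ∀ L : ℕ, Pat L → (ℤ → ℂ) → ℂ} (hΨ : PsiProps Ψ)

include hΨ

/-- polynomiality in the last top leg -/
theorem F22_poly (M : ℕ) (a0 b0 b1 : ℂ) (z : ℕ → ℂ) :
    ∃ p : Polynomial ℂ, p.natDegree ≤ M + 1 ∧ ∀ t, F22 Ψ M a0 t b0 b1 z = p.eval t := by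
  have h : ∀ P : Pat (M + 2), ∃ p : Polynomial ℂ, p.natDegree ≤ M + 1 ∧
      ∀ t, Ψ (M + 2) P (par (M + 2) (scons a0 (scons t z))) = p.eval t := by
    intro P
    obtain ⟨p, hp, he⟩ := hΨ.poly (M + 2) P (par (M + 2) (scons a0 (scons 0 z))) (per_par _ _) 1
    refine ⟨p, hp, fun t => ?_⟩
    rw [← he t]
    have : upd (M + 2) (par (M + 2) (scons a0 (scons 0 z))) ((1 : ℕ) : ℤ) t =
        par (M + 2) (scons a0 (scons t z)) := by
      rw [upd_par _ (by omega)]
      congr 1
      funext n
      rcases n with _ | _ | n <;> simp [scons, Function.update]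
    rw [← this]; rfl
  choose p hp he using h
  refine ⟨∑ Pt, ∑ Pb, Polynomial.C (chi 2 2 M Pt Pb * Ψ (M + 2) Pb
    (par (M + 2) (scons b0⁻¹ (scons b1⁻¹ (fun n => (z n)⁻¹))))) * p Pt, ?_, ?_⟩
  · apply Polynomial.natDegree_sum_le_of_forall_le
    intro Pt _
    apply Polynomial.natDegree_sum_le_of_forall_le
    intro Pb _
    exact (Polynomial.natDegree_C_mul_le _ _).trans (hp Pt)
  · intro t
    unfold F22
    rw [legSum_eq, Polynomial.eval_finsetSum]
    refine Finset.sum_congr rfl fun Pt _ => ?_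
    rw [Polynomial.eval_finsetSum]
    refine Finset.sum_congr rfl fun Pb _ => ?_
    rw [Polynomial.eval_mul, Polynomial.eval_C, ← he Pt t]
    ring

/-- polynomiality in the inverse of the last bottom leg -/
theorem F13_poly (M : ℕ) (a b0 b1 : ℂ) (z : ℕ → ℂ) :
    ∃ p : Polynomial ℂ, p.natDegree ≤ M + 2 ∧ ∀ t, F13 Ψ M a b0 b1 t⁻¹ z = p.eval t := by
  have h : ∀ P : Pat (M + 3), ∃ p : Polynomial ℂ, p.natDegree ≤ M + 2 ∧
      ∀ t, Ψ (M + 3) P (par (M + 3) (scons b0⁻¹ (scons b1⁻¹ (scons t (fun n => (z n)⁻¹))))) =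
        p.eval t := by
    intro P
    obtain ⟨p, hp, he⟩ := hΨ.poly (M + 3) P
      (par (M + 3) (scons b0⁻¹ (scons b1⁻¹ (scons 0 (fun n => (z n)⁻¹))))) (per_par _ _) 2
    refine ⟨p, hp, fun t => ?_⟩
    rw [← he t]
    have : upd (M + 3) (par (M + 3) (scons b0⁻¹ (scons b1⁻¹ (scons 0 (fun n => (z n)⁻¹)))))
        ((2 : ℕ) : ℤ) t =
        par (M + 3) (scons b0⁻¹ (scons b1⁻¹ (scons t (fun n => (z n)⁻¹)))) := by
      rw [upd_par _ (by omega)]
      congr 1
      funext n
      rcases n with _ | _ | _ | n <;> simp [scons, Function.update]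
    rw [← this]; rfl
  choose p hp he using h
  refine ⟨∑ Pt, ∑ Pb, Polynomial.C (chi 1 3 M Pt Pb * Ψ (M + 1) Pt
    (par (M + 1) (scons a z))) * p Pb, ?_, ?_⟩
  · apply Polynomial.natDegree_sum_le_of_forall_le
    intro Pt _
    apply Polynomial.natDegree_sum_le_of_forall_le
    intro Pb _
    exact (Polynomial.natDegree_C_mul_le _ _).trans (hp Pb)
  · intro t
    unfold F13
    rw [inv_inv, legSum_eq, Polynomial.eval_finsetSum]
    refine Finset.sum_congr rfl fun Pt _ => ?_
    rw [Polynomial.eval_finsetSum]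
    refine Finset.sum_congr rfl fun Pb _ => ?_
    rw [Polynomial.eval_mul, Polynomial.eval_C, ← he Pb t]
    ring

end psi

end H56.EX

end

section

/-!
# LT1: the Temperley–Lieb generator can be moved from the top pattern to the bottom pattern
at glued strands, without changing the leg class.
-/

namespace H56.EX

open Relation

variable {Lt Lb : ℕ}

section vmap

end vmap

end H56.EX

end

section

/-! Topology lemma LT4 of the EXACT project: a small arc between the last glued strand
(position `-1`) and the first hole end (position `0`) of the top pattern. -/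

namespace H56.EX

variable {Lt Lb : ℕ}

section

end

end H56.EX

end

section

/-! Symmetry of `F22`, `F13` in the glued strands. -/

namespace H56.EX

open scoped BigOperators Classical

lemma Cub.qmul {x y : ℂ} (h : Cub x y) : Cub (q * x) y := by
  intro e
  apply h
  rw [← e, mul_pow, q_cube, one_mul]

lemma Cub.q2mul {x y : ℂ} (h : Cub x y) : Cub (q ^ 2 * x) y := by
  intro e
  apply h
  rw [← e, mul_pow, ← pow_mul, mul_comm 2 3, pow_mul, q_cube, one_pow, one_mul]

section psi

variable {Ψ : ∀ L : ℕ, Pat L → (ℤ → ℂ) → ℂ} (hΨ : PsiProps Ψ) (hT : LegTop)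

include hΨ hT

theorem F22_swap_z (M : ℕ) (a0 a1 b0 b1 : ℂ) (z : ℕ → ℂ) (j : ℕ) (hj : j + 1 < M)
    (h0 : z j ≠ 0) (h1 : z (j + 1) ≠ 0) (hc : Cub (z j) (z (j + 1))) :
    F22 Ψ M a0 a1 b0 b1 (z ∘ Equiv.swap j (j + 1)) = F22 Ψ M a0 a1 b0 b1 z := by
  have et0 : par (M + 2) (scons a0 (scons a1 z)) (((2 : ℕ) : ℤ) + (j : ℤ)) = z j := by
    have : ((2 : ℕ) : ℤ) + (j : ℤ) = ((j + 2 : ℕ) : ℤ) := by push_cast; ring
    rw [this, par_nat _ (by omega)]; rfl
  have et1 : par (M + 2) (scons a0 (scons a1 z)) (((2 : ℕ) : ℤ) + (j : ℤ) + 1) = z (j + 1) := by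
    have : ((2 : ℕ) : ℤ) + (j : ℤ) + 1 = ((j + 1 + 2 : ℕ) : ℤ) := by push_cast; ring
    rw [this, par_nat _ (by omega)]; rfl
  have eb0 : par (M + 2) (scons b0⁻¹ (scons b1⁻¹ (fun n => (z n)⁻¹))) (((2 : ℕ) : ℤ) + (j : ℤ)) =
      (z j)⁻¹ := by
    have : ((2 : ℕ) : ℤ) + (j : ℤ) = ((j + 2 : ℕ) : ℤ) := by push_cast; ring
    rw [this, par_nat _ (by omega)]; rfl
  have eb1 : par (M + 2) (scons b0⁻¹ (scons b1⁻¹ (fun n => (z n)⁻¹)))
      (((2 : ℕ) : ℤ) + (j : ℤ) + 1) = (z (j + 1))⁻¹ := by
    have : ((2 : ℕ) : ℤ) + (j : ℤ) + 1 = ((j + 1 + 2 : ℕ) : ℤ) := by push_cast; ring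
    rw [this, par_nat _ (by omega)]; rfl
  have h := exch_glued hΨ 2 2 M j (fun Pt Pb => hT.adj 2 2 M (by omega) (by omega) Pt Pb j hj)
    (par (M + 2) (scons a0 (scons a1 z)))
    (par (M + 2) (scons b0⁻¹ (scons b1⁻¹ (fun n => (z n)⁻¹)))) (per_par _ _) (per_par _ _)
    (by rw [et0]; exact h0) (by rw [et1]; exact h1) (by rw [eb0, et0]) (by rw [eb1, et1])
    (by rw [et0, et1]; exact hc.symm.g) (by rw [et0, et1]; exact hc.g)
  have e2 : ((2 : ℕ) : ℤ) + (j : ℤ) = ((j + 1 + 1 : ℕ) : ℤ) := by push_cast; ring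
  rw [e2, swp_par _ (by omega), swp_par _ (by omega), scons_swap_succ, scons_swap_succ,
    scons_swap_succ, scons_swap_succ] at h
  exact h

theorem F13_swap_z (M : ℕ) (a b0 b1 b2 : ℂ) (z : ℕ → ℂ) (j : ℕ) (hj : j + 1 < M)
    (h0 : z j ≠ 0) (h1 : z (j + 1) ≠ 0) (hc : Cub (z j) (z (j + 1))) :
    F13 Ψ M a b0 b1 b2 (z ∘ Equiv.swap j (j + 1)) = F13 Ψ M a b0 b1 b2 z := by
  have et0 : par (M + 1) (scons a z) (((1 : ℕ) : ℤ) + (j : ℤ)) = z j := by
    have : ((1 : ℕ) : ℤ) + (j : ℤ) = ((j + 1 : ℕ) : ℤ) := by push_cast; ring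
    rw [this, par_nat _ (by omega)]; rfl
  have et1 : par (M + 1) (scons a z) (((1 : ℕ) : ℤ) + (j : ℤ) + 1) = z (j + 1) := by
    have : ((1 : ℕ) : ℤ) + (j : ℤ) + 1 = ((j + 1 + 1 : ℕ) : ℤ) := by push_cast; ring
    rw [this, par_nat _ (by omega)]; rfl
  have eb0 : par (M + 3) (scons b0⁻¹ (scons b1⁻¹ (scons b2⁻¹ (fun n => (z n)⁻¹))))
      (((3 : ℕ) : ℤ) + (j : ℤ)) = (z j)⁻¹ := by
    have : ((3 : ℕ) : ℤ) + (j : ℤ) = ((j + 3 : ℕ) : ℤ) := by push_cast; ring
    rw [this, par_nat _ (by omega)]; rfl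
  have eb1 : par (M + 3) (scons b0⁻¹ (scons b1⁻¹ (scons b2⁻¹ (fun n => (z n)⁻¹))))
      (((3 : ℕ) : ℤ) + (j : ℤ) + 1) = (z (j + 1))⁻¹ := by
    have : ((3 : ℕ) : ℤ) + (j : ℤ) + 1 = ((j + 1 + 3 : ℕ) : ℤ) := by push_cast; ring
    rw [this, par_nat _ (by omega)]; rfl
  have h := exch_glued hΨ 1 3 M j (fun Pt Pb => hT.adj 1 3 M (by omega) (by omega) Pt Pb j hj)
    (par (M + 1) (scons a z))
    (par (M + 3) (scons b0⁻¹ (scons b1⁻¹ (scons b2⁻¹ (fun n => (z n)⁻¹))))) (per_par _ _)
    (per_par _ _)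
    (by rw [et0]; exact h0) (by rw [et1]; exact h1) (by rw [eb0, et0]) (by rw [eb1, et1])
    (by rw [et0, et1]; exact hc.symm.g) (by rw [et0, et1]; exact hc.g)
  have e1 : ((1 : ℕ) : ℤ) + (j : ℤ) = ((j + 1 : ℕ) : ℤ) := by push_cast; ring
  have e3 : ((3 : ℕ) : ℤ) + (j : ℤ) = ((j + 1 + 1 + 1 : ℕ) : ℤ) := by push_cast; ring
  rw [e1, e3, swp_par _ (by omega), swp_par _ (by omega), scons_swap_succ, scons_swap_succ,
    scons_swap_succ, scons_swap_succ] at h
  exact h

end psi

/-! ### moving a parameter to the front -/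

section psi

variable {Ψ : ∀ L : ℕ, Pat L → (ℤ → ℂ) → ℂ} (hΨ : PsiProps Ψ) (hT : LegTop)

include hΨ hT

theorem F22_mvf (M : ℕ) (a0 a1 b0 b1 : ℂ) (z : ℕ → ℂ) (hz : Gen M z) (j : ℕ) (hj : j < M) :
    F22 Ψ M a0 a1 b0 b1 (mvf j z) = F22 Ψ M a0 a1 b0 b1 z :=
  inv_mvf (F22 Ψ M a0 a1 b0 b1) (fun z hz j hj => F22_swap_z hΨ hT M a0 a1 b0 b1 z j hj
    (hz.1 _ (by omega)) (hz.1 _ hj) (hz.2 _ _ (by omega) hj (by omega))) j hj z hz

theorem F13_mvf (M : ℕ) (a b0 b1 b2 : ℂ) (z : ℕ → ℂ) (hz : Gen M z) (j : ℕ) (hj : j < M) :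
    F13 Ψ M a b0 b1 b2 (mvf j z) = F13 Ψ M a b0 b1 b2 z :=
  inv_mvf (F13 Ψ M a b0 b1 b2) (fun z hz j hj => F13_swap_z hΨ hT M a b0 b1 b2 z j hj
    (hz.1 _ (by omega)) (hz.1 _ hj) (hz.2 _ _ (by omega) hj (by omega))) j hj z hz

end psi

end H56.EX

end

section

/-! Topology lemma LT3: a small arc between the last hole end of the top pattern and the first
glued strand turns the hole end into a hole end of the bottom pattern. -/

namespace H56.EX

namespace LT3

variable {Lt Lb : ℕ}

end LT3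

variable {Lt Lb : ℕ}

end H56.EX

end
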