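import Pool.Agent.H94.BG.H31.PT.M31_4
import Pool.Agent.H94.BG.H31.PT.M32
import Pool.Agent.H94.BG.H31.PT.M32_2

/-! The parts of this file: H89.Perc.ArmBoxLower, H83.EX.SqrtTrick, H83.EX.Glue2, H83.EX.Double, H83.EX.DualSmall, H83.EX.StrongRSW, H57.LF.FS2, H57.LF.FS3, H57.LF.FS1, H89.Perc.ThetaLimit, H89.Perc.Surround, H57.LF.FS4, H85.Gamma.KIArm, H85.Gamma.Second, H85.Gamma.Main, H83.EX.WindDet, H89.Link.PerProb, H89.Link.Half, H89.Link.Face, H47.EX.Confine, H47.EX.SrcD, H89.Link.Four, H89.Link.Star, H89.Link.Law, H89.Link.One, H89.Link.Final, H14.EX.Top, H12.QKZ.Iface, H14.EX.Arc, H12.QKZ.PhiBase, H12.QKZ.Area, H12.QKZ.Comb, H56.EX.Rec, H56.EX.Param, H96.EX.LT1, H14.EX.LT4, H56.EX.Sym, H7.EX.LT3. -/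

section

/-!
# Lower bound for annulus crossing probabilities
-/

open MeasureTheory ProbabilityTheory unitInterval

namespace Pool.Agent.H89.Perc

namespace ArmBoxLower

end ArmBoxLower

end Pool.Agent.H89.Perc

end

section

/-! # The square-root trick -/

open MeasureTheory ProbabilityTheory unitInterval

namespace Pool.Agent.H83.EX

open Pool.Agent.H89.Perc

end Pool.Agent.H83.EX

end

section

/-! # Two paths across an annulus without dual crossing are connected -/

open MeasureTheory ProbabilityTheory unitInterval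

namespace Pool.Agent.H83.EX

open Pool.Agent.H89.Perc

end Pool.Agent.H83.EX

end

section

/-! # Doubling the length of a rectangle -/

open MeasureTheory ProbabilityTheory unitInterval

namespace Pool.Agent.H83.EX

open Pool.Agent.H89.Perc

end Pool.Agent.H83.EX

end

section

/-! # Annulus crossings of thick annuli are unlikely -/

open MeasureTheory ProbabilityTheory unitInterval

namespace Pool.Agent.H83.EX

open Pool.Agent.H89.Perc

end Pool.Agent.H83.EX

end

section

/-! # If the squares are crossed with probability close to one, so are the long rectangles -/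

open MeasureTheory ProbabilityTheory unitInterval

namespace Pool.Agent.H83.EX

open Pool.Agent.H89.Perc

end Pool.Agent.H83.EX

end

section

open MeasureTheory ProbabilityTheory unitInterval

namespace Pool.Agent.H57.LF

open Pool.Agent.H89.Perc

end Pool.Agent.H57.LF

end

section

open MeasureTheory ProbabilityTheory unitInterval

namespace Pool.Agent.H57.LF

open Pool.Agent.H89.Perc

end Pool.Agent.H57.LF

end

section

open MeasureTheory ProbabilityTheory unitInterval

namespace Pool.Agent.H57.LF

open Pool.Agent.H89.Perc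

end Pool.Agent.H57.LF

end

section

/-!
# The percolation probability is the limit of the one-arm probabilities
-/

open MeasureTheory ProbabilityTheory unitInterval Filter Topology

namespace Pool.Agent.H89.Perc

end Pool.Agent.H89.Perc

end

section

/-!
# Finite clusters are surrounded by dual paths
-/

open MeasureTheory ProbabilityTheory unitInterval

namespace Pool.Agent.H89.Perc

end Pool.Agent.H89.Perc

end

section

open MeasureTheory ProbabilityTheory unitInterval

namespace Pool.Agent.H57.LF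

open Pool.Agent.H89.Perc

theorem armBox_ge {p : I} {R M L : ℕ} (hL : 1 ≤ L) (hLR : L ≤ R) (hM : 2 * R < M) :
    1 - Pr p (ArmBox 0 (2 * R) M) ≤
      ∑ i ∈ Finset.range M, Pr (σ p) (ArmBox 0 L (max (i * L) R - L)) := by
  have hsub : (ArmBox 0 (2 * R) M)ᶜ ⊆
      ⋃ i ∈ Finset.range M, {ω | dual ω ∈ ArmBox (((i * L : ℕ) : ℤ), 0) L (max (i * L) R - L)} := by
    intro ω hω
    have h1 : fs4Open ω (2 * R) ∈ Arm 0 (2 * R) := by
      refine ⟨(((2 * R : ℕ) : ℤ), 0), ⟨?_, Or.inr (Or.inl (by simp))⟩, fs4_path ω (2 * R) _ le_rfl⟩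
      simp only [mem_ball, Prod.fst_zero, Prod.snd_zero]
      omega
    have h2 : fs4Open ω (2 * R) ∉ Arm 0 M := fun h => hω (fs4_back hM h)
    obtain ⟨j, hj, hj'⟩ := surround (hL.trans hLR) hM h1 h2
    simp only [Set.mem_iUnion]
    refine ⟨j / L, Finset.mem_range.2 (lt_of_le_of_lt (Nat.div_le_self j L) hj), ?_⟩
    refine fs4_arm hL hLR (incr_arm _ _ _ _ (fun e he => ?_) hj')
    simp only [dual, Bool.not_eq_true'] at he ⊢
    by_contra hc
    rw [Bool.not_eq_false] at hc
    rw [fs4Open_le ω (2 * R) _ hc] at he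
    exact absurd he (by decide)
  rw [← Pr_compl (localOn_armBox 0 (2 * R) M)]
  calc Pr p (ArmBox 0 (2 * R) M)ᶜ ≤ _ := Pr_mono hsub
    _ ≤ ∑ i ∈ Finset.range M,
        Pr p {ω | dual ω ∈ ArmBox (((i * L : ℕ) : ℤ), 0) L (max (i * L) R - L)} :=
      Pr_biUnion_le _ _
    _ = _ := by
      refine Finset.sum_congr rfl fun i _ => ?_
      rw [Pr_dual (localOn_armBox _ _ _), Pr_armBox]

end Pool.Agent.H57.LF

end

section

/-!
# The key inequality for the one-arm event
-/

open MeasureTheory ProbabilityTheory unitInterval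

namespace Pool.Agent.H85.Gamma

open Pool.Agent.H89.Perc
open Pool.Agent.Perc (Ex ind ind_of ind_of_not ind_congr)

end Pool.Agent.H85.Gamma

end

section

/-!
# Lower bound for the susceptibility by a second moment argument
-/

open MeasureTheory ProbabilityTheory unitInterval Filter Topology
open scoped ENNReal

namespace Pool.Agent.H85.Gamma

open Pool.Agent.H89.Perc
open Pool.Agent.Perc (Ex ind ind_of ind_of_not ind_congr ind_nonneg ind_le_one)

end Pool.Agent.H85.Gamma

end

section

/-!
# The mean cluster size of bond percolation on the square lattice is at least `c (1/2 - p)^{-2}`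
-/

open MeasureTheory ProbabilityTheory unitInterval Filter Topology
open scoped ENNReal

namespace Pool.Agent.H85.Gamma

open Pool.Agent.H89.Perc

end Pool.Agent.H85.Gamma

end

section

/-! # A winding path from crossings of rectangles -/

open MeasureTheory ProbabilityTheory unitInterval

namespace Pool.Agent.H83.EX

open Pool.Agent.H89.Perc

end Pool.Agent.H83.EX

end

section

/-!
# LINK module `PerProb`: local events have the same probability in the plane and on the cylinder

`per n ω e = ω (base n e)` with `base n e = (e.1 % n, e.2.1 + (e.1 - e.1 % n), e.2.2)`.  If `base n` is injective on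
the finite set `S` and `A` depends only on `S`, then `{ω | per n ω ∈ A}` is the image of `A` under the
relabelling, and has the same probability (the law of `(ω (base n e))_{e ∈ S}` is the product law).
`base n` is injective on the edges with `|e.1| ≤ k` if `2 k < n`.
-/

set_option autoImplicit false

open MeasureTheory ProbabilityTheory unitInterval

namespace Pool.Agent.H89.Link

open Pool.Agent.H89.Perc (Vert Edge Config Pr half)

end Pool.Agent.H89.Link

end

section

/-!
# LINK module `Half`: colours are transported through a half cylinder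

`halfP_inv`: induction on `h` with `row_inv` (the upper part has rows `r + 1, …, r + h`).
`halfP_congr`: induction on `h`; `row t P` only uses `t 0, …, t (L - 1)` (`wires_congr`).
-/

set_option autoImplicit false

namespace Pool.Agent.H89.Link

open H56.EX

end Pool.Agent.H89.Link

end

section

/-!
# LINK module `Face`: colourings of primal or dual vertices give invariants of the patterns

`F : Vert → T` constant along the open edges of the rows `0, …, h - 1` (of `per n ω`) gives a colour of
the medial edges: the colour of the adjacent primal vertex.  In medial coordinates the face `(c, r)`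
(between the columns `c, c + 1`, at level `r`) is primal iff `c + r` is odd and is then the vertex
`((c + r + 1) / 2, (r - c - 1) / 2)`.  Put (primal colouring)
  `K c r = F ((c + r + 1) / 2, (r - c - 1) / 2)`,
  `V c r = if (c + r) % 2 = 1 then K c r else K (c - 1) r`   (vertical edge in column `c` at level `r`),
  `H c r = if (c + r) % 2 = 1 then K c r else K c (r + 1)`   (horizontal edge from `(c, r)` to `(c + 1, r)`).
Then `RowCol (tB (per n ω) · r) (V · (r + 1)) (H · r) (V · r)`:
* `c + r` even: `medge c r = (a, b, false)`, `a = (c + r) / 2`, `b = (r - c) / 2`; South-West face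
  `(c - 1, r)` = `src`, North-East face `(c, r + 1)` = `tgt`; `V c r = K (c-1) r`, `V c (r+1) = K c (r+1)`,
  `H c r = K c (r+1)`, `H (c-1) r = K (c-1) r`; `tB = true` iff the edge is open.
* `c + r` odd: `medge c r = (a, b, true)`, `a = (c + r + 1) / 2`, `b = (r - c - 1) / 2`; South-East face
  `(c, r)` = `src`, North-West face `(c - 1, r + 1)` = `tgt`; `V c r = K c r = H c r`,
  `V c (r+1) = K (c-1) (r+1) = H (c-1) r`; `tB = false` iff the edge is open.
At the top level `h` (even) the star joins `c` odd with `c + 1`, both are next to the primal face `(c, h)`.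
The dual colouring is the same with parities exchanged: `K c r = G ((c + r) / 2, (r - c - 2) / 2)` for
`c + r` even, `V c r = if (c + r) % 2 = 0 then K c r else K (c - 1) r`, `H c r = if (c + r) % 2 = 0 then K c r
else K c (r + 1)`; at the top all dual faces have the same colour `a`.
`V c 0` is `F (pv c)` resp. `G (dv c)`.
`tB (per n ω) (c + 2 n) r = tB (per n ω) c r` (`tB_per`).
For `dn` use the reflected colouring `V' c r = V c (-r)`, `H' c r = H c (-1 - r)`; the types are flipped:
at the vertex `(c, -1 - r)`, top and bottom are exchanged (`top' = V c (-r-1)` is the edge below it).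
-/

set_option autoImplicit false

namespace Pool.Agent.H89.Link

open H56.EX
open Pool.Agent.H89.Perc (Vert Edge Config src tgt lowFace)

end Pool.Agent.H89.Link

end

section

/-!
# Periodic configurations: confinement of two clusters by seals

`Γ` is a group of periods.  `F₁`, `F₂` are clusters in a domain `D`, `X₁`, `X₂` corridors attached to
them, `M₁`, `M₂` the mouths through which they leave `D`.
-/

set_option autoImplicit false

open MeasureTheory ProbabilityTheory unitInterval

namespace Pool.Agent.H47.EX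

open Pool.Agent.H89.Perc Pool.Agent.H59.EX

variable {Γ : AddSubgroup (ℤ × ℤ)}

end Pool.Agent.H47.EX

end

section

/-!
# The diagonal source
-/

set_option autoImplicit false

namespace Pool.Agent.H47.EX

open Pool.Agent.H89.Perc Pool.Agent.H59.EX

end Pool.Agent.H47.EX

end

section

/-!
# LINK module `Four`: the four-leg event implies four arms

Composite graph `H56.EX.Conn 2 2 (L - 2) P Q` on `ℤ ⊕ ℤ` with `P = up s n h ω`, `Q = dn s n h ω`: `inl x ~ inl (P.m x)`,
`inr y ~ inr (Q.m y)`, `inl c ~ inr c` for the columns `c` with `c % L ≥ 2`.  Home columns: `c % L ∈ {0, 1}`.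
(A) If `Leg 2 2 (L - 2) P Q` then no two different ones of the four nodes `inl 0, inl 1, inr 0, inr 1` are connected
(`a = b = 0` in `Leg`, `Odd 0` is false).
(B) Let `Z` be a finite set of nodes closed under the steps and containing one of the four home nodes `ℓ`, all of
whose nodes have a position in `(-L + 1, L)`, so the only home positions in `Z` are `0` and `1`.  The connected
component `O` of `ℓ` is contained in `Z`, finite, closed under the fixed point free involution
`α : inl x ↦ inl (P.m x), inr y ↦ inr (Q.m y)`, so `|O|` is even; `O` without its home nodes is closed under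
`β : inl c ↔ inr c`, so it has an even number of elements.  So `O` contains an even number of home nodes, hence
another home node; this contradicts (A).
(i) Suppose `x = (0, 0)` is not joined to `sphere 0 k` in `ball 0 k`.  `C` = vertices joined to `x` in `ball 0 k`,
its indicator is constant along open edges; `Z` = nodes whose position `c` has `pv c ∈ C` is closed under the steps
(`up_primal`, `dn_primal`), finite, contains `inl 0`; positions are in `[-2 k - 1, 2 k]` and `2 k + 2 < L`. (B).
(ii) Suppose `y = (1, -1)` is not joined to `sphere 0 k` in `ball 0 k`: the same with `inl 1` (`pv 1 = y`).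
(iii) Suppose `x` and `y` are joined in `ball 0 k`.  `exists_pathSum` gives `c` with odd degrees exactly at `x`, `y`;
add the two edges `(0, 0, false)` and `(1, -1, true)` (the path `x, (1, 0), y`): `A`, all degrees even, finite,
in the strip `H = 2 k + 2`.  `G' = pot A H`.  `Gu = G'` except `Gu q = G' q + 1` for `q = (0, -1)`, `Gd = G'`.
Then `Gu (lowFace e) = Gu (src e)` for closed `e` in rows `≥ 0`: the edges of rows `≥ 0` with `q` as one of their
faces are exactly `(0, 0, false)` and `(1, -1, true)`.  The edges of rows `< 0` at `q` are `(0, -1, false)`,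
`(0, -1, true)`.  `Gu = 0` at level `h`, `Gd` = constant at level `-h` (`2 k + 2 ≤ h`); the constant is `0` because
`G'` has finite support in every level (or: `G' (a, b) = 0` for large `a`).  So the sets of nodes
`Z_ε = {inl c | Gu (dv c) = ε} ∪ {inr c | Gd (dv c) = ε}` are closed under the steps (for `c` not home,
`dv c ≠ q`, so `Gu = Gd`); `dv 0 = dv 1 = q`.  `Gu q ≠ Gd q`, so one of them is `1`: `Z_1` is finite, with positions in
`[-2 k, 2 k + 1]` (on the seam `pot A H (a, -a-1) ≠ 0` needs `|a| ≤ k`), and contains exactly the home nodes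
`inl 0, inl 1` or exactly `inr 0, inr 1`.  (B) gives a contradiction (the other home node in the component is
different from `ℓ`, and any two different home nodes contradict (A)).
-/

set_option autoImplicit false

namespace Pool.Agent.H89.Link

open H56.EX
open Pool.Agent.H89.Perc (Vert Edge Config src tgt lowFace vsum)

variable {L n : ℕ}

/-! ### Finite invariant sets of nodes -/

/-! ### The primal arms -/

/-! ### The two arms are not connected -/

end Pool.Agent.H89.Link

end

section

/-!
# LINK module `Star`: the pattern of small arcs, reset by an alternating row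

`exists_star`: write down the involution `x ↦ if x % 2 = 0 then x - 1 else x + 1`.
`row_alt`: apply `row_inv` with `T = ℤ`, `bot c = (c + 1) / 2`, `hor c = if c % 2 = 1 then (c + 1) / 2 else C`
and `top = C` constant (`C` any constant, e.g. `C = 0` and colours in `Option ℤ`): so
`bot ((row t P).m x) = bot x`, hence `(row t P).m x ∈ {x, x + 1}` for odd `x` and `∈ {x - 1, x}` for even `x`,
and `(row t P).m x ≠ x` (`Pat.ne`).  Conclude with `Pat.ext`.
-/

set_option autoImplicit false

namespace Pool.Agent.H89.Link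

open H56.EX

variable {L : ℕ}

end Pool.Agent.H89.Link

end

section

/-!
# LINK module `Law`: the law of the two patterns, and its limit

`pr_up_dn`: for `L = 2 n`, the bits `tB (per n ω) c r`, `0 ≤ c < L`, `-h ≤ r < h`, are the values of `ω`
(or their negations) at pairwise different edges: `per n ω (medge c r) = ω (medge' c r)` with
`medge' c r = (e.1 % n, e.2.1 + (e.1 - e.1 % n), e.2.2)`, `e = medge c r`; the map `(c, r) ↦ medge' c r` is
injective on `0 ≤ c < 2 n` (`e.1 + e.2.1 = r` and the orientation and `e.1 - e.2.1` determine `c` modulo `2 n`).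
So they are independent fair bits (`Pr half`, product measure), and the same holds for the reflected and
flipped bits of the lower half.  Then induction over the rows (the row next to the seam is applied last;
peel it off).  A convenient formulation: the probability of a set of bit arrays is
(number of arrays) / 2 ^ (2 h L); see `Pool.Agent.H89.Perc.Prob` for cylinder probabilities.
`law_tendsto`: the kernel `K P Q = 2 ^ (-L) #{t | row (bits t) P = Q}` satisfies `K P s ≥ 2 ^ (-L)` for all `P`
by `row_alt`.  For a signed/complex vector `w` with sum zero, `‖K w‖₁ ≤ (1 - 2 ^ (-L)) ‖w‖₁`.  Apply it to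
`w = law s h - v / ∑ v` (`law s h` has sum one, is the `h`-th iterate, and `v` is fixed by `Stat v`).
-/

set_option autoImplicit false

open MeasureTheory ProbabilityTheory Filter Topology

namespace Pool.Agent.H89.Link

open H56.EX
open Pool.Agent.H89.Perc (Vert Edge Config Pr half)

variable {L n : ℕ}

/-! ### Fair bits -/

open Pool.Agent.H89.Perc (LocalOn ofS ofS_apply Pr_eq_Ex)
open Pool.Agent.Perc (Ex ind ind_of ind_of_not ind_congr)

/-! ### Patterns of arrays of bits -/

/-! ### The edges -/

/-! ### Convergence -/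

end Pool.Agent.H89.Link

end

section

/-!
# LINK module `One`: one arm

`arm_of_noSurr`.  Suppose `per n ω ∉ Arm 0 k`.  Let `C` be the set of vertices joined to `0` inside
`ball 0 k`; it is finite, contains `0` and no point of `sphere 0 k`, hence its indicator `F` is constant along
all open edges of `per n ω` (a neighbour of a point of the ball which is not on the sphere is in the ball).
By `up_primal`, `dn_primal` the finite set `X = {c | pv c ∈ C}` is invariant under both involutions.
`pv c = (j, -j)` with `j = (c + 1) / 2`: the columns `2 j - 1, 2 j`.  So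
`#{c ∈ X | 0 ≤ c} = 1 + 2 #{j ≥ 1 | (j, -j) ∈ C}` is odd, which contradicts `NoSurr`.

`noSurr_of_path`.  `exists_pathSum` and `exists_halfSum` give `A : Edge → ZMod 2` supported on open edges of
`per n ω` in the strip, with `0` the only vertex of odd degree; `G = pot A H`.  By `pot_odd`
`Gu f = G f` satisfies `Gu (lowFace e) = Gu (src e)` for all closed edges `e` in rows `≥ 0` (there
`e.1 = 0 ∧ e.2.1 < 0` is impossible), and `Gd f = G f + (if 0 ≤ f.1 then 1 else 0)` satisfies the same for closed
edges in rows `< 0` (check: only `e = (0, b, true)` has `lowFace e`, `src e` on different sides of `f.1 = 0`, and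
in the rows `< 0` it has `b < 0`).  Top level `h ≥ H`: `Gu = 0` (`pot_top`).  Bottom level `-h ≤ -H`: `Gd` is
constant: for `f.1 + f.2 + 1 = -h` moving from `(a, b)` to `(a + 1, b - 1)` crosses edges of rows `< -H` (or
`≤ -H`), where `A = 0`, so `Gd` does not change; (equivalently `Gd (a, b) = Gd (a+1, b-1)` for all `a`, then
integer induction).  Hence `up_dual`, `dn_dual`: with `hu c = Gu (dv c)`, `hd c = Gd (dv c)`:
`hu ((up ..).m c) = hu c`, `hd ((dn ..).m c) = hd c`, and `hu c + hd c = if 0 ≤ c then 1 else 0`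
(`(dv c).1 = c / 2 ≥ 0 ↔ c ≥ 0`).  For an invariant finite set `X`: `∑_{c ∈ X} hu c = 0` in `ZMod 2` (a fixed point
free involution of `X` preserves `hu`; `Finset.sum_involution`), same for `hd`; so `#{c ∈ X | 0 ≤ c}` is even.
-/

set_option autoImplicit false

namespace Pool.Agent.H89.Link

open H56.EX
open Pool.Agent.H89.Perc (Vert Edge Config src tgt lowFace vsum)

variable {L n : ℕ}

end Pool.Agent.H89.Link

end

section

/-!
# LINK module `Final`

Let `h → ∞` through even numbers in `pr_up_dn` with `A` = the event in question, use `law_tendsto`.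
-/

set_option autoImplicit false

open MeasureTheory ProbabilityTheory Filter Topology

namespace Pool.Agent.H89.Link

open H56.EX
open Pool.Agent.H89.Perc (Vert Edge Config Pr half)

variable {L n : ℕ}

end Pool.Agent.H89.Link

end

section

/-! Topological lemmas on insertions of small arcs (EXACT project). -/

namespace Pool.Agent.H14.EX

open H56.EX

variable {L : ℕ}

/-- `e_{i+1}` moves a small arc at `i` to `i+1`. -/
lemma E_succ_ins (i : ℤ) (P : Pat L) : E (i + 1) (ins i P) = ins (i + 1) P := by
  have hL2 := P.two_le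
  have hL : 1 ≤ L := le_trans (by norm_num) hL2
  apply Pat.ext
  funext x
  rcases pos_cases hL (i + 1) x with h | h | ⟨y, rfl⟩
  · rw [E.of_i _ _ h, ins_i _ _ h]
  · rw [E.of_succ _ _ h, ins_succ _ _ h]
  · rw [ins_phi]
    obtain ⟨n1, n2⟩ := phi_not hL (i + 1) y
    by_cases hy : Cg L y i
    · -- the position is `≡ i`
      have e := phi_succ_of hL hy
      have c0 : Cg (L + 2) (phi L (i + 1) y) i := by
        rw [e]
        have := Cg.sub 2 (phi_Cg hL hy)
        rwa [show i + 2 - 2 = i by ring] at this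
      have hmy : ¬ Cg L (P.m y) i := by
        intro h
        exact P.not_dvd_self y (Cg.trans' h (Cg.symm' hy))
      have e1 : (ins i P).m (phi L (i + 1) y) = phi L (i + 1) y + 1 := ins_i _ _ c0
      rw [E.of_m _ _ n1 n2 (by rw [e1]; exact Cg.add 1 c0), e1, e,
        show phi L i y - 2 + 1 + 1 = phi L i y by ring, ins_phi, phi_succ_of_not hL hmy]
    · have e := phi_succ_of_not hL hy
      by_cases hmy : Cg L (P.m y) i
      · have e1 : (ins i P).m (phi L (i + 1) y) = phi L i (P.m y) := by rw [e, ins_phi]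
        have c2 : Cg (L + 2) (phi L i (P.m y)) (i + 1 + 1) := by
          have := phi_Cg hL hmy
          rwa [show i + 2 = i + 1 + 1 by ring] at this
        rw [E.of_m_succ _ _ n1 n2 (by rw [e1]; exact c2), e1]
        have c1 : Cg (L + 2) (phi L i (P.m y) - 1) (i + 1) := by
          have := Cg.sub 1 c2
          rwa [show i + 1 + 1 - 1 = i + 1 by ring] at this
        rw [ins_succ _ _ c1, phi_succ_of hL hmy]
        ring
      · have e1 : (ins i P).m (phi L (i + 1) y) = phi L (i + 1) (P.m y) := by
          rw [e, ins_phi, phi_succ_of_not hL hmy]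
        obtain ⟨m1, m2⟩ := phi_not hL (i + 1) (P.m y)
        rw [E.other _ _ n1 n2 (by rw [e1]; exact m1) (by rw [e1]; exact m2), e1]

/-- rotation of an insertion -/
lemma rot_ins (i : ℤ) (P : Pat L) : rot (ins i P) = ins (i + 1) (rot P) := by
  have hL : 1 ≤ L := le_trans (by norm_num) P.two_le
  apply Pat.ext
  funext x
  rw [rot_m]
  rcases pos_cases hL i (x - 1) with h | h | ⟨y, hy⟩
  · rw [ins_i _ _ h]
    have h' := Cg.add 1 h
    rw [show x - 1 + 1 = x by ring] at h'
    rw [ins_i _ _ h']
    ring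
  · rw [ins_succ _ _ h]
    have h' := Cg.add 1 h
    rw [show x - 1 + 1 = x by ring] at h'
    rw [ins_succ _ _ h']
    ring
  · rw [hy, ins_phi]
    have e : x = phi L (i + 1) (y + 1) := by rw [phi_shift, ← hy]; ring
    rw [e, ins_phi, rot_m, show y + 1 - 1 = y by ring, phi_shift]

/-- `e_j` commutes with the insertion at `j + 2` -/
lemma E_ins_far (j : ℤ) (P : Pat L) : E j (ins (j + 2) P) = ins (j + 2) (E j P) := by
  have hL2 := P.two_le
  have hL : 1 ≤ L := by omega
  apply Pat.ext
  funext x
  rcases pos_cases hL (j + 2) x with h | h | ⟨y, rfl⟩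
  · have n1 : ¬ Cg (L + 2) x j := by
      intro h'
      have h2 : Cg (L + 2) (j + 2) j := Cg.trans' (Cg.symm' h) h'
      have := Cg_eq h2 (by push_cast; omega) (by push_cast; omega)
      omega
    have n2 : ¬ Cg (L + 2) x (j + 1) := by
      intro h'
      have h2 : Cg (L + 2) (j + 2) (j + 1) := Cg.trans' (Cg.symm' h) h'
      have := Cg_eq h2 (by push_cast; omega) (by push_cast; omega)
      omega
    have e1 : (ins (j + 2) P).m x = x + 1 := ins_i _ _ h
    have hx1 := Cg.add 1 h
    have m1 : ¬ Cg (L + 2) (x + 1) j := by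
      intro h'
      have h2 : Cg (L + 2) (j + 2 + 1) j := Cg.trans' (Cg.symm' hx1) h'
      have := Cg_eq h2 (by push_cast; omega) (by push_cast; omega)
      omega
    have m2 : ¬ Cg (L + 2) (x + 1) (j + 1) := by
      intro h'
      have h2 : Cg (L + 2) (j + 2 + 1) (j + 1) := Cg.trans' (Cg.symm' hx1) h'
      have := Cg_eq h2 (by push_cast; omega) (by push_cast; omega)
      omega
    rw [E.other _ _ n1 n2 (by rw [e1]; exact m1) (by rw [e1]; exact m2), e1, ins_i _ _ h]
  · have n1 : ¬ Cg (L + 2) x j := by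
      intro h'
      have h2 : Cg (L + 2) (j + 2 + 1) j := Cg.trans' (Cg.symm' h) h'
      have := Cg_eq h2 (by push_cast; omega) (by push_cast; omega)
      omega
    have n2 : ¬ Cg (L + 2) x (j + 1) := by
      intro h'
      have h2 : Cg (L + 2) (j + 2 + 1) (j + 1) := Cg.trans' (Cg.symm' h) h'
      have := Cg_eq h2 (by push_cast; omega) (by push_cast; omega)
      omega
    have e1 : (ins (j + 2) P).m x = x - 1 := ins_succ _ _ h
    have hx1 := Cg.sub 1 h
    rw [show j + 2 + 1 - 1 = j + 2 by ring] at hx1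
    have m1 : ¬ Cg (L + 2) (x - 1) j := by
      intro h'
      have h2 : Cg (L + 2) (j + 2) j := Cg.trans' (Cg.symm' hx1) h'
      have := Cg_eq h2 (by push_cast; omega) (by push_cast; omega)
      omega
    have m2 : ¬ Cg (L + 2) (x - 1) (j + 1) := by
      intro h'
      have h2 : Cg (L + 2) (j + 2) (j + 1) := Cg.trans' (Cg.symm' hx1) h'
      have := Cg_eq h2 (by push_cast; omega) (by push_cast; omega)
      omega
    rw [E.other _ _ n1 n2 (by rw [e1]; exact m1) (by rw [e1]; exact m2), e1, ins_succ _ _ h]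
  · rw [ins_phi]
    obtain ⟨c1, c2⟩ := phi_far_Cg hL2 j y
    obtain ⟨d1, d2⟩ := phi_far_Cg hL2 j (P.m y)
    have e1 : (ins (j + 2) P).m (phi L (j + 2) y) = phi L (j + 2) (P.m y) := ins_phi _ _ _
    by_cases hy1 : Cg L y j
    · rw [E.of_i _ _ (c1.2 hy1), E.of_i _ _ hy1, phi_far_add hL2 hy1]
    by_cases hy2 : Cg L y (j + 1)
    · rw [E.of_succ _ _ (c2.2 hy2), E.of_succ _ _ hy2, phi_far_sub hL2 hy2]
    have n1 : ¬ Cg (L + 2) (phi L (j + 2) y) j := fun h => hy1 (c1.1 h)
    have n2 : ¬ Cg (L + 2) (phi L (j + 2) y) (j + 1) := fun h => hy2 (c2.1 h)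
    by_cases hm1 : Cg L (P.m y) j
    · rw [E.of_m _ _ n1 n2 (by rw [e1]; exact d1.2 hm1), E.of_m _ _ hy1 hy2 hm1, e1,
        ← phi_far_add hL2 hm1, ins_phi]
    by_cases hm2 : Cg L (P.m y) (j + 1)
    · rw [E.of_m_succ _ _ n1 n2 (by rw [e1]; exact d2.2 hm2), E.of_m_succ _ _ hy1 hy2 hm2, e1,
        ← phi_far_sub hL2 hm2, ins_phi]
    rw [E.other _ _ n1 n2 (by rw [e1]; exact fun h => hm1 (d1.1 h))
      (by rw [e1]; exact fun h => hm2 (d2.1 h)), E.other _ _ hy1 hy2 hm1 hm2, e1]

lemma rot_injective : Function.Injective (rot (L := L)) := by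
  intro P Q h
  apply Pat.ext
  funext x
  have h1 : (rot P).m (x + 1) = (rot Q).m (x + 1) := by rw [h]
  rw [rot_m, rot_m, show x + 1 - 1 = x by ring] at h1
  linarith

lemma rot_surjective : Function.Surjective (rot (L := L)) :=
  (Finite.injective_iff_surjective).1 rot_injective

/-- The base pattern of size `L+2`. -/
lemma base_ins (P : Pat L) (h : IsBase P) : ∃ B : Pat (L + 2), IsBase B ∧ ins 0 P = rot B := by
  have hL2 := P.two_le
  have hL : 1 ≤ L := by omega
  obtain ⟨B, hB⟩ := rot_surjective (ins 0 P)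
  refine ⟨B, ?_, hB.symm⟩
  intro x h1 h2
  push_cast at h1 h2
  have e : B.m x = (ins 0 P).m (x + 1) - 1 := by
    rw [← hB, rot_m, show x + 1 - 1 = x by ring]; ring
  rw [e]
  have pos : ∀ s : ℤ, 0 ≤ s → s < L → phi L 0 s = s + 2 := by
    intro s hs0 hs1
    have := phi_form hL 0 0 s hs0 hs1
    rw [show (0 : ℤ) + s + L * 0 = s by ring] at this
    rw [this]; ring
  have neg : ∀ s : ℤ, -(L : ℤ) ≤ s → s < 0 → phi L 0 s = s := by
    intro s hs0 hs1
    have := phi_form hL 0 (-1) (s + L) (by omega) (by omega)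
    rw [show (0 : ℤ) + (s + L) + L * (-1) = s by ring] at this
    rw [this]; ring
  rcases lt_trichotomy x (-1) with hx | hx | hx
  · -- `x + 1 < 0`
    have e1 : x + 1 = phi L 0 (x + 1) := (neg (x + 1) (by omega) (by omega)).symm
    have e2 : (ins 0 P).m (x + 1) = phi L 0 (P.m (x + 1)) := by
      conv_lhs => rw [e1]
      exact ins_phi _ _ _
    rw [e2, h (x + 1) (by omega) (by omega), pos _ (by omega) (by omega)]
    ring
  · subst hx
    have c : Cg (L + 2) (-1 + 1) 0 := Cg.refl' _
    rw [ins_i _ _ c]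
    ring
  · rcases eq_or_lt_of_le (show 0 ≤ x by omega) with hx0 | hx0
    · subst hx0
      have c : Cg (L + 2) (0 + 1) (0 + 1) := Cg.refl' _
      rw [ins_succ _ _ c]
      ring
    · have e1 : x + 1 = phi L 0 (x - 1) := by
        rw [pos (x - 1) (by omega) (by omega)]; ring
      have e2 : (ins 0 P).m (x + 1) = phi L 0 (P.m (x - 1)) := by
        rw [e1]
        exact ins_phi _ _ _
      rw [e2, h (x - 1) (by omega) (by omega), neg _ (by omega) (by omega)]
      ring

end Pool.Agent.H14.EX

end

section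

/-!
# Interface for the construction of the polynomial qKZ solution

`PsiPre Ψ` collects the properties of `Ψ` which are obtained directly from the construction; the arc
recursion (`arc_zero`, `arc` of `PsiProps`) is derived from `PsiPre` and the triangularity lemma.
-/

namespace Pool.Agent.H12.QKZ

open H56.EX

/-- The statement of the triangularity lemma: a family satisfying the exchange relations and
rotation covariance on a set `O` of (states of) parameters with neighbouring parameters different,
and whose base component vanishes on `O`, vanishes on `O`. -/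
def Triangular : Prop :=
  ∀ (L : ℕ) (Ω : Type) (O : Set Ω) (s : ℤ → Ω → Ω) (r : Ω → Ω) (z : Ω → ℤ → ℂ)
    (D : Pat L → Ω → ℂ),
    (∀ i, ∀ ω ∈ O, s i ω ∈ O) →
    (∀ ω ∈ O, ∃ ω' ∈ O, r ω' = ω) →
    (∀ ω ∈ O, ∀ i, z ω i ≠ z ω (i + 1)) →
    (∀ (P : Pat L), ∀ ω ∈ O, ∀ i : ℤ,
      (q * z ω (i + 1) - q⁻¹ * z ω i) * D P (s i ω) =
        (q * z ω i - q⁻¹ * z ω (i + 1)) * D P ω +
          (z ω i - z ω (i + 1)) * eop i (fun P' => D P' ω) P) →
    (∀ (P : Pat L), ∀ ω ∈ O, D (rot P) (r ω) = D P ω) →
    (∀ (P : Pat L), IsBase P → ∀ ω ∈ O, D P ω = 0) →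
    ∀ (P : Pat L), ∀ ω ∈ O, D P ω = 0

end Pool.Agent.H12.QKZ

end

section

/-! Arc recursion of the polynomial qKZ solution (EXACT project): `arc_zero_of`, `arc_of`. -/

namespace Pool.Agent.H14.EX

open H56.EX Pool.Agent.H12.QKZ

variable {L : ℕ}

/-! ### Push-forwards -/

lemma pf_comp {L M N : ℕ} (f : Pat M → Pat N) (g : Pat L → Pat M) (v : Pat L → ℂ) :
    pf f (pf g v) = pf (fun P => f (g P)) v := by
  funext Q
  unfold pf
  have h1 : ∀ P' : Pat M, (if f P' = Q then ∑ P : Pat L, (if g P = P' then v P else 0) else 0) =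
      ∑ P : Pat L, (if g P = P' then (if f (g P) = Q then v P else 0) else 0) := by
    intro P'
    split_ifs with h
    · apply Finset.sum_congr rfl
      intro P _
      by_cases h2 : g P = P'
      · rw [if_pos h2, if_pos h2, h2, if_pos h]
      · rw [if_neg h2, if_neg h2]
    · symm
      apply Finset.sum_eq_zero
      intro P _
      by_cases h2 : g P = P'
      · rw [if_pos h2, h2, if_neg h]
      · rw [if_neg h2]
  simp only [h1]
  rw [Finset.sum_comm]
  apply Finset.sum_congr rfl
  intro P _
  rw [Finset.sum_ite_eq]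
  simp

/-- push-forward of a vector supported on the range of an injective map -/
lemma sum_ins (i : ℤ) (g : Pat (L + 2) → ℂ) (hL : 2 ≤ L)
    (h : ∀ P, P.m i ≠ i + 1 → g P = 0) : ∑ P : Pat (L + 2), g P = ∑ P : Pat L, g (ins i P) := by
  symm
  apply Fintype.sum_of_injective (ins i) (ins_injective i)
  · intro P hP
    apply h
    intro h2
    obtain ⟨Q, hQ⟩ := exists_ins hL i P h2
    exact hP ⟨Q, hQ.symm⟩
  · intro P; rfl

/-! ### `arc_zero` -/

/-- no pattern is mapped by `E i` to a pattern without small arc at `i` -/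
lemma eop_zero (i : ℤ) (v : Pat L → ℂ) {P : Pat L} (h : P.m i ≠ i + 1) : eop i v P = 0 := by
  unfold eop
  apply Finset.sum_eq_zero
  intro P' _
  rw [if_neg]
  intro h2
  apply h
  rw [← h2, E.self]

variable {Ψ : ∀ L : ℕ, Pat L → (ℤ → ℂ) → ℂ}

/-- continuity of a component along a curve of parameters -/
lemma Psi_continuous (h : PsiPre Ψ) (P : Pat L) (γ : ℂ → ℤ → ℂ)
    (hγ : ∀ x : ℤ, Continuous fun t => γ t x) : Continuous fun t => Ψ L P (γ t) := by
  obtain ⟨p, hp⟩ := h.mv L P
  have e : (fun t => Ψ L P (γ t)) =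
      fun t => MvPolynomial.eval (fun k : Fin L => γ t ((k : ℕ) : ℤ)) p := by
    funext t
    exact hp _
  rw [e]
  exact (MvPolynomial.continuous_eval p).comp (continuous_pi fun k => hγ _)

theorem arc_zero_of (h : PsiPre Ψ) : ∀ (L : ℕ) (P : Pat L) (ζ : ℤ → ℂ), Per L ζ → ∀ i : ℤ,
    ζ i = q ^ 2 * ζ (i + 1) → P.m i ≠ i + 1 → Ψ L P ζ = 0 := by
  intro L P ζ hper i hi hP
  have hL2 := P.two_le
  -- nonzero case
  have key : ∀ ζ : ℤ → ℂ, Per L ζ → ζ i = q ^ 2 * ζ (i + 1) → ζ (i + 1) ≠ 0 → Ψ L P ζ = 0 := by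
    intro ζ hper hi h0
    have hex := h.exch L P ζ hper i
    rw [eop_zero i _ hP, mul_zero, add_zero, hi, q_inv] at hex
    have e1 : q * ζ (i + 1) - q ^ 2 * (q ^ 2 * ζ (i + 1)) = 0 := by
      linear_combination (- ζ (i + 1)) * q4
    have e2 : q * (q ^ 2 * ζ (i + 1)) - q ^ 2 * ζ (i + 1) = (1 - q ^ 2) * ζ (i + 1) := by
      linear_combination (ζ (i + 1)) * _root_.H56.EX.q_cube
    rw [e1, e2, zero_mul] at hex
    have h1 : (1 - q ^ 2) ≠ 0 := by
      intro h1
      have h2 : q ^ 2 = 1 := by linear_combination -h1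
      have h3 := _root_.H56.EX.q_cube
      have h4 : q = 1 := by
        calc q = q ^ 2 * q := by rw [h2, one_mul]
          _ = q ^ 3 := by ring
          _ = 1 := h3
      exact q_ne_one h4
    rcases mul_eq_zero.1 hex.symm with h2 | h2
    · exact absurd h2 (mul_ne_zero h1 h0)
    · exact h2
  by_cases h0 : ζ (i + 1) = 0
  · -- the curve `t ↦ (q² t, t)`
    let γ : ℂ → ℤ → ℂ := fun t => upd L (upd L ζ i (q ^ 2 * t)) (i + 1) t
    have hγ : ∀ x : ℤ, Continuous fun t => γ t x := by
      intro x
      simp only [γ, upd]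
      split_ifs
      · exact continuous_id
      · fun_prop
      · exact continuous_const
    have c1 : Cg L (i + 1) (i + 1) := Cg.refl' _
    have c2 : Cg L i i := Cg.refl' _
    have c3 : ¬ Cg L i (i + 1) := not_Cg_succ hL2 i
    have hγ1 : ∀ t, γ t (i + 1) = t := by
      intro t; simp only [γ, upd, if_pos c1]
    have hγ0 : ∀ t, γ t i = q ^ 2 * t := by
      intro t; simp only [γ, upd, if_neg c3, if_pos c2]
    have hγper : ∀ t, Per L (γ t) := by
      intro t x
      have e1 : Cg L (x + L) (i + 1) ↔ Cg L x (i + 1) := by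
        have hx : Cg L (x + L) x := ⟨1, by ring⟩
        exact ⟨fun h => Cg.trans' (Cg.symm' hx) h, fun h => Cg.trans' hx h⟩
      have e2 : Cg L (x + L) i ↔ Cg L x i := by
        have hx : Cg L (x + L) x := ⟨1, by ring⟩
        exact ⟨fun h => Cg.trans' (Cg.symm' hx) h, fun h => Cg.trans' hx h⟩
      simp only [γ, upd, e1, e2, hper x]
    have hc := Psi_continuous h P γ hγ
    have hz : ∀ t : ℂ, t ≠ 0 → Ψ L P (γ t) = 0 := by
      intro t ht
      exact key (γ t) (hγper t) (by rw [hγ0, hγ1]) (by rw [hγ1]; exact ht)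
    have hall : (fun t => Ψ L P (γ t)) = fun _ => (0 : ℂ) := by
      apply Continuous.ext_on (s := ({0}ᶜ : Set ℂ)) (dense_compl_singleton 0) hc continuous_const
      intro t ht
      exact hz t ht
    have h00 : Ψ L P (γ 0) = 0 := congrFun hall 0
    have e : γ 0 = ζ := by
      funext x
      simp only [γ, upd]
      split_ifs with h1 h2
      · obtain ⟨a, rfl⟩ := Cg_def.1 h1
        have : ζ (i + 1 + L * a) = ζ (i + 1) := by
          clear h1
          induction a using Int.induction_on with
          | zero => simp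
          | succ a ih =>
            rw [show i + 1 + (L : ℤ) * (a + 1) = i + 1 + L * a + L by ring, hper, ih]
          | pred a ih =>
            have := hper (i + 1 + (L : ℤ) * (-a - 1))
            rw [show i + 1 + (L : ℤ) * (-a - 1) + L = i + 1 + L * -a by ring, ih] at this
            exact this.symm
        rw [this, h0]
      · obtain ⟨a, rfl⟩ := Cg_def.1 h2
        have : ζ (i + L * a) = ζ i := by
          clear h2 h1
          induction a using Int.induction_on with
          | zero => simp
          | succ a ih =>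
            rw [show i + (L : ℤ) * (a + 1) = i + L * a + L by ring, hper, ih]
          | pred a ih =>
            have := hper (i + (L : ℤ) * (-a - 1))
            rw [show i + (L : ℤ) * (-a - 1) + L = i + L * -a by ring, ih] at this
            exact this.symm
        rw [this, hi, h0]
      · rfl
    rw [e] at h00
    exact h00
  · exact key ζ hper hi h0

/-! ### Insertion of the parameters `q² w, w` -/

/-- moving the inserted pair by one step -/
lemma insp_move (hL : 2 ≤ L) (i : ℤ) (w : ℂ) (ξ : ℤ → ℂ) :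
    swp (L + 2) i (swp (L + 2) (i + 1) (insp L i w ξ)) = insp L (i + 1) w ξ := by
  have hL1 : 1 ≤ L := by omega
  have far : ∀ {x c d : ℤ}, Cg (L + 2) x c → c ≠ d → c - d < L + 2 → d - c < L + 2 →
      ¬ Cg (L + 2) x d := by
    intro x c d h1 h2 h3 h4 h5
    exact h2 (Cg_eq (Cg.trans' (Cg.symm' h1) h5) (by push_cast; omega) (by push_cast; omega))
  funext x
  rcases pos_cases hL1 (i + 1) x with hx | hx | ⟨y, rfl⟩
  · -- `x ≡ i + 1`
    have hx' : Cg (L + 2) (x - 1) i := by
      have := Cg.sub 1 hx
      rwa [show i + 1 - 1 = i by ring] at this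
    rw [swp_succ (by omega) hx, swp_other (far hx' (by omega) (by omega) (by omega))
      (far hx' (by omega) (by omega) (by omega)), insp_i hx', insp_i hx]
  · -- `x ≡ i + 2`
    have hx' : Cg (L + 2) (x - 1) (i + 1) := by
      have := Cg.sub 1 hx
      rwa [show i + 1 + 1 - 1 = i + 1 by ring] at this
    rw [swp_other (far hx (by omega) (by omega) (by omega))
      (far hx (by omega) (by omega) (by omega)), swp_succ (by omega) hx, insp_succ hx',
      insp_succ hx]
  · rw [insp_phi hL1]
    obtain ⟨n1, n2⟩ := phi_not hL1 (i + 1) y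
    by_cases hy : Cg L y i
    · have e := phi_succ_of hL1 hy
      have c2 := phi_Cg hL1 hy
      have c0 : Cg (L + 2) (phi L (i + 1) y) i := by
        rw [e]
        have := Cg.sub 2 c2
        rwa [show i + 2 - 2 = i by ring] at this
      rw [swp_i c0, swp_i (Cg.add 1 c0), e, show phi L i y - 2 + 1 + 1 = phi L i y by ring,
        insp_phi hL1]
    · have e := phi_succ_of_not hL1 hy
      have n0 : ¬ Cg (L + 2) (phi L (i + 1) y) i := by
        rw [e]; exact (phi_not hL1 i y).1
      rw [swp_other n0 n1, swp_other n1 n2, e, insp_phi hL1]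

/-- exchange of parameters away from the inserted pair -/
lemma insp_swp (hL : 2 ≤ L) (j : ℤ) (w : ℂ) (ξ : ℤ → ℂ) :
    swp (L + 2) j (insp L (j + 2) w ξ) = insp L (j + 2) w (swp L j ξ) := by
  have hL1 : 1 ≤ L := by omega
  have far : ∀ {x c d : ℤ}, Cg (L + 2) x c → c ≠ d → c - d < L + 2 → d - c < L + 2 →
      ¬ Cg (L + 2) x d := by
    intro x c d h1 h2 h3 h4 h5
    exact h2 (Cg_eq (Cg.trans' (Cg.symm' h1) h5) (by push_cast; omega) (by push_cast; omega))
  funext x
  rcases pos_cases hL1 (j + 2) x with hx | hx | ⟨y, rfl⟩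
  · rw [swp_other (far hx (by omega) (by omega) (by omega))
      (far hx (by omega) (by omega) (by omega)), insp_i hx, insp_i hx]
  · rw [swp_other (far hx (by omega) (by omega) (by omega))
      (far hx (by omega) (by omega) (by omega)), insp_succ hx, insp_succ hx]
  · rw [insp_phi hL1]
    obtain ⟨c1, c2⟩ := phi_far_Cg hL j y
    by_cases hy1 : Cg L y j
    · rw [swp_i (c1.2 hy1), swp_i hy1, ← phi_far_add hL hy1, insp_phi hL1]
    by_cases hy2 : Cg L y (j + 1)
    · rw [swp_succ (by omega) (c2.2 hy2), swp_succ hL hy2, ← phi_far_sub hL hy2, insp_phi hL1]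
    rw [swp_other (fun h => hy1 (c1.1 h)) (fun h => hy2 (c2.1 h)), swp_other hy1 hy2,
      insp_phi hL1]

/-! ### The inserted vector -/

/-- `e_i` fixes the solution at `ζ_i = q² ζ_{i+1}` -/
lemma eop_fix (h : PsiPre Ψ) {N : ℕ} {ζ : ℤ → ℂ} (hper : Per N ζ) {i : ℤ}
    (hi : ζ i = q ^ 2 * ζ (i + 1)) : eop i (fun P => Ψ N P ζ) = fun P => Ψ N P ζ := by
  funext Q
  unfold eop
  have e : ∀ P' : Pat N, (if E i P' = Q then Ψ N P' ζ else 0) =
      (if P' = Q then Ψ N P' ζ else 0) := by
    intro P'
    by_cases hP : P'.m i = i + 1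
    · rw [E.eq_self P' i hP]
    · rw [arc_zero_of h N P' ζ hper i hi hP]
      simp
  simp only [e, Finset.sum_ite_eq', Finset.mem_univ, if_true]

/-- step (1): the inserted pair can be moved -/
lemma move_vec (h : PsiPre Ψ) (hL : 2 ≤ L) {ξ : ℤ → ℂ} (hper : Per L ξ) (i : ℤ) {w : ℂ}
    (hw : ξ i ≠ w) (hqw : ξ i ≠ q * w) (Q : Pat (L + 2)) :
    Ψ (L + 2) Q (insp L (i + 1) w ξ) =
      eop (i + 1) (fun P => Ψ (L + 2) P (insp L i w ξ)) Q := by
  have hL1 : 1 ≤ L := by omega
  set ζ := insp L i w ξ with hζ
  set b := ξ i with hb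
  have hζper : Per (L + 2) ζ := insp_Per hL1 hper i w
  have z0 : ζ i = q ^ 2 * w := insp_i (Cg.refl' _)
  have z1 : ζ (i + 1) = w := insp_succ (Cg.refl' _)
  have z2 : ζ (i + 1 + 1) = b := by
    have e := phi_form hL1 i 0 0 le_rfl (by omega)
    rw [show i + 0 + (L : ℤ) * 0 = i by ring, show i + 0 + 2 + ((L : ℤ) + 2) * 0 = i + 1 + 1 by
      ring] at e
    rw [← e, hζ, insp_phi hL1]
  set v : Pat (L + 2) → ℂ := fun P => Ψ (L + 2) P ζ with hv
  set ζ' := swp (L + 2) (i + 1) ζ with hζ'
  have far : ∀ {x c d : ℤ}, Cg (L + 2) x c → c ≠ d → c - d < L + 2 → d - c < L + 2 →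
      ¬ Cg (L + 2) x d := by
    intro x c d h1 h2 h3 h4 h5
    exact h2 (Cg_eq (Cg.trans' (Cg.symm' h1) h5) (by push_cast; omega) (by push_cast; omega))
  have y0 : ζ' i = q ^ 2 * w := by
    rw [hζ', swp_other (far (Cg.refl' i) (by omega) (by omega) (by omega))
      (far (Cg.refl' i) (by omega) (by omega) (by omega)), z0]
  have y1 : ζ' (i + 1) = b := by rw [hζ', swp_i (Cg.refl' _), z2]
  have hζ'per : Per (L + 2) ζ' := by
    intro x
    have hd : Cg (L + 2) (x + ((L + 2 : ℕ) : ℤ)) x := ⟨1, by ring⟩
    by_cases h1 : Cg (L + 2) x (i + 1)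
    · rw [hζ', swp_i h1, swp_i (Cg.trans' hd h1),
        show x + ((L + 2 : ℕ) : ℤ) + 1 = x + 1 + ((L + 2 : ℕ) : ℤ) by ring, hζper]
    by_cases h2 : Cg (L + 2) x (i + 1 + 1)
    · rw [hζ', swp_succ (by omega) h2, swp_succ (by omega) (Cg.trans' hd h2),
        show x + ((L + 2 : ℕ) : ℤ) - 1 = x - 1 + ((L + 2 : ℕ) : ℤ) by ring, hζper]
    · rw [hζ', swp_other h1 h2, swp_other (fun h => h1 (Cg.trans' (Cg.symm' hd) h))
        (fun h => h2 (Cg.trans' (Cg.symm' hd) h)), hζper]
  have hmove : swp (L + 2) i ζ' = insp L (i + 1) w ξ := insp_move hL i w ξ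
  -- exchange relations
  have ex1 : ∀ P, (q * b - q⁻¹ * w) * Ψ (L + 2) P ζ' =
      (q * w - q⁻¹ * b) * v P + (w - b) * eop (i + 1) v P := by
    intro P
    have := h.exch (L + 2) P ζ hζper (i + 1)
    rw [z1, z2] at this
    exact this
  have ex2 := h.exch (L + 2) Q ζ' hζ'per i
  rw [y0, y1, hmove] at ex2
  have hfix : eop i v = v := eop_fix h hζper (by rw [z0, z1])
  -- `e_i e_{i+1} v = v`
  have htl : eop i (eop (i + 1) v) = v := by
    have e1 : eop i (eop (i + 1) (eop i v)) = eop i v := by
      rw [eop_eq_pf i v, eop_eq_pf (i + 1), eop_eq_pf i, pf_comp, pf_comp]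
      congr 1
      funext P
      exact E_braid i P (by omega)
    rw [hfix] at e1
    exact e1
  -- `A e_i u = B v + (w - b) v`
  have ex3 : (q * b - q⁻¹ * w) * eop i (fun P => Ψ (L + 2) P ζ') Q =
      (q * w - q⁻¹ * b) * v Q + (w - b) * v Q := by
    have e1 : (q * b - q⁻¹ * w) * eop i (fun P => Ψ (L + 2) P ζ') Q =
        (q * w - q⁻¹ * b) * eop i v Q + (w - b) * eop i (eop (i + 1) v) Q := by
      unfold eop
      rw [Finset.mul_sum, Finset.mul_sum, Finset.mul_sum, ← Finset.sum_add_distrib]
      apply Finset.sum_congr rfl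
      intro P _
      have := ex1 P
      unfold eop at this
      split_ifs
      · exact this
      · ring
    rw [e1, hfix, htl]
  have hA : (q * b - q⁻¹ * w) ≠ 0 := by
    intro h0
    apply hqw
    rw [q_inv] at h0
    have h1 : q ^ 2 * (q * b - q ^ 2 * w) = 0 := by rw [h0, mul_zero]
    linear_combination h1 - b * _root_.H56.EX.q_cube + w * q4
  have hC : (q * b - q⁻¹ * (q ^ 2 * w)) ≠ 0 := by
    intro h0
    apply hw
    rw [q_inv] at h0
    have h1 : q ^ 2 * (q * b - q ^ 2 * (q ^ 2 * w)) = 0 := by rw [h0, mul_zero]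
    linear_combination h1 - b * _root_.H56.EX.q_cube + (w * (q ^ 3 + 1)) * _root_.H56.EX.q_cube
  have ex4 := ex1 Q
  apply mul_left_cancel₀ (mul_ne_zero hA hC)
  have goal : (q * b - q⁻¹ * w) * ((q * b - q⁻¹ * (q ^ 2 * w)) *
      Ψ (L + 2) Q (insp L (i + 1) w ξ)) = (q * b - q⁻¹ * w) * (q * b - q⁻¹ * (q ^ 2 * w)) *
      eop (i + 1) v Q := by
    rw [ex2]
    have e1 : (q * b - q⁻¹ * w) * ((q * (q ^ 2 * w) - q⁻¹ * b) * Ψ (L + 2) Q ζ' +
        (q ^ 2 * w - b) * eop i (fun P' => Ψ (L + 2) P' ζ') Q) =
        (q * (q ^ 2 * w) - q⁻¹ * b) * ((q * b - q⁻¹ * w) * Ψ (L + 2) Q ζ') +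
        (q ^ 2 * w - b) * ((q * b - q⁻¹ * w) * eop i (fun P' => Ψ (L + 2) P' ζ') Q) := by ring
    rw [e1, ex3, ex4, q_inv]
    linear_combination (-(b * w * v Q) + b ^ 2 * v Q - q * b ^ 2 * v Q + q ^ 2 * w ^ 2 * v Q -
      q ^ 2 * b * w * eop (i + 1) v Q + q ^ 2 * b ^ 2 * v Q + q ^ 3 * w ^ 2 * eop (i + 1) v Q +
      q ^ 3 * b * w * eop (i + 1) v Q - q ^ 3 * b * w * v Q -
      q ^ 4 * w ^ 2 * eop (i + 1) v Q) * q_sq
  rw [← goal]
  ring

lemma ins_inj_iff (i : ℤ) (P Q : Pat L) : ins i P = ins i Q ↔ P = Q :=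
  ⟨fun h => ins_injective i h, fun h => by rw [h]⟩

/-- step (1) for the components -/
lemma Th_succ (h : PsiPre Ψ) (hL : 2 ≤ L) {ξ : ℤ → ℂ} (hper : Per L ξ) (i : ℤ) {w : ℂ}
    (hw : ξ i ≠ w) (hqw : ξ i ≠ q * w) (P : Pat L) : Th Ψ (i + 1) w P ξ = Th Ψ i w P ξ := by
  have hL1 : 1 ≤ L := by omega
  unfold Th
  rw [move_vec h hL hper i hw hqw]
  have hζper : Per (L + 2) (insp L i w ξ) := insp_Per hL1 hper i w
  have z0 : insp L i w ξ i = q ^ 2 * insp L i w ξ (i + 1) := by
    rw [insp_i (Cg.refl' _), insp_succ (Cg.refl' _)]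
  unfold eop
  rw [sum_ins i _ hL]
  · simp only [E_succ_ins, ins_inj_iff, Finset.sum_ite_eq', Finset.mem_univ, if_true]
  · intro P' hP'
    show (if E (i + 1) P' = ins (i + 1) P then Ψ (L + 2) P' (insp L i w ξ) else 0) = 0
    rw [arc_zero_of h _ P' _ hζper i z0 hP']
    simp

/-- step (1), all positions -/
lemma Th_indep (h : PsiPre Ψ) (hL : 2 ≤ L) {ξ : ℤ → ℂ} (hper : Per L ξ) {w : ℂ}
    (hw : ∀ x, ξ x ≠ w ∧ ξ x ≠ q * w) (P : Pat L) (i : ℤ) : Th Ψ i w P ξ = Th Ψ 0 w P ξ := by
  induction i using Int.induction_on with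
  | zero => rfl
  | succ a ih => rw [Th_succ h hL hper _ (hw _).1 (hw _).2, ih]
  | pred a ih =>
    have := Th_succ h hL hper (-(a : ℤ) - 1) (hw _).1 (hw _).2 P
    rw [show -(a : ℤ) - 1 + 1 = -a by ring, ih] at this
    exact this.symm

/-- step (2): exchange relation for the inserted vector -/
lemma Th_exch (h : PsiPre Ψ) (hL : 2 ≤ L) {ξ : ℤ → ℂ} (hper : Per L ξ) (j : ℤ) (w : ℂ)
    (P : Pat L) :
    (q * ξ (j + 1) - q⁻¹ * ξ j) * Th Ψ (j + 2) w P (swp L j ξ) =
      (q * ξ j - q⁻¹ * ξ (j + 1)) * Th Ψ (j + 2) w P ξ +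
        (ξ j - ξ (j + 1)) * eop j (fun P' => Th Ψ (j + 2) w P' ξ) P := by
  have hL1 : 1 ≤ L := by omega
  have hζper : Per (L + 2) (insp L (j + 2) w ξ) := insp_Per hL1 hper _ w
  have hex := h.exch (L + 2) (ins (j + 2) P) _ hζper j
  rw [(insp_apply_j hL j w ξ).1, (insp_apply_j hL j w ξ).2, insp_swp hL] at hex
  have z0 : insp L (j + 2) w ξ (j + 2) = q ^ 2 * insp L (j + 2) w ξ (j + 2 + 1) := by
    rw [insp_i (Cg.refl' _), insp_succ (Cg.refl' _)]
  have e : eop j (fun P' => Ψ (L + 2) P' (insp L (j + 2) w ξ)) (ins (j + 2) P) =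
      eop j (fun P' => Th Ψ (j + 2) w P' ξ) P := by
    unfold eop
    rw [sum_ins (j + 2) _ hL]
    · simp only [E_ins_far, ins_inj_iff]
      rfl
    · intro P' hP'
      show (if E j P' = ins (j + 2) P then Ψ (L + 2) P' (insp L (j + 2) w ξ) else 0) = 0
      rw [arc_zero_of h _ P' _ hζper (j + 2) z0 hP']
      simp
  rw [e] at hex
  exact hex

/-- step (3): rotation -/
lemma Th_rot (h : PsiPre Ψ) (hL : 1 ≤ L) {ξ : ℤ → ℂ} (hper : Per L ξ) (i : ℤ) (w : ℂ)
    (P : Pat L) : Th Ψ (i + 1) w (rot P) (fun x => ξ (x - 1)) = Th Ψ i w P ξ := by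
  unfold Th
  rw [← rot_ins, ← insp_rot hL]
  exact h.rot (L + 2) (ins i P) _ (insp_Per hL hper i w)

/-- one factor of the base component -/
lemma base_factor (x w : ℂ) : (q * x - q⁻¹ * w) / (q - q⁻¹) * ((q * (q ^ 2 * w) - q⁻¹ * x) /
    (q - q⁻¹)) = (x - q * w) ^ 2 / 3 := by
  have h3 : (q - q⁻¹) * (q - q⁻¹) = -3 := by
    rw [q_inv]
    linear_combination (q ^ 2 - 3 * q + 3) * q_sq
  have h0 : (q - q⁻¹) ≠ 0 := by
    intro h0
    rw [h0] at h3
    norm_num at h3
  rw [div_mul_div_comm, h3, q_inv]
  rw [div_eq_div_iff (by norm_num) (by norm_num)]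
  linear_combination (3 * x ^ 2 - 6 * q * x * w - 3 * q * x ^ 2 + 3 * q ^ 2 * w ^ 2 +
    6 * q ^ 2 * x * w - 3 * q ^ 3 * w ^ 2) * q_sq

lemma base_factor0 (w : ℂ) : (q * (q ^ 2 * w) - q⁻¹ * w) / (q - q⁻¹) = -q * w := by
  have h3 : (q - q⁻¹) * (q - q⁻¹) = -3 := by
    rw [q_inv]
    linear_combination (q ^ 2 - 3 * q + 3) * q_sq
  have h0 : (q - q⁻¹) ≠ 0 := by
    intro h0
    rw [h0] at h3
    norm_num at h3
  rw [div_eq_iff h0, q_inv]
  ring

/-- step (4): the base component -/
lemma Th_base (h : PsiPre Ψ) {ξ : ℤ → ℂ} (hper : Per L ξ) (w : ℂ)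
    (P : Pat L) (hP : IsBase P) : Th Ψ 0 w P ξ =
      (-q * w * (∏ s ∈ Finset.range L, (ξ s - q * w) ^ 2) / 3 ^ L) * Ψ L P ξ := by
  have hL2 := P.two_le
  have hL1 : 1 ≤ L := by omega
  obtain ⟨B, hB, hBe⟩ := base_ins P hP
  unfold Th
  rw [hBe]
  set ζ' : ℤ → ℂ := fun x => insp L 0 w ξ (x + 1) with hζ'
  have hζper : Per (L + 2) (insp L 0 w ξ) := insp_Per hL1 hper 0 w
  have hζ'per : Per (L + 2) ζ' := by
    intro x
    simp only [hζ']
    rw [show x + ((L + 2 : ℕ) : ℤ) + 1 = x + 1 + ((L + 2 : ℕ) : ℤ) by ring, hζper]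
  have e1 : insp L 0 w ξ = fun x => ζ' (x - 1) := by
    funext x
    simp only [hζ']
    rw [show x - 1 + 1 = x by ring]
  rw [e1, h.rot (L + 2) B ζ' hζ'per, h.base (L + 2) B ζ' hB, h.base L P ξ hP]
  -- values of `ζ'`
  have v0 : ζ' ((0 : ℕ) : ℤ) = w := by
    simp only [hζ']
    exact insp_succ ⟨0, by simp⟩
  have v1 : ∀ s : ℕ, s < L → ζ' ((s + 1 : ℕ) : ℤ) = ξ s := by
    intro s hs
    simp only [hζ']
    have := phi_form hL1 0 0 s (by omega) (by omega)
    rw [show (0 : ℤ) + s + L * 0 = s by ring] at this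
    have e : (((s + 1 : ℕ) : ℤ) + 1) = phi L 0 s := by rw [this]; push_cast; ring
    rw [e, insp_phi hL1]
  have v2 : ζ' ((L + 1 : ℕ) : ℤ) = q ^ 2 * w := by
    simp only [hζ']
    apply insp_i
    exact ⟨1, by push_cast; ring⟩
  -- the products
  rw [Finset.prod_range_succ]
  have p1 : ∏ i ∈ Finset.range (L + 1), (q * ζ' ((L + 1 : ℕ) : ℤ) - q⁻¹ * ζ' (i : ℤ)) /
      (q - q⁻¹) = (∏ s ∈ Finset.range L, (q * (q ^ 2 * w) - q⁻¹ * ξ s) / (q - q⁻¹)) *
        (-q * w) := by
    rw [Finset.prod_range_succ', v0, v2, base_factor0]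
    congr 1
    apply Finset.prod_congr rfl
    intro s hs
    rw [v1 s (Finset.mem_range.1 hs)]
  have p2 : ∏ j ∈ Finset.range (L + 1), ∏ i ∈ Finset.range j,
      (q * ζ' (j : ℤ) - q⁻¹ * ζ' (i : ℤ)) / (q - q⁻¹) =
      (∏ s ∈ Finset.range L, (q * ξ s - q⁻¹ * w) / (q - q⁻¹)) *
        ∏ j ∈ Finset.range L, ∏ i ∈ Finset.range j, (q * ξ j - q⁻¹ * ξ i) / (q - q⁻¹) := by
    rw [Finset.prod_range_succ', Finset.range_zero, Finset.prod_empty, mul_one,
      ← Finset.prod_mul_distrib]
    apply Finset.prod_congr rfl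
    intro s hs
    rw [Finset.mem_range] at hs
    rw [Finset.prod_range_succ', v0, v1 s hs, mul_comm]
    congr 1
    apply Finset.prod_congr rfl
    intro t ht
    rw [Finset.mem_range] at ht
    rw [v1 t (by omega)]
  rw [p1, p2]
  have p3 : (∏ s ∈ Finset.range L, (ξ s - q * w) ^ 2) / 3 ^ L =
      (∏ s ∈ Finset.range L, (q * ξ s - q⁻¹ * w) / (q - q⁻¹)) *
      (∏ s ∈ Finset.range L, (q * (q ^ 2 * w) - q⁻¹ * ξ s) / (q - q⁻¹)) := by
    rw [← Finset.prod_mul_distrib]
    have : ∀ s ∈ Finset.range L, (q * ξ (s : ℤ) - q⁻¹ * w) / (q - q⁻¹) *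
        ((q * (q ^ 2 * w) - q⁻¹ * ξ s) / (q - q⁻¹)) = (ξ s - q * w) ^ 2 / 3 :=
      fun s _ => base_factor _ _
    rw [Finset.prod_congr rfl this, Finset.prod_div_distrib, Finset.prod_const, Finset.card_range]
  rw [mul_div_assoc, p3]
  ring

/-! ### Products over a period -/

lemma prod_period {ψ : ℤ → ℂ} (h : Per L ψ) (i : ℤ) :
    ∏ s ∈ Finset.range L, ψ (i + s) = ∏ s ∈ Finset.range L, ψ s := by
  have step : ∀ i : ℤ, ∏ s ∈ Finset.range L, ψ (i + 1 + s) = ∏ s ∈ Finset.range L, ψ (i + s) := by
    intro i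
    have e1 : ∏ s ∈ Finset.range (L + 1), ψ (i + s) =
        (∏ s ∈ Finset.range L, ψ (i + 1 + s)) * ψ i := by
      rw [Finset.prod_range_succ']
      congr 1
      · apply Finset.prod_congr rfl
        intro s _
        congr 1
        push_cast
        ring
      · simp
    have e2 : ∏ s ∈ Finset.range (L + 1), ψ (i + s) =
        (∏ s ∈ Finset.range L, ψ (i + s)) * ψ i := by
      rw [Finset.prod_range_succ, h]
    rcases Nat.eq_zero_or_pos L with hL | hL
    · subst hL; simp
    · by_cases h0 : ψ i = 0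
      · have a1 : ∏ s ∈ Finset.range L, ψ (i + s) = 0 := by
          apply Finset.prod_eq_zero (Finset.mem_range.2 hL)
          simpa using h0
        have a2 : ∏ s ∈ Finset.range L, ψ (i + 1 + s) = 0 := by
          apply Finset.prod_eq_zero (Finset.mem_range.2 (show L - 1 < L by omega))
          have : i + 1 + ((L - 1 : ℕ) : ℤ) = i + L := by
            have : ((L - 1 : ℕ) : ℤ) = (L : ℤ) - 1 := by omega
            rw [this]; ring
          rw [this, h, h0]
        rw [a1, a2]
      · apply mul_right_cancel₀ h0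
        rw [← e1, ← e2]
  induction i using Int.induction_on with
  | zero => simp
  | succ a ih => rw [step, ih]
  | pred a ih =>
    have := step (-(a : ℤ) - 1)
    rw [show -(a : ℤ) - 1 + 1 = -a by ring, ih] at this
    exact this.symm

lemma prod_swp (hL : 2 ≤ L) {ξ : ℤ → ℂ} (h : Per L ξ) (j : ℤ) (f : ℂ → ℂ)
    (hs : Per L (swp L j ξ)) :
    ∏ s ∈ Finset.range L, f (swp L j ξ s) = ∏ s ∈ Finset.range L, f (ξ s) := by
  have e1 := prod_period (L := L) (ψ := fun x => f (swp L j ξ x)) (fun x => by
    show f (swp L j ξ (x + L)) = f (swp L j ξ x)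
    rw [hs x]) j
  have e2 := prod_period (L := L) (ψ := fun x => f (ξ x)) (fun x => by
    show f (ξ (x + L)) = f (ξ x)
    rw [h x]) j
  rw [← e1, ← e2]
  obtain ⟨m, rfl⟩ : ∃ m, L = m + 2 := ⟨L - 2, by omega⟩
  rw [Finset.prod_range_succ', Finset.prod_range_succ', Finset.prod_range_succ',
    Finset.prod_range_succ']
  have c0 : swp (m + 2) j ξ (j + ((0 : ℕ) : ℤ)) = ξ (j + ((0 + 1 : ℕ) : ℤ)) := by
    rw [swp_i ⟨0, by push_cast; ring⟩]
    congr 1
    push_cast
    ring
  have c1 : swp (m + 2) j ξ (j + ((0 + 1 : ℕ) : ℤ)) = ξ (j + ((0 : ℕ) : ℤ)) := by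
    rw [swp_succ (by omega) ⟨0, by push_cast; ring⟩]
    congr 1
    push_cast
    ring
  have c2 : ∀ s ∈ Finset.range m, f (swp (m + 2) j ξ (j + ((s + 1 + 1 : ℕ) : ℤ))) =
      f (ξ (j + ((s + 1 + 1 : ℕ) : ℤ))) := by
    intro s hs
    rw [Finset.mem_range] at hs
    rw [swp_other]
    · intro h1
      have := Cg_eq h1 (by push_cast; omega) (by push_cast; omega)
      push_cast at this
      omega
    · intro h1
      have := Cg_eq h1 (by push_cast; omega) (by push_cast; omega)
      push_cast at this
      omega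
  rw [c0, c1, Finset.prod_congr rfl c2]
  ring

/-! ### Generic parameters -/

lemma gfac_swp (hL : 2 ≤ L) {ξ : ℤ → ℂ} (h : Per L ξ) (w : ℂ) (i : ℤ) :
    gfac L w (swp L i ξ) = gfac L w ξ := by
  unfold gfac
  rw [prod_swp hL h i (fun x => (x - q * w) ^ 2) (Per_swp h i)]

lemma gfac_rot {ξ : ℤ → ℂ} (h : Per L ξ) (w : ℂ) :
    gfac L w (fun x => ξ (x - 1)) = gfac L w ξ := by
  unfold gfac
  have e1 := prod_period (L := L) (ψ := fun x => (ξ x - q * w) ^ 2) (fun x => by
    show (ξ (x + L) - q * w) ^ 2 = (ξ x - q * w) ^ 2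
    rw [h x]) (-1)
  have e2 : ∏ s ∈ Finset.range L, (ξ ((s : ℤ) - 1) - q * w) ^ 2 =
      ∏ s ∈ Finset.range L, (fun x => (ξ x - q * w) ^ 2) (-1 + (s : ℤ)) := by
    apply Finset.prod_congr rfl
    intro s _
    show (ξ ((s : ℤ) - 1) - q * w) ^ 2 = (ξ (-1 + (s : ℤ)) - q * w) ^ 2
    rw [show (s : ℤ) - 1 = -1 + s by ring]
  simp only
  rw [e2, e1]

/-- the arc recursion at generic parameters -/
lemma arc_gen (hT : Triangular) (h : PsiPre Ψ) (hL : 2 ≤ L) (w : ℂ) (P : Pat L) {ξ : ℤ → ℂ}
    (hξ : ξ ∈ gen L w) : Th Ψ 0 w P ξ = gfac L w ξ * Ψ L P ξ := by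
  have hL1 : 1 ≤ L := by omega
  have key := hT L (ℤ → ℂ) (gen L w) (fun i ξ => swp L i ξ) (fun ξ x => ξ (x - 1)) (fun ξ => ξ)
    (fun P ξ => Th Ψ 0 w P ξ - gfac L w ξ * Ψ L P ξ)
    (fun i ξ hξ => gen_swp hL i hξ)
    (by
      intro ξ hξ
      obtain ⟨h1, h2, h3⟩ := hξ
      refine ⟨fun x => ξ (x + 1), ⟨?_, ?_, fun x => h3 _⟩, ?_⟩
      · intro x
        show ξ (x + L + 1) = ξ (x + 1)
        rw [show x + (L : ℤ) + 1 = x + 1 + L by ring, h1]
      · intro x y hxy
        have := Cg.sub 1 (h2 _ _ hxy)
        rwa [show x + 1 - 1 = x by ring, show y + 1 - 1 = y by ring] at this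
      · funext x
        show ξ (x - 1 + 1) = ξ x
        rw [show x - 1 + 1 = x by ring])
    (by
      intro ξ hξ i hi
      exact not_Cg_succ hL i (hξ.2.1 _ _ hi))
    (by
      intro P ξ hξ j
      have hper := hξ.1
      have hξ' := gen_swp hL j hξ
      have e1 := Th_exch h hL hper j w P
      rw [Th_indep h hL hξ'.1 hξ'.2.2 P (j + 2), Th_indep h hL hper hξ.2.2 P (j + 2)] at e1
      have e2 : eop j (fun P' => Th Ψ (j + 2) w P' ξ) P = eop j (fun P' => Th Ψ 0 w P' ξ) P := by
        congr 1
        funext P'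
        exact Th_indep h hL hper hξ.2.2 P' (j + 2)
      rw [e2] at e1
      have e3 := h.exch L P ξ hper j
      have e4 : eop j (fun P' => Th Ψ 0 w P' ξ - gfac L w ξ * Ψ L P' ξ) P =
          eop j (fun P' => Th Ψ 0 w P' ξ) P - gfac L w ξ * eop j (fun P' => Ψ L P' ξ) P := by
        unfold eop
        rw [Finset.mul_sum, ← Finset.sum_sub_distrib]
        apply Finset.sum_congr rfl
        intro P' _
        split_ifs <;> ring
      rw [e4, gfac_swp hL hper]
      linear_combination e1 - gfac L w ξ * e3)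
    (by
      intro P ξ hξ
      have hper := hξ.1
      have hrotgen : (fun x => ξ (x - 1)) ∈ gen L w := by
        refine ⟨?_, ?_, fun x => hξ.2.2 _⟩
        · intro x
          show ξ (x + L - 1) = ξ (x - 1)
          rw [show x + (L : ℤ) - 1 = x - 1 + L by ring, hper]
        · intro x y hxy
          have := Cg.add 1 (hξ.2.1 _ _ hxy)
          rwa [show x - 1 + 1 = x by ring, show y - 1 + 1 = y by ring] at this
      have e1 := Th_rot h hL1 hper 0 w P
      rw [Th_indep h hL hrotgen.1 hrotgen.2.2 (rot P) (0 + 1)] at e1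
      rw [e1, gfac_rot hper, h.rot L P ξ hper])
    (by
      intro P hP ξ hξ
      have := Th_base h hξ.1 w P hP
      rw [this]
      unfold gfac
      ring)
    P ξ hξ
  exact sub_eq_zero.1 key

/-- the curve of parameters through `ξ` is generic off a finite set -/
lemma curve_gen (hL : 1 ≤ L) {ξ : ℤ → ℂ} (h : Per L ξ) (w : ℂ) : ∃ B : Set ℂ, B.Finite ∧
    ∀ t : ℂ, t ∉ B → (fun x => ξ x + t * cdir L x) ∈ gen L w := by
  classical
  refine ⟨((fun p : ℕ × ℕ => (ξ p.1 - ξ p.2) / (cdir L p.2 - cdir L p.1)) ''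
      ((Finset.range L ×ˢ Finset.range L : Finset (ℕ × ℕ)) : Set (ℕ × ℕ))) ∪
    ((fun n : ℕ => (w - ξ n) / cdir L n) '' ((Finset.range L : Finset ℕ) : Set ℕ)) ∪
    ((fun n : ℕ => (q * w - ξ n) / cdir L n) '' ((Finset.range L : Finset ℕ) : Set ℕ)),
    ((Finset.finite_toSet _).image _ |>.union ((Finset.finite_toSet _).image _)).union
      ((Finset.finite_toSet _).image _), ?_⟩
  intro t ht
  simp only [Set.mem_union, not_or] at ht
  obtain ⟨⟨ht1, ht2⟩, ht3⟩ := ht
  have hper : Per L (fun x => ξ x + t * cdir L x) := by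
    intro x
    show ξ (x + L) + t * cdir L (x + L) = ξ x + t * cdir L x
    rw [h, cdir_Per]
  -- reduction to one period
  have red : ∀ x : ℤ, ∃ n : ℕ, n < L ∧ Cg L x n := by
    intro x
    refine ⟨(x % (L : ℤ)).toNat, ?_, ?_⟩
    · have h1 := Int.emod_lt_of_pos x (show (0 : ℤ) < L by omega)
      have h2 := Int.emod_nonneg x (show (L : ℤ) ≠ 0 by omega)
      omega
    · have h2 := Int.emod_nonneg x (show (L : ℤ) ≠ 0 by omega)
      rw [Int.toNat_of_nonneg h2]
      exact ⟨x / L, by have := Int.emod_add_mul_ediv x L; linarith only [this]⟩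
  refine ⟨hper, ?_, ?_⟩
  · intro x y hxy
    obtain ⟨n, hn, hxn⟩ := red x
    obtain ⟨m, hm, hym⟩ := red y
    have e1 := Per_Cg hper hxn
    have e2 := Per_Cg hper hym
    by_cases hnm : Cg L (n : ℤ) m
    · exact Cg.trans' hxn (Cg.trans' hnm (Cg.symm' hym))
    · exfalso
      apply ht1
      refine ⟨(n, m), by simp [hn, hm], ?_⟩
      have hne : cdir L m - cdir L n ≠ 0 := by
        intro h0
        exact hnm (Cg.symm' (cdir_inj (sub_eq_zero.1 h0)))
      have e3 : ξ n + t * cdir L n = ξ m + t * cdir L m := by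
        rw [← e1, ← e2]; exact hxy
      show (ξ n - ξ m) / (cdir L m - cdir L n) = t
      rw [div_eq_iff hne]
      linear_combination e3
  · intro x
    obtain ⟨n, hn, hxn⟩ := red x
    have e1 := Per_Cg hper hxn
    show ξ x + t * cdir L x ≠ w ∧ ξ x + t * cdir L x ≠ q * w
    rw [e1]
    constructor
    · intro h0
      apply ht2
      refine ⟨n, by simp [hn], ?_⟩
      show (w - ξ n) / cdir L n = t
      rw [div_eq_iff (cdir_ne hL _)]
      linear_combination -h0
    · intro h0
      apply ht3
      refine ⟨n, by simp [hn], ?_⟩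
      show (q * w - ξ n) / cdir L n = t
      rw [div_eq_iff (cdir_ne hL _)]
      linear_combination -h0

/-- the arc recursion for the inserted parameters -/
lemma arc_insp (hT : Triangular) (h : PsiPre Ψ) (i : ℤ) (w : ℂ) (P : Pat L) {ξ : ℤ → ℂ}
    (hper : Per L ξ) : Th Ψ i w P ξ = gfac L w ξ * Ψ L P ξ := by
  have hL := P.two_le
  have hL1 : 1 ≤ L := by omega
  obtain ⟨B, hB, hgen⟩ := curve_gen hL1 hper w
  have hγ : ∀ x : ℤ, Continuous fun t : ℂ => ξ x + t * cdir L x := by
    intro x; fun_prop
  have c1 : Continuous fun t : ℂ => Th Ψ i w P (fun x => ξ x + t * cdir L x) := by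
    unfold Th
    apply Psi_continuous h (ins i P) (fun t => insp L i w (fun x => ξ x + t * cdir L x))
    intro x
    simp only [insp]
    split_ifs
    · exact continuous_const
    · exact continuous_const
    · exact hγ _
  have c2 : Continuous fun t : ℂ => gfac L w (fun x => ξ x + t * cdir L x) *
      Ψ L P (fun x => ξ x + t * cdir L x) := by
    apply Continuous.mul
    · unfold gfac
      apply Continuous.div_const
      apply Continuous.mul continuous_const
      apply continuous_finsetProd
      intro s _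
      fun_prop
    · exact Psi_continuous h P (fun t => fun x => ξ x + t * cdir L x) hγ
  have hdense : Dense (Set.univ \ B) := dense_univ.sdiff_finite hB
  have heq : (fun t : ℂ => Th Ψ i w P (fun x => ξ x + t * cdir L x)) =
      fun t : ℂ => gfac L w (fun x => ξ x + t * cdir L x) *
        Ψ L P (fun x => ξ x + t * cdir L x) := by
    apply Continuous.ext_on hdense c1 c2
    intro t ht
    have hg := hgen t ht.2
    simp only
    rw [Th_indep h hL hg.1 hg.2.2 P i, arc_gen hT h hL w P hg]
  have h0 := congrFun heq 0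
  simpa using h0

theorem arc_of (hT : Triangular) (h : PsiPre Ψ) : ∀ (L : ℕ) (P : Pat L) (ζ : ℤ → ℂ),
    Per (L + 2) ζ → ∀ i : ℤ, ζ i = q ^ 2 * ζ (i + 1) →
    Ψ (L + 2) (ins i P) ζ =
      (-q * ζ (i + 1) * (∏ s ∈ Finset.range L, (ζ (i + 2 + s) - q * ζ (i + 1)) ^ 2) / 3 ^ L) *
        Ψ L P (fun x => ζ (phi L i x)) := by
  intro L P ζ hζ i hi
  have hL := P.two_le
  have hL1 : 1 ≤ L := by omega
  have hper := phi_Per hL1 hζ i
  have key := arc_insp hT h i (ζ (i + 1)) P hper
  unfold Th at key
  rw [← eq_insp hL1 hζ i hi] at key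
  rw [key]
  congr 1
  unfold gfac
  congr 2
  have e := prod_period (L := L) (ψ := fun x => (ζ (phi L i x) - q * ζ (i + 1)) ^ 2) (fun x => by
    show (ζ (phi L i (x + L)) - q * ζ (i + 1)) ^ 2 = (ζ (phi L i x) - q * ζ (i + 1)) ^ 2
    have := hper x
    simp only at this
    rw [this]) i
  rw [← e]
  apply Finset.prod_congr rfl
  intro s hs
  rw [Finset.mem_range] at hs
  have e2 := phi_form hL1 i 0 s (by omega) (by omega)
  rw [show i + (s : ℤ) + L * 0 = i + s by ring] at e2
  show (ζ (phi L i (i + s)) - q * ζ (i + 1)) ^ 2 = _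
  rw [e2, show i + (s : ℤ) + 2 + (L + 2) * 0 = i + 2 + s by ring]

end Pool.Agent.H14.EX

end

section

/-!
# The base component
-/

namespace Pool.Agent.H12.QKZ

open H56.EX MvPolynomial

/-- Product formula of the base component, as a function of a sequence. -/
noncomputable def gp (n : ℕ) (s : ℕ → ℂ) : ℂ :=
  ∏ j ∈ Finset.range n, ∏ i ∈ Finset.range j, (q * s j - q⁻¹ * s i) / (q - q⁻¹)

theorem gp_swap (s : ℕ → ℂ) (k : ℕ) : ∀ n : ℕ, k + 2 ≤ n →
    (q * s (k + 1) - q⁻¹ * s k) * gp n (fun i => s (Equiv.swap k (k + 1) i))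
      = (q * s k - q⁻¹ * s (k + 1)) * gp n s := by
  intro n hn
  induction n, hn using Nat.le_induction with
  | base =>
    unfold gp
    rw [Finset.prod_range_succ, Finset.prod_range_succ, Finset.prod_range_succ,
      Finset.prod_range_succ]
    have h1 : ∀ j ∈ Finset.range k, ∏ i ∈ Finset.range j,
        (q * s (Equiv.swap k (k + 1) j) - q⁻¹ * s (Equiv.swap k (k + 1) i)) / (q - q⁻¹)
        = ∏ i ∈ Finset.range j, (q * s j - q⁻¹ * s i) / (q - q⁻¹) := by
      intro j hj
      rw [Finset.mem_range] at hj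
      rw [Equiv.swap_apply_of_ne_of_ne (by omega) (by omega)]
      refine Finset.prod_congr rfl fun i hi => ?_
      rw [Finset.mem_range] at hi
      rw [Equiv.swap_apply_of_ne_of_ne (by omega) (by omega)]
    have h2 : ∀ t : ℂ, ∏ i ∈ Finset.range k,
        (q * t - q⁻¹ * s (Equiv.swap k (k + 1) i)) / (q - q⁻¹)
        = ∏ i ∈ Finset.range k, (q * t - q⁻¹ * s i) / (q - q⁻¹) := by
      intro t
      refine Finset.prod_congr rfl fun i hi => ?_
      rw [Finset.mem_range] at hi
      rw [Equiv.swap_apply_of_ne_of_ne (by omega) (by omega)]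
    rw [Finset.prod_congr rfl h1, Finset.prod_range_succ, Finset.prod_range_succ, h2, h2]
    simp only [Equiv.swap_apply_left, Equiv.swap_apply_right]
    ring
  | succ n hn ih =>
    unfold gp at ih ⊢
    rw [Finset.prod_range_succ, Finset.prod_range_succ, ← mul_assoc, ih]
    have h1 : ∏ i ∈ Finset.range n,
        (q * s (Equiv.swap k (k + 1) n) - q⁻¹ * s (Equiv.swap k (k + 1) i)) / (q - q⁻¹)
        = ∏ i ∈ Finset.range n, (q * s n - q⁻¹ * s i) / (q - q⁻¹) := by
      rw [Equiv.swap_apply_of_ne_of_ne (by omega : n ≠ k) (by omega : n ≠ k + 1)]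
      exact prod_range_swap hn (fun i => (q * s n - q⁻¹ * s i) / (q - q⁻¹))
    rw [h1]; ring

/-- The base component as a polynomial. -/
noncomputable def PhiP (L : ℕ) : MvPolynomial (Fin L) ℂ :=
  ∏ j : Fin L, ∏ i : Fin L,
    if i < j then C ((q - q⁻¹)⁻¹) * (C q * X j - C q⁻¹ * X i) else 1

theorem eval_PhiP (L : ℕ) (s : ℕ → ℂ) :
    eval (fun k : Fin L => s k) (PhiP L) = gp L s := by
  unfold PhiP gp
  rw [map_prod, Finset.prod_range (n := L)]
  refine Finset.prod_congr rfl fun j _ => ?_
  rw [map_prod, Finset.prod_range (n := (j : ℕ))]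
  have h1 : ∀ i : Fin L, eval (fun k : Fin L => s k)
      (if i < j then C ((q - q⁻¹)⁻¹) * (C q * X j - C q⁻¹ * X i) else (1 : MvPolynomial (Fin L) ℂ))
      = if i < j then (q * s j - q⁻¹ * s i) / (q - q⁻¹) else 1 := by
    intro i
    split_ifs
    · simp only [map_mul, map_sub, eval_C, eval_X]; ring
    · simp
  rw [Finset.prod_congr rfl fun i _ => h1 i, ← Finset.prod_filter]
  symm
  refine Finset.prod_bij (fun (i : Fin (j : ℕ)) _ => (⟨i, i.isLt.trans j.isLt⟩ : Fin L)) ?_ ?_ ?_ ?_
  · intro i _
    rw [Finset.mem_filter]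
    exact ⟨Finset.mem_univ _, i.isLt⟩
  · intro a _ b _ hab
    exact Fin.ext (by simpa using hab)
  · intro b hb
    rw [Finset.mem_filter] at hb
    exact ⟨⟨b, hb.2⟩, Finset.mem_univ _, rfl⟩
  · intro i _; rfl

theorem card_pairs {L : ℕ} (S : Finset (Fin L)) :
    ∑ j : Fin L, ∑ i : Fin L, (if i < j ∧ i ∈ S ∧ j ∈ S then 1 else 0) = S.card.choose 2 := by
  induction S using Finset.induction_on_max with
  | empty => simp
  | insert a S ha ih =>
    have hnot : a ∉ S := fun h => lt_irrefl _ (ha a h)
    rw [Finset.card_insert_of_notMem hnot, Nat.choose_succ_succ' S.card 1, Nat.choose_one_right,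
      ← ih]
    have h1 : ∀ j i : Fin L, (if i < j ∧ i ∈ insert a S ∧ j ∈ insert a S then 1 else 0)
        = (if j = a ∧ i ∈ S then 1 else 0) + (if i < j ∧ i ∈ S ∧ j ∈ S then 1 else 0) := by
      intro j i
      by_cases hj : j = a
      · subst hj
        by_cases hi : i ∈ S
        · have h2 := ha i hi
          simp [hi, h2, hnot]
        · by_cases hij : i = j
          · subst hij; simp [hnot]
          · simp [hi, hij, hnot]
      · by_cases hi : i = a
        · subst hi
          have h3 : ¬ (i < j ∧ j ∈ S) := fun h => lt_asymm h.1 (ha j h.2)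
          simp only [Finset.mem_insert, hj, hnot, false_or, false_and, and_false, if_false,
            true_or, true_and]
          rw [if_neg h3]
        · simp [hi, hj]
    simp_rw [h1, Finset.sum_add_distrib]
    congr 1
    rw [Finset.sum_eq_single a]
    · simp
    · intro j _ hj; simp [hj]
    · intro h; exact absurd (Finset.mem_univ _) h

theorem PhiP_bd (L : ℕ) : JointBd loF (upF L) (PhiP L) := by
  intro S
  unfold PhiP
  have h : Bd S (∑ j : Fin L, ∑ i : Fin L, (if i < j ∧ i ∈ S ∧ j ∈ S then 1 else 0))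
      (∑ j : Fin L, ∑ i : Fin L, (if i < j ∧ (i ∈ S ∨ j ∈ S) then 1 else 0))
      (∏ j : Fin L, ∏ i : Fin L,
        if i < j then C ((q - q⁻¹)⁻¹) * (C q * X j - C q⁻¹ * X i)
        else (1 : MvPolynomial (Fin L) ℂ)) := by
    refine Bd.prod _ _ _ _ fun j _ => Bd.prod _ _ _ _ fun i _ => ?_
    by_cases hij : i < j
    · simp only [hij, if_true, true_and]
      exact Bd.C_mul (Bd.lin S i j q q⁻¹) _
    · simp only [hij, if_false, false_and]
      exact Bd.one S
  refine h.mono ?_ ?_
  · rw [card_pairs]; exact le_refl _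
  · have h1 : (∑ j : Fin L, ∑ i : Fin L, (if i < j ∧ (i ∈ S ∨ j ∈ S) then 1 else 0))
        + (∑ j : Fin L, ∑ i : Fin L, (if i < j ∧ i ∈ Sᶜ ∧ j ∈ Sᶜ then 1 else 0))
        = ∑ j : Fin L, ∑ i : Fin L,
          (if i < j ∧ i ∈ (Finset.univ : Finset (Fin L)) ∧ j ∈ (Finset.univ : Finset (Fin L))
            then 1 else 0) := by
      rw [← Finset.sum_add_distrib]
      refine Finset.sum_congr rfl fun j _ => ?_
      rw [← Finset.sum_add_distrib]
      refine Finset.sum_congr rfl fun i _ => ?_
      by_cases hij : i < j <;> by_cases hi : i ∈ S <;> by_cases hj : j ∈ S <;>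
        simp [hij, hi, hj]
    rw [card_pairs, card_pairs, Finset.card_compl, Finset.card_univ, Fintype.card_fin] at h1
    unfold upF
    omega

end Pool.Agent.H12.QKZ

end

section

/-!
# The total length of the arcs of a link pattern
-/

namespace Pool.Agent.H12.QKZ

open H56.EX

variable {L : ℕ}

/-- Change of the area under `e_i`. -/
theorem area_E (P : Pat L) (i : ℤ) (h : ¬ Cg L (P.m i) (i + 1)) :
    area (E i P) + 2 * |P.m i - i| + 2 * |P.m (i + 1) - (i + 1)|
      = area P + 2 + 2 * |P.m (i + 1) - P.m i| := by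
  have hL2 := P.two_le
  have hL : 1 ≤ L := by omega
  set a := P.m i with ha
  set b := P.m (i + 1) with hb
  have hPa : P.m a = i := P.inv i
  have hPb : P.m b = i + 1 := P.inv (i + 1)
  have n1 : ¬ Cg L i (i + 1) := not_Cg_succ hL2 i
  have n1' : ¬ Cg L (i + 1) i := fun h => n1 (Cg.symm' h)
  have n2 : ¬ Cg L a i := not_cg_m_self P i
  have n3 : ¬ Cg L b (i + 1) := not_cg_m_self P (i + 1)
  have n4 : ¬ Cg L b i := by
    intro h'
    apply h
    have := Cg.m P h'
    rw [hPb, ← ha] at this
    exact Cg.symm' this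
  have n5 : ¬ Cg L a b := fun h' => n1 (Cg.m' P h')
  have n5' : ¬ Cg L b a := fun h' => n5 (Cg.symm' h')
  have key : ∀ x : ℤ, |(E i P).m x - x| = |P.m x - x|
      + (if Cg L x i then 1 - |a - i| else 0)
      + (if Cg L x (i + 1) then 1 - |b - (i + 1)| else 0)
      + (if Cg L x a then |b - a| - |a - i| else 0)
      + (if Cg L x b then |b - a| - |b - (i + 1)| else 0) := by
    intro x
    by_cases c1 : Cg L x i
    · have e1 : ¬ Cg L x (i + 1) := fun h' => n1 (Cg.trans' (Cg.symm' c1) h')
      have e2 : ¬ Cg L x a := fun h' => n2 (Cg.trans' (Cg.symm' h') c1)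
      have e3 : ¬ Cg L x b := fun h' => n4 (Cg.trans' (Cg.symm' h') c1)
      rw [if_pos c1, if_neg e1, if_neg e2, if_neg e3, E.of_i P i c1]
      have hm : P.m x = a + (x - i) := P.per_dvd c1
      rw [hm, show x + 1 - x = 1 by ring, show a + (x - i) - x = a - i by ring]
      simp
    by_cases c2 : Cg L x (i + 1)
    · have e2 : ¬ Cg L x a := fun h' => h (Cg.trans' (Cg.symm' h') c2)
      have e3 : ¬ Cg L x b := fun h' => n3 (Cg.trans' (Cg.symm' h') c2)
      rw [if_neg c1, if_pos c2, if_neg e2, if_neg e3, E.of_succ P i c2]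
      have hm : P.m x = b + (x - (i + 1)) := P.per_dvd c2
      rw [hm, show x - 1 - x = -1 by ring, show b + (x - (i + 1)) - x = b - (i + 1) by ring]
      simp
    by_cases c3 : Cg L x a
    · have e3 : ¬ Cg L x b := fun h' => n5 (Cg.trans' (Cg.symm' c3) h')
      rw [if_neg c1, if_neg c2, if_pos c3, if_neg e3]
      have hm : P.m x = i + (x - a) := by rw [P.per_dvd c3, hPa]
      have hc : Cg L (P.m x) i := by
        rw [hm]; unfold Cg; unfold Cg at c3
        rwa [show i + (x - a) - i = x - a by ring]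
      rw [E.of_m P i c1 c2 hc, hm]
      have hm2 : P.m (i + (x - a) + 1) = b + (x - a) := by
        have : Cg L (i + (x - a) + 1) (i + 1) := by
          unfold Cg; unfold Cg at c3
          rwa [show i + (x - a) + 1 - (i + 1) = x - a by ring]
        rw [P.per_dvd this, ← hb]; ring
      rw [hm2, show b + (x - a) - x = b - a by ring, show i + (x - a) - x = -(a - i) by ring,
        abs_neg]
      ring
    by_cases c4 : Cg L x b
    · rw [if_neg c1, if_neg c2, if_neg c3, if_pos c4]
      have hm : P.m x = i + 1 + (x - b) := by rw [P.per_dvd c4, hPb]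
      have hc : Cg L (P.m x) (i + 1) := by
        rw [hm]; unfold Cg; unfold Cg at c4
        rwa [show i + 1 + (x - b) - (i + 1) = x - b by ring]
      rw [E.of_m_succ P i c1 c2 hc, hm]
      have hm2 : P.m (i + 1 + (x - b) - 1) = a + (x - b) := by
        have : Cg L (i + 1 + (x - b) - 1) i := by
          unfold Cg; unfold Cg at c4
          rwa [show i + 1 + (x - b) - 1 - i = x - b by ring]
        rw [P.per_dvd this, ← ha]; ring
      rw [hm2, show a + (x - b) - x = -(b - a) by ring, abs_neg,
        show i + 1 + (x - b) - x = -(b - (i + 1)) by ring, abs_neg]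
      ring
    · rw [if_neg c1, if_neg c2, if_neg c3, if_neg c4]
      have e1 : ¬ Cg L (P.m x) i := by
        intro h'
        apply c3
        apply Cg.m' P
        rw [hPa]; exact h'
      have e2 : ¬ Cg L (P.m x) (i + 1) := by
        intro h'
        apply c4
        apply Cg.m' P
        rw [hPb]; exact h'
      rw [E.other P i c1 c2 e1 e2]
      ring
  have hsum : area (E i P) = area P + (1 - |a - i|) + (1 - |b - (i + 1)|)
      + (|b - a| - |a - i|) + (|b - a| - |b - (i + 1)|) := by
    unfold area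
    rw [Finset.sum_congr rfl fun x _ => key x]
    simp only [Finset.sum_add_distrib, sum_class hL]
  rw [hsum]; ring

end Pool.Agent.H12.QKZ

end

section

/-!
# Good positions of a link pattern and the fibres of `e_i`
-/

namespace Pool.Agent.H12.QKZ

open H56.EX

variable {L : ℕ}

/-- Without good positions a pattern is a rotation of the base pattern. -/
theorem nested (P : Pat L) (h : ∀ i, ¬ Good P i) {i : ℤ} (hi1 : P.m i < i)
    (hi2 : i + 1 < P.m (i + 1)) : ∀ k : ℕ, 2 * k < L → P.m (i + 1 + k) = i + L - k := by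
  have hL := P.two_le
  have hcg : Cg L (P.m i) (i + 1) := by
    by_contra hc
    exact h i ⟨hi1, hi2, hc⟩
  have s1 := P.short' i
  have hmi : P.m i = i + 1 - L := by
    have := dvd_cases hcg
    omega
  have hmi1 : P.m (i + 1) = i + L := by
    have h1 := P.per (P.m i)
    rw [P.inv, hmi, show i + 1 - (L : ℤ) + L = i + 1 by ring] at h1
    exact h1
  intro k
  induction k using Nat.strong_induction_on with
  | _ k ih =>
    intro hk
    rcases Nat.eq_zero_or_pos k with h0 | hpos
    · subst h0; simpa using hmi1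
    obtain ⟨k', rfl⟩ : ∃ k', k = k' + 1 := ⟨k - 1, by omega⟩
    have hx' := ih k' (by omega) (by omega)
    obtain ⟨x, hx⟩ : ∃ x : ℤ, x = i + 1 + ((k' + 1 : ℕ) : ℤ) := ⟨_, rfl⟩
    obtain ⟨Y, hY⟩ : ∃ Y : ℤ, Y = i + L - ((k' + 1 : ℕ) : ℤ) := ⟨_, rfl⟩
    rw [← hx, ← hY]
    have hk2 : 2 * ((k' + 1 : ℕ) : ℤ) < L := by exact_mod_cast hk
    push_cast at hx hY hk2
    have hx1 : P.m (x - 1) = Y + 1 := by
      rw [hx, hY, show i + 1 + ((k' : ℤ) + 1) - 1 = i + 1 + k' by ring, hx']; ring
    have n1 := P.nc (x - 1) x (by omega) (by omega)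
    have n2 := P.ne x
    by_contra hne
    have hlt : P.m x < Y := by omega
    obtain ⟨y, hy⟩ : ∃ y, y = P.m x := ⟨_, rfl⟩
    rw [← hy] at hlt n1 n2
    have hmy : P.m y = x := by rw [hy, P.inv]
    have n3 := P.nc (x - 1) (y + 1) (by omega) (by omega)
    have n4 := P.ne (y + 1)
    have n5 : P.m (y + 1) ≠ x := by
      intro h'
      have := congrArg P.m h'
      rw [P.inv, ← hy] at this
      omega
    have n6 : P.m (y + 1) ≠ y := by
      intro h'
      have := congrArg P.m h'
      rw [P.inv, hmy] at this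
      omega
    rcases lt_or_gt_of_ne n4 with h4 | h4
    · have := P.nc x (P.m (y + 1)) (by omega) (by omega)
      rw [P.inv] at this
      omega
    · apply h y
      refine ⟨by omega, h4, ?_⟩
      rw [hmy]
      intro hc
      have := (cg_iff_eq_zero (by omega) (by omega)).1 hc
      omega

theorem rot_iter_m (B : Pat L) (k : ℕ) (x : ℤ) : (rot^[k] B).m x = B.m (x - k) + k := by
  induction k generalizing x with
  | zero => simp
  | succ k ih =>
    rw [Function.iterate_succ', Function.comp_apply, rot_m, ih]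
    push_cast
    rw [show x - 1 - (k : ℤ) = x - (k + 1) by ring]; ring

theorem good_or_base (P : Pat L) :
    (∃ (k : ℕ) (B : Pat L), IsBase B ∧ P = rot^[k] B) ∨ ∃ i, Good P i := by
  by_cases h : ∃ i, Good P i
  · exact Or.inr h
  left
  push Not at h
  have hL := P.two_le
  obtain ⟨i, hi1, hi2⟩ := exists_adj' P
  have hn := nested P h hi1 hi2
  obtain ⟨n, hn2⟩ : ∃ n, L = 2 * n := by
    rcases Nat.even_or_odd' L with ⟨n, hn' | hn'⟩
    · exact ⟨n, hn'⟩
    · exfalso
      have := hn n (by omega)
      apply P.ne (i + 1 + n)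
      rw [this, hn']; push_cast; ring
  obtain ⟨c, hc⟩ : ∃ c : ℤ, c = i + 1 + n := ⟨_, rfl⟩
  have hbase : ∀ x : ℤ, -(L : ℤ) ≤ 2 * x → 2 * x < L → P.m (x + c) - c = -1 - x := by
    have hneg : ∀ x : ℤ, -(L : ℤ) ≤ 2 * x → x < 0 → P.m (x + c) - c = -1 - x := by
      intro x h1 h2
      obtain ⟨k, hk⟩ : ∃ k : ℕ, (k : ℤ) = n + x := ⟨(n + x).toNat, by omega⟩
      have := hn k (by omega)
      rw [hk] at this
      rw [show x + c = i + 1 + (n + x) by rw [hc]; ring, this, hc]
      subst hn2; push_cast; ring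
    intro x h1 h2
    rcases lt_or_ge x 0 with h3 | h3
    · exact hneg x h1 h3
    · have := hneg (-1 - x) (by omega) (by omega)
      have h4 : P.m (-1 - x + c) = x + c := by linarith only [this]
      have h5 := P.inv (-1 - x + c)
      rw [h4] at h5
      linarith only [h5]
  -- the base pattern
  let B : Pat L :=
    { m := fun x => P.m (x + c) - c
      inv := fun x => by
        show P.m (P.m (x + c) - c + c) - c = x
        rw [sub_add_cancel, P.inv]; ring
      per := fun x => by
        show P.m (x + L + c) - c = P.m (x + c) - c + L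
        rw [show x + (L : ℤ) + c = x + c + L by ring, P.per]; ring
      ne := fun x h' => P.ne (x + c) (by linarith only [h'])
      short := fun x => by
        have := P.short (x + c)
        show |P.m (x + c) - c - x| < L
        rwa [show P.m (x + c) - c - x = P.m (x + c) - (x + c) by ring]
      nc := fun x y h1 h2 => by
        have := P.nc (x + c) (y + c) (by linarith only [h1]) (by linarith only [h2])
        exact ⟨by linarith only [this, this.1], by linarith only [this, this.2]⟩ }
  refine ⟨(c % L).toNat, B, fun x h1 h2 => hbase x h1 h2, ?_⟩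
  apply Pat.ext
  funext x
  rw [rot_iter_m]
  have hpos : (0 : ℤ) < L := by omega
  have hk : (((c % L).toNat : ℕ) : ℤ) = c % L := Int.toNat_of_nonneg (Int.emod_nonneg _ hpos.ne')
  rw [hk]
  show P.m x = P.m (x - c % L + c) - c + c % L
  have hd : Cg L (x - c % L + c) x := by
    unfold Cg
    rw [show x - c % L + c - x = c - c % L by ring]
    exact Int.dvd_self_sub_emod
  rw [P.per_dvd hd]; ring

theorem area_lt_of_good {P : Pat L} {i : ℤ} (h : Good P i) : area P < area (E i P) := by
  have := area_E P i h.2.2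
  rw [abs_of_neg (by linarith only [h, h.1] : P.m i - i < 0),
    abs_of_pos (by linarith only [h, h.2.1] : 0 < P.m (i + 1) - (i + 1)),
    abs_of_pos (by linarith only [h, h.1, h.2.1] : 0 < P.m (i + 1) - P.m i)] at this
  linarith

/-- The fibre of `e_i` over `e_i P` for a good position. -/
theorem fibre_of_good {P P' : Pat L} {i : ℤ} (h : Good P i) (hE : E i P' = E i P) :
    P' = P ∨ area P < area P' := by
  have hL := P.two_le
  have hA := area_lt_of_good h
  obtain ⟨h1, h2, h3⟩ := h
  by_cases c0 : P'.m i = i + 1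
  · right
    have := E.eq_self P' i c0
    rw [← this, hE]; exact hA
  obtain ⟨a, ha⟩ : ∃ a, a = P.m i := ⟨_, rfl⟩
  obtain ⟨b, hb⟩ : ∃ b, b = P.m (i + 1) := ⟨_, rfl⟩
  obtain ⟨a', ha'⟩ : ∃ a', a' = P'.m i := ⟨_, rfl⟩
  obtain ⟨b', hb'⟩ : ∃ b', b' = P'.m (i + 1) := ⟨_, rfl⟩
  have hPa : P.m a = i := by rw [ha, P.inv]
  have hPb : P.m b = i + 1 := by rw [hb, P.inv]
  have hPa' : P'.m a' = i := by rw [ha', P'.inv]
  have hPb' : P'.m b' = i + 1 := by rw [hb', P'.inv]
  have n1 : ¬ Cg L i (i + 1) := not_Cg_succ hL i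
  have n1' : ¬ Cg L (i + 1) i := fun h => n1 (Cg.symm' h)
  have sa := P.short' i
  have sb := P.short' (i + 1)
  have sa' := P'.short' i
  have sb' := P'.short' (i + 1)
  rw [← ha] at h1 h3 sa
  rw [← hb] at h2 sb
  rw [← ha'] at sa' c0
  rw [← hb'] at sb'
  have na : ¬ Cg L a i := by rw [ha]; exact not_cg_m_self P i
  have nb1 : ¬ Cg L b (i + 1) := by rw [hb]; exact not_cg_m_self P (i + 1)
  have nb : ¬ Cg L b i := by
    intro h'
    apply h3
    have := Cg.m P h'
    rw [hPb, ← ha] at this
    exact Cg.symm' this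
  -- values of `Q = E i P`
  have hQa : (E i P).m a = b := by
    rw [E.of_m P i na h3 (by rw [hPa]; exact Cg.refl' _), hPa, hb]
  have hcl := P.partner_close' (by rw [← ha]; exact h3)
  rw [← ha, ← hb] at hcl
  by_cases c1 : Cg L a' (i + 1)
  · -- matched around
    exfalso
    have e1 : a' = i + 1 - L := by
      have := dvd_cases c1
      omega
    have e2 : P'.m (i + 1 - L) = i := by rw [← e1]; exact hPa'
    have e3 : a ≠ i + 1 - L := by
      rintro rfl
      apply h3
      unfold Cg
      rw [show i + 1 - (L : ℤ) - (i + 1) = -L by ring, dvd_neg]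
    have e4 := P'.nc (i + 1 - L) a (by omega) (by omega)
    have e5 : ¬ Cg L (P'.m a) i := by
      intro h'
      have := Cg.m P' h'
      rw [P'.inv, ← ha'] at this
      exact h3 (Cg.trans' this c1)
    have e6 : ¬ Cg L (P'.m a) (i + 1) := by
      intro h'
      have h7 := Cg.m P' h'
      rw [P'.inv, ← hb'] at h7
      have h8 : Cg L b' i := by
        have := Cg.m P' (Cg.symm' c1)
        rw [hPa', ← hb'] at this
        exact this
      exact na (Cg.trans' h7 h8)
    have e7 : (E i P').m a = P'.m a := E.other P' i na h3 e5 e6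
    rw [hE, hQa] at e7
    omega
  have na' : ¬ Cg L a' i := by rw [ha']; exact not_cg_m_self P' i
  have nb1' : ¬ Cg L b' (i + 1) := by rw [hb']; exact not_cg_m_self P' (i + 1)
  have nb' : ¬ Cg L b' i := by
    intro h'
    apply c1
    have := Cg.m P' h'
    rw [hPb', ← ha'] at this
    exact Cg.symm' this
  have hQa' : (E i P').m a' = b' := by
    rw [E.of_m P' i na' c1 (by rw [hPa']; exact Cg.refl' _), hPa', hb']
  have hcl' := P'.partner_close' (by rw [← ha']; exact c1)
  rw [← ha', ← hb'] at hcl'
  have hAE := area_E P' i (by rw [← ha']; exact c1)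
  rw [← ha', ← hb', hE] at hAE
  have nea : a' ≠ i := by rw [ha']; exact P'.ne i
  have neb : b' ≠ i + 1 := by rw [hb']; exact P'.ne (i + 1)
  have neb' : b' ≠ i := by
    intro h'
    apply c0
    rw [← hPb', h', ← ha']
  rcases lt_or_gt_of_ne nea with g1 | g1
  · rcases lt_or_gt_of_ne neb with g2 | g2
    · -- closer at `i + 1` covering `i`
      right
      have hb'i : b' < i := by omega
      have := P'.nc b' i hb'i (by rw [hPb']; omega)
      rw [← ha', hPb'] at this
      rw [abs_of_neg (by omega : a' - i < 0), abs_of_neg (by omega : b' - (i + 1) < 0),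
        abs_of_neg (by omega : b' - a' < 0)] at hAE
      omega
    · -- the interesting case
      left
      have haa : a' = a := by
        rcases lt_trichotomy a' a with g | g | g
        · exfalso
          have e4 := P'.nc a' a g (by rw [hPa']; exact h1)
          rw [hPa'] at e4
          have e5 : ¬ Cg L (P'.m a) i := by
            intro h'
            have := Cg.m P' h'
            rw [P'.inv, ← ha'] at this
            have := (cg_iff_eq_zero (by omega) (by omega)).1 this
            omega
          have e6 : ¬ Cg L (P'.m a) (i + 1) := by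
            intro h'
            have := Cg.m P' h'
            rw [P'.inv, ← hb'] at this
            have := (cg_iff_eq_zero (by omega) (by omega)).1 this
            omega
          have e7 : (E i P').m a = P'.m a := E.other P' i na h3 e5 e6
          rw [hE, hQa] at e7
          omega
        · exact g
        · exfalso
          have e4 := P.nc a a' g (by rw [hPa]; exact g1)
          rw [hPa] at e4
          have e5 : ¬ Cg L (P.m a') i := by
            intro h'
            have := Cg.m P h'
            rw [P.inv, ← ha] at this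
            have := (cg_iff_eq_zero (by omega) (by omega)).1 this
            omega
          have e6 : ¬ Cg L (P.m a') (i + 1) := by
            intro h'
            have := Cg.m P h'
            rw [P.inv, ← hb] at this
            have := (cg_iff_eq_zero (by omega) (by omega)).1 this
            omega
          have e7 : (E i P).m a' = P.m a' := E.other P i na' c1 e5 e6
          rw [← hE, hQa'] at e7
          omega
      subst haa
      have hbb : b' = b := by
        rw [hE, hQa] at hQa'
        exact hQa'.symm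
      subst hbb
      apply Pat.ext
      funext x
      by_cases x1 : Cg L x i
      · exact Pat.eq_of_dvd x1 (by rw [← ha, ← ha'])
      by_cases x2 : Cg L x (i + 1)
      · exact Pat.eq_of_dvd x2 (by rw [← hb, ← hb'])
      by_cases x3 : Cg L x a'
      · exact Pat.eq_of_dvd x3 (by rw [hPa, hPa'])
      by_cases x4 : Cg L x b'
      · exact Pat.eq_of_dvd x4 (by rw [hPb, hPb'])
      have y1 : ¬ Cg L (P.m x) i := fun h' => x3 (Cg.m' P (by rw [hPa]; exact h'))
      have y2 : ¬ Cg L (P.m x) (i + 1) := fun h' => x4 (Cg.m' P (by rw [hPb]; exact h'))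
      have y3 : ¬ Cg L (P'.m x) i := fun h' => x3 (Cg.m' P' (by rw [hPa']; exact h'))
      have y4 : ¬ Cg L (P'.m x) (i + 1) := fun h' => x4 (Cg.m' P' (by rw [hPb']; exact h'))
      rw [← E.other P i x1 x2 y1 y2, ← E.other P' i x1 x2 y3 y4, hE]
  · -- opener at `i`
    right
    have := P'.nc i (i + 1) (by omega) (by rw [← ha']; omega)
    rw [← ha', ← hb'] at this
    rw [abs_of_pos (by omega : 0 < a' - i), abs_of_pos (by omega : 0 < b' - (i + 1)),
      abs_of_neg (by omega : b' - a' < 0)] at hAE
    omega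

end Pool.Agent.H12.QKZ

end

section

/-! Arc recursion of the leg sums. -/

namespace H56.EX

open scoped BigOperators Classical

variable {Lt Lb L : ℕ}


/-! ### parameters -/

end H56.EX

end

section

/-! Manipulation of the parameter sequences; exchange, recursion and polynomiality of `F22`, `F13`. -/

namespace H56.EX

open scoped BigOperators Classical


end H56.EX

end

section

/-!
# LT1: the Temperley–Lieb generator can be moved from the top pattern to the bottom pattern
at glued strands, without changing the leg class.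
-/

namespace H56.EX

open Relation

variable {Lt Lb : ℕ}

section vmap

end vmap

end H56.EX

end

section

/-! Topology lemma LT4 of the EXACT project: a small arc between the last glued strand
(position `-1`) and the first hole end (position `0`) of the top pattern. -/

namespace H56.EX

variable {Lt Lb : ℕ}

section

end

end H56.EX

end

section

/-! Symmetry of `F22`, `F13` in the glued strands. -/

namespace H56.EX

open scoped BigOperators Classical


/-! ### moving a parameter to the front -/


end H56.EX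

end

section

/-! Topology lemma LT3: a small arc between the last hole end of the top pattern and the first
glued strand turns the hole end into a hole end of the bottom pattern. -/

namespace H56.EX

namespace LT3

variable {Lt Lb : ℕ}

end LT3

variable {Lt Lb : ℕ}

end H56.EX

end
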