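import Pool.Agent.H94.BG.H31.PT.M31_3

/-! The parts of this file: H34.Hom.Struct, H34.Hom.Eval4, H34.Hom.Eval2, H34.Hom.Vals, H34.Hom.Asym, H34.Hom.SumVal. -/

section

/-!
# Structure of the homogeneous limit polynomials
-/

namespace Pool.Agent.H34.Hom

open Finset Polynomial Pool.Agent.H96.EX Filter Topology

lemma listprod_natDegree (c : List ℂ) :
    ((c.map fun a => (X - C a : ℂ[X])).prod).natDegree ≤ c.length := by
  induction c with
  | nil => simp
  | cons a c ih =>
    rw [List.map_cons, List.prod_cons, List.length_cons]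
    refine natDegree_mul_le.trans ?_
    rw [natDegree_X_sub_C]
    omega

lemma sqprod_natDegree (M : ℕ) (z : ℕ → ℂ) :
    (∏ j ∈ range M, (X - C (z j) : ℂ[X]) ^ 2).natDegree ≤ 2 * M := by
  refine (natDegree_prod_le _ _).trans ?_
  have : ∑ j ∈ range M, ((X - C (z j) : ℂ[X]) ^ 2).natDegree ≤ ∑ j ∈ range M, 2 := by
    apply sum_le_sum
    intro j _
    refine natDegree_pow_le.trans ?_
    rw [natDegree_X_sub_C]
  refine this.trans ?_
  simp; omega

lemma Phi_natDegree (q u v : ℂ) (M : ℕ) (c : List ℂ) (z : ℕ → ℂ) :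
    (Phi q u v M c z).natDegree ≤ 3 * M + c.length := by
  unfold Phi
  refine natDegree_mul_le.trans ?_
  have h1 := sqprod_natDegree M z
  have h2 : (Sp q u v M c z * (c.map fun a => X - C a).prod).natDegree ≤ M + c.length := by
    refine natDegree_mul_le.trans ?_
    have := Sp_natDegree q u v M c z
    have := listprod_natDegree c
    omega
  omega

/-- the cubes of the parameters as a finset -/
noncomputable def cub (M : ℕ) (z : ℕ → ℂ) : Finset ℂ := (range M).image fun j => z j ^ 3

lemma card_cub {M : ℕ} {z : ℕ → ℂ} (hz : Gen M z) : (cub M z).card = M := by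
  unfold cub
  rw [card_image_of_injOn, card_range]
  intro a ha b hb hab
  by_contra hne
  exact hz a (mem_range.1 ha) b (mem_range.1 hb) hne hab

/-! ### limits -/

lemma CT_sec {F : Filter ℝ} {p : ℝ → ℂ[X]} {P : ℂ[X]} (r : ℕ) (h : CT F p P) :
    CT F (fun t => sec r (p t)) (sec r P) := by
  intro k
  simp only [coeff_sec]
  exact h _

lemma CT_Phi {q : ℂ} (u v : ℂ) (M : ℕ) (c : List ℂ) {A : ℂ[X]}
    (hA : CT (𝓝[>] (0 : ℝ)) (fun t => Sp q u v M c (zt t)) A) :
    CT (𝓝[>] (0 : ℝ)) (fun t => Phi q u v M c (zt t))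
      (A * (c.map fun a => X - C a).prod * (X - 1) ^ (2 * M)) := by
  have h1 : (∏ j ∈ range M, (X - C (1 : ℂ)) ^ 2) = (X - 1 : ℂ[X]) ^ (2 * M) := by
    rw [prod_const, card_range, ← pow_mul, map_one]
  rw [← h1]
  unfold Phi
  refine (hA.mul (CT.const _ _)).mul (CT.prod _ ?_)
  intro j _
  exact ((CT.const _ _).sub (CT.C (tendsto_zt j))).pow 2

/-! ### top coefficient, value at zero, recursion at `q²` -/

lemma SGpoly_coeff (q u v : ℂ) (M : ℕ) (c : List ℂ) (z : ℕ → ℂ) :
    (SGpoly q u v (range M) c z).coeff M = SG q u v (range M) c z := by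
  unfold SGpoly SG
  rw [finsetSum_coeff]
  apply sum_congr rfl
  intro A hA
  rw [mem_powerset] at hA
  have hb : ∀ (T : Finset ℕ) (f g : ℕ → ℂ),
      (∏ j ∈ T, C (f j) * (X - C (g j))).natDegree ≤ T.card := by
    intro T f g
    refine (natDegree_prod_le _ _).trans ?_
    rw [Finset.card_eq_sum_ones]
    apply Finset.sum_le_sum
    intro j _
    refine (natDegree_C_mul_le _ _).trans ?_
    exact natDegree_X_sub_C_le _
  have hb2 : ∀ (T : Finset ℕ) (f g : ℕ → ℂ),
      (∏ j ∈ T, C (f j) * (X - C (g j))).coeff T.card = ∏ j ∈ T, f j := by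
    intro T f g
    have := coeff_prod_of_natDegree_le T (fun j => C (f j) * (X - C (g j))) 1 (fun j _ =>
      (natDegree_C_mul_le _ _).trans (natDegree_X_sub_C_le _))
    rw [mul_one] at this
    rw [this]
    apply prod_congr rfl
    intro j _
    rw [coeff_C_mul]
    simp
  rw [mul_comm _ (C _), coeff_C_mul]
  have hcard : M = A.card + (range M \ A).card := by
    rw [Finset.card_sdiff_of_subset hA, card_range]
    have := Finset.card_le_card hA
    rw [card_range] at this
    omega
  have key := coeff_mul_add_eq_of_natDegree_le (hb A (fun j => u * lg c (q * z j)) (fun j => q * z j))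
    (hb (range M \ A) (fun j => v * lg c (q ^ 2 * z j)) (fun j => q ^ 2 * z j))
  rw [← hcard, hb2, hb2] at key
  rw [key]
  ring

lemma Sp_coeff (q u v : ℂ) (M : ℕ) (c : List ℂ) (z : ℕ → ℂ) :
    (Sp q u v M c z).coeff M = SS q u v M c z := by
  unfold Sp SS
  rw [coeff_C_mul, SGpoly_coeff]

lemma top_HV {q : ℂ} (u v : ℂ) (hq : q ^ 2 + q + 1 = 0) (M : ℕ) (c : List ℂ) {A : ℂ[X]}
    (hA : CT (𝓝[>] (0 : ℝ)) (fun t => Sp q u v M c (zt t)) A) : A.coeff M = HV q u v M c := by
  have h1 := hA M
  simp only [Sp_coeff] at h1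
  exact tendsto_nhds_unique h1 (tendsto_HV u v hq M c)

end Pool.Agent.H34.Hom

end

section

/-!
# Evaluation of the four-leg and three-leg polynomials at `1`
-/

namespace Pool.Agent.H34.Hom

open Finset Polynomial

end Pool.Agent.H34.Hom

end

section

/-!
# Evaluation of the two-leg, one-leg and zero-leg polynomials
-/

namespace Pool.Agent.H34.Hom

open Finset Polynomial

end Pool.Agent.H34.Hom

end

section

/-!
# The homogeneous values as products
-/

namespace Pool.Agent.H34.Hom

open Finset Polynomial Pool.Agent.H96.EX Filter Topology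

/-- number of alternating sign matrices (product formula, as a real number) -/
noncomputable def asm : ℕ → ℝ
  | 0 => 1
  | n + 1 => asm n * (((3 * n + 1).factorial : ℝ) * (n.factorial : ℝ) /
      (((2 * n).factorial : ℝ) * ((2 * n + 1).factorial : ℝ)))

section

variable {q : ℂ} (hq : q ^ 2 + q + 1 = 0)
include hq

end

end Pool.Agent.H34.Hom

end

section

/-!
# Asymptotics of the product formulas
-/

namespace Pool.Agent.H34.Hom

open Finset Filter Topology Stirling

/-- ratio `A(k+1)/A(k)` -/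
noncomputable def ra (k : ℕ) : ℝ := ((3 * k + 1).factorial : ℝ) * (k.factorial : ℝ) /
      (((2 * k).factorial : ℝ) * ((2 * k + 1).factorial : ℝ))

/-- normalised squared ratio -/
noncomputable def mu (k : ℕ) : ℝ := ra k ^ 2 * (16 / 27) ^ (2 * k + 1)

/-- `log μ` plus its leading term -/
noncomputable def Ee (k : ℕ) : ℝ := Real.log (mu k) + 5 / (9 * (2 * k + 1))

/-- `A_HT(2n)` -/
noncomputable def aht (n : ℕ) : ℝ := asm n ^ 2 * ∏ k ∈ range n, ((3 * k + 2) / (3 * k + 1) : ℝ)

/-- two-leg probability -/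
noncomputable def p2 (n : ℕ) : ℝ := asm (2 * n) / aht n ^ 2

/-! ### the four-leg law -/

/-- the four-leg number `P4(2m+2)`, `M = 2m` glued strands -/
noncomputable def f4 (m : ℕ) : ℝ :=
  (6 * m + 3) * (A0 (2 * m) : ℝ) ^ 2 * asm (2 * m + 1) /
    (9 ^ m * (((4 * m + 3).factorial : ℝ) * ((4 * m + 2).factorial : ℝ)))

/-- the ratio `P4/A` -/
noncomputable def rr (m : ℕ) : ℝ :=
  (6 * m + 3) * (A0 (2 * m) : ℝ) ^ 2 / (9 ^ m * (((2 * m + 1).factorial : ℝ) * ((6 * m + 4).factorial : ℝ)))

/-- four-leg probability on the cylinder of circumference `2n`, `n = m+1` -/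
noncomputable def p4 (n : ℕ) : ℝ := f4 (n - 1) / aht n ^ 2

end Pool.Agent.H34.Hom

end

section

/-!
# The value of the sum rule at the homogeneous point: `A_HT(2n)`
-/

set_option autoImplicit false

namespace Pool.Agent.H34.Hom

open Finset Polynomial

/-! ### the products -/

end Pool.Agent.H34.Hom

end
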