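import Pool.Agent.H94.BG.H31.PT.M33

/-! The parts of this file: H34.Hom.Struct, H34.Hom.Eval4, H34.Hom.Eval2, H34.Hom.Vals, H34.Hom.Asym, H34.Hom.SumVal. -/

section

/-!
# Structure of the homogeneous limit polynomials
-/

namespace Pool.Agent.H34.Hom

open Finset Polynomial Pool.Agent.H96.EX Filter Topology

/-- `l = 1`: no exponents `≡ 2` -/
theorem sec2_Phi {q : ℂ} (hq : q ^ 2 + q + 1 = 0) (M : ℕ) (c : List ℂ) (hc : c.length ≤ 1)
    (z : ℕ → ℂ) (hz : Gen M z) (hz0 : ∀ j, z j ≠ 0) :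
    sec 2 (Phi q (q ^ 2) q M c z) = 0 := by
  have q3 : q ^ 3 = 1 := by linear_combination (q - 1) * hq
  have q0 : q ≠ 0 := by rintro rfl; norm_num at hq
  apply Polynomial.eq_zero_of_degree_lt_of_eval_finset_eq_zero (cub M z)
  · rw [card_cub hz, degree_lt_iff_coeff_zero]
    intro k hk
    rw [coeff_sec, coeff_eq_zero_of_natDegree_lt]
    have := Phi_natDegree q (q ^ 2) q M c z
    omega
  · intro x hx
    unfold cub at hx
    rw [mem_image] at hx
    obtain ⟨a, ha, rfl⟩ := hx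
    rw [mem_range] at ha
    apply sec2_eval_eq_zero hq _ _ (hz0 a) (Phi_root _ _ _ _ _ ha)
    have := Phi_three (q ^ 2) q hq hz ha c
    apply mul_left_cancel₀ q0
    rw [mul_zero, ← this]
    ring

/-! ### limits -/

theorem struct1 {q : ℂ} (hq : q ^ 2 + q + 1 = 0) (M : ℕ) (c : List ℂ) (hc : c.length ≤ 1) {A : ℂ[X]}
    (hA : CT (𝓝[>] (0 : ℝ)) (fun t => Sp q (q ^ 2) q M c (zt t)) A) :
    sec 2 (A * (c.map fun a => X - C a).prod * (X - 1) ^ (2 * M)) = 0 := by
  have h1 := CT_sec 2 (CT_Phi (q := q) (q ^ 2) q M c hA)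
  have h2 : CT (𝓝[>] (0 : ℝ)) (fun t => sec 2 (Phi q (q ^ 2) q M c (zt t))) 0 := by
    refine (CT.const _ 0).congr' ?_
    filter_upwards [self_mem_nhdsWithin] with t ht
    exact (sec2_Phi hq M c hc (zt t) (gen_zt M ht) (zt_ne_zero ht)).symm
  exact h1.unique h2

/-! ### top coefficient, value at zero, recursion at `q²` -/

lemma Wf_last {q : ℂ} (u v : ℂ) (hq : q ^ 2 + q + 1 = 0) {M : ℕ} {z : ℕ → ℂ} (hz : Gen (M + 1) z)
    (c : List ℂ) : Wf q u v (M + 1) M c z = z M * SS q u v M (z M :: c) z := by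
  unfold Wf SS
  have e : (range (M + 1)).erase M = range M := by
    rw [range_add_one, erase_insert (by simp)]
  rw [e]
  have e2 : PM (M + 1) z = PM M z * ∏ j ∈ range M, (z j ^ 2 + z j * z M + z M ^ 2) := by
    unfold PM pp
    rw [prod_range_succ]
  have e3 : ∏ j ∈ range M, (z j ^ 2 + z j * z M + z M ^ 2) ≠ 0 := by
    rw [prod_ne_zero_iff]
    intro j hj h
    rw [mem_range] at hj
    apply hz j (by omega) M (by omega) (by omega)
    linear_combination (z j - z M) * h
  rw [e2, mul_div_assoc, div_self e3, mul_one]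
  ring

/-- recursion of the homogeneous values -/
theorem HV_rec {q : ℂ} (u v : ℂ) (hq : q ^ 2 + q + 1 = 0) (M : ℕ) (c : List ℂ) :
    HV q u v (M + 1) (q ^ 2 :: c) =
      u * (q ^ 2 - q) * lg c q * (1 - q) ^ (2 * M) * HV q u v M (1 :: c) := by
  have h1 : Tendsto (fun t : ℝ => SS q u v (M + 1) ((q ^ 2 * zt t M) :: c) (zt t)) (𝓝[>] 0)
      (𝓝 (HV q u v (M + 1) (q ^ 2 :: c))) := by
    have := tendsto_HV' (κ := Option (Fin c.length)) u v hq (M + 1)
      (none :: (List.finRange c.length).map some)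
      (fun t o => o.elim (q ^ 2 * zt t M) (fun i => c.get i))
      (fun o => o.elim (q ^ 2) (fun i => c.get i))
      (F := 𝓝[>] (0 : ℝ)) (by
        intro a
        cases a with
        | none =>
          have := (tendsto_zt M).const_mul (q ^ 2)
          simpa using this
        | some i => exact tendsto_const_nhds) zt tendsto_zt (by
        filter_upwards [self_mem_nhdsWithin] with t ht
        exact gen_zt _ ht)
    simpa [List.map_map, Function.comp_def] using this
  have h2 : Tendsto (fun t : ℝ => SS q u v M (zt t M :: c) (zt t)) (𝓝[>] 0)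
      (𝓝 (HV q u v M (1 :: c))) := by
    have := tendsto_HV' (κ := Option (Fin c.length)) u v hq M
      (none :: (List.finRange c.length).map some)
      (fun t o => o.elim (zt t M) (fun i => c.get i))
      (fun o => o.elim 1 (fun i => c.get i))
      (F := 𝓝[>] (0 : ℝ)) (by
        intro a
        cases a with
        | none =>
          have := (tendsto_zt M)
          simpa using this
        | some i => exact tendsto_const_nhds) zt tendsto_zt (by
        filter_upwards [self_mem_nhdsWithin] with t ht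
        exact gen_zt _ ht)
    simpa [List.map_map, Function.comp_def] using this
  have h3 : Tendsto (fun t : ℝ => lg c (q * zt t M)) (𝓝[>] 0) (𝓝 (lg c q)) := by
    have hc : Continuous (fun x : ℂ => lg c x) := by
      clear h1 h2
      induction c with
      | nil => simpa using continuous_const
      | cons a c ih =>
        simp only [lg_cons]
        fun_prop
    have e := (tendsto_zt M).const_mul q
    rw [mul_one] at e
    exact (hc.tendsto q).comp e
  have h4 : Tendsto (fun t : ℝ => ∏ j ∈ range M, (zt t j - q * zt t M) ^ 2) (𝓝[>] 0)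
      (𝓝 ((1 - q) ^ (2 * M))) := by
    have e : ((1 - q) ^ (2 * M)) = ∏ j ∈ range M, ((1 : ℂ) - q * 1) ^ 2 := by
      rw [prod_const, card_range, ← pow_mul, mul_one]
    rw [e]
    apply tendsto_finsetProd
    intro j _
    exact ((tendsto_zt j).sub ((tendsto_zt M).const_mul q)).pow 2
  have h5 := ((h3.const_mul (u * (q ^ 2 - q))).mul h4).mul ((tendsto_zt M).mul h2)
  have h6 : u * (q ^ 2 - q) * lg c q * (1 - q) ^ (2 * M) * (1 * HV q u v M (1 :: c)) =
    u * (q ^ 2 - q) * lg c q * (1 - q) ^ (2 * M) * HV q u v M (1 :: c) := by ring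
  rw [h6] at h5
  refine tendsto_nhds_unique h1 (h5.congr' ?_)
  filter_upwards [self_mem_nhdsWithin] with t ht
  rw [SS_rec1 u v hq (gen_zt (M + 1) ht) (Nat.lt_succ_self M), Wf_last u v hq (gen_zt (M + 1) ht)]
  have e : (range (M + 1)).erase M = range M := by
    rw [range_add_one, erase_insert (by simp)]
  rw [e]

end Pool.Agent.H34.Hom

end

section

/-!
# Evaluation of the four-leg and three-leg polynomials at `1`
-/

namespace Pool.Agent.H34.Hom

open Finset Polynomial

end Pool.Agent.H34.Hom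

end

section

/-!
# Evaluation of the two-leg, one-leg and zero-leg polynomials
-/

namespace Pool.Agent.H34.Hom

open Finset Polynomial

/-- `∏_{m ≤ M, m ≠ k} (k - m) = (-1)^(M-k) k! (M-k)!` -/
lemma prod_erase_sub (k M : ℕ) (hk : k ≤ M) :
    ∏ m ∈ (range (M + 1)).erase k, ((k : ℂ) - m) =
      (-1) ^ (M - k) * (k.factorial : ℂ) * ((M - k).factorial : ℂ) := by
  induction M, hk using Nat.le_induction with
  | base =>
    rw [range_add_one, erase_insert (by simp)]
    simp only [tsub_self, pow_zero, Nat.factorial_zero, Nat.cast_one, one_mul, mul_one]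
    rw [← prod_range_reflect]
    have : ∀ j ∈ range k, ((k : ℂ) - ((k - 1 - j : ℕ) : ℂ)) = ((j + 1 : ℕ) : ℂ) := by
      intro j hj
      rw [mem_range] at hj
      have : (k : ℂ) = ((k - 1 - j : ℕ) : ℂ) + ((j + 1 : ℕ) : ℂ) := by
        rw [← Nat.cast_add]; congr 1; omega
      rw [this]; ring
    rw [prod_congr rfl this, ← Nat.cast_prod, prod_range_add_one_eq_factorial]
  | succ M hM ih =>
    have e : (range (M + 1 + 1)).erase k = insert (M + 1) ((range (M + 1)).erase k) := by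
      rw [range_add_one (n := M + 1), erase_insert_of_ne (by omega)]
    rw [e, prod_insert (by simp), ih]
    have e2 : M + 1 - k = (M - k) + 1 := by omega
    rw [e2, Nat.factorial_succ, pow_succ]
    have e3 : ((M - k : ℕ) : ℂ) = M - k := by rw [Nat.cast_sub hM]
    push_cast
    rw [e3]
    ring

/-- the test polynomial for the exponent `3k` -/
noncomputable def tpoly (M k : ℕ) : ℂ[X] :=
  (∏ m ∈ (range (M + 1)).erase k, (X - C ((3 * m : ℕ) : ℂ))) *
    ∏ m ∈ range (M + 1), (X - C ((3 * m + 1 : ℕ) : ℂ))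

lemma tpoly_monic (M k : ℕ) : (tpoly M k).Monic :=
  (monic_prod_of_monic _ _ fun _ _ => monic_X_sub_C _).mul
    (monic_prod_of_monic _ _ fun _ _ => monic_X_sub_C _)

lemma tpoly_natDegree (M k : ℕ) (hk : k ≤ M) : (tpoly M k).natDegree = 2 * M + 1 := by
  unfold tpoly
  rw [(monic_prod_of_monic _ _ fun m _ => monic_X_sub_C _).natDegree_mul
    (monic_prod_of_monic _ _ fun m _ => monic_X_sub_C _)]
  rw [natDegree_prod_of_monic _ _ (fun m _ => monic_X_sub_C _),
    natDegree_prod_of_monic _ _ (fun m _ => monic_X_sub_C _)]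
  simp only [natDegree_X_sub_C, sum_const, smul_eq_mul, mul_one, card_range]
  rw [card_erase_of_mem (mem_range.2 (Nat.lt_succ_of_le hk)), card_range]
  omega

lemma tpoly_eval_self (M k : ℕ) (hk : k ≤ M) : (tpoly M k).eval (3 * (k : ℂ)) =
    3 ^ M * ((-1) ^ (M - k) * (k.factorial : ℂ) * ((M - k).factorial : ℂ)) * (Dd M k : ℂ) := by
  unfold tpoly
  rw [eval_mul, eval_prod, eval_prod, ← prod_erase_sub k M hk]
  have h1 : ∏ j ∈ (range (M + 1)).erase k, eval (3 * (k : ℂ)) (X - C ((3 * j : ℕ) : ℂ)) =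
      3 ^ M * ∏ m ∈ (range (M + 1)).erase k, ((k : ℂ) - m) := by
    have h2 : (3 : ℂ) ^ M = ∏ m ∈ (range (M + 1)).erase k, (3 : ℂ) := by
      rw [prod_const, card_erase_of_mem (mem_range.2 (Nat.lt_succ_of_le hk)), card_range]
      simp
    rw [h2, ← prod_mul_distrib]
    apply prod_congr rfl
    intro j _
    simp only [eval_sub, eval_X, eval_C]
    push_cast
    ring
  have h3 : ∏ j ∈ range (M + 1), eval (3 * (k : ℂ)) (X - C ((3 * j + 1 : ℕ) : ℂ)) = (Dd M k : ℂ) := by
    unfold Dd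
    rw [Int.cast_prod]
    apply prod_congr rfl
    intro j _
    simp only [eval_sub, eval_X, eval_C]
    push_cast
    ring
  rw [h1, h3]

lemma mom_single (φ P : ℂ[X]) (e0 : ℕ) (h : ∀ e : ℕ, e ≠ e0 → φ.coeff e = 0 ∨ P.eval (e : ℂ) = 0) :
    mom φ (fun x => P.eval x) = φ.coeff e0 * P.eval (e0 : ℂ) := by
  rw [mom_eq_range φ _ (φ.natDegree + e0 + 1) (by omega)]
  rw [Finset.sum_eq_single e0]
  · intro e _ he
    rcases h e he with h1 | h1
    · rw [h1, zero_mul]
    · simp only [h1, mul_zero]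
  · intro h'
    exfalso; apply h'; rw [mem_range]; omega

/-- a coefficient of the two-leg polynomial -/
lemma coeff_two_leg (A : ℂ[X]) (M : ℕ) (hdeg : A.natDegree ≤ M)
    (h : sec 2 (A * (X - 1) ^ (2 * M + 1)) = 0) (k : ℕ) (hk : k ≤ M) :
    (A * (X - 1) ^ (2 * M + 1)).coeff (3 * k) * (3 ^ M * ((-1) ^ (M - k) * (k.factorial : ℂ) *
      ((M - k).factorial : ℂ)) * (Dd M k : ℂ)) = A.eval 1 * ((2 * M + 1).factorial : ℂ) := by
  have hd : ((X - 1 : ℂ[X]) ^ (2 * M + 1)).natDegree ≤ 2 * M + 1 := by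
    refine natDegree_pow_le.trans ?_
    have : (X - 1 : ℂ[X]).natDegree ≤ 1 := natDegree_X_sub_C_le (1 : ℂ)
    nlinarith only [this]
  have hdeg2 : (A * (X - 1) ^ (2 * M + 1)).natDegree ≤ 3 * M + 1 := by
    refine natDegree_mul_le.trans ?_
    omega
  have h1 := mom_eq_factorial (2 * M + 1) A (tpoly M k) (tpoly_natDegree M k hk)
  rw [tpoly_monic, one_mul, mul_comm ((X - 1) ^ _) A] at h1
  rw [← h1, mom_single _ _ (3 * k)]
  · have := tpoly_eval_self M k hk
    push_cast
    rw [this]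
  · intro e he
    obtain ⟨m, hm⟩ : ∃ m, e = 3 * m ∨ e = 3 * m + 1 ∨ e = 3 * m + 2 := ⟨e / 3, by omega⟩
    rcases hm with rfl | rfl | rfl
    · rcases le_or_gt m M with hmM | hmM
      · right
        unfold tpoly
        rw [eval_mul, eval_prod]
        rw [prod_eq_zero (i := m) (mem_erase.2 ⟨by omega, mem_range.2 (Nat.lt_succ_of_le hmM)⟩)]
        · rw [zero_mul]
        · simp
      · left
        exact coeff_eq_zero_of_natDegree_lt (by omega)
    · rcases le_or_gt m M with hmM | hmM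
      · right
        unfold tpoly
        rw [eval_mul, eval_prod, eval_prod]
        rw [prod_eq_zero (s := range (M + 1)) (i := m) (mem_range.2 (Nat.lt_succ_of_le hmM))]
        · rw [mul_zero]
        · simp
      · left
        exact coeff_eq_zero_of_natDegree_lt (by omega)
    · left
      rw [← coeff_sec, h, coeff_zero]

/-- the value of the two-leg polynomial at `q²` -/
theorem eval_two_leg {q : ℂ} (hq : q ^ 2 + q + 1 = 0) (A : ℂ[X]) (M : ℕ) (hdeg : A.natDegree ≤ M)
    (h : sec 2 (A * (X - 1) ^ (2 * M + 1)) = 0) :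
    A.eval (q ^ 2) * (q ^ 2 - 1) ^ (2 * M + 1) * ((M.factorial : ℂ) * ((3 * M + 1).factorial : ℂ)) =
      (q ^ 2 - 1) * (A.eval 1 * ((2 * M + 1).factorial : ℂ) * ((2 * M).factorial : ℂ) * 3 ^ M) := by
  have q3 : q ^ 3 = 1 := by linear_combination (q - 1) * hq
  set φ := A * (X - 1) ^ (2 * M + 1) with hφ
  have hφdeg : φ.natDegree ≤ 3 * M + 1 := by
    refine natDegree_mul_le.trans ?_
    have hd : ((X - 1 : ℂ[X]) ^ (2 * M + 1)).natDegree ≤ 2 * M + 1 := by
      refine natDegree_pow_le.trans ?_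
      have : (X - 1 : ℂ[X]).natDegree ≤ 1 := natDegree_X_sub_C_le (1 : ℂ)
      nlinarith only [this]
    omega
  have h0 : φ.eval 1 = 0 := by simp [hφ]
  have h1 : φ.eval (q ^ 2) = A.eval (q ^ 2) * (q ^ 2 - 1) ^ (2 * M + 1) := by simp [hφ]
  have q6 : (q ^ 2) ^ 3 = 1 := by rw [← pow_mul, mul_comm, pow_mul, q3, one_pow]
  rw [eval_decomp φ 1, h] at h0
  rw [eval_decomp φ (q ^ 2), h, q6] at h1
  simp only [one_pow, one_mul, eval_zero, mul_zero, add_zero] at h0 h1
  -- sum of the coefficients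
  have hs : (sec 0 φ).eval 1 = ∑ k ∈ range (M + 1), φ.coeff (3 * k) := by
    rw [eval_eq_sum_range' (n := M + 1)]
    · apply sum_congr rfl
      intro k _
      rw [coeff_sec, one_pow, mul_one, add_zero]
    · rw [Nat.lt_succ_iff, natDegree_le_iff_coeff_eq_zero]
      intro N hN
      rw [coeff_sec, coeff_eq_zero_of_natDegree_lt (by omega)]
  have hk : ∀ k ∈ range (M + 1), φ.coeff (3 * k) =
      A.eval 1 * ((2 * M + 1).factorial : ℂ) * (-1) ^ M / (3 ^ M * (M.factorial : ℂ)) * Tt ℂ M k := by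
    intro k hk
    rw [mem_range, Nat.lt_succ_iff] at hk
    have := coeff_two_leg A M hdeg h k hk
    have d0 : (Dd M k : ℂ) ≠ 0 := Int.cast_ne_zero.2 (Dd_ne_zero M k)
    have f1 : (k.factorial : ℂ) ≠ 0 := Nat.cast_ne_zero.2 (Nat.factorial_ne_zero _)
    have f2 : ((M - k).factorial : ℂ) ≠ 0 := Nat.cast_ne_zero.2 (Nat.factorial_ne_zero _)
    have f3 : (M.factorial : ℂ) ≠ 0 := Nat.cast_ne_zero.2 (Nat.factorial_ne_zero _)
    have hc : (M.choose k : ℂ) * ((k.factorial : ℂ) * ((M - k).factorial : ℂ)) = (M.factorial : ℂ) := by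
      have := Nat.choose_mul_factorial_mul_factorial hk
      rw [← mul_assoc]
      exact_mod_cast this
    have hsg : ((-1 : ℂ) ^ (M - k)) * (-1) ^ (M - k) = 1 := by
      rw [← pow_add]; exact (Even.add_self _).neg_one_pow
    have hsg2 : ((-1 : ℂ) ^ M) * (-1) ^ k = (-1) ^ (M - k) := by
      rw [← pow_add]
      have : M + k = (M - k) + (k + k) := by omega
      rw [this, pow_add]
      have : ((-1 : ℂ) ^ (k + k)) = 1 := (Even.add_self _).neg_one_pow
      rw [this, mul_one]
    have hfac : (3 ^ M * (M.factorial : ℂ)) ≠ 0 := mul_ne_zero (pow_ne_zero _ (by norm_num)) f3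
    unfold Tt
    rw [div_mul_div_comm, eq_div_iff (mul_ne_zero hfac d0)]
    rw [← hφ] at this
    generalize (Dd M (k : ℤ) : ℂ) = D at *
    generalize (M.choose k : ℂ) = Cc at *
    generalize (k.factorial : ℂ) = K1 at *
    generalize ((M - k).factorial : ℂ) = K2 at *
    generalize (M.factorial : ℂ) = K3 at *
    generalize φ.coeff (3 * k) = cc at *
    generalize ((2 * M + 1).factorial : ℂ) = K4 at *
    generalize (-1 : ℂ) ^ (M - k) = s at *
    linear_combination (s * Cc) * this - cc * 3 ^ M * D * hc - cc * 3 ^ M * D * (Cc * K1 * K2) * hsg -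
      (eval 1 A * K4 * Cc) * hsg2
  rw [hs, sum_congr rfl hk, ← mul_sum] at h0 h1
  have hH := Hsum_eq ℂ M
  unfold Hsum at hH
  rw [hH] at h0 h1
  rw [← h1]
  have f3 : (M.factorial : ℂ) ≠ 0 := Nat.cast_ne_zero.2 (Nat.factorial_ne_zero _)
  have f4 : ((3 * M + 1).factorial : ℂ) ≠ 0 := Nat.cast_ne_zero.2 (Nat.factorial_ne_zero _)
  have e1 : eval 1 (sec 1 φ) = -(eval 1 A * ((2 * M + 1).factorial : ℂ) * (-1) ^ M / (3 ^ M * (M.factorial : ℂ)) *
      ((-1) ^ (M + 1) * 9 ^ M * ((2 * M).factorial : ℂ) / ((3 * M + 1).factorial : ℂ))) := by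
    linear_combination h0
  rw [e1]
  have e9 : (9 : ℂ) ^ M = 3 ^ M * 3 ^ M := by rw [← mul_pow]; norm_num
  have hsg : ((-1 : ℂ) ^ M) * (-1) ^ M = 1 := by
    rw [← pow_add]; exact (Even.add_self _).neg_one_pow
  rw [e9, pow_succ]
  field_simp
  linear_combination (-1 + q ^ 2) * (eval 1 A * ((2 * M + 1).factorial : ℂ) * ((2 * M).factorial : ℂ)) * hsg

/-- the top coefficient of the two-leg polynomial -/
theorem top_two_leg (A : ℂ[X]) (M : ℕ) (hdeg : A.natDegree ≤ M)
    (h : sec 2 (A * (X - 1) ^ (2 * M + 1)) = 0) :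
    A.coeff M * ((∏ m ∈ range (M + 1), (3 * (m : ℂ) + 1)) * (3 ^ M * (M.factorial : ℂ))) =
      A.eval 1 * ((2 * M + 1).factorial : ℂ) := by
  set φ := A * (X - 1) ^ (2 * M + 1) with hφ
  have hd : ((X - 1 : ℂ[X]) ^ (2 * M + 1)).natDegree ≤ 2 * M + 1 := by
    refine natDegree_pow_le.trans ?_
    have : (X - 1 : ℂ[X]).natDegree ≤ 1 := natDegree_X_sub_C_le (1 : ℂ)
    nlinarith only [this]
  have hφdeg : φ.natDegree ≤ 3 * M + 1 := by
    refine natDegree_mul_le.trans ?_
    omega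
  have hmon : ((X - 1 : ℂ[X]) ^ (2 * M + 1)).coeff (2 * M + 1) = 1 := by
    have := (monic_X_sub_C (1 : ℂ)).pow (2 * M + 1)
    have h2 : ((X - C (1 : ℂ)) ^ (2 * M + 1)).natDegree = 2 * M + 1 := by
      rw [(monic_X_sub_C (1 : ℂ)).natDegree_pow, natDegree_X_sub_C, mul_one]
    rw [Monic, leadingCoeff, h2] at this
    exact this
  have htop : φ.coeff (3 * M + 1) = A.coeff M := by
    have : 3 * M + 1 = M + (2 * M + 1) := by ring
    rw [this, hφ, coeff_mul_add_eq_of_natDegree_le hdeg hd, hmon, mul_one]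
  -- test polynomial
  set P : ℂ[X] := (∏ m ∈ range (M + 1), (X - C ((3 * m : ℕ) : ℂ))) *
    ∏ m ∈ range M, (X - C ((3 * m + 1 : ℕ) : ℂ)) with hP
  have hPm : P.Monic := (monic_prod_of_monic _ _ fun _ _ => monic_X_sub_C _).mul
    (monic_prod_of_monic _ _ fun _ _ => monic_X_sub_C _)
  have hPd : P.natDegree = 2 * M + 1 := by
    rw [hP, (monic_prod_of_monic _ _ fun _ _ => monic_X_sub_C _).natDegree_mul
      (monic_prod_of_monic _ _ fun _ _ => monic_X_sub_C _)]
    rw [natDegree_prod_of_monic _ _ (fun _ _ => monic_X_sub_C _),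
      natDegree_prod_of_monic _ _ (fun _ _ => monic_X_sub_C _)]
    simp only [natDegree_X_sub_C, sum_const, smul_eq_mul, mul_one, card_range]
    ring
  have h1 := mom_eq_factorial (2 * M + 1) A P hPd
  rw [hPm, one_mul, mul_comm ((X - 1) ^ _) A, ← hφ, mom_single _ _ (3 * M + 1)] at h1
  · rw [htop] at h1
    rw [← h1]
    congr 1
    rw [hP, eval_mul, eval_prod, eval_prod]
    have e1 : ∏ j ∈ range (M + 1), eval ((3 * M + 1 : ℕ) : ℂ) (X - C ((3 * j : ℕ) : ℂ)) =
        ∏ m ∈ range (M + 1), (3 * (m : ℂ) + 1) := by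
      rw [← prod_range_reflect]
      apply prod_congr rfl
      intro j hj
      rw [mem_range] at hj
      rw [show M + 1 - 1 - j = M - j by omega]
      have : ((M - j : ℕ) : ℂ) = M - j := by
        rw [Nat.cast_sub (by omega)]
      simp only [eval_sub, eval_X, eval_C]
      push_cast
      rw [this]
      ring
    have e2 : ∏ j ∈ range M, eval ((3 * M + 1 : ℕ) : ℂ) (X - C ((3 * j + 1 : ℕ) : ℂ)) =
        3 ^ M * (M.factorial : ℂ) := by
      have h3 : (3 : ℂ) ^ M = ∏ m ∈ range M, (3 : ℂ) := by simp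
      rw [← prod_range_add_one_eq_factorial, Nat.cast_prod, h3, ← prod_range_reflect,
        ← prod_mul_distrib]
      apply prod_congr rfl
      intro j hj
      rw [mem_range] at hj
      have : ((M - 1 - j : ℕ) : ℂ) = M - 1 - j := by
        rw [Nat.cast_sub (by omega), Nat.cast_sub (by omega)]; simp
      simp only [eval_sub, eval_X, eval_C]
      push_cast
      rw [this]
      ring
    rw [e1, e2]
  · intro e he
    obtain ⟨m, hm⟩ : ∃ m, e = 3 * m ∨ e = 3 * m + 1 ∨ e = 3 * m + 2 := ⟨e / 3, by omega⟩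
    rcases hm with rfl | rfl | rfl
    · rcases le_or_gt m M with hmM | hmM
      · right
        rw [hP, eval_mul, eval_prod]
        rw [prod_eq_zero (i := m) (mem_range.2 (Nat.lt_succ_of_le hmM))]
        · rw [zero_mul]
        · simp
      · left
        exact coeff_eq_zero_of_natDegree_lt (by omega)
    · rcases lt_or_ge m M with hmM | hmM
      · right
        rw [hP, eval_mul, eval_prod, eval_prod]
        rw [prod_eq_zero (s := range M) (i := m) (mem_range.2 hmM)]
        · rw [mul_zero]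
        · simp
      · left
        exact coeff_eq_zero_of_natDegree_lt (by omega)
    · left
      rw [← coeff_sec, h, coeff_zero]

/-- the top coefficient of the one-leg polynomial -/
theorem top_one_leg (A : ℂ[X]) (M : ℕ) (hdeg : A.natDegree ≤ M)
    (h : sec 2 (A * (X - 1) ^ (2 * M)) = 0) :
    A.coeff M * ((∏ m ∈ range M, (3 * (m : ℂ) + 2)) * (3 ^ M * (M.factorial : ℂ))) =
      A.eval 1 * ((2 * M).factorial : ℂ) := by
  set φ := A * (X - 1) ^ (2 * M) with hφ
  have hd : ((X - 1 : ℂ[X]) ^ (2 * M)).natDegree ≤ 2 * M := by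
    refine natDegree_pow_le.trans ?_
    have : (X - 1 : ℂ[X]).natDegree ≤ 1 := natDegree_X_sub_C_le (1 : ℂ)
    nlinarith only [this]
  have hφdeg : φ.natDegree ≤ 3 * M := by
    refine natDegree_mul_le.trans ?_
    omega
  have hmon : ((X - 1 : ℂ[X]) ^ (2 * M)).coeff (2 * M) = 1 := by
    have := (monic_X_sub_C (1 : ℂ)).pow (2 * M)
    have h2 : ((X - C (1 : ℂ)) ^ (2 * M)).natDegree = 2 * M := by
      rw [(monic_X_sub_C (1 : ℂ)).natDegree_pow, natDegree_X_sub_C, mul_one]
    rw [Monic, leadingCoeff, h2] at this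
    exact this
  have htop : φ.coeff (3 * M) = A.coeff M := by
    have : 3 * M = M + (2 * M) := by ring
    rw [this, hφ, coeff_mul_add_eq_of_natDegree_le hdeg hd, hmon, mul_one]
  set P : ℂ[X] := (∏ m ∈ range M, (X - C ((3 * m : ℕ) : ℂ))) *
    ∏ m ∈ range M, (X - C ((3 * m + 1 : ℕ) : ℂ)) with hP
  have hPm : P.Monic := (monic_prod_of_monic _ _ fun _ _ => monic_X_sub_C _).mul
    (monic_prod_of_monic _ _ fun _ _ => monic_X_sub_C _)
  have hPd : P.natDegree = 2 * M := by
    rw [hP, (monic_prod_of_monic _ _ fun _ _ => monic_X_sub_C _).natDegree_mul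
      (monic_prod_of_monic _ _ fun _ _ => monic_X_sub_C _)]
    rw [natDegree_prod_of_monic _ _ (fun _ _ => monic_X_sub_C _),
      natDegree_prod_of_monic _ _ (fun _ _ => monic_X_sub_C _)]
    simp only [natDegree_X_sub_C, sum_const, smul_eq_mul, mul_one, card_range]
    ring
  have h1 := mom_eq_factorial (2 * M) A P hPd
  rw [hPm, one_mul, mul_comm ((X - 1) ^ _) A, ← hφ, mom_single _ _ (3 * M)] at h1
  · rw [htop] at h1
    rw [← h1]
    congr 1
    rw [hP, eval_mul, eval_prod, eval_prod, mul_comm]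
    have e1 : ∏ j ∈ range M, eval ((3 * M : ℕ) : ℂ) (X - C ((3 * j + 1 : ℕ) : ℂ)) =
        ∏ m ∈ range M, (3 * (m : ℂ) + 2) := by
      rw [← prod_range_reflect]
      apply prod_congr rfl
      intro j hj
      rw [mem_range] at hj
      have : ((M - 1 - j : ℕ) : ℂ) = M - 1 - j := by
        rw [Nat.cast_sub (by omega), Nat.cast_sub (by omega)]; simp
      simp only [eval_sub, eval_X, eval_C]
      push_cast
      rw [this]
      ring
    have e2 : ∏ j ∈ range M, eval ((3 * M : ℕ) : ℂ) (X - C ((3 * j : ℕ) : ℂ)) =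
        3 ^ M * (M.factorial : ℂ) := by
      have h3 : (3 : ℂ) ^ M = ∏ m ∈ range M, (3 : ℂ) := by simp
      rw [← prod_range_add_one_eq_factorial, Nat.cast_prod, h3, ← prod_range_reflect,
        ← prod_mul_distrib]
      apply prod_congr rfl
      intro j hj
      rw [mem_range] at hj
      have : ((M - 1 - j : ℕ) : ℂ) = M - 1 - j := by
        rw [Nat.cast_sub (by omega), Nat.cast_sub (by omega)]; simp
      simp only [eval_sub, eval_X, eval_C]
      push_cast
      rw [this]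
      ring
    rw [e1, e2]
  · intro e he
    obtain ⟨m, hm⟩ : ∃ m, e = 3 * m ∨ e = 3 * m + 1 ∨ e = 3 * m + 2 := ⟨e / 3, by omega⟩
    rcases hm with rfl | rfl | rfl
    · rcases lt_or_ge m M with hmM | hmM
      · right
        rw [hP, eval_mul, eval_prod]
        rw [prod_eq_zero (i := m) (mem_range.2 hmM)]
        · rw [zero_mul]
        · simp
      · left
        exact coeff_eq_zero_of_natDegree_lt (by omega)
    · rcases lt_or_ge m M with hmM | hmM
      · right
        have hz : ∏ j ∈ range M, eval ((3 * m + 1 : ℕ) : ℂ) (X - C ((3 * j + 1 : ℕ) : ℂ)) = 0 :=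
          prod_eq_zero (mem_range.2 hmM) (by simp)
        rw [hP, eval_mul, eval_prod, eval_prod, hz, mul_zero]
      · left
        exact coeff_eq_zero_of_natDegree_lt (by omega)
    · left
      rw [← coeff_sec, h, coeff_zero]

end Pool.Agent.H34.Hom

end

section

/-!
# The homogeneous values as products
-/

namespace Pool.Agent.H34.Hom

open Finset Polynomial Pool.Agent.H96.EX Filter Topology

section

variable {q : ℂ} (hq : q ^ 2 + q + 1 = 0)
include hq

lemma two_leg_rec (M : ℕ) :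
    HV q (q ^ 2) q (M + 1) [1, 1] * (((2 * M + 3).factorial : ℂ) * ((2 * M + 2).factorial : ℂ)) =
      -(3 ^ (M + 1) * ((M + 1).factorial : ℂ) * ((3 * M + 4).factorial : ℂ)) * HV q (q ^ 2) q M [1, 1] := by
  have q3 : q ^ 3 = 1 := by linear_combination (q - 1) * hq
  obtain ⟨A, hdeg, hev, hCT⟩ := exists_HP (q := q) (q ^ 2) q hq (M + 1) [1]
  have h1 := struct1 hq (M + 1) [1] (by simp) hCT
  have e1 : A * (([1] : List ℂ).map fun a => X - C a).prod * (X - 1) ^ (2 * (M + 1)) =
      A * (X - 1) ^ (2 * (M + 1) + 1) := by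
    simp only [List.map_cons, List.map_nil, List.prod_cons, List.prod_nil, mul_one, map_one]
    ring
  rw [e1] at h1
  have h2 := eval_two_leg hq A (M + 1) hdeg h1
  rw [hev, hev, HV_rec (q ^ 2) q hq M [1]] at h2
  simp only [lg_cons, lg_nil, mul_one] at h2
  have hq1 : q ^ 2 - 1 ≠ 0 := by
    intro h
    have h3 : (3 : ℂ) = 0 := by linear_combination (2 - q) * hq + (q - 1) * h + (q^2 - 1 - q^2+1) * h
    norm_num at h3
  have key : q ^ 2 * (q ^ 2 - q) * (1 - q) * (1 - q) ^ (2 * M) * (q ^ 2 - 1) ^ (2 * (M + 1) + 1) =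
      -(3 ^ (2 * M + 2)) * (q ^ 2 - 1) := by
    have e2 : (1 - q) * (q ^ 2 - 1) = -3 := by linear_combination (2 - q) * hq
    have e3 : (1 - q) ^ (2 * M) * (q ^ 2 - 1) ^ (2 * M) = 3 ^ (2 * M) := by
      rw [← mul_pow, e2, pow_mul, pow_mul]; norm_num
    have e4 : 2 * (M + 1) + 1 = 2 * M + 3 := by ring
    rw [e4, pow_add (q ^ 2 - 1) (2 * M) 3]
    have e5 : q ^ 2 * (q ^ 2 - q) * (1 - q) * (q ^ 2 - 1) ^ 3 = - (3 ^ 2) * (q ^ 2 - 1) := by
      have e6 : q ^ 2 * (q ^ 2 - q) = q - 1 := by linear_combination (q - 1) * q3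
      rw [e6]
      linear_combination ((q - 1) * (q ^ 2 - 1) ^ 2 + 3 * (q ^ 2 - 1) * 0) * e2 + (3 * (q^2 - 1)) * e2 * 1 + 0 * hq
    calc _ = (q ^ 2 * (q ^ 2 - q) * (1 - q) * (q ^ 2 - 1) ^ 3) * ((1 - q) ^ (2 * M) * (q ^ 2 - 1) ^ (2 * M)) := by ring
      _ = _ := by rw [e3, e5]; ring
  have f1 : 2 * (M + 1) + 1 = 2 * M + 3 := by ring
  have f2 : 2 * (M + 1) = 2 * M + 2 := by ring
  have f3 : 3 * (M + 1) + 1 = 3 * M + 4 := by ring
  rw [f3] at h2
  have h3 : -(3 ^ (2 * M + 2)) * (q ^ 2 - 1) * HV q (q ^ 2) q M [1, 1] *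
      (((M + 1).factorial : ℂ) * ((3 * M + 4).factorial : ℂ)) =
      (q ^ 2 - 1) * (HV q (q ^ 2) q (M + 1) [1, 1] * ((2 * (M + 1) + 1).factorial : ℂ) *
        ((2 * (M + 1)).factorial : ℂ) * 3 ^ (M + 1)) := by
    rw [← h2, ← key]; ring
  rw [f1, f2] at h3
  have h30 : (3 : ℂ) ^ (M + 1) ≠ 0 := pow_ne_zero _ (by norm_num)
  apply mul_left_cancel₀ (mul_ne_zero hq1 h30)
  have e7 : (3 : ℂ) ^ (2 * M + 2) = 3 ^ (M + 1) * 3 ^ (M + 1) := by rw [← pow_add]; congr 1; ring
  rw [e7] at h3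
  linear_combination -h3

lemma HV_nil_zero (u v : ℂ) (c : List ℂ) : HV q u v 0 c = 1 := by
  have h1 := tendsto_HV u v hq 0 c
  have h2 : ∀ t : ℝ, SS q u v 0 c (zt t) = 1 := by
    intro t
    unfold SS PM pp SG
    simp
  simp only [h2] at h1
  exact tendsto_nhds_unique h1 tendsto_const_nhds

/-- the two-leg value is `(-1)^M 3^(M(M+1)/2) A(M+1)` -/
theorem two_leg_value (M : ℕ) :
    HV q (q ^ 2) q M [1, 1] = (-1) ^ M * 3 ^ (M * (M + 1) / 2) * ((asm (M + 1) : ℝ) : ℂ) := by
  induction M with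
  | zero =>
    rw [HV_nil_zero hq]
    simp [asm]
  | succ M ih =>
    have h := two_leg_rec hq M
    rw [ih] at h
    have f1 : ((2 * M + 3).factorial : ℂ) ≠ 0 := Nat.cast_ne_zero.2 (Nat.factorial_ne_zero _)
    have f2 : ((2 * M + 2).factorial : ℂ) ≠ 0 := Nat.cast_ne_zero.2 (Nat.factorial_ne_zero _)
    apply mul_right_cancel₀ (mul_ne_zero f1 f2)
    rw [h]
    have e1 : (M + 1) * (M + 1 + 1) / 2 = M * (M + 1) / 2 + (M + 1) := by
      have : (M + 1) * (M + 1 + 1) = M * (M + 1) + 2 * (M + 1) := by ring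
      rw [this, Nat.add_mul_div_left _ _ (by norm_num)]
    have e2 : asm (M + 1 + 1) = asm (M + 1) * (((3 * (M + 1) + 1).factorial : ℝ) * ((M + 1).factorial : ℝ) /
      (((2 * (M + 1)).factorial : ℝ) * ((2 * (M + 1) + 1).factorial : ℝ))) := rfl
    have g1 : 2 * (M + 1) + 1 = 2 * M + 3 := by ring
    have g2 : 2 * (M + 1) = 2 * M + 2 := by ring
    have g3 : 3 * (M + 1) + 1 = 3 * M + 4 := by ring
    rw [e1, e2, g1, g2, g3]
    push_cast
    field_simp
    rw [pow_succ (-1 : ℂ) M, pow_add (3 : ℂ) (M * (M + 1) / 2) (M + 1), pow_succ (3 : ℂ) M]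
    ring

omit hq in
lemma prod_fact (M : ℕ) : (∏ m ∈ range (M + 1), (3 * (m : ℂ) + 1)) * (∏ m ∈ range M, (3 * (m : ℂ) + 2)) *
    (3 ^ M * (M.factorial : ℂ)) = ((3 * M + 1).factorial : ℂ) := by
  induction M with
  | zero => simp
  | succ M ih =>
    rw [prod_range_succ, prod_range_succ (fun m => (3 * (m : ℂ) + 2)), Nat.factorial_succ]
    have : 3 * (M + 1) + 1 = (3 * M + 1) + 1 + 1 + 1 := by ring
    rw [this, Nat.factorial_succ, Nat.factorial_succ, Nat.factorial_succ]
    push_cast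
    rw [← ih]
    ring

/-- the zero-leg value is `(-1)^M 3^(M(M-1)/2) A(M)` -/
theorem zero_leg_value (M : ℕ) :
    HV q (q ^ 2) q M [] = (-1) ^ M * 3 ^ (M * (M - 1) / 2) * ((asm M : ℝ) : ℂ) := by
  -- one leg
  obtain ⟨A, hdeg, hev, hCT⟩ := exists_HP (q := q) (q ^ 2) q hq M [1]
  have h1 := struct1 hq M [1] (by simp) hCT
  have e1 : A * (([1] : List ℂ).map fun a => X - C a).prod * (X - 1) ^ (2 * M) =
      A * (X - 1) ^ (2 * M + 1) := by
    simp only [List.map_cons, List.map_nil, List.prod_cons, List.prod_nil, mul_one, map_one]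
    ring
  rw [e1] at h1
  have h2 := top_two_leg A M hdeg h1
  rw [top_HV (q ^ 2) q hq M [1] hCT, hev] at h2
  obtain ⟨B, hdeg', hev', hCT'⟩ := exists_HP (q := q) (q ^ 2) q hq M []
  have h1' := struct1 hq M [] (by simp) hCT'
  have e1' : B * (([] : List ℂ).map fun a => X - C a).prod * (X - 1) ^ (2 * M) =
      B * (X - 1) ^ (2 * M) := by simp
  rw [e1'] at h1'
  have h2' := top_one_leg B M hdeg' h1'
  rw [top_HV (q ^ 2) q hq M [] hCT', hev'] at h2'
  have hp := prod_fact M
  have f1 : ((2 * M).factorial : ℂ) ≠ 0 := Nat.cast_ne_zero.2 (Nat.factorial_ne_zero _)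
  have f2 : ((2 * M + 1).factorial : ℂ) ≠ 0 := Nat.cast_ne_zero.2 (Nat.factorial_ne_zero _)
  have f3 : ((3 * M + 1).factorial : ℂ) ≠ 0 := Nat.cast_ne_zero.2 (Nat.factorial_ne_zero _)
  have f4 : (M.factorial : ℂ) ≠ 0 := Nat.cast_ne_zero.2 (Nat.factorial_ne_zero _)
  have f5 : (3 : ℂ) ^ M ≠ 0 := pow_ne_zero _ (by norm_num)
  have h3 : HV q (q ^ 2) q M [] * (((3 * M + 1).factorial : ℂ) * (3 ^ M * (M.factorial : ℂ))) =
      HV q (q ^ 2) q M [1, 1] * (((2 * M + 1).factorial : ℂ) * ((2 * M).factorial : ℂ)) := by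
    rw [← hp]
    linear_combination ((∏ m ∈ range (M + 1), (3 * (m : ℂ) + 1)) * (3 ^ M * (M.factorial : ℂ))) * h2' +
      ((2 * M).factorial : ℂ) * h2
  apply mul_right_cancel₀ (mul_ne_zero f3 (mul_ne_zero f5 f4))
  rw [h3, two_leg_value hq M]
  have e2 : M * (M + 1) / 2 = M * (M - 1) / 2 + M := by
    rcases M with _ | M
    · rfl
    · have : (M + 1) * (M + 1 + 1) = (M + 1) * (M + 1 - 1) + 2 * (M + 1) := by
        rw [Nat.add_sub_cancel]; ring
      rw [this, Nat.add_mul_div_left _ _ (by norm_num)]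
  have e3 : asm (M + 1) = asm M * (((3 * M + 1).factorial : ℝ) * (M.factorial : ℝ) /
      (((2 * M).factorial : ℝ) * ((2 * M + 1).factorial : ℝ))) := rfl
  rw [e2, e3, pow_add]
  push_cast
  field_simp

end

end Pool.Agent.H34.Hom

end

section

/-!
# Asymptotics of the product formulas
-/

namespace Pool.Agent.H34.Hom

open Finset Filter Topology Stirling

/-! ### the four-leg law -/

end Pool.Agent.H34.Hom

end

section

/-!
# The value of the sum rule at the homogeneous point: `A_HT(2n)`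
-/

set_option autoImplicit false

namespace Pool.Agent.H34.Hom

open Finset Polynomial

/-! ### the products -/

end Pool.Agent.H34.Hom

end
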