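import Pool.Agent.H94.BG.H31.PT.M33
import Pool.Agent.H94.BG.M16

/-! The parts of this file: H34.Hom.Struct, H34.Hom.Eval4, H34.Hom.Eval2, H34.Hom.Vals, H34.Hom.Asym, H34.Hom.SumVal. -/

section

/-!
# Structure of the homogeneous limit polynomials
-/

namespace Pool.Agent.H34.Hom

open Finset Polynomial Pool.Agent.H96.EX Filter Topology

/-- `l = 2`: the part with exponents `≡ 0` -/
theorem sec0_Phi {q : ℂ} (hq : q ^ 2 + q + 1 = 0) (M : ℕ) (c : List ℂ) (hc : c.length ≤ 3)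
    (z : ℕ → ℂ) (hz : Gen M z) (hz0 : ∀ j, z j ≠ 0) :
    sec 0 (Phi q q (q ^ 2) M c z) =
      (C ((Phi q q (q ^ 2) M c z).coeff 0 / ∏ j ∈ range M, (-(z j) ^ 3)) +
        C ((Phi q q (q ^ 2) M c z).coeff (3 * M + 3)) * X) * ∏ j ∈ range M, (X - C (z j ^ 3)) := by
  classical
  have q3 : q ^ 3 = 1 := by linear_combination (q - 1) * hq
  have q0 : q ≠ 0 := by rintro rfl; norm_num at hq
  set φ := Phi q q (q ^ 2) M c z with hφ
  have hφd : φ.natDegree ≤ 3 * M + 3 := (Phi_natDegree q q (q ^ 2) M c z).trans (by omega)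
  set P := ∏ j ∈ range M, (X - C (z j ^ 3)) with hP
  have hPd : P.natDegree = M := by
    rw [hP, natDegree_prod_of_monic _ _ (fun _ _ => monic_X_sub_C _),
      sum_congr rfl (fun j _ => natDegree_X_sub_C (z j ^ 3))]
    simp
  have hPm : P.Monic := monic_prod_of_monic _ _ fun _ _ => monic_X_sub_C _
  set α := φ.coeff 0 / ∏ j ∈ range M, (-(z j) ^ 3) with hα
  set β := φ.coeff (3 * M + 3) with hβ
  have hne : ∏ j ∈ range M, (-(z j) ^ 3) ≠ 0 := by
    rw [prod_ne_zero_iff]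
    intro j _
    exact neg_ne_zero.2 (pow_ne_zero 3 (hz0 j))
  rw [← sub_eq_zero]
  apply Polynomial.eq_zero_of_degree_lt_of_eval_finset_eq_zero (insert 0 (cub M z))
  · rw [card_insert_of_notMem, card_cub hz, degree_lt_iff_coeff_zero]
    · intro k hk
      rw [coeff_sub, coeff_sec]
      have e1 : ((C α + C β * X) * P).coeff k = α * P.coeff k + β * (P.coeff (k - 1)) := by
        obtain ⟨k', rfl⟩ : ∃ k', k = k' + 1 := ⟨k - 1, by omega⟩
        rw [add_mul, coeff_add, coeff_C_mul, mul_assoc, coeff_C_mul, coeff_X_mul]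
        simp
      rw [e1]
      rcases eq_or_lt_of_le hk with h | h
      · subst h
        have e2 : P.coeff (M + 1) = 0 := coeff_eq_zero_of_natDegree_lt (by omega)
        have e3 : P.coeff (M + 1 - 1) = 1 := by
          rw [Nat.add_sub_cancel]
          have := hPm
          rw [Monic, leadingCoeff, hPd] at this
          exact this
        rw [e2, e3, hβ]
        have : 3 * (M + 1) + 0 = 3 * M + 3 := by ring
        rw [this]
        ring
      · rw [coeff_eq_zero_of_natDegree_lt (by omega), coeff_eq_zero_of_natDegree_lt (p := P) (by omega),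
          coeff_eq_zero_of_natDegree_lt (p := P) (by omega)]
        ring
    · unfold cub
      rw [mem_image]
      rintro ⟨j, _, hj⟩
      exact pow_ne_zero 3 (hz0 j) hj
  · intro x hx
    rw [mem_insert] at hx
    rcases hx with rfl | hx
    · rw [eval_sub, ← coeff_zero_eq_eval_zero, coeff_sec]
      simp only [eval_mul, eval_add, eval_C, eval_X, mul_zero, add_zero, hP, eval_prod, eval_sub,
        zero_sub]
      rw [hα]
      field_simp
      ring
    · unfold cub at hx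
      rw [mem_image] at hx
      obtain ⟨a, ha, rfl⟩ := hx
      rw [mem_range] at ha
      have e1 : (sec 0 φ).eval (z a ^ 3) = 0 := by
        apply sec0_eval_eq_zero hq _ _ (Phi_root _ _ _ _ _ ha)
        have := Phi_three q (q ^ 2) hq hz ha c
        apply mul_left_cancel₀ (pow_ne_zero 2 q0)
        rw [mul_zero, ← this]
        ring
      rw [eval_sub, e1, eval_mul, hP, eval_prod, prod_eq_zero (mem_range.2 ha) (by simp)]
      ring

/-! ### limits -/

theorem struct2 {q : ℂ} (hq : q ^ 2 + q + 1 = 0) (M : ℕ) (c : List ℂ) (hc : c.length ≤ 3) {A : ℂ[X]}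
    (hA : CT (𝓝[>] (0 : ℝ)) (fun t => Sp q q (q ^ 2) M c (zt t)) A) :
    sec 0 (A * (c.map fun a => X - C a).prod * (X - 1) ^ (2 * M)) =
      (C ((A * (c.map fun a => X - C a).prod * (X - 1) ^ (2 * M)).coeff 0 * (-1) ^ M) +
        C ((A * (c.map fun a => X - C a).prod * (X - 1) ^ (2 * M)).coeff (3 * M + 3)) * X) *
        (X - 1) ^ M := by
  have h0 := CT_Phi (q := q) q (q ^ 2) M c hA
  have h1 := CT_sec 0 h0
  set φ := A * (c.map fun a => X - C a).prod * (X - 1) ^ (2 * M) with hφ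
  have h2 : CT (𝓝[>] (0 : ℝ)) (fun t => sec 0 (Phi q q (q ^ 2) M c (zt t)))
      ((C (φ.coeff 0 * (-1) ^ M) + C (φ.coeff (3 * M + 3)) * X) * (X - 1) ^ M) := by
    have e1 : (∏ j ∈ range M, (X - C ((1 : ℂ) ^ 3))) = (X - 1 : ℂ[X]) ^ M := by
      rw [prod_const, card_range, one_pow, map_one]
    rw [← e1]
    have h3 : Tendsto (fun t : ℝ => (Phi q q (q ^ 2) M c (zt t)).coeff 0 / ∏ j ∈ range M, (-(zt t j) ^ 3))
        (𝓝[>] 0) (𝓝 (φ.coeff 0 * (-1) ^ M)) := by
      have e2 : φ.coeff 0 * (-1) ^ M = φ.coeff 0 / ∏ j ∈ range M, (-(1 : ℂ) ^ 3) := by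
        rw [one_pow, prod_const, card_range]
        have : ((-1 : ℂ) ^ M) * (-1) ^ M = 1 := by
          rw [← pow_add]; exact (Even.add_self _).neg_one_pow
        rw [eq_div_iff (pow_ne_zero _ (by norm_num)), mul_assoc, this, mul_one]
      rw [e2]
      apply (h0 0).div
      · apply tendsto_finsetProd
        intro j _
        exact ((tendsto_zt j).pow 3).neg
      · rw [one_pow, prod_const]
        exact pow_ne_zero _ (by norm_num)
    have h4 := ((CT.C h3).add ((CT.C (h0 (3 * M + 3))).mul (CT.const _ X))).mul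
      (CT.prod (range M) (p := fun j t => X - C (zt t j ^ 3)) (P := fun _ => X - C ((1 : ℂ) ^ 3))
        (fun j _ => (CT.const _ X).sub (CT.C ((tendsto_zt j).pow 3))))
    refine h4.congr' ?_
    filter_upwards [self_mem_nhdsWithin] with t ht
    exact (sec0_Phi hq M c hc (zt t) (gen_zt M ht) (zt_ne_zero ht)).symm
  exact h1.unique h2

/-! ### top coefficient, value at zero, recursion at `q²` -/

lemma SG_zero_leg (q u v : ℂ) (M : ℕ) (c : List ℂ) (z : ℕ → ℂ) :
    SG q u v (range M) (0 :: c) z =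
      (∏ j ∈ range M, (-(z j))) * SG q (u * q) (v * q ^ 2) (range M) c z := by
  unfold SG
  rw [mul_sum]
  apply sum_congr rfl
  intro A hA
  rw [mem_powerset] at hA
  have e : (∏ j ∈ range M, (-(z j))) = (∏ j ∈ A, (-(z j))) * ∏ j ∈ range M \ A, (-(z j)) := by
    rw [← Finset.prod_sdiff hA, mul_comm]
  rw [e]
  have e1 : (∏ j ∈ A, u * lg (0 :: c) (q * z j)) = (∏ j ∈ A, (-(z j))) * ∏ j ∈ A, (u * q * lg c (q * z j)) := by
    rw [← prod_mul_distrib]
    apply prod_congr rfl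
    intro j _
    rw [lg_cons]; ring
  have e2 : (∏ j ∈ range M \ A, v * lg (0 :: c) (q ^ 2 * z j)) =
      (∏ j ∈ range M \ A, (-(z j))) * ∏ j ∈ range M \ A, (v * q ^ 2 * lg c (q ^ 2 * z j)) := by
    rw [← prod_mul_distrib]
    apply prod_congr rfl
    intro j _
    rw [lg_cons]; ring
  rw [e1, e2]
  ring

lemma HV_zero_leg {q : ℂ} (u v : ℂ) (hq : q ^ 2 + q + 1 = 0) (M : ℕ) (c : List ℂ) :
    HV q u v M (0 :: c) = (-1) ^ M * HV q (u * q) (v * q ^ 2) M c := by
  have h1 := tendsto_HV u v hq M (0 :: c)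
  have h2 := tendsto_HV (u * q) (v * q ^ 2) hq M c
  have h3 : Tendsto (fun t : ℝ => ∏ j ∈ range M, (-(zt t j))) (𝓝[>] 0) (𝓝 ((-1) ^ M)) := by
    have e : ((-1 : ℂ) ^ M) = ∏ j ∈ range M, (-(1 : ℂ)) := by simp
    rw [e]
    apply tendsto_finsetProd
    intro j _
    exact (tendsto_zt j).neg
  refine tendsto_nhds_unique h1 ((h3.mul h2).congr ?_)
  intro t
  unfold SS
  rw [SG_zero_leg]
  ring

end Pool.Agent.H34.Hom

end

section

/-!
# Evaluation of the four-leg and three-leg polynomials at `1`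
-/

namespace Pool.Agent.H34.Hom

open Finset Polynomial

/-- the moments of `f` reduce to those of the part with exponents divisible by 3 -/
lemma mom_reduce (φ : ℂ[X]) (M : ℕ) (hdeg : φ.natDegree ≤ 3 * M + 3) (f : ℂ → ℂ)
    (h1 : ∀ k : ℕ, k ≤ M → f (3 * k + 1) = 0) (h2 : ∀ k : ℕ, k ≤ M → f (3 * k + 2) = 0) :
    mom φ f = mom (sec 0 φ) (fun x => f (3 * x)) := by
  conv_lhs => rw [sec_decomp φ]
  have e : X ^ 2 * expand ℂ 3 (sec 2 φ) = X * (X * expand ℂ 3 (sec 2 φ)) := by ring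
  rw [e, mom_add, mom_add, mom_expand, mom_X_mul, mom_expand, mom_X_mul, mom_X_mul, mom_expand]
  rw [mom_zero_of (sec 1 φ) _ M, mom_zero_of (sec 2 φ) _ M, add_zero, add_zero]
  · intro k hk
    rw [coeff_sec, coeff_eq_zero_of_natDegree_lt (by omega)]
  · intro k hk
    have := h2 k hk
    have e2 : (3 : ℂ) * (k : ℂ) + 1 + 1 = 3 * k + 2 := by ring
    rw [e2]; exact this
  · intro k hk
    rw [coeff_sec, coeff_eq_zero_of_natDegree_lt (by omega)]
  · intro k hk
    exact h1 k hk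

/-- moments of `(α + β X)(X-1)^M` -/
lemma mom_lin (M : ℕ) (α β : ℂ) (f : ℂ → ℂ) :
    mom ((C α + C β * X) * (X - 1) ^ M) f =
      α * (∑ k ∈ range (M + 1), (((-1) ^ (M - k) * (M.choose k : ℤ) : ℤ) : ℂ) * f k) +
      β * (∑ k ∈ range (M + 1), (((-1) ^ (M - k) * (M.choose k : ℤ) : ℤ) : ℂ) * f (k + 1)) := by
  have e : (C α + C β * X) * (X - 1) ^ M = C α * ((X - 1) ^ M * 1) + C β * (X * ((X - 1) ^ M * 1)) := by ring
  rw [e, mom_add, mom_smul, mom_smul, mom_X_mul, mom_X_sub_one_pow, mom_X_sub_one_pow]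
  have h1 : ∀ g : ℂ → ℂ, mom (1 : ℂ[X]) g = g 0 := by
    intro g
    have := mom_C (K := ℂ) 1 g
    simpa using this
  rw [h1, h1, fwdDiff_iter_eq_sum_shift, fwdDiff_iter_eq_sum_shift]
  congr 2
  · apply sum_congr rfl
    intro k _
    simp
  · apply sum_congr rfl
    intro k _
    simp

theorem eval_three_leg (A : ℂ[X]) (M : ℕ) (hdeg : A.natDegree ≤ M) (α : ℂ)
    (h : sec 0 (A * (X - 1) ^ (2 * M + 2)) = C α * (X - 1) ^ M) :
    A.eval 1 * ((2 * M + 2).factorial : ℂ) = α * (A0 M : ℂ) := by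
  have hd : ((X - 1 : ℂ[X]) ^ (2 * M + 2)).natDegree ≤ 2 * M + 2 := by
    refine natDegree_pow_le.trans ?_
    have : (X - 1 : ℂ[X]).natDegree ≤ 1 := natDegree_X_sub_C_le (1 : ℂ)
    nlinarith only [this]
  have h1 := mom_eq_factorial (2 * M + 2) A (gpoly M) (gpoly_natDegree M)
  rw [gpoly_monic, one_mul] at h1
  rw [← h1, mul_comm ((X - 1) ^ _) A, mom_reduce _ M]
  · rw [h]
    have := mom_lin M α 0 (fun x => (gpoly M).eval (3 * x))
    simp only [map_zero, zero_mul, add_zero] at this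
    rw [this]
    congr 1
    unfold A0
    rw [Int.cast_sum]
    apply sum_congr rfl
    intro k _
    have e := gpoly_eval M k
    push_cast at e ⊢
    rw [e]
  · refine natDegree_mul_le.trans ?_
    omega
  · intro k hk; exact gpoly_root1 M k hk
  · intro k hk; exact gpoly_root2 M k hk

theorem eval_four_leg (A : ℂ[X]) (M : ℕ) (hM : Even M) (hdeg : A.natDegree ≤ M) (α β : ℂ)
    (h : sec 0 (A * (X - 1) ^ (2 * M + 3)) = (C α + C β * X) * (X - 1) ^ M) :
    A.eval 1 * ((2 * M + 3).factorial : ℂ) = (3 * M + 3) * β * (A0 M : ℂ) := by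
  have hd : ((X - 1 : ℂ[X]) ^ (2 * M + 3)).natDegree ≤ 2 * M + 3 := by
    refine natDegree_pow_le.trans ?_
    have : (X - 1 : ℂ[X]).natDegree ≤ 1 := natDegree_X_sub_C_le (1 : ℂ)
    nlinarith only [this]
  have hXg : (X * gpoly M).natDegree = 2 * M + 3 := by
    rw [monic_X.natDegree_mul (gpoly_monic M), natDegree_X, gpoly_natDegree]; ring
  have h1 := mom_eq_factorial (2 * M + 3) A (X * gpoly M) hXg
  rw [monic_X.mul (gpoly_monic M), one_mul] at h1
  rw [← h1, mul_comm ((X - 1) ^ _) A, mom_reduce _ M]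
  · rw [h, mom_lin M α β]
    have s1 : (∑ k ∈ range (M + 1), (((-1) ^ (M - k) * (M.choose k : ℤ) : ℤ) : ℂ) *
        (X * gpoly M).eval (3 * (k : ℂ))) = 0 := by
      have := A1_zero M hM
      have h2 := congrArg (fun x : ℤ => (3 : ℂ) * (x : ℂ)) this
      simp only [Int.cast_zero, mul_zero] at h2
      rw [← h2, Int.cast_sum, mul_sum]
      apply sum_congr rfl
      intro k _
      have e := gpoly_eval M k
      push_cast at e
      rw [eval_mul, eval_X, e]
      push_cast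
      ring
    have s2 : (∑ k ∈ range (M + 1), (((-1) ^ (M - k) * (M.choose k : ℤ) : ℤ) : ℂ) *
        (X * gpoly M).eval (3 * ((k : ℂ) + 1))) = (3 * M + 3) * (A0 M : ℂ) := by
      have := A1_shift M hM
      have h2 := congrArg (fun x : ℤ => (3 : ℂ) * (x : ℂ)) this
      have h3 : (3 * (M : ℂ) + 3) * (A0 M : ℂ) = 3 * (((M + 1) * A0 M : ℤ) : ℂ) := by push_cast; ring
      rw [h3, ← h2, Int.cast_sum, mul_sum]
      apply sum_congr rfl
      intro k _
      have e := gpoly_eval M (k + 1)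
      push_cast at e
      rw [eval_mul, eval_X, e]
      push_cast
      ring
    rw [s1, s2]
    ring
  · refine natDegree_mul_le.trans ?_
    omega
  · intro k hk
    rw [eval_mul, gpoly_root1 M k hk, mul_zero]
  · intro k hk
    rw [eval_mul, gpoly_root2 M k hk, mul_zero]

end Pool.Agent.H34.Hom

end

section

/-!
# Evaluation of the two-leg, one-leg and zero-leg polynomials
-/

namespace Pool.Agent.H34.Hom

open Finset Polynomial

end Pool.Agent.H34.Hom

end

section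

/-!
# The homogeneous values as products
-/

namespace Pool.Agent.H34.Hom

open Finset Polynomial Pool.Agent.H96.EX Filter Topology

lemma asm_pos (n : ℕ) : 0 < asm n := by
  induction n with
  | zero => simp [asm]
  | succ n ih => unfold asm; positivity

section

variable {q : ℂ} (hq : q ^ 2 + q + 1 = 0)
include hq

/-- the four-leg value in terms of the two-leg value -/
theorem four_leg_value (M : ℕ) (hM : Even M) :
    HV q q (q ^ 2) M [1, 1, 1, 1] * (((2 * M + 3).factorial : ℂ) * ((2 * M + 2).factorial : ℂ)) =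
      (3 * M + 3) * (A0 M : ℂ) ^ 2 * HV q (q ^ 2) q M [1, 1] := by
  have q3 : q ^ 3 = 1 := by linear_combination (q - 1) * hq
  -- three legs
  obtain ⟨A, hdeg, hev, hCT⟩ := exists_HP (q := q) q (q ^ 2) hq M [1, 1]
  have h1 := struct2 hq M [1, 1] (by simp) hCT
  have e1 : A * (([1, 1] : List ℂ).map fun a => X - C a).prod * (X - 1) ^ (2 * M) =
      A * (X - 1) ^ (2 * M + 2) := by
    simp only [List.map_cons, List.map_nil, List.prod_cons, List.prod_nil, mul_one, map_one]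
    ring
  rw [e1] at h1
  have hd : ∀ n : ℕ, ((X - 1 : ℂ[X]) ^ n).natDegree ≤ n := by
    intro n
    refine natDegree_pow_le.trans ?_
    have : (X - 1 : ℂ[X]).natDegree ≤ 1 := natDegree_X_sub_C_le (1 : ℂ)
    nlinarith only [this]
  have c1 : (A * (X - 1) ^ (2 * M + 2)).coeff (3 * M + 3) = 0 := by
    apply coeff_eq_zero_of_natDegree_lt
    have := natDegree_mul_le (p := A) (q := (X - 1) ^ (2 * M + 2))
    have := hd (2 * M + 2)
    omega
  have c0 : (A * (X - 1) ^ (2 * M + 2)).coeff 0 = (-1) ^ M * HV q (q ^ 2) q M [1, 1] := by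
    rw [mul_coeff_zero, coeff_zero_eq_eval_zero, coeff_zero_eq_eval_zero, hev,
      HV_zero_leg q (q ^ 2) hq M [1, 1]]
    have e2 : q * q = q ^ 2 := by ring
    have e3 : q ^ 2 * q ^ 2 = q := by linear_combination q * q3
    rw [e2, e3]
    simp only [eval_pow, eval_sub, eval_X, eval_one, zero_sub]
    have e4 : (-1 : ℂ) ^ (2 * M + 2) = 1 := by
      have : 2 * M + 2 = 2 * (M + 1) := by ring
      rw [this, pow_mul]; norm_num
    rw [e4, mul_one]
  rw [c1, c0] at h1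
  have hsg : ((-1 : ℂ) ^ M) = 1 := hM.neg_one_pow
  rw [hsg] at h1
  simp only [one_mul, mul_one, map_zero, zero_mul, add_zero] at h1
  have h2 := eval_three_leg A M hdeg _ h1
  rw [hev] at h2
  -- four legs
  obtain ⟨B, hdeg', hev', hCT'⟩ := exists_HP (q := q) q (q ^ 2) hq M [1, 1, 1]
  have h1' := struct2 hq M [1, 1, 1] (by simp) hCT'
  have e1' : B * (([1, 1, 1] : List ℂ).map fun a => X - C a).prod * (X - 1) ^ (2 * M) =
      B * (X - 1) ^ (2 * M + 3) := by
    simp only [List.map_cons, List.map_nil, List.prod_cons, List.prod_nil, mul_one, map_one]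
    ring
  rw [e1'] at h1'
  have h2' := eval_four_leg B M hM hdeg' _ _ h1'
  have hmon : ((X - 1 : ℂ[X]) ^ (2 * M + 3)).coeff (2 * M + 3) = 1 := by
    have := (monic_X_sub_C (1 : ℂ)).pow (2 * M + 3)
    have h2 : ((X - C (1 : ℂ)) ^ (2 * M + 3)).natDegree = 2 * M + 3 := by
      rw [(monic_X_sub_C (1 : ℂ)).natDegree_pow, natDegree_X_sub_C, mul_one]
    rw [Monic, leadingCoeff, h2] at this
    exact this
  have c3 : (B * (X - 1) ^ (2 * M + 3)).coeff (3 * M + 3) = HV q q (q ^ 2) M [1, 1, 1] := by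
    have : 3 * M + 3 = M + (2 * M + 3) := by ring
    rw [this, coeff_mul_add_eq_of_natDegree_le hdeg' (hd _), hmon, mul_one,
      top_HV q (q ^ 2) hq M [1, 1, 1] hCT']
  rw [c3, hev'] at h2'
  linear_combination ((2 * M + 2).factorial : ℂ) * h2' + ((3 * M + 3) * (A0 M : ℂ)) * h2

end

end Pool.Agent.H34.Hom

end

section

/-!
# Asymptotics of the product formulas
-/

namespace Pool.Agent.H34.Hom

open Finset Filter Topology Stirling

lemma asm_succ (k : ℕ) : asm (k + 1) = asm k * ra k := rfl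

lemma ra_pos (k : ℕ) : 0 < ra k := by unfold ra; positivity

lemma mu_pos (k : ℕ) : 0 < mu k := by
  unfold mu; have := ra_pos k; positivity

lemma mu_eq (k : ℕ) (hk : k ≠ 0) : mu k = (4 / 9) * ((3 * k + 1) / (2 * k + 1) : ℝ) ^ 2 *
    (stirlingSeq (3 * k) * stirlingSeq k / stirlingSeq (2 * k) ^ 2) ^ 2 := by
  have hk' : (0 : ℝ) < k := by exact_mod_cast Nat.pos_of_ne_zero hk
  have h3 := fact_eq (3 * k) (by omega)
  have h2 := fact_eq (2 * k) (by omega)
  have h1 := fact_eq k hk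
  have e1 : ((3 * k + 1).factorial : ℝ) = (3 * k + 1) * ((3 * k).factorial : ℝ) := by
    rw [Nat.factorial_succ]; push_cast; ring
  have e2 : ((2 * k + 1).factorial : ℝ) = (2 * k + 1) * ((2 * k).factorial : ℝ) := by
    rw [Nat.factorial_succ]; push_cast; ring
  have s2 : 0 < stirlingSeq (2 * k) := by
    obtain ⟨m, hm⟩ : ∃ m, 2 * k = m + 1 := ⟨2 * k - 1, by omega⟩
    rw [hm]; exact stirlingSeq'_pos m
  unfold mu ra
  rw [e1, e2, h3, h2, h1]
  push_cast
  have q3 : √(2 * (3 * (k : ℝ))) ^ 2 = 6 * k := by rw [Real.sq_sqrt (by positivity)]; ring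
  have q2 : √(2 * (2 * (k : ℝ))) ^ 2 = 4 * k := by rw [Real.sq_sqrt (by positivity)]; ring
  have q1 : √(2 * (k : ℝ)) ^ 2 = 2 * k := by rw [Real.sq_sqrt (by positivity)]
  have hx : (0 : ℝ) < (k / Real.exp 1) ^ k := by positivity
  have p3 : (3 * (k : ℝ) / Real.exp 1) ^ (3 * k) = 27 ^ k * ((k / Real.exp 1) ^ k) ^ 3 := by
    rw [mul_div_assoc, mul_pow, pow_mul, pow_mul' (k / Real.exp 1) 3 k]; norm_num
  have p2 : (2 * (k : ℝ) / Real.exp 1) ^ (2 * k) = 4 ^ k * ((k / Real.exp 1) ^ k) ^ 2 := by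
    rw [mul_div_assoc, mul_pow, pow_mul, pow_mul' (k / Real.exp 1) 2 k]; norm_num
  rw [p3, p2]
  have e27 : ((16 : ℝ) / 27) ^ (2 * k + 1) = 16 / 27 * ((4 ^ k) ^ 4 / (27 ^ k) ^ 2) := by
    rw [pow_succ, pow_mul', div_pow]
    have : (16 : ℝ) ^ k = (4 ^ k) ^ 2 := by rw [← pow_mul, mul_comm k 2, pow_mul]; norm_num
    rw [this]
    ring
  rw [e27]
  generalize (k / Real.exp 1 : ℝ) ^ k = x at *
  generalize stirlingSeq (3 * k) = S3 at *
  generalize stirlingSeq (2 * k) = S2 at *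
  generalize stirlingSeq k = S1 at *
  generalize √(2 * (3 * (k : ℝ))) = a3 at *
  generalize √(2 * (2 * (k : ℝ))) = a2 at *
  generalize √(2 * (k : ℝ)) = a1 at *
  have ha2 : a2 ≠ 0 := by
    intro h; rw [h] at q2; norm_num at q2; exact hk q2
  have hk1 : (2 * (k : ℝ) + 1) ≠ 0 := by positivity
  have h4 : (4 : ℝ) ^ k ≠ 0 := by positivity
  have h27 : (27 : ℝ) ^ k ≠ 0 := by positivity
  generalize (4 : ℝ) ^ k = f at *
  generalize (27 : ℝ) ^ k = g at *
  have ha24 : a2 ^ 4 = 16 * k ^ 2 := by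
    have : a2 ^ 4 = (a2 ^ 2) ^ 2 := by ring
    rw [this, q2]; ring
  field_simp
  rw [ha24, q3, q1]
  ring

theorem tendsto_mu : Tendsto mu atTop (𝓝 1) := by
  have h0 := tendsto_stirlingSeq_sqrt_pi
  have h3 : Tendsto (fun k : ℕ => stirlingSeq (3 * k)) atTop (𝓝 √Real.pi) :=
    h0.comp (tendsto_atTop_mono (fun k => by simp only [id]; omega) tendsto_id)
  have h2 : Tendsto (fun k : ℕ => stirlingSeq (2 * k)) atTop (𝓝 √Real.pi) :=
    h0.comp (tendsto_atTop_mono (fun k => by simp only [id]; omega) tendsto_id)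
  have hpi : √Real.pi ≠ 0 := by positivity
  have h4 : Tendsto (fun k : ℕ => ((3 * k + 1) / (2 * k + 1) : ℝ)) atTop (𝓝 (3 / 2)) := by
    have e : ∀ᶠ k : ℕ in atTop, ((3 + 1 / (k : ℝ)) / (2 + 1 / (k : ℝ))) = ((3 * k + 1) / (2 * k + 1) : ℝ) := by
      filter_upwards [eventually_gt_atTop 0] with k hk
      have : (0 : ℝ) < k := by exact_mod_cast hk
      field_simp
    have h5 : Tendsto (fun k : ℕ => 1 / (k : ℝ)) atTop (𝓝 0) := tendsto_one_div_atTop_nhds_zero_nat
    have h6 := (h5.const_add 3).div (h5.const_add 2) (by norm_num)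
    simp only [add_zero] at h6
    exact h6.congr' e
  have h7 := ((h4.pow 2).const_mul (4 / 9)).mul (((h3.mul h0).div (h2.pow 2) (pow_ne_zero 2 hpi)).pow 2)
  have e1 : (4 / 9 : ℝ) * (3 / 2) ^ 2 * (√Real.pi * √Real.pi / √Real.pi ^ 2) ^ 2 = 1 := by
    field_simp
    norm_num
  rw [e1] at h7
  refine h7.congr' ?_
  filter_upwards [eventually_gt_atTop 0] with k hk
  rw [mu_eq k hk.ne']
  rfl

lemma mu_succ (k : ℕ) : mu (k + 1) = mu k * (1 + 5 / (9 * (2 * k + 1) * (2 * k + 3)) : ℝ) ^ 2 := by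
  unfold mu ra
  have e1 : ((3 * (k + 1) + 1).factorial : ℝ) = (3 * k + 4) * (3 * k + 3) * (3 * k + 2) * ((3 * k + 1).factorial : ℝ) := by
    have : 3 * (k + 1) + 1 = (3 * k + 1) + 1 + 1 + 1 := by ring
    rw [this, Nat.factorial_succ, Nat.factorial_succ, Nat.factorial_succ]; push_cast; ring
  have e2 : ((2 * (k + 1)).factorial : ℝ) = (2 * k + 2) * (2 * k + 1) * ((2 * k).factorial : ℝ) := by
    have : 2 * (k + 1) = (2 * k) + 1 + 1 := by ring
    rw [this, Nat.factorial_succ, Nat.factorial_succ]; push_cast; ring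
  have e3 : ((2 * (k + 1) + 1).factorial : ℝ) = (2 * k + 3) * (2 * k + 2) * ((2 * k + 1).factorial : ℝ) := by
    have : 2 * (k + 1) + 1 = (2 * k + 1) + 1 + 1 := by ring
    rw [this, Nat.factorial_succ, Nat.factorial_succ]; push_cast; ring
  have e4 : ((k + 1).factorial : ℝ) = (k + 1) * (k.factorial : ℝ) := by
    rw [Nat.factorial_succ]; push_cast; ring
  have e5 : ((16 : ℝ) / 27) ^ (2 * (k + 1) + 1) = (16 / 27) ^ (2 * k + 1) * (16 / 27) ^ 2 := by
    rw [← pow_add]; congr 1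
  rw [e1, e2, e3, e4, e5]
  field_simp
  ring

lemma Ee_diff (k : ℕ) (hk : 1 ≤ k) : |Ee (k + 1) - Ee k| ≤ 1 / (k : ℝ) ^ 2 - 1 / ((k : ℝ) + 1) ^ 2 := by
  have hk' : (1 : ℝ) ≤ k := by exact_mod_cast hk
  set x : ℝ := 5 / (9 * (2 * k + 1) * (2 * k + 3)) with hx
  have hx0 : 0 ≤ x := by positivity
  have e1 : Ee (k + 1) - Ee k = 2 * (Real.log (1 + x) - x) := by
    unfold Ee
    rw [mu_succ, Real.log_mul (mu_pos k).ne' (by positivity), Real.log_pow]
    rw [← hx]
    have : (5 : ℝ) / (9 * (2 * ((k + 1 : ℕ) : ℝ) + 1)) - 5 / (9 * (2 * k + 1)) = -2 * x := by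
      rw [hx]; push_cast; field_simp; ring
    push_cast at this ⊢
    linear_combination this
  have h1 : Real.log (1 + x) ≤ x := by
    have := Real.log_le_sub_one_of_pos (show 0 < 1 + x by positivity)
    linarith only [this]
  have h2 := Real.le_log_one_add_of_nonneg hx0
  have h3 : x - x ^ 2 / 2 ≤ 2 * x / (x + 2) := by
    rw [le_div_iff₀ (by positivity)]
    nlinarith only [hx0, pow_nonneg hx0 3]
  rw [e1, abs_le]
  have h4 : x ^ 2 ≤ 1 / (k : ℝ) ^ 2 - 1 / ((k : ℝ) + 1) ^ 2 := by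
    have h5 : 1 / (k : ℝ) ^ 2 - 1 / ((k : ℝ) + 1) ^ 2 = (2 * k + 1) / (k ^ 2 * (k + 1) ^ 2) := by
      field_simp; ring
    rw [h5, hx, div_pow, div_le_div_iff₀ (by positivity) (by positivity)]
    have h6 : (k : ℝ) ^ 2 * (k + 1) ^ 2 ≤ ((2 * k + 1) * (2 * k + 3)) ^ 2 := by
      have : (k : ℝ) * (k + 1) ≤ (2 * k + 1) * (2 * k + 3) := by nlinarith only [hk']
      calc (k : ℝ) ^ 2 * (k + 1) ^ 2 = (k * (k + 1)) ^ 2 := by ring
        _ ≤ _ := by gcongr
    nlinarith only [hk', sq_nonneg ((2 * (k : ℝ) + 1) * (2 * k + 3))]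
  constructor <;> nlinarith only [h2, h3, h4, h1]

lemma tendsto_Ee : Tendsto Ee atTop (𝓝 0) := by
  unfold Ee
  have h1 : Tendsto (fun k => Real.log (mu k)) atTop (𝓝 0) := by
    have := (Real.continuousAt_log (one_ne_zero)).tendsto.comp tendsto_mu
    rw [Real.log_one] at this
    exact this
  have h2 : Tendsto (fun k : ℕ => (5 : ℝ) / (9 * (2 * k + 1))) atTop (𝓝 0) := by
    apply Tendsto.div_atTop tendsto_const_nhds
    apply Tendsto.const_mul_atTop (by norm_num)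
    apply tendsto_atTop_add_const_right
    exact Tendsto.const_mul_atTop (by norm_num) tendsto_natCast_atTop_atTop
  have := h1.add h2
  simpa using this

lemma Ee_bound (k : ℕ) (hk : 1 ≤ k) : |Ee k| ≤ 1 / (k : ℝ) ^ 2 :=
  tail_bound Ee Ee_diff tendsto_Ee k hk

lemma aht_pos (n : ℕ) : 0 < aht n := by
  unfold aht
  have := asm_pos n
  have h2 : 0 < ∏ k ∈ range n, ((3 * k + 2) / (3 * k + 1) : ℝ) := by
    apply prod_pos
    intro k _
    positivity
  positivity

lemma p2_pos (n : ℕ) : 0 < p2 n := by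
  unfold p2; have := asm_pos (2 * n); have := aht_pos n; positivity

lemma p2_succ (n : ℕ) : p2 (n + 1) / p2 n =
    ra (2 * n) * ra (2 * n + 1) / ra n ^ 4 * ((3 * n + 1) / (3 * n + 2) : ℝ) ^ 2 := by
  have h1 : asm (2 * (n + 1)) = asm (2 * n) * ra (2 * n) * ra (2 * n + 1) := by
    have : 2 * (n + 1) = (2 * n + 1) + 1 := by ring
    rw [this, asm_succ, asm_succ]
  have h2 : aht (n + 1) = aht n * (ra n ^ 2 * ((3 * n + 2) / (3 * n + 1) : ℝ)) := by
    unfold aht
    rw [asm_succ, prod_range_succ]; ring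
  unfold p2
  rw [h1, h2]
  have := (asm_pos (2 * n)).ne'
  have := (aht_pos n).ne'
  have := (ra_pos n).ne'
  field_simp

lemma log_p2_succ (n : ℕ) : Real.log (p2 (n + 1) / p2 n) =
    (Real.log (mu (2 * n)) + Real.log (mu (2 * n + 1)) - 4 * Real.log (mu n)) / 2 -
      2 * Real.log (1 + 1 / (3 * n + 1)) := by
  have h1 : ∀ k, Real.log (mu k) = 2 * Real.log (ra k) + (2 * k + 1) * Real.log (16 / 27) := by
    intro k
    unfold mu
    rw [Real.log_mul (pow_ne_zero 2 (ra_pos k).ne') (by positivity), Real.log_pow, Real.log_pow]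
    push_cast; ring
  have e1 : (1 + 1 / (3 * (n : ℝ) + 1)) = (3 * n + 2) / (3 * n + 1) := by
    field_simp; ring
  rw [p2_succ, h1, h1, h1, e1]
  have r1 := (ra_pos (2 * n)).ne'
  have r2 := (ra_pos (2 * n + 1)).ne'
  have r3 := (ra_pos n).ne'
  have l2 : Real.log ((3 * (n : ℝ) + 2) / (3 * n + 1)) = Real.log (3 * n + 2) - Real.log (3 * n + 1) :=
    Real.log_div (by positivity) (by positivity)
  have l3 : Real.log ((3 * (n : ℝ) + 1) / (3 * n + 2)) = Real.log (3 * n + 1) - Real.log (3 * n + 2) :=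
    Real.log_div (by positivity) (by positivity)
  rw [Real.log_mul (by positivity) (by positivity), Real.log_div (by positivity) (by positivity),
    Real.log_mul r1 r2, Real.log_pow, Real.log_pow, l2, l3]
  push_cast
  ring

lemma p2_log_bound (n : ℕ) (hn : 1 ≤ n) :
    |Real.log (p2 (n + 1) / p2 n) + (1 / 4) / n| ≤ 10 / (n : ℝ) ^ 2 := by
  have hn' : (1 : ℝ) ≤ n := by exact_mod_cast hn
  have b1 := abs_le.1 (Ee_bound (2 * n) (by omega))
  have b2 := abs_le.1 (Ee_bound (2 * n + 1) (by omega))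
  have b3 := abs_le.1 (Ee_bound n hn)
  unfold Ee at b1 b2 b3
  push_cast at b1 b2 b3
  rw [log_p2_succ]
  have y0 : (0 : ℝ) ≤ 1 / (3 * n + 1) := by positivity
  have l1 := Real.le_log_one_add_of_nonneg y0
  have l2 : Real.log (1 + 1 / (3 * (n : ℝ) + 1)) ≤ 1 / (3 * n + 1) := by
    have := Real.log_le_sub_one_of_pos (show 0 < 1 + 1 / (3 * (n : ℝ) + 1) by positivity)
    linarith only [this]
  have l3 : 2 * (1 / (3 * (n : ℝ) + 1)) / (1 / (3 * n + 1) + 2) = 2 / 3 * (1 / (2 * n + 1)) := by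
    field_simp; ring
  rw [l3] at l1
  have s1 : 1 / (2 * (n : ℝ)) ^ 2 ≤ (1 / 4) * (1 / (n : ℝ) ^ 2) := by
    rw [mul_pow, mul_one_div, div_le_div_iff₀ (by positivity) (by positivity)]; nlinarith only
  have s2 : 1 / (2 * (n : ℝ) + 1) ^ 2 ≤ (1 / 4) * (1 / (n : ℝ) ^ 2) := by
    rw [mul_one_div, div_le_div_iff₀ (by positivity) (by positivity)]; nlinarith only [hn']
  have u1 : (5 : ℝ) / (9 * (2 * (2 * (n : ℝ)) + 1)) = 5 / 9 * (1 / (4 * n + 1)) := by field_simp; ring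
  have u2 : (5 : ℝ) / (9 * (2 * (2 * (n : ℝ) + 1) + 1)) = 5 / 9 * (1 / (4 * n + 3)) := by field_simp; ring
  have u3 : (5 : ℝ) / (9 * (2 * (n : ℝ) + 1)) = 5 / 9 * (1 / (2 * n + 1)) := by field_simp
  have u4 : (1 / 4 : ℝ) / n = 1 / 4 * (1 / n) := by ring
  have u5 : 10 / (n : ℝ) ^ 2 = 10 * (1 / (n : ℝ) ^ 2) := by ring
  rw [u1] at b1
  rw [u2] at b2
  rw [u3] at b3
  rw [u4, u5]
  have a1 : 1 / (4 * (n : ℝ) + 1) ≤ 1 / 4 * (1 / n) := by
    rw [mul_one_div, div_le_div_iff₀ (by positivity) (by positivity)]; linarith only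
  have a2 : 1 / (4 * (n : ℝ) + 3) ≤ 1 / 4 * (1 / n) := by
    rw [mul_one_div, div_le_div_iff₀ (by positivity) (by positivity)]; linarith only
  have a3 : 1 / (2 * (n : ℝ) + 1) ≤ 1 / 2 * (1 / n) := by
    rw [mul_one_div, div_le_div_iff₀ (by positivity) (by positivity)]; linarith only
  have a4 : 1 / (3 * (n : ℝ) + 1) ≤ 1 / 3 * (1 / n) := by
    rw [mul_one_div, div_le_div_iff₀ (by positivity) (by positivity)]; linarith only
  have c1 : 1 / 4 * (1 / (n : ℝ)) - 1 / 16 * (1 / (n : ℝ) ^ 2) ≤ 1 / (4 * (n : ℝ) + 1) := by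
    rw [le_div_iff₀ (by positivity)]
    have : (1 / 4 * (1 / (n : ℝ)) - 1 / 16 * (1 / (n : ℝ) ^ 2)) * (4 * (n : ℝ) + 1) = 1 - 1 / 16 * (1 / (n : ℝ) ^ 2) := by
      field_simp; ring
    rw [this]
    have : 0 ≤ 1 / (n : ℝ) ^ 2 := by positivity
    linarith only [b3]
  have c2 : 1 / 4 * (1 / (n : ℝ)) - 3 / 16 * (1 / (n : ℝ) ^ 2) ≤ 1 / (4 * (n : ℝ) + 3) := by
    rw [le_div_iff₀ (by positivity)]
    have : (1 / 4 * (1 / (n : ℝ)) - 3 / 16 * (1 / (n : ℝ) ^ 2)) * (4 * (n : ℝ) + 3) = 1 - 9 / 16 * (1 / (n : ℝ) ^ 2) := by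
      field_simp; ring
    rw [this]
    have : 0 ≤ 1 / (n : ℝ) ^ 2 := by positivity
    linarith only [b3]
  have c3 : 1 / 2 * (1 / (n : ℝ)) - 1 / 4 * (1 / (n : ℝ) ^ 2) ≤ 1 / (2 * (n : ℝ) + 1) := by
    rw [le_div_iff₀ (by positivity)]
    have : (1 / 2 * (1 / (n : ℝ)) - 1 / 4 * (1 / (n : ℝ) ^ 2)) * (2 * (n : ℝ) + 1) = 1 - 1 / 4 * (1 / (n : ℝ) ^ 2) := by
      field_simp; ring
    rw [this]
    have : 0 ≤ 1 / (n : ℝ) ^ 2 := by positivity
    linarith only [b3]
  have e1 : 0 ≤ 1 / (n : ℝ) ^ 2 := by positivity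
  rw [abs_le]
  constructor <;> linarith only [b3, b1, b2, l2, s1, s2, a1, a2, a4, c3, l1, c1, c2]

/-- **the two-leg (1/4) law**: `A(2n)/A_HT(2n)² ≍ n^{-1/4}` -/
theorem p2_power_law : ∃ c C : ℝ, 0 < c ∧ 0 < C ∧ ∀ n : ℕ, 1 ≤ n →
    c * (n : ℝ) ^ (-(1 / 4 : ℝ)) ≤ asm (2 * n) / aht n ^ 2 ∧
      asm (2 * n) / aht n ^ 2 ≤ C * (n : ℝ) ^ (-(1 / 4 : ℝ)) :=
  power_law p2 (fun n _ => p2_pos n) (1 / 4) 10 p2_log_bound

/-! ### the four-leg law -/

lemma f4_pos (m : ℕ) : 0 < f4 m := by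
  unfold f4
  have := asm_pos (2 * m + 1)
  have h : (0 : ℝ) < (A0 (2 * m) : ℝ) := by exact_mod_cast A0_pos m
  positivity

lemma rr_pos (m : ℕ) : 0 < rr m := by
  unfold rr
  have h : (0 : ℝ) < (A0 (2 * m) : ℝ) := by exact_mod_cast A0_pos m
  positivity

lemma f4_eq (m : ℕ) : f4 m = rr m * asm (2 * m + 2) := by
  have e : asm (2 * m + 2) = asm (2 * m + 1) * ra (2 * m + 1) := asm_succ (2 * m + 1)
  rw [e]
  unfold f4 rr ra
  have g1 : 3 * (2 * m + 1) + 1 = 6 * m + 4 := by ring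
  have g2 : 2 * (2 * m + 1) = 4 * m + 2 := by ring
  have g3 : 4 * m + 2 + 1 = 4 * m + 3 := by ring
  rw [g1, g2, g3]
  field_simp

lemma A0_rec_real (m : ℕ) : ((m : ℝ) + 2) * (A0 (2 * (m + 1)) : ℝ) =
    36 * (m + 1) * (2 * m + 1) * (2 * m + 3) * (3 * m + 4) * (3 * m + 5) * (A0 (2 * m) : ℝ) := by
  have := A0_rec m
  have h2 : 2 * (m + 1) = 2 * m + 2 := by ring
  rw [h2]
  exact_mod_cast this

lemma rr_succ (m : ℕ) : rr (m + 1) = rr m *
    ((2 * m + 1) * (2 * m + 3) * (3 * m + 4) * (3 * m + 5) / ((m + 2) ^ 2 * (6 * m + 5) * (6 * m + 7)) : ℝ) := by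
  have hA : (A0 (2 * (m + 1)) : ℝ) = 36 * (m + 1) * (2 * m + 1) * (2 * m + 3) * (3 * m + 4) * (3 * m + 5) *
      (A0 (2 * m) : ℝ) / (m + 2) := by
    rw [eq_div_iff (by positivity), ← A0_rec_real m]; ring
  unfold rr
  rw [hA]
  have e1 : ((2 * (m + 1) + 1).factorial : ℝ) = (2 * m + 3) * (2 * m + 2) * ((2 * m + 1).factorial : ℝ) := by
    have : 2 * (m + 1) + 1 = (2 * m + 1) + 1 + 1 := by ring
    rw [this, Nat.factorial_succ, Nat.factorial_succ]; push_cast; ring
  have e2 : ((6 * (m + 1) + 4).factorial : ℝ) = (6 * m + 10) * (6 * m + 9) * (6 * m + 8) * (6 * m + 7) *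
      (6 * m + 6) * (6 * m + 5) * ((6 * m + 4).factorial : ℝ) := by
    have : 6 * (m + 1) + 4 = (6 * m + 4) + 1 + 1 + 1 + 1 + 1 + 1 := by ring
    rw [this, Nat.factorial_succ, Nat.factorial_succ, Nat.factorial_succ, Nat.factorial_succ,
      Nat.factorial_succ, Nat.factorial_succ]; push_cast; ring
  rw [e1, e2, pow_succ]
  push_cast
  field_simp
  ring

lemma p4_pos (n : ℕ) : 0 < p4 n := by
  unfold p4
  have := f4_pos (n - 1)
  have := aht_pos n
  positivity

lemma p4_eq (n : ℕ) (hn : 1 ≤ n) : p4 n = rr (n - 1) * p2 n := by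
  obtain ⟨m, rfl⟩ : ∃ m, n = m + 1 := ⟨n - 1, by omega⟩
  unfold p4 p2
  rw [Nat.add_sub_cancel, f4_eq]
  have : 2 * (m + 1) = 2 * m + 2 := by ring
  rw [this]; ring

lemma rr_log_bound (m : ℕ) : |Real.log (rr (m + 1) / rr m) + 1 / ((m : ℝ) + 1)| ≤ 4 / ((m : ℝ) + 1) ^ 2 := by
  rw [rr_succ, mul_div_cancel_left₀ _ (rr_pos m).ne']
  set n : ℝ := (m : ℝ) + 1 with hn
  have hn1 : 1 ≤ n := by rw [hn]; have : (0 : ℝ) ≤ m := by positivity
                         linarith
  have e : ((2 * m + 1) * (2 * m + 3) * (3 * m + 4) * (3 * m + 5) / ((m + 2) ^ 2 * (6 * m + 5) * (6 * m + 7)) : ℝ) =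
      (2 * n - 1) * (2 * n + 1) * (3 * n + 1) * (3 * n + 2) / ((n + 1) ^ 2 * (6 * n - 1) * (6 * n + 1)) := by
    rw [hn]; congr 1 <;> ring
  rw [e]
  have d1 : 0 < (n + 1) ^ 2 * (6 * n - 1) * (6 * n + 1) := by
    have : 0 < 6 * n - 1 := by linarith
    positivity
  have d2 : 0 < (2 * n - 1) * (2 * n + 1) * (3 * n + 1) * (3 * n + 2) := by
    have : 0 < 2 * n - 1 := by linarith
    positivity
  set N := (2 * n - 1) * (2 * n + 1) * (3 * n + 1) * (3 * n + 2) with hN
  set D := (n + 1) ^ 2 * (6 * n - 1) * (6 * n + 1) with hD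
  have up := Real.log_le_sub_one_of_pos (show 0 < N / D by positivity)
  have lo := Real.one_sub_inv_le_log_of_pos (show 0 < N / D by positivity)
  rw [abs_le]
  constructor
  · have h1 : -(4 / n ^ 2) ≤ 1 - (N / D)⁻¹ + 1 / n := by
      rw [inv_div]
      have : 1 - D / N + 1 / n + 4 / n ^ 2 = ((N - D) * n ^ 2 + N * n + 4 * N) / (N * n ^ 2) := by
        field_simp
      have h2 : 0 ≤ ((N - D) * n ^ 2 + N * n + 4 * N) / (N * n ^ 2) := by
        apply div_nonneg _ (by positivity)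
        rw [hN, hD]
        nlinarith [pow_pos (show 0 < n by linarith) 2, pow_pos (show 0 < n by linarith) 3, pow_pos (show 0 < n by linarith) 4, pow_pos (show 0 < n by linarith) 5]
      linarith only [this, h2]
    linarith only [lo, h1]
  · have h1 : N / D - 1 + 1 / n ≤ 4 / n ^ 2 := by
      have : 4 / n ^ 2 - (N / D - 1 + 1 / n) = (4 * D - (N - D) * n ^ 2 - D * n) / (D * n ^ 2) := by
        field_simp; ring
      have h2 : 0 ≤ (4 * D - (N - D) * n ^ 2 - D * n) / (D * n ^ 2) := by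
        apply div_nonneg _ (by positivity)
        rw [hN, hD]
        nlinarith [pow_pos (show 0 < n by linarith) 2, pow_pos (show 0 < n by linarith) 3, pow_pos (show 0 < n by linarith) 4, pow_pos (show 0 < n by linarith) 5]
      linarith only [this, h2]
    linarith only [up, h1]

/-- **the four-leg (5/4) law** -/
theorem p4_power_law : ∃ c C : ℝ, 0 < c ∧ 0 < C ∧ ∀ n : ℕ, 1 ≤ n →
    c * (n : ℝ) ^ (-(5 / 4 : ℝ)) ≤ f4 (n - 1) / aht n ^ 2 ∧
      f4 (n - 1) / aht n ^ 2 ≤ C * (n : ℝ) ^ (-(5 / 4 : ℝ)) := by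
  apply power_law p4 (fun n _ => p4_pos n) (5 / 4) 14
  intro n hn
  have hn' : (1 : ℝ) ≤ n := by exact_mod_cast hn
  have h1 := p2_log_bound n hn
  have h2 := rr_log_bound (n - 1)
  have e1 : ((n - 1 : ℕ) : ℝ) + 1 = n := by rw [Nat.cast_sub hn]; push_cast; ring
  have e2 : n - 1 + 1 = n := by omega
  rw [e1, e2] at h2
  rw [p4_eq n hn, p4_eq (n + 1) (by omega), Nat.add_sub_cancel]
  have r1 := rr_pos n
  have r2 := rr_pos (n - 1)
  have r3 := p2_pos n
  have r4 := p2_pos (n + 1)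
  have e3 : rr n * p2 (n + 1) / (rr (n - 1) * p2 n) = (rr n / rr (n - 1)) * (p2 (n + 1) / p2 n) := by
    field_simp
  rw [e3, Real.log_mul (by positivity) (by positivity)]
  have e4 : Real.log (rr n / rr (n - 1)) + Real.log (p2 (n + 1) / p2 n) + 5 / 4 / (n : ℝ) =
      (Real.log (rr n / rr (n - 1)) + 1 / n) + (Real.log (p2 (n + 1) / p2 n) + 1 / 4 / n) := by
    ring
  rw [e4]
  refine (abs_add_le _ _).trans ?_
  have e5 : 14 / (n : ℝ) ^ 2 = 4 / (n : ℝ) ^ 2 + 10 / (n : ℝ) ^ 2 := by ring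
  rw [e5]
  exact add_le_add h2 h1

end Pool.Agent.H34.Hom

end

section

/-!
# The value of the sum rule at the homogeneous point: `A_HT(2n)`
-/

set_option autoImplicit false

namespace Pool.Agent.H34.Hom

open Finset Polynomial

lemma alt_geo (e : ℕ → ℕ) (N : ℕ) (r : ℂ) :
    alt e N (fun j => r ^ j) = pp N (fun i j => r ^ e j - r ^ e i) := by
  have h : alt e N (fun j => r ^ j) =
      (Matrix.vandermonde (fun j : Fin N => r ^ e j)).det := by
    rw [← Matrix.det_transpose]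
    unfold alt
    congr 1
    ext i j
    simp only [Matrix.of_apply, Matrix.transpose_apply, Matrix.vandermonde_apply]
    rw [← pow_mul, ← pow_mul, mul_comm]
  rw [h, Matrix.det_vandermonde, pp_fin N (fun i j => r ^ e j - r ^ e i)]

lemma alt_ralt (e : ℕ → ℕ) (he : ∀ i j, i ≤ j → e i ≤ e j) (N : ℕ) (r : ℂ) :
    alt e N (fun j => r ^ j) = pp N (fun _ _ => r - 1) * ralt e N r := by
  rw [alt_geo, ralt, ← pp_mul]
  apply pp_congr
  intro i j hij _
  exact pow_sub_pow' r (he i j hij.le)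

variable {q : ℂ} {Z : ℕ → (ℕ → ℂ) → ℂ}

theorem value_aux (hq : q ^ 2 + q + 1 = 0) (h : SR q Z) (n : ℕ)
    (hc : Continuous (fun r : ℂ => Z (2 * n + 2) (fun j => r ^ j))) :
    Z (2 * n + 2) (fun _ => 1) * ((PD id (2 * n + 2) : ℝ) : ℂ) ^ 2 * 3 ^ ((n + 1) * n) =
      ((PD (ex 1) (2 * n + 2) : ℝ) : ℂ) * ((PD (ex 2) (2 * n + 2) : ℝ) : ℂ) := by
  have hid : ∀ i j : ℕ, i ≤ j → (id i : ℕ) ≤ id j := fun i j hij => hij
  have h1 : ∀ᶠ r : ℝ in nhdsWithin 1 (Set.Ioi 1),
      Z (2 * n + 2) (fun j => (r : ℂ) ^ j) * ralt id (2 * n + 2) r ^ 2 * 3 ^ ((n + 1) * n) =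
        ralt (ex 1) (2 * n + 2) r * ralt (ex 2) (2 * n + 2) r := by
    filter_upwards [self_mem_nhdsWithin] with r hr
    have hr : (1 : ℝ) < r := hr
    have hr0 : (r : ℂ) ≠ 0 := by
      have : r ≠ 0 := by linarith
      exact_mod_cast this
    have hr1 : (r : ℂ) - 1 ≠ 0 := by
      have : r - 1 ≠ 0 := by linarith
      exact_mod_cast this
    have hTG : TG (2 * n + 2) (2 * n + 2) (fun j => (r : ℂ) ^ j) := by
      refine ⟨fun a _ _ => pow_ne_zero _ hr0, fun a _ b _ hab _ _ h1 => hab ?_⟩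
      have h1' : ((r : ℂ) ^ a) ^ 3 = ((r : ℂ) ^ b) ^ 3 := h1
      have h2 : (r ^ a) ^ 3 = (r ^ b) ^ 3 := by exact_mod_cast h1'
      rw [← pow_mul, ← pow_mul] at h2
      have h3 := (pow_right_injective₀ (by linarith : (0 : ℝ) < r) hr.ne') h2
      omega
    have h2 := sum_id hq h n _ hTG
    unfold Idn at h2
    rw [alt_ralt id hid, alt_ralt (ex 1) (ex_mono 1 (by omega)), alt_ralt (ex 2) (ex_mono 2 (by omega))] at h2
    have h3 : pp (2 * n + 2) (fun _ _ => (r : ℂ) - 1) ≠ 0 := by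
      apply pp_ne_zero
      intro _ _ _ _
      exact hr1
    apply mul_left_cancel₀ (pow_ne_zero 2 h3)
    linear_combination h2
  have c1 : Continuous (fun r : ℝ => Z (2 * n + 2) (fun j => (r : ℂ) ^ j) *
      ralt id (2 * n + 2) r ^ 2 * 3 ^ ((n + 1) * n)) :=
    ((hc.comp Complex.continuous_ofReal).mul
      (((ralt_cont id _).comp Complex.continuous_ofReal).pow 2)).mul continuous_const
  have c2 : Continuous (fun r : ℝ => ralt (ex 1) (2 * n + 2) r * ralt (ex 2) (2 * n + 2) r) :=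
    ((ralt_cont (ex 1) _).comp Complex.continuous_ofReal).mul
      ((ralt_cont (ex 2) _).comp Complex.continuous_ofReal)
  have l1 := (c1.tendsto 1).mono_left (nhdsWithin_le_nhds (s := Set.Ioi 1))
  have l2 := (c2.tendsto 1).mono_left (nhdsWithin_le_nhds (s := Set.Ioi 1))
  have l3 := tendsto_nhds_unique (l1.congr' h1) l2
  simp only [Complex.ofReal_one, one_pow] at l3
  rw [ralt_one id hid, ralt_one (ex 1) (ex_mono 1 (by omega)),
    ralt_one (ex 2) (ex_mono 2 (by omega))] at l3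
  exact l3

/-! ### the products -/

lemma PD_ex_succ (a n : ℕ) : PD (ex a) (2 * n + 2) = PD (ex a) (2 * n) *
    (a * ∏ j ∈ range n, ((3 * (j + 1)) ^ 2 * (3 * (j + 1) - a) * (3 * (j + 1) + a) : ℝ)) := by
  rw [PD_succ_succ, prod_range_succ, prod_range_two_mul, prod_range_two_mul]
  simp only [ex_two_mul, ex_two_mul_add]
  congr 1
  have h1 : ∏ k ∈ range n, ((((3 * n : ℕ) : ℝ) - ((3 * k : ℕ) : ℝ)) *
      (((3 * n : ℕ) : ℝ) - ((3 * k + a : ℕ) : ℝ))) =
      ∏ j ∈ range n, ((3 * (j + 1)) * (3 * (j + 1) - a) : ℝ) := by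
    rw [← Finset.prod_range_reflect]
    apply Finset.prod_congr rfl
    intro i hi
    have hi := mem_range.1 hi
    have : n - 1 - i + (i + 1) = n := by omega
    have h2 : ((n - 1 - i : ℕ) : ℝ) = n - (i + 1) := by
      have : ((n - 1 - i : ℕ) : ℝ) + (i + 1) = n := by exact_mod_cast this
      linarith only [this]
    push_cast
    rw [h2]
    ring
  have h3 : ∏ k ∈ range n, ((((3 * n + a : ℕ) : ℝ) - ((3 * k : ℕ) : ℝ)) *
      (((3 * n + a : ℕ) : ℝ) - ((3 * k + a : ℕ) : ℝ))) =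
      ∏ j ∈ range n, ((3 * (j + 1)) * (3 * (j + 1) + a) : ℝ) := by
    rw [← Finset.prod_range_reflect]
    apply Finset.prod_congr rfl
    intro i hi
    have hi := mem_range.1 hi
    have : n - 1 - i + (i + 1) = n := by omega
    have h2 : ((n - 1 - i : ℕ) : ℝ) = n - (i + 1) := by
      have : ((n - 1 - i : ℕ) : ℝ) + (i + 1) = n := by exact_mod_cast this
      linarith only [this]
    push_cast
    rw [h2]
    ring
  rw [h1, h3, ← mul_assoc, ← Finset.prod_mul_distrib, mul_comm]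
  congr 1
  · push_cast; ring
  · apply Finset.prod_congr rfl
    intro j _
    ring

lemma aht_succ (n : ℕ) : aht (n + 1) = aht n * (ra n ^ 2 * ((3 * n + 2) / (3 * n + 1))) := by
  unfold aht
  rw [asm_succ, prod_range_succ]
  ring

theorem PD_aht (n : ℕ) : PD (ex 1) (2 * n) * PD (ex 2) (2 * n) =
    3 ^ (n * (n - 1)) * aht n * PD id (2 * n) ^ 2 := by
  induction n with
  | zero => simp [PD, pp, aht, asm]
  | succ n ih =>
    rw [show 2 * (n + 1) = 2 * n + 2 by ring, PD_ex_succ, PD_ex_succ, PD_id_succ, P1_eq, P2_eq]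
    have e1 : (3 : ℝ) ^ ((n + 1) * (n + 1 - 1)) = 3 ^ (n * (n - 1)) * (3 ^ n) ^ 2 := by
      rw [← pow_mul, ← pow_add]
      congr 1
      rcases n with _ | n
      · rfl
      · simp only [Nat.add_sub_cancel]
        ring
    rw [e1, aht_succ]
    have e2 : ra n * (((2 * n).factorial : ℝ) * ((2 * n + 1).factorial : ℝ)) =
        ((3 * n + 1).factorial : ℝ) * n.factorial := by
      unfold ra
      field_simp
    have e3 : ((3 * n + 1).factorial : ℝ) = (3 * n + 1) * (3 * n).factorial := by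
      rw [Nat.factorial_succ]; push_cast; ring
    have h31 : (3 * (n : ℝ) + 1) ≠ 0 := by positivity
    have e4 : (((3 * n + 1).factorial : ℝ) * n.factorial) ^ 2 * ((3 * n + 2) / (3 * n + 1)) =
        n.factorial * ((3 * n + 1).factorial : ℝ) * (n.factorial * (((3 * n).factorial : ℝ) * (3 * n + 2))) := by
      rw [e3]
      field_simp
    calc _ = (PD (ex 1) (2 * n) * PD (ex 2) (2 * n)) * (3 ^ n) ^ 2 *
          (n.factorial * ((3 * n + 1).factorial : ℝ) * (n.factorial * (((3 * n).factorial : ℝ) * (3 * n + 2)))) := by ring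
      _ = _ := by
        rw [ih, ← e4, ← e2]
        ring

/-- **The sum rule at the homogeneous point.** -/
theorem sum_value (hq : q ^ 2 + q + 1 = 0) (h : SR q Z) (n : ℕ)
    (hc : Continuous (fun r : ℂ => Z (2 * n + 2) (fun j => r ^ j))) :
    Z (2 * n + 2) (fun _ => 1) = ((aht (n + 1) : ℝ) : ℂ) := by
  have h1 := value_aux hq h n hc
  have h2 := PD_aht (n + 1)
  rw [show 2 * (n + 1) = 2 * n + 2 by ring, Nat.add_sub_cancel] at h2
  have h3 := PD_id_pos (2 * n + 2)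
  have h4 : (((PD id (2 * n + 2) : ℝ) : ℂ) ^ 2 * 3 ^ ((n + 1) * n)) ≠ 0 := by
    apply mul_ne_zero
    · apply pow_ne_zero
      exact_mod_cast h3.ne'
    · exact pow_ne_zero _ (by norm_num)
  apply mul_right_cancel₀ h4
  rw [← mul_assoc, h1]
  have h5 : ((PD (ex 1) (2 * n + 2) * PD (ex 2) (2 * n + 2) : ℝ) : ℂ) =
    ((3 ^ ((n + 1) * n) * aht (n + 1) * PD id (2 * n + 2) ^ 2 : ℝ) : ℂ) := by rw [h2]
  push_cast at h5
  rw [h5]
  ring

end Pool.Agent.H34.Hom

end
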