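import Pool.Agent.H94.BG.H31.PT.M31
import Pool.Agent.H94.BG.M02
import Pool.Agent.H94.BG.M03

/-! The parts of this file: H89.Perc.ArmExt, H85.Gamma.Bounds, H57.LF.Final, H83.EX.SigmaUpper, H83.EX.Scale, H90.NC.ArmDet, H90.NC.ArmExt, H90.NC.ArmGlue, H83.EX.WeakRSW, H12.QKZ.Tri, H12.QKZ.Num, H12.QKZ.Lam, H12.QKZ.Exist, H12.QKZ.Main, H56.EX.Base, H96.EX.SMa, H96.EX.SMb, H96.EX.SM, H96.EX.STM, H89.Link.Diag. -/

section

/-!
# Regularity of the one-arm probability
-/

open MeasureTheory ProbabilityTheory unitInterval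

namespace Pool.Agent.H89.Perc

end Pool.Agent.H89.Perc

end

section

/-!
# Bounds for the arms of an edge and for the derivative of the one-arm probability
-/

open MeasureTheory ProbabilityTheory unitInterval

namespace Pool.Agent.H85.Gamma

open Pool.Agent.H89.Perc

end Pool.Agent.H85.Gamma

end

section

/-!
# The lower bound `θ(p) ≥ c √(p - 1/2)`
-/

open MeasureTheory ProbabilityTheory unitInterval Filter Topology

namespace Pool.Agent.H57.LF

open Pool.Agent.H89.Perc

end Pool.Agent.H57.LF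

end

section

/-! # Upper bound for the mean cluster size -/

open MeasureTheory ProbabilityTheory unitInterval
open scoped ENNReal

namespace Pool.Agent.H83.EX

open Pool.Agent.H89.Perc

end Pool.Agent.H83.EX

end

section

/-! # Good scales: percolation probability and mean cluster size -/

open MeasureTheory ProbabilityTheory unitInterval
open scoped ENNReal

namespace Pool.Agent.H83.EX

open Pool.Agent.H89.Perc

end Pool.Agent.H83.EX

end

section

/-!
# A pivotal edge for the event `W0`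
-/

open MeasureTheory ProbabilityTheory unitInterval

namespace Pool.Agent.H61.NC

open Pool.Agent.H89.Perc

end Pool.Agent.H61.NC

end

section

/-!
# Extension of one-arm events in the box-crossing regime
-/

open MeasureTheory ProbabilityTheory unitInterval

namespace Pool.Agent.H61.NC

open Pool.Agent.H89.Perc

/-! ### Finite energy -/

/-! ### One step of the extension -/

end Pool.Agent.H61.NC

end

section

/-!
# Gluing of the arm of the middle vertex and the outer event
-/

open MeasureTheory ProbabilityTheory unitInterval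

namespace Pool.Agent.H61.NC

open Pool.Agent.H89.Perc

end Pool.Agent.H61.NC

end

section

/-! # Box crossing property at general densities -/

open MeasureTheory ProbabilityTheory unitInterval

namespace Pool.Agent.H83.EX

open Pool.Agent.H89.Perc

/-- The constants of the iteration. -/
noncomputable def wr_beta (δ : ℝ) : ℕ → ℝ
  | 0 => δ
  | i + 1 => δ ^ 3 * wr_beta δ i ^ 2 / 4

end Pool.Agent.H83.EX

end

section

/-!
# Triangularity
-/

namespace Pool.Agent.H12.QKZ

open H56.EX

end Pool.Agent.H12.QKZ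

end

section

/-!
# The normalised fixed vector for admissible angles
-/

namespace Pool.Agent.H12.QKZ

open H56.EX Matrix

set_option linter.unusedSectionVars false

variable {L : ℕ}

/-- The exchange of the classes of `i` and `i+1`. -/
def tau (L : ℕ) (i x : ℤ) : ℤ := if Cg L x i then x + 1 else if Cg L x (i + 1) then x - 1 else x

theorem tau_of_i {i x : ℤ} (h : Cg L x i) : tau L i x = x + 1 := by simp only [tau, if_pos h]

theorem tau_of_succ (hL : 2 ≤ L) {i x : ℤ} (h : Cg L x (i + 1)) : tau L i x = x - 1 := by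
  have h' : ¬ Cg L x i := fun h' => not_Cg_succ hL i (Cg.trans' (Cg.symm' h') h)
  simp only [tau, if_neg h', if_pos h]

theorem tau_other {i x : ℤ} (h : ¬ Cg L x i) (h' : ¬ Cg L x (i + 1)) : tau L i x = x := by
  simp only [tau, if_neg h, if_neg h']

theorem sw_eq_tau (i : ℤ) (θ : ℤ → ℝ) : sw L i θ = fun x => θ (tau L i x) := by
  funext x
  simp only [sw, tau]
  split_ifs <;> rfl

theorem tau_tau (hL : 2 ≤ L) (i x : ℤ) : tau L i (tau L i x) = x := by
  by_cases h1 : Cg L x i
  · rw [tau_of_i h1, tau_of_succ hL (Cg.add 1 h1)]; ring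
  by_cases h2 : Cg L x (i + 1)
  · have h3 : Cg L (x - 1) i := by
      have := Cg.sub 1 h2
      rwa [add_sub_cancel_right] at this
    rw [tau_of_succ hL h2, tau_of_i h3]; ring
  · rw [tau_other h1 h2, tau_other h1 h2]

theorem tau_cg (hL : 2 ≤ L) (i : ℤ) {x y : ℤ} (h : Cg L x y) : Cg L (tau L i x) (tau L i y) := by
  by_cases h1 : Cg L x i
  · rw [tau_of_i h1, tau_of_i (Cg.trans' (Cg.symm' h) h1)]; exact Cg.add 1 h
  by_cases h2 : Cg L x (i + 1)
  · rw [tau_of_succ hL h2, tau_of_succ hL (Cg.trans' (Cg.symm' h) h2)]; exact Cg.sub 1 h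
  · rw [tau_other h1 h2, tau_other (fun h' => h1 (Cg.trans' h h'))
      (fun h' => h2 (Cg.trans' h h'))]
    exact h

theorem tau_cg' (hL : 2 ≤ L) (i : ℤ) {x y : ℤ} (h : Cg L (tau L i x) (tau L i y)) : Cg L x y := by
  have := tau_cg hL i h
  rwa [tau_tau hL, tau_tau hL] at this

theorem tau_add (hL : 2 ≤ L) (i x : ℤ) : tau L i (x + L) = tau L i x + L := by
  have hc : Cg L (x + L) x := by unfold Cg; simp
  by_cases h1 : Cg L x i
  · rw [tau_of_i h1, tau_of_i (Cg.trans' hc h1)]; ring
  by_cases h2 : Cg L x (i + 1)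
  · rw [tau_of_succ hL h2, tau_of_succ hL (Cg.trans' hc h2)]; ring
  · rw [tau_other h1 h2, tau_other (fun h' => h1 (Cg.trans' (Cg.symm' hc) h'))
      (fun h' => h2 (Cg.trans' (Cg.symm' hc) h'))]

/-- The path of patterns used for the positivity. -/
noncomputable def gk (m : ℤ) : ℕ → Pat L → Pat L
  | 0 => id
  | k + 1 => if Even k then E (m + k) ∘ gk m k else gk m k

end Pool.Agent.H12.QKZ

end

section

/-!
# Normalisation by the base component
-/

namespace Pool.Agent.H12.QKZ

open H56.EX Matrix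

variable {L : ℕ}

/-! ### Base patterns -/

/-! ### Closure under rotations -/

theorem emod_of_cg {x : ℤ} {k : ℕ} (hk : k < L) (h : Cg L x k) : x % (L : ℤ) = k := by
  have h1 := Int.emod_eq_emod_iff_emod_sub_eq_zero.2 (Int.emod_eq_zero_of_dvd h)
  rw [h1, Int.emod_eq_of_lt (by omega) (by omega)]

theorem cg_emod (x : ℤ) : Cg L x (x % (L : ℤ)) := Int.dvd_self_sub_emod

/-- Intermediate steps of the left rotation. -/
def Tk (L : ℕ) (θ : ℤ → ℝ) (k : ℕ) : ℤ → ℝ := fun x =>
  if x % (L : ℤ) < k then θ (x + 1) else if x % (L : ℤ) = k then θ (x - k) else θ x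

/-! ### The base component does not vanish -/

end Pool.Agent.H12.QKZ

end

section

/-!
# The renormalised vector and its polynomiality
-/

namespace Pool.Agent.H12.QKZ

open H56.EX Matrix MvPolynomial

variable {L : ℕ}

end Pool.Agent.H12.QKZ

end

section

/-!
# The polynomial qKZ solution
-/

namespace Pool.Agent.H12.QKZ

open H56.EX Matrix MvPolynomial

variable {L : ℕ}

end Pool.Agent.H12.QKZ

end

section

/-! The base case of the leg formula: `F22` with no glued strand. -/

namespace H56.EX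

open scoped BigOperators Classical


end H56.EX

end

section

/-!
# The explicit sum in the form of the leg functions, for any number of legs

`SGen k M u v c z` is the sum over `ε ∈ {q, q²}^M`; `SM M = SGen 4 M q (q²)`.
Recursions, symmetry in `c` and `z`, degree in each `c l`.
-/

set_option autoImplicit false

namespace Pool.Agent.H96.EX

open Finset H56.EX

/-- the two values of `ε` -/
noncomputable def ev (b : Bool) : ℂ := if b then H56.EX.q else H56.EX.q ^ 2

/-- the product of the symmetric pair factors -/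
noncomputable def prz (M : ℕ) (z : ℕ → ℂ) : ℂ :=
  ∏ j : Fin M, ∏ k : Fin M, if j < k then (z j) ^ 2 + z j * z k + (z k) ^ 2 else 1

lemma q_ne_q_sq : H56.EX.q ≠ H56.EX.q ^ 2 := by
  intro h
  apply H56.EX.q_ne_one
  have h0 := H56.EX.q_ne_zero
  have : H56.EX.q * (H56.EX.q - 1) = 0 := by linear_combination -h
  rcases mul_eq_zero.1 this with h1 | h1
  · exact absurd h1 h0
  · linear_combination h1

lemma factor_sq (z w : ℂ) : z ^ 2 + z * w + w ^ 2 =
    (w - H56.EX.q * z) * (w - H56.EX.q ^ 2 * z) := by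
  linear_combination (z * w) * H56.EX.q_sq - z ^ 2 * H56.EX.q_cube

lemma cube_factor (z w : ℂ) : w ^ 3 - z ^ 3 =
    (w - z) * ((w - H56.EX.q * z) * (w - H56.EX.q ^ 2 * z)) := by
  rw [← factor_sq]; ring

lemma ne_of_cube {z w : ℂ} (h : z ^ 3 ≠ w ^ 3) :
    w - z ≠ 0 ∧ w - H56.EX.q * z ≠ 0 ∧ w - H56.EX.q ^ 2 * z ≠ 0 := by
  have h1 : (w - z) * ((w - H56.EX.q * z) * (w - H56.EX.q ^ 2 * z)) ≠ 0 := by
    rw [← cube_factor]
    exact sub_ne_zero.2 h.symm
  exact ⟨left_ne_zero_of_mul h1, left_ne_zero_of_mul (right_ne_zero_of_mul h1),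
    right_ne_zero_of_mul (right_ne_zero_of_mul h1)⟩

lemma prod_pairs {M : ℕ} (H : Fin M → Fin M → ℂ) (h1 : ∀ j, H j j = 1) :
    ∏ j, ∏ k, H j k = ∏ j, ∏ k, if j < k then H j k * H k j else 1 := by
  have e1 : (∏ j : Fin M, ∏ k : Fin M, if j < k then H k j else 1) =
      ∏ j : Fin M, ∏ k : Fin M, if k < j then H j k else 1 := by
    rw [Finset.prod_comm]
  have e2 : (∏ j : Fin M, ∏ k : Fin M, if j < k then H j k * H k j else 1) =
      (∏ j : Fin M, ∏ k : Fin M, if j < k then H j k else 1) *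
      ∏ j : Fin M, ∏ k : Fin M, if j < k then H k j else 1 := by
    rw [← Finset.prod_mul_distrib]
    apply Finset.prod_congr rfl
    intro j _
    rw [← Finset.prod_mul_distrib]
    apply Finset.prod_congr rfl
    intro k _
    split_ifs <;> simp
  rw [e2, e1, ← Finset.prod_mul_distrib]
  apply Finset.prod_congr rfl
  intro j _
  rw [← Finset.prod_mul_distrib]
  apply Finset.prod_congr rfl
  intro k _
  rcases lt_trichotomy j k with h | h | h
  · simp [h, not_lt.2 h.le]
  · simp [h, h1]
  · simp [h, not_lt.2 h.le]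

/-- subsets as boolean functions -/
def boolEquiv (M : ℕ) : (Fin M → Bool) ≃ Finset (Fin M) where
  toFun ε := univ.filter fun j => ε j = true
  invFun A := fun j => decide (j ∈ A)
  left_inv ε := by funext j; simp
  right_inv A := by ext j; simp

end Pool.Agent.H96.EX

end

section

/-!
# The polynomial `S` extending the explicit sum `SGen` to all values of the parameters

* `SPoly k M u v : MvPolynomial (Fin k ⊕ Fin M) ℂ`, `S k M u v c z` = its value;
* `S_eq_SGen` : `S = SGen` for pairwise distinct `z`;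
* `S_continuous`, `S_symm_c`, `S_symm_z`, `S_poly` (degree `≤ M` in each leg), `S_rec1`, `S_rec2`
  (recursions, for ALL values), `S_zero`.
-/

set_option autoImplicit false

namespace Pool.Agent.H96.EX

open Finset H56.EX

lemma prod_lt_eq {M : ℕ} (H : Fin M → Fin M → ℂ) :
    (∏ j, ∏ k, if j < k then H j k else 1) =
      ∏ p ∈ (univ : Finset (Fin M × Fin M)).filter (fun p => p.1 < p.2), H p.1 p.2 := by
  rw [Finset.prod_filter, ← Finset.univ_product_univ, Finset.prod_product]

lemma prod_lt_perm {M : ℕ} (G : Fin M → Fin M → ℂ) (hG : ∀ j k, G j k = G k j)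
    (σ : Equiv.Perm (Fin M)) :
    (∏ j, ∏ k, if j < k then G (σ j) (σ k) else 1) = ∏ j, ∏ k, if j < k then G j k else 1 := by
  rw [prod_lt_eq (fun j k => G (σ j) (σ k)), prod_lt_eq]
  refine Finset.prod_bij' (fun p _ => if σ p.1 < σ p.2 then (σ p.1, σ p.2) else (σ p.2, σ p.1))
    (fun p _ => if σ.symm p.1 < σ.symm p.2 then (σ.symm p.1, σ.symm p.2)
      else (σ.symm p.2, σ.symm p.1)) ?_ ?_ ?_ ?_ ?_
  · rintro ⟨a, b⟩ h
    simp only [mem_filter, mem_univ, true_and] at h ⊢
    split_ifs with h1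
    · exact h1
    · exact lt_of_le_of_ne (not_lt.1 h1) (fun h2 => h.ne' (σ.injective h2))
  · rintro ⟨a, b⟩ h
    simp only [mem_filter, mem_univ, true_and] at h ⊢
    split_ifs with h1
    · exact h1
    · exact lt_of_le_of_ne (not_lt.1 h1) (fun h2 => h.ne' (σ.symm.injective h2))
  · rintro ⟨a, b⟩ h
    simp only [mem_filter, mem_univ, true_and] at h
    by_cases h1 : σ a < σ b
    · simp [h1, h]
    · simp [h1, not_lt.2 h.le]
  · rintro ⟨a, b⟩ h
    simp only [mem_filter, mem_univ, true_and] at h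
    by_cases h1 : σ.symm a < σ.symm b
    · simp [h1, h]
    · simp [h1, not_lt.2 h.le]
  · rintro ⟨a, b⟩ h
    by_cases h1 : σ a < σ b
    · simp [h1]
    · simp only [h1, if_false]
      exact hG _ _

/-! ### Vandermonde product -/

/-- Vandermonde product -/
noncomputable def dz (M : ℕ) (z : ℕ → ℂ) : ℂ :=
  ∏ j : Fin M, ∏ k : Fin M, if j < k then z k - z j else 1

lemma dz_eq_det (M : ℕ) (z : ℕ → ℂ) :
    dz M z = (Matrix.vandermonde (fun j : Fin M => z j)).det := by
  rw [Matrix.det_vandermonde]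
  unfold dz
  apply Finset.prod_congr rfl
  intro j _
  rw [← Finset.prod_filter]
  apply Finset.prod_congr
  · ext k; simp
  · intro k _; rfl

lemma dz_perm {M : ℕ} {z z' : ℕ → ℂ} (σ : Equiv.Perm (Fin M))
    (h : ∀ j : Fin M, z' j = z (σ j)) : dz M z' = (Equiv.Perm.sign σ : ℤ) * dz M z := by
  rw [dz_eq_det, dz_eq_det, ← Matrix.det_permute]
  congr 1
  ext i j
  simp [Matrix.vandermonde_apply, h]

lemma dz_ne_zero {M : ℕ} {z : ℕ → ℂ} (h : ∀ i j : Fin M, i ≠ j → z i ≠ z j) : dz M z ≠ 0 := by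
  unfold dz
  rw [Finset.prod_ne_zero_iff]
  intro j _
  rw [Finset.prod_ne_zero_iff]
  intro k _
  split_ifs with hjk
  · exact sub_ne_zero.2 (h _ _ hjk.ne')
  · exact one_ne_zero

/-! ### numerators -/

/-- numerator of the pair factor, in any commutative ring -/
def fnum {R : Type*} [CommRing R] (q0 : R) (b b' : Bool) (Z W : R) : R :=
  if b = b' then W ^ 3 - Z ^ 3 else if b = true then (W - q0 * Z) ^ 3 else -(Z - q0 * W) ^ 3

lemma map_fnum {R R' : Type*} [CommRing R] [CommRing R'] (f : R →+* R') (q0 : R) (b b' : Bool)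
    (Z W : R) : f (fnum q0 b b' Z W) = fnum (f q0) b b' (f Z) (f W) := by
  unfold fnum
  split_ifs <;> simp

open MvPolynomial in
/-- numerator polynomial -/
noncomputable def NPoly (k M : ℕ) (u v : ℂ) : MvPolynomial (Fin k ⊕ Fin M) ℂ :=
  ∑ ε : Fin M → Bool,
    (∏ j : Fin M, C (if ε j then u else v) *
      ∏ l : Fin k, (X (Sum.inl l) - C (ev (ε j)) * X (Sum.inr j))) *
    ∏ j : Fin M, ∏ k : Fin M, if j < k then
      fnum (C H56.EX.q) (ε j) (ε k) (X (Sum.inr j)) (X (Sum.inr k)) else 1

/-- point of evaluation -/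
def pt {k M : ℕ} (c : Fin k → ℂ) (z : ℕ → ℂ) : Fin k ⊕ Fin M → ℂ :=
  Sum.elim c (fun j : Fin M => z j)

open MvPolynomial in
lemma NPoly_eval {k M : ℕ} (u v : ℂ) (c : Fin k → ℂ) (z : ℕ → ℂ) :
    eval (pt c z) (NPoly k M u v) = ∑ ε : Fin M → Bool,
    (∏ j : Fin M, (if ε j then u else v) * ∏ l : Fin k, (c l - ev (ε j) * z j)) *
    ∏ j : Fin M, ∏ k : Fin M, if j < k then
      fnum H56.EX.q (ε j) (ε k) (z j) (z k) else 1 := by
  unfold NPoly
  rw [map_sum]
  apply Finset.sum_congr rfl
  intro ε _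
  rw [map_mul, map_prod, map_prod]
  congr 1
  · apply Finset.prod_congr rfl
    intro j _
    simp [pt]
  · apply Finset.prod_congr rfl
    intro j _
    rw [map_prod]
    apply Finset.prod_congr rfl
    intro k _
    split_ifs with h
    · rw [map_fnum]
      simp [pt]
    · simp

/-! ### continuity along a line -/

lemma cubes_finite {M : ℕ} (z : ℕ → ℂ) :
    {t : ℂ | ¬ ∀ i j : Fin M, i ≠ j →
      (z i + t * ((i : ℕ) + 1)) ^ 3 ≠ (z j + t * ((j : ℕ) + 1)) ^ 3}.Finite := by
  have key : ∀ i j : Fin M, i ≠ j →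
      {t : ℂ | (z i + t * ((i : ℕ) + 1)) ^ 3 = (z j + t * ((j : ℕ) + 1)) ^ 3}.Finite := by
    intro i j hij
    set p : Polynomial ℂ := (Polynomial.C (z i) + Polynomial.X * Polynomial.C ((i : ℕ) + 1 : ℂ)) ^ 3 -
      (Polynomial.C (z j) + Polynomial.X * Polynomial.C ((j : ℕ) + 1 : ℂ)) ^ 3 with hp
    have hcoef : p.coeff 3 = ((i : ℕ) + 1 : ℂ) ^ 3 - ((j : ℕ) + 1 : ℂ) ^ 3 := by
      have hexp : ∀ a b : ℂ, (Polynomial.C a + Polynomial.X * Polynomial.C b) ^ 3 =
          Polynomial.C (b ^ 3) * Polynomial.X ^ 3 + Polynomial.C (3 * a * b ^ 2) *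
            Polynomial.X ^ 2 + Polynomial.C (3 * a ^ 2 * b) * Polynomial.X ^ 1 +
            Polynomial.C (a ^ 3) * Polynomial.X ^ 0 := by
        intro a b
        simp only [map_mul, map_pow]
        have : (Polynomial.C (3 : ℂ)) = 3 := rfl
        rw [this]
        ring
      have hc3 : ∀ a b : ℂ, ((Polynomial.C a + Polynomial.X * Polynomial.C b) ^ 3).coeff 3 =
          b ^ 3 := by
        intro a b
        rw [hexp]
        simp only [Polynomial.coeff_add, Polynomial.coeff_C_mul, Polynomial.coeff_X_pow]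
        norm_num
      rw [hp, Polynomial.coeff_sub, hc3, hc3]
    have hp0 : p ≠ 0 := by
      intro h0
      rw [h0, Polynomial.coeff_zero] at hcoef
      have h1 : (((i : ℕ) + 1) ^ 3 : ℕ) = (((j : ℕ) + 1) ^ 3 : ℕ) := by
        have : (((((i : ℕ) + 1) ^ 3 : ℕ)) : ℂ) = (((((j : ℕ) + 1) ^ 3 : ℕ)) : ℂ) := by
          push_cast
          linear_combination -hcoef
        exact_mod_cast this
      have h2 := Nat.pow_left_injective (n := 3) (by norm_num) h1
      apply hij
      ext
      simpa using h2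
    refine (Polynomial.finite_setOfPred_isRoot hp0).subset ?_
    intro t ht
    rw [Set.mem_ofPred_eq] at ht ⊢
    rw [Polynomial.IsRoot.def, hp]
    simp only [Polynomial.eval_sub, Polynomial.eval_pow, Polynomial.eval_add, Polynomial.eval_mul,
      Polynomial.eval_C, Polynomial.eval_X]
    rw [ht]; ring
  have hsub : {t : ℂ | ¬ ∀ i j : Fin M, i ≠ j →
      (z i + t * ((i : ℕ) + 1)) ^ 3 ≠ (z j + t * ((j : ℕ) + 1)) ^ 3} ⊆
      ⋃ i : Fin M, ⋃ j : Fin M, ⋃ (_ : i ≠ j),
        {t : ℂ | (z i + t * ((i : ℕ) + 1)) ^ 3 = (z j + t * ((j : ℕ) + 1)) ^ 3} := by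
    intro t ht
    rw [Set.mem_ofPred_eq] at ht
    push Not at ht
    obtain ⟨i, j, hij, h⟩ := ht
    simp only [Set.mem_iUnion]
    exact ⟨i, j, hij, h⟩
  refine Set.Finite.subset ?_ hsub
  apply Set.finite_iUnion
  intro i
  apply Set.finite_iUnion
  intro j
  apply Set.finite_iUnion
  intro hij
  exact key i j hij

/-- the perturbed sequence -/
noncomputable def zt (z : ℕ → ℂ) (t : ℂ) : ℕ → ℂ := fun n => z n + t * ((n : ℂ) + 1)

lemma zt_zero (z : ℕ → ℂ) : zt z 0 = z := by
  funext n; simp [zt]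

lemma zt_cont (z : ℕ → ℂ) : Continuous (zt z) := by
  unfold zt
  apply continuous_pi
  intro n
  fun_prop

/-- two continuous functions of `t` which agree whenever the perturbed sequence has distinct
cubes agree at `0` -/
lemma line_ext {M : ℕ} (z : ℕ → ℂ) {F G : ℂ → ℂ} (hF : Continuous F) (hG : Continuous G)
    (h : ∀ t, (∀ i j : Fin M, i ≠ j → (zt z t i) ^ 3 ≠ (zt z t j) ^ 3) → F t = G t) :
    F 0 = G 0 := by
  have hfin := cubes_finite (M := M) z
  have hd : Dense ({t : ℂ | ¬ ∀ i j : Fin M, i ≠ j →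
      (z i + t * ((i : ℕ) + 1)) ^ 3 ≠ (z j + t * ((j : ℕ) + 1)) ^ 3}ᶜ) :=
    hfin.countable.dense_compl ℂ
  have := Continuous.ext_on hd hF hG (by
    intro t ht
    apply h
    simp only [Set.mem_compl_iff, Set.mem_ofPred_eq, not_not] at ht
    exact ht)
  rw [this]

lemma ne_of_cubes {M : ℕ} {z : ℕ → ℂ} (h : ∀ i j : Fin M, i ≠ j → (z i) ^ 3 ≠ (z j) ^ 3) :
    ∀ i j : Fin M, i ≠ j → z i ≠ z j := by
  intro i j hij h'
  exact h i j hij (by rw [h'])

open MvPolynomial in
lemma eval_pt_cont {k M : ℕ} {X' : Type*} [TopologicalSpace X'] (P : MvPolynomial (Fin k ⊕ Fin M) ℂ)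
    {c : X' → Fin k → ℂ} {z : X' → ℕ → ℂ} (hc : Continuous c) (hz : Continuous z) :
    Continuous (fun t => eval (pt (c t) (z t)) P) := by
  apply (MvPolynomial.continuous_eval P).comp
  apply continuous_pi
  rintro (l | j)
  · exact (continuous_apply l).comp hc
  · exact (continuous_apply (j : ℕ)).comp hz

/-- extension of a finite sequence -/
noncomputable def ext0 {M : ℕ} (z : Fin M → ℂ) : ℕ → ℂ := fun n => if h : n < M then z ⟨n, h⟩ else 0

@[simp] lemma ext0_apply {M : ℕ} (z : Fin M → ℂ) (j : Fin M) : ext0 z j = z j := by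
  simp [ext0]

lemma ext0_cont {M : ℕ} {X' : Type*} [TopologicalSpace X'] {z : X' → Fin M → ℂ}
    (hz : Continuous z) : Continuous (fun t => ext0 (z t)) := by
  apply continuous_pi
  intro n
  unfold ext0
  by_cases h : n < M
  · simp only [h, dif_pos]
    exact (continuous_apply _).comp hz
  · simp only [h, dif_neg, not_false_iff]
    exact continuous_const

/-! ### divisibility -/

section dvd

open MvPolynomial

variable {σ : Type*} [DecidableEq σ]

/-- substitution `X j ↦ X i` -/
noncomputable def sb (i j : σ) : MvPolynomial σ ℂ →ₐ[ℂ] MvPolynomial σ ℂ :=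
  aeval (fun s => if s = j then X i else X s)

lemma dvd_of_sb (i j : σ) (P : MvPolynomial σ ℂ) (h : sb i j P = 0) :
    (X j - X i : MvPolynomial σ ℂ) ∣ P := by
  rw [← Ideal.mem_span_singleton, ← Ideal.Quotient.eq_zero_iff_mem]
  have key : (Ideal.Quotient.mkₐ ℂ (Ideal.span {(X j - X i : MvPolynomial σ ℂ)})).comp (sb i j) =
      Ideal.Quotient.mkₐ ℂ (Ideal.span {(X j - X i : MvPolynomial σ ℂ)}) := by
    apply MvPolynomial.algHom_ext
    intro s
    simp only [AlgHom.comp_apply, sb, aeval_X]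
    by_cases hs : s = j
    · subst hs
      rw [if_pos rfl]
      symm
      rw [Ideal.Quotient.mkₐ_eq_mk, Ideal.Quotient.eq]
      exact Ideal.mem_span_singleton_self _
    · rw [if_neg hs]
  have h2 := congrArg (fun f => f P) key
  simp only [AlgHom.comp_apply, h, map_zero] at h2
  rw [Ideal.Quotient.mkₐ_eq_mk] at h2
  exact h2.symm

lemma sb_ne {i j a b : σ} (hab : a ≠ b) (h1 : ¬ (a = i ∧ b = j)) (h2 : ¬ (a = j ∧ b = i)) :
    sb i j (X b - X a : MvPolynomial σ ℂ) ≠ 0 := by
  unfold sb
  simp only [map_sub, aeval_X]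
  intro h
  rw [sub_eq_zero] at h
  split_ifs at h with hb ha ha
  · exact hab (ha.trans hb.symm)
  · exact h1 ⟨(X_injective h).symm, hb⟩
  · exact h2 ⟨ha, X_injective h⟩
  · exact hab (X_injective h).symm

end dvd

open MvPolynomial in
lemma prod_dvd {k M : ℕ} (N : MvPolynomial (Fin k ⊕ Fin M) ℂ) (T : Finset (Fin M × Fin M))
    (hT : ∀ p ∈ T, p.1 < p.2)
    (hN : ∀ p ∈ T, sb (Sum.inr p.1) (Sum.inr p.2) N = 0) :
    (∏ p ∈ T, (X (Sum.inr p.2) - X (Sum.inr p.1) : MvPolynomial (Fin k ⊕ Fin M) ℂ)) ∣ N := by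
  induction T using Finset.induction_on with
  | empty => simp
  | insert p T hp ih =>
    obtain ⟨N', hN'⟩ := ih (fun p hp => hT p (mem_insert_of_mem hp))
      (fun p hp => hN p (mem_insert_of_mem hp))
    have h1 := hN p (mem_insert_self _ _)
    rw [hN', map_mul, map_prod] at h1
    have h2 : ∏ x ∈ T, sb (Sum.inr p.1) (Sum.inr p.2)
        (X (Sum.inr x.2) - X (Sum.inr x.1) : MvPolynomial (Fin k ⊕ Fin M) ℂ) ≠ 0 := by
      rw [Finset.prod_ne_zero_iff]
      intro x hx
      have hx1 := hT x (mem_insert_of_mem hx)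
      have hp1 := hT p (mem_insert_self _ _)
      apply sb_ne
      · exact fun h => hx1.ne (Sum.inr_injective h)
      · rintro ⟨h3, h4⟩
        apply hp
        have : x = p := Prod.ext (Sum.inr_injective h3) (Sum.inr_injective h4)
        rwa [← this]
      · rintro ⟨h3, h4⟩
        have h5 : x.1 = p.2 := Sum.inr_injective h3
        have h6 : x.2 = p.1 := Sum.inr_injective h4
        rw [h5, h6] at hx1
        exact absurd hp1 (not_lt.2 hx1.le)
    have h3 := (mul_eq_zero.1 h1).resolve_left h2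
    obtain ⟨N'', hN''⟩ := dvd_of_sb _ _ _ h3
    rw [Finset.prod_insert hp, hN', hN'']
    exact ⟨N'', by ring⟩

open MvPolynomial in
/-- Vandermonde polynomial -/
noncomputable def DPoly (k M : ℕ) : MvPolynomial (Fin k ⊕ Fin M) ℂ :=
  ∏ p ∈ (univ : Finset (Fin M × Fin M)).filter (fun p => p.1 < p.2),
    (X (Sum.inr p.2) - X (Sum.inr p.1))

open MvPolynomial in
lemma DPoly_eval {k M : ℕ} (c : Fin k → ℂ) (z : ℕ → ℂ) :
    eval (pt c z) (DPoly k M) = dz M z := by
  unfold DPoly dz
  rw [prod_lt_eq, map_prod]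
  apply Finset.prod_congr rfl
  intro p _
  simp [pt]

/-! ### degree in a leg parameter -/

end Pool.Agent.H96.EX

end

section

/-!
# Interface for `H56.EX.SM`

`SM_S` : `SM M c z = S 4 M q (q²) c z` for pairwise distinct `z`;
`SM_zero`, `SM_symm_c`, `SM_symm_z`, `SM_poly`, `SM_rec1`, `SM_rec2`, `SM_unique`.
For all values of the parameters (also coinciding strands) use `S 4 M q (q²)` of `SMb.lean`.
-/

set_option autoImplicit false

namespace Pool.Agent.H96.EX

open Finset H56.EX

end Pool.Agent.H96.EX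

end

section

/-!
# Bridge: `S` and the sum `SG` over `range M` with a list of legs (helper56's `TM`)
-/

set_option autoImplicit false

namespace Pool.Agent.H96.EX

open Finset H56.EX

lemma range_eq_map (M : ℕ) : range M = (univ : Finset (Fin M)).map Fin.valEmbedding := by
  ext n
  simp only [mem_range, mem_map, mem_univ, true_and, Fin.valEmbedding_apply]
  exact ⟨fun h => ⟨⟨n, h⟩, rfl⟩, fun ⟨i, hi⟩ => hi ▸ i.isLt⟩

end Pool.Agent.H96.EX

end

section

/-!
# LINK module `Diag`: four arms at a diagonal pair of vertices and four arms of an edge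

`x = (0, 0)`, `y = (1, -1)`, `z = (1, 0)`, `w = (0, -1)`: the corners of the face `q = (0, -1)`;
`e = (0, 0, false)` joins `x, z`; `g = (1, -1, true)` joins `y, z`; `f = (0, -1, true)` joins `w, x`.
Clusters `C(v)` are taken in `ball 0 k` (all four points are in it for `k ≥ 1`).

`fourD_le_a4`.  Let `ω ∈ FourD k`.
* `z ∈ C(y)`: `e` is closed, `ω ∈ A4 e k`.
* `z ∈ C(x)`: `g` is closed; restricted to `ball (1, -1) (k - 1) ⊆ ball 0 k` this is `A4 g (k - 1)` (`src g = y`; the
  path from `z` goes through `x` to the sphere; cut it at `sphere y (k-1)`).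
* otherwise: `Function.update ω g true ∈ A4 e k` (now `z ∈ C(y)`, `x` is not joined to it).
  `Pr p {ω | update ω g true ∈ A} ≤ Pr p A / p` (independence of the edge `g`).
Then `Pr_A4` and `a4_anti`.

`a4_le_fourD`.  Let `ω ∈ A4 e k`, `ω₀ = close e ω` (the clusters are now those of `ω₀`).
* `y ∈ C(z)`: `ω₀ ∈ FourD k`.
* `y ∉ C(z)`, `y ∉ C(x)`: `update ω₀ g true ∈ FourD k`.
* `y ∈ C(x)`, `w ∈ C(x)`: the reflection `(a, b) ↦ (1 - a, b)` of `ω₀` is in `FourD (k - 1)`
  (`z ↦ x`, `w ↦ y`; `ball (1, 0) (k - 1) ⊆ ball 0 k`).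
* `y ∈ C(x)`, `w ∉ C(x)`, `w ∉ C(z)`: the same for `update ω₀ f true`.
* `y ∈ C(x)`, `w ∈ C(z)`: impossible (planarity).  Let `c` be a path sum (`exists_pathSum` of `Link/Potential.lean`) of an
  open path from `x` to `y` in `ball 0 k`, `A = c + 1_e + 1_g` (all degrees even, finite support), `G = pot A H`,
  `G (lowFace e') + G (src e') = A e'` (`pot_even`).  `A` has no edge at any vertex of `C(z)` except `z` (its edges join
  vertices of `C(x)`, or are `e`, `g`).  So around every vertex `v ∈ C(z)`, `v ≠ z`, the four faces have the same colour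
  `G`, and neighbours in `C(z) \ {z}` share a face, so this colour is constant along an open path from `w` to the last
  vertex `v` before `z`; around `w` it is `G q` (`q = (0, -1)` is a face at `w`).  `v ∈ {(2, 0), (1, 1)}` (`v ≠ x, y`), and the
  face `(1, 0)` contains both; so `G (1, 0) = G q`.  But from `q` to the face `(0, 0)` one crosses `e` (`A e = 1`,
  because `c e = 0`), and from `(0, 0)` to `(1, 0)` one crosses `(1, 0, true)` (`A = 0`, it joins `z` and `(1, 1)`, not
  in `C(x)`; if it is closed also `c = 0`).  So `G (1, 0) = G q + 1`, contradiction.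
  (Take the path from `w` to `z` with `z` only at the end: `Conn` in `ball 0 k \ {z}` to a neighbour of `z`.)
-/

set_option autoImplicit false

open MeasureTheory ProbabilityTheory unitInterval

namespace Pool.Agent.H89.Link

open Pool.Agent.H89.Perc (Vert Edge Config Pr half)
open Pool.Agent.H61.NC (a4)
open Pool.Agent.H89.Perc (src tgt lowFace ball sphere)

abbrev dz : Vert := (1, 0)
abbrev dw : Vert := (0, -1)
abbrev dE : Edge := (0, 0, false)
abbrev dG : Edge := (1, -1, true)
abbrev dF : Edge := (0, -1, true)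

/-! ### Clusters -/

lemma diag_close_eq {ω : Config} {e : Edge} (h : ω e = false) :
    Pool.Agent.H61.NC.close e ω = ω := by
  unfold Pool.Agent.H61.NC.close
  rw [← h, Function.update_eq_self]

/-! ### Probabilities -/

lemma diag_pr_true (p : I) (h1 : 1 / 4 ≤ (p : ℝ)) {s : Finset Edge} {A : Set Config}
    (hA : Perc.LocalOn s A) (e : Edge) :
    Pr p {ω | Function.update ω e true ∈ A} ≤ 4 * Pr p A := by
  have h := Perc.Pr_eq_update (p := p) hA e
  have h2 : 0 ≤ Pr p {ω | Function.update ω e true ∈ A} := Perc.Pr_nonneg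
  have h3 : 0 ≤ Pr p {ω | Function.update ω e false ∈ A} := Perc.Pr_nonneg
  have h4 : (p : ℝ) ≤ 1 := p.2.2
  have h5 : 0 ≤ (1 - (p : ℝ)) * Pr p {ω | Function.update ω e false ∈ A} :=
    mul_nonneg (by linarith only [h4]) h3
  have h6 : (1 / 4 : ℝ) * Pr p {ω | Function.update ω e true ∈ A} ≤
      (p : ℝ) * Pr p {ω | Function.update ω e true ∈ A} := mul_le_mul_of_nonneg_right h1 h2
  linarith only [h, h5, h6]

/-! ### The first inequality -/

/-! ### The second inequality -/

/-- The reflected configuration. -/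
lemma diag_refl {k : ℕ} (hk : 2 ≤ k) {ω : Config} {u u' : Vert} (hu : u ∈ sphere 0 k)
    (hu' : u' ∈ sphere 0 k) (h1 : Perc.Conn ω (ball 0 k) dz u) (h2 : Perc.Conn ω (ball 0 k) dw u')
    (h3 : ¬ Perc.Conn ω (ball 0 k) dz dw) :
    (fun e => ω (Perc.reflX 1 e)) ∈ FourD (k - 1) := by
  have hb : {w : Vert | (1 - w.1, w.2) ∈ ball 0 (k - 1)} = ball dz (k - 1) := by
    ext w
    simp only [Set.mem_ofPred_eq, Perc.mem_ball, Prod.fst_zero, Prod.snd_zero]
    omega
  have hsub : ball dz (k - 1) ⊆ ball 0 k := by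
    intro t ht
    simp only [Perc.mem_ball, Prod.fst_zero, Prod.snd_zero] at ht ⊢
    omega
  have hout : ∀ t ∈ sphere 0 k, t ∉ ball dz (k - 1) ∨ t ∈ sphere dz (k - 1) := by
    rintro t ⟨ht1, ht2⟩
    by_cases ht3 : t ∈ ball dz (k - 1)
    · right
      refine ⟨ht3, ?_⟩
      simp only [Perc.mem_ball, Prod.fst_zero, Prod.snd_zero] at ht1 ht2 ht3 ⊢
      omega
    · exact Or.inl ht3
  have key : ∀ a b : Vert, Perc.Conn (fun e => ω (Perc.reflX 1 e)) (ball 0 (k - 1)) a b ↔
      Perc.Conn ω (ball dz (k - 1)) (1 - a.1, a.2) (1 - b.1, b.2) := by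
    intro a b
    rw [Perc.conn_reflX, hb]
  have ex : ∀ a : Vert, (∃ t ∈ sphere dz (k - 1), Perc.Conn ω (ball dz (k - 1)) (1 - a.1, a.2) t) →
      ∃ t ∈ sphere 0 (k - 1), Perc.Conn (fun e => ω (Perc.reflX 1 e)) (ball 0 (k - 1)) a t := by
    rintro a ⟨t, ht, hc⟩
    refine ⟨(1 - t.1, t.2), ?_, ?_⟩
    · obtain ⟨ht1, ht2⟩ := ht
      simp only [sphere, Set.mem_ofPred_eq, Perc.mem_ball, Prod.fst_zero, Prod.snd_zero]
        at ht1 ht2 ⊢
      omega
    · rw [key]
      simpa using hc
  have hw' : dw ∈ ball dz (k - 1) := by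
    simp only [Perc.mem_ball]; omega
  obtain ⟨a, ha, hca⟩ := h1.to_sphere (v := dz) (r := k - 1) Perc.self_mem_ball (hout _ hu)
  obtain ⟨b, hb', hcb⟩ := h2.to_sphere (v := dz) (r := k - 1) hw' (hout _ hu')
  refine ⟨ex xx ⟨a, ha, ?_⟩, ex yy ⟨b, hb', ?_⟩, ?_⟩
  · exact hca.mono_set Set.inter_subset_right
  · exact hcb.mono_set Set.inter_subset_right
  · rw [key]
    intro h
    exact h3 (h.mono_set hsub)

end Pool.Agent.H89.Link

end
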