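import Pool.Agent.H94.BG.H31.PT.M31_1
import Pool.Agent.H94.BG.M03

/-! The parts of this file: H89.Perc.ArmExt, H85.Gamma.Bounds, H57.LF.Final, H83.EX.SigmaUpper, H83.EX.Scale, H90.NC.ArmDet, H90.NC.ArmExt, H90.NC.ArmGlue, H83.EX.WeakRSW, H12.QKZ.Tri, H12.QKZ.Num, H12.QKZ.Lam, H12.QKZ.Exist, H12.QKZ.Main, H56.EX.Base, H96.EX.SMa, H96.EX.SMb, H96.EX.SM, H96.EX.STM, H89.Link.Diag. -/

section

/-!
# Regularity of the one-arm probability
-/

open MeasureTheory ProbabilityTheory unitInterval

namespace Pool.Agent.H89.Perc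

end Pool.Agent.H89.Perc

end

section

/-!
# Bounds for the arms of an edge and for the derivative of the one-arm probability
-/

open MeasureTheory ProbabilityTheory unitInterval

namespace Pool.Agent.H85.Gamma

open Pool.Agent.H89.Perc

end Pool.Agent.H85.Gamma

end

section

/-!
# The lower bound `θ(p) ≥ c √(p - 1/2)`
-/

open MeasureTheory ProbabilityTheory unitInterval Filter Topology

namespace Pool.Agent.H57.LF

open Pool.Agent.H89.Perc

end Pool.Agent.H57.LF

end

section

/-! # Upper bound for the mean cluster size -/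

open MeasureTheory ProbabilityTheory unitInterval
open scoped ENNReal

namespace Pool.Agent.H83.EX

open Pool.Agent.H89.Perc

end Pool.Agent.H83.EX

end

section

/-! # Good scales: percolation probability and mean cluster size -/

open MeasureTheory ProbabilityTheory unitInterval
open scoped ENNReal

namespace Pool.Agent.H83.EX

open Pool.Agent.H89.Perc

end Pool.Agent.H83.EX

end

section

/-!
# A pivotal edge for the event `W0`
-/

open MeasureTheory ProbabilityTheory unitInterval

namespace Pool.Agent.H61.NC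

open Pool.Agent.H89.Perc

end Pool.Agent.H61.NC

end

section

/-!
# Extension of one-arm events in the box-crossing regime
-/

open MeasureTheory ProbabilityTheory unitInterval

namespace Pool.Agent.H61.NC

open Pool.Agent.H89.Perc

/-! ### Finite energy -/

/-! ### One step of the extension -/

end Pool.Agent.H61.NC

end

section

/-!
# Gluing of the arm of the middle vertex and the outer event
-/

open MeasureTheory ProbabilityTheory unitInterval

namespace Pool.Agent.H61.NC

open Pool.Agent.H89.Perc

end Pool.Agent.H61.NC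

end

section

/-! # Box crossing property at general densities -/

open MeasureTheory ProbabilityTheory unitInterval

namespace Pool.Agent.H83.EX

open Pool.Agent.H89.Perc

end Pool.Agent.H83.EX

end

section

/-!
# Triangularity
-/

namespace Pool.Agent.H12.QKZ

open H56.EX

end Pool.Agent.H12.QKZ

end

section

/-!
# The normalised fixed vector for admissible angles
-/

namespace Pool.Agent.H12.QKZ

open H56.EX Matrix

set_option linter.unusedSectionVars false

variable {L : ℕ}

theorem Adm.rot {θ : ℤ → ℝ} {m : ℤ} (h : Adm L θ m) :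
    Adm L (fun x => θ (x - 1)) (m + 1) where
  per := fun x => by rw [show x + (L : ℤ) - 1 = x - 1 + L by ring, h.per]
  pos := fun x => h.pos _
  lt := fun x => h.lt _
  inj := fun x y hxy => h.inj _ _ fun hc => hxy (by
    have := Cg.add 1 hc
    simpa using this)
  max := fun x hx => by
    rw [add_sub_cancel_right]
    apply h.max
    intro hc
    apply hx
    have := Cg.add 1 hc
    simpa using this

theorem W_congr {θ : ℤ → ℝ} (hper : ∀ x, θ (x + L) = θ x) {m m' : ℤ} (h : Cg L m m') :
    ∀ k : ℕ, (W θ m k : Matrix (Pat L) (Pat L) ℝ) = W θ m' k := by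
  intro k
  induction k with
  | zero => rfl
  | succ k ih =>
    rw [W, W, ih, RR_congr (Cg.add k h), per_dvd_fun hper h,
      per_dvd_fun hper (show Cg L (m + 1 + k) (m' + 1 + k) from Cg.add k (Cg.add 1 h))]

theorem Sc_congr {θ : ℤ → ℝ} (hper : ∀ x, θ (x + L) = θ x) {m m' : ℤ} (h : Cg L m m') :
    (Sc θ m : Matrix (Pat L) (Pat L) ℝ) = Sc θ m' := by
  unfold Sc; rw [W_congr hper h]

theorem RR_stoch {θ : ℤ → ℝ} {m : ℤ} (h : Adm L θ m) (i x : ℤ) (hx : ¬ Cg L x m) :
    ColStoch (RR i (θ m - θ x) : Matrix (Pat L) (Pat L) ℝ) := by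
  have h1 : 0 < θ m - θ x := sub_pos.2 (h.max x hx)
  have h2 : θ m - θ x < 2 * Real.pi / 3 := lt_of_abs_lt (h.abs_lt m x)
  exact Rm_colStoch (br_pos h1 h2).le (br_lt_one h1 h2).le (mapMat_colStoch _)

theorem W_stoch {θ : ℤ → ℝ} {m : ℤ} (h : Adm L θ m) : ∀ k : ℕ, k + 1 ≤ L →
    ColStoch (W θ m k : Matrix (Pat L) (Pat L) ℝ) := by
  intro k
  induction k with
  | zero => intro _; exact ColStoch.one
  | succ k ih =>
    intro hk
    rw [W]
    exact (RR_stoch h _ _ (not_cg_of_lt (by omega) (by omega))).mul (ih (by omega))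

theorem Sc_stoch {θ : ℤ → ℝ} {m : ℤ} (hL : 2 ≤ L) (h : Adm L θ m) :
    ColStoch (Sc θ m : Matrix (Pat L) (Pat L) ℝ) := by
  unfold Sc
  exact (mapMat_colStoch _).mul (W_stoch h _ (by omega))

open Classical in
/-- The normalised fixed vector (for admissible angles). -/
noncomputable def psiR (L : ℕ) (θ : ℤ → ℝ) : Pat L → ℝ :=
  if h : ∃ v : Pat L → ℝ, ∃ m, Adm L θ m ∧ Sc θ m *ᵥ v = v ∧ ∑ P, v P = 1 then h.choose else 0

theorem Adm.max_unique {θ : ℤ → ℝ} {m m' : ℤ} (h : Adm L θ m) (h' : Adm L θ m') : Cg L m m' := by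
  by_contra hc
  have h1 := h'.max m hc
  have h2 := h.max m' (fun h => hc (Cg.symm' h))
  linarith

/-- Sum of the coordinates is preserved by `R`. -/
theorem RR_sum (i : ℤ) (δ : ℝ) (v : Pat L → ℝ) : ∑ P, (RR i δ *ᵥ v) P = ∑ P, v P := by
  unfold RR Rm
  simp only [Matrix.add_mulVec, Matrix.smul_mulVec, Matrix.one_mulVec, Pi.add_apply,
    Pi.smul_apply, smul_eq_mul]
  rw [Finset.sum_add_distrib, ← Finset.mul_sum, ← Finset.mul_sum]
  have := (mapMat_colStoch (E i : Pat L → Pat L)).sum_mulVec v
  unfold EM
  rw [this]; ring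

end Pool.Agent.H12.QKZ

end

section

/-!
# Normalisation by the base component
-/

namespace Pool.Agent.H12.QKZ

open H56.EX Matrix

variable {L : ℕ}

theorem qc_q : qc = q := by
  rw [qc_cos_sin]
  apply Complex.ext
  · simp [q]
  · simp [q]

/-- Admissible angles. -/
def Oset (L : ℕ) (θ : ℤ → ℝ) : Prop := ∃ m, Adm L θ m

theorem Oset.per {θ : ℤ → ℝ} (h : Oset L θ) (x : ℤ) : θ (x + L) = θ x := by
  obtain ⟨m, hm⟩ := h; exact hm.per x

theorem Oset.rot {θ : ℤ → ℝ} (h : Oset L θ) : Oset L (fun x => θ (x - 1)) := by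
  obtain ⟨m, hm⟩ := h; exact ⟨_, hm.rot⟩

theorem Oset.rot' {θ : ℤ → ℝ} (h : Oset L θ) : Oset L (fun x => θ (x + 1)) := by
  obtain ⟨m, hm⟩ := h
  refine ⟨m - 1, ?_⟩
  exact {
    per := fun x => by
      show θ (x + L + 1) = θ (x + 1)
      rw [show x + (L : ℤ) + 1 = x + 1 + L by ring, hm.per]
    pos := fun x => hm.pos _
    lt := fun x => hm.lt _
    inj := fun x y hxy => hm.inj _ _ fun hc => hxy (by
      have := Cg.sub 1 hc
      simpa using this)
    max := fun x hx => by
      show θ (x + 1) < θ (m - 1 + 1)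
      rw [sub_add_cancel]
      apply hm.max
      intro hc
      apply hx
      have := Cg.sub 1 hc
      simpa using this }

theorem Oset.zne {θ : ℤ → ℝ} (hL : 2 ≤ L) (h : Oset L θ) (i : ℤ) :
    zc (θ i) ≠ zc (θ (i + 1)) := by
  obtain ⟨m, hm⟩ := h
  intro hz
  exact hm.inj i (i + 1) (not_Cg_succ hL i)
    (zc_injOn (hm.pos _) (hm.lt _) (hm.pos _) (hm.lt _) hz)

/-! ### Base patterns -/

/-! ### Closure under rotations -/

theorem Oset.shift {θ : ℤ → ℝ} (hθ : Oset L θ) (k : ℕ) : Oset L (fun x => θ (x + k)) := by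
  induction k with
  | zero => simpa using hθ
  | succ k ih =>
    have := ih.rot'
    have e : (fun x : ℤ => θ (x + 1 + k)) = fun x : ℤ => θ (x + ((k + 1 : ℕ) : ℤ)) := by
      funext x; congr 1; push_cast; ring
    rw [← e]; exact this

/-! ### The base component does not vanish -/

end Pool.Agent.H12.QKZ

end

section

/-!
# The renormalised vector and its polynomiality
-/

namespace Pool.Agent.H12.QKZ

open H56.EX Matrix MvPolynomial

variable {L : ℕ}

/-- Cyclic shift of `Fin L`. -/
def cyc (L : ℕ) (k : ℕ) (i : Fin L) : Fin L :=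
  ⟨(i + k) % L, Nat.mod_lt _ (Nat.pos_of_ne_zero (by rintro rfl; exact i.elim0))⟩

theorem cyc_injective (L k : ℕ) : Function.Injective (cyc L k) := by
  intro a b h
  have h1 := congrArg Fin.val h
  simp only [cyc] at h1
  have h2 : (a : ℕ) ≡ b [MOD L] := Nat.ModEq.add_right_cancel' k h1
  exact Fin.ext (Nat.ModEq.eq_of_lt_of_lt h2 a.isLt b.isLt)

/-- Cyclic shift as a permutation. -/
noncomputable def cycE (L k : ℕ) : Equiv.Perm (Fin L) :=
  Equiv.ofBijective (cyc L k) ((Fintype.bijective_iff_injective_and_card _).2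
    ⟨cyc_injective L k, rfl⟩)

theorem eval_cyc {α : Type*} {f : ℤ → α} (hf : ∀ x, f (x + L) = f x) (k : ℕ) (i : Fin L) :
    f ((cycE L k i : Fin L) : ℕ) = f ((i : ℕ) + k) := by
  apply per_dvd_fun hf
  show Cg L (((i + k) % L : ℕ) : ℤ) ((i : ℕ) + k)
  unfold Cg
  push_cast
  rw [show ((i : ℤ) + k) % L - (i + k) = -((i + k) - (i + k) % L) by ring, dvd_neg]
  exact Int.dvd_self_sub_emod

end Pool.Agent.H12.QKZ

end

section

/-!
# The polynomial qKZ solution
-/

namespace Pool.Agent.H12.QKZ

open H56.EX Matrix MvPolynomial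

variable {L : ℕ}

end Pool.Agent.H12.QKZ

end

section

/-! The base case of the leg formula: `F22` with no glued strand. -/

namespace H56.EX

open scoped BigOperators Classical


end H56.EX

end

section

/-!
# The explicit sum in the form of the leg functions, for any number of legs

`SGen k M u v c z` is the sum over `ε ∈ {q, q²}^M`; `SM M = SGen 4 M q (q²)`.
Recursions, symmetry in `c` and `z`, degree in each `c l`.
-/

set_option autoImplicit false

namespace Pool.Agent.H96.EX

open Finset H56.EX

lemma lg_ofFn {k : ℕ} (c : Fin k → ℂ) (x : ℂ) : lg (List.ofFn c) x = ∏ l, (c l - x) := by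
  unfold lg
  rw [List.map_ofFn, List.prod_ofFn]
  rfl

/-- reindexing -/
lemma SG_map {K ι ι' : Type*} [Field K] [DecidableEq ι] [DecidableEq ι'] (e : ι ↪ ι')
    (q u v : K) (s : Finset ι) (c : List K) (z : ι' → K) :
    SG q u v (s.map e) c z = SG q u v s c (fun i => z (e i)) := by
  unfold SG
  symm
  apply Finset.sum_bij (fun A _ => A.map e)
  · intro A hA
    rw [mem_powerset] at hA ⊢
    exact Finset.map_subset_map.2 hA
  · intro A _ B _ h
    exact Finset.map_injective e h
  · intro B hB
    rw [mem_powerset] at hB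
    refine ⟨s.filter (fun i => e i ∈ B), by simp, ?_⟩
    ext x
    rw [mem_map]
    constructor
    · rintro ⟨a, ha, rfl⟩
      exact (mem_filter.1 ha).2
    · intro hx
      obtain ⟨a, ha, rfl⟩ := mem_map.1 (hB hx)
      exact ⟨a, mem_filter.2 ⟨ha, hx⟩, rfl⟩
  · intro A _
    rw [← Finset.map_sdiff, Finset.prod_map, Finset.prod_map, Finset.prod_map]
    congr 1
    apply Finset.prod_congr rfl
    intro j _
    rw [Finset.prod_map]

end Pool.Agent.H96.EX

end

section

/-!
# The polynomial `S` extending the explicit sum `SGen` to all values of the parameters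

* `SPoly k M u v : MvPolynomial (Fin k ⊕ Fin M) ℂ`, `S k M u v c z` = its value;
* `S_eq_SGen` : `S = SGen` for pairwise distinct `z`;
* `S_continuous`, `S_symm_c`, `S_symm_z`, `S_poly` (degree `≤ M` in each leg), `S_rec1`, `S_rec2`
  (recursions, for ALL values), `S_zero`.
-/

set_option autoImplicit false

namespace Pool.Agent.H96.EX

open Finset H56.EX

/-! ### Vandermonde product -/

/-! ### numerators -/

/-! ### continuity along a line -/

/-! ### divisibility -/

section dvd

open MvPolynomial

variable {σ : Type*} [DecidableEq σ]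

end dvd

/-! ### degree in a leg parameter -/

end Pool.Agent.H96.EX

end

section

/-!
# Interface for `H56.EX.SM`

`SM_S` : `SM M c z = S 4 M q (q²) c z` for pairwise distinct `z`;
`SM_zero`, `SM_symm_c`, `SM_symm_z`, `SM_poly`, `SM_rec1`, `SM_rec2`, `SM_unique`.
For all values of the parameters (also coinciding strands) use `S 4 M q (q²)` of `SMb.lean`.
-/

set_option autoImplicit false

namespace Pool.Agent.H96.EX

open Finset H56.EX

end Pool.Agent.H96.EX

end

section

/-!
# Bridge: `S` and the sum `SG` over `range M` with a list of legs (helper56's `TM`)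
-/

set_option autoImplicit false

namespace Pool.Agent.H96.EX

open Finset H56.EX

end Pool.Agent.H96.EX

end

section

/-!
# LINK module `Diag`: four arms at a diagonal pair of vertices and four arms of an edge

`x = (0, 0)`, `y = (1, -1)`, `z = (1, 0)`, `w = (0, -1)`: the corners of the face `q = (0, -1)`;
`e = (0, 0, false)` joins `x, z`; `g = (1, -1, true)` joins `y, z`; `f = (0, -1, true)` joins `w, x`.
Clusters `C(v)` are taken in `ball 0 k` (all four points are in it for `k ≥ 1`).

`fourD_le_a4`.  Let `ω ∈ FourD k`.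
* `z ∈ C(y)`: `e` is closed, `ω ∈ A4 e k`.
* `z ∈ C(x)`: `g` is closed; restricted to `ball (1, -1) (k - 1) ⊆ ball 0 k` this is `A4 g (k - 1)` (`src g = y`; the
  path from `z` goes through `x` to the sphere; cut it at `sphere y (k-1)`).
* otherwise: `Function.update ω g true ∈ A4 e k` (now `z ∈ C(y)`, `x` is not joined to it).
  `Pr p {ω | update ω g true ∈ A} ≤ Pr p A / p` (independence of the edge `g`).
Then `Pr_A4` and `a4_anti`.

`a4_le_fourD`.  Let `ω ∈ A4 e k`, `ω₀ = close e ω` (the clusters are now those of `ω₀`).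
* `y ∈ C(z)`: `ω₀ ∈ FourD k`.
* `y ∉ C(z)`, `y ∉ C(x)`: `update ω₀ g true ∈ FourD k`.
* `y ∈ C(x)`, `w ∈ C(x)`: the reflection `(a, b) ↦ (1 - a, b)` of `ω₀` is in `FourD (k - 1)`
  (`z ↦ x`, `w ↦ y`; `ball (1, 0) (k - 1) ⊆ ball 0 k`).
* `y ∈ C(x)`, `w ∉ C(x)`, `w ∉ C(z)`: the same for `update ω₀ f true`.
* `y ∈ C(x)`, `w ∈ C(z)`: impossible (planarity).  Let `c` be a path sum (`exists_pathSum` of `Link/Potential.lean`) of an
  open path from `x` to `y` in `ball 0 k`, `A = c + 1_e + 1_g` (all degrees even, finite support), `G = pot A H`,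
  `G (lowFace e') + G (src e') = A e'` (`pot_even`).  `A` has no edge at any vertex of `C(z)` except `z` (its edges join
  vertices of `C(x)`, or are `e`, `g`).  So around every vertex `v ∈ C(z)`, `v ≠ z`, the four faces have the same colour
  `G`, and neighbours in `C(z) \ {z}` share a face, so this colour is constant along an open path from `w` to the last
  vertex `v` before `z`; around `w` it is `G q` (`q = (0, -1)` is a face at `w`).  `v ∈ {(2, 0), (1, 1)}` (`v ≠ x, y`), and the
  face `(1, 0)` contains both; so `G (1, 0) = G q`.  But from `q` to the face `(0, 0)` one crosses `e` (`A e = 1`,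
  because `c e = 0`), and from `(0, 0)` to `(1, 0)` one crosses `(1, 0, true)` (`A = 0`, it joins `z` and `(1, 1)`, not
  in `C(x)`; if it is closed also `c = 0`).  So `G (1, 0) = G q + 1`, contradiction.
  (Take the path from `w` to `z` with `z` only at the end: `Conn` in `ball 0 k \ {z}` to a neighbour of `z`.)
-/

set_option autoImplicit false

open MeasureTheory ProbabilityTheory unitInterval

namespace Pool.Agent.H89.Link

open Pool.Agent.H89.Perc (Vert Edge Config Pr half)
open Pool.Agent.H61.NC (a4)
open Pool.Agent.H89.Perc (src tgt lowFace ball sphere)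

/-! ### Clusters -/

/-! ### Probabilities -/

/-! ### The first inequality -/

/-! ### The second inequality -/

end Pool.Agent.H89.Link

end
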