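import Pool.Agent.H94.BG.H31.PT.M03_2
import Pool.Agent.H94.BG.H31.PT.M09
import Pool.Agent.H94.BG.H31.PT.M34

/-! The parts of this file: H89.Perc.ArmExt, H85.Gamma.Bounds, H57.LF.Final, H83.EX.SigmaUpper, H83.EX.Scale, H90.NC.ArmDet, H90.NC.ArmExt, H90.NC.ArmGlue, H83.EX.WeakRSW, H12.QKZ.Tri, H12.QKZ.Num, H12.QKZ.Lam, H12.QKZ.Exist, H12.QKZ.Main, H56.EX.Base, H96.EX.SMa, H96.EX.SMb, H96.EX.SM, H96.EX.STM, H89.Link.Diag. -/

section

/-!
# Regularity of the one-arm probability
-/

open MeasureTheory ProbabilityTheory unitInterval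

namespace Pool.Agent.H89.Perc

lemma armExt_box_zero (R : ℕ) : ArmBox 0 0 R ⊆ Arm 0 R := by
  rintro ω ⟨w, hw, u, hu, hc⟩
  have hw0 : w = 0 := by
    have h0 : ((0 : Vert).1) = 0 := rfl
    have h1 : ((0 : Vert).2) = 0 := rfl
    simp only [mem_ball, h0, h1] at hw
    ext
    · rw [h0]; omega
    · rw [h1]; omega
  subst hw0
  exact ⟨u, hu, hc⟩

end Pool.Agent.H89.Perc

end

section

/-!
# Bounds for the arms of an edge and for the derivative of the one-arm probability
-/

open MeasureTheory ProbabilityTheory unitInterval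

namespace Pool.Agent.H85.Gamma

open Pool.Agent.H89.Perc

/-- Supremum norm. -/
def nrm (u : Vert) : ℕ := max u.1.natAbs u.2.natAbs

/-- A connection between `0` and `u` forces two arms in disjoint boxes. -/
theorem Pr_conn_le (p : I) (S : Set Vert) (u : Vert) (s : ℕ) (h : 2 * s < nrm u) :
    Pr p {ω | Conn ω S 0 u} ≤ arm p s ^ 2 := by
  classical
  have hsub : {ω : Config | Conn ω S 0 u} ⊆ Arm 0 s ∩ Arm u s := by
    intro ω hc
    have hc' : Conn ω S 0 u := hc
    unfold nrm at h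
    refine ⟨hc'.mem_arm ?_, hc'.symm.mem_arm ?_⟩
    · simp only [Prod.fst_zero, Prod.snd_zero, sub_zero, ← Int.natCast_natAbs]
      omega
    · simp only [Prod.fst_zero, Prod.snd_zero, zero_sub, abs_neg, ← Int.natCast_natAbs]
      omega
  have hdis : Disjoint (eRect ((0 : Vert).1 - s) ((0 : Vert).1 + s) ((0 : Vert).2 - s)
      ((0 : Vert).2 + s)) (eRect (u.1 - s) (u.1 + s) (u.2 - s) (u.2 + s)) := by
    rw [Finset.disjoint_left]
    intro e h1 h2
    rw [mem_eRect] at h1 h2
    simp only [rect, Set.mem_ofPred_eq, Prod.fst_zero, Prod.snd_zero] at h1 h2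
    unfold nrm at h
    omega
  calc Pr p {ω | Conn ω S 0 u} ≤ Pr p (Arm 0 s ∩ Arm u s) := Pr_mono hsub
    _ = Pr p (Arm 0 s) * Pr p (Arm u s) :=
        Pr_inter_of_disjoint (localOn_arm 0 s) (localOn_arm u s) hdis
    _ = arm p s ^ 2 := by rw [Pr_arm u s, Pr_arm 0 s]; ring

theorem Pr_conn_le' (p : I) (S : Set Vert) (u : Vert) (s : ℕ) (h : 2 * s < nrm u ∨ s = 0) :
    Pr p {ω | Conn ω S 0 u} ≤ arm p s ^ 2 := by
  rcases h with h | h
  · exact Pr_conn_le p S u s h
  · subst h
    rw [arm_zero, one_pow]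
    exact Pr_le_one

end Pool.Agent.H85.Gamma

end

section

/-!
# The lower bound `θ(p) ≥ c √(p - 1/2)`
-/

open MeasureTheory ProbabilityTheory unitInterval Filter Topology

namespace Pool.Agent.H57.LF

open Pool.Agent.H89.Perc

end Pool.Agent.H57.LF

end

section

/-! # Upper bound for the mean cluster size -/

open MeasureTheory ProbabilityTheory unitInterval
open scoped ENNReal

namespace Pool.Agent.H83.EX

open Pool.Agent.H89.Perc

lemma su_conn_ball {ω : Config} {v : Vert} (h : Conn ω Set.univ 0 v) :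
    ∃ R : ℕ, Conn ω (ball 0 R) 0 v := by
  refine h.induction_right (P := fun v => ∃ R : ℕ, Conn ω (ball 0 R) 0 v)
    ⟨0, Conn.refl self_mem_ball⟩ ?_
  rintro a b - hab ⟨R, hR⟩
  have h1 : Conn ω (ball 0 (R + 1)) 0 a := hR.mono_set (ball_subset_ball (Nat.le_succ R))
  have ha : a ∈ ball 0 R := hR.mem_right
  have h2 := hab.fst_le
  have h3 := hab.snd_le
  have hb : b ∈ ball 0 (R + 1) := by
    simp only [mem_ball, Prod.fst_zero, Prod.snd_zero] at ha ⊢
    push_cast
    omega
  exact ⟨R + 1, h1.tail ⟨h1.mem_right, hb, hab.2.2⟩⟩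

/-- Far points: three events on disjoint sets of edges. -/
lemma su_far {q : I} {m L : ℕ} (hm : 1 ≤ m) (hL : m ≤ L) {v : Vert}
    (hv : v ∉ ball 0 (8 * L)) :
    Pr q {ω | Conn ω Set.univ 0 v} ≤ arm q (m - 1) ^ 2 * Pr q (ArmBox 0 L (7 * L)) := by
  classical
  set s := m - 1 with hs
  have hL1 : L - 1 + 1 = L := by omega
  have hv' : v ∉ ball 0 (8 * L) := hv
  simp only [mem_ball, Prod.fst_zero, Prod.snd_zero] at hv'
  push_cast at hv'
  have hsub : {ω : Config | Conn ω Set.univ 0 v} ⊆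
      (Arm 0 s ∩ Ann (L - 1) (7 * L)) ∩ Arm v s := by
    intro ω hω
    have hc : Conn ω Set.univ 0 v := hω
    refine ⟨⟨hc.mem_arm ?_, ?_⟩, hc.symm.mem_arm ?_⟩
    · simp only [Prod.fst_zero, Prod.snd_zero, sub_zero]
      rcases abs_cases v.1 with h3 | h3 <;> rcases abs_cases v.2 with h4 | h4 <;> omega
    · refine arm_subset_ann (R := 7 * L) (by omega) le_rfl (hc.mem_arm ?_)
      simp only [Prod.fst_zero, Prod.snd_zero, sub_zero]
      push_cast
      rcases abs_cases v.1 with h3 | h3 <;> rcases abs_cases v.2 with h4 | h4 <;> omega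
    · simp only [Prod.fst_zero, Prod.snd_zero, zero_sub, abs_neg]
      rcases abs_cases v.1 with h3 | h3 <;> rcases abs_cases v.2 with h4 | h4 <;> omega
  have hl1 : LocalOn (eBall (L - 1)) (Arm 0 s) := by
    intro ω ω' h hω
    obtain ⟨u, hu, hc⟩ := hω
    refine ⟨u, hu, Conn.congr (fun e he _ => h e ?_) hc⟩
    rw [mem_eBall]
    exact ball_subset_ball (by omega) he
  have hl2 : LocalOn (eBall (7 * L) \ eBall (L - 1)) (Ann (L - 1) (7 * L)) := localOn_ann _ _
  have hl12 : LocalOn (eBall (7 * L)) (Arm 0 s ∩ Ann (L - 1) (7 * L)) :=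
    (hl1.mono (eBall_subset (by omega))).inter (hl2.mono Finset.sdiff_subset)
  have hdis : Disjoint (eBall (7 * L)) (eRect (v.1 - s) (v.1 + s) (v.2 - s) (v.2 + s)) := by
    rw [Finset.disjoint_left]
    intro e h1 h2
    rw [mem_eBall] at h1
    rw [mem_eRect] at h2
    simp only [mem_ball, rect, Set.mem_ofPred_eq, Prod.fst_zero, Prod.snd_zero] at h1 h2
    push_cast at h1
    omega
  have h3 : Pr q (Ann (L - 1) (7 * L)) ≤ Pr q (ArmBox 0 L (7 * L)) := by
    refine Pr_mono ?_
    have := ann_subset_armBox (L - 1) (7 * L)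
    rwa [hL1] at this
  calc Pr q {ω | Conn ω Set.univ 0 v}
      ≤ Pr q ((Arm 0 s ∩ Ann (L - 1) (7 * L)) ∩ Arm v s) := Pr_mono hsub
    _ = Pr q (Arm 0 s ∩ Ann (L - 1) (7 * L)) * Pr q (Arm v s) :=
        Pr_inter_of_disjoint hl12 (localOn_arm v s) hdis
    _ = Pr q (Arm 0 s) * Pr q (Ann (L - 1) (7 * L)) * Pr q (Arm v s) := by
        rw [Pr_inter_of_disjoint hl1 hl2 Finset.disjoint_sdiff]
    _ = arm q s ^ 2 * Pr q (Ann (L - 1) (7 * L)) := by
        rw [Pr_arm v s, Pr_arm 0 s]; ring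
    _ ≤ arm q s ^ 2 * Pr q (ArmBox 0 L (7 * L)) := by gcongr

end Pool.Agent.H83.EX

end

section

/-! # Good scales: percolation probability and mean cluster size -/

open MeasureTheory ProbabilityTheory unitInterval
open scoped ENNReal

namespace Pool.Agent.H83.EX

open Pool.Agent.H89.Perc

end Pool.Agent.H83.EX

end

section

/-!
# A pivotal edge for the event `W0`
-/

open MeasureTheory ProbabilityTheory unitInterval

namespace Pool.Agent.H61.NC

open Pool.Agent.H89.Perc

lemma armDet_per_shift {N : ℕ} (η : Config) (a b : ℤ) {u v : Vert}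
    (h : Conn (per N η) Set.univ u v) :
    Conn (per N η) Set.univ (u.1 + a * N, u.2 + b * N) (v.1 + a * N, v.2 + b * N) := by
  have h1 := conn_shift (ω := per N η) (a * N, b * N) Set.univ u v
  have h2 : (fun e => per N η (shiftE (a * N, b * N) e)) = per N η := by
    funext e
    simp only [per, shiftE]
    rw [Int.add_mul_emod_self_right, Int.add_mul_emod_self_right]
  rw [h2] at h1
  exact (h1.1 h).mono_set (Set.subset_univ _)

/-- Contraction of the translates of a small cluster. -/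
lemma armDet_core {N r : ℕ} (hN : 2 * r + 2 ≤ N) (x p q : Vert)
    (η0 η1 : Config)
    (hper : ∀ (a b : ℤ) (u v : Vert), Conn η0 Set.univ u v →
      Conn η0 Set.univ (u.1 + a * N, u.2 + b * N) (v.1 + a * N, v.2 + b * N))
    (hstep : ∀ v v' : Vert, Step η1 Set.univ v v' → Step η0 Set.univ v v' ∨ ∃ a b : ℤ,
      (v = (p.1 + a * N, p.2 + b * N) ∧ v' = (q.1 + a * N, q.2 + b * N)) ∨
      (v = (q.1 + a * N, q.2 + b * N) ∧ v' = (p.1 + a * N, p.2 + b * N)))
    (hq : |q.1 - x.1| ≤ 1 ∧ |q.2 - x.2| ≤ 1) (hpq : ¬ Conn η0 Set.univ p q)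
    (hC : ∀ v : Vert, Conn η0 Set.univ p v → |v.1 - x.1| ≤ r ∧ |v.2 - x.2| ≤ r)
    (u : Vert) (hu : ∀ a b : ℤ, ¬ Conn η0 Set.univ p (u.1 - a * N, u.2 - b * N))
    (a b : ℤ) (h : Conn η1 Set.univ u (u.1 + a * N, u.2 + b * N)) :
    Conn η0 Set.univ u (u.1 + a * N, u.2 + b * N) := by
  classical
  have hN' : (2 * r + 2 : ℤ) ≤ N := by exact_mod_cast hN
  -- membership in the translate of the cluster
  obtain ⟨Cl, hCl⟩ : ∃ Cl : ℤ → ℤ → Vert → Prop, ∀ a b v, Cl a b v ↔
      Conn η0 Set.univ p (v.1 - a * N, v.2 - b * N) := ⟨_, fun _ _ _ => Iff.rfl⟩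
  have hmul : ∀ c : ℤ, |c * N| < N → c = 0 := by
    intro c hc
    by_contra h0
    have h1 : 1 ≤ |c| := Int.one_le_abs h0
    rw [abs_mul, abs_of_nonneg (by omega : (0 : ℤ) ≤ N)] at hc
    nlinarith only [hc, h1]
  have huniq : ∀ a b a' b' v, Cl a b v → Cl a' b' v → a = a' ∧ b = b' := by
    intro a b a' b' v h1 h2
    have h3 := hC _ ((hCl _ _ _).1 h1)
    have h4 := hC _ ((hCl _ _ _).1 h2)
    simp only at h3 h4
    have h5 : a - a' = 0 := by
      apply hmul
      have e1 : (a - a') * N = (v.1 - a' * N - x.1) - (v.1 - a * N - x.1) := by ring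
      rw [e1]
      have := abs_sub (v.1 - a' * N - x.1) (v.1 - a * N - x.1)
      omega
    have h6 : b - b' = 0 := by
      apply hmul
      have e1 : (b - b') * N = (v.2 - b' * N - x.2) - (v.2 - b * N - x.2) := by ring
      rw [e1]
      have := abs_sub (v.2 - b' * N - x.2) (v.2 - b * N - x.2)
      omega
    exact ⟨by omega, by omega⟩
  have hshift : ∀ a b c d v, Cl a b v → Cl (a + c) (b + d) (v.1 + c * N, v.2 + d * N) := by
    intro a b c d v h1
    rw [hCl] at h1 ⊢
    have e1 : ((v.1 + c * N - (a + c) * N, v.2 + d * N - (b + d) * N) : Vert) =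
        (v.1 - a * N, v.2 - b * N) := by
      ext <;> (simp only; ring)
    simp only at e1 ⊢
    rw [e1]
    exact h1
  have hqC : ∀ a b c d, ¬ Cl a b (q.1 + c * N, q.2 + d * N) := by
    intro a b c d h1
    rw [hCl] at h1
    have h3 := hC _ h1
    simp only at h3
    have h5 : c - a = 0 := by
      apply hmul
      have e1 : (c - a) * N = (q.1 + c * N - a * N - x.1) - (q.1 - x.1) := by ring
      rw [e1]
      have := abs_sub (q.1 + c * N - a * N - x.1) (q.1 - x.1)
      omega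
    have h6 : d - b = 0 := by
      apply hmul
      have e1 : (d - b) * N = (q.2 + d * N - b * N - x.2) - (q.2 - x.2) := by ring
      rw [e1]
      have := abs_sub (q.2 + d * N - b * N - x.2) (q.2 - x.2)
      omega
    have h7 : c = a := by omega
    have h8 : d = b := by omega
    subst h7 h8
    apply hpq
    have e1 : ((q.1 + c * N - c * N, q.2 + d * N - d * N) : Vert) = q := by
      ext <;> (simp only; ring)
    simp only at h1
    rw [e1] at h1
    exact h1
  have hpC : ∀ c d, Cl c d (p.1 + c * N, p.2 + d * N) := by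
    intro c d
    rw [hCl]
    have e1 : ((p.1 + c * N - c * N, p.2 + d * N - d * N) : Vert) = p := by
      ext <;> (simp only; ring)
    simp only
    rw [e1]
    exact Conn.refl (Set.mem_univ _)
  -- closure under steps
  have hclose : ∀ a b v v', Step η0 Set.univ v v' → Cl a b v → Cl a b v' := by
    intro a b v v' h1 h2
    rw [hCl] at h2 ⊢
    have h3 := hper (-a) (-b) v v' h1.conn
    have e1 : ∀ w : Vert, ((w.1 + -a * N, w.2 + -b * N) : Vert) = (w.1 - a * N, w.2 - b * N) := by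
      intro w
      ext <;> (simp only; ring)
    rw [e1, e1] at h3
    exact h2.trans h3
  obtain ⟨g, hg⟩ : ∃ g : Vert → Vert, g = fun v => if h : ∃ c : ℤ × ℤ, Cl c.1 c.2 v then
      (q.1 + h.choose.1 * N, q.2 + h.choose.2 * N) else v := ⟨_, rfl⟩
  have hg1 : ∀ a b v, Cl a b v → g v = (q.1 + a * N, q.2 + b * N) := by
    intro a b v h1
    have h2 : ∃ c : ℤ × ℤ, Cl c.1 c.2 v := ⟨(a, b), h1⟩
    rw [hg]
    simp only
    rw [dif_pos h2]
    obtain ⟨h3, h4⟩ := huniq _ _ _ _ v h2.choose_spec h1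
    rw [h3, h4]
  have hg2 : ∀ v, (∀ a b, ¬ Cl a b v) → g v = v := by
    intro v h1
    have h2 : ¬ ∃ c : ℤ × ℤ, Cl c.1 c.2 v := by
      rintro ⟨c, hc⟩
      exact h1 _ _ hc
    rw [hg]
    simp only
    rw [dif_neg h2]
  have hg3 : ∀ v c d, g (v.1 + c * N, v.2 + d * N) = ((g v).1 + c * N, (g v).2 + d * N) := by
    intro v c d
    by_cases h1 : ∃ c : ℤ × ℤ, Cl c.1 c.2 v
    · obtain ⟨k, hk⟩ := h1
      rw [hg1 _ _ v hk, hg1 _ _ _ (hshift k.1 k.2 c d v hk)]
      ext <;> (simp only; ring)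
    · have h2 : ∀ a b, ¬ Cl a b v := fun a b h => h1 ⟨(a, b), h⟩
      rw [hg2 v h2, hg2]
      intro a b h3
      have h4 := hshift a b (-c) (-d) _ h3
      have e1 : (((v.1 + c * N) + -c * N, (v.2 + d * N) + -d * N) : Vert) = v := by
        ext <;> (simp only; ring)
      simp only at h4
      rw [e1] at h4
      exact h2 _ _ h4
  have hgu : g u = u := hg2 u fun a b hcl => hu a b ((hCl _ _ _).1 hcl)
  suffices hsuf : Conn η0 Set.univ (g u) (g (u.1 + a * N, u.2 + b * N)) by
    rw [hg3, hgu] at hsuf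
    exact hsuf
  refine h.induction_right (P := fun v => Conn η0 Set.univ (g u) (g v))
    (Conn.refl (Set.mem_univ _)) ?_
  intro v v' _ hvv hv
  rcases hstep v v' hvv with h1 | ⟨c, d, h1 | h1⟩
  · by_cases h2 : ∃ c : ℤ × ℤ, Cl c.1 c.2 v
    · obtain ⟨k, hk⟩ := h2
      rw [hg1 _ _ v hk] at hv
      rw [hg1 _ _ v' (hclose _ _ _ _ h1 hk)]
      exact hv
    · have h3 : ∀ a b, ¬ Cl a b v := fun a b h => h2 ⟨(a, b), h⟩
      have h4 : ∀ a b, ¬ Cl a b v' := fun a b h => h3 a b (hclose _ _ _ _ h1.symm h)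
      rw [hg2 v h3] at hv
      rw [hg2 v' h4]
      exact hv.tail h1
  · obtain ⟨h2, h3⟩ := h1
    rw [h2, hg1 _ _ _ (hpC c d)] at hv
    rw [h3, hg2 _ fun a b => hqC a b c d]
    exact hv
  · obtain ⟨h2, h3⟩ := h1
    rw [h2, hg2 _ fun a b => hqC a b c d] at hv
    rw [h3, hg1 _ _ _ (hpC c d)]
    exact hv

/-- The influence of an edge is bounded by the probability of any event which contains the
pivotality of the edge. -/
theorem pivot_le_of {q : I} {s : Finset Edge} {A E : Set Config} (hA : LocalOn s A) (iA : Incr A)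
    (e : Edge) (h : ∀ ω, Function.update ω e true ∈ A → Function.update ω e false ∉ A → ω ∈ E) :
    pivot q A e ≤ Pr q E := by
  have l1 : MeasurableSet {ω : Config | Function.update ω e false ∈ A} :=
    (hA.update e false).measurableSet
  have hsub : {ω : Config | Function.update ω e false ∈ A} ⊆
      {ω : Config | Function.update ω e true ∈ A} := by
    intro ω hω
    refine iA _ _ (fun x hx => ?_) hω
    by_cases hxe : x = e
    · subst hxe; simp
    · rw [Function.update_of_ne hxe] at hx ⊢; exact hx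
  have e1 : Pr q ({ω : Config | Function.update ω e true ∈ A} \
      {ω : Config | Function.update ω e false ∈ A}) = pivot q A e :=
    measureReal_sdiff hsub l1
  rw [← e1]
  exact Pr_mono fun ω hω => h ω hω.1 hω.2

lemma armDet_localArm (N r : ℕ) :
    LocalOn ((eRect ((m0 N).1 - r) ((m0 N).1 + r) ((m0 N).2 - r) ((m0 N).2 + r)).image (modE N))
      (ArmT N r) := by
  intro ω ω' h hω
  refine localOn_arm (m0 N) r _ _ (fun e he => ?_) hω
  exact h _ (Finset.mem_image_of_mem (modE N) he)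

/-- Finite energy bound for the influence. -/
theorem pivot_W0_small {q : I} {N : ℕ} (hN : 1 ≤ N) (h1 : 1 / 4 ≤ (q : ℝ)) (f : Edge) :
    pivot q (W0 N) f ≤ 4 * Pr q (W0 N) := by
  have h2 := Pr_eq_update (p := q) (localOn_W0 hN) f
  have h3 : 0 ≤ Pr q {ω | Function.update ω f true ∈ W0 N} := Pr_nonneg
  have h4 : 0 ≤ Pr q {ω | Function.update ω f false ∈ W0 N} := Pr_nonneg
  have h5 : 0 ≤ 1 - (q : ℝ) := by linarith only [q.2.2]
  unfold pivot
  nlinarith only [h2, h4, h5, h1, h3, mul_nonneg h5 h4, mul_nonneg (sub_nonneg.2 h1) h3]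

end Pool.Agent.H61.NC

end

section

/-!
# Extension of one-arm events in the box-crossing regime
-/

open MeasureTheory ProbabilityTheory unitInterval

namespace Pool.Agent.H61.NC

open Pool.Agent.H89.Perc Pool.Agent.H85.Strict

variable {q : I}

/-! ### Finite energy -/

/-- The first `n` edges of the positive axis are open. -/
def lineE (n : ℕ) : Set Config := {ω | ∀ i : ℕ, i < n → ω ((i : ℤ), 0, false) = true}

theorem incr_lineE (n : ℕ) : Incr (lineE n) := fun _ _ h hω i hi => h _ (hω i hi)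

theorem localOn_lineE (n : ℕ) : LocalOn (eRect 0 n 0 0) (lineE n) := by
  intro ω ω' h hω i hi
  rw [← h _ (mem_eRect.2 ?_)]
  · exact hω i hi
  · simp only [src, rect, Set.mem_ofPred_eq]
    omega

theorem Pr_open_ge (e : Edge) : (q : ℝ) ≤ Pr q {ω | ω e = true} := by
  classical
  have hloc : LocalOn {e} {ω : Config | ω e = true} := by
    intro ω ω' h hA
    have : ω e = ω' e := h e (by simp)
    simp only [Set.mem_ofPred_eq] at hA ⊢
    rw [← this]
    exact hA
  rw [Pr_eq_update hloc e]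
  have h1 : {ω : Config | Function.update ω e true ∈ {ω : Config | ω e = true}} = Set.univ := by
    ext ω
    simp
  rw [h1, Pr_univ]
  have h3 : 0 ≤ Pr q {ω : Config | Function.update ω e false ∈ {ω : Config | ω e = true}} :=
    Pr_nonneg
  have h4 : 0 ≤ 1 - (q : ℝ) := by linarith [q.2.2]
  nlinarith only [h4, h3, mul_nonneg h4 h3]

theorem Pr_lineE (n : ℕ) : (q : ℝ) ^ n ≤ Pr q (lineE n) := by
  classical
  induction n with
  | zero =>
    have : lineE 0 = Set.univ := by
      ext ω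
      simp [lineE]
    rw [this, Pr_univ, pow_zero]
  | succ n ih =>
    have hloc : LocalOn {((n : ℤ), 0, false)} {ω : Config | ω ((n : ℤ), 0, false) = true} := by
      intro ω ω' h hA
      have : ω ((n : ℤ), 0, false) = ω' ((n : ℤ), 0, false) := h _ (by simp)
      simp only [Set.mem_ofPred_eq] at hA ⊢
      rw [← this]
      exact hA
    have h1 := fkg_step (localOn_lineE n) hloc (incr_lineE n)
      (fun ω ω' h hω => h _ hω) q.2.1 ih (Pr_open_ge _)
    rw [pow_succ]
    refine h1.trans (Pr_mono ?_)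
    rintro ω ⟨h2, h3⟩ i hi
    rcases Nat.lt_succ_iff_lt_or_eq.1 hi with h4 | h4
    · exact h2 i h4
    · subst h4
      exact h3

theorem lineE_arm (n : ℕ) : lineE n ⊆ Arm 0 n := by
  intro ω hω
  have key : ∀ j : ℕ, j ≤ n → Conn ω Set.univ 0 ((j : ℤ), 0) := by
    intro j
    induction j with
    | zero => exact fun _ => Conn.refl (Set.mem_univ _)
    | succ j ih =>
      intro hj
      refine (ih (by omega)).tail ⟨Set.mem_univ _, Set.mem_univ _, ((j : ℤ), 0, false), ?_,
        hω j (by omega)⟩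
      left
      simp [src, tgt]
  refine (key n le_rfl).mem_arm (Or.inl ?_)
  simp

/-- Finite energy bound for the one-arm probability. -/
theorem arm_ge_pow (h : 1 / 4 ≤ (q : ℝ)) {n k : ℕ} (hn : n ≤ k) : (1 / 4 : ℝ) ^ k ≤ arm q n := by
  calc (1 / 4 : ℝ) ^ k ≤ (1 / 4 : ℝ) ^ n :=
        pow_le_pow_of_le_one (by norm_num) (by norm_num) hn
    _ ≤ (q : ℝ) ^ n := pow_le_pow_left₀ (by norm_num) h n
    _ ≤ Pr q (lineE n) := Pr_lineE n
    _ ≤ arm q n := Pr_mono (lineE_arm n)

/-! ### One step of the extension -/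

theorem arm_step_det {ω : Config} {m : ℕ} (h1 : ω ∈ Arm 0 (2 * m)) (h2 : CircE ω 0 m (2 * m))
    (h3 : HCross ω 0 (4 * m) 0 m) : ω ∈ Arm 0 (4 * m) := by
  obtain ⟨k, -, j1, j2, -⟩ := circ_join (by omega) h2
  obtain ⟨u, hu, hc⟩ := h1
  obtain ⟨x, y, hx, hy, hxy⟩ := h3
  have g1 := j1 0 u self_mem_ball (Or.inr hu) (hc.mono_set (Set.subset_univ _))
  have g2 := j2 x y (by simp only [Prod.fst_zero]; omega)
    (by simp only [Prod.fst_zero]; push_cast; omega) (hxy.mono_set (by
      intro w hw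
      simp only [rect, Set.mem_ofPred_eq] at hw
      simp only [Set.mem_ofPred_eq, Prod.snd_zero]
      push_cast
      omega))
  have g3 : Conn ω Set.univ 0 y :=
    (g1.symm.trans g2).trans (hxy.mono_set (Set.subset_univ _))
  refine g3.mem_arm (Or.inl ?_)
  rw [hy]
  simp only [Prod.fst_zero, sub_zero]
  push_cast
  exact le_abs_self _

theorem arm_step {c : ℝ} (hc : 0 ≤ c) {N m : ℕ} (hR : RSWreg c N q) (h1 : 1 ≤ m) (h2 : m ≤ N) :
    arm q (2 * m) * c ^ 5 ≤ arm q (4 * m) := by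
  classical
  have k1 := reg_hcross hR h1 h2 (x := (0 : Vert).1 - (2 * m : ℕ))
    (y := (0 : Vert).1 + (2 * m : ℕ)) (z := (0 : Vert).2 + m) (t := (0 : Vert).2 + (2 * m : ℕ))
    (by omega) (by omega) (by omega)
  have k2 := reg_hcross hR h1 h2 (x := (0 : Vert).1 - (2 * m : ℕ))
    (y := (0 : Vert).1 + (2 * m : ℕ)) (z := (0 : Vert).2 - (2 * m : ℕ)) (t := (0 : Vert).2 - m)
    (by omega) (by omega) (by omega)
  have k3 := reg_vcross hR h1 h2 (x := (0 : Vert).1 + m) (y := (0 : Vert).1 + (2 * m : ℕ))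
    (z := (0 : Vert).2 - (2 * m : ℕ)) (t := (0 : Vert).2 + (2 * m : ℕ))
    (by omega) (by omega) (by omega)
  have k4 := reg_vcross hR h1 h2 (x := (0 : Vert).1 - (2 * m : ℕ)) (y := (0 : Vert).1 - m)
    (z := (0 : Vert).2 - (2 * m : ℕ)) (t := (0 : Vert).2 + (2 * m : ℕ))
    (by omega) (by omega) (by omega)
  have k5 := (hR m h1 h2).1
  have l0 : arm q (2 * m) ≤ Pr q (Arm 0 (2 * m)) := le_rfl
  have l1 := fkg_step (localOn_arm 0 (2 * m)) (localOn_hcross _ _ _ _) (incr_arm _ _)
    (incr_hcross _ _ _ _) hc l0 k1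
  have l2 := fkg_step ((localOn_arm 0 (2 * m)).inter' (localOn_hcross _ _ _ _))
    (localOn_hcross _ _ _ _) ((incr_arm _ _).inter (incr_hcross _ _ _ _))
    (incr_hcross _ _ _ _) hc l1 k2
  have l3 := fkg_step (((localOn_arm 0 (2 * m)).inter' (localOn_hcross _ _ _ _)).inter'
    (localOn_hcross _ _ _ _)) (localOn_vcross _ _ _ _)
    (((incr_arm _ _).inter (incr_hcross _ _ _ _)).inter (incr_hcross _ _ _ _))
    (incr_vcross _ _ _ _) hc l2 k3
  have l4 := fkg_step ((((localOn_arm 0 (2 * m)).inter' (localOn_hcross _ _ _ _)).inter'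
    (localOn_hcross _ _ _ _)).inter' (localOn_vcross _ _ _ _)) (localOn_vcross _ _ _ _)
    ((((incr_arm _ _).inter (incr_hcross _ _ _ _)).inter (incr_hcross _ _ _ _)).inter
      (incr_vcross _ _ _ _)) (incr_vcross _ _ _ _) hc l3 k4
  have l5 := fkg_step (((((localOn_arm 0 (2 * m)).inter' (localOn_hcross _ _ _ _)).inter'
    (localOn_hcross _ _ _ _)).inter' (localOn_vcross _ _ _ _)).inter' (localOn_vcross _ _ _ _))
    (localOn_hcross _ _ _ _)
    (((((incr_arm _ _).inter (incr_hcross _ _ _ _)).inter (incr_hcross _ _ _ _)).inter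
      (incr_vcross _ _ _ _)).inter (incr_vcross _ _ _ _)) (incr_hcross _ _ _ _) hc l4 k5
  have e : arm q (2 * m) * c ^ 5 = arm q (2 * m) * c * c * c * c * c := by ring
  rw [e]
  refine l5.trans (Pr_mono ?_)
  rintro ω ⟨⟨⟨⟨⟨h0, h1⟩, h2⟩, h3⟩, h4⟩, h5⟩
  exact arm_step_det h0 ⟨⟨h1, h2⟩, h3, h4⟩ h5

theorem reg_le_one {c : ℝ} {N : ℕ} (hR : RSWreg c N q) (hN : 1 ≤ N) : c ≤ 1 :=
  (hR 1 le_rfl hN).1.trans Pr_le_one

/-- Iteration of the step. -/
theorem arm_iter {c : ℝ} (hc : 0 < c) {N : ℕ} (hN : 1 ≤ N) (hR : RSWreg c N q) (j : ℕ) :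
    ∀ r R : ℕ, 4 ≤ r → 2 ^ j * R ≤ 3 ^ j * r → R ≤ N → arm q r * c ^ (5 * j) ≤ arm q R := by
  have hc1 := reg_le_one hR hN
  have hpow : ∀ k : ℕ, c ^ k ≤ 1 := fun k => pow_le_one₀ hc.le hc1
  have htriv : ∀ r R k : ℕ, R ≤ r → arm q r * c ^ k ≤ arm q R := by
    intro r R k h
    calc arm q r * c ^ k ≤ arm q r * 1 := mul_le_mul_of_nonneg_left (hpow k) arm_nonneg
      _ = arm q r := mul_one _
      _ ≤ arm q R := arm_antitone h
  induction j with
  | zero =>
    intro r R _ h _
    simp only [pow_zero, one_mul] at h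
    exact htriv r R _ h
  | succ j ih =>
    intro r R hr h hRN
    by_cases hrR : R ≤ r
    · exact htriv r R _ hrR
    push Not at hrR
    have h1 : 2 ^ j * R ≤ 3 ^ j * (4 * (r / 2)) := by
      have h2 : 3 * r ≤ 2 * (4 * (r / 2)) := by omega
      have h3 : 3 ^ j * (3 * r) ≤ 3 ^ j * (2 * (4 * (r / 2))) := Nat.mul_le_mul_left _ h2
      have h4 : 2 * (2 ^ j * R) ≤ 2 * (3 ^ j * (4 * (r / 2))) := by
        calc 2 * (2 ^ j * R) = 2 ^ (j + 1) * R := by ring
          _ ≤ 3 ^ (j + 1) * r := h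
          _ = 3 ^ j * (3 * r) := by ring
          _ ≤ 3 ^ j * (2 * (4 * (r / 2))) := h3
          _ = 2 * (3 ^ j * (4 * (r / 2))) := by ring
      omega
    have h2 := ih (4 * (r / 2)) R (by omega) h1 hRN
    have h3 := arm_step hc.le hR (by omega : 1 ≤ r / 2) (by omega)
    have h4 : arm q r ≤ arm q (2 * (r / 2)) := arm_antitone (by omega)
    have h5 : 0 ≤ c ^ 5 := by positivity
    have h6 : 0 ≤ c ^ (5 * j) := by positivity
    calc arm q r * c ^ (5 * (j + 1)) = (arm q r * c ^ 5) * c ^ (5 * j) := by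
          rw [mul_add, pow_add, mul_one]; ring
      _ ≤ (arm q (2 * (r / 2)) * c ^ 5) * c ^ (5 * j) := by gcongr
      _ ≤ arm q (4 * (r / 2)) * c ^ (5 * j) := by gcongr
      _ ≤ arm q R := h2

/-- Extendability of one arm in the box-crossing regime. -/
theorem arm_ext_reg : ∀ c : ℝ, 0 < c → ∀ k : ℕ, ∃ C : ℝ, 0 < C ∧ ∀ (N : ℕ) (q : I) (r R : ℕ),
    RSWreg c N q → 1 / 4 ≤ (q : ℝ) → 1 ≤ r → R ≤ k * r → R ≤ N → arm q r ≤ C * arm q R := by
  intro c hc k
  obtain ⟨j, hj⟩ : ∃ j : ℕ, (k : ℝ) < (3 / 2 : ℝ) ^ j := pow_unbounded_of_one_lt _ (by norm_num)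
  refine ⟨c⁻¹ ^ (5 * j) + 4 ^ (4 * k), by positivity, ?_⟩
  intro N q r R hR hq hr hRk hRN
  have ha : 0 ≤ arm q R := arm_nonneg
  have hci : 0 ≤ c⁻¹ ^ (5 * j) := by positivity
  by_cases hN : N = 0
  · have hR0 : R = 0 := by omega
    rw [hR0, arm_zero, mul_one]
    have h1 : (1 : ℝ) ≤ 4 ^ (4 * k) := one_le_pow₀ (by norm_num)
    linarith only [hci, h1, arm_le_one (p := q) (r := r)]
  by_cases hr4 : r < 4
  · have h1 : R ≤ 4 * k := by nlinarith only [hRk, hr4]
    have h2 := arm_ge_pow hq h1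
    have h3 : 1 ≤ 4 ^ (4 * k) * arm q R := by
      calc (1 : ℝ) = 4 ^ (4 * k) * (1 / 4 : ℝ) ^ (4 * k) := by
            rw [← mul_pow]; norm_num
        _ ≤ _ := mul_le_mul_of_nonneg_left h2 (by positivity)
    have h4 := arm_le_one (p := q) (r := r)
    have h5 := mul_nonneg hci ha
    rw [add_mul]
    linarith only [h3, h4, h5]
  · push Not at hr4
    have h1 : 2 ^ j * R ≤ 3 ^ j * r := by
      have h2 : (R : ℝ) ≤ (3 / 2 : ℝ) ^ j * r := by
        calc (R : ℝ) ≤ k * r := by exact_mod_cast hRk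
          _ ≤ _ := mul_le_mul_of_nonneg_right hj.le (Nat.cast_nonneg r)
      have h3 : (2 : ℝ) ^ j * R ≤ 3 ^ j * r := by
        calc (2 : ℝ) ^ j * R ≤ 2 ^ j * ((3 / 2 : ℝ) ^ j * r) :=
              mul_le_mul_of_nonneg_left h2 (by positivity)
          _ = (2 * (3 / 2)) ^ j * r := by rw [mul_pow]; ring
          _ = 3 ^ j * r := by norm_num
      exact_mod_cast h3
    have h2 := arm_iter hc (by omega : 1 ≤ N) hR j r R hr4 h1 hRN
    have h3 : arm q r ≤ c⁻¹ ^ (5 * j) * arm q R := by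
      rw [inv_pow, ← div_eq_inv_mul, le_div_iff₀ (by positivity)]
      exact h2
    have h4 : 0 ≤ 4 ^ (4 * k) * arm q R := by positivity
    rw [add_mul]
    linarith only [h3, h4]

end Pool.Agent.H61.NC

end

section

/-!
# Gluing of the arm of the middle vertex and the outer event
-/

open MeasureTheory ProbabilityTheory unitInterval

namespace Pool.Agent.H61.NC

open Pool.Agent.H89.Perc

variable {q : I}

private lemma armGlue_shift {N : ℕ} (ω : Config) (a b : ℤ) {u v : Vert}
    (h : Conn (per N ω) Set.univ u v) :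
    Conn (per N ω) Set.univ (u.1 + a * N, u.2 + b * N) (v.1 + a * N, v.2 + b * N) := by
  have h1 := conn_shift (ω := per N ω) (a * N, b * N) Set.univ u v
  have h2 : (fun e => per N ω (shiftE (a * N, b * N) e)) = per N ω := by
    funext e
    simp only [per, shiftE]
    rw [Int.add_mul_emod_self_right, Int.add_mul_emod_self_right]
  rw [h2] at h1
  exact (h1.1 h).mono_set (Set.subset_univ _)

/-- A path which leaves the neighbourhood of a translate of the middle vertex is joined to this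
translate. -/
private lemma armGlue_join {N m : ℕ} {ω : Config} (hA : ω ∈ ArmT N (2 * m))
    (hC : CircE (per N ω) (m0 N) m (2 * m)) (a b : ℤ) {w u : Vert}
    (hw : w ∈ ball ((m0 N).1 + a * N, (m0 N).2 + b * N) m)
    (hu : u ∉ ball ((m0 N).1 + a * N, (m0 N).2 + b * N) (2 * m))
    (h : Conn (per N ω) Set.univ w u) :
    Conn (per N ω) Set.univ ((m0 N).1 + a * N, (m0 N).2 + b * N) w := by
  obtain ⟨k, -, j1, -, -⟩ := circ_join (by omega) hC
  obtain ⟨x, hx, hc⟩ := hA
  have g1 := j1 (m0 N) x self_mem_ball (Or.inr hx) (hc.mono_set (Set.subset_univ _))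
  have h1 := armGlue_shift ω (-a) (-b) h
  have g2 := j1 _ _ (by
    rw [mem_ball] at hw ⊢
    simp only at hw ⊢
    rw [neg_mul, neg_mul]
    omega) (Or.inl (by
    rw [mem_ball] at hu ⊢
    simp only at hu ⊢
    rw [neg_mul, neg_mul]
    omega)) h1
  have g3 := armGlue_shift ω a b (g1.symm.trans g2)
  have e1 : ((w.1 + -a * N + a * N, w.2 + -b * N + b * N) : Vert) = w := by
    ext <;> (simp only; ring)
  simp only at g3
  rw [e1] at g3
  exact g3

/-- Two different translates of the neighbourhood of the middle vertex are far from each other. -/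
private lemma armGlue_far {N m : ℕ} (hN : 4 * m < N) {z : Vert} {a b a' b' : ℤ} {v : Vert}
    (hne : ¬ (a = a' ∧ b = b')) (hv : v ∈ ball (z.1 + a' * N, z.2 + b' * N) m) :
    v ∉ ball (z.1 + a * N, z.2 + b * N) (2 * m) := by
  intro hv'
  rw [mem_ball] at hv hv'
  simp only at hv hv'
  push_cast at hv'
  have key : ∀ c c' x y : ℤ, y + c' * N - m ≤ x → x ≤ y + c' * N + m →
      y + c * N - 2 * m ≤ x → x ≤ y + c * N + 2 * m → c = c' := by
    intro c c' x y h1 h2 h3 h4
    by_contra h0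
    rcases lt_or_gt_of_ne h0 with h | h
    · have h5 : (c + 1) * N ≤ c' * N := mul_le_mul_of_nonneg_right (by omega) (by omega)
      rw [add_mul, one_mul] at h5
      omega
    · have h5 : (c' + 1) * N ≤ c * N := mul_le_mul_of_nonneg_right (by omega) (by omega)
      rw [add_mul, one_mul] at h5
      omega
  exact hne ⟨key a a' v.1 z.1 hv.1 hv.2.1 hv'.1 hv'.2.1,
    key b b' v.2 z.2 hv.2.2.1 hv.2.2.2 hv'.2.2.1 hv'.2.2.2⟩

theorem armGlue_det {N m R : ℕ} (hN : 4 * m < N) (hR : R + 1 ≤ m) {ω : Config}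
    (hA : ω ∈ ArmT N (2 * m)) (hC : CircE (per N ω) (m0 N) m (2 * m)) (hO : ω ∈ OutArm N R) :
    ω ∈ W0 N := by
  classical
  obtain ⟨a', b', ha', h⟩ := hO
  have hmain : ∃ a b : ℤ, Conn (per N ω) Set.univ (m0 N) ((m0 N).1 + a * N, (m0 N).2 + b * N) ∧
      ∃ w ∈ ball ((m0 N).1 + a * N, (m0 N).2 + b * N) m,
        Conn (per N ω) Set.univ w ((m0 N).1 + a' * N, (m0 N).2 + b' * N) := by
    refine h.induction_right (P := fun v => ∃ a b : ℤ,
      Conn (per N ω) Set.univ (m0 N) ((m0 N).1 + a * N, (m0 N).2 + b * N) ∧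
      ∃ w ∈ ball ((m0 N).1 + a * N, (m0 N).2 + b * N) m, Conn (per N ω) Set.univ w v) ?_ ?_
    · refine ⟨0, 0, ?_, m0 N, ?_, Conn.refl (Set.mem_univ _)⟩
      · simp only [zero_mul, add_zero]
        exact Conn.refl (Set.mem_univ _)
      · simp only [zero_mul, add_zero]
        exact self_mem_ball
    · rintro v v' _ ⟨-, -, f, hf, hfo⟩ ⟨a, b, h1, w, hw, h2⟩
      by_cases hfω : per N ω f = true
      · exact ⟨a, b, h1, w, hw, h2.tail ⟨Set.mem_univ _, Set.mem_univ _, f, hf, hfω⟩⟩
      · -- the edge is a translate of an edge of the block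
        have hfb : (f.1 % N, f.2.1 % N, f.2.2) ∈ blk N R := by
          by_contra hno
          apply hfω
          unfold per at hfo ⊢
          unfold fill at hfo
          simpa only [hno, if_false] using hfo
        obtain ⟨c, hc⟩ : ∃ c, c = f.1 / N := ⟨_, rfl⟩
        obtain ⟨d, hd⟩ : ∃ d, d = f.2.1 / N := ⟨_, rfl⟩
        have e1 := Int.emod_add_ediv_mul f.1 N
        have e2 := Int.emod_add_ediv_mul f.2.1 N
        rw [← hc] at e1
        rw [← hd] at e2
        unfold blk at hfb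
        rw [mem_eRect] at hfb
        simp only [src, rect, Set.mem_ofPred_eq] at hfb
        have hsrc : src f ∈ ball ((m0 N).1 + c * N, (m0 N).2 + d * N) m := by
          rw [mem_ball]
          simp only [src, m0]
          omega
        have htgt : tgt f ∈ ball ((m0 N).1 + c * N, (m0 N).2 + d * N) m := by
          rw [mem_ball]
          obtain ⟨x, y, g⟩ := f
          cases g
          · simp only [tgt, m0, Bool.false_eq_true, if_false] at e1 e2 hfb ⊢
            omega
          · simp only [tgt, m0, if_true] at e1 e2 hfb ⊢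
            omega
        have hv : v ∈ ball ((m0 N).1 + c * N, (m0 N).2 + d * N) m ∧
            v' ∈ ball ((m0 N).1 + c * N, (m0 N).2 + d * N) m := by
          rcases hf with ⟨g1, g2⟩ | ⟨g1, g2⟩
          · rw [g1, g2]; exact ⟨hsrc, htgt⟩
          · rw [g1, g2]; exact ⟨htgt, hsrc⟩
        by_cases hcd : a = c ∧ b = d
        · obtain ⟨rfl, rfl⟩ := hcd
          exact ⟨a, b, h1, v', hv.2, Conn.refl (Set.mem_univ _)⟩
        · have hcd' : ¬ (c = a ∧ d = b) := fun hh => hcd ⟨hh.1.symm, hh.2.symm⟩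
          have k1 := armGlue_join hA hC a b hw (armGlue_far hN hcd hv.1) h2
          have k2 := armGlue_join hA hC c d hv.1 (armGlue_far hN hcd' hw) h2.symm
          exact ⟨c, d, ((h1.trans k1).trans h2).trans k2.symm, v', hv.2,
            Conn.refl (Set.mem_univ _)⟩
  obtain ⟨a, b, h1, w, hw, h2⟩ := hmain
  by_cases hab : a = a' ∧ b = b'
  · obtain ⟨rfl, rfl⟩ := hab
    exact ⟨a, b, ha', h1⟩
  · have k1 := armGlue_join hA hC a b hw (armGlue_far hN hab self_mem_ball) h2
    exact ⟨a', b', ha', (h1.trans k1).trans h2⟩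

/-- Gluing. -/
theorem armGlue {c : ℝ} (hc : 0 ≤ c) {N m R : ℕ} (hReg : RSWreg c N q) (h1 : 4 * m < N)
    (hR : R + 1 ≤ m) : arm q (2 * m) * Pr q (OutArm N R) * c ^ 4 ≤ Pr q (W0 N) := by
  classical
  have hN : 1 ≤ N := by omega
  have k1 : arm q (2 * m) ≤ Pr q (ArmT N (2 * m)) := le_of_eq (Pr_ArmT (by omega)).symm
  have k2 := fkg_step (localOn_ArmT hN (2 * m)) ((localOn_OutArm hN R).mono Finset.sdiff_subset)
    (incr_ArmT N (2 * m)) (incr_OutArm N R) Pr_nonneg k1 le_rfl
  have k3 := circT hc hReg (by omega : 1 ≤ m) h1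
    ((localOn_ArmT hN (2 * m)).inter ((localOn_OutArm hN R).mono Finset.sdiff_subset))
    ((incr_ArmT N (2 * m)).inter (incr_OutArm N R)) k2
  refine k3.trans (Pr_mono ?_)
  rintro ω ⟨⟨g1, g2⟩, g3⟩
  exact armGlue_det h1 hR g1 g3 g2

/-- Lower bound for the probability of `W0`. -/
theorem W0_lower_det {N m : ℕ} (hN : 4 * m < N) {ω : Config}
    (hA : ω ∈ ArmT N (2 * m)) (hC : CircE (per N ω) (m0 N) m (2 * m))
    (hH : ω ∈ HT N ((m0 N).1 + m) ((m0 N).1 + N - m) ((m0 N).2) ((m0 N).2 + 2 * m)) :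
    ω ∈ W0 N := by
  obtain ⟨k, -, j1, j2, j3⟩ := circ_join (by omega) hC
  obtain ⟨x, hx, hc⟩ := hA
  have g1 := j1 (m0 N) x self_mem_ball (Or.inr hx) (hc.mono_set (Set.subset_univ _))
  obtain ⟨u, v, hu, hv, huv⟩ := hH
  -- the right side of the circuit
  have g2 : Conn (per N ω) Set.univ k u := by
    refine j2 u v (by omega) ?_ (huv.mono_set ?_)
    · push_cast
      omega
    · intro w hw
      simp only [rect, Set.mem_ofPred_eq] at hw ⊢
      push_cast
      omega
  -- the left side of the translated circuit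
  have g3 : Conn (per N ω) Set.univ k (u.1 + -1 * N, u.2 + 0 * N) := by
    have h1 : Conn (per N ω) {w | (m0 N).2 - (2 * m : ℕ) ≤ w.2 ∧ w.2 ≤ (m0 N).2 + (2 * m : ℕ)}
        (u.1 + -1 * N, u.2 + 0 * N) (v.1 + -1 * N, v.2 + 0 * N) := by
      have h2 := conn_shift (ω := per N ω) (-1 * N, 0 * N)
        (rect ((m0 N).1 + m) ((m0 N).1 + N - m) ((m0 N).2) ((m0 N).2 + 2 * m)) u v
      have h3 : (fun e => per N ω (shiftE (-1 * N, 0 * N) e)) = per N ω := by
        funext e
        simp only [per, shiftE]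
        rw [Int.add_mul_emod_self_right, Int.add_mul_emod_self_right]
      rw [h3] at h2
      refine (h2.1 huv).mono_set ?_
      intro w hw
      simp only [rect, Set.mem_ofPred_eq] at hw ⊢
      push_cast
      omega
    refine j3 _ _ ?_ ?_ h1
    · simp only
      push_cast
      omega
    · simp only
      omega
  have g4 := armGlue_shift ω 1 0 (g1.symm.trans g3)
  have e1 : ((u.1 + -1 * N + 1 * N, u.2 + 0 * N + 0 * N) : Vert) = u := by
    ext <;> (simp only; ring)
  simp only at g4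
  rw [e1] at g4
  exact ⟨1, 0, one_ne_zero, (g1.symm.trans g2).trans g4.symm⟩

theorem W0_lower {c : ℝ} (hc : 0 ≤ c) {N m : ℕ} (hReg : RSWreg c N q) (h0 : 2 ≤ m)
    (h1 : 4 * m < N) (h2 : N ≤ 8 * m) : arm q (2 * m) * c ^ 5 ≤ Pr q (W0 N) := by
  classical
  have hN : 1 ≤ N := by omega
  have k1 : arm q (2 * m) ≤ Pr q (ArmT N (2 * m)) := le_of_eq (Pr_ArmT (by omega)).symm
  have k2 := reg_HT hReg (by omega : 1 ≤ 2 * m) (by omega) (x := (m0 N).1 + m)
    (y := (m0 N).1 + N - m) (z := (m0 N).2) (t := (m0 N).2 + 2 * m) (by omega)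
    (by push_cast; omega) (by push_cast; omega) (by omega) (by omega)
  have k3 := fkg_step (localOn_ArmT hN (2 * m)) (localOn_HT hN _ _ _ _)
    (incr_ArmT N (2 * m)) (incr_HT N _ _ _ _) hc k1 k2
  have k4 := circT hc hReg (by omega : 1 ≤ m) h1
    ((localOn_ArmT hN (2 * m)).inter (localOn_HT hN _ _ _ _))
    ((incr_ArmT N (2 * m)).inter (incr_HT N _ _ _ _)) k3
  have e : arm q (2 * m) * c ^ 5 = arm q (2 * m) * c * c ^ 4 := by ring
  rw [e]
  refine k4.trans (Pr_mono ?_)
  rintro ω ⟨⟨g1, g2⟩, g3⟩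
  exact W0_lower_det h1 g1 g3 g2

/-- Upper bound for the probability of `W0`. -/
theorem W0_upper {N r : ℕ} (h : 2 * r < N) : Pr q (W0 N) ≤ arm q r := by
  rw [← Pr_ArmT h]
  refine Pr_mono ?_
  rintro ω ⟨a, b, ha, hu⟩
  refine hu.mem_arm (Or.inl ?_)
  have h3 : 1 ≤ |a| := Int.one_le_abs ha
  have h4 : (m0 N).1 + a * N - (m0 N).1 = a * N := by ring
  simp only
  rw [h4, abs_mul, abs_of_nonneg (by omega : (0 : ℤ) ≤ N)]
  have h5 : (2 * r : ℤ) < N := by exact_mod_cast h
  nlinarith only [h, h3]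

end Pool.Agent.H61.NC

end

section

/-! # Box crossing property at general densities -/

open MeasureTheory ProbabilityTheory unitInterval

namespace Pool.Agent.H83.EX

open Pool.Agent.H89.Perc

lemma wr_localOn_edge (e : Edge) : LocalOn {e} {ω : Config | ω e = true} := by
  intro ω ω' h hA
  have : ω e = ω' e := h e (by simp)
  simp only [Set.mem_ofPred_eq] at hA ⊢
  rw [← this]
  exact hA

lemma wr_incr_edge (e : Edge) : Incr {ω : Config | ω e = true} := fun _ _ h hA => h e hA

lemma wr_edge (q : I) (e : Edge) : Pr q {ω : Config | ω e = true} = q := by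
  classical
  rw [Pr_eq_update (wr_localOn_edge e) e]
  have h1 : {ω : Config | Function.update ω e true ∈ {ω : Config | ω e = true}} = Set.univ := by
    ext ω
    simp
  have h2 : {ω : Config | Function.update ω e false ∈ {ω : Config | ω e = true}} = ∅ := by
    ext ω
    simp
  rw [h1, h2, Pr_univ]
  simp [Pr]

/-- The first `k` horizontal edges of the axis are open. -/
def wr_row (k : ℕ) : Set Config := {ω | ∀ i : ℕ, i < k → ω ((i : ℤ), 0, false) = true}

lemma wr_row_local (k : ℕ) : LocalOn ((Finset.range k).image fun i : ℕ => (((i : ℤ), 0, false) : Edge))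
    (wr_row k) := by
  intro ω ω' h hA i hi
  rw [← h _ (Finset.mem_image.2 ⟨i, Finset.mem_range.2 hi, rfl⟩)]
  exact hA i hi

lemma wr_row_incr (k : ℕ) : Incr (wr_row k) := fun _ _ h hA i hi => h _ (hA i hi)

lemma wr_row_Pr (q : I) (k : ℕ) : (q : ℝ) ^ k ≤ Pr q (wr_row k) := by
  classical
  induction k with
  | zero =>
    have : wr_row 0 = Set.univ := by
      ext ω
      simp [wr_row]
    rw [this, Pr_univ, pow_zero]
  | succ k ih =>
    have h1 := fkg (p := q) (wr_row_local k) (wr_localOn_edge ((k : ℤ), 0, false)) (wr_row_incr k)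
      (wr_incr_edge _)
    rw [wr_edge] at h1
    have h2 : wr_row k ∩ {ω : Config | ω ((k : ℤ), 0, false) = true} ⊆ wr_row (k + 1) := by
      rintro ω ⟨h3, h4⟩ i hi
      rcases Nat.lt_succ_iff_lt_or_eq.1 hi with h5 | h5
      · exact h3 i h5
      · subst h5
        exact h4
    calc (q : ℝ) ^ (k + 1) = (q : ℝ) ^ k * q := pow_succ _ _
      _ ≤ Pr q (wr_row k) * q := mul_le_mul_of_nonneg_right ih q.2.1
      _ ≤ _ := h1.trans (Pr_mono h2)

lemma wr_row_cross {k : ℕ} {ω : Config} (h : ω ∈ wr_row k) {d : ℤ} (hd : 0 ≤ d) :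
    HCross ω 0 k 0 d := by
  have key : ∀ i : ℕ, i ≤ k → Conn ω (rect 0 k 0 d) (0, 0) ((i : ℤ), 0) := by
    intro i
    induction i with
    | zero =>
      intro _
      exact ⟨⟨le_rfl, by simp, le_rfl, hd⟩, Relation.ReflTransGen.refl⟩
    | succ i ih =>
      intro hi
      refine (ih (by omega)).tail ⟨⟨by simp, by simp only; omega, le_rfl, hd⟩,
        ⟨by simp only; omega, by simp only; omega, le_rfl, hd⟩, ((i : ℤ), 0, false), Or.inl ⟨rfl, ?_⟩,
        h i (by omega)⟩
      simp [tgt]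
  exact ⟨(0, 0), ((k : ℤ), 0), rfl, rfl, key k le_rfl⟩

lemma wr_row_bound (q : I) {k m : ℕ} (hk : k ≤ m) {d : ℤ} (hd : 0 ≤ d) :
    (q : ℝ) ^ m ≤ Pr q {ω | HCross ω 0 k 0 d} := by
  have h1 : (q : ℝ) ^ m ≤ (q : ℝ) ^ k := pow_le_pow_of_le_one q.2.1 q.2.2 hk
  exact h1.trans ((wr_row_Pr q k).trans (Pr_mono fun ω hω => wr_row_cross hω hd))

/-- A crossing of the `4 × 4` square uses an edge of the first column. -/
lemma wr_square {ω : Config} (h : HCross ω 0 4 0 4) :
    ∃ y ∈ Finset.range 5, ω (0, (y : ℤ), false) = true := by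
  by_contra hno
  push Not at hno
  obtain ⟨u, v, hu, hv, hS, hc⟩ := h
  have key : ∀ w, Relation.ReflTransGen (Step ω (rect 0 4 0 4)) u w → w.1 = 0 := by
    intro w hw
    induction hw with
    | refl => exact hu
    | tail _ hst ih =>
      rename_i b c _
      obtain ⟨hb, hc', e, hj, he⟩ := hst
      obtain ⟨x, y, t⟩ := e
      cases t
      · -- horizontal
        rcases hj with ⟨rfl, rfl⟩ | ⟨rfl, rfl⟩
        · simp only [src] at ih hb hc'
          exfalso
          obtain ⟨-, -, h3, h4⟩ := hb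
          simp only at h3 h4 ih
          obtain ⟨y', rfl⟩ : ∃ y' : ℕ, y = y' := ⟨y.toNat, by omega⟩
          subst ih
          exact hno y' (by rw [Finset.mem_range]; omega) he
        · simp only [src, tgt] at ih hb hc' ⊢
          obtain ⟨h1, -, -, -⟩ := hc'
          simp only at h1
          simp at ih
          omega
      · rcases hj with ⟨rfl, rfl⟩ | ⟨rfl, rfl⟩
        · simpa [src, tgt] using ih
        · simpa [src, tgt] using ih
  have := key v hc
  omega

lemma wr_density {q : I} {δ : ℝ} (h : δ ≤ Pr q {ω | HCross ω 0 4 0 4}) : δ / 5 ≤ q := by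
  have h1 : {ω : Config | HCross ω 0 4 0 4} ⊆ ⋃ y ∈ Finset.range 5, {ω : Config | ω (0, ((y : ℕ) : ℤ), false) = true} := by
    intro ω hω
    obtain ⟨y, hy, hy'⟩ := wr_square hω
    exact Set.mem_iUnion₂.2 ⟨y, hy, hy'⟩
  have h2 := (Pr_mono (p := q) h1).trans (Pr_biUnion_le _ _)
  simp only [wr_edge, Finset.sum_const, Finset.card_range, nsmul_eq_mul] at h2
  push_cast at h2
  linarith only [h, h2]

/-- One step of the iteration. -/
lemma wr_step {q : I} {δ : ℝ} (hδ : 0 ≤ δ) {m n : ℕ} (hn : 1 ≤ n) (hmn : n ≤ m)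
    (hsq : δ ≤ Pr q {ω | HCross ω 0 n 0 n}) {x : ℝ} (hx : 0 ≤ x)
    (h : x ≤ Pr q {ω | HCross ω 0 m 0 (2 * n)}) :
    δ ^ 3 * x ^ 2 / 4 ≤ Pr q {ω | HCross ω 0 (2 * m - n) 0 (2 * n)} := by
  have h1 := rsw_key (p := q) hn hmn
  have h2 := rsw_glue (p := q) hn hmn
  have h3 : Pr q {ω | HCross ω (n - m) m 0 (2 * n)} =
      Pr q {ω | HCross ω 0 (2 * m - n) 0 (2 * n)} := by
    have := Pr_hcross_translate (p := q) (a := 0) (b := 2 * (m : ℤ) - n) (c := 0)
      (d := 2 * (n : ℤ)) ((n : ℤ) - m) 0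
    rw [← this]
    congr 1
    ext ω
    simp only [zero_add, add_zero, Set.mem_ofPred_eq]
    rw [show 2 * (m : ℤ) - n + (n - m) = m by ring]
  rw [h3] at h2
  have h5 : δ ≤ Pr q {ω | VCross ω 0 n 0 n} := by
    rw [Pr_vcross_eq_hcross]
    exact hsq
  have h6 : δ * x / 2 ≤ Pr q (XEvent m n) := by
    refine le_trans ?_ h1
    have h7 : 0 ≤ Pr q {ω | VCross ω 0 n 0 n} := Pr_nonneg
    have := mul_le_mul h5 h hx h7
    linarith only [this]
  have h9 : (δ * x / 2) ^ 2 ≤ Pr q (XEvent m n) ^ 2 := pow_le_pow_left₀ (by positivity) h6 2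
  calc δ ^ 3 * x ^ 2 / 4 = (δ * x / 2) ^ 2 * δ := by ring
    _ ≤ Pr q (XEvent m n) ^ 2 * Pr q {ω | HCross ω 0 n 0 n} :=
        mul_le_mul h9 hsq hδ (by positivity)
    _ ≤ _ := h2

lemma wr_beta_pos {δ : ℝ} (hδ : 0 < δ) (i : ℕ) : 0 < wr_beta δ i := by
  induction i with
  | zero => exact hδ
  | succ i ih =>
    rw [wr_beta]
    positivity

lemma wr_iter {q : I} {δ : ℝ} (hδ : 0 < δ) {n : ℕ} (hn : 1 ≤ n)
    (hsq : δ ≤ Pr q {ω | HCross ω 0 n 0 n}) (hsq2 : δ ≤ Pr q {ω | HCross ω 0 (2 * n) 0 (2 * n)}) (i : ℕ) :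
    wr_beta δ i ≤ Pr q {ω | HCross ω 0 (((2 ^ i + 1) * n : ℕ) : ℤ) 0 (2 * n)} := by
  induction i with
  | zero =>
    have e : (((2 ^ 0 + 1) * n : ℕ) : ℤ) = 2 * n := by push_cast; ring
    rw [e]
    exact hsq2
  | succ i ih =>
    have h1 := wr_step hδ.le hn (Nat.le_mul_of_pos_left n (by positivity)) hsq
      (wr_beta_pos hδ i).le ih
    have e : 2 * (((2 ^ i + 1) * n : ℕ) : ℤ) - n = (((2 ^ (i + 1) + 1) * n : ℕ) : ℤ) := by
      push_cast
      ring
    rw [e] at h1
    exact h1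

theorem weak_rsw : ∀ δ > (0 : ℝ), ∀ K : ℕ, ∃ c > (0 : ℝ), ∀ q : I, ∀ M : ℕ, 1 ≤ M →
    (∀ m : ℕ, 1 ≤ m → m ≤ M → δ ≤ Pr q {ω | HCross ω 0 (4 * m) 0 (4 * m)}) →
    ∀ n : ℕ, 1 ≤ n → n ≤ K * M → c ≤ Pr q {ω | HCross ω 0 (4 * n) 0 n} := by
  intro δ hδ K
  refine ⟨min (wr_beta δ (3 * K + 16)) ((δ / 5) ^ (4 * (8 + K))),
    lt_min (wr_beta_pos hδ _) (by positivity), ?_⟩
  intro q M hM hsq n hn hnM
  by_cases hcase : 8 ≤ n ∧ 2 ≤ M
  · obtain ⟨hn8, hM2⟩ := hcase
    refine (min_le_left _ _).trans ?_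
    set j : ℕ := min (n / 8) (M / 2) with hj
    have hj1 : 1 ≤ j := by
      rw [hj]
      exact le_min (by omega) (by omega)
    have hjn : j ≤ n / 8 := min_le_left _ _
    have hjM : j ≤ M / 2 := min_le_right _ _
    have h1 : δ ≤ Pr q {ω | HCross ω 0 ((4 * j : ℕ) : ℤ) 0 ((4 * j : ℕ) : ℤ)} := by
      have := hsq j hj1 (by omega)
      push_cast
      exact this
    have h2 : δ ≤ Pr q {ω | HCross ω 0 (2 * ((4 * j : ℕ) : ℤ)) 0 (2 * ((4 * j : ℕ) : ℤ))} := by
      have := hsq (2 * j) (by omega) (by omega)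
      have e : (4 : ℤ) * ((2 * j : ℕ) : ℤ) = 2 * ((4 * j : ℕ) : ℤ) := by push_cast; ring
      rw [e] at this
      exact this
    refine (wr_iter hδ (n := 4 * j) (by omega) h1 h2 (3 * K + 16)).trans (Pr_mono ?_)
    intro ω hω
    have hpow : 3 * K + 16 ≤ 2 ^ (3 * K + 16) := Nat.lt_two_pow_self.le
    have hnj : n ≤ (3 * K + 16) * j := by
      rcases le_total (n / 8) (M / 2) with h | h
      · have : j = n / 8 := by rw [hj]; exact min_eq_left h
        have h3 : n ≤ 16 * j := by omega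
        exact h3.trans (Nat.mul_le_mul_right j (by omega))
      · have : j = M / 2 := by rw [hj]; exact min_eq_right h
        have h3 : M ≤ 3 * j := by omega
        have h4 : n ≤ 3 * K * j := by
          calc n ≤ K * M := hnM
            _ ≤ K * (3 * j) := Nat.mul_le_mul_left K h3
            _ = 3 * K * j := by ring
        exact h4.trans (Nat.mul_le_mul_right j (by omega))
    have hw : 4 * n ≤ (2 ^ (3 * K + 16) + 1) * (4 * j) := by
      calc 4 * n ≤ 4 * ((3 * K + 16) * j) := Nat.mul_le_mul_left 4 hnj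
        _ = (3 * K + 16) * (4 * j) := by ring
        _ ≤ (2 ^ (3 * K + 16) + 1) * (4 * j) := Nat.mul_le_mul_right _ (by omega)
    refine HCross.mono hω le_rfl (by positivity) (by exact_mod_cast hw) le_rfl ?_
    push_cast
    omega
  · refine (min_le_right _ _).trans ?_
    have hq : δ / 5 ≤ q := by
      apply wr_density
      have := hsq 1 le_rfl hM
      simpa using this
    have hnK : n ≤ 8 + K := by
      by_contra hcon
      push Not at hcon
      have hM1 : M = 1 := by
        by_contra hM1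
        exact hcase ⟨by omega, by omega⟩
      rw [hM1, mul_one] at hnM
      omega
    have h1 : (δ / 5) ^ (4 * (8 + K)) ≤ (q : ℝ) ^ (4 * (8 + K)) := pow_le_pow_left₀ (by positivity) hq _
    refine h1.trans ?_
    have h2 := wr_row_bound q (k := 4 * n) (m := 4 * (8 + K)) (by omega) (d := n) (by positivity)
    push_cast at h2
    exact h2

theorem rswreg_of_bad : ∀ δ > (0 : ℝ), ∀ K : ℕ, ∃ c > (0 : ℝ), ∀ p : I, half ≤ p → ∀ M : ℕ,
    1 ≤ M → (∀ m : ℕ, 1 ≤ m → m ≤ M → Pr p {ω | HCross ω 0 (4 * m) 0 (4 * m)} < 1 - δ) →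
    ∀ q : I, σ p ≤ q → q ≤ p → Pool.Agent.H61.NC.RSWreg c (K * M) q := by
  intro δ hδ K
  obtain ⟨c, hc, hw⟩ := weak_rsw δ hδ K
  refine ⟨c, hc, fun p _ M hM hbad q hq1 hq2 => ?_⟩
  have hsq : ∀ m : ℕ, 1 ≤ m → m ≤ M → δ ≤ Pr (σ p) {ω | HCross ω 0 (4 * m) 0 (4 * m)} := by
    intro m hm hmM
    have h1 : (Set.univ : Set Config) ⊆ {ω | HCross ω 0 (4 * (m : ℤ)) 0 (4 * m)} ∪
        {ω | dual ω ∈ {η | VCross η 0 (4 * (m : ℤ) - 1) (0 - 1) (4 * m)}} := by
      intro ω _
      rcases hcross_or_dual_vcross (ω := ω) (a := 0) (b := 4 * (m : ℤ)) (c := 0) (d := 4 * m)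
        (by omega) (by omega) with h | h
      · exact Or.inl h
      · exact Or.inr h
    have h2 : (1 : ℝ) ≤ Pr p {ω | HCross ω 0 (4 * (m : ℤ)) 0 (4 * m)} +
        Pr p {ω | dual ω ∈ {η | VCross η 0 (4 * (m : ℤ) - 1) (0 - 1) (4 * m)}} := by
      rw [← Pr_univ (p := p)]
      exact (Pr_mono h1).trans Pr_union_le
    rw [Pr_dual (localOn_vcross 0 (4 * (m : ℤ) - 1) (0 - 1) (4 * m))] at h2
    have h3 := hbad m hm hmM
    have h4 : Pr (σ p) {η | VCross η 0 (4 * (m : ℤ) - 1) (0 - 1) (4 * m)} ≤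
        Pr (σ p) {ω | HCross ω 0 (4 * m) 0 (4 * m)} := by
      rw [← Pr_vcross_eq_hcross]
      apply Pr_mono
      intro ω h
      exact VCross.mono h le_rfl (by omega) (by omega) (by omega) le_rfl
    linarith only [h2, h3, h4]
  intro m hm hmKM
  have h1 := hw (σ p) M hM hsq m hm hmKM
  refine ⟨h1.trans (Pr_mono_param (localOn_hcross _ _ _ _) (incr_hcross _ _ _ _) hq1),
    h1.trans (Pr_mono_param (localOn_hcross _ _ _ _) (incr_hcross _ _ _ _) ?_)⟩
  rw [← Subtype.coe_le_coe]
  simp only [unitInterval.coe_symm_eq]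
  have : (q : ℝ) ≤ p := hq2
  linarith only [this]

end Pool.Agent.H83.EX

end

section

/-!
# Triangularity
-/

namespace Pool.Agent.H12.QKZ

open H56.EX

end Pool.Agent.H12.QKZ

end

section

/-!
# The normalised fixed vector for admissible angles
-/

namespace Pool.Agent.H12.QKZ

open H56.EX Matrix

set_option linter.unusedSectionVars false

variable {L : ℕ}

theorem sw_sw (hL : 2 ≤ L) (i : ℤ) (θ : ℤ → ℝ) : sw L i (sw L i θ) = θ := by
  rw [sw_eq_tau, sw_eq_tau]
  funext x
  simp only [tau_tau hL]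

end Pool.Agent.H12.QKZ

end

section

/-!
# Normalisation by the base component
-/

namespace Pool.Agent.H12.QKZ

open H56.EX Matrix

variable {L : ℕ}

/-! ### Base patterns -/

theorem base_window (hE : Even L) (hL : 2 ≤ L) (i : ℤ) :
    ∃ x : ℤ, Cg L i x ∧ -(L : ℤ) ≤ 2 * x ∧ 2 * x < L := by
  obtain ⟨n, hn⟩ := hE
  have hpos : (0 : ℤ) < L := by omega
  refine ⟨(i + n) % L - n, ?_, ?_, ?_⟩
  · unfold Cg
    rw [show i - ((i + n) % (L : ℤ) - n) = (i + n) - (i + n) % L by ring]
    exact Int.dvd_self_sub_emod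
  · have := Int.emod_nonneg (i + n) hpos.ne'
    omega
  · have := Int.emod_lt_of_pos (i + n) hpos
    omega

/-! ### Closure under rotations -/

/-! ### The base component does not vanish -/

end Pool.Agent.H12.QKZ

end

section

/-!
# The renormalised vector and its polynomiality
-/

namespace Pool.Agent.H12.QKZ

open H56.EX Matrix MvPolynomial

variable {L : ℕ}

/-- Index of a position. -/
def idx (hL : 0 < L) (i : ℤ) : Fin L :=
  ⟨(i % (L : ℤ)).toNat, by
    have h1 := Int.emod_lt_of_pos i (show (0 : ℤ) < L by omega)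
    have h2 := Int.emod_nonneg i (show (L : ℤ) ≠ 0 by omega)
    omega⟩

theorem idx_cast (hL : 0 < L) (i : ℤ) : ((idx hL i : Fin L) : ℤ) = i % L := by
  unfold idx
  exact Int.toNat_of_nonneg (Int.emod_nonneg _ (by omega))

theorem idx_cg (hL : 0 < L) (i : ℤ) : Cg L i ((idx hL i : Fin L) : ℕ) := by
  have := idx_cast hL i
  rw [this]; exact cg_emod i

theorem idx_ne (hL : 0 < L) (hL2 : 2 ≤ L) (i : ℤ) : idx hL i ≠ idx hL (i + 1) := by
  intro h
  have h1 := idx_cg hL i
  have h2 := idx_cg hL (i + 1)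
  rw [h] at h1
  exact not_Cg_succ hL2 i (Cg.trans' h1 (Cg.symm' h2))

end Pool.Agent.H12.QKZ

end

section

/-!
# The polynomial qKZ solution
-/

namespace Pool.Agent.H12.QKZ

open H56.EX Matrix MvPolynomial

variable {L : ℕ}

/-- A polynomial in one variable obtained by specialising all others. -/
theorem natDegree_spec {n : ℕ} (a : Fin n) (c : Fin n → ℂ) (p : MvPolynomial (Fin n) ℂ) (d : ℕ)
    (h : ∀ e, coeff e p ≠ 0 → e a ≤ d) :
    ∃ P : Polynomial ℂ, P.natDegree ≤ d ∧
      ∀ t, eval (fun k => if k = a then t else c k) p = P.eval t := by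
  refine ⟨∑ e ∈ p.support, Polynomial.C (coeff e p) *
    ∏ k, (if k = a then Polynomial.X else Polynomial.C (c k)) ^ (e k), ?_, ?_⟩
  · apply Polynomial.natDegree_sum_le_of_forall_le
    intro e he
    rw [mem_support_iff] at he
    refine (Polynomial.natDegree_C_mul_le _ _).trans ?_
    refine (Polynomial.natDegree_prod_le _ _).trans ?_
    refine le_trans (Finset.sum_le_sum (g := fun k => if k = a then e k else 0) fun k _ => ?_) ?_
    · split_ifs with hk
      · refine (Polynomial.natDegree_pow_le).trans ?_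
        simp
      · refine (Polynomial.natDegree_pow_le).trans ?_
        simp
    · simp only [Finset.sum_ite_eq', Finset.mem_univ, if_true]
      exact h e he
  · intro t
    rw [eval_eq, Polynomial.eval_finsetSum]
    refine Finset.sum_congr rfl fun e _ => ?_
    rw [Polynomial.eval_mul, Polynomial.eval_C, Polynomial.eval_prod]
    congr 1
    have h1 : ∀ k, Polynomial.eval t ((if k = a then Polynomial.X else Polynomial.C (c k)) ^ (e k))
        = (if k = a then t else c k) ^ (e k) := by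
      intro k
      rw [Polynomial.eval_pow]
      split_ifs <;> simp
    rw [Finset.prod_congr rfl fun k _ => h1 k]
    rw [Finset.prod_subset (Finset.subset_univ e.support)]
    intro k _ hk
    rw [Finsupp.mem_support_iff, not_not] at hk
    rw [hk, pow_zero]

end Pool.Agent.H12.QKZ

end

section

/-! The base case of the leg formula: `F22` with no glued strand. -/

namespace H56.EX

open scoped BigOperators Classical

/-- sheet label of a vertex -/
def lab2 : ℤ ⊕ ℤ → ℤ × Bool
  | Sum.inl x => ((x + 1) / 2, false)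
  | Sum.inr x => ((x + 1) / 2, true)


end H56.EX

end

section

/-!
# The explicit sum in the form of the leg functions, for any number of legs

`SGen k M u v c z` is the sum over `ε ∈ {q, q²}^M`; `SM M = SGen 4 M q (q²)`.
Recursions, symmetry in `c` and `z`, degree in each `c l`.
-/

set_option autoImplicit false

namespace Pool.Agent.H96.EX

open Finset H56.EX

end Pool.Agent.H96.EX

end

section

/-!
# The polynomial `S` extending the explicit sum `SGen` to all values of the parameters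

* `SPoly k M u v : MvPolynomial (Fin k ⊕ Fin M) ℂ`, `S k M u v c z` = its value;
* `S_eq_SGen` : `S = SGen` for pairwise distinct `z`;
* `S_continuous`, `S_symm_c`, `S_symm_z`, `S_poly` (degree `≤ M` in each leg), `S_rec1`, `S_rec2`
  (recursions, for ALL values), `S_zero`.
-/

set_option autoImplicit false

namespace Pool.Agent.H96.EX

open Finset H56.EX

/-! ### Vandermonde product -/

/-! ### numerators -/

/-! ### continuity along a line -/

/-! ### divisibility -/

section dvd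

open MvPolynomial

variable {σ : Type*} [DecidableEq σ]

end dvd

/-! ### degree in a leg parameter -/

end Pool.Agent.H96.EX

end

section

/-!
# Interface for `H56.EX.SM`

`SM_S` : `SM M c z = S 4 M q (q²) c z` for pairwise distinct `z`;
`SM_zero`, `SM_symm_c`, `SM_symm_z`, `SM_poly`, `SM_rec1`, `SM_rec2`, `SM_unique`.
For all values of the parameters (also coinciding strands) use `S 4 M q (q²)` of `SMb.lean`.
-/

set_option autoImplicit false

namespace Pool.Agent.H96.EX

open Finset H56.EX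

end Pool.Agent.H96.EX

end

section

/-!
# Bridge: `S` and the sum `SG` over `range M` with a list of legs (helper56's `TM`)
-/

set_option autoImplicit false

namespace Pool.Agent.H96.EX

open Finset H56.EX

lemma prz_range (M : ℕ) (z : ℕ → ℂ) :
    prz M z = ∏ j ∈ range M, ∏ k ∈ range M, if j < k then
      (z j) ^ 2 + z j * z k + (z k) ^ 2 else 1 := by
  unfold prz
  rw [range_eq_map, Finset.prod_map]
  apply Finset.prod_congr rfl
  intro j _
  rw [Finset.prod_map]
  apply Finset.prod_congr rfl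
  intro k _
  simp only [Fin.valEmbedding_apply, Fin.val_fin_lt]

/-- the same, as a product over pairs `j < k < M` -/
lemma prz_range' (M : ℕ) (z : ℕ → ℂ) :
    prz M z = ∏ k ∈ range M, ∏ j ∈ range k, ((z j) ^ 2 + z j * z k + (z k) ^ 2) := by
  rw [prz_range, Finset.prod_comm]
  apply Finset.prod_congr rfl
  intro k hk
  rw [← Finset.prod_filter]
  apply Finset.prod_congr
  · ext j
    simp only [mem_filter, mem_range] at hk ⊢
    omega
  · intros; rfl

end Pool.Agent.H96.EX

end

section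

/-!
# LINK module `Diag`: four arms at a diagonal pair of vertices and four arms of an edge

`x = (0, 0)`, `y = (1, -1)`, `z = (1, 0)`, `w = (0, -1)`: the corners of the face `q = (0, -1)`;
`e = (0, 0, false)` joins `x, z`; `g = (1, -1, true)` joins `y, z`; `f = (0, -1, true)` joins `w, x`.
Clusters `C(v)` are taken in `ball 0 k` (all four points are in it for `k ≥ 1`).

`fourD_le_a4`.  Let `ω ∈ FourD k`.
* `z ∈ C(y)`: `e` is closed, `ω ∈ A4 e k`.
* `z ∈ C(x)`: `g` is closed; restricted to `ball (1, -1) (k - 1) ⊆ ball 0 k` this is `A4 g (k - 1)` (`src g = y`; the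
  path from `z` goes through `x` to the sphere; cut it at `sphere y (k-1)`).
* otherwise: `Function.update ω g true ∈ A4 e k` (now `z ∈ C(y)`, `x` is not joined to it).
  `Pr p {ω | update ω g true ∈ A} ≤ Pr p A / p` (independence of the edge `g`).
Then `Pr_A4` and `a4_anti`.

`a4_le_fourD`.  Let `ω ∈ A4 e k`, `ω₀ = close e ω` (the clusters are now those of `ω₀`).
* `y ∈ C(z)`: `ω₀ ∈ FourD k`.
* `y ∉ C(z)`, `y ∉ C(x)`: `update ω₀ g true ∈ FourD k`.
* `y ∈ C(x)`, `w ∈ C(x)`: the reflection `(a, b) ↦ (1 - a, b)` of `ω₀` is in `FourD (k - 1)`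
  (`z ↦ x`, `w ↦ y`; `ball (1, 0) (k - 1) ⊆ ball 0 k`).
* `y ∈ C(x)`, `w ∉ C(x)`, `w ∉ C(z)`: the same for `update ω₀ f true`.
* `y ∈ C(x)`, `w ∈ C(z)`: impossible (planarity).  Let `c` be a path sum (`exists_pathSum` of `Link/Potential.lean`) of an
  open path from `x` to `y` in `ball 0 k`, `A = c + 1_e + 1_g` (all degrees even, finite support), `G = pot A H`,
  `G (lowFace e') + G (src e') = A e'` (`pot_even`).  `A` has no edge at any vertex of `C(z)` except `z` (its edges join
  vertices of `C(x)`, or are `e`, `g`).  So around every vertex `v ∈ C(z)`, `v ≠ z`, the four faces have the same colour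
  `G`, and neighbours in `C(z) \ {z}` share a face, so this colour is constant along an open path from `w` to the last
  vertex `v` before `z`; around `w` it is `G q` (`q = (0, -1)` is a face at `w`).  `v ∈ {(2, 0), (1, 1)}` (`v ≠ x, y`), and the
  face `(1, 0)` contains both; so `G (1, 0) = G q`.  But from `q` to the face `(0, 0)` one crosses `e` (`A e = 1`,
  because `c e = 0`), and from `(0, 0)` to `(1, 0)` one crosses `(1, 0, true)` (`A = 0`, it joins `z` and `(1, 1)`, not
  in `C(x)`; if it is closed also `c = 0`).  So `G (1, 0) = G q + 1`, contradiction.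
  (Take the path from `w` to `z` with `z` only at the end: `Conn` in `ball 0 k \ {z}` to a neighbour of `z`.)
-/

set_option autoImplicit false

open MeasureTheory ProbabilityTheory unitInterval

namespace Pool.Agent.H89.Link

open Pool.Agent.H89.Perc (Vert Edge Config Pr half)
open Pool.Agent.H61.NC (a4)
open Pool.Agent.H89.Perc (src tgt lowFace ball sphere)

/-! ### Clusters -/

/-! ### Probabilities -/

lemma diag_pr_false (p : I) (h1 : (p : ℝ) ≤ 3 / 4) {s : Finset Edge} {A : Set Config}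
    (hA : Perc.LocalOn s A) (e : Edge) :
    Pr p {ω | Function.update ω e false ∈ A} ≤ 4 * Pr p A := by
  have h := Perc.Pr_eq_update (p := p) hA e
  have h2 : 0 ≤ Pr p {ω | Function.update ω e true ∈ A} := Perc.Pr_nonneg
  have h3 : 0 ≤ Pr p {ω | Function.update ω e false ∈ A} := Perc.Pr_nonneg
  have h5 : 0 ≤ (p : ℝ) * Pr p {ω | Function.update ω e true ∈ A} :=
    mul_nonneg p.2.1 h2
  have h6 : (1 / 4 : ℝ) * Pr p {ω | Function.update ω e false ∈ A} ≤
      (1 - (p : ℝ)) * Pr p {ω | Function.update ω e false ∈ A} :=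
    mul_le_mul_of_nonneg_right (by linarith only [h1]) h3
  linarith only [h, h5, h6]

/-! ### The first inequality -/

/-! ### The second inequality -/

lemma diag_fourD_anti {k : ℕ} (hk : 2 ≤ k) : FourD k ⊆ FourD (k - 1) := by
  rintro ω ⟨⟨u, hu, h1⟩, ⟨u', hu', h2⟩, h3⟩
  have hsub : ball 0 (k - 1) ⊆ ball 0 k := by
    intro t ht
    simp only [Perc.mem_ball, Prod.fst_zero, Prod.snd_zero] at ht ⊢
    omega
  have hout : ∀ t ∈ sphere 0 k, t ∉ ball 0 (k - 1) := by
    rintro t ⟨ht1, ht2⟩ ht3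
    simp only [Perc.mem_ball, Prod.fst_zero, Prod.snd_zero] at ht1 ht2 ht3
    omega
  obtain ⟨x, hx, hcx⟩ := h1.to_sphere (v := 0) (r := k - 1)
    (by simp only [Perc.mem_ball, xx, Prod.fst_zero, Prod.snd_zero]; omega) (Or.inl (hout u hu))
  obtain ⟨x', hx', hcx'⟩ := h2.to_sphere (v := 0) (r := k - 1)
    (by simp only [Perc.mem_ball, yy, Prod.fst_zero, Prod.snd_zero]; omega) (Or.inl (hout u' hu'))
  exact ⟨⟨x, hx, hcx.mono_set Set.inter_subset_right⟩,
    ⟨x', hx', hcx'.mono_set Set.inter_subset_right⟩, fun h5 => h3 (h5.mono_set hsub)⟩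

end Pool.Agent.H89.Link

end
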