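import Pool.Agent.H94.BG.H31.PT.M09
import Pool.Agent.H94.BG.H31.PT.M31_4
import Pool.Agent.H94.BG.H31.PT.M34
import Pool.Agent.H94.BG.H31.PT.M34_2

/-! The parts of this file: H89.Perc.ArmExt, H85.Gamma.Bounds, H57.LF.Final, H83.EX.SigmaUpper, H83.EX.Scale, H90.NC.ArmDet, H90.NC.ArmExt, H90.NC.ArmGlue, H83.EX.WeakRSW, H12.QKZ.Tri, H12.QKZ.Num, H12.QKZ.Lam, H12.QKZ.Exist, H12.QKZ.Main, H56.EX.Base, H96.EX.SMa, H96.EX.SMb, H96.EX.SM, H96.EX.STM, H89.Link.Diag. -/

section

/-!
# Regularity of the one-arm probability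
-/

open MeasureTheory ProbabilityTheory unitInterval

namespace Pool.Agent.H89.Perc

end Pool.Agent.H89.Perc

end

section

/-!
# Bounds for the arms of an edge and for the derivative of the one-arm probability
-/

open MeasureTheory ProbabilityTheory unitInterval

namespace Pool.Agent.H85.Gamma

open Pool.Agent.H89.Perc

end Pool.Agent.H85.Gamma

end

section

/-!
# The lower bound `θ(p) ≥ c √(p - 1/2)`
-/

open MeasureTheory ProbabilityTheory unitInterval Filter Topology

namespace Pool.Agent.H57.LF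

open Pool.Agent.H89.Perc

end Pool.Agent.H57.LF

end

section

/-! # Upper bound for the mean cluster size -/

open MeasureTheory ProbabilityTheory unitInterval
open scoped ENNReal

namespace Pool.Agent.H83.EX

open Pool.Agent.H89.Perc

end Pool.Agent.H83.EX

end

section

/-! # Good scales: percolation probability and mean cluster size -/

open MeasureTheory ProbabilityTheory unitInterval
open scoped ENNReal

namespace Pool.Agent.H83.EX

open Pool.Agent.H89.Perc

end Pool.Agent.H83.EX

end

section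

/-!
# A pivotal edge for the event `W0`
-/

open MeasureTheory ProbabilityTheory unitInterval

namespace Pool.Agent.H61.NC

open Pool.Agent.H89.Perc

end Pool.Agent.H61.NC

end

section

/-!
# Extension of one-arm events in the box-crossing regime
-/

open MeasureTheory ProbabilityTheory unitInterval

namespace Pool.Agent.H61.NC

open Pool.Agent.H89.Perc Pool.Agent.H85.Strict

/-! ### Finite energy -/

/-! ### One step of the extension -/

end Pool.Agent.H61.NC

end

section

/-!
# Gluing of the arm of the middle vertex and the outer event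
-/

open MeasureTheory ProbabilityTheory unitInterval

namespace Pool.Agent.H61.NC

open Pool.Agent.H89.Perc

end Pool.Agent.H61.NC

end

section

/-! # Box crossing property at general densities -/

open MeasureTheory ProbabilityTheory unitInterval

namespace Pool.Agent.H83.EX

open Pool.Agent.H89.Perc

end Pool.Agent.H83.EX

end

section

/-!
# Triangularity
-/

namespace Pool.Agent.H12.QKZ

open H56.EX

end Pool.Agent.H12.QKZ

end

section

/-!
# The normalised fixed vector for admissible angles
-/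

namespace Pool.Agent.H12.QKZ

open H56.EX Matrix

set_option linter.unusedSectionVars false

variable {L : ℕ}

theorem Adm.sw {θ : ℤ → ℝ} {m : ℤ} (hL : 2 ≤ L) (h : Adm L θ m) (i : ℤ) :
    Adm L (Pool.Agent.H12.QKZ.sw L i θ) (tau L i m) := by
  rw [sw_eq_tau]
  exact {
    per := fun x => by rw [tau_add hL, h.per]
    pos := fun x => h.pos _
    lt := fun x => h.lt _
    inj := fun x y hxy => h.inj _ _ fun hc => hxy (tau_cg' hL i hc)
    max := fun x hx => by
      rw [tau_tau hL]
      apply h.max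
      intro hc
      apply hx
      apply tau_cg' hL i
      rw [tau_tau hL]; exact hc }

theorem W_pos {θ : ℤ → ℝ} {m : ℤ} (h : Adm L θ m) : ∀ k : ℕ, k + 1 ≤ L →
    PosAt (W θ m k : Matrix (Pat L) (Pat L) ℝ) (gk m k) := by
  intro k
  induction k with
  | zero => intro _; exact PosAt.one
  | succ k ih =>
    intro hk
    have hn : ¬ Cg L (m + 1 + k) m := not_cg_of_lt (by omega) (by omega)
    have h1 : 0 < θ m - θ (m + 1 + k) := sub_pos.2 (h.max _ hn)
    have h2 : θ m - θ (m + 1 + k) < 2 * Real.pi / 3 := lt_of_abs_lt (h.abs_lt _ _)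
    have hs := RR_stoch h (m + k) (m + 1 + k) hn
    rw [W, gk]
    split_ifs with he
    · exact PosAt.mul (PosAt.Rm_map (br_pos h1 h2) (br_lt_one h1 h2).le _) (ih (by omega)) hs.1
        (W_stoch h k (by omega)).1
    · have := PosAt.mul (f := id) (PosAt.Rm_id (br_pos h1 h2).le (br_lt_one h1 h2) (E (m + k)))
        (ih (by omega)) hs.1 (W_stoch h k (by omega)).1
      exact this

theorem gk_arc (m : ℤ) (P : Pat L) : ∀ k : ℕ, k + 1 ≤ L → ∀ l : ℕ, Even l → l < k →
    (gk m k P).m (m + l) = m + l + 1 := by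
  intro k
  induction k with
  | zero => intro _ l _ hl; omega
  | succ k ih =>
    intro hk l hl hlk
    rw [gk]
    split_ifs with he
    · rw [Function.comp_apply]
      rcases Nat.lt_or_ge l k with h | h
      · have h0 := ih (by omega) l hl h
        have hlk2 : l + 2 ≤ k := by
          rcases hl with ⟨a, ha⟩
          rcases he with ⟨b, hb⟩
          omega
        rw [E.other]
        · exact h0
        · intro hc; exact not_cg_of_lt (by omega) (by omega) (Cg.symm' hc)
        · intro hc; exact not_cg_of_lt (by omega) (by omega) (Cg.symm' hc)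
        · rw [h0]; intro hc; exact not_cg_of_lt (by omega) (by omega) (Cg.symm' hc)
        · rw [h0]; intro hc; exact not_cg_of_lt (by omega) (by omega) (Cg.symm' hc)
      · have : l = k := by omega
        subst this
        exact E.self _ _
    · rcases Nat.lt_or_ge l k with h | h
      · exact ih (by omega) l hl h
      · have : l = k := by omega
        subst this
        exact absurd hl he

theorem gk_const (hL : 2 ≤ L) (he : Even L) (m : ℤ) (P P' : Pat L) :
    gk m (L - 1) P = gk m (L - 1) P' := by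
  have h1 := gk_arc m P (L - 1) (by omega)
  have h2 := gk_arc m P' (L - 1) (by omega)
  apply Pat.ext
  funext x
  have hpos : (0 : ℤ) < L := by omega
  obtain ⟨r, hr⟩ : ∃ r : ℕ, (r : ℤ) = (x - m) % L :=
    ⟨((x - m) % L).toNat, Int.toNat_of_nonneg (Int.emod_nonneg _ hpos.ne')⟩
  have hrL : r < L := by
    have := Int.emod_lt_of_pos (x - m) hpos
    omega
  have hx : Cg L x (m + r) := by
    unfold Cg
    rw [hr, show x - (m + (x - m) % L) = (x - m) - (x - m) % L by ring]
    exact Int.dvd_self_sub_emod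
  refine Pat.eq_of_dvd hx ?_
  rcases Nat.even_or_odd r with hre | hro
  · have : r < L - 1 := by
      rcases he with ⟨a, ha⟩
      rcases hre with ⟨b, hb⟩
      omega
    rw [h1 r hre this, h2 r hre this]
  · obtain ⟨s, hs⟩ : ∃ s, r = s + 1 := ⟨r - 1, by rcases hro with ⟨b, hb⟩; omega⟩
    have hse : Even s := by
      rcases hro with ⟨b, hb⟩
      exact ⟨b, by omega⟩
    have g1 := congrArg (gk m (L - 1) P).m (h1 s hse (by omega))
    have g2 := congrArg (gk m (L - 1) P').m (h2 s hse (by omega))
    rw [Pat.inv] at g1 g2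
    rw [hs]
    push_cast
    rw [← add_assoc, ← g1, ← g2]

end Pool.Agent.H12.QKZ

end

section

/-!
# Normalisation by the base component
-/

namespace Pool.Agent.H12.QKZ

open H56.EX Matrix

variable {L : ℕ}

theorem Oset.sw {θ : ℤ → ℝ} (hL : 2 ≤ L) (h : Oset L θ) (i : ℤ) :
    Oset L (Pool.Agent.H12.QKZ.sw L i θ) := by
  obtain ⟨m, hm⟩ := h; exact ⟨_, hm.sw hL i⟩

theorem Oset.den {θ : ℤ → ℝ} (h : Oset L θ) (x y : ℤ) :
    q * zc (θ x) - q⁻¹ * zc (θ y) ≠ 0 := by
  obtain ⟨m, hm⟩ := h
  have h1 := hm.abs_lt y x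
  rw [abs_lt] at h1
  rw [q_inv, ← qc_q]
  exact den_ne_zero h1.1 (by linarith only [h1, h1.2, Real.pi_pos])

/-! ### Base patterns -/

/-! ### Closure under rotations -/

theorem Tk_succ (hL : 2 ≤ L) (θ : ℤ → ℝ) (k : ℕ) (hk : k + 1 < L) :
    Tk L θ (k + 1) = sw L k (Tk L θ k) := by
  funext x
  by_cases h1 : Cg L x k
  · rw [sw_of_i h1]
    have e1 := emod_of_cg (by omega) h1
    have e2 : (x + 1) % (L : ℤ) = (k + 1 : ℕ) :=
      emod_of_cg hk (by push_cast; exact Cg.add 1 h1)
    unfold Tk
    rw [if_pos (by rw [e1]; push_cast; omega), if_neg (by rw [e2]; push_cast; omega),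
      if_neg (by rw [e2]; push_cast; omega)]
  by_cases h2 : Cg L x (k + 1)
  · rw [sw_of_succ hL h2]
    have e1 : x % (L : ℤ) = (k + 1 : ℕ) := emod_of_cg hk (by push_cast; exact h2)
    have e2 : (x - 1) % (L : ℤ) = k := emod_of_cg (by omega) (by
      have := Cg.sub 1 h2
      rwa [add_sub_cancel_right] at this)
    unfold Tk
    rw [if_neg (by rw [e1]; omega), if_pos e1, if_neg (by rw [e2]; omega), if_pos e2]
    congr 1; push_cast; ring
  · rw [sw_other h1 h2]
    have e1 : x % (L : ℤ) ≠ k := by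
      intro h; apply h1; rw [← h]; exact cg_emod x
    have e2 : x % (L : ℤ) ≠ (k + 1 : ℕ) := by
      intro h; apply h2
      have := cg_emod (L := L) x
      rw [h] at this; push_cast at this; exact this
    unfold Tk
    by_cases h3 : x % (L : ℤ) < k
    · rw [if_pos (by push_cast; omega), if_pos h3]
    · rw [if_neg (by push_cast at e2 ⊢; omega), if_neg e2, if_neg h3, if_neg e1]

theorem closure_left (hL : 2 ≤ L) (C : (ℤ → ℝ) → Prop)
    (hC : ∀ θ : ℤ → ℝ, Oset L θ → ∀ i : ℤ, ¬ Cg L (i + 1) 0 → C θ → C (sw L i θ)) {θ : ℤ → ℝ}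
    (hθ : Oset L θ) (h : C θ) : C (fun x => θ (x + 1)) := by
  have hpos : (0 : ℤ) < L := by omega
  have key : ∀ k : ℕ, k < L → Oset L (Tk L θ k) ∧ C (Tk L θ k) := by
    intro k
    induction k with
    | zero =>
      intro _
      have : Tk L θ 0 = θ := by
        funext x
        unfold Tk
        have := Int.emod_nonneg x hpos.ne'
        rw [if_neg (by push_cast; omega)]
        split_ifs
        · simp
        · rfl
      rw [this]; exact ⟨hθ, h⟩
    | succ k ih =>
      intro hk
      obtain ⟨h1, h2⟩ := ih (by omega)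
      rw [Tk_succ hL θ k hk]
      refine ⟨h1.sw hL _, hC _ h1 _ ?_ h2⟩
      apply not_cg_of_lt <;> omega
  have h1 := (key (L - 1) (by omega)).2
  have h2 : Tk L θ (L - 1) = fun x => θ (x + 1) := by
    funext x
    unfold Tk
    have e1 := Int.emod_lt_of_pos x hpos
    split_ifs with g1 g2
    · rfl
    · have e2 : ((L - 1 : ℕ) : ℤ) = L - 1 := by push_cast [Nat.cast_sub (show 1 ≤ L by omega)]; ring
      rw [e2, ← hθ.per (x - (L - 1))]
      congr 1; ring
    · exfalso
      have e2 : ((L - 1 : ℕ) : ℤ) = L - 1 := by push_cast [Nat.cast_sub (show 1 ≤ L by omega)]; ring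
      rw [e2] at g1 g2
      omega
  rwa [h2] at h1

theorem closure_shift (hL : 2 ≤ L) (C : (ℤ → ℝ) → Prop)
    (hC : ∀ θ : ℤ → ℝ, Oset L θ → ∀ i : ℤ, ¬ Cg L (i + 1) 0 → C θ → C (sw L i θ)) {θ : ℤ → ℝ}
    (hθ : Oset L θ) (h : C θ) (k : ℕ) : C (fun x => θ (x + k)) := by
  induction k with
  | zero => simpa using h
  | succ k ih =>
    have h2 := closure_left hL C hC (hθ.shift k) ih
    have e : (fun x : ℤ => θ (x + 1 + k)) = fun x : ℤ => θ (x + ((k + 1 : ℕ) : ℤ)) := by
      funext x; congr 1; push_cast; ring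
    rw [← e]; exact h2

theorem closure_right (hL : 2 ≤ L) (C : (ℤ → ℝ) → Prop)
    (hC : ∀ θ : ℤ → ℝ, Oset L θ → ∀ i : ℤ, ¬ Cg L (i + 1) 0 → C θ → C (sw L i θ)) {θ : ℤ → ℝ}
    (hθ : Oset L θ) (h : C θ) : C (fun x => θ (x - 1)) := by
  have h1 := closure_shift hL C hC hθ h (L - 1)
  have e : (fun x : ℤ => θ (x + ((L - 1 : ℕ) : ℤ))) = fun x : ℤ => θ (x - 1) := by
    funext x
    rw [← hθ.per (x - 1)]
    congr 1
    push_cast [Nat.cast_sub (show 1 ≤ L by omega)]; ring
  rwa [e] at h1

theorem closure_sw (hL : 2 ≤ L) (C : (ℤ → ℝ) → Prop)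
    (hC : ∀ θ : ℤ → ℝ, Oset L θ → ∀ i : ℤ, ¬ Cg L (i + 1) 0 → C θ → C (sw L i θ)) {θ : ℤ → ℝ}
    (hθ : Oset L θ) (h : C θ) (i : ℤ) : C (sw L i θ) := by
  by_cases hi : Cg L (i + 1) 0
  · have h1 := closure_right hL C hC hθ h
    have hn : ¬ Cg L (i + 1 + 1) 0 := by
      intro h'
      have := Cg.trans' h' (Cg.symm' hi)
      exact not_Cg_succ hL (i + 1) (Cg.symm' this)
    have h2 := hC _ hθ.rot (i + 1) hn h1
    have h3 := closure_left hL C hC (hθ.rot.sw hL (i + 1)) h2
    have e : (fun x : ℤ => sw L (i + 1) (fun x => θ (x - 1)) (x + 1)) = sw L i θ := by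
      funext x
      unfold sw
      have e1 : Cg L (x + 1) (i + 1) ↔ Cg L x i := by
        unfold Cg; rw [show x + 1 - (i + 1) = x - i by ring]
      have e2 : Cg L (x + 1) (i + 1 + 1) ↔ Cg L x (i + 1) := by
        unfold Cg; rw [show x + 1 - (i + 1 + 1) = x - (i + 1) by ring]
      simp only [e1, e2, add_sub_cancel_right]
    rwa [e] at h3
  · exact hC θ hθ i hi h

/-! ### The base component does not vanish -/

end Pool.Agent.H12.QKZ

end

section

/-!
# The renormalised vector and its polynomiality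
-/

namespace Pool.Agent.H12.QKZ

open H56.EX Matrix MvPolynomial

variable {L : ℕ}

theorem sw_congr {i j : ℤ} (hc : Cg L i j) (θ : ℤ → ℝ) : sw L i θ = sw L j θ := by
  funext x
  unfold sw
  have e1 : Cg L x i ↔ Cg L x j := ⟨fun h' => Cg.trans' h' hc,
    fun h' => Cg.trans' h' (Cg.symm' hc)⟩
  have e2 : Cg L x (i + 1) ↔ Cg L x (j + 1) := ⟨fun h' => Cg.trans' h' (Cg.add 1 hc),
    fun h' => Cg.trans' h' (Cg.symm' (Cg.add 1 hc))⟩
  simp only [e1, e2]

theorem rot_inj {P P' : Pat L} (h : rot P = rot P') : P = P' := by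
  apply Pat.ext
  funext x
  have := congrArg (fun R : Pat L => R.m (x + 1)) h
  simp only [rot_m, add_sub_cancel_right, add_left_inj] at this
  exact this

end Pool.Agent.H12.QKZ

end

section

/-!
# The polynomial qKZ solution
-/

namespace Pool.Agent.H12.QKZ

open H56.EX Matrix MvPolynomial

variable {L : ℕ}

end Pool.Agent.H12.QKZ

end

section

/-! The base case of the leg formula: `F22` with no glued strand. -/

namespace H56.EX

open scoped BigOperators Classical


end H56.EX

end

section

/-!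
# The explicit sum in the form of the leg functions, for any number of legs

`SGen k M u v c z` is the sum over `ε ∈ {q, q²}^M`; `SM M = SGen 4 M q (q²)`.
Recursions, symmetry in `c` and `z`, degree in each `c l`.
-/

set_option autoImplicit false

namespace Pool.Agent.H96.EX

open Finset H56.EX

/-- the explicit sum for `k` legs, with weights `u` (for `ε = q`) and `v` (for `ε = q²`) -/
noncomputable def SGen (k M : ℕ) (u v : ℂ) (c : Fin k → ℂ) (z : ℕ → ℂ) : ℂ :=
  ∑ ε : Fin M → Bool,
    (∏ j : Fin M, (if ε j then u else v) * ∏ l : Fin k, (c l - ev (ε j) * z j)) *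
    ∏ j : Fin M, ∏ k : Fin M, if j < k then
      fpair (ev (ε j)) (ev (ε k)) (z j) (z k) else 1

lemma fpair_same (b : Bool) (z w : ℂ) : fpair (ev b) (ev b) z w = z ^ 2 + z * w + w ^ 2 := by
  simp [fpair]

lemma fpair_tf (z w : ℂ) : fpair (ev true) (ev false) z w =
    (w - H56.EX.q * z) ^ 3 / (w - z) := by
  have h : ev true ≠ ev false := q_ne_q_sq
  simp only [fpair, if_neg h]
  simp [ev]

lemma fpair_ft (z w : ℂ) : fpair (ev false) (ev true) z w =
    (z - H56.EX.q * w) ^ 3 / (z - w) := by
  have h : ev false ≠ ev true := q_ne_q_sq.symm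
  simp only [fpair, if_neg h]
  rw [if_neg]
  simp only [ev]
  exact fun h' => q_ne_q_sq h'.symm

lemma fpair_symm (b b' : Bool) (z w : ℂ) :
    fpair (ev b) (ev b') z w = fpair (ev b') (ev b) w z := by
  rcases b with _ | _ <;> rcases b' with _ | _
  · rw [fpair_same, fpair_same]; ring
  · rw [fpair_ft, fpair_tf]
  · rw [fpair_ft, fpair_tf]
  · rw [fpair_same, fpair_same]; ring

lemma fpair_gg_tf {z w : ℂ} (h : z ^ 3 ≠ w ^ 3) : fpair (ev true) (ev false) z w =
    gg H56.EX.q z w * (z ^ 2 + z * w + w ^ 2) := by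
  obtain ⟨h1, h2, h3⟩ := ne_of_cube h
  rw [fpair_tf, gg, factor_sq]
  field_simp

lemma fpair_gg_ft {z w : ℂ} (h : z ^ 3 ≠ w ^ 3) : fpair (ev false) (ev true) z w =
    gg H56.EX.q w z * (z ^ 2 + z * w + w ^ 2) := by
  rw [fpair_symm, fpair_gg_tf h.symm]; ring

/-- `SGen` is `SG` times the symmetric product, for parameters with distinct cubes. -/
theorem SGen_eq_SG {k M : ℕ} (u v : ℂ) (c : Fin k → ℂ) (z : ℕ → ℂ)
    (hz : ∀ i j : Fin M, i ≠ j → (z i) ^ 3 ≠ (z j) ^ 3) :
    SGen k M u v c z = prz M z *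
      SG H56.EX.q u v univ (List.ofFn c) (fun j : Fin M => z j) := by
  unfold SGen SG
  rw [Finset.powerset_univ, Finset.mul_sum]
  apply Fintype.sum_equiv (boolEquiv M)
  intro ε
  have hA : univ \ (boolEquiv M ε) = univ.filter fun j => ¬ (ε j = true) := by
    ext j; simp [boolEquiv]
  have hA' : (boolEquiv M ε) = univ.filter fun j => ε j = true := rfl
  rw [hA, hA']
  have e1 : (∏ j : Fin M, (if ε j = true then u else v) *
      ∏ l : Fin k, (c l - ev (ε j) * z j)) =
      (∏ j ∈ univ.filter (fun j => ε j = true), u * lg (List.ofFn c) (H56.EX.q * z j)) *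
      ∏ j ∈ univ.filter (fun j => ¬ (ε j = true)), v * lg (List.ofFn c) (H56.EX.q ^ 2 * z j) := by
    rw [← Finset.prod_filter_mul_prod_filter_not univ (fun j => ε j = true)]
    congr 1
    · apply Finset.prod_congr rfl
      intro j hj
      rw [mem_filter] at hj
      rw [lg_ofFn, if_pos hj.2, hj.2]
      simp [ev]
    · apply Finset.prod_congr rfl
      intro j hj
      rw [mem_filter] at hj
      have : ε j = false := by simpa using hj.2
      rw [lg_ofFn, if_neg hj.2, this]
      simp [ev]
  have e2 : (∏ j ∈ univ.filter (fun j => ε j = true), ∏ k ∈ univ.filter (fun j => ¬ (ε j = true)),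
      gg H56.EX.q (z j) (z k)) =
      ∏ j : Fin M, ∏ k : Fin M, if j < k then
        (if ε j = true ∧ ¬ (ε k = true) then gg H56.EX.q (z j) (z k) else 1) *
        (if ε k = true ∧ ¬ (ε j = true) then gg H56.EX.q (z k) (z j) else 1) else 1 := by
    rw [← prod_pairs (fun j k => if ε j = true ∧ ¬ (ε k = true) then
      gg H56.EX.q (z j) (z k) else 1)]
    · rw [Finset.prod_filter]
      apply Finset.prod_congr rfl
      intro j _
      rw [Finset.prod_filter]
      by_cases hj : ε j = true
      · simp [hj]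
      · simp [hj]
    · intro j
      simp
  rw [e1, e2]
  have e3 : (∏ j : Fin M, ∏ k : Fin M, if j < k then
      fpair (ev (ε j)) (ev (ε k)) (z j) (z k) else 1) = prz M z *
      ∏ j : Fin M, ∏ k : Fin M, if j < k then
        (if ε j = true ∧ ¬ (ε k = true) then gg H56.EX.q (z j) (z k) else 1) *
        (if ε k = true ∧ ¬ (ε j = true) then gg H56.EX.q (z k) (z j) else 1) else 1 := by
    unfold prz
    rw [← Finset.prod_mul_distrib]
    apply Finset.prod_congr rfl
    intro j _
    rw [← Finset.prod_mul_distrib]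
    apply Finset.prod_congr rfl
    intro k _
    by_cases hjk : j < k
    · rw [if_pos hjk, if_pos hjk, if_pos hjk]
      have hc := hz j k hjk.ne
      rcases hj : ε j with _ | _ <;> rcases hk : ε k with _ | _
      · rw [fpair_same]; simp
      · rw [fpair_gg_ft hc]; simp; ring
      · rw [fpair_gg_tf hc]; simp; ring
      · rw [fpair_same]; simp
    · simp [hjk]
  rw [e3]
  ring

end Pool.Agent.H96.EX

end

section

/-!
# The polynomial `S` extending the explicit sum `SGen` to all values of the parameters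

* `SPoly k M u v : MvPolynomial (Fin k ⊕ Fin M) ℂ`, `S k M u v c z` = its value;
* `S_eq_SGen` : `S = SGen` for pairwise distinct `z`;
* `S_continuous`, `S_symm_c`, `S_symm_z`, `S_poly` (degree `≤ M` in each leg), `S_rec1`, `S_rec2`
  (recursions, for ALL values), `S_zero`.
-/

set_option autoImplicit false

namespace Pool.Agent.H96.EX

open Finset H56.EX

lemma SGen_symm_z {k M : ℕ} (u v : ℂ) (c : Fin k → ℂ) {z z' : ℕ → ℂ} (σ : Equiv.Perm (Fin M))
    (h : ∀ j : Fin M, z' j = z (σ j)) : SGen k M u v c z' = SGen k M u v c z := by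
  unfold SGen
  apply Fintype.sum_equiv (Equiv.arrowCongr σ (Equiv.refl Bool))
  intro ε
  set ε' := (Equiv.arrowCongr σ (Equiv.refl Bool)) ε with hε'
  have he : ∀ j, ε' (σ j) = ε j := by
    intro j; simp [hε', Equiv.arrowCongr]
  congr 1
  · rw [← Equiv.prod_comp σ (fun j => (if ε' j = true then u else v) *
      ∏ l : Fin k, (c l - ev (ε' j) * z j))]
    apply Finset.prod_congr rfl
    intro j _
    rw [he, h]
  · rw [← prod_lt_perm (fun j k => fpair (ev (ε' j)) (ev (ε' k)) (z j) (z k))
      (fun j k => fpair_symm _ _ _ _) σ]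
    apply Finset.prod_congr rfl
    intro j _
    apply Finset.prod_congr rfl
    intro k _
    rw [he, he, h, h]

/-! ### Vandermonde product -/

/-! ### numerators -/

lemma fnum_eq {b b' : Bool} {z w : ℂ} (h : z ≠ w) :
    fnum H56.EX.q b b' z w = (w - z) * fpair (ev b) (ev b') z w := by
  have h1 : w - z ≠ 0 := sub_ne_zero.2 h.symm
  have h2 : z - w ≠ 0 := sub_ne_zero.2 h
  rcases b with _ | _ <;> rcases b' with _ | _
  · rw [fpair_same]; simp only [fnum, if_true]; ring
  · rw [fpair_ft]; simp only [fnum]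
    simp only [Bool.false_eq_true, if_false]
    field_simp
    ring
  · rw [fpair_tf]; simp only [fnum]
    simp only [Bool.true_eq_false, if_false, if_true]
    field_simp
  · rw [fpair_same]; simp only [fnum, if_true]; ring

open MvPolynomial in
lemma NPoly_eq {k M : ℕ} (u v : ℂ) (c : Fin k → ℂ) (z : ℕ → ℂ)
    (hz : ∀ i j : Fin M, i ≠ j → z i ≠ z j) :
    eval (pt c z) (NPoly k M u v) = dz M z * SGen k M u v c z := by
  rw [NPoly_eval]
  unfold SGen dz
  rw [Finset.mul_sum]
  apply Finset.sum_congr rfl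
  intro ε _
  have e : (∏ j : Fin M, ∏ k : Fin M, if j < k then
      fnum H56.EX.q (ε j) (ε k) (z j) (z k) else 1) =
      (∏ j : Fin M, ∏ k : Fin M, if j < k then z k - z j else 1) *
      ∏ j : Fin M, ∏ k : Fin M, if j < k then
        fpair (ev (ε j)) (ev (ε k)) (z j) (z k) else 1 := by
    rw [← Finset.prod_mul_distrib]
    apply Finset.prod_congr rfl
    intro j _
    rw [← Finset.prod_mul_distrib]
    apply Finset.prod_congr rfl
    intro k _
    split_ifs with h
    · exact fnum_eq (hz j k h.ne)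
    · ring
  rw [e]
  ring

/-! ### continuity along a line -/

open MvPolynomial in
lemma NPoly_swap {k M : ℕ} (u v : ℂ) (c : Fin k → ℂ) (z : ℕ → ℂ) {a b : Fin M} (hab : a ≠ b) :
    eval (pt c (ext0 (fun j : Fin M => z (Equiv.swap a b j)))) (NPoly k M u v) =
      -eval (pt c z) (NPoly k M u v) := by
  have hF : Continuous (fun t : ℂ => eval (pt c (ext0 (fun j : Fin M =>
      zt z t (Equiv.swap a b j)))) (NPoly k M u v)) := by
    apply eval_pt_cont _ continuous_const
    apply ext0_cont
    apply continuous_pi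
    intro j
    exact (continuous_apply _).comp (zt_cont z)
  have hG : Continuous (fun t : ℂ => -eval (pt c (zt z t)) (NPoly k M u v)) :=
    (eval_pt_cont _ continuous_const (zt_cont z)).neg
  have := line_ext (M := M) z hF hG (by
    intro t ht
    have h1 := ne_of_cubes ht
    have h2 : ∀ i j : Fin M, i ≠ j → ext0 (fun j : Fin M => zt z t (Equiv.swap a b j)) i ≠
        ext0 (fun j : Fin M => zt z t (Equiv.swap a b j)) j := by
      intro i j hij
      rw [ext0_apply, ext0_apply]
      exact h1 _ _ (fun h => hij ((Equiv.swap a b).injective h))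
    rw [NPoly_eq u v c _ h1, NPoly_eq u v c _ h2,
      SGen_symm_z u v c (z := zt z t) (Equiv.swap a b) (fun j => ext0_apply _ j),
      dz_perm (z := zt z t) (Equiv.swap a b) (fun j => ext0_apply _ j),
      Equiv.Perm.sign_swap hab]
    push_cast
    ring)
  simp only [zt_zero] at this
  exact this

open MvPolynomial in
lemma NPoly_zero {k M : ℕ} (u v : ℂ) (x : Fin k ⊕ Fin M → ℂ) {a b : Fin M} (hab : a ≠ b)
    (h : x (Sum.inr a) = x (Sum.inr b)) : eval x (NPoly k M u v) = 0 := by
  have h1 := NPoly_swap (k := k) u v (fun l => x (Sum.inl l)) (ext0 (fun j : Fin M => x (Sum.inr j)))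
    hab
  have e1 : pt (k := k) (M := M) (fun l => x (Sum.inl l)) (ext0 (fun j : Fin M => x (Sum.inr j))) =
      x := by
    funext s
    rcases s with l | j
    · rfl
    · simp [pt]
  have e2 : pt (k := k) (M := M) (fun l => x (Sum.inl l)) (ext0 (fun j : Fin M =>
      ext0 (fun j : Fin M => x (Sum.inr j)) (Equiv.swap a b j))) = x := by
    funext s
    rcases s with l | j
    · rfl
    · have : pt (k := k) (M := M) (fun l => x (Sum.inl l)) (ext0 (fun j : Fin M =>
          ext0 (fun j : Fin M => x (Sum.inr j)) (Equiv.swap a b j))) (Sum.inr j) =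
          x (Sum.inr (Equiv.swap a b j)) := by
        simp [pt]
      rw [this]
      rcases eq_or_ne j a with rfl | hja
      · rw [Equiv.swap_apply_left, h]
      rcases eq_or_ne j b with rfl | hjb
      · rw [Equiv.swap_apply_right, h]
      · rw [Equiv.swap_apply_of_ne_of_ne hja hjb]
  rw [e1, e2] at h1
  have h2 : (2 : ℂ) * eval x (NPoly k M u v) = 0 := by linear_combination h1
  rcases mul_eq_zero.1 h2 with h3 | h3
  · norm_num at h3
  · exact h3

/-! ### divisibility -/

section dvd

open MvPolynomial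

variable {σ : Type*} [DecidableEq σ]

end dvd

open MvPolynomial in
lemma exists_SPoly (k M : ℕ) (u v : ℂ) : ∃ P, NPoly k M u v = DPoly k M * P := by
  have := prod_dvd (k := k) (NPoly k M u v)
    ((univ : Finset (Fin M × Fin M)).filter (fun p => p.1 < p.2))
    (fun p hp => (mem_filter.1 hp).2) (by
      intro p hp
      have hp' := (mem_filter.1 hp).2
      apply MvPolynomial.funext
      intro x
      rw [map_zero]
      have e : eval x (sb (Sum.inr p.1) (Sum.inr p.2) (NPoly k M u v)) =
          eval (fun s => if s = Sum.inr p.2 then x (Sum.inr p.1) else x s) (NPoly k M u v) := by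
        unfold sb
        have h1 : ∀ Q : MvPolynomial (Fin k ⊕ Fin M) ℂ,
            eval x ((aeval (fun s => if s = Sum.inr p.2 then
              (X (Sum.inr p.1) : MvPolynomial (Fin k ⊕ Fin M) ℂ) else X s)) Q) =
            eval (fun s => if s = Sum.inr p.2 then x (Sum.inr p.1) else x s) Q := by
          intro Q
          rw [← MvPolynomial.bind₁, ← MvPolynomial.coe_aeval_eq_eval, ← MvPolynomial.coe_aeval_eq_eval]
          simp only [RingHom.coe_coe]
          rw [MvPolynomial.aeval_bind₁]
          congr 2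
          funext s
          split_ifs <;> simp
        exact h1 _
      rw [e]
      apply NPoly_zero u v _ (a := p.1) (b := p.2) hp'.ne
      have : (Sum.inr p.1 : Fin k ⊕ Fin M) ≠ Sum.inr p.2 := fun h => hp'.ne (Sum.inr_injective h)
      simp [this])
  exact this

/-- The polynomial `S`. -/
noncomputable def SPoly (k M : ℕ) (u v : ℂ) : MvPolynomial (Fin k ⊕ Fin M) ℂ :=
  Classical.choose (exists_SPoly k M u v)

lemma SPoly_spec (k M : ℕ) (u v : ℂ) : NPoly k M u v = DPoly k M * SPoly k M u v :=
  Classical.choose_spec (exists_SPoly k M u v)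

/-- The value of the polynomial `S` at legs `c` and strands `z`. -/
noncomputable def S (k M : ℕ) (u v : ℂ) (c : Fin k → ℂ) (z : ℕ → ℂ) : ℂ :=
  MvPolynomial.eval (pt c z) (SPoly k M u v)

/-- for pairwise distinct strand parameters `S` is the explicit sum -/
theorem S_eq_SGen {k M : ℕ} (u v : ℂ) (c : Fin k → ℂ) (z : ℕ → ℂ)
    (hz : ∀ i j : Fin M, i ≠ j → z i ≠ z j) : S k M u v c z = SGen k M u v c z := by
  have h1 := NPoly_eq u v c z hz
  rw [SPoly_spec, map_mul, DPoly_eval] at h1
  exact mul_left_cancel₀ (dz_ne_zero hz) h1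

theorem S_continuous {k M : ℕ} (u v : ℂ) {X' : Type*} [TopologicalSpace X']
    {c : X' → Fin k → ℂ} {z : X' → ℕ → ℂ} (hc : Continuous c) (hz : Continuous z) :
    Continuous (fun t => S k M u v (c t) (z t)) := eval_pt_cont _ hc hz

/-! ### degree in a leg parameter -/

end Pool.Agent.H96.EX

end

section

/-!
# Interface for `H56.EX.SM`

`SM_S` : `SM M c z = S 4 M q (q²) c z` for pairwise distinct `z`;
`SM_zero`, `SM_symm_c`, `SM_symm_z`, `SM_poly`, `SM_rec1`, `SM_rec2`, `SM_unique`.
For all values of the parameters (also coinciding strands) use `S 4 M q (q²)` of `SMb.lean`.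
-/

set_option autoImplicit false

namespace Pool.Agent.H96.EX

open Finset H56.EX

/-- four legs: the polynomial `S` for `SM` -/
noncomputable def S4 (M : ℕ) (c : Fin 4 → ℂ) (z : ℕ → ℂ) : ℂ :=
  S 4 M H56.EX.q (H56.EX.q ^ 2) c z

end Pool.Agent.H96.EX

end

section

/-!
# Bridge: `S` and the sum `SG` over `range M` with a list of legs (helper56's `TM`)
-/

set_option autoImplicit false

namespace Pool.Agent.H96.EX

open Finset H56.EX

/-- four legs -/
theorem S4_eq_SG_range {M : ℕ} (a b c d : ℂ) (z : ℕ → ℂ)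
    (hz : ∀ i j : Fin M, i ≠ j → (z i) ^ 3 ≠ (z j) ^ 3) :
    S4 M ![a, b, c, d] z =
      prz M z * SG H56.EX.q H56.EX.q (H56.EX.q ^ 2) (range M) [a, b, c, d] z := by
  rw [S4, S_eq_SGen _ _ _ _ (ne_of_cubes hz), SGen_eq_SG _ _ _ _ hz, range_eq_map, SG_map]
  rfl

end Pool.Agent.H96.EX

end

section

/-!
# LINK module `Diag`: four arms at a diagonal pair of vertices and four arms of an edge

`x = (0, 0)`, `y = (1, -1)`, `z = (1, 0)`, `w = (0, -1)`: the corners of the face `q = (0, -1)`;
`e = (0, 0, false)` joins `x, z`; `g = (1, -1, true)` joins `y, z`; `f = (0, -1, true)` joins `w, x`.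
Clusters `C(v)` are taken in `ball 0 k` (all four points are in it for `k ≥ 1`).

`fourD_le_a4`.  Let `ω ∈ FourD k`.
* `z ∈ C(y)`: `e` is closed, `ω ∈ A4 e k`.
* `z ∈ C(x)`: `g` is closed; restricted to `ball (1, -1) (k - 1) ⊆ ball 0 k` this is `A4 g (k - 1)` (`src g = y`; the
  path from `z` goes through `x` to the sphere; cut it at `sphere y (k-1)`).
* otherwise: `Function.update ω g true ∈ A4 e k` (now `z ∈ C(y)`, `x` is not joined to it).
  `Pr p {ω | update ω g true ∈ A} ≤ Pr p A / p` (independence of the edge `g`).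
Then `Pr_A4` and `a4_anti`.

`a4_le_fourD`.  Let `ω ∈ A4 e k`, `ω₀ = close e ω` (the clusters are now those of `ω₀`).
* `y ∈ C(z)`: `ω₀ ∈ FourD k`.
* `y ∉ C(z)`, `y ∉ C(x)`: `update ω₀ g true ∈ FourD k`.
* `y ∈ C(x)`, `w ∈ C(x)`: the reflection `(a, b) ↦ (1 - a, b)` of `ω₀` is in `FourD (k - 1)`
  (`z ↦ x`, `w ↦ y`; `ball (1, 0) (k - 1) ⊆ ball 0 k`).
* `y ∈ C(x)`, `w ∉ C(x)`, `w ∉ C(z)`: the same for `update ω₀ f true`.
* `y ∈ C(x)`, `w ∈ C(z)`: impossible (planarity).  Let `c` be a path sum (`exists_pathSum` of `Link/Potential.lean`) of an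
  open path from `x` to `y` in `ball 0 k`, `A = c + 1_e + 1_g` (all degrees even, finite support), `G = pot A H`,
  `G (lowFace e') + G (src e') = A e'` (`pot_even`).  `A` has no edge at any vertex of `C(z)` except `z` (its edges join
  vertices of `C(x)`, or are `e`, `g`).  So around every vertex `v ∈ C(z)`, `v ≠ z`, the four faces have the same colour
  `G`, and neighbours in `C(z) \ {z}` share a face, so this colour is constant along an open path from `w` to the last
  vertex `v` before `z`; around `w` it is `G q` (`q = (0, -1)` is a face at `w`).  `v ∈ {(2, 0), (1, 1)}` (`v ≠ x, y`), and the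
  face `(1, 0)` contains both; so `G (1, 0) = G q`.  But from `q` to the face `(0, 0)` one crosses `e` (`A e = 1`,
  because `c e = 0`), and from `(0, 0)` to `(1, 0)` one crosses `(1, 0, true)` (`A = 0`, it joins `z` and `(1, 1)`, not
  in `C(x)`; if it is closed also `c = 0`).  So `G (1, 0) = G q + 1`, contradiction.
  (Take the path from `w` to `z` with `z` only at the end: `Conn` in `ball 0 k \ {z}` to a neighbour of `z`.)
-/

set_option autoImplicit false

open MeasureTheory ProbabilityTheory unitInterval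

namespace Pool.Agent.H89.Link

open Pool.Agent.H89.Perc (Vert Edge Config Pr half)
open Pool.Agent.H61.NC (a4)
open Pool.Agent.H89.Perc (src tgt lowFace ball sphere)

/-! ### Clusters -/

/-- A path stays in the cluster of its first vertex. -/
private lemma diag_inside {ω : Config} {S : Set Vert} {u v : Vert} (h : Perc.Conn ω S u v) :
    Perc.Conn ω {t | Perc.Conn ω S u t} u v := by
  refine h.induction_right (P := fun t => Perc.Conn ω {t | Perc.Conn ω S u t} u t) ?_ ?_
  · exact Perc.Conn.refl (Perc.Conn.refl h.mem_left)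
  · intro a b ha hs ih
    exact ih.tail ⟨ha, ha.tail hs, hs.2.2⟩

/-- Opening an edge which has no end point in the cluster of `u` does not change this cluster. -/
private lemma diag_update {ω : Config} {S : Set Vert} {u v : Vert} {e : Edge}
    (h1 : ¬ Perc.Conn ω S u (src e)) (h2 : ¬ Perc.Conn ω S u (tgt e))
    (h : Perc.Conn (Function.update ω e true) S u v) : Perc.Conn ω S u v := by
  refine h.induction_right (P := fun t => Perc.Conn ω S u t) (Perc.Conn.refl h.mem_left) ?_
  rintro a b - ⟨ha, hb, e', he', ho⟩ ih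
  by_cases hee : e' = e
  · subst hee
    rcases he' with ⟨h3, _⟩ | ⟨h3, _⟩
    · exact absurd (h3 ▸ ih) h1
    · exact absurd (h3 ▸ ih) h2
  · rw [Function.update_of_ne hee] at ho
    exact ih.tail ⟨ha, hb, e', he', ho⟩

private lemma diag_mono {ω : Config} {S : Set Vert} {u v : Vert} (e : Edge)
    (h : Perc.Conn ω S u v) : Perc.Conn (Function.update ω e true) S u v := by
  refine h.mono le_rfl fun e' he' => ?_
  by_cases hee : e' = e
  · subst hee; simp
  · rw [Function.update_of_ne hee]; exact he'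

private lemma diag_step (ω : Config) {S : Set Vert} {e : Edge} (h1 : src e ∈ S) (h2 : tgt e ∈ S) :
    Perc.Conn (Function.update ω e true) S (src e) (tgt e) :=
  Perc.Step.conn ⟨h1, h2, e, Or.inl ⟨rfl, rfl⟩, by simp⟩

private lemma diag_open {ω : Config} {S : Set Vert} {e : Edge} (h1 : src e ∈ S) (h2 : tgt e ∈ S)
    (h : ω e = true) : Perc.Conn ω S (src e) (tgt e) :=
  Perc.Step.conn ⟨h1, h2, e, Or.inl ⟨rfl, rfl⟩, h⟩

/-! ### Probabilities -/

/-! ### The first inequality -/

private lemma diag_sub1 {k : ℕ} (hk : 2 ≤ k) :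
    FourD k ⊆ (Pool.Agent.H61.NC.A4 dE k ∪ Pool.Agent.H61.NC.A4 dG (k - 1)) ∪
      {ω | Function.update ω dG true ∈ Pool.Agent.H61.NC.A4 dE k} := by
  rintro ω ⟨⟨u, hu, hxu⟩, ⟨u', hu', hyu⟩, hxy⟩
  have hx : xx ∈ ball 0 k := hxu.mem_left
  have hy : yy ∈ ball 0 k := hyu.mem_left
  have hz : dz ∈ ball 0 k := by
    simp only [Perc.mem_ball, Prod.fst_zero, Prod.snd_zero]; omega
  by_cases h1 : Perc.Conn ω (ball 0 k) yy dz
  · left; left
    have hcl : ω dE = false := by
      by_contra h
      rw [Bool.not_eq_false] at h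
      exact hxy ((diag_open (e := dE) (S := ball 0 k) hx hz h).trans h1.symm)
    refine ⟨⟨u, hu, ?_⟩, ⟨u', hu', ?_⟩, ?_⟩
    · rw [diag_close_eq hcl]; exact hxu
    · rw [diag_close_eq hcl]; exact h1.symm.trans hyu
    · rw [diag_close_eq hcl]
      intro h
      exact hxy (h.trans h1.symm)
  by_cases h2 : Perc.Conn ω (ball 0 k) xx dz
  · left; right
    have hcl : ω dG = false := by
      by_contra h
      rw [Bool.not_eq_false] at h
      exact h1 (diag_open (e := dG) (S := ball 0 k) hy hz h)
    have hsub : ball (src dG) (k - 1) ⊆ ball 0 k := by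
      intro t ht
      simp only [Perc.mem_ball, src, Prod.fst_zero, Prod.snd_zero] at ht ⊢
      omega
    have hout : ∀ t ∈ sphere 0 k, t ∉ ball (src dG) (k - 1) ∨ t ∈ sphere (src dG) (k - 1) := by
      rintro t ⟨ht1, ht2⟩
      by_cases ht3 : t ∈ ball (src dG) (k - 1)
      · right
        refine ⟨ht3, ?_⟩
        simp only [Perc.mem_ball, src, Prod.fst_zero, Prod.snd_zero] at ht1 ht2 ht3 ⊢
        omega
      · exact Or.inl ht3
    have hz' : dz ∈ ball (src dG) (k - 1) := by
      simp only [Perc.mem_ball, src]; omega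
    obtain ⟨a, ha, hca⟩ := hyu.to_sphere (v := src dG) (r := k - 1) Perc.self_mem_ball (hout _ hu')
    obtain ⟨b, hb, hcb⟩ := (h2.symm.trans hxu).to_sphere (v := src dG) (r := k - 1) hz'
      (hout _ hu)
    refine ⟨⟨a, ha, ?_⟩, ⟨b, hb, ?_⟩, ?_⟩
    · rw [diag_close_eq hcl]; exact hca.mono_set Set.inter_subset_right
    · rw [diag_close_eq hcl]; exact hcb.mono_set Set.inter_subset_right
    · rw [diag_close_eq hcl]
      intro h
      exact h1 (h.mono_set hsub)
  right
  have hcl0 : ω dE = false := by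
    by_contra h
    rw [Bool.not_eq_false] at h
    exact h2 (diag_open (e := dE) (S := ball 0 k) hx hz h)
  have hcl : Function.update ω dG true dE = false := by
    rw [Function.update_of_ne (by decide)]; exact hcl0
  refine ⟨⟨u, hu, ?_⟩, ⟨u', hu', ?_⟩, ?_⟩
  · rw [diag_close_eq hcl]; exact diag_mono _ hxu
  · rw [diag_close_eq hcl]
    exact (diag_step ω (e := dG) (S := ball 0 k) hy hz).symm.trans (diag_mono _ hyu)
  · rw [diag_close_eq hcl]
    intro h
    exact h2 (diag_update (e := dG) hxy h2 h)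

theorem fourD_le_a4 (p : I) (h1 : 1 / 4 ≤ (p : ℝ)) {k : ℕ} (hk : 2 ≤ k) :
    Pr p (FourD k) ≤ 6 * a4 p (k - 1) := by
  have h2 := Perc.Pr_mono (p := p) (diag_sub1 hk)
  have h3 := Perc.Pr_union_le (p := p) (A := Pool.Agent.H61.NC.A4 dE k ∪
    Pool.Agent.H61.NC.A4 dG (k - 1))
    (B := {ω | Function.update ω dG true ∈ Pool.Agent.H61.NC.A4 dE k})
  have h4 := Perc.Pr_union_le (p := p) (A := Pool.Agent.H61.NC.A4 dE k)
    (B := Pool.Agent.H61.NC.A4 dG (k - 1))
  have h5 := diag_pr_true p h1 (Pool.Agent.H61.NC.localOn_A4 dE k) dG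
  rw [Pool.Agent.H61.NC.Pr_A4] at h4 h5
  rw [Pool.Agent.H61.NC.Pr_A4] at h4
  have h6 := Pool.Agent.H61.NC.a4_anti p (r := k - 1) (r' := k) (by omega) (by omega)
  linarith only [h2, h3, h4, h5, h6]

/-! ### The second inequality -/

/-- Planarity. -/
private lemma diag_planar {k : ℕ} {ω : Config} (he : ω dE = false)
    (hxy : Perc.Conn ω (ball 0 k) xx yy) (hzw : Perc.Conn ω (ball 0 k) dw dz)
    (hxz : ¬ Perc.Conn ω (ball 0 k) xx dz) : False := by
  obtain ⟨c, hc1, -, hc3⟩ := exists_pathSum (diag_inside hxy)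
  set A : Edge → ZMod 2 := fun e' => (c e' + Perc.one dE e') + Perc.one dG e' with hA
  have hA0 : ∀ e', c e' = 0 → e' ≠ dE → e' ≠ dG → A e' = 0 := by
    intro e' h1 h2 h3
    simp only [hA, h1, Perc.one, h2, h3, if_false, add_zero]
  have hsup : ∀ e' : Edge, ¬ (-((2 * k + 2 : ℕ) : ℤ) < e'.1 + e'.2.1 ∧
      e'.1 + e'.2.1 + 1 < ((2 * k + 2 : ℕ) : ℤ)) → A e' = 0 := by
    intro e' h
    apply hA0
    · by_contra hce
      have h1 := (hc1 e' hce).2.1.mem_right
      simp only [Perc.mem_ball, src, Prod.fst_zero, Prod.snd_zero] at h1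
      omega
    · rintro rfl
      simp only at h
      omega
    · rintro rfl
      simp only at h
      omega
  have hv : ∀ V, Perc.vsum A V = 0 := by
    intro V
    have h1 := Perc.vsum_add (fun e' => c e' + Perc.one dE e') (Perc.one dG) V
    have h2 := Perc.vsum_add c (Perc.one dE) V
    rw [hA, h1, h2, hc3, Perc.vsum_one, Perc.vsum_one]
    have s1 : src dE = xx := rfl
    have s2 : tgt dE = dz := rfl
    have s3 : src dG = yy := rfl
    have s4 : tgt dG = dz := rfl
    rw [s1, s2, s3, s4]
    have t1 := CharTwo.add_self_eq_zero (if V = xx then (1 : ZMod 2) else 0)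
    have t2 := CharTwo.add_self_eq_zero (if V = yy then (1 : ZMod 2) else 0)
    have t3 := CharTwo.add_self_eq_zero (if V = dz then (1 : ZMod 2) else 0)
    linear_combination t1 + t2 + t3
  have hG := pot_even (A := A) (H := 2 * k + 2) hsup hv
  set G := pot A (2 * k + 2) with hGdef
  -- the clusters of `x` and `z` are disjoint
  have hdis : ∀ v, Perc.Conn ω (ball 0 k) dw v → ¬ Perc.Conn ω (ball 0 k) xx v :=
    fun v h1 h2 => hxz (h2.trans (h1.symm.trans hzw))
  -- no edge of `A` at the vertices of `C(z) \ {z}`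
  have hvert : ∀ v, Perc.Conn ω (ball 0 k) dw v → v ≠ dz → ∀ e', (src e' = v ∨ tgt e' = v) →
      A e' = 0 := by
    intro v h1 h2 e' h3
    have hx := hdis v h1
    apply hA0
    · by_contra hce
      obtain ⟨-, g1, g2⟩ := hc1 e' hce
      rcases h3 with h3 | h3
      · exact hx (h3 ▸ g1)
      · exact hx (h3 ▸ g2)
    · rintro rfl
      rcases h3 with h3 | h3
      · exact hx (h3 ▸ Perc.Conn.refl hxy.mem_left)
      · exact h2 h3.symm
    · rintro rfl
      rcases h3 with h3 | h3
      · exact hx (h3 ▸ hxy)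
      · exact h2 h3.symm
  -- the four faces at a vertex of `C(z) \ {z}`
  have hface : ∀ a b : ℤ, Perc.Conn ω (ball 0 k) dw (a, b) → (a, b) ≠ dz →
      G (a, b) = G (a - 1, b) ∧ G (a, b) = G (a, b - 1) ∧ G (a, b) = G (a - 1, b - 1) := by
    intro a b h1 h2
    have g1 := hG (a, b, true)
    rw [hvert (a, b) h1 h2 (a, b, true) (Or.inl rfl)] at g1
    have g2 := hG (a, b, false)
    rw [hvert (a, b) h1 h2 (a, b, false) (Or.inl rfl)] at g2
    have g3 := hG (a - 1, b, false)
    rw [hvert (a, b) h1 h2 (a - 1, b, false) (Or.inr (by simp [tgt]))] at g3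
    rw [Perc.z2_add_eq_zero] at g1 g2 g3
    simp only [lowFace, src, if_true, Bool.false_eq_true, if_false] at g1 g2 g3
    exact ⟨g1.symm, g2.symm, by rw [g3]; exact g1.symm⟩
  -- the path from `w` to `z`
  have hw : dw ∈ ({dz} : Set Vert)ᶜ := by
    simp only [Set.mem_compl_iff, Set.mem_singleton_iff]; decide
  obtain ⟨v, v', hv1, hv2, hv3, -⟩ := hzw.exists_hit (T := {dz}) hw rfl
  rw [Set.mem_singleton_iff] at hv3
  subst hv3
  have hGc : G dw = G v := by
    have hin : Perc.Conn ω {t | Perc.Conn ω (ball 0 k \ {dz}) dw t} dw v := diag_inside hv1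
    refine Perc.Conn.const (f := G) hin ?_
    intro e' g1 g2 _
    have k1 : Perc.Conn ω (ball 0 k) dw (src e') := Perc.Conn.mono_set Set.sdiff_subset g1
    have k2 : Perc.Conn ω (ball 0 k) dw (tgt e') := Perc.Conn.mono_set Set.sdiff_subset g2
    have k3 : tgt e' ≠ dz := fun h => g2.mem_right.2 h
    obtain ⟨a, b, t⟩ := e'
    cases t
    · have := (hface (a + 1) b k2 k3).1
      rw [add_sub_cancel_right] at this
      exact this.symm
    · have := (hface a (b + 1) k2 k3).2.1
      rw [add_sub_cancel_right] at this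
      exact this.symm
  have hvz : Perc.Conn ω (ball 0 k) dw v := hv1.mono_set Set.sdiff_subset
  have hvne : v ≠ dz := fun h => hv1.mem_right.2 h
  have hvx : v ≠ xx := by
    rintro rfl
    exact hdis _ hvz (Perc.Conn.refl hxy.mem_left)
  have hvy : v ≠ yy := by
    rintro rfl
    exact hdis _ hvz hxy
  have hv10 : G v = G (1, 0) := by
    obtain ⟨a, b⟩ := v
    have h1 := hv2.cases
    have h2 := hface a b hvz hvne
    have h3 : (a = 2 ∧ b = 0) ∨ (a = 1 ∧ b = 1) := by
      simp only [ne_eq, Prod.mk.injEq, xx, yy] at h1 hvx hvy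
      omega
    rcases h3 with ⟨rfl, rfl⟩ | ⟨rfl, rfl⟩
    · exact h2.1
    · exact h2.2.1
  have he1 : c dE = 0 := by
    by_contra h
    have := (hc1 _ h).1
    rw [he] at this
    exact Bool.false_ne_true this
  have hl1 := hG dE
  have hA1 : A dE = 1 := by
    simp [hA, he1, Perc.one]
  rw [hA1, Perc.z2_add_eq_one] at hl1
  have hl2 := hG (1, 0, true)
  have hA2 : A (1, 0, true) = 0 := by
    apply hA0
    · by_contra hce
      exact hxz (hc1 _ hce).2.1
    · decide
    · decide
  rw [hA2, Perc.z2_add_eq_zero] at hl2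
  simp only [lowFace, src, if_true, Bool.false_eq_true, if_false] at hl1 hl2
  norm_num at hl1 hl2
  apply hl1
  rw [hl2, ← hv10]
  exact hGc

lemma diag_sub2 {k : ℕ} (hk : 2 ≤ k) :
    Pool.Agent.H61.NC.A4 dE k ⊆
      ({ω | Function.update ω dE false ∈ FourD k} ∪
        {ω | Function.update ω dE false ∈ {ω | Function.update ω dG true ∈ FourD k}}) ∪
      ({ω | Function.update ω dE false ∈
          {ω : Config | (fun e => ω (Perc.reflX 1 e)) ∈ FourD (k - 1)}} ∪
        {ω | Function.update ω dE false ∈ {ω | Function.update ω dF true ∈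
          {ω : Config | (fun e => ω (Perc.reflX 1 e)) ∈ FourD (k - 1)}}}) := by
  rintro ω ⟨⟨u, hu, hxu⟩, ⟨u', hu', hzu⟩, hxz⟩
  set ω₀ : Config := Function.update ω dE false with hω₀
  have e1 : Pool.Agent.H61.NC.close dE ω = ω₀ := rfl
  have s1 : src dE = xx := rfl
  have s2 : tgt dE = dz := rfl
  have s0 : (xx : Vert) = 0 := rfl
  rw [s1, s0] at hu hu'
  rw [e1, s1] at hxu hzu hxz
  rw [s2] at hzu hxz
  rw [show ball xx k = ball 0 k from rfl] at hxu hzu hxz
  have he : ω₀ dE = false := by simp [hω₀]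
  have hx : xx ∈ ball 0 k := hxu.mem_left
  have hz : dz ∈ ball 0 k := hzu.mem_left
  have hy : yy ∈ ball 0 k := by
    simp only [Perc.mem_ball, yy, Prod.fst_zero, Prod.snd_zero]; omega
  have hw : dw ∈ ball 0 k := by
    simp only [Perc.mem_ball, Prod.fst_zero, Prod.snd_zero]; omega
  by_cases h1 : Perc.Conn ω₀ (ball 0 k) dz yy
  · left; left
    exact ⟨⟨u, hu, hxu⟩, ⟨u', hu', h1.symm.trans hzu⟩, fun h => hxz (h.trans h1.symm)⟩
  by_cases h2 : Perc.Conn ω₀ (ball 0 k) xx yy
  · by_cases h3 : Perc.Conn ω₀ (ball 0 k) xx dw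
    · right; left
      exact diag_refl hk hu' hu hzu (h3.symm.trans hxu) fun h => hxz (h3.trans h.symm)
    by_cases h4 : Perc.Conn ω₀ (ball 0 k) dw dz
    · exact (diag_planar he h2 h4 hxz).elim
    right; right
    have hwx : Perc.Conn (Function.update ω₀ dF true) (ball 0 k) dw xx :=
      diag_step ω₀ (e := dF) (S := ball 0 k) hw hx
    refine diag_refl hk hu' hu (diag_mono _ hzu) (hwx.trans (diag_mono _ hxu)) ?_
    intro h
    exact h4 (diag_update (e := dF) (fun h => h4 h.symm) (fun h => hxz h.symm) h).symm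
  · left; right
    have hyz : Perc.Conn (Function.update ω₀ dG true) (ball 0 k) yy dz :=
      diag_step ω₀ (e := dG) (S := ball 0 k) hy hz
    exact ⟨⟨u, hu, diag_mono _ hxu⟩, ⟨u', hu', hyz.trans (diag_mono _ hzu)⟩,
      fun h => h2 (diag_update (e := dG) h2 hxz h)⟩

end Pool.Agent.H89.Link

end
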