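import Pool.Agent.H94.BG.H31.PT.M02_1
import Pool.Agent.H94.BG.H31.PT.M03

/-! The parts of this file: H83.EX.WindNear, H31.EX.Scaling, H47.EX.CylGeo, H47.EX.SepD, H89.Link.Fc, H89.Link.Fc2, H89.Link.CylArm, H56.EX.TMx, H56.EX.Alg, H26.ST.Piv. -/

section

/-! # The winding probability above the characteristic length -/

open MeasureTheory ProbabilityTheory unitInterval

namespace Pool.Agent.H83.EX

open Pool.Agent.H89.Perc

lemma wn_local_comp {s : Finset Edge} {A : Set Config} (hA : LocalOn s A)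
    (φ : Edge → Edge) : LocalOn (s.image φ) {ω | (fun e => ω (φ e)) ∈ A} := by
  intro ω ω' h hA'
  exact hA _ _ (fun e he => h _ (Finset.mem_image_of_mem φ he)) hA'

lemma wn_local_comp_not {s : Finset Edge} {A : Set Config} (hA : LocalOn s A)
    (φ : Edge → Edge) : LocalOn (s.image φ) {ω | (fun e => !ω (φ e)) ∈ A} := by
  intro ω ω' h hA'
  exact hA _ _ (fun e he => by rw [h _ (Finset.mem_image_of_mem φ he)]) hA'

lemma wn_decr_comp_not {A : Set Config} (hA : Incr A) (φ : Edge → Edge) :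
    Incr {ω | (fun e => !ω (φ e)) ∈ A}ᶜ := by
  intro ω ω' h h1 h2
  apply h1
  refine hA _ _ (fun e he => ?_) h2
  rw [Bool.not_eq_true'] at he ⊢
  by_contra hc
  rw [Bool.not_eq_false] at hc
  rw [h _ hc] at he
  exact absurd he (by decide)

lemma wn_inter {p : I} {t : Finset Edge} {A B : Set Config} (hB : LocalOn t B) :
    Pr p A + Pr p B - 1 ≤ Pr p (A ∩ B) := by
  have h1 : A ⊆ (A ∩ B) ∪ Bᶜ := by
    intro ω h
    by_cases hb : ω ∈ B
    · exact Or.inl ⟨h, hb⟩
    · exact Or.inr hb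
  have h2 := (Pr_mono (p := p) h1).trans Pr_union_le
  rw [Pr_compl hB] at h2
  linarith only [h2]

lemma wn_hcross_half {c : ℝ} (H : ∀ m : ℕ, 1 ≤ m →
    c ≤ Pr half {ω | HCross ω 0 (4 * m) 0 m}) {m : ℕ} (hm : 1 ≤ m) (x y a : ℤ) (ha : 0 ≤ a)
    (ha' : a ≤ 20 * m) : c ≤ Pr half {ω | HCross ω x (a + x) y (5 * m + y)} := by
  have h1 := H (5 * m) (by omega)
  have h2 := Pr_hcross_translate (p := half) (a := 0) (b := a) (c := 0) (d := 5 * (m : ℤ)) x y
  rw [zero_add, zero_add] at h2
  rw [h2]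
  refine h1.trans (Pr_mono fun ω h => HCross.mono h le_rfl ha ?_ le_rfl ?_)
  · push_cast; omega
  · push_cast; omega

lemma wn_decr_inter {A B : Set Config} (iA : Incr Aᶜ) (iB : Incr Bᶜ) :
    Incr (A ∩ B)ᶜ := by
  rw [Set.compl_inter]
  exact iA.union iB

lemma wn_pow4 {x a b c d : ℝ} (hx : 0 ≤ x) (ha : x ≤ a) (hb : x ≤ b) (hc : x ≤ c)
    (hd : x ≤ d) : x ^ 4 ≤ (a * b) * (c * d) := by
  have h1 : x * x ≤ a * b := mul_le_mul ha hb hx (hx.trans ha)
  have h2 : x * x ≤ c * d := mul_le_mul hc hd hx (hx.trans hc)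
  calc x ^ 4 = (x * x) * (x * x) := by ring
    _ ≤ (a * b) * (c * d) := mul_le_mul h1 h2 (mul_nonneg hx hx) ((mul_nonneg hx hx).trans h1)

end Pool.Agent.H83.EX

end

section

/-!
# Exponents of bond percolation on the square lattice from the scaling relations

`L p` is a characteristic length.  From `(p - 1/2) (L p) ^ (s + o(1)) ≍ 1`,
`θ(p) ≍ π₁(L p)`, `σ(1 - p) ≍ (L p)² π₁(L p)²` and `π₁(n) = n ^ (-a + o(1))` we obtain
`β = a / s` and `γ = (2 - 2 a) / s`.
-/

open MeasureTheory ProbabilityTheory unitInterval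
open scoped ENNReal

namespace Pool.Agent.H31.EX

open Pool.Agent.H89.Perc

/-- `θ(p) = (p - 1/2) ^ (β₀ + o(1))` as `p ↓ 1/2`. -/
def HasBeta (β₀ : ℝ) : Prop :=
  ∀ ε > (0 : ℝ), ∃ δ > (0 : ℝ), ∀ p : I, (1 / 2 : ℝ) < p → (p : ℝ) < 1 / 2 + δ →
    ((p : ℝ) - 1 / 2) ^ (β₀ + ε) ≤ theta p ∧ theta p ≤ ((p : ℝ) - 1 / 2) ^ (β₀ - ε)

/-- The density `1/2 + h` (or a default value). -/
noncomputable def pOf (h : ℝ) : I := Set.projIcc 0 1 zero_le_one (1 / 2 + h)

lemma pOf_val {h : ℝ} (h0 : 0 < h) (h1 : h < 1 / 2) : (pOf h : ℝ) = 1 / 2 + h := by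
  unfold pOf
  rw [Set.projIcc_of_mem zero_le_one ⟨by linarith only [h0, h1], by linarith only [h1]⟩]

lemma pOf_sub {p : I} (hp : (1 / 2 : ℝ) < p) (hp1 : (p : ℝ) < 1) : pOf ((p : ℝ) - 1 / 2) = p := by
  apply Subtype.ext
  rw [pOf_val (by linarith only [hp]) (by linarith only [hp1])]
  ring

/-- Transfer of a bound valid for all densities slightly above `1/2`. -/
lemma transfer {P : I → ℝ → Prop} {δ : ℝ} (hδ : 0 < δ)
    (h : ∀ p : I, (1 / 2 : ℝ) < p → (p : ℝ) < 1 / 2 + δ → P p ((p : ℝ) - 1 / 2)) :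
    ∃ δ' > (0 : ℝ), ∀ x : ℝ, 0 < x → x < δ' → P (pOf x) x := by
  refine ⟨min δ (1 / 2), lt_min hδ (by norm_num), fun x x0 x1 => ?_⟩
  have h1 : x < δ := x1.trans_le (min_le_left _ _)
  have h2 : x < 1 / 2 := x1.trans_le (min_le_right _ _)
  have h3 := pOf_val x0 h2
  have h4 := h (pOf x) (by rw [h3]; linarith only [x0]) (by rw [h3]; linarith only [h1])
  rw [h3, add_sub_cancel_left] at h4
  exact h4

end Pool.Agent.H31.EX

end

section

/-!
# Geometry of the corridors on the cylinder

`n ≥ 256 k`.  The corridor of `x` goes from the east mouth of the box around `0` to the right and then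
down to the east mouth of the copy of the box at `(n, -n)`; the corridor of `y` is its image under
`v ↦ -v`.
-/

set_option autoImplicit false

open MeasureTheory ProbabilityTheory unitInterval

namespace Pool.Agent.H47.EX

open Pool.Agent.H89.Perc
open Pool.Agent.H59.EX

/-! ### Periods -/

/-- The periods of the cylinder. -/
def gam (n : ℕ) : AddSubgroup (ℤ × ℤ) := AddSubgroup.zmultiples ((n : ℤ), -(n : ℤ))

theorem mem_gam {n : ℕ} {z : Vert} : z ∈ gam n ↔ ∃ j : ℤ, z = ((n : ℤ) * j, -((n : ℤ) * j)) := by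
  unfold gam
  rw [AddSubgroup.mem_zmultiples_iff]
  constructor
  · rintro ⟨j, rfl⟩
    exact ⟨j, by ext <;> simp [mul_comm]⟩
  · rintro ⟨j, rfl⟩
    exact ⟨j, by ext <;> simp [mul_comm]⟩

/-- Small periods. -/
theorem gam_cases {n : ℕ} {z : Vert} (hz : z ∈ gam n) : z.2 = -z.1 ∧
    (z = 0 ∨ z.1 = n ∨ z.1 = -n ∨ z.1 = 2 * n ∨ z.1 = -(2 * n) ∨ 3 * n ≤ z.1 ∨ z.1 ≤ -(3 * n)) := by
  obtain ⟨j, rfl⟩ := mem_gam.1 hz
  refine ⟨rfl, ?_⟩
  have hn : (0 : ℤ) ≤ n := Int.natCast_nonneg n
  rcases lt_or_ge j 3 with h3 | h3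
  · rcases lt_or_ge (-3) j with h4 | h4
    · have : j = -2 ∨ j = -1 ∨ j = 0 ∨ j = 1 ∨ j = 2 := by omega
      rcases this with h | h | h | h | h <;> subst h
      · right; right; right; right; left
        simp only; ring
      · right; right; left
        simp only; ring
      · left; simp
      · right; left
        simp
      · right; right; right; left
        simp only; ring
    · right; right; right; right; right; right
      simp only
      nlinarith only [h4]
  · right; right; right; right; right; left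
    simp only
    nlinarith only [h3]

/-! ### The window -/

/-- A window of one period. -/
def Win (n : ℕ) : Set Vert := {v | -(n : ℤ) ≤ v.1 - v.2 ∧ v.1 - v.2 ≤ n}

/-- Every edge has a translate in the window. -/
theorem exists_win (n : ℕ) (hn : 1 ≤ n) (e : Edge) : ∃ z ∈ gam n, shiftE z e ∈ inE (Win n) := by
  obtain ⟨a, b, t⟩ := e
  have hn' : (1 : ℤ) ≤ n := by exact_mod_cast hn
  -- the smaller value of `v.1 - v.2`
  have key : ∀ s : ℤ, ∃ j : ℤ, -(n : ℤ) ≤ s + 2 * (n * j) ∧ s + 2 * (n * j) + 1 ≤ n := by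
    intro s
    refine ⟨-((s + n) / (2 * n)), ?_⟩
    have h1 := Int.mul_ediv_self_le (x := s + n) (k := 2 * n) (by omega)
    have h2 := Int.lt_mul_ediv_self_add (x := s + n) (k := 2 * n) (by omega)
    have e1 : 2 * ((n : ℤ) * -((s + n) / (2 * n))) = -(2 * n * ((s + n) / (2 * n))) := by ring
    rw [e1]
    omega
  cases t
  · obtain ⟨j, h1, h2⟩ := key (a - b)
    refine ⟨((n : ℤ) * j, -((n : ℤ) * j)), mem_gam.2 ⟨j, rfl⟩, ?_⟩
    simp only [inE, Win, Set.mem_ofPred_eq, shiftE, src, tgt, Bool.false_eq_true, if_false]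
    generalize (n : ℤ) * j = m at *
    omega
  · obtain ⟨j, h1, h2⟩ := key (a - b - 1)
    refine ⟨((n : ℤ) * j, -((n : ℤ) * j)), mem_gam.2 ⟨j, rfl⟩, ?_⟩
    simp only [inE, Win, Set.mem_ofPred_eq, shiftE, src, tgt, if_true]
    generalize (n : ℤ) * j = m at *
    omega

/-! ### The corridors -/

/-- horizontal part of the corridor of `x` -/
def RX1 (n k : ℕ) : Set Vert := rect (28 * k) (n + 67 * k) (-(3 * k)) (3 * k)
/-- vertical part of the corridor of `x` -/
def RX2 (n k : ℕ) : Set Vert := rect (n + 61 * k) (n + 67 * k) (-(n + 3 * k)) (3 * k)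
/-- horizontal part of the corridor of `y` -/
def RY1 (n k : ℕ) : Set Vert := rect (-(n + 67 * k)) (-(28 * k)) (-(3 * k)) (3 * k)
/-- vertical part of the corridor of `y` -/
def RY2 (n k : ℕ) : Set Vert := rect (-(n + 67 * k)) (-(n + 61 * k)) (-(3 * k)) (n + 3 * k)

/-- corridor of `x` -/
def XX (n k : ℕ) : Set Vert := RX1 n k ∪ RX2 n k
/-- corridor of `y` -/
def YY (n k : ℕ) : Set Vert := RY1 n k ∪ RY2 n k

variable {n k : ℕ}

theorem mem_TW {v : Vert} : v ∈ T .W k ↔
    (-(36 * k : ℤ) ≤ v.1 ∧ v.1 ≤ -(28 * k) ∧ -(3 * k : ℤ) ≤ v.2 ∧ v.2 ≤ 3 * k) := Iff.rfl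

theorem mem_MW {v : Vert} : v ∈ Mouth .W k ↔
    (-(32 * k : ℤ) ≤ v.1 ∧ v.1 ≤ -(32 * k) ∧ -(4 * k : ℤ) ≤ v.2 ∧ v.2 ≤ 4 * k) := Iff.rfl

theorem mem_XX {v : Vert} : v ∈ XX n k ↔
    ((28 * k : ℤ) ≤ v.1 ∧ v.1 ≤ n + 67 * k ∧ -(3 * k : ℤ) ≤ v.2 ∧ v.2 ≤ 3 * k) ∨
    ((n + 61 * k : ℤ) ≤ v.1 ∧ v.1 ≤ n + 67 * k ∧ -(n + 3 * k : ℤ) ≤ v.2 ∧ v.2 ≤ 3 * k) := Iff.rfl

theorem mem_YY {v : Vert} : v ∈ YY n k ↔
    (-(n + 67 * k : ℤ) ≤ v.1 ∧ v.1 ≤ -(28 * k) ∧ -(3 * k : ℤ) ≤ v.2 ∧ v.2 ≤ 3 * k) ∨
    (-(n + 67 * k : ℤ) ≤ v.1 ∧ v.1 ≤ -(n + 61 * k) ∧ -(3 * k : ℤ) ≤ v.2 ∧ v.2 ≤ n + 3 * k) := Iff.rfl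

theorem TW_YY (hk : 1 ≤ k) (hn : 256 * k ≤ n) : T .W k ⊆ YY n k := by
  intro a ha
  rw [mem_TW] at ha
  rw [mem_YY]
  have hk' : (1 : ℤ) ≤ k := by exact_mod_cast hk
  have hn' : 256 * (k : ℤ) ≤ n := by exact_mod_cast hn
  omega

end Pool.Agent.H47.EX

end

section

/-!
# The separated event of the diagonal source is not empty
-/

set_option autoImplicit false

open MeasureTheory ProbabilityTheory unitInterval

namespace Pool.Agent.H47.EX

open Pool.Agent.H89.Perc
open Pool.Agent.H59.EX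

variable {k : ℕ}

def AX (k : ℕ) : Set Vert := {v | v.2 = 0 ∧ -(36 * k : ℤ) ≤ v.1 ∧ v.1 ≤ 0} ∪ T .W k

theorem mem_AX {v : Vert} : v ∈ AX k ↔
    (v.2 = 0 ∧ -(36 * k : ℤ) ≤ v.1 ∧ v.1 ≤ 0) ∨
    (-(36 * k : ℤ) ≤ v.1 ∧ v.1 ≤ -(28 * k) ∧ -(3 * k : ℤ) ≤ v.2 ∧ v.2 ≤ 3 * k) := Iff.rfl

end Pool.Agent.H47.EX

end

section

/-!
# LINK module `Fc`: the event `Fc` implies the four-leg event

`η = per n ω`, `Conn η univ` is an equivalence relation; it is invariant under the translation by `(n, -n)`.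
Clusters `C_k` = cluster of `y + k (n, -n)`; `y` is joined to `(n, -n) = x + (n, -n)`, so
`C_k` = cluster of `x + (k+1) (n, -n)`.
(1) `C_i ≠ C_j` for `i ≠ j`: by translation take `i = 0`; `j = -1`: `C_{-1}` = cluster of `x` (not joined to `y`);
`j = 1`: by translation; `|j| ≥ 2`: `y + j (n, -n)` has `v.1 - v.2 = 2 + 2 n j`, which is not in `(-n, 3n)`.
(2) Primal colours: `F v` = cluster of `v` (type `Set Vert`, `F v = {u | Conn η univ v u}`), constant along open edges,
so `F (pv c)` is invariant under the steps of the composite graph (for `inl c` and `inr c`).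
The home columns are `c = L a` (`pv c = x + a (n, -n)`) and `c = L a + 1` (`pv c = y + a (n, -n)`).
(3) Dual colours: path sum `c` of the path from `y` to `(n, -n)` in the strip, plus the edges `(0, 0, false)` and
`(1, -1, true)` shifted by `(n, -n)`, (so that it becomes a path sum from `y` to `y + (n, -n)`), periodised by
`exists_perSum`: `A`, all degrees even, supported in the strip `H` (`H ≥ 2` because `n ≥ 2`), and open edges
except the gates `(0, 0, false) + k (n, -n)`, `(1, -1, true) + k (n, -n)`.  `G' = pot A H` (periodic).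
`Gu f = G' f + 1` if `f = q + k (n, -n)` for some `k` (`q = (0, -1)`), else `G' f`; `Gd = G'`.
For closed `e` in rows `≥ 0`: `Gu (lowFace e) = Gu (src e)` (the edges of rows `≥ 0` around `q` are the gates); for
closed `e` in rows `< 0`: `Gd (lowFace e) = Gd (src e)`.  `Gu = 0` on level `h ≥ H`, `Gd` constant on level `-h`.
So `inl c ↦ Gu (dv c)`, `inr c ↦ Gd (dv c)` is invariant under the steps (for `c` not home `dv c` is not a translate of
`q`); all `inl` home nodes have colour `G' q + 1` and all `inr` home nodes have colour `G' q`.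
(4) `Leg`: if `hpos u a` and `hpos v b` are connected then `u`, `v` are both `inl` or both `inr` by (3), and by (1), (2)
`a - 1 = b - 1` (`u = v` = strand 0), `a = b` (`u = v` = strand 1), or `a - 1 = b`, or `a = b - 1`.
-/

set_option autoImplicit false

namespace H56.EX

end H56.EX

namespace Pool.Agent.H89.Link

open H56.EX
open Pool.Agent.H89.Perc (Vert Edge Config src tgt lowFace vsum)

variable {L n : ℕ}

/-- translation of a vertex by `k` periods -/
def sh (n : ℕ) (k : ℤ) (v : Vert) : Vert := (v.1 + n * k, v.2 - n * k)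

/-- translation of an edge by `k` periods -/
def she (n : ℕ) (k : ℤ) (e : Edge) : Edge := (e.1 + n * k, e.2.1 - n * k, e.2.2)

lemma src_she (n : ℕ) (k : ℤ) (e : Edge) : src (she n k e) = sh n k (src e) := rfl

lemma tgt_she (n : ℕ) (k : ℤ) (e : Edge) : tgt (she n k e) = sh n k (tgt e) := by
  obtain ⟨a, b, t⟩ := e
  rcases t with _ | _
  · simp only [tgt, she, sh, Bool.false_eq_true, if_false]
    ext <;> simp only <;> ring
  · simp only [tgt, she, sh, if_true]
    ext <;> simp only
    ring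

lemma sh_sh (n : ℕ) (k l : ℤ) (v : Vert) : sh n k (sh n l v) = sh n (k + l) v := by
  unfold sh
  ext <;> simp only <;> ring

lemma sh_zero (n : ℕ) (v : Vert) : sh n 0 v = v := by
  unfold sh
  simp

/-- periodised sum -/
noncomputable def perS (n : ℕ) (c : Edge → ZMod 2) : Edge → ZMod 2 :=
  fun e => ∑ᶠ k : ℤ, c (she n k e)

lemma she_inj {n : ℕ} (hn : 1 ≤ n) (e : Edge) : Function.Injective (fun k : ℤ => she n k e) := by
  intro k l h
  have h1 := congrArg Prod.fst h
  simp only [she] at h1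
  have h2 : (n : ℤ) * k = n * l := by linarith only [h1]
  exact mul_left_cancel₀ (by omega) h2

lemma sh_inj {n : ℕ} (hn : 1 ≤ n) (v : Vert) : Function.Injective (fun k : ℤ => sh n k v) := by
  intro k l h
  have h1 := congrArg Prod.fst h
  simp only [sh] at h1
  have h2 : (n : ℤ) * k = n * l := by linarith only [h1]
  exact mul_left_cancel₀ (by omega) h2

lemma perS_fin {n : ℕ} (hn : 1 ≤ n) {c : Edge → ZMod 2} (hc : {e | c e ≠ 0}.Finite) (e : Edge) :
    Function.HasFiniteSupport (fun k : ℤ => c (she n k e)) := by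
  have h := Set.Finite.preimage (f := fun k : ℤ => she n k e) (s := {e | c e ≠ 0})
    ((she_inj hn e).injOn) hc
  exact h

lemma perS_per (n : ℕ) (c : Edge → ZMod 2) (k0 : ℤ) (e : Edge) :
    perS n c (she n k0 e) = perS n c e := by
  unfold perS
  rw [← finsum_comp_equiv (Equiv.addLeft k0) (f := fun k => c (she n k e))]
  congr 1
  funext k
  congr 1
  simp only [Equiv.coe_addLeft, she]
  ext <;> simp only <;> ring

lemma perS_vsum {n : ℕ} (hn : 1 ≤ n) {c : Edge → ZMod 2} (hc : {e | c e ≠ 0}.Finite) (V : Vert) :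
    vsum (perS n c) V = ∑ᶠ k : ℤ, vsum c (sh n k V) := by
  have e1 : ∀ k : ℤ, vsum c (sh n k V) = c (she n k (V.1, V.2, false)) +
      c (she n k (V.1, V.2, true)) + c (she n k (V.1 - 1, V.2, false)) +
      c (she n k (V.1, V.2 - 1, true)) := by
    intro k
    unfold vsum sh she
    simp only
    rw [show V.1 + n * k - 1 = V.1 - 1 + n * k by ring,
      show V.2 - n * k - 1 = V.2 - 1 - n * k by ring]
  have f1 := perS_fin hn hc (V.1, V.2, false)
  have f2 := perS_fin hn hc (V.1, V.2, true)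
  have f3 := perS_fin hn hc (V.1 - 1, V.2, false)
  have f4 := perS_fin hn hc (V.1, V.2 - 1, true)
  have f12 : Function.HasFiniteSupport (fun k : ℤ => c (she n k (V.1, V.2, false)) +
      c (she n k (V.1, V.2, true))) := f1.add f2
  have f123 : Function.HasFiniteSupport (fun k : ℤ => c (she n k (V.1, V.2, false)) +
      c (she n k (V.1, V.2, true)) + c (she n k (V.1 - 1, V.2, false))) := f12.add f3
  rw [finsum_congr e1, finsum_add_distrib f123 f4, finsum_add_distrib f12 f3,
    finsum_add_distrib f1 f2]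
  rfl

open Classical in
lemma finsum_ind_v {n : ℕ} (hn : 1 ≤ n) (V w : Vert) :
    (∑ᶠ k : ℤ, (if sh n k V = w then (1 : ZMod 2) else 0)) =
      if ∃ k : ℤ, sh n k V = w then 1 else 0 := by
  by_cases h : ∃ k : ℤ, sh n k V = w
  · obtain ⟨k, hk⟩ := h
    rw [if_pos ⟨k, hk⟩, finsum_eq_single _ k]
    · rw [if_pos hk]
    · intro l hl
      rw [if_neg]
      intro h2
      exact hl (sh_inj hn V (h2.trans hk.symm))
  · rw [if_neg h]
    rw [show (fun k : ℤ => if sh n k V = w then (1 : ZMod 2) else 0) = fun _ => 0 from ?_]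
    · exact finsum_zero
    · funext k
      rw [if_neg]
      exact fun h2 => h ⟨k, h2⟩

open Classical in
lemma finsum_ind_e {n : ℕ} (hn : 1 ≤ n) (e g : Edge) :
    (∑ᶠ k : ℤ, (if she n k e = g then (1 : ZMod 2) else 0)) =
      if ∃ k : ℤ, she n k e = g then 1 else 0 := by
  by_cases h : ∃ k : ℤ, she n k e = g
  · obtain ⟨k, hk⟩ := h
    rw [if_pos ⟨k, hk⟩, finsum_eq_single _ k]
    · rw [if_pos hk]
    · intro l hl
      rw [if_neg]
      intro h2
      exact hl (she_inj hn e (h2.trans hk.symm))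
  · rw [if_neg h]
    rw [show (fun k : ℤ => if she n k e = g then (1 : ZMod 2) else 0) = fun _ => 0 from ?_]
    · exact finsum_zero
    · funext k
      rw [if_neg]
      exact fun h2 => h ⟨k, h2⟩

lemma bot_const {G : Vert → ZMod 2} (h : ℕ)
    (hstep : ∀ e : Edge, e.1 + e.2.1 = -(h : ℤ) - 1 → G (lowFace e) = G (src e)) :
    ∀ f : Vert, f.1 + f.2 + 1 = -(h : ℤ) → G f = G (0, -(h : ℤ) - 1) := by
  have hstep' : ∀ a : ℤ, G (a + 1, -(h : ℤ) - 1 - (a + 1)) = G (a, -(h : ℤ) - 1 - a) := by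
    intro a
    have e1 : G (a, -(h : ℤ) - 1 - a - 1) = G (a, -(h : ℤ) - 1 - a) :=
      hstep (a, -(h : ℤ) - 1 - a, false) (by simp only; ring)
    have e2 : G (a + 1 - 1, -(h : ℤ) - 1 - a - 1) = G (a + 1, -(h : ℤ) - 1 - a - 1) :=
      hstep (a + 1, -(h : ℤ) - 1 - a - 1, true) (by simp only; ring)
    rw [show a + 1 - 1 = a by ring] at e2
    rw [show -(h : ℤ) - 1 - (a + 1) = -(h : ℤ) - 1 - a - 1 by ring, ← e2, e1]
  have hall : ∀ a : ℤ, G (a, -(h : ℤ) - 1 - a) = G (0, -(h : ℤ) - 1) := by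
    intro a
    induction a using Int.induction_on with
    | zero => simp
    | succ a ih => rw [hstep']; exact ih
    | pred a ih =>
      have := hstep' (-a - 1)
      rw [show (-(a : ℤ) - 1 + 1) = -a by ring] at this
      rw [← this]; exact ih
  intro f hf
  have h1 : f = (f.1, -(h : ℤ) - 1 - f.1) := by
    apply Prod.ext
    · rfl
    · simp only; omega
  rw [h1]
  exact hall f.1

end Pool.Agent.H89.Link

end

section

/-!
# LINK module `Fc2`: two disjoint winding clusters at the pair `x`, `y` imply the four-leg event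

`Fc2 n H`: `x` is joined to `x + (n, -n)` and `y` to `y + (n, -n)` in the strip, and `x` is not joined
to `y`.  `leg_of_wind`: `per n ω ∈ Fc2 n H` implies `Leg 2 2 (L - 2) (up s n h ω) (dn s n h ω)`.
-/

set_option autoImplicit false

open MeasureTheory ProbabilityTheory Filter Topology

namespace H56.EX

end H56.EX

namespace Pool.Agent.H89.Link

open H56.EX
open Pool.Agent.H89.Perc (Vert Edge Config Pr half src tgt lowFace vsum)

variable {L n : ℕ}

/-- sum of the translates of `c` by `k ≥ 0` periods -/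
noncomputable def halfS (n : ℕ) (c : Edge → ZMod 2) : Edge → ZMod 2 :=
  fun e => ∑ᶠ k : ℕ, c (she n (-(k : ℤ)) e)

lemma she_neg_inj {n : ℕ} (hn : 1 ≤ n) (e : Edge) :
    Function.Injective (fun k : ℕ => she n (-(k : ℤ)) e) := by
  intro k l h
  have h1 := she_inj hn e h
  omega

lemma sh_neg_inj {n : ℕ} (hn : 1 ≤ n) (v : Vert) :
    Function.Injective (fun k : ℕ => sh n (-(k : ℤ)) v) := by
  intro k l h
  have h1 := sh_inj hn v h
  omega

lemma halfS_fin {n : ℕ} (hn : 1 ≤ n) {c : Edge → ZMod 2} (hc : {e | c e ≠ 0}.Finite) (e : Edge) :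
    Function.HasFiniteSupport (fun k : ℕ => c (she n (-(k : ℤ)) e)) := by
  have h := Set.Finite.preimage (f := fun k : ℕ => she n (-(k : ℤ)) e) (s := {e | c e ≠ 0})
    ((she_neg_inj hn e).injOn) hc
  exact h

lemma halfS_vsum {n : ℕ} (hn : 1 ≤ n) {c : Edge → ZMod 2} (hc : {e | c e ≠ 0}.Finite) (V : Vert) :
    vsum (halfS n c) V = ∑ᶠ k : ℕ, vsum c (sh n (-(k : ℤ)) V) := by
  have e1 : ∀ k : ℕ, vsum c (sh n (-(k : ℤ)) V) = c (she n (-(k : ℤ)) (V.1, V.2, false)) +
      c (she n (-(k : ℤ)) (V.1, V.2, true)) + c (she n (-(k : ℤ)) (V.1 - 1, V.2, false)) +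
      c (she n (-(k : ℤ)) (V.1, V.2 - 1, true)) := by
    intro k
    unfold vsum sh she
    simp only
    rw [show V.1 + n * (-(k : ℤ)) - 1 = V.1 - 1 + n * (-(k : ℤ)) by ring,
      show V.2 - n * (-(k : ℤ)) - 1 = V.2 - 1 - n * (-(k : ℤ)) by ring]
  have f1 := halfS_fin hn hc (V.1, V.2, false)
  have f2 := halfS_fin hn hc (V.1, V.2, true)
  have f3 := halfS_fin hn hc (V.1 - 1, V.2, false)
  have f4 := halfS_fin hn hc (V.1, V.2 - 1, true)
  have f12 : Function.HasFiniteSupport (fun k : ℕ => c (she n (-(k : ℤ)) (V.1, V.2, false)) +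
      c (she n (-(k : ℤ)) (V.1, V.2, true))) := f1.add f2
  have f123 : Function.HasFiniteSupport (fun k : ℕ => c (she n (-(k : ℤ)) (V.1, V.2, false)) +
      c (she n (-(k : ℤ)) (V.1, V.2, true)) + c (she n (-(k : ℤ)) (V.1 - 1, V.2, false))) :=
    f12.add f3
  rw [finsum_congr e1, finsum_add_distrib f123 f4, finsum_add_distrib f12 f3,
    finsum_add_distrib f1 f2]
  rfl

open Classical in
lemma finsum_ind_half {n : ℕ} (hn : 1 ≤ n) (V w : Vert) :
    (∑ᶠ k : ℕ, (if sh n (-(k : ℤ)) V = w then (1 : ZMod 2) else 0)) =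
      if ∃ k : ℕ, sh n (-(k : ℤ)) V = w then 1 else 0 := by
  by_cases h : ∃ k : ℕ, sh n (-(k : ℤ)) V = w
  · obtain ⟨k, hk⟩ := h
    rw [if_pos ⟨k, hk⟩, finsum_eq_single _ k]
    · rw [if_pos hk]
    · intro l hl
      rw [if_neg]
      intro h2
      exact hl (sh_neg_inj hn V (h2.trans hk.symm))
  · rw [if_neg h]
    rw [show (fun k : ℕ => if sh n (-(k : ℤ)) V = w then (1 : ZMod 2) else 0) = fun _ => 0 from ?_]
    · exact finsum_zero
    · funext k
      rw [if_neg]
      exact fun h2 => h ⟨k, h2⟩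

lemma hfs_half {n : ℕ} (hn : 1 ≤ n) (V w : Vert) : Function.HasFiniteSupport
    (fun k : ℕ => if sh n (-(k : ℤ)) V = w then (1 : ZMod 2) else 0) := by
  have : (Function.support (fun k : ℕ => if sh n (-(k : ℤ)) V = w then (1 : ZMod 2) else 0)) ⊆
      (fun k : ℕ => sh n (-(k : ℤ)) V) ⁻¹' {w} := by
    intro k hk
    rw [Function.mem_support] at hk
    by_contra h2
    apply hk
    rw [if_neg]
    exact h2
  exact (Set.Finite.preimage ((sh_neg_inj hn V).injOn) (Set.finite_singleton w)).subset this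

lemma hfs_per {n : ℕ} (hn : 1 ≤ n) (V w : Vert) : Function.HasFiniteSupport
    (fun k : ℤ => if sh n k V = w then (1 : ZMod 2) else 0) := by
  have : (Function.support (fun k : ℤ => if sh n k V = w then (1 : ZMod 2) else 0)) ⊆
      (fun k : ℤ => sh n k V) ⁻¹' {w} := by
    intro k hk
    rw [Function.mem_support] at hk
    by_contra h2
    apply hk
    rw [if_neg]
    exact h2
  exact (Set.Finite.preimage ((sh_inj hn V).injOn) (Set.finite_singleton w)).subset this

/-- the periodic sum of a path from `u` to `u + (n, -n)` has even degrees -/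
lemma perS_vsum_path {n : ℕ} (hn : 1 ≤ n) {c : Edge → ZMod 2} (hc : {e | c e ≠ 0}.Finite)
    {u : Vert} (hv : ∀ V : Vert, vsum c V = (if V = u then 1 else 0) +
      (if V = sh n 1 u then 1 else 0)) (V : Vert) : vsum (perS n c) V = 0 := by
  classical
  rw [perS_vsum hn hc, finsum_congr (fun k => hv (sh n k V)),
    finsum_add_distrib (hfs_per hn _ _) (hfs_per hn _ _), finsum_ind_v hn, finsum_ind_v hn]
  have hiff : (∃ k : ℤ, sh n k V = u) ↔ ∃ k : ℤ, sh n k V = sh n 1 u := by
    constructor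
    · rintro ⟨k, hk⟩
      exact ⟨1 + k, by rw [← sh_sh, hk]⟩
    · rintro ⟨k, hk⟩
      exact ⟨-1 + k, by rw [← sh_sh, hk, sh_sh, show (-1 : ℤ) + 1 = 0 by ring, sh_zero]⟩
  simp only [hiff]
  exact Perc.z2_add_self _

lemma halfS_eq_zero {n : ℕ} {c : Edge → ZMod 2} {e : Edge}
    (h : ∀ k : ℕ, c (she n (-(k : ℤ)) e) = 0) : halfS n c e = 0 := by
  unfold halfS
  rw [finsum_congr h]
  exact finsum_zero

lemma perS_eq_zero {n : ℕ} {c : Edge → ZMod 2} {e : Edge}
    (h : ∀ k : ℤ, c (she n k e) = 0) : perS n c e = 0 := by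
  unfold perS
  rw [finsum_congr h]
  exact finsum_zero

lemma halfS_left {n : ℕ} {c : Edge → ZMod 2} {lo : ℤ} (hlo : ∀ e, c e ≠ 0 → lo ≤ e.1)
    {e : Edge} (he : e.1 < lo) : halfS n c e = 0 := by
  apply halfS_eq_zero
  intro k
  by_contra h
  have h1 := hlo _ h
  simp only [she] at h1
  have h2 : (0 : ℤ) ≤ (n : ℤ) * k := by positivity
  have h3 : (n : ℤ) * (-(k : ℤ)) = -((n : ℤ) * k) := by ring
  rw [h3] at h1
  linarith only [he, h1, h2]

lemma halfS_right {n : ℕ} {c : Edge → ZMod 2} {hi : ℤ}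
    (hhi : ∀ e, c e ≠ 0 → e.1 ≤ hi) {e : Edge} (he : hi < e.1) : halfS n c e = perS n c e := by
  unfold halfS perS
  have e1 : (∑ᶠ k : ℤ, c (she n k e)) = ∑ᶠ k : ℤ, c (she n (-k) e) := by
    rw [← finsum_comp_equiv (Equiv.neg ℤ) (f := fun k => c (she n k e))]
    rfl
  rw [e1]
  symm
  have hz : ∀ k : ℤ, k < 0 → c (she n (-k) e) = 0 := by
    intro k hk
    by_contra h
    have h1 := hhi _ h
    simp only [she] at h1
    have h2 : (0 : ℤ) ≤ (n : ℤ) * (-k) := mul_nonneg (by omega) (by omega)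
    linarith only [he, h1, h2]
  rw [← finsum_mem_univ, ← finsum_mem_inter_support]
  have hset : (Set.univ ∩ Function.support fun k : ℤ => c (she n (-k) e)) =
      (Set.range (fun k : ℕ => (k : ℤ)) ∩ Function.support fun k : ℤ => c (she n (-k) e)) := by
    ext k
    simp only [Set.mem_inter_iff, Set.mem_univ, true_and, Set.mem_range, Function.mem_support]
    constructor
    · intro h
      refine ⟨?_, h⟩
      have : 0 ≤ k := by
        by_contra hk
        exact h (hz k (by omega))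
      exact ⟨k.toNat, by omega⟩
    · exact fun h => h.2
  rw [hset, finsum_mem_inter_support, finsum_mem_range]
  intro k l h
  simpa using h

lemma perS_strip {n : ℕ} {c : Edge → ZMod 2} {H : ℕ}
    (hs : ∀ e, c e ≠ 0 → -(H : ℤ) < e.1 + e.2.1 ∧ e.1 + e.2.1 + 1 < H) (e : Edge)
    (he : ¬ (-(H : ℤ) < e.1 + e.2.1 ∧ e.1 + e.2.1 + 1 < H)) : perS n c e = 0 := by
  apply perS_eq_zero
  intro k
  by_contra h
  have h1 := hs _ h
  have h2 : (she n k e).1 + (she n k e).2.1 = e.1 + e.2.1 := by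
    simp only [she]; ring
  rw [h2] at h1
  exact he h1

/-- a periodic sequence in `ZMod 2` cannot be `0` on the left and `1` on the right -/
lemma no_period {r : ℤ → ZMod 2} {d r0 : ℤ} (hd : d ≠ 0) (h : ∀ m : ℤ, r (r0 + (m + 1) * d) = r (r0 + m * d))
    {A B : ℤ} (h0 : ∀ j, j ≤ A → r j = 0) (h1 : ∀ j, B ≤ j → r j = 1) : False := by
  have hconst : ∀ m : ℤ, r (r0 + m * d) = r r0 := by
    intro m
    induction m using Int.induction_on with
    | zero => simp
    | succ m ih => rw [h]; exact ih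
    | pred m ih =>
      have := h (-m - 1)
      rw [show (-(m : ℤ) - 1 + 1) = -m by ring] at this
      rw [← this]; exact ih
  -- choose `m` with `r0 + m d` very negative and very positive
  have hlow : ∃ m : ℤ, r0 + m * d ≤ A := by
    rcases lt_or_gt_of_ne hd with hd' | hd'
    · refine ⟨|r0| + |A|, ?_⟩
      have h2 : (|r0| + |A|) * d ≤ (|r0| + |A|) * (-1) :=
        mul_le_mul_of_nonneg_left (by omega) (by positivity)
      have h3 := le_abs_self r0
      have h4 := neg_abs_le A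
      linarith
    · refine ⟨-(|r0| + |A|), ?_⟩
      have h2 : (|r0| + |A|) * 1 ≤ (|r0| + |A|) * d :=
        mul_le_mul_of_nonneg_left (by omega) (by positivity)
      have h3 := le_abs_self r0
      have h4 := neg_abs_le A
      linarith only [h2, h3, h4]
  have hhigh : ∃ m : ℤ, B ≤ r0 + m * d := by
    rcases lt_or_gt_of_ne hd with hd' | hd'
    · refine ⟨-(|r0| + |B|), ?_⟩
      have h2 : (|r0| + |B|) * d ≤ (|r0| + |B|) * (-1) :=
        mul_le_mul_of_nonneg_left (by omega) (by positivity)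
      have h3 := neg_abs_le r0
      have h4 := le_abs_self B
      linarith only [h2, h3, h4]
    · refine ⟨|r0| + |B|, ?_⟩
      have h2 : (|r0| + |B|) * 1 ≤ (|r0| + |B|) * d :=
        mul_le_mul_of_nonneg_left (by omega) (by positivity)
      have h3 := neg_abs_le r0
      have h4 := le_abs_self B
      linarith only [h2, h3, h4]
  obtain ⟨m1, hm1⟩ := hlow
  obtain ⟨m2, hm2⟩ := hhigh
  have e1 := hconst m1
  have e2 := hconst m2
  rw [h0 _ hm1] at e1
  rw [h1 _ hm2, ← e1] at e2
  exact absurd e2 (by decide)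

/-- A potential is constant around a cluster which carries no edge of its edge function. -/
lemma pot_cluster {η : Config} {A : Edge → ZMod 2} {G : Vert → ZMod 2}
    (hpot : ∀ e : Edge, G (lowFace e) + G (src e) = A e) {K : Vert → Prop}
    (hA : ∀ e, A e ≠ 0 → ¬ K (src e) ∧ ¬ K (tgt e)) {V : Vert} (hV : K V) :
    G (V.1, V.2 - 1) = G V ∧ G (V.1 - 1, V.2) = G V ∧
      (∀ e, η e = true → src e = V → K (tgt e) → G (tgt e) = G V) := by
  have h1 : ∀ e, K (src e) ∨ K (tgt e) → G (lowFace e) = G (src e) := by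
    intro e he
    have h2 := hpot e
    have h3 : A e = 0 := by
      by_contra h4
      obtain ⟨h5, h6⟩ := hA e h4
      rcases he with h7 | h7
      · exact h5 h7
      · exact h6 h7
    rw [h3] at h2
    exact Perc.z2_add_eq_zero.1 h2
  refine ⟨h1 (V.1, V.2, false) (Or.inl hV), h1 (V.1, V.2, true) (Or.inl hV), ?_⟩
  rintro ⟨a, b, t⟩ _ hs ht
  rcases t with _ | _
  · -- tgt = (a + 1, b), use the edge (a+1, b, true)
    have h2 := h1 (a + 1, b, true) (Or.inl ht)
    have h3 : G (a + 1 - 1, b) = G (a + 1, b) := h2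
    rw [show a + 1 - 1 = a by ring] at h3
    show G (a + 1, b) = G V
    rw [← h3, ← hs]
    rfl
  · have h2 := h1 (a, b + 1, false) (Or.inl ht)
    have h3 : G (a, b + 1 - 1) = G (a, b + 1) := h2
    rw [show b + 1 - 1 = b by ring] at h3
    show G (a, b + 1) = G V
    rw [← h3, ← hs]
    rfl

lemma pot_cluster_const {η : Config} {A : Edge → ZMod 2} {G : Vert → ZMod 2}
    (hpot : ∀ e : Edge, G (lowFace e) + G (src e) = A e) {u : Vert}
    (hA : ∀ e, A e ≠ 0 → ¬ Perc.Conn η Set.univ u (src e) ∧ ¬ Perc.Conn η Set.univ u (tgt e))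
    {V : Vert} (hV : Perc.Conn η Set.univ u V) : G V = G u := by
  refine hV.induction_right (P := fun x => G x = G u) rfl ?_
  rintro a b ha ⟨_, _, e, he, ho⟩ ih
  have hb : Perc.Conn η Set.univ u b := ha.tail ⟨trivial, trivial, e, he, ho⟩
  rcases he with ⟨h1, h2⟩ | ⟨h1, h2⟩
  · have := (pot_cluster (η := η) hpot (K := fun v => Perc.Conn η Set.univ u v) hA ha).2.2 e ho
      h1.symm (by rw [← h2]; exact hb)
    rw [← ih, ← this, ← h2]
  · have := (pot_cluster (η := η) hpot (K := fun v => Perc.Conn η Set.univ u v) hA hb).2.2 e ho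
      h2.symm (by rw [← h1]; exact ha)
    rw [← ih, ← this, ← h1]

/-- The limit of real numbers in `ℂ` is real. -/
lemma real_limit' {a : ℕ → ℝ} {z : ℂ} (h : Tendsto (fun n => (a n : ℂ)) atTop (𝓝 z)) :
    ∃ g : ℝ, (g : ℂ) = z ∧ Tendsto a atTop (𝓝 g) := by
  have h1 : Tendsto a atTop (𝓝 z.re) := by
    have := (Complex.continuous_re.tendsto z).comp h
    simpa [Function.comp_def] using this
  have h2 : Tendsto (fun n => (a n : ℂ)) atTop (𝓝 (z.re : ℂ)) :=
    (Complex.continuous_ofReal.tendsto z.re).comp h1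
  exact ⟨z.re, tendsto_nhds_unique h2 h, h1⟩

lemma pr_mono' {A B : Set Config} (h : A ⊆ B) : Pr half A ≤ Pr half B :=
  measureReal_mono h

end Pool.Agent.H89.Link

end

section

/-!
# LINK module `CylArm`: an arm of the plane can be completed to a winding path on the cylinder

`n = 16 m`, `η = per n ω`.  Events for `η`, all increasing and local:
* `A = Arm 0 (2 m)`;
* `T` = `HCross η (-2m) (2m) m (2m)`, `B` = `HCross η (-2m) (2m) (-2m) (-m)`, `Le` = `VCross η (-2m) (-m) (-2m) (2m)`,
  `Ri` = `VCross η m (2m) (-2m) (2m)` (four `4 : 1` rectangles around `ball 0 m`);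
* `R1` = `HCross η (-2m) (18m) (-m) m`, `R2` = `VCross η (15m) (17m) (-18m) (2m)`.
Determinism.  An open path from `0` to `sphere 0 (2m)` in `ball 0 (2m)` ends on one of the four sides; by `hv_meet` (or
`Conn.cross_x/cross_y` + `cross`) it meets the crossing of the corresponding rectangle.  The four crossings meet pairwise
in the corners (`hv_meet`), `Le` meets `R1`, `R1` meets `R2`.  `R2` meets the translate by `(n, -n)` of `B`
(`HCross η (14m) (18m) (-18m) (-17m)`), which exists because `η` has period `(n, -n)` (`conn_sh` in `Link/Fc.lean`); the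
translate of the whole picture joins it to `(n, -n)`.  Everything is in `strip (64 m)`.
Probability.  `Pr half {ω | per n ω ∈ E} = Pr half E` for each of the seven events (`pr_per`: `base n` is injective on
`eRect a b c d` if `b - a < n` or `d - c < n`, because `base n e = base n e'` forces
`e' = (e.1 + n k, e.2.1 - n k, e.2.2)`).  `ω ↦ per n ω` is monotone and local, so FKG (`Perc.fkg`) holds for these events;
`rsw` and `long_rsw` bound the crossing probabilities from below (translate, reflect: `Pr_hcross_translate`,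
`Pr_vcross_eq_hcross`); the `20m x 2m` rectangles have aspect ratio 10.
-/

set_option autoImplicit false

open MeasureTheory ProbabilityTheory

namespace Pool.Agent.H89.Link

open Pool.Agent.H89.Perc (Vert Edge Config Pr half)

end Pool.Agent.H89.Link

end

section

/-! The function `TM M c z`: the explicit sum times the product over pairs; its recursions. -/

namespace H56.EX

open Finset

/-- product over pairs of the first `M` strands -/
noncomputable def prp : ℕ → (ℕ → ℂ) → ℂ
  | 0, _ => 1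
  | M + 1, z => (∏ k ∈ range M, (z 0 ^ 2 + z 0 * z (k + 1) + z (k + 1) ^ 2)) *
      prp M (fun n => z (n + 1))

lemma prp_swap : ∀ (M : ℕ) (z : ℕ → ℂ) (j : ℕ), j + 1 < M →
    prp M (z ∘ Equiv.swap j (j + 1)) = prp M z := by
  intro M
  induction M with
  | zero => intro z j hj; omega
  | succ M ih =>
    intro z j hj
    rcases j with _ | j
    · obtain ⟨M, rfl⟩ : ∃ M', M = M' + 1 := ⟨M - 1, by omega⟩
      simp only [prp]
      have e : (fun n => (z ∘ Equiv.swap 0 (0 + 1)) (n + 1 + 1)) = fun n => z (n + 1 + 1) := by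
        funext n
        rw [Function.comp_apply, Equiv.swap_apply_of_ne_of_ne (by omega) (by omega)]
      rw [e, Finset.prod_range_succ', Finset.prod_range_succ']
      have e0 : (z ∘ Equiv.swap 0 (0 + 1)) 0 = z 1 := by simp
      have e1 : (z ∘ Equiv.swap 0 (0 + 1)) (0 + 1) = z 0 := by simp
      have e2 : ∀ n, (z ∘ Equiv.swap 0 (0 + 1)) (n + 1 + 1) = z (n + 1 + 1) := congrFun e
      simp only [e0, e1, e2]
      have e3 : ((z 1) ^ 2 + z 1 * z 0 + z 0 ^ 2) = z 0 ^ 2 + z 0 * z 1 + z 1 ^ 2 := by ring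
      rw [e3]
      ring
    · have hp : (∏ k ∈ range M, ((z ∘ Equiv.swap (j + 1) (j + 1 + 1)) 0 ^ 2 +
          (z ∘ Equiv.swap (j + 1) (j + 1 + 1)) 0 * (z ∘ Equiv.swap (j + 1) (j + 1 + 1)) (k + 1) +
          (z ∘ Equiv.swap (j + 1) (j + 1 + 1)) (k + 1) ^ 2)) =
          ∏ k ∈ range M, (z 0 ^ 2 + z 0 * z (k + 1) + z (k + 1) ^ 2) := by
        have e0 : (z ∘ Equiv.swap (j + 1) (j + 1 + 1)) 0 = z 0 := by
          rw [Function.comp_apply, Equiv.swap_apply_of_ne_of_ne (by omega) (by omega)]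
        rw [e0]
        refine Finset.prod_bij (fun k _ => Equiv.swap j (j + 1) k) ?_ ?_ ?_ ?_
        · intro k hk
          rw [mem_range] at hk ⊢
          by_cases h1 : k = j
          · subst h1; simp; omega
          by_cases h2 : k = j + 1
          · subst h2; simp; omega
          rw [Equiv.swap_apply_of_ne_of_ne h1 h2]; exact hk
        · intro a _ b _ h; exact (Equiv.swap j (j + 1)).injective h
        · intro b hb
          refine ⟨Equiv.swap j (j + 1) b, ?_, by simp⟩
          rw [mem_range] at hb ⊢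
          by_cases h1 : b = j
          · subst h1; simp; omega
          by_cases h2 : b = j + 1
          · subst h2; simp; omega
          rw [Equiv.swap_apply_of_ne_of_ne h1 h2]; exact hb
        · intro k _
          have e1 : (z ∘ Equiv.swap (j + 1) (j + 1 + 1)) (k + 1) =
              z (Equiv.swap j (j + 1) k + 1) := by
            rw [Function.comp_apply]
            congr 1
            by_cases h1 : k = j
            · subst h1; simp
            by_cases h2 : k = j + 1
            · subst h2; simp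
            rw [Equiv.swap_apply_of_ne_of_ne h1 h2,
              Equiv.swap_apply_of_ne_of_ne (by omega) (by omega)]
          rw [e1]
      have hs : (fun n => (z ∘ Equiv.swap (j + 1) (j + 1 + 1)) (n + 1)) =
          (fun n => z (n + 1)) ∘ Equiv.swap j (j + 1) := by
        funext k
        rw [Function.comp_apply, Function.comp_apply]
        show z _ = z (_ + 1)
        congr 1
        by_cases h1 : k = j
        · subst h1; simp
        by_cases h2 : k = j + 1
        · subst h2; simp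
        rw [Equiv.swap_apply_of_ne_of_ne h1 h2,
          Equiv.swap_apply_of_ne_of_ne (by omega) (by omega)]
      simp only [prp]
      rw [hp, hs, ih _ j (by omega)]

lemma range_erase_zero (M : ℕ) :
    (range (M + 1)).erase 0 = (range M).map (addRightEmbedding 1) := by
  ext x
  simp only [mem_erase, mem_range, mem_map, addRightEmbedding_apply]
  constructor
  · rintro ⟨h1, h2⟩
    exact ⟨x - 1, by omega, by omega⟩
  · rintro ⟨k, hk, rfl⟩
    omega

end H56.EX

end

section

/-! The explicit right hand sides of the leg formulas and their recursions. -/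

namespace H56.EX

open Finset

/-- exponents of 3 -/
def ee : ℕ → ℕ
  | 0 => 1
  | M + 1 => ee M + (M + 2)

lemma three_ne (n : ℕ) : (3 : ℂ) ^ n ≠ 0 := pow_ne_zero _ (by norm_num)

end H56.EX

end

section

/-!
# Lower bounds for the influence of an edge of the torus
-/

open MeasureTheory ProbabilityTheory unitInterval

namespace Pool.Agent.H26.ST

open Pool.Agent.H89.Perc

end Pool.Agent.H26.ST

end
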