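import Pool.Agent.H94.BG.H31.PT.M03_3
import Pool.Agent.H94.BG.H31.PT.M31_3
import Pool.Agent.H94.BG.H31.PT.M31_5
import Pool.Agent.H94.BG.H31.PT.M32_4
import Pool.Agent.H94.BG.H31.PT.M32_7
import Pool.Agent.H94.BG.H31.PT.M34_4
import Pool.Agent.H94.BG.H31.PT.M34_5
import Pool.Agent.H94.BG.M09

/-! The parts of this file: H89.Perc.ArmExt, H85.Gamma.Bounds, H57.LF.Final, H83.EX.SigmaUpper, H83.EX.Scale, H90.NC.ArmDet, H90.NC.ArmExt, H90.NC.ArmGlue, H83.EX.WeakRSW, H12.QKZ.Tri, H12.QKZ.Num, H12.QKZ.Lam, H12.QKZ.Exist, H12.QKZ.Main, H56.EX.Base, H96.EX.SMa, H96.EX.SMb, H96.EX.SM, H96.EX.STM, H89.Link.Diag. -/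

section

/-!
# Regularity of the one-arm probability
-/

open MeasureTheory ProbabilityTheory unitInterval

namespace Pool.Agent.H89.Perc

/-- Regularity of the one-arm probability for `p ≥ 1 / 2`. -/
theorem arm_ext : ∃ c > (0 : ℝ), ∀ p : I, half ≤ p → ∀ k R : ℕ, 1 ≤ k → k ≤ R →
    c * Real.sqrt (k / R) * arm p k ≤ arm p R := by
  classical
  obtain ⟨c1, hc1, H1⟩ := circuit
  obtain ⟨c2, hc2, H2⟩ := armBox_lower
  refine ⟨min c1 1 * c2 / 4, by positivity, ?_⟩
  intro p hp k R hk hkR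
  have hm0 : 0 < min c1 1 := lt_min hc1 one_pos
  have hR : (0 : ℝ) < R := by
    have : 0 < R := by omega
    exact_mod_cast this
  have hk0 : (0 : ℝ) < k := by exact_mod_cast hk
  -- the annulus crossing probability, for every `s` with `k ≤ 16 (s + 1)`
  have hbox : ∀ s : ℕ, s ≤ R → k ≤ 16 * (s + 1) →
      c2 / 4 * Real.sqrt (k / R) ≤ Pr p (ArmBox 0 s R) := by
    intro s hs hks
    have h1 := H2 s R (by omega) hs
    have h2 : Pr half (ArmBox 0 s R) ≤ Pr p (ArmBox 0 s R) :=
      Pr_mono_param (localOn_armBox 0 s R) (incr_armBox 0 s R) hp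
    have h3 : Real.sqrt (k / R) ≤ 4 * Real.sqrt ((s + 1) / R) := by
      rw [show (4 : ℝ) = Real.sqrt 16 by
        rw [show (16 : ℝ) = 4 ^ 2 by norm_num, Real.sqrt_sq (by norm_num)]]
      rw [← Real.sqrt_mul (by norm_num)]
      apply Real.sqrt_le_sqrt
      rw [← mul_div_assoc]
      apply div_le_div_of_nonneg_right _ hR.le
      exact_mod_cast hks
    calc c2 / 4 * Real.sqrt (k / R) ≤ c2 / 4 * (4 * Real.sqrt ((s + 1) / R)) :=
          mul_le_mul_of_nonneg_left h3 (by positivity)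
      _ = c2 * Real.sqrt ((s + 1) / R) := by ring
      _ ≤ _ := h1.trans h2
  have ha0 : 0 ≤ arm p k := arm_nonneg
  have ha1 : arm p k ≤ 1 := arm_le_one
  have hs0 : 0 ≤ Real.sqrt (k / R) := Real.sqrt_nonneg _
  by_cases hk16 : k < 16
  · -- small radius
    have h1 := hbox 0 (Nat.zero_le _) (by omega)
    have h2 : Pr p (ArmBox 0 0 R) ≤ arm p R := Pr_mono (armExt_box_zero R)
    calc min c1 1 * c2 / 4 * Real.sqrt (k / R) * arm p k
        = (c2 / 4 * Real.sqrt (k / R)) * (min c1 1 * arm p k) := by ring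
      _ ≤ (c2 / 4 * Real.sqrt (k / R)) * 1 := by
          apply mul_le_mul_of_nonneg_left _ (by positivity)
          calc min c1 1 * arm p k ≤ 1 * 1 :=
                mul_le_mul (min_le_right _ _) ha1 ha0 zero_le_one
            _ = 1 := one_mul 1
      _ ≤ arm p R := by rw [mul_one]; exact h1.trans h2
  · -- large radius
    push Not at hk16
    have hs1 : 1 ≤ k / 8 := by omega
    have h1 := H1 (k / 8) k hs1 (by omega) p hp
    have h2 := hbox (k / 8) (by omega) (by omega)
    have f1 : Pr p (Arm 0 k) * Pr p (ArmBox 0 (k / 8) R) ≤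
        Pr p (Arm 0 k ∩ ArmBox 0 (k / 8) R) :=
      fkg (localOn_arm 0 k) (localOn_armBox 0 (k / 8) R) (incr_arm 0 k) (incr_armBox 0 (k / 8) R)
    have f2 : Pr p (Arm 0 k ∩ ArmBox 0 (k / 8) R) * Pr p {ω | dual ω ∉ DArm (k / 8) k} ≤
        Pr p ((Arm 0 k ∩ ArmBox 0 (k / 8) R) ∩ {ω | dual ω ∉ DArm (k / 8) k}) :=
      fkg ((localOn_arm 0 k).inter' (localOn_armBox 0 (k / 8) R)) (localOn_dual_DArm (k / 8) k)
        ((incr_arm 0 k).inter (incr_armBox 0 (k / 8) R)) (incr_dual_DArm (k / 8) k)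
    have f3 : Pr p ((Arm 0 k ∩ ArmBox 0 (k / 8) R) ∩ {ω | dual ω ∉ DArm (k / 8) k}) ≤
        arm p R := by
      refine Pr_mono ?_
      rintro ω ⟨⟨g1, g2⟩, g3⟩
      exact glue (by omega) hkR g1 g2 g3
    have g1 : arm p k * (c2 / 4 * Real.sqrt (k / R)) ≤ Pr p (Arm 0 k ∩ ArmBox 0 (k / 8) R) :=
      (mul_le_mul_of_nonneg_left h2 ha0).trans f1
    calc min c1 1 * c2 / 4 * Real.sqrt (k / R) * arm p k
        = (arm p k * (c2 / 4 * Real.sqrt (k / R))) * min c1 1 := by ring
      _ ≤ Pr p (Arm 0 k ∩ ArmBox 0 (k / 8) R) * Pr p {ω | dual ω ∉ DArm (k / 8) k} :=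
          mul_le_mul g1 ((min_le_left _ _).trans h1) hm0.le Pr_nonneg
      _ ≤ _ := f2.trans f3

end Pool.Agent.H89.Perc

end

section

/-!
# Bounds for the arms of an edge and for the derivative of the one-arm probability
-/

open MeasureTheory ProbabilityTheory unitInterval

namespace Pool.Agent.H85.Gamma

open Pool.Agent.H89.Perc

/-- Regularity of the critical one-arm probability, including radius zero. -/
theorem arm_reg : ∃ C : ℝ, 1 ≤ C ∧ ∀ k R : ℕ, 1 ≤ R → k ≤ R →
    arm half k ≤ C * Real.sqrt (R / (k + 1)) * arm half R := by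
  obtain ⟨c, hc, h⟩ := arm_ext
  set a1 := arm half 1 with ha1
  have ha1p : 0 < a1 := arm_half_pos 1
  have ha1le : a1 ≤ 1 := arm_le_one
  set c' := min c 1 with hc'
  have hc'p : 0 < c' := lt_min hc one_pos
  have hc'1 : c' ≤ 1 := min_le_right _ _
  have hC1 : 1 ≤ 2 / (c' * a1) := by
    rw [le_div_iff₀ (by positivity)]
    nlinarith only [hc'1, ha1le, ha1p, mul_le_mul hc'1 ha1le ha1p.le zero_le_one]
  refine ⟨2 / (c' * a1), hC1, ?_⟩
  intro k R hR hkR
  have hRp : (0 : ℝ) < R := by exact_mod_cast hR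
  -- bound in terms of `max k 1`
  have key : ∀ j : ℕ, 1 ≤ j → j ≤ R → arm half j ≤ (1 / c') * Real.sqrt (R / j) * arm half R := by
    intro j hj hjR
    have hjp : (0 : ℝ) < j := by exact_mod_cast hj
    have h1 := h half le_rfl j R hj hjR
    have h2 : c' * Real.sqrt (j / R) * arm half j ≤ arm half R := by
      refine le_trans ?_ h1
      gcongr
      · exact arm_nonneg
      · exact min_le_left _ _
    have h3 : Real.sqrt (j / R) * Real.sqrt (R / j) = 1 := by
      rw [← Real.sqrt_mul (by positivity)]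
      rw [show (j : ℝ) / R * (R / j) = 1 by field_simp, Real.sqrt_one]
    have h4 : 0 ≤ Real.sqrt (R / j) / c' := by positivity
    have h5 := mul_le_mul_of_nonneg_left h2 h4
    calc arm half j = (Real.sqrt (j / R) * Real.sqrt (R / j)) * arm half j := by rw [h3, one_mul]
      _ = Real.sqrt (R / j) / c' * (c' * Real.sqrt (j / R) * arm half j) := by
          field_simp
      _ ≤ Real.sqrt (R / j) / c' * arm half R := h5
      _ = _ := by ring
  rcases Nat.eq_zero_or_pos k with hk | hk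
  · subst hk
    have h1 := key 1 le_rfl hR
    rw [arm_zero]
    have h2 : 1 ≤ (1 / (c' * a1)) * Real.sqrt (R / 1) * arm half R := by
      have : 1 = a1 / a1 := by field_simp
      rw [this]
      rw [div_le_iff₀ ha1p]
      calc a1 ≤ 1 / c' * Real.sqrt (R / (1 : ℕ)) * arm half R := h1
        _ = _ := by
          push_cast
          field_simp
    have h3 : (0 : ℝ) ≤ 1 / (c' * a1) * Real.sqrt (R / 1) * arm half R := by
      have := arm_nonneg (p := half) (r := R)
      positivity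
    calc (1 : ℝ) ≤ 2 * (1 / (c' * a1) * Real.sqrt (R / 1) * arm half R) := by linarith only [h2]
      _ = _ := by push_cast; ring_nf
  · have h1 := key k hk hkR
    have hkp : (0 : ℝ) < k := by exact_mod_cast hk
    have hk1 : (1 : ℝ) ≤ k := by exact_mod_cast hk
    refine h1.trans ?_
    refine mul_le_mul_of_nonneg_right ?_ arm_nonneg
    have h2 : Real.sqrt (R / k) ≤ 2 * Real.sqrt (R / (k + 1)) := by
      rw [show (2 : ℝ) = Real.sqrt 4 by
        rw [show (4 : ℝ) = 2 ^ 2 by norm_num, Real.sqrt_sq (by norm_num)],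
        ← Real.sqrt_mul (by norm_num)]
      apply Real.sqrt_le_sqrt
      rw [div_le_iff₀ hkp]
      have : 4 * ((R : ℝ) / (k + 1)) * k = R * (4 * k / (k + 1)) := by ring
      rw [this]
      have : 1 ≤ 4 * (k : ℝ) / (k + 1) := by
        rw [le_div_iff₀ (by positivity)]; linarith only [hkp, hk1]
      nlinarith only [this]
    calc 1 / c' * Real.sqrt (R / k) ≤ 1 / c' * (2 * Real.sqrt (R / (k + 1))) := by gcongr
      _ = 2 / (c' * 1) * Real.sqrt (R / (k + 1)) := by ring
      _ ≤ 2 / (c' * a1) * Real.sqrt (R / (k + 1)) := by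
          gcongr

end Pool.Agent.H85.Gamma

end

section

/-!
# The lower bound `θ(p) ≥ c √(p - 1/2)`
-/

open MeasureTheory ProbabilityTheory unitInterval Filter Topology

namespace Pool.Agent.H57.LF

open Pool.Agent.H89.Perc

/-- Finite-size criterion. -/
theorem fs : ∃ ε > (0 : ℝ), ∃ c > (0 : ℝ), ∀ p : I, half ≤ p → ∀ m : ℕ, 1 ≤ m →
    1 - ε ≤ Pr p {ω | HCross ω m (16 * m) (-m) (4 * m)} → c * arm p m ≤ theta p := by
  classical
  obtain ⟨ε, hε, K, hK, hsum⟩ := fs_sum
  obtain ⟨c1, hc1, H1⟩ := circuit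
  obtain ⟨c2, hc2, H2⟩ := arm_ext
  refine ⟨ε / 4, by positivity, c2 * Real.sqrt (1 / (8 * K + 4)) * (1 / 2) * c1, by positivity,
    fun p hp m hm hF => ?_⟩
  have hm0 : (0 : ℝ) < m := by exact_mod_cast hm
  have h1 := fs_annulus (p := p) hm
  have h2 : Pr (σ p) (ArmBox 0 m (7 * m)) ≤ ε := by linarith only [hF, h1]
  have h3 := hsum (σ p) m hm h2
  have hKm : m ≤ K * m := Nat.le_mul_of_pos_left m (by omega)
  set s : ℕ := 2 * (K * m) with hs
  set r : ℕ := 4 * (s + 1) with hr
  have h4 : ∀ M : ℕ, s < M → 1 / 2 ≤ Pr p (ArmBox 0 s M) := by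
    intro M hM
    have h5 := armBox_ge (p := p) hm hKm (M := M) hM
    have h6 := h3 M
    linarith only [h5, h6]
  have hs1 : 1 ≤ s := by rw [hs]; omega
  have h5 := H1 s r hs1 (by omega) p hp
  have h6 : c2 * Real.sqrt (1 / (8 * K + 4)) * arm p m ≤ arm p r := by
    have h7 := H2 p hp m r hm (by omega)
    refine le_trans ?_ h7
    refine mul_le_mul_of_nonneg_right ?_ arm_nonneg
    refine mul_le_mul_of_nonneg_left ?_ hc2.le
    apply Real.sqrt_le_sqrt
    have hr0 : (0 : ℝ) < r := by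
      have : 0 < r := by omega
      exact_mod_cast this
    rw [div_le_div_iff₀ (by positivity) hr0, one_mul]
    have : (r : ℝ) = 8 * (K * m) + 4 := by rw [hr, hs]; push_cast; ring
    rw [this]
    have hm1 : (1 : ℝ) ≤ m := by exact_mod_cast hm
    nlinarith only [hm1]
  refine ge_of_tendsto (tendsto_arm p) ?_
  filter_upwards [eventually_ge_atTop r] with M hM
  have f1 : Pr p (Arm 0 r) * Pr p (ArmBox 0 s M) ≤ Pr p (Arm 0 r ∩ ArmBox 0 s M) :=
    fkg (localOn_arm 0 r) (localOn_armBox 0 s M) (incr_arm 0 r) (incr_armBox 0 s M)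
  have f2 : Pr p (Arm 0 r ∩ ArmBox 0 s M) * Pr p {ω | dual ω ∉ DArm s r} ≤
      Pr p ((Arm 0 r ∩ ArmBox 0 s M) ∩ {ω | dual ω ∉ DArm s r}) :=
    fkg ((localOn_arm 0 r).inter' (localOn_armBox 0 s M)) (localOn_dual_DArm s r)
      ((incr_arm 0 r).inter (incr_armBox 0 s M)) (incr_dual_DArm s r)
  have f3 : Pr p ((Arm 0 r ∩ ArmBox 0 s M) ∩ {ω | dual ω ∉ DArm s r}) ≤ arm p M := by
    refine Pr_mono ?_
    rintro ω ⟨⟨g1, g2⟩, g3⟩
    exact glue (by omega) hM g1 g2 g3
  have g0 : 0 ≤ arm p r := arm_nonneg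
  have g1 : arm p r * (1 / 2) ≤ Pr p (Arm 0 r ∩ ArmBox 0 s M) :=
    (mul_le_mul_of_nonneg_left (h4 M (by omega)) g0).trans f1
  calc c2 * Real.sqrt (1 / (8 * K + 4)) * (1 / 2) * c1 * arm p m
      = (c2 * Real.sqrt (1 / (8 * K + 4)) * arm p m) * (1 / 2) * c1 := by ring
    _ ≤ arm p r * (1 / 2) * c1 := by
        refine mul_le_mul_of_nonneg_right (mul_le_mul_of_nonneg_right h6 (by norm_num)) hc1.le
    _ ≤ Pr p (Arm 0 r ∩ ArmBox 0 s M) * Pr p {ω | dual ω ∉ DArm s r} :=
        mul_le_mul g1 h5 hc1.le Pr_nonneg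
    _ ≤ _ := f2.trans f3

end Pool.Agent.H57.LF

end

section

/-! # Upper bound for the mean cluster size -/

open MeasureTheory ProbabilityTheory unitInterval
open scoped ENNReal

namespace Pool.Agent.H83.EX

open Pool.Agent.H89.Perc

private lemma su_meas (v : Vert) : MeasurableSet {ω : Config | Conn ω Set.univ 0 v} := by
  have h : {ω : Config | Conn ω Set.univ 0 v} = ⋃ R : ℕ, {ω | Conn ω (ball 0 R) 0 v} := by
    ext ω
    simp only [Set.mem_ofPred_eq, Set.mem_iUnion]
    exact ⟨su_conn_ball, fun ⟨R, hR⟩ => hR.mono_set (Set.subset_univ _)⟩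
  rw [h]
  exact MeasurableSet.iUnion fun R => (Pool.Agent.H85.Gamma.localOn_connB R 0 v).measurableSet

private lemma su_sigma (q : I) : Pool.Agent.H85.Gamma.sigma q =
    ∑' v : Vert, ENNReal.ofReal (Pr q {ω | Conn ω Set.univ 0 v}) := by
  classical
  unfold Pool.Agent.H85.Gamma.sigma
  have h1 : ∀ ω : Config, (({v : Vert | Conn ω Set.univ 0 v}.encard : ℕ∞) : ℝ≥0∞) =
      ∑' v : Vert, Set.indicator {ω : Config | Conn ω Set.univ 0 v} (fun _ => (1 : ℝ≥0∞)) ω := by
    intro ω
    rw [← ENNReal.tsum_set_one, tsum_subtype {v : Vert | Conn ω Set.univ 0 v} (fun _ => (1 : ℝ≥0∞))]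
    refine tsum_congr fun v => ?_
    by_cases h : Conn ω Set.univ 0 v
    · rw [Set.indicator_of_mem (show v ∈ {v : Vert | Conn ω Set.univ 0 v} from h),
        Set.indicator_of_mem (show ω ∈ {ω : Config | Conn ω Set.univ 0 v} from h)]
    · rw [Set.indicator_of_notMem (show v ∉ {v : Vert | Conn ω Set.univ 0 v} from h),
        Set.indicator_of_notMem (show ω ∉ {ω : Config | Conn ω Set.univ 0 v} from h)]
  simp_rw [h1]
  rw [lintegral_tsum fun v => (measurable_const.indicator (su_meas v)).aemeasurable]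
  refine tsum_congr fun v => ?_
  rw [lintegral_indicator (su_meas v), lintegral_const, Measure.restrict_apply_univ, one_mul]
  unfold Pr
  rw [ofReal_measureReal]

/-- The iteration for the annulus crossings. -/
private lemma su_iter {q : I} {L : ℕ} (hL : 1 ≤ L)
    (h0 : Pr q (ArmBox 0 L (7 * L)) ≤ 1 / (81 * 10 ^ 8)) (k : ℕ) :
    10 ^ 8 * Pr q (ArmBox 0 (3 ^ k * L) (7 * (3 ^ k * L))) ≤ (1 / 81) ^ (k + 1) := by
  induction k with
  | zero =>
    simp only [pow_zero, one_mul, zero_add, pow_one]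
    have : (1 : ℝ) / (81 * 10 ^ 8) = 1 / 10 ^ 8 * (1 / 81) := by norm_num
    rw [this] at h0
    have h1 : (10 : ℝ) ^ 8 * (1 / 10 ^ 8 * (1 / 81)) = 1 / 81 := by norm_num
    calc _ ≤ (10 : ℝ) ^ 8 * (1 / 10 ^ 8 * (1 / 81)) := by gcongr
      _ = 1 / 81 := h1
  | succ k ih =>
    have h1 := Pool.Agent.H57.LF.fs_step (q := q) (L := 3 ^ k * L) (Nat.mul_pos (by positivity) hL)
    have e1 : 3 * (3 ^ k * L) = 3 ^ (k + 1) * L := by ring
    have e2 : 21 * (3 ^ k * L) = 7 * (3 ^ (k + 1) * L) := by ring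
    rw [e1, e2] at h1
    set a := Pr q (ArmBox 0 (3 ^ k * L) (7 * (3 ^ k * L))) with ha
    have ha0 : 0 ≤ a := Pr_nonneg
    calc 10 ^ 8 * Pr q (ArmBox 0 (3 ^ (k + 1) * L) (7 * (3 ^ (k + 1) * L)))
        ≤ 10 ^ 8 * (10 ^ 8 * a ^ 2) := by gcongr
      _ = (10 ^ 8 * a) ^ 2 := by ring
      _ ≤ ((1 / 81) ^ (k + 1)) ^ 2 := by gcongr
      _ = (1 / 81) ^ (2 * (k + 1)) := by rw [← pow_mul, mul_comm]
      _ ≤ (1 / 81) ^ (k + 1 + 1) := pow_le_pow_of_le_one (by norm_num) (by norm_num) (by omega)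

private lemma su_nrm {N : ℕ} {v : Vert} :
    v ∈ Pool.Agent.H85.Gamma.bx N ↔ Pool.Agent.H85.Gamma.nrm v ≤ N := by
  rw [Pool.Agent.H85.Gamma.mem_bx]
  unfold Pool.Agent.H85.Gamma.nrm
  simp only [mem_ball, Prod.fst_zero, Prod.snd_zero]
  omega

/-- Sum of `1 / (|v| + 1)` over a box. -/
private lemma su_box (N : ℕ) :
    ∑ v ∈ Pool.Agent.H85.Gamma.bx N, 1 / ((Pool.Agent.H85.Gamma.nrm v : ℝ) + 1) ≤ 8 * N + 1 := by
  classical
  induction N with
  | zero =>
    have h : Pool.Agent.H85.Gamma.bx 0 = {0} := by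
      ext v
      rw [su_nrm, Finset.mem_singleton]
      unfold Pool.Agent.H85.Gamma.nrm
      constructor
      · intro h
        ext
        · simp only [Prod.fst_zero]; omega
        · simp only [Prod.snd_zero]; omega
      · rintro rfl
        simp
    rw [h, Finset.sum_singleton]
    simp [Pool.Agent.H85.Gamma.nrm]
  | succ N ih =>
    have hsub : Pool.Agent.H85.Gamma.bx N ⊆ Pool.Agent.H85.Gamma.bx (N + 1) := by
      intro v hv
      rw [su_nrm] at hv ⊢
      omega
    rw [← Finset.sum_sdiff hsub]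
    have h1 : ∑ v ∈ Pool.Agent.H85.Gamma.bx (N + 1) \ Pool.Agent.H85.Gamma.bx N,
        1 / ((Pool.Agent.H85.Gamma.nrm v : ℝ) + 1) ≤ 8 := by
      have h2 : ∀ v ∈ Pool.Agent.H85.Gamma.bx (N + 1) \ Pool.Agent.H85.Gamma.bx N,
          1 / ((Pool.Agent.H85.Gamma.nrm v : ℝ) + 1) ≤ 1 / ((N : ℝ) + 1) := by
        intro v hv
        rw [Finset.mem_sdiff, su_nrm, su_nrm] at hv
        have : (N : ℝ) ≤ Pool.Agent.H85.Gamma.nrm v := by exact_mod_cast (by omega)
        apply one_div_le_one_div_of_le (by positivity)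
        linarith only [this]
      refine (Finset.sum_le_card_nsmul _ _ _ h2).trans ?_
      rw [nsmul_eq_mul, Finset.cast_card_sdiff hsub, Pool.Agent.H85.Gamma.card_bx,
        Pool.Agent.H85.Gamma.card_bx]
      have : (0 : ℝ) < (N : ℝ) + 1 := by positivity
      rw [mul_one_div, div_le_iff₀ this]
      push_cast
      nlinarith only
    push_cast
    linarith only [ih, h1]

theorem sigma_upper : ∃ ε > (0 : ℝ), ∃ C > (0 : ℝ), ∀ q : I, q ≤ half → ∀ m : ℕ, 1 ≤ m →
    Pr q (ArmBox 0 m (7 * m)) ≤ ε →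
    Pool.Agent.H85.Gamma.sigma q ≤ ENNReal.ofReal (C * (m : ℝ) ^ 2 * arm half m ^ 2) := by
  classical
  obtain ⟨C, hC, hreg⟩ := Pool.Agent.H85.Gamma.arm_reg
  refine ⟨1 / (81 * 10 ^ 8), by positivity, 1000 * C ^ 2, by positivity, fun q hq m hm h0 => ?_⟩
  have hmp : (1 : ℝ) ≤ m := by exact_mod_cast hm
  set π := arm half m with hπ
  have hπ0 : 0 ≤ π := arm_nonneg
  -- bound for the square of the arm
  have hsq : ∀ s : ℕ, s ≤ m → arm q s ^ 2 ≤ C ^ 2 * (m / (s + 1)) * π ^ 2 := by
    intro s hs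
    have h1 : arm q s ≤ C * Real.sqrt (m / (s + 1)) * π :=
      (arm_mono_param s hq).trans (hreg s m hm hs)
    calc arm q s ^ 2 ≤ (C * Real.sqrt (m / (s + 1)) * π) ^ 2 := by
          gcongr
          exact arm_nonneg
      _ = C ^ 2 * Real.sqrt (m / (s + 1)) ^ 2 * π ^ 2 := by ring
      _ = _ := by rw [Real.sq_sqrt (by positivity)]
  set P : Vert → ℝ := fun v => Pr q {ω | Conn ω Set.univ 0 v} with hP
  have hP0 : ∀ v, 0 ≤ P v := fun v => Pr_nonneg
  -- near points
  have hnear : ∑ v ∈ Pool.Agent.H85.Gamma.bx (8 * m), P v ≤ 520 * C ^ 2 * m ^ 2 * π ^ 2 := by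
    have h1 : ∀ v ∈ Pool.Agent.H85.Gamma.bx (8 * m),
        P v ≤ 8 * C ^ 2 * m * π ^ 2 * (1 / ((Pool.Agent.H85.Gamma.nrm v : ℝ) + 1)) := by
      intro v hv
      rw [su_nrm] at hv
      set n := Pool.Agent.H85.Gamma.nrm v with hn
      set s := min (n / 2 - 1) m with hs
      have h2 : P v ≤ arm q s ^ 2 :=
        Pool.Agent.H85.Gamma.Pr_conn_le' q Set.univ v s (by omega)
      have h3 : n + 1 ≤ 8 * (s + 1) := by omega
      have h4 : (n : ℝ) + 1 ≤ 8 * ((s : ℝ) + 1) := by exact_mod_cast h3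
      have h5 : (m : ℝ) / (s + 1) ≤ 8 * m * (1 / ((n : ℝ) + 1)) := by
        rw [mul_one_div, div_le_div_iff₀ (by positivity) (by positivity)]
        nlinarith only [h4]
      calc P v ≤ arm q s ^ 2 := h2
        _ ≤ C ^ 2 * (m / (s + 1)) * π ^ 2 := hsq s (min_le_right _ _)
        _ ≤ C ^ 2 * (8 * m * (1 / ((n : ℝ) + 1))) * π ^ 2 := by gcongr
        _ = _ := by ring
    refine (Finset.sum_le_sum h1).trans ?_
    rw [← Finset.mul_sum]
    have h6 := su_box (8 * m)
    push_cast at h6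
    have h7 : 8 * (8 * (m : ℝ)) + 1 ≤ 65 * m := by linarith only [hmp]
    calc 8 * C ^ 2 * m * π ^ 2 * ∑ v ∈ Pool.Agent.H85.Gamma.bx (8 * m),
          1 / ((Pool.Agent.H85.Gamma.nrm v : ℝ) + 1)
        ≤ 8 * C ^ 2 * m * π ^ 2 * (65 * m) := by
          gcongr
          exact h6.trans h7
      _ = _ := by ring
  -- all boxes
  have hall : ∀ K : ℕ, ∑ v ∈ Pool.Agent.H85.Gamma.bx (8 * (3 ^ K * m)), P v ≤
      (521 - (1 / 9) ^ K) * C ^ 2 * m ^ 2 * π ^ 2 := by
    intro K
    induction K with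
    | zero =>
      simp only [pow_zero, one_mul]
      refine hnear.trans (le_of_eq ?_)
      ring
    | succ K ih =>
      have hsub : Pool.Agent.H85.Gamma.bx (8 * (3 ^ K * m)) ⊆
          Pool.Agent.H85.Gamma.bx (8 * (3 ^ (K + 1) * m)) := by
        intro v hv
        rw [su_nrm] at hv ⊢
        refine hv.trans ?_
        gcongr
        · norm_num
        · omega
      rw [← Finset.sum_sdiff hsub]
      set a := Pr q (ArmBox 0 (3 ^ K * m) (7 * (3 ^ K * m))) with ha
      have hit : 10 ^ 8 * a ≤ (1 / 81) ^ (K + 1) := su_iter hm h0 K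
      have ha0 : 0 ≤ a := Pr_nonneg
      have h1 : ∀ v ∈ Pool.Agent.H85.Gamma.bx (8 * (3 ^ (K + 1) * m)) \
          Pool.Agent.H85.Gamma.bx (8 * (3 ^ K * m)), P v ≤ C ^ 2 * π ^ 2 * a := by
        intro v hv
        rw [Finset.mem_sdiff, Pool.Agent.H85.Gamma.mem_bx, Pool.Agent.H85.Gamma.mem_bx] at hv
        have h2 : P v ≤ arm q (m - 1) ^ 2 * a :=
          su_far hm (Nat.le_mul_of_pos_left _ (by positivity)) hv.2
        have h3 := hsq (m - 1) (Nat.sub_le _ _)
        have h4 : (m : ℝ) / (((m - 1 : ℕ) : ℝ) + 1) = 1 := by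
          have : ((m - 1 : ℕ) : ℝ) + 1 = m := by
            have : m - 1 + 1 = m := by omega
            exact_mod_cast this
          rw [this, div_self (by positivity)]
        rw [h4, mul_one] at h3
        refine h2.trans ?_
        gcongr
      have h2 : ∑ v ∈ Pool.Agent.H85.Gamma.bx (8 * (3 ^ (K + 1) * m)) \
          Pool.Agent.H85.Gamma.bx (8 * (3 ^ K * m)), P v ≤
          (8 / 9 * (1 / 9) ^ K) * C ^ 2 * m ^ 2 * π ^ 2 := by
        refine (Finset.sum_le_card_nsmul _ _ _ h1).trans ?_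
        rw [nsmul_eq_mul]
        have h3 : ((Pool.Agent.H85.Gamma.bx (8 * (3 ^ (K + 1) * m)) \
          Pool.Agent.H85.Gamma.bx (8 * (3 ^ K * m))).card : ℝ) ≤ 10 ^ 7 * 9 ^ (K + 1) * m ^ 2 := by
          refine (Nat.cast_le.2 (Finset.card_le_card Finset.sdiff_subset)).trans ?_
          rw [Pool.Agent.H85.Gamma.card_bx]
          push_cast
          have h5 : (1 : ℝ) ≤ 3 ^ (K + 1) * m := by
            have : (1 : ℝ) ≤ 3 ^ (K + 1) := one_le_pow₀ (by norm_num)
            nlinarith only [hmp, this]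
          have h9 : (9 : ℝ) ^ (K + 1) = ((3 : ℝ) ^ (K + 1)) ^ 2 := by
            rw [← pow_mul, mul_comm, pow_mul]
            norm_num
          calc ((2 : ℝ) * (8 * ((3 : ℝ) ^ (K + 1) * (m : ℝ))) + 1) ^ 2
              ≤ (17 * ((3 : ℝ) ^ (K + 1) * (m : ℝ))) ^ 2 := by
                gcongr
                linarith only [h5]
            _ = 289 * 9 ^ (K + 1) * (m : ℝ) ^ 2 := by
                rw [h9]
                ring
            _ ≤ 10 ^ 7 * 9 ^ (K + 1) * (m : ℝ) ^ 2 := by
                gcongr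
                norm_num
        have h6 : (9 : ℝ) ^ (K + 1) * (1 / 81) ^ (K + 1) = (1 / 9) ^ (K + 1) := by
          rw [← mul_pow]
          norm_num
        calc ((Pool.Agent.H85.Gamma.bx (8 * (3 ^ (K + 1) * m)) \
              Pool.Agent.H85.Gamma.bx (8 * (3 ^ K * m))).card : ℝ) * (C ^ 2 * π ^ 2 * a)
            ≤ (10 ^ 7 * 9 ^ (K + 1) * m ^ 2) * (C ^ 2 * π ^ 2 * a) := by gcongr
          _ = 1 / 10 * 9 ^ (K + 1) * (10 ^ 8 * a) * C ^ 2 * m ^ 2 * π ^ 2 := by ring
          _ ≤ 1 / 10 * 9 ^ (K + 1) * (1 / 81) ^ (K + 1) * C ^ 2 * m ^ 2 * π ^ 2 := by gcongr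
          _ = 1 / 10 * (9 ^ (K + 1) * (1 / 81) ^ (K + 1)) * C ^ 2 * m ^ 2 * π ^ 2 := by ring
          _ = 1 / 10 * (1 / 9) ^ (K + 1) * C ^ 2 * m ^ 2 * π ^ 2 := by rw [h6]
          _ ≤ (8 / 9 * (1 / 9) ^ K) * C ^ 2 * m ^ 2 * π ^ 2 := by
              gcongr ?_ * _ * _ * _
              rw [pow_succ]
              have : (0 : ℝ) ≤ (1 / 9) ^ K := by positivity
              nlinarith only [this]
      calc _ ≤ (8 / 9 * (1 / 9) ^ K) * C ^ 2 * m ^ 2 * π ^ 2 +
            (521 - (1 / 9) ^ K) * C ^ 2 * m ^ 2 * π ^ 2 := add_le_add h2 ih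
        _ = _ := by rw [pow_succ]; ring
  rw [su_sigma, ENNReal.tsum_eq_iSup_sum]
  refine iSup_le fun F => ?_
  rw [← ENNReal.ofReal_sum_of_nonneg fun v _ => Pr_nonneg]
  apply ENNReal.ofReal_le_ofReal
  -- `F` is contained in a box
  obtain ⟨K, hK⟩ : ∃ K : ℕ, F ⊆ Pool.Agent.H85.Gamma.bx (8 * (3 ^ K * m)) := by
    refine ⟨F.sup Pool.Agent.H85.Gamma.nrm, fun v hv => ?_⟩
    rw [su_nrm]
    have h1 : Pool.Agent.H85.Gamma.nrm v ≤ F.sup Pool.Agent.H85.Gamma.nrm := Finset.le_sup hv
    have h2 : F.sup Pool.Agent.H85.Gamma.nrm < 3 ^ (F.sup Pool.Agent.H85.Gamma.nrm) :=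
      Nat.lt_pow_self (by norm_num)
    have h3 : 3 ^ (F.sup Pool.Agent.H85.Gamma.nrm) ≤
      3 ^ (F.sup Pool.Agent.H85.Gamma.nrm) * m := Nat.le_mul_of_pos_right _ hm
    omega
  calc ∑ v ∈ F, P v ≤ ∑ v ∈ Pool.Agent.H85.Gamma.bx (8 * (3 ^ K * m)), P v :=
        Finset.sum_le_sum_of_subset_of_nonneg hK fun v _ _ => hP0 v
    _ ≤ (521 - (1 / 9) ^ K) * C ^ 2 * m ^ 2 * π ^ 2 := hall K
    _ ≤ 1000 * C ^ 2 * m ^ 2 * π ^ 2 := by
        gcongr
        have : (0 : ℝ) ≤ (1 / 9) ^ K := by positivity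
        linarith only [this]

end Pool.Agent.H83.EX

end

section

/-! # Good scales: percolation probability and mean cluster size -/

open MeasureTheory ProbabilityTheory unitInterval
open scoped ENNReal

namespace Pool.Agent.H83.EX

open Pool.Agent.H89.Perc

/-- At a good scale the percolation probability is comparable to the one-arm probability and the
mean cluster size at the dual density is bounded. -/
theorem good_scale : ∃ δ > (0 : ℝ), ∃ c > (0 : ℝ), ∃ C > (0 : ℝ), ∀ p : I, half ≤ p → ∀ m : ℕ,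
    1 ≤ m → Good δ p m → c * arm p m ≤ theta p ∧
      Pool.Agent.H85.Gamma.sigma (σ p) ≤ ENNReal.ofReal (C * (m : ℝ) ^ 2 * arm half m ^ 2) := by
  obtain ⟨ε₁, hε₁, c, hc, H1⟩ := Pool.Agent.H57.LF.fs
  obtain ⟨ε₂, hε₂, C, hC, H2⟩ := sigma_upper
  obtain ⟨δ, hδ, H3⟩ := strong_rsw (min ε₁ (ε₂ / 4)) (lt_min hε₁ (by positivity))
  refine ⟨δ, hδ, c, hc, C, hC, fun p hp m hm h => ?_⟩
  have h1 := H3 p hp m hm h
  have h2 : Pr p {ω | HCross ω 0 (16 * m) 0 (5 * m)} ≤
      Pr p {ω | HCross ω m (16 * m) (-m) (4 * m)} := by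
    have e := Pr_hcross_translate (p := p) (a := (0 : ℤ)) (b := 16 * (m : ℤ)) (c := 0)
      (d := 5 * (m : ℤ)) 0 (-(m : ℤ))
    rw [← e]
    refine Pr_mono ?_
    intro ω h
    simp only [Set.mem_ofPred_eq] at h ⊢
    have hm' : (1 : ℤ) ≤ m := by exact_mod_cast hm
    exact HCross.mono h (by omega) (by omega) (by omega) (by omega) (by omega)
  have h3 := h1.trans h2
  refine ⟨H1 p hp m hm (le_trans (by linarith only [min_le_left ε₁ (ε₂ / 4)]) h3), ?_⟩
  have h4 := Pool.Agent.H57.LF.fs_annulus (p := p) hm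
  refine H2 (σ p) ?_ m hm (by linarith only [h1, h2, h4, min_le_right ε₁ (ε₂ / 4)])
  have h5 : (1 / 2 : ℝ) ≤ p := hp
  change (1 : ℝ) - p ≤ 1 / 2
  linarith only [h5]

end Pool.Agent.H83.EX

end

section

/-!
# A pivotal edge for the event `W0`
-/

open MeasureTheory ProbabilityTheory unitInterval

namespace Pool.Agent.H61.NC

open Pool.Agent.H89.Perc

end Pool.Agent.H61.NC

end

section

/-!
# Extension of one-arm events in the box-crossing regime
-/

open MeasureTheory ProbabilityTheory unitInterval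

namespace Pool.Agent.H61.NC

open Pool.Agent.H89.Perc Pool.Agent.H85.Strict

/-! ### Finite energy -/

/-! ### One step of the extension -/

end Pool.Agent.H61.NC

end

section

/-!
# Gluing of the arm of the middle vertex and the outer event
-/

open MeasureTheory ProbabilityTheory unitInterval

namespace Pool.Agent.H61.NC

open Pool.Agent.H89.Perc

end Pool.Agent.H61.NC

end

section

/-! # Box crossing property at general densities -/

open MeasureTheory ProbabilityTheory unitInterval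

namespace Pool.Agent.H83.EX

open Pool.Agent.H89.Perc

end Pool.Agent.H83.EX

end

section

/-!
# Triangularity
-/

namespace Pool.Agent.H12.QKZ

open H56.EX

/-- Induction principle: to prove a property of all patterns it suffices to treat the rotations of
the base pattern and to descend through good positions. -/
theorem pat_induction {L : ℕ} {motive : Pat L → Prop}
    (hbase : ∀ (k : ℕ) (B : Pat L), IsBase B → motive (rot^[k] B))
    (hstep : ∀ (P : Pat L) (i : ℤ), Good P i → motive (E i P) →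
      (∀ P' : Pat L, E i P' = E i P → P' ≠ P → motive P') → motive P) :
    ∀ P, motive P := by
  have key : ∀ (N : ℕ) (P : Pat L), ((L : ℤ) * L - area P).toNat = N → motive P := by
    intro N
    induction N using Nat.strong_induction_on with
    | _ N ih =>
      intro P hP
      rcases good_or_base P with ⟨k, B, hB, rfl⟩ | ⟨i, hi⟩
      · exact hbase k B hB
      · have hdesc : ∀ P' : Pat L, area P < area P' → motive P' := by
          intro P' hlt
          have h1 := area_le P'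
          exact ih _ (by omega) P' rfl
        refine hstep P i hi (hdesc _ (area_lt_of_good hi)) ?_
        intro P' hE hne
        rcases fibre_of_good hi hE with h | h
        · exact absurd h hne
        · exact hdesc P' h
  exact fun P => key _ P rfl

theorem triangular : Triangular := by
  intro L Ω O s r z D hs hr hz exch hrot hbase
  have hz' : ∀ (P : Pat L), ∀ ω ∈ O, D P ω = 0 := by
    apply pat_induction
    · intro k B hB
      induction k with
      | zero => exact hbase B hB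
      | succ k ih =>
        intro ω hω
        obtain ⟨ω', hω', rfl⟩ := hr ω hω
        rw [Function.iterate_succ', Function.comp_apply, hrot _ ω' hω']
        exact ih ω' hω'
    · intro P i hi hQ hother ω hω
      have h1 := exch (E i P) ω hω i
      rw [hQ _ (hs i ω hω), hQ ω hω, mul_zero, mul_zero, zero_add] at h1
      have h2 : eop i (fun P' => D P' ω) (E i P) = 0 := by
        rcases mul_eq_zero.1 h1.symm with h | h
        · exact absurd (sub_eq_zero.1 h) (hz ω hω i)
        · exact h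
      unfold eop at h2
      rw [Finset.sum_eq_single P] at h2
      · rwa [if_pos rfl] at h2
      · intro P' _ hne
        split_ifs with hE
        · exact hother P' hE hne ω hω
        · rfl
      · intro h; exact absurd (Finset.mem_univ _) h
  exact hz'

end Pool.Agent.H12.QKZ

end

section

/-!
# The normalised fixed vector for admissible angles
-/

namespace Pool.Agent.H12.QKZ

open H56.EX Matrix

set_option linter.unusedSectionVars false

variable {L : ℕ}

theorem even_of_pat (P : Pat L) : Even L := by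
  have key : ∀ _ : Pat L, Even L := by
    apply pat_induction (motive := fun _ => Even L)
    · intro k B hB
      rcases Nat.even_or_odd' L with ⟨n, hn | hn⟩
      · exact ⟨n, by omega⟩
      · exfalso
        have h1 := hB n (by omega) (by omega)
        apply B.not_dvd_self n
        rw [h1, hn]
        refine ⟨-1, ?_⟩
        push_cast; ring
    · intro _ _ _ h _; exact h
  exact key P

/-- Existence and uniqueness of the normalised fixed vector. -/
theorem Sc_fixed {θ : ℤ → ℝ} {m : ℤ} (P₀ : Pat L) (h : Adm L θ m) :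
    ∃! v : Pat L → ℝ, Sc θ m *ᵥ v = v ∧ ∑ P, v P = 1 := by
  have hL := P₀.two_le
  have hE := even_of_pat P₀
  have hpos : PosAt (Sc θ m : Matrix (Pat L) (Pat L) ℝ) (H56.EX.rot ∘ gk m (L - 1)) := by
    unfold Sc
    exact PosAt.mul (PosAt.mapMat _) (W_pos h _ (by omega)) (mapMat_colStoch _).1
      (W_stoch h _ (by omega)).1
  apply exists_unique_fixed (Sc_stoch hL h) (k := 1) (s := H56.EX.rot (gk m (L - 1) P₀))
  intro P
  rw [pow_one]
  have := hpos P
  rwa [Function.comp_apply, gk_const hL hE m P P₀] at this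

theorem psiR_spec {θ : ℤ → ℝ} {m : ℤ} (P₀ : Pat L) (h : Adm L θ m) :
    Sc θ m *ᵥ psiR L θ = psiR L θ ∧ ∑ P, psiR L θ P = 1 := by
  have hex : ∃ v : Pat L → ℝ, ∃ m, Adm L θ m ∧ Sc θ m *ᵥ v = v ∧ ∑ P, v P = 1 := by
    obtain ⟨v, hv, -⟩ := Sc_fixed P₀ h
    exact ⟨v, m, h, hv⟩
  unfold psiR
  rw [dif_pos hex]
  obtain ⟨m', h', h1, h2⟩ := hex.choose_spec
  refine ⟨?_, h2⟩
  rw [Sc_congr h.per (h.max_unique h')]
  exact h1

theorem psiR_unique {θ : ℤ → ℝ} {m : ℤ} (P₀ : Pat L) (h : Adm L θ m) {v : Pat L → ℝ}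
    (h1 : Sc θ m *ᵥ v = v) (h2 : ∑ P, v P = 1) : v = psiR L θ :=
  (Sc_fixed P₀ h).unique ⟨h1, h2⟩ (psiR_spec P₀ h)

theorem psiR_rot {θ : ℤ → ℝ} {m : ℤ} (P₀ : Pat L) (h : Adm L θ m) :
    RotM *ᵥ psiR L θ = psiR L (fun x => θ (x - 1)) := by
  apply psiR_unique P₀ h.rot
  · rw [Matrix.mulVec_mulVec, ← Sc_rot, ← Matrix.mulVec_mulVec, (psiR_spec P₀ h).1]
  · have := (mapMat_colStoch (H56.EX.rot : Pat L → Pat L)).sum_mulVec (psiR L θ)
    unfold RotM
    rw [this, (psiR_spec P₀ h).2]

theorem psiR_exch_max {θ : ℤ → ℝ} {m : ℤ} (P₀ : Pat L) (h : Adm L θ m) :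
    RR m (θ m - θ (m + 1)) *ᵥ psiR L θ = psiR L (sw L m θ) := by
  have hL := P₀.two_le
  have h' := h.sw hL m
  rw [tau_of_i (Cg.refl' m)] at h'
  apply psiR_unique P₀ h'
  · rw [Matrix.mulVec_mulVec, ← Sc_swap_max hL h.per, ← Matrix.mulVec_mulVec,
      (psiR_spec P₀ h).1]
  · rw [RR_sum, (psiR_spec P₀ h).2]

/-- The exchange relation for the normalised vector. -/
theorem psiR_exch {θ : ℤ → ℝ} {m : ℤ} (P₀ : Pat L) (h : Adm L θ m) (i : ℤ) :
    RR i (θ i - θ (i + 1)) *ᵥ psiR L θ = psiR L (sw L i θ) := by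
  have hL := P₀.two_le
  have hpos : (0 : ℤ) < L := by omega
  -- reduce to `m ≤ i < m + L`
  obtain ⟨j, hj⟩ : ∃ j, j = m + (i - m) % L := ⟨_, rfl⟩
  have hj0 := Int.emod_nonneg (i - m) hpos.ne'
  have hj1 := Int.emod_lt_of_pos (i - m) hpos
  have hc : Cg L i j := by
    unfold Cg
    rw [hj, show i - (m + (i - m) % L) = (i - m) - (i - m) % L by ring]
    exact Int.dvd_self_sub_emod
  have hsw : sw L i θ = sw L j θ := by
    funext x
    unfold sw
    have e1 : Cg L x i ↔ Cg L x j := ⟨fun h' => Cg.trans' h' hc,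
      fun h' => Cg.trans' h' (Cg.symm' hc)⟩
    have e2 : Cg L x (i + 1) ↔ Cg L x (j + 1) := ⟨fun h' => Cg.trans' h' (Cg.add 1 hc),
      fun h' => Cg.trans' h' (Cg.symm' (Cg.add 1 hc))⟩
    simp only [e1, e2]
  rw [hsw, RR_congr hc, h.congr hc, h.congr (Cg.add 1 hc)]
  rcases lt_or_ge m j with h1 | h1
  · rcases lt_or_ge (j + 1) (m + L) with h2 | h2
    · have h' := h.sw hL j
      rw [tau_other (fun hc => not_cg_of_lt (by omega) (by omega) (Cg.symm' hc))
        (fun hc => not_cg_of_lt (by omega) (by omega) (Cg.symm' hc))] at h'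
      apply psiR_unique P₀ h'
      · rw [Matrix.mulVec_mulVec, ← Sc_swap_other h m j h1 h2, ← Matrix.mulVec_mulVec,
          (psiR_spec P₀ h).1]
      · rw [RR_sum, (psiR_spec P₀ h).2]
    · -- the maximal line is at `j + 1`
      have hj2 : j + 1 = m + L := by omega
      have hcm : Cg L m (j + 1) := by rw [hj2]; unfold Cg; simp
      have h' := h.sw hL j
      rw [tau_of_succ hL hcm] at h'
      have hcj : Cg L (m - 1) j := by
        have := Cg.sub 1 hcm
        rwa [add_sub_cancel_right] at this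
      have h'' : Adm L (sw L j θ) j := by
        refine ⟨h'.per, h'.pos, h'.lt, h'.inj, fun x hx => ?_⟩
        rw [← h'.congr hcj]
        exact h'.max x fun hx' => hx (Cg.trans' hx' hcj)
      have key := psiR_exch_max P₀ h''
      rw [sw_sw hL, sw_of_i (Cg.refl' j), sw_of_succ hL (Cg.refl' (j + 1)),
        add_sub_cancel_right] at key
      rw [← key, Matrix.mulVec_mulVec]
      have := RR_inv (L := L) j (h.abs_lt j (j + 1))
      rw [neg_sub] at this
      rw [this, Matrix.one_mulVec]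
  · have : j = m := by omega
    rw [this]
    exact psiR_exch_max P₀ h

end Pool.Agent.H12.QKZ

end

section

/-!
# Normalisation by the base component
-/

namespace Pool.Agent.H12.QKZ

open H56.EX Matrix

variable {L : ℕ}

theorem psiC_exch (P₀ : Pat L) {θ : ℤ → ℝ} (h : Oset L θ) (i : ℤ) (P : Pat L) :
    (q * zc (θ (i + 1)) - q⁻¹ * zc (θ i)) * (psiR L (sw L i θ) P : ℂ)
      = (q * zc (θ i) - q⁻¹ * zc (θ (i + 1))) * (psiR L θ P : ℂ)
        + (zc (θ i) - zc (θ (i + 1))) * eop i (fun P' => (psiR L θ P' : ℂ)) P := by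
  have hden := h.den (i + 1) i
  obtain ⟨m, hm⟩ := h
  have h1 := congrFun (psiR_exch P₀ hm i) P
  have h2 : (EM i *ᵥ psiR L θ) P = ∑ P', if E i P' = P then psiR L θ P' else 0 := by
    unfold EM; rw [mapMat_mulVec]
  unfold RR Rm at h1
  simp only [Matrix.add_mulVec, Matrix.smul_mulVec, Matrix.one_mulVec, Pi.add_apply,
    Pi.smul_apply, smul_eq_mul] at h1
  rw [h2] at h1
  have h3 : ((∑ P', if E i P' = P then psiR L θ P' else 0 : ℝ) : ℂ)
      = eop i (fun P' => (psiR L θ P' : ℂ)) P := by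
    unfold eop
    push_cast
    refine Finset.sum_congr rfl fun P' _ => ?_
    split_ifs <;> simp
  have hb : ((br (θ i - θ (i + 1)) : ℝ) : ℂ)
      = (zc (θ i) - zc (θ (i + 1))) / (q * zc (θ (i + 1)) - q⁻¹ * zc (θ i)) := by
    rw [← bw_zc, bw, qc_q, q_inv]
  have hbd : ((br (θ i - θ (i + 1)) : ℝ) : ℂ) * (q * zc (θ (i + 1)) - q⁻¹ * zc (θ i))
      = zc (θ i) - zc (θ (i + 1)) := by
    rw [hb, div_mul_cancel₀ _ hden]
  have h4 : ((psiR L (sw L i θ) P : ℝ) : ℂ) = (1 - ((br (θ i - θ (i + 1)) : ℝ) : ℂ)) * psiR L θ P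
      + ((br (θ i - θ (i + 1)) : ℝ) : ℂ) * eop i (fun P' => (psiR L θ P' : ℂ)) P := by
    rw [← h3, ← h1]; push_cast; ring
  rw [h4]
  have hq := q_sq
  have hqi := q_inv
  linear_combination (eop i (fun P' => (psiR L θ P' : ℂ)) P - psiR L θ P) * hbd
    + ((zc (θ (i + 1)) - zc (θ i)) * psiR L θ P) * hq
    + ((zc (θ (i + 1)) - zc (θ i)) * psiR L θ P) * hqi

/-! ### Base patterns -/

theorem base_arc {B : Pat L} (hB : IsBase B) {i : ℤ} (h : B.m i = i + 1) : Cg L (i + 1) 0 := by
  obtain ⟨x, hx, h1, h2⟩ := base_window (even_of_pat B) B.two_le i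
  have h3 : B.m i = B.m x + (i - x) := B.per_dvd hx
  rw [hB x h1 h2, h] at h3
  have : x = -1 := by linarith
  subst this
  unfold Cg at hx ⊢
  rwa [show i - -1 = i + 1 - 0 by ring] at hx

theorem base_unique {B B' : Pat L} (hB : IsBase B) (hB' : IsBase B') : B = B' := by
  apply Pat.ext
  funext i
  obtain ⟨x, hx, h1, h2⟩ := base_window (even_of_pat B) B.two_le i
  exact Pat.eq_of_dvd hx (by rw [hB x h1 h2, hB' x h1 h2])

theorem eop_base {B : Pat L} (hB : IsBase B) {i : ℤ} (hi : ¬ Cg L (i + 1) 0) (v : Pat L → ℂ) :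
    eop i v B = 0 := by
  unfold eop
  apply Finset.sum_eq_zero
  intro P' _
  rw [if_neg]
  intro h
  apply hi
  apply base_arc hB
  rw [← h, E.self]

/-! ### Closure under rotations -/

/-! ### The base component does not vanish -/

theorem psiR_base_ne {B : Pat L} (hB : IsBase B) {θ : ℤ → ℝ} (hθ : Oset L θ) :
    psiR L θ B ≠ 0 := by
  intro h0
  have hL := B.two_le
  set C : (ℤ → ℝ) → Prop := fun θ => psiR L θ B = 0 with hCdef
  have hC : ∀ θ : ℤ → ℝ, Oset L θ → ∀ i : ℤ, ¬ Cg L (i + 1) 0 → C θ → C (sw L i θ) := by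
    intro θ hθ i hi hc
    have h1 := psiC_exch B hθ i B
    rw [eop_base hB hi, show psiR L θ B = 0 from hc] at h1
    simp only [Complex.ofReal_zero, mul_zero, add_zero] at h1
    have h2 := (mul_eq_zero.1 h1).resolve_left (hθ.den (i + 1) i)
    exact_mod_cast h2
  have htri := triangular L (ℤ → ℝ) {θ | Oset L θ ∧ C θ} (fun i θ => sw L i θ)
    (fun θ x => θ (x - 1)) (fun θ x => zc (θ x)) (fun P θ => (psiR L θ P : ℂ))
    (fun i θ h => ⟨h.1.sw hL i, closure_sw hL C hC h.1 h.2 i⟩)
    (fun θ h => ⟨fun x => θ (x + 1), ⟨h.1.rot', closure_left hL C hC h.1 h.2⟩, by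
      funext x; simp⟩)
    (fun θ h i => h.1.zne hL i)
    (fun P θ h i => psiC_exch B h.1 i P)
    (fun P θ h => by
      obtain ⟨m, hm⟩ := h.1
      have h1 := congrFun (psiR_rot B hm) (rot P)
      rw [← h1]
      unfold RotM
      rw [mapMat_mulVec, Finset.sum_eq_single P]
      · rw [if_pos rfl]
      · intro P' _ hne
        rw [if_neg]
        intro h'
        apply hne
        apply Pat.ext
        funext x
        have := congrArg (fun R : Pat L => R.m (x + 1)) h'
        simp only [rot_m, add_sub_cancel_right, add_left_inj] at this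
        exact this
      · intro h; exact absurd (Finset.mem_univ _) h)
    (fun B' hB' θ h => by
      rw [base_unique hB' hB]
      have := h.2
      simp only [hCdef] at this
      rw [this]; simp)
  obtain ⟨m, hm⟩ := hθ
  have hsum := (psiR_spec B hm).2
  have : ∀ P, psiR L θ P = 0 := by
    intro P
    have := htri P θ ⟨⟨m, hm⟩, h0⟩
    exact_mod_cast this
  simp [this] at hsum

end Pool.Agent.H12.QKZ

end

section

/-!
# The renormalised vector and its polynomiality
-/

namespace Pool.Agent.H12.QKZ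

open H56.EX Matrix MvPolynomial

variable {L : ℕ}

theorem gp_congr {n : ℕ} {s s' : ℕ → ℂ} (h : ∀ i < n, s i = s' i) : gp n s = gp n s' := by
  unfold gp
  refine Finset.prod_congr rfl fun j hj => Finset.prod_congr rfl fun i hi => ?_
  rw [Finset.mem_range] at hi hj
  rw [h j hj, h i (hi.trans hj)]

/-- The normalising factor. -/
noncomputable def lam (B : Pat L) (θ : ℤ → ℝ) : ℂ :=
  gp L (fun k => zc (θ (k : ℕ))) / (psiR L θ B : ℂ)

theorem sw_nat {θ : ℤ → ℝ} (hL : 2 ≤ L) {k : ℕ} (hk : k + 1 < L) {i : ℕ} (hi : i < L) :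
    sw L k θ i = θ (Equiv.swap k (k + 1) i : ℕ) := by
  by_cases h1 : i = k
  · subst h1
    rw [sw_of_i (Cg.refl' _), Equiv.swap_apply_left]; push_cast; rfl
  by_cases h2 : i = k + 1
  · subst h2
    rw [sw_of_succ hL (by push_cast; exact Cg.refl' _), Equiv.swap_apply_right]
    congr 1; push_cast; ring
  · rw [Equiv.swap_apply_of_ne_of_ne h1 h2, sw_other]
    · intro h
      have := (cg_iff_eq_zero (by omega) (by omega)).1 h
      omega
    · intro h
      have := (cg_iff_eq_zero (by omega) (by omega)).1 h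
      omega

theorem lam_sw_aux {B : Pat L} (hB : IsBase B) {θ : ℤ → ℝ} (hθ : Oset L θ) (i : ℤ)
    (hi : ¬ Cg L (i + 1) 0) : lam B (sw L i θ) = lam B θ := by
  have hL := B.two_le
  have hpos : (0 : ℤ) < L := by omega
  obtain ⟨k, hk⟩ : ∃ k : ℕ, (k : ℤ) = i % L :=
    ⟨(i % L).toNat, Int.toNat_of_nonneg (Int.emod_nonneg _ hpos.ne')⟩
  have hc : Cg L i k := by rw [hk]; exact cg_emod i
  have hkL : k < L := by
    have := Int.emod_lt_of_pos i hpos
    omega
  have hk1 : k + 1 < L := by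
    by_contra hcon
    apply hi
    have h1 : Cg L (i + 1) (k + 1) := Cg.add 1 hc
    refine Cg.trans' h1 ?_
    have : (k : ℤ) + 1 = L := by omega
    rw [this]; unfold Cg; simp
  have hi' : ¬ Cg L ((k : ℤ) + 1) 0 := fun h => hi (Cg.trans' (Cg.add 1 hc) h)
  rw [sw_congr hc]
  have h1 : gp L (fun j => zc (sw L k θ (j : ℕ)))
      = gp L (fun j => (fun j : ℕ => zc (θ (j : ℕ))) (Equiv.swap k (k + 1) j)) := by
    apply gp_congr
    intro j hj
    simp only
    rw [sw_nat hL hk1 hj]
  have h2 := gp_swap (fun j : ℕ => zc (θ (j : ℕ))) k L (by omega)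
  rw [← h1] at h2
  have h3 := psiC_exch B hθ k B
  rw [eop_base hB hi', mul_zero, add_zero] at h3
  have n1 := psiR_base_ne hB hθ
  have n2 := psiR_base_ne hB (hθ.sw hL k)
  have n1' : (psiR L θ B : ℂ) ≠ 0 := by exact_mod_cast n1
  have n2' : (psiR L (sw L k θ) B : ℂ) ≠ 0 := by exact_mod_cast n2
  have d1 := hθ.den (k + 1) k
  have d2 := hθ.den k (k + 1)
  unfold lam
  rw [div_eq_div_iff n2' n1']
  push_cast at h2
  apply mul_left_cancel₀ d1
  linear_combination (psiR L θ B : ℂ) * h2 - gp L (fun j : ℕ => zc (θ (j : ℕ))) * h3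

theorem lam_closed {B : Pat L} (hB : IsBase B) (c : ℂ) : ∀ θ : ℤ → ℝ, Oset L θ → ∀ i : ℤ,
    ¬ Cg L (i + 1) 0 → (fun θ => lam B θ = c) θ → (fun θ => lam B θ = c) (sw L i θ) := by
  intro θ hθ i hi h
  show lam B (sw L i θ) = c
  rw [lam_sw_aux hB hθ i hi]; exact h

theorem lam_sw {B : Pat L} (hB : IsBase B) {θ : ℤ → ℝ} (hθ : Oset L θ) (i : ℤ) :
    lam B (sw L i θ) = lam B θ :=
  closure_sw B.two_le _ (lam_closed hB (lam B θ)) hθ rfl i

theorem lam_rot {B : Pat L} (hB : IsBase B) {θ : ℤ → ℝ} (hθ : Oset L θ) :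
    lam B (fun x => θ (x - 1)) = lam B θ :=
  closure_right B.two_le _ (lam_closed hB (lam B θ)) hθ rfl

/-- The renormalised vector at admissible angles. -/
noncomputable def PsiN (B : Pat L) (P : Pat L) (θ : ℤ → ℝ) : ℂ := lam B θ * psiR L θ P

theorem PsiN_exch {B : Pat L} (hB : IsBase B) {θ : ℤ → ℝ} (h : Oset L θ) (i : ℤ) (P : Pat L) :
    (q * zc (θ (i + 1)) - q⁻¹ * zc (θ i)) * PsiN B P (sw L i θ)
      = (q * zc (θ i) - q⁻¹ * zc (θ (i + 1))) * PsiN B P θ
        + (zc (θ i) - zc (θ (i + 1))) * eop i (fun P' => PsiN B P' θ) P := by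
  have h1 := psiC_exch B h i P
  have h2 : eop i (fun P' => PsiN B P' θ) P
      = lam B θ * eop i (fun P' => (psiR L θ P' : ℂ)) P := by
    unfold eop PsiN
    rw [Finset.mul_sum]
    refine Finset.sum_congr rfl fun P' _ => ?_
    split_ifs <;> simp
  rw [h2]
  unfold PsiN
  rw [lam_sw hB h]
  linear_combination lam B θ * h1

theorem psiR_rot' {θ : ℤ → ℝ} (P : Pat L) (h : Oset L θ) :
    psiR L (fun x => θ (x - 1)) (rot P) = psiR L θ P := by
  obtain ⟨m, hm⟩ := h
  have h1 := congrFun (psiR_rot P hm) (rot P)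
  rw [← h1]
  unfold RotM
  rw [mapMat_mulVec, Finset.sum_eq_single P]
  · rw [if_pos rfl]
  · intro P' _ hne
    rw [if_neg]
    intro h'
    exact hne (rot_inj h')
  · intro h; exact absurd (Finset.mem_univ _) h

theorem PsiN_rot {B : Pat L} (hB : IsBase B) {θ : ℤ → ℝ} (h : Oset L θ) (P : Pat L) :
    PsiN B (rot P) (fun x => θ (x - 1)) = PsiN B P θ := by
  unfold PsiN
  rw [lam_rot hB h, psiR_rot' P h]

theorem PsiN_base {B : Pat L} (hB : IsBase B) {θ : ℤ → ℝ} (h : Oset L θ) :
    PsiN B B θ = gp L (fun k => zc (θ (k : ℕ))) := by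
  unfold PsiN lam
  have n1 := psiR_base_ne hB h
  have n1' : (psiR L θ B : ℂ) ≠ 0 := by exact_mod_cast n1
  rw [div_mul_cancel₀ _ n1']

theorem PsiN_rot_iter {B : Pat L} (hB : IsBase B) {θ : ℤ → ℝ} (h : Oset L θ) (P : Pat L) (k : ℕ) :
    PsiN B (rot^[k] P) θ = PsiN B P (fun x => θ (x + k)) := by
  induction k with
  | zero => simp
  | succ k ih =>
    rw [Function.iterate_succ', Function.comp_apply]
    have h1 := PsiN_rot hB (h.rot') (rot^[k] P)
    simp only [sub_add_cancel] at h1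
    rw [h1]
    -- now shift: `PsiN (rot^[k] P) (θ (· + 1))`
    clear h1 ih
    induction k generalizing θ with
    | zero => simp
    | succ k ih2 =>
      rw [Function.iterate_succ', Function.comp_apply]
      have h2 := PsiN_rot hB (h.rot'.rot') (rot^[k] P)
      have e : (fun x : ℤ => θ (x + 1)) = fun x : ℤ => θ (x - 1 + 1 + 1) := by
        funext x; congr 1; ring
      rw [e, h2]
      have h3 := ih2 h.rot'
      rw [h3]
      congr 1
      funext x; congr 1; push_cast; ring

theorem idx_iff (hL : 0 < L) (i : ℤ) (k : Fin L) : k = idx hL i ↔ Cg L (k : ℕ) i := by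
  constructor
  · rintro rfl; exact Cg.symm' (idx_cg hL i)
  · intro h
    have h1 := Cg.trans' h (idx_cg hL i)
    have h2 := k.isLt
    have h3 := (idx hL i).isLt
    have := (cg_iff_eq_zero (by omega) (by omega)).1 h1
    exact Fin.ext (by exact_mod_cast this)

/-- Evaluation of a swapped polynomial. -/
theorem eval_swap {α : Type*} {f : ℤ → α} (hf : ∀ x, f (x + L) = f x) (hL : 0 < L)
    (i : ℤ) (k : Fin L) :
    f ((Equiv.swap (idx hL i) (idx hL (i + 1)) k : Fin L) : ℕ)
      = (if Cg L (k : ℕ) i then f ((k : ℕ) + 1) else if Cg L (k : ℕ) (i + 1) then f ((k : ℕ) - 1)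
          else f (k : ℕ)) := by
  by_cases h1 : Cg L (k : ℕ) i
  · rw [if_pos h1, (idx_iff hL i k).2 h1, Equiv.swap_apply_left]
    apply per_dvd_fun hf
    exact Cg.trans' (Cg.symm' (idx_cg hL (i + 1))) (Cg.add 1 (idx_cg hL i))
  by_cases h2 : Cg L (k : ℕ) (i + 1)
  · rw [if_neg h1, if_pos h2, (idx_iff hL (i + 1) k).2 h2, Equiv.swap_apply_right]
    apply per_dvd_fun hf
    have h3 := Cg.sub 1 (idx_cg hL (i + 1))
    rw [add_sub_cancel_right] at h3
    exact Cg.trans' (Cg.symm' (idx_cg hL i)) h3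
  · rw [if_neg h1, if_neg h2, Equiv.swap_apply_of_ne_of_ne]
    · exact fun h => h1 ((idx_iff hL i k).1 h)
    · exact fun h => h2 ((idx_iff hL (i + 1) k).1 h)

/-- Polynomiality of all components. -/
theorem exists_poly {B : Pat L} (hB : IsBase B) (P : Pat L) :
    ∃ p : MvPolynomial (Fin L) ℂ, JointBd loF (upF L) p ∧
      ∀ θ : ℤ → ℝ, Oset L θ → PsiN B P θ = eval (fun k : Fin L => zc (θ (k : ℕ))) p := by
  classical
  have hL2 := B.two_le
  have hL : 0 < L := by omega
  revert P
  apply pat_induction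
  · intro k B' hB'
    rw [base_unique hB' hB]
    refine ⟨rename (cycE L k) (PhiP L), (PhiP_bd L).rename _, fun θ hθ => ?_⟩
    rw [PsiN_rot_iter hB hθ, PsiN_base hB (hθ.shift k), ← eval_PhiP, eval_rename]
    have e2 : (fun i : Fin L => zc (θ (((i : ℕ) : ℤ) + k)))
        = (fun i : Fin L => zc (θ ((i : ℕ) : ℤ))) ∘ (cycE L k) := by
      funext i
      simp only [Function.comp_apply]
      exact (eval_cyc (f := fun x => zc (θ x)) (fun x => by rw [hθ.per]) k i).symm
    exact congrArg (fun g => eval g (PhiP L)) e2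
  · intro P i hi hQ hother
    obtain ⟨pQ, hpQ, hpQ'⟩ := hQ
    obtain ⟨Q, hQ⟩ := exists_dd q_sq (idx_ne hL hL2 i) pQ
    choose! f hf1 hf2 using hother
    refine ⟨Q - ∑ P' : Pat L, (if E i P' = E i P ∧ P' ≠ P then f P' else 0), ?_, ?_⟩
    · refine (hpQ.dd (idx_ne hL hL2 i) hQ).sub (JointBd.sum _ _ fun P' _ => ?_)
      split_ifs with h
      · exact hf1 P' h.1 h.2
      · exact JointBd.zero _ _
    · intro θ hθ
      have h1 := PsiN_exch hB hθ i (E i P)
      rw [hpQ' _ (hθ.sw hL2 i), hpQ' _ hθ] at h1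
      have h2 := congrArg (eval (fun k : Fin L => zc (θ (k : ℕ)))) hQ.1
      unfold ddNum at h2
      simp only [map_mul, map_sub, eval_X, eval_C, eval_rename] at h2
      have e1 : zc (θ ((idx hL i : Fin L) : ℕ)) = zc (θ i) := by
        rw [per_dvd_fun hθ.per (idx_cg hL i)]
      have e2 : zc (θ ((idx hL (i + 1) : Fin L) : ℕ)) = zc (θ (i + 1)) := by
        rw [per_dvd_fun hθ.per (idx_cg hL (i + 1))]
      have e3 : (fun k : Fin L => zc (θ (k : ℕ))) ∘ (Equiv.swap (idx hL i) (idx hL (i + 1)))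
          = fun k : Fin L => zc (sw L i θ (k : ℕ)) := by
        funext k
        simp only [Function.comp_apply]
        rw [eval_swap (f := fun x => zc (θ x)) (fun x => by rw [hθ.per]) hL]
        unfold sw
        split_ifs <;> rfl
      rw [e1, e2, e3] at h2
      have hz := sub_ne_zero.2 (hθ.zne hL2 i)
      have h3 : eop i (fun P' => PsiN B P' θ) (E i P)
          = eval (fun k : Fin L => zc (θ (k : ℕ))) Q := by
        apply mul_left_cancel₀ hz
        rw [h2, ← q_inv]
        linear_combination -h1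
      have h4 : eop i (fun P' => PsiN B P' θ) (E i P) = PsiN B P θ
          + ∑ P' : Pat L, (if E i P' = E i P ∧ P' ≠ P then PsiN B P' θ else 0) := by
        unfold eop
        rw [← Finset.add_sum_erase Finset.univ _ (Finset.mem_univ P), if_pos rfl]
        congr 1
        rw [← Finset.add_sum_erase Finset.univ (fun P' : Pat L =>
          (if E i P' = E i P ∧ P' ≠ P then PsiN B P' θ else 0)) (Finset.mem_univ P)]
        rw [if_neg (by simp), zero_add]
        refine Finset.sum_congr rfl fun P' hP' => ?_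
        rw [Finset.mem_erase] at hP'
        by_cases hE : E i P' = E i P
        · rw [if_pos hE, if_pos ⟨hE, hP'.1⟩]
        · rw [if_neg hE, if_neg (fun h => hE h.1)]
      rw [map_sub, ← h3, h4, map_sum]
      have h5 : ∀ P' : Pat L, eval (fun k : Fin L => zc (θ (k : ℕ)))
          (if E i P' = E i P ∧ P' ≠ P then f P' else 0)
          = if E i P' = E i P ∧ P' ≠ P then PsiN B P' θ else 0 := by
        intro P'
        split_ifs with h
        · rw [hf2 P' h.1 h.2 θ hθ]
        · simp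
      rw [Finset.sum_congr rfl fun P' _ => h5 P']
      ring

end Pool.Agent.H12.QKZ

end

section

/-!
# The polynomial qKZ solution
-/

namespace Pool.Agent.H12.QKZ

open H56.EX Matrix MvPolynomial

variable {L : ℕ}

theorem exists_base (P : Pat L) : ∃ B : Pat L, IsBase B := by
  revert P
  apply pat_induction (motive := fun _ => ∃ B : Pat L, IsBase B)
  · intro _ B hB; exact ⟨B, hB⟩
  · intro _ _ _ h _; exact h

open Classical in
/-- The components as polynomials. -/
noncomputable def PsiPoly (P : Pat L) : MvPolynomial (Fin L) ℂ :=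
  if h : ∃ B : Pat L, IsBase B then (exists_poly h.choose_spec P).choose else 0

/-- The qKZ solution. -/
noncomputable def Psi (L : ℕ) (P : Pat L) (ζ : ℤ → ℂ) : ℂ :=
  eval (fun k : Fin L => ζ ((k : ℕ) : ℤ)) (PsiPoly P)

theorem PsiPoly_bd (P : Pat L) : JointBd loF (upF L) (PsiPoly P) := by
  unfold PsiPoly
  rw [dif_pos (exists_base P)]
  exact (exists_poly (exists_base P).choose_spec P).choose_spec.1

theorem PsiPoly_num {B : Pat L} (hB : IsBase B) (P : Pat L) {θ : ℤ → ℝ} (hθ : Oset L θ) :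
    eval (fun k : Fin L => zc (θ (k : ℕ))) (PsiPoly P) = PsiN B P θ := by
  have h := (exists_poly (exists_base P).choose_spec P).choose_spec.2 θ hθ
  unfold PsiPoly
  rw [dif_pos (exists_base P), ← h, base_unique (exists_base P).choose_spec hB]

theorem zc_swap {θ : ℤ → ℝ} (hθ : Oset L θ) (hL : 0 < L) (i : ℤ) :
    (fun k : Fin L => zc (θ (k : ℕ))) ∘ (Equiv.swap (idx hL i) (idx hL (i + 1)))
      = fun k : Fin L => zc (sw L i θ (k : ℕ)) := by
  funext k
  simp only [Function.comp_apply]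
  rw [eval_swap (f := fun x => zc (θ x)) (fun x => by rw [hθ.per]) hL]
  unfold sw
  split_ifs <;> rfl

/-- Exchange relation for the polynomials. -/
theorem PsiPoly_exch (hL : 0 < L) (P : Pat L) (i : ℤ) :
    (C q * X (idx hL (i + 1)) - C q⁻¹ * X (idx hL i)) *
        rename (Equiv.swap (idx hL i) (idx hL (i + 1))) (PsiPoly P)
      = (C q * X (idx hL i) - C q⁻¹ * X (idx hL (i + 1))) * PsiPoly P
        + (X (idx hL i) - X (idx hL (i + 1))) *
          ∑ P' : Pat L, (if E i P' = P then PsiPoly P' else 0) := by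
  obtain ⟨B, hB⟩ := exists_base P
  apply dens_adm hL
  intro θ hθ
  have hθ' : Oset L θ := hθ
  have e1 : zc (θ ((idx hL i : Fin L) : ℕ)) = zc (θ i) := by
    rw [per_dvd_fun hθ'.per (idx_cg hL i)]
  have e2 : zc (θ ((idx hL (i + 1) : Fin L) : ℕ)) = zc (θ (i + 1)) := by
    rw [per_dvd_fun hθ'.per (idx_cg hL (i + 1))]
  simp only [map_mul, map_sub, map_add, map_sum, eval_X, eval_C, eval_rename]
  rw [zc_swap hθ' hL, PsiPoly_num hB P (hθ'.sw P.two_le i), PsiPoly_num hB P hθ', e1, e2,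
    PsiN_exch hB hθ' i P]
  congr 2
  unfold eop
  refine Finset.sum_congr rfl fun P' _ => ?_
  split_ifs
  · rw [PsiPoly_num hB P' hθ']
  · simp

theorem PsiPoly_rot (P : Pat L) :
    rename (cycE L (L - 1)) (PsiPoly (rot P)) = PsiPoly P := by
  obtain ⟨B, hB⟩ := exists_base P
  have hL2 := P.two_le
  apply dens_adm (by omega)
  intro θ hθ
  have hθ' : Oset L θ := hθ
  rw [eval_rename, PsiPoly_num hB P hθ']
  have e : (fun k : Fin L => zc (θ (k : ℕ))) ∘ (cycE L (L - 1))
      = fun k : Fin L => zc ((fun x => θ (x - 1)) (k : ℕ)) := by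
    funext k
    simp only [Function.comp_apply]
    rw [eval_cyc (f := fun x => zc (θ x)) (fun x => by rw [hθ'.per]) (L - 1) k]
    congr 1
    rw [← hθ'.per ((k : ℕ) - 1)]
    congr 1
    push_cast [Nat.cast_sub (show 1 ≤ L by omega)]; ring
  have h1 := PsiPoly_num hB (rot P) hθ'.rot
  rw [PsiN_rot hB hθ' P] at h1
  rw [e]
  exact h1

theorem PsiPoly_base {B : Pat L} (hB : IsBase B) : PsiPoly B = PhiP L := by
  have hL2 := B.two_le
  apply dens_adm (by omega)
  intro θ hθ
  have hθ' : Oset L θ := hθ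
  rw [PsiPoly_num hB B hθ', PsiN_base hB hθ', ← eval_PhiP]

theorem upF_one {L : ℕ} (hL : 1 ≤ L) : upF L 1 = L - 1 := by
  obtain ⟨n, rfl⟩ : ∃ n, L = n + 1 := ⟨L - 1, by omega⟩
  unfold upF
  rw [Nat.add_sub_cancel, Nat.choose_succ_succ' n 1, Nat.choose_one_right,
    show (1 + 1 : ℕ) = 2 from rfl]
  omega

theorem psiPre : PsiPre Psi where
  congr := fun L P ζ ζ' h => by
    unfold Psi
    congr 1
    have : (fun k : Fin L => ζ ((k : ℕ) : ℤ)) = fun k : Fin L => ζ' ((k : ℕ) : ℤ) := by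
      funext k
      exact h _ (by omega) (by have := k.isLt; omega)
    rw [this]
  mv := fun L P => ⟨PsiPoly P, fun ζ => rfl⟩
  exch := fun L P ζ hper i => by
    have hL2 := P.two_le
    have hL : 0 < L := by omega
    have h1 := congrArg (eval (fun k : Fin L => ζ ((k : ℕ) : ℤ))) (PsiPoly_exch hL P i)
    simp only [map_mul, map_sub, map_add, map_sum, eval_X, eval_C, eval_rename] at h1
    have e1 : ζ ((idx hL i : Fin L) : ℕ) = ζ i := (per_dvd_fun hper (idx_cg hL i)).symm
    have e2 : ζ ((idx hL (i + 1) : Fin L) : ℕ) = ζ (i + 1) :=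
      (per_dvd_fun hper (idx_cg hL (i + 1))).symm
    have e3 : (fun k : Fin L => ζ ((k : ℕ) : ℤ)) ∘ (Equiv.swap (idx hL i) (idx hL (i + 1)))
        = fun k : Fin L => swp L i ζ ((k : ℕ) : ℤ) := by
      funext k
      simp only [Function.comp_apply]
      rw [eval_swap hper hL]
      unfold swp
      split_ifs <;> rfl
    rw [e1, e2, e3] at h1
    unfold Psi
    rw [h1]
    congr 2
    unfold eop
    refine Finset.sum_congr rfl fun P' _ => ?_
    split_ifs <;> simp
  rot := fun L P ζ hper => by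
    have hL2 := P.two_le
    have h1 := congrArg (eval (fun k : Fin L => ζ ((k : ℕ) : ℤ))) (PsiPoly_rot P)
    rw [eval_rename] at h1
    have e : (fun k : Fin L => ζ ((k : ℕ) : ℤ)) ∘ (cycE L (L - 1))
        = fun k : Fin L => (fun x => ζ (x - 1)) ((k : ℕ) : ℤ) := by
      funext k
      simp only [Function.comp_apply]
      rw [eval_cyc hper (L - 1) k, ← hper ((k : ℕ) - 1)]
      congr 1
      push_cast [Nat.cast_sub (show 1 ≤ L by omega)]; ring
    rw [e] at h1
    exact h1
  base := fun L P ζ hP => by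
    unfold Psi
    rw [PsiPoly_base hP]
    exact eval_PhiP L (fun k => ζ k)

/-- The polynomial qKZ solution has all properties used by the leg formulas. -/
theorem psiProps : PsiProps Psi where
  congr := psiPre.congr
  mv := psiPre.mv
  poly := fun L P ζ _ i => by
    have hL2 := P.two_le
    have hL : 0 < L := by omega
    have hb := PsiPoly_bd P
    obtain ⟨p, hp1, hp2⟩ := natDegree_spec (idx hL i) (fun k => ζ ((k : ℕ) : ℤ)) (PsiPoly P)
      (L - 1) (fun e he => by
        have := (hb {idx hL i} e he).2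
        rw [Finset.sum_singleton, Finset.card_singleton, upF_one (by omega)] at this
        exact this)
    refine ⟨p, hp1, fun t => ?_⟩
    rw [← hp2]
    unfold Psi
    have : (fun k : Fin L => upd L ζ i t ((k : ℕ) : ℤ))
        = fun k : Fin L => if k = idx hL i then t else ζ ((k : ℕ) : ℤ) := by
      funext k
      unfold upd
      by_cases h : Cg L ((k : ℕ) : ℤ) i
      · rw [if_pos h, if_pos ((idx_iff hL i k).2 h)]
      · rw [if_neg h, if_neg (fun h' => h ((idx_iff hL i k).1 h'))]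
    rw [this]
  exch := psiPre.exch
  rot := psiPre.rot
  arc_zero := Pool.Agent.H14.EX.arc_zero_of psiPre
  arc := Pool.Agent.H14.EX.arc_of triangular psiPre
  base := psiPre.base

end Pool.Agent.H12.QKZ

end

section

/-! The base case of the leg formula: `F22` with no glued strand. -/

namespace H56.EX

open scoped BigOperators Classical

lemma base2_half (x : ℤ) : (base2.m x + 1) / 2 = (x + 1) / 2 := by
  show ((if x % 2 = 0 then x - 1 else x + 1) + 1) / 2 = (x + 1) / 2
  by_cases h : x % 2 = 0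
  · rw [if_pos h]; omega
  · rw [if_neg h]; omega

lemma conn_lab2 {u v : ℤ ⊕ ℤ} (h : Conn 2 2 0 base2 base2 u v) : lab2 u = lab2 v := by
  induction h with
  | rel x y h =>
    cases h with
    | top x => simp [lab2, base2_half]
    | bot y => simp [lab2, base2_half]
    | glue a j hj => exact absurd hj (Nat.not_lt_zero _)
  | refl x => rfl
  | symm x y _ ih => exact ih.symm
  | trans x y z _ _ ih1 ih2 => exact ih1.trans ih2

lemma leg_base2 : Leg 2 2 0 base2 base2 := by
  intro u v a b h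
  have hl := conn_lab2 h
  rcases u with s | s <;> rcases v with t | t
  · simp only [hpos, lab2, Prod.mk.injEq, and_true] at hl
    have hs := s.2
    have ht := t.2
    by_cases hst : (s : ℕ) = t
    · left
      refine ⟨by rw [Fin.ext hst], ?_⟩
      rw [hst] at hl
      omega
    · right
      have : b - a = 1 ∨ b - a = -1 := by omega
      rcases this with h | h <;> rw [h] <;> decide
  · simp [hpos, lab2] at hl
  · simp [hpos, lab2] at hl
  · simp only [hpos, lab2, Prod.mk.injEq, and_true] at hl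
    have hs := s.2
    have ht := t.2
    by_cases hst : (s : ℕ) = t
    · left
      refine ⟨by rw [Fin.ext hst], ?_⟩
      rw [hst] at hl
      omega
    · right
      have : b - a = 1 ∨ b - a = -1 := by omega
      rcases this with h | h <;> rw [h] <;> decide

lemma not_leg2_top {Pt Pb : Pat 2} (h : Pt ≠ base2) : ¬ Leg 2 2 0 Pt Pb := by
  have h3 : Pt.m 0 = 1 := by
    by_contra h'
    exact h (eq_base2 Pt h')
  exact not_leg_top (kt := 2) (kb := 2) (M := 0) 0 (by norm_num) (by simpa using h3)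

lemma chi_base2 (Pt Pb : Pat 2) :
    chi 2 2 0 Pt Pb = if Pt = base2 ∧ Pb = base2 then 1 else 0 := by
  unfold chi
  by_cases h1 : Pt = base2
  · by_cases h2 : Pb = base2
    · rw [h1, h2, if_pos leg_base2, if_pos ⟨rfl, rfl⟩]
    · have h3 : ¬ Leg 2 2 0 Pt Pb := fun h => not_leg2_top h2 (legSwap.1 h)
      rw [if_neg h3, if_neg (fun h => h2 h.2)]
  · have h3 : ¬ Leg 2 2 0 Pt Pb := not_leg2_top h1
    rw [if_neg h3, if_neg (fun h => h1 h.1)]

section psi

variable {Ψ : ∀ L : ℕ, Pat L → (ℤ → ℂ) → ℂ} (hΨ : PsiProps Ψ)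

include hΨ

theorem F22_zero (a0 a1 b0 b1 : ℂ) (z : ℕ → ℂ) (h0 : b0 ≠ 0) (h1 : b1 ≠ 0) :
    F22 Ψ 0 a0 a1 b0 b1 z =
      -(1 / 3) * (q * a1 - q⁻¹ * a0) * (q * b0 - q⁻¹ * b1) / (b0 * b1) := by
  unfold F22
  rw [legSum_eq]
  have hsum : (∑ Pt : Pat (0 + 2), ∑ Pb : Pat (0 + 2), chi 2 2 0 Pt Pb *
      (Ψ (0 + 2) Pt (par (0 + 2) (scons a0 (scons a1 z))) *
        Ψ (0 + 2) Pb (par (0 + 2) (scons b0⁻¹ (scons b1⁻¹ (fun n => (z n)⁻¹)))))) =
      Ψ 2 base2 (par 2 (scons a0 (scons a1 z))) *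
        Ψ 2 base2 (par 2 (scons b0⁻¹ (scons b1⁻¹ (fun n => (z n)⁻¹)))) := by
    rw [Finset.sum_eq_single (base2 : Pat (0 + 2))]
    · rw [Finset.sum_eq_single (base2 : Pat (0 + 2))]
      · rw [chi_base2, if_pos ⟨rfl, rfl⟩, one_mul]
      · intro Pb _ hb
        rw [chi_base2, if_neg (fun h => hb h.2), zero_mul]
      · intro h; exact absurd (Finset.mem_univ _) h
    · intro Pt _ ht
      apply Finset.sum_eq_zero
      intro Pb _
      rw [chi_base2, if_neg (fun h => ht h.1), zero_mul]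
    · intro h; exact absurd (Finset.mem_univ _) h
  rw [hsum, psi_base2 hΨ, psi_base2 hΨ]
  have hq2 : q⁻¹ = -1 - q := by
    rw [q_inv]; linear_combination q_sq
  have hd : (q - q⁻¹) ^ 2 = -3 := by
    rw [hq2]; linear_combination 4 * q_sq
  have hd0 : q - q⁻¹ ≠ 0 := by
    intro h
    rw [h] at hd
    norm_num at hd
  show (q * a1 - q⁻¹ * a0) / (q - q⁻¹) * ((q * b1⁻¹ - q⁻¹ * b0⁻¹) / (q - q⁻¹)) = _
  have e : (q * b1⁻¹ - q⁻¹ * b0⁻¹) = (q * b0 - q⁻¹ * b1) / (b0 * b1) := by
    have hq0 := q_ne_zero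
    field_simp
  rw [e, div_mul_div_comm, ← pow_two, hd]
  ring

end psi

end H56.EX

end

section

/-!
# The explicit sum in the form of the leg functions, for any number of legs

`SGen k M u v c z` is the sum over `ε ∈ {q, q²}^M`; `SM M = SGen 4 M q (q²)`.
Recursions, symmetry in `c` and `z`, degree in each `c l`.
-/

set_option autoImplicit false

namespace Pool.Agent.H96.EX

open Finset H56.EX

end Pool.Agent.H96.EX

end

section

/-!
# The polynomial `S` extending the explicit sum `SGen` to all values of the parameters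

* `SPoly k M u v : MvPolynomial (Fin k ⊕ Fin M) ℂ`, `S k M u v c z` = its value;
* `S_eq_SGen` : `S = SGen` for pairwise distinct `z`;
* `S_continuous`, `S_symm_c`, `S_symm_z`, `S_poly` (degree `≤ M` in each leg), `S_rec1`, `S_rec2`
  (recursions, for ALL values), `S_zero`.
-/

set_option autoImplicit false

namespace Pool.Agent.H96.EX

open Finset H56.EX

/-! ### Vandermonde product -/

/-! ### numerators -/

/-! ### continuity along a line -/

/-! ### divisibility -/

section dvd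

open MvPolynomial

variable {σ : Type*} [DecidableEq σ]

end dvd

/-! ### degree in a leg parameter -/

end Pool.Agent.H96.EX

end

section

/-!
# Interface for `H56.EX.SM`

`SM_S` : `SM M c z = S 4 M q (q²) c z` for pairwise distinct `z`;
`SM_zero`, `SM_symm_c`, `SM_symm_z`, `SM_poly`, `SM_rec1`, `SM_rec2`, `SM_unique`.
For all values of the parameters (also coinciding strands) use `S 4 M q (q²)` of `SMb.lean`.
-/

set_option autoImplicit false

namespace Pool.Agent.H96.EX

open Finset H56.EX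

end Pool.Agent.H96.EX

end

section

/-!
# Bridge: `S` and the sum `SG` over `range M` with a list of legs (helper56's `TM`)
-/

set_option autoImplicit false

namespace Pool.Agent.H96.EX

open Finset H56.EX

end Pool.Agent.H96.EX

end

section

/-!
# LINK module `Diag`: four arms at a diagonal pair of vertices and four arms of an edge

`x = (0, 0)`, `y = (1, -1)`, `z = (1, 0)`, `w = (0, -1)`: the corners of the face `q = (0, -1)`;
`e = (0, 0, false)` joins `x, z`; `g = (1, -1, true)` joins `y, z`; `f = (0, -1, true)` joins `w, x`.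
Clusters `C(v)` are taken in `ball 0 k` (all four points are in it for `k ≥ 1`).

`fourD_le_a4`.  Let `ω ∈ FourD k`.
* `z ∈ C(y)`: `e` is closed, `ω ∈ A4 e k`.
* `z ∈ C(x)`: `g` is closed; restricted to `ball (1, -1) (k - 1) ⊆ ball 0 k` this is `A4 g (k - 1)` (`src g = y`; the
  path from `z` goes through `x` to the sphere; cut it at `sphere y (k-1)`).
* otherwise: `Function.update ω g true ∈ A4 e k` (now `z ∈ C(y)`, `x` is not joined to it).
  `Pr p {ω | update ω g true ∈ A} ≤ Pr p A / p` (independence of the edge `g`).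
Then `Pr_A4` and `a4_anti`.

`a4_le_fourD`.  Let `ω ∈ A4 e k`, `ω₀ = close e ω` (the clusters are now those of `ω₀`).
* `y ∈ C(z)`: `ω₀ ∈ FourD k`.
* `y ∉ C(z)`, `y ∉ C(x)`: `update ω₀ g true ∈ FourD k`.
* `y ∈ C(x)`, `w ∈ C(x)`: the reflection `(a, b) ↦ (1 - a, b)` of `ω₀` is in `FourD (k - 1)`
  (`z ↦ x`, `w ↦ y`; `ball (1, 0) (k - 1) ⊆ ball 0 k`).
* `y ∈ C(x)`, `w ∉ C(x)`, `w ∉ C(z)`: the same for `update ω₀ f true`.
* `y ∈ C(x)`, `w ∈ C(z)`: impossible (planarity).  Let `c` be a path sum (`exists_pathSum` of `Link/Potential.lean`) of an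
  open path from `x` to `y` in `ball 0 k`, `A = c + 1_e + 1_g` (all degrees even, finite support), `G = pot A H`,
  `G (lowFace e') + G (src e') = A e'` (`pot_even`).  `A` has no edge at any vertex of `C(z)` except `z` (its edges join
  vertices of `C(x)`, or are `e`, `g`).  So around every vertex `v ∈ C(z)`, `v ≠ z`, the four faces have the same colour
  `G`, and neighbours in `C(z) \ {z}` share a face, so this colour is constant along an open path from `w` to the last
  vertex `v` before `z`; around `w` it is `G q` (`q = (0, -1)` is a face at `w`).  `v ∈ {(2, 0), (1, 1)}` (`v ≠ x, y`), and the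
  face `(1, 0)` contains both; so `G (1, 0) = G q`.  But from `q` to the face `(0, 0)` one crosses `e` (`A e = 1`,
  because `c e = 0`), and from `(0, 0)` to `(1, 0)` one crosses `(1, 0, true)` (`A = 0`, it joins `z` and `(1, 1)`, not
  in `C(x)`; if it is closed also `c = 0`).  So `G (1, 0) = G q + 1`, contradiction.
  (Take the path from `w` to `z` with `z` only at the end: `Conn` in `ball 0 k \ {z}` to a neighbour of `z`.)
-/

set_option autoImplicit false

open MeasureTheory ProbabilityTheory unitInterval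

namespace Pool.Agent.H89.Link

open Pool.Agent.H89.Perc (Vert Edge Config Pr half)
open Pool.Agent.H61.NC (a4)
open Pool.Agent.H89.Perc (src tgt lowFace ball sphere)

/-! ### Clusters -/

/-! ### Probabilities -/

/-! ### The first inequality -/

/-! ### The second inequality -/

theorem a4_le_fourD (p : I) (h1 : 1 / 4 ≤ (p : ℝ)) (h2 : (p : ℝ) ≤ 3 / 4) {k : ℕ} (hk : 2 ≤ k) :
    a4 p k ≤ 100 * Pr p (FourD (k - 1)) := by
  classical
  have hloc : Perc.LocalOn (Perc.eRect (-(k : ℤ)) k (-(k : ℤ)) k) (FourD k) := perProb_localOn k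
  have hloc' := perProb_localOn (k - 1)
  set B : Set Config := {ω : Config | (fun e => ω (Perc.reflX 1 e)) ∈ FourD (k - 1)} with hB
  have hR : Pr p B = Pr p (FourD (k - 1)) := Perc.Pr_comp hloc' (Perc.reflX_injective 1).injOn
  obtain ⟨s, hs⟩ : ∃ s : Finset Edge, Perc.LocalOn s B := by
    refine ⟨(Perc.eRect (-((k - 1 : ℕ) : ℤ)) (k - 1 : ℕ) (-((k - 1 : ℕ) : ℤ))
      (k - 1 : ℕ)).image (Perc.reflX 1), ?_⟩
    intro ω ω' h hA'
    exact hloc' _ _ (fun e he => h _ (Finset.mem_image_of_mem _ he)) hA'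
  have k1 := diag_pr_false p h2 hloc dE
  have k2 := diag_pr_false p h2 (hloc.update dG true) dE
  have k3 := diag_pr_false p h2 hs dE
  have k4 := diag_pr_false p h2 (hs.update dF true) dE
  have k5 := diag_pr_true p h1 hloc dG
  have k6 := diag_pr_true p h1 hs dF
  have k7 : Pr p (FourD k) ≤ Pr p (FourD (k - 1)) := Perc.Pr_mono (diag_fourD_anti hk)
  have k8 := Perc.Pr_mono (p := p) (diag_sub2 hk)
  rw [Pool.Agent.H61.NC.Pr_A4] at k8
  have k9 := Perc.Pr_union_le (p := p)
    (A := {ω | Function.update ω dE false ∈ FourD k} ∪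
        {ω | Function.update ω dE false ∈ {ω | Function.update ω dG true ∈ FourD k}})
    (B := {ω | Function.update ω dE false ∈ B} ∪
        {ω | Function.update ω dE false ∈ {ω | Function.update ω dF true ∈ B}})
  have k10 := Perc.Pr_union_le (p := p)
    (A := {ω | Function.update ω dE false ∈ FourD k})
    (B := {ω | Function.update ω dE false ∈ {ω | Function.update ω dG true ∈ FourD k}})
  have k11 := Perc.Pr_union_le (p := p)
    (A := {ω | Function.update ω dE false ∈ B})
    (B := {ω | Function.update ω dE false ∈ {ω | Function.update ω dF true ∈ B}})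
  have k12 : 0 ≤ Pr p (FourD (k - 1)) := Perc.Pr_nonneg
  rw [hR] at k3 k6
  linarith only [k1, k2, k3, k4, k5, k6, k7, k8, k9, k10, k11, k12]

end Pool.Agent.H89.Link

end
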