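import Pool.Agent.H94.BG.H31.PT.M13_1
import Pool.Agent.H94.BG.H31.PT.M32_1
import Pool.Agent.H94.BG.M06
import Pool.Agent.H94.BG.M09

/-! The parts of this file: H61.NC.Main, H61.NC.Final, H29.Sep.BlockAnn, H29.Sep.QM, H56.EX.SumRule, H56.EX.Stat, H26.ST.Small. -/

section

/-!
# Near-critical stability on the torus
-/

open MeasureTheory ProbabilityTheory unitInterval

namespace Pool.Agent.H61.NC

open Pool.Agent.H89.Perc

end Pool.Agent.H61.NC

end

section

/-!
# The scale relation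
-/

open MeasureTheory ProbabilityTheory unitInterval

namespace Pool.Agent.H61.NC

open Pool.Agent.H89.Perc

end Pool.Agent.H61.NC

end

section

/-!
# A pivotal block of the torus is surrounded by two distinct crossing clusters
-/

open MeasureTheory ProbabilityTheory unitInterval

namespace Pool.Agent.H29.Sep

open Pool.Agent.H89.Perc Pool.Agent.H61.NC

private lemma blockAnn_sphere {r : ℕ} {u v : Vert} :
    ((u.1 - v.1, u.2 - v.2) : Vert) ∈ sphere 0 r ↔ u ∈ sphere v r := by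
  simp only [sphere, ball, rect, Set.mem_ofPred_eq, Prod.fst_zero, Prod.snd_zero]
  omega

private lemma blockAnn_dom {t R : ℕ} {u v : Vert} :
    ((u.1 - v.1, u.2 - v.2) : Vert) ∈ dom t R ↔ u ∈ Pool.Agent.H61.NC.Ring v t R := by
  simp only [dom, Pool.Agent.H61.NC.Ring, ball, rect, Set.mem_sdiff, Set.mem_ofPred_eq,
    Prod.fst_zero, Prod.snd_zero]
  omega

/-- The annulus events at `v` and at `0`. -/
private lemma blockAnn_shift {ω : Config} {v : Vert} {t R : ℕ} (h : ω ∈ Two v t R) :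
    (fun e => ω (shiftE v e)) ∈ A2 t R := by
  obtain ⟨u, u', hu, hu', ⟨w, hw, h1⟩, ⟨w', hw', h2⟩, h3⟩ := h
  have hset : {w : Vert | (w.1 - v.1, w.2 - v.2) ∈ dom t R} = Pool.Agent.H61.NC.Ring v t R := by
    ext w
    exact blockAnn_dom
  have key : ∀ x y : Vert, Conn (fun e => ω (shiftE v e)) (dom t R)
      (x.1 - v.1, x.2 - v.2) (y.1 - v.1, y.2 - v.2) ↔
      Conn ω (Pool.Agent.H61.NC.Ring v t R) x y := by
    intro x y
    rw [conn_shift v (dom t R), hset]
    simp only [sub_add_cancel, Prod.mk.eta]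
  refine ⟨_, blockAnn_sphere.2 hw, _, blockAnn_sphere.2 hw', _, blockAnn_sphere.2 hu, _,
    blockAnn_sphere.2 hu', (key _ _).2 h1.symm, (key _ _).2 h2.symm, ?_⟩
  rw [key]
  exact fun h4 => h3 ((h1.trans h4).trans h2.symm)

private lemma blockAnn_local (t R : ℕ) : LocalOn (eRect (-R) R (-R) R) (A2 t R) := by
  rintro ω ω' h ⟨u, hu, u', hu', v, hv, v', hv', h1, h2, h3⟩
  have hmem : ∀ e : Edge, src e ∈ dom t R → e ∈ eRect (-(R : ℤ)) R (-R) R := by
    intro e he
    rw [mem_eRect]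
    have := he.1
    simp only [ball, rect, Set.mem_ofPred_eq, Prod.fst_zero, Prod.snd_zero] at this ⊢
    omega
  refine ⟨u, hu, u', hu', v, hv, v', hv', h1.congr fun e he _ => h e (hmem e he),
    h2.congr fun e he _ => h e (hmem e he), fun h4 => h3 ?_⟩
  exact h4.congr fun e he _ => (h e (hmem e he)).symm

theorem blockPiv_le {N ρ R : ℕ} (q : I) (h1 : 1 ≤ ρ) (h2 : ρ + 2 ≤ R) (h3 : 4 * R ≤ N) :
    Pr q (BlockPiv N ρ) ≤ Pr q (A2 (ρ + 2) R) := by
  have hinj : Set.InjOn (fun e => modE N (shiftE (mid N, mid N) e)) (eRect (-(R : ℤ)) R (-R) R) := by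
    intro e he e' he' hee
    rw [Finset.mem_coe, mem_eRect] at he he'
    simp only [src, rect, Set.mem_ofPred_eq] at he he'
    simp only [modE, shiftE, Prod.mk.injEq] at hee
    obtain ⟨x, y, d⟩ := e
    obtain ⟨x', y', d'⟩ := e'
    simp only at he he' hee
    obtain ⟨hx, hy, hd⟩ := hee
    have key : ∀ a b : ℤ, -(R : ℤ) ≤ a → a ≤ R → -(R : ℤ) ≤ b → b ≤ R →
        (a + mid N) % N = (b + mid N) % N → a = b := by
      intro a b ha1 ha2 hb1 hb2 hab
      have h5 : (N : ℤ) ∣ (b + mid N) - (a + mid N) :=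
        Int.ModEq.dvd (show a + mid N ≡ b + mid N [ZMOD N] from hab)
      have h6 : (b + mid N) - (a + mid N) = b - a := by ring
      rw [h6] at h5
      have h7 : |b - a| < N := by
        rw [abs_lt]
        constructor <;> omega
      have := Int.eq_zero_of_abs_lt_dvd h5 h7
      omega
    rw [key x x' he.1 he.2.1 he'.1 he'.2.1 hx, key y y' he.2.2.1 he.2.2.2 he'.2.2.1 he'.2.2.2 hy,
      hd]
  rw [← Pr_comp (blockAnn_local (ρ + 2) R) hinj]
  refine Pr_mono fun ω hω => ?_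
  exact blockAnn_shift (two_of_blockPiv (N := N) (R := ρ) (t := ρ + 2) (R' := R) (by omega) h2
    (by omega) hω)

end Pool.Agent.H29.Sep

end

section

/-!
# Quasi-multiplicativity for the planar annulus and the gluing inequality on the torus
-/

open MeasureTheory ProbabilityTheory unitInterval

namespace Pool.Agent.H29.Sep

open Pool.Agent.H89.Perc Pool.Agent.H61.NC

theorem a4_nn (q : I) (r : ℕ) : 0 ≤ a4 q r := Pr_nonneg

/-- Iterated regularity. -/
theorem reg_iter {C₁ : ℝ} (hC₁ : 1 ≤ C₁) {n : ℕ} {q : I}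
    (H : ∀ r : ℕ, 1 ≤ r → 64 * r ≤ n → a4 q r ≤ C₁ * a4 q (4 * r)) (j : ℕ) :
    ∀ r ρ : ℕ, 1 ≤ r → r ≤ ρ → ρ ≤ 4 ^ j * r → 64 * ρ ≤ n + 64 → a4 q r ≤ C₁ ^ j * a4 q ρ := by
  induction j with
  | zero =>
    intro r ρ h1 h2 h3 _
    have : r = ρ := by
      have : 4 ^ 0 * r = r := by simp
      omega
    subst this
    simp
  | succ j ih =>
    intro r ρ h1 h2 h3 h4
    rcases h2.eq_or_lt with h | h
    · subst h
      have : (1 : ℝ) ≤ C₁ ^ (j + 1) := one_le_pow₀ hC₁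
      nlinarith only [this, a4_nn q r]
    · have h5 : 64 * r ≤ n := by omega
      have h6 := H r h1 h5
      rcases Nat.lt_or_ge (4 * r) ρ with h7 | h7
      · have h8 := ih (4 * r) ρ (by omega) h7.le (by
          have : 4 ^ (j + 1) * r = 4 ^ j * (4 * r) := by ring
          omega) h4
        calc a4 q r ≤ C₁ * a4 q (4 * r) := h6
          _ ≤ C₁ * (C₁ ^ j * a4 q ρ) := by
              apply mul_le_mul_of_nonneg_left h8 (by linarith only [hC₁])
          _ = C₁ ^ (j + 1) * a4 q ρ := by ring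
      · have h8 : a4 q (4 * r) ≤ a4 q ρ := a4_anti (by omega) h7
        have h9 : (1 : ℝ) ≤ C₁ ^ j := one_le_pow₀ hC₁
        calc a4 q r ≤ C₁ * a4 q (4 * r) := h6
          _ ≤ C₁ * a4 q ρ := mul_le_mul_of_nonneg_left h8 (by linarith only [hC₁])
          _ = C₁ * (1 * a4 q ρ) := by ring
          _ ≤ C₁ * (C₁ ^ j * a4 q ρ) := by
              apply mul_le_mul_of_nonneg_left _ (by linarith only [hC₁])
              exact mul_le_mul_of_nonneg_right h9 (a4_nn q ρ)
          _ = C₁ ^ (j + 1) * a4 q ρ := by ring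

/-- One step of the absorption. -/
theorem qm_step {c : ℝ} {C₁ C₂ ε ε₂ : ℝ} {J R₀ k₀ n : ℕ} {q : I}
    (hR : RSWreg c n q) (hε : 0 ≤ ε) (hC₁ : 1 ≤ C₁) (hC₂ : 0 ≤ C₂)
    (H1 : ∀ r : ℕ, 1 ≤ r → 64 * r ≤ n → a4 q r ≤ C₁ * a4 q (4 * r))
    (H2 : ∀ (t R : ℕ), 1 ≤ t → 4 * t ≤ R → R₀ ≤ R → R ≤ n →
      ∃ F : Finset (Set Vert), F.card ≤ J ∧ (∀ β ∈ F, β ⊆ sphere 0 R) ∧
        Pr q (A2 t R) ≤ ∑ β ∈ F, ∑ γ ∈ F, Pr q (BT t R β γ) + ε₂ * Pr q (A2 t (R / 4)))
    (H3 : ∀ (k R : ℕ) (L K : Set Vert), k₀ ≤ k → 64 * 4 ^ k ≤ R → R ≤ n →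
      L ⊆ sphere 0 R → K ⊆ sphere 0 R →
      a4 q (4 ^ k) * Pr q (BT (4 * 4 ^ k) R L K) ≤
        C₂ * a4 q R + ε * (a4 q (4 ^ (k - 1)) * Pr q (BT (16 * 4 ^ k) R L K)))
    {k m : ℕ} (hk : k₀ ≤ k) (hk1 : 1 ≤ k) (hkm : k + 3 ≤ m) (hm : R₀ ≤ 4 ^ m) (hmn : 4 * 4 ^ m ≤ n) :
    a4 q (4 ^ k) * Pr q (A2 (4 * 4 ^ k) (4 ^ m)) ≤
      (J : ℝ) ^ 2 * C₂ * a4 q (4 ^ m) +
      (J : ℝ) ^ 2 * ε * C₁ ^ 2 * (a4 q (4 ^ (k + 1)) * Pr q (A2 (4 * 4 ^ (k + 1)) (4 ^ m))) +
      ε₂ * (a4 q (4 ^ k) * Pr q (A2 (4 * 4 ^ k) (4 ^ (m - 1)))) := by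
  obtain ⟨i, rfl⟩ : ∃ i, m = k + 3 + i := ⟨m - (k + 3), by omega⟩
  obtain ⟨k', rfl⟩ : ∃ k', k = k' + 1 := ⟨k - 1, by omega⟩
  set m := k' + 1 + 3 + i with hmdef
  have e64 : 64 * 4 ^ (k' + 1) ≤ 4 ^ m := by
    rw [hmdef]
    have : 4 ^ (k' + 1 + 3 + i) = 64 * 4 ^ (k' + 1) * 4 ^ i := by ring
    rw [this]
    exact Nat.le_mul_of_pos_right _ (by positivity)
  have hdiv : 4 ^ m / 4 = 4 ^ (m - 1) := by
    have : m = (m - 1) + 1 := by omega
    conv_lhs => rw [this, pow_succ]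
    simp
  obtain ⟨F, hF1, hF2, hF3⟩ := H2 (4 * 4 ^ (k' + 1)) (4 ^ m) (by
    have : 0 < 4 ^ (k' + 1) := by positivity
    omega) (by omega) hm (by omega)
  rw [hdiv] at hF3
  have hA : 0 ≤ a4 q (4 ^ (k' + 1)) := a4_nn _ _
  have hreg : a4 q (4 ^ k') ≤ C₁ ^ 2 * a4 q (4 ^ (k' + 1 + 1)) := by
    refine reg_iter hC₁ H1 2 (4 ^ k') (4 ^ (k' + 1 + 1)) (Nat.one_le_pow _ _ (by norm_num)) ?_ ?_ ?_
    · exact Nat.pow_le_pow_right (by norm_num) (by omega)
    · rw [pow_succ, pow_succ]; ring_nf; exact le_rfl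
    · have h6 : 64 * 4 ^ (k' + 1 + 1) = 4 * (64 * 4 ^ (k' + 1)) := by ring
      omega
  have e16 : 16 * 4 ^ (k' + 1) = 4 * 4 ^ (k' + 1 + 1) := by ring
  have key : ∀ β ∈ F, ∀ γ ∈ F, a4 q (4 ^ (k' + 1)) * Pr q (BT (4 * 4 ^ (k' + 1)) (4 ^ m) β γ) ≤
      C₂ * a4 q (4 ^ m) + ε * (C₁ ^ 2 *
        (a4 q (4 ^ (k' + 1 + 1)) * Pr q (A2 (4 * 4 ^ (k' + 1 + 1)) (4 ^ m)))) := by
    intro β hβ γ hγ
    refine (H3 (k' + 1) (4 ^ m) β γ hk e64 (by omega) (hF2 β hβ) (hF2 γ hγ)).trans ?_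
    rw [Nat.add_sub_cancel, e16]
    have hb : Pr q (BT (4 * 4 ^ (k' + 1 + 1)) (4 ^ m) β γ) ≤
        Pr q (A2 (4 * 4 ^ (k' + 1 + 1)) (4 ^ m)) := Pr_mono (BT_subset_A2 (hF2 β hβ) (hF2 γ hγ))
    have : a4 q (4 ^ k') * Pr q (BT (4 * 4 ^ (k' + 1 + 1)) (4 ^ m) β γ) ≤
        (C₁ ^ 2 * a4 q (4 ^ (k' + 1 + 1))) * Pr q (A2 (4 * 4 ^ (k' + 1 + 1)) (4 ^ m)) :=
      mul_le_mul hreg hb Pr_nonneg (by have := a4_nn q (4 ^ (k' + 1 + 1)); positivity)
    have := mul_le_mul_of_nonneg_left this hε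
    linarith only [this]
  set X := a4 q (4 ^ (k' + 1 + 1)) * Pr q (A2 (4 * 4 ^ (k' + 1 + 1)) (4 ^ m)) with hX
  have hX0 : 0 ≤ X := mul_nonneg (a4_nn _ _) Pr_nonneg
  have hB0 : 0 ≤ C₂ * a4 q (4 ^ m) + ε * (C₁ ^ 2 * X) := by
    have := a4_nn q (4 ^ m)
    positivity
  have hsum : a4 q (4 ^ (k' + 1)) * ∑ β ∈ F, ∑ γ ∈ F, Pr q (BT (4 * 4 ^ (k' + 1)) (4 ^ m) β γ) ≤
      (J : ℝ) ^ 2 * (C₂ * a4 q (4 ^ m) + ε * (C₁ ^ 2 * X)) := by
    rw [Finset.mul_sum]
    calc ∑ β ∈ F, a4 q (4 ^ (k' + 1)) * ∑ γ ∈ F, Pr q (BT (4 * 4 ^ (k' + 1)) (4 ^ m) β γ)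
        ≤ ∑ _β ∈ F, ∑ _γ ∈ F, (C₂ * a4 q (4 ^ m) + ε * (C₁ ^ 2 * X)) := by
          refine Finset.sum_le_sum fun β hβ => ?_
          rw [Finset.mul_sum]
          exact Finset.sum_le_sum fun γ hγ => key β hβ γ hγ
      _ = ((F.card : ℝ) * F.card) * (C₂ * a4 q (4 ^ m) + ε * (C₁ ^ 2 * X)) := by
          rw [Finset.sum_const, Finset.sum_const, nsmul_eq_mul, nsmul_eq_mul]; ring
      _ ≤ ((J : ℝ) * J) * (C₂ * a4 q (4 ^ m) + ε * (C₁ ^ 2 * X)) := by
          apply mul_le_mul_of_nonneg_right _ hB0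
          have : (F.card : ℝ) ≤ J := by exact_mod_cast hF1
          exact mul_le_mul this this (Nat.cast_nonneg _) (Nat.cast_nonneg _)
      _ = (J : ℝ) ^ 2 * (C₂ * a4 q (4 ^ m) + ε * (C₁ ^ 2 * X)) := by ring
  have hfin := mul_le_mul_of_nonneg_left hF3 hA
  rw [mul_add] at hfin
  calc a4 q (4 ^ (k' + 1)) * Pr q (A2 (4 * 4 ^ (k' + 1)) (4 ^ m))
      ≤ a4 q (4 ^ (k' + 1)) * ∑ β ∈ F, ∑ γ ∈ F, Pr q (BT (4 * 4 ^ (k' + 1)) (4 ^ m) β γ) +
          a4 q (4 ^ (k' + 1)) * (ε₂ * Pr q (A2 (4 * 4 ^ (k' + 1)) (4 ^ (m - 1)))) := hfin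
    _ ≤ (J : ℝ) ^ 2 * (C₂ * a4 q (4 ^ m) + ε * (C₁ ^ 2 * X)) +
          a4 q (4 ^ (k' + 1)) * (ε₂ * Pr q (A2 (4 * 4 ^ (k' + 1)) (4 ^ (m - 1)))) := by linarith only [hsum]
    _ = _ := by ring

/-- Quasi-multiplicativity at powers of four. -/
theorem qm_pow (hB : BadIn) (hG : GLT) (hr : RegA4) : ∀ c : ℝ, 0 < c → ∃ (M : ℝ) (k₀ : ℕ),
    1 ≤ M ∧ 1 ≤ k₀ ∧ ∀ (n : ℕ) (q : I), RSWreg c n q → ∀ m k : ℕ, k₀ ≤ k → k ≤ m →
      64 * 4 ^ m ≤ n → a4 q (4 ^ k) * Pr q (A2 (4 * 4 ^ k) (4 ^ m)) ≤ M * a4 q (4 ^ m) := by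
  intro c hc
  obtain ⟨C₁', hC₁', H1'⟩ := hr c hc
  set C₁ : ℝ := max C₁' 1 with hC₁def
  have hC₁ : 1 ≤ C₁ := le_max_right _ _
  have hC₁0 : 0 < C₁ := by linarith
  obtain ⟨J, R₀, H2⟩ := outer_split hB c (1 / (4 * C₁)) hc (by positivity)
  set ε : ℝ := 1 / (2 * ((J : ℝ) + 1) ^ 2 * C₁ ^ 2) with hεdef
  have hε : 0 < ε := by positivity
  obtain ⟨C₂, k₀, hC₂, hk₀, H3⟩ := hG c ε hc hε
  obtain ⟨c₀, hc₀, H4⟩ := a4_low c hc (4 ^ R₀) (Nat.one_le_pow _ _ (by norm_num))
  set M : ℝ := max (max (C₁ ^ 3) (1 / c₀)) (4 * ((J : ℝ) ^ 2 * C₂)) with hMdef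
  have hM1 : C₁ ^ 3 ≤ M := (le_max_left _ _).trans (le_max_left _ _)
  have hM2 : 1 / c₀ ≤ M := (le_max_right _ _).trans (le_max_left _ _)
  have hM3 : 4 * ((J : ℝ) ^ 2 * C₂) ≤ M := le_max_right _ _
  have hM0 : 1 ≤ M := (one_le_pow₀ hC₁).trans hM1
  refine ⟨M, k₀, hM0, hk₀, fun n q hR => ?_⟩
  have H1 : ∀ r : ℕ, 1 ≤ r → 64 * r ≤ n → a4 q r ≤ C₁ * a4 q (4 * r) := fun r h1 h2 =>
    (H1' n r q h1 h2 hR).trans (mul_le_mul_of_nonneg_right (le_max_left _ _) (a4_nn _ _))
  intro m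
  induction m with
  | zero => intro k h1 h2; omega
  | succ m ihm =>
    intro k hk hkm hmn
    -- downward induction in `k`
    obtain ⟨d, hd⟩ : ∃ d, m + 1 = k + d := ⟨m + 1 - k, by omega⟩
    induction d using Nat.strong_induction_on generalizing k with
    | _ d ihd =>
      have hpos : 0 < 4 ^ m := by positivity
      have e4 : 4 ^ (m + 1) = 4 * 4 ^ m := by ring
      have hP1 : Pr q (A2 (4 * 4 ^ k) (4 ^ (m + 1))) ≤ 1 := Pr_le_one
      have htriv : a4 q (4 ^ k) * Pr q (A2 (4 * 4 ^ k) (4 ^ (m + 1))) ≤ a4 q (4 ^ k) := by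
        have := a4_nn q (4 ^ k)
        nlinarith only [hP1, this]
      rcases Nat.lt_or_ge d 3 with hd3 | hd3
      · -- `k` close to `m + 1`
        have h1 := reg_iter hC₁ H1 2 (4 ^ k) (4 ^ (m + 1)) (Nat.one_le_pow _ _ (by norm_num))
          (Nat.pow_le_pow_right (by norm_num) hkm) (by
            rw [← pow_add]; exact Nat.pow_le_pow_right (by norm_num) (by omega)) (by omega)
        have h2 : C₁ ^ 2 ≤ M := (pow_le_pow_right₀ hC₁ (by norm_num)).trans hM1
        calc _ ≤ a4 q (4 ^ k) := htriv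
          _ ≤ C₁ ^ 2 * a4 q (4 ^ (m + 1)) := h1
          _ ≤ M * a4 q (4 ^ (m + 1)) := mul_le_mul_of_nonneg_right h2 (a4_nn _ _)
      · rcases Nat.lt_or_ge (4 ^ (m + 1)) R₀ with hR0 | hR0
        · -- small `m`
          have h1 : m + 1 ≤ R₀ := by
            have : m + 1 < 4 ^ (m + 1) := Nat.lt_pow_self (by norm_num)
            omega
          have h2 : a4 q (4 ^ R₀) ≤ a4 q (4 ^ (m + 1)) :=
            a4_anti (Nat.one_le_pow _ _ (by norm_num)) (Nat.pow_le_pow_right (by norm_num) h1)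
          have h3 := H4 n q (by omega) hR
          have h4 : c₀ ≤ a4 q (4 ^ (m + 1)) := h3.trans h2
          calc _ ≤ a4 q (4 ^ k) := htriv
            _ ≤ 1 := a4_le_one _ _
            _ = (1 / c₀) * c₀ := by field_simp
            _ ≤ M * a4 q (4 ^ (m + 1)) := by
                apply mul_le_mul hM2 h4 hc₀.le (by linarith only [hM0])
        · have h1 := qm_step (k := k) (m := m + 1) hR hε.le hC₁ hC₂.le H1
            (fun t R a b c' d' => H2 n t R q a b c' d' hR)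
            (fun k R L K a b c' d' e' => H3 n k R q L K a b c' hR d' e') hk (by omega) (by omega)
            hR0 (by omega)
          rw [Nat.add_sub_cancel] at h1
          have h2 := ihd (d - 1) (by omega) (k + 1) (by omega) (by omega) (by omega)
          have h3 := ihm k hk (by omega) (by omega)
          have h4 := H1 (4 ^ m) (by omega) (by omega)
          rw [← e4] at h4
          have hJ : (J : ℝ) ^ 2 * ε * C₁ ^ 2 ≤ 1 / 2 := by
            rw [hεdef]
            have hJ1 : (0 : ℝ) ≤ J := Nat.cast_nonneg _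
            have : (J : ℝ) ^ 2 * (1 / (2 * ((J : ℝ) + 1) ^ 2 * C₁ ^ 2)) * C₁ ^ 2 =
                (1 / 2) * ((J : ℝ) ^ 2 / ((J : ℝ) + 1) ^ 2) := by
              field_simp
            rw [this]
            have h5 : (J : ℝ) ^ 2 / ((J : ℝ) + 1) ^ 2 ≤ 1 := by
              rw [div_le_one (by positivity)]
              nlinarith
            linarith only [h5]
          have hX0 : 0 ≤ a4 q (4 ^ (k + 1)) * Pr q (A2 (4 * 4 ^ (k + 1)) (4 ^ (m + 1))) :=
            mul_nonneg (a4_nn _ _) Pr_nonneg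
          have hY0 : 0 ≤ a4 q (4 ^ (m + 1)) := a4_nn _ _
          have h6 : 1 / (4 * C₁) * (a4 q (4 ^ k) * Pr q (A2 (4 * 4 ^ k) (4 ^ m))) ≤
              (M / 4) * a4 q (4 ^ (m + 1)) := by
            calc 1 / (4 * C₁) * (a4 q (4 ^ k) * Pr q (A2 (4 * 4 ^ k) (4 ^ m)))
                ≤ 1 / (4 * C₁) * (M * (C₁ * a4 q (4 ^ (m + 1)))) := by
                  apply mul_le_mul_of_nonneg_left _ (by positivity)
                  exact h3.trans (mul_le_mul_of_nonneg_left h4 (by linarith only [hM0]))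
              _ = (M / 4) * a4 q (4 ^ (m + 1)) := by field_simp
          have h7 : (J : ℝ) ^ 2 * ε * C₁ ^ 2 *
              (a4 q (4 ^ (k + 1)) * Pr q (A2 (4 * 4 ^ (k + 1)) (4 ^ (m + 1)))) ≤
              (M / 2) * a4 q (4 ^ (m + 1)) := by
            calc _ ≤ (1 / 2) * (a4 q (4 ^ (k + 1)) *
                  Pr q (A2 (4 * 4 ^ (k + 1)) (4 ^ (m + 1)))) :=
                  mul_le_mul_of_nonneg_right hJ hX0
              _ ≤ (1 / 2) * (M * a4 q (4 ^ (m + 1))) :=
                  mul_le_mul_of_nonneg_left h2 (by norm_num)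
              _ = (M / 2) * a4 q (4 ^ (m + 1)) := by ring
          have h8 : (J : ℝ) ^ 2 * C₂ * a4 q (4 ^ (m + 1)) ≤ (M / 4) * a4 q (4 ^ (m + 1)) :=
            mul_le_mul_of_nonneg_right (by linarith only [hM3]) hY0
          linarith only [h1, h6, h7, h8]

/-- Quasi-multiplicativity. -/
theorem qmann (hB : BadIn) (hG : GLT) (hr : RegA4) : QMann := by
  intro c hc
  obtain ⟨M, k₀, hM, hk₀, H⟩ := qm_pow hB hG hr c hc
  obtain ⟨C₁', hC₁', H1'⟩ := hr c hc
  set C₁ : ℝ := max C₁' 1 with hC₁def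
  have hC₁ : 1 ≤ C₁ := le_max_right _ _
  have hC₁0 : 0 < C₁ := by linarith only [hC₁]
  obtain ⟨c₀, hc₀, H4⟩ := a4_low c hc (4 ^ (k₀ + 1)) (Nat.one_le_pow _ _ (by norm_num))
  set D : ℝ := max (C₁ ^ 4) (1 / c₀) with hD
  have hD1 : C₁ ^ 4 ≤ D := le_max_left _ _
  have hD2 : 1 / c₀ ≤ D := le_max_right _ _
  have hD0 : 1 ≤ D := (one_le_pow₀ hC₁).trans hD1
  refine ⟨D * (M * C₁), by positivity, fun n r R q h1 h2 h3 hR => ?_⟩
  have H1 : ∀ r : ℕ, 1 ≤ r → 64 * r ≤ n → a4 q r ≤ C₁ * a4 q (4 * r) := fun r h1 h2 =>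
    (H1' n r q h1 h2 hR).trans (mul_le_mul_of_nonneg_right (le_max_left _ _) (a4_nn _ _))
  have hbig : D ≤ D * (M * C₁) := by
    have : 1 ≤ M * C₁ := by nlinarith only [hM, hC₁]
    nlinarith only [this, hD0]
  -- scales
  obtain ⟨m, hm1, hm2⟩ : ∃ m, 4 ^ m ≤ R ∧ R < 4 ^ (m + 1) := by
    refine ⟨Nat.log 4 R, Nat.pow_log_le_self 4 (by omega), Nat.lt_pow_succ_log_self (by norm_num) R⟩
  obtain ⟨a, ha1, ha2⟩ : ∃ a, 4 ^ a ≤ 4 * r ∧ 4 * r < 4 ^ (a + 1) := by
    refine ⟨Nat.log 4 (4 * r), Nat.pow_log_le_self 4 (by omega),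
      Nat.lt_pow_succ_log_self (by norm_num) _⟩
  have e1 : 4 ^ (m + 1) = 4 * 4 ^ m := by ring
  have e2 : 4 ^ (a + 1) = 4 * 4 ^ a := by ring
  have htriv : a4 q r * Pr q (A2 (16 * r) R) ≤ a4 q r := by
    have h4 : Pr q (A2 (16 * r) R) ≤ 1 := Pr_le_one
    have := a4_nn q r
    nlinarith only [h4, this]
  set k := max k₀ (a + 1) with hkdef
  have hk0 : k₀ ≤ k := le_max_left _ _
  have hka : a + 1 ≤ k := le_max_right _ _
  have hrk : 4 * r ≤ 4 ^ k := ha2.le.trans (Nat.pow_le_pow_right (by norm_num) hka)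
  rcases Nat.lt_or_ge k m with hkm | hkm
  · -- main case
    have hsub : A2 (16 * r) R ⊆ A2 (4 * 4 ^ k) (4 ^ m) := by
      refine A2_mono (by omega) (by omega) ?_ hm1
      have : 4 ^ (k + 1) ≤ 4 ^ m := Nat.pow_le_pow_right (by norm_num) hkm
      have e3 : 4 ^ (k + 1) = 4 * 4 ^ k := by ring
      omega
    have hmain := H n q hR m k hk0 hkm.le (by omega)
    have hreg : a4 q r ≤ D * a4 q (4 ^ k) := by
      rcases Nat.le_total k₀ (a + 1) with hc1 | hc1
      · have hk : k = a + 1 := max_eq_right hc1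
        have h5 := reg_iter hC₁ H1 4 r (4 ^ k) h1 (by omega) (by rw [hk]; omega) (by
          rw [hk]; omega)
        exact h5.trans (mul_le_mul_of_nonneg_right hD1 (a4_nn _ _))
      · have hk : k = k₀ := max_eq_left hc1
        have h5 := H4 n q (by omega) hR
        have h6 : a4 q (4 ^ (k₀ + 1)) ≤ a4 q (4 ^ k) := by
          rw [hk]
          exact a4_anti (Nat.one_le_pow _ _ (by norm_num))
            (Nat.pow_le_pow_right (by norm_num) (by omega))
        calc a4 q r ≤ 1 := a4_le_one _ _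
          _ = (1 / c₀) * c₀ := by field_simp
          _ ≤ D * a4 q (4 ^ k) := mul_le_mul hD2 (h5.trans h6) hc₀.le (by linarith only [hD0])
    have hlast : a4 q (4 ^ m) ≤ C₁ * a4 q R := by
      have h5 := H1 (4 ^ m) (Nat.one_le_pow _ _ (by norm_num)) (by omega)
      have h6 : a4 q (4 * 4 ^ m) ≤ a4 q R := a4_anti (by omega) (by omega)
      exact h5.trans (mul_le_mul_of_nonneg_left h6 hC₁0.le)
    calc a4 q r * Pr q (A2 (16 * r) R)
        ≤ (D * a4 q (4 ^ k)) * Pr q (A2 (4 * 4 ^ k) (4 ^ m)) :=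
          mul_le_mul hreg (Pr_mono hsub) Pr_nonneg (mul_nonneg (by linarith only [hD0]) (a4_nn _ _))
      _ = D * (a4 q (4 ^ k) * Pr q (A2 (4 * 4 ^ k) (4 ^ m))) := by ring
      _ ≤ D * (M * (C₁ * a4 q R)) := by
          apply mul_le_mul_of_nonneg_left _ (by linarith only [hD0])
          exact hmain.trans (mul_le_mul_of_nonneg_left hlast (by linarith only [hM]))
      _ = D * (M * C₁) * a4 q R := by ring
  · -- `r` comparable with `R`, or `R` bounded
    have hgoal : a4 q r ≤ D * a4 q R := by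
      rcases Nat.le_total k₀ (a + 1) with hc1 | hc1
      · have hk : k = a + 1 := max_eq_right hc1
        rw [hk] at hkm
        have h5 : 4 ^ m ≤ 4 ^ (a + 1) := Nat.pow_le_pow_right (by norm_num) hkm
        have h6 := reg_iter hC₁ H1 4 r R h1 (by omega) (by omega) (by omega)
        exact h6.trans (mul_le_mul_of_nonneg_right hD1 (a4_nn _ _))
      · have hk : k = k₀ := max_eq_left hc1
        rw [hk] at hkm
        have h5 := H4 n q (by omega) hR
        have h6 : a4 q (4 ^ (k₀ + 1)) ≤ a4 q R := by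
          have h7 : 4 ^ (m + 1) ≤ 4 ^ (k₀ + 1) := Nat.pow_le_pow_right (by norm_num) (by omega)
          exact a4_anti (by omega) (by omega)
        calc a4 q r ≤ 1 := a4_le_one _ _
          _ = (1 / c₀) * c₀ := by field_simp
          _ ≤ D * a4 q R := mul_le_mul hD2 (h5.trans h6) hc₀.le (by linarith only [hD0])
    exact htriv.trans (hgoal.trans (mul_le_mul_of_nonneg_right hbig (a4_nn _ _)))

/-- The gluing inequality on the torus. -/
theorem glTorus (hB : BadIn) (hG : GLT) (hr : RegA4) (hS : SepTorus) : GLTorus := by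
  intro c hc
  obtain ⟨M, hM, H⟩ := qmann hB hG hr c hc
  obtain ⟨C₁', hC₁', H1'⟩ := hr c hc
  set C₁ : ℝ := max C₁' 1 with hC₁def
  have hC₁ : 1 ≤ C₁ := le_max_right _ _
  have hC₁0 : 0 < C₁ := by linarith
  obtain ⟨C₃, hC₃, H3⟩ := hS c hc
  refine ⟨(C₁ ^ 4 + C₁ ^ 2 * M) * C₃, by positivity, fun N r q d h1 h2 hR => ?_⟩
  have H1 : ∀ r : ℕ, 1 ≤ r → 64 * r ≤ N → a4 q r ≤ C₁ * a4 q (4 * r) := fun r h1 h2 =>
    (H1' N r q h1 h2 hR).trans (mul_le_mul_of_nonneg_right (le_max_left _ _) (a4_nn _ _))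
  have hP1 : Pr q (BlockPiv N (16 * r)) ≤ 1 := Pr_le_one
  have hP0 : 0 ≤ Pr q (BlockPiv N (16 * r)) := Pr_nonneg
  set R := N / 64 + 1 with hRdef
  have hR1 : N ≤ 64 * R := by omega
  have hR2 : 4 * R ≤ N := by omega
  have h3 := H3 N R q d (by omega) hR1 hR2 hR
  have h4 := a4_nn q r
  have hs0 : 0 ≤ sT q N d := by
    by_contra h
    push Not at h
    have := a4_nn q R
    nlinarith only [h3, this, hC₃, h]
  rcases Nat.lt_or_ge N (4096 * r) with hs | hs
  · have h5 : a4 q r ≤ C₁ ^ 4 * a4 q R := by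
      rcases Nat.lt_or_ge r R with h6 | h6
      · exact reg_iter hC₁ H1 4 r R h1 h6.le (by omega) (by omega)
      · have := a4_anti (q := q) (by omega : 1 ≤ R) h6
        have h7 : (1 : ℝ) ≤ C₁ ^ 4 := one_le_pow₀ hC₁
        nlinarith only [this, h4, h7, a4_nn q R]
    calc a4 q r * Pr q (BlockPiv N (16 * r)) ≤ a4 q r := by nlinarith only [hP1, h4]
      _ ≤ C₁ ^ 4 * (C₃ * sT q N d) := h5.trans (mul_le_mul_of_nonneg_left h3 (by positivity))
      _ ≤ (C₁ ^ 4 + C₁ ^ 2 * M) * C₃ * sT q N d := by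
          have : 0 ≤ C₁ ^ 2 * M * C₃ * sT q N d := by positivity
          nlinarith only [this]
  · set ρ := N / 64 with hρ
    have h5 := blockPiv_le (N := N) (ρ := 16 * r) (R := ρ) q (by omega) (by omega) (by omega)
    have h6 : A2 (16 * r + 2) ρ ⊆ A2 (16 * (2 * r)) ρ :=
      A2_mono (by omega) (by omega) (by omega) le_rfl
    have h7 := H N (2 * r) ρ q (by omega) (by omega) (by omega) hR
    have h8 : a4 q r ≤ C₁ * a4 q (2 * r) :=
      (H1 r h1 h2).trans (mul_le_mul_of_nonneg_left (a4_anti (by omega) (by omega)) hC₁0.le)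
    have h9 : a4 q ρ ≤ C₁ * a4 q R := by
      rw [hRdef]
      have h10 := reg_iter hC₁ H1 1 ρ (ρ + 1) (by omega) (by omega) (by omega) (by omega)
      rwa [pow_one] at h10
    calc a4 q r * Pr q (BlockPiv N (16 * r))
        ≤ (C₁ * a4 q (2 * r)) * Pr q (A2 (16 * (2 * r)) ρ) :=
          mul_le_mul h8 (h5.trans (Pr_mono h6)) hP0 (mul_nonneg hC₁0.le (a4_nn _ _))
      _ = C₁ * (a4 q (2 * r) * Pr q (A2 (16 * (2 * r)) ρ)) := by ring
      _ ≤ C₁ * (M * (C₁ * (C₃ * sT q N d))) := by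
          apply mul_le_mul_of_nonneg_left _ hC₁0.le
          refine h7.trans (mul_le_mul_of_nonneg_left ?_ hM.le)
          exact h9.trans (mul_le_mul_of_nonneg_left h3 hC₁0.le)
      _ ≤ (C₁ ^ 4 + C₁ ^ 2 * M) * C₃ * sT q N d := by
          have : 0 ≤ C₁ ^ 4 * C₃ * sT q N d := by positivity
          nlinarith only [this]

end Pool.Agent.H29.Sep

end

section

/-! The sum of the components of the qKZ solution. -/

namespace H56.EX

open Finset

/-- sum of the components -/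
noncomputable def ZZ (Ψ : ∀ L : ℕ, Pat L → (ℤ → ℂ) → ℂ) (L : ℕ) (z : ℕ → ℂ) : ℂ :=
  ∑ P : Pat L, Ψ L P (par L z)

lemma sum_eop {L : ℕ} (i : ℤ) (v : Pat L → ℂ) : ∑ P, eop i v P = ∑ P, v P := by
  unfold eop
  rw [Finset.sum_comm]
  refine Finset.sum_congr rfl fun P _ => ?_
  rw [Finset.sum_ite_eq Finset.univ (E i P)]
  simp

section psi

variable {Ψ : ∀ L : ℕ, Pat L → (ℤ → ℂ) → ℂ} (hΨ : PsiProps Ψ)

include hΨ

/-- (a) -/
theorem ZZ_mv (L : ℕ) : ∃ p : MvPolynomial (Fin L) ℂ, ∀ z : ℕ → ℂ,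
    ZZ Ψ L z = MvPolynomial.eval (fun k : Fin L => z k) p := by
  choose p hp using fun P : Pat L => hΨ.mv L P
  refine ⟨∑ P, p P, fun z => ?_⟩
  unfold ZZ
  rw [map_sum]
  refine Finset.sum_congr rfl fun P _ => ?_
  rw [hp]
  congr 2
  funext k
  exact par_nat z k.2

lemma ZZ_swap_aux (L : ℕ) (z : ℕ → ℂ) (i : ℕ) (hi : i + 1 < L) :
    (q * z (i + 1) - q⁻¹ * z i) * ZZ Ψ L (z ∘ Equiv.swap i (i + 1)) =
      (q * z (i + 1) - q⁻¹ * z i) * ZZ Ψ L z := by
  unfold ZZ
  have h : ∀ P : Pat L, (q * z (i + 1) - q⁻¹ * z i) *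
      Ψ L P (par L (z ∘ Equiv.swap i (i + 1))) =
      (q * z i - q⁻¹ * z (i + 1)) * Ψ L P (par L z) +
        (z i - z (i + 1)) * eop i (fun P' => Ψ L P' (par L z)) P := by
    intro P
    have := hΨ.exch L P (par L z) (per_par _ _) (i : ℤ)
    rw [swp_par _ hi] at this
    have e0 : par L z ((i : ℕ) : ℤ) = z i := par_nat _ (by omega)
    have e1 : par L z (((i : ℕ) : ℤ) + 1) = z (i + 1) := by
      have : ((i : ℕ) : ℤ) + 1 = ((i + 1 : ℕ) : ℤ) := by push_cast; ring
      rw [this, par_nat _ hi]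
    rw [e0, e1] at this
    exact this
  rw [Finset.mul_sum, Finset.sum_congr rfl (fun P _ => h P), Finset.sum_add_distrib,
    ← Finset.mul_sum, ← Finset.mul_sum, sum_eop]
  have hq2 : q⁻¹ = -1 - q := by
    rw [q_inv]; linear_combination q_sq
  rw [hq2]
  ring

/-- (b) symmetry -/
theorem ZZ_swap (L : ℕ) (z : ℕ → ℂ) (i : ℕ) (hi : i + 1 < L) :
    ZZ Ψ L (z ∘ Equiv.swap i (i + 1)) = ZZ Ψ L z := by
  classical
  obtain ⟨p, hp⟩ := ZZ_mv hΨ L
  set a : Fin L := ⟨i, by omega⟩ with ha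
  set b : Fin L := ⟨i + 1, hi⟩ with hb
  have hab : a ≠ b := by
    intro h
    have := congrArg Fin.val h
    simp [ha, hb] at this
  set p' := MvPolynomial.rename (Equiv.swap a b) p with hp'
  set f : MvPolynomial (Fin L) ℂ := MvPolynomial.C q * MvPolynomial.X b -
    MvPolynomial.C q⁻¹ * MvPolynomial.X a with hf
  have hev : ∀ x : Fin L → ℂ, MvPolynomial.eval x p' =
      MvPolynomial.eval (x ∘ Equiv.swap a b) p := by
    intro x
    rw [hp', MvPolynomial.eval_rename]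
  -- extension of a finite sequence
  have hext : ∀ x : Fin L → ℂ, ∃ z : ℕ → ℂ, ∀ k : Fin L, z k = x k := by
    intro x
    exact ⟨fun n => if h : n < L then x ⟨n, h⟩ else 0, fun k => by simp⟩
  have hsw : ∀ (z : ℕ → ℂ) (k : Fin L), (z ∘ Equiv.swap i (i + 1)) k =
      z ((Equiv.swap a b) k : Fin L) := by
    intro z k
    rw [Function.comp_apply]
    congr 1
    by_cases h1 : k = a
    · rw [h1]; simp [ha, hb]
    by_cases h2 : k = b
    · rw [h2]; simp [ha, hb]
    have h1' : (k : ℕ) ≠ i := fun h => h1 (Fin.ext h)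
    have h2' : (k : ℕ) ≠ i + 1 := fun h => h2 (Fin.ext h)
    rw [Equiv.swap_apply_of_ne_of_ne h1 h2, Equiv.swap_apply_of_ne_of_ne h1' h2']
  have key : f * p' = f * p := by
    apply MvPolynomial.funext
    intro x
    obtain ⟨z, hz⟩ := hext x
    have h := ZZ_swap_aux hΨ L z i hi
    rw [hp, hp] at h
    have e1 : (fun k : Fin L => (z ∘ Equiv.swap i (i + 1)) k) = x ∘ Equiv.swap a b := by
      funext k
      rw [hsw, hz]; rfl
    have e2 : (fun k : Fin L => z k) = x := funext hz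
    rw [e1, e2] at h
    have e3 : z i = x a := hz a
    have e4 : z (i + 1) = x b := hz b
    rw [e3, e4] at h
    simp only [map_mul, hf, map_sub, MvPolynomial.eval_C, MvPolynomial.eval_X, hev]
    exact h
  have hf0 : f ≠ 0 := by
    intro h0
    have := congrArg (MvPolynomial.eval (fun k => if k = b then (1 : ℂ) else 0)) h0
    simp only [hf, map_sub, map_mul, MvPolynomial.eval_C, MvPolynomial.eval_X, map_zero] at this
    rw [if_neg hab] at this
    simp at this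
    exact q_ne_zero this
  have hpp := mul_left_cancel₀ hf0 key
  rw [hp, hp]
  have e1 : (fun k : Fin L => (z ∘ Equiv.swap i (i + 1)) k) =
      (fun k : Fin L => z k) ∘ Equiv.swap a b := by
    funext k
    rw [hsw]; rfl
  rw [e1, ← hev, hpp]

/-- (c) degree in the first variable -/
theorem ZZ_poly (L : ℕ) (hL : 0 < L) (z : ℕ → ℂ) : ∃ p : Polynomial ℂ, p.natDegree ≤ L - 1 ∧
    ∀ t, ZZ Ψ L (Function.update z 0 t) = p.eval t := by
  have h : ∀ P : Pat L, ∃ p : Polynomial ℂ, p.natDegree ≤ L - 1 ∧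
      ∀ t, Ψ L P (par L (Function.update z 0 t)) = p.eval t := by
    intro P
    obtain ⟨p, hp, he⟩ := hΨ.poly L P (par L z) (per_par _ _) ((0 : ℕ) : ℤ)
    refine ⟨p, hp, fun t => ?_⟩
    rw [← he t, upd_par _ hL]
  choose p hp he using h
  refine ⟨∑ P, p P, ?_, fun t => ?_⟩
  · apply Polynomial.natDegree_sum_le_of_forall_le
    intro P _
    exact hp P
  · unfold ZZ
    rw [Polynomial.eval_finsetSum]
    exact Finset.sum_congr rfl fun P _ => he P t

/-- (d) recursion -/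
theorem ZZ_rec (L : ℕ) (hL : 2 ≤ L) (z : ℕ → ℂ) (hz : z 0 = q ^ 2 * z 1) :
    ZZ Ψ (L + 2) z = (-q * z 1 * (∏ s ∈ range L, (z (s + 2) - q * z 1) ^ 2) / 3 ^ L) *
      ZZ Ψ L (fun n => z (n + 2)) := by
  unfold ZZ
  have e0 : par (L + 2) z ((0 : ℕ) : ℤ) = z 0 := par_nat _ (by omega)
  have e1 : par (L + 2) z (((0 : ℕ) : ℤ) + 1) = z 1 := by
    have : ((0 : ℕ) : ℤ) + 1 = ((1 : ℕ) : ℤ) := by norm_num
    rw [this, par_nat _ (by omega)]
  have hcond : par (L + 2) z ((0 : ℕ) : ℤ) = q ^ 2 * par (L + 2) z (((0 : ℕ) : ℤ) + 1) := by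
    rw [e0, e1, hz]
  rw [sum_arc hL ((0 : ℕ) : ℤ) (fun P => Ψ (L + 2) P (par (L + 2) z))
    (fun P hP => hΨ.arc_zero (L + 2) P _ (per_par _ _) _ hcond hP), Finset.mul_sum]
  refine Finset.sum_congr rfl fun Q _ => ?_
  rw [hΨ.arc L Q _ (per_par _ _) _ hcond, phi_par (by omega) z 0 (by omega), e1]
  congr 1
  · congr 2
    refine Finset.prod_congr rfl fun s hs => ?_
    have hs := Finset.mem_range.1 hs
    have : ((0 : ℕ) : ℤ) + 2 + (s : ℤ) = ((s + 2 : ℕ) : ℤ) := by push_cast; ring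
    rw [this, par_nat _ (by omega)]

omit hΨ in
lemma rot_base2 : (rot base2).m 0 = 1 := by
  show base2.m (0 - 1) + 1 = 1
  have : base2.m (0 - 1) = 0 := by
    show (if ((0 : ℤ) - 1) % 2 = 0 then (0 : ℤ) - 1 - 1 else (0 : ℤ) - 1 + 1) = 0
    norm_num
  rw [this]; norm_num

/-- (e) base -/
theorem ZZ_two (z : ℕ → ℂ) : ZZ Ψ 2 z = z 0 + z 1 := by
  classical
  have hall : (Finset.univ : Finset (Pat 2)) = {base2, rot base2} := by
    ext P
    simp only [mem_univ, mem_insert, mem_singleton, true_iff]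
    by_cases h : P.m 0 = 1
    · right
      -- P = rot base2
      have h1 : unrot P = base2 := by
        apply eq_base2
        show P.m (0 + 1) - 1 ≠ 1
        have h2 : P.m 1 = 0 := by rw [← h, P.inv]
        rw [show (0 : ℤ) + 1 = 1 by norm_num, h2]; norm_num
      have h3 : rot (unrot P) = P := (rotEquiv 2).right_inv P
      rw [← h1, h3]
    · left; exact eq_base2 P h
  have hne : base2 ≠ rot base2 := by
    intro h
    have h1 := rot_base2
    rw [← h] at h1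
    have : base2.m 0 = -1 := by
      show (if ((0 : ℤ)) % 2 = 0 then (0 : ℤ) - 1 else (0 : ℤ) + 1) = -1
      norm_num
    rw [this] at h1
    norm_num at h1
  unfold ZZ
  rw [hall, Finset.sum_pair hne, psi_base2 hΨ]
  have hrot : Ψ 2 (rot base2) (par 2 z) = Ψ 2 base2 (par 2 (z ∘ Equiv.swap 0 1)) := by
    rw [← hΨ.rot 2 base2 (par 2 (z ∘ Equiv.swap 0 1)) (per_par _ _)]
    congr 1
    funext x
    obtain ⟨m, hm, hc, he⟩ := par_eq_emod 2 (by norm_num) z x
    rw [he]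
    symm
    have hm2 : m = 0 ∨ m = 1 := by omega
    rcases hm2 with rfl | rfl
    · have : par 2 (z ∘ Equiv.swap 0 1) (x - 1) = (z ∘ Equiv.swap 0 1) 1 := by
        apply par_of _ (by norm_num)
        obtain ⟨a, ha⟩ := hc
        refine ⟨a - 1, ?_⟩
        push_cast at ha ⊢
        linarith only [ha]
      rw [this]; simp
    · have : par 2 (z ∘ Equiv.swap 0 1) (x - 1) = (z ∘ Equiv.swap 0 1) 0 := by
        apply par_of _ (by norm_num)
        obtain ⟨a, ha⟩ := hc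
        refine ⟨a, ?_⟩
        push_cast at ha ⊢
        linarith only [ha]
      rw [this]; simp
  rw [hrot, psi_base2 hΨ]
  have hd0 : q - q⁻¹ ≠ 0 := by
    intro h
    have hq2 : q⁻¹ = -1 - q := by
      rw [q_inv]; linear_combination q_sq
    have hd : (q - q⁻¹) ^ 2 = -3 := by
      rw [hq2]; linear_combination 4 * q_sq
    rw [h] at hd
    norm_num at hd
  simp only [Function.comp_apply, Equiv.swap_apply_left, Equiv.swap_apply_right]
  rw [← add_div, div_eq_iff hd0]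
  ring

end psi

end H56.EX

end

section

/-! Stationarity of the homogeneous qKZ vector under the random row map of helper89. -/

namespace H56.EX

open Finset Pool.Agent.H89.Link

variable {L : ℕ}

lemma wires_congr' {t t' : ℤ → Bool} : ∀ (k : ℕ) (P : Pat (L + 2)),
    (∀ j : ℕ, j < k → t j = t' j) → wires t k P = wires t' k P := by
  intro k
  induction k with
  | zero => intro P _; rfl
  | succ k ih =>
    intro P h
    simp only [wires]
    rw [ih P (fun j hj => h j (by omega)), h k (by omega)]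

lemma wires_succ (t : ℤ → Bool) (k : ℕ) (P : Pat (L + 2)) :
    wires t (k + 1) P = if t k = true then E ((k : ℤ) + 1) (wires t k P) else wires t k P := rfl

lemma wires_zero (t : ℤ → Bool) (P : Pat (L + 2)) : wires t 0 P = P := rfl

lemma bits_nat (t : Fin L → Bool) (k : ℕ) (hk : k < L) : bits t (k : ℤ) = t ⟨k, hk⟩ := by
  unfold bits
  have h : ((k : ℤ) % (L : ℤ)).toNat = k := by
    rw [Int.emod_eq_of_lt (by omega) (by exact_mod_cast hk)]; simp
  simp only [h, hk, dif_pos]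

/-- flip one bit -/
def flip (k : Fin L) : (Fin L → Bool) ≃ (Fin L → Bool) :=
  Function.Involutive.toPerm (fun t => Function.update t k (!t k)) (by
    intro t
    funext j
    by_cases h : j = k
    · subst h; simp
    · simp [h])

lemma flip_self (k : Fin L) (t : Fin L → Bool) : flip k t k = !t k := by
  simp [flip, Function.Involutive.toPerm]

lemma flip_ne (k j : Fin L) (t : Fin L → Bool) (h : j ≠ k) : flip k t j = t j := by
  simp [flip, Function.Involutive.toPerm, h]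

open Classical in
/-- the summed push forward after `k` columns -/
noncomputable def U (v : Pat L → ℂ) (k : ℕ) (P : Pat (L + 2)) : ℂ :=
  ∑ t : Fin L → Bool, ∑ P0 : Pat L, if wires (bits t) k (ins 0 P0) = P then v P0 else 0

open Classical in
lemma eop_sum {N : ℕ} {ι : Type*} [Fintype ι] (i : ℤ) (f : ι → Pat N) (c : ι → ℂ) (P : Pat N) :
    eop i (fun P' => ∑ x, if f x = P' then c x else 0) P =
      ∑ x, if E i (f x) = P then c x else 0 := by
  unfold eop
  have h : ∀ P' : Pat N, (if E i P' = P then ∑ x, (if f x = P' then c x else 0) else 0) =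
      ∑ x, if f x = P' then (if E i P' = P then c x else 0) else 0 := by
    intro P'
    by_cases h : E i P' = P <;> simp [h]
  rw [Finset.sum_congr rfl (fun P' _ => h P'), Finset.sum_comm]
  refine Finset.sum_congr rfl fun x _ => ?_
  rw [Finset.sum_ite_eq Finset.univ (f x)]
  simp

open Classical in
lemma eop_U (v : Pat L → ℂ) (k : ℕ) (i : ℤ) (P : Pat (L + 2)) :
    eop i (U v k) P = ∑ t : Fin L → Bool, ∑ P0 : Pat L,
      if E i (wires (bits t) k (ins 0 P0)) = P then v P0 else 0 := by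
  have h := eop_sum i (fun x : (Fin L → Bool) × Pat L => wires (bits x.1) k (ins 0 x.2))
    (fun x => v x.2) P
  rw [Fintype.sum_prod_type] at h
  rw [← h]
  congr 1
  funext P'
  rw [Fintype.sum_prod_type]
  rfl

lemma U_succ (v : Pat L → ℂ) (k : ℕ) (hk : k < L) (P : Pat (L + 2)) :
    2 * U v (k + 1) P = U v k P + eop (k + 1) (U v k) P := by
  classical
  rw [eop_U]
  set A : (Fin L → Bool) → ℂ := fun t => ∑ P0 : Pat L,
      if E (k + 1) (wires (bits t) k (ins 0 P0)) = P then v P0 else 0 with hA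
  set B : (Fin L → Bool) → ℂ := fun t => ∑ P0 : Pat L,
      if wires (bits t) k (ins 0 P0) = P then v P0 else 0 with hB
  have hU : U v (k + 1) P = ∑ t : Fin L → Bool, if t ⟨k, hk⟩ = true then A t else B t := by
    unfold U
    refine Finset.sum_congr rfl fun t _ => ?_
    have hb := bits_nat t k hk
    by_cases h : t ⟨k, hk⟩ = true
    · rw [if_pos h]
      refine Finset.sum_congr rfl fun P0 _ => ?_
      have hw1 : wires (bits t) (k + 1) (ins 0 P0) =
          E (k + 1) (wires (bits t) k (ins 0 P0)) := by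
        rw [wires_succ, hb, if_pos h]
      exact if_congr (by rw [hw1]) rfl rfl
    · rw [if_neg h]
      refine Finset.sum_congr rfl fun P0 _ => ?_
      have hw1 : wires (bits t) (k + 1) (ins 0 P0) = wires (bits t) k (ins 0 P0) := by
        rw [wires_succ, hb, if_neg h]
      exact if_congr (by rw [hw1]) rfl rfl
  have hw : ∀ (t : Fin L → Bool) (P0 : Pat L), wires (bits (flip ⟨k, hk⟩ t)) k (ins 0 P0) =
      wires (bits t) k (ins 0 P0) := by
    intro t P0
    apply wires_congr'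
    intro j hj
    rw [bits_nat _ j (by omega), bits_nat _ j (by omega), flip_ne]
    intro h
    have := congrArg Fin.val h
    simp at this
    omega
  have hAf : ∀ t, A (flip ⟨k, hk⟩ t) = A t := by
    intro t; simp only [hA, hw]
  have hBf : ∀ t, B (flip ⟨k, hk⟩ t) = B t := by
    intro t; simp only [hB, hw]
  have h2 : (∑ t : Fin L → Bool, if t ⟨k, hk⟩ = true then A t else B t) =
      ∑ t : Fin L → Bool, if t ⟨k, hk⟩ = true then B t else A t := by
    rw [← Equiv.sum_comp (flip ⟨k, hk⟩)]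
    refine Finset.sum_congr rfl fun t _ => ?_
    rw [flip_self, hAf, hBf]
    by_cases h : t ⟨k, hk⟩ = true
    · simp [h]
    · simp [h]
  have h3 : 2 * U v (k + 1) P = (∑ t : Fin L → Bool, if t ⟨k, hk⟩ = true then A t else B t) +
      ∑ t : Fin L → Bool, if t ⟨k, hk⟩ = true then B t else A t := by
    rw [← h2, hU]; ring
  rw [h3, ← Finset.sum_add_distrib]
  show _ = (∑ t, B t) + ∑ t, A t
  rw [← Finset.sum_add_distrib]
  refine Finset.sum_congr rfl fun t _ => ?_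
  by_cases h : t ⟨k, hk⟩ = true
  · simp [h]; ring
  · simp [h]

/-- parameters after `k` columns -/
noncomputable def sk (k : ℕ) : ℕ → ℂ := fun n => if n = 0 then -q else if n = k + 1 then -q ^ 2 else 1

lemma sk_zero (k : ℕ) : sk k 0 = -q := by simp [sk]
lemma sk_self (k : ℕ) : sk k (k + 1) = -q ^ 2 := by simp [sk]
lemma sk_other (k n : ℕ) (h0 : n ≠ 0) (h1 : n ≠ k + 1) : sk k n = 1 := by simp [sk, h0, h1]

lemma sk_swap (k : ℕ) : sk k ∘ Equiv.swap (k + 1) (k + 1 + 1) = sk (k + 1) := by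
  funext n
  rw [Function.comp_apply]
  by_cases h0 : n = 0
  · subst h0
    rw [Equiv.swap_apply_of_ne_of_ne (by omega) (by omega), sk_zero, sk_zero]
  by_cases h1 : n = k + 1
  · subst h1
    rw [Equiv.swap_apply_left, sk_other k _ (by omega) (by omega),
      sk_other (k + 1) _ (by omega) (by omega)]
  by_cases h2 : n = k + 1 + 1
  · subst h2
    rw [Equiv.swap_apply_right, sk_self, sk_self]
  rw [Equiv.swap_apply_of_ne_of_ne h1 h2, sk_other k _ h0 h1, sk_other (k + 1) _ h0 h2]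

section psi

variable {Ψ : ∀ L : ℕ, Pat L → (ℤ → ℂ) → ℂ} (hΨ : PsiProps Ψ)

include hΨ

/-- one column -/
lemma psi_col (k : ℕ) (hk : k < L) (P : Pat (L + 2)) :
    2 * Ψ (L + 2) P (par (L + 2) (sk (k + 1))) = Ψ (L + 2) P (par (L + 2) (sk k)) +
      eop (k + 1) (fun P' => Ψ (L + 2) P' (par (L + 2) (sk k))) P := by
  have h := hΨ.exch (L + 2) P (par (L + 2) (sk k)) (per_par _ _) ((k + 1 : ℕ) : ℤ)
  rw [swp_par _ (by omega), sk_swap] at h
  have e0 : par (L + 2) (sk k) ((k + 1 : ℕ) : ℤ) = -q ^ 2 := by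
    rw [par_nat _ (by omega), sk_self]
  have e1 : par (L + 2) (sk k) (((k + 1 : ℕ) : ℤ) + 1) = 1 := by
    have : ((k + 1 : ℕ) : ℤ) + 1 = ((k + 2 : ℕ) : ℤ) := by push_cast; ring
    rw [this, par_nat _ (by omega), sk_other _ _ (by omega) (by omega)]
  rw [e0, e1] at h
  have hq := q_ne_zero
  have c1 : q * 1 - q⁻¹ * -q ^ 2 = 2 * q := by field_simp; ring
  have c2 : q * -q ^ 2 - q⁻¹ * 1 = q := by
    rw [q_inv]; linear_combination -q_cube - q_sq
  have c3 : -q ^ 2 - 1 = q := by linear_combination -q_sq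
  rw [c1, c2, c3] at h
  have h2 : q * (2 * Ψ (L + 2) P (par (L + 2) (sk (k + 1)))) =
      q * (Ψ (L + 2) P (par (L + 2) (sk k)) +
      eop (k + 1) (fun P' => Ψ (L + 2) P' (par (L + 2) (sk k))) P) := by
    push_cast at h
    linear_combination h
  exact mul_left_cancel₀ hq h2

/-- the scalar -/
noncomputable def gg0 (L : ℕ) : ℂ := -q * -q ^ 2 * (∏ _s ∈ range L, ((1 : ℂ) - q * -q ^ 2) ^ 2) / 3 ^ L

omit hΨ in
lemma gg0_ne (L : ℕ) : gg0 L ≠ 0 := by
  have h : (1 : ℂ) - q * -q ^ 2 = 2 := by linear_combination q_cube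
  have hq := q_ne_zero
  unfold gg0
  rw [h]
  refine div_ne_zero (mul_ne_zero (mul_ne_zero (neg_ne_zero.2 hq)
    (neg_ne_zero.2 (pow_ne_zero _ hq))) ?_) (pow_ne_zero _ (by norm_num))
  exact Finset.prod_ne_zero_iff.2 fun _ _ => by norm_num

lemma U_zero (hL : 2 ≤ L) (P : Pat (L + 2)) :
    gg0 L * U (fun P0 : Pat L => Ψ L P0 (fun _ => 1)) 0 P =
      2 ^ L * Ψ (L + 2) P (par (L + 2) (sk 0)) := by
  classical
  have e0 : par (L + 2) (sk 0) ((0 : ℕ) : ℤ) = -q := by
    rw [par_nat _ (by omega), sk_zero]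
  have e1 : par (L + 2) (sk 0) (((0 : ℕ) : ℤ) + 1) = -q ^ 2 := by
    have : (((0 : ℕ) : ℤ) + 1) = ((0 + 1 : ℕ) : ℤ) := by norm_num
    rw [this, par_nat _ (by omega), sk_self]
  have hcond : par (L + 2) (sk 0) ((0 : ℕ) : ℤ) =
      q ^ 2 * par (L + 2) (sk 0) (((0 : ℕ) : ℤ) + 1) := by
    rw [e0, e1]; linear_combination q * q_cube
  have hcard : (Finset.univ : Finset (Fin L → Bool)).card = 2 ^ L := by
    rw [Finset.card_univ]; simp
  have hU0 : U (fun P0 : Pat L => Ψ L P0 (fun _ => 1)) 0 P =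
      2 ^ L * ∑ P0 : Pat L, if ins 0 P0 = P then Ψ L P0 (fun _ => 1) else 0 := by
    unfold U
    have h1 : ∀ t : Fin L → Bool, (∑ P0 : Pat L, if wires (bits t) 0 (ins 0 P0) = P then
        Ψ L P0 (fun _ => 1) else 0) =
        ∑ P0 : Pat L, if ins 0 P0 = P then Ψ L P0 (fun _ => 1) else 0 := by
      intro t
      refine Finset.sum_congr rfl fun P0 _ => ?_
      exact if_congr (by rw [wires_zero]) rfl rfl
    rw [Finset.sum_congr rfl (fun t _ => h1 t), Finset.sum_const, hcard, nsmul_eq_mul]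
    push_cast
    ring
  rw [hU0]
  by_cases hP : P.m ((0 : ℕ) : ℤ) = ((0 : ℕ) : ℤ) + 1
  · obtain ⟨Q, hQ⟩ := exists_ins hL ((0 : ℕ) : ℤ) P hP
    have h1 := hΨ.arc L Q (par (L + 2) (sk 0)) (per_par _ _) ((0 : ℕ) : ℤ) hcond
    have hpar : (fun x => par (L + 2) (sk 0) (phi L ((0 : ℕ) : ℤ) x)) = fun _ => 1 := by
      rw [phi_par (by omega) (sk 0) 0 (by omega)]
      funext x
      obtain ⟨m, hm, hc, he⟩ := par_eq_emod L (by omega)
        (fun n => if n < 0 then sk 0 n else sk 0 (n + 2)) x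
      rw [he, if_neg (by omega), sk_other _ _ (by omega) (by omega)]
    have hgf : -q * par (L + 2) (sk 0) (((0 : ℕ) : ℤ) + 1) * (∏ s ∈ Finset.range L,
        (par (L + 2) (sk 0) (((0 : ℕ) : ℤ) + 2 + s) -
          q * par (L + 2) (sk 0) (((0 : ℕ) : ℤ) + 1)) ^ 2) / 3 ^ L = gg0 L := by
      unfold gg0
      rw [e1]
      congr 2
      refine Finset.prod_congr rfl fun s hs => ?_
      have hs := Finset.mem_range.1 hs
      have : ((0 : ℕ) : ℤ) + 2 + (s : ℤ) = ((s + 2 : ℕ) : ℤ) := by push_cast; ring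
      rw [this, par_nat _ (by omega), sk_other _ _ (by omega) (by omega)]
    rw [hpar, hgf] at h1
    subst hQ
    rw [h1]
    have hs : (∑ P0 : Pat L, if ins 0 P0 = ins ((0 : ℕ) : ℤ) Q then Ψ L P0 (fun _ => 1) else 0) =
        Ψ L Q (fun _ => 1) := by
      rw [Finset.sum_eq_single Q]
      · simp
      · intro P0 _ hne
        rw [if_neg]
        intro h
        exact hne (ins_injective 0 (by simpa using h))
      · intro h; exact absurd (Finset.mem_univ _) h
    rw [hs]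
    ring
  · have h1 := hΨ.arc_zero (L + 2) P (par (L + 2) (sk 0)) (per_par _ _) ((0 : ℕ) : ℤ) hcond hP
    rw [h1]
    have hs : (∑ P0 : Pat L, if ins 0 P0 = P then Ψ L P0 (fun _ => 1) else 0) = 0 := by
      apply Finset.sum_eq_zero
      intro P0 _
      rw [if_neg]
      intro h
      apply hP
      rw [← h]
      simpa using ins_i (L := L) 0 P0 (x := 0) ⟨0, by ring⟩
    rw [hs]
    ring

lemma U_eq (hL : 2 ≤ L) : ∀ (k : ℕ), k ≤ L → ∀ P : Pat (L + 2),
    gg0 L * U (fun P0 : Pat L => Ψ L P0 (fun _ => 1)) k P =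
      2 ^ L * Ψ (L + 2) P (par (L + 2) (sk k)) := by
  intro k
  induction k with
  | zero => intro _ P; exact U_zero hΨ hL P
  | succ k ih =>
    intro hk P
    have ih := ih (by omega)
    have h1 := U_succ (fun P0 : Pat L => Ψ L P0 (fun _ => 1)) k (by omega) P
    have h2 := psi_col hΨ k (by omega) P
    have h3 : gg0 L * eop (k + 1) (U (fun P0 : Pat L => Ψ L P0 (fun _ => 1)) k) P =
        2 ^ L * eop (k + 1) (fun P' => Ψ (L + 2) P' (par (L + 2) (sk k))) P := by
      unfold eop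
      rw [Finset.mul_sum, Finset.mul_sum]
      refine Finset.sum_congr rfl fun P' _ => ?_
      by_cases h : E ((k : ℤ) + 1) P' = P
      · rw [if_pos h, if_pos h, ih P']
      · rw [if_neg h, if_neg h]; ring
    have h4 := ih P
    have h5 : 2 * (gg0 L * U (fun P0 : Pat L => Ψ L P0 (fun _ => 1)) (k + 1) P) =
        2 * (2 ^ L * Ψ (L + 2) P (par (L + 2) (sk (k + 1)))) := by
      linear_combination gg0 L * h1 + h4 + h3 - 2 ^ L * h2
    exact mul_left_cancel₀ two_ne_zero h5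

/-- closing the line -/
lemma cap_psi (hL : 2 ≤ L) (Q : Pat L) :
    eop (-1) (fun P' => Ψ (L + 2) P' (par (L + 2) (sk L))) (ins (-1) Q) =
      gg0 L * Ψ L Q (fun _ => 1) := by
  set ζ := par (L + 2) (sk L) with hζ
  have e0 : ζ (-1) = -q ^ 2 := by
    have : ζ (-1) = sk L (L + 1) := by
      apply par_of _ (by omega)
      exact ⟨-1, by push_cast; ring⟩
    rw [this, sk_self]
  have e1 : ζ (-1 + 1) = -q := by
    have : (-1 + 1 : ℤ) = ((0 : ℕ) : ℤ) := by norm_num
    rw [this, hζ, par_nat _ (by omega), sk_zero]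
  have hper : Per (L + 2) ζ := per_par _ _
  have h := hΨ.exch (L + 2) (ins (-1) Q) ζ hper (-1)
  rw [e0, e1] at h
  have c1 : q * -q - q⁻¹ * -q ^ 2 = q - q ^ 2 := by
    have hq := q_ne_zero
    field_simp
    ring
  have c2 : q * -q ^ 2 - q⁻¹ * -q = 0 := by
    rw [q_inv]; ring
  have c3 : -q ^ 2 - -q = q - q ^ 2 := by ring
  rw [c1, c2, c3, zero_mul, zero_add] at h
  have hne : q - q ^ 2 ≠ 0 := by
    intro h
    have : q * (q - 1) = 0 := by linear_combination -h
    rcases mul_eq_zero.1 this with h1 | h1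
    · exact q_ne_zero h1
    · exact q_ne_one (sub_eq_zero.1 h1)
  have h2 := mul_left_cancel₀ hne h
  rw [← h2]
  have hc : ∀ x : ℤ, Cg (L + 2) (x + 1) 0 ↔ Cg (L + 2) x (-1) := by
    intro x
    unfold Cg
    constructor
    · rintro ⟨a, ha⟩; exact ⟨a, by linarith only [ha]⟩
    · rintro ⟨a, ha⟩; exact ⟨a, by linarith only [ha]⟩
  have s0 : swp (L + 2) (-1) ζ (-1) = -q := by
    unfold swp
    rw [if_pos (by exact ⟨0, by ring⟩), e1]
  have s1 : swp (L + 2) (-1) ζ (-1 + 1) = -q ^ 2 := by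
    unfold swp
    have hn : ¬ Cg (L + 2) (-1 + 1) (-1) := by
      intro h
      rcases dvd_cases h with h | h | h <;> push_cast at h <;> omega
    rw [if_neg hn, if_pos (by exact ⟨0, by ring⟩)]
    simpa using e0
  have so : ∀ x : ℤ, ¬ Cg (L + 2) x (-1) → ¬ Cg (L + 2) x 0 → swp (L + 2) (-1) ζ x = 1 := by
    intro x hx0 hx1
    unfold swp
    rw [if_neg hx0, if_neg (by simpa using hx1)]
    obtain ⟨m, hm, hc, he⟩ := par_eq_emod (L + 2) (by omega) (sk L) x
    rw [hζ, he]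
    apply sk_other
    · rintro rfl; exact hx1 (by simpa using hc)
    · rintro rfl
      apply hx0
      obtain ⟨a, ha⟩ := hc
      refine ⟨a + 1, ?_⟩
      push_cast at ha ⊢
      linarith only [ha]
  have hper' : Per (L + 2) (swp (L + 2) (-1) ζ) := by
    intro x
    have key : ∀ y : ℤ, Cg (L + 2) (x + ((L + 2 : ℕ) : ℤ)) y ↔ Cg (L + 2) x y := by
      intro y
      unfold Cg
      constructor
      · rintro ⟨a, ha⟩; exact ⟨a - 1, by push_cast at ha ⊢; linarith only [ha]⟩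
      · rintro ⟨a, ha⟩; exact ⟨a + 1, by push_cast at ha ⊢; linarith only [ha]⟩
    unfold swp
    simp only [key]
    have p1 := hper (x + 1)
    have p2 := hper (x - 1)
    have p3 := hper x
    rw [show x + ((L + 2 : ℕ) : ℤ) + 1 = x + 1 + ((L + 2 : ℕ) : ℤ) by ring, p1,
      show x + ((L + 2 : ℕ) : ℤ) - 1 = x - 1 + ((L + 2 : ℕ) : ℤ) by ring, p2, p3]
  have ha := hΨ.arc L Q (swp (L + 2) (-1) ζ) hper' (-1)
    (by rw [s0, s1]; linear_combination q * q_cube)
  rw [ha]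
  congr 1
  · unfold gg0
    rw [s1]
    congr 2
    refine Finset.prod_congr rfl fun s hs => ?_
    have hs := Finset.mem_range.1 hs
    rw [so]
    · intro h
      rcases dvd_cases h with h | h | h <;> push_cast at h <;> omega
    · intro h
      rcases dvd_cases h with h | h | h <;> push_cast at h <;> omega
  · congr 1
    funext x
    have := phi_not (L := L) (by omega) (-1) x
    exact so _ this.1 (by simpa using this.2)

/-- Stationarity. -/
theorem stat (hL : 2 ≤ L) : Stat (fun P : Pat L => Ψ L P (fun _ => 1)) := by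
  classical
  intro Q
  set v : Pat L → ℂ := fun P : Pat L => Ψ L P (fun _ => 1) with hv
  set Q' := unrot Q with hQ'
  have hrot : rot Q' = Q := (rotEquiv L).right_inv Q
  have hvQ : v Q = v Q' := by
    rw [← hrot]
    exact hΨ.rot L Q' (fun _ => 1) (fun _ => rfl)
  have hrow : ∀ (t : Fin L → Bool) (P : Pat L), row (bits t) P = Q ↔
      E (-1) (wires (bits t) L (ins 0 P)) = ins (-1) Q' := by
    intro t P
    set X := wires (bits t) L (ins 0 P) with hX
    have hex : ∃ R : Pat L, E (-1) X = ins (-1) R :=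
      exists_ins hL (-1) (E (-1) X) (E.self X (-1))
    have hcap : E (-1) X = ins (-1) (cap (-1) X P) := by
      unfold cap
      rw [dif_pos hex]
      exact hex.choose_spec
    rw [hcap]
    unfold row
    rw [← hX]
    constructor
    · intro h
      rw [← hrot] at h
      have : cap (-1) X P = Q' := (rotEquiv L).injective h
      rw [this]
    · intro h
      rw [ins_injective (-1) h, hrot]
  have h1 : (∑ t : Fin L → Bool, pushRow t v Q) = eop (-1) (U v L) (ins (-1) Q') := by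
    rw [eop_U]
    refine Finset.sum_congr rfl fun t _ => ?_
    unfold pushRow
    refine Finset.sum_congr rfl fun P _ => ?_
    by_cases h : row (bits t) P = Q
    · rw [if_pos h, if_pos ((hrow t P).1 h)]
    · rw [if_neg h, if_neg (fun h' => h ((hrow t P).2 h'))]
  have h2 : gg0 L * eop (-1) (U v L) (ins (-1) Q') =
      2 ^ L * eop (-1) (fun P' => Ψ (L + 2) P' (par (L + 2) (sk L))) (ins (-1) Q') := by
    unfold eop
    rw [Finset.mul_sum, Finset.mul_sum]
    refine Finset.sum_congr rfl fun P' _ => ?_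
    by_cases h : E (-1) P' = ins (-1) Q'
    · rw [if_pos h, if_pos h, U_eq hΨ hL L le_rfl P']
    · rw [if_neg h, if_neg h]; ring
  rw [cap_psi hΨ hL Q'] at h2
  rw [h1, hvQ]
  apply mul_left_cancel₀ (gg0_ne L)
  rw [h2]
  show 2 ^ L * (gg0 L * v Q') = gg0 L * (2 ^ L * v Q')
  ring

end psi

end H56.EX

end

section

/-!
# Small tori
-/

open MeasureTheory ProbabilityTheory unitInterval

namespace Pool.Agent.H26.ST

open Pool.Agent.H89.Perc Pool.Agent.H61.NC

/-- The explicit configuration (the edge `(0, 0, d)` is closed). -/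
private def smB (d : Bool) : Config := fun e =>
  decide ((e.2.2 = false ∧ e.2.1 = 0 ∧ e.1 ≠ 0) ∨
    (d = true ∧ (e = (1, 0, true) ∨ e = (0, 1, false))))

/-- The sheet of a vertex. -/
private def smI (N : ℕ) (v : Vert) : ℤ := if v.2 % N = 0 then (v.1 - 1) / N else v.1 / N

private theorem smI_shift {N : ℕ} (hN : 2 ≤ N) (v : Vert) (a b : ℤ) :
    smI N (v.1 + a * N, v.2 + b * N) = smI N v + a := by
  have hN' : (N : ℤ) ≠ 0 := by omega
  unfold smI
  simp only [Int.add_mul_emod_self_right]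
  split_ifs
  · rw [show v.1 + a * N - 1 = v.1 - 1 + a * N by ring, Int.add_mul_ediv_right _ _ hN']
  · rw [Int.add_mul_ediv_right _ _ hN']

private theorem div_eq {N x : ℤ} (hN : 0 < N) (h : (x + 1) % N ≠ 0) : x / N = (x + 1) / N := by
  have h1 := Int.emod_add_mul_ediv (x + 1) N
  have h2 := Int.emod_nonneg (x + 1) hN.ne'
  have h3 := Int.emod_lt_of_pos (x + 1) hN
  exact ((Int.ediv_emod_unique (r := (x + 1) % N - 1) hN).2
    ⟨by linarith only [h1], by omega, by omega⟩).1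

private theorem smB_step {N : ℕ} (hN : 2 ≤ N) {d : Bool} {e : Edge}
    (he : per N (smB d) e = true) : smI N (src e) = smI N (tgt e) := by
  have hN0 : (0 : ℤ) < N := by omega
  have hN2 : (2 : ℤ) ≤ N := by omega
  obtain ⟨x, y, t⟩ := e
  simp only [per, smB, decide_eq_true_eq] at he
  rcases he with ⟨h1, h2, h3⟩ | ⟨-, h | h⟩
  · subst h1
    simp only [smI, src, tgt, h2, if_true, Bool.false_eq_true, if_false]
    have := div_eq (x := x - 1) hN0 (by rwa [sub_add_cancel])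
    rw [this]
    congr 1
    ring
  · simp only [Prod.mk.injEq] at h
    obtain ⟨h1, h2, h3⟩ := h
    subst h3
    have h4 : (y + 1) % (N : ℤ) ≠ 0 := by
      rw [Int.add_emod, h2, zero_add, Int.emod_emod_of_dvd _ (dvd_refl _),
        Int.emod_eq_of_lt (by norm_num) (by omega)]
      norm_num
    simp only [smI, src, tgt, h2, if_true, h4, if_false]
    have := div_eq (x := x - 1) hN0 (by rw [sub_add_cancel, h1]; norm_num)
    rw [this, sub_add_cancel]
  · simp only [Prod.mk.injEq] at h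
    obtain ⟨h1, h2, h3⟩ := h
    subst h3
    simp only [smI, src, tgt, Bool.false_eq_true, if_false, h2, one_ne_zero]
    refine div_eq (x := x) hN0 ?_
    rw [Int.add_emod, h1, zero_add, Int.emod_emod_of_dvd _ (dvd_refl _),
      Int.emod_eq_of_lt (by norm_num) (by omega)]
    norm_num

private theorem smB_not {N : ℕ} (hN : 2 ≤ N) (d : Bool) : smB d ∉ Wind N := by
  rintro ⟨u, a, b, ha, hc⟩
  have key : ∀ v, Conn (per N (smB d)) Set.univ u v → smI N u = smI N v := by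
    intro v hv
    refine hv.induction_right (P := fun v => smI N u = smI N v) rfl ?_
    rintro x y _ ⟨-, -, e, hj, ho⟩ ih
    rw [ih]
    have := smB_step hN ho
    rcases hj with ⟨h1, h2⟩ | ⟨h1, h2⟩
    · rw [h1, h2]
      exact this
    · rw [h1, h2]
      exact this.symm
  have h1 := key _ hc
  rw [smI_shift hN] at h1
  omega

private theorem smB_line {N : ℕ} {d : Bool} {ω : Config}
    (hω : ∀ e, smB d e = true → ω e = true) (j : ℕ) (h1 : 1 ≤ j) (h2 : j ≤ N) :
    Conn (per N ω) Set.univ ((1 : ℤ), (0 : ℤ)) ((j : ℤ), (0 : ℤ)) := by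
  induction j, h1 using Nat.le_induction with
  | base => exact Conn.refl trivial
  | succ j hj ih =>
    refine (ih (by omega)).tail ⟨trivial, trivial, ((j : ℤ), 0, false), Or.inl ⟨rfl, ?_⟩, hω _ ?_⟩
    · simp [tgt]
    · simp only [smB, decide_eq_true_eq, Int.zero_emod]
      left
      refine ⟨trivial, trivial, ?_⟩
      rw [Int.emod_eq_of_lt (by omega) (by omega)]
      omega

private theorem smB_wind {N : ℕ} (hN : 2 ≤ N) (d : Bool) :
    Function.update (smB d) (0, 0, d) true ∈ Wind N := by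
  obtain ⟨ω, hω⟩ : ∃ ω : Config, ω = Function.update (smB d) (0, 0, d) true := ⟨_, rfl⟩
  rw [← hω]
  have hle : ∀ e, smB d e = true → ω e = true := by
    intro e he
    rw [hω, Function.update_apply]
    split_ifs
    · rfl
    · exact he
  have h0 : per N ω (0, 0, d) = true := by
    simp only [per, Int.zero_emod]
    rw [hω, Function.update_self]
  have hmod : (1 : ℤ) % N = 1 := Int.emod_eq_of_lt (by norm_num) (by omega)
  have k1 := smB_line (N := N) hle N (by omega) le_rfl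
  refine ⟨(0, 0), 1, 0, one_ne_zero, ?_⟩
  have e1 : ((((0 : ℤ), (0 : ℤ)) : Vert).1 + 1 * (N : ℤ), (((0 : ℤ), (0 : ℤ)) : Vert).2 +
      0 * (N : ℤ)) = ((N : ℤ), (0 : ℤ)) := by
    simp
  rw [e1]
  refine Conn.trans ?_ k1
  cases d
  · exact Step.conn ⟨trivial, trivial, (0, 0, false), Or.inl ⟨rfl, rfl⟩, h0⟩
  · have c1 : Conn (per N ω) Set.univ ((0 : ℤ), (0 : ℤ)) ((0 : ℤ), (1 : ℤ)) :=
      Step.conn ⟨trivial, trivial, (0, 0, true), Or.inl ⟨rfl, rfl⟩, h0⟩
    have c2 : Conn (per N ω) Set.univ ((0 : ℤ), (1 : ℤ)) ((1 : ℤ), (1 : ℤ)) := by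
      refine Step.conn ⟨trivial, trivial, (0, 1, false), Or.inl ⟨rfl, rfl⟩, hle _ ?_⟩
      simp [smB, hmod]
    have c3 : Conn (per N ω) Set.univ ((1 : ℤ), (1 : ℤ)) ((1 : ℤ), (0 : ℤ)) := by
      refine Step.conn ⟨trivial, trivial, (1, 0, true), Or.inr ⟨rfl, rfl⟩, hle _ ?_⟩
      simp [smB, hmod]
    exact (c1.trans c2).trans c3

private theorem smB_closed (d : Bool) : Function.update (smB d) (0, 0, d) false = smB d := by
  refine Function.update_eq_self_iff.2 ?_
  cases d <;> simp [smB]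

private theorem pivot_ge {N : ℕ} (hN : 2 ≤ N) (q : I) (d : Bool) {t : ℝ} (ht : 0 ≤ t)
    (h1 : t ≤ (q : ℝ)) (h2 : (q : ℝ) ≤ 1 - t) :
    t ^ (tEdges N).card ≤ pivot q (Wind N) (0, 0, d) := by
  have hloc : LocalOn (tEdges N) {ω : Config | ∀ e ∈ tEdges N, ω e = smB d e} := by
    intro ω ω' h hω e he
    rw [← h e he]
    exact hω e he
  have hE := Pool.Agent.H29.Sep.a4Low_cyl q ht h1 h2 (smB d) (tEdges N)
  have hup : ∀ (ω : Config) (b : Bool), (∀ e ∈ tEdges N, ω e = smB d e) → ∀ e ∈ tEdges N,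
      Function.update ω (0, 0, d) b e = Function.update (smB d) (0, 0, d) b e := by
    intro ω b h e he
    rw [Function.update_apply, Function.update_apply]
    split_ifs
    · rfl
    · exact h e he
  have hW := localOn_wind (N := N) (by omega)
  have hsub1 : {ω : Config | Function.update ω (0, 0, d) false ∈ Wind N} ∪
      {ω : Config | ∀ e ∈ tEdges N, ω e = smB d e} ⊆
      {ω | Function.update ω (0, 0, d) true ∈ Wind N} := by
    rintro ω (h | h)
    · refine incr_wind N _ _ (fun e he => ?_) h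
      rw [Function.update_apply] at he ⊢
      split_ifs at he ⊢
      exact he
    · exact hW _ _ (fun e he => (hup ω true h e he).symm) (smB_wind hN d)
  have hdisj : Disjoint {ω : Config | Function.update ω (0, 0, d) false ∈ Wind N}
      {ω : Config | ∀ e ∈ tEdges N, ω e = smB d e} := by
    rw [Set.disjoint_left]
    intro ω h h'
    have := hW _ _ (fun e he => hup ω false h' e he) h
    rw [smB_closed] at this
    exact smB_not hN d this
  have h3 : Pr q ({ω : Config | Function.update ω (0, 0, d) false ∈ Wind N} ∪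
      {ω : Config | ∀ e ∈ tEdges N, ω e = smB d e}) =
      Pr q {ω : Config | Function.update ω (0, 0, d) false ∈ Wind N} +
        Pr q {ω : Config | ∀ e ∈ tEdges N, ω e = smB d e} :=
    measureReal_union hdisj hloc.measurableSet
  have h4 := Pr_mono (p := q) hsub1
  rw [h3] at h4
  unfold pivot
  linarith only [hE, h4]

/-- Small tori: finite energy. -/
theorem sT_small (c : ℝ) (hc : 0 < c) (N₀ : ℕ) : ∃ c' : ℝ, 0 < c' ∧ ∀ (N : ℕ) (q : I) (d : Bool),
    2 ≤ N → N ≤ N₀ → RSWreg c N q → c' ≤ sT q N d := by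
  refine ⟨(min (c / 16) 1) ^ (N₀ * (N₀ * 2)), by positivity, ?_⟩
  intro N q d hN hN0 hreg
  obtain ⟨h1, h2⟩ := Pool.Agent.H29.Sep.rswreg_density (by omega : 1 ≤ N) hreg
  set t : ℝ := min (c / 16) 1 with ht
  have ht0 : 0 < t := by positivity
  have ht1 : t ≤ 1 := min_le_right _ _
  have ht2 : t ≤ c / 16 := min_le_left _ _
  have hcard : (tEdges N).card ≤ N₀ * (N₀ * 2) := by
    have : (tEdges N).card = N * (N * 2) := by
      simp [tEdges]
    rw [this]
    exact Nat.mul_le_mul hN0 (Nat.mul_le_mul_right 2 hN0)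
  have h3 := pivot_ge hN q d ht0.le (ht2.trans h1) (by linarith only [h2, ht2])
  have h4 : t ^ (N₀ * (N₀ * 2)) ≤ t ^ (tEdges N).card := pow_le_pow_of_le_one ht0.le ht1 hcard
  refine (h4.trans h3).trans (le_of_eq ?_)
  unfold sT ctr
  have hmid : (0 : ℤ) ≤ mid N ∧ mid N < N := by
    unfold mid
    omega
  refine pivot_wind (by omega) q ?_ ?_ rfl
  · simp [tEdges]
    omega
  · simp [tEdges]
    omega

end Pool.Agent.H26.ST

end
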