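import Pool.Agent.H94.BG.H31.PT.M32_4
import Pool.Agent.H94.BG.H31.PT.M36_1
import Pool.Agent.H94.BG.M10

/-! The parts of this file: H83.EX.WindNear, H31.EX.Scaling, H47.EX.CylGeo, H47.EX.SepD, H89.Link.Fc, H89.Link.Fc2, H89.Link.CylArm, H56.EX.TMx, H56.EX.Alg, H26.ST.Piv. -/

section

/-! # The winding probability above the characteristic length -/

open MeasureTheory ProbabilityTheory unitInterval

namespace Pool.Agent.H83.EX

open Pool.Agent.H89.Perc

end Pool.Agent.H83.EX

end

section

/-!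
# Exponents of bond percolation on the square lattice from the scaling relations

`L p` is a characteristic length.  From `(p - 1/2) (L p) ^ (s + o(1)) ≍ 1`,
`θ(p) ≍ π₁(L p)`, `σ(1 - p) ≍ (L p)² π₁(L p)²` and `π₁(n) = n ^ (-a + o(1))` we obtain
`β = a / s` and `γ = (2 - 2 a) / s`.
-/

open MeasureTheory ProbabilityTheory unitInterval
open scoped ENNReal

namespace Pool.Agent.H31.EX

open Pool.Agent.H89.Perc

end Pool.Agent.H31.EX

end

section

/-!
# Geometry of the corridors on the cylinder

`n ≥ 256 k`.  The corridor of `x` goes from the east mouth of the box around `0` to the right and then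
down to the east mouth of the copy of the box at `(n, -n)`; the corridor of `y` is its image under
`v ↦ -v`.
-/

set_option autoImplicit false

open MeasureTheory ProbabilityTheory unitInterval

namespace Pool.Agent.H47.EX

open Pool.Agent.H89.Perc hiding per
open Pool.Agent.H59.EX
open Pool.Agent.H89.Link (per base per_eq)

/-! ### Periods -/

/-! ### The window -/

/-! ### The corridors -/

variable {n k : ℕ}

end Pool.Agent.H47.EX

end

section

/-!
# The separated event of the diagonal source is not empty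
-/

set_option autoImplicit false

open MeasureTheory ProbabilityTheory unitInterval

namespace Pool.Agent.H47.EX

open Pool.Agent.H89.Perc
open Pool.Agent.H59.EX
open Pool.Agent.H89.Link (xx yy)

variable {k : ℕ}

end Pool.Agent.H47.EX

end

section

/-!
# LINK module `Fc`: the event `Fc` implies the four-leg event

`η = per n ω`, `Conn η univ` is an equivalence relation; it is invariant under the translation by `(n, -n)`.
Clusters `C_k` = cluster of `y + k (n, -n)`; `y` is joined to `(n, -n) = x + (n, -n)`, so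
`C_k` = cluster of `x + (k+1) (n, -n)`.
(1) `C_i ≠ C_j` for `i ≠ j`: by translation take `i = 0`; `j = -1`: `C_{-1}` = cluster of `x` (not joined to `y`);
`j = 1`: by translation; `|j| ≥ 2`: `y + j (n, -n)` has `v.1 - v.2 = 2 + 2 n j`, which is not in `(-n, 3n)`.
(2) Primal colours: `F v` = cluster of `v` (type `Set Vert`, `F v = {u | Conn η univ v u}`), constant along open edges,
so `F (pv c)` is invariant under the steps of the composite graph (for `inl c` and `inr c`).
The home columns are `c = L a` (`pv c = x + a (n, -n)`) and `c = L a + 1` (`pv c = y + a (n, -n)`).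
(3) Dual colours: path sum `c` of the path from `y` to `(n, -n)` in the strip, plus the edges `(0, 0, false)` and
`(1, -1, true)` shifted by `(n, -n)`, (so that it becomes a path sum from `y` to `y + (n, -n)`), periodised by
`exists_perSum`: `A`, all degrees even, supported in the strip `H` (`H ≥ 2` because `n ≥ 2`), and open edges
except the gates `(0, 0, false) + k (n, -n)`, `(1, -1, true) + k (n, -n)`.  `G' = pot A H` (periodic).
`Gu f = G' f + 1` if `f = q + k (n, -n)` for some `k` (`q = (0, -1)`), else `G' f`; `Gd = G'`.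
For closed `e` in rows `≥ 0`: `Gu (lowFace e) = Gu (src e)` (the edges of rows `≥ 0` around `q` are the gates); for
closed `e` in rows `< 0`: `Gd (lowFace e) = Gd (src e)`.  `Gu = 0` on level `h ≥ H`, `Gd` constant on level `-h`.
So `inl c ↦ Gu (dv c)`, `inr c ↦ Gd (dv c)` is invariant under the steps (for `c` not home `dv c` is not a translate of
`q`); all `inl` home nodes have colour `G' q + 1` and all `inr` home nodes have colour `G' q`.
(4) `Leg`: if `hpos u a` and `hpos v b` are connected then `u`, `v` are both `inl` or both `inr` by (3), and by (1), (2)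
`a - 1 = b - 1` (`u = v` = strand 0), `a = b` (`u = v` = strand 1), or `a - 1 = b`, or `a = b - 1`.
-/

set_option autoImplicit false

namespace H56.EX

end H56.EX

namespace Pool.Agent.H89.Link

open H56.EX
open Pool.Agent.H89.Perc (Vert Edge Config src tgt lowFace vsum)

variable {L n : ℕ}

end Pool.Agent.H89.Link

end

section

/-!
# LINK module `Fc2`: two disjoint winding clusters at the pair `x`, `y` imply the four-leg event

`Fc2 n H`: `x` is joined to `x + (n, -n)` and `y` to `y + (n, -n)` in the strip, and `x` is not joined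
to `y`.  `leg_of_wind`: `per n ω ∈ Fc2 n H` implies `Leg 2 2 (L - 2) (up s n h ω) (dn s n h ω)`.
-/

set_option autoImplicit false

open MeasureTheory ProbabilityTheory Filter Topology

namespace H56.EX

end H56.EX

namespace Pool.Agent.H89.Link

open H56.EX
open Pool.Agent.H89.Perc (Vert Edge Config Pr half src tgt lowFace vsum)

variable {L n : ℕ}

theorem leg_of_wind (hL : L = 2 * n) (hn : 1 ≤ n) {s : Pat L} (hs : IsStar s) {h H : ℕ}
    (he : Even h) (hH : H ≤ h) (ω : Config) (hf : per n ω ∈ Fc2 n H) :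
    Leg 2 2 (L - 2) (up s n h ω) (dn s n h ω) := by
  classical
  set η := per n ω with hη
  obtain ⟨hf1, hf2, hf3⟩ := hf
  have hx1 : Perc.Conn η (strip H) ((0 : ℤ), -(0 : ℤ)) (sh n 1 ((0 : ℤ), -(0 : ℤ))) := by
    have : sh n 1 ((0 : ℤ), -(0 : ℤ)) = ((n : ℤ), -(n : ℤ)) := by
      unfold sh; ext <;> simp
    rw [this]
    exact hf1
  have hy1 : Perc.Conn η (strip H) ((1 : ℤ), -(1 : ℤ)) (sh n 1 ((1 : ℤ), -(1 : ℤ))) := by
    have : sh n 1 ((1 : ℤ), -(1 : ℤ)) = ((n : ℤ) + 1, -(n : ℤ) - 1) := by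
      unfold sh; ext
      · simp only; ring
      · simp only; ring
    rw [this]
    exact hf2
  obtain ⟨cx, cxf, cxs, cxv, cxc, cxk⟩ := wind_data 0 hx1
  obtain ⟨cy, cyf, cys, cyv, cyc, cyk⟩ := wind_data 1 hy1
  have hxx : ((0 : ℤ), -(0 : ℤ)) = xx := rfl
  have hyy : ((1 : ℤ), -(1 : ℤ)) = yy := rfl
  rw [hxx] at cxk
  rw [hyy] at cyk
  -- `H ≥ 2`
  have hH2 : 2 ≤ H := by
    by_contra hlt
    have hne : ∃ e, cx e ≠ 0 := by
      by_contra h0
      push Not at h0
      have h1 := cxv ((0 : ℤ), -(0 : ℤ))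
      rw [if_pos rfl, if_neg] at h1
      · unfold vsum at h1
        simp only [h0] at h1
        exact absurd h1 (by decide)
      · intro h2
        have h3 := congrArg Prod.fst h2
        simp only [sh] at h3
        omega
    obtain ⟨e, he1⟩ := hne
    have := cxs e he1
    omega
  -- full periodic potentials
  set Gx := pot (perS n cx) H with hGx
  set Gy := pot (perS n cy) H with hGy
  have hpx : ∀ e, Gx (lowFace e) + Gx (src e) = perS n cx e :=
    pot_even (perS_strip cxs) (perS_vsum_path hn cxf cxv)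
  have hpy : ∀ e, Gy (lowFace e) + Gy (src e) = perS n cy e :=
    pot_even (perS_strip cys) (perS_vsum_path hn cyf cyv)
  have hAy : ∀ e, perS n cy e ≠ 0 → ¬ Perc.Conn η Set.univ xx (src e) ∧
      ¬ Perc.Conn η Set.univ xx (tgt e) := by
    intro e h1
    obtain ⟨h2, h3⟩ := cyk e h1
    exact ⟨fun h4 => hf3 (h4.trans h2.symm), fun h4 => hf3 (h4.trans h3.symm)⟩
  have hAx : ∀ e, perS n cx e ≠ 0 → ¬ Perc.Conn η Set.univ yy (src e) ∧
      ¬ Perc.Conn η Set.univ yy (tgt e) := by
    intro e h1
    obtain ⟨h2, h3⟩ := cxk e h1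
    exact ⟨fun h4 => hf3 (h2.trans h4.symm), fun h4 => hf3 (h3.trans h4.symm)⟩
  -- values at `q`
  have hgx : Gx (0, -1) = Gx yy :=
    (pot_cluster (η := η) hpx (K := fun v => Perc.Conn η Set.univ yy v) hAx
      (Perc.Conn.refl trivial : Perc.Conn η Set.univ yy yy)).2.1
  have hgy : Gy (0, -1) = Gy xx :=
    (pot_cluster (η := η) hpy (K := fun v => Perc.Conn η Set.univ xx v) hAy
      (Perc.Conn.refl trivial : Perc.Conn η Set.univ xx xx)).1
  have hsum : Gx (0, -1) + Gy (0, -1) = 1 := by
    by_contra hne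
    have hgg : Gx yy = Gy xx := by
      rw [hgx, hgy] at hne
      by_contra h2
      exact hne (Perc.z2_add_eq_one.2 h2)
    set g := Gx yy with hg
    have hR : ∀ j : ℤ, (Gx (0, j - 1) = 1 + g ∧ Gy (0, j - 1) = 1 + g) ↔
        (Gx (0, j) = 1 + g ∧ Gy (0, j) = 1 + g) := by
      intro j
      have e1 : Gx (0, j - 1) + Gx (0, j) = perS n cx (0, j, false) := hpx (0, j, false)
      have e2 : Gy (0, j - 1) + Gy (0, j) = perS n cy (0, j, false) := hpy (0, j, false)
      have hg1 : g ≠ 1 + g := by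
        intro h1
        have h2 : (1 : ZMod 2) = 0 := by linear_combination -h1
        exact absurd h2 (by decide)
      -- if the edge is in the x path, then Gy takes the value g on both sides
      have f1 : perS n cx (0, j, false) ≠ 0 → Gy (0, j - 1) = g ∧ Gy (0, j) = g := by
        intro h1
        have h2 : Perc.Conn η Set.univ xx (0, j) := (cxk _ h1).1
        have h3 := pot_cluster_const hpy hAy h2
        have h4 := (pot_cluster (η := η) hpy (K := fun v => Perc.Conn η Set.univ xx v) hAy h2).1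
        rw [h3, ← hgg] at h4
        rw [← hgg] at h3
        exact ⟨h4, h3⟩
      have f2 : perS n cy (0, j, false) ≠ 0 → Gx (0, j - 1) = g ∧ Gx (0, j) = g := by
        intro h1
        have h2 : Perc.Conn η Set.univ yy (0, j) := (cyk _ h1).1
        have h3 := pot_cluster_const hpx hAx h2
        have h4 := (pot_cluster (η := η) hpx (K := fun v => Perc.Conn η Set.univ yy v) hAx h2).1
        rw [h3] at h4
        exact ⟨h4, h3⟩
      constructor
      · rintro ⟨h1, h2⟩
        have h3 : perS n cx (0, j, false) = 0 := by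
          by_contra h4
          exact hg1 ((f1 h4).1.symm.trans h2)
        have h5 : perS n cy (0, j, false) = 0 := by
          by_contra h4
          exact hg1 ((f2 h4).1.symm.trans h1)
        rw [h3] at e1
        rw [h5] at e2
        rw [← Perc.z2_add_eq_zero.1 e1, ← Perc.z2_add_eq_zero.1 e2]
        exact ⟨h1, h2⟩
      · rintro ⟨h1, h2⟩
        have h3 : perS n cx (0, j, false) = 0 := by
          by_contra h4
          exact hg1 ((f1 h4).2.symm.trans h2)
        have h5 : perS n cy (0, j, false) = 0 := by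
          by_contra h4
          exact hg1 ((f2 h4).2.symm.trans h1)
        rw [h3] at e1
        rw [h5] at e2
        rw [Perc.z2_add_eq_zero.1 e1, Perc.z2_add_eq_zero.1 e2]
        exact ⟨h1, h2⟩
    have hRall : ∀ k : ℕ, (Gx (0, -(H : ℤ) - 1) = 1 + g ∧ Gy (0, -(H : ℤ) - 1) = 1 + g) ↔
        (Gx (0, -(H : ℤ) - 1 + k) = 1 + g ∧ Gy (0, -(H : ℤ) - 1 + k) = 1 + g) := by
      intro k
      induction k with
      | zero => simp
      | succ k ih =>
        rw [ih]
        have := hR (-(H : ℤ) - 1 + (k + 1))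
        rw [show -(H : ℤ) - 1 + (k + 1) - 1 = -(H : ℤ) - 1 + k by ring] at this
        push_cast
        exact this
    have hfin := hRall (2 * H + 1)
    have hb1 : Gx (0, -(H : ℤ) - 1) = 1 := bottom_one hn cxf cxs 0 cxv _ (by simp only; ring)
    have hb2 : Gy (0, -(H : ℤ) - 1) = 1 := bottom_one hn cyf cys 1 cyv _ (by simp only; ring)
    have ht1 : Gx (0, -(H : ℤ) - 1 + ((2 * H + 1 : ℕ) : ℤ)) = 0 := by
      rw [hGx]
      apply pot_top
      simp only
      push_cast
      linarith only
    have ht2 : Gy (0, -(H : ℤ) - 1 + ((2 * H + 1 : ℕ) : ℤ)) = 0 := by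
      rw [hGy]
      apply pot_top
      simp only
      push_cast
      linarith only
    rw [hb1, hb2, ht1, ht2] at hfin
    rcases (show g = 0 ∨ g = 1 by
      by_cases h0 : g = 0
      · exact Or.inl h0
      · exact Or.inr (Perc.z2_one_of_ne h0)) with h0 | h0
    · rw [h0] at hfin
      exact absurd (hfin.1 ⟨by decide, by decide⟩).1 (by decide)
    · rw [h0] at hfin
      exact absurd (hfin.2 ⟨by decide, by decide⟩).1 (by decide)
  -- the half infinite path and its potential
  set g1 : Edge := (0, 0, false) with hg1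
  set g2 : Edge := (1, -1, true) with hg2
  set A : Edge → ZMod 2 := fun e => ((halfS n cx e + halfS n cy e) + Perc.one g1 e) +
    Perc.one g2 e with hA
  have hAv : ∀ V, vsum A V = 0 := by
    intro V
    rw [hA, Perc.vsum_add, Perc.vsum_add, Perc.vsum_add, halfS_vsum_path hn cxf cxv,
      halfS_vsum_path hn cyf cyv, Perc.vsum_one, Perc.vsum_one]
    have e1 : src g1 = ((0 : ℤ), -(0 : ℤ)) := rfl
    have e2 : tgt g1 = ((1 : ℤ), (0 : ℤ)) := rfl
    have e3 : src g2 = ((1 : ℤ), -(1 : ℤ)) := rfl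
    have e4 : tgt g2 = ((1 : ℤ), (0 : ℤ)) := rfl
    rw [e1, e2, e3, e4]
    have z1 := Perc.z2_add_self (if V = ((0 : ℤ), -(0 : ℤ)) then (1 : ZMod 2) else 0)
    have z2 := Perc.z2_add_self (if V = ((1 : ℤ), (0 : ℤ)) then (1 : ZMod 2) else 0)
    have z3 := Perc.z2_add_self (if V = ((1 : ℤ), -(1 : ℤ)) then (1 : ZMod 2) else 0)
    linear_combination z1 + z2 + z3
  have hAstrip : ∀ e : Edge, ¬ (-(H : ℤ) < e.1 + e.2.1 ∧ e.1 + e.2.1 + 1 < H) → A e = 0 := by
    intro e h1
    rw [hA]
    simp only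
    rw [halfS_strip cxs e h1, halfS_strip cys e h1]
    have h2 : Perc.one g1 e = 0 := by
      unfold Perc.one
      rw [if_neg]
      rintro rfl
      rw [hg1] at h1
      simp only at h1
      omega
    have h3 : Perc.one g2 e = 0 := by
      unfold Perc.one
      rw [if_neg]
      rintro rfl
      rw [hg2] at h1
      simp only at h1
      omega
    rw [h2, h3]
    simp
  have hAclosed : ∀ e, η e = false → A e = Perc.one g1 e + Perc.one g2 e := by
    intro e h1
    rw [hA]
    simp only
    rw [halfS_eq_zero (fun k => cxc e h1 _), halfS_eq_zero (fun k => cyc e h1 _)]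
    ring
  have hpA := pot_even hAstrip hAv
  set P := pot A H with hP
  set Pu : Vert → ZMod 2 := fun f => P f + if f = (0, -1) then 1 else 0 with hPu
  have hu : ∀ e : Edge, 0 ≤ e.1 + e.2.1 → η e = false → Pu (lowFace e) = Pu (src e) := by
    intro e h1 h2
    have h3 := hpA e
    rw [hAclosed e h2] at h3
    have hsrc : src e ≠ (0, -1) := by
      intro h4
      have h5 : e.1 = 0 := congrArg Prod.fst h4
      have h6 : e.2.1 = -1 := congrArg Prod.snd h4
      omega
    have hlow : (Perc.one g1 e + Perc.one g2 e : ZMod 2) = if lowFace e = (0, -1) then 1 else 0 := by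
      obtain ⟨a, b, t⟩ := e
      rcases t with _ | _
      · have h4 : lowFace (a, b, false) = (a, b - 1) := rfl
        have h5 : Perc.one g2 (a, b, false) = 0 := by
          unfold Perc.one
          rw [if_neg]
          intro h6
          have h7 : false = true := congrArg (fun x : Edge => x.2.2) h6
          exact absurd h7 (by decide)
        rw [h4, h5, add_zero]
        unfold Perc.one
        by_cases h6 : (a, b, false) = g1
        · have h7 : a = 0 := congrArg Prod.fst h6
          have h8 : b = 0 := congrArg (fun x : Edge => x.2.1) h6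
          rw [if_pos h6, if_pos (by rw [h7, h8]; rfl)]
        · rw [if_neg h6, if_neg]
          intro h7
          apply h6
          have h8 : a = 0 := congrArg Prod.fst h7
          have h9 : b - 1 = -1 := congrArg Prod.snd h7
          have h10 : b = 0 := by omega
          rw [h8, h10]
      · have h4 : lowFace (a, b, true) = (a - 1, b) := rfl
        have h5 : Perc.one g1 (a, b, true) = 0 := by
          unfold Perc.one
          rw [if_neg]
          intro h6
          have h7 : true = false := congrArg (fun x : Edge => x.2.2) h6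
          exact absurd h7 (by decide)
        rw [h4, h5, zero_add]
        unfold Perc.one
        by_cases h6 : (a, b, true) = g2
        · have h7 : a = 1 := congrArg Prod.fst h6
          have h8 : b = -1 := congrArg (fun x : Edge => x.2.1) h6
          rw [if_pos h6, if_pos (by rw [h7, h8]; rfl)]
        · rw [if_neg h6, if_neg]
          intro h7
          apply h6
          have h8 : a - 1 = 0 := congrArg Prod.fst h7
          have h9 : b = -1 := congrArg Prod.snd h7
          have h10 : a = 1 := by omega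
          rw [h9, h10]
    rw [hPu]
    simp only
    rw [if_neg hsrc, add_zero]
    rw [hlow] at h3
    by_cases hq : lowFace e = (0, -1)
    · rw [if_pos hq] at h3 ⊢
      have z1 := Perc.z2_add_self (1 : ZMod 2)
      have z2 := Perc.z2_add_self (P (src e))
      linear_combination h3 + z1 - z2
    · rw [if_neg hq] at h3 ⊢
      rw [add_zero]
      exact Perc.z2_add_eq_zero.1 h3
  have hd : ∀ e : Edge, e.1 + e.2.1 < 0 → η e = false → P (lowFace e) = P (src e) := by
    intro e h1 h2
    have h3 := hpA e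
    rw [hAclosed e h2] at h3
    have h4 : Perc.one g1 e = 0 := by
      unfold Perc.one
      rw [if_neg]
      rintro rfl
      rw [hg1] at h1
      simp only at h1
      omega
    have h5 : Perc.one g2 e = 0 := by
      unfold Perc.one
      rw [if_neg]
      rintro rfl
      rw [hg2] at h1
      simp only at h1
      omega
    rw [h4, h5, add_zero] at h3
    exact Perc.z2_add_eq_zero.1 h3
  have hupD := up_dual hL hs he ω (G := Pu) (fun e h1 _ h2 => hu e h1 h2) 0 (by
    intro f hf4
    rw [hPu]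
    simp only
    rw [hP, pot_top A H (by omega), if_neg, add_zero]
    intro h4
    have h5 : f.1 = 0 := congrArg Prod.fst h4
    have h6 : f.2 = -1 := congrArg Prod.snd h4
    omega)
  have hdnD := dn_dual hL hs he ω (G := P) (fun e _ h1 h2 => hd e h1 h2) (P (0, -(h : ℤ) - 1))
    (bot_const h (by
      intro e h1
      have h3 := hpA e
      rw [hAstrip e (by omega)] at h3
      exact Perc.z2_add_eq_zero.1 h3))
  -- primal colours
  set F : Vert → Set Vert := fun v => {u | Perc.Conn η Set.univ v u} with hF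
  have hFc : ∀ e : Edge, η e = true → F (src e) = F (tgt e) := by
    intro e ho
    have hst : Perc.Conn η Set.univ (src e) (tgt e) :=
      Perc.Step.conn ⟨trivial, trivial, e, Perc.joins_src_tgt e, ho⟩
    ext u
    exact ⟨fun h1 => hst.symm.trans h1, fun h1 => hst.trans h1⟩
  have hupP := up_primal hL hs he ω (F := F) (fun e _ _ ho => hFc e ho)
  have hdnP := dn_primal hL hs he ω (F := F) (fun e _ _ ho => hFc e ho)
  have hFeq : ∀ v w, F v = F w → Perc.Conn η Set.univ v w := by
    intro v w hvw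
    have : w ∈ F w := Perc.Conn.refl trivial
    rw [← hvw] at this
    exact this
  -- colours of the nodes, translated by `k` periods
  set col : ℤ → ℤ ⊕ ℤ → ZMod 2 := fun k => Sum.elim (fun x => Pu (dv (x - L * k)))
    (fun y => P (dv (y - L * k))) with hcol
  set prim : ℤ ⊕ ℤ → Set Vert := Sum.elim (fun x => F (pv x)) (fun y => F (pv y)) with hprim
  have hshiftm : ∀ (Q : Pat L) (x k : ℤ), Q.m x - L * k = Q.m (x - L * k) := by
    intro Q x k
    have := Q.per_mul (x - L * k) k
    rw [sub_add_cancel] at this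
    linarith only [this]
  have hcolS : ∀ k x y, Step 2 2 (L - 2) (up s n h ω) (dn s n h ω) x y → col k x = col k y := by
    intro k x y hxy1
    cases hxy1 with
    | top x =>
      show Pu (dv (x - L * k)) = Pu (dv ((up s n h ω).m x - L * k))
      rw [hshiftm]
      exact (hupD _).symm
    | bot y =>
      show P (dv (y - L * k)) = P (dv ((dn s n h ω).m y - L * k))
      rw [hshiftm]
      exact (hdnD _).symm
    | glue a j hj =>
      show Pu (dv _) = P (dv _)
      rw [hPu]
      simp only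
      rw [if_neg, add_zero]
      intro hk
      have h4 : (((2 : ℕ) : ℤ) + j + L * a - L * k) / 2 = 0 := congrArg Prod.fst hk
      have h5 : (((2 : ℕ) : ℤ) + j + L * a - L * k) / 2 = 1 + (j : ℤ) / 2 + n * (a - k) := by
        subst hL
        have : ((2 : ℕ) : ℤ) + j + ((2 * n : ℕ) : ℤ) * a - ((2 * n : ℕ) : ℤ) * k =
            (j : ℤ) + (1 + n * (a - k)) * 2 := by
          push_cast; ring
        rw [this, Int.add_mul_ediv_right _ _ (by norm_num)]
        ring
      have h6 : 1 + (j : ℤ) / 2 = n * (k - a) := by linarith only [h4, h5]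
      have h7 : (0 : ℤ) < 1 + (j : ℤ) / 2 := by omega
      have h8 : 1 + (j : ℤ) / 2 < n := by omega
      have h9 : 0 < k - a := by
        by_contra hlt
        have : (n : ℤ) * (k - a) ≤ n * 0 := mul_le_mul_of_nonneg_left (by omega) (by omega)
        omega
      have h10 : (n : ℤ) * 1 ≤ n * (k - a) := mul_le_mul_of_nonneg_left (by omega) (by omega)
      omega
  have hprimS : ∀ x y, Step 2 2 (L - 2) (up s n h ω) (dn s n h ω) x y → prim x = prim y := by
    intro x y hxy1
    cases hxy1 with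
    | top x => exact (hupP x).symm
    | bot y => exact (hdnP y).symm
    | glue a j hj => rfl
  -- the sequence `p`
  set p : ℤ → ZMod 2 := fun a => P (sh n a (0, -1)) with hp
  have hdvh : ∀ (t : Fin 2) (a k : ℤ), dv ((t : ℕ) + L * a - L * k) = sh n (a - k) (0, -1) := by
    intro t a k
    have ht := t.isLt
    have h1 : (((t : ℕ) : ℤ) + L * a - L * k) / 2 = n * (a - k) := by
      subst hL
      have : ((t : ℕ) : ℤ) + ((2 * n : ℕ) : ℤ) * a - ((2 * n : ℕ) : ℤ) * k =
          ((t : ℕ) : ℤ) + (n * (a - k)) * 2 := by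
        push_cast; ring
      rw [this, Int.add_mul_ediv_right _ _ (by norm_num)]
      omega
    unfold dv sh
    rw [h1]
    ext <;> simp only <;> ring
  have hshq : ∀ a : ℤ, sh n a ((0 : ℤ), (-1 : ℤ)) = (0, -1) ↔ a = 0 := by
    intro a
    constructor
    · intro h1
      have h2 : (fun k : ℤ => sh n k ((0 : ℤ), (-1 : ℤ))) a =
          (fun k : ℤ => sh n k ((0 : ℤ), (-1 : ℤ))) 0 := by
        simp only [sh_zero]; exact h1
      exact sh_inj hn _ h2
    · rintro rfl
      exact sh_zero _ _
  have hcolt : ∀ (t : Fin 2) (a k : ℤ), col k (Sum.inl ((t : ℕ) + L * a)) =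
      p (a - k) + if a - k = 0 then 1 else 0 := by
    intro t a k
    show Pu (dv _) = _
    rw [hdvh, hPu]
    simp only [hshq, hp]
  have hcolb : ∀ (t : Fin 2) (a k : ℤ), col k (Sum.inr ((t : ℕ) + L * a)) = p (a - k) := by
    intro t a k
    show P (dv _) = _
    rw [hdvh]
  -- the limits of `p`
  have hbound : ∃ A0 B0 : ℤ, A0 < 0 ∧ 0 < B0 ∧ (∀ j, j ≤ A0 → p j = 0) ∧ ∀ j, B0 ≤ j → p j = 1 := by
    obtain ⟨hix, hhix⟩ := (cxf.image Prod.fst).bddAbove
    obtain ⟨lox, hlox⟩ := (cxf.image Prod.fst).bddBelow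
    obtain ⟨hiy, hhiy⟩ := (cyf.image Prod.fst).bddAbove
    obtain ⟨loy, hloy⟩ := (cyf.image Prod.fst).bddBelow
    have bx1 : ∀ e, cx e ≠ 0 → e.1 ≤ hix := fun e he => hhix ⟨e, he, rfl⟩
    have bx2 : ∀ e, cx e ≠ 0 → lox ≤ e.1 := fun e he => hlox ⟨e, he, rfl⟩
    have by1 : ∀ e, cy e ≠ 0 → e.1 ≤ hiy := fun e he => hhiy ⟨e, he, rfl⟩
    have by2 : ∀ e, cy e ≠ 0 → loy ≤ e.1 := fun e he => hloy ⟨e, he, rfl⟩
    refine ⟨-(|lox| + |loy| + 1), |hix| + |hiy| + 2, ?_, ?_, ?_, ?_⟩
    · have := abs_nonneg lox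
      have := abs_nonneg loy
      linarith
    · have := abs_nonneg hix
      have := abs_nonneg hiy
      linarith
    · intro j hj
      have h1 : (n : ℤ) * j ≤ j := by
        have h2 : (n : ℤ) * (-j) ≥ 1 * (-j) := by
          apply mul_le_mul_of_nonneg_right (by omega)
          have := abs_nonneg lox
          have := abs_nonneg loy
          linarith
        linarith only [h2]
      have hl1 := neg_abs_le lox
      have hl2 := neg_abs_le loy
      have h3 := abs_nonneg lox
      have h4 := abs_nonneg loy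
      rw [hp]
      simp only
      rw [hP]
      apply pot_zero
      intro i
      have h5 : (sh n j ((0 : ℤ), (-1 : ℤ))).1 = n * j := by simp [sh]
      rw [h5, hA]
      simp only
      rw [halfS_left bx2 (by simp only; linarith only [hj, h1, hl1, h4]), halfS_left by2 (by simp only; linarith only [hj, h1, hl2, h3])]
      have h6 : Perc.one g1 ((n : ℤ) * j, i, false) = 0 := by
        unfold Perc.one
        rw [if_neg]
        intro h7
        have h8 : (n : ℤ) * j = 0 := congrArg Prod.fst h7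
        linarith only [hj, h1, h3, h4, h8]
      have h7 : Perc.one g2 ((n : ℤ) * j, i, false) = 0 := by
        unfold Perc.one
        rw [if_neg]
        intro h7
        have h8 : false = true := congrArg (fun x : Edge => x.2.2) h7
        exact absurd h8 (by decide)
      rw [h6, h7]
      simp
    · intro j hj
      have h1 : j ≤ (n : ℤ) * j := by
        have h2 : (n : ℤ) * j ≥ 1 * j := by
          apply mul_le_mul_of_nonneg_right (by omega)
          have := abs_nonneg hix
          have := abs_nonneg hiy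
          linarith
        linarith only [h2]
      have hl1 := le_abs_self hix
      have hl2 := le_abs_self hiy
      have h3 := abs_nonneg hix
      have h4 := abs_nonneg hiy
      have h5 : (sh n j ((0 : ℤ), (-1 : ℤ))).1 = n * j := by simp [sh]
      have h8 : P (sh n j (0, -1)) = Gx (sh n j (0, -1)) + Gy (sh n j (0, -1)) := by
        rw [hP, hGx, hGy, ← pot_add]
        apply pot_congr
        intro i
        rw [h5, hA]
        simp only
        rw [halfS_right bx1 (by simp only; linarith only [hj, h1, hl1, h4]), halfS_right by1 (by simp only; linarith only [hj, h1, hl2, h3])]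
        have h6 : Perc.one g1 ((n : ℤ) * j, i, false) = 0 := by
          unfold Perc.one
          rw [if_neg]
          intro h7
          have h8 : (n : ℤ) * j = 0 := congrArg Prod.fst h7
          linarith only [hj, h1, h3, h4, h8]
        have h7 : Perc.one g2 ((n : ℤ) * j, i, false) = 0 := by
          unfold Perc.one
          rw [if_neg]
          intro h7
          have h8 : false = true := congrArg (fun x : Edge => x.2.2) h7
          exact absurd h8 (by decide)
        rw [h6, h7]
        simp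
      rw [hp]
      simp only
      rw [h8, hGx, hGy, pot_sh (fun e k => perS_per n cx k e), pot_sh (fun e k => perS_per n cy k e)]
      exact hsum
  obtain ⟨A0, B0, hA0, hB0, hp0, hp1⟩ := hbound
  -- primal separation of the two strands
  have hpv0 : ∀ a : ℤ, pv (((0 : Fin 2) : ℕ) + L * a) = sh n a xx := by
    intro a
    have h1 : ((((0 : Fin 2) : ℕ) : ℤ) + L * a + 1) / 2 = n * a := by
      subst hL
      have : (((0 : Fin 2) : ℕ) : ℤ) + ((2 * n : ℕ) : ℤ) * a + 1 = 1 + (n * a) * 2 := by
        push_cast; simp; ring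
      rw [this, Int.add_mul_ediv_right _ _ (by norm_num)]
      norm_num
    unfold pv sh xx
    rw [h1]
    ext <;> simp only <;> ring
  have hpv1 : ∀ a : ℤ, pv (((1 : Fin 2) : ℕ) + L * a) = sh n a yy := by
    intro a
    have h1 : ((((1 : Fin 2) : ℕ) : ℤ) + L * a + 1) / 2 = 1 + n * a := by
      subst hL
      have : (((1 : Fin 2) : ℕ) : ℤ) + ((2 * n : ℕ) : ℤ) * a + 1 = 0 + (1 + n * a) * 2 := by
        push_cast; simp; ring
      rw [this, Int.add_mul_ediv_right _ _ (by norm_num)]
      norm_num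
    unfold pv sh yy
    rw [h1]
    ext <;> simp only
    ring
  have hxsh : ∀ k : ℤ, Perc.Conn η Set.univ xx (sh n k xx) := by
    have hu1 : Perc.Conn η Set.univ xx (sh n 1 xx) := hx1.mono_set (Set.subset_univ _)
    intro k
    induction k using Int.induction_on with
    | zero => rw [sh_zero]; exact Perc.Conn.refl trivial
    | succ k ih =>
      have h1 := conn_sh n ω k hu1
      rw [sh_sh] at h1
      exact ih.trans h1
    | pred k ih =>
      have h1 := conn_sh n ω (-(k : ℤ) - 1) hu1
      rw [sh_sh, show -(k : ℤ) - 1 + 1 = -k by ring] at h1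
      exact ih.trans h1.symm
  have hysh : ∀ k : ℤ, Perc.Conn η Set.univ yy (sh n k yy) := by
    have hu1 : Perc.Conn η Set.univ yy (sh n 1 yy) := hy1.mono_set (Set.subset_univ _)
    intro k
    induction k using Int.induction_on with
    | zero => rw [sh_zero]; exact Perc.Conn.refl trivial
    | succ k ih =>
      have h1 := conn_sh n ω k hu1
      rw [sh_sh] at h1
      exact ih.trans h1
    | pred k ih =>
      have h1 := conn_sh n ω (-(k : ℤ) - 1) hu1
      rw [sh_sh, show -(k : ℤ) - 1 + 1 = -k by ring] at h1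
      exact ih.trans h1.symm
  have hsep : ∀ (t t' : Fin 2) (a b : ℤ), F (pv ((t : ℕ) + L * a)) = F (pv ((t' : ℕ) + L * b)) →
      t = t' := by
    intro t t' a b hFF
    have h1 := hFeq _ _ hFF
    rcases (by fin_cases t <;> simp : t = 0 ∨ t = 1) with rfl | rfl <;>
    rcases (by fin_cases t' <;> simp : t' = 0 ∨ t' = 1) with rfl | rfl
    · rfl
    · exfalso
      rw [hpv0, hpv1] at h1
      exact hf3 (((hxsh a).trans h1).trans (hysh b).symm)
    · exfalso
      rw [hpv0, hpv1] at h1
      exact hf3 (((hxsh b).trans h1.symm).trans (hysh a).symm)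
    · rfl
  -- invariance of the colours under a connection
  intro u v a b hconn
  have hcc : ∀ k : ℤ, col k (hpos L L 2 2 u a) = col k (hpos L L 2 2 v b) :=
    fun k => comp_const (hcolS k) hconn
  have hpp := comp_const hprimS hconn
  by_cases hab : a = b
  · -- same sheet
    subst hab
    rcases u with t | t <;> rcases v with t' | t'
    · left; exact ⟨by rw [hsep t t' a a hpp], rfl⟩
    · exfalso
      have h1 := hcc a
      have e1 : col a (hpos L L 2 2 (Sum.inl t) a) = p (a - a) + if a - a = 0 then 1 else 0 :=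
        hcolt t a a
      have e2 : col a (hpos L L 2 2 (Sum.inr t') a) = p (a - a) := hcolb t' a a
      rw [e1, e2, if_pos (sub_self a)] at h1
      have h2 : (1 : ZMod 2) = 0 := by linear_combination h1
      exact absurd h2 (by decide)
    · exfalso
      have h1 := hcc a
      have e1 : col a (hpos L L 2 2 (Sum.inl t') a) = p (a - a) + if a - a = 0 then 1 else 0 :=
        hcolt t' a a
      have e2 : col a (hpos L L 2 2 (Sum.inr t) a) = p (a - a) := hcolb t a a
      rw [e1, e2, if_pos (sub_self a)] at h1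
      have h2 : (1 : ZMod 2) = 0 := by linear_combination -h1
      exact absurd h2 (by decide)
    · left; exact ⟨by rw [hsep t t' a a hpp], rfl⟩
  · have hd0 : b - a ≠ 0 := fun h1 => hab (by linarith only [h1])
    -- relation between top and bottom
    have hkeyodd : ∀ d : ℤ, d ≠ 0 → (∀ j : ℤ, p j + (if j = 0 then 1 else 0) = p (j + d)) →
        Odd d := by
      intro d hd1 hrel
      by_contra hodd
      have habs : ∀ m : ℤ, 1 + m * d ≠ 0 := by
        intro m h1
        apply hodd
        have h2 : d * (-m) = 1 := by linarith only [h1]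
        have h3 : d ∣ 1 := ⟨-m, h2.symm⟩
        rcases Int.isUnit_iff.1 (isUnit_of_dvd_one h3) with h4 | h4
        · rw [h4]; exact ⟨0, by norm_num⟩
        · rw [h4]; exact ⟨-1, by norm_num⟩
      apply no_period (r := p) (r0 := 1) hd1 _ hp0 hp1
      intro m
      have h1 := hrel (1 + m * d)
      rw [if_neg (habs m), add_zero] at h1
      rw [h1]
      congr 1
      ring
    rcases u with t | t <;> rcases v with t' | t'
    · exfalso
      have hrel : ∀ j : ℤ, p j + (if j = 0 then 1 else 0) =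
          p (j + (b - a)) + if j + (b - a) = 0 then 1 else 0 := by
        intro j
        have h1 := hcc (a - j)
        have e1 : col (a - j) (hpos L L 2 2 (Sum.inl t) a) =
            p (a - (a - j)) + if a - (a - j) = 0 then 1 else 0 := hcolt t a (a - j)
        have e2 : col (a - j) (hpos L L 2 2 (Sum.inl t') b) =
            p (b - (a - j)) + if b - (a - j) = 0 then 1 else 0 := hcolt t' b (a - j)
        rw [e1, e2, show a - (a - j) = j by ring, show b - (a - j) = j + (b - a) by ring] at h1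
        exact h1
      apply no_period (r := fun j => p j + if j = 0 then 1 else 0) (r0 := 0) hd0
        (A := A0) (B := B0)
      · intro m
        have h1 := hrel (0 + m * (b - a))
        rw [show 0 + (m + 1) * (b - a) = 0 + m * (b - a) + (b - a) by ring]
        exact h1.symm
      · intro j hj
        rw [hp0 j hj, if_neg (by omega), add_zero]
      · intro j hj
        rw [hp1 j hj, if_neg (by omega), add_zero]
    · right
      apply hkeyodd _ hd0
      intro j
      have h1 := hcc (a - j)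
      have e1 : col (a - j) (hpos L L 2 2 (Sum.inl t) a) =
          p (a - (a - j)) + if a - (a - j) = 0 then 1 else 0 := hcolt t a (a - j)
      have e2 : col (a - j) (hpos L L 2 2 (Sum.inr t') b) = p (b - (a - j)) :=
        hcolb t' b (a - j)
      rw [e1, e2, show a - (a - j) = j by ring, show b - (a - j) = j + (b - a) by ring] at h1
      exact h1
    · right
      have h0 : Odd (a - b) := by
        apply hkeyodd _ (fun h1 => hab (by linarith only [h1]))
        intro j
        have h1 := hcc (b - j)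
        have e1 : col (b - j) (hpos L L 2 2 (Sum.inl t') b) =
            p (b - (b - j)) + if b - (b - j) = 0 then 1 else 0 := hcolt t' b (b - j)
        have e2 : col (b - j) (hpos L L 2 2 (Sum.inr t) a) = p (a - (b - j)) :=
          hcolb t a (b - j)
        rw [e1, e2, show b - (b - j) = j by ring, show a - (b - j) = j + (a - b) by ring] at h1
        exact h1.symm
      have h2 : b - a = -(a - b) := by ring
      rw [h2]
      exact h0.neg
    · exfalso
      apply no_period (r := p) (r0 := 0) hd0 _ hp0 hp1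
      intro m
      have h1 := hcc (a - (0 + m * (b - a)))
      have e1 : col (a - (0 + m * (b - a))) (hpos L L 2 2 (Sum.inr t) a) =
          p (a - (a - (0 + m * (b - a)))) := hcolb t a _
      have e2 : col (a - (0 + m * (b - a))) (hpos L L 2 2 (Sum.inr t') b) =
          p (b - (a - (0 + m * (b - a)))) := hcolb t' b _
      rw [e1, e2, show a - (a - (0 + m * (b - a))) = 0 + m * (b - a) by ring,
        show b - (a - (0 + m * (b - a))) = 0 + (m + 1) * (b - a) by ring] at h1
      exact h1.symm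

theorem leg_of_fc2 (hL : L = 2 * n) (hn : 2 ≤ n) {s : Pat L} (hs : IsStar s) {h H : ℕ}
    (he : Even h) (hH : H ≤ h) (ω : Config) (hf : per n ω ∈ Fc2 n H) :
    Leg 2 2 (L - 2) (up s n h ω) (dn s n h ω) :=
  leg_of_wind hL (by omega) hs he hH ω hf

open Classical in
/-- **Four arms**, with both lower bounds. -/
theorem link_four2 (hL : L = 2 * n) (hn : 2 ≤ n) {v : Pat L → ℂ} (hv : Stat v) (hS : ∑ P, v P ≠ 0) :
    ∃ g : ℝ, (g : ℂ) = legSum 2 2 (L - 2) v v / (∑ P, v P) ^ 2 ∧
      (∀ k : ℕ, 1 ≤ k → 2 * k < n → k + 2 < n → g ≤ Pr half (FourD k)) ∧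
      (∀ H : ℕ, Pr half {ω | per n ω ∈ Fc n H} ≤ g) ∧
      ∀ H : ℕ, Pr half {ω | per n ω ∈ Fc2 n H} ≤ g := by
  obtain ⟨s, hs⟩ := exists_star hL (by omega : 1 ≤ n)
  have hT := pr_tendsto hL (by omega : 1 ≤ n) hs hv hS
    {PQ : Pat L × Pat L | Leg 2 2 (L - 2) PQ.1 PQ.2}
  obtain ⟨g, hg, ht⟩ := real_limit' hT
  refine ⟨g, ?_, ?_, ?_, ?_⟩
  · rw [hg]
    rfl
  · intro k hk1 hk2 hk3
    refine le_of_tendsto ht ?_
    filter_upwards [eventually_ge_atTop (2 * k + 2)] with h hh
    rw [← pr_per_fourD half hk2]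
    refine pr_mono' fun ω hω => ?_
    exact fourD_of_leg hL hs (even_two_mul h) hk1 hk3 (by omega) ω hω
  · intro H
    refine ge_of_tendsto ht ?_
    filter_upwards [eventually_ge_atTop H] with h hh
    refine pr_mono' fun ω hω => ?_
    exact leg_of_fc hL hn hs (even_two_mul h) (by omega) ω hω
  · intro H
    refine ge_of_tendsto ht ?_
    filter_upwards [eventually_ge_atTop H] with h hh
    refine pr_mono' fun ω hω => ?_
    exact leg_of_fc2 hL hn hs (even_two_mul h) (by omega) ω hω

end Pool.Agent.H89.Link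

end

section

/-!
# LINK module `CylArm`: an arm of the plane can be completed to a winding path on the cylinder

`n = 16 m`, `η = per n ω`.  Events for `η`, all increasing and local:
* `A = Arm 0 (2 m)`;
* `T` = `HCross η (-2m) (2m) m (2m)`, `B` = `HCross η (-2m) (2m) (-2m) (-m)`, `Le` = `VCross η (-2m) (-m) (-2m) (2m)`,
  `Ri` = `VCross η m (2m) (-2m) (2m)` (four `4 : 1` rectangles around `ball 0 m`);
* `R1` = `HCross η (-2m) (18m) (-m) m`, `R2` = `VCross η (15m) (17m) (-18m) (2m)`.
Determinism.  An open path from `0` to `sphere 0 (2m)` in `ball 0 (2m)` ends on one of the four sides; by `hv_meet` (or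
`Conn.cross_x/cross_y` + `cross`) it meets the crossing of the corresponding rectangle.  The four crossings meet pairwise
in the corners (`hv_meet`), `Le` meets `R1`, `R1` meets `R2`.  `R2` meets the translate by `(n, -n)` of `B`
(`HCross η (14m) (18m) (-18m) (-17m)`), which exists because `η` has period `(n, -n)` (`conn_sh` in `Link/Fc.lean`); the
translate of the whole picture joins it to `(n, -n)`.  Everything is in `strip (64 m)`.
Probability.  `Pr half {ω | per n ω ∈ E} = Pr half E` for each of the seven events (`pr_per`: `base n` is injective on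
`eRect a b c d` if `b - a < n` or `d - c < n`, because `base n e = base n e'` forces
`e' = (e.1 + n k, e.2.1 - n k, e.2.2)`).  `ω ↦ per n ω` is monotone and local, so FKG (`Perc.fkg`) holds for these events;
`rsw` and `long_rsw` bound the crossing probabilities from below (translate, reflect: `Pr_hcross_translate`,
`Pr_vcross_eq_hcross`); the `20m x 2m` rectangles have aspect ratio 10.
-/

set_option autoImplicit false

open MeasureTheory ProbabilityTheory

namespace Pool.Agent.H89.Link

open Pool.Agent.H89.Perc (Vert Edge Config Pr half)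

end Pool.Agent.H89.Link

end

section

/-! The function `TM M c z`: the explicit sum times the product over pairs; its recursions. -/

namespace H56.EX

open Finset Pool.Agent.H96.EX

lemma TM_mvf (M : ℕ) (c : List ℂ) (z : ℕ → ℂ) (hz : Gen M z) (j : ℕ) (hj : j < M) :
    TM M c (mvf j z) = TM M c z :=
  inv_mvf (TM M c) (fun z _ j hj => TM_swap M c z j hj) j hj z hz

/-- recursion at `c = q² z_0` -/
theorem TM_rec1 (M : ℕ) (c : List ℂ) (z : ℕ → ℂ) (hz : Gen (M + 1) z) :
    TM (M + 1) ((q ^ 2 * z 0) :: c) z =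
      (1 - q ^ 2) * z 0 * lg c (q * z 0) * (∏ k ∈ range M, (z (k + 1) - q * z 0) ^ 2) *
        TM M (z 0 :: c) (fun n => z (n + 1)) := by
  have hd : ∀ j ∈ (range (M + 1)).erase 0, z j ≠ z 0 ∧ z j ≠ q ^ 2 * z 0 := by
    intro j hj
    rw [mem_erase, mem_range] at hj
    have := hz.2 j 0 hj.2 (by omega) hj.1
    exact ⟨this.ne1, this.neq2⟩
  unfold TM
  rw [SG_rec1 q_sq (mem_range.2 (Nat.succ_pos M)) c z hd, range_erase_zero, SG_map,
    Finset.prod_map]
  simp only [prp, addRightEmbedding_apply]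
  have hp : (∏ k ∈ range M, (z 0 ^ 2 + z 0 * z (k + 1) + z (k + 1) ^ 2)) *
      (∏ k ∈ range M, (z (k + 1) - q * z 0) / (z (k + 1) - q ^ 2 * z 0)) =
      ∏ k ∈ range M, (z (k + 1) - q * z 0) ^ 2 := by
    rw [← Finset.prod_mul_distrib]
    refine Finset.prod_congr rfl fun k hk => ?_
    have hne : z (k + 1) - q ^ 2 * z 0 ≠ 0 :=
      sub_ne_zero.2 (hz.2 (k + 1) 0 (by have := mem_range.1 hk; omega) (by omega)
        (by omega)).neq2
    rw [mul_div_assoc', div_eq_iff hne]
    linear_combination (z 0 * z (k + 1) * (z (k + 1) - q * z 0)) * q_sq +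
      (- (z 0 ^ 2 * (z (k + 1) - q * z 0))) * q_cube
  have hc : (fun n => z (n + 1)) = z ∘ (addRightEmbedding 1 : ℕ ↪ ℕ) := rfl
  rw [hc, ← hp]
  linear_combination (z 0 * lg c (q * z 0) *
    (∏ k ∈ range M, (z 0 ^ 2 + z 0 * z (k + 1) + z (k + 1) ^ 2)) *
      (∏ k ∈ range M, (z (k + 1) - q * z 0) / (z (k + 1) - q ^ 2 * z 0)) *
      prp M (z ∘ (addRightEmbedding 1 : ℕ ↪ ℕ)) *
      SG q q (q ^ 2) (range M) (z 0 :: c) (z ∘ (addRightEmbedding 1 : ℕ ↪ ℕ))) * q_cube

/-- recursion at `c = q z_0` -/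
theorem TM_rec2 (M : ℕ) (c : List ℂ) (z : ℕ → ℂ) (hz : Gen (M + 1) z) :
    TM (M + 1) ((q * z 0) :: c) z =
      (1 - q) * z 0 * lg c (q ^ 2 * z 0) * (∏ k ∈ range M, (z (k + 1) - q ^ 2 * z 0) ^ 2) *
        TM M (z 0 :: c) (fun n => z (n + 1)) := by
  have hd : ∀ j ∈ (range (M + 1)).erase 0, z j ≠ z 0 ∧ z j ≠ q * z 0 := by
    intro j hj
    rw [mem_erase, mem_range] at hj
    have := hz.2 j 0 hj.2 (by omega) hj.1
    exact ⟨this.ne1, this.neq⟩
  unfold TM
  rw [SG_rec2 q_sq (mem_range.2 (Nat.succ_pos M)) c z hd, range_erase_zero, SG_map,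
    Finset.prod_map]
  simp only [prp, addRightEmbedding_apply]
  have hp : (∏ k ∈ range M, (z 0 ^ 2 + z 0 * z (k + 1) + z (k + 1) ^ 2)) *
      (∏ k ∈ range M, (z (k + 1) - q ^ 2 * z 0) / (z (k + 1) - q * z 0)) =
      ∏ k ∈ range M, (z (k + 1) - q ^ 2 * z 0) ^ 2 := by
    rw [← Finset.prod_mul_distrib]
    refine Finset.prod_congr rfl fun k hk => ?_
    have hne : z (k + 1) - q * z 0 ≠ 0 :=
      sub_ne_zero.2 (hz.2 (k + 1) 0 (by have := mem_range.1 hk; omega) (by omega)
        (by omega)).neq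
    rw [mul_div_assoc', div_eq_iff hne]
    linear_combination (z 0 * z (k + 1) * (z (k + 1) - q ^ 2 * z 0)) * q_sq +
      (- (z 0 ^ 2 * (z (k + 1) - q ^ 2 * z 0))) * q_cube
  have hc : (fun n => z (n + 1)) = z ∘ (addRightEmbedding 1 : ℕ ↪ ℕ) := rfl
  rw [hc, ← hp]
  linear_combination ((1 - q) * z 0 * lg c (q ^ 2 * z 0) *
    (∏ k ∈ range M, (z 0 ^ 2 + z 0 * z (k + 1) + z (k + 1) ^ 2)) *
      (∏ k ∈ range M, (z (k + 1) - q ^ 2 * z 0) / (z (k + 1) - q * z 0)) *
      prp M (z ∘ (addRightEmbedding 1 : ℕ ↪ ℕ)) *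
      SG q q (q ^ 2) (range M) (z 0 :: c) (z ∘ (addRightEmbedding 1 : ℕ ↪ ℕ))) * q_cube

lemma Gen.mvf {M : ℕ} : ∀ (j : ℕ) (_ : j < M) (z : ℕ → ℂ), Gen M z → Gen M (mvf j z) := by
  intro j
  induction j with
  | zero => intro _ z hz; rw [mvf_zero]; exact hz
  | succ j ih =>
    intro hj z hz
    rw [mvf_succ]
    exact ih (by omega) _ (hz.swap j hj)

lemma prod_mvf_last (M : ℕ) (z : ℕ → ℂ) (f : ℂ → ℂ) :
    ∏ k ∈ range M, f (mvf M z (k + 1)) = ∏ k ∈ range M, f (z k) := by
  refine Finset.prod_congr rfl fun k hk => ?_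
  rw [mvf_last M z k (mem_range.1 hk)]

theorem TM_rec1_last (M : ℕ) (c : List ℂ) (z : ℕ → ℂ) (hz : Gen (M + 1) z) :
    TM (M + 1) ((q ^ 2 * z M) :: c) z =
      (1 - q ^ 2) * z M * lg c (q * z M) * (∏ k ∈ range M, (z k - q * z M) ^ 2) *
        TM M (z M :: c) z := by
  have h := TM_rec1 M c (mvf M z) (hz.mvf M (by omega) z)
  rw [mvf_head, prod_mvf_last M z (fun x => (x - q * z M) ^ 2),
    TM_mvf (M + 1) _ z hz M (by omega),
    TM_congr (z := fun n => mvf M z (n + 1)) (z' := z) (fun j hj => mvf_last M z j hj)] at h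
  exact h

theorem TM_rec2_last (M : ℕ) (c : List ℂ) (z : ℕ → ℂ) (hz : Gen (M + 1) z) :
    TM (M + 1) ((q * z M) :: c) z =
      (1 - q) * z M * lg c (q ^ 2 * z M) * (∏ k ∈ range M, (z k - q ^ 2 * z M) ^ 2) *
        TM M (z M :: c) z := by
  have h := TM_rec2 M c (mvf M z) (hz.mvf M (by omega) z)
  rw [mvf_head, prod_mvf_last M z (fun x => (x - q ^ 2 * z M) ^ 2),
    TM_mvf (M + 1) _ z hz M (by omega),
    TM_congr (z := fun n => mvf M z (n + 1)) (z' := z) (fun j hj => mvf_last M z j hj)] at h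
  exact h

end H56.EX

end

section

/-! The explicit right hand sides of the leg formulas and their recursions. -/

namespace H56.EX

open Finset Pool.Agent.H96.EX

/-- A1 -/
lemma R22_right (M : ℕ) (a0 b0 b1 : ℂ) (z : ℕ → ℂ) (hz : Gen (M + 1) z) (h0 : b0 ≠ 0)
    (h1 : b1 ≠ 0) :
    R22 (M + 1) a0 (q ^ 2 * z 0) b0 b1 z =
      (-q * z 0 * ((∏ s ∈ range M, (z (s + 1) - q * z 0) ^ 2) * (a0 - q * z 0) ^ 2) /
        3 ^ (M + 1)) * R13 M a0 b0 b1 (z 0) (fun n => z (n + 1)) := by
  unfold R22 R13
  rw [TM_rec1 M _ z hz, Finset.prod_range_succ', qi]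
  simp only [lg_cons, lg_nil, ee]
  set Z := ∏ k ∈ range M, z (k + 1) with hZ
  set D := ∏ k ∈ range M, (z (k + 1) - q * z 0) ^ 2 with hD
  set T := TM M [z 0, a0, b0, b1] fun n => z (n + 1) with hT
  have hz0 : z 0 ≠ 0 := hz.1 0 (by omega)
  have hZ0 : Z ≠ 0 := by
    rw [hZ]
    exact Finset.prod_ne_zero_iff.2 fun k hk => hz.1 _ (by have := mem_range.1 hk; omega)
  have e1 : q * (q ^ 2 * z 0) - q ^ 2 * a0 = -q ^ 2 * (a0 - q * z 0) := by ring
  have e2 : ∀ b : ℂ, q * b - q ^ 2 * z 0 = q * (b - q * z 0) := fun b => by ring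
  rw [e1, e2 b0, e2 b1, div_mul_div_comm, div_eq_div_iff]
  · linear_combination (-(q ^ 2 * (q * b0 - q ^ 2 * b1) * z 0 * (a0 - q * z 0) ^ 2 *
      (b0 - q * z 0) * (b1 - q * z 0) * D * T * (3 ^ (ee M + (M + 2)) *
        (b0 * b1 * (Z * z 0)) ^ (M + 2)))) * q_cube
  · refine mul_ne_zero (three_ne _) (pow_ne_zero _ ?_)
    simp [h0, h1, hz0, hZ0]
  · refine mul_ne_zero (three_ne _) (mul_ne_zero (three_ne _) (pow_ne_zero _ ?_))
    simp [h0, h1, hz0, hZ0]

/-- A3 -/
lemma R22_left (M : ℕ) (a0 b0 b1 : ℂ) (z : ℕ → ℂ) (hz : Gen (M + 1) z) (h0 : b0 ≠ 0)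
    (h1 : b1 ≠ 0) :
    R22 (M + 1) (q * z M) a0 b0 b1 z =
      (-q * (q * z M) * ((∏ s ∈ range M, (z s - q * (q * z M)) ^ 2) *
        (a0 - q * (q * z M)) ^ 2) / 3 ^ (M + 1)) * R13 M a0 (z M) b0 b1 z := by
  unfold R22 R13
  rw [TM_perm (c := [a0, q * z M, b0, b1]) (c' := [q * z M, a0, b0, b1]) (List.Perm.swap _ _ _),
    TM_rec2_last M _ z hz, Finset.prod_range_succ, qi,
    TM_perm (c := [b1, a0, z M, b0]) (c' := [z M, a0, b0, b1])
      (by
        rw [List.perm_iff_count]
        intro x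
        simp only [List.count_cons, List.count_nil]
        ring)]
  simp only [lg_cons, lg_nil, ee]
  set Z := ∏ k ∈ range M, z k with hZ
  have eD : (∏ s ∈ range M, (z s - q * (q * z M)) ^ 2) =
      ∏ k ∈ range M, (z k - q ^ 2 * z M) ^ 2 := by
    refine Finset.prod_congr rfl fun k _ => ?_
    ring
  rw [eD]
  set D := ∏ k ∈ range M, (z k - q ^ 2 * z M) ^ 2 with hD
  set T := TM M [z M, a0, b0, b1] z with hT
  have hz0 : z M ≠ 0 := hz.1 M (by omega)
  have hZ0 : Z ≠ 0 := by
    rw [hZ]
    exact Finset.prod_ne_zero_iff.2 fun k hk => hz.1 _ (by have := mem_range.1 hk; omega)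
  have e1 : ∀ x y : ℂ, q * x - q ^ 2 * (q * y) = q * (x - q ^ 2 * y) := fun x y => by ring
  have e2 : ∀ x : ℂ, q * z M - q ^ 2 * x = -q ^ 2 * (x - q ^ 2 * z M) := fun x => by
    linear_combination (- q * z M) * q_cube
  rw [e1, e2 b0, e2 b1, div_mul_div_comm, div_eq_div_iff]
  · linear_combination (-((q ^ 2 - q) * (q ^ 3 + 1) * (q * b0 - q ^ 2 * b1) * z M *
      (a0 - q ^ 2 * z M) ^ 2 * (b0 - q ^ 2 * z M) * (b1 - q ^ 2 * z M) * D * T *
      (3 ^ (ee M + (M + 2)) * (b0 * b1 * (Z * z M)) ^ (M + 2)))) * q_cube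
  · refine mul_ne_zero (three_ne _) (pow_ne_zero _ ?_)
    simp [h0, h1, hz0, hZ0]
  · refine mul_ne_zero (three_ne _) (mul_ne_zero (three_ne _) (pow_ne_zero _ ?_))
    simp [h0, h1, hz0, hZ0]

/-- B1 -/
lemma R13_right (M : ℕ) (a b0 b1 : ℂ) (z : ℕ → ℂ) (hz : Gen (M + 1) z) (h0 : b0 ≠ 0)
    (h1 : b1 ≠ 0) :
    R13 (M + 1) a b0 b1 (q * z 0) z =
      (-q * (z 0)⁻¹ * ((∏ s ∈ range M, ((z (s + 1))⁻¹ - q * (z 0)⁻¹) ^ 2) *
        (b0⁻¹ - q * (z 0)⁻¹) ^ 2 * (b1⁻¹ - q * (z 0)⁻¹) ^ 2) /
        3 ^ (M + 2)) * R22 M a (z 0) b0 b1 (fun n => z (n + 1)) := by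
  have hz0 : z 0 ≠ 0 := hz.1 0 (by omega)
  have hk0 : ∀ k, k < M → z (k + 1) ≠ 0 := fun k hk => hz.1 _ (by omega)
  unfold R22 R13
  rw [TM_rec2 M _ z hz, Finset.prod_range_succ', qi, inv_sub_sq h0 hz0, inv_sub_sq h1 hz0]
  simp only [lg_cons, lg_nil, ee]
  have eD : (∏ s ∈ range M, ((z (s + 1))⁻¹ - q * (z 0)⁻¹) ^ 2) =
      (q ^ 2) ^ M * (∏ k ∈ range M, (z (k + 1) - q ^ 2 * z 0) ^ 2) /
        ((∏ k ∈ range M, z (k + 1)) ^ 2 * (z 0 ^ 2) ^ M) := by
    rw [eq_div_iff]
    · have : (q ^ 2) ^ M = ∏ k ∈ range M, q ^ 2 := by rw [Finset.prod_const, card_range]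
      rw [this, ← Finset.prod_mul_distrib]
      have : (z 0 ^ 2) ^ M = ∏ k ∈ range M, z 0 ^ 2 := by rw [Finset.prod_const, card_range]
      rw [this, ← Finset.prod_pow, ← Finset.prod_mul_distrib, ← Finset.prod_mul_distrib]
      refine Finset.prod_congr rfl fun k hk => ?_
      have hk := hk0 k (mem_range.1 hk)
      rw [inv_sub_sq hk hz0]
      field_simp
    · refine mul_ne_zero (pow_ne_zero _ ?_) (pow_ne_zero _ (pow_ne_zero _ hz0))
      exact Finset.prod_ne_zero_iff.2 fun k hk => hk0 k (mem_range.1 hk)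
  rw [eD]
  set Z := ∏ k ∈ range M, z (k + 1) with hZ
  set D := ∏ k ∈ range M, (z (k + 1) - q ^ 2 * z 0) ^ 2 with hD
  set T := TM M [z 0, a, b0, b1] fun n => z (n + 1) with hT
  have hZ0 : Z ≠ 0 := by
    rw [hZ]
    exact Finset.prod_ne_zero_iff.2 fun k hk => hk0 k (mem_range.1 hk)
  have e1 : ∀ b : ℂ, q * b - q ^ 2 * (q * z 0) = q * (b - q ^ 2 * z 0) := fun b => by ring
  have e2 : q * z 0 - q ^ 2 * a = -q ^ 2 * (a - q ^ 2 * z 0) := by
    linear_combination (- q * z 0) * q_cube
  rw [e1 b0, e1 b1, e2]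
  have hQ : (q ^ M) ^ 3 = 1 := by rw [← pow_mul, mul_comm, pow_mul, q_cube, one_pow]
  have hQ0 : q ^ M ≠ 0 := pow_ne_zero _ q_ne_zero
  have h30 : (3 : ℂ) ^ M ≠ 0 := three_ne M
  have h31 : (3 : ℂ) ^ (ee M) ≠ 0 := three_ne _
  have hq := q_ne_zero
  have hK : ∀ K : ℂ, (q - 1) ^ 2 * K = -(3 * q ^ 7 * (q ^ M) ^ 3 * K) := by
    intro K
    linear_combination K * q_sq + 3 * q * K * (q ^ M) ^ 3 * (q ^ 3 + 1) * q_cube + 3 * q * K * hQ
  field_simp
  linear_combination hK (b0 ^ 2 * b1 ^ 2 * (b0 - q * b1) * z 0 ^ 6 * (b0 - q ^ 2 * z 0) ^ 2 *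
    (b1 - q ^ 2 * z 0) ^ 2 * (a - q ^ 2 * z 0) * D * T * Z ^ 2 * (z 0 ^ 2) ^ M * 3 ^ (M + 2) *
    3 ^ ee M * (b0 * b1 * Z) ^ (M + 1))

/-- B4 -/
lemma R13_left (M : ℕ) (a b0 b1 : ℂ) (z : ℕ → ℂ) (hz : Gen (M + 1) z) (h0 : b0 ≠ 0)
    (h1 : b1 ≠ 0) :
    R13 (M + 1) a (q ^ 2 * z M) b0 b1 z =
      (-q * (q ^ 2 * z M)⁻¹ * ((∏ s ∈ range M, ((z s)⁻¹ - q * (q ^ 2 * z M)⁻¹) ^ 2) *
        (b1⁻¹ - q * (q ^ 2 * z M)⁻¹) ^ 2 * (b0⁻¹ - q * (q ^ 2 * z M)⁻¹) ^ 2) /
        3 ^ (M + 2)) * R22 M (z M) a b0 b1 z := by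
  have hz0 : z M ≠ 0 := hz.1 M (by omega)
  have hk0 : ∀ k, k < M → z k ≠ 0 := fun k hk => hz.1 _ (by omega)
  have hq := q_ne_zero
  have hqz : q ^ 2 * z M ≠ 0 := mul_ne_zero (pow_ne_zero _ hq) hz0
  unfold R22 R13
  rw [TM_perm (c := [b1, a, q ^ 2 * z M, b0]) (c' := [q ^ 2 * z M, a, b0, b1])
      (by
        rw [List.perm_iff_count]
        intro x
        simp only [List.count_cons, List.count_nil]
        ring),
    TM_rec1_last M _ z hz, Finset.prod_range_succ, qi, inv_sub_sq h0 hqz, inv_sub_sq h1 hqz,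
    TM_perm (c := [a, z M, b0, b1]) (c' := [z M, a, b0, b1]) (List.Perm.swap _ _ _)]
  simp only [lg_cons, lg_nil, ee]
  have e0 : ∀ x : ℂ, x - q ^ 2 * (q ^ 2 * z M) = x - q * z M := fun x => by
    linear_combination (- q * z M) * q_cube
  have eD : (∏ s ∈ range M, ((z s)⁻¹ - q * (q ^ 2 * z M)⁻¹) ^ 2) =
      (q ^ 2) ^ M * (∏ k ∈ range M, (z k - q * z M) ^ 2) /
        ((∏ k ∈ range M, z k) ^ 2 * ((q ^ 2 * z M) ^ 2) ^ M) := by
    rw [eq_div_iff]
    · have : (q ^ 2) ^ M = ∏ k ∈ range M, q ^ 2 := by rw [Finset.prod_const, card_range]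
      rw [this, ← Finset.prod_mul_distrib]
      have : ((q ^ 2 * z M) ^ 2) ^ M = ∏ k ∈ range M, (q ^ 2 * z M) ^ 2 := by
        rw [Finset.prod_const, card_range]
      rw [this, ← Finset.prod_pow, ← Finset.prod_mul_distrib, ← Finset.prod_mul_distrib]
      refine Finset.prod_congr rfl fun k hk => ?_
      have hk := hk0 k (mem_range.1 hk)
      rw [inv_sub_sq hk hqz, e0]
      field_simp
    · refine mul_ne_zero (pow_ne_zero _ ?_) (pow_ne_zero _ (pow_ne_zero _ hqz))
      exact Finset.prod_ne_zero_iff.2 fun k hk => hk0 k (mem_range.1 hk)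
  rw [eD, e0, e0]
  set Z := ∏ k ∈ range M, z k with hZ
  set D := ∏ k ∈ range M, (z k - q * z M) ^ 2 with hD
  set T := TM M [z M, a, b0, b1] z with hT
  have hZ0 : Z ≠ 0 := by
    rw [hZ]
    exact Finset.prod_ne_zero_iff.2 fun k hk => hk0 k (mem_range.1 hk)
  have e1 : ∀ b : ℂ, q * (q ^ 2 * z M) - q ^ 2 * b = -q ^ 2 * (b - q * z M) := fun b => by ring
  have e2 : q * a - q ^ 2 * z M = q * (a - q * z M) := by ring
  rw [e1 b0, e1 b1, e2]
  have hQ : (q ^ M) ^ 3 = 1 := by rw [← pow_mul, mul_comm, pow_mul, q_cube, one_pow]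
  have hQ0 : q ^ M ≠ 0 := pow_ne_zero _ q_ne_zero
  have h30 : (3 : ℂ) ^ M ≠ 0 := three_ne M
  have h31 : (3 : ℂ) ^ (ee M) ≠ 0 := three_ne _
  field_simp
  have hK : ∀ K : ℂ, -(q ^ 9 * (q - 1) * (1 - q ^ 2) * (q ^ M) ^ 4 * K) =
      3 * q ^ 6 * (q ^ M) ^ 4 * K := by
    intro K
    linear_combination (-(q ^ 9 * (q ^ M) ^ 4 * K)) * q_sq +
      (q ^ 6 * (q ^ 3 + 3) * (q ^ M) ^ 4 * K) * q_cube
  linear_combination hK (b0 ^ 2 * z M ^ 6 * (b0 - q * z M) ^ 2 * b1 ^ 2 * (b1 - q * z M) ^ 2 *
    (b0 - q * b1) * (a - q * z M) * D * T * Z ^ 2 * (z M ^ 2) ^ M * 3 ^ (M + 2) * 3 ^ ee M *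
    (b0 * b1 * Z) ^ (M + 1))

end H56.EX

end

section

/-!
# Lower bounds for the influence of an edge of the torus
-/

open MeasureTheory ProbabilityTheory unitInterval

namespace Pool.Agent.H26.ST

open Pool.Agent.H89.Perc Pool.Agent.H61.NC

end Pool.Agent.H26.ST

end
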