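import Pool.Agent.H94.BG.H31.PT.M10_1
import Pool.Agent.H94.BG.H31.PT.M13
import Pool.Agent.H94.BG.H31.PT.M31_3
import Pool.Agent.H94.BG.H31.PT.M32_4
import Pool.Agent.H94.BG.M09

/-! The parts of this file: H83.EX.WindNear, H31.EX.Scaling, H47.EX.CylGeo, H47.EX.SepD, H89.Link.Fc, H89.Link.Fc2, H89.Link.CylArm, H56.EX.TMx, H56.EX.Alg, H26.ST.Piv. -/

section

/-! # The winding probability above the characteristic length -/

open MeasureTheory ProbabilityTheory unitInterval

namespace Pool.Agent.H83.EX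

open Pool.Agent.H89.Perc

private lemma wn_per_shift (m : ℕ) (ω : Config) (e : Edge) :
    per (14 * m) ω (shiftE (14 * m, 0) e) = per (14 * m) ω e := by
  simp only [per, shiftE]
  have h1 : (e.1 + 14 * (m : ℤ)) % ((14 * m : ℕ) : ℤ) = e.1 % ((14 * m : ℕ) : ℤ) := by
    push_cast
    exact Int.add_emod_right _ _
  rw [h1, add_zero]

private lemma wn_dual_shift (m : ℕ) (ω : Config) (x y : ℤ) (b : Bool) :
    dual (per (14 * m) ω) (x, y + 14 * m, b) = dual (per (14 * m) ω) (x, y, b) := by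
  cases b
  · simp only [dual, crossed, per, Bool.false_eq_true, if_false]
    have h1 : (y + 14 * (m : ℤ)) % ((14 * m : ℕ) : ℤ) = y % ((14 * m : ℕ) : ℤ) := by
      push_cast
      exact Int.add_emod_right _ _
    rw [h1]
  · simp only [dual, crossed, per, if_true]
    have h1 : (y + 14 * (m : ℤ) + 1) % ((14 * m : ℕ) : ℤ) = (y + 1) % ((14 * m : ℕ) : ℤ) := by
      rw [show y + 14 * (m : ℤ) + 1 = y + 1 + 14 * (m : ℤ) by ring]
      push_cast
      exact Int.add_emod_right _ _
    rw [h1]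

theorem wind_near : ∀ η > (0 : ℝ), ∃ δ > (0 : ℝ), ∀ p : I, half ≤ p → ∀ m : ℕ, 1 ≤ m →
    1 - δ ≤ Pr p {ω | HCross ω 0 (4 * m) 0 (4 * m)} → 1 - η ≤ Pr p (Wind (14 * m)) := by
  intro η hη
  obtain ⟨δ, hδ, H⟩ := strong_rsw (η / 4) (by positivity)
  refine ⟨δ, hδ, fun p hp m hm h => ?_⟩
  have h0 := H p hp m hm h
  have hm' : (1 : ℤ) ≤ m := by exact_mod_cast hm
  have hN : ((14 * m : ℕ) : ℤ) = 14 * m := by push_cast; ring
  have q1 : 1 - η / 4 ≤ Pr p {ω | HCross ω 0 (12 * m) 0 (5 * m)} :=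
    h0.trans (Pr_mono fun ω h => HCross.mono h le_rfl (by omega) (by omega) le_rfl le_rfl)
  have q2 : 1 - η / 4 ≤ Pr p {ω | HCross ω 0 (5 * m) 0 (5 * m)} :=
    h0.trans (Pr_mono fun ω h => HCross.mono h le_rfl (by omega) (by omega) le_rfl le_rfl)
  have p1 : 1 - η / 4 ≤ Pr p {ω | HCross (per (14 * m) ω) 0 (12 * m) 0 (5 * m)} := by
    rw [Pr_per_hcross p (by omega) (by omega)]
    exact q1
  have p2 : 1 - η / 4 ≤ Pr p {ω | HCross (per (14 * m) ω) (7 * m) (19 * m) 0 (5 * m)} := by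
    rw [Pr_per_hcross p (by omega) (by omega)]
    have := Pr_hcross_translate (p := p) (a := 0) (b := 12 * (m : ℤ)) (c := 0)
      (d := 5 * (m : ℤ)) (7 * m) 0
    rw [show (0 : ℤ) + 7 * m = 7 * m by ring, show 12 * (m : ℤ) + 7 * m = 19 * m by ring,
      add_zero, add_zero] at this
    rw [this]
    exact q1
  have p3 : 1 - η / 4 ≤ Pr p {ω | VCross (per (14 * m) ω) (7 * m) (12 * m) 0 (5 * m)} := by
    rw [Pr_per_vcross p (by omega) (by omega), Pr_vcross_eq_hcross]
    have := Pr_hcross_translate (p := p) (a := 0) (b := 5 * (m : ℤ)) (c := 0)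
      (d := 5 * (m : ℤ)) 0 (7 * m)
    rw [show (0 : ℤ) + 7 * m = 7 * m by ring, show 5 * (m : ℤ) + 7 * m = 12 * m by ring,
      add_zero, add_zero] at this
    rw [this]
    exact q2
  have p4 : 1 - η / 4 ≤ Pr p {ω | VCross (per (14 * m) ω) (14 * m) (19 * m) 0 (5 * m)} := by
    rw [Pr_per_vcross p (by omega) (by omega), Pr_vcross_eq_hcross]
    have := Pr_hcross_translate (p := p) (a := 0) (b := 5 * (m : ℤ)) (c := 0)
      (d := 5 * (m : ℤ)) 0 (14 * m)
    rw [show (0 : ℤ) + 14 * m = 14 * m by ring, show 5 * (m : ℤ) + 14 * m = 19 * m by ring,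
      add_zero, add_zero] at this
    rw [this]
    exact q2
  have l2 : LocalOn _ {ω | HCross (per (14 * m) ω) (7 * m) (19 * m) 0 (5 * m)} :=
    wn_local_comp (localOn_hcross (7 * (m : ℤ)) (19 * m) 0 (5 * m))
      (fun e => (e.1 % ((14 * m : ℕ) : ℤ), e.2.1 % ((14 * m : ℕ) : ℤ), e.2.2))
  have l3 : LocalOn _ {ω | VCross (per (14 * m) ω) (7 * m) (12 * m) 0 (5 * m)} :=
    wn_local_comp (localOn_vcross (7 * (m : ℤ)) (12 * m) 0 (5 * m))
      (fun e => (e.1 % ((14 * m : ℕ) : ℤ), e.2.1 % ((14 * m : ℕ) : ℤ), e.2.2))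
  have l4 : LocalOn _ {ω | VCross (per (14 * m) ω) (14 * m) (19 * m) 0 (5 * m)} :=
    wn_local_comp (localOn_vcross (14 * (m : ℤ)) (19 * m) 0 (5 * m))
      (fun e => (e.1 % ((14 * m : ℕ) : ℤ), e.2.1 % ((14 * m : ℕ) : ℤ), e.2.2))
  have i2 := wn_inter (p := p) (A := {ω | HCross (per (14 * m) ω) 0 (12 * m) 0 (5 * m)}) l2
  have i3 := wn_inter (p := p) (A := {ω | HCross (per (14 * m) ω) 0 (12 * m) 0 (5 * m)} ∩
    {ω | HCross (per (14 * m) ω) (7 * m) (19 * m) 0 (5 * m)}) l3
  have i4 := wn_inter (p := p) (A := ({ω | HCross (per (14 * m) ω) 0 (12 * m) 0 (5 * m)} ∩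
    {ω | HCross (per (14 * m) ω) (7 * m) (19 * m) 0 (5 * m)}) ∩
    {ω | VCross (per (14 * m) ω) (7 * m) (12 * m) 0 (5 * m)}) l4
  have hsub : (({ω | HCross (per (14 * m) ω) 0 (12 * m) 0 (5 * m)} ∩
    {ω | HCross (per (14 * m) ω) (7 * m) (19 * m) 0 (5 * m)}) ∩
    {ω | VCross (per (14 * m) ω) (7 * m) (12 * m) 0 (5 * m)}) ∩
    {ω | VCross (per (14 * m) ω) (14 * m) (19 * m) 0 (5 * m)} ⊆ Wind (14 * m) := by
    rintro ω ⟨⟨⟨k1, k2⟩, k3⟩, k4⟩
    obtain ⟨u, hu⟩ := wind_det hm (η := per (14 * m) ω) (wn_per_shift m ω) k1 k2 k3 k4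
    refine ⟨u, 1, 0, one_ne_zero, ?_⟩
    rw [one_mul, zero_mul, add_zero, hN]
    exact hu
  have := Pr_mono (p := p) hsub
  linarith only [p1, p2, p3, p4, i2, i3, i4, this]

theorem wind_half : ∃ c > (0 : ℝ), ∀ m : ℕ, 1 ≤ m → Pr half (Wind (14 * m)) ≤ 1 - c := by
  obtain ⟨c, hc, H⟩ := rsw
  refine ⟨c ^ 4, by positivity, fun m hm => ?_⟩
  have hm' : (1 : ℤ) ≤ m := by exact_mod_cast hm
  have hN : ((14 * m : ℕ) : ℤ) = 14 * m := by push_cast; ring
  set φ : Edge → Edge := fun e =>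
    ((crossed e).1 % ((14 * m : ℕ) : ℤ), (crossed e).2.1 % ((14 * m : ℕ) : ℤ), (crossed e).2.2)
    with hφ
  have p1 : c ≤ Pr half {ω | VCross (dual (per (14 * m) ω)) 0 (5 * m) 0 (12 * m)} := by
    rw [Pr_per_dual_vcross half (by omega) (by omega), rsw_symm_half, Pr_vcross_eq_hcross]
    have := wn_hcross_half H hm 0 0 (12 * m) (by omega) (by omega)
    simpa using this
  have p2 : c ≤ Pr half {ω | VCross (dual (per (14 * m) ω)) 0 (5 * m) (7 * m) (19 * m)} := by
    rw [Pr_per_dual_vcross half (by omega) (by omega), rsw_symm_half, Pr_vcross_eq_hcross]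
    have := wn_hcross_half H hm (7 * m) 0 (12 * m) (by omega) (by omega)
    rw [show 12 * (m : ℤ) + 7 * m = 19 * m by ring, add_zero] at this
    exact this
  have p3 : c ≤ Pr half {ω | HCross (dual (per (14 * m) ω)) 0 (5 * m) (7 * m) (12 * m)} := by
    rw [Pr_per_dual_hcross half (by omega) (by omega), rsw_symm_half]
    have := wn_hcross_half H hm 0 (7 * m) (5 * m) (by omega) (by omega)
    rw [show 5 * (m : ℤ) + 7 * m = 12 * m by ring, add_zero] at this
    exact this
  have p4 : c ≤ Pr half {ω | HCross (dual (per (14 * m) ω)) 0 (5 * m) (14 * m) (19 * m)} := by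
    rw [Pr_per_dual_hcross half (by omega) (by omega), rsw_symm_half]
    have := wn_hcross_half H hm 0 (14 * m) (5 * m) (by omega) (by omega)
    rw [show 5 * (m : ℤ) + 14 * m = 19 * m by ring, add_zero] at this
    exact this
  have key := wn_fkg4_decr (q := half)
    (wn_local_comp_not (localOn_vcross 0 (5 * (m : ℤ)) 0 (12 * m)) φ)
    (wn_local_comp_not (localOn_vcross 0 (5 * (m : ℤ)) (7 * m) (19 * m)) φ)
    (wn_local_comp_not (localOn_hcross 0 (5 * (m : ℤ)) (7 * m) (12 * m)) φ)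
    (wn_local_comp_not (localOn_hcross 0 (5 * (m : ℤ)) (14 * m) (19 * m)) φ)
    (wn_decr_comp_not (incr_vcross 0 (5 * (m : ℤ)) 0 (12 * m)) φ)
    (wn_decr_comp_not (incr_vcross 0 (5 * (m : ℤ)) (7 * m) (19 * m)) φ)
    (wn_decr_comp_not (incr_hcross 0 (5 * (m : ℤ)) (7 * m) (12 * m)) φ)
    (wn_decr_comp_not (incr_hcross 0 (5 * (m : ℤ)) (14 * m) (19 * m)) φ)
  have key2 := (wn_pow4 hc.le p1 p2 p3 p4).trans key
  have h5 : Pr half (Wind (14 * m))ᶜ = 1 - Pr half (Wind (14 * m)) :=
    Pr_compl (localOn_wind (N := 14 * m) (by omega))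
  have h6 : c ^ 4 ≤ Pr half (Wind (14 * m))ᶜ := by
    refine key2.trans (Pr_mono ?_)
    rintro ω ⟨⟨k1, k2⟩, ⟨k3, k4⟩⟩ hW
    have k1' : VCross (dual (per (14 * m) ω)) 0 (5 * m) 0 (12 * m) := k1
    have k2' : VCross (dual (per (14 * m) ω)) 0 (5 * m) (7 * m) (19 * m) := k2
    have k3' : HCross (dual (per (14 * m) ω)) 0 (5 * m) (7 * m) (12 * m) := k3
    have k4' : HCross (dual (per (14 * m) ω)) 0 (5 * m) (14 * m) (19 * m) := k4
    set η : Config := dual (per (14 * m) ω) with hη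
    set ζ : Config := fun e => η (swapE e) with hζ
    have hsw : ∀ e, η e = (fun f => ζ (swapE f)) e := by
      intro e
      simp only [hζ, swapE_swapE]
    have hsw' : η = fun f => ζ (swapE f) := funext hsw
    have r1 : HCross ζ 0 (12 * m) 0 (5 * m) := by
      rw [← vcross_swap, ← hsw']
      exact k1'
    have r2 : HCross ζ (7 * m) (19 * m) 0 (5 * m) := by
      rw [← vcross_swap, ← hsw']
      exact k2'
    have r3 : VCross ζ (7 * m) (12 * m) 0 (5 * m) := by
      rw [hζ, vcross_swap]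
      exact k3'
    have r4 : VCross ζ (14 * m) (19 * m) 0 (5 * m) := by
      rw [hζ, vcross_swap]
      exact k4'
    have hinv : ∀ e, ζ (shiftE (14 * m, 0) e) = ζ e := by
      rintro ⟨x, y, b⟩
      simp only [hζ, hη, swapE, shiftE, add_zero]
      exact wn_dual_shift m ω y x (!b)
    obtain ⟨u, hu⟩ := wind_det hm (η := ζ) hinv r1 r2 r3 r4
    rw [hζ, conn_swap] at hu
    refine wind_exclusion (N := 14 * m) (by omega) hW (u.2, u.1) ?_
    rw [hN]
    exact hu.mono_set (Set.subset_univ _)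
  linarith only [h5, h6]

/-- The winding probability has increased by a constant at a good scale. -/
theorem wind_gap : ∃ δ > (0 : ℝ), ∃ c > (0 : ℝ), ∀ p : I, half ≤ p → ∀ m : ℕ, 1 ≤ m →
    1 - δ ≤ Pr p {ω | HCross ω 0 (4 * m) 0 (4 * m)} →
    c ≤ Pr p (Wind (14 * m)) - Pr half (Wind (14 * m)) := by
  obtain ⟨c, hc, h1⟩ := wind_half
  obtain ⟨δ, hδ, h2⟩ := wind_near (c / 2) (by positivity)
  refine ⟨δ, hδ, c / 2, by positivity, fun p hp m hm h => ?_⟩
  have h3 := h1 m hm
  have h4 := h2 p hp m hm h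
  linarith only [h3, h4]

end Pool.Agent.H83.EX

end

section

/-!
# Exponents of bond percolation on the square lattice from the scaling relations

`L p` is a characteristic length.  From `(p - 1/2) (L p) ^ (s + o(1)) ≍ 1`,
`θ(p) ≍ π₁(L p)`, `σ(1 - p) ≍ (L p)² π₁(L p)²` and `π₁(n) = n ^ (-a + o(1))` we obtain
`β = a / s` and `γ = (2 - 2 a) / s`.
-/

open MeasureTheory ProbabilityTheory unitInterval
open scoped ENNReal

namespace Pool.Agent.H31.EX

open Pool.Agent.H89.Perc

/-- `σ(p) = (1/2 - p) ^ (-γ₀ + o(1))` as `p ↑ 1/2`. -/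
def HasGamma (γ₀ : ℝ) : Prop :=
  ∀ ε > (0 : ℝ), ∃ δ > (0 : ℝ), ∀ p : I, (p : ℝ) < 1 / 2 → 1 / 2 - δ < (p : ℝ) →
    ENNReal.ofReal ((1 / 2 - (p : ℝ)) ^ (-γ₀ + ε)) ≤ Pool.Agent.H85.Gamma.sigma p ∧
      Pool.Agent.H85.Gamma.sigma p ≤ ENNReal.ofReal ((1 / 2 - (p : ℝ)) ^ (-γ₀ - ε))

/-- `γ = (2 - 2 a) / s`. -/
theorem gamma_of_scaling {L : I → ℕ} {a s : ℝ} (ha : 0 < a) (hs : 0 < s)
    (hπ : PN (arm half) a) (hL : PL (fun x => (L (pOf x) : ℝ)) (-(1 / s)))
    (hσ : ∃ c > (0 : ℝ), ∃ C > (0 : ℝ), ∃ δ > (0 : ℝ), ∀ p : I, (1 / 2 : ℝ) < p →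
      (p : ℝ) < 1 / 2 + δ →
      ENNReal.ofReal (c * ((L p : ℝ) ^ 2 * arm half (L p) ^ 2)) ≤
        Pool.Agent.H85.Gamma.sigma (σ p) ∧
      Pool.Agent.H85.Gamma.sigma (σ p) ≤
        ENNReal.ofReal (C * ((L p : ℝ) ^ 2 * arm half (L p) ^ 2))) :
    HasGamma ((2 - 2 * a) / s) := by
  obtain ⟨c, hc, C, hC, δ, hδ, h⟩ := hσ
  have h1 : PL (fun x => arm half (L (pOf x))) (a * (1 / s)) :=
    PL.comp (L := fun x => L (pOf x)) ha (by positivity) hπ hL
  have h2 : PL (fun x => (L (pOf x) : ℝ) ^ 2 * arm half (L (pOf x)) ^ 2)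
      (-((2 - 2 * a) / s)) := by
    have h3 := hL.pow_two.mul h1.pow_two
    have e : 2 * -(1 / s) + 2 * (a * (1 / s)) = -((2 - 2 * a) / s) := by field_simp; ring
    rw [e] at h3
    exact h3
  have hlow : PL (fun x => c * ((L (pOf x) : ℝ) ^ 2 * arm half (L (pOf x)) ^ 2))
      (-((2 - 2 * a) / s)) :=
    h2.of_between hc hc one_pos fun x _ _ => ⟨le_rfl, le_rfl⟩
  have hupp : PL (fun x => C * ((L (pOf x) : ℝ) ^ 2 * arm half (L (pOf x)) ^ 2))
      (-((2 - 2 * a) / s)) :=
    h2.of_between hC hC one_pos fun x _ _ => ⟨le_rfl, le_rfl⟩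
  intro ε hε
  obtain ⟨δ₁, hδ₁, h3⟩ := hlow ε hε
  obtain ⟨δ₂, hδ₂, h4⟩ := hupp ε hε
  refine ⟨min (min δ₁ δ₂) (min δ (1 / 2)),
    lt_min (lt_min hδ₁ hδ₂) (lt_min hδ (by norm_num)), fun p hp hp1 => ?_⟩
  have m1 : (1 / 2 : ℝ) - p < min (min δ₁ δ₂) (min δ (1 / 2)) := by linarith only [hp1]
  have m2 : (1 / 2 : ℝ) - p < δ₁ := m1.trans_le ((min_le_left _ _).trans (min_le_left _ _))
  have m3 : (1 / 2 : ℝ) - p < δ₂ := m1.trans_le ((min_le_left _ _).trans (min_le_right _ _))
  have m4 : (1 / 2 : ℝ) - p < δ := m1.trans_le ((min_le_right _ _).trans (min_le_left _ _))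
  have m5 : (1 / 2 : ℝ) - p < 1 / 2 := m1.trans_le ((min_le_right _ _).trans (min_le_right _ _))
  have hsp : ((σ p : I) : ℝ) = 1 - p := unitInterval.coe_symm_eq p
  have hq : pOf ((1 / 2 : ℝ) - p) = σ p := by
    have e : (1 / 2 : ℝ) - p = ((σ p : I) : ℝ) - 1 / 2 := by rw [hsp]; ring
    rw [e]
    exact pOf_sub (by rw [hsp]; linarith only [hp]) (by rw [hsp]; linarith only [m5])
  have h5 := h (σ p) (by rw [hsp]; linarith only [hp]) (by rw [hsp]; linarith only [m4])
  rw [unitInterval.symm_symm] at h5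
  have h6 := (h3 ((1 / 2 : ℝ) - p) (by linarith only [hp]) m2).1
  have h7 := (h4 ((1 / 2 : ℝ) - p) (by linarith only [hp]) m3).2
  simp only [hq] at h6 h7
  exact ⟨(ENNReal.ofReal_le_ofReal h6).trans h5.1, h5.2.trans (ENNReal.ofReal_le_ofReal h7)⟩

end Pool.Agent.H31.EX

end

section

/-!
# Geometry of the corridors on the cylinder

`n ≥ 256 k`.  The corridor of `x` goes from the east mouth of the box around `0` to the right and then
down to the east mouth of the copy of the box at `(n, -n)`; the corridor of `y` is its image under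
`v ↦ -v`.
-/

set_option autoImplicit false

open MeasureTheory ProbabilityTheory unitInterval

namespace Pool.Agent.H47.EX

open Pool.Agent.H89.Perc hiding per
open Pool.Agent.H59.EX
open Pool.Agent.H89.Link (per base per_eq)

/-! ### Periods -/

theorem per_gam (n : ℕ) (ω : Config) : ∀ z ∈ gam n, ∀ e, per n ω (shiftE z e) = per n ω e := by
  intro z hz e
  obtain ⟨j, rfl⟩ := mem_gam.1 hz
  exact Pool.Agent.H89.Link.per_shift n ω e j

theorem base_shift (n : ℕ) {z : Vert} (hz : z ∈ gam n) (e : Edge) :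
    base n (shiftE z e) = base n e := by
  obtain ⟨j, rfl⟩ := mem_gam.1 hz
  obtain ⟨a, b, t⟩ := e
  simp only [base, shiftE, Int.add_mul_emod_self_left, Prod.mk.injEq, and_true, true_and]
  ring

theorem base_eq_iff {n : ℕ} {e e' : Edge} :
    base n e = base n e' ↔ ∃ z ∈ gam n, e' = shiftE z e := by
  constructor
  · intro h
    obtain ⟨a, b, t⟩ := e
    obtain ⟨a', b', t'⟩ := e'
    simp only [base, Prod.mk.injEq] at h
    obtain ⟨h1, h2, h3⟩ := h
    obtain ⟨j, hj⟩ := (Int.ModEq.dvd h1 : (n : ℤ) ∣ a' - a)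
    refine ⟨((n : ℤ) * j, -((n : ℤ) * j)), mem_gam.2 ⟨j, rfl⟩, ?_⟩
    simp only [shiftE, Prod.mk.injEq]
    refine ⟨by omega, by omega, h3.symm⟩
  · rintro ⟨z, hz, rfl⟩
    rw [base_shift n hz]

theorem det_eq (n : ℕ) (d d' : Side) (k : ℕ) (C S : Set Vert) :
    det (base n) d d' k C S = pedge (gam n) (touch (dom d d' k) S ∪ inE C) := by
  ext e
  constructor
  · rintro ⟨e', he', h⟩
    obtain ⟨z, hz, rfl⟩ := base_eq_iff.1 h
    exact ⟨z, hz, he'⟩
  · rintro ⟨z, hz, he⟩
    exact ⟨_, he, (base_shift n hz e).symm⟩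

/-! ### The window -/

theorem base_injOn_win (n : ℕ) (hn : 1 ≤ n) : Set.InjOn (base n) (inE (Win n)) := by
  intro e he e' he' h
  obtain ⟨z, hz, rfl⟩ := base_eq_iff.1 h
  obtain ⟨h2, hc⟩ := gam_cases hz
  have hn' : (1 : ℤ) ≤ n := by exact_mod_cast hn
  rcases hc with h0 | hc
  · rw [h0, shiftE_zero]
  · exfalso
    simp only [inE, Win, Set.mem_ofPred_eq, src_shiftE, tgt_shiftE, Prod.fst_add,
      Prod.snd_add] at he he'
    obtain ⟨a, b, t⟩ := e
    cases t
    · simp only [src, tgt, Bool.false_eq_true, if_false] at he he'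
      omega
    · simp only [src, tgt, if_true] at he he'
      omega

/-! ### The corridors -/

/-- The corridors in the window. -/
def CC (n k : ℕ) : Set Vert := pset (gam n) (XX n k ∪ YY n k) ∩ Win n

variable {n k : ℕ}

theorem CC_sub : CC n k ⊆ pset (gam n) (XX n k) ∪ pset (gam n) (YY n k) := by
  rintro v ⟨⟨z, hz, h | h⟩, -⟩
  · exact Or.inl ⟨z, hz, h⟩
  · exact Or.inr ⟨z, hz, h⟩

theorem T_CC (hk : 1 ≤ k) (hn : 256 * k ≤ n) : T .E k ∪ T .W k ⊆ CC n k := by
  intro a ha
  refine ⟨pset_sub _ ?_, dom_win hk hn (Or.inr ha)⟩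
  rcases ha with ha | ha
  · exact Or.inl (TE_XX hk hn ha)
  · exact Or.inr (TW_YY hk hn ha)

theorem CC_dom (hk : 1 ≤ k) (hn : 256 * k ≤ n) :
    CC n k ∩ dom .E .W k ⊆ T .E k ∪ T .W k := by
  rintro a ⟨⟨⟨z, hz, h⟩, -⟩, hd⟩
  have hz0 : -z = 0 := one_sheet hk hn (a := a + z) (b := a + z) (z := -z) (Or.inr h)
    ((gam n).neg_mem hz) (by rw [add_neg_cancel_right]; exact hd) self_mem_ball
  rw [neg_eq_zero.1 hz0, add_zero] at h
  rcases h with h | h
  · exact Or.inl (XX_dom hk hn h hd)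
  · exact Or.inr (YY_dom hk hn h hd)

theorem CC_finite (hk : 1 ≤ k) (hn : 256 * k ≤ n) : (CC n k).Finite := by
  have hk' : (1 : ℤ) ≤ k := by exact_mod_cast hk
  have hn' : 256 * (k : ℤ) ≤ n := by exact_mod_cast hn
  refine Set.Finite.subset (Set.finite_Icc ((-(2 * n : ℤ), -(2 * n : ℤ)) : ℤ × ℤ)
    ((2 * n : ℤ), (2 * n : ℤ))) ?_
  rintro v ⟨⟨z, hz, h⟩, hw⟩
  obtain ⟨h2, -⟩ := gam_cases hz
  simp only [Win, Set.mem_ofPred_eq] at hw
  rw [Set.mem_union, mem_XX, mem_YY, Prod.fst_add, Prod.snd_add, h2] at h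
  rw [Set.mem_Icc, Prod.le_def, Prod.le_def]
  simp only
  omega

theorem inj_CC (hk : 1 ≤ k) (hn : 256 * k ≤ n) :
    Set.InjOn (base n) (inE (dom .E .W k ∪ CC n k)) := by
  refine (base_injOn_win n (by omega)).mono ?_
  rintro e ⟨h1, h2⟩
  have key : dom .E .W k ∪ CC n k ⊆ Win n := by
    rintro v (hv | hv)
    · exact dom_win hk hn hv
    · exact hv.2
  exact ⟨key h1, key h2⟩

/-- Every edge of the corridors is a translate of an edge of `CC`. -/
theorem exists_CC (hn : 1 ≤ n) {e : Edge} (he : e ∈ inE (pset (gam n) (XX n k ∪ YY n k))) :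
    ∃ e' ∈ inE (CC n k), base n e' = base n e := by
  obtain ⟨z, hz, h⟩ := exists_win n hn e
  refine ⟨shiftE z e, ⟨⟨?_, h.1⟩, ⟨?_, h.2⟩⟩, base_shift n hz e⟩
  · rw [src_shiftE, pset_add hz]
    exact he.1
  · rw [tgt_shiftE, pset_add hz]
    exact he.2

end Pool.Agent.H47.EX

end

section

/-!
# The separated event of the diagonal source is not empty
-/

set_option autoImplicit false

open MeasureTheory ProbabilityTheory unitInterval

namespace Pool.Agent.H47.EX

open Pool.Agent.H89.Perc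
open Pool.Agent.H59.EX
open Pool.Agent.H89.Link (xx yy)

variable {k : ℕ}

private theorem fill_et (hk : 1 ≤ k) {e : Edge}
    (h : fillV (T .W k ∪ T .E k) (srcD.cut (et k)) e = true) :
    e ∈ inE (AX k) ∨ e ∈ inE (AY k) := by
  rw [cut_srcD] at h
  rcases fillV_true.1 h with h | ⟨h1, h2⟩
  · exact et_true.1 h
  · have hadj : tgt e ∈ ball (src e) 1 := ball_one_of_joins (joins_src_tgt e)
    rw [mem_ball] at hadj
    have hk' : (1 : ℤ) ≤ k := by exact_mod_cast hk
    rcases h1 with h1 | h1 <;> rcases h2 with h2 | h2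
    · exact Or.inl ⟨Or.inr h1, Or.inr h2⟩
    · exfalso
      rw [mem_TW] at h1
      rw [mem_TE] at h2
      omega
    · exfalso
      rw [mem_TE] at h1
      rw [mem_TW] at h2
      omega
    · exact Or.inr ⟨Or.inr h1, Or.inr h2⟩

private theorem in_AX (hk : 1 ≤ k) {v : Vert}
    (h : Conn (fillV (T .W k ∪ T .E k) (srcD.cut (et k))) (dom .W .E k) xx v) : v ∈ AX k := by
  refine h.induction_right (P := fun v => v ∈ AX k) (Or.inl ⟨rfl, ?_, le_rfl⟩) ?_
  · simp only [xx]
    omega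
  · rintro a b _ ⟨-, -, e, hj, ho⟩ ih
    rcases fill_et hk ho with h1 | h1
    · exact (joins_inE hj h1).2
    · exact (A_disj hk ih (joins_inE hj h1).1).elim

private theorem in_AY (hk : 1 ≤ k) {v : Vert}
    (h : Conn (fillV (T .W k ∪ T .E k) (srcD.cut (et k))) (dom .W .E k) yy v) : v ∈ AY k := by
  have hk' : (1 : ℤ) ≤ k := by exact_mod_cast hk
  refine h.induction_right (P := fun v => v ∈ AY k) (Or.inl ⟨rfl, le_rfl, ?_⟩) ?_
  · simp only [yy]
    omega
  · rintro a b _ ⟨-, -, e, hj, ho⟩ ih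
    rcases fill_et hk ho with h1 | h1
    · exact (A_disj hk (joins_inE hj h1).1 ih).elim
    · exact (joins_inE hj h1).2

private theorem conn_et {S S' : Set Vert} (hS : S ⊆ AX k ∨ S ⊆ AY k) (hS' : S ⊆ S') {u v : Vert}
    (h : Conn allOpen S u v) : Conn (srcD.cut (et k)) S' u v := by
  rw [cut_srcD]
  refine (h.congr (ω' := et k) fun e h1 h2 => ?_).mono_set hS'
  symm
  refine et_true.2 ?_
  rcases hS with hS | hS
  · exact Or.inl ⟨hS h1, hS h2⟩
  · exact Or.inr ⟨hS h1, hS h2⟩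

/-- The separated event of the diagonal source is not empty. -/
theorem sep_srcD_nonempty {k : ℕ} (hk : 1 ≤ k) : (Sep srcD .W .E k).Nonempty := by
  have hk' : (1 : ℤ) ≤ k := by exact_mod_cast hk
  have hAX : AX k ⊆ dom .W .E k := by
    intro v hv
    rw [mem_AX] at hv
    rw [mem_dom']
    omega
  have hAY : AY k ⊆ dom .W .E k := by
    intro v hv
    rw [mem_AY] at hv
    rw [mem_dom']
    omega
  refine ⟨et k, ?_, ?_, ?_, ?_, ?_⟩
  · refine ⟨(-(30 * k : ℤ), -(3 * k : ℤ)), (-(30 * k : ℤ), (3 * k : ℤ)), rfl, rfl, ?_, ?_⟩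
    · refine conn_et (S := T .W k) (Or.inl fun _ h => Or.inr h) subset_rfl
        (ArmBoxLower.line_v' _ _ _ _ (by omega) fun t h1 h2 => ?_)
      rw [mem_TW]
      simp only
      omega
    · refine conn_et (S := AX k) (Or.inl subset_rfl) hAX ?_
      have h1 : Conn allOpen (AX k) (-(30 * k : ℤ), 0) (0, 0) :=
        ArmBoxLower.line_h' _ _ _ _ (by omega) fun t h1 h2 => Or.inl (by
          simp only [Set.mem_ofPred_eq, true_and]
          omega)
      have h2 : Conn allOpen (AX k) (-(30 * k : ℤ), -(3 * k : ℤ)) (-(30 * k : ℤ), 0) :=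
        ArmBoxLower.line_v' _ _ _ _ (by omega) fun t h1 h2 => Or.inr (by
          rw [mem_TW]
          simp only
          omega)
      exact (h2.trans h1).symm
  · refine ⟨((30 * k : ℤ), -(3 * k : ℤ)), ((30 * k : ℤ), (3 * k : ℤ)), rfl, rfl, ?_, ?_⟩
    · refine conn_et (S := T .E k) (Or.inr fun _ h => Or.inr h) subset_rfl
        (ArmBoxLower.line_v' _ _ _ _ (by omega) fun t h1 h2 => ?_)
      rw [mem_TE]
      simp only
      omega
    · refine conn_et (S := AY k) (Or.inr subset_rfl) hAY ?_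
      have h1 : Conn allOpen (AY k) (1, -1) ((30 * k : ℤ), -1) :=
        ArmBoxLower.line_h' _ _ _ _ (by omega) fun t h1 h2 => Or.inl (by
          simp only [Set.mem_ofPred_eq, true_and]
          omega)
      have h2 : Conn allOpen (AY k) ((30 * k : ℤ), -(3 * k : ℤ)) ((30 * k : ℤ), -1) :=
        ArmBoxLower.line_v' _ _ _ _ (by omega) fun t h1 h2 => Or.inr (by
          rw [mem_TE]
          simp only
          omega)
      exact h1.trans h2.symm
  · intro h
    have h1 := in_AX hk h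
    rw [mem_AX] at h1
    simp only [srcD, yy] at h1
    omega
  · intro v hv h
    have h1 := in_AX hk h
    obtain ⟨h2, h3⟩ := hv
    rw [mem_AX] at h1
    rw [mem_ball] at h2
    simp only [Prod.fst_zero, Prod.snd_zero, zero_sub, zero_add] at h2 h3
    rw [mem_MW]
    push_cast at h2 h3
    omega
  · intro v hv h
    have h1 := in_AY hk h
    obtain ⟨h2, h3⟩ := hv
    rw [mem_AY] at h1
    rw [mem_ball] at h2
    simp only [Prod.fst_zero, Prod.snd_zero, zero_sub, zero_add] at h2 h3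
    rw [mem_ME]
    push_cast at h2 h3
    omega

end Pool.Agent.H47.EX

end

section

/-!
# LINK module `Fc`: the event `Fc` implies the four-leg event

`η = per n ω`, `Conn η univ` is an equivalence relation; it is invariant under the translation by `(n, -n)`.
Clusters `C_k` = cluster of `y + k (n, -n)`; `y` is joined to `(n, -n) = x + (n, -n)`, so
`C_k` = cluster of `x + (k+1) (n, -n)`.
(1) `C_i ≠ C_j` for `i ≠ j`: by translation take `i = 0`; `j = -1`: `C_{-1}` = cluster of `x` (not joined to `y`);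
`j = 1`: by translation; `|j| ≥ 2`: `y + j (n, -n)` has `v.1 - v.2 = 2 + 2 n j`, which is not in `(-n, 3n)`.
(2) Primal colours: `F v` = cluster of `v` (type `Set Vert`, `F v = {u | Conn η univ v u}`), constant along open edges,
so `F (pv c)` is invariant under the steps of the composite graph (for `inl c` and `inr c`).
The home columns are `c = L a` (`pv c = x + a (n, -n)`) and `c = L a + 1` (`pv c = y + a (n, -n)`).
(3) Dual colours: path sum `c` of the path from `y` to `(n, -n)` in the strip, plus the edges `(0, 0, false)` and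
`(1, -1, true)` shifted by `(n, -n)`, (so that it becomes a path sum from `y` to `y + (n, -n)`), periodised by
`exists_perSum`: `A`, all degrees even, supported in the strip `H` (`H ≥ 2` because `n ≥ 2`), and open edges
except the gates `(0, 0, false) + k (n, -n)`, `(1, -1, true) + k (n, -n)`.  `G' = pot A H` (periodic).
`Gu f = G' f + 1` if `f = q + k (n, -n)` for some `k` (`q = (0, -1)`), else `G' f`; `Gd = G'`.
For closed `e` in rows `≥ 0`: `Gu (lowFace e) = Gu (src e)` (the edges of rows `≥ 0` around `q` are the gates); for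
closed `e` in rows `< 0`: `Gd (lowFace e) = Gd (src e)`.  `Gu = 0` on level `h ≥ H`, `Gd` constant on level `-h`.
So `inl c ↦ Gu (dv c)`, `inr c ↦ Gd (dv c)` is invariant under the steps (for `c` not home `dv c` is not a translate of
`q`); all `inl` home nodes have colour `G' q + 1` and all `inr` home nodes have colour `G' q`.
(4) `Leg`: if `hpos u a` and `hpos v b` are connected then `u`, `v` are both `inl` or both `inr` by (3), and by (1), (2)
`a - 1 = b - 1` (`u = v` = strand 0), `a = b` (`u = v` = strand 1), or `a - 1 = b`, or `a = b - 1`.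
-/

set_option autoImplicit false

namespace H56.EX

end H56.EX

namespace Pool.Agent.H89.Link

open H56.EX
open Pool.Agent.H89.Perc (Vert Edge Config src tgt lowFace vsum)

variable {L n : ℕ}

end Pool.Agent.H89.Link

end

section

/-!
# LINK module `Fc2`: two disjoint winding clusters at the pair `x`, `y` imply the four-leg event

`Fc2 n H`: `x` is joined to `x + (n, -n)` and `y` to `y + (n, -n)` in the strip, and `x` is not joined
to `y`.  `leg_of_wind`: `per n ω ∈ Fc2 n H` implies `Leg 2 2 (L - 2) (up s n h ω) (dn s n h ω)`.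
-/

set_option autoImplicit false

open MeasureTheory ProbabilityTheory Filter Topology

namespace H56.EX

end H56.EX

namespace Pool.Agent.H89.Link

open H56.EX
open Pool.Agent.H89.Perc (Vert Edge Config Pr half src tgt lowFace vsum)

variable {L n : ℕ}

end Pool.Agent.H89.Link

end

section

/-!
# LINK module `CylArm`: an arm of the plane can be completed to a winding path on the cylinder

`n = 16 m`, `η = per n ω`.  Events for `η`, all increasing and local:
* `A = Arm 0 (2 m)`;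
* `T` = `HCross η (-2m) (2m) m (2m)`, `B` = `HCross η (-2m) (2m) (-2m) (-m)`, `Le` = `VCross η (-2m) (-m) (-2m) (2m)`,
  `Ri` = `VCross η m (2m) (-2m) (2m)` (four `4 : 1` rectangles around `ball 0 m`);
* `R1` = `HCross η (-2m) (18m) (-m) m`, `R2` = `VCross η (15m) (17m) (-18m) (2m)`.
Determinism.  An open path from `0` to `sphere 0 (2m)` in `ball 0 (2m)` ends on one of the four sides; by `hv_meet` (or
`Conn.cross_x/cross_y` + `cross`) it meets the crossing of the corresponding rectangle.  The four crossings meet pairwise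
in the corners (`hv_meet`), `Le` meets `R1`, `R1` meets `R2`.  `R2` meets the translate by `(n, -n)` of `B`
(`HCross η (14m) (18m) (-18m) (-17m)`), which exists because `η` has period `(n, -n)` (`conn_sh` in `Link/Fc.lean`); the
translate of the whole picture joins it to `(n, -n)`.  Everything is in `strip (64 m)`.
Probability.  `Pr half {ω | per n ω ∈ E} = Pr half E` for each of the seven events (`pr_per`: `base n` is injective on
`eRect a b c d` if `b - a < n` or `d - c < n`, because `base n e = base n e'` forces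
`e' = (e.1 + n k, e.2.1 - n k, e.2.2)`).  `ω ↦ per n ω` is monotone and local, so FKG (`Perc.fkg`) holds for these events;
`rsw` and `long_rsw` bound the crossing probabilities from below (translate, reflect: `Pr_hcross_translate`,
`Pr_vcross_eq_hcross`); the `20m x 2m` rectangles have aspect ratio 10.
-/

set_option autoImplicit false

open MeasureTheory ProbabilityTheory

namespace Pool.Agent.H89.Link

open Pool.Agent.H89.Perc (Vert Edge Config Pr half)

theorem cylArm_localOn_per (n : ℕ) {s : Finset Edge} {A : Set Config} (hA : Perc.LocalOn s A) :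
    Perc.LocalOn (s.image (base n)) {ω | per n ω ∈ A} := by
  intro ω ω' h hA'
  refine hA _ _ (fun e he => ?_) hA'
  rw [per_eq, per_eq]
  exact h _ (Finset.mem_image_of_mem _ he)

theorem cylArm_incr_per (n : ℕ) {A : Set Config} (iA : Perc.Incr A) :
    Perc.Incr {ω | per n ω ∈ A} := by
  intro ω ω' h hA'
  exact iA _ _ (fun e he => h _ he) hA'

/-- FKG on the cylinder. -/
theorem fkg_per (p : unitInterval) (n : ℕ) {s t : Finset Edge} {A B : Set Config}
    (hA : Perc.LocalOn s A) (hB : Perc.LocalOn t B) (iA : Perc.Incr A) (iB : Perc.Incr B) :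
    Pr p {ω | per n ω ∈ A} * Pr p {ω | per n ω ∈ B} ≤ Pr p {ω | per n ω ∈ A ∩ B} := by
  have h := Perc.fkg (p := p) (cylArm_localOn_per n hA) (cylArm_localOn_per n hB)
    (cylArm_incr_per n iA) (cylArm_incr_per n iB)
  exact h

/-- `base n` is injective on a rectangle which is narrow in one direction. -/
theorem base_injOn_rect {n : ℕ} {a b c d : ℤ} (h : b - a < n ∨ d - c < n) :
    Set.InjOn (base n) {e : Edge | a ≤ e.1 ∧ e.1 ≤ b ∧ c ≤ e.2.1 ∧ e.2.1 ≤ d} := by
  rintro ⟨x, y, o⟩ ⟨h1, h2, h3, h4⟩ ⟨x', y', o'⟩ ⟨h1', h2', h3', h4'⟩ he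
  simp only [base, Prod.mk.injEq] at he
  simp only at h1 h2 h3 h4 h1' h2' h3' h4'
  obtain ⟨e1, e2, e3⟩ := he
  have hd : (n : ℤ) ∣ x - x' := Int.ModEq.dvd (Eq.symm e1)
  have h0 : x - x' = 0 := by
    rcases h with h | h
    · have hlt : |x - x'| < (n : ℤ) := by
        rw [abs_lt]
        constructor <;> omega
      exact Int.eq_zero_of_abs_lt_dvd hd hlt
    · have hxy : x - x' = y' - y := by omega
      have hlt : |x - x'| < (n : ℤ) := by
        rw [hxy, abs_lt]
        constructor <;> omega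
      exact Int.eq_zero_of_abs_lt_dvd hd hlt
  have hx : x = x' := by omega
  subst hx
  have hy : y = y' := by omega
  subst hy
  subst e3
  rfl

/-- Translation by a period, with sets. -/
theorem cylArm_conn_sh (n : ℕ) (ω : Config) (k : ℤ) {S S' : Set Vert}
    (hS : ∀ w ∈ S, sh n k w ∈ S') {u v : Vert} (h : Perc.Conn (per n ω) S u v) :
    Perc.Conn (per n ω) S' (sh n k u) (sh n k v) := by
  refine h.induction_right (P := fun x => Perc.Conn (per n ω) S' (sh n k u) (sh n k x))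
    (Perc.Conn.refl (hS _ h.mem_left)) ?_
  rintro a b _ ⟨ha, hb, e, he, ho⟩ ih
  refine ih.tail ⟨hS _ ha, hS _ hb, she n k e, ?_, ?_⟩
  · rcases he with ⟨h1, h2⟩ | ⟨h1, h2⟩
    · left; rw [src_she, tgt_she, ← h1, ← h2]; exact ⟨rfl, rfl⟩
    · right; rw [src_she, tgt_she, ← h1, ← h2]; exact ⟨rfl, rfl⟩
  · have := per_shift n ω e k
    rw [show she n k e = (e.1 + n * k, e.2.1 - n * k, e.2.2) from rfl, this]
    exact ho

/-- The deterministic part. -/
theorem cylArm_det {m : ℕ} (hm : 1 ≤ m) {ω : Config} (hA : per (16 * m) ω ∈ Perc.Arm 0 (2 * m))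
    (hT : Perc.HCross (per (16 * m) ω) (-(2 * m)) (2 * m) m (2 * m))
    (hB : Perc.HCross (per (16 * m) ω) (-(2 * m)) (2 * m) (-(2 * m)) (-m))
    (hL : Perc.VCross (per (16 * m) ω) (-(2 * m)) (-m) (-(2 * m)) (2 * m))
    (hR : Perc.VCross (per (16 * m) ω) m (2 * m) (-(2 * m)) (2 * m))
    (h1 : Perc.HCross (per (16 * m) ω) (-(2 * m)) (18 * m) (-m) m)
    (h2 : Perc.VCross (per (16 * m) ω) (15 * m) (17 * m) (-(18 * m)) (2 * m)) :
    Perc.Conn (per (16 * m) ω) (strip (64 * m)) 0 (((16 * m : ℕ) : ℤ), -((16 * m : ℕ) : ℤ)) := by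
  set η := per (16 * m) ω with hη
  have hM : (1 : ℤ) ≤ (m : ℤ) := by exact_mod_cast hm
  set M : ℤ := (m : ℤ) with hMdef
  obtain ⟨tu, tv, htu, htv, cT⟩ := hT
  obtain ⟨bu, bv, hbu, hbv, cB⟩ := hB
  obtain ⟨lu, lv, hlu, hlv, cL⟩ := hL
  obtain ⟨ru, rv, hru, hrv, cR⟩ := hR
  obtain ⟨xu, xv, hxu, hxv, cX⟩ := h1
  obtain ⟨yu, yv, hyu, hyv, cY⟩ := h2
  obtain ⟨w, hw, cA⟩ := hA
  have hball : Perc.ball 0 (2 * m) = Perc.rect (-(2 * M)) (2 * M) (-(2 * M)) (2 * M) := by
    simp [Perc.ball, hMdef]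
  rw [hball] at cA
  -- inclusions in the strip
  have sub : ∀ a b c d : ℤ, -(64 * M) < a + c → b + d < 64 * M →
      Perc.rect a b c d ⊆ strip (64 * m) := by
    intro a b c d h1 h2 v hv
    simp only [Perc.rect, Set.mem_ofPred_eq] at hv
    simp only [strip, Set.mem_ofPred_eq]
    push_cast
    omega
  have hwc : w.1 = -(2 * M) ∨ w.1 = 2 * M ∨ w.2 = -(2 * M) ∨ w.2 = 2 * M := by
    have := hw.2
    simpa [hMdef] using this
  -- the crossings meet
  obtain ⟨z1, a1, b1⟩ := H85.Strict.hv_meet cT (by omega) (by omega) cL (by omega) (by omega) (by omega) (by omega)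
  obtain ⟨z2, a2, b2⟩ := H85.Strict.hv_meet cT (by omega) (by omega) cR (by omega) (by omega) (by omega) (by omega)
  obtain ⟨z3, a3, b3⟩ := H85.Strict.hv_meet cB (by omega) (by omega) cL (by omega) (by omega) (by omega) (by omega)
  obtain ⟨z4, a4, b4⟩ := H85.Strict.hv_meet cX (by omega) (by omega) cL (by omega) (by omega) (by omega) (by omega)
  obtain ⟨z5, a5, b5⟩ := H85.Strict.hv_meet cX (by omega) (by omega) cY (by omega) (by omega) (by omega) (by omega)
  -- connections in the strip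
  have sT := sub (-(2 * M)) (2 * M) M (2 * M) (by omega) (by omega)
  have sB := sub (-(2 * M)) (2 * M) (-(2 * M)) (-M) (by omega) (by omega)
  have sL := sub (-(2 * M)) (-M) (-(2 * M)) (2 * M) (by omega) (by omega)
  have sR := sub M (2 * M) (-(2 * M)) (2 * M) (by omega) (by omega)
  have sX := sub (-(2 * M)) (18 * M) (-M) M (by omega) (by omega)
  have sY := sub (15 * M) (17 * M) (-(18 * M)) (2 * M) (by omega) (by omega)
  have sA := sub (-(2 * M)) (2 * M) (-(2 * M)) (2 * M) (by omega) (by omega)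
  have kTL : Perc.Conn η (strip (64 * m)) tu lu := (a1.mono_set sT).trans (b1.mono_set sL).symm
  have kTR : Perc.Conn η (strip (64 * m)) tu ru := (a2.mono_set sT).trans (b2.mono_set sR).symm
  have kBL : Perc.Conn η (strip (64 * m)) bu lu := (a3.mono_set sB).trans (b3.mono_set sL).symm
  have kXL : Perc.Conn η (strip (64 * m)) xu lu := (a4.mono_set sX).trans (b4.mono_set sL).symm
  have kXY : Perc.Conn η (strip (64 * m)) xu yu := (a5.mono_set sX).trans (b5.mono_set sY).symm
  -- the arm meets the circuit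
  have k0L : Perc.Conn η (strip (64 * m)) 0 lu := by
    have h00 : (0 : Vert).1 = 0 := rfl
    have h01 : (0 : Vert).2 = 0 := rfl
    rcases hwc with h | h | h | h
    · obtain ⟨z, k1, k2⟩ := H85.Strict.hv_meet cA.symm (a₂ := -(2 * M)) (b₂ := -M) (by omega)
        (by rw [h00]; omega) cL (by omega) (by omega) (by omega) (by omega)
      exact ((cA.mono_set sA).trans (k1.mono_set sA)).trans (k2.mono_set sL).symm
    · obtain ⟨z, k1, k2⟩ := H85.Strict.hv_meet cA (a₂ := M) (b₂ := 2 * M) (by rw [h00]; omega)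
        (by omega) cR (by omega) (by omega) (by omega) (by omega)
      exact (((k1.mono_set sA).trans (k2.mono_set sR).symm).trans kTR.symm).trans kTL
    · obtain ⟨z, k1, k2⟩ := H85.Strict.hv_meet cB (a₂ := -(2 * M)) (b₂ := 2 * M) (by omega)
        (by omega) cA.symm (by omega) (by rw [h01]; omega) (by omega) (by omega)
      exact (((cA.mono_set sA).trans (k2.mono_set sA)).trans (k1.mono_set sB).symm).trans kBL
    · obtain ⟨z, k1, k2⟩ := H85.Strict.hv_meet cT (a₂ := -(2 * M)) (b₂ := 2 * M) (by omega)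
        (by omega) cA (by rw [h01]; omega) (by omega) (by omega) (by omega)
      exact ((k2.mono_set sA).trans (k1.mono_set sT).symm).trans kTL
  -- the translate of `B`
  have cB' := cylArm_conn_sh (16 * m) ω 1 (S' := Perc.rect (14 * M) (18 * M) (-(18 * M)) (-(17 * M)))
    (fun v hv => by
      simp only [Perc.rect, Set.mem_ofPred_eq, sh] at hv ⊢
      push_cast
      omega) cB
  have hbu' : (sh (16 * m) 1 bu).1 = 14 * M := by
    simp only [sh]
    push_cast
    omega
  have hbv' : (sh (16 * m) 1 bv).1 = 18 * M := by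
    simp only [sh]
    push_cast
    omega
  obtain ⟨z6, a6, b6⟩ := H85.Strict.hv_meet cB' (by omega) (by omega) cY (by omega) (by omega)
    (by omega) (by omega)
  have sB' := sub (14 * M) (18 * M) (-(18 * M)) (-(17 * M)) (by omega) (by omega)
  have k1 : Perc.Conn η (strip (64 * m)) yu (sh (16 * m) 1 bu) :=
    (b6.mono_set sY).trans (a6.mono_set sB').symm
  have k2 : Perc.Conn η (strip (64 * m)) (sh (16 * m) 1 bu) (sh (16 * m) 1 0) := by
    refine cylArm_conn_sh (16 * m) ω 1 ?_ (kBL.trans k0L.symm)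
    intro v hv
    simp only [strip, Set.mem_ofPred_eq, sh] at hv ⊢
    omega
  have k3 : sh (16 * m) 1 0 = (((16 * m : ℕ) : ℤ), -((16 * m : ℕ) : ℤ)) := by
    simp [sh]
  rw [← k3]
  exact (((k0L.trans kXL.symm).trans kXY).trans k1).trans k2

theorem cylArm_step (n : ℕ) {s t : Finset Edge} {A B : Set Config} {x y : ℝ}
    (hA : Perc.LocalOn s A) (hB : Perc.LocalOn t B) (iA : Perc.Incr A) (iB : Perc.Incr B)
    (hy0 : 0 ≤ y) (hx : x ≤ Pr half {ω | per n ω ∈ A})
    (hy : y ≤ Pr half {ω | per n ω ∈ B}) : x * y ≤ Pr half {ω | per n ω ∈ A ∩ B} :=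
  (mul_le_mul hx hy hy0 Perc.Pr_nonneg).trans (fkg_per half n hA hB iA iB)

theorem cylArm_injOn {n : ℕ} {a b c d : ℤ} (h : b - a < n ∨ d - c < n) :
    Set.InjOn (base n) (Perc.eRect a b c d : Finset Edge) := by
  refine (base_injOn_rect h).mono ?_
  intro e he
  have he' := Perc.mem_eRect.1 (Finset.mem_coe.1 he)
  exact he'

theorem cylArm_pr_h {n : ℕ} {a b c d : ℤ} (h : b - a < n ∨ d - c < n) :
    Pr half {ω | per n ω ∈ {η : Config | Perc.HCross η a b c d}} =
      Pr half {ω : Config | Perc.HCross ω a b c d} :=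
  pr_per half (cylArm_injOn h) (Perc.localOn_hcross a b c d)

theorem cylArm_pr_v {n : ℕ} {a b c d : ℤ} (h : b - a < n ∨ d - c < n) :
    Pr half {ω | per n ω ∈ {η : Config | Perc.VCross η a b c d}} =
      Pr half {ω : Config | Perc.VCross ω a b c d} :=
  pr_per half (cylArm_injOn h) (Perc.localOn_vcross a b c d)

/-- An arm of the plane can be completed to a winding path on the cylinder. -/
theorem arm_le_wind : ∃ c : ℝ, 0 < c ∧ ∀ m : ℕ, 1 ≤ m → c * Perc.arm half (2 * m) ≤
    Pr half {ω | Perc.Conn (per (16 * m) ω) (strip (64 * m)) 0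
      (((16 * m : ℕ) : ℤ), -((16 * m : ℕ) : ℤ))} := by
  classical
  obtain ⟨c, hc, hrsw⟩ := Perc.rsw
  refine ⟨c ^ 14, by positivity, fun m hm => ?_⟩
  have hM : (1 : ℤ) ≤ (m : ℤ) := by exact_mod_cast hm
  -- probabilities of the crossings
  have hshort : ∀ x y : ℤ, c ≤ Pr half {ω : Config | Perc.HCross ω x (x + 4 * m) y (y + m)} := by
    intro x y
    have h1 := Perc.Pr_hcross_translate (p := half) (a := 0) (b := 4 * (m : ℤ)) (c := 0)
      (d := (m : ℤ)) x y
    rw [zero_add, zero_add, add_comm (4 * (m : ℤ)) x, add_comm (m : ℤ) y] at h1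
    rw [h1]
    exact hrsw m hm
  have hlong : ∀ x y : ℤ, c ^ 5 ≤ Pr half {ω : Config | Perc.HCross ω x (x + 20 * m) y (y + 2 * m)} := by
    intro x y
    have h0 := H85.Strict.long_rsw (q := half) hc.le (hrsw (2 * m) (by omega)) 2
    have e1 : ((4 : ℤ) + 3 * ((2 : ℕ) : ℤ)) * ((2 * m : ℕ) : ℤ) = 20 * (m : ℤ) := by
      push_cast; ring
    have e2 : ((2 * m : ℕ) : ℤ) = 2 * (m : ℤ) := by push_cast; ring
    rw [e1, e2] at h0
    have h1 := Perc.Pr_hcross_translate (p := half) (a := 0) (b := 20 * (m : ℤ)) (c := 0)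
      (d := 2 * (m : ℤ)) x y
    rw [zero_add, zero_add, add_comm (20 * (m : ℤ)) x, add_comm (2 * (m : ℤ)) y] at h1
    rw [h1]
    simpa using h0
  have n16 : ((16 * m : ℕ) : ℤ) = 16 * (m : ℤ) := by push_cast; ring
  have pT : c ≤ Pr half {ω | per (16 * m) ω ∈ {η : Config | Perc.HCross η (-(2 * m)) (2 * m) m (2 * m)}} := by
    rw [cylArm_pr_h (by rw [n16]; omega)]
    have := hshort (-(2 * m)) m
    have e1 : -(2 * (m : ℤ)) + 4 * m = 2 * m := by ring
    have e2 : (m : ℤ) + m = 2 * m := by ring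
    rw [e1, e2] at this
    exact this
  have pB : c ≤ Pr half {ω | per (16 * m) ω ∈
      {η : Config | Perc.HCross η (-(2 * m)) (2 * m) (-(2 * m)) (-m)}} := by
    rw [cylArm_pr_h (by rw [n16]; omega)]
    have := hshort (-(2 * m)) (-(2 * m))
    have e1 : -(2 * (m : ℤ)) + 4 * m = 2 * m := by ring
    have e2 : -(2 * (m : ℤ)) + m = -m := by ring
    rw [e1, e2] at this
    exact this
  have pL : c ≤ Pr half {ω | per (16 * m) ω ∈
      {η : Config | Perc.VCross η (-(2 * m)) (-m) (-(2 * m)) (2 * m)}} := by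
    rw [cylArm_pr_v (by rw [n16]; omega), Perc.Pr_vcross_eq_hcross]
    have := hshort (-(2 * m)) (-(2 * m))
    have e1 : -(2 * (m : ℤ)) + 4 * m = 2 * m := by ring
    have e2 : -(2 * (m : ℤ)) + m = -m := by ring
    rw [e1, e2] at this
    exact this
  have pR : c ≤ Pr half {ω | per (16 * m) ω ∈
      {η : Config | Perc.VCross η m (2 * m) (-(2 * m)) (2 * m)}} := by
    rw [cylArm_pr_v (by rw [n16]; omega), Perc.Pr_vcross_eq_hcross]
    have := hshort (-(2 * m)) m
    have e1 : -(2 * (m : ℤ)) + 4 * m = 2 * m := by ring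
    have e2 : (m : ℤ) + m = 2 * m := by ring
    rw [e1, e2] at this
    exact this
  have p1 : c ^ 5 ≤ Pr half {ω | per (16 * m) ω ∈
      {η : Config | Perc.HCross η (-(2 * m)) (18 * m) (-m) m}} := by
    rw [cylArm_pr_h (by rw [n16]; omega)]
    have := hlong (-(2 * m)) (-m)
    have e1 : -(2 * (m : ℤ)) + 20 * m = 18 * m := by ring
    have e2 : -(m : ℤ) + 2 * m = m := by ring
    rw [e1, e2] at this
    exact this
  have p2 : c ^ 5 ≤ Pr half {ω | per (16 * m) ω ∈
      {η : Config | Perc.VCross η (15 * m) (17 * m) (-(18 * m)) (2 * m)}} := by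
    rw [cylArm_pr_v (by rw [n16]; omega), Perc.Pr_vcross_eq_hcross]
    have := hlong (-(18 * m)) (15 * m)
    have e1 : -(18 * (m : ℤ)) + 20 * m = 2 * m := by ring
    have e2 : 15 * (m : ℤ) + 2 * m = 17 * m := by ring
    rw [e1, e2] at this
    exact this
  have pA : Perc.arm half (2 * m) ≤ Pr half {ω | per (16 * m) ω ∈ Perc.Arm 0 (2 * m)} :=
    (pr_per_arm half (by omega)).ge
  -- FKG
  have q1 := cylArm_step (16 * m) (Perc.localOn_arm 0 (2 * m)) (Perc.localOn_hcross _ _ _ _)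
    (Perc.incr_arm 0 (2 * m)) (Perc.incr_hcross _ _ _ _) hc.le pA pT
  have q2 := cylArm_step (16 * m) ((Perc.localOn_arm 0 (2 * m)).inter' (Perc.localOn_hcross _ _ _ _))
    (Perc.localOn_hcross _ _ _ _)
    ((Perc.incr_arm 0 (2 * m)).inter (Perc.incr_hcross _ _ _ _)) (Perc.incr_hcross _ _ _ _) hc.le q1 pB
  have q3 := cylArm_step (16 * m) (((Perc.localOn_arm 0 (2 * m)).inter'
    (Perc.localOn_hcross _ _ _ _)).inter' (Perc.localOn_hcross _ _ _ _)) (Perc.localOn_vcross _ _ _ _)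
    (((Perc.incr_arm 0 (2 * m)).inter (Perc.incr_hcross _ _ _ _)).inter (Perc.incr_hcross _ _ _ _))
    (Perc.incr_vcross _ _ _ _) hc.le q2 pL
  have q4 := cylArm_step (16 * m) ((((Perc.localOn_arm 0 (2 * m)).inter'
    (Perc.localOn_hcross _ _ _ _)).inter' (Perc.localOn_hcross _ _ _ _)).inter'
    (Perc.localOn_vcross _ _ _ _)) (Perc.localOn_vcross _ _ _ _)
    ((((Perc.incr_arm 0 (2 * m)).inter (Perc.incr_hcross _ _ _ _)).inter
    (Perc.incr_hcross _ _ _ _)).inter (Perc.incr_vcross _ _ _ _))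
    (Perc.incr_vcross _ _ _ _) hc.le q3 pR
  have q5 := cylArm_step (16 * m) (((((Perc.localOn_arm 0 (2 * m)).inter'
    (Perc.localOn_hcross _ _ _ _)).inter' (Perc.localOn_hcross _ _ _ _)).inter'
    (Perc.localOn_vcross _ _ _ _)).inter' (Perc.localOn_vcross _ _ _ _)) (Perc.localOn_hcross _ _ _ _)
    (((((Perc.incr_arm 0 (2 * m)).inter (Perc.incr_hcross _ _ _ _)).inter
    (Perc.incr_hcross _ _ _ _)).inter (Perc.incr_vcross _ _ _ _)).inter (Perc.incr_vcross _ _ _ _))
    (Perc.incr_hcross _ _ _ _) (by positivity) q4 p1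
  have q6 := cylArm_step (16 * m) ((((((Perc.localOn_arm 0 (2 * m)).inter'
    (Perc.localOn_hcross _ _ _ _)).inter' (Perc.localOn_hcross _ _ _ _)).inter'
    (Perc.localOn_vcross _ _ _ _)).inter' (Perc.localOn_vcross _ _ _ _)).inter'
    (Perc.localOn_hcross _ _ _ _)) (Perc.localOn_vcross _ _ _ _)
    ((((((Perc.incr_arm 0 (2 * m)).inter (Perc.incr_hcross _ _ _ _)).inter
    (Perc.incr_hcross _ _ _ _)).inter (Perc.incr_vcross _ _ _ _)).inter
    (Perc.incr_vcross _ _ _ _)).inter (Perc.incr_hcross _ _ _ _))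
    (Perc.incr_vcross _ _ _ _) (by positivity) q5 p2
  have e : c ^ 14 * Perc.arm half (2 * m) =
      Perc.arm half (2 * m) * c * c * c * c * c ^ 5 * c ^ 5 := by ring
  rw [e]
  refine q6.trans (Perc.Pr_mono ?_)
  rintro ω ⟨⟨⟨⟨⟨⟨w1, w2⟩, w3⟩, w4⟩, w5⟩, w6⟩, w7⟩
  exact cylArm_det hm w1 w2 w3 w4 w5 w6 w7

end Pool.Agent.H89.Link

end

section

/-! The function `TM M c z`: the explicit sum times the product over pairs; its recursions. -/

namespace H56.EX

open Finset Pool.Agent.H96.EX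

end H56.EX

end

section

/-! The explicit right hand sides of the leg formulas and their recursions. -/

namespace H56.EX

open Finset Pool.Agent.H96.EX

end H56.EX

end

section

/-!
# Lower bounds for the influence of an edge of the torus
-/

open MeasureTheory ProbabilityTheory unitInterval

namespace Pool.Agent.H26.ST

open Pool.Agent.H89.Perc Pool.Agent.H61.NC

theorem le_sT {N : ℕ} (hN : 1 ≤ N) {q : I} {d : Bool} {E : Set Config}
    (hE : ∀ ω ∈ E, Function.update ω (0, 0, d) true ∈ Wind N ∧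
      Function.update ω (0, 0, d) false ∉ Wind N) : Pr q E ≤ sT q N d := by
  have h0 : ((0, 0, d) : Edge) ∈ tEdges N := by
    simp only [tEdges, Finset.mem_product, Finset.mem_Ico, Finset.mem_univ, and_true]
    omega
  have h1 : sT q N d = pivot q (Wind N) (0, 0, d) := pivot_wind hN q (ctr_mem hN d) h0 rfl
  rw [h1]
  have hl : ∀ b : Bool, LocalOn (tEdges N) {ω | Function.update ω (0, 0, d) b ∈ Wind N} := by
    intro b ω ω' hω h2
    refine localOn_wind hN _ _ (fun f hf => ?_) h2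
    by_cases hfe : f = (0, 0, d)
    · subst hfe; simp
    · simp only [Function.update_of_ne hfe]; exact hω f hf
  have hsub : {ω | Function.update ω (0, 0, d) false ∈ Wind N} ⊆
      {ω | Function.update ω (0, 0, d) true ∈ Wind N} := by
    intro ω hω
    refine incr_wind N _ _ ?_ hω
    intro e he
    by_cases h : e = (0, 0, d)
    · subst h; simp
    · rw [Function.update_of_ne h] at he ⊢
      exact he
  have h2 : Pr q ({ω | Function.update ω (0, 0, d) true ∈ Wind N} \
      {ω | Function.update ω (0, 0, d) false ∈ Wind N}) = pivot q (Wind N) (0, 0, d) :=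
    measureReal_sdiff hsub (hl false).measurableSet
  rw [← h2]
  exact Pr_mono fun ω hω => ⟨(hE ω hω).1, (hE ω hω).2⟩

end Pool.Agent.H26.ST

end
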