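import Pool.Agent.H94.BG.H31.PT.M13_2
import Pool.Agent.H94.BG.H31.PT.M32_6
import Pool.Agent.H94.BG.H31.PT.M34_3
import Pool.Agent.H94.BG.H31.PT.M36_5
import Pool.Agent.H94.BG.M12

/-! The parts of this file: H90.NC.ArmMain, H83.EX.Exit, H47.EX.CylDet, H47.EX.CylProb, H56.EX.Recs, H56.EX.Main, H56.EX.Top, H56.EX.All, H34.Hom.P4, H34.Hom.Final, H89.EX.FourExp, H47.EX.CylMain, H47.EX.UpA4, H26.ST.Prob, H26.ST.Ext, H26.ST.Final. -/

section

/-!
# Stability of the one-arm probability in the near-critical window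
-/

open MeasureTheory ProbabilityTheory unitInterval

namespace Pool.Agent.H61.NC

open Pool.Agent.H89.Perc

/-- Stability of the one-arm probability with the torus interfaces: no window is needed. -/
theorem arm_stability_torus (hGL : GLTorus) (hBL : BlockLow) : ∀ c : ℝ, 0 < c → ∃ K : ℝ, 0 < K ∧
    ∀ (N : ℕ) (q₀ q₁ : I), q₀ ≤ q₁ → 1 / 4 ≤ (q₀ : ℝ) → (q₁ : ℝ) ≤ 3 / 4 →
      (∀ q : I, q₀ ≤ q → q ≤ q₁ → RSWreg c N q) → arm q₁ N ≤ K * arm q₀ N := by
  intro c hc
  obtain ⟨C, hC, H⟩ := W0_stability c hc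
  obtain ⟨C', hC', H'⟩ := arm_of_W0 c hc
  obtain ⟨C3, hC3, h3⟩ := a4_le_sT hGL hBL c hc
  obtain ⟨C4, hC4, h4⟩ := sum_a4 hGL hBL c hc
  obtain ⟨B, hB⟩ : ∃ B : ℝ, B = 4 ^ 24 * C4 + C4 + C3 := ⟨_, rfl⟩
  have hBpos : 0 < B := by rw [hB]; positivity
  refine ⟨C' * (Real.exp (C * B) + 1), by positivity, fun N q₀ q₁ h01 h0 h1 hR => ?_⟩
  refine H' N q₀ q₁ (Real.exp (C * B)) (Real.exp_pos _).le h0 (hR q₀ le_rfl h01)
    (hR q₁ h01 le_rfl) fun hN => ?_
  have hN1 : 1 ≤ N := by omega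
  have hlocW := localOn_wind hN1
  have hle : (q₀ : ℝ) ≤ q₁ := h01
  have hmem : ∀ x ∈ Set.Icc (q₀ : ℝ) q₁, ∃ q : I, (q : ℝ) = x := fun x hx =>
    ⟨⟨x, q₀.2.1.trans hx.1, hx.2.trans q₁.2.2⟩, rfl⟩
  refine H N q₀ q₁ (PrR (tEdges N) (Wind N)) (PrR' (tEdges N) (Wind N)) hN h01 h0 ?_ ?_ B hBpos ?_
  · intro x hx
    obtain ⟨q, rfl⟩ := hmem x hx
    exact hasDerivAt_PrR_eq hlocW q
  · intro x hx
    obtain ⟨q, rfl⟩ := hmem x hx
    rw [← Pr_eq_PrR hlocW]
    exact ⟨Pr_nonneg, Pr_le_one⟩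
  · intro q hq0 hq1
    have hq0' : (q₀ : ℝ) ≤ q := hq0
    have hq1' : (q : ℝ) ≤ q₁ := hq1
    have hreg := hR q hq0 hq1
    have hs := sT_nonneg q N false
    have hs' := sT_nonneg q N true
    have hsum := h4 N q false hN hreg
    have k1 := a4_one q (by linarith only [h0, hq0']) (by linarith only [h1, hq1'])
    have k2 : a4 q 1 ≤ ∑ t ∈ Finset.Icc 1 N, (t : ℝ) * a4 q t := by
      have k3 := Finset.single_le_sum (f := fun t : ℕ => (t : ℝ) * a4 q t)
        (fun t _ => mul_nonneg (Nat.cast_nonneg t) (a4_nonneg q t))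
        (Finset.mem_Icc.2 ⟨le_rfl, hN1⟩ : 1 ∈ Finset.Icc 1 N)
      simpa using k3
    rw [PrR'_eq hlocW, sum_pivot hN1]
    obtain ⟨T, hT⟩ : ∃ T, T = (N : ℝ) ^ 2 * sT q N false := ⟨_, rfl⟩
    rw [← hT] at hsum
    have hT0 : 0 ≤ T := by rw [hT]; positivity
    have hT1 : T ≤ (N : ℝ) ^ 2 * (sT q N false + sT q N true) := by
      rw [hT]
      exact mul_le_mul_of_nonneg_left (by linarith only [hs']) (by positivity)
    have hBT : B * T ≤ B * ((N : ℝ) ^ 2 * (sT q N false + sT q N true)) :=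
      mul_le_mul_of_nonneg_left hT1 hBpos.le
    have e1 : B * T = 4 ^ 24 * C4 * T + C4 * T + C3 * T := by rw [hB]; ring
    have z1 : 0 ≤ 4 ^ 24 * C4 * T := by positivity
    have z2 : 0 ≤ C4 * T := by positivity
    have z3 : 0 ≤ C3 * T := by positivity
    refine ⟨hreg, ?_, ?_, ?_⟩
    · have k4 : (1 / 4 : ℝ) ^ 24 ≤ C4 * T := k1.trans (k2.trans hsum)
      have k5 : (1 : ℝ) ≤ 4 ^ 24 * C4 * T := by
        calc (1 : ℝ) = 4 ^ 24 * (1 / 4 : ℝ) ^ 24 := by norm_num
          _ ≤ 4 ^ 24 * (C4 * T) := mul_le_mul_of_nonneg_left k4 (by norm_num)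
          _ = _ := by ring
      linarith only [k1, k2, hsum, hBT, e1, z3]
    · linarith only [k1, k2, hsum, hBT, e1, z3]
    · have k6 := mul_le_mul_of_nonneg_left (h3 N q false hN hreg) (sq_nonneg (N : ℝ))
      have k7 : (N : ℝ) ^ 2 * (C3 * sT q N false) = C3 * T := by rw [hT]; ring
      linarith only [k1, k2, hsum, hBT, e1, k6, k7]

end Pool.Agent.H61.NC

end

section

/-!
# The characteristic length

`Len δ p` is the first scale `m` at which the square of side `4 m` is crossed with probability at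
least `1 - δ`.  Up to a multiple of this length the box-crossing property holds for all densities
between `1 - p` and `p`, and beyond it the percolation probability and the mean cluster size are
computed by the one-arm probability at `1 / 2`.
-/

open MeasureTheory ProbabilityTheory unitInterval Filter Topology
open scoped ENNReal

namespace Pool.Agent.H83.EX

open Pool.Agent.H89.Perc Pool.Agent.H61.NC Pool.Agent.H31.EX

/-- No scale is good at `1 / 2`. -/
theorem exists_bad_half : ∃ δ > (0 : ℝ), ∀ m : ℕ, 1 ≤ m → ¬ Good δ half m := by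
  obtain ⟨δ, hδ, c, hc, H⟩ := wind_gap
  refine ⟨δ, hδ, fun m hm hg => ?_⟩
  have h1 := H half le_rfl m hm hg
  linarith only [hc, h1]

/-- Above `1 / 2` there are good scales. -/
theorem exists_good (hGL : GLTorus) {a : ℝ} (ha : a < 2) (h4 : PN (a4 half) a) {δ : ℝ}
    (hδ : 0 < δ) {p : I} (hp : (1 / 2 : ℝ) < p) (hp1 : (p : ℝ) ≤ 3 / 4) :
    ∃ m : ℕ, 1 ≤ m ∧ Good δ p m := by
  by_contra hno
  push Not at hno
  obtain ⟨c, hc, H⟩ := reg_of_bad δ hδ 1
  obtain ⟨C, hC, HC⟩ := scale_upper hGL blockLow c hc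
  have hpI : half ≤ p := half_le hp
  have hR : ∀ N : ℕ, 2 ≤ N → ∀ q : I, half ≤ q → q ≤ p → RSWreg c N q := fun N hN q h1 h2 => by
    have := H p hpI N hN (fun m hm _ => hno m hm) q ((sigma_le_half hpI).trans h1) h2
    simpa using this
  have h5 : ∀ r : ℕ, 1 ≤ r →
      ((p : ℝ) - 1 / 2) * (((64 * r : ℕ) : ℝ) ^ 2 * a4 half r) ≤ C := by
    intro r hr
    have := HC (64 * r) half p (by omega) hpI (by rw [half_val]; norm_num) hp1
      (fun q h1 h2 => hR _ (by omega) q h1 h2)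
    rw [half_val, Nat.mul_div_cancel_left r (by norm_num)] at this
    exact this
  obtain ⟨n₀, hn₀⟩ := h4 ((2 - a) / 2) (by linarith only [ha])
  have h6 : Tendsto (fun r : ℕ => (r : ℝ) ^ ((2 - a) / 2)) atTop atTop :=
    (tendsto_rpow_atTop (by linarith only [ha])).comp tendsto_natCast_atTop_atTop
  obtain ⟨r, hr1, hr2, hr3⟩ := ((h6.eventually_gt_atTop (C / ((p : ℝ) - 1 / 2))).and
    ((eventually_ge_atTop n₀).and (eventually_ge_atTop 1))).exists
  have hr0 : (0 : ℝ) < r := by exact_mod_cast hr3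
  have h7 := (hn₀ r hr2).1
  have h8 := h5 r hr3
  have hx : 0 < (p : ℝ) - 1 / 2 := by linarith only [hp]
  rw [div_lt_iff₀ hx] at hr1
  have h9 : (r : ℝ) ^ 2 * (r : ℝ) ^ (-a - (2 - a) / 2) = (r : ℝ) ^ ((2 - a) / 2) := by
    rw [← Real.rpow_natCast (r : ℝ) 2, ← Real.rpow_add hr0]
    congr 1
    push_cast
    ring
  have h10 : (r : ℝ) ^ ((2 - a) / 2) ≤ (r : ℝ) ^ 2 * a4 half r := by
    rw [← h9]
    exact mul_le_mul_of_nonneg_left h7 (by positivity)
  have h11 : (r : ℝ) ^ 2 * a4 half r ≤ ((64 * r : ℕ) : ℝ) ^ 2 * a4 half r := by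
    push_cast
    have h12 := a4_nonneg half r
    have h13 : (0 : ℝ) ≤ (r : ℝ) ^ 2 * a4 half r := by positivity
    nlinarith only [h13]
  have h14 : ((p : ℝ) - 1 / 2) * (r : ℝ) ^ ((2 - a) / 2) ≤ C :=
    (mul_le_mul_of_nonneg_left (h10.trans h11) hx.le).trans h8
  linarith only [hr1, h14]

/-- The properties of the characteristic length. -/
theorem length_facts (hGL : GLTorus) {a : ℝ} (ha : a < 2) (h4 : PN (a4 half) a) :
    ∃ δ₀ > (0 : ℝ),
      (∀ n : ℕ, ∃ η > (0 : ℝ), ∀ p : I, (1 / 2 : ℝ) < p → (p : ℝ) < 1 / 2 + η →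
        n ≤ Len δ₀ p ∧ 1 ≤ Len δ₀ p ∧ Good δ₀ p (Len δ₀ p)) ∧
      (∀ K : ℕ, ∃ c > (0 : ℝ), ∃ η > (0 : ℝ), ∀ p : I, (1 / 2 : ℝ) < p → (p : ℝ) < 1 / 2 + η →
        ∀ q : I, σ p ≤ q → q ≤ p → RSWreg c (K * Len δ₀ p) q) ∧
      (∀ ε > (0 : ℝ), ∃ C > (0 : ℝ), ∃ η > (0 : ℝ), ∀ p : I, (1 / 2 : ℝ) < p →
        (p : ℝ) < 1 / 2 + η → ((p : ℝ) - 1 / 2) * (Len δ₀ p : ℝ) ^ ((2 - a) - ε) ≤ C) ∧
      (∀ ε > (0 : ℝ), ∃ c > (0 : ℝ), ∃ η > (0 : ℝ), ∀ p : I, (1 / 2 : ℝ) < p →
        (p : ℝ) < 1 / 2 + η → c ≤ ((p : ℝ) - 1 / 2) * (Len δ₀ p : ℝ) ^ ((2 - a) + ε)) ∧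
      (∃ c > (0 : ℝ), ∃ C > (0 : ℝ), ∃ η > (0 : ℝ), ∀ p : I, (1 / 2 : ℝ) < p →
        (p : ℝ) < 1 / 2 + η → c * arm half (Len δ₀ p) ≤ theta p ∧
          theta p ≤ C * arm half (Len δ₀ p)) ∧
      (∃ c > (0 : ℝ), ∃ C > (0 : ℝ), ∃ η > (0 : ℝ), ∀ p : I, (1 / 2 : ℝ) < p →
        (p : ℝ) < 1 / 2 + η →
        ENNReal.ofReal (c * ((Len δ₀ p : ℝ) ^ 2 * arm half (Len δ₀ p) ^ 2)) ≤
          Pool.Agent.H85.Gamma.sigma (σ p) ∧
        Pool.Agent.H85.Gamma.sigma (σ p) ≤
          ENNReal.ofReal (C * ((Len δ₀ p : ℝ) ^ 2 * arm half (Len δ₀ p) ^ 2))) := by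
  obtain ⟨δ₁, hδ₁, c₁, hc₁, C₁, hC₁, H1⟩ := good_scale
  obtain ⟨δ₂, hδ₂, c₂, hc₂, H2⟩ := wind_gap
  obtain ⟨δ₃, hδ₃, H3⟩ := exists_bad_half
  obtain ⟨δ₀, hδ₀⟩ : ∃ δ₀ : ℝ, δ₀ = min δ₁ (min δ₂ δ₃) := ⟨_, rfl⟩
  have h0 : 0 < δ₀ := by rw [hδ₀]; exact lt_min hδ₁ (lt_min hδ₂ hδ₃)
  have h01 : δ₀ ≤ δ₁ := by rw [hδ₀]; exact min_le_left _ _
  have h02 : δ₀ ≤ δ₂ := by rw [hδ₀]; exact (min_le_right _ _).trans (min_le_left _ _)
  have h03 : δ₀ ≤ δ₃ := by rw [hδ₀]; exact (min_le_right _ _).trans (min_le_right _ _)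
  have hbad : ∀ m : ℕ, 1 ≤ m → ¬ Good δ₀ half m := fun m hm hg => H3 m hm (hg.mono h03)
  -- large length near `1 / 2`
  have hlen : ∀ n : ℕ, ∃ η > (0 : ℝ), η ≤ 1 / 4 ∧ ∀ p : I, (1 / 2 : ℝ) < p →
      (p : ℝ) < 1 / 2 + η → n ≤ Len δ₀ p ∧ 1 ≤ Len δ₀ p ∧ Good δ₀ p (Len δ₀ p) := by
    intro n
    obtain ⟨η, hη, Hn⟩ := bad_near hbad n
    refine ⟨min η (1 / 4), lt_min hη (by norm_num), min_le_right _ _, fun p hp hp1 => ?_⟩
    have hp2 : (p : ℝ) < 1 / 2 + η := hp1.trans_le (by linarith only [min_le_left η (1 / 4 : ℝ)])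
    have hp3 : (p : ℝ) ≤ 3 / 4 := hp1.le.trans (by linarith only [min_le_right η (1 / 4 : ℝ)])
    have hex := exists_good hGL ha h4 h0 hp hp3
    exact ⟨le_Len hex fun m hm hmn => Hn p (half_le hp) hp2 m hm hmn, Len_spec hex⟩
  -- the box-crossing regime
  have hreg : ∀ K : ℕ, ∃ c > (0 : ℝ), ∀ p : I, (1 / 2 : ℝ) < p →
      2 ≤ Len δ₀ p → ∀ q : I, σ p ≤ q → q ≤ p → RSWreg c (K * Len δ₀ p) q := by
    intro K
    obtain ⟨c, hc, H⟩ := reg_of_bad δ₀ h0 K
    exact ⟨c, hc, fun p hp h2 => H p (half_le hp) _ h2 fun m hm hml => not_good_of_lt hm hml⟩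
  refine ⟨δ₀, h0, fun n => ?_, fun K => ?_, fun ε hε => ?_, fun ε hε => ?_, ?_, ?_⟩
  · obtain ⟨η, hη, -, H⟩ := hlen n
    exact ⟨η, hη, H⟩
  · obtain ⟨c, hc, H⟩ := hreg K
    obtain ⟨η, hη, -, H'⟩ := hlen 2
    exact ⟨c, hc, η, hη, fun p hp hp1 => H p hp (H' p hp hp1).1⟩
  · -- upper bound for the length
    obtain ⟨c, hc, HR⟩ := hreg 64
    obtain ⟨C, hC, HC⟩ := scale_upper hGL blockLow c hc
    obtain ⟨n₀, hn₀⟩ := h4 ε hε
    obtain ⟨η, hη, hη4, HL⟩ := hlen (n₀ + 2)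
    refine ⟨C, hC, η, hη, fun p hp hp1 => ?_⟩
    obtain ⟨hL1, hL2, -⟩ := HL p hp hp1
    have hpI := half_le hp
    obtain ⟨L, hL⟩ : ∃ L : ℕ, L = Len δ₀ p := ⟨_, rfl⟩
    have HRp := HR p hp (by omega)
    rw [← hL] at hL1 hL2 HRp ⊢
    have hL0 : (0 : ℝ) < L := by exact_mod_cast hL2
    have h5 := HC (64 * L) half p (by omega) hpI (by rw [half_val]; norm_num) (by linarith only [hη4, hp1])
      (fun q h1 h2 => HRp q ((sigma_le_half hpI).trans h1) h2)
    rw [half_val, Nat.mul_div_cancel_left L (by norm_num)] at h5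
    have h7 := (hn₀ L (by omega)).1
    have hx : 0 < (p : ℝ) - 1 / 2 := by linarith only [hp]
    have h9 : (L : ℝ) ^ 2 * (L : ℝ) ^ (-a - ε) = (L : ℝ) ^ ((2 - a) - ε) := by
      rw [← Real.rpow_natCast (L : ℝ) 2, ← Real.rpow_add hL0]
      congr 1
      push_cast
      ring
    refine le_trans (mul_le_mul_of_nonneg_left ?_ hx.le) h5
    rw [← h9]
    refine mul_le_mul ?_ h7 (by positivity) (by positivity)
    push_cast
    nlinarith only [sq_nonneg (L : ℝ)]
  · -- lower bound for the length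
    obtain ⟨c, hc, HR⟩ := hreg 14
    obtain ⟨C, hC, HC⟩ := scale_lower hGL blockLow c hc
    obtain ⟨n₀, hn₀⟩ := h4 ε hε
    obtain ⟨η, hη, hη4, HL⟩ := hlen (n₀ + 5)
    refine ⟨c₂ / (C * (196 * (6 : ℝ) ^ (-a + ε))), by positivity, η, hη, fun p hp hp1 => ?_⟩
    obtain ⟨hL1, hL2, hL3⟩ := HL p hp hp1
    have hpI := half_le hp
    obtain ⟨L, hL⟩ : ∃ L : ℕ, L = Len δ₀ p := ⟨_, rfl⟩
    have HRp := HR p hp (by omega)
    rw [← hL] at hL1 hL2 hL3 HRp ⊢
    have hL0 : (0 : ℝ) < L := by exact_mod_cast hL2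
    have h5 := HC (14 * L) (6 * L) half p (by omega) (by omega) (by omega) hpI
      (by rw [half_val]; norm_num) (by linarith only [hη4, hp1])
      (fun q h1 h2 => HRp q ((sigma_le_half hpI).trans h1) h2)
    have h6 := H2 p hpI L hL2 (hL3.mono h02)
    have h7 := (hn₀ (6 * L) (by omega)).2
    have hx : 0 < (p : ℝ) - 1 / 2 := by linarith only [hp]
    have h8 : ((14 * L : ℕ) : ℝ) ^ 2 * a4 half (6 * L) ≤
        196 * (6 : ℝ) ^ (-a + ε) * (L : ℝ) ^ ((2 - a) + ε) := by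
      have e1 : ((6 * L : ℕ) : ℝ) ^ (-a + ε) = (6 : ℝ) ^ (-a + ε) * (L : ℝ) ^ (-a + ε) := by
        push_cast
        rw [Real.mul_rpow (by norm_num) hL0.le]
      have e2 : (L : ℝ) ^ 2 * (L : ℝ) ^ (-a + ε) = (L : ℝ) ^ ((2 - a) + ε) := by
        rw [← Real.rpow_natCast (L : ℝ) 2, ← Real.rpow_add hL0]
        congr 1
        push_cast
        ring
      calc ((14 * L : ℕ) : ℝ) ^ 2 * a4 half (6 * L)
          ≤ ((14 * L : ℕ) : ℝ) ^ 2 * ((6 * L : ℕ) : ℝ) ^ (-a + ε) :=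
            mul_le_mul_of_nonneg_left h7 (by positivity)
        _ = 196 * (6 : ℝ) ^ (-a + ε) * ((L : ℝ) ^ 2 * (L : ℝ) ^ (-a + ε)) := by
            rw [e1]; push_cast; ring
        _ = _ := by rw [e2]
    have h9 : c₂ ≤ C * (((p : ℝ) - 1 / 2) *
        (196 * (6 : ℝ) ^ (-a + ε) * (L : ℝ) ^ ((2 - a) + ε))) := by
      rw [half_val] at h5
      refine h6.trans (h5.trans ?_)
      gcongr
    rw [div_le_iff₀ (by positivity)]
    calc c₂ ≤ _ := h9
      _ = _ := by ring
  · -- the percolation probability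
    obtain ⟨c, hc, HR⟩ := hreg 1
    obtain ⟨K, hK, HK⟩ := arm_stability_torus hGL blockLow c hc
    obtain ⟨η, hη, hη4, HL⟩ := hlen 2
    refine ⟨c₁, hc₁, K, hK, η, hη, fun p hp hp1 => ?_⟩
    obtain ⟨hL1, hL2, hL3⟩ := HL p hp hp1
    have hpI := half_le hp
    have HRp := HR p hp hL1
    rw [one_mul] at HRp
    constructor
    · have h5 := (H1 p hpI _ hL2 (hL3.mono h01)).1
      exact (mul_le_mul_of_nonneg_left (arm_mono_param _ hpI) hc₁.le).trans h5
    · exact (theta_le_arm p (Len δ₀ p)).trans (HK _ half p hpI (by rw [half_val]; norm_num)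
        (by linarith only [hη4, hp1]) fun q h1 h2 => HRp q ((sigma_le_half hpI).trans h1) h2)
  · -- the mean cluster size
    obtain ⟨c, hc, HR⟩ := hreg 9
    obtain ⟨K, hK, HK⟩ := arm_stability_torus hGL blockLow c hc
    obtain ⟨c', hc', HT⟩ := Pool.Agent.H85.Gamma.trunc_lower
    obtain ⟨c'', hc'', HE⟩ := arm_ext
    obtain ⟨η, hη, hη4, HL⟩ := hlen 2
    refine ⟨c' * (c'' / 3 / K) ^ 2, by positivity, C₁, hC₁, η, hη, fun p hp hp1 => ?_⟩
    obtain ⟨hL1, hL2, hL3⟩ := HL p hp hp1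
    have hpI := half_le hp
    have HRp := HR p hp hL1
    obtain ⟨L, hL⟩ : ∃ L : ℕ, L = Len δ₀ p := ⟨_, rfl⟩
    rw [← hL] at hL1 hL2 hL3 HRp ⊢
    have hL0 : (0 : ℝ) < L := by exact_mod_cast hL2
    constructor
    · refine (ENNReal.ofReal_le_ofReal ?_).trans
        (Pool.Agent.H85.Gamma.trunc_le_sigma (σ p) (Pool.Agent.H85.Gamma.bx (2 * L)) (5 * L + 4))
      have hσv : ((σ p : I) : ℝ) = 1 - (p : ℝ) := rfl
      refine le_trans ?_ (HT L hL2 (σ p) (by rw [hσv]; linarith only [hp]))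
      have h5 := HK (5 * L + 4) (σ p) half (sigma_le_half hpI) (by rw [hσv]; linarith only [hη4, hp1])
        (by rw [half_val]; norm_num)
        (fun q h1 h2 => rsw_anti (HRp q h1 (h2.trans hpI)) (by omega))
      have h6 := HE half le_rfl L (5 * L + 4) hL2 (by omega)
      have h7 : (1 / 3 : ℝ) ≤ Real.sqrt ((L : ℝ) / ((5 * L + 4 : ℕ) : ℝ)) := by
        apply Real.le_sqrt_of_sq_le
        rw [le_div_iff₀ (by positivity)]
        push_cast
        have : (1 : ℝ) ≤ L := by exact_mod_cast hL2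
        linarith only [this]
      have h8 := arm_nonneg (p := half) (r := L)
      have h9 : c'' / 3 * arm half L ≤ K * arm (σ p) (5 * L + 4) := by
        refine le_trans ?_ (h6.trans h5)
        have : c'' * (1 / 3) ≤ c'' * Real.sqrt ((L : ℝ) / ((5 * L + 4 : ℕ) : ℝ)) :=
          mul_le_mul_of_nonneg_left h7 hc''.le
        calc c'' / 3 * arm half L = c'' * (1 / 3) * arm half L := by ring
          _ ≤ _ := mul_le_mul_of_nonneg_right this h8
      have h10 : c'' / 3 / K * arm half L ≤ arm (σ p) (5 * L + 4) := by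
        rw [div_mul_eq_mul_div, div_le_iff₀ hK]
        linarith only [h9]
      calc c' * (c'' / 3 / K) ^ 2 * ((L : ℝ) ^ 2 * arm half L ^ 2)
          = c' * (L : ℝ) ^ 2 * (c'' / 3 / K * arm half L) ^ 2 := by ring
        _ ≤ c' * (L : ℝ) ^ 2 * arm (σ p) (5 * L + 4) ^ 2 := by gcongr
    · have h5 := (H1 p hpI _ hL2 (hL3.mono h01)).2
      rw [← mul_assoc]
      exact h5

end Pool.Agent.H83.EX

end

section

/-!
# From the separated event to two winding clusters: deterministic part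
-/

set_option autoImplicit false

open MeasureTheory ProbabilityTheory unitInterval

namespace Pool.Agent.H47.EX

open Pool.Agent.H89.Perc hiding per
open Pool.Agent.H59.EX
open Pool.Agent.H89.Link (per base per_eq strip xx yy sh cylArm_conn_sh)

/-! ### The crossing event -/

/-! ### Clusters -/

/-! ### Winding -/

end Pool.Agent.H47.EX

end

section

/-!
# From the separated event to two winding clusters: probability
-/

set_option autoImplicit false

open MeasureTheory ProbabilityTheory unitInterval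

namespace Pool.Agent.H47.EX

open Pool.Agent.H89.Perc hiding per
open Pool.Agent.H59.EX
open Pool.Agent.H61.NC (RSWreg)
open Pool.Agent.H89.Link (per base per_eq cylArm_pr_h cylArm_pr_v cylArm_step base_injOn_rect)

end Pool.Agent.H47.EX

end

section

/-! Recursions of `F22`, `F13`. -/

namespace H56.EX

open scoped BigOperators Classical


end H56.EX

end

section

/-! Main theorem: the explicit leg functions. -/

namespace H56.EX

open Finset Pool.Agent.H96.EX


end H56.EX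

end

section

/-! The topological lemmas collected. -/

namespace H56.EX

end H56.EX

end

section

/-! The leg formula for all nonzero parameters, in terms of the polynomial `S4`. -/

namespace H56.EX

open Finset Filter Topology


end H56.EX

end

section

/-!
# The homogeneous four-leg function is `f4`
-/

namespace Pool.Agent.H34.Hom

open Finset Pool.Agent.H96.EX Filter Topology

end Pool.Agent.H34.Hom

end

section

/-!
# The homogeneous values: sum of the components and four-leg function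
-/

set_option autoImplicit false

namespace Pool.Agent.H34.Hom

open Finset

end Pool.Agent.H34.Hom

end

section

/-!
# The four-arm exponent of the square lattice at `1 / 2`

The four-leg sum of the stationary vector of the cylinder of circumference `2 n` gives the
probability of four arms up to constants.
-/

set_option autoImplicit false

open MeasureTheory ProbabilityTheory unitInterval Filter Topology

namespace Pool.Agent.H89.EX

open H56.EX
open Pool.Agent.H89.Link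
open Pool.Agent.H89.Perc (Vert Edge Config Pr half)
open Pool.Agent.H61.NC (a4 a4_nonneg)
open Pool.Agent.H31.EX (PN)
open Pool.Agent.H34.Hom (p4)

end Pool.Agent.H89.EX

end

section

/-!
# Four arms of the plane can be continued to the four-leg event of the cylinder
-/

set_option autoImplicit false

open MeasureTheory ProbabilityTheory unitInterval

namespace Pool.Agent.H47.EX

open Pool.Agent.H89.Perc hiding per
open Pool.Agent.H59.EX
open Pool.Agent.H61.NC (a4 RSWreg)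
open Pool.Agent.H89.Link (per FourD a4_le_fourD)

end Pool.Agent.H47.EX

end

section

/-!
# The upper bound `UpA4` on the four-arm probability of the plane by that of the cylinder
-/

set_option autoImplicit false

open MeasureTheory ProbabilityTheory unitInterval

namespace Pool.Agent.H47.EX

open Pool.Agent.H89.Perc hiding per
open Pool.Agent.H59.EX
open Pool.Agent.H29.Sep (BadIn)

end Pool.Agent.H47.EX

end

section

/-!
# Probabilities of the corridor event and of the seals; locality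
-/

open MeasureTheory ProbabilityTheory unitInterval

namespace Pool.Agent.H26.ST

open Pool.Agent.H89.Perc Pool.Agent.H61.NC Pool.Agent.H59.EX

end Pool.Agent.H26.ST

end

section

/-!
# A separated four-arm event costs at most a pivotal edge of the torus
-/

open MeasureTheory ProbabilityTheory unitInterval

namespace Pool.Agent.H26.ST

open Pool.Agent.H89.Perc Pool.Agent.H61.NC Pool.Agent.H59.EX

end Pool.Agent.H26.ST

end

section

/-!
# `SepTorus`
-/

open MeasureTheory ProbabilityTheory unitInterval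

namespace Pool.Agent.H26.ST

open Pool.Agent.H89.Perc Pool.Agent.H61.NC Pool.Agent.H59.EX
open Pool.Agent.H29.Sep (BadIn SepTorus)

end Pool.Agent.H26.ST

end
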