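import Pool.Agent.H94.BG.H31.PT.M03_3
import Pool.Agent.H94.BG.H31.PT.M32_1
import Pool.Agent.H94.BG.H31.PT.M32_4
import Pool.Agent.H94.BG.H31.PT.M34_5
import Pool.Agent.H94.BG.M09
import Pool.Agent.H94.BG.M10
import Pool.Agent.H94.BG.M11

/-! The parts of this file: H90.NC.ArmMain, H83.EX.Exit, H47.EX.CylDet, H47.EX.CylProb, H56.EX.Recs, H56.EX.Main, H56.EX.Top, H56.EX.All, H34.Hom.P4, H34.Hom.Final, H89.EX.FourExp, H47.EX.CylMain, H47.EX.UpA4, H26.ST.Prob, H26.ST.Ext, H26.ST.Final. -/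

section

/-!
# Stability of the one-arm probability in the near-critical window
-/

open MeasureTheory ProbabilityTheory unitInterval

namespace Pool.Agent.H61.NC

open Pool.Agent.H89.Perc

end Pool.Agent.H61.NC

end

section

/-!
# The characteristic length

`Len δ p` is the first scale `m` at which the square of side `4 m` is crossed with probability at
least `1 - δ`.  Up to a multiple of this length the box-crossing property holds for all densities
between `1 - p` and `p`, and beyond it the percolation probability and the mean cluster size are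
computed by the one-arm probability at `1 / 2`.
-/

open MeasureTheory ProbabilityTheory unitInterval Filter Topology
open scoped ENNReal

namespace Pool.Agent.H83.EX

open Pool.Agent.H89.Perc Pool.Agent.H61.NC Pool.Agent.H31.EX

end Pool.Agent.H83.EX

end

section

/-!
# From the separated event to two winding clusters: deterministic part
-/

set_option autoImplicit false

open MeasureTheory ProbabilityTheory unitInterval

namespace Pool.Agent.H47.EX

open Pool.Agent.H89.Perc hiding per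
open Pool.Agent.H59.EX
open Pool.Agent.H89.Link (per base per_eq strip Fc2 xx yy sh)

variable {n k K : ℕ} {ω η : Config} {e : Edge}

/-! ### The crossing event -/

theorem hcross_mono {ω ω' : Config} {a b c d : ℤ} (h : ∀ e, ω e = true → ω' e = true)
    (hc : HCross ω a b c d) : HCross ω' a b c d := by
  obtain ⟨u, v, h1, h2, h3⟩ := hc
  exact ⟨u, v, h1, h2, h3.mono le_rfl h⟩

theorem vcross_mono {ω ω' : Config} {a b c d : ℤ} (h : ∀ e, ω e = true → ω' e = true)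
    (hc : VCross ω a b c d) : VCross ω' a b c d := by
  obtain ⟨u, v, h1, h2, h3⟩ := hc
  exact ⟨u, v, h1, h2, h3.mono le_rfl h⟩

/-- Crossings of the periodic configuration inside the corridors. -/
def Np' (n k : ℕ) : Set Config :=
  {η | HCross η (28 * k) (n + 67 * k) (-(3 * k)) (3 * k)} ∩
    ({η | VCross η (n + 61 * k) (n + 67 * k) (-(n + 3 * k)) (3 * k)} ∩
      ({η | HCross η (-(n + 67 * k)) (-(28 * k)) (-(3 * k)) (3 * k)} ∩
        {η | VCross η (-(n + 67 * k)) (-(n + 61 * k)) (-(3 * k)) (n + 3 * k)}))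

/-! ### Clusters -/

theorem rect_conn {A B C D : ℤ} {a b : Vert} (ha : a ∈ rect A B C D) (hb : b ∈ rect A B C D) :
    Conn allOpen (rect A B C D) a b := by
  obtain ⟨a1, a2⟩ := a
  obtain ⟨b1, b2⟩ := b
  simp only [rect, Set.mem_ofPred_eq] at ha hb
  have h1 : Conn allOpen (rect A B C D) (a1, a2) (b1, a2) := by
    rcases le_total a1 b1 with h | h
    · refine ArmBoxLower.line_h' _ _ _ _ h (fun t h3 h4 => ?_)
      simp only [rect, Set.mem_ofPred_eq]
      omega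
    · refine (ArmBoxLower.line_h' _ _ _ _ h (fun t h3 h4 => ?_)).symm
      simp only [rect, Set.mem_ofPred_eq]
      omega
  have h2 : Conn allOpen (rect A B C D) (b1, a2) (b1, b2) := by
    rcases le_total a2 b2 with h | h
    · refine ArmBoxLower.line_v' _ _ _ _ h (fun t h3 h4 => ?_)
      simp only [rect, Set.mem_ofPred_eq]
      omega
    · refine (ArmBoxLower.line_v' _ _ _ _ h (fun t h3 h4 => ?_)).symm
      simp only [rect, Set.mem_ofPred_eq]
      omega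
  exact h1.trans h2

theorem TE_dom : T .E k ⊆ dom .E .W k := fun _ h => Or.inr (Or.inl h)

theorem TW_dom : T .W k ⊆ dom .E .W k := fun _ h => Or.inr (Or.inr h)

theorem TE_FX (hS : η ∈ Sep srcD .E .W k) : T .E k ⊆ FX srcD .E .W k η := by
  obtain ⟨⟨u, v, -, -, h1, h2⟩, -⟩ := hS
  intro w hw
  rw [FX, mem_clus_single]
  have h3 : Conn allOpen (T .E k) u w := rect_conn h1.mem_left hw
  have h4 : Conn (fillV (T .E k ∪ T .W k) (srcD.cut η)) (dom .E .W k) u w :=
    conn_fillV (by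
      rintro x (hx | hx)
      · exact TE_dom hx
      · exact TW_dom hx) (h3.mono_set Set.subset_union_left)
  exact (h2.mono le_rfl fun e he => fillV_true.2 (Or.inl he)).trans h4

theorem TW_FY (hS : η ∈ Sep srcD .E .W k) : T .W k ⊆ FY srcD .E .W k η := by
  obtain ⟨-, ⟨u, v, -, -, h1, h2⟩, -⟩ := hS
  intro w hw
  rw [FY, mem_clus_single]
  have h3 : Conn allOpen (T .W k) u w := rect_conn h1.mem_left hw
  have h4 : Conn (fillV (T .E k ∪ T .W k) (srcD.cut η)) (dom .E .W k) u w :=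
    conn_fillV (by
      rintro x (hx | hx)
      · exact TE_dom hx
      · exact TW_dom hx) (h3.mono_set Set.subset_union_right)
  exact (h2.mono le_rfl fun e he => fillV_true.2 (Or.inl he)).trans h4

theorem F_disj (hS : η ∈ Sep srcD .E .W k) {a : Vert} (h1 : a ∈ FX srcD .E .W k η)
    (h2 : a ∈ FY srcD .E .W k η) : False := by
  rw [FX, mem_clus_single] at h1
  rw [FY, mem_clus_single] at h2
  exact hS.2.2.1 (h1.trans h2.symm)

theorem sphere_of {r : ℕ} {a b : Vert} (ha : a ∈ ball 0 r) (hb : b ∉ ball 0 r)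
    (hab : b ∈ ball a 1) : a ∈ sphere 0 r := by
  refine ⟨ha, ?_⟩
  rw [mem_ball] at ha hb hab
  simp only [Prod.fst_zero, Prod.snd_zero, zero_sub, zero_add] at *
  push_cast at hab
  omega

/-! ### Winding -/

theorem rect_strip {a b c d : ℤ} {H : ℕ} (h1 : -(H : ℤ) < a + c) (h2 : b + d < H) :
    rect a b c d ⊆ strip H := by
  intro v hv
  simp only [rect, Set.mem_ofPred_eq] at hv
  simp only [strip, Set.mem_ofPred_eq]
  omega

theorem dom_strip (hk : 1 ≤ k) (hn : 256 * k ≤ n) : dom .E .W k ⊆ strip (8 * n) := by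
  intro v hv
  rw [mem_dom] at hv
  simp only [strip, Set.mem_ofPred_eq]
  push_cast
  omega

theorem strip_sh {H : ℕ} (j : ℤ) : ∀ v ∈ strip H, sh n j v ∈ strip H := by
  intro v hv
  simp only [strip, Set.mem_ofPred_eq, sh] at hv ⊢
  omega

end Pool.Agent.H47.EX

end

section

/-!
# From the separated event to two winding clusters: probability
-/

set_option autoImplicit false

open MeasureTheory ProbabilityTheory unitInterval

namespace Pool.Agent.H47.EX

open Pool.Agent.H89.Perc hiding per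
open Pool.Agent.H59.EX
open Pool.Agent.H61.NC (RSWreg)
open Pool.Agent.H89.Link (per base per_eq Fc2)

/-- The regularity condition at the critical point. -/
theorem rswreg_half : ∃ c : ℝ, 0 < c ∧ ∀ n : ℕ, RSWreg c n half := by
  obtain ⟨c, hc, h⟩ := rsw
  refine ⟨c, hc, fun n m hm _ => ⟨h m hm, ?_⟩⟩
  rw [rsw_symm_half]
  exact h m hm

end Pool.Agent.H47.EX

end

section

/-! Recursions of `F22`, `F13`. -/

namespace H56.EX

open scoped BigOperators Classical

lemma gfac_congr {L : ℕ} {i : ℤ} {ζ : ℤ → ℂ} {x : ℂ} {y : ℕ → ℂ} (h1 : ζ (i + 1) = x)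
    (h2 : ∀ s, s < L → ζ (i + 2 + s) = y s) :
    gfac L i ζ = -q * x * (∏ s ∈ Finset.range L, (y s - q * x) ^ 2) / 3 ^ L := by
  unfold gfac
  rw [h1]
  congr 2
  refine Finset.prod_congr rfl fun s hs => ?_
  rw [h2 s (Finset.mem_range.1 hs)]

lemma scons_eta (z : ℕ → ℂ) : scons (z 0) (fun n => z (n + 1)) = z := by
  funext n
  rcases n with _ | n <;> rfl

section psi

variable {Ψ : ∀ L : ℕ, Pat L → (ℤ → ℂ) → ℂ} (hΨ : PsiProps Ψ) (hT : LegTop)

include hΨ hT

theorem F22_rec_right (M : ℕ) (hM : 1 ≤ M) (a0 b0 b1 : ℂ) (z : ℕ → ℂ) :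
    F22 Ψ (M + 1) a0 (q ^ 2 * z 0) b0 b1 z =
      (-q * z 0 * ((∏ s ∈ Finset.range M, (z (s + 1) - q * z 0) ^ 2) * (a0 - q * z 0) ^ 2) /
        3 ^ (M + 1)) * F13 Ψ M a0 b0 b1 (z 0) (fun n => z (n + 1)) := by
  set s : ℕ → ℂ := scons a0 (scons (q ^ 2 * z 0) z) with hs
  have e1 : par (M + 1 + 2) s ((1 : ℕ) : ℤ) = q ^ 2 * z 0 := par_nat _ (by omega)
  have e2 : par (M + 1 + 2) s (((1 : ℕ) : ℤ) + 1) = z 0 := by
    have : (((1 : ℕ) : ℤ) + 1) = ((2 : ℕ) : ℤ) := by norm_num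
    rw [this]; exact par_nat _ (by omega)
  have h := rec_right hΨ (Lt := M + 1) (Lb := M + 3) 1 2 M
    (fun Pt Pb => hT.right 1 2 M (by omega) (by omega) Pt Pb) (by omega)
    (par (M + 1 + 2) s) (per_par _ _) (by rw [e1, e2])
    (fun P : Pat (M + 3) => Ψ (M + 3) P
      (par (M + 3) (scons b0⁻¹ (scons b1⁻¹ (fun n => (z n)⁻¹)))))
  rw [phi_par (by omega) s 1 (by omega)] at h
  have hg : gfac (M + 1) ((1 : ℕ) : ℤ) (par (M + 1 + 2) s) =
      -q * z 0 * (∏ k ∈ Finset.range (M + 1), ((if k < M then z (k + 1) else a0) - q * z 0) ^ 2) /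
        3 ^ (M + 1) := by
    apply gfac_congr (y := fun k => if k < M then z (k + 1) else a0) e2
    intro k hk
    by_cases h : k < M
    · have : ((1 : ℕ) : ℤ) + 2 + (k : ℤ) = ((k + 1 + 2 : ℕ) : ℤ) := by push_cast; ring
      rw [this, par_nat _ (by omega)]
      simp only [h, if_true]
      rfl
    · simp only [h, if_false]
      have hk : k = M := by omega
      subst hk
      have : par (k + 1 + 2) s (((1 : ℕ) : ℤ) + 2 + (k : ℤ)) = s 0 := by
        apply par_of s (by omega)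
        refine ⟨1, by push_cast; ring⟩
      rw [this]; rfl
  rw [hg, Finset.prod_range_succ] at h
  have hp : ∏ k ∈ Finset.range M, ((if k < M then z (k + 1) else a0) - q * z 0) ^ 2 =
      ∏ k ∈ Finset.range M, (z (k + 1) - q * z 0) ^ 2 := by
    refine Finset.prod_congr rfl fun k hk => ?_
    rw [if_pos (Finset.mem_range.1 hk)]
  rw [hp, if_neg (lt_irrefl M)] at h
  have hs' : (fun n => if n < 1 then s n else s (n + 2)) = scons a0 (fun n => z (n + 1)) := by
    funext n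
    rcases n with _ | n
    · rfl
    · rfl
  rw [hs'] at h
  have hb : scons b0⁻¹ (scons b1⁻¹ (scons (z 0)⁻¹ (fun n => (z (n + 1))⁻¹))) =
      scons b0⁻¹ (scons b1⁻¹ (fun n => (z n)⁻¹)) := by
    congr 2
    exact scons_eta (fun n => (z n)⁻¹)
  unfold F22 F13
  rw [hb]
  exact h

theorem F22_rec_left (M : ℕ) (hM : 1 ≤ M) (a0 a1 b0 b1 : ℂ) (z : ℕ → ℂ)
    (hz : z M = q ^ 2 * a0) :
    F22 Ψ (M + 1) a0 a1 b0 b1 z =
      (-q * a0 * ((∏ s ∈ Finset.range M, (z s - q * a0) ^ 2) * (a1 - q * a0) ^ 2) /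
        3 ^ (M + 1)) * F13 Ψ M a1 (z M) b0 b1 z := by
  set s : ℕ → ℂ := scons a0 (scons a1 z) with hs
  set s' : ℕ → ℂ := scons b0⁻¹ (scons b1⁻¹ (fun n => (z n)⁻¹)) with hs'
  have e1 : par (M + 1 + 2) s (-1) = z M := by
    have : par (M + 1 + 2) s (-1) = s (M + 2) := by
      apply par_of s (by omega)
      refine ⟨-1, by push_cast; ring⟩
    rw [this]; rfl
  have e2 : par (M + 1 + 2) s 0 = a0 := par_nat (L := M + 1 + 2) s (n := 0) (by omega)
  have h := rec_left hΨ (Lt := M + 1) (Lb := M + 3) 1 2 M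
    (fun Pt Pb => hT.left 1 2 M (by omega) (by omega) Pt Pb) (by omega)
    (par (M + 1 + 2) s) (par (M + 3) s') (per_par _ _) (per_par _ _) (by rw [e1, e2, hz])
  rw [phi_par_left (by omega) s, rot_par (by omega) s'] at h
  have hg : gfac (M + 1) (-1) (par (M + 1 + 2) s) =
      -q * a0 * (∏ k ∈ Finset.range (M + 1), (scons a1 z k - q * a0) ^ 2) /
        3 ^ (M + 1) := by
    apply gfac_congr (y := scons a1 z) (by simpa using e2)
    intro k hk
    have : (-1 : ℤ) + 2 + (k : ℤ) = ((k + 1 : ℕ) : ℤ) := by push_cast; ring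
    rw [this, par_nat _ (by omega)]
    rfl
  rw [hg, Finset.prod_range_succ'] at h
  exact h

theorem F13_rec_right (M : ℕ) (a b0 b1 : ℂ) (z : ℕ → ℂ) :
    F13 Ψ (M + 1) a b0 b1 (q * z 0) z =
      (-q * (z 0)⁻¹ * ((∏ s ∈ Finset.range M, ((z (s + 1))⁻¹ - q * (z 0)⁻¹) ^ 2) *
        (b0⁻¹ - q * (z 0)⁻¹) ^ 2 * (b1⁻¹ - q * (z 0)⁻¹) ^ 2) /
        3 ^ (M + 2)) * F22 Ψ M a (z 0) b0 b1 (fun n => z (n + 1)) := by
  set s : ℕ → ℂ := scons b0⁻¹ (scons b1⁻¹ (scons (q * z 0)⁻¹ (fun n => (z n)⁻¹))) with hs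
  have e1 : par (M + 2 + 2) s ((2 : ℕ) : ℤ) = (q * z 0)⁻¹ := par_nat _ (by omega)
  have e2 : par (M + 2 + 2) s (((2 : ℕ) : ℤ) + 1) = (z 0)⁻¹ := by
    have : (((2 : ℕ) : ℤ) + 1) = ((3 : ℕ) : ℤ) := by norm_num
    rw [this]; exact par_nat _ (by omega)
  have h := rec_right hΨ (Lt := M + 2) (Lb := M + 2) 2 1 M
    (fun Pt Pb => hT.right 2 1 M (by omega) (by omega) Pt Pb) (by omega)
    (par (M + 2 + 2) s) (per_par _ _) (by rw [e1, e2, mul_inv, q_inv])
    (fun P : Pat (M + 2) => Ψ (M + 2) P (par (M + 2) (scons a z)))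
  rw [phi_par (by omega) s 2 (by omega)] at h
  have hg : gfac (M + 2) ((2 : ℕ) : ℤ) (par (M + 2 + 2) s) =
      -q * (z 0)⁻¹ * (∏ k ∈ Finset.range (M + 2), ((if k < M then (z (k + 1))⁻¹ else
        if k = M then b0⁻¹ else b1⁻¹) - q * (z 0)⁻¹) ^ 2) / 3 ^ (M + 2) := by
    apply gfac_congr (y := fun k => if k < M then (z (k + 1))⁻¹ else
        if k = M then b0⁻¹ else b1⁻¹) e2
    intro k hk
    by_cases h : k < M
    · have : ((2 : ℕ) : ℤ) + 2 + (k : ℤ) = ((k + 1 + 3 : ℕ) : ℤ) := by push_cast; ring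
      rw [this, par_nat _ (by omega)]
      simp only [h, if_true]
      rfl
    · simp only [h, if_false]
      by_cases hk : k = M
      · subst hk
        have : par (k + 2 + 2) s (((2 : ℕ) : ℤ) + 2 + (k : ℤ)) = s 0 := by
          apply par_of s (by omega)
          refine ⟨1, by push_cast; ring⟩
        rw [this, if_pos rfl]; rfl
      · rw [if_neg hk]
        have hk' : k = M + 1 := by omega
        subst hk'
        have : par (M + 2 + 2) s (((2 : ℕ) : ℤ) + 2 + ((M + 1 : ℕ) : ℤ)) = s 1 := by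
          apply par_of s (by omega)
          refine ⟨1, by push_cast; ring⟩
        rw [this]; rfl
  rw [hg, Finset.prod_range_succ, Finset.prod_range_succ] at h
  have hp : ∏ k ∈ Finset.range M, ((if k < M then (z (k + 1))⁻¹ else
        if k = M then b0⁻¹ else b1⁻¹) - q * (z 0)⁻¹) ^ 2 =
      ∏ k ∈ Finset.range M, ((z (k + 1))⁻¹ - q * (z 0)⁻¹) ^ 2 := by
    refine Finset.prod_congr rfl fun k hk => ?_
    rw [if_pos (Finset.mem_range.1 hk)]
  rw [hp, if_neg (lt_irrefl M), if_pos rfl, if_neg (by omega), if_neg (by omega)] at h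
  have hs' : (fun n => if n < 2 then s n else s (n + 2)) =
      scons b0⁻¹ (scons b1⁻¹ (fun n => (z (n + 1))⁻¹)) := by
    funext n
    rcases n with _ | _ | n
    · rfl
    · rfl
    · rfl
  rw [hs'] at h
  have ht : scons a (scons (z 0) (fun n => z (n + 1))) = scons a z := by rw [scons_eta]
  unfold F22 F13
  rw [ht, legSum_swap 1 3, legSum_swap 2 2]
  exact h

theorem F13_rec_left (M : ℕ) (a b0 b1 b2 : ℂ) (z : ℕ → ℂ) (hz : b0 = q ^ 2 * z M) :
    F13 Ψ (M + 1) a b0 b1 b2 z =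
      (-q * b0⁻¹ * ((∏ s ∈ Finset.range M, ((z s)⁻¹ - q * b0⁻¹) ^ 2) *
        (b2⁻¹ - q * b0⁻¹) ^ 2 * (b1⁻¹ - q * b0⁻¹) ^ 2) /
        3 ^ (M + 2)) * F22 Ψ M (z M) a b1 b2 z := by
  set s : ℕ → ℂ := scons b0⁻¹ (scons b1⁻¹ (scons b2⁻¹ (fun n => (z n)⁻¹))) with hs
  set s' : ℕ → ℂ := scons a z with hs'
  have e1 : par (M + 2 + 2) s (-1) = (z M)⁻¹ := by
    have : par (M + 2 + 2) s (-1) = s (M + 3) := by
      apply par_of s (by omega)
      refine ⟨-1, by push_cast; ring⟩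
    rw [this]; rfl
  have e2 : par (M + 2 + 2) s 0 = b0⁻¹ := par_nat (L := M + 2 + 2) s (n := 0) (by omega)
  have hq3 : q ^ 2 * (q ^ 2)⁻¹ = 1 := mul_inv_cancel₀ (pow_ne_zero _ q_ne_zero)
  have h := rec_left hΨ (Lt := M + 2) (Lb := M + 2) 2 1 M
    (fun Pt Pb => hT.left 2 1 M (by omega) (by omega) Pt Pb) (by omega)
    (par (M + 2 + 2) s) (par (M + 2) s') (per_par _ _) (per_par _ _)
    (by rw [e1, e2, hz, mul_inv, ← mul_assoc, hq3, one_mul])
  rw [phi_par_left (by omega) s, rot_par (by omega) s'] at h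
  have hg : gfac (M + 2) (-1) (par (M + 2 + 2) s) =
      -q * b0⁻¹ * (∏ k ∈ Finset.range (M + 2),
        (scons b1⁻¹ (scons b2⁻¹ (fun n => (z n)⁻¹)) k - q * b0⁻¹) ^ 2) / 3 ^ (M + 2) := by
    apply gfac_congr (y := scons b1⁻¹ (scons b2⁻¹ (fun n => (z n)⁻¹))) (by simpa using e2)
    intro k hk
    have : (-1 : ℤ) + 2 + (k : ℤ) = ((k + 1 : ℕ) : ℤ) := by push_cast; ring
    rw [this, par_nat _ (by omega)]
    rfl
  rw [hg, Finset.prod_range_succ', Finset.prod_range_succ'] at h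
  unfold F22 F13
  rw [legSum_swap 1 3, legSum_swap 2 2]
  exact h

end psi

end H56.EX

end

section

/-! Main theorem: the explicit leg functions. -/

namespace H56.EX

open Finset Pool.Agent.H96.EX

/-- a generic set of parameters -/
structure GG (M : ℕ) (x y w : ℂ) (z : ℕ → ℂ) : Prop where
  gz : Gen M z
  x0 : x ≠ 0
  y0 : y ≠ 0
  w0 : w ≠ 0
  xy : Cub x y
  xw : Cub x w
  yw : Cub y w
  xz : ∀ j, j < M → Cub x (z j)
  yz : ∀ j, j < M → Cub y (z j)
  wz : ∀ j, j < M → Cub w (z j)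

lemma swap_lt {M j k : ℕ} (hj : j + 1 < M) (hk : k < M) : Equiv.swap j (j + 1) k < M := by
  by_cases h1 : k = j
  · subst h1; simp; omega
  by_cases h2 : k = j + 1
  · subst h2; simp; omega
  rw [Equiv.swap_apply_of_ne_of_ne h1 h2]; exact hk

lemma GG.swap {M : ℕ} {x y w : ℂ} {z : ℕ → ℂ} (h : GG M x y w z) (j : ℕ) (hj : j + 1 < M) :
    GG M x y w (z ∘ Equiv.swap j (j + 1)) :=
  ⟨h.gz.swap j hj, h.x0, h.y0, h.w0, h.xy, h.xw, h.yw, fun _ hk => h.xz _ (swap_lt hj hk),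
    fun _ hk => h.yz _ (swap_lt hj hk), fun _ hk => h.wz _ (swap_lt hj hk)⟩

lemma GG.mvf {M : ℕ} {x y w : ℂ} : ∀ (j : ℕ) (_ : j < M) (z : ℕ → ℂ), GG M x y w z →
    GG M x y w (mvf j z) := by
  intro j
  induction j with
  | zero => intro _ z hz; rw [mvf_zero]; exact hz
  | succ j ih =>
    intro hj z hz
    rw [mvf_succ]
    exact ih (by omega) _ (hz.swap j hj)

lemma Gen.shift {M : ℕ} {z : ℕ → ℂ} (h : Gen (M + 1) z) : Gen M (fun n => z (n + 1)) :=
  ⟨fun j hj => h.1 _ (by omega), fun j k hj hk hjk => h.2 _ _ (by omega) (by omega) (by omega)⟩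

lemma Gen.mono {M : ℕ} {z : ℕ → ℂ} (h : Gen (M + 1) z) : Gen M z :=
  ⟨fun j hj => h.1 _ (by omega), fun j k hj hk hjk => h.2 _ _ (by omega) (by omega) (by omega)⟩

lemma GG.shift {M : ℕ} {x y w : ℂ} {z : ℕ → ℂ} (h : GG (M + 1) x y w z) :
    GG M x y w (fun n => z (n + 1)) :=
  ⟨h.gz.shift, h.x0, h.y0, h.w0, h.xy, h.xw, h.yw, fun _ hk => h.xz _ (by omega),
    fun _ hk => h.yz _ (by omega), fun _ hk => h.wz _ (by omega)⟩

lemma GG.last13 {M : ℕ} {x y w : ℂ} {z : ℕ → ℂ} (h : GG (M + 1) x y w z) :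
    GG M x (z M) y z :=
  ⟨h.gz.mono, h.x0, h.gz.1 M (by omega), h.y0, h.xz M (by omega), h.xy,
    (h.yz M (by omega)).symm, fun _ hk => h.xz _ (by omega),
    fun j hk => h.gz.2 M j (by omega) (by omega) (by omega), fun _ hk => h.yz _ (by omega)⟩

lemma GG.last22 {M : ℕ} {x y w : ℂ} {z : ℕ → ℂ} (h : GG (M + 1) x y w z) :
    GG M (z M) y w z :=
  ⟨h.gz.mono, h.gz.1 M (by omega), h.y0, h.w0, (h.yz M (by omega)).symm,
    (h.wz M (by omega)).symm, h.yw, fun j hk => h.gz.2 M j (by omega) (by omega) (by omega),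
    fun _ hk => h.yz _ (by omega), fun _ hk => h.wz _ (by omega)⟩

lemma R22_swap_a (M : ℕ) (a0 a1 b0 b1 : ℂ) (z : ℕ → ℂ) :
    (q * a1 - q⁻¹ * a0) * R22 M a1 a0 b0 b1 z = (q * a0 - q⁻¹ * a1) * R22 M a0 a1 b0 b1 z := by
  unfold R22
  rw [TM_perm (c := [a0, a1, b0, b1]) (c' := [a1, a0, b0, b1]) (List.Perm.swap _ _ _)]
  ring

lemma R13_swap_b01 (M : ℕ) (a b0 b1 b2 : ℂ) (z : ℕ → ℂ) (h0 : b0 ≠ 0) (h1 : b1 ≠ 0) :
    (q * b1⁻¹ - q⁻¹ * b0⁻¹) * R13 M a b1 b0 b2 z =
      (q * b0⁻¹ - q⁻¹ * b1⁻¹) * R13 M a b0 b1 b2 z := by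
  have e1 : (q * b1⁻¹ - q⁻¹ * b0⁻¹) = (q * b0 - q⁻¹ * b1) / (b0 * b1) := by
    have hq0 := q_ne_zero
    field_simp
  have e2 : (q * b0⁻¹ - q⁻¹ * b1⁻¹) = (q * b1 - q⁻¹ * b0) / (b0 * b1) := by
    have hq0 := q_ne_zero
    field_simp
  unfold R13
  rw [TM_perm (c := [b2, a, b1, b0]) (c' := [b2, a, b0, b1])
    (by
      rw [List.perm_iff_count]
      intro x
      simp only [List.count_cons, List.count_nil]
      ring), e1, e2, show b1 * b0 * b2 = b0 * b1 * b2 by ring]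
  ring

lemma R13_swap_b12 (M : ℕ) (a b0 b1 b2 : ℂ) (z : ℕ → ℂ) (h1 : b1 ≠ 0) (h2 : b2 ≠ 0) :
    (q * b2⁻¹ - q⁻¹ * b1⁻¹) * R13 M a b0 b2 b1 z =
      (q * b1⁻¹ - q⁻¹ * b2⁻¹) * R13 M a b0 b1 b2 z := by
  have e1 : (q * b2⁻¹ - q⁻¹ * b1⁻¹) = (q * b1 - q⁻¹ * b2) / (b1 * b2) := by
    have hq0 := q_ne_zero
    field_simp
  have e2 : (q * b1⁻¹ - q⁻¹ * b2⁻¹) = (q * b2 - q⁻¹ * b1) / (b1 * b2) := by
    have hq0 := q_ne_zero
    field_simp
  unfold R13
  rw [TM_perm (c := [b1, a, b0, b2]) (c' := [b2, a, b0, b1])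
    (by
      rw [List.perm_iff_count]
      intro x
      simp only [List.count_cons, List.count_nil]
      ring), e1, e2, show b0 * b2 * b1 = b0 * b1 * b2 by ring]
  ring

open Polynomial in
/-- `R22` is polynomial in the last top leg -/
lemma R22_poly (M : ℕ) (a0 b0 b1 : ℂ) (z : ℕ → ℂ) :
    ∃ p : Polynomial ℂ, p.natDegree ≤ M + 1 ∧ ∀ t, R22 M a0 t b0 b1 z = p.eval t := by
  obtain ⟨p, hp, he⟩ := TM_poly M [a0, b0, b1] z
  refine ⟨C (-(q * b0 - q⁻¹ * b1) / (3 ^ (ee M) * (b0 * b1 * ∏ k ∈ range M, z k) ^ (M + 1))) *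
    ((C q * X - C (q⁻¹ * a0)) * p), ?_, fun t => ?_⟩
  · refine (natDegree_C_mul_le _ _).trans ?_
    refine natDegree_mul_le.trans ?_
    have h1 : (C q * X - C (q⁻¹ * a0)).natDegree ≤ 1 := by
      refine (natDegree_sub_le _ _).trans ?_
      rw [natDegree_C]
      refine max_le ((natDegree_C_mul_le _ _).trans natDegree_X_le) (Nat.zero_le _)
    omega
  · unfold R22
    rw [he]
    simp only [eval_mul, eval_C, eval_sub, eval_X]
    ring

open Polynomial in
/-- `R13` is polynomial in the last bottom leg, up to a power -/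
lemma R13_poly (M : ℕ) (a b0 b1 : ℂ) (z : ℕ → ℂ) :
    ∃ p : Polynomial ℂ, p.natDegree ≤ M + 2 ∧
      ∀ t, t ≠ 0 → t ^ (M + 2) * R13 M a b0 b1 t z = p.eval t := by
  obtain ⟨p, hp, he⟩ := TM_poly M [a, b0, b1] z
  refine ⟨C (-((q ^ 2 - q) * (q * b0 - q⁻¹ * b1)) /
      (3 ^ (ee M + 1) * (b0 * b1 * ∏ k ∈ range M, z k) ^ (M + 2))) *
    ((C (-q⁻¹) * X + C (q * b0)) * ((C (-q⁻¹) * X + C (q * b1)) * p)), ?_, fun t ht => ?_⟩
  · refine (natDegree_C_mul_le _ _).trans ?_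
    have h1 : ∀ c : ℂ, (C (-q⁻¹) * X + C c).natDegree ≤ 1 := by
      intro c
      refine (natDegree_add_le _ _).trans ?_
      rw [natDegree_C]
      refine max_le ((natDegree_C_mul_le _ _).trans natDegree_X_le) (Nat.zero_le _)
    have h2 := h1 (q * b0)
    have h3 := h1 (q * b1)
    refine natDegree_mul_le.trans ?_
    have h4 : ((C (-q⁻¹) * X + C (q * b1)) * p).natDegree ≤ 1 + M :=
      natDegree_mul_le.trans (by omega)
    omega
  · unfold R13
    rw [he]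
    simp only [eval_mul, eval_C, eval_add, eval_X]
    rw [show b0 * b1 * t * ∏ k ∈ range M, z k = (b0 * b1 * ∏ k ∈ range M, z k) * t by ring,
      mul_pow]
    have ht' : t ^ (M + 2) ≠ 0 := pow_ne_zero _ ht
    rw [mul_div_assoc', show (3 : ℂ) ^ (ee M + 1) * ((b0 * b1 * ∏ k ∈ range M, z k) ^ (M + 2) *
      t ^ (M + 2)) = t ^ (M + 2) * (3 ^ (ee M + 1) * (b0 * b1 * ∏ k ∈ range M, z k) ^ (M + 2))
      by ring, mul_div_mul_left _ _ ht']
    ring

lemma q_cancel {x y : ℂ} (h : q * x = q ^ 2 * y) : x = q * y := by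
  have : q * (x - q * y) = 0 := by linear_combination h
  rcases mul_eq_zero.1 this with h1 | h1
  · exact absurd h1 q_ne_zero
  · exact sub_eq_zero.1 h1

lemma q_cancel1 {x y : ℂ} (h : q * x = q * y) : x = y := mul_left_cancel₀ q_ne_zero h

lemma q_cancel2 {x y : ℂ} (h : q ^ 2 * x = q ^ 2 * y) : x = y :=
  mul_left_cancel₀ (pow_ne_zero _ q_ne_zero) h

lemma R22_zero_q (M : ℕ) (a0 b0 b1 : ℂ) (z : ℕ → ℂ) : R22 M a0 (q * a0) b0 b1 z = 0 := by
  unfold R22
  have h1 : q * (q * a0) - q⁻¹ * a0 = 0 := by rw [q_inv]; ring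
  rw [h1]
  simp

lemma R13_zero_b12 (M : ℕ) (a b0 b1 : ℂ) (z : ℕ → ℂ) : R13 M a b0 b1 (q ^ 2 * b1) z = 0 := by
  unfold R13
  have h1 : q * b1 - q⁻¹ * (q ^ 2 * b1) = 0 := by
    rw [q_inv]; linear_combination (-q * b1) * q_cube
  rw [h1]
  simp

lemma R13_zero_b02 (M : ℕ) (a b0 b1 : ℂ) (z : ℕ → ℂ) : R13 M a b0 b1 (q ^ 2 * b0) z = 0 := by
  unfold R13
  have h1 : q * b0 - q⁻¹ * (q ^ 2 * b0) = 0 := by
    rw [q_inv]; linear_combination (-q * b0) * q_cube
  rw [h1]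
  simp

lemma Cub.g_inv {x y : ℂ} (hx : x ≠ 0) (hy : y ≠ 0) (h : Cub x y) :
    q * x⁻¹ - q⁻¹ * y⁻¹ ≠ 0 := by
  have e : q * x⁻¹ - q⁻¹ * y⁻¹ = (q * y - q⁻¹ * x) / (x * y) := by
    have hq0 := q_ne_zero
    field_simp
  rw [e]
  exact div_ne_zero h.symm.g (mul_ne_zero hx hy)

section psi

variable {Ψ : ∀ L : ℕ, Pat L → (ℤ → ℂ) → ℂ} (hΨ : PsiProps Ψ)

include hΨ

lemma F22_zero_q (M : ℕ) (a0 b0 b1 : ℂ) (z : ℕ → ℂ) (ha : a0 ≠ 0) :
    F22 Ψ M a0 (q * a0) b0 b1 z = 0 := by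
  have h := F22_swap_a hΨ M a0 (q * a0) b0 b1 z
  have h1 : q * (q * a0) - q⁻¹ * a0 = 0 := by rw [q_inv]; ring
  have h2 : q * a0 - q⁻¹ * (q * a0) ≠ 0 := by
    rw [← mul_assoc, inv_mul_cancel₀ q_ne_zero]
    intro h
    have : (q - 1) * a0 = 0 := by linear_combination h
    rcases mul_eq_zero.1 this with h3 | h3
    · exact q_ne_one (sub_eq_zero.1 h3)
    · exact ha h3
  rw [h1, zero_mul] at h
  exact (mul_eq_zero.1 h.symm).resolve_left h2

lemma F13_zero_b12 (M : ℕ) (a b0 b1 : ℂ) (z : ℕ → ℂ) (hb : b1 ≠ 0) :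
    F13 Ψ M a b0 b1 (q ^ 2 * b1) z = 0 := by
  have h := F13_swap_b12 hΨ M a b0 b1 (q ^ 2 * b1) z
  have hq := q_ne_zero
  have h1 : q * (q ^ 2 * b1)⁻¹ - q⁻¹ * b1⁻¹ = 0 := by
    field_simp
    ring
  have h2 : q * b1⁻¹ - q⁻¹ * (q ^ 2 * b1)⁻¹ ≠ 0 := by
    intro h
    field_simp at h
    have h4 : q = 1 := by linear_combination h - q * q_cube
    exact q_ne_one h4
  rw [h1, zero_mul] at h
  exact (mul_eq_zero.1 h.symm).resolve_left h2

lemma F13_zero_b02 (M : ℕ) (a b0 b1 : ℂ) (z : ℕ → ℂ) (hb : b0 ≠ 0)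
    (hc : q * b0⁻¹ - q⁻¹ * b1⁻¹ ≠ 0) :
    F13 Ψ M a b0 b1 (q ^ 2 * b0) z = 0 := by
  have h := F13_swap_b01 hΨ M a b0 b1 (q ^ 2 * b0) z
  rw [F13_zero_b12 hΨ M a b1 b0 z hb, mul_zero] at h
  exact (mul_eq_zero.1 h.symm).resolve_left hc

variable (hT : LegTop)

include hT

/-- the statement for F22 -/
def P22 (Ψ : ∀ L : ℕ, Pat L → (ℤ → ℂ) → ℂ) (M : ℕ) : Prop :=
  ∀ (a0 b0 b1 : ℂ) (z : ℕ → ℂ), GG M a0 b0 b1 z → ∀ a1, F22 Ψ M a0 a1 b0 b1 z = R22 M a0 a1 b0 b1 z

/-- the statement for F13 -/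
def P13 (Ψ : ∀ L : ℕ, Pat L → (ℤ → ℂ) → ℂ) (M : ℕ) : Prop :=
  ∀ (a b0 b1 : ℂ) (z : ℕ → ℂ), GG M a b0 b1 z → ∀ b2, b2 ≠ 0 →
    F13 Ψ M a b0 b1 b2 z = R13 M a b0 b1 b2 z

end psi

end H56.EX

end

section

/-! The topological lemmas collected. -/

namespace H56.EX

theorem legTop : LegTop where
  adj := fun kt kb M h1 h2 Pt Pb j hj => leg_adj kt kb M h1 h2 Pt Pb j hj
  right := fun kt kb M h1 h2 Pt Pb => leg_ins_right kt kb M h1 h2 Pt Pb
  left := fun kt kb M h1 h2 Pt Pb => leg_ins_left kt kb M h1 h2 Pt Pb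

end H56.EX

end

section

/-! The leg formula for all nonzero parameters, in terms of the polynomial `S4`. -/

namespace H56.EX

open Finset Filter Topology

/-- helper96's `S4` -/
noncomputable abbrev S4 := Pool.Agent.H96.EX.S4

lemma prp_eq_prz : ∀ (M : ℕ) (z : ℕ → ℂ), prp M z = Pool.Agent.H96.EX.prz M z := by
  intro M
  induction M with
  | zero => intro z; simp [prp, Pool.Agent.H96.EX.prz_range']
  | succ M ih =>
    intro z
    simp only [prp]
    rw [ih, Pool.Agent.H96.EX.prz_range', Pool.Agent.H96.EX.prz_range', Finset.prod_range_succ']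
    simp only [Finset.prod_range_succ', range_zero, prod_empty, mul_one]
    rw [Finset.prod_mul_distrib, mul_comm]

/-- `TM` is the polynomial `S4` at generic points -/
lemma TM_eq_S4 (M : ℕ) (a b c d : ℂ) (z : ℕ → ℂ) (hz : Gen M z) :
    TM M [a, b, c, d] z = S4 M ![a, b, c, d] z := by
  unfold TM S4
  rw [prp_eq_prz, Pool.Agent.H96.EX.S4_eq_SG_range a b c d z
    (fun i j hij => hz.2 i j i.2 j.2 (fun h => hij (Fin.ext h)))]

lemma legSum_contAt {Lt Lb : ℕ} (kt kb M : ℕ) (v : ℂ → Pat Lt → ℂ) (w : ℂ → Pat Lb → ℂ)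
    (hv : ∀ P, ContinuousAt (fun t => v t P) 0) (hw : ∀ P, ContinuousAt (fun t => w t P) 0) :
    ContinuousAt (fun t => legSum kt kb M (v t) (w t)) 0 := by
  simp only [legSum_eq]
  apply tendsto_finsetSum
  intro Pt _
  apply tendsto_finsetSum
  intro Pb _
  exact continuousAt_const.mul ((hv Pt).mul (hw Pb))

section cont

variable {Ψ : ∀ L : ℕ, Pat L → (ℤ → ℂ) → ℂ} (hΨ : PsiProps Ψ)

include hΨ

lemma psi_contAt (L : ℕ) (P : Pat L) (s : ℂ → ℕ → ℂ)
    (hs : ∀ n, n < L → ContinuousAt (fun t => s t n) 0) :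
    ContinuousAt (fun t => Ψ L P (par L (s t))) 0 := by
  obtain ⟨p, hp⟩ := hΨ.mv L P
  have h : (fun t => Ψ L P (par L (s t))) =
      fun t => MvPolynomial.eval (fun k : Fin L => s t k) p := by
    funext t
    rw [hp]
    congr 2
    funext k
    exact par_nat _ k.2
  rw [h]
  exact ((MvPolynomial.continuous_eval p).continuousAt).comp
    (continuousAt_pi.2 fun k => hs k k.2)

end cont

lemma bad_finite (N : ℕ) (w : ℕ → ℂ) :
    {t : ℂ | ¬ Gen N (Pool.Agent.H96.EX.zt w t)}.Finite := by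
  have h1 := Pool.Agent.H96.EX.cubes_finite (M := N) w
  have h2 : (⋃ j ∈ range N, {t : ℂ | w j + t * ((j : ℂ) + 1) = 0}).Finite := by
    apply Set.Finite.biUnion (Finset.finite_toSet _)
    intro j _
    have hj : ((j : ℂ) + 1) ≠ 0 := by exact_mod_cast Nat.succ_ne_zero j
    apply Set.Finite.subset (Set.finite_singleton (-(w j) / ((j : ℂ) + 1)))
    intro t ht
    simp only [Set.mem_ofPred_eq] at ht
    rw [Set.mem_singleton_iff, eq_div_iff hj]
    linear_combination ht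
  apply (h1.union h2).subset
  intro t ht
  simp only [Set.mem_ofPred_eq, Set.mem_union, Set.mem_iUnion] at ht ⊢
  by_contra hcon
  push Not at hcon
  apply ht
  refine ⟨fun j hj => hcon.2 j (mem_range.2 hj), fun j k hj hk hjk => ?_⟩
  exact hcon.1 ⟨j, hj⟩ ⟨k, hk⟩ (fun h => hjk (congrArg Fin.val h))

lemma gen_eventually (N : ℕ) (w : ℕ → ℂ) :
    ∀ᶠ t in 𝓝[≠] (0 : ℂ), Gen N (Pool.Agent.H96.EX.zt w t) := by
  have h := (bad_finite N w).subset (Set.sdiff_subset (t := {0}))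
  have hc : (({t : ℂ | ¬ Gen N (Pool.Agent.H96.EX.zt w t)} \ {0})ᶜ) ∈ 𝓝 (0 : ℂ) := by
    apply h.isClosed.isOpen_compl.mem_nhds
    simp
  have hc' : (({t : ℂ | ¬ Gen N (Pool.Agent.H96.EX.zt w t)} \ {0})ᶜ) ∈ 𝓝[≠] (0 : ℂ) :=
    mem_nhdsWithin_of_mem_nhds hc
  filter_upwards [hc', self_mem_nhdsWithin] with t ht ht0
  by_contra hcon
  exact ht ⟨hcon, ht0⟩

lemma GG_of_Gen {M : ℕ} {w : ℕ → ℂ} (h : Gen (M + 3) w) :
    GG M (w 0) (w 1) (w 2) (fun n => w (n + 3)) :=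
  ⟨⟨fun j hj => h.1 _ (by omega), fun j k hj hk hjk => h.2 _ _ (by omega) (by omega) (by omega)⟩,
    h.1 0 (by omega), h.1 1 (by omega), h.1 2 (by omega), h.2 0 1 (by omega) (by omega) (by omega),
    h.2 0 2 (by omega) (by omega) (by omega), h.2 1 2 (by omega) (by omega) (by omega),
    fun j hj => h.2 0 (j + 3) (by omega) (by omega) (by omega),
    fun j hj => h.2 1 (j + 3) (by omega) (by omega) (by omega),
    fun j hj => h.2 2 (j + 3) (by omega) (by omega) (by omega)⟩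

end H56.EX

end

section

/-!
# The homogeneous four-leg function is `f4`
-/

namespace Pool.Agent.H34.Hom

open Finset Pool.Agent.H96.EX Filter Topology

lemma PM_eq_prz (M : ℕ) (z : ℕ → ℂ) : PM M z = prz M z := (prz_range' M z).symm

lemma gen_fin {M : ℕ} {z : ℕ → ℂ} (h : Gen M z) : ∀ i j : Fin M, i ≠ j → (z i) ^ 3 ≠ (z j) ^ 3 :=
  fun i j hij => h i i.2 j j.2 (fun e => hij (Fin.ext e))

theorem S4_HV (M : ℕ) : S4 M ![1, 1, 1, 1] (fun _ => 1) =
    HV H56.EX.q H56.EX.q (H56.EX.q ^ 2) M [1, 1, 1, 1] := by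
  have hcont : Continuous (fun t : ℝ => S4 M ![1, 1, 1, 1] (zt t)) := by
    unfold S4
    apply S_continuous
    · exact continuous_const
    · apply continuous_pi
      intro j
      unfold zt
      fun_prop
  have h1 : Tendsto (fun t : ℝ => S4 M ![1, 1, 1, 1] (zt t)) (𝓝[>] 0)
      (𝓝 (S4 M ![1, 1, 1, 1] (fun _ => 1))) := by
    have h2 := (hcont.tendsto 0).mono_left (nhdsWithin_le_nhds (s := Set.Ioi 0))
    have h3 : zt 0 = fun _ => 1 := by
      funext j; simp [zt]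
    rw [h3] at h2
    exact h2
  refine tendsto_nhds_unique h1 ?_
  refine (tendsto_HV H56.EX.q (H56.EX.q ^ 2) H56.EX.q_sq M [1, 1, 1, 1]).congr' ?_
  filter_upwards [self_mem_nhdsWithin] with t ht
  rw [S4_eq_SG_range 1 1 1 1 (zt t) (gen_fin (gen_zt M ht))]
  unfold SS
  rw [PM_eq_prz]

lemma ee_even (m : ℕ) : H56.EX.ee (2 * m) = 2 * m ^ 2 + 3 * m + 1 := by
  induction m with
  | zero => rfl
  | succ m ih =>
    have h1 : H56.EX.ee (2 * (m + 1)) = H56.EX.ee (2 * m) + (2 * m + 2) + (2 * m + 1 + 2) := rfl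
    rw [h1, ih]; ring

end Pool.Agent.H34.Hom

end

section

/-!
# The homogeneous values: sum of the components and four-leg function
-/

set_option autoImplicit false

namespace Pool.Agent.H34.Hom

open Finset

variable {Ψ : ∀ L : ℕ, H56.EX.Pat L → (ℤ → ℂ) → ℂ}

lemma par_one (L : ℕ) : H56.EX.par L (fun _ => (1 : ℂ)) = fun _ => 1 := rfl

lemma scons_one : H56.EX.scons (1 : ℂ) (fun _ => 1) = fun _ => 1 := by
  funext n
  rcases n with _ | n <;> rfl

/-- the homogeneous vector in size `2 n` -/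
noncomputable def vv (Ψ : ∀ L : ℕ, H56.EX.Pat L → (ℤ → ℂ) → ℂ) (L : ℕ) (P : H56.EX.Pat L) : ℂ :=
  Ψ L P (fun _ => 1)

end Pool.Agent.H34.Hom

end

section

/-!
# The four-arm exponent of the square lattice at `1 / 2`

The four-leg sum of the stationary vector of the cylinder of circumference `2 n` gives the
probability of four arms up to constants.
-/

set_option autoImplicit false

open MeasureTheory ProbabilityTheory unitInterval Filter Topology

namespace Pool.Agent.H89.EX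

open H56.EX
open Pool.Agent.H89.Link
open Pool.Agent.H89.Perc (Vert Edge Config Pr half)
open Pool.Agent.H61.NC (a4 a4_nonneg)
open Pool.Agent.H31.EX (PN)

/-- Outward separation: four arms of the plane can be continued to the four-leg event of the
cylinder. -/
def UpA4 : Prop := ∃ C > (0 : ℝ), ∀ r : ℕ, 1 ≤ r → ∃ n H : ℕ, r ≤ n ∧ 2 ≤ n ∧
  (a4 half r ≤ C * Pr half {ω | per n ω ∈ Fc n H} ∨
    a4 half r ≤ C * Pr half {ω | per n ω ∈ Fc2 n H})

/-- A power law up to constants implies the power law with `o(1)` in the exponent. -/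
theorem PN_of_bounds {f : ℕ → ℝ} {a c C : ℝ} (hc : 0 < c)
    (h : ∀ r : ℕ, 1 ≤ r → c * (r : ℝ) ^ (-a) ≤ f r ∧ f r ≤ C * (r : ℝ) ^ (-a)) : PN f a := by
  intro ε hε
  have h1 : Tendsto (fun r : ℕ => (r : ℝ) ^ ε) atTop atTop :=
    (tendsto_rpow_atTop hε).comp tendsto_natCast_atTop_atTop
  obtain ⟨n₀, hn₀⟩ := (((h1.eventually_ge_atTop (1 / c)).and
    (h1.eventually_ge_atTop C)).and (eventually_ge_atTop 1)).exists_forall_of_atTop
  refine ⟨n₀, fun n hn => ?_⟩
  obtain ⟨⟨h2, h3⟩, h4⟩ := hn₀ n hn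
  obtain ⟨h5, h6⟩ := h n h4
  have hn0 : (0 : ℝ) < n := by exact_mod_cast h4
  have hp : 0 < (n : ℝ) ^ (-a) := by positivity
  have hq : 0 < (n : ℝ) ^ (-a - ε) := by positivity
  constructor
  · refine le_trans ?_ h5
    have e : (n : ℝ) ^ (-a) = (n : ℝ) ^ ε * (n : ℝ) ^ (-a - ε) := by
      rw [← Real.rpow_add hn0]
      congr 1
      ring
    rw [e, ← mul_assoc]
    have : 1 ≤ c * (n : ℝ) ^ ε := by
      rw [div_le_iff₀ hc] at h2
      linarith only [h2]
    nlinarith only [hq, this]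
  · refine h6.trans ?_
    have e : (n : ℝ) ^ (-a + ε) = (n : ℝ) ^ ε * (n : ℝ) ^ (-a) := by
      rw [← Real.rpow_add hn0]
      congr 1
      ring
    rw [e]
    exact mul_le_mul_of_nonneg_right h3 hp.le

end Pool.Agent.H89.EX

end

section

/-!
# Four arms of the plane can be continued to the four-leg event of the cylinder
-/

set_option autoImplicit false

open MeasureTheory ProbabilityTheory unitInterval

namespace Pool.Agent.H47.EX

open Pool.Agent.H89.Perc hiding per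
open Pool.Agent.H59.EX
open Pool.Agent.H61.NC (a4 RSWreg)
open Pool.Agent.H89.Link (per Fc2 FourD)
open Pool.Agent.H89.EX (UpA4)

end Pool.Agent.H47.EX

end

section

/-!
# The upper bound `UpA4` on the four-arm probability of the plane by that of the cylinder
-/

set_option autoImplicit false

open MeasureTheory ProbabilityTheory unitInterval

namespace Pool.Agent.H47.EX

open Pool.Agent.H89.Perc hiding per
open Pool.Agent.H59.EX
open Pool.Agent.H29.Sep (BadIn)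
open Pool.Agent.H89.EX (UpA4)

end Pool.Agent.H47.EX

end

section

/-!
# Probabilities of the corridor event and of the seals; locality
-/

open MeasureTheory ProbabilityTheory unitInterval

namespace Pool.Agent.H26.ST

open Pool.Agent.H89.Perc Pool.Agent.H61.NC Pool.Agent.H59.EX

private lemma mod_eq' {N : ℕ} {x y : ℤ} (h1 : x - y < N) (h2 : y - x < N)
    (h : x % N = y % N) : x = y := by
  have hd : (N : ℤ) ∣ x - y := Int.ModEq.dvd (Int.ModEq.symm h)
  have : x - y = 0 := by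
    apply Int.eq_zero_of_abs_lt_dvd hd
    rw [abs_lt]
    omega
  omega

private lemma conn_congr_on {ω ω' : Config} {D : Set Vert} {u v : Vert}
    (h : ∀ e ∈ inE D, ω e = true → ω' e = true) (hc : Conn ω D u v) : Conn ω' D u v := by
  refine ⟨hc.1, Relation.ReflTransGen.mono ?_ _ _ hc.2⟩
  rintro a b ⟨ha, hb, e, hj, ho⟩
  exact ⟨ha, hb, e, hj, h e ((inE_of_joins hj).2 ⟨ha, hb⟩) ho⟩

private lemma hcross_congr {ω ω' : Config} {a b c d : ℤ}
    (h : ∀ e ∈ inE (rect a b c d), ω e = true → ω' e = true) (hc : HCross ω a b c d) :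
    HCross ω' a b c d := by
  obtain ⟨u, v, hu, hv, hc⟩ := hc
  exact ⟨u, v, hu, hv, conn_congr_on h hc⟩

private lemma mem_inE_rect {a b c d : ℤ} {e : Edge} : e ∈ inE (rect a b c d) ↔
    (a ≤ e.1 ∧ c ≤ e.2.1) ∧ (e.2.2 = true → e.1 ≤ b ∧ e.2.1 + 1 ≤ d) ∧
      (e.2.2 = false → e.1 + 1 ≤ b ∧ e.2.1 ≤ d) := by
  obtain ⟨x, y, t⟩ := e
  cases t
  · simp only [inE, rect, src, tgt, Set.mem_ofPred_eq, Bool.false_eq_true, if_false, false_imp_iff,
      true_and, forall_const]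
    omega
  · simp only [inE, rect, src, tgt, Set.mem_ofPred_eq, if_true, forall_const]
    simp only [Bool.true_eq_false, false_imp_iff, and_true]
    omega

private lemma mem_domP {k : ℕ} {v : Vert} (h : v ∈ dom .W .E k) :
    -(36 * (k : ℤ)) ≤ v.1 ∧ v.1 ≤ 36 * k ∧ -(32 * (k : ℤ)) ≤ v.2 ∧ v.2 ≤ 32 * k ∧
      (32 * (k : ℤ) < |v.1| → -(3 * (k : ℤ)) ≤ v.2 ∧ v.2 ≤ 3 * k) := by
  simp only [dom, T, ball, rect, Set.mem_union, Set.mem_ofPred_eq, Prod.fst_zero,
    Prod.snd_zero] at h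
  push_cast at h
  rcases abs_cases v.1 with h1 | h1 <;> omega

private lemma EC_bounds {N k : ℕ} (hk : 64 ≤ k) (hN : 128 * k ≤ N) {e : Edge} (he : e ∈ EC N k) :
    -(36 * (k : ℤ)) ≤ e.1 ∧ e.1 < N - 36 * k ∧ -(3 * (k : ℤ)) ≤ e.2.1 ∧ e.2.1 ≤ 3 * k := by
  have hN' : 128 * (k : ℤ) ≤ N := by exact_mod_cast hN
  rcases he with ⟨⟨h1, -⟩, h2⟩ | ⟨h1, -⟩
  · simp only [Cor, rect, src, Set.mem_ofPred_eq] at h1
    omega
  · simp only [T, rect, src, Set.mem_ofPred_eq] at h1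
    omega

private lemma dom_bounds {k : ℕ} {e : Edge} (he : e ∈ inE (dom .W .E k)) :
    -(36 * (k : ℤ)) ≤ e.1 ∧ e.1 ≤ 36 * k ∧ -(32 * (k : ℤ)) ≤ e.2.1 ∧ e.2.1 ≤ 32 * k := by
  have h := mem_domP he.1
  simp only [src] at h
  omega

theorem injOn_modE {N k : ℕ} (hk : 64 ≤ k) (hN : 128 * k ≤ N) :
    Set.InjOn (modE N) (inE (dom .W .E k) ∪ EC N k) := by
  have hN' : 128 * (k : ℤ) ≤ N := by exact_mod_cast hN
  have hk' : 64 ≤ (k : ℤ) := by exact_mod_cast hk
  have key : ∀ e ∈ inE (dom .W .E k) ∪ EC N k, -(36 * (k : ℤ)) ≤ e.1 ∧ e.1 < N - 36 * k ∧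
      -(32 * (k : ℤ)) ≤ e.2.1 ∧ e.2.1 ≤ 32 * k := by
    rintro e (he | he)
    · have := dom_bounds he
      omega
    · have := EC_bounds hk hN he
      omega
  rintro ⟨x, y, t⟩ h1 ⟨x', y', t'⟩ h2 h
  have k1 := key _ h1
  have k2 := key _ h2
  simp only at k1 k2
  simp only [modE, Prod.mk.injEq] at h
  obtain ⟨h3, h4, h5⟩ := h
  rw [mod_eq' (by omega) (by omega) h3, mod_eq' (by omega) (by omega) h4, h5]

theorem EC_inter {N k : ℕ} (hk : 64 ≤ k) (hN : 128 * k ≤ N) :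
    EC N k ∩ inE (dom .W .E k) ⊆ inE (T .W k ∪ T .E k) := by
  have hN' : 128 * (k : ℤ) ≤ N := by exact_mod_cast hN
  have key : ∀ v : Vert, v ∈ Cor N k → v ∈ dom .W .E k → v ∈ T .W k ∪ T .E k := by
    intro v h1 h2
    have h3 := mem_domP h2
    right
    simp only [Cor, rect, Set.mem_ofPred_eq] at h1
    simp only [T, rect, Set.mem_ofPred_eq]
    omega
  rintro e ⟨⟨h1, -⟩ | h1, h2⟩
  · exact ⟨key _ h1.1 h2.1, key _ h1.2 h2.2⟩
  · exact ⟨Or.inl h1.1, Or.inl h1.2⟩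

theorem TW_sub (N k : ℕ) : inE (T .W k) ⊆ EC N k := fun _ h => Or.inr h

theorem TE_sub {N k : ℕ} (hk : 64 ≤ k) (hN : 128 * k ≤ N) : inE (T .E k) ⊆ EC N k := by
  have hN' : 128 * (k : ℤ) ≤ N := by exact_mod_cast hN
  have hk' : 64 ≤ (k : ℤ) := by exact_mod_cast hk
  have key : ∀ v : Vert, v ∈ T .E k → v ∈ Cor N k := by
    intro v h
    simp only [T, rect, Set.mem_ofPred_eq] at h
    simp only [Cor, rect, Set.mem_ofPred_eq]
    omega
  intro e he
  refine Or.inl ⟨⟨key _ he.1, key _ he.2⟩, ?_⟩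
  have h := he.1
  simp only [T, rect, src, Set.mem_ofPred_eq] at h
  omega

private lemma inE_rect_finite (a b c d : ℤ) : (inE (rect a b c d)).Finite :=
  (eRect a b c d).finite_toSet.subset fun _ he => Finset.mem_coe.2 (mem_eRect.2 he.1)

theorem EC_finite (N k : ℕ) : (EC N k).Finite := by
  refine ((inE_rect_finite (28 * k) (N - 28 * k) (-(3 * k)) (3 * k)).union
    (inE_rect_finite (-(36 * k)) (-(28 * k)) (-(3 * k)) (3 * k))).subset ?_
  rintro e (h | h)
  · exact Or.inl h.1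
  · exact Or.inr h

private lemma glu_congr {N k : ℕ} (hN : 128 * k ≤ N) {η η' : Config}
    (h : ∀ e ∈ EC N k, η e = η' e) :
    ∀ e ∈ inE (rect (28 * k) (N - 28 * k) (-(3 * k)) (3 * k)), glu N k η e = glu N k η' e := by
  have hN' : 128 * (k : ℤ) ≤ N := by exact_mod_cast hN
  rintro ⟨x, y, t⟩ he
  unfold glu
  by_cases hx : x < N - 36 * k
  · simp only [hx, if_true]
    exact h _ (Or.inl ⟨he, hx⟩)
  · simp only [hx, if_false]
    refine h _ (Or.inr ?_)
    rw [mem_inE_rect] at he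
    show (x - N, y, t) ∈ inE (rect _ _ _ _)
    rw [mem_inE_rect]
    simp only at he ⊢
    cases t
    · simp only [Bool.false_eq_true, false_imp_iff, true_and, forall_const] at he ⊢
      omega
    · simp only [Bool.true_eq_false, false_imp_iff, and_true, forall_const] at he ⊢
      omega

theorem locS_NpT {N k : ℕ} (hk : 64 ≤ k) (hN : 128 * k ≤ N) : LocS (EC N k) (NpT N k) := by
  intro η η' h hη
  refine hcross_congr (fun e he ho => ?_) hη
  rw [← glu_congr hN h e he]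
  exact ho

theorem incr_NpT (N k : ℕ) : Incr (NpT N k) := by
  intro η η' h hη
  refine hcross_congr (fun e _ ho => ?_) hη
  unfold glu at ho ⊢
  split_ifs at ho ⊢
  · exact h _ ho
  · exact h _ ho

private lemma locS_NoX (N k : ℕ) :
    LocS (inE (rect (40 * k) (50 * k) (3 * k + 1) (N - 3 * k - 1))) (NoX N k) := by
  intro η η' h hη hη'
  refine hη (hcross_congr (fun e he ho => ?_) hη')
  rw [h e he]
  exact ho

/-- `NoX` does not see the corridor nor the clusters. -/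
theorem locS_HT {N k ρ K : ℕ} (hk : 64 ≤ k) (hN : 128 * k ≤ N) (S : Set Vert) :
    LocS (detE (modE N) .W .E k (EC N k) S)ᶜ (HT N k ρ K S) := by
  have hN' : 128 * (k : ℤ) ≤ N := by exact_mod_cast hN
  have hk' : 64 ≤ (k : ℤ) := by exact_mod_cast hk
  intro η η' h hη
  refine ⟨locS_seal _ _ _ η η' h hη.1, locS_NoX N k η η' (fun e he => h e ?_) hη.2⟩
  rintro ⟨e', he', heq⟩
  rw [mem_inE_rect] at he
  obtain ⟨x, y, t⟩ := e
  obtain ⟨x', y', t'⟩ := e'
  simp only [modE, Prod.mk.injEq] at heq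
  obtain ⟨h3, h4, h5⟩ := heq
  simp only at he
  have hb : (40 * (k : ℤ) ≤ x ∧ x ≤ 50 * k) ∧ 3 * (k : ℤ) + 1 ≤ y ∧ y ≤ N - 3 * k - 1 := by
    cases t
    · simp only [Bool.false_eq_true, false_imp_iff, true_and, forall_const] at he
      omega
    · simp only [Bool.true_eq_false, false_imp_iff, and_true, forall_const] at he
      omega
  rcases he' with he' | he'
  · have h6 := dom_bounds he'.1
    simp only at h6
    have := mod_eq' (by omega) (by omega) h3
    omega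
  · have h6 := EC_bounds hk hN he'
    simp only at h6
    have := mod_eq' (by omega) (by omega) h4
    omega

private lemma localOn_NoX (N k : ℕ) :
    LocalOn (eRect (40 * k) (50 * k) (3 * k + 1) (N - 3 * k - 1)) (NoX N k) := by
  intro η η' h hη
  exact locS_NoX N k η η' (fun e he => h e (mem_eRect.2 he.1)) hη

theorem localOn_HT (N k ρ K : ℕ) : ∃ Λ : Finset Edge, ∀ S, LocalOn Λ (HT N k ρ K S) := by
  classical
  obtain ⟨Λ, hΛ⟩ := localOn_seal (grid ρ K) ρ
  refine ⟨Λ ∪ eRect (40 * k) (50 * k) (3 * k + 1) (N - 3 * k - 1), fun S η η' h hη => ?_⟩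
  exact ⟨hΛ _ η η' (fun e he => h e (Finset.mem_union_left _ he)) hη.1,
    localOn_NoX N k η η' (fun e he => h e (Finset.mem_union_right _ he)) hη.2⟩

private lemma modE_injOn' {N : ℕ} {a b c d : ℤ} (hab : b - a < N) (hcd : d - c < N) :
    Set.InjOn (modE N) (eRect a b c d : Set Edge) := by
  rintro ⟨x, y, t⟩ h1 ⟨x', y', t'⟩ h2 h
  rw [Finset.mem_coe, mem_eRect] at h1 h2
  simp only [src, rect, Set.mem_ofPred_eq] at h1 h2
  simp only [modE, Prod.mk.injEq] at h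
  obtain ⟨h3, h4, h5⟩ := h
  rw [mod_eq' (by omega) (by omega) h3, mod_eq' (by omega) (by omega) h4, h5]

theorem NpT_lower (c : ℝ) (hc : 0 < c) (K₁ : ℕ) : ∃ c' : ℝ, 0 < c' ∧ ∀ (N k : ℕ) (q : I),
    64 ≤ k → 128 * k ≤ N → N ≤ K₁ * k → RSWreg c N q →
      c' ≤ Pr q {ω | pb (modE N) ω ∈ NpT N k} := by
  obtain ⟨c', hc', H⟩ := Pool.Agent.H29.Sep.rect_lower c hc K₁
  refine ⟨c', hc', fun N k q hk hN hK hR => ?_⟩
  have hN' : 128 * (k : ℤ) ≤ N := by exact_mod_cast hN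
  have hk' : 64 ≤ (k : ℤ) := by exact_mod_cast hk
  have hK' : (N : ℤ) ≤ K₁ * k := by exact_mod_cast hK
  have hK1 : (1 : ℤ) ≤ K₁ := by
    rcases Nat.eq_zero_or_pos K₁ with h | h
    · rw [h] at hK
      omega
    · exact_mod_cast h
  have h1 := (H N q (by omega) hR (28 * k) (N - 28 * k) (-(3 * k)) (3 * k) (by omega) (by omega)
    (by nlinarith only [hk, hN, hK]) (by nlinarith only [hk, hN, hK])).1
  refine h1.trans ?_
  rw [← Pr_comp (localOn_hcross (28 * (k : ℤ)) (N - 28 * k) (-(3 * k)) (3 * k))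
    (modE_injOn' (N := N) (by omega) (by omega))]
  refine Pr_mono fun ω hω => ?_
  show HCross (glu N k (per N ω)) _ _ _ _
  rw [glu_per]
  exact hω

private lemma incr_NoX_compl (N k : ℕ) : Incr ({ω | pb (modE N) ω ∈ NoX N k} : Set Config)ᶜ := by
  intro ω ω' h hω hω'
  have h1 : HCross (pb (modE N) ω) (40 * k) (50 * k) (3 * k + 1) (N - 3 * k - 1) := by
    by_contra hcon
    exact hω hcon
  exact hω' (hcross_congr (fun e _ ho => h _ ho) h1)

private lemma incr_Seal_compl (N ρ : ℕ) (G : Finset Vert) (t : Set Edge) :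
    Incr ({ω | pb (modE N) ω ∈ Seal G ρ t} : Set Config)ᶜ := by
  intro ω ω' h hω hω'
  exact seal_decr G ρ t _ _ (fun e he => h (modE N e) he) hω hω'

theorem HT_lower (c : ℝ) (hc : 0 < c) (K₁ K : ℕ) : ∃ c' : ℝ, 0 < c' ∧ ∀ (N k ρ : ℕ) (q : I)
    (S : Set Vert), 64 ≤ k → 128 * k ≤ N → N ≤ K₁ * k → 1 ≤ ρ → 8 * ρ ≤ k → RSWreg c N q →
      c' ≤ Pr q {ω | pb (modE N) ω ∈ HT N k ρ K S} := by
  classical
  obtain ⟨c₁, hc₁, H1⟩ := Pool.Agent.H29.Sep.rect_lower c hc K₁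
  obtain ⟨c₂, hc₂, H2⟩ := seal_lower_pb c hc 1 ((2 * K + 1) ^ 2)
  refine ⟨c₂ * c₁, by positivity, fun N k ρ q S hk hN hK hρ hρk hR => ?_⟩
  have hN' : 128 * (k : ℤ) ≤ N := by exact_mod_cast hN
  have hk' : 64 ≤ (k : ℤ) := by exact_mod_cast hk
  have hK' : (N : ℤ) ≤ K₁ * k := by exact_mod_cast hK
  have hρk' : 8 * (ρ : ℤ) ≤ k := by exact_mod_cast hρk
  have hK1 : (1 : ℤ) ≤ K₁ := by
    rcases Nat.eq_zero_or_pos K₁ with h | h
    · rw [h] at hK
      omega
    · exact_mod_cast h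
  have hseal := H2 N ρ q (grid ρ K) (detE (modE N) .W .E k (EC N k) S) (modE N) (by omega) hR hρ
    (by omega) (card_grid ρ K) (by
      intro g _ e he e' he' h
      refine modE_injOn' (N := N) (a := g.1 - (3 * ρ : ℕ)) (b := g.1 + (3 * ρ : ℕ))
        (c := g.2 - (3 * ρ : ℕ)) (d := g.2 + (3 * ρ : ℕ)) (by push_cast; omega)
        (by push_cast; omega) ?_ ?_ h
      · exact Finset.mem_coe.2 (mem_eRect.2 he.1)
      · exact Finset.mem_coe.2 (mem_eRect.2 he'.1))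
  have hnox : c₁ ≤ Pr q {ω | pb (modE N) ω ∈ NoX N k} := by
    have h1 := (H1 N (σ q) (by omega) (Pool.Agent.H29.Sep.rswreg_symm hR) (3 * k)
      (N - 3 * k - 1) (40 * k) (50 * k - 1) (by omega) (by omega) (by nlinarith only [hk, hK, hN])
      (by nlinarith only [hk, hN, hK])).2
    have h2 : Pr q {ω | pb (modE N) ω ∈ NoX N k} = Pr q (NoX N k) :=
      Pr_comp (localOn_NoX N k) (modE_injOn' (N := N) (by omega) (by omega))
    rw [h2]
    refine h1.trans ?_
    rw [← Pr_dual (localOn_vcross (40 * (k : ℤ)) (50 * k - 1) (3 * k) (N - 3 * k - 1))]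
    refine Pr_mono fun ω hω => ?_
    intro hcon
    have h3 := not_hcross_and_dual_vcross (by omega) hcon
    rw [show (3 * (k : ℤ) + 1 - 1) = 3 * k by ring] at h3
    exact h3 hω
  obtain ⟨Λ, hΛ⟩ := localOn_seal (grid ρ K) ρ
  have hl1 : LocalOn (Λ.image (modE N)) {ω | pb (modE N) ω ∈
      Seal (grid ρ K) ρ (detE (modE N) .W .E k (EC N k) S)} := by
    intro ω ω' h hω
    exact hΛ _ _ _ (fun e he => h _ (Finset.mem_image_of_mem _ he)) hω
  have hl2 : LocalOn ((eRect (40 * k) (50 * k) (3 * k + 1) (N - 3 * k - 1)).image (modE N))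
      {ω | pb (modE N) ω ∈ NoX N k} := by
    intro ω ω' h hω
    exact localOn_NoX N k _ _ (fun e he => h _ (Finset.mem_image_of_mem _ he)) hω
  have hfkg := fkg_decr (p := q) hl1 hl2 (incr_Seal_compl N ρ _ _) (incr_NoX_compl N k)
  refine ((mul_le_mul hseal hnox hc₁.le Pr_nonneg).trans hfkg).trans (Pr_mono ?_)
  intro ω hω
  exact ⟨hω.1, hω.2⟩

end Pool.Agent.H26.ST

end

section

/-!
# A separated four-arm event costs at most a pivotal edge of the torus
-/

open MeasureTheory ProbabilityTheory unitInterval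

namespace Pool.Agent.H26.ST

open Pool.Agent.H89.Perc Pool.Agent.H61.NC Pool.Agent.H59.EX

end Pool.Agent.H26.ST

end

section

/-!
# `SepTorus`
-/

open MeasureTheory ProbabilityTheory unitInterval

namespace Pool.Agent.H26.ST

open Pool.Agent.H89.Perc Pool.Agent.H61.NC Pool.Agent.H59.EX
open Pool.Agent.H29.Sep (BadIn SepTorus)

theorem isSrc_sE (d : Bool) : IsSrc (sE d) d := ⟨rfl, rfl, rfl⟩

end Pool.Agent.H26.ST

end
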