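import Pool.Agent.H94.BG.H31.PT.H59.EX.Iter_1
import Pool.Agent.H94.BG.H31.PT.M22_1
import Pool.Agent.H94.BG.H31.PT.M33_2
import Pool.Agent.H94.BG.H31.PT.M33_3
import Pool.Agent.H94.BG.H31.PT.M35_1
import Pool.Agent.H94.BG.H31.PT.M36_4
import Pool.Agent.H94.BG.H31.PT.M37_1
import Pool.Agent.H94.BG.H31.PT.M37_3

/-! The parts of this file: H90.NC.ArmMain, H83.EX.Exit, H47.EX.CylDet, H47.EX.CylProb, H56.EX.Recs, H56.EX.Main, H56.EX.Top, H56.EX.All, H34.Hom.P4, H34.Hom.Final, H89.EX.FourExp, H47.EX.CylMain, H47.EX.UpA4, H26.ST.Prob, H26.ST.Ext, H26.ST.Final. -/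

section

/-!
# Stability of the one-arm probability in the near-critical window
-/

open MeasureTheory ProbabilityTheory unitInterval

namespace Pool.Agent.H61.NC

open Pool.Agent.H89.Perc

end Pool.Agent.H61.NC

end

section

/-!
# The characteristic length

`Len δ p` is the first scale `m` at which the square of side `4 m` is crossed with probability at
least `1 - δ`.  Up to a multiple of this length the box-crossing property holds for all densities
between `1 - p` and `p`, and beyond it the percolation probability and the mean cluster size are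
computed by the one-arm probability at `1 / 2`.
-/

open MeasureTheory ProbabilityTheory unitInterval Filter Topology
open scoped ENNReal

namespace Pool.Agent.H83.EX

open Pool.Agent.H89.Perc Pool.Agent.H61.NC Pool.Agent.H31.EX

/-- The exponents `β` and `γ` from the one-arm and four-arm exponents at `1 / 2`. -/
theorem exponents_of (hGL : GLTorus) {a b : ℝ} (ha : a < 2) (hb : 0 < b)
    (h4 : PN (a4 half) a) (h1 : PN (arm half) b) :
    HasBeta (b / (2 - a)) ∧ HasGamma ((2 - 2 * b) / (2 - a)) := by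
  obtain ⟨δ₀, -, -, -, hup, hlow, hθ, hσ⟩ := length_facts hGL ha h4
  have hL := length_exponent (L := Len δ₀) (s := 2 - a) (by linarith) hup hlow
  exact ⟨beta_of_scaling hb (by linarith) h1 hL hθ, gamma_of_scaling hb (by linarith) h1 hL hσ⟩

/-- The exponents of critical bond percolation, conditional on the arm exponents at `1 / 2` and on
the gluing lemma. -/
theorem exact_exponents_of (hGL : GLTorus) (h4 : PN (a4 half) (5 / 4))
    (h1 : PN (arm half) (5 / 48)) : HasBeta (5 / 36) ∧ HasGamma (43 / 18) := by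
  have h := exponents_of hGL (by norm_num) (by norm_num) h4 h1
  norm_num at h
  exact h

end Pool.Agent.H83.EX

end

section

/-!
# From the separated event to two winding clusters: deterministic part
-/

set_option autoImplicit false

open MeasureTheory ProbabilityTheory unitInterval

namespace Pool.Agent.H47.EX

open Pool.Agent.H89.Perc hiding per
open Pool.Agent.H59.EX
open Pool.Agent.H89.Link (per base per_eq strip Fc2 xx yy sh cylArm_conn_sh)

variable {n k K : ℕ} {ω η : Config} {e : Edge}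

/-! ### The crossing event -/

/-- Periodic extension of the configuration on the edges of `CC`. -/
noncomputable def ext (n k : ℕ) (η : Config) : Config := fun e => by
  classical exact decide (∃ e' ∈ inE (CC n k), base n e' = base n e ∧ η e' = true)

theorem ext_true : ext n k η e = true ↔
    ∃ e' ∈ inE (CC n k), base n e' = base n e ∧ η e' = true := by
  simp [ext]

theorem ext_le (h : ext n k (per n ω) e = true) : per n ω e = true := by
  obtain ⟨e', -, h1, h2⟩ := ext_true.1 h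
  rw [per_eq] at h2 ⊢
  rw [← h1]
  exact h2

theorem le_ext (hn : 1 ≤ n) (he : e ∈ inE (pset (gam n) (XX n k ∪ YY n k)))
    (h : per n ω e = true) : ext n k (per n ω) e = true := by
  obtain ⟨e', he', h1⟩ := exists_CC hn he
  refine ext_true.2 ⟨e', he', h1, ?_⟩
  rw [per_eq] at h ⊢
  rw [h1]
  exact h

/-- The crossings of the corridors (in the extended configuration). -/
def Np (n k : ℕ) : Set Config :=
  {η | HCross (ext n k η) (28 * k) (n + 67 * k) (-(3 * k)) (3 * k) ∧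
    VCross (ext n k η) (n + 61 * k) (n + 67 * k) (-(n + 3 * k)) (3 * k) ∧
    HCross (ext n k η) (-(n + 67 * k)) (-(28 * k)) (-(3 * k)) (3 * k) ∧
    VCross (ext n k η) (-(n + 67 * k)) (-(n + 61 * k)) (-(3 * k)) (n + 3 * k)}

theorem incr_Np (n k : ℕ) : Incr (Np n k) := by
  rintro η η' h ⟨h1, h2, h3, h4⟩
  have key : ∀ e, ext n k η e = true → ext n k η' e = true := by
    intro e he
    obtain ⟨e', he', h5, h6⟩ := ext_true.1 he
    exact ext_true.2 ⟨e', he', h5, h _ h6⟩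
  exact ⟨hcross_mono key h1, vcross_mono key h2, hcross_mono key h3, vcross_mono key h4⟩

theorem locS_Np (n k : ℕ) : LocS (inE (CC n k)) (Np n k) := by
  rintro η η' h ⟨h1, h2, h3, h4⟩
  have key : ∀ e, ext n k η e = true → ext n k η' e = true := by
    intro e he
    obtain ⟨e', he', h5, h6⟩ := ext_true.1 he
    refine ext_true.2 ⟨e', he', h5, ?_⟩
    rw [← h e' he']
    exact h6
  exact ⟨hcross_mono key h1, vcross_mono key h2, hcross_mono key h3, vcross_mono key h4⟩

theorem conn_ext (hn : 1 ≤ n) {S : Set Vert} (hS : S ⊆ XX n k ∪ YY n k) {u v : Vert}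
    (h : Conn (per n ω) S u v) : Conn (ext n k (per n ω)) S u v := by
  refine h.congr (fun e h1 h2 => ?_)
  have he : e ∈ inE (pset (gam n) (XX n k ∪ YY n k)) :=
    ⟨pset_sub _ (hS h1), pset_sub _ (hS h2)⟩
  by_cases ho : per n ω e = true
  · rw [ho, le_ext hn he ho]
  · rw [Bool.not_eq_true] at ho
    rw [ho]
    by_contra h3
    have := ext_le (Bool.not_eq_false _ |>.mp (Ne.symm h3))
    rw [ho] at this
    exact Bool.false_ne_true this

theorem Np_of (hn : 1 ≤ n) (h : per n ω ∈ Np' n k) : per n ω ∈ Np n k := by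
  obtain ⟨⟨u1, v1, a1, b1, c1⟩, ⟨u2, v2, a2, b2, c2⟩, ⟨u3, v3, a3, b3, c3⟩,
    ⟨u4, v4, a4, b4, c4⟩⟩ := h
  refine ⟨⟨u1, v1, a1, b1, conn_ext hn ?_ c1⟩, ⟨u2, v2, a2, b2, conn_ext hn ?_ c2⟩,
    ⟨u3, v3, a3, b3, conn_ext hn ?_ c3⟩, ⟨u4, v4, a4, b4, conn_ext hn ?_ c4⟩⟩
  · exact fun v hv => Or.inl (Or.inl hv)
  · exact fun v hv => Or.inl (Or.inr hv)
  · exact fun v hv => Or.inr (Or.inl hv)
  · exact fun v hv => Or.inr (Or.inr hv)

theorem Np'_of (h : per n ω ∈ Np n k) : per n ω ∈ Np' n k := by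
  obtain ⟨h1, h2, h3, h4⟩ := h
  exact ⟨hcross_mono (fun _ => ext_le) h1, vcross_mono (fun _ => ext_le) h2,
    hcross_mono (fun _ => ext_le) h3, vcross_mono (fun _ => ext_le) h4⟩

/-! ### Clusters -/

theorem twoData (hk : 1 ≤ k) (hn : 256 * k ≤ n) (hS : per n ω ∈ Sep srcD .E .W k) :
    TwoData (gam n) (dom .E .W k) (FX srcD .E .W k (per n ω)) (FY srcD .E .W k (per n ω))
      (XX n k) (YY n k) (Mouth .E k) (Mouth .W k) (CC n k) (per n ω) k where
  per := per_gam n ω
  s1 := clus_sub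
  s2 := clus_sub
  disj := fun a h1 h2 => F_disj hS h1 h2
  cl1 := by
    intro a ha b hb
    refine clus_step ha (hb.mono le_rfl fun e he => fillV_true.2 (Or.inl ?_))
    rw [cut_srcD]
    exact he
  cl2 := by
    intro a ha b hb
    refine clus_step ha (hb.mono le_rfl fun e he => fillV_true.2 (Or.inl ?_))
    rw [cut_srcD]
    exact he
  x1 := fun a ha hd => TE_FX hS (XX_dom hk hn ha hd)
  x2 := fun a ha hd => TW_FY hS (YY_dom hk hn ha hd)
  m1 := by
    intro a ha hx b hb hab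
    have hd : a ∈ dom .E .W k := clus_sub ha
    have hbb : b ∉ ball 0 (32 * k) := fun h => hb (Or.inl h)
    rcases hd with hd | hd | hd
    · refine hS.2.2.2.1 a (sphere_of hd hbb hab) ?_
      rw [FX, mem_clus_single] at ha
      exact ha
    · exact absurd (TE_XX hk hn hd) hx
    · exact (F_disj hS ha (TW_FY hS hd)).elim
  m2 := by
    intro a ha hx b hb hab
    have hd : a ∈ dom .E .W k := clus_sub ha
    have hbb : b ∉ ball 0 (32 * k) := fun h => hb (Or.inl h)
    rcases hd with hd | hd | hd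
    · refine hS.2.2.2.2 a (sphere_of hd hbb hab) ?_
      rw [FY, mem_clus_single] at ha
      exact ha
    · exact (F_disj hS (TE_FX hS hd) ha).elim
    · exact absurd (TW_YY hk hn hd) hx
  far := fun a ha b z hz hb => far_XY hk hn ha hz hb
  one := fun a ha b z hz hb hab => one_sheet hk hn ha hz hb hab
  cC := CC_sub

/-! ### Winding -/

theorem wind_x (hk : 1 ≤ k) (hn : 256 * k ≤ n) (hS : per n ω ∈ Sep srcD .E .W k)
    (hN : per n ω ∈ Np' n k) : Conn (per n ω) (strip (8 * n)) xx (n, -n) := by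
  obtain ⟨⟨u1, v1, p1, q1, c1⟩, ⟨u2, v2, p2, q2, c2⟩, -⟩ := hN
  obtain ⟨⟨u, v, p, q, h1, h2⟩, -⟩ := hS
  rw [cut_srcD] at h1 h2
  have hk' : (1 : ℤ) ≤ k := by exact_mod_cast hk
  have hn' : 256 * (k : ℤ) ≤ n := by exact_mod_cast hn
  have h1' : Conn (per n ω) (rect (28 * k) (36 * k) (-(3 * k)) (3 * k)) u v := h1
  have c1' := cylArm_conn_sh n ω 1
    (S' := rect (n + 28 * k) (2 * n + 67 * k) (-(n + 3 * k)) (-n + 3 * k))
    (fun w hw => by
      simp only [rect, Set.mem_ofPred_eq, sh] at hw ⊢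
      omega) c1
  have p1' : (sh n 1 u1).1 = n + 28 * k := by
    simp only [sh]
    omega
  have q1' : (sh n 1 v1).1 = 2 * n + 67 * k := by
    simp only [sh]
    omega
  obtain ⟨z1, a1, b1⟩ := Pool.Agent.H85.Strict.hv_meet c1 (by omega) (by omega) h1' (by omega)
    (by omega) (by omega) (by omega)
  obtain ⟨z2, a2, b2⟩ := Pool.Agent.H85.Strict.hv_meet c1 (by omega) (by omega) c2 (by omega)
    (by omega) (by omega) (by omega)
  obtain ⟨z3, a3, b3⟩ := Pool.Agent.H85.Strict.hv_meet c1' (by omega) (by omega) c2 (by omega)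
    (by omega) (by omega) (by omega)
  have s1 : rect (28 * k) (n + 67 * k) (-(3 * k)) (3 * k) ⊆ strip (8 * n) :=
    rect_strip (by push_cast; omega) (by push_cast; omega)
  have s2 : rect (n + 61 * k) (n + 67 * k) (-(n + 3 * k)) (3 * k) ⊆ strip (8 * n) :=
    rect_strip (by push_cast; omega) (by push_cast; omega)
  have s3 : rect (n + 28 * k) (2 * n + 67 * k) (-(n + 3 * k)) (-n + 3 * k) ⊆ strip (8 * n) :=
    rect_strip (by push_cast; omega) (by push_cast; omega)
  have s4 : rect (28 * k) (36 * k) (-(3 * k)) (3 * k) ⊆ strip (8 * n) :=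
    rect_strip (by push_cast; omega) (by push_cast; omega)
  have k1 : Conn (per n ω) (strip (8 * n)) xx u1 :=
    ((h2.mono_set (dom_strip hk hn)).trans (b1.mono_set s4)).trans (a1.mono_set s1).symm
  have k2 : Conn (per n ω) (strip (8 * n)) u1 (sh n 1 u1) :=
    (((a2.mono_set s1).trans (b2.mono_set s2).symm).trans (b3.mono_set s2)).trans
      (a3.mono_set s3).symm
  have k3 := cylArm_conn_sh n ω 1 (strip_sh 1) k1
  have e : sh n 1 xx = ((n : ℤ), -(n : ℤ)) := by
    simp [sh, xx]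
  rw [← e]
  exact (k1.trans k2).trans k3.symm

theorem wind_y (hk : 1 ≤ k) (hn : 256 * k ≤ n) (hS : per n ω ∈ Sep srcD .E .W k)
    (hN : per n ω ∈ Np' n k) : Conn (per n ω) (strip (8 * n)) yy (n + 1, -n - 1) := by
  obtain ⟨-, -, ⟨u1, v1, p1, q1, c1⟩, ⟨u2, v2, p2, q2, c2⟩⟩ := hN
  obtain ⟨-, ⟨u, v, p, q, h1, h2⟩, -⟩ := hS
  rw [cut_srcD] at h1 h2
  have hk' : (1 : ℤ) ≤ k := by exact_mod_cast hk
  have hn' : 256 * (k : ℤ) ≤ n := by exact_mod_cast hn
  have h1' : Conn (per n ω) (rect (-(36 * k)) (-(28 * k)) (-(3 * k)) (3 * k)) u v := h1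
  have c1' := cylArm_conn_sh n ω (-1)
    (S' := rect (-(2 * n + 67 * k)) (-(n + 28 * k)) (n - 3 * k) (n + 3 * k))
    (fun w hw => by
      simp only [rect, Set.mem_ofPred_eq, sh] at hw ⊢
      omega) c1
  have p1' : (sh n (-1) u1).1 = -(2 * n + 67 * k) := by
    simp only [sh]
    omega
  have q1' : (sh n (-1) v1).1 = -(n + 28 * k) := by
    simp only [sh]
    omega
  obtain ⟨z1, a1, b1⟩ := Pool.Agent.H85.Strict.hv_meet c1 (by omega) (by omega) h1' (by omega)
    (by omega) (by omega) (by omega)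
  obtain ⟨z2, a2, b2⟩ := Pool.Agent.H85.Strict.hv_meet c1 (by omega) (by omega) c2 (by omega)
    (by omega) (by omega) (by omega)
  obtain ⟨z3, a3, b3⟩ := Pool.Agent.H85.Strict.hv_meet c1' (by omega) (by omega) c2 (by omega)
    (by omega) (by omega) (by omega)
  have s1 : rect (-(n + 67 * k)) (-(28 * k)) (-(3 * k)) (3 * k) ⊆ strip (8 * n) :=
    rect_strip (by push_cast; omega) (by push_cast; omega)
  have s2 : rect (-(n + 67 * k)) (-(n + 61 * k)) (-(3 * k)) (n + 3 * k) ⊆ strip (8 * n) :=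
    rect_strip (by push_cast; omega) (by push_cast; omega)
  have s3 : rect (-(2 * n + 67 * k)) (-(n + 28 * k)) (n - 3 * k) (n + 3 * k) ⊆ strip (8 * n) :=
    rect_strip (by push_cast; omega) (by push_cast; omega)
  have s4 : rect (-(36 * k)) (-(28 * k)) (-(3 * k)) (3 * k) ⊆ strip (8 * n) :=
    rect_strip (by push_cast; omega) (by push_cast; omega)
  have k1 : Conn (per n ω) (strip (8 * n)) yy u1 :=
    ((h2.mono_set (dom_strip hk hn)).trans (b1.mono_set s4)).trans (a1.mono_set s1).symm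
  have k2 : Conn (per n ω) (strip (8 * n)) u1 (sh n (-1) u1) :=
    (((a2.mono_set s1).trans (b2.mono_set s2).symm).trans (b3.mono_set s2)).trans
      (a3.mono_set s3).symm
  have k3 := cylArm_conn_sh n ω (-1) (strip_sh (-1)) k1
  have k4 : Conn (per n ω) (strip (8 * n)) yy (sh n (-1) yy) := (k1.trans k2).trans k3.symm
  have k5 := cylArm_conn_sh n ω 1 (strip_sh 1) k4
  have e1 : sh n 1 yy = ((n : ℤ) + 1, -(n : ℤ) - 1) := by
    simp only [sh, yy]
    ext <;> simp <;> omega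
  have e2 : sh n 1 (sh n (-1) yy) = yy := by
    rw [Pool.Agent.H89.Link.sh_sh, show (1 : ℤ) + -1 = 0 by norm_num,
      Pool.Agent.H89.Link.sh_zero]
  rw [e1, e2] at k5
  exact k5.symm

/-- The deterministic part. -/
theorem cyl_det (hk : 1 ≤ k) (hn : 256 * k ≤ n) (hK : n + 67 * k ≤ K * k)
    (hS : per n ω ∈ Sep srcD .E .W k) (hN : per n ω ∈ Np n k)
    (hs : per n ω ∈ Seal (grid k K) k (det (base n) .E .W k (CC n k)
      (FX srcD .E .W k (per n ω) ∪ FY srcD .E .W k (per n ω)))) :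
    per n ω ∈ Fc2 n (8 * n) := by
  have hN' := Np'_of hN
  refine ⟨wind_x hk hn hS hN', wind_y hk hn hS hN', ?_⟩
  refine (twoData hk hn hS).not_conn hk ?_ (x := xx) (y := yy) ?_ ?_
  · intro a ha v hv
    have hK' : (n : ℤ) + 67 * k ≤ K * k := by exact_mod_cast hK
    have hk' : (1 : ℤ) ≤ k := by exact_mod_cast hk
    have hn' : 256 * (k : ℤ) ≤ n := by exact_mod_cast hn
    have hb : a ∈ ball 0 (K * k) := by
      rw [mem_ball]
      rw [Set.mem_union, mem_ME, mem_XX] at ha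
      simp only [Prod.fst_zero, Prod.snd_zero, zero_sub, zero_add]
      push_cast
      omega
    obtain ⟨g, hg, hag⟩ := exists_grid hk hb
    have h3 : v ∈ ball g (3 * k) := by
      by_contra h
      rw [det_eq] at hs
      exact hs g hg a hag v h hv
    rw [mem_ball] at h3 hag ⊢
    push_cast at h3 ⊢
    omega
  · refine pset_sub _ (Or.inl ?_)
    rw [FX, mem_clus_single]
    obtain ⟨⟨u, v, -, -, -, h2⟩, -⟩ := hS
    exact Conn.refl h2.mem_left
  · refine pset_sub _ (Or.inl ?_)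
    rw [FY, mem_clus_single]
    obtain ⟨-, ⟨u, v, -, -, -, h2⟩, -⟩ := hS
    exact Conn.refl h2.mem_left

end Pool.Agent.H47.EX

end

section

/-!
# From the separated event to two winding clusters: probability
-/

set_option autoImplicit false

open MeasureTheory ProbabilityTheory unitInterval

namespace Pool.Agent.H47.EX

open Pool.Agent.H89.Perc hiding per
open Pool.Agent.H59.EX
open Pool.Agent.H61.NC (RSWreg)
open Pool.Agent.H89.Link (per base per_eq Fc2 cylArm_pr_h cylArm_pr_v cylArm_step base_injOn_rect)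

theorem Np_lower (L : ℕ) : ∃ c : ℝ, 0 < c ∧ ∀ k : ℕ, 1 ≤ k → 256 ≤ L →
    c ≤ Pr half {ω | per (L * k) ω ∈ Np (L * k) k} := by
  obtain ⟨c₀, hc₀, hreg⟩ := rswreg_half
  obtain ⟨c, hc, h⟩ := Pool.Agent.H29.Sep.rect_lower c₀ hc₀ (L + 100)
  refine ⟨c * (c * (c * c)), by positivity, fun k hk hL => ?_⟩
  have hk' : (1 : ℤ) ≤ k := by exact_mod_cast hk
  have hL' : (256 : ℤ) ≤ L := by exact_mod_cast hL
  obtain ⟨n, hn⟩ : ∃ n : ℕ, n = L * k := ⟨_, rfl⟩
  have hnz : (n : ℤ) = L * k := by rw [hn]; push_cast; ring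
  have hn256 : 256 * (k : ℤ) ≤ n := by rw [hnz]; nlinarith only [hL]
  rw [← hn]
  have hR := hreg (6 * k)
  have e6 : ((6 * k : ℕ) : ℤ) = 6 * k := by push_cast; ring
  have hone : 1 ≤ 6 * k := by omega
  have hLk : (0 : ℤ) ≤ (L : ℤ) * k := by positivity
  have r1 := (h (6 * k) half hone hR (28 * k) (n + 67 * k) (-(3 * k)) (3 * k) (by omega)
    (by omega) (by push_cast; nlinarith only [hk, hn, hn256]) (by push_cast; nlinarith only [hk, hn, hn256])).1
  have r2 := (h (6 * k) half hone hR (-(n + 3 * k)) (3 * k) (n + 61 * k) (n + 67 * k) (by omega)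
    (by omega) (by push_cast; nlinarith only [hk, hn, hn256]) (by push_cast; nlinarith only [hk, hn, hn256])).2
  have r3 := (h (6 * k) half hone hR (-(n + 67 * k)) (-(28 * k)) (-(3 * k)) (3 * k) (by omega)
    (by omega) (by push_cast; nlinarith only [hk, hn, hn256]) (by push_cast; nlinarith only [hk, hn, hn256])).1
  have r4 := (h (6 * k) half hone hR (-(3 * k)) (n + 3 * k) (-(n + 67 * k)) (-(n + 61 * k))
    (by omega) (by omega) (by push_cast; nlinarith only [hk, hn, hn256]) (by push_cast; nlinarith only [hk, hn, hn256])).2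
  rw [← cylArm_pr_h (n := n) (by right; omega)] at r1 r3
  rw [← cylArm_pr_v (n := n) (by left; omega)] at r2 r4
  have q3 := cylArm_step n (localOn_hcross _ _ _ _) (localOn_vcross _ _ _ _)
    (incr_hcross _ _ _ _) (incr_vcross _ _ _ _) hc.le r3 r4
  have q2 := cylArm_step n (localOn_vcross _ _ _ _)
    ((localOn_hcross _ _ _ _).inter' (localOn_vcross _ _ _ _))
    (incr_vcross _ _ _ _) ((incr_hcross _ _ _ _).inter (incr_vcross _ _ _ _))
    (by positivity) r2 q3
  have q1 := cylArm_step n (localOn_hcross _ _ _ _)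
    ((localOn_vcross _ _ _ _).inter' ((localOn_hcross _ _ _ _).inter' (localOn_vcross _ _ _ _)))
    (incr_hcross _ _ _ _)
    ((incr_vcross _ _ _ _).inter ((incr_hcross _ _ _ _).inter (incr_vcross _ _ _ _)))
    (by positivity) r1 q2
  refine q1.trans (Pr_mono ?_)
  intro ω hω
  exact Np_of (by omega) hω

theorem injOn_ball {n k : ℕ} (hk : 1 ≤ k) (hn : 256 * k ≤ n) (g : Vert) :
    Set.InjOn (base n) (inE (ball g (3 * k))) := by
  have hk' : (1 : ℤ) ≤ k := by exact_mod_cast hk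
  have hn' : 256 * (k : ℤ) ≤ n := by exact_mod_cast hn
  refine (base_injOn_rect (n := n) (a := g.1 - 3 * k) (b := g.1 + 3 * k) (c := g.2 - 3 * k)
    (d := g.2 + 3 * k) (by omega)).mono ?_
  rintro ⟨a, b, t⟩ ⟨h1, -⟩
  rw [mem_ball] at h1
  simp only [src] at h1
  push_cast at h1
  simp only [Set.mem_ofPred_eq]
  omega

/-- **From the separated event to two winding clusters on the cylinder.** -/
theorem cyl_ext (L : ℕ) (hL : 256 ≤ L) : ∃ c : ℝ, 0 < c ∧ ∀ k : ℕ, 1 ≤ k →
    c * Pr half (Sep srcD .E .W k) ≤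
      Pr half {ω | per (L * k) ω ∈ Fc2 (L * k) (8 * (L * k))} := by
  obtain ⟨c₁, hc₁, hN⟩ := Np_lower L
  obtain ⟨c₀, hc₀, hreg⟩ := rswreg_half
  obtain ⟨c₂, hc₂, hSe⟩ := seal_lower_pb c₀ hc₀ 1 ((2 * (L + 67) + 1) ^ 2)
  refine ⟨c₁ * c₂, by positivity, fun k hk => ?_⟩
  obtain ⟨n, hn⟩ : ∃ n : ℕ, n = L * k := ⟨_, rfl⟩
  have hn256 : 256 * k ≤ n := by rw [hn]; exact Nat.mul_le_mul_right k hL
  rw [← hn]
  refine (corridor_prob (q := half) (π := base n) (s := srcD) (d := .E) (d' := .W) (k := k) hk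
    (C := CC n k) (Np := Np n k) (H := fun S => Seal (grid k (L + 67)) k
      (det (base n) .E .W k (CC n k) S)) (c₁ := c₁) (c₂ := c₂) hc₁.le hc₂.le
    (inj_CC hk hn256) (T_CC hk hn256) (CC_dom hk hn256) (CC_finite hk hn256) (locS_Np n k)
    (incr_Np n k) ?_ (fun S => locS_seal _ _ _) ?_ ?_).trans (Pr_mono ?_)
  · rw [hn]
    exact hN k hk hL
  · obtain ⟨Λ, hΛ⟩ := localOn_seal (grid k (L + 67)) k
    exact ⟨Λ, fun S => hΛ _⟩
  · intro S
    exact hSe k k half _ _ (base n) hk (hreg k) hk (by omega) (card_grid k (L + 67))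
      (fun g _ => injOn_ball hk hn256 g)
  · rintro ω ⟨h1, h2, h3⟩
    exact cyl_det hk hn256 (K := L + 67) (by rw [hn, add_mul]) h1 h2 h3

end Pool.Agent.H47.EX

end

section

/-! Recursions of `F22`, `F13`. -/

namespace H56.EX

open scoped BigOperators Classical


end H56.EX

end

section

/-! Main theorem: the explicit leg functions. -/

namespace H56.EX

open Finset Pool.Agent.H96.EX

lemma range_map_swap {M j : ℕ} (hj : j + 1 < M) :
    (range M).map (Equiv.swap j (j + 1)).toEmbedding = range M := by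
  ext x
  simp only [mem_map, mem_range, Equiv.coe_toEmbedding]
  constructor
  · rintro ⟨k, hk, rfl⟩
    exact swap_lt hj hk
  · intro hx
    exact ⟨Equiv.swap j (j + 1) x, swap_lt hj hx, by simp⟩

lemma prod_swap {M j : ℕ} (hj : j + 1 < M) (z : ℕ → ℂ) :
    ∏ k ∈ range M, (z ∘ Equiv.swap j (j + 1)) k = ∏ k ∈ range M, z k := by
  conv_rhs => rw [← range_map_swap hj, Finset.prod_map]
  rfl

lemma R22_mvf (M : ℕ) (a0 a1 b0 b1 : ℂ) (z : ℕ → ℂ) (hz : Gen M z) (j : ℕ) (hj : j < M) :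
    R22 M a0 a1 b0 b1 (mvf j z) = R22 M a0 a1 b0 b1 z :=
  inv_mvf (R22 M a0 a1 b0 b1) (fun z _ j hj => by
    unfold R22
    rw [TM_swap _ _ _ _ hj, prod_swap hj]) j hj z hz

lemma R13_mvf (M : ℕ) (a b0 b1 b2 : ℂ) (z : ℕ → ℂ) (hz : Gen M z) (j : ℕ) (hj : j < M) :
    R13 M a b0 b1 b2 (mvf j z) = R13 M a b0 b1 b2 z :=
  inv_mvf (R13 M a b0 b1 b2) (fun z _ j hj => by
    unfold R13
    rw [TM_swap _ _ _ _ hj, prod_swap hj]) j hj z hz

section psi

variable {Ψ : ∀ L : ℕ, Pat L → (ℤ → ℂ) → ℂ} (hΨ : PsiProps Ψ)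

include hΨ

variable (hT : LegTop)

include hT

theorem stepA (M : ℕ) (hM : 1 ≤ M) (ih : P13 Ψ M) : P22 Ψ (M + 1) := by
  intro a0 b0 b1 z hz a1
  obtain ⟨p, hp, hpe⟩ := F22_poly hΨ (M + 1) a0 b0 b1 z
  obtain ⟨r, hr, hre⟩ := R22_poly (M + 1) a0 b0 b1 z
  have hzM : z M ≠ 0 := hz.gz.1 M (by omega)
  have key : p = r := by
    apply Polynomial.eq_of_natDegree_lt_card_of_eval_eq p r
      (f := Sum.elim (fun j : Fin (M + 1) => q ^ 2 * z j) ![q * a0, q * z M])
    · apply Function.Injective.sumElim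
      · intro j k hjk
        by_contra hne
        have hne' : (j : ℕ) ≠ k := fun h => hne (Fin.ext h)
        exact (hz.gz.2 j k j.2 k.2 hne').ne1 (q_cancel2 hjk)
      · intro i j hij
        fin_cases i <;> fin_cases j
        · rfl
        · exact absurd (q_cancel1 hij) (hz.xz M (by omega)).ne1
        · exact absurd (q_cancel1 hij).symm (hz.xz M (by omega)).ne1
        · rfl
      · intro j i
        fin_cases i
        · intro h
          exact (hz.xz j j.2).neq (q_cancel h.symm)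
        · intro h
          have h1 : z M = q * z j := q_cancel h.symm
          by_cases hj : (j : ℕ) = M
          · rw [hj] at h1
            have : (q - 1) * z M = 0 := by linear_combination -h1
            rcases mul_eq_zero.1 this with h3 | h3
            · exact q_ne_one (sub_eq_zero.1 h3)
            · exact hzM h3
          · exact (hz.gz.2 M j (by omega) j.2 (Ne.symm hj)).neq h1
    · intro i
      rcases i with j | i
      · -- the points q² z_j
        show p.eval (q ^ 2 * z j) = r.eval (q ^ 2 * z j)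
        rw [← hpe, ← hre, ← F22_mvf hΨ hT (M + 1) _ _ _ _ z hz.gz j j.2,
          ← R22_mvf (M + 1) _ _ _ _ z hz.gz j j.2]
        have hm := hz.mvf j j.2
        have h0 : mvf j z 0 = z j := mvf_head j z
        rw [← h0, F22_rec_right hΨ hT M hM a0 b0 b1 (mvf j z),
          R22_right M a0 b0 b1 (mvf j z) hm.gz hz.y0 hz.w0,
          ih a0 b0 b1 _ hm.shift _ (by rw [h0]; exact hz.gz.1 j j.2)]
      · fin_cases i
        · show p.eval (q * a0) = r.eval (q * a0)
          rw [← hpe, ← hre, F22_zero_q hΨ _ _ _ _ _ hz.x0, R22_zero_q]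
        · show p.eval (q * z M) = r.eval (q * z M)
          rw [← hpe, ← hre]
          have e1 := F22_swap_a hΨ (M + 1) a0 (q * z M) b0 b1 z
          have e2 := R22_swap_a (M + 1) a0 (q * z M) b0 b1 z
          have hc : q * a0 - q⁻¹ * (q * z M) ≠ 0 := ((hz.xz M (by omega)).symm.qmul).symm.g
          have e3 : F22 Ψ (M + 1) (q * z M) a0 b0 b1 z = R22 (M + 1) (q * z M) a0 b0 b1 z := by
            rw [F22_rec_left hΨ hT M hM (q * z M) a0 b0 b1 z
              (by linear_combination (-(z M)) * q_cube),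
              R22_left M a0 b0 b1 z hz.gz hz.y0 hz.w0,
              ih a0 (z M) b0 z hz.last13 b1 hz.w0]
          rw [e3, e2] at e1
          exact (mul_left_cancel₀ hc e1).symm
    · simp only [Fintype.card_sum, Fintype.card_fin]
      rw [max_lt_iff]
      omega
  rw [hpe, key, hre]

theorem stepB (M : ℕ) (ih : P22 Ψ M) : P13 Ψ (M + 1) := by
  intro a b0 b1 z hz b2 hb2
  obtain ⟨p, hp, hpe⟩ := F13_poly hΨ (M + 1) a b0 b1 z
  obtain ⟨r, hr, hre⟩ := R13_poly (M + 1) a b0 b1 z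
  have hzM : z M ≠ 0 := hz.gz.1 M (by omega)
  set p' := Polynomial.reflect (M + 1 + 2) p with hp'
  have hpe' : ∀ t, t ≠ 0 → t ^ (M + 1 + 2) * F13 Ψ (M + 1) a b0 b1 t z = p'.eval t := by
    intro t ht
    have h1 := hpe t⁻¹
    rw [inv_inv] at h1
    rw [h1]
    let _ : Invertible t := invertibleOfNonzero ht
    let _ : Invertible t⁻¹ := invertibleOfNonzero (inv_ne_zero ht)
    have h2 := Polynomial.eval₂_reflect_mul_pow (RingHom.id ℂ) t⁻¹ (M + 1 + 2) p (by omega)
    simp only [invOf_eq_inv, inv_inv, Polynomial.eval₂_id] at h2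
    rw [hp', ← h2, inv_pow]
    have : t ^ (M + 1 + 2) ≠ 0 := pow_ne_zero _ ht
    field_simp
  have hpd : p'.natDegree ≤ M + 1 + 2 := by
    rw [hp']
    exact (Polynomial.natDegree_reflect_le).trans (max_le le_rfl hp)
  have hcan : ∀ t, t ≠ 0 → (p'.eval t = r.eval t ↔
      F13 Ψ (M + 1) a b0 b1 t z = R13 (M + 1) a b0 b1 t z) := by
    intro t ht
    rw [← hpe' t ht, ← hre t ht]
    exact ⟨fun h => mul_left_cancel₀ (pow_ne_zero _ ht) h, fun h => by rw [h]⟩
  have hq := q_ne_zero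
  have key : p' = r := by
    apply Polynomial.eq_of_natDegree_lt_card_of_eval_eq p' r
      (f := Sum.elim (fun j : Fin (M + 1) => q * z j) ![q ^ 2 * b0, q ^ 2 * b1, q ^ 2 * z M])
    · apply Function.Injective.sumElim
      · intro j k hjk
        by_contra hne
        have hne' : (j : ℕ) ≠ k := fun h => hne (Fin.ext h)
        exact (hz.gz.2 j k j.2 k.2 hne').ne1 (q_cancel1 hjk)
      · intro i j hij
        fin_cases i <;> fin_cases j
        · rfl
        · exact absurd (q_cancel2 hij) hz.yw.ne1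
        · exact absurd (q_cancel2 hij) (hz.yz M (by omega)).ne1
        · exact absurd (q_cancel2 hij).symm hz.yw.ne1
        · rfl
        · exact absurd (q_cancel2 hij) (hz.wz M (by omega)).ne1
        · exact absurd (q_cancel2 hij).symm (hz.yz M (by omega)).ne1
        · exact absurd (q_cancel2 hij).symm (hz.wz M (by omega)).ne1
        · rfl
      · intro j i
        fin_cases i
        · intro h
          exact (hz.yz j j.2).symm.neq (q_cancel h)
        · intro h
          exact (hz.wz j j.2).symm.neq (q_cancel h)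
        · intro h
          have h1 : z j = q * z M := q_cancel h
          by_cases hj : (j : ℕ) = M
          · rw [hj] at h1
            have : (q - 1) * z M = 0 := by linear_combination -h1
            rcases mul_eq_zero.1 this with h3 | h3
            · exact q_ne_one (sub_eq_zero.1 h3)
            · exact hzM h3
          · exact (hz.gz.2 j M j.2 (by omega) hj).neq h1
    · intro i
      rcases i with j | i
      · -- the points q z_j
        have hzj := hz.gz.1 j j.2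
        show p'.eval (q * z j) = r.eval (q * z j)
        rw [hcan _ (mul_ne_zero hq hzj), ← F13_mvf hΨ hT (M + 1) _ _ _ _ z hz.gz j j.2,
          ← R13_mvf (M + 1) _ _ _ _ z hz.gz j j.2]
        have hm := hz.mvf j j.2
        have h0 : mvf j z 0 = z j := mvf_head j z
        rw [← h0, F13_rec_right hΨ hT M a b0 b1 (mvf j z),
          R13_right M a b0 b1 (mvf j z) hm.gz hz.y0 hz.w0, ih a b0 b1 _ hm.shift _]
      · fin_cases i
        · show p'.eval (q ^ 2 * b0) = r.eval (q ^ 2 * b0)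
          rw [hcan _ (mul_ne_zero (pow_ne_zero _ hq) hz.y0), R13_zero_b02,
            F13_zero_b02 hΨ _ _ _ _ _ hz.y0 (Cub.g_inv hz.y0 hz.w0 hz.yw)]
        · show p'.eval (q ^ 2 * b1) = r.eval (q ^ 2 * b1)
          rw [hcan _ (mul_ne_zero (pow_ne_zero _ hq) hz.w0), R13_zero_b12,
            F13_zero_b12 hΨ _ _ _ _ _ hz.w0]
        · show p'.eval (q ^ 2 * z M) = r.eval (q ^ 2 * z M)
          have hx0 : q ^ 2 * z M ≠ 0 := mul_ne_zero (pow_ne_zero _ hq) hzM
          rw [hcan _ hx0]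
          have e1 := F13_swap_b12 hΨ (M + 1) a b0 b1 (q ^ 2 * z M) z
          have e2 := F13_swap_b01 hΨ (M + 1) a b0 (q ^ 2 * z M) b1 z
          have f1 := R13_swap_b12 (M + 1) a b0 b1 (q ^ 2 * z M) z hz.w0 hx0
          have f2 := R13_swap_b01 (M + 1) a b0 (q ^ 2 * z M) b1 z hz.y0 hx0
          have hc1 : q * b1⁻¹ - q⁻¹ * (q ^ 2 * z M)⁻¹ ≠ 0 :=
            Cub.g_inv hz.w0 hx0 ((hz.wz M (by omega)).symm.q2mul).symm
          have hc2 : q * b0⁻¹ - q⁻¹ * (q ^ 2 * z M)⁻¹ ≠ 0 :=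
            Cub.g_inv hz.y0 hx0 ((hz.yz M (by omega)).symm.q2mul).symm
          have e3 : F13 Ψ (M + 1) a (q ^ 2 * z M) b0 b1 z =
              R13 (M + 1) a (q ^ 2 * z M) b0 b1 z := by
            rw [F13_rec_left hΨ hT M a (q ^ 2 * z M) b0 b1 z rfl,
              R13_left M a b0 b1 z hz.gz hz.y0 hz.w0, ih (z M) b0 b1 z hz.last22 a]
          rw [e3, f2] at e2
          have e4 := mul_left_cancel₀ hc2 e2
          rw [← e4, f1] at e1
          exact (mul_left_cancel₀ hc1 e1).symm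
    · simp only [Fintype.card_sum, Fintype.card_fin]
      rw [max_lt_iff]
      omega
  rw [← hcan b2 hb2, key]

theorem P22_P13 (n : ℕ) : P22 Ψ (2 * n) ∧ P13 Ψ (2 * n + 1) := by
  induction n with
  | zero =>
    have h : P22 Ψ 0 := by
      intro a0 b0 b1 z hz a1
      rw [F22_zero hΨ a0 a1 b0 b1 z hz.y0 hz.w0]
      unfold R22
      rw [TM_zero]
      simp only [ee, pow_one, range_zero, prod_empty]
      have h0 := hz.y0
      have h1 := hz.w0
      field_simp
      ring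
    exact ⟨h, stepB hΨ hT 0 h⟩
  | succ n ih =>
    have h : P22 Ψ (2 * n + 1 + 1) := stepA hΨ hT (2 * n + 1) (by omega) ih.2
    exact ⟨h, stepB hΨ hT _ h⟩

/-- the (2,2) leg function -/
theorem F22_eq (M : ℕ) (hM : Even M) (a0 a1 b0 b1 : ℂ) (z : ℕ → ℂ) (h : GG M a0 b0 b1 z) :
    F22 Ψ M a0 a1 b0 b1 z = R22 M a0 a1 b0 b1 z := by
  obtain ⟨n, hn⟩ := hM
  have : M = 2 * n := by omega
  subst this
  exact (P22_P13 hΨ hT n).1 a0 b0 b1 z h a1

end psi

end H56.EX

end

section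

/-! The topological lemmas collected. -/

namespace H56.EX

/-- the (2,2) leg function -/
theorem F22_formula {Ψ : ∀ L : ℕ, Pat L → (ℤ → ℂ) → ℂ} (hΨ : PsiProps Ψ) (M : ℕ) (hM : Even M)
    (a0 a1 b0 b1 : ℂ) (z : ℕ → ℂ) (h : GG M a0 b0 b1 z) :
    F22 Ψ M a0 a1 b0 b1 z = R22 M a0 a1 b0 b1 z :=
  F22_eq hΨ legTop M hM a0 a1 b0 b1 z h

end H56.EX

end

section

/-! The leg formula for all nonzero parameters, in terms of the polynomial `S4`. -/

namespace H56.EX

open Finset Filter Topology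


/-- The (2,2) leg function for all nonzero parameters. -/
theorem F22_all {Ψ : ∀ L : ℕ, Pat L → (ℤ → ℂ) → ℂ} (hΨ : PsiProps Ψ) (M : ℕ) (hM : Even M)
    (a0 a1 b0 b1 : ℂ) (z : ℕ → ℂ) (h0 : b0 ≠ 0) (h1 : b1 ≠ 0) (hz : ∀ j, j < M → z j ≠ 0) :
    F22 Ψ M a0 a1 b0 b1 z =
      -((q * a1 - q⁻¹ * a0) * (q * b0 - q⁻¹ * b1) * S4 M ![a1, a0, b0, b1] z) /
        (3 ^ (ee M) * (b0 * b1 * ∏ k ∈ range M, z k) ^ (M + 1)) := by
  set w : ℕ → ℂ := scons a0 (scons b0 (scons b1 z)) with hw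
  set W : ℂ → ℕ → ℂ := Pool.Agent.H96.EX.zt w with hW
  have hW0 : W 0 = w := Pool.Agent.H96.EX.zt_zero w
  have hWc : Continuous W := Pool.Agent.H96.EX.zt_cont w
  have hWn : ∀ n, Continuous (fun t => W t n) := fun n => (continuous_apply n).comp hWc
  set F : ℂ → ℂ := fun t => F22 Ψ M (W t 0) a1 (W t 1) (W t 2) (fun n => W t (n + 3)) with hF
  set G : ℂ → ℂ := fun t => -((q * a1 - q⁻¹ * W t 0) * (q * W t 1 - q⁻¹ * W t 2) *
    S4 M ![a1, W t 0, W t 1, W t 2] (fun n => W t (n + 3))) /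
        (3 ^ (ee M) * (W t 1 * W t 2 * ∏ k ∈ range M, W t (k + 3)) ^ (M + 1)) with hG
  have hb0 : W 0 1 ≠ 0 := by rw [hW0]; exact h0
  have hb1 : W 0 2 ≠ 0 := by rw [hW0]; exact h1
  have hzz : ∀ n, n < M → W 0 (n + 3) ≠ 0 := by intro n hn; rw [hW0]; exact hz n hn
  have hFc : ContinuousAt F 0 := by
    apply legSum_contAt
    · intro P
      apply psi_contAt hΨ
      intro n hn
      rcases n with _ | _ | n
      · exact (hWn 0).continuousAt
      · exact continuousAt_const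
      · exact (hWn (n + 3)).continuousAt
    · intro P
      apply psi_contAt hΨ
      intro n hn
      rcases n with _ | _ | n
      · exact (hWn 1).continuousAt.inv₀ hb0
      · exact (hWn 2).continuousAt.inv₀ hb1
      · exact (hWn (n + 3)).continuousAt.inv₀ (hzz n (by omega))
  have hGc : ContinuousAt G 0 := by
    have hS : Continuous (fun t => S4 M ![a1, W t 0, W t 1, W t 2] (fun n => W t (n + 3))) := by
      unfold S4 Pool.Agent.H96.EX.S4
      apply Pool.Agent.H96.EX.S_continuous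
      · apply continuous_pi
        intro i
        fin_cases i
        · exact continuous_const
        · exact hWn 0
        · exact hWn 1
        · exact hWn 2
      · apply continuous_pi
        intro n
        exact hWn (n + 3)
    apply ContinuousAt.div
    · have h0' := hWn 0
      have h1' := hWn 1
      have h2' := hWn 2
      apply Continuous.continuousAt
      fun_prop
    · have h1' := hWn 1
      have h2' := hWn 2
      have hp : Continuous (fun t => ∏ k ∈ range M, W t (k + 3)) :=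
        continuous_finsetProd _ fun k _ => hWn (k + 3)
      apply Continuous.continuousAt
      fun_prop
    · refine mul_ne_zero (three_ne _) (pow_ne_zero _ (mul_ne_zero (mul_ne_zero hb0 hb1) ?_))
      exact Finset.prod_ne_zero_iff.2 fun k hk => hzz k (mem_range.1 hk)
  have hev : F =ᶠ[𝓝[≠] 0] G := by
    filter_upwards [gen_eventually (M + 3) w] with t ht
    have hgg := GG_of_Gen ht
    show F22 Ψ M (W t 0) a1 (W t 1) (W t 2) (fun n => W t (n + 3)) = _
    rw [F22_formula hΨ M hM _ a1 _ _ _ hgg]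
    unfold R22
    rw [TM_eq_S4 _ _ _ _ _ _ hgg.gz]
  have hlim := tendsto_nhds_unique (hFc.tendsto.mono_left nhdsWithin_le_nhds)
    ((hGc.tendsto.mono_left nhdsWithin_le_nhds).congr' hev.symm)
  have hF0 : F 0 = F22 Ψ M a0 a1 b0 b1 z := by
    show F22 Ψ M (W 0 0) a1 (W 0 1) (W 0 2) (fun n => W 0 (n + 3)) = _
    rw [hW0]; rfl
  have hG0 : G 0 = -((q * a1 - q⁻¹ * a0) * (q * b0 - q⁻¹ * b1) * S4 M ![a1, a0, b0, b1] z) /
        (3 ^ (ee M) * (b0 * b1 * ∏ k ∈ range M, z k) ^ (M + 1)) := by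
    show -((q * a1 - q⁻¹ * W 0 0) * (q * W 0 1 - q⁻¹ * W 0 2) *
      S4 M ![a1, W 0 0, W 0 1, W 0 2] (fun n => W 0 (n + 3))) /
        (3 ^ (ee M) * (W 0 1 * W 0 2 * ∏ k ∈ range M, W 0 (k + 3)) ^ (M + 1)) = _
    rw [hW0]; rfl
  rw [← hF0, hlim, hG0]

/-- The homogeneous value. -/
theorem F22_one {Ψ : ∀ L : ℕ, Pat L → (ℤ → ℂ) → ℂ} (hΨ : PsiProps Ψ) (M : ℕ) (hM : Even M) :
    F22 Ψ M 1 1 1 1 (fun _ => 1) = 3 * S4 M ![1, 1, 1, 1] (fun _ => 1) / 3 ^ (ee M) := by
  rw [F22_all hΨ M hM 1 1 1 1 (fun _ => 1) one_ne_zero one_ne_zero (fun _ _ => one_ne_zero)]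
  have hq2 : q⁻¹ = -1 - q := by
    rw [q_inv]; linear_combination q_sq
  have hd : (q * 1 - q⁻¹ * 1) * (q * 1 - q⁻¹ * 1) = -3 := by
    rw [hq2]; linear_combination 4 * q_sq
  rw [hd]
  simp

end H56.EX

end

section

/-!
# The homogeneous four-leg function is `f4`
-/

namespace Pool.Agent.H34.Hom

open Finset Pool.Agent.H96.EX Filter Topology

/-- the homogeneous (2,2) leg function is `f4` -/
theorem F22_f4 {Ψ : ∀ L : ℕ, H56.EX.Pat L → (ℤ → ℂ) → ℂ} (hΨ : H56.EX.PsiProps Ψ) (m : ℕ) :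
    H56.EX.F22 Ψ (2 * m) 1 1 1 1 (fun _ => 1) = ((f4 m : ℝ) : ℂ) := by
  have hM : Even (2 * m) := ⟨m, by ring⟩
  rw [H56.EX.F22_one hΨ (2 * m) hM, show H56.EX.S4 (2 * m) ![1, 1, 1, 1] (fun _ => 1) = _ from S4_HV (2 * m)]
  have h4 := four_leg_value H56.EX.q_sq (2 * m) hM
  rw [two_leg_value H56.EX.q_sq (2 * m)] at h4
  have e0 : ((-1 : ℂ)) ^ (2 * m) = 1 := by rw [pow_mul]; norm_num
  have e1 : 2 * m * (2 * m + 1) / 2 = m * (2 * m + 1) := by
    rw [mul_assoc, Nat.mul_div_cancel_left _ (by norm_num)]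
  rw [e0, one_mul, e1] at h4
  rw [ee_even]
  have e2 : 2 * (2 * m) + 3 = 4 * m + 3 := by ring
  have e3 : 2 * (2 * m) + 2 = 4 * m + 2 := by ring
  rw [e2, e3] at h4
  have e4 : (3 : ℂ) ^ (2 * m ^ 2 + 3 * m + 1) = 3 * 3 ^ (m * (2 * m + 1)) * 9 ^ m := by
    have : (9 : ℂ) ^ m = 3 ^ (2 * m) := by rw [pow_mul]; norm_num
    rw [this, mul_assoc, ← pow_add, ← pow_succ']
    congr 1
    ring
  rw [e4]
  unfold f4
  push_cast at h4 ⊢
  have hf1 : ((4 * m + 3).factorial : ℂ) ≠ 0 := by exact_mod_cast Nat.factorial_ne_zero _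
  have hf2 : ((4 * m + 2).factorial : ℂ) ≠ 0 := by exact_mod_cast Nat.factorial_ne_zero _
  have h3 : (3 : ℂ) ^ (m * (2 * m + 1)) ≠ 0 := pow_ne_zero _ (by norm_num)
  have h9 : (9 : ℂ) ^ m ≠ 0 := pow_ne_zero _ (by norm_num)
  rw [div_eq_div_iff (mul_ne_zero (mul_ne_zero (by norm_num) h3) h9)
    (mul_ne_zero h9 (mul_ne_zero hf1 hf2))]
  linear_combination 3 * 9 ^ m * h4

end Pool.Agent.H34.Hom

end

section

/-!
# The homogeneous values: sum of the components and four-leg function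
-/

set_option autoImplicit false

namespace Pool.Agent.H34.Hom

open Finset

variable {Ψ : ∀ L : ℕ, H56.EX.Pat L → (ℤ → ℂ) → ℂ}

lemma sr_psi (hΨ : H56.EX.PsiProps Ψ) : SR H56.EX.q (H56.EX.ZZ Ψ) :=
  ⟨fun L z i hi => H56.EX.ZZ_swap hΨ L z i hi, fun L hL z => H56.EX.ZZ_poly hΨ L hL z,
    fun L hL z hz => H56.EX.ZZ_rec hΨ L hL z hz, fun z => H56.EX.ZZ_two hΨ z⟩

/-- **Sum rule**: the sum of the components at the homogeneous point is `A_HT(2n)`. -/
theorem sum_psi (hΨ : H56.EX.PsiProps Ψ) (n : ℕ) :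
    ∑ P : H56.EX.Pat (2 * n + 2), Ψ (2 * n + 2) P (fun _ => 1) = ((aht (n + 1) : ℝ) : ℂ) := by
  have hc : Continuous (fun r : ℂ => H56.EX.ZZ Ψ (2 * n + 2) (fun j => r ^ j)) := by
    obtain ⟨p, hp⟩ := H56.EX.ZZ_mv hΨ (2 * n + 2)
    have h : (fun r : ℂ => H56.EX.ZZ Ψ (2 * n + 2) (fun j => r ^ j)) =
        fun r => MvPolynomial.eval (fun k : Fin (2 * n + 2) => r ^ (k : ℕ)) p := by
      funext r; rw [hp]
    rw [h]
    apply (MvPolynomial.continuous_eval p).comp
    fun_prop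
  exact sum_value H56.EX.q_sq (sr_psi hΨ) n hc

/-- **Four legs** at the homogeneous point. -/
theorem legSum_f4 (hΨ : H56.EX.PsiProps Ψ) (m : ℕ) :
    H56.EX.legSum 2 2 (2 * m) (fun P : H56.EX.Pat (2 * m + 2) => Ψ (2 * m + 2) P (fun _ => 1))
      (fun P : H56.EX.Pat (2 * m + 2) => Ψ (2 * m + 2) P (fun _ => 1)) = ((f4 m : ℝ) : ℂ) := by
  have h := F22_f4 hΨ m
  unfold H56.EX.F22 at h
  simp only [inv_one, scons_one, par_one] at h
  exact h

theorem sum_vv (hΨ : H56.EX.PsiProps Ψ) {L n : ℕ} (hL : L = 2 * n) (hn : 1 ≤ n) :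
    ∑ P : H56.EX.Pat L, vv Ψ L P = ((aht n : ℝ) : ℂ) := by
  obtain ⟨m, rfl⟩ : ∃ m, n = m + 1 := ⟨n - 1, by omega⟩
  subst hL
  exact sum_psi hΨ m

theorem sum_vv_ne (hΨ : H56.EX.PsiProps Ψ) {L n : ℕ} (hL : L = 2 * n) (hn : 1 ≤ n) :
    ∑ P : H56.EX.Pat L, vv Ψ L P ≠ 0 := by
  rw [sum_vv hΨ hL hn]
  exact_mod_cast (aht_pos n).ne'

theorem legSum_vv (hΨ : H56.EX.PsiProps Ψ) {L n : ℕ} (hL : L = 2 * n) (hn : 1 ≤ n) :
    H56.EX.legSum 2 2 (L - 2) (vv Ψ L) (vv Ψ L) / (∑ P : H56.EX.Pat L, vv Ψ L P) ^ 2 =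
      ((p4 n : ℝ) : ℂ) := by
  rw [sum_vv hΨ hL hn]
  obtain ⟨m, rfl⟩ : ∃ m, n = m + 1 := ⟨n - 1, by omega⟩
  subst hL
  have h := legSum_f4 hΨ m
  have h2 : 2 * (m + 1) - 2 = 2 * m := by omega
  rw [h2]
  unfold p4
  push_cast
  rw [← h]
  rfl

end Pool.Agent.H34.Hom

end

section

/-!
# The four-arm exponent of the square lattice at `1 / 2`

The four-leg sum of the stationary vector of the cylinder of circumference `2 n` gives the
probability of four arms up to constants.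
-/

set_option autoImplicit false

open MeasureTheory ProbabilityTheory unitInterval Filter Topology

namespace Pool.Agent.H89.EX

open H56.EX
open Pool.Agent.H89.Link
open Pool.Agent.H89.Perc (Vert Edge Config Pr half)
open Pool.Agent.H61.NC (a4 a4_nonneg)
open Pool.Agent.H31.EX (PN)
open Pool.Agent.H34.Hom (p4 p4_power_law sum_vv_ne legSum_vv)

theorem link_four_p4 {n : ℕ} (hn : 2 ≤ n) :
    (∀ k : ℕ, 1 ≤ k → 2 * k < n → k + 2 < n → p4 n ≤ Pr half (FourD k)) ∧
      (∀ H : ℕ, Pr half {ω | per n ω ∈ Fc n H} ≤ p4 n) ∧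
      ∀ H : ℕ, Pr half {ω | per n ω ∈ Fc2 n H} ≤ p4 n := by
  have hst := H56.EX.stat Pool.Agent.H12.QKZ.psiProps (L := 2 * n) (by omega)
  obtain ⟨g, hg, h1, h2, h3⟩ := link_four2 (L := 2 * n) (n := n) rfl hn hst
    (sum_vv_ne Pool.Agent.H12.QKZ.psiProps rfl (by omega))
  have e : g = p4 n := by
    have h := legSum_vv Pool.Agent.H12.QKZ.psiProps (L := 2 * n) (n := n) rfl (by omega)
    have h' : (g : ℂ) = ((p4 n : ℝ) : ℂ) := hg.trans h
    exact_mod_cast h'
  subst e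
  exact ⟨h1, h2, h3⟩

/-- The lower bound for the probability of four arms. -/
theorem a4_lower : ∃ c > (0 : ℝ), ∀ r : ℕ, 1 ≤ r → c * (r : ℝ) ^ (-(5 / 4 : ℝ)) ≤ a4 half r := by
  obtain ⟨c, C, hc, hC, h⟩ := p4_power_law
  refine ⟨c / 6 * (5 : ℝ) ^ (-(5 / 4 : ℝ)), by positivity, fun r hr => ?_⟩
  have h1 := (h (2 * r + 3) (by omega)).1
  have h2 := (link_four_p4 (n := 2 * r + 3) (by omega)).1 (r + 1) (by omega) (by omega)
    (by omega)
  have h3 := fourD_le_a4 half (by rw [show ((half : I) : ℝ) = 1 / 2 from rfl]; norm_num)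
    (k := r + 1) (by omega)
  rw [Nat.add_sub_cancel] at h3
  have hr0 : (0 : ℝ) < r := by exact_mod_cast hr
  have h4 : (5 : ℝ) ^ (-(5 / 4 : ℝ)) * (r : ℝ) ^ (-(5 / 4 : ℝ)) ≤
      ((2 * r + 3 : ℕ) : ℝ) ^ (-(5 / 4 : ℝ)) := by
    rw [← Real.mul_rpow (by norm_num) hr0.le]
    apply Real.rpow_le_rpow_of_nonpos
    · positivity
    · push_cast
      have : (1 : ℝ) ≤ r := by exact_mod_cast hr
      linarith only [this]
    · norm_num
  have h5 : p4 (2 * r + 3) ≤ 6 * a4 half r := h2.trans h3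
  have h6 : c * ((2 * r + 3 : ℕ) : ℝ) ^ (-(5 / 4 : ℝ)) ≤ 6 * a4 half r := h1.trans h5
  have h7 := mul_le_mul_of_nonneg_left h4 hc.le
  calc c / 6 * (5 : ℝ) ^ (-(5 / 4 : ℝ)) * (r : ℝ) ^ (-(5 / 4 : ℝ))
      = 1 / 6 * (c * ((5 : ℝ) ^ (-(5 / 4 : ℝ)) * (r : ℝ) ^ (-(5 / 4 : ℝ)))) := by ring
    _ ≤ a4 half r := by linarith only [h6, h7]

theorem a4_upper (hU : UpA4) :
    ∃ C > (0 : ℝ), ∀ r : ℕ, 1 ≤ r → a4 half r ≤ C * (r : ℝ) ^ (-(5 / 4 : ℝ)) := by
  obtain ⟨c, C, hc, hC, h⟩ := p4_power_law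
  obtain ⟨K, hK, hU⟩ := hU
  refine ⟨K * C, by positivity, fun r hr => ?_⟩
  obtain ⟨n, H, h1, h2, h3⟩ := hU r hr
  have hr0 : (0 : ℝ) < r := by exact_mod_cast hr
  have h4 : a4 half r ≤ K * p4 n := by
    rcases h3 with h3 | h3
    · exact h3.trans (mul_le_mul_of_nonneg_left ((link_four_p4 h2).2.1 H) hK.le)
    · exact h3.trans (mul_le_mul_of_nonneg_left ((link_four_p4 h2).2.2 H) hK.le)
  have h5 : p4 n ≤ C * (n : ℝ) ^ (-(5 / 4 : ℝ)) := (h n (by omega)).2
  have h6 : (n : ℝ) ^ (-(5 / 4 : ℝ)) ≤ (r : ℝ) ^ (-(5 / 4 : ℝ)) := by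
    apply Real.rpow_le_rpow_of_nonpos hr0
    · exact_mod_cast h1
    · norm_num
  calc a4 half r ≤ K * p4 n := h4
    _ ≤ K * (C * (n : ℝ) ^ (-(5 / 4 : ℝ))) := mul_le_mul_of_nonneg_left h5 hK.le
    _ ≤ K * (C * (r : ℝ) ^ (-(5 / 4 : ℝ))) := by gcongr
    _ = K * C * (r : ℝ) ^ (-(5 / 4 : ℝ)) := by ring

/-- **The four-arm exponent.** -/
theorem a4_PN (hU : UpA4) : PN (a4 half) (5 / 4) := by
  obtain ⟨c, hc, h1⟩ := a4_lower
  obtain ⟨C, hC, h2⟩ := a4_upper hU
  exact PN_of_bounds hc fun r hr => ⟨h1 r hr, h2 r hr⟩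

end Pool.Agent.H89.EX

end

section

/-!
# Four arms of the plane can be continued to the four-leg event of the cylinder
-/

set_option autoImplicit false

open MeasureTheory ProbabilityTheory unitInterval

namespace Pool.Agent.H47.EX

open Pool.Agent.H89.Perc hiding per
open Pool.Agent.H59.EX
open Pool.Agent.H61.NC (a4 RSWreg)
open Pool.Agent.H89.Link (per Fc2 FourD a4_le_fourD)
open Pool.Agent.H89.EX (UpA4)

theorem four_srcD (r : ℕ) : Four srcD r = FourD r := by
  ext ω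
  simp only [Four, FourD, Set.mem_ofPred_eq, cut_srcD]
  rfl

/-- The upper bound for large radii gives `UpA4`. -/
theorem upA4_of_large {C : ℝ} {r₁ : ℕ} (hC : 0 < C) (h : ∀ r : ℕ, r₁ ≤ r → ∃ n H : ℕ, r ≤ n ∧
    2 ≤ n ∧ a4 half r ≤ C * Pr half {ω | per n ω ∈ Fc2 n H}) : UpA4 := by
  obtain ⟨c, hc, hlow⟩ := Pool.Agent.H89.EX.a4_lower
  obtain ⟨n₁, H₁, hn₁, hn₂, h₁⟩ := h (r₁ + 1) (by omega)
  have hpos : 0 < a4 half (r₁ + 1) :=
    lt_of_lt_of_le (by positivity) (hlow (r₁ + 1) (by omega))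
  refine ⟨C + C / a4 half (r₁ + 1), by positivity, fun r hr => ?_⟩
  have hnn : 0 ≤ C / a4 half (r₁ + 1) := by positivity
  rcases le_or_gt r₁ r with h2 | h2
  · obtain ⟨n, H, h3, h4, h5⟩ := h r h2
    refine ⟨n, H, h3, h4, Or.inr (h5.trans ?_)⟩
    have : (0 : ℝ) ≤ Pr half {ω | per n ω ∈ Fc2 n H} := Pr_nonneg
    nlinarith only [hnn, this]
  · refine ⟨n₁, H₁, by omega, hn₂, Or.inr ?_⟩
    have h6 : (0 : ℝ) ≤ Pr half {ω | per n₁ ω ∈ Fc2 n₁ H₁} := Pr_nonneg
    have h7 : a4 half r ≤ 1 := Pr_le_one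
    have h8 : 1 ≤ C / a4 half (r₁ + 1) * Pr half {ω | per n₁ ω ∈ Fc2 n₁ H₁} := by
      rw [div_mul_eq_mul_div, le_div_iff₀ hpos, one_mul]
      exact h₁
    nlinarith only [h₁, hpos, h7, h8]

/-- `UpA4` from the separation of the arms. -/
theorem upA4_of (h : ∃ (C : ℝ) (r₀ : ℕ), 0 < C ∧ ∀ r : ℕ, r₀ ≤ r → ∃ k : ℕ, 64 * r ≤ k ∧
    k ≤ 128 * r ∧ Pr half (Four srcD r) ≤ C * Pr half (Sep srcD .E .W k)) : UpA4 := by
  obtain ⟨C, r₀, hC, h⟩ := h
  obtain ⟨c, hc, hcyl⟩ := cyl_ext 256 le_rfl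
  refine upA4_of_large (C := 100 * (C / c)) (r₁ := r₀ + 2) (by positivity) fun r hr => ?_
  obtain ⟨k, h1, h2, h3⟩ := h (r - 1) (by omega)
  refine ⟨256 * k, 8 * (256 * k), by omega, by omega, ?_⟩
  have h4 := a4_le_fourD half (by rw [show ((half : I) : ℝ) = 1 / 2 from rfl]; norm_num)
    (by rw [show ((half : I) : ℝ) = 1 / 2 from rfl]; norm_num) (k := r) (by omega)
  rw [← four_srcD] at h4
  have h5 := hcyl k (by omega)
  have h6 : Pr half (Sep srcD .E .W k) ≤
      c⁻¹ * Pr half {ω | per (256 * k) ω ∈ Fc2 (256 * k) (8 * (256 * k))} := by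
    rw [inv_mul_eq_div, le_div_iff₀ hc]
    linarith only [h5]
  calc a4 half r ≤ 100 * Pr half (Four srcD (r - 1)) := h4
    _ ≤ 100 * (C * Pr half (Sep srcD .E .W k)) := by gcongr
    _ ≤ 100 * (C * (c⁻¹ * Pr half {ω | per (256 * k) ω ∈ Fc2 (256 * k) (8 * (256 * k))})) := by
        gcongr
    _ = 100 * (C / c) * Pr half {ω | per (256 * k) ω ∈ Fc2 (256 * k) (8 * (256 * k))} := by
        rw [div_eq_mul_inv]; ring

end Pool.Agent.H47.EX

end

section

/-!
# The upper bound `UpA4` on the four-arm probability of the plane by that of the cylinder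
-/

set_option autoImplicit false

open MeasureTheory ProbabilityTheory unitInterval

namespace Pool.Agent.H47.EX

open Pool.Agent.H89.Perc hiding per
open Pool.Agent.H59.EX
open Pool.Agent.H29.Sep (BadIn)
open Pool.Agent.H89.EX (UpA4)

theorem upA4_of_bad (hB : BadIn) : UpA4 := by
  obtain ⟨c, hc, hreg⟩ := rswreg_half
  obtain ⟨C, r₀, hC, h⟩ := four_le_sep hB (s := srcD) (fun k hk => sep_srcD_nonempty hk) c hc
  refine upA4_of ⟨C, r₀, hC, fun r hr => ?_⟩
  exact h r r half .E .W (by decide) hr le_rfl (hreg r)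

theorem upA4 : UpA4 := upA4_of_bad Pool.Agent.H26.HP.badIn

end Pool.Agent.H47.EX

end

section

/-!
# Probabilities of the corridor event and of the seals; locality
-/

open MeasureTheory ProbabilityTheory unitInterval

namespace Pool.Agent.H26.ST

open Pool.Agent.H89.Perc Pool.Agent.H61.NC Pool.Agent.H59.EX

end Pool.Agent.H26.ST

end

section

/-!
# A separated four-arm event costs at most a pivotal edge of the torus
-/

open MeasureTheory ProbabilityTheory unitInterval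

namespace Pool.Agent.H26.ST

open Pool.Agent.H89.Perc Pool.Agent.H61.NC Pool.Agent.H59.EX

/-- `K₁` is any constant. -/
theorem torus_ext (c : ℝ) (hc : 0 < c) (K₁ : ℕ) : ∃ C : ℝ, 0 < C ∧ ∀ (N k : ℕ) (q : I) (d : Bool)
    (s : Src), IsSrc s d → 64 ≤ k → 128 * k ≤ N → N ≤ K₁ * k → RSWreg c N q →
      Pr q (Pool.Agent.H59.EX.Sep s .W .E k) ≤ C * sT q N d := by
  obtain ⟨c₁, hc₁, H1⟩ := NpT_lower c hc K₁
  obtain ⟨c₂, hc₂, H2⟩ := HT_lower c hc K₁ (16 * K₁)
  refine ⟨1 / (c₁ * c₂), by positivity, ?_⟩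
  intro N k q d s hs hk hN hN₁ hreg
  obtain ⟨ρ, hρ⟩ : ∃ ρ : ℕ, ρ = k / 8 := ⟨_, rfl⟩
  have hρ1 : 1 ≤ ρ := by omega
  have hρk : 8 * ρ ≤ k := by omega
  have hkρ : k ≤ 16 * ρ := by omega
  have hK : N ≤ 16 * K₁ * ρ := by
    calc N ≤ K₁ * k := hN₁
      _ ≤ K₁ * (16 * ρ) := Nat.mul_le_mul_left _ hkρ
      _ = 16 * K₁ * ρ := by ring
  have key := corridor_probE (q := q) (π := modE N) (s := s) (d := .W) (d' := .E) (k := k)
    (EC := EC N k) (Np := NpT N k) (H := HT N k ρ (16 * K₁)) (c₁ := c₁) (c₂ := c₂) hc₂.le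
    (injOn_modE hk hN) (TW_sub N k) (TE_sub hk hN) (EC_inter hk hN) (EC_finite N k)
    (locS_NpT hk hN) (incr_NpT N k) (H1 N k q hk hN hN₁ hreg) (locS_HT hk hN)
    (localOn_HT N k ρ (16 * K₁)) (fun S => H2 N k ρ q S hk hN hN₁ hρ1 hρk hreg)
  have h3 : Pr q {ω | pb (modE N) ω ∈ Pool.Agent.H59.EX.Sep s .W .E k ∧ pb (modE N) ω ∈ NpT N k ∧
      pb (modE N) ω ∈ HT N k ρ (16 * K₁) (FX s .W .E k (pb (modE N) ω) ∪
        FY s .W .E k (pb (modE N) ω))} ≤ sT q N d := by
    refine le_sT (by omega) ?_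
    rintro ω ⟨h4, h5, h6⟩
    exact ⟨open_wind hs hk hN h4 h5, closed_not_wind hs hk hN hρ1 hρk hK h4 h6⟩
  have h7 := key.trans h3
  rw [div_mul_eq_mul_div, one_mul, le_div_iff₀ (by positivity)]
  calc Pr q (Pool.Agent.H59.EX.Sep s .W .E k) * (c₁ * c₂)
      = c₁ * c₂ * Pr q (Pool.Agent.H59.EX.Sep s .W .E k) := by ring
    _ ≤ _ := h7

end Pool.Agent.H26.ST

end

section

/-!
# `SepTorus`
-/

open MeasureTheory ProbabilityTheory unitInterval

namespace Pool.Agent.H26.ST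

open Pool.Agent.H89.Perc Pool.Agent.H61.NC Pool.Agent.H59.EX
open Pool.Agent.H29.Sep (BadIn SepTorus)

/-- **Four arms at scale `N / 64` cost at most a pivotal edge of the torus.** -/
theorem sepTorus (hB : BadIn) : SepTorus := by
  intro c hc
  obtain ⟨C₁, hC₁, H1⟩ := torus_ext c hc 512
  obtain ⟨C₂, r₂, hC₂, H2⟩ := four_le_sep hB (fun k hk => sep_sE_nonempty false hk) c hc
  obtain ⟨C₃, r₃, hC₃, H3⟩ := four_le_sep hB (fun k hk => sep_sE_nonempty true hk) c hc
  obtain ⟨c₄, hc₄, H4⟩ := sT_small c hc (16384 * (r₂ + r₃ + 1))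
  refine ⟨(C₂ + C₃) * C₁ + 1 / c₄, by positivity, ?_⟩
  intro N r q d hr h1 h2 hreg
  have hs0 : 0 ≤ sT q N d := sT_nonneg q N d
  rcases Nat.lt_or_ge (16384 * (r₂ + r₃ + 1)) N with hN | hN
  · obtain ⟨r', hr'⟩ : ∃ r' : ℕ, r' = N / 16384 := ⟨_, rfl⟩
    have e1 : r₂ + r₃ + 1 ≤ r' := by omega
    have e2 : r' ≤ r := by omega
    have e3 : a4 q r ≤ a4 q r' := Pool.Agent.H29.Sep.a4_anti (by omega) e2
    have key : a4 q r' ≤ (C₂ + C₃) * C₁ * sT q N d := by
      cases d
      · obtain ⟨k, hk1, hk2, hk3⟩ := H2 N r' q .W .E (by decide) (by omega) (by omega) hreg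
        rw [a4_eq_four false]
        have h4 := H1 N k q false (sE false) (isSrc_sE false) (by omega) (by omega) (by omega) hreg
        calc Pr q (Four (sE false) r') ≤ C₂ * Pr q (Pool.Agent.H59.EX.Sep (sE false) .W .E k) := hk3
          _ ≤ C₂ * (C₁ * sT q N false) := mul_le_mul_of_nonneg_left h4 hC₂.le
          _ ≤ (C₂ + C₃) * C₁ * sT q N false := by
            rw [← mul_assoc]
            refine mul_le_mul_of_nonneg_right ?_ hs0
            exact mul_le_mul_of_nonneg_right (by linarith only [hC₃]) hC₁.le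
      · obtain ⟨k, hk1, hk2, hk3⟩ := H3 N r' q .W .E (by decide) (by omega) (by omega) hreg
        rw [a4_eq_four true]
        have h4 := H1 N k q true (sE true) (isSrc_sE true) (by omega) (by omega) (by omega) hreg
        calc Pr q (Four (sE true) r') ≤ C₃ * Pr q (Pool.Agent.H59.EX.Sep (sE true) .W .E k) := hk3
          _ ≤ C₃ * (C₁ * sT q N true) := mul_le_mul_of_nonneg_left h4 hC₃.le
          _ ≤ (C₂ + C₃) * C₁ * sT q N true := by
            rw [← mul_assoc]
            refine mul_le_mul_of_nonneg_right ?_ hs0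
            exact mul_le_mul_of_nonneg_right (by linarith only [hC₂]) hC₁.le
    refine (e3.trans key).trans (mul_le_mul_of_nonneg_right ?_ hs0)
    have : 0 ≤ 1 / c₄ := by positivity
    linarith only [this]
  · have h5 := H4 N q d (by omega) hN hreg
    have h6 : a4 q r ≤ 1 := Pool.Agent.H29.Sep.a4_le_one q r
    have h7 : (1 : ℝ) ≤ 1 / c₄ * sT q N d := by
      rw [div_mul_eq_mul_div, one_mul, le_div_iff₀ hc₄, one_mul]
      exact h5
    have h8 : 0 ≤ (C₂ + C₃) * C₁ * sT q N d := by positivity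
    calc a4 q r ≤ 1 := h6
      _ ≤ 1 / c₄ * sT q N d := h7
      _ ≤ ((C₂ + C₃) * C₁ + 1 / c₄) * sT q N d := by rw [add_mul]; linarith only [h8]

theorem sepTorus_holds : SepTorus := sepTorus Pool.Agent.H26.HP.badIn

end Pool.Agent.H26.ST

end
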