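import Mathlib

/-! The parts of this file: H29.Kap.Analysis, H29.Kap.Rem, H29.Kap.Analysis3, H29.Kap.DerivBound, H29.Kap.TupleSum, H29.Kap.ExpMom, H29.Kap.EdgeDuality, H29.Kap.Pivot, H29.Kap.TupleSum3, H89.Perc.EdgeDual, H29.Kap.ThreeArms, H29.Kap.CrossMom, H29.Kap.SecondDiff, H29.Kap.StabA, H29.Kap.StabB, H29.Kap.Count, H29.Kap.Tilt, H29.Kap.Sens, H29.Kap.Invar, H29.Kap.Euler, H29.Kap.EulerExp, H29.Kap.Geo, H29.Kap.ArmRatio, H31.AL.Defs. -/

section

/-! # Analysis of the scale decomposition -/

set_option autoImplicit false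

namespace Pool.Agent.H29.Kap

/-- the even remainder -/
noncomputable def analysis_evR (y : ℕ → ℝ) (D : ℕ) (z : ℝ) : ℝ :=
  ∑ i ∈ Finset.range D, y (4 + i) * ((z ^ (4 + i) + (-z) ^ (4 + i)) / 2)

theorem analysis_sum_ext {y : ℕ → ℝ} {D : ℕ} (hyD : ∀ j, D ≤ j → y j = 0) (n : ℕ) (f : ℕ → ℝ) :
    ∑ j ∈ Finset.range D, y j * f j
      = ∑ j ∈ Finset.range n, y j * f j + ∑ i ∈ Finset.range D, y (n + i) * f (n + i) := by
  rw [← Finset.sum_range_add]
  apply Finset.sum_subset (Finset.range_mono (by omega))
  intro j _ hj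
  rw [Finset.mem_range, not_lt] at hj
  rw [hyD j hj, zero_mul]

theorem analysis_even {y : ℕ → ℝ} {D : ℕ} (hyD : ∀ j, D ≤ j → y j = 0) (z : ℝ) :
    (∑ j ∈ Finset.range D, y j * z ^ j + ∑ j ∈ Finset.range D, y j * (-z) ^ j) / 2
      = y 0 + y 2 * z ^ 2 + analysis_evR y D z := by
  rw [analysis_sum_ext hyD 4 (fun j => z ^ j), analysis_sum_ext hyD 4 (fun j => (-z) ^ j)]
  have h : analysis_evR y D z = (∑ i ∈ Finset.range D, y (4 + i) * z ^ (4 + i)
      + ∑ i ∈ Finset.range D, y (4 + i) * (-z) ^ (4 + i)) / 2 := by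
    unfold analysis_evR
    rw [← Finset.sum_add_distrib, Finset.sum_div]
    apply Finset.sum_congr rfl
    intro i _
    ring
  rw [h]
  simp only [Finset.sum_range_succ, Finset.sum_range_zero]
  ring

theorem analysis_geom (n : ℕ) : ∑ i ∈ Finset.range n, (1 / 2 : ℝ) ^ i ≤ 2 := by
  have h : ∑ i ∈ Finset.range n, (1 / 2 : ℝ) ^ i = 2 - 2 * (1 / 2) ^ n := by
    induction n with
    | zero => simp
    | succ n ih =>
      rw [Finset.sum_range_succ, ih]
      ring
  rw [h]
  have : (0 : ℝ) < (1 / 2) ^ n := by positivity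
  linarith only [this]

theorem analysis_evR_le {y : ℕ → ℝ} {D : ℕ} {C r z : ℝ} (hr : 0 < r) (hC : ∀ j, |y j| * r ^ j ≤ C)
    (hz : |z| ≤ r / 2) : |analysis_evR y D z| ≤ 2 * C * (|z| / r) ^ 4 := by
  have hC0 : 0 ≤ C := le_trans (by positivity) (hC 0)
  have hq0 : 0 ≤ |z| / r := by positivity
  have hq : |z| / r ≤ 1 / 2 := by
    rw [div_le_iff₀ hr]
    linarith only [hz]
  unfold analysis_evR
  refine (Finset.abs_sum_le_sum_abs _ _).trans ?_
  have h1 : ∀ i ∈ Finset.range D, |y (4 + i) * ((z ^ (4 + i) + (-z) ^ (4 + i)) / 2)|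
      ≤ C * (|z| / r) ^ 4 * (1 / 2) ^ i := by
    intro i _
    have h2 : |(z ^ (4 + i) + (-z) ^ (4 + i)) / 2| ≤ |z| ^ (4 + i) := by
      rw [abs_div, abs_of_pos (by norm_num : (0 : ℝ) < 2), div_le_iff₀ (by norm_num)]
      refine (abs_add_le _ _).trans ?_
      rw [abs_pow, abs_pow, abs_neg]
      linarith only
    rw [abs_mul]
    have h3 : |y (4 + i)| * |(z ^ (4 + i) + (-z) ^ (4 + i)) / 2| ≤ |y (4 + i)| * |z| ^ (4 + i) :=
      mul_le_mul_of_nonneg_left h2 (abs_nonneg _)
    refine h3.trans ?_
    have h4 : |z| = r * (|z| / r) := by field_simp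
    have h5 : |y (4 + i)| * |z| ^ (4 + i) = |y (4 + i)| * r ^ (4 + i) * (|z| / r) ^ (4 + i) := by
      conv_lhs => rw [h4]
      rw [mul_pow]
      ring
    rw [h5]
    have h6 : |y (4 + i)| * r ^ (4 + i) * (|z| / r) ^ (4 + i) ≤ C * (|z| / r) ^ (4 + i) :=
      mul_le_mul_of_nonneg_right (hC _) (by positivity)
    refine h6.trans ?_
    rw [pow_add, ← mul_assoc]
    apply mul_le_mul_of_nonneg_left _ (by positivity)
    exact pow_le_pow_left₀ hq0 hq i
  refine (Finset.sum_le_sum h1).trans ?_
  rw [← Finset.mul_sum]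
  have h7 := mul_le_mul_of_nonneg_left (analysis_geom D) (by positivity : 0 ≤ C * (|z| / r) ^ 4)
  linarith only [h7]

/-- the polynomial -/
noncomputable def analysis_P (y : ℕ → ℝ) (D : ℕ) (p : ℝ) : ℝ :=
  ∑ j ∈ Finset.range D, y j * (2 * p - 1) ^ j

/-- the size of the scale `k` -/
noncomputable def analysis_A (π : ℕ → ℝ) (k : ℕ) : ℝ :=
  4 ^ k * π (2 ^ k) ^ 2 * Real.log (2 * 2 ^ k)

theorem analysis_C2_pos {π : ℕ → ℝ} (hπ0 : ∀ n, 0 < π n) {C₂ a₀ : ℝ}
    (h2 : ∀ m n : ℕ, 1 ≤ m → m ≤ n → π n ≤ C₂ * ((m : ℝ) / n) ^ a₀ * π m) : 1 ≤ C₂ := by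
  have h := h2 1 1 le_rfl le_rfl
  norm_num at h
  have h0 := hπ0 1
  by_contra hcon
  push Not at hcon
  nlinarith only [h, h0, hcon]

theorem analysis_rho {a₀ : ℝ} (ha₀ : 0 < a₀) : 0 < (1 / 2 : ℝ) ^ a₀ ∧ (1 / 2 : ℝ) ^ a₀ < 1 :=
  ⟨by positivity, Real.rpow_lt_one (by norm_num) (by norm_num) ha₀⟩

theorem analysis_rpow_pow (a₀ : ℝ) (i : ℕ) : ((1 / 2 : ℝ) ^ i) ^ a₀ = ((1 / 2 : ℝ) ^ a₀) ^ i := by
  rw [← Real.rpow_natCast, ← Real.rpow_natCast, ← Real.rpow_mul (by norm_num),
    ← Real.rpow_mul (by norm_num), mul_comm]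

end Pool.Agent.H29.Kap

end

section

/-! # The remainder of the second order expansion at `1/2` -/

set_option autoImplicit false

namespace Pool.Agent.H29.Kap

end Pool.Agent.H29.Kap

end

section

/-! # Analysis of the scale decomposition, without logarithms -/

set_option autoImplicit false

namespace Pool.Agent.H29.Kap

/-- the size of the scale `k` -/
noncomputable def analysis3_A (π : ℕ → ℝ) (k : ℕ) : ℝ := 4 ^ k * π (2 ^ k) ^ 2

theorem analysis3_A_pos {π : ℕ → ℝ} (hπ0 : ∀ n, 0 < π n) (k : ℕ) : 0 < analysis3_A π k := by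
  unfold analysis3_A
  have := hπ0 (2 ^ k)
  positivity

theorem analysis3_C1_pos {π : ℕ → ℝ} (hπ0 : ∀ n, 0 < π n) {C₁ : ℝ}
    (h1 : ∀ m n : ℕ, 1 ≤ m → m ≤ n → π m ≤ C₁ * ((n : ℝ) / m) ^ (1 / 3 : ℝ) * π n) : 1 ≤ C₁ := by
  have h := h1 1 1 le_rfl le_rfl
  norm_num at h
  have h0 := hπ0 1
  by_contra hcon
  push Not at hcon
  nlinarith only [h, h0, hcon]

/-- `σ = 2^{-2/3}` -/
theorem analysis3_sigma : 0 < (1 / 2 : ℝ) ^ (2 / 3 : ℝ) ∧ (1 / 2 : ℝ) ^ (2 / 3 : ℝ) < 1 :=
  analysis_rho (by norm_num)

end Pool.Agent.H29.Kap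

end

section

/-! # Derivative of an expectation with respect to the density -/

set_option autoImplicit false

namespace Pool.Agent.H29.Kap

variable {ι : Type*} [DecidableEq ι]

end Pool.Agent.H29.Kap

end

section

/-! # A sum over tuples of edges -/

set_option autoImplicit false

namespace Pool.Agent.H29.Kap

/-! ### The abstract inequality -/

section abstract_part

variable {α : Type*} [DecidableEq α]

end abstract_part

/-! ### One dimensional sums -/

/-! ### Sums over the edges of a rectangle -/

lemma tupsum_card_Icc {M : ℕ} (a b : ℤ) (hM : 1 ≤ M) (hab : b - a ≤ M) :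
    ((Finset.Icc a b).card : ℝ) ≤ 2 * M := by
  rw [Int.card_Icc]
  have : (b + 1 - a).toNat ≤ 2 * M := by omega
  exact_mod_cast this

end Pool.Agent.H29.Kap

end

section

/-! # Exponential moments of the size of `R` -/

set_option autoImplicit false

namespace Pool.Agent.H29.Kap

end Pool.Agent.H29.Kap

end

section

/-! # Duality for a single edge in a rectangle -/

set_option autoImplicit false

namespace Pool.Agent.H29.Kap

end Pool.Agent.H29.Kap

end

section

/-! # Edges which matter outside `D` but not inside `D` have two arms in `D` -/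

set_option autoImplicit false

namespace Pool.Agent.H29.Kap

end Pool.Agent.H29.Kap

end

section

/-! # A sum over tuples of edges, exponent `2/3` -/

set_option autoImplicit false

namespace Pool.Agent.H29.Kap

/-- the weight -/
noncomputable def tuplesum3_g (M n : ℕ) : ℝ := ((M : ℝ) / max (n : ℝ) 1) ^ (2 / 3 : ℝ)

end Pool.Agent.H29.Kap

end

section

/-!
# Pivotal edges and closed dual paths
-/

namespace Pool.Agent.H89.Perc

end Pool.Agent.H89.Perc

end

section

/-! # Two disjoint open arms and one closed dual arm on a line -/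

set_option autoImplicit false

namespace Pool.Agent.H29.Kap

end Pool.Agent.H29.Kap

end

section

/-! # Second moment of the number of crossing clusters for `p ≤ 1/2` -/

set_option autoImplicit false

namespace Pool.Agent.H29.Kap

end Pool.Agent.H29.Kap

end

section

/-! # Second differences of cluster counts are bounded by the number of crossing clusters -/

set_option autoImplicit false

namespace Pool.Agent.H29.Kap

end Pool.Agent.H29.Kap

end

section

/-! # Stability of the set `R` under changes of an edge without open arm -/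

set_option autoImplicit false

namespace Pool.Agent.H29.Kap

end Pool.Agent.H29.Kap

end

section

/-! # Stability of the set `R` under changes of an edge without closed dual arm -/

set_option autoImplicit false

namespace Pool.Agent.H29.Kap

end Pool.Agent.H29.Kap

end

section

/-! # Cluster counts: effect of one edge, locality, simple bounds -/

set_option autoImplicit false

namespace Pool.Agent.H29.Kap

end Pool.Agent.H29.Kap

end

section

/-! # Tilting on a stable random set -/

set_option autoImplicit false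

namespace Pool.Agent.H29.Kap

variable {ι : Type*} [DecidableEq ι]

/-- Flip the membership of `g`. -/
def sflip (S : Finset ι) (g : ι) : Finset ι := if g ∈ S then S.erase g else insert g S

end Pool.Agent.H29.Kap

end

section

/-! # The second difference `X` does not change when an edge outside `R` is flipped -/

set_option autoImplicit false

namespace Pool.Agent.H29.Kap

end Pool.Agent.H29.Kap

end

section

/-! # Expected cluster counts: invariance and limit -/

set_option autoImplicit false

namespace Pool.Agent.H29.Kap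

end Pool.Agent.H29.Kap

end

section

/-! # Euler's formula for the clusters of a rectangle -/

set_option autoImplicit false

namespace Pool.Agent.H29.Kap

end Pool.Agent.H29.Kap

end

section

/-! # Euler's formula for the expected number of clusters and duality of the cluster density -/

set_option autoImplicit false

namespace Pool.Agent.H29.Kap

end Pool.Agent.H29.Kap

end

section

/-! # Uniform control of the expected second differences -/

set_option autoImplicit false

namespace Pool.Agent.H29.Kap

lemma geo_sum_extend {y : ℕ → ℝ} {D D' : ℕ} (h : D ≤ D') (hy : ∀ j, D ≤ j → y j = 0) (z : ℝ) :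
    ∑ j ∈ Finset.range D, y j * z ^ j = ∑ j ∈ Finset.range D', y j * z ^ j := by
  refine Finset.sum_subset (Finset.range_subset_range.2 h) fun j _ hj => ?_
  rw [hy j (by simpa using hj), zero_mul]

end Pool.Agent.H29.Kap

end

section

/-! # Comparison of one-arm probabilities at different scales -/

set_option autoImplicit false

namespace Pool.Agent.H29.Kap

end Pool.Agent.H29.Kap

end

section

/-!
# The probability that the endpoints of an edge are connected off the edge: definitions
-/

open MeasureTheory ProbabilityTheory unitInterval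

namespace Pool.Agent.H31.AL

end Pool.Agent.H31.AL

end
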