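import Pool.Agent.H94.BG.H31.PT.M03
import Pool.Agent.H94.BG.H31.PT.M16_3
import Pool.Agent.H94.BG.H31.PT.M38
import Pool.Agent.H94.BG.M01

/-! The parts of this file: H29.Kap.Analysis, H29.Kap.Rem, H29.Kap.Analysis3, H29.Kap.DerivBound, H29.Kap.TupleSum, H29.Kap.ExpMom, H29.Kap.EdgeDuality, H29.Kap.Pivot, H29.Kap.TupleSum3, H89.Perc.EdgeDual, H29.Kap.ThreeArms, H29.Kap.CrossMom, H29.Kap.SecondDiff, H29.Kap.StabA, H29.Kap.StabB, H29.Kap.Count, H29.Kap.Tilt, H29.Kap.Sens, H29.Kap.Invar, H29.Kap.Euler, H29.Kap.EulerExp, H29.Kap.Geo, H29.Kap.ArmRatio, H31.AL.Defs. -/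

section

/-! # Analysis of the scale decomposition -/

set_option autoImplicit false

namespace Pool.Agent.H29.Kap

end Pool.Agent.H29.Kap

end

section

/-! # The remainder of the second order expansion at `1/2` -/

set_option autoImplicit false

namespace Pool.Agent.H29.Kap

end Pool.Agent.H29.Kap

end

section

/-! # Analysis of the scale decomposition, without logarithms -/

set_option autoImplicit false

namespace Pool.Agent.H29.Kap

/-- a scale below `N` -/
theorem analysis3_small {π : ℕ → ℝ} (hπ0 : ∀ n, 0 < π n) {C₁ : ℝ}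
    (h1 : ∀ m n : ℕ, 1 ≤ m → m ≤ n → π m ≤ C₁ * ((n : ℝ) / m) ^ (1 / 3 : ℝ) * π n)
    {k K N : ℕ} (hkK : k ≤ K) (hN : 2 ^ K ≤ N) :
    analysis3_A π k ^ 2 / 4 ^ k
      ≤ C₁ ^ 4 * ((N : ℝ) ^ 2 * π N ^ 4) * ((1 / 2 : ℝ) ^ (2 / 3 : ℝ)) ^ (K - k) := by
  have hk : 2 ^ k ≤ N := (Nat.pow_le_pow_right (by norm_num) hkK).trans hN
  have hN1 : 1 ≤ N := Nat.one_le_two_pow.trans hk
  have h := h1 (2 ^ k) N Nat.one_le_two_pow hk
  have hC1 := analysis3_C1_pos hπ0 h1
  have hNr : (0 : ℝ) < N := by exact_mod_cast hN1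
  push_cast at h
  set t : ℝ := (N : ℝ) / 2 ^ k with ht
  have ht0 : 0 < t := by positivity
  have hπk := hπ0 (2 ^ k)
  have hπN := hπ0 N
  have h4k : (4 : ℝ) ^ k = 2 ^ k * 2 ^ k := by
    rw [← mul_pow]
    norm_num
  -- `t ≥ 2^{K-k}`
  have htK : (2 : ℝ) ^ (K - k) ≤ t := by
    rw [ht, le_div_iff₀ (by positivity), ← pow_add]
    have : K - k + k = K := by omega
    rw [this]
    exact_mod_cast hN
  have h2 : analysis3_A π k ^ 2 / 4 ^ k = 4 ^ k * π (2 ^ k) ^ 4 := by
    unfold analysis3_A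
    field_simp
  rw [h2]
  have h3 := pow_le_pow_left₀ hπk.le h 4
  have h4 : 4 ^ k * π (2 ^ k) ^ 4 ≤ 4 ^ k * (C₁ * t ^ (1 / 3 : ℝ) * π N) ^ 4 :=
    mul_le_mul_of_nonneg_left h3 (by positivity)
  refine h4.trans ?_
  -- `4^k t^{4/3} = N² t^{-2/3}`
  have h5 : (t ^ (1 / 3 : ℝ)) ^ 4 = t ^ 2 * t ^ (-(2 / 3) : ℝ) := by
    rw [← Real.rpow_natCast (t ^ (1 / 3 : ℝ)), ← Real.rpow_mul ht0.le, ← Real.rpow_natCast t,
      ← Real.rpow_add ht0]
    norm_num
  have h6 : t ^ (-(2 / 3) : ℝ) ≤ ((1 / 2 : ℝ) ^ (2 / 3 : ℝ)) ^ (K - k) := by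
    rw [← analysis_rpow_pow]
    have e1 : ((1 / 2 : ℝ) ^ (K - k)) ^ (2 / 3 : ℝ) = ((2 : ℝ) ^ (K - k)) ^ (-(2 / 3) : ℝ) := by
      rw [one_div_pow, one_div, Real.inv_rpow (by positivity), Real.rpow_neg (by positivity)]
    rw [e1]
    exact Real.rpow_le_rpow_of_nonpos (by positivity) htK (by norm_num)
  have h7 : 4 ^ k * (C₁ * t ^ (1 / 3 : ℝ) * π N) ^ 4
      = C₁ ^ 4 * ((N : ℝ) ^ 2 * π N ^ 4) * t ^ (-(2 / 3) : ℝ) := by
    have e1 : (C₁ * t ^ (1 / 3 : ℝ) * π N) ^ 4 = C₁ ^ 4 * π N ^ 4 * (t ^ (1 / 3 : ℝ)) ^ 4 := by ring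
    rw [e1, h5]
    have e2 : 4 ^ k * t ^ 2 = (N : ℝ) ^ 2 := by
      rw [ht, h4k]
      field_simp
    calc 4 ^ k * (C₁ ^ 4 * π N ^ 4 * (t ^ 2 * t ^ (-(2 / 3) : ℝ)))
        = (4 ^ k * t ^ 2) * (C₁ ^ 4 * π N ^ 4 * t ^ (-(2 / 3) : ℝ)) := by ring
      _ = _ := by rw [e2]; ring
  rw [h7]
  exact mul_le_mul_of_nonneg_left h6 (by positivity)

/-- a scale above `N` -/
theorem analysis3_large {π : ℕ → ℝ} (hπ0 : ∀ n, 0 < π n) {C₂ a₀ : ℝ} (ha₀ : 0 < a₀)
    (h2 : ∀ m n : ℕ, 1 ≤ m → m ≤ n → π n ≤ C₂ * ((m : ℝ) / n) ^ a₀ * π m)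
    {K N i : ℕ} (hN : 1 ≤ N) (hK : N < 2 ^ (K + 1)) :
    analysis3_A π (i + (K + 1)) / 4 ^ (i + (K + 1))
      ≤ C₂ ^ 2 * π N ^ 2 * ((1 / 2 : ℝ) ^ a₀) ^ i := by
  have hC2 := analysis_C2_pos hπ0 h2
  set k := i + (K + 1) with hk
  have hKk : 2 ^ (K + 1) ≤ 2 ^ k := Nat.pow_le_pow_right (by norm_num) (by omega)
  have hNk : N ≤ 2 ^ k := by omega
  have h := h2 N (2 ^ k) hN hNk
  push_cast at h
  have hπN := hπ0 N
  have hπk := hπ0 (2 ^ k)
  have hti2 : (N : ℝ) / 2 ^ k ≤ (1 / 2) ^ i := by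
    rw [div_le_iff₀ (by positivity), hk, pow_add, ← mul_assoc, ← mul_pow]
    norm_num
    have : (N : ℝ) < 2 ^ (K + 1) := by exact_mod_cast hK
    linarith only [this]
  have hinv : ((N : ℝ) / 2 ^ k) ^ a₀ ≤ ((1 / 2 : ℝ) ^ a₀) ^ i := by
    rw [← analysis_rpow_pow]
    exact Real.rpow_le_rpow (by positivity) hti2 ha₀.le
  obtain ⟨hρ0, hρ1⟩ := analysis_rho ha₀
  set ρ := (1 / 2 : ℝ) ^ a₀ with hρ
  have h3 : analysis3_A π k / 4 ^ k = π (2 ^ k) ^ 2 := by
    unfold analysis3_A
    field_simp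
  rw [h3]
  have h4 : π (2 ^ k) ≤ C₂ * ρ ^ i * π N := by
    refine h.trans ?_
    gcongr
  have h5 := pow_le_pow_left₀ hπk.le h4 2
  refine h5.trans ?_
  have h6 : (ρ ^ i) ^ 2 ≤ ρ ^ i := by
    have e1 : ρ ^ i ≤ 1 := pow_le_one₀ hρ0.le hρ1.le
    have e2 : 0 < ρ ^ i := by positivity
    nlinarith only [hρ0, hρ1, e1, e2]
  calc (C₂ * ρ ^ i * π N) ^ 2 = C₂ ^ 2 * π N ^ 2 * (ρ ^ i) ^ 2 := by ring
    _ ≤ C₂ ^ 2 * π N ^ 2 * ρ ^ i := mul_le_mul_of_nonneg_left h6 (by positivity)

/-- the sum over the scales -/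
theorem analysis3_T {π : ℕ → ℝ} (hπ0 : ∀ n, 0 < π n)
    {C₁ : ℝ} (h1 : ∀ m n : ℕ, 1 ≤ m → m ≤ n → π m ≤ C₁ * ((n : ℝ) / m) ^ (1 / 3 : ℝ) * π n)
    {C₂ a₀ : ℝ} (ha₀ : 0 < a₀)
    (h2 : ∀ m n : ℕ, 1 ≤ m → m ≤ n → π n ≤ C₂ * ((m : ℝ) / n) ^ a₀ * π m)
    {C C₃ : ℝ} (hC : 0 ≤ C) (hC₃ : 0 < C₃) {R : ℕ → ℝ} (hR : ∀ k, 0 ≤ R k)
    (hRA : ∀ k, R k ≤ C₃ * analysis3_A π k) (hRs : Summable fun k => R k / 4 ^ (k + 1))
    {E : ℕ → ℝ} {z : ℝ} (hE1 : ∀ k, |E k| ≤ 9 * C * (z ^ 2 * R k))
    (hE2 : ∀ k, |E k| ≤ 36 * C * (z ^ 2 * R k) ^ 2) {N : ℕ} (hN : 1 ≤ N)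
    (hW : z ^ 2 * ((N : ℝ) ^ 2 * π N ^ 2) ≤ 4) :
    |∑' k, E k / 4 ^ (k + 1)| ≤ (144 * C * C₃ ^ 2 * C₁ ^ 4 / (1 - (1 / 2 : ℝ) ^ (2 / 3 : ℝ))
      + 9 * C * C₃ * C₂ ^ 2 / (1 - (1 / 2 : ℝ) ^ a₀)) / (N : ℝ) ^ 2 := by
  have hC1 := analysis3_C1_pos hπ0 h1
  have hC2 := analysis_C2_pos hπ0 h2
  obtain ⟨hρ0, hρ1⟩ := analysis_rho ha₀
  set ρ := (1 / 2 : ℝ) ^ a₀ with hρ
  obtain ⟨hσ0, hσ1⟩ := analysis3_sigma
  set σ := (1 / 2 : ℝ) ^ (2 / 3 : ℝ) with hσ
  have hNr : (0 : ℝ) < N := by exact_mod_cast hN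
  have hπN := hπ0 N
  have hA := analysis3_A_pos hπ0
  have hρ2 : 0 < 1 - ρ := by linarith only [hρ1]
  have hσ2 : 0 < 1 - σ := by linarith only [hσ1]
  -- absolute summability
  have hEs : Summable fun k => |E k / 4 ^ (k + 1)| := by
    apply Summable.of_nonneg_of_le (fun k => abs_nonneg _) _ (hRs.mul_left (9 * C * z ^ 2))
    intro k
    rw [abs_div, abs_of_pos (by positivity : (0 : ℝ) < 4 ^ (k + 1)), ← mul_div_assoc]
    apply div_le_div_of_nonneg_right _ (by positivity)
    refine (hE1 k).trans (le_of_eq ?_)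
    ring
  have h3 : |∑' k, E k / 4 ^ (k + 1)| ≤ ∑' k, |E k / 4 ^ (k + 1)| := by
    exact norm_tsum_le_tsum_norm (f := fun k => E k / 4 ^ (k + 1)) hEs
  refine h3.trans ?_
  set K := Nat.log 2 N with hK
  have hK1 : 2 ^ K ≤ N := Nat.pow_log_le_self 2 (by omega)
  have hK2 : N < 2 ^ (K + 1) := Nat.lt_pow_succ_log_self (by norm_num) _
  rw [← hEs.sum_add_tsum_nat_add (K + 1), add_div]
  apply add_le_add
  · -- small scales
    have h4 : ∀ k ∈ Finset.range (K + 1), |E k / 4 ^ (k + 1)|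
        ≤ 9 * C * C₃ ^ 2 * C₁ ^ 4 * (z ^ 4 * ((N : ℝ) ^ 2 * π N ^ 4)) * σ ^ (K + 1 - 1 - k) := by
      intro k hk
      have hkK : k ≤ K := by
        rw [Finset.mem_range] at hk
        omega
      have h5 := analysis3_small hπ0 h1 hkK hK1
      rw [← hσ] at h5
      rw [abs_div, abs_of_pos (by positivity : (0 : ℝ) < 4 ^ (k + 1)), Nat.add_sub_cancel]
      have h6 : |E k| ≤ 36 * C * (z ^ 2 * (C₃ * analysis3_A π k)) ^ 2 := by
        refine (hE2 k).trans ?_
        have := hRA k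
        have := hR k
        gcongr
      have h7 : |E k| / 4 ^ (k + 1) ≤ 36 * C * (z ^ 2 * (C₃ * analysis3_A π k)) ^ 2 / 4 ^ (k + 1) :=
        div_le_div_of_nonneg_right h6 (by positivity)
      refine h7.trans ?_
      have h8 : 36 * C * (z ^ 2 * (C₃ * analysis3_A π k)) ^ 2 / 4 ^ (k + 1)
          = 9 * C * C₃ ^ 2 * z ^ 4 * (analysis3_A π k ^ 2 / 4 ^ k) := by
        rw [pow_succ (4 : ℝ) k]
        field_simp
        ring
      rw [h8]
      have h9 : 0 ≤ 9 * C * C₃ ^ 2 * z ^ 4 := by positivity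
      refine (mul_le_mul_of_nonneg_left h5 h9).trans (le_of_eq ?_)
      ring
    refine (Finset.sum_le_sum h4).trans ?_
    rw [Finset.sum_range_reflect (fun j => 9 * C * C₃ ^ 2 * C₁ ^ 4
      * (z ^ 4 * ((N : ℝ) ^ 2 * π N ^ 4)) * σ ^ j) (K + 1), ← Finset.mul_sum]
    have hgeo : ∑ i ∈ Finset.range (K + 1), σ ^ i ≤ 1 / (1 - σ) := by
      rw [one_div, ← tsum_geometric_of_lt_one hσ0.le hσ1]
      exact (summable_geometric_of_lt_one hσ0.le hσ1).sum_le_tsum _ (fun i _ => by positivity)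
    have hW0 : 0 ≤ z ^ 2 * ((N : ℝ) ^ 2 * π N ^ 2) := by positivity
    have h13 : (z ^ 2 * ((N : ℝ) ^ 2 * π N ^ 2)) ^ 2 ≤ 4 ^ 2 := pow_le_pow_left₀ hW0 hW 2
    have h14 : 9 * C * C₃ ^ 2 * C₁ ^ 4 * (z ^ 4 * ((N : ℝ) ^ 2 * π N ^ 4))
        = 9 * C * C₃ ^ 2 * C₁ ^ 4 / (N : ℝ) ^ 2 * (z ^ 2 * ((N : ℝ) ^ 2 * π N ^ 2)) ^ 2 := by
      field_simp
    rw [h14]
    calc 9 * C * C₃ ^ 2 * C₁ ^ 4 / (N : ℝ) ^ 2 * (z ^ 2 * ((N : ℝ) ^ 2 * π N ^ 2)) ^ 2
          * ∑ i ∈ Finset.range (K + 1), σ ^ i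
        ≤ 9 * C * C₃ ^ 2 * C₁ ^ 4 / (N : ℝ) ^ 2 * 4 ^ 2 * (1 / (1 - σ)) := by
          apply mul_le_mul _ hgeo (Finset.sum_nonneg (fun i _ => by positivity)) (by positivity)
          exact mul_le_mul_of_nonneg_left h13 (by positivity)
      _ = _ := by
          field_simp
          ring
  · -- large scales
    have h4 : ∀ i, |E (i + (K + 1)) / 4 ^ (i + (K + 1) + 1)|
        ≤ 9 / 4 * C * C₃ * C₂ ^ 2 * (z ^ 2 * π N ^ 2) * ρ ^ i := by
      intro i
      have h5 := analysis3_large hπ0 ha₀ h2 (i := i) hN hK2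
      rw [← hρ] at h5
      set k := i + (K + 1) with hk
      rw [abs_div, abs_of_pos (by positivity : (0 : ℝ) < 4 ^ (k + 1))]
      have h6 : |E k| ≤ 9 * C * (z ^ 2 * (C₃ * analysis3_A π k)) := by
        refine (hE1 k).trans ?_
        have := hRA k
        have := hR k
        gcongr
      have h7 : |E k| / 4 ^ (k + 1) ≤ 9 * C * (z ^ 2 * (C₃ * analysis3_A π k)) / 4 ^ (k + 1) :=
        div_le_div_of_nonneg_right h6 (by positivity)
      refine h7.trans ?_
      have h8 : 9 * C * (z ^ 2 * (C₃ * analysis3_A π k)) / 4 ^ (k + 1)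
          = 9 / 4 * C * C₃ * z ^ 2 * (analysis3_A π k / 4 ^ k) := by
        rw [pow_succ (4 : ℝ) k]
        field_simp
      rw [h8]
      have h9 : 0 ≤ 9 / 4 * C * C₃ * z ^ 2 := by positivity
      refine (mul_le_mul_of_nonneg_left h5 h9).trans (le_of_eq ?_)
      ring
    have hgeo : Summable fun i : ℕ => ρ ^ i := summable_geometric_of_lt_one hρ0.le hρ1
    have h5 : ∑' i, |E (i + (K + 1)) / 4 ^ (i + (K + 1) + 1)|
        ≤ ∑' i, 9 / 4 * C * C₃ * C₂ ^ 2 * (z ^ 2 * π N ^ 2) * ρ ^ i :=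
      Summable.tsum_le_tsum h4 ((summable_nat_add_iff (f := fun k => |E k / 4 ^ (k + 1)|) (K + 1)).2 hEs) (hgeo.mul_left _)
    refine h5.trans ?_
    rw [tsum_mul_left, tsum_geometric_of_lt_one hρ0.le hρ1]
    have h6 : 9 / 4 * C * C₃ * C₂ ^ 2 * (z ^ 2 * π N ^ 2) * (1 - ρ)⁻¹
        = 9 / 4 * C * C₃ * C₂ ^ 2 / (1 - ρ) / (N : ℝ) ^ 2 * (z ^ 2 * ((N : ℝ) ^ 2 * π N ^ 2)) := by
      field_simp
    rw [h6]
    have h7 : 0 ≤ 9 / 4 * C * C₃ * C₂ ^ 2 / (1 - ρ) / (N : ℝ) ^ 2 := by positivity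
    refine (mul_le_mul_of_nonneg_left hW h7).trans (le_of_eq ?_)
    ring

end Pool.Agent.H29.Kap

end

section

/-! # Derivative of an expectation with respect to the density -/

set_option autoImplicit false

namespace Pool.Agent.H29.Kap

open Pool.Agent.Perc

variable {ι : Type*} [DecidableEq ι]

end Pool.Agent.H29.Kap

end

section

/-! # A sum over tuples of edges -/

set_option autoImplicit false

namespace Pool.Agent.H29.Kap

open Pool.Agent.H89.Perc

/-! ### The abstract inequality -/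

section abstract_part

variable {α : Type*} [DecidableEq α]

end abstract_part

/-! ### One dimensional sums -/

/-! ### Sums over the edges of a rectangle -/

lemma tupsum_redges_le {a b c d : ℤ} (f : ℤ → ℤ → ℝ) (hf : ∀ x y, 0 ≤ f x y) :
    ∑ e ∈ redges a b c d, f e.1 e.2.1 ≤
      2 * ∑ x ∈ Finset.Icc a b, ∑ y ∈ Finset.Icc c d, f x y := by
  have hsub : redges a b c d ⊆ Finset.Icc a b ×ˢ Finset.Icc c d ×ˢ (Finset.univ : Finset Bool) := by
    intro e he
    obtain ⟨x, y, t⟩ := e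
    simp only [redges, Finset.mem_union, Finset.mem_product, Finset.mem_Icc, Finset.mem_singleton,
      Finset.mem_univ, and_true] at he ⊢
    omega
  refine (Finset.sum_le_sum_of_subset_of_nonneg hsub fun e _ _ => hf _ _).trans ?_
  rw [Finset.sum_product]
  simp only [Finset.sum_product]
  simp only [Finset.sum_const, Finset.card_univ, Fintype.card_bool, nsmul_eq_mul]
  rw [Finset.mul_sum]
  simp only [Finset.mul_sum]
  push_cast
  exact le_rfl

end Pool.Agent.H29.Kap

end

section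

/-! # Exponential moments of the size of `R` -/

set_option autoImplicit false

namespace Pool.Agent.H29.Kap

open Pool.Agent.H89.Perc Pool.Agent.Perc

end Pool.Agent.H29.Kap

end

section

/-! # Duality for a single edge in a rectangle -/

set_option autoImplicit false

namespace Pool.Agent.H29.Kap

open Pool.Agent.H89.Perc

/-- A function which does not change across the edges outside `D` is constant on the faces
outside `D`. -/
theorem edgeduality_ring {α : Type*} {f : Vert → α} {a b c d : ℤ} (hab : a ≤ b) (hcd : c ≤ d)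
    (h : ∀ g : Edge, ¬ (src g ∈ rect a b c d ∧ tgt g ∈ rect a b c d) →
      lowFace g ∈ rect (a - 1) b (c - 1) d → src g ∈ rect (a - 1) b (c - 1) d →
      f (lowFace g) = f (src g)) :
    ∀ v ∈ bd (a - 1) b (c - 1) d, f v = f (a - 1, c - 1) := by
  have hor : ∀ x y : ℤ, a - 1 ≤ x → x < b → (y = c - 1 ∨ y = d) → f (x, y) = f (x + 1, y) := by
    intro x y h1 h2 h3
    have h4 := h (x + 1, y, true) (by
      simp only [src, tgt, rect, Set.mem_ofPred_eq, if_true]
      omega) (by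
      simp only [lowFace, rect, Set.mem_ofPred_eq, if_true]
      omega) (by
      simp only [src, rect, Set.mem_ofPred_eq]
      omega)
    simpa [lowFace, src] using h4
  have ver : ∀ x y : ℤ, c - 1 ≤ y → y < d → (x = a - 1 ∨ x = b) → f (x, y) = f (x, y + 1) := by
    intro x y h1 h2 h3
    have h4 := h (x, y + 1, false) (by
      simp only [src, tgt, rect, Set.mem_ofPred_eq, Bool.false_eq_true, if_false]
      omega) (by
      simp only [lowFace, rect, Set.mem_ofPred_eq, Bool.false_eq_true, if_false]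
      omega) (by
      simp only [src, rect, Set.mem_ofPred_eq]
      omega)
    simpa [lowFace, src] using h4
  rintro ⟨x, y⟩ ⟨⟨h1, h2, h3, h4⟩, h5⟩
  simp only at h1 h2 h3 h4 h5
  rcases h5 with h5 | h5 | h5 | h5
  · subst h5
    exact (const_col (f := f) h3 fun y' k1 k2 => ver _ _ k1 (by omega) (Or.inl rfl)).symm
  · subst h5
    rw [← const_col (f := f) h3 fun y' k1 k2 => ver _ _ k1 (by omega) (Or.inr rfl)]
    exact (const_row (f := f) h1 fun x' k1 k2 => hor _ _ k1 (by omega) (Or.inl rfl)).symm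
  · subst h5
    exact (const_row (f := f) h1 fun x' k1 k2 => hor _ _ k1 (by omega) (Or.inl rfl)).symm
  · subst h5
    rw [← const_row (f := f) h1 fun x' k1 k2 => hor _ _ k1 (by omega) (Or.inr rfl)]
    exact (const_col (f := f) h3 fun y' k1 k2 => ver _ _ k1 (by omega) (Or.inl rfl)).symm

end Pool.Agent.H29.Kap

end

section

/-! # Edges which matter outside `D` but not inside `D` have two arms in `D` -/

set_option autoImplicit false

namespace Pool.Agent.H29.Kap

open Pool.Agent.H89.Perc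

/-- The faces next to an edge of `D`. -/
lemma pivot_faces {a b c d : ℤ} {e : Edge} (he : e ∈ redges a b c d) :
    src e ∈ rect (a - 1) b (c - 1) d ∧ lowFace e ∈ rect (a - 1) b (c - 1) d := by
  rw [mem_redges] at he
  obtain ⟨x, y, t⟩ := e
  cases t <;>
  · simp only [src, tgt, lowFace, rect, Set.mem_ofPred_eq, if_true, Bool.false_eq_true,
      if_false] at he ⊢
    omega

/-- An edge with two adjacent faces in the larger rectangle of faces, one of them inner, is an edge
of `D`. -/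
lemma pivot_redges {a b c d : ℤ} {e : Edge} (h1 : src e ∈ rect (a - 1) b (c - 1) d)
    (h2 : lowFace e ∈ rect (a - 1) b (c - 1) d)
    (h3 : src e ∉ bd (a - 1) b (c - 1) d ∨ lowFace e ∉ bd (a - 1) b (c - 1) d) :
    e ∈ redges a b c d := by
  rw [mem_redges]
  obtain ⟨x, y, t⟩ := e
  cases t <;>
  · simp only [src, tgt, lowFace, rect, bd, Set.mem_ofPred_eq, if_true, Bool.false_eq_true,
      if_false] at h1 h2 h3 ⊢
    omega

lemma pivot_congr {ω ω' : Config} {a b c d : ℤ} (h : ∀ e ∈ redges a b c d, ω e = ω' e)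
    (e : Edge) (hR : InR ω a b c d e) : InR ω' a b c d e := by
  obtain ⟨he, ⟨u, hu, w, hw, huw⟩, F, hF, G, hG, hFG⟩ := hR
  have hup : ∀ v : Bool, ∀ f ∈ redges a b c d,
      Function.update ω e v f = Function.update ω' e v f := by
    intro v f hf
    by_cases hfe : f = e
    · subst hfe; simp
    · rw [Function.update_of_ne hfe, Function.update_of_ne hfe, h f hf]
  refine ⟨he, ⟨u, hu, w, hw, huw.congr fun f k1 k2 => hup false f (mem_redges.2 ⟨k1, k2⟩)⟩, ?_⟩
  have hstep : ∀ z z' : Vert, (z ∉ bd (a - 1) b (c - 1) d ∨ z' ∉ bd (a - 1) b (c - 1) d) →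
      Step (dual (Function.update ω e true)) (rect (a - 1) b (c - 1) d) z z' →
      Step (dual (Function.update ω' e true)) (rect (a - 1) b (c - 1) d) z z' := by
    rintro z z' hz ⟨m1, m2, f, m3, m4⟩
    refine ⟨m1, m2, f, m3, ?_⟩
    have m5 : crossed f ∈ redges a b c d := by
      apply pivot_redges
      · rw [← tgt_eq_src_crossed]
        rcases m3 with ⟨l1, l2⟩ | ⟨l1, l2⟩
        · rw [← l2]; exact m2
        · rw [← l1]; exact m1
      · rw [← src_eq_lowFace_crossed]
        rcases m3 with ⟨l1, l2⟩ | ⟨l1, l2⟩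
        · rw [← l1]; exact m1
        · rw [← l2]; exact m2
      · rw [← src_eq_lowFace_crossed, ← tgt_eq_src_crossed]
        rcases m3 with ⟨l1, l2⟩ | ⟨l1, l2⟩
        · rw [← l1, ← l2]; exact hz.symm
        · rw [← l1, ← l2]; exact hz
    simp only [dual] at m4 ⊢
    rw [← hup true _ m5]
    exact m4
  by_cases hFb : F ∈ bd (a - 1) b (c - 1) d
  · exact ⟨F, hF, F, hFb, Conn.refl hFG.mem_left⟩
  · obtain ⟨z, z', k1, k2, k3, -⟩ := hFG.exists_hit hFb hG
    refine ⟨F, hF, z', k3, ?_⟩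
    have k4 : Conn (dual (Function.update ω' e true)) (rect (a - 1) b (c - 1) d) F z := by
      refine k1.induction_right
        (P := fun z => Conn (dual (Function.update ω' e true)) (rect (a - 1) b (c - 1) d) F z)
        (Conn.refl hFG.mem_left) ?_
      intro x y hx hxy ih
      refine ih.tail (hstep x y (Or.inl hxy.1.2) ⟨hxy.1.1, hxy.2.1.1, hxy.2.2⟩)
    exact k4.tail (hstep z z' (Or.inl k1.mem_right.2) k2)

/-- `InR` depends only on the edges of the rectangle. -/
theorem inR_congr {ω ω' : Config} {a b c d : ℤ} (h : ∀ e ∈ redges a b c d, ω e = ω' e)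
    (e : Edge) : InR ω a b c d e ↔ InR ω' a b c d e :=
  ⟨pivot_congr h e, pivot_congr (fun f hf => (h f hf).symm) e⟩

/-- `InR` of `e` does not depend on the state of `e`. -/
theorem inR_update_self {ω : Config} {a b c d : ℤ} (e : Edge) (v : Bool) :
    InR (Function.update ω e v) a b c d e ↔ InR ω a b c d e := by
  unfold InR OArm CArm
  rw [Function.update_idem, Function.update_idem]

end Pool.Agent.H29.Kap

end

section

/-! # A sum over tuples of edges, exponent `2/3` -/

set_option autoImplicit false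

namespace Pool.Agent.H29.Kap

open Pool.Agent.H89.Perc

lemma tuplesum3_one {M : ℕ} (hM : 1 ≤ M) {a b c d : ℤ} (hab : b - a ≤ M) (hcd : d - c ≤ M) :
    ((redges a b c d).card : ℝ) ≤ 128 * (M : ℝ) ^ 2 := by
  have h1 := tupsum_redges_le (a := a) (b := b) (c := c) (d := d) (fun _ _ => 1)
    (fun _ _ => zero_le_one)
  simp only [Finset.sum_const, nsmul_eq_mul, mul_one] at h1
  have h2 := tupsum_card_Icc a b hM hab
  have h3 := tupsum_card_Icc c d hM hcd
  have h5 : ((Finset.Icc a b).card : ℝ) * ((Finset.Icc c d).card : ℝ) ≤ 2 * M * (2 * M) :=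
    mul_le_mul h2 h3 (by positivity) (by positivity)
  have h6 : (0 : ℝ) ≤ (M : ℝ) ^ 2 := by positivity
  nlinarith only [h1, h5]

end Pool.Agent.H29.Kap

end

section

/-!
# Pivotal edges and closed dual paths
-/

namespace Pool.Agent.H89.Perc

end Pool.Agent.H89.Perc

end

section

/-! # Two disjoint open arms and one closed dual arm on a line -/

set_option autoImplicit false

namespace Pool.Agent.H29.Kap

open Pool.Agent.H89.Perc

end Pool.Agent.H29.Kap

end

section

/-! # Second moment of the number of crossing clusters for `p ≤ 1/2` -/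

set_option autoImplicit false

namespace Pool.Agent.H29.Kap

open Pool.Agent.H89.Perc Pool.Agent.Perc

end Pool.Agent.H29.Kap

end

section

/-! # Second differences of cluster counts are bounded by the number of crossing clusters -/

set_option autoImplicit false

namespace Pool.Agent.H29.Kap

open Pool.Agent.H89.Perc

/-- A cluster of a larger set which is contained in a smaller set is a cluster there. -/
theorem seconddiff_cluster_of_subset {ω : Config} {S S' : Set Vert} (hSS : S ⊆ S')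
    {C : Set Vert} (hC : C ∈ clusters ω S') (hCS : C ⊆ S) : C ∈ clusters ω S := by
  obtain ⟨v, hv, rfl⟩ := hC
  have hvC : v ∈ {w | Conn ω S' v w} := Conn.refl hv
  refine ⟨v, hCS hvC, ?_⟩
  ext w
  constructor
  · intro hw
    refine Conn.induction_right (P := fun x => Conn ω S v x) hw (Conn.refl (hCS hvC)) ?_
    intro a b hva hab ha
    exact ha.tail ⟨ha.mem_right, hCS (hva.tail hab), hab.2.2⟩
  · intro hw
    exact Conn.mono_set hSS hw

/-- A cluster of a smaller set which cannot be left inside the larger set is a cluster there. -/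
theorem seconddiff_cluster_of_closed {ω : Config} {S S' : Set Vert} (hSS : S ⊆ S')
    {C : Set Vert} (hC : C ∈ clusters ω S)
    (hcl : ∀ w ∈ C, ∀ w', Step ω S' w w' → w' ∈ S) : C ∈ clusters ω S' := by
  obtain ⟨v, hv, rfl⟩ := hC
  refine ⟨v, hSS hv, ?_⟩
  ext w
  constructor
  · intro hw
    exact Conn.mono_set hSS hw
  · intro hw
    refine Conn.induction_right (P := fun x => Conn ω S v x) hw (Conn.refl hv) ?_
    intro a b hva hab ha
    exact ha.tail ⟨ha.mem_right, hcl a ha b hab, hab.2.2⟩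

/-- Counting by touching clusters. -/
theorem seconddiff_ncard_le {ω : Config} {S S' : Set Vert} (hSS : S ⊆ S')
    {A B : Set (Set Vert)} (hA : A ⊆ clusters ω S') (hB : B ⊆ clusters ω S) (hfin : B.Finite)
    (h : ∀ C ∈ A, ∃ D ∈ B, ∃ v, v ∈ C ∧ v ∈ D) : A.ncard ≤ B.ncard := by
  classical
  choose! f hf v hv1 hv2 using h
  refine Set.ncard_le_ncard_of_injOn f hf ?_ hfin
  intro C hC C' hC' hff
  have h1 : v C' ∈ f C := by
    rw [hff]
    exact hv2 C' hC'
  have h2 := mem_cluster_iff (hB (hf C hC)) (hv2 C hC)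
  rw [h2] at h1
  have h3 : Conn ω S' (v C) (v C') := Conn.mono_set hSS h1
  have h4 := mem_cluster_iff (hA hC) (hv1 C hC)
  have h5 : v C' ∈ C := by
    rw [h4]
    exact h3
  rw [mem_cluster_iff (hA hC) h5]
  exact (mem_cluster_iff (hA hC') (hv1 C' hC')).symm

/-- the cluster of `v` in `S` -/
theorem seconddiff_mk {ω : Config} {S : Set Vert} {v : Vert} (hv : v ∈ S) :
    {w | Conn ω S v w} ∈ clusters ω S := ⟨v, hv, rfl⟩

/-- clusters split according to whether they reach `x` -/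
theorem seconddiff_split {ω : Config} {a b c d : ℤ} (x : ℤ) :
    K ω (rect a b c d) =
      {C | C ∈ clusters ω (rect a b c d) ∧ ∃ v ∈ C, x ≤ v.1}.ncard +
        {C | C ∈ clusters ω (rect a b c d) ∧ ∀ v ∈ C, v.1 < x}.ncard := by
  have hfin := clusters_finite ω (rect_finite a b c d)
  have f1 : {C | C ∈ clusters ω (rect a b c d) ∧ ∃ v ∈ C, x ≤ v.1}.Finite :=
    hfin.subset fun C hC => hC.1
  have f2 : {C | C ∈ clusters ω (rect a b c d) ∧ ∀ v ∈ C, v.1 < x}.Finite :=
    hfin.subset fun C hC => hC.1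
  unfold K
  rw [← Set.ncard_union_eq ?_ f1 f2]
  · congr 1
    ext C
    constructor
    · intro hC
      by_cases h : ∃ v ∈ C, x ≤ v.1
      · exact Or.inl ⟨hC, h⟩
      · push Not at h
        exact Or.inr ⟨hC, h⟩
    · rintro (h | h)
      · exact h.1
      · exact h.1
  · rw [Set.disjoint_left]
    rintro C ⟨-, v, hv, hv'⟩ ⟨-, h⟩
    have := h v hv
    omega

end Pool.Agent.H29.Kap

end

section

/-! # Stability of the set `R` under changes of an edge without open arm -/

set_option autoImplicit false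

namespace Pool.Agent.H29.Kap

open Pool.Agent.H89.Perc

/-- The boundary ring of a rectangle is connected. -/
theorem stabA_ring {a b c d : ℤ} (hab : a ≤ b) (hcd : c ≤ d) {u : Vert} (hu : u ∈ bd a b c d) :
    Conn allOpen (bd a b c d) (b, d) u := by
  have hmem : ∀ x y : ℤ, a ≤ x → x ≤ b → c ≤ y → y ≤ d →
      (x = a ∨ x = b ∨ y = c ∨ y = d) → ((x, y) : Vert) ∈ bd a b c d := by
    intro x y h1 h2 h3 h4 h5
    exact ⟨⟨h1, h2, h3, h4⟩, h5⟩
  obtain ⟨x, y⟩ := u
  obtain ⟨⟨h1, h2, h3, h4⟩, h5⟩ := hu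
  simp only at h1 h2 h3 h4 h5
  have right : ∀ y : ℤ, c ≤ y → y ≤ d → Conn allOpen (bd a b c d) (b, d) (b, y) := by
    intro y hy1 hy2
    exact (conn_line_y (S := bd a b c d) hy2 fun z k1 k2 =>
      hmem _ _ (by omega) (by omega) (by omega) (by omega) (by omega)).symm
  have top : ∀ x : ℤ, a ≤ x → x ≤ b → Conn allOpen (bd a b c d) (b, d) (x, d) := by
    intro x hx1 hx2
    exact (conn_line_x (S := bd a b c d) hx2 fun z k1 k2 =>
      hmem _ _ (by omega) (by omega) (by omega) (by omega) (by omega)).symm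
  rcases h5 with h5 | h5 | h5 | h5
  · subst h5
    exact (top x (by omega) (by omega)).trans (conn_line_y (S := bd x b c d) h4 fun z k1 k2 =>
      hmem _ _ (by omega) (by omega) (by omega) (by omega) (by omega)).symm
  · subst h5
    exact right y h3 h4
  · subst h5
    exact (right y (by omega) (by omega)).trans (conn_line_x (S := bd a b y d) h2 fun z k1 k2 =>
      hmem _ _ (by omega) (by omega) (by omega) (by omega) (by omega)).symm
  · subst h5
    exact top x h1 h2

end Pool.Agent.H29.Kap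

end

section

/-! # Stability of the set `R` under changes of an edge without closed dual arm -/

set_option autoImplicit false

namespace Pool.Agent.H29.Kap

open Pool.Agent.H89.Perc

/-- The boundary ring of a rectangle is connected. -/
theorem stabB_ring {a b c d : ℤ} (hab : a ≤ b) (hcd : c ≤ d) {u : Vert} (hu : u ∈ bd a b c d) :
    Conn allOpen (bd a b c d) (b, d) u := by
  have hmem : ∀ x y : ℤ, a ≤ x → x ≤ b → c ≤ y → y ≤ d →
      (x = a ∨ x = b ∨ y = c ∨ y = d) → ((x, y) : Vert) ∈ bd a b c d := by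
    intro x y h1 h2 h3 h4 h5
    exact ⟨⟨h1, h2, h3, h4⟩, h5⟩
  obtain ⟨x, y⟩ := u
  obtain ⟨⟨h1, h2, h3, h4⟩, h5⟩ := hu
  simp only at h1 h2 h3 h4 h5
  have right : ∀ y : ℤ, c ≤ y → y ≤ d → Conn allOpen (bd a b c d) (b, d) (b, y) := by
    intro y hy1 hy2
    exact (conn_line_y (S := bd a b c d) hy2 fun z k1 k2 =>
      hmem _ _ (by omega) (by omega) (by omega) (by omega) (by omega)).symm
  have top : ∀ x : ℤ, a ≤ x → x ≤ b → Conn allOpen (bd a b c d) (b, d) (x, d) := by
    intro x hx1 hx2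
    exact (conn_line_x (S := bd a b c d) hx2 fun z k1 k2 =>
      hmem _ _ (by omega) (by omega) (by omega) (by omega) (by omega)).symm
  rcases h5 with h5 | h5 | h5 | h5
  · subst h5
    exact (top x (by omega) (by omega)).trans (conn_line_y (S := bd x b c d) h4 fun z k1 k2 =>
      hmem _ _ (by omega) (by omega) (by omega) (by omega) (by omega)).symm
  · subst h5
    exact right y h3 h4
  · subst h5
    exact (right y (by omega) (by omega)).trans (conn_line_x (S := bd a b y d) h2 fun z k1 k2 =>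
      hmem _ _ (by omega) (by omega) (by omega) (by omega) (by omega)).symm
  · subst h5
    exact top x h1 h2

end Pool.Agent.H29.Kap

end

section

/-! # Cluster counts: effect of one edge, locality, simple bounds -/

set_option autoImplicit false

namespace Pool.Agent.H29.Kap

open Pool.Agent.H89.Perc

lemma count_wired_sub {ω ω' : Config} {S B : Set Vert}
    (h : ∀ e, src e ∈ S → tgt e ∈ S → ¬ (src e ∈ B ∧ tgt e ∈ B) → ω e = ω' e) :
    {C | C ∈ clusters ω S ∧ Disjoint C B} ⊆ {C | C ∈ clusters ω' S ∧ Disjoint C B} := by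
  rintro C ⟨⟨v, hv, rfl⟩, hd⟩
  refine ⟨⟨v, hv, ?_⟩, hd⟩
  have hstep : ∀ (σ σ' : Config), (∀ e, src e ∈ S → tgt e ∈ S → ¬ (src e ∈ B ∧ tgt e ∈ B) →
      σ e = σ' e) → ∀ a b, a ∉ B → Step σ S a b → Step σ' S a b := by
    rintro σ σ' hσ a b ha ⟨h1, h2, e, he, ho⟩
    refine ⟨h1, h2, e, he, ?_⟩
    rcases he with ⟨h3, h4⟩ | ⟨h3, h4⟩
    · rw [← hσ e (h3 ▸ h1) (h4 ▸ h2) (fun h5 => ha (h3 ▸ h5.1))]
      exact ho
    · rw [← hσ e (h4 ▸ h2) (h3 ▸ h1) (fun h5 => ha (h3 ▸ h5.2))]
      exact ho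
  ext w
  constructor
  · intro hw
    have hw' : Conn ω S v w := hw
    refine hw'.induction_right (P := fun z => Conn ω' S v z) (Conn.refl hv) ?_
    intro a b hva hab hva'
    exact hva'.tail (hstep ω ω' h a b (Set.disjoint_left.1 hd hva) hab)
  · intro hw
    have hw' : Conn ω' S v w := hw
    refine hw'.induction_right (P := fun z => Conn ω S v z) (Conn.refl hv) ?_
    intro a b _ hab hva'
    exact hva'.tail (hstep ω' ω (fun e h1 h2 h3 => (h e h1 h2 h3).symm) a b
      (Set.disjoint_left.1 hd hva') hab)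

/-- Edges with both endpoints in `B` do not matter for `J` (finitely many edges in `S`). -/
theorem J_congr_wired {ω ω' : Config} {S B : Set Vert} (hS : S.Finite)
    (h : ∀ e, src e ∈ S → tgt e ∈ S → ¬ (src e ∈ B ∧ tgt e ∈ B) → ω e = ω' e) :
    J ω S B = J ω' S B := by
  unfold J
  exact congrArg Set.ncard (Set.Subset.antisymm (count_wired_sub h)
    (count_wired_sub fun e h1 h2 h3 => (h e h1 h2 h3).symm))

/-- All edges closed. -/
theorem J_closed {ω : Config} {S : Set Vert} (B : Set Vert)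
    (h : ∀ e, src e ∈ S → tgt e ∈ S → ω e = false) : J ω S B = (S \ B).ncard := by
  have hcl : ∀ v ∈ S, {w | Conn ω S v w} = {v} := by
    intro v hv
    ext w
    constructor
    · intro hw
      have hw' : Conn ω S v w := hw
      refine hw'.induction_right (P := fun z => z ∈ ({v} : Set Vert)) rfl ?_
      rintro a b _ ⟨h1, h2, e, he, ho⟩ _
      exfalso
      rcases he with ⟨h3, h4⟩ | ⟨h3, h4⟩
      · rw [h e (h3 ▸ h1) (h4 ▸ h2)] at ho
        exact Bool.false_ne_true ho
      · rw [h e (h4 ▸ h2) (h3 ▸ h1)] at ho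
        exact Bool.false_ne_true ho
    · rintro rfl
      exact Conn.refl hv
  have : {C | C ∈ clusters ω S ∧ Disjoint C B} = (fun v => ({v} : Set Vert)) '' (S \ B) := by
    ext C
    constructor
    · rintro ⟨⟨v, hv, rfl⟩, hd⟩
      rw [hcl v hv] at hd ⊢
      exact ⟨v, ⟨hv, Set.disjoint_singleton_left.1 hd⟩, rfl⟩
    · rintro ⟨v, ⟨hv, hvB⟩, rfl⟩
      exact ⟨⟨v, hv, (hcl v hv).symm⟩, Set.disjoint_singleton_left.2 hvB⟩
  unfold J
  rw [this]
  exact Set.ncard_image_of_injective _ Set.singleton_injective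

theorem K_closed {ω : Config} {S : Set Vert}
    (h : ∀ e, src e ∈ S → tgt e ∈ S → ω e = false) : K ω S = S.ncard := by
  rw [K_eq_J, J_closed ∅ h, Set.sdiff_empty]

theorem J_le_K {ω : Config} {S : Set Vert} (B : Set Vert) (hS : S.Finite) : J ω S B ≤ K ω S :=
  Set.ncard_le_ncard (fun _ hC => hC.1) (clusters_finite ω hS)

end Pool.Agent.H29.Kap

end

section

/-! # Tilting on a stable random set -/

set_option autoImplicit false

namespace Pool.Agent.H29.Kap

open Pool.Agent.Perc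

variable {ι : Type*} [DecidableEq ι]

end Pool.Agent.H29.Kap

end

section

/-! # The second difference `X` does not change when an edge outside `R` is flipped -/

set_option autoImplicit false

namespace Pool.Agent.H29.Kap

open Pool.Agent.H89.Perc

theorem sens_update_cases {P : Config → Prop} {ω : Config} {g : Edge}
    (h : P (Function.update ω g false) ↔ P (Function.update ω g true)) :
    P (flip ω g) ↔ P ω := by
  unfold flip
  have h0 : Function.update ω g (ω g) = ω := Function.update_eq_self g ω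
  cases hg : ω g
  · rw [hg] at h0
    rw [Bool.not_false, ← h, h0]
  · rw [hg] at h0
    rw [Bool.not_true, h, h0]

/-- The union of the three random sets, for configurations given by finite sets of edges. -/
noncomputable def RU (x0 x1 x2 x3 c d : ℤ) (S : Finset Edge) : Finset Edge := by
  classical
  exact (redges x0 x3 c d).filter (fun e => InR (ofS S) x0 x1 c d e ∨ InR (ofS S) x1 x2 c d e ∨
    InR (ofS S) x2 x3 c d e)

theorem sens_ofS_sflip (S : Finset Edge) (g : Edge) : ofS (sflip S g) = flip (ofS S) g := by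
  unfold sflip flip
  by_cases h : g ∈ S
  · have h' : ofS S g = true := ofS_eq_true.2 h
    rw [if_pos h, h', Bool.not_true, (ofS_update S g).2]
  · have h' : ofS S g = false := by simp [ofS, h]
    rw [if_neg h, h', Bool.not_false, (ofS_update S g).1]

theorem sens_mem_RU {x0 x1 x2 x3 c d : ℤ} {S : Finset Edge} {g : Edge} :
    g ∈ RU x0 x1 x2 x3 c d S ↔ g ∈ redges x0 x3 c d ∧ (InR (ofS S) x0 x1 c d g ∨
      InR (ofS S) x1 x2 c d g ∨ InR (ofS S) x2 x3 c d g) := by
  classical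
  unfold RU
  simp only [Finset.mem_filter]

theorem sens_not_inR {x0 x1 x2 x3 c d : ℤ} (h01 : x0 ≤ x1) (h12 : x1 ≤ x2) (h23 : x2 ≤ x3)
    {S : Finset Edge} {g : Edge} (hg : g ∉ RU x0 x1 x2 x3 c d S) :
    ¬ InR (ofS S) x0 x1 c d g ∧ ¬ InR (ofS S) x1 x2 c d g ∧ ¬ InR (ofS S) x2 x3 c d g := by
  rw [sens_mem_RU] at hg
  have sub : ∀ {a b : ℤ}, x0 ≤ a → b ≤ x3 → g ∈ redges a b c d → g ∈ redges x0 x3 c d := by
    intro a b ha hb h
    rw [mem_redges] at h ⊢
    exact ⟨⟨ha.trans h.1.1, h.1.2.1.trans hb, h.1.2.2⟩, ⟨ha.trans h.2.1, h.2.2.1.trans hb, h.2.2.2⟩⟩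
  refine ⟨fun h => hg ⟨?_, Or.inl h⟩, fun h => hg ⟨?_, Or.inr (Or.inl h)⟩,
    fun h => hg ⟨?_, Or.inr (Or.inr h)⟩⟩
  · exact sub le_rfl (h12.trans h23) h.1
  · exact sub h01 h23 h.1
  · exact sub (h01.trans h12) le_rfl h.1

end Pool.Agent.H29.Kap

end

section

/-! # Expected cluster counts: invariance and limit -/

set_option autoImplicit false

namespace Pool.Agent.H29.Kap

open Pool.Agent.H89.Perc Pool.Agent.Perc

/-- Cluster counts under a relabelling. -/
theorem invar_K_map {ω ω' : Config} {S T : Set Vert} (f : Vert → Vert) (hf : Function.Injective f)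
    (hT : T = f '' S) (h : ∀ u ∈ S, ∀ v ∈ S, Conn ω S u v ↔ Conn ω' T (f u) (f v)) :
    K ω S = K ω' T := by
  have hc : clusters ω' T = (fun C => f '' C) '' clusters ω S := by
    ext D
    constructor
    · rintro ⟨v, hv, rfl⟩
      rw [hT] at hv
      obtain ⟨u, hu, rfl⟩ := hv
      refine ⟨{w | Conn ω S u w}, ⟨u, hu, rfl⟩, ?_⟩
      ext w
      constructor
      · rintro ⟨x, hx, rfl⟩
        exact (h u hu x (Conn.mem_right hx)).1 hx
      · intro hw
        have hwT := Conn.mem_right hw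
        rw [hT] at hwT
        obtain ⟨x, hx, rfl⟩ := hwT
        exact ⟨x, (h u hu x hx).2 hw, rfl⟩
    · rintro ⟨C, ⟨u, hu, rfl⟩, rfl⟩
      refine ⟨f u, by rw [hT]; exact ⟨u, hu, rfl⟩, ?_⟩
      ext w
      constructor
      · rintro ⟨x, hx, rfl⟩
        exact (h u hu x (Conn.mem_right hx)).1 hx
      · intro hw
        have hwT := Conn.mem_right hw
        rw [hT] at hwT
        obtain ⟨x, hx, rfl⟩ := hwT
        exact ⟨x, (h u hu x hx).2 hw, rfl⟩
  unfold K
  rw [hc, Set.ncard_image_of_injective _ (Set.image_injective.2 hf)]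

/-- Expected number of clusters of the box with `n × m` vertices. -/
noncomputable def invarB (p : ℝ) (n m : ℕ) : ℝ := EK p 0 (n - 1) 0 (m - 1)

end Pool.Agent.H29.Kap

end

section

/-! # Euler's formula for the clusters of a rectangle -/

set_option autoImplicit false

namespace Pool.Agent.H29.Kap

open Pool.Agent.H89.Perc

/-- A dual edge inside `T` which does not have both ends on the ring crosses an edge of `D`. -/
theorem euler_crossed_mem {a b c d : ℤ} {e : Edge} (h1 : src e ∈ rect (a - 1) b (c - 1) d)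
    (h2 : tgt e ∈ rect (a - 1) b (c - 1) d)
    (h3 : ¬ (src e ∈ bd (a - 1) b (c - 1) d ∧ tgt e ∈ bd (a - 1) b (c - 1) d)) :
    crossed e ∈ redges a b c d := by
  rw [mem_redges]
  obtain ⟨x, y, t⟩ := e
  cases t
  · simp only [src, tgt, rect, bd, crossed, Set.mem_ofPred_eq, Bool.false_eq_true, if_false,
      if_true] at h1 h2 h3 ⊢
    omega
  · simp only [src, tgt, rect, bd, crossed, Set.mem_ofPred_eq, Bool.false_eq_true, if_false,
      if_true] at h1 h2 h3 ⊢
    omega

/-- Both faces next to an edge of `D` lie in `T`. -/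
theorem euler_faces_mem {a b c d : ℤ} {e : Edge} (he : e ∈ redges a b c d) :
    lowFace e ∈ rect (a - 1) b (c - 1) d ∧ src e ∈ rect (a - 1) b (c - 1) d := by
  rw [mem_redges] at he
  obtain ⟨x, y, t⟩ := e
  cases t
  · simp only [src, tgt, rect, lowFace, Set.mem_ofPred_eq, Bool.false_eq_true, if_false,
      if_true] at he ⊢
    omega
  · simp only [src, tgt, rect, lowFace, Set.mem_ofPred_eq, Bool.false_eq_true, if_false,
      if_true] at he ⊢
    omega

/-- If all edges of `D` are closed, every inner face is joined to the ring. -/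
theorem euler_base_conn {ω : Config} {a b c d : ℤ} (hω : ∀ e ∈ redges a b c d, ω e = false)
    (n : ℕ) : ∀ x y : ℤ, (x, y) ∈ rect (a - 1) b (c - 1) d → b - x = n →
    ∃ v ∈ bd (a - 1) b (c - 1) d, Conn (dual ω) (rect (a - 1) b (c - 1) d) (x, y) v := by
  induction n with
  | zero =>
    intro x y hxy hn
    refine ⟨(x, y), ⟨hxy, Or.inr (Or.inl ?_)⟩, Conn.refl hxy⟩
    simp only
    push_cast at hn
    omega
  | succ n ih =>
    intro x y hxy hn
    push_cast at hn
    by_cases hb : (x, y) ∈ bd (a - 1) b (c - 1) d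
    · exact ⟨(x, y), hb, Conn.refl hxy⟩
    · have hxy' := hxy
      simp only [rect, Set.mem_ofPred_eq] at hxy'
      have hx1 : ((x + 1, y) : Vert) ∈ rect (a - 1) b (c - 1) d := by
        simp only [rect, Set.mem_ofPred_eq]
        omega
      obtain ⟨v, hv, hc⟩ := ih (x + 1) y hx1 (by omega)
      refine ⟨v, hv, Conn.trans (Step.conn ⟨hxy, hx1, (x, y, false), Or.inl ⟨rfl, ?_⟩, ?_⟩) hc⟩
      · simp [tgt]
      · have hmem : crossed (x, y, false) ∈ redges a b c d := by
          refine euler_crossed_mem (by simpa [src] using hxy) (by simpa [tgt] using hx1) ?_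
          rintro ⟨h, -⟩
          exact hb (by simpa [src] using h)
        simp [dual, hω _ hmem]

theorem euler_base_J {ω : Config} {a b c d : ℤ} (hω : ∀ e ∈ redges a b c d, ω e = false) :
    J (dual ω) (rect (a - 1) b (c - 1) d) (bd (a - 1) b (c - 1) d) = 0 := by
  unfold J
  have : {C | C ∈ clusters (dual ω) (rect (a - 1) b (c - 1) d) ∧
      Disjoint C (bd (a - 1) b (c - 1) d)} = ∅ := by
    ext C
    simp only [Set.mem_ofPred_eq, Set.mem_empty_iff_false, iff_false, not_and]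
    rintro ⟨⟨x, y⟩, hv, rfl⟩ hdis
    have hv' := hv
    simp only [rect, Set.mem_ofPred_eq] at hv'
    obtain ⟨w, hw, hc⟩ := euler_base_conn hω (b - x).toNat x y hv (by omega)
    exact Set.disjoint_left.1 hdis hc hw
  rw [this, Set.ncard_empty]

end Pool.Agent.H29.Kap

end

section

/-! # Euler's formula for the expected number of clusters and duality of the cluster density -/

set_option autoImplicit false

namespace Pool.Agent.H29.Kap

open Pool.Agent.H89.Perc Pool.Agent.Perc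

theorem eulerexp_card_redges {a b c d : ℤ} (hab : a ≤ b) (hcd : c ≤ d) :
    ((redges a b c d).card : ℝ) = (b - a) * (d - c + 1) + (b - a + 1) * (d - c) := by
  unfold redges
  rw [Finset.card_union_of_disjoint]
  · simp only [Finset.card_product, Int.card_Icc, Finset.card_singleton, mul_one]
    have h1 : (((b - 1 + 1 - a).toNat : ℕ) : ℝ) = b - a := by
      have : (((b - 1 + 1 - a).toNat : ℕ) : ℤ) = b - a := by omega
      exact_mod_cast this
    have h2 : (((d + 1 - c).toNat : ℕ) : ℝ) = d - c + 1 := by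
      have : (((d + 1 - c).toNat : ℕ) : ℤ) = d - c + 1 := by omega
      exact_mod_cast this
    have h3 : (((b + 1 - a).toNat : ℕ) : ℝ) = b - a + 1 := by
      have : (((b + 1 - a).toNat : ℕ) : ℤ) = b - a + 1 := by omega
      exact_mod_cast this
    have h4 : (((d - 1 + 1 - c).toNat : ℕ) : ℝ) = d - c := by
      have : (((d - 1 + 1 - c).toNat : ℕ) : ℤ) = d - c := by omega
      exact_mod_cast this
    push_cast
    rw [h1, h2, h3, h4]
  · rw [Finset.disjoint_left]
    rintro ⟨x, y, t⟩ h1 h2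
    simp only [Finset.mem_product, Finset.mem_singleton] at h1 h2
    rw [h1.2.2] at h2
    exact absurd h2.2.2 (by simp)

theorem eulerexp_uncross {a b c d : ℤ} {e : Edge} (h : e ∈ redges a b c d) :
    uncross e ∈ redges (a - 1) b (c - 1) d := by
  rw [mem_redges] at h ⊢
  obtain ⟨x, y, t⟩ := e
  cases t
  · simp only [src, tgt, uncross, rect, Set.mem_ofPred_eq, Bool.false_eq_true, if_false,
      if_true] at h ⊢
    omega
  · simp only [src, tgt, uncross, rect, Set.mem_ofPred_eq, Bool.false_eq_true, if_false,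
      if_true] at h ⊢
    omega

theorem eulerexp_crossed {a b c d : ℤ} {e : Edge} (h1 : src e ∈ rect (a - 1) b (c - 1) d)
    (h2 : tgt e ∈ rect (a - 1) b (c - 1) d)
    (h3 : ¬ (src e ∈ bd (a - 1) b (c - 1) d ∧ tgt e ∈ bd (a - 1) b (c - 1) d)) :
    crossed e ∈ redges a b c d := by
  rw [mem_redges]
  obtain ⟨x, y, t⟩ := e
  cases t
  · simp only [src, tgt, crossed, rect, bd, Set.mem_ofPred_eq, Bool.false_eq_true, if_false,
      if_true] at h1 h2 h3 ⊢
    omega
  · simp only [src, tgt, crossed, rect, bd, Set.mem_ofPred_eq, Bool.false_eq_true, if_false,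
      if_true] at h1 h2 h3 ⊢
    omega

/-- The expected number of inner clusters of the dual configuration. -/
theorem eulerexp_dual (p : ℝ) (a b c d : ℤ) :
    Ex p (redges a b c d) (fun S => (J (dual (ofS S)) (rect (a - 1) b (c - 1) d)
      (bd (a - 1) b (c - 1) d) : ℝ)) = EJ (1 - p) (a - 1) b (c - 1) d := by
  have hinj : Function.Injective uncross := fun e e' h => by
    rw [← crossed_uncross e, h, crossed_uncross]
  have hsub : (redges a b c d).image uncross ⊆ redges (a - 1) b (c - 1) d := by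
    intro e he
    obtain ⟨e', he', rfl⟩ := Finset.mem_image.1 he
    exact eulerexp_uncross he'
  have hfin := rect_finite (a - 1) b (c - 1) d
  unfold EJ
  rw [Ex_compl, Ex_restrict (F := redges (a - 1) b (c - 1) d)
    (G := (redges a b c d).image uncross) hsub, Ex_image _ hinj.injOn]
  · refine Ex_congr fun S hS => ?_
    congr 1
    refine J_congr_wired hfin fun e h1 h2 h3 => ?_
    have h4 := eulerexp_crossed h1 h2 h3
    have h5 : (e ∈ S.image uncross) ↔ crossed e ∈ S := by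
      rw [Finset.mem_image]
      constructor
      · rintro ⟨e', he', rfl⟩
        rwa [crossed_uncross]
      · intro h
        exact ⟨crossed e, h, uncross_crossed e⟩
    simp only [dual, ofS, Finset.mem_sdiff, h4, true_and, h5]
    by_cases h6 : crossed e ∈ S <;> simp [h6]
  · intro S hS
    congr 1
    refine J_congr_wired hfin fun e h1 h2 h3 => ?_
    have h4 := eulerexp_crossed h1 h2 h3
    have h5 : e ∈ (redges a b c d).image uncross :=
      Finset.mem_image.2 ⟨crossed e, h4, uncross_crossed e⟩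
    simp only [ofS, Finset.mem_inter, h5, and_true]

theorem eulerexp_bd_card (n : ℕ) (hn : 1 ≤ n) :
    (bd (0 - 1) ((n : ℤ) - 1) (0 - 1) ((n : ℤ) - 1)).Finite ∧
    (bd (0 - 1) ((n : ℤ) - 1) (0 - 1) ((n : ℤ) - 1)).ncard ≤ 8 * n := by
  set G : Finset Vert := (({-1, (n : ℤ) - 1} : Finset ℤ) ×ˢ Finset.Icc (-1) ((n : ℤ) - 1)) ∪
    (Finset.Icc (-1) ((n : ℤ) - 1) ×ˢ ({-1, (n : ℤ) - 1} : Finset ℤ)) with hG
  have hsub : bd (0 - 1) ((n : ℤ) - 1) (0 - 1) ((n : ℤ) - 1) ⊆ (G : Set Vert) := by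
    rintro ⟨x, y⟩ h
    simp only [bd, rect, Set.mem_ofPred_eq] at h
    rw [hG]
    simp only [Finset.coe_union, Finset.coe_product, Set.mem_union, Set.mem_prod,
      Finset.coe_Icc, Finset.coe_insert, Finset.coe_singleton, Set.mem_insert_iff,
      Set.mem_singleton_iff, Set.mem_Icc]
    omega
  have hcard : G.card ≤ 8 * n := by
    refine (Finset.card_union_le _ _).trans ?_
    rw [Finset.card_product, Finset.card_product, Int.card_Icc]
    have h1 : ({-1, (n : ℤ) - 1} : Finset ℤ).card ≤ 2 := Finset.card_le_two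
    have h2 : ((n : ℤ) - 1 + 1 - (-1)).toNat = n + 1 := by omega
    rw [h2]
    nlinarith only [hn, h1]
  refine ⟨G.finite_toSet.subset hsub, ?_⟩
  calc _ ≤ (G : Set Vert).ncard := Set.ncard_le_ncard hsub G.finite_toSet
    _ = G.card := Set.ncard_coe_finset G
    _ ≤ 8 * n := hcard

end Pool.Agent.H29.Kap

end

section

/-! # Uniform control of the expected second differences -/

set_option autoImplicit false

namespace Pool.Agent.H29.Kap

open Pool.Agent.H89.Perc Pool.Agent.Perc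

/-- Locality of `NC`. -/
lemma NC_congr {ω ω' : Config} {x1 x2 c d : ℤ} (h : ∀ e ∈ redges x1 x2 c d, ω e = ω' e) :
    NC ω x1 x2 c d = NC ω' x1 x2 c d := by
  have h1 : ∀ u v, Conn ω (rect x1 x2 c d) u v ↔ Conn ω' (rect x1 x2 c d) u v := by
    intro u v
    constructor
    · exact Conn.congr fun e he he' => h e (mem_redges.2 ⟨he, he'⟩)
    · exact Conn.congr fun e he he' => (h e (mem_redges.2 ⟨he, he'⟩)).symm
  unfold NC clusters
  simp only [h1]

lemma redges_subset {a b c d a' b' c' d' : ℤ} (h1 : a' ≤ a) (h2 : b ≤ b') (h3 : c' ≤ c)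
    (h4 : d ≤ d') : redges a b c d ⊆ redges a' b' c' d' := by
  intro e he
  rw [mem_redges] at he ⊢
  simp only [rect, Set.mem_ofPred_eq] at he ⊢
  omega

/-- The wired second difference. -/
noncomputable def XW (ω : Config) (x0 x1 x2 x3 c d : ℤ) : ℤ :=
  (J ω (rect x0 x3 c d) (bd x0 x3 c d) : ℤ) - J ω (rect x0 x2 c d) (bd x0 x2 c d)
    - J ω (rect x1 x3 c d) (bd x1 x3 c d) + J ω (rect x1 x2 c d) (bd x1 x2 c d)

lemma card_redges_le {a b c d : ℤ} {M N : ℕ} (h1 : b - a + 1 ≤ M) (h2 : d - c + 1 ≤ N) :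
    (redges a b c d).card ≤ 2 * M * N := by
  have h3 : (redges a b c d) ⊆ Finset.Icc a b ×ˢ Finset.Icc c d ×ˢ Finset.univ := by
    intro e he
    rw [mem_redges] at he
    simp only [Finset.mem_product, Finset.mem_Icc, Finset.mem_univ, and_true]
    simp only [src, rect, Set.mem_ofPred_eq] at he
    omega
  refine (Finset.card_le_card h3).trans ?_
  rw [Finset.card_product, Finset.card_product, Int.card_Icc, Int.card_Icc]
  simp only [Finset.card_univ, Fintype.card_bool]
  have h4 : (b + 1 - a).toNat ≤ M := by omega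
  have h5 : (d + 1 - c).toNat ≤ N := by omega
  calc (b + 1 - a).toNat * ((d + 1 - c).toNat * 2) ≤ M * (N * 2) := by gcongr
    _ = 2 * M * N := by ring

end Pool.Agent.H29.Kap

end

section

/-! # Comparison of one-arm probabilities at different scales -/

set_option autoImplicit false

namespace Pool.Agent.H29.Kap

open Pool.Agent.H89.Perc

/-- The event of an arm to distance `m` and crossings of `n` successive annuli. -/
def armInter (m : ℕ) : ℕ → Set Config
  | 0 => Arm 0 m
  | n + 1 => armInter m n ∩ Ann (m * 16 ^ n) (m * 16 ^ (n + 1))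

end Pool.Agent.H29.Kap

end

section

/-!
# The probability that the endpoints of an edge are connected off the edge: definitions
-/

open MeasureTheory ProbabilityTheory unitInterval

namespace Pool.Agent.H31.AL

open Pool.Agent.H89.Perc

end Pool.Agent.H31.AL

end
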