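import Pool.Agent.H94.BG.H31.PT.M01
import Pool.Agent.H94.BG.H31.PT.M38
import Pool.Agent.H94.BG.H31.PT.Perc.Abs

/-! The parts of this file: H29.Kap.Analysis, H29.Kap.Rem, H29.Kap.Analysis3, H29.Kap.DerivBound, H29.Kap.TupleSum, H29.Kap.ExpMom, H29.Kap.EdgeDuality, H29.Kap.Pivot, H29.Kap.TupleSum3, H89.Perc.EdgeDual, H29.Kap.ThreeArms, H29.Kap.CrossMom, H29.Kap.SecondDiff, H29.Kap.StabA, H29.Kap.StabB, H29.Kap.Count, H29.Kap.Tilt, H29.Kap.Sens, H29.Kap.Invar, H29.Kap.Euler, H29.Kap.EulerExp, H29.Kap.Geo, H29.Kap.ArmRatio, H31.AL.Defs. -/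

section

/-! # Analysis of the scale decomposition -/

set_option autoImplicit false

namespace Pool.Agent.H29.Kap

end Pool.Agent.H29.Kap

end

section

/-! # The remainder of the second order expansion at `1/2` -/

set_option autoImplicit false

namespace Pool.Agent.H29.Kap

end Pool.Agent.H29.Kap

end

section

/-! # Analysis of the scale decomposition, without logarithms -/

set_option autoImplicit false

namespace Pool.Agent.H29.Kap

end Pool.Agent.H29.Kap

end

section

/-! # Derivative of an expectation with respect to the density -/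

set_option autoImplicit false

namespace Pool.Agent.H29.Kap

open Pool.Agent.Perc

variable {ι : Type*} [DecidableEq ι]

end Pool.Agent.H29.Kap

end

section

/-! # A sum over tuples of edges -/

set_option autoImplicit false

namespace Pool.Agent.H29.Kap

open Pool.Agent.H89.Perc

/-- Sup distance between the first endpoints. -/
def dist2 (e e' : Edge) : ℕ := max (e.1 - e'.1).natAbs (e.2.1 - e'.2.1).natAbs

/-- Distance of the first endpoint to the boundary of the rectangle. -/
def dbd (a b c d : ℤ) (e : Edge) : ℕ :=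
  (min (min (e.1 - a) (b - e.1)) (min (e.2.1 - c) (d - e.2.1))).toNat

/-! ### The abstract inequality -/

section abstract_part

variable {α : Type*} [DecidableEq α]

end abstract_part

/-! ### One dimensional sums -/

/-! ### Sums over the edges of a rectangle -/

end Pool.Agent.H29.Kap

end

section

/-! # Exponential moments of the size of `R` -/

set_option autoImplicit false

namespace Pool.Agent.H29.Kap

open Pool.Agent.H89.Perc Pool.Agent.Perc

/-- Distance of the `i`-th edge to the other edges and to the boundary. -/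
noncomputable def expmomRho (a b c d : ℤ) {j : ℕ} (e : Fin j → Edge) (i : Fin j) : ℕ :=
  (insert (dbd a b c d (e i))
    ((Finset.univ.erase i).image fun k => dist2 (e i) (e k))).min' (Finset.insert_nonempty _ _)

theorem expmomRho_mem (a b c d : ℤ) {j : ℕ} (e : Fin j → Edge) (i : Fin j) :
    expmomRho a b c d e i = dbd a b c d (e i) ∨
      ∃ k, k ≠ i ∧ expmomRho a b c d e i = dist2 (e i) (e k) := by
  have h := Finset.min'_mem (insert (dbd a b c d (e i))
    ((Finset.univ.erase i).image fun k => dist2 (e i) (e k))) (Finset.insert_nonempty _ _)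
  rw [Finset.mem_insert, Finset.mem_image] at h
  rcases h with h | ⟨k, hk, h⟩
  · exact Or.inl h
  · exact Or.inr ⟨k, (Finset.mem_erase.1 hk).1, h.symm⟩

theorem expmomRho_le (a b c d : ℤ) {j : ℕ} (e : Fin j → Edge) (i : Fin j) :
    expmomRho a b c d e i ≤ dbd a b c d (e i) :=
  Finset.min'_le _ _ (Finset.mem_insert_self _ _)

theorem expmomRho_le' (a b c d : ℤ) {j : ℕ} (e : Fin j → Edge) (i k : Fin j) (h : k ≠ i) :
    expmomRho a b c d e i ≤ dist2 (e i) (e k) :=
  Finset.min'_le _ _ (Finset.mem_insert_of_mem (Finset.mem_image.2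
    ⟨k, Finset.mem_erase.2 ⟨h, Finset.mem_univ k⟩, rfl⟩))

end Pool.Agent.H29.Kap

end

section

/-! # Duality for a single edge in a rectangle -/

set_option autoImplicit false

namespace Pool.Agent.H29.Kap

open Pool.Agent.H89.Perc

/-- Face sums of the indicator of an edge. -/
theorem edgeduality_fsum_one (e : Edge) (G : Vert) :
    fsum (one e) G = (if G = lowFace e then 1 else 0) + (if G = src e then 1 else 0) := by
  rw [← vsum_crossed]
  have h : (fun e' => one e (crossed e')) = one (uncross e) := by
    funext e'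
    unfold one
    have : crossed e' = e ↔ e' = uncross e := by
      constructor
      · intro h; rw [← h, uncross_crossed]
      · intro h; rw [h, crossed_uncross]
    simp only [this]
  rw [h, vsum_one, src_uncross, tgt_uncross]

/-- The sum of all face sums of an edge function with finite support vanishes. -/
theorem edgeduality_total (k : Edge → ZMod 2) (hk : (Function.support k).Finite) :
    ∑ᶠ G : Vert, fsum k G = 0 := by
  have hsupp : ∀ (m : Vert → Edge), Function.Injective m →
      (Function.support (fun G => k (m G))).Finite := by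
    intro m hm
    exact Set.Finite.preimage (f := m) (s := Function.support k) hm.injOn hk
  have i1 : Function.Injective (fun G : Vert => ((G.1, G.2, false) : Edge)) := by
    rintro ⟨x, y⟩ ⟨x', y'⟩ h
    simp only [Prod.mk.injEq, and_true] at h
    simp only [Prod.mk.injEq]
    omega
  have i2 : Function.Injective (fun G : Vert => ((G.1 + 1, G.2, true) : Edge)) := by
    rintro ⟨x, y⟩ ⟨x', y'⟩ h
    simp only [Prod.mk.injEq, and_true] at h
    simp only [Prod.mk.injEq]
    omega
  have i3 : Function.Injective (fun G : Vert => ((G.1, G.2 + 1, false) : Edge)) := by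
    rintro ⟨x, y⟩ ⟨x', y'⟩ h
    simp only [Prod.mk.injEq, and_true] at h
    simp only [Prod.mk.injEq]
    omega
  have i4 : Function.Injective (fun G : Vert => ((G.1, G.2, true) : Edge)) := by
    rintro ⟨x, y⟩ ⟨x', y'⟩ h
    simp only [Prod.mk.injEq, and_true] at h
    simp only [Prod.mk.injEq]
    omega
  have s1 := hsupp _ i1
  have s2 := hsupp _ i2
  have s3 := hsupp _ i3
  have s4 := hsupp _ i4
  have e1 : ∑ᶠ G : Vert, k (G.1, G.2 + 1, false) = ∑ᶠ G : Vert, k (G.1, G.2, false) := by
    have := finsum_comp_equiv (Equiv.addRight ((0, 1) : Vert))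
      (f := fun G : Vert => k (G.1, G.2, false))
    rw [← this]
    refine finsum_congr fun G => ?_
    simp
  have e2 : ∑ᶠ G : Vert, k (G.1 + 1, G.2, true) = ∑ᶠ G : Vert, k (G.1, G.2, true) := by
    have := finsum_comp_equiv (Equiv.addRight ((1, 0) : Vert))
      (f := fun G : Vert => k (G.1, G.2, true))
    rw [← this]
    refine finsum_congr fun G => ?_
    simp
  have s12 : (Function.support (fun G : Vert => k (G.1, G.2, false) +
      k (G.1 + 1, G.2, true))).Finite :=
    (s1.union s2).subset (Function.support_add _ _)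
  have s123 : (Function.support (fun G : Vert => k (G.1, G.2, false) +
      k (G.1 + 1, G.2, true) + k (G.1, G.2 + 1, false))).Finite :=
    (s12.union s3).subset (Function.support_add _ _)
  unfold fsum
  rw [finsum_add_distrib s123 s4, finsum_add_distrib s12 s3, finsum_add_distrib s1 s2, e1, e2]
  linear_combination z2_add_self (∑ᶠ G : Vert, k (G.1, G.2, false)) +
    z2_add_self (∑ᶠ G : Vert, k (G.1, G.2, true))

end Pool.Agent.H29.Kap

end

section

/-! # Edges which matter outside `D` but not inside `D` have two arms in `D` -/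

set_option autoImplicit false

namespace Pool.Agent.H29.Kap

open Pool.Agent.H89.Perc

/-- A horizontal line of open edges. -/
lemma pivot_line_x {ω : Config} {S : Set Vert} {x₁ x₂ y : ℤ} (hx : x₁ ≤ x₂)
    (hS : ∀ x, x₁ ≤ x → x ≤ x₂ → ((x, y) : Vert) ∈ S)
    (ho : ∀ x, x₁ ≤ x → x < x₂ → ω (x, y, false) = true) :
    Conn ω S (x₁, y) (x₂, y) := by
  have key : ∀ n : ℕ, x₁ + n ≤ x₂ → Conn ω S (x₁, y) (x₁ + n, y) := by
    intro n
    induction n with
    | zero =>
      intro _
      simpa using Conn.refl (ω := ω) (hS x₁ le_rfl hx)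
    | succ n ih =>
      intro hn
      push_cast at hn
      refine (ih (by omega)).tail ⟨hS _ (by omega) (by omega), hS _ (by push_cast; omega)
        (by push_cast; omega), (x₁ + n, y, false), Or.inl ⟨rfl, ?_⟩, ho _ (by omega) (by omega)⟩
      simp only [tgt, Bool.false_eq_true, if_false, Prod.mk.injEq, and_true]
      push_cast
      ring
  have h := key (x₂ - x₁).toNat (by omega)
  have e : x₁ + ((x₂ - x₁).toNat : ℤ) = x₂ := by omega
  rwa [e] at h

/-- A vertical line of open edges. -/
lemma pivot_line_y {ω : Config} {S : Set Vert} {x y₁ y₂ : ℤ} (hy : y₁ ≤ y₂)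
    (hS : ∀ y, y₁ ≤ y → y ≤ y₂ → ((x, y) : Vert) ∈ S)
    (ho : ∀ y, y₁ ≤ y → y < y₂ → ω (x, y, true) = true) :
    Conn ω S (x, y₁) (x, y₂) := by
  have key : ∀ n : ℕ, y₁ + n ≤ y₂ → Conn ω S (x, y₁) (x, y₁ + n) := by
    intro n
    induction n with
    | zero =>
      intro _
      simpa using Conn.refl (ω := ω) (hS y₁ le_rfl hy)
    | succ n ih =>
      intro hn
      push_cast at hn
      refine (ih (by omega)).tail ⟨hS _ (by omega) (by omega), hS _ (by push_cast; omega)
        (by push_cast; omega), (x, y₁ + n, true), Or.inl ⟨rfl, ?_⟩, ho _ (by omega) (by omega)⟩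
      simp only [tgt, if_true, Prod.mk.injEq, true_and]
      push_cast
      ring
  have h := key (y₂ - y₁).toNat (by omega)
  have e : y₁ + ((y₂ - y₁).toNat : ℤ) = y₂ := by omega
  rwa [e] at h

end Pool.Agent.H29.Kap

end

section

/-! # A sum over tuples of edges, exponent `2/3` -/

set_option autoImplicit false

namespace Pool.Agent.H29.Kap

open Pool.Agent.H89.Perc

end Pool.Agent.H29.Kap

end

section

/-!
# Pivotal edges and closed dual paths
-/

namespace Pool.Agent.H89.Perc

variable {ω : Config} {S : Set Vert} {e : Edge}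

lemma Joins.eq_or {u v u' v' : Vert} (h : Joins e u v) (h' : Joins e u' v') :
    (u = u' ∧ v = v') ∨ (u = v' ∧ v = u') := by
  rcases h with ⟨h1, h2⟩ | ⟨h1, h2⟩ <;> rcases h' with ⟨h3, h4⟩ | ⟨h3, h4⟩
  · left; exact ⟨h1.trans h3.symm, h2.trans h4.symm⟩
  · right; exact ⟨h1.trans h4.symm, h2.trans h3.symm⟩
  · right; exact ⟨h1.trans h4.symm, h2.trans h3.symm⟩
  · left; exact ⟨h1.trans h3.symm, h2.trans h4.symm⟩

end Pool.Agent.H89.Perc

end

section

/-! # Two disjoint open arms and one closed dual arm on a line -/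

set_option autoImplicit false

namespace Pool.Agent.H29.Kap

open Pool.Agent.H89.Perc

/-- The configuration with all edges `(-1, y, false)`, `y > h`, closed. -/
def threearms_w (ω : Config) (h : ℤ) : Config :=
  fun e => if e.1 = -1 ∧ e.2.2 = false ∧ h < e.2.1 then false else ω e

lemma threearms_le {ω : Config} {h : ℤ} {e : Edge} (he : threearms_w ω h e = true) :
    ω e = true := by
  unfold threearms_w at he
  split_ifs at he
  exact he

lemma threearms_mono {ω : Config} {h h' : ℤ} (hh : h ≤ h') {e : Edge}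
    (he : threearms_w ω h e = true) : threearms_w ω h' e = true := by
  unfold threearms_w at he ⊢
  split_ifs at he with h1
  rw [if_neg]
  · exact he
  · rintro ⟨h2, h3, h4⟩
    exact h1 ⟨h2, h3, by omega⟩

/-- Going up a column of open edges. -/
lemma threearms_col {w : Config} {S : Set Vert} {x y₁ y₂ : ℤ} (hy : y₁ ≤ y₂)
    (h : ∀ y, y₁ ≤ y → y ≤ y₂ → (x, y) ∈ S)
    (hw : ∀ y, y₁ ≤ y → y < y₂ → w (x, y, true) = true) : Conn w S (x, y₁) (x, y₂) := by
  have key : ∀ n : ℕ, y₁ + n ≤ y₂ → Conn w S (x, y₁) (x, y₁ + n) := by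
    intro n
    induction n with
    | zero => intro _; simpa using Conn.refl (h y₁ le_rfl hy)
    | succ n ih =>
      intro hn
      push_cast at hn
      refine (ih (by omega)).tail ⟨h _ (by omega) (by omega), h _ (by push_cast; omega)
        (by push_cast; omega), (x, y₁ + n, true), Or.inl ⟨rfl, ?_⟩, hw _ (by omega) (by omega)⟩
      simp only [tgt, if_true, Prod.mk.injEq, true_and]
      push_cast
      ring
  have := key (y₂ - y₁).toNat (by omega)
  rwa [Int.toNat_of_nonneg (by omega), add_sub_cancel] at this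

/-- The column above `(-1, y)`, `y ≥ h`, is open in the dual of `threearms_w ω h`. -/
lemma threearms_up {ω : Config} {h W y : ℤ} (hW : 4 ≤ W) (hy : h ≤ y) (hy1 : -3 * W - 1 ≤ y)
    (hy2 : y ≤ 3 * W) :
    Conn (dual (threearms_w ω h)) (rect (-W) (W - 1) (-3 * W - 1) (3 * W)) (-1, y)
      (-1, 3 * W) := by
  refine threearms_col hy2 (fun z h1 h2 => ?_) (fun z h1 h2 => ?_)
  · simp only [rect, Set.mem_ofPred_eq]
    omega
  · simp only [dual, crossed, threearms_w, if_true]
    rw [if_pos ⟨trivial, trivial, by omega⟩]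
    rfl

/-- Step (1). -/
lemma threearms_one {ω : Config} {W : ℤ} (hW : 4 ≤ W) (h1 : HCross ω (-W) W 0 (2 * W)) :
    HCross (threearms_w ω (2 * W)) (-W) W (-3 * W) (3 * W) := by
  obtain ⟨u, v, hu, hv, hc⟩ := h1
  refine ⟨u, v, hu, hv, ?_⟩
  have h2 : Conn (threearms_w ω (2 * W)) (rect (-W) W 0 (2 * W)) u v := by
    refine hc.congr ?_
    intro e he _
    unfold threearms_w
    rw [if_neg]
    rintro ⟨h3, h4, h5⟩
    simp only [rect, src, Set.mem_ofPred_eq] at he
    omega
  refine h2.mono_set ?_
  rintro ⟨a, b⟩ hab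
  simp only [rect, Set.mem_ofPred_eq] at hab ⊢
  omega

end Pool.Agent.H29.Kap

end

section

/-! # Second moment of the number of crossing clusters for `p ≤ 1/2` -/

set_option autoImplicit false

namespace Pool.Agent.H29.Kap

open Pool.Agent.H89.Perc Pool.Agent.Perc

end Pool.Agent.H29.Kap

end

section

/-! # Second differences of cluster counts are bounded by the number of crossing clusters -/

set_option autoImplicit false

namespace Pool.Agent.H29.Kap

open Pool.Agent.H89.Perc

theorem seconddiff_mem_rect {a b c d : ℤ} {v : Vert} :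
    v ∈ rect a b c d ↔ a ≤ v.1 ∧ v.1 ≤ b ∧ c ≤ v.2 ∧ v.2 ≤ d := Iff.rfl

end Pool.Agent.H29.Kap

end

section

/-! # Stability of the set `R` under changes of an edge without open arm -/

set_option autoImplicit false

namespace Pool.Agent.H29.Kap

open Pool.Agent.H89.Perc

theorem stabA_tgt_faces (e : Edge) {F : Vert} (hF : F = src e ∨ F = lowFace e) :
    (F = src e ∨ F = ((src e).1 - 1, (src e).2) ∨ F = ((src e).1, (src e).2 - 1) ∨
      F = ((src e).1 - 1, (src e).2 - 1)) ∧
    (F = tgt e ∨ F = ((tgt e).1 - 1, (tgt e).2) ∨ F = ((tgt e).1, (tgt e).2 - 1) ∨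
      F = ((tgt e).1 - 1, (tgt e).2 - 1)) := by
  obtain ⟨x, y, t⟩ := e
  cases t <;> rcases hF with rfl | rfl <;> simp [src, tgt, lowFace]

end Pool.Agent.H29.Kap

end

section

/-! # Stability of the set `R` under changes of an edge without closed dual arm -/

set_option autoImplicit false

namespace Pool.Agent.H29.Kap

open Pool.Agent.H89.Perc

end Pool.Agent.H29.Kap

end

section

/-! # Cluster counts: effect of one edge, locality, simple bounds -/

set_option autoImplicit false

namespace Pool.Agent.H29.Kap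

open Pool.Agent.H89.Perc

/-- the cluster of a vertex -/
def count_cl (ω : Config) (S : Set Vert) (v : Vert) : Set Vert := {w | Conn ω S v w}

lemma count_cl_eq {ω : Config} {S : Set Vert} {u v : Vert} (h : Conn ω S u v) :
    count_cl ω S u = count_cl ω S v := by
  ext w
  exact ⟨fun h' => h.symm.trans h', fun h' => h.trans h'⟩

lemma count_upd_mono {ω : Config} {e : Edge} : ∀ f, Function.update ω e false f = true →
    Function.update ω e true f = true := by
  intro f hf
  by_cases h : f = e
  · subst h; simp at hf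
  · rw [Function.update_of_ne h] at hf ⊢
    exact hf

lemma count_conn_one {ω : Config} {S : Set Vert} {e : Edge} (h1 : src e ∈ S) (h2 : tgt e ∈ S) :
    Conn (Function.update ω e true) S (src e) (tgt e) :=
  Step.conn ⟨h1, h2, e, joins_src_tgt e, by simp⟩

end Pool.Agent.H29.Kap

end

section

/-! # Tilting on a stable random set -/

set_option autoImplicit false

namespace Pool.Agent.H29.Kap

open Pool.Agent.Perc

variable {ι : Type*} [DecidableEq ι]

end Pool.Agent.H29.Kap

end

section

/-! # The second difference `X` does not change when an edge outside `R` is flipped -/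

set_option autoImplicit false

namespace Pool.Agent.H29.Kap

open Pool.Agent.H89.Perc

end Pool.Agent.H29.Kap

end

section

/-! # Expected cluster counts: invariance and limit -/

set_option autoImplicit false

namespace Pool.Agent.H29.Kap

open Pool.Agent.H89.Perc Pool.Agent.Perc

theorem invar_ncard_rect {a b c d : ℤ} (hab : a ≤ b + 1) (hcd : c ≤ d + 1) :
    ((rect a b c d).ncard : ℝ) = (b - a + 1) * (d - c + 1) := by
  have h : rect a b c d = ((Finset.Icc a b ×ˢ Finset.Icc c d : Finset (ℤ × ℤ)) : Set (ℤ × ℤ)) := by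
    ext ⟨x, y⟩
    simp only [rect, Set.mem_ofPred_eq, Finset.coe_product, Finset.coe_Icc, Set.mem_prod,
      Set.mem_Icc]
    tauto
  rw [h, Set.ncard_coe_finset, Finset.card_product, Int.card_Icc, Int.card_Icc]
  have e1 : (((b + 1 - a).toNat : ℕ) : ℤ) = b + 1 - a := Int.toNat_of_nonneg (by omega)
  have e2 : (((d + 1 - c).toNat : ℕ) : ℤ) = d + 1 - c := Int.toNat_of_nonneg (by omega)
  have e1' : (((b + 1 - a).toNat : ℕ) : ℝ) = b + 1 - a := by exact_mod_cast e1
  have e2' : (((d + 1 - c).toNat : ℕ) : ℝ) = d + 1 - c := by exact_mod_cast e2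
  push_cast
  rw [e1', e2']
  ring

end Pool.Agent.H29.Kap

end

section

/-! # Euler's formula for the clusters of a rectangle -/

set_option autoImplicit false

namespace Pool.Agent.H29.Kap

open Pool.Agent.H89.Perc

theorem euler_dual_update (ω : Config) (e : Edge) (b : Bool) :
    dual (Function.update ω e b) = Function.update (dual ω) (uncross e) (!b) := by
  funext f
  simp only [dual]
  by_cases h : f = uncross e
  · subst h; simp [crossed_uncross, Function.update_self]
  · have h' : crossed f ≠ e := by
      intro hc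
      apply h
      rw [← hc, uncross_crossed]
    rw [Function.update_of_ne h', Function.update_of_ne h]
    rfl

theorem euler_ncard_rect {a b c d : ℤ} (hab : a ≤ b) (hcd : c ≤ d) :
    ((rect a b c d).ncard : ℤ) = (b - a + 1) * (d - c + 1) := by
  have : rect a b c d = ((Finset.Icc a b ×ˢ Finset.Icc c d : Finset Vert) : Set Vert) := by
    ext ⟨x, y⟩
    simp only [rect, Set.mem_ofPred_eq, Finset.coe_product, Finset.coe_Icc, Set.mem_prod,
      Set.mem_Icc]
    omega
  rw [this, Set.ncard_coe_finset, Finset.card_product, Int.card_Icc, Int.card_Icc]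
  push_cast
  rw [Int.toNat_of_nonneg (by omega), Int.toNat_of_nonneg (by omega)]
  ring

end Pool.Agent.H29.Kap

end

section

/-! # Euler's formula for the expected number of clusters and duality of the cluster density -/

set_option autoImplicit false

namespace Pool.Agent.H29.Kap

open Pool.Agent.H89.Perc Pool.Agent.Perc

theorem eulerexp_card (p : ℝ) (F : Finset Edge) :
    Ex p F (fun S => (S.card : ℝ)) = p * F.card := by
  induction F using Finset.induction_on with
  | empty => simp
  | insert e F he ih =>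
    rw [Ex_insert he, Finset.card_insert_of_notMem he]
    have h1 : Ex p F (fun S => ((insert e S).card : ℝ)) = Ex p F (fun S => (S.card : ℝ) + 1) := by
      refine Ex_congr fun S hS => ?_
      rw [Finset.card_insert_of_notMem (fun h => he (hS h))]
      push_cast
      ring
    rw [h1, Ex_add, Ex_const, ih]
    push_cast
    ring

end Pool.Agent.H29.Kap

end

section

/-! # Uniform control of the expected second differences -/

set_option autoImplicit false

namespace Pool.Agent.H29.Kap

open Pool.Agent.H89.Perc Pool.Agent.Perc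

/-- Uniform control of a polynomial in `p` at scale `n`. -/
def Good (n : ℕ) (C c₀ : ℝ) (f : ℝ → ℝ) : Prop :=
  (∃ (y : ℕ → ℝ) (D : ℕ), (∀ p, f p = ∑ j ∈ Finset.range D, y j * (2 * p - 1) ^ j) ∧
    (∀ j, D ≤ j → y j = 0) ∧
    ∀ r : ℝ, 0 ≤ r → r ≤ 1 →
      r ^ 2 * ((n : ℝ) ^ 2 * arm half n ^ 2) ≤ c₀ → ∀ j, |y j| * r ^ j ≤ C) ∧
  (∀ p : ℝ, 0 ≤ p → p ≤ 1 → |f p| ≤ C) ∧
  ∀ p : ℝ, 1 / 4 ≤ p → p ≤ 3 / 4 → |deriv f p| ≤ C * n

lemma Good.differentiable {n : ℕ} {C c₀ : ℝ} {f : ℝ → ℝ} (h : Good n C c₀ f) :
    Differentiable ℝ f := by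
  obtain ⟨⟨y, D, h1, _⟩, _⟩ := h
  have : f = fun p => ∑ j ∈ Finset.range D, y j * (2 * p - 1) ^ j := funext h1
  rw [this]
  fun_prop

lemma Good.add {n : ℕ} {C C' c₀ : ℝ} {f g : ℝ → ℝ} (hf : Good n C c₀ f) (hg : Good n C' c₀ g) :
    Good n (C + C') c₀ (fun p => f p + g p) := by
  have hdf := hf.differentiable
  have hdg := hg.differentiable
  obtain ⟨⟨y, D, h1, h2, h3⟩, h4, h5⟩ := hf
  obtain ⟨⟨y', D', h1', h2', h3'⟩, h4', h5'⟩ := hg
  refine ⟨⟨fun j => y j + y' j, max D D', fun p => ?_, fun j hj => ?_, fun r hr0 hr1 hr j => ?_⟩,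
    fun p hp0 hp1 => ?_, fun p hp0 hp1 => ?_⟩
  · simp only
    rw [h1, h1', geo_sum_extend (le_max_left D D') h2, geo_sum_extend (le_max_right D D') h2',
      ← Finset.sum_add_distrib]
    exact Finset.sum_congr rfl fun j _ => by ring
  · simp only
    rw [h2 j (le_of_max_le_left hj), h2' j (le_of_max_le_right hj), add_zero]
  · have h6 := h3 r hr0 hr1 hr j
    have h7 := h3' r hr0 hr1 hr j
    have h8 := abs_add_le (y j) (y' j)
    have h9 : 0 ≤ r ^ j := pow_nonneg hr0 j
    nlinarith only [h6, h7, h8, h9]
  · have h6 := h4 p hp0 hp1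
    have h7 := h4' p hp0 hp1
    have h8 := abs_add_le (f p) (g p)
    linarith
  · have h6 := h5 p hp0 hp1
    have h7 := h5' p hp0 hp1
    have h8 : deriv (fun p => f p + g p) p = deriv f p + deriv g p :=
      deriv_fun_add (hdf p) (hdg p)
    rw [h8]
    have h9 := abs_add_le (deriv f p) (deriv g p)
    linarith only [h6, h7, h9]

lemma Good.const_mul {n : ℕ} {C c₀ : ℝ} {f : ℝ → ℝ} (a : ℝ) (hf : Good n C c₀ f) :
    Good n (|a| * C) c₀ (fun p => a * f p) := by
  have hdf := hf.differentiable
  obtain ⟨⟨y, D, h1, h2, h3⟩, h4, h5⟩ := hf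
  refine ⟨⟨fun j => a * y j, D, fun p => ?_, fun j hj => ?_, fun r hr0 hr1 hr j => ?_⟩,
    fun p hp0 hp1 => ?_, fun p hp0 hp1 => ?_⟩
  · simp only
    rw [h1, Finset.mul_sum]
    exact Finset.sum_congr rfl fun j _ => by ring
  · simp only
    rw [h2 j hj, mul_zero]
  · rw [abs_mul, mul_assoc]
    exact mul_le_mul_of_nonneg_left (h3 r hr0 hr1 hr j) (abs_nonneg a)
  · rw [abs_mul]
    exact mul_le_mul_of_nonneg_left (h4 p hp0 hp1) (abs_nonneg a)
  · have h8 : deriv (fun p => a * f p) p = a * deriv f p := deriv_const_mul a (hdf p)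
    rw [h8, abs_mul, mul_assoc]
    exact mul_le_mul_of_nonneg_left (h5 p hp0 hp1) (abs_nonneg a)

lemma Good.mono {n : ℕ} {C C' c₀ : ℝ} {f : ℝ → ℝ} (hf : Good n C c₀ f) (h : C ≤ C') :
    Good n C' c₀ f := by
  obtain ⟨⟨y, D, h1, h2, h3⟩, h4, h5⟩ := hf
  refine ⟨⟨y, D, h1, h2, fun r hr0 hr1 hr j => (h3 r hr0 hr1 hr j).trans h⟩,
    fun p hp0 hp1 => (h4 p hp0 hp1).trans h, fun p hp0 hp1 => (h5 p hp0 hp1).trans ?_⟩
  have : (0 : ℝ) ≤ n := Nat.cast_nonneg n
  nlinarith only [h]

end Pool.Agent.H29.Kap

end

section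

/-! # Comparison of one-arm probabilities at different scales -/

set_option autoImplicit false

namespace Pool.Agent.H29.Kap

open Pool.Agent.H89.Perc

end Pool.Agent.H29.Kap

end

section

/-!
# The probability that the endpoints of an edge are connected off the edge: definitions
-/

open MeasureTheory ProbabilityTheory unitInterval

namespace Pool.Agent.H31.AL

open Pool.Agent.H89.Perc

end Pool.Agent.H31.AL

end
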