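import Pool.Agent.H94.BG.H31.PT.M38
import Pool.Agent.H94.BG.H31.PT.Perc.Abs

/-! The parts of this file: H29.Kap.Analysis, H29.Kap.Rem, H29.Kap.Analysis3, H29.Kap.DerivBound, H29.Kap.TupleSum, H29.Kap.ExpMom, H29.Kap.EdgeDuality, H29.Kap.Pivot, H29.Kap.TupleSum3, H89.Perc.EdgeDual, H29.Kap.ThreeArms, H29.Kap.CrossMom, H29.Kap.SecondDiff, H29.Kap.StabA, H29.Kap.StabB, H29.Kap.Count, H29.Kap.Tilt, H29.Kap.Sens, H29.Kap.Invar, H29.Kap.Euler, H29.Kap.EulerExp, H29.Kap.Geo, H29.Kap.ArmRatio, H31.AL.Defs. -/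

section

/-! # Analysis of the scale decomposition -/

set_option autoImplicit false

namespace Pool.Agent.H29.Kap

theorem analysis_geom2 (n : ℕ) : ∑ i ∈ Finset.range n, ((2 : ℝ) + i) * (1 / 2 : ℝ) ^ i ≤ 6 := by
  have h : ∑ i ∈ Finset.range n, ((2 : ℝ) + i) * (1 / 2 : ℝ) ^ i = 6 - (2 * n + 6) * (1 / 2) ^ n := by
    induction n with
    | zero => simp
    | succ n ih =>
      rw [Finset.sum_range_succ, ih]
      push_cast
      ring
  rw [h]
  have : (0 : ℝ) ≤ (2 * n + 6) * (1 / 2) ^ n := by positivity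
  linarith only [this]

/-- the derivative -/
noncomputable def analysis_d (y : ℕ → ℝ) (D : ℕ) (p : ℝ) : ℝ :=
  ∑ j ∈ Finset.range D, y j * ((j : ℝ) * (2 * p - 1) ^ (j - 1) * 2)

theorem analysis_hasDeriv (y : ℕ → ℝ) (D : ℕ) (p : ℝ) :
    HasDerivAt (fun p => ∑ j ∈ Finset.range D, y j * (2 * p - 1) ^ j) (analysis_d y D p) p := by
  unfold analysis_d
  apply HasDerivAt.fun_sum
  intro j _
  have h1 : HasDerivAt (fun p : ℝ => 2 * p - 1) 2 p := by
    simpa using ((hasDerivAt_id p).const_mul 2).sub_const 1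
  exact (h1.pow j).const_mul (y j)

theorem analysis_hasDeriv2 {y : ℕ → ℝ} {D : ℕ} (hyD : ∀ j, D ≤ j → y j = 0) :
    HasDerivAt (analysis_d y D) (8 * y 2) (1 / 2) := by
  have h0 : HasDerivAt (analysis_d y D)
      (∑ j ∈ Finset.range D, y j * ((j : ℝ) * (((j - 1 : ℕ) : ℝ) * (2 * (1 / 2) - 1) ^ (j - 1 - 1) * 2) * 2))
      (1 / 2) := by
    unfold analysis_d
    apply HasDerivAt.fun_sum
    intro j _
    have h1 : HasDerivAt (fun p : ℝ => 2 * p - 1) 2 (1 / 2) := by
      simpa using ((hasDerivAt_id (1 / 2 : ℝ)).const_mul 2).sub_const 1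
    have h2 := (((h1.pow (j - 1)).const_mul (j : ℝ)).mul_const 2).const_mul (y j)
    exact h2
  have h3 : (∑ j ∈ Finset.range D, y j * ((j : ℝ) * (((j - 1 : ℕ) : ℝ) * (2 * (1 / 2) - 1) ^ (j - 1 - 1) * 2) * 2))
      = 8 * y 2 := by
    rw [analysis_sum_ext hyD 3
      (fun j => ((j : ℝ) * (((j - 1 : ℕ) : ℝ) * (2 * (1 / 2) - 1) ^ (j - 1 - 1) * 2) * 2))]
    have h4 : ∑ i ∈ Finset.range D, y (3 + i) * (((3 + i : ℕ) : ℝ) *
        (((3 + i - 1 : ℕ) : ℝ) * (2 * (1 / 2) - 1) ^ (3 + i - 1 - 1) * 2) * 2) = 0 := by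
      apply Finset.sum_eq_zero
      intro i _
      have h5 : 3 + i - 1 - 1 = i + 1 := by omega
      rw [h5]
      norm_num
    rw [h4]
    simp only [Finset.sum_range_succ, Finset.sum_range_zero]
    norm_num
    ring
  rw [h3] at h0
  exact h0

theorem analysis_d_diff {y : ℕ → ℝ} {D : ℕ} (hyD : ∀ j, D ≤ j → y j = 0) (p : ℝ) :
    analysis_d y D p - analysis_d y D (1 / 2)
      = ∑ i ∈ Finset.range D, y (2 + i) * (((2 : ℝ) + i) * (2 * p - 1) ^ (1 + i) * 2) := by
  unfold analysis_d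
  rw [analysis_sum_ext hyD 2 (fun j => ((j : ℝ) * (2 * p - 1) ^ (j - 1) * 2)),
    analysis_sum_ext hyD 2 (fun j => ((j : ℝ) * (2 * (1 / 2) - 1) ^ (j - 1) * 2))]
  have h4 : ∑ i ∈ Finset.range D, y (2 + i) * (((2 + i : ℕ) : ℝ) *
      (2 * (1 / 2) - 1) ^ (2 + i - 1) * 2) = 0 := by
    apply Finset.sum_eq_zero
    intro i _
    have h5 : 2 + i - 1 = i + 1 := by omega
    rw [h5]
    norm_num
  rw [h4]
  have h6 : ∑ i ∈ Finset.range D, y (2 + i) * (((2 + i : ℕ) : ℝ) * (2 * p - 1) ^ (2 + i - 1) * 2)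
      = ∑ i ∈ Finset.range D, y (2 + i) * (((2 : ℝ) + i) * (2 * p - 1) ^ (1 + i) * 2) := by
    apply Finset.sum_congr rfl
    intro i _
    have h5 : 2 + i - 1 = 1 + i := by omega
    rw [h5]
    push_cast
    ring
  rw [h6]
  simp only [Finset.sum_range_succ, Finset.sum_range_zero]
  norm_num

theorem analysis_d_le {y : ℕ → ℝ} {D : ℕ} {C r p : ℝ} (hyD : ∀ j, D ≤ j → y j = 0) (hr : 0 < r)
    (hC : ∀ j, |y j| * r ^ j ≤ C) (hz : |2 * p - 1| ≤ r / 2) :
    |analysis_d y D p - analysis_d y D (1 / 2)| ≤ 12 * C * |2 * p - 1| / r ^ 2 := by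
  have hC0 : 0 ≤ C := le_trans (by positivity) (hC 0)
  set z := 2 * p - 1 with hzdef
  have hq0 : 0 ≤ |z| / r := by positivity
  have hq : |z| / r ≤ 1 / 2 := by
    rw [div_le_iff₀ hr]
    linarith only [hz]
  rw [analysis_d_diff hyD]
  refine (Finset.abs_sum_le_sum_abs _ _).trans ?_
  have h1 : ∀ i ∈ Finset.range D, |y (2 + i) * (((2 : ℝ) + i) * z ^ (1 + i) * 2)|
      ≤ 2 * C * |z| / r ^ 2 * (((2 : ℝ) + i) * (1 / 2) ^ i) := by
    intro i _
    have hi : (0 : ℝ) ≤ 2 + i := by positivity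
    rw [abs_mul, abs_mul, abs_mul, abs_pow, abs_of_nonneg hi, abs_of_pos (by norm_num : (0 : ℝ) < 2)]
    have h4 : |z| = r * (|z| / r) := by field_simp
    have h5 : |y (2 + i)| * ((2 + i) * |z| ^ (1 + i) * 2)
        = |y (2 + i)| * r ^ (2 + i) * (2 * |z| / r ^ 2 * ((2 + i) * (|z| / r) ^ i)) := by
      rw [div_pow]
      field_simp
      ring
    rw [h5]
    have h6 : |y (2 + i)| * r ^ (2 + i) * (2 * |z| / r ^ 2 * ((2 + i) * (|z| / r) ^ i))
        ≤ C * (2 * |z| / r ^ 2 * ((2 + i) * (|z| / r) ^ i)) :=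
      mul_le_mul_of_nonneg_right (hC _) (by positivity)
    refine h6.trans ?_
    have h7 : (|z| / r) ^ i ≤ (1 / 2) ^ i := pow_le_pow_left₀ hq0 hq i
    have h8 : C * (2 * |z| / r ^ 2 * ((2 + i) * (|z| / r) ^ i))
        ≤ C * (2 * |z| / r ^ 2 * ((2 + i) * (1 / 2) ^ i)) := by gcongr
    refine h8.trans (le_of_eq ?_)
    ring
  refine (Finset.sum_le_sum h1).trans ?_
  rw [← Finset.mul_sum]
  have h7 := mul_le_mul_of_nonneg_left (analysis_geom2 D) (by positivity : 0 ≤ 2 * C * |z| / r ^ 2)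
  refine h7.trans (le_of_eq ?_)
  ring

theorem analysis_P_hasDeriv (y : ℕ → ℝ) (D : ℕ) (p : ℝ) :
    HasDerivAt (analysis_P y D) (analysis_d y D p) p := analysis_hasDeriv y D p

open Filter Topology in
theorem analysis_series_one {y : ℕ → ℕ → ℝ} {D : ℕ → ℕ} {C : ℝ}
    (hd : ∀ (k : ℕ) (p : ℝ), 1 / 4 ≤ p → p ≤ 3 / 4 → |analysis_d (y k) (D k) p| ≤ C * 2 ^ k)
    (hs : Summable fun k => analysis_P (y k) (D k) (1 / 2) / 4 ^ (k + 1)) {p : ℝ} (hp1 : 1 / 4 < p)
    (hp2 : p < 3 / 4) :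
    (Summable fun k => analysis_d (y k) (D k) p / 4 ^ (k + 1)) ∧
    HasDerivAt (fun p => ∑' k, analysis_P (y k) (D k) p / 4 ^ (k + 1))
      (∑' k, analysis_d (y k) (D k) p / 4 ^ (k + 1)) p := by
  have hu : Summable fun k : ℕ => C / 4 * (1 / 2 : ℝ) ^ k :=
    (summable_geometric_of_lt_one (by norm_num) (by norm_num)).mul_left _
  have hb : ∀ (k : ℕ) (q : ℝ), q ∈ Set.Ioo (1 / 4 : ℝ) (3 / 4) →
      ‖analysis_d (y k) (D k) q / 4 ^ (k + 1)‖ ≤ C / 4 * (1 / 2 : ℝ) ^ k := by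
    intro k q hq
    rw [Real.norm_eq_abs, abs_div, abs_of_pos (by positivity : (0 : ℝ) < 4 ^ (k + 1)),
      div_le_iff₀ (by positivity)]
    refine (hd k q hq.1.le hq.2.le).trans (le_of_eq ?_)
    have h4 : (4 : ℝ) ^ k = 2 ^ k * 2 ^ k := by
      rw [← mul_pow]
      norm_num
    rw [pow_succ, h4, div_pow, one_pow]
    field_simp
  refine ⟨Summable.of_norm_bounded hu (fun k => hb k p ⟨hp1, hp2⟩), ?_⟩
  exact hasDerivAt_tsum_of_isPreconnected hu isOpen_Ioo isPreconnected_Ioo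
    (fun k q _ => (analysis_P_hasDeriv (y k) (D k) q).div_const _) hb
    (y₀ := 1 / 2) ⟨by norm_num, by norm_num⟩ hs ⟨hp1, hp2⟩

open Filter Topology in
theorem analysis_series_two {y : ℕ → ℕ → ℝ} {D : ℕ → ℕ} (hyD : ∀ k j, D k ≤ j → y k j = 0) {C : ℝ}
    (hd : ∀ (k : ℕ) (p : ℝ), 1 / 4 ≤ p → p ≤ 3 / 4 → |analysis_d (y k) (D k) p| ≤ C * 2 ^ k)
    {r : ℕ → ℝ} (hr : ∀ k, 0 < r k) (hC : ∀ k j, |y k j| * r k ^ j ≤ C)
    (hs : Summable fun k => analysis_P (y k) (D k) (1 / 2) / 4 ^ (k + 1))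
    (hr1 : Summable fun k => 1 / r k ^ 2 / 4 ^ (k + 1))
    (hr2 : Summable fun k => 2 ^ k / r k / 4 ^ (k + 1)) :
    HasDerivAt (fun p => ∑' k, analysis_d (y k) (D k) p / 4 ^ (k + 1))
      (∑' k, 8 * y k 2 / 4 ^ (k + 1)) (1 / 2) := by
  have hC0 : 0 ≤ C := le_trans (mul_nonneg (abs_nonneg _) (pow_nonneg (hr 0).le 0)) (hC 0 0)
  rw [hasDerivAt_iff_tendsto_slope]
  have hbsum : Summable fun k => 24 * C * (1 / r k ^ 2 / 4 ^ (k + 1))
      + 8 * C * (2 ^ k / r k / 4 ^ (k + 1)) := (hr1.mul_left _).add (hr2.mul_left _)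
  have hmem : ∀ᶠ p in 𝓝[≠] (1 / 2 : ℝ), p ∈ Set.Ioo (1 / 4 : ℝ) (3 / 4) ∧ p ≠ 1 / 2 := by
    have h1 : Set.Ioo (1 / 4 : ℝ) (3 / 4) ∈ 𝓝 (1 / 2 : ℝ) :=
      Ioo_mem_nhds (by norm_num) (by norm_num)
    filter_upwards [mem_nhdsWithin_of_mem_nhds h1, self_mem_nhdsWithin] with p hp hp2
    exact ⟨hp, hp2⟩
  have key := tendsto_tsum_of_dominated_convergence (𝓕 := 𝓝[≠] (1 / 2 : ℝ))
    (f := fun p k => slope (fun q => analysis_d (y k) (D k) q / 4 ^ (k + 1)) (1 / 2) p)
    (g := fun k => 8 * y k 2 / 4 ^ (k + 1)) hbsum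
    (by
      intro k
      exact hasDerivAt_iff_tendsto_slope.1 ((analysis_hasDeriv2 (hyD k)).div_const _))
    (by
      filter_upwards [hmem] with p hp k
      obtain ⟨⟨hp1, hp2⟩, hp3⟩ := hp
      have hne : 0 < |p - 1 / 2| := abs_pos.2 (sub_ne_zero.2 hp3)
      have h2p : |2 * p - 1| = 2 * |p - 1 / 2| := by
        rw [← abs_of_pos (by norm_num : (0 : ℝ) < 2), ← abs_mul]
        congr 1
        rw [abs_of_pos (by norm_num : (0 : ℝ) < 2)]
        ring
      have hrk := hr k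
      have hdiff : |analysis_d (y k) (D k) p - analysis_d (y k) (D k) (1 / 2)|
          ≤ |p - 1 / 2| * (24 * C * (1 / r k ^ 2) + 8 * C * (2 ^ k / r k)) := by
        rcases le_or_gt |2 * p - 1| (r k / 2) with h | h
        · have h3 := analysis_d_le (hyD k) hrk (hC k) h
          refine h3.trans ?_
          rw [h2p]
          have h4 : 0 ≤ |p - 1 / 2| * (8 * C * (2 ^ k / r k)) := by positivity
          have h5 : 12 * C * (2 * |p - 1 / 2|) / r k ^ 2 = |p - 1 / 2| * (24 * C * (1 / r k ^ 2)) := by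
            ring
          rw [h5, mul_add]
          linarith only [h4]
        · have h3 := hd k p hp1.le hp2.le
          have h4 := hd k (1 / 2) (by norm_num) (by norm_num)
          have h5 : |analysis_d (y k) (D k) p - analysis_d (y k) (D k) (1 / 2)| ≤ 2 * (C * 2 ^ k) := by
            refine (abs_sub _ _).trans ?_
            linarith only [h3, h4]
          refine h5.trans ?_
          rw [h2p] at h
          have h6 : 1 ≤ 4 * |p - 1 / 2| / r k := by
            rw [le_div_iff₀ hrk]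
            linarith only [h]
          have h7 : 2 * (C * 2 ^ k) * 1 ≤ 2 * (C * 2 ^ k) * (4 * |p - 1 / 2| / r k) :=
            mul_le_mul_of_nonneg_left h6 (by positivity)
          have h8 : 0 ≤ |p - 1 / 2| * (24 * C * (1 / r k ^ 2)) := by positivity
          have h9 : 2 * (C * 2 ^ k) * (4 * |p - 1 / 2| / r k)
              = |p - 1 / 2| * (8 * C * (2 ^ k / r k)) := by ring
          rw [mul_add]
          linarith only [h7, h8, h9]
      rw [slope_def_field, Real.norm_eq_abs, ← sub_div, div_div, abs_div, abs_mul,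
        abs_of_pos (by positivity : (0 : ℝ) < 4 ^ (k + 1)), div_le_iff₀ (by positivity)]
      refine hdiff.trans (le_of_eq ?_)
      field_simp)
  refine key.congr' ?_
  filter_upwards [hmem] with p hp
  obtain ⟨⟨hp1, hp2⟩, hp3⟩ := hp
  have s1 := (analysis_series_one hd hs hp1 hp2).1
  have s2 := (analysis_series_one hd hs (p := 1 / 2) (by norm_num) (by norm_num)).1
  rw [slope_def_field, ← s1.tsum_sub s2, ← tsum_div_const]
  apply tsum_congr
  intro k
  rw [slope_def_field]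

theorem analysis_log (k : ℕ) : Real.log (2 * 2 ^ k) = ((k : ℝ) + 1) * Real.log 2 := by
  rw [← pow_succ', Real.log_pow]
  push_cast
  ring

theorem analysis_log2_pos : 0 < Real.log 2 := Real.log_pos (by norm_num)

theorem analysis_log2_le : Real.log 2 ≤ 1 := by
  have := Real.log_two_lt_d9
  linarith only [this]

theorem analysis_A_le {π : ℕ → ℝ} (hπ0 : ∀ n, 0 < π n) (hπ1 : ∀ n, π n ≤ 1) {C₂ a₀ : ℝ}
    (h2 : ∀ m n : ℕ, 1 ≤ m → m ≤ n → π n ≤ C₂ * ((m : ℝ) / n) ^ a₀ * π m) (k : ℕ) :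
    analysis_A π k ≤ 4 ^ k * (C₂ ^ 2 * (((k : ℝ) + 1) * (((1 / 2 : ℝ) ^ a₀) ^ k) ^ 2)) := by
  have hC2 := analysis_C2_pos hπ0 h2
  have h := h2 1 (2 ^ k) le_rfl Nat.one_le_two_pow
  have h3 : (((1 : ℕ) : ℝ) / ((2 ^ k : ℕ) : ℝ)) ^ a₀ = ((1 / 2 : ℝ) ^ a₀) ^ k := by
    rw [← analysis_rpow_pow]
    congr 1
    push_cast
    rw [one_div_pow]
  rw [h3] at h
  set ρ := (1 / 2 : ℝ) ^ a₀ with hρ
  have hρ0 : 0 < ρ := by positivity
  have h4 : π (2 ^ k) ≤ C₂ * ρ ^ k := by
    refine h.trans ?_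
    have : 0 ≤ C₂ * ρ ^ k := by positivity
    nlinarith only [this, hπ1, hπ1 1, hπ0 1]
  have h5 := pow_le_pow_left₀ (hπ0 (2 ^ k)).le h4 2
  unfold analysis_A
  rw [analysis_log, mul_assoc]
  apply mul_le_mul_of_nonneg_left _ (by positivity)
  have h6 : ((k : ℝ) + 1) * Real.log 2 ≤ (k : ℝ) + 1 := by
    have := analysis_log2_le
    have : (0 : ℝ) ≤ k := Nat.cast_nonneg k
    nlinarith
  have hl := analysis_log2_pos
  calc π (2 ^ k) ^ 2 * (((k : ℝ) + 1) * Real.log 2)
      ≤ (C₂ * ρ ^ k) ^ 2 * ((k : ℝ) + 1) := mul_le_mul h5 h6 (by positivity) (by positivity)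
    _ = _ := by ring

theorem analysis_summable {ρ : ℝ} (h0 : 0 < ρ) (h1 : ρ < 1) :
    Summable fun k : ℕ => ((k : ℝ) + 1) * ρ ^ k := by
  have hn : ‖ρ‖ < 1 := by rw [Real.norm_eq_abs, abs_of_pos h0]; exact h1
  have h2 := (summable_pow_mul_geometric_of_norm_lt_one 1 hn).add
    (summable_pow_mul_geometric_of_norm_lt_one 0 hn)
  refine h2.congr ?_
  intro k
  ring

theorem analysis_summables {π : ℕ → ℝ} (hπ0 : ∀ n, 0 < π n) (hπ1 : ∀ n, π n ≤ 1) {C₂ a₀ : ℝ}
    (ha₀ : 0 < a₀)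
    (h2 : ∀ m n : ℕ, 1 ≤ m → m ≤ n → π n ≤ C₂ * ((m : ℝ) / n) ^ a₀ * π m)
    {r : ℕ → ℝ} {C₃ : ℝ} (hC₃ : 0 < C₃) (hr0 : ∀ k, 0 < r k)
    (hr : ∀ k, 1 / r k ^ 2 ≤ C₃ * analysis_A π k) :
    (Summable fun k => 1 / r k ^ 2 / 4 ^ (k + 1)) ∧
    (Summable fun k => 2 ^ k / r k / 4 ^ (k + 1)) := by
  obtain ⟨hρ0, hρ1⟩ := analysis_rho ha₀
  set ρ := (1 / 2 : ℝ) ^ a₀ with hρ
  have hC2 := analysis_C2_pos hπ0 h2
  have hk : ∀ k, 1 / r k ^ 2 ≤ 4 ^ k * (C₃ * C₂ ^ 2 * (((k : ℝ) + 1) * (ρ ^ k) ^ 2)) := by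
    intro k
    refine (hr k).trans ?_
    have h3 := mul_le_mul_of_nonneg_left (analysis_A_le hπ0 hπ1 h2 k) hC₃.le
    rw [← hρ] at h3
    refine h3.trans (le_of_eq ?_)
    ring
  constructor
  · apply Summable.of_nonneg_of_le (fun k => by have := hr0 k; positivity) _
      ((analysis_summable hρ0 hρ1).mul_left (C₃ * C₂ ^ 2))
    intro k
    rw [div_le_iff₀ (by positivity)]
    refine (hk k).trans ?_
    have h4 : (ρ ^ k) ^ 2 ≤ ρ ^ k := by
      have h5 : ρ ^ k ≤ 1 := pow_le_one₀ hρ0.le hρ1.le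
      have h6 : 0 < ρ ^ k := by positivity
      nlinarith only [hρ0, hρ1, h5, h6]
    have h7 : (4 : ℝ) ^ k ≤ 4 ^ (k + 1) := pow_le_pow_right₀ (by norm_num) (by omega)
    calc 4 ^ k * (C₃ * C₂ ^ 2 * (((k : ℝ) + 1) * (ρ ^ k) ^ 2))
        ≤ 4 ^ (k + 1) * (C₃ * C₂ ^ 2 * (((k : ℝ) + 1) * ρ ^ k)) := by gcongr
      _ = _ := by ring
  · apply Summable.of_nonneg_of_le (fun k => by have := hr0 k; positivity) _
      ((analysis_summable hρ0 hρ1).mul_left (1 + C₃ * C₂ ^ 2))
    intro k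
    have hrk := hr0 k
    have h4k : (4 : ℝ) ^ k = 2 ^ k * 2 ^ k := by
      rw [← mul_pow]
      norm_num
    -- `t = 1 / (r 2^k)`
    set t := 1 / (r k * 2 ^ k) with ht
    have ht0 : 0 < t := by positivity
    have e1 : 2 ^ k / r k / 4 ^ (k + 1) = t / 4 := by
      rw [pow_succ, h4k, ht]
      field_simp
    have e2 : t ^ 2 ≤ C₃ * C₂ ^ 2 * (((k : ℝ) + 1) * (ρ ^ k) ^ 2) := by
      have e3 : t ^ 2 = 1 / r k ^ 2 / 4 ^ k := by
        rw [ht, h4k]
        field_simp
      rw [e3, div_le_iff₀ (by positivity)]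
      refine (hk k).trans (le_of_eq ?_)
      ring
    have hs0 : 0 < ρ ^ k := by positivity
    have hk0 : (0 : ℝ) ≤ k := Nat.cast_nonneg k
    rw [e1]
    -- `t ≤ (s + t² / s) / 2`
    have e4 : t * ρ ^ k ≤ ((ρ ^ k) ^ 2 + t ^ 2) / 2 := by nlinarith only [sq_nonneg (t - ρ ^ k)]
    have e5 : t * ρ ^ k ≤ (1 + C₃ * C₂ ^ 2) * (((k : ℝ) + 1) * ρ ^ k) * ρ ^ k := by
      refine e4.trans ?_
      have e6 : (ρ ^ k) ^ 2 ≤ ((k : ℝ) + 1) * (ρ ^ k) ^ 2 := by nlinarith only [sq_nonneg (ρ ^ k)]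
      have e7 : 0 ≤ ((k : ℝ) + 1) * (ρ ^ k) ^ 2 := by positivity
      have e8 : 0 ≤ C₃ * C₂ ^ 2 * (((k : ℝ) + 1) * (ρ ^ k) ^ 2) := by positivity
      have e9 : (1 + C₃ * C₂ ^ 2) * (((k : ℝ) + 1) * ρ ^ k) * ρ ^ k
          = ((k : ℝ) + 1) * (ρ ^ k) ^ 2 + C₃ * C₂ ^ 2 * (((k : ℝ) + 1) * (ρ ^ k) ^ 2) := by ring
      rw [e9]
      linarith only [e2, e6, e7, e8]
    have e10 := le_of_mul_le_mul_right e5 hs0
    linarith only [ht0, e10]

theorem analysis_evR_abs (y : ℕ → ℝ) (D : ℕ) {z : ℝ} (hz : |z| ≤ 1) :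
    |analysis_evR y D z| ≤ (∑ i ∈ Finset.range D, |y (4 + i)|) * z ^ 4 := by
  unfold analysis_evR
  refine (Finset.abs_sum_le_sum_abs _ _).trans ?_
  rw [Finset.sum_mul]
  apply Finset.sum_le_sum
  intro i _
  rw [abs_mul]
  apply mul_le_mul_of_nonneg_left _ (abs_nonneg _)
  have h2 : |(z ^ (4 + i) + (-z) ^ (4 + i)) / 2| ≤ |z| ^ (4 + i) := by
    rw [abs_div, abs_of_pos (by norm_num : (0 : ℝ) < 2), div_le_iff₀ (by norm_num)]
    refine (abs_add_le _ _).trans ?_
    rw [abs_pow, abs_pow, abs_neg]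
    linarith
  refine h2.trans ?_
  have h3 : |z| ^ (4 + i) ≤ |z| ^ 4 := pow_le_pow_of_le_one (abs_nonneg _) hz (by omega)
  refine h3.trans (le_of_eq ?_)
  exact Even.pow_abs (by decide) z

theorem analysis_P_half (y : ℕ → ℝ) {D : ℕ} (hyD : ∀ j, D ≤ j → y j = 0) :
    analysis_P y D (1 / 2) = y 0 := by
  unfold analysis_P
  rw [analysis_sum_ext hyD 1 (fun j => (2 * (1 / 2 : ℝ) - 1) ^ j)]
  have h4 : ∑ i ∈ Finset.range D, y (1 + i) * (2 * (1 / 2 : ℝ) - 1) ^ (1 + i) = 0 := by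
    apply Finset.sum_eq_zero
    intro i _
    rw [add_comm 1 i]
    norm_num
  rw [h4]
  norm_num

theorem analysis_P_even {y : ℕ → ℝ} {D : ℕ} (hyD : ∀ j, D ≤ j → y j = 0) (p : ℝ) :
    (analysis_P y D p + analysis_P y D (1 - p)) / 2
      = y 0 + y 2 * (2 * p - 1) ^ 2 + analysis_evR y D (2 * p - 1) := by
  rw [← analysis_even hyD]
  have hp2 : analysis_P y D (1 - p) = ∑ j ∈ Finset.range D, y j * (-(2 * p - 1)) ^ j := by
    unfold analysis_P
    apply Finset.sum_congr rfl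
    intro j _
    congr 2
    ring
  rw [hp2]
  rfl

end Pool.Agent.H29.Kap

end

section

/-! # The remainder of the second order expansion at `1/2` -/

set_option autoImplicit false

namespace Pool.Agent.H29.Kap

/-- The remainder `R(p)` of the second order expansion of `κ` at `1/2`. -/
noncomputable def Rem (κ : ℝ → ℝ) (p : ℝ) : ℝ :=
  κ p - κ (1 / 2) - deriv κ (1 / 2) * (p - 1 / 2)
    - 1 / 2 * deriv (deriv κ) (1 / 2) * (p - 1 / 2) ^ 2

/-- `|R(p)| = |p - 1/2|^{2 - α₀ + o(1)}` as `p → 1/2`. -/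
def HasAlpha (κ : ℝ → ℝ) (α₀ : ℝ) : Prop :=
  ∀ ε > (0 : ℝ), ∃ δ > (0 : ℝ), ∀ p : ℝ, 0 ≤ p → p ≤ 1 → p ≠ 1 / 2 → |p - 1 / 2| < δ →
    |p - 1 / 2| ^ (2 - α₀ + ε) ≤ |Rem κ p| ∧ |Rem κ p| ≤ |p - 1 / 2| ^ (2 - α₀ - ε)

end Pool.Agent.H29.Kap

end

section

/-! # Analysis of the scale decomposition, without logarithms -/

set_option autoImplicit false

namespace Pool.Agent.H29.Kap

/-- `π(n) ≥ c / n^{1/3}` in the form used below -/
theorem analysis3_lower {π : ℕ → ℝ} (hπ0 : ∀ n, 0 < π n) {C₁ : ℝ}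
    (h1 : ∀ m n : ℕ, 1 ≤ m → m ≤ n → π m ≤ C₁ * ((n : ℝ) / m) ^ (1 / 3 : ℝ) * π n) {n : ℕ}
    (hn : 1 ≤ n) : (π 1 / C₁) ^ 2 ≤ n * π n ^ 2 := by
  have hC := analysis3_C1_pos hπ0 h1
  have h := h1 1 n le_rfl hn
  rw [Nat.cast_one, div_one] at h
  have hnr : (1 : ℝ) ≤ n := by exact_mod_cast hn
  have h3 : (n : ℝ) ^ (1 / 3 : ℝ) ≤ (n : ℝ) ^ (1 / 2 : ℝ) :=
    Real.rpow_le_rpow_of_exponent_le hnr (by norm_num)
  have hπn := hπ0 n
  have h4 : π 1 / C₁ ≤ (n : ℝ) ^ (1 / 2 : ℝ) * π n := by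
    rw [div_le_iff₀ (by positivity)]
    calc π 1 ≤ C₁ * (n : ℝ) ^ (1 / 3 : ℝ) * π n := h
      _ ≤ C₁ * (n : ℝ) ^ (1 / 2 : ℝ) * π n := by gcongr
      _ = _ := by ring
  have h5 := pow_le_pow_left₀ (by have := hπ0 1; positivity) h4 2
  refine h5.trans (le_of_eq ?_)
  rw [mul_pow, ← Real.rpow_natCast ((n : ℝ) ^ (1 / 2 : ℝ)), ← Real.rpow_mul (by positivity)]
  norm_num

theorem analysis3_A_ge {π : ℕ → ℝ} (hπ0 : ∀ n, 0 < π n) {C₁ : ℝ}
    (h1 : ∀ m n : ℕ, 1 ≤ m → m ≤ n → π m ≤ C₁ * ((n : ℝ) / m) ^ (1 / 3 : ℝ) * π n) (k : ℕ) :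
    (π 1 / C₁) ^ 2 ≤ analysis3_A π k := by
  have h3 := analysis3_lower hπ0 h1 (n := 2 ^ k) Nat.one_le_two_pow
  push_cast at h3
  refine h3.trans ?_
  unfold analysis3_A
  have h4 : (2 : ℝ) ^ k ≤ 4 ^ k := pow_le_pow_left₀ (by norm_num) (by norm_num) k
  exact mul_le_mul_of_nonneg_right h4 (sq_nonneg _)

theorem analysis3_r {A : ℕ → ℝ} {c : ℝ} (hc0 : 0 < c) (hAc : ∀ k, c ≤ A k) {c₀ : ℝ}
    (hc₀ : 0 < c₀) : ∃ (r : ℕ → ℝ) (C₃ : ℝ), 0 < C₃ ∧ ∀ k, 0 < r k ∧ r k ≤ 1 ∧
      r k ^ 2 * A k ≤ c₀ ∧ 1 / r k ^ 2 ≤ C₃ * A k := by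
  refine ⟨fun k => min 1 (Real.sqrt (c₀ / A k)), 1 / c + 1 / c₀, by positivity, ?_⟩
  intro k
  have hA : 0 < A k := lt_of_lt_of_le hc0 (hAc k)
  have hs : 0 < Real.sqrt (c₀ / A k) := Real.sqrt_pos.2 (by positivity)
  have h3 : 1 / c * A k ≥ 1 := by
    rw [ge_iff_le, div_mul_eq_mul_div, le_div_iff₀ hc0]
    linarith [hAc k]
  have h4 : 0 < 1 / c₀ * A k := by positivity
  beta_reduce
  refine ⟨lt_min one_pos hs, min_le_left _ _, ?_, ?_⟩
  · rcases le_total 1 (Real.sqrt (c₀ / A k)) with h | h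
    · rw [min_eq_left h, one_pow, one_mul]
      have h5 : 1 ≤ c₀ / A k := by
        have := pow_le_pow_left₀ (by norm_num : (0 : ℝ) ≤ 1) h 2
        rwa [Real.sq_sqrt (by positivity), one_pow] at this
      rwa [le_div_iff₀ hA, one_mul] at h5
    · rw [min_eq_right h, Real.sq_sqrt (by positivity), div_mul_cancel₀ _ hA.ne']
  · rcases le_total 1 (Real.sqrt (c₀ / A k)) with h | h
    · rw [min_eq_left h, one_pow, div_one, add_mul]
      linarith only [h3, h4]
    · rw [min_eq_right h, Real.sq_sqrt (by positivity), add_mul]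
      have h6 : 1 / (c₀ / A k) = 1 / c₀ * A k := by
        field_simp
      rw [h6]
      linarith only [h3]

theorem analysis3_A_le {π : ℕ → ℝ} (k : ℕ) :
    analysis3_A π k ≤ 1 / Real.log 2 * analysis_A π k := by
  have hl := analysis_log2_pos
  unfold analysis_A
  rw [analysis_log]
  change analysis3_A π k ≤ 1 / Real.log 2 * (analysis3_A π k * (((k : ℝ) + 1) * Real.log 2))
  have h0 : 0 ≤ analysis3_A π k := by
    unfold analysis3_A
    positivity
  have h1 : 1 / Real.log 2 * (analysis3_A π k * (((k : ℝ) + 1) * Real.log 2))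
      = analysis3_A π k * ((k : ℝ) + 1) := by
    field_simp
  rw [h1]
  have : (0 : ℝ) ≤ k := Nat.cast_nonneg k
  nlinarith only [h0]

theorem analysis3_G {π : ℕ → ℝ} (hπ0 : ∀ n, 0 < π n)
    {C₁ : ℝ} (h1 : ∀ m n : ℕ, 1 ≤ m → m ≤ n → π m ≤ C₁ * ((n : ℝ) / m) ^ (1 / 3 : ℝ) * π n)
    {z : ℝ} {N : ℕ} (hN : 1 ≤ N) (hW : z ^ 2 * ((N : ℝ) ^ 2 * π N ^ 2) ≤ 4) :
    z ^ 4 ≤ 16 / (π 1 / C₁) ^ 4 / (N : ℝ) ^ 2 := by
  have hC1 := analysis3_C1_pos hπ0 h1
  have hNr : (0 : ℝ) < N := by exact_mod_cast hN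
  have hπN := hπ0 N
  have hπ1 := hπ0 1
  have h3 := analysis3_lower hπ0 h1 hN
  set c := (π 1 / C₁) ^ 2 with hc
  have hc0 : 0 < c := by positivity
  have h4 : z ^ 2 * (N * c) ≤ 4 := by
    refine le_trans ?_ hW
    apply mul_le_mul_of_nonneg_left _ (sq_nonneg z)
    have : (N : ℝ) ^ 2 * π N ^ 2 = N * (N * π N ^ 2) := by ring
    rw [this]
    exact mul_le_mul_of_nonneg_left h3 (by positivity)
  have h5 : 0 ≤ z ^ 2 * (N * c) := by positivity
  have h6 := pow_le_pow_left₀ h5 h4 2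
  have h7 : z ^ 4 * ((N : ℝ) ^ 2 * c ^ 2) ≤ 16 := by
    have : (z ^ 2 * (N * c)) ^ 2 = z ^ 4 * ((N : ℝ) ^ 2 * c ^ 2) := by ring
    rw [this] at h6
    linarith only [h6]
  have h8 : (π 1 / C₁) ^ 4 = c ^ 2 := by rw [hc]; ring
  rw [h8, div_div, le_div_iff₀ (by positivity)]
  linarith only [h6]

theorem analysis3_W {P : ℝ} (hP : 0 < P) {p : ℝ} {N : ℕ}
    (h : |p - 1 / 2| * N * P ≤ 1) :
    (2 * p - 1) ^ 2 * ((N : ℝ) ^ 2 * P ^ 2) ≤ 4 := by
  have h0 : 0 ≤ |p - 1 / 2| * N * P := by positivity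
  have h1 := pow_le_pow_left₀ h0 h 2
  rw [mul_pow, mul_pow, sq_abs, one_pow] at h1
  have h2 : (2 * p - 1) ^ 2 * ((N : ℝ) ^ 2 * P ^ 2)
      = 4 * ((p - 1 / 2) ^ 2 * N ^ 2 * P ^ 2) := by ring
  rw [h2]
  linarith only [h1]

end Pool.Agent.H29.Kap

end

section

/-! # Derivative of an expectation with respect to the density -/

set_option autoImplicit false

namespace Pool.Agent.H29.Kap

open Pool.Agent.Perc

variable {ι : Type*} [DecidableEq ι]

/-- normalised indicator -/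
noncomputable def derivbound_g (p : ℝ) (e : ι) (S : Finset ι) : ℝ :=
  ((if e ∈ S then 1 else 0) - p) / (p * (1 - p))

lemma derivbound_g_in {p : ℝ} (h0 : 0 < p) (h1 : p < 1) {e : ι} {S : Finset ι} (h : e ∈ S) :
    derivbound_g p e S = 1 / p := by
  have h2 : (1 - p) ≠ 0 := by linarith
  unfold derivbound_g
  rw [if_pos h]
  field_simp

lemma derivbound_g_out {p : ℝ} (h0 : 0 < p) (h1 : p < 1) {e : ι} {S : Finset ι} (h : e ∉ S) :
    derivbound_g p e S = - (1 / (1 - p)) := by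
  have h2 : (1 - p) ≠ 0 := by linarith
  unfold derivbound_g
  rw [if_neg h]
  field_simp
  ring

lemma derivbound_DD {F : Finset ι} {e : ι} (he : e ∈ F) (f : Finset ι → ℝ) {p : ℝ} (h0 : 0 < p)
    (h1 : p < 1) :
    Ex p F (DD e f) = Ex p F (fun S => f S * derivbound_g p e S) := by
  have h2 : (1 - p) ≠ 0 := by linarith
  rw [Ex_DD he, Ex_erase he p (fun S => f S * derivbound_g p e S)]
  have e1 : Ex p (F.erase e) (fun S => f (insert e S) * derivbound_g p e (insert e S)) =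
      Ex p (F.erase e) (fun S => f (insert e S)) * (1 / p) := by
    rw [← Ex_mul_const]
    exact Ex_congr fun S _ => by rw [derivbound_g_in h0 h1 (Finset.mem_insert_self e S)]
  have e2 : Ex p (F.erase e) (fun S => f S * derivbound_g p e S) =
      Ex p (F.erase e) f * (- (1 / (1 - p))) := by
    rw [← Ex_mul_const]
    exact Ex_congr fun S hS => by
      rw [derivbound_g_out h0 h1 (fun h => (Finset.mem_erase.1 (hS h)).1 rfl)]
  rw [e1, e2]
  field_simp
  ring

lemma derivbound_W (F : Finset ι) {p : ℝ} (h0 : 0 < p) (h1 : p < 1) :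
    Ex p F (fun S => (∑ e ∈ F, derivbound_g p e S) ^ 2) = F.card / (p * (1 - p)) := by
  have h2 : (1 - p) ≠ 0 := by linarith
  induction F using Finset.induction_on with
  | empty => simp
  | insert a F ha ih =>
    rw [Ex_insert ha, Finset.card_insert_of_notMem ha]
    have hother : ∀ S : Finset ι, ∑ e ∈ F, derivbound_g p e (insert a S) = ∑ e ∈ F, derivbound_g p e S := by
      intro S
      apply Finset.sum_congr rfl
      intro e he
      have hea : e ≠ a := fun h => ha (h ▸ he)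
      unfold derivbound_g
      simp [Finset.mem_insert, hea]
    have e1 : Ex p F (fun S => (∑ e ∈ insert a F, derivbound_g p e (insert a S)) ^ 2) =
        1 / p ^ 2 + 2 / p * Ex p F (fun S => ∑ e ∈ F, derivbound_g p e S) +
          Ex p F (fun S => (∑ e ∈ F, derivbound_g p e S) ^ 2) := by
      rw [← Ex_const_mul, ← Ex_const p F (1 / p ^ 2), ← Ex_add, ← Ex_add]
      refine Ex_congr fun S _ => ?_
      rw [Finset.sum_insert ha, hother, derivbound_g_in h0 h1 (Finset.mem_insert_self a S)]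
      ring
    have e2 : Ex p F (fun S => (∑ e ∈ insert a F, derivbound_g p e S) ^ 2) =
        1 / (1 - p) ^ 2 + (-(2 / (1 - p))) * Ex p F (fun S => ∑ e ∈ F, derivbound_g p e S) +
          Ex p F (fun S => (∑ e ∈ F, derivbound_g p e S) ^ 2) := by
      rw [← Ex_const_mul, ← Ex_const p F (1 / (1 - p) ^ 2), ← Ex_add, ← Ex_add]
      refine Ex_congr fun S hS => ?_
      rw [Finset.sum_insert ha, derivbound_g_out h0 h1 (fun h => ha (hS h)),
        show (1 : ℝ) / (1 - p) ^ 2 = (1 / (1 - p)) ^ 2 by rw [one_div, one_div, inv_pow],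
        show (2 : ℝ) / (1 - p) = 2 * (1 / (1 - p)) by ring]
      ring
    rw [e1, e2, ih]
    push_cast
    field_simp
    ring

theorem deriv_Ex_bound (F : Finset ι) (f : Finset ι → ℝ) {p : ℝ} (h0 : 0 < p) (h1 : p < 1) :
    |deriv (fun q => Ex q F f) p| ≤
      Real.sqrt (F.card / (p * (1 - p))) * Real.sqrt (Ex p F (fun S => f S ^ 2)) := by
  rw [(hasDerivAt_Ex F f p).deriv]
  have e1 : ∑ e ∈ F, Ex p F (DD e f) = Ex p F (fun S => f S * ∑ e ∈ F, derivbound_g p e S) := by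
    rw [Finset.sum_congr rfl (fun e he => derivbound_DD he f h0 h1), ← Ex_sum]
    exact Ex_congr fun S _ => by rw [Finset.mul_sum]
  rw [e1]
  have h2 := Ex_mul_sq_le h0.le h1.le F f (fun S => ∑ e ∈ F, derivbound_g p e S)
  rw [derivbound_W F h0 h1] at h2
  rw [← Real.sqrt_mul (by
    have : 0 < 1 - p := by linarith only [h1]
    positivity), mul_comm ((F.card : ℝ) / (p * (1 - p)))]
  exact Real.abs_le_sqrt h2

end Pool.Agent.H29.Kap

end

section

/-! # A sum over tuples of edges -/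

set_option autoImplicit false

namespace Pool.Agent.H29.Kap

/-! ### The abstract inequality -/

section abstract_part

variable {α : Type*} [DecidableEq α]

/-- the upper factors -/
noncomputable def tupsum_U (s : α → ℝ) (t : α → α → ℝ) {j : ℕ} (e : Fin j → α) (i : Fin j) : ℝ :=
  1 + s (e i) + ∑ k ∈ Finset.univ.filter (fun k => i < k), t (e i) (e k)

/-- the lower factors -/
noncomputable def tupsum_D (s : α → ℝ) (t : α → α → ℝ) {j : ℕ} (e : Fin j → α) (i : Fin j) : ℝ :=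
  1 + s (e i) + ∑ k ∈ Finset.univ.filter (fun k => k < i), t (e i) (e k)

lemma tupsum_pi_succ (E : Finset α) (n : ℕ) (f : (Fin (n + 1) → α) → ℝ) :
    ∑ e ∈ Fintype.piFinset (fun _ : Fin (n + 1) => E), f e =
      ∑ e ∈ Fintype.piFinset (fun _ : Fin n => E), ∑ x ∈ E, f (Fin.cons x e) := by
  rw [← Finset.sum_product']
  refine Finset.sum_bij' (fun e _ => (Fin.tail e, e 0)) (fun p _ => Fin.cons p.2 p.1) ?_ ?_ ?_ ?_ ?_
  · intro e he
    rw [Fintype.mem_piFinset] at he
    simp only [Finset.mem_product, Fintype.mem_piFinset]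
    exact ⟨fun i => he _, he 0⟩
  · intro p hp
    simp only [Finset.mem_product, Fintype.mem_piFinset] at hp
    rw [Fintype.mem_piFinset]
    intro i
    refine Fin.cases ?_ (fun i => ?_) i
    · simpa using hp.2
    · simpa using hp.1 i
  · intro e _
    exact Fin.cons_self_tail e
  · intro p _
    simp
  · intro e _
    rw [Fin.cons_self_tail]

lemma tupsum_pi_rev (E : Finset α) (n : ℕ) (f : (Fin n → α) → ℝ) :
    ∑ e ∈ Fintype.piFinset (fun _ : Fin n => E), f e =
      ∑ e ∈ Fintype.piFinset (fun _ : Fin n => E), f (fun i => e (Fin.rev i)) := by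
  refine Finset.sum_bij' (fun e _ => fun i => e (Fin.rev i)) (fun e _ => fun i => e (Fin.rev i))
    ?_ ?_ ?_ ?_ ?_
  · intro e he
    rw [Fintype.mem_piFinset] at he ⊢
    exact fun i => he _
  · intro e he
    rw [Fintype.mem_piFinset] at he ⊢
    exact fun i => he _
  · intro e _
    funext i
    simp
  · intro e _
    funext i
    simp
  · intro e _
    congr 1
    funext i
    simp

lemma tupsum_U_nonneg {s : α → ℝ} {t : α → α → ℝ} (hs : ∀ x, 0 ≤ s x) (ht : ∀ x y, 0 ≤ t x y)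
    {j : ℕ} (e : Fin j → α) (i : Fin j) : 1 ≤ tupsum_U s t e i := by
  unfold tupsum_U
  have := hs (e i)
  have h2 : 0 ≤ ∑ k ∈ Finset.univ.filter (fun k => i < k), t (e i) (e k) :=
    Finset.sum_nonneg fun k _ => ht _ _
  linarith

lemma tupsum_U_sum {s : α → ℝ} {t : α → α → ℝ} (hs : ∀ x, 0 ≤ s x) (ht : ∀ x y, 0 ≤ t x y)
    (E : Finset α) {B : ℝ} (hB1 : (E.card : ℝ) ≤ B) (hB2 : ∑ x ∈ E, s x ≤ B)
    (hB3 : ∀ y ∈ E, ∑ x ∈ E, t x y ≤ B) (j : ℕ) :
    ∑ e ∈ Fintype.piFinset (fun _ : Fin j => E), ∏ i, tupsum_U s t e i ≤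
      (j + 1).factorial * B ^ j := by
  have hB0 : 0 ≤ B := le_trans (by positivity) hB1
  induction j with
  | zero => simp
  | succ n ih =>
    rw [tupsum_pi_succ]
    have key : ∀ e ∈ Fintype.piFinset (fun _ : Fin n => E),
        ∑ x ∈ E, ∏ i, tupsum_U s t (Fin.cons x e : Fin (n + 1) → α) i ≤
          ((n + 2 : ℕ) : ℝ) * B * ∏ i, tupsum_U s t e i := by
      intro e he
      rw [Fintype.mem_piFinset] at he
      have h1 : ∀ x, ∏ i, tupsum_U s t (Fin.cons x e : Fin (n + 1) → α) i =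
          (1 + s x + ∑ k, t x (e k)) * ∏ i, tupsum_U s t e i := by
        intro x
        rw [Fin.prod_univ_succ]
        congr 1
        · unfold tupsum_U
          rw [Fin.cons_zero]
          congr 1
          rw [Finset.sum_filter, Fin.sum_univ_succ]
          simp
        · refine Finset.prod_congr rfl fun i _ => ?_
          unfold tupsum_U
          rw [Fin.cons_succ]
          congr 1
          rw [Finset.sum_filter, Fin.sum_univ_succ, Finset.sum_filter]
          simp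
      simp only [h1]
      rw [← Finset.sum_mul]
      refine mul_le_mul_of_nonneg_right ?_ (Finset.prod_nonneg fun i _ =>
        le_trans zero_le_one (tupsum_U_nonneg hs ht e i))
      rw [Finset.sum_add_distrib, Finset.sum_add_distrib, Finset.sum_comm]
      have h2 : ∑ k, ∑ x ∈ E, t x (e k) ≤ ∑ _k : Fin n, B :=
        Finset.sum_le_sum fun k _ => hB3 _ (he k)
      simp only [Finset.sum_const, Finset.card_univ, Fintype.card_fin, nsmul_eq_mul, mul_one] at h2 ⊢
      push_cast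
      nlinarith only [hB1, hB2, h2]
    calc _ ≤ ∑ e ∈ Fintype.piFinset (fun _ : Fin n => E), ((n + 2 : ℕ) : ℝ) * B * ∏ i, tupsum_U s t e i :=
          Finset.sum_le_sum key
      _ = ((n + 2 : ℕ) : ℝ) * B * ∑ e ∈ Fintype.piFinset (fun _ : Fin n => E), ∏ i, tupsum_U s t e i := by
          rw [Finset.mul_sum]
      _ ≤ ((n + 2 : ℕ) : ℝ) * B * ((n + 1).factorial * B ^ n) :=
          mul_le_mul_of_nonneg_left ih (by positivity)
      _ = _ := by
          rw [Nat.factorial_succ (n + 1)]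
          push_cast
          ring

lemma tupsum_D_sum {s : α → ℝ} {t : α → α → ℝ} (hs : ∀ x, 0 ≤ s x) (ht : ∀ x y, 0 ≤ t x y)
    (E : Finset α) {B : ℝ} (hB1 : (E.card : ℝ) ≤ B) (hB2 : ∑ x ∈ E, s x ≤ B)
    (hB3 : ∀ y ∈ E, ∑ x ∈ E, t x y ≤ B) (j : ℕ) :
    ∑ e ∈ Fintype.piFinset (fun _ : Fin j => E), ∏ i, tupsum_D s t e i ≤
      (j + 1).factorial * B ^ j := by
  rw [tupsum_pi_rev]
  refine le_of_eq_of_le (Finset.sum_congr rfl fun e _ => ?_) (tupsum_U_sum hs ht E hB1 hB2 hB3 j)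
  refine Fintype.prod_equiv Fin.revPerm _ _ fun i => ?_
  unfold tupsum_D tupsum_U
  simp only [Fin.revPerm_apply]
  congr 1
  refine Finset.sum_bij' (fun k _ => Fin.rev k) (fun k _ => Fin.rev k) ?_ ?_ ?_ ?_ ?_
  · intro k hk
    simp only [Finset.mem_filter, Finset.mem_univ, true_and] at hk ⊢
    exact Fin.rev_lt_rev.2 hk
  · intro k hk
    simp only [Finset.mem_filter, Finset.mem_univ, true_and] at hk ⊢
    rw [← Fin.rev_lt_rev, Fin.rev_rev]
    exact hk
  · simp
  · simp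
  · simp

lemma tupsum_prod {s : α → ℝ} {t : α → α → ℝ} (hs : ∀ x, 0 ≤ s x) (ht : ∀ x y, 0 ≤ t x y)
    {j : ℕ} (e : Fin j → α) (w : Fin j → ℝ) (hw0 : ∀ i, 0 ≤ w i)
    (hw : ∀ i, w i = s (e i) ∨ ∃ k, k ≠ i ∧ w i ^ 2 = t (e i) (e k)) :
    ∏ i, w i ≤ (∏ i, tupsum_D s t e i + ∏ i, tupsum_U s t e i) / 2 := by
  have hD : ∀ i, 1 ≤ tupsum_D s t e i := by
    intro i
    unfold tupsum_D
    have := hs (e i)
    have h2 : 0 ≤ ∑ k ∈ Finset.univ.filter (fun k => k < i), t (e i) (e k) :=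
      Finset.sum_nonneg fun k _ => ht _ _
    linarith
  have hU : ∀ i, 1 ≤ tupsum_U s t e i := fun i => tupsum_U_nonneg hs ht e i
  have hone : ∀ i, w i ^ 2 ≤ tupsum_D s t e i * tupsum_U s t e i := by
    intro i
    rcases hw i with h | ⟨k, hk, h⟩
    · have h1 : s (e i) ≤ tupsum_D s t e i := by
        unfold tupsum_D
        have h2 : 0 ≤ ∑ k ∈ Finset.univ.filter (fun k => k < i), t (e i) (e k) :=
          Finset.sum_nonneg fun k _ => ht _ _
        linarith
      have h3 : s (e i) ≤ tupsum_U s t e i := by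
        unfold tupsum_U
        have h2 : 0 ≤ ∑ k ∈ Finset.univ.filter (fun k => i < k), t (e i) (e k) :=
          Finset.sum_nonneg fun k _ => ht _ _
        linarith
      rw [h, sq]
      exact mul_le_mul h1 h3 (hs _) (le_trans zero_le_one (hD i))
    · rw [h]
      rcases lt_or_gt_of_ne hk with hlt | hgt
      · have h1 : t (e i) (e k) ≤ tupsum_D s t e i := by
          unfold tupsum_D
          have h2 : t (e i) (e k) ≤ ∑ k ∈ Finset.univ.filter (fun k => k < i), t (e i) (e k) :=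
            Finset.single_le_sum (f := fun k => t (e i) (e k)) (fun k _ => ht _ _) (by simpa using hlt)
          have := hs (e i)
          linarith
        have h3 := hU i
        have h4 := ht (e i) (e k)
        nlinarith only [h1, h3, h]
      · have h1 : t (e i) (e k) ≤ tupsum_U s t e i := by
          unfold tupsum_U
          have h2 : t (e i) (e k) ≤ ∑ k ∈ Finset.univ.filter (fun k => i < k), t (e i) (e k) :=
            Finset.single_le_sum (f := fun k => t (e i) (e k)) (fun k _ => ht _ _) (by simpa using hgt)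
          have := hs (e i)
          linarith
        have h3 := hD i
        have h4 := ht (e i) (e k)
        nlinarith only [h1, h3, h]
  have h2 : (∏ i, w i) ^ 2 ≤ (∏ i, tupsum_D s t e i) * ∏ i, tupsum_U s t e i := by
    rw [← Finset.prod_pow, ← Finset.prod_mul_distrib]
    exact Finset.prod_le_prod (fun i _ => sq_nonneg _) fun i _ => hone i
  have hDp : 0 ≤ ∏ i, tupsum_D s t e i :=
    Finset.prod_nonneg fun i _ => le_trans zero_le_one (hD i)
  have hUp : 0 ≤ ∏ i, tupsum_U s t e i :=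
    Finset.prod_nonneg fun i _ => le_trans zero_le_one (hU i)
  refine le_of_sq_le_sq ?_ (by positivity)
  refine h2.trans ?_
  nlinarith only [sq_nonneg (∏ i, tupsum_D s t e i - ∏ i, tupsum_U s t e i)]

end abstract_part

/-! ### One dimensional sums -/

lemma tupsum_fiber (s : Finset ℤ) (g : ℤ → ℕ) (κ L : ℕ)
    (hκ : ∀ n, (s.filter (fun x => g x = n)).card ≤ κ) (hL : ∀ x ∈ s, g x ≤ L)
    (f : ℕ → ℝ) (hf : ∀ n, 0 ≤ f n) :
    ∑ x ∈ s, f (g x) ≤ κ * ∑ n ∈ Finset.range (L + 1), f n := by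
  rw [Finset.sum_comp, Finset.mul_sum]
  have h1 : ∀ n ∈ s.image g, ((s.filter (fun x => g x = n)).card) • f n ≤ κ * f n := by
    intro n _
    rw [nsmul_eq_mul]
    exact mul_le_mul_of_nonneg_right (by exact_mod_cast hκ n) (hf n)
  refine (Finset.sum_le_sum h1).trans ?_
  refine Finset.sum_le_sum_of_subset_of_nonneg ?_ fun n _ _ => mul_nonneg (by positivity) (hf n)
  intro n hn
  obtain ⟨x, hx, rfl⟩ := Finset.mem_image.1 hn
  exact Finset.mem_range.2 (Nat.lt_succ_of_le (hL x hx))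

lemma tupsum_toNat {M : ℕ} (a b : ℤ) (hab : b - a ≤ M) (f : ℕ → ℝ)
    (hf : ∀ n, 0 ≤ f n) :
    ∑ x ∈ Finset.Icc a b, f (x - a).toNat ≤ ∑ n ∈ Finset.range (M + 1), f n := by
  have := tupsum_fiber (Finset.Icc a b) (fun x => (x - a).toNat) 1 M (fun n => by
    rw [Finset.card_le_one]
    intro x hx y hy
    simp only [Finset.mem_filter, Finset.mem_Icc] at hx hy
    omega) (fun x hx => by
    simp only [Finset.mem_Icc] at hx
    show (x - a).toNat ≤ M
    omega) f hf
  simpa using this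

lemma tupsum_toNat' {M : ℕ} (a b : ℤ) (hab : b - a ≤ M) (f : ℕ → ℝ)
    (hf : ∀ n, 0 ≤ f n) :
    ∑ x ∈ Finset.Icc a b, f (b - x).toNat ≤ ∑ n ∈ Finset.range (M + 1), f n := by
  have := tupsum_fiber (Finset.Icc a b) (fun x => (b - x).toNat) 1 M (fun n => by
    rw [Finset.card_le_one]
    intro x hx y hy
    simp only [Finset.mem_filter, Finset.mem_Icc] at hx hy
    omega) (fun x hx => by
    simp only [Finset.mem_Icc] at hx
    show (b - x).toNat ≤ M
    omega) f hf
  simpa using this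

lemma tupsum_natAbs {M : ℕ} (a b : ℤ) (hab : b - a ≤ M) (x' : ℤ) (hx' : x' ∈ Finset.Icc a b)
    (f : ℕ → ℝ) (hf : ∀ n, 0 ≤ f n) :
    ∑ x ∈ Finset.Icc a b, f (x - x').natAbs ≤ 2 * ∑ n ∈ Finset.range (M + 1), f n := by
  rw [Finset.mem_Icc] at hx'
  have := tupsum_fiber (Finset.Icc a b) (fun x => (x - x').natAbs) 2 M (fun n => by
    refine (Finset.card_le_card (t := {x' + n, x' - n}) ?_).trans Finset.card_le_two
    intro x hx
    simp only [Finset.mem_filter, Finset.mem_Icc] at hx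
    simp only [Finset.mem_insert, Finset.mem_singleton]
    omega) (fun x hx => by
    simp only [Finset.mem_Icc] at hx
    show (x - x').natAbs ≤ M
    omega) f hf
  simpa using this

/-! ### Sums over the edges of a rectangle -/

end Pool.Agent.H29.Kap

end

section

/-! # Exponential moments of the size of `R` -/

set_option autoImplicit false

namespace Pool.Agent.H29.Kap

open Pool.Agent.Perc

end Pool.Agent.H29.Kap

end

section

/-! # Duality for a single edge in a rectangle -/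

set_option autoImplicit false

namespace Pool.Agent.H29.Kap

end Pool.Agent.H29.Kap

end

section

/-! # Edges which matter outside `D` but not inside `D` have two arms in `D` -/

set_option autoImplicit false

namespace Pool.Agent.H29.Kap

end Pool.Agent.H29.Kap

end

section

/-! # A sum over tuples of edges, exponent `2/3` -/

set_option autoImplicit false

namespace Pool.Agent.H29.Kap

lemma tuplesum3_g_nonneg (M n : ℕ) : 0 ≤ tuplesum3_g M n := by
  unfold tuplesum3_g; positivity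

lemma tuplesum3_g_anti (M : ℕ) {m n : ℕ} (h : m ≤ n) : tuplesum3_g M n ≤ tuplesum3_g M m := by
  unfold tuplesum3_g
  refine Real.rpow_le_rpow (by positivity) ?_ (by norm_num)
  refine div_le_div_of_nonneg_left (by positivity) (by positivity) ?_
  exact max_le_max (by exact_mod_cast h) le_rfl

lemma tuplesum3_pow (n : ℕ) :
    ∑ k ∈ Finset.range n, ((k : ℝ) + 1) ^ (-(2 / 3) : ℝ) ≤ 3 * (n : ℝ) ^ (1 / 3 : ℝ) := by
  induction n with
  | zero => simp
  | succ n ih =>
    rw [Finset.sum_range_succ]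
    have hn : (0 : ℝ) ≤ n := Nat.cast_nonneg n
    have hn1 : (0 : ℝ) < (n : ℝ) + 1 := by positivity
    set u : ℝ := ((n : ℝ) + 1) ^ (1 / 3 : ℝ) with hu
    set v : ℝ := (n : ℝ) ^ (1 / 3 : ℝ) with hv
    have hu0 : 0 < u := Real.rpow_pos_of_pos hn1 _
    have hv0 : 0 ≤ v := Real.rpow_nonneg hn _
    have hu3 : u ^ 3 = (n : ℝ) + 1 := by
      rw [hu, ← Real.rpow_natCast, ← Real.rpow_mul hn1.le]
      norm_num
    have hv3 : v ^ 3 = (n : ℝ) := by
      rw [hv, ← Real.rpow_natCast, ← Real.rpow_mul hn]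
      norm_num
    have huv : v ≤ u := Real.rpow_le_rpow hn (by linarith only) (by norm_num)
    have hw : ((n : ℝ) + 1) ^ (-(2 / 3) : ℝ) = 1 / u ^ 2 := by
      rw [hu, ← Real.rpow_natCast, ← Real.rpow_mul hn1.le, Real.rpow_neg hn1.le]
      norm_num
    rw [hw]
    push_cast
    have h1 : 1 / u ^ 2 ≤ 3 * (u - v) := by
      rw [div_le_iff₀ (by positivity)]
      have h2 : (u - v) * (u ^ 2 + u * v + v ^ 2) = 1 := by
        have : (u - v) * (u ^ 2 + u * v + v ^ 2) = u ^ 3 - v ^ 3 := by ring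
        rw [this, hu3, hv3]; ring
      have h3 : u ^ 2 + u * v + v ^ 2 ≤ 3 * u ^ 2 := by nlinarith only [hu0, huv, hu3, hv3, hv0]
      have h4 : 0 ≤ u - v := by linarith only [huv]
      nlinarith only [hu3, hv3, h3, h4, mul_le_mul_of_nonneg_left h3 h4]
    linarith only [ih, h1]

lemma tuplesum3_sum {M : ℕ} (hM : 1 ≤ M) :
    ∑ n ∈ Finset.range (M + 1), tuplesum3_g M n ≤ 4 * (M : ℝ) := by
  have hM' : (1 : ℝ) ≤ M := by exact_mod_cast hM
  have hM0 : (0 : ℝ) < M := by linarith only [hM']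
  rw [Finset.sum_range_succ']
  have h0 : tuplesum3_g M 0 = (M : ℝ) ^ (2 / 3 : ℝ) := by
    unfold tuplesum3_g; norm_num
  have h1 : ∀ k ∈ Finset.range M, tuplesum3_g M (k + 1) =
      (M : ℝ) ^ (2 / 3 : ℝ) * ((k : ℝ) + 1) ^ (-(2 / 3) : ℝ) := by
    intro k _
    have hk : (0 : ℝ) ≤ k := Nat.cast_nonneg k
    unfold tuplesum3_g
    push_cast
    rw [max_eq_left (by linarith only), Real.div_rpow hM0.le (by linarith), Real.rpow_neg (by linarith),
      div_eq_mul_inv]
  rw [Finset.sum_congr rfl h1, ← Finset.mul_sum, h0]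
  have h2 := tuplesum3_pow M
  have hp : (0 : ℝ) < (M : ℝ) ^ (2 / 3 : ℝ) := Real.rpow_pos_of_pos hM0 _
  have h3 : (M : ℝ) ^ (2 / 3 : ℝ) * (M : ℝ) ^ (1 / 3 : ℝ) = M := by
    rw [← Real.rpow_add hM0]
    norm_num
  have h4 : (M : ℝ) ^ (2 / 3 : ℝ) ≤ M := by
    calc (M : ℝ) ^ (2 / 3 : ℝ) ≤ (M : ℝ) ^ (1 : ℝ) :=
          Real.rpow_le_rpow_of_exponent_le hM' (by norm_num)
      _ = M := Real.rpow_one _
  have h5 := mul_le_mul_of_nonneg_left h2 hp.le
  have h6 : (M : ℝ) ^ (2 / 3 : ℝ) * (3 * (M : ℝ) ^ (1 / 3 : ℝ)) = 3 * M := by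
    linarith only [h3]
  linarith only [h3, h4, h5]

end Pool.Agent.H29.Kap

end

section

/-!
# Pivotal edges and closed dual paths
-/

namespace Pool.Agent.H89.Perc

end Pool.Agent.H89.Perc

end

section

/-! # Two disjoint open arms and one closed dual arm on a line -/

set_option autoImplicit false

namespace Pool.Agent.H29.Kap

/-- The choice of `h`. -/
lemma threearms_min {P : ℤ → Prop} {a b : ℤ} (hab : a ≤ b) (ha : ¬ P a) (hb : P b) :
    ∃ h, a < h ∧ h ≤ b ∧ P h ∧ ¬ P (h - 1) := by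
  classical
  by_contra hno
  push Not at hno
  have key : ∀ n : ℕ, a ≤ b - n → P (b - n) := by
    intro n
    induction n with
    | zero => intro _; simpa using hb
    | succ n ih =>
      intro hn
      push_cast at hn ⊢
      have h1 := ih (by omega)
      have h2 := hno (b - n) (by omega) (by omega) h1
      rwa [show b - (n : ℤ) - 1 = b - (n + 1) by ring] at h2
  have := key (b - a).toNat (by omega)
  rw [Int.toNat_of_nonneg (by omega), sub_sub_cancel] at this
  exact ha this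

end Pool.Agent.H29.Kap

end

section

/-! # Second moment of the number of crossing clusters for `p ≤ 1/2` -/

set_option autoImplicit false

namespace Pool.Agent.H29.Kap

open Pool.Agent.Perc

theorem crossmom_sq (N : ℕ) : ∀ M : ℕ, N ≤ M →
    (N : ℝ) ^ 2 = ∑ k ∈ Finset.range M, (2 * (k : ℝ) + 1) * (if k + 1 ≤ N then 1 else 0) := by
  intro M hM
  have h1 : ∀ n : ℕ, ∑ k ∈ Finset.range n, (2 * (k : ℝ) + 1) = (n : ℝ) ^ 2 := by
    intro n
    induction n with
    | zero => simp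
    | succ n ih => rw [Finset.sum_range_succ, ih]; push_cast; ring
  rw [← h1 N]
  rw [← Finset.sum_subset (Finset.range_mono hM)]
  · refine Finset.sum_congr rfl fun k hk => ?_
    rw [if_pos (by have := Finset.mem_range.1 hk; omega), mul_one]
  · intro k _ hk
    rw [if_neg (by intro h; exact hk (Finset.mem_range.2 (by omega))), mul_zero]

end Pool.Agent.H29.Kap

end

section

/-! # Second differences of cluster counts are bounded by the number of crossing clusters -/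

set_option autoImplicit false

namespace Pool.Agent.H29.Kap

end Pool.Agent.H29.Kap

end

section

/-! # Stability of the set `R` under changes of an edge without open arm -/

set_option autoImplicit false

namespace Pool.Agent.H29.Kap

end Pool.Agent.H29.Kap

end

section

/-! # Stability of the set `R` under changes of an edge without closed dual arm -/

set_option autoImplicit false

namespace Pool.Agent.H29.Kap

end Pool.Agent.H29.Kap

end

section

/-! # Cluster counts: effect of one edge, locality, simple bounds -/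

set_option autoImplicit false

namespace Pool.Agent.H29.Kap

end Pool.Agent.H29.Kap

end

section

/-! # Tilting on a stable random set -/

set_option autoImplicit false

namespace Pool.Agent.H29.Kap

open Pool.Agent.Perc

variable {ι : Type*} [DecidableEq ι]

/-- Sign of an element. -/
def tiltSg (S : Finset ι) (e : ι) : ℝ := if e ∈ S then 1 else -1

theorem tilt_sg_sq (S : Finset ι) (e : ι) : tiltSg S e ^ 2 = 1 := by
  unfold tiltSg; split_ifs <;> norm_num

theorem tilt_mem_sflip (S : Finset ι) (g e : ι) :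
    e ∈ sflip S g ↔ (e ≠ g ∧ e ∈ S) ∨ (e = g ∧ e ∉ S) := by
  unfold sflip
  split_ifs with h
  · rw [Finset.mem_erase]
    constructor
    · rintro ⟨h1, h2⟩; exact Or.inl ⟨h1, h2⟩
    · rintro (⟨h1, h2⟩ | ⟨h1, h2⟩)
      · exact ⟨h1, h2⟩
      · exact absurd (h1 ▸ h) h2
  · rw [Finset.mem_insert]
    constructor
    · rintro (h1 | h1)
      · exact Or.inr ⟨h1, h1 ▸ h⟩
      · exact Or.inl ⟨fun h2 => h (h2 ▸ h1), h1⟩
    · rintro (⟨_, h2⟩ | ⟨h1, _⟩)
      · exact Or.inr h2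
      · exact Or.inl h1

theorem tilt_sflip_sflip (S : Finset ι) (g : ι) : sflip (sflip S g) g = S := by
  ext e
  rw [tilt_mem_sflip, tilt_mem_sflip]
  by_cases h : e = g
  · simp [h]
  · simp [h]

theorem tilt_sflip_subset {F S : Finset ι} {g : ι} (hS : S ⊆ F) (hg : g ∈ F) : sflip S g ⊆ F := by
  intro e he
  rw [tilt_mem_sflip] at he
  rcases he with ⟨_, h⟩ | ⟨h, _⟩
  · exact hS h
  · exact h ▸ hg

theorem tilt_sflip_ne (S : Finset ι) (g : ι) : sflip S g ≠ S := by
  intro h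
  have h1 : g ∈ sflip S g ↔ g ∈ S := by rw [h]
  rw [tilt_mem_sflip] at h1
  by_cases h' : g ∈ S <;> simp [h'] at h1

theorem tilt_sg_sflip_self (S : Finset ι) (g : ι) : tiltSg (sflip S g) g = - tiltSg S g := by
  unfold tiltSg
  by_cases h : g ∈ S
  · rw [if_pos h, if_neg]
    rw [tilt_mem_sflip]; simp [h]
  · rw [if_neg h, if_pos, neg_neg]
    rw [tilt_mem_sflip]; simp [h]

theorem tilt_sg_sflip_of_ne (S : Finset ι) {g e : ι} (he : e ≠ g) :
    tiltSg (sflip S g) e = tiltSg S e := by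
  unfold tiltSg
  have : e ∈ sflip S g ↔ e ∈ S := by rw [tilt_mem_sflip]; simp [he]
  simp only [this]

theorem tilt_prod_sflip (S A : Finset ι) {g : ι} (hg : g ∈ A) :
    ∏ e ∈ A, tiltSg (sflip S g) e = - ∏ e ∈ A, tiltSg S e := by
  rw [← Finset.mul_prod_erase _ _ hg, ← Finset.mul_prod_erase A (fun e => tiltSg S e) hg,
    tilt_sg_sflip_self, neg_mul]
  congr 2
  refine Finset.prod_congr rfl fun e he => ?_
  exact tilt_sg_sflip_of_ne S (Finset.ne_of_mem_erase he)

theorem tilt_Ex_half (F : Finset ι) (f : Finset ι → ℝ) :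
    Ex (1 / 2) F f = (1 / 2) ^ F.card * ∑ S ∈ F.powerset, f S := by
  unfold Ex
  rw [Finset.mul_sum]
  refine Finset.sum_congr rfl fun S hS => ?_
  have hS' := Finset.mem_powerset.1 hS
  have h1 : F.card = S.card + (F \ S).card := by
    rw [Finset.card_sdiff_of_subset hS']
    have := Finset.card_le_card hS'
    omega
  rw [h1, pow_add]
  norm_num

/-- Terms with `A` not inside `R S` cancel. -/
theorem tilt_cancel (F : Finset ι) (f : Finset ι → ℝ) (R : Finset ι → Finset ι)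
    (hstab : ∀ S, S ⊆ F → ∀ g ∈ F, g ∉ R S → R (sflip S g) = R S)
    (hf : ∀ S, S ⊆ F → ∀ g ∈ F, g ∉ R S → f (sflip S g) = f S) {A : Finset ι} (hA : A ⊆ F) :
    ∑ S ∈ F.powerset, f S * ∏ e ∈ A, tiltSg S e =
      ∑ S ∈ F.powerset with A ⊆ R S, f S * ∏ e ∈ A, tiltSg S e := by
  classical
  rw [← Finset.sum_filter_add_sum_filter_not F.powerset (fun S => A ⊆ R S)]
  suffices h : ∑ S ∈ F.powerset with ¬ A ⊆ R S, f S * ∏ e ∈ A, tiltSg S e = 0 by
    rw [h, add_zero]
  have hne : ∀ S ∈ F.powerset.filter (fun S => ¬ A ⊆ R S), (A \ R S).Nonempty := by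
    intro S hS
    have h1 := (Finset.mem_filter.1 hS).2
    rwa [Finset.sdiff_nonempty]
  let ch : Finset ι → ι → ι := fun T d => if h : T.Nonempty then h.choose else d
  have hch : ∀ S ∈ F.powerset.filter (fun S => ¬ A ⊆ R S), ∀ d, ch (A \ R S) d ∈ A \ R S := by
    intro S hS d
    have h1 := hne S hS
    simp only [ch, dif_pos h1]
    exact h1.choose_spec
  refine Finset.sum_involution
    (fun S hS => sflip S (ch (A \ R S) (hne S hS).choose)) ?_ ?_ ?_ ?_
  · intro S hS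
    have h1 := hch S hS (hne S hS).choose
    rw [Finset.mem_sdiff] at h1
    have h2 : S ⊆ F := Finset.mem_powerset.1 (Finset.mem_filter.1 hS).1
    rw [hf S h2 _ (hA h1.1) h1.2, tilt_prod_sflip S A h1.1]
    ring
  · intro S hS _
    exact tilt_sflip_ne _ _
  · intro S hS
    have h1 := hch S hS (hne S hS).choose
    rw [Finset.mem_sdiff] at h1
    have h2 : S ⊆ F := Finset.mem_powerset.1 (Finset.mem_filter.1 hS).1
    rw [Finset.mem_filter, Finset.mem_powerset]
    refine ⟨tilt_sflip_subset h2 (hA h1.1), ?_⟩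
    rw [hstab S h2 _ (hA h1.1) h1.2]
    exact (Finset.mem_filter.1 hS).2
  · intro S hS
    have h1 := hch S hS (hne S hS).choose
    rw [Finset.mem_sdiff] at h1
    have h2 : S ⊆ F := Finset.mem_powerset.1 (Finset.mem_filter.1 hS).1
    have h3 := hstab S h2 _ (hA h1.1) h1.2
    have h4 : ∀ d d', ch (A \ R S) d = ch (A \ R S) d' := by
      intro d d'
      simp only [ch, dif_pos (hne S hS)]
    have h5 : ∀ d, sflip (sflip S (ch (A \ R S) (hne S hS).choose))
        (ch (A \ R (sflip S (ch (A \ R S) (hne S hS).choose))) d) = S := by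
      intro d
      rw [h3, h4 d (hne S hS).choose]
      exact tilt_sflip_sflip _ _
    exact h5 _

/-- The generating polynomial at a complex point. -/
theorem tilt_key (F : Finset ι) (f : Finset ι → ℝ) (R : Finset ι → Finset ι)
    (hR : ∀ S, S ⊆ F → R S ⊆ F)
    (hstab : ∀ S, S ⊆ F → ∀ g ∈ F, g ∉ R S → R (sflip S g) = R S)
    (hf : ∀ S, S ⊆ F → ∀ g ∈ F, g ∉ R S → f (sflip S g) = f S) (z : ℂ) :
    ∑ A ∈ F.powerset, ((Ex (1 / 2) F (fun S => f S * ∏ e ∈ A, tiltSg S e) : ℝ) : ℂ) * z ^ A.card =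
      (1 / 2 : ℂ) ^ F.card * ∑ S ∈ F.powerset, (f S : ℂ) * ∏ e ∈ R S, (1 + z * (tiltSg S e : ℂ)) := by
  classical
  have h1 : ∀ A ∈ F.powerset,
      ((Ex (1 / 2) F (fun S => f S * ∏ e ∈ A, tiltSg S e) : ℝ) : ℂ) * z ^ A.card =
      (1 / 2 : ℂ) ^ F.card * ∑ S ∈ F.powerset, (if A ⊆ R S then
        (f S : ℂ) * ∏ e ∈ A, (z * (tiltSg S e : ℂ)) else 0) := by
    intro A hA
    rw [tilt_Ex_half, tilt_cancel F f R hstab hf (Finset.mem_powerset.1 hA), Finset.sum_filter]
    push_cast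
    rw [mul_assoc, Finset.sum_mul]
    congr 1
    refine Finset.sum_congr rfl fun S _ => ?_
    split_ifs
    · push_cast
      rw [Finset.prod_mul_distrib, Finset.prod_const]
      ring
    · simp
  rw [Finset.sum_congr rfl h1, ← Finset.mul_sum, Finset.sum_comm]
  congr 1
  refine Finset.sum_congr rfl fun S hS => ?_
  have hS' := hR S (Finset.mem_powerset.1 hS)
  rw [Finset.prod_one_add, Finset.mul_sum, ← Finset.sum_filter]
  refine Finset.sum_congr ?_ fun _ _ => rfl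
  ext A
  simp only [Finset.mem_filter, Finset.mem_powerset]
  exact ⟨fun h => h.2, fun h => ⟨h.trans hS', h⟩⟩

theorem tilt_expand (p : ℝ) (F : Finset ι) (f : Finset ι → ℝ) :
    Ex p F f = ∑ A ∈ F.powerset,
      Ex (1 / 2) F (fun S => f S * ∏ e ∈ A, tiltSg S e) * (2 * p - 1) ^ A.card := by
  have h1 : ∀ A ∈ F.powerset, Ex (1 / 2) F (fun S => f S * ∏ e ∈ A, tiltSg S e) *
      (2 * p - 1) ^ A.card = (1 / 2) ^ F.card * ∑ S ∈ F.powerset, f S *
        ∏ e ∈ A, ((2 * p - 1) * tiltSg S e) := by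
    intro A _
    rw [tilt_Ex_half, mul_assoc, Finset.sum_mul]
    congr 1
    refine Finset.sum_congr rfl fun S _ => ?_
    rw [Finset.prod_mul_distrib, Finset.prod_const]
    ring
  rw [Finset.sum_congr rfl h1, ← Finset.mul_sum, Finset.sum_comm]
  unfold Ex
  rw [Finset.mul_sum]
  refine Finset.sum_congr rfl fun S hS => ?_
  have hS' := Finset.mem_powerset.1 hS
  rw [← Finset.mul_sum, ← Finset.prod_one_add, ← Finset.prod_sdiff hS']
  have h2 : ∏ e ∈ F \ S, (1 + (2 * p - 1) * tiltSg S e) = (2 * (1 - p)) ^ (F \ S).card := by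
    rw [← Finset.prod_const]
    refine Finset.prod_congr rfl fun e he => ?_
    rw [tiltSg, if_neg (Finset.mem_sdiff.1 he).2]
    ring
  have h3 : ∏ e ∈ S, (1 + (2 * p - 1) * tiltSg S e) = (2 * p) ^ S.card := by
    rw [← Finset.prod_const]
    refine Finset.prod_congr rfl fun e he => ?_
    rw [tiltSg, if_pos he]
    ring
  have h4 : F.card = S.card + (F \ S).card := by
    rw [Finset.card_sdiff_of_subset hS']
    have := Finset.card_le_card hS'
    omega
  rw [h2, h3, h4, mul_pow, mul_pow, pow_add]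
  have h5 : (1 / 2 : ℝ) ^ S.card * 2 ^ S.card = 1 := by
    rw [← mul_pow]; norm_num
  have h6 : (1 / 2 : ℝ) ^ (F \ S).card * 2 ^ (F \ S).card = 1 := by
    rw [← mul_pow]; norm_num
  calc p ^ S.card * (1 - p) ^ (F \ S).card * f S
      = ((1 / 2 : ℝ) ^ S.card * 2 ^ S.card) * ((1 / 2 : ℝ) ^ (F \ S).card * 2 ^ (F \ S).card) *
        (p ^ S.card * (1 - p) ^ (F \ S).card * f S) := by rw [h5, h6]; ring
    _ = _ := by ring

theorem tilt_iter_deriv (q : Polynomial ℂ) (j : ℕ) :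
    deriv^[j] (fun z : ℂ => q.eval z) = fun z => (Polynomial.derivative^[j] q).eval z := by
  induction j generalizing q with
  | zero => rfl
  | succ j ih =>
    rw [Function.iterate_succ_apply, Function.iterate_succ_apply]
    have h1 : deriv (fun z : ℂ => q.eval z) = fun z => (Polynomial.derivative q).eval z := by
      ext z; exact q.deriv
    rw [h1, ih]

/-- Cauchy's estimate for the coefficients of a polynomial. -/
theorem tilt_cauchy (n : ℕ) (y : ℕ → ℂ) (r C : ℝ) (hr : 0 < r)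
    (h : ∀ z : ℂ, ‖z‖ = r → ‖∑ i ∈ Finset.range n, y i * z ^ i‖ ≤ C) (j : ℕ) (hj : j < n) :
    ‖y j‖ * r ^ j ≤ C := by
  let q : Polynomial ℂ := ∑ i ∈ Finset.range n, Polynomial.C (y i) * Polynomial.X ^ i
  have hq : ∀ z, q.eval z = ∑ i ∈ Finset.range n, y i * z ^ i := by
    intro z
    simp [q, Polynomial.eval_finsetSum]
  have hc : q.coeff j = y j := by
    simp only [q, Polynomial.finsetSum_coeff, Polynomial.coeff_C_mul, Polynomial.coeff_X_pow]
    rw [Finset.sum_eq_single j]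
    · simp
    · intro b _ hb; simp [Ne.symm hb]
    · intro hb; exact absurd (Finset.mem_range.2 hj) hb
  have h1 := Complex.norm_iteratedDeriv_le_of_forall_mem_sphere_norm_le (c := (0 : ℂ)) (R := r)
    (C := C) (f := fun z : ℂ => q.eval z) j hr
    (Differentiable.diffContOnCl (by
      have := q.differentiable
      exact this))
    (by
      intro z hz
      rw [mem_sphere_zero_iff_norm] at hz
      simp only [hq z]
      exact h z hz)
  rw [iteratedDeriv_eq_iterate, tilt_iter_deriv] at h1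
  simp only at h1
  rw [← Polynomial.coeff_zero_eq_eval_zero, Polynomial.coeff_iterate_derivative, zero_add, hc,
    Nat.descFactorial_self, nsmul_eq_mul, norm_mul, Complex.norm_natCast] at h1
  have h2 : (0 : ℝ) < (j.factorial : ℝ) := by exact_mod_cast j.factorial_pos
  have h3 : 0 < r ^ j := pow_pos hr j
  rw [le_div_iff₀ h3, mul_assoc] at h1
  exact le_of_mul_le_mul_left h1 h2

theorem tilt_bound (F : Finset ι) (f : Finset ι → ℝ) (R : Finset ι → Finset ι)
    (hR : ∀ S, S ⊆ F → R S ⊆ F)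
    (hstab : ∀ S, S ⊆ F → ∀ g ∈ F, g ∉ R S → R (sflip S g) = R S)
    (r : ℝ) (hr : 0 ≤ r) (hr1 : r ≤ 1) (z : ℂ) (hz : ‖z‖ = r) :
    ‖(1 / 2 : ℂ) ^ F.card * ∑ S ∈ F.powerset, (f S : ℂ) * ∏ e ∈ R S, (1 + z * (tiltSg S e : ℂ))‖ ≤
      Real.sqrt (Ex (1 / 2) F (fun S => f S ^ 2)) *
          (Ex (1 / 2) F (fun S => (1 + 19 * r ^ 2) ^ (R S).card)) ^ (1 / 4 : ℝ) := by
  classical
  set W : Finset ι → ℝ := fun S => ∏ e ∈ R S, ‖1 + z * (tiltSg S e : ℂ)‖ with hW
  set a : ℝ := 1 + r ^ 2 with ha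
  set u : ℝ := 2 * z.re with hu
  have ha0 : 0 < a := by positivity
  set b : ℝ := a ^ 2 + u ^ 2 with hb
  have hb0 : 0 < b := by positivity
  have hu2 : u ^ 2 ≤ 4 * r ^ 2 := by
    have h1 : z.re ^ 2 ≤ ‖z‖ ^ 2 := by
      rw [← Complex.normSq_eq_norm_sq, Complex.normSq_apply]
      nlinarith only [mul_self_nonneg z.im]
    rw [hz] at h1
    rw [hu]; nlinarith only [h1]
  have hr2 : r ^ 2 ≤ 1 := by nlinarith only [hr1, hr]
  have hb1 : b ≤ 1 + 19 * r ^ 2 := by
    rw [hb, ha]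
    nlinarith only [hu2, hr2, sq_nonneg r, mul_nonneg (sq_nonneg r) (sub_nonneg.2 hr2)]
  -- norm bound
  have h1 : ‖(1 / 2 : ℂ) ^ F.card * ∑ S ∈ F.powerset, (f S : ℂ) *
      ∏ e ∈ R S, (1 + z * (tiltSg S e : ℂ))‖ ≤ Ex (1 / 2) F (fun S => |f S| * W S) := by
    rw [tilt_Ex_half, norm_mul]
    have h2 : ‖(1 / 2 : ℂ) ^ F.card‖ = (1 / 2) ^ F.card := by
      rw [norm_pow]; norm_num
    rw [h2]
    refine mul_le_mul_of_nonneg_left ?_ (by positivity)
    refine (norm_sum_le _ _).trans (Finset.sum_le_sum fun S _ => ?_)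
    rw [norm_mul, norm_prod, Complex.norm_real, Real.norm_eq_abs]
  have hW2 : ∀ S, W S ^ 2 = ∏ e ∈ R S, (a + u * tiltSg S e) := by
    intro S
    rw [hW]
    simp only
    rw [← Finset.prod_pow]
    refine Finset.prod_congr rfl fun e _ => ?_
    rw [← Complex.normSq_eq_norm_sq, Complex.normSq_apply]
    simp only [Complex.add_re, Complex.one_re, Complex.mul_re, Complex.ofReal_re,
      Complex.ofReal_im, mul_zero, sub_zero, Complex.add_im, Complex.one_im, Complex.mul_im,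
      zero_add]
    have h2 : z.re ^ 2 + z.im ^ 2 = r ^ 2 := by
      rw [← hz, ← Complex.normSq_eq_norm_sq, Complex.normSq_apply]; ring
    have h3 := tilt_sg_sq S e
    have h4 : (z.re * tiltSg S e) * (z.re * tiltSg S e) = z.re ^ 2 := by
      calc (z.re * tiltSg S e) * (z.re * tiltSg S e) = z.re ^ 2 * tiltSg S e ^ 2 := by ring
        _ = _ := by rw [h3, mul_one]
    have h5 : (z.im * tiltSg S e) * (z.im * tiltSg S e) = z.im ^ 2 := by
      calc (z.im * tiltSg S e) * (z.im * tiltSg S e) = z.im ^ 2 * tiltSg S e ^ 2 := by ring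
        _ = _ := by rw [h3, mul_one]
    rw [ha, hu, ← h2]
    nlinarith only [h4, h5]
  have hone : ∀ t : ℝ, Ex (1 / 2) F (fun S => ∏ e ∈ R S, (1 + t * tiltSg S e)) = 1 := by
    intro t
    have h2 := tilt_key F (fun _ => 1) R hR hstab (fun _ _ _ _ _ => rfl) (t : ℂ)
    have h3 := tilt_expand ((1 + t) / 2) F (fun _ => (1 : ℝ))
    rw [Ex_const] at h3
    have h4 : 2 * ((1 + t) / 2) - 1 = t := by ring
    rw [h4] at h3
    have h5 : ((1 : ℝ) : ℂ) = (1 / 2 : ℂ) ^ F.card * ∑ S ∈ F.powerset, ((1 : ℝ) : ℂ) *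
        ∏ e ∈ R S, (1 + (t : ℂ) * (tiltSg S e : ℂ)) := by
      rw [← h2]
      have h3' := congrArg (fun x : ℝ => (x : ℂ)) h3
      rw [h3']
      push_cast
      rfl
    rw [tilt_Ex_half]
    have h6 : (((1 / 2) ^ F.card * ∑ S ∈ F.powerset, ∏ e ∈ R S, (1 + t * tiltSg S e) : ℝ) : ℂ) =
        ((1 : ℝ) : ℂ) := by
      rw [h5]
      push_cast
      simp
    exact_mod_cast h6
  set sb : ℝ := Real.sqrt b with hsb
  have hsb0 : 0 < sb := Real.sqrt_pos.2 hb0
  have hsb2 : sb ^ 2 = b := Real.sq_sqrt hb0.le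
  have h7 := Ex_mul_sq_le (p := 1 / 2) (by norm_num) (by norm_num) F
    (fun S => sb ^ (R S).card) (fun S => W S ^ 2 * (1 / sb) ^ (R S).card)
  have h8 : (fun S => sb ^ (R S).card * (W S ^ 2 * (1 / sb) ^ (R S).card)) = fun S => W S ^ 2 := by
    funext S
    calc sb ^ (R S).card * (W S ^ 2 * (1 / sb) ^ (R S).card)
        = W S ^ 2 * (sb * (1 / sb)) ^ (R S).card := by rw [mul_pow]; ring
      _ = W S ^ 2 := by rw [mul_one_div_cancel hsb0.ne', one_pow, mul_one]
  have h9 : (fun S => (sb ^ (R S).card) ^ 2) = fun S => b ^ (R S).card := by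
    funext S
    rw [← pow_mul, mul_comm, pow_mul, hsb2]
  have h10 : (fun S => (W S ^ 2 * (1 / sb) ^ (R S).card) ^ 2) =
      fun S => ∏ e ∈ R S, (1 + (2 * a * u / b) * tiltSg S e) := by
    funext S
    rw [mul_pow, hW2 S, ← Finset.prod_pow, ← pow_mul, mul_comm (R S).card 2, pow_mul,
      ← Finset.prod_const, ← Finset.prod_mul_distrib]
    refine Finset.prod_congr rfl fun e _ => ?_
    have h11 := tilt_sg_sq S e
    have h12 : (1 / sb) ^ 2 = 1 / b := by rw [div_pow, hsb2, one_pow]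
    rw [h12]
    field_simp
    rw [hb]
    calc (a + u * tiltSg S e) ^ 2 = a ^ 2 + u ^ 2 * tiltSg S e ^ 2 + 2 * a * u * tiltSg S e := by ring
      _ = _ := by rw [h11]; ring
  rw [h8, h9, h10, hone, mul_one] at h7
  -- E W^2 squared bound
  set E3 : ℝ := Ex (1 / 2) F (fun S => (1 + 19 * r ^ 2) ^ (R S).card) with hE3
  have h13 : Ex (1 / 2) F (fun S => b ^ (R S).card) ≤ E3 := by
    refine Ex_mono (by norm_num) (by norm_num) fun S _ => ?_
    exact pow_le_pow_left₀ hb0.le hb1 _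
  have hE30 : 0 ≤ E3 := Ex_nonneg (by norm_num) (by norm_num) fun S _ => by positivity
  have h14 := Ex_mul_sq_le (p := 1 / 2) (by norm_num) (by norm_num) F (fun S => |f S|) W
  simp only [sq_abs] at h14
  set E1 : ℝ := Ex (1 / 2) F (fun S => f S ^ 2) with hE1
  set E2 : ℝ := Ex (1 / 2) F (fun S => W S ^ 2) with hE2
  have hE10 : 0 ≤ E1 := Ex_nonneg (by norm_num) (by norm_num) fun S _ => by positivity
  have hE20 : 0 ≤ E2 := Ex_nonneg (by norm_num) (by norm_num) fun S _ => by positivity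
  have h15 : E2 ^ 2 ≤ E3 := h7.trans h13
  set Q : ℝ := E3 ^ (1 / 4 : ℝ) with hQ
  have hQ0 : 0 ≤ Q := Real.rpow_nonneg hE30 _
  have hQ4 : Q ^ 4 = E3 := by
    rw [hQ, ← Real.rpow_natCast, ← Real.rpow_mul hE30]
    norm_num
  have h16 : E2 ≤ Q ^ 2 := by
    have : E2 ^ 2 ≤ (Q ^ 2) ^ 2 := by rw [← pow_mul]; rw [hQ4]; exact h15
    exact le_of_sq_le_sq this (by positivity)
  have hX0 : 0 ≤ Ex (1 / 2) F (fun S => |f S| * W S) :=
    Ex_nonneg (by norm_num) (by norm_num) fun S _ =>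
      mul_nonneg (abs_nonneg _) (Finset.prod_nonneg fun _ _ => norm_nonneg _)
  refine h1.trans ?_
  have h17 : (Ex (1 / 2) F (fun S => |f S| * W S)) ^ 2 ≤ (Real.sqrt E1 * Q) ^ 2 := by
    rw [mul_pow, Real.sq_sqrt hE10]
    exact h14.trans (mul_le_mul_of_nonneg_left h16 hE10)
  exact le_of_sq_le_sq h17 (mul_nonneg (Real.sqrt_nonneg _) hQ0)

/-- Let `R` be a random subset which is stable (it does not change when an element outside `R` is
flipped) and let `f` not change when an element outside `R` is flipped. Then the coefficients of the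
polynomial `E_p f` in the variable `z = 2p - 1` are controlled by exponential moments of `R` at
density `1/2`. -/
theorem tilt (F : Finset ι) (f : Finset ι → ℝ) (R : Finset ι → Finset ι)
    (hR : ∀ S, S ⊆ F → R S ⊆ F)
    (hstab : ∀ S, S ⊆ F → ∀ g ∈ F, g ∉ R S → R (sflip S g) = R S)
    (hf : ∀ S, S ⊆ F → ∀ g ∈ F, g ∉ R S → f (sflip S g) = f S) :
    ∃ y : ℕ → ℝ, (∀ p : ℝ, Ex p F f = ∑ j ∈ Finset.range (F.card + 1), y j * (2 * p - 1) ^ j) ∧
      (∀ j, F.card < j → y j = 0) ∧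
      ∀ r : ℝ, 0 ≤ r → r ≤ 1 → ∀ j, |y j| * r ^ j ≤
        Real.sqrt (Ex (1 / 2) F (fun S => f S ^ 2)) *
          (Ex (1 / 2) F (fun S => (1 + 19 * r ^ 2) ^ (R S).card)) ^ (1 / 4 : ℝ) := by
  classical
  set c : Finset ι → ℝ := fun A => Ex (1 / 2) F (fun S => f S * ∏ e ∈ A, tiltSg S e) with hc
  refine ⟨fun j => ∑ A ∈ F.powersetCard j, c A, ?_, ?_, ?_⟩
  · intro p
    rw [tilt_expand, Finset.sum_powerset]
    refine Finset.sum_congr rfl fun j _ => ?_
    rw [Finset.sum_mul]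
    refine Finset.sum_congr rfl fun A hA => ?_
    rw [(Finset.mem_powersetCard.1 hA).2]
  · intro j hj
    simp only
    rw [Finset.powersetCard_eq_empty.2 hj, Finset.sum_empty]
  · intro r hr hr1 j
    set Y : ℕ → ℝ := fun j => ∑ A ∈ F.powersetCard j, c A with hY
    change |Y j| * r ^ j ≤ _
    have hRHS : 0 ≤ Real.sqrt (Ex (1 / 2) F (fun S => f S ^ 2)) *
          (Ex (1 / 2) F (fun S => (1 + 19 * r ^ 2) ^ (R S).card)) ^ (1 / 4 : ℝ) := by
      refine mul_nonneg (Real.sqrt_nonneg _) (Real.rpow_nonneg ?_ _)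
      exact Ex_nonneg (by norm_num) (by norm_num) fun S _ => by positivity
    have hP : ∀ z : ℂ, ‖z‖ = r → ‖∑ i ∈ Finset.range (F.card + 1), (Y i : ℂ) * z ^ i‖ ≤
        Real.sqrt (Ex (1 / 2) F (fun S => f S ^ 2)) *
          (Ex (1 / 2) F (fun S => (1 + 19 * r ^ 2) ^ (R S).card)) ^ (1 / 4 : ℝ) := by
      intro z hz
      have h1 : ∑ i ∈ Finset.range (F.card + 1), (Y i : ℂ) * z ^ i =
          ∑ A ∈ F.powerset, ((c A : ℝ) : ℂ) * z ^ A.card := by
        rw [Finset.sum_powerset]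
        refine Finset.sum_congr rfl fun i _ => ?_
        rw [hY]
        push_cast
        rw [Finset.sum_mul]
        refine Finset.sum_congr rfl fun A hA => ?_
        rw [(Finset.mem_powersetCard.1 hA).2]
      rw [h1, hc]
      simp only
      rw [tilt_key F f R hR hstab hf z]
      exact tilt_bound F f R hR hstab r hr hr1 z hz
    by_cases hj : j < F.card + 1
    · rcases hr.eq_or_lt with h0 | h0
      · rcases Nat.eq_zero_or_pos j with hj0 | hj0
        · have h2 := hP 0 (by rw [norm_zero, h0])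
          rw [Finset.sum_range_succ'] at h2
          simp only [pow_succ, mul_zero, Finset.sum_const_zero, pow_zero, mul_one, zero_add,
            Complex.norm_real, Real.norm_eq_abs] at h2
          rw [hj0, pow_zero, mul_one]
          exact h2
        · have h2 : |Y j| * r ^ j = 0 := by rw [← h0, zero_pow hj0.ne', mul_zero]
          rw [h2]
          exact hRHS
      · have h2 := tilt_cauchy (F.card + 1) (fun i => (Y i : ℂ)) r _ h0 hP j hj
        simpa using h2
    · have h2 : Y j = 0 := by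
        rw [hY]; simp only
        rw [Finset.powersetCard_eq_empty.2 (by omega), Finset.sum_empty]
      rw [h2, abs_zero, zero_mul]
      exact hRHS

end Pool.Agent.H29.Kap

end

section

/-! # The second difference `X` does not change when an edge outside `R` is flipped -/

set_option autoImplicit false

namespace Pool.Agent.H29.Kap

end Pool.Agent.H29.Kap

end

section

/-! # Expected cluster counts: invariance and limit -/

set_option autoImplicit false

namespace Pool.Agent.H29.Kap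

open Pool.Agent.Perc

end Pool.Agent.H29.Kap

end

section

/-! # Euler's formula for the clusters of a rectangle -/

set_option autoImplicit false

namespace Pool.Agent.H29.Kap

end Pool.Agent.H29.Kap

end

section

/-! # Euler's formula for the expected number of clusters and duality of the cluster density -/

set_option autoImplicit false

namespace Pool.Agent.H29.Kap

open Pool.Agent.Perc

end Pool.Agent.H29.Kap

end

section

/-! # Uniform control of the expected second differences -/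

set_option autoImplicit false

namespace Pool.Agent.H29.Kap

open Pool.Agent.Perc

end Pool.Agent.H29.Kap

end

section

/-! # Comparison of one-arm probabilities at different scales -/

set_option autoImplicit false

namespace Pool.Agent.H29.Kap

end Pool.Agent.H29.Kap

end

section

/-!
# The probability that the endpoints of an edge are connected off the edge: definitions
-/

open MeasureTheory ProbabilityTheory unitInterval

namespace Pool.Agent.H31.AL

end Pool.Agent.H31.AL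

end
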