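import Pool.Agent.H94.BG.H31.PT.M02_1
import Pool.Agent.H94.BG.H31.PT.M03_2
import Pool.Agent.H94.BG.H31.PT.M38_1
import Pool.Agent.H94.BG.H31.PT.M38_5
import Pool.Agent.H94.BG.M02
import Pool.Agent.H94.BG.M14

/-! The parts of this file: H29.Kap.Analysis, H29.Kap.Rem, H29.Kap.Analysis3, H29.Kap.DerivBound, H29.Kap.TupleSum, H29.Kap.ExpMom, H29.Kap.EdgeDuality, H29.Kap.Pivot, H29.Kap.TupleSum3, H89.Perc.EdgeDual, H29.Kap.ThreeArms, H29.Kap.CrossMom, H29.Kap.SecondDiff, H29.Kap.StabA, H29.Kap.StabB, H29.Kap.Count, H29.Kap.Tilt, H29.Kap.Sens, H29.Kap.Invar, H29.Kap.Euler, H29.Kap.EulerExp, H29.Kap.Geo, H29.Kap.ArmRatio, H31.AL.Defs. -/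

section

/-! # Analysis of the scale decomposition -/

set_option autoImplicit false

namespace Pool.Agent.H29.Kap

end Pool.Agent.H29.Kap

end

section

/-! # The remainder of the second order expansion at `1/2` -/

set_option autoImplicit false

namespace Pool.Agent.H29.Kap

end Pool.Agent.H29.Kap

end

section

/-! # Analysis of the scale decomposition, without logarithms -/

set_option autoImplicit false

namespace Pool.Agent.H29.Kap

open Filter Topology in
theorem analysis3_aux (π : ℕ → ℝ) (hπ0 : ∀ n, 0 < π n) (hπ1 : ∀ n, π n ≤ 1)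
    (C₁ : ℝ) (h1 : ∀ m n : ℕ, 1 ≤ m → m ≤ n → π m ≤ C₁ * ((n : ℝ) / m) ^ (1 / 3 : ℝ) * π n)
    (C₂ a₀ : ℝ) (ha₀ : 0 < a₀)
    (h2 : ∀ m n : ℕ, 1 ≤ m → m ≤ n → π n ≤ C₂ * ((m : ℝ) / n) ^ a₀ * π m)
    (Y : ℕ → ℝ → ℝ) (y : ℕ → ℕ → ℝ) (D : ℕ → ℕ)
    (hY : ∀ k p, Y k p = ∑ j ∈ Finset.range (D k), y k j * (2 * p - 1) ^ j)
    (hyD : ∀ k j, D k ≤ j → y k j = 0)
    (C c₀ : ℝ) (hc₀ : 0 < c₀)
    (hy : ∀ (k : ℕ) (r : ℝ), 0 ≤ r → r ≤ 1 →
      r ^ 2 * (4 ^ k * π (2 ^ k) ^ 2) ≤ c₀ → ∀ j, |y k j| * r ^ j ≤ C)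
    (hYb : ∀ (k : ℕ) (p : ℝ), 0 ≤ p → p ≤ 1 → |Y k p| ≤ C)
    (hYd : ∀ (k : ℕ) (p : ℝ), 1 / 4 ≤ p → p ≤ 3 / 4 → |deriv (Y k) p| ≤ C * 2 ^ k)
    (G : ℝ → ℝ) (g : ℕ → ℝ) (m : ℕ)
    (hG : ∀ p, G p = ∑ j ∈ Finset.range m, g j * (2 * p - 1) ^ j)
    (κ : ℝ → ℝ)
    (hκ : ∀ p : ℝ, 0 ≤ p → p ≤ 1 → HasSum (fun k => Y k p / 4 ^ (k + 1)) (κ p - G p))
    (hdual : ∀ p : ℝ, 0 ≤ p → p ≤ 1 → κ p = κ (1 - p) + 1 - 2 * p) :
    (∀ p : ℝ, 1 / 4 < p → p < 3 / 4 → DifferentiableAt ℝ κ p) ∧
    DifferentiableAt ℝ (deriv κ) (1 / 2) ∧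
    ∃ C' : ℝ, ∀ p : ℝ, 0 ≤ p → p ≤ 1 → ∀ N : ℕ, 1 ≤ N →
      |p - 1 / 2| * N * π N ≤ 1 → |Rem κ p| ≤ C' / (N : ℝ) ^ 2 := by
  have hC1 := analysis3_C1_pos hπ0 h1
  have hc1 : 0 < (π 1 / C₁) ^ 2 := by
    have := hπ0 1
    positivity
  obtain ⟨r, C₃, hC₃, hr⟩ := analysis3_r hc1 (analysis3_A_ge hπ0 h1) hc₀
  have hr0 : ∀ k, 0 < r k := fun k => (hr k).1
  have hYk : ∀ k, Y k = analysis_P (y k) (D k) := by
    intro k
    funext p
    exact hY k p
  have hC : ∀ k j, |y k j| * r k ^ j ≤ C := fun k j =>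
    hy k (r k) (hr0 k).le (hr k).2.1 (hr k).2.2.1 j
  have hC0 : 0 ≤ C := le_trans (mul_nonneg (abs_nonneg _) (pow_nonneg (hr0 0).le 0)) (hC 0 0)
  have hd : ∀ (k : ℕ) (p : ℝ), 1 / 4 ≤ p → p ≤ 3 / 4 → |analysis_d (y k) (D k) p| ≤ C * 2 ^ k := by
    intro k p hp1 hp2
    have h3 := hYd k p hp1 hp2
    rwa [hYk k, (analysis_P_hasDeriv (y k) (D k) p).deriv] at h3
  have hl2 := analysis_log2_pos
  obtain ⟨hs1, hs2⟩ := analysis_summables (C₃ := C₃ * (1 / Real.log 2)) hπ0 hπ1 ha₀ h2
    (by positivity) hr0 (fun k => by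
      refine (hr k).2.2.2.trans ?_
      rw [mul_assoc]
      exact mul_le_mul_of_nonneg_left (analysis3_A_le k) hC₃.le)
  have hκ' : ∀ p : ℝ, 0 ≤ p → p ≤ 1 →
      HasSum (fun k => analysis_P (y k) (D k) p / 4 ^ (k + 1)) (κ p - G p) := by
    intro p hp0 hp1
    have h3 := hκ p hp0 hp1
    simp only [hYk] at h3
    exact h3
  have hs : Summable fun k => analysis_P (y k) (D k) (1 / 2) / 4 ^ (k + 1) :=
    (hκ' (1 / 2) (by norm_num) (by norm_num)).summable
  -- the polynomial `G`
  set g' : ℕ → ℝ := fun j => if j < m then g j else 0 with hg'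
  have hg'm : ∀ j, m ≤ j → g' j = 0 := by
    intro j hj
    rw [hg']
    exact if_neg (by omega)
  have hGP : G = analysis_P g' m := by
    funext p
    rw [hG p]
    unfold analysis_P
    apply Finset.sum_congr rfl
    intro j hj
    rw [Finset.mem_range] at hj
    rw [hg']
    simp only
    rw [if_pos hj]
  -- first derivative
  have hκd : ∀ p : ℝ, 1 / 4 < p → p < 3 / 4 →
      HasDerivAt κ ((∑' k, analysis_d (y k) (D k) p / 4 ^ (k + 1)) + analysis_d g' m p) p := by
    intro p hp1 hp2
    have h3 := (analysis_series_one hd hs hp1 hp2).2.add (analysis_P_hasDeriv g' m p)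
    refine h3.congr_of_eventuallyEq ?_
    filter_upwards [Ioo_mem_nhds hp1 hp2] with q hq
    have h4 := (hκ' q (by linarith only [hq, hq.1]) (by linarith only [hq, hq.2])).tsum_eq
    simp only [Pi.add_apply]
    rw [h4, hGP]
    ring
  have hone : ∀ p : ℝ, 1 / 4 < p → p < 3 / 4 → DifferentiableAt ℝ κ p :=
    fun p hp1 hp2 => (hκd p hp1 hp2).differentiableAt
  -- second derivative
  have hsum2 : Summable fun k => y k 2 / 4 ^ (k + 1) := by
    apply Summable.of_norm_bounded (hs1.mul_left C)
    intro k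
    rw [Real.norm_eq_abs, abs_div, abs_of_pos (by positivity : (0 : ℝ) < 4 ^ (k + 1)), ← mul_div_assoc]
    apply div_le_div_of_nonneg_right _ (by positivity)
    have := hr0 k
    rw [mul_one_div, le_div_iff₀ (by positivity)]
    exact hC k 2
  set q := ∑' k, y k 2 / 4 ^ (k + 1) with hq
  have hκ2 : HasDerivAt (deriv κ) (8 * (q + g' 2)) (1 / 2) := by
    have h3 := (analysis_series_two hyD hd hr0 hC hs hs1 hs2).add (analysis_hasDeriv2 hg'm)
    have h5 : (∑' k, 8 * y k 2 / 4 ^ (k + 1)) + 8 * g' 2 = 8 * (q + g' 2) := by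
      have : (∑' k, 8 * y k 2 / 4 ^ (k + 1)) = 8 * q := by
        rw [hq, ← tsum_mul_left]
        apply tsum_congr
        intro k
        ring
      rw [this]
      ring
    rw [h5] at h3
    refine h3.congr_of_eventuallyEq ?_
    filter_upwards [Ioo_mem_nhds (by norm_num : (1 / 4 : ℝ) < 1 / 2) (by norm_num : (1 / 2 : ℝ) < 3 / 4)]
      with p hp
    exact (hκd p hp.1 hp.2).deriv
  have hd1 : deriv κ (1 / 2) = -1 := by
    have h3 := (hone (1 / 2) (by norm_num) (by norm_num)).hasDerivAt
    have h4 : HasDerivAt (fun p : ℝ => κ (1 - p) + 1 - 2 * p) (-deriv κ (1 / 2) - 2) (1 / 2) := by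
      have h5 : HasDerivAt (fun p : ℝ => 1 - p) (-1) (1 / 2) := by
        simpa using (hasDerivAt_id (1 / 2 : ℝ)).const_sub 1
      have h6 : HasDerivAt κ (deriv κ (1 / 2)) (1 - 1 / 2) := by
        have : (1 : ℝ) - 1 / 2 = 1 / 2 := by norm_num
        rw [this]
        exact h3
      have h7 := (h6.comp (1 / 2 : ℝ) h5).add_const 1
      have h8 : HasDerivAt (fun p : ℝ => 2 * p) 2 (1 / 2) := by
        simpa using (hasDerivAt_id (1 / 2 : ℝ)).const_mul 2
      have h9 := h7.sub h8
      have h10 : deriv κ (1 / 2) * -1 - 2 = -deriv κ (1 / 2) - 2 := by ring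
      rw [h10] at h9
      exact h9
    have h11 : κ =ᶠ[𝓝 (1 / 2)] fun p => κ (1 - p) + 1 - 2 * p := by
      filter_upwards [Ioo_mem_nhds (by norm_num : (1 / 4 : ℝ) < 1 / 2)
        (by norm_num : (1 / 2 : ℝ) < 3 / 4)] with p hp
      exact hdual p (by linarith only [hp, hp.1]) (by linarith only [hp, hp.2])
    have h12 := (h4.congr_of_eventuallyEq h11).unique h3
    linarith only [h12]
  refine ⟨hone, hκ2.differentiableAt, ?_⟩
  refine ⟨(144 * C * C₃ ^ 2 * C₁ ^ 4 / (1 - (1 / 2 : ℝ) ^ (2 / 3 : ℝ))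
      + 9 * C * C₃ * C₂ ^ 2 / (1 - (1 / 2 : ℝ) ^ a₀))
      + (∑ i ∈ Finset.range m, |g' (4 + i)|) * (16 / (π 1 / C₁) ^ 4), ?_⟩
  intro p hp0 hp1 N hN hyp
  have hW := analysis3_W (hπ0 N) hyp
  set z := 2 * p - 1 with hz
  have hT := analysis3_T (z := z) hπ0 h1 ha₀ h2 hC0 hC₃ (R := fun k => 1 / r k ^ 2)
    (fun k => by have := hr0 k; positivity) (fun k => (hr k).2.2.2) hs1
    (E := fun k => analysis_evR (y k) (D k) z)
    (fun k => (analysis_evR_two (hyD k) (hr0 k) (hC k)
      (by rw [← hYk]; exact hYb k p hp0 hp1)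
      (by rw [← hYk]; exact hYb k (1 - p) (by linarith only [hp1]) (by linarith only [hp0]))).1)
    (fun k => (analysis_evR_two (hyD k) (hr0 k) (hC k)
      (by rw [← hYk]; exact hYb k p hp0 hp1)
      (by rw [← hYk]; exact hYb k (1 - p) (by linarith only [hp1]) (by linarith only [hp0]))).2)
    hN hW
  have hsT : HasSum (fun k => analysis_evR (y k) (D k) z / 4 ^ (k + 1))
      ((κ p - G p + (κ (1 - p) - G (1 - p))) / 2 - (κ (1 / 2) - G (1 / 2)) - q * z ^ 2) := by
    have a1 := hκ' p hp0 hp1
    have a2 := hκ' (1 - p) (by linarith only [hp1]) (by linarith only [hp0])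
    have a3 := hκ' (1 / 2) (by norm_num) (by norm_num)
    have a4 := hsum2.hasSum.mul_right (z ^ 2)
    have a5 := (((a1.add a2).div_const 2).sub a3).sub a4
    refine a5.congr_fun ?_
    intro k
    have h3 := analysis_P_even (hyD k) p
    rw [← hz] at h3
    have h4 := analysis_P_half (y k) (hyD k)
    have h5 : analysis_evR (y k) (D k) z
        = (analysis_P (y k) (D k) p + analysis_P (y k) (D k) (1 - p)) / 2 - y k 0 - y k 2 * z ^ 2 := by
      rw [h3]
      ring
    rw [h5, h4]
    ring
  have hGe := analysis_P_even hg'm p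
  rw [← hz, ← hGP] at hGe
  have hGh := analysis_P_half g' hg'm
  rw [← hGP] at hGh
  have hRem : Rem κ p = (∑' k, analysis_evR (y k) (D k) z / 4 ^ (k + 1)) + analysis_evR g' m z := by
    rw [hsT.tsum_eq]
    unfold Rem
    rw [hd1, hκ2.deriv, hGh]
    have h3 := hdual p hp0 hp1
    have h4 : analysis_evR g' m z = (G p + G (1 - p)) / 2 - g' 0 - g' 2 * z ^ 2 := by
      rw [hGe]
      ring
    rw [h4, hz]
    have h5 : κ (1 - p) = κ p - 1 + 2 * p := by linarith only [h3]
    rw [h5]
    ring
  rw [hRem]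
  refine (abs_add_le _ _).trans ?_
  rw [add_div]
  apply add_le_add hT
  have hz1 : |z| ≤ 1 := by
    rw [abs_le]
    constructor <;> linarith only [hp0, hp1]
  refine (analysis_evR_abs g' m hz1).trans ?_
  rw [mul_div_assoc]
  apply mul_le_mul_of_nonneg_left _ (Finset.sum_nonneg (fun i _ => abs_nonneg _))
  exact analysis3_G hπ0 h1 hN hW

theorem analysis3 (π : ℕ → ℝ) (hπ0 : ∀ n, 0 < π n) (hπ1 : ∀ n, π n ≤ 1)
    (C₁ : ℝ) (h1 : ∀ m n : ℕ, 1 ≤ m → m ≤ n → π m ≤ C₁ * ((n : ℝ) / m) ^ (1 / 3 : ℝ) * π n)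
    (C₂ a₀ : ℝ) (ha₀ : 0 < a₀)
    (h2 : ∀ m n : ℕ, 1 ≤ m → m ≤ n → π n ≤ C₂ * ((m : ℝ) / n) ^ a₀ * π m)
    (Y : ℕ → ℝ → ℝ) (y : ℕ → ℕ → ℝ) (D : ℕ → ℕ)
    (hY : ∀ k p, Y k p = ∑ j ∈ Finset.range (D k), y k j * (2 * p - 1) ^ j)
    (hyD : ∀ k j, D k ≤ j → y k j = 0)
    (C c₀ : ℝ) (hc₀ : 0 < c₀)
    (hy : ∀ (k : ℕ) (r : ℝ), 0 ≤ r → r ≤ 1 →
      r ^ 2 * (4 ^ k * π (2 ^ k) ^ 2) ≤ c₀ → ∀ j, |y k j| * r ^ j ≤ C)
    (hYb : ∀ (k : ℕ) (p : ℝ), 0 ≤ p → p ≤ 1 → |Y k p| ≤ C)
    (hYd : ∀ (k : ℕ) (p : ℝ), 1 / 4 ≤ p → p ≤ 3 / 4 → |deriv (Y k) p| ≤ C * 2 ^ k)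
    (G : ℝ → ℝ) (g : ℕ → ℝ) (m : ℕ)
    (hG : ∀ p, G p = ∑ j ∈ Finset.range m, g j * (2 * p - 1) ^ j)
    (κ : ℝ → ℝ)
    (hκ : ∀ p : ℝ, 0 ≤ p → p ≤ 1 → HasSum (fun k => Y k p / 4 ^ (k + 1)) (κ p - G p))
    (hdual : ∀ p : ℝ, 0 ≤ p → p ≤ 1 → κ p = κ (1 - p) + 1 - 2 * p) :
    (∀ p : ℝ, 1 / 4 < p → p < 3 / 4 → DifferentiableAt ℝ κ p) ∧
    DifferentiableAt ℝ (deriv κ) (1 / 2) ∧
    ∃ C' : ℝ, ∀ p : ℝ, 0 ≤ p → p ≤ 1 → ∀ N : ℕ, 1 ≤ N →
      |p - 1 / 2| * N * π N ≤ 1 → |Rem κ p| ≤ C' / (N : ℝ) ^ 2 := by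
  exact analysis3_aux π hπ0 hπ1 C₁ h1 C₂ a₀ ha₀ h2 Y y D hY hyD C c₀ hc₀ hy hYb hYd G g m hG κ hκ
    hdual

end Pool.Agent.H29.Kap

end

section

/-! # Derivative of an expectation with respect to the density -/

set_option autoImplicit false

namespace Pool.Agent.H29.Kap

open Pool.Agent.Perc

variable {ι : Type*} [DecidableEq ι]

end Pool.Agent.H29.Kap

end

section

/-! # A sum over tuples of edges -/

set_option autoImplicit false

namespace Pool.Agent.H29.Kap

open Pool.Agent.H89.Perc

/-! ### The abstract inequality -/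

section abstract_part

variable {α : Type*} [DecidableEq α]

end abstract_part

/-! ### One dimensional sums -/

/-! ### Sums over the edges of a rectangle -/

end Pool.Agent.H29.Kap

end

section

/-! # Exponential moments of the size of `R` -/

set_option autoImplicit false

namespace Pool.Agent.H29.Kap

open Pool.Agent.H89.Perc Pool.Agent.Perc

end Pool.Agent.H29.Kap

end

section

/-! # Duality for a single edge in a rectangle -/

set_option autoImplicit false

namespace Pool.Agent.H29.Kap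

open Pool.Agent.H89.Perc

/-- For an edge `e` of a rectangle `D`, exactly one of the following holds: the endpoints of `e` are
joined by an open path in `D` off `e`; the faces next to `e` are joined by a closed dual path off the
dual edge of `e`, where all faces outside `D` are identified. -/
theorem edge_dual {ω : Config} {a b c d : ℤ} {e : Edge} (he : e ∈ redges a b c d) :
    Conn (Function.update ω e false) (rect a b c d) (src e) (tgt e) ↔
      ¬ WConn (dual (Function.update ω e true)) (rect (a - 1) b (c - 1) d)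
        (bd (a - 1) b (c - 1) d) (lowFace e) (src e) := by
  constructor
  · intro h
    obtain ⟨hx, hy⟩ := mem_redges.1 he
    have hab : a ≤ b := by
      simp only [rect, Set.mem_ofPred_eq] at hx
      omega
    have hcd : c ≤ d := by
      simp only [rect, Set.mem_ofPred_eq] at hx
      omega
    obtain ⟨z, hz1, hz2⟩ := h.chain
    have hvs : ∀ V, vsum (fun f => z f + one e f) V = 0 := by
      intro V
      rw [vsum_add, hz2, vsum_one, z2_add_self]
    obtain ⟨W, hW⟩ := integRect (a := a - 1) (b := b) (c := c - 1) (d := d)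
      (fun e' => z (crossed e') + one e (crossed e')) (by
        intro F _
        have h1 := hvs (F.1 + 1, F.2 + 1)
        simp only [vsum] at h1
        simp only [fsum, crossed, if_true, Bool.false_eq_true, if_false]
        rw [show F.1 + 1 - 1 = F.1 by ring, show F.2 + 1 - 1 = F.2 by ring] at h1
        linear_combination h1)
    have hW' : ∀ f : Edge, lowFace f ∈ rect (a - 1) b (c - 1) d →
        src f ∈ rect (a - 1) b (c - 1) d → z f + one e f = W (lowFace f) + W (src f) := by
      intro f k1 k2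
      have := hW (uncross f) (by rwa [src_uncross]) (by rwa [tgt_uncross])
      rwa [crossed_uncross, src_uncross, tgt_uncross] at this
    have hring := edgeduality_ring (f := W) hab hcd (by
      intro g hg k1 k2
      have k3 := hW' g k1 k2
      have k4 : z g = 0 := by
        by_contra hne
        exact hg (hz1 g hne).2
      have k5 : one e g = 0 := by
        unfold one
        rw [if_neg]
        rintro rfl
        exact hg ⟨hx, hy⟩
      rw [k4, k5, add_zero] at k3
      exact z2_add_eq_zero.1 k3.symm)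
    have hconn : ∀ u v, Conn (dual (Function.update ω e true)) (rect (a - 1) b (c - 1) d) u v →
        W u = W v := by
      intro u v huv
      refine huv.const fun e' k1 k2 k3 => ?_
      have k4 := hW e' k1 k2
      have k5 : Function.update ω e true (crossed e') = false := by
        simpa [dual] using k3
      have k6 : crossed e' ≠ e := by
        intro heq
        rw [heq, Function.update_self] at k5
        exact absurd k5 (by simp)
      have k7 : z (crossed e') = 0 := by
        by_contra hne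
        have k8 := (hz1 _ hne).1
        rw [Function.update_of_ne k6] at k5 k8
        rw [k5] at k8
        exact absurd k8 (by simp)
      have k8 : one e (crossed e') = 0 := by
        unfold one
        rw [if_neg k6]
      rw [k7, k8, add_zero] at k4
      exact z2_add_eq_zero.1 k4.symm
    have hface : lowFace e ∈ rect (a - 1) b (c - 1) d ∧ src e ∈ rect (a - 1) b (c - 1) d := by
      obtain ⟨x, y, t⟩ := e
      cases t <;>
      · simp only [src, tgt, lowFace, rect, Set.mem_ofPred_eq, if_true, Bool.false_eq_true,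
          if_false] at hx hy ⊢
        omega
    have hne : W (lowFace e) ≠ W (src e) := by
      have k1 := hW' e hface.1 hface.2
      have k2 : z e = 0 := by
        by_contra hne
        have := (hz1 e hne).1
        rw [Function.update_self] at this
        exact absurd this (by simp)
      have k3 : one e e = 1 := by simp [one]
      rw [k2, k3, zero_add] at k1
      exact z2_add_eq_one.1 k1.symm
    rintro (h1 | ⟨⟨u, hu, h1⟩, ⟨v, hv, h2⟩⟩)
    · exact hne (hconn _ _ h1)
    · exact hne ((hconn _ _ h1).trans ((hring u hu).trans ((hring v hv).symm.trans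
        (hconn _ _ h2).symm)))
  · intro h
    by_contra hno
    apply h
    by_contra hW
    unfold WConn at hW
    push Not at hW
    obtain ⟨h1, h2⟩ := hW
    by_cases h3 : ∃ v ∈ bd (a - 1) b (c - 1) d,
        Conn (dual (Function.update ω e true)) (rect (a - 1) b (c - 1) d) (lowFace e) v
    · exact edgeduality_aux he hno (Or.inr ⟨rfl, rfl⟩) (fun h4 => h1 h4.symm) (h2 h3)
    · push Not at h3
      exact edgeduality_aux he hno (Or.inl ⟨rfl, rfl⟩) h1 h3

end Pool.Agent.H29.Kap

end

section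

/-! # Edges which matter outside `D` but not inside `D` have two arms in `D` -/

set_option autoImplicit false

namespace Pool.Agent.H29.Kap

open Pool.Agent.H89.Perc

/-- A path which leaves the cluster of `x` in `D` gives an arm of `x` to the boundary of `D`. -/
lemma pivot_arm {ω : Config} {a b c d : ℤ} {U : Set Vert} {x y : Vert}
    (hx : x ∈ rect a b c d) (h1 : Conn ω U x y) (h2 : ¬ Conn ω (rect a b c d) x y) :
    ∃ w ∈ bd a b c d, Conn ω (rect a b c d) x w := by
  obtain ⟨w, w', h3, h4, h5, -⟩ := h1.exists_exit (T := {v | Conn ω (rect a b c d) x v})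
    (Conn.refl hx) h2
  have h6 : Conn ω (rect a b c d) x w := h3.mem_right.2
  have h7 : w' ∉ rect a b c d := fun h => h5 (h6.tail ⟨h6.mem_right, h, h4.2.2⟩)
  refine ⟨w, ⟨h6.mem_right, ?_⟩, h6⟩
  have k1 := h6.mem_right
  have k2 := h4.fst_le
  have k3 := h4.snd_le
  simp only [rect, Set.mem_ofPred_eq] at h7 k1
  omega

/-- If the endpoints of an edge `e` of the rectangle `D` are joined by an open path off `e` in a
larger set `U`, but not in `D`, then `e` has an open arm and a closed dual arm to the outside of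
`D`. -/
theorem inR_of_pivot {ω : Config} {a b c d : ℤ} {U : Set Vert} {e : Edge}
    (he : e ∈ redges a b c d) (hU : rect a b c d ⊆ U)
    (h1 : Conn (Function.update ω e false) U (src e) (tgt e))
    (h2 : ¬ Conn (Function.update ω e false) (rect a b c d) (src e) (tgt e)) :
    InR ω a b c d e := by
  classical
  have hD := mem_redges.1 he
  obtain ⟨w, hw, hxw⟩ := pivot_arm hD.1 h1 h2
  obtain ⟨w', hw', hyw'⟩ := pivot_arm hD.2 h1.symm (fun h => h2 h.symm)
  refine ⟨he, ⟨src e, Or.inl rfl, w, hw, hxw⟩, ?_⟩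
  by_contra hC
  have hCs : ∀ G ∈ bd (a - 1) b (c - 1) d,
      ¬ Conn (dual (Function.update ω e true)) (rect (a - 1) b (c - 1) d) (src e) G :=
    fun G hG h => hC ⟨src e, Or.inl rfl, G, hG, h⟩
  have hCl : ∀ G ∈ bd (a - 1) b (c - 1) d,
      ¬ Conn (dual (Function.update ω e true)) (rect (a - 1) b (c - 1) d) (lowFace e) G :=
    fun G hG h => hC ⟨lowFace e, Or.inr rfl, G, hG, h⟩
  have hdual : Conn (dual (Function.update ω e true)) (rect (a - 1) b (c - 1) d)
      (lowFace e) (src e) := by
    by_contra hcon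
    apply h2
    rw [edge_dual he]
    rintro (h | ⟨⟨G, hG, h⟩, -⟩)
    · exact hcon h
    · exact hCl G hG h
  obtain ⟨hf1, hf2⟩ := pivot_faces he
  have hs : src e ∉ bd (a - 1) b (c - 1) d := fun h => hCs _ h (Conn.refl hf1)
  have hl : lowFace e ∉ bd (a - 1) b (c - 1) d := fun h => hCl _ h (Conn.refl hf2)
  -- open the edges next to the ring
  set ω' : Config := fun f =>
    if src f ∈ bd (a - 1) b (c - 1) d ∨ lowFace f ∈ bd (a - 1) b (c - 1) d then true else ω f
    with hω'
  have hle : ∀ f, Function.update ω e false f = true → Function.update ω' e false f = true := by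
    intro f hf
    by_cases hfe : f = e
    · subst hfe
      simp at hf
    · rw [Function.update_of_ne hfe] at hf ⊢
      simp only [hω']
      split_ifs
      · rfl
      · exact hf
  have hring : ∀ f : Edge, (src f ∈ bd (a - 1) b (c - 1) d ∨ lowFace f ∈ bd (a - 1) b (c - 1) d) →
      Function.update ω' e false f = true := by
    intro f hf
    have hfe : f ≠ e := by
      rintro rfl
      rcases hf with hf | hf
      · exact hs hf
      · exact hl hf
    rw [Function.update_of_ne hfe]
    simp only [hω', if_pos hf]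
  have hab : a ≤ b ∧ c ≤ d := by
    obtain ⟨⟨k1, k2, k3, k4⟩, -⟩ := hD
    exact ⟨k1.trans k2, k3.trans k4⟩
  have hr1 : ∀ x, a ≤ x → x < b → Function.update ω' e false (x, c, false) = true := by
    intro x k1 k2
    refine hring _ (Or.inr ?_)
    simp only [lowFace, Bool.false_eq_true, if_false, bd, rect, Set.mem_ofPred_eq, true_or,
      or_true, and_true]
    omega
  have hr2 : ∀ x, a ≤ x → x < b → Function.update ω' e false (x, d, false) = true := by
    intro x k1 k2
    refine hring _ (Or.inl ?_)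
    simp only [src, bd, rect, Set.mem_ofPred_eq, true_or, or_true, and_true]
    omega
  have hr3 : ∀ y, c ≤ y → y < d → Function.update ω' e false (a, y, true) = true := by
    intro y k1 k2
    refine hring _ (Or.inr ?_)
    simp only [lowFace, if_true, bd, rect, Set.mem_ofPred_eq, true_or, or_true, and_true]
    omega
  have hr4 : ∀ y, c ≤ y → y < d → Function.update ω' e false (b, y, true) = true := by
    intro y k1 k2
    refine hring _ (Or.inl ?_)
    simp only [src, bd, rect, Set.mem_ofPred_eq, true_or, or_true, and_true]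
    omega
  have hc1 := pivot_ring (ω := Function.update ω' e false) hab.1 hab.2 hr1 hr2 hr3 hr4 hw
  have hc2 := pivot_ring (ω := Function.update ω' e false) hab.1 hab.2 hr1 hr2 hr3 hr4 hw'
  have hxy : Conn (Function.update ω' e false) (rect a b c d) (src e) (tgt e) :=
    (((hxw.mono subset_rfl hle).trans hc1).trans hc2.symm).trans (hyw'.mono subset_rfl hle).symm
  rw [edge_dual he] at hxy
  apply hxy
  left
  refine hdual.induction_right
    (P := fun z => Conn (dual (Function.update ω' e true)) (rect (a - 1) b (c - 1) d)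
      (lowFace e) z) (Conn.refl hf2) ?_
  intro z z' hz hs' ih
  have hz' := hz.tail hs'
  have kz : z ∉ bd (a - 1) b (c - 1) d := fun h => hCl z h hz
  have kz' : z' ∉ bd (a - 1) b (c - 1) d := fun h => hCl z' h hz'
  refine ih.tail ?_
  obtain ⟨m1, m2, f, m3, m4⟩ := hs'
  refine ⟨m1, m2, f, m3, ?_⟩
  have m5 : src f ∉ bd (a - 1) b (c - 1) d ∧ tgt f ∉ bd (a - 1) b (c - 1) d := by
    rcases m3 with ⟨l1, l2⟩ | ⟨l1, l2⟩
    · rw [← l1, ← l2]; exact ⟨kz, kz'⟩
    · rw [← l1, ← l2]; exact ⟨kz', kz⟩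
  have m6 : Function.update ω' e true (crossed f) = Function.update ω e true (crossed f) := by
    by_cases hfe : crossed f = e
    · rw [hfe]; simp
    · rw [Function.update_of_ne hfe, Function.update_of_ne hfe]
      simp only [hω']
      rw [if_neg]
      rw [← src_eq_lowFace_crossed, ← tgt_eq_src_crossed]
      tauto
  simp only [dual] at m4 ⊢
  rw [m6]
  exact m4

end Pool.Agent.H29.Kap

end

section

/-! # A sum over tuples of edges, exponent `2/3` -/

set_option autoImplicit false

namespace Pool.Agent.H29.Kap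

open Pool.Agent.H89.Perc

lemma tuplesum3_two {M : ℕ} (hM : 1 ≤ M) {a b c d : ℤ} (hab : b - a ≤ M) (hcd : d - c ≤ M) :
    ∑ e ∈ redges a b c d, tuplesum3_g M (dbd a b c d e) ≤ 128 * (M : ℝ) ^ 2 := by
  have hM' : (0 : ℝ) ≤ M := Nat.cast_nonneg M
  have hH := tuplesum3_sum hM
  have hg0 := tuplesum3_g_nonneg M
  have h1 : ∀ e ∈ redges a b c d, tuplesum3_g M (dbd a b c d e) ≤
      (fun x y : ℤ => (tuplesum3_g M (x - a).toNat + tuplesum3_g M (b - x).toNat +
        (tuplesum3_g M (y - c).toNat + tuplesum3_g M (d - y).toNat))) e.1 e.2.1 := by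
    intro e _
    show tuplesum3_g M (dbd a b c d e) ≤ (tuplesum3_g M (e.1 - a).toNat +
      tuplesum3_g M (b - e.1).toNat +
        (tuplesum3_g M (e.2.1 - c).toNat + tuplesum3_g M (d - e.2.1).toNat))
    have n1 := hg0 (e.1 - a).toNat
    have n2 := hg0 (b - e.1).toNat
    have n3 := hg0 (e.2.1 - c).toNat
    have n4 := hg0 (d - e.2.1).toNat
    have hor : dbd a b c d e = (e.1 - a).toNat ∨ dbd a b c d e = (b - e.1).toNat ∨
        dbd a b c d e = (e.2.1 - c).toNat ∨ dbd a b c d e = (d - e.2.1).toNat := by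
      unfold dbd
      omega
    rcases hor with h | h | h | h <;> rw [h] <;> linarith only [n2, n3, n4, n1]
  refine (Finset.sum_le_sum h1).trans ?_
  refine (tupsum_redges_le (fun x y : ℤ => (tuplesum3_g M (x - a).toNat +
    tuplesum3_g M (b - x).toNat + (tuplesum3_g M (y - c).toNat +
      tuplesum3_g M (d - y).toNat))) ?_).trans ?_
  · intro x y
    have n1 := hg0 (x - a).toNat
    have n2 := hg0 (b - x).toNat
    have n3 := hg0 (y - c).toNat
    have n4 := hg0 (d - y).toNat
    positivity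
  · simp only [Finset.sum_add_distrib, Finset.sum_const, nsmul_eq_mul]
    have c1 := tupsum_card_Icc a b hM hab
    have c2 := tupsum_card_Icc c d hM hcd
    have s1 := (tupsum_toNat a b hab (tuplesum3_g M) hg0).trans hH
    have s2 := (tupsum_toNat' a b hab (tuplesum3_g M) hg0).trans hH
    have s3 := (tupsum_toNat c d hcd (tuplesum3_g M) hg0).trans hH
    have s4 := (tupsum_toNat' c d hcd (tuplesum3_g M) hg0).trans hH
    have m1 := mul_le_mul c2 s1 (Finset.sum_nonneg fun _ _ => hg0 _) (by positivity)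
    have m2 := mul_le_mul c2 s2 (Finset.sum_nonneg fun _ _ => hg0 _) (by positivity)
    have m3 := mul_le_mul c1 s3 (Finset.sum_nonneg fun _ _ => hg0 _) (by positivity)
    have m4 := mul_le_mul c1 s4 (Finset.sum_nonneg fun _ _ => hg0 _) (by positivity)
    simp only [← Finset.mul_sum]
    nlinarith only [m1, m2, m3, m4]

lemma tuplesum3_three {M : ℕ} (hM : 1 ≤ M) {a b c d : ℤ} (hab : b - a ≤ M) (hcd : d - c ≤ M)
    (e' : Edge) (he' : e' ∈ redges a b c d) :
    ∑ e ∈ redges a b c d, tuplesum3_g M (dist2 e e') ^ 2 ≤ 128 * (M : ℝ) ^ 2 := by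
  have hM' : (0 : ℝ) ≤ M := Nat.cast_nonneg M
  have hH := tuplesum3_sum hM
  have hg0 := tuplesum3_g_nonneg M
  have hx' : e'.1 ∈ Finset.Icc a b := by
    obtain ⟨x, y, t⟩ := e'
    simp only [redges, Finset.mem_union, Finset.mem_product, Finset.mem_Icc,
      Finset.mem_singleton] at he' ⊢
    omega
  have hy' : e'.2.1 ∈ Finset.Icc c d := by
    obtain ⟨x, y, t⟩ := e'
    simp only [redges, Finset.mem_union, Finset.mem_product, Finset.mem_Icc,
      Finset.mem_singleton] at he' ⊢
    omega
  have h1 : ∀ e ∈ redges a b c d, tuplesum3_g M (dist2 e e') ^ 2 ≤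
      (fun x y : ℤ => tuplesum3_g M (x - e'.1).natAbs * tuplesum3_g M (y - e'.2.1).natAbs)
        e.1 e.2.1 := by
    intro e _
    show tuplesum3_g M (dist2 e e') ^ 2 ≤
      tuplesum3_g M (e.1 - e'.1).natAbs * tuplesum3_g M (e.2.1 - e'.2.1).natAbs
    rw [sq]
    exact mul_le_mul (tuplesum3_g_anti M (le_max_left _ _)) (tuplesum3_g_anti M (le_max_right _ _))
      (hg0 _) (hg0 _)
  refine (Finset.sum_le_sum h1).trans ?_
  refine (tupsum_redges_le (fun x y : ℤ => tuplesum3_g M (x - e'.1).natAbs *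
    tuplesum3_g M (y - e'.2.1).natAbs) (fun x y => mul_nonneg (hg0 _) (hg0 _))).trans ?_
  rw [← Finset.sum_mul_sum]
  have h7 := (tupsum_natAbs a b hab e'.1 hx' (tuplesum3_g M) hg0)
  have h8 := (tupsum_natAbs c d hcd e'.2.1 hy' (tuplesum3_g M) hg0)
  have h9 : ∑ x ∈ Finset.Icc a b, tuplesum3_g M (x - e'.1).natAbs ≤ 8 * M := by linarith only [hH, h7]
  have h10 : ∑ y ∈ Finset.Icc c d, tuplesum3_g M (y - e'.2.1).natAbs ≤ 8 * M := by linarith only [hH, h8]
  have h11 := mul_le_mul h9 h10 (Finset.sum_nonneg fun _ _ => hg0 _) (by positivity)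
  nlinarith only [h11]

theorem tuple_sum3 : ∃ C : ℝ, 0 < C ∧ ∀ M : ℕ, 1 ≤ M → ∀ a b c d : ℤ, b - a ≤ M → d - c ≤ M →
    ∀ (j : ℕ) (ρ : (Fin j → Edge) → Fin j → ℕ),
      (∀ e i, ρ e i = dbd a b c d (e i) ∨ ∃ k, k ≠ i ∧ ρ e i = dist2 (e i) (e k)) →
      ∑ e ∈ Fintype.piFinset (fun _ : Fin j => redges a b c d),
          ∏ i, ((M : ℝ) / max (ρ e i : ℝ) 1) ^ (2 / 3 : ℝ) ≤
        (j + 1).factorial * (C * (M : ℝ) ^ 2) ^ j := by
  refine ⟨128, by norm_num, fun M hM a b c d hab hcd j ρ hρ => ?_⟩
  set s : Edge → ℝ := fun e => tuplesum3_g M (dbd a b c d e) with hs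
  set t : Edge → Edge → ℝ := fun e e' => tuplesum3_g M (dist2 e e') ^ 2 with ht
  have hs0 : ∀ x, 0 ≤ s x := fun x => tuplesum3_g_nonneg M _
  have ht0 : ∀ x y, 0 ≤ t x y := fun x y => sq_nonneg _
  have hD := tupsum_D_sum hs0 ht0 (redges a b c d) (tuplesum3_one hM hab hcd)
    (tuplesum3_two hM hab hcd) (tuplesum3_three hM hab hcd) j
  have hU := tupsum_U_sum hs0 ht0 (redges a b c d) (tuplesum3_one hM hab hcd)
    (tuplesum3_two hM hab hcd) (tuplesum3_three hM hab hcd) j
  have h1 : ∀ e ∈ Fintype.piFinset (fun _ : Fin j => redges a b c d),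
      ∏ i, ((M : ℝ) / max (ρ e i : ℝ) 1) ^ (2 / 3 : ℝ) ≤
        (∏ i, tupsum_D s t e i + ∏ i, tupsum_U s t e i) / 2 := by
    intro e _
    refine tupsum_prod hs0 ht0 e (fun i => ((M : ℝ) / max (ρ e i : ℝ) 1) ^ (2 / 3 : ℝ))
      (fun i => by positivity) fun i => ?_
    rcases hρ e i with h | ⟨k, hk, h⟩
    · left
      simp only [hs, h, tuplesum3_g]
    · right
      exact ⟨k, hk, by simp only [ht, h, tuplesum3_g]⟩
  refine (Finset.sum_le_sum h1).trans ?_
  rw [← Finset.sum_div, Finset.sum_add_distrib]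
  linarith only [hD, hU]

end Pool.Agent.H29.Kap

end

section

/-!
# Pivotal edges and closed dual paths
-/

namespace Pool.Agent.H89.Perc

variable {ω : Config} {S : Set Vert} {e : Edge}

/-- A path in the configuration with `e` open avoids `e` or can be split at `e`. -/
theorem Conn.split_edge {a b : Vert} (h : Conn (Function.update ω e true) S a b) :
    Conn (Function.update ω e false) S a b ∨ ∃ u v, Joins e u v ∧
      Conn (Function.update ω e false) S a u ∧ Conn (Function.update ω e false) S v b := by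
  refine h.induction_right (P := fun x => Conn (Function.update ω e false) S a x ∨
    ∃ u v, Joins e u v ∧ Conn (Function.update ω e false) S a u ∧
      Conn (Function.update ω e false) S v x) (Or.inl (Conn.refl h.mem_left)) ?_
  rintro x y _ ⟨hx, hy, f, hf, hfo⟩ ih
  by_cases hfe : f = e
  · subst hfe
    rcases ih with ih | ⟨u, v, h1, h2, h3⟩
    · exact Or.inr ⟨x, y, hf, ih, Conn.refl hy⟩
    · rcases hf.eq_or h1 with ⟨h4, h5⟩ | ⟨h4, h5⟩
      · subst h4 h5
        exact Or.inr ⟨x, y, hf, h2, Conn.refl hy⟩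
      · subst h4 h5
        exact Or.inl h2
  · have hs : Step (Function.update ω e false) S x y := by
      refine ⟨hx, hy, f, hf, ?_⟩
      rw [Function.update_of_ne hfe] at hfo ⊢
      exact hfo
    rcases ih with ih | ⟨u, v, h1, h2, h3⟩
    · exact Or.inl (ih.tail hs)
    · exact Or.inr ⟨u, v, h1, h2, h3.tail hs⟩

end Pool.Agent.H89.Perc

end

section

/-! # Two disjoint open arms and one closed dual arm on a line -/

set_option autoImplicit false

namespace Pool.Agent.H29.Kap

open Pool.Agent.H89.Perc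

theorem three_arms {ω : Config} {W : ℤ} (hW : 4 ≤ W) (h1 : HCross ω (-W) W 0 (2 * W))
    (h2 : HCross (dual ω) (-W - 1) W (-W) (-2))
    (h3 : VCross (dual ω) (-W) (W - 1) (-3 * W - 1) (-2)) :
    ∃ h : ℤ, -W ≤ h ∧ h ≤ 2 * W ∧
      (∃ ω₁ ω₂ : Config, (∀ e, ω₁ e = true → ω e = true) ∧ (∀ e, ω₂ e = true → ω e = true) ∧
        (∀ e, ω₁ e = true → ω₂ e = false) ∧
        (∃ a : Vert, (a.1 = -W ∨ a.1 = W) ∧ Conn ω₁ (rect (-W) W (-3 * W) (3 * W)) (0, h) a) ∧
        (∃ a : Vert, (a.1 = -W ∨ a.1 = W) ∧ Conn ω₂ (rect (-W) W (-3 * W) (3 * W)) (0, h) a)) ∧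
      (∃ φ : Vert, φ.2 = -3 * W - 1 ∧
        Conn (dual ω) (rect (-W) (W - 1) (-3 * W - 1) (3 * W)) (-1, h - 1) φ) := by
  classical
  obtain ⟨h, hh1, hh2, hP, hnP⟩ := threearms_min
    (P := fun h => HCross (threearms_w ω h) (-W) W (-3 * W) (3 * W)) (a := -W - 1) (b := 2 * W)
    (by omega) (threearms_two hW h2 h3) (threearms_one hW h1)
  set w := threearms_w ω h with hw
  set w' := threearms_w ω (h - 1) with hw'
  set B : Set Vert := rect (-W) W (-3 * W) (3 * W) with hB
  set PP : Set Vert := rect (-W) (W - 1) (-3 * W - 1) (3 * W) with hPP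
  -- relation between `w` and `w'`
  have hne : ∀ e : Edge, e ≠ (-1, h, false) → w' e = w e := by
    rintro ⟨x, y, t⟩ hne
    simp only [hw, hw', threearms_w]
    by_cases k : x = -1 ∧ t = false ∧ h < y
    · rw [if_pos k, if_pos ⟨k.1, k.2.1, by omega⟩]
    · rw [if_neg k, if_neg]
      rintro ⟨k1, k2, k3⟩
      by_cases k4 : y = h
      · exact hne (by rw [k1, k2, k4])
      · exact k ⟨k1, k2, by omega⟩
  have hw'e : w' (-1, h, false) = false := by
    simp only [hw', threearms_w]
    rw [if_pos ⟨trivial, trivial, by omega⟩]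
  have hwe : w (-1, h, false) = true := by
    by_contra hcon
    rw [Bool.not_eq_true] at hcon
    have : w = w' := by
      funext e
      by_cases k : e = (-1, h, false)
      · rw [k, hcon, hw'e]
      · exact (hne e k).symm
    apply hnP
    show HCross w' _ _ _ _
    rw [← this]
    exact hP
  have hωe : ω (-1, h, false) = true := threearms_le hwe
  have hup : w = Function.update w' (-1, h, false) true := by
    funext e
    by_cases k : e = (-1, h, false)
    · rw [k, hwe, Function.update_self]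
    · rw [Function.update_of_ne k, hne e k]
  have hup' : w' = Function.update w' (-1, h, false) false := by
    funext e
    by_cases k : e = (-1, h, false)
    · rw [k, hw'e, Function.update_self]
    · rw [Function.update_of_ne k]
  have hw'w : ∀ e, w' e = true → w e = true := fun e he => threearms_mono (by omega) he
  -- the two open arms
  obtain ⟨a, b, ha, hb, hab⟩ := hP
  have hsplit : ∃ s₀ s₁ : Vert, (s₀.1 = -W ∨ s₀.1 = W) ∧ (s₁.1 = -W ∨ s₁.1 = W) ∧
      Conn w' B (0, h) s₀ ∧ Conn w' B (-1, h) s₁ ∧ ¬ Conn w' B (0, h) (-1, h) := by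
    have hab' : Conn (Function.update w' (-1, h, false) true) B a b := by
      rw [← hup]; exact hab
    rcases hab'.split_edge with k | ⟨u, v, k1, k2, k3⟩
    · rw [← hup'] at k
      exact absurd ⟨a, b, ha, hb, k⟩ hnP
    · rw [← hup'] at k2 k3
      have hnot : ¬ Conn w' B u v := fun k4 =>
        hnP ⟨a, b, ha, hb, (k2.trans k4).trans k3⟩
      rcases k1 with ⟨k4, k5⟩ | ⟨k4, k5⟩
      · have e1 : u = (-1, h) := by rw [k4]; rfl
        have e2 : v = (0, h) := by rw [k5]; simp [tgt]
        rw [e1] at k2 hnot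
        rw [e2] at k3 hnot
        exact ⟨b, a, Or.inr hb, Or.inl ha, k3, k2.symm, fun k => hnot k.symm⟩
      · have e1 : u = (0, h) := by rw [k4]; simp [tgt]
        have e2 : v = (-1, h) := by rw [k5]; rfl
        rw [e1] at k2 hnot
        rw [e2] at k3 hnot
        exact ⟨a, b, Or.inl ha, Or.inr hb, k2.symm, k3, hnot⟩
  obtain ⟨s₀, s₁, hs₀, hs₁, c0, c1, hnc⟩ := hsplit
  refine ⟨h, by omega, hh2, ⟨fun e => w' e && decide (Conn w' B (0, h) (src e)),
    fun e => decide (e = (-1, h, false)) || (w' e && decide (Conn w' B (-1, h) (src e))),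
    ?_, ?_, ?_, ⟨s₀, hs₀, ?_⟩, ⟨s₁, hs₁, ?_⟩⟩, ?_⟩
  · intro e he
    simp only [Bool.and_eq_true] at he
    exact threearms_le he.1
  · intro e he
    simp only [Bool.or_eq_true, Bool.and_eq_true, decide_eq_true_eq] at he
    rcases he with he | he
    · rw [he]; exact hωe
    · exact threearms_le he.1
  · intro e he
    simp only [Bool.and_eq_true, decide_eq_true_eq] at he
    simp only [Bool.or_eq_false_iff, Bool.and_eq_false_iff, decide_eq_false_iff_not]
    refine ⟨?_, Or.inr ?_⟩
    · intro k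
      rw [k, hw'e] at he
      exact absurd he.1 (by decide)
    · intro k
      exact hnc (he.2.trans k.symm)
  · refine c0.induction_right (P := fun x =>
      Conn (fun e => w' e && decide (Conn w' B (0, h) (src e))) B (0, h) x)
      (Conn.refl c0.mem_left) ?_
    rintro x y hx ⟨hxB, hyB, e, he, heo⟩ ih
    refine ih.tail ⟨hxB, hyB, e, he, ?_⟩
    simp only [Bool.and_eq_true, decide_eq_true_eq]
    refine ⟨heo, ?_⟩
    have hy : Conn w' B (0, h) y := hx.tail ⟨hxB, hyB, e, he, heo⟩
    rcases he with ⟨k1, _⟩ | ⟨_, k2⟩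
    · rw [← k1]; exact hx
    · rw [← k2]; exact hy
  · refine c1.induction_right (P := fun x =>
      Conn (fun e => decide (e = (-1, h, false)) ||
        (w' e && decide (Conn w' B (-1, h) (src e)))) B (0, h) x) ?_ ?_
    · refine (Step.conn ⟨c0.mem_left, c1.mem_left, (-1, h, false), Or.inr ⟨?_, rfl⟩, ?_⟩)
      · simp [tgt]
      · simp
    · rintro x y hx ⟨hxB, hyB, e, he, heo⟩ ih
      refine ih.tail ⟨hxB, hyB, e, he, ?_⟩
      simp only [Bool.or_eq_true, Bool.and_eq_true, decide_eq_true_eq]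
      refine Or.inr ⟨heo, ?_⟩
      have hy : Conn w' B (-1, h) y := hx.tail ⟨hxB, hyB, e, he, heo⟩
      rcases he with ⟨k1, _⟩ | ⟨_, k2⟩
      · rw [← k1]; exact hx
      · rw [← k2]; exact hy
  · -- the dual arm
    rcases hcross_or_dual_vcross (ω := w') (a := -W) (b := W) (c := -3 * W) (d := 3 * W)
      (by omega) (by omega) with k | ⟨φ, ψ, hφ, hψ, hc⟩
    · exact absurd k hnP
    have hg : crossed (-1, h - 1, true) = (-1, h, false) := by
      simp [crossed]
    have hcr : ∀ e : Edge, crossed e = (-1, h, false) → e = (-1, h - 1, true) := by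
      rintro ⟨x, y, t⟩ he
      cases t
      · simp [crossed] at he
      · simp only [crossed, if_true, Prod.mk.injEq, and_true] at he
        obtain ⟨k1, k2⟩ := he
        rw [k1, show y = h - 1 by omega]
    have hd : dual w' = Function.update (dual w) (-1, h - 1, true) true := by
      funext e
      by_cases k : e = (-1, h - 1, true)
      · rw [k, Function.update_self]
        simp only [dual, hg, hw'e, Bool.not_false]
      · rw [Function.update_of_ne k]
        simp only [dual]
        rw [hne _ (fun k' => k (hcr e k'))]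
    have hd' : dual w = Function.update (dual w) (-1, h - 1, true) false := by
      funext e
      by_cases k : e = (-1, h - 1, true)
      · rw [k, Function.update_self]
        simp only [dual, hg, hwe, Bool.not_true]
      · rw [Function.update_of_ne k]
    have hHC : HCross w (-W) W (-3 * W) (3 * W) := ⟨a, b, ha, hb, hab⟩
    have hnv : ¬ VCross (dual w) (-W) (W - 1) (-3 * W - 1) (3 * W) :=
      not_hcross_and_dual_vcross (by omega) hHC
    have hno : ∀ y : ℤ, h ≤ y → y ≤ 3 * W → ¬ Conn (dual w) PP φ (-1, y) := by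
      intro y k1 k2 k3
      have k4 : Conn (dual w) PP (-1, y) (-1, 3 * W) :=
        threearms_up hW k1 (by omega) k2
      exact hnv ⟨φ, (-1, 3 * W), hφ, rfl, k3.trans k4⟩
    have hc' : Conn (Function.update (dual w) (-1, h - 1, true) true) PP φ ψ := by
      rw [← hd]; exact hc
    have hend : Conn (dual w) PP φ (-1, h - 1) := by
      rcases hc'.split_edge with k | ⟨u, v, k1, k2, k3⟩
      · rw [← hd'] at k
        exact absurd ⟨φ, ψ, hφ, hψ, k⟩ hnv
      · rw [← hd'] at k2 k3
        rcases k1 with ⟨k4, k5⟩ | ⟨k4, k5⟩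
        · rw [k4] at k2
          exact k2
        · rw [k4] at k2
          have e1 : tgt ((-1, h - 1, true) : Edge) = (-1, h) := by
            simp [tgt]
          rw [e1] at k2
          exact absurd k2 (hno h le_rfl (by omega))
    refine ⟨φ, hφ, Conn.symm ?_⟩
    refine hend.induction_right (P := fun x => Conn (dual ω) PP φ x) (Conn.refl hend.mem_left) ?_
    rintro x y hx ⟨hxB, hyB, e, he, heo⟩ ih
    refine ih.tail ⟨hxB, hyB, e, he, ?_⟩
    by_cases k : (crossed e).1 = -1 ∧ (crossed e).2.2 = false ∧ h < (crossed e).2.1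
    · exfalso
      obtain ⟨ex, ey, et⟩ := e
      have hy : Conn (dual w) PP φ y := hx.tail ⟨hxB, hyB, _, he, heo⟩
      cases et
      · simp [crossed] at k
      · simp only [crossed, if_true] at k
        obtain ⟨k1, -, k2⟩ := k
        have key : Conn (dual w) PP φ (-1, ey) := by
          rcases he with ⟨k3, _⟩ | ⟨_, k4⟩
          · rw [k3] at hx
            simpa [src, k1] using hx
          · rw [k4] at hy
            simpa [src, k1] using hy
        have hm := key.mem_right
        simp only [hPP, rect, Set.mem_ofPred_eq] at hm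
        exact hno ey (by omega) (by omega) key
    · simp only [dual] at heo ⊢
      rw [hw] at heo
      unfold threearms_w at heo
      rw [if_neg k] at heo
      exact heo

end Pool.Agent.H29.Kap

end

section

/-! # Second moment of the number of crossing clusters for `p ≤ 1/2` -/

set_option autoImplicit false

namespace Pool.Agent.H29.Kap

open Pool.Agent.H89.Perc Pool.Agent.Perc

theorem crossmom_long (k : ℕ) : ∃ c > (0 : ℝ), ∀ m : ℕ, 1 ≤ m →
    c ≤ Pool.Agent.H89.Perc.Pr half {ω | HCross ω 0 (3 * m * k + m) 0 m} := by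
  classical
  induction k with
  | zero =>
    refine ⟨1 / 2, by norm_num, fun m _ => ?_⟩
    have := half_le_hcross m
    simpa using this
  | succ k ih =>
    obtain ⟨c, hc, ih⟩ := ih
    obtain ⟨c', hc', hr⟩ := rsw
    refine ⟨c * c' * (1 / 2), by positivity, fun m hm => ?_⟩
    have i1 := ih m hm
    have i2 := hr m hm
    have i3 := half_le_vcross m
    set L : ℤ := 3 * m * k with hL
    have hL0 : 0 ≤ L := by positivity
    have j2 : c' ≤ Pool.Agent.H89.Perc.Pr half {ω | HCross ω L (L + 4 * m) 0 m} := by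
      have := Pr_hcross_translate (p := half) (a := 0) (b := 4 * m) (c := 0) (d := m) L 0
      rw [← this] at i2
      simpa [add_comm] using i2
    have j3 : 1 / 2 ≤ Pool.Agent.H89.Perc.Pr half {ω | VCross ω L (L + m) 0 m} := by
      have := Pr_vcross_translate (p := half) (a := 0) (b := m) (c := 0) (d := m) L 0
      rw [← this] at i3
      simpa [add_comm] using i3
    have f1 := fkg (p := half) (localOn_hcross 0 (L + m) 0 m) (localOn_hcross L (L + 4 * m) 0 m)
      (incr_hcross _ _ _ _) (incr_hcross _ _ _ _)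
    have f2 := fkg (p := half) ((localOn_hcross 0 (L + m) 0 m).inter'
      (localOn_hcross L (L + 4 * m) 0 m)) (localOn_vcross L (L + m) 0 m)
      ((incr_hcross _ _ _ _).inter (incr_hcross _ _ _ _)) (incr_vcross _ _ _ _)
    have hsub : ({ω | HCross ω 0 (L + m) 0 m} ∩ {ω | HCross ω L (L + 4 * m) 0 m}) ∩
        {ω | VCross ω L (L + m) 0 m} ⊆ {ω | HCross ω 0 (3 * m * ((k + 1 : ℕ) : ℤ) + m) 0 m} := by
      rintro ω ⟨⟨h1, h2⟩, h3⟩
      have e : 3 * (m : ℤ) * ((k + 1 : ℕ) : ℤ) + m = L + 4 * m := by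
        rw [hL]; push_cast; ring
      rw [Set.mem_ofPred_eq, e]
      exact crossmom_glue hL0 (by omega) (by omega) h1 h2 h3
    have f3 := Pool.Agent.H89.Perc.Pr_mono (p := half) hsub
    have g1 : c * c' ≤ Pool.Agent.H89.Perc.Pr half
        ({ω | HCross ω 0 (L + m) 0 m} ∩ {ω | HCross ω L (L + 4 * m) 0 m}) :=
      (mul_le_mul i1 j2 hc'.le (hc.le.trans i1)).trans f1
    have g2 : c * c' * (1 / 2) ≤ _ :=
      (mul_le_mul g1 j3 (by norm_num) ((mul_pos hc hc').le.trans g1)).trans f2
    exact g2.trans f3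

theorem crossmom_line (k : ℕ) :
    (1 / 2 : ℝ) ^ k ≤ Pool.Agent.H89.Perc.Pr half {ω | VCross ω 0 0 0 k} := by
  classical
  induction k with
  | zero =>
    have : {ω : Config | VCross ω 0 0 0 ((0 : ℕ) : ℤ)} = Set.univ := by
      ext ω
      simp only [Set.mem_ofPred_eq, Set.mem_univ, iff_true]
      exact ⟨(0, 0), (0, 0), rfl, rfl, Conn.refl ⟨le_rfl, le_rfl, le_rfl, le_rfl⟩⟩
    rw [this, Pr_univ, pow_zero]
  | succ k ih =>
    have hloc : LocalOn {((0, (k : ℤ), true) : Edge)} {ω : Config | ω (0, (k : ℤ), true) = true} := by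
      intro ω ω' h hA
      have : ω (0, (k : ℤ), true) = ω' (0, (k : ℤ), true) := h _ (by simp)
      simp only [Set.mem_ofPred_eq] at hA ⊢
      rw [← this]
      exact hA
    have hinc : Incr {ω : Config | ω (0, (k : ℤ), true) = true} := fun ω ω' h hA => h _ hA
    have f1 := fkg (p := half) (localOn_vcross 0 0 0 (k : ℤ)) hloc (incr_vcross _ _ _ _) hinc
    have hsub : {ω | VCross ω 0 0 0 (k : ℤ)} ∩ {ω : Config | ω (0, (k : ℤ), true) = true} ⊆
        {ω | VCross ω 0 0 0 ((k + 1 : ℕ) : ℤ)} := by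
      rintro ω ⟨⟨u, v, hu, hv, hc⟩, h2⟩
      refine ⟨u, (0, (k : ℤ) + 1), hu, by push_cast; rfl, ?_⟩
      have hs : rect 0 0 0 (k : ℤ) ⊆ rect 0 0 0 ((k + 1 : ℕ) : ℤ) := by
        intro w hw
        simp only [rect, Set.mem_ofPred_eq] at hw ⊢
        push_cast
        omega
      have hvm := hc.mem_right
      have hv' : v = (0, (k : ℤ)) := by
        simp only [rect, Set.mem_ofPred_eq] at hvm
        exact Prod.ext (by simp only; omega) hv
      rw [hv'] at hc
      refine (hc.mono_set hs).tail ⟨hs hc.mem_right, ?_, (0, (k : ℤ), true), Or.inl ⟨rfl, rfl⟩, h2⟩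
      refine ⟨le_rfl, le_rfl, ?_, ?_⟩
      · show (0 : ℤ) ≤ (k : ℤ) + 1
        omega
      · show (k : ℤ) + 1 ≤ ((k + 1 : ℕ) : ℤ)
        push_cast
        exact le_rfl
    have f3 := Pool.Agent.H89.Perc.Pr_mono (p := half) hsub
    have g := rsw_edge (0, (k : ℤ), true)
    calc (1 / 2 : ℝ) ^ (k + 1) = (1 / 2) ^ k * (1 / 2) := pow_succ _ _
      _ ≤ _ := (mul_le_mul ih g (by norm_num) ((by positivity : (0:ℝ) ≤ (1/2)^k).trans ih)).trans f1
      _ ≤ _ := f3

theorem crossmom_vert : ∃ c > (0 : ℝ), ∀ n : ℕ, 1 ≤ n →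
    c ≤ Pool.Agent.H89.Perc.Pr half {ω | VCross ω 0 (n - 1) (-1) (8 * n)} := by
  obtain ⟨c, hc, h⟩ := crossmom_long 6
  refine ⟨min c ((1 / 2) ^ 9), by positivity, fun n hn => ?_⟩
  by_cases h1 : n = 1
  · subst h1
    refine (min_le_right _ _).trans ((crossmom_line 9).trans (le_of_eq ?_))
    have := Pr_vcross_translate (p := half) (a := 0) (b := 0) (c := 0) (d := 9) 0 (-1)
    rw [show ((9 : ℕ) : ℤ) = 9 from rfl, ← this]
    norm_num
  · obtain ⟨m, rfl⟩ : ∃ m, n = m + 1 := ⟨n - 1, by omega⟩
    have hm : 1 ≤ m := by omega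
    refine (min_le_left _ _).trans ((h m hm).trans ?_)
    rw [← Pr_vcross_eq_hcross]
    have := Pr_vcross_translate (p := half) (a := 0) (b := m) (c := 0)
      (d := 3 * m * ((6 : ℕ) : ℤ) + m) 0 (-1)
    rw [← this]
    refine Pool.Agent.H89.Perc.Pr_mono ?_
    intro ω hω
    rw [Set.mem_ofPred_eq] at hω ⊢
    refine VCross.mono hω ?_ ?_ ?_ ?_ ?_ <;> push_cast <;> omega

theorem crossmom_q : ∃ q : ℝ, 0 ≤ q ∧ q < 1 ∧ ∀ n : ℕ, 1 ≤ n → ∀ x1 x2 c d : ℤ,
    n ≤ x2 - x1 → c ≤ d → d - c ≤ 8 * n →
      Pool.Agent.H89.Perc.Pr half {ω | HCross ω x1 x2 c d} ≤ q := by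
  obtain ⟨c0, hc0, h⟩ := crossmom_vert
  refine ⟨max 0 (1 - c0), le_max_left _ _, by rw [max_lt_iff]; constructor <;> linarith, ?_⟩
  intro n hn x1 x2 c d h1 h2 h3
  refine le_trans ?_ (le_max_right _ _)
  have s1 : {ω : Config | HCross ω x1 x2 c d} ⊆ {ω | HCross ω (0 + x1) (n + x1) (0 + c) (8 * n + c)} := by
    intro ω hω
    rw [Set.mem_ofPred_eq] at hω ⊢
    refine HCross.mono hω ?_ ?_ ?_ ?_ ?_ <;> omega
  refine (Pool.Agent.H89.Perc.Pr_mono s1).trans ?_
  rw [Pr_hcross_translate]
  have s2 : {ω : Config | HCross ω 0 n 0 (8 * n)} ⊆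
      {ω | dual ω ∈ {η | VCross η 0 ((n : ℤ) - 1) (-1) (8 * n)}}ᶜ := by
    intro ω hω hd
    exact not_hcross_and_dual_vcross (by omega) hω hd
  refine (Pool.Agent.H89.Perc.Pr_mono s2).trans ?_
  rw [Pr_compl (LocalOn.dual' (localOn_vcross _ _ _ _)), Pr_dual (localOn_vcross _ _ _ _),
    rsw_symm_half]
  linarith only [h, hn, h n hn]

theorem NC_moment : ∃ C : ℝ, ∀ n : ℕ, 1 ≤ n → ∀ x1 x2 c d : ℤ, n ≤ x2 - x1 → c ≤ d →
    d - c ≤ 8 * n → ∀ p : ℝ, 0 ≤ p → p ≤ 1 / 2 →
      Ex p (redges x1 x2 c d) (fun S => (NC (ofS S) x1 x2 c d : ℝ) ^ 2) ≤ C := by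
  obtain ⟨q, hq0, hq1, hq⟩ := crossmom_q
  have hsum : Summable (fun k : ℕ => (2 * (k : ℝ) + 1) * q ^ (k + 1)) := by
    have s1 : Summable (fun k : ℕ => (k : ℝ) ^ 1 * q ^ k) :=
      summable_pow_mul_geometric_of_norm_lt_one 1 (by rw [Real.norm_eq_abs, abs_of_nonneg hq0]; exact hq1)
    have s2 : Summable (fun k : ℕ => q ^ k) := summable_geometric_of_lt_one hq0 hq1
    have s3 := (s1.mul_left (2 * q)).add (s2.mul_left q)
    refine s3.congr fun k => ?_
    rw [pow_one, pow_succ]
    ring
  refine ⟨∑' k : ℕ, (2 * (k : ℝ) + 1) * q ^ (k + 1), ?_⟩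
  intro n hn x1 x2 c d h1 h2 h3 p hp0 hp1
  classical
  set F := redges x1 x2 c d with hF
  have hp1' : p ≤ 1 := by linarith only [hp1]
  -- the crossing event
  set A : Finset Edge → Prop := fun T => HCross (ofS T) x1 x2 c d with hA
  have hUp : UpOn F A := by
    rintro S T hST _ ⟨u, v, hu, hv, hc⟩
    exact ⟨u, v, hu, hv, hc.mono le_rfl (ofS_mono hST)⟩
  have hloc : LocalOn F {ω | HCross ω x1 x2 c d} := by
    rintro ω ω' h ⟨u, v, hu, hv, hc⟩
    exact ⟨u, v, hu, hv, Conn.congr (fun e he he' => h e (mem_redges.2 ⟨he, he'⟩)) hc⟩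
  have hPA : Pool.Agent.Perc.Pr p F A ≤ q := by
    have m1 : Pool.Agent.Perc.Pr p F A ≤ Pool.Agent.Perc.Pr (1 / 2) F A := by
      refine Ex_mono_p hp0 hp1 (by norm_num) ?_
      intro S T hST hT
      exact ind_le_ind (hUp S T hST hT)
    refine m1.trans ?_
    have m2 := Pr_eq_Ex hloc half
    have m3 := hq n hn x1 x2 c d h1 h2 h3
    rw [m2] at m3
    exact m3
  have hPA0 : 0 ≤ Pool.Agent.Perc.Pr p F A := Pool.Agent.Perc.Pr_nonneg hp0 hp1' A
  -- upper bound for the number of clusters
  have hb : ∀ S : Finset Edge, NC (ofS S) x1 x2 c d ≤ (rect x1 x2 c d).ncard := by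
    intro S
    have e1 : clusters (ofS S) (rect x1 x2 c d) =
        (fun v => {w | Conn (ofS S) (rect x1 x2 c d) v w}) '' rect x1 x2 c d := by
      ext C
      constructor
      · rintro ⟨v, hv, rfl⟩; exact ⟨v, hv, rfl⟩
      · rintro ⟨v, hv, rfl⟩; exact ⟨v, hv, rfl⟩
    refine (Set.ncard_le_ncard (t := clusters (ofS S) (rect x1 x2 c d)) (fun C hC => hC.1)
      (clusters_finite _ (rect_finite _ _ _ _))).trans ?_
    rw [e1]
    exact Set.ncard_image_le (rect_finite _ _ _ _)
  set M := (rect x1 x2 c d).ncard with hM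
  calc Ex p F (fun S => (NC (ofS S) x1 x2 c d : ℝ) ^ 2)
      ≤ Ex p F (fun S => ∑ k ∈ Finset.range M, (2 * (k : ℝ) + 1) * ind (DisjK A (k + 1)) S) := by
        refine Ex_mono hp0 hp1' fun S _ => ?_
        rw [crossmom_sq _ M (hb S)]
        refine Finset.sum_le_sum fun k _ => ?_
        refine mul_le_mul_of_nonneg_left ?_ (by positivity)
        by_cases hk : k + 1 ≤ NC (ofS S) x1 x2 c d
        · rw [if_pos hk, ind_of (A := DisjK A (k + 1)) (crossmom_disjK hk)]
        · rw [if_neg hk]; exact ind_nonneg _ _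
    _ = ∑ k ∈ Finset.range M, (2 * (k : ℝ) + 1) * Pool.Agent.Perc.Pr p F (DisjK A (k + 1)) := by
        rw [Ex_sum]
        refine Finset.sum_congr rfl fun k _ => ?_
        rw [Ex_const_mul]
        rfl
    _ ≤ ∑ k ∈ Finset.range M, (2 * (k : ℝ) + 1) * q ^ (k + 1) := by
        refine Finset.sum_le_sum fun k _ => ?_
        refine mul_le_mul_of_nonneg_left ?_ (by positivity)
        exact (bk_pow hp0 hp1' hUp (k + 1)).trans (pow_le_pow_left₀ hPA0 hPA _)
    _ ≤ ∑' k : ℕ, (2 * (k : ℝ) + 1) * q ^ (k + 1) :=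
        hsum.sum_le_tsum _ fun k _ => by positivity

end Pool.Agent.H29.Kap

end

section

/-! # Second differences of cluster counts are bounded by the number of crossing clusters -/

set_option autoImplicit false

namespace Pool.Agent.H29.Kap

open Pool.Agent.H89.Perc

/-- clusters to the left of `x2` -/
theorem seconddiff_left {ω : Config} {a b c d x : ℤ} (hxb : x ≤ b) :
    {C | C ∈ clusters ω (rect a b c d) ∧ ∀ v ∈ C, v.1 < x} =
      {C | C ∈ clusters ω (rect a x c d) ∧ ∀ v ∈ C, v.1 < x} := by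
  have hSS : rect a x c d ⊆ rect a b c d := fun v hv =>
    ⟨hv.1, hv.2.1.trans hxb, hv.2.2⟩
  ext C
  constructor
  · rintro ⟨h1, h2⟩
    refine ⟨seconddiff_cluster_of_subset hSS h1 ?_, h2⟩
    intro v hv
    have h3 := cluster_subset h1 hv
    exact ⟨h3.1, (h2 v hv).le, h3.2.2⟩
  · rintro ⟨h1, h2⟩
    refine ⟨seconddiff_cluster_of_closed hSS h1 ?_, h2⟩
    intro w hw w' hst
    have h3 := h2 w hw
    have h4 := hst.2.1
    have h5 := hst.fst_le
    rw [seconddiff_mem_rect] at h4 ⊢
    omega

theorem second_diff_free {ω : Config} {x0 x1 x2 x3 c d : ℤ} (h01 : x0 ≤ x1) (h12 : x1 ≤ x2)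
    (h23 : x2 ≤ x3) :
    |(K ω (rect x0 x3 c d) : ℤ) - K ω (rect x0 x2 c d) - K ω (rect x1 x3 c d)
      + K ω (rect x1 x2 c d)| ≤ NC ω x1 x2 c d := by
  have fI := clusters_finite ω (rect_finite x1 x2 c d)
  have fA := clusters_finite ω (rect_finite x0 x2 c d)
  have fB := clusters_finite ω (rect_finite x1 x3 c d)
  have fU := clusters_finite ω (rect_finite x0 x3 c d)
  have sIA : rect x1 x2 c d ⊆ rect x0 x2 c d := fun v hv => ⟨h01.trans hv.1, hv.2⟩
  have sBU : rect x1 x3 c d ⊆ rect x0 x3 c d := fun v hv => ⟨h01.trans hv.1, hv.2⟩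
  have sIB : rect x1 x2 c d ⊆ rect x1 x3 c d := fun v hv => ⟨hv.1, hv.2.1.trans h23, hv.2.2⟩
  rw [seconddiff_split x2 (a := x0) (b := x3), seconddiff_split x2 (a := x0) (b := x2),
    seconddiff_split x2 (a := x1) (b := x3), seconddiff_split x2 (a := x1) (b := x2),
    seconddiff_left (a := x0) h23, seconddiff_left (a := x1) h23]
  set U1 := {C | C ∈ clusters ω (rect x0 x3 c d) ∧ ∃ v ∈ C, x2 ≤ v.1} with hU1
  set A1 := {C | C ∈ clusters ω (rect x0 x2 c d) ∧ ∃ v ∈ C, x2 ≤ v.1} with hA1
  set B1 := {C | C ∈ clusters ω (rect x1 x3 c d) ∧ ∃ v ∈ C, x2 ≤ v.1} with hB1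
  set I1 := {C | C ∈ clusters ω (rect x1 x2 c d) ∧ ∃ v ∈ C, x2 ≤ v.1} with hI1
  set N1 := {C | C ∈ clusters ω (rect x1 x2 c d) ∧ (∃ u ∈ C, u.1 = x1) ∧ ∃ v ∈ C, v.1 = x2}
    with hN1
  have hNC : NC ω x1 x2 c d = N1.ncard := rfl
  have fN1 : N1.Finite := fI.subset fun C hC => hC.1
  have fI1 : I1.Finite := fI.subset fun C hC => hC.1
  have fA1 : A1.Finite := fA.subset fun C hC => hC.1
  have fB1 : B1.Finite := fB.subset fun C hC => hC.1
  have fU1 : U1.Finite := fU.subset fun C hC => hC.1
  -- the four inequalities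
  have i1 : A1.ncard ≤ I1.ncard := by
    refine seconddiff_ncard_le sIA (fun C hC => hC.1) (fun C hC => hC.1) fI1 ?_
    rintro C ⟨hC, v, hv, hv2⟩
    have h3 := cluster_subset hC hv
    have h4 : v ∈ rect x1 x2 c d := ⟨h12.trans hv2, h3.2⟩
    exact ⟨_, ⟨seconddiff_mk h4, v, Conn.refl h4, hv2⟩, v, hv, Conn.refl h4⟩
  have i2 : I1.ncard ≤ A1.ncard + N1.ncard := by
    refine (Set.ncard_le_ncard ?_ (fA1.union fN1)).trans (Set.ncard_union_le A1 N1)
    rintro C ⟨hC, v, hv, hv2⟩
    by_cases h : ∃ u ∈ C, u.1 = x1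
    · right
      refine ⟨hC, h, v, hv, ?_⟩
      have h3 := cluster_subset hC hv
      exact le_antisymm h3.2.1 hv2
    · left
      refine ⟨seconddiff_cluster_of_closed sIA hC ?_, v, hv, hv2⟩
      intro w hw w' hst
      have h3 : w.1 ≠ x1 := fun h' => h ⟨w, hw, h'⟩
      have h4 := hst.2.1
      have h5 := hst.fst_le
      have h6 := cluster_subset hC hw
      rw [seconddiff_mem_rect] at h4 h6 ⊢
      omega
  have i3 : U1.ncard ≤ B1.ncard := by
    refine seconddiff_ncard_le sBU (fun C hC => hC.1) (fun C hC => hC.1) fB1 ?_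
    rintro C ⟨hC, v, hv, hv2⟩
    have h3 := cluster_subset hC hv
    have h4 : v ∈ rect x1 x3 c d := ⟨h12.trans hv2, h3.2⟩
    exact ⟨_, ⟨seconddiff_mk h4, v, Conn.refl h4, hv2⟩, v, hv, Conn.refl h4⟩
  have i4 : B1.ncard ≤ U1.ncard + N1.ncard := by
    have h1 : B1 ⊆ U1 ∪ {C | C ∈ B1 ∧ ∃ u ∈ C, u.1 = x1} := by
      rintro C ⟨hC, v, hv, hv2⟩
      by_cases h : ∃ u ∈ C, u.1 = x1
      · exact Or.inr ⟨⟨hC, v, hv, hv2⟩, h⟩
      · left
        refine ⟨seconddiff_cluster_of_closed sBU hC ?_, v, hv, hv2⟩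
        intro w hw w' hst
        have h3 : w.1 ≠ x1 := fun h' => h ⟨w, hw, h'⟩
        have h4 := hst.2.1
        have h5 := hst.fst_le
        have h6 := cluster_subset hC hw
        rw [seconddiff_mem_rect] at h4 h6 ⊢
        omega
    have f2 : {C | C ∈ B1 ∧ ∃ u ∈ C, u.1 = x1}.Finite := fB1.subset fun C hC => hC.1
    refine (Set.ncard_le_ncard h1 (fU1.union f2)).trans ((Set.ncard_union_le _ _).trans ?_)
    gcongr ?_ + ?_
    · exact le_rfl
    · refine seconddiff_ncard_le sIB (fun C hC => hC.1.1) (fun C hC => hC.1) fN1 ?_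
      rintro C ⟨⟨hC, v, hv, hv2⟩, u, hu, hu1⟩
      have h3 : Conn ω (rect x1 x3 c d) u v := by
        rw [mem_cluster_iff hC hu] at hv
        exact hv
      obtain ⟨u', v', h4, h5, h6, h7, -⟩ := h3.cross_x (a := x1) (b := x2) hu1.le hv2 h12
      have h8 : Conn ω (rect x1 x2 c d) u' v' := by
        refine h6.mono_set ?_
        rintro w ⟨hw1, hw2⟩
        exact ⟨hw2.1, hw2.2, hw1.2.2⟩
      refine ⟨_, ⟨seconddiff_mk h8.mem_left, ⟨u', Conn.refl h8.mem_left, h4⟩, v', h8, h5⟩, u', ?_,
        Conn.refl h8.mem_left⟩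
      rw [mem_cluster_iff hC hu]
      exact h7
  rw [hNC, abs_le]
  push_cast
  constructor <;> omega

/-- inner clusters of a smaller rectangle are inner clusters of a larger one -/
theorem seconddiff_inner_mono {ω : Config} {a b a' b' c d : ℤ} (ha : a ≤ a') (hb : b' ≤ b) :
    {C | C ∈ clusters ω (rect a' b' c d) ∧ Disjoint C (bd a' b' c d)} ⊆
      {C | C ∈ clusters ω (rect a b c d) ∧ Disjoint C (bd a b c d)} := by
  have hSS : rect a' b' c d ⊆ rect a b c d := fun v hv =>
    ⟨ha.trans hv.1, hv.2.1.trans hb, hv.2.2⟩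
  rintro C ⟨h1, h2⟩
  rw [Set.disjoint_left] at h2
  refine ⟨seconddiff_cluster_of_closed hSS h1 ?_, ?_⟩
  · intro w hw w' hst
    have h3 := cluster_subset h1 hw
    have h4 : ¬ (w.1 = a' ∨ w.1 = b' ∨ w.2 = c ∨ w.2 = d) := fun h => h2 hw ⟨h3, h⟩
    have h5 := hst.fst_le
    have h6 := hst.snd_le
    rw [seconddiff_mem_rect] at h3 ⊢
    omega
  · rw [Set.disjoint_left]
    rintro v hv ⟨hv1, hv2⟩
    have h3 := cluster_subset h1 hv
    apply h2 hv
    refine ⟨h3, ?_⟩
    rw [seconddiff_mem_rect] at h3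
    omega

theorem second_diff_wired {ω : Config} {x0 x1 x2 x3 c d : ℤ} (h01 : x0 ≤ x1) (h12 : x1 ≤ x2)
    (h23 : x2 ≤ x3) :
    |(J ω (rect x0 x3 c d) (bd x0 x3 c d) : ℤ) - J ω (rect x0 x2 c d) (bd x0 x2 c d)
      - J ω (rect x1 x3 c d) (bd x1 x3 c d) + J ω (rect x1 x2 c d) (bd x1 x2 c d)|
      ≤ NC ω x1 x2 c d := by
  have fI := clusters_finite ω (rect_finite x1 x2 c d)
  have fA := clusters_finite ω (rect_finite x0 x2 c d)
  have fB := clusters_finite ω (rect_finite x1 x3 c d)
  have fU := clusters_finite ω (rect_finite x0 x3 c d)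
  have sAU : rect x0 x2 c d ⊆ rect x0 x3 c d := fun v hv => ⟨hv.1, hv.2.1.trans h23, hv.2.2⟩
  have sBU : rect x1 x3 c d ⊆ rect x0 x3 c d := fun v hv => ⟨h01.trans hv.1, hv.2⟩
  have sIU : rect x1 x2 c d ⊆ rect x0 x3 c d := fun v hv =>
    ⟨h01.trans hv.1, hv.2.1.trans h23, hv.2.2⟩
  have sIA : rect x1 x2 c d ⊆ rect x0 x2 c d := fun v hv => ⟨h01.trans hv.1, hv.2⟩
  unfold J
  set U1 := {C | C ∈ clusters ω (rect x0 x3 c d) ∧ Disjoint C (bd x0 x3 c d)} with hU1
  set A1 := {C | C ∈ clusters ω (rect x0 x2 c d) ∧ Disjoint C (bd x0 x2 c d)} with hA1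
  set B1 := {C | C ∈ clusters ω (rect x1 x3 c d) ∧ Disjoint C (bd x1 x3 c d)} with hB1
  set I1 := {C | C ∈ clusters ω (rect x1 x2 c d) ∧ Disjoint C (bd x1 x2 c d)} with hI1
  set N1 := {C | C ∈ clusters ω (rect x1 x2 c d) ∧ (∃ u ∈ C, u.1 = x1) ∧ ∃ v ∈ C, v.1 = x2}
    with hN1
  have hNC : NC ω x1 x2 c d = N1.ncard := rfl
  have fN1 : N1.Finite := fI.subset fun C hC => hC.1
  have fA1 : A1.Finite := fA.subset fun C hC => hC.1
  have fB1 : B1.Finite := fB.subset fun C hC => hC.1
  have fU1 : U1.Finite := fU.subset fun C hC => hC.1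
  have hAU : A1 ⊆ U1 := seconddiff_inner_mono le_rfl h23
  have hBU : B1 ⊆ U1 := seconddiff_inner_mono h01 le_rfl
  have hIA : I1 ⊆ A1 := seconddiff_inner_mono h01 le_rfl
  have hIB : I1 ⊆ B1 := seconddiff_inner_mono le_rfl h23
  have hAB : A1 ∩ B1 = I1 := by
    apply Set.Subset.antisymm
    · rintro C ⟨⟨h1, h2⟩, h3, h4⟩
      rw [Set.disjoint_left] at h2 h4
      refine ⟨seconddiff_cluster_of_subset sIA h1 ?_, ?_⟩
      · intro v hv
        exact ⟨(cluster_subset h3 hv).1, (cluster_subset h1 hv).2⟩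
      · rw [Set.disjoint_left]
        rintro v hv ⟨hv1, hv2⟩
        have h5 := cluster_subset h1 hv
        have h6 := cluster_subset h3 hv
        rcases hv2 with h | h | h | h
        · exact h4 hv ⟨h6, Or.inl h⟩
        · exact h2 hv ⟨h5, Or.inr (Or.inl h)⟩
        · exact h2 hv ⟨h5, Or.inr (Or.inr (Or.inl h))⟩
        · exact h2 hv ⟨h5, Or.inr (Or.inr (Or.inr h))⟩
    · exact Set.subset_inter hIA hIB
  have e1 : (A1 ∪ B1).ncard + I1.ncard = A1.ncard + B1.ncard := by
    rw [← hAB]
    exact Set.ncard_union_add_ncard_inter A1 B1 fA1 fB1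
  have e2 : (U1 \ (A1 ∪ B1)).ncard + (A1 ∪ B1).ncard = U1.ncard :=
    Set.ncard_sdiff_add_ncard_of_subset (Set.union_subset hAU hBU) fU1
  have e3 : (U1 \ (A1 ∪ B1)).ncard ≤ N1.ncard := by
    refine seconddiff_ncard_le sIU (fun C hC => hC.1.1) (fun C hC => hC.1) fN1 ?_
    rintro C ⟨⟨h1, h2⟩, h3⟩
    rw [Set.disjoint_left] at h2
    have hu : ∃ u ∈ C, u.1 ≤ x1 := by
      by_contra hcon
      push Not at hcon
      apply h3
      right
      refine ⟨seconddiff_cluster_of_subset sBU h1 ?_, ?_⟩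
      · intro v hv
        exact ⟨(hcon v hv).le, (cluster_subset h1 hv).2⟩
      · rw [Set.disjoint_left]
        rintro v hv ⟨hv1, hv2⟩
        have h5 := cluster_subset h1 hv
        have h6 := hcon v hv
        rcases hv2 with h | h | h | h
        · omega
        · exact h2 hv ⟨h5, Or.inr (Or.inl h)⟩
        · exact h2 hv ⟨h5, Or.inr (Or.inr (Or.inl h))⟩
        · exact h2 hv ⟨h5, Or.inr (Or.inr (Or.inr h))⟩
    have hv : ∃ v ∈ C, x2 ≤ v.1 := by
      by_contra hcon
      push Not at hcon
      apply h3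
      left
      refine ⟨seconddiff_cluster_of_subset sAU h1 ?_, ?_⟩
      · intro v hv
        have h5 := cluster_subset h1 hv
        exact ⟨h5.1, (hcon v hv).le, h5.2.2⟩
      · rw [Set.disjoint_left]
        rintro v hv ⟨hv1, hv2⟩
        have h5 := cluster_subset h1 hv
        have h6 := hcon v hv
        rcases hv2 with h | h | h | h
        · exact h2 hv ⟨h5, Or.inl h⟩
        · omega
        · exact h2 hv ⟨h5, Or.inr (Or.inr (Or.inl h))⟩
        · exact h2 hv ⟨h5, Or.inr (Or.inr (Or.inr h))⟩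
    obtain ⟨u, hu, hu1⟩ := hu
    obtain ⟨v, hv, hv1⟩ := hv
    have h4 : Conn ω (rect x0 x3 c d) u v := by
      rw [mem_cluster_iff h1 hu] at hv
      exact hv
    obtain ⟨u', v', h5, h6, h7, h8, -⟩ := h4.cross_x (a := x1) (b := x2) hu1 hv1 h12
    have h9 : Conn ω (rect x1 x2 c d) u' v' := by
      refine h7.mono_set ?_
      rintro w ⟨hw1, hw2⟩
      exact ⟨hw2.1, hw2.2, hw1.2.2⟩
    refine ⟨_, ⟨seconddiff_mk h9.mem_left, ⟨u', Conn.refl h9.mem_left, h5⟩, v', h9, h6⟩, u', ?_,
      Conn.refl h9.mem_left⟩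
    rw [mem_cluster_iff h1 hu]
    exact h8
  rw [hNC, abs_le]
  constructor <;> omega

end Pool.Agent.H29.Kap

end

section

/-! # Stability of the set `R` under changes of an edge without open arm -/

set_option autoImplicit false

namespace Pool.Agent.H29.Kap

open Pool.Agent.H89.Perc

/-- The main case of `stabA`. -/
theorem stabA_core {ω : Config} {a b c d : ℤ} {g e : Edge} (hg : g ∈ redges a b c d)
    (he : e ∈ redges a b c d) (h : ¬ OArm ω a b c d g) (hge : e ≠ g)
    (hO : ∃ u, (u = src e ∨ u = tgt e) ∧ ∃ w ∈ bd a b c d,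
      Conn (Function.update (Function.update ω g false) e false) (rect a b c d) u w)
    (hC : CArm (Function.update ω g false) a b c d e) :
    CArm (Function.update ω g true) a b c d e := by
  classical
  by_contra hno
  obtain ⟨hg1, hg2⟩ := mem_redges.1 hg
  obtain ⟨he1, he2⟩ := mem_redges.1 he
  have hab : a ≤ b := le_trans hg1.1 hg1.2.1
  have hcd : c ≤ d := le_trans hg1.2.2.1 hg1.2.2.2
  set D : Set Vert := rect a b c d with hD
  set T : Set Vert := rect (a - 1) b (c - 1) d with hT
  set ω1 : Config := Function.update (Function.update ω g true) e true with hω1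
  set ω0 : Config := Function.update (Function.update ω g false) e false with hω0
  -- faces of an edge of `D`
  have hface : ∀ f : Edge, src f ∈ D → tgt f ∈ D → src f ∈ T ∧ lowFace f ∈ T := by
    rintro ⟨x, y, t⟩ k1 k2
    rw [hD] at k1 k2
    rw [hT]
    cases t <;>
    · simp only [src, tgt, lowFace, rect, Set.mem_ofPred_eq, if_true, Bool.false_eq_true,
        if_false] at k1 k2 ⊢
      omega
  set FF : Set Vert := {G | ∃ F, (F = src e ∨ F = lowFace e) ∧ Conn (dual ω1) T F G} with hFF
  have hFFbd : ∀ G ∈ FF, G ∉ bd (a - 1) b (c - 1) d := by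
    rintro G ⟨F, k1, k2⟩ k3
    exact hno ⟨F, k1, G, k3, k2⟩
  have hFFT : ∀ G ∈ FF, G ∈ T := by
    rintro G ⟨F, k1, k2⟩
    exact k2.mem_right
  have hFF1 : src e ∈ FF := ⟨_, Or.inl rfl, Conn.refl (hface e he1 he2).1⟩
  have hFF2 : lowFace e ∈ FF := ⟨_, Or.inr rfl, Conn.refl (hface e he1 he2).2⟩
  set χ : Vert → ZMod 2 := fun G => if G ∈ FF then 1 else 0 with hχ
  set z : Edge → ZMod 2 := fun f => χ (src f) + χ (lowFace f) with hz
  have hzv : ∀ V, vsum z V = 0 := by
    intro V
    simp only [vsum, hz, src, lowFace, if_true, Bool.false_eq_true, if_false]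
    linear_combination z2_add_self (χ (V.1, V.2)) + z2_add_self (χ (V.1 - 1, V.2)) +
      z2_add_self (χ (V.1, V.2 - 1)) + z2_add_self (χ (V.1 - 1, V.2 - 1))
  have hze : z e = 0 := by
    simp only [hz, hχ]
    rw [if_pos hFF1, if_pos hFF2]
    decide
  -- an edge with `z ≠ 0` is an edge of `D`
  have hzD : ∀ f, z f ≠ 0 → src f ∈ D ∧ tgt f ∈ D := by
    rintro ⟨x, y, t⟩ k
    have k1 : src (x, y, t) ∈ FF ∨ lowFace (x, y, t) ∈ FF := by
      by_contra k2
      push Not at k2
      apply k
      simp only [hz, hχ]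
      rw [if_neg k2.1, if_neg k2.2]
      decide
    have k2 : ∀ G ∈ FF, a ≤ G.1 ∧ G.1 ≤ b - 1 ∧ c ≤ G.2 ∧ G.2 ≤ d - 1 := by
      intro G hG
      have k3 := hFFT G hG
      have k4 := hFFbd G hG
      have k5 : ¬ (G.1 = a - 1 ∨ G.1 = b ∨ G.2 = c - 1 ∨ G.2 = d) := fun k6 => k4 ⟨k3, k6⟩
      rw [hT] at k3
      simp only [rect, Set.mem_ofPred_eq] at k3
      omega
    rw [hD]
    rcases k1 with k1 | k1 <;> have k3 := k2 _ k1 <;> cases t <;>
    · simp only [src, tgt, lowFace, rect, Set.mem_ofPred_eq, if_true, Bool.false_eq_true,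
        if_false] at k3 ⊢
      omega
  have hzopen : ∀ f, z f ≠ 0 → ω1 f = true := by
    intro f k
    by_contra k1
    rw [Bool.not_eq_true] at k1
    obtain ⟨k2, k3⟩ := hzD f k
    obtain ⟨k4, k5⟩ := hface f k2 k3
    have k6 : Step (dual ω1) T (lowFace f) (src f) := dual_step k1 k5 k4
    have k7 : src f ∈ FF ↔ lowFace f ∈ FF := by
      constructor
      · rintro ⟨F, k8, k9⟩
        exact ⟨F, k8, k9.tail k6.symm⟩
      · rintro ⟨F, k8, k9⟩
        exact ⟨F, k8, k9.tail k6⟩
    apply k
    simp only [hz, hχ, k7]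
    exact z2_add_self _
  set O : Set Vert := {v | ∃ w ∈ bd a b c d, Conn ω0 D v w} with hOdef
  have hgO : ∀ v, (v = src g ∨ v = tgt g) → v ∉ O := by
    rintro v k1 ⟨w, k2, k3⟩
    refine h ⟨v, k1, w, k2, k3.mono (le_refl _) ?_⟩
    intro f k4
    rw [hω0] at k4
    by_cases k5 : f = e
    · subst k5
      rw [Function.update_self] at k4
      exact absurd k4 (by decide)
    · rw [Function.update_of_ne k5] at k4
      exact k4
  have hzO : ∀ f, z f ≠ 0 → (src f ∈ O ↔ tgt f ∈ O) := by
    intro f k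
    by_cases k1 : f = g
    · subst k1
      exact ⟨fun k2 => absurd k2 (hgO _ (Or.inl rfl)), fun k2 => absurd k2 (hgO _ (Or.inr rfl))⟩
    · have k2 : f ≠ e := by
        rintro rfl
        exact k hze
      have k3 := hzopen f k
      rw [hω1, Function.update_of_ne k2, Function.update_of_ne k1] at k3
      have k4 : ω0 f = true := by
        rw [hω0, Function.update_of_ne k2, Function.update_of_ne k1]
        exact k3
      obtain ⟨k5, k6⟩ := hzD f k
      have k7 : Step ω0 D (src f) (tgt f) := ⟨k5, k6, f, joins_src_tgt f, k4⟩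
      constructor
      · rintro ⟨w, k8, k9⟩
        exact ⟨w, k8, k7.symm.conn.trans k9⟩
      · rintro ⟨w, k8, k9⟩
        exact ⟨w, k8, k7.conn.trans k9⟩
  set z' : Edge → ZMod 2 := fun f => if src f ∈ O then 0 else z f with hz'
  have hz'0 : ∀ f, z f = 0 → z' f = 0 := by
    intro f k
    simp only [hz']
    split_ifs
    · rfl
    · exact k
  have hz'O : ∀ f, (src f ∈ O ∨ tgt f ∈ O) → z' f = 0 := by
    intro f k
    by_cases k1 : z f = 0
    · exact hz'0 f k1
    · have k2 : src f ∈ O := by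
        rcases k with k | k
        · exact k
        · exact (hzO f k1).2 k
      simp only [hz']
      rw [if_pos k2]
  have hz'n : ∀ f, src f ∉ O → z' f = z f := by
    intro f k
    simp only [hz']
    rw [if_neg k]
  have hz'n2 : ∀ f, tgt f ∉ O → z' f = z f := by
    intro f k
    by_cases k1 : z f = 0
    · rw [hz'0 f k1, k1]
    · exact hz'n f fun k2 => k ((hzO f k1).1 k2)
  have hz'v : ∀ V, vsum z' V = 0 := by
    intro V
    have s1 : src (V.1, V.2, false) = V := rfl
    have s2 : src (V.1, V.2, true) = V := rfl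
    have s3 : tgt (V.1 - 1, V.2, false) = V := by simp [tgt]
    have s4 : tgt (V.1, V.2 - 1, true) = V := by simp [tgt]
    by_cases hV : V ∈ O
    · unfold vsum
      rw [hz'O _ (Or.inl (s1.symm ▸ hV)), hz'O _ (Or.inl (s2.symm ▸ hV)),
        hz'O (V.1 - 1, V.2, false) (Or.inr (by rw [s3]; exact hV)),
        hz'O (V.1, V.2 - 1, true) (Or.inr (by rw [s4]; exact hV))]
      decide
    · rw [← hzv V]
      unfold vsum
      rw [hz'n _ (s1.symm ▸ hV), hz'n _ (s2.symm ▸ hV),
        hz'n2 (V.1 - 1, V.2, false) (by rw [s3]; exact hV),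
        hz'n2 (V.1, V.2 - 1, true) (by rw [s4]; exact hV)]
  obtain ⟨W, hW⟩ := integRect (a := a - 1) (b := b) (c := c - 1) (d := d)
    (fun e' => z' (crossed e')) (by
      intro F _
      have e1 : fsum (fun e' => z' (crossed e')) F = vsum z' (F.1 + 1, F.2 + 1) := by
        simp only [fsum, vsum, crossed, if_true, Bool.false_eq_true, if_false, add_sub_cancel_right]
        ring
      rw [e1, hz'v])
  -- the value of `W` across an edge
  have hWe : ∀ f : Edge, lowFace f ∈ T → src f ∈ T → z' f = W (lowFace f) + W (src f) := by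
    intro f k1 k2
    have k3 := hW (uncross f) (by rw [src_uncross]; exact k1) (by rw [tgt_uncross]; exact k2)
    simp only [crossed_uncross, src_uncross, tgt_uncross] at k3
    exact k3
  -- the ring
  have hWring : ∀ G ∈ bd (a - 1) b (c - 1) d, W (b, d) = W G := by
    intro G hG
    refine (stabA_ring (by omega) (by omega) hG).const fun f k1 k2 _ => ?_
    have k3 := hWe (crossed f) (by rw [← src_eq_lowFace_crossed]; exact k1.1)
      (by rw [← tgt_eq_src_crossed]; exact k2.1)
    have k4 : z (crossed f) = 0 := by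
      simp only [hz, hχ]
      rw [← src_eq_lowFace_crossed, ← tgt_eq_src_crossed,
        if_neg (fun k5 => hFFbd _ k5 k1), if_neg (fun k5 => hFFbd _ k5 k2)]
      decide
    rw [hz'0 _ k4, ← src_eq_lowFace_crossed, ← tgt_eq_src_crossed] at k3
    exact z2_add_eq_zero.1 k3.symm
  -- closed dual paths which avoid `g` and `e`
  have hWdual : ∀ F G : Vert, Conn (dual ω1) T F G → W F = W G := by
    intro F G hFG
    refine hFG.const fun f k1 k2 k3 => ?_
    have k4 := hWe (crossed f) (by rw [← src_eq_lowFace_crossed]; exact k1)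
      (by rw [← tgt_eq_src_crossed]; exact k2)
    have k5 : z (crossed f) = 0 := by
      by_contra k6
      have k7 := hzopen _ k6
      simp only [dual, k7] at k3
      exact absurd k3 (by decide)
    rw [hz'0 _ k5, ← src_eq_lowFace_crossed, ← tgt_eq_src_crossed] at k4
    exact z2_add_eq_zero.1 k4.symm
  -- around a vertex of `O`
  have hfaces : ∀ V ∈ D, V ∈ T ∧ ((V.1 - 1, V.2) : Vert) ∈ T ∧ ((V.1, V.2 - 1) : Vert) ∈ T ∧
      ((V.1 - 1, V.2 - 1) : Vert) ∈ T := by
    intro V hV
    rw [hD] at hV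
    rw [hT]
    simp only [rect, Set.mem_ofPred_eq] at hV ⊢
    omega
  have hO_D : ∀ V ∈ O, V ∈ D := by
    rintro V ⟨w, _, k⟩
    exact k.mem_left
  have hWV : ∀ V ∈ O, W (V.1 - 1, V.2) = W V ∧ W (V.1, V.2 - 1) = W V ∧
      W (V.1 - 1, V.2 - 1) = W V := by
    intro V hV
    obtain ⟨f1, f2, f3, f4⟩ := hfaces V (hO_D V hV)
    have s3 : tgt (V.1 - 1, V.2, false) = V := by simp [tgt]
    have s4 : tgt (V.1, V.2 - 1, true) = V := by simp [tgt]
    have k1 := hWe (V.1, V.2, true) (by simpa [lowFace] using f2) f1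
    have k2 := hWe (V.1, V.2, false) (by simpa [lowFace] using f3) f1
    have k3 := hWe (V.1, V.2 - 1, true) (by simpa [lowFace] using f4) (by simpa [src] using f3)
    rw [hz'O (V.1, V.2, true) (Or.inl hV)] at k1
    rw [hz'O (V.1, V.2, false) (Or.inl hV)] at k2
    rw [hz'O (V.1, V.2 - 1, true) (Or.inr (by rw [s4]; exact hV))] at k3
    simp only [lowFace, src, if_true, Bool.false_eq_true, if_false] at k1 k2 k3
    have k1' := z2_add_eq_zero.1 k1.symm
    have k2' := z2_add_eq_zero.1 k2.symm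
    have k3' := z2_add_eq_zero.1 k3.symm
    exact ⟨k1', k2', k3'.trans k2'⟩
  have hWstep : ∀ f : Edge, src f ∈ O → tgt f ∈ O → W (src f) = W (tgt f) := by
    rintro ⟨x, y, t⟩ k1 k2
    have k3 := hWV _ k2
    cases t
    · have e1 : ((tgt (x, y, false)).1 - 1, (tgt (x, y, false)).2) = src (x, y, false) := by
        simp [src, tgt]
      rw [e1] at k3
      exact k3.1
    · have e1 : ((tgt (x, y, true)).1, (tgt (x, y, true)).2 - 1) = src (x, y, true) := by
        simp [src, tgt]
      rw [e1] at k3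
      exact k3.2.1
  have hWO : ∀ V w : Vert, w ∈ bd a b c d → Conn ω0 D V w → W V = W (b, d) := by
    intro V w hw hVw
    have key : Conn ω0 O V w := by
      have hVw' := hVw.symm
      have k0 : Conn ω0 O w V := by
        refine hVw'.induction_right (P := fun x => Conn ω0 O w x)
          (Conn.refl ⟨w, hw, Conn.refl hVw'.mem_left⟩) ?_
        intro p q k1 k2 k3
        refine k3.tail ⟨k3.mem_right, ⟨w, hw, ?_⟩, k2.2.2⟩
        exact (k1.tail k2).symm
      exact k0.symm
    have k1 : W V = W w := key.const fun f k1 k2 _ => hWstep f k1 k2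
    rw [k1]
    have hwO : w ∈ O := key.mem_right
    obtain ⟨hw1, hw2, hw3⟩ := hWV w hwO
    obtain ⟨f1, f2, f3, f4⟩ := hfaces w hw.1
    rcases hw.2 with k2 | k2 | k2 | k2
    · rw [← hw1]
      exact (hWring _ ⟨f2, Or.inl (by simp only; omega)⟩).symm
    · exact (hWring _ ⟨f1, Or.inr (Or.inl k2)⟩).symm
    · rw [← hw2]
      exact (hWring _ ⟨f3, Or.inr (Or.inr (Or.inl (by simp only; omega)))⟩).symm
    · exact (hWring _ ⟨f1, Or.inr (Or.inr (Or.inr k2))⟩).symm
  -- the dual arm of `e`
  obtain ⟨F, hF, G, hG, hFG⟩ := hC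
  have hWF : W F ≠ W (b, d) := by
    have e1 : dual (Function.update (Function.update ω g false) e true) =
        Function.update (dual (Function.update ω e true)) (uncross g) true := by
      funext f
      by_cases k1 : f = uncross g
      · subst k1
        rw [Function.update_self]
        simp only [dual, crossed_uncross]
        rw [Function.update_of_ne hge.symm, Function.update_self]
        rfl
      · rw [Function.update_of_ne k1]
        have k2 : crossed f ≠ g := by
          rintro rfl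
          exact k1 (uncross_crossed f).symm
        simp only [dual]
        by_cases k3 : crossed f = e
        · rw [k3, Function.update_self, Function.update_self]
        · rw [Function.update_of_ne k3, Function.update_of_ne k3, Function.update_of_ne k2]
    have e2 : dual ω1 =
        Function.update (dual (Function.update ω e true)) (uncross g) false := by
      funext f
      by_cases k1 : f = uncross g
      · subst k1
        rw [Function.update_self, hω1]
        simp only [dual, crossed_uncross]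
        rw [Function.update_of_ne hge.symm, Function.update_self]
        rfl
      · rw [Function.update_of_ne k1]
        have k2 : crossed f ≠ g := by
          rintro rfl
          exact k1 (uncross_crossed f).symm
        simp only [dual, hω1]
        by_cases k3 : crossed f = e
        · rw [k3, Function.update_self, Function.update_self]
        · rw [Function.update_of_ne k3, Function.update_of_ne k3, Function.update_of_ne k2]
    rw [e1] at hFG
    rcases hFG.split_edge with k | ⟨u, v, k1, k2, k3⟩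
    · rw [← e2] at k
      exact absurd ⟨F, hF, G, hG, k⟩ hno
    · rw [← e2] at k2 k3
      have k4 : u ∈ FF := ⟨F, hF, k2⟩
      have k5 : v ∉ FF := by
        rintro ⟨F', k6, k7⟩
        exact hno ⟨F', k6, G, hG, k7.trans k3⟩
      have k6 : W u ≠ W v := by
        have k7 : z g = 1 := by
          simp only [hz, hχ]
          rcases k1 with ⟨k8, k9⟩ | ⟨k8, k9⟩
          · rw [src_uncross] at k8
            rw [tgt_uncross] at k9
            rw [← k8, ← k9, if_pos k4, if_neg k5]
            decide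
          · rw [tgt_uncross] at k8
            rw [src_uncross] at k9
            rw [← k8, ← k9, if_pos k4, if_neg k5]
            decide
        obtain ⟨k10, k11⟩ := hface g hg1 hg2
        have k12 := hWe g k11 k10
        rw [hz'n g (hgO _ (Or.inl rfl)), k7] at k12
        have k13 := z2_add_eq_one.1 k12.symm
        rcases k1 with ⟨k8, k9⟩ | ⟨k8, k9⟩
        · rw [src_uncross] at k8
          rw [tgt_uncross] at k9
          rw [k8, k9]
          exact k13
        · rw [tgt_uncross] at k8
          rw [src_uncross] at k9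
          rw [k8, k9]
          exact k13.symm
      rw [hWdual F u k2, hWring G hG, ← hWdual v G k3]
      exact k6
  obtain ⟨u, hu, w, hw, huw⟩ := hO
  have hWu : W u = W (b, d) := hWO u w hw huw
  have huO : u ∈ O := ⟨w, hw, huw⟩
  obtain ⟨m1, m2, m3⟩ := hWV u huO
  obtain ⟨n1, n2⟩ := stabA_tgt_faces e hF
  apply hWF
  rcases hu with rfl | rfl
  · rcases n1 with k | k | k | k <;> rw [k]
    · exact hWu
    · exact m1.trans hWu
    · exact m2.trans hWu
    · exact m3.trans hWu
  · rcases n2 with k | k | k | k <;> rw [k]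
    · exact hWu
    · exact m1.trans hWu
    · exact m2.trans hWu
    · exact m3.trans hWu

theorem stabA {ω : Config} {a b c d : ℤ} {g e : Edge} (hg : g ∈ redges a b c d)
    (h : ¬ OArm ω a b c d g) (hge : e ≠ g) :
    InR (Function.update ω g false) a b c d e ↔ InR (Function.update ω g true) a b c d e := by
  have hle : ∀ s : Bool, ∀ f, Function.update (Function.update ω g false) e s f = true →
      Function.update (Function.update ω g true) e s f = true := by
    intro s f k
    by_cases k1 : f = e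
    · subst k1
      rw [Function.update_self] at k ⊢
      exact k
    · rw [Function.update_of_ne k1] at k ⊢
      by_cases k2 : f = g
      · subst k2
        rw [Function.update_self] at k
        exact absurd k (by decide)
      · rw [Function.update_of_ne k2] at k ⊢
        exact k
  constructor
  · rintro ⟨he, hO, hC⟩
    refine ⟨he, ?_, stabA_core hg he h hge hO hC⟩
    obtain ⟨u, hu, w, hw, huw⟩ := hO
    exact ⟨u, hu, w, hw, huw.mono (le_refl _) (hle false)⟩
  · rintro ⟨he, hO, hC⟩
    refine ⟨he, ?_, ?_⟩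
    · obtain ⟨u, hu, w, hw, huw⟩ := hO
      have e1 : ∀ s : Bool, Function.update (Function.update ω g s) e false =
          Function.update (Function.update ω e false) g s := by
        intro s
        exact Function.update_comm hge.symm _ _ _
      rw [e1] at huw
      rcases huw.split_edge with k | ⟨u', v', k1, k2, k3⟩
      · rw [← e1] at k
        exact ⟨u, hu, w, hw, k⟩
      · exfalso
        refine h ⟨v', ?_, w, hw, k3.mono (le_refl _) ?_⟩
        · rcases k1 with ⟨_, k4⟩ | ⟨_, k4⟩
          · exact Or.inr k4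
          · exact Or.inl k4
        · intro f k4
          by_cases k5 : f = g
          · subst k5
            rw [Function.update_self] at k4
            exact absurd k4 (by decide)
          · rw [Function.update_of_ne k5] at k4 ⊢
            by_cases k6 : f = e
            · subst k6
              rw [Function.update_self] at k4
              exact absurd k4 (by decide)
            · rw [Function.update_of_ne k6] at k4
              exact k4
    · obtain ⟨F, hF, G, hG, hFG⟩ := hC
      refine ⟨F, hF, G, hG, hFG.mono (le_refl _) ?_⟩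
      intro f k
      simp only [dual, Bool.not_eq_true'] at k ⊢
      by_contra k1
      rw [Bool.not_eq_false] at k1
      rw [hle true _ k1] at k
      exact absurd k (by decide)

end Pool.Agent.H29.Kap

end

section

/-! # Stability of the set `R` under changes of an edge without closed dual arm -/

set_option autoImplicit false

namespace Pool.Agent.H29.Kap

open Pool.Agent.H89.Perc

/-- The main case of `stabB`. -/
theorem stabB_core {ω : Config} {a b c d : ℤ} {g e : Edge} (hg : g ∈ redges a b c d)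
    (he : e ∈ redges a b c d) (h : ¬ CArm ω a b c d g) (hge : e ≠ g)
    (hO : OArm (Function.update ω g true) a b c d e)
    (hC : CArm (Function.update ω g true) a b c d e) :
    OArm (Function.update ω g false) a b c d e := by
  classical
  by_contra hno
  obtain ⟨hg1, hg2⟩ := mem_redges.1 hg
  obtain ⟨he1, he2⟩ := mem_redges.1 he
  have hab : a ≤ b := le_trans hg1.1 hg1.2.1
  have hcd : c ≤ d := le_trans hg1.2.2.1 hg1.2.2.2
  set D : Set Vert := rect a b c d with hD
  set T : Set Vert := rect (a - 1) b (c - 1) d with hT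
  set ω1 : Config := Function.update (Function.update ω g true) e true with hω1
  set ω0 : Config := Function.update (Function.update ω g false) e false with hω0
  -- faces of an edge of `D`
  have hface : ∀ f : Edge, src f ∈ D → tgt f ∈ D → src f ∈ T ∧ lowFace f ∈ T := by
    rintro ⟨x, y, t⟩ k1 k2
    rw [hD] at k1 k2
    rw [hT]
    cases t <;>
    · simp only [src, tgt, lowFace, rect, Set.mem_ofPred_eq, if_true, Bool.false_eq_true,
        if_false] at k1 k2 ⊢
      omega
  set C : Set Vert := {v | ∃ u, (u = src e ∨ u = tgt e) ∧ Conn ω0 D u v} with hCdef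
  have hCbd : ∀ v ∈ C, v ∉ bd a b c d := by
    rintro v ⟨u, k1, k2⟩ k3
    exact hno ⟨u, k1, v, k3, k2⟩
  have hCD : ∀ v ∈ C, v ∈ D := by
    rintro v ⟨u, k1, k2⟩
    exact k2.mem_right
  have hC1 : src e ∈ C := ⟨_, Or.inl rfl, Conn.refl he1⟩
  have hC2 : tgt e ∈ C := ⟨_, Or.inr rfl, Conn.refl he2⟩
  set χ : Vert → ZMod 2 := fun v => if v ∈ C then 1 else 0 with hχ
  set z : Edge → ZMod 2 := fun f => χ (src f) + χ (tgt f) with hz
  have hzf : ∀ F, fsum z F = 0 := by
    intro F
    simp only [fsum, hz, src, tgt, if_true, Bool.false_eq_true, if_false]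
    linear_combination z2_add_self (χ (F.1, F.2)) + z2_add_self (χ (F.1 + 1, F.2)) +
      z2_add_self (χ (F.1, F.2 + 1)) + z2_add_self (χ (F.1 + 1, F.2 + 1))
  have hze : z e = 0 := by
    simp only [hz, hχ]
    rw [if_pos hC1, if_pos hC2]
    decide
  -- an edge with `z ≠ 0` is an edge of `D`
  have hzD : ∀ f, z f ≠ 0 → src f ∈ D ∧ tgt f ∈ D := by
    rintro ⟨x, y, t⟩ k
    have k1 : src (x, y, t) ∈ C ∨ tgt (x, y, t) ∈ C := by
      by_contra k2
      push Not at k2
      apply k
      simp only [hz, hχ]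
      rw [if_neg k2.1, if_neg k2.2]
      decide
    have k2 : ∀ v ∈ C, a + 1 ≤ v.1 ∧ v.1 ≤ b - 1 ∧ c + 1 ≤ v.2 ∧ v.2 ≤ d - 1 := by
      intro v hv
      have k3 := hCD v hv
      have k4 := hCbd v hv
      have k5 : ¬ (v.1 = a ∨ v.1 = b ∨ v.2 = c ∨ v.2 = d) := fun k6 => k4 ⟨k3, k6⟩
      rw [hD] at k3
      simp only [rect, Set.mem_ofPred_eq] at k3
      omega
    rw [hD]
    rcases k1 with k1 | k1 <;> have k3 := k2 _ k1 <;> cases t <;>
    · simp only [src, tgt, rect, Set.mem_ofPred_eq, if_true, Bool.false_eq_true,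
        if_false] at k3 ⊢
      omega
  have hzclosed : ∀ f, z f ≠ 0 → ω0 f = false := by
    intro f k
    by_contra k1
    rw [Bool.not_eq_false] at k1
    obtain ⟨k2, k3⟩ := hzD f k
    have k6 : Step ω0 D (src f) (tgt f) := ⟨k2, k3, f, joins_src_tgt f, k1⟩
    have k7 : src f ∈ C ↔ tgt f ∈ C := by
      constructor
      · rintro ⟨F, k8, k9⟩
        exact ⟨F, k8, k9.tail k6⟩
      · rintro ⟨F, k8, k9⟩
        exact ⟨F, k8, k9.tail k6.symm⟩
    apply k
    simp only [hz, hχ, k7]
    exact z2_add_self _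
  set O : Set Vert := {v | ∃ w ∈ bd (a - 1) b (c - 1) d, Conn (dual ω1) T v w} with hOdef
  have hgO : ∀ v, (v = src g ∨ v = lowFace g) → v ∉ O := by
    rintro v k1 ⟨w, k2, k3⟩
    refine h ⟨v, k1, w, k2, k3.mono (le_refl _) ?_⟩
    intro f k4
    simp only [dual, hω1] at k4 ⊢
    by_cases k5 : crossed f = e
    · rw [k5, Function.update_self] at k4
      exact absurd k4 (by decide)
    · rw [Function.update_of_ne k5] at k4
      exact k4
  have hzO : ∀ f, z f ≠ 0 → (src f ∈ O ↔ lowFace f ∈ O) := by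
    intro f k
    by_cases k1 : f = g
    · subst k1
      exact ⟨fun k2 => absurd k2 (hgO _ (Or.inl rfl)), fun k2 => absurd k2 (hgO _ (Or.inr rfl))⟩
    · have k2 : f ≠ e := by
        rintro rfl
        exact k hze
      have k3 := hzclosed f k
      rw [hω0, Function.update_of_ne k2, Function.update_of_ne k1] at k3
      have k4 : ω1 f = false := by
        rw [hω1, Function.update_of_ne k2, Function.update_of_ne k1]
        exact k3
      obtain ⟨k5, k6⟩ := hzD f k
      obtain ⟨k5', k6'⟩ := hface f k5 k6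
      have k7 : Step (dual ω1) T (lowFace f) (src f) := dual_step k4 k6' k5'
      constructor
      · rintro ⟨w, k8, k9⟩
        exact ⟨w, k8, k7.conn.trans k9⟩
      · rintro ⟨w, k8, k9⟩
        exact ⟨w, k8, k7.symm.conn.trans k9⟩
  set z' : Edge → ZMod 2 := fun f => if src f ∈ O then 0 else z f with hz'
  have hz'0 : ∀ f, z f = 0 → z' f = 0 := by
    intro f k
    simp only [hz']
    split_ifs
    · rfl
    · exact k
  have hz'O : ∀ f, (src f ∈ O ∨ lowFace f ∈ O) → z' f = 0 := by
    intro f k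
    by_cases k1 : z f = 0
    · exact hz'0 f k1
    · have k2 : src f ∈ O := by
        rcases k with k | k
        · exact k
        · exact (hzO f k1).2 k
      simp only [hz']
      rw [if_pos k2]
  have hz'n : ∀ f, src f ∉ O → z' f = z f := by
    intro f k
    simp only [hz']
    rw [if_neg k]
  have hz'n2 : ∀ f, lowFace f ∉ O → z' f = z f := by
    intro f k
    by_cases k1 : z f = 0
    · rw [hz'0 f k1, k1]
    · exact hz'n f fun k2 => k ((hzO f k1).1 k2)
  have hz'f : ∀ F, fsum z' F = 0 := by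
    intro F
    have s1 : src (F.1, F.2, false) = F := rfl
    have s2 : lowFace (F.1 + 1, F.2, true) = F := by simp [lowFace]
    have s3 : lowFace (F.1, F.2 + 1, false) = F := by simp [lowFace]
    have s4 : src (F.1, F.2, true) = F := rfl
    by_cases hF : F ∈ O
    · unfold fsum
      rw [hz'O (F.1, F.2, false) (Or.inl (by rw [s1]; exact hF)),
        hz'O (F.1 + 1, F.2, true) (Or.inr (by rw [s2]; exact hF)),
        hz'O (F.1, F.2 + 1, false) (Or.inr (by rw [s3]; exact hF)),
        hz'O (F.1, F.2, true) (Or.inl (by rw [s4]; exact hF))]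
      decide
    · rw [← hzf F]
      unfold fsum
      rw [hz'n (F.1, F.2, false) (by rw [s1]; exact hF),
        hz'n2 (F.1 + 1, F.2, true) (by rw [s2]; exact hF),
        hz'n2 (F.1, F.2 + 1, false) (by rw [s3]; exact hF),
        hz'n (F.1, F.2, true) (by rw [s4]; exact hF)]
  obtain ⟨W, hW⟩ := integRect (a := a) (b := b) (c := c) (d := d) z' (fun F _ => hz'f F)
  -- the ring
  have hWring : ∀ v ∈ bd a b c d, W (b, d) = W v := by
    intro v hv
    refine (stabB_ring hab hcd hv).const fun f k1 k2 _ => ?_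
    have k3 := hW f k1.1 k2.1
    have k4 : z f = 0 := by
      simp only [hz, hχ]
      rw [if_neg (fun k5 => hCbd _ k5 k1), if_neg (fun k5 => hCbd _ k5 k2)]
      decide
    rw [hz'0 _ k4] at k3
    exact z2_add_eq_zero.1 k3.symm
  -- open paths which avoid `g` and `e`
  have hWopen : ∀ u v : Vert, Conn ω0 D u v → W u = W v := by
    intro u v huv
    refine huv.const fun f k1 k2 k3 => ?_
    have k4 := hW f k1 k2
    have k5 : z f = 0 := by
      by_contra k6
      have k7 := hzclosed _ k6
      rw [k3] at k7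
      exact absurd k7 (by decide)
    rw [hz'0 _ k5] at k4
    exact z2_add_eq_zero.1 k4.symm
  -- corners of faces in `O`
  have hcorner : ∀ F ∈ O, a ≤ F.1 → F.1 ≤ b - 1 → c ≤ F.2 → F.2 ≤ d - 1 →
      W (F.1 + 1, F.2) = W F ∧ W (F.1, F.2 + 1) = W F ∧ W (F.1 + 1, F.2 + 1) = W F := by
    intro F hF i1 i2 i3 i4
    have s1 : src (F.1, F.2, false) = F := rfl
    have s2 : lowFace (F.1 + 1, F.2, true) = F := by simp [lowFace]
    have s3 : lowFace (F.1, F.2 + 1, false) = F := by simp [lowFace]
    have s4 : src (F.1, F.2, true) = F := rfl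
    have k1 := hW (F.1, F.2, false)
      (by simp only [src, rect, Set.mem_ofPred_eq]; omega)
      (by simp only [tgt, rect, Set.mem_ofPred_eq, Bool.false_eq_true, if_false]; omega)
    have k2 := hW (F.1 + 1, F.2, true)
      (by simp only [src, rect, Set.mem_ofPred_eq]; omega)
      (by simp only [tgt, rect, Set.mem_ofPred_eq, if_true]; omega)
    have k4 := hW (F.1, F.2, true)
      (by simp only [src, rect, Set.mem_ofPred_eq]; omega)
      (by simp only [tgt, rect, Set.mem_ofPred_eq, if_true]; omega)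
    rw [hz'O (F.1, F.2, false) (Or.inl (by rw [s1]; exact hF))] at k1
    rw [hz'O (F.1 + 1, F.2, true) (Or.inr (by rw [s2]; exact hF))] at k2
    rw [hz'O (F.1, F.2, true) (Or.inl (by rw [s4]; exact hF))] at k4
    simp only [src, tgt, if_true, Bool.false_eq_true, if_false] at k1 k2 k4
    have k1' := (z2_add_eq_zero.1 k1.symm).symm
    have k2' := (z2_add_eq_zero.1 k2.symm).symm
    have k4' := (z2_add_eq_zero.1 k4.symm).symm
    exact ⟨k1', k4', k2'.trans k1'⟩
  -- all corners (in `D`) of a face have the value of the ring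
  set P : Vert → Prop := fun F =>
    (F ∈ D → W F = W (b, d)) ∧ (((F.1 + 1, F.2) : Vert) ∈ D → W (F.1 + 1, F.2) = W (b, d)) ∧
    (((F.1, F.2 + 1) : Vert) ∈ D → W (F.1, F.2 + 1) = W (b, d)) ∧
    (((F.1 + 1, F.2 + 1) : Vert) ∈ D → W (F.1 + 1, F.2 + 1) = W (b, d)) with hP
  have hPbd : ∀ F ∈ bd (a - 1) b (c - 1) d, P F := by
    rintro ⟨x, y⟩ ⟨k1, k2⟩
    rw [hP]
    simp only at k2
    refine ⟨fun k3 => ?_, fun k3 => ?_, fun k3 => ?_, fun k3 => ?_⟩ <;>
    · refine (hWring _ ⟨k3, ?_⟩).symm
      rw [hD] at k3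
      simp only [rect, Set.mem_ofPred_eq] at k3
      simp only
      omega
  have hPedge : ∀ f F, (F = src f ∨ F = lowFace f) → P F → src f ∈ D → W (src f) = W (b, d) := by
    rintro ⟨x, y, t⟩ F k1 k2 k3
    rw [hP] at k2
    obtain ⟨p1, p2, p3, p4⟩ := k2
    rcases k1 with rfl | rfl
    · exact p1 k3
    · cases t
      · simp only [lowFace, src, Bool.false_eq_true, if_false, sub_add_cancel] at p3 k3 ⊢
        exact p3 k3
      · simp only [lowFace, src, if_true, sub_add_cancel] at p2 k3 ⊢
        exact p2 k3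
  have hPall : ∀ F G : Vert, G ∈ bd (a - 1) b (c - 1) d → Conn (dual ω1) T F G → P F := by
    intro F G hG hFG
    refine hFG.symm.induction_right (P := P) (hPbd G hG) ?_
    intro p q k1 k2 k3
    have hqO : q ∈ O := ⟨G, hG, (k1.tail k2).symm⟩
    by_cases hq : q ∈ bd (a - 1) b (c - 1) d
    · exact hPbd q hq
    have hqT : q ∈ T := k2.2.1
    have k5 : ¬ (q.1 = a - 1 ∨ q.1 = b ∨ q.2 = c - 1 ∨ q.2 = d) := fun k6 => hq ⟨hqT, k6⟩
    rw [hT] at hqT
    simp only [rect, Set.mem_ofPred_eq] at hqT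
    obtain ⟨m1, m2, m3⟩ := hcorner q hqO (by omega) (by omega) (by omega) (by omega)
    obtain ⟨_, _, f, _, hf⟩ := Step.of_dual k2
    have hq4 : W q = W (b, d) := by
      rcases hf with ⟨f1, f2⟩ | ⟨f1, f2⟩
      · have k6 : src f ∈ D := by
          rw [← f2, hD]
          simp only [rect, Set.mem_ofPred_eq]
          omega
        have k7 := hPedge f p (Or.inr f1) k3 k6
        rw [← f2] at k7
        exact k7
      · have k6 : src f ∈ D ∧ W (src f) = W q := by
          obtain ⟨x, y, t⟩ := f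
          cases t
          · simp only [lowFace, Bool.false_eq_true, if_false] at f2
            have e1 : src (x, y, false) = (q.1, q.2 + 1) := by
              rw [f2]; simp [src]
            rw [e1, hD]
            refine ⟨?_, m2⟩
            simp only [rect, Set.mem_ofPred_eq]
            omega
          · simp only [lowFace, if_true] at f2
            have e1 : src (x, y, true) = (q.1 + 1, q.2) := by
              rw [f2]; simp [src]
            rw [e1, hD]
            refine ⟨?_, m1⟩
            simp only [rect, Set.mem_ofPred_eq]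
            omega
        have k7 := hPedge f p (Or.inl f1) k3 k6.1
        rw [← k6.2]
        exact k7
    rw [hP]
    exact ⟨fun _ => hq4, fun _ => m1.trans hq4, fun _ => m2.trans hq4, fun _ => m3.trans hq4⟩
  -- the open arm of `e`
  obtain ⟨u, hu, w, hw, huw⟩ := hO
  have hWu : W u ≠ W (b, d) := by
    have e1 : ∀ s : Bool, Function.update (Function.update ω g s) e false =
        Function.update (Function.update ω e false) g s := by
      intro s
      exact Function.update_comm hge.symm _ _ _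
    rw [e1] at huw
    rcases huw.split_edge with k | ⟨u', v', k1, k2, k3⟩
    · rw [← e1] at k
      exact absurd ⟨u, hu, w, hw, k⟩ hno
    · rw [← e1] at k2 k3
      have k4 : u' ∈ C := ⟨u, hu, k2⟩
      have k5 : v' ∉ C := by
        rintro ⟨u'', k6, k7⟩
        exact hno ⟨u'', k6, w, hw, k7.trans k3⟩
      have k6 : W u' ≠ W v' := by
        have k7 : z g = 1 := by
          simp only [hz, hχ]
          rcases k1 with ⟨k8, k9⟩ | ⟨k8, k9⟩
          · rw [← k8, ← k9, if_pos k4, if_neg k5]
            decide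
          · rw [← k8, ← k9, if_pos k4, if_neg k5]
            decide
        have k12 := hW g hg1 hg2
        rw [hz'n g (hgO _ (Or.inl rfl)), k7] at k12
        have k13 := z2_add_eq_one.1 k12.symm
        rcases k1 with ⟨k8, k9⟩ | ⟨k8, k9⟩
        · rw [k8, k9]
          exact k13
        · rw [k8, k9]
          exact k13.symm
      rw [hWopen u u' k2, hWring w hw, ← hWopen v' w k3]
      exact k6
  obtain ⟨F, hF, G, hG, hFG⟩ := hC
  have hPF := hPall F G hG hFG
  rw [hP] at hPF
  obtain ⟨p1, p2, p3, p4⟩ := hPF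
  apply hWu
  obtain ⟨x, y, t⟩ := e
  rcases hu with rfl | rfl <;> rcases hF with rfl | rfl <;> cases t
  · exact p1 he1
  · exact p1 he1
  · simp only [lowFace, src, Bool.false_eq_true, if_false, sub_add_cancel] at p3 he1 ⊢
    exact p3 he1
  · simp only [lowFace, src, if_true, sub_add_cancel] at p2 he1 ⊢
    exact p2 he1
  · simp only [src, tgt, Bool.false_eq_true, if_false] at p2 he2 ⊢
    exact p2 he2
  · simp only [src, tgt, if_true] at p3 he2 ⊢
    exact p3 he2
  · simp only [lowFace, tgt, Bool.false_eq_true, if_false, sub_add_cancel] at p4 he2 ⊢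
    exact p4 he2
  · simp only [lowFace, tgt, if_true, sub_add_cancel] at p4 he2 ⊢
    exact p4 he2

theorem stabB {ω : Config} {a b c d : ℤ} {g e : Edge} (hg : g ∈ redges a b c d)
    (h : ¬ CArm ω a b c d g) (hge : e ≠ g) :
    InR (Function.update ω g false) a b c d e ↔ InR (Function.update ω g true) a b c d e := by
  have hle : ∀ s : Bool, ∀ f, Function.update (Function.update ω g false) e s f = true →
      Function.update (Function.update ω g true) e s f = true := by
    intro s f k
    by_cases k1 : f = e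
    · subst k1
      rw [Function.update_self] at k ⊢
      exact k
    · rw [Function.update_of_ne k1] at k ⊢
      by_cases k2 : f = g
      · subst k2
        rw [Function.update_self] at k
        exact absurd k (by decide)
      · rw [Function.update_of_ne k2] at k ⊢
        exact k
  constructor
  · rintro ⟨he, hO, hC⟩
    refine ⟨he, ?_, ?_⟩
    · obtain ⟨u, hu, w, hw, huw⟩ := hO
      exact ⟨u, hu, w, hw, huw.mono (le_refl _) (hle false)⟩
    · obtain ⟨F, hF, G, hG, hFG⟩ := hC
      have e0 : ∀ s : Bool, dual (Function.update (Function.update ω g s) e true) =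
          Function.update (dual (Function.update ω e true)) (uncross g) (!s) := by
        intro s
        funext f
        by_cases k1 : f = uncross g
        · subst k1
          rw [Function.update_self]
          simp only [dual, crossed_uncross]
          rw [Function.update_of_ne hge.symm, Function.update_self]
        · rw [Function.update_of_ne k1]
          have k2 : crossed f ≠ g := by
            rintro rfl
            exact k1 (uncross_crossed f).symm
          simp only [dual]
          by_cases k3 : crossed f = e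
          · rw [k3, Function.update_self, Function.update_self]
          · rw [Function.update_of_ne k3, Function.update_of_ne k3, Function.update_of_ne k2]
      rw [e0] at hFG
      rcases hFG.split_edge with k | ⟨u', v', k1, k2, k3⟩
      · have e2 := e0 true
        rw [Bool.not_true] at e2
        rw [← e2] at k
        exact ⟨F, hF, G, hG, k⟩
      · exfalso
        refine h ⟨v', ?_, G, hG, k3.mono (le_refl _) ?_⟩
        · rcases k1 with ⟨_, k4⟩ | ⟨_, k4⟩
          · rw [tgt_uncross] at k4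
            exact Or.inl k4
          · rw [src_uncross] at k4
            exact Or.inr k4
        · intro f k4
          by_cases k5 : f = uncross g
          · rw [k5, Function.update_self] at k4
            exact absurd k4 (by decide)
          · rw [Function.update_of_ne k5] at k4
            have k6 : crossed f ≠ g := by
              rintro rfl
              exact k5 (uncross_crossed f).symm
            simp only [dual] at k4 ⊢
            rw [Function.update_of_ne k6]
            by_cases k7 : crossed f = e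
            · rw [k7, Function.update_self] at k4
              exact absurd k4 (by decide)
            · rw [Function.update_of_ne k7] at k4
              exact k4
  · rintro ⟨he, hO, hC⟩
    refine ⟨he, stabB_core hg he h hge hO hC, ?_⟩
    obtain ⟨F, hF, G, hG, hFG⟩ := hC
    refine ⟨F, hF, G, hG, hFG.mono (le_refl _) ?_⟩
    intro f k
    simp only [dual, Bool.not_eq_true'] at k ⊢
    by_contra k1
    rw [Bool.not_eq_false] at k1
    rw [hle true _ k1] at k
    exact absurd k (by decide)

end Pool.Agent.H29.Kap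

end

section

/-! # Cluster counts: effect of one edge, locality, simple bounds -/

set_option autoImplicit false

namespace Pool.Agent.H29.Kap

open Pool.Agent.H89.Perc

lemma count_conn_iff {ω : Config} {S : Set Vert} {e : Edge} (h1 : src e ∈ S) (h2 : tgt e ∈ S)
    (u v : Vert) :
    Conn (Function.update ω e true) S u v ↔ Conn (Function.update ω e false) S u v ∨
      (Conn (Function.update ω e false) S u (src e) ∧
        Conn (Function.update ω e false) S (tgt e) v) ∨
      (Conn (Function.update ω e false) S u (tgt e) ∧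
        Conn (Function.update ω e false) S (src e) v) := by
  constructor
  · intro h
    rcases h.split_edge with h | ⟨a, b, hab, h3, h4⟩
    · exact Or.inl h
    · rcases hab with ⟨rfl, rfl⟩ | ⟨rfl, rfl⟩
      · exact Or.inr (Or.inl ⟨h3, h4⟩)
      · exact Or.inr (Or.inr ⟨h3, h4⟩)
  · rintro (h | ⟨h3, h4⟩ | ⟨h3, h4⟩)
    · exact h.mono subset_rfl count_upd_mono
    · exact ((h3.mono subset_rfl count_upd_mono).trans (count_conn_one h1 h2)).trans
        (h4.mono subset_rfl count_upd_mono)
    · exact ((h3.mono subset_rfl count_upd_mono).trans (count_conn_one h1 h2).symm).trans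
        (h4.mono subset_rfl count_upd_mono)

lemma count_cl_conn {ω : Config} {S : Set Vert} {e : Edge} (h1 : src e ∈ S) (h2 : tgt e ∈ S)
    (h : Conn (Function.update ω e false) S (src e) (tgt e)) (v : Vert) :
    count_cl (Function.update ω e true) S v = count_cl (Function.update ω e false) S v := by
  ext w
  show Conn _ _ _ _ ↔ Conn _ _ _ _
  rw [count_conn_iff h1 h2]
  constructor
  · rintro (h' | ⟨h3, h4⟩ | ⟨h3, h4⟩)
    · exact h'
    · exact (h3.trans h).trans h4
    · exact (h3.trans h.symm).trans h4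
  · exact Or.inl

lemma count_cl_away {ω : Config} {S : Set Vert} {e : Edge} (h1 : src e ∈ S) (h2 : tgt e ∈ S)
    {v : Vert} (hx : ¬ Conn (Function.update ω e false) S v (src e))
    (hy : ¬ Conn (Function.update ω e false) S v (tgt e)) :
    count_cl (Function.update ω e true) S v = count_cl (Function.update ω e false) S v := by
  ext w
  show Conn _ _ _ _ ↔ Conn _ _ _ _
  rw [count_conn_iff h1 h2]
  constructor
  · rintro (h' | ⟨h3, h4⟩ | ⟨h3, h4⟩)
    · exact h'
    · exact absurd h3 hx
    · exact absurd h3 hy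
  · exact Or.inl

lemma count_cl_src {ω : Config} {S : Set Vert} {e : Edge} (h1 : src e ∈ S) (h2 : tgt e ∈ S) :
    count_cl (Function.update ω e true) S (src e) =
      count_cl (Function.update ω e false) S (src e) ∪
      count_cl (Function.update ω e false) S (tgt e) := by
  ext w
  show Conn _ _ _ _ ↔ Conn _ _ _ _ ∨ Conn _ _ _ _
  rw [count_conn_iff h1 h2]
  constructor
  · rintro (h' | ⟨h3, h4⟩ | ⟨h3, h4⟩)
    · exact Or.inl h'
    · exact Or.inr h4
    · exact Or.inl h4
  · rintro (h' | h')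
    · exact Or.inl h'
    · exact Or.inr (Or.inl ⟨Conn.refl h1, h'⟩)

/-- Effect of opening one edge on the number of clusters which do not meet `B`. -/
theorem J_update {ω : Config} {S B : Set Vert} (hS : S.Finite) {e : Edge} (h1 : src e ∈ S)
    (h2 : tgt e ∈ S) :
    (WConn (Function.update ω e false) S B (src e) (tgt e) →
      J (Function.update ω e false) S B = J (Function.update ω e true) S B) ∧
    (¬ WConn (Function.update ω e false) S B (src e) (tgt e) →
      J (Function.update ω e false) S B = J (Function.update ω e true) S B + 1) := by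
  by_cases hc : Conn (Function.update ω e false) S (src e) (tgt e)
  · have hw : WConn (Function.update ω e false) S B (src e) (tgt e) := Or.inl hc
    refine ⟨fun _ => ?_, fun h => absurd hw h⟩
    have : clusters (Function.update ω e false) S = clusters (Function.update ω e true) S := by
      rw [count_clusters_eq, count_clusters_eq]
      exact Set.image_congr fun v _ => (count_cl_conn h1 h2 hc v).symm
    unfold J
    rw [this]
  · set w0 := Function.update ω e false with hw0
    set w1 := Function.update ω e true with hw1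
    set x := src e
    set y := tgt e
    set D : Set (Set Vert) := {C | (C ∈ clusters w0 S ∧ C ≠ count_cl w0 S x ∧
      C ≠ count_cl w0 S y) ∧ Disjoint C B} with hD
    have hxx : x ∈ count_cl w0 S x := Conn.refl h1
    have hyy : y ∈ count_cl w0 S y := Conn.refl h2
    have hxy : count_cl w0 S x ≠ count_cl w0 S y := fun h => hc (by
      have : y ∈ count_cl w0 S x := h ▸ hyy
      exact this)
    have hDfin : D.Finite := (clusters_finite w0 hS).subset fun C hC => hC.1.1
    have hxD : count_cl w0 S x ∉ D := fun h => h.1.2.1 rfl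
    have hyD : count_cl w0 S y ∉ D := fun h => h.1.2.2 rfl
    have hxyD : count_cl w0 S x ∪ count_cl w0 S y ∉ D := by
      rintro ⟨⟨⟨v, hv, h3⟩, h4, h5⟩, -⟩
      have h6 : x ∈ {w | Conn w0 S v w} := h3 ▸ Or.inl hxx
      have h7 : y ∈ {w | Conn w0 S v w} := h3 ▸ Or.inr hyy
      exact hc (Conn.trans (Conn.symm h6) h7)
    -- clusters of w0
    have hc0 : ∀ C, (C ∈ clusters w0 S ∧ Disjoint C B) ↔
        ((C = count_cl w0 S x ∧ Disjoint C B) ∨ (C = count_cl w0 S y ∧ Disjoint C B) ∨ C ∈ D) := by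
      intro C
      constructor
      · rintro ⟨h3, h4⟩
        by_cases h5 : C = count_cl w0 S x
        · exact Or.inl ⟨h5, h4⟩
        · by_cases h6 : C = count_cl w0 S y
          · exact Or.inr (Or.inl ⟨h6, h4⟩)
          · exact Or.inr (Or.inr ⟨⟨h3, h5, h6⟩, h4⟩)
      · rintro (⟨rfl, h4⟩ | ⟨rfl, h4⟩ | h4)
        · exact ⟨count_cl_mem h1, h4⟩
        · exact ⟨count_cl_mem h2, h4⟩
        · exact ⟨h4.1.1, h4.2⟩
    have hc1 : ∀ C, (C ∈ clusters w1 S ∧ Disjoint C B) ↔
        ((C = count_cl w0 S x ∪ count_cl w0 S y ∧ Disjoint C B) ∨ C ∈ D) := by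
      intro C
      constructor
      · rintro ⟨⟨v, hv, h3⟩, h4⟩
        have h3' : C = count_cl w1 S v := h3
        by_cases h5 : Conn w0 S v x
        · left
          refine ⟨?_, h4⟩
          rw [h3', ← count_cl_src h1 h2]
          exact count_cl_eq (h5.mono subset_rfl count_upd_mono)
        · by_cases h6 : Conn w0 S v y
          · left
            refine ⟨?_, h4⟩
            rw [h3', ← count_cl_src h1 h2]
            exact count_cl_eq ((h6.mono subset_rfl count_upd_mono).trans (count_conn_one h1 h2).symm)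
          · right
            have h7 : C = count_cl w0 S v := by rw [h3', count_cl_away h1 h2 h5 h6]
            have h8 : v ∈ count_cl w0 S v := Conn.refl hv
            refine ⟨⟨h7 ▸ count_cl_mem hv, ?_, ?_⟩, h4⟩
            · rw [h7]
              intro h9
              have : v ∈ count_cl w0 S x := h9 ▸ h8
              exact h5 (Conn.symm this)
            · rw [h7]
              intro h9
              have : v ∈ count_cl w0 S y := h9 ▸ h8
              exact h6 (Conn.symm this)
      · rintro (⟨h3, h4⟩ | h4)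
        · refine ⟨?_, h4⟩
          rw [h3, ← count_cl_src h1 h2]
          exact count_cl_mem h1
        · refine ⟨?_, h4.2⟩
          obtain ⟨⟨⟨v, hv, h3⟩, h5, h6⟩, -⟩ := h4
          have h3' : C = count_cl w0 S v := h3
          have h7 : ¬ Conn w0 S v x := fun h => h5 (by rw [h3']; exact count_cl_eq h)
          have h8 : ¬ Conn w0 S v y := fun h => h6 (by rw [h3']; exact count_cl_eq h)
          rw [h3', ← count_cl_away h1 h2 h7 h8]
          exact count_cl_mem hv
    by_cases hX : Disjoint (count_cl w0 S x) B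
    · by_cases hY : Disjoint (count_cl w0 S y) B
      · have hnw : ¬ WConn w0 S B x y := by
          rintro (h | ⟨⟨z, hz, h⟩, -⟩)
          · exact hc h
          · exact Set.disjoint_left.1 hX h hz
        refine ⟨fun h => absurd h hnw, fun _ => ?_⟩
        have e0 : {C | C ∈ clusters w0 S ∧ Disjoint C B} =
            insert (count_cl w0 S x) (insert (count_cl w0 S y) D) := by
          ext C
          rw [Set.mem_ofPred_eq, hc0, Set.mem_insert_iff, Set.mem_insert_iff]
          constructor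
          · rintro (⟨h, -⟩ | ⟨h, -⟩ | h)
            exacts [Or.inl h, Or.inr (Or.inl h), Or.inr (Or.inr h)]
          · rintro (h | h | h)
            exacts [Or.inl ⟨h, h ▸ hX⟩, Or.inr (Or.inl ⟨h, h ▸ hY⟩), Or.inr (Or.inr h)]
        have e1 : {C | C ∈ clusters w1 S ∧ Disjoint C B} =
            insert (count_cl w0 S x ∪ count_cl w0 S y) D := by
          ext C
          rw [Set.mem_ofPred_eq, hc1, Set.mem_insert_iff]
          constructor
          · rintro (⟨h, -⟩ | h)
            exacts [Or.inl h, Or.inr h]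
          · rintro (h | h)
            · refine Or.inl ⟨h, ?_⟩
              rw [h, Set.disjoint_union_left]
              exact ⟨hX, hY⟩
            · exact Or.inr h
        unfold J
        rw [e0, e1, Set.ncard_insert_of_notMem _ (hDfin.insert _),
          Set.ncard_insert_of_notMem hyD hDfin, Set.ncard_insert_of_notMem hxyD hDfin]
        intro h
        rcases h with h | h
        · exact hxy h
        · exact hxD h
      · -- Y meets B, X does not
        have hnw : ¬ WConn w0 S B x y := by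
          rintro (h | ⟨⟨z, hz, h⟩, -⟩)
          · exact hc h
          · exact Set.disjoint_left.1 hX h hz
        refine ⟨fun h => absurd h hnw, fun _ => ?_⟩
        have e0 : {C | C ∈ clusters w0 S ∧ Disjoint C B} = insert (count_cl w0 S x) D := by
          ext C
          rw [Set.mem_ofPred_eq, hc0, Set.mem_insert_iff]
          constructor
          · rintro (⟨h, -⟩ | ⟨h, h'⟩ | h)
            exacts [Or.inl h, absurd (h ▸ h') hY, Or.inr h]
          · rintro (h | h)
            exacts [Or.inl ⟨h, h ▸ hX⟩, Or.inr (Or.inr h)]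
        have e1 : {C | C ∈ clusters w1 S ∧ Disjoint C B} = D := by
          ext C
          rw [Set.mem_ofPred_eq, hc1]
          constructor
          · rintro (⟨h, h'⟩ | h)
            · rw [h, Set.disjoint_union_left] at h'
              exact absurd h'.2 hY
            · exact h
          · exact Or.inr
        unfold J
        rw [e0, e1, Set.ncard_insert_of_notMem hxD hDfin]
    · by_cases hY : Disjoint (count_cl w0 S y) B
      · have hnw : ¬ WConn w0 S B x y := by
          rintro (h | ⟨-, ⟨z, hz, h⟩⟩)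
          · exact hc h
          · exact Set.disjoint_left.1 hY h hz
        refine ⟨fun h => absurd h hnw, fun _ => ?_⟩
        have e0 : {C | C ∈ clusters w0 S ∧ Disjoint C B} = insert (count_cl w0 S y) D := by
          ext C
          rw [Set.mem_ofPred_eq, hc0, Set.mem_insert_iff]
          constructor
          · rintro (⟨h, h'⟩ | ⟨h, -⟩ | h)
            exacts [absurd (h ▸ h') hX, Or.inl h, Or.inr h]
          · rintro (h | h)
            exacts [Or.inr (Or.inl ⟨h, h ▸ hY⟩), Or.inr (Or.inr h)]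
        have e1 : {C | C ∈ clusters w1 S ∧ Disjoint C B} = D := by
          ext C
          rw [Set.mem_ofPred_eq, hc1]
          constructor
          · rintro (⟨h, h'⟩ | h)
            · rw [h, Set.disjoint_union_left] at h'
              exact absurd h'.1 hX
            · exact h
          · exact Or.inr
        unfold J
        rw [e0, e1, Set.ncard_insert_of_notMem hyD hDfin]
      · have hw : WConn w0 S B x y := by
          rw [Set.not_disjoint_iff] at hX hY
          obtain ⟨z, hz, hzB⟩ := hX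
          obtain ⟨z', hz', hzB'⟩ := hY
          exact Or.inr ⟨⟨z, hzB, hz⟩, z', hzB', hz'⟩
        refine ⟨fun _ => ?_, fun h => absurd hw h⟩
        have e0 : {C | C ∈ clusters w0 S ∧ Disjoint C B} = D := by
          ext C
          rw [Set.mem_ofPred_eq, hc0]
          constructor
          · rintro (⟨h, h'⟩ | ⟨h, h'⟩ | h)
            exacts [absurd (h ▸ h') hX, absurd (h ▸ h') hY, h]
          · exact fun h => Or.inr (Or.inr h)
        have e1 : {C | C ∈ clusters w1 S ∧ Disjoint C B} = D := by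
          ext C
          rw [Set.mem_ofPred_eq, hc1]
          constructor
          · rintro (⟨h, h'⟩ | h)
            · rw [h, Set.disjoint_union_left] at h'
              exact absurd h'.1 hX
            · exact h
          · exact Or.inr
        unfold J
        rw [e0, e1]

/-- Effect of opening one edge on the number of clusters. -/
theorem K_update {ω : Config} {S : Set Vert} (hS : S.Finite) {e : Edge} (h1 : src e ∈ S)
    (h2 : tgt e ∈ S) :
    (Conn (Function.update ω e false) S (src e) (tgt e) →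
      K (Function.update ω e false) S = K (Function.update ω e true) S) ∧
    (¬ Conn (Function.update ω e false) S (src e) (tgt e) →
      K (Function.update ω e false) S = K (Function.update ω e true) S + 1) := by
  rw [K_eq_J, K_eq_J]
  obtain ⟨h3, h4⟩ := J_update (ω := ω) (B := ∅) hS h1 h2
  refine ⟨fun h => h3 (Or.inl h), fun h => h4 ?_⟩
  rintro (h' | ⟨⟨z, hz, -⟩, -⟩)
  · exact h h'
  · exact hz

lemma count_close_le {ω : Config} {S : Set Vert} (hS : S.Finite) (F : Finset Edge)
    (hF : ∀ e ∈ F, src e ∈ S ∧ tgt e ∈ S) : K (count_close ω F) S ≤ K ω S + F.card := by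
  classical
  induction F using Finset.induction_on with
  | empty =>
    have : count_close ω ∅ = ω := by funext e; simp [count_close]
    rw [this]
    simp
  | insert e F he ih =>
    have ih' := ih fun f hf => hF f (Finset.mem_insert_of_mem hf)
    obtain ⟨h1, h2⟩ := hF e (Finset.mem_insert_self e F)
    have e1 : count_close ω (insert e F) = Function.update (count_close ω F) e false := by
      funext f
      by_cases hf : f = e
      · subst hf; simp [count_close]
      · rw [Function.update_of_ne hf]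
        simp [count_close, Finset.mem_insert, hf]
    have e2 : K (Function.update (count_close ω F) e false) S ≤ K (count_close ω F) S + 1 := by
      rcases hb : count_close ω F e with _ | _
      · have : Function.update (count_close ω F) e false = count_close ω F := by
          rw [← hb]; exact Function.update_eq_self e _
        rw [this]
        omega
      · have : Function.update (count_close ω F) e true = count_close ω F := by
          rw [← hb]; exact Function.update_eq_self e _
        obtain ⟨h3, h4⟩ := K_update (ω := count_close ω F) hS h1 h2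
        rw [this] at h3 h4
        by_cases hc : Conn (Function.update (count_close ω F) e false) S (src e) (tgt e)
        · rw [h3 hc]; omega
        · rw [h4 hc]
    rw [e1, Finset.card_insert_of_notMem he]
    omega

/-- Splitting a rectangle along a vertical line costs at most the number of edges between the two
parts. -/
theorem K_split_le {ω : Config} {a m b c d : ℤ} (h1 : a ≤ m) (h2 : m < b) (hcd : c ≤ d) :
    ((K ω (rect a m c d) : ℤ) + K ω (rect (m + 1) b c d)) ≤ K ω (rect a b c d) + (d - c + 1) := by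
  classical
  set F : Finset Edge := (Finset.Icc c d).image (fun y => (m, y, false)) with hFdef
  set S := rect a b c d with hS
  set L := rect a m c d with hL
  set R := rect (m + 1) b c d with hR
  have hLS : L ⊆ S := by
    rintro ⟨x, y⟩ h
    simp only [hL, hS, rect, Set.mem_ofPred_eq] at h ⊢
    omega
  have hRS : R ⊆ S := by
    rintro ⟨x, y⟩ h
    simp only [hR, hS, rect, Set.mem_ofPred_eq] at h ⊢
    omega
  have hFS : ∀ e ∈ F, src e ∈ S ∧ tgt e ∈ S := by
    intro e he
    simp only [hFdef, Finset.mem_image, Finset.mem_Icc] at he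
    obtain ⟨y, hy, rfl⟩ := he
    simp only [src, tgt, hS, rect, Set.mem_ofPred_eq, Bool.false_eq_true, if_false]
    omega
  have hcard : F.card ≤ (d - c + 1).toNat := by
    refine Finset.card_image_le.trans ?_
    rw [Int.card_Icc]
    omega
  have hfinS : S.Finite := rect_finite a b c d
  have hle := count_close_le (ω := ω) hfinS F hFS
  -- edges joining L and R are in F
  have hcross : ∀ e u v, Joins e u v → u ∈ S → v ∈ S → count_close ω F e = true →
      (u ∈ L ↔ v ∈ L) := by
    intro e u v he hu hv ho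
    have hnF : e ∉ F := by
      intro h
      simp [count_close, h] at ho
    obtain ⟨x, y, t⟩ := e
    obtain ⟨u1, u2⟩ := u
    obtain ⟨v1, v2⟩ := v
    simp only [hS, rect, Set.mem_ofPred_eq] at hu hv
    simp only [hL, rect, Set.mem_ofPred_eq]
    have hnF' : ¬ (c ≤ y ∧ y ≤ d ∧ m = x ∧ t = false) := by
      rintro ⟨h3, h4, h5, h6⟩
      apply hnF
      simp only [hFdef, Finset.mem_image, Finset.mem_Icc]
      exact ⟨y, ⟨h3, h4⟩, by rw [h5, h6]⟩
    cases t
    · simp only [Joins, src, tgt, Bool.false_eq_true, if_false, Prod.mk.injEq] at he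
      simp only [and_true] at hnF'
      omega
    · simp only [Joins, src, tgt, if_true, Prod.mk.injEq] at he
      omega
  have hLR : ∀ v ∈ S, (v ∈ R ↔ v ∉ L) := by
    rintro ⟨x, y⟩ h
    simp only [hR, hL, hS, rect, Set.mem_ofPred_eq] at h ⊢
    omega
  have hopen : ∀ e, count_close ω F e = true → ω e = true := by
    intro e he
    unfold count_close at he
    split_ifs at he
    exact he
  have hLconn : ∀ v ∈ L, ∀ w, Conn ω L v w ↔ Conn (count_close ω F) S v w := by
    intro v hv w
    constructor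
    · intro h
      have h3 : Conn (count_close ω F) L v w := by
        refine h.congr ?_
        intro e he1 he2
        have : e ∉ F := by
          intro hF
          simp only [hFdef, Finset.mem_image, Finset.mem_Icc] at hF
          obtain ⟨y, hy, rfl⟩ := hF
          simp only [tgt, hL, rect, Set.mem_ofPred_eq, Bool.false_eq_true, if_false] at he2
          omega
        simp [count_close, this]
      exact h3.mono_set hLS
    · intro h
      refine h.induction_right (P := fun z => Conn ω L v z) (Conn.refl hv) ?_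
      rintro p q _ ⟨hp, hq, e, he, ho⟩ hvp
      refine hvp.tail ⟨hvp.mem_right, ?_, e, he, hopen e ho⟩
      exact (hcross e p q he hp hq ho).1 hvp.mem_right
  have hRconn : ∀ v ∈ R, ∀ w, Conn ω R v w ↔ Conn (count_close ω F) S v w := by
    intro v hv w
    constructor
    · intro h
      have h3 : Conn (count_close ω F) R v w := by
        refine h.congr ?_
        intro e he1 he2
        have : e ∉ F := by
          intro hF
          simp only [hFdef, Finset.mem_image, Finset.mem_Icc] at hF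
          obtain ⟨y, hy, rfl⟩ := hF
          simp only [src, hR, rect, Set.mem_ofPred_eq] at he1
          omega
        simp [count_close, this]
      exact h3.mono_set hRS
    · intro h
      refine h.induction_right (P := fun z => Conn ω R v z) (Conn.refl hv) ?_
      rintro p q _ ⟨hp, hq, e, he, ho⟩ hvp
      refine hvp.tail ⟨hvp.mem_right, ?_, e, he, hopen e ho⟩
      have h3 := hcross e p q he hp hq ho
      have h4 := (hLR p hp).1 hvp.mem_right
      exact (hLR q hq).2 fun h5 => h4 (h3.2 h5)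
  have hunion : clusters ω L ∪ clusters ω R ⊆ clusters (count_close ω F) S := by
    rintro C (⟨v, hv, rfl⟩ | ⟨v, hv, rfl⟩)
    · exact ⟨v, hLS hv, Set.ext fun w => hLconn v hv w⟩
    · exact ⟨v, hRS hv, Set.ext fun w => hRconn v hv w⟩
  have hfL := clusters_finite ω (rect_finite a m c d)
  have hfR := clusters_finite ω (rect_finite (m + 1) b c d)
  have hdisj : Disjoint (clusters ω L) (clusters ω R) := by
    rw [Set.disjoint_left]
    intro C hC1 hC2
    obtain ⟨z, hz⟩ := cluster_nonempty hC1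
    have h3 := cluster_subset hC1 hz
    have h4 := cluster_subset hC2 hz
    exact (hLR z (hLS h3)).1 h4 h3
  have hcount : K ω L + K ω R ≤ K (count_close ω F) S := by
    unfold K
    rw [← Set.ncard_union_eq hdisj hfL hfR]
    exact Set.ncard_le_ncard hunion (clusters_finite _ hfinS)
  omega

end Pool.Agent.H29.Kap

end

section

/-! # Tilting on a stable random set -/

set_option autoImplicit false

namespace Pool.Agent.H29.Kap

open Pool.Agent.Perc

variable {ι : Type*} [DecidableEq ι]

end Pool.Agent.H29.Kap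

end

section

/-! # The second difference `X` does not change when an edge outside `R` is flipped -/

set_option autoImplicit false

namespace Pool.Agent.H29.Kap

open Pool.Agent.H89.Perc

/-- Stability of `R`. -/
theorem inR_flip {ω : Config} {a b c d : ℤ} {g : Edge} (hg : g ∈ redges a b c d)
    (h : ¬ InR ω a b c d g) (e : Edge) : InR (flip ω g) a b c d e ↔ InR ω a b c d e := by
  by_cases hge : e = g
  · subst hge
    exact inR_update_self e _
  · refine sens_update_cases (P := fun ω => InR ω a b c d e) ?_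
    by_cases h1 : OArm ω a b c d g
    · by_cases h2 : CArm ω a b c d g
      · exact absurd ⟨hg, h1, h2⟩ h
      · exact stabB hg h2 hge
    · exact stabA hg h1 hge

theorem sens_X_update {ω : Config} {x0 x1 x2 x3 c d : ℤ} (h01 : x0 ≤ x1) (h12 : x1 ≤ x2)
    (h23 : x2 ≤ x3) {e : Edge} (h1 : ¬ InR ω x0 x1 c d e) (h2 : ¬ InR ω x1 x2 c d e)
    (h3 : ¬ InR ω x2 x3 c d e) :
    X (Function.update ω e false) x0 x1 x2 x3 c d
      = X (Function.update ω e true) x0 x1 x2 x3 c d := by
  have sub : ∀ {a b a' b' : ℤ}, a' ≤ a → b ≤ b' → rect a b c d ⊆ rect a' b' c d := by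
    intro a b a' b' ha hb v hv
    exact ⟨ha.trans hv.1, hv.2.1.trans hb, hv.2.2.1, hv.2.2.2⟩
  have fin : ∀ a b : ℤ, (rect a b c d).Finite := fun a b => rect_finite a b c d
  set cc : ℤ → ℤ → Prop := fun a b =>
    Conn (Function.update ω e false) (rect a b c d) (src e) (tgt e) with hcc
  have up0 : ∀ a b : ℤ, src e ∈ rect a b c d → tgt e ∈ rect a b c d → cc a b →
      (K (Function.update ω e false) (rect a b c d) : ℤ)
        = K (Function.update ω e true) (rect a b c d) := by
    intro a b hs ht hc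
    exact_mod_cast (K_update (fin a b) hs ht).1 hc
  have up1 : ∀ a b : ℤ, src e ∈ rect a b c d → tgt e ∈ rect a b c d → ¬ cc a b →
      (K (Function.update ω e false) (rect a b c d) : ℤ)
        = K (Function.update ω e true) (rect a b c d) + 1 := by
    intro a b hs ht hc
    exact_mod_cast (K_update (fin a b) hs ht).2 hc
  have out : ∀ a b : ℤ, ¬ (src e ∈ rect a b c d ∧ tgt e ∈ rect a b c d) →
      (K (Function.update ω e false) (rect a b c d) : ℤ)
        = K (Function.update ω e true) (rect a b c d) := by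
    intro a b h
    exact_mod_cast sens_K_out h
  have mono : ∀ {a b a' b' : ℤ}, a' ≤ a → b ≤ b' → cc a b → cc a' b' := by
    intro a b a' b' ha hb hc
    exact Conn.mono_set (sub ha hb) hc
  have piv : ∀ {a b a' b' : ℤ}, a' ≤ a → b ≤ b' → src e ∈ rect a b c d → tgt e ∈ rect a b c d →
      ¬ InR ω a b c d e → cc a' b' → cc a b := by
    intro a b a' b' ha hb hs ht hn hc
    by_contra hcon
    exact hn (inR_of_pivot (mem_redges.2 ⟨hs, ht⟩) (sub ha hb) hc hcon)
  unfold X
  by_cases hU : src e ∈ rect x0 x3 c d ∧ tgt e ∈ rect x0 x3 c d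
  · obtain ⟨hUs, hUt⟩ := hU
    by_cases hI : src e ∈ rect x1 x2 c d ∧ tgt e ∈ rect x1 x2 c d
    · obtain ⟨hIs, hIt⟩ := hI
      have hAs := sub h01 le_rfl hIs
      have hAt := sub h01 le_rfl hIt
      have hBs := sub le_rfl h23 hIs
      have hBt := sub le_rfl h23 hIt
      by_cases hc : cc x0 x3
      · have hcI : cc x1 x2 := piv h01 h23 hIs hIt h2 hc
        rw [up0 _ _ hUs hUt hc, up0 _ _ hAs hAt (mono h01 le_rfl hcI),
          up0 _ _ hBs hBt (mono le_rfl h23 hcI), up0 _ _ hIs hIt hcI]
      · have hA : ¬ cc x0 x2 := fun h => hc (mono le_rfl h23 h)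
        have hB : ¬ cc x1 x3 := fun h => hc (mono h01 le_rfl h)
        have hI' : ¬ cc x1 x2 := fun h => hc (mono h01 h23 h)
        rw [up1 _ _ hUs hUt hc, up1 _ _ hAs hAt hA, up1 _ _ hBs hBt hB, up1 _ _ hIs hIt hI']
        ring
    · -- geometry of the edge
      have hlen : (src e).1 ≤ (tgt e).1 ∧ (tgt e).1 ≤ (src e).1 + 1 := by
        unfold src tgt
        split <;> constructor <;> simp
      by_cases hA : src e ∈ rect x0 x2 c d ∧ tgt e ∈ rect x0 x2 c d
      · obtain ⟨hAs, hAt⟩ := hA
        -- `e` is an edge of `[x0, x1]`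
        have hlt : (src e).1 < x1 ∨ (tgt e).1 < x1 := by
          by_contra hcon
          push Not at hcon
          exact hI ⟨⟨hcon.1, hAs.2.1, hAs.2.2⟩, ⟨hcon.2, hAt.2.1, hAt.2.2⟩⟩
        have hs1 : src e ∈ rect x0 x1 c d := ⟨hAs.1, by omega, hAs.2.2⟩
        have ht1 : tgt e ∈ rect x0 x1 c d := ⟨hAt.1, by omega, hAt.2.2⟩
        have hB : ¬ (src e ∈ rect x1 x3 c d ∧ tgt e ∈ rect x1 x3 c d) := by
          rintro ⟨⟨h4, -⟩, ⟨h5, -⟩⟩
          omega
        rw [out _ _ hI, out _ _ hB]
        by_cases hc : cc x0 x3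
        · have hc1 : cc x0 x1 := piv le_rfl (h12.trans h23) hs1 ht1 h1 hc
          rw [up0 _ _ hUs hUt hc, up0 _ _ hAs hAt (mono le_rfl h12 hc1)]
        · have hA : ¬ cc x0 x2 := fun h => hc (mono le_rfl h23 h)
          rw [up1 _ _ hUs hUt hc, up1 _ _ hAs hAt hA]
          ring
      · -- `e` is an edge of `[x2, x3]`
        have hgt : x2 < (src e).1 ∨ x2 < (tgt e).1 := by
          by_contra hcon
          push Not at hcon
          exact hA ⟨⟨hUs.1, hcon.1, hUs.2.2⟩, ⟨hUt.1, hcon.2, hUt.2.2⟩⟩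
        have hs3 : src e ∈ rect x2 x3 c d := ⟨by omega, hUs.2.1, hUs.2.2⟩
        have ht3 : tgt e ∈ rect x2 x3 c d := ⟨by omega, hUt.2.1, hUt.2.2⟩
        have hBs := sub h12 le_rfl hs3
        have hBt := sub h12 le_rfl ht3
        rw [out _ _ hI, out _ _ hA]
        by_cases hc : cc x0 x3
        · have hc3 : cc x2 x3 := piv (h01.trans h12) le_rfl hs3 ht3 h3 hc
          rw [up0 _ _ hUs hUt hc, up0 _ _ hBs hBt (mono h12 le_rfl hc3)]
        · have hB : ¬ cc x1 x3 := fun h => hc (mono h01 le_rfl h)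
          rw [up1 _ _ hUs hUt hc, up1 _ _ hBs hBt hB]
          ring
  · have hnot : ∀ {a b : ℤ}, x0 ≤ a → b ≤ x3 →
        ¬ (src e ∈ rect a b c d ∧ tgt e ∈ rect a b c d) := by
      intro a b ha hb h
      exact hU ⟨sub ha hb h.1, sub ha hb h.2⟩
    rw [out _ _ hU, out _ _ (hnot (a := x0) (b := x2) le_rfl h23),
      out _ _ (hnot (a := x1) (b := x3) h01 le_rfl), out _ _ (hnot (a := x1) (b := x2) h01 h23)]

theorem X_flip {ω : Config} {x0 x1 x2 x3 c d : ℤ} (h01 : x0 ≤ x1) (h12 : x1 ≤ x2)
    (h23 : x2 ≤ x3) {e : Edge} (h1 : ¬ InR ω x0 x1 c d e) (h2 : ¬ InR ω x1 x2 c d e)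
    (h3 : ¬ InR ω x2 x3 c d e) : X (flip ω e) x0 x1 x2 x3 c d = X ω x0 x1 x2 x3 c d := by
  have h := sens_X_update h01 h12 h23 h1 h2 h3
  exact (sens_update_cases (P := fun ω' => X ω' x0 x1 x2 x3 c d = X ω x0 x1 x2 x3 c d)
    (by simp only [h])).2 rfl

theorem sens_inR_flip' {ω : Config} {a b c d : ℤ} {g : Edge}
    (h : ¬ InR ω a b c d g) (e : Edge) : InR (flip ω g) a b c d e ↔ InR ω a b c d e := by
  by_cases hg : g ∈ redges a b c d
  · exact inR_flip hg h e
  · refine inR_congr (fun e' he' => ?_) e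
    have hne : e' ≠ g := by
      rintro rfl
      exact hg he'
    unfold flip
    rw [Function.update_of_ne hne]

/-- The union of the three sets is stable. -/
theorem RU_sflip {x0 x1 x2 x3 c d : ℤ} (h01 : x0 ≤ x1) (h12 : x1 ≤ x2) (h23 : x2 ≤ x3)
    {S : Finset Edge} {g : Edge} (hg : g ∉ RU x0 x1 x2 x3 c d S) :
    RU x0 x1 x2 x3 c d (sflip S g) = RU x0 x1 x2 x3 c d S := by
  obtain ⟨h1, h2, h3⟩ := sens_not_inR h01 h12 h23 hg
  ext e
  rw [sens_mem_RU, sens_mem_RU, sens_ofS_sflip, sens_inR_flip' h1 e, sens_inR_flip' h2 e,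
    sens_inR_flip' h3 e]

theorem X_sflip {x0 x1 x2 x3 c d : ℤ} (h01 : x0 ≤ x1) (h12 : x1 ≤ x2) (h23 : x2 ≤ x3)
    {S : Finset Edge} {g : Edge} (hg : g ∉ RU x0 x1 x2 x3 c d S) :
    X (ofS (sflip S g)) x0 x1 x2 x3 c d = X (ofS S) x0 x1 x2 x3 c d := by
  obtain ⟨h1, h2, h3⟩ := sens_not_inR h01 h12 h23 hg
  rw [sens_ofS_sflip]
  exact X_flip h01 h12 h23 h1 h2 h3

end Pool.Agent.H29.Kap

end

section

/-! # Expected cluster counts: invariance and limit -/

set_option autoImplicit false

namespace Pool.Agent.H29.Kap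

open Pool.Agent.H89.Perc Pool.Agent.Perc

/-- Translation invariance. -/
theorem EK_shift (p : ℝ) (a b c d x y : ℤ) :
    EK p (a + x) (b + x) (c + y) (d + y) = EK p a b c d := by
  have h1 : redges (a + x) (b + x) (c + y) (d + y) = (redges a b c d).image (shiftE (x, y)) := by
    ext e
    rw [Finset.mem_image]
    constructor
    · intro he
      refine ⟨shiftE (-(x, y)) e, ?_, shiftE_neg _ _⟩
      rw [mem_redges] at he ⊢
      obtain ⟨u, v, t⟩ := e
      cases t <;> simp [src, tgt, rect, shiftE] at he ⊢ <;> omega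
    · rintro ⟨e', he', rfl⟩
      rw [mem_redges] at he' ⊢
      obtain ⟨u, v, t⟩ := e'
      cases t <;> simp [src, tgt, rect, shiftE] at he' ⊢ <;> omega
  unfold EK
  rw [h1, Ex_image _ (shiftE_injective _).injOn]
  refine Ex_congr fun S _ => ?_
  have h2 := invar_K_map (ω := ofS S) (ω' := ofS (S.image (shiftE (x, y)))) (S := rect a b c d)
    (T := rect (a + x) (b + x) (c + y) (d + y)) (fun w => (w.1 + x, w.2 + y)) ?_ ?_ ?_
  · rw [h2]
  · rintro ⟨u, v⟩ ⟨u', v'⟩ h
    simp only [Prod.mk.injEq] at h ⊢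
    omega
  · ext ⟨u, v⟩
    simp only [rect, Set.mem_ofPred_eq, Set.mem_image, Prod.mk.injEq, Prod.exists]
    constructor
    · intro h
      exact ⟨u - x, v - y, by omega, by omega, by omega⟩
    · rintro ⟨u', v', h, h3, h4⟩
      omega
  · intro u _ v _
    have h3 := conn_shift (ω := ofS (S.image (shiftE (x, y)))) (x, y) (rect a b c d) u v
    rw [invar_ofS_image (shiftE_injective _)] at h3
    rw [h3]
    have h4 : {w : Vert | (w.1 - (x, y).1, w.2 - (x, y).2) ∈ rect a b c d}
        = rect (a + x) (b + x) (c + y) (d + y) := by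
      ext w
      simp only [Set.mem_ofPred_eq, rect]
      omega
    rw [h4]

/-- Invariance under reflection in the diagonal. -/
theorem EK_swap (p : ℝ) (a b c d : ℤ) : EK p c d a b = EK p a b c d := by
  have h1 : redges c d a b = (redges a b c d).image swapE := by
    ext e
    rw [Finset.mem_image]
    constructor
    · intro he
      refine ⟨swapE e, ?_, swapE_swapE _⟩
      rw [mem_redges] at he ⊢
      obtain ⟨u, v, t⟩ := e
      cases t <;> simp [src, tgt, rect, swapE] at he ⊢ <;> omega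
    · rintro ⟨e', he', rfl⟩
      rw [mem_redges] at he' ⊢
      obtain ⟨u, v, t⟩ := e'
      cases t <;> simp [src, tgt, rect, swapE] at he' ⊢ <;> omega
  unfold EK
  rw [h1, Ex_image _ swapE_injective.injOn]
  refine Ex_congr fun S _ => ?_
  have h2 := invar_K_map (ω := ofS S) (ω' := ofS (S.image swapE)) (S := rect a b c d)
    (T := rect c d a b) (fun w => (w.2, w.1)) ?_ ?_ ?_
  · rw [h2]
  · rintro ⟨u, v⟩ ⟨u', v'⟩ h
    simp only [Prod.mk.injEq] at h ⊢
    omega
  · ext ⟨u, v⟩
    simp only [rect, Set.mem_ofPred_eq, Set.mem_image, Prod.mk.injEq, Prod.exists]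
    constructor
    · intro h
      exact ⟨v, u, by omega, rfl, rfl⟩
    · rintro ⟨u', v', h, h3, h4⟩
      omega
  · intro u _ v _
    have h3 := conn_swap (ω := ofS (S.image swapE)) (rect a b c d) u v
    rw [invar_ofS_image swapE_injective] at h3
    rw [h3]
    have h4 : {w : Vert | (w.2, w.1) ∈ rect a b c d} = rect c d a b := by
      ext w
      simp only [Set.mem_ofPred_eq, rect]
      omega
    rw [h4]

/-- Almost additivity in the first coordinate. -/
theorem EK_split {p : ℝ} (h0 : 0 ≤ p) (h1 : p ≤ 1) {a m b c d : ℤ} (ham : a ≤ m) (hmb : m < b)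
    (hcd : c ≤ d) :
    |EK p a b c d - EK p a m c d - EK p (m + 1) b c d| ≤ d - c + 1 := by
  have e1 : redges a m c d ⊆ redges a b c d := by
    intro e he
    rw [mem_redges] at he ⊢
    simp only [rect, Set.mem_ofPred_eq] at he ⊢
    omega
  have e2 : redges (m + 1) b c d ⊆ redges a b c d := by
    intro e he
    rw [mem_redges] at he ⊢
    simp only [rect, Set.mem_ofPred_eq] at he ⊢
    omega
  rw [← EK_of_subset e1, ← EK_of_subset e2]
  unfold EK
  rw [← Ex_sub, ← Ex_sub]
  refine (abs_Ex_le h0 h1 _).trans ?_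
  have h3 : Ex p (redges a b c d) (fun _ => ((d : ℝ) - c + 1)) = (d : ℝ) - c + 1 := Ex_const _ _ _
  rw [← h3]
  refine Ex_mono h0 h1 fun S _ => ?_
  have hu : rect a m c d ∪ rect (m + 1) b c d = rect a b c d := by
    ext w
    simp only [rect, Set.mem_ofPred_eq, Set.mem_union]
    omega
  have k1 : K (ofS S) (rect a b c d) ≤ K (ofS S) (rect a m c d) + K (ofS S) (rect (m + 1) b c d) := by
    rw [← hu]
    exact K_union_le (rect_finite _ _ _ _) (rect_finite _ _ _ _)
  have k2 := K_split_le (ω := ofS S) ham hmb hcd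
  have k1' : (K (ofS S) (rect a b c d) : ℝ) ≤ K (ofS S) (rect a m c d)
      + K (ofS S) (rect (m + 1) b c d) := by exact_mod_cast k1
  have k2' : (K (ofS S) (rect a m c d) : ℝ) + K (ofS S) (rect (m + 1) b c d)
      ≤ K (ofS S) (rect a b c d) + (d - c + 1) := by exact_mod_cast k2
  have hcd' : (c : ℝ) ≤ d := by exact_mod_cast hcd
  rw [abs_le]
  constructor <;> linarith only [k2', k1', hcd']

theorem invarB_comm (p : ℝ) (n m : ℕ) : invarB p n m = invarB p m n := EK_swap p _ _ _ _

theorem invarB_add {p : ℝ} (h0 : 0 ≤ p) (h1 : p ≤ 1) {n n' m : ℕ} (hn : 1 ≤ n) (hn' : 1 ≤ n')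
    (hm : 1 ≤ m) : |invarB p (n + n') m - invarB p n m - invarB p n' m| ≤ m := by
  have h := EK_split h0 h1 (a := 0) (m := (n : ℤ) - 1) (b := ((n + n' : ℕ) : ℤ) - 1) (c := 0)
    (d := (m : ℤ) - 1) (by omega) (by push_cast; omega) (by omega)
  have h2 := EK_shift p 0 ((n' : ℤ) - 1) 0 ((m : ℤ) - 1) n 0
  have e1 : (0 : ℤ) + n = (n : ℤ) - 1 + 1 := by ring
  have e2 : (n' : ℤ) - 1 + n = ((n + n' : ℕ) : ℤ) - 1 := by push_cast; ring
  rw [e1, e2, add_zero, add_zero] at h2
  rw [h2] at h
  unfold invarB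
  refine h.trans (le_of_eq ?_)
  push_cast
  ring

theorem invarB_mul {p : ℝ} (h0 : 0 ≤ p) (h1 : p ≤ 1) {n m : ℕ} (hn : 1 ≤ n) (hm : 1 ≤ m) (q : ℕ) :
    |invarB p ((q + 1) * n) m - (q + 1) * invarB p n m| ≤ q * m := by
  induction q with
  | zero => simp
  | succ q ih =>
    have h := invarB_add h0 h1 (n := (q + 1) * n) (n' := n) (m := m) (Nat.mul_pos (by omega) hn) hn hm
    have e : (q + 1 + 1) * n = (q + 1) * n + n := by ring
    rw [e]
    push_cast
    rw [abs_le] at h ih ⊢
    constructor <;> nlinarith only [ih, h, h.1, h.2, ih.1, ih.2]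

theorem invarB_sq {p : ℝ} (h0 : 0 ≤ p) (h1 : p ≤ 1) {n q : ℕ} (hn : 1 ≤ n) (hq : 1 ≤ q) :
    |invarB p (q * n) (q * n) / ((q * n : ℕ) : ℝ) ^ 2 - invarB p n n / (n : ℝ) ^ 2| ≤ 2 / n := by
  obtain ⟨r, rfl⟩ : ∃ r, q = r + 1 := ⟨q - 1, by omega⟩
  have k1 := invarB_mul h0 h1 hn (m := (r + 1) * n) (Nat.mul_pos (by omega) hn) r
  have k2 := invarB_mul h0 h1 hn hn r
  rw [invarB_comm p n ((r + 1) * n)] at k1
  have hn0 : (1 : ℝ) ≤ n := by exact_mod_cast hn
  have hr0 : (0 : ℝ) ≤ r := Nat.cast_nonneg _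
  set A := invarB p ((r + 1) * n) ((r + 1) * n)
  set B := invarB p ((r + 1) * n) n
  set D := invarB p n n
  push_cast at k1 ⊢
  have hden : (0 : ℝ) < (((r : ℝ) + 1) * n) ^ 2 := by positivity
  have key : A / (((r : ℝ) + 1) * n) ^ 2 - D / (n : ℝ) ^ 2
      = (A - (r + 1) ^ 2 * D) / (((r : ℝ) + 1) * n) ^ 2 := by
    field_simp
  rw [key, abs_div, abs_of_pos hden, div_le_div_iff₀ hden (by linarith only [hn0])]
  have h3 : |A - ((r : ℝ) + 1) ^ 2 * D| ≤ 2 * ((r : ℝ) + 1) ^ 2 * (n : ℝ) := by
    rw [abs_le] at k1 k2 ⊢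
    constructor <;> nlinarith [k1.1, k1.2, k2.1, k2.2, mul_nonneg hr0 (by linarith only [hn0] : (0:ℝ) ≤ n),
      mul_le_mul_of_nonneg_left k2.1 (by linarith only : (0:ℝ) ≤ r + 1),
      mul_le_mul_of_nonneg_left k2.2 (by linarith only : (0:ℝ) ≤ r + 1),
      mul_nonneg (mul_nonneg hr0 hr0) (by linarith : (0:ℝ) ≤ n)]
  calc |A - ((r : ℝ) + 1) ^ 2 * D| * (n : ℝ) ≤ 2 * ((r : ℝ) + 1) ^ 2 * (n : ℝ) * (n : ℝ) :=
        mul_le_mul_of_nonneg_right h3 (by linarith only [hn0])
    _ = 2 * (((r : ℝ) + 1) * n) ^ 2 := by ring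

/-- The cluster density: the limit of `E_p K / n²` exists, with a rate. -/
theorem kappa_exists {p : ℝ} (h0 : 0 ≤ p) (h1 : p ≤ 1) :
    ∃ κ : ℝ, ∀ n : ℕ, 1 ≤ n → |EK p 0 (n - 1) 0 (n - 1) / (n : ℝ) ^ 2 - κ| ≤ 2 / n := by
  set s : ℕ → ℝ := fun n => invarB p n n / (n : ℝ) ^ 2 with hs
  have h2 : ∀ n m : ℕ, 1 ≤ n → 1 ≤ m → |s n - s m| ≤ 2 / n + 2 / m := by
    intro n m hn hm
    have k1 := invarB_sq h0 h1 (n := n) (q := m) hn hm
    have k2 := invarB_sq h0 h1 (n := m) (q := n) hm hn
    rw [mul_comm n m] at k2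
    simp only [hs]
    rw [abs_le] at k1 k2 ⊢
    constructor <;> linarith only [k1, k2, k1.1, k1.2, k2.1, k2.2]
  have hc : CauchySeq s := by
    rw [Metric.cauchySeq_iff']
    intro ε hε
    obtain ⟨N, hN⟩ := exists_nat_gt (4 / ε)
    have hN0 : (0 : ℝ) < N := lt_of_le_of_lt (by positivity) hN
    have hN1 : 1 ≤ N := by
      rcases Nat.eq_zero_or_pos N with h | h
      · rw [h] at hN0; simp at hN0
      · exact h
    refine ⟨N, fun n hn => ?_⟩
    rw [Real.dist_eq]
    have hn1 : 1 ≤ n := hN1.trans hn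
    have hnN : (N : ℝ) ≤ n := by exact_mod_cast hn
    refine (h2 n N hn1 hN1).trans_lt ?_
    have : (2 : ℝ) / n ≤ 2 / N := div_le_div_of_nonneg_left (by norm_num) hN0 hnN
    have h4 : (2 : ℝ) / N + 2 / N = 4 / N := by ring
    have h5 : (4 : ℝ) / N < ε := by
      rw [div_lt_iff₀ hε] at hN
      rw [div_lt_iff₀ hN0]
      linarith only [hN]
    linarith only [this, h4, h5]
  obtain ⟨κ, hκ⟩ := cauchySeq_tendsto_of_complete hc
  refine ⟨κ, fun n hn => ?_⟩
  have h3 : Filter.Tendsto (fun m : ℕ => |s n - s m|) Filter.atTop (nhds |s n - κ|) :=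
    (hκ.const_sub (s n)).abs
  have h4 : Filter.Tendsto (fun m : ℕ => (2 : ℝ) / n + 2 / m) Filter.atTop (nhds (2 / n + 0)) :=
    (tendsto_const_div_atTop_nhds_zero_nat (2 : ℝ)).const_add _
  rw [add_zero] at h4
  refine le_of_tendsto_of_tendsto h3 h4 ?_
  filter_upwards [Filter.eventually_ge_atTop 1] with m hm
  exact h2 n m hn hm

theorem invarB_one_le {p : ℝ} (h0 : 0 ≤ p) (h1 : p ≤ 1) {m : ℕ} (hm : 1 ≤ m) :
    0 ≤ invarB p 1 m ∧ invarB p 1 m ≤ m := by
  have := EK_nonneg_le h0 h1 (a := 0) (b := ((1 : ℕ) : ℤ) - 1) (c := 0) (d := (m : ℤ) - 1)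
    (by norm_num) (by omega)
  refine ⟨this.1, this.2.trans (le_of_eq ?_)⟩
  push_cast
  ring

theorem invarB_succ {p : ℝ} (h0 : 0 ≤ p) (h1 : p ≤ 1) {n m : ℕ} (hn : 1 ≤ n) (hm : 1 ≤ m) :
    |invarB p (n + 1) m - invarB p n m| ≤ 2 * m := by
  have k1 := invarB_add h0 h1 hn le_rfl hm
  have k2 := invarB_one_le h0 h1 hm
  rw [abs_le] at k1 ⊢
  constructor <;> linarith only [k1, k2, k1.1, k1.2, k2.1, k2.2]

/-- Boxes with side lengths `2n`, `2n × n` and `n` (that is `2n + 1`, ... vertices). -/
theorem EK_boxes {p κ : ℝ} (h0 : 0 ≤ p) (h1 : p ≤ 1)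
    (hκ : ∀ n : ℕ, 1 ≤ n → |EK p 0 (n - 1) 0 (n - 1) / (n : ℝ) ^ 2 - κ| ≤ 2 / n) :
    ∃ C : ℝ, ∀ n : ℕ, 1 ≤ n →
      |EK p 0 (2 * n) 0 (2 * n) - 2 * EK p 0 (2 * n) 0 n + EK p 0 n 0 n - κ * n ^ 2| ≤ C * n := by
  refine ⟨100, fun n hn => ?_⟩
  have hn0 : (1 : ℝ) ≤ n := by exact_mod_cast hn
  have e1 : EK p 0 (2 * n) 0 (2 * n) = invarB p (2 * n + 1) (2 * n + 1) := by
    unfold invarB
    congr 1 <;> push_cast <;> ring
  have e2 : EK p 0 (2 * n) 0 n = invarB p (2 * n + 1) (n + 1) := by
    unfold invarB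
    congr 1 <;> push_cast <;> ring
  have e3 : EK p 0 n 0 n = invarB p (n + 1) (n + 1) := by
    unfold invarB
    congr 1 <;> push_cast <;> ring
  rw [e1, e2, e3]
  have h2n : 1 ≤ 2 * n := by omega
  -- reductions
  have a1 := invarB_succ h0 h1 (n := 2 * n) (m := 2 * n + 1) h2n (by omega)
  have a2 := invarB_succ h0 h1 (n := 2 * n) (m := 2 * n) h2n h2n
  rw [invarB_comm p (2 * n + 1) (2 * n)] at a2
  have a3 := invarB_add h0 h1 (n := n) (n' := n) (m := 2 * n) hn hn h2n
  have a4 := invarB_add h0 h1 (n := n) (n' := n) (m := n) hn hn hn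
  rw [← two_mul] at a3 a4
  rw [invarB_comm p n (2 * n)] at a3
  have b1 := invarB_succ h0 h1 (n := 2 * n) (m := n + 1) h2n (by omega)
  have b2 := invarB_succ h0 h1 (n := n) (m := 2 * n) hn h2n
  rw [invarB_comm p (n + 1) (2 * n), invarB_comm p n (2 * n)] at b2
  have c1 := invarB_succ h0 h1 (n := n) (m := n + 1) hn (by omega)
  have c2 := invarB_succ h0 h1 (n := n) (m := n) hn hn
  rw [invarB_comm p (n + 1) n] at c2
  have hk : |invarB p n n - κ * n ^ 2| ≤ 2 * n := by
    have := hκ n hn
    have h3 : invarB p n n - κ * n ^ 2 = (EK p 0 (n - 1) 0 (n - 1) / (n : ℝ) ^ 2 - κ) * n ^ 2 := by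
      unfold invarB
      field_simp
    rw [h3, abs_mul, abs_of_nonneg (by positivity : (0 : ℝ) ≤ (n : ℝ) ^ 2)]
    calc |EK p 0 (n - 1) 0 (n - 1) / (n : ℝ) ^ 2 - κ| * (n : ℝ) ^ 2 ≤ 2 / n * (n : ℝ) ^ 2 :=
          mul_le_mul_of_nonneg_right this (by positivity)
      _ = 2 * n := by field_simp
  push_cast at *
  rw [abs_le] at *
  constructor <;> linarith only [hn0, c2, hk, a1, a2, a3, b1, b2, c1, a1.1, a1.2, a2.1, a2.2, a3.1, a3.2, a4.1, a4.2, b1.1, b1.2, b2.1, b2.2,
    c1.1, c1.2, c2.1, c2.2, hk.1, hk.2]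

end Pool.Agent.H29.Kap

end

section

/-! # Euler's formula for the clusters of a rectangle -/

set_option autoImplicit false

namespace Pool.Agent.H29.Kap

open Pool.Agent.H89.Perc

theorem euler_ofS {a b c d : ℤ} (hab : a ≤ b) (hcd : c ≤ d) (A : Finset Edge) :
    A ⊆ redges a b c d → (K (ofS A) (rect a b c d) : ℤ) + A.card =
      (b - a + 1) * (d - c + 1) +
        J (dual (ofS A)) (rect (a - 1) b (c - 1) d) (bd (a - 1) b (c - 1) d) := by
  classical
  induction A using Finset.induction_on with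
  | empty =>
    intro _
    have h0 : ∀ e : Edge, ofS ∅ e = false := fun e => by simp [ofS]
    rw [euler_base_J (fun e _ => h0 e), K_closed (fun e _ _ => h0 e), euler_ncard_rect hab hcd]
    simp
  | insert e A heA ih =>
    intro hsub
    have he : e ∈ redges a b c d := hsub (Finset.mem_insert_self e A)
    have hA := ih (fun f hf => hsub (Finset.mem_insert_of_mem hf))
    have e1 : Function.update (ofS A) e true = ofS (insert e A) := (ofS_update A e).1
    have e2 : Function.update (ofS A) e false = ofS A := by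
      rw [(ofS_update A e).2, Finset.erase_eq_of_notMem heA]
    have hK := K_update (ω := ofS A) (rect_finite a b c d) (mem_redges.1 he).1 (mem_redges.1 he).2
    have hf := euler_faces_mem he
    have hJ := J_update (ω := dual (ofS A)) (B := bd (a - 1) b (c - 1) d)
      (rect_finite (a - 1) b (c - 1) d) (e := uncross e)
      (by rw [src_uncross]; exact hf.1) (by rw [tgt_uncross]; exact hf.2)
    have e3 : Function.update (dual (ofS A)) (uncross e) false = dual (ofS (insert e A)) := by
      rw [← e1, euler_dual_update]; rfl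
    have e4 : Function.update (dual (ofS A)) (uncross e) true = dual (ofS A) := by
      conv_rhs => rw [← e2]
      rw [euler_dual_update]; rfl
    have hD := edge_dual (ω := ofS A) he
    rw [e1, e2] at hK
    rw [e3, e4, src_uncross, tgt_uncross] at hJ
    rw [e1, e2] at hD
    rw [Finset.card_insert_of_notMem heA]
    push_cast
    by_cases hc : Conn (ofS A) (rect a b c d) (src e) (tgt e)
    · have h1 := hK.1 hc
      have h2 := hJ.2 (hD.1 hc)
      rw [← h1, h2]
      push_cast
      linarith only [hA]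
    · have h1 := hK.2 hc
      have h3 : WConn (dual (ofS (insert e A))) (rect (a - 1) b (c - 1) d)
          (bd (a - 1) b (c - 1) d) (lowFace e) (src e) := by
        by_contra h
        exact hc (hD.2 h)
      have h2 := hJ.1 h3
      rw [h2]
      rw [h1] at hA
      push_cast at hA
      linarith only [hA]

/-- **Euler's formula.** The number of clusters plus the number of open edges is the number of
vertices plus the number of inner clusters of the dual configuration. -/
theorem euler {ω : Config} {a b c d : ℤ} (hab : a ≤ b) (hcd : c ≤ d) :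
    (K ω (rect a b c d) : ℤ) + ((redges a b c d).filter (fun e => ω e = true)).card =
      (b - a + 1) * (d - c + 1) +
        J (dual ω) (rect (a - 1) b (c - 1) d) (bd (a - 1) b (c - 1) d) := by
  classical
  set A := (redges a b c d).filter (fun e => ω e = true) with hA
  have hag : ∀ e ∈ redges a b c d, ω e = ofS A e := by
    intro e he
    cases h : ω e
    · symm
      simp only [ofS, decide_eq_false_iff_not, hA, Finset.mem_filter, not_and]
      intro _
      simp [h]
    · symm
      rw [ofS_eq_true, hA, Finset.mem_filter]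
      exact ⟨he, h⟩
  have hK : K ω (rect a b c d) = K (ofS A) (rect a b c d) :=
    K_congr fun e h1 h2 => hag e (mem_redges.2 ⟨h1, h2⟩)
  have hJ : J (dual ω) (rect (a - 1) b (c - 1) d) (bd (a - 1) b (c - 1) d) =
      J (dual (ofS A)) (rect (a - 1) b (c - 1) d) (bd (a - 1) b (c - 1) d) := by
    refine J_congr_wired (rect_finite _ _ _ _) fun e h1 h2 h3 => ?_
    simp only [dual]
    rw [hag _ (euler_crossed_mem h1 h2 h3)]
  rw [hK, hJ]
  exact euler_ofS hab hcd A (Finset.filter_subset _ _)

end Pool.Agent.H29.Kap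

end

section

/-! # Euler's formula for the expected number of clusters and duality of the cluster density -/

set_option autoImplicit false

namespace Pool.Agent.H29.Kap

open Pool.Agent.H89.Perc Pool.Agent.Perc

theorem EK_euler (p : ℝ) {a b c d : ℤ} (hab : a ≤ b) (hcd : c ≤ d) :
    EK p a b c d = (b - a + 1) * (d - c + 1)
      - p * ((b - a) * (d - c + 1) + (b - a + 1) * (d - c))
      + EJ (1 - p) (a - 1) b (c - 1) d := by
  rw [← eulerexp_dual, ← eulerexp_card_redges hab hcd, ← eulerexp_card]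
  unfold EK
  have h : Ex p (redges a b c d) (fun S => (K (ofS S) (rect a b c d) : ℝ)) =
      Ex p (redges a b c d) (fun S => ((((b : ℝ) - a + 1) * (d - c + 1)) + (-(S.card : ℝ))) +
        (J (dual (ofS S)) (rect (a - 1) b (c - 1) d) (bd (a - 1) b (c - 1) d) : ℝ)) := by
    refine Ex_congr fun S hS => ?_
    have h1 := euler (ω := ofS S) hab hcd
    have h2 : (redges a b c d).filter (fun e => ofS S e = true) = S := by
      ext e
      rw [Finset.mem_filter, ofS_eq_true]
      exact ⟨fun h => h.2, fun h => ⟨hS h, h⟩⟩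
    rw [h2] at h1
    have h3 : ((K (ofS S) (rect a b c d) : ℤ) : ℝ) + (S.card : ℝ) =
      ((b : ℝ) - a + 1) * (d - c + 1) +
        (J (dual (ofS S)) (rect (a - 1) b (c - 1) d) (bd (a - 1) b (c - 1) d) : ℝ) := by
      exact_mod_cast h1
    have h4 : ((K (ofS S) (rect a b c d) : ℤ) : ℝ) = (K (ofS S) (rect a b c d) : ℝ) := by
      norm_cast
    rw [h4] at h3
    linarith only [h3]
  rw [h, Ex_add, Ex_add, Ex_const, Ex_neg]
  ring

theorem eulerexp_EJ_EK {p : ℝ} (h0 : 0 ≤ p) (h1 : p ≤ 1) (n : ℕ) (hn : 1 ≤ n) :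
    |EJ p (0 - 1) ((n : ℤ) - 1) (0 - 1) ((n : ℤ) - 1)
      - EK p (0 - 1) ((n : ℤ) - 1) (0 - 1) ((n : ℤ) - 1)| ≤ 8 * n := by
  obtain ⟨hB, hBc⟩ := eulerexp_bd_card n hn
  have hS := rect_finite (0 - 1) ((n : ℤ) - 1) (0 - 1) ((n : ℤ) - 1)
  rw [abs_le]
  unfold EJ EK
  constructor
  · have : Ex p (redges (0 - 1) ((n : ℤ) - 1) (0 - 1) ((n : ℤ) - 1)) (fun S =>
        (K (ofS S) (rect (0 - 1) ((n : ℤ) - 1) (0 - 1) ((n : ℤ) - 1)) : ℝ)) ≤
        Ex p (redges (0 - 1) ((n : ℤ) - 1) (0 - 1) ((n : ℤ) - 1)) (fun S =>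
        (J (ofS S) (rect (0 - 1) ((n : ℤ) - 1) (0 - 1) ((n : ℤ) - 1))
          (bd (0 - 1) ((n : ℤ) - 1) (0 - 1) ((n : ℤ) - 1)) : ℝ) + ((8 * n : ℕ) : ℝ)) := by
      refine Ex_mono h0 h1 fun S _ => ?_
      have h2 := K_le_J_add (ω := ofS S) hS hB
      have h3 := h2.trans (Nat.add_le_add_left hBc _)
      exact_mod_cast h3
    rw [Ex_add, Ex_const, Nat.cast_mul, Nat.cast_ofNat] at this
    linarith only [this]
  · have : Ex p (redges (0 - 1) ((n : ℤ) - 1) (0 - 1) ((n : ℤ) - 1)) (fun S =>
        (J (ofS S) (rect (0 - 1) ((n : ℤ) - 1) (0 - 1) ((n : ℤ) - 1))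
          (bd (0 - 1) ((n : ℤ) - 1) (0 - 1) ((n : ℤ) - 1)) : ℝ)) ≤
        Ex p (redges (0 - 1) ((n : ℤ) - 1) (0 - 1) ((n : ℤ) - 1)) (fun S =>
        (K (ofS S) (rect (0 - 1) ((n : ℤ) - 1) (0 - 1) ((n : ℤ) - 1)) : ℝ)) := by
      refine Ex_mono h0 h1 fun S _ => ?_
      exact_mod_cast J_le_K (ω := ofS S) _ hS
    have h3 : (0 : ℝ) ≤ 8 * n := by positivity
    linarith only [this]

/-- Duality for the cluster density. -/
theorem kappa_dual {p κ κ' : ℝ} (h0 : 0 ≤ p) (h1 : p ≤ 1)
    (hκ : ∀ n : ℕ, 1 ≤ n → |EK p 0 (n - 1) 0 (n - 1) / (n : ℝ) ^ 2 - κ| ≤ 2 / n)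
    (hκ' : ∀ n : ℕ, 1 ≤ n → |EK (1 - p) 0 (n - 1) 0 (n - 1) / (n : ℝ) ^ 2 - κ'| ≤ 2 / n) :
    κ = κ' + 1 - 2 * p := by
  -- it suffices to bound the difference by `C / n`
  have key : ∀ n : ℕ, 1 ≤ n → |κ - (κ' + 1 - 2 * p)| * n ≤ 16 + 3 * |κ'| := by
    intro n hn
    have hn' : (1 : ℝ) ≤ n := by exact_mod_cast hn
    have hn0 : (0 : ℝ) < n := by linarith only [hn']
    have e1 : |EK p 0 (n - 1) 0 (n - 1) - κ * (n : ℝ) ^ 2| ≤ 2 * n := by
      have h := hκ n hn
      have h2 : EK p 0 (n - 1) 0 (n - 1) - κ * (n : ℝ) ^ 2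
          = (EK p 0 (n - 1) 0 (n - 1) / (n : ℝ) ^ 2 - κ) * (n : ℝ) ^ 2 := by
        field_simp
      rw [h2, abs_mul, abs_of_pos (by positivity : (0 : ℝ) < (n : ℝ) ^ 2)]
      calc _ ≤ 2 / n * (n : ℝ) ^ 2 := mul_le_mul_of_nonneg_right h (by positivity)
        _ = 2 * n := by field_simp
    have e2 : |EK (1 - p) 0 n 0 n - κ' * ((n : ℝ) + 1) ^ 2| ≤ 2 * ((n : ℝ) + 1) := by
      have h := hκ' (n + 1) (by omega)
      have h3 : (((n + 1 : ℕ) : ℤ) - 1) = n := by push_cast; ring
      rw [h3] at h
      push_cast at h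
      have hp : (0 : ℝ) < (n : ℝ) + 1 := by linarith only [hn']
      have h2 : EK (1 - p) 0 n 0 n - κ' * ((n : ℝ) + 1) ^ 2
          = (EK (1 - p) 0 n 0 n / ((n : ℝ) + 1) ^ 2 - κ') * ((n : ℝ) + 1) ^ 2 := by
        field_simp
      rw [h2, abs_mul, abs_of_pos (by positivity : (0 : ℝ) < ((n : ℝ) + 1) ^ 2)]
      calc _ ≤ 2 / ((n : ℝ) + 1) * ((n : ℝ) + 1) ^ 2 :=
            mul_le_mul_of_nonneg_right h (by positivity)
        _ = 2 * ((n : ℝ) + 1) := by field_simp
    have e3 := eulerexp_EJ_EK (p := 1 - p) (by linarith only [h1]) (by linarith) n hn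
    have e4 : EK (1 - p) (0 - 1) ((n : ℤ) - 1) (0 - 1) ((n : ℤ) - 1) = EK (1 - p) 0 n 0 n := by
      have := EK_shift (1 - p) 0 n 0 n (-1) (-1)
      simpa [sub_eq_add_neg] using this
    have e5 := EK_euler p (a := 0) (b := (n : ℤ) - 1) (c := 0) (d := (n : ℤ) - 1)
      (by omega) (by omega)
    rw [e4] at e3
    generalize EJ (1 - p) (0 - 1) ((n : ℤ) - 1) (0 - 1) ((n : ℤ) - 1) = E3 at e3 e5
    push_cast at e5
    rw [abs_le] at e1 e2 e3
    set E1 := EK p 0 (n - 1) 0 (n - 1) with hE1
    set E2 := EK (1 - p) 0 n 0 n with hE2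
    have hab : -|κ'| ≤ κ' ∧ κ' ≤ |κ'| := ⟨neg_abs_le κ', le_abs_self κ'⟩
    have h6 : |κ - (κ' + 1 - 2 * p)| * n ^ 2 ≤ (16 + 3 * |κ'|) * n := by
      have hpn : p * n ≤ n := by nlinarith only [h1]
      have hpn0 : 0 ≤ p * n := by positivity
      have hk1 : -(|κ'| * n) ≤ κ' * n := by nlinarith only [hab, hab.1]
      have hk2 : κ' * n ≤ |κ'| * n := by nlinarith only [hab, hab.2]
      have hk3 : |κ'| ≤ |κ'| * n := by nlinarith only [hn', hab, abs_nonneg κ']
      have e5' : E1 = (n : ℝ) ^ 2 - 2 * p * n ^ 2 + 2 * (p * n) + E3 := by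
        rw [e5]; ring
      rcases abs_cases (κ - (κ' + 1 - 2 * p)) with ⟨h, -⟩ | ⟨h, -⟩ <;> rw [h] <;>
        nlinarith only [hn', e1, e5, e2, e3, hab, hpn, hk2, hk3, hpn0, hk1, e1.1, e1.2, e2.1, e2.2, e3.1, e3.2]
    have h7 : (|κ - (κ' + 1 - 2 * p)| * n) * n ≤ (16 + 3 * |κ'|) * n := by
      calc _ = |κ - (κ' + 1 - 2 * p)| * n ^ 2 := by ring
        _ ≤ _ := h6
    exact le_of_mul_le_mul_right h7 hn0
  by_contra hne
  have hpos : 0 < |κ - (κ' + 1 - 2 * p)| := abs_pos.2 (sub_ne_zero.2 hne)
  obtain ⟨n, hn⟩ := exists_nat_gt ((16 + 3 * |κ'|) / |κ - (κ' + 1 - 2 * p)|)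
  rw [div_lt_iff₀ hpos] at hn
  have h3 := key (n + 1) (by omega)
  push_cast at h3
  nlinarith only [hpos, hn, h3]

end Pool.Agent.H29.Kap

end

section

/-! # Uniform control of the expected second differences -/

set_option autoImplicit false

namespace Pool.Agent.H29.Kap

open Pool.Agent.H89.Perc Pool.Agent.Perc

/-- `NC²` may be integrated on a larger set of edges. -/
lemma NC_restrict {p : ℝ} {F : Finset Edge} {x1 x2 c d : ℤ} (h : redges x1 x2 c d ⊆ F) :
    Ex p F (fun S => (NC (ofS S) x1 x2 c d : ℝ) ^ 2) =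
      Ex p (redges x1 x2 c d) (fun S => (NC (ofS S) x1 x2 c d : ℝ) ^ 2) := by
  refine Ex_restrict h (fun S _ => ?_) p
  rw [NC_congr (geo_ofS_inter h S)]

lemma Ex_X {p : ℝ} {x0 x1 x2 x3 c d : ℤ} (h01 : x0 ≤ x1) (h12 : x1 ≤ x2) (h23 : x2 ≤ x3) :
    Ex p (redges x0 x3 c d) (fun S => (X (ofS S) x0 x1 x2 x3 c d : ℝ)) =
      EK p x0 x3 c d - EK p x0 x2 c d - EK p x1 x3 c d + EK p x1 x2 c d := by
  have e1 := EK_of_subset (p := p) (redges_subset (a := x0) (b := x3) (c := c) (d := d)
    (a' := x0) (b' := x3) (c' := c) (d' := d) le_rfl le_rfl le_rfl le_rfl)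
  have e2 := EK_of_subset (p := p) (redges_subset (a := x0) (b := x2) (c := c) (d := d)
    (a' := x0) (b' := x3) (c' := c) (d' := d) le_rfl h23 le_rfl le_rfl)
  have e3 := EK_of_subset (p := p) (redges_subset (a := x1) (b := x3) (c := c) (d := d)
    (a' := x0) (b' := x3) (c' := c) (d' := d) h01 le_rfl le_rfl le_rfl)
  have e4 := EK_of_subset (p := p) (redges_subset (a := x1) (b := x2) (c := c) (d := d)
    (a' := x0) (b' := x3) (c' := c) (d' := d) h01 h23 le_rfl le_rfl)
  rw [← e1, ← e2, ← e3, ← e4, ← Ex_sub, ← Ex_sub, ← Ex_add]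
  refine Ex_congr fun S _ => ?_
  unfold X
  push_cast
  ring

lemma Ex_XW {p : ℝ} {x0 x1 x2 x3 c d : ℤ} (h01 : x0 ≤ x1) (h12 : x1 ≤ x2) (h23 : x2 ≤ x3) :
    Ex p (redges x0 x3 c d) (fun S => (XW (ofS S) x0 x1 x2 x3 c d : ℝ)) =
      EJ p x0 x3 c d - EJ p x0 x2 c d - EJ p x1 x3 c d + EJ p x1 x2 c d := by
  have e1 := EJ_of_subset (p := p) (redges_subset (a := x0) (b := x3) (c := c) (d := d)
    (a' := x0) (b' := x3) (c' := c) (d' := d) le_rfl le_rfl le_rfl le_rfl)
  have e2 := EJ_of_subset (p := p) (redges_subset (a := x0) (b := x2) (c := c) (d := d)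
    (a' := x0) (b' := x3) (c' := c) (d' := d) le_rfl h23 le_rfl le_rfl)
  have e3 := EJ_of_subset (p := p) (redges_subset (a := x1) (b := x3) (c := c) (d := d)
    (a' := x0) (b' := x3) (c' := c) (d' := d) h01 le_rfl le_rfl le_rfl)
  have e4 := EJ_of_subset (p := p) (redges_subset (a := x1) (b := x2) (c := c) (d := d)
    (a' := x0) (b' := x3) (c' := c) (d' := d) h01 h23 le_rfl le_rfl)
  rw [← e1, ← e2, ← e3, ← e4, ← Ex_sub, ← Ex_sub, ← Ex_add]
  refine Ex_congr fun S _ => ?_
  unfold XW
  push_cast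
  ring

/-- Duality for the second differences. -/
lemma X_euler (p : ℝ) {x0 x1 x2 x3 c d : ℤ} (h01 : x0 ≤ x1) (h12 : x1 ≤ x2) (h23 : x2 ≤ x3)
    (hcd : c ≤ d) :
    EK p x0 x3 c d - EK p x0 x2 c d - EK p x1 x3 c d + EK p x1 x2 c d =
      EJ (1 - p) (x0 - 1) x3 (c - 1) d - EJ (1 - p) (x0 - 1) x2 (c - 1) d
        - EJ (1 - p) (x1 - 1) x3 (c - 1) d + EJ (1 - p) (x1 - 1) x2 (c - 1) d := by
  rw [EK_euler p (by omega) hcd, EK_euler p (by omega) hcd, EK_euler p (by omega) hcd,
    EK_euler p h12 hcd]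
  ring

end Pool.Agent.H29.Kap

end

section

/-! # Comparison of one-arm probabilities at different scales -/

set_option autoImplicit false

namespace Pool.Agent.H29.Kap

open Pool.Agent.H89.Perc

lemma armratio_localOn (m n : ℕ) : LocalOn (eBall (m * 16 ^ n)) (armInter m n) := by
  classical
  induction n with
  | zero =>
    have h := localOn_arm (0 : Vert) m
    have h1 : eBall (m * 16 ^ 0) = eRect ((0 : Vert).1 - m) ((0 : Vert).1 + m)
        ((0 : Vert).2 - m) ((0 : Vert).2 + m) := by
      simp [eBall]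
    rw [h1]
    exact h
  | succ n ih =>
    have h1 : m * 16 ^ n ≤ m * 16 ^ (n + 1) :=
      Nat.mul_le_mul_left _ (Nat.pow_le_pow_right (by norm_num) (Nat.le_succ n))
    exact (ih.mono (eBall_subset h1)).inter
      ((localOn_ann _ _).mono Finset.sdiff_subset)

lemma armratio_subset {m R : ℕ} (hm : 1 ≤ m) (n : ℕ) (h : m * 16 ^ n ≤ R) :
    Arm 0 R ⊆ armInter m n := by
  induction n with
  | zero =>
    rintro ω ⟨u, hu, hc⟩
    have hmR : m ≤ R := by simpa using h
    obtain ⟨hb, h2⟩ := hu
    refine hc.mem_arm ?_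
    simp only [Prod.fst_zero, Prod.snd_zero, zero_sub, zero_add, sub_zero] at h2 ⊢
    rcases h2 with h2 | h2 | h2 | h2
    · left; rw [h2, abs_neg, Nat.abs_cast]; exact_mod_cast hmR
    · left; rw [h2, Nat.abs_cast]; exact_mod_cast hmR
    · right; rw [h2, abs_neg, Nat.abs_cast]; exact_mod_cast hmR
    · right; rw [h2, Nat.abs_cast]; exact_mod_cast hmR
  | succ n ih =>
    have h1 : m * 16 ^ n < m * 16 ^ (n + 1) :=
      Nat.mul_lt_mul_of_pos_left (Nat.pow_lt_pow_right (by norm_num) (Nat.lt_succ_self n)) hm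
    exact Set.subset_inter (ih (h1.le.trans h)) (arm_subset_ann h1 h)

/-- Power decay of ratios of one-arm probabilities at `1 / 2`. -/
theorem arm_ratio : ∃ C a : ℝ, 0 < C ∧ 0 < a ∧ ∀ m n : ℕ, 1 ≤ m → m ≤ n →
    arm half n ≤ C * ((m : ℝ) / n) ^ a * arm half m := by
  classical
  obtain ⟨c, hc, h⟩ := armBox_le
  have hc1 : c ≤ 1 := by
    have h1 := h 1 8 le_rfl (by norm_num)
    have h2 : 0 ≤ Pr half (ArmBox 0 1 8) := Pr_nonneg
    linarith
  set q : ℝ := 1 - c / 2 with hq
  have hq0 : 0 < q := by linarith only [hc1, hq]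
  have hq1 : q < 1 := by linarith only [hc, hq]
  have key : ∀ m : ℕ, 1 ≤ m → ∀ n : ℕ, Pr half (armInter m n) ≤ q ^ n * arm half m := by
    intro m hm n
    induction n with
    | zero => rw [pow_zero, one_mul]; exact le_rfl
    | succ n ih =>
      have h1 : Pr half (armInter m (n + 1)) =
          Pr half (armInter m n) * Pr half (Ann (m * 16 ^ n) (m * 16 ^ (n + 1))) :=
        Pr_inter_of_disjoint (armratio_localOn m n) (localOn_ann _ _) Finset.disjoint_sdiff
      have h2 : Pr half (Ann (m * 16 ^ n) (m * 16 ^ (n + 1))) ≤ q := by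
        have h6 : 1 ≤ 16 ^ n := Nat.one_le_pow _ _ (by norm_num)
        have h7 : 1 ≤ m * 16 ^ n := Nat.one_le_iff_ne_zero.2 (by positivity)
        have h3 : 4 * (m * 16 ^ n + 1 + 1) ≤ m * 16 ^ (n + 1) := by
          have : m * 16 ^ (n + 1) = 16 * (m * 16 ^ n) := by ring
          rw [this]
          omega
        have h4 := h (m * 16 ^ n + 1) (m * 16 ^ (n + 1)) (by omega) h3
        have h5 : Pr half (Ann (m * 16 ^ n) (m * 16 ^ (n + 1))) ≤
            Pr half (ArmBox 0 (m * 16 ^ n + 1) (m * 16 ^ (n + 1))) :=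
          Pr_mono (ann_subset_armBox _ _)
        linarith only [hq, hq1, h4, h5]
      rw [h1, pow_succ]
      have h8 : 0 ≤ arm half m := Pr_nonneg
      calc Pr half (armInter m n) * Pr half (Ann (m * 16 ^ n) (m * 16 ^ (n + 1)))
          ≤ (q ^ n * arm half m) * q := mul_le_mul ih h2 Pr_nonneg (by positivity)
        _ = q ^ n * q * arm half m := by ring
  have hlog : Real.log q < 0 := Real.log_neg hq0 hq1
  have hlog16 : 0 < Real.log 16 := Real.log_pos (by norm_num)
  set a : ℝ := -Real.log q / Real.log 16 with ha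
  have ha0 : 0 < a := div_pos (neg_pos.2 hlog) hlog16
  refine ⟨1 / q, a, by positivity, ha0, fun m n hm hmn => ?_⟩
  have hm0 : (0 : ℝ) < m := by exact_mod_cast hm
  have hn0 : (0 : ℝ) < n := by exact_mod_cast (hm.trans hmn)
  set k := Nat.log 16 (n / m) with hk
  have hnm : n / m ≠ 0 := by
    have := Nat.div_pos hmn hm
    omega
  have hk1 : 16 ^ k ≤ n / m := Nat.pow_log_le_self 16 hnm
  have hk2 : n / m < 16 ^ (k + 1) := Nat.lt_pow_succ_log_self (by norm_num) _
  have hk3 : m * 16 ^ k ≤ n := by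
    calc m * 16 ^ k ≤ m * (n / m) := Nat.mul_le_mul_left _ hk1
      _ ≤ n := Nat.mul_div_le n m
  have hk4 : n < m * 16 ^ (k + 1) := by
    have := Nat.lt_mul_of_div_lt hk2 hm
    rw [mul_comm]; exact this
  have h1 : arm half n ≤ q ^ k * arm half m :=
    (Pr_mono (armratio_subset hm k hk3)).trans (key m hm k)
  have h2 : q ^ (k + 1) ≤ ((m : ℝ) / n) ^ a := by
    have h3 : ((16 : ℝ) ^ (k + 1)) ^ (-a) = q ^ (k + 1) := by
      rw [← Real.rpow_natCast (16 : ℝ) (k + 1), ← Real.rpow_mul (by norm_num), mul_comm,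
        Real.rpow_mul (by norm_num), Real.rpow_natCast]
      congr 1
      rw [Real.rpow_def_of_pos (by norm_num)]
      have : Real.log 16 * -a = Real.log q := by
        rw [ha]; field_simp
      rw [this, Real.exp_log hq0]
    have h4 : ((m : ℝ) / n) ^ a = ((n : ℝ) / m) ^ (-a) := by
      rw [Real.rpow_neg (by positivity), ← Real.inv_rpow (by positivity), inv_div]
    rw [← h3, h4]
    refine Real.rpow_le_rpow_of_nonpos (by positivity) ?_ (by linarith only [ha0])
    rw [div_le_iff₀ hm0]
    have : (n : ℝ) ≤ (m * 16 ^ (k + 1) : ℕ) := by exact_mod_cast hk4.le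
    push_cast at this
    linarith only [this]
  have h8 : 0 ≤ arm half m := Pr_nonneg
  calc arm half n ≤ q ^ k * arm half m := h1
    _ = 1 / q * q ^ (k + 1) * arm half m := by rw [pow_succ]; field_simp
    _ ≤ 1 / q * ((m : ℝ) / n) ^ a * arm half m := by gcongr

end Pool.Agent.H29.Kap

end

section

/-!
# The probability that the endpoints of an edge are connected off the edge: definitions
-/

open MeasureTheory ProbabilityTheory unitInterval

namespace Pool.Agent.H31.AL

open Pool.Agent.H89.Perc Pool.Agent.H61.NC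

/-- The endpoints of `e` are joined by an open path in `S` which does not use `e`. -/
def Dn (S : Set Vert) (e : Edge) : Set Config := {ω | Conn (close e ω) S (src e) (tgt e)}

/-- The probability that the endpoints of the edge between `(0, 0)` and `(1, 0)` are joined by an
open path in the plane which does not use this edge. -/
noncomputable def tau (p : I) : ℝ := Pr p (Dn Set.univ (0, 0, false))

/-- `tau` as a function on the real line (`0` outside the unit interval). -/
noncomputable def tauR (x : ℝ) : ℝ := by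
  classical exact if h : x ∈ I then tau ⟨x, h⟩ else 0

end Pool.Agent.H31.AL

end
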