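import Pool.Agent.H94.BG.H31.PT.H90.AL.Sums
import Pool.Agent.H94.BG.M15

/-! The parts of this file: H29.Kap.ArmBox3, H29.Kap.ArmExt3, H29.Kap.TupleProb, H29.Kap.TupleProb3, H29.Kap.ExpMom3, H29.Kap.GoodX, H29.Kap.Main, H31.AL.KapDeriv, H90.AL.Piv, H90.AL.Est, H31.AL.TorusDer. -/

section

/-! # Lower bound for annulus crossing probabilities, exponent `1/3` -/

set_option autoImplicit false

open MeasureTheory ProbabilityTheory unitInterval

namespace Pool.Agent.H29.Kap

open Pool.Agent.H89.Perc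

end Pool.Agent.H29.Kap

end

section

/-! # Regularity of the one-arm probability, exponent `1/3` -/

set_option autoImplicit false

namespace Pool.Agent.H29.Kap

open Pool.Agent.H89.Perc

end Pool.Agent.H29.Kap

end

section

/-! # Probability that a tuple of edges lies in `R` -/

set_option autoImplicit false

namespace Pool.Agent.H29.Kap

open Pool.Agent.H89.Perc

theorem tupleprob_sub {a b c d : ℤ} {e : Edge} {ρ r : ℕ} (h8 : 8 ≤ ρ) (hr : r + 1 ≤ ρ)
    (hρ : ρ ≤ dbd a b c d e) {ω : Config} (h : InR ω a b c d e) :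
    ω ∈ tupleprob_E e r ∩ tupleprob_F e r := by
  have hm : (ρ : ℤ) ≤ e.1 - a ∧ (ρ : ℤ) ≤ b - e.1 ∧ (ρ : ℤ) ≤ e.2.1 - c ∧
      (ρ : ℤ) ≤ d - e.2.1 := by
    unfold dbd at hρ
    omega
  obtain ⟨-, ⟨u, hu, w, hw, hc⟩, F, hF, G, hG, hd⟩ := h
  constructor
  · have hc' : Conn ω (rect a b c d) u w := by
      refine hc.mono le_rfl ?_
      intro f hf
      by_cases hfe : f = e
      · subst hfe
        simp at hf
      · rwa [Function.update_of_ne hfe] at hf
    have h1 : (r : ℤ) ≤ |w.1 - u.1| ∨ (r : ℤ) ≤ |w.2 - u.2| := by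
      obtain ⟨x, y, t⟩ := e
      obtain ⟨-, hw2⟩ := hw
      have hu' : (u.1 = x ∨ u.1 = x + 1) ∧ (u.2 = y ∨ u.2 = y + 1) := by
        cases t <;> rcases hu with rfl | rfl <;> simp [src, tgt]
      simp only at hm
      rcases abs_cases (w.1 - u.1) with h3 | h3 <;> rcases abs_cases (w.2 - u.2) with h4 | h4 <;>
        omega
    have h2 := hc'.mem_arm h1
    rcases hu with rfl | rfl
    · exact Or.inl h2
    · exact Or.inr h2
  · have hd' : Conn (dual ω) (rect (a - 1) b (c - 1) d) F G := by
      refine hd.mono le_rfl ?_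
      intro f hf
      simp only [dual] at hf ⊢
      by_cases hfe : crossed f = e
      · rw [hfe, Function.update_self] at hf
        simp at hf
      · rwa [Function.update_of_ne hfe] at hf
    have h1 : (r : ℤ) ≤ |G.1 - F.1| ∨ (r : ℤ) ≤ |G.2 - F.2| := by
      obtain ⟨x, y, t⟩ := e
      obtain ⟨-, hG2⟩ := hG
      have hu' : (F.1 = x ∨ F.1 = x - 1) ∧ (F.2 = y ∨ F.2 = y - 1) := by
        cases t <;> rcases hF with rfl | rfl <;> simp [src, lowFace]
      simp only at hm
      rcases abs_cases (G.1 - F.1) with h3 | h3 <;> rcases abs_cases (G.2 - F.2) with h4 | h4 <;>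
        omega
    have h2 := hd'.mem_arm h1
    rcases hF with rfl | rfl
    · exact Or.inl h2
    · exact Or.inr h2

end Pool.Agent.H29.Kap

end

section

/-! # Probability that a tuple of edges lies in `R`, exponent `2/3` -/

set_option autoImplicit false

namespace Pool.Agent.H29.Kap

open Pool.Agent.H89.Perc

end Pool.Agent.H29.Kap

end

section

/-! # Exponential moments of the size of `R`, without logarithm -/

set_option autoImplicit false

namespace Pool.Agent.H29.Kap

open Pool.Agent.H89.Perc Pool.Agent.Perc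

end Pool.Agent.H29.Kap

end

section

/-! # Uniform control of the expected second differences, continued -/

set_option autoImplicit false

namespace Pool.Agent.H29.Kap

open Pool.Agent.H89.Perc Pool.Agent.Perc

end Pool.Agent.H29.Kap

end

section

/-! # Main estimate -/

set_option autoImplicit false

open Filter Topology

namespace Pool.Agent.H29.Kap

open Pool.Agent.H89.Perc Pool.Agent.Perc

end Pool.Agent.H29.Kap

end

section

/-!
# The derivative of the cluster density
-/

open MeasureTheory ProbabilityTheory unitInterval Filter Topology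

namespace Pool.Agent.H31.AL

open Pool.Agent.H89.Perc Pool.Agent.H61.NC

/-! ### The derivative of the number of clusters -/

open Pool.Agent.H29.Kap

end Pool.Agent.H31.AL

end

section

/-!
# Pivotal edges of the connection event on the torus
-/

open MeasureTheory ProbabilityTheory unitInterval

namespace Pool.Agent.H90.AL

open Pool.Agent.H89.Perc Pool.Agent.H61.NC Pool.Agent.H31.AL

variable {N : ℕ} {d : Bool}

end Pool.Agent.H90.AL

end

section

/-!
# Joint influences of two edges on the connection event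
-/

open MeasureTheory ProbabilityTheory unitInterval

namespace Pool.Agent.H90.AL

open Pool.Agent.H89.Perc Pool.Agent.H61.NC Pool.Agent.H31.AL Pool.Agent.H29.Sep

/-! ### Probabilities -/

end Pool.Agent.H90.AL

end

section

/-!
# Second derivative of the connection probability on the torus
-/

open MeasureTheory ProbabilityTheory unitInterval

namespace Pool.Agent.H31.AL

open Pool.Agent.H89.Perc Pool.Agent.H61.NC Pool.Agent.H29.Sep Pool.Agent.H90.AL

/-- The bound by a function of the two smallest distances. -/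
lemma G_bound {C s p : ℝ} (hC : 0 < C) (hs : 0 ≤ s) {d₁ d₂ y : ℕ} (h1 : d₁ ≤ y) (h2 : y ≤ 2 * d₂)
    (h : p ≤ C * (((d₁ : ℝ) + 1) ^ (-s) * (((d₂ : ℝ) + 1) ^ (-s) * ((d₂ : ℝ) + 1) ^ (-s)))) :
    p ≤ C * ((2 : ℝ) ^ s * (2 : ℝ) ^ s) * G s d₁ y := by
  have h3 := pow_cmp hs (k := 2) (x := d₂ + 1) (y := y) (by omega) (by omega)
  push_cast at h3
  have h4 : ((d₂ : ℝ) + 1) ^ (-s) * ((d₂ : ℝ) + 1) ^ (-s) ≤
      ((2 : ℝ) ^ s * ((y : ℝ) + 1) ^ (-s)) * ((2 : ℝ) ^ s * ((y : ℝ) + 1) ^ (-s)) :=
    mul_le_mul h3 h3 (by positivity) (by positivity)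
  have h5 : ((d₁ : ℝ) + 1) ^ (-s) * (((d₂ : ℝ) + 1) ^ (-s) * ((d₂ : ℝ) + 1) ^ (-s)) ≤
      ((d₁ : ℝ) + 1) ^ (-s) *
        (((2 : ℝ) ^ s * ((y : ℝ) + 1) ^ (-s)) * ((2 : ℝ) ^ s * ((y : ℝ) + 1) ^ (-s))) :=
    mul_le_mul_of_nonneg_left h4 (by positivity)
  refine h.trans ((mul_le_mul_of_nonneg_left h5 hC.le).trans (le_of_eq ?_))
  unfold G
  rw [if_pos h1]
  ring

end Pool.Agent.H31.AL

end
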