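import Pool.Agent.H94.BG.H31.PT.M03_3
import Pool.Agent.H94.BG.H31.PT.M38_4
import Pool.Agent.H94.BG.H31.PT.M39_2
import Pool.Agent.H94.BG.M09

/-! The parts of this file: H29.Kap.ArmBox3, H29.Kap.ArmExt3, H29.Kap.TupleProb, H29.Kap.TupleProb3, H29.Kap.ExpMom3, H29.Kap.GoodX, H29.Kap.Main, H31.AL.KapDeriv, H90.AL.Piv, H90.AL.Est, H31.AL.TorusDer. -/

section

/-! # Lower bound for annulus crossing probabilities, exponent `1/3` -/

set_option autoImplicit false

open MeasureTheory ProbabilityTheory unitInterval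

namespace Pool.Agent.H29.Kap

open Pool.Agent.H89.Perc

/-- The annulus crossing probability at `1 / 2` is at least of the order of the cube root of the
ratio of the radii. -/
theorem armBox_lower3 : ∃ c > (0 : ℝ), ∀ s R : ℕ, 1 ≤ R → s ≤ R →
    c * (((s : ℝ) + 1) / R) ^ (1 / 3 : ℝ) ≤ Pr half (ArmBox 0 s R) := by
  obtain ⟨c, hc, hcross⟩ := armbox3_cross
  refine ⟨(c / 48) ^ (1 / 3 : ℝ), by positivity, fun s R hR hs => ?_⟩
  have hp := hcross R
  set W : ℤ := 2 * R + 8 with hW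
  set P := Pr half (ArmBox 0 s R) with hP
  have hP0 : 0 ≤ P := Pr_nonneg
  -- the blocks
  set m : ℤ := 2 * s + 1 with hm
  set N : ℤ := (2 * W + 2 + s) / m with hN
  have hmpos : 0 < m := by omega
  let Ev : ℤ → Set Config := fun i =>
    armbox3_two (0, m * i) s R ∩ {ω | dual ω ∈ ArmBox (-1, m * i - 1) s R}
  have hsub : ({ω | HCross ω (-W) W 0 (2 * W)} ∩
      {ω | dual ω ∈ {η | HCross η (-W - 1) W (-W) (-2)} ∩
        {η | VCross η (-W) (W - 1) (-3 * W - 1) (-2)}}) ⊆ ⋃ i ∈ Finset.Icc (-N) N, Ev i := by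
    rintro ω ⟨hω1, hω2, hω3⟩
    obtain ⟨h, hh1, hh2, ⟨ω₁, ω₂, hle1, hle2, hdj, ⟨a, ha, hca⟩, ⟨b, hb, hcb⟩⟩, ⟨φ, hφ, hcφ⟩⟩ :=
      three_arms (by omega) hω1 hω2 hω3
    -- the index of the block
    set i : ℤ := (h + s) / m with hi
    have hi1 : m * i ≤ h + s := Int.mul_ediv_self_le hmpos.ne'
    have hi2 : h + s < m * i + m := by
      have := Int.lt_mul_ediv_self_add (x := h + s) hmpos
      exact this
    have hiN : i ∈ Finset.Icc (-N) N := by
      rw [Finset.mem_Icc]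
      constructor
      · rw [hi, Int.le_ediv_iff_mul_le hmpos]
        have h3 : 2 * W + 2 + s < m * N + m := Int.lt_mul_ediv_self_add hmpos
        have h4 : -N * m = -(m * N) := by ring
        rw [h4]
        omega
      · rw [hi, hN]
        exact Int.ediv_le_ediv hmpos (by omega)
    refine Set.mem_biUnion hiN ⟨⟨ω₁, ω₂, hle1, hle2, hdj, ?_, ?_⟩, ?_⟩
    · obtain ⟨x, hx, hcx⟩ := hca.to_sphere (v := ((0, m * i) : Vert)) (r := R)
        (by simp only [mem_ball]; omega)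
        (by left; simp only [mem_ball]; omega)
      refine ⟨(0, h), ?_, x, hx, hcx.mono_set Set.inter_subset_right⟩
      simp only [mem_ball]; omega
    · obtain ⟨x, hx, hcx⟩ := hcb.to_sphere (v := ((0, m * i) : Vert)) (r := R)
        (by simp only [mem_ball]; omega)
        (by left; simp only [mem_ball]; omega)
      refine ⟨(0, h), ?_, x, hx, hcx.mono_set Set.inter_subset_right⟩
      simp only [mem_ball]; omega
    · obtain ⟨x, hx, hcx⟩ := hcφ.to_sphere (v := ((-1, m * i - 1) : Vert)) (r := R)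
        (by simp only [mem_ball]; omega)
        (by left; simp only [mem_ball]; omega)
      refine ⟨(-1, h - 1), ?_, x, hx, hcx.mono_set Set.inter_subset_right⟩
      simp only [mem_ball]; omega
  have hEv : ∀ i, Pr half (Ev i) ≤ P ^ 3 := by
    intro i
    have h1 := fkg_mixed (p := half) (armbox3_localOn_two (0, m * i) s R)
      (localOn_armBox (-1, m * i - 1) s R).dual' (armbox3_incr_two (0, m * i) s R)
      (incr_armBox (-1, m * i - 1) s R).dual_compl
    have h2 : Pr half {ω | dual ω ∈ ArmBox (-1, m * i - 1) s R} = P := by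
      rw [Pr_dual (localOn_armBox (-1, m * i - 1) s R), ArmBoxLower.sigma_half, Pr_armBox]
    rw [h2] at h1
    refine h1.trans ?_
    have h3 := armbox3_Pr_two half (0, m * i) s R
    calc Pr half (armbox3_two (0, m * i) s R) * P ≤ P ^ 2 * P :=
          mul_le_mul_of_nonneg_right h3 hP0
      _ = P ^ 3 := by ring
  have hfin : c ≤ (2 * (N : ℝ) + 1) * P ^ 3 := by
    have hN0 : 0 ≤ N := Int.ediv_nonneg (by omega) hmpos.le
    calc c ≤ _ := hp
      _ ≤ Pr half (⋃ i ∈ Finset.Icc (-N) N, Ev i) := Pr_mono hsub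
      _ ≤ ∑ i ∈ Finset.Icc (-N) N, Pr half (Ev i) := Pr_biUnion_le _ _
      _ ≤ ∑ _i ∈ Finset.Icc (-N) N, P ^ 3 := Finset.sum_le_sum (fun i _ => hEv i)
      _ = (2 * (N : ℝ) + 1) * P ^ 3 := by
        rw [Finset.sum_const, Int.card_Icc, nsmul_eq_mul]
        congr 1
        have : ((N + 1 - -N).toNat : ℤ) = 2 * N + 1 := by
          rw [Int.toNat_of_nonneg (by omega)]; ring
        exact_mod_cast this
  have hR' : (1 : ℝ) ≤ R := by exact_mod_cast hR
  have hs' : (s : ℝ) ≤ R := by exact_mod_cast hs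
  have hs0 : (0 : ℝ) ≤ s := Nat.cast_nonneg s
  have hNb : (2 * (N : ℝ) + 1) * (s + 1) ≤ 48 * R := by
    have h5 : m * N ≤ 2 * W + 2 + s := Int.mul_ediv_self_le hmpos.ne'
    have h6 : ((m : ℝ)) * N ≤ 2 * W + 2 + s := by exact_mod_cast h5
    have hN0 : 0 ≤ N := Int.ediv_nonneg (by omega) hmpos.le
    have hN0' : (0 : ℝ) ≤ N := by exact_mod_cast hN0
    have h7 : (m : ℝ) = 2 * s + 1 := by rw [hm]; push_cast; ring
    have h8 : (W : ℝ) = 2 * R + 8 := by rw [hW]; push_cast; ring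
    rw [h7, h8] at h6
    nlinarith only [hR', hs', h6, hN0']
  have hP3 : 0 ≤ P ^ 3 := by positivity
  have hkey : c / 48 * ((s + 1) / (R : ℝ)) ≤ P ^ 3 := by
    have hRpos : (0 : ℝ) < R := by linarith only [hR']
    have h1 : c * (s + 1) ≤ 48 * R * P ^ 3 := by
      calc c * (s + 1) ≤ (2 * (N : ℝ) + 1) * P ^ 3 * (s + 1) :=
            mul_le_mul_of_nonneg_right hfin (by linarith only)
        _ = ((2 * (N : ℝ) + 1) * (s + 1)) * P ^ 3 := by ring
        _ ≤ 48 * R * P ^ 3 := mul_le_mul_of_nonneg_right hNb hP3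
    rw [← mul_div_assoc, div_le_iff₀ hRpos]
    linarith only [h1]
  have hx : (0 : ℝ) ≤ (s + 1) / (R : ℝ) := by positivity
  calc (c / 48) ^ (1 / 3 : ℝ) * (((s : ℝ) + 1) / R) ^ (1 / 3 : ℝ)
      = (c / 48 * (((s : ℝ) + 1) / R)) ^ (1 / 3 : ℝ) :=
        (Real.mul_rpow (by positivity) hx).symm
    _ ≤ (P ^ 3) ^ (1 / 3 : ℝ) := Real.rpow_le_rpow (by positivity) hkey (by norm_num)
    _ = P := by
        rw [← Real.rpow_natCast P 3, ← Real.rpow_mul hP0]
        norm_num

end Pool.Agent.H29.Kap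

end

section

/-! # Regularity of the one-arm probability, exponent `1/3` -/

set_option autoImplicit false

namespace Pool.Agent.H29.Kap

open Pool.Agent.H89.Perc

/-- Regularity of the one-arm probability at `1 / 2`. -/
theorem armext3_lower : ∃ c > (0 : ℝ), ∀ k R : ℕ, 1 ≤ k → k ≤ R →
    c * ((k : ℝ) / R) ^ (1 / 3 : ℝ) * arm half k ≤ arm half R := by
  classical
  obtain ⟨c1, hc1, H1⟩ := circuit
  obtain ⟨c2, hc2, H2⟩ := armBox_lower3
  refine ⟨min c1 1 * c2 / 4, by positivity, ?_⟩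
  intro k R hk hkR
  have hm0 : 0 < min c1 1 := lt_min hc1 one_pos
  have hR : (0 : ℝ) < R := by
    have : 0 < R := by omega
    exact_mod_cast this
  have hk0 : (0 : ℝ) < k := by exact_mod_cast hk
  -- the annulus crossing probability, for every `s` with `k ≤ 16 (s + 1)`
  have hbox : ∀ s : ℕ, s ≤ R → k ≤ 16 * (s + 1) →
      c2 / 4 * ((k : ℝ) / R) ^ (1 / 3 : ℝ) ≤ Pr half (ArmBox 0 s R) := by
    intro s hs hks
    have h1 := H2 s R (by omega) hs
    have h3 : ((k : ℝ) / R) ^ (1 / 3 : ℝ) ≤ 4 * (((s : ℝ) + 1) / R) ^ (1 / 3 : ℝ) := by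
      have h4 : (k : ℝ) / R ≤ 64 * (((s : ℝ) + 1) / R) := by
        rw [← mul_div_assoc]
        apply div_le_div_of_nonneg_right _ hR.le
        have : (k : ℝ) ≤ 16 * ((s : ℝ) + 1) := by exact_mod_cast hks
        have hs0 : (0 : ℝ) ≤ s := Nat.cast_nonneg s
        linarith only [this]
      calc ((k : ℝ) / R) ^ (1 / 3 : ℝ) ≤ (64 * (((s : ℝ) + 1) / R)) ^ (1 / 3 : ℝ) :=
            Real.rpow_le_rpow (by positivity) h4 (by norm_num)
        _ = (64 : ℝ) ^ (1 / 3 : ℝ) * (((s : ℝ) + 1) / R) ^ (1 / 3 : ℝ) :=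
            Real.mul_rpow (by norm_num) (by positivity)
        _ = 4 * (((s : ℝ) + 1) / R) ^ (1 / 3 : ℝ) := by
            congr 1
            rw [show (64 : ℝ) = 4 ^ (3 : ℝ) by norm_num, ← Real.rpow_mul (by norm_num)]
            norm_num
    calc c2 / 4 * ((k : ℝ) / R) ^ (1 / 3 : ℝ)
        ≤ c2 / 4 * (4 * (((s : ℝ) + 1) / R) ^ (1 / 3 : ℝ)) :=
          mul_le_mul_of_nonneg_left h3 (by positivity)
      _ = c2 * (((s : ℝ) + 1) / R) ^ (1 / 3 : ℝ) := by ring
      _ ≤ _ := h1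
  have ha0 : 0 ≤ arm half k := Pr_nonneg
  have ha1 : arm half k ≤ 1 := Pr_le_one
  have hs0 : 0 ≤ ((k : ℝ) / R) ^ (1 / 3 : ℝ) := by positivity
  by_cases hk16 : k < 16
  · -- small radius
    have h1 := hbox 0 (Nat.zero_le _) (by omega)
    have h2 : Pr half (ArmBox 0 0 R) ≤ arm half R := Pr_mono (armext3_box_zero R)
    calc min c1 1 * c2 / 4 * ((k : ℝ) / R) ^ (1 / 3 : ℝ) * arm half k
        = (c2 / 4 * ((k : ℝ) / R) ^ (1 / 3 : ℝ)) * (min c1 1 * arm half k) := by ring
      _ ≤ (c2 / 4 * ((k : ℝ) / R) ^ (1 / 3 : ℝ)) * 1 := by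
          apply mul_le_mul_of_nonneg_left _ (by positivity)
          calc min c1 1 * arm half k ≤ 1 * 1 :=
                mul_le_mul (min_le_right _ _) ha1 ha0 zero_le_one
            _ = 1 := one_mul 1
      _ ≤ arm half R := by rw [mul_one]; exact h1.trans h2
  · -- large radius
    push Not at hk16
    have hs1 : 1 ≤ k / 8 := by omega
    have h1 := H1 (k / 8) k hs1 (by omega) half le_rfl
    have h2 := hbox (k / 8) (by omega) (by omega)
    have f1 : Pr half (Arm 0 k) * Pr half (ArmBox 0 (k / 8) R) ≤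
        Pr half (Arm 0 k ∩ ArmBox 0 (k / 8) R) :=
      fkg (localOn_arm 0 k) (localOn_armBox 0 (k / 8) R) (incr_arm 0 k) (incr_armBox 0 (k / 8) R)
    have f2 : Pr half (Arm 0 k ∩ ArmBox 0 (k / 8) R) * Pr half {ω | dual ω ∉ DArm (k / 8) k} ≤
        Pr half ((Arm 0 k ∩ ArmBox 0 (k / 8) R) ∩ {ω | dual ω ∉ DArm (k / 8) k}) :=
      fkg ((localOn_arm 0 k).inter' (localOn_armBox 0 (k / 8) R)) (localOn_dual_DArm (k / 8) k)
        ((incr_arm 0 k).inter (incr_armBox 0 (k / 8) R)) (incr_dual_DArm (k / 8) k)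
    have f3 : Pr half ((Arm 0 k ∩ ArmBox 0 (k / 8) R) ∩ {ω | dual ω ∉ DArm (k / 8) k}) ≤
        arm half R := by
      refine Pr_mono ?_
      rintro ω ⟨⟨g1, g2⟩, g3⟩
      exact glue (by omega) hkR g1 g2 g3
    have g1 : arm half k * (c2 / 4 * ((k : ℝ) / R) ^ (1 / 3 : ℝ)) ≤
        Pr half (Arm 0 k ∩ ArmBox 0 (k / 8) R) :=
      (mul_le_mul_of_nonneg_left h2 ha0).trans f1
    calc min c1 1 * c2 / 4 * ((k : ℝ) / R) ^ (1 / 3 : ℝ) * arm half k
        = (arm half k * (c2 / 4 * ((k : ℝ) / R) ^ (1 / 3 : ℝ))) * min c1 1 := by ring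
      _ ≤ Pr half (Arm 0 k ∩ ArmBox 0 (k / 8) R) * Pr half {ω | dual ω ∉ DArm (k / 8) k} :=
          mul_le_mul g1 ((min_le_left _ _).trans h1) hm0.le Pr_nonneg
      _ ≤ _ := f2.trans f3

theorem arm_ext3 : ∃ C : ℝ, 0 < C ∧ ∀ m n : ℕ, 1 ≤ m → m ≤ n →
    arm half m ≤ C * ((n : ℝ) / m) ^ (1 / 3 : ℝ) * arm half n := by
  obtain ⟨c, hc, h⟩ := armext3_lower
  refine ⟨1 / c, by positivity, fun m n hm hmn => ?_⟩
  have h1 := h m n hm hmn
  have hm0 : (0 : ℝ) < m := by exact_mod_cast hm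
  have hn0 : (0 : ℝ) < n := by exact_mod_cast (hm.trans hmn)
  have h2 : ((n : ℝ) / m) ^ (1 / 3 : ℝ) * ((m : ℝ) / n) ^ (1 / 3 : ℝ) = 1 := by
    rw [← Real.mul_rpow (by positivity) (by positivity)]
    have : (n : ℝ) / m * (m / n) = 1 := by field_simp
    rw [this, Real.one_rpow]
  calc arm half m = 1 / c * ((n : ℝ) / m) ^ (1 / 3 : ℝ) *
        (c * ((m : ℝ) / n) ^ (1 / 3 : ℝ) * arm half m) := by
        have : 1 / c * ((n : ℝ) / m) ^ (1 / 3 : ℝ) * (c * ((m : ℝ) / n) ^ (1 / 3 : ℝ) * arm half m) =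
          (1 / c * c) * (((n : ℝ) / m) ^ (1 / 3 : ℝ) * ((m : ℝ) / n) ^ (1 / 3 : ℝ)) * arm half m := by
          ring
        rw [this, h2]
        field_simp
    _ ≤ 1 / c * ((n : ℝ) / m) ^ (1 / 3 : ℝ) * arm half n :=
        mul_le_mul_of_nonneg_left h1 (by positivity)

end Pool.Agent.H29.Kap

end

section

/-! # Probability that a tuple of edges lies in `R` -/

set_option autoImplicit false

namespace Pool.Agent.H29.Kap

open Pool.Agent.H89.Perc

end Pool.Agent.H29.Kap

end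

section

/-! # Probability that a tuple of edges lies in `R`, exponent `2/3` -/

set_option autoImplicit false

namespace Pool.Agent.H29.Kap

open Pool.Agent.H89.Perc

theorem tuple_prob3 : ∃ C : ℝ, 0 < C ∧ ∀ n : ℕ, 1 ≤ n → ∀ a b c d : ℤ, b - a ≤ 4 * n →
    d - c ≤ 4 * n → ∀ (j : ℕ) (e : Fin j → Edge) (ρ : Fin j → ℕ),
      (∀ i, ρ i ≤ dbd a b c d (e i)) → (∀ i k, k ≠ i → ρ i ≤ dist2 (e i) (e k)) →
      Pr half {ω | ∀ i, InR ω a b c d (e i)} ≤
        ∏ i, (C * arm half n ^ 2 * (((4 * n : ℕ) : ℝ) / max (ρ i : ℝ) 1) ^ (2 / 3 : ℝ)) := by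
  classical
  obtain ⟨C3, hC3, H3⟩ := arm_ext3
  obtain ⟨c2, hc2, H2⟩ := tupleprob_arm_lower
  have h1pos : 0 < arm half 1 ^ 2 := by
    have := H2 1 le_rfl
    simp only [Nat.cast_one, mul_one] at this
    linarith
  set c4 : ℝ := arm half 1 ^ 2 / C3 ^ 2 with hc4
  have hc4pos : 0 < c4 := by positivity
  have hsq : ∀ m n : ℕ, 1 ≤ m → m ≤ n →
      arm half m ^ 2 ≤ C3 ^ 2 * ((n : ℝ) / m) ^ (2 / 3 : ℝ) * arm half n ^ 2 := by
    intro m n hm hmn
    have h := H3 m n hm hmn
    have h0 : (0 : ℝ) ≤ (n : ℝ) / m := by positivity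
    have h2 : arm half m ^ 2 ≤ (C3 * ((n : ℝ) / m) ^ (1 / 3 : ℝ) * arm half n) ^ 2 :=
      pow_le_pow_left₀ arm_nonneg h 2
    refine h2.trans (le_of_eq ?_)
    have h5 : (((n : ℝ) / m) ^ (1 / 3 : ℝ)) ^ 2 = ((n : ℝ) / m) ^ (2 / 3 : ℝ) := by
      rw [← Real.rpow_natCast, ← Real.rpow_mul h0]
      norm_num
    rw [mul_pow, mul_pow, h5]
  refine ⟨max (8 * C3 ^ 2) (2 / c4), lt_max_of_lt_left (by positivity), ?_⟩
  intro n hn a b c d hab hcd j e ρ hρ1 hρ2
  set C := max (8 * C3 ^ 2) (2 / c4) with hC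
  have hC0 : 0 < C := lt_max_of_lt_left (by positivity)
  have hn0 : (0 : ℝ) < n := by exact_mod_cast hn
  set r : Fin j → ℕ := fun i => (ρ i - 1) / 2 - 2 with hr
  set B : Fin j → Set Config := fun i =>
    if ρ i < 8 then Set.univ else tupleprob_E (e i) (r i) ∩ tupleprob_F (e i) (r i) with hBdef
  set L : Fin j → Finset Edge := fun i =>
    if ρ i < 8 then ∅ else tupleprob_box (e i) (r i + 2) with hLdef
  have hB : ∀ i ∈ (Finset.univ : Finset (Fin j)), LocalOn (L i) (B i) := by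
    intro i _
    by_cases h : ρ i < 8
    · simp only [hBdef, hLdef, if_pos h]
      intro _ _ _ _
      trivial
    · simp only [hBdef, hLdef, if_neg h]
      exact (tupleprob_local_E _ _).inter (tupleprob_local_F _ _)
  have hL : ∀ i ∈ (Finset.univ : Finset (Fin j)), ∀ k ∈ (Finset.univ : Finset (Fin j)), i ≠ k →
      Disjoint (L i) (L k) := by
    intro i _ k _ hik
    by_cases hi : ρ i < 8
    · simp only [hLdef, if_pos hi]
      exact Finset.disjoint_empty_left _
    by_cases hk : ρ k < 8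
    · simp only [hLdef, if_pos hk]
      exact Finset.disjoint_empty_right _
    simp only [hLdef, if_neg hi, if_neg hk]
    rw [Finset.disjoint_left]
    intro f hf1 hf2
    rw [tupleprob_mem_box] at hf1 hf2
    have h1 := hρ2 i k hik.symm
    have h2 := hρ2 k i hik
    unfold dist2 at h1 h2
    simp only [hr] at hf1 hf2
    push_cast at hf1 hf2
    omega
  have hsub : {ω | ∀ i, InR ω a b c d (e i)} ⊆ {ω | ∀ i ∈ Finset.univ, ω ∈ B i} := by
    intro ω hω i _
    by_cases h : ρ i < 8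
    · simp only [hBdef, if_pos h]
      trivial
    · simp only [hBdef, if_neg h]
      exact tupleprob_sub (by omega) (by simp only [hr]; omega) (hρ1 i) (hω i)
  refine (Pr_mono hsub).trans ?_
  rw [tupleprob_indep Finset.univ B L hB hL]
  refine Finset.prod_le_prod (fun i _ => Pr_nonneg) fun i _ => ?_
  have ha2 : 0 ≤ arm half n ^ 2 := by positivity
  by_cases h : ρ i < 8
  · have h1 : Pr half (B i) ≤ 1 := Pr_le_one
    refine h1.trans ?_
    have h3 : (2 / c4) ≤ C := le_max_right _ _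
    have h4 : (0 : ℝ) < max (ρ i : ℝ) 1 := lt_max_of_lt_right one_pos
    have h5 : max (ρ i : ℝ) 1 ≤ 8 := by
      apply max_le _ (by norm_num)
      exact_mod_cast h.le
    have h6 : (n : ℝ) / 2 ≤ ((4 * n : ℕ) : ℝ) / max (ρ i : ℝ) 1 := by
      have h7 : ((4 * n : ℕ) : ℝ) / (8 : ℝ) ≤ ((4 * n : ℕ) : ℝ) / max (ρ i : ℝ) 1 :=
        div_le_div_of_nonneg_left (by positivity) h4 h5
      refine le_trans (le_of_eq ?_) h7
      push_cast
      ring
    have h8 : ((n : ℝ) / 2) ^ (2 / 3 : ℝ) ≤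
        (((4 * n : ℕ) : ℝ) / max (ρ i : ℝ) 1) ^ (2 / 3 : ℝ) :=
      Real.rpow_le_rpow (by positivity) h6 (by norm_num)
    have h9 : (n : ℝ) ^ (2 / 3 : ℝ) * (1 / 2) ≤ ((n : ℝ) / 2) ^ (2 / 3 : ℝ) := by
      rw [show (n : ℝ) / 2 = n * 2⁻¹ from div_eq_mul_inv _ _,
        Real.mul_rpow hn0.le (by norm_num)]
      refine mul_le_mul_of_nonneg_left ?_ (by positivity)
      have h10 : ((2 : ℝ)⁻¹) ^ (1 : ℝ) ≤ ((2 : ℝ)⁻¹) ^ (2 / 3 : ℝ) :=
        Real.rpow_le_rpow_of_exponent_ge (by norm_num) (by norm_num) (by norm_num)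
      rw [Real.rpow_one] at h10
      rw [one_div]
      exact h10
    have h2 : c4 ≤ arm half n ^ 2 * (n : ℝ) ^ (2 / 3 : ℝ) := by
      have h11 := hsq 1 n le_rfl hn
      rw [Nat.cast_one, div_one] at h11
      rw [hc4, div_le_iff₀ (by positivity)]
      calc arm half 1 ^ 2 ≤ C3 ^ 2 * (n : ℝ) ^ (2 / 3 : ℝ) * arm half n ^ 2 := h11
        _ = _ := by ring
    calc (1 : ℝ) = (2 / c4) * c4 * (1 / 2) := by field_simp
      _ ≤ C * (arm half n ^ 2 * (n : ℝ) ^ (2 / 3 : ℝ)) * (1 / 2) := by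
          apply mul_le_mul_of_nonneg_right _ (by norm_num)
          exact mul_le_mul h3 h2 hc4pos.le hC0.le
      _ = C * arm half n ^ 2 * ((n : ℝ) ^ (2 / 3 : ℝ) * (1 / 2)) := by ring
      _ ≤ _ := mul_le_mul_of_nonneg_left (h9.trans h8) (by positivity)
  · push Not at h
    have hρ0 : (0 : ℝ) < ρ i := by
      have : 0 < ρ i := by omega
      exact_mod_cast this
    have h1 : max (ρ i : ℝ) 1 = ρ i := by
      apply max_eq_left
      have : 1 ≤ ρ i := by omega
      exact_mod_cast this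
    rw [h1]
    have h2 : Pr half (B i) ≤ 4 * arm half (r i) ^ 2 := by
      simp only [hBdef, if_neg (not_lt.2 h)]
      exact tupleprob_Pr _ _
    refine h2.trans ?_
    have hr1 : 1 ≤ r i := by simp only [hr]; omega
    have hrn : r i ≤ n := by
      have h3 := hρ1 i
      unfold dbd at h3
      simp only [hr]
      omega
    have hr8 : (ρ i : ℝ) ≤ 8 * r i := by
      have : ρ i ≤ 8 * r i := by simp only [hr]; omega
      exact_mod_cast this
    have hr0 : (0 : ℝ) < r i := by exact_mod_cast hr1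
    have h3 := hsq (r i) n hr1 hrn
    have h4 : (n : ℝ) / r i ≤ 2 * (((4 * n : ℕ) : ℝ) / (ρ i : ℝ)) := by
      rw [div_le_iff₀ hr0]
      have h5 : 2 * (((4 * n : ℕ) : ℝ) / (ρ i : ℝ)) * r i = (n : ℝ) * (8 * r i) / ρ i := by
        push_cast
        ring
      rw [h5, le_div_iff₀ hρ0]
      exact mul_le_mul_of_nonneg_left hr8 hn0.le
    have h5 : ((n : ℝ) / r i) ^ (2 / 3 : ℝ) ≤
        2 * (((4 * n : ℕ) : ℝ) / (ρ i : ℝ)) ^ (2 / 3 : ℝ) := by
      refine (Real.rpow_le_rpow (by positivity) h4 (by norm_num)).trans ?_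
      rw [Real.mul_rpow (by norm_num) (by positivity)]
      refine mul_le_mul_of_nonneg_right ?_ (by positivity)
      have h10 : (2 : ℝ) ^ (2 / 3 : ℝ) ≤ (2 : ℝ) ^ (1 : ℝ) :=
        Real.rpow_le_rpow_of_exponent_le (by norm_num) (by norm_num)
      rw [Real.rpow_one] at h10
      exact h10
    have h6 : (8 * C3 ^ 2) ≤ C := le_max_left _ _
    calc 4 * arm half (r i) ^ 2
        ≤ 4 * (C3 ^ 2 * ((n : ℝ) / r i) ^ (2 / 3 : ℝ) * arm half n ^ 2) := by gcongr
      _ ≤ 4 * (C3 ^ 2 * (2 * (((4 * n : ℕ) : ℝ) / (ρ i : ℝ)) ^ (2 / 3 : ℝ)) *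
            arm half n ^ 2) := by gcongr
      _ = (8 * C3 ^ 2) * arm half n ^ 2 * (((4 * n : ℕ) : ℝ) / (ρ i : ℝ)) ^ (2 / 3 : ℝ) := by
          ring
      _ ≤ C * arm half n ^ 2 * (((4 * n : ℕ) : ℝ) / (ρ i : ℝ)) ^ (2 / 3 : ℝ) := by gcongr

end Pool.Agent.H29.Kap

end

section

/-! # Exponential moments of the size of `R`, without logarithm -/

set_option autoImplicit false

namespace Pool.Agent.H29.Kap

open Pool.Agent.H89.Perc Pool.Agent.Perc

open Classical in
theorem exp_moment3 : ∃ c₀ : ℝ, 0 < c₀ ∧ ∀ n : ℕ, 1 ≤ n → ∀ a b c d : ℤ, b - a ≤ 4 * n →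
    d - c ≤ 4 * n → ∀ δ : ℝ, 0 ≤ δ →
      δ * ((n : ℝ) ^ 2 * arm half n ^ 2) ≤ c₀ →
      Ex (1 / 2) (redges a b c d)
        (fun S => Real.exp (δ * ((redges a b c d).filter (fun e => InR (ofS S) a b c d e)).card))
        ≤ 2 := by
  obtain ⟨C, hC0, hC⟩ := tuple_prob3
  obtain ⟨C', hC'0, hC'⟩ := tuple_sum3
  refine ⟨1 / (64 * C * C'), by positivity, ?_⟩
  intro n hn a b c d hab hcd δ hδ hsmall
  set X : Finset Edge → ℝ := fun S =>
    (((redges a b c d).filter (fun e => InR (ofS S) a b c d e)).card : ℝ) with hX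
  set M : ℝ := ((4 * n : ℕ) : ℝ) with hM
  have hn' : (1 : ℝ) ≤ n := by exact_mod_cast hn
  have hMn : M = 4 * n := by rw [hM]; push_cast; ring
  set q : ℝ := δ * (C * arm half n ^ 2) * (C' * M ^ 2) with hq
  have hq0 : 0 ≤ q := by positivity
  have hq1 : q ≤ 1 / 4 := by
    have h2 : q = 16 * C * C' * (δ * ((n : ℝ) ^ 2 * arm half n ^ 2)) := by
      rw [hq, hMn]; ring
    have h3 : 16 * C * C' * (δ * ((n : ℝ) ^ 2 * arm half n ^ 2)) ≤
        16 * C * C' * (1 / (64 * C * C')) :=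
      mul_le_mul_of_nonneg_left hsmall (by positivity)
    have h4 : 16 * C * C' * (1 / (64 * C * C')) = 1 / 4 := by
      field_simp; norm_num
    linarith only [h2, h3, h4]
  -- the exponential series
  have hs1 : ∀ S : Finset Edge, HasSum (fun j : ℕ => (δ * X S) ^ j / (j.factorial : ℝ))
      (Real.exp (δ * X S)) := by
    intro S
    have h := NormedSpace.expSeries_div_hasSum_exp (δ * X S)
    rwa [← Real.exp_eq_exp_ℝ] at h
  have hs2 : HasSum (fun j : ℕ => Ex (1 / 2) (redges a b c d)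
      (fun S => (δ * X S) ^ j / (j.factorial : ℝ)))
      (Ex (1 / 2) (redges a b c d) (fun S => Real.exp (δ * X S))) := by
    unfold Ex
    exact hasSum_sum fun S _ => (hs1 S).mul_left _
  have hq1' : q < 1 := by linarith only [hq1]
  have hnq : ‖q‖ < 1 := by rw [Real.norm_eq_abs, abs_of_nonneg hq0]; exact hq1'
  have hs3 : HasSum (fun j : ℕ => (j : ℝ) * q ^ j + q ^ j) (q / (1 - q) ^ 2 + (1 - q)⁻¹) :=
    (hasSum_coe_mul_geometric_of_norm_lt_one hnq).add (hasSum_geometric_of_lt_one hq0 hq1')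
  have hle : ∀ j : ℕ, Ex (1 / 2) (redges a b c d)
      (fun S => (δ * X S) ^ j / (j.factorial : ℝ)) ≤ (j : ℝ) * q ^ j + q ^ j := by
    intro j
    have h1 := expmom3_moment hC0 hC hC' hn hab hcd j
    have h2 : Ex (1 / 2) (redges a b c d) (fun S => (δ * X S) ^ j / (j.factorial : ℝ)) =
        δ ^ j / (j.factorial : ℝ) * Ex (1 / 2) (redges a b c d) (fun S => X S ^ j) := by
      rw [← Ex_const_mul]
      refine Ex_congr fun S _ => ?_
      rw [mul_pow]; ring
    rw [h2]
    have hfac : (0 : ℝ) < (j.factorial : ℝ) := by exact_mod_cast j.factorial_pos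
    calc δ ^ j / (j.factorial : ℝ) * Ex (1 / 2) (redges a b c d) (fun S => X S ^ j)
        ≤ δ ^ j / (j.factorial : ℝ) * ((C * arm half n ^ 2) ^ j * ((j + 1).factorial *
          (C' * M ^ 2) ^ j)) :=
          mul_le_mul_of_nonneg_left h1 (by positivity)
      _ = (j : ℝ) * q ^ j + q ^ j := by
          have e3 : q ^ j = δ ^ j * (C * arm half n ^ 2) ^ j *
              (C' * M ^ 2) ^ j := by
            rw [hq, mul_pow (δ * (C * arm half n ^ 2)), mul_pow δ]
          rw [e3, Nat.factorial_succ]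
          push_cast
          generalize (C * arm half n ^ 2) ^ j = P
          generalize (C' * M ^ 2) ^ j = Q
          field_simp
  have hfin := hasSum_le hle hs2 hs3
  refine hfin.trans ?_
  have h34 : (3 / 4 : ℝ) ≤ 1 - q := by linarith only [hq1]
  have h5 : q / (1 - q) ^ 2 + (1 - q)⁻¹ = 1 / (1 - q) ^ 2 := by
    have : (1 - q) ≠ 0 := by linarith only [hq1]
    field_simp
    ring
  rw [h5, div_le_iff₀ (by positivity)]
  nlinarith only [hq1, hq0]

end Pool.Agent.H29.Kap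

end

section

/-! # Uniform control of the expected second differences, continued -/

set_option autoImplicit false

namespace Pool.Agent.H29.Kap

open Pool.Agent.H89.Perc Pool.Agent.Perc

theorem RU_moment : ∃ c₀ : ℝ, 0 < c₀ ∧ ∀ n : ℕ, 1 ≤ n → ∀ x0 x1 x2 x3 c d : ℤ, x0 ≤ x1 →
    x1 - x0 ≤ 4 * n → x1 ≤ x2 → x2 - x1 ≤ 4 * n → x2 ≤ x3 → x3 - x2 ≤ 4 * n →
    d - c ≤ 4 * n → ∀ t : ℝ, 0 ≤ t →
      t * ((n : ℝ) ^ 2 * arm half n ^ 2) ≤ c₀ →
      Ex (1 / 2) (redges x0 x3 c d) (fun S => (1 + t) ^ (RU x0 x1 x2 x3 c d S).card) ≤ 2 := by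
  obtain ⟨c₀, hc₀, h⟩ := exp_moment3
  refine ⟨c₀ / 3, by positivity, fun n hn x0 x1 x2 x3 c d h01 h01' h12 h12' h23 h23' hcd t ht0 ht => ?_⟩
  have hh0 : (0 : ℝ) ≤ 1 / 2 := by norm_num
  have hh1 : (1 / 2 : ℝ) ≤ 1 := by norm_num
  -- one rectangle
  have key : ∀ a b : ℤ, b - a ≤ 4 * n → redges a b c d ⊆ redges x0 x3 c d →
      Ex (1 / 2) (redges x0 x3 c d) (fun S => Real.exp (3 * t * rc a b c d S)) ≤ 2 := by
    intro a b hab hsub
    have h1 : Ex (1 / 2) (redges x0 x3 c d) (fun S => Real.exp (3 * t * rc a b c d S)) =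
        Ex (1 / 2) (redges a b c d) (fun S => Real.exp (3 * t * rc a b c d S)) :=
      Ex_restrict hsub (fun S _ => by rw [rc_congr hsub S]) _
    rw [h1]
    exact h n hn a b c d hab hcd (3 * t) (by positivity) (by nlinarith only [ht])
  have h1 := key x0 x1 h01' (redges_subset le_rfl (by omega) le_rfl le_rfl)
  have h2 := key x1 x2 h12' (redges_subset (by omega) (by omega) le_rfl le_rfl)
  have h3 := key x2 x3 h23' (redges_subset (by omega) le_rfl le_rfl le_rfl)
  have hmono : Ex (1 / 2) (redges x0 x3 c d)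
      (fun S => (1 + t) ^ (RU x0 x1 x2 x3 c d S).card) ≤
      Ex (1 / 2) (redges x0 x3 c d) (fun S => 1 / 3 * ((Real.exp (3 * t * rc x0 x1 c d S) +
        Real.exp (3 * t * rc x1 x2 c d S)) + Real.exp (3 * t * rc x2 x3 c d S))) := by
    refine Ex_mono hh0 hh1 fun S _ => ?_
    have h4 : (1 + t) ^ (RU x0 x1 x2 x3 c d S).card ≤
        Real.exp (t * (rc x0 x1 c d S + rc x1 x2 c d S + rc x2 x3 c d S)) := by
      have h5 : 1 + t ≤ Real.exp t := by
        have := Real.add_one_le_exp t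
        linarith only [this]
      calc (1 + t) ^ (RU x0 x1 x2 x3 c d S).card ≤ (Real.exp t) ^ (RU x0 x1 x2 x3 c d S).card :=
            pow_le_pow_left₀ (by positivity) h5 _
        _ = Real.exp (t * (RU x0 x1 x2 x3 c d S).card) := by
            rw [← Real.exp_nat_mul, mul_comm]
        _ ≤ _ := by
            rw [Real.exp_le_exp]
            refine mul_le_mul_of_nonneg_left ?_ ht0
            exact_mod_cast RU_card_le S
    refine h4.trans ?_
    have h6 := goodx_amgm (Real.exp_pos (t * rc x0 x1 c d S)).le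
      (Real.exp_pos (t * rc x1 x2 c d S)).le (Real.exp_pos (t * rc x2 x3 c d S)).le
    rw [← Real.exp_add, ← Real.exp_add, ← Real.exp_nat_mul, ← Real.exp_nat_mul,
      ← Real.exp_nat_mul] at h6
    have e1 : t * (rc x0 x1 c d S : ℝ) + t * rc x1 x2 c d S + t * rc x2 x3 c d S =
        t * (rc x0 x1 c d S + rc x1 x2 c d S + rc x2 x3 c d S) := by ring
    rw [e1] at h6
    refine h6.trans (le_of_eq ?_)
    push_cast
    ring_nf
  refine hmono.trans ?_
  rw [Ex_const_mul, Ex_add, Ex_add]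
  linarith only [h1, h2, h3]

theorem good_X : ∃ C c₀ : ℝ, 0 ≤ C ∧ 0 < c₀ ∧ ∀ n : ℕ, 1 ≤ n → ∀ x0 x1 x2 x3 c d : ℤ,
    n ≤ x1 - x0 → x1 - x0 ≤ 4 * n → n ≤ x2 - x1 → x2 - x1 ≤ 4 * n → n ≤ x3 - x2 →
    x3 - x2 ≤ 4 * n → n ≤ d - c → d - c ≤ 4 * n →
    Good n C c₀ (fun p => EK p x0 x3 c d - EK p x0 x2 c d - EK p x1 x3 c d + EK p x1 x2 c d) := by
  obtain ⟨M, hM⟩ := NC_moment
  obtain ⟨c₀, hc₀, hR⟩ := RU_moment
  set M0 := max M 0 with hM0
  have hM0' : 0 ≤ M0 := le_max_right _ _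
  refine ⟨30 * (1 + M0), c₀ / 19, by positivity, by positivity, ?_⟩
  intro n hn x0 x1 x2 x3 c d h01 h01' h12 h12' h23 h23' hcd hcd'
  have hn' : (1 : ℤ) ≤ n := by exact_mod_cast hn
  have l01 : x0 ≤ x1 := by omega
  have l12 : x1 ≤ x2 := by omega
  have l23 : x2 ≤ x3 := by omega
  -- second moments
  have mX : ∀ p : ℝ, 0 ≤ p → p ≤ 1 / 2 →
      Ex p (redges x0 x3 c d) (fun S => (X (ofS S) x0 x1 x2 x3 c d : ℝ) ^ 2) ≤ M0 := by
    intro p hp0 hp1
    refine goodx_sq_le (g := fun S => (NC (ofS S) x1 x2 c d : ℝ)) hp0 (by linarith only [hp1])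
      (fun S _ => ?_) ?_
    · have h : |X (ofS S) x0 x1 x2 x3 c d| ≤ (NC (ofS S) x1 x2 c d : ℤ) :=
        second_diff_free (ω := ofS S) (c := c) (d := d) l01 l12 l23
      rw [← Int.cast_abs]
      exact_mod_cast h
    · rw [NC_restrict (redges_subset l01 l23 le_rfl le_rfl)]
      exact (hM n hn x1 x2 c d h12 (by omega) (by omega) p hp0 hp1).trans (le_max_left _ _)
  have mW : ∀ p : ℝ, 0 ≤ p → p ≤ 1 / 2 →
      Ex p (redges (x0 - 1) x3 (c - 1) d)
        (fun S => (XW (ofS S) (x0 - 1) (x1 - 1) x2 x3 (c - 1) d : ℝ) ^ 2) ≤ M0 := by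
    intro p hp0 hp1
    refine goodx_sq_le (g := fun S => (NC (ofS S) (x1 - 1) x2 (c - 1) d : ℝ)) hp0 (by linarith only [hp1])
      (fun S _ => ?_) ?_
    · have h : |XW (ofS S) (x0 - 1) (x1 - 1) x2 x3 (c - 1) d| ≤
          (NC (ofS S) (x1 - 1) x2 (c - 1) d : ℤ) :=
        second_diff_wired (ω := ofS S) (x0 := x0 - 1) (x1 := x1 - 1) (x2 := x2) (x3 := x3)
          (c := c - 1) (d := d) (by omega) (by omega) l23
      rw [← Int.cast_abs]
      exact_mod_cast h
    · rw [NC_restrict (redges_subset (by omega) l23 le_rfl le_rfl)]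
      exact (hM n hn (x1 - 1) x2 (c - 1) d (by omega) (by omega) (by omega) p hp0 hp1).trans
        (le_max_left _ _)
  -- the two representations
  have rX : (fun p => EK p x0 x3 c d - EK p x0 x2 c d - EK p x1 x3 c d + EK p x1 x2 c d) =
      fun p => Ex p (redges x0 x3 c d) (fun S => (X (ofS S) x0 x1 x2 x3 c d : ℝ)) := by
    funext p
    rw [Ex_X l01 l12 l23]
  have rW : (fun p => EK p x0 x3 c d - EK p x0 x2 c d - EK p x1 x3 c d + EK p x1 x2 c d) =
      fun p => (fun q => Ex q (redges (x0 - 1) x3 (c - 1) d)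
        (fun S => (XW (ofS S) (x0 - 1) (x1 - 1) x2 x3 (c - 1) d : ℝ))) (1 - p) := by
    funext p
    simp only
    rw [Ex_XW (by omega) (by omega) l23, X_euler p l01 l12 l23 (by omega)]
  refine ⟨?_, ?_, ?_⟩
  · -- coefficients
    obtain ⟨y, hy1, hy2, hy3⟩ := tilt (redges x0 x3 c d)
      (fun S => (X (ofS S) x0 x1 x2 x3 c d : ℝ)) (RU x0 x1 x2 x3 c d)
      (fun S _ => by classical
                     unfold RU; exact Finset.filter_subset _ _)
      (fun S _ g _ hg => RU_sflip l01 l12 l23 hg)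
      (fun S _ g _ hg => by rw [X_sflip l01 l12 l23 hg])
    refine ⟨y, (redges x0 x3 c d).card + 1, fun p => ?_, fun j hj => hy2 j (by omega),
      fun r hr0 hr1 hr j => ?_⟩
    · exact (congrFun rX p).trans (hy1 p)
    · have h1 := hy3 r hr0 hr1 j
      have h2 := mX (1 / 2) (by norm_num) le_rfl
      have h3 := hR n hn x0 x1 x2 x3 c d l01 h01' l12 h12' l23 h23' hcd' (19 * r ^ 2)
        (by positivity) (by
          have : 19 * r ^ 2 * ((n : ℝ) ^ 2 * arm half n ^ 2) =
            19 * (r ^ 2 * ((n : ℝ) ^ 2 * arm half n ^ 2)) := by ring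
          rw [this]; linarith only [hr])
      refine h1.trans ?_
      have h4 : Real.sqrt (Ex (1 / 2) (redges x0 x3 c d)
          (fun S => (X (ofS S) x0 x1 x2 x3 c d : ℝ) ^ 2)) ≤ 1 + M0 := by
        rw [Real.sqrt_le_left (by linarith only [hM0'])]
        nlinarith only [h2, hM0']
      have h5 : (Ex (1 / 2) (redges x0 x3 c d)
          (fun S => (1 + 19 * r ^ 2) ^ (RU x0 x1 x2 x3 c d S).card)) ^ (1 / 4 : ℝ) ≤ 2 := by
        have h6 : 0 ≤ Ex (1 / 2) (redges x0 x3 c d)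
            (fun S => (1 + 19 * r ^ 2) ^ (RU x0 x1 x2 x3 c d S).card) :=
          Ex_nonneg (by norm_num) (by norm_num) fun S _ => by positivity
        calc _ ≤ (2 : ℝ) ^ (1 / 4 : ℝ) := Real.rpow_le_rpow h6 h3 (by norm_num)
          _ ≤ (2 : ℝ) ^ (1 : ℝ) := Real.rpow_le_rpow_of_exponent_le (by norm_num) (by norm_num)
          _ = 2 := Real.rpow_one 2
      calc _ ≤ (1 + M0) * 2 := mul_le_mul h4 h5 (Real.rpow_nonneg (Ex_nonneg (by norm_num)
              (by norm_num) fun S _ => by positivity) _) (by positivity)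
        _ ≤ 30 * (1 + M0) := by linarith only [hM0']
  · intro p hp0 hp1
    rcases le_total p (1 / 2) with hp | hp
    · have h1 := goodx_abs_le hp0 hp1 (mX p hp0 hp)
      have h2 := congrFun rX p
      simp only at h2 ⊢
      rw [h2]
      linarith only [hM0', h1]
    · have h1 := goodx_abs_le (p := 1 - p) (by linarith only [hp1]) (by linarith only [hp])
        (mW (1 - p) (by linarith) (by linarith only [hp]))
      have h2 := congrFun rW p
      simp only at h2 ⊢
      rw [h2]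
      linarith only [hM0', h1]
  · intro p hp0 hp1
    rcases le_total p (1 / 2) with hp | hp
    · rw [rX]
      refine goodx_deriv hp0 hp1 hM0' (mX p (by linarith) hp) ?_
      refine (card_redges_le (M := 13 * n) (N := 5 * n) (by push_cast; omega)
        (by push_cast; omega)).trans ?_
      nlinarith only [sq_nonneg (n : ℤ)]
    · rw [rW, deriv_comp_const_sub (f := fun q => Ex q (redges (x0 - 1) x3 (c - 1) d)
        (fun S => (XW (ofS S) (x0 - 1) (x1 - 1) x2 x3 (c - 1) d : ℝ))), abs_neg]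
      refine goodx_deriv (by linarith only [hp1]) (by linarith only [hp]) hM0'
        (mW (1 - p) (by linarith only [hp1]) (by linarith only [hp])) ?_
      refine (card_redges_le (M := 14 * n) (N := 6 * n) (by push_cast; omega)
        (by push_cast; omega)).trans ?_
      nlinarith only [sq_nonneg (n : ℤ)]

end Pool.Agent.H29.Kap

end

section

/-! # Main estimate -/

set_option autoImplicit false

open Filter Topology

namespace Pool.Agent.H29.Kap

open Pool.Agent.H89.Perc Pool.Agent.Perc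

lemma DX_eq (n w b : ℕ) (p : ℝ) :
    DX n w b p = EK p 0 (n + w + n) 0 b - 2 * EK p 0 (n + w) 0 b + EK p 0 w 0 b := by
  have h1 := EK_shift p 0 (n + w) 0 b n 0
  have h2 := EK_shift p 0 w 0 b n 0
  simp only [zero_add, add_zero] at h1 h2
  have e1 : (w : ℤ) + n = n + w := by ring
  rw [e1] at h2
  unfold DX
  rw [h1, h2]
  ring

/-- The scale decomposition. -/
lemma GG_step (n : ℕ) (p : ℝ) :
    GG (2 * n) p - 4 * GG n p =
      DX n (2 * n) (4 * n) p + 2 * DX n n (4 * n) p + DX n (2 * n) (2 * n) p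
        + 2 * DX n n (2 * n) p + (-2) * DX n (2 * n) n p + (-4) * DX n n n p := by
  have s1 := EK_swap p 0 (4 * n) 0 (2 * n)
  have s2 := EK_swap p 0 (4 * n) 0 n
  have s3 := EK_swap p 0 (2 * n) 0 n
  simp only [DX_eq, GG]
  push_cast
  have e1 : (2 : ℤ) * (2 * n) = 4 * n := by ring
  have e2 : (n : ℤ) + 2 * n + n = 4 * n := by ring
  have e3 : (n : ℤ) + 2 * n = 3 * n := by ring
  have e4 : (n : ℤ) + n + n = 3 * n := by ring
  have e5 : (n : ℤ) + n = 2 * n := by ring
  rw [e1, e2, e3, e4, e5]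
  rw [s1, s2, s3]
  ring

theorem good_DX : ∃ C c₀ : ℝ, 0 ≤ C ∧ 0 < c₀ ∧ ∀ n : ℕ, 1 ≤ n →
    Good n C c₀ (fun p => GG (2 * n) p - 4 * GG n p) := by
  obtain ⟨C, c₀, hC, hc₀, h⟩ := good_X
  refine ⟨12 * C, c₀, by positivity, hc₀, fun n hn => ?_⟩
  have key : ∀ w b : ℕ, n ≤ w → w ≤ 4 * n → n ≤ b → b ≤ 4 * n → Good n C c₀ (DX n w b) := by
    intro w b h1 h2 h3 h4
    exact h n hn 0 n (n + w) (n + w + n) 0 b (by omega) (by omega) (by omega) (by omega) (by omega)
      (by omega) (by omega) (by omega)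
  have g1 := key (2 * n) (4 * n) (by omega) (by omega) (by omega) (by omega)
  have g2 := key n (4 * n) (by omega) (by omega) (by omega) (by omega)
  have g3 := key (2 * n) (2 * n) (by omega) (by omega) (by omega) (by omega)
  have g4 := key n (2 * n) (by omega) (by omega) (by omega) (by omega)
  have g5 := key (2 * n) n (by omega) (by omega) (by omega) (by omega)
  have g6 := key n n (by omega) (by omega) (by omega) (by omega)
  have g := ((((g1.add (g2.const_mul 2)).add g3).add (g4.const_mul 2)).add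
    (g5.const_mul (-2))).add (g6.const_mul (-4))
  have e : (fun p => GG (2 * n) p - 4 * GG n p) = fun p =>
      DX n (2 * n) (4 * n) p + 2 * DX n n (4 * n) p + DX n (2 * n) (2 * n) p
        + 2 * DX n n (2 * n) p + (-2) * DX n (2 * n) n p + (-4) * DX n n n p :=
    funext fun p => GG_step n p
  rw [e]
  refine g.mono (le_of_eq ?_)
  have a2 : |(2 : ℝ)| = 2 := abs_of_pos (by norm_num)
  have a3 : |(-2 : ℝ)| = 2 := by rw [abs_neg, a2]
  have a4 : |(-4 : ℝ)| = 4 := by rw [abs_neg]; exact abs_of_pos (by norm_num)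
  rw [a2, a3, a4]
  ring

/-- The cluster density. -/
noncomputable def kap (p : ℝ) : ℝ := by
  classical
  exact if h : 0 ≤ p ∧ p ≤ 1 then (kappa_exists h.1 h.2).choose else 0

lemma kap_spec {p : ℝ} (h0 : 0 ≤ p) (h1 : p ≤ 1) :
    ∀ n : ℕ, 1 ≤ n → |EK p 0 (n - 1) 0 (n - 1) / (n : ℝ) ^ 2 - kap p| ≤ 2 / n := by
  unfold kap
  rw [dif_pos ⟨h0, h1⟩]
  exact (kappa_exists h0 h1).choose_spec

lemma kap_tendsto {p : ℝ} (h0 : 0 ≤ p) (h1 : p ≤ 1) :
    Tendsto (fun n : ℕ => EK p 0 (n - 1) 0 (n - 1) / (n : ℝ) ^ 2) atTop (𝓝 (kap p)) := by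
  rw [tendsto_iff_norm_sub_tendsto_zero]
  refine squeeze_zero' (Eventually.of_forall fun n => norm_nonneg _)
    ((eventually_ge_atTop 1).mono fun n hn => ?_) (tendsto_const_div_atTop_nhds_zero_nat 2)
  exact kap_spec h0 h1 n hn

lemma kap_dual {p : ℝ} (h0 : 0 ≤ p) (h1 : p ≤ 1) : kap p = kap (1 - p) + 1 - 2 * p :=
  kappa_dual h0 h1 (kap_spec h0 h1) (kap_spec (by linarith) (by linarith))

lemma GG_tendsto {p : ℝ} (h0 : 0 ≤ p) (h1 : p ≤ 1) :
    Tendsto (fun k : ℕ => GG (2 ^ k) p / 4 ^ k) atTop (𝓝 (kap p)) := by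
  obtain ⟨C, hC⟩ := EK_boxes h0 h1 (kap_spec h0 h1)
  have hp : Tendsto (fun k : ℕ => C * (1 / 2 : ℝ) ^ k) atTop (𝓝 0) := by
    have := (tendsto_pow_atTop_nhds_zero_of_lt_one (r := (1 / 2 : ℝ)) (by norm_num)
      (by norm_num)).const_mul C
    rwa [mul_zero] at this
  rw [tendsto_iff_norm_sub_tendsto_zero]
  refine squeeze_zero (fun k => norm_nonneg _) (fun k => ?_) hp
  have h2 := hC (2 ^ k) Nat.one_le_two_pow
  have h3 : GG (2 ^ k) p / 4 ^ k - kap p = (GG (2 ^ k) p - kap p * (2 ^ k : ℕ) ^ 2) / 4 ^ k := by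
    have : ((2 ^ k : ℕ) : ℝ) ^ 2 = 4 ^ k := by
      push_cast
      rw [← pow_mul, mul_comm, pow_mul]
      norm_num
    rw [this]
    field_simp
  rw [h3, norm_div, Real.norm_eq_abs, Real.norm_eq_abs, abs_of_pos (show (0 : ℝ) < 4 ^ k by positivity),
    div_le_iff₀ (by positivity)]
  have h4 : C * (1 / 2 : ℝ) ^ k * 4 ^ k = C * (2 ^ k : ℕ) := by
    push_cast
    rw [mul_assoc, ← mul_pow]
    norm_num
  rw [h4]
  exact h2

theorem main : (∀ p : ℝ, 0 ≤ p → p ≤ 1 →
      Tendsto (fun n : ℕ => EK p 0 (n - 1) 0 (n - 1) / (n : ℝ) ^ 2) atTop (𝓝 (kap p))) ∧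
    (∀ p : ℝ, 1 / 4 < p → p < 3 / 4 → DifferentiableAt ℝ kap p) ∧
    DifferentiableAt ℝ (deriv kap) (1 / 2) ∧
    ∃ C' : ℝ, ∀ p : ℝ, 0 ≤ p → p ≤ 1 → ∀ N : ℕ, 1 ≤ N →
      |p - 1 / 2| * N * arm half N ≤ 1 → |Rem kap p| ≤ C' / (N : ℝ) ^ 2 := by
  refine ⟨fun p h0 h1 => kap_tendsto h0 h1, ?_⟩
  obtain ⟨C, c₀, hC, hc₀, hg⟩ := good_DX
  obtain ⟨C₁, -, hext⟩ := arm_ext3
  obtain ⟨C₂, a₀, -, ha₀, hratio⟩ := arm_ratio
  obtain ⟨g, m, hgm⟩ := GG_poly 1
  have hY : ∀ k : ℕ, Good (2 ^ k) C c₀ (YY k) := by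
    intro k
    have := hg (2 ^ k) Nat.one_le_two_pow
    have e : (fun p => GG (2 * 2 ^ k) p - 4 * GG (2 ^ k) p) = YY k := by
      funext p
      unfold YY
      rw [pow_succ, mul_comm]
    rwa [e] at this
  choose hYrep hYb hYd using hY
  choose y D hy1 hy2 hy3 using hYrep
  refine analysis3 (fun n => arm half n) (fun n => Pool.Agent.H85.Gamma.arm_half_pos n)
    (fun n => Pr_le_one) C₁ hext C₂ a₀ ha₀ hratio YY y D hy1 hy2 C c₀ hc₀
    ?_ hYb ?_ (GG 1) g m hgm kap ?_ (fun p h0 h1 => kap_dual h0 h1)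
  · intro k r hr0 hr1 hr j
    refine hy3 k r hr0 hr1 ?_ j
    refine le_trans (le_of_eq ?_) hr
    push_cast
    have : ((2 : ℝ) ^ k) ^ 2 = 4 ^ k := by
      rw [← pow_mul, mul_comm, pow_mul]
      norm_num
    rw [this]
  · intro k p h0 h1
    have := hYd k p h0 h1
    push_cast at this
    exact this
  · intro p h0 h1
    have hsum : Summable (fun k => YY k p / 4 ^ (k + 1)) := by
      refine Summable.of_norm_bounded (g := fun k => C / 4 * (1 / 4 : ℝ) ^ k)
        ((summable_geometric_of_lt_one (by norm_num) (by norm_num)).mul_left _) fun k => ?_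
      rw [norm_div, Real.norm_eq_abs, Real.norm_eq_abs, abs_of_pos (show (0 : ℝ) < 4 ^ (k + 1) by positivity),
        div_le_iff₀ (by positivity)]
      have h4 : C / 4 * (1 / 4 : ℝ) ^ k * 4 ^ (k + 1) = C := by
        rw [pow_succ, mul_assoc, ← mul_assoc ((1 / 4 : ℝ) ^ k), ← mul_pow]
        norm_num
      rw [h4]
      exact hYb k p h0 h1
    have h2 := hsum.hasSum.tendsto_sum_nat
    simp only [YY_partial] at h2
    have h3 := (GG_tendsto h0 h1).sub_const (GG 1 p)
    have h4 := tendsto_nhds_unique h2 h3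
    rw [← h4]
    exact hsum.hasSum

end Pool.Agent.H29.Kap

end

section

/-!
# The derivative of the cluster density
-/

open MeasureTheory ProbabilityTheory unitInterval Filter Topology

namespace Pool.Agent.H31.AL

open Pool.Agent.H89.Perc Pool.Agent.H61.NC

/-- The finite volume version of `tau`. -/
noncomputable def tl (m : ℕ) (p : I) : ℝ := Pr p (Dn (ball 0 m) (0, 0, false))

theorem localOn_Dn {s : Finset Edge} {S : Set Vert} (e : Edge)
    (h : ∀ f, src f ∈ S → tgt f ∈ S → f ∈ s) : LocalOn s (Dn S e) := by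
  intro ω ω' h1 hc
  exact Conn.congr (fun f h2 h3 => close_congr (h1 f (h f h2 h3))) hc

theorem incr_Dn (S : Set Vert) (e : Edge) : Incr (Dn S e) :=
  fun _ _ h hc => Conn.mono le_rfl (close_mono h) hc

theorem Dn_mono {S T : Set Vert} (h : S ⊆ T) (e : Edge) : Dn S e ⊆ Dn T e :=
  fun _ hc => Conn.mono_set h hc

theorem localOn_Dn_ball (v : Vert) (m : ℕ) (e : Edge) :
    LocalOn (eRect (v.1 - m) (v.1 + m) (v.2 - m) (v.2 + m)) (Dn (ball v m) e) :=
  localOn_Dn e fun _ h _ => mem_eRect.2 h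

theorem kd_shift (v : Vert) (d : Bool) (r : ℕ) :
    {ω : Config | (fun f => ω (shiftE v f)) ∈ Dn (ball 0 r) (0, 0, d)} =
      Dn (ball v r) (v.1, v.2, d) := by
  have hcl : ∀ ω : Config, close (0, 0, d) (fun f => ω (shiftE v f)) =
      fun f => close (v.1, v.2, d) ω (shiftE v f) := by
    intro ω
    funext f
    by_cases hf : f = (0, 0, d)
    · subst hf
      have : shiftE v (0, 0, d) = (v.1, v.2, d) := by simp [shiftE]
      rw [this]
      unfold close
      rw [Function.update_self, Function.update_self]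
    · have : shiftE v f ≠ (v.1, v.2, d) := by
        intro h
        apply hf
        apply shiftE_injective v
        rw [h]
        simp [shiftE]
      unfold close
      rw [Function.update_of_ne hf, Function.update_of_ne this]
  have hb : {w : Vert | (w.1 - v.1, w.2 - v.2) ∈ ball 0 r} = ball v r := by
    ext w
    simp only [Set.mem_ofPred_eq, mem_ball, Prod.fst_zero, Prod.snd_zero]
    omega
  have hs : (((src ((0 : ℤ), (0 : ℤ), d)).1 + v.1, (src ((0 : ℤ), (0 : ℤ), d)).2 + v.2) : Vert) =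
      src (v.1, v.2, d) := by simp [src]
  have ht : (((tgt ((0 : ℤ), (0 : ℤ), d)).1 + v.1, (tgt ((0 : ℤ), (0 : ℤ), d)).2 + v.2) : Vert) =
      tgt (v.1, v.2, d) := by
    cases d <;> simp [tgt, add_comm]
  ext ω
  simp only [Dn, Set.mem_ofPred_eq]
  rw [hcl, conn_shift, hb, hs, ht]

theorem kd_swap (r : ℕ) :
    {ω : Config | (fun f => ω (swapE f)) ∈ Dn (ball 0 r) (0, 0, true)} =
      Dn (ball 0 r) (0, 0, false) := by
  have hcl : ∀ ω : Config, close (0, 0, true) (fun f => ω (swapE f)) =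
      fun f => close (0, 0, false) ω (swapE f) := by
    intro ω
    funext f
    by_cases hf : f = (0, 0, true)
    · subst hf
      have : swapE (0, 0, true) = (0, 0, false) := by simp [swapE]
      rw [this]
      unfold close
      rw [Function.update_self, Function.update_self]
    · have : swapE f ≠ (0, 0, false) := by
        intro h
        apply hf
        apply swapE_injective
        rw [h]
        simp [swapE]
      unfold close
      rw [Function.update_of_ne hf, Function.update_of_ne this]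
  have hb : {w : Vert | (w.2, w.1) ∈ ball 0 r} = ball 0 r := by
    ext w
    simp only [Set.mem_ofPred_eq, mem_ball, Prod.fst_zero, Prod.snd_zero]
    omega
  have hs : (((src ((0 : ℤ), (0 : ℤ), true)).2, (src ((0 : ℤ), (0 : ℤ), true)).1) : Vert) =
      src (0, 0, false) := by simp [src]
  have ht : (((tgt ((0 : ℤ), (0 : ℤ), true)).2, (tgt ((0 : ℤ), (0 : ℤ), true)).1) : Vert) =
      tgt (0, 0, false) := by
    simp [tgt]
  ext ω
  simp only [Dn, Set.mem_ofPred_eq]
  rw [hcl, conn_swap, hb, hs, ht]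

theorem Pr_Dn_ball (q : I) (e : Edge) (m : ℕ) : Pr q (Dn (ball (src e) m) e) = tl m q := by
  obtain ⟨x, y, d⟩ := e
  have h1 : Pr q (Dn (ball (x, y) m) (x, y, d)) = Pr q (Dn (ball 0 m) (0, 0, d)) := by
    have := kd_shift (x, y) d m
    simp only at this
    rw [← this, Pr_comp (localOn_Dn_ball 0 m (0, 0, d)) (shiftE_injective (x, y)).injOn]
  rw [show src (x, y, d) = (x, y) from rfl, h1, tl]
  cases d
  · rfl
  · rw [← kd_swap m, Pr_comp (localOn_Dn_ball 0 m (0, 0, true)) swapE_injective.injOn]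

theorem Dn_univ_eq (e : Edge) : Dn Set.univ e = ⋃ m : ℕ, Dn (ball (src e) m) e := by
  ext ω
  rw [Set.mem_iUnion]
  constructor
  · exact fun h => kd_conn (src e) h
  · rintro ⟨m, hm⟩
    exact hm.mono_set (Set.subset_univ _)

theorem Dn_univ_tendsto (q : I) (e : Edge) :
    Tendsto (fun m => tl m q) atTop (𝓝 (Pr q (Dn Set.univ e))) := by
  have hm : Monotone (fun m : ℕ => Dn (ball (src e) m) e) := by
    intro a b hab
    refine Dn_mono ?_ e
    intro w hw
    rw [mem_ball] at hw ⊢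
    omega
  have h := tendsto_measure_iUnion_atTop (μ := μ q) hm
  rw [← Dn_univ_eq] at h
  have h2 := (ENNReal.tendsto_toReal (measure_ne_top (μ q) (Dn Set.univ e))).comp h
  refine h2.congr fun m => ?_
  rw [← Pr_Dn_ball q e m]
  rfl

theorem Pr_Dn_univ (q : I) (e : Edge) : Pr q (Dn Set.univ e) = tau q :=
  tendsto_nhds_unique (Dn_univ_tendsto q e) (Dn_univ_tendsto q (0, 0, false))

theorem tl_tendsto (q : I) : Tendsto (fun m => tl m q) atTop (𝓝 (tau q)) :=
  Dn_univ_tendsto q (0, 0, false)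

/-- The event for an edge and a set which contains a ball around the edge. -/
theorem tl_le_Pr_Dn (q : I) (e : Edge) {m : ℕ} {S : Set Vert} (hS : ball (src e) m ⊆ S) :
    tl m q ≤ Pr q (Dn S e) := by
  rw [← Pr_Dn_ball q e m]
  exact Pr_mono (Dn_mono hS e)

theorem Pr_Dn_le_tau (q : I) (e : Edge) (S : Set Vert) : Pr q (Dn S e) ≤ tau q := by
  rw [← Pr_Dn_univ q e]
  exact Pr_mono (Dn_mono (Set.subset_univ _) e)

/-! ### The derivative of the number of clusters -/

open Pool.Agent.H29.Kap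

theorem EK_hasDerivAt (a b c d : ℤ) (q : I) :
    HasDerivAt (fun p => EK p a b c d)
      (-∑ e ∈ redges a b c d, (1 - Pr q (Dn (rect a b c d) e))) q := by
  unfold EK
  refine (Pool.Agent.Perc.hasDerivAt_Ex (redges a b c d) _ (q : ℝ)).congr_deriv ?_
  rw [← Finset.sum_neg_distrib]
  refine Finset.sum_congr rfl fun e he => ?_
  have hl : LocalOn (redges a b c d) (Dn (rect a b c d) e) :=
    localOn_Dn e fun f h1 h2 => mem_redges.2 ⟨h1, h2⟩
  rw [Pr_eq_Ex hl]
  obtain ⟨hs, ht⟩ := mem_redges.1 he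
  have key : ∀ S, S ⊆ redges a b c d →
      Pool.Agent.Perc.DD e (fun S => (K (ofS S) (rect a b c d) : ℝ)) S =
        (-1) * (1 - Pool.Agent.Perc.ind (fun S => ofS S ∈ Dn (rect a b c d) e) S) := by
    intro S _
    obtain ⟨k1, k2⟩ := K_update (ω := ofS S) (rect_finite a b c d) hs ht
    obtain ⟨u1, u2⟩ := ofS_update S e
    unfold Pool.Agent.Perc.DD
    beta_reduce
    rw [← u1, ← u2]
    by_cases h : Conn (Function.update (ofS S) e false) (rect a b c d) (src e) (tgt e)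
    · rw [Pool.Agent.Perc.ind_of (A := fun S => ofS S ∈ Dn (rect a b c d) e) h, k1 h]
      ring
    · rw [Pool.Agent.Perc.ind_of_not (A := fun S => ofS S ∈ Dn (rect a b c d) e) h, k2 h]
      push_cast
      ring
  rw [Pool.Agent.Perc.Ex_congr key, Pool.Agent.Perc.Ex_const_mul, Pool.Agent.Perc.Ex_sub,
    Pool.Agent.Perc.Ex_const]
  ring

theorem EK_diff (a b c d : ℤ) {x y : I} (hxy : x ≤ y) :
    -(∑ e ∈ redges a b c d, (1 - Pr x (Dn (rect a b c d) e))) * ((y : ℝ) - x) ≤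
        EK y a b c d - EK x a b c d ∧
      EK y a b c d - EK x a b c d ≤
        -(∑ e ∈ redges a b c d, (1 - Pr y (Dn (rect a b c d) e))) * ((y : ℝ) - x) := by
  have hxy' : (x : ℝ) ≤ y := hxy
  have hd : ∀ z ∈ Set.Icc (x : ℝ) y, ∃ q : I, (q : ℝ) = z ∧ x ≤ q ∧ q ≤ y ∧
      HasDerivAt (fun p => EK p a b c d)
        (-∑ e ∈ redges a b c d, (1 - Pr q (Dn (rect a b c d) e))) z := by
    intro z hz
    refine ⟨⟨z, x.2.1.trans hz.1, hz.2.trans y.2.2⟩, rfl, hz.1, hz.2, ?_⟩
    exact EK_hasDerivAt a b c d ⟨z, x.2.1.trans hz.1, hz.2.trans y.2.2⟩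
  have hl : ∀ e ∈ redges a b c d, LocalOn (redges a b c d) (Dn (rect a b c d) e) :=
    fun e _ => localOn_Dn e fun f h1 h2 => mem_redges.2 ⟨h1, h2⟩
  have hcont : ContinuousOn (fun p => EK p a b c d) (Set.Icc (x : ℝ) y) := by
    intro z hz
    obtain ⟨q, _, _, _, h⟩ := hd z hz
    exact h.continuousAt.continuousWithinAt
  have hdiff : DifferentiableOn ℝ (fun p => EK p a b c d) (interior (Set.Icc (x : ℝ) y)) := by
    intro z hz
    obtain ⟨q, _, _, _, h⟩ := hd z (interior_subset hz)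
    exact h.differentiableAt.differentiableWithinAt
  constructor
  · refine Convex.mul_sub_le_image_sub_of_le_deriv (convex_Icc (x : ℝ) y) hcont hdiff ?_ x
      ⟨le_rfl, hxy'⟩ y ⟨hxy', le_rfl⟩ hxy'
    intro z hz
    obtain ⟨q, _, h1, _, h⟩ := hd z (interior_subset hz)
    rw [h.deriv, neg_le_neg_iff]
    refine Finset.sum_le_sum fun e he => ?_
    have := Pr_mono_param (hl e he) (incr_Dn _ _) h1
    linarith only [this]
  · refine Convex.image_sub_le_mul_sub_of_deriv_le (convex_Icc (x : ℝ) y) hcont hdiff ?_ x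
      ⟨le_rfl, hxy'⟩ y ⟨hxy', le_rfl⟩ hxy'
    intro z hz
    obtain ⟨q, _, _, h1, h⟩ := hd z (interior_subset hz)
    rw [h.deriv, neg_le_neg_iff]
    refine Finset.sum_le_sum fun e he => ?_
    have := Pr_mono_param (hl e he) (incr_Dn _ _) h1
    linarith only [this]

theorem kd_sum_upper (q : I) (n : ℕ) :
    ∑ e ∈ redges 0 ((n : ℤ) + 1 - 1) 0 ((n : ℤ) + 1 - 1),
      Pr q (Dn (rect 0 ((n : ℤ) + 1 - 1) 0 ((n : ℤ) + 1 - 1)) e) ≤ 2 * n * (n + 1) * tau q := by
  rw [← kd_card n, ← nsmul_eq_mul]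
  exact Finset.sum_le_card_nsmul _ _ _ fun e _ => Pr_Dn_le_tau q e _

theorem kd_sum_lower (q : I) {n m : ℕ} (hm : 1 ≤ m) (hn : 2 * m ≤ n) :
    2 * ((n : ℝ) + 1 - 2 * m) ^ 2 * tl m q ≤
    ∑ e ∈ redges 0 ((n : ℤ) + 1 - 1) 0 ((n : ℤ) + 1 - 1),
      Pr q (Dn (rect 0 ((n : ℤ) + 1 - 1) 0 ((n : ℤ) + 1 - 1)) e) := by
  set F := eRect (m : ℤ) ((n : ℤ) - m) m ((n : ℤ) - m) with hF
  have hsub : F ⊆ redges 0 ((n : ℤ) + 1 - 1) 0 ((n : ℤ) + 1 - 1) := by
    intro e he
    rw [hF, mem_eRect] at he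
    rw [mem_redges]
    obtain ⟨x, y, d⟩ := e
    cases d
    · simp only [src, tgt, rect, Set.mem_ofPred_eq, Bool.false_eq_true, if_false] at he ⊢
      omega
    · simp only [src, tgt, rect, Set.mem_ofPred_eq, if_true] at he ⊢
      omega
  have hcard : (F.card : ℝ) = 2 * ((n : ℝ) + 1 - 2 * m) ^ 2 := by
    rw [hF, eRect, Finset.card_product, Finset.card_product, Int.card_Icc, Finset.card_univ,
      Fintype.card_bool]
    have e1 : ((n : ℤ) - m + 1 - m).toNat = n + 1 - 2 * m := by omega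
    rw [e1]
    push_cast [Nat.cast_sub (show 2 * m ≤ n + 1 by omega)]
    ring
  rw [← hcard, ← nsmul_eq_mul]
  refine (Finset.card_nsmul_le_sum F _ _ fun e he => ?_).trans
    (Finset.sum_le_sum_of_subset_of_nonneg hsub fun e _ _ => Pr_nonneg)
  refine tl_le_Pr_Dn q e ?_
  intro w hw
  rw [hF, mem_eRect] at he
  rw [mem_ball] at hw
  simp only [rect, Set.mem_ofPred_eq] at he ⊢
  omega

/-- The increments of the cluster density. -/
theorem kap_diff {x y : I} (hxy : x ≤ y) :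
    -(2 * (1 - tau x)) * ((y : ℝ) - x) ≤ kap y - kap x ∧
      kap y - kap x ≤ -(2 * (1 - tau y)) * ((y : ℝ) - x) := by
  have hxy' : (0 : ℝ) ≤ (y : ℝ) - x := sub_nonneg.2 hxy
  have hlim : Tendsto (fun n : ℕ => (EK y 0 ((n : ℤ) + 1 - 1) 0 ((n : ℤ) + 1 - 1) -
      EK x 0 ((n : ℤ) + 1 - 1) 0 ((n : ℤ) + 1 - 1)) / ((n : ℝ) + 1) ^ 2) atTop
      (𝓝 (kap y - kap x)) := by
    have h1 := ((kap_tendsto y.2.1 y.2.2).sub (kap_tendsto x.2.1 x.2.2)).comp
      (tendsto_add_atTop_nat 1)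
    refine h1.congr fun n => ?_
    simp only [Function.comp]
    push_cast
    rw [sub_div]
  have hinv : Tendsto (fun n : ℕ => 1 / ((n : ℝ) + 1)) atTop (𝓝 0) :=
    tendsto_one_div_add_atTop_nhds_zero_nat
  constructor
  · -- lower bound
    have hm : ∀ m : ℕ, 1 ≤ m → -(2 * (1 - tl m x)) * ((y : ℝ) - x) ≤ kap y - kap x := by
      intro m hm
      have hl : Tendsto (fun n : ℕ => -(2 - 2 * (1 - 2 * m * (1 / ((n : ℝ) + 1))) ^ 2 * tl m x) *
          ((y : ℝ) - x)) atTop (𝓝 (-(2 - 2 * (1 - 2 * m * 0) ^ 2 * tl m x) * ((y : ℝ) - x))) := by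
        refine Tendsto.mul_const _ (Tendsto.neg (Tendsto.const_sub _ ?_))
        exact (((((hinv.const_mul _).const_sub _).pow 2).const_mul 2).mul_const _)
      rw [mul_zero, sub_zero, one_pow, mul_one] at hl
      have e1 : -(2 - 2 * tl m x) = -(2 * (1 - tl m x)) := by ring
      rw [e1] at hl
      refine le_of_tendsto_of_tendsto hl hlim ?_
      filter_upwards [eventually_ge_atTop (2 * m)] with n hn
      rw [le_div_iff₀ (by positivity)]
      refine le_trans ?_ (EK_diff 0 ((n : ℤ) + 1 - 1) 0 ((n : ℤ) + 1 - 1) hxy).1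
      have h2 : -(2 - 2 * (1 - 2 * m * (1 / ((n : ℝ) + 1))) ^ 2 * tl m x) * ((y : ℝ) - x) *
          ((n : ℝ) + 1) ^ 2 =
          -(2 * ((n : ℝ) + 1) ^ 2 - 2 * ((n : ℝ) + 1 - 2 * m) ^ 2 * tl m x) * ((y : ℝ) - x) := by
        field_simp
      rw [h2]
      refine mul_le_mul_of_nonneg_right ?_ hxy'
      rw [neg_le_neg_iff, Finset.sum_sub_distrib, Finset.sum_const, nsmul_eq_mul, mul_one, kd_card]
      have h3 := kd_sum_lower x hm hn
      have h4 : 2 * (n : ℝ) * (n + 1) ≤ 2 * ((n : ℝ) + 1) ^ 2 := by nlinarith only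
      linarith only [h3]
    have hl : Tendsto (fun m : ℕ => -(2 * (1 - tl m x)) * ((y : ℝ) - x)) atTop
        (𝓝 (-(2 * (1 - tau x)) * ((y : ℝ) - x))) :=
      ((((tl_tendsto x).const_sub 1).const_mul 2).neg).mul_const _
    exact le_of_tendsto hl ((eventually_ge_atTop 1).mono fun m h => hm m h)
  · -- upper bound
    have hl : Tendsto (fun n : ℕ => -(2 * (1 - 1 / ((n : ℝ) + 1)) * (1 - tau y)) * ((y : ℝ) - x))
        atTop (𝓝 (-(2 * (1 - 0) * (1 - tau y)) * ((y : ℝ) - x))) :=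
      (((((hinv.const_sub 1).const_mul 2).mul_const _).neg).mul_const _)
    rw [sub_zero, mul_one] at hl
    refine le_of_tendsto_of_tendsto hlim hl ?_
    filter_upwards with n
    rw [div_le_iff₀ (by positivity)]
    refine (EK_diff 0 ((n : ℤ) + 1 - 1) 0 ((n : ℤ) + 1 - 1) hxy).2.trans ?_
    have h2 : -(2 * (1 - 1 / ((n : ℝ) + 1)) * (1 - tau y)) * ((y : ℝ) - x) * ((n : ℝ) + 1) ^ 2 =
        -(2 * (n : ℝ) * (n + 1) * (1 - tau y)) * ((y : ℝ) - x) := by
      field_simp
      ring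
    rw [h2]
    refine mul_le_mul_of_nonneg_right ?_ hxy'
    rw [neg_le_neg_iff, Finset.sum_sub_distrib, Finset.sum_const, nsmul_eq_mul, mul_one, kd_card]
    have h3 := kd_sum_upper y n
    linarith only [h3]

/-- `κ' = -2 (1 - τ)`. -/
theorem kap_hasDerivAt {x : ℝ} (h1 : 1 / 4 < x) (h2 : x < 3 / 4) :
    HasDerivAt kap (-(2 * (1 - tauR x))) x := by
  have hx : x ∈ I := ⟨by linarith only [h1], by linarith only [h2]⟩
  have htau : tauR x = tau ⟨x, hx⟩ := by unfold tauR; rw [dif_pos hx]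
  have hd := (Pool.Agent.H29.Kap.main.2.1 x h1 h2).hasDerivAt
  have hs := hasDerivAt_iff_tendsto_slope.1 hd
  have hd' : deriv kap x = -(2 * (1 - tauR x)) := by
    apply le_antisymm
    · have h3 : Tendsto (slope kap x) (𝓝[<] x) (𝓝 (deriv kap x)) :=
        hs.mono_left (nhdsWithin_mono _ fun y hy => ne_of_lt hy)
      refine le_of_tendsto h3 ?_
      filter_upwards [Ioo_mem_nhdsLT h1] with y hy
      have hy' : y ∈ I := ⟨by linarith only [hy, hy.1], by linarith only [h2, hy, hy.2]⟩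
      have := (kap_diff (x := ⟨y, hy'⟩) (y := ⟨x, hx⟩) (show y ≤ x from hy.2.le)).2
      rw [slope_comm, slope_def_field, div_le_iff₀ (sub_pos.2 hy.2), htau]
      exact this
    · have h3 : Tendsto (slope kap x) (𝓝[>] x) (𝓝 (deriv kap x)) :=
        hs.mono_left (nhdsWithin_mono _ fun y hy => ne_of_gt hy)
      refine ge_of_tendsto h3 ?_
      filter_upwards [Ioo_mem_nhdsGT h2] with y hy
      have hy' : y ∈ I := ⟨by linarith only [h1, hy, hy.1], by linarith only [hy, hy.2]⟩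
      have := (kap_diff (x := ⟨x, hx⟩) (y := ⟨y, hy'⟩) (show x ≤ y from hy.1.le)).1
      rw [slope_def_field, le_div_iff₀ (sub_pos.2 hy.1), htau]
      exact this
  rw [← hd']
  exact hd

end Pool.Agent.H31.AL

end

section

/-!
# Pivotal edges of the connection event on the torus
-/

open MeasureTheory ProbabilityTheory unitInterval

namespace Pool.Agent.H90.AL

open Pool.Agent.H89.Perc Pool.Agent.H61.NC Pool.Agent.H31.AL

variable {N : ℕ} {d : Bool}

/-- Two crossing clusters of an annulus which separates `f` from the middle edge. -/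
theorem Piv.a2 {f : Edge} (hf : f ∈ tEdges N) {ω : Config} (h : Piv N d f ω) {c : Vert} {t R : ℕ}
    (ht : 1 ≤ t) (htR : t ≤ R) (hR : 2 * R < N)
    (hd : (dT N (src f) c + 1 ≤ t ∧ R + 1 < dT N (src (ctr N d)) c) ∨
      (dT N (src (ctr N d)) c + 1 ≤ t ∧ R + 1 < dT N (src f) c)) : ω ∈ A2T N c t R := by
  have hN1 : 1 ≤ N := by omega
  obtain ⟨-, h0⟩ := h.conn
  obtain ⟨⟨a, b, t1⟩, ⟨a', b', t2⟩⟩ := h.touch hf
  have hp := isPer_cfg N d (Function.update ω f false)
  -- the first endpoint of the near edge has a translate in `ball c (t - 1)`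
  have hnear : ∀ g : Edge, dT N (src g) c + 1 ≤ t → ∃ a b : ℤ,
      ((src g).1 - a * N, (src g).2 - b * N) ∈ ball c t ∧
      ((tgt g).1 - a * N, (tgt g).2 - b * N) ∈ ball c t := by
    intro g hg
    obtain ⟨a, b, hab⟩ := exists_of_dT_le (N := N) (u := src g) (v := c) (r := t - 1) (by omega)
    refine ⟨a, b, ?_, ?_⟩
    · rw [mem_ball] at hab ⊢
      simp only at hab ⊢
      omega
    · have h2 := abs_le.1 (tgt_near g).1
      have h3 := abs_le.1 (tgt_near g).2
      rw [mem_ball] at hab ⊢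
      simp only at hab ⊢
      omega
  -- the configuration in the annulus
  have hcf : ∀ g : Edge, src g ∈ Pool.Agent.H29.Sep.dom t R → tgt g ∈ Pool.Agent.H29.Sep.dom t R →
      cfg N d (Function.update ω f false) (shiftE c g) = per N ω (shiftE c g) := by
    intro g hg _
    have g1 : src (shiftE c g) ∈ ball c R := by
      have := hg.1
      simp only [mem_ball, src, shiftE, Prod.fst_zero, Prod.snd_zero] at this ⊢
      omega
    have g2 : src (shiftE c g) ∉ ball c (t - 1) := by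
      intro h'
      apply hg.2
      simp only [mem_ball, src, shiftE, Prod.fst_zero, Prod.snd_zero] at h' ⊢
      omega
    have g3 := modE_mem_SR' hN1 ht (by omega) g1 g2
    rw [mem_SR] at g3
    rw [cfg_update]
    rw [if_neg, if_neg]
    · rfl
    · intro h'
      rw [h'] at g3
      rcases hd with hd | hd <;> omega
    · intro h'
      rw [h'] at g3
      rcases hd with hd | hd <;> omega
  have main : (fun g => cfg N d (Function.update ω f false) (shiftE c g)) ∈
      Pool.Agent.H29.Sep.A2 t R := by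
    have epos : ∀ (a b : ℤ) (w : Vert) (x y : ℤ), ((w.1 + x * N - a * N, w.2 + y * N - b * N) : Vert) =
        (w.1 - (a - x) * N, w.2 - (b - y) * N) := by
      intro a b w x y
      ext <;> (simp only; ring)
    rcases hd with ⟨hd1, hd2⟩ | ⟨hd1, hd2⟩
    · -- `f` inside
      obtain ⟨k, l, hk1, hk2⟩ := hnear f hd1
      have hfar := far_ends hN1 hd2
      have ein : ∀ (x y : ℤ) (w : Vert), (w.1 - k * N, w.2 - l * N) ∈ ball c t →
          ((w.1 + x * N - (k + x) * N, w.2 + y * N - (l + y) * N) : Vert) ∈ ball c t := by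
        intro x y w hw
        have e : ((w.1 + x * N - (k + x) * N, w.2 + y * N - (l + y) * N) : Vert) =
            (w.1 - k * N, w.2 - l * N) := by
          ext <;> (simp only; ring)
        rw [e]
        exact hw
      have c1 : ∃ w : Vert, (w.1 - (k + a) * N, w.2 - (l + b) * N) ∈ ball c t ∧
          Conn (cfg N d (Function.update ω f false)) Set.univ (src (ctr N d)) w := by
        rcases t1 with t1 | t1
        · exact ⟨_, ein a b _ hk1, t1⟩
        · exact ⟨_, ein a b _ hk2, t1⟩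
      have c2 : ∃ w : Vert, (w.1 - (k + a') * N, w.2 - (l + b') * N) ∈ ball c t ∧
          Conn (cfg N d (Function.update ω f false)) Set.univ (tgt (ctr N d)) w := by
        rcases t2 with t2 | t2
        · exact ⟨_, ein a' b' _ hk1, t2⟩
        · exact ⟨_, ein a' b' _ hk2, t2⟩
      obtain ⟨w1, hw1, hc1⟩ := c1
      obtain ⟨w2, hw2, hc2⟩ := c2
      exact A2_of_cross hp ht htR h0 hw1 (hfar (k + a) (l + b)).1 hc1
        (Conn.refl (Set.mem_univ _)) hw2 (hfar (k + a') (l + b')).2 hc2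
        (Conn.refl (Set.mem_univ _))
    · -- the middle edge inside
      obtain ⟨k, l, hk1, hk2⟩ := hnear (ctr N d) hd1
      have hfar := far_ends hN1 hd2
      have c1 : ∃ w : Vert, (w.1 - k * N, w.2 - l * N) ∉ ball c R ∧
          Conn (cfg N d (Function.update ω f false)) Set.univ (src (ctr N d)) w := by
        rcases t1 with t1 | t1
        · refine ⟨_, ?_, t1⟩
          simp only
          rw [epos]
          exact (hfar (k - a) (l - b)).1
        · refine ⟨_, ?_, t1⟩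
          simp only
          rw [epos]
          exact (hfar (k - a) (l - b)).2
      have c2 : ∃ w : Vert, (w.1 - k * N, w.2 - l * N) ∉ ball c R ∧
          Conn (cfg N d (Function.update ω f false)) Set.univ (tgt (ctr N d)) w := by
        rcases t2 with t2 | t2
        · refine ⟨_, ?_, t2⟩
          simp only
          rw [epos]
          exact (hfar (k - a') (l - b')).1
        · refine ⟨_, ?_, t2⟩
          simp only
          rw [epos]
          exact (hfar (k - a') (l - b')).2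
      obtain ⟨w1, hw1, hc1⟩ := c1
      obtain ⟨w2, hw2, hc2⟩ := c2
      exact A2_of_cross hp ht htR h0 hk1 hw1 (Conn.refl (Set.mem_univ _)) hc1 hk2 hw2
        (Conn.refl (Set.mem_univ _)) hc2
  exact A2_congr hcf main

end Pool.Agent.H90.AL

end

section

/-!
# Joint influences of two edges on the connection event
-/

open MeasureTheory ProbabilityTheory unitInterval

namespace Pool.Agent.H90.AL

open Pool.Agent.H89.Perc Pool.Agent.H61.NC Pool.Agent.H31.AL Pool.Agent.H29.Sep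

variable {N : ℕ} {d : Bool} {J : Set Config} {u v w : Edge}

/-- The two edges are close, the middle edge is far. -/
theorem role_one (hN : 1 ≤ N) {f g : Edge} (hf : f ∈ tEdges N) (hg : g ∈ tEdges N) (hfg : f ≠ g)
    (hi : Incr (DT N d)) : Role N (Joint (DT N d) f g) f g (ctr N d) where
  near r hr hrN h1 h2 h3 := by
    intro ω hω
    obtain ⟨⟨b, hb⟩, ⟨b', hb'⟩⟩ := joint_piv hi hfg hω
    refine ⟨a4_update hN (g := g) (b := b) ?_ (hb.a4_self hf hr hrN ?_),
      a4_update hN (g := f) (b := b') ?_ (hb'.a4_self hg hr hrN ?_)⟩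
    · rw [dT_comm hN]; omega
    · rw [dT_comm hN]; omega
    · omega
    · rw [dT_comm hN]; omega
  far r hr hrN h1 h2 := by
    intro ω hω
    obtain ⟨⟨b, hb⟩, -⟩ := joint_piv hi hfg hω
    exact a4_update hN (g := g) (b := b) (by omega) (hb.a4_ctr hf hr hrN (by omega))
  ann t R ht htR hR h1 h2 := by
    intro ω hω
    obtain ⟨⟨b, hb⟩, -⟩ := joint_piv hi hfg hω
    refine a2_update hN (g := g) (b := b) ht (by omega) (Or.inl ?_) (hb.a2 hf ht htR hR (Or.inl ?_))
    · rw [dT_comm hN]; omega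
    · rw [dT_self, dT_comm hN (src (ctr N d))]
      omega

/-- The edge `f` is close to the middle edge, the edge `g` is far. -/
theorem role_two (hN : 1 ≤ N) {f g : Edge} (hf : f ∈ tEdges N) (hg : g ∈ tEdges N) (hfg : f ≠ g)
    (hi : Incr (DT N d)) : Role N (Joint (DT N d) f g) (ctr N d) f g where
  near r hr hrN h1 h2 h3 := by
    intro ω hω
    obtain ⟨⟨b, hb⟩, -⟩ := joint_piv hi hfg hω
    refine ⟨a4_update hN (g := g) (b := b) ?_ (hb.a4_ctr hf hr hrN ?_),
      a4_update hN (g := g) (b := b) ?_ (hb.a4_self hf hr hrN ?_)⟩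
    · rw [dT_comm hN]; omega
    · rw [dT_comm hN]; omega
    · rw [dT_comm hN]; omega
    · omega
  far r hr hrN h1 h2 := by
    intro ω hω
    obtain ⟨-, ⟨b, hb⟩⟩ := joint_piv hi hfg hω
    exact a4_update hN (g := f) (b := b) (by omega) (hb.a4_self hg hr hrN (by omega))
  ann t R ht htR hR h1 h2 := by
    intro ω hω
    obtain ⟨-, ⟨b, hb⟩⟩ := joint_piv hi hfg hω
    refine a2_update hN (g := f) (b := b) ht (by omega) (Or.inl ?_) (hb.a2 hg ht htR hR (Or.inr ?_))
    · rw [dT_comm hN]; omega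
    · rw [dT_self, dT_comm hN (src g)]
      omega

/-- The edge `g` is close to the middle edge, the edge `f` is far. -/
theorem role_three (hN : 1 ≤ N) {f g : Edge} (hf : f ∈ tEdges N) (hg : g ∈ tEdges N) (hfg : f ≠ g)
    (hi : Incr (DT N d)) : Role N (Joint (DT N d) f g) (ctr N d) g f where
  near r hr hrN h1 h2 h3 := by
    intro ω hω
    obtain ⟨-, ⟨b, hb⟩⟩ := joint_piv hi hfg hω
    refine ⟨a4_update hN (g := f) (b := b) ?_ (hb.a4_ctr hg hr hrN ?_),
      a4_update hN (g := f) (b := b) ?_ (hb.a4_self hg hr hrN ?_)⟩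
    · rw [dT_comm hN]; omega
    · rw [dT_comm hN]; omega
    · rw [dT_comm hN]; omega
    · omega
  far r hr hrN h1 h2 := by
    intro ω hω
    obtain ⟨⟨b, hb⟩, -⟩ := joint_piv hi hfg hω
    exact a4_update hN (g := g) (b := b) (by omega) (hb.a4_self hf hr hrN (by omega))
  ann t R ht htR hR h1 h2 := by
    intro ω hω
    obtain ⟨⟨b, hb⟩, -⟩ := joint_piv hi hfg hω
    refine a2_update hN (g := g) (b := b) ht (by omega) (Or.inl ?_) (hb.a2 hf ht htR hR (Or.inr ?_))
    · rw [dT_comm hN]; omega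
    · rw [dT_self, dT_comm hN (src f)]
      omega

/-! ### Probabilities -/

end Pool.Agent.H90.AL

end

section

/-!
# Second derivative of the connection probability on the torus
-/

open MeasureTheory ProbabilityTheory unitInterval

namespace Pool.Agent.H31.AL

open Pool.Agent.H89.Perc Pool.Agent.H61.NC Pool.Agent.H29.Sep Pool.Agent.H90.AL

theorem Dn_sub (e : Edge) {r : ℕ} (hr : 1 ≤ r) : Dn Set.univ e ⊆ B0 e r ∪ A4 e r := by
  intro ω hω
  by_cases h0 : ω ∈ B0 e r
  · exact Or.inl h0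
  right
  refine ⟨reach_sphere hω self_mem_ball h0, ?_, h0⟩
  exact reach_sphere (Conn.symm hω) (tgt_mem_ball e hr) fun h => h0 h.symm

theorem B0_sub (e : Edge) (r : ℕ) : B0 e r ⊆ Dn Set.univ e :=
  fun _ h => h.mono_set (Set.subset_univ _)

/-- Comparison with the plane. -/
theorem tauT_near (q : I) {N r : ℕ} (hr : 1 ≤ r) (hN : 2 * r + 2 ≤ N) :
    |tauT N q - tau q| ≤ a4 q r := by
  have hN1 : 1 ≤ N := by omega
  have e1 : Pr q {ω | per N ω ∈ B0 (ctr N false) r} = Pr q (B0 (0, 0, false) r) := by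
    rw [Pr_per (localOn_B0 (ctr N false) r) (by omega) (by omega)]
    exact Pr_B0 q (mid N, mid N) false r
  have h1 : Pr q {ω | per N ω ∈ B0 (ctr N false) r} ≤ tauT N q := Pr_mono (B0T_sub false hN)
  have h2 : tauT N q ≤ Pr q {ω | per N ω ∈ B0 (ctr N false) r} + a4 q r := by
    rw [← Pr_A4T q (ctr_mem' hN1 false) (by omega : 2 * r < N)]
    exact (Pr_mono (DT_sub false hr hN)).trans Pr_union_le
  have h3 : Pr q (B0 (0, 0, false) r) ≤ tau q := Pr_mono (B0_sub _ r)
  have h4 : tau q ≤ Pr q (B0 (0, 0, false) r) + a4 q r :=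
    (Pr_mono (Dn_sub _ hr)).trans Pr_union_le
  rw [abs_le]
  constructor <;> linarith only [e1, h1, h4, h2, h3]

/-- The sum of the joint influences. -/
theorem second_DT (hQM : QMann) : ∀ c A s : ℝ, 0 < c → 0 < A → 1 < s → s < 4 / 3 →
    ∃ C : ℝ, 0 < C ∧ ∀ (N : ℕ) (q : I), 1 ≤ N → 1 / 4 ≤ (q : ℝ) → (q : ℝ) ≤ 3 / 4 →
      RSWreg c (64 * N) q → (∀ t : ℕ, 1 ≤ t → t ≤ N → a4 q t ≤ A * (t : ℝ) ^ (-s)) →
      ∑ f ∈ tEdges N, ∑ g ∈ (tEdges N).erase f, Pr q (Joint (DT N false) f g) ≤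
        C * (N : ℝ) ^ (4 - 3 * s) := by
  classical
  intro c A s hc hA hs1 hs2
  have hs0 : 0 < s := by linarith only [hs1, hs2]
  obtain ⟨C, hC, hest⟩ := estimate hQM c A s hc hA hs0
  obtain ⟨K, hK⟩ : ∃ K : ℝ, K = C * ((2 : ℝ) ^ s * (2 : ℝ) ^ s) := ⟨_, rfl⟩
  have hK0 : 0 < K := by rw [hK]; positivity
  obtain ⟨M, hM⟩ : ∃ M : ℝ, M = 512 / ((2 - s) * (4 - 3 * s)) := ⟨_, rfl⟩
  have hM0 : 0 < M := by
    rw [hM]
    have : 0 < 2 - s := by linarith only [hs1, hs2]
    have : 0 < 4 - 3 * s := by linarith only [hs2]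
    positivity
  refine ⟨K * (3 * M), by positivity, ?_⟩
  intro N q hN hq1 hq2 hR ha
  have hcm := ctr_mem' hN false
  obtain ⟨e, he⟩ : ∃ e : Edge, e = ctr N false := ⟨_, rfl⟩
  have hi := incr_DT N false
  -- termwise
  have hterm : ∀ f ∈ tEdges N, ∀ g ∈ (tEdges N).erase f, Pr q (Joint (DT N false) f g) ≤
      K * (G s (dT N (src f) (src e)) (dT N (src g) (src e)) +
        G s (dT N (src g) (src e)) (dT N (src f) (src e)) +
        G s (dT N (src g) (src f)) (dT N (src f) (src e))) := by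
    intro f hf g hg
    have hgm : g ∈ tEdges N := Finset.mem_of_mem_erase hg
    have hfg : f ≠ g := fun h => Finset.ne_of_mem_erase hg h.symm
    obtain ⟨x, hx⟩ : ∃ x, x = dT N (src f) (src e) := ⟨_, rfl⟩
    obtain ⟨y, hy⟩ : ∃ y, y = dT N (src g) (src e) := ⟨_, rfl⟩
    obtain ⟨z, hz⟩ : ∃ z, z = dT N (src g) (src f) := ⟨_, rfl⟩
    have t1 := dT_tri hN (src f) (src g) (src e)
    have t2 := dT_tri hN (src g) (src f) (src e)
    have t3 := dT_tri hN (src g) (src e) (src f)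
    have c1 := dT_comm hN (src f) (src g)
    have c2 := dT_comm hN (src e) (src f)
    have c3 := dT_comm hN (src e) (src g)
    have g1 := G_nonneg s x y
    have g2 := G_nonneg s y x
    have g3 := G_nonneg s z x
    rw [← hx, ← hy, ← hz]
    rw [mul_add, mul_add]
    have k1 := mul_nonneg hK0.le g1
    have k2 := mul_nonneg hK0.le g2
    have k3 := mul_nonneg hK0.le g3
    have hcase : (x ≤ y ∧ x ≤ z) ∨ (y ≤ x ∧ y ≤ z) ∨ (z ≤ x ∧ z ≤ y) := by omega
    rcases hcase with ⟨m1, m2⟩ | ⟨m1, m2⟩ | ⟨m1, m2⟩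
    · have h1 := hest N q (Joint (DT N false) f g) (ctr N false) f g x (min y z) hN hq1 hq2 hR ha
        hcm hf hgm (role_two hN hf hgm hfg hi) (by rw [← he]; omega) (by omega)
        (by rw [← he]; omega) (by omega)
      have h2 := G_bound hC hs0.le (d₁ := x) (d₂ := min y z) (y := y) m1 (by omega) h1
      rw [← hK] at h2
      linarith only [k2, k3, h2]
    · have h1 := hest N q (Joint (DT N false) f g) (ctr N false) g f y (min x z) hN hq1 hq2 hR ha
        hcm hgm hf (role_three hN hf hgm hfg hi) (by rw [← he]; omega) (by omega)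
        (by rw [← he]; omega) (by omega)
      have h2 := G_bound hC hs0.le (d₁ := y) (d₂ := min x z) (y := x) m1 (by omega) h1
      rw [← hK] at h2
      linarith only [k1, k3, h2]
    · have h1 := hest N q (Joint (DT N false) f g) f g (ctr N false) z (min x y) hN hq1 hq2 hR ha
        hf hgm hcm (role_one hN hf hgm hfg hi) (by omega) (by omega)
        (by rw [← he]; omega) (by rw [← he]; omega)
      have h2 := G_bound hC hs0.le (d₁ := z) (d₂ := min x y) (y := x) m1 (by omega) h1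
      rw [← hK] at h2
      linarith only [k1, k2, h2]
  -- the three sums
  have hG := sum_G hs1 hs2 hN
  rw [← hM] at hG
  have hin : ∀ (c' : Vert) (y : ℕ), ∑ g ∈ tEdges N, G s (dT N (src g) c') y ≤
      ∑ x ∈ Finset.range (N + 1), 16 * ((x : ℝ) + 1) * G s x y :=
    fun c' y => sum_by_dT hN c' (fun x => G s x y) fun x => G_nonneg s x y
  have hout : ∑ f ∈ tEdges N, ∑ x ∈ Finset.range (N + 1), 16 * ((x : ℝ) + 1) *
      G s x (dT N (src f) (src e)) ≤ M * (N : ℝ) ^ (4 - 3 * s) := by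
    refine le_trans (sum_by_dT hN (src e)
      (fun y => ∑ x ∈ Finset.range (N + 1), 16 * ((x : ℝ) + 1) * G s x y) fun y => ?_) hG
    exact Finset.sum_nonneg fun x _ => mul_nonneg (by positivity) (G_nonneg s x y)
  have s1 : ∑ f ∈ tEdges N, ∑ g ∈ tEdges N,
      G s (dT N (src f) (src e)) (dT N (src g) (src e)) ≤ M * (N : ℝ) ^ (4 - 3 * s) := by
    rw [Finset.sum_comm]
    exact (Finset.sum_le_sum fun g _ => hin (src e) _).trans hout
  have s2 : ∑ f ∈ tEdges N, ∑ g ∈ tEdges N,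
      G s (dT N (src g) (src e)) (dT N (src f) (src e)) ≤ M * (N : ℝ) ^ (4 - 3 * s) :=
    (Finset.sum_le_sum fun f _ => hin (src e) _).trans hout
  have s3 : ∑ f ∈ tEdges N, ∑ g ∈ tEdges N,
      G s (dT N (src g) (src f)) (dT N (src f) (src e)) ≤ M * (N : ℝ) ^ (4 - 3 * s) :=
    (Finset.sum_le_sum fun f _ => hin (src f) _).trans hout
  calc ∑ f ∈ tEdges N, ∑ g ∈ (tEdges N).erase f, Pr q (Joint (DT N false) f g)
      ≤ ∑ f ∈ tEdges N, ∑ g ∈ tEdges N,
        K * (G s (dT N (src f) (src e)) (dT N (src g) (src e)) +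
          G s (dT N (src g) (src e)) (dT N (src f) (src e)) +
          G s (dT N (src g) (src f)) (dT N (src f) (src e))) := by
        refine Finset.sum_le_sum fun f hf => ?_
        refine (Finset.sum_le_sum fun g hg => hterm f hf g hg).trans ?_
        refine Finset.sum_le_sum_of_subset_of_nonneg (Finset.erase_subset _ _) fun g _ _ => ?_
        have g1 := G_nonneg s (dT N (src f) (src e)) (dT N (src g) (src e))
        have g2 := G_nonneg s (dT N (src g) (src e)) (dT N (src f) (src e))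
        have g3 := G_nonneg s (dT N (src g) (src f)) (dT N (src f) (src e))
        exact mul_nonneg hK0.le (by linarith only [g1, g2, g3])
    _ = K * (∑ f ∈ tEdges N, ∑ g ∈ tEdges N, G s (dT N (src f) (src e)) (dT N (src g) (src e)) +
        ∑ f ∈ tEdges N, ∑ g ∈ tEdges N, G s (dT N (src g) (src e)) (dT N (src f) (src e)) +
        ∑ f ∈ tEdges N, ∑ g ∈ tEdges N, G s (dT N (src g) (src f)) (dT N (src f) (src e))) := by
        rw [← Finset.sum_add_distrib, ← Finset.sum_add_distrib, Finset.mul_sum]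
        refine Finset.sum_congr rfl fun f _ => ?_
        rw [← Finset.sum_add_distrib, ← Finset.sum_add_distrib, Finset.mul_sum]
    _ ≤ K * (3 * M) * (N : ℝ) ^ (4 - 3 * s) := by
        rw [mul_assoc]
        refine mul_le_mul_of_nonneg_left ?_ hK0.le
        linarith only [s1, s2, s3]

end Pool.Agent.H31.AL

end
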