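import Pool.Agent.H94.BG.H31.PT.M01

/-! The parts of this file: H89.Perc.FinalAnalysis, H15.Exact.Form, H66.OneArm.Defs, H66.OneArm.Ode, H66.OneArm.MaxPrin, H66.OneArm.Ratio, H66.OneArm.RatioMain, H66.OneArm.QuasiA, H66.OneArm.QuasiB, H66.OneArm.Convex, H66.OneArm.LowerA, H66.OneArm.Eigen, H66.OneArm.Trace, H66.OneArm.Spectral, H66.OneArm.Squeeze. -/

section

/-!
# The real analysis behind the lower bound for the percolation probability
-/

open Filter Topology

namespace Pool.Agent.H89.Perc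

/-- The inputs: `a = ` one-arm probabilities at `1/2 + h`, `b = ` at `1/2`, `d = ` at `1/2 - h`. -/
structure FinalHyp (ce Cd cd h θ : ℝ) (a b d : ℕ → ℝ) : Prop where
  ce0 : 0 < ce
  Cd0 : 0 < Cd
  cd0 : 0 < cd
  h0 : 0 < h
  h1 : h ≤ 1 / 4
  a_anti : Antitone a
  a_le_one : ∀ k, a k ≤ 1
  b_nonneg : ∀ k, 0 ≤ b k
  b_le_a : ∀ k, b k ≤ a k
  d_nonneg : ∀ k, 0 ≤ d k
  d_le_one : ∀ k, d k ≤ 1
  b_low : ∀ r : ℕ, 1 ≤ r → ce * Real.sqrt (1 / r) ≤ b r
  a_ext : ∀ k R : ℕ, 1 ≤ k → k ≤ R → ce * Real.sqrt (k / R) * a k ≤ a R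
  b_ext : ∀ k R : ℕ, 1 ≤ k → k ≤ R → ce * Real.sqrt (k / R) * b k ≤ b R
  b_dec : ∀ r : ℕ, 1 ≤ r → b r ≤ Cd * (r : ℝ) ^ (-cd)
  thr : ∀ r : ℕ, 1 ≤ r → (b r / (8 * r)) ^ 4 * (d r / (8 * r)) ^ 4 ≤
    Real.exp (-2 * h * r / (5 * ∑ k ∈ Finset.range (4 * r), a k * b k))
  sl : ∀ s n : ℕ, s < n → d n ≤ (8 * s + 4) * d s * d (n - s - 1)
  sub : ∀ R M : ℕ, 1 ≤ R → 2 * R < M → a (2 * R) ≤ a M + ∑ j ∈ Finset.range M, d (max j R)
  lim : Tendsto a atTop (𝓝 θ)

namespace FinalHyp

variable {ce Cd cd h θ : ℝ} {a b d : ℕ → ℝ}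

end FinalHyp

end Pool.Agent.H89.Perc

end

section

/-!
# Project EXACT, one-arm formula: the form of a pair of patterns with a marked gap

The marked gap lies between strand `-1` and strand `0`.
-/

set_option autoImplicit false

open Finset

namespace Pool.Agent.H15.Exact

variable {L : ℕ}

end Pool.Agent.H15.Exact

end

section

/-!
# The Pascal matrix and the commuting tridiagonal matrix
-/

open Matrix

namespace Pool.Agent.H66.OneArm

/-- The off-diagonal entries of the commuting tridiagonal matrix. -/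
def offd (n : ℕ) (i : ℕ) : ℝ := ((i : ℝ) + 1) * ((n : ℝ) ^ 2 - ((i : ℝ) + 1) ^ 2)

/-- The diagonal entries of the commuting tridiagonal matrix. -/
def diag (n : ℕ) (i : ℕ) : ℝ := 2 * (i : ℝ) ^ 3 + 3 * (i : ℝ) ^ 2 + 2 * (i : ℝ) - (n : ℝ) ^ 2 * (i : ℝ)

/-- The commuting tridiagonal matrix. -/
def trid (n : ℕ) : Matrix (Fin n) (Fin n) ℝ := fun i j =>
  if (i : ℕ) = j then diag n i else if (j : ℕ) = i + 1 then offd n i
    else if (i : ℕ) = j + 1 then offd n j else 0

/-- The extension by zero of a vector. -/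
def ext {n : ℕ} (v : Fin n → ℝ) (i : ℕ) : ℝ := if h : i < n then v ⟨i, h⟩ else 0

lemma ext_of_lt {n : ℕ} (v : Fin n → ℝ) {i : ℕ} (h : i < n) : ext v i = v ⟨i, h⟩ := by
  simp [ext, h]

lemma ext_of_le {n : ℕ} (v : Fin n → ℝ) {i : ℕ} (h : n ≤ i) : ext v i = 0 := by
  simp [ext, not_lt.mpr h]

@[simp] lemma ext_val {n : ℕ} (v : Fin n → ℝ) (i : Fin n) : ext v i = v i := by
  simp [ext]

/-- The action of the tridiagonal matrix. -/
lemma trid_mulVec {n : ℕ} (v : Fin n → ℝ) (i : Fin n) :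
    (trid n *ᵥ v) i = (if (i : ℕ) = 0 then 0 else offd n (i - 1) * ext v (i - 1)) +
      diag n i * v i + offd n i * ext v (i + 1) := by
  have hsum : (trid n *ᵥ v) i = ∑ j ∈ Finset.range n, (if (i : ℕ) = j then diag n i else
      if (j : ℕ) = i + 1 then offd n i else if (i : ℕ) = j + 1 then offd n j else 0) * ext v j := by
    rw [← Fin.sum_univ_eq_sum_range (fun j => (if (i : ℕ) = j then diag n i else
      if (j : ℕ) = i + 1 then offd n i else if (i : ℕ) = j + 1 then offd n j else 0) * ext v j) n]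
    simp only [mulVec, dotProduct, trid, ext_val]
  have hi := i.2
  rw [hsum]
  have hsplit : ∀ j ∈ Finset.range n, (if (i : ℕ) = j then diag n i else
      if (j : ℕ) = i + 1 then offd n i else if (i : ℕ) = j + 1 then offd n j else 0) * ext v j =
      (if (i : ℕ) = j then diag n i * ext v i else 0) +
      (if (i : ℕ) + 1 = j then offd n i * ext v (i + 1) else 0) +
      (if (i : ℕ) - 1 = j then (if (i : ℕ) = 0 then 0 else offd n (i - 1) * ext v (i - 1)) else 0) := by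
    intro j _
    rcases Nat.lt_trichotomy (i : ℕ) j with h | h | h
    · by_cases h1 : (i : ℕ) + 1 = j
      · rw [if_neg h.ne, if_pos h1.symm, if_neg h.ne, if_pos h1, if_neg (by omega), ← h1]
        ring
      · rw [if_neg h.ne, if_neg (by omega), if_neg (by omega), if_neg h.ne, if_neg h1,
          if_neg (by omega)]
        ring
    · rw [if_pos h, if_pos h, if_neg (by omega), ← h]
      by_cases h0 : (i : ℕ) = 0
      · rw [if_pos (by omega), if_pos h0]
        ring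
      · rw [if_neg (by omega)]
        ring
    · by_cases h1 : (i : ℕ) = j + 1
      · rw [if_neg h.ne', if_neg (by omega), if_pos h1, if_neg h.ne', if_neg (by omega),
          if_pos (by omega), if_neg (by omega)]
        have : (i : ℕ) - 1 = j := by omega
        rw [this]
        ring
      · rw [if_neg h.ne', if_neg (by omega), if_neg h1, if_neg h.ne', if_neg (by omega),
          if_neg (by omega)]
        ring
  have hm1 : (i : ℕ) - 1 ∈ Finset.range n := Finset.mem_range.mpr (by omega)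
  rw [Finset.sum_congr rfl hsplit, Finset.sum_add_distrib, Finset.sum_add_distrib,
    Finset.sum_ite_eq, Finset.sum_ite_eq, Finset.sum_ite_eq, if_pos (Finset.mem_range.mpr hi),
    if_pos hm1, ext_val]
  by_cases hlast : (i : ℕ) + 1 < n
  · rw [if_pos (Finset.mem_range.mpr hlast)]
    ring
  · have h1 : (i : ℕ) + 1 ∉ Finset.range n := by simpa using hlast
    rw [if_neg h1, ext_of_le v (not_lt.mp hlast)]
    ring

end Pool.Agent.H66.OneArm

end

section

/-!
# The differential equation of the eigenvectors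
-/

open Matrix Finset

namespace Pool.Agent.H66.OneArm

variable {n : ℕ}

end Pool.Agent.H66.OneArm

end

section

/-!
# A maximum principle on the unit interval
-/

open Set Filter Topology

namespace Pool.Agent.H66.OneArm

end Pool.Agent.H66.OneArm

end

section

/-!
# The eigenvalues of the Pascal matrix in terms of those of the tridiagonal matrix
-/

open Matrix Finset Real Set

namespace Pool.Agent.H66.OneArm

variable {n : ℕ}

end Pool.Agent.H66.OneArm

end

section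

/-!
# The eigenvalues of the Pascal matrix in terms of those of the tridiagonal matrix, main result
-/

open Matrix Finset Real Set

namespace Pool.Agent.H66.OneArm

end Pool.Agent.H66.OneArm

end

section

/-!
# The phases of the quasi-modes
-/

open Matrix Finset Real

namespace Pool.Agent.H66.OneArm

/-- Off-diagonal entries (divided by `n ^ 2`). -/
noncomputable def gg (n : ℕ) (b : ℝ) : ℝ := b * (1 - b ^ 2 / (n : ℝ) ^ 2)

/-- Minus the diagonal entries. -/
noncomputable def bet (n : ℕ) (b : ℝ) : ℝ := b - 2 * b ^ 3 / (n : ℝ) ^ 2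

noncomputable def kap (n : ℕ) (b : ℝ) : ℝ := b * √(3 - 4 * (b ^ 2 / (n : ℝ) ^ 2))

/-- The local phase factor. -/
noncomputable def phase (n : ℕ) (b : ℝ) : ℂ := ⟨bet n b / (2 * gg n b), kap n b / (2 * gg n b)⟩

/-- The phases. -/
noncomputable def cc (n : ℕ) (j : ℕ) : ℂ := ∏ b ∈ range j, phase n ((b : ℝ) + 1)

lemma cc_succ (n j : ℕ) : cc n (j + 1) = cc n j * phase n ((j : ℝ) + 1) := by
  unfold cc
  rw [prod_range_succ]

lemma sq_div_le {n : ℕ} {b : ℝ} (hb : 0 ≤ b) (hbn : b ≤ n / 2) : b ^ 2 / (n : ℝ) ^ 2 ≤ 1 / 4 := by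
  rcases Nat.eq_zero_or_pos n with h | h
  · subst h
    simp
  · have hn : (0 : ℝ) < n := by exact_mod_cast h
    rw [div_le_iff₀ (by positivity)]
    nlinarith only [hbn, hb]

lemma gg_pos {n : ℕ} {b : ℝ} (hb : 0 < b) (hbn : b ≤ n / 2) : 0 < gg n b := by
  unfold gg
  have := sq_div_le hb.le hbn
  exact mul_pos hb (by linarith only [this])

lemma bet_sq_add_kap_sq {n : ℕ} {b : ℝ} (hb : 0 ≤ b) (hbn : b ≤ n / 2) :
    bet n b ^ 2 + kap n b ^ 2 = (2 * gg n b) ^ 2 := by
  have h := sq_div_le hb hbn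
  unfold bet kap gg
  rw [mul_pow b, Real.sq_sqrt (by linarith only [h])]
  ring

lemma normSq_phase {n : ℕ} {b : ℝ} (hb : 0 < b) (hbn : b ≤ n / 2) :
    Complex.normSq (phase n b) = 1 := by
  have hg := gg_pos hb hbn
  rw [Complex.normSq_apply]
  unfold phase
  simp only
  have h := bet_sq_add_kap_sq hb.le hbn
  field_simp
  linarith only [h]

lemma normSq_cc {n j : ℕ} (h : (j : ℝ) ≤ n / 2) : Complex.normSq (cc n j) = 1 := by
  induction j with
  | zero => simp [cc]
  | succ j ih =>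
    push_cast at h
    rw [cc_succ, map_mul, ih (by linarith), normSq_phase (by positivity) h, one_mul]

/-- `g(j+1) c_(j+1) = (β + i κ)/2 c_j`. -/
lemma gg_mul_cc_succ {n j : ℕ} (h : (j : ℝ) + 1 ≤ n / 2) :
    (gg n ((j : ℝ) + 1) : ℂ) * cc n (j + 1) =
      cc n j * ⟨bet n ((j : ℝ) + 1) / 2, kap n ((j : ℝ) + 1) / 2⟩ := by
  have hg := gg_pos (n := n) (b := (j : ℝ) + 1) (by positivity) h
  have e : (gg n ((j : ℝ) + 1) : ℂ) * phase n ((j : ℝ) + 1) =
      ⟨bet n ((j : ℝ) + 1) / 2, kap n ((j : ℝ) + 1) / 2⟩ := by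
    unfold phase
    apply Complex.ext
    · simp only [Complex.mul_re, Complex.ofReal_re, Complex.ofReal_im, zero_mul, sub_zero]
      field_simp
    · simp only [Complex.mul_im, Complex.ofReal_re, Complex.ofReal_im, zero_mul, add_zero]
      field_simp
  rw [cc_succ, ← e]
  ring

/-- `g(j+1) c_j = (β - i κ)/2 c_(j+1)`. -/
lemma gg_mul_cc {n j : ℕ} (h : (j : ℝ) + 1 ≤ n / 2) :
    (gg n ((j : ℝ) + 1) : ℂ) * cc n j =
      cc n (j + 1) * ⟨bet n ((j : ℝ) + 1) / 2, -(kap n ((j : ℝ) + 1) / 2)⟩ := by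
  have hg := gg_pos (n := n) (b := (j : ℝ) + 1) (by positivity) h
  have e : phase n ((j : ℝ) + 1) * ⟨bet n ((j : ℝ) + 1) / 2, -(kap n ((j : ℝ) + 1) / 2)⟩ =
      (gg n ((j : ℝ) + 1) : ℂ) := by
    have h1 := bet_sq_add_kap_sq (n := n) (b := (j : ℝ) + 1) (by positivity) h
    unfold phase
    apply Complex.ext
    · simp only [Complex.mul_re, Complex.ofReal_re]
      field_simp
      linarith only [h1]
    · simp only [Complex.mul_im, Complex.ofReal_im]
      field_simp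
      ring
  rw [cc_succ, mul_assoc, e]
  ring

lemma offd_eq {n : ℕ} (hn : 1 ≤ n) (j : ℕ) : offd n j = (n : ℝ) ^ 2 * gg n ((j : ℝ) + 1) := by
  have : (n : ℝ) ≠ 0 := by positivity
  unfold offd gg
  field_simp

lemma diag_eq {n : ℕ} (hn : 1 ≤ n) (j : ℕ) : diag n j - (n : ℝ) ^ 2 * (1 / 2) = (n : ℝ) ^ 2 *
    (-bet n ((j : ℝ) + 1 / 2) + (((j : ℝ) + 1 / 2) / 2 - 1 / 2) / (n : ℝ) ^ 2) := by
  have : (n : ℝ) ≠ 0 := by positivity
  unfold diag bet
  field_simp
  ring

end Pool.Agent.H66.OneArm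

end

section

/-!
# Sums of `cos (γ log s) / s`
-/

open Finset Real Set

namespace Pool.Agent.H66.OneArm

/-- `cos (γ (log s - y)) / s`. -/
noncomputable def cs (γ y s : ℝ) : ℝ := cos (γ * (log s - y)) / s

/-- Its derivative. -/
noncomputable def cs' (γ y s : ℝ) : ℝ :=
  (-(sin (γ * (log s - y)) * γ) - cos (γ * (log s - y))) / s ^ 2

lemma hasDerivAt_cs (γ y : ℝ) {s : ℝ} (hs : 0 < s) : HasDerivAt (cs γ y) (cs' γ y s) s := by
  have h1 : HasDerivAt (fun s => γ * (log s - y)) (γ * s⁻¹) s :=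
    ((Real.hasDerivAt_log hs.ne').sub_const y).const_mul γ
  have h := h1.cos.div (hasDerivAt_id' s) hs.ne'
  refine h.congr_deriv ?_
  unfold cs'
  field_simp

lemma abs_cs'_le (γ y : ℝ) {s a : ℝ} (ha : 0 < a) (has : a ≤ s) : |cs' γ y s| ≤ (1 + |γ|) / a ^ 2 := by
  unfold cs'
  have hs : 0 < s := lt_of_lt_of_le ha has
  rw [abs_div, abs_of_pos (show 0 < s ^ 2 by positivity)]
  have h1 : |-(sin (γ * (log s - y)) * γ) - cos (γ * (log s - y))| ≤ 1 + |γ| := by
    refine (abs_sub _ _).trans ?_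
    rw [abs_neg, abs_mul]
    have h2 := abs_sin_le_one (γ * (log s - y))
    have h3 := abs_cos_le_one (γ * (log s - y))
    have h4 := mul_le_mul_of_nonneg_right h2 (abs_nonneg γ)
    linarith
  have h5 : 0 ≤ 1 + |γ| := by positivity
  exact div_le_div₀ h5 h1 (by positivity) (pow_le_pow_left₀ ha.le has 2)

lemma abs_cs_sub_le (γ y : ℝ) {s t a : ℝ} (ha : 0 < a) (has : a ≤ s) (hat : a ≤ t) :
    |cs γ y s - cs γ y t| ≤ (1 + |γ|) / a ^ 2 * |s - t| := by
  have h := (convex_Ici a).norm_image_sub_le_of_norm_hasDerivWithin_le (f := cs γ y)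
    (f' := cs' γ y) (C := (1 + |γ|) / a ^ 2)
    (fun u hu => (hasDerivAt_cs γ y (lt_of_lt_of_le ha hu)).hasDerivWithinAt)
    (fun u hu => by rw [Real.norm_eq_abs]; exact abs_cs'_le γ y ha hu) hat has
  simpa only [Real.norm_eq_abs] using h

lemma abs_cs_le (γ y : ℝ) {s : ℝ} (hs : 0 < s) : |cs γ y s| ≤ 1 / s := by
  unfold cs
  rw [abs_div, abs_of_pos hs]
  gcongr
  exact abs_cos_le_one _

lemma sum_inv_sq_le {N₀ N₁ : ℕ} (h0 : 1 ≤ N₀) (h : N₀ ≤ N₁) :
    ∑ j ∈ Finset.Ico N₀ N₁, 1 / (j : ℝ) ^ 2 ≤ 2 / (N₀ : ℝ) := by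
  have key : ∀ N₁ : ℕ, N₀ ≤ N₁ →
      ∑ j ∈ Finset.Ico N₀ N₁, 1 / (j : ℝ) ^ 2 ≤ 2 / (N₀ : ℝ) - 2 / (N₁ : ℝ) := by
    intro N₁ h
    induction N₁, h using Nat.le_induction with
    | base => simp
    | succ k hk ih =>
      rw [Finset.sum_Ico_succ_top hk]
      have hk0 : (0 : ℝ) < k := by
        have : 1 ≤ k := h0.trans hk
        exact_mod_cast this
      have h1 : 1 / (k : ℝ) ^ 2 ≤ 2 / (k : ℝ) - 2 / ((k + 1 : ℕ) : ℝ) := by
        push_cast
        rw [div_sub_div _ _ hk0.ne' (by positivity), div_le_div_iff₀ (by positivity) (by positivity)]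
        have : (1 : ℝ) ≤ k := by
          have : 1 ≤ k := h0.trans hk
          exact_mod_cast this
        nlinarith only [this, mul_pos hk0 hk0]
      linarith only [ih, h1]
  have h1 := key N₁ h
  have h2 : (0 : ℝ) ≤ 2 / (N₁ : ℝ) := by positivity
  linarith only [h1, h2]

/-- Comparison of the sum with the integral. -/
lemma sum_cs {Φ : ℝ → ℝ} {γ y : ℝ} (hΦ : ∀ s, 0 < s → HasDerivAt Φ (cs γ y s) s) {N₀ N₁ : ℕ}
    (h0 : 1 ≤ N₀) (h : N₀ ≤ N₁) :
    |∑ j ∈ Finset.Ico N₀ N₁, cs γ y ((j : ℝ) + 1 / 2) - (Φ N₁ - Φ N₀)| ≤ 2 * (1 + |γ|) / N₀ := by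
  have hstep : ∀ j : ℕ, 1 ≤ j →
      |cs γ y ((j : ℝ) + 1 / 2) - (Φ ((j : ℝ) + 1) - Φ j)| ≤ (1 + |γ|) * (1 / (j : ℝ) ^ 2) := by
    intro j hj
    have hj0 : (0 : ℝ) < j := by exact_mod_cast hj
    have h1 := (convex_Icc (j : ℝ) ((j : ℝ) + 1)).norm_image_sub_le_of_norm_hasDerivWithin_le
      (f := fun s => Φ s - cs γ y ((j : ℝ) + 1 / 2) * s)
      (f' := fun s => cs γ y s - cs γ y ((j : ℝ) + 1 / 2) * 1) (C := (1 + |γ|) / (j : ℝ) ^ 2)
      (fun u hu => ((hΦ u (lt_of_lt_of_le hj0 hu.1)).sub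
        ((hasDerivAt_id' u).const_mul _)).hasDerivWithinAt)
      (fun u hu => by
        rw [Real.norm_eq_abs, mul_one]
        refine (abs_cs_sub_le γ y hj0 hu.1 (by linarith only)).trans ?_
        have h2 : |u - ((j : ℝ) + 1 / 2)| ≤ 1 := by
          rw [abs_le]
          constructor <;> linarith only [hu, hu.1, hu.2]
        have h3 : 0 ≤ (1 + |γ|) / (j : ℝ) ^ 2 := by positivity
        nlinarith only [h2, h3])
      (x := (j : ℝ)) (y := (j : ℝ) + 1) ⟨le_rfl, by linarith only⟩ ⟨by linarith, le_rfl⟩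
    rw [Real.norm_eq_abs, Real.norm_eq_abs, add_sub_cancel_left, abs_one, mul_one] at h1
    have h4 : Φ ((j : ℝ) + 1) - cs γ y ((j : ℝ) + 1 / 2) * ((j : ℝ) + 1) -
        (Φ j - cs γ y ((j : ℝ) + 1 / 2) * j) =
        -(cs γ y ((j : ℝ) + 1 / 2) - (Φ ((j : ℝ) + 1) - Φ j)) := by ring
    rw [h4, abs_neg] at h1
    calc _ ≤ (1 + |γ|) / (j : ℝ) ^ 2 := h1
      _ = _ := by ring
  have htel : Φ N₁ - Φ N₀ = ∑ j ∈ Finset.Ico N₀ N₁, (Φ ((j : ℝ) + 1) - Φ j) := by
    rw [← Finset.sum_Ico_sub (fun j : ℕ => Φ j) h]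
    exact Finset.sum_congr rfl fun j _ => by push_cast; rfl
  rw [htel, ← Finset.sum_sub_distrib]
  refine (Finset.abs_sum_le_sum_abs _ _).trans ?_
  calc ∑ j ∈ Finset.Ico N₀ N₁, |cs γ y ((j : ℝ) + 1 / 2) - (Φ ((j : ℝ) + 1) - Φ j)|
      ≤ ∑ j ∈ Finset.Ico N₀ N₁, (1 + |γ|) * (1 / (j : ℝ) ^ 2) :=
        Finset.sum_le_sum fun j hj => hstep j (h0.trans (Finset.mem_Ico.mp hj).1)
    _ = (1 + |γ|) * ∑ j ∈ Finset.Ico N₀ N₁, 1 / (j : ℝ) ^ 2 := by rw [Finset.mul_sum]
    _ ≤ (1 + |γ|) * (2 / N₀) := mul_le_mul_of_nonneg_left (sum_inv_sq_le h0 h) (by positivity)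
    _ = 2 * (1 + |γ|) / N₀ := by ring

/-- Frequency zero. -/
lemma sum_cs_zero (y : ℝ) {N₀ N₁ : ℕ} (h0 : 1 ≤ N₀) (h : N₀ ≤ N₁) :
    |∑ j ∈ Finset.Ico N₀ N₁, cs 0 y ((j : ℝ) + 1 / 2) - (log N₁ - log N₀)| ≤ 2 / N₀ := by
  have h1 := sum_cs (Φ := log) (γ := 0) (y := y)
    (fun s hs => (Real.hasDerivAt_log hs.ne').congr_deriv (by simp [cs])) h0 h
  simpa using h1

/-- Nonzero frequency with vanishing boundary terms. -/
lemma sum_cs_of_ne {γ : ℝ} (hγ : γ ≠ 0) {N₀ N₁ : ℕ} (h0 : 1 ≤ N₀) (h : N₀ ≤ N₁)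
    (hs : sin (γ * (log N₁ - log N₀)) = 0) :
    |∑ j ∈ Finset.Ico N₀ N₁, cs γ (log N₀) ((j : ℝ) + 1 / 2)| ≤ 2 * (1 + |γ|) / N₀ := by
  have h1 := sum_cs (Φ := fun s => sin (γ * (log s - log N₀)) / γ) (γ := γ) (y := log N₀)
    (fun s hs => by
      have h1 : HasDerivAt (fun s => γ * (log s - log N₀)) (γ * s⁻¹) s :=
        ((Real.hasDerivAt_log hs.ne').sub_const _).const_mul γ
      refine (h1.sin.div_const γ).congr_deriv ?_
      unfold cs
      field_simp) h0 h
  simp only [sub_self, mul_zero, sin_zero, zero_div, sub_zero, hs] at h1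
  exact h1

end Pool.Agent.H66.OneArm

end

section

/-!
# Two facts of elementary calculus about `1 / (c + cosh x)`
-/

set_option autoImplicit false

open Real Set

namespace Pool.Agent.H66.OneArm

end Pool.Agent.H66.OneArm

end

section

/-!
# The functions `h` and `H`
-/

open Filter Topology Real

namespace Pool.Agent.H66.OneArm

/-! ### The hyperbolic tangent -/

end Pool.Agent.H66.OneArm

end

section

/-!
# The tridiagonal matrix commutes with the Pascal matrix, and common eigenvectors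
-/

open Matrix

namespace Pool.Agent.H66.OneArm

end Pool.Agent.H66.OneArm

end

section

/-!
# A trace inequality

If the vectors `u i` are nearly orthonormal and `H` is convex, then the sum of `H` over the squared
distances of the eigenvalues of a symmetric matrix from `c` is at least about the sum of `H` over the
squared errors of the quasi-modes `u i`.
-/

open Matrix Finset

namespace Pool.Agent.H66.OneArm

variable {n : ℕ}

end Pool.Agent.H66.OneArm

end

section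

/-!
# Spectral description of the Pascal matrix
-/

open Matrix Finset Real

namespace Pool.Agent.H66.OneArm

end Pool.Agent.H66.OneArm

end

section

/-!
# A squeeze argument for sums over a spectrum
-/

set_option autoImplicit false

open Real Filter Topology

namespace Pool.Agent.H66.OneArm

end Pool.Agent.H66.OneArm

end
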