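import Pool.Agent.H94.BG.H31.PT.M31

/-! The parts of this file: H89.Perc.FinalAnalysis, H15.Exact.Form, H66.OneArm.Defs, H66.OneArm.Ode, H66.OneArm.MaxPrin, H66.OneArm.Ratio, H66.OneArm.RatioMain, H66.OneArm.QuasiA, H66.OneArm.QuasiB, H66.OneArm.Convex, H66.OneArm.LowerA, H66.OneArm.Eigen, H66.OneArm.Trace, H66.OneArm.Spectral, H66.OneArm.Squeeze. -/

section

/-!
# The real analysis behind the lower bound for the percolation probability
-/

open Filter Topology

namespace Pool.Agent.H89.Perc

namespace FinalHyp

variable {ce Cd cd h θ : ℝ} {a b d : ℕ → ℝ}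

end FinalHyp

end Pool.Agent.H89.Perc

end

section

/-!
# Project EXACT, one-arm formula: the form of a pair of patterns with a marked gap

The marked gap lies between strand `-1` and strand `0`.
-/

set_option autoImplicit false

open Finset

namespace Pool.Agent.H15.Exact

open H56.EX

variable {L : ℕ}

/-- Some loop formed by the two patterns is contractible and surrounds the gap between strand
`-1` and strand `0`: there is a finite union of loops (on the universal cover) with an odd number of
points to the left of the gap. -/
def Surr (P Q : Pat L) : Prop :=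
  ∃ S : Finset ℤ, (∀ x ∈ S, P.m x ∈ S) ∧ (∀ x ∈ S, Q.m x ∈ S) ∧ Odd (S.filter (· < 0)).card

/-- Axioms of the form `τ ^ (number of loops around the gap)`. -/
structure FormProps (τ : ℂ) (W : ∀ L : ℕ, Pat L → Pat L → ℂ) : Prop where
  /-- the move `e_i` is self-adjoint if it does not straddle the gap -/
  adj : ∀ (L : ℕ) (i : ℤ), 0 ≤ i → i + 1 < L → ∀ P Q : Pat L, W L (E i P) Q = W L P (E i Q)
  /-- a small loop which does not surround the gap has weight one -/
  ins0 : ∀ (L : ℕ) (P Q : Pat L), W (L + 2) (ins 0 P) (ins 0 Q) = W L P Q
  /-- a small loop around the gap has weight `τ` -/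
  insm : ∀ (L : ℕ) (P Q : Pat L),
    W (L + 2) (ins (-1) P) (ins (-1) Q) = τ * W L (rot P) (rot Q)
  /-- two strands -/
  two_left : ∀ P Q : Pat 2, P.m 0 = 1 → W 2 P Q = 1
  /-- two strands -/
  two_right : ∀ P Q : Pat 2, Q.m 0 = 1 → W 2 P Q = 1
  /-- two strands -/
  two_base : ∀ P Q : Pat 2, P.m 0 = -1 → Q.m 0 = -1 → W 2 P Q = τ

/-- The form with weight one. -/
theorem formProps_one : FormProps 1 (fun _ _ _ => 1) where
  adj := fun _ _ _ _ _ _ => rfl
  ins0 := fun _ _ _ => rfl
  insm := fun _ _ _ => by norm_num
  two_left := fun _ _ _ => rfl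
  two_right := fun _ _ _ => rfl
  two_base := fun _ _ _ _ => rfl

theorem phi_zero_neg (hL : 1 ≤ L) (y : ℤ) : phi L 0 y < 0 ↔ y < 0 := by
  unfold phi
  have hLp : (0 : ℤ) < L := by exact_mod_cast hL
  rw [sub_zero]
  constructor
  · intro h
    by_contra hc
    rw [not_lt] at hc
    have : 0 ≤ y / (L : ℤ) := Int.ediv_nonneg hc hLp.le
    omega
  · intro h
    have : y / (L : ℤ) < 0 := Int.ediv_neg_of_neg_of_pos h hLp
    omega

theorem surr_of_m {P Q : Pat L} (hP : P.m (-1) = 0) (hQ : Q.m (-1) = 0) : Surr P Q := by
  classical
  have hP' : P.m 0 = -1 := by rw [← hP, P.inv]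
  have hQ' : Q.m 0 = -1 := by rw [← hQ, Q.inv]
  refine ⟨{-1, 0}, ?_, ?_, ?_⟩
  · intro x hx
    rcases mem_insert.mp hx with rfl | hx
    · rw [hP]; simp
    · rw [mem_singleton.mp hx, hP']; simp
  · intro x hx
    rcases mem_insert.mp hx with rfl | hx
    · rw [hQ]; simp
    · rw [mem_singleton.mp hx, hQ']; simp
  · have : (({-1, 0} : Finset ℤ).filter (· < 0)) = {-1} := by decide
    rw [this, card_singleton]
    exact odd_one

open Classical in
/-- The weight: `0` if some contractible loop surrounds the gap, `1` otherwise. -/
noncomputable def W0 (L : ℕ) (P Q : Pat L) : ℂ := if Surr P Q then 0 else 1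

theorem W0_of {P Q : Pat L} (h : Surr P Q) : W0 L P Q = 0 := by
  unfold W0
  exact if_pos h

theorem W0_of_not {P Q : Pat L} (h : ¬ Surr P Q) : W0 L P Q = 1 := by
  unfold W0
  exact if_neg h

end Pool.Agent.H15.Exact

end

section

/-!
# The Pascal matrix and the commuting tridiagonal matrix
-/

open Matrix

namespace Pool.Agent.H66.OneArm

end Pool.Agent.H66.OneArm

end

section

/-!
# The differential equation of the eigenvectors
-/

open Matrix Finset

namespace Pool.Agent.H66.OneArm

variable {n : ℕ}

end Pool.Agent.H66.OneArm

end

section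

/-!
# A maximum principle on the unit interval
-/

open Set Filter Topology

namespace Pool.Agent.H66.OneArm

end Pool.Agent.H66.OneArm

end

section

/-!
# The eigenvalues of the Pascal matrix in terms of those of the tridiagonal matrix
-/

open Matrix Finset Real Set

namespace Pool.Agent.H66.OneArm

variable {n : ℕ}

end Pool.Agent.H66.OneArm

end

section

/-!
# The eigenvalues of the Pascal matrix in terms of those of the tridiagonal matrix, main result
-/

open Matrix Finset Real Set

namespace Pool.Agent.H66.OneArm

end Pool.Agent.H66.OneArm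

end

section

/-!
# The phases of the quasi-modes
-/

open Matrix Finset Real

namespace Pool.Agent.H66.OneArm

end Pool.Agent.H66.OneArm

end

section

/-!
# Sums of `cos (γ log s) / s`
-/

open Finset Real Set

namespace Pool.Agent.H66.OneArm

end Pool.Agent.H66.OneArm

end

section

/-!
# Two facts of elementary calculus about `1 / (c + cosh x)`
-/

set_option autoImplicit false

open Real Set

namespace Pool.Agent.H66.OneArm

end Pool.Agent.H66.OneArm

end

section

/-!
# The functions `h` and `H`
-/

open Filter Topology Real

namespace Pool.Agent.H66.OneArm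

/-! ### The hyperbolic tangent -/

end Pool.Agent.H66.OneArm

end

section

/-!
# The tridiagonal matrix commutes with the Pascal matrix, and common eigenvectors
-/

open Matrix

namespace Pool.Agent.H66.OneArm

end Pool.Agent.H66.OneArm

end

section

/-!
# A trace inequality

If the vectors `u i` are nearly orthonormal and `H` is convex, then the sum of `H` over the squared
distances of the eigenvalues of a symmetric matrix from `c` is at least about the sum of `H` over the
squared errors of the quasi-modes `u i`.
-/

open Matrix Finset

namespace Pool.Agent.H66.OneArm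

variable {n : ℕ}

end Pool.Agent.H66.OneArm

end

section

/-!
# Spectral description of the Pascal matrix
-/

open Matrix Finset Real

namespace Pool.Agent.H66.OneArm

end Pool.Agent.H66.OneArm

end

section

/-!
# A squeeze argument for sums over a spectrum
-/

set_option autoImplicit false

open Real Filter Topology

namespace Pool.Agent.H66.OneArm

end Pool.Agent.H66.OneArm

end
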