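import Pool.Agent.H94.BG.H31.PT.M41

/-! The parts of this file: H89.Perc.FinalAnalysis, H15.Exact.Form, H66.OneArm.Defs, H66.OneArm.Ode, H66.OneArm.MaxPrin, H66.OneArm.Ratio, H66.OneArm.RatioMain, H66.OneArm.QuasiA, H66.OneArm.QuasiB, H66.OneArm.Convex, H66.OneArm.LowerA, H66.OneArm.Eigen, H66.OneArm.Trace, H66.OneArm.Spectral, H66.OneArm.Squeeze. -/

section

/-!
# The real analysis behind the lower bound for the percolation probability
-/

open Filter Topology

namespace Pool.Agent.H89.Perc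

namespace FinalHyp

variable {ce Cd cd h θ : ℝ} {a b d : ℕ → ℝ}

lemma ce_le_one (H : FinalHyp ce Cd cd h θ a b d) : ce ≤ 1 := by
  have h1 := H.b_low 1 le_rfl
  have h2 := H.b_le_a 1
  have h3 := H.a_le_one 1
  simp at h1
  linarith

lemma a_nonneg (H : FinalHyp ce Cd cd h θ a b d) (k : ℕ) : 0 ≤ a k :=
  (H.b_nonneg k).trans (H.b_le_a k)

lemma sqrt_low {N : ℕ} (hN : 1 ≤ N) : 1 / (N : ℝ) ≤ Real.sqrt (1 / N) := by
  have hN' : (1 : ℝ) ≤ N := by exact_mod_cast hN
  apply Real.le_sqrt_of_sq_le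
  have : 1 / (N : ℝ) ≤ 1 := by
    rw [div_le_one (by linarith only [hN'])]; exact hN'
  have h0 : 0 ≤ 1 / (N : ℝ) := by positivity
  nlinarith only [this, h0]

lemma b_low' (H : FinalHyp ce Cd cd h θ a b d) {N : ℕ} (hN : 1 ≤ N) : ce / N ≤ b N := by
  refine le_trans ?_ (H.b_low N hN)
  have := sqrt_low hN
  have h2 := mul_le_mul_of_nonneg_left this H.ce0.le
  calc ce / N = ce * (1 / N) := by ring
    _ ≤ _ := h2

/-- Upper bound for the sum in terms of the one-arm probability. -/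
lemma S_upper (H : FinalHyp ce Cd cd h θ a b d) {N : ℕ} (hN : 1 ≤ N) :
    ∑ k ∈ Finset.range N, a k * b k ≤ N * a N ^ 2 / ce ^ 2 * (2 + Real.log N) := by
  have hN' : (1 : ℝ) ≤ N := by exact_mod_cast hN
  have hce := H.ce0
  set Q : ℝ := N * a N ^ 2 / ce ^ 2 with hQ
  have hQ1 : 1 ≤ Q := by
    rw [hQ, le_div_iff₀ (by positivity)]
    have h1 : ce * Real.sqrt (1 / N) ≤ a N := (H.b_low N hN).trans (H.b_le_a N)
    have h2 : (ce * Real.sqrt (1 / N)) ^ 2 ≤ a N ^ 2 := by
      apply pow_le_pow_left₀ (by positivity) h1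
    rw [mul_pow, Real.sq_sqrt (by positivity)] at h2
    have h3 : (N : ℝ) * (ce ^ 2 * (1 / N)) = ce ^ 2 := by field_simp
    nlinarith [mul_le_mul_of_nonneg_left h2 (by linarith : (0 : ℝ) ≤ N)]
  have hterm : ∀ k ∈ Finset.range N, k ≠ 0 → a k * b k ≤ Q * (1 / (k : ℝ)) := by
    intro k hk hk0
    have hk1 : 1 ≤ k := Nat.one_le_iff_ne_zero.2 hk0
    have hkN : k ≤ N := (Finset.mem_range.1 hk).le
    have hk' : (1 : ℝ) ≤ k := by exact_mod_cast hk1
    have h1 := H.a_ext k N hk1 hkN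
    have h2 := (H.b_ext k N hk1 hkN).trans (H.b_le_a N)
    have hs : 0 < ce * Real.sqrt (k / N) := by positivity
    have h3 : (ce * Real.sqrt (k / N) * a k) * (ce * Real.sqrt (k / N) * b k) ≤ a N * a N :=
      mul_le_mul h1 h2 (mul_nonneg hs.le (H.b_nonneg k)) (H.a_nonneg N)
    have h4 : (ce * Real.sqrt (k / N) * a k) * (ce * Real.sqrt (k / N) * b k) =
        ce ^ 2 * (k / N) * (a k * b k) := by
      have : Real.sqrt (k / N) * Real.sqrt (k / N) = k / N := Real.mul_self_sqrt (by positivity)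
      calc _ = ce ^ 2 * (Real.sqrt (k / N) * Real.sqrt (k / N)) * (a k * b k) := by ring
        _ = _ := by rw [this]
    rw [h4] at h3
    rw [hQ]
    have h5 : a k * b k ≤ a N * a N / (ce ^ 2 * (k / N)) := by
      rw [le_div_iff₀ (by positivity)]; linarith only [h3]
    refine h5.trans (le_of_eq ?_)
    field_simp
  have hsplit : ∑ k ∈ Finset.range N, a k * b k ≤
      Q + ∑ k ∈ Finset.range N, Q * (1 / (k : ℝ)) := by
    obtain ⟨n, rfl⟩ : ∃ n, N = n + 1 := ⟨N - 1, by omega⟩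
    rw [Finset.sum_range_succ', Finset.sum_range_succ']
    have h0 : a 0 * b 0 ≤ 1 := by
      have := H.a_le_one 0
      have h2 := (H.b_le_a 0).trans this
      have h3 := H.b_nonneg 0
      have h4 := H.a_nonneg 0
      nlinarith only [h2, this, h3]
    have h1 : ∑ k ∈ Finset.range n, a (k + 1) * b (k + 1) ≤
        ∑ k ∈ Finset.range n, Q * (1 / ((k + 1 : ℕ) : ℝ)) := by
      apply Finset.sum_le_sum
      intro k hk
      exact hterm (k + 1) (Finset.mem_range.2 (by have := Finset.mem_range.1 hk; omega)) (by omega)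
    simp only [Nat.cast_zero, div_zero, mul_zero, add_zero]
    linarith only [hQ1, h0, h1]
  have hharm : ∑ k ∈ Finset.range N, (1 / (k : ℝ)) ≤ 1 + Real.log N := by
    obtain ⟨n, rfl⟩ : ∃ n, N = n + 1 := ⟨N - 1, by omega⟩
    rw [Finset.sum_range_succ']
    simp only [Nat.cast_zero, div_zero, add_zero]
    rcases Nat.eq_zero_or_pos n with rfl | hn
    · simp
    have h1 := harmonic_le_one_add_log n
    have h2 : ((harmonic n : ℚ) : ℝ) = ∑ k ∈ Finset.range n, (1 / ((k + 1 : ℕ) : ℝ)) := by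
      simp [harmonic]
    rw [← h2]
    refine h1.trans ?_
    have hn' : (0 : ℝ) < n := by exact_mod_cast hn
    have := Real.log_le_log hn' (show (n : ℝ) ≤ ((n + 1 : ℕ) : ℝ) by push_cast; linarith only)
    linarith only [this]
  rw [← Finset.mul_sum] at hsplit
  have := mul_le_mul_of_nonneg_left hharm (by linarith only [hQ1] : (0 : ℝ) ≤ Q)
  nlinarith only [hsplit, this]

lemma S_pos (H : FinalHyp ce Cd cd h θ a b d) {r : ℕ} (hr : 1 ≤ r) :
    0 < ∑ k ∈ Finset.range (4 * r), a k * b k := by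
  have h1 : a 1 * b 1 ≤ ∑ k ∈ Finset.range (4 * r), a k * b k :=
    Finset.single_le_sum (f := fun k => a k * b k)
      (fun k _ => mul_nonneg (H.a_nonneg k) (H.b_nonneg k)) (Finset.mem_range.2 (by omega))
  have h2 := H.b_low' (N := 1) le_rfl
  have h3 := H.b_le_a 1
  have h4 := H.ce0
  have : 0 < a 1 * b 1 := by
    simp at h2
    have : 0 < b 1 := by linarith only [h4, h2]
    have : 0 < a 1 := by linarith only [h3, h4, h2]
    positivity
  linarith only [h1, this]

/-- Decay of `d` from the smallness at one scale. -/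
lemma d_decay (H : FinalHyp ce Cd cd h θ a b d) {r : ℕ} {ε : ℝ}
    (hε : (8 * r + 4) * d r ≤ ε) (m : ℕ) : ∀ n : ℕ, m * (r + 1) ≤ n → d n ≤ ε ^ m := by
  have hε0 : 0 ≤ ε := le_trans (mul_nonneg (by positivity) (H.d_nonneg r)) hε
  induction m with
  | zero => intro n _; simpa using H.d_le_one n
  | succ m ih =>
    intro n hn
    have hrn : r < n := by
      have : (m + 1) * (r + 1) = m * (r + 1) + (r + 1) := by ring
      have h2 : 0 ≤ m * (r + 1) := Nat.zero_le _
      omega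
    have h1 := H.sl r n hrn
    have h2 : d (n - r - 1) ≤ ε ^ m := by
      apply ih
      have : (m + 1) * (r + 1) = m * (r + 1) + (r + 1) := by ring
      omega
    calc d n ≤ (8 * r + 4) * d r * d (n - r - 1) := h1
      _ ≤ ε * ε ^ m := mul_le_mul hε h2 (H.d_nonneg _) hε0
      _ = ε ^ (m + 1) := by ring

/-- Sum of the decaying sequence. -/
lemma d_sum (H : FinalHyp ce Cd cd h θ a b d) {r : ℕ} {ε : ℝ}
    (hε : (8 * r + 4) * d r ≤ ε) (hε2 : ε ≤ 1 / 2) {m : ℕ} (hm : 1 ≤ m) :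
    ∑ j ∈ Finset.range ((r + 1) * m), d (max j (r + 1)) ≤ (r + 1) * (3 * ε - 2 * ε ^ m) := by
  have hε0 : 0 ≤ ε := le_trans (mul_nonneg (by positivity) (H.d_nonneg r)) hε
  induction m, hm using Nat.le_induction with
  | base =>
    have : ∀ j ∈ Finset.range ((r + 1) * 1), d (max j (r + 1)) ≤ ε := by
      intro j _
      have := H.d_decay hε 1 (max j (r + 1)) (by rw [one_mul]; exact le_max_right _ _)
      simpa using this
    have h2 := Finset.sum_le_card_nsmul _ _ _ this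
    simp only [Finset.card_range, nsmul_eq_mul] at h2
    push_cast at h2
    refine h2.trans (le_of_eq ?_)
    ring
  | succ m hm ih =>
    rw [Nat.mul_succ, Finset.sum_range_add]
    have h1 : ∑ x ∈ Finset.range (r + 1), d (max ((r + 1) * m + x) (r + 1)) ≤ (r + 1) * ε ^ m := by
      have : ∀ x ∈ Finset.range (r + 1), d (max ((r + 1) * m + x) (r + 1)) ≤ ε ^ m := by
        intro x _
        apply H.d_decay hε m
        have : m * (r + 1) = (r + 1) * m := by ring
        exact le_trans (by omega) (le_max_left _ _)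
      have h2 := Finset.sum_le_card_nsmul _ _ _ this
      simp only [Finset.card_range, nsmul_eq_mul] at h2
      push_cast at h2
      exact h2
    have h3 : ε ^ (m + 1) ≤ ε ^ m * (1 / 2) := by
      rw [pow_succ]
      exact mul_le_mul_of_nonneg_left hε2 (by positivity)
    have hr0 : (0 : ℝ) ≤ r + 1 := by positivity
    have h4 := mul_le_mul_of_nonneg_left h3 hr0
    nlinarith only [ih, h1, h4]

/-- Lower bound for `θ` once `d` is small at scale `r`. -/
lemma θ_ge (H : FinalHyp ce Cd cd h θ a b d) {r : ℕ} {ε : ℝ} 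
    (hε : (8 * r + 4) * d r ≤ ε) (hε2 : ε ≤ 1 / 2) :
    a (2 * (r + 1)) ≤ θ + (r + 1) * (3 * ε) := by
  have hε0 : 0 ≤ ε := le_trans (mul_nonneg (by positivity) (H.d_nonneg r)) hε
  have hlim : Tendsto (fun m : ℕ => a ((r + 1) * m)) atTop (𝓝 θ) :=
    H.lim.comp (tendsto_id.const_mul_atTop' (Nat.succ_pos r))
  have : a (2 * (r + 1)) - (r + 1) * (3 * ε) ≤ θ := by
    apply ge_of_tendsto hlim
    filter_upwards [eventually_ge_atTop 3] with m hm
    have h1 := H.sub (r + 1) ((r + 1) * m) (by omega) (by nlinarith only [hm])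
    have h2 := H.d_sum hε hε2 (m := m) (by omega)
    have h3 : 0 ≤ ε ^ m := by positivity
    have hr0 : (0 : ℝ) ≤ r + 1 := by positivity
    have h4 := mul_nonneg hr0 h3
    nlinarith only [h1, h2, h4]
  linarith

/-- Smallness of `d` from the threshold inequality. -/
lemma d_small (H : FinalHyp ce Cd cd h θ a b d) {r K : ℕ} (hr : 1 ≤ r)
    (hP : 10 * K * Real.log (r + 1) * ∑ k ∈ Finset.range (4 * r), a k * b k ≤ h * r) :
    d r ≤ 64 / ce * (r + 1) ^ 3 / (r + 1) ^ K := by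
  have hS := H.S_pos hr
  set S := ∑ k ∈ Finset.range (4 * r), a k * b k with hSdef
  have hr' : (1 : ℝ) ≤ r := by exact_mod_cast hr
  have h1 := H.thr r hr
  rw [← hSdef] at h1
  have h2 : Real.exp (-2 * h * r / (5 * S)) ≤ (1 / ((r : ℝ) + 1) ^ K) ^ 4 := by
    have h3 : (1 / ((r : ℝ) + 1) ^ K) ^ 4 = Real.exp (-(4 * K * Real.log (r + 1))) := by
      rw [Real.exp_neg, one_div, inv_pow, ← pow_mul, ← Real.rpow_natCast, Real.rpow_def_of_pos (by positivity)]
      congr 2
      push_cast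
      ring
    rw [h3, Real.exp_le_exp, div_le_iff₀ (by positivity)]
    nlinarith only [hP]
  have h3 : (b r / (8 * r) * (d r / (8 * r))) ^ 4 ≤ (1 / ((r : ℝ) + 1) ^ K) ^ 4 := by
    rw [mul_pow]; exact h1.trans h2
  have hb := H.b_nonneg r
  have hd := H.d_nonneg r
  have h4 : b r / (8 * r) * (d r / (8 * r)) ≤ 1 / ((r : ℝ) + 1) ^ K :=
    le_of_pow_le_pow_left₀ (by norm_num) (by positivity) h3
  have h5 := H.b_low' hr
  have hce := H.ce0
  have h6 : ce / r / (8 * r) * (d r / (8 * r)) ≤ 1 / ((r : ℝ) + 1) ^ K := by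
    refine le_trans ?_ h4
    gcongr
  have h7 : d r = 64 * r ^ 3 / ce * (ce / r / (8 * r) * (d r / (8 * r))) := by
    field_simp
    norm_num
  rw [h7]
  calc 64 * (r : ℝ) ^ 3 / ce * (ce / r / (8 * r) * (d r / (8 * r)))
      ≤ 64 * (r : ℝ) ^ 3 / ce * (1 / ((r : ℝ) + 1) ^ K) := by gcongr
    _ ≤ 64 * ((r : ℝ) + 1) ^ 3 / ce * (1 / ((r : ℝ) + 1) ^ K) := by gcongr; linarith only
    _ = _ := by ring

lemma a_le_two_θ (H : FinalHyp ce Cd cd h θ a b d) {r K : ℕ} (hr : 1 ≤ r)
    (hK : 8192 / ce ^ 2 ≤ 2 ^ K)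
    (hP : 10 * ((K + 6 : ℕ) : ℝ) * Real.log (r + 1) * ∑ k ∈ Finset.range (4 * r), a k * b k ≤ h * r) :
    a (2 * (r + 1)) ≤ 2 * θ := by
  have hr' : (1 : ℝ) ≤ r := by exact_mod_cast hr
  have hce := H.ce0
  have hce1 := H.ce_le_one
  have h1 := H.d_small hr hP
  set ε : ℝ := ce / (16 * ((r : ℝ) + 1) ^ 2) with hεdef
  have hε : (8 * r + 4) * d r ≤ ε := by
    have h2 : (2 : ℝ) ^ K ≤ ((r : ℝ) + 1) ^ K := by gcongr; linarith only [hr']
    have h3 : 8192 / ce ^ 2 ≤ ((r : ℝ) + 1) ^ K := hK.trans h2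
    have h4 : 64 / ce * ((r : ℝ) + 1) ^ 3 / (r + 1) ^ (K + 6) =
        64 / ce / (((r : ℝ) + 1) ^ 3 * (r + 1) ^ K) := by
      rw [pow_add]
      field_simp
    rw [h4] at h1
    have h5 : 64 / ce / (((r : ℝ) + 1) ^ 3 * (r + 1) ^ K) ≤
        64 / ce / (((r : ℝ) + 1) ^ 3 * (8192 / ce ^ 2)) := by gcongr
    have h6 : d r ≤ ce / (128 * ((r : ℝ) + 1) ^ 3) := by
      refine (h1.trans h5).trans (le_of_eq ?_)
      field_simp
      norm_num
    calc (8 * (r : ℝ) + 4) * d r ≤ (8 * ((r : ℝ) + 1)) * (ce / (128 * ((r : ℝ) + 1) ^ 3)) := by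
          apply mul_le_mul (by linarith only) h6 (H.d_nonneg r) (by positivity)
      _ = ε := by
          rw [hεdef]
          field_simp
          norm_num
  have hε2 : ε ≤ 1 / 2 := by
    rw [hεdef, div_le_iff₀ (by positivity)]
    nlinarith only [hr', hce1]
  have h2 := H.θ_ge hε hε2
  have h3 := (H.b_low' (N := 2 * (r + 1)) (by omega)).trans (H.b_le_a _)
  have h4 : ((r : ℝ) + 1) * (3 * ε) ≤ 1 / 2 * (ce / ((2 * (r + 1) : ℕ) : ℝ)) := by
    rw [hεdef]
    have : ((r : ℝ) + 1) * (3 * (ce / (16 * ((r : ℝ) + 1) ^ 2))) = 3 / 8 * (ce / (2 * ((r : ℝ) + 1))) := by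
      field_simp
      norm_num
    rw [this]
    push_cast
    have : 0 ≤ ce / (2 * ((r : ℝ) + 1)) := by positivity
    linarith only [this]
  linarith only [h2, h3, h4]

end FinalHyp

end Pool.Agent.H89.Perc

end

section

/-!
# Project EXACT, one-arm formula: the form of a pair of patterns with a marked gap

The marked gap lies between strand `-1` and strand `0`.
-/

set_option autoImplicit false

open Finset

namespace Pool.Agent.H15.Exact

variable {L : ℕ}

end Pool.Agent.H15.Exact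

end

section

/-!
# The Pascal matrix and the commuting tridiagonal matrix
-/

open Matrix

namespace Pool.Agent.H66.OneArm

/-- The symmetric Pascal matrix. -/
def pasc (n : ℕ) : Matrix (Fin n) (Fin n) ℝ := fun i j => ((i + j : ℕ).choose i : ℝ)

/-- The lower triangular Pascal matrix. -/
def lowp (n : ℕ) : Matrix (Fin n) (Fin n) ℝ := fun i j => ((i : ℕ).choose j : ℝ)

lemma offd_last {n : ℕ} (hn : 1 ≤ n) : offd n (n - 1) = 0 := by
  unfold offd
  rw [Nat.cast_sub hn]
  simp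

lemma trid_isSymm (n : ℕ) : (trid n).IsSymm := by
  ext i j
  simp only [transpose_apply, trid]
  by_cases h : (i : ℕ) = j
  · rw [if_pos h, if_pos h.symm, h]
  · rw [if_neg h, if_neg (Ne.symm h)]
    by_cases h1 : (j : ℕ) = i + 1
    · have h2 : ¬ ((i : ℕ) = j + 1) := by omega
      rw [if_pos h1, if_neg h2, if_pos h1]
    · by_cases h2 : (i : ℕ) = j + 1
      · rw [if_pos h2, if_neg h1, if_pos h2]
      · rw [if_neg h2, if_neg h1, if_neg h1, if_neg h2]

lemma pasc_isSymm (n : ℕ) : (pasc n).IsSymm := by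
  ext i j
  simp only [transpose_apply, pasc]
  rw [add_comm (j : ℕ) i]
  norm_cast
  exact (Nat.choose_symm_add).symm

/-- `B = L Lᵀ`. -/
lemma pasc_eq (n : ℕ) : pasc n = lowp n * (lowp n)ᵀ := by
  ext i j
  simp only [mul_apply, transpose_apply, pasc, lowp]
  rw [Fin.sum_univ_eq_sum_range (fun k => ((i : ℕ).choose k : ℝ) * ((j : ℕ).choose k : ℝ)) n]
  rw [Nat.add_choose_eq, Finset.Nat.sum_antidiagonal_eq_sum_range_succ
    (fun a b => (i : ℕ).choose a * (j : ℕ).choose b), ← Finset.sum_range_reflect]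
  push_cast
  have hi := i.2
  have h1 : Finset.range ((i : ℕ) + 1) ⊆ Finset.range n :=
    Finset.range_subset_range.mpr (by omega)
  rw [← Finset.sum_subset h1 (f := fun k => ((i : ℕ).choose k : ℝ) * ((j : ℕ).choose k : ℝ))]
  · refine Finset.sum_congr rfl fun k hk => ?_
    have hk' : k ≤ i := by
      have := Finset.mem_range.mp hk
      omega
    have e2 : (i : ℕ) - (i - k) = k := by omega
    simp only [Nat.add_sub_cancel, e2, Nat.choose_symm hk']
  · intro k _ hk
    rw [Finset.mem_range, not_lt] at hk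
    rw [Nat.choose_eq_zero_of_lt (by omega)]
    simp

lemma det_lowp (n : ℕ) : (lowp n).det = 1 := by
  rw [Matrix.det_of_isLowerTriangular]
  · exact Finset.prod_eq_one fun i _ => by simp [lowp]
  · intro i j hij
    have : (i : ℕ) < j := hij
    simp only [lowp]
    rw [Nat.choose_eq_zero_of_lt this]
    simp

lemma det_pasc (n : ℕ) : (pasc n).det = 1 := by
  rw [pasc_eq, det_mul, det_transpose, det_lowp, one_mul]

end Pool.Agent.H66.OneArm

end

section

/-!
# The differential equation of the eigenvectors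
-/

open Matrix Finset

namespace Pool.Agent.H66.OneArm

variable {n : ℕ}

/-- The generating polynomial of a vector and its derivatives. -/
noncomputable def V0 (v : Fin n → ℝ) (t : ℝ) : ℝ := ∑ i ∈ range n, ext v i * t ^ i
noncomputable def V1 (v : Fin n → ℝ) (t : ℝ) : ℝ := ∑ i ∈ range n, ext v i * (i * t ^ (i - 1))
noncomputable def V2 (v : Fin n → ℝ) (t : ℝ) : ℝ :=
  ∑ i ∈ range n, ext v i * (i * (i - 1) * t ^ (i - 2))
noncomputable def V3 (v : Fin n → ℝ) (t : ℝ) : ℝ :=
  ∑ i ∈ range n, ext v i * (i * (i - 1) * (i - 2) * t ^ (i - 3))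

lemma hasDerivAt_V0 (v : Fin n → ℝ) (t : ℝ) : HasDerivAt (V0 v) (V1 v t) t := by
  unfold V0 V1
  exact HasDerivAt.fun_sum fun i _ => (hasDerivAt_pow i t).const_mul _

lemma hasDerivAt_V1 (v : Fin n → ℝ) (t : ℝ) : HasDerivAt (V1 v) (V2 v t) t := by
  unfold V1 V2
  refine HasDerivAt.fun_sum fun i _ => ?_
  have h := ((hasDerivAt_pow (i - 1) t).const_mul (i : ℝ)).const_mul (ext v i)
  refine h.congr_deriv ?_
  rcases Nat.eq_zero_or_pos i with h0 | h0
  · subst h0
    simp
  · rw [Nat.cast_sub h0, show i - 1 - 1 = i - 2 by omega]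
    push_cast
    ring

lemma hasDerivAt_V2 (v : Fin n → ℝ) (t : ℝ) : HasDerivAt (V2 v) (V3 v t) t := by
  unfold V2 V3
  refine HasDerivAt.fun_sum fun i _ => ?_
  have h := ((hasDerivAt_pow (i - 2) t).const_mul ((i : ℝ) * (i - 1))).const_mul (ext v i)
  refine h.congr_deriv ?_
  rcases Nat.lt_or_ge i 2 with h0 | h0
  · interval_cases i <;> simp
  · rw [Nat.cast_sub h0, show i - 2 - 1 = i - 3 by omega]
    push_cast
    ring

/-- The differential operator on monomials. -/
lemma monomial_ode (n : ℕ) (i : ℕ) (t : ℝ) :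
    (n : ℝ) ^ 2 * ((t ^ 2 - t + 1) * (i * t ^ (i - 1)) + t * t ^ i)
      - t ^ 2 * (1 - t) ^ 2 * (i * (i - 1) * (i - 2) * t ^ (i - 3))
      - 3 * (t * (1 - t) * (1 - 2 * t)) * (i * (i - 1) * t ^ (i - 2))
      - (7 * t ^ 2 - 7 * t + 1) * (i * t ^ (i - 1)) - t * t ^ i =
    offd n i * t ^ (i + 1) + diag n i * t ^ i + (if i = 0 then 0 else offd n (i - 1) * t ^ (i - 1)) := by
  rcases Nat.lt_or_ge i 3 with h0 | h0
  · interval_cases i <;> simp [offd, diag] <;> ring
  · obtain ⟨k, rfl⟩ : ∃ k, i = k + 3 := ⟨i - 3, by omega⟩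
    rw [if_neg (by omega), show k + 3 - 1 = k + 2 by omega, show k + 3 - 2 = k + 1 by omega,
      show k + 3 - 3 = k by omega]
    unfold offd diag
    push_cast
    ring

/-- The differential equation. -/
lemma ode (v : Fin n → ℝ) {τ : ℝ} (hv : trid n *ᵥ v = τ • v) (t : ℝ) :
    (n : ℝ) ^ 2 * ((t ^ 2 - t + 1) * V1 v t + t * V0 v t) - t ^ 2 * (1 - t) ^ 2 * V3 v t
      - 3 * (t * (1 - t) * (1 - 2 * t)) * V2 v t - (7 * t ^ 2 - 7 * t + 1) * V1 v t - t * V0 v t =
    τ * V0 v t := by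
  have h1 : (n : ℝ) ^ 2 * ((t ^ 2 - t + 1) * V1 v t + t * V0 v t) - t ^ 2 * (1 - t) ^ 2 * V3 v t
      - 3 * (t * (1 - t) * (1 - 2 * t)) * V2 v t - (7 * t ^ 2 - 7 * t + 1) * V1 v t - t * V0 v t =
      ∑ i ∈ range n, ext v i * (offd n i * t ^ (i + 1) + diag n i * t ^ i +
        (if i = 0 then 0 else offd n (i - 1) * t ^ (i - 1))) := by
    unfold V0 V1 V2 V3
    simp only [mul_sum, ← sum_add_distrib, ← sum_sub_distrib]
    refine sum_congr rfl fun i _ => ?_
    rw [← monomial_ode n i t]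
    ring
  have hrow : ∀ i < n, (if i = 0 then 0 else offd n (i - 1) * ext v (i - 1)) +
      diag n i * ext v i + offd n i * ext v (i + 1) = τ * ext v i := by
    intro i hi
    have h := congrFun hv ⟨i, hi⟩
    rw [trid_mulVec] at h
    simp only [Pi.smul_apply, smul_eq_mul] at h
    rw [← ext_of_lt v hi] at h
    exact h
  rw [h1]
  rcases Nat.eq_zero_or_pos n with h0 | h0
  · subst h0
    simp [V0]
  obtain ⟨m, rfl⟩ : ∃ m, n = m + 1 := ⟨n - 1, by omega⟩
  have h2 : τ * V0 v t = ∑ i ∈ range (m + 1), ((if i = 0 then 0 else offd (m + 1) (i - 1) *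
      ext v (i - 1)) + diag (m + 1) i * ext v i + offd (m + 1) i * ext v (i + 1)) * t ^ i := by
    unfold V0
    rw [mul_sum]
    refine sum_congr rfl fun i hi => ?_
    rw [hrow i (mem_range.mp hi)]
    ring
  rw [h2]
  -- compare the two sums
  have hlast : offd (m + 1) m = 0 := by
    have := offd_last (n := m + 1) (by omega)
    rwa [Nat.add_sub_cancel] at this
  have hext : ext v (m + 1) = 0 := ext_of_le v le_rfl
  have hA : ∑ i ∈ range (m + 1), ext v i * (offd (m + 1) i * t ^ (i + 1)) =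
      ∑ i ∈ range (m + 1), (if i = 0 then 0 else offd (m + 1) (i - 1) * ext v (i - 1)) * t ^ i := by
    rw [sum_range_succ, sum_range_succ', hlast]
    simp only [if_true, zero_mul, mul_zero, add_zero]
    refine sum_congr rfl fun i _ => ?_
    rw [if_neg (by omega), Nat.add_sub_cancel]
    ring
  have hB : ∑ i ∈ range (m + 1), ext v i * (if i = 0 then 0 else offd (m + 1) (i - 1) * t ^ (i - 1)) =
      ∑ i ∈ range (m + 1), offd (m + 1) i * ext v (i + 1) * t ^ i := by
    rw [sum_range_succ', sum_range_succ, hext]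
    simp only [if_true, zero_mul, mul_zero, add_zero]
    refine sum_congr rfl fun i _ => ?_
    rw [if_neg (by omega), Nat.add_sub_cancel]
    ring
  simp only [mul_add, add_mul, sum_add_distrib]
  rw [hA, hB]
  congr 2
  exact sum_congr rfl fun i _ => by ring

lemma V0_zero (v : Fin n → ℝ) : V0 v 0 = ext v 0 := by
  unfold V0
  rcases Nat.eq_zero_or_pos n with h0 | h0
  · subst h0
    simp [ext]
  · rw [sum_eq_single 0]
    · simp
    · intro i _ hi
      simp [hi]
    · intro h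
      exact absurd (mem_range.mpr h0) h

lemma V0_one (v : Fin n → ℝ) : V0 v 1 = ∑ j, v j := by
  unfold V0
  rw [← Fin.sum_univ_eq_sum_range (fun i => ext v i * (1 : ℝ) ^ i) n]
  simp

end Pool.Agent.H66.OneArm

end

section

/-!
# A maximum principle on the unit interval
-/

open Set Filter Topology

namespace Pool.Agent.H66.OneArm

/-- At an interior maximum the second derivative is not positive. -/
lemma second_deriv_nonpos {z z1 : ℝ → ℝ} {z2 t : ℝ} (hz : ∀ s ∈ Ioo (0 : ℝ) 1, HasDerivAt z (z1 s) s)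
    (hz1 : HasDerivAt z1 z2 t) (ht : t ∈ Ioo (0 : ℝ) 1) (hmax : ∀ s ∈ Icc (0 : ℝ) 1, z s ≤ z t) :
    z1 t = 0 ∧ z2 ≤ 0 := by
  have hloc : IsLocalMax z t := by
    filter_upwards [Ioo_mem_nhds ht.1 ht.2] with s hs
    exact hmax s ⟨hs.1.le, hs.2.le⟩
  have h0 : z1 t = 0 := hloc.hasDerivAt_eq_zero (hz t ht)
  refine ⟨h0, ?_⟩
  by_contra hcon
  push Not at hcon
  -- the first derivative is positive just after `t`
  have h1 : ∀ᶠ s in 𝓝[>] t, 0 < z1 s := by
    have h2 := hz1.tendsto_slope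
    have h3 : ∀ᶠ s in 𝓝[≠] t, 0 < slope z1 t s := h2.eventually (lt_mem_nhds hcon)
    have h4 : ∀ᶠ s in 𝓝[>] t, 0 < slope z1 t s :=
      h3.filter_mono (nhdsWithin_mono _ fun s hs => ne_of_gt hs)
    filter_upwards [h4, self_mem_nhdsWithin] with s hs hts
    rw [slope_def_field, h0, sub_zero] at hs
    have hts' : 0 < s - t := sub_pos.mpr hts
    have := mul_pos hs hts'
    rwa [div_mul_cancel₀ _ hts'.ne'] at this
  obtain ⟨u, hu, hu2⟩ := mem_nhdsGT_iff_exists_Ioo_subset.mp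
    (inter_mem h1 (Ioo_mem_nhdsGT ht.2))
  set w := (t + u) / 2 with hw
  have htu : t < u := hu
  have hwt : t < w := by rw [hw]; linarith only [htu]
  have hwu : w < u := by rw [hw]; linarith only [hw, hwt]
  have hw1 : w < 1 := (hu2 ⟨hwt, hwu⟩).2.2
  have hmono : StrictMonoOn z (Icc t w) := by
    apply strictMonoOn_of_deriv_pos (convex_Icc t w)
    · intro s hs
      exact (hz s ⟨lt_of_lt_of_le ht.1 hs.1, lt_of_le_of_lt hs.2 hw1⟩).continuousAt.continuousWithinAt
    · intro s hs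
      rw [interior_Icc] at hs
      rw [(hz s ⟨ht.1.trans hs.1, hs.2.trans hw1⟩).deriv]
      exact (hu2 ⟨hs.1, hs.2.trans hwu⟩).1
  have h5 := hmono ⟨le_rfl, hwt.le⟩ ⟨hwt.le, le_rfl⟩ hwt
  have h6 := hmax w ⟨(ht.1.trans hwt).le, hw1.le⟩
  linarith

end Pool.Agent.H66.OneArm

end

section

/-!
# The eigenvalues of the Pascal matrix in terms of those of the tridiagonal matrix
-/

open Matrix Finset Real Set

namespace Pool.Agent.H66.OneArm

variable {n : ℕ}

noncomputable def qf (t : ℝ) : ℝ := t ^ 2 - t + 1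
noncomputable def rho (c t : ℝ) : ℝ := (c - t) / qf t
noncomputable def rho1 (c t : ℝ) : ℝ := (-1 - rho c t * (2 * t - 1)) / qf t
noncomputable def rho2 (c t : ℝ) : ℝ := (-2 * rho1 c t * (2 * t - 1) - 2 * rho c t) / qf t

lemma qf_ge (t : ℝ) : 3 / 4 ≤ qf t := by
  unfold qf
  nlinarith only [sq_nonneg (t - 1 / 2)]

lemma qf_pos (t : ℝ) : 0 < qf t := lt_of_lt_of_le (by norm_num) (qf_ge t)

lemma hasDerivAt_qf (t : ℝ) : HasDerivAt qf (2 * t - 1) t := by
  unfold qf
  have h := (((hasDerivAt_pow 2 t).sub (hasDerivAt_id' t)).add_const 1)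
  refine h.congr_deriv ?_
  simp

lemma hasDerivAt_rho (c t : ℝ) : HasDerivAt (rho c) (rho1 c t) t := by
  have hq := (qf_pos t).ne'
  have h := ((hasDerivAt_id' t).const_sub c).div (hasDerivAt_qf t) hq
  refine h.congr_deriv ?_
  unfold rho1 rho
  field_simp

lemma hasDerivAt_rho1 (c t : ℝ) : HasDerivAt (rho1 c) (rho2 c t) t := by
  have hq := (qf_pos t).ne'
  have h1 : HasDerivAt (fun s => 2 * s - 1) 2 t := by
    simpa using ((hasDerivAt_id' t).const_mul 2).sub_const 1
  have h := (((hasDerivAt_rho c t).mul h1).const_sub (-1)).div (hasDerivAt_qf t) hq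
  refine h.congr_deriv ?_
  have e : (-1 - rho c t * (2 * t - 1)) = rho1 c t * qf t := by
    unfold rho1
    field_simp
  unfold rho2
  simp only [Pi.mul_apply]
  rw [e]
  field_simp
  ring

lemma abs_two_sub_one {t : ℝ} (ht : t ∈ Icc (0 : ℝ) 1) : |2 * t - 1| ≤ 1 := by
  rw [abs_le]
  constructor <;> linarith [ht.1, ht.2]

lemma abs_div_qf {a r : ℝ} (t : ℝ) (h : |a| ≤ r) : |a / qf t| ≤ 4 / 3 * r := by
  rw [abs_div, abs_of_pos (qf_pos t), div_le_iff₀ (qf_pos t)]
  have := qf_ge t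
  have hr : 0 ≤ r := (abs_nonneg a).trans h
  nlinarith only [h, this, hr]

lemma abs_rho_le {c K t : ℝ} (hc : |c| ≤ K) (ht : t ∈ Icc (0 : ℝ) 1) :
    |rho c t| ≤ 4 / 3 * (K + 1) := by
  refine abs_div_qf t ?_
  refine (abs_sub _ _).trans ?_
  rw [abs_of_nonneg ht.1]
  linarith [ht.2]

lemma abs_rho1_le {c K t : ℝ} (hc : |c| ≤ K) (ht : t ∈ Icc (0 : ℝ) 1) :
    |rho1 c t| ≤ 4 / 3 * (1 + 4 / 3 * (K + 1)) := by
  refine abs_div_qf t ?_
  refine (abs_sub _ _).trans ?_
  rw [abs_neg, abs_one, abs_mul]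
  have h1 := abs_rho_le hc ht
  have h2 := abs_two_sub_one ht
  have h3 : |rho c t| * |2 * t - 1| ≤ |rho c t| * 1 := mul_le_mul_of_nonneg_left h2 (abs_nonneg _)
  linarith only [h1, h3]

lemma abs_rho2_le {c K t : ℝ} (hc : |c| ≤ K) (ht : t ∈ Icc (0 : ℝ) 1) :
    |rho2 c t| ≤ 4 / 3 * (2 * (4 / 3 * (1 + 4 / 3 * (K + 1))) + 2 * (4 / 3 * (K + 1))) := by
  refine abs_div_qf t ?_
  refine (abs_sub _ _).trans ?_
  rw [abs_mul, abs_mul, abs_mul, abs_neg, abs_two]
  have h1 := abs_rho_le hc ht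
  have h2 := abs_two_sub_one ht
  have h4 := abs_rho1_le hc ht
  have h3 : |rho1 c t| * |2 * t - 1| ≤ |rho1 c t| * 1 :=
    mul_le_mul_of_nonneg_left h2 (abs_nonneg _)
  nlinarith only [h1, h4, h3]

/-- The coefficient of the solution in the reduced equation. -/
noncomputable def coefF (c t : ℝ) : ℝ :=
  t ^ 2 * (1 - t) ^ 2 * (rho2 c t + 3 * rho c t * rho1 c t + rho c t ^ 3) +
    3 * (t * (1 - t) * (1 - 2 * t)) * (rho1 c t + rho c t ^ 2) + (7 * t ^ 2 - 7 * t + 1) * rho c t + t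

noncomputable def coefB (c t : ℝ) : ℝ :=
  t ^ 2 * (1 - t) ^ 2 * (2 * rho1 c t + rho c t ^ 2) + 3 * (t * (1 - t) * (1 - 2 * t)) * rho c t +
    (7 * t ^ 2 - 7 * t + 1)

noncomputable def coefA (c t : ℝ) : ℝ :=
  t ^ 2 * (1 - t) ^ 2 * rho c t + 3 * (t * (1 - t) * (1 - 2 * t))

lemma coef_bounds {t : ℝ} (ht : t ∈ Icc (0 : ℝ) 1) : |t ^ 2 * (1 - t) ^ 2| ≤ 1 ∧
    |3 * (t * (1 - t) * (1 - 2 * t))| ≤ 1 ∧ |7 * t ^ 2 - 7 * t + 1| ≤ 1 := by
  obtain ⟨h0, h1⟩ := ht
  have h2 : 0 ≤ t * (1 - t) := mul_nonneg h0 (by linarith)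
  have h3 : t * (1 - t) ≤ 1 / 4 := by nlinarith only [sq_nonneg (t - 1 / 2)]
  refine ⟨?_, ?_, ?_⟩
  · rw [← mul_pow, abs_of_nonneg (sq_nonneg _)]
    nlinarith only [h3, h2]
  · have h4 : |1 - 2 * t| ≤ 1 := by
      rw [abs_le]
      constructor <;> linarith
    rw [abs_mul, abs_mul, abs_of_nonneg h2, abs_of_pos (show (0 : ℝ) < 3 by norm_num)]
    nlinarith only [h3, h2, h4, abs_nonneg (1 - 2 * t)]
  · rw [abs_le]
    constructor <;> nlinarith only [h3, h2]

/-- For bounded parameters the coefficients are bounded. -/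
lemma exists_coef_bound (K : ℝ) : ∃ b : ℝ, 0 < b ∧ ∀ c t : ℝ, |c| ≤ K → t ∈ Icc (0 : ℝ) 1 →
    |coefB c t| ≤ b ∧ |coefF c t| ≤ b := by
  set r := 4 / 3 * (|K| + 1) with hr
  set r1 := 4 / 3 * (1 + 4 / 3 * (|K| + 1)) with hr1
  set r2 := 4 / 3 * (2 * (4 / 3 * (1 + 4 / 3 * (|K| + 1))) + 2 * (4 / 3 * (|K| + 1))) with hr2
  have hK := abs_nonneg K
  refine ⟨(2 * r1 + r ^ 2 + r + 1) + (r2 + 3 * r * r1 + r ^ 3 + (r1 + r ^ 2) + r + 1),
    by positivity, fun c t hc ht => ?_⟩
  have hc' : |c| ≤ |K| := hc.trans (le_abs_self K)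
  have h0 : |rho c t| ≤ r := abs_rho_le hc' ht
  have h1 : |rho1 c t| ≤ r1 := abs_rho1_le hc' ht
  have h2 : |rho2 c t| ≤ r2 := abs_rho2_le hc' ht
  obtain ⟨hP, hR, hQ⟩ := coef_bounds ht
  have hr0 : 0 ≤ r := (abs_nonneg _).trans h0
  have hr10 : 0 ≤ r1 := (abs_nonneg _).trans h1
  have hr20 : 0 ≤ r2 := (abs_nonneg _).trans h2
  have h00 : |rho c t ^ 2| ≤ r ^ 2 := by
    rw [abs_pow]
    exact pow_le_pow_left₀ (abs_nonneg _) h0 2
  have h000 : |rho c t ^ 3| ≤ r ^ 3 := by
    rw [abs_pow]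
    exact pow_le_pow_left₀ (abs_nonneg _) h0 3
  have h01 : |3 * rho c t * rho1 c t| ≤ 3 * r * r1 := by
    rw [abs_mul, abs_mul, abs_of_pos (show (0 : ℝ) < 3 by norm_num)]
    gcongr
  have mulle : ∀ a b s : ℝ, |a| ≤ 1 → |b| ≤ s → |a * b| ≤ s := by
    intro a b s ha hb
    rw [abs_mul]
    have := mul_le_mul ha hb (abs_nonneg _) zero_le_one
    linarith only [this]
  have ht1 : |t| ≤ 1 := by
    rw [abs_of_nonneg ht.1]
    exact ht.2
  constructor
  · have e1 : |2 * rho1 c t + rho c t ^ 2| ≤ 2 * r1 + r ^ 2 := by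
      refine (abs_add_le _ _).trans (add_le_add ?_ h00)
      rw [abs_mul, abs_two]
      linarith only [h1]
    have e2 := mulle _ _ _ hP e1
    have e3 := mulle _ _ _ hR h0
    have e4 : |coefB c t| ≤ (2 * r1 + r ^ 2) + r + 1 := by
      unfold coefB
      exact (abs_add_le _ _).trans (add_le_add ((abs_add_le _ _).trans (add_le_add e2 e3)) hQ)
    have : 0 ≤ r2 + 3 * r * r1 + r ^ 3 + (r1 + r ^ 2) + r + 1 := by positivity
    linarith only [e4, this]
  · have e1 : |rho2 c t + 3 * rho c t * rho1 c t + rho c t ^ 3| ≤ r2 + 3 * r * r1 + r ^ 3 :=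
      (abs_add_le _ _).trans (add_le_add ((abs_add_le _ _).trans (add_le_add h2 h01)) h000)
    have e2 : |rho1 c t + rho c t ^ 2| ≤ r1 + r ^ 2 := (abs_add_le _ _).trans (add_le_add h1 h00)
    have e3 := mulle _ _ _ hP e1
    have e4 := mulle _ _ _ hR e2
    have e5 := mulle _ _ _ hQ h0
    have e6 : |coefF c t| ≤ (r2 + 3 * r * r1 + r ^ 3) + (r1 + r ^ 2) + r + 1 := by
      unfold coefF
      exact (abs_add_le _ _).trans (add_le_add ((abs_add_le _ _).trans (add_le_add
        ((abs_add_le _ _).trans (add_le_add e3 e4)) e5)) ht1)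
    have : 0 ≤ 2 * r1 + r ^ 2 + r + 1 := by positivity
    linarith only [e6, this]

end Pool.Agent.H66.OneArm

end

section

/-!
# The eigenvalues of the Pascal matrix in terms of those of the tridiagonal matrix, main result
-/

open Matrix Finset Real Set

namespace Pool.Agent.H66.OneArm

end Pool.Agent.H66.OneArm

end

section

/-!
# The phases of the quasi-modes
-/

open Matrix Finset Real

namespace Pool.Agent.H66.OneArm

end Pool.Agent.H66.OneArm

end

section

/-!
# Sums of `cos (γ log s) / s`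
-/

open Finset Real Set

namespace Pool.Agent.H66.OneArm

end Pool.Agent.H66.OneArm

end

section

/-!
# Two facts of elementary calculus about `1 / (c + cosh x)`
-/

set_option autoImplicit false

open Real Set

namespace Pool.Agent.H66.OneArm

lemma conv_num {c : ℝ} (hc : -1 < c) (hc' : c ≤ 1) {x : ℝ} (hx : 0 < x) :
    (x * cosh x - sinh x) * (c + cosh x) - 2 * x * sinh x ^ 2 ≤ 0 := by
  have h1 : 1 ≤ cosh x := Real.one_le_cosh x
  have h2 : x ≤ sinh x := Real.self_le_sinh_iff.2 hx.le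
  have h3 : cosh x ^ 2 - sinh x ^ 2 = 1 := Real.cosh_sq_sub_sinh_sq x
  by_cases h : 0 ≤ x * cosh x - sinh x
  · have h4 : (x * cosh x - sinh x) * (c + cosh x) ≤ (x * cosh x - sinh x) * (1 + cosh x) :=
      mul_le_mul_of_nonneg_left (by linarith) h
    have h5 : (x * cosh x - sinh x) * (1 + cosh x) - 2 * x * sinh x ^ 2 =
        (1 + cosh x) * (2 * x - x * cosh x - sinh x) := by
      have : sinh x ^ 2 = cosh x ^ 2 - 1 := by linarith only [h3]
      rw [this]
      ring
    have h6 : (1 + cosh x) * (2 * x - x * cosh x - sinh x) ≤ 0 := by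
      apply mul_nonpos_of_nonneg_of_nonpos (by linarith)
      nlinarith only [h2, h]
    linarith only [h4, h5, h6]
  · push Not at h
    have h4 : (x * cosh x - sinh x) * (c + cosh x) ≤ 0 :=
      mul_nonpos_of_nonpos_of_nonneg h.le (by linarith only [hc, h1])
    have h5 : 0 ≤ 2 * x * sinh x ^ 2 := by positivity
    linarith

private lemma sum_der {t : ℝ} (ht : 0 < t) (ht' : t < π) (m : ℝ) :
    HasDerivAt (fun m : ℝ => 2 * arctan (tan (t / 2) * tanh (m / 2)))
      (sin t / (cos t + cosh m)) m := by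
  have hc : 0 < cos (t / 2) := Real.cos_pos_of_mem_Ioo ⟨by linarith only [ht, ht'], by linarith only [ht']⟩
  have hC : 0 < cosh (m / 2) := Real.cosh_pos _
  have h1 : HasDerivAt (fun m : ℝ => m / 2) (1 / 2) m := (hasDerivAt_id m).div_const 2
  have h2 : HasDerivAt (fun m : ℝ => tanh (m / 2))
      ((cosh (m / 2) * (1 / 2) * cosh (m / 2) - sinh (m / 2) * (sinh (m / 2) * (1 / 2))) /
        cosh (m / 2) ^ 2) m := by
    have hs := (Real.hasDerivAt_sinh (m / 2)).comp m h1
    have hcc := (Real.hasDerivAt_cosh (m / 2)).comp m h1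
    have h3 := hs.div hcc hC.ne'
    refine h3.congr_of_eventuallyEq ?_
    filter_upwards with x
    rw [Real.tanh_eq_sinh_div_cosh]
    rfl
  have h3 := (h2.const_mul (tan (t / 2))).arctan.const_mul 2
  refine h3.congr_deriv ?_
  rw [Real.tanh_eq_sinh_div_cosh, Real.tan_eq_sin_div_cos]
  have e1 : sin t = 2 * sin (t / 2) * cos (t / 2) := by
    rw [← Real.sin_two_mul]
    congr 1
    ring
  have e2 : cos t = 2 * cos (t / 2) ^ 2 - 1 := by
    rw [← Real.cos_two_mul]
    congr 1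
    ring
  have e3 : cosh m = cosh (m / 2) ^ 2 + sinh (m / 2) ^ 2 := by
    rw [← Real.cosh_two_mul]
    congr 1
    ring
  have e4 : cosh (m / 2) ^ 2 - sinh (m / 2) ^ 2 = 1 := Real.cosh_sq_sub_sinh_sq _
  have e5 : sin (t / 2) ^ 2 + cos (t / 2) ^ 2 = 1 := Real.sin_sq_add_cos_sq _
  have e6 : cos t + cosh m = 2 * (cos (t / 2) ^ 2 * cosh (m / 2) ^ 2 +
      sin (t / 2) ^ 2 * sinh (m / 2) ^ 2) := by
    rw [e2, e3]
    have : cosh (m / 2) ^ 2 = 1 + sinh (m / 2) ^ 2 := by linarith only [e4]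
    rw [this]
    have : sin (t / 2) ^ 2 = 1 - cos (t / 2) ^ 2 := by linarith only [e5]
    rw [this]
    ring
  have hden : 0 < cos (t / 2) ^ 2 * cosh (m / 2) ^ 2 + sin (t / 2) ^ 2 * sinh (m / 2) ^ 2 := by
    positivity
  rw [e6, e1]
  have hne : 1 + (sin (t / 2) / cos (t / 2) * (sinh (m / 2) / cosh (m / 2))) ^ 2 =
      (cos (t / 2) ^ 2 * cosh (m / 2) ^ 2 + sin (t / 2) ^ 2 * sinh (m / 2) ^ 2) /
        (cos (t / 2) ^ 2 * cosh (m / 2) ^ 2) := by
    field_simp
  have hnum : cosh (m / 2) * (1 / 2) * cosh (m / 2) - sinh (m / 2) * (sinh (m / 2) * (1 / 2)) =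
      1 / 2 := by linarith only [e4]
  rw [hne, hnum]
  field_simp

theorem sum_h_ge {t Δ : ℝ} (ht : 0 < t) (ht' : t < π) (hΔ : 0 < Δ) (a b : ℕ) (hab : a ≤ b) :
    2 * arctan (tan (t / 2) * tanh ((b + 1) * Δ / 2)) -
      2 * arctan (tan (t / 2) * tanh ((a + 1) * Δ / 2)) ≤
      Δ * ∑ k ∈ Finset.Ico a b, sin t / (cos t + cosh ((k + 1) * Δ)) := by
  induction b, hab using Nat.le_induction with
  | base => simp
  | succ b hab ih =>
    rw [Finset.sum_Ico_succ_top hab, mul_add]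
    have hstep : 2 * arctan (tan (t / 2) * tanh ((((b + 1 : ℕ) : ℝ) + 1) * Δ / 2)) -
        2 * arctan (tan (t / 2) * tanh (((b : ℝ) + 1) * Δ / 2)) ≤
        Δ * (sin t / (cos t + cosh (((b : ℝ) + 1) * Δ))) := by
      have hst : 0 < sin t := Real.sin_pos_of_pos_of_lt_pi ht ht'
      have hb : (0 : ℝ) ≤ ((b : ℝ) + 1) * Δ := by positivity
      have hct : -1 < cos t := by
        have h1 : cos π < cos t := Real.cos_lt_cos_of_nonneg_of_le_pi ht.le le_rfl ht'
        rwa [Real.cos_pi] at h1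
      have hmv := Convex.image_sub_le_mul_sub_of_deriv_le
        (D := Set.Icc (((b : ℝ) + 1) * Δ) (((b : ℝ) + 1) * Δ + Δ)) (convex_Icc _ _)
        (f := fun m : ℝ => 2 * arctan (tan (t / 2) * tanh (m / 2)))
        (fun m _ => (sum_der ht ht' m).continuousAt.continuousWithinAt)
        (fun m _ => (sum_der ht ht' m).differentiableAt.differentiableWithinAt)
        (C := sin t / (cos t + cosh (((b : ℝ) + 1) * Δ)))
        (by
          intro m hm
          rw [interior_Icc] at hm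
          rw [(sum_der ht ht' m).deriv]
          have hcm : cosh (((b : ℝ) + 1) * Δ) ≤ cosh m := by
            rw [Real.cosh_le_cosh, abs_of_nonneg hb, abs_of_nonneg (by linarith only [hb, hm, hm.1])]
            exact hm.1.le
          apply div_le_div_of_nonneg_left hst.le _ (by linarith only [hcm])
          linarith only [hct, Real.one_le_cosh (((b : ℝ) + 1) * Δ)])
        (((b : ℝ) + 1) * Δ) ⟨le_rfl, by linarith only [hΔ]⟩ (((b : ℝ) + 1) * Δ + Δ) ⟨by linarith only [hΔ], le_rfl⟩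
        (by linarith only [hΔ])
      have e1 : (((b + 1 : ℕ) : ℝ) + 1) * Δ / 2 = (((b : ℝ) + 1) * Δ + Δ) / 2 := by
        push_cast
        ring
      rw [e1]
      have e2 : sin t / (cos t + cosh (((b : ℝ) + 1) * Δ)) *
          (((b : ℝ) + 1) * Δ + Δ - ((b : ℝ) + 1) * Δ) =
          Δ * (sin t / (cos t + cosh (((b : ℝ) + 1) * Δ))) := by ring
      rw [e2] at hmv
      exact hmv
    linarith only [ih, hstep]

end Pool.Agent.H66.OneArm

end

section

/-!
# The functions `h` and `H`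
-/

open Filter Topology Real

namespace Pool.Agent.H66.OneArm

/-- `sin t / (cos t + cosh m)`. -/
noncomputable def hh (t m : ℝ) : ℝ := sin t / (cos t + cosh m)

lemma neg_one_lt_cos {t : ℝ} (h0 : 0 < t) (h1 : t < π) : -1 < cos t := by
  rw [← cos_pi]
  exact cos_lt_cos_of_nonneg_of_le_pi h0.le le_rfl h1

lemma den_pos {t : ℝ} (h0 : 0 < t) (h1 : t < π) (m : ℝ) : 0 < cos t + cosh m := by
  linarith [neg_one_lt_cos h0 h1, one_le_cosh m]

lemma hh_pos {t : ℝ} (h0 : 0 < t) (h1 : t < π) (m : ℝ) : 0 < hh t m :=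
  div_pos (sin_pos_of_pos_of_lt_pi h0 h1) (den_pos h0 h1 m)

lemma hh_anti {t : ℝ} (h0 : 0 < t) (h1 : t < π) {m m' : ℝ} (h : |m| ≤ |m'|) :
    hh t m' ≤ hh t m := by
  have h2 := Real.cosh_le_cosh.mpr h
  exact div_le_div_of_nonneg_left (sin_pos_of_pos_of_lt_pi h0 h1).le (den_pos h0 h1 m) (by linarith)

/-! ### The hyperbolic tangent -/

lemma tanh_mono {x y : ℝ} (h : x ≤ y) : tanh x ≤ tanh y := by
  rw [Real.tanh_eq_sinh_div_cosh, Real.tanh_eq_sinh_div_cosh, div_le_div_iff₀ (cosh_pos x) (cosh_pos y)]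
  have h1 : 0 ≤ sinh (y - x) := Real.sinh_nonneg_iff.mpr (by linarith)
  rw [Real.sinh_sub] at h1
  linarith

lemma tanh_ge {x : ℝ} (hx : 0 ≤ x) : 1 - exp (-x) ≤ tanh x := by
  rw [Real.tanh_eq_sinh_div_cosh, le_div_iff₀ (cosh_pos x)]
  have h1 : cosh x - sinh x = exp (-x) := Real.cosh_sub_sinh x
  have h2 := one_le_cosh x
  have h3 := exp_pos (-x)
  nlinarith only [h1, h2, h3]

lemma tendsto_tanh : Tendsto tanh atTop (𝓝 1) := by
  have h1 : Tendsto (fun x : ℝ => 1 - exp (-x)) atTop (𝓝 (1 - 0)) :=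
    tendsto_const_nhds.sub (tendsto_exp_neg_atTop_nhds_zero)
  rw [sub_zero] at h1
  refine tendsto_of_tendsto_of_tendsto_of_le_of_le' h1 tendsto_const_nhds ?_ ?_
  · filter_upwards [eventually_ge_atTop (0 : ℝ)] with x hx using tanh_ge hx
  · exact Eventually.of_forall fun x => (tanh_lt_one x).le

lemma tan_half_pos {t : ℝ} (h0 : 0 < t) (h1 : t < π) : 0 < tan (t / 2) :=
  tan_pos_of_pos_of_lt_pi_div_two (by linarith only [h0]) (by linarith only [h1])

/-- The choice of the cut-off. -/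
lemma exists_X {t κ : ℝ} (h0 : 0 < t) (h1 : t < π) (hκ : 0 < κ) :
    ∃ X : ℝ, 0 < X ∧ t - κ ≤ 2 * arctan (tan (t / 2) * tanh (π * X / 3)) ∧
      2 * π / 3 * X * hh t (2 * π * X / 3) ≤ κ := by
  have hπ := pi_pos
  have h2 : Tendsto (fun X : ℝ => 2 * arctan (tan (t / 2) * tanh (π * X / 3))) atTop (𝓝 t) := by
    have h3 : Tendsto (fun X : ℝ => π * X / 3) atTop atTop := by
      have : (fun X : ℝ => π * X / 3) = fun X => (π / 3) * X := by
        funext X
        ring
      rw [this]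
      exact tendsto_id.const_mul_atTop (by positivity)
    have h4 := ((continuous_arctan.tendsto _).comp
      ((tendsto_tanh.comp h3).const_mul (tan (t / 2)))).const_mul 2
    rw [mul_one, arctan_tan (by linarith only [h0, h1]) (by linarith only [h1])] at h4
    have e : 2 * (t / 2) = t := by ring
    rw [e] at h4
    exact h4
  have h5 : ∀ᶠ X : ℝ in atTop, t - κ ≤ 2 * arctan (tan (t / 2) * tanh (π * X / 3)) :=
    h2.eventually (eventually_ge_nhds (by linarith))
  obtain ⟨X, hX1, hX2⟩ := (h5.and (eventually_ge_atTop (max 1 (1 / κ)))).exists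
  have hX3 : 1 ≤ X := (le_max_left _ _).trans hX2
  have hX4 : 1 / κ ≤ X := (le_max_right _ _).trans hX2
  refine ⟨X, by linarith only [hX3], hX1, ?_⟩
  have hX0 : 0 < X := by linarith only [hX3]
  -- `hh ≤ 2 / m²`
  set m := 2 * π * X / 3 with hm
  have hm0 : 0 < m := by positivity
  have h6 : hh t m ≤ 2 / m ^ 2 := by
    have h7 : m ^ 2 / 2 ≤ cos t + cosh m := by
      have := neg_one_lt_cos h0 h1
      have h8 : 1 + m ^ 2 / 2 ≤ cosh m := by
        have h9 := Real.cosh_eq m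
        have h10 := Real.quadratic_le_exp_of_nonneg hm0.le
        have h11 : cosh m = 1 + 2 * sinh (m / 2) ^ 2 := by
          have := Real.cosh_two_mul (m / 2)
          have h12 := Real.cosh_sq (m / 2)
          rw [show 2 * (m / 2) = m by ring] at this
          rw [this, h12]
          ring
        have h13 : m / 2 ≤ sinh (m / 2) := Real.self_le_sinh_iff.mpr (by linarith only [hm0])
        have h14 : (m / 2) ^ 2 ≤ sinh (m / 2) ^ 2 := pow_le_pow_left₀ (by linarith only [hm0]) h13 2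
        rw [h11]
        linarith only [h14]
      linarith only [this, h8]
    unfold hh
    rw [div_le_div_iff₀ (den_pos h0 h1 m) (by positivity)]
    have := sin_le_one t
    nlinarith only [h7, this, sq_nonneg m, sin_pos_of_pos_of_lt_pi h0 h1]
  have e : 2 * π / 3 * X = m := by rw [hm]; ring
  rw [e]
  calc m * hh t m ≤ m * (2 / m ^ 2) := mul_le_mul_of_nonneg_left h6 hm0.le
    _ = 2 / m := by field_simp
    _ ≤ 1 / X := by
      rw [div_le_div_iff₀ hm0 hX0, hm]
      have : (3 : ℝ) ≤ π := pi_gt_three.le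
      nlinarith only [this, hX3]
    _ ≤ κ := by
      rw [div_le_iff₀ hκ] at hX4
      rw [div_le_iff₀ hX0]
      linarith only [hX4]

/-- The choice of the lower cut-off. -/
lemma exists_s {t κ : ℝ} (hκ : 0 < κ) :
    ∃ s : ℝ, 0 < s ∧ 2 * arctan (tan (t / 2) * tanh s) ≤ κ := by
  have h2 : Tendsto (fun s : ℝ => 2 * arctan (tan (t / 2) * tanh s)) (𝓝 0) (𝓝 0) := by
    have h3 : Continuous fun s : ℝ => 2 * arctan (tan (t / 2) * (sinh s / cosh s)) := by
      have : Continuous fun s : ℝ => sinh s / cosh s :=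
        continuous_sinh.div₀ continuous_cosh fun s => (cosh_pos s).ne'
      exact (continuous_arctan.comp (this.const_mul _)).const_mul _
    have h4 := h3.tendsto 0
    simp only [sinh_zero, zero_div, mul_zero, arctan_zero] at h4
    simpa only [Real.tanh_eq_sinh_div_cosh] using h4
  have h5 : ∀ᶠ s : ℝ in 𝓝[>] 0, 2 * arctan (tan (t / 2) * tanh s) ≤ κ :=
    (h2.mono_left nhdsWithin_le_nhds).eventually (eventually_le_nhds hκ)
  obtain ⟨s, hs1, hs2⟩ := (h5.and self_mem_nhdsWithin).exists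
  exact ⟨s, hs2, hs1⟩

end Pool.Agent.H66.OneArm

end

section

/-!
# The tridiagonal matrix commutes with the Pascal matrix, and common eigenvectors
-/

open Matrix

namespace Pool.Agent.H66.OneArm

/-- Row `i` of `T B`. -/
noncomputable def rowS (n i j : ℕ) : ℝ :=
  (if i = 0 then 0 else offd n (i - 1) * ((i - 1 + j).choose (i - 1) : ℝ)) +
    diag n i * ((i + j).choose i : ℝ) + offd n i * ((i + 1 + j).choose (i + 1) : ℝ)

lemma rowS_eq (n i j : ℕ) : ((i : ℝ) + j) * rowS n i j = ((i + j).choose i : ℝ) *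
    ((i : ℝ) ^ 2 * ((n : ℝ) ^ 2 - (i : ℝ) ^ 2) + ((i : ℝ) + j) * diag n i +
      ((i : ℝ) + j) * (((n : ℝ) ^ 2 - ((i : ℝ) + 1) ^ 2) * ((i : ℝ) + j + 1))) := by
  have h2 : ((i : ℝ) + 1) * ((i + 1 + j).choose (i + 1) : ℝ) =
      ((i : ℝ) + j + 1) * ((i + j).choose i : ℝ) := by
    have h := Nat.add_one_mul_choose_eq (i + j) i
    have e : i + 1 + j = i + j + 1 := by omega
    rw [e]
    have h' : (((i + j + 1 : ℕ) : ℝ)) * ((i + j).choose i : ℝ) =
        ((i + j + 1).choose (i + 1) : ℝ) * ((i + 1 : ℕ) : ℝ) := by exact_mod_cast h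
    push_cast at h' ⊢
    linarith only [h']
  unfold rowS
  rcases Nat.eq_zero_or_pos i with h0 | h0
  · subst h0
    rw [if_pos rfl]
    unfold offd
    have : ((0 : ℕ) : ℝ) = 0 := Nat.cast_zero
    simp only [this] at h2 ⊢
    linear_combination ((j : ℝ) * ((n : ℝ) ^ 2 - (0 + 1) ^ 2)) * h2
  · rw [if_neg (by omega)]
    obtain ⟨k, rfl⟩ : ∃ k, i = k + 1 := ⟨i - 1, by omega⟩
    have h1 : ((k : ℝ) + 1 + j) * ((k + j).choose k : ℝ) =
        ((k : ℝ) + 1) * ((k + 1 + j).choose (k + 1) : ℝ) := by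
      have h := Nat.add_one_mul_choose_eq (k + j) k
      have e : k + 1 + j = k + j + 1 := by omega
      rw [e]
      have h' : (((k + j + 1 : ℕ) : ℝ)) * ((k + j).choose k : ℝ) =
          ((k + j + 1).choose (k + 1) : ℝ) * ((k + 1 : ℕ) : ℝ) := by exact_mod_cast h
      push_cast at h' ⊢
      linarith only [h']
    rw [Nat.add_sub_cancel]
    unfold offd
    push_cast at h2 ⊢
    linear_combination (((k : ℝ) + 1) * ((n : ℝ) ^ 2 - ((k : ℝ) + 1) ^ 2)) * h1 +
      (((k : ℝ) + 1 + j) * ((n : ℝ) ^ 2 - ((k : ℝ) + 1 + 1) ^ 2)) * h2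

lemma trid_mul_pasc_apply {n : ℕ} (i j : Fin n) : (trid n * pasc n) i j = rowS n i j := by
  have h1 : (trid n * pasc n) i j = (trid n *ᵥ fun k => pasc n k j) i := rfl
  have hi := i.2
  rw [h1, trid_mulVec]
  unfold rowS
  congr 1
  · congr 1
    by_cases h0 : (i : ℕ) = 0
    · rw [if_pos h0, if_pos h0]
    · rw [if_neg h0, if_neg h0, ext_of_lt _ (show (i : ℕ) - 1 < n by omega)]
      rfl
  · by_cases hlast : (i : ℕ) + 1 < n
    · rw [ext_of_lt _ hlast]
      rfl
    · have e : (i : ℕ) = n - 1 := by omega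
      rw [e, offd_last (by omega)]
      ring

lemma offd_pos {n i : ℕ} (h : i + 1 < n) : 0 < offd n i := by
  unfold offd
  have h1 : (i : ℝ) + 1 < n := by exact_mod_cast h
  have h2 : (0 : ℝ) ≤ i := Nat.cast_nonneg i
  refine mul_pos (by linarith only) ?_
  nlinarith only [h1]

/-- An eigenvector of the tridiagonal matrix is determined by its first component. -/
lemma eq_zero_of_first {n : ℕ} (v : Fin n → ℝ) (τ : ℝ) (hv : trid n *ᵥ v = τ • v)
    (h0 : ext v 0 = 0) : v = 0 := by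
  have key : ∀ i, ext v i = 0 ∧ ext v (i + 1) = 0 := by
    intro i
    induction i with
    | zero =>
      refine ⟨h0, ?_⟩
      by_cases h1 : 0 + 1 < n
      · have h := congrFun hv ⟨0, by omega⟩
        rw [trid_mulVec] at h
        simp only [Pi.smul_apply, smul_eq_mul] at h
        rw [ext_of_lt v (show 0 < n by omega)] at h0
        rw [if_pos trivial, h0] at h
        have h2 : offd n 0 * ext v (0 + 1) = 0 := by linarith only [h]
        rcases mul_eq_zero.mp h2 with h3 | h3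
        · exact absurd h3 (offd_pos h1).ne'
        · exact h3
      · exact ext_of_le v (by omega)
    | succ i ih =>
      refine ⟨ih.2, ?_⟩
      by_cases h1 : i + 1 + 1 < n
      · have h := congrFun hv ⟨i + 1, by omega⟩
        rw [trid_mulVec] at h
        simp only [Pi.smul_apply, smul_eq_mul] at h
        have e1 : v ⟨i + 1, by omega⟩ = 0 := by
          rw [← ext_of_lt v (show i + 1 < n by omega)]
          exact ih.2
        rw [if_neg (by omega), Nat.add_sub_cancel, ih.1, e1] at h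
        have h2 : offd n (i + 1) * ext v (i + 1 + 1) = 0 := by linarith only [h]
        rcases mul_eq_zero.mp h2 with h3 | h3
        · exact absurd h3 (offd_pos h1).ne'
        · exact h3
      · exact ext_of_le v (by omega)
  ext i
  have := (key i).1
  rw [ext_val] at this
  exact this

lemma dot_self_nonneg {n : ℕ} (v : Fin n → ℝ) : 0 ≤ v ⬝ᵥ v :=
  Finset.sum_nonneg fun i _ => mul_self_nonneg (v i)

end Pool.Agent.H66.OneArm

end

section

/-!
# A trace inequality

If the vectors `u i` are nearly orthonormal and `H` is convex, then the sum of `H` over the squared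
distances of the eigenvalues of a symmetric matrix from `c` is at least about the sum of `H` over the
squared errors of the quasi-modes `u i`.
-/

open Matrix Finset

namespace Pool.Agent.H66.OneArm

variable {n : ℕ}

lemma dot_eq_inner (v w : EuclideanSpace ℝ (Fin n)) :
    inner ℝ v w = (v : Fin n → ℝ) ⬝ᵥ (w : Fin n → ℝ) := by
  rw [EuclideanSpace.inner_eq_star_dotProduct]
  simp [dotProduct_comm]

/-- Bessel inequality for nearly orthonormal vectors. -/
lemma bessel {ι : Type} [Fintype ι] [DecidableEq ι] (u : ι → Fin n → ℝ) {η : ℝ}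
    (h : ∀ i j, |u i ⬝ᵥ u j - (if i = j then 1 else 0)| ≤ η) (v : Fin n → ℝ) :
    ∑ i, (u i ⬝ᵥ v) ^ 2 ≤ (1 + η * Fintype.card ι) * (v ⬝ᵥ v) := by
  set c : ι → ℝ := fun i => u i ⬝ᵥ v with hc
  set S := ∑ i, c i ^ 2 with hS
  set y : Fin n → ℝ := ∑ i, c i • u i with hy
  have hS0 : 0 ≤ S := sum_nonneg fun i _ => sq_nonneg _
  have h1 : S = y ⬝ᵥ v := by
    rw [hy, sum_dotProduct]
    refine sum_congr rfl fun i _ => ?_
    rw [smul_dotProduct, smul_eq_mul, hc, sq]
  have h2 : y ⬝ᵥ y ≤ (1 + η * Fintype.card ι) * S := by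
    have h3 : y ⬝ᵥ y = ∑ i, ∑ j, c i * c j * (u i ⬝ᵥ u j) := by
      rw [hy, sum_dotProduct]
      refine sum_congr rfl fun i _ => ?_
      rw [smul_dotProduct, dotProduct_sum, smul_eq_mul, mul_sum]
      refine sum_congr rfl fun j _ => ?_
      rw [dotProduct_smul, smul_eq_mul]
      ring
    have h4 : ∀ i j, c i * c j * (u i ⬝ᵥ u j) ≤ (if i = j then c i ^ 2 else 0) +
        η * (|c i| * |c j|) := by
      intro i j
      have h5 := h i j
      have h6 : c i * c j * (u i ⬝ᵥ u j) = c i * c j * (u i ⬝ᵥ u j - (if i = j then 1 else 0)) +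
          (if i = j then c i ^ 2 else 0) := by
        split_ifs with hij
        · rw [hij]
          ring
        · ring
      rw [h6]
      have h7 : c i * c j * (u i ⬝ᵥ u j - (if i = j then 1 else 0)) ≤ η * (|c i| * |c j|) := by
        refine (le_abs_self _).trans ?_
        rw [abs_mul, abs_mul]
        have := mul_le_mul_of_nonneg_left h5 (mul_nonneg (abs_nonneg (c i)) (abs_nonneg (c j)))
        linarith only [this]
      linarith only [h7]
    rw [h3]
    calc ∑ i, ∑ j, c i * c j * (u i ⬝ᵥ u j)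
        ≤ ∑ i, ∑ j, ((if i = j then c i ^ 2 else 0) + η * (|c i| * |c j|)) :=
          sum_le_sum fun i _ => sum_le_sum fun j _ => h4 i j
      _ = S + η * (∑ i, |c i|) ^ 2 := by
          simp only [sum_add_distrib, sum_ite_eq, mem_univ, if_true]
          rw [hS]
          congr 1
          simp only [← mul_sum]
          rw [sq, sum_mul]
      _ ≤ S + η * (Fintype.card ι * S) := by
          have hη : 0 ≤ η ∨ IsEmpty ι := by
            by_cases he : IsEmpty ι
            · exact Or.inr he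
            · rw [not_isEmpty_iff] at he
              obtain ⟨i⟩ := he
              exact Or.inl ((abs_nonneg _).trans (h i i))
          rcases hη with hη | he
          · have h8 : (∑ i, |c i|) ^ 2 ≤ Fintype.card ι * S := by
              have := sq_sum_le_card_mul_sum_sq (s := (univ : Finset ι)) (f := fun i => |c i|)
              simpa [sq_abs] using this
            have := mul_le_mul_of_nonneg_left h8 hη
            linarith only [this]
          · simp
      _ = (1 + η * Fintype.card ι) * S := by ring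
  have h5 : (y ⬝ᵥ v) ^ 2 ≤ (y ⬝ᵥ y) * (v ⬝ᵥ v) := by
    have := sum_mul_sq_le_sq_mul_sq (univ : Finset (Fin n)) y v
    simp only [dotProduct]
    simpa only [sq] using this
  have hv0 : 0 ≤ v ⬝ᵥ v := sum_nonneg fun i _ => mul_self_nonneg _
  rcases eq_or_lt_of_le hS0 with h0 | h0
  · rw [← h0] at h2 ⊢
    have hy0 : 0 ≤ y ⬝ᵥ y := sum_nonneg fun i _ => mul_self_nonneg _
    by_cases he : IsEmpty ι
    · have : Fintype.card ι = 0 := Fintype.card_eq_zero
      rw [this]
      simpa using hv0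
    · rw [not_isEmpty_iff] at he
      obtain ⟨i⟩ := he
      have hη : 0 ≤ η := (abs_nonneg _).trans (h i i)
      positivity
  · have h6 : S ^ 2 ≤ (1 + η * Fintype.card ι) * S * (v ⬝ᵥ v) := by
      calc S ^ 2 = (y ⬝ᵥ v) ^ 2 := by rw [h1]
        _ ≤ (y ⬝ᵥ y) * (v ⬝ᵥ v) := h5
        _ ≤ (1 + η * Fintype.card ι) * S * (v ⬝ᵥ v) := mul_le_mul_of_nonneg_right h2 hv0
    have h7 : S * S ≤ S * ((1 + η * Fintype.card ι) * (v ⬝ᵥ v)) := by nlinarith only [h6]
    exact le_of_mul_le_mul_left h7 h0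

end Pool.Agent.H66.OneArm

end

section

/-!
# Spectral description of the Pascal matrix
-/

open Matrix Finset Real

namespace Pool.Agent.H66.OneArm

/-- The rescaled tridiagonal matrix. -/
noncomputable def TT (n : ℕ) : Matrix (Fin n) (Fin n) ℝ := ((n : ℝ) ^ 2)⁻¹ • trid n

lemma TT_herm (n : ℕ) : (TT n).IsHermitian := by
  unfold Matrix.IsHermitian
  rw [conjTranspose_eq_transpose_of_trivial]
  unfold TT
  rw [transpose_smul, (trid_isSymm n).eq]

/-- The eigenvectors. -/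
noncomputable def evec (n : ℕ) (k : Fin n) : Fin n → ℝ := ((TT_herm n).eigenvectorBasis k : Fin n → ℝ)

/-- The eigenvalues of the Pascal matrix. -/
noncomputable def lam (n : ℕ) (k : Fin n) : ℝ := (∑ j, evec n k j) / ext (evec n k) 0

noncomputable def mu (n : ℕ) (k : Fin n) : ℝ := log (lam n k)

lemma evec_ne_zero (n : ℕ) (k : Fin n) : evec n k ≠ 0 := by
  intro h
  have h1 := (TT_herm n).eigenvectorBasis.norm_eq_one k
  have h2 : ((TT_herm n).eigenvectorBasis k) = 0 := by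
    ext i
    exact congrFun h i
  rw [h2, norm_zero] at h1
  exact zero_ne_one h1

lemma TT_mulVec (n : ℕ) (k : Fin n) :
    TT n *ᵥ evec n k = (TT_herm n).eigenvalues k • evec n k :=
  (TT_herm n).mulVec_eigenvectorBasis k

lemma trid_mulVec_evec (n : ℕ) (k : Fin n) :
    trid n *ᵥ evec n k = ((n : ℝ) ^ 2 * (TT_herm n).eigenvalues k) • evec n k := by
  have hn : (n : ℝ) ^ 2 ≠ 0 := by
    have : 0 < n := Fin.pos k
    positivity
  have h := TT_mulVec n k
  have e : TT n *ᵥ evec n k = ((n : ℝ) ^ 2)⁻¹ • (trid n *ᵥ evec n k) := by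
    unfold TT
    rw [smul_mulVec]
  rw [← smul_smul, ← h, e, smul_smul, mul_inv_cancel₀ hn, one_smul]

/-- The matrix of eigenvectors. -/
noncomputable def UU (n : ℕ) : Matrix (Fin n) (Fin n) ℝ := fun i k => evec n k i

lemma UU_orth (n : ℕ) : (UU n)ᵀ * UU n = 1 := by
  ext i j
  rw [mul_apply]
  have h := orthonormal_iff_ite.mp (TT_herm n).eigenvectorBasis.orthonormal i j
  rw [dot_eq_inner] at h
  rw [one_apply]
  simp only [dotProduct] at h
  exact h

lemma det_UU_ne (n : ℕ) : (UU n).det ≠ 0 := by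
  intro h
  have h1 := congrArg det (UU_orth n)
  rw [det_mul, det_transpose, h, det_one, zero_mul] at h1
  exact zero_ne_one h1

end Pool.Agent.H66.OneArm

end

section

/-!
# A squeeze argument for sums over a spectrum
-/

set_option autoImplicit false

open Real Filter Topology

namespace Pool.Agent.H66.OneArm

/-- Geometry of the interval `[π / 3, 2 π / 3]`. -/
private lemma squeeze_sin_ge {t : ℝ} (h1 : π / 3 ≤ t) (h2 : t ≤ 2 * π / 3) : 1 / 2 ≤ sin t := by
  have hπ := Real.pi_pos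
  rcases le_total t (π / 2) with h | h
  · have : sin (π / 6) ≤ sin t :=
      Real.sin_le_sin_of_le_of_le_pi_div_two (by linarith only [hπ]) h (by linarith only [h1, hπ])
    rwa [Real.sin_pi_div_six] at this
  · have : sin (π / 6) ≤ sin (π - t) :=
      Real.sin_le_sin_of_le_of_le_pi_div_two (by linarith only [hπ]) (by linarith only [h]) (by linarith only [h2, hπ])
    rwa [Real.sin_pi_div_six, Real.sin_pi_sub] at this

private lemma squeeze_cos_ge {t : ℝ} (h1 : π / 3 ≤ t) (h2 : t ≤ 2 * π / 3) :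
    -(1 / 2) ≤ cos t := by
  have hπ := Real.pi_pos
  have h : cos (2 * π / 3) ≤ cos t :=
    Real.cos_le_cos_of_nonneg_of_le_pi (by linarith only [h1, hπ]) (by linarith only [hπ]) h2
  have e : cos (2 * π / 3) = -(1 / 2) := by
    have : 2 * π / 3 = π - π / 3 := by ring
    rw [this, Real.cos_pi_sub, Real.cos_pi_div_three]
  rwa [e] at h

/-- The elementary lower bound for the difference of cosines. -/
private lemma squeeze_cos_diff {s h : ℝ} (h1 : π / 3 ≤ s) (h2 : s ≤ 2 * π / 3) (hh : 0 < h)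
    (hh1 : h ≤ 1) : (h - 2 * h ^ 2) * sin s ≤ cos s - cos (s + h) := by
  have hs := squeeze_sin_ge h1 h2
  have hc := squeeze_cos_ge h1 h2
  rw [Real.cos_add]
  have f1 : 1 - h ^ 2 / 2 ≤ cos h := Real.one_sub_sq_div_two_le_cos
  have f2 : h - h ^ 3 / 4 < sin h := by
    have f0 := Real.sin_gt_sub_cube hh
    have f00 : 0 < h ^ 3 := by positivity
    linarith only [f0, f00]
  have f3 : cos h ≤ 1 := Real.cos_le_one h
  have g1 : -(sin s * (h ^ 2 / 2)) ≤ cos s * (1 - cos h) := by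
    have a1 : -(sin s) * (1 - cos h) ≤ cos s * (1 - cos h) :=
      mul_le_mul_of_nonneg_right (by linarith only [hs, hc]) (by linarith only [f3])
    have a2 : sin s * (1 - cos h) ≤ sin s * (h ^ 2 / 2) :=
      mul_le_mul_of_nonneg_left (by linarith only [f1]) (by linarith only [hs])
    linarith only [a1, a2]
  have g2 : sin s * (h - h ^ 3 / 4) ≤ sin s * sin h :=
    mul_le_mul_of_nonneg_left f2.le (by linarith only [hs])
  have g3 : (h - 2 * h ^ 2) * sin s ≤ sin s * (h - h ^ 3 / 4) - sin s * (h ^ 2 / 2) := by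
    have : 0 ≤ sin s * (h ^ 2 * (3 / 2 - h / 4)) := by
      apply mul_nonneg (by linarith only [hs])
      apply mul_nonneg (sq_nonneg h)
      linarith only [hh1]
    nlinarith only [this]
  have e : cos s - (cos s * cos h - sin s * sin h) = cos s * (1 - cos h) + sin s * sin h := by
    ring
  rw [e]
  linarith only [g1, g2, g3]

/-- The sum of logarithms. -/
private noncomputable def FF {κ : Type} [Fintype κ] (μ : κ → ℝ) (t : ℝ) : ℝ :=
  ∑ k, log (2 * cos t + 2 * cosh (μ k))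

private lemma squeeze_pos {t : ℝ} (h1 : π / 3 ≤ t) (h2 : t ≤ 2 * π / 3) (x : ℝ) :
    0 < cos t + cosh x := by
  have := squeeze_cos_ge h1 h2
  have := Real.one_le_cosh x
  linarith

/-- One step. -/
private lemma squeeze_step {κ : Type} [Fintype κ] (μ : κ → ℝ) {s h δ Lg : ℝ} (h1 : π / 3 ≤ s)
    (h2 : s + h ≤ 2 * π / 3) (hh : 0 < h) (hh1 : h ≤ 1 / 2) (hδ0 : 0 ≤ δ)
    (hδ1 : δ ≤ 1 / 4)
    (hL : 0 ≤ Lg)
    (hS : (3 * s / π ^ 2 - δ) * Lg ≤ ∑ k, sin s / (cos s + cosh (μ k))) :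
    (3 / (2 * π ^ 2) * ((s + h) ^ 2 - s ^ 2) - h * (δ + 2 * h)) * Lg ≤
      FF μ s - FF μ (s + h) := by
  have hπ := Real.pi_pos
  have hπ3 := Real.pi_gt_three
  have hπ4 := Real.pi_lt_four
  have hs2 : s ≤ 2 * π / 3 := by linarith only [h2, hh]
  have hs0 : 0 < s := by linarith only [h1, hh, hh1, hπ3]
  have hsin := squeeze_sin_ge h1 hs2
  have hcd := squeeze_cos_diff h1 hs2 hh (by linarith only [hh, hh1])
  have hκ0 : 0 ≤ (h - 2 * h ^ 2) * sin s := by
    apply mul_nonneg _ (by linarith only [hh, hh1, hsin])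
    nlinarith only [hh, hh1]
  -- termwise
  have hterm : ∀ k, (cos s - cos (s + h)) / sin s * (sin s / (cos s + cosh (μ k))) ≤
      log (2 * cos s + 2 * cosh (μ k)) - log (2 * cos (s + h) + 2 * cosh (μ k)) := by
    intro k
    have p1 := squeeze_pos h1 hs2 (μ k)
    have p2 := squeeze_pos (t := s + h) (by linarith only [h1, hh]) h2 (μ k)
    have hx : 0 < 2 * cos s + 2 * cosh (μ k) := by linarith only [p1]
    have hy : 0 < 2 * cos (s + h) + 2 * cosh (μ k) := by linarith only [p2]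
    have hlog := Real.log_le_sub_one_of_pos (div_pos hy hx)
    rw [Real.log_div hy.ne' hx.ne'] at hlog
    have e1 : (cos s - cos (s + h)) / sin s * (sin s / (cos s + cosh (μ k))) =
        1 - (2 * cos (s + h) + 2 * cosh (μ k)) / (2 * cos s + 2 * cosh (μ k)) := by
      have : sin s ≠ 0 := by linarith only [hh, hh1, hsin]
      field_simp
      ring
    rw [e1]
    linarith only [hlog]
  have hsum : (cos s - cos (s + h)) / sin s * ∑ k, sin s / (cos s + cosh (μ k)) ≤
      FF μ s - FF μ (s + h) := by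
    unfold FF
    rw [Finset.mul_sum, ← Finset.sum_sub_distrib]
    exact Finset.sum_le_sum fun k _ => hterm k
  have hκ : h - 2 * h ^ 2 ≤ (cos s - cos (s + h)) / sin s := by
    rw [le_div_iff₀ (by linarith only [hh, hh1, hsin])]
    exact hcd
  have hκ1 : 0 ≤ h - 2 * h ^ 2 := by nlinarith only [hh, hh1]
  have hden : 0 ≤ 3 * s / π ^ 2 - δ := by
    have : 1 / 4 ≤ 3 * s / π ^ 2 := by
      rw [div_le_div_iff₀ (by norm_num) (by positivity)]
      nlinarith only [h1, hπ4, h2, hh]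
    linarith only [hδ1, this]
  have hstep : (h - 2 * h ^ 2) * ((3 * s / π ^ 2 - δ) * Lg) ≤ FF μ s - FF μ (s + h) := by
    calc (h - 2 * h ^ 2) * ((3 * s / π ^ 2 - δ) * Lg)
        ≤ (cos s - cos (s + h)) / sin s * ((3 * s / π ^ 2 - δ) * Lg) :=
          mul_le_mul_of_nonneg_right hκ (mul_nonneg hden hL)
      _ ≤ (cos s - cos (s + h)) / sin s * ∑ k, sin s / (cos s + cosh (μ k)) :=
          mul_le_mul_of_nonneg_left hS (hκ1.trans hκ)
      _ ≤ _ := hsum
  refine le_trans ?_ hstep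
  rw [← mul_assoc]
  apply mul_le_mul_of_nonneg_right _ hL
  -- numeric comparison
  have hq : 0 < π ^ 2 := by positivity
  have e1 : 3 / (2 * π ^ 2) * ((s + h) ^ 2 - s ^ 2) = 3 * s / π ^ 2 * h + 3 / (2 * π ^ 2) * h ^ 2 := by
    field_simp
    ring
  have e2 : 3 / (2 * π ^ 2) ≤ 1 / 6 := by
    rw [div_le_div_iff₀ (by positivity) (by norm_num)]
    nlinarith only [hπ3, h1, h2, hh]
  have e3 : 3 * s / π ^ 2 ≤ 2 / 3 := by
    rw [div_le_div_iff₀ (by positivity) (by norm_num)]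
    nlinarith only [h2, hh1, hπ3, h1, hκ1, hh]
  have e4 : 3 / (2 * π ^ 2) * h ^ 2 ≤ 1 / 6 * h ^ 2 :=
    mul_le_mul_of_nonneg_right e2 (sq_nonneg h)
  have e5 : 3 * s / π ^ 2 * (2 * h ^ 2) ≤ 2 / 3 * (2 * h ^ 2) :=
    mul_le_mul_of_nonneg_right e3 (by positivity)
  have e6 : 0 ≤ δ * h ^ 2 := by positivity
  rw [e1]
  have key : (h - 2 * h ^ 2) * (3 * s / π ^ 2 - δ) = 3 * s / π ^ 2 * h - 3 * s / π ^ 2 * (2 * h ^ 2)
      - δ * h + 2 * (δ * h ^ 2) := by ring
  rw [key]
  nlinarith only [e4, e5, e6, sq_nonneg h]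

/-- The lower bound for the difference over an interval. -/
private lemma squeeze_lower {ι : ℕ → Type} [∀ n, Fintype (ι n)] (μ : ∀ n, ι n → ℝ)
    (hlow : ∀ t, 0 < t → t < π → ∀ ε > 0, ∀ᶠ n : ℕ in atTop,
      (3 * t / π ^ 2 - ε) * log n ≤ ∑ k, sin t / (cos t + cosh (μ n k)))
    {a b : ℝ} (ha : π / 3 ≤ a) (hab : a ≤ b) (hb : b ≤ 2 * π / 3) {ε : ℝ} (hε : 0 < ε) :
    ∀ᶠ n : ℕ in atTop, (3 / (2 * π ^ 2) * (b ^ 2 - a ^ 2) - ε) * log n ≤
      FF (μ n) a - FF (μ n) b := by
  have hπ := Real.pi_pos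
  have hπ4 := Real.pi_lt_four
  rcases hab.eq_or_lt with rfl | hlt
  · filter_upwards [eventually_ge_atTop 1] with n hn
    have : 0 ≤ log (n : ℝ) := Real.log_nonneg (by exact_mod_cast hn)
    nlinarith only [hε, this]
  -- the partition
  set D := b - a with hD
  have hD0 : 0 < D := by linarith only [hlt]
  have hD2 : D ≤ 2 := by linarith only [ha, hb, hπ4]
  obtain ⟨N, hN⟩ := exists_nat_gt (max (2 * D) (8 * D / ε))
  have hN1 : 2 * D < N := lt_of_le_of_lt (le_max_left _ _) hN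
  have hN2 : 8 * D / ε < N := lt_of_le_of_lt (le_max_right _ _) hN
  have hN0 : (0 : ℝ) < N := by linarith only [hlt, hN1]
  set h := D / N with hh
  have hh0 : 0 < h := by positivity
  have hh1 : h ≤ 1 / 2 := by
    rw [hh, div_le_div_iff₀ hN0 (by norm_num)]
    linarith only [hN1]
  have hh2 : h ≤ ε / 8 := by
    rw [hh, div_le_div_iff₀ hN0 (by norm_num)]
    rw [div_lt_iff₀ hε] at hN2
    linarith only [hN2]
  have hNh : N * h = D := by
    rw [hh]
    field_simp
  set δ := min (1 / 4) (ε / 4) with hδ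
  have hδ0 : 0 < δ := lt_min (by norm_num) (by linarith only [hh0, hh2])
  have hδ1 : δ ≤ 1 / 4 := min_le_left _ _
  have hδ2 : δ ≤ ε / 4 := min_le_right _ _
  have ht : ∀ i : ℕ, i < N → a + (i + 1 : ℕ) * h ≤ b := by
    intro i hi
    have : ((i + 1 : ℕ) : ℝ) ≤ N := by exact_mod_cast hi
    have := mul_le_mul_of_nonneg_right this hh0.le
    linarith only [hNh, this]
  have hev : ∀ᶠ n : ℕ in atTop, ∀ i ∈ Finset.range N,
      (3 * (a + i * h) / π ^ 2 - δ) * log n ≤
        ∑ k, sin (a + i * h) / (cos (a + i * h) + cosh (μ n k)) := by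
    rw [Filter.eventually_all_finset]
    intro i hi
    rw [Finset.mem_range] at hi
    have h1 : (0 : ℝ) ≤ i * h := by positivity
    have h2 := ht i hi
    push_cast at h2
    exact hlow (a + i * h) (by linarith only [ha, hπ, h1]) (by linarith only [ha, hb, hlt, hh0, h2]) δ hδ0
  filter_upwards [hev, eventually_ge_atTop 1] with n hn hn1
  have hL : 0 ≤ log (n : ℝ) := Real.log_nonneg (by exact_mod_cast hn1)
  have hstep : ∀ i ∈ Finset.range N,
      (3 / (2 * π ^ 2) * ((a + (i + 1 : ℕ) * h) ^ 2 - (a + i * h) ^ 2) - h * (δ + 2 * h)) *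
        log n ≤ FF (μ n) (a + i * h) - FF (μ n) (a + (i + 1 : ℕ) * h) := by
    intro i hi
    have hi' := Finset.mem_range.1 hi
    have h1 : (0 : ℝ) ≤ i * h := by positivity
    have h2 := ht i hi'
    have e : a + ((i + 1 : ℕ) : ℝ) * h = a + i * h + h := by push_cast; ring
    rw [e] at h2 ⊢
    exact squeeze_step (μ n) (by linarith only [ha, h1]) (by linarith only [hb, h2]) hh0 hh1 hδ0.le hδ1 hL (hn i hi)
  have hsum := Finset.sum_le_sum hstep
  rw [← Finset.sum_mul, Finset.sum_range_sub' (fun i : ℕ => FF (μ n) (a + i * h)),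
    Finset.sum_sub_distrib, ← Finset.mul_sum,
    Finset.sum_range_sub (fun i : ℕ => (a + i * h) ^ 2)] at hsum
  simp only [Nat.cast_zero, zero_mul, add_zero, Finset.sum_const, Finset.card_range,
    nsmul_eq_mul] at hsum
  have e1 : a + (N : ℝ) * h = b := by rw [hNh, hD]; ring
  rw [e1] at hsum
  refine le_trans ?_ hsum
  apply mul_le_mul_of_nonneg_right _ hL
  have e2 : (N : ℝ) * (h * (δ + 2 * h)) = D * (δ + 2 * h) := by rw [← mul_assoc, hNh]
  rw [e2]
  have e3 : D * (δ + 2 * h) ≤ 2 * (ε / 4 + 2 * (ε / 8)) := by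
    apply mul_le_mul hD2 (by linarith only [hh2, hδ2]) (by positivity) (by norm_num)
  linarith only [e3]

/-- The difference of the sums of logarithms as a sum of logarithms of quotients. -/
private lemma squeeze_FF_sub {κ : Type} [Fintype κ] (μ : κ → ℝ) {a b : ℝ} (ha : π / 3 ≤ a)
    (ha' : a ≤ 2 * π / 3) (hb : π / 3 ≤ b) (hb' : b ≤ 2 * π / 3) :
    ∑ k, log ((2 * cos a + 2 * cosh (μ k)) / (2 * cos b + 2 * cosh (μ k))) =
      FF μ a - FF μ b := by
  unfold FF
  rw [← Finset.sum_sub_distrib]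
  refine Finset.sum_congr rfl fun k _ => ?_
  have p1 := squeeze_pos ha ha' (μ k)
  have p2 := squeeze_pos hb hb' (μ k)
  rw [Real.log_div (by linarith only [p1]) (by linarith only [p2])]

theorem squeeze {ν : ℕ → ℕ} (hν : Tendsto ν atTop atTop) {ι : ℕ → Type} [∀ n, Fintype (ι n)] (μ : ∀ n, ι n → ℝ)
    (hlow : ∀ t, 0 < t → t < π → ∀ ε > 0, ∀ᶠ n : ℕ in atTop, (3 * t / π ^ 2 - ε) * log n ≤ ∑ k, sin t / (cos t + cosh (μ n k)))
    (htot : Tendsto (fun m => (∑ k, log ((1 + 2 * cosh (μ (ν m) k)) / (-1 + 2 * cosh (μ (ν m) k)))) / log (ν m)) atTop (𝓝 (1 / 2)))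
    {θ : ℝ} (hθ : π / 3 ≤ θ) (hθ' : θ ≤ 2 * π / 3) :
    Tendsto (fun m => (∑ k, log ((1 + 2 * cosh (μ (ν m) k)) / (2 * cos θ + 2 * cosh (μ (ν m) k)))) / log (ν m)) atTop (𝓝 (3 / (2 * π ^ 2) * (θ ^ 2 - π ^ 2 / 9))) := by
  have hπ := Real.pi_pos
  have c1 : (1 : ℝ) = 2 * cos (π / 3) := by rw [Real.cos_pi_div_three]; norm_num
  have c2 : (-1 : ℝ) = 2 * cos (2 * π / 3) := by
    have : 2 * π / 3 = π - π / 3 := by ring
    rw [this, Real.cos_pi_sub, Real.cos_pi_div_three]
    norm_num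
  have A0 : π / 3 ≤ π / 3 := le_rfl
  have A1 : π / 3 ≤ 2 * π / 3 := by linarith only [hπ]
  have A2 : 2 * π / 3 ≤ 2 * π / 3 := le_rfl
  have E1 : ∀ n : ℕ, ∑ k, log ((1 + 2 * cosh (μ n k)) / (-1 + 2 * cosh (μ n k))) =
      FF (μ n) (π / 3) - FF (μ n) (2 * π / 3) := by
    intro n
    rw [← squeeze_FF_sub (μ n) A0 A1 A1 A2, ← c1, ← c2]
  have E2 : ∀ n : ℕ, ∑ k, log ((1 + 2 * cosh (μ n k)) / (2 * cos θ + 2 * cosh (μ n k))) =
      FF (μ n) (π / 3) - FF (μ n) θ := by
    intro n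
    rw [← squeeze_FF_sub (μ n) A0 A1 hθ hθ', ← c1]
  simp only [E1] at htot
  simp only [E2]
  rw [Metric.tendsto_atTop] at htot ⊢
  intro ε hε
  obtain ⟨N1, hN1⟩ := htot (ε / 4) (by linarith only [hε])
  have L1 := hν.eventually (squeeze_lower μ hlow A0 hθ hθ' (ε := ε / 4) (by linarith only [hε]))
  have L2 := hν.eventually (squeeze_lower μ hlow hθ hθ' A2 (ε := ε / 4) (by linarith only [hε]))
  have L3 := hν.eventually (eventually_ge_atTop 2)
  obtain ⟨N2, hN2⟩ := ((L1.and L2).and L3).exists_forall_of_atTop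
  refine ⟨max N1 N2, fun m hm => ?_⟩
  have h1 := hN1 m ((le_max_left _ _).trans hm)
  obtain ⟨⟨h2, h3⟩, h4⟩ := hN2 m ((le_max_right _ _).trans hm)
  have hlog : 0 < log (ν m : ℝ) := Real.log_pos (by exact_mod_cast h4)
  rw [Real.dist_eq, abs_lt] at h1 ⊢
  set X := FF (μ (ν m)) (π / 3)
  set Y := FF (μ (ν m)) θ
  set Z := FF (μ (ν m)) (2 * π / 3)
  have e1 : (X - Z) / log (ν m : ℝ) = (X - Y) / log (ν m : ℝ) + (Y - Z) / log (ν m : ℝ) := by
    rw [← add_div]; congr 1; ring
  have f2 := (le_div_iff₀ hlog).2 h2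
  have f3 := (le_div_iff₀ hlog).2 h3
  have e2 : 3 / (2 * π ^ 2) * ((2 * π / 3) ^ 2 - θ ^ 2) =
      1 / 2 - 3 / (2 * π ^ 2) * (θ ^ 2 - π ^ 2 / 9) := by
    field_simp
    ring
  have e3 : 3 / (2 * π ^ 2) * (θ ^ 2 - (π / 3) ^ 2) = 3 / (2 * π ^ 2) * (θ ^ 2 - π ^ 2 / 9) := by
    ring
  rw [e2] at f3
  rw [e3] at f2
  rw [e1] at h1
  obtain ⟨h5, h6⟩ := h1
  constructor <;> linarith only [hε, f2, f3, h6]

end Pool.Agent.H66.OneArm

end
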