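import Pool.Agent.H94.BG.H31.PT.M02_1
import Pool.Agent.H94.BG.H31.PT.M31_1
import Pool.Agent.H94.BG.M03

/-! The parts of this file: H89.Perc.SimonLieb, H89.Perc.TorusReveal, H89.Perc.TorusVar, H89.Perc.WindBounds, H89.Perc.TorusThreshold, H89.Perc.Final, H93.EX.Basic, H93.EX.Hom1, H93.EX.Hom2, H93.EX.Deg, H93.EX.Uniq, H93.EX.Step, H93.EX.Induct, H93.EX.Hom3, H93.EX.Hom4, H93.EX.Asm, H15.Exact.Bil, H15.Exact.QP, H15.Exact.Rel, H15.Exact.Biv, H15.Exact.Top, H15.Exact.TopG, H15.Exact.Two, H15.Exact.GPoly, H15.Exact.Real, H15.Exact.Final. -/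

section

/-!
# The Simon-Lieb inequality for one-arm probabilities
-/

open MeasureTheory ProbabilityTheory unitInterval

namespace Pool.Agent.H89.Perc

def slW (s : ℕ) (i : Fin 4 × ℤ) : Vert :=
  if i.1 = 0 then (s, i.2) else if i.1 = 1 then (-s, i.2) else if i.1 = 2 then (i.2, s)
    else (i.2, -s)

end Pool.Agent.H89.Perc

end

section

/-!
# Queried edges have a primal arm and a dual arm
-/

open MeasureTheory ProbabilityTheory unitInterval

namespace Pool.Agent.H89.Perc

end Pool.Agent.H89.Perc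

end

section

/-!
# The OSSS inequality for the winding event
-/

open MeasureTheory ProbabilityTheory unitInterval

namespace Pool.Agent.H89.Perc

/-- The weight of a coordinate at distance `n` from the boundary. -/
noncomputable def gW (q : I) : ℕ → ℝ
  | 0 => 1
  | n + 1 => 4 * (arm q n * arm (σ q) n)

end Pool.Agent.H89.Perc

end

section

/-!
# Lower and upper bounds for the probability of the winding event
-/

open MeasureTheory ProbabilityTheory unitInterval

namespace Pool.Agent.H89.Perc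

/-- The event that `u` and `v` are joined inside a rectangle. -/
def wbE (a b c d : ℤ) (u v : Vert) : Set Config := {ω | Conn ω (rect a b c d) u v}

lemma wbE_local (a b c d : ℤ) (u v : Vert) : LocalOn (eRect a b c d) (wbE a b c d u v) :=
  localOn_conn u v

private lemma wb_reflX_inj (z : ℤ) : Function.Injective (reflX z) := by
  rintro ⟨x, y, b⟩ ⟨x', y', b'⟩ h
  cases b <;> cases b' <;> simp [reflX] at h ⊢ <;> omega

private lemma wb_reflY_inj (z : ℤ) : Function.Injective (reflY z) := by
  rintro ⟨x, y, b⟩ ⟨x', y', b'⟩ h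
  cases b <;> cases b' <;> simp [reflY] at h ⊢ <;> omega

lemma wb_swap_inj : Function.Injective swapE := by
  rintro ⟨x, y, b⟩ ⟨x', y', b'⟩ h
  cases b <;> cases b' <;> simp [swapE] at h ⊢ <;> omega

lemma wb_reflX (q : I) (z a b c d x1 y1 x2 y2 : ℤ) :
    Pr q (wbE (z - b) (z - a) c d (z - x1, y1) (z - x2, y2)) =
      Pr q (wbE a b c d (x1, y1) (x2, y2)) := by
  rw [← Pr_comp (wbE_local a b c d (x1, y1) (x2, y2)) (wb_reflX_inj z).injOn]
  congr 1
  ext ω
  change _ ↔ Conn (fun e => ω (reflX z e)) (rect a b c d) (x1, y1) (x2, y2)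
  rw [conn_reflX]
  have : {w : Vert | (z - w.1, w.2) ∈ rect a b c d} = rect (z - b) (z - a) c d := by
    ext w
    simp only [rect, Set.mem_ofPred_eq]
    omega
  rw [this]
  rfl

lemma wb_reflY (q : I) (z a b c d x1 y1 x2 y2 : ℤ) :
    Pr q (wbE a b (z - d) (z - c) (x1, z - y1) (x2, z - y2)) =
      Pr q (wbE a b c d (x1, y1) (x2, y2)) := by
  rw [← Pr_comp (wbE_local a b c d (x1, y1) (x2, y2)) (wb_reflY_inj z).injOn]
  congr 1
  ext ω
  change _ ↔ Conn (fun e => ω (reflY z e)) (rect a b c d) (x1, y1) (x2, y2)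
  rw [conn_reflY]
  have : {w : Vert | (w.1, z - w.2) ∈ rect a b c d} = rect a b (z - d) (z - c) := by
    ext w
    simp only [rect, Set.mem_ofPred_eq]
    omega
  rw [this]
  rfl

/-- Probability that the origin is joined to `(r, y)` in the ball. -/
noncomputable def wbg (q : I) (r : ℕ) (y : ℤ) : ℝ :=
  Pr q (wbE (-r) r (-r) r (0, 0) (r, y))

lemma wbg_left (q : I) (r : ℕ) (y : ℤ) :
    Pr q (wbE (-r) r (-r) r (0, 0) (-r, y)) = wbg q r y := by
  have := wb_reflX q 0 (-r) r (-r) r 0 0 r y
  simpa [wbg] using this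

def wbv (r : ℕ) (i : Fin 4 × ℤ) : Vert :=
  if i.1 = 0 then ((r : ℤ), i.2) else if i.1 = 1 then (-(r : ℤ), -i.2) else
    if i.1 = 2 then (-i.2, (r : ℤ)) else (i.2, -(r : ℤ))

private lemma wbv_zero (r : ℕ) (t : ℤ) : wbv r (0, t) = ((r : ℤ), t) := rfl
private lemma wbv_one (r : ℕ) (t : ℤ) : wbv r (1, t) = (-(r : ℤ), -t) := rfl
private lemma wbv_two (r : ℕ) (t : ℤ) : wbv r (2, t) = (-t, (r : ℤ)) := rfl
private lemma wbv_three (r : ℕ) (t : ℤ) : wbv r (3, t) = (t, -(r : ℤ)) := rfl

lemma wb_arm_incl {r : ℕ} (hr : 1 ≤ r) {ω : Config} (hω : ω ∈ Arm 0 r) :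
    ∃ i ∈ (Finset.univ : Finset (Fin 4)) ×ˢ Finset.Icc (-(r : ℤ)) (r - 1),
      ω ∈ wbE (-r) r (-r) r (0, 0) (wbv r i) := by
  obtain ⟨⟨x, y⟩, ⟨hb, hs⟩, hc⟩ := hω
  have hball : ball 0 r = rect (-r) r (-r) r := by
    ext w
    have h0 : ((0 : Vert).1) = 0 := rfl
    have h1 : ((0 : Vert).2) = 0 := rfl
    simp only [mem_ball, rect, Set.mem_ofPred_eq, h0, h1]
    omega
  rw [hball] at hc
  have h0 : ((0 : Vert).1) = 0 := rfl
  have h1 : ((0 : Vert).2) = 0 := rfl
  simp only [mem_ball, h0, h1] at hb hs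
  have hcase : (x = r ∧ y < r) ∨ (x = -r ∧ -r < y) ∨ (y = r ∧ -r < x) ∨ (y = -r ∧ x < r) := by
    omega
  rcases hcase with ⟨hx, hy⟩ | ⟨hx, hy⟩ | ⟨hy, hx⟩ | ⟨hy, hx⟩
  · refine ⟨(0, y), ?_, ?_⟩
    · simp only [Finset.mem_product, Finset.mem_univ, true_and, Finset.mem_Icc]; omega
    · have e : wbv r (0, y) = (x, y) := by rw [wbv_zero, hx]
      rw [e]; exact hc
  · refine ⟨(1, -y), ?_, ?_⟩
    · simp only [Finset.mem_product, Finset.mem_univ, true_and, Finset.mem_Icc]; omega
    · have e : wbv r (1, -y) = (x, y) := by rw [wbv_one, hx, neg_neg]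
      rw [e]; exact hc
  · refine ⟨(2, -x), ?_, ?_⟩
    · simp only [Finset.mem_product, Finset.mem_univ, true_and, Finset.mem_Icc]; omega
    · have e : wbv r (2, -x) = (x, y) := by rw [wbv_two, hy, neg_neg]
      rw [e]; exact hc
  · refine ⟨(3, x), ?_, ?_⟩
    · simp only [Finset.mem_product, Finset.mem_univ, true_and, Finset.mem_Icc]; omega
    · have e : wbv r (3, x) = (x, y) := by rw [wbv_three, hy]
      rw [e]; exact hc

/-! ### The torus -/

end Pool.Agent.H89.Perc

end

section

/-!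
# Consequence of the threshold inequality
-/

open MeasureTheory ProbabilityTheory unitInterval

namespace Pool.Agent.H89.Perc

end Pool.Agent.H89.Perc

end

section

/-!
# Lower bound for the percolation probability
-/

open MeasureTheory ProbabilityTheory unitInterval Filter Topology

namespace Pool.Agent.H89.Perc

end Pool.Agent.H89.Perc

end

section

/-! EXACT project, one-arm formula, pure algebra part (helper93). -/

namespace EX93

open Finset Polynomial

variable {R : Type*} [CommRing R]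

/-- local pair factor -/
def hh (q : R) : Bool → Bool → R → R → R
  | true, true, x, y => y ^ 3 - x ^ 3
  | false, false, x, y => y ^ 3 - x ^ 3
  | true, false, x, y => -(x - q * y) ^ 3
  | false, true, x, y => (y - q * x) ^ 3

lemma hh_anti (q : R) (a b : Bool) (x y : R) : hh q a b x y = - hh q b a y x := by
  cases a <;> cases b <;> simp [hh]

/-- weight of a colouring -/
def wt (ω : R) {m : ℕ} (s : Fin m → Bool) : R := ∏ i, if s i then ω else 1

/-- the product over pairs -/
def pp (q : R) {m : ℕ} (s : Fin m → Bool) (z : Fin m → R) : R :=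
  ∏ i, ∏ j ∈ Ioi i, hh q (s i) (s j) (z i) (z j)

/-- numerator of the symmetric function -/
def QQ (q ω : R) (m : ℕ) (z : Fin m → R) : R :=
  ∑ s : Fin m → Bool, wt ω s * pp q s z

/-- Vandermonde product -/
def VV (m : ℕ) (z : Fin m → R) : R := ∏ i, ∏ j ∈ Ioi i, (z j - z i)

lemma wt_perm (ω : R) {m : ℕ} (s : Fin m → Bool) (σ : Equiv.Perm (Fin m)) :
    wt ω (s ∘ σ) = wt ω s := by
  unfold wt
  exact Equiv.prod_comp σ (fun i => if s i then ω else 1)

lemma pp_perm (q : R) {m : ℕ} (s : Fin m → Bool) (z : Fin m → R) (σ : Equiv.Perm (Fin m)) :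
    pp q (s ∘ σ) (z ∘ σ) = (Equiv.Perm.sign σ : ℤ) * pp q s z := by
  unfold pp
  have := σ.prod_Ioi_comp_eq_sign_mul_prod (R := R)
    (f := fun i j => hh q (s i) (s j) (z i) (z j)) (fun i j => hh_anti q _ _ _ _)
  simpa using this

lemma QQ_perm (q ω : R) {m : ℕ} (z : Fin m → R) (σ : Equiv.Perm (Fin m)) :
    QQ q ω m (z ∘ σ) = (Equiv.Perm.sign σ : ℤ) * QQ q ω m z := by
  unfold QQ
  rw [Finset.mul_sum]
  have e : (Fin m → Bool) ≃ (Fin m → Bool) := Equiv.arrowCongr σ.symm (Equiv.refl _)
  refine Fintype.sum_equiv (Equiv.arrowCongr σ (Equiv.refl Bool)) _ _ (fun s => ?_)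
  have h1 : wt ω ((Equiv.arrowCongr σ (Equiv.refl Bool)) s) = wt ω s := by
    have := wt_perm ω ((Equiv.arrowCongr σ (Equiv.refl Bool)) s) σ
    rw [← this]
    congr 1
    funext i
    simp [Equiv.arrowCongr]
  have h2 : pp q s (z ∘ σ) = (Equiv.Perm.sign σ : ℤ) *
      pp q ((Equiv.arrowCongr σ (Equiv.refl Bool)) s) z := by
    rw [← pp_perm]
    congr 1
    funext i
    simp [Equiv.arrowCongr]
  rw [h1, h2]
  ring

lemma VV_perm {m : ℕ} (z : Fin m → R) (σ : Equiv.Perm (Fin m)) :
    VV m (z ∘ σ) = (Equiv.Perm.sign σ : ℤ) * VV m z := by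
  unfold VV
  have := σ.prod_Ioi_comp_eq_sign_mul_prod (R := R)
    (f := fun i j => z j - z i) (fun i j => by ring)
  simpa using this

lemma pp_cons (q : R) {m : ℕ} (b : Bool) (s : Fin m → Bool) (x : R) (z : Fin m → R) :
    pp q (Fin.cons b s : Fin (m + 1) → Bool) (Fin.cons x z : Fin (m + 1) → R)
      = (∏ j, hh q b (s j) x (z j)) * pp q s z := by
  unfold pp
  rw [Fin.prod_univ_succ, Fin.prod_Ioi_zero]
  simp [Fin.prod_Ioi_succ]

lemma VV_cons {m : ℕ} (x : R) (z : Fin m → R) :
    VV (m + 1) (Fin.cons x z : Fin (m + 1) → R) = (∏ j, (z j - x)) * VV m z := by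
  unfold VV
  rw [Fin.prod_univ_succ, Fin.prod_Ioi_zero]
  simp [Fin.prod_Ioi_succ]

lemma wt_cons (ω : R) {m : ℕ} (b : Bool) (s : Fin m → Bool) :
    wt ω (Fin.cons b s : Fin (m + 1) → Bool) = (if b then ω else 1) * wt ω s := by
  unfold wt
  rw [Fin.prod_univ_succ]
  simp

lemma sum_cons {m : ℕ} (f : (Fin (m + 1) → Bool) → R) :
    ∑ s : Fin (m + 1) → Bool, f s = ∑ s : Fin m → Bool,
      (f (Fin.cons true s) + f (Fin.cons false s)) := by
  have : ∑ s : Fin (m + 1) → Bool, f s
      = ∑ p : Bool × (Fin m → Bool), f (Fin.cons p.1 p.2) := by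
    refine (Fintype.sum_equiv (Fin.consEquiv (fun _ => Bool)) _ _ (fun p => ?_)).symm
    rfl
  rw [this, Fintype.sum_prod_type]
  simp only [Fintype.sum_bool]
  rw [← Finset.sum_add_distrib]

lemma QQ_cons (q ω : R) {m : ℕ} (x : R) (z : Fin m → R) :
    QQ q ω (m + 1) (Fin.cons x z : Fin (m + 1) → R) = ∑ s : Fin m → Bool,
      wt ω s * (ω * (∏ j, hh q true (s j) x (z j)) + ∏ j, hh q false (s j) x (z j)) * pp q s z := by
  unfold QQ
  rw [sum_cons]
  refine Finset.sum_congr rfl fun s _ => ?_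
  rw [wt_cons, wt_cons, pp_cons, pp_cons]
  simp
  ring

/-- the wheel recursion for the numerator -/
lemma QQ_wheel (q ω : R) (hq : q ^ 2 + q + 1 = 0) {m : ℕ} (w : R) (z : Fin m → R) :
    QQ q ω (m + 2) (Fin.cons (q ^ 2 * w) (Fin.cons w z : Fin (m + 1) → R) : Fin (m + 2) → R)
      = -(q ^ 2 - q) ^ 3 * w ^ 3 * ω *
        (∏ j, ((z j - w) * (z j - q ^ 2 * w) * (z j - q * w) ^ 4)) * QQ q ω m z := by
  have q3 : q ^ 3 = 1 := by linear_combination (q - 1) * hq
  unfold QQ
  rw [sum_cons, sum_cons, Finset.mul_sum]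
  refine Finset.sum_congr rfl fun s _ => ?_
  simp only [wt_cons, pp_cons]
  rw [Fin.prod_univ_succ, Fin.prod_univ_succ, Fin.prod_univ_succ, Fin.prod_univ_succ]
  simp only [Fin.cons_zero, Fin.cons_succ]
  have h1 : hh q true true (q ^ 2 * w) w = 0 := by
    simp only [hh]; linear_combination (-(q^3+1) * w^3) * q3
  have h2 : hh q false false (q ^ 2 * w) w = 0 := by
    simp only [hh]; linear_combination (-(q^3+1) * w^3) * q3
  have h3 : hh q false true (q ^ 2 * w) w = 0 := by
    simp only [hh]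
    have : w - q * (q ^ 2 * w) = 0 := by linear_combination (-w) * q3
    rw [this]; ring
  have h4 : hh q true false (q ^ 2 * w) w = -(q ^ 2 - q) ^ 3 * w ^ 3 := by
    simp only [hh]; ring
  rw [h1, h2, h3, h4]
  have key : (∏ j, hh q true (s j) (q ^ 2 * w) (z j)) * (∏ j, hh q false (s j) w (z j))
      = ∏ j, ((z j - w) * (z j - q ^ 2 * w) * (z j - q * w) ^ 4) := by
    rw [← Finset.prod_mul_distrib]
    refine Finset.prod_congr rfl fun j _ => ?_
    have e1 : (z j) ^ 3 - w ^ 3 = (z j - w) * (z j - q ^ 2 * w) * (z j - q * w) := by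
      linear_combination ((z j - w) * z j * w) * hq - ((z j - w) * w ^ 2) * q3
    cases s j
    · have a1 : hh q true false (q ^ 2 * w) (z j) = (z j - q * w) ^ 3 := by
        simp only [hh]
        linear_combination (z j - q * w) ^ 3 * q3
      have a2 : hh q false false w (z j) = (z j - w) * (z j - q ^ 2 * w) * (z j - q * w) := by
        simp only [hh]; rw [e1]
      rw [a1, a2]; ring
    · have a1 : hh q true true (q ^ 2 * w) (z j) =
          (z j - w) * (z j - q ^ 2 * w) * (z j - q * w) := by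
        simp only [hh]; rw [← e1]
        linear_combination (-(q ^ 3 + 1) * w ^ 3) * q3
      have a2 : hh q false true w (z j) = (z j - q * w) ^ 3 := by
        simp only [hh]
      rw [a1, a2]; ring
  rw [← key]
  simp only [Bool.false_eq_true, if_true, if_false]
  ring

/-- the wheel factor of the Vandermonde product -/
lemma VV_wheel (q : R) {m : ℕ} (w : R) (z : Fin m → R) :
    VV (m + 2) (Fin.cons (q ^ 2 * w) (Fin.cons w z : Fin (m + 1) → R) : Fin (m + 2) → R)
      = (1 - q ^ 2) * w * (∏ j, ((z j - w) * (z j - q ^ 2 * w))) * VV m z := by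
  rw [VV_cons, VV_cons, Fin.prod_univ_succ]
  simp only [Fin.cons_zero, Fin.cons_succ, Finset.prod_mul_distrib]
  ring

end EX93

end

section

namespace EX93

open Finset Polynomial Matrix

section
variable {R : Type*} [CommRing R] {L : ℕ}

/-- bilinear kernel -/
def gg (x y : R) : R := 1 - y + x * y

end

section
variable {L : ℕ}

end

end EX93

end

section

namespace EX93

open Finset Polynomial Matrix

section
variable {R : Type*} [CommRing R] {L : ℕ}

noncomputable def bpol (x : Fin L → R) : R[X] := ∏ l, gg (C (x l)) X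
noncomputable def cpol (x : Fin L → R) : R[X] := ∏ l, gg X (C (x l))
noncomputable def Apol (x : Fin L → R) : R[X] := ∏ l, (X - C (x l))

noncomputable def rpol (ω : R) (x : Fin L → R) (k : Fin L) : R[X] :=
  C ω * bpol x * X ^ (k : ℕ) + cpol x * (1 - X) ^ (k.rev : ℕ)

/-- the matrix with polynomial entries -/
noncomputable def NN (ω : R) (x : Fin L → R) : Matrix (Fin L) (Fin L) R :=
  Matrix.of fun i k => (rpol ω x k %ₘ Apol x).coeff i

lemma Apol_monic (x : Fin L → R) : (Apol x).Monic :=
  monic_prod_of_monic _ _ (fun _ _ => monic_X_sub_C _)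

/-- the symmetric Pascal matrix -/
def pasc (R : Type*) [CommRing R] (L : ℕ) : Matrix (Fin L) (Fin L) R :=
  Matrix.of fun i j => ((Nat.choose ((i : ℕ) + j) i : ℕ) : R)

/-- unitriangular factor -/
noncomputable def UU (R : Type*) [CommRing R] (L : ℕ) : Matrix (Fin L) (Fin L) R :=
  Matrix.of fun i j => ((1 - X : R[X]) ^ L * X ^ (j : ℕ)).coeff i

lemma det_UU : (UU R L).det = 1 := by
  have h : (UU R L).BlockTriangular OrderDual.toDual := by
    intro i j hij
    have hij' : i < j := hij
    simp only [UU, Matrix.of_apply]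
    rw [coeff_mul_X_pow', if_neg (by simpa using hij')]
  rw [Matrix.det_of_isLowerTriangular _ h]
  refine Finset.prod_eq_one fun i _ => ?_
  simp only [UU, Matrix.of_apply]
  rw [coeff_mul_X_pow', if_pos le_rfl, Nat.sub_self, coeff_zero_eq_eval_zero]
  simp

end

end EX93

end

section

namespace EX93

open Finset Polynomial

variable {R : Type*} [CommRing R]

lemma natDegree_hh_le (q z : R) (a b : Bool) :
    (hh (C q) a b X (C z : R[X])).natDegree ≤ 3 := by
  cases a <;> cases b <;> simp only [hh] <;> compute_degree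

lemma coeff3_aux (a b c d : R) :
    (C a - C b * X + C c * X ^ 2 - C d * X ^ 3 : R[X]).coeff 3 = -d := by
  simp only [coeff_sub, coeff_add, coeff_C_mul, coeff_X, coeff_X_pow, coeff_C]
  norm_num

lemma coeff_hh (q : R) (hq : q ^ 3 = 1) (z : R) (a b : Bool) :
    (hh (C q) a b X (C z : R[X])).coeff 3 = -1 := by
  have h3 : (C (3 : R) : R[X]) = 3 := by exact map_ofNat C 3
  have e0 : (C z : R[X]) ^ 3 - X ^ 3 = C (z ^ 3) - C 0 * X + C 0 * X ^ 2 - C 1 * X ^ 3 := by
    simp
  cases a <;> cases b <;> simp only [hh]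
  · rw [e0, coeff3_aux]
  · have : ((C z : R[X]) - C q * X) ^ 3
        = C (z ^ 3) - C (3 * z ^ 2 * q) * X + C (3 * z * q ^ 2) * X ^ 2 - C (q ^ 3) * X ^ 3 := by
      simp only [map_pow, map_mul]
      rw [h3]; ring
    rw [this, hq, coeff3_aux]
  · have : -((X : R[X]) - C q * C z) ^ 3
        = C (q ^ 3 * z ^ 3) - C (3 * z ^ 2 * q ^ 2) * X + C (3 * z * q) * X ^ 2 - C 1 * X ^ 3 := by
      simp only [map_pow, map_mul, map_one]
      rw [h3]; ring
    rw [this, coeff3_aux]
  · rw [e0, coeff3_aux]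

lemma natDegree_prod_hh_le (q : R) {m : ℕ} (z : Fin m → R) (a : Bool) (s : Fin m → Bool) :
    (∏ j, hh (C q) a (s j) X (C (z j) : R[X])).natDegree ≤ 3 * m := by
  refine (natDegree_prod_le _ _).trans ?_
  refine (Finset.sum_le_sum (fun j _ => natDegree_hh_le q (z j) a (s j))).trans ?_
  simp [mul_comm]

lemma coeff_prod_hh (q : R) (hq : q ^ 3 = 1) {m : ℕ} (z : Fin m → R) (a : Bool)
    (s : Fin m → Bool) :
    (∏ j, hh (C q) a (s j) X (C (z j) : R[X])).coeff (3 * m) = (-1) ^ m := by
  have := coeff_prod_of_natDegree_le (s := (Finset.univ : Finset (Fin m)))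
    (fun j => hh (C q) a (s j) X (C (z j) : R[X])) 3
    (fun j _ => natDegree_hh_le q (z j) a (s j))
  simp only [Finset.card_univ, Fintype.card_fin] at this
  rw [mul_comm 3 m, this]
  simp [coeff_hh q hq]

/-- the numerator as a polynomial in its first variable -/
lemma natDegree_QQ_le (q ω : R) {m : ℕ} (z : Fin m → R) :
    (QQ (C q) (C ω) (m + 1) (Fin.cons X (fun j => C (z j)) : Fin (m + 1) → R[X])).natDegree
      ≤ 3 * m := by
  rw [QQ_cons]
  refine natDegree_sum_le_of_forall_le _ _ (fun s _ => ?_)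
  have hw : wt (C ω : R[X]) s = C (wt ω s) := by
    unfold wt; rw [map_prod]
    refine Finset.prod_congr rfl fun i _ => ?_
    split_ifs <;> simp
  have hp : pp (C q : R[X]) s (fun j => C (z j)) = C (pp q s z) := by
    unfold pp; rw [map_prod]
    refine Finset.prod_congr rfl fun i _ => ?_
    rw [map_prod]
    refine Finset.prod_congr rfl fun j _ => ?_
    cases s i <;> cases s j <;> simp [hh]
  rw [hw, hp]
  refine (natDegree_mul_C_le _ _).trans ?_
  refine (natDegree_C_mul_le _ _).trans ?_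
  refine (natDegree_add_le _ _).trans ?_
  refine max_le ?_ (natDegree_prod_hh_le q z false s)
  exact (natDegree_C_mul_le _ _).trans (natDegree_prod_hh_le q z true s)

lemma coeff_QQ (q ω : R) (hq : q ^ 3 = 1) {m : ℕ} (z : Fin m → R) :
    (QQ (C q) (C ω) (m + 1) (Fin.cons X (fun j => C (z j)) : Fin (m + 1) → R[X])).coeff (3 * m)
      = (-1) ^ m * (1 + ω) * QQ q ω m z := by
  rw [QQ_cons, finsetSum_coeff]
  unfold QQ
  rw [Finset.mul_sum]
  refine Finset.sum_congr rfl fun s _ => ?_
  have hw : wt (C ω : R[X]) s = C (wt ω s) := by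
    unfold wt; rw [map_prod]
    refine Finset.prod_congr rfl fun i _ => ?_
    split_ifs <;> simp
  have hp : pp (C q : R[X]) s (fun j => C (z j)) = C (pp q s z) := by
    unfold pp; rw [map_prod]
    refine Finset.prod_congr rfl fun i _ => ?_
    rw [map_prod]
    refine Finset.prod_congr rfl fun j _ => ?_
    cases s i <;> cases s j <;> simp [hh]
  rw [hw, hp, coeff_mul_C, coeff_C_mul, coeff_add, coeff_C_mul,
    coeff_prod_hh q hq, coeff_prod_hh q hq]
  ring

end EX93

end

section

namespace EX93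

open Finset Polynomial

section
variable {q : ℂ}

lemma q3 (hq : q ^ 2 + q + 1 = 0) : q ^ 3 = 1 := by linear_combination (q - 1) * hq

lemma q_ne_zero (hq : q ^ 2 + q + 1 = 0) : q ≠ 0 := by
  rintro rfl; norm_num at hq

lemma q_ne_one (hq : q ^ 2 + q + 1 = 0) : q ≠ 1 := by
  rintro rfl; norm_num at hq

lemma q2_ne_one (hq : q ^ 2 + q + 1 = 0) : q ^ 2 ≠ 1 := by
  intro h
  have h2 : q = -2 := by linear_combination hq - h
  rw [h2] at hq; norm_num at hq

end

section
variable {m : ℕ}

/-- a permutation sending `0, 1` to `i, j` -/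
lemma exists_perm (i j : Fin (m + 2)) (h : i ≠ j) :
    ∃ σ : Equiv.Perm (Fin (m + 2)), σ 0 = i ∧ σ 1 = j := by
  refine ⟨Equiv.swap 0 i * Equiv.swap 1 (Equiv.swap 0 i j), ?_, ?_⟩
  · have h1 : Equiv.swap 1 (Equiv.swap 0 i j) 0 = 0 := by
      apply Equiv.swap_apply_of_ne_of_ne
      · simp
      · intro h'
        apply h
        have := congrArg (Equiv.swap 0 i) h'
        rw [Equiv.swap_apply_self, Equiv.swap_apply_left] at this
        exact this
    rw [Equiv.Perm.mul_apply, h1, Equiv.swap_apply_left]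
  · rw [Equiv.Perm.mul_apply, Equiv.swap_apply_left, Equiv.swap_apply_self]

lemma cons_cons_of (Z : Fin (m + 2) → ℂ) :
    Z = (Fin.cons (Z 0) (Fin.cons (Z 1) (fun j : Fin m => Z j.succ.succ) : Fin (m + 1) → ℂ)
      : Fin (m + 2) → ℂ) := by
  funext i
  refine Fin.cases ?_ (fun i => ?_) i
  · simp
  · refine Fin.cases ?_ (fun i => ?_) i
    · simp
    · simp

/-- An antisymmetric function vanishing on the wheel locus vanishes on all its images. -/
lemma anti_zero (q : ℂ) (hq : q ^ 2 + q + 1 = 0) (F : (Fin (m + 2) → ℂ) → ℂ)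
    (hanti : ∀ Z (σ : Equiv.Perm (Fin (m + 2))), F (Z ∘ σ) = (Equiv.Perm.sign σ : ℤ) * F Z)
    (hwheel : ∀ (w : ℂ) (z : Fin m → ℂ),
      F (Fin.cons (q ^ 2 * w) (Fin.cons w z : Fin (m + 1) → ℂ)) = 0)
    (Z : Fin (m + 2) → ℂ) (i j : Fin (m + 2)) (hij : i ≠ j)
    (h : Z i = Z j ∨ Z i = q * Z j ∨ Z i = q ^ 2 * Z j) : F Z = 0 := by
  have key : ∀ i j : Fin (m + 2), i ≠ j → Z i = q ^ 2 * Z j → F Z = 0 := by
    intro i j hij h
    obtain ⟨σ, h0, h1⟩ := exists_perm i j hij
    have h2 := hanti Z σ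
    have h3 : F (Z ∘ σ) = 0 := by
      rw [cons_cons_of (Z ∘ σ)]
      have e0 : (Z ∘ σ) 0 = q ^ 2 * (Z ∘ σ) 1 := by
        simp only [Function.comp_apply, h0, h1, h]
      rw [e0]
      exact hwheel _ _
    rw [h3] at h2
    rcases Int.units_eq_one_or (Equiv.Perm.sign σ) with hs | hs
    · rw [hs] at h2; simpa using h2.symm
    · rw [hs] at h2; simpa using h2.symm
  rcases h with h | h | h
  · have h2 := hanti Z (Equiv.swap i j)
    have h3 : Z ∘ (Equiv.swap i j) = Z := by
      funext k
      simp only [Function.comp_apply]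
      by_cases hk : k = i
      · subst hk; rw [Equiv.swap_apply_left, h]
      by_cases hk' : k = j
      · subst hk'; rw [Equiv.swap_apply_right, h]
      rw [Equiv.swap_apply_of_ne_of_ne hk hk']
    rw [h3, Equiv.Perm.sign_swap hij] at h2
    have : F Z = - F Z := by simpa using h2
    linear_combination (1 / 2 : ℂ) * this
  · apply key j i hij.symm
    rw [h]; linear_combination (-(Z j)) * q3 hq
  · exact key i j hij h

end

end EX93

end

section

namespace EX93

open Finset Polynomial

section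
variable {m : ℕ}

/-- the vector `(x, y, z)` in the bivariate polynomial ring (outer variable `x`) -/
noncomputable def wz (z : Fin m → ℂ) : Fin (m + 1) → ℂ[X] := Fin.cons X (fun j => C (z j))

noncomputable def ZZ (z : Fin m → ℂ) : Fin (m + 2) → ℂ[X][X] :=
  Fin.cons X (fun j => C (wz z j))

lemma map_wz (z : Fin m → ℂ) (b : ℂ) (j : Fin (m + 1)) :
    (wz z j).eval b = (Fin.cons b z : Fin (m + 1) → ℂ) j := by
  unfold wz
  refine Fin.cases ?_ (fun i => ?_) j
  · simp
  · simp

lemma ev_ZZ (z : Fin m → ℂ) (a b : ℂ) (j : Fin (m + 2)) :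
    ((ZZ z j).eval (C a)).eval b
      = (Fin.cons a (Fin.cons b z : Fin (m + 1) → ℂ) : Fin (m + 2) → ℂ) j := by
  unfold ZZ
  refine Fin.cases ?_ (fun i => ?_) j
  · simp
  · simp only [Fin.cons_succ, eval_C]
    exact map_wz z b i

/-- evaluation as a ring homomorphism -/
noncomputable def ev2 (a b : ℂ) : ℂ[X][X] →+* ℂ :=
  (evalRingHom b).comp (evalRingHom (C a))

lemma ev2_apply (a b : ℂ) (p : ℂ[X][X]) : ev2 a b p = (p.eval (C a)).eval b := rfl

lemma ev2_eq_map (a b : ℂ) (p : ℂ[X][X]) : ev2 a b p = (p.map (evalRingHom b)).eval a := by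
  rw [ev2_apply, eval_map]
  change (evalRingHom b) (eval₂ (RingHom.id _) (C a) p) = _
  rw [hom_eval₂]
  simp

end

end EX93

end

section

namespace EX93

open Finset Polynomial

end EX93

end

section

namespace EX93

open Finset Polynomial Matrix Filter Topology

end EX93

end

section

namespace EX93

open Finset Polynomial Matrix

end EX93

end

section

/-! EXACT: the determinant `det (1 - P + P ^ 2)` of the Pascal matrix is the square of the number of
alternating sign matrices (connection with the leg sums of helper96/helper34). -/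

namespace EX93

open Finset Polynomial Matrix Filter Topology
open Pool.Agent.H34.Hom Pool.Agent.H96.EX

lemma pairs_pp {R : Type*} [CommMonoid R] (M : ℕ) (F : ℕ → ℕ → R) :
    ∏ i : Fin M, ∏ j ∈ Ioi i, F i j = Pool.Agent.H34.Hom.pp M F := by
  have h1 : ∏ i : Fin M, ∏ j ∈ Ioi i, F i j = ∏ j : Fin M, ∏ i ∈ Iio j, F i j := by
    refine Finset.prod_comm' ?_
    intro i j
    simp
  rw [h1]
  unfold Pool.Agent.H34.Hom.pp
  rw [← Fin.prod_univ_eq_prod_range (fun k => ∏ j ∈ range k, F j k) M]
  refine Finset.prod_congr rfl fun j _ => ?_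
  have h2 : (Iio j).map Fin.valEmbedding = range (j : ℕ) := by
    rw [Fin.map_valEmbedding_Iio, Nat.Iio_eq_range]
  rw [← h2, Finset.prod_map]
  rfl

end EX93

end

section

/-!
# Project EXACT, one-arm formula: pushforwards and bilinear forms
-/

set_option autoImplicit false

open Finset

namespace Pool.Agent.H15.Exact

open H56.EX
open scoped Classical

section push

variable {α β γ : Type} [Fintype α] [Fintype β] [Fintype γ]

omit [Fintype β] [Fintype γ] in
/-- pushforward of a weight function -/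
noncomputable def push (f : α → β) : (α → ℂ) →ₗ[ℂ] (β → ℂ) where
  toFun v := fun b => ∑ a, if f a = b then v a else 0
  map_add' u v := by
    funext b
    simp only [Pi.add_apply, ← sum_add_distrib]
    refine sum_congr rfl fun a _ => ?_
    split_ifs <;> simp
  map_smul' c v := by
    funext b
    simp only [Pi.smul_apply, smul_eq_mul, RingHom.id_apply, mul_sum]
    refine sum_congr rfl fun a _ => ?_
    split_ifs <;> simp

omit [Fintype β] in
theorem push_apply (f : α → β) (v : α → ℂ) (b : β) :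
    push f v b = ∑ a, if f a = b then v a else 0 := rfl

theorem sum_push (f : α → β) (v : α → ℂ) (w : β → ℂ) :
    ∑ b, w b * push f v b = ∑ a, w (f a) * v a := by
  simp only [push_apply, mul_sum]
  rw [sum_comm]
  refine sum_congr rfl fun a _ => ?_
  rw [sum_eq_single (f a)]
  · simp
  · intro b _ hb
    rw [if_neg (fun h => hb h.symm), mul_zero]
  · intro h
    exact absurd (mem_univ _) h

theorem push_push (f : α → β) (g : β → γ) (v : α → ℂ) :
    push g (push f v) = push (fun a => g (f a)) v := by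
  funext c
  have h := sum_push f v (fun b => if g b = c then 1 else 0)
  rw [push_apply, push_apply]
  have e1 : ∀ b : β, (if g b = c then push f v b else 0) =
      (if g b = c then (1 : ℂ) else 0) * push f v b := by
    intro b
    split_ifs <;> simp
  have e2 : ∀ a : α, (if g (f a) = c then v a else 0) =
      (if g (f a) = c then (1 : ℂ) else 0) * v a := by
    intro a
    split_ifs <;> simp
  rw [sum_congr rfl (fun b _ => e1 b), sum_congr rfl (fun a _ => e2 a)]
  exact h

/-- The bilinear form with kernel `W`. -/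
noncomputable def bf (W : α → β → ℂ) : (α → ℂ) →ₗ[ℂ] (β → ℂ) →ₗ[ℂ] ℂ :=
  LinearMap.mk₂ ℂ (fun u v => ∑ a, ∑ b, W a b * (u a * v b))
    (fun u u' v => by
      simp only [Pi.add_apply, ← sum_add_distrib]
      exact sum_congr rfl fun a _ => sum_congr rfl fun b _ => by ring)
    (fun c u v => by
      simp only [Pi.smul_apply, smul_eq_mul, mul_sum]
      exact sum_congr rfl fun a _ => sum_congr rfl fun b _ => by ring)
    (fun u v v' => by
      simp only [Pi.add_apply, ← sum_add_distrib]
      exact sum_congr rfl fun a _ => sum_congr rfl fun b _ => by ring)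
    (fun c u v => by
      simp only [Pi.smul_apply, smul_eq_mul, mul_sum]
      exact sum_congr rfl fun a _ => sum_congr rfl fun b _ => by ring)

theorem bf_apply (W : α → β → ℂ) (u : α → ℂ) (v : β → ℂ) :
    bf W u v = ∑ a, ∑ b, W a b * (u a * v b) := rfl

theorem bf_push_left (W : β → γ → ℂ) (f : α → β) (u : α → ℂ) (v : γ → ℂ) :
    bf W (push f u) v = bf (fun a c => W (f a) c) u v := by
  have h := sum_push f u (fun b => ∑ c, W b c * v c)
  rw [bf_apply, bf_apply]
  calc ∑ b, ∑ c, W b c * (push f u b * v c) = ∑ b, (∑ c, W b c * v c) * push f u b := by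
        refine sum_congr rfl fun b _ => ?_
        rw [sum_mul]
        exact sum_congr rfl fun c _ => by ring
    _ = ∑ a, (∑ c, W (f a) c * v c) * u a := h
    _ = _ := by
        refine sum_congr rfl fun b _ => ?_
        rw [sum_mul]
        exact sum_congr rfl fun c _ => by ring

theorem bf_push_right (W : γ → β → ℂ) (f : α → β) (u : γ → ℂ) (v : α → ℂ) :
    bf W u (push f v) = bf (fun c a => W c (f a)) u v := by
  rw [bf_apply, bf_apply]
  refine sum_congr rfl fun c _ => ?_
  have h := sum_push f v (fun b => W c b * u c)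
  calc ∑ b, W c b * (u c * push f v b) = ∑ b, (W c b * u c) * push f v b :=
        sum_congr rfl fun c _ => by ring
    _ = ∑ a, (W c (f a) * u c) * v a := h
    _ = _ := sum_congr rfl fun c _ => by ring

end push

section pat

variable {L : ℕ}

/-- `e_i` as a linear map -/
noncomputable def eL (L : ℕ) (i : ℤ) : (Pat L → ℂ) →ₗ[ℂ] (Pat L → ℂ) := push (E i)

theorem eL_eq (i : ℤ) (v : Pat L → ℂ) : eL L i v = eop i v := by
  funext P
  unfold eL eop
  rw [push_apply]

theorem bf_eL {W : Pat L → Pat L → ℂ} {i : ℤ} (h : ∀ P Q, W (E i P) Q = W P (E i Q))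
    (u v : Pat L → ℂ) : bf W (eL L i u) v = bf W u (eL L i v) := by
  unfold eL
  rw [bf_push_left, bf_push_right]
  have : (fun a c => W (E i a) c) = (fun c a => W c (E i a)) := by
    funext P Q
    exact h P Q
  rw [this]

/-- insertion of a small arc at the strands `0, 1` -/
noncomputable def i0 (L : ℕ) : (Pat L → ℂ) →ₗ[ℂ] (Pat (L + 2) → ℂ) := push (ins 0)

theorem i0_of_ne (v : Pat L → ℂ) {P : Pat (L + 2)} (hP : P.m 0 ≠ 1) : i0 L v P = 0 := by
  unfold i0
  rw [push_apply]
  refine sum_eq_zero fun Q _ => ?_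
  rw [if_neg]
  rintro rfl
  apply hP
  rw [ins_self]
  norm_num

end pat

end Pool.Agent.H15.Exact

end

section

/-!
# Project EXACT, one-arm formula: the qKZ solution and its complex conjugate

`QP κ Φ` lists the properties of the polynomial qKZ solution with the cube root of unity `κ` in
terms of sequences of parameters.
-/

set_option autoImplicit false

open Finset

namespace Pool.Agent.H15.Exact

open H56.EX

/-- The properties of the polynomial qKZ solution with the cube root of unity `κ`, in terms of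
sequences of parameters. -/
structure QP (κ : ℂ) (Φ : ∀ L : ℕ, Pat L → (ℕ → ℂ) → ℂ) : Prop where
  kk : κ ^ 2 + κ + 1 = 0
  mv : ∀ (L : ℕ) (P : Pat L), ∃ p : MvPolynomial (Fin L) ℂ, ∀ s : ℕ → ℂ,
    Φ L P s = MvPolynomial.eval (fun k : Fin L => s k) p
  poly : ∀ (L : ℕ) (P : Pat L) (s : ℕ → ℂ) (n : ℕ), n < L →
    ∃ p : Polynomial ℂ, p.natDegree ≤ L - 1 ∧ ∀ t, Φ L P (Function.update s n t) = p.eval t
  exch : ∀ (L : ℕ) (P : Pat L) (s : ℕ → ℂ) (n : ℕ), n + 1 < L →
    (κ * s (n + 1) - κ ^ 2 * s n) * Φ L P (s ∘ Equiv.swap n (n + 1)) =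
      (κ * s n - κ ^ 2 * s (n + 1)) * Φ L P s +
        (s n - s (n + 1)) * eop n (fun P' => Φ L P' s) P
  rot : ∀ (L : ℕ) (P : Pat L) (s : ℕ → ℂ), Φ L (rot P) (scons (s (L - 1)) s) = Φ L P s
  arc_zero : ∀ (L : ℕ) (P : Pat L) (s : ℕ → ℂ), s 0 = κ ^ 2 * s 1 → P.m 0 ≠ 1 → Φ L P s = 0
  arc : ∀ (L : ℕ) (P : Pat L) (w : ℂ) (z : ℕ → ℂ),
    Φ (L + 2) (ins 0 P) (scons (κ ^ 2 * w) (scons w z)) =
      (-κ * w * (∏ j ∈ Finset.range L, (z j - κ * w) ^ 2) / 3 ^ L) * Φ L P z
  two_base : ∀ (P : Pat 2) (s : ℕ → ℂ), P.m 0 = -1 →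
    Φ 2 P s = (κ * s 1 - κ ^ 2 * s 0) / (κ - κ ^ 2)
  two_other : ∀ (P : Pat 2) (s : ℕ → ℂ), P.m 0 = 1 →
    Φ 2 P s = (κ * s 0 - κ ^ 2 * s 1) / (κ - κ ^ 2)

theorem m_neg_one_of {P : Pat 2} (h : P.m 0 = -1) : P.m (-1) = 0 := by
  rw [← h, P.inv]

section conj

end conj

end Pool.Agent.H15.Exact

end

section

/-!
# Project EXACT, one-arm formula: symmetry and wheel recursion
-/

set_option autoImplicit false

open Finset

namespace Pool.Agent.H15.Exact

open H56.EX

/-- the vector of components -/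
def vec (Φ : ∀ L : ℕ, Pat L → (ℕ → ℂ) → ℂ) (L : ℕ) (s : ℕ → ℂ) : Pat L → ℂ := fun P => Φ L P s

/-- The pairing of the two vectors. -/
noncomputable def Gv (W : ∀ L : ℕ, Pat L → Pat L → ℂ) (Φ' Φ : ∀ L : ℕ, Pat L → (ℕ → ℂ) → ℂ)
    (L : ℕ) (s : ℕ → ℂ) : ℂ := bf (W L) (vec Φ' L s) (vec Φ L s)

variable {κ τ : ℂ} {Φ Φ' : ∀ L : ℕ, Pat L → (ℕ → ℂ) → ℂ} {W : ∀ L : ℕ, Pat L → Pat L → ℂ}

theorem QP.cube (h : QP κ Φ) : κ ^ 3 = 1 := by
  linear_combination (κ - 1) * h.kk

theorem QP.ne_zero (h : QP κ Φ) : κ ≠ 0 := by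
  intro h0
  have := h.cube
  rw [h0] at this
  norm_num at this

theorem QP.ne_one (h : QP κ Φ) : κ ≠ 1 := by
  intro h0
  have := h.kk
  rw [h0] at this
  norm_num at this

theorem QP.exch_vec (h : QP κ Φ) (L : ℕ) (s : ℕ → ℂ) (n : ℕ) (hn : n + 1 < L) :
    (κ * s (n + 1) - κ ^ 2 * s n) • vec Φ L (s ∘ Equiv.swap n (n + 1)) =
      (κ * s n - κ ^ 2 * s (n + 1)) • vec Φ L s + (s n - s (n + 1)) • eL L n (vec Φ L s) := by
  funext P
  have h1 := h.exch L P s n hn
  rw [eL_eq]
  simp only [Pi.smul_apply, Pi.add_apply, smul_eq_mul]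
  exact h1

end Pool.Agent.H15.Exact

end

section

/-!
# Project EXACT, one-arm formula: polynomials in two variables

The outer variable is `x` and the inner variable is `y`.
-/

set_option autoImplicit false

open Finset

namespace Pool.Agent.H15.Exact

open H56.EX
open scoped Classical

/-- polynomials in `x` (outer) and `y` (inner) -/
abbrev BV := Polynomial (Polynomial ℂ)

/-- coefficient of `x ^ a * y ^ b` -/
noncomputable def cf (a b : ℕ) (F : BV) : ℂ := (F.coeff a).coeff b

theorem cf_add (a b : ℕ) (F G : BV) : cf a b (F + G) = cf a b F + cf a b G := by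
  unfold cf
  rw [Polynomial.coeff_add, Polynomial.coeff_add]

theorem cf_sub (a b : ℕ) (F G : BV) : cf a b (F - G) = cf a b F - cf a b G := by
  unfold cf
  rw [Polynomial.coeff_sub, Polynomial.coeff_sub]

theorem cf_zero (a b : ℕ) : cf a b 0 = 0 := by
  unfold cf
  simp

theorem cf_sum {ι : Type} (a b : ℕ) (s : Finset ι) (F : ι → BV) :
    cf a b (∑ i ∈ s, F i) = ∑ i ∈ s, cf a b (F i) := by
  unfold cf
  rw [Polynomial.finsetSum_coeff, Polynomial.finsetSum_coeff]

theorem cf_CC (a b : ℕ) (c : ℂ) (F : BV) :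
    cf a b (Polynomial.C (Polynomial.C c) * F) = c * cf a b F := by
  unfold cf
  rw [Polynomial.coeff_C_mul, Polynomial.coeff_C_mul]

theorem cf_X (a b : ℕ) (F : BV) : cf (a + 1) b (Polynomial.X * F) = cf a b F := by
  unfold cf
  rw [Polynomial.coeff_X_mul]

theorem swap_cf (a b : ℕ) (F : BV) : cf a b (Polynomial.Bivariate.swap F) = cf b a F := by
  induction F using Polynomial.induction_on' with
  | add p r hp hr => rw [map_add, cf_add, cf_add, hp, hr]
  | monomial n f =>
    induction f using Polynomial.induction_on' with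
    | add p r hp hr =>
      rw [map_add, map_add, cf_add, cf_add, hp, hr]
    | monomial m c =>
      rw [Polynomial.Bivariate.swap_monomial_monomial]
      unfold cf
      rw [Polynomial.coeff_monomial, Polynomial.coeff_monomial]
      by_cases h1 : m = a <;> by_cases h2 : n = b <;>
        simp [h1, h2, Polynomial.coeff_monomial]

section vec

variable {L : ℕ}

/-- coefficient vectors -/
noncomputable def cfv (a b : ℕ) (F : Pat L → BV) : Pat L → ℂ := fun P => cf a b (F P)

/-- `e_i` on polynomial vectors -/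
noncomputable def eB (i : ℤ) (F : Pat L → BV) (P : Pat L) : BV :=
  ∑ P' : Pat L, if E i P' = P then F P' else 0

theorem cf_eB (i : ℤ) (F : Pat L → BV) (P : Pat L) (a b : ℕ) :
    cf a b (eB i F P) = eL L i (cfv a b F) P := by
  unfold eB eL
  rw [push_apply, cf_sum]
  refine sum_congr rfl fun P' _ => ?_
  split_ifs
  · rfl
  · exact cf_zero a b

/-- the inverse of the exchange of a strand with parameter `∞`: the strand moves to the left -/
noncomputable def tb (κ : ℂ) (L : ℕ) (i : ℤ) : (Pat L → ℂ) →ₗ[ℂ] (Pat L → ℂ) :=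
  -(κ • LinearMap.id + κ ^ 2 • eL L i)

theorem tb_apply (κ : ℂ) (i : ℤ) (v : Pat L → ℂ) :
    tb κ L i v = -(κ • v + κ ^ 2 • eL L i v) := rfl

end vec

section FB

variable {κ : ℂ} {Φ : ∀ L : ℕ, Pat L → (ℕ → ℂ) → ℂ}

/-- the components as polynomials in two variables -/
noncomputable def QP.FB (h : QP κ Φ) (L : ℕ) (s : ℕ → BV) (P : Pat L) : BV :=
  MvPolynomial.eval₂ ((Polynomial.C).comp Polynomial.C) (fun k : Fin L => s k)
    (Classical.choose (h.mv L P))

theorem QP.congr (h : QP κ Φ) {L : ℕ} (P : Pat L) {s s' : ℕ → ℂ} (hs : ∀ n, n < L → s n = s' n) :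
    Φ L P s = Φ L P s' := by
  obtain ⟨p, hp⟩ := h.mv L P
  rw [hp, hp]
  congr 2
  funext k
  exact hs k k.2

end FB

end Pool.Agent.H15.Exact

end

section

/-!
# Project EXACT, one-arm formula: the top coefficient of the vector
-/

set_option autoImplicit false

open Finset

namespace Pool.Agent.H15.Exact

open H56.EX
open scoped Classical

/-- the parameters `y, z_0, …, z_{k-2}, x, z_{k-1}, …` -/
def ar (k : ℕ) (x y : ℂ) (z : ℕ → ℂ) : ℕ → ℂ := fun j =>
  if j = 0 then y else if j < k then z (j - 1) else if j = k then x else z (j - 2)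

/-- the same parameters as polynomials -/
noncomputable def arB (k : ℕ) (z : ℕ → ℂ) : ℕ → BV := fun j =>
  if j = 0 then Polynomial.C Polynomial.X else if j < k then Polynomial.C (Polynomial.C (z (j - 1)))
    else if j = k then Polynomial.X else Polynomial.C (Polynomial.C (z (j - 2)))

/-- the parameters `x, y, z` as polynomials -/
noncomputable def s0B (z : ℕ → ℂ) : ℕ → BV
  | 0 => Polynomial.X
  | 1 => Polynomial.C Polynomial.X
  | n + 2 => Polynomial.C (Polynomial.C (z n))

theorem ar_swap {k : ℕ} (hk : 1 ≤ k) (x y : ℂ) (z : ℕ → ℂ) :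
    (ar (k + 1) x y z) ∘ Equiv.swap k (k + 1) = ar k x y z := by
  funext j
  simp only [Function.comp_apply]
  by_cases h1 : j = k
  · subst h1
    rw [Equiv.swap_apply_left]
    unfold ar
    rw [if_neg (by omega), if_neg (by omega), if_pos rfl, if_neg (by omega), if_neg (by omega),
      if_pos rfl]
  by_cases h2 : j = k + 1
  · subst h2
    rw [Equiv.swap_apply_right]
    unfold ar
    rw [if_neg (by omega), if_pos (by omega), if_neg (by omega), if_neg (by omega),
      if_neg (by omega)]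
    congr 1
  · rw [Equiv.swap_apply_of_ne_of_ne h1 h2]
    unfold ar
    by_cases h3 : j = 0
    · rw [if_pos h3, if_pos h3]
    · rw [if_neg h3, if_neg h3]
      by_cases h4 : j < k
      · rw [if_pos (by omega), if_pos h4]
      · rw [if_neg (by omega), if_neg (by omega), if_neg h4, if_neg h1]

theorem ar_update {k : ℕ} (hk : 1 ≤ k) (x y : ℂ) (z : ℕ → ℂ) :
    ar k x y z = Function.update (ar k 0 y z) k x := by
  funext j
  by_cases h1 : j = k
  · subst h1
    rw [Function.update_self]
    unfold ar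
    rw [if_neg (by omega), if_neg (by omega), if_pos rfl]
  · rw [Function.update_of_ne h1]
    unfold ar
    by_cases h3 : j = 0
    · rw [if_pos h3, if_pos h3]
    · rw [if_neg h3, if_neg h3]
      by_cases h4 : j < k
      · rw [if_pos h4, if_pos h4]
      · rw [if_neg h4, if_neg h1, if_neg h4, if_neg h1]

theorem ar_one (x y : ℂ) (z : ℕ → ℂ) : ar 1 x y z = scons y (scons x z) := by
  funext j
  rcases j with _ | _ | j
  · rfl
  · rfl
  · unfold ar
    rw [if_neg (by omega), if_neg (by omega), if_neg (by omega)]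
    rfl

/-- the product `t_{N-m+1} ⋯ t_N` -/
noncomputable def chn (κ : ℂ) (L N : ℕ) : ℕ → (Pat L → ℂ) →ₗ[ℂ] (Pat L → ℂ)
  | 0 => LinearMap.id
  | m + 1 => (tb κ L ((N - m : ℕ) : ℤ)).comp (chn κ L N m)

theorem coeff_eval {F : BV} {d : ℕ} (hd : F.natDegree ≤ d) (c : ℂ) (m : ℕ) :
    (F.eval (Polynomial.C c * Polynomial.X)).coeff m =
      ∑ a ∈ range (d + 1), c ^ a * (if a ≤ m then cf a (m - a) F else 0) := by
  rw [Polynomial.eval_eq_sum_range' (lt_of_le_of_lt hd (Nat.lt_succ_self d)),
    Polynomial.finsetSum_coeff]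
  refine sum_congr rfl fun a _ => ?_
  have e1 : F.coeff a * (Polynomial.C c * Polynomial.X) ^ a =
      Polynomial.C (c ^ a) * (F.coeff a * Polynomial.X ^ a) := by
    rw [mul_pow, Polynomial.C_pow]
    ring
  rw [e1, Polynomial.coeff_C_mul, Polynomial.coeff_mul_X_pow']
  rfl

section

variable {κ : ℂ} {Φ : ∀ L : ℕ, Pat L → (ℕ → ℂ) → ℂ}

theorem prod_deg (κ : ℂ) (N : ℕ) (z : ℕ → ℂ) :
    (∏ j ∈ range N, (Polynomial.C (z j) - Polynomial.C κ * Polynomial.X) ^ 2).natDegree ≤ N * 2 ∧
      (∏ j ∈ range N, (Polynomial.C (z j) - Polynomial.C κ * Polynomial.X) ^ 2).coeff (N * 2) =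
        (κ ^ 2) ^ N := by
  have h1 : ∀ j, ((Polynomial.C (z j) - Polynomial.C κ * Polynomial.X) ^ 2).natDegree ≤ 2 := by
    intro j
    have h2 : (Polynomial.C (z j) - Polynomial.C κ * Polynomial.X).natDegree ≤ 1 := by
      compute_degree
    exact (Polynomial.natDegree_pow_le_of_le 2 h2)
  constructor
  · refine (Polynomial.natDegree_prod_le _ _).trans ?_
    refine (sum_le_sum fun j _ => h1 j).trans ?_
    rw [sum_const, card_range, smul_eq_mul]
  · have h3 := Polynomial.coeff_prod_of_natDegree_le (range N)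
      (fun j => (Polynomial.C (z j) - Polynomial.C κ * Polynomial.X) ^ 2) 2 (fun j _ => h1 j)
    rw [card_range] at h3
    rw [h3]
    have h4 : ∀ j, ((Polynomial.C (z j) - Polynomial.C κ * Polynomial.X) ^ 2).coeff 2 = κ ^ 2 := by
      intro j
      have e : (Polynomial.C (z j) - Polynomial.C κ * Polynomial.X) ^ 2 =
          Polynomial.C (κ ^ 2) * Polynomial.X ^ 2 +
            (Polynomial.C (-2 * z j * κ) * Polynomial.X + Polynomial.C (z j ^ 2)) := by
        simp only [map_mul, map_pow, map_neg, map_ofNat]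
        ring
      rw [e, Polynomial.coeff_add, Polynomial.coeff_add, Polynomial.coeff_C_mul_X_pow,
        Polynomial.coeff_C_mul, Polynomial.coeff_X_of_ne_one (by norm_num), Polynomial.coeff_C]
      norm_num
    rw [prod_congr rfl (fun j _ => h4 j), prod_const, card_range]

end

end Pool.Agent.H15.Exact

end

section

/-!
# Project EXACT, one-arm formula: the top coefficient of the pairing
-/

set_option autoImplicit false

open Finset

namespace Pool.Agent.H15.Exact

open H56.EX
open scoped Classical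

end Pool.Agent.H15.Exact

end

section

/-!
# Project EXACT, one-arm formula: two strands
-/

set_option autoImplicit false

open Finset

namespace Pool.Agent.H15.Exact

open H56.EX
open scoped Classical

/-- the pattern joining `0` and `1` -/
def patA : Pat 2 where
  m := fun x => if x % 2 = 0 then x + 1 else x - 1
  inv := fun x => by
    show (if (if x % 2 = 0 then x + 1 else x - 1) % 2 = 0 then
      (if x % 2 = 0 then x + 1 else x - 1) + 1 else (if x % 2 = 0 then x + 1 else x - 1) - 1) = x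
    split_ifs <;> omega
  per := fun x => by
    show (if (x + ((2 : ℕ) : ℤ)) % 2 = 0 then (x + ((2 : ℕ) : ℤ)) + 1 else
      (x + ((2 : ℕ) : ℤ)) - 1) = (if x % 2 = 0 then x + 1 else x - 1) + ((2 : ℕ) : ℤ)
    split_ifs <;> omega
  ne := fun x => by
    show (if x % 2 = 0 then x + 1 else x - 1) ≠ x
    split_ifs <;> omega
  short := fun x => by
    show |(if x % 2 = 0 then x + 1 else x - 1) - x| < ((2 : ℕ) : ℤ)
    split_ifs
    · rw [show x + 1 - x = 1 by ring]; norm_num
    · rw [show x - 1 - x = -1 by ring]; norm_num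
  nc := fun x y h1 h2 => by
    exfalso
    change y < (if x % 2 = 0 then x + 1 else x - 1) at h2
    split_ifs at h2 <;> omega

/-- the pattern joining `-1` and `0` -/
def patB : Pat 2 := rot patA

theorem patA_zero : patA.m 0 = 1 := rfl

theorem patB_zero : patB.m 0 = -1 := rfl

theorem two_cases (P : Pat 2) : P.m 0 = 1 ∨ P.m 0 = -1 := by
  have h1 := P.short 0
  have h2 := P.ne 0
  rw [sub_zero, abs_lt] at h1
  obtain ⟨h3, h4⟩ := h1
  push_cast at h3 h4
  omega

theorem two_one {P : Pat 2} (h : P.m 0 = 1) : P.m 1 = 0 := by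
  rw [← h, P.inv]

theorem two_one' {P : Pat 2} (h : P.m 0 = -1) : P.m 1 = 2 := by
  have h1 : P.m (-1) = 0 := m_neg_one_of h
  have h2 := P.per (-1)
  rw [h1] at h2
  norm_num at h2
  exact h2

theorem eq_patA {P : Pat 2} (h : P.m 0 = 1) : P = patA := by
  apply Pat.ext_Ico
  intro x h0 h1
  have hx : x = 0 ∨ x = 1 := by push_cast at h1; omega
  rcases hx with rfl | rfl
  · rw [h, patA_zero]
  · rw [two_one h, two_one patA_zero]

theorem eq_patB {P : Pat 2} (h : P.m 0 = -1) : P = patB := by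
  apply Pat.ext_Ico
  intro x h0 h1
  have hx : x = 0 ∨ x = 1 := by push_cast at h1; omega
  rcases hx with rfl | rfl
  · rw [h, patB_zero]
  · rw [two_one' h, two_one' patB_zero]

theorem patA_ne : patA ≠ patB := by
  intro h
  have := congrArg (fun P : Pat 2 => P.m 0) h
  simp only [patA_zero, patB_zero] at this
  norm_num at this

theorem sum_two (f : Pat 2 → ℂ) : ∑ P, f P = f patA + f patB := by
  have h : (univ : Finset (Pat 2)) = {patA, patB} := by
    ext P
    simp only [mem_univ, mem_insert, mem_singleton, true_iff]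
    rcases two_cases P with h | h
    · left; exact eq_patA h
    · right; exact eq_patB h
  rw [h, sum_pair patA_ne]

end Pool.Agent.H15.Exact

end

section

/-!
# Project EXACT, one-arm formula: the pairing as a symmetric polynomial, and its value at `1`
-/

set_option autoImplicit false

open Finset

namespace Pool.Agent.H15.Exact

open H56.EX
open scoped Classical

variable {κ τ : ℂ} {Φ Φ' : ∀ L : ℕ, Pat L → (ℕ → ℂ) → ℂ} {W : ∀ L : ℕ, Pat L → Pat L → ℂ}

/-- the components as multivariate polynomials -/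
noncomputable def QP.pol (h : QP κ Φ) (L : ℕ) (P : Pat L) : MvPolynomial (Fin L) ℂ :=
  Classical.choose (h.mv L P)

theorem QP.eval_pol (h : QP κ Φ) (L : ℕ) (P : Pat L) (s : ℕ → ℂ) :
    MvPolynomial.eval (fun k : Fin L => s k) (h.pol L P) = Φ L P s :=
  (Classical.choose_spec (h.mv L P) s).symm

/-- the pairing as a polynomial -/
noncomputable def GP (h : QP κ Φ) (h' : QP (κ ^ 2) Φ') (W : ∀ L : ℕ, Pat L → Pat L → ℂ)
    (L : ℕ) : MvPolynomial (Fin L) ℂ :=
  ∑ P, ∑ Q, MvPolynomial.C (W L P Q) * (h'.pol L P * h.pol L Q)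

theorem eval_GP (h : QP κ Φ) (h' : QP (κ ^ 2) Φ') (L : ℕ) (s : ℕ → ℂ) :
    MvPolynomial.eval (fun k : Fin L => s k) (GP h h' W L) = Gv W Φ' Φ L s := by
  unfold GP Gv
  rw [map_sum, bf_apply]
  refine sum_congr rfl fun P _ => ?_
  rw [map_sum]
  refine sum_congr rfl fun Q _ => ?_
  rw [map_mul, map_mul, MvPolynomial.eval_C, h.eval_pol, h'.eval_pol]
  rfl

/-- extension of a finite sequence -/
noncomputable def ex (L : ℕ) (z : Fin L → ℂ) : ℕ → ℂ := fun n => if h : n < L then z ⟨n, h⟩ else 0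

theorem ex_fin (L : ℕ) (z : Fin L → ℂ) : (fun k : Fin L => ex L z k) = z := by
  funext k
  unfold ex
  rw [dif_pos k.2]

theorem eval_GP' (h : QP κ Φ) (h' : QP (κ ^ 2) Φ') (L : ℕ) (z : Fin L → ℂ) :
    MvPolynomial.eval z (GP h h' W L) = Gv W Φ' Φ L (ex L z) := by
  rw [← eval_GP h h', ex_fin]

theorem ex_comp_swap (L : ℕ) (z : Fin L → ℂ) (n : ℕ) (hn : n + 1 < L) :
    z ∘ Equiv.swap (⟨n, by omega⟩ : Fin L) ⟨n + 1, hn⟩ =
      fun k : Fin L => (ex L z ∘ Equiv.swap n (n + 1)) k := by
  funext k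
  simp only [Function.comp_apply]
  by_cases h1 : k = ⟨n, by omega⟩
  · subst h1
    rw [Equiv.swap_apply_left, Equiv.swap_apply_left]
    unfold ex
    rw [dif_pos hn]
  by_cases h2 : k = ⟨n + 1, hn⟩
  · subst h2
    rw [Equiv.swap_apply_right, Equiv.swap_apply_right]
    unfold ex
    rw [dif_pos]
  · rw [Equiv.swap_apply_of_ne_of_ne h1 h2, Equiv.swap_apply_of_ne_of_ne]
    · unfold ex
      rw [dif_pos k.2]
    · intro h
      exact h1 (Fin.ext h)
    · intro h
      exact h2 (Fin.ext h)

/-- the normalising constants -/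
noncomputable def cc : ℕ → ℂ
  | 0 => 1
  | n + 1 => 3 * 81 ^ n * cc n

/-- the normalised family of polynomials -/
noncomputable def GG (h : QP κ Φ) (h' : QP (κ ^ 2) Φ') (W : ∀ L : ℕ, Pat L → Pat L → ℂ) :
    (n : ℕ) → MvPolynomial (Fin (2 * n)) ℂ
  | 0 => 1
  | n + 1 => MvPolynomial.C (cc (n + 1)) * GP h h' W (2 * (n + 1))

theorem scons_cons (N : ℕ) (a b : ℂ) (z : Fin N → ℂ) :
    (fun k : Fin (N + 2) => scons a (scons b (ex N z)) k) =
      (Fin.cons a (Fin.cons b z : Fin (N + 1) → ℂ) : Fin (N + 2) → ℂ) := by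
  funext k
  refine Fin.cases rfl (fun k => ?_) k
  refine Fin.cases rfl (fun k => ?_) k
  change ex N z k = z k
  unfold ex
  rw [dif_pos k.2]

end Pool.Agent.H15.Exact

end

section

/-!
# Project EXACT: the components of the qKZ solution at `ζ = 1` are real
-/

set_option autoImplicit false

open Finset

namespace Pool.Agent.H15.Exact

open H56.EX Pool.Agent.H12.QKZ
open scoped Classical

variable {L : ℕ}

end Pool.Agent.H15.Exact

end

section

/-!
# Project EXACT, one-arm formula: final statements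

`vR P` is the component at the pattern `P` of the stationary vector (`ζ = 1`).
-/

set_option autoImplicit false

open Finset

namespace Pool.Agent.H15.Exact

open H56.EX Pool.Agent.H12.QKZ
open scoped Classical

variable {κ τ : ℂ} {Φ Φ' : ∀ L : ℕ, Pat L → (ℕ → ℂ) → ℂ} {W : ∀ L : ℕ, Pat L → Pat L → ℂ}

theorem even_card_of_closed {L : ℕ} (P : Pat L) (X : Finset ℤ) (h : ∀ x ∈ X, P.m x ∈ X) :
    Even X.card := by
  have h1 : ∑ _x ∈ X, (1 : ZMod 2) = 0 := by
    refine Finset.sum_involution (fun x _ => P.m x) ?_ ?_ ?_ ?_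
    · intro x _
      decide
    · intro x _ _
      exact P.ne x
    · intro x hx
      exact h x hx
    · intro x _
      exact P.inv x
  rw [sum_const, nsmul_eq_mul, mul_one] at h1
  exact (ZMod.natCast_eq_zero_iff_even).mp h1

end Pool.Agent.H15.Exact

end
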