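import Pool.Agent.H94.BG.H31.PT.M06
import Pool.Agent.H94.BG.H31.PT.M31_4
import Pool.Agent.H94.BG.H31.PT.M34
import Pool.Agent.H94.BG.H31.PT.M41_2
import Pool.Agent.H94.BG.H31.PT.M43

/-! The parts of this file: H89.Perc.SimonLieb, H89.Perc.TorusReveal, H89.Perc.TorusVar, H89.Perc.WindBounds, H89.Perc.TorusThreshold, H89.Perc.Final, H93.EX.Basic, H93.EX.Hom1, H93.EX.Hom2, H93.EX.Deg, H93.EX.Uniq, H93.EX.Step, H93.EX.Induct, H93.EX.Hom3, H93.EX.Hom4, H93.EX.Asm, H15.Exact.Bil, H15.Exact.QP, H15.Exact.Rel, H15.Exact.Biv, H15.Exact.Top, H15.Exact.TopG, H15.Exact.Two, H15.Exact.GPoly, H15.Exact.Real, H15.Exact.Final. -/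

section

/-!
# The Simon-Lieb inequality for one-arm probabilities
-/

open MeasureTheory ProbabilityTheory unitInterval

namespace Pool.Agent.H89.Perc

end Pool.Agent.H89.Perc

end

section

/-!
# Queried edges have a primal arm and a dual arm
-/

open MeasureTheory ProbabilityTheory unitInterval

namespace Pool.Agent.H89.Perc

end Pool.Agent.H89.Perc

end

section

/-!
# The OSSS inequality for the winding event
-/

open MeasureTheory ProbabilityTheory unitInterval

namespace Pool.Agent.H89.Perc

theorem pivot_wind_nonneg {N : ℕ} (q : I) (e : Edge) : 0 ≤ pivot q (Wind N) e := by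
  unfold pivot
  rw [sub_nonneg]
  refine Pr_mono ?_
  intro ω hω
  refine incr_wind N _ _ (fun f hf => ?_) hω
  by_cases hfe : f = e
  · subst hfe; simp
  · rw [Function.update_of_ne hfe] at hf ⊢; exact hf

end Pool.Agent.H89.Perc

end

section

/-!
# Lower and upper bounds for the probability of the winding event
-/

open MeasureTheory ProbabilityTheory unitInterval

namespace Pool.Agent.H89.Perc

/-! ### The torus -/

end Pool.Agent.H89.Perc

end

section

/-!
# Consequence of the threshold inequality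
-/

open MeasureTheory ProbabilityTheory unitInterval

namespace Pool.Agent.H89.Perc

end Pool.Agent.H89.Perc

end

section

/-!
# Lower bound for the percolation probability
-/

open MeasureTheory ProbabilityTheory unitInterval Filter Topology

namespace Pool.Agent.H89.Perc

end Pool.Agent.H89.Perc

end

section

/-! EXACT project, one-arm formula, pure algebra part (helper93). -/

namespace EX93

open Finset Polynomial

variable {R : Type*} [CommRing R]

end EX93

end

section

namespace EX93

open Finset Polynomial Matrix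

section
variable {R : Type*} [CommRing R] {L : ℕ}

end

section
variable {L : ℕ}

end

end EX93

end

section

namespace EX93

open Finset Polynomial Matrix

section
variable {R : Type*} [CommRing R] {L : ℕ}

end

end EX93

end

section

namespace EX93

open Finset Polynomial

variable {R : Type*} [CommRing R]

end EX93

end

section

namespace EX93

open Finset Polynomial

section
variable {q : ℂ}

lemma cube_factor (hq : q ^ 2 + q + 1 = 0) (a : ℂ) :
    (X ^ 3 - C (a ^ 3) : ℂ[X]) = (X - C a) * ((X - C (q * a)) * (X - C (q ^ 2 * a))) := by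
  have h1 : (C q : ℂ[X]) ^ 2 + C q + 1 = 0 := by
    rw [← C_pow, ← C_add, ← C_1, ← C_add, hq, C_0]
  have h3 : (C q : ℂ[X]) ^ 3 = 1 := by linear_combination (C q - 1) * h1
  simp only [map_pow, map_mul]
  linear_combination (X - C a) * X * C a * h1 - (X - C a) * C a ^ 2 * h3

/-- factorisation of a polynomial vanishing at all cube-root multiples of given points -/
lemma root_factor (hq : q ^ 2 + q + 1 = 0) {N : ℕ} (a : Fin N → ℂ) (ha : ∀ i, a i ≠ 0)
    (hd : ∀ i j, i ≠ j → a i ^ 3 ≠ a j ^ 3) (P : ℂ[X]) (hP : P.natDegree ≤ 3 * N)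
    (h0 : ∀ i, P.eval (a i) = 0) (h1 : ∀ i, P.eval (q * a i) = 0)
    (h2 : ∀ i, P.eval (q ^ 2 * a i) = 0) :
    P = C (P.coeff (3 * N)) * ∏ i, (X ^ 3 - C (a i ^ 3)) := by
  have q3' := q3 hq
  -- each factor divides P
  have hdiv : ∀ i, (X ^ 3 - C (a i ^ 3) : ℂ[X]) ∣ P := by
    intro i
    rw [cube_factor hq]
    have n1 : a i ≠ q * a i := by
      intro h
      apply q_ne_one hq
      have := mul_right_cancel₀ (ha i) (by rw [one_mul]; exact h : (1 : ℂ) * a i = q * a i)
      exact this.symm
    have n2 : a i ≠ q ^ 2 * a i := by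
      intro h
      apply q2_ne_one hq
      have := mul_right_cancel₀ (ha i) (by rw [one_mul]; exact h : (1 : ℂ) * a i = q ^ 2 * a i)
      exact this.symm
    have n3 : q * a i ≠ q ^ 2 * a i := by
      intro h
      have := mul_right_cancel₀ (ha i) h
      apply q_ne_one hq
      have h' : q * (q - 1) = 0 := by linear_combination -this
      rcases mul_eq_zero.mp h' with h'' | h''
      · exact absurd h'' (q_ne_zero hq)
      · linear_combination h''
    have c23 : IsCoprime (X - C (q * a i) : ℂ[X]) (X - C (q ^ 2 * a i)) :=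
      isCoprime_X_sub_C_of_isUnit_sub (sub_ne_zero.mpr n3).isUnit
    have c12 : IsCoprime (X - C (a i) : ℂ[X]) (X - C (q * a i)) :=
      isCoprime_X_sub_C_of_isUnit_sub (sub_ne_zero.mpr n1).isUnit
    have c13 : IsCoprime (X - C (a i) : ℂ[X]) (X - C (q ^ 2 * a i)) :=
      isCoprime_X_sub_C_of_isUnit_sub (sub_ne_zero.mpr n2).isUnit
    refine IsCoprime.mul_dvd (c12.mul_right c13) (dvd_iff_isRoot.mpr (h0 i)) ?_
    exact IsCoprime.mul_dvd c23 (dvd_iff_isRoot.mpr (h1 i)) (dvd_iff_isRoot.mpr (h2 i))
  have hcop : Pairwise (Function.onFun IsCoprime fun i => (X ^ 3 - C (a i ^ 3) : ℂ[X])) := by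
    intro i j hij
    simp only [Function.onFun]
    have hne : a i ^ 3 - a j ^ 3 ≠ 0 := sub_ne_zero.mpr (hd i j hij)
    refine ⟨-C ((a i ^ 3 - a j ^ 3)⁻¹), C ((a i ^ 3 - a j ^ 3)⁻¹), ?_⟩
    have : -C ((a i ^ 3 - a j ^ 3)⁻¹) * (X ^ 3 - C (a i ^ 3)) +
        C ((a i ^ 3 - a j ^ 3)⁻¹) * (X ^ 3 - C (a j ^ 3))
        = C ((a i ^ 3 - a j ^ 3)⁻¹ * (a i ^ 3 - a j ^ 3)) := by
      rw [C_mul, C_sub]; ring
    rw [this, inv_mul_cancel₀ hne, C_1]
  obtain ⟨r, hr⟩ := Fintype.prod_dvd_of_coprime hcop hdiv
  have hmon : (∏ i, (X ^ 3 - C (a i ^ 3) : ℂ[X])).Monic :=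
    monic_prod_of_monic _ _ (fun i _ => monic_X_pow_sub_C _ (by norm_num))
  have hdeg : (∏ i, (X ^ 3 - C (a i ^ 3) : ℂ[X])).natDegree = 3 * N := by
    rw [natDegree_prod_of_monic _ _ (fun i _ => monic_X_pow_sub_C _ (by norm_num))]
    simp only [natDegree_X_pow_sub_C]
    simp [mul_comm]
  have hr0 : r.natDegree = 0 := by
    by_cases hr' : r = 0
    · rw [hr']; simp
    have h := hmon.natDegree_mul' hr'
    rw [← hr, hdeg] at h
    omega
  obtain ⟨c, rfl⟩ : ∃ c, r = C c := ⟨r.coeff 0, eq_C_of_natDegree_eq_zero hr0⟩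
  have hc : P.coeff (3 * N) = c := by
    rw [hr, coeff_mul_C, ← hdeg]
    rw [hmon.coeff_natDegree, one_mul]
  rw [hc, mul_comm]
  exact hr

end

section
variable {m : ℕ}

end

end EX93

end

section

namespace EX93

open Finset Polynomial

section
variable {m : ℕ}

end

end EX93

end

section

namespace EX93

open Finset Polynomial

end EX93

end

section

namespace EX93

open Finset Polynomial Matrix Filter Topology

end EX93

end

section

namespace EX93

open Finset Polynomial Matrix

end EX93

end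

section

/-! EXACT: the determinant `det (1 - P + P ^ 2)` of the Pascal matrix is the square of the number of
alternating sign matrices (connection with the leg sums of helper96/helper34). -/

namespace EX93

open Finset Polynomial Matrix Filter Topology
open Pool.Agent.H34.Hom Pool.Agent.H96.EX

end EX93

end

section

/-!
# Project EXACT, one-arm formula: pushforwards and bilinear forms
-/

set_option autoImplicit false

open Finset

namespace Pool.Agent.H15.Exact

open H56.EX
open scoped Classical

section push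

variable {α β γ : Type} [Fintype α] [Fintype β] [Fintype γ]

end push

section pat

variable {L : ℕ}

theorem eL_idem (i : ℤ) (v : Pat L → ℂ) : eL L i (eL L i v) = eL L i v := by
  unfold eL
  rw [push_push]
  congr 2
  funext P
  exact E.idem P i

theorem i0_ins (v : Pat L → ℂ) (Q : Pat L) : i0 L v (ins 0 Q) = v Q := by
  unfold i0
  rw [push_apply, sum_eq_single Q]
  · rw [if_pos rfl]
  · intro Q' _ hQ'
    rw [if_neg]
    intro h
    exact hQ' (ins_injective 0 h)
  · intro h
    exact absurd (mem_univ _) h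

theorem eL_i0 (v : Pat L → ℂ) : eL (L + 2) 0 (i0 L v) = i0 L v := by
  unfold eL i0
  rw [push_push]
  congr 2
  funext P
  exact E.eq_self _ _ (ins_self 0 P)

variable {τ : ℂ} {W : ∀ L : ℕ, Pat L → Pat L → ℂ}

theorem bf_i0 (hW : FormProps τ W) (u v : Pat L → ℂ) :
    bf (W (L + 2)) (i0 L u) (i0 L v) = bf (W L) u v := by
  unfold i0
  rw [bf_push_left, bf_push_right]
  have : (fun c a => W (L + 2) (ins 0 c) (ins 0 a)) = W L := by
    funext P Q
    exact hW.ins0 L P Q
  rw [this]

end pat

end Pool.Agent.H15.Exact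

end

section

/-!
# Project EXACT, one-arm formula: the qKZ solution and its complex conjugate

`QP κ Φ` lists the properties of the polynomial qKZ solution with the cube root of unity `κ` in
terms of sequences of parameters.
-/

set_option autoImplicit false

open Finset

namespace Pool.Agent.H15.Exact

open H56.EX

section conj

end conj

end Pool.Agent.H15.Exact

end

section

/-!
# Project EXACT, one-arm formula: symmetry and wheel recursion
-/

set_option autoImplicit false

open Finset

namespace Pool.Agent.H15.Exact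

open H56.EX

variable {κ τ : ℂ} {Φ Φ' : ∀ L : ℕ, Pat L → (ℕ → ℂ) → ℂ} {W : ∀ L : ℕ, Pat L → Pat L → ℂ}

theorem QP.arc_vec (h : QP κ Φ) {L : ℕ} (hL : 2 ≤ L) (w : ℂ) (z : ℕ → ℂ) :
    vec Φ (L + 2) (scons (κ ^ 2 * w) (scons w z)) =
      (-κ * w * (∏ j ∈ Finset.range L, (z j - κ * w) ^ 2) / 3 ^ L) • i0 L (vec Φ L z) := by
  funext P
  by_cases hP : P.m 0 = 1
  · obtain ⟨Q, rfl⟩ := exists_ins hL 0 P (by simpa using hP)
    simp only [Pi.smul_apply, smul_eq_mul, i0_ins]
    exact h.arc L Q w z
  · simp only [Pi.smul_apply, smul_eq_mul, i0_of_ne _ hP, mul_zero]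
    exact h.arc_zero (L + 2) P _ (by simp [scons]) hP

theorem Gv_swap (h : QP κ Φ) (h' : QP (κ ^ 2) Φ') (hW : FormProps τ W) (L : ℕ) (s : ℕ → ℂ)
    (n : ℕ) (hn : n + 1 < L) :
    ((κ * s (n + 1) - κ ^ 2 * s n) * (κ * s n - κ ^ 2 * s (n + 1))) *
      (Gv W Φ' Φ L (s ∘ Equiv.swap n (n + 1)) - Gv W Φ' Φ L s) = 0 := by
  have e1 := h.exch_vec L s n hn
  have e2 := h'.exch_vec L s n hn
  have hk := h.kk
  have hk4 : κ ^ 4 = κ := by linear_combination κ * h.cube
  set x := s n with hx
  set y := s (n + 1) with hy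
  set u := vec Φ' L s with hu
  set v := vec Φ L s with hv
  set u' := vec Φ' L (s ∘ Equiv.swap n (n + 1)) with hu'
  set v' := vec Φ L (s ∘ Equiv.swap n (n + 1)) with hv'
  have hadj : ∀ a b : Pat L → ℂ, bf (W L) (eL L n a) b = bf (W L) a (eL L n b) :=
    fun a b => bf_eL (fun P Q => hW.adj L n (by omega) (by omega) P Q) a b
  have h3 := congrArg₂ (fun a b => bf (W L) a b) e2 e1
  simp only [map_add, map_smul, LinearMap.add_apply, LinearMap.smul_apply, smul_eq_mul, hadj,
    eL_idem] at h3
  change _ * (bf (W L) u' v' - bf (W L) u v) = 0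
  rw [show (κ ^ 2) ^ 2 = κ by rw [← pow_mul]; exact hk4] at h3
  linear_combination (-1) * h3 - (x - y) * (bf (W L) u (eL L n v)) * (x - y) * hk

end Pool.Agent.H15.Exact

end

section

/-!
# Project EXACT, one-arm formula: polynomials in two variables

The outer variable is `x` and the inner variable is `y`.
-/

set_option autoImplicit false

open Finset

namespace Pool.Agent.H15.Exact

open H56.EX
open scoped Classical

/-- evaluation of the outer variable at `x` and the inner variable at `y` -/
noncomputable def ev (x y : ℂ) : BV →+* ℂ := Polynomial.evalEvalRingHom y x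

theorem ev_eq (x y : ℂ) (F : BV) : ev x y F = F.evalEval y x := rfl

theorem ev_X (x y : ℂ) : ev x y Polynomial.X = x := Polynomial.evalEval_X y x

theorem ev_CX (x y : ℂ) : ev x y (Polynomial.C Polynomial.X) = y := by
  rw [ev_eq, Polynomial.evalEval_C, Polynomial.eval_X]

theorem ev_CC (x y a : ℂ) : ev x y (Polynomial.C (Polynomial.C a)) = a := by
  rw [ev_eq, Polynomial.evalEval_C, Polynomial.eval_C]

theorem ev_map (x y : ℂ) (F : BV) :
    ev x y F = (F.map (Polynomial.evalRingHom y)).eval x := by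
  rw [ev_eq, Polynomial.map_evalRingHom_eval]

theorem bv_zero {F : BV} (h : ∀ x y, ev x y F = 0) : F = 0 := by
  ext a b
  have h1 : ∀ y, F.map (Polynomial.evalRingHom y) = 0 := by
    intro y
    apply Polynomial.funext
    intro x
    rw [← ev_map, h]
    simp
  have h2 : F.coeff a = 0 := by
    apply Polynomial.funext
    intro y
    have := congrArg (fun p => Polynomial.coeff p a) (h1 y)
    simpa [Polynomial.coeff_map] using this
  rw [h2]
  simp

theorem bv_ext {F G : BV} (h : ∀ x y, ev x y F = ev x y G) : F = G := by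
  have : F - G = 0 := bv_zero (fun x y => by rw [map_sub, h, sub_self])
  exact sub_eq_zero.mp this

theorem swap_ev (x y : ℂ) (F : BV) : ev x y (Polynomial.Bivariate.swap F) = ev y x F := by
  induction F using Polynomial.induction_on' with
  | add p r hp hr => rw [map_add, map_add, map_add, hp, hr]
  | monomial n f =>
    induction f using Polynomial.induction_on' with
    | add p r hp hr =>
      rw [map_add, map_add, map_add, map_add, hp, hr]
    | monomial m c =>
      rw [Polynomial.Bivariate.swap_monomial_monomial]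
      rw [ev_eq, ev_eq, Polynomial.evalEval, Polynomial.evalEval, Polynomial.eval_monomial,
        Polynomial.eval_monomial]
      simp [Polynomial.eval_monomial]
      ring

theorem outer_deg {F : BV} {d : ℕ}
    (h : ∀ y, ∃ p : Polynomial ℂ, p.natDegree ≤ d ∧ ∀ x, ev x y F = p.eval x) :
    F.natDegree ≤ d := by
  rw [Polynomial.natDegree_le_iff_coeff_eq_zero]
  intro N hN
  apply Polynomial.funext
  intro y
  obtain ⟨p, hp, he⟩ := h y
  have h1 : F.map (Polynomial.evalRingHom y) = p := by
    apply Polynomial.funext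
    intro x
    rw [← ev_map, he]
  have := congrArg (fun r => Polynomial.coeff r N) h1
  simp only [Polynomial.coeff_map] at this
  rw [Polynomial.coeff_eq_zero_of_natDegree_lt (lt_of_le_of_lt hp hN)] at this
  simpa using this

theorem inner_deg {F : BV} {d : ℕ}
    (h : ∀ x, ∃ p : Polynomial ℂ, p.natDegree ≤ d ∧ ∀ y, ev x y F = p.eval y) (a : ℕ) :
    (F.coeff a).natDegree ≤ d := by
  have h1 : (Polynomial.Bivariate.swap F).natDegree ≤ d := by
    apply outer_deg
    intro y
    obtain ⟨p, hp, he⟩ := h y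
    exact ⟨p, hp, fun x => by rw [swap_ev, he]⟩
  rw [Polynomial.natDegree_le_iff_coeff_eq_zero]
  intro N hN
  have h2 := swap_cf N a F
  unfold cf at h2
  rw [← h2, Polynomial.coeff_eq_zero_of_natDegree_lt (lt_of_le_of_lt h1 hN)]
  simp

section vec

variable {L : ℕ}

theorem ev_eB (i : ℤ) (F : Pat L → BV) (P : Pat L) (x y : ℂ) :
    ev x y (eB i F P) = eL L i (fun P' => ev x y (F P')) P := by
  unfold eB eL
  rw [push_apply, map_sum]
  refine sum_congr rfl fun P' _ => ?_
  split_ifs
  · rfl
  · exact map_zero _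

end vec

section FB

variable {κ : ℂ} {Φ : ∀ L : ℕ, Pat L → (ℕ → ℂ) → ℂ}

theorem QP.ev_FB (h : QP κ Φ) (L : ℕ) (s : ℕ → BV) (P : Pat L) (x y : ℂ) :
    ev x y (h.FB L s P) = Φ L P (fun n => ev x y (s n)) := by
  unfold QP.FB
  rw [MvPolynomial.eval₂_comp_left, Classical.choose_spec (h.mv L P)]
  have e1 : (ev x y).comp ((Polynomial.C).comp Polynomial.C) = RingHom.id ℂ := by
    ext a
    exact ev_CC x y a
  rw [e1]
  rfl

end FB

end Pool.Agent.H15.Exact

end

section

/-!
# Project EXACT, one-arm formula: the top coefficient of the vector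
-/

set_option autoImplicit false

open Finset

namespace Pool.Agent.H15.Exact

open H56.EX
open scoped Classical

theorem ev_arB (k : ℕ) (z : ℕ → ℂ) (x y : ℂ) : (fun n => ev x y (arB k z n)) = ar k x y z := by
  funext n
  unfold arB ar
  split_ifs
  · exact ev_CX x y
  · exact ev_CC x y _
  · exact ev_X x y
  · exact ev_CC x y _

theorem ev_s0B (z : ℕ → ℂ) (x y : ℂ) : (fun n => ev x y (s0B z n)) = scons x (scons y z) := by
  funext n
  rcases n with _ | _ | n
  · exact ev_X x y
  · exact ev_CX x y
  · exact ev_CC x y _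

theorem eval_eval (F : BV) (c w : ℂ) :
    (F.eval (Polynomial.C c * Polynomial.X)).eval w = ev (c * w) w F := by
  have h1 : ev (c * w) w F = Polynomial.eval₂ (Polynomial.evalRingHom w) (c * w) F := by
    rw [Polynomial.eval₂_evalRingHom]
    rfl
  have h2 := Polynomial.hom_eval₂ F (RingHom.id (Polynomial ℂ)) (Polynomial.evalRingHom w)
    (Polynomial.C c * Polynomial.X)
  rw [RingHom.comp_id] at h2
  rw [h1]
  have h3 : Polynomial.evalRingHom w (Polynomial.C c * Polynomial.X) = c * w := by simp
  rw [h3] at h2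
  exact h2

section

end

end Pool.Agent.H15.Exact

end

section

/-!
# Project EXACT, one-arm formula: the top coefficient of the pairing
-/

set_option autoImplicit false

open Finset

namespace Pool.Agent.H15.Exact

open H56.EX
open scoped Classical

variable {κ τ : ℂ} {Φ Φ' : ∀ L : ℕ, Pat L → (ℕ → ℂ) → ℂ} {W : ∀ L : ℕ, Pat L → Pat L → ℂ}

theorem chn_adj (hk : κ ^ 2 + κ + 1 = 0) {N : ℕ} {V : Pat (N + 2) → Pat (N + 2) → ℂ}
    (hadj : ∀ i : ℤ, 0 ≤ i → i + 1 < (N + 2 : ℕ) → ∀ P Q, V (E i P) Q = V P (E i Q))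
    (a b : Pat (N + 2) → ℂ) : ∀ m, m ≤ N →
    bf V (chn (κ ^ 2) (N + 2) N m a) (chn κ (N + 2) N m b) = bf V a b := by
  intro m
  induction m with
  | zero =>
    intro _
    rfl
  | succ m ih =>
    intro hm
    rw [← ih (by omega)]
    change bf V (tb (κ ^ 2) (N + 2) ((N - m : ℕ) : ℤ) (chn (κ ^ 2) (N + 2) N m a))
      (tb κ (N + 2) ((N - m : ℕ) : ℤ) (chn κ (N + 2) N m b)) = _
    set a' := chn (κ ^ 2) (N + 2) N m a
    set b' := chn κ (N + 2) N m b
    set i : ℤ := ((N - m : ℕ) : ℤ) with hi
    have hadj' : ∀ c d : Pat (N + 2) → ℂ, bf V (eL (N + 2) i c) d = bf V c (eL (N + 2) i d) :=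
      fun c d => bf_eL (fun P Q => hadj i (by omega) (by omega) P Q) c d
    rw [tb_apply, tb_apply]
    simp only [map_neg, map_add, map_smul, LinearMap.add_apply, LinearMap.neg_apply,
      LinearMap.smul_apply, smul_eq_mul, hadj', eL_idem, neg_add_rev]
    have hk3 : κ ^ 3 = 1 := by linear_combination (κ - 1) * hk
    linear_combination (bf V a' b' + (1 + κ + κ ^ 2 + κ ^ 3) * bf V a' (eL (N + 2) i b')) * hk3 +
      bf V a' (eL (N + 2) i b') * hk

end Pool.Agent.H15.Exact

end

section

/-!
# Project EXACT, one-arm formula: two strands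
-/

set_option autoImplicit false

open Finset

namespace Pool.Agent.H15.Exact

open H56.EX
open scoped Classical

variable {κ τ : ℂ} {Φ Φ' : ∀ L : ℕ, Pat L → (ℕ → ℂ) → ℂ} {W : ∀ L : ℕ, Pat L → Pat L → ℂ}

theorem Gv_two (h : QP κ Φ) (h' : QP (κ ^ 2) Φ') (hW : FormProps τ W) (s : ℕ → ℂ) :
    Gv W Φ' Φ 2 s = (s 0 + s 1) ^ 2 + (τ - 1) * (s 0 ^ 2 + s 0 * s 1 + s 1 ^ 2) / 3 := by
  have hk := h.kk
  have hk3 := h.cube
  have hk4 : κ ^ 4 = κ := by linear_combination κ * hk3
  have hne : κ - κ ^ 2 ≠ 0 := by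
    intro h0
    have : κ * (1 - κ) = 0 := by linear_combination h0
    rcases mul_eq_zero.mp this with h1 | h1
    · exact h.ne_zero h1
    · exact h.ne_one (by linear_combination -h1)
  have hd : (κ - κ ^ 2) ^ 2 = -3 := by linear_combination (κ ^ 2 - 3 * κ + 3) * hk
  unfold Gv
  rw [bf_apply, sum_two, sum_two, sum_two]
  rw [hW.two_left _ _ patA_zero, hW.two_left _ _ patA_zero, hW.two_right _ _ patA_zero,
    hW.two_base _ _ patB_zero patB_zero]
  unfold vec
  rw [h.two_other _ s patA_zero, h.two_base _ s patB_zero, h'.two_other _ s patA_zero,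
    h'.two_base _ s patB_zero]
  have e1 : (κ ^ 2) ^ 2 = κ := by rw [← pow_mul]; exact hk4
  rw [e1]
  set x := s 0
  set y := s 1
  have e2 : (κ ^ 2 * x - κ * y) / (κ ^ 2 - κ) = (κ * y - κ ^ 2 * x) / (κ - κ ^ 2) := by
    rw [← neg_div_neg_eq]
    congr 1 <;> ring
  have e3 : (κ ^ 2 * y - κ * x) / (κ ^ 2 - κ) = (κ * x - κ ^ 2 * y) / (κ - κ ^ 2) := by
    rw [← neg_div_neg_eq]
    congr 1 <;> ring
  have e4 : (κ * x - κ ^ 2 * y) / (κ - κ ^ 2) + (κ * y - κ ^ 2 * x) / (κ - κ ^ 2) = x + y := by
    rw [← add_div, div_eq_iff hne]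
    ring
  have e5 : (κ * x - κ ^ 2 * y) / (κ - κ ^ 2) * ((κ * y - κ ^ 2 * x) / (κ - κ ^ 2)) =
      (x ^ 2 + x * y + y ^ 2) / 3 := by
    rw [div_mul_div_comm, ← sq, hd]
    have : (κ * x - κ ^ 2 * y) * (κ * y - κ ^ 2 * x) = -(x ^ 2 + x * y + y ^ 2) := by
      linear_combination (x * y * (κ ^ 2 - κ + 1) - (κ - 1) * (x ^ 2 + y ^ 2)) * hk
    rw [this, neg_div_neg_eq]
  rw [e2, e3]
  set A := (κ * x - κ ^ 2 * y) / (κ - κ ^ 2)
  set B := (κ * y - κ ^ 2 * x) / (κ - κ ^ 2)
  rw [← e4]
  linear_combination (τ - 1) * e5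

end Pool.Agent.H15.Exact

end

section

/-!
# Project EXACT, one-arm formula: the pairing as a symmetric polynomial, and its value at `1`
-/

set_option autoImplicit false

open Finset

namespace Pool.Agent.H15.Exact

open H56.EX
open scoped Classical

variable {κ τ : ℂ} {Φ Φ' : ∀ L : ℕ, Pat L → (ℕ → ℂ) → ℂ} {W : ∀ L : ℕ, Pat L → Pat L → ℂ}

theorem GP_swap (h : QP κ Φ) (h' : QP (κ ^ 2) Φ') (hW : FormProps τ W) (L : ℕ) (n : ℕ)
    (hn : n + 1 < L) (z : Fin L → ℂ) :
    MvPolynomial.eval (z ∘ Equiv.swap (⟨n, by omega⟩ : Fin L) ⟨n + 1, hn⟩) (GP h h' W L) =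
      MvPolynomial.eval z (GP h h' W L) := by
  set i : Fin L := ⟨n, by omega⟩ with hi
  set j : Fin L := ⟨n + 1, hn⟩ with hj
  set σ := Equiv.swap i j with hσ
  have hij : i ≠ j := by
    intro h0
    have := congrArg Fin.val h0
    simp [hi, hj] at this
  have h1 : ((MvPolynomial.C κ * MvPolynomial.X j - MvPolynomial.C (κ ^ 2) * MvPolynomial.X i) *
      (MvPolynomial.C κ * MvPolynomial.X i - MvPolynomial.C (κ ^ 2) * MvPolynomial.X j)) *
      (MvPolynomial.rename σ (GP h h' W L) - GP h h' W L) = 0 := by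
    apply MvPolynomial.funext
    intro z
    rw [map_mul, map_mul, map_sub, map_sub, map_sub, map_mul, map_mul, map_mul, map_mul,
      MvPolynomial.eval_C, MvPolynomial.eval_C, MvPolynomial.eval_X, MvPolynomial.eval_X,
      MvPolynomial.eval_rename, map_zero]
    have e1 : MvPolynomial.eval (z ∘ σ) (GP h h' W L) =
        Gv W Φ' Φ L (ex L z ∘ Equiv.swap n (n + 1)) := by
      rw [hσ, ex_comp_swap L z n hn]
      exact eval_GP h h' L _
    rw [e1, eval_GP' h h' L z]
    have e2 := Gv_swap h h' hW L (ex L z) n hn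
    have e3 : ex L z n = z i := by unfold ex; rw [dif_pos]
    have e4 : ex L z (n + 1) = z j := by unfold ex; rw [dif_pos]
    rw [e3, e4] at e2
    exact e2
  have h2 : MvPolynomial.rename σ (GP h h' W L) - GP h h' W L = 0 := by
    rcases mul_eq_zero.mp h1 with h3 | h3
    · exfalso
      rcases mul_eq_zero.mp h3 with h4 | h4
      · have h5 := congrArg (MvPolynomial.eval (Function.update (fun _ => (0 : ℂ)) j 1)) h4
        rw [map_sub, map_mul, map_mul, MvPolynomial.eval_C, MvPolynomial.eval_C,
          MvPolynomial.eval_X, MvPolynomial.eval_X, Function.update_self,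
          Function.update_of_ne hij, map_zero] at h5
        exact h.ne_zero (by linear_combination h5)
      · have h5 := congrArg (MvPolynomial.eval (Function.update (fun _ => (0 : ℂ)) i 1)) h4
        rw [map_sub, map_mul, map_mul, MvPolynomial.eval_C, MvPolynomial.eval_C,
          MvPolynomial.eval_X, MvPolynomial.eval_X, Function.update_self,
          Function.update_of_ne hij.symm, map_zero] at h5
        exact h.ne_zero (by linear_combination h5)
    · exact h3
  have h3 := congrArg (MvPolynomial.eval z) h2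
  rw [map_sub, MvPolynomial.eval_rename, map_zero] at h3
  exact sub_eq_zero.mp h3

theorem GP_perm (h : QP κ Φ) (h' : QP (κ ^ 2) Φ') (hW : FormProps τ W) :
    ∀ (L : ℕ) (σ : Equiv.Perm (Fin L)) (z : Fin L → ℂ),
    MvPolynomial.eval (z ∘ σ) (GP h h' W L) = MvPolynomial.eval z (GP h h' W L) := by
  intro L
  rcases L with _ | m
  · intro σ z
    congr 2
    funext k
    exact k.elim0
  · intro σ
    have hσ : σ ∈ Submonoid.closure (Set.range fun i : Fin m => Equiv.swap i.castSucc i.succ) := by
      rw [Equiv.Perm.mclosure_swap_castSucc_succ]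
      trivial
    induction hσ using Submonoid.closure_induction with
    | mem x hx =>
      obtain ⟨i, rfl⟩ := hx
      intro z
      exact GP_swap h h' hW (m + 1) i (by omega) z
    | one =>
      intro z
      rfl
    | mul a b _ _ ha hb =>
      intro z
      have : z ∘ (a * b : Equiv.Perm (Fin (m + 1))) = (z ∘ a) ∘ b := rfl
      rw [this, hb, ha]

end Pool.Agent.H15.Exact

end

section

/-!
# Project EXACT: the components of the qKZ solution at `ζ = 1` are real
-/

set_option autoImplicit false

open Finset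

namespace Pool.Agent.H15.Exact

open H56.EX Pool.Agent.H12.QKZ
open scoped Classical

variable {L : ℕ}

theorem prod_pairs (f : ℕ → ℂ) (L : ℕ) :
    ∏ k ∈ range L, f k ^ (L - 1) = ∏ j ∈ range L, ∏ i ∈ range j, (f i * f j) := by
  induction L with
  | zero => simp
  | succ L ih =>
    rw [prod_range_succ, prod_range_succ, ← ih, prod_mul_distrib, prod_const, card_range,
      Nat.add_sub_cancel, ← mul_assoc, ← prod_mul_distrib]
    congr 1
    refine prod_congr rfl fun k hk => ?_
    have : L - 1 + 1 = L := by have := mem_range.mp hk; omega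
    rw [← pow_succ, this]

end Pool.Agent.H15.Exact

end

section

/-!
# Project EXACT, one-arm formula: final statements

`vR P` is the component at the pattern `P` of the stationary vector (`ζ = 1`).
-/

set_option autoImplicit false

open Finset

namespace Pool.Agent.H15.Exact

open H56.EX Pool.Agent.H12.QKZ
open scoped Classical

variable {κ τ : ℂ} {Φ Φ' : ∀ L : ℕ, Pat L → (ℕ → ℂ) → ℂ} {W : ∀ L : ℕ, Pat L → Pat L → ℂ}

theorem noSurr_iff {L : ℕ} (P Q : Pat L) : Pool.Agent.H89.Link.NoSurr P Q ↔ ¬ Surr P Q := by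
  have hcard : ∀ X : Finset ℤ, (X.filter (· < 0)).card + (X.filter fun c => 0 ≤ c).card =
      X.card := by
    intro X
    rw [← card_filter_add_card_filter_not (s := X) (p := fun c : ℤ => c < 0)]
    congr 2
    ext x
    simp
  constructor
  · rintro h ⟨X, h1, h2, h3⟩
    have h4 := h X h1 h2
    have h5 := even_card_of_closed P X h1
    rw [← hcard X] at h5
    exact (Nat.not_even_iff_odd.mpr (h3.add_even h4)) h5
  · intro h X h1 h2
    by_contra h3
    rw [Nat.not_even_iff_odd] at h3
    apply h
    refine ⟨X, h1, h2, ?_⟩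
    have h5 := even_card_of_closed P X h1
    rw [← hcard X] at h5
    by_contra h6
    rw [Nat.not_odd_iff_even] at h6
    exact (Nat.not_even_iff_odd.mpr (h6.add_odd h3)) h5

end Pool.Agent.H15.Exact

end
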