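import Pool.Agent.H94.BG.H31.PT.M31_3
import Pool.Agent.H94.BG.H31.PT.M32_1
import Pool.Agent.H94.BG.H31.PT.M34_5
import Pool.Agent.H94.BG.H31.PT.M43_2

/-! The parts of this file: H89.Perc.SimonLieb, H89.Perc.TorusReveal, H89.Perc.TorusVar, H89.Perc.WindBounds, H89.Perc.TorusThreshold, H89.Perc.Final, H93.EX.Basic, H93.EX.Hom1, H93.EX.Hom2, H93.EX.Deg, H93.EX.Uniq, H93.EX.Step, H93.EX.Induct, H93.EX.Hom3, H93.EX.Hom4, H93.EX.Asm, H15.Exact.Bil, H15.Exact.QP, H15.Exact.Rel, H15.Exact.Biv, H15.Exact.Top, H15.Exact.TopG, H15.Exact.Two, H15.Exact.GPoly, H15.Exact.Real, H15.Exact.Final. -/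

section

/-!
# The Simon-Lieb inequality for one-arm probabilities
-/

open MeasureTheory ProbabilityTheory unitInterval

namespace Pool.Agent.H89.Perc

end Pool.Agent.H89.Perc

end

section

/-!
# Queried edges have a primal arm and a dual arm
-/

open MeasureTheory ProbabilityTheory unitInterval

namespace Pool.Agent.H89.Perc

end Pool.Agent.H89.Perc

end

section

/-!
# The OSSS inequality for the winding event
-/

open MeasureTheory ProbabilityTheory unitInterval

namespace Pool.Agent.H89.Perc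

end Pool.Agent.H89.Perc

end

section

/-!
# Lower and upper bounds for the probability of the winding event
-/

open MeasureTheory ProbabilityTheory unitInterval

namespace Pool.Agent.H89.Perc

private lemma wb_swap (q : I) (a b c d x1 y1 x2 y2 : ℤ) :
    Pr q (wbE c d a b (y1, x1) (y2, x2)) = Pr q (wbE a b c d (x1, y1) (x2, y2)) := by
  rw [← Pr_comp (wbE_local a b c d (x1, y1) (x2, y2)) wb_swap_inj.injOn]
  congr 1
  ext ω
  change _ ↔ Conn (fun e => ω (swapE e)) (rect a b c d) (x1, y1) (x2, y2)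
  rw [conn_swap]
  have : {w : Vert | (w.2, w.1) ∈ rect a b c d} = rect c d a b := by
    ext w
    simp only [rect, Set.mem_ofPred_eq]
    omega
  rw [this]
  rfl

lemma wbg_top (q : I) (r : ℕ) (y : ℤ) :
    Pr q (wbE (-r) r (-r) r (0, 0) (y, r)) = wbg q r y := by
  have := wb_swap q (-r) r (-r) r 0 0 r y
  simpa [wbg] using this

private lemma wbg_bottom (q : I) (r : ℕ) (y : ℤ) :
    Pr q (wbE (-r) r (-r) r (0, 0) (y, -r)) = wbg q r y := by
  have := wb_reflY q 0 (-r) r (-r) r 0 0 y r
  rw [wbg_top] at this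
  simpa [wbg] using this

lemma wb_choose (q : I) {r : ℕ} (hr : 1 ≤ r) :
    ∃ y : ℤ, -r ≤ y ∧ y ≤ r ∧ arm q r / (8 * r) ≤ wbg q r y := by
  by_contra hcon
  push Not at hcon
  set F : Finset (Fin 4 × ℤ) := (Finset.univ : Finset (Fin 4)) ×ˢ Finset.Icc (-(r : ℤ)) (r - 1)
    with hF
  have hcard : (F.card : ℝ) = 8 * r := by
    rw [hF, Finset.card_product, Int.card_Icc]
    have : ((r : ℤ) - 1 + 1 - -(r : ℤ)).toNat = 2 * r := by omega
    rw [this]
    simp
    ring
  have hrpos : (0 : ℝ) < 8 * r := by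
    have : (1 : ℝ) ≤ r := by exact_mod_cast hr
    linarith only [this]
  have hne : F.Nonempty := by
    rw [← Finset.card_pos]
    have : (0 : ℝ) < F.card := by rw [hcard]; exact hrpos
    exact_mod_cast this
  have h1 : arm q r ≤ ∑ i ∈ F, Pr q (wbE (-r) r (-r) r (0, 0) (wbv r i)) := by
    calc arm q r = Pr q (Arm 0 r) := rfl
      _ ≤ Pr q (⋃ i ∈ F, wbE (-r) r (-r) r (0, 0) (wbv r i)) := by
          refine Pr_mono ?_
          intro ω hω
          obtain ⟨i, hi, h1⟩ := wb_arm_incl hr hω
          simp only [Set.mem_iUnion]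
          exact ⟨i, hi, h1⟩
      _ ≤ _ := Pr_biUnion_le F _
  have h2 : ∑ i ∈ F, Pr q (wbE (-r) r (-r) r (0, 0) (wbv r i)) < ∑ _i ∈ F, arm q r / (8 * r) := by
    apply Finset.sum_lt_sum_of_nonempty hne
    rintro ⟨j, t⟩ hi
    rw [hF, Finset.mem_product, Finset.mem_Icc] at hi
    simp only at hi
    fin_cases j
    · change Pr q (wbE (-r) r (-r) r (0, 0) (r, t)) < _
      exact hcon t (by omega) (by omega)
    · change Pr q (wbE (-r) r (-r) r (0, 0) (-r, -t)) < _
      rw [wbg_left]
      exact hcon (-t) (by omega) (by omega)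
    · change Pr q (wbE (-r) r (-r) r (0, 0) (-t, r)) < _
      rw [wbg_top]
      exact hcon (-t) (by omega) (by omega)
    · change Pr q (wbE (-r) r (-r) r (0, 0) (t, -r)) < _
      rw [wbg_bottom]
      exact hcon t (by omega) (by omega)
  rw [Finset.sum_const, nsmul_eq_mul, hcard, mul_div_cancel₀ _ hrpos.ne'] at h2
  linarith only [h1, h2]

/-! ### The torus -/

end Pool.Agent.H89.Perc

end

section

/-!
# Consequence of the threshold inequality
-/

open MeasureTheory ProbabilityTheory unitInterval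

namespace Pool.Agent.H89.Perc

end Pool.Agent.H89.Perc

end

section

/-!
# Lower bound for the percolation probability
-/

open MeasureTheory ProbabilityTheory unitInterval Filter Topology

namespace Pool.Agent.H89.Perc

end Pool.Agent.H89.Perc

end

section

/-! EXACT project, one-arm formula, pure algebra part (helper93). -/

namespace EX93

open Finset Polynomial

variable {R : Type*} [CommRing R]

lemma QQ_map {S : Type*} [CommRing S] (f : R →+* S) (q ω : R) (m : ℕ) (z : Fin m → R) :
    f (QQ q ω m z) = QQ (f q) (f ω) m (fun i => f (z i)) := by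
  unfold QQ wt pp
  rw [map_sum]
  refine Finset.sum_congr rfl fun s _ => ?_
  rw [map_mul, map_prod, map_prod]
  congr 1
  · refine Finset.prod_congr rfl fun i _ => ?_
    split_ifs <;> simp
  · refine Finset.prod_congr rfl fun i _ => ?_
    rw [map_prod]
    refine Finset.prod_congr rfl fun j _ => ?_
    cases s i <;> cases s j <;> simp [hh]

lemma VV_map {S : Type*} [CommRing S] (f : R →+* S) (m : ℕ) (z : Fin m → R) :
    f (VV m z) = VV m (fun i => f (z i)) := by
  unfold VV
  rw [map_prod]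
  refine Finset.prod_congr rfl fun i _ => ?_
  rw [map_prod]
  refine Finset.prod_congr rfl fun j _ => ?_
  simp

end EX93

end

section

namespace EX93

open Finset Polynomial Matrix

section
variable {R : Type*} [CommRing R] {L : ℕ}

end

section
variable {L : ℕ}

end

end EX93

end

section

namespace EX93

open Finset Polynomial Matrix

section
variable {R : Type*} [CommRing R] {L : ℕ}

lemma NN_map {S : Type*} [CommRing S] (f : R →+* S) (ω : R) (x : Fin L → R) :
    (NN ω x).map f = NN (f ω) (fun i => f (x i)) := by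
  ext i k
  simp only [NN, Matrix.map_apply, Matrix.of_apply]
  rw [← coeff_map, map_modByMonic _ (Apol_monic x)]
  congr 2
  · unfold rpol bpol cpol gg
    simp [Polynomial.map_prod]
  · unfold Apol
    simp [Polynomial.map_prod]

lemma pasc_series (k L : ℕ) (hk : k < L) :
    ((1 : PowerSeries R) - PowerSeries.X) ^ L *
      PowerSeries.mk (fun n => ((Nat.choose (k + n) k : ℕ) : R))
      = ((1 : PowerSeries R) - PowerSeries.X) ^ (L - (k + 1)) := by
  rw [← PowerSeries.mk_one_pow_eq_mk_choose_add]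
  have h := PowerSeries.mk_one_mul_one_sub_eq_one (S := R)
  have : L = (L - (k + 1)) + (k + 1) := by omega
  conv_lhs => rw [this, pow_add]
  rw [mul_assoc, ← mul_pow, mul_comm (1 - PowerSeries.X), h, one_pow, mul_one]

lemma NN_zero_eq [Nontrivial R] (ω : R) :
    NN ω (fun _ => 0 : Fin L → R) = UU R L * (ω • (1 : Matrix (Fin L) (Fin L) R) + pasc R L) := by
  ext i k
  have hA : Apol (fun _ => 0 : Fin L → R) = X ^ L := by
    unfold Apol; simp
  have hb : bpol (fun _ => 0 : Fin L → R) = (1 - X) ^ L := by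
    unfold bpol gg; simp
  have hc : cpol (fun _ => 0 : Fin L → R) = 1 := by
    unfold cpol gg; simp
  simp only [NN, Matrix.of_apply]
  rw [hA]
  have hmod : ∀ P : R[X], (P %ₘ X ^ L).coeff i = P.coeff i := by
    intro P
    have := modByMonic_add_div P (X ^ L : R[X])
    conv_rhs => rw [← this]
    rw [coeff_add, mul_comm, coeff_mul_X_pow', if_neg (by simp), add_zero]
  rw [hmod]
  unfold rpol
  rw [hb, hc, one_mul, mul_assoc, coeff_add, coeff_C_mul]
  rw [Matrix.mul_add, Matrix.add_apply, Matrix.mul_smul, Matrix.mul_one, Matrix.smul_apply,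
    smul_eq_mul]
  congr 1
  rw [Matrix.mul_apply]
  -- power series comparison
  have hk : (k : ℕ) < L := k.2
  have h1 := congrArg (PowerSeries.coeff (i : ℕ)) (pasc_series (R := R) k L hk)
  have h2 : PowerSeries.coeff (i : ℕ) (((1 : PowerSeries R) - PowerSeries.X) ^ (L - (k + 1)))
      = ((1 - X : R[X]) ^ (k.rev : ℕ)).coeff i := by
    rw [Fin.val_rev]
    have : (((1 : PowerSeries R) - PowerSeries.X) ^ (L - (k + 1)))
        = (((1 - X : R[X]) ^ (L - (k + 1)) : R[X]) : PowerSeries R) := by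
      simp
    rw [this, Polynomial.coeff_coe]
  rw [h2] at h1
  rw [← h1]
  have h3 : ((1 : PowerSeries R) - PowerSeries.X) ^ L = (((1 - X : R[X]) ^ L : R[X]) : PowerSeries R) := by
    simp
  rw [h3, PowerSeries.coeff_mul, Finset.Nat.sum_antidiagonal_eq_sum_range_succ_mk]
  simp only [Polynomial.coeff_coe, PowerSeries.coeff_mk, UU, pasc, Matrix.of_apply]
  -- sum over Fin L of coeff((1-X)^L X^j) i * C(j+k, j)
  have h4 : ∀ j : Fin L, ((1 - X : R[X]) ^ L * X ^ (j : ℕ)).coeff i *
      ((Nat.choose ((j : ℕ) + k) j : ℕ) : R)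
      = if (j : ℕ) ≤ i then ((1 - X : R[X]) ^ L).coeff (i - j) *
        ((Nat.choose ((j : ℕ) + k) j : ℕ) : R) else 0 := by
    intro j
    rw [coeff_mul_X_pow']
    split_ifs <;> simp
  rw [Finset.sum_congr rfl (fun j _ => h4 j)]
  rw [Fin.sum_univ_eq_sum_range (fun j => if j ≤ (i : ℕ) then ((1 - X : R[X]) ^ L).coeff (i - j) *
        ((Nat.choose (j + k) j : ℕ) : R) else 0) L]
  rw [← Finset.sum_filter]
  have h5 : (Finset.range L).filter (fun j => j ≤ (i : ℕ)) = Finset.range ((i : ℕ) + 1) := by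
    ext j
    simp only [Finset.mem_filter, Finset.mem_range]
    have := i.2
    omega
  rw [h5, ← Finset.sum_range_reflect]
  refine Finset.sum_congr rfl fun j hj => ?_
  rw [Finset.mem_range] at hj
  have e1 : (i : ℕ) + 1 - 1 - j = i - j := by omega
  have e2 : (i : ℕ) - (i - j) = j := by omega
  have e3 : Nat.choose ((j : ℕ) + k) j = Nat.choose (k + j) k := by
    rw [Nat.choose_symm_add, Nat.add_comm]
  rw [e1, e2, e3]

lemma NN_zero [Nontrivial R] (ω : R) :
    (NN ω (fun _ => 0 : Fin L → R)).det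
      = (ω • (1 : Matrix (Fin L) (Fin L) R) + pasc R L).det := by
  rw [NN_zero_eq, Matrix.det_mul, det_UU, one_mul]

end

end EX93

end

section

namespace EX93

open Finset Polynomial

variable {R : Type*} [CommRing R]

lemma natDegree_VV_le {m : ℕ} (z : Fin m → R) :
    (VV (m + 1) (Fin.cons X (fun j => C (z j)) : Fin (m + 1) → R[X])).natDegree ≤ m := by
  rw [VV_cons]
  have hp : VV m (fun j => (C (z j) : R[X])) = C (VV m z) := by
    rw [VV_map]
  rw [hp]
  refine (natDegree_mul_C_le _ _).trans ?_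
  refine (natDegree_prod_le _ _).trans ?_
  have : ∀ j ∈ (Finset.univ : Finset (Fin m)), (C (z j) - X : R[X]).natDegree ≤ 1 := by
    intro j _; compute_degree
  refine (Finset.sum_le_sum this).trans ?_
  simp

lemma coeff_VV {m : ℕ} (z : Fin m → R) :
    (VV (m + 1) (Fin.cons X (fun j => C (z j)) : Fin (m + 1) → R[X])).coeff m
      = (-1) ^ m * VV m z := by
  rw [VV_cons]
  have hp : VV m (fun j => (C (z j) : R[X])) = C (VV m z) := by
    rw [VV_map]
  rw [hp, coeff_mul_C]
  have := coeff_prod_of_natDegree_le (s := (Finset.univ : Finset (Fin m)))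
    (fun j => (C (z j) - X : R[X])) 1 (fun j _ => by compute_degree)
  simp only [Finset.card_univ, Fintype.card_fin, mul_one] at this
  rw [this]
  congr 1
  simp

end EX93

end

section

namespace EX93

open Finset Polynomial

section

end

section
variable {m : ℕ}

end

end EX93

end

section

namespace EX93

open Finset Polynomial

section
variable {m : ℕ}

theorem step (q ω A B : ℂ) (hq : q ^ 2 + q + 1 = 0)
    (G' : (Fin (m + 2) → ℂ) → ℂ)
    (hsym : ∀ Z (σ : Equiv.Perm (Fin (m + 2))), G' (Z ∘ σ) = G' Z)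
    (hwheel : ∀ (w : ℂ) (z : Fin m → ℂ),
      A * G' (Fin.cons (q ^ 2 * w) (Fin.cons w z : Fin (m + 1) → ℂ)) *
        VV (m + 2) (Fin.cons (q ^ 2 * w) (Fin.cons w z : Fin (m + 1) → ℂ)) =
      B * QQ q ω (m + 2) (Fin.cons (q ^ 2 * w) (Fin.cons w z : Fin (m + 1) → ℂ)))
    (z : Fin m → ℂ) (hz : ∀ i, z i ≠ 0) (hz' : ∀ i j, i ≠ j → z i ^ 3 ≠ z j ^ 3)
    (p : ℂ[X][X]) (hp1 : p.natDegree ≤ 2 * (m + 1))
    (hp2 : (p.coeff (2 * (m + 1))).natDegree ≤ 2 * m)
    (hp3 : A * (p.coeff (2 * (m + 1))).coeff (2 * m) * VV m z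
      = B * (1 + ω) ^ 2 * QQ q ω m z)
    (hp4 : ∀ x y, (p.eval (C x)).eval y
      = G' (Fin.cons x (Fin.cons y z : Fin (m + 1) → ℂ)))
    (x y : ℂ) :
    A * G' (Fin.cons x (Fin.cons y z : Fin (m + 1) → ℂ)) *
        VV (m + 2) (Fin.cons x (Fin.cons y z : Fin (m + 1) → ℂ)) =
      B * QQ q ω (m + 2) (Fin.cons x (Fin.cons y z : Fin (m + 1) → ℂ)) := by
  have q3' := q3 hq
  set F : (Fin (m + 2) → ℂ) → ℂ := fun Z => A * G' Z * VV (m + 2) Z - B * QQ q ω (m + 2) Z
    with hF
  have hanti : ∀ Z (σ : Equiv.Perm (Fin (m + 2))),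
      F (Z ∘ σ) = (Equiv.Perm.sign σ : ℤ) * F Z := by
    intro Z σ
    simp only [hF]
    rw [hsym, VV_perm, QQ_perm]
    ring
  have hw : ∀ (w : ℂ) (z : Fin m → ℂ),
      F (Fin.cons (q ^ 2 * w) (Fin.cons w z : Fin (m + 1) → ℂ)) = 0 := by
    intro w z
    simp only [hF]
    rw [hwheel, sub_self]
  have hzero := anti_zero q hq F hanti hw
  -- the bivariate polynomial
  set V2 : ℂ[X][X] := VV (m + 2) (ZZ z) with hV2
  set Q2 : ℂ[X][X] := QQ (C (C q)) (C (C ω)) (m + 2) (ZZ z) with hQ2
  set E2 : ℂ[X][X] := C (C A) * p * V2 - C (C B) * Q2 with hE2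
  have hV2d : V2.natDegree ≤ m + 1 := natDegree_VV_le (wz z)
  have hQ2d : Q2.natDegree ≤ 3 * (m + 1) := natDegree_QQ_le (C q) (C ω) (wz z)
  have hCA : (C (C A) * p).natDegree ≤ 2 * (m + 1) := (natDegree_C_mul_le _ _).trans hp1
  have hE2d : E2.natDegree ≤ 3 * (m + 1) := by
    refine (natDegree_sub_le _ _).trans (max_le ?_ ?_)
    · refine natDegree_mul_le.trans ?_
      omega
    · exact (natDegree_C_mul_le _ _).trans hQ2d
  have hev : ∀ a b, ev2 a b E2 = F (Fin.cons a (Fin.cons b z : Fin (m + 1) → ℂ)) := by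
    intro a b
    rw [hE2, map_sub, map_mul, map_mul, map_mul, hV2, hQ2, VV_map, QQ_map]
    have e1 : (fun i => ev2 a b (ZZ z i))
        = (Fin.cons a (Fin.cons b z : Fin (m + 1) → ℂ) : Fin (m + 2) → ℂ) := by
      funext i; exact ev_ZZ z a b i
    have e2 : ∀ c : ℂ, ev2 a b (C (C c)) = c := by intro c; simp [ev2_apply]
    rw [e1, e2, e2, e2, e2, ev2_apply, hp4]
  set l : ℂ[X] := E2.coeff (3 * (m + 1)) with hl
  -- Step A
  have hA : ∀ b : ℂ, b ≠ 0 → (∀ j, b ^ 3 ≠ z j ^ 3) → ∀ a,
      ev2 a b E2 = l.eval b * ((a ^ 3 - b ^ 3) * ∏ j, (a ^ 3 - z j ^ 3)) := by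
    intro b hb hbz a
    set Zb : Fin (m + 1) → ℂ := Fin.cons b z with hZb
    have h0 : ∀ i, Zb i ≠ 0 := by
      intro i; refine Fin.cases ?_ (fun i => ?_) i
      · simpa [hZb] using hb
      · simpa [hZb] using hz i
    have h1 : ∀ i j, i ≠ j → Zb i ^ 3 ≠ Zb j ^ 3 := by
      intro i j
      refine Fin.cases ?_ (fun i => ?_) i
      · refine Fin.cases ?_ (fun j => ?_) j
        · intro h; exact absurd rfl h
        · intro _; simpa [hZb] using hbz j
      · refine Fin.cases ?_ (fun j => ?_) j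
        · intro _; simpa [hZb] using (hbz i).symm
        · intro h; simpa [hZb] using hz' i j (fun h' => h (by rw [h']))
    set P := E2.map (evalRingHom b) with hP
    have hPd : P.natDegree ≤ 3 * (m + 1) := natDegree_map_le.trans hE2d
    have hroot : ∀ (i : Fin (m + 1)) (ζ : ℂ), (ζ = 1 ∨ ζ = q ∨ ζ = q ^ 2) →
        P.eval (ζ * Zb i) = 0 := by
      intro i ζ hζ
      rw [hP, ← ev2_eq_map, hev]
      refine hzero _ 0 i.succ (by exact (Fin.succ_ne_zero i).symm) ?_
      simp only [Fin.cons_zero, Fin.cons_succ]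
      rcases hζ with h | h | h
      · left; rw [h, one_mul]
      · right; left; rw [h]
      · right; right; rw [h]
    have := root_factor hq Zb h0 h1 P hPd
      (fun i => by simpa using hroot i 1 (Or.inl rfl))
      (fun i => hroot i q (Or.inr (Or.inl rfl)))
      (fun i => hroot i (q ^ 2) (Or.inr (Or.inr rfl)))
    rw [ev2_eq_map, ← hP, this, eval_mul, eval_C, hP, coeff_map]
    rw [eval_prod, Fin.prod_univ_succ]
    simp [hZb, hl]
  -- generic values are cofinite
  have hinf : ∀ (T : Finset ℂ), ∃ b : ℂ, b ∉ T := fun T => Infinite.exists_notMem_finset T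
  set bad : Set ℂ := {b | b = 0} ∪ ⋃ j, {b | b ^ 3 = z j ^ 3} with hbad
  have hbadfin : bad.Finite := by
    refine Set.Finite.union (by simp) (Set.finite_iUnion (fun j => ?_))
    have : {b : ℂ | b ^ 3 = z j ^ 3} ⊆ ↑((X ^ 3 - C (z j ^ 3) : ℂ[X]).roots.toFinset) := by
      intro b hb
      have hne : (X ^ 3 - C (z j ^ 3) : ℂ[X]) ≠ 0 :=
        (monic_X_pow_sub_C _ (by norm_num)).ne_zero
      have hb' : b ^ 3 = z j ^ 3 := hb
      simp only [Finset.mem_coe, Multiset.mem_toFinset]
      rw [mem_roots hne, IsRoot, eval_sub, eval_pow, eval_X, eval_C, hb', sub_self]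
    exact (Finset.finite_toSet _).subset this
  -- Step B
  have hB : ∀ a : ℂ, E2.eval (C a)
      = l * ((C (a ^ 3) - X ^ 3) * C (∏ j, (a ^ 3 - z j ^ 3))) := by
    intro a
    apply eq_of_infinite_eval_eq
    refine Set.Infinite.mono ?_ (hbadfin.infinite_compl)
    intro b hb
    have hb1 : b ≠ 0 := fun h => hb (Or.inl h)
    have hb2 : ∀ j, b ^ 3 ≠ z j ^ 3 := fun j h => hb (Or.inr (Set.mem_iUnion.mpr ⟨j, h⟩))
    have := hA b hb1 hb2 a
    rw [ev2_apply] at this
    change eval b (eval (C a) E2) = _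
    rw [this, eval_mul, eval_mul, eval_C, eval_sub, eval_C, eval_pow, eval_X]
  -- degree in the inner variable
  have hBd : ∀ a : ℂ, (E2.eval (C a)).natDegree ≤ 3 * (m + 1) := by
    intro a
    have : E2.eval (C a) = - E2.map (evalRingHom a) := by
      apply Polynomial.funext
      intro b
      rw [eval_neg, ← ev2_eq_map, ← ev2_apply, hev, hev]
      have := hanti (Fin.cons b (Fin.cons a z : Fin (m + 1) → ℂ)) (Equiv.swap 0 1)
      rw [Equiv.Perm.sign_swap (by simp)] at this
      have h2 : (Fin.cons b (Fin.cons a z : Fin (m + 1) → ℂ) : Fin (m + 2) → ℂ) ∘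
          (Equiv.swap 0 1) = (Fin.cons a (Fin.cons b z : Fin (m + 1) → ℂ)) := by
        funext i
        refine Fin.cases ?_ (fun i => ?_) i
        · simp only [Function.comp_apply, Equiv.swap_apply_left, Fin.cons_zero]
          rfl
        · refine Fin.cases ?_ (fun i => ?_) i
          · have : (Fin.succ 0 : Fin (m + 2)) = 1 := rfl
            simp only [Function.comp_apply, this, Equiv.swap_apply_right, Fin.cons_zero]
            rfl
          · have h3 : (Equiv.swap (0 : Fin (m + 2)) 1) i.succ.succ = i.succ.succ := by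
              apply Equiv.swap_apply_of_ne_of_ne
              · exact Fin.succ_ne_zero _
              · intro h
                have : (1 : Fin (m + 2)) = Fin.succ 0 := rfl
                rw [this] at h
                exact Fin.succ_ne_zero _ (Fin.succ_injective _ h)
            simp [Function.comp_apply, h3]
      rw [h2] at this
      rw [this]; simp
    rw [this, natDegree_neg]
    exact natDegree_map_le.trans hE2d
  -- choose a generic a
  obtain ⟨a0, ha0⟩ : ∃ a0 : ℂ, a0 ∉ bad := by
    obtain ⟨a0, h⟩ := hbadfin.infinite_compl.nonempty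
    exact ⟨a0, h⟩
  have ha1 : ∀ j, a0 ^ 3 - z j ^ 3 ≠ 0 :=
    fun j h => ha0 (Or.inr (Set.mem_iUnion.mpr ⟨j, sub_eq_zero.mp h⟩))
  have hc : (∏ j, (a0 ^ 3 - z j ^ 3)) ≠ 0 := Finset.prod_ne_zero_iff.mpr (fun j _ => ha1 j)
  have hld : l.natDegree ≤ 3 * m := by
    by_cases hl0 : l = 0
    · rw [hl0]; simp
    have h1 := hBd a0
    rw [hB a0] at h1
    have hX : (C (a0 ^ 3) - X ^ 3 : ℂ[X]).natDegree = 3 := by
      have : (C (a0 ^ 3) - X ^ 3 : ℂ[X]) = -(X ^ 3 - C (a0 ^ 3)) := by ring
      rw [this, natDegree_neg, natDegree_X_pow_sub_C]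
    have hXne : (C (a0 ^ 3) - X ^ 3 : ℂ[X]) ≠ 0 := by
      intro h; rw [h] at hX; simp at hX
    rw [natDegree_mul hl0 (mul_ne_zero hXne (C_ne_zero.mpr hc)),
      natDegree_mul hXne (C_ne_zero.mpr hc), hX, natDegree_C] at h1
    omega
  have hlroot : ∀ (i : Fin m) (ζ : ℂ), (ζ = 1 ∨ ζ = q ∨ ζ = q ^ 2) →
      l.eval (ζ * z i) = 0 := by
    intro i ζ hζ
    have h1 : ev2 a0 (ζ * z i) E2 = 0 := by
      rw [hev]
      refine hzero _ 1 i.succ.succ ?_ ?_
      · intro h
        have : (1 : Fin (m + 2)) = Fin.succ 0 := rfl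
        rw [this] at h
        exact Fin.succ_ne_zero _ (Fin.succ_injective _ h).symm
      · have : (1 : Fin (m + 2)) = Fin.succ 0 := rfl
        rw [this]
        simp only [Fin.cons_zero, Fin.cons_succ]
        rcases hζ with h | h | h
        · left; rw [h, one_mul]
        · right; left; rw [h]
        · right; right; rw [h]
    rw [ev2_apply, hB a0, eval_mul, eval_mul, eval_C, eval_sub, eval_C, eval_pow, eval_X] at h1
    have hζ3 : (ζ * z i) ^ 3 = z i ^ 3 := by
      rcases hζ with h | h | h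
      · rw [h]; ring
      · rw [h, mul_pow, q3']; ring
      · rw [h, mul_pow, ← pow_mul, mul_comm 2 3, pow_mul, q3']; ring
    rw [hζ3] at h1
    rcases mul_eq_zero.mp h1 with h | h
    · exact h
    · exact absurd h (mul_ne_zero (ha1 i) hc)
  have hlf := root_factor hq z hz hz' l hld
      (fun i => by simpa using hlroot i 1 (Or.inl rfl))
      (fun i => hlroot i q (Or.inr (Or.inl rfl)))
      (fun i => hlroot i (q ^ 2) (Or.inr (Or.inr rfl)))
  -- the leading coefficient
  have hl1 : l = (-1) ^ (m + 1) * (C A * p.coeff (2 * (m + 1)) * VV (m + 1) (wz z)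
      - C B * (1 + C ω) * QQ (C q) (C ω) (m + 1) (wz z)) := by
    rw [hl, hE2, coeff_sub]
    have e1 : (C (C A) * p * V2).coeff (3 * (m + 1))
        = (C (C A) * p).coeff (2 * (m + 1)) * V2.coeff (m + 1) := by
      have : 3 * (m + 1) = 2 * (m + 1) + (m + 1) := by ring
      rw [this]
      exact coeff_mul_add_eq_of_natDegree_le hCA hV2d
    have e2 : V2.coeff (m + 1) = (-1) ^ (m + 1) * VV (m + 1) (wz z) := coeff_VV (wz z)
    have e3 : Q2.coeff (3 * (m + 1))
        = (-1) ^ (m + 1) * (1 + C ω) * QQ (C q) (C ω) (m + 1) (wz z) := by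
      have hq3 : (C q : ℂ[X]) ^ 3 = 1 := by rw [← C_pow, q3', C_1]
      exact coeff_QQ (C q) (C ω) hq3 (wz z)
    rw [e1, e2, coeff_C_mul, coeff_C_mul, e3]
    ring
  have hl2 : l.coeff (3 * m) = 0 := by
    have f1 : (p.coeff (2 * (m + 1)) * VV (m + 1) (wz z)).coeff (3 * m)
        = (p.coeff (2 * (m + 1))).coeff (2 * m) * ((-1) ^ m * VV m z) := by
      have : 3 * m = 2 * m + m := by ring
      have h5 : (VV (m + 1) (wz z)).natDegree ≤ m := natDegree_VV_le z
      have h6 : (VV (m + 1) (wz z)).coeff m = (-1) ^ m * VV m z := coeff_VV z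
      rw [this, coeff_mul_add_eq_of_natDegree_le hp2 h5, h6]
    have f2 : (QQ (C q) (C ω) (m + 1) (wz z)).coeff (3 * m)
        = (-1) ^ m * (1 + ω) * QQ q ω m z := coeff_QQ q ω q3' z
    have f3 : (C A * p.coeff (2 * (m + 1)) * VV (m + 1) (wz z)
      - C B * (1 + C ω) * QQ (C q) (C ω) (m + 1) (wz z)).coeff (3 * m) = 0 := by
      have : C B * (1 + C ω) * QQ (C q) (C ω) (m + 1) (wz z)
          = C (B * (1 + ω)) * QQ (C q) (C ω) (m + 1) (wz z) := by
        rw [C_mul, C_add, C_1]
      rw [this, mul_assoc (C A), coeff_sub, coeff_C_mul, coeff_C_mul, f1, f2]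
      linear_combination (-1) ^ m * hp3
    rw [hl1]
    rcases Nat.even_or_odd (m + 1) with he | ho
    · rw [he.neg_one_pow, one_mul]; exact f3
    · rw [ho.neg_one_pow, neg_one_mul, coeff_neg, f3, neg_zero]
  have hl3 : l = 0 := by rw [hlf, hl2]; simp
  have hfin : ev2 x y E2 = 0 := by
    rw [ev2_apply, hB x, hl3]; simp
  rw [hev] at hfin
  simp only [hF] at hfin
  exact sub_eq_zero.mp hfin

end

end EX93

end

section

namespace EX93

open Finset Polynomial

/-- **Uniqueness theorem**: a family of symmetric polynomials with the wheel recursion and the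
prescribed top coefficient is the explicit symmetric function `QQ / VV`. -/
theorem main_identity (q ω κ τ : ℂ) (hq : q ^ 2 + q + 1 = 0)
    (hτ : ω * (τ + 2) = (1 + ω) ^ 2)
    (G : (n : ℕ) → MvPolynomial (Fin (2 * n)) ℂ)
    (h0 : ∀ z, MvPolynomial.eval z (G 0) = 1)
    (hsym : ∀ n (σ : Equiv.Perm (Fin (2 * n))) (z : Fin (2 * n) → ℂ),
      MvPolynomial.eval (z ∘ σ) (G n) = MvPolynomial.eval z (G n))
    (hwheel : ∀ n (w : ℂ) (z : Fin (2 * n) → ℂ),
      MvPolynomial.eval (Fin.cons (q ^ 2 * w) (Fin.cons w z : Fin (2 * n + 1) → ℂ)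
        : Fin (2 * n + 2) → ℂ) (G (n + 1))
      = 3 * κ * q ^ 2 * w ^ 2 * (∏ j, (z j - q * w) ^ 4) * MvPolynomial.eval z (G n))
    (htop : ∀ n (z : Fin (2 * n) → ℂ), ∃ p : ℂ[X][X],
      p.natDegree ≤ 2 * (2 * n + 1) ∧ (p.coeff (2 * (2 * n + 1))).natDegree ≤ 2 * (2 * n) ∧
      (p.coeff (2 * (2 * n + 1))).coeff (2 * (2 * n)) = κ * (τ + 2) * MvPolynomial.eval z (G n) ∧
      ∀ x y : ℂ, (p.eval (C x)).eval y = MvPolynomial.eval
        (Fin.cons x (Fin.cons y z : Fin (2 * n + 1) → ℂ) : Fin (2 * n + 2) → ℂ) (G (n + 1))) :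
    ∀ n (z : Fin (2 * n) → ℂ),
      ω ^ n * MvPolynomial.eval z (G n) * VV (2 * n) z = κ ^ n * QQ q ω (2 * n) z := by
  intro n
  induction n with
  | zero =>
    intro z
    rw [h0]
    have e1 : VV (2 * 0) z = 1 := by simp [VV]
    have e2 : QQ q ω (2 * 0) z = 1 := by simp [QQ, wt, pp]
    rw [e1, e2]; simp
  | succ n ih =>
    have q3' := q3 hq
    -- wheel
    have hw : ∀ (w : ℂ) (z : Fin (2 * n) → ℂ),
        ω ^ (n + 1) * MvPolynomial.eval (Fin.cons (q ^ 2 * w)
          (Fin.cons w z : Fin (2 * n + 1) → ℂ) : Fin (2 * n + 2) → ℂ) (G (n + 1)) *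
        VV (2 * n + 2) (Fin.cons (q ^ 2 * w) (Fin.cons w z : Fin (2 * n + 1) → ℂ)) =
        κ ^ (n + 1) * QQ q ω (2 * n + 2)
          (Fin.cons (q ^ 2 * w) (Fin.cons w z : Fin (2 * n + 1) → ℂ)) := by
      intro w z
      rw [hwheel, VV_wheel, QQ_wheel q ω hq]
      have hprod : (∏ j, ((z j - w) * (z j - q ^ 2 * w) * (z j - q * w) ^ 4))
          = (∏ j, (z j - q * w) ^ 4) * ∏ j, ((z j - w) * (z j - q ^ 2 * w)) := by
        rw [← Finset.prod_mul_distrib]
        exact Finset.prod_congr rfl (fun j _ => by ring)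
      rw [hprod]
      have hi := ih z
      have hc : 3 * q ^ 2 * (1 - q ^ 2) = -(q ^ 2 - q) ^ 3 := by
        linear_combination (q ^ 3 - 3 * q ^ 2) * q3'
      have : ω ^ (n + 1) * (3 * κ * q ^ 2 * w ^ 2 * (∏ j, (z j - q * w) ^ 4)
            * MvPolynomial.eval z (G n)) *
          ((1 - q ^ 2) * w * (∏ j, ((z j - w) * (z j - q ^ 2 * w))) * VV (2 * n) z)
          = (3 * q ^ 2 * (1 - q ^ 2)) * κ * ω * w ^ 3 * (∏ j, (z j - q * w) ^ 4) *
            (∏ j, ((z j - w) * (z j - q ^ 2 * w))) *
            (ω ^ n * MvPolynomial.eval z (G n) * VV (2 * n) z) := by ring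
      rw [this, hi, hc]
      ring
    -- generic points
    have hgen : ∀ (z : Fin (2 * n) → ℂ), (∀ i, z i ≠ 0) → (∀ i j, i ≠ j → z i ^ 3 ≠ z j ^ 3) →
        ∀ x y : ℂ, ω ^ (n + 1) * MvPolynomial.eval (Fin.cons x
          (Fin.cons y z : Fin (2 * n + 1) → ℂ) : Fin (2 * n + 2) → ℂ) (G (n + 1)) *
        VV (2 * n + 2) (Fin.cons x (Fin.cons y z : Fin (2 * n + 1) → ℂ)) =
        κ ^ (n + 1) * QQ q ω (2 * n + 2)
          (Fin.cons x (Fin.cons y z : Fin (2 * n + 1) → ℂ)) := by
      intro z hz hz' x y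
      obtain ⟨p, hp1, hp2, hp3, hp4⟩ := htop n z
      refine step (m := 2 * n) q ω (ω ^ (n + 1)) (κ ^ (n + 1)) hq
        (fun Z => MvPolynomial.eval Z (G (n + 1))) (fun Z σ => hsym (n + 1) σ Z) hw z hz hz' p hp1
        hp2 ?_ hp4 x y
      have hi := ih z
      rw [hp3]
      linear_combination (κ * ω * (τ + 2)) * hi + κ ^ (n + 1) * QQ q ω (2 * n) z * hτ
    -- density
    set D : MvPolynomial (Fin (2 * n + 2)) ℂ :=
      (∏ i : Fin (2 * n), MvPolynomial.X i.succ.succ) *
      ∏ i : Fin (2 * n), ∏ j : Fin (2 * n), (if i = j then 1 else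
        (MvPolynomial.X i.succ.succ ^ 3 - MvPolynomial.X j.succ.succ ^ 3)) with hD
    have hDev : ∀ Z : Fin (2 * n + 2) → ℂ, MvPolynomial.eval Z D =
        (∏ i : Fin (2 * n), Z i.succ.succ) *
        ∏ i : Fin (2 * n), ∏ j : Fin (2 * n), (if i = j then 1 else
          (Z i.succ.succ ^ 3 - Z j.succ.succ ^ 3)) := by
      intro Z
      rw [hD, map_mul, map_prod, map_prod]
      congr 1
      · simp
      · refine Finset.prod_congr rfl fun i _ => ?_
        rw [map_prod]
        refine Finset.prod_congr rfl fun j _ => ?_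
        split_ifs <;> simp
    have hD0 : D ≠ 0 := by
      intro h
      have h1 := hDev (fun i => (i : ℕ))
      rw [h, map_zero] at h1
      have h2 : (∏ i : Fin (2 * n), (((i.succ.succ : Fin (2 * n + 2)) : ℕ) : ℂ)) *
        ∏ i : Fin (2 * n), ∏ j : Fin (2 * n), (if i = j then 1 else
          ((((i.succ.succ : Fin (2 * n + 2)) : ℕ) : ℂ) ^ 3
            - (((j.succ.succ : Fin (2 * n + 2)) : ℕ) : ℂ) ^ 3)) ≠ 0 := by
        refine mul_ne_zero ?_ ?_
        · refine Finset.prod_ne_zero_iff.mpr (fun i _ => ?_)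
          simp only [Fin.val_succ]
          exact Nat.cast_ne_zero.mpr (Nat.succ_ne_zero (i.val + 1))
        · refine Finset.prod_ne_zero_iff.mpr (fun i _ => Finset.prod_ne_zero_iff.mpr
            (fun j _ => ?_))
          split_ifs with hij
          · exact one_ne_zero
          · rw [sub_ne_zero]
            intro h3
            apply hij
            have h4 : ((i.succ.succ : Fin (2 * n + 2)) : ℕ) ^ 3
                = ((j.succ.succ : Fin (2 * n + 2)) : ℕ) ^ 3 := by exact_mod_cast h3
            have h5 := Nat.pow_left_injective (n := 3) (by norm_num) h4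
            simp only [Fin.val_succ] at h5
            exact Fin.ext (by omega)
      exact h2 h1.symm
    set EE : MvPolynomial (Fin (2 * n + 2)) ℂ :=
      MvPolynomial.C (ω ^ (n + 1)) * G (n + 1) * VV (2 * n + 2) MvPolynomial.X
      - MvPolynomial.C (κ ^ (n + 1)) * QQ (MvPolynomial.C q) (MvPolynomial.C ω) (2 * n + 2)
        MvPolynomial.X with hEE
    have hEEev : ∀ Z : Fin (2 * n + 2) → ℂ, MvPolynomial.eval Z EE
        = ω ^ (n + 1) * MvPolynomial.eval Z (G (n + 1)) * VV (2 * n + 2) Z
          - κ ^ (n + 1) * QQ q ω (2 * n + 2) Z := by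
      intro Z
      rw [hEE, map_sub, map_mul, map_mul, map_mul, VV_map, QQ_map]
      simp
    have hprod0 : EE * D = 0 := by
      apply MvPolynomial.funext
      intro Z
      rw [map_mul, map_zero]
      by_cases hDZ : MvPolynomial.eval Z D = 0
      · rw [hDZ, mul_zero]
      · have hDZ' := hDZ
        rw [hDev] at hDZ'
        have h1 := left_ne_zero_of_mul hDZ'
        have h2 := right_ne_zero_of_mul hDZ'
        have h3 : ∀ i : Fin (2 * n), Z i.succ.succ ≠ 0 := fun i =>
          Finset.prod_ne_zero_iff.mp h1 i (Finset.mem_univ _)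
        have h4 : ∀ i j : Fin (2 * n), i ≠ j → Z i.succ.succ ^ 3 ≠ Z j.succ.succ ^ 3 := by
          intro i j hij
          have := Finset.prod_ne_zero_iff.mp (Finset.prod_ne_zero_iff.mp h2 i
            (Finset.mem_univ _)) j (Finset.mem_univ _)
          rw [if_neg hij] at this
          exact sub_ne_zero.mp this
        have h5 := hgen (fun j => Z j.succ.succ) h3 h4 (Z 0) (Z 1)
        rw [← cons_cons_of Z] at h5
        rw [hEEev, h5, sub_self, zero_mul]
    have hEE0 : EE = 0 := by
      rcases mul_eq_zero.mp hprod0 with h | h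
      · exact h
      · exact absurd h hD0
    intro z
    have := hEEev z
    rw [hEE0, map_zero] at this
    exact (sub_eq_zero.mp this.symm)

end EX93

end

section

namespace EX93

open Finset Polynomial Matrix Filter Topology

lemma cont_det_NN (ω : ℂ) {L : ℕ} :
    Continuous fun t : ℂ => (NN ω (fun i : Fin L => t * (i : ℕ))).det := by
  have h : ∀ t : ℂ, (NN ω (fun i : Fin L => t * (i : ℕ))).det
      = ((NN (C ω) (fun i : Fin L => (X : ℂ[X]) * C ((i : ℕ) : ℂ))).det).eval t := by
    intro t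
    have h1 := NN_map (evalRingHom t) (C ω) (fun i : Fin L => (X : ℂ[X]) * C ((i : ℕ) : ℂ))
    have h2 := RingHom.map_det (evalRingHom t)
      (NN (C ω) (fun i : Fin L => (X : ℂ[X]) * C ((i : ℕ) : ℂ)))
    rw [coe_evalRingHom] at h2
    rw [h2]
    congr 1
    rw [RingHom.mapMatrix_apply, h1]
    simp
  simp_rw [h]
  exact Polynomial.continuous _

end EX93

end

section

namespace EX93

open Finset Polynomial Matrix

end EX93

end

section

/-! EXACT: the determinant `det (1 - P + P ^ 2)` of the Pascal matrix is the square of the number of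
alternating sign matrices (connection with the leg sums of helper96/helper34). -/

namespace EX93

open Finset Polynomial Matrix Filter Topology
open Pool.Agent.H34.Hom Pool.Agent.H96.EX

lemma SG_eq_QQ {q : ℂ} (hq : q ^ 2 + q + 1 = 0) (M : ℕ) (z : ℕ → ℂ) (hz : Gen M z) :
    V3 M z * SG q (q ^ 2) q (range M) [] z = (q ^ 2) ^ M * QQ q (q ^ 2) M (fun i : Fin M => z i) := by
  have q3 : q ^ 3 = 1 := by linear_combination (q - 1) * hq
  have h0 := eval_Npoly (κ := Empty) q (q ^ 2) q hq M [] (fun _ => 0) z hz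
  rw [List.map_nil] at h0
  rw [← h0]
  unfold Npoly QQ
  rw [map_sum, Finset.mul_sum]
  refine Finset.sum_bij' (fun A _ => fun i : Fin M => decide ((i : ℕ) ∉ A))
    (fun s _ => (range M).filter (fun n => ∃ h : n < M, s ⟨n, h⟩ = false)) ?_ ?_ ?_ ?_ ?_
  · intro A _; exact Finset.mem_univ _
  · intro s _
    rw [Finset.mem_powerset]
    exact Finset.filter_subset _ _
  · intro A hA
    rw [Finset.mem_powerset] at hA
    ext n
    simp only [Finset.mem_filter, Finset.mem_range, decide_eq_false_iff_not, not_not]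
    constructor
    · rintro ⟨_, _, h⟩; exact h
    · intro h; exact ⟨Finset.mem_range.mp (hA h), Finset.mem_range.mp (hA h), h⟩
  · intro s _
    funext i
    simp only [Finset.mem_filter, Finset.mem_range, i.2, exists_true_left, true_and]
    cases s i <;> simp
  · intro A hA
    rw [Finset.mem_powerset] at hA
    rw [map_mul, map_mul, map_prod, map_prod, eval_pp, ← mul_assoc]
    congr 1
    · simp only [List.map_nil, List.prod_nil, mul_one, MvPolynomial.eval_C]
      unfold wt
      have e0 : (q ^ 2) ^ M = ∏ _i : Fin M, q ^ 2 := by simp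
      rw [e0, ← Finset.prod_mul_distrib]
      have e1 : ∏ i : Fin M, q ^ 2 * (if decide ((i : ℕ) ∉ A) = true then q ^ 2 else 1)
          = ∏ n ∈ range M, (if n ∈ A then q ^ 2 else q) := by
        rw [← Fin.prod_univ_eq_prod_range (fun n => if n ∈ A then q ^ 2 else q) M]
        refine Finset.prod_congr rfl fun i _ => ?_
        by_cases h : (i : ℕ) ∈ A
        · simp [h]
        · simp [h]
          linear_combination q * q3
      rw [e1, ← Finset.prod_sdiff hA, mul_comm]
      congr 1
      · refine Finset.prod_congr rfl fun n hn => ?_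
        rw [if_neg (Finset.mem_sdiff.mp hn).2]
      · refine Finset.prod_congr rfl fun n hn => ?_
        rw [if_pos hn]
    · unfold EX93.pp
      rw [← pairs_pp]
      refine Finset.prod_congr rfl fun i _ => Finset.prod_congr rfl fun j _ => ?_
      unfold Pool.Agent.H34.Hom.hA
      by_cases hi : (i : ℕ) ∈ A <;> by_cases hj : (j : ℕ) ∈ A <;>
        simp [hi, hj, hh]

end EX93

end

section

/-!
# Project EXACT, one-arm formula: pushforwards and bilinear forms
-/

set_option autoImplicit false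

open Finset

namespace Pool.Agent.H15.Exact

open H56.EX
open scoped Classical

section push

variable {α β γ : Type} [Fintype α] [Fintype β] [Fintype γ]

end push

section pat

variable {L : ℕ}

/-- pushforward under the inverse rotation -/
noncomputable def rI (L : ℕ) : (Pat L → ℂ) →ₗ[ℂ] (Pat L → ℂ) := push unrot

theorem rot_unrot (P : Pat L) : rot (unrot P) = P := (rotEquiv L).right_inv P

theorem unrot_rot (P : Pat L) : unrot (rot P) = P := (rotEquiv L).left_inv P

theorem rI_apply (v : Pat L → ℂ) (P : Pat L) : rI L v P = v (rot P) := by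
  unfold rI
  rw [push_apply, sum_eq_single (rot P)]
  · rw [if_pos (unrot_rot P)]
  · intro Q _ hQ
    rw [if_neg]
    intro h
    apply hQ
    rw [← h, rot_unrot]
  · intro h
    exact absurd (mem_univ _) h

end pat

end Pool.Agent.H15.Exact

end

section

/-!
# Project EXACT, one-arm formula: the qKZ solution and its complex conjugate

`QP κ Φ` lists the properties of the polynomial qKZ solution with the cube root of unity `κ` in
terms of sequences of parameters.
-/

set_option autoImplicit false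

open Finset

namespace Pool.Agent.H15.Exact

open H56.EX

theorem qp_of_psi {Ψ : ∀ L : ℕ, Pat L → (ℤ → ℂ) → ℂ} (hΨ : PsiProps Ψ) :
    QP q (fun L P s => Ψ L P (par L s)) := by
  have hbase : ∀ (P : Pat 2) (s : ℕ → ℂ), P.m 0 = -1 →
      Ψ 2 P (par 2 s) = (q * s 1 - q ^ 2 * s 0) / (q - q ^ 2) := by
    intro P s h
    have hb : IsBase P := by
      intro x h1 h2
      have hx : x = -1 ∨ x = 0 := by push_cast at h1 h2; omega
      rcases hx with rfl | rfl
      · rw [m_neg_one_of h]; norm_num
      · rw [h]; norm_num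
    rw [hΨ.base 2 P _ hb]
    have e0 : par 2 s ((0 : ℕ) : ℤ) = s 0 := par_nat s (by norm_num)
    have e1 : par 2 s ((1 : ℕ) : ℤ) = s 1 := par_nat s (by norm_num)
    simp only [prod_range_succ, prod_range_zero, one_mul, e0, e1, q_inv]
  refine ⟨by linear_combination q_sq, ?_, ?_, ?_, ?_, ?_, ?_, hbase, ?_⟩
  · intro L P
    obtain ⟨p, hp⟩ := hΨ.mv L P
    refine ⟨p, fun s => ?_⟩
    rw [hp]
    congr 2
    funext k
    exact par_nat s k.2
  · intro L P s n hn
    obtain ⟨p, hp, he⟩ := hΨ.poly L P (par L s) (per_par L s) n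
    refine ⟨p, hp, fun t => ?_⟩
    rw [← he t, upd_par s hn]
  · intro L P s n hn
    have h := hΨ.exch L P (par L s) (per_par L s) n
    have e0 : par L s ((n : ℕ) : ℤ) = s n := par_nat s (by omega)
    have e1 : par L s (((n : ℕ) : ℤ) + 1) = s (n + 1) := by
      have : (((n : ℕ) : ℤ) + 1) = ((n + 1 : ℕ) : ℤ) := by push_cast; ring
      rw [this]
      exact par_nat s hn
    rw [swp_par s hn, e0, e1, q_inv] at h
    exact h
  · intro L P s
    have hL := P.two_le
    have h := hΨ.rot L P (par L s) (per_par L s)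
    rw [rot_par (by omega) s] at h
    exact h
  · intro L P s hs hP
    have hL := P.two_le
    have e0 : par L s 0 = s 0 := by
      have := par_nat (L := L) s (n := 0) (by omega)
      simpa using this
    have e1 : par L s (0 + 1) = s 1 := by
      have := par_nat (L := L) s (n := 1) (by omega)
      simpa using this
    exact hΨ.arc_zero L P (par L s) (per_par L s) 0 (by rw [e0, e1, hs]) (by simpa using hP)
  · intro L P w z
    have hL := P.two_le
    set s := scons (q ^ 2 * w) (scons w z) with hs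
    have e0 : par (L + 2) s 0 = q ^ 2 * w := by
      have := par_nat (L := L + 2) s (n := 0) (by omega)
      simpa [hs, scons] using this
    have e1 : par (L + 2) s (0 + 1) = w := by
      have := par_nat (L := L + 2) s (n := 1) (by omega)
      simpa [hs, scons] using this
    have e2 : ∀ j, j ∈ Finset.range L → par (L + 2) s (0 + 2 + (j : ℤ)) = z j := by
      intro j hj
      have := par_nat (L := L + 2) s (n := j + 2) (by have := mem_range.mp hj; omega)
      rw [show (0 : ℤ) + 2 + (j : ℤ) = ((j + 2 : ℕ) : ℤ) by push_cast; ring, this]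
      simp [hs, scons]
    have h := hΨ.arc L P (par (L + 2) s) (per_par _ _) 0 (by rw [e0, e1])
    rw [e1] at h
    have e3 : (fun x => par (L + 2) s (phi L 0 x)) = par L z := by
      have := phi_par (L := L) (by omega) s 0 (by omega)
      simp only [Nat.cast_zero] at this
      rw [this]
      congr 1
    rw [e3] at h
    have e4 : ∏ j ∈ Finset.range L, (par (L + 2) s (0 + 2 + (j : ℤ)) - q * w) ^ 2 =
        ∏ j ∈ Finset.range L, (z j - q * w) ^ 2 :=
      prod_congr rfl (fun j hj => by rw [e2 j hj])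
    rw [e4] at h
    exact h
  · intro P s hP
    have h1 : (H56.EX.rot P).m 0 = -1 := by
      have h2 : (H56.EX.rot P).m 1 = 2 := by
        rw [rot_m, sub_self, hP]; norm_num
      have h3 : (H56.EX.rot P).m 2 = 1 := by rw [← h2, (H56.EX.rot P).inv]
      have h4 := (H56.EX.rot P).per 0
      simp only [Nat.cast_ofNat, zero_add] at h4
      rw [h3] at h4
      linarith only [h4]
    have h := hΨ.rot 2 P (par 2 s) (per_par 2 s)
    rw [rot_par (by omega) s, hbase _ _ h1] at h
    rw [← h]
    simp [scons]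

section conj

end conj

end Pool.Agent.H15.Exact

end

section

/-!
# Project EXACT, one-arm formula: symmetry and wheel recursion
-/

set_option autoImplicit false

open Finset

namespace Pool.Agent.H15.Exact

open H56.EX

variable {κ τ : ℂ} {Φ Φ' : ∀ L : ℕ, Pat L → (ℕ → ℂ) → ℂ} {W : ∀ L : ℕ, Pat L → Pat L → ℂ}

theorem Gv_wheel (h : QP κ Φ) (h' : QP (κ ^ 2) Φ') (hW : FormProps τ W) {L : ℕ} (hL : 2 ≤ L)
    (w : ℂ) (z : ℕ → ℂ) :
    Gv W Φ' Φ (L + 2) (scons (κ ^ 2 * w) (scons w z)) =
      κ ^ 2 * w ^ 2 * (∏ j ∈ Finset.range L, (z j - κ * w) ^ 4) / 9 ^ L * Gv W Φ' Φ L z := by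
  have hk := h.kk
  have hk3 := h.cube
  have hk4 : κ ^ 4 = κ := by linear_combination κ * h.cube
  unfold Gv
  rw [h.arc_vec hL w z]
  rcases eq_or_ne w 0 with rfl | hw
  · simp
  have e1 := h'.exch_vec (L + 2) (scons (κ ^ 2 * w) (scons w z)) 0 (by omega)
  have e2 : (scons (κ ^ 2 * w) (scons w z)) ∘ Equiv.swap 0 (0 + 1) =
      scons ((κ ^ 2) ^ 2 * (κ ^ 2 * w)) (scons (κ ^ 2 * w) z) := by
    rw [zero_add, scons_swap01]
    congr 1
    linear_combination (-w) * (κ ^ 3 + 1) * hk3
  rw [e2, h'.arc_vec hL] at e1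
  have e3 : (κ ^ 2 - 1) * w ≠ 0 := by
    refine mul_ne_zero ?_ hw
    intro h0
    have : κ = -2 := by linear_combination hk - h0
    rw [this] at hk
    norm_num at hk
  have hadj : ∀ a b : Pat (L + 2) → ℂ,
      bf (W (L + 2)) (eL (L + 2) 0 a) b = bf (W (L + 2)) a (eL (L + 2) 0 b) :=
    fun a b => bf_eL (fun P Q => hW.adj (L + 2) 0 (by omega) (by omega) P Q) a b
  set u := vec Φ' (L + 2) (scons (κ ^ 2 * w) (scons w z)) with hu
  have e4 : eL (L + 2) 0 u = (-κ ^ 2 * (κ ^ 2 * w) *
      (∏ j ∈ Finset.range L, (z j - κ ^ 2 * (κ ^ 2 * w)) ^ 2) / 3 ^ L) •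
        i0 L (vec Φ' L z) := by
    have a1 : κ ^ 2 * scons (κ ^ 2 * w) (scons w z) (0 + 1) -
        (κ ^ 2) ^ 2 * scons (κ ^ 2 * w) (scons w z) 0 = (κ ^ 2 - 1) * w := by
      simp only [scons]
      linear_combination (-w) * (κ ^ 3 + 1) * hk3
    have a2 : κ ^ 2 * scons (κ ^ 2 * w) (scons w z) 0 -
        (κ ^ 2) ^ 2 * scons (κ ^ 2 * w) (scons w z) (0 + 1) = 0 := by
      simp only [scons]
      ring
    have a3 : scons (κ ^ 2 * w) (scons w z) 0 - scons (κ ^ 2 * w) (scons w z) (0 + 1) =
        (κ ^ 2 - 1) * w := by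
      simp only [scons]
      ring
    rw [a1, a2, a3, zero_smul, zero_add] at e1
    exact (smul_right_injective _ e3 e1).symm
  have e5 : i0 L (vec Φ L z) = eL (L + 2) 0 (i0 L (vec Φ L z)) := (eL_i0 _).symm
  rw [map_smul, e5, ← hadj, e4, map_smul, LinearMap.smul_apply, bf_i0 hW]
  have e6 : ∀ j, z j - κ ^ 2 * (κ ^ 2 * w) = z j - κ * w := by
    intro j
    linear_combination (-w) * hk4
  simp only [e6, smul_eq_mul]
  have e7 : (∏ j ∈ Finset.range L, (z j - κ * w) ^ 4) =
      (∏ j ∈ Finset.range L, (z j - κ * w) ^ 2) * (∏ j ∈ Finset.range L, (z j - κ * w) ^ 2) := by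
    rw [← prod_mul_distrib]
    exact prod_congr rfl fun j _ => by ring
  have e8 : (9 : ℂ) ^ L = 3 ^ L * 3 ^ L := by
    rw [← mul_pow]; norm_num
  rw [e7, e8]
  have h3 : (3 : ℂ) ^ L ≠ 0 := pow_ne_zero _ (by norm_num)
  field_simp
  linear_combination ((∏ j ∈ Finset.range L, (z j - κ * w) ^ 2) ^ 2 *
    bf (W L) (vec Φ' L z) (vec Φ L z) * κ ^ 2) * hk3

end Pool.Agent.H15.Exact

end

section

/-!
# Project EXACT, one-arm formula: polynomials in two variables

The outer variable is `x` and the inner variable is `y`.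
-/

set_option autoImplicit false

open Finset

namespace Pool.Agent.H15.Exact

open H56.EX
open scoped Classical

section vec

variable {L : ℕ}

/-- moving the strand with the outer parameter one step to the left -/
theorem move {κ : ℂ} (hκ : κ ^ 3 = 1) {F F' : Pat L → BV} {w : ℂ} {n : ℤ}
    (hex : ∀ (P : Pat L) (x y : ℂ), (κ * x - κ ^ 2 * w) * ev x y (F' P) =
      (κ * w - κ ^ 2 * x) * ev x y (F P) + (w - x) * eL L n (fun P' => ev x y (F P')) P)
    {a b : ℕ} (h0 : cfv (a + 1) b F = 0) (h0' : cfv (a + 1) b F' = 0) :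
    cfv a b F' = tb κ L n (cfv a b F) := by
  funext P
  have h1 : Polynomial.X * (Polynomial.C (Polynomial.C κ) * F' P) -
      Polynomial.C (Polynomial.C (κ ^ 2 * w)) * F' P =
      Polynomial.C (Polynomial.C (κ * w)) * F P -
        Polynomial.X * (Polynomial.C (Polynomial.C (κ ^ 2)) * F P) +
        (Polynomial.C (Polynomial.C w) * eB n F P - Polynomial.X * eB n F P) := by
    apply bv_ext
    intro x y
    simp only [map_sub, map_add, map_mul, ev_X]
    simp only [← map_mul, ← map_pow, ev_CC, ev_eB]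
    have := hex P x y
    linear_combination this
  have h2 := congrArg (cf (a + 1) b) h1
  simp only [cf_add, cf_sub, cf_X, cf_CC, cf_eB] at h2
  have h3 : cf (a + 1) b (F P) = 0 := congrFun h0 P
  have h4 : cf (a + 1) b (F' P) = 0 := congrFun h0' P
  have h5 : eL L n (cfv (a + 1) b F) P = 0 := by
    rw [h0, map_zero]
    rfl
  rw [h3, h4, h5] at h2
  rw [tb_apply]
  simp only [Pi.neg_apply, Pi.add_apply, Pi.smul_apply, smul_eq_mul]
  change cf a b (F' P) = -(κ * cf a b (F P) + κ ^ 2 * eL L n (cfv a b F) P)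
  linear_combination κ ^ 2 * h2 - (cf a b (F' P) + κ * cf a b (F P)) * hκ

end vec

section FB

end FB

end Pool.Agent.H15.Exact

end

section

/-!
# Project EXACT, one-arm formula: the top coefficient of the vector
-/

set_option autoImplicit false

open Finset

namespace Pool.Agent.H15.Exact

open H56.EX
open scoped Classical

/-- the operator moving the first strand around the cylinder to the second place -/
noncomputable def Sop (κ : ℂ) (N : ℕ) : (Pat (N + 2) → ℂ) →ₗ[ℂ] (Pat (N + 2) → ℂ) :=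
  (chn κ (N + 2) N N).comp (rI (N + 2))

section

variable {κ : ℂ} {Φ : ∀ L : ℕ, Pat L → (ℕ → ℂ) → ℂ}

/-- The top coefficient of the vector. -/
theorem QP.top (h : QP κ Φ) {N : ℕ} (hN : 2 ≤ N) (z : ℕ → ℂ) :
    ∃ F : Pat (N + 2) → BV,
      (∀ P x y, ev x y (F P) = Φ (N + 2) P (scons x (scons y z))) ∧
      (∀ P, (F P).natDegree ≤ N + 1) ∧
      (∀ P, ((F P).coeff (N + 1)).natDegree ≤ N) ∧
      (κ - 1) • cfv (N + 1) N F = (-κ / 3 ^ N) • (κ ^ 2 • i0 N (vec Φ N z) -
        Sop κ N (i0 N (vec Φ N z))) ∧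
      eL (N + 2) 0 (Sop κ N (i0 N (vec Φ N z))) = i0 N (vec Φ N z) := by
  have hk := h.kk
  have hk3 := h.cube
  have hk0 := h.ne_zero
  set F0 : Pat (N + 2) → BV := h.FB (N + 2) (s0B z) with hF0
  set Fk : ℕ → Pat (N + 2) → BV := fun k => h.FB (N + 2) (arB k z) with hFk
  have evF0 : ∀ P x y, ev x y (F0 P) = Φ (N + 2) P (scons x (scons y z)) := by
    intro P x y
    rw [hF0, h.ev_FB, ev_s0B]
  have evFk : ∀ k P x y, ev x y (Fk k P) = Φ (N + 2) P (ar k x y z) := by
    intro k P x y
    rw [hFk]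
    simp only
    rw [h.ev_FB, ev_arB]
  -- degrees
  have degk : ∀ k, 1 ≤ k → k ≤ N + 1 → ∀ P, (Fk k P).natDegree ≤ N + 1 := by
    intro k hk1 hk2 P
    apply outer_deg
    intro y
    obtain ⟨p, hp, he⟩ := h.poly (N + 2) P (ar k 0 y z) k (by omega)
    refine ⟨p, hp, fun x => ?_⟩
    rw [evFk, ar_update hk1, he]
  have deg0 : ∀ P, (F0 P).natDegree ≤ N + 1 := by
    intro P
    apply outer_deg
    intro y
    obtain ⟨p, hp, he⟩ := h.poly (N + 2) P (scons 0 (scons y z)) 0 (by omega)
    refine ⟨p, hp, fun x => ?_⟩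
    rw [evF0, ← he x]
    congr 1
    funext n
    rcases n with _ | n <;> simp [scons, Function.update]
  have deg1 : ∀ P a, ((F0 P).coeff a).natDegree ≤ N + 1 := by
    intro P a
    apply inner_deg
    intro x
    obtain ⟨p, hp, he⟩ := h.poly (N + 2) P (scons x (scons 0 z)) 1 (by omega)
    refine ⟨p, hp, fun y => ?_⟩
    rw [evF0, ← he y]
    congr 1
    funext n
    rcases n with _ | _ | n <;> simp [scons, Function.update]
  -- swapping the two variables
  have hsw : ∀ P, Fk 1 P = Polynomial.Bivariate.swap (F0 P) := by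
    intro P
    apply bv_ext
    intro x y
    rw [evFk, swap_ev, evF0, ar_one]
  have hsw' : ∀ a b, cfv a b (Fk 1) = cfv b a F0 := by
    intro a b
    funext P
    change cf a b (Fk 1 P) = cf b a (F0 P)
    rw [hsw, swap_cf]
  -- rotation
  have hrot : ∀ P, Fk (N + 1) P = F0 (H56.EX.rot P) := by
    intro P
    apply bv_ext
    intro x y
    rw [evFk, evF0, ← h.rot (N + 2) P (ar (N + 1) x y z)]
    apply h.congr
    intro n hn
    rcases n with _ | _ | n
    · simp [scons, ar]
    · simp [scons, ar]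
    · change ar (N + 1) x y z (n + 1) = z n
      unfold ar
      rw [if_neg (by omega), if_pos (by omega)]
      congr 1
  have hrot' : ∀ a b, cfv a b (Fk (N + 1)) = rI (N + 2) (cfv a b F0) := by
    intro a b
    funext P
    rw [rI_apply]
    change cf a b (Fk (N + 1) P) = cf a b (F0 (H56.EX.rot P))
    rw [hrot]
  -- moving the strand
  have hmove : ∀ a b, (∀ k, 1 ≤ k → k ≤ N + 1 → cfv (a + 1) b (Fk k) = 0) → ∀ m, m ≤ N →
      cfv a b (Fk (N + 1 - m)) = chn κ (N + 2) N m (cfv a b (Fk (N + 1))) := by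
    intro a b hz m
    induction m with
    | zero =>
      intro _
      rfl
    | succ m ih =>
      intro hm
      have ih' := ih (by omega)
      have e1 : N + 1 - m = (N - m) + 1 := by omega
      have e2 : N + 1 - (m + 1) = N - m := by omega
      have hk1 : 1 ≤ N - m := by omega
      rw [e2]
      change _ = tb κ (N + 2) ((N - m : ℕ) : ℤ) (chn κ (N + 2) N m (cfv a b (Fk (N + 1))))
      rw [← ih', e1]
      refine move (w := z (N - m - 1)) hk3 ?_ (hz _ (by omega) (by omega))
        (hz _ (by omega) (by omega))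
      intro P x y
      have hex := h.exch (N + 2) P (ar (N - m + 1) x y z) (N - m) (by omega)
      have a1 : ar (N - m + 1) x y z (N - m + 1) = x := by
        unfold ar
        rw [if_neg (by omega), if_neg (by omega), if_pos rfl]
      have a2 : ar (N - m + 1) x y z (N - m) = z (N - m - 1) := by
        unfold ar
        rw [if_neg (by omega), if_pos (by omega)]
      rw [ar_swap hk1, a1, a2] at hex
      rw [evFk, evFk, eL_eq]
      have a3 : (fun P' => ev x y (Fk (N - m + 1) P')) =
          fun P' => Φ (N + 2) P' (ar (N - m + 1) x y z) := by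
        funext P'
        exact evFk _ _ _ _
      rw [a3]
      exact hex
  have hmove' : ∀ a b, (∀ k, 1 ≤ k → k ≤ N + 1 → cfv (a + 1) b (Fk k) = 0) →
      cfv b a F0 = Sop κ N (cfv a b F0) := by
    intro a b hz
    have h1 := hmove a b hz N le_rfl
    rw [show N + 1 - N = 1 by omega, hsw', hrot'] at h1
    exact h1
  -- the arc recursion
  set u : Pat (N + 2) → ℂ := i0 N (vec Φ N z) with hu
  have harc : ∀ P, (F0 P).eval (Polynomial.C (κ ^ 2) * Polynomial.X) =
      Polynomial.C (-κ / 3 ^ N * u P) * (Polynomial.X *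
        ∏ j ∈ range N, (Polynomial.C (z j) - Polynomial.C κ * Polynomial.X) ^ 2) := by
    intro P
    apply Polynomial.funext
    intro w
    rw [eval_eval, evF0]
    have h1 := congrFun (h.arc_vec hN w z) P
    change Φ (N + 2) P (scons (κ ^ 2 * w) (scons w z)) = _ at h1
    rw [h1]
    simp only [Pi.smul_apply, smul_eq_mul, Polynomial.eval_mul, Polynomial.eval_C,
      Polynomial.eval_X, Polynomial.eval_prod, Polynomial.eval_pow, Polynomial.eval_sub]
    ring
  have hcoef : ∀ P m, ∑ a ∈ range (N + 1 + 1), (κ ^ 2) ^ a *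
      (if a ≤ m + 1 then cf a (m + 1 - a) (F0 P) else 0) = -κ / 3 ^ N * u P *
        (∏ j ∈ range N, (Polynomial.C (z j) - Polynomial.C κ * Polynomial.X) ^ 2).coeff m := by
    intro P m
    rw [← coeff_eval (deg0 P), harc, Polynomial.coeff_C_mul, Polynomial.coeff_X_mul]
  obtain ⟨pd1, pd2⟩ := prod_deg κ N z
  have hcf0 : ∀ P a b, N + 1 < b → cf a b (F0 P) = 0 := by
    intro P a b hb
    exact Polynomial.coeff_eq_zero_of_natDegree_lt (lt_of_le_of_lt (deg1 P a) hb)
  -- the coefficient `D`
  have hD : cfv (N + 1) (N + 1) F0 = 0 := by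
    funext P
    have h1 := hcoef P (2 * N + 1)
    rw [Polynomial.coeff_eq_zero_of_natDegree_lt (lt_of_le_of_lt pd1 (by omega)), mul_zero,
      sum_range_succ, sum_eq_zero, zero_add, if_pos (by omega),
      show 2 * N + 1 + 1 - (N + 1) = N + 1 by omega] at h1
    · rcases mul_eq_zero.mp h1 with h2 | h2
      · exact absurd h2 (pow_ne_zero _ (pow_ne_zero _ hk0))
      · exact h2
    · intro a ha
      have ha' := mem_range.mp ha
      rw [if_pos (by omega), hcf0 P a _ (by omega), mul_zero]
  -- the sum rule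
  have hsum : κ ^ 2 • cfv (N + 1) N F0 + cfv N (N + 1) F0 = (-κ / 3 ^ N) • u := by
    funext P
    have h1 := hcoef P (N * 2)
    rw [pd2, sum_range_succ, sum_range_succ, sum_eq_zero, zero_add, if_pos (by omega),
      if_pos (by omega), show N * 2 + 1 - (N + 1) = N by omega,
      show N * 2 + 1 - N = N + 1 by omega] at h1
    · have h2 : (κ ^ 2) ^ N ≠ 0 := pow_ne_zero _ (pow_ne_zero _ hk0)
      apply mul_left_cancel₀ h2
      simp only [Pi.add_apply, Pi.smul_apply, smul_eq_mul]
      change (κ ^ 2) ^ N * (κ ^ 2 * cf (N + 1) N (F0 P) + cf N (N + 1) (F0 P)) = _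
      rw [pow_succ] at h1
      linear_combination h1
    · intro a ha
      have ha' := mem_range.mp ha
      rw [if_pos (by omega), hcf0 P a _ (by omega), mul_zero]
  -- vanishing of the coefficients
  have hz1 : ∀ b k, 1 ≤ k → k ≤ N + 1 → cfv (N + 1 + 1) b (Fk k) = 0 := by
    intro b k h1 h2
    funext P
    change ((Fk k P).coeff (N + 1 + 1)).coeff b = 0
    rw [Polynomial.coeff_eq_zero_of_natDegree_lt (lt_of_le_of_lt (degk k h1 h2 P) (by omega))]
    simp
  have hz2 : ∀ k, 1 ≤ k → k ≤ N + 1 → cfv (N + 1) (N + 1) (Fk k) = 0 := by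
    intro k h1 h2
    have h3 := hmove (N + 1) (N + 1) (hz1 _) (N + 1 - k) (by omega)
    rw [show N + 1 - (N + 1 - k) = k by omega, hrot', hD, map_zero, map_zero] at h3
    exact h3
  have hC1 : cfv N (N + 1) F0 = Sop κ N (cfv (N + 1) N F0) := hmove' (N + 1) N (hz1 _)
  have hC0 : cfv (N + 1) N F0 = Sop κ N (cfv N (N + 1) F0) := hmove' N (N + 1) hz2
  -- symmetry after applying `e_0`
  have hsym : eL (N + 2) 0 (cfv (N + 1) N F0) = eL (N + 2) 0 (cfv N (N + 1) F0) := by
    have h1 : ∀ P, eB 0 (Fk 1) P = eB 0 F0 P := by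
      intro P
      have h2 : (Polynomial.C (Polynomial.C κ) * Polynomial.C Polynomial.X -
          Polynomial.C (Polynomial.C (κ ^ 2)) * Polynomial.X) *
          (eB 0 (Fk 1) P - eB 0 F0 P) = 0 := by
        apply bv_zero
        intro x y
        have h3 := h.exch_vec (N + 2) (scons x (scons y z)) 0 (by omega)
        rw [zero_add, scons_swap01] at h3
        have h4 := congrArg (fun v => eL (N + 2) 0 v P) h3
        simp only [map_add, map_smul] at h4
        have e0 : (((0 : ℕ) : ℤ)) = 0 := rfl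
        rw [e0, eL_idem] at h4
        simp only [Pi.add_apply, Pi.smul_apply, smul_eq_mul, scons] at h4
        rw [map_mul, map_sub, map_sub, map_mul, map_mul, ev_CC, ev_CC, ev_CX, ev_X, ev_eB, ev_eB]
        have e1 : (fun P' => ev x y (Fk 1 P')) = vec Φ (N + 2) (scons y (scons x z)) := by
          funext P'
          rw [evFk, ar_one]
          rfl
        have e2 : (fun P' => ev x y (F0 P')) = vec Φ (N + 2) (scons x (scons y z)) := by
          funext P'
          rw [evF0]
          rfl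
        rw [e1, e2]
        linear_combination h4 + (x - y) *
          (eL (N + 2) 0 (vec Φ (N + 2) (scons x (scons y z))) P) * hk
      rcases mul_eq_zero.mp h2 with h3 | h3
      · exfalso
        have h4 := congrArg (ev 0 1) h3
        rw [map_sub, map_mul, map_mul, ev_CC, ev_CC, ev_CX, ev_X, map_zero] at h4
        apply hk0
        linear_combination h4
      · exact sub_eq_zero.mp h3
    funext P
    rw [← cf_eB, ← h1 P, cf_eB, hsw']
  refine ⟨F0, evF0, deg0, ?_, ?_, ?_⟩
  · intro P
    rw [Polynomial.natDegree_le_iff_coeff_eq_zero]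
    intro b hb
    rcases Nat.lt_or_ge (N + 1) b with h1 | h1
    · exact hcf0 P _ _ h1
    · have : b = N + 1 := by omega
      rw [this]
      exact congrFun hD P
  · have h1 : (-κ / 3 ^ N) • Sop κ N u = κ ^ 2 • cfv N (N + 1) F0 + cfv (N + 1) N F0 := by
      rw [← map_smul, ← hsum, map_add, map_smul, ← hC1, ← hC0]
    rw [smul_sub, h1, smul_comm, ← hsum]
    funext P
    simp only [Pi.add_apply, Pi.sub_apply, Pi.smul_apply, smul_eq_mul]
    linear_combination (-(κ * cfv (N + 1) N F0 P)) * hk3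
  · have h1 : (-κ / 3 ^ N) • Sop κ N u = κ ^ 2 • cfv N (N + 1) F0 + cfv (N + 1) N F0 := by
      rw [← map_smul, ← hsum, map_add, map_smul, ← hC1, ← hC0]
    have h2 := congrArg (eL (N + 2) 0) h1
    have h3 := congrArg (eL (N + 2) 0) hsum
    rw [map_smul, eL_i0, map_add, map_smul, hsym] at h3
    rw [map_smul, map_add, map_smul, hsym, h3] at h2
    have h4 : (-κ / 3 ^ N : ℂ) ≠ 0 :=
      div_ne_zero (neg_ne_zero.mpr hk0) (pow_ne_zero _ (by norm_num))
    exact smul_right_injective _ h4 h2

end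

end Pool.Agent.H15.Exact

end

section

/-!
# Project EXACT, one-arm formula: the top coefficient of the pairing
-/

set_option autoImplicit false

open Finset

namespace Pool.Agent.H15.Exact

open H56.EX
open scoped Classical

end Pool.Agent.H15.Exact

end

section

/-!
# Project EXACT, one-arm formula: two strands
-/

set_option autoImplicit false

open Finset

namespace Pool.Agent.H15.Exact

open H56.EX
open scoped Classical

end Pool.Agent.H15.Exact

end

section

/-!
# Project EXACT, one-arm formula: the pairing as a symmetric polynomial, and its value at `1`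
-/

set_option autoImplicit false

open Finset

namespace Pool.Agent.H15.Exact

open H56.EX
open scoped Classical

variable {κ τ : ℂ} {Φ Φ' : ∀ L : ℕ, Pat L → (ℕ → ℂ) → ℂ} {W : ∀ L : ℕ, Pat L → Pat L → ℂ}

theorem GG_wheel (h : QP κ Φ) (h' : QP (κ ^ 2) Φ') (hW : FormProps τ W) (n : ℕ) (w : ℂ)
    (z : Fin (2 * n) → ℂ) :
    MvPolynomial.eval (Fin.cons (κ ^ 2 * w) (Fin.cons w z : Fin (2 * n + 1) → ℂ)
        : Fin (2 * n + 2) → ℂ) (GG h h' W (n + 1))
      = 3 * 1 * κ ^ 2 * w ^ 2 * (∏ j, (z j - κ * w) ^ 4) *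
        MvPolynomial.eval z (GG h h' W n) := by
  have hk := h.kk
  have e1 : MvPolynomial.eval (Fin.cons (κ ^ 2 * w) (Fin.cons w z : Fin (2 * n + 1) → ℂ)
        : Fin (2 * n + 2) → ℂ) (GG h h' W (n + 1)) =
      cc (n + 1) * Gv W Φ' Φ (2 * n + 2) (scons (κ ^ 2 * w) (scons w (ex (2 * n) z))) := by
    rw [← scons_cons, ← eval_GP h h']
    change MvPolynomial.eval _ (MvPolynomial.C (cc (n + 1)) * GP h h' W (2 * (n + 1))) = _
    rw [map_mul, MvPolynomial.eval_C]
    rfl
  rw [e1]
  rcases n with _ | n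
  · rw [show 2 * 0 + 2 = 2 from rfl, Gv_two h h' hW]
    have e2 : (∏ j : Fin (2 * 0), (z j - κ * w) ^ 4) = 1 := Fin.prod_univ_zero _
    rw [e2]
    change _ = _ * MvPolynomial.eval z 1
    rw [map_one, cc, cc]
    simp only [scons]
    linear_combination (3 * w ^ 2 * (κ ^ 2 - κ + 1) + (τ - 1) * w ^ 2 * (κ ^ 2 - κ + 1)) * hk
  · rw [Gv_wheel h h' hW (by omega)]
    have e2 : MvPolynomial.eval z (GG h h' W (n + 1)) =
        cc (n + 1) * Gv W Φ' Φ (2 * (n + 1)) (ex (2 * (n + 1)) z) := by
      rw [← eval_GP' h h']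
      change MvPolynomial.eval z (MvPolynomial.C (cc (n + 1)) * GP h h' W (2 * (n + 1))) = _
      rw [map_mul, MvPolynomial.eval_C]
    have e3 : ∏ j ∈ Finset.range (2 * (n + 1)), (ex (2 * (n + 1)) z j - κ * w) ^ 4 =
        ∏ j, (z j - κ * w) ^ 4 := by
      rw [Finset.prod_range]
      refine prod_congr rfl fun j _ => ?_
      unfold ex
      rw [dif_pos j.2]
    rw [e2, e3, cc]
    have e4 : (9 : ℂ) ^ (2 * (n + 1)) = 81 ^ (n + 1) := by
      rw [pow_mul]; norm_num
    rw [e4]
    have e5 : (81 : ℂ) ^ (n + 1) ≠ 0 := pow_ne_zero _ (by norm_num)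
    field_simp

end Pool.Agent.H15.Exact

end

section

/-!
# Project EXACT: the components of the qKZ solution at `ζ = 1` are real
-/

set_option autoImplicit false

open Finset

namespace Pool.Agent.H15.Exact

open H56.EX Pool.Agent.H12.QKZ Pool.Agent.H14.EX
open scoped Classical

variable {L : ℕ}

end Pool.Agent.H15.Exact

end

section

/-!
# Project EXACT, one-arm formula: final statements

`vR P` is the component at the pattern `P` of the stationary vector (`ζ = 1`).
-/

set_option autoImplicit false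

open Finset

namespace Pool.Agent.H15.Exact

open H56.EX Pool.Agent.H12.QKZ
open scoped Classical

end Pool.Agent.H15.Exact

end
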