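import Pool.Agent.H94.BG.H31.PT.M43

/-! The parts of this file: H89.Perc.SimonLieb, H89.Perc.TorusReveal, H89.Perc.TorusVar, H89.Perc.WindBounds, H89.Perc.TorusThreshold, H89.Perc.Final, H93.EX.Basic, H93.EX.Hom1, H93.EX.Hom2, H93.EX.Deg, H93.EX.Uniq, H93.EX.Step, H93.EX.Induct, H93.EX.Hom3, H93.EX.Hom4, H93.EX.Asm, H15.Exact.Bil, H15.Exact.QP, H15.Exact.Rel, H15.Exact.Biv, H15.Exact.Top, H15.Exact.TopG, H15.Exact.Two, H15.Exact.GPoly, H15.Exact.Real, H15.Exact.Final. -/

section

/-!
# The Simon-Lieb inequality for one-arm probabilities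
-/

open MeasureTheory ProbabilityTheory unitInterval

namespace Pool.Agent.H89.Perc

/-- The vertices of the ball as a finset. -/
private noncomputable def slB (s : ℕ) : Finset Vert :=
  Finset.Icc (-(s : ℤ)) s ×ˢ Finset.Icc (-(s : ℤ)) s

private lemma sl_fst : ((0 : Vert).1) = 0 := rfl
private lemma sl_snd : ((0 : Vert).2) = 0 := rfl

private lemma mem_slB {s : ℕ} {v : Vert} : v ∈ slB s ↔ v ∈ ball 0 s := by
  simp only [slB, Finset.mem_product, Finset.mem_Icc, mem_ball, sl_fst, sl_snd]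
  omega

/-- The cluster of the origin in the ball of radius `s` is `C0`. -/
private def slE (s : ℕ) (C0 : Finset Vert) : Set Config :=
  {ω | ∀ v, Conn ω (ball 0 s) 0 v ↔ v ∈ C0}

/-- One-arm event off the set `C0`. -/
private def slOff (m : ℕ) (w : Vert) (C0 : Finset Vert) : Set Config :=
  {ω | ∃ u ∈ sphere w m, Conn ω (ball w m \ ↑C0) w u}

private noncomputable def slEs (s : ℕ) (C0 : Finset Vert) : Finset Edge :=
  (eRect ((0 : Vert).1 - s) ((0 : Vert).1 + s) ((0 : Vert).2 - s) ((0 : Vert).2 + s)).filter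
    (fun e => src e ∈ C0 ∨ tgt e ∈ C0)

private noncomputable def slOs (m : ℕ) (w : Vert) (C0 : Finset Vert) : Finset Edge :=
  (eRect (w.1 - m) (w.1 + m) (w.2 - m) (w.2 + m)).filter
    (fun e => src e ∉ C0 ∧ tgt e ∉ C0)

private lemma slE_local (s : ℕ) (C0 : Finset Vert) : LocalOn (slEs s C0) (slE s C0) := by
  intro ω ω' hω hE
  have h00 : Conn ω (ball 0 s) 0 0 := Conn.refl self_mem_ball
  have h0 : (0 : Vert) ∈ C0 := (hE 0).1 h00
  have hedge : ∀ (a b : Vert) (e : Edge), a ∈ ball 0 s → b ∈ ball 0 s → Joins e a b →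
      a ∈ C0 → ω e = ω' e := by
    intro a b e ha hb he haC
    apply hω
    rw [slEs, Finset.mem_filter, mem_eRect]
    rcases he with ⟨h1, h2⟩ | ⟨h1, h2⟩
    · subst h1 h2
      exact ⟨ha, Or.inl haC⟩
    · subst h1 h2
      exact ⟨hb, Or.inr haC⟩
  intro v
  constructor
  · intro hv
    refine hv.induction_right (P := fun x => x ∈ C0) h0 ?_
    intro a b _ hab haC
    obtain ⟨ha, hb, e, he, ho⟩ := hab
    rw [← hE b]
    refine ((hE a).2 haC).tail ⟨ha, hb, e, he, ?_⟩
    rw [hedge a b e ha hb he haC]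
    exact ho
  · intro hv
    have hc := (hE v).2 hv
    refine hc.induction_right (P := fun x => Conn ω' (ball 0 s) 0 x)
      (Conn.refl self_mem_ball) ?_
    intro a b h0a hab ha'
    obtain ⟨ha, hb, e, he, ho⟩ := hab
    refine ha'.tail ⟨ha, hb, e, he, ?_⟩
    rw [← hedge a b e ha hb he ((hE a).1 h0a)]
    exact ho

private lemma slOff_local (m : ℕ) (w : Vert) (C0 : Finset Vert) :
    LocalOn (slOs m w C0) (slOff m w C0) := by
  rintro ω ω' hω ⟨u, hu, hc⟩
  refine ⟨u, hu, hc.congr ?_⟩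
  intro e h1 h2
  apply hω
  rw [slOs, Finset.mem_filter, mem_eRect]
  exact ⟨h1.1, by simpa using h1.2, by simpa using h2.2⟩

private lemma sl_disj (s m : ℕ) (w : Vert) (C0 : Finset Vert) :
    Disjoint (slEs s C0) (slOs m w C0) := by
  rw [Finset.disjoint_left]
  intro e h1 h2
  rw [slEs, Finset.mem_filter] at h1
  rw [slOs, Finset.mem_filter] at h2
  rcases h1.2 with h | h
  · exact h2.2.1 h
  · exact h2.2.2 h

private lemma sl_key (q : I) (s m : ℕ) (w w' : Vert) (hw : w ∈ sphere 0 s) :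
    Pr q {ω | Conn ω (ball 0 s) 0 w ∧ ∃ C0 : Finset Vert, ω ∈ slE s C0 ∧ ω ∈ slOff m w' C0}
      ≤ arm q s * arm q m := by
  classical
  set F : Finset (Finset Vert) := (slB s).powerset.filter (fun C0 => w ∈ C0) with hF
  have hsub : {ω | Conn ω (ball 0 s) 0 w ∧ ∃ C0 : Finset Vert, ω ∈ slE s C0 ∧ ω ∈ slOff m w' C0}
      ⊆ ⋃ C0 ∈ F, slE s C0 ∩ slOff m w' C0 := by
    rintro ω ⟨hcw, C0, hE, hO⟩
    simp only [Set.mem_iUnion]
    refine ⟨C0, ?_, hE, hO⟩
    rw [hF, Finset.mem_filter, Finset.mem_powerset]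
    refine ⟨?_, (hE w).1 hcw⟩
    intro v hv
    exact mem_slB.2 ((hE v).2 hv).mem_right
  have h1 : ∑ C0 ∈ F, Pr q (slE s C0) ≤ arm q s := by
    have hd : Set.PairwiseDisjoint (↑F) (fun C0 : Finset Vert => slE s C0) := by
      intro C1 _ C2 _ hne
      rw [Function.onFun, Set.disjoint_left]
      intro ω h1 h2
      apply hne
      ext v
      rw [← h1 v, ← h2 v]
    have hm : ∀ C0 ∈ F, MeasurableSet (slE s C0) := fun C0 _ => (slE_local s C0).measurableSet
    have := measureReal_biUnion_finset (μ := μ q) hd hm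
    unfold Pr
    rw [← this]
    refine measureReal_mono ?_
    intro ω hω
    simp only [Set.mem_iUnion] at hω
    obtain ⟨C0, hC0, hE⟩ := hω
    rw [hF, Finset.mem_filter] at hC0
    exact ⟨w, hw, (hE w).2 hC0.2⟩
  calc Pr q {ω | Conn ω (ball 0 s) 0 w ∧
          ∃ C0 : Finset Vert, ω ∈ slE s C0 ∧ ω ∈ slOff m w' C0}
      ≤ Pr q (⋃ C0 ∈ F, slE s C0 ∩ slOff m w' C0) := Pr_mono hsub
    _ ≤ ∑ C0 ∈ F, Pr q (slE s C0 ∩ slOff m w' C0) := Pr_biUnion_le F _
    _ ≤ ∑ C0 ∈ F, Pr q (slE s C0) * arm q m := by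
        apply Finset.sum_le_sum
        intro C0 _
        rw [Pr_inter_of_disjoint (slE_local s C0) (slOff_local m w' C0) (sl_disj s m w' C0)]
        apply mul_le_mul_of_nonneg_left _ Pr_nonneg
        rw [← Pr_arm w' m]
        refine Pr_mono ?_
        rintro ω ⟨u, hu, hc⟩
        exact ⟨u, hu, hc.mono_set Set.sdiff_subset⟩
    _ = (∑ C0 ∈ F, Pr q (slE s C0)) * arm q m := by rw [Finset.sum_mul]
    _ ≤ arm q s * arm q m := mul_le_mul_of_nonneg_right h1 arm_nonneg

private def slW' (s : ℕ) (i : Fin 4 × ℤ) : Vert :=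
  if i.1 = 0 then (s + 1, i.2) else if i.1 = 1 then (-s - 1, i.2) else if i.1 = 2 then
    (i.2, s + 1) else (i.2, -s - 1)

private lemma slW_zero (s : ℕ) (t : ℤ) : slW s (0, t) = ((s : ℤ), t) := rfl
private lemma slW_one (s : ℕ) (t : ℤ) : slW s (1, t) = (-(s : ℤ), t) := rfl
private lemma slW_two (s : ℕ) (t : ℤ) : slW s (2, t) = (t, (s : ℤ)) := rfl
private lemma slW_three (s : ℕ) (t : ℤ) : slW s (3, t) = (t, -(s : ℤ)) := rfl
private lemma slW'_zero (s : ℕ) (t : ℤ) : slW' s (0, t) = ((s : ℤ) + 1, t) := rfl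
private lemma slW'_one (s : ℕ) (t : ℤ) : slW' s (1, t) = (-(s : ℤ) - 1, t) := rfl
private lemma slW'_two (s : ℕ) (t : ℤ) : slW' s (2, t) = (t, (s : ℤ) + 1) := rfl
private lemma slW'_three (s : ℕ) (t : ℤ) : slW' s (3, t) = (t, -(s : ℤ) - 1) := rfl

private lemma slW_sphere (s : ℕ) (i : Fin 4 × ℤ) (hi : i.2 ∈ Finset.Icc (-(s : ℤ)) s) :
    slW s i ∈ sphere 0 s := by
  rw [Finset.mem_Icc] at hi
  unfold slW
  split_ifs <;>
    refine ⟨?_, ?_⟩ <;> simp only [mem_ball, sl_fst, sl_snd] <;> omega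

private lemma sl_incl {s n : ℕ} (h : s < n) {ω : Config} (hω : ω ∈ Arm 0 n) :
    ∃ i ∈ (Finset.univ : Finset (Fin 4)) ×ˢ Finset.Icc (-(s : ℤ)) s,
      Conn ω (ball 0 s) 0 (slW s i) ∧
        ∃ C0 : Finset Vert, ω ∈ slE s C0 ∧ ω ∈ slOff (n - s - 1) (slW' s i) C0 := by
  classical
  obtain ⟨u, hu, hc⟩ := hω
  obtain ⟨hub, hus⟩ := hu
  have huT : u ∉ {v | Conn ω (ball 0 s) 0 v} := by
    intro hcu
    have := Conn.mem_right hcu
    simp only [mem_ball, sl_fst, sl_snd] at this hub hus
    omega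
  obtain ⟨w, w', hwT, _, hstep, hlast⟩ := hc.exists_last (T := {v | Conn ω (ball 0 s) 0 v})
    (Conn.refl self_mem_ball) huT
  have hwb : w ∈ ball 0 s := Conn.mem_right hwT
  have hw'T := hlast.mem_left.2
  have hw'b : w' ∉ ball 0 s := by
    intro hw'
    exact hw'T (Conn.tail hwT ⟨hwb, hw', hstep.2.2⟩)
  -- the event off the cluster
  have hE : ω ∈ slE s ((slB s).filter (fun v => Conn ω (ball 0 s) 0 v)) := by
    intro v
    rw [Finset.mem_filter]
    constructor
    · intro hv
      exact ⟨mem_slB.2 hv.mem_right, hv⟩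
    · intro hv
      exact hv.2
  have hcases := hstep.cases
  have hO : ω ∈ slOff (n - s - 1) w' ((slB s).filter (fun v => Conn ω (ball 0 s) 0 v)) := by
    obtain ⟨x, hx, hcx⟩ := hlast.to_sphere (v := w') (r := n - s - 1) self_mem_ball (by
      by_cases hu' : u ∈ ball w' (n - s - 1)
      · right
        refine ⟨hu', ?_⟩
        simp only [mem_ball, sl_fst, sl_snd] at hu' hwb hw'b hub hus
        omega
      · exact Or.inl hu')
    refine ⟨x, hx, hcx.mono_set ?_⟩
    rintro v ⟨⟨_, hv1⟩, hv2⟩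
    refine ⟨hv2, ?_⟩
    intro hv3
    rw [Finset.mem_coe, Finset.mem_filter] at hv3
    exact hv1 hv3.2
  simp only [mem_ball, sl_fst, sl_snd] at hwb hw'b
  obtain ⟨w1, w2⟩ := w
  obtain ⟨v1, v2⟩ := w'
  simp only at hwb hw'b hcases
  rcases hcases with ⟨h1, h2 | h2⟩ | ⟨h1, h2 | h2⟩
  · refine ⟨(2, w1), ?_, ?_, _, hE, ?_⟩
    · simp only [Finset.mem_product, Finset.mem_univ, true_and, Finset.mem_Icc]; omega
    · have : slW s (2, w1) = (w1, w2) := by
        rw [slW_two, Prod.mk.injEq]; omega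
      rw [this]; exact hwT
    · have : slW' s (2, w1) = (v1, v2) := by
        rw [slW'_two, Prod.mk.injEq]; omega
      rw [this]; exact hO
  · refine ⟨(3, w1), ?_, ?_, _, hE, ?_⟩
    · simp only [Finset.mem_product, Finset.mem_univ, true_and, Finset.mem_Icc]; omega
    · have : slW s (3, w1) = (w1, w2) := by
        rw [slW_three, Prod.mk.injEq]; omega
      rw [this]; exact hwT
    · have : slW' s (3, w1) = (v1, v2) := by
        rw [slW'_three, Prod.mk.injEq]; omega
      rw [this]; exact hO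
  · refine ⟨(0, w2), ?_, ?_, _, hE, ?_⟩
    · simp only [Finset.mem_product, Finset.mem_univ, true_and, Finset.mem_Icc]; omega
    · have : slW s (0, w2) = (w1, w2) := by
        rw [slW_zero, Prod.mk.injEq]; omega
      rw [this]; exact hwT
    · have : slW' s (0, w2) = (v1, v2) := by
        rw [slW'_zero, Prod.mk.injEq]; omega
      rw [this]; exact hO
  · refine ⟨(1, w2), ?_, ?_, _, hE, ?_⟩
    · simp only [Finset.mem_product, Finset.mem_univ, true_and, Finset.mem_Icc]; omega
    · have : slW s (1, w2) = (w1, w2) := by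
        rw [slW_one, Prod.mk.injEq]; omega
      rw [this]; exact hwT
    · have : slW' s (1, w2) = (v1, v2) := by
        rw [slW'_one, Prod.mk.injEq]; omega
      rw [this]; exact hO

theorem simon_lieb (q : I) {s n : ℕ} (h : s < n) :
    arm q n ≤ (8 * s + 4) * arm q s * arm q (n - s - 1) := by
  set F : Finset (Fin 4 × ℤ) := (Finset.univ : Finset (Fin 4)) ×ˢ Finset.Icc (-(s : ℤ)) s with hF
  have hcard : (F.card : ℝ) = 8 * s + 4 := by
    rw [hF, Finset.card_product, Int.card_Icc]
    have : ((s : ℤ) + 1 - -(s : ℤ)).toNat = 2 * s + 1 := by omega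
    rw [this]
    simp
    ring
  calc arm q n = Pr q (Arm 0 n) := rfl
    _ ≤ Pr q (⋃ i ∈ F, {ω | Conn ω (ball 0 s) 0 (slW s i) ∧
        ∃ C0 : Finset Vert, ω ∈ slE s C0 ∧ ω ∈ slOff (n - s - 1) (slW' s i) C0}) := by
        refine Pr_mono ?_
        intro ω hω
        obtain ⟨i, hi, h1⟩ := sl_incl h hω
        simp only [Set.mem_iUnion]
        exact ⟨i, hi, h1⟩
    _ ≤ ∑ i ∈ F, Pr q {ω | Conn ω (ball 0 s) 0 (slW s i) ∧
        ∃ C0 : Finset Vert, ω ∈ slE s C0 ∧ ω ∈ slOff (n - s - 1) (slW' s i) C0} :=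
        Pr_biUnion_le F _
    _ ≤ ∑ _i ∈ F, arm q s * arm q (n - s - 1) := by
        apply Finset.sum_le_sum
        intro i hi
        apply sl_key
        apply slW_sphere
        rw [hF, Finset.mem_product] at hi
        exact hi.2
    _ = (8 * s + 4) * arm q s * arm q (n - s - 1) := by
        rw [Finset.sum_const, nsmul_eq_mul, hcard]
        ring

end Pool.Agent.H89.Perc

end

section

/-!
# Queried edges have a primal arm and a dual arm
-/

open MeasureTheory ProbabilityTheory unitInterval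

namespace Pool.Agent.H89.Perc

end Pool.Agent.H89.Perc

end

section

/-!
# The OSSS inequality for the winding event
-/

open MeasureTheory ProbabilityTheory unitInterval

namespace Pool.Agent.H89.Perc

theorem gW_nonneg (q : I) (n : ℕ) : 0 ≤ gW q n := by
  cases n with
  | zero => simp [gW]
  | succ n =>
    simp only [gW]
    have h1 : 0 ≤ arm q n := arm_nonneg
    have h2 : 0 ≤ arm (σ q) n := arm_nonneg
    positivity

theorem sum_gW {N : ℕ} (hN : 2 ≤ N) (q : I) :
    ∑ n ∈ Finset.range N, gW q n ≤ 5 * ∑ k ∈ Finset.range N, arm q k * arm (σ q) k := by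
  obtain ⟨M, rfl⟩ : ∃ M, N = M + 1 := ⟨N - 1, by omega⟩
  rw [Finset.sum_range_succ' (gW q)]
  have h0 : gW q 0 = 1 := rfl
  have h1 : ∀ k ∈ Finset.range M, gW q (k + 1) = 4 * (arm q k * arm (σ q) k) := fun k _ => rfl
  rw [Finset.sum_congr rfl h1, ← Finset.mul_sum, h0]
  have ha : ∀ k, 0 ≤ arm q k * arm (σ q) k := fun k => mul_nonneg arm_nonneg arm_nonneg
  have h2 : ∑ k ∈ Finset.range M, arm q k * arm (σ q) k ≤
      ∑ k ∈ Finset.range (M + 1), arm q k * arm (σ q) k := by
    rw [Finset.sum_range_succ]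
    linarith only [ha, ha M]
  have h3 : (1 : ℝ) ≤ ∑ k ∈ Finset.range (M + 1), arm q k * arm (σ q) k := by
    rw [Finset.sum_range_succ' (fun k => arm q k * arm (σ q) k), arm_zero, arm_zero]
    have := Finset.sum_nonneg fun (k : ℕ) (_ : k ∈ Finset.range M) => ha (k + 1)
    linarith only [this]
  linarith only [h2, h3]

theorem sum_Ico_toNat (N : ℕ) (f : ℕ → ℝ) :
    ∑ x ∈ Finset.Ico (0 : ℤ) N, f x.toNat = ∑ n ∈ Finset.range N, f n := by
  refine Finset.sum_bij (fun x _ => x.toNat) ?_ ?_ ?_ ?_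
  · intro x hx
    rw [Finset.mem_Ico] at hx
    rw [Finset.mem_range]; omega
  · intro x hx y hy h
    rw [Finset.mem_Ico] at hx hy
    omega
  · intro n hn
    rw [Finset.mem_range] at hn
    exact ⟨n, by rw [Finset.mem_Ico]; omega, by simp⟩
  · intro x _; rfl

theorem sum_Ico_toNat' (N : ℕ) (f : ℕ → ℝ) :
    ∑ x ∈ Finset.Ico (0 : ℤ) N, f (N - 1 - x).toNat = ∑ n ∈ Finset.range N, f n := by
  refine Finset.sum_bij (fun x _ => (N - 1 - x).toNat) ?_ ?_ ?_ ?_
  · intro x hx
    rw [Finset.mem_Ico] at hx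
    rw [Finset.mem_range]; omega
  · intro x hx y hy h
    rw [Finset.mem_Ico] at hx hy
    omega
  · intro n hn
    rw [Finset.mem_range] at hn
    exact ⟨N - 1 - n, by rw [Finset.mem_Ico]; omega, by simp⟩
  · intro x _; rfl

end Pool.Agent.H89.Perc

end

section

/-!
# Lower and upper bounds for the probability of the winding event
-/

open MeasureTheory ProbabilityTheory unitInterval

namespace Pool.Agent.H89.Perc

private lemma wbE_incr (a b c d : ℤ) (u v : Vert) : Incr (wbE a b c d u v) :=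
  incr_conn _ u v

private lemma wb_shift_inj (z : Vert) : Function.Injective (shiftE z) := by
  rintro ⟨x, y, b⟩ ⟨x', y', b'⟩ h
  cases b <;> cases b' <;> simp [shiftE] at h ⊢ <;> omega

lemma wb_shift (q : I) (z1 z2 a b c d x1 y1 x2 y2 : ℤ) :
    Pr q (wbE (a + z1) (b + z1) (c + z2) (d + z2) (x1 + z1, y1 + z2) (x2 + z1, y2 + z2)) =
      Pr q (wbE a b c d (x1, y1) (x2, y2)) := by
  rw [← Pr_comp (wbE_local a b c d (x1, y1) (x2, y2)) (wb_shift_inj (z1, z2)).injOn]
  congr 1
  ext ω
  change _ ↔ Conn (fun e => ω (shiftE (z1, z2) e)) (rect a b c d) (x1, y1) (x2, y2)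
  rw [conn_shift]
  have : {w : Vert | (w.1 - ((z1, z2) : Vert).1, w.2 - ((z1, z2) : Vert).2) ∈ rect a b c d} =
      rect (a + z1) (b + z1) (c + z2) (d + z2) := by
    ext w
    simp only [rect, Set.mem_ofPred_eq]
    omega
  rw [this]
  rfl

/-! ### The torus -/

/-- Reduction modulo `N`. -/
def wbφ (N : ℕ) (e : Edge) : Edge := (e.1 % N, e.2.1 % N, e.2.2)

private lemma wb_mod {N : ℕ} {x y a b : ℤ} (hab : b - a < N) (hx : a ≤ x ∧ x ≤ b)
    (hy : a ≤ y ∧ y ≤ b) (h : x % N = y % N) : x = y := by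
  have hd : (N : ℤ) ∣ x - y := Int.ModEq.dvd (Int.ModEq.symm h)
  have : x - y = 0 := by
    apply Int.eq_zero_of_abs_lt_dvd hd
    rw [abs_lt]
    omega
  omega

private lemma wbφ_injOn {N : ℕ} {a b c d : ℤ} (hab : b - a < N) (hcd : d - c < N) :
    Set.InjOn (wbφ N) (eRect a b c d : Set Edge) := by
  rintro ⟨x, y, t⟩ h1 ⟨x', y', t'⟩ h2 h
  rw [Finset.mem_coe, mem_eRect] at h1 h2
  simp only [src, rect, Set.mem_ofPred_eq] at h1 h2
  simp only [wbφ, Prod.mk.injEq] at h
  obtain ⟨h3, h4, h5⟩ := h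
  rw [wb_mod hab ⟨h1.1, h1.2.1⟩ ⟨h2.1, h2.2.1⟩ h3,
    wb_mod hcd ⟨h1.2.2.1, h1.2.2.2⟩ ⟨h2.2.2.1, h2.2.2.2⟩ h4, h5]

private lemma wbφc_injOn {N : ℕ} {a b c d : ℤ} (hab : b - a < N) (hcd : d - c < N) :
    Set.InjOn (fun e => wbφ N (crossed e)) (eRect a b c d : Set Edge) := by
  rintro ⟨x, y, t⟩ h1 ⟨x', y', t'⟩ h2 h
  rw [Finset.mem_coe, mem_eRect] at h1 h2
  simp only [src, rect, Set.mem_ofPred_eq] at h1 h2
  cases t <;> cases t'
  · simp only [wbφ, crossed, Prod.mk.injEq, Bool.false_eq_true, if_false] at h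
    have e1 := wb_mod (a := a + 1) (b := b + 1) (by omega) (by omega) (by omega) h.1
    have e2 := wb_mod hcd ⟨h1.2.2.1, h1.2.2.2⟩ ⟨h2.2.2.1, h2.2.2.2⟩ h.2.1
    simp only [Prod.mk.injEq, and_true]
    omega
  · simp [wbφ, crossed] at h
  · simp [wbφ, crossed] at h
  · simp only [wbφ, crossed, Prod.mk.injEq, if_true] at h
    have e1 := wb_mod hab ⟨h1.1, h1.2.1⟩ ⟨h2.1, h2.2.1⟩ h.1
    have e2 := wb_mod (a := c + 1) (b := d + 1) (by omega) (by omega) (by omega) h.2.1
    simp only [Prod.mk.injEq, and_true]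
    omega

lemma wb_per_Pr (q : I) {N : ℕ} {a b c d : ℤ} (hab : b - a < N) (hcd : d - c < N)
    (u v : Vert) :
    Pr q {ω | per N ω ∈ wbE a b c d u v} = Pr q (wbE a b c d u v) :=
  Pr_comp (wbE_local a b c d u v) (wbφ_injOn hab hcd)

lemma wb_per_local (N : ℕ) (a b c d : ℤ) (u v : Vert) :
    LocalOn ((eRect a b c d).image (wbφ N)) {ω | per N ω ∈ wbE a b c d u v} := by
  intro ω ω' h hA
  refine wbE_local a b c d u v _ _ (fun e he => ?_) hA
  exact h _ (Finset.mem_image_of_mem _ he)

lemma wb_per_incr (N : ℕ) (a b c d : ℤ) (u v : Vert) :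
    Incr {ω | per N ω ∈ wbE a b c d u v} := by
  intro ω ω' h hA
  exact wbE_incr a b c d u v _ _ (fun e he => h _ he) hA

lemma wb_dual_Pr (q : I) {N : ℕ} {a b c d : ℤ} (hab : b - a < N) (hcd : d - c < N)
    (u v : Vert) :
    Pr q {ω | dual (per N ω) ∈ wbE a b c d u v} = Pr (σ q) (wbE a b c d u v) :=
  Pr_comp_not (wbE_local a b c d u v) (wbφc_injOn hab hcd)

lemma wb_dual_local (N : ℕ) (a b c d : ℤ) (u v : Vert) :
    LocalOn ((eRect a b c d).image (fun e => wbφ N (crossed e)))
      {ω | dual (per N ω) ∈ wbE a b c d u v} := by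
  intro ω ω' h hA
  refine wbE_local a b c d u v _ _ (fun e he => ?_) hA
  have := h _ (Finset.mem_image_of_mem (fun e => wbφ N (crossed e)) he)
  change (!ω (wbφ N (crossed e))) = (!ω' (wbφ N (crossed e)))
  rw [this]

lemma wb_dual_decr (N : ℕ) (a b c d : ℤ) (u v : Vert) :
    Incr {ω | dual (per N ω) ∈ wbE a b c d u v}ᶜ := by
  intro ω ω' h hA hA'
  apply hA
  refine wbE_incr a b c d u v _ _ (fun e he => ?_) hA'
  change (!ω' (wbφ N (crossed e))) = true at he
  change (!ω (wbφ N (crossed e))) = true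
  rw [Bool.not_eq_true'] at he ⊢
  by_contra hc
  rw [Bool.not_eq_false] at hc
  rw [h _ hc] at he
  exact absurd he (by decide)

lemma wb_pow4 {x a b c d : ℝ} (hx : 0 ≤ x) (ha : x ≤ a) (hb : x ≤ b) (hc : x ≤ c)
    (hd : x ≤ d) : x ^ 4 ≤ (a * b) * (c * d) := by
  have h1 : x * x ≤ a * b := mul_le_mul ha hb hx (hx.trans ha)
  have h2 : x * x ≤ c * d := mul_le_mul hc hd hx (hx.trans hc)
  calc x ^ 4 = (x * x) * (x * x) := by ring
    _ ≤ (a * b) * (c * d) := mul_le_mul h1 h2 (mul_nonneg hx hx) ((mul_nonneg hx hx).trans h1)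

lemma wb_fkg4 {q : I} {s1 s2 s3 s4 : Finset Edge} {A B C D : Set Config}
    (lA : LocalOn s1 A) (lB : LocalOn s2 B) (lC : LocalOn s3 C) (lD : LocalOn s4 D)
    (iA : Incr A) (iB : Incr B) (iC : Incr C) (iD : Incr D) :
    (Pr q A * Pr q B) * (Pr q C * Pr q D) ≤ Pr q ((A ∩ B) ∩ (C ∩ D)) := by
  classical
  have h1 := fkg (p := q) lA lB iA iB
  have h2 := fkg (p := q) lC lD iC iD
  have h3 := fkg (p := q) (lA.inter' lB) (lC.inter' lD) (iA.inter iB) (iC.inter iD)
  calc (Pr q A * Pr q B) * (Pr q C * Pr q D)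
      ≤ Pr q (A ∩ B) * Pr q (C ∩ D) :=
        mul_le_mul h1 h2 (mul_nonneg Pr_nonneg Pr_nonneg) Pr_nonneg
    _ ≤ _ := h3

private lemma wb_decr_inter {A B : Set Config} (iA : Incr Aᶜ) (iB : Incr Bᶜ) :
    Incr (A ∩ B)ᶜ := by
  rw [Set.compl_inter]
  exact iA.union iB

lemma wb_fkg4_decr {q : I} {s1 s2 s3 s4 : Finset Edge} {A B C D : Set Config}
    (lA : LocalOn s1 A) (lB : LocalOn s2 B) (lC : LocalOn s3 C) (lD : LocalOn s4 D)
    (iA : Incr Aᶜ) (iB : Incr Bᶜ) (iC : Incr Cᶜ) (iD : Incr Dᶜ) :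
    (Pr q A * Pr q B) * (Pr q C * Pr q D) ≤ Pr q ((A ∩ B) ∩ (C ∩ D)) := by
  classical
  have h1 := fkg_decr (p := q) lA lB iA iB
  have h2 := fkg_decr (p := q) lC lD iC iD
  have h3 := fkg_decr (p := q) (lA.inter' lB) (lC.inter' lD) (wb_decr_inter iA iB)
    (wb_decr_inter iC iD)
  calc (Pr q A * Pr q B) * (Pr q C * Pr q D)
      ≤ Pr q (A ∩ B) * Pr q (C ∩ D) :=
        mul_le_mul h1 h2 (mul_nonneg Pr_nonneg Pr_nonneg) Pr_nonneg
    _ ≤ _ := h3

end Pool.Agent.H89.Perc

end

section

/-!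
# Consequence of the threshold inequality
-/

open MeasureTheory ProbabilityTheory unitInterval

namespace Pool.Agent.H89.Perc

end Pool.Agent.H89.Perc

end

section

/-!
# Lower bound for the percolation probability
-/

open MeasureTheory ProbabilityTheory unitInterval Filter Topology

namespace Pool.Agent.H89.Perc

theorem theta_nonneg (p : I) : 0 ≤ theta p := Pr_nonneg

lemma ArmBox_zero (r : ℕ) : ArmBox 0 0 r = Arm 0 r := by
  ext ω
  constructor
  · rintro ⟨w, hw, u, hu, hc⟩
    have : w = 0 := by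
      rw [mem_ball] at hw
      obtain ⟨h1, h2, h3, h4⟩ := hw
      have h0 : ((0 : Vert).1) = 0 := rfl
      have h0' : ((0 : Vert).2) = 0 := rfl
      apply Prod.ext <;> simp only [h0, h0'] at * <;> push_cast at * <;> omega
    subst this
    exact ⟨u, hu, hc⟩
  · rintro ⟨u, hu, hc⟩
    exact ⟨0, self_mem_ball, u, hu, hc⟩

end Pool.Agent.H89.Perc

end

section

/-! EXACT project, one-arm formula, pure algebra part (helper93). -/

namespace EX93

open Finset Polynomial

variable {R : Type*} [CommRing R]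

end EX93

end

section

namespace EX93

open Finset Polynomial Matrix

section
variable {R : Type*} [CommRing R] {L : ℕ}

/-- entry of the mixed matrix -/
def ent (ω : R) (x : Fin L → R) (b : Bool) (j k : Fin L) : R :=
  (if b then ω * ∏ l, gg (x l) (x j) else ∏ l, gg (x j) (x l)) *
    (projVandermonde (fun j => if b then x j else 1) (fun j => if b then 1 else 1 - x j) j k)

/-- the matrix `W` -/
def WW (ω : R) (x : Fin L → R) : Matrix (Fin L) (Fin L) R :=
  Matrix.of fun j k => ent ω x true j k + ent ω x false j k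

lemma det_WW_expand (ω : R) (x : Fin L → R) :
    (WW ω x).det = ∑ s : Fin L → Bool, (Matrix.of fun j k => ent ω x (s j) j k).det := by
  rw [← Matrix.det_transpose, Matrix.det_apply]
  have h1 : ∀ σ : Equiv.Perm (Fin L), (∏ i, (WW ω x)ᵀ (σ i) i)
      = ∑ s : Fin L → Bool, ∏ i, ent ω x (s i) i (σ i) := by
    intro σ
    have : ∀ i, (WW ω x)ᵀ (σ i) i = ∑ b : Bool, ent ω x b i (σ i) := by
      intro i
      simp [WW, Matrix.transpose_apply]
    simp_rw [this]
    rw [Finset.prod_univ_sum, Fintype.piFinset_univ]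
  simp_rw [h1, Finset.smul_sum]
  rw [Finset.sum_comm]
  refine Finset.sum_congr rfl fun s _ => ?_
  rw [← Matrix.det_transpose, Matrix.det_apply]
  rfl

lemma det_mixed (ω : R) (x : Fin L → R) (s : Fin L → Bool) :
    (Matrix.of fun j k => ent ω x (s j) j k).det
      = (∏ i, if s i then ω * ∏ l, gg (x l) (x i) else ∏ l, gg (x i) (x l)) *
        ∏ i, ∏ j ∈ Ioi i, ((if s j then x j else 1) * (if s i then 1 else 1 - x i)
          - (if s i then x i else 1) * (if s j then 1 else 1 - x j)) := by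
  have : (Matrix.of fun j k => ent ω x (s j) j k) = Matrix.of fun j k =>
      (if s j then ω * ∏ l, gg (x l) (x j) else ∏ l, gg (x j) (x l)) *
      (projVandermonde (fun j => if s j then x j else 1) (fun j => if s j then 1 else 1 - x j)) j k := by
    ext j k
    simp only [Matrix.of_apply, ent, projVandermonde_apply]
  rw [this, Matrix.det_mul_column, Matrix.det_projVandermonde]

lemma prod_offdiag (f : Fin L → Fin L → R) :
    ∏ i, ∏ l, f i l = (∏ i, f i i) * ∏ i, ∏ j ∈ Ioi i, (f i j * f j i) := by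
  have h1 := Finset.prod_prod_Ioi_mul_eq_prod_prod_off_diag (fun i j => f j i)
  rw [h1, ← Finset.prod_mul_distrib]
  refine Finset.prod_congr rfl fun i _ => ?_
  rw [← Finset.mul_prod_erase Finset.univ (fun l => f i l) (Finset.mem_univ i)]
  congr 1
  refine Finset.prod_congr ?_ fun _ _ => rfl
  ext l; simp

end

section
variable {L : ℕ}

end

end EX93

end

section

namespace EX93

open Finset Polynomial Matrix

section
variable {R : Type*} [CommRing R] {L : ℕ}

lemma eval_rpol (ω : R) (x : Fin L → R) (j k : Fin L) :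
    (rpol ω x k).eval (x j) = WW ω x j k := by
  unfold rpol bpol cpol WW
  simp only [Matrix.of_apply, ent, projVandermonde_apply, if_true, Bool.false_eq_true, if_false]
  simp only [eval_add, eval_mul, eval_C, eval_prod, eval_pow, eval_X, eval_sub, eval_one, gg]
  simp

lemma vand_mul_NN [IsDomain R] (ω : R) (x : Fin L → R) : vandermonde x * NN ω x = WW ω x := by
  ext j k
  rw [Matrix.mul_apply, ← eval_rpol]
  have hL : 0 < L := Fin.pos j
  have hdeg : (Apol x).natDegree = L := by
    unfold Apol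
    rw [natDegree_prod_of_monic _ _ (fun _ _ => monic_X_sub_C _)]
    simp
  have hne : Apol x ≠ 1 := by
    intro h
    rw [h] at hdeg
    simp at hdeg
    omega
  have h1 : (rpol ω x k %ₘ Apol x).natDegree < L := by
    have := natDegree_modByMonic_lt (rpol ω x k) (Apol_monic x) hne
    rwa [hdeg] at this
  have h2 : (rpol ω x k %ₘ Apol x).eval (x j) = (rpol ω x k).eval (x j) := by
    have := modByMonic_add_div (rpol ω x k) (Apol x)
    conv_rhs => rw [← this]
    have hA : (Apol x).eval (x j) = 0 := by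
      unfold Apol
      rw [eval_prod]
      exact Finset.prod_eq_zero (Finset.mem_univ j) (by simp)
    rw [eval_add, eval_mul, hA, zero_mul, add_zero]
  rw [← h2, eval_eq_sum_range' h1, Finset.sum_range]
  refine Finset.sum_congr rfl fun i _ => ?_
  simp only [vandermonde_apply, NN, Matrix.of_apply]
  ring

lemma det_WW_eq [IsDomain R] (ω : R) (x : Fin L → R) :
    (WW ω x).det = VV L x * (NN ω x).det := by
  rw [← vand_mul_NN, Matrix.det_mul, Matrix.det_vandermonde]
  rfl

end

end EX93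

end

section

namespace EX93

open Finset Polynomial

variable {R : Type*} [CommRing R]

end EX93

end

section

namespace EX93

open Finset Polynomial

section

end

section
variable {m : ℕ}

end

end EX93

end

section

namespace EX93

open Finset Polynomial

section
variable {m : ℕ}

end

end EX93

end

section

namespace EX93

open Finset Polynomial

end EX93

end

section

namespace EX93

open Finset Polynomial Matrix Filter Topology

/-- constant product over pairs -/
lemma pairs_const {R : Type*} [CommRing R] (L : ℕ) (c : R) :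
    (∏ i : Fin L, ∏ _j ∈ Ioi i, c) = c ^ (L * (L - 1) / 2) := by
  simp only [Finset.prod_const, Fin.card_Ioi]
  rw [Finset.prod_pow_eq_pow_sum]
  congr 1
  rw [← Finset.sum_range_id, Fin.sum_univ_eq_sum_range (fun i => L - 1 - i) L,
    Finset.sum_range_reflect (fun i => i) L]

/-- Moebius coordinate -/
noncomputable def zz (q : ℂ) {L : ℕ} (x : Fin L → ℂ) (i : Fin L) : ℂ :=
  (q ^ 2 * x i + q) / (x i + q)

/-- product of denominators over pairs -/
noncomputable def V2 (q : ℂ) {L : ℕ} (x : Fin L → ℂ) : ℂ :=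
  ∏ i, ∏ j ∈ Ioi i, ((x i + q) * (x j + q))

lemma VV_zz (q : ℂ) (hq : q ^ 2 + q + 1 = 0) {L : ℕ} (x : Fin L → ℂ)
    (hx : ∀ i, x i + q ≠ 0) :
    VV L (zz q x) * V2 q x = (∏ i : Fin L, ∏ _j ∈ Ioi i, (1 - q)) * VV L x := by
  unfold VV V2
  rw [← Finset.prod_mul_distrib, ← Finset.prod_mul_distrib]
  refine Finset.prod_congr rfl fun i _ => ?_
  rw [← Finset.prod_mul_distrib, ← Finset.prod_mul_distrib]
  refine Finset.prod_congr rfl fun j _ => ?_
  have q3 : q ^ 3 = 1 := by linear_combination (q - 1) * hq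
  have h1 := hx i
  have h2 := hx j
  unfold zz
  field_simp
  linear_combination (x j - x i) * q3

lemma VV_ne_zero {L : ℕ} (x : Fin L → ℂ) (hx : Function.Injective x) : VV L x ≠ 0 := by
  unfold VV
  refine Finset.prod_ne_zero_iff.mpr fun i _ => Finset.prod_ne_zero_iff.mpr fun j hj => ?_
  rw [sub_ne_zero]
  intro h
  have := hx h
  rw [Finset.mem_Ioi] at hj
  exact absurd this (ne_of_gt hj)

end EX93

end

section

namespace EX93

open Finset Polynomial Matrix

lemma exists_omega (τ : ℂ) : ∃ ω : ℂ, ω ≠ 0 ∧ ω * (τ + 2) = (1 + ω) ^ 2 ∧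
    ω⁻¹ * (τ + 2) = (1 + ω⁻¹) ^ 2 ∧ ω + ω⁻¹ = τ := by
  obtain ⟨s, hs⟩ := IsAlgClosed.exists_pow_nat_eq (τ ^ 2 - 4) (n := 2) (by norm_num)
  set ω : ℂ := (τ + s) / 2 with hω
  have h1 : ω ^ 2 - τ * ω + 1 = 0 := by
    rw [hω]
    linear_combination (1 / 4 : ℂ) * hs
  have h0 : ω ≠ 0 := by
    intro h
    rw [h] at h1
    norm_num at h1
  have h2 : ω + ω⁻¹ = τ := by
    field_simp
    linear_combination h1
  refine ⟨ω, h0, by linear_combination -h1, ?_, h2⟩
  field_simp
  linear_combination -h1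

lemma det_factor {L : ℕ} (ω τ : ℂ) (h0 : ω ≠ 0) (h : ω + ω⁻¹ = τ)
    (P : Matrix (Fin L) (Fin L) ℂ) :
    (ω • (1 : Matrix (Fin L) (Fin L) ℂ) + P).det * (ω⁻¹ • (1 : Matrix (Fin L) (Fin L) ℂ) + P).det
      = (1 + τ • P + P ^ 2).det := by
  rw [← Matrix.det_mul]
  congr 1
  rw [← h]
  simp only [Matrix.mul_add, Matrix.add_mul, Matrix.mul_smul, Matrix.smul_mul, Matrix.mul_one,
    Matrix.one_mul, smul_add, smul_smul, add_smul, inv_mul_cancel₀ h0, one_smul, sq]
  abel

/-- the Pascal matrix over `ℂ` is the image of the real one -/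
lemma pasc_map (L : ℕ) : pasc ℂ L = (pasc ℝ L).map (algebraMap ℝ ℂ) := by
  ext i j
  simp [pasc]

lemma det_pasc_real (L : ℕ) (τ : ℝ) :
    (1 + (τ : ℂ) • pasc ℂ L + pasc ℂ L ^ 2).det
      = (((1 + τ • pasc ℝ L + pasc ℝ L ^ 2).det : ℝ) : ℂ) := by
  have h := RingHom.map_det (algebraMap ℝ ℂ) (1 + τ • pasc ℝ L + pasc ℝ L ^ 2)
  rw [Complex.coe_algebraMap] at h
  rw [h, pasc_map]
  congr 1
  rw [← Complex.coe_algebraMap, map_add, map_add, map_one, map_pow, RingHom.mapMatrix_apply]
  congr 2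
  ext i j
  simp [Matrix.smul_apply]

end EX93

end

section

/-! EXACT: the determinant `det (1 - P + P ^ 2)` of the Pascal matrix is the square of the number of
alternating sign matrices (connection with the leg sums of helper96/helper34). -/

namespace EX93

open Finset Polynomial Matrix Filter Topology
open Pool.Agent.H34.Hom Pool.Agent.H96.EX

/-- the path -/
noncomputable def zp (q : ℂ) (t : ℝ) (j : ℕ) : ℂ :=
  (q ^ 2 * ((t : ℂ) * j) + q) / ((t : ℂ) * j + q)

end EX93

end

section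

/-!
# Project EXACT, one-arm formula: pushforwards and bilinear forms
-/

set_option autoImplicit false

open Finset

namespace Pool.Agent.H15.Exact

open H56.EX
open scoped Classical

section push

variable {α β γ : Type} [Fintype α] [Fintype β] [Fintype γ]

end push

section pat

variable {L : ℕ}

end pat

end Pool.Agent.H15.Exact

end

section

/-!
# Project EXACT, one-arm formula: the qKZ solution and its complex conjugate

`QP κ Φ` lists the properties of the polynomial qKZ solution with the cube root of unity `κ` in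
terms of sequences of parameters.
-/

set_option autoImplicit false

open Finset

namespace Pool.Agent.H15.Exact

open H56.EX

section conj

variable {κ : ℂ} {Φ : ∀ L : ℕ, Pat L → (ℕ → ℂ) → ℂ}

/-- The conjugate vector. -/
noncomputable def cj (Φ : ∀ L : ℕ, Pat L → (ℕ → ℂ) → ℂ) : ∀ L : ℕ, Pat L → (ℕ → ℂ) → ℂ :=
  fun L P s => (starRingEnd ℂ) (Φ L P (fun n => (starRingEnd ℂ) (s n)))

theorem conj_eop {L : ℕ} (i : ℤ) (v : Pat L → ℂ) (P : Pat L) :
    (starRingEnd ℂ) (eop i v P) = eop i (fun P' => (starRingEnd ℂ) (v P')) P := by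
  unfold eop
  rw [map_sum]
  refine sum_congr rfl fun P' _ => ?_
  split_ifs
  · rfl
  · exact map_zero _

theorem qp_conj (h : QP κ Φ) : QP ((starRingEnd ℂ) κ) (cj Φ) := by
  refine ⟨?_, ?_, ?_, ?_, ?_, ?_, ?_, ?_, ?_⟩
  · have := congrArg (starRingEnd ℂ) h.kk
    simpa using this
  · intro L P
    obtain ⟨p, hp⟩ := h.mv L P
    refine ⟨MvPolynomial.map (starRingEnd ℂ) p, fun s => ?_⟩
    unfold cj
    rw [hp, MvPolynomial.eval_map]
    have := MvPolynomial.eval₂_comp_left (starRingEnd ℂ) (RingHom.id ℂ)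
      (fun k : Fin L => (starRingEnd ℂ) (s k)) p
    rw [RingHom.comp_id] at this
    have e2 : ((starRingEnd ℂ) ∘ fun k : Fin L => (starRingEnd ℂ) (s k)) =
        fun k : Fin L => s k := by
      funext k
      exact Complex.conj_conj _
    rw [e2] at this
    exact this
  · intro L P s n hn
    obtain ⟨p, hp, he⟩ := h.poly L P (fun n => (starRingEnd ℂ) (s n)) n hn
    refine ⟨p.map (starRingEnd ℂ), (Polynomial.natDegree_map_le).trans hp, fun t => ?_⟩
    have e1 : (fun m => (starRingEnd ℂ) (Function.update s n t m)) =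
        Function.update (fun n => (starRingEnd ℂ) (s n)) n ((starRingEnd ℂ) t) := by
      funext m
      by_cases hm : m = n
      · subst hm; simp
      · simp [hm]
    unfold cj
    rw [e1, he, Polynomial.eval_map, Polynomial.eval, Polynomial.hom_eval₂]
    simp
  · intro L P s n hn
    have h1 := congrArg (starRingEnd ℂ) (h.exch L P (fun n => (starRingEnd ℂ) (s n)) n hn)
    simp only [map_mul, map_sub, map_add, map_pow, Complex.conj_conj, conj_eop] at h1
    exact h1
  · intro L P s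
    have h1 := congrArg (starRingEnd ℂ) (h.rot L P (fun n => (starRingEnd ℂ) (s n)))
    have e1 : (fun m => (starRingEnd ℂ) (scons (s (L - 1)) s m)) =
        scons ((starRingEnd ℂ) (s (L - 1))) (fun n => (starRingEnd ℂ) (s n)) := by
      funext m
      rcases m with _ | m <;> simp [scons]
    unfold cj
    rw [e1]
    exact h1
  · intro L P s hs hP
    unfold cj
    rw [h.arc_zero L P (fun n => (starRingEnd ℂ) (s n)) (by simp [hs]) hP, map_zero]
  · intro L P w z
    have h1 := congrArg (starRingEnd ℂ) (h.arc L P ((starRingEnd ℂ) w)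
      (fun n => (starRingEnd ℂ) (z n)))
    have e1 : (fun m => (starRingEnd ℂ) (scons ((starRingEnd ℂ) κ ^ 2 * w) (scons w z) m)) =
        scons (κ ^ 2 * (starRingEnd ℂ) w) (scons ((starRingEnd ℂ) w)
          (fun n => (starRingEnd ℂ) (z n))) := by
      funext m
      rcases m with _ | _ | m <;> simp [scons]
    unfold cj
    rw [e1, h1]
    simp only [map_mul, map_div₀, map_neg, map_pow, map_prod, map_sub, Complex.conj_conj,
      map_ofNat]
  · intro P s hP
    unfold cj
    rw [h.two_base P _ hP]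
    simp
  · intro P s hP
    unfold cj
    rw [h.two_other P _ hP]
    simp

end conj

theorem conj_q : (starRingEnd ℂ) q = q ^ 2 := by
  have h1 : (starRingEnd ℂ) q + q = -1 := by
    apply Complex.ext
    · simp [q]
    · simp [q]
  linear_combination h1 - q_sq

end Pool.Agent.H15.Exact

end

section

/-!
# Project EXACT, one-arm formula: symmetry and wheel recursion
-/

set_option autoImplicit false

open Finset

namespace Pool.Agent.H15.Exact

open H56.EX

end Pool.Agent.H15.Exact

end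

section

/-!
# Project EXACT, one-arm formula: polynomials in two variables

The outer variable is `x` and the inner variable is `y`.
-/

set_option autoImplicit false

open Finset

namespace Pool.Agent.H15.Exact

open H56.EX
open scoped Classical

section vec

variable {L : ℕ}

end vec

section FB

end FB

end Pool.Agent.H15.Exact

end

section

/-!
# Project EXACT, one-arm formula: the top coefficient of the vector
-/

set_option autoImplicit false

open Finset

namespace Pool.Agent.H15.Exact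

open H56.EX
open scoped Classical

section

end

end Pool.Agent.H15.Exact

end

section

/-!
# Project EXACT, one-arm formula: the top coefficient of the pairing
-/

set_option autoImplicit false

open Finset

namespace Pool.Agent.H15.Exact

open H56.EX
open scoped Classical

end Pool.Agent.H15.Exact

end

section

/-!
# Project EXACT, one-arm formula: two strands
-/

set_option autoImplicit false

open Finset

namespace Pool.Agent.H15.Exact

open H56.EX
open scoped Classical

end Pool.Agent.H15.Exact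

end

section

/-!
# Project EXACT, one-arm formula: the pairing as a symmetric polynomial, and its value at `1`
-/

set_option autoImplicit false

open Finset

namespace Pool.Agent.H15.Exact

open H56.EX
open scoped Classical

variable {κ τ : ℂ} {Φ Φ' : ∀ L : ℕ, Pat L → (ℕ → ℂ) → ℂ} {W : ∀ L : ℕ, Pat L → Pat L → ℂ}

theorem cc_eq (n : ℕ) : cc n = 3 ^ (n * (2 * n - 1)) := by
  induction n with
  | zero => simp [cc]
  | succ n ih =>
    rw [cc, ih]
    have e1 : (81 : ℂ) ^ n = 3 ^ (4 * n) := by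
      rw [pow_mul]; norm_num
    rw [e1, ← pow_succ', ← pow_add]
    congr 1
    rcases n with _ | n
    · rfl
    · have a1 : 2 * (n + 1) - 1 = 2 * n + 1 := by omega
      have a2 : 2 * (n + 1 + 1) - 1 = 2 * n + 3 := by omega
      rw [a1, a2]
      ring

end Pool.Agent.H15.Exact

end

section

/-!
# Project EXACT: the components of the qKZ solution at `ζ = 1` are real
-/

set_option autoImplicit false

open Finset

namespace Pool.Agent.H15.Exact

open H56.EX Pool.Agent.H12.QKZ
open scoped Classical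

variable {L : ℕ}

end Pool.Agent.H15.Exact

end

section

/-!
# Project EXACT, one-arm formula: final statements

`vR P` is the component at the pattern `P` of the stationary vector (`ζ = 1`).
-/

set_option autoImplicit false

open Finset

namespace Pool.Agent.H15.Exact

open H56.EX Pool.Agent.H12.QKZ
open scoped Classical

variable {κ τ : ℂ} {Φ Φ' : ∀ L : ℕ, Pat L → (ℕ → ℂ) → ℂ} {W : ∀ L : ℕ, Pat L → Pat L → ℂ}

theorem eval_GG_one (h : QP κ Φ) (h' : QP (κ ^ 2) Φ') (n : ℕ) (hn : 1 ≤ n) :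
    MvPolynomial.eval (fun _ => 1) (GG h h' W n) =
      cc n * Gv W Φ' Φ (2 * n) (fun _ => 1) := by
  obtain ⟨m, rfl⟩ : ∃ m, n = m + 1 := ⟨n - 1, by omega⟩
  rw [← eval_GP h h']
  change MvPolynomial.eval _ (MvPolynomial.C (cc (m + 1)) * GP h h' W (2 * (m + 1))) = _
  rw [map_mul, MvPolynomial.eval_C]

end Pool.Agent.H15.Exact

end
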