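import Pool.Agent.H94.BG.H31.PT.M13_2
import Pool.Agent.H94.BG.H31.PT.M32_6
import Pool.Agent.H94.BG.H31.PT.M33_2
import Pool.Agent.H94.BG.H31.PT.M34_3
import Pool.Agent.H94.BG.H31.PT.M43_1
import Pool.Agent.H94.BG.H31.PT.M43_4
import Pool.Agent.H94.BG.M28

/-! The parts of this file: H89.Perc.SimonLieb, H89.Perc.TorusReveal, H89.Perc.TorusVar, H89.Perc.WindBounds, H89.Perc.TorusThreshold, H89.Perc.Final, H93.EX.Basic, H93.EX.Hom1, H93.EX.Hom2, H93.EX.Deg, H93.EX.Uniq, H93.EX.Step, H93.EX.Induct, H93.EX.Hom3, H93.EX.Hom4, H93.EX.Asm, H15.Exact.Bil, H15.Exact.QP, H15.Exact.Rel, H15.Exact.Biv, H15.Exact.Top, H15.Exact.TopG, H15.Exact.Two, H15.Exact.GPoly, H15.Exact.Real, H15.Exact.Final. -/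

section

/-!
# The Simon-Lieb inequality for one-arm probabilities
-/

open MeasureTheory ProbabilityTheory unitInterval

namespace Pool.Agent.H89.Perc

end Pool.Agent.H89.Perc

end

section

/-!
# Queried edges have a primal arm and a dual arm
-/

open MeasureTheory ProbabilityTheory unitInterval

namespace Pool.Agent.H89.Perc

private lemma expl_succ' (R : Rule) (ω : Config) (n : ℕ) :
    expl R ω (n + 1) = explStep R ω (expl R ω n) := by
  simp only [expl, Function.iterate_succ_apply']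

private lemma expl_inv (R : Rule) (ω : Config) (n : ℕ) :
    (∀ e ∈ (expl R ω n).1, ω e = true) ∧ (∀ e ∈ (expl R ω n).2, ω e = false) := by
  induction n with
  | zero => simp [expl]
  | succ n ih =>
    rw [expl_succ']
    unfold explStep
    cases h : R (expl R ω n).1 (expl R ω n).2 with
    | none => simpa using ih
    | some e =>
      by_cases hω : ω e = true
      · simp only [hω, if_true, Finset.mem_insert]
        exact ⟨fun e' he' => he'.elim (fun h => h ▸ hω) (ih.1 e'), ih.2⟩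
      · simp only [if_neg hω, Finset.mem_insert]
        exact ⟨ih.1, fun e' he' => he'.elim (fun h => h ▸ by simpa using hω) (ih.2 e')⟩

private lemma exists_step_of_queried (R : Rule) (ω : Config) (n : ℕ) {e : Edge}
    (he : e ∈ queried R ω n) :
    ∃ m, R (expl R ω m).1 (expl R ω m).2 = some e := by
  induction n with
  | zero => simp [queried, expl] at he
  | succ n ih =>
    by_cases h : e ∈ queried R ω n
    · exact ih h
    refine ⟨n, ?_⟩
    rw [queried, expl_succ'] at he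
    unfold explStep at he
    rw [queried] at h
    cases h' : R (expl R ω n).1 (expl R ω n).2 with
    | none => simp only [h'] at he; exact absurd he h
    | some e' =>
      simp only [h'] at he
      by_cases hω : ω e' = true
      · simp only [hω, if_true, Finset.mem_union, Finset.mem_insert] at he h
        have : e = e' := by tauto
        rw [this]
      · simp only [if_neg hω, Finset.mem_union, Finset.mem_insert] at he h
        have : e = e' := by tauto
        rw [this]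

/-- Probability that an edge is queried. -/
theorem torus_reveal {N : ℕ} (hN : 2 ≤ N) (q : I) {e : Edge} (he : e ∈ tEdges N) {k : ℕ}
    (hk : (k : ℤ) + 1 = rho N e.1 e.2.1) :
    Pr q {ω | e ∈ queried (torusRule N) ω (tEdges N).card} ≤ 4 * (arm q k * arm (σ q) k) := by
  -- the second face
  set φ' : Vert := if e.2.2 then (e.1 - 1, e.2.1) else (e.1, e.2.1 - 1) with hφ'
  have hr := hk
  unfold rho at hr
  have h1 : (k : ℤ) + 1 ≤ e.1 := by omega
  have h2 : (k : ℤ) + 1 ≤ N - 1 - e.1 := by omega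
  have h3 : (k : ℤ) + 1 ≤ e.2.1 := by omega
  have h4 : (k : ℤ) + 1 ≤ N - 1 - e.2.1 := by omega
  have hev : ∀ u φ : Vert, Pr q (Arm u k ∩ {ω | dual ω ∈ Arm φ k}) ≤
      arm q k * arm (σ q) k := by
    intro u φ
    refine (fkg_mixed (localOn_arm u k) (localOn_arm φ k).dual' (incr_arm u k)
      (incr_arm φ k).dual_compl).trans ?_
    rw [Pr_arm, Pr_dual_arm]
  have hsub : {ω | e ∈ queried (torusRule N) ω (tEdges N).card} ⊆
      ((Arm (src e) k ∩ {ω | dual ω ∈ Arm (src e) k}) ∪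
        (Arm (src e) k ∩ {ω | dual ω ∈ Arm φ' k})) ∪
      ((Arm (tgt e) k ∩ {ω | dual ω ∈ Arm (src e) k}) ∪
        (Arm (tgt e) k ∩ {ω | dual ω ∈ Arm φ' k})) := by
    intro ω hω
    obtain ⟨m, hm⟩ := exists_step_of_queried _ _ _ hω
    obtain ⟨_, _, _, hc⟩ := torusRule_spec hm
    obtain ⟨hO, hC⟩ := expl_inv (torusRule N) ω m
    have hnb : ¬ IsBd e := by
      rintro (⟨_, h⟩ | ⟨_, h⟩) <;> omega
    obtain ⟨hV, φ, hφ, hφr⟩ := hc.resolve_left hnb
    have hArm : ∀ u : Vert, u ∈ reachV N (expl (torusRule N) ω m).1 →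
        (k : ℤ) ≤ u.1 → (k : ℤ) ≤ N - u.1 → (k : ℤ) ≤ u.2 → (k : ℤ) ≤ N - u.2 →
        ω ∈ Arm u k := by
      rintro u ⟨w, hw, hc⟩ a1 a2 a3 a4
      have hc' : Conn ω (rect 0 N 0 N) u w :=
        (hc.mono le_rfl fun e' he' => hO e' (by simpa using he')).symm
      refine hc'.mem_arm ?_
      obtain ⟨_, hw⟩ := hw
      rcases hw with h | h | h | h <;> [left; left; right; right] <;> rw [h] <;>
        rcases abs_cases ((0 : ℤ) - u.1) with h5 | h5 <;>
        rcases abs_cases ((N : ℤ) - u.1) with h6 | h6 <;>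
        rcases abs_cases ((0 : ℤ) - u.2) with h7 | h7 <;>
        rcases abs_cases ((N : ℤ) - u.2) with h8 | h8 <;> omega
    have hDual : ∀ φ : Vert, φ ∈ reachF N (expl (torusRule N) ω m).2 →
        (k : ℤ) ≤ φ.1 → (k : ℤ) ≤ N - 1 - φ.1 → (k : ℤ) ≤ φ.2 → (k : ℤ) ≤ N - 1 - φ.2 →
        dual ω ∈ Arm φ k := by
      rintro u ⟨w, hw, hc⟩ a1 a2 a3 a4
      have hc' : Conn (dual ω) (rect 0 (N - 1) 0 (N - 1)) u w :=
        (hc.mono le_rfl fun e' he' => by
          simp only [decide_eq_true_eq] at he'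
          simp [dual, hC _ he']).symm
      refine hc'.mem_arm ?_
      obtain ⟨_, hw⟩ := hw
      rcases hw with h | h | h | h <;> [left; left; right; right] <;> rw [h] <;>
        rcases abs_cases ((0 : ℤ) - u.1) with h5 | h5 <;>
        rcases abs_cases ((N : ℤ) - 1 - u.1) with h6 | h6 <;>
        rcases abs_cases ((0 : ℤ) - u.2) with h7 | h7 <;>
        rcases abs_cases ((N : ℤ) - 1 - u.2) with h8 | h8 <;> omega
    have hsrcA : src e ∈ reachV N (expl (torusRule N) ω m).1 → ω ∈ Arm (src e) k := fun h =>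
      hArm _ h (by simp only [src]; omega) (by simp only [src]; omega)
        (by simp only [src]; omega) (by simp only [src]; omega)
    have htgtA : tgt e ∈ reachV N (expl (torusRule N) ω m).1 → ω ∈ Arm (tgt e) k := fun h => by
      apply hArm _ h <;> unfold tgt <;> split_ifs <;> simp only <;> omega
    have hD1 : src e ∈ reachF N (expl (torusRule N) ω m).2 → dual ω ∈ Arm (src e) k := fun h =>
      hDual _ h (by simp only [src]; omega) (by simp only [src]; omega)
        (by simp only [src]; omega) (by simp only [src]; omega)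
    have hD2 : φ' ∈ reachF N (expl (torusRule N) ω m).2 → dual ω ∈ Arm φ' k := fun h => by
      apply hDual _ h <;> rw [hφ'] <;> split_ifs <;> simp only <;> omega
    rcases hφ with hφ | hφ
    · subst hφ
      rcases hV with hV | hV
      · exact Or.inl (Or.inl ⟨hsrcA hV, hD1 hφr⟩)
      · exact Or.inr (Or.inl ⟨htgtA hV, hD1 hφr⟩)
    · rw [← hφ'] at hφ
      subst hφ
      rcases hV with hV | hV
      · exact Or.inl (Or.inr ⟨hsrcA hV, hD2 hφr⟩)
      · exact Or.inr (Or.inr ⟨htgtA hV, hD2 hφr⟩)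
  refine (Pr_mono hsub).trans ?_
  refine (Pr_union_le).trans ?_
  have ha := hev (src e) (src e)
  have hb := hev (src e) φ'
  have hc := hev (tgt e) (src e)
  have hd := hev (tgt e) φ'
  have hl := Pr_union_le (p := q) (A := Arm (src e) k ∩ {ω | dual ω ∈ Arm (src e) k})
    (B := Arm (src e) k ∩ {ω | dual ω ∈ Arm φ' k})
  have hl' := Pr_union_le (p := q) (A := Arm (tgt e) k ∩ {ω | dual ω ∈ Arm (src e) k})
    (B := Arm (tgt e) k ∩ {ω | dual ω ∈ Arm φ' k})
  linarith only [ha, hb, hc, hd, hl, hl']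

end Pool.Agent.H89.Perc

end

section

/-!
# The OSSS inequality for the winding event
-/

open MeasureTheory ProbabilityTheory unitInterval

namespace Pool.Agent.H89.Perc

/-- The OSSS inequality for the winding event. -/
theorem torus_var {N : ℕ} (hN : 2 ≤ N) (q : I) :
    Pr q (Wind N) * (1 - Pr q (Wind N)) ≤
      10 / N * (∑ k ∈ Finset.range N, arm q k * arm (σ q) k) *
        ∑ e ∈ tEdges N, pivot q (Wind N) e := by
  have hN1 : 1 ≤ N := by omega
  set δ : Edge → ℝ := fun e => Pr q {ω | e ∈ queried (torusRule N) ω (tEdges N).card} with hδ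
  set G : ℤ → ℤ → ℝ := fun x y => gW q x.toNat + gW q (N - 1 - x).toNat + gW q y.toNat +
    gW q (N - 1 - y).toNat with hG
  set Q : Finset ℤ := Finset.Ico (0 : ℤ) N with hQ
  have hcardQ : (Q.card : ℝ) = N := by rw [hQ]; simp
  -- the revealment
  have hδG : ∀ e ∈ tEdges N, δ e ≤ G e.1 e.2.1 := by
    intro e he
    have he' := he
    simp only [tEdges, Finset.mem_product, Finset.mem_Ico, Finset.mem_univ, and_true] at he'
    have n1 := gW_nonneg q e.1.toNat
    have n2 := gW_nonneg q (N - 1 - e.1).toNat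
    have n3 := gW_nonneg q e.2.1.toNat
    have n4 := gW_nonneg q (N - 1 - e.2.1).toNat
    have hρ : δ e ≤ gW q (rho N e.1 e.2.1).toNat := by
      by_cases h0 : rho N e.1 e.2.1 = 0
      · rw [h0]
        exact Pr_le_one
      · have hpos : 0 < rho N e.1 e.2.1 := by
          unfold rho at h0 ⊢
          omega
        obtain ⟨k, hk⟩ : ∃ k : ℕ, (k : ℤ) + 1 = rho N e.1 e.2.1 :=
          ⟨(rho N e.1 e.2.1 - 1).toNat, by omega⟩
        have h2 : (rho N e.1 e.2.1).toNat = k + 1 := by omega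
        rw [h2]
        exact torus_reveal hN q he hk
    have h4 : rho N e.1 e.2.1 = e.1 ∨ rho N e.1 e.2.1 = N - 1 - e.1 ∨ rho N e.1 e.2.1 = e.2.1 ∨
        rho N e.1 e.2.1 = N - 1 - e.2.1 := by
      unfold rho; omega
    rcases h4 with h4 | h4 | h4 | h4 <;> rw [h4] at hρ <;> simp only [hG] <;> linarith only [n2, n3, n4, hρ, n1]
  have hsumG : ∑ x ∈ Q, ∑ y ∈ Q, G x y ≤
      20 * N * ∑ k ∈ Finset.range N, arm q k * arm (σ q) k := by
    have h1 : ∑ x ∈ Q, ∑ y ∈ Q, G x y = 4 * N * ∑ n ∈ Finset.range N, gW q n := by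
      simp only [hG, Finset.sum_add_distrib, Finset.sum_const, nsmul_eq_mul, ← Finset.mul_sum]
      rw [hQ, sum_Ico_toNat N (gW q), sum_Ico_toNat' N (gW q), ← hQ, hcardQ]
      ring
    rw [h1]
    have h2 := sum_gW hN q
    have h3 : (0 : ℝ) ≤ 4 * N := by positivity
    nlinarith only [h2, h3, mul_le_mul_of_nonneg_left h2 h3]
  -- the influences
  have h00 : ∀ d : Bool, ((0 : ℤ), (0 : ℤ), d) ∈ tEdges N := by
    intro d
    simp only [tEdges, Finset.mem_product, Finset.mem_Ico, Finset.mem_univ, and_true]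
    omega
  set c : Bool → ℝ := fun d => pivot q (Wind N) ((0 : ℤ), (0 : ℤ), d) with hc
  have hc0 : ∀ d, 0 ≤ c d := fun d => pivot_wind_nonneg q _
  have hpc : ∀ e ∈ tEdges N, pivot q (Wind N) e = c e.2.2 := fun e he =>
    pivot_wind hN1 q he (h00 _) rfl
  have hsum : ∀ F : Edge → ℝ, ∑ e ∈ tEdges N, F e = ∑ x ∈ Q, ∑ y ∈ Q, ∑ d : Bool, F (x, y, d) := by
    intro F
    unfold tEdges
    rw [Finset.sum_product]
    refine Finset.sum_congr rfl fun x _ => ?_
    rw [Finset.sum_product]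
  have hpiv : ∑ e ∈ tEdges N, pivot q (Wind N) e = N ^ 2 * (c true + c false) := by
    rw [Finset.sum_congr rfl hpc, hsum]
    simp only [Fintype.sum_bool, Finset.sum_const, nsmul_eq_mul, hcardQ]
    ring
  have hos := osss (p := q) (localOn_wind hN1) (incr_wind N) (torusRule N)
    (fun O C e h => ⟨(torusRule_spec h).1, (torusRule_spec h).2.1, (torusRule_spec h).2.2.1⟩)
    (fun ω ω' h hω => torus_det hN ω ω' h hω)
  have hmain : ∑ e ∈ tEdges N, δ e * pivot q (Wind N) e ≤
      (c true + c false) * (20 * N * ∑ k ∈ Finset.range N, arm q k * arm (σ q) k) := by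
    calc ∑ e ∈ tEdges N, δ e * pivot q (Wind N) e
        ≤ ∑ e ∈ tEdges N, G e.1 e.2.1 * c e.2.2 := by
          refine Finset.sum_le_sum fun e he => ?_
          rw [hpc e he]
          exact mul_le_mul_of_nonneg_right (hδG e he) (hc0 _)
      _ = (c true + c false) * ∑ x ∈ Q, ∑ y ∈ Q, G x y := by
          rw [hsum, Finset.mul_sum]
          refine Finset.sum_congr rfl fun x _ => ?_
          rw [Finset.mul_sum]
          refine Finset.sum_congr rfl fun y _ => ?_
          rw [Fintype.sum_bool]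
          ring
      _ ≤ _ := mul_le_mul_of_nonneg_left hsumG (add_nonneg (hc0 _) (hc0 _))
  refine hos.trans ?_
  rw [hpiv]
  have hNpos : (0 : ℝ) < N := by
    have : 0 < N := by omega
    exact_mod_cast this
  calc 1 / 2 * ∑ e ∈ tEdges N, Pr q {ω | e ∈ queried (torusRule N) ω (tEdges N).card} *
        pivot q (Wind N) e
      ≤ 1 / 2 * ((c true + c false) *
        (20 * N * ∑ k ∈ Finset.range N, arm q k * arm (σ q) k)) :=
        mul_le_mul_of_nonneg_left hmain (by norm_num)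
    _ = 10 / N * (∑ k ∈ Finset.range N, arm q k * arm (σ q) k) *
        (N ^ 2 * (c true + c false)) := by
        field_simp
        ring

end Pool.Agent.H89.Perc

end

section

/-!
# Lower and upper bounds for the probability of the winding event
-/

open MeasureTheory ProbabilityTheory unitInterval

namespace Pool.Agent.H89.Perc

/-! ### The torus -/

/-- Winding is at least polynomially likely. -/
theorem wind_lower {r : ℕ} (hr : 1 ≤ r) (q : I) :
    (arm q r / (8 * r)) ^ 4 ≤ Pr q (Wind (4 * r)) := by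
  obtain ⟨y, hy1, hy2, hy⟩ := wb_choose q hr
  have hN : ((4 * r : ℕ) : ℤ) = 4 * r := by push_cast; ring
  have hr' : (1 : ℤ) ≤ r := by exact_mod_cast hr
  have hx0 : 0 ≤ arm q r / (8 * r) := div_nonneg arm_nonneg (by positivity)
  -- the four events
  have p1 : Pr q {ω | per (4 * r) ω ∈ wbE (-r) r (-r) r (0, 0) (r, y)} = wbg q r y := by
    rw [wb_per_Pr q (by omega) (by omega)]
    rfl
  have p2 : Pr q {ω | per (4 * r) ω ∈ wbE (2 * r - r) (2 * r - -r) (-r) r (2 * r - 0, 0)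
      (2 * r - r, y)} = wbg q r y := by
    rw [wb_per_Pr q (by omega) (by omega), wb_reflX q (2 * r) (-r) r (-r) r 0 0 r y]
    rfl
  have p3 : Pr q {ω | per (4 * r) ω ∈ wbE (-r + 2 * r) (r + 2 * r) (-r + 0) (r + 0)
      (0 + 2 * r, 0 + 0) (r + 2 * r, y + 0)} = wbg q r y := by
    rw [wb_per_Pr q (by omega) (by omega), wb_shift q (2 * r) 0 (-r) r (-r) r 0 0 r y]
    rfl
  have p4 : Pr q {ω | per (4 * r) ω ∈ wbE (4 * r - r) (4 * r - -r) (-r) r (4 * r - 0, 0)
      (4 * r - r, y)} = wbg q r y := by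
    rw [wb_per_Pr q (by omega) (by omega), wb_reflX q (4 * r) (-r) r (-r) r 0 0 r y]
    rfl
  have key := wb_fkg4 (q := q)
    (wb_per_local (4 * r) (-r) r (-r) r (0, 0) (r, y))
    (wb_per_local (4 * r) (2 * r - r) (2 * r - -r) (-r) r (2 * r - 0, 0) (2 * r - r, y))
    (wb_per_local (4 * r) (-r + 2 * r) (r + 2 * r) (-r + 0) (r + 0) (0 + 2 * r, 0 + 0)
      (r + 2 * r, y + 0))
    (wb_per_local (4 * r) (4 * r - r) (4 * r - -r) (-r) r (4 * r - 0, 0) (4 * r - r, y))
    (wb_per_incr _ _ _ _ _ _ _) (wb_per_incr _ _ _ _ _ _ _) (wb_per_incr _ _ _ _ _ _ _)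
    (wb_per_incr _ _ _ _ _ _ _)
  rw [p1, p2, p3, p4] at key
  refine (wb_pow4 hx0 hy hy hy hy).trans (key.trans (Pr_mono ?_))
  rintro ω ⟨⟨h1, h2⟩, ⟨h3, h4⟩⟩
  have h1' : Conn (per (4 * r) ω) Set.univ (0, 0) (r, y) :=
    Conn.mono_set (Set.subset_univ _) h1
  have h2' : Conn (per (4 * r) ω) Set.univ (2 * r - 0, 0) (2 * r - r, y) :=
    Conn.mono_set (Set.subset_univ _) h2
  have h3' : Conn (per (4 * r) ω) Set.univ (0 + 2 * r, 0 + 0) (r + 2 * r, y + 0) :=
    Conn.mono_set (Set.subset_univ _) h3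
  have h4' : Conn (per (4 * r) ω) Set.univ (4 * r - 0, 0) (4 * r - r, y) :=
    Conn.mono_set (Set.subset_univ _) h4
  have e2 : (2 * (r : ℤ) - r, y) = ((r : ℤ), y) := by congr 1; ring
  have e3 : ((0 : ℤ) + 2 * r, (0 : ℤ) + 0) = (2 * (r : ℤ) - 0, (0 : ℤ)) := by
    rw [Prod.mk.injEq]; constructor <;> ring
  have e4 : ((r : ℤ) + 2 * r, y + 0) = (4 * (r : ℤ) - r, y) := by
    rw [Prod.mk.injEq]; constructor <;> ring
  rw [e2] at h2'
  rw [e3, e4] at h3'
  have hall := ((h1'.trans h2'.symm).trans h3').trans h4'.symm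
  refine ⟨(0, 0), 1, 0, one_ne_zero, ?_⟩
  have e5 : (((0, 0) : Vert).1 + 1 * ((4 * r : ℕ) : ℤ), ((0, 0) : Vert).2 + 0 * ((4 * r : ℕ) : ℤ))
      = (4 * (r : ℤ) - 0, (0 : ℤ)) := by
    rw [Prod.mk.injEq, hN]; constructor <;> ring
  rw [e5]
  exact hall

theorem wind_upper {r : ℕ} (hr : 1 ≤ r) (q : I) :
    (arm (σ q) r / (8 * r)) ^ 4 ≤ 1 - Pr q (Wind (4 * r)) := by
  obtain ⟨y, hy1, hy2, hy⟩ := wb_choose (σ q) hr
  have hN : ((4 * r : ℕ) : ℤ) = 4 * r := by push_cast; ring
  have hr' : (1 : ℤ) ≤ r := by exact_mod_cast hr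
  have hx0 : 0 ≤ arm (σ q) r / (8 * r) := div_nonneg arm_nonneg (by positivity)
  have p1 : Pr q {ω | dual (per (4 * r) ω) ∈ wbE (-r) r (-r) r (0, 0) (y, r)} =
      wbg (σ q) r y := by
    rw [wb_dual_Pr q (by omega) (by omega), wbg_top]
  have p2 : Pr q {ω | dual (per (4 * r) ω) ∈ wbE (-r) r (2 * r - r) (2 * r - -r) (0, 2 * r - 0)
      (y, 2 * r - r)} = wbg (σ q) r y := by
    rw [wb_dual_Pr q (by omega) (by omega), wb_reflY (σ q) (2 * r) (-r) r (-r) r 0 0 y r,
      wbg_top]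
  have p3 : Pr q {ω | dual (per (4 * r) ω) ∈ wbE (-r + 0) (r + 0) (-r + 2 * r) (r + 2 * r)
      (0 + 0, 0 + 2 * r) (y + 0, r + 2 * r)} = wbg (σ q) r y := by
    rw [wb_dual_Pr q (by omega) (by omega), wb_shift (σ q) 0 (2 * r) (-r) r (-r) r 0 0 y r,
      wbg_top]
  have p4 : Pr q {ω | dual (per (4 * r) ω) ∈ wbE (-r) r (4 * r - r) (4 * r - -r) (0, 4 * r - 0)
      (y, 4 * r - r)} = wbg (σ q) r y := by
    rw [wb_dual_Pr q (by omega) (by omega), wb_reflY (σ q) (4 * r) (-r) r (-r) r 0 0 y r,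
      wbg_top]
  have key := wb_fkg4_decr (q := q)
    (wb_dual_local (4 * r) (-r) r (-r) r (0, 0) (y, r))
    (wb_dual_local (4 * r) (-r) r (2 * r - r) (2 * r - -r) (0, 2 * r - 0) (y, 2 * r - r))
    (wb_dual_local (4 * r) (-r + 0) (r + 0) (-r + 2 * r) (r + 2 * r) (0 + 0, 0 + 2 * r)
      (y + 0, r + 2 * r))
    (wb_dual_local (4 * r) (-r) r (4 * r - r) (4 * r - -r) (0, 4 * r - 0) (y, 4 * r - r))
    (wb_dual_decr _ _ _ _ _ _ _) (wb_dual_decr _ _ _ _ _ _ _) (wb_dual_decr _ _ _ _ _ _ _)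
    (wb_dual_decr _ _ _ _ _ _ _)
  rw [p1, p2, p3, p4] at key
  rw [← Pr_compl (localOn_wind (N := 4 * r) (by omega))]
  refine (wb_pow4 hx0 hy hy hy hy).trans (key.trans (Pr_mono ?_))
  rintro ω ⟨⟨h1, h2⟩, ⟨h3, h4⟩⟩ hW
  have h1' : Conn (dual (per (4 * r) ω)) Set.univ (0, 0) (y, r) :=
    Conn.mono_set (Set.subset_univ _) h1
  have h2' : Conn (dual (per (4 * r) ω)) Set.univ (0, 2 * r - 0) (y, 2 * r - r) :=
    Conn.mono_set (Set.subset_univ _) h2
  have h3' : Conn (dual (per (4 * r) ω)) Set.univ (0 + 0, 0 + 2 * r) (y + 0, r + 2 * r) :=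
    Conn.mono_set (Set.subset_univ _) h3
  have h4' : Conn (dual (per (4 * r) ω)) Set.univ (0, 4 * r - 0) (y, 4 * r - r) :=
    Conn.mono_set (Set.subset_univ _) h4
  have e2 : (y, 2 * (r : ℤ) - r) = (y, (r : ℤ)) := by congr 1; ring
  have e3 : ((0 : ℤ) + 0, (0 : ℤ) + 2 * r) = ((0 : ℤ), 2 * (r : ℤ) - 0) := by
    rw [Prod.mk.injEq]; constructor <;> ring
  have e4 : (y + 0, (r : ℤ) + 2 * r) = (y, 4 * (r : ℤ) - r) := by
    rw [Prod.mk.injEq]; constructor <;> ring
  rw [e2] at h2'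
  rw [e3, e4] at h3'
  have hall := ((h1'.trans h2'.symm).trans h3').trans h4'.symm
  refine wind_exclusion (N := 4 * r) (by omega) hW (0, 0) ?_
  have e5 : (((0, 0) : Vert).1, ((0, 0) : Vert).2 + ((4 * r : ℕ) : ℤ))
      = ((0 : ℤ), 4 * (r : ℤ) - 0) := by
    rw [Prod.mk.injEq, hN]; constructor <;> ring
  rw [e5]
  exact hall

end Pool.Agent.H89.Perc

end

section

/-!
# Consequence of the threshold inequality
-/

open MeasureTheory ProbabilityTheory unitInterval

namespace Pool.Agent.H89.Perc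

/-- Consequence of the threshold inequality. -/
theorem torus_threshold {r : ℕ} (hr : 1 ≤ r) {p : I} (hp : half ≤ p) (hp1 : (p : ℝ) < 1) :
    (arm half r / (8 * r)) ^ 4 * (arm (σ p) r / (8 * r)) ^ 4 ≤
      Real.exp (-2 * ((p : ℝ) - 1 / 2) * r /
        (5 * ∑ k ∈ Finset.range (4 * r), arm p k * arm half k)) := by
  set S : ℝ := ∑ k ∈ Finset.range (4 * r), arm p k * arm half k with hS
  have hr0 : (0 : ℝ) < r := by exact_mod_cast hr
  have hSpos : 0 < S := by
    have h0 : (0 : ℕ) ∈ Finset.range (4 * r) := Finset.mem_range.2 (by omega)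
    have h1 : arm p 0 * arm half 0 ≤ S :=
      Finset.single_le_sum (f := fun k => arm p k * arm half k)
        (fun k _ => mul_nonneg arm_nonneg arm_nonneg) h0
    rw [arm_zero, arm_zero] at h1
    linarith only [h1]
  have hhalf : ((half : I) : ℝ) = 1 / 2 := rfl
  have hcast : ((4 * r : ℕ) : ℝ) = 4 * r := by push_cast; ring
  -- the variance inequality
  have hvar : ∀ q : I, half ≤ q → q ≤ p →
      Pr q (Wind (4 * r)) * (1 - Pr q (Wind (4 * r))) ≤
        (5 * S / r) / 2 * ∑ e ∈ tEdges (4 * r), pivot q (Wind (4 * r)) e := by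
    intro q hq hqp
    refine (torus_var (N := 4 * r) (by omega) q).trans ?_
    have hσ : σ q ≤ half := by
      rw [← Subtype.coe_le_coe, coe_symm_eq, hhalf]
      have : ((half : I) : ℝ) ≤ q := hq
      rw [hhalf] at this
      linarith only [this]
    have hsum : ∑ k ∈ Finset.range (4 * r), arm q k * arm (σ q) k ≤ S :=
      Finset.sum_le_sum fun k _ => mul_le_mul (arm_mono_param k hqp) (arm_mono_param k hσ)
        arm_nonneg arm_nonneg
    have hpiv : 0 ≤ ∑ e ∈ tEdges (4 * r), pivot q (Wind (4 * r)) e := by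
      refine Finset.sum_nonneg fun e _ => ?_
      refine sub_nonneg.2 (Pr_mono fun ω hω => ?_)
      refine incr_wind (4 * r) _ _ (fun e' h' => ?_) hω
      by_cases he : e' = e
      · subst he; simp
      · rw [Function.update_of_ne he] at h' ⊢; exact h'
    refine mul_le_mul_of_nonneg_right ?_ hpiv
    rw [hcast]
    calc 10 / (4 * (r : ℝ)) * ∑ k ∈ Finset.range (4 * r), arm q k * arm (σ q) k
        ≤ 10 / (4 * (r : ℝ)) * S := mul_le_mul_of_nonneg_left hsum (by positivity)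
      _ = (5 * S / r) / 2 := by field_simp; norm_num
  have key := threshold (localOn_wind (N := 4 * r) (by omega)) (incr_wind (4 * r)) (p₀ := half)
    (p₁ := p) (by rw [hhalf]; norm_num) hp hp1 (δ := 5 * S / r) (by positivity) hvar
  have hl := wind_lower hr half
  have hu := wind_upper hr p
  have hprod : (arm half r / (8 * r)) ^ 4 * (arm (σ p) r / (8 * r)) ^ 4 ≤
      Pr half (Wind (4 * r)) * (1 - Pr p (Wind (4 * r))) :=
    mul_le_mul hl hu (by positivity) Pr_nonneg
  refine (hprod.trans key).trans (le_of_eq ?_)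
  congr 1
  rw [hhalf]
  field_simp

end Pool.Agent.H89.Perc

end

section

/-!
# Lower bound for the percolation probability
-/

open MeasureTheory ProbabilityTheory unitInterval Filter Topology

namespace Pool.Agent.H89.Perc

theorem theta_mono {p q : I} (h : p ≤ q) : theta p ≤ theta q :=
  le_of_tendsto_of_tendsto' (tendsto_arm p) (tendsto_arm q) fun r => arm_mono_param r h

theorem theta_half : theta half = 0 := by
  obtain ⟨C, c, hC, hc, h⟩ := arm_decay
  refine le_antisymm ?_ (theta_nonneg _)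
  have h1 : Tendsto (fun r : ℕ => C * (r : ℝ) ^ (-c)) atTop (𝓝 (C * 0)) :=
    ((tendsto_rpow_neg_atTop hc).comp tendsto_natCast_atTop_atTop).const_mul C
  rw [mul_zero] at h1
  refine le_of_tendsto_of_tendsto (tendsto_arm half) h1 ?_
  filter_upwards [eventually_ge_atTop 1] with r hr
  exact h r hr

theorem theta_of_le_half {p : I} (h : (p : ℝ) ≤ 1 / 2) : theta p = 0 := by
  refine le_antisymm ?_ (theta_nonneg _)
  rw [← theta_half]
  exact theta_mono h

theorem finalHyp : ∃ ce Cd cd : ℝ, 0 < ce ∧ 0 < Cd ∧ 0 < cd ∧ ∀ p : I, (1 / 2 : ℝ) < p →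
    (p : ℝ) ≤ 3 / 4 → FinalHyp ce Cd cd ((p : ℝ) - 1 / 2) (theta p) (fun k => arm p k)
      (fun k => arm half k) (fun k => arm (σ p) k) := by
  obtain ⟨c1, hc1, h1⟩ := armBox_lower
  obtain ⟨c2, hc2, h2⟩ := arm_ext
  obtain ⟨Cd, cd, hCd, hcd, h3⟩ := arm_decay
  refine ⟨min c1 c2, Cd, cd, lt_min hc1 hc2, hCd, hcd, ?_⟩
  intro p hp hp'
  have hhp : half ≤ p := Subtype.coe_le_coe.1 hp.le
  refine
    { ce0 := lt_min hc1 hc2
      Cd0 := hCd
      cd0 := hcd
      h0 := by linarith only [hp]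
      h1 := by linarith only [hp']
      a_anti := fun i j hij => arm_antitone hij
      a_le_one := fun _ => arm_le_one
      b_nonneg := fun _ => arm_nonneg
      b_le_a := fun r => arm_mono_param r hhp
      d_nonneg := fun _ => arm_nonneg
      d_le_one := fun _ => arm_le_one
      b_low := ?_
      a_ext := ?_
      b_ext := ?_
      b_dec := h3
      thr := ?_
      sl := fun s n hsn => simon_lieb (σ p) hsn
      sub := fun R M hR hM => arm_sub_le hR hM
      lim := tendsto_arm p }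
  · intro r hr
    have := h1 0 r hr (Nat.zero_le r)
    rw [ArmBox_zero] at this
    refine le_trans ?_ this
    have h0 : Real.sqrt (1 / r) = Real.sqrt (((0 : ℕ) + 1) / r) := by norm_num
    rw [← h0]
    exact mul_le_mul_of_nonneg_right (min_le_left _ _) (Real.sqrt_nonneg _)
  · intro k R hk hkR
    refine le_trans ?_ (h2 p hhp k R hk hkR)
    have : 0 ≤ Real.sqrt (k / R) * arm p k := mul_nonneg (Real.sqrt_nonneg _) arm_nonneg
    have h4 : min c1 c2 ≤ c2 := min_le_right _ _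
    nlinarith only [hp, hp', this, h4]
  · intro k R hk hkR
    refine le_trans ?_ (h2 half le_rfl k R hk hkR)
    have : 0 ≤ Real.sqrt (k / R) * arm half k := mul_nonneg (Real.sqrt_nonneg _) arm_nonneg
    have h4 : min c1 c2 ≤ c2 := min_le_right _ _
    nlinarith only [hp, hp', this, h4]
  · intro r hr
    exact torus_threshold hr hhp (by linarith only [hp, hp'])

/-- Main estimate: `θ(p) ≥ c (p - 1/2)^{1/2} / log (2 + 1 / (p - 1/2))`. -/
theorem theta_lower : ∃ c > (0 : ℝ), ∀ p : I, (1 / 2 : ℝ) < p →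
    c * Real.sqrt ((p : ℝ) - 1 / 2) / Real.log (2 + 1 / ((p : ℝ) - 1 / 2)) ≤ theta p := by
  obtain ⟨ce, Cd, cd, hce, hCd, hcd, H⟩ := finalHyp
  obtain ⟨c, hc, h⟩ := FinalHyp.final_core hce hCd hcd
  refine ⟨c / 8, by positivity, ?_⟩
  intro p hp
  set x : ℝ := (p : ℝ) - 1 / 2 with hx
  have hx0 : 0 < x := by rw [hx]; linarith only [hp]
  have hxh : x ≤ 1 / 2 := by have := p.2.2; rw [hx]; linarith only [this]
  have hL : 1 ≤ Real.log (2 + 1 / x) := by
    rw [Real.le_log_iff_exp_le (by positivity)]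
    have : 2 ≤ 1 / x := by rw [le_div_iff₀ hx0]; linarith only [hxh]
    have := Real.exp_one_lt_d9
    linarith
  have hs : 0 ≤ Real.sqrt x := Real.sqrt_nonneg x
  by_cases hp' : (p : ℝ) ≤ 3 / 4
  · have h1 := h _ _ _ _ _ (H p hp hp')
    refine le_trans ?_ h1
    rw [← hx]
    gcongr
    linarith only [hc]
  · push Not at hp'
    set q : I := ⟨3 / 4, by norm_num, by norm_num⟩ with hq
    have hqv : (q : ℝ) = 3 / 4 := rfl
    have h1 := h _ _ _ _ _ (H q (by rw [hqv]; norm_num) hqv.le)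
    have h2 : theta q ≤ theta p := theta_mono (Subtype.coe_le_coe.1 (by rw [hqv]; exact hp'.le))
    refine le_trans ?_ (h1.trans h2)
    rw [hqv]
    have h3 : Real.sqrt (3 / 4 - 1 / 2) = 1 / 2 := by
      rw [show (3 / 4 - 1 / 2 : ℝ) = (1 / 2) ^ 2 by norm_num]
      exact Real.sqrt_sq (by norm_num)
    have h4 : Real.log (2 + 1 / (3 / 4 - 1 / 2)) ≤ 2 := by
      rw [Real.log_le_iff_le_exp (by norm_num)]
      have := Real.add_one_le_exp (1 : ℝ)
      have h5 : Real.exp 2 = Real.exp 1 * Real.exp 1 := by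
        rw [← Real.exp_add]; norm_num
      rw [h5]
      have := Real.exp_one_gt_d9
      norm_num
      nlinarith
    have h5 : 0 < Real.log (2 + 1 / (3 / 4 - 1 / 2)) := Real.log_pos (by norm_num)
    rw [h3]
    have h6 : Real.sqrt x ≤ 1 := Real.sqrt_le_iff.2 ⟨by norm_num, by linarith only [hx0, hxh]⟩
    calc c / 8 * Real.sqrt x / Real.log (2 + 1 / x) ≤ c / 8 * 1 / 1 := by gcongr
      _ ≤ c * (1 / 2) / 2 := by linarith only [hc]
      _ ≤ c * (1 / 2) / Real.log (2 + 1 / (3 / 4 - 1 / 2)) := by gcongr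

end Pool.Agent.H89.Perc

end

section

/-! EXACT project, one-arm formula, pure algebra part (helper93). -/

namespace EX93

open Finset Polynomial

variable {R : Type*} [CommRing R]

end EX93

end

section

namespace EX93

open Finset Polynomial Matrix

section
variable {R : Type*} [CommRing R] {L : ℕ}

/-- the local factor in the new coordinates -/
def rr (x y : R) : Bool → Bool → R
  | true, true => (y - x) * gg x y * gg y x
  | false, false => (y - x) * gg x y * gg y x
  | true, false => gg y x ^ 3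
  | false, true => - gg x y ^ 3

lemma mixed_eq (x : Fin L → R) (s : Fin L → Bool) :
    (∏ i, if s i then ∏ l, gg (x l) (x i) else ∏ l, gg (x i) (x l)) *
        ∏ i, ∏ j ∈ Ioi i, ((if s j then x j else 1) * (if s i then 1 else 1 - x i)
          - (if s i then x i else 1) * (if s j then 1 else 1 - x j))
      = (∏ i, gg (x i) (x i)) * ∏ i, ∏ j ∈ Ioi i, rr (x i) (x j) (s i) (s j) := by
  have h1 : (∏ i, if s i then ∏ l, gg (x l) (x i) else ∏ l, gg (x i) (x l))
      = ∏ i, ∏ l, (if s i then gg (x l) (x i) else gg (x i) (x l)) := by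
    refine Finset.prod_congr rfl fun i _ => ?_
    split_ifs <;> rfl
  rw [h1, prod_offdiag, mul_assoc, ← Finset.prod_mul_distrib]
  have h2 : (∏ i, if s i then gg (x i) (x i) else gg (x i) (x i)) = ∏ i, gg (x i) (x i) := by
    refine Finset.prod_congr rfl fun i _ => ?_
    split_ifs <;> rfl
  rw [h2]
  congr 1
  refine Finset.prod_congr rfl fun i _ => ?_
  rw [← Finset.prod_mul_distrib]
  refine Finset.prod_congr rfl fun j _ => ?_
  cases s i <;> cases s j <;> simp [rr, gg] <;> ring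

lemma det_WW (ω : R) (x : Fin L → R) :
    (WW ω x).det = (∏ i, gg (x i) (x i)) *
      ∑ s : Fin L → Bool, wt ω s * ∏ i, ∏ j ∈ Ioi i, rr (x i) (x j) (s i) (s j) := by
  rw [det_WW_expand, Finset.mul_sum]
  refine Finset.sum_congr rfl fun s _ => ?_
  rw [det_mixed]
  have h1 : (∏ i, if s i then ω * ∏ l, gg (x l) (x i) else ∏ l, gg (x i) (x l))
      = wt ω s * ∏ i, if s i then ∏ l, gg (x l) (x i) else ∏ l, gg (x i) (x l) := by
    unfold wt
    rw [← Finset.prod_mul_distrib]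
    refine Finset.prod_congr rfl fun i _ => ?_
    split_ifs <;> simp
  rw [h1, mul_assoc, mixed_eq]
  ring

end

section
variable {L : ℕ}

/-- local comparison between the multiplicative and the Moebius coordinates -/
lemma hh_eq_rr (q : ℂ) (hq : q ^ 2 + q + 1 = 0) (x y : ℂ) (hx : x + q ≠ 0) (hy : y + q ≠ 0)
    (a b : Bool) :
    hh q a b ((q ^ 2 * x + q) / (x + q)) ((q ^ 2 * y + q) / (y + q)) * ((x + q) * (y + q)) ^ 3
      = ((1 - q) * (3 * q)) * rr x y a b := by
  have q3 : q ^ 3 = 1 := by linear_combination (q - 1) * hq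
  have e1 : ((q ^ 2 * y + q) / (y + q) - (q ^ 2 * x + q) / (x + q)) * ((x + q) * (y + q))
      = (1 - q) * (y - x) := by
    field_simp
    linear_combination (y - x) * q3
  have e2 : ((q ^ 2 * x + q) / (x + q) - q * ((q ^ 2 * y + q) / (y + q))) * ((x + q) * (y + q))
      = (q ^ 2 - 1) * gg y x := by
    unfold gg
    field_simp
    linear_combination (x - x * y - q * y - 1) * q3
  have e3 : ((q ^ 2 * y + q) / (y + q) - q * ((q ^ 2 * x + q) / (x + q))) * ((x + q) * (y + q))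
      = (q ^ 2 - 1) * gg x y := by
    unfold gg
    field_simp
    linear_combination (y - x * y - q * x - 1) * q3
  have e4 : ∀ u v : ℂ, u ^ 3 - v ^ 3 = (u - v) * (u - q * v) * (-q ^ 2) * (v - q * u) := by
    intro u v
    linear_combination ((u - v) * u * v) * hq + ((u - v) * (-(u ^ 2 + v ^ 2) + u * v * q)) * q3
  set u := (q ^ 2 * x + q) / (x + q) with hu
  set v := (q ^ 2 * y + q) / (y + q) with hv
  set t := (x + q) * (y + q) with ht
  have e5 : (v ^ 3 - u ^ 3) * t ^ 3 = ((1 - q) * (3 * q)) * ((y - x) * gg x y * gg y x) := by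
    have : (v ^ 3 - u ^ 3) * t ^ 3
        = (-q ^ 2) * ((v - u) * t) * ((v - q * u) * t) * ((u - q * v) * t) := by
      rw [e4 v u]; ring
    rw [this, e1, e2, e3]
    have h9 : (-q ^ 2) * (q ^ 2 - 1) ^ 2 = 3 * q := by
      linear_combination (-(q ^ 4) + q ^ 3 + 2 * q ^ 2 - 3 * q) * hq
    linear_combination ((1 - q) * (y - x) * gg x y * gg y x) * h9
  have e6 : (q ^ 2 - 1) ^ 3 = -((1 - q) * (3 * q)) := by
    linear_combination (q ^ 4 - q ^ 3 - 3 * q ^ 2 + 4 * q - 1) * hq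
  cases a <;> cases b <;> simp only [hh, rr]
  · exact e5
  · have : (v - q * u) ^ 3 * t ^ 3 = ((v - q * u) * t) ^ 3 := by ring
    rw [this, e3]
    linear_combination (gg x y) ^ 3 * e6
  · have : -(u - q * v) ^ 3 * t ^ 3 = -((u - q * v) * t) ^ 3 := by ring
    rw [this, e2]
    linear_combination -(gg y x) ^ 3 * e6
  · exact e5

end

end EX93

end

section

namespace EX93

open Finset Polynomial Matrix

section
variable {R : Type*} [CommRing R] {L : ℕ}

end

end EX93

end

section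

namespace EX93

open Finset Polynomial

variable {R : Type*} [CommRing R]

end EX93

end

section

namespace EX93

open Finset Polynomial

section

end

section
variable {m : ℕ}

end

end EX93

end

section

namespace EX93

open Finset Polynomial

section
variable {m : ℕ}

end

end EX93

end

section

namespace EX93

open Finset Polynomial

end EX93

end

section

namespace EX93

open Finset Polynomial Matrix Filter Topology

lemma QQ_zz (q : ℂ) (hq : q ^ 2 + q + 1 = 0) (ω : ℂ) {L : ℕ} (x : Fin L → ℂ)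
    (hx : ∀ i, x i + q ≠ 0) :
    QQ q ω L (zz q x) * V2 q x ^ 3 * ∏ i, gg (x i) (x i)
      = (∏ i : Fin L, ∏ _j ∈ Ioi i, ((1 - q) * (3 * q))) * (WW ω x).det := by
  rw [det_WW]
  have h1 : QQ q ω L (zz q x) * V2 q x ^ 3
      = (∏ i : Fin L, ∏ _j ∈ Ioi i, ((1 - q) * (3 * q))) *
        ∑ s : Fin L → Bool, wt ω s * ∏ i, ∏ j ∈ Ioi i, rr (x i) (x j) (s i) (s j) := by
    unfold QQ
    rw [Finset.sum_mul, Finset.mul_sum]
    refine Finset.sum_congr rfl fun s _ => ?_
    have h2 : pp q s (zz q x) * V2 q x ^ 3 = (∏ i : Fin L, ∏ _j ∈ Ioi i, ((1 - q) * (3 * q))) *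
        ∏ i, ∏ j ∈ Ioi i, rr (x i) (x j) (s i) (s j) := by
      unfold pp V2
      rw [← Finset.prod_pow, ← Finset.prod_mul_distrib, ← Finset.prod_mul_distrib]
      refine Finset.prod_congr rfl fun i _ => ?_
      rw [← Finset.prod_pow, ← Finset.prod_mul_distrib, ← Finset.prod_mul_distrib]
      refine Finset.prod_congr rfl fun j _ => ?_
      exact hh_eq_rr q hq (x i) (x j) (hx i) (hx j) (s i) (s j)
    rw [mul_assoc, h2]; ring
  rw [h1]; ring

/-- the evaluation in generic Moebius coordinates -/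
lemma generic_eval (q ω κ : ℂ) (hq : q ^ 2 + q + 1 = 0) (n : ℕ)
    (G : MvPolynomial (Fin (2 * n)) ℂ)
    (hG : ∀ z, ω ^ n * MvPolynomial.eval z G * VV (2 * n) z = κ ^ n * QQ q ω (2 * n) z)
    (x : Fin (2 * n) → ℂ) (hx : ∀ i, x i + q ≠ 0) (hinj : Function.Injective x) :
    ω ^ n * MvPolynomial.eval (zz q x) G * V2 q x ^ 2 * ∏ i, gg (x i) (x i)
      = κ ^ n * (∏ i : Fin (2 * n), ∏ _j ∈ Ioi i, (3 * q)) * (NN ω x).det := by
  have h1 := hG (zz q x)
  have h2 := QQ_zz q hq ω x hx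
  have h3 := VV_zz q hq x hx
  rw [det_WW_eq] at h2
  have hV := VV_ne_zero x hinj
  have hq1 : (1 - q : ℂ) ≠ 0 := by
    intro h
    have : q = 1 := by linear_combination -h
    rw [this] at hq
    norm_num at hq
  have hC : (∏ i : Fin (2 * n), ∏ _j ∈ Ioi i, (1 - q)) ≠ 0 :=
    Finset.prod_ne_zero_iff.mpr fun i _ => Finset.prod_ne_zero_iff.mpr fun j _ => hq1
  have h4 : (∏ i : Fin (2 * n), ∏ _j ∈ Ioi i, ((1 - q) * (3 * q)))
      = (∏ i : Fin (2 * n), ∏ _j ∈ Ioi i, (1 - q)) *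
        ∏ i : Fin (2 * n), ∏ _j ∈ Ioi i, (3 * q) := by
    simp only [Finset.prod_mul_distrib]
  rw [h4] at h2
  apply mul_left_cancel₀ (mul_ne_zero hC hV)
  set A := ∏ i : Fin (2 * n), ∏ _j ∈ Ioi i, (1 - q)
  set B := ∏ i : Fin (2 * n), ∏ _j ∈ Ioi i, (3 * q)
  set V := VV (2 * n) x
  set E := MvPolynomial.eval (zz q x) G
  linear_combination (-(ω ^ n) * E * V2 q x ^ 2 * (∏ i, gg (x i) (x i))) * h3
    + (V2 q x ^ 3 * (∏ i, gg (x i) (x i))) * h1 + κ ^ n * h2

theorem eval_one (q ω κ τ : ℂ) (hq : q ^ 2 + q + 1 = 0)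
    (hτ : ω * (τ + 2) = (1 + ω) ^ 2)
    (G : (n : ℕ) → MvPolynomial (Fin (2 * n)) ℂ)
    (h0 : ∀ z, MvPolynomial.eval z (G 0) = 1)
    (hsym : ∀ n (σ : Equiv.Perm (Fin (2 * n))) (z : Fin (2 * n) → ℂ),
      MvPolynomial.eval (z ∘ σ) (G n) = MvPolynomial.eval z (G n))
    (hwheel : ∀ n (w : ℂ) (z : Fin (2 * n) → ℂ),
      MvPolynomial.eval (Fin.cons (q ^ 2 * w) (Fin.cons w z : Fin (2 * n + 1) → ℂ)
        : Fin (2 * n + 2) → ℂ) (G (n + 1))
      = 3 * κ * q ^ 2 * w ^ 2 * (∏ j, (z j - q * w) ^ 4) * MvPolynomial.eval z (G n))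
    (htop : ∀ n (z : Fin (2 * n) → ℂ), ∃ p : ℂ[X][X],
      p.natDegree ≤ 2 * (2 * n + 1) ∧ (p.coeff (2 * (2 * n + 1))).natDegree ≤ 2 * (2 * n) ∧
      (p.coeff (2 * (2 * n + 1))).coeff (2 * (2 * n)) = κ * (τ + 2) * MvPolynomial.eval z (G n) ∧
      ∀ x y : ℂ, (p.eval (C x)).eval y = MvPolynomial.eval
        (Fin.cons x (Fin.cons y z : Fin (2 * n + 1) → ℂ) : Fin (2 * n + 2) → ℂ) (G (n + 1))) (n : ℕ) :
    ω ^ n * MvPolynomial.eval (fun _ => 1) (G n)
      = κ ^ n * 3 ^ (n * (2 * n - 1)) *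
        (ω • (1 : Matrix (Fin (2 * n)) (Fin (2 * n)) ℂ) + pasc ℂ (2 * n)).det := by
  have hmain := main_identity q ω κ τ hq hτ G h0 hsym hwheel htop n
  have q3 : q ^ 3 = 1 := by linear_combination (q - 1) * hq
  have hq0 : q ≠ 0 := by
    rintro rfl
    norm_num at q3
  set x : ℂ → Fin (2 * n) → ℂ := fun t i => t * ((i : ℕ) : ℂ) with hx
  -- the two sides as functions of `t`
  set F1 : ℂ → ℂ := fun t => ω ^ n * MvPolynomial.eval (zz q (x t)) (G n) * V2 q (x t) ^ 2 *
    ∏ i, gg (x t i) (x t i) with hF1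
  set F2 : ℂ → ℂ := fun t => κ ^ n * (∏ i : Fin (2 * n), ∏ _j ∈ Ioi i, (3 * q)) *
    (NN ω (x t)).det with hF2
  have hxc : ∀ i, Continuous fun t => x t i := fun i => by
    simp only [hx]; fun_prop
  have hx0 : ∀ i, x 0 i = 0 := fun i => by simp [hx]
  have c2 : ContinuousAt F2 0 := by
    have := cont_det_NN ω (L := 2 * n)
    exact (continuous_const.mul this).continuousAt
  have c1 : ContinuousAt F1 0 := by
    have ca : ContinuousAt (fun t => MvPolynomial.eval (zz q (x t)) (G n)) 0 := by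
      have hz : ContinuousAt (fun t => zz q (x t)) 0 := by
        rw [continuousAt_pi]
        intro i
        unfold zz
        apply ContinuousAt.div
        · exact ((continuous_const.mul (hxc i)).add continuous_const).continuousAt
        · exact ((hxc i).add continuous_const).continuousAt
        · rw [hx0, zero_add]; exact hq0
      exact ContinuousAt.comp (f := fun t => zz q (x t))
        (g := fun z => MvPolynomial.eval z (G n)) (MvPolynomial.continuous_eval (G n)).continuousAt hz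
    have cb : Continuous (fun t => V2 q (x t)) := by
      unfold V2
      refine continuous_finsetProd _ fun i _ => continuous_finsetProd _ fun j _ => ?_
      exact ((hxc i).add continuous_const).mul ((hxc j).add continuous_const)
    have cc : Continuous (fun t => ∏ i, gg (x t i) (x t i)) := by
      refine continuous_finsetProd _ fun i _ => ?_
      unfold gg
      exact (continuous_const.sub (hxc i)).add ((hxc i).mul (hxc i))
    exact ((continuousAt_const.mul ca).mul (cb.pow 2).continuousAt).mul cc.continuousAt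
  have heq : F1 =ᶠ[𝓝[≠] 0] F2 := by
    have hne : ∀ i, ∀ᶠ t in 𝓝[≠] (0 : ℂ), x t i + q ≠ 0 := by
      intro i
      have : ContinuousAt (fun t => x t i + q) 0 := ((hxc i).add continuous_const).continuousAt
      have h1 : ∀ᶠ t in 𝓝 (0 : ℂ), x t i + q ≠ 0 := by
        apply this.eventually_ne
        rw [hx0, zero_add]; exact hq0
      exact h1.filter_mono nhdsWithin_le_nhds
    have hne' : ∀ᶠ t in 𝓝[≠] (0 : ℂ), ∀ i, x t i + q ≠ 0 := Filter.eventually_all.mpr hne
    filter_upwards [hne', self_mem_nhdsWithin] with t ht ht0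
    have hinj : Function.Injective (x t) := by
      intro i j hij
      simp only [hx] at hij
      have := mul_left_cancel₀ ht0 hij
      exact Fin.ext (by exact_mod_cast this)
    exact generic_eval q ω κ hq n (G n) hmain (x t) ht hinj
  have t1 : Tendsto F1 (𝓝[≠] 0) (𝓝 (F1 0)) := c1.tendsto.mono_left nhdsWithin_le_nhds
  have t2 : Tendsto F2 (𝓝[≠] 0) (𝓝 (F2 0)) := c2.tendsto.mono_left nhdsWithin_le_nhds
  have hlim : F1 0 = F2 0 := tendsto_nhds_unique t1 (t2.congr' heq.symm)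
  -- evaluate at zero
  have hx0' : x 0 = fun _ => 0 := funext hx0
  simp only [hF1, hF2] at hlim
  rw [hx0'] at hlim
  rw [NN_zero] at hlim
  have hzz : zz q (fun _ : Fin (2 * n) => (0 : ℂ)) = fun _ => 1 := by
    funext i
    simp [zz, hq0]
  have hV2 : V2 q (fun _ : Fin (2 * n) => (0 : ℂ)) = q ^ (2 * (n * (2 * n - 1))) := by
    unfold V2
    simp only [zero_add]
    rw [pairs_const, ← sq, ← pow_mul]
    congr 2
    rw [show 2 * n * (2 * n - 1) = 2 * (n * (2 * n - 1)) by ring]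
    omega
  have hgg : (∏ _i : Fin (2 * n), gg (0 : ℂ) 0) = 1 := by simp [gg]
  have hpairs : (2 * n) * (2 * n - 1) / 2 = n * (2 * n - 1) := by
    rw [show 2 * n * (2 * n - 1) = 2 * (n * (2 * n - 1)) by ring]
    omega
  rw [hzz, hV2, hgg, pairs_const, hpairs, mul_one, mul_pow] at hlim
  set N := n * (2 * n - 1)
  have hqN : q ^ N ≠ 0 := pow_ne_zero _ hq0
  have h5 : (q ^ (2 * N)) ^ 2 = q ^ N := by
    have : (q ^ (2 * N)) ^ 2 = (q ^ 3) ^ N * q ^ N := by
      rw [← pow_mul, ← pow_mul, ← pow_add]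
      congr 1
      ring
    rw [this, q3, one_pow, one_mul]
  rw [h5] at hlim
  apply mul_left_cancel₀ hqN
  linear_combination hlim

end EX93

end

section

namespace EX93

open Finset Polynomial Matrix

end EX93

end

section

/-! EXACT: the determinant `det (1 - P + P ^ 2)` of the Pascal matrix is the square of the number of
alternating sign matrices (connection with the leg sums of helper96/helper34). -/

namespace EX93

open Finset Polynomial Matrix Filter Topology
open Pool.Agent.H34.Hom Pool.Agent.H96.EX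

lemma HV_eq_det {q : ℂ} (hq : q ^ 2 + q + 1 = 0) (M : ℕ) :
    HV q (q ^ 2) q M [] = (q ^ 2) ^ M * 3 ^ (M * (M - 1) / 2) *
      (q ^ 2 • (1 : Matrix (Fin M) (Fin M) ℂ) + pasc ℂ M).det := by
  have q3 : q ^ 3 = 1 := by linear_combination (q - 1) * hq
  have hq0 : q ≠ 0 := by
    rintro rfl
    norm_num at q3
  have hq1 : (1 - q : ℂ) ≠ 0 := by
    intro h
    have : q = 1 := by linear_combination -h
    rw [this] at hq
    norm_num at hq
  set x : ℝ → ℕ → ℂ := fun t j => (t : ℂ) * j with hx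
  have hxc : ∀ j, Continuous fun t => x t j := fun j => by
    simp only [hx]; fun_prop
  have hx0 : ∀ j, x 0 j = 0 := fun j => by simp [hx]
  have hz : ∀ j, Tendsto (fun t => zp q t j) (𝓝[>] 0) (𝓝 1) := by
    intro j
    have h1 : ContinuousAt (fun t => zp q t j) 0 := by
      unfold zp
      apply ContinuousAt.div
      · exact ((continuous_const.mul (hxc j)).add continuous_const).continuousAt
      · exact ((hxc j).add continuous_const).continuousAt
      · simp [hq0]
    have h2 := h1.tendsto.mono_left (nhdsWithin_le_nhds (s := Set.Ioi 0))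
    have h3 : zp q 0 j = 1 := by simp [zp, hq0]
    rwa [h3] at h2
  have hne : ∀ j, ∀ᶠ t in 𝓝[>] (0 : ℝ), x t j + q ≠ 0 := by
    intro j
    have : ContinuousAt (fun t => x t j + q) 0 := ((hxc j).add continuous_const).continuousAt
    have h1 : ∀ᶠ t in 𝓝 (0 : ℝ), x t j + q ≠ 0 := by
      apply this.eventually_ne
      rw [hx0, zero_add]; exact hq0
    exact h1.filter_mono nhdsWithin_le_nhds
  have hgn : ∀ j k, ∀ᶠ t in 𝓝[>] (0 : ℝ), EX93.gg (x t j) (x t k) ≠ 0 := by
    intro j k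
    have : ContinuousAt (fun t => EX93.gg (x t j) (x t k)) 0 := by
      unfold EX93.gg
      exact ((continuous_const.sub (hxc k)).add ((hxc j).mul (hxc k))).continuousAt
    have h1 : ∀ᶠ t in 𝓝 (0 : ℝ), EX93.gg (x t j) (x t k) ≠ 0 := by
      apply this.eventually_ne
      rw [hx0, hx0]; simp [EX93.gg]
    exact h1.filter_mono nhdsWithin_le_nhds
  have hneM : ∀ᶠ t in 𝓝[>] (0 : ℝ), ∀ j ∈ range M, x t j + q ≠ 0 :=
    (Filter.eventually_all_finset (range M)).mpr fun j _ => hne j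
  have hgnM : ∀ᶠ t in 𝓝[>] (0 : ℝ), ∀ j ∈ range M, ∀ k ∈ range M, EX93.gg (x t j) (x t k) ≠ 0 :=
    (Filter.eventually_all_finset (range M)).mpr fun j _ =>
      (Filter.eventually_all_finset (range M)).mpr fun k _ => hgn j k
  have hgen : ∀ᶠ t in 𝓝[>] (0 : ℝ), Gen M (zp q t) := by
    filter_upwards [hneM, hgnM, self_mem_nhdsWithin] with t h1 h2 h3
    intro j hj k hk hjk h4
    have h5 := hh_eq_rr q hq (x t k) (x t j) (h1 k (mem_range.mpr hk)) (h1 j (mem_range.mpr hj))
      true true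
    have h6 : hh q true true ((q ^ 2 * x t k + q) / (x t k + q)) ((q ^ 2 * x t j + q) / (x t j + q))
        = 0 := by
      simp only [hh]
      rw [sub_eq_zero]
      exact h4
    rw [h6, zero_mul] at h5
    have h7 : ((1 - q) * (3 * q)) * EX93.rr (x t k) (x t j) true true ≠ 0 := by
      simp only [EX93.rr]
      refine mul_ne_zero (mul_ne_zero hq1 (mul_ne_zero (by norm_num) hq0))
        (mul_ne_zero (mul_ne_zero ?_ (h2 k (mem_range.mpr hk) j (mem_range.mpr hj)))
          (h2 j (mem_range.mpr hj) k (mem_range.mpr hk)))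
      simp only [hx]
      have ht : (t : ℂ) ≠ 0 := by exact_mod_cast (ne_of_gt h3)
      rw [← mul_sub]
      refine mul_ne_zero ht (sub_ne_zero.mpr ?_)
      exact_mod_cast hjk
    exact h7 h5.symm
  have hlim := tendsto_HV' (κ := Empty) (q ^ 2) q hq M [] (F := 𝓝[>] (0 : ℝ)) (fun _ _ => 0)
    (fun _ => 0) (fun a => a.elim) (zp q) hz hgen
  simp only [List.map_nil] at hlim
  -- the identity for small `t`
  have hid : ∀ᶠ t in 𝓝[>] (0 : ℝ),
      SS q (q ^ 2) q M [] (zp q t) * V2 q (fun i : Fin M => x t i) ^ 2 *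
        ∏ i : Fin M, EX93.gg (x t i) (x t i) =
      (q ^ 2) ^ M * (∏ i : Fin M, ∏ _j ∈ Ioi i, (3 * q)) * (NN (q ^ 2) (fun i : Fin M => x t i)).det := by
    filter_upwards [hneM, hgen, self_mem_nhdsWithin] with t h1 h2 h3
    have ht : (t : ℂ) ≠ 0 := by exact_mod_cast (ne_of_gt h3)
    set xx : Fin M → ℂ := fun i => x t i with hxx
    have hxx1 : ∀ i, xx i + q ≠ 0 := fun i => h1 i (mem_range.mpr i.2)
    have hinj : Function.Injective xx := by
      intro i j hij
      simp only [hxx, hx] at hij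
      have := mul_left_cancel₀ ht hij
      exact Fin.ext (by exact_mod_cast this)
    have e1 := QQ_zz q hq (q ^ 2) xx hxx1
    have e2 := VV_zz q hq xx hxx1
    rw [det_WW_eq] at e1
    have e3 := SG_eq_QQ hq M (zp q t) h2
    have e4 : zz q xx = fun i : Fin M => zp q t i := by
      funext i; rfl
    rw [e4] at e1 e2
    have e5 : VV M (fun i : Fin M => zp q t i) = VM M (zp q t) := by
      unfold VV VM
      exact pairs_pp M (fun j k => zp q t k - zp q t j)
    rw [V3_eq, ← e5] at e3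
    have e6 : (∏ i : Fin M, ∏ _j ∈ Ioi i, ((1 - q) * (3 * q)))
        = (∏ i : Fin M, ∏ _j ∈ Ioi i, (1 - q)) * ∏ i : Fin M, ∏ _j ∈ Ioi i, (3 * q) := by
      simp only [Finset.prod_mul_distrib]
    rw [e6] at e1
    have hV := VV_ne_zero xx hinj
    have hC : (∏ i : Fin M, ∏ _j ∈ Ioi i, (1 - q)) ≠ 0 :=
      Finset.prod_ne_zero_iff.mpr fun i _ => Finset.prod_ne_zero_iff.mpr fun j _ => hq1
    apply mul_left_cancel₀ (mul_ne_zero hC hV)
    unfold SS
    set Vz := VV M (fun i : Fin M => zp q t i)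
    set PP := PM M (zp q t)
    set S := SG q (q ^ 2) q (range M) [] (zp q t)
    set B := ∏ i : Fin M, ∏ _j ∈ Ioi i, (3 * q)
    linear_combination (-(PP * S) * V2 q xx ^ 2 * (∏ i, EX93.gg (xx i) (xx i))) * e2
      + (V2 q xx ^ 3 * (∏ i, EX93.gg (xx i) (xx i))) * e3 + (q ^ 2) ^ M * e1
  -- limits of both sides
  have cV : Tendsto (fun t : ℝ => V2 q (fun i : Fin M => x t i)) (𝓝[>] 0)
      (𝓝 (V2 q (fun i : Fin M => x 0 i))) := by
    have : Continuous (fun t : ℝ => V2 q (fun i : Fin M => x t i)) := by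
      unfold V2
      refine continuous_finsetProd _ fun i _ => continuous_finsetProd _ fun j _ => ?_
      exact ((hxc i).add continuous_const).mul ((hxc j).add continuous_const)
    exact (this.tendsto 0).mono_left nhdsWithin_le_nhds
  have cG : Tendsto (fun t : ℝ => ∏ i : Fin M, EX93.gg (x t i) (x t i)) (𝓝[>] 0)
      (𝓝 (∏ i : Fin M, EX93.gg (x 0 i) (x 0 i))) := by
    have : Continuous (fun t : ℝ => ∏ i : Fin M, EX93.gg (x t i) (x t i)) := by
      refine continuous_finsetProd _ fun i _ => ?_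
      unfold EX93.gg
      exact (continuous_const.sub (hxc i)).add ((hxc i).mul (hxc i))
    exact (this.tendsto 0).mono_left nhdsWithin_le_nhds
  have cN : Tendsto (fun t : ℝ => (NN (q ^ 2) (fun i : Fin M => x t i)).det) (𝓝[>] 0)
      (𝓝 (NN (q ^ 2) (fun i : Fin M => x 0 i)).det) := by
    have h1 := cont_det_NN (q ^ 2) (L := M)
    have h2 : Continuous (fun t : ℝ => (NN (q ^ 2) (fun i : Fin M => x t i)).det) :=
      h1.comp Complex.continuous_ofReal
    exact (h2.tendsto 0).mono_left nhdsWithin_le_nhds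
  have l1 := (hlim.mul (cV.pow 2)).mul cG
  have l2 := cN.const_mul ((q ^ 2) ^ M * (∏ i : Fin M, ∏ _j ∈ Ioi i, (3 * q)))
  have hfin := tendsto_nhds_unique l1 (l2.congr' (hid.mono fun t ht => ht.symm))
  have hxz : (fun i : Fin M => x 0 (i : ℕ)) = fun _ => 0 := funext fun i => hx0 i
  have hgg : (∏ i : Fin M, EX93.gg (x 0 i) (x 0 i)) = 1 := by
    refine Finset.prod_eq_one fun i _ => ?_
    rw [hx0]; simp [EX93.gg]
  have hV2 : V2 q (fun _ : Fin M => (0 : ℂ)) = (q ^ 2) ^ (M * (M - 1) / 2) := by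
    unfold V2
    simp only [zero_add]
    rw [pairs_const, ← sq]
  rw [hxz, hgg, hV2, NN_zero, pairs_const, mul_one, mul_pow] at hfin
  set N := M * (M - 1) / 2
  have hqN : q ^ N ≠ 0 := pow_ne_zero _ hq0
  have h5 : ((q ^ 2) ^ N) ^ 2 = q ^ N := by
    have : ((q ^ 2) ^ N) ^ 2 = (q ^ 3) ^ N * q ^ N := by
      rw [← pow_mul, ← pow_mul, ← pow_mul, ← pow_add]
      congr 1
      ring
    rw [this, q3, one_pow, one_mul]
  rw [h5] at hfin
  apply mul_left_cancel₀ hqN
  linear_combination hfin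

lemma det_omega_asm {q : ℂ} (hq : q ^ 2 + q + 1 = 0) (M : ℕ) :
    (q ^ 2 • (1 : Matrix (Fin M) (Fin M) ℂ) + pasc ℂ M).det = (-q) ^ M * ((asm M : ℝ) : ℂ) := by
  have q3 : q ^ 3 = 1 := by linear_combination (q - 1) * hq
  have h1 := HV_eq_det hq M
  rw [zero_leg_value hq M] at h1
  have h3 : (3 : ℂ) ^ (M * (M - 1) / 2) ≠ 0 := pow_ne_zero _ (by norm_num)
  have h4 : (-1 : ℂ) ^ M * ((asm M : ℝ) : ℂ) =
      (q ^ 2) ^ M * (q ^ 2 • (1 : Matrix (Fin M) (Fin M) ℂ) + pasc ℂ M).det := by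
    apply mul_left_cancel₀ h3
    linear_combination h1
  have h5 : q ^ M * (q ^ 2) ^ M = 1 := by
    rw [← mul_pow, ← pow_succ', q3, one_pow]
  rw [neg_pow]
  calc (q ^ 2 • (1 : Matrix (Fin M) (Fin M) ℂ) + pasc ℂ M).det
      = q ^ M * ((q ^ 2) ^ M * (q ^ 2 • (1 : Matrix (Fin M) (Fin M) ℂ) + pasc ℂ M).det) := by
        rw [← mul_assoc, h5, one_mul]
    _ = _ := by rw [← h4]; ring

/-- **`det (1 - P + P ^ 2) = A(M) ^ 2`** for the symmetric Pascal matrix `P` of size `M`. -/
theorem det_pasc_neg_one (M : ℕ) :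
    (1 - pasc ℝ M + pasc ℝ M ^ 2).det = asm M ^ 2 := by
  obtain ⟨q, hq⟩ : ∃ q : ℂ, q ^ 2 + q + 1 = 0 := by
    obtain ⟨ω, h0, h1, -, -⟩ := exists_omega (-1)
    exact ⟨ω, by linear_combination -h1⟩
  have q3 : q ^ 3 = 1 := by linear_combination (q - 1) * hq
  have hq' : (q ^ 2) ^ 2 + q ^ 2 + 1 = 0 := by linear_combination hq + q * q3
  have h1 := det_omega_asm hq M
  have h2 := det_omega_asm hq' M
  have hq4 : (q ^ 2) ^ 2 = q := by linear_combination q * q3
  rw [hq4] at h2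
  have hq0 : q ≠ 0 := by
    rintro rfl
    norm_num at q3
  have hinv : q⁻¹ = q ^ 2 := by
    field_simp
    exact q3.symm
  have h3 := det_factor q (-1) hq0 (by rw [hinv]; linear_combination hq) (pasc ℂ M)
  rw [hinv, h1, h2] at h3
  have h4 := det_pasc_real M (-1)
  have h5 : (1 + ((-1 : ℝ) : ℂ) • pasc ℂ M + pasc ℂ M ^ 2).det = ((asm M ^ 2 : ℝ) : ℂ) := by
    have e0 : (((-1 : ℝ) : ℝ) : ℂ) = -1 := by push_cast; ring
    rw [e0, ← h3, neg_pow, neg_pow q]
    have e1 : q ^ M * (q ^ 2) ^ M = 1 := by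
      rw [← mul_pow, ← pow_succ', q3, one_pow]
    have e2 : (-1 : ℂ) ^ M * (-1) ^ M = 1 := by
      rw [← mul_pow]; norm_num
    push_cast
    linear_combination (((asm M : ℝ) : ℂ) ^ 2 * ((-1) ^ M * (-1) ^ M)) * e1 + ((asm M : ℝ) : ℂ) ^ 2 * e2
  rw [h5] at h4
  have h6 : (1 + (-1 : ℝ) • pasc ℝ M + pasc ℝ M ^ 2) = 1 - pasc ℝ M + pasc ℝ M ^ 2 := by
    rw [neg_one_smul, ← sub_eq_add_neg]
  rw [h6] at h4
  exact_mod_cast h4.symm

end EX93

end

section

/-!
# Project EXACT, one-arm formula: pushforwards and bilinear forms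
-/

set_option autoImplicit false

open Finset

namespace Pool.Agent.H15.Exact

open H56.EX
open scoped Classical

section push

variable {α β γ : Type} [Fintype α] [Fintype β] [Fintype γ]

end push

section pat

variable {L : ℕ}

theorem rot_ins (i : ℤ) (P : Pat L) : rot (ins i P) = ins (i + 1) (rot P) := by
  have hL : 1 ≤ L := le_trans (by norm_num) P.two_le
  apply Pat.ext
  funext x
  rcases pos_cases hL (i + 1) x with h | h | ⟨y, rfl⟩
  · rw [ins_i (i + 1) _ h, rot_m, ins_i i P]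
    · ring
    · have := Cg.sub 1 h
      simpa using this
  · rw [ins_succ (i + 1) _ h, rot_m, ins_succ i P]
    · ring
    · have := Cg.sub 1 h
      simpa using this
  · have e1 : ∀ y, phi L (i + 1) y = phi L i (y - 1) + 1 := by
      intro y
      unfold phi
      rw [show y - (i + 1) = y - 1 - i by ring]
      ring
    rw [ins_phi, rot_m, rot_m, e1, e1, add_sub_cancel_right, ins_phi, add_sub_cancel_right]

theorem unrot_ins (P : Pat L) : unrot (ins 0 P) = ins (-1) (unrot P) := by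
  have h := rot_ins (-1) (unrot P)
  rw [rot_unrot] at h
  have h2 := congrArg unrot h
  rw [unrot_rot] at h2
  rw [h2]
  norm_num

variable {τ : ℂ} {W : ∀ L : ℕ, Pat L → Pat L → ℂ}

theorem bf_rI_i0 (hW : FormProps τ W) (u v : Pat L → ℂ) :
    bf (W (L + 2)) (rI (L + 2) (i0 L u)) (rI (L + 2) (i0 L v)) = τ * bf (W L) u v := by
  unfold i0 rI
  rw [push_push, push_push, bf_push_left, bf_push_right, bf_apply, bf_apply, mul_sum]
  refine sum_congr rfl fun P _ => ?_
  rw [mul_sum]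
  refine sum_congr rfl fun Q _ => ?_
  rw [unrot_ins, unrot_ins, hW.insm, rot_unrot, rot_unrot]
  ring

end pat

end Pool.Agent.H15.Exact

end

section

/-!
# Project EXACT, one-arm formula: the qKZ solution and its complex conjugate

`QP κ Φ` lists the properties of the polynomial qKZ solution with the cube root of unity `κ` in
terms of sequences of parameters.
-/

set_option autoImplicit false

open Finset

namespace Pool.Agent.H15.Exact

open H56.EX

section conj

end conj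

end Pool.Agent.H15.Exact

end

section

/-!
# Project EXACT, one-arm formula: symmetry and wheel recursion
-/

set_option autoImplicit false

open Finset

namespace Pool.Agent.H15.Exact

open H56.EX

end Pool.Agent.H15.Exact

end

section

/-!
# Project EXACT, one-arm formula: polynomials in two variables

The outer variable is `x` and the inner variable is `y`.
-/

set_option autoImplicit false

open Finset

namespace Pool.Agent.H15.Exact

open H56.EX
open scoped Classical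

section vec

variable {L : ℕ}

end vec

section FB

end FB

end Pool.Agent.H15.Exact

end

section

/-!
# Project EXACT, one-arm formula: the top coefficient of the vector
-/

set_option autoImplicit false

open Finset

namespace Pool.Agent.H15.Exact

open H56.EX
open scoped Classical

section

end

end Pool.Agent.H15.Exact

end

section

/-!
# Project EXACT, one-arm formula: the top coefficient of the pairing
-/

set_option autoImplicit false

open Finset

namespace Pool.Agent.H15.Exact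

open H56.EX
open scoped Classical

variable {κ τ : ℂ} {Φ Φ' : ∀ L : ℕ, Pat L → (ℕ → ℂ) → ℂ} {W : ∀ L : ℕ, Pat L → Pat L → ℂ}

theorem top_form (h : QP κ Φ) (hW : FormProps τ W) {N : ℕ} (z : ℕ → ℂ)
    {C C' : Pat (N + 2) → ℂ}
    (e1 : (κ - 1) • C = (-κ / 3 ^ N) • (κ ^ 2 • i0 N (vec Φ N z) -
        Sop κ N (i0 N (vec Φ N z))))
    (e2 : eL (N + 2) 0 (Sop κ N (i0 N (vec Φ N z))) = i0 N (vec Φ N z))
    (e1' : (κ ^ 2 - 1) • C' = (-κ ^ 2 / 3 ^ N) • ((κ ^ 2) ^ 2 • i0 N (vec Φ' N z) -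
        Sop (κ ^ 2) N (i0 N (vec Φ' N z))))
    (e2' : eL (N + 2) 0 (Sop (κ ^ 2) N (i0 N (vec Φ' N z))) = i0 N (vec Φ' N z)) :
    bf (W (N + 2)) C' C = (τ + 2) / (3 * 9 ^ N) * Gv W Φ' Φ N z := by
  have hk := h.kk
  have hk3 := h.cube
  have hk4 : κ ^ 4 = κ := by linear_combination κ * hk3
  set B := bf (W (N + 2)) with hB
  set u := i0 N (vec Φ N z) with hu
  set u' := i0 N (vec Φ' N z) with hu'
  set v := Sop κ N u with hv
  set v' := Sop (κ ^ 2) N u' with hv'
  have hadj : ∀ i : ℤ, 0 ≤ i → i + 1 < (N + 2 : ℕ) → ∀ P Q : Pat (N + 2),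
      W (N + 2) (E i P) Q = W (N + 2) P (E i Q) := fun i h0 h1 P Q => hW.adj (N + 2) i h0 h1 P Q
  have hadj0 : ∀ c d : Pat (N + 2) → ℂ, B (eL (N + 2) 0 c) d = B c (eL (N + 2) 0 d) :=
    fun c d => bf_eL (fun P Q => hadj 0 (by omega) (by omega) P Q) c d
  have g1 : B u' u = Gv W Φ' Φ N z := bf_i0 hW _ _
  have g2 : B v' v = τ * Gv W Φ' Φ N z := by
    have h1 : B v' v = B (rI (N + 2) u') (rI (N + 2) u) :=
      chn_adj hk hadj _ _ N le_rfl
    rw [h1]
    exact bf_rI_i0 hW _ _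
  have g3 : B u' v = Gv W Φ' Φ N z := by
    rw [← g1]
    conv_lhs => rw [hu', ← eL_i0, hadj0, e2]
  have g4 : B v' u = Gv W Φ' Φ N z := by
    rw [← g1]
    conv_lhs => rw [hu, ← eL_i0, ← hadj0, e2']
  have h2 := congrArg₂ (fun a b => B a b) e1' e1
  simp only [map_sub, map_smul, LinearMap.sub_apply, LinearMap.smul_apply, smul_eq_mul, g1, g2,
    g3, g4] at h2
  have h9 : (9 : ℂ) ^ N = 3 ^ N * 3 ^ N := by
    rw [← mul_pow]; norm_num
  obtain ⟨t, ht⟩ : ∃ t : ℂ, t = (3 ^ N)⁻¹ := ⟨_, rfl⟩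
  rw [h9]
  simp only [div_eq_mul_inv, mul_inv, ← ht] at h2 ⊢
  linear_combination (1 / 3) * h2 - (1 / 3) * B C' C * (hk3 - hk) +
    (1 / 3) * t ^ 2 * Gv W Φ' Φ N z *
      ((τ + κ ^ 6 + κ ^ 3 + 1 - κ ^ 4 - κ - κ ^ 2) * hk3 - hk)

/-- The top coefficient of the pairing. -/
theorem G_top (h : QP κ Φ) (h' : QP (κ ^ 2) Φ') (hW : FormProps τ W) {N : ℕ} (hN : 2 ≤ N)
    (z : ℕ → ℂ) : ∃ p : BV,
      (∀ x y, ev x y p = Gv W Φ' Φ (N + 2) (scons x (scons y z))) ∧
      p.natDegree ≤ 2 * (N + 1) ∧ (p.coeff (2 * (N + 1))).natDegree ≤ 2 * N ∧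
      (p.coeff (2 * (N + 1))).coeff (2 * N) = (τ + 2) / (3 * 9 ^ N) * Gv W Φ' Φ N z := by
  obtain ⟨F, hF1, hF2, hF3, hF4, hF5⟩ := h.top hN z
  obtain ⟨F', hF1', hF2', hF3', hF4', hF5'⟩ := h'.top hN z
  have hc : ∀ P Q, (Polynomial.C (Polynomial.C (W (N + 2) P Q)) * (F' P * F Q)).coeff
      (2 * (N + 1)) = Polynomial.C (W (N + 2) P Q) *
        ((F' P).coeff (N + 1) * (F Q).coeff (N + 1)) := by
    intro P Q
    rw [Polynomial.coeff_C_mul, two_mul,
      Polynomial.coeff_mul_add_eq_of_natDegree_le (hF2' P) (hF2 Q)]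
  have hc2 : ∀ P Q, (Polynomial.C (W (N + 2) P Q) *
      ((F' P).coeff (N + 1) * (F Q).coeff (N + 1))).coeff (2 * N) =
        W (N + 2) P Q * (cfv (N + 1) N F' P * cfv (N + 1) N F Q) := by
    intro P Q
    rw [Polynomial.coeff_C_mul, two_mul,
      Polynomial.coeff_mul_add_eq_of_natDegree_le (hF3' P) (hF3 Q)]
    rfl
  refine ⟨∑ P, ∑ Q, Polynomial.C (Polynomial.C (W (N + 2) P Q)) * (F' P * F Q), ?_, ?_, ?_, ?_⟩
  · intro x y
    unfold Gv
    rw [bf_apply, map_sum]
    refine sum_congr rfl fun P _ => ?_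
    rw [map_sum]
    refine sum_congr rfl fun Q _ => ?_
    rw [map_mul, map_mul, ev_CC, hF1, hF1']
    rfl
  · apply Polynomial.natDegree_sum_le_of_forall_le
    intro P _
    apply Polynomial.natDegree_sum_le_of_forall_le
    intro Q _
    refine (Polynomial.natDegree_C_mul_le _ _).trans (Polynomial.natDegree_mul_le.trans ?_)
    have := hF2 Q
    have := hF2' P
    omega
  · rw [Polynomial.finsetSum_coeff]
    apply Polynomial.natDegree_sum_le_of_forall_le
    intro P _
    rw [Polynomial.finsetSum_coeff]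
    apply Polynomial.natDegree_sum_le_of_forall_le
    intro Q _
    rw [hc]
    refine (Polynomial.natDegree_C_mul_le _ _).trans (Polynomial.natDegree_mul_le.trans ?_)
    have := hF3 Q
    have := hF3' P
    omega
  · have h1 := top_form h hW z hF4 hF5 hF4' hF5'
    rw [← h1, bf_apply, Polynomial.finsetSum_coeff, Polynomial.finsetSum_coeff]
    refine sum_congr rfl fun P _ => ?_
    rw [Polynomial.finsetSum_coeff, Polynomial.finsetSum_coeff]
    refine sum_congr rfl fun Q _ => ?_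
    rw [hc, hc2]

end Pool.Agent.H15.Exact

end

section

/-!
# Project EXACT, one-arm formula: two strands
-/

set_option autoImplicit false

open Finset

namespace Pool.Agent.H15.Exact

open H56.EX
open scoped Classical

end Pool.Agent.H15.Exact

end

section

/-!
# Project EXACT, one-arm formula: the pairing as a symmetric polynomial, and its value at `1`
-/

set_option autoImplicit false

open Finset

namespace Pool.Agent.H15.Exact

open H56.EX
open scoped Classical

variable {κ τ : ℂ} {Φ Φ' : ∀ L : ℕ, Pat L → (ℕ → ℂ) → ℂ} {W : ∀ L : ℕ, Pat L → Pat L → ℂ}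

theorem GG_top (h : QP κ Φ) (h' : QP (κ ^ 2) Φ') (hW : FormProps τ W) (n : ℕ)
    (z : Fin (2 * n) → ℂ) : ∃ p : Polynomial (Polynomial ℂ),
      p.natDegree ≤ 2 * (2 * n + 1) ∧ (p.coeff (2 * (2 * n + 1))).natDegree ≤ 2 * (2 * n) ∧
      (p.coeff (2 * (2 * n + 1))).coeff (2 * (2 * n)) =
        1 * (τ + 2) * MvPolynomial.eval z (GG h h' W n) ∧
      ∀ x y : ℂ, (p.eval (Polynomial.C x)).eval y = MvPolynomial.eval
        (Fin.cons x (Fin.cons y z : Fin (2 * n + 1) → ℂ) : Fin (2 * n + 2) → ℂ)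
          (GG h h' W (n + 1)) := by
  have e1 : ∀ x y : ℂ, MvPolynomial.eval (Fin.cons x (Fin.cons y z : Fin (2 * n + 1) → ℂ)
        : Fin (2 * n + 2) → ℂ) (GG h h' W (n + 1)) =
      cc (n + 1) * Gv W Φ' Φ (2 * n + 2) (scons x (scons y (ex (2 * n) z))) := by
    intro x y
    rw [← scons_cons, ← eval_GP h h']
    change MvPolynomial.eval _ (MvPolynomial.C (cc (n + 1)) * GP h h' W (2 * (n + 1))) = _
    rw [map_mul, MvPolynomial.eval_C]
    rfl
  rcases n with _ | n
  · have hc : (Polynomial.C (Polynomial.C (τ + 2)) * Polynomial.X ^ 2 +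
      (Polynomial.C (Polynomial.C (τ + 5) * Polynomial.X) * Polynomial.X +
        Polynomial.C (Polynomial.C (τ + 2) * Polynomial.X ^ 2)) : Polynomial (Polynomial ℂ)).coeff
          (2 * (2 * 0 + 1)) = Polynomial.C (τ + 2) := by
      rw [show 2 * (2 * 0 + 1) = 2 from rfl, Polynomial.coeff_add, Polynomial.coeff_add,
        Polynomial.coeff_C_mul_X_pow, if_pos rfl, Polynomial.coeff_C_mul,
        Polynomial.coeff_X_of_ne_one (by norm_num), Polynomial.coeff_C, if_neg (by norm_num),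
        mul_zero, add_zero, add_zero]
    refine ⟨Polynomial.C (Polynomial.C (τ + 2)) * Polynomial.X ^ 2 +
      (Polynomial.C (Polynomial.C (τ + 5) * Polynomial.X) * Polynomial.X +
        Polynomial.C (Polynomial.C (τ + 2) * Polynomial.X ^ 2)), ?_, ?_, ?_, ?_⟩
    · rw [show 2 * (2 * 0 + 1) = 2 from rfl]
      compute_degree
    · rw [hc, Polynomial.natDegree_C]
    · rw [hc]
      change (Polynomial.C (τ + 2)).coeff 0 = 1 * (τ + 2) * MvPolynomial.eval z 1
      rw [map_one, Polynomial.coeff_C_zero, one_mul, mul_one]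
    · intro x y
      rw [e1, show 2 * 0 + 2 = 2 from rfl, Gv_two h h' hW, cc, cc]
      simp only [scons, Polynomial.eval_add, Polynomial.eval_mul, Polynomial.eval_pow,
        Polynomial.eval_C, Polynomial.eval_X]
      ring
  · obtain ⟨p, h1, h2, h3, h4⟩ := G_top h h' hW (N := 2 * (n + 1)) (by omega) (ex (2 * (n + 1)) z)
    have e2 : MvPolynomial.eval z (GG h h' W (n + 1)) =
        cc (n + 1) * Gv W Φ' Φ (2 * (n + 1)) (ex (2 * (n + 1)) z) := by
      rw [← eval_GP' h h']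
      change MvPolynomial.eval z (MvPolynomial.C (cc (n + 1)) * GP h h' W (2 * (n + 1))) = _
      rw [map_mul, MvPolynomial.eval_C]
    refine ⟨Polynomial.C (Polynomial.C (cc (n + 1 + 1))) * p, ?_, ?_, ?_, ?_⟩
    · exact (Polynomial.natDegree_C_mul_le _ _).trans h2
    · rw [Polynomial.coeff_C_mul]
      exact (Polynomial.natDegree_C_mul_le _ _).trans h3
    · rw [Polynomial.coeff_C_mul, Polynomial.coeff_C_mul, h4, e2, cc]
      have e4 : (9 : ℂ) ^ (2 * (n + 1)) = 81 ^ (n + 1) := by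
        rw [pow_mul]; norm_num
      rw [e4]
      have e5 : (81 : ℂ) ^ (n + 1) ≠ 0 := pow_ne_zero _ (by norm_num)
      field_simp
    · intro x y
      rw [e1, ← h1]
      change ev x y (Polynomial.C (Polynomial.C (cc (n + 1 + 1))) * p) = _
      rw [map_mul, ev_CC]

end Pool.Agent.H15.Exact

end

section

/-!
# Project EXACT: the components of the qKZ solution at `ζ = 1` are real
-/

set_option autoImplicit false

open Finset

namespace Pool.Agent.H15.Exact

open H56.EX Pool.Agent.H12.QKZ Pool.Agent.H14.EX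
open scoped Classical

variable {L : ℕ}

/-- the conjugate solution -/
noncomputable def cinv (L : ℕ) (P : Pat L) (ζ : ℤ → ℂ) : ℂ :=
  (∏ k ∈ range L, ζ k ^ (L - 1)) *
    (starRingEnd ℂ) (Psi L P (fun x => (starRingEnd ℂ) (ζ x)⁻¹))

theorem cinv_exch (hL : 2 ≤ L) (P : Pat L) (ζ : ℤ → ℂ) (hζ : Per L ζ) (h0 : ∀ x, ζ x ≠ 0)
    (i : ℤ) :
    (q * ζ (i + 1) - q⁻¹ * ζ i) * cinv L P (swp L i ζ) =
      (q * ζ i - q⁻¹ * ζ (i + 1)) * cinv L P ζ +
        (ζ i - ζ (i + 1)) * eop i (fun P' => cinv L P' ζ) P := by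
  set η : ℤ → ℂ := fun x => (starRingEnd ℂ) (ζ x)⁻¹ with hη
  have hper : Per L η := fun x => by
    show (starRingEnd ℂ) (ζ (x + L))⁻¹ = (starRingEnd ℂ) (ζ x)⁻¹
    rw [hζ]
  have h1 := congrArg (starRingEnd ℂ) (psiProps.exch L P η hper i)
  have hcq : (starRingEnd ℂ) q = q⁻¹ := by rw [conj_q, q_inv]
  have hcq' : (starRingEnd ℂ) q⁻¹ = q := by
    rw [map_inv₀, hcq, inv_inv]
  simp only [map_mul, map_sub, map_add, conj_eop, hcq, hcq'] at h1
  have e1 : ∀ x, (starRingEnd ℂ) (η x) = (ζ x)⁻¹ := by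
    intro x
    simp [hη]
  rw [e1, e1] at h1
  have e2 : swp L i η = fun x => (starRingEnd ℂ) (swp L i ζ x)⁻¹ := by
    funext x
    simp only [swp_eq, hη]
  have e3 : ∏ k ∈ range L, swp L i ζ k ^ (L - 1) = ∏ k ∈ range L, ζ k ^ (L - 1) :=
    prod_swp hL hζ i (fun x => x ^ (L - 1)) (Per_swp hζ i)
  rw [e2] at h1
  unfold cinv
  rw [e3]
  set Z0 := ∏ k ∈ range L, ζ k ^ (L - 1) with hZ0
  have e4 : eop i (fun P' => Z0 * (starRingEnd ℂ) (Psi L P' η)) P =
      Z0 * eop i (fun P' => (starRingEnd ℂ) (Psi L P' η)) P := by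
    unfold eop
    rw [mul_sum]
    refine sum_congr rfl fun P' _ => ?_
    split_ifs <;> simp
  change _ = (q * ζ i - q⁻¹ * ζ (i + 1)) * (Z0 * (starRingEnd ℂ) (Psi L P η)) +
    (ζ i - ζ (i + 1)) * eop i (fun P' => Z0 * (starRingEnd ℂ) (Psi L P' η)) P
  rw [e4]
  have hi := h0 i
  have hi1 := h0 (i + 1)
  set A := (starRingEnd ℂ) (Psi L P (fun x => (starRingEnd ℂ) (swp L i ζ x)⁻¹))
  set B := (starRingEnd ℂ) (Psi L P η)
  set C := eop i (fun P' => (starRingEnd ℂ) (Psi L P' η)) P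
  have h2 : ζ i * ζ (i + 1) * ((q⁻¹ * (ζ (i + 1))⁻¹ - q * (ζ i)⁻¹) * A) =
      ζ i * ζ (i + 1) * ((q⁻¹ * (ζ i)⁻¹ - q * (ζ (i + 1))⁻¹) * B +
        ((ζ i)⁻¹ - (ζ (i + 1))⁻¹) * C) := by
    rw [h1]
  have e5 : ζ i * (ζ i)⁻¹ = 1 := mul_inv_cancel₀ hi
  have e6 : ζ (i + 1) * (ζ (i + 1))⁻¹ = 1 := mul_inv_cancel₀ hi1
  linear_combination (-Z0) * h2 + Z0 * (q⁻¹ * ζ i * A + q * ζ i * B + ζ i * C) * e6 -
    Z0 * (q * ζ (i + 1) * A + q⁻¹ * ζ (i + 1) * B + ζ (i + 1) * C) * e5

theorem cinv_rot (P : Pat L) (ζ : ℤ → ℂ) (hζ : Per L ζ) :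
    cinv L (rot P) (fun x => ζ (x - 1)) = cinv L P ζ := by
  set η : ℤ → ℂ := fun x => (starRingEnd ℂ) (ζ x)⁻¹ with hη
  have hper : Per L η := fun x => by
    show (starRingEnd ℂ) (ζ (x + L))⁻¹ = (starRingEnd ℂ) (ζ x)⁻¹
    rw [hζ]
  unfold cinv
  have h1 := psiProps.rot L P η hper
  have h2 := prod_period (L := L) (ψ := fun x => ζ x ^ (L - 1)) (fun x => by
    show ζ (x + L) ^ (L - 1) = ζ x ^ (L - 1)
    rw [hζ]) (-1)
  have h3 : ∏ k ∈ range L, ζ ((k : ℤ) - 1) ^ (L - 1) = ∏ k ∈ range L, ζ k ^ (L - 1) := by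
    rw [← h2]
    refine prod_congr rfl fun k _ => ?_
    rw [show (-1 : ℤ) + k = k - 1 by ring]
  rw [h3]
  congr 2

theorem cinv_base (P : Pat L) (hP : IsBase P) (ζ : ℤ → ℂ) (h0 : ∀ x, ζ x ≠ 0) :
    cinv L P ζ = Psi L P ζ := by
  unfold cinv
  rw [psiProps.base L P _ hP, psiProps.base L P _ hP]
  have hcq : (starRingEnd ℂ) q = q⁻¹ := by rw [conj_q, q_inv]
  have hcq' : (starRingEnd ℂ) q⁻¹ = q := by
    rw [map_inv₀, hcq, inv_inv]
  rw [prod_pairs (fun k : ℕ => ζ k), map_prod, ← prod_mul_distrib]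
  refine prod_congr rfl fun j _ => ?_
  rw [map_prod, ← prod_mul_distrib]
  refine prod_congr rfl fun i _ => ?_
  simp only [map_div₀, map_sub, map_mul, hcq, hcq', Complex.conj_conj]
  have hi := h0 i
  have hj := h0 j
  have e5 : ζ i * (ζ i)⁻¹ = 1 := mul_inv_cancel₀ hi
  have e6 : ζ j * (ζ j)⁻¹ = 1 := mul_inv_cancel₀ hj
  rw [← neg_div_neg_eq (q⁻¹ * (ζ j)⁻¹ - q * (ζ i)⁻¹), mul_div_assoc', neg_sub, neg_sub]
  congr 1
  linear_combination q * ζ j * e5 - q⁻¹ * ζ i * e6

/-- The conjugate solution is the solution. -/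
theorem cinv_eq (P : Pat L) (ζ : ℤ → ℂ) (hζ : ζ ∈ gen L 0) : cinv L P ζ = Psi L P ζ := by
  have hL := P.two_le
  have key := triangular L (ℤ → ℂ) (gen L 0) (fun i ζ => swp L i ζ) (fun ζ x => ζ (x - 1))
    (fun ζ => ζ) (fun P ζ => cinv L P ζ - Psi L P ζ) ?_ ?_ ?_ ?_ ?_ ?_ P ζ hζ
  · exact sub_eq_zero.mp key
  · intro i ζ hζ
    exact gen_swp hL i hζ
  · rintro ζ ⟨h1, h2, h3⟩
    refine ⟨fun x => ζ (x + 1), ⟨?_, ?_, ?_⟩, ?_⟩
    · intro x
      show ζ (x + L + 1) = ζ (x + 1)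
      rw [show x + (L : ℤ) + 1 = x + 1 + L by ring, h1]
    · intro x y hxy
      have := h2 _ _ hxy
      have := Cg.sub 1 this
      simpa using this
    · intro x
      exact h3 (x + 1)
    · funext x
      show ζ (x - 1 + 1) = ζ x
      rw [sub_add_cancel]
  · rintro ζ ⟨_, h2, _⟩ i h
    exact not_Cg_succ hL i (h2 _ _ h)
  · rintro P ζ ⟨h1, _, h3⟩ i
    have e1 := cinv_exch hL P ζ h1 (fun x => (h3 x).1) i
    have e2 := psiProps.exch L P ζ h1 i
    have e3 : eop i (fun P' => cinv L P' ζ - Psi L P' ζ) P =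
        eop i (fun P' => cinv L P' ζ) P - eop i (fun P' => Psi L P' ζ) P := by
      unfold eop
      rw [← sum_sub_distrib]
      refine sum_congr rfl fun P' _ => ?_
      split_ifs <;> simp
    rw [e3]
    linear_combination e1 - e2
  · rintro P ζ ⟨h1, _, _⟩
    show cinv L (rot P) (fun x => ζ (x - 1)) - Psi L (rot P) (fun x => ζ (x - 1)) = _
    rw [cinv_rot P ζ h1, psiProps.rot L P ζ h1]
  · rintro P hP ζ ⟨_, _, h3⟩
    rw [cinv_base P hP ζ (fun x => (h3 x).1), sub_self]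

theorem psi_cont (P : Pat L) (F : ℝ → ℤ → ℂ) (hF : ∀ k, ContinuousAt (fun t => F t k) 0) :
    ContinuousAt (fun t => Psi L P (F t)) 0 := by
  obtain ⟨p, hp⟩ := psiProps.mv L P
  have h1 : (fun t => Psi L P (F t)) =
      (fun s : Fin L → ℂ => MvPolynomial.eval s p) ∘ fun t => fun k : Fin L => F t ((k : ℕ) : ℤ) := by
    funext t
    exact hp (F t)
  rw [h1]
  refine ContinuousAt.comp ?_ ?_
  · exact (MvPolynomial.continuous_eval p).continuousAt
  · exact continuousAt_pi.mpr fun k => hF _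

/-- The components at `ζ = 1` are real. -/
theorem conj_psi_one (P : Pat L) :
    (starRingEnd ℂ) (Psi L P (fun _ => 1)) = Psi L P (fun _ => 1) := by
  have hL := P.two_le
  have hLp : (0 : ℤ) < L := by omega
  set zt : ℝ → ℤ → ℂ := fun t x => 1 + (t : ℂ) * ((x % (L : ℤ) : ℤ) : ℂ) with hzt
  have hre : ∀ t x, zt t x = ((1 + t * ((x % (L : ℤ) : ℤ) : ℝ) : ℝ) : ℂ) := by
    intro t x
    simp [hzt]
  have hgen : ∀ t : ℝ, 0 < t → zt t ∈ gen L 0 := by
    intro t ht
    refine ⟨?_, ?_, ?_⟩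
    · intro x
      simp only [hzt, Int.add_emod_right]
    · intro x y hxy
      simp only [hzt] at hxy
      have h1 : (t : ℂ) * ((x % (L : ℤ) : ℤ) : ℂ) = (t : ℂ) * ((y % (L : ℤ) : ℤ) : ℂ) :=
        add_left_cancel hxy
      have ht0 : (t : ℂ) ≠ 0 := by exact_mod_cast ht.ne'
      have h2 := mul_left_cancel₀ ht0 h1
      have h3 : x % (L : ℤ) = y % (L : ℤ) := by exact_mod_cast h2
      unfold Cg
      exact Int.ModEq.dvd h3.symm
    · intro x
      have h1 : (0 : ℝ) ≤ ((x % (L : ℤ) : ℤ) : ℝ) := by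
        exact_mod_cast Int.emod_nonneg x hLp.ne'
      have h2 : zt t x ≠ 0 := by
        rw [hre]
        have : (0 : ℝ) < 1 + t * ((x % (L : ℤ) : ℤ) : ℝ) := by positivity
        exact_mod_cast this.ne'
      exact ⟨h2, by rwa [mul_zero]⟩
  have hz0 : zt 0 = fun _ => 1 := by
    funext x
    simp [hzt]
  have c0 : ∀ k, ContinuousAt (fun t : ℝ => zt t k) 0 := by
    intro k
    have : Continuous (fun t : ℝ => zt t k) := by
      simp only [hzt]
      fun_prop
    exact this.continuousAt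
  have c1 : ∀ k, ContinuousAt (fun t : ℝ => (starRingEnd ℂ) (zt t k)⁻¹) 0 := by
    intro k
    have h1 : ContinuousAt (fun t : ℝ => (zt t k)⁻¹) 0 :=
      (c0 k).inv₀ (by rw [hz0]; exact one_ne_zero)
    exact Complex.continuous_conj.continuousAt.comp h1
  have h1 : ContinuousAt (fun t : ℝ => cinv L P (zt t)) 0 := by
    unfold cinv
    refine ContinuousAt.mul ?_ ?_
    · have := tendsto_finsetProd (f := fun (k : ℕ) (t : ℝ) => zt t k ^ (L - 1))
        (x := nhds (0 : ℝ)) (a := fun k => zt 0 k ^ (L - 1)) (range L)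
        (fun k _ => ((c0 k).pow (L - 1)))
      exact this
    · exact Complex.continuous_conj.continuousAt.comp
        (psi_cont P (fun t x => (starRingEnd ℂ) (zt t x)⁻¹) c1)
  have h2 : ContinuousAt (fun t : ℝ => Psi L P (zt t)) 0 := psi_cont P zt c0
  have h3 : Filter.Tendsto (fun t : ℝ => cinv L P (zt t)) (nhdsWithin 0 (Set.Ioi 0))
      (nhds (cinv L P (zt 0))) := h1.tendsto.mono_left nhdsWithin_le_nhds
  have h4 : Filter.Tendsto (fun t : ℝ => Psi L P (zt t)) (nhdsWithin 0 (Set.Ioi 0))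
      (nhds (Psi L P (zt 0))) := h2.tendsto.mono_left nhdsWithin_le_nhds
  have h5 : cinv L P (zt 0) = Psi L P (zt 0) := by
    refine tendsto_nhds_unique h3 (h4.congr' ?_)
    filter_upwards [self_mem_nhdsWithin] with t ht
    exact (cinv_eq P (zt t) (hgen t ht)).symm
  rw [hz0] at h5
  have h6 : cinv L P (fun _ => 1) = (starRingEnd ℂ) (Psi L P (fun _ => 1)) := by
    unfold cinv
    simp
  rw [← h6, h5]

end Pool.Agent.H15.Exact

end

section

/-!
# Project EXACT, one-arm formula: final statements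

`vR P` is the component at the pattern `P` of the stationary vector (`ζ = 1`).
-/

set_option autoImplicit false

open Finset

namespace Pool.Agent.H15.Exact

open H56.EX Pool.Agent.H12.QKZ
open scoped Classical

variable {κ τ : ℂ} {Φ Φ' : ∀ L : ℕ, Pat L → (ℕ → ℂ) → ℂ} {W : ∀ L : ℕ, Pat L → Pat L → ℂ}

/-- **The one-arm formula**: the pairing at `ζ = 1`. -/
theorem Gv_one (h : QP κ Φ) (h' : QP (κ ^ 2) Φ') (hW : FormProps τ W) (ω : ℂ)
    (hω : ω * (τ + 2) = (1 + ω) ^ 2) (n : ℕ) (hn : 1 ≤ n) :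
    ω ^ n * Gv W Φ' Φ (2 * n) (fun _ => 1) =
      (ω • (1 : Matrix (Fin (2 * n)) (Fin (2 * n)) ℂ) + EX93.pasc ℂ (2 * n)).det := by
  have h1 := EX93.eval_one κ ω 1 τ h.kk hω (GG h h' W) (fun z => by
      change MvPolynomial.eval z 1 = 1
      exact map_one _)
    (fun n σ z => by
      rcases n with _ | n
      · change MvPolynomial.eval _ 1 = MvPolynomial.eval _ 1
        rw [map_one, map_one]
      · change MvPolynomial.eval _ (MvPolynomial.C (cc (n + 1)) * GP h h' W (2 * (n + 1))) =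
          MvPolynomial.eval _ (MvPolynomial.C (cc (n + 1)) * GP h h' W (2 * (n + 1)))
        rw [map_mul, map_mul, GP_perm h h' hW, MvPolynomial.eval_C, MvPolynomial.eval_C])
    (GG_wheel h h' hW) (GG_top h h' hW) n
  rw [eval_GG_one h h' n hn, cc_eq, one_pow, one_mul] at h1
  have h3 : (3 : ℂ) ^ (n * (2 * n - 1)) ≠ 0 := pow_ne_zero _ (by norm_num)
  apply mul_left_cancel₀ h3
  rw [← h1]
  ring

/-- Square of the pairing at `ζ = 1`. -/
theorem Gv_one_sq (h : QP κ Φ) (h' : QP (κ ^ 2) Φ') (hW : FormProps τ W) (n : ℕ) (hn : 1 ≤ n) :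
    Gv W Φ' Φ (2 * n) (fun _ => 1) ^ 2 =
      (1 + τ • EX93.pasc ℂ (2 * n) + EX93.pasc ℂ (2 * n) ^ 2).det := by
  obtain ⟨ω, hω, h1, h2, h3⟩ := EX93.exists_omega τ
  have e1 := Gv_one h h' hW ω h1 n hn
  have e2 := Gv_one h h' hW ω⁻¹ h2 n hn
  rw [← EX93.det_factor ω τ hω h3, ← e1, ← e2]
  have hn : ω ^ n * ω⁻¹ ^ n = 1 := by
    rw [← mul_pow, mul_inv_cancel₀ hω, one_pow]
  linear_combination (-(Gv W Φ' Φ (2 * n) (fun _ => 1) ^ 2)) * hn

/-- The stationary vector (real components). -/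
noncomputable def vR (L : ℕ) (P : Pat L) : ℝ := (Psi L P (fun _ => 1)).re

theorem vR_eq (L : ℕ) (P : Pat L) : (vR L P : ℂ) = Psi L P (fun _ => 1) :=
  Complex.conj_eq_iff_re.mp (conj_psi_one P)

/-- The solution with parameters given by a sequence. -/
noncomputable def Phi0 : ∀ L : ℕ, Pat L → (ℕ → ℂ) → ℂ := fun L P s => Psi L P (par L s)

theorem qp0 : QP q Phi0 := qp_of_psi psiProps

theorem qp0' : QP (q ^ 2) (cj Phi0) := by
  have := qp_conj qp0
  rwa [conj_q] at this

theorem vec_phi (L : ℕ) : vec Phi0 L (fun _ => 1) = fun P => (vR L P : ℂ) := by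
  funext P
  rw [vR_eq]
  rfl

theorem vec_cj (L : ℕ) : vec (cj Phi0) L (fun _ => 1) = fun P => (vR L P : ℂ) := by
  funext P
  change (starRingEnd ℂ) (Psi L P (par L (fun _ => (starRingEnd ℂ) 1))) = _
  rw [map_one, vR_eq, ← conj_psi_one P]
  rfl

/-- The unnormalised one-arm sum. -/
noncomputable def arm1 (L : ℕ) : ℝ :=
  ∑ P : Pat L, ∑ Q : Pat L, if Pool.Agent.H89.Link.NoSurr P Q then vR L P * vR L Q else 0

theorem arm1_sq (n : ℕ) (hn : 1 ≤ n) :
    arm1 (2 * n) ^ 2 = (1 + EX93.pasc ℝ (2 * n) ^ 2).det := by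
  have h1 := Gv_one_sq qp0 qp0' formProps_zero n hn
  have h2 : Gv W0 (cj Phi0) Phi0 (2 * n) (fun _ => 1) = ((arm1 (2 * n) : ℝ) : ℂ) := by
    unfold Gv arm1
    rw [vec_phi, vec_cj, bf_apply, Complex.ofReal_sum]
    refine sum_congr rfl fun P _ => ?_
    rw [Complex.ofReal_sum]
    refine sum_congr rfl fun Q _ => ?_
    by_cases h : Pool.Agent.H89.Link.NoSurr P Q
    · rw [if_pos h, W0_of_not ((noSurr_iff P Q).mp h), one_mul, Complex.ofReal_mul]
    · rw [if_neg h, W0_of (not_not.mp (fun h' => h ((noSurr_iff P Q).mpr h'))), zero_mul,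
        Complex.ofReal_zero]
  rw [h2] at h1
  have h3 := EX93.det_pasc_real (2 * n) 0
  rw [Complex.ofReal_zero, zero_smul, zero_smul, add_zero, add_zero] at h3
  rw [zero_smul, add_zero, h3] at h1
  exact_mod_cast h1

theorem sum_vR_pow (n : ℕ) (hn : 1 ≤ n) :
    (∑ P : Pat (2 * n), vR (2 * n) P) ^ 4 =
      (1 + EX93.pasc ℝ (2 * n) + EX93.pasc ℝ (2 * n) ^ 2).det := by
  have h1 := Gv_one_sq qp0 qp0' formProps_one n hn
  have h2 : Gv (fun _ _ _ => 1) (cj Phi0) Phi0 (2 * n) (fun _ => 1) =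
      (((∑ P : Pat (2 * n), vR (2 * n) P) ^ 2 : ℝ) : ℂ) := by
    unfold Gv
    rw [vec_phi, vec_cj, bf_apply, sq, Complex.ofReal_mul, Complex.ofReal_sum, sum_mul]
    refine sum_congr rfl fun P _ => ?_
    rw [mul_sum]
    refine sum_congr rfl fun Q _ => ?_
    rw [one_mul]
  rw [h2] at h1
  have h3 := EX93.det_pasc_real (2 * n) 1
  rw [Complex.ofReal_one, one_smul, one_smul] at h3
  rw [one_smul, h3] at h1
  have h4 : ((∑ P : Pat (2 * n), vR (2 * n) P) ^ 2) ^ 2 =
      (1 + EX93.pasc ℝ (2 * n) + EX93.pasc ℝ (2 * n) ^ 2).det := by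
    exact_mod_cast h1
  rw [← h4]
  ring

/-- **One-arm formula**, normalised. -/
theorem oneArm_formula (n : ℕ) (hn : 1 ≤ n) :
    (arm1 (2 * n) / (∑ P : Pat (2 * n), vR (2 * n) P) ^ 2) ^ 2 =
      (1 + EX93.pasc ℝ (2 * n) ^ 2).det /
        (1 + EX93.pasc ℝ (2 * n) + EX93.pasc ℝ (2 * n) ^ 2).det := by
  rw [div_pow, arm1_sq n hn, ← pow_mul, sum_vR_pow n hn]

end Pool.Agent.H15.Exact

end
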